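import Pool.Agent.RH6.ADef

open Matrix

namespace RH6

/-! Row [RH-A1]: the form `J0` in the language of `Base`/`W02`. -/

theorem mR_G0 : mR G0 = J0 := by
  ext i j
  fin_cases i <;> fin_cases j <;> simp [mR, G0, J0]

theorem bR_G0 (x y : Fin 7 → ℝ) : bR G0 x y = x ⬝ᵥ (J0 *ᵥ y) := by
  have h := mR_G0
  unfold mR at h
  unfold bR
  rw [h]

theorem a1_J0 (x y : Fin 7 → ℝ) : x ⬝ᵥ (J0 *ᵥ y) =
    x 0 * y 0 + x 1 * y 1 + x 2 * y 2 + x 3 * y 3 + x 4 * y 4 + x 5 * y 5 - x 6 * y 6 := by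
  unfold J0
  simp only [dotProduct, Matrix.mulVec_diagonal, Fin.sum_univ_succ, Fin.sum_univ_zero]
  simp [Matrix.cons_val_zero]
  ring

theorem a1_bR (x y : Fin 7 → ℝ) : bR G0 x y =
    x 0 * y 0 + x 1 * y 1 + x 2 * y 2 + x 3 * y 3 + x 4 * y 4 + x 5 * y 5 - x 6 * y 6 := by
  rw [bR_G0, a1_J0]

theorem a1_h0 (x : Fin 7 → ℝ) : bR G0 x (toR h0) = -x 6 := by
  rw [a1_bR]
  simp [toR, h0]

theorem lor_G0 : Lor G0 h0 := by
  refine ⟨?_, ?_, ?_⟩
  · unfold G0
    exact Matrix.diagonal_transpose _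
  · decide
  · intro x hx hx0
    rw [a1_h0, neg_eq_zero] at hx
    obtain ⟨i, hi⟩ := Function.ne_iff.1 hx0
    have hi' : x i ≠ 0 := hi
    rw [a1_bR, hx]
    have h1 : ∀ j : Fin 7, 0 ≤ x j * x j := fun j => mul_self_nonneg _
    have h2 : 0 < x i * x i := mul_self_pos.2 hi'
    have h10 := h1 0
    have h11 := h1 1
    have h12 := h1 2
    have h13 := h1 3
    have h14 := h1 4
    have h15 := h1 5
    fin_cases i
    · simp only [Fin.zero_eta, Fin.isValue] at h2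
      linarith
    · simp only [Fin.mk_one, Fin.isValue] at h2
      linarith
    · simp only [Fin.reduceFinMk, Fin.isValue] at h2
      linarith
    · simp only [Fin.reduceFinMk, Fin.isValue] at h2
      linarith
    · simp only [Fin.reduceFinMk, Fin.isValue] at h2
      linarith
    · simp only [Fin.reduceFinMk, Fin.isValue] at h2
      linarith
    · exact absurd hx hi'

theorem up_iff (x : Fin 7 → ℝ) : Up x ↔ Fwd G0 h0 x := by
  unfold Up Fwd
  rw [bR_G0, a1_h0, neg_lt_zero]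

theorem a1_inv {g : GL (Fin 7) ℝ} (hg : g.1ᵀ * J0 * g.1 = J0) (x y : Fin 7 → ℝ) :
    bR G0 (g.1 *ᵥ x) (g.1 *ᵥ y) = bR G0 x y := by
  rw [bR_G0, bR_G0, ← Matrix.vecMul_transpose g.1 x, ← Matrix.dotProduct_mulVec,
    Matrix.mulVec_mulVec, Matrix.mulVec_mulVec, hg]

/-- for isotropic `v ≠ 0` and `y` orthogonal to `v`, not proportional to `v`: `(y,y) > 0`.
Proof: `(v,H) ≠ 0` (else `v = 0` by `hL.pos`), choose `t` with `(y - t v, H) = 0`; then
`y - t v ≠ 0` and `(y,y) = (y - tv, y - tv) > 0`. -/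
theorem pos_of_orth_iso {G : Matrix (Fin 7) (Fin 7) ℤ} {h : Fin 7 → ℤ} (hL : Lor G h)
    {v y : Fin 7 → ℝ} (hv : v ≠ 0) (hv0 : bR G v v = 0) (hy : bR G y v = 0)
    (hne : ∀ t : ℝ, y ≠ t • v) : 0 < bR G y y := by
  have hvH : bR G v (toR h) ≠ 0 := by
    intro h0
    have h1 := hL.pos v h0 hv
    rw [hv0] at h1
    exact lt_irrefl _ h1
  have hz : y - (bR G y (toR h) / bR G v (toR h)) • v ≠ 0 := fun h0 => hne _ (sub_eq_zero.1 h0)
  have h1 := hL.pos _ (by rw [bR_sub_left, bR_smul_left, div_mul_cancel₀ _ hvH, sub_self]) hz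
  rw [bR_sub_left, bR_sub_right, bR_sub_right, bR_smul_left, bR_smul_left, bR_smul_right,
    bR_smul_right, bR_symm hL.symm v y, hy, hv0] at h1
  linarith

/-- an element of `GL₇(ℝ)` preserving `J0` and mapping *one* vector of the cone `Up` into `Up`
belongs to `IsomH6`.
Proof: let `u` and `g u` be in the cone.  For `x` in the cone, `(g x, g x) < 0` and
`(g x, g u) = (x, u) < 0`, so `g x` is in the cone (`fwd_of_neg`).  Conversely, if `g x` is in the
cone then `(x,x) < 0` and `(x,u) = (g x, g u) < 0`, so `x` is in the cone. -/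
theorem mem_IsomH6_of_one {g : GL (Fin 7) ℝ} (hg : g.1ᵀ * J0 * g.1 = J0) {u : Fin 7 → ℝ}
    (hu : Up u) (hgu : Up (g.1 *ᵥ u)) : g ∈ IsomH6 := by
  have hu' := (up_iff u).1 hu
  have hgu' := (up_iff _).1 hgu
  refine ⟨hg, fun x => ⟨fun hx => ?_, fun hx => ?_⟩⟩
  · have hx' := (up_iff x).1 hx
    refine (up_iff _).2 (fwd_of_neg lor_G0 hgu' ?_ ?_)
    · rw [a1_inv hg]
      exact hx'.1
    · rw [a1_inv hg]
      exact neg_of_fwd lor_G0 hx' hu'
  · have hx' := (up_iff _).1 hx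
    refine (up_iff _).2 (fwd_of_neg lor_G0 hu' ?_ ?_)
    · have h1 := hx'.1
      rw [a1_inv hg] at h1
      exact h1
    · have h1 := neg_of_fwd lor_G0 hx' hgu'
      rw [a1_inv hg] at h1
      exact h1

/-- likewise, if `g` fixes an isotropic vector `v ≠ 0`.
Proof: let `u` be in the cone (e.g. the last basis vector); `±v` is closed forward, and
`(g u, v) = (g u, g v) = (u,v) ≠ 0`.  If `g u` is not in the cone then `-g u` is (`(gu,gu) < 0`), and
`(-g u, ±v) < 0`, `(u, ±v) < 0` by `neg_of_closed` give a contradiction. -/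
theorem mem_IsomH6_of_fix {g : GL (Fin 7) ℝ} (hg : g.1ᵀ * J0 * g.1 = J0) {v : Fin 7 → ℝ}
    (hv : v ≠ 0) (hv0 : v ⬝ᵥ (J0 *ᵥ v) = 0) (hgv : g.1 *ᵥ v = v) : g ∈ IsomH6 := by
  have hu : Fwd G0 h0 (toR h0) := fwd_h lor_G0
  by_cases hgu : Up (g.1 *ᵥ toR h0)
  · exact mem_IsomH6_of_one hg ((up_iff _).2 hu) hgu
  exfalso
  have hguu : bR G0 (g.1 *ᵥ toR h0) (g.1 *ᵥ toR h0) < 0 := by
    rw [a1_inv hg]
    exact hu.1
  have hneg : Fwd G0 h0 (-(g.1 *ᵥ toR h0)) := by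
    refine ⟨by rw [bR_neg_left, bR_neg_right, neg_neg]; exact hguu, ?_⟩
    rw [bR_neg_left, neg_lt_zero]
    rw [up_iff] at hgu
    have h1 : ¬ bR G0 (g.1 *ᵥ toR h0) (toR h0) < 0 := fun h => hgu ⟨hguu, h⟩
    rcases lt_or_eq_of_le (not_lt.1 h1) with h2 | h2
    · exact h2
    · exfalso
      have h3 : g.1 *ᵥ toR h0 ≠ 0 := by
        intro h4
        rw [h4, bR_zero_left] at hguu
        exact lt_irrefl _ hguu
      have h4 := lor_G0.pos _ h2.symm h3
      linarith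
  have hvv : bR G0 v v = 0 := by rw [bR_G0]; exact hv0
  have key : ∀ w : Fin 7 → ℝ, w ≠ 0 → bR G0 w w = 0 → g.1 *ᵥ w = w → bR G0 w (toR h0) ≤ 0 →
      False := by
    intro w hw hw0 hgw hwh
    have h1 := neg_of_closed lor_G0 hw hw0.le hwh hu
    have h2 := neg_of_closed lor_G0 hw hw0.le hwh hneg
    rw [bR_neg_right] at h2
    have h3 := a1_inv hg w (toR h0)
    rw [hgw] at h3
    linarith
  rcases le_total (bR G0 v (toR h0)) 0 with h1 | h1
  · exact key v hv hvv hgv h1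
  · refine key (-v) (neg_ne_zero.2 hv) ?_ ?_ ?_
    · rw [bR_neg_left, bR_neg_right, neg_neg, hvv]
    · rw [Matrix.mulVec_neg, hgv]
    · rw [bR_neg_left]
      linarith

end RH6
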