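import Pool.Agent.RH6.W02

open Matrix

namespace RH6

/-!
Row [RH-W03]: roots and reflections.
-/

/-- Bezout for primitive vectors. -/
theorem w03_bezout {r : Fin 7 → ℤ} (h : ∀ d : ℤ, (∀ i, d ∣ r i) → IsUnit d) :
    ∃ c : Fin 7 → ℤ, ∑ i, c i * r i = 1 := by
  obtain ⟨d, hd⟩ := (IsPrincipalIdealRing.principal (Ideal.span (Set.range r))).principal
  have h1 : ∀ i, d ∣ r i := by
    intro i
    have h2 : r i ∈ Ideal.span (Set.range r) := Ideal.subset_span ⟨i, rfl⟩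
    rw [hd] at h2
    exact Ideal.mem_span_singleton.1 h2
  have h3 : Ideal.span (Set.range r) = ⊤ := by
    rw [hd]
    exact Ideal.span_singleton_eq_top.2 (h d h1)
  have h4 : (1 : ℤ) ∈ Ideal.span (Set.range r) := by rw [h3]; trivial
  exact Ideal.mem_span_range_iff_exists_fun.1 h4

theorem w03_single (G : Matrix (Fin 7) (Fin 7) ℤ) (r : Fin 7 → ℤ) (j : Fin 7) :
    bZ G (Pi.single j 1) r = (G *ᵥ r) j := by
  unfold bZ
  rw [single_one_dotProduct]

theorem w03_act_inv (g : GL (Fin 7) ℤ) (x : Fin 7 → ℤ) : g.1 *ᵥ ((g⁻¹).1 *ᵥ x) = x := by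
  rw [Matrix.mulVec_mulVec]
  have h : g.1 * (g⁻¹).1 = 1 := by
    have h1 : (g * g⁻¹).1 = g.1 * (g⁻¹).1 := rfl
    rw [← h1, mul_inv_cancel]; rfl
  rw [h, Matrix.one_mulVec]

theorem w03_inv_act (g : GL (Fin 7) ℤ) (x : Fin 7 → ℤ) : (g⁻¹).1 *ᵥ (g.1 *ᵥ x) = x := by
  rw [Matrix.mulVec_mulVec]
  have h : (g⁻¹).1 * g.1 = 1 := by
    have h1 : (g⁻¹ * g).1 = (g⁻¹).1 * g.1 := rfl
    rw [← h1, inv_mul_cancel]; rfl
  rw [h, Matrix.one_mulVec]

/-- cancellation of a nonzero integer -/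
theorem w03_cancel {n : ℤ} (hn : n ≠ 0) {x y : Fin 7 → ℤ} (h : n • x = n • y) : x = y := by
  funext i
  have h1 := congrFun h i
  simp only [Pi.smul_apply, smul_eq_mul] at h1
  exact mul_left_cancel₀ hn h1

theorem w03_congr (G A : Matrix (Fin 7) (Fin 7) ℤ) (x y : Fin 7 → ℤ) :
    bZ G (A *ᵥ x) (A *ᵥ y) = x ⬝ᵥ ((Aᵀ * G * A) *ᵥ y) := by
  unfold bZ
  rw [← Matrix.mulVec_mulVec, ← Matrix.mulVec_mulVec, Matrix.dotProduct_mulVec x,
    Matrix.vecMul_transpose]

/-- matrices are determined by their action -/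
theorem w03_ext {A B : Matrix (Fin 7) (Fin 7) ℤ} (h : ∀ x, A *ᵥ x = B *ᵥ x) : A = B := by
  ext i j
  have h1 := congrFun (h (Pi.single j 1)) i
  simpa using h1

/-- The norm of a root divides `2 det G`.
Proof: let `n = bZ G r r`.  For all `i`, `n ∣ 2 * bZ G (Pi.single i 1) r = 2 (G r)_i`.  Since
`adj(G) (G r) = det G • r`, `n ∣ 2 det G * r_j` for all `j`.  As `r` is primitive, `n ∣ 2 det G`
(e.g. `n / gcd(n, 2 det G)` divides all `r_j`, so it is a unit). -/
theorem root_norm_dvd {G : Matrix (Fin 7) (Fin 7) ℤ} {r : Fin 7 → ℤ} (hr : IsRoot G r) :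
    bZ G r r ∣ 2 * G.det := by
  obtain ⟨c, hc⟩ := w03_bezout hr.prim
  have h1 : ∀ i, bZ G r r ∣ 2 * (G *ᵥ r) i := fun i => by
    rw [← w03_single]
    exact hr.dvd _
  have h2 : ∀ j, bZ G r r ∣ 2 * G.det * r j := by
    intro j
    have h3 : G.det * r j = ∑ i, G.adjugate j i * (G *ᵥ r) i := by
      have h4 : G.adjugate *ᵥ (G *ᵥ r) = G.det • r := by
        rw [Matrix.mulVec_mulVec, Matrix.adjugate_mul, Matrix.smul_mulVec, Matrix.one_mulVec]
      have h5 := congrFun h4 j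
      rw [Pi.smul_apply, smul_eq_mul] at h5
      rw [← h5]
      rfl
    rw [mul_assoc, h3, Finset.mul_sum]
    refine Finset.dvd_sum fun i _ => ?_
    have h6 : 2 * (G.adjugate j i * (G *ᵥ r) i) = G.adjugate j i * (2 * (G *ᵥ r) i) := by ring
    rw [h6]
    exact Dvd.dvd.mul_left (h1 i) _
  have h7 : 2 * G.det = ∑ j, c j * (2 * G.det * r j) := by
    calc 2 * G.det = 2 * G.det * ∑ j, c j * r j := by rw [hc, mul_one]
      _ = _ := by
        rw [Finset.mul_sum]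
        exact Finset.sum_congr rfl fun j _ => by ring
  rw [h7]
  exact Finset.dvd_sum fun j _ => Dvd.dvd.mul_left (h2 j) _

/-- the reflection formula for real vectors -/
theorem w03_actR {G : Matrix (Fin 7) (Fin 7) ℤ} {r : Fin 7 → ℤ} {s : GL (Fin 7) ℤ}
    (hs : IsRefl G r s) (x : Fin 7 → ℝ) :
    (bZ G r r : ℝ) • actR s x = (bZ G r r : ℝ) • x - (2 * bR G x (toR r)) • toR r := by
  have hent : ∀ i j, bZ G r r * s.1 i j =
      bZ G r r * (1 : Matrix (Fin 7) (Fin 7) ℤ) i j - 2 * (G *ᵥ r) j * r i := by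
    intro i j
    have h1 := congrFun (hs (Pi.single j 1)) i
    rw [w03_single] at h1
    simpa [Matrix.one_apply, Pi.single_apply, eq_comm] using h1
  have hentR : ∀ i j, (bZ G r r : ℝ) * (s.1 i j : ℝ) =
      (bZ G r r : ℝ) * (if i = j then 1 else 0) - 2 * ((G *ᵥ r) j : ℝ) * (r i : ℝ) := by
    intro i j
    have h1 := hent i j
    rw [Matrix.one_apply] at h1
    by_cases hij : i = j
    · rw [if_pos hij] at h1 ⊢
      exact_mod_cast h1
    · rw [if_neg hij] at h1 ⊢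
      exact_mod_cast h1
  funext i
  have hG : bR G x (toR r) = ∑ j, x j * ((G *ᵥ r) j : ℝ) := by
    unfold bR toR dotProduct
    refine Finset.sum_congr rfl fun j _ => ?_
    congr 1
    simp [Matrix.mulVec, dotProduct]
  simp only [Pi.smul_apply, Pi.sub_apply, smul_eq_mul]
  rw [hG]
  unfold actR Matrix.mulVec dotProduct
  rw [Finset.mul_sum]
  have h2 : ∀ j, (bZ G r r : ℝ) * ((s.1.map (fun n : ℤ => (n : ℝ))) i j * x j) =
      (bZ G r r : ℝ) * (if i = j then x j else 0) -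
        2 * (x j * ((G *ᵥ r) j : ℝ)) * (r i : ℝ) := by
    intro j
    rw [Matrix.map_apply, ← mul_assoc, hentR]
    split_ifs <;> ring
  rw [Finset.sum_congr rfl fun j _ => h2 j, Finset.sum_sub_distrib, ← Finset.mul_sum,
    Finset.sum_ite_eq, if_pos (Finset.mem_univ i), ← Finset.sum_mul, ← Finset.mul_sum]
  rfl

/-- The reflection in a vector `r` of positive norm with `bZ G r r ∣ 2 bZ G x r` for all `x`
exists in `O'(G,ℤ)`.
Proof: the integral matrix `S = 1 - r ⊗ c`, `c_j = 2 (G r)_j / n` (`n = bZ G r r`) satisfies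
`n S x = n x - 2 (x,r) r`, `S² = 1` (so it is a unit), `Sᵀ G S = G` (check on `x, y`), and it
preserves the forward cone: for `x` forward, `(S x, S x) = (x,x) < 0` and
`(S x, x) = (x,x) - 2 (x,r)²/n < 0`, so `S x` is forward by `fwd_of_neg`; as `S² = 1` this gives
the equivalence. -/
theorem exists_refl {G : Matrix (Fin 7) (Fin 7) ℤ} {h : Fin 7 → ℤ} (hL : Lor G h)
    {r : Fin 7 → ℤ} (hpos : 0 < bZ G r r) (hd : ∀ x : Fin 7 → ℤ, bZ G r r ∣ 2 * bZ G x r) :
    ∃ s ∈ OG G h, IsRefl G r s := by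
  set n : ℤ := bZ G r r with hn
  have hd' : ∀ j, n ∣ 2 * (G *ᵥ r) j := fun j => by
    rw [← w03_single]
    exact hd _
  choose c hc using hd'
  -- the linear form `x ↦ c ⬝ x`
  have hcx : ∀ x : Fin 7 → ℤ, n * (c ⬝ᵥ x) = 2 * bZ G x r := by
    intro x
    unfold bZ dotProduct
    rw [Finset.mul_sum, Finset.mul_sum]
    refine Finset.sum_congr rfl fun j _ => ?_
    rw [← mul_assoc, ← hc j]
    ring
  have hcr : c ⬝ᵥ r = 2 := by
    have h1 := hcx r
    rw [← hn, mul_comm 2 n] at h1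
    exact mul_left_cancel₀ hpos.ne' h1
  set S : Matrix (Fin 7) (Fin 7) ℤ := 1 - Matrix.vecMulVec r c with hS
  have hSx : ∀ x : Fin 7 → ℤ, S *ᵥ x = x - (c ⬝ᵥ x) • r := by
    intro x
    rw [hS, Matrix.sub_mulVec, Matrix.one_mulVec]
    congr 1
    funext i
    simp only [Matrix.mulVec, dotProduct, Matrix.vecMulVec_apply, Pi.smul_apply, smul_eq_mul]
    rw [Finset.sum_mul]
    exact Finset.sum_congr rfl fun j _ => by ring
  have hcS : ∀ x : Fin 7 → ℤ, c ⬝ᵥ (S *ᵥ x) = - (c ⬝ᵥ x) := by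
    intro x
    rw [hSx, dotProduct_sub, dotProduct_smul, hcr, smul_eq_mul]
    ring
  have hSS : S * S = 1 := by
    apply w03_ext
    intro x
    rw [← Matrix.mulVec_mulVec, Matrix.one_mulVec, hSx (S *ᵥ x), hcS, hSx]
    rw [neg_smul, sub_neg_eq_add, sub_add_cancel]
  set s : GL (Fin 7) ℤ := ⟨S, S, hSS, hSS⟩ with hs
  have hsx : ∀ x : Fin 7 → ℤ, s.1 *ᵥ x = x - (c ⬝ᵥ x) • r := hSx
  have hrefl : IsRefl G r s := by
    intro x
    rw [hsx, smul_sub, ← hn, ← hcx, mul_smul]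
  have hiso : s.1ᵀ * G * s.1 = G := by
    have key : ∀ x y : Fin 7 → ℤ, bZ G (s.1 *ᵥ x) (s.1 *ᵥ y) = bZ G x y := by
      intro x y
      have e1 := hcx x
      have e2 := hcx y
      rw [hsx, hsx, bZ_sub_left, bZ_sub_right, bZ_sub_right, bZ_smul_left, bZ_smul_right,
        bZ_smul_left, bZ_smul_right, ← hn, bZ_symm hL.symm r y]
      have e3 : 2 * (bZ G x y - c ⬝ᵥ y * bZ G x r -
          (c ⬝ᵥ x * bZ G y r - c ⬝ᵥ x * (c ⬝ᵥ y * n))) = 2 * bZ G x y := by
        linear_combination (-(c ⬝ᵥ y)) * e1 * (-1) + (c ⬝ᵥ x) * e2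
      exact mul_left_cancel₀ (by norm_num) e3
    ext i j
    have h1 := key (Pi.single i 1) (Pi.single j 1)
    have h2 : bZ G (s.1 *ᵥ Pi.single i 1) (s.1 *ᵥ Pi.single j 1) = (s.1ᵀ * G * s.1) i j := by
      rw [w03_congr, single_one_dotProduct]
      simp
    have h3 : bZ G (Pi.single i 1) (Pi.single j 1) = G i j := by
      rw [w03_single]
      simp
    rw [← h2, h1, h3]
  have hss : ∀ x, actR s (actR s x) = x := by
    intro x
    have h1 : s * s = 1 := by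
      apply Units.ext
      exact hSS
    rw [← actR_mul, h1, actR_one]
  have hnR : (0 : ℝ) < (n : ℝ) := by exact_mod_cast hpos
  have hact : ∀ x : Fin 7 → ℝ,
      (n : ℝ) • actR s x = (n : ℝ) • x - (2 * bR G x (toR r)) • toR r :=
    fun x => w03_actR hrefl x
  have hfwd : ∀ x, Fwd G h x → Fwd G h (actR s x) := by
    intro x hx
    refine fwd_of_neg hL hx ?_ ?_
    · rw [bR_act hiso]
      exact hx.1
    · have h1 : (n : ℝ) * bR G (actR s x) x = (n : ℝ) * bR G x x - 2 * bR G x (toR r) ^ 2 := by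
        rw [← bR_smul_left, hact, bR_sub_left, bR_smul_left, bR_smul_left,
          bR_symm hL.symm (toR r) x]
        ring
      have h2 : (n : ℝ) * bR G (actR s x) x < 0 := by
        rw [h1]
        have h3 : (n : ℝ) * bR G x x < 0 := mul_neg_of_pos_of_neg hnR hx.1
        have h4 : 0 ≤ bR G x (toR r) ^ 2 := sq_nonneg _
        linarith
      by_contra h5
      have h6 : 0 ≤ (n : ℝ) * bR G (actR s x) x := mul_nonneg hnR.le (not_lt.1 h5)
      linarith
  refine ⟨s, mem_OG.2 ⟨hiso, fun x => ⟨hfwd x, fun hx => ?_⟩⟩, hrefl⟩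
  have h1 := hfwd _ hx
  rwa [hss] at h1

/-- a reflection acts on real vectors by the usual formula (extend from integer to real vectors:
both sides are linear in `x`, check on the standard basis `toR (Pi.single i 1)`) -/
theorem refl_actR {G : Matrix (Fin 7) (Fin 7) ℤ} {r : Fin 7 → ℤ} {s : GL (Fin 7) ℤ}
    (hs : IsRefl G r s) (x : Fin 7 → ℝ) :
    (bZ G r r : ℝ) • actR s x = (bZ G r r : ℝ) • x - (2 * bR G x (toR r)) • toR r :=
  w03_actR hs x

/-- two elements which are reflections in the same `r` (of nonzero norm) are equal -/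
theorem refl_unique {G : Matrix (Fin 7) (Fin 7) ℤ} {r : Fin 7 → ℤ} (hr : bZ G r r ≠ 0)
    {s s' : GL (Fin 7) ℤ} (hs : IsRefl G r s) (hs' : IsRefl G r s') : s = s' := by
  apply Units.ext
  apply w03_ext
  intro x
  exact w03_cancel hr ((hs x).trans (hs' x).symm)

theorem refl_sq {G : Matrix (Fin 7) (Fin 7) ℤ} (hG : Gᵀ = G) {r : Fin 7 → ℤ}
    (hr : bZ G r r ≠ 0) {s : GL (Fin 7) ℤ} (hs : IsRefl G r s) : s * s = 1 := by
  apply Units.ext
  apply w03_ext
  intro x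
  have h1 : bZ G r r * bZ G (s.1 *ᵥ x) r = bZ G r r * (- bZ G x r) := by
    rw [← bZ_smul_left, hs x, bZ_sub_left, bZ_smul_left, bZ_smul_left]
    ring
  have h2 := mul_left_cancel₀ hr h1
  have h3 : (s * s).1 = s.1 * s.1 := rfl
  have h4 : ((1 : GL (Fin 7) ℤ)).1 = (1 : Matrix (Fin 7) (Fin 7) ℤ) := rfl
  rw [h3, h4, ← Matrix.mulVec_mulVec, Matrix.one_mulVec]
  apply w03_cancel hr
  rw [hs (s.1 *ᵥ x), h2, hs x]
  have h5 : (2 * -bZ G x r) • r = - ((2 * bZ G x r) • r) := by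
    rw [mul_neg, neg_smul]
  rw [h5]
  abel

/-- every reflection in a vector of positive norm lies in `O'(G,ℤ)` (the divisibility is
automatic: `n s x = n x - 2(x,r) r` shows `n ∣ 2 (x,r) r_j` for all `j`; if `r` is a root use
`exists_refl` and `refl_unique`). -/
theorem refl_mem_OG {G : Matrix (Fin 7) (Fin 7) ℤ} {h : Fin 7 → ℤ} (hL : Lor G h)
    {r : Fin 7 → ℤ} (hr : IsRoot G r) {s : GL (Fin 7) ℤ} (hs : IsRefl G r s) : s ∈ OG G h := by
  obtain ⟨s', hs', hr'⟩ := exists_refl hL hr.pos hr.dvd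
  rw [refl_unique hr.pos.ne' hs hr']
  exact hs'

/-- `WG G ≤ OG G h` -/
theorem WG_le {G : Matrix (Fin 7) (Fin 7) ℤ} {h : Fin 7 → ℤ} (hL : Lor G h) :
    WG G ≤ OG G h := by
  unfold WG
  rw [Subgroup.closure_le]
  rintro g ⟨r, hr, hg⟩
  exact refl_mem_OG hL hr hg

/-- isometries map roots to roots -/
theorem root_map {G : Matrix (Fin 7) (Fin 7) ℤ} {g : GL (Fin 7) ℤ} (hg : g.1ᵀ * G * g.1 = G)
    {r : Fin 7 → ℤ} (hr : IsRoot G r) : IsRoot G (g.1 *ᵥ r) := by
  refine ⟨?_, ?_, ?_⟩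
  · rw [bZ_act hg]
    exact hr.pos
  · intro x
    rw [bZ_act hg]
    have h1 : bZ G x (g.1 *ᵥ r) = bZ G ((g⁻¹).1 *ᵥ x) r := by
      rw [← bZ_act hg ((g⁻¹).1 *ᵥ x) r, w03_act_inv]
    rw [h1]
    exact hr.dvd _
  · intro d hd
    apply hr.prim d
    intro i
    have h1 : r i = ((g⁻¹).1 *ᵥ (g.1 *ᵥ r)) i := by rw [w03_inv_act]
    rw [h1]
    unfold Matrix.mulVec dotProduct
    refine Finset.dvd_sum fun j _ => Dvd.dvd.mul_left ?_ _
    exact hd j

/-- `-r` is a root -/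
theorem root_neg {G : Matrix (Fin 7) (Fin 7) ℤ} {r : Fin 7 → ℤ} (hr : IsRoot G r) :
    IsRoot G (-r) := by
  refine ⟨?_, ?_, ?_⟩
  · rw [bZ_neg_left, bZ_neg_right, neg_neg]
    exact hr.pos
  · intro x
    rw [bZ_neg_left, bZ_neg_right, neg_neg, bZ_neg_right, mul_neg, dvd_neg]
    exact hr.dvd x
  · intro d hd
    apply hr.prim d
    intro i
    have h1 := hd i
    rwa [Pi.neg_apply, dvd_neg] at h1

/-- proportional roots are equal or opposite -/
theorem root_prop {G : Matrix (Fin 7) (Fin 7) ℤ} {r r' : Fin 7 → ℤ} (hr : IsRoot G r)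
    (hr' : IsRoot G r') {a : ℝ} (h : toR r = a • toR r') : r = r' ∨ r = -r' := by
  obtain ⟨c, hc⟩ := w03_bezout hr'.prim
  have hi : ∀ i, (r i : ℝ) = a * (r' i : ℝ) := fun i => by
    have h1 := congrFun h i
    simpa [toR] using h1
  set m : ℤ := ∑ i, c i * r i with hm
  have ha : a = (m : ℝ) := by
    have h1 : (((∑ i, c i * r' i : ℤ)) : ℝ) = 1 := by rw [hc]; norm_num
    rw [hm]
    push_cast at h1 ⊢
    calc a = a * ∑ i, (c i : ℝ) * (r' i : ℝ) := by rw [h1, mul_one]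
      _ = _ := by
        rw [Finset.mul_sum]
        refine Finset.sum_congr rfl fun i _ => ?_
        rw [hi i]; ring
  have hm' : ∀ i, r i = m * r' i := by
    intro i
    have h1 := hi i
    rw [ha] at h1
    exact_mod_cast h1
  have hu : IsUnit m := hr.prim m fun i => ⟨r' i, hm' i⟩
  rcases Int.isUnit_iff.1 hu with h1 | h1
  · left
    funext i
    rw [hm' i, h1, one_mul]
  · right
    funext i
    rw [hm' i, h1, Pi.neg_apply]; ring

/-- conjugation of reflections: if `g ∈ O(G)` and `s` is the reflection in `r` then `g s g⁻¹` is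
the reflection in `g r`. -/
theorem refl_conj {G : Matrix (Fin 7) (Fin 7) ℤ} {g s : GL (Fin 7) ℤ}
    (hg : g.1ᵀ * G * g.1 = G) {r : Fin 7 → ℤ} (hs : IsRefl G r s) :
    IsRefl G (g.1 *ᵥ r) (g * s * g⁻¹) := by
  intro x
  have h1 : bZ G x (g.1 *ᵥ r) = bZ G ((g⁻¹).1 *ᵥ x) r := by
    rw [← bZ_act hg ((g⁻¹).1 *ᵥ x) r, w03_act_inv]
  have h2 : (g * s * g⁻¹).1 = g.1 * s.1 * (g⁻¹).1 := rfl
  rw [bZ_act hg, h1, h2, ← Matrix.mulVec_mulVec, ← Matrix.mulVec_mulVec, ← Matrix.mulVec_smul,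
    hs ((g⁻¹).1 *ᵥ x), Matrix.mulVec_sub, Matrix.mulVec_smul, Matrix.mulVec_smul, w03_act_inv]

/-- the image of a root `b` under the reflection in the root `a`, as integer vector:
`s b = b - (2 (b,a)/(a,a)) a` (exact division) -/
theorem refl_root {G : Matrix (Fin 7) (Fin 7) ℤ} {a b : Fin 7 → ℤ} (ha : IsRoot G a)
    {s : GL (Fin 7) ℤ} (hs : IsRefl G a s) :
    s.1 *ᵥ b = b - (2 * bZ G b a / bZ G a a) • a := by
  apply w03_cancel ha.pos.ne'
  rw [hs b, smul_sub, smul_smul, Int.mul_ediv_cancel' (ha.dvd b)]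

end RH6
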