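import Pool.Agent.RH6.A1
import Pool.Agent.RH6.W03

open Matrix

namespace RH6

/-!
Row [RH-A2]: from the group `latGroup P` of a real matrix `P` with `Pᵀ J0 P = G` integral to the
group `OG G h` in integer coordinates.
-/

theorem a2_bR {P : GL (Fin 7) ℝ} {G : Matrix (Fin 7) (Fin 7) ℤ}
    (hP : P.1ᵀ * J0 * P.1 = mR G) (x y : Fin 7 → ℝ) :
    bR G x y = (P.1 *ᵥ x) ⬝ᵥ (J0 *ᵥ (P.1 *ᵥ y)) := by
  have h1 : bR G x y = x ⬝ᵥ (mR G *ᵥ y) := rfl
  rw [h1, ← hP, ← Matrix.mulVec_mulVec, ← Matrix.mulVec_mulVec, Matrix.dotProduct_mulVec,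
    Matrix.vecMul_transpose]

theorem a2_bR' {P : GL (Fin 7) ℝ} {G : Matrix (Fin 7) (Fin 7) ℤ}
    (hP : P.1ᵀ * J0 * P.1 = mR G) (x y : Fin 7 → ℝ) :
    bR G x y = bR G0 (P.1 *ᵥ x) (P.1 *ᵥ y) := by
  rw [a2_bR hP, bR_G0]

theorem a2_mR_inj {A B : Matrix (Fin 7) (Fin 7) ℤ} (h : mR A = mR B) : A = B := by
  ext i j
  have h1 := congrFun (congrFun h i) j
  have h2 : ((A i j : ℤ) : ℝ) = ((B i j : ℤ) : ℝ) := h1
  exact_mod_cast h2

theorem a2_mR_mul (A B : Matrix (Fin 7) (Fin 7) ℤ) : mR (A * B) = mR A * mR B := by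
  ext i j
  simp only [mR, Matrix.mul_apply, Matrix.map_apply, Int.cast_sum, Int.cast_mul]

theorem a2_mR_tr (A : Matrix (Fin 7) (Fin 7) ℤ) : mR Aᵀ = (mR A)ᵀ := rfl

theorem a2_iota (g : GL (Fin 7) ℤ) : (iota g).1 = mR g.1 := rfl

theorem a2_iota_inj : Function.Injective iota := by
  intro a b hab
  refine Units.ext (a2_mR_inj ?_)
  rw [← a2_iota, ← a2_iota, hab]

theorem a2_symm {P : GL (Fin 7) ℝ} {G : Matrix (Fin 7) (Fin 7) ℤ}
    (hP : P.1ᵀ * J0 * P.1 = mR G) : Gᵀ = G := by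
  apply a2_mR_inj
  rw [a2_mR_tr, ← hP, Matrix.transpose_mul, Matrix.transpose_mul, Matrix.transpose_transpose,
    Matrix.mul_assoc]
  congr 2
  exact Matrix.diagonal_transpose _

theorem a2_inv1 (P : GL (Fin 7) ℝ) : P.1 * (P⁻¹).1 = 1 := by
  have h1 : P * P⁻¹ = 1 := mul_inv_cancel P
  have h3 : (P * P⁻¹).1 = P.1 * (P⁻¹).1 := rfl
  rw [← h3, h1]
  rfl

theorem a2_inv2 (P : GL (Fin 7) ℝ) : (P⁻¹).1 * P.1 = 1 := by
  have h1 : P⁻¹ * P = 1 := inv_mul_cancel P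
  have h3 : (P⁻¹ * P).1 = (P⁻¹).1 * P.1 := rfl
  rw [← h3, h1]
  rfl

theorem a2_P_Pinv (P : GL (Fin 7) ℝ) (x : Fin 7 → ℝ) : P.1 *ᵥ ((P⁻¹).1 *ᵥ x) = x := by
  rw [Matrix.mulVec_mulVec, a2_inv1, Matrix.one_mulVec]

theorem a2_Pinv_P (P : GL (Fin 7) ℝ) (x : Fin 7 → ℝ) : (P⁻¹).1 *ᵥ (P.1 *ᵥ x) = x := by
  rw [Matrix.mulVec_mulVec, a2_inv2, Matrix.one_mulVec]

theorem a2_P_inj (P : GL (Fin 7) ℝ) {x y : Fin 7 → ℝ} (h : P.1 *ᵥ x = P.1 *ᵥ y) : x = y := by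
  rw [← a2_Pinv_P P x, h, a2_Pinv_P]

theorem a2_up_open : IsOpen {x : Fin 7 → ℝ | Up x} := by
  have h1 : Continuous fun x : Fin 7 → ℝ => x ⬝ᵥ (J0 *ᵥ x) :=
    Continuous.dotProduct continuous_id (Continuous.matrix_mulVec continuous_const continuous_id)
  have h2 : Continuous fun x : Fin 7 → ℝ => x 6 := continuous_apply 6
  exact (isOpen_lt h1 continuous_const).inter (isOpen_lt continuous_const h2)

theorem a2_lor {P : GL (Fin 7) ℝ} {G : Matrix (Fin 7) (Fin 7) ℤ}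
    (hP : P.1ᵀ * J0 * P.1 = mR G) {h : Fin 7 → ℤ} (hh : Up (P.1 *ᵥ toR h)) :
    Lor G h ∧ ∀ x, Fwd G h x ↔ Up (P.1 *ᵥ x) := by
  have hf := (up_iff _).mp hh
  refine ⟨⟨a2_symm hP, ?_, ?_⟩, fun x => ⟨fun hx => ?_, fun hx => ?_⟩⟩
  · have h1 : ((bZ G h h : ℤ) : ℝ) < 0 := by
      rw [← bR_toR, a2_bR' hP]
      exact hf.1
    exact_mod_cast h1
  · intro x hx hx0
    rw [a2_bR' hP] at hx ⊢
    refine pos_of_orth lor_G0 hf.1 hx ?_
    intro h0
    apply hx0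
    apply a2_P_inj P
    rw [h0, Matrix.mulVec_zero]
  · rw [up_iff]
    refine fwd_of_neg lor_G0 hf ?_ ?_
    · rw [← a2_bR' hP]
      exact hx.1
    · rw [← a2_bR' hP]
      exact hx.2
  · rw [up_iff] at hx
    refine ⟨?_, ?_⟩
    · rw [a2_bR' hP]
      exact hx.1
    · rw [a2_bR' hP]
      exact neg_of_fwd lor_G0 hx hf

/-- There is an integer vector `h` with `P h` in the cone; for every such `h`, `Lor G h` and
`Fwd G h x ↔ Up (P x)`.
Proof: `Up` is open, so `{x : Up (P x)}` is open and nonempty (`P` invertible), it contains a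
rational vector, and it is a cone, so it contains an integer vector.  `bR G x y = (P x, P y)`.
`Lor`: `pos_of_orth` for `G0`.  The equivalence: for `(x,x) < 0`, `(P x, P h) < 0` iff `P x` is in
the cone (`fwd_of_neg`, `neg_of_fwd`). -/
theorem exists_h {P : GL (Fin 7) ℝ} {G : Matrix (Fin 7) (Fin 7) ℤ}
    (hP : P.1ᵀ * J0 * P.1 = mR G) :
    ∃ h : Fin 7 → ℤ, Lor G h ∧ ∀ x, Fwd G h x ↔ Up (P.1 *ᵥ x) := by
  have hopen : IsOpen {x : Fin 7 → ℝ | Up (P.1 *ᵥ x)} :=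
    a2_up_open.preimage (Continuous.matrix_mulVec continuous_const continuous_id)
  have hne : {x : Fin 7 → ℝ | Up (P.1 *ᵥ x)}.Nonempty := by
    refine ⟨(P⁻¹).1 *ᵥ toR h0, ?_⟩
    show Up (P.1 *ᵥ ((P⁻¹).1 *ᵥ toR h0))
    rw [a2_P_Pinv, up_iff]
    exact fwd_h lor_G0
  have hdense : DenseRange (Pi.map (fun (_ : Fin 7) (q : ℚ) => (q : ℝ))) :=
    DenseRange.piMap fun _ => Rat.denseRange_cast
  obtain ⟨_, hx, q, rfl⟩ := hdense.inter_open_nonempty _ hopen hne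
  have hz : ∀ i, ∃ z : ℤ, ((z : ℤ) : ℝ) = ((∏ j, (q j).den : ℕ) : ℝ) * ((q i : ℚ) : ℝ) := by
    intro i
    obtain ⟨k, hk⟩ : (q i).den ∣ ∏ j, (q j).den := Finset.dvd_prod_of_mem _ (Finset.mem_univ i)
    refine ⟨(q i).num * k, ?_⟩
    rw [hk]
    have h1 : (((q i).num : ℤ) : ℚ) = q i * ((q i).den : ℚ) := (Rat.mul_den_eq_num _).symm
    have h2 : ((((q i).num : ℤ) : ℚ) : ℝ) = ((q i * ((q i).den : ℚ) : ℚ) : ℝ) := by rw [h1]
    push_cast at h2 ⊢
    rw [h2]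
    ring
  choose h hh using hz
  refine ⟨h, a2_lor hP ?_⟩
  have hD : (0 : ℝ) < ((∏ j, (q j).den : ℕ) : ℝ) := by
    have : 0 < ∏ j, (q j).den := Finset.prod_pos fun j _ => (q j).den_pos
    exact_mod_cast this
  have h1 : toR h = ((∏ j, (q j).den : ℕ) : ℝ) • (Pi.map (fun (_ : Fin 7) (q : ℚ) => (q : ℝ)) q) := by
    ext i
    exact hh i
  rw [h1, Matrix.mulVec_smul, up_iff]
  exact fwd_smul hD ((up_iff _).mp hx)

theorem mem_latGroup_iff {P : GL (Fin 7) ℝ} {G : Matrix (Fin 7) (Fin 7) ℤ}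
    (hP : P.1ᵀ * J0 * P.1 = mR G) {h : Fin 7 → ℤ} (hL : Lor G h)
    (hf : ∀ x, Fwd G h x ↔ Up (P.1 *ᵥ x)) (g : GL (Fin 7) ℤ) :
    P * iota g * P⁻¹ ∈ latGroup P ↔ g ∈ OG G h := by
  have hc : (P * iota g * P⁻¹).1 = P.1 * mR g.1 * (P⁻¹).1 := rfl
  have hact : ∀ x, actR g x = mR g.1 *ᵥ x := fun x => rfl
  have hact2 : ∀ x, (P * iota g * P⁻¹).1 *ᵥ (P.1 *ᵥ x) = P.1 *ᵥ (actR g x) := by
    intro x
    rw [hc, ← Matrix.mulVec_mulVec, a2_Pinv_P, ← Matrix.mulVec_mulVec, hact]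
  constructor
  · rintro ⟨⟨h1, h2⟩, _⟩
    rw [mem_OG]
    refine ⟨?_, fun x => ?_⟩
    · apply a2_mR_inj
      rw [a2_mR_mul, a2_mR_mul, a2_mR_tr, ← hP]
      have h3 : P.1 * mR g.1 = (P * iota g * P⁻¹).1 * P.1 := by
        rw [hc, Matrix.mul_assoc (P.1 * mR g.1), a2_inv2, Matrix.mul_one]
      calc (mR g.1)ᵀ * (P.1ᵀ * J0 * P.1) * mR g.1 = (P.1 * mR g.1)ᵀ * J0 * (P.1 * mR g.1) := by
            rw [Matrix.transpose_mul]
            simp only [Matrix.mul_assoc]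
        _ = P.1ᵀ * ((P * iota g * P⁻¹).1ᵀ * J0 * (P * iota g * P⁻¹).1) * P.1 := by
            rw [h3, Matrix.transpose_mul]
            simp only [Matrix.mul_assoc]
        _ = P.1ᵀ * J0 * P.1 := by rw [h1]
    · rw [hf, hf, ← hact2]
      exact h2 _
  · intro hg
    rw [mem_OG] at hg
    obtain ⟨h1, h2⟩ := hg
    refine ⟨⟨?_, fun x => ?_⟩, g, ?_⟩
    · have h3 : (mR g.1)ᵀ * (P.1ᵀ * J0 * P.1) * mR g.1 = P.1ᵀ * J0 * P.1 := by
        rw [hP, ← a2_mR_tr, ← a2_mR_mul, ← a2_mR_mul, h1]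
      have h4 : ((P⁻¹).1)ᵀ * P.1ᵀ = 1 := by
        rw [← Matrix.transpose_mul, a2_inv1, Matrix.transpose_one]
      rw [hc]
      calc (P.1 * mR g.1 * (P⁻¹).1)ᵀ * J0 * (P.1 * mR g.1 * (P⁻¹).1)
          = ((P⁻¹).1)ᵀ * ((mR g.1)ᵀ * (P.1ᵀ * J0 * P.1) * mR g.1) * (P⁻¹).1 := by
            rw [Matrix.transpose_mul, Matrix.transpose_mul]
            simp only [Matrix.mul_assoc]
        _ = (((P⁻¹).1)ᵀ * P.1ᵀ) * J0 * (P.1 * (P⁻¹).1) := by
            rw [h3]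
            simp only [Matrix.mul_assoc]
        _ = J0 := by rw [h4, a2_inv1, Matrix.one_mul, Matrix.mul_one]
    · have h3 := h2 ((P⁻¹).1 *ᵥ x)
      rw [hf, hf, ← hact2, a2_P_Pinv] at h3
      exact h3
    · rw [mul_assoc, inv_mul_cancel, mul_one]

/-- Every element of `latGroup P` is `P g P⁻¹` with `g ∈ OG G h` (definition). -/
theorem exists_of_mem_latGroup {P : GL (Fin 7) ℝ} {G : Matrix (Fin 7) (Fin 7) ℤ}
    (hP : P.1ᵀ * J0 * P.1 = mR G) {h : Fin 7 → ℤ} (hL : Lor G h)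
    (hf : ∀ x, Fwd G h x ↔ Up (P.1 *ᵥ x)) {γ : GL (Fin 7) ℝ} (hγ : γ ∈ latGroup P) :
    ∃ g ∈ OG G h, γ = P * iota g * P⁻¹ := by
  obtain ⟨_, k, hk⟩ := id hγ
  have h1 : γ = P * iota k * P⁻¹ := by
    rw [← hk, mul_assoc, mul_inv_cancel, mul_one]
  refine ⟨k, ?_, h1⟩
  rw [← mem_latGroup_iff hP hL hf, ← h1]
  exact hγ

theorem a2_prim (w : Fin 7 → ℤ) (hw : w ≠ 0) : ∃ (d : ℤ) (r : Fin 7 → ℤ), d ≠ 0 ∧ w = d • r ∧
    Finset.univ.gcd r = 1 := by
  obtain ⟨r, hr, hg⟩ := Finset.extract_gcd w (Finset.univ_nonempty (α := Fin 7))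
  refine ⟨Finset.univ.gcd w, r, ?_, ?_, hg⟩
  · intro h0
    apply hw
    ext i
    have h1 := hr i (Finset.mem_univ i)
    rw [h0, zero_mul] at h1
    exact h1
  · ext i
    exact hr i (Finset.mem_univ i)

theorem a2_dvd {n m : ℤ} {r : Fin 7 → ℤ} (hr : Finset.univ.gcd r = 1) (h : ∀ i, n ∣ m * r i) :
    n ∣ m := by
  have h1 : n ∣ Finset.univ.gcd (fun i => m * r i) := Finset.dvd_gcd fun i _ => h i
  have h2 := (Finset.gcd_mul_left' (s := Finset.univ) (f := r) m)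
  rw [hr, mul_one] at h2
  exact h1.trans h2.dvd

/-- Reflections correspond to reflections in roots.
Proof.  If `g` is the reflection in the root `r` then `P g P⁻¹` is the reflection in `e = P r`.
Conversely let `P g P⁻¹` be the reflection in `e`, and `e' = P⁻¹ e`, so
`g x = x - (2 (x,e')/(e',e')) e'` for all real `x` (form `bR G`).  Choose an integer vector `x`
with `(x,e') ≠ 0`; then `g x - x` is a nonzero integer vector proportional to `e'`; let `r` be the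
primitive integer vector proportional to it.  Then `g x = x - (2(x,r)/(r,r)) r` for all integer
`x`, and as `r` is primitive and `g x` integral, `(r,r) ∣ 2 (x,r)`. -/
theorem isReflection_iff {P : GL (Fin 7) ℝ} {G : Matrix (Fin 7) (Fin 7) ℤ}
    (hP : P.1ᵀ * J0 * P.1 = mR G) {h : Fin 7 → ℤ} (hL : Lor G h) (g : GL (Fin 7) ℤ) :
    IsReflection (P * iota g * P⁻¹) ↔ ∃ r, IsRoot G r ∧ IsRefl G r g := by
  have hc : (P * iota g * P⁻¹).1 = P.1 * mR g.1 * (P⁻¹).1 := rfl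
  have hact : ∀ x, actR g x = mR g.1 *ᵥ x := fun x => rfl
  have hact2 : ∀ x, (P * iota g * P⁻¹).1 *ᵥ (P.1 *ᵥ x) = P.1 *ᵥ (actR g x) := by
    intro x
    rw [hc, ← Matrix.mulVec_mulVec, a2_Pinv_P, ← Matrix.mulVec_mulVec, hact]
  constructor
  · rintro ⟨e, he, hre⟩
    obtain ⟨e', rfl⟩ : ∃ e', e = P.1 *ᵥ e' := ⟨(P⁻¹).1 *ᵥ e, (a2_P_Pinv P e).symm⟩
    rw [← a2_bR hP] at he
    -- the formula for `g`
    have hform : ∀ y, actR g y = y - (2 * bR G y e' / bR G e' e') • e' := by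
      intro y
      apply a2_P_inj P
      rw [← hact2, hre, ← a2_bR hP, ← a2_bR hP, Matrix.mulVec_sub, Matrix.mulVec_smul]
    -- an integral vector with nonzero product
    obtain ⟨x, hx⟩ : ∃ x : Fin 7 → ℤ, bR G (toR x) e' ≠ 0 := by
      by_contra hcon
      push Not at hcon
      have h1 : ∀ i : Fin 7, (mR G *ᵥ e') i = 0 := by
        intro i
        have h2 := hcon (Pi.single i 1)
        have h3 : toR (Pi.single i 1) = Pi.single i 1 := by
          ext j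
          by_cases hij : j = i
          · subst hij
            simp [toR]
          · simp [toR, Pi.single_eq_of_ne hij]
        have h4 : bR G (toR (Pi.single i 1)) e' = (mR G *ᵥ e') i := by
          rw [h3]
          show Pi.single i 1 ⬝ᵥ (mR G *ᵥ e') = _
          rw [single_dotProduct, one_mul]
        rw [← h4]
        exact h2
      have h2 : bR G e' e' = 0 := by
        show e' ⬝ᵥ (mR G *ᵥ e') = 0
        have h3 : mR G *ᵥ e' = 0 := funext h1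
        rw [h3, dotProduct_zero]
      linarith
    -- the difference
    have hw : toR (g.1 *ᵥ x - x) = (-(2 * bR G (toR x) e' / bR G e' e')) • e' := by
      rw [toR_sub, ← actR_toR, hform, neg_smul]
      abel
    have hc0 : -(2 * bR G (toR x) e' / bR G e' e') ≠ 0 := by
      rw [neg_ne_zero]
      exact div_ne_zero (mul_ne_zero two_ne_zero hx) he.ne'
    have hw0 : g.1 *ᵥ x - x ≠ 0 := by
      intro h0
      rw [h0] at hw
      have h1 : toR 0 = (0 : Fin 7 → ℝ) := by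
        ext i
        simp [toR]
      rw [h1] at hw
      rcases smul_eq_zero.mp hw.symm with h2 | h2
      · exact hc0 h2
      · rw [h2, bR_zero_left] at he
        exact lt_irrefl _ he
    obtain ⟨d, r, hd, hwr, hr⟩ := a2_prim _ hw0
    obtain ⟨a, ha, her⟩ : ∃ a : ℝ, a ≠ 0 ∧ e' = a • toR r := by
      refine ⟨(-(2 * bR G (toR x) e' / bR G e' e'))⁻¹ * d, ?_, ?_⟩
      · exact mul_ne_zero (inv_ne_zero hc0) (by exact_mod_cast hd)
      · rw [mul_smul, ← toR_smul, ← hwr, hw, smul_smul, inv_mul_cancel₀ hc0, one_smul]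
    have hrr : 0 < bR G (toR r) (toR r) := by
      rw [her, bR_smul_left, bR_smul_right] at he
      by_contra hcon
      rw [not_lt] at hcon
      have h1 : a * (a * bR G (toR r) (toR r)) = a ^ 2 * bR G (toR r) (toR r) := by ring
      rw [h1] at he
      have h2 : a ^ 2 * bR G (toR r) (toR r) ≤ 0 :=
        mul_nonpos_of_nonneg_of_nonpos (sq_nonneg a) hcon
      linarith
    have hform2 : ∀ y, actR g y = y - (2 * bR G y (toR r) / bR G (toR r) (toR r)) • toR r := by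
      intro y
      rw [hform y, her, bR_smul_left, bR_smul_right, bR_smul_right, smul_smul]
      congr 2
      field_simp
    have hrefl : IsRefl G r g := by
      intro y
      apply toR_inj
      rw [toR_smul, toR_sub, toR_smul, toR_smul, ← actR_toR, hform2, ← bR_toR, smul_sub, smul_smul]
      congr 2
      push_cast
      rw [← bR_toR]
      field_simp
    have hpos : 0 < bZ G r r := by
      rw [bR_toR] at hrr
      exact_mod_cast hrr
    refine ⟨r, ⟨hpos, fun y => ?_, fun d' hd' => ?_⟩, hrefl⟩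
    · refine a2_dvd hr fun i => ?_
      have h1 := congrFun (hrefl y) i
      simp only [Pi.smul_apply, Pi.sub_apply, smul_eq_mul] at h1
      refine ⟨y i - (g.1 *ᵥ y) i, ?_⟩
      linarith
    · have h1 : d' ∣ Finset.univ.gcd r := Finset.dvd_gcd fun i _ => hd' i
      rw [hr] at h1
      exact isUnit_of_dvd_one h1
  · rintro ⟨r, hr, hrefl⟩
    have hn : (0 : ℝ) < (bZ G r r : ℝ) := by exact_mod_cast hr.pos
    refine ⟨P.1 *ᵥ toR r, ?_, fun x => ?_⟩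
    · rw [← a2_bR hP, bR_toR]
      exact hn
    · obtain ⟨y, rfl⟩ : ∃ y, x = P.1 *ᵥ y := ⟨(P⁻¹).1 *ᵥ x, (a2_P_Pinv P x).symm⟩
      rw [hact2, ← a2_bR hP, ← a2_bR hP, ← Matrix.mulVec_smul, ← Matrix.mulVec_sub]
      congr 1
      have h1 := refl_actR hrefl y
      have h2 : actR g y = (bZ G r r : ℝ)⁻¹ • ((bZ G r r : ℝ) • actR g y) := by
        rw [smul_smul, inv_mul_cancel₀ hn.ne', one_smul]
      rw [h2, h1, smul_sub, smul_smul, inv_mul_cancel₀ hn.ne', one_smul, smul_smul, bR_toR]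
      congr 2
      ring

theorem a2_conj_mem {P : GL (Fin 7) ℝ} {G : Matrix (Fin 7) (Fin 7) ℤ}
    (hP : P.1ᵀ * J0 * P.1 = mR G) {h : Fin 7 → ℤ} (hL : Lor G h)
    (hf : ∀ x, Fwd G h x ↔ Up (P.1 *ᵥ x)) :
    WP P = (WG G).map ((MulAut.conj P).toMonoidHom.comp iota) := by
  have hφ : ∀ g, ((MulAut.conj P).toMonoidHom.comp iota) g = P * iota g * P⁻¹ := fun g => rfl
  unfold WP WG
  rw [MonoidHom.map_closure]
  congr 1
  ext γ
  constructor
  · rintro ⟨hγ, hr⟩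
    obtain ⟨g, hg, rfl⟩ := exists_of_mem_latGroup hP hL hf hγ
    exact ⟨g, (isReflection_iff hP hL g).mp hr, hφ g⟩
  · rintro ⟨g, hg, rfl⟩
    obtain ⟨r, hr, hrg⟩ := id hg
    exact ⟨(mem_latGroup_iff hP hL hf g).mpr (refl_mem_OG hL hr hrg),
      (isReflection_iff hP hL g).mpr hg⟩

theorem a2_conj_inj (P : GL (Fin 7) ℝ) :
    Function.Injective ((MulAut.conj P).toMonoidHom.comp iota) :=
  (MulAut.conj P).injective.comp a2_iota_inj

theorem a2_lat {P : GL (Fin 7) ℝ} {G : Matrix (Fin 7) (Fin 7) ℤ}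
    (hP : P.1ᵀ * J0 * P.1 = mR G) {h : Fin 7 → ℤ} (hL : Lor G h)
    (hf : ∀ x, Fwd G h x ↔ Up (P.1 *ᵥ x)) :
    latGroup P = (OG G h).map ((MulAut.conj P).toMonoidHom.comp iota) := by
  ext γ
  constructor
  · intro hγ
    obtain ⟨g, hg, rfl⟩ := exists_of_mem_latGroup hP hL hf hγ
    exact ⟨g, hg, rfl⟩
  · rintro ⟨g, hg, rfl⟩
    exact (mem_latGroup_iff hP hL hf g).mpr hg

/-- hence `WP P` corresponds to `WG G` -/
theorem mem_WP_iff {P : GL (Fin 7) ℝ} {G : Matrix (Fin 7) (Fin 7) ℤ}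
    (hP : P.1ᵀ * J0 * P.1 = mR G) {h : Fin 7 → ℤ} (hL : Lor G h)
    (hf : ∀ x, Fwd G h x ↔ Up (P.1 *ᵥ x)) (g : GL (Fin 7) ℤ) :
    P * iota g * P⁻¹ ∈ WP P ↔ g ∈ WG G := by
  rw [a2_conj_mem hP hL hf]
  exact Subgroup.mem_map_iff_mem (a2_conj_inj P)

/-- and the indices agree -/
theorem relIndex_iff {P : GL (Fin 7) ℝ} {G : Matrix (Fin 7) (Fin 7) ℤ}
    (hP : P.1ᵀ * J0 * P.1 = mR G) {h : Fin 7 → ℤ} (hL : Lor G h)
    (hf : ∀ x, Fwd G h x ↔ Up (P.1 *ᵥ x)) :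
    (WP P).relIndex (latGroup P) ≠ 0 ↔ (WG G).relIndex (OG G h) ≠ 0 := by
  rw [a2_conj_mem hP hL hf, a2_lat hP hL hf,
    Subgroup.relIndex_map_map_of_injective _ _ (a2_conj_inj P)]

end RH6
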