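import Pool.Agent.RH6.A1

open Matrix

namespace RH6

/-! Row [RH-A3]: Eichler transvections of a rational form. -/

/-- common denominators -/
theorem a3_den {ι : Type*} [Fintype ι] (q : ι → ℚ) :
    ∃ N : ℕ, 0 < N ∧ ∀ i, ∃ z : ℤ, (N : ℚ) * q i = z := by
  classical
  refine ⟨∏ i, (q i).den, Finset.prod_pos (fun i _ => (q i).den_pos), fun i => ?_⟩
  refine ⟨(∏ j ∈ Finset.univ.erase i, ((q j).den : ℤ)) * (q i).num, ?_⟩
  rw [← Finset.mul_prod_erase Finset.univ (fun i => (q i).den) (Finset.mem_univ i)]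
  have h := Rat.mul_den_eq_num (q i)
  push_cast
  rw [← h]
  ring

/-- symmetry of the bilinear form -/
theorem a3_comm {R : Type*} [CommRing R] {S : Matrix (Fin 7) (Fin 7) R} (hS : Sᵀ = S)
    (x z : Fin 7 → R) : x ⬝ᵥ (S *ᵥ z) = z ⬝ᵥ (S *ᵥ x) := by
  rw [Matrix.dotProduct_mulVec, ← Matrix.mulVec_transpose, hS, dotProduct_comm]

/-- the transvection -/
def a3_M (S : Matrix (Fin 7) (Fin 7) ℚ) (v z : Fin 7 → ℚ) : Matrix (Fin 7) (Fin 7) ℚ :=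
  1 + vecMulVec z (S *ᵥ v) - vecMulVec v (S *ᵥ z) - (z ⬝ᵥ (S *ᵥ z) / 2) • vecMulVec v (S *ᵥ v)

theorem a3_vmv (u w x : Fin 7 → ℚ) : vecMulVec u w *ᵥ x = (x ⬝ᵥ w) • u := by
  rw [Matrix.vecMulVec_mulVec, dotProduct_comm w x]
  ext i
  simp [mul_comm]

theorem a3_M_mulVec (S : Matrix (Fin 7) (Fin 7) ℚ) (v z x : Fin 7 → ℚ) :
    a3_M S v z *ᵥ x = x + (x ⬝ᵥ (S *ᵥ v)) • z - (x ⬝ᵥ (S *ᵥ z)) • v
      - ((z ⬝ᵥ (S *ᵥ z)) / 2 * (x ⬝ᵥ (S *ᵥ v))) • v := by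
  unfold a3_M
  rw [Matrix.sub_mulVec, Matrix.sub_mulVec, Matrix.add_mulVec, Matrix.smul_mulVec, a3_vmv, a3_vmv,
    a3_vmv, Matrix.one_mulVec, smul_smul]

theorem a3_M_zero (S : Matrix (Fin 7) (Fin 7) ℚ) (v : Fin 7 → ℚ) : a3_M S v 0 = 1 := by
  unfold a3_M
  simp

theorem a3_M_mul {S : Matrix (Fin 7) (Fin 7) ℚ} (hS : Sᵀ = S) {v z w : Fin 7 → ℚ}
    (hv : v ⬝ᵥ (S *ᵥ v) = 0) (hz : v ⬝ᵥ (S *ᵥ z) = 0) (hw : v ⬝ᵥ (S *ᵥ w) = 0) :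
    a3_M S v z * a3_M S v w = a3_M S v (z + w) := by
  rw [Matrix.ext_iff_mulVec]
  intro x
  rw [← Matrix.mulVec_mulVec, a3_M_mulVec S v z, a3_M_mulVec S v w, a3_M_mulVec S v (z + w)]
  have hw' : w ⬝ᵥ (S *ᵥ v) = 0 := by rw [a3_comm hS]; exact hw
  have hwz : w ⬝ᵥ (S *ᵥ z) = z ⬝ᵥ (S *ᵥ w) := a3_comm hS _ _
  ext i
  simp only [Matrix.mulVec_add, add_dotProduct, sub_dotProduct, smul_dotProduct, dotProduct_add,
    Pi.add_apply, Pi.sub_apply, Pi.smul_apply, smul_eq_mul, hv, hz, hw', hwz]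
  ring

/-- integrality of `a3_M` -/
theorem a3_M_int {S : Matrix (Fin 7) (Fin 7) ℚ} {v z : Fin 7 → ℚ}
    (h1 : ∀ i, ∃ n : ℤ, v i = n) (h2 : ∀ i, ∃ n : ℤ, (S *ᵥ v) i = n)
    (h3 : ∀ i, ∃ n : ℤ, z i = n) (h4 : ∀ i, ∃ n : ℤ, (S *ᵥ z) i = n)
    (h5 : ∃ n : ℤ, z ⬝ᵥ (S *ᵥ z) / 2 = n) :
    ∃ E : Matrix (Fin 7) (Fin 7) ℤ, a3_M S v z = E.map (fun n : ℤ => (n : ℚ)) := by
  choose a1 h1 using h1
  choose a2 h2 using h2
  choose a3 h3 using h3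
  choose a4 h4 using h4
  obtain ⟨a5, h5⟩ := h5
  refine ⟨1 + vecMulVec a3 a2 - vecMulVec a1 a4 - a5 • vecMulVec a1 a2, ?_⟩
  unfold a3_M
  ext i j
  rw [h5]
  simp only [Matrix.add_apply, Matrix.sub_apply, Matrix.smul_apply, Matrix.map_apply,
    Matrix.vecMulVec_apply, h1, h2, h3, h4, smul_eq_mul]
  push_cast
  congr 4
  by_cases hij : i = j
  · subst hij; simp
  · simp [Matrix.one_apply_ne hij]

theorem a3_map_inj {A B : Matrix (Fin 7) (Fin 7) ℤ}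
    (h : A.map (fun n : ℤ => (n : ℚ)) = B.map (fun n : ℤ => (n : ℚ))) : A = B := by
  ext i j
  have := congrFun (congrFun h i) j
  simpa using this

theorem a3_map_mul (A B : Matrix (Fin 7) (Fin 7) ℤ) :
    (A * B).map (fun n : ℤ => (n : ℚ)) =
      A.map (fun n : ℤ => (n : ℚ)) * B.map (fun n : ℤ => (n : ℚ)) := by
  ext i j
  simp [Matrix.mul_apply]

theorem a3_map_one : (1 : Matrix (Fin 7) (Fin 7) ℤ).map (fun n : ℤ => (n : ℚ)) = 1 := by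
  ext i j
  by_cases hij : i = j
  · subst hij; simp
  · simp [Matrix.one_apply_ne hij]

theorem a3_iotaZQ (E : GL (Fin 7) ℤ) : (iotaZQ E).1 = E.1.map (fun n : ℤ => (n : ℚ)) := rfl

theorem a3_pow {S : Matrix (Fin 7) (Fin 7) ℚ} (hS : Sᵀ = S) {v z : Fin 7 → ℚ}
    (hv : v ⬝ᵥ (S *ᵥ v) = 0) (hz : v ⬝ᵥ (S *ᵥ z) = 0) (k : ℕ) :
    a3_M S v z ^ k = a3_M S v ((k : ℚ) • z) := by
  induction k with
  | zero => simp [a3_M_zero]
  | succ k ih =>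
    rw [pow_succ, ih, a3_M_mul hS hv (by rw [Matrix.mulVec_smul, dotProduct_smul, hz, smul_zero]) hz]
    congr 1
    push_cast
    rw [add_smul, one_smul]

/-- For `v, y ∈ ℚ^7` with `S(v,v) = 0 = S(v,y)` there are positive integers `a, b` and an integral
matrix `E` with
`E^k x = x + k S(x,av) (by) - (k S(x,by) + ½ k² S(by,by) S(x,av)) (av)` for all `k`, `x`.
Proof: let `S(x,z) = x ⬝ᵥ (S *ᵥ z)`, `T_z x = x + S(x,v')z - S(x,z)v' - ½ S(z,z) S(x,v') v'` with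
`v' = a v`, `z ⊥ v'`.  Then `T_z T_{z'} = T_{z+z'}`, `T_0 = 1`, so `T_{by}^k = T_{kby}` and `T_{by}` is
invertible with inverse `T_{-by}`.  Choose `a` such that `v'` and `S v'` are integral and then `b`
even such that `b y`, `b S y` and `½ b² S(y,y)` are integral. Then `T_{by}` and its inverse are
integral matrices. -/
theorem eichler_rat (S : Matrix (Fin 7) (Fin 7) ℚ) (hS : Sᵀ = S) (v y : Fin 7 → ℚ)
    (hv : v ⬝ᵥ (S *ᵥ v) = 0) (hy : v ⬝ᵥ (S *ᵥ y) = 0) :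
    ∃ (a b : ℕ) (E : GL (Fin 7) ℤ), 0 < a ∧ 0 < b ∧ ∀ (k : ℕ) (x : Fin 7 → ℚ),
      (iotaZQ (E ^ k)).1 *ᵥ x = x + (k * (a * b) * (x ⬝ᵥ (S *ᵥ v))) • y
        - ((k * (a * b)) * (x ⬝ᵥ (S *ᵥ y)) +
            k ^ 2 * (a * b) ^ 2 * (y ⬝ᵥ (S *ᵥ y)) / 2 * (x ⬝ᵥ (S *ᵥ v))) • v := by
  classical
  obtain ⟨a, ha, hai⟩ := a3_den (fun s : Fin 7 ⊕ Fin 7 => Sum.elim v (S *ᵥ v) s)
  obtain ⟨b, hb, hbi⟩ := a3_den
    (fun s : (Fin 7 ⊕ Fin 7) ⊕ Unit => Sum.elim (Sum.elim y (S *ᵥ y)) (fun _ => y ⬝ᵥ (S *ᵥ y)) s)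
  have hv1 : ∀ i, ∃ n : ℤ, ((a : ℚ) • v) i = n := fun i => by simpa using hai (Sum.inl i)
  have hv2 : ∀ i, ∃ n : ℤ, (S *ᵥ ((a : ℚ) • v)) i = n := fun i => by
    rw [Matrix.mulVec_smul]; simpa using hai (Sum.inr i)
  have hb1 : ∀ i, ∃ n : ℤ, (b : ℚ) * y i = n := fun i => by simpa using hbi (Sum.inl (Sum.inl i))
  have hb2 : ∀ i, ∃ n : ℤ, (b : ℚ) * (S *ᵥ y) i = n := fun i => by
    simpa using hbi (Sum.inl (Sum.inr i))
  have hb3 : ∃ n : ℤ, (b : ℚ) * (y ⬝ᵥ (S *ᵥ y)) = n := by simpa using hbi (Sum.inr ())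
  -- `c = ± 2b`
  have key : ∀ c : ℤ, ∃ E : Matrix (Fin 7) (Fin 7) ℤ,
      a3_M S ((a : ℚ) • v) ((c * (2 * b) : ℚ) • y) = E.map (fun n : ℤ => (n : ℚ)) := by
    intro c
    apply a3_M_int hv1 hv2
    · intro i
      obtain ⟨n, hn⟩ := hb1 i
      refine ⟨c * 2 * n, ?_⟩
      rw [Pi.smul_apply, smul_eq_mul]
      push_cast
      rw [← hn]; ring
    · intro i
      obtain ⟨n, hn⟩ := hb2 i
      refine ⟨c * 2 * n, ?_⟩
      rw [Matrix.mulVec_smul, Pi.smul_apply, smul_eq_mul]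
      push_cast
      rw [← hn]; ring
    · obtain ⟨n, hn⟩ := hb3
      refine ⟨c ^ 2 * 2 * b * n, ?_⟩
      rw [Matrix.mulVec_smul, dotProduct_smul, smul_dotProduct, smul_eq_mul, smul_eq_mul]
      push_cast
      rw [← hn]; ring
  have hv' : ((a : ℚ) • v) ⬝ᵥ (S *ᵥ ((a : ℚ) • v)) = 0 := by
    rw [Matrix.mulVec_smul, dotProduct_smul, smul_dotProduct, hv]; simp
  have hz' : ∀ c : ℚ, ((a : ℚ) • v) ⬝ᵥ (S *ᵥ (c • y)) = 0 := by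
    intro c
    rw [Matrix.mulVec_smul, dotProduct_smul, smul_dotProduct, hy]; simp
  obtain ⟨E1, hE1⟩ := key 1
  obtain ⟨E2, hE2⟩ := key (-1)
  have h12 : E1 * E2 = 1 := by
    apply a3_map_inj
    rw [a3_map_mul, ← hE1, ← hE2, a3_M_mul hS hv' (hz' _) (hz' _), a3_map_one, ← a3_M_zero S ((a : ℚ) • v)]
    congr 1
    rw [← add_smul]
    push_cast
    ring_nf
    simp
  have h21 : E2 * E1 = 1 := by
    apply a3_map_inj
    rw [a3_map_mul, ← hE1, ← hE2, a3_M_mul hS hv' (hz' _) (hz' _), a3_map_one, ← a3_M_zero S ((a : ℚ) • v)]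
    congr 1
    rw [← add_smul]
    push_cast
    ring_nf
    simp
  refine ⟨a, 2 * b, ⟨E1, E2, h12, h21⟩, ha, by omega, fun k x => ?_⟩
  have hk : (iotaZQ ((⟨E1, E2, h12, h21⟩ : GL (Fin 7) ℤ) ^ k)).1 =
      a3_M S ((a : ℚ) • v) ((k : ℚ) • (((1 : ℤ) * (2 * b) : ℚ) • y)) := by
    rw [map_pow, Units.val_pow_eq_pow_val, a3_iotaZQ, ← a3_pow hS hv' (hz' _) k, hE1]
  rw [hk, a3_M_mulVec]
  ext i
  simp only [Matrix.mulVec_smul, smul_dotProduct, dotProduct_smul, Pi.add_apply, Pi.sub_apply,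
    Pi.smul_apply, smul_eq_mul]
  push_cast
  ring

/-- the bilinear form determines the matrix -/
theorem a3_ext {R : Type*} [CommRing R] {A B : Matrix (Fin 7) (Fin 7) R}
    (h : ∀ x z, x ⬝ᵥ (A *ᵥ z) = x ⬝ᵥ (B *ᵥ z)) : A = B := by
  rw [Matrix.ext_iff_mulVec]
  intro z
  ext i
  have := h (Pi.single i 1) z
  simpa using this

/-- Row [RH-A3]: such an `E` gives an element of `latGroup P` (it preserves the form and fixes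
`P v`; `mem_IsomH6_of_fix`). -/
theorem eichler_mem {P : GL (Fin 7) ℝ} {S : Matrix (Fin 7) (Fin 7) ℚ}
    (hP : P.1ᵀ * J0 * P.1 = S.map (fun q : ℚ => (q : ℝ))) {v y : Fin 7 → ℚ} (hv0 : v ≠ 0)
    (hv : v ⬝ᵥ (S *ᵥ v) = 0) (hy : v ⬝ᵥ (S *ᵥ y) = 0) {a b : ℕ} {E : GL (Fin 7) ℤ}
    (hE : ∀ (x : Fin 7 → ℚ),
      (iotaZQ E).1 *ᵥ x = x + ((a * b : ℕ) * (x ⬝ᵥ (S *ᵥ v))) • y
        - (((a * b : ℕ) : ℚ) * (x ⬝ᵥ (S *ᵥ y)) +
            ((a * b : ℕ) : ℚ) ^ 2 * (y ⬝ᵥ (S *ᵥ y)) / 2 * (x ⬝ᵥ (S *ᵥ v))) • v) :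
    P * iota E * P⁻¹ ∈ latGroup P := by
  -- symmetry of `S`
  have hJ : (J0 : Matrix (Fin 7) (Fin 7) ℝ)ᵀ = J0 := by
    unfold J0; rw [Matrix.diagonal_transpose]
  have hS : Sᵀ = S := by
    have h1 : (P.1ᵀ * J0 * P.1)ᵀ = P.1ᵀ * J0 * P.1 := by
      rw [Matrix.transpose_mul, Matrix.transpose_mul, Matrix.transpose_transpose, hJ,
        Matrix.mul_assoc]
    rw [hP] at h1
    ext i j
    have := congrFun (congrFun h1 i) j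
    simpa using this
  generalize ((a * b : ℕ) : ℚ) = n at hE
  -- `E` preserves `S`
  have hpres : ((iotaZQ E).1)ᵀ * S * (iotaZQ E).1 = S := by
    apply a3_ext
    intro x z
    have h1 : x ⬝ᵥ ((((iotaZQ E).1)ᵀ * S * (iotaZQ E).1) *ᵥ z) =
        ((iotaZQ E).1 *ᵥ x) ⬝ᵥ (S *ᵥ ((iotaZQ E).1 *ᵥ z)) := by
      rw [← Matrix.mulVec_mulVec, ← Matrix.mulVec_mulVec, Matrix.dotProduct_mulVec x,
        Matrix.vecMul_transpose]
    rw [h1, hE x, hE z]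
    have hyv : y ⬝ᵥ (S *ᵥ v) = 0 := by rw [a3_comm hS]; exact hy
    have hvz : v ⬝ᵥ (S *ᵥ z) = z ⬝ᵥ (S *ᵥ v) := a3_comm hS _ _
    have hyz : y ⬝ᵥ (S *ᵥ z) = z ⬝ᵥ (S *ᵥ y) := a3_comm hS _ _
    simp only [Matrix.mulVec_add, Matrix.mulVec_sub, Matrix.mulVec_smul, dotProduct_add,
      dotProduct_sub, dotProduct_smul, add_dotProduct, sub_dotProduct, smul_dotProduct,
      smul_eq_mul, hv, hy, hyv, hvz, hyz]
    ring
  have hiota : (iota E).1 = ((iotaZQ E).1).map (fun q : ℚ => (q : ℝ)) := by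
    ext i j
    simp [iota, iotaZQ, Matrix.GeneralLinearGroup.map]
  have hpresR : ((iota E).1)ᵀ * (S.map (fun q : ℚ => (q : ℝ))) * (iota E).1 =
      S.map (fun q : ℚ => (q : ℝ)) := by
    conv_rhs => rw [← hpres]
    rw [hiota]
    ext i j
    simp [Matrix.mul_apply]
  have hinv : P.1 * (P⁻¹).1 = 1 := by
    have h1 : P * P⁻¹ = 1 := mul_inv_cancel P
    have h3 : (P * P⁻¹).1 = P.1 * (P⁻¹).1 := rfl
    rw [← h3, h1]; rfl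
  have hinv' : (P⁻¹).1 * P.1 = 1 := by
    have h1 : P⁻¹ * P = 1 := inv_mul_cancel P
    have h3 : (P⁻¹ * P).1 = (P⁻¹).1 * P.1 := rfl
    rw [← h3, h1]; rfl
  have hval : (P * iota E * P⁻¹).1 = P.1 * (iota E).1 * (P⁻¹).1 := rfl
  refine ⟨?_, E, by rw [inv_mul_cancel_right]⟩
  have hcast : ∀ u : Fin 7 → ℚ, (S.map (fun q : ℚ => (q : ℝ))) *ᵥ (fun i => (u i : ℝ)) =
      fun i => ((S *ᵥ u) i : ℝ) := by
    intro u
    ext i
    simp [Matrix.mulVec, dotProduct]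
  apply mem_IsomH6_of_fix (v := P.1 *ᵥ (fun i => (v i : ℝ)))
  · rw [hval, Matrix.transpose_mul, Matrix.transpose_mul]
    calc ((P⁻¹).1)ᵀ * (((iota E).1)ᵀ * P.1ᵀ) * J0 * (P.1 * (iota E).1 * (P⁻¹).1)
        = ((P⁻¹).1)ᵀ * (((iota E).1)ᵀ * (P.1ᵀ * J0 * P.1) * (iota E).1) * (P⁻¹).1 := by
          simp only [Matrix.mul_assoc]
      _ = ((P⁻¹).1)ᵀ * (P.1ᵀ * J0 * P.1) * (P⁻¹).1 := by rw [hP, hpresR]
      _ = (P.1 * (P⁻¹).1)ᵀ * J0 * (P.1 * (P⁻¹).1) := by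
          rw [Matrix.transpose_mul]; simp only [Matrix.mul_assoc]
      _ = J0 := by rw [hinv]; simp
  · intro h
    apply hv0
    have h2 : (P⁻¹).1 *ᵥ (P.1 *ᵥ (fun i => (v i : ℝ))) = 0 := by rw [h, Matrix.mulVec_zero]
    rw [Matrix.mulVec_mulVec, hinv', Matrix.one_mulVec] at h2
    ext i
    have := congrFun h2 i
    simpa using this
  · have h1 : (P.1 *ᵥ (fun i => (v i : ℝ))) ⬝ᵥ (J0 *ᵥ (P.1 *ᵥ (fun i => (v i : ℝ)))) =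
        (fun i => (v i : ℝ)) ⬝ᵥ ((P.1ᵀ * J0 * P.1) *ᵥ (fun i => (v i : ℝ))) := by
      rw [← Matrix.mulVec_mulVec, ← Matrix.mulVec_mulVec, Matrix.dotProduct_mulVec _ (P.1ᵀ),
        Matrix.vecMul_transpose]
    rw [h1, hP, hcast]
    have h2 : ((v ⬝ᵥ (S *ᵥ v) : ℚ) : ℝ) = 0 := by rw [hv]; simp
    rw [← h2]
    simp [dotProduct]
  · rw [hval, Matrix.mulVec_mulVec]
    have h1 : P.1 * (iota E).1 * (P⁻¹).1 * P.1 = P.1 * (iota E).1 := by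
      rw [Matrix.mul_assoc, hinv', Matrix.mul_one]
    rw [h1, ← Matrix.mulVec_mulVec]
    congr 1
    have h2 : (iotaZQ E).1 *ᵥ v = v := by
      rw [hE v, hv, hy]; simp
    rw [hiota]
    ext i
    have := congrFun h2 i
    conv_rhs => rw [← this]
    simp [Matrix.mulVec, dotProduct]

end RH6
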