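import Pool.Agent.RH6.A3

open Matrix

namespace RH6

/-- rational vector as real vector -/
def a4_c (x : Fin 7 → ℚ) : Fin 7 → ℝ := fun i => (x i : ℝ)

theorem a4_c_mulVec (A : Matrix (Fin 7) (Fin 7) ℚ) (x : Fin 7 → ℚ) :
    (A.map (fun q : ℚ => (q : ℝ))) *ᵥ a4_c x = a4_c (A *ᵥ x) := by
  ext i; simp [a4_c, Matrix.mulVec, dotProduct]

theorem a4_c_dot (x z : Fin 7 → ℚ) : a4_c x ⬝ᵥ a4_c z = ((x ⬝ᵥ z : ℚ) : ℝ) := by
  simp [a4_c, dotProduct]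

theorem a4_c_form (S : Matrix (Fin 7) (Fin 7) ℚ) (x z : Fin 7 → ℚ) :
    a4_c x ⬝ᵥ ((S.map (fun q : ℚ => (q : ℝ))) *ᵥ a4_c z) = ((x ⬝ᵥ (S *ᵥ z) : ℚ) : ℝ) := by
  rw [a4_c_mulVec, a4_c_dot]

theorem a4_c_inj {x z : Fin 7 → ℚ} (h : a4_c x = a4_c z) : x = z := by
  ext i
  have := congrFun h i
  simpa [a4_c] using this

theorem a4_c_zero : a4_c 0 = 0 := by ext i; simp [a4_c]

theorem a4_c_add (x z : Fin 7 → ℚ) : a4_c (x + z) = a4_c x + a4_c z := by ext i; simp [a4_c]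

theorem a4_c_sub (x z : Fin 7 → ℚ) : a4_c (x - z) = a4_c x - a4_c z := by ext i; simp [a4_c]

theorem a4_c_smul (t : ℚ) (x : Fin 7 → ℚ) : a4_c (t • x) = (t : ℝ) • a4_c x := by
  ext i; simp [a4_c]

/-- symmetry of the bilinear form -/
theorem a4_comm {R : Type*} [CommRing R] {S : Matrix (Fin 7) (Fin 7) R} (hS : Sᵀ = S)
    (x z : Fin 7 → R) : x ⬝ᵥ (S *ᵥ z) = z ⬝ᵥ (S *ᵥ x) := by
  rw [Matrix.dotProduct_mulVec, ← Matrix.mulVec_transpose, hS, dotProduct_comm]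

theorem a4_vmvQ (u w x : Fin 7 → ℚ) : vecMulVec u w *ᵥ x = (x ⬝ᵥ w) • u := by
  rw [Matrix.vecMulVec_mulVec, dotProduct_comm w x]
  ext i
  simp [mul_comm]

theorem a4_det_map (S : Matrix (Fin 7) (Fin 7) ℚ) :
    (S.map (fun q : ℚ => (q : ℝ))).det = ((S.det : ℚ) : ℝ) :=
  (RingHom.map_det (algebraMap ℚ ℝ) S).symm

/-- a rational vector orthogonal to `w` and not proportional to `v` -/
theorem a4_orth (w v : Fin 7 → ℚ) : ∃ y : Fin 7 → ℚ, w ⬝ᵥ y = 0 ∧ ∀ t : ℚ, y ≠ t • v := by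
  by_contra hcon
  push Not at hcon
  let f : (Fin 7 → ℚ) →ₗ[ℚ] ℚ :=
    { toFun := fun y => w ⬝ᵥ y
      map_add' := fun a b => dotProduct_add w a b
      map_smul' := fun t a => by simp [dotProduct_smul] }
  have h1 := LinearMap.finrank_range_add_finrank_ker f
  have h2 : Module.finrank ℚ (LinearMap.range f) ≤ 1 := by
    have := Submodule.finrank_le (LinearMap.range f)
    rwa [Module.finrank_self] at this
  have h3 : LinearMap.ker f ≤ Submodule.span ℚ {v} := by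
    intro y hy
    obtain ⟨t, ht⟩ := hcon y hy
    rw [Submodule.mem_span_singleton]
    exact ⟨t, ht.symm⟩
  have h4 := Submodule.finrank_mono h3
  have h5 : Module.finrank ℚ (Submodule.span ℚ ({v} : Set (Fin 7 → ℚ))) ≤ 1 := by
    have := finrank_span_le_card (R := ℚ) ({v} : Set (Fin 7 → ℚ))
    simpa using this
  have h6 : Module.finrank ℚ (Fin 7 → ℚ) = 7 := by simp
  omega

theorem a4_det {P : GL (Fin 7) ℝ} {S : Matrix (Fin 7) (Fin 7) ℚ}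
    (hP : P.1ᵀ * J0 * P.1 = S.map (fun q : ℚ => (q : ℝ))) : S.det ≠ 0 := by
  intro h
  have h1 : (S.map (fun q : ℚ => (q : ℝ))).det = 0 := by
    rw [a4_det_map, h]; simp
  rw [← hP, Matrix.det_mul, Matrix.det_mul, Matrix.det_transpose] at h1
  have hJ : (J0 : Matrix (Fin 7) (Fin 7) ℝ).det = -1 := by
    unfold J0
    rw [Matrix.det_diagonal]
    simp [Fin.prod_univ_succ]
  have hPd : P.1.det ≠ 0 := by
    have : IsUnit P.1.det := (Matrix.isUnit_iff_isUnit_det _).1 P.isUnit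
    exact this.ne_zero
  rw [hJ] at h1
  have : P.1.det * -1 * P.1.det ≠ 0 := mul_ne_zero (mul_ne_zero hPd (by norm_num)) hPd
  exact this h1

theorem a4_symm {P : GL (Fin 7) ℝ} {S : Matrix (Fin 7) (Fin 7) ℚ}
    (hP : P.1ᵀ * J0 * P.1 = S.map (fun q : ℚ => (q : ℝ))) : Sᵀ = S := by
  have hJ : (J0 : Matrix (Fin 7) (Fin 7) ℝ)ᵀ = J0 := by
    unfold J0; rw [Matrix.diagonal_transpose]
  have h1 : (P.1ᵀ * J0 * P.1)ᵀ = P.1ᵀ * J0 * P.1 := by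
    rw [Matrix.transpose_mul, Matrix.transpose_mul, Matrix.transpose_transpose, hJ,
      Matrix.mul_assoc]
  rw [hP] at h1
  ext i j
  have := congrFun (congrFun h1 i) j
  simpa using this

theorem a4_form {P : GL (Fin 7) ℝ} {S : Matrix (Fin 7) (Fin 7) ℚ}
    (hP : P.1ᵀ * J0 * P.1 = S.map (fun q : ℚ => (q : ℝ))) (x z : Fin 7 → ℚ) :
    (P.1 *ᵥ a4_c x) ⬝ᵥ (J0 *ᵥ (P.1 *ᵥ a4_c z)) = ((x ⬝ᵥ (S *ᵥ z) : ℚ) : ℝ) := by
  have h1 : (P.1 *ᵥ a4_c x) ⬝ᵥ (J0 *ᵥ (P.1 *ᵥ a4_c z)) =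
      a4_c x ⬝ᵥ ((P.1ᵀ * J0 * P.1) *ᵥ a4_c z) := by
    rw [← Matrix.mulVec_mulVec, ← Matrix.mulVec_mulVec, Matrix.dotProduct_mulVec _ (P.1ᵀ),
      Matrix.vecMul_transpose]
  rw [h1, hP, a4_c_form]

theorem a4_gl_inv (P : GL (Fin 7) ℝ) : P.1 * (P⁻¹).1 = 1 := by
  have h1 : P * P⁻¹ = 1 := mul_inv_cancel P
  have h3 : (P * P⁻¹).1 = P.1 * (P⁻¹).1 := rfl
  rw [← h3, h1]; rfl

theorem a4_gl_inv' (P : GL (Fin 7) ℝ) : (P⁻¹).1 * P.1 = 1 := by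
  have h1 : P⁻¹ * P = 1 := inv_mul_cancel P
  have h3 : (P⁻¹ * P).1 = (P⁻¹).1 * P.1 := rfl
  rw [← h3, h1]; rfl

theorem a4_vmv (u w x : Fin 7 → ℝ) : vecMulVec u w *ᵥ x = (x ⬝ᵥ w) • u := by
  rw [Matrix.vecMulVec_mulVec, dotProduct_comm w x]
  ext i
  simp [mul_comm]

/-- `Mᵀ S' M = S` -/
theorem a4_MSM {P P' : GL (Fin 7) ℝ} {S S' : Matrix (Fin 7) (Fin 7) ℚ}
    (hP : P.1ᵀ * J0 * P.1 = S.map (fun q : ℚ => (q : ℝ)))
    (hP' : P'.1ᵀ * J0 * P'.1 = S'.map (fun q : ℚ => (q : ℝ))) :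
    ((P'⁻¹ * P).1)ᵀ * (S'.map (fun q : ℚ => (q : ℝ))) * (P'⁻¹ * P).1 =
      S.map (fun q : ℚ => (q : ℝ)) := by
  have h0 : P'.1 * (P'⁻¹ * P).1 = P.1 := by
    have : (P' * (P'⁻¹ * P)).1 = P'.1 * (P'⁻¹ * P).1 := rfl
    rw [← this, mul_inv_cancel_left]
  rw [← hP', ← hP]
  conv_rhs => rw [← h0]
  rw [Matrix.transpose_mul]
  simp only [Matrix.mul_assoc]

/-- step (1): the products of two coordinates of the image of an isotropic vector are rational -/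
theorem a4_step1 {P P' : GL (Fin 7) ℝ} {S S' : Matrix (Fin 7) (Fin 7) ℚ}
    (hP : P.1ᵀ * J0 * P.1 = S.map (fun q : ℚ => (q : ℝ)))
    (hP' : P'.1ᵀ * J0 * P'.1 = S'.map (fun q : ℚ => (q : ℝ)))
    (hpow : ∀ γ ∈ latGroup P, ∃ k : ℕ, 0 < k ∧ γ ^ k ∈ latGroup P')
    {v : Fin 7 → ℚ} (hv0 : v ≠ 0) (hv : v ⬝ᵥ (S *ᵥ v) = 0) (i j : Fin 7) :
    ∃ r : ℚ, ((P'⁻¹ * P).1 *ᵥ a4_c v) i * ((P'⁻¹ * P).1 *ᵥ a4_c v) j = r := by
  have hS : Sᵀ = S := a4_symm hP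
  have hS' : S'ᵀ = S' := a4_symm hP'
  obtain ⟨y, hy1, hne⟩ := a4_orth (S *ᵥ v) v
  have hy : v ⬝ᵥ (S *ᵥ y) = 0 := by rw [a4_comm hS, dotProduct_comm]; exact hy1
  have hyv : y ⬝ᵥ (S *ᵥ v) = 0 := by rw [a4_comm hS]; exact hy
  have hPinj : ∀ u w : Fin 7 → ℝ, P.1 *ᵥ u = P.1 *ᵥ w → u = w := by
    intro u w h
    have h2 : (P⁻¹).1 *ᵥ (P.1 *ᵥ u) = (P⁻¹).1 *ᵥ (P.1 *ᵥ w) := by rw [h]
    rw [Matrix.mulVec_mulVec, Matrix.mulVec_mulVec, a4_gl_inv', Matrix.one_mulVec,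
      Matrix.one_mulVec] at h2
    exact h2
  have hq : 0 < y ⬝ᵥ (S *ᵥ y) := by
    have h1 : 0 < bR G0 (P.1 *ᵥ a4_c y) (P.1 *ᵥ a4_c y) := by
      apply pos_of_orth_iso lor_G0 (v := P.1 *ᵥ a4_c v)
      · intro h
        apply hv0
        apply a4_c_inj
        rw [a4_c_zero]
        apply hPinj
        rw [h, Matrix.mulVec_zero]
      · rw [bR_G0, a4_form hP, hv]; simp
      · rw [bR_G0, a4_form hP, hyv]; simp
      · intro t ht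
        rw [← Matrix.mulVec_smul] at ht
        have ht' := hPinj _ _ ht
        obtain ⟨i0, hi0⟩ : ∃ i0, v i0 ≠ 0 := by
          by_contra hcon
          push Not at hcon
          exact hv0 (funext hcon)
        have h2 := congrFun ht' i0
        simp only [a4_c, Pi.smul_apply, smul_eq_mul] at h2
        have h3 : t = ((y i0 / v i0 : ℚ) : ℝ) := by
          have : (v i0 : ℝ) ≠ 0 := by exact_mod_cast hi0
          push_cast
          field_simp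
          linarith
        apply hne (y i0 / v i0)
        apply a4_c_inj
        rw [a4_c_smul, ← h3]
        exact ht'
    rw [bR_G0, a4_form hP] at h1
    exact_mod_cast h1
  obtain ⟨a, b, E, ha, hb, hE⟩ := eichler_rat S hS v y hv hy
  have hmem : P * iota E * P⁻¹ ∈ latGroup P := by
    apply eichler_mem hP hv0 hv hy (a := a) (b := b)
    intro x
    have := hE 1 x
    rw [pow_one] at this
    rw [this]
    push_cast
    simp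
  obtain ⟨k, hk, hγ⟩ := hpow _ hmem
  rw [conj_pow, ← map_pow] at hγ
  obtain ⟨_, F, hF⟩ := hγ
  have hcomm : P'⁻¹ * P * iota (E ^ k) = iota F * (P'⁻¹ * P) := by
    have := congrArg (fun g => P'⁻¹ * g * (P'⁻¹ * P)) hF
    simpa [mul_assoc] using this
  have hcommM : (P'⁻¹ * P).1 * (iota (E ^ k)).1 = (iota F).1 * (P'⁻¹ * P).1 :=
    congrArg Units.val hcomm
  have hMSM := a4_MSM hP hP'
  have hMinv := a4_gl_inv (P'⁻¹ * P)
  generalize hMdef : (P'⁻¹ * P).1 = M at hcommM hMSM hMinv ⊢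
  generalize hMidef : ((P'⁻¹ * P)⁻¹).1 = Mi at hMinv
  -- the number `n = k a b`
  have hn0 : ((k : ℚ) * (a * b)) ≠ 0 := by
    have h1 : (k : ℚ) ≠ 0 := by exact_mod_cast hk.ne'
    have h2 : (a : ℚ) ≠ 0 := by exact_mod_cast ha.ne'
    have h3 : (b : ℚ) ≠ 0 := by exact_mod_cast hb.ne'
    exact mul_ne_zero h1 (mul_ne_zero h2 h3)
  -- matrix identity over `ℚ`
  have hsq : ((iotaZQ (E ^ k)).1 - 1) * ((iotaZQ (E ^ k)).1 - 1) =
      (-(((k : ℚ) * (a * b)) ^ 2 * (y ⬝ᵥ (S *ᵥ y)))) • vecMulVec v (S *ᵥ v) := by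
    rw [Matrix.ext_iff_mulVec]
    intro x
    have hA : ∀ x, ((iotaZQ (E ^ k)).1 - 1) *ᵥ x = (((k : ℚ) * (a * b)) * (x ⬝ᵥ (S *ᵥ v))) • y
        - (((k : ℚ) * (a * b)) * (x ⬝ᵥ (S *ᵥ y)) +
            ((k : ℚ) * (a * b)) ^ 2 * (y ⬝ᵥ (S *ᵥ y)) / 2 * (x ⬝ᵥ (S *ᵥ v))) • v := by
      intro x
      rw [Matrix.sub_mulVec, Matrix.one_mulVec, hE k x]
      ext i
      simp only [Pi.add_apply, Pi.sub_apply, Pi.smul_apply, smul_eq_mul]
      ring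
    rw [← Matrix.mulVec_mulVec, hA x, Matrix.mulVec_sub, Matrix.mulVec_smul, Matrix.mulVec_smul,
      hA y, hA v, Matrix.smul_mulVec, a4_vmvQ, hv, hy, hyv]
    ext i
    simp only [Pi.sub_apply, Pi.smul_apply, smul_eq_mul]
    ring
  have hiota : ∀ A : GL (Fin 7) ℤ, (iota A).1 = ((iotaZQ A).1).map (fun q : ℚ => (q : ℝ)) := by
    intro A
    ext i j
    simp [iota, iotaZQ, Matrix.GeneralLinearGroup.map]
  have hone : (1 : Matrix (Fin 7) (Fin 7) ℚ).map (fun q : ℚ => (q : ℝ)) = 1 := by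
    ext i j
    by_cases hij : i = j
    · subst hij; simp
    · simp [Matrix.one_apply_ne hij]
  have hsub : ∀ A : GL (Fin 7) ℤ, (iota A).1 - 1 =
      (((iotaZQ A).1) - 1).map (fun q : ℚ => (q : ℝ)) := by
    intro A
    rw [hiota A]
    conv_lhs => rw [← hone]
    ext i j
    simp only [Matrix.sub_apply, Matrix.map_apply, Rat.cast_sub]
  have hmapmul : ∀ A B : Matrix (Fin 7) (Fin 7) ℚ, A.map (fun q : ℚ => (q : ℝ)) *
      B.map (fun q : ℚ => (q : ℝ)) = (A * B).map (fun q : ℚ => (q : ℝ)) := by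
    intro A B
    ext i j
    simp [Matrix.mul_apply]
  have hsqR : ((iota (E ^ k)).1 - 1) * ((iota (E ^ k)).1 - 1) =
      (((-(((k : ℚ) * (a * b)) ^ 2 * (y ⬝ᵥ (S *ᵥ y))) : ℚ)) : ℝ) •
        vecMulVec (a4_c v) ((S.map (fun q : ℚ => (q : ℝ))) *ᵥ a4_c v) := by
    rw [hsub, hmapmul, hsq, a4_c_mulVec]
    ext i j
    simp only [Matrix.map_apply, Matrix.smul_apply, Matrix.vecMulVec_apply, smul_eq_mul, a4_c]
    push_cast
    ring
  generalize hcdef : (-(((k : ℚ) * (a * b)) ^ 2 * (y ⬝ᵥ (S *ᵥ y))) : ℚ) = c at hsqR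
  have hc0 : c ≠ 0 := by
    rw [← hcdef]
    exact neg_ne_zero.mpr (mul_ne_zero (pow_ne_zero 2 hn0) hq.ne')
  -- `B B M = M A A`
  have hBM : ((iota F).1 - 1) * ((iota F).1 - 1) * M =
      M * (((iota (E ^ k)).1 - 1) * ((iota (E ^ k)).1 - 1)) := by
    have h1 : ((iota F).1 - 1) * M = M * ((iota (E ^ k)).1 - 1) := by
      rw [Matrix.sub_mul, Matrix.mul_sub, Matrix.one_mul, Matrix.mul_one, hcommM]
    rw [Matrix.mul_assoc, h1, ← Matrix.mul_assoc, h1, Matrix.mul_assoc]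
  have hBB : ∀ u : Fin 7 → ℝ, (((iota F).1 - 1) * ((iota F).1 - 1)) *ᵥ u =
      ((c : ℝ) * (((S'.map (fun q : ℚ => (q : ℝ))) *ᵥ u) ⬝ᵥ (M *ᵥ a4_c v))) • (M *ᵥ a4_c v) := by
    intro u
    have hu : u = M *ᵥ (Mi *ᵥ u) := by
      rw [Matrix.mulVec_mulVec, hMinv, Matrix.one_mulVec]
    generalize Mi *ᵥ u = x at hu
    rw [hu, Matrix.mulVec_mulVec, hBM, hsqR, Matrix.mul_smul, Matrix.smul_mulVec,
      ← Matrix.mulVec_mulVec, a4_vmv, Matrix.mulVec_smul, smul_smul]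
    congr 2
    rw [← hMSM, ← Matrix.mulVec_mulVec, ← Matrix.mulVec_mulVec, Matrix.dotProduct_mulVec x,
      Matrix.vecMul_transpose]
    have hSR' : (S'.map (fun q : ℚ => (q : ℝ)))ᵀ = S'.map (fun q : ℚ => (q : ℝ)) := by
      rw [← Matrix.transpose_map, hS']
    rw [a4_comm hSR', dotProduct_comm]
  -- choose `u = S'⁻¹ e_j`
  have hdet : IsUnit S'.det := isUnit_iff_ne_zero.mpr (a4_det hP')
  have hSu : S' *ᵥ (S'⁻¹ *ᵥ (Pi.single j (1 : ℚ))) = Pi.single j (1 : ℚ) := by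
    rw [Matrix.mulVec_mulVec, Matrix.mul_nonsing_inv _ hdet, Matrix.one_mulVec]
  generalize S'⁻¹ *ᵥ (Pi.single j (1 : ℚ)) = u at hSu
  have h1 := congrFun (hBB (a4_c u)) i
  rw [a4_c_mulVec, hSu, hsub, hmapmul, a4_c_mulVec] at h1
  have h2 : a4_c (Pi.single j (1 : ℚ)) ⬝ᵥ (M *ᵥ a4_c v) = (M *ᵥ a4_c v) j := by
    have : a4_c (Pi.single j (1 : ℚ)) = Pi.single j (1 : ℝ) := by
      ext l
      by_cases hl : l = j
      · subst hl; simp [a4_c]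
      · simp [a4_c, Pi.single_eq_of_ne hl]
    rw [this]
    simp
  rw [h2, Pi.smul_apply, smul_eq_mul] at h1
  refine ⟨(((((iotaZQ F).1 - 1) * ((iotaZQ F).1 - 1)) *ᵥ u) i) / c, ?_⟩
  have hcR : (c : ℝ) ≠ 0 := by exact_mod_cast hc0
  push_cast
  rw [eq_div_iff hcR]
  rw [show ((((((iotaZQ F).1 - 1) * ((iotaZQ F).1 - 1)) *ᵥ u) i : ℚ) : ℝ) =
    a4_c ((((iotaZQ F).1 - 1) * ((iotaZQ F).1 - 1)) *ᵥ u) i from rfl, h1]
  ring

/-- Row [RH-A4]: rationality.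

Let `M = P'⁻¹ P`, so `Mᵀ S' M = S`.
(1) Let `v ∈ ℚ^7`, `v ≠ 0`, `S(v,v) = 0`.  Choose `y ∈ ℚ^7` with `S(v,y) = 0`, not proportional to `v`
(dimension 6 of `v^⊥`), so `S(y,y) > 0` (`pos_of_orth_iso` for `P y`, `P v` and `G0`).  With `E, a, b`
as in `eichler_rat`, `γ = P E P⁻¹ ∈ latGroup P` (`eichler_mem`); choose `k > 0` with
`γ^k ∈ latGroup P'`, i.e. `F = M E^k M⁻¹ = P'⁻¹ γ^k P'` is integral.  From the formula (with
`n = k a b`), `(E^k - 1) v = 0`, `(E^k - 1) y = -n S(y,y) v`, so `(E^k - 1)² x = -n² S(y,y) S(x,v) v`,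
i.e. `(E^k - 1)² = -n² S(y,y) v (S v)ᵀ`, and
`(F - 1)² = M (E^k-1)² M⁻¹ = -n² S(y,y) (M v) (M⁻ᵀ S v)ᵀ = -n² S(y,y) (M v)(S' M v)ᵀ` is a rational
matrix.  As `n² S(y,y) ≠ 0` is rational and `S'` is rational and invertible, `(Mv)(Mv)ᵀ` is a
rational matrix: all `(Mv)_i (Mv)_j ∈ ℚ`.
(2) Fix `v₀ = x₀` and `j` with `(Mv₀)_j ≠ 0`, and put `l = ((M v₀)_j)⁻¹`.  Then `l² ∈ ℚ` and
`M v₀ = l · q₀`, `q₀ ∈ ℚ^7` (`(M v₀)_i = l (Mv₀)_i (Mv₀)_j`).  If `v` is another isotropic rational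
vector with `S(v,v₀) ≠ 0`, then `M v = l' q'` similarly and
`S(v,v₀) = S'(Mv, Mv₀) = l l' S'(q',q₀)`, so `l l' ∈ ℚ`, `l' = l (l l')/l² ∈ l ℚ`: so `M v ∈ l ℚ^7`.
(3) For `x ∈ ℚ^7` with `S(v₀,x) ≠ 0` the vector `v = S(v₀,x) x - ½ S(x,x) v₀` is isotropic, and
`S(v,v₀) = S(v₀,x)² ≠ 0`; so `M v ∈ l ℚ^7` and `M x ∈ l ℚ^7`.  For `x` with `S(v₀,x) = 0` take `x₁`
with `S(v₀,x₁) ≠ 0` and use `x = (x + x₁) - x₁`.  So `M = l Q`, `Q` rational, invertible. -/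
theorem rat_of_powers {P P' : GL (Fin 7) ℝ} {S S' : Matrix (Fin 7) (Fin 7) ℚ}
    (hP : P.1ᵀ * J0 * P.1 = S.map (fun q : ℚ => (q : ℝ)))
    (hP' : P'.1ᵀ * J0 * P'.1 = S'.map (fun q : ℚ => (q : ℝ)))
    {x₀ : Fin 7 → ℚ} (hx : x₀ ≠ 0) (hx0 : x₀ ⬝ᵥ (S *ᵥ x₀) = 0)
    (hpow : ∀ γ ∈ latGroup P, ∃ k : ℕ, 0 < k ∧ γ ^ k ∈ latGroup P') :
    ∃ (l : ℝ) (Q : GL (Fin 7) ℚ), l ≠ 0 ∧ P.1 = l • (P'.1 * (iotaQ Q).1) := by
  have hS : Sᵀ = S := a4_symm hP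
  have hstep := fun {v : Fin 7 → ℚ} (h0 : v ≠ 0) (h1 : v ⬝ᵥ (S *ᵥ v) = 0) =>
    a4_step1 hP hP' hpow h0 h1
  have hMSM := a4_MSM hP hP'
  have hMinv := a4_gl_inv' (P'⁻¹ * P)
  have hMdet : ((P'⁻¹ * P).1).det ≠ 0 := by
    have : IsUnit ((P'⁻¹ * P).1).det := (Matrix.isUnit_iff_isUnit_det _).1 (P'⁻¹ * P).isUnit
    exact this.ne_zero
  have hPM : P'.1 * (P'⁻¹ * P).1 = P.1 := by
    have : (P' * (P'⁻¹ * P)).1 = P'.1 * (P'⁻¹ * P).1 := rfl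
    rw [← this, mul_inv_cancel_left]
  generalize hMdef : (P'⁻¹ * P).1 = M at hstep hMSM hMinv hMdet hPM
  generalize hMidef : ((P'⁻¹ * P)⁻¹).1 = Mi at hMinv
  have hMinj : ∀ u : Fin 7 → ℚ, u ≠ 0 → ∃ j, (M *ᵥ a4_c u) j ≠ 0 := by
    intro u hu
    by_contra hcon
    push Not at hcon
    apply hu
    apply a4_c_inj
    have h1 : M *ᵥ a4_c u = 0 := funext hcon
    have h2 : Mi *ᵥ (M *ᵥ a4_c u) = 0 := by rw [h1, Matrix.mulVec_zero]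
    rw [Matrix.mulVec_mulVec, hMinv, Matrix.one_mulVec] at h2
    rw [h2, a4_c_zero]
  obtain ⟨j, hj⟩ := hMinj x₀ hx
  choose r hr using fun i => hstep hx hx0 i j
  -- the submodule of the vectors mapped into `l ℚ^7`
  set l : ℝ := ((M *ᵥ a4_c x₀) j)⁻¹ with hl
  have hl0 : l ≠ 0 := inv_ne_zero hj
  have hl2 : ∃ s : ℚ, l * l = s := by
    refine ⟨(r j)⁻¹, ?_⟩
    push_cast
    rw [← hr j, hl, mul_inv]
  obtain ⟨s, hs⟩ := hl2
  have hs0 : (s : ℝ) ≠ 0 := by rw [← hs]; exact mul_ne_zero hl0 hl0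
  have hq0 : M *ᵥ a4_c x₀ = l • a4_c r := by
    ext i
    simp only [a4_c, Pi.smul_apply, smul_eq_mul]
    rw [← hr i, hl]
    field_simp
  let L : Submodule ℚ (Fin 7 → ℚ) :=
    { carrier := {x | ∃ q : Fin 7 → ℚ, M *ᵥ a4_c x = l • a4_c q}
      add_mem' := by
        rintro x z ⟨q, hq⟩ ⟨q', hq'⟩
        exact ⟨q + q', by rw [a4_c_add, a4_c_add, Matrix.mulVec_add, hq, hq', smul_add]⟩
      zero_mem' := ⟨0, by rw [a4_c_zero, Matrix.mulVec_zero, smul_zero]⟩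
      smul_mem' := by
        rintro t x ⟨q, hq⟩
        exact ⟨t • q, by rw [a4_c_smul, a4_c_smul, Matrix.mulVec_smul, hq, smul_comm]⟩ }
  have hx₀L : x₀ ∈ L := ⟨r, hq0⟩
  -- the form of the images
  have hform : ∀ x z : Fin 7 → ℚ, (M *ᵥ a4_c x) ⬝ᵥ ((S'.map (fun q : ℚ => (q : ℝ))) *ᵥ
      (M *ᵥ a4_c z)) = ((x ⬝ᵥ (S *ᵥ z) : ℚ) : ℝ) := by
    intro x z
    rw [← a4_c_form, ← hMSM, ← Matrix.mulVec_mulVec, ← Matrix.mulVec_mulVec,
      Matrix.dotProduct_mulVec (a4_c x), Matrix.vecMul_transpose]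
  have h2 : ∀ v : Fin 7 → ℚ, v ⬝ᵥ (S *ᵥ v) = 0 → v ⬝ᵥ (S *ᵥ x₀) ≠ 0 → v ∈ L := by
    intro v hv hv1
    have hv0 : v ≠ 0 := by
      rintro rfl
      apply hv1
      simp
    obtain ⟨j', hj'⟩ := hMinj v hv0
    choose r' hr' using fun i => hstep hv0 hv i j'
    set l' : ℝ := ((M *ᵥ a4_c v) j')⁻¹ with hl'
    have hq' : M *ᵥ a4_c v = l' • a4_c r' := by
      ext i
      simp only [a4_c, Pi.smul_apply, smul_eq_mul]
      rw [← hr' i, hl']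
      field_simp
    have h3 := hform v x₀
    rw [hq', hq0, Matrix.mulVec_smul, dotProduct_smul, smul_dotProduct, a4_c_form, smul_eq_mul,
      smul_eq_mul] at h3
    have h4 : ((r' ⬝ᵥ (S' *ᵥ r) : ℚ) : ℝ) ≠ 0 := by
      intro h5
      rw [h5] at h3
      apply hv1
      have : ((v ⬝ᵥ (S *ᵥ x₀) : ℚ) : ℝ) = 0 := by rw [← h3]; ring
      exact_mod_cast this
    -- `l' = l * t`
    have h5 : l' = l * (((v ⬝ᵥ (S *ᵥ x₀)) / (r' ⬝ᵥ (S' *ᵥ r)) / s : ℚ) : ℝ) := by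
      push_cast
      rw [← h3, ← hs]
      field_simp
    refine ⟨((v ⬝ᵥ (S *ᵥ x₀)) / (r' ⬝ᵥ (S' *ᵥ r)) / s) • r', ?_⟩
    rw [hq', a4_c_smul, smul_smul, ← h5]
  have h3 : ∀ x : Fin 7 → ℚ, x₀ ⬝ᵥ (S *ᵥ x) ≠ 0 → x ∈ L := by
    intro x hx1
    have hc : x ⬝ᵥ (S *ᵥ x₀) = x₀ ⬝ᵥ (S *ᵥ x) := a4_comm hS _ _
    have h4 : (x₀ ⬝ᵥ (S *ᵥ x)) • x - (x ⬝ᵥ (S *ᵥ x) / 2) • x₀ ∈ L := by
      apply h2
      · simp only [Matrix.mulVec_sub, Matrix.mulVec_smul, dotProduct_sub, dotProduct_smul,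
          sub_dotProduct, smul_dotProduct, smul_eq_mul, hx0, hc]
        ring
      · simp only [sub_dotProduct, smul_dotProduct, smul_eq_mul, hx0, hc]
        simpa using hx1
    have h5 : (x₀ ⬝ᵥ (S *ᵥ x)) • x ∈ L := by
      have := L.add_mem h4 (L.smul_mem (x ⬝ᵥ (S *ᵥ x) / 2) hx₀L)
      simpa using this
    exact (Submodule.smul_mem_iff L hx1).1 h5
  -- a vector with nonzero product
  obtain ⟨x₁, hx₁⟩ : ∃ x₁ : Fin 7 → ℚ, x₀ ⬝ᵥ (S *ᵥ x₁) ≠ 0 := by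
    by_contra hcon
    push Not at hcon
    apply hx
    have h4 : S *ᵥ x₀ = 0 := by
      ext i
      have := hcon (Pi.single i 1)
      rw [a4_comm hS] at this
      simpa using this
    exact Matrix.eq_zero_of_mulVec_eq_zero (a4_det hP) h4
  have h6 : ∀ x : Fin 7 → ℚ, x ∈ L := by
    intro x
    by_cases h7 : x₀ ⬝ᵥ (S *ᵥ x) = 0
    · have h8 : x + x₁ ∈ L := by
        apply h3
        rw [Matrix.mulVec_add, dotProduct_add, h7, zero_add]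
        exact hx₁
      have := L.sub_mem h8 (h3 x₁ hx₁)
      simpa using this
    · exact h3 x h7
  choose q hq using fun i : Fin 7 => h6 (Pi.single i 1)
  have hM : M = l • (Matrix.of (fun i k => q k i) : Matrix (Fin 7) (Fin 7) ℚ).map
      (fun q : ℚ => (q : ℝ)) := by
    ext i k
    have h7 := congrFun (hq k) i
    have h8 : a4_c (Pi.single k (1 : ℚ)) = Pi.single k (1 : ℝ) := by
      ext l
      by_cases hl : l = k
      · subst hl; simp [a4_c]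
      · simp [a4_c, Pi.single_eq_of_ne hl]
    rw [h8] at h7
    simpa [a4_c] using h7
  have hQdet : (Matrix.of (fun i k => q k i) : Matrix (Fin 7) (Fin 7) ℚ).det ≠ 0 := by
    intro h7
    apply hMdet
    have h8 : ((Matrix.of (fun i k => q k i) : Matrix (Fin 7) (Fin 7) ℚ).map
      (fun q : ℚ => (q : ℝ))).det = 0 := by
      rw [a4_det_map, h7]; simp
    rw [hM, Matrix.det_smul, h8, mul_zero]
  refine ⟨l, Matrix.GeneralLinearGroup.mkOfDetNeZero _ hQdet, hl0, ?_⟩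
  rw [← hPM, hM, Matrix.mul_smul]
  rfl

/-- Row [RH-A4]: scaling of `P` does not change the group -/
theorem latGroup_smul {P P' : GL (Fin 7) ℝ} {l : ℝ} (hl : l ≠ 0) (h : P.1 = l • P'.1) :
    latGroup P = latGroup P' := by
  ext g
  have key : ∀ k : GL (Fin 7) ℤ, g * P = P * iota k ↔ g * P' = P' * iota k := by
    intro k
    rw [← Units.val_inj, ← Units.val_inj, Units.val_mul, Units.val_mul, Units.val_mul,
      Units.val_mul]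
    change g.1 * P.1 = P.1 * (iota k).1 ↔ g.1 * P'.1 = P'.1 * (iota k).1
    rw [h, Matrix.mul_smul, Matrix.smul_mul]
    constructor
    · intro h1
      exact smul_right_injective _ hl h1
    · intro h1
      rw [h1]
  constructor
  · rintro ⟨h1, k, hk⟩
    exact ⟨h1, k, (key k).1 hk⟩
  · rintro ⟨h1, k, hk⟩
    exact ⟨h1, k, (key k).2 hk⟩

end RH6
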