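import Pool.Agent.RH6.A4

open Matrix

namespace RH6

theorem a5_den (M : Matrix (Fin 7) (Fin 7) ℚ) :
    ∃ D : ℕ, 0 < D ∧ ∃ A : Matrix (Fin 7) (Fin 7) ℤ,
      A.map (fun n : ℤ => (n : ℚ)) = (D : ℚ) • M := by
  have hdvd : ∀ i j, (M i j).den ∣ ∏ p : Fin 7 × Fin 7, (M p.1 p.2).den := fun i j =>
    Finset.dvd_prod_of_mem (fun p : Fin 7 × Fin 7 => (M p.1 p.2).den) (Finset.mem_univ (i, j))
  choose c hc using hdvd
  refine ⟨∏ p : Fin 7 × Fin 7, (M p.1 p.2).den, Finset.prod_pos fun p _ => (M p.1 p.2).den_pos,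
    Matrix.of fun i j => (M i j).num * (c i j : ℤ), ?_⟩
  ext i j
  simp only [Matrix.map_apply, Matrix.of_apply, Matrix.smul_apply, smul_eq_mul]
  rw [hc i j, Nat.cast_mul, Int.cast_mul, Int.cast_natCast]
  have h1 : ((M i j).den : ℚ) * M i j = (M i j).num := by
    rw [mul_comm]; exact Rat.mul_den_eq_num _
  calc ((M i j).num : ℚ) * (c i j : ℚ) = (((M i j).den : ℚ) * M i j) * c i j := by rw [h1]
    _ = ((M i j).den : ℚ) * (c i j : ℚ) * M i j := by ring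

theorem a5_cast_mul (A B : Matrix (Fin 7) (Fin 7) ℤ) :
    (A * B).map (fun n : ℤ => (n : ℚ)) =
      A.map (fun n : ℤ => (n : ℚ)) * B.map (fun n : ℤ => (n : ℚ)) :=
  Matrix.map_mul (f := Int.castRingHom ℚ)

theorem a5_cast_one : (1 : Matrix (Fin 7) (Fin 7) ℤ).map (fun n : ℤ => (n : ℚ)) = 1 := by
  ext i j
  by_cases h : i = j
  · subst h; simp
  · simp [Matrix.one_apply_ne h]

theorem a5_cast_inj {A B : Matrix (Fin 7) (Fin 7) ℤ}
    (h : A.map (fun n : ℤ => (n : ℚ)) = B.map (fun n : ℤ => (n : ℚ))) : A = B := by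
  ext i j
  have h1 := congrFun (congrFun h i) j
  simp only [Matrix.map_apply] at h1
  exact_mod_cast h1

theorem a5_conj (T : GL (Fin 7) ℚ) : ∃ N : ℕ, 0 < N ∧ ∀ X : Matrix (Fin 7) (Fin 7) ℤ,
    (∀ i j, (N : ℤ) ∣ (X - 1) i j) → ∃ Y : Matrix (Fin 7) (Fin 7) ℤ,
      (T⁻¹).1 * (X.map (fun n : ℤ => (n : ℚ))) * T.1 = Y.map (fun n : ℤ => (n : ℚ)) := by
  obtain ⟨D1, hD1, A1, hA1⟩ := a5_den T.1
  obtain ⟨D2, hD2, A2, hA2⟩ := a5_den (T⁻¹).1
  refine ⟨D1 * D2, Nat.mul_pos hD1 hD2, fun X hX => ?_⟩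
  choose Z hZ using hX
  have hX' : X.map (fun n : ℤ => (n : ℚ)) =
      1 + ((D1 : ℚ) * D2) • (Matrix.of Z).map (fun n : ℤ => (n : ℚ)) := by
    rw [← a5_cast_one]
    ext i j
    have h1 := hZ i j
    rw [Matrix.sub_apply] at h1
    have h2 : X i j = (1 : Matrix (Fin 7) (Fin 7) ℤ) i j + ((D1 * D2 : ℕ) : ℤ) * Z i j := by
      linarith
    simp only [Matrix.map_apply, Matrix.add_apply, Matrix.smul_apply, Matrix.of_apply,
      smul_eq_mul]
    rw [h2]
    push_cast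
    ring
  refine ⟨1 + A2 * Matrix.of Z * A1, ?_⟩
  have hcast : (1 + A2 * Matrix.of Z * A1).map (fun n : ℤ => (n : ℚ)) =
      1 + (A2.map (fun n : ℤ => (n : ℚ))) * ((Matrix.of Z).map (fun n : ℤ => (n : ℚ))) *
        (A1.map (fun n : ℤ => (n : ℚ))) := by
    rw [← a5_cast_mul, ← a5_cast_mul, ← a5_cast_one]
    ext i j
    simp only [Matrix.map_apply, Matrix.add_apply]
    push_cast
    ring
  have hTT : (T⁻¹).1 * T.1 = 1 := T.inv_mul
  rw [hX', hcast, hA1, hA2, Matrix.mul_add, Matrix.add_mul, Matrix.mul_one, hTT]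
  congr 1
  simp only [Matrix.mul_smul, Matrix.smul_mul, smul_smul]

theorem a5_unit (T : GL (Fin 7) ℚ) : ∃ N : ℕ, 0 < N ∧ ∀ h : GL (Fin 7) ℤ,
    Matrix.GeneralLinearGroup.map (Int.castRingHom (ZMod N)) h = 1 →
    ∃ k : GL (Fin 7) ℤ, iotaZQ h * T = T * iotaZQ k := by
  obtain ⟨N, hN, hY⟩ := a5_conj T
  refine ⟨N, hN, fun h hh => ?_⟩
  have hdiv : ∀ g : GL (Fin 7) ℤ,
      Matrix.GeneralLinearGroup.map (Int.castRingHom (ZMod N)) g = 1 →
        ∀ i j, (N : ℤ) ∣ (g.1 - 1) i j := by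
    intro g hg i j
    have h1 : ((g.1 i j : ℤ) : ZMod N) = (1 : Matrix (Fin 7) (Fin 7) (ZMod N)) i j := by
      have h2 := congrArg (fun u : GL (Fin 7) (ZMod N) => u.1 i j) hg
      exact h2
    rw [Matrix.sub_apply, ← ZMod.intCast_zmod_eq_zero_iff_dvd, Int.cast_sub, h1]
    by_cases hij : i = j
    · subst hij; simp
    · simp [Matrix.one_apply_ne hij]
  obtain ⟨Y, hY1⟩ := hY h.1 (hdiv h hh)
  obtain ⟨Y', hY2⟩ := hY (h⁻¹).1 (hdiv h⁻¹ (by rw [map_inv, hh, inv_one]))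
  have hTT : T.1 * (T⁻¹).1 = 1 := T.mul_inv
  have hTT' : (T⁻¹).1 * T.1 = 1 := T.inv_mul
  have hhh : h.1 * (h⁻¹).1 = 1 := h.mul_inv
  have hhh' : (h⁻¹).1 * h.1 = 1 := h.inv_mul
  have hmul : ∀ A B : Matrix (Fin 7) (Fin 7) ℚ,
      ((T⁻¹).1 * A * T.1) * ((T⁻¹).1 * B * T.1) = (T⁻¹).1 * (A * B) * T.1 := by
    intro A B
    calc ((T⁻¹).1 * A * T.1) * ((T⁻¹).1 * B * T.1) =
        (T⁻¹).1 * A * (T.1 * (T⁻¹).1) * B * T.1 := by simp only [Matrix.mul_assoc]
      _ = (T⁻¹).1 * (A * B) * T.1 := by rw [hTT, Matrix.mul_one]; simp only [Matrix.mul_assoc]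
  have hYY' : Y * Y' = 1 := by
    apply a5_cast_inj
    rw [a5_cast_mul, ← hY1, ← hY2, hmul, ← a5_cast_mul, hhh, a5_cast_one, Matrix.mul_one, hTT']
  have hY'Y : Y' * Y = 1 := by
    apply a5_cast_inj
    rw [a5_cast_mul, ← hY1, ← hY2, hmul, ← a5_cast_mul, hhh', a5_cast_one, Matrix.mul_one, hTT']
  refine ⟨⟨Y, Y', hYY', hY'Y⟩, ?_⟩
  apply Units.ext
  change h.1.map (fun n : ℤ => (n : ℚ)) * T.1 = T.1 * Y.map (fun n : ℤ => (n : ℚ))
  rw [← hY1]
  calc h.1.map (fun n : ℤ => (n : ℚ)) * T.1 =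
      (T.1 * (T⁻¹).1) * h.1.map (fun n : ℤ => (n : ℚ)) * T.1 := by rw [hTT, Matrix.one_mul]
    _ = T.1 * ((T⁻¹).1 * h.1.map (fun n : ℤ => (n : ℚ)) * T.1) := by
      simp only [Matrix.mul_assoc]

theorem a5_iota (h : GL (Fin 7) ℤ) : iota h = iotaQ (iotaZQ h) := by
  apply Units.ext
  ext i j
  change ((h.1 i j : ℤ) : ℝ) = algebraMap ℚ ℝ ((h.1 i j : ℤ) : ℚ)
  simp

theorem a5_key (P : GL (Fin 7) ℝ) (T : GL (Fin 7) ℚ) :
    (latGroup (P * iotaQ T)).relIndex (latGroup P) ≠ 0 := by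
  obtain ⟨N, hN, hu⟩ := a5_unit T
  haveI : NeZero N := ⟨hN.ne'⟩
  have hch : ∀ g : latGroup P, ∃ h : GL (Fin 7) ℤ, g.1 * P = P * iota h := fun g => g.2.2
  choose f hf using hch
  have hfin : Finite ((latGroup P) ⧸ ((latGroup (P * iotaQ T)).subgroupOf (latGroup P))) := by
    refine Finite.of_injective
      (fun q => Matrix.GeneralLinearGroup.map (n := Fin 7) (Int.castRingHom (ZMod N))
        (f (Quotient.out q))) ?_
    intro q q' hqq
    simp only at hqq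
    have h1 : Matrix.GeneralLinearGroup.map (n := Fin 7) (Int.castRingHom (ZMod N))
        ((f (Quotient.out q))⁻¹ * f (Quotient.out q')) = 1 := by
      rw [map_mul, map_inv, hqq, inv_mul_cancel]
    obtain ⟨k, hk⟩ := hu _ h1
    rw [← QuotientGroup.out_eq' q, ← QuotientGroup.out_eq' q', QuotientGroup.eq,
      Subgroup.mem_subgroupOf]
    have e1 := hf (Quotient.out q)
    have e2 := hf (Quotient.out q')
    refine ⟨IsomH6.mul_mem (IsomH6.inv_mem (Quotient.out q).2.1) (Quotient.out q').2.1, k, ?_⟩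
    change ((Quotient.out q).1⁻¹ * (Quotient.out q').1) * (P * iotaQ T) = P * iotaQ T * iota k
    have e3 : (Quotient.out q).1⁻¹ * P = P * (iota (f (Quotient.out q)))⁻¹ := by
      rw [inv_mul_eq_iff_eq_mul, ← mul_assoc, e1, mul_assoc, mul_inv_cancel, mul_one]
    calc ((Quotient.out q).1⁻¹ * (Quotient.out q').1) * (P * iotaQ T)
        = (Quotient.out q).1⁻¹ * ((Quotient.out q').1 * P) * iotaQ T := by
          simp only [mul_assoc]
      _ = ((Quotient.out q).1⁻¹ * P) * iota (f (Quotient.out q')) * iotaQ T := by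
          rw [e2]; simp only [mul_assoc]
      _ = P * (iota ((f (Quotient.out q))⁻¹ * f (Quotient.out q')) * iotaQ T) := by
          rw [e3, map_mul, map_inv]; simp only [mul_assoc]
      _ = P * iotaQ (iotaZQ ((f (Quotient.out q))⁻¹ * f (Quotient.out q')) * T) := by
          rw [a5_iota, ← map_mul]
      _ = P * iotaQ T * iota k := by
          rw [hk, map_mul, ← a5_iota, mul_assoc]
  unfold Subgroup.relIndex
  exact Subgroup.index_ne_zero_of_finite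

/-- Row [RH-A5]: change of the lattice inside the same rational space.
Proof: let `D > 0` be such that `D T` and `D T⁻¹` are integral, `N = D²`.  The kernel `K` of
`GL₇(ℤ) → GL₇(ℤ/N)` has finite index (finite target), and for `h ∈ K`, `h = 1 + N X`, the matrix
`T⁻¹ h T = 1 + (D T⁻¹) X (D T)` is integral, as is `T⁻¹ h⁻¹ T`.  So the elements `γ` of `latGroup P`
with `γ P = P h`, `h ∈ K`, form a subgroup of finite index contained in `latGroup (P T)`:
`γ P T = P h T = P T (T⁻¹ h T)`.  So `(latGroup (P T)).relIndex (latGroup P) ≠ 0`; by symmetry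
(replace `P` by `P T` and `T` by `T⁻¹`) the groups are commensurable. -/
theorem comm_latGroup (P : GL (Fin 7) ℝ) (T : GL (Fin 7) ℚ) :
    (latGroup P).Commensurable (latGroup (P * iotaQ T)) := by
  have h2 := a5_key (P * iotaQ T) T⁻¹
  have h3 : P * iotaQ T * iotaQ T⁻¹ = P := by
    rw [map_inv, mul_assoc, mul_inv_cancel, mul_one]
  rw [h3] at h2
  exact ⟨h2, a5_key P T⟩

end RH6
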