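import Pool.Agent.RH6.A4

open Matrix

namespace RH6

/-- Row [RH-A5b]: elements of a group commensurable with `latGroup P` are rational.
Proof: let `γ ∈ Γ`.  Apply `rat_of_powers` to `γ P` and `P` (`(γP)ᵀ J0 (γP) = S`):
an element of `latGroup (γ P)` is `γ δ γ⁻¹` with `δ ∈ latGroup P`; some power `δ^k`, `k > 0`, is in
`Γ` (finite index), so `(γ δ γ⁻¹)^k ∈ Γ`, and a further power is in `latGroup P`.  So
`γ P = l P Q` as matrices.  Taking the form: `S = l² Qᵀ S Q`, so `l² ∈ ℚ` (some entry of `S` is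
nonzero), and determinants: `det γ = ±1` gives `l^7 det Q = ± 1`, so `l^7 ∈ ℚ`; hence
`l = l^7 / (l²)³ ∈ ℚ` and `q = l Q` is rational. -/
theorem rational_of_comm {P : GL (Fin 7) ℝ} {S : Matrix (Fin 7) (Fin 7) ℚ}
    (hP : P.1ᵀ * J0 * P.1 = S.map (fun q : ℚ => (q : ℝ)))
    {x₀ : Fin 7 → ℚ} (hx : x₀ ≠ 0) (hx0 : x₀ ⬝ᵥ (S *ᵥ x₀) = 0)
    {Γ : Subgroup (GL (Fin 7) ℝ)} (hΓ : Γ ≤ IsomH6) (hc : Γ.Commensurable (latGroup P))
    {γ : GL (Fin 7) ℝ} (hγ : γ ∈ Γ) : ∃ q : GL (Fin 7) ℚ, γ * P = P * iotaQ q := by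
  -- the matrix identity for `γ`
  have hγI := hΓ hγ
  have hγJ : γ.1ᵀ * J0 * γ.1 = J0 := hγI.1
  have hform : (γ * P).1ᵀ * J0 * (γ * P).1 = S.map (fun q : ℚ => (q : ℝ)) := by
    have h1 : (γ * P).1 = γ.1 * P.1 := rfl
    rw [h1, Matrix.transpose_mul]
    calc P.1ᵀ * γ.1ᵀ * J0 * (γ.1 * P.1) = P.1ᵀ * (γ.1ᵀ * J0 * γ.1) * P.1 := by
          simp only [Matrix.mul_assoc]
      _ = S.map (fun q : ℚ => (q : ℝ)) := by rw [hγJ, hP]
  -- powers
  have hpow : ∀ δ ∈ latGroup (γ * P), ∃ k : ℕ, 0 < k ∧ δ ^ k ∈ latGroup P := by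
    rintro δ ⟨hδI, h, hh⟩
    have hδ' : γ⁻¹ * δ * γ ∈ latGroup P := by
      refine ⟨IsomH6.mul_mem (IsomH6.mul_mem (IsomH6.inv_mem hγI) hδI) hγI, h, ?_⟩
      calc γ⁻¹ * δ * γ * P = γ⁻¹ * (δ * (γ * P)) := by group
        _ = P * iota h := by rw [hh]; group
    obtain ⟨k, hk, -, hk2⟩ := Subgroup.exists_pow_mem_of_relIndex_ne_zero hc.1 hδ'
    have hδk : δ ^ k ∈ Γ := by
      have h2 : γ * (γ⁻¹ * δ * γ) ^ k * γ⁻¹ ∈ Γ :=
        Γ.mul_mem (Γ.mul_mem hγ hk2.1) (Γ.inv_mem hγ)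
      have h3 : γ * (γ⁻¹ * δ * γ) ^ k * γ⁻¹ = δ ^ k := by
        rw [← conj_pow]
        congr 1
        group
      rwa [h3] at h2
    obtain ⟨m, hm, -, hm2⟩ := Subgroup.exists_pow_mem_of_relIndex_ne_zero hc.2 hδk
    refine ⟨k * m, Nat.mul_pos hk hm, ?_⟩
    rw [pow_mul]
    exact hm2.1
  obtain ⟨l, Q, hl, hlQ⟩ := rat_of_powers hform hP hx hx0 hpow
  -- the form
  have hQm : (iotaQ Q).1 = Q.1.map (fun q : ℚ => (q : ℝ)) := rfl
  have hdet0 : S.map (fun q : ℚ => (q : ℝ)) ≠ 0 := by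
    rw [← hP]
    intro h0
    have hd : (P.1ᵀ * J0 * P.1).det = 0 := by rw [h0]; exact Matrix.det_zero
    rw [Matrix.det_mul, Matrix.det_mul, Matrix.det_transpose] at hd
    have hPd : P.1.det ≠ 0 := by
      have := P.isUnit
      rw [Matrix.isUnit_iff_isUnit_det] at this
      exact this.ne_zero
    have hJd : J0.det ≠ 0 := by
      unfold J0
      rw [Matrix.det_diagonal]
      simp [Fin.prod_univ_succ]
    exact (mul_ne_zero (mul_ne_zero hPd hJd) hPd) hd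
  have hS0 : ∃ i j, S i j ≠ 0 := by
    by_contra hcon
    push Not at hcon
    apply hdet0
    ext i j
    simp [hcon i j]
  have hS : S.map (fun q : ℚ => (q : ℝ)) =
      l ^ 2 • (Q.1ᵀ * S * Q.1).map (fun q : ℚ => (q : ℝ)) := by
    have h1 : (Q.1ᵀ * S * Q.1).map (fun q : ℚ => (q : ℝ)) =
        (Q.1.map (fun q : ℚ => (q : ℝ)))ᵀ * S.map (fun q : ℚ => (q : ℝ)) *
          Q.1.map (fun q : ℚ => (q : ℝ)) := by
      have h2 := Matrix.map_mul (L := Q.1ᵀ * S) (M := Q.1) (f := algebraMap ℚ ℝ)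
      have h3 := Matrix.map_mul (L := Q.1ᵀ) (M := S) (f := algebraMap ℚ ℝ)
      rw [h3] at h2
      exact h2
    have h4 : (γ * P).1 = l • (P.1 * Q.1.map (fun q : ℚ => (q : ℝ))) := by rw [hlQ, hQm]
    rw [h1]
    calc S.map (fun q : ℚ => (q : ℝ)) = (γ * P).1ᵀ * J0 * (γ * P).1 := hform.symm
      _ = l ^ 2 • ((Q.1.map (fun q : ℚ => (q : ℝ)))ᵀ * (P.1ᵀ * J0 * P.1) *
            Q.1.map (fun q : ℚ => (q : ℝ))) := by
          rw [h4, Matrix.transpose_smul, Matrix.transpose_mul, Matrix.smul_mul, Matrix.smul_mul,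
            Matrix.mul_smul, smul_smul, ← pow_two]
          simp only [Matrix.mul_assoc]
      _ = _ := by rw [hP]
  obtain ⟨i, j, hij⟩ := hS0
  have hl2 : ∃ r : ℚ, l ^ 2 = (r : ℝ) := by
    have h1 : (S i j : ℝ) = l ^ 2 * (((Q.1ᵀ * S * Q.1) i j : ℚ) : ℝ) := by
      have := congrFun (congrFun hS i) j
      simpa using this
    have h2 : (((Q.1ᵀ * S * Q.1) i j : ℚ) : ℝ) ≠ 0 := by
      intro h0
      rw [h0, mul_zero] at h1
      exact hij (by exact_mod_cast h1)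
    refine ⟨S i j / (Q.1ᵀ * S * Q.1) i j, ?_⟩
    rw [Rat.cast_div, eq_div_iff h2, ← h1]
  -- determinants
  have hγd : γ.1.det = 1 ∨ γ.1.det = -1 := by
    have h1 : (γ.1ᵀ * J0 * γ.1).det = J0.det := by rw [hγJ]
    rw [Matrix.det_mul, Matrix.det_mul, Matrix.det_transpose] at h1
    have hJd : J0.det = -1 := by
      unfold J0
      rw [Matrix.det_diagonal]
      simp [Fin.prod_univ_succ]
    rw [hJd] at h1
    apply mul_self_eq_one_iff.1
    linear_combination -h1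
  have hPd : P.1.det ≠ 0 := by
    have := P.isUnit
    rw [Matrix.isUnit_iff_isUnit_det] at this
    exact this.ne_zero
  have hQd : Q.1.det ≠ 0 := by
    have := Q.isUnit
    rw [Matrix.isUnit_iff_isUnit_det] at this
    exact this.ne_zero
  have hQd2 : (Q.1.map (fun q : ℚ => (q : ℝ))).det = ((Q.1.det : ℚ) : ℝ) := by
    have := RingHom.map_det (algebraMap ℚ ℝ) Q.1
    exact this.symm
  have hl7 : ∃ r : ℚ, l ^ 7 = (r : ℝ) := by
    have h1 : (γ * P).1.det = (l • (P.1 * (iotaQ Q).1)).det := by rw [hlQ]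
    have h2 : (γ * P).1 = γ.1 * P.1 := rfl
    rw [h2, Matrix.det_mul, Matrix.det_smul, Matrix.det_mul, hQm, hQd2, Fintype.card_fin] at h1
    have h3 : γ.1.det = l ^ 7 * ((Q.1.det : ℚ) : ℝ) := by
      apply mul_right_cancel₀ hPd
      rw [h1]; ring
    have h4 : ((Q.1.det : ℚ) : ℝ) ≠ 0 := by exact_mod_cast hQd
    rcases hγd with h5 | h5
    · refine ⟨1 / Q.1.det, ?_⟩
      rw [h5] at h3
      rw [Rat.cast_div, Rat.cast_one, eq_div_iff h4, ← h3]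
    · refine ⟨-1 / Q.1.det, ?_⟩
      rw [h5] at h3
      rw [Rat.cast_div, Rat.cast_neg, Rat.cast_one, eq_div_iff h4, ← h3]
  obtain ⟨r2, hr2⟩ := hl2
  obtain ⟨r7, hr7⟩ := hl7
  have hlr : l = ((r7 / r2 ^ 3 : ℚ) : ℝ) := by
    rw [Rat.cast_div, Rat.cast_pow, ← hr2, ← hr7, eq_div_iff (pow_ne_zero _ (pow_ne_zero _ hl))]
    ring
  set r : ℚ := r7 / r2 ^ 3 with hr
  have hr0 : r ≠ 0 := by
    intro h0
    rw [h0, Rat.cast_zero] at hlr
    exact hl hlr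
  refine ⟨Units.map (algebraMap ℚ (Matrix (Fin 7) (Fin 7) ℚ)).toMonoidHom (Units.mk0 r hr0) * Q, ?_⟩
  apply Units.ext
  have h1 : (γ * P).1 = l • (P.1 * (iotaQ Q).1) := hlQ
  have h2 : (P * iotaQ (Units.map (algebraMap ℚ (Matrix (Fin 7) (Fin 7) ℚ)).toMonoidHom
      (Units.mk0 r hr0) * Q)).1 = P.1 * ((algebraMap ℚ (Matrix (Fin 7) (Fin 7) ℚ) r * Q.1).map
        (fun q : ℚ => (q : ℝ))) := rfl
  change (γ * P).1 = (P * iotaQ (Units.map (algebraMap ℚ (Matrix (Fin 7) (Fin 7) ℚ)).toMonoidHom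
      (Units.mk0 r hr0) * Q)).1
  rw [h1, h2, ← Algebra.smul_def, ← Matrix.mul_smul, hQm, hlr]
  congr 1
  ext a b
  simp

end RH6
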