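import Pool.Agent.RH6.B1

namespace RH6

/-! Row [RH-B1b]: more facts about lattices. -/

variable {V : Type*} [AddCommGroup V] [Module ℚ V] [FiniteDimensional ℚ V]

/-- integral combinations of a basis -/
noncomputable def b1b_g {n : ℕ} (b : Module.Basis (Fin n) ℚ V) : (Fin n → ℤ) →+ V where
  toFun c := ∑ i, (c i) • b i
  map_zero' := by simp
  map_add' c c' := by simp [add_smul, Finset.sum_add_distrib]

omit [FiniteDimensional ℚ V] in
theorem b1b_repr {n : ℕ} (b : Module.Basis (Fin n) ℚ V) (c : Fin n → ℤ) (i : Fin n) :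
    b.repr (b1b_g b c) i = c i := by
  have h : b1b_g b c = ∑ i, ((c i : ℤ) : ℚ) • b i := by
    show ∑ i, (c i) • b i = _
    exact Finset.sum_congr rfl fun i _ => (Int.cast_smul_eq_zsmul ℚ (c i) (b i)).symm
  rw [h, b.repr_sum_self]

omit [FiniteDimensional ℚ V] in
theorem b1b_eq {n : ℕ} (b : Module.Basis (Fin n) ℚ V) {x : V} {c : Fin n → ℤ}
    (h : ∀ i, b.repr x i = c i) : b1b_g b c = x := by
  apply b.repr.injective
  ext i
  rw [b1b_repr, h]

omit [FiniteDimensional ℚ V] in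
theorem b1b_mem {L : AddSubgroup V} {n : ℕ} (b : Module.Basis (Fin n) ℚ V)
    (hb : ∀ x, x ∈ L ↔ ∀ i, ∃ z : ℤ, b.repr x i = z) (c : Fin n → ℤ) : b1b_g b c ∈ L :=
  (hb _).2 fun i => ⟨c i, b1b_repr b c i⟩

omit [FiniteDimensional ℚ V] in
theorem b1b_range {L : AddSubgroup V} {n : ℕ} (b : Module.Basis (Fin n) ℚ V)
    (hb : ∀ x, x ∈ L ↔ ∀ i, ∃ z : ℤ, b.repr x i = z) : (⊤ : AddSubgroup (Fin n → ℤ)).map (b1b_g b) = L := by
  ext x
  rw [AddSubgroup.mem_map]
  constructor
  · rintro ⟨c, -, rfl⟩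
    exact b1b_mem b hb c
  · intro hx
    choose c hc using (hb x).1 hx
    exact ⟨c, AddSubgroup.mem_top _, b1b_eq b hc⟩

omit [FiniteDimensional ℚ V] in
theorem b1b_basis_mem {L : AddSubgroup V} {n : ℕ} (b : Module.Basis (Fin n) ℚ V)
    (hb : ∀ x, x ∈ L ↔ ∀ i, ∃ z : ℤ, b.repr x i = z) (j : Fin n) : b j ∈ L := by
  rw [hb]
  intro i
  rw [b.repr_self]
  by_cases h : j = i
  · subst h
    exact ⟨1, by simp⟩
  · exact ⟨0, by simp [h]⟩

omit [FiniteDimensional ℚ V] in
theorem b1b_index {L : AddSubgroup V} {n : ℕ} (b : Module.Basis (Fin n) ℚ V)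
    (hb : ∀ x, x ∈ L ↔ ∀ i, ∃ z : ℤ, b.repr x i = z) (p : ℕ) (hp : 0 < p) :
    (mulL p L).relIndex L = p ^ n := by
  have hp0 : (p : ℤ) ≠ 0 := by exact_mod_cast hp.ne'
  have : NeZero p := ⟨hp.ne'⟩
  let r : (Fin n → ℤ) →+ (Fin n → ZMod p) :=
    { toFun := fun c i => (c i : ZMod p)
      map_zero' := by ext i; simp
      map_add' := fun c c' => by ext i; simp }
  have h1 : (mulL p L).comap (b1b_g b) = r.ker := by
    ext c
    rw [AddSubgroup.mem_comap, AddMonoidHom.mem_ker]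
    constructor
    · rintro ⟨y, hy, hc⟩
      ext i
      show ((c i : ℤ) : ZMod p) = 0
      obtain ⟨z, hz⟩ := (hb y).1 hy i
      have h2 := congrArg (fun x => b.repr x i) hc
      beta_reduce at h2
      rw [b1b_repr, map_zsmul, Finsupp.smul_apply, hz, zsmul_eq_mul] at h2
      have h3 : c i = p * z := by exact_mod_cast h2
      rw [h3]
      simp
    · intro h
      have h2 : ∀ i, ∃ z : ℤ, c i = p * z := by
        intro i
        have h3 := congrFun h i
        exact (ZMod.intCast_zmod_eq_zero_iff_dvd (c i) p).1 h3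
      choose z hz using h2
      refine ⟨b1b_g b z, b1b_mem b hb z, ?_⟩
      rw [← map_zsmul]
      congr 1
      ext i
      rw [hz]
      simp
  have h2 : (mulL p L).relIndex L = ((mulL p L).comap (b1b_g b)).relIndex ⊤ := by
    rw [AddSubgroup.relIndex_comap, b1b_range b hb]
  rw [h2, AddSubgroup.relIndex_top_right, h1, AddSubgroup.index_ker]
  have h3 : r.range = ⊤ := by
    rw [AddMonoidHom.range_eq_top]
    intro w
    refine ⟨fun i => ((w i).val : ℤ), ?_⟩
    ext i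
    show (((w i).val : ℤ) : ZMod p) = w i
    simp
  rw [h3]
  have h4 : Nat.card (⊤ : AddSubgroup (Fin n → ZMod p)) = Nat.card (Fin n → ZMod p) :=
    Nat.card_congr AddSubgroup.topEquiv.toEquiv
  rw [h4, Nat.card_pi]
  simp

/-- `[L : pL] = p^n` -/
theorem relIndex_mulL {L : AddSubgroup V} (hL : IsLat L) (p : ℕ) (hp : 0 < p) :
    (mulL p L).relIndex L = p ^ Module.finrank ℚ V := by
  obtain ⟨b, hb⟩ := hL
  exact b1b_index b hb p hp

/-- `mulL p L` is a lattice -/
theorem mulL_isLat {L : AddSubgroup V} (hL : IsLat L) (p : ℕ) (hp : 0 < p) :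
    IsLat (mulL p L) := by
  refine isLat_of_comm hL p hp (fun x hx => ⟨x, hx, rfl⟩) ?_
  rintro x ⟨y, hy, rfl⟩
  exact L.zsmul_mem (L.zsmul_mem hy _) _

/-- the intersection of a lattice with a line is cyclic, generated by a primitive vector.
Proof: the set of `t : ℚ` with `t • y ∈ L` is a finitely generated nonzero subgroup of `ℚ` (it is
contained in `(1/N) ℤ` by looking at a nonzero coordinate of `y`), so it is cyclic,
`= q₀ ℤ`, `q₀ ≠ 0`; take `y₀ = q₀ • y`. -/
theorem exists_prim {L : AddSubgroup V} (hL : IsLat L) {y : V} (hy : y ≠ 0) :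
    ∃ y₀ ∈ L, y₀ ≠ 0 ∧ (∃ q : ℚ, y = q • y₀) ∧ ∀ t : ℚ, t • y₀ ∈ L → ∃ z : ℤ, t = z := by
  have hL' := hL
  obtain ⟨b, hb⟩ := hL
  have hj : ∃ j, b.repr y j ≠ 0 := by
    by_contra h
    push Not at h
    apply hy
    apply b.repr.injective
    ext j
    rw [h j]
    simp
  obtain ⟨j, hj⟩ := hj
  set c := b.repr y j with hc
  let A : AddSubgroup ℤ :=
    { carrier := {k | ((k : ℚ) / c) • y ∈ L}
      zero_mem' := by simp
      add_mem' := by
        intro k l hk hl
        show (((k + l : ℤ) : ℚ) / c) • y ∈ L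
        rw [Int.cast_add, add_div, add_smul]
        exact L.add_mem hk hl
      neg_mem' := by
        intro k hk
        show (((-k : ℤ) : ℚ) / c) • y ∈ L
        rw [Int.cast_neg, neg_div, neg_smul]
        exact L.neg_mem hk }
  have hA : ∀ k : ℤ, k ∈ A ↔ ((k : ℚ) / c) • y ∈ L := fun k => Iff.rfl
  obtain ⟨a, ha⟩ := Int.subgroup_cyclic A
  have hmem : ∀ t : ℚ, t • y ∈ L → ∃ k ∈ A, t = (k : ℚ) / c := by
    intro t ht
    obtain ⟨z, hz⟩ := (hb _).1 ht j
    rw [map_smul, Finsupp.smul_apply, smul_eq_mul] at hz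
    have h1 : t = (z : ℚ) / c := by
      rw [eq_div_iff hj]
      exact hz
    refine ⟨z, ?_, h1⟩
    rw [hA, ← h1]
    exact ht
  have haA : a ∈ A := by
    rw [ha]
    exact AddSubgroup.mem_closure_singleton_self a
  have ha0 : a ≠ 0 := by
    rintro rfl
    obtain ⟨D, hD, hDy⟩ := exists_smul_mem hL' y
    obtain ⟨k, hk, hk'⟩ := hmem (D : ℚ) (by
      have : (D : ℚ) • y = (D : ℤ) • y := by
        rw [← Int.cast_smul_eq_zsmul ℚ]
        norm_num
      rw [this]
      exact hDy)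
    rw [ha, AddSubgroup.mem_closure_singleton] at hk
    obtain ⟨m, hm⟩ := hk
    rw [smul_zero] at hm
    rw [← hm] at hk'
    simp at hk'
    omega
  have haq : (a : ℚ) ≠ 0 := by exact_mod_cast ha0
  refine ⟨((a : ℚ) / c) • y, haA, ?_, ⟨c / a, ?_⟩, ?_⟩
  · exact smul_ne_zero (div_ne_zero haq hj) hy
  · rw [smul_smul]
    have : c / a * (a / c) = 1 := by field_simp
    rw [this, one_smul]
  · intro t ht
    rw [smul_smul] at ht
    obtain ⟨k, hk, hk'⟩ := hmem _ ht
    rw [ha, AddSubgroup.mem_closure_singleton] at hk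
    obtain ⟨m, hm⟩ := hk
    refine ⟨m, ?_⟩
    rw [← hm] at hk'
    have h1 : t * a = m * a := by
      have h2 : t * ((a : ℚ) / c) * c = ((m • a : ℤ) : ℚ) / c * c := by rw [hk']
      rw [div_mul_cancel₀ _ hj] at h2
      rw [← mul_div_assoc, div_mul_cancel₀ _ hj] at h2
      rw [h2]
      simp
    exact mul_right_cancel₀ haq h1

/-- every additive functional `L → ℤ` is given by an element of the dual lattice -/
theorem exists_rep {B : LinearMap.BilinForm ℚ V} (hB : Nice B) {L : AddSubgroup V}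
    (hL : IsLat L) (f : L →+ ℤ) : ∃ y ∈ dualL B L, ∀ x : L, B y x = f x := by
  obtain ⟨b, hb⟩ := hL
  let φ : V →ₗ[ℚ] ℚ := b.constr ℚ (fun i => ((f ⟨b i, b1b_basis_mem b hb i⟩ : ℤ) : ℚ))
  have hinj : Function.Injective (B : V →ₗ[ℚ] (V →ₗ[ℚ] ℚ)) := by
    rw [← LinearMap.ker_eq_bot, LinearMap.ker_eq_bot']
    intro x hx
    apply hB.nondeg
    intro y
    rw [hx]
    rfl
  have hsurj : Function.Surjective (B : V →ₗ[ℚ] (V →ₗ[ℚ] ℚ)) := by
    rw [← LinearMap.injective_iff_surjective_of_finrank_eq_finrank]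
    · exact hinj
    · exact (Subspace.dual_finrank_eq (K := ℚ) (V := V)).symm
  obtain ⟨y, hy⟩ := hsurj φ
  have key : ∀ x : L, B y x = f x := by
    intro x
    rw [hy]
    choose c hc using (hb x).1 x.2
    have h1 : (x : V) = b1b_g b c := (b1b_eq b hc).symm
    have h2 : x = ∑ i, (c i) • (⟨b i, b1b_basis_mem b hb i⟩ : L) := by
      apply Subtype.ext
      rw [h1]
      simp [b1b_g]
    have h3 : f x = ∑ i, (c i) * f ⟨b i, b1b_basis_mem b hb i⟩ := by
      conv_lhs => rw [h2]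
      rw [map_sum]
      refine Finset.sum_congr rfl fun i _ => ?_
      rw [map_zsmul, smul_eq_mul]
    rw [h3, h1]
    show φ (∑ i, (c i) • b i) = _
    rw [map_sum, Int.cast_sum]
    refine Finset.sum_congr rfl fun i _ => ?_
    rw [map_zsmul, Int.cast_mul, zsmul_eq_mul]
    congr 1
    exact b.constr_basis ℚ _ i
  refine ⟨y, ?_, key⟩
  intro x hx
  exact ⟨f ⟨x, hx⟩, key ⟨x, hx⟩⟩

/-- if all products of `y` with `L` are divisible by `d` then `y ∈ d L^#`, i.e. `y/d ∈ L^#` -/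
theorem dual_of_dvd {B : LinearMap.BilinForm ℚ V} {L : AddSubgroup V} {d : ℕ} (hd : 0 < d)
    {y : V} (h : ∀ x ∈ L, ∃ z : ℤ, B y x = d * z) : (1 / (d : ℚ)) • y ∈ dualL B L := by
  intro x hx
  obtain ⟨z, hz⟩ := h x hx
  have hd' : (d : ℚ) ≠ 0 := by exact_mod_cast hd.ne'
  refine ⟨z, ?_⟩
  rw [map_smul, LinearMap.smul_apply, hz, smul_eq_mul]
  field_simp

/-- for an integral lattice, `L ≤ L^#` -/
theorem le_dual {B : LinearMap.BilinForm ℚ V} {L : AddSubgroup V} (h : Integ B L) :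
    L ≤ dualL B L := by
  intro x hx y hy
  exact h x hx y hy

/-- scaling of the form: `dualL (c • B) L = {x | c x ∈ dualL B L}` -/
theorem mem_dual_smul {B : LinearMap.BilinForm ℚ V} {L : AddSubgroup V} (c : ℚ) (x : V) :
    x ∈ dualL (c • B) L ↔ c • x ∈ dualL B L := by
  have h1 : ∀ y, (c • B) x y = B (c • x) y := by
    intro y
    rw [map_smul]
    rfl
  constructor
  · intro h y hy
    obtain ⟨z, hz⟩ := h y hy
    exact ⟨z, by rw [← h1, hz]⟩
  · intro h y hy
    obtain ⟨z, hz⟩ := h y hy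
    exact ⟨z, by rw [h1, hz]⟩

/-- `Nice` is preserved by nonzero scaling -/
theorem nice_smul {B : LinearMap.BilinForm ℚ V} (hB : Nice B) {c : ℚ} (hc : c ≠ 0) :
    Nice (c • B) := by
  constructor
  · intro x y
    show c • B x y = c • B y x
    rw [hB.symm x y]
  · intro x hx
    apply hB.nondeg
    intro y
    have h1 : c * B x y = 0 := hx y
    rcases mul_eq_zero.1 h1 with h2 | h2
    · exact absurd h2 hc
    · exact h2

end RH6
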