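import Pool.Agent.RH6.ADef
import Pool.Agent.RH6.B1b

open Matrix

namespace RH6

theorem a5c_isLat_Z7 : IsLat Z7 := by
  have hn : Module.finrank ℚ (Fin 7 → ℚ) = 7 := by simp
  refine ⟨(Pi.basisFun ℚ (Fin 7)).reindex (finCongr hn.symm), fun x => ?_⟩
  constructor
  · intro hx i
    rw [Module.Basis.repr_reindex_apply]
    simpa using hx _
  · intro h i
    obtain ⟨z, hz⟩ := h (finCongr hn.symm i)
    rw [Module.Basis.repr_reindex_apply] at hz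
    refine ⟨z, ?_⟩
    simpa using hz

theorem a5c_mulVec_Z7 {M : Matrix (Fin 7) (Fin 7) ℚ} (hM : ∀ i j, ∃ z : ℤ, M i j = z)
    {x : Fin 7 → ℚ} (hx : x ∈ Z7) : M *ᵥ x ∈ Z7 := by
  choose M' hM' using hM
  choose x' hx' using hx
  intro i
  refine ⟨∑ j, M' i j * x' j, ?_⟩
  rw [Int.cast_sum]
  show ∑ j, M i j * x j = _
  refine Finset.sum_congr rfl fun j _ => ?_
  rw [hM', hx', Int.cast_mul]

theorem a5c_den (M : Matrix (Fin 7) (Fin 7) ℚ) :
    ∃ D : ℕ, 0 < D ∧ ∀ i j, ∃ z : ℤ, (D : ℚ) * M i j = z := by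
  refine ⟨∏ i, ∏ j, (M i j).den, Finset.prod_pos fun i _ => Finset.prod_pos fun j _ => (M i j).den_pos,
    fun i j => ?_⟩
  have h1 : (M i j).den ∣ ∏ i, ∏ j, (M i j).den :=
    (Finset.dvd_prod_of_mem (fun j => (M i j).den) (Finset.mem_univ j)).trans
      (Finset.dvd_prod_of_mem (fun i => ∏ j, (M i j).den) (Finset.mem_univ i))
  obtain ⟨k, hk⟩ := h1
  refine ⟨k * (M i j).num, ?_⟩
  rw [hk, Nat.cast_mul, Int.cast_mul, Int.cast_natCast]
  have h2 : ((M i j).den : ℚ) * M i j = (M i j).num := Rat.den_mul_eq_num (M i j)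
  linear_combination (k : ℚ) * h2

theorem a5c_smul {D : ℕ} {M : Matrix (Fin 7) (Fin 7) ℚ} (h : ∀ i j, ∃ z : ℤ, (D : ℚ) * M i j = z)
    {x : Fin 7 → ℚ} (hx : x ∈ Z7) : (D : ℤ) • (M *ᵥ x) ∈ Z7 := by
  have h1 : (D : ℤ) • (M *ᵥ x) = ((D : ℚ) • M) *ᵥ x := by
    rw [Matrix.smul_mulVec, ← Int.cast_smul_eq_zsmul ℚ]
    simp
  rw [h1]
  exact a5c_mulVec_Z7 (fun i j => h i j) hx

theorem a5c_iotaQ_inj : Function.Injective iotaQ := by
  intro a b hab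
  apply Units.ext
  ext i j
  have h1 := congrArg (fun g : GL (Fin 7) ℝ => g.1 i j) hab
  exact (algebraMap ℚ ℝ).injective h1

theorem a5c_iota (h : GL (Fin 7) ℤ) : iota h = iotaQ (iotaZQ h) := by
  apply Units.ext
  ext i j
  show ((h.1 i j : ℤ) : ℝ) = algebraMap ℚ ℝ ((h.1 i j : ℤ) : ℚ)
  simp

/-- `q ↦ P q P⁻¹` -/
noncomputable def a5c_th (P : GL (Fin 7) ℝ) : GL (Fin 7) ℚ →* GL (Fin 7) ℝ :=
  (MulAut.conj P).toMonoidHom.comp iotaQ

theorem a5c_th_apply (P : GL (Fin 7) ℝ) (q : GL (Fin 7) ℚ) : a5c_th P q = P * iotaQ q * P⁻¹ := rfl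

theorem a5c_th_eq {P γ : GL (Fin 7) ℝ} {q : GL (Fin 7) ℚ} : a5c_th P q = γ ↔ γ * P = P * iotaQ q := by
  rw [a5c_th_apply]
  constructor
  · intro h
    rw [← h]
    group
  · intro h
    rw [← h]
    group

theorem a5c_K {P : GL (Fin 7) ℝ} {q : GL (Fin 7) ℚ} (h : a5c_th P q ∈ latGroup P) {x : Fin 7 → ℚ}
    (hx : x ∈ Z7) : q.1 *ᵥ x ∈ Z7 := by
  obtain ⟨-, k, hk⟩ := h
  rw [a5c_th_apply] at hk
  have h1 : iotaQ q = iotaQ (iotaZQ k) := by
    rw [← a5c_iota]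
    apply mul_left_cancel (a := P)
    rw [← hk]
    group
  have h2 := a5c_iotaQ_inj h1
  rw [h2]
  refine a5c_mulVec_Z7 (fun i j => ⟨k.1 i j, rfl⟩) hx

/-- Row [RH-A5c]: `Γ` preserves a lattice.
Proof: let `H = {q ∈ GL₇(ℚ) : ∃ γ ∈ Γ, γ P = P q}`, a group; the subgroup of the `q` coming from
`γ ∈ Γ ∩ latGroup P` is contained in `GL₇(ℤ)` and has finite index in `H`; let `q_1,…,q_r` be
representatives of the left cosets and `D > 0` with `D q_i` integral for all `i`.  Let `L` be the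
subgroup of `ℚ^7` generated by all `q z`, `q ∈ H`, `z ∈ ℤ^7`.  Every `q z` is `q_i z'`, so
`D L ≤ ℤ^7`; `ℤ^7 ≤ L`.  So `L` is a lattice (`isLat_of_comm`), and `q L = L` for `q ∈ H`. -/
theorem exists_inv_lattice {P : GL (Fin 7) ℝ} {Γ : Subgroup (GL (Fin 7) ℝ)}
    (hc : Γ.Commensurable (latGroup P))
    (hrat : ∀ γ ∈ Γ, ∃ q : GL (Fin 7) ℚ, γ * P = P * iotaQ q) :
    ∃ L : AddSubgroup (Fin 7 → ℚ), IsLat L ∧
      ∀ γ ∈ Γ, ∀ q : GL (Fin 7) ℚ, γ * P = P * iotaQ q → ∀ x, x ∈ L ↔ q.1 *ᵥ x ∈ L := by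
  classical
  let H : Subgroup (GL (Fin 7) ℚ) := Γ.comap (a5c_th P)
  let K : Subgroup (GL (Fin 7) ℚ) := (latGroup P).comap (a5c_th P)
  have hKH : K.relIndex H ≠ 0 := by
    show ((latGroup P).comap (a5c_th P)).relIndex H ≠ 0
    rw [Subgroup.relIndex_comap]
    intro h0
    exact hc.2 (Subgroup.relIndex_eq_zero_of_le_right (Subgroup.map_comap_le _ _) h0)
  haveI : (K.subgroupOf H).FiniteIndex := ⟨hKH⟩
  haveI : Finite (H ⧸ K.subgroupOf H) := Subgroup.finite_quotient_of_finiteIndex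
  haveI : Fintype (H ⧸ K.subgroupOf H) := Fintype.ofFinite _
  choose Dc hDc using fun c : H ⧸ K.subgroupOf H => a5c_den ((c.out : H) : GL (Fin 7) ℚ).1
  let D : ℕ := ∏ c, Dc c
  have hD : 0 < D := Finset.prod_pos fun c _ => (hDc c).1
  have key : ∀ q ∈ H, ∀ z ∈ Z7, (D : ℤ) • (q.1 *ᵥ z) ∈ Z7 := by
    intro q hq z hz
    set c : H ⧸ K.subgroupOf H := QuotientGroup.mk ⟨q, hq⟩ with hcdef
    have h1 : (c.out)⁻¹ * ⟨q, hq⟩ ∈ K.subgroupOf H := by
      rw [← QuotientGroup.eq, hcdef]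
      exact Quotient.out_eq _
    rw [Subgroup.mem_subgroupOf] at h1
    have h2 : q = ((c.out : H) : GL (Fin 7) ℚ) * (((c.out)⁻¹ * ⟨q, hq⟩ : H) : GL (Fin 7) ℚ) := by
      rw [Subgroup.coe_mul, Subgroup.coe_inv]
      group
    have h3 : q.1 *ᵥ z = ((c.out : H) : GL (Fin 7) ℚ).1 *ᵥ
        ((((c.out)⁻¹ * ⟨q, hq⟩ : H) : GL (Fin 7) ℚ).1 *ᵥ z) := by
      rw [Matrix.mulVec_mulVec, ← Units.val_mul, ← h2]
    rw [h3]
    apply a5c_smul _ (a5c_K h1 hz)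
    intro i j
    obtain ⟨k, hk⟩ : Dc c ∣ D := Finset.dvd_prod_of_mem Dc (Finset.mem_univ c)
    obtain ⟨w, hw⟩ := (hDc c).2 i j
    refine ⟨k * w, ?_⟩
    rw [hk, Nat.cast_mul, Int.cast_mul, ← hw, Int.cast_natCast]
    ring
  let L : AddSubgroup (Fin 7 → ℚ) := AddSubgroup.closure {v | ∃ q ∈ H, ∃ z ∈ Z7, v = q.1 *ᵥ z}
  have hZL : Z7 ≤ L := by
    intro z hz
    exact AddSubgroup.subset_closure ⟨1, H.one_mem, z, hz, by simp⟩
  have hLZ : ∀ x ∈ L, (D : ℤ) • x ∈ Z7 := by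
    intro x hx
    induction hx using AddSubgroup.closure_induction with
    | mem v hv =>
      obtain ⟨q, hq, z, hz, rfl⟩ := hv
      exact key q hq z hz
    | zero =>
      rw [smul_zero]
      exact Z7.zero_mem
    | add a b _ _ ha hb =>
      rw [smul_add]
      exact Z7.add_mem ha hb
    | neg a _ ha =>
      rw [smul_neg]
      exact Z7.neg_mem ha
  have hinv : ∀ q ∈ H, ∀ x ∈ L, q.1 *ᵥ x ∈ L := by
    intro q hq x hx
    induction hx using AddSubgroup.closure_induction with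
    | mem v hv =>
      obtain ⟨q', hq', z, hz, rfl⟩ := hv
      refine AddSubgroup.subset_closure ⟨q * q', H.mul_mem hq hq', z, hz, ?_⟩
      rw [Matrix.mulVec_mulVec, ← Units.val_mul]
    | zero =>
      rw [Matrix.mulVec_zero]
      exact L.zero_mem
    | add a b _ _ ha hb =>
      rw [Matrix.mulVec_add]
      exact L.add_mem ha hb
    | neg a _ ha =>
      rw [Matrix.mulVec_neg]
      exact L.neg_mem ha
  refine ⟨L, isLat_of_comm a5c_isLat_Z7 D hD (fun x hx => hZL (Z7.zsmul_mem hx _)) hLZ, ?_⟩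
  intro γ hγ q hq x
  have hqH : q ∈ H := by
    show a5c_th P q ∈ Γ
    rw [a5c_th_eq.2 hq]
    exact hγ
  constructor
  · exact hinv q hqH x
  · intro h
    have h1 := hinv q⁻¹ (H.inv_mem hqH) _ h
    rwa [Matrix.mulVec_mulVec, ← Units.val_mul, inv_mul_cancel, Units.val_one, Matrix.one_mulVec] at h1

end RH6
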