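import Pool.Agent.RH6.B4

namespace RH6

variable {V : Type*} [AddCommGroup V] [Module ℚ V] [FiniteDimensional ℚ V]

/-- the enlargement of a lattice that is not elementary at `p` -/
def b4b_M (B : LinearMap.BilinForm ℚ V) (L : AddSubgroup V) (p : ℕ) : AddSubgroup V :=
  L ⊔ (L.comap (zsmulAddGroupHom (p : ℤ)) ⊓ mulL p (dualL B L))

omit [FiniteDimensional ℚ V] in
theorem b4b_mem {B : LinearMap.BilinForm ℚ V} {L : AddSubgroup V} {p : ℕ} {x : V} :
    x ∈ b4b_M B L p ↔ ∃ l ∈ L, ∃ y : V, ((p : ℤ) • y ∈ L ∧ ∃ z ∈ dualL B L, y = (p : ℤ) • z) ∧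
      l + y = x := by
  unfold b4b_M
  rw [AddSubgroup.mem_sup]
  rfl

omit [FiniteDimensional ℚ V] in
theorem b4b_integ {B : LinearMap.BilinForm ℚ V} (hB : Nice B) {L : AddSubgroup V}
    (h : Integ B L) (p : ℕ) : Integ B (b4b_M B L p) := by
  have hd : ∀ z ∈ dualL B L, ∀ l ∈ L, ∃ n : ℤ, B z l = n := fun z hz l hl => hz l hl
  intro x hx x' hx'
  obtain ⟨l, hl, y, ⟨hy, z, hz, hyz⟩, rfl⟩ := b4b_mem.1 hx
  obtain ⟨l', hl', y', ⟨hy', z', hz', hyz'⟩, rfl⟩ := b4b_mem.1 hx'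
  obtain ⟨n1, h1⟩ := h l hl l' hl'
  obtain ⟨n2, h2⟩ := hd z hz l' hl'
  obtain ⟨n3, h3⟩ := hd z' hz' l hl
  obtain ⟨n4, h4⟩ := hd z' hz' _ hy
  have e2 : B y l' = p * n2 := by
    rw [hyz, map_zsmul, LinearMap.smul_apply, h2, zsmul_eq_mul]
    push_cast
    ring
  have e3 : B l y' = p * n3 := by
    rw [hB.symm, hyz', map_zsmul, LinearMap.smul_apply, h3, zsmul_eq_mul]
    push_cast
    ring
  have e4 : B y y' = n4 := by
    rw [hB.symm, ← h4, hyz', map_zsmul, map_zsmul, LinearMap.smul_apply]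
  refine ⟨n1 + p * n2 + p * n3 + n4, ?_⟩
  rw [map_add, map_add, LinearMap.add_apply, LinearMap.add_apply, h1, e2, e3, e4]
  push_cast
  ring

omit [FiniteDimensional ℚ V] in
theorem b4b_le {B : LinearMap.BilinForm ℚ V} {L : AddSubgroup V} {p : ℕ} : L ≤ b4b_M B L p :=
  le_sup_left

theorem b4b_isLat {B : LinearMap.BilinForm ℚ V} {L : AddSubgroup V} (hL : IsLat L) {p : ℕ}
    (hp : 0 < p) : IsLat (b4b_M B L p) := by
  refine isLat_of_comm hL p hp (fun x hx => b4b_le (L.zsmul_mem hx _)) fun x hx => ?_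
  obtain ⟨l, hl, y, ⟨hy, -⟩, rfl⟩ := b4b_mem.1 hx
  rw [smul_add]
  exact L.add_mem (L.zsmul_mem hl _) hy

theorem b4b_pres {B : LinearMap.BilinForm ℚ V} {L : AddSubgroup V} {g : V ≃ₗ[ℚ] V}
    (hg : Iso B g) (hL : Pres g L) (p : ℕ) : Pres g (b4b_M B L p) := by
  have hd := pres_dual hg hL
  intro x
  rw [b4b_mem, b4b_mem]
  constructor
  · rintro ⟨l, hl, y, ⟨hy, z, hz, hyz⟩, rfl⟩
    refine ⟨g l, (hL l).1 hl, g y, ⟨?_, g z, (hd z).1 hz, ?_⟩, (map_add g l y).symm⟩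
    · rw [← map_zsmul]
      exact (hL _).1 hy
    · rw [hyz, map_zsmul]
  · rintro ⟨l, hl, y, ⟨hy, z, hz, hyz⟩, hx⟩
    refine ⟨g.symm l, ?_, g.symm y, ⟨?_, g.symm z, ?_, ?_⟩, ?_⟩
    · rw [hL, LinearEquiv.apply_symm_apply]
      exact hl
    · rw [hL, map_zsmul, LinearEquiv.apply_symm_apply]
      exact hy
    · rw [hd, LinearEquiv.apply_symm_apply]
      exact hz
    · rw [hyz, map_zsmul]
    · rw [← map_add, hx, LinearEquiv.symm_apply_apply]

/-- Row [RH-B4b]: an integral lattice of minimal discriminant (among the lattices invariant under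
`H`) is elementary.
Proof.  Suppose `x ∈ L^#`, `p² x ∈ L`, `p x ∉ L`.  Let `M = L + {y : p y ∈ L, y ∈ p L^#}`
(i.e. `L + (p⁻¹L ∩ pL^#)`).  It contains `p x`, so `M ≠ L`.  It is integral: for `y, y'` with
`p y ∈ L`, `y' = p z'`, `z' ∈ L^#`: `(y,y') = (p y, z') ∈ ℤ`; and `(y,l) ∈ ℤ` for `l ∈ L` as
`y ∈ pL^# ≤ L^#`.  It is a lattice (`isLat_of_comm`), preserved by every isometry preserving `L`.
`L < M ≤ M^# ≤ L^#`, so `[M^#:M] < [L^#:L]` (all indices finite), contradiction. -/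
theorem elem_of_min {B : LinearMap.BilinForm ℚ V} (hB : Nice B) {L : AddSubgroup V}
    (hL : IsLat L) (h : Integ B L) (H : Set (V ≃ₗ[ℚ] V)) (hH : ∀ g ∈ H, Iso B g ∧ Pres g L)
    (hmin : ∀ M : AddSubgroup V, IsLat M → Integ B M → (∀ g ∈ H, Pres g M) →
      L.relIndex (dualL B L) ≤ M.relIndex (dualL B M)) (p : ℕ) (hp : p.Prime) :
    Elem B L p := by
  intro x hx hx2
  by_contra hxL
  have hp0 : 0 < p := hp.pos
  have hM := b4b_isLat (B := B) hL hp0
  have hMi := b4b_integ hB h p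
  have hMH : ∀ g ∈ H, Pres g (b4b_M B L p) := fun g hg => b4b_pres (hH g hg).1 (hH g hg).2 p
  have hmem : (p : ℤ) • x ∈ b4b_M B L p := by
    rw [b4b_mem]
    refine ⟨0, L.zero_mem, (p : ℤ) • x, ⟨?_, x, hx, rfl⟩, zero_add _⟩
    rw [smul_smul, ← sq]
    exact hx2
  have hle := hmin _ hM hMi hMH
  have hLd := dual_isLat hB hL
  have hMd := dual_isLat hB hM
  have k1 : L ≤ b4b_M B L p := b4b_le
  have k2 : b4b_M B L p ≤ dualL B (b4b_M B L p) := le_dual hMi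
  have k3 : dualL B (b4b_M B L p) ≤ dualL B L := dual_anti k1
  have e1 := AddSubgroup.relIndex_mul_relIndex L (b4b_M B L p) (dualL B (b4b_M B L p)) k1 k2
  have e2 := AddSubgroup.relIndex_mul_relIndex L (dualL B (b4b_M B L p)) (dualL B L)
    (k1.trans k2) k3
  have n1 : L.relIndex (b4b_M B L p) ≠ 0 := relIndex_ne hL hM
  have n2 : L.relIndex (b4b_M B L p) ≠ 1 := fun h1 =>
    hxL (AddSubgroup.relIndex_eq_one.1 h1 hmem)
  have n3 : (b4b_M B L p).relIndex (dualL B (b4b_M B L p)) ≠ 0 := relIndex_ne hM hMd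
  have n4 : (dualL B (b4b_M B L p)).relIndex (dualL B L) ≠ 0 := relIndex_ne hMd hLd
  rw [← e2, ← e1] at hle
  generalize L.relIndex (b4b_M B L p) = a at *
  generalize (b4b_M B L p).relIndex (dualL B (b4b_M B L p)) = b at *
  generalize (dualL B (b4b_M B L p)).relIndex (dualL B L) = d at *
  have ha : 2 ≤ a := by omega
  have hd : 1 ≤ d := by omega
  have hb : 1 ≤ b := by omega
  have : 2 * b ≤ a * b * d := by
    calc 2 * b = 2 * b * 1 := by ring
      _ ≤ a * b * d := Nat.mul_le_mul (Nat.mul_le_mul_right b ha) hd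
  omega

/-- Row [RH-B4b]: normal form.
Proof: after scaling `B` by a positive integer, `B` is integral on `L₀` (entries of the Gram
matrix have a common denominator).  Among all invariant lattices on which this (fixed) scaled form
`B' = c₀ • B` is integral choose `L` with minimal `[L^# : L]` (a positive integer by
`relIndex_ne`).  Then `elem_of_min`, `exists_even`. -/
theorem normal_form {B : LinearMap.BilinForm ℚ V} (hB : Nice B) (hn : Odd (Module.finrank ℚ V))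
    {L₀ : AddSubgroup V} (hL₀ : IsLat L₀) (H : Set (V ≃ₗ[ℚ] V))
    (hH : ∀ g ∈ H, Iso B g ∧ Pres g L₀) :
    ∃ (c : ℚ) (L : AddSubgroup V), 0 < c ∧ IsLat L ∧ EvenL (c • B) L ∧
      (∀ p : ℕ, p.Prime → Elem (c • B) L p) ∧ ∀ g ∈ H, Pres g L := by
  obtain ⟨D, hD, hD'⟩ := isLat_common (dual_isLat hB hL₀) hL₀
  have hDQ : (D : ℚ) ≠ 0 := by exact_mod_cast hD.ne'
  have hB' : Nice ((D : ℚ) • B) := nice_smul hB hDQ
  have hI : Integ ((D : ℚ) • B) L₀ := by
    intro x hx y hy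
    obtain ⟨z, hz⟩ := hD' x hx y hy
    refine ⟨z, ?_⟩
    rw [← hz, map_zsmul, LinearMap.smul_apply, LinearMap.smul_apply, LinearMap.smul_apply,
      zsmul_eq_mul, smul_eq_mul]
    push_cast
    rfl
  have hIso : ∀ g ∈ H, Iso ((D : ℚ) • B) g := by
    intro g hg x y
    rw [LinearMap.smul_apply, LinearMap.smul_apply, LinearMap.smul_apply, LinearMap.smul_apply,
      (hH g hg).1]
  let P : ℕ → Prop := fun n => ∃ L : AddSubgroup V, IsLat L ∧ Integ ((D : ℚ) • B) L ∧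
    (∀ g ∈ H, Pres g L) ∧ L.relIndex (dualL ((D : ℚ) • B) L) = n
  have hP : ∃ n, P n := ⟨_, L₀, hL₀, hI, fun g hg => (hH g hg).2, rfl⟩
  classical
  obtain ⟨L, hL, hLi, hLH, hLn⟩ := Nat.find_spec hP
  have hmin : ∀ M : AddSubgroup V, IsLat M → Integ ((D : ℚ) • B) M → (∀ g ∈ H, Pres g M) →
      L.relIndex (dualL ((D : ℚ) • B) L) ≤ M.relIndex (dualL ((D : ℚ) • B) M) := by
    intro M hM hMi hMH
    rw [hLn]
    exact Nat.find_min' hP ⟨M, hM, hMi, hMH, rfl⟩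
  have hE : ∀ p : ℕ, p.Prime → Elem ((D : ℚ) • B) L p := fun p hp =>
    elem_of_min hB' hL hLi H (fun g hg => ⟨hIso g hg, hLH g hg⟩) hmin p hp
  obtain ⟨c, M, hc, hM, hMe, hME, hMg⟩ := exists_even hB' hL hn hLi hE
  have hDQ' : (0 : ℚ) < D := by exact_mod_cast hD
  have e : c • ((D : ℚ) • B) = (c * (D : ℚ)) • B := smul_smul c (D : ℚ) B
  rw [e] at hMe
  simp only [e] at hME
  exact ⟨c * D, M, mul_pos hc hDQ', hM, hMe, hME, fun g hg => hMg g (hIso g hg) (hLH g hg)⟩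

end RH6
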