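import Pool.Agent.RH6.A5
import Pool.Agent.RH6.A5b
import Pool.Agent.RH6.A5c
import Pool.Agent.RH6.B4b

open Matrix

namespace RH6

theorem a6_cast_inj {A B : Matrix (Fin 7) (Fin 7) ℚ}
    (h : A.map (fun q : ℚ => (q : ℝ)) = B.map (fun q : ℚ => (q : ℝ))) : A = B := by
  ext i j
  have := congrFun (congrFun h i) j
  simp only [Matrix.map_apply] at this
  exact_mod_cast this

theorem a6_cast_mul (A B : Matrix (Fin 7) (Fin 7) ℚ) :
    (A * B).map (fun q : ℚ => (q : ℝ)) =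
      A.map (fun q : ℚ => (q : ℝ)) * B.map (fun q : ℚ => (q : ℝ)) := by
  ext i j
  simp only [Matrix.map_apply, Matrix.mul_apply, Rat.cast_sum, Rat.cast_mul]

theorem a6_cast_transpose (A : Matrix (Fin 7) (Fin 7) ℚ) :
    (Aᵀ).map (fun q : ℚ => (q : ℝ)) = (A.map (fun q : ℚ => (q : ℝ)))ᵀ := rfl

theorem a6_cast_det (A : Matrix (Fin 7) (Fin 7) ℚ) :
    (A.map (fun q : ℚ => (q : ℝ))).det = (A.det : ℝ) := by
  have := RingHom.map_det (algebraMap ℚ ℝ) A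
  rw [eq_ratCast] at this
  rw [this]
  congr 1

theorem a6_mQ_inj {A B : Matrix (Fin 7) (Fin 7) ℤ} (h : mQ A = mQ B) : A = B := by
  ext i j
  have := congrFun (congrFun h i) j
  simp only [mQ, Matrix.map_apply] at this
  exact_mod_cast this

theorem a6_mQ_mul (A B : Matrix (Fin 7) (Fin 7) ℤ) : mQ (A * B) = mQ A * mQ B := by
  ext i j
  simp only [mQ, Matrix.map_apply, Matrix.mul_apply, Int.cast_sum, Int.cast_mul]

theorem a6_mQ_one : mQ 1 = 1 := by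
  ext i j
  by_cases h : i = j
  · subst h; simp [mQ]
  · simp [mQ, Matrix.one_apply_ne h]

theorem a6_J0_transpose : J0ᵀ = J0 := by
  simp [J0]

theorem a6_J0_det : J0.det ≠ 0 := by
  simp [J0, Matrix.det_diagonal, Fin.prod_univ_succ]

theorem a6_iotaQ_val (q : GL (Fin 7) ℚ) : (iotaQ q).1 = q.1.map (fun q : ℚ => (q : ℝ)) := by
  ext i j
  simp [iotaQ]

theorem a6_symm {P : GL (Fin 7) ℝ} {S : Matrix (Fin 7) (Fin 7) ℚ}
    (hP : P.1ᵀ * J0 * P.1 = S.map (fun q : ℚ => (q : ℝ))) : Sᵀ = S := by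
  apply a6_cast_inj
  rw [a6_cast_transpose, ← hP, Matrix.transpose_mul, Matrix.transpose_mul, a6_J0_transpose,
    Matrix.transpose_transpose, Matrix.mul_assoc]

theorem a6_det {P : GL (Fin 7) ℝ} {S : Matrix (Fin 7) (Fin 7) ℚ}
    (hP : P.1ᵀ * J0 * P.1 = S.map (fun q : ℚ => (q : ℝ))) : S.det ≠ 0 := by
  have h1 : (S.map (fun q : ℚ => (q : ℝ))).det ≠ 0 := by
    rw [← hP, Matrix.det_mul, Matrix.det_mul, Matrix.det_transpose]
    have hPd : P.1.det ≠ 0 := by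
      have : IsUnit P.1.det := (Matrix.isUnit_iff_isUnit_det _).1 P.isUnit
      exact this.ne_zero
    exact mul_ne_zero (mul_ne_zero hPd a6_J0_det) hPd
  rw [a6_cast_det] at h1
  exact_mod_cast h1

theorem a6_nice {S : Matrix (Fin 7) (Fin 7) ℚ} (hS : Sᵀ = S) (hd : S.det ≠ 0) :
    Nice (Matrix.toBilin' S) := by
  refine ⟨?_, ?_⟩
  · intro x y
    rw [Matrix.toBilin'_apply', Matrix.toBilin'_apply', Matrix.dotProduct_mulVec,
      ← Matrix.mulVec_transpose, hS, dotProduct_comm]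
  · intro x hx
    have h1 : ∀ y, x ⬝ᵥ (S *ᵥ y) = 0 := by
      intro y
      rw [← Matrix.toBilin'_apply']; exact hx y
    have h2 : x ᵥ* S = 0 := by
      apply dotProduct_eq_zero
      intro w
      rw [← Matrix.dotProduct_mulVec]
      exact h1 w
    have h3 : x ᵥ* S ᵥ* S⁻¹ = 0 := by rw [h2]; simp
    rwa [Matrix.vecMul_vecMul, Matrix.mul_nonsing_inv _ (Ne.isUnit hd), Matrix.vecMul_one] at h3

/-- `q` is an isometry of `S` -/
theorem a6_iso {P : GL (Fin 7) ℝ} {S : Matrix (Fin 7) (Fin 7) ℚ}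
    (hP : P.1ᵀ * J0 * P.1 = S.map (fun q : ℚ => (q : ℝ)))
    {γ : GL (Fin 7) ℝ} (hγ : γ ∈ IsomH6) {q : GL (Fin 7) ℚ} (hq : γ * P = P * iotaQ q) :
    q.1ᵀ * S * q.1 = S := by
  have h0 : γ.1 * P.1 = P.1 * q.1.map (fun q : ℚ => (q : ℝ)) := by
    have := congrArg Units.val hq
    rw [← a6_iotaQ_val]; exact this
  apply a6_cast_inj
  rw [a6_cast_mul, a6_cast_mul, a6_cast_transpose, ← hP]
  calc (q.1.map (fun q : ℚ => (q : ℝ)))ᵀ * (P.1ᵀ * J0 * P.1) * q.1.map (fun q : ℚ => (q : ℝ))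
      = (P.1 * q.1.map (fun q : ℚ => (q : ℝ)))ᵀ * J0 * (P.1 * q.1.map (fun q : ℚ => (q : ℝ))) := by
        rw [Matrix.transpose_mul]; simp only [Matrix.mul_assoc]
    _ = (γ.1 * P.1)ᵀ * J0 * (γ.1 * P.1) := by rw [h0]
    _ = P.1ᵀ * (γ.1ᵀ * J0 * γ.1) * P.1 := by
        rw [Matrix.transpose_mul]; simp only [Matrix.mul_assoc]
    _ = P.1ᵀ * J0 * P.1 := by rw [hγ.1]

/-- the linear equivalence `x ↦ q x` -/
noncomputable def a6_equiv (q : GL (Fin 7) ℚ) : (Fin 7 → ℚ) ≃ₗ[ℚ] (Fin 7 → ℚ) :=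
  Matrix.toLin'OfInv (M := q⁻¹.1) (M' := q.1)
    (by rw [← Units.val_mul, inv_mul_cancel]; rfl)
    (by rw [← Units.val_mul, mul_inv_cancel]; rfl)

theorem a6_equiv_apply (q : GL (Fin 7) ℚ) (x : Fin 7 → ℚ) : a6_equiv q x = q.1 *ᵥ x := by
  simp [a6_equiv, Matrix.toLin'OfInv]

theorem a6_equiv_iso {S : Matrix (Fin 7) (Fin 7) ℚ} {q : GL (Fin 7) ℚ}
    (hq : q.1ᵀ * S * q.1 = S) : Iso (Matrix.toBilin' S) (a6_equiv q) := by
  intro x y
  rw [a6_equiv_apply, a6_equiv_apply, Matrix.toBilin'_apply', Matrix.toBilin'_apply']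
  conv_rhs => rw [← hq]
  rw [← Matrix.mulVec_mulVec, ← Matrix.mulVec_mulVec, Matrix.dotProduct_mulVec x,
    Matrix.vecMul_transpose]

/-- an integral basis matrix of a lattice in `ℚ^7` -/
theorem a6_basis {L : AddSubgroup (Fin 7 → ℚ)} (hL : IsLat L) :
    ∃ T : GL (Fin 7) ℚ, ∀ v : Fin 7 → ℚ, T.1 *ᵥ v ∈ L ↔ ∀ i, ∃ z : ℤ, v i = z := by
  obtain ⟨b, hb⟩ := hL
  have hn : Module.finrank ℚ (Fin 7 → ℚ) = 7 := Module.finrank_fin_fun ℚ
  let b' : Module.Basis (Fin 7) ℚ (Fin 7 → ℚ) := b.reindex (finCongr hn)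
  have hb' : ∀ x, x ∈ L ↔ ∀ i, ∃ z : ℤ, b'.repr x i = z := by
    intro x
    rw [hb]
    constructor
    · intro h i
      have := h ((finCongr hn).symm i)
      simpa [b'] using this
    · intro h i
      have := h (finCongr hn i)
      simpa [b'] using this
  let e := Pi.basisFun ℚ (Fin 7)
  refine ⟨⟨e.toMatrix b', b'.toMatrix e, e.toMatrix_mul_toMatrix_flip b',
    b'.toMatrix_mul_toMatrix_flip e⟩, ?_⟩
  intro v
  have h1 : ∀ w : Fin 7 → ℚ, b'.repr (e.toMatrix b' *ᵥ w) = w := by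
    intro w
    have h2 := Module.Basis.toMatrix_mulVec_repr b' e (b'.equivFun.symm w)
    have h3 : (b'.repr (b'.equivFun.symm w) : Fin 7 → ℚ) = w := by
      have := b'.equivFun.apply_symm_apply w
      rw [Module.Basis.equivFun_apply] at this
      exact this
    rw [h3] at h2
    have h4 : (e.repr (b'.equivFun.symm w) : Fin 7 → ℚ) = b'.equivFun.symm w := by
      ext i; simp [e]
    rw [h4] at h2
    rw [h2, h3]
  change e.toMatrix b' *ᵥ v ∈ L ↔ _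
  rw [hb', h1]

/-- a lattice elementary at all primes: a squarefree `e` with `e L^# ≤ L` -/
theorem a6_elem {V : Type*} [AddCommGroup V] [Module ℚ V] [FiniteDimensional ℚ V]
    {B : LinearMap.BilinForm ℚ V} (hB : Nice B) {L : AddSubgroup V}
    (hL : IsLat L) (hE : ∀ p : ℕ, p.Prime → Elem B L p) :
    ∃ e : ℕ, Squarefree e ∧ ∀ x ∈ dualL B L, (e : ℤ) • x ∈ L := by
  classical
  have hex : ∃ e : ℕ, 0 < e ∧ ∀ x ∈ dualL B L, (e : ℤ) • x ∈ L :=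
    isLat_common hL (dual_isLat hB hL)
  obtain ⟨h0, h1⟩ := Nat.find_spec hex
  refine ⟨Nat.find hex, ?_, h1⟩
  rw [Nat.squarefree_iff_prime_squarefree]
  rintro p hp ⟨m, hm⟩
  have hm0 : 0 < m := by
    rcases Nat.eq_zero_or_pos m with h | h
    · rw [h] at hm; omega
    · exact h
  have hlt : p * m < Nat.find hex := by
    rw [hm, mul_assoc]
    have h2 : 1 < p := hp.one_lt
    have h3 : 0 < p * m := Nat.mul_pos hp.pos hm0
    calc p * m = 1 * (p * m) := (one_mul _).symm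
      _ < p * (p * m) := Nat.mul_lt_mul_of_pos_right h2 h3
  apply Nat.find_min hex hlt
  refine ⟨Nat.mul_pos hp.pos hm0, ?_⟩
  intro x hx
  have h4 : ((m : ℤ)) • x ∈ dualL B L := (dualL B L).zsmul_mem hx _
  have h5 := hE p hp _ h4 (by
    rw [smul_smul]
    have : ((p : ℤ) ^ 2 * (m : ℤ)) = ((Nat.find hex : ℕ) : ℤ) := by
      rw [hm]; push_cast; ring
    rw [this]
    exact h1 x hx)
  rw [smul_smul] at h5
  push_cast
  exact h5

theorem a6_form (S : Matrix (Fin 7) (Fin 7) ℚ) (T : Matrix (Fin 7) (Fin 7) ℚ)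
    (v w : Fin 7 → ℚ) :
    Matrix.toBilin' S (T *ᵥ v) (T *ᵥ w) = v ⬝ᵥ ((Tᵀ * S * T) *ᵥ w) := by
  rw [Matrix.toBilin'_apply', ← Matrix.mulVec_mulVec, ← Matrix.mulVec_mulVec,
    Matrix.dotProduct_mulVec v, Matrix.vecMul_transpose]

theorem a6_single (i : Fin 7) : ∀ k, ∃ z : ℤ, (Pi.single i (1 : ℚ) : Fin 7 → ℚ) k = z := by
  intro k
  by_cases h : k = i
  · subst h; exact ⟨1, by simp⟩
  · exact ⟨0, by simp [h]⟩

theorem a6_entry (M : Matrix (Fin 7) (Fin 7) ℚ) (i j : Fin 7) :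
    (Pi.single i (1 : ℚ)) ⬝ᵥ (M *ᵥ (Pi.single j (1 : ℚ))) = M i j := by
  simp

/-- the Gram matrix in an integral basis -/
theorem a6_gram {S : Matrix (Fin 7) (Fin 7) ℚ} (hS : Sᵀ = S) (hd : S.det ≠ 0) {c : ℚ}
    (hc : 0 < c) {L : AddSubgroup (Fin 7 → ℚ)} (hL : IsLat L)
    (hev : EvenL (c • Matrix.toBilin' S) L)
    (hE : ∀ p : ℕ, p.Prime → Elem (c • Matrix.toBilin' S) L p)
    {T : GL (Fin 7) ℚ} (hT : ∀ v : Fin 7 → ℚ, T.1 *ᵥ v ∈ L ↔ ∀ i, ∃ z : ℤ, v i = z) :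
    ∃ G : Matrix (Fin 7) (Fin 7) ℤ, c • (T.1ᵀ * S * T.1) = mQ G ∧ EvenElem G := by
  have hcol : ∀ i, T.1 *ᵥ (Pi.single i (1 : ℚ)) ∈ L := fun i => (hT _).2 (a6_single i)
  have hBform : ∀ v w, (c • Matrix.toBilin' S) (T.1 *ᵥ v) (T.1 *ᵥ w)
      = v ⬝ᵥ ((c • (T.1ᵀ * S * T.1)) *ᵥ w) := by
    intro v w
    rw [LinearMap.smul_apply, LinearMap.smul_apply, a6_form, Matrix.smul_mulVec,
      dotProduct_smul]
  have hint : ∀ i j, ∃ z : ℤ, (c • (T.1ᵀ * S * T.1)) i j = z := by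
    intro i j
    obtain ⟨z, hz⟩ := hev.1 _ (hcol i) _ (hcol j)
    rw [hBform, a6_entry] at hz
    exact ⟨z, hz⟩
  choose G hG using hint
  have hGQ : c • (T.1ᵀ * S * T.1) = mQ (Matrix.of G) := by
    ext i j
    rw [hG i j]; rfl
  refine ⟨Matrix.of G, hGQ, ?_, ?_, ?_⟩
  · apply a6_mQ_inj
    have h1 : mQ (Matrix.of G)ᵀ = (mQ (Matrix.of G))ᵀ := rfl
    rw [h1, ← hGQ, Matrix.transpose_smul, Matrix.transpose_mul, Matrix.transpose_mul,
      Matrix.transpose_transpose, hS, Matrix.mul_assoc]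
  · intro i
    obtain ⟨z, hz⟩ := hev.2 _ (hcol i)
    rw [hBform, a6_entry, hGQ] at hz
    refine ⟨z, ?_⟩
    simp only [mQ, Matrix.map_apply] at hz
    exact_mod_cast hz
  · have hNice : Nice (c • Matrix.toBilin' S) := nice_smul (a6_nice hS hd) hc.ne'
    obtain ⟨e, he, hdual⟩ := a6_elem hNice hL hE
    refine ⟨e, he, ?_⟩
    have hTd : T.1.det ≠ 0 := by
      have : IsUnit T.1.det := (Matrix.isUnit_iff_isUnit_det _).1 T.isUnit
      exact this.ne_zero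
    have hGd : IsUnit (mQ (Matrix.of G)).det := by
      rw [← hGQ, Matrix.det_smul, Matrix.det_mul, Matrix.det_mul, Matrix.det_transpose]
      exact Ne.isUnit (mul_ne_zero (pow_ne_zero _ hc.ne') (mul_ne_zero (mul_ne_zero hTd hd) hTd))
    have hinv : ∀ i j, ∃ z : ℤ, ((e : ℚ) • (mQ (Matrix.of G))⁻¹) i j = z := by
      intro i j
      have hd1 : T.1 *ᵥ ((mQ (Matrix.of G))⁻¹ *ᵥ (Pi.single j (1 : ℚ)))
          ∈ dualL (c • Matrix.toBilin' S) L := by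
        intro y hy
        have hy2 : y = T.1 *ᵥ (T⁻¹.1 *ᵥ y) := by
          rw [Matrix.mulVec_mulVec, ← Units.val_mul, mul_inv_cancel]
          simp
        rw [hy2, hNice.symm, hBform, hGQ, Matrix.mulVec_mulVec, Matrix.mul_nonsing_inv _ hGd,
          Matrix.one_mulVec]
        rw [hy2, hT] at hy
        obtain ⟨z, hz⟩ := hy j
        refine ⟨z, ?_⟩
        rw [← hz]
        simp
      have hd2 := hdual _ hd1
      have hd3 : ((e : ℕ) : ℤ) • (T.1 *ᵥ ((mQ (Matrix.of G))⁻¹ *ᵥ (Pi.single j (1 : ℚ))))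
          = T.1 *ᵥ ((e : ℚ) • ((mQ (Matrix.of G))⁻¹ *ᵥ (Pi.single j (1 : ℚ)))) := by
        rw [Matrix.mulVec_smul, ← Int.cast_smul_eq_zsmul ℚ]
        push_cast
        rfl
      rw [hd3, hT] at hd2
      obtain ⟨z, hz⟩ := hd2 i
      refine ⟨z, ?_⟩
      rw [← hz]
      simp
    choose G' hG' using hinv
    refine ⟨Matrix.of G', ?_⟩
    apply a6_mQ_inj
    rw [a6_mQ_mul]
    have h2 : mQ (Matrix.of G') = (e : ℚ) • (mQ (Matrix.of G))⁻¹ := by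
      ext i j
      rw [hG' i j]; rfl
    rw [h2, Matrix.mul_smul, Matrix.mul_nonsing_inv _ hGd]
    ext i j
    by_cases hij : i = j
    · subst hij
      simp only [mQ, Matrix.map_apply, Matrix.smul_apply, Matrix.one_apply_eq, smul_eq_mul]
      push_cast
      ring
    · simp only [mQ, Matrix.map_apply, Matrix.smul_apply, Matrix.one_apply_ne hij, smul_eq_mul]
      push_cast
      ring

/-- an element preserving the lattice is integral in the basis -/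
theorem a6_integral {L : AddSubgroup (Fin 7 → ℚ)} {T : GL (Fin 7) ℚ}
    (hT : ∀ v : Fin 7 → ℚ, T.1 *ᵥ v ∈ L ↔ ∀ i, ∃ z : ℤ, v i = z) {q : GL (Fin 7) ℚ}
    (hq : ∀ x ∈ L, q.1 *ᵥ x ∈ L) :
    ∃ X : Matrix (Fin 7) (Fin 7) ℤ, mQ X = (T⁻¹ * q * T).1 := by
  have h1 : ∀ i j, ∃ z : ℤ, (T⁻¹ * q * T).1 i j = z := by
    intro i j
    have h2 : T.1 *ᵥ (Pi.single j (1 : ℚ)) ∈ L := (hT _).2 (a6_single j)
    have h3 := hq _ h2
    have h4 : q.1 *ᵥ (T.1 *ᵥ (Pi.single j (1 : ℚ)))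
        = T.1 *ᵥ ((T⁻¹ * q * T).1 *ᵥ (Pi.single j (1 : ℚ))) := by
      rw [Matrix.mulVec_mulVec, Matrix.mulVec_mulVec, ← Units.val_mul, ← Units.val_mul]
      congr 2
      rw [mul_assoc, mul_inv_cancel_left]
    rw [h4, hT] at h3
    obtain ⟨z, hz⟩ := h3 i
    refine ⟨z, ?_⟩
    rw [← hz]
    simp
  choose X hX using h1
  refine ⟨Matrix.of X, ?_⟩
  ext i j
  rw [hX i j]; rfl

theorem a6_latGroup {P : GL (Fin 7) ℝ} {L : AddSubgroup (Fin 7 → ℚ)} {T : GL (Fin 7) ℚ}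
    (hT : ∀ v : Fin 7 → ℚ, T.1 *ᵥ v ∈ L ↔ ∀ i, ∃ z : ℤ, v i = z) {q : GL (Fin 7) ℚ}
    (hq : ∀ x, x ∈ L ↔ q.1 *ᵥ x ∈ L) {γ : GL (Fin 7) ℝ} (hγ : γ ∈ IsomH6)
    (hPq : γ * P = P * iotaQ q) : γ ∈ latGroup (P * iotaQ T) := by
  obtain ⟨X, hX⟩ := a6_integral hT (q := q) (fun x hx => (hq x).1 hx)
  obtain ⟨Y, hY⟩ := a6_integral hT (q := q⁻¹) (fun x hx => by
    rw [hq, Matrix.mulVec_mulVec, ← Units.val_mul, mul_inv_cancel]
    simpa using hx)
  have hXY : X * Y = 1 := by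
    apply a6_mQ_inj
    rw [a6_mQ_mul, hX, hY, ← Units.val_mul, a6_mQ_one]
    have : T⁻¹ * q * T * (T⁻¹ * q⁻¹ * T) = 1 := by group
    rw [this]; rfl
  have hYX : Y * X = 1 := by
    apply a6_mQ_inj
    rw [a6_mQ_mul, hX, hY, ← Units.val_mul, a6_mQ_one]
    have : T⁻¹ * q⁻¹ * T * (T⁻¹ * q * T) = 1 := by group
    rw [this]; rfl
  refine ⟨hγ, ⟨X, Y, hXY, hYX⟩, ?_⟩
  have h1 : iota ⟨X, Y, hXY, hYX⟩ = iotaQ (T⁻¹ * q * T) := by
    ext i j
    rw [a6_iotaQ_val, ← hX]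
    simp [iota, mQ]
  rw [h1, map_mul, map_mul, map_inv, ← mul_assoc, hPq]
  group

/-- Row [RH-A6]: normal form of a group commensurable with `latGroup P`.
Proof: let `V = Fin 7 → ℚ`, `B = Matrix.toBilin' S` (`Nice`: `S` is symmetric because its real
version is `Pᵀ J0 P`, and invertible).  Let `L₀` be the lattice of `exists_inv_lattice`
(`rational_of_comm` gives the hypothesis).  Apply `normal_form` with `H` the set of the linear
equivalences `x ↦ q x`, `γ P = P q`, `γ ∈ Γ` (isometries of `B`, as `γ` preserves `J0`).  Get `c, L`.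
Let `b` be a basis with integral span `L` and `T` the matrix with columns `b_i`, so
`L = T ℤ^7`.  `c Tᵀ S T` is the Gram matrix of `c B` in this basis, an integral matrix `G`, with even
diagonal (`EvenL`).  For `γ ∈ Γ`: `q` preserves `L`, so `T⁻¹ q T` is integral with integral inverse
and `γ P T = P q T = P T (T⁻¹ q T)`: `γ ∈ latGroup (P T)`.
`EvenElem.elem`: let `e` be the product of the primes dividing `det G` (`≠ 0`).  The columns of
`G⁻¹`, as coordinate vectors, are the elements of the dual basis of `L^#`; we have to show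
`e x ∈ L` for `x ∈ L^#` (`L^#` with respect to `c B`).  `det G • x ∈ L` (Cramer), so the order `m` of
`x` modulo `L` divides `det G`; `m` is squarefree: if `p² ∣ m`, then `x' = (m/p²) x ∈ L^#` has
`p² x' ∈ L` but `p x' ∉ L`, contradicting `Elem`.  So `m ∣ e`. -/
theorem nf_of_comm {P : GL (Fin 7) ℝ} {S : Matrix (Fin 7) (Fin 7) ℚ}
    (hP : P.1ᵀ * J0 * P.1 = S.map (fun q : ℚ => (q : ℝ)))
    {x₀ : Fin 7 → ℚ} (hx : x₀ ≠ 0) (hx0 : x₀ ⬝ᵥ (S *ᵥ x₀) = 0)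
    {Γ : Subgroup (GL (Fin 7) ℝ)} (hΓ : Γ ≤ IsomH6) (hc : Γ.Commensurable (latGroup P)) :
    ∃ (T : GL (Fin 7) ℚ) (c : ℚ) (G : Matrix (Fin 7) (Fin 7) ℤ), 0 < c ∧
      c • (T.1ᵀ * S * T.1) = mQ G ∧ EvenElem G ∧ Γ ≤ latGroup (P * iotaQ T) := by
  have hS : Sᵀ = S := a6_symm hP
  have hd : S.det ≠ 0 := a6_det hP
  have hrat : ∀ γ ∈ Γ, ∃ q : GL (Fin 7) ℚ, γ * P = P * iotaQ q :=
    fun γ hγ => rational_of_comm hP hx hx0 hΓ hc hγ
  obtain ⟨L₀, hL₀, hinv⟩ := exists_inv_lattice hc hrat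
  let H : Set ((Fin 7 → ℚ) ≃ₗ[ℚ] (Fin 7 → ℚ)) :=
    {g | ∃ γ ∈ Γ, ∃ q : GL (Fin 7) ℚ, γ * P = P * iotaQ q ∧ g = a6_equiv q}
  have hH : ∀ g ∈ H, Iso (Matrix.toBilin' S) g ∧ Pres g L₀ := by
    rintro g ⟨γ, hγ, q, hq, rfl⟩
    refine ⟨a6_equiv_iso (a6_iso hP (hΓ hγ) hq), ?_⟩
    intro x
    rw [a6_equiv_apply]
    exact hinv γ hγ q hq x
  have hodd : Odd (Module.finrank ℚ (Fin 7 → ℚ)) := by
    rw [Module.finrank_fin_fun]; decide
  obtain ⟨c, L, hc0, hL, hev, hE, hpres⟩ := normal_form (a6_nice hS hd) hodd hL₀ H hH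
  obtain ⟨T, hT⟩ := a6_basis hL
  obtain ⟨G, hG, hGe⟩ := a6_gram hS hd hc0 hL hev hE hT
  refine ⟨T, c, G, hc0, hG, hGe, ?_⟩
  intro γ hγ
  obtain ⟨q, hq⟩ := hrat γ hγ
  refine a6_latGroup hT (q := q) ?_ (hΓ hγ) hq
  intro x
  have := hpres (a6_equiv q) ⟨γ, hγ, q, hq, rfl⟩ x
  rwa [a6_equiv_apply] at this

end RH6
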