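import Pool.Agent.RH6.A6

open Matrix

namespace RH6

/-- Row [RH-A6b]: an arithmetic overgroup is commensurable with the same lattice group.
Proof: let `Γ'` be commensurable with `latGroup P'`, `P'ᵀ J0 P' = S'` rational.  For
`γ ∈ latGroup P` a power is in `Γ ≤ Γ'` and a further power in `latGroup P'`.  By `rat_of_powers`
`P = l P' Q`, so `latGroup P = latGroup (P' Q)` (`latGroup_smul`), which is commensurable with
`latGroup P'` (`comm_latGroup`), hence with `Γ'`. -/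
theorem comm_of_over {P : GL (Fin 7) ℝ} {S : Matrix (Fin 7) (Fin 7) ℚ}
    (hP : P.1ᵀ * J0 * P.1 = S.map (fun q : ℚ => (q : ℝ)))
    {x₀ : Fin 7 → ℚ} (hx : x₀ ≠ 0) (hx0 : x₀ ⬝ᵥ (S *ᵥ x₀) = 0)
    {Γ Γ' : Subgroup (GL (Fin 7) ℝ)} (hc : Γ.Commensurable (latGroup P)) (hle : Γ ≤ Γ')
    (hΓ' : IsArith Γ') : Γ'.Commensurable (latGroup P) := by
  obtain ⟨_, P', S', hP', hc'⟩ := hΓ'
  have hpow : ∀ γ ∈ latGroup P, ∃ k : ℕ, 0 < k ∧ γ ^ k ∈ latGroup P' := by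
    intro γ hγ
    obtain ⟨n, hn, _, hn2⟩ := Subgroup.exists_pow_mem_of_relIndex_ne_zero hc.1 hγ
    obtain ⟨m, hm, _, hm2⟩ := Subgroup.exists_pow_mem_of_relIndex_ne_zero hc'.2 (hle hn2.1)
    exact ⟨n * m, Nat.mul_pos hn hm, by rw [pow_mul]; exact hm2.1⟩
  obtain ⟨l, Q, hl, hPQ⟩ := rat_of_powers hP hP' hx hx0 hpow
  have h1 : latGroup P = latGroup (P' * iotaQ Q) := latGroup_smul hl hPQ
  rw [h1]
  exact hc'.trans (comm_latGroup P' Q)

/-- a nonzero rational isotropic vector gives an integral one -/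
theorem a6b_int {G : Matrix (Fin 7) (Fin 7) ℤ} {y : Fin 7 → ℚ} (hy : y ≠ 0)
    (h : y ⬝ᵥ (mQ G *ᵥ y) = 0) : ∃ x : Fin 7 → ℤ, x ≠ 0 ∧ bZ G x x = 0 := by
  have hD : ∀ i, ((∏ i, (y i).den : ℕ) : ℚ) * y i =
      (((∏ i, (y i).den : ℕ) : ℚ) * y i).num := by
    intro i
    obtain ⟨c, hc⟩ : (y i).den ∣ ∏ i, (y i).den := Finset.dvd_prod_of_mem _ (Finset.mem_univ i)
    have h2 : ((y i).den : ℚ) * y i = (y i).num := by
      rw [mul_comm]
      exact Rat.mul_den_eq_num _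
    have h3 : ((∏ i, (y i).den : ℕ) : ℚ) * y i = ((c * (y i).num : ℤ) : ℚ) := by
      rw [hc]
      push_cast
      rw [mul_comm ((y i).den : ℚ) (c : ℚ), mul_assoc, h2]
    rw [h3, Rat.num_intCast]
  have hD0 : ((∏ i, (y i).den : ℕ) : ℚ) ≠ 0 := by
    exact_mod_cast (Finset.prod_pos fun i _ => (y i).pos).ne'
  refine ⟨fun i => (((∏ i, (y i).den : ℕ) : ℚ) * y i).num, ?_, ?_⟩
  · intro h0
    refine hy (funext fun i => ?_)
    have h1 := congrFun h0 i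
    have h2 := hD i
    rw [show (((∏ i, (y i).den : ℕ) : ℚ) * y i).num = 0 from h1] at h2
    rcases mul_eq_zero.1 (h2.trans Int.cast_zero) with h3 | h3
    · exact absurd h3 hD0
    · exact h3
  · have h1 : ((bZ G (fun i => (((∏ i, (y i).den : ℕ) : ℚ) * y i).num)
        (fun i => (((∏ i, (y i).den : ℕ) : ℚ) * y i).num) : ℤ) : ℚ) =
        ((∏ i, (y i).den : ℕ) : ℚ) ^ 2 * (y ⬝ᵥ (mQ G *ᵥ y)) := by
      unfold bZ mQ
      simp only [dotProduct, mulVec, Int.cast_sum, Int.cast_mul, ← hD, Matrix.map_apply]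
      rw [Finset.mul_sum]
      refine Finset.sum_congr rfl fun i _ => ?_
      rw [Finset.mul_sum, Finset.mul_sum, Finset.mul_sum]
      refine Finset.sum_congr rfl fun j _ => ?_
      ring
    rw [h, mul_zero] at h1
    exact_mod_cast h1

/-- Row [RH-A6b]: normal form of a non-uniform arithmetic group, with the scaling absorbed in the
real matrix: `P₁ = √c P T`. -/
theorem nf_nonunif {Γ : Subgroup (GL (Fin 7) ℝ)} (hΓ : IsNonunif Γ) :
    ∃ (P : GL (Fin 7) ℝ) (G : Matrix (Fin 7) (Fin 7) ℤ), P.1ᵀ * J0 * P.1 = mR G ∧ EvenElem G ∧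
      (∃ x : Fin 7 → ℤ, x ≠ 0 ∧ bZ G x x = 0) ∧ Γ ≤ latGroup P ∧
      Γ.Commensurable (latGroup P) := by
  obtain ⟨hle, P, S, hP, hc, x, hx, hx0⟩ := hΓ
  obtain ⟨T, c, G, hc0, hG, hE, hΓ⟩ := nf_of_comm hP hx hx0 hle hc
  have hcR : (0 : ℝ) < (c : ℝ) := by exact_mod_cast hc0
  have hs0 : Real.sqrt (c : ℝ) ≠ 0 := (Real.sqrt_pos.2 hcR).ne'
  have hs2 : Real.sqrt (c : ℝ) * Real.sqrt (c : ℝ) = c := Real.mul_self_sqrt hcR.le
  let A : GL (Fin 7) ℝ := P * iotaQ T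
  have hA : A.1 * (A⁻¹).1 = 1 := by
    have : A * A⁻¹ = 1 := mul_inv_cancel A
    exact congrArg Units.val this
  have hA' : (A⁻¹).1 * A.1 = 1 := by
    have : A⁻¹ * A = 1 := inv_mul_cancel A
    exact congrArg Units.val this
  let P₁ : GL (Fin 7) ℝ := ⟨Real.sqrt c • A.1, (Real.sqrt c)⁻¹ • (A⁻¹).1, by
    rw [Matrix.smul_mul, Matrix.mul_smul, smul_smul, mul_inv_cancel₀ hs0, one_smul, hA], by
    rw [Matrix.smul_mul, Matrix.mul_smul, smul_smul, inv_mul_cancel₀ hs0, one_smul, hA']⟩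
  have hP₁ : P₁.1 = Real.sqrt c • A.1 := rfl
  have hlat : latGroup P₁ = latGroup A := latGroup_smul hs0 hP₁
  refine ⟨P₁, G, ?_, hE, ?_, ?_, ?_⟩
  · rw [hP₁, Matrix.transpose_smul, Matrix.smul_mul, Matrix.smul_mul, Matrix.mul_smul, smul_smul,
      hs2]
    have h1 : A.1 = P.1 * (iotaQ T).1 := rfl
    have h2 : (iotaQ T).1 = T.1.map (fun q : ℚ => (q : ℝ)) := rfl
    have h3 : A.1ᵀ * J0 * A.1 = (T.1ᵀ * S * T.1).map (fun q : ℚ => (q : ℝ)) := by
      rw [h1, Matrix.transpose_mul]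
      calc (iotaQ T).1ᵀ * P.1ᵀ * J0 * (P.1 * (iotaQ T).1)
          = (iotaQ T).1ᵀ * (P.1ᵀ * J0 * P.1) * (iotaQ T).1 := by simp only [Matrix.mul_assoc]
        _ = _ := by
          rw [hP, h2]
          have h4 : ∀ X Y : Matrix (Fin 7) (Fin 7) ℚ, (X * Y).map (fun q : ℚ => (q : ℝ)) =
              X.map (fun q : ℚ => (q : ℝ)) * Y.map (fun q : ℚ => (q : ℝ)) := by
            intro X Y
            exact Matrix.map_mul (f := (algebraMap ℚ ℝ))
          rw [h4, h4]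
          rfl
    rw [h3]
    have h5 : mR G = (mQ G).map (fun q : ℚ => (q : ℝ)) := by
      ext i j
      simp [mR, mQ]
    rw [h5, ← hG]
    ext i j
    simp
  · -- the isotropic vector
    have hTT : T.1 * (T⁻¹).1 = 1 := by
      have : T * T⁻¹ = 1 := mul_inv_cancel T
      exact congrArg Units.val this
    have hy1 : T.1 *ᵥ ((T⁻¹).1 *ᵥ x) = x := by
      rw [Matrix.mulVec_mulVec, hTT, Matrix.one_mulVec]
    refine a6b_int (y := (T⁻¹).1 *ᵥ x) ?_ ?_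
    · intro h0
      rw [h0, Matrix.mulVec_zero] at hy1
      exact hx hy1.symm
    · rw [← hG, Matrix.smul_mulVec, dotProduct_smul]
      have h6 : (T.1ᵀ * S * T.1) *ᵥ ((T⁻¹).1 *ᵥ x) = T.1ᵀ *ᵥ (S *ᵥ x) := by
        rw [← Matrix.mulVec_mulVec, hy1, ← Matrix.mulVec_mulVec]
      rw [h6, Matrix.dotProduct_mulVec, Matrix.vecMul_transpose, hy1, hx0, smul_zero]
  · rw [hlat]
    exact hΓ
  · rw [hlat]
    exact hc.trans (comm_latGroup P T)

end RH6
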