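import Pool.Agent.RH6.DP2

set_option maxRecDepth 100000

namespace RH6.P2

theorem h_n0_0 : n0_0.all (nodeHeavy F) = true := by decide +kernel

end RH6.P2
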