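import Pool.Agent.RH6.Tree

namespace RH6.P2

def F : Fam := ⟨[1,1,4,4,4], 2576980377, true, true, []⟩
def X : FX := ⟨F, AP2, HP2, Kd.k2, [[0,0,1,0,1], [0,0,0,1,1]], false,
  [[0,1]],
  [[1,1,0,0,0]],
  [[1,1,0,0,0], [0,0,1,0,0], [1,1,1,0,0], [0,0,0,1,0], [1,1,0,1,0], [0,0,1,1,0], [1,1,1,1,0], [0,0,0,0,1], [1,1,0,0,1], [0,0,1,0,1], [1,1,1,0,1], [0,0,0,1,1], [1,1,0,1,1], [0,0,1,1,1], [1,1,1,1,1], [2,0,0,0,0], [0,2,0,0,0], [0,0,2,0,0], [0,0,0,2,0], [0,0,0,0,2]]⟩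
def perms : List (List Nat) := [[0,1,2,3,4],
  [0,1,2,4,3],
  [0,1,3,2,4],
  [0,1,3,4,2],
  [0,1,4,2,3],
  [0,1,4,3,2],
  [1,0,2,3,4],
  [1,0,2,4,3],
  [1,0,3,2,4],
  [1,0,3,4,2],
  [1,0,4,2,3],
  [1,0,4,3,2]]
def n0_0 : List NX := [
  ⟨⟨1, [(0,1),(1,1),(2,1),(3,1),(4,1)], [[(0,1),(0,3),(0,1),(1,1),(2,1)],[(0,1),(0,3),(1,1),(0,1),(2,1)],[(0,1),(0,3),(1,1),(2,1),(0,1)],[(0,1),(0,3),(1,1),(2,1),(3,1)]], F.fb⟩, [3,1,3,3,3],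
    [⟨2,0,[1,1,1,0,0],[3,1,3,3,3],[0,1,0,0,0],[0,0,0,0,0],[[0,0,0,0,2],[0,0,0,2,0],[0,0,2,0,0],[2,2,0,0,0],[1,1,1,0,0]]⟩,
     ⟨2,0,[1,1,1,1,1],[11,1,3,3,3],[0,1,0,0,0],[0,0,0,0,0],[[0,0,0,0,2],[0,0,0,2,0],[0,0,2,0,0],[2,2,0,0,0],[1,1,1,1,1]]⟩]⟩,
  ⟨⟨1, [(0,1),(0,3),(1,1),(2,1),(3,1)], [[(0,1),(0,3),(0,1),(0,1),(1,1)],[(0,1),(0,3),(0,1),(1,1),(0,1)],[(0,1),(0,3),(0,1),(1,1),(2,1)]], F.fb⟩, [1,3,1,1,1],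
    [⟨4,0,[1,3,1,2,0],[1,3,1,1,1],[0,0,1,0,0],[0,0,0,0,0],[[0,0,0,0,1],[0,0,0,1,0],[0,0,2,0,0],[0,4,1,0,0],[1,3,1,0,0]]⟩,
     ⟨4,0,[1,1,1,2,2],[9,3,1,1,1],[0,0,1,0,0],[0,0,0,0,0],[[0,0,0,0,1],[0,0,0,1,0],[0,0,2,0,0],[1,1,1,0,0],[0,4,1,0,0]]⟩]⟩,
  ⟨⟨1, [(0,1),(0,3),(0,1),(1,1),(2,1)], [[(0,1),(0,3),(0,1),(0,1),(0,1)],[(0,1),(0,3),(0,1),(0,1),(1,1)]], F.fb⟩, [1,3,1,1,1],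
    [⟨4,0,[1,3,2,1,0],[1,3,1,1,1],[0,0,0,1,0],[0,0,0,0,0],[[0,0,0,0,1],[0,0,1,0,0],[0,0,0,2,0],[0,4,0,1,0],[1,3,0,1,0]]⟩,
     ⟨4,0,[1,1,2,1,0],[9,3,1,1,1],[0,0,0,1,0],[0,0,0,0,0],[[0,0,0,0,1],[0,0,1,0,0],[0,0,0,2,0],[1,1,0,1,0],[0,4,0,1,0]]⟩]⟩,
  ⟨⟨1, [(0,1),(0,3),(1,1),(0,1),(2,1)], [[(0,1),(0,3),(0,1),(0,1),(0,1)],[(0,1),(0,3),(0,1),(0,1),(1,1)]], F.fb⟩, [1,3,1,1,1],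
    [⟨4,0,[1,3,1,2,0],[1,3,1,1,1],[0,0,1,0,0],[0,0,0,0,0],[[0,0,0,0,1],[0,0,0,1,0],[0,0,2,0,0],[0,4,1,0,0],[1,3,1,0,0]]⟩,
     ⟨4,0,[1,1,1,2,0],[9,3,1,1,1],[0,0,1,0,0],[0,0,0,0,0],[[0,0,0,0,1],[0,0,0,1,0],[0,0,2,0,0],[1,1,1,0,0],[0,4,1,0,0]]⟩]⟩,
  ⟨⟨1, [(0,1),(0,3),(1,1),(2,1),(0,1)], [[(0,1),(0,3),(0,1),(0,1),(0,1)],[(0,1),(0,3),(0,1),(1,1),(0,1)]], F.fb⟩, [1,3,1,1,1],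
    [⟨4,0,[1,3,1,2,0],[1,3,1,1,1],[0,0,1,0,0],[0,0,0,0,0],[[0,0,0,0,1],[0,0,0,1,0],[0,0,2,0,0],[0,4,1,0,0],[1,3,1,0,0]]⟩,
     ⟨4,0,[1,1,1,2,2],[9,3,1,1,1],[0,0,1,0,0],[0,0,0,0,0],[[0,0,0,0,1],[0,0,0,1,0],[0,0,2,0,0],[1,1,1,0,0],[0,4,1,0,0]]⟩]⟩,
  ⟨⟨1, [(0,1),(0,3),(0,1),(0,1),(1,1)], [[(0,1),(0,3),(0,1),(0,1),(0,1)]], F.fb⟩, [1,3,1,1,1],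
    [⟨4,0,[1,3,2,0,1],[1,3,1,1,1],[0,0,0,0,1],[0,0,0,0,0],[[0,0,0,1,0],[0,0,1,0,0],[0,0,0,0,2],[0,4,0,0,1],[1,3,0,0,1]]⟩,
     ⟨4,0,[1,1,2,0,1],[9,3,1,1,1],[0,0,0,0,1],[0,0,0,0,0],[[0,0,0,1,0],[0,0,1,0,0],[0,0,0,0,2],[1,1,0,0,1],[0,4,0,0,1]]⟩]⟩,
  ⟨⟨1, [(0,1),(0,3),(0,1),(1,1),(0,1)], [[(0,1),(0,3),(0,1),(0,1),(0,1)]], F.fb⟩, [1,3,1,1,1],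
    [⟨4,0,[1,3,2,1,0],[1,3,1,1,1],[0,0,0,1,0],[0,0,0,0,0],[[0,0,0,0,1],[0,0,1,0,0],[0,0,0,2,0],[0,4,0,1,0],[1,3,0,1,0]]⟩,
     ⟨4,0,[1,1,2,1,0],[9,3,1,1,1],[0,0,0,1,0],[0,0,0,0,0],[[0,0,0,0,1],[0,0,1,0,0],[0,0,0,2,0],[1,1,0,1,0],[0,4,0,1,0]]⟩]⟩]
def T0 : Tree := ⟨[1,3,1,1,1], n0_0, [[(0,1),(0,3),(0,1),(0,1),(0,1)]]⟩
def n1_0 : List NX := [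
  ⟨⟨1, [(0,1),(1,1),(2,1),(3,1),(4,1)], [[(0,1),(0,7),(0,1),(0,1),(1,1)],[(0,1),(0,7),(1,1),(2,1),(3,1)],[(0,1),(0,15),(1,1),(2,1),(3,1)]], F.fb⟩, [7,1,7,7,7],
    [⟨2,0,[1,1,1,1,0],[7,1,7,7,7],[0,1,0,0,0],[0,0,0,0,0],[[0,0,0,0,2],[0,0,0,2,0],[0,0,2,0,0],[2,2,0,0,0],[1,1,1,1,0]]⟩,
     ⟨2,1,[1,1,1,1,0],[15,1,7,7,7],[0,1,0,0,0],[0,0,0,0,0],[[0,0,0,0,2],[0,0,0,2,0],[0,0,2,0,0],[2,2,0,0,0],[5,1,1,1,0]]⟩]⟩,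
  ⟨⟨1, [(0,1),(0,7),(1,1),(2,1),(3,1)], [[(0,1),(0,7),(0,1),(0,1),(0,1)],[(0,1),(0,7),(0,1),(1,1),(0,1)],[(0,1),(0,7),(1,1),(2,1),(1,1)]], F.fb⟩, [1,7,1,1,1],
    [⟨4,0,[1,1,1,2,1],[1,7,1,1,1],[0,0,1,0,0],[0,0,0,0,0],[[0,0,0,1,0],[0,0,0,0,2],[0,0,1,0,1],[1,1,0,0,0],[0,4,0,0,1]]⟩,
     ⟨4,0,[1,3,1,2,1],[9,7,1,1,1],[0,0,1,0,0],[0,0,0,0,0],[[0,0,0,1,0],[0,0,0,0,2],[0,0,1,0,1],[1,3,0,0,0],[3,1,0,0,0],[0,4,0,0,1]]⟩]⟩,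
  ⟨⟨1, [(0,1),(0,15),(1,1),(2,1),(3,1)], [[(0,1),(0,15),(0,1),(0,1),(0,1)],[(0,1),(0,15),(0,1),(1,1),(0,1)],[(0,1),(0,15),(1,1),(2,1),(1,1)]], F.fb⟩, [1,7,1,1,1],
    [⟨4,0,[1,1,1,2,1],[1,7,1,1,1],[0,0,1,0,0],[0,0,0,0,0],[[0,0,0,1,0],[0,0,0,0,2],[0,0,1,0,1],[1,1,0,0,0],[0,4,0,0,1]]⟩,
     ⟨4,0,[1,3,1,2,1],[9,7,1,1,1],[0,0,1,0,0],[0,0,0,0,0],[[0,0,0,1,0],[0,0,0,0,2],[0,0,1,0,1],[1,3,0,0,0],[3,1,0,0,0],[0,4,0,0,1]]⟩]⟩,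
  ⟨⟨1, [(0,1),(0,7),(1,1),(2,1),(1,1)], [[(0,1),(0,7),(0,1),(0,1),(0,1)],[(0,1),(0,7),(1,1),(1,1),(1,1)]], F.fb⟩, [1,7,1,1,1],
    [⟨4,0,[1,1,1,1,2],[1,7,1,1,1],[0,0,1,0,0],[0,0,0,0,0],[[0,0,0,0,1],[0,0,0,2,0],[0,0,1,1,0],[1,1,0,0,0],[0,4,0,1,0]]⟩,
     ⟨4,0,[1,3,1,1,2],[9,7,1,1,1],[0,0,1,0,0],[0,0,0,0,0],[[0,0,0,0,1],[0,0,0,2,0],[0,0,1,1,0],[1,3,0,0,0],[3,1,0,0,0],[0,4,0,1,0]]⟩]⟩,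
  ⟨⟨1, [(0,1),(0,15),(1,1),(2,1),(1,1)], [[(0,1),(0,15),(0,1),(0,1),(0,1)],[(0,1),(0,15),(1,1),(1,1),(1,1)]], F.fb⟩, [1,7,1,1,1],
    [⟨4,0,[1,1,1,1,2],[1,7,1,1,1],[0,0,1,0,0],[0,0,0,0,0],[[0,0,0,0,1],[0,0,0,2,0],[0,0,1,1,0],[1,1,0,0,0],[0,4,0,1,0]]⟩,
     ⟨4,0,[1,3,1,1,2],[9,7,1,1,1],[0,0,1,0,0],[0,0,0,0,0],[[0,0,0,0,1],[0,0,0,2,0],[0,0,1,1,0],[1,3,0,0,0],[3,1,0,0,0],[0,4,0,1,0]]⟩]⟩,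
  ⟨⟨0, [(0,1),(0,7),(0,1),(0,1),(1,1)], [[(0,1),(0,7),(0,1),(0,1),(0,1)]], F.fb⟩, [1,7,1,1,1],
    [⟨4,0,[1,1,1,2,1],[1,7,1,1,1],[0,0,1,0,0],[0,0,0,0,0],[[0,0,0,1,0],[0,0,0,0,2],[0,0,1,0,1],[1,1,0,0,0],[0,4,0,0,1]]⟩,
     ⟨2,1,[1,1,1,1,0],[9,7,1,1,1],[1,0,0,0,0],[0,0,0,0,0],[[0,0,0,0,2],[0,0,0,2,0],[0,0,2,0,0],[2,2,0,0,0],[5,1,1,1,0]]⟩]⟩,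
  ⟨⟨0, [(0,1),(0,7),(0,1),(1,1),(0,1)], [[(0,1),(0,7),(0,1),(0,1),(0,1)]], F.fb⟩, [1,7,1,1,1],
    [⟨4,0,[1,1,1,1,2],[1,7,1,1,1],[0,0,1,0,0],[0,0,0,0,0],[[0,0,0,0,1],[0,0,0,2,0],[0,0,1,1,0],[1,1,0,0,0],[0,4,0,1,0]]⟩,
     ⟨2,1,[1,1,1,0,1],[9,7,1,1,1],[1,0,0,0,0],[0,0,0,0,0],[[0,0,0,0,2],[0,0,0,2,0],[0,0,2,0,0],[2,2,0,0,0],[5,1,1,0,1]]⟩]⟩,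
  ⟨⟨0, [(0,1),(0,15),(0,1),(1,1),(0,1)], [[(0,1),(0,15),(0,1),(0,1),(0,1)]], F.fb⟩, [1,7,1,1,1],
    [⟨2,0,[1,1,1,0,1],[1,7,1,1,1],[1,0,0,0,0],[0,0,0,0,0],[[0,0,0,0,2],[0,0,0,2,0],[0,0,2,0,0],[2,2,0,0,0],[1,1,1,0,1]]⟩,
     ⟨4,0,[1,3,1,1,2],[9,7,1,1,1],[0,0,1,0,0],[0,0,0,0,0],[[0,0,0,0,1],[0,0,0,2,0],[0,0,1,1,0],[1,3,0,0,0],[3,1,0,0,0],[0,4,0,1,0]]⟩]⟩,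
  ⟨⟨0, [(0,1),(0,7),(1,1),(1,1),(1,1)], [[(0,1),(0,7),(0,1),(0,1),(0,1)]], F.fb⟩, [1,7,1,1,1],
    [⟨4,0,[2,0,1,1,1],[1,7,1,1,1],[1,0,0,0,0],[0,0,0,0,0],[[0,0,0,0,2],[0,0,0,1,1],[0,0,1,0,1],[0,2,0,0,0],[2,0,0,0,1]]⟩,
     ⟨2,1,[1,1,1,0,1],[9,7,1,1,1],[1,0,0,0,0],[0,0,0,0,0],[[0,0,0,0,2],[0,0,0,2,0],[0,0,2,0,0],[2,2,0,0,0],[5,1,1,0,1]]⟩]⟩,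
  ⟨⟨0, [(0,1),(0,15),(1,1),(1,1),(1,1)], [[(0,1),(0,15),(0,1),(0,1),(0,1)]], F.fb⟩, [1,7,1,1,1],
    [⟨2,0,[1,1,1,0,1],[1,7,1,1,1],[1,0,0,0,0],[0,0,0,0,0],[[0,0,0,0,2],[0,0,0,2,0],[0,0,2,0,0],[2,2,0,0,0],[1,1,1,0,1]]⟩,
     ⟨4,0,[2,0,1,1,1],[9,7,1,1,1],[1,0,0,0,0],[0,0,0,0,0],[[0,0,0,0,2],[0,0,0,1,1],[0,0,1,0,1],[0,2,0,0,0],[2,0,0,0,1]]⟩]⟩]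
def T1 : Tree := ⟨[1,7,1,1,1], n1_0, [[(0,1),(0,7),(0,1),(0,1),(0,1)],[(0,1),(0,15),(0,1),(0,1),(0,1)]]⟩
def n2_0 : List NX := [
  ⟨⟨1, [(0,1),(1,1),(2,1),(3,1),(4,1)], [[(0,1),(0,7),(1,1),(2,1),(3,1)],[(0,1),(0,15),(1,1),(2,1),(3,1)]], F.fb⟩, [7,1,5,5,5],
    [⟨2,0,[1,1,1,1,0],[7,1,5,5,5],[0,1,0,0,0],[0,0,0,0,0],[[0,0,0,0,2],[0,0,0,2,0],[0,0,2,0,0],[2,2,0,0,0],[1,1,1,1,0]]⟩,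
     ⟨2,1,[1,3,0,0,0],[15,1,5,5,5],[0,1,0,0,0],[0,0,0,0,0],[[0,0,0,0,2],[0,0,0,2,0],[0,0,2,0,0],[2,6,0,0,0],[4,4,0,0,0],[3,5,0,0,0]]⟩]⟩,
  ⟨⟨0, [(0,1),(0,7),(1,1),(2,1),(3,1)], [[(0,1),(0,7),(0,3),(0,3),(1,1)],[(0,1),(0,7),(1,1),(0,3),(0,3)],[(0,1),(0,7),(1,1),(0,3),(2,1)]], F.fb⟩, [1,7,3,3,3],
    [⟨4,0,[2,0,2,1,2],[1,7,3,3,3],[1,0,0,0,0],[0,0,0,0,0],[[0,0,0,0,1],[0,0,1,0,0],[0,0,0,2,0],[0,2,0,0,0],[2,0,0,1,0]]⟩,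
     ⟨2,1,[1,1,1,1,0],[9,7,3,3,3],[1,0,0,0,0],[0,0,0,0,0],[[0,0,0,0,2],[0,0,0,2,0],[0,0,2,0,0],[2,2,0,0,0],[5,1,1,1,0]]⟩]⟩,
  ⟨⟨0, [(0,1),(0,15),(1,1),(2,1),(3,1)], [[(0,1),(0,15),(0,3),(0,3),(1,1)],[(0,1),(0,15),(1,1),(0,3),(0,3)],[(0,1),(0,15),(1,1),(0,3),(2,1)]], F.fb⟩, [1,7,3,3,3],
    [⟨2,0,[1,1,1,1,0],[1,7,3,3,3],[1,0,0,0,0],[0,0,0,0,0],[[0,0,0,0,2],[0,0,0,2,0],[0,0,2,0,0],[2,2,0,0,0],[1,1,1,1,0]]⟩,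
     ⟨4,0,[2,0,2,1,2],[9,7,3,3,3],[1,0,0,0,0],[0,0,0,0,0],[[0,0,0,0,1],[0,0,1,0,0],[0,0,0,2,0],[0,2,0,0,0],[2,0,0,1,0]]⟩]⟩,
  ⟨⟨0, [(0,1),(0,7),(1,1),(0,3),(2,1)], [[(0,1),(0,7),(0,3),(0,3),(1,1)]], F.fb⟩, [1,7,3,3,3],
    [⟨4,0,[1,1,1,1,2],[1,7,3,3,3],[0,0,0,1,0],[0,0,0,0,0],[[0,0,0,0,1],[0,0,0,2,0],[0,0,1,1,0],[1,1,0,0,0],[0,4,0,1,0]]⟩,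
     ⟨2,1,[1,1,1,1,0],[9,7,3,3,3],[1,0,0,0,0],[0,0,0,0,0],[[0,0,0,0,2],[0,0,0,2,0],[0,0,2,0,0],[2,2,0,0,0],[5,1,1,1,0]]⟩]⟩,
  ⟨⟨0, [(0,1),(0,15),(1,1),(0,3),(2,1)], [[(0,1),(0,15),(0,3),(0,3),(0,3)],[(0,1),(0,15),(1,1),(0,3),(0,3)]], F.fb⟩, [1,7,3,3,3],
    [⟨2,0,[1,1,1,0,1],[1,7,3,3,3],[1,0,0,0,0],[0,0,0,0,0],[[0,0,0,0,2],[0,0,0,2,0],[0,0,2,0,0],[2,2,0,0,0],[1,1,1,0,1]]⟩,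
     ⟨4,0,[1,3,2,1,1],[9,7,3,3,3],[0,0,0,1,0],[0,0,0,0,0],[[0,0,1,0,0],[0,0,0,0,2],[0,0,0,1,1],[1,3,0,0,0],[3,1,0,0,0],[0,4,0,0,1]]⟩]⟩,
  ⟨⟨0, [(0,1),(0,7),(0,3),(0,3),(1,1)], [[(0,1),(0,7),(0,3),(0,3),(0,3)]], F.fb⟩, [1,7,3,3,3],
    [⟨4,0,[1,1,1,2,1],[1,7,3,3,3],[0,0,1,0,0],[0,0,0,0,0],[[0,0,0,1,0],[0,0,0,0,2],[0,0,1,0,1],[1,1,0,0,0],[0,4,0,0,1]]⟩,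
     ⟨2,1,[1,1,1,1,0],[9,7,3,3,3],[1,0,0,0,0],[0,0,0,0,0],[[0,0,0,0,2],[0,0,0,2,0],[0,0,2,0,0],[2,2,0,0,0],[5,1,1,1,0]]⟩]⟩,
  ⟨⟨0, [(0,1),(0,15),(0,3),(0,3),(1,1)], [[(0,1),(0,15),(0,3),(0,3),(0,3)]], F.fb⟩, [1,7,3,3,3],
    [⟨2,0,[1,1,1,1,0],[1,7,3,3,3],[1,0,0,0,0],[0,0,0,0,0],[[0,0,0,0,2],[0,0,0,2,0],[0,0,2,0,0],[2,2,0,0,0],[1,1,1,1,0]]⟩,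
     ⟨4,0,[1,3,1,2,1],[9,7,3,3,3],[0,0,1,0,0],[0,0,0,0,0],[[0,0,0,1,0],[0,0,0,0,2],[0,0,1,0,1],[1,3,0,0,0],[3,1,0,0,0],[0,4,0,0,1]]⟩]⟩,
  ⟨⟨0, [(0,1),(0,7),(1,1),(0,3),(0,3)], [[(0,1),(0,7),(0,3),(0,3),(0,3)]], F.fb⟩, [1,7,3,3,3],
    [⟨4,0,[1,1,1,1,2],[1,7,3,3,3],[0,0,0,1,0],[0,0,0,0,0],[[0,0,0,0,1],[0,0,0,2,0],[0,0,1,1,0],[1,1,0,0,0],[0,4,0,1,0]]⟩,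
     ⟨2,1,[1,1,0,1,1],[9,7,3,3,3],[1,0,0,0,0],[0,0,0,0,0],[[0,0,0,0,2],[0,0,0,2,0],[0,0,2,0,0],[2,2,0,0,0],[5,1,0,1,1]]⟩]⟩,
  ⟨⟨0, [(0,1),(0,15),(1,1),(0,3),(0,3)], [[(0,1),(0,15),(0,3),(0,3),(0,3)]], F.fb⟩, [1,7,3,3,3],
    [⟨2,0,[1,1,0,1,1],[1,7,3,3,3],[1,0,0,0,0],[0,0,0,0,0],[[0,0,0,0,2],[0,0,0,2,0],[0,0,2,0,0],[2,2,0,0,0],[1,1,0,1,1]]⟩,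
     ⟨4,0,[1,3,1,1,2],[9,7,3,3,3],[0,0,0,1,0],[0,0,0,0,0],[[0,0,0,0,1],[0,0,0,2,0],[0,0,1,1,0],[1,3,0,0,0],[3,1,0,0,0],[0,4,0,1,0]]⟩]⟩]
def T2 : Tree := ⟨[1,7,3,3,3], n2_0, [[(0,1),(0,7),(0,3),(0,3),(0,3)],[(0,1),(0,15),(0,3),(0,3),(0,3)]]⟩
def n3_0 : List NX := [
  ⟨⟨1, [(0,1),(1,1),(2,1),(3,1),(4,1)], [[(0,1),(0,3),(0,1),(1,1),(2,1)],[(0,1),(0,3),(1,1),(0,1),(2,1)],[(0,1),(0,3),(1,1),(2,1),(3,1)]], F.fb⟩, [3,1,3,3,7],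
    [⟨2,1,[1,1,1,1,1],[3,1,3,3,7],[0,1,0,0,0],[0,0,0,0,0],[[0,0,0,0,2],[0,0,0,2,0],[0,0,2,0,0],[2,2,0,0,0],[5,1,1,1,1]]⟩,
     ⟨2,0,[1,1,1,1,1],[11,1,3,3,7],[0,1,0,0,0],[0,0,0,0,0],[[0,0,0,0,2],[0,0,0,2,0],[0,0,2,0,0],[2,2,0,0,0],[1,1,1,1,1]]⟩]⟩,
  ⟨⟨1, [(0,1),(0,3),(1,1),(2,1),(3,1)], [[(0,1),(0,3),(0,1),(0,1),(1,1)],[(0,1),(0,3),(0,1),(1,1),(2,1)]], F.fb⟩, [1,3,1,1,5],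
    [⟨4,0,[1,3,1,2,0],[1,3,1,1,5],[0,0,1,0,0],[0,0,0,0,0],[[0,0,0,0,1],[0,0,0,1,0],[0,0,2,0,0],[0,4,1,0,0],[1,3,1,0,0]]⟩,
     ⟨4,0,[1,1,1,2,2],[9,3,1,1,5],[0,0,1,0,0],[0,0,0,0,0],[[0,0,0,0,1],[0,0,0,1,0],[0,0,2,0,0],[1,1,1,0,0],[0,4,1,0,0]]⟩]⟩,
  ⟨⟨1, [(0,1),(0,3),(0,1),(1,1),(2,1)], [[(0,1),(0,3),(0,1),(0,1),(1,1)]], F.fb⟩, [1,3,1,1,5],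
    [⟨4,0,[1,3,2,1,0],[1,3,1,1,5],[0,0,0,1,0],[0,0,0,0,0],[[0,0,0,0,1],[0,0,1,0,0],[0,0,0,2,0],[0,4,0,1,0],[1,3,0,1,0]]⟩,
     ⟨4,0,[1,1,2,1,0],[9,3,1,1,5],[0,0,0,1,0],[0,0,0,0,0],[[0,0,0,0,1],[0,0,1,0,0],[0,0,0,2,0],[1,1,0,1,0],[0,4,0,1,0]]⟩]⟩,
  ⟨⟨1, [(0,1),(0,3),(1,1),(0,1),(2,1)], [[(0,1),(0,3),(0,1),(0,1),(1,1)]], F.fb⟩, [1,3,1,1,5],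
    [⟨4,0,[1,3,1,2,0],[1,3,1,1,5],[0,0,1,0,0],[0,0,0,0,0],[[0,0,0,0,1],[0,0,0,1,0],[0,0,2,0,0],[0,4,1,0,0],[1,3,1,0,0]]⟩,
     ⟨4,0,[1,1,1,2,0],[9,3,1,1,5],[0,0,1,0,0],[0,0,0,0,0],[[0,0,0,0,1],[0,0,0,1,0],[0,0,2,0,0],[1,1,1,0,0],[0,4,1,0,0]]⟩]⟩,
  ⟨⟨1, [(0,1),(0,3),(0,1),(0,1),(1,1)], [[(0,1),(0,3),(0,1),(0,1),(0,5)],[(0,1),(0,3),(0,1),(0,1),(0,21)]], F.fb⟩, [5,7,5,5,1],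
    [⟨4,0,[1,1,2,0,1],[5,7,5,5,1],[0,0,0,0,1],[0,0,0,0,0],[[0,0,0,1,0],[0,0,1,0,0],[0,0,0,0,2],[1,1,0,0,1],[0,4,0,0,1]]⟩,
     ⟨4,0,[1,3,2,0,1],[13,7,5,5,1],[0,0,0,0,1],[0,0,0,0,0],[[0,0,0,1,0],[0,0,1,0,0],[0,0,0,0,2],[0,4,0,0,1],[1,3,0,0,1]]⟩]⟩]
def T3 : Tree := ⟨[1,3,1,1,5], n3_0, [[(0,1),(0,3),(0,1),(0,1),(0,5)],[(0,1),(0,3),(0,1),(0,1),(0,21)]]⟩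
def n4_0 : List NX := [
  ⟨⟨1, [(0,1),(1,1),(2,1),(3,1),(4,1)], [[(0,1),(0,7),(1,1),(2,1),(3,1)],[(0,1),(0,15),(1,1),(2,1),(3,1)]], F.fb⟩, [7,1,7,7,3],
    [⟨2,0,[1,1,1,0,1],[7,1,7,7,3],[0,1,0,0,0],[0,0,0,0,0],[[0,0,0,0,2],[0,0,0,2,0],[0,0,2,0,0],[2,2,0,0,0],[1,1,1,0,1]]⟩,
     ⟨2,1,[1,1,1,1,0],[15,1,7,7,3],[0,1,0,0,0],[0,0,0,0,0],[[0,0,0,0,2],[0,0,0,2,0],[0,0,2,0,0],[2,2,0,0,0],[5,1,1,1,0]]⟩]⟩,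
  ⟨⟨3, [(0,1),(0,7),(1,1),(2,1),(3,1)], [[(0,1),(0,7),(1,1),(0,1),(0,5)]], F.fb⟩, [5,3,5,5,1],
    [⟨4,0,[1,1,2,1,1],[5,3,5,5,1],[0,0,0,0,1],[0,0,0,0,0],[[0,0,1,0,0],[0,0,0,0,2],[0,0,0,1,1],[1,1,0,0,0],[0,4,0,0,1]]⟩,
     ⟨4,0,[1,3,2,1,1],[13,3,5,5,1],[0,0,0,0,1],[0,0,0,0,0],[[0,0,1,0,0],[0,0,0,0,2],[0,0,0,1,1],[1,3,0,0,0],[3,1,0,0,0],[0,4,0,0,1]]⟩]⟩,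
  ⟨⟨3, [(0,1),(0,15),(1,1),(2,1),(3,1)], [[(0,1),(0,15),(1,1),(2,1),(0,5)]], F.fb⟩, [5,3,5,5,1],
    [⟨4,0,[0,2,2,2,1],[5,3,5,5,1],[0,0,0,0,1],[0,0,0,0,0],[[0,0,0,1,0],[0,0,1,0,0],[0,0,0,0,2],[2,0,0,0,0],[0,2,0,0,1]]⟩,
     ⟨4,0,[1,3,2,1,1],[13,3,5,5,1],[0,0,0,0,1],[0,0,0,0,0],[[0,0,1,0,0],[0,0,0,0,2],[0,0,0,1,1],[1,3,0,0,0],[3,1,0,0,0],[0,4,0,0,1]]⟩]⟩,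
  ⟨⟨0, [(0,1),(0,15),(1,1),(2,1),(0,5)], [[(0,1),(0,15),(0,1),(0,1),(0,5)],[(0,1),(0,15),(1,1),(0,1),(0,5)]], F.fb⟩, [1,7,1,1,5],
    [⟨2,0,[1,1,1,0,1],[1,7,1,1,5],[1,0,0,0,0],[0,0,0,0,0],[[0,0,0,0,2],[0,0,0,2,0],[0,0,2,0,0],[2,2,0,0,0],[1,1,1,0,1]]⟩,
     ⟨4,0,[1,3,2,1,1],[9,7,1,1,5],[0,0,0,0,1],[0,0,0,0,0],[[0,0,1,0,0],[0,0,0,0,2],[0,0,0,1,1],[1,3,0,0,0],[3,1,0,0,0],[0,4,0,0,1]]⟩]⟩,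
  ⟨⟨0, [(0,1),(0,7),(1,1),(0,1),(0,5)], [[(0,1),(0,7),(0,1),(0,1),(0,5)]], F.fb⟩, [1,7,1,1,5],
    [⟨4,0,[1,1,1,2,1],[1,7,1,1,5],[0,0,0,0,1],[0,0,0,0,0],[[0,0,0,1,0],[0,0,0,0,2],[0,0,1,0,1],[1,1,0,0,0],[0,4,0,0,1]]⟩,
     ⟨2,1,[1,1,0,1,1],[9,7,1,1,5],[1,0,0,0,0],[0,0,0,0,0],[[0,0,0,0,2],[0,0,0,2,0],[0,0,2,0,0],[2,2,0,0,0],[5,1,0,1,1]]⟩]⟩,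
  ⟨⟨0, [(0,1),(0,15),(1,1),(0,1),(0,5)], [[(0,1),(0,15),(0,1),(0,1),(0,5)]], F.fb⟩, [1,7,1,1,5],
    [⟨2,0,[1,1,0,1,1],[1,7,1,1,5],[1,0,0,0,0],[0,0,0,0,0],[[0,0,0,0,2],[0,0,0,2,0],[0,0,2,0,0],[2,2,0,0,0],[1,1,0,1,1]]⟩,
     ⟨4,0,[1,3,1,2,1],[9,7,1,1,5],[0,0,0,0,1],[0,0,0,0,0],[[0,0,0,1,0],[0,0,0,0,2],[0,0,1,0,1],[1,3,0,0,0],[3,1,0,0,0],[0,4,0,0,1]]⟩]⟩,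
  ⟨⟨0, [(0,1),(0,7),(0,1),(0,1),(0,5)], [], F.fb⟩, [1,7,1,1,5],
    [⟨4,0,[0,2,2,2,1],[1,7,1,1,5],[0,1,0,0,0],[0,0,0,0,0],[[0,0,0,1,0],[0,0,1,0,0],[0,0,0,0,2],[2,0,0,0,0],[0,2,0,0,1]]⟩]⟩]
def T4 : Tree := ⟨[1,7,1,1,5], n4_0, [[(0,1),(0,15),(0,1),(0,1),(0,5)]]⟩
def n5_0 : List NX := [
  ⟨⟨1, [(0,1),(1,1),(2,1),(3,1),(4,1)], [[(0,1),(0,3),(0,1),(1,1),(2,1)],[(0,1),(0,3),(1,1),(2,1),(3,1)]], F.fb⟩, [3,1,3,7,7],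
    [⟨2,1,[1,1,1,1,1],[3,1,3,7,7],[0,1,0,0,0],[0,0,0,0,0],[[0,0,0,0,2],[0,0,0,2,0],[0,0,2,0,0],[2,2,0,0,0],[5,1,1,1,1]]⟩,
     ⟨2,0,[1,1,1,1,1],[11,1,3,7,7],[0,1,0,0,0],[0,0,0,0,0],[[0,0,0,0,2],[0,0,0,2,0],[0,0,2,0,0],[2,2,0,0,0],[1,1,1,1,1]]⟩]⟩,
  ⟨⟨1, [(0,1),(0,3),(1,1),(2,1),(3,1)], [[(0,1),(0,3),(0,1),(1,1),(2,1)]], F.fb⟩, [1,3,1,5,5],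
    [⟨4,0,[1,3,1,2,0],[1,3,1,5,5],[0,0,1,0,0],[0,0,0,0,0],[[0,0,0,0,1],[0,0,0,1,0],[0,0,2,0,0],[0,4,1,0,0],[1,3,1,0,0]]⟩,
     ⟨4,0,[1,1,1,2,2],[9,3,1,5,5],[0,0,1,0,0],[0,0,0,0,0],[[0,0,0,0,1],[0,0,0,1,0],[0,0,2,0,0],[1,1,1,0,0],[0,4,1,0,0]]⟩]⟩,
  ⟨⟨1, [(0,1),(0,3),(0,1),(1,1),(2,1)], [[(0,1),(0,3),(0,1),(0,5),(1,1)],[(0,1),(0,3),(0,1),(0,21),(1,1)]], F.fb⟩, [5,7,5,1,1],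
    [⟨4,0,[1,1,2,1,0],[5,7,5,1,1],[0,0,0,1,0],[0,0,0,0,0],[[0,0,0,0,1],[0,0,1,0,0],[0,0,0,2,0],[1,1,0,1,0],[0,4,0,1,0]]⟩,
     ⟨4,0,[1,3,2,1,0],[13,7,5,1,1],[0,0,0,1,0],[0,0,0,0,0],[[0,0,0,0,1],[0,0,1,0,0],[0,0,0,2,0],[0,4,0,1,0],[1,3,0,1,0]]⟩]⟩,
  ⟨⟨1, [(0,1),(0,3),(0,1),(0,5),(1,1)], [[(0,1),(0,3),(0,1),(0,5),(0,5)]], F.fb⟩, [5,7,5,1,1],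
    [⟨4,0,[1,3,1,1,1],[5,7,5,1,1],[0,0,0,0,1],[0,0,0,0,0],[[0,0,0,0,2],[0,0,0,1,1],[0,0,1,0,1],[0,4,0,0,1],[1,3,0,0,1]]⟩,
     ⟨4,0,[1,1,1,1,1],[13,7,5,1,1],[0,0,0,0,1],[0,0,0,0,0],[[0,0,0,0,2],[0,0,0,1,1],[0,0,1,0,1],[1,1,0,0,1],[0,4,0,0,1]]⟩]⟩,
  ⟨⟨1, [(0,1),(0,3),(0,1),(0,21),(1,1)], [[(0,1),(0,3),(0,1),(0,21),(0,21)]], F.fb⟩, [5,7,5,1,1],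
    [⟨4,0,[1,3,1,1,1],[5,7,5,1,1],[0,0,0,0,1],[0,0,0,0,0],[[0,0,0,0,2],[0,0,0,1,1],[0,0,1,0,1],[0,4,0,0,1],[1,3,0,0,1]]⟩,
     ⟨4,0,[1,1,1,1,1],[13,7,5,1,1],[0,0,0,0,1],[0,0,0,0,0],[[0,0,0,0,2],[0,0,0,1,1],[0,0,1,0,1],[1,1,0,0,1],[0,4,0,0,1]]⟩]⟩]
def T5 : Tree := ⟨[1,3,1,5,5], n5_0, [[(0,1),(0,3),(0,1),(0,5),(0,5)],[(0,1),(0,3),(0,1),(0,21),(0,21)]]⟩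
def n6_0 : List NX := [
  ⟨⟨1, [(0,1),(1,1),(2,1),(3,1),(4,1)], [[(0,1),(0,7),(1,1),(2,1),(3,1)],[(0,1),(0,15),(1,1),(2,1),(3,1)]], F.fb⟩, [7,1,7,3,3],
    [⟨2,0,[1,1,1,1,0],[7,1,7,3,3],[0,1,0,0,0],[0,0,0,0,0],[[0,0,0,0,2],[0,0,0,2,0],[0,0,2,0,0],[2,2,0,0,0],[1,1,1,1,0]]⟩,
     ⟨2,1,[1,1,1,1,0],[15,1,7,3,3],[0,1,0,0,0],[0,0,0,0,0],[[0,0,0,0,2],[0,0,0,2,0],[0,0,2,0,0],[2,2,0,0,0],[5,1,1,1,0]]⟩]⟩,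
  ⟨⟨0, [(0,1),(0,7),(1,1),(2,1),(3,1)], [[(0,1),(0,7),(0,1),(1,1),(2,1)]], F.fb⟩, [1,7,1,5,5],
    [⟨4,0,[2,0,1,1,1],[1,7,1,5,5],[1,0,0,0,0],[0,0,0,0,0],[[0,0,0,0,2],[0,0,0,1,1],[0,0,1,0,1],[0,2,0,0,0],[2,0,0,0,1]]⟩,
     ⟨2,1,[1,1,1,1,0],[9,7,1,5,5],[1,0,0,0,0],[0,0,0,0,0],[[0,0,0,0,2],[0,0,0,2,0],[0,0,2,0,0],[2,2,0,0,0],[5,1,1,1,0]]⟩]⟩,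
  ⟨⟨0, [(0,1),(0,15),(1,1),(2,1),(3,1)], [[(0,1),(0,15),(0,1),(1,1),(2,1)]], F.fb⟩, [1,7,1,5,5],
    [⟨2,0,[1,1,1,1,0],[1,7,1,5,5],[1,0,0,0,0],[0,0,0,0,0],[[0,0,0,0,2],[0,0,0,2,0],[0,0,2,0,0],[2,2,0,0,0],[1,1,1,1,0]]⟩,
     ⟨4,0,[2,0,1,1,1],[9,7,1,5,5],[1,0,0,0,0],[0,0,0,0,0],[[0,0,0,0,2],[0,0,0,1,1],[0,0,1,0,1],[0,2,0,0,0],[2,0,0,0,1]]⟩]⟩,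
  ⟨⟨0, [(0,1),(0,7),(0,1),(1,1),(2,1)], [[(0,1),(0,7),(0,1),(1,1),(0,5)]], F.fb⟩, [1,7,1,5,5],
    [⟨4,0,[1,1,1,2,1],[1,7,1,5,5],[0,0,1,0,0],[0,0,0,0,0],[[0,0,0,1,0],[0,0,0,0,2],[0,0,1,0,1],[1,1,0,0,0],[0,4,0,0,1]]⟩,
     ⟨2,1,[1,1,1,1,0],[9,7,1,5,5],[1,0,0,0,0],[0,0,0,0,0],[[0,0,0,0,2],[0,0,0,2,0],[0,0,2,0,0],[2,2,0,0,0],[5,1,1,1,0]]⟩]⟩,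
  ⟨⟨0, [(0,1),(0,15),(0,1),(1,1),(2,1)], [[(0,1),(0,15),(0,1),(0,5),(1,1)]], F.fb⟩, [1,7,1,5,5],
    [⟨2,0,[1,1,1,1,0],[1,7,1,5,5],[1,0,0,0,0],[0,0,0,0,0],[[0,0,0,0,2],[0,0,0,2,0],[0,0,2,0,0],[2,2,0,0,0],[1,1,1,1,0]]⟩,
     ⟨4,0,[1,3,1,1,0],[9,7,1,5,5],[0,0,1,0,0],[0,0,0,0,0],[[0,0,0,0,1],[0,0,0,2,0],[0,0,1,1,0],[1,3,0,0,0],[3,1,0,0,0],[0,4,0,1,0]]⟩]⟩,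
  ⟨⟨0, [(0,1),(0,15),(0,1),(0,5),(1,1)], [[(0,1),(0,15),(0,1),(0,5),(0,5)]], F.fb⟩, [1,7,1,5,5],
    [⟨2,0,[1,1,1,1,0],[1,7,1,5,5],[1,0,0,0,0],[0,0,0,0,0],[[0,0,0,0,2],[0,0,0,2,0],[0,0,2,0,0],[2,2,0,0,0],[1,1,1,1,0]]⟩,
     ⟨4,0,[1,3,1,2,1],[9,7,1,5,5],[0,0,1,0,0],[0,0,0,0,0],[[0,0,0,1,0],[0,0,0,0,2],[0,0,1,0,1],[1,3,0,0,0],[3,1,0,0,0],[0,4,0,0,1]]⟩]⟩,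
  ⟨⟨0, [(0,1),(0,7),(0,1),(1,1),(0,5)], [], F.fb⟩, [1,7,1,5,5],
    [⟨4,0,[0,2,2,0,1],[1,7,1,5,5],[0,0,0,0,2],[0,1,0,0,0],[[0,0,0,1,0],[0,0,1,0,0],[0,0,0,0,2],[2,0,0,0,0],[0,2,0,0,1]]⟩,
     ⟨2,1,[1,1,1,0,1],[9,7,1,5,5],[1,0,0,0,0],[0,0,0,0,0],[[0,0,0,0,2],[0,0,0,2,0],[0,0,2,0,0],[2,2,0,0,0],[5,1,1,0,1]]⟩]⟩]
def T6 : Tree := ⟨[1,7,1,5,5], n6_0, [[(0,1),(0,15),(0,1),(0,5),(0,5)]]⟩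
def n7_0 : List NX := [
  ⟨⟨0, [(0,1),(1,1),(2,1),(3,1),(4,1)], [[(0,1),(0,3),(1,1),(2,1),(3,1)]], F.fb⟩, [1,3,5,5,5],
    [⟨2,0,[1,1,1,1,1],[1,3,5,5,5],[1,0,0,0,0],[0,0,0,0,0],[[0,0,0,0,2],[0,0,0,2,0],[0,0,2,0,0],[2,2,0,0,0],[1,1,1,1,1]]⟩,
     ⟨2,1,[1,1,1,1,1],[9,3,5,5,5],[1,0,0,0,0],[0,0,0,0,0],[[0,0,0,0,2],[0,0,0,2,0],[0,0,2,0,0],[2,2,0,0,0],[5,1,1,1,1]]⟩]⟩,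
  ⟨⟨1, [(0,1),(0,3),(1,1),(2,1),(3,1)], [[(0,1),(0,3),(0,5),(1,1),(2,1)],[(0,1),(0,3),(0,21),(1,1),(2,1)]], F.fb⟩, [5,7,1,1,1],
    [⟨4,0,[1,1,1,2,0],[5,7,1,1,1],[0,0,1,0,0],[0,0,0,0,0],[[0,0,0,0,1],[0,0,0,1,0],[0,0,2,0,0],[1,1,1,0,0],[0,4,1,0,0]]⟩,
     ⟨4,0,[1,3,1,2,0],[13,7,1,1,1],[0,0,1,0,0],[0,0,0,0,0],[[0,0,0,0,1],[0,0,0,1,0],[0,0,2,0,0],[0,4,1,0,0],[1,3,1,0,0]]⟩]⟩,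
  ⟨⟨1, [(0,1),(0,3),(0,5),(1,1),(2,1)], [[(0,1),(0,3),(0,5),(0,5),(1,1)],[(0,1),(0,3),(0,5),(0,21),(1,1)]], F.fb⟩, [5,7,1,1,1],
    [⟨4,0,[1,1,2,1,0],[5,7,1,1,1],[0,0,0,1,0],[0,0,0,0,0],[[0,0,0,0,1],[0,0,1,0,0],[0,0,0,2,0],[1,1,0,1,0],[0,4,0,1,0]]⟩,
     ⟨4,0,[1,3,2,1,0],[13,7,1,1,1],[0,0,0,1,0],[0,0,0,0,0],[[0,0,0,0,1],[0,0,1,0,0],[0,0,0,2,0],[0,4,0,1,0],[1,3,0,1,0]]⟩]⟩,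
  ⟨⟨1, [(0,1),(0,3),(0,21),(1,1),(2,1)], [[(0,1),(0,3),(0,21),(0,21),(1,1)],[(0,1),(0,3),(0,21),(1,1),(1,1)]], F.fb⟩, [5,7,1,1,1],
    [⟨4,0,[1,1,2,1,0],[5,7,1,1,1],[0,0,0,1,0],[0,0,0,0,0],[[0,0,0,0,1],[0,0,1,0,0],[0,0,0,2,0],[1,1,0,1,0],[0,4,0,1,0]]⟩,
     ⟨4,0,[1,1,1,1,1],[13,7,1,1,1],[0,0,0,1,0],[0,0,0,0,0],[[0,0,0,0,2],[0,0,0,1,1],[0,0,1,0,1],[1,1,0,0,1],[0,4,0,0,1]]⟩]⟩,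
  ⟨⟨0, [(0,1),(0,3),(0,5),(0,5),(1,1)], [[(0,1),(0,3),(0,5),(0,5),(0,5)]], F.fb⟩, [1,3,5,5,5],
    [⟨4,0,[1,1,1,1,1],[1,3,5,5,5],[1,3,0,0,0],[0,0,0,0,0],[[0,0,0,0,2],[0,0,0,1,1],[0,0,1,0,1],[1,1,0,0,1],[0,4,0,0,1]]⟩,
     ⟨4,0,[1,1,1,2,0],[9,3,5,5,5],[1,3,0,0,0],[0,0,0,0,0],[[0,0,0,0,1],[0,0,0,1,0],[0,0,2,0,0],[1,1,1,0,0],[0,4,1,0,0]]⟩]⟩,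
  ⟨⟨1, [(0,1),(0,3),(0,5),(0,21),(1,1)], [[(0,1),(0,3),(0,5),(0,21),(0,5)],[(0,1),(0,3),(0,5),(0,21),(0,21)]], F.fb⟩, [5,7,1,1,1],
    [⟨4,0,[1,1,2,0,1],[5,7,1,1,1],[0,0,0,0,1],[0,0,0,0,0],[[0,0,0,1,0],[0,0,1,0,0],[0,0,0,0,2],[1,1,0,0,1],[0,4,0,0,1]]⟩,
     ⟨4,0,[1,1,1,1,1],[13,7,1,1,1],[0,0,0,0,1],[0,0,0,0,0],[[0,0,0,0,2],[0,0,0,1,1],[0,0,1,0,1],[1,1,0,0,1],[0,4,0,0,1]]⟩]⟩,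
  ⟨⟨1, [(0,1),(0,3),(0,21),(0,21),(1,1)], [[(0,1),(0,3),(0,21),(0,21),(0,21)]], F.fb⟩, [5,7,1,1,1],
    [⟨4,0,[1,3,1,1,1],[5,7,1,1,1],[0,0,0,0,1],[0,0,0,0,0],[[0,0,0,0,2],[0,0,0,1,1],[0,0,1,0,1],[0,4,0,0,1],[1,3,0,0,1]]⟩,
     ⟨4,0,[1,1,1,1,1],[13,7,1,1,1],[0,0,0,0,1],[0,0,0,0,0],[[0,0,0,0,2],[0,0,0,1,1],[0,0,1,0,1],[1,1,0,0,1],[0,4,0,0,1]]⟩]⟩,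
  ⟨⟨0, [(0,1),(0,3),(0,21),(1,1),(1,1)], [[(0,1),(0,3),(0,21),(0,21),(0,21)]], F.fb⟩, [1,3,5,5,5],
    [⟨4,0,[1,1,1,1,1],[1,3,5,5,5],[1,3,0,0,0],[0,0,0,0,0],[[0,0,0,0,2],[0,0,0,1,1],[0,0,1,0,1],[1,1,0,0,1],[0,4,0,0,1]]⟩,
     ⟨4,0,[1,1,1,2,0],[9,3,5,5,5],[1,3,0,0,0],[0,0,0,0,0],[[0,0,0,0,1],[0,0,0,1,0],[0,0,2,0,0],[1,1,1,0,0],[0,4,1,0,0]]⟩]⟩,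
  ⟨⟨0, [(0,1),(0,3),(0,5),(0,21),(0,5)], [], F.fb⟩, [1,3,5,5,5],
    [⟨4,0,[1,1,1,1,1],[1,3,5,5,5],[1,3,0,0,0],[0,0,0,0,0],[[0,0,0,0,2],[0,0,0,1,1],[0,0,1,0,1],[1,1,0,0,1],[0,4,0,0,1]]⟩]⟩,
  ⟨⟨0, [(0,1),(0,3),(0,5),(0,21),(0,21)], [], F.fb⟩, [1,3,5,5,5],
    [⟨4,0,[1,1,1,1,1],[1,3,5,5,5],[1,3,0,0,0],[0,0,0,0,0],[[0,0,0,0,2],[0,0,0,1,1],[0,0,1,0,1],[1,1,0,0,1],[0,4,0,0,1]]⟩]⟩]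
def T7 : Tree := ⟨[1,3,5,5,5], n7_0, [[(0,1),(0,3),(0,5),(0,5),(0,5)],[(0,1),(0,3),(0,21),(0,21),(0,21)]]⟩
def trees : List Tree := [T0, T1, T2, T3, T4, T5, T6, T7]
def cands : List (List Nat × Nat) := [([1,3,1,1,1], 1), ([1,3,1,1,5], 1), ([1,3,1,1,21], 1), ([1,3,1,1,21], 3), ([1,3,1,5,5], 1), ([1,3,1,5,5], 5), ([1,3,1,21,21], 1), ([1,3,1,21,21], 3), ([1,3,1,21,21], 7), ([1,3,1,21,21], 21), ([1,3,5,5,5], 1), ([1,3,5,5,5], 5), ([1,3,21,21,21], 3), ([1,3,21,21,21], 21), ([1,7,1,1,1], 1), ([1,7,3,3,3], 1), ([1,7,3,3,3], 3), ([1,15,1,1,1], 1), ([1,15,1,1,5], 1), ([1,15,1,1,5], 5), ([1,15,1,5,5], 1), ([1,15,1,5,5], 5), ([1,15,3,3,3], 3)]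
def cert : List (Nat × Nat) := [(0,0),(0,6),(0,0),(1,6),(0,0),(0,0),(2,6),(0,0),(0,0),(2,0),(0,0),(7,6),(1,0),(0,0),(7,0),(0,0),(0,0),(0,0),(0,0),(0,0),(0,0),(0,0),(0,0),(0,0),(0,0),(0,0),(0,0),(0,0),(0,0),(0,0),(0,0),(0,0),(0,0),(3,9),(0,0),(4,9),(3,3),(0,0),(6,0),(0,0),(0,0),(6,6),(0,0),(5,6),(4,3),(0,0),(5,0),(0,0),(0,0),(0,0),(0,0),(0,0),(0,0),(0,0),(0,0),(0,0),(0,0),(0,0),(0,0),(0,0),(0,0),(0,0),(0,0),(0,0),(0,0),(0,0),(0,0),(0,0),(0,0),(0,0),(0,0),(0,0),(0,0),(0,0),(0,0),(0,0),(0,0),(0,0),(0,0),(0,0),(0,0),(0,0),(0,0),(0,0),(0,0),(0,0),(0,0),(0,0),(0,0),(0,0),(0,0),(0,0),(0,0),(0,0),(0,0),(0,0),(0,0),(0,0),(0,0),(0,0),(0,0),(0,0),(0,0),(0,0),(0,0),(0,0),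(0,0),(0,0),(0,0),(0,0),(0,0),(0,0),(0,0),(0,0),(0,0),(0,0),(0,0),(0,0),(0,0),(0,0),(0,0),(0,0),(0,0),(0,0),(0,0),(0,0),(0,0),(0,0),(0,0),(3,7),(0,0),(4,7),(3,1),(0,0),(6,2),(0,0),(0,0),(6,8),(0,0),(5,8),(4,1),(0,0),(5,2),(0,0),(0,0),(0,0),(0,0),(0,0),(0,0),(0,0),(0,0),(0,0),(0,0),(0,0),(0,0),(0,0),(0,0),(0,0),(0,0),(0,0),(0,0),(5,10),(0,0),(6,10),(5,4),(0,0),(4,0),(0,0),(0,0),(4,6),(0,0),(3,6),(6,4),(0,0),(3,0),(0,0),(0,0),(0,0),(0,0),(0,0),(0,0),(0,0),(0,0),(0,0),(0,0),(0,0),(0,0),(0,0),(0,0),(0,0),(0,0),(0,0),(0,0),(0,0),(0,0),(0,0),(0,0),(0,0),(0,0),(0,0),(0,0),(0,0),(0,0),(0,0),(0,0),(0,0),(0,0),(0,0),(0,0),(0,0),(0,0),(0,0),(0,0),(0,0),(0,0),(0,0),(0,0),(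0,0),(0,0),(0,0),(0,0),(0,0),(0,0),(0,0),(0,0),(0,0),(0,0),(0,0),(0,0),(0,0),(0,0),(0,0),(0,0),(0,0),(0,0),(0,0),(0,0),(0,0),(0,0),(0,0),(0,0),(0,0),(0,0),(0,0),(0,0),(0,0),(0,0),(0,0),(0,0),(0,0),(0,0),(0,0),(0,0),(0,0),(0,0),(0,0),(0,0),(0,0),(0,0),(0,0),(0,0),(0,0),(0,0),(0,0),(0,0),(0,0),(0,0),(0,0),(0,0),(0,0),(0,0),(0,0),(0,0),(0,0),(0,0),(0,0),(0,0),(0,0),(0,0),(0,0),(0,0),(0,0),(0,0),(0,0),(0,0),(0,0),(0,0),(0,0),(0,0),(0,0),(0,0),(0,0),(0,0),(0,0),(0,0),(0,0),(0,0),(0,0),(0,0),(0,0),(0,0),(0,0),(0,0),(0,0),(0,0),(0,0),(0,0),(0,0),(0,0),(0,0),(0,0),(0,0),(0,0),(0,0),(0,0),(0,0),(0,0),(0,0),(0,0),(0,0),(0,0),(0,0),(0,0),(0,0),(0,0),(0,0),(0,0),(0,0),(0,0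),(0,0),(0,0),(0,0),(0,0),(0,0),(0,0),(0,0),(0,0),(0,0),(0,0),(2,6),(0,6),(0,0),(1,6),(0,0),(0,0),(1,0),(0,0),(7,0),(2,0),(0,0),(7,6),(0,0),(0,0),(0,0),(0,0),(0,0),(0,0),(0,0),(0,0),(0,0),(0,0),(0,0),(0,0),(0,0),(0,0),(0,0),(0,0),(0,0),(0,0),(3,3),(0,0),(6,0),(3,9),(0,0),(4,9),(0,0),(0,0),(4,3),(0,0),(5,0),(6,6),(0,0),(5,6),(0,0),(0,0),(0,0),(0,0),(0,0),(0,0),(0,0),(0,0),(0,0),(0,0),(0,0),(0,0),(0,0),(0,0),(0,0),(0,0),(0,0),(0,0),(0,0),(0,0),(0,0),(0,0),(0,0),(0,0),(0,0),(0,0),(0,0),(0,0),(0,0),(0,0),(0,0),(0,0),(0,0),(0,0),(0,0),(0,0),(0,0),(0,0),(0,0),(0,0),(0,0),(0,0),(0,0),(0,0),(0,0),(0,0),(0,0),(0,0),(0,0),(0,0),(0,0),(0,0),(0,0),(0,0),(0,0),(0,0),(0,0),(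0,0),(0,0),(0,0),(0,0),(0,0),(0,0),(0,0),(0,0),(0,0),(0,0),(0,0),(0,0),(0,0),(0,0),(0,0),(0,0),(0,0),(0,0),(0,0),(0,0),(0,0),(0,0),(0,0),(0,0),(0,0),(3,1),(0,0),(6,2),(3,7),(0,0),(4,7),(0,0),(0,0),(4,1),(0,0),(5,2),(6,8),(0,0),(5,8),(0,0),(0,0),(0,0),(0,0),(0,0),(0,0),(0,0),(0,0),(0,0),(0,0),(0,0),(0,0),(0,0),(0,0),(0,0),(0,0),(0,0),(0,0),(5,4),(0,0),(4,0),(5,10),(0,0),(6,10),(0,0),(0,0),(6,4),(0,0),(3,0),(4,6),(0,0),(3,6),(0,0),(0,0),(3,6),(0,0),(4,6),(3,0),(0,0),(6,4),(0,0),(0,0),(6,10),(0,0),(5,10),(4,0),(0,0),(5,4),(0,0),(0,0),(0,0),(0,0),(0,0),(0,0),(0,0),(0,0),(0,0),(0,0),(0,0),(0,0),(0,0),(0,0),(0,0),(0,0),(0,0),(0,0),(5,8),(0,0),(6,8),(5,2),(0,0),(4,1),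(0,0),(0,0),(4,7),(0,0),(3,7),(6,2),(0,0),(3,1),(0,0),(0,0),(0,0),(0,0),(0,0),(0,0),(0,0),(0,0),(0,0),(0,0),(0,0),(0,0),(0,0),(0,0),(0,0),(0,0),(0,0),(0,0),(0,0),(0,0),(0,0),(0,0),(0,0),(0,0),(0,0),(0,0),(0,0),(0,0),(0,0),(0,0),(0,0),(0,0),(0,0),(0,0),(0,0),(0,0),(0,0),(0,0),(0,0),(0,0),(0,0),(0,0),(0,0),(0,0),(0,0),(0,0),(0,0),(0,0),(0,0),(0,0),(0,0),(0,0),(0,0),(0,0),(0,0),(0,0),(0,0),(0,0),(0,0),(0,0),(0,0),(0,0),(0,0),(0,0),(0,0),(0,0),(0,0),(0,0),(0,0),(0,0),(0,0),(0,0),(0,0),(0,0),(0,0),(0,0),(0,0),(0,0),(0,0),(0,0),(0,0),(0,0),(5,6),(0,0),(6,6),(5,0),(0,0),(4,3),(0,0),(0,0),(4,9),(0,0),(3,9),(6,0),(0,0),(3,3),(0,0),(0,0),(0,0),(0,0),(0,0),(0,0),(0,0),(0,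0),(0,0),(0,0),(0,0),(0,0),(0,0),(0,0),(0,0),(0,0),(0,0),(0,0),(7,6),(0,0),(2,0),(7,0),(0,0),(1,0),(0,0),(0,0),(1,6),(0,0),(0,6),(2,6),(0,0),(0,0),(0,0),(0,0),(0,0),(0,0),(0,0),(0,0),(0,0),(0,0),(0,0),(0,0),(0,0),(0,0),(0,0),(0,0),(0,0),(0,0),(0,0),(0,0),(0,0),(0,0),(0,0),(0,0),(0,0),(0,0),(0,0),(0,0),(0,0),(0,0),(0,0),(0,0),(0,0),(0,0),(0,0),(0,0),(0,0),(0,0),(0,0),(0,0),(0,0),(0,0),(0,0),(0,0),(0,0),(0,0),(0,0),(0,0),(0,0),(0,0),(0,0),(0,0),(0,0),(0,0),(0,0),(0,0),(0,0),(0,0),(0,0),(0,0),(0,0),(0,0),(0,0),(0,0),(0,0),(0,0),(0,0),(0,0),(0,0),(0,0),(0,0),(0,0),(0,0),(0,0),(0,0),(0,0),(0,0),(0,0),(0,0),(0,0),(0,0),(0,0),(0,0),(0,0),(0,0),(0,0),(0,0),(0,0),(0,0),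(0,0),(0,0),(0,0),(0,0),(0,0),(0,0),(0,0),(0,0),(0,0),(0,0),(0,0),(0,0),(0,0),(0,0),(0,0),(0,0),(0,0),(0,0),(0,0),(0,0),(0,0),(0,0),(0,0),(0,0),(0,0),(0,0),(0,0),(0,0),(0,0),(0,0),(0,0),(0,0),(0,0),(0,0),(0,0),(0,0),(0,0),(0,0),(0,0),(0,0),(0,0),(0,0),(0,0),(0,0),(0,0),(0,0),(0,0),(0,0),(0,0),(0,0),(0,0),(0,0),(0,0),(0,0),(0,0),(0,0),(0,0),(0,0),(0,0),(0,0),(0,0),(0,0),(0,0),(0,0),(0,0),(0,0),(0,0),(0,0),(0,0),(0,0),(0,0),(0,0),(0,0),(0,0),(0,0),(3,0),(0,0),(6,4),(3,6),(0,0),(4,6),(0,0),(0,0),(4,0),(0,0),(5,4),(6,10),(0,0),(5,10),(0,0),(0,0),(0,0),(0,0),(0,0),(0,0),(0,0),(0,0),(0,0),(0,0),(0,0),(0,0),(0,0),(0,0),(0,0),(0,0),(0,0),(0,0),(5,2),(0,0),(4,1),(5,8),(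0,0),(6,8),(0,0),(0,0),(6,2),(0,0),(3,1),(4,7),(0,0),(3,7),(0,0),(0,0),(0,0),(0,0),(0,0),(0,0),(0,0),(0,0),(0,0),(0,0),(0,0),(0,0),(0,0),(0,0),(0,0),(0,0),(0,0),(0,0),(0,0),(0,0),(0,0),(0,0),(0,0),(0,0),(0,0),(0,0),(0,0),(0,0),(0,0),(0,0),(0,0),(0,0),(0,0),(0,0),(0,0),(0,0),(0,0),(0,0),(0,0),(0,0),(0,0),(0,0),(0,0),(0,0),(0,0),(0,0),(0,0),(0,0),(0,0),(0,0),(0,0),(0,0),(0,0),(0,0),(0,0),(0,0),(0,0),(0,0),(0,0),(0,0),(0,0),(0,0),(0,0),(0,0),(0,0),(0,0),(0,0),(0,0),(0,0),(0,0),(0,0),(0,0),(0,0),(0,0),(0,0),(0,0),(0,0),(0,0),(0,0),(0,0),(0,0),(0,0),(5,0),(0,0),(4,3),(5,6),(0,0),(6,6),(0,0),(0,0),(6,0),(0,0),(3,3),(4,9),(0,0),(3,9),(0,0),(0,0),(0,0),(0,0),(0,0),(0,0),(0,0),(0,0),(0,0),(0,0),(0,0),(0,0),(0,0),(0,0),(0,0),(0,0),(0,0),(0,0),(7,0),(0,0),(1,0),(7,6),(0,0),(2,0),(0,0),(0,0),(2,6),(0,0),(0,0),(1,6),(0,0),(0,6),(0,0)]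

end RH6.P2
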