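import Pool.Agent.RH6.UDef

/-! The 44 lattices. -/

namespace RH6

/-- the forms `K_i` (`0 ≤ i < 37`: reflective; `37 ≤ i < 44`: non-reflective) -/
def Ks : List (List (List ℤ)) := [
  [[2, 1, 0, 0, 0], [1, 2, 1, 1, 0], [0, 1, 2, 0, 0], [0, 1, 0, 2, 0], [0, 0, 0, 0, 2]],
  [[2, 0, 0, 0, 0], [0, 2, 0, 0, 0], [0, 0, 2, 0, 0], [0, 0, 0, 2, 0], [0, 0, 0, 0, 2]],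
  [[1, 0, 0, 0, 0], [0, 1, 0, 0, 0], [0, 0, 1, 0, 0], [0, 0, 0, 1, 0], [0, 0, 0, 0, 1]],
  [[2, 1, 0, 0, 0], [1, 2, 0, 0, 0], [0, 0, 4, 2, 0], [0, 0, 2, 4, 0], [0, 0, 0, 0, 2]],
  [[4, 2, 0, 0, 0], [2, 4, 0, 0, 0], [0, 0, 2, 0, 0], [0, 0, 0, 2, 0], [0, 0, 0, 0, 6]],
  [[2, 1, 0, 0, 0], [1, 2, 0, 0, 0], [0, 0, 1, 0, 0], [0, 0, 0, 1, 0], [0, 0, 0, 0, 3]],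
  [[2, 1, 0, 0, 0], [1, 2, 0, 0, 0], [0, 0, 2, 1, 0], [0, 0, 1, 2, 0], [0, 0, 0, 0, 2]],
  [[2, 1, 0, 0, 0], [1, 2, 0, 0, 0], [0, 0, 2, 0, 0], [0, 0, 0, 2, 0], [0, 0, 0, 0, 6]],
  [[2, 0, 0, 0, 0], [0, 2, 0, 0, 0], [0, 0, 2, 0, 0], [0, 0, 0, 6, 0], [0, 0, 0, 0, 6]],
  [[1, 0, 0, 0, 0], [0, 1, 0, 0, 0], [0, 0, 1, 0, 0], [0, 0, 0, 3, 0], [0, 0, 0, 0, 3]],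
  [[2, 1, 0, 0, 0], [1, 2, 0, 0, 0], [0, 0, 4, 2, 0], [0, 0, 2, 4, 0], [0, 0, 0, 0, 6]],
  [[4, 2, 0, 0, 0], [2, 4, 0, 0, 0], [0, 0, 2, 0, 0], [0, 0, 0, 6, 0], [0, 0, 0, 0, 6]],
  [[2, 1, 0, 0, 0], [1, 2, 0, 0, 0], [0, 0, 1, 0, 0], [0, 0, 0, 3, 0], [0, 0, 0, 0, 3]],
  [[2, 1, 0, 0, 0], [1, 2, 0, 0, 0], [0, 0, 2, 1, 0], [0, 0, 1, 2, 0], [0, 0, 0, 0, 6]],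
  [[2, 1, 0, 0, 0], [1, 2, 0, 0, 0], [0, 0, 2, 0, 0], [0, 0, 0, 6, 0], [0, 0, 0, 0, 6]],
  [[2, 0, 0, 0, 0], [0, 2, 0, 0, 0], [0, 0, 6, 0, 0], [0, 0, 0, 6, 0], [0, 0, 0, 0, 6]],
  [[1, 0, 0, 0, 0], [0, 1, 0, 0, 0], [0, 0, 3, 0, 0], [0, 0, 0, 3, 0], [0, 0, 0, 0, 3]],
  [[2, 1, 0, 0, 0], [1, 2, 0, 0, 0], [0, 0, 2, 0, 0], [0, 0, 0, 2, 0], [0, 0, 0, 0, 2]],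
  [[2, 0, 0, 0, 0], [0, 2, 0, 0, 0], [0, 0, 2, 0, 0], [0, 0, 0, 2, 0], [0, 0, 0, 0, 6]],
  [[1, 0, 0, 0, 0], [0, 1, 0, 0, 0], [0, 0, 1, 0, 0], [0, 0, 0, 1, 0], [0, 0, 0, 0, 3]],
  [[2, 1, 0, 0, 0], [1, 2, 1, 0, 0], [0, 1, 2, 1, 0], [0, 0, 1, 2, 1], [0, 0, 0, 1, 2]],
  [[2, 1, 0, 0, 0], [1, 2, 1, 1, 0], [0, 1, 2, 0, 0], [0, 1, 0, 4, 0], [0, 0, 0, 0, 2]],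
  [[4, 2, 0, 0, 0], [2, 4, 0, 0, 0], [0, 0, 2, 0, 0], [0, 0, 0, 2, 0], [0, 0, 0, 0, 2]],
  [[2, 1, 0, 0, 0], [1, 2, 0, 0, 0], [0, 0, 1, 0, 0], [0, 0, 0, 1, 0], [0, 0, 0, 0, 1]],
  [[1, 0, 0, 0, 0], [0, 1, 0, 0, 0], [0, 0, 1, 0, 0], [0, 0, 0, 3, 0], [0, 0, 0, 0, 5]],
  [[1, 0, 0, 0, 0], [0, 1, 0, 0, 0], [0, 0, 1, 0, 0], [0, 0, 0, 5, 0], [0, 0, 0, 0, 5]],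
  [[2, 1, 0, 0, 0], [1, 2, 1, 0, 0], [0, 1, 2, 1, 0], [0, 0, 1, 2, 0], [0, 0, 0, 0, 10]],
  [[2, 1, 0, 0, 0], [1, 3, 0, 0, 0], [0, 0, 1, 0, 0], [0, 0, 0, 1, 0], [0, 0, 0, 0, 5]],
  [[1, 0, 0, 0, 0], [0, 1, 0, 0, 0], [0, 0, 5, 0, 0], [0, 0, 0, 5, 0], [0, 0, 0, 0, 5]],
  [[4, 1, 1, -1, 0], [1, 4, -1, 1, 0], [1, -1, 4, 1, 0], [-1, 1, 1, 4, 0], [0, 0, 0, 0, 2]],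
  [[2, 1, 0, 0, 0], [1, 2, 1, 1, 0], [0, 1, 2, 0, 0], [0, 1, 0, 2, 0], [0, 0, 0, 0, 10]],
  [[2, 0, 0, 0, 0], [0, 2, 0, 0, 0], [0, 0, 2, 0, 0], [0, 0, 0, 2, 0], [0, 0, 0, 0, 10]],
  [[1, 0, 0, 0, 0], [0, 1, 0, 0, 0], [0, 0, 1, 0, 0], [0, 0, 0, 1, 0], [0, 0, 0, 0, 5]],
  [[2, 1, 0, 0, 0], [1, 2, 1, 0, 0], [0, 1, 2, 1, 0], [0, 0, 1, 2, 0], [0, 0, 0, 0, 2]],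
  [[2, 1, 0, 0, 0], [1, 3, 0, 0, 0], [0, 0, 1, 0, 0], [0, 0, 0, 1, 0], [0, 0, 0, 0, 1]],
  [[2, 1, 0, 0, 0], [1, 4, 0, 0, 0], [0, 0, 2, 0, 0], [0, 0, 0, 2, 0], [0, 0, 0, 0, 2]],
  [[1, 0, 0, 0, 0], [0, 1, 0, 0, 0], [0, 0, 1, 0, 0], [0, 0, 0, 1, 0], [0, 0, 0, 0, 7]],
  [[2, 1, 0, 0, 0], [1, 2, 0, 0, 0], [0, 0, 1, 0, 0], [0, 0, 0, 1, 0], [0, 0, 0, 0, 15]],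
  [[2, 1, 0, 0, 0], [1, 2, 0, 0, 0], [0, 0, 3, 0, 0], [0, 0, 0, 3, 0], [0, 0, 0, 0, 5]],
  [[1, 0, 0, 0, 0], [0, 1, 0, 0, 0], [0, 0, 1, 0, 0], [0, 0, 0, 1, 0], [0, 0, 0, 0, 15]],
  [[2, 1, 0, 0, 0], [1, 2, 0, 0, 0], [0, 0, 2, 0, 0], [0, 0, 0, 2, 0], [0, 0, 0, 0, 10]],
  [[2, 0, 0, 0, 0], [0, 2, 0, 0, 0], [0, 0, 2, 0, 0], [0, 0, 0, 6, 0], [0, 0, 0, 0, 10]],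
  [[2, 1, 0, 0, 0], [1, 3, 0, 0, 0], [0, 0, 1, 0, 0], [0, 0, 0, 5, 0], [0, 0, 0, 0, 5]],
  [[2, 0, 0, 0, 0], [0, 2, 0, 0, 0], [0, 0, 2, 0, 0], [0, 0, 0, 2, 0], [0, 0, 0, 0, 14]]]

/-- the forms found by the classification -/
def Js : List (List (List ℤ)) := [
  hypL 1 [[2, 1, 0, 0, 0], [1, 2, 1, 1, 0], [0, 1, 2, 0, 0], [0, 1, 0, 2, 0], [0, 0, 0, 0, 2]],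
  hypL 2 [[1, 0, 0, 0, 0], [0, 1, 0, 0, 0], [0, 0, 1, 0, 0], [0, 0, 0, 1, 0], [0, 0, 0, 0, 1]],
  hypL 1 [[1, 0, 0, 0, 0], [0, 1, 0, 0, 0], [0, 0, 1, 0, 0], [0, 0, 0, 1, 0], [0, 0, 0, 0, 1]],
  hypL 1 [[2, 1, 0, 0, 0], [1, 2, 0, 0, 0], [0, 0, 4, 2, 0], [0, 0, 2, 4, 0], [0, 0, 0, 0, 2]],
  hypL 2 [[2, 1, 0, 0, 0], [1, 2, 0, 0, 0], [0, 0, 1, 0, 0], [0, 0, 0, 1, 0], [0, 0, 0, 0, 3]],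
  hypL 1 [[2, 1, 0, 0, 0], [1, 2, 0, 0, 0], [0, 0, 1, 0, 0], [0, 0, 0, 1, 0], [0, 0, 0, 0, 3]],
  hypL 1 [[2, 1, 0, 0, 0], [1, 2, 0, 0, 0], [0, 0, 2, 1, 0], [0, 0, 1, 2, 0], [0, 0, 0, 0, 2]],
  hypL 1 [[2, 1, 0, 0, 0], [1, 2, 0, 0, 0], [0, 0, 2, 0, 0], [0, 0, 0, 2, 0], [0, 0, 0, 0, 6]],
  hypL 2 [[1, 0, 0, 0, 0], [0, 1, 0, 0, 0], [0, 0, 1, 0, 0], [0, 0, 0, 3, 0], [0, 0, 0, 0, 3]],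
  hypL 1 [[1, 0, 0, 0, 0], [0, 1, 0, 0, 0], [0, 0, 1, 0, 0], [0, 0, 0, 3, 0], [0, 0, 0, 0, 3]],
  hypL 1 [[2, 1, 0, 0, 0], [1, 2, 0, 0, 0], [0, 0, 4, 2, 0], [0, 0, 2, 4, 0], [0, 0, 0, 0, 6]],
  hypL 2 [[2, 1, 0, 0, 0], [1, 2, 0, 0, 0], [0, 0, 1, 0, 0], [0, 0, 0, 3, 0], [0, 0, 0, 0, 3]],
  hypL 1 [[2, 1, 0, 0, 0], [1, 2, 0, 0, 0], [0, 0, 1, 0, 0], [0, 0, 0, 3, 0], [0, 0, 0, 0, 3]],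
  hypL 1 [[2, 1, 0, 0, 0], [1, 2, 0, 0, 0], [0, 0, 2, 1, 0], [0, 0, 1, 2, 0], [0, 0, 0, 0, 6]],
  hypL 1 [[2, 1, 0, 0, 0], [1, 2, 0, 0, 0], [0, 0, 2, 0, 0], [0, 0, 0, 6, 0], [0, 0, 0, 0, 6]],
  hypL 2 [[1, 0, 0, 0, 0], [0, 1, 0, 0, 0], [0, 0, 3, 0, 0], [0, 0, 0, 3, 0], [0, 0, 0, 0, 3]],
  hypL 1 [[1, 0, 0, 0, 0], [0, 1, 0, 0, 0], [0, 0, 3, 0, 0], [0, 0, 0, 3, 0], [0, 0, 0, 0, 3]],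
  hypL 1 [[2, 1, 0, 0, 0], [1, 2, 0, 0, 0], [0, 0, 2, 0, 0], [0, 0, 0, 2, 0], [0, 0, 0, 0, 2]],
  hypL 2 [[1, 0, 0, 0, 0], [0, 1, 0, 0, 0], [0, 0, 1, 0, 0], [0, 0, 0, 1, 0], [0, 0, 0, 0, 3]],
  hypL 1 [[1, 0, 0, 0, 0], [0, 1, 0, 0, 0], [0, 0, 1, 0, 0], [0, 0, 0, 1, 0], [0, 0, 0, 0, 3]],
  hypL 1 [[2, 1, 0, 0, 0], [1, 2, 1, 0, 0], [0, 1, 2, 1, 0], [0, 0, 1, 2, 1], [0, 0, 0, 1, 2]],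
  hypL 1 [[2, 1, 0, 0, 0], [1, 2, 1, 1, 0], [0, 1, 2, 0, 0], [0, 1, 0, 4, 0], [0, 0, 0, 0, 2]],
  hypL 2 [[2, 1, 0, 0, 0], [1, 2, 0, 0, 0], [0, 0, 1, 0, 0], [0, 0, 0, 1, 0], [0, 0, 0, 0, 1]],
  hypL 1 [[2, 1, 0, 0, 0], [1, 2, 0, 0, 0], [0, 0, 1, 0, 0], [0, 0, 0, 1, 0], [0, 0, 0, 0, 1]],
  hypL 1 [[1, 0, 0, 0, 0], [0, 1, 0, 0, 0], [0, 0, 1, 0, 0], [0, 0, 0, 3, 0], [0, 0, 0, 0, 5]],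
  hypL 1 [[1, 0, 0, 0, 0], [0, 1, 0, 0, 0], [0, 0, 1, 0, 0], [0, 0, 0, 5, 0], [0, 0, 0, 0, 5]],
  hypL 1 [[2, 1, 0, 0, 0], [1, 2, 1, 0, 0], [0, 1, 2, 1, 0], [0, 0, 1, 2, 0], [0, 0, 0, 0, 10]],
  hypL 1 [[2, 1, 0, 0, 0], [1, 3, 0, 0, 0], [0, 0, 1, 0, 0], [0, 0, 0, 1, 0], [0, 0, 0, 0, 5]],
  hypL 1 [[1, 0, 0, 0, 0], [0, 1, 0, 0, 0], [0, 0, 5, 0, 0], [0, 0, 0, 5, 0], [0, 0, 0, 0, 5]],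
  hypL 1 [[4, 1, 1, -1, 0], [1, 4, -1, 1, 0], [1, -1, 4, 1, 0], [-1, 1, 1, 4, 0], [0, 0, 0, 0, 2]],
  hypL 1 [[2, 1, 0, 0, 0], [1, 2, 1, 1, 0], [0, 1, 2, 0, 0], [0, 1, 0, 2, 0], [0, 0, 0, 0, 10]],
  hypL 2 [[1, 0, 0, 0, 0], [0, 1, 0, 0, 0], [0, 0, 1, 0, 0], [0, 0, 0, 1, 0], [0, 0, 0, 0, 5]],
  hypL 1 [[1, 0, 0, 0, 0], [0, 1, 0, 0, 0], [0, 0, 1, 0, 0], [0, 0, 0, 1, 0], [0, 0, 0, 0, 5]],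
  hypL 1 [[2, 1, 0, 0, 0], [1, 2, 1, 0, 0], [0, 1, 2, 1, 0], [0, 0, 1, 2, 0], [0, 0, 0, 0, 2]],
  hypL 1 [[2, 1, 0, 0, 0], [1, 3, 0, 0, 0], [0, 0, 1, 0, 0], [0, 0, 0, 1, 0], [0, 0, 0, 0, 1]],
  hypL 1 [[2, 1, 0, 0, 0], [1, 4, 0, 0, 0], [0, 0, 2, 0, 0], [0, 0, 0, 2, 0], [0, 0, 0, 0, 2]],
  hypL 1 [[1, 0, 0, 0, 0], [0, 1, 0, 0, 0], [0, 0, 1, 0, 0], [0, 0, 0, 1, 0], [0, 0, 0, 0, 7]],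
  hypL 1 [[2, 1, 0, 0, 0], [1, 2, 0, 0, 0], [0, 0, 1, 0, 0], [0, 0, 0, 1, 0], [0, 0, 0, 0, 15]],
  hypL 1 [[2, 1, 0, 0, 0], [1, 2, 0, 0, 0], [0, 0, 3, 0, 0], [0, 0, 0, 3, 0], [0, 0, 0, 0, 5]],
  hypL 1 [[1, 0, 0, 0, 0], [0, 1, 0, 0, 0], [0, 0, 1, 0, 0], [0, 0, 0, 1, 0], [0, 0, 0, 0, 15]],
  hypL 1 [[2, 1, 0, 0, 0], [1, 2, 0, 0, 0], [0, 0, 2, 0, 0], [0, 0, 0, 2, 0], [0, 0, 0, 0, 10]],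
  hypL 2 [[1, 0, 0, 0, 0], [0, 1, 0, 0, 0], [0, 0, 1, 0, 0], [0, 0, 0, 3, 0], [0, 0, 0, 0, 5]],
  hypL 1 [[2, 1, 0, 0, 0], [1, 3, 0, 0, 0], [0, 0, 1, 0, 0], [0, 0, 0, 5, 0], [0, 0, 0, 0, 5]],
  hypL 2 [[1, 0, 0, 0, 0], [0, 1, 0, 0, 0], [0, 0, 1, 0, 0], [0, 0, 0, 1, 0], [0, 0, 0, 0, 7]]]

theorem Ks_len : Ks.length = 44 := rfl

theorem Js_len : Js.length = 44 := rfl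

end RH6
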