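import Pool.Agent.RH6.T7
import Pool.Agent.RH6.DP2
import Pool.Agent.RH6.LP2
import Pool.Agent.RH6.KDat
import Pool.Agent.RH6.BAll

set_option maxRecDepth 100000

namespace RH6.P2

def bs : List (List ℕ) := [[1, 1, 0, 0, 0], [0, 2, 0, 0, 0], [0, 0, 1, 0, 0], [0, 0, 0, 1, 0], [0, 0, 0, 0, 1]]

def bi : List (List ℤ) := [[2, -1, 0, 0, 0], [0, 1, 0, 0, 0], [0, 0, 2, 0, 0], [0, 0, 0, 2, 0], [0, 0, 0, 0, 2]]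

theorem basis_ok : basisB X.F.As X.F.code bs bi = true := by decide +kernel

def tab : List (List LfC) := [
  [LfC.good 17 [[1, 0, 0, 0, 0, 0, 0], [0, 1, 0, 0, 0, 0, 0], [0, 0, 1, 0, 0, 0, 0], [0, 0, 2, -1, 0, 0, 0], [0, 0, 0, 0, 1, 0, 0], [0, 0, 0, 0, 0, 1, 0], [0, 0, 0, 0, 0, 0, 1]] [[1, 0, 0, 0, 0, 0, 0], [0, 1, 0, 0, 0, 0, 0], [0, 0, 1, 0, 0, 0, 0], [0, 0, 2, -1, 0, 0, 0], [0, 0, 0, 0, 1, 0, 0], [0, 0, 0, 0, 0, 1, 0], [0, 0, 0, 0, 0, 0, 1]]],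
  [LfC.good 40 [[1, 0, 0, 0, 0, 0, 0], [0, 1, 0, 0, 0, 0, 0], [0, 0, 1, 0, 0, 0, 0], [0, 0, 2, -1, 0, 0, 0], [0, 0, 0, 0, 1, 0, 0], [0, 0, 0, 0, 0, 1, 0], [0, 0, 0, 0, 0, 0, 1]] [[1, 0, 0, 0, 0, 0, 0], [0, 1, 0, 0, 0, 0, 0], [0, 0, 1, 0, 0, 0, 0], [0, 0, 2, -1, 0, 0, 0], [0, 0, 0, 0, 1, 0, 0], [0, 0, 0, 0, 0, 1, 0], [0, 0, 0, 0, 0, 0, 1]]],
  [LfC.bad 38],
  [LfC.bad 39],
  [LfC.bad 40],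
  [LfC.bad 41],
  [LfC.bad 42],
  [LfC.bad 43],
  [LfC.bad 44],
  [LfC.bad 45],
  [LfC.bad 46],
  [LfC.bad 47],
  [LfC.bad 48],
  [LfC.bad 49],
  [LfC.good 35 [[1, 0, 0, 0, 0, 0, 0], [0, 1, 0, 0, 0, 0, 0], [0, 0, 0, -1, 0, 0, 0], [0, 0, 1, -2, 0, 0, 0], [0, 0, 0, 0, 1, 0, 0], [0, 0, 0, 0, 0, 1, 0], [0, 0, 0, 0, 0, 0, 1]] [[1, 0, 0, 0, 0, 0, 0], [0, 1, 0, 0, 0, 0, 0], [0, 0, -2, 1, 0, 0, 0], [0, 0, -1, 0, 0, 0, 0], [0, 0, 0, 0, 1, 0, 0], [0, 0, 0, 0, 0, 1, 0], [0, 0, 0, 0, 0, 0, 1]]],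
  [LfC.bad 50],
  [LfC.bad 51],
  [LfC.bad 52],
  [LfC.bad 53],
  [LfC.bad 54],
  [LfC.bad 55],
  [LfC.bad 56],
  [LfC.good 40 [[2, -4, 2, -1, 0, 0, 1], [-2, 3, -1, 1, 0, 0, -1], [3, -7, 2, -1, 0, 0, 2], [0, -5, 0, 0, 0, 0, 1], [0, 0, 0, 0, 0, -1, 0], [0, 0, 0, 0, -1, 0, 0], [-2, 4, -2, 2, 0, 0, -1]] [[3, -4, -3, 1, 0, 0, 2], [-2, 2, 2, -1, 0, 0, -1], [-1, 3, 2, -1, 0, 0, -1], [1, 0, 0, 0, 0, 0, 1], [0, 0, 0, 0, 0, -1, 0], [0, 0, 0, 0, -1, 0, 0], [-10, 10, 10, -4, 0, 0, -5]]]]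

theorem tab_ok : famB Js BD.bads X.F.As bs cands [1] tab = true := by decide +kernel

theorem cand_ok : candB trees cands = true := by decide +kernel

end RH6.P2
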