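import Pool.Agent.RH6.GDef
import Pool.Agent.RH6.TBP2
import Pool.Agent.RH6.HP2_0
import Pool.Agent.RH6.HP2_1
import Pool.Agent.RH6.HP2_2
import Pool.Agent.RH6.HP2_3
import Pool.Agent.RH6.HP2_4
import Pool.Agent.RH6.HP2_5
import Pool.Agent.RH6.HP2_6

namespace RH6.P2

theorem all_app {p : NX → Bool} {a b : List NX} (h : a.all p = true) (h' : b.all p = true) :
    (a ++ b).all p = true := by
  rw [List.all_append, h, h']; rfl

theorem hv0 : T0.nodes.all (nodeHeavy X.F) = true := h_n0_0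

theorem hv1 : T1.nodes.all (nodeHeavy X.F) = true := h_n1_0

theorem hv2 : T2.nodes.all (nodeHeavy X.F) = true := h_n2_0

theorem hv3 : T3.nodes.all (nodeHeavy X.F) = true := h_n3_0

theorem hv4 : T4.nodes.all (nodeHeavy X.F) = true := h_n4_0

theorem hv5 : T5.nodes.all (nodeHeavy X.F) = true := h_n5_0

theorem hv6 : T6.nodes.all (nodeHeavy X.F) = true := h_n6_0

theorem hv7 : T7.nodes.all (nodeHeavy X.F) = true := h_n7_0

theorem heavy : ∀ T ∈ trees, T.nodes.all (nodeHeavy X.F) = true :=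
  List.forall_mem_cons.2 ⟨hv0, 
  List.forall_mem_cons.2 ⟨hv1, 
  List.forall_mem_cons.2 ⟨hv2, 
  List.forall_mem_cons.2 ⟨hv3, 
  List.forall_mem_cons.2 ⟨hv4, 
  List.forall_mem_cons.2 ⟨hv5, 
  List.forall_mem_cons.2 ⟨hv6, 
  List.forall_mem_cons.2 ⟨hv7, fun _ h => absurd h List.not_mem_nil⟩⟩⟩⟩⟩⟩⟩⟩

theorem fam : FamOK X trees perms cert cands [1] Js where
  ok := okP2
  light := light
  heavy := heavy
  cover := cover
  cand := cand_ok
  leaf := fun _ hc _ hn hN hC => leaf_fam okP2 BD.bads_ok basis_ok tab_ok hc hN hn hC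

end RH6.P2
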