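import Pool.Agent.RH6.Tree

namespace RH6.P3

def F : Fam := ⟨[1,1,1,1,4], 2147581953, true, true, []⟩
def X : FX := ⟨F, AP3, HP3, Kd.k2, [[0,0,2,2,0], [0,2,0,2,0]], true,
  [[0,1,2,3]],
  [[1,1,1,1,0]],
  [[1,1,1,1,0], [0,0,0,0,1], [1,1,1,1,1], [2,0,0,0,0], [0,2,0,0,0], [0,0,2,0,0], [0,0,0,2,0], [0,0,0,0,2]]⟩
def perms : List (List Nat) := [[0,1,2,3,4],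
  [0,1,3,2,4],
  [0,2,1,3,4],
  [0,2,3,1,4],
  [0,3,1,2,4],
  [0,3,2,1,4],
  [1,0,2,3,4],
  [1,0,3,2,4],
  [1,2,0,3,4],
  [1,2,3,0,4],
  [1,3,0,2,4],
  [1,3,2,0,4],
  [2,0,1,3,4],
  [2,0,3,1,4],
  [2,1,0,3,4],
  [2,1,3,0,4],
  [2,3,0,1,4],
  [2,3,1,0,4],
  [3,0,1,2,4],
  [3,0,2,1,4],
  [3,1,0,2,4],
  [3,1,2,0,4],
  [3,2,0,1,4],
  [3,2,1,0,4]]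
def n0_0 : List NX := [
  ⟨⟨0, [(0,1),(1,1),(2,1),(3,1),(4,1)], [[(0,1),(0,1),(0,1),(0,1),(0,1)],[(0,1),(0,1),(0,1),(0,1),(1,1)],[(0,1),(0,1),(1,1),(2,1),(3,1)],[(0,1),(1,1),(0,1),(2,1),(3,1)],[(0,1),(1,1),(2,1),(0,1),(3,1)]], F.fb⟩, [1,1,1,1,1],
    [⟨2,1,[1,1,1,1,1],[1,1,1,1,1],[1,0,0,0,0],[0,0,0,0,0],[[0,0,0,0,2],[0,0,4,4,0],[0,4,0,4,0],[0,4,4,0,0],[2,2,2,2,0],[5,1,1,1,1]]⟩,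
     ⟨2,0,[1,1,1,1,1],[9,1,1,1,1],[1,0,0,0,0],[0,0,0,0,0],[[0,0,0,0,2],[0,0,4,4,0],[0,4,0,4,0],[0,4,4,0,0],[2,2,2,2,0],[1,1,1,1,1]]⟩]⟩,
  ⟨⟨1, [(0,1),(0,1),(1,1),(2,1),(3,1)], [[(0,1),(0,1),(0,1),(0,1),(0,1)],[(0,1),(0,1),(0,1),(0,1),(1,1)],[(0,1),(0,1),(0,1),(1,1),(2,1)],[(0,1),(0,1),(1,1),(1,1),(2,1)]], F.fb⟩, [1,1,1,1,1],
    [⟨2,1,[1,1,1,1,1],[1,1,1,1,1],[0,0,1,0,0],[0,0,0,0,0],[[0,0,0,0,2],[0,0,4,4,0],[0,4,0,4,0],[0,4,4,0,0],[2,2,2,2,0],[5,1,1,1,1]]⟩,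
     ⟨2,0,[1,1,1,1,1],[9,1,1,1,1],[0,0,1,0,0],[0,0,0,0,0],[[0,0,0,0,2],[0,0,4,4,0],[0,4,0,4,0],[0,4,4,0,0],[2,2,2,2,0],[1,1,1,1,1]]⟩]⟩,
  ⟨⟨2, [(0,1),(1,1),(0,1),(2,1),(3,1)], [[(0,1),(0,1),(0,1),(0,1),(0,1)],[(0,1),(0,1),(0,1),(0,1),(1,1)],[(0,1),(1,1),(0,1),(0,1),(2,1)],[(0,1),(1,1),(0,1),(1,1),(2,1)]], F.fb⟩, [1,1,1,1,1],
    [⟨2,1,[1,1,1,1,1],[1,1,1,1,1],[0,0,0,1,0],[0,0,0,0,0],[[0,0,0,0,2],[0,0,4,4,0],[0,4,0,4,0],[0,4,4,0,0],[2,2,2,2,0],[5,1,1,1,1]]⟩,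
     ⟨2,0,[1,1,1,1,1],[9,1,1,1,1],[0,0,0,1,0],[0,0,0,0,0],[[0,0,0,0,2],[0,0,4,4,0],[0,4,0,4,0],[0,4,4,0,0],[2,2,2,2,0],[1,1,1,1,1]]⟩]⟩]
def n0_1 : List NX := [
  ⟨⟨1, [(0,1),(1,1),(2,1),(0,1),(3,1)], [[(0,1),(0,1),(0,1),(0,1),(0,1)],[(0,1),(0,1),(0,1),(0,1),(1,1)],[(0,1),(0,1),(1,1),(0,1),(2,1)],[(0,1),(1,1),(1,1),(0,1),(2,1)]], F.fb⟩, [1,1,1,1,1],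
    [⟨2,1,[1,1,1,1,1],[1,1,1,1,1],[0,1,0,0,0],[0,0,0,0,0],[[0,0,0,0,2],[0,0,4,4,0],[0,4,0,4,0],[0,4,4,0,0],[2,2,2,2,0],[5,1,1,1,1]]⟩,
     ⟨2,0,[1,1,1,1,1],[9,1,1,1,1],[0,1,0,0,0],[0,0,0,0,0],[[0,0,0,0,2],[0,0,4,4,0],[0,4,0,4,0],[0,4,4,0,0],[2,2,2,2,0],[1,1,1,1,1]]⟩]⟩,
  ⟨⟨1, [(0,1),(0,1),(0,1),(1,1),(2,1)], [[(0,1),(0,1),(0,1),(0,1),(0,1)],[(0,1),(0,1),(0,1),(0,1),(1,1)]], F.fb⟩, [1,1,1,1,1],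
    [⟨2,1,[1,1,1,1,1],[1,1,1,1,1],[0,0,0,1,0],[0,0,0,0,0],[[0,0,0,0,2],[0,0,4,4,0],[0,4,0,4,0],[0,4,4,0,0],[2,2,2,2,0],[5,1,1,1,1]]⟩,
     ⟨2,0,[1,1,1,1,1],[9,1,1,1,1],[0,0,0,1,0],[0,0,0,0,0],[[0,0,0,0,2],[0,0,4,4,0],[0,4,0,4,0],[0,4,4,0,0],[2,2,2,2,0],[1,1,1,1,1]]⟩]⟩,
  ⟨⟨1, [(0,1),(0,1),(1,1),(0,1),(2,1)], [[(0,1),(0,1),(0,1),(0,1),(0,1)],[(0,1),(0,1),(0,1),(0,1),(1,1)]], F.fb⟩, [1,1,1,1,1],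
    [⟨2,1,[1,1,1,1,1],[1,1,1,1,1],[0,0,1,0,0],[0,0,0,0,0],[[0,0,0,0,2],[0,0,4,4,0],[0,4,0,4,0],[0,4,4,0,0],[2,2,2,2,0],[5,1,1,1,1]]⟩,
     ⟨2,0,[1,1,1,1,1],[9,1,1,1,1],[0,0,1,0,0],[0,0,0,0,0],[[0,0,0,0,2],[0,0,4,4,0],[0,4,0,4,0],[0,4,4,0,0],[2,2,2,2,0],[1,1,1,1,1]]⟩]⟩,
  ⟨⟨0, [(0,1),(0,1),(1,1),(1,1),(2,1)], [[(0,1),(0,1),(0,1),(0,1),(0,1)],[(0,1),(0,1),(0,1),(0,1),(1,1)]], F.fb⟩, [1,1,1,1,1],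
    [⟨2,1,[1,1,1,1,1],[1,1,1,1,1],[1,1,0,0,0],[0,0,0,0,0],[[0,0,0,0,2],[0,0,4,4,0],[0,4,0,4,0],[0,4,4,0,0],[2,2,2,2,0],[5,1,1,1,1]]⟩,
     ⟨2,0,[1,1,1,1,1],[9,1,1,1,1],[1,1,0,0,0],[0,0,0,0,0],[[0,0,0,0,2],[0,0,4,4,0],[0,4,0,4,0],[0,4,4,0,0],[2,2,2,2,0],[1,1,1,1,1]]⟩]⟩,
  ⟨⟨1, [(0,1),(1,1),(0,1),(0,1),(2,1)], [[(0,1),(0,1),(0,1),(0,1),(0,1)],[(0,1),(0,1),(0,1),(0,1),(1,1)]], F.fb⟩, [1,1,1,1,1],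
    [⟨2,1,[1,1,1,1,1],[1,1,1,1,1],[0,1,0,0,0],[0,0,0,0,0],[[0,0,0,0,2],[0,0,4,4,0],[0,4,0,4,0],[0,4,4,0,0],[2,2,2,2,0],[5,1,1,1,1]]⟩,
     ⟨2,0,[1,1,1,1,1],[9,1,1,1,1],[0,1,0,0,0],[0,0,0,0,0],[[0,0,0,0,2],[0,0,4,4,0],[0,4,0,4,0],[0,4,4,0,0],[2,2,2,2,0],[1,1,1,1,1]]⟩]⟩]
def n0_2 : List NX := [
  ⟨⟨0, [(0,1),(1,1),(0,1),(1,1),(2,1)], [[(0,1),(0,1),(0,1),(0,1),(0,1)],[(0,1),(0,1),(0,1),(0,1),(1,1)]], F.fb⟩, [1,1,1,1,1],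
    [⟨2,1,[1,1,1,1,1],[1,1,1,1,1],[1,0,1,0,0],[0,0,0,0,0],[[0,0,0,0,2],[0,0,4,4,0],[0,4,0,4,0],[0,4,4,0,0],[2,2,2,2,0],[5,1,1,1,1]]⟩,
     ⟨2,0,[1,1,1,1,1],[9,1,1,1,1],[1,0,1,0,0],[0,0,0,0,0],[[0,0,0,0,2],[0,0,4,4,0],[0,4,0,4,0],[0,4,4,0,0],[2,2,2,2,0],[1,1,1,1,1]]⟩]⟩,
  ⟨⟨0, [(0,1),(1,1),(1,1),(0,1),(2,1)], [[(0,1),(0,1),(0,1),(0,1),(0,1)],[(0,1),(0,1),(0,1),(0,1),(1,1)]], F.fb⟩, [1,1,1,1,1],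
    [⟨2,1,[1,1,1,1,1],[1,1,1,1,1],[1,0,0,1,0],[0,0,0,0,0],[[0,0,0,0,2],[0,0,4,4,0],[0,4,0,4,0],[0,4,4,0,0],[2,2,2,2,0],[5,1,1,1,1]]⟩,
     ⟨2,0,[1,1,1,1,1],[9,1,1,1,1],[1,0,0,1,0],[0,0,0,0,0],[[0,0,0,0,2],[0,0,4,4,0],[0,4,0,4,0],[0,4,4,0,0],[2,2,2,2,0],[1,1,1,1,1]]⟩]⟩,
  ⟨⟨1, [(0,1),(0,1),(0,1),(0,1),(1,1)], [[(0,1),(0,1),(0,1),(0,1),(0,1)]], F.fb⟩, [1,1,1,1,1],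
    [⟨4,0,[1,3,1,1,1],[1,1,1,1,1],[0,0,0,0,1],[0,0,0,0,0],[[0,0,0,0,2],[0,2,0,2,0],[0,2,2,0,0],[2,2,0,0,0],[0,0,0,4,1],[1,1,1,3,0]]⟩,
     ⟨4,0,[1,1,1,1,1],[9,1,1,1,1],[0,0,0,0,1],[0,0,0,0,0],[[0,0,0,0,2],[0,0,0,4,1],[0,0,2,2,1],[0,2,0,2,1],[2,0,0,2,1],[1,1,1,5,0]]⟩]⟩]
def T0 : Tree := ⟨[1,1,1,1,1], n0_0 ++ n0_1 ++ n0_2, [[(0,1),(0,1),(0,1),(0,1),(0,1)]]⟩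
def n1_0 : List NX := [
  ⟨⟨3, [(0,1),(1,1),(2,1),(3,1),(4,1)], [[(0,1),(0,1),(0,1),(0,5),(1,1)],[(0,1),(0,1),(0,1),(0,13),(1,1)],[(0,1),(0,1),(0,1),(0,21),(1,1)]], F.fb⟩, [5,5,5,1,5],
    [⟨2,0,[1,1,1,1,0],[5,5,5,1,5],[0,0,0,1,0],[0,0,0,0,0],[[0,0,0,0,2],[0,0,4,4,0],[0,4,0,4,0],[0,4,4,0,0],[2,2,2,2,0],[1,1,1,1,0]]⟩,
     ⟨2,1,[1,1,1,1,0],[13,5,5,1,5],[0,0,0,1,0],[0,0,0,0,0],[[0,0,0,0,2],[0,0,4,4,0],[0,4,0,4,0],[0,4,4,0,0],[2,2,2,2,0],[5,1,1,1,0]]⟩]⟩,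
  ⟨⟨1, [(0,1),(0,1),(0,1),(0,5),(1,1)], [[(0,1),(0,1),(0,1),(0,5),(0,1)]], F.fb⟩, [1,1,1,5,1],
    [⟨4,0,[2,2,2,0,1],[1,1,1,5,1],[0,0,0,0,1],[0,0,0,0,0],[[0,0,0,0,2],[0,0,0,2,0],[0,0,2,0,1],[0,2,0,0,1],[2,0,0,0,1]]⟩,
     ⟨4,0,[2,2,2,0,1],[9,1,1,5,1],[0,0,0,0,1],[0,0,0,0,0],[[0,0,0,0,2],[0,0,0,2,0],[0,0,2,0,1],[0,2,0,0,1],[2,0,0,0,1]]⟩]⟩,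
  ⟨⟨0, [(0,1),(0,1),(0,1),(0,13),(1,1)], [], F.fb⟩, [1,1,1,5,1],
    [⟨2,1,[1,1,1,1,0],[1,1,1,5,1],[1,1,1,0,0],[0,0,0,0,0],[[0,0,0,0,2],[0,0,4,4,0],[0,4,0,4,0],[0,4,4,0,0],[2,2,2,2,0],[5,1,1,1,0]]⟩,
     ⟨2,0,[1,1,1,1,0],[9,1,1,5,1],[0,0,0,3,0],[1,1,1,0,0],[[0,0,0,0,2],[0,0,4,4,0],[0,4,0,4,0],[0,4,4,0,0],[2,2,2,2,0],[1,1,1,1,0]]⟩]⟩,
  ⟨⟨0, [(0,1),(0,1),(0,1),(0,21),(1,1)], [], F.fb⟩, [1,1,1,5,1],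
    [⟨2,1,[1,1,1,1,0],[1,1,1,5,1],[1,1,1,9,0],[0,0,0,0,0],[[0,0,0,0,2],[0,0,4,4,0],[0,4,0,4,0],[0,4,4,0,0],[2,2,2,2,0],[5,1,1,1,0]]⟩,
     ⟨2,0,[1,1,1,1,0],[9,1,1,5,1],[1,1,1,0,0],[0,0,0,0,0],[[0,0,0,0,2],[0,0,4,4,0],[0,4,0,4,0],[0,4,4,0,0],[2,2,2,2,0],[1,1,1,1,0]]⟩]⟩]
def T1 : Tree := ⟨[1,1,1,5,1], n1_0, [[(0,1),(0,1),(0,1),(0,5),(0,1)]]⟩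
def n2_0 : List NX := [
  ⟨⟨2, [(0,1),(1,1),(2,1),(3,1),(4,1)], [[(0,1),(0,1),(0,5),(0,5),(0,1)],[(0,1),(1,1),(2,1),(2,1),(3,1)]], F.fb⟩, [5,5,1,1,5],
    [⟨2,0,[1,1,1,1,1],[5,5,1,1,5],[0,0,1,0,0],[0,0,0,0,0],[[0,0,0,0,2],[0,0,4,4,0],[0,4,0,4,0],[0,4,4,0,0],[2,2,2,2,0],[1,1,1,1,1]]⟩,
     ⟨2,1,[1,1,1,1,1],[13,5,1,1,5],[0,0,1,0,0],[0,0,0,0,0],[[0,0,0,0,2],[0,0,4,4,0],[0,4,0,4,0],[0,4,4,0,0],[2,2,2,2,0],[5,1,1,1,1]]⟩]⟩,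
  ⟨⟨2, [(0,1),(1,1),(2,1),(2,1),(3,1)], [[(0,1),(0,1),(0,5),(0,5),(0,1)]], F.fb⟩, [5,5,1,1,5],
    [⟨2,0,[1,1,1,1,1],[5,5,1,1,5],[0,0,1,1,0],[0,0,0,0,0],[[0,0,0,0,2],[0,0,4,4,0],[0,4,0,4,0],[0,4,4,0,0],[2,2,2,2,0],[1,1,1,1,1]]⟩,
     ⟨2,1,[1,1,1,1,1],[13,5,1,1,5],[0,0,1,1,0],[0,0,0,0,0],[[0,0,0,0,2],[0,0,4,4,0],[0,4,0,4,0],[0,4,4,0,0],[2,2,2,2,0],[5,1,1,1,1]]⟩]⟩,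
  ⟨⟨0, [(0,1),(0,1),(0,5),(0,5),(0,1)], [], F.fb⟩, [1,1,5,5,1],
    [⟨2,0,[1,1,1,1,1],[1,1,5,5,1],[0,0,1,1,0],[1,1,0,0,0],[[0,0,0,0,2],[0,0,4,4,0],[0,4,0,4,0],[0,4,4,0,0],[2,2,2,2,0],[1,1,1,1,1]]⟩]⟩]
def T2 : Tree := ⟨[1,1,5,5,1], n2_0, []⟩
def n3_0 : List NX := [
  ⟨⟨0, [(0,1),(1,1),(2,1),(3,1),(4,1)], [[(0,1),(0,1),(0,1),(0,1),(1,1)],[(0,1),(0,1),(1,1),(2,1),(3,1)],[(0,1),(1,1),(0,1),(2,1),(3,1)],[(0,1),(1,1),(2,1),(0,1),(3,1)]], F.fb⟩, [1,1,1,1,5],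
    [⟨2,1,[1,1,1,1,1],[1,1,1,1,5],[1,0,0,0,0],[0,0,0,0,0],[[0,0,0,0,2],[0,0,4,4,0],[0,4,0,4,0],[0,4,4,0,0],[2,2,2,2,0],[5,1,1,1,1]]⟩,
     ⟨2,0,[1,1,1,1,1],[9,1,1,1,5],[1,0,0,0,0],[0,0,0,0,0],[[0,0,0,0,2],[0,0,4,4,0],[0,4,0,4,0],[0,4,4,0,0],[2,2,2,2,0],[1,1,1,1,1]]⟩]⟩,
  ⟨⟨1, [(0,1),(0,1),(1,1),(2,1),(3,1)], [[(0,1),(0,1),(0,1),(0,1),(1,1)],[(0,1),(0,1),(0,1),(1,1),(2,1)],[(0,1),(0,1),(1,1),(1,1),(2,1)]], F.fb⟩, [1,1,1,1,5],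
    [⟨2,1,[1,1,1,1,1],[1,1,1,1,5],[0,0,1,0,0],[0,0,0,0,0],[[0,0,0,0,2],[0,0,4,4,0],[0,4,0,4,0],[0,4,4,0,0],[2,2,2,2,0],[5,1,1,1,1]]⟩,
     ⟨2,0,[1,1,1,1,1],[9,1,1,1,5],[0,0,1,0,0],[0,0,0,0,0],[[0,0,0,0,2],[0,0,4,4,0],[0,4,0,4,0],[0,4,4,0,0],[2,2,2,2,0],[1,1,1,1,1]]⟩]⟩,
  ⟨⟨2, [(0,1),(1,1),(0,1),(2,1),(3,1)], [[(0,1),(0,1),(0,1),(0,1),(1,1)],[(0,1),(1,1),(0,1),(0,1),(2,1)],[(0,1),(1,1),(0,1),(1,1),(2,1)]], F.fb⟩, [1,1,1,1,5],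
    [⟨2,1,[1,1,1,1,1],[1,1,1,1,5],[0,0,0,1,0],[0,0,0,0,0],[[0,0,0,0,2],[0,0,4,4,0],[0,4,0,4,0],[0,4,4,0,0],[2,2,2,2,0],[5,1,1,1,1]]⟩,
     ⟨2,0,[1,1,1,1,1],[9,1,1,1,5],[0,0,0,1,0],[0,0,0,0,0],[[0,0,0,0,2],[0,0,4,4,0],[0,4,0,4,0],[0,4,4,0,0],[2,2,2,2,0],[1,1,1,1,1]]⟩]⟩,
  ⟨⟨1, [(0,1),(1,1),(2,1),(0,1),(3,1)], [[(0,1),(0,1),(0,1),(0,1),(1,1)],[(0,1),(0,1),(1,1),(0,1),(2,1)],[(0,1),(1,1),(1,1),(0,1),(2,1)]], F.fb⟩, [1,1,1,1,5],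
    [⟨2,1,[1,1,1,1,1],[1,1,1,1,5],[0,1,0,0,0],[0,0,0,0,0],[[0,0,0,0,2],[0,0,4,4,0],[0,4,0,4,0],[0,4,4,0,0],[2,2,2,2,0],[5,1,1,1,1]]⟩,
     ⟨2,0,[1,1,1,1,1],[9,1,1,1,5],[0,1,0,0,0],[0,0,0,0,0],[[0,0,0,0,2],[0,0,4,4,0],[0,4,0,4,0],[0,4,4,0,0],[2,2,2,2,0],[1,1,1,1,1]]⟩]⟩]
def n3_1 : List NX := [
  ⟨⟨1, [(0,1),(0,1),(0,1),(1,1),(2,1)], [[(0,1),(0,1),(0,1),(0,1),(1,1)]], F.fb⟩, [1,1,1,1,5],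
    [⟨2,1,[1,1,1,1,1],[1,1,1,1,5],[0,0,0,1,0],[0,0,0,0,0],[[0,0,0,0,2],[0,0,4,4,0],[0,4,0,4,0],[0,4,4,0,0],[2,2,2,2,0],[5,1,1,1,1]]⟩,
     ⟨2,0,[1,1,1,1,1],[9,1,1,1,5],[0,0,0,1,0],[0,0,0,0,0],[[0,0,0,0,2],[0,0,4,4,0],[0,4,0,4,0],[0,4,4,0,0],[2,2,2,2,0],[1,1,1,1,1]]⟩]⟩,
  ⟨⟨1, [(0,1),(0,1),(1,1),(0,1),(2,1)], [[(0,1),(0,1),(0,1),(0,1),(1,1)]], F.fb⟩, [1,1,1,1,5],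
    [⟨2,1,[1,1,1,1,1],[1,1,1,1,5],[0,0,1,0,0],[0,0,0,0,0],[[0,0,0,0,2],[0,0,4,4,0],[0,4,0,4,0],[0,4,4,0,0],[2,2,2,2,0],[5,1,1,1,1]]⟩,
     ⟨2,0,[1,1,1,1,1],[9,1,1,1,5],[0,0,1,0,0],[0,0,0,0,0],[[0,0,0,0,2],[0,0,4,4,0],[0,4,0,4,0],[0,4,4,0,0],[2,2,2,2,0],[1,1,1,1,1]]⟩]⟩,
  ⟨⟨0, [(0,1),(0,1),(1,1),(1,1),(2,1)], [[(0,1),(0,1),(0,1),(0,1),(1,1)]], F.fb⟩, [1,1,1,1,5],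
    [⟨2,1,[1,1,1,1,1],[1,1,1,1,5],[1,1,0,0,0],[0,0,0,0,0],[[0,0,0,0,2],[0,0,4,4,0],[0,4,0,4,0],[0,4,4,0,0],[2,2,2,2,0],[5,1,1,1,1]]⟩,
     ⟨2,0,[1,1,1,1,1],[9,1,1,1,5],[1,1,0,0,0],[0,0,0,0,0],[[0,0,0,0,2],[0,0,4,4,0],[0,4,0,4,0],[0,4,4,0,0],[2,2,2,2,0],[1,1,1,1,1]]⟩]⟩,
  ⟨⟨1, [(0,1),(1,1),(0,1),(0,1),(2,1)], [[(0,1),(0,1),(0,1),(0,1),(1,1)]], F.fb⟩, [1,1,1,1,5],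
    [⟨2,1,[1,1,1,1,1],[1,1,1,1,5],[0,1,0,0,0],[0,0,0,0,0],[[0,0,0,0,2],[0,0,4,4,0],[0,4,0,4,0],[0,4,4,0,0],[2,2,2,2,0],[5,1,1,1,1]]⟩,
     ⟨2,0,[1,1,1,1,1],[9,1,1,1,5],[0,1,0,0,0],[0,0,0,0,0],[[0,0,0,0,2],[0,0,4,4,0],[0,4,0,4,0],[0,4,4,0,0],[2,2,2,2,0],[1,1,1,1,1]]⟩]⟩,
  ⟨⟨0, [(0,1),(1,1),(0,1),(1,1),(2,1)], [[(0,1),(0,1),(0,1),(0,1),(1,1)]], F.fb⟩, [1,1,1,1,5],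
    [⟨2,1,[1,1,1,1,1],[1,1,1,1,5],[1,0,1,0,0],[0,0,0,0,0],[[0,0,0,0,2],[0,0,4,4,0],[0,4,0,4,0],[0,4,4,0,0],[2,2,2,2,0],[5,1,1,1,1]]⟩,
     ⟨2,0,[1,1,1,1,1],[9,1,1,1,5],[1,0,1,0,0],[0,0,0,0,0],[[0,0,0,0,2],[0,0,4,4,0],[0,4,0,4,0],[0,4,4,0,0],[2,2,2,2,0],[1,1,1,1,1]]⟩]⟩,
  ⟨⟨0, [(0,1),(1,1),(1,1),(0,1),(2,1)], [[(0,1),(0,1),(0,1),(0,1),(1,1)]], F.fb⟩, [1,1,1,1,5],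
    [⟨2,1,[1,1,1,1,1],[1,1,1,1,5],[1,0,0,1,0],[0,0,0,0,0],[[0,0,0,0,2],[0,0,4,4,0],[0,4,0,4,0],[0,4,4,0,0],[2,2,2,2,0],[5,1,1,1,1]]⟩,
     ⟨2,0,[1,1,1,1,1],[9,1,1,1,5],[1,0,0,1,0],[0,0,0,0,0],[[0,0,0,0,2],[0,0,4,4,0],[0,4,0,4,0],[0,4,4,0,0],[2,2,2,2,0],[1,1,1,1,1]]⟩]⟩]
def n3_2 : List NX := [
  ⟨⟨1, [(0,1),(0,1),(0,1),(0,1),(1,1)], [[(0,1),(0,1),(0,1),(0,1),(0,5)],[(0,1),(0,1),(0,1),(0,1),(0,13)],[(0,1),(0,1),(0,1),(0,1),(0,21)]], F.fb⟩, [5,5,5,5,1],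
    [⟨4,0,[1,3,1,1,1],[5,5,5,5,1],[0,0,0,0,1],[0,0,0,0,0],[[0,0,0,0,2],[0,2,0,2,0],[0,2,2,0,0],[2,2,0,0,0],[0,0,0,4,1],[1,1,1,3,0]]⟩,
     ⟨4,0,[1,1,1,1,1],[13,5,5,5,1],[0,0,0,0,1],[0,0,0,0,0],[[0,0,0,0,2],[0,0,0,4,1],[0,0,2,2,1],[0,2,0,2,1],[2,0,0,2,1],[1,1,1,5,0]]⟩]⟩]
def T3 : Tree := ⟨[1,1,1,1,5], n3_0 ++ n3_1 ++ n3_2, [[(0,1),(0,1),(0,1),(0,1),(0,5)],[(0,1),(0,1),(0,1),(0,1),(0,13)],[(0,1),(0,1),(0,1),(0,1),(0,21)]]⟩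
def n4_0 : List NX := [
  ⟨⟨3, [(0,1),(1,1),(2,1),(3,1),(4,1)], [[(0,1),(0,1),(0,1),(0,5),(1,1)],[(0,1),(0,1),(0,1),(0,13),(1,1)],[(0,1),(0,1),(0,1),(0,21),(1,1)]], F.fb⟩, [5,5,5,1,1],
    [⟨2,0,[1,1,1,1,0],[5,5,5,1,1],[0,0,0,1,0],[0,0,0,0,0],[[0,0,0,0,2],[0,0,4,4,0],[0,4,0,4,0],[0,4,4,0,0],[2,2,2,2,0],[1,1,1,1,0]]⟩,
     ⟨2,1,[1,1,1,1,0],[13,5,5,1,1],[0,0,0,1,0],[0,0,0,0,0],[[0,0,0,0,2],[0,0,4,4,0],[0,4,0,4,0],[0,4,4,0,0],[2,2,2,2,0],[5,1,1,1,0]]⟩]⟩,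
  ⟨⟨1, [(0,1),(0,1),(0,1),(0,5),(1,1)], [[(0,1),(0,1),(0,1),(0,5),(0,5)]], F.fb⟩, [5,5,5,1,1],
    [⟨4,0,[2,0,2,2,1],[5,5,5,1,1],[0,0,0,0,1],[0,0,0,0,0],[[0,0,0,0,2],[0,2,0,0,0],[0,0,0,2,1],[0,0,2,0,1],[2,0,0,0,1]]⟩,
     ⟨4,0,[2,0,2,2,1],[13,5,5,1,1],[0,0,0,0,1],[0,0,0,0,0],[[0,0,0,0,2],[0,2,0,0,0],[0,0,0,2,1],[0,0,2,0,1],[2,0,0,0,1]]⟩]⟩,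
  ⟨⟨0, [(0,1),(0,1),(0,1),(0,13),(1,1)], [], F.fb⟩, [1,1,1,5,5],
    [⟨2,1,[1,1,1,1,0],[1,1,1,5,5],[1,1,1,0,0],[0,0,0,0,0],[[0,0,0,0,2],[0,0,4,4,0],[0,4,0,4,0],[0,4,4,0,0],[2,2,2,2,0],[5,1,1,1,0]]⟩,
     ⟨2,0,[1,1,1,1,0],[9,1,1,5,5],[0,0,0,3,0],[1,1,1,0,0],[[0,0,0,0,2],[0,0,4,4,0],[0,4,0,4,0],[0,4,4,0,0],[2,2,2,2,0],[1,1,1,1,0]]⟩]⟩,
  ⟨⟨0, [(0,1),(0,1),(0,1),(0,21),(1,1)], [], F.fb⟩, [1,1,1,5,5],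
    [⟨2,1,[1,1,1,1,0],[1,1,1,5,5],[1,1,1,9,0],[0,0,0,0,0],[[0,0,0,0,2],[0,0,4,4,0],[0,4,0,4,0],[0,4,4,0,0],[2,2,2,2,0],[5,1,1,1,0]]⟩,
     ⟨2,0,[1,1,1,1,0],[9,1,1,5,5],[1,1,1,0,0],[0,0,0,0,0],[[0,0,0,0,2],[0,0,4,4,0],[0,4,0,4,0],[0,4,4,0,0],[2,2,2,2,0],[1,1,1,1,0]]⟩]⟩]
def T4 : Tree := ⟨[1,1,1,5,5], n4_0, [[(0,1),(0,1),(0,1),(0,5),(0,5)]]⟩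
def trees : List Tree := [T0, T1, T2, T3, T4]
def cands : List (List Nat × Nat) := [([1,1,1,1,1], 1), ([1,1,1,1,5], 1), ([1,1,1,1,13], 1), ([1,1,1,1,21], 1), ([1,1,1,5,1], 1), ([1,1,1,5,5], 1), ([1,1,1,5,5], 5)]
def cert : List (Nat × Nat) := [(0,0),(0,0),(1,9),(0,0),(0,0),(0,0),(0,0),(0,0),(1,3),(0,0),(2,16),(0,0),(0,0),(0,0),(0,0),(0,0),(0,0),(0,0),(0,0),(0,0),(0,0),(0,0),(0,0),(0,0),(0,0),(0,0),(0,0),(0,0),(0,0),(0,0),(0,0),(0,0),(1,1),(0,0),(2,10),(0,0),(0,0),(0,0),(0,0),(0,0),(2,4),(0,0),(4,0),(0,0),(0,0),(0,0),(0,0),(0,0),(0,0),(0,0),(0,0),(0,0),(0,0),(0,0),(0,0),(0,0),(0,0),(0,0),(0,0),(0,0),(0,0),(0,0),(0,0),(0,0),(0,0),(0,0),(0,0),(0,0),(0,0),(0,0),(0,0),(0,0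),(0,0),(0,0),(0,0),(0,0),(0,0),(0,0),(0,0),(0,0),(0,0),(0,0),(0,0),(0,0),(0,0),(0,0),(0,0),(0,0),(0,0),(0,0),(0,0),(0,0),(0,0),(0,0),(0,0),(0,0),(0,0),(0,0),(0,0),(0,0),(0,0),(0,0),(0,0),(0,0),(0,0),(0,0),(0,0),(0,0),(0,0),(0,0),(0,0),(0,0),(0,0),(0,0),(0,0),(0,0),(0,0),(0,0),(0,0),(0,0),(0,0),(0,0),(0,0),(0,0),(0,0),(0,0),(0,0),(0,0),(1,0),(0,0),(2,8),(0,0),(0,0),(0,0),(0,0),(0,0),(2,2),(0,0),(4,1),(0,0),(0,0),(0,0),(0,0),(0,0),(0,0),(0,0),(0,0),(0,0),(0,0),(0,0),(0,0),(0,0),(0,0),(0,0),(0,0),(0,0),(0,0),(0,0),(0,0),(0,0),(2,0),(0,0),(4,3),(0,0),(0,0),(0,0),(0,0),(0,0),(4,9),(0,0),(3,0),(0,0),(0,0),(0,0),(0,0),(0,0),(0,0),(0,0),(0,0),(0,0),(0,0),(0,0),(0,0),(0,0),(0,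0),(0,0),(0,0),(0,0),(0,0),(0,0),(0,0),(0,0),(0,0),(0,0),(0,0),(0,0),(0,0),(0,0),(0,0),(0,0),(0,0),(0,0),(0,0),(0,0),(0,0),(0,0),(0,0),(0,0),(0,0),(0,0),(0,0),(0,0),(0,0),(0,0),(0,0),(0,0),(0,0),(0,0),(0,0),(0,0),(0,0),(0,0),(0,0),(0,0),(0,0),(0,0),(0,0),(0,0),(0,0),(0,0),(0,0),(0,0),(0,0),(0,0),(0,0),(0,0),(0,0),(0,0),(0,0),(0,0),(0,0),(0,0),(0,0),(0,0),(0,0),(0,0),(0,0),(0,0),(0,0),(0,0),(0,0),(0,0),(0,0),(0,0),(0,0),(0,0),(0,0),(0,0),(0,0),(0,0),(0,0),(0,0),(0,0),(0,0),(0,0),(0,0),(0,0),(0,0),(0,0),(0,0),(0,0),(0,0),(0,0),(0,0),(0,0),(0,0),(0,0),(0,0),(0,0),(0,0),(0,0),(0,0),(0,0),(0,0),(0,0),(0,0),(0,0),(0,0),(0,0),(0,0),(0,0),(0,0),(0,0),(0,0),(0,0),(0,0),(0,0),(0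,0),(0,0),(0,0),(0,0),(0,0),(0,0),(0,0),(0,0),(0,0),(0,0),(0,0),(0,0),(0,0),(0,0),(0,0),(0,0),(0,0),(0,0),(0,0),(0,0),(0,0),(0,0),(0,0),(0,0),(0,0),(0,0),(0,0),(0,0),(0,0),(0,0),(0,0),(0,0),(0,0),(0,0),(0,0),(0,0),(0,0),(0,0),(0,0),(0,0),(0,0),(0,0),(0,0),(0,0),(0,0),(0,0),(1,9),(0,0),(0,0),(0,0),(0,0),(0,0),(1,3),(0,0),(2,16),(0,0),(0,0),(0,0),(0,0),(0,0),(0,0),(0,0),(0,0),(0,0),(0,0),(0,0),(0,0),(0,0),(0,0),(0,0),(0,0),(0,0),(0,0),(0,0),(0,0),(0,0),(1,1),(0,0),(2,10),(0,0),(0,0),(0,0),(0,0),(0,0),(2,4),(0,0),(4,0),(0,0),(0,0),(0,0),(0,0),(0,0),(0,0),(0,0),(0,0),(0,0),(0,0),(0,0),(0,0),(0,0),(0,0),(0,0),(0,0),(0,0),(0,0),(0,0),(0,0),(0,0),(0,0),(0,0),(0,0),(0,0),(0,0)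,(0,0),(0,0),(0,0),(0,0),(0,0),(0,0),(0,0),(0,0),(0,0),(0,0),(0,0),(0,0),(0,0),(0,0),(0,0),(0,0),(0,0),(0,0),(0,0),(0,0),(0,0),(0,0),(0,0),(0,0),(0,0),(0,0),(0,0),(0,0),(0,0),(0,0),(0,0),(0,0),(0,0),(0,0),(0,0),(0,0),(0,0),(0,0),(0,0),(0,0),(0,0),(0,0),(0,0),(0,0),(0,0),(0,0),(0,0),(0,0),(0,0),(0,0),(0,0),(0,0),(0,0),(0,0),(0,0),(0,0),(0,0),(0,0),(0,0),(1,0),(0,0),(2,8),(0,0),(0,0),(0,0),(0,0),(0,0),(2,2),(0,0),(4,1),(0,0),(0,0),(0,0),(0,0),(0,0),(0,0),(0,0),(0,0),(0,0),(0,0),(0,0),(0,0),(0,0),(0,0),(0,0),(0,0),(0,0),(0,0),(0,0),(0,0),(0,0),(2,0),(0,0),(4,3),(0,0),(0,0),(0,0),(0,0),(0,0),(4,9),(0,0),(3,0),(3,0),(0,0),(4,9),(0,0),(0,0),(0,0),(0,0),(0,0),(4,3),(0,0),(2,0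),(0,0),(0,0),(0,0),(0,0),(0,0),(0,0),(0,0),(0,0),(0,0),(0,0),(0,0),(0,0),(0,0),(0,0),(0,0),(0,0),(0,0),(0,0),(0,0),(0,0),(0,0),(4,1),(0,0),(2,2),(0,0),(0,0),(0,0),(0,0),(0,0),(2,8),(0,0),(1,0),(0,0),(0,0),(0,0),(0,0),(0,0),(0,0),(0,0),(0,0),(0,0),(0,0),(0,0),(0,0),(0,0),(0,0),(0,0),(0,0),(0,0),(0,0),(0,0),(0,0),(0,0),(0,0),(0,0),(0,0),(0,0),(0,0),(0,0),(0,0),(0,0),(0,0),(0,0),(0,0),(0,0),(0,0),(0,0),(0,0),(0,0),(0,0),(0,0),(0,0),(0,0),(0,0),(0,0),(0,0),(0,0),(0,0),(0,0),(0,0),(0,0),(0,0),(0,0),(0,0),(0,0),(0,0),(0,0),(0,0),(0,0),(0,0),(0,0),(0,0),(0,0),(0,0),(0,0),(0,0),(0,0),(0,0),(0,0),(0,0),(0,0),(0,0),(0,0),(0,0),(0,0),(0,0),(0,0),(0,0),(0,0),(0,0),(0,0),(0,0),(0,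0),(0,0),(0,0),(0,0),(0,0),(4,0),(0,0),(2,4),(0,0),(0,0),(0,0),(0,0),(0,0),(2,10),(0,0),(1,1),(0,0),(0,0),(0,0),(0,0),(0,0),(0,0),(0,0),(0,0),(0,0),(0,0),(0,0),(0,0),(0,0),(0,0),(0,0),(0,0),(0,0),(0,0),(0,0),(0,0),(0,0),(2,16),(0,0),(1,3),(0,0),(0,0),(0,0),(0,0),(0,0),(1,9),(0,0),(0,0),(0,0),(0,0),(0,0),(0,0),(0,0),(0,0),(0,0),(0,0),(0,0),(0,0),(0,0),(0,0),(0,0),(0,0),(0,0),(0,0),(0,0),(0,0),(0,0),(0,0),(0,0),(0,0),(0,0),(0,0),(0,0),(0,0),(0,0),(0,0),(0,0),(0,0),(0,0),(0,0),(0,0),(0,0),(0,0),(0,0),(0,0),(0,0),(0,0),(0,0),(0,0),(0,0),(0,0),(0,0),(0,0),(0,0),(0,0),(0,0),(0,0),(0,0),(0,0),(0,0),(0,0),(0,0),(0,0),(0,0),(0,0),(0,0),(0,0),(0,0),(0,0),(0,0),(0,0),(0,0),(0,0),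(0,0),(0,0),(0,0),(0,0),(0,0),(0,0),(0,0),(0,0),(0,0),(0,0),(0,0),(0,0),(0,0),(0,0),(0,0),(0,0),(0,0),(0,0),(0,0),(0,0),(0,0),(0,0),(0,0),(0,0),(0,0),(0,0),(0,0),(0,0),(0,0),(0,0),(0,0),(0,0),(0,0),(0,0),(0,0),(0,0),(0,0),(0,0),(0,0),(0,0),(0,0),(0,0),(0,0),(0,0),(0,0),(0,0),(0,0),(0,0),(0,0),(0,0),(0,0),(0,0),(0,0),(0,0),(0,0),(0,0),(0,0),(0,0),(0,0),(0,0),(0,0),(0,0),(0,0),(0,0),(0,0),(0,0),(0,0),(0,0),(0,0),(0,0),(0,0),(0,0),(0,0),(0,0),(0,0),(0,0),(0,0),(0,0),(0,0),(0,0),(0,0),(0,0),(0,0),(0,0),(0,0),(0,0),(0,0),(0,0),(0,0),(0,0),(0,0),(0,0),(0,0),(0,0),(0,0),(0,0),(0,0),(0,0),(0,0),(0,0),(0,0),(0,0),(0,0),(0,0),(0,0),(3,0),(0,0),(4,9),(0,0),(0,0),(0,0),(0,0),(0,0)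,(4,3),(0,0),(2,0),(0,0),(0,0),(0,0),(0,0),(0,0),(0,0),(0,0),(0,0),(0,0),(0,0),(0,0),(0,0),(0,0),(0,0),(0,0),(0,0),(0,0),(0,0),(0,0),(0,0),(0,0),(4,1),(0,0),(2,2),(0,0),(0,0),(0,0),(0,0),(0,0),(2,8),(0,0),(1,0),(0,0),(0,0),(0,0),(0,0),(0,0),(0,0),(0,0),(0,0),(0,0),(0,0),(0,0),(0,0),(0,0),(0,0),(0,0),(0,0),(0,0),(0,0),(0,0),(0,0),(0,0),(0,0),(0,0),(0,0),(0,0),(0,0),(0,0),(0,0),(0,0),(0,0),(0,0),(0,0),(0,0),(0,0),(0,0),(0,0),(0,0),(0,0),(0,0),(0,0),(0,0),(0,0),(0,0),(0,0),(0,0),(0,0),(0,0),(0,0),(0,0),(0,0),(0,0),(0,0),(0,0),(0,0),(0,0),(0,0),(0,0),(0,0),(0,0),(0,0),(0,0),(0,0),(0,0),(0,0),(0,0),(0,0),(0,0),(0,0),(0,0),(0,0),(0,0),(0,0),(0,0),(0,0),(0,0),(0,0),(0,0),(0,0),(0,0),(0,0),(0,0),(0,0),(0,0),(0,0),(0,0),(4,0),(0,0),(2,4),(0,0),(0,0),(0,0),(0,0),(0,0),(2,10),(0,0),(1,1),(0,0),(0,0),(0,0),(0,0),(0,0),(0,0),(0,0),(0,0),(0,0),(0,0),(0,0),(0,0),(0,0),(0,0),(0,0),(0,0),(0,0),(0,0),(0,0),(0,0),(0,0),(2,16),(0,0),(1,3),(0,0),(0,0),(0,0),(0,0),(0,0),(1,9),(0,0),(0,0)]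

end RH6.P3
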