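import Pool.Agent.RH6.T7
import Pool.Agent.RH6.DP3
import Pool.Agent.RH6.LP3
import Pool.Agent.RH6.KDat
import Pool.Agent.RH6.BAll

set_option maxRecDepth 100000

namespace RH6.P3

def bs : List (List ℕ) := [[1, 1, 1, 1, 0], [0, 2, 0, 0, 0], [0, 0, 2, 0, 0], [0, 0, 0, 2, 0], [0, 0, 0, 0, 1]]

def bi : List (List ℤ) := [[2, -1, -1, -1, 0], [0, 1, 0, 0, 0], [0, 0, 1, 0, 0], [0, 0, 0, 1, 0], [0, 0, 0, 0, 2]]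

theorem basis_ok : basisB X.F.As X.F.code bs bi = true := by decide +kernel

def tab : List (List LfC) := [
  [LfC.good 0 [[1, 0, 0, 0, 0, 0, 0], [0, 1, 0, 0, 0, 0, 0], [0, 0, -1, 1, 0, 0, 0], [0, 0, 0, -1, 1, 1, 0], [0, 0, -1, 1, 0, -1, 0], [0, 0, -1, 1, -1, 0, 0], [0, 0, 0, 0, 0, 0, 1]] [[1, 0, 0, 0, 0, 0, 0], [0, 1, 0, 0, 0, 0, 0], [0, 0, 1, -1, -1, -1, 0], [0, 0, 2, -1, -1, -1, 0], [0, 0, 1, 0, 0, -1, 0], [0, 0, 1, 0, -1, 0, 0], [0, 0, 0, 0, 0, 0, 1]]],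
  [LfC.good 30 [[1, 0, 0, 0, 0, 0, 0], [0, 1, 0, 0, 0, 0, 0], [0, 0, -1, 1, 0, 0, 0], [0, 0, 0, -1, 1, 1, 0], [0, 0, -1, 1, 0, -1, 0], [0, 0, -1, 1, -1, 0, 0], [0, 0, 0, 0, 0, 0, 1]] [[1, 0, 0, 0, 0, 0, 0], [0, 1, 0, 0, 0, 0, 0], [0, 0, 1, -1, -1, -1, 0], [0, 0, 2, -1, -1, -1, 0], [0, 0, 1, 0, 0, -1, 0], [0, 0, 1, 0, -1, 0, 0], [0, 0, 0, 0, 0, 0, 1]]],
  [LfC.bad 57],
  [LfC.bad 58],
  [LfC.good 30 [[2, -3, -1, 1, -1, 0, 1], [-2, 3, 0, 0, 1, 0, -1], [3, -2, -1, 1, -2, 0, 1], [2, -3, 0, 0, -1, 1, 1], [2, -3, -1, 2, -2, -1, 1], [0, 5, 0, 0, 0, 0, -1], [2, -2, 0, 0, 0, 0, 1]] [[3, -3, -3, 0, 0, 2, -1], [-2, 2, 2, 0, 0, -1, 1], [0, -1, -2, 1, 1, 1, 0], [1, 0, -2, 1, 1, 1, 0], [2, -1, -2, 0, 0, 1, 0], [0, 1, 0, 1, 0, 0, 0], [-10, 10, 10, 0, 0, -6, 5]]],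
  [LfC.bad 59],
  [LfC.bad 60]]

theorem tab_ok : famB Js BD.bads X.F.As bs cands [1] tab = true := by decide +kernel

theorem cand_ok : candB trees cands = true := by decide +kernel

end RH6.P3
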