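import Pool.Agent.RH6.GDef
import Pool.Agent.RH6.TBP3
import Pool.Agent.RH6.HP3_0
import Pool.Agent.RH6.HP3_1
import Pool.Agent.RH6.HP3_2
import Pool.Agent.RH6.HP3_3
import Pool.Agent.RH6.HP3_4
import Pool.Agent.RH6.HP3_5
import Pool.Agent.RH6.HP3_6
import Pool.Agent.RH6.HP3_7

namespace RH6.P3

theorem all_app {p : NX → Bool} {a b : List NX} (h : a.all p = true) (h' : b.all p = true) :
    (a ++ b).all p = true := by
  rw [List.all_append, h, h']; rfl

theorem hv0 : T0.nodes.all (nodeHeavy X.F) = true := all_app (all_app h_n0_0 h_n0_1) h_n0_2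

theorem hv1 : T1.nodes.all (nodeHeavy X.F) = true := h_n1_0

theorem hv2 : T2.nodes.all (nodeHeavy X.F) = true := h_n2_0

theorem hv3 : T3.nodes.all (nodeHeavy X.F) = true := all_app (all_app h_n3_0 h_n3_1) h_n3_2

theorem hv4 : T4.nodes.all (nodeHeavy X.F) = true := h_n4_0

theorem heavy : ∀ T ∈ trees, T.nodes.all (nodeHeavy X.F) = true :=
  List.forall_mem_cons.2 ⟨hv0, 
  List.forall_mem_cons.2 ⟨hv1, 
  List.forall_mem_cons.2 ⟨hv2, 
  List.forall_mem_cons.2 ⟨hv3, 
  List.forall_mem_cons.2 ⟨hv4, fun _ h => absurd h List.not_mem_nil⟩⟩⟩⟩⟩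

theorem fam : FamOK X trees perms cert cands [1] Js where
  ok := okP3
  light := light
  heavy := heavy
  cover := cover
  cand := cand_ok
  leaf := fun _ hc _ hn hN hC => leaf_fam okP3 BD.bads_ok basis_ok tab_ok hc hN hn hC

end RH6.P3
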