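import Pool.Agent.RH6.Tree

namespace RH6.P4

def F : Fam := ⟨[1,1,1,1,4], 2416545801, true, false, []⟩
def X : FX := ⟨F, AP4, HP4, Kd.k0, [], false,
  [[0,1], [2,3]],
  [[1,1,0,0,0], [0,0,1,1,0]],
  [[1,1,0,0,0], [0,0,1,1,0], [1,1,1,1,0], [0,0,0,0,1], [1,1,0,0,1], [0,0,1,1,1], [1,1,1,1,1], [2,0,0,0,0], [0,2,0,0,0], [0,0,2,0,0], [0,0,0,2,0], [0,0,0,0,2]]⟩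
def perms : List (List Nat) := [[0,1,2,3,4],
  [0,1,3,2,4],
  [1,0,2,3,4],
  [1,0,3,2,4],
  [2,3,0,1,4],
  [2,3,1,0,4],
  [3,2,0,1,4],
  [3,2,1,0,4]]
def n0_0 : List NX := [
  ⟨⟨3, [(0,1),(1,1),(2,1),(3,1),(4,1)], [[(0,1),(1,1),(2,1),(2,3),(2,1)],[(0,1),(1,1),(2,1),(2,11),(2,1)],[(0,1),(1,1),(2,1),(2,3),(3,1)]], F.fb⟩, [3,1,3,1,3],
    [⟨2,0,[0,0,1,1,1],[3,1,3,1,3],[0,0,0,1,0],[0,0,0,0,0],[]⟩,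
     ⟨2,0,[0,0,1,1,1],[11,1,3,1,3],[0,0,0,1,0],[0,0,0,0,0],[]⟩,
     ⟨2,1,[0,0,1,1,1],[3,1,11,1,3],[0,0,0,1,0],[0,0,0,0,0],[]⟩,
     ⟨2,1,[0,0,1,1,1],[11,1,11,1,3],[0,0,0,1,0],[0,0,0,0,0],[]⟩]⟩,
  ⟨⟨1, [(0,1),(1,1),(2,1),(2,3),(3,1)], [[(0,1),(0,3),(0,1),(0,3),(1,1)],[(0,1),(0,11),(0,1),(0,3),(1,1)],[(0,1),(0,11),(0,33),(0,11),(1,1)],[(0,1),(0,3),(1,1),(1,3),(2,1)]], F.fb⟩, [3,1,3,1,3],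
    [⟨2,1,[1,1,0,2,0],[3,1,3,1,3],[0,1,0,0,0],[0,0,0,0,0],[]⟩,
     ⟨2,0,[1,1,1,1,0],[11,1,3,1,3],[0,1,0,0,0],[0,0,0,0,0],[]⟩,
     ⟨2,0,[1,1,1,1,0],[3,1,11,1,3],[0,1,0,0,0],[0,0,0,0,0],[]⟩,
     ⟨2,1,[1,1,1,1,0],[11,1,11,1,3],[0,1,0,0,0],[0,0,0,0,0],[]⟩]⟩,
  ⟨⟨2, [(0,1),(0,3),(1,1),(1,3),(2,1)], [[(0,1),(0,3),(1,1),(1,3),(1,1)]], F.fb⟩, [1,3,1,3,1],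
    [⟨4,0,[0,0,1,3,1],[1,3,1,3,1],[0,0,0,0,1],[0,0,0,0,0],[]⟩,
     ⟨4,0,[0,0,1,3,1],[9,3,1,3,1],[0,0,0,0,1],[0,0,0,0,0],[]⟩,
     ⟨4,0,[0,0,1,1,1],[1,3,9,3,1],[0,0,0,0,1],[0,0,0,0,0],[]⟩,
     ⟨4,0,[0,0,1,1,1],[9,3,9,3,1],[0,0,0,0,1],[0,0,0,0,0],[]⟩]⟩,
  ⟨⟨0, [(0,1),(1,1),(2,1),(2,3),(2,1)], [[(0,1),(0,3),(0,1),(0,3),(0,1)],[(0,1),(0,11),(0,1),(0,3),(0,1)],[(0,1),(0,3),(1,1),(1,3),(1,1)]], F.fb⟩, [1,3,1,3,1],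
    [⟨2,0,[1,1,0,2,0],[1,3,1,3,1],[1,0,0,0,0],[0,0,0,0,0],[]⟩,
     ⟨2,0,[1,1,1,1,0],[9,3,1,3,1],[1,0,0,0,0],[0,0,0,0,0],[]⟩,
     ⟨2,0,[1,1,1,1,0],[1,3,9,3,1],[1,0,0,0,0],[0,0,0,0,0],[]⟩,
     ⟨2,0,[1,1,0,0,1],[9,3,9,3,1],[1,0,0,0,0],[0,0,0,0,0],[]⟩]⟩,
  ⟨⟨2, [(0,1),(1,1),(2,1),(2,11),(2,1)], [], F.fb⟩, [1,3,1,3,1],
    [⟨2,1,[0,0,1,1,1],[1,3,1,3,1],[0,0,1,0,0],[0,0,0,0,0],[]⟩,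
     ⟨2,1,[0,0,1,1,1],[9,3,1,3,1],[0,0,1,0,0],[0,0,0,0,0],[]⟩,
     ⟨2,0,[0,0,1,1,1],[1,3,9,3,1],[0,0,0,1,0],[0,0,1,0,0],[]⟩,
     ⟨2,0,[0,0,1,1,1],[9,3,9,3,1],[0,0,0,1,0],[0,0,1,0,0],[]⟩]⟩,
  ⟨⟨1, [(0,1),(0,3),(0,1),(0,3),(1,1)], [[(0,1),(0,3),(0,1),(0,3),(0,1)]], F.fb⟩, [1,3,1,3,1],
    [⟨4,0,[1,3,0,0,1],[1,3,1,3,1],[0,0,0,0,1],[0,0,0,0,0],[]⟩,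
     ⟨4,0,[1,1,0,0,1],[9,3,1,3,1],[0,0,0,0,1],[0,0,0,0,0],[]⟩,
     ⟨4,0,[1,3,0,0,1],[1,3,9,3,1],[0,0,0,0,1],[0,0,0,0,0],[]⟩,
     ⟨4,0,[1,1,0,0,1],[9,3,9,3,1],[0,0,0,0,1],[0,0,0,0,0],[]⟩]⟩,
  ⟨⟨0, [(0,1),(0,11),(0,1),(0,3),(1,1)], [], F.fb⟩, [1,3,1,3,1],
    [⟨2,1,[1,1,1,1,0],[1,3,1,3,1],[1,0,0,0,0],[0,0,0,0,0],[]⟩,
     ⟨2,0,[1,1,1,1,0],[9,3,1,3,1],[0,1,0,0,0],[1,0,0,0,0],[]⟩,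
     ⟨2,0,[1,1,1,1,0],[1,3,9,3,1],[0,1,0,0,0],[1,0,0,0,0],[]⟩,
     ⟨2,1,[1,1,1,1,0],[9,3,9,3,1],[1,0,0,0,0],[0,0,0,0,0],[]⟩]⟩,
  ⟨⟨0, [(0,1),(0,11),(0,33),(0,11),(1,1)], [], F.fb⟩, [1,3,1,3,1],
    [⟨2,1,[1,1,1,1,0],[1,3,1,3,1],[1,11,0,0,0],[0,0,0,0,0],[]⟩,
     ⟨2,0,[1,1,1,1,0],[9,3,1,3,1],[1,0,0,0,0],[0,0,0,0,0],[]⟩,
     ⟨2,0,[1,1,1,1,0],[1,3,9,3,1],[1,0,0,0,0],[0,0,0,0,0],[]⟩,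
     ⟨2,1,[1,1,1,1,0],[9,3,9,3,1],[1,11,0,0,0],[0,0,0,0,0],[]⟩]⟩,
  ⟨⟨1, [(0,1),(0,3),(1,1),(1,3),(1,1)], [[(0,1),(0,3),(0,1),(0,3),(0,1)]], F.fb⟩, [1,3,1,3,1],
    [⟨4,0,[1,3,2,0,2],[1,3,1,3,1],[0,0,1,0,0],[0,0,0,0,0],[]⟩,
     ⟨4,0,[1,3,0,2,2],[9,3,1,3,1],[0,0,0,1,0],[0,0,0,0,0],[]⟩,
     ⟨4,0,[1,3,2,0,2],[1,3,9,3,1],[0,0,1,0,0],[0,0,0,0,0],[]⟩,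
     ⟨4,0,[1,3,0,2,2],[9,3,9,3,1],[0,0,0,1,0],[0,0,0,0,0],[]⟩]⟩,
  ⟨⟨0, [(0,1),(0,11),(0,1),(0,3),(0,1)], [], F.fb⟩, [1,3,1,3,1],
    [⟨2,0,[1,1,1,1,0],[9,3,1,3,1],[0,1,0,0,0],[1,0,0,0,0],[]⟩]⟩]
def T0 : Tree := ⟨[1,3,1,3,1], n0_0, [[(0,1),(0,3),(0,1),(0,3),(0,1)]]⟩
def n1_0 : List NX := [
  ⟨⟨1, [(0,1),(1,1),(2,1),(3,1),(4,1)], [], F.fb⟩, [7,1,5,3,7],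
    [⟨2,0,[1,1,0,2,1],[7,1,5,3,7],[0,1,0,0,0],[0,0,0,0,0],[]⟩,
     ⟨2,1,[1,1,0,2,1],[15,1,5,3,7],[0,1,0,0,0],[0,0,0,0,0],[]⟩,
     ⟨2,0,[1,1,0,2,1],[7,1,13,3,7],[0,1,0,0,0],[0,0,0,0,0],[]⟩,
     ⟨2,1,[1,1,0,2,1],[15,1,13,3,7],[0,1,0,0,0],[0,0,0,0,0],[]⟩]⟩]
def T1 : Tree := ⟨[1,7,3,5,1], n1_0, []⟩
def n2_0 : List NX := [
  ⟨⟨3, [(0,1),(1,1),(2,1),(3,1),(4,1)], [[(0,1),(0,3),(0,1),(0,7),(0,1)]], F.fb⟩, [7,5,7,1,7],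
    [⟨2,0,[1,1,1,1,1],[7,5,7,1,7],[0,0,0,1,0],[0,0,0,0,0],[]⟩,
     ⟨2,1,[1,1,1,1,1],[15,5,7,1,7],[0,0,0,1,0],[0,0,0,0,0],[]⟩,
     ⟨2,1,[1,1,1,1,1],[7,5,15,1,7],[0,0,0,1,0],[0,0,0,0,0],[]⟩,
     ⟨2,0,[1,1,1,1,1],[15,5,15,1,7],[0,0,0,1,0],[0,0,0,0,0],[]⟩]⟩,
  ⟨⟨0, [(0,1),(0,3),(0,1),(0,7),(0,1)], [], F.fb⟩, [1,3,1,7,1],
    [⟨2,0,[1,1,1,1,1],[1,3,1,7,1],[0,0,0,1,0],[0,0,1,0,0],[]⟩]⟩]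
def T2 : Tree := ⟨[1,3,1,7,1], n2_0, []⟩
def n3_0 : List NX := [
  ⟨⟨1, [(0,1),(1,1),(2,1),(3,1),(4,1)], [[(0,1),(0,7),(0,1),(1,1),(0,1)]], F.fb⟩, [7,1,7,1,7],
    [⟨2,1,[1,1,0,2,1],[7,1,7,1,7],[0,1,0,0,0],[0,0,0,0,0],[]⟩,
     ⟨2,1,[1,1,1,1,0],[15,1,7,1,7],[0,1,0,0,0],[0,0,0,0,0],[]⟩,
     ⟨2,1,[1,1,1,1,0],[7,1,15,1,7],[0,1,0,0,0],[0,0,0,0,0],[]⟩,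
     ⟨2,0,[1,1,0,2,1],[15,1,15,1,7],[0,1,0,0,0],[0,0,0,0,0],[]⟩]⟩,
  ⟨⟨0, [(0,1),(0,7),(0,1),(1,1),(0,1)], [], F.fb⟩, [1,7,1,7,1],
    [⟨2,1,[1,1,0,2,1],[1,7,1,7,1],[0,1,0,0,0],[1,0,0,0,0],[]⟩,
     ⟨2,0,[1,1,0,2,1],[9,7,1,7,1],[1,0,0,0,0],[0,0,0,0,0],[]⟩,
     ⟨2,1,[1,1,0,2,1],[1,7,9,7,1],[0,1,0,0,0],[1,0,0,0,0],[]⟩,
     ⟨2,0,[1,1,0,2,1],[9,7,9,7,1],[1,0,0,0,0],[0,0,0,0,0],[]⟩]⟩]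
def T3 : Tree := ⟨[1,7,1,7,1], n3_0, []⟩
def n4_0 : List NX := [
  ⟨⟨3, [(0,1),(1,1),(2,1),(3,1),(4,1)], [[(0,1),(1,1),(2,1),(2,35),(2,5)],[(0,1),(1,1),(2,1),(2,3),(3,1)]], F.fb⟩, [7,5,3,1,7],
    [⟨2,0,[0,0,1,1,1],[7,5,3,1,7],[0,0,0,1,0],[0,0,0,0,0],[]⟩,
     ⟨2,0,[0,0,1,1,1],[15,5,3,1,7],[0,0,0,1,0],[0,0,0,0,0],[]⟩,
     ⟨2,0,[0,2,1,1,0],[7,5,11,1,7],[0,0,0,1,0],[0,0,0,0,0],[]⟩,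
     ⟨2,0,[0,2,1,1,0],[15,5,11,1,7],[0,0,0,1,0],[0,0,0,0,0],[]⟩]⟩,
  ⟨⟨0, [(0,1),(1,1),(2,1),(2,3),(3,1)], [[(0,1),(0,35),(0,5),(0,15),(1,1)],[(0,1),(0,35),(0,21),(0,7),(1,1)],[(0,1),(0,3),(1,1),(1,3),(2,1)]], F.fb⟩, [1,3,5,7,1],
    [⟨2,0,[1,1,1,1,0],[1,3,5,7,1],[1,0,0,0,0],[0,0,0,0,0],[]⟩,
     ⟨2,1,[1,1,0,2,0],[9,3,5,7,1],[1,0,0,0,0],[0,0,0,0,0],[]⟩,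
     ⟨2,1,[1,1,1,1,0],[1,3,13,7,1],[1,0,0,0,0],[0,0,0,0,0],[]⟩,
     ⟨2,0,[1,1,1,1,0],[9,3,13,7,1],[1,0,0,0,0],[0,0,0,0,0],[]⟩]⟩,
  ⟨⟨2, [(0,1),(0,3),(1,1),(1,3),(2,1)], [], F.fb⟩, [1,3,5,7,1],
    [⟨4,0,[2,2,1,1,1],[1,3,5,7,1],[0,0,0,0,1],[0,0,0,0,0],[]⟩,
     ⟨4,0,[2,2,1,1,1],[9,3,5,7,1],[0,0,0,0,1],[0,0,0,0,0],[]⟩,
     ⟨4,0,[2,2,1,3,1],[1,3,13,7,1],[0,0,0,0,1],[0,0,0,0,0],[]⟩,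
     ⟨4,0,[2,2,1,3,1],[9,3,13,7,1],[0,0,0,0,1],[0,0,0,0,0],[]⟩]⟩,
  ⟨⟨2, [(0,1),(1,1),(2,1),(2,35),(2,5)], [], F.fb⟩, [5,7,1,3,5],
    [⟨2,1,[0,0,1,1,1],[5,7,1,3,5],[0,0,0,5,0],[0,0,1,0,0],[]⟩,
     ⟨2,1,[0,0,1,1,1],[13,7,1,3,5],[0,0,0,5,0],[0,0,1,0,0],[]⟩,
     ⟨2,0,[0,0,1,1,1],[5,7,9,3,5],[0,0,1,0,0],[0,0,0,0,0],[]⟩,
     ⟨2,0,[0,0,1,1,1],[13,7,9,3,5],[0,0,1,0,0],[0,0,0,0,0],[]⟩]⟩,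
  ⟨⟨0, [(0,1),(0,35),(0,5),(0,15),(1,1)], [], F.fb⟩, [1,3,5,7,1],
    [⟨2,0,[1,1,1,1,0],[1,3,5,7,1],[1,0,0,0,0],[0,0,0,0,0],[]⟩,
     ⟨2,1,[1,1,1,1,0],[9,3,5,7,1],[0,5,0,0,0],[1,0,0,0,0],[]⟩,
     ⟨2,1,[1,1,1,1,0],[1,3,13,7,1],[0,5,0,0,0],[1,0,0,0,0],[]⟩,
     ⟨2,0,[1,1,1,1,0],[9,3,13,7,1],[1,0,0,0,0],[0,0,0,0,0],[]⟩]⟩,
  ⟨⟨0, [(0,1),(0,35),(0,21),(0,7),(1,1)], [], F.fb⟩, [1,3,5,7,1],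
    [⟨2,0,[1,1,1,1,0],[1,3,5,7,1],[1,7,0,0,0],[0,0,0,0,0],[]⟩,
     ⟨2,1,[1,1,1,1,0],[9,3,5,7,1],[1,0,0,0,0],[0,0,0,0,0],[]⟩,
     ⟨2,1,[1,1,1,1,0],[1,3,13,7,1],[1,0,0,0,0],[0,0,0,0,0],[]⟩,
     ⟨2,0,[1,1,1,1,0],[9,3,13,7,1],[1,7,0,0,0],[0,0,0,0,0],[]⟩]⟩]
def T4 : Tree := ⟨[1,3,5,7,1], n4_0, []⟩
def n5_0 : List NX := [
  ⟨⟨3, [(0,1),(1,1),(2,1),(3,1),(4,1)], [[(0,1),(0,3),(0,1),(0,15),(0,3)]], F.fb⟩, [7,5,7,1,5],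
    [⟨2,0,[0,2,1,1,1],[7,5,7,1,5],[0,0,0,1,0],[0,0,0,0,0],[]⟩,
     ⟨2,0,[1,1,1,1,1],[15,5,7,1,5],[0,0,0,1,0],[0,0,0,0,0],[]⟩,
     ⟨2,0,[1,1,1,1,1],[7,5,15,1,5],[0,0,0,1,0],[0,0,0,0,0],[]⟩,
     ⟨2,1,[1,1,1,1,1],[15,5,15,1,5],[0,0,0,1,0],[0,0,0,0,0],[]⟩]⟩,
  ⟨⟨0, [(0,1),(0,3),(0,1),(0,15),(0,3)], [], F.fb⟩, [1,3,1,7,3],
    [⟨2,0,[1,1,1,1,1],[1,3,9,7,3],[0,0,1,3,0],[0,0,0,0,0],[]⟩]⟩]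
def T5 : Tree := ⟨[1,3,1,7,3], n5_0, []⟩
def n6_0 : List NX := [
  ⟨⟨1, [(0,1),(1,1),(2,1),(3,1),(4,1)], [], F.fb⟩, [7,1,7,1,5],
    [⟨2,0,[1,1,0,2,1],[7,1,7,1,5],[0,1,0,0,0],[0,0,0,0,0],[]⟩,
     ⟨2,1,[1,1,1,1,0],[15,1,7,1,5],[0,1,0,0,0],[0,0,0,0,0],[]⟩,
     ⟨2,1,[1,1,1,1,0],[7,1,15,1,5],[0,1,0,0,0],[0,0,0,0,0],[]⟩,
     ⟨2,1,[1,1,0,2,1],[15,1,15,1,5],[0,1,0,0,0],[0,0,0,0,0],[]⟩]⟩]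
def T6 : Tree := ⟨[1,7,1,7,3], n6_0, []⟩
def n7_0 : List NX := [
  ⟨⟨3, [(0,1),(1,1),(2,1),(3,1),(4,1)], [[(0,1),(1,1),(2,1),(2,35),(2,5)],[(0,1),(1,1),(2,1),(2,3),(3,1)]], F.fb⟩, [3,1,3,1,7],
    [⟨2,0,[0,0,1,1,1],[3,1,3,1,7],[0,0,0,1,0],[0,0,0,0,0],[]⟩,
     ⟨2,0,[0,0,1,1,1],[11,1,3,1,7],[0,0,0,1,0],[0,0,0,0,0],[]⟩,
     ⟨2,1,[0,0,1,1,1],[3,1,11,1,7],[0,0,0,1,0],[0,0,0,0,0],[]⟩,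
     ⟨2,1,[0,0,1,1,1],[11,1,11,1,7],[0,0,0,1,0],[0,0,0,0,0],[]⟩]⟩,
  ⟨⟨0, [(0,1),(1,1),(2,1),(2,3),(3,1)], [[(0,1),(0,3),(0,1),(0,3),(1,1)],[(0,1),(0,3),(1,1),(1,3),(2,1)]], F.fb⟩, [1,3,1,3,5],
    [⟨2,0,[1,1,0,2,0],[1,3,1,3,5],[1,0,0,0,0],[0,0,0,0,0],[]⟩,
     ⟨2,0,[1,1,0,0,1],[9,3,1,3,5],[1,0,0,0,0],[0,0,0,0,0],[]⟩,
     ⟨2,0,[1,1,0,2,0],[1,3,9,3,5],[1,0,0,0,0],[0,0,0,0,0],[]⟩,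
     ⟨2,0,[1,1,0,0,1],[9,3,9,3,5],[1,0,0,0,0],[0,0,0,0,0],[]⟩]⟩,
  ⟨⟨2, [(0,1),(0,3),(1,1),(1,3),(2,1)], [[(0,1),(0,3),(0,1),(0,3),(0,5)]], F.fb⟩, [5,7,5,7,1],
    [⟨4,0,[1,1,2,2,1],[5,7,5,7,1],[0,0,0,0,1],[0,0,0,0,0],[]⟩,
     ⟨4,0,[2,2,1,1,1],[13,7,5,7,1],[0,0,0,0,1],[0,0,0,0,0],[]⟩,
     ⟨4,0,[1,1,2,2,1],[5,7,13,7,1],[0,0,0,0,1],[0,0,0,0,0],[]⟩,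
     ⟨4,0,[1,3,2,2,1],[13,7,13,7,1],[0,0,0,0,1],[0,0,0,0,0],[]⟩]⟩,
  ⟨⟨2, [(0,1),(1,1),(2,1),(2,35),(2,5)], [], F.fb⟩, [1,3,1,3,5],
    [⟨2,1,[0,0,1,1,1],[1,3,1,3,5],[0,0,0,5,0],[0,0,1,0,0],[]⟩,
     ⟨2,1,[0,0,1,1,1],[9,3,1,3,5],[0,0,0,5,0],[0,0,1,0,0],[]⟩,
     ⟨2,0,[0,0,1,1,1],[1,3,9,3,5],[0,0,1,0,0],[0,0,0,0,0],[]⟩,
     ⟨2,0,[0,0,1,1,1],[9,3,9,3,5],[0,0,1,0,0],[0,0,0,0,0],[]⟩]⟩,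
  ⟨⟨1, [(0,1),(0,3),(0,1),(0,3),(1,1)], [[(0,1),(0,3),(0,1),(0,3),(0,5)]], F.fb⟩, [5,7,5,7,1],
    [⟨4,0,[1,1,2,2,1],[5,7,5,7,1],[0,0,0,0,1],[0,0,0,0,0],[]⟩,
     ⟨4,0,[2,2,1,1,1],[13,7,5,7,1],[0,0,0,0,1],[0,0,0,0,0],[]⟩,
     ⟨4,0,[1,1,2,2,1],[5,7,13,7,1],[0,0,0,0,1],[0,0,0,0,0],[]⟩,
     ⟨4,0,[1,3,2,2,1],[13,7,13,7,1],[0,0,0,0,1],[0,0,0,0,0],[]⟩]⟩,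
  ⟨⟨0, [(0,1),(0,3),(0,1),(0,3),(0,5)], [], F.fb⟩, [1,3,1,3,5],
    [⟨4,0,[1,3,2,2,1],[1,3,1,3,5],[0,0,0,0,4],[1,1,0,0,0],[]⟩]⟩]
def T7 : Tree := ⟨[1,3,1,3,5], n7_0, []⟩
def n8_0 : List NX := [
  ⟨⟨3, [(0,1),(1,1),(2,1),(3,1),(4,1)], [], F.fb⟩, [7,5,7,1,3],
    [⟨2,0,[1,1,1,1,1],[7,5,7,1,3],[0,0,0,1,0],[0,0,0,0,0],[]⟩,
     ⟨2,1,[1,1,1,1,1],[15,5,7,1,3],[0,0,0,1,0],[0,0,0,0,0],[]⟩,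
     ⟨2,1,[1,1,1,1,1],[7,5,15,1,3],[0,0,0,1,0],[0,0,0,0,0],[]⟩,
     ⟨2,0,[1,1,1,1,1],[15,5,15,1,3],[0,0,0,1,0],[0,0,0,0,0],[]⟩]⟩]
def T8 : Tree := ⟨[1,3,1,7,5], n8_0, []⟩
def n9_0 : List NX := [
  ⟨⟨3, [(0,1),(1,1),(2,1),(3,1),(4,1)], [], F.fb⟩, [7,5,7,1,1],
    [⟨2,1,[1,1,1,1,1],[7,5,7,1,1],[0,0,0,1,0],[0,0,0,0,0],[]⟩,
     ⟨2,0,[1,1,1,1,1],[15,5,7,1,1],[0,0,0,1,0],[0,0,0,0,0],[]⟩,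
     ⟨2,0,[1,1,1,1,1],[7,5,15,1,1],[0,0,0,1,0],[0,0,0,0,0],[]⟩,
     ⟨2,1,[1,1,1,1,1],[15,5,15,1,1],[0,0,0,1,0],[0,0,0,0,0],[]⟩]⟩]
def T9 : Tree := ⟨[1,3,1,7,7], n9_0, []⟩
def trees : List Tree := [T0, T1, T2, T3, T4, T5, T6, T7, T8, T9]
def cands : List (List Nat × Nat) := [([1,3,1,3,1], 1), ([1,3,1,3,1], 3)]
def cert : List (Nat × Nat) := [(0,0),(0,0),(0,0),(0,0),(0,0),(0,0),(0,0),(0,0),(0,0),(0,0),(0,0),(0,0),(0,0),(0,0),(0,0),(0,0),(0,0),(0,3),(0,0),(2,7),(0,1),(0,0),(5,5),(0,0),(0,0),(5,4),(0,0),(4,7),(2,6),(0,0),(4,6),(0,0),(0,0),(0,0),(0,0),(0,0),(0,0),(0,0),(0,0),(0,0),(0,0),(0,0),(0,0),(0,0),(0,0),(0,0),(0,0),(0,0),(0,0),(2,3),(0,0),(3,3),(2,1),(0,0),(1,7),(0,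0),(0,0),(1,6),(0,0),(9,0),(3,1),(0,0),(9,2),(0,0),(0,0),(0,2),(0,0),(2,5),(0,0),(0,0),(5,7),(0,0),(0,0),(5,6),(0,0),(4,5),(2,4),(0,0),(4,4),(0,0),(0,0),(0,0),(0,0),(0,0),(0,0),(0,0),(0,0),(0,0),(0,0),(0,0),(0,0),(0,0),(0,0),(0,0),(0,0),(0,0),(0,0),(5,1),(0,0),(1,3),(5,3),(0,0),(6,3),(0,0),(0,0),(6,1),(0,0),(8,2),(1,1),(0,0),(8,0),(0,0),(0,0),(0,0),(0,0),(0,0),(0,0),(0,0),(0,0),(0,0),(0,0),(0,0),(0,0),(0,0),(0,0),(0,0),(0,0),(0,0),(0,0),(0,0),(0,0),(0,0),(0,0),(0,0),(0,0),(0,0),(0,0),(0,0),(0,0),(0,0),(0,0),(0,0),(0,0),(0,0),(0,0),(5,0),(0,0),(1,2),(5,2),(0,0),(6,2),(0,0),(0,0),(6,0),(0,0),(8,3),(1,0),(0,0),(8,1),(0,0),(0,0),(0,0),(0,0),(0,0),(0,0),(0,0),(0,0),(0,0),(0,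0),(0,0),(0,0),(0,0),(0,0),(0,0),(0,0),(0,0),(0,0),(4,3),(0,0),(9,4),(4,1),(0,0),(8,6),(0,0),(0,0),(8,7),(0,0),(7,3),(9,5),(0,0),(7,1),(0,0),(0,0),(2,2),(0,0),(3,2),(2,0),(0,0),(1,5),(0,0),(0,0),(1,4),(0,0),(9,1),(3,0),(0,0),(9,3),(0,0),(0,0),(0,0),(0,0),(0,0),(0,0),(0,0),(0,0),(0,0),(0,0),(0,0),(0,0),(0,0),(0,0),(0,0),(0,0),(0,0),(0,0),(4,2),(0,0),(9,6),(4,0),(0,0),(8,4),(0,0),(0,0),(8,5),(0,0),(7,2),(9,7),(0,0),(7,0),(0,0),(0,0),(0,0),(0,0),(0,0),(0,0),(0,0),(0,0),(0,0),(0,0),(0,0),(0,0),(0,0),(0,0),(0,0),(0,0),(0,0),(0,0),(0,0),(0,0),(0,0),(0,0),(0,0),(0,0),(0,0),(0,0),(0,0),(0,0),(0,0),(0,0),(0,0),(0,0),(0,0),(0,0),(0,0),(0,0),(5,7),(0,2),(0,0),(2,5),(0,0),(0,0),(2,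4),(0,0),(4,4),(5,6),(0,0),(4,5),(0,0),(0,0),(0,0),(0,0),(0,0),(0,0),(0,0),(0,0),(0,0),(0,0),(0,0),(0,0),(0,0),(0,0),(0,0),(0,0),(0,0),(0,0),(5,3),(0,0),(6,3),(5,1),(0,0),(1,3),(0,0),(0,0),(1,1),(0,0),(8,0),(6,1),(0,0),(8,2),(0,0),(0,0),(0,1),(0,0),(5,5),(0,3),(0,0),(2,7),(0,0),(0,0),(2,6),(0,0),(4,6),(5,4),(0,0),(4,7),(0,0),(0,0),(0,0),(0,0),(0,0),(0,0),(0,0),(0,0),(0,0),(0,0),(0,0),(0,0),(0,0),(0,0),(0,0),(0,0),(0,0),(0,0),(2,1),(0,0),(1,7),(2,3),(0,0),(3,3),(0,0),(0,0),(3,1),(0,0),(9,2),(1,6),(0,0),(9,0),(0,0),(0,0),(0,0),(0,0),(0,0),(0,0),(0,0),(0,0),(0,0),(0,0),(0,0),(0,0),(0,0),(0,0),(0,0),(0,0),(0,0),(0,0),(0,0),(0,0),(0,0),(0,0),(0,0),(0,0),(0,0),(0,0),(0,0),(0,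0),(0,0),(0,0),(0,0),(0,0),(0,0),(0,0),(2,0),(0,0),(1,5),(2,2),(0,0),(3,2),(0,0),(0,0),(3,0),(0,0),(9,3),(1,4),(0,0),(9,1),(0,0),(0,0),(0,0),(0,0),(0,0),(0,0),(0,0),(0,0),(0,0),(0,0),(0,0),(0,0),(0,0),(0,0),(0,0),(0,0),(0,0),(0,0),(4,0),(0,0),(8,4),(4,2),(0,0),(9,6),(0,0),(0,0),(9,7),(0,0),(7,0),(8,5),(0,0),(7,2),(0,0),(0,0),(5,2),(0,0),(6,2),(5,0),(0,0),(1,2),(0,0),(0,0),(1,0),(0,0),(8,1),(6,0),(0,0),(8,3),(0,0),(0,0),(0,0),(0,0),(0,0),(0,0),(0,0),(0,0),(0,0),(0,0),(0,0),(0,0),(0,0),(0,0),(0,0),(0,0),(0,0),(0,0),(4,1),(0,0),(8,6),(4,3),(0,0),(9,4),(0,0),(0,0),(9,5),(0,0),(7,1),(8,7),(0,0),(7,3),(0,0),(0,0),(0,0),(0,0),(0,0),(0,0),(0,0),(0,0),(0,0),(0,0),(0,0),(0,0),(0,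0),(0,0),(0,0),(0,0),(0,0),(0,0),(0,0),(0,0),(0,0),(0,0),(0,0),(0,0),(0,0),(0,0),(0,0),(0,0),(0,0),(0,0),(0,0),(0,0),(0,0),(0,0),(7,3),(0,0),(8,7),(7,1),(0,0),(9,5),(0,0),(0,0),(9,4),(0,0),(4,3),(8,6),(0,0),(4,1),(0,0),(0,0),(0,0),(0,0),(0,0),(0,0),(0,0),(0,0),(0,0),(0,0),(0,0),(0,0),(0,0),(0,0),(0,0),(0,0),(0,0),(0,0),(8,3),(0,0),(6,0),(8,1),(0,0),(1,0),(0,0),(0,0),(1,2),(0,0),(5,0),(6,2),(0,0),(5,2),(0,0),(0,0),(7,2),(0,0),(8,5),(7,0),(0,0),(9,7),(0,0),(0,0),(9,6),(0,0),(4,2),(8,4),(0,0),(4,0),(0,0),(0,0),(0,0),(0,0),(0,0),(0,0),(0,0),(0,0),(0,0),(0,0),(0,0),(0,0),(0,0),(0,0),(0,0),(0,0),(0,0),(0,0),(9,1),(0,0),(1,4),(9,3),(0,0),(3,0),(0,0),(0,0),(3,2),(0,0),(2,2),(1,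5),(0,0),(2,0),(0,0),(0,0),(0,0),(0,0),(0,0),(0,0),(0,0),(0,0),(0,0),(0,0),(0,0),(0,0),(0,0),(0,0),(0,0),(0,0),(0,0),(0,0),(0,0),(0,0),(0,0),(0,0),(0,0),(0,0),(0,0),(0,0),(0,0),(0,0),(0,0),(0,0),(0,0),(0,0),(0,0),(0,0),(9,0),(0,0),(1,6),(9,2),(0,0),(3,1),(0,0),(0,0),(3,3),(0,0),(2,3),(1,7),(0,0),(2,1),(0,0),(0,0),(0,0),(0,0),(0,0),(0,0),(0,0),(0,0),(0,0),(0,0),(0,0),(0,0),(0,0),(0,0),(0,0),(0,0),(0,0),(0,0),(4,7),(0,0),(5,4),(4,6),(0,0),(2,6),(0,0),(0,0),(2,7),(0,0),(0,3),(5,5),(0,0),(0,1),(0,0),(0,0),(8,2),(0,0),(6,1),(8,0),(0,0),(1,1),(0,0),(0,0),(1,3),(0,0),(5,1),(6,3),(0,0),(5,3),(0,0),(0,0),(0,0),(0,0),(0,0),(0,0),(0,0),(0,0),(0,0),(0,0),(0,0),(0,0),(0,0),(0,0),(0,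0),(0,0),(0,0),(0,0),(4,5),(0,0),(5,6),(4,4),(0,0),(2,4),(0,0),(0,0),(2,5),(0,0),(0,2),(5,7),(0,0),(0,0),(0,0),(0,0),(0,0),(0,0),(0,0),(0,0),(0,0),(0,0),(0,0),(0,0),(0,0),(0,0),(0,0),(0,0),(0,0),(0,0),(0,0),(0,0),(0,0),(0,0),(0,0),(0,0),(0,0),(0,0),(0,0),(0,0),(0,0),(0,0),(0,0),(0,0),(0,0),(0,0),(0,0),(0,0),(7,0),(0,0),(9,7),(7,2),(0,0),(8,5),(0,0),(0,0),(8,4),(0,0),(4,0),(9,6),(0,0),(4,2),(0,0),(0,0),(0,0),(0,0),(0,0),(0,0),(0,0),(0,0),(0,0),(0,0),(0,0),(0,0),(0,0),(0,0),(0,0),(0,0),(0,0),(0,0),(9,3),(0,0),(3,0),(9,1),(0,0),(1,4),(0,0),(0,0),(1,5),(0,0),(2,0),(3,2),(0,0),(2,2),(0,0),(0,0),(7,1),(0,0),(9,5),(7,3),(0,0),(8,7),(0,0),(0,0),(8,6),(0,0),(4,1),(9,4),(0,0),(4,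3),(0,0),(0,0),(0,0),(0,0),(0,0),(0,0),(0,0),(0,0),(0,0),(0,0),(0,0),(0,0),(0,0),(0,0),(0,0),(0,0),(0,0),(0,0),(8,1),(0,0),(1,0),(8,3),(0,0),(6,0),(0,0),(0,0),(6,2),(0,0),(5,2),(1,2),(0,0),(5,0),(0,0),(0,0),(0,0),(0,0),(0,0),(0,0),(0,0),(0,0),(0,0),(0,0),(0,0),(0,0),(0,0),(0,0),(0,0),(0,0),(0,0),(0,0),(0,0),(0,0),(0,0),(0,0),(0,0),(0,0),(0,0),(0,0),(0,0),(0,0),(0,0),(0,0),(0,0),(0,0),(0,0),(0,0),(8,0),(0,0),(1,1),(8,2),(0,0),(6,1),(0,0),(0,0),(6,3),(0,0),(5,3),(1,3),(0,0),(5,1),(0,0),(0,0),(0,0),(0,0),(0,0),(0,0),(0,0),(0,0),(0,0),(0,0),(0,0),(0,0),(0,0),(0,0),(0,0),(0,0),(0,0),(0,0),(4,4),(0,0),(2,4),(4,5),(0,0),(5,6),(0,0),(0,0),(5,7),(0,0),(0,0),(2,5),(0,0),(0,2),(0,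0),(0,0),(9,2),(0,0),(3,1),(9,0),(0,0),(1,6),(0,0),(0,0),(1,7),(0,0),(2,1),(3,3),(0,0),(2,3),(0,0),(0,0),(0,0),(0,0),(0,0),(0,0),(0,0),(0,0),(0,0),(0,0),(0,0),(0,0),(0,0),(0,0),(0,0),(0,0),(0,0),(0,0),(4,6),(0,0),(2,6),(4,7),(0,0),(5,4),(0,0),(0,0),(5,5),(0,0),(0,1),(2,7),(0,0),(0,3),(0,0),(0,0),(0,0),(0,0),(0,0),(0,0),(0,0),(0,0),(0,0),(0,0),(0,0),(0,0),(0,0),(0,0),(0,0),(0,0),(0,0)]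

end RH6.P4
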