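import Pool.Agent.RH6.T7
import Pool.Agent.RH6.DP4
import Pool.Agent.RH6.LP4
import Pool.Agent.RH6.KDat
import Pool.Agent.RH6.BAll

set_option maxRecDepth 100000

namespace RH6.P4

def bs : List (List ℕ) := [[1, 1, 0, 0, 0], [0, 2, 0, 0, 0], [0, 0, 1, 1, 0], [0, 0, 0, 2, 0], [0, 0, 0, 0, 1]]

def bi : List (List ℤ) := [[2, -1, 0, 0, 0], [0, 1, 0, 0, 0], [0, 0, 2, -1, 0], [0, 0, 0, 1, 0], [0, 0, 0, 0, 2]]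

theorem basis_ok : basisB X.F.As X.F.code bs bi = true := by decide +kernel

def tab : List (List LfC) := [
  [LfC.good 6 [[1, 0, 0, 0, 0, 0, 0], [0, 1, 0, 0, 0, 0, 0], [0, 0, 1, 0, 0, 0, 0], [0, 0, 2, -1, 0, 0, 0], [0, 0, 0, 0, 1, 0, 0], [0, 0, 0, 0, 2, -1, 0], [0, 0, 0, 0, 0, 0, 1]] [[1, 0, 0, 0, 0, 0, 0], [0, 1, 0, 0, 0, 0, 0], [0, 0, 1, 0, 0, 0, 0], [0, 0, 2, -1, 0, 0, 0], [0, 0, 0, 0, 1, 0, 0], [0, 0, 0, 0, 2, -1, 0], [0, 0, 0, 0, 0, 0, 1]],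
    LfC.good 7 [[2, -2, 0, 0, 0, 1, 1], [-4, 2, 0, 0, -1, -2, -1], [-3, 2, 0, 0, 0, -2, -1], [-3, 3, 0, 0, 0, -3, -1], [0, 0, 0, -1, 0, 0, 0], [0, 0, 1, -2, 0, 0, 0], [-2, 2, 0, 0, -1, -1, -1]] [[1, -1, 1, 0, 0, 0, 1], [-2, 1, -3, 1, 0, 0, -1], [0, 0, 0, 0, -2, 1, 0], [0, 0, 0, 0, -1, 0, 0], [-1, 0, 0, 0, 0, 0, -1], [-2, 1, -2, 0, 0, 0, -1], [-3, 3, -6, 2, 0, 0, -3]]],
  [LfC.good 13 [[1, 0, 0, 0, 0, 0, 0], [0, 1, 0, 0, 0, 0, 0], [0, 0, 0, 0, 0, 1, 0], [0, 0, 0, 0, -1, 1, 0], [0, 0, 0, 1, 0, 0, 0], [0, 0, -1, 1, 0, 0, 0], [0, 0, 0, 0, 0, 0, 1]] [[1, 0, 0, 0, 0, 0, 0], [0, 1, 0, 0, 0, 0, 0], [0, 0, 0, 0, 1, -1, 0], [0, 0, 0, 0, 1, 0, 0], [0, 0, 1, -1, 0, 0, 0], [0, 0, 1, 0, 0, 0, 0], [0, 0, 0, 0, 0, 0, 1]],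
    LfC.good 14 [[2, -2, 0, 0, 1, 0, 1], [-6, 4, 0, 0, -3, -1, -2], [-3, 2, 0, 0, -2, 0, -1], [0, 1, 0, 0, -1, 0, 0], [0, 0, 0, -1, 0, 0, 0], [0, 0, 1, -1, 0, 0, 0], [-6, 6, 0, 0, -3, -1, -3]] [[2, -1, 1, 0, 0, 0, 1], [-3, 1, -2, 1, 0, 0, -1], [0, 0, 0, 0, -1, 1, 0], [0, 0, 0, 0, -1, 0, 0], [-3, 1, -2, 0, 0, 0, -1], [-3, 0, 0, 0, 0, 0, -1], [-6, 3, -4, 2, 0, 0, -3]]]]

theorem tab_ok : famB Js BD.bads X.F.As bs cands [1, 2] tab = true := by decide +kernel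

theorem cand_ok : candB trees cands = true := by decide +kernel

end RH6.P4
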