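import Pool.Agent.RH6.DP6

set_option maxRecDepth 100000

namespace RH6.P6

theorem h_n0_0 : n0_0.all (nodeHeavy F) = true := by decide +kernel
theorem h_n1_0 : n1_0.all (nodeHeavy F) = true := by decide +kernel
theorem h_n2_0 : n2_0.all (nodeHeavy F) = true := by decide +kernel
theorem h_n3_0 : n3_0.all (nodeHeavy F) = true := by decide +kernel
theorem h_n4_0 : n4_0.all (nodeHeavy F) = true := by decide +kernel
theorem h_n5_0 : n5_0.all (nodeHeavy F) = true := by decide +kernel
theorem h_n6_0 : n6_0.all (nodeHeavy F) = true := by decide +kernel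
theorem h_n7_0 : n7_0.all (nodeHeavy F) = true := by decide +kernel

end RH6.P6
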