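import Pool.Agent.RH6.DP6

set_option maxRecDepth 100000

namespace RH6.P6

theorem h_n8_0 : n8_0.all (nodeHeavy F) = true := by decide +kernel
theorem h_n9_0 : n9_0.all (nodeHeavy F) = true := by decide +kernel
theorem h_n10_0 : n10_0.all (nodeHeavy F) = true := by decide +kernel
theorem h_n11_0 : n11_0.all (nodeHeavy F) = true := by decide +kernel
theorem h_n12_0 : n12_0.all (nodeHeavy F) = true := by decide +kernel
theorem h_n13_0 : n13_0.all (nodeHeavy F) = true := by decide +kernel
theorem h_n14_0 : n14_0.all (nodeHeavy F) = true := by decide +kernel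
theorem h_n15_0 : n15_0.all (nodeHeavy F) = true := by decide +kernel
theorem h_n16_0 : n16_0.all (nodeHeavy F) = true := by decide +kernel

end RH6.P6
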