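import Pool.Agent.RH6.Tree

namespace RH6.P6

def F : Fam := ⟨[2,2,1,1,4], 1611227145, true, true, [(0,1)]⟩
def X : FX := ⟨F, AP6, HP6, Kd.k2, [[1,1,0,2,0], [1,1,0,2,1]], false,
  [[2,3]],
  [[1,1,0,0,0], [1,0,1,1,0]],
  [[1,1,0,0,0], [1,0,1,1,0], [0,1,1,1,0], [0,0,0,0,1], [1,1,0,0,1], [1,0,1,1,1], [0,1,1,1,1], [2,0,0,0,0], [0,2,0,0,0], [0,0,2,0,0], [0,0,0,2,0], [0,0,0,0,2]]⟩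
def perms : List (List Nat) := [[0,1,2,3,4],
  [0,1,3,2,4],
  [1,0,2,3,4],
  [1,0,3,2,4]]
def n0_0 : List NX := [
  ⟨⟨0, [(0,1),(1,1),(2,1),(3,1),(4,1)], [], F.fb⟩, [1,1,1,1,1],
    [⟨2,1,[1,1,0,0,1],[1,1,1,1,1],[1,0,0,0,0],[0,0,0,0,0],[[0,0,0,0,2],[0,0,0,4,0],[0,0,4,0,0],[0,4,0,0,0],[2,2,0,0,0],[3,1,2,2,1]]⟩,
     ⟨2,1,[1,1,0,0,1],[1,1,9,1,1],[1,0,0,0,0],[0,0,0,0,0],[[0,0,0,0,2],[0,0,0,4,0],[0,0,4,0,0],[0,4,0,0,0],[2,2,0,0,0],[3,1,2,2,1]]⟩]⟩]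
def T0 : Tree := ⟨[1,1,1,1,1], n0_0, []⟩
def n1_0 : List NX := [
  ⟨⟨1, [(0,1),(1,1),(2,1),(3,1),(4,1)], [[(0,1),(0,7),(1,1),(2,1),(3,1)],[(0,1),(0,15),(1,1),(2,1),(3,1)]], F.fb⟩, [7,1,7,7,7],
    [⟨2,0,[1,1,0,0,0],[7,1,7,7,7],[0,1,0,0,0],[0,0,0,0,0],[[0,0,0,0,2],[0,0,0,4,0],[0,0,4,0,0],[0,4,0,0,0],[2,2,0,0,0],[1,1,0,0,0]]⟩,
     ⟨2,0,[1,1,0,0,0],[7,1,15,7,7],[0,1,0,0,0],[0,0,0,0,0],[[0,0,0,0,2],[0,0,0,4,0],[0,0,4,0,0],[0,4,0,0,0],[2,2,0,0,0],[1,1,0,0,0]]⟩]⟩,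
  ⟨⟨0, [(0,1),(0,7),(1,1),(2,1),(3,1)], [[(0,1),(0,7),(0,1),(0,1),(0,1)],[(0,1),(0,7),(0,1),(0,1),(1,1)]], F.fb⟩, [1,7,1,1,1],
    [⟨2,1,[1,0,1,1,1],[1,7,1,1,1],[1,0,0,0,0],[0,0,0,0,0],[[0,0,0,0,2],[0,4,0,0,0],[4,0,0,0,0],[2,0,2,2,0],[2,2,0,4,0],[3,2,1,1,1]]⟩,
     ⟨2,1,[0,1,1,1,0],[1,7,9,1,1],[0,1,0,0,0],[0,0,0,0,0],[[0,0,0,0,2],[0,4,0,0,0],[4,0,0,0,0],[0,2,2,2,0],[2,2,0,4,0],[2,3,1,1,0]]⟩]⟩,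
  ⟨⟨0, [(0,1),(0,15),(1,1),(2,1),(3,1)], [[(0,1),(0,15),(0,1),(0,1),(0,1)],[(0,1),(0,15),(0,1),(0,1),(1,1)]], F.fb⟩, [1,7,1,1,1],
    [⟨2,1,[1,0,1,1,1],[1,7,1,1,1],[1,0,0,0,0],[0,0,0,0,0],[[0,0,0,0,2],[0,4,0,0,0],[4,0,0,0,0],[2,0,2,2,0],[2,2,0,4,0],[3,2,1,1,1]]⟩,
     ⟨2,1,[0,1,1,1,0],[1,7,9,1,1],[0,1,0,0,0],[0,0,0,0,0],[[0,0,0,0,2],[0,4,0,0,0],[4,0,0,0,0],[0,2,2,2,0],[2,2,0,4,0],[2,3,1,1,0]]⟩]⟩,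
  ⟨⟨1, [(0,1),(0,7),(0,1),(0,1),(1,1)], [[(0,1),(0,7),(0,1),(0,1),(0,1)]], F.fb⟩, [1,7,1,1,1],
    [⟨4,0,[1,2,1,1,1],[1,7,1,1,1],[0,0,0,0,1],[0,0,0,0,0],[[0,0,0,0,2],[0,2,0,0,0],[2,0,0,0,1],[1,0,1,1,1],[1,1,0,2,0]]⟩,
     ⟨4,0,[1,2,3,1,1],[1,7,9,1,1],[0,0,0,0,1],[0,0,0,0,0],[[0,0,0,0,2],[0,2,0,0,0],[0,1,1,1,0],[2,0,0,0,1],[1,1,0,2,0]]⟩]⟩,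
  ⟨⟨1, [(0,1),(0,15),(0,1),(0,1),(1,1)], [[(0,1),(0,15),(0,1),(0,1),(0,1)]], F.fb⟩, [1,7,1,1,1],
    [⟨4,0,[1,2,1,1,1],[1,7,1,1,1],[0,0,0,0,1],[0,0,0,0,0],[[0,0,0,0,2],[0,2,0,0,0],[2,0,0,0,1],[1,0,1,1,1],[1,1,0,2,0]]⟩,
     ⟨4,0,[1,2,3,1,1],[1,7,9,1,1],[0,0,0,0,1],[0,0,0,0,0],[[0,0,0,0,2],[0,2,0,0,0],[0,1,1,1,0],[2,0,0,0,1],[1,1,0,2,0]]⟩]⟩]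
def T1 : Tree := ⟨[1,7,1,1,1], n1_0, [[(0,1),(0,7),(0,1),(0,1),(0,1)],[(0,1),(0,15),(0,1),(0,1),(0,1)]]⟩
def n2_0 : List NX := [
  ⟨⟨1, [(0,1),(1,1),(2,1),(3,1),(4,1)], [[(0,1),(0,5),(1,1),(2,1),(0,1)]], F.fb⟩, [5,1,7,7,5],
    [⟨2,0,[1,1,0,0,1],[5,1,7,7,5],[0,1,0,0,0],[0,0,0,0,0],[[0,0,0,0,2],[0,0,0,4,0],[0,0,4,0,0],[0,4,0,0,0],[2,2,0,0,0],[1,1,0,0,1]]⟩,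
     ⟨2,0,[1,1,0,0,1],[5,1,15,7,5],[0,1,0,0,0],[0,0,0,0,0],[[0,0,0,0,2],[0,0,0,4,0],[0,0,4,0,0],[0,4,0,0,0],[2,2,0,0,0],[1,1,0,0,1]]⟩]⟩,
  ⟨⟨0, [(0,1),(0,5),(1,1),(2,1),(0,1)], [], F.fb⟩, [1,5,3,3,1],
    [⟨2,0,[1,1,0,0,1],[1,5,3,3,1],[0,1,0,0,0],[1,0,0,0,0],[[0,0,0,0,2],[0,0,0,4,0],[0,0,4,0,0],[0,4,0,0,0],[2,2,0,0,0],[1,1,0,0,1]]⟩,
     ⟨2,0,[1,1,0,0,1],[1,5,11,3,1],[0,1,0,0,0],[1,0,0,0,0],[[0,0,0,0,2],[0,0,0,4,0],[0,0,4,0,0],[0,4,0,0,0],[2,2,0,0,0],[1,1,0,0,1]]⟩]⟩]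
def T2 : Tree := ⟨[1,5,3,3,1], n2_0, []⟩
def n3_0 : List NX := [
  ⟨⟨0, [(0,1),(1,1),(2,1),(3,1),(4,1)], [], F.fb⟩, [1,1,1,5,1],
    [⟨2,1,[1,1,0,0,1],[1,1,1,5,1],[1,0,0,0,0],[0,0,0,0,0],[[0,0,0,0,2],[0,0,0,4,0],[0,0,4,0,0],[0,4,0,0,0],[2,2,0,0,0],[3,1,2,2,1]]⟩,
     ⟨2,1,[1,1,0,0,1],[1,1,9,5,1],[1,0,0,0,0],[0,0,0,0,0],[[0,0,0,0,2],[0,0,0,4,0],[0,0,4,0,0],[0,4,0,0,0],[2,2,0,0,0],[3,1,2,2,1]]⟩]⟩]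
def T3 : Tree := ⟨[1,1,1,5,1], n3_0, []⟩
def n4_0 : List NX := [
  ⟨⟨1, [(0,1),(1,1),(2,1),(3,1),(4,1)], [], F.fb⟩, [7,1,7,3,7],
    [⟨2,1,[0,1,1,1,1],[7,1,7,3,7],[0,1,0,0,0],[0,0,0,0,0],[[0,0,0,0,2],[0,4,0,0,0],[4,0,0,0,0],[0,2,2,2,0],[2,2,0,4,0],[2,3,1,1,1]]⟩,
     ⟨2,0,[0,1,1,1,1],[7,1,15,3,7],[0,1,0,0,0],[0,0,0,0,0],[[0,0,0,0,2],[0,4,0,0,0],[4,0,0,0,0],[0,2,2,2,0],[2,2,0,4,0],[0,1,1,1,1]]⟩]⟩]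
def T4 : Tree := ⟨[1,7,1,5,1], n4_0, []⟩
def n5_0 : List NX := [
  ⟨⟨0, [(0,1),(1,1),(2,1),(3,1),(4,1)], [], F.fb⟩, [1,1,5,5,1],
    [⟨2,1,[1,1,0,0,1],[1,1,5,5,1],[1,0,0,0,0],[0,0,0,0,0],[[0,0,0,0,2],[0,0,0,4,0],[0,0,4,0,0],[0,4,0,0,0],[2,2,0,0,0],[3,1,2,2,1]]⟩,
     ⟨2,1,[1,1,0,0,1],[1,1,13,5,1],[1,0,0,0,0],[0,0,0,0,0],[[0,0,0,0,2],[0,0,0,4,0],[0,0,4,0,0],[0,4,0,0,0],[2,2,0,0,0],[3,1,2,2,1]]⟩]⟩]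
def T5 : Tree := ⟨[1,1,5,5,1], n5_0, []⟩
def n6_0 : List NX := [
  ⟨⟨1, [(0,1),(1,1),(2,1),(3,1),(4,1)], [], F.fb⟩, [5,1,7,3,5],
    [⟨2,0,[0,1,1,1,1],[5,1,7,3,5],[0,1,0,0,0],[0,0,0,0,0],[[0,0,0,0,2],[0,4,0,0,0],[4,0,0,0,0],[0,2,2,2,0],[2,2,0,4,0],[0,1,1,1,1]]⟩,
     ⟨2,1,[0,1,1,1,1],[5,1,15,3,5],[0,1,0,0,0],[0,0,0,0,0],[[0,0,0,0,2],[0,4,0,0,0],[4,0,0,0,0],[0,2,2,2,0],[2,2,0,4,0],[2,3,1,1,1]]⟩]⟩]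
def T6 : Tree := ⟨[1,5,3,7,1], n6_0, []⟩
def n7_0 : List NX := [
  ⟨⟨0, [(0,1),(1,1),(2,1),(3,1),(4,1)], [], F.fb⟩, [1,1,1,1,3],
    [⟨2,0,[1,1,0,0,1],[1,1,1,1,3],[1,0,0,0,0],[0,0,0,0,0],[[0,0,0,0,2],[0,0,0,4,0],[0,0,4,0,0],[0,4,0,0,0],[2,2,0,0,0],[1,1,0,0,1]]⟩,
     ⟨2,0,[1,1,0,0,1],[1,1,9,1,3],[1,0,0,0,0],[0,0,0,0,0],[[0,0,0,0,2],[0,0,0,4,0],[0,0,4,0,0],[0,4,0,0,0],[2,2,0,0,0],[1,1,0,0,1]]⟩]⟩]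
def T7 : Tree := ⟨[1,1,1,1,3], n7_0, []⟩
def n8_0 : List NX := [
  ⟨⟨1, [(0,1),(1,1),(2,1),(3,1),(4,1)], [[(0,1),(0,3),(0,1),(0,1),(1,1)],[(0,1),(0,3),(1,1),(2,1),(3,1)]], F.fb⟩, [3,1,3,3,1],
    [⟨2,1,[1,1,0,0,0],[3,1,3,3,1],[0,1,0,0,0],[0,0,0,0,0],[[0,0,0,0,2],[0,0,0,4,0],[0,0,4,0,0],[0,4,0,0,0],[2,2,0,0,0],[3,1,2,2,0]]⟩,
     ⟨2,1,[1,1,0,0,0],[3,1,11,3,1],[0,1,0,0,0],[0,0,0,0,0],[[0,0,0,0,2],[0,0,0,4,0],[0,0,4,0,0],[0,4,0,0,0],[2,2,0,0,0],[3,1,2,2,0]]⟩]⟩,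
  ⟨⟨0, [(0,1),(0,3),(1,1),(2,1),(3,1)], [[(0,1),(0,3),(0,1),(0,1),(0,3)],[(0,1),(0,3),(0,1),(0,1),(1,1)]], F.fb⟩, [1,3,1,1,3],
    [⟨2,0,[1,0,1,1,1],[1,3,1,1,3],[1,0,0,0,0],[0,0,0,0,0],[[0,0,0,0,2],[0,4,0,0,0],[4,0,0,0,0],[2,0,2,2,0],[2,2,0,4,0],[1,0,1,1,1]]⟩,
     ⟨2,1,[1,0,1,1,1],[1,3,9,1,3],[1,0,0,0,0],[0,0,0,0,0],[[0,0,0,0,2],[0,4,0,0,0],[4,0,0,0,0],[2,0,2,2,0],[2,2,0,4,0],[3,2,1,1,1]]⟩]⟩,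
  ⟨⟨1, [(0,1),(0,3),(0,1),(0,1),(1,1)], [[(0,1),(0,3),(0,1),(0,1),(0,3)]], F.fb⟩, [3,1,3,3,1],
    [⟨4,0,[1,2,3,1,1],[3,1,3,3,1],[0,0,0,0,1],[0,0,0,0,0],[[0,0,0,0,2],[0,2,0,0,0],[0,1,1,1,0],[2,0,0,0,1],[1,1,0,2,0]]⟩,
     ⟨4,0,[1,2,1,1,1],[3,1,11,3,1],[0,0,0,0,1],[0,0,0,0,0],[[0,0,0,0,2],[0,2,0,0,0],[2,0,0,0,1],[1,0,1,1,1],[1,1,0,2,0]]⟩]⟩]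
def T8 : Tree := ⟨[1,3,1,1,3], n8_0, [[(0,1),(0,3),(0,1),(0,1),(0,3)]]⟩
def n9_0 : List NX := [
  ⟨⟨1, [(0,1),(1,1),(2,1),(3,1),(4,1)], [], F.fb⟩, [5,1,7,7,7],
    [⟨2,1,[1,1,0,0,1],[5,1,7,7,7],[0,1,0,0,0],[0,0,0,0,0],[[0,0,0,0,2],[0,0,0,4,0],[0,0,4,0,0],[0,4,0,0,0],[2,2,0,0,0],[3,1,2,2,1]]⟩,
     ⟨2,1,[1,1,0,0,1],[5,1,15,7,7],[0,1,0,0,0],[0,0,0,0,0],[[0,0,0,0,2],[0,0,0,4,0],[0,0,4,0,0],[0,4,0,0,0],[2,2,0,0,0],[3,1,2,2,1]]⟩]⟩]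
def T9 : Tree := ⟨[1,5,3,3,3], n9_0, []⟩
def n10_0 : List NX := [
  ⟨⟨1, [(0,1),(1,1),(2,1),(3,1),(4,1)], [[(0,1),(1,1),(1,5),(1,5),(1,5)]], F.fb⟩, [7,1,5,5,5],
    [⟨2,0,[0,1,1,1,1],[7,1,5,5,5],[0,1,0,0,0],[0,0,0,0,0],[[0,0,0,0,2],[0,4,0,0,0],[4,0,0,0,0],[0,2,2,2,0],[2,2,0,4,0],[0,1,1,1,1]]⟩,
     ⟨2,1,[0,1,1,1,1],[7,1,13,5,5],[0,1,0,0,0],[0,0,0,0,0],[[0,0,0,0,2],[0,4,0,0,0],[4,0,0,0,0],[0,2,2,2,0],[2,2,0,4,0],[2,3,1,1,1]]⟩]⟩,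
  ⟨⟨0, [(0,1),(1,1),(1,5),(1,5),(1,5)], [[(0,1),(0,15),(0,3),(0,3),(0,3)]], F.fb⟩, [1,7,3,3,3],
    [⟨2,1,[1,0,1,1,0],[1,7,3,3,3],[1,0,0,0,0],[0,0,0,0,0],[[0,0,0,0,2],[0,4,0,0,0],[4,0,0,0,0],[2,0,2,2,0],[2,2,0,4,0],[3,2,1,1,0]]⟩,
     ⟨2,0,[1,0,1,1,0],[1,7,11,3,3],[1,0,0,0,0],[0,0,0,0,0],[[0,0,0,0,2],[0,4,0,0,0],[4,0,0,0,0],[2,0,2,2,0],[2,2,0,4,0],[1,0,1,1,0]]⟩]⟩,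
  ⟨⟨0, [(0,1),(0,15),(0,3),(0,3),(0,3)], [], F.fb⟩, [1,7,3,3,3],
    [⟨2,0,[0,1,1,1,1],[1,7,3,3,3],[0,0,1,1,0],[0,2,0,0,0],[[0,0,0,0,2],[0,4,0,0,0],[4,0,0,0,0],[0,2,2,2,0],[2,2,0,4,0],[0,1,1,1,1]]⟩]⟩]
def T10 : Tree := ⟨[1,7,3,3,3], n10_0, []⟩
def n11_0 : List NX := [
  ⟨⟨0, [(0,1),(1,1),(2,1),(3,1),(4,1)], [], F.fb⟩, [1,1,1,5,3],
    [⟨2,0,[1,1,0,0,1],[1,1,1,5,3],[1,0,0,0,0],[0,0,0,0,0],[[0,0,0,0,2],[0,0,0,4,0],[0,0,4,0,0],[0,4,0,0,0],[2,2,0,0,0],[1,1,0,0,1]]⟩,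
     ⟨2,0,[1,1,0,0,1],[1,1,9,5,3],[1,0,0,0,0],[0,0,0,0,0],[[0,0,0,0,2],[0,0,0,4,0],[0,0,4,0,0],[0,4,0,0,0],[2,2,0,0,0],[1,1,0,0,1]]⟩]⟩]
def T11 : Tree := ⟨[1,1,1,5,3], n11_0, []⟩
def n12_0 : List NX := [
  ⟨⟨1, [(0,1),(1,1),(2,1),(3,1),(4,1)], [[(0,1),(0,3),(1,1),(2,1),(3,1)]], F.fb⟩, [3,1,3,7,1],
    [⟨2,1,[1,1,0,0,0],[3,1,3,7,1],[0,1,0,0,0],[0,0,0,0,0],[[0,0,0,0,2],[0,0,0,4,0],[0,0,4,0,0],[0,4,0,0,0],[2,2,0,0,0],[3,1,2,2,0]]⟩,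
     ⟨2,1,[1,1,0,0,0],[3,1,11,7,1],[0,1,0,0,0],[0,0,0,0,0],[[0,0,0,0,2],[0,0,0,4,0],[0,0,4,0,0],[0,4,0,0,0],[2,2,0,0,0],[3,1,2,2,0]]⟩]⟩,
  ⟨⟨2, [(0,1),(0,3),(1,1),(2,1),(3,1)], [[(0,1),(0,3),(0,1),(0,5),(1,1)],[(0,1),(0,3),(0,1),(0,21),(1,1)]], F.fb⟩, [5,7,5,1,7],
    [⟨2,0,[1,0,1,1,0],[5,7,5,1,7],[0,0,0,1,0],[0,0,0,0,0],[[0,0,0,0,2],[0,4,0,0,0],[4,0,0,0,0],[2,0,2,2,0],[2,2,0,4,0],[1,0,1,1,0]]⟩,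
     ⟨2,1,[0,1,1,1,1],[5,7,13,1,7],[0,0,0,1,0],[0,0,0,0,0],[[0,0,0,0,2],[0,4,0,0,0],[4,0,0,0,0],[0,2,2,2,0],[2,2,0,4,0],[2,3,1,1,1]]⟩]⟩,
  ⟨⟨0, [(0,1),(0,3),(0,1),(0,5),(1,1)], [], F.fb⟩, [1,3,1,5,3],
    [⟨2,1,[0,1,1,1,1],[1,3,1,5,3],[0,1,0,0,0],[0,0,0,0,0],[[0,0,0,0,2],[0,4,0,0,0],[4,0,0,0,0],[0,2,2,2,0],[2,2,0,4,0],[2,3,1,1,1]]⟩,
     ⟨2,0,[1,0,1,1,0],[1,3,9,5,3],[0,0,1,0,0],[1,0,0,0,0],[[0,0,0,0,2],[0,4,0,0,0],[4,0,0,0,0],[2,0,2,2,0],[2,2,0,4,0],[1,0,1,1,0]]⟩]⟩,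
  ⟨⟨0, [(0,1),(0,3),(0,1),(0,21),(1,1)], [], F.fb⟩, [1,3,1,5,3],
    [⟨2,1,[1,0,1,1,0],[1,3,1,5,3],[0,0,1,0,0],[1,0,0,0,0],[[0,0,0,0,2],[0,4,0,0,0],[4,0,0,0,0],[2,0,2,2,0],[2,2,0,4,0],[3,2,1,1,0]]⟩,
     ⟨2,0,[1,0,1,1,0],[1,3,9,5,3],[1,0,0,0,0],[0,0,0,0,0],[[0,0,0,0,2],[0,4,0,0,0],[4,0,0,0,0],[2,0,2,2,0],[2,2,0,4,0],[1,0,1,1,0]]⟩]⟩]
def T12 : Tree := ⟨[1,3,1,5,3], n12_0, []⟩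
def n13_0 : List NX := [
  ⟨⟨0, [(0,1),(1,1),(2,1),(3,1),(4,1)], [], F.fb⟩, [1,1,5,5,3],
    [⟨2,0,[1,1,0,0,1],[1,1,5,5,3],[1,0,0,0,0],[0,0,0,0,0],[[0,0,0,0,2],[0,0,0,4,0],[0,0,4,0,0],[0,4,0,0,0],[2,2,0,0,0],[1,1,0,0,1]]⟩,
     ⟨2,0,[1,1,0,0,1],[1,1,13,5,3],[1,0,0,0,0],[0,0,0,0,0],[[0,0,0,0,2],[0,0,0,4,0],[0,0,4,0,0],[0,4,0,0,0],[2,2,0,0,0],[1,1,0,0,1]]⟩]⟩]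
def T13 : Tree := ⟨[1,1,5,5,3], n13_0, []⟩
def n14_0 : List NX := [
  ⟨⟨0, [(0,1),(1,1),(2,1),(3,1),(4,1)], [], F.fb⟩, [1,3,5,5,3],
    [⟨2,1,[1,0,1,1,1],[1,3,5,5,3],[1,0,0,0,0],[0,0,0,0,0],[[0,0,0,0,2],[0,4,0,0,0],[4,0,0,0,0],[2,0,2,2,0],[2,2,0,4,0],[3,2,1,1,1]]⟩,
     ⟨2,0,[1,0,1,1,1],[1,3,13,5,3],[1,0,0,0,0],[0,0,0,0,0],[[0,0,0,0,2],[0,4,0,0,0],[4,0,0,0,0],[2,0,2,2,0],[2,2,0,4,0],[1,0,1,1,1]]⟩]⟩]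
def T14 : Tree := ⟨[1,3,5,5,3], n14_0, []⟩
def n15_0 : List NX := [
  ⟨⟨1, [(0,1),(1,1),(2,1),(3,1),(4,1)], [], F.fb⟩, [5,1,7,3,7],
    [⟨2,1,[1,1,0,0,1],[5,1,7,3,7],[0,1,0,0,0],[0,0,0,0,0],[[0,0,0,0,2],[0,0,0,4,0],[0,0,4,0,0],[0,4,0,0,0],[2,2,0,0,0],[3,1,2,2,1]]⟩,
     ⟨2,1,[1,1,0,0,1],[5,1,15,3,7],[0,1,0,0,0],[0,0,0,0,0],[[0,0,0,0,2],[0,0,0,4,0],[0,0,4,0,0],[0,4,0,0,0],[2,2,0,0,0],[3,1,2,2,1]]⟩]⟩]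
def T15 : Tree := ⟨[1,5,3,7,3], n15_0, []⟩
def n16_0 : List NX := [
  ⟨⟨0, [(0,1),(1,1),(2,1),(3,1),(4,1)], [], F.fb⟩, [1,1,1,1,5],
    [⟨2,1,[1,1,0,0,1],[1,1,1,1,5],[1,0,0,0,0],[0,0,0,0,0],[[0,0,0,0,2],[0,0,0,4,0],[0,0,4,0,0],[0,4,0,0,0],[2,2,0,0,0],[3,1,2,2,1]]⟩,
     ⟨2,1,[1,1,0,0,1],[1,1,9,1,5],[1,0,0,0,0],[0,0,0,0,0],[[0,0,0,0,2],[0,0,0,4,0],[0,0,4,0,0],[0,4,0,0,0],[2,2,0,0,0],[3,1,2,2,1]]⟩]⟩]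
def T16 : Tree := ⟨[1,1,1,1,5], n16_0, []⟩
def n17_0 : List NX := [
  ⟨⟨0, [(0,1),(1,1),(2,1),(3,1),(4,1)], [[(0,1),(1,1),(0,1),(0,1),(2,1)]], F.fb⟩, [1,7,1,1,5],
    [⟨2,1,[1,0,1,1,1],[1,7,1,1,5],[1,0,0,0,0],[0,0,0,0,0],[[0,0,0,0,2],[0,4,0,0,0],[4,0,0,0,0],[2,0,2,2,0],[2,2,0,4,0],[3,2,1,1,1]]⟩,
     ⟨2,0,[1,0,1,1,1],[1,7,9,1,5],[1,0,0,0,0],[0,0,0,0,0],[[0,0,0,0,2],[0,4,0,0,0],[4,0,0,0,0],[2,0,2,2,0],[2,2,0,4,0],[1,0,1,1,1]]⟩]⟩,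
  ⟨⟨1, [(0,1),(1,1),(0,1),(0,1),(2,1)], [[(0,1),(0,7),(0,1),(0,1),(1,1)],[(0,1),(0,15),(0,1),(0,1),(1,1)]], F.fb⟩, [7,1,7,7,3],
    [⟨2,0,[1,1,0,0,0],[7,1,7,7,3],[0,1,0,0,0],[0,0,0,0,0],[[0,0,0,0,2],[0,0,0,4,0],[0,0,4,0,0],[0,4,0,0,0],[2,2,0,0,0],[1,1,0,0,0]]⟩,
     ⟨2,0,[1,1,0,0,0],[7,1,15,7,3],[0,1,0,0,0],[0,0,0,0,0],[[0,0,0,0,2],[0,0,0,4,0],[0,0,4,0,0],[0,4,0,0,0],[2,2,0,0,0],[1,1,0,0,0]]⟩]⟩,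
  ⟨⟨1, [(0,1),(0,7),(0,1),(0,1),(1,1)], [[(0,1),(0,7),(0,1),(0,1),(0,5)]], F.fb⟩, [5,3,5,5,1],
    [⟨4,0,[1,2,1,1,1],[5,3,5,5,1],[0,0,0,0,1],[0,0,0,0,0],[[0,0,0,0,2],[0,2,0,0,0],[2,0,0,0,1],[1,0,1,1,1],[1,1,0,2,0]]⟩,
     ⟨4,0,[1,2,3,1,1],[5,3,13,5,1],[0,0,0,0,1],[0,0,0,0,0],[[0,0,0,0,2],[0,2,0,0,0],[0,1,1,1,0],[2,0,0,0,1],[1,1,0,2,0]]⟩]⟩,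
  ⟨⟨1, [(0,1),(0,15),(0,1),(0,1),(1,1)], [[(0,1),(0,15),(0,1),(0,1),(0,5)]], F.fb⟩, [5,3,5,5,1],
    [⟨4,0,[1,2,1,1,1],[5,3,5,5,1],[0,0,0,0,1],[0,0,0,0,0],[[0,0,0,0,2],[0,2,0,0,0],[2,0,0,0,1],[1,0,1,1,1],[1,1,0,2,0]]⟩,
     ⟨4,0,[1,2,3,1,1],[5,3,13,5,1],[0,0,0,0,1],[0,0,0,0,0],[[0,0,0,0,2],[0,2,0,0,0],[0,1,1,1,0],[2,0,0,0,1],[1,1,0,2,0]]⟩]⟩]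
def T17 : Tree := ⟨[1,7,1,1,5], n17_0, [[(0,1),(0,7),(0,1),(0,1),(0,5)],[(0,1),(0,15),(0,1),(0,1),(0,5)]]⟩
def n18_0 : List NX := [
  ⟨⟨1, [(0,1),(1,1),(2,1),(3,1),(4,1)], [[(0,1),(0,5),(1,1),(2,1),(0,5)]], F.fb⟩, [5,1,7,7,1],
    [⟨2,0,[1,1,0,0,1],[5,1,7,7,1],[0,1,0,0,0],[0,0,0,0,0],[[0,0,0,0,2],[0,0,0,4,0],[0,0,4,0,0],[0,4,0,0,0],[2,2,0,0,0],[1,1,0,0,1]]⟩,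
     ⟨2,0,[1,1,0,0,1],[5,1,15,7,1],[0,1,0,0,0],[0,0,0,0,0],[[0,0,0,0,2],[0,0,0,4,0],[0,0,4,0,0],[0,4,0,0,0],[2,2,0,0,0],[1,1,0,0,1]]⟩]⟩,
  ⟨⟨0, [(0,1),(0,5),(1,1),(2,1),(0,5)], [], F.fb⟩, [1,5,3,3,5],
    [⟨2,0,[1,1,0,0,1],[1,5,3,3,5],[0,5,0,0,0],[1,0,0,0,0],[[0,0,0,0,2],[0,0,0,4,0],[0,0,4,0,0],[0,4,0,0,0],[2,2,0,0,0],[1,1,0,0,1]]⟩,
     ⟨2,0,[1,1,0,0,1],[1,5,11,3,5],[0,5,0,0,0],[1,0,0,0,0],[[0,0,0,0,2],[0,0,0,4,0],[0,0,4,0,0],[0,4,0,0,0],[2,2,0,0,0],[1,1,0,0,1]]⟩]⟩]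
def T18 : Tree := ⟨[1,5,3,3,5], n18_0, []⟩
def n19_0 : List NX := [
  ⟨⟨0, [(0,1),(1,1),(2,1),(3,1),(4,1)], [], F.fb⟩, [1,1,1,5,5],
    [⟨2,1,[1,1,0,0,1],[1,1,1,5,5],[1,0,0,0,0],[0,0,0,0,0],[[0,0,0,0,2],[0,0,0,4,0],[0,0,4,0,0],[0,4,0,0,0],[2,2,0,0,0],[3,1,2,2,1]]⟩,
     ⟨2,1,[1,1,0,0,1],[1,1,9,5,5],[1,0,0,0,0],[0,0,0,0,0],[[0,0,0,0,2],[0,0,0,4,0],[0,0,4,0,0],[0,4,0,0,0],[2,2,0,0,0],[3,1,2,2,1]]⟩]⟩]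
def T19 : Tree := ⟨[1,1,1,5,5], n19_0, []⟩
def n20_0 : List NX := [
  ⟨⟨1, [(0,1),(1,1),(2,1),(3,1),(4,1)], [[(0,1),(1,1),(1,15),(1,3),(1,3)]], F.fb⟩, [7,1,7,3,3],
    [⟨2,1,[0,1,1,1,1],[7,1,7,3,3],[0,1,0,0,0],[0,0,0,0,0],[[0,0,0,0,2],[0,4,0,0,0],[4,0,0,0,0],[0,2,2,2,0],[2,2,0,4,0],[2,3,1,1,1]]⟩,
     ⟨2,0,[0,1,1,1,1],[7,1,15,3,3],[0,1,0,0,0],[0,0,0,0,0],[[0,0,0,0,2],[0,4,0,0,0],[4,0,0,0,0],[0,2,2,2,0],[2,2,0,4,0],[0,1,1,1,1]]⟩]⟩,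
  ⟨⟨0, [(0,1),(1,1),(1,15),(1,3),(1,3)], [[(0,1),(0,15),(0,1),(0,5),(0,5)]], F.fb⟩, [1,7,1,5,5],
    [⟨2,1,[1,0,1,1,0],[1,7,1,5,5],[1,0,0,0,0],[0,0,0,0,0],[[0,0,0,0,2],[0,4,0,0,0],[4,0,0,0,0],[2,0,2,2,0],[2,2,0,4,0],[3,2,1,1,0]]⟩,
     ⟨2,0,[1,0,1,1,0],[1,7,9,5,5],[1,0,0,0,0],[0,0,0,0,0],[[0,0,0,0,2],[0,4,0,0,0],[4,0,0,0,0],[2,0,2,2,0],[2,2,0,4,0],[1,0,1,1,0]]⟩]⟩,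
  ⟨⟨0, [(0,1),(0,15),(0,1),(0,5),(0,5)], [], F.fb⟩, [1,7,1,5,5],
    [⟨2,1,[0,1,1,1,1],[1,7,1,5,5],[0,0,1,1,0],[0,6,0,0,0],[[0,0,0,0,2],[0,4,0,0,0],[4,0,0,0,0],[0,2,2,2,0],[2,2,0,4,0],[2,3,1,1,1]]⟩]⟩]
def T20 : Tree := ⟨[1,7,1,5,5], n20_0, []⟩
def n21_0 : List NX := [
  ⟨⟨0, [(0,1),(1,1),(2,1),(3,1),(4,1)], [], F.fb⟩, [1,1,5,5,5],
    [⟨2,1,[1,1,0,0,1],[1,1,5,5,5],[1,0,0,0,0],[0,0,0,0,0],[[0,0,0,0,2],[0,0,0,4,0],[0,0,4,0,0],[0,4,0,0,0],[2,2,0,0,0],[3,1,2,2,1]]⟩,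
     ⟨2,1,[1,1,0,0,1],[1,1,13,5,5],[1,0,0,0,0],[0,0,0,0,0],[[0,0,0,0,2],[0,0,0,4,0],[0,0,4,0,0],[0,4,0,0,0],[2,2,0,0,0],[3,1,2,2,1]]⟩]⟩]
def T21 : Tree := ⟨[1,1,5,5,5], n21_0, []⟩
def n22_0 : List NX := [
  ⟨⟨0, [(0,1),(1,1),(2,1),(3,1),(4,1)], [], F.fb⟩, [1,1,1,1,7],
    [⟨2,0,[1,1,0,0,1],[1,1,1,1,7],[1,0,0,0,0],[0,0,0,0,0],[[0,0,0,0,2],[0,0,0,4,0],[0,0,4,0,0],[0,4,0,0,0],[2,2,0,0,0],[1,1,0,0,1]]⟩,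
     ⟨2,0,[1,1,0,0,1],[1,1,9,1,7],[1,0,0,0,0],[0,0,0,0,0],[[0,0,0,0,2],[0,0,0,4,0],[0,0,4,0,0],[0,4,0,0,0],[2,2,0,0,0],[1,1,0,0,1]]⟩]⟩]
def T22 : Tree := ⟨[1,1,1,1,7], n22_0, []⟩
def n23_0 : List NX := [
  ⟨⟨0, [(0,1),(1,1),(2,1),(3,1),(4,1)], [[(0,1),(1,1),(0,1),(0,1),(2,1)]], F.fb⟩, [1,3,1,1,7],
    [⟨2,0,[1,0,1,1,1],[1,3,1,1,7],[1,0,0,0,0],[0,0,0,0,0],[[0,0,0,0,2],[0,4,0,0,0],[4,0,0,0,0],[2,0,2,2,0],[2,2,0,4,0],[1,0,1,1,1]]⟩,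
     ⟨2,1,[1,0,1,1,1],[1,3,9,1,7],[1,0,0,0,0],[0,0,0,0,0],[[0,0,0,0,2],[0,4,0,0,0],[4,0,0,0,0],[2,0,2,2,0],[2,2,0,4,0],[3,2,1,1,1]]⟩]⟩,
  ⟨⟨1, [(0,1),(1,1),(0,1),(0,1),(2,1)], [[(0,1),(0,3),(0,1),(0,1),(1,1)]], F.fb⟩, [3,1,3,3,5],
    [⟨2,1,[1,1,0,0,0],[3,1,3,3,5],[0,1,0,0,0],[0,0,0,0,0],[[0,0,0,0,2],[0,0,0,4,0],[0,0,4,0,0],[0,4,0,0,0],[2,2,0,0,0],[3,1,2,2,0]]⟩,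
     ⟨2,1,[1,1,0,0,0],[3,1,11,3,5],[0,1,0,0,0],[0,0,0,0,0],[[0,0,0,0,2],[0,0,0,4,0],[0,0,4,0,0],[0,4,0,0,0],[2,2,0,0,0],[3,1,2,2,0]]⟩]⟩,
  ⟨⟨1, [(0,1),(0,3),(0,1),(0,1),(1,1)], [[(0,1),(0,3),(0,1),(0,1),(0,7)],[(0,1),(0,3),(0,1),(0,1),(0,15)]], F.fb⟩, [7,5,7,7,1],
    [⟨4,0,[1,2,3,1,1],[7,5,7,7,1],[0,0,0,0,1],[0,0,0,0,0],[[0,0,0,0,2],[0,2,0,0,0],[0,1,1,1,0],[2,0,0,0,1],[1,1,0,2,0]]⟩,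
     ⟨4,0,[1,2,1,1,1],[7,5,15,7,1],[0,0,0,0,1],[0,0,0,0,0],[[0,0,0,0,2],[0,2,0,0,0],[2,0,0,0,1],[1,0,1,1,1],[1,1,0,2,0]]⟩]⟩]
def T23 : Tree := ⟨[1,3,1,1,7], n23_0, [[(0,1),(0,3),(0,1),(0,1),(0,7)],[(0,1),(0,3),(0,1),(0,1),(0,15)]]⟩
def n24_0 : List NX := [
  ⟨⟨1, [(0,1),(1,1),(2,1),(3,1),(4,1)], [], F.fb⟩, [5,1,7,7,3],
    [⟨2,1,[1,1,0,0,1],[5,1,7,7,3],[0,1,0,0,0],[0,0,0,0,0],[[0,0,0,0,2],[0,0,0,4,0],[0,0,4,0,0],[0,4,0,0,0],[2,2,0,0,0],[3,1,2,2,1]]⟩,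
     ⟨2,1,[1,1,0,0,1],[5,1,15,7,3],[0,1,0,0,0],[0,0,0,0,0],[[0,0,0,0,2],[0,0,0,4,0],[0,0,4,0,0],[0,4,0,0,0],[2,2,0,0,0],[3,1,2,2,1]]⟩]⟩]
def T24 : Tree := ⟨[1,5,3,3,7], n24_0, []⟩
def n25_0 : List NX := [
  ⟨⟨1, [(0,1),(1,1),(2,1),(3,1),(4,1)], [[(0,1),(1,1),(1,5),(1,5),(1,1)]], F.fb⟩, [7,1,5,5,1],
    [⟨2,0,[0,1,1,1,1],[7,1,5,5,1],[0,1,0,0,0],[0,0,0,0,0],[[0,0,0,0,2],[0,4,0,0,0],[4,0,0,0,0],[0,2,2,2,0],[2,2,0,4,0],[0,1,1,1,1]]⟩,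
     ⟨2,1,[0,1,1,1,1],[7,1,13,5,1],[0,1,0,0,0],[0,0,0,0,0],[[0,0,0,0,2],[0,4,0,0,0],[4,0,0,0,0],[0,2,2,2,0],[2,2,0,4,0],[2,3,1,1,1]]⟩]⟩,
  ⟨⟨0, [(0,1),(1,1),(1,5),(1,5),(1,1)], [[(0,1),(0,15),(0,3),(0,3),(0,15)]], F.fb⟩, [1,7,3,3,7],
    [⟨2,1,[1,0,1,1,0],[1,7,3,3,7],[1,0,0,0,0],[0,0,0,0,0],[[0,0,0,0,2],[0,4,0,0,0],[4,0,0,0,0],[2,0,2,2,0],[2,2,0,4,0],[3,2,1,1,0]]⟩,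
     ⟨2,0,[1,0,1,1,0],[1,7,11,3,7],[1,0,0,0,0],[0,0,0,0,0],[[0,0,0,0,2],[0,4,0,0,0],[4,0,0,0,0],[2,0,2,2,0],[2,2,0,4,0],[1,0,1,1,0]]⟩]⟩,
  ⟨⟨0, [(0,1),(0,15),(0,3),(0,3),(0,15)], [], F.fb⟩, [1,7,3,3,7],
    [⟨2,0,[0,1,1,1,1],[1,7,3,3,7],[0,0,1,1,0],[0,10,0,0,0],[[0,0,0,0,2],[0,4,0,0,0],[4,0,0,0,0],[0,2,2,2,0],[2,2,0,4,0],[0,1,1,1,1]]⟩]⟩]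
def T25 : Tree := ⟨[1,7,3,3,7], n25_0, []⟩
def n26_0 : List NX := [
  ⟨⟨0, [(0,1),(1,1),(2,1),(3,1),(4,1)], [], F.fb⟩, [1,1,1,5,7],
    [⟨2,0,[1,1,0,0,1],[1,1,1,5,7],[1,0,0,0,0],[0,0,0,0,0],[[0,0,0,0,2],[0,0,0,4,0],[0,0,4,0,0],[0,4,0,0,0],[2,2,0,0,0],[1,1,0,0,1]]⟩,
     ⟨2,0,[1,1,0,0,1],[1,1,9,5,7],[1,0,0,0,0],[0,0,0,0,0],[[0,0,0,0,2],[0,0,0,4,0],[0,0,4,0,0],[0,4,0,0,0],[2,2,0,0,0],[1,1,0,0,1]]⟩]⟩]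
def T26 : Tree := ⟨[1,1,1,5,7], n26_0, []⟩
def n27_0 : List NX := [
  ⟨⟨1, [(0,1),(1,1),(2,1),(3,1),(4,1)], [], F.fb⟩, [3,1,3,7,5],
    [⟨2,0,[0,1,1,1,1],[3,1,3,7,5],[0,1,0,0,0],[0,0,0,0,0],[[0,0,0,0,2],[0,4,0,0,0],[4,0,0,0,0],[0,2,2,2,0],[2,2,0,4,0],[0,1,1,1,1]]⟩,
     ⟨2,1,[0,1,1,1,1],[3,1,11,7,5],[0,1,0,0,0],[0,0,0,0,0],[[0,0,0,0,2],[0,4,0,0,0],[4,0,0,0,0],[0,2,2,2,0],[2,2,0,4,0],[2,3,1,1,1]]⟩]⟩]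
def T27 : Tree := ⟨[1,3,1,5,7], n27_0, []⟩
def n28_0 : List NX := [
  ⟨⟨0, [(0,1),(1,1),(2,1),(3,1),(4,1)], [], F.fb⟩, [1,1,5,5,7],
    [⟨2,0,[1,1,0,0,1],[1,1,5,5,7],[1,0,0,0,0],[0,0,0,0,0],[[0,0,0,0,2],[0,0,0,4,0],[0,0,4,0,0],[0,4,0,0,0],[2,2,0,0,0],[1,1,0,0,1]]⟩,
     ⟨2,0,[1,1,0,0,1],[1,1,13,5,7],[1,0,0,0,0],[0,0,0,0,0],[[0,0,0,0,2],[0,0,0,4,0],[0,0,4,0,0],[0,4,0,0,0],[2,2,0,0,0],[1,1,0,0,1]]⟩]⟩]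
def T28 : Tree := ⟨[1,1,5,5,7], n28_0, []⟩
def n29_0 : List NX := [
  ⟨⟨0, [(0,1),(1,1),(2,1),(3,1),(4,1)], [], F.fb⟩, [1,3,5,5,7],
    [⟨2,1,[1,0,1,1,1],[1,3,5,5,7],[1,0,0,0,0],[0,0,0,0,0],[[0,0,0,0,2],[0,4,0,0,0],[4,0,0,0,0],[2,0,2,2,0],[2,2,0,4,0],[3,2,1,1,1]]⟩,
     ⟨2,0,[1,0,1,1,1],[1,3,13,5,7],[1,0,0,0,0],[0,0,0,0,0],[[0,0,0,0,2],[0,4,0,0,0],[4,0,0,0,0],[2,0,2,2,0],[2,2,0,4,0],[1,0,1,1,1]]⟩]⟩]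
def T29 : Tree := ⟨[1,3,5,5,7], n29_0, []⟩
def trees : List Tree := [T0, T1, T2, T3, T4, T5, T6, T7, T8, T9, T10, T11, T12, T13, T14, T15, T16, T17, T18, T19, T20, T21, T22, T23, T24, T25, T26, T27, T28, T29]
def cands : List (List Nat × Nat) := [([1,3,1,1,3], 1), ([1,3,1,1,3], 3), ([1,3,1,1,7], 1), ([1,3,1,1,15], 1), ([1,3,1,1,15], 3), ([1,7,1,1,1], 1), ([1,7,1,1,5], 1), ([1,15,1,1,1], 1), ([1,15,1,1,5], 1), ([1,15,1,1,5], 5)]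
def cert : List (Nat × Nat) := [(0,0),(0,0),(0,0),(1,2),(0,0),(0,0),(10,2),(9,2),(0,0),(10,0),(21,0),(0,0),(1,0),(9,0),(0,0),(0,0),(0,0),(0,0),(0,0),(0,0),(0,0),(0,0),(0,0),(0,0),(0,0),(0,0),(0,0),(0,0),(0,0),(0,0),(0,0),(0,0),(3,1),(0,0),(0,0),(4,3),(0,0),(0,0),(20,0),(15,3),(0,0),(20,2),(19,0),(0,0),(4,1),(15,1),(0,0),(0,0),(0,0),(0,0),(0,0),(0,0),(0,0),(0,0),(0,0),(0,0),(0,0),(0,0),(0,0),(0,0),(0,0),(0,0),(0,0),(0,0),(0,0),(0,0),(0,0),(0,0),(0,0),(0,0),(0,0),(0,0),(0,0),(0,0),(0,0),(0,0),(0,0),(0,0),(0,0),(0,0),(0,0),(8,0),(2,2),(0,0),(8,2),(7,0),(0,0),(0,0),(2,0),(0,0),(0,0),(29,0),(0,0),(0,0),(29,2),(28,0),(0,0),(0,0),(0,0),(0,0),(0,0),(0,0),(0,0),(0,0),(0,0),(0,0),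(0,0),(0,0),(0,0),(0,0),(0,0),(0,0),(0,0),(12,1),(6,3),(0,0),(12,3),(11,1),(0,0),(0,0),(6,1),(0,0),(0,0),(27,0),(0,0),(0,0),(27,2),(26,0),(3,0),(0,0),(0,0),(4,2),(0,0),(0,0),(20,1),(15,2),(0,0),(20,3),(19,1),(0,0),(4,0),(15,0),(0,0),(0,0),(0,0),(0,0),(0,0),(0,0),(0,0),(0,0),(0,0),(0,0),(0,0),(0,0),(0,0),(0,0),(0,0),(0,0),(0,0),(0,0),(5,0),(0,0),(0,0),(25,0),(0,0),(0,0),(17,0),(24,0),(0,0),(17,2),(16,0),(0,0),(25,2),(24,2),(0,0),(0,0),(0,0),(0,0),(0,0),(0,0),(0,0),(0,0),(0,0),(0,0),(0,0),(0,0),(0,0),(0,0),(0,0),(0,0),(0,0),(0,0),(0,0),(0,0),(0,0),(0,0),(0,0),(0,0),(0,0),(0,0),(0,0),(0,0),(0,0),(0,0),(0,0),(0,0),(0,0),(0,0),(0,0),(12,0),(6,2),(0,0),(12,2),(11,0),(0,0),(0,0)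,(6,0),(0,0),(0,0),(27,1),(0,0),(0,0),(27,3),(26,1),(0,0),(0,0),(0,0),(0,0),(0,0),(0,0),(0,0),(0,0),(0,0),(0,0),(0,0),(0,0),(0,0),(0,0),(0,0),(0,0),(0,0),(14,0),(18,0),(0,0),(14,2),(13,0),(0,0),(0,0),(18,2),(0,0),(0,0),(23,0),(0,0),(0,0),(23,2),(22,0),(7,0),(8,2),(0,0),(0,0),(8,0),(0,0),(0,0),(2,2),(0,0),(0,0),(28,0),(29,2),(0,0),(2,0),(29,0),(0,0),(0,0),(0,0),(0,0),(0,0),(0,0),(0,0),(0,0),(0,0),(0,0),(0,0),(0,0),(0,0),(0,0),(0,0),(0,0),(0,0),(11,1),(12,3),(0,0),(0,0),(12,1),(0,0),(0,0),(6,3),(0,0),(0,0),(26,0),(27,2),(0,0),(6,1),(27,0),(0,0),(0,0),(0,0),(0,0),(0,0),(0,0),(0,0),(0,0),(0,0),(0,0),(0,0),(0,0),(0,0),(0,0),(0,0),(0,0),(0,0),(0,0),(0,0),(0,0),(0,0),(0,0),(0,0)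,(0,0),(0,0),(0,0),(0,0),(0,0),(0,0),(0,0),(0,0),(0,0),(0,0),(0,0),(0,0),(9,2),(10,2),(0,0),(0,0),(1,2),(0,0),(9,0),(1,0),(0,0),(0,0),(10,0),(0,0),(0,0),(21,0),(0,0),(0,0),(0,0),(0,0),(0,0),(0,0),(0,0),(0,0),(0,0),(0,0),(0,0),(0,0),(0,0),(0,0),(0,0),(0,0),(0,0),(0,0),(15,3),(20,0),(0,0),(3,1),(4,3),(0,0),(15,1),(4,1),(0,0),(0,0),(20,2),(0,0),(0,0),(19,0),(11,0),(12,2),(0,0),(0,0),(12,0),(0,0),(0,0),(6,2),(0,0),(0,0),(26,1),(27,3),(0,0),(6,0),(27,1),(0,0),(0,0),(0,0),(0,0),(0,0),(0,0),(0,0),(0,0),(0,0),(0,0),(0,0),(0,0),(0,0),(0,0),(0,0),(0,0),(0,0),(13,0),(14,2),(0,0),(0,0),(14,0),(0,0),(0,0),(18,0),(0,0),(0,0),(22,0),(23,2),(0,0),(18,2),(23,0),(0,0),(0,0),(0,0),(0,0),(0,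0),(0,0),(0,0),(0,0),(0,0),(0,0),(0,0),(0,0),(0,0),(0,0),(0,0),(0,0),(0,0),(0,0),(0,0),(0,0),(0,0),(0,0),(0,0),(0,0),(0,0),(0,0),(0,0),(0,0),(0,0),(0,0),(0,0),(0,0),(0,0),(0,0),(0,0),(15,2),(20,1),(0,0),(3,0),(4,2),(0,0),(15,0),(4,0),(0,0),(0,0),(20,3),(0,0),(0,0),(19,1),(0,0),(0,0),(0,0),(0,0),(0,0),(0,0),(0,0),(0,0),(0,0),(0,0),(0,0),(0,0),(0,0),(0,0),(0,0),(0,0),(0,0),(0,0),(24,0),(17,0),(0,0),(5,0),(25,0),(0,0),(24,2),(25,2),(0,0),(0,0),(17,2),(0,0),(0,0),(16,0),(16,0),(0,0),(0,0),(17,2),(0,0),(0,0),(25,2),(24,2),(0,0),(25,0),(5,0),(0,0),(17,0),(24,0),(0,0),(0,0),(0,0),(0,0),(0,0),(0,0),(0,0),(0,0),(0,0),(0,0),(0,0),(0,0),(0,0),(0,0),(0,0),(0,0),(0,0),(0,0),(19,1),(0,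0),(0,0),(20,3),(0,0),(0,0),(4,0),(15,0),(0,0),(4,2),(3,0),(0,0),(20,1),(15,2),(0,0),(0,0),(0,0),(0,0),(0,0),(0,0),(0,0),(0,0),(0,0),(0,0),(0,0),(0,0),(0,0),(0,0),(0,0),(0,0),(0,0),(0,0),(0,0),(0,0),(0,0),(0,0),(0,0),(0,0),(0,0),(0,0),(0,0),(0,0),(0,0),(0,0),(0,0),(0,0),(0,0),(0,0),(0,0),(23,0),(18,2),(0,0),(23,2),(22,0),(0,0),(0,0),(18,0),(0,0),(0,0),(14,0),(0,0),(0,0),(14,2),(13,0),(0,0),(0,0),(0,0),(0,0),(0,0),(0,0),(0,0),(0,0),(0,0),(0,0),(0,0),(0,0),(0,0),(0,0),(0,0),(0,0),(0,0),(27,1),(6,0),(0,0),(27,3),(26,1),(0,0),(0,0),(6,2),(0,0),(0,0),(12,0),(0,0),(0,0),(12,2),(11,0),(19,0),(0,0),(0,0),(20,2),(0,0),(0,0),(4,1),(15,1),(0,0),(4,3),(3,1),(0,0),(20,0),(15,3),(0,0),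(0,0),(0,0),(0,0),(0,0),(0,0),(0,0),(0,0),(0,0),(0,0),(0,0),(0,0),(0,0),(0,0),(0,0),(0,0),(0,0),(0,0),(21,0),(0,0),(0,0),(10,0),(0,0),(0,0),(1,0),(9,0),(0,0),(1,2),(0,0),(0,0),(10,2),(9,2),(0,0),(0,0),(0,0),(0,0),(0,0),(0,0),(0,0),(0,0),(0,0),(0,0),(0,0),(0,0),(0,0),(0,0),(0,0),(0,0),(0,0),(0,0),(0,0),(0,0),(0,0),(0,0),(0,0),(0,0),(0,0),(0,0),(0,0),(0,0),(0,0),(0,0),(0,0),(0,0),(0,0),(0,0),(0,0),(27,0),(6,1),(0,0),(27,2),(26,0),(0,0),(0,0),(6,3),(0,0),(0,0),(12,1),(0,0),(0,0),(12,3),(11,1),(0,0),(0,0),(0,0),(0,0),(0,0),(0,0),(0,0),(0,0),(0,0),(0,0),(0,0),(0,0),(0,0),(0,0),(0,0),(0,0),(0,0),(29,0),(2,0),(0,0),(29,2),(28,0),(0,0),(0,0),(2,2),(0,0),(0,0),(8,0),(0,0),(0,0),(8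,2),(7,0),(22,0),(23,2),(0,0),(0,0),(23,0),(0,0),(0,0),(18,2),(0,0),(0,0),(13,0),(14,2),(0,0),(18,0),(14,0),(0,0),(0,0),(0,0),(0,0),(0,0),(0,0),(0,0),(0,0),(0,0),(0,0),(0,0),(0,0),(0,0),(0,0),(0,0),(0,0),(0,0),(26,1),(27,3),(0,0),(0,0),(27,1),(0,0),(0,0),(6,0),(0,0),(0,0),(11,0),(12,2),(0,0),(6,2),(12,0),(0,0),(0,0),(0,0),(0,0),(0,0),(0,0),(0,0),(0,0),(0,0),(0,0),(0,0),(0,0),(0,0),(0,0),(0,0),(0,0),(0,0),(0,0),(0,0),(0,0),(0,0),(0,0),(0,0),(0,0),(0,0),(0,0),(0,0),(0,0),(0,0),(0,0),(0,0),(0,0),(0,0),(0,0),(0,0),(24,2),(25,2),(0,0),(16,0),(17,2),(0,0),(24,0),(17,0),(0,0),(0,0),(25,0),(0,0),(0,0),(5,0),(0,0),(0,0),(0,0),(0,0),(0,0),(0,0),(0,0),(0,0),(0,0),(0,0),(0,0),(0,0),(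0,0),(0,0),(0,0),(0,0),(0,0),(0,0),(15,0),(4,0),(0,0),(19,1),(20,3),(0,0),(15,2),(20,1),(0,0),(0,0),(4,2),(0,0),(0,0),(3,0),(26,0),(27,2),(0,0),(0,0),(27,0),(0,0),(0,0),(6,1),(0,0),(0,0),(11,1),(12,3),(0,0),(6,3),(12,1),(0,0),(0,0),(0,0),(0,0),(0,0),(0,0),(0,0),(0,0),(0,0),(0,0),(0,0),(0,0),(0,0),(0,0),(0,0),(0,0),(0,0),(28,0),(29,2),(0,0),(0,0),(29,0),(0,0),(0,0),(2,0),(0,0),(0,0),(7,0),(8,2),(0,0),(2,2),(8,0),(0,0),(0,0),(0,0),(0,0),(0,0),(0,0),(0,0),(0,0),(0,0),(0,0),(0,0),(0,0),(0,0),(0,0),(0,0),(0,0),(0,0),(0,0),(0,0),(0,0),(0,0),(0,0),(0,0),(0,0),(0,0),(0,0),(0,0),(0,0),(0,0),(0,0),(0,0),(0,0),(0,0),(0,0),(0,0),(15,1),(4,1),(0,0),(19,0),(20,2),(0,0),(15,3),(20,0),(0,0),(0,0),(4,3),(0,0),(0,0),(3,1),(0,0),(0,0),(0,0),(0,0),(0,0),(0,0),(0,0),(0,0),(0,0),(0,0),(0,0),(0,0),(0,0),(0,0),(0,0),(0,0),(0,0),(0,0),(9,0),(1,0),(0,0),(21,0),(10,0),(0,0),(9,2),(10,2),(0,0),(0,0),(1,2),(0,0),(0,0),(0,0)]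

end RH6.P6
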