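import Pool.Agent.RH6.T7
import Pool.Agent.RH6.DP6
import Pool.Agent.RH6.LP6
import Pool.Agent.RH6.KDat
import Pool.Agent.RH6.BAll

set_option maxRecDepth 100000

namespace RH6.P6

def bs : List (List ℕ) := [[1, 0, 1, 1, 0], [1, 1, 0, 0, 0], [0, 2, 0, 0, 0], [0, 0, 0, 2, 0], [0, 0, 0, 0, 1]]

def bi : List (List ℤ) := [[0, 2, -1, 0, 0], [0, 0, 1, 0, 0], [2, -2, 1, -1, 0], [0, 0, 0, 1, 0], [0, 0, 0, 0, 2]]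

theorem basis_ok : basisB X.F.As X.F.code bs bi = true := by decide +kernel

def tab : List (List LfC) := [
  [LfC.good 3 [[2, -2, 0, 1, 0, 1, 1], [-2, 2, 1, -1, 0, -1, -1], [0, -1, 0, 0, 0, 0, 1], [-1, 0, 0, 0, 1, -1, 0], [0, 0, 0, 0, 2, -1, 0], [1, 0, 0, 0, 0, 0, 1], [-6, 6, 2, -4, 0, -3, -3]] [[2, -2, -2, 2, -1, 1, 1], [-2, 2, 1, -2, 1, 0, -1], [1, 1, 0, 0, 0, 0, 0], [-1, 2, 0, 0, 0, 0, -1], [-2, 2, 2, -3, 2, -1, -1], [-4, 4, 4, -6, 3, -2, -2], [-2, 2, 2, -2, 1, 0, -1]]],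
  [LfC.good 10 [[2, -3, 0, 1, 0, 1, 1], [-2, 3, 1, -1, 0, -1, -1], [0, -3, 0, 0, 0, 0, 1], [3, -5, -1, 2, 0, 1, 2], [0, 2, 0, 0, 0, -1, 0], [-3, 3, 1, -2, 1, -2, -1], [2, -2, 0, 0, 0, 1, 1]] [[3, -3, 1, -3, 2, 0, -1], [-2, 2, -1, 2, -1, 0, 1], [1, 1, 0, 0, 0, 0, 0], [-1, 2, -1, 2, -1, 0, 0], [-2, 2, -2, 3, -2, 1, 1], [-4, 4, -2, 4, -3, 0, 2], [-6, 6, -2, 6, -3, 0, 3]]],
  [LfC.bad 61],
  [LfC.bad 62],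
  [LfC.bad 63],
  [LfC.good 35 [[2, -2, 0, -1, 0, 1, 1], [-18, 14, -1, 9, 0, -7, -7], [7, -7, 0, -4, 0, 3, 3], [1, 0, -2, 0, 0, 0, 0], [-14, 14, -4, 8, 0, -7, -7], [-1, 0, 0, 0, 0, -1, 0], [0, 0, 0, 0, -1, 0, 0]] [[14, -2, 0, -7, 4, 0, 0], [-18, 2, -1, 9, -5, 0, 0], [7, -1, 0, -4, 2, 0, 0], [35, -4, 0, -16, 9, 0, 0], [0, 0, 0, 0, 0, 0, -1], [-14, 2, 0, 7, -4, -1, 0], [-14, 2, -2, 9, -5, 1, 0]]],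
  [LfC.bad 64],
  [LfC.good 40 [[3, -3, 2, -1, 0, 1, 1], [-11, 12, -8, 4, 0, -2, -4], [3, -4, 3, -2, 0, 1, 1], [-28, 28, -18, 9, 0, -7, -10], [-60, 60, -40, 20, 0, -15, -21], [0, 0, 0, -1, 0, 0, 0], [0, 0, 0, 0, -1, 0, 0]] [[12, -3, -4, 2, 0, 2, 0], [-11, 3, 2, 0, -1, -1, 0], [-12, 3, 3, 0, -1, -2, 0], [0, 0, 0, 0, 0, -1, 0], [0, 0, 0, 0, 0, 0, -1], [-4, 2, 2, -1, 0, -1, 0], [-40, 10, 10, -5, -1, -5, 0]]],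
  [LfC.bad 65],
  [LfC.bad 66]]

theorem tab_ok : famB Js BD.bads X.F.As bs cands [1] tab = true := by decide +kernel

theorem cand_ok : candB trees cands = true := by decide +kernel

end RH6.P6
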