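import Pool.Agent.RH6.GDef
import Pool.Agent.RH6.TBP6
import Pool.Agent.RH6.HP6_0
import Pool.Agent.RH6.HP6_1
import Pool.Agent.RH6.HP6_2
import Pool.Agent.RH6.HP6_3

namespace RH6.P6

theorem all_app {p : NX → Bool} {a b : List NX} (h : a.all p = true) (h' : b.all p = true) :
    (a ++ b).all p = true := by
  rw [List.all_append, h, h']; rfl

theorem hv0 : T0.nodes.all (nodeHeavy X.F) = true := h_n0_0

theorem hv1 : T1.nodes.all (nodeHeavy X.F) = true := h_n1_0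

theorem hv2 : T2.nodes.all (nodeHeavy X.F) = true := h_n2_0

theorem hv3 : T3.nodes.all (nodeHeavy X.F) = true := h_n3_0

theorem hv4 : T4.nodes.all (nodeHeavy X.F) = true := h_n4_0

theorem hv5 : T5.nodes.all (nodeHeavy X.F) = true := h_n5_0

theorem hv6 : T6.nodes.all (nodeHeavy X.F) = true := h_n6_0

theorem hv7 : T7.nodes.all (nodeHeavy X.F) = true := h_n7_0

theorem hv8 : T8.nodes.all (nodeHeavy X.F) = true := h_n8_0

theorem hv9 : T9.nodes.all (nodeHeavy X.F) = true := h_n9_0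

theorem hv10 : T10.nodes.all (nodeHeavy X.F) = true := h_n10_0

theorem hv11 : T11.nodes.all (nodeHeavy X.F) = true := h_n11_0

theorem hv12 : T12.nodes.all (nodeHeavy X.F) = true := h_n12_0

theorem hv13 : T13.nodes.all (nodeHeavy X.F) = true := h_n13_0

theorem hv14 : T14.nodes.all (nodeHeavy X.F) = true := h_n14_0

theorem hv15 : T15.nodes.all (nodeHeavy X.F) = true := h_n15_0

theorem hv16 : T16.nodes.all (nodeHeavy X.F) = true := h_n16_0

theorem hv17 : T17.nodes.all (nodeHeavy X.F) = true := h_n17_0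

theorem hv18 : T18.nodes.all (nodeHeavy X.F) = true := h_n18_0

theorem hv19 : T19.nodes.all (nodeHeavy X.F) = true := h_n19_0

theorem hv20 : T20.nodes.all (nodeHeavy X.F) = true := h_n20_0

theorem hv21 : T21.nodes.all (nodeHeavy X.F) = true := h_n21_0

theorem hv22 : T22.nodes.all (nodeHeavy X.F) = true := h_n22_0

theorem hv23 : T23.nodes.all (nodeHeavy X.F) = true := h_n23_0

theorem hv24 : T24.nodes.all (nodeHeavy X.F) = true := h_n24_0

theorem hv25 : T25.nodes.all (nodeHeavy X.F) = true := h_n25_0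

theorem hv26 : T26.nodes.all (nodeHeavy X.F) = true := h_n26_0

theorem hv27 : T27.nodes.all (nodeHeavy X.F) = true := h_n27_0

theorem hv28 : T28.nodes.all (nodeHeavy X.F) = true := h_n28_0

theorem hv29 : T29.nodes.all (nodeHeavy X.F) = true := h_n29_0

theorem heavy : ∀ T ∈ trees, T.nodes.all (nodeHeavy X.F) = true :=
  List.forall_mem_cons.2 ⟨hv0, 
  List.forall_mem_cons.2 ⟨hv1, 
  List.forall_mem_cons.2 ⟨hv2, 
  List.forall_mem_cons.2 ⟨hv3, 
  List.forall_mem_cons.2 ⟨hv4, 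
  List.forall_mem_cons.2 ⟨hv5, 
  List.forall_mem_cons.2 ⟨hv6, 
  List.forall_mem_cons.2 ⟨hv7, 
  List.forall_mem_cons.2 ⟨hv8, 
  List.forall_mem_cons.2 ⟨hv9, 
  List.forall_mem_cons.2 ⟨hv10, 
  List.forall_mem_cons.2 ⟨hv11, 
  List.forall_mem_cons.2 ⟨hv12, 
  List.forall_mem_cons.2 ⟨hv13, 
  List.forall_mem_cons.2 ⟨hv14, 
  List.forall_mem_cons.2 ⟨hv15, 
  List.forall_mem_cons.2 ⟨hv16, 
  List.forall_mem_cons.2 ⟨hv17, 
  List.forall_mem_cons.2 ⟨hv18, 
  List.forall_mem_cons.2 ⟨hv19, 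
  List.forall_mem_cons.2 ⟨hv20, 
  List.forall_mem_cons.2 ⟨hv21, 
  List.forall_mem_cons.2 ⟨hv22, 
  List.forall_mem_cons.2 ⟨hv23, 
  List.forall_mem_cons.2 ⟨hv24, 
  List.forall_mem_cons.2 ⟨hv25, 
  List.forall_mem_cons.2 ⟨hv26, 
  List.forall_mem_cons.2 ⟨hv27, 
  List.forall_mem_cons.2 ⟨hv28, 
  List.forall_mem_cons.2 ⟨hv29, fun _ h => absurd h List.not_mem_nil⟩⟩⟩⟩⟩⟩⟩⟩⟩⟩⟩⟩⟩⟩⟩⟩⟩⟩⟩⟩⟩⟩⟩⟩⟩⟩⟩⟩⟩⟩

theorem fam : FamOK X trees perms cert cands [1] Js where
  ok := okP6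
  light := light
  heavy := heavy
  cover := cover
  cand := cand_ok
  leaf := fun _ hc _ hn hN hC => leaf_fam okP6 BD.bads_ok basis_ok tab_ok hc hN hn hC

end RH6.P6
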