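import Pool.Agent.RH6.Tree

namespace RH6.P7

def F : Fam := ⟨[2,2,2,2,4], 2523502185, true, true, [(0,1),(0,2),(0,3),(1,2),(1,3),(2,3)]⟩
def X : FX := ⟨F, AP7, HP7, Kd.k2, [[1,1,1,1,0], [1,1,1,1,1]], false,
  [],
  [[1,1,0,0,0], [0,1,1,0,0], [0,0,1,1,0]],
  [[1,1,0,0,0], [1,0,1,0,0], [0,1,1,0,0], [1,0,0,1,0], [0,1,0,1,0], [0,0,1,1,0], [1,1,1,1,0], [0,0,0,0,1], [1,1,0,0,1], [1,0,1,0,1], [0,1,1,0,1], [1,0,0,1,1], [0,1,0,1,1], [0,0,1,1,1], [1,1,1,1,1], [2,0,0,0,0], [0,2,0,0,0], [0,0,2,0,0], [0,0,0,2,0], [0,0,0,0,2]]⟩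
def perms : List (List Nat) := [[0,1,2,3,4],
  [0,1,3,2,4],
  [0,2,1,3,4],
  [0,2,3,1,4],
  [0,3,1,2,4],
  [0,3,2,1,4],
  [1,0,2,3,4],
  [1,0,3,2,4],
  [1,2,0,3,4],
  [1,2,3,0,4],
  [1,3,0,2,4],
  [1,3,2,0,4],
  [2,0,1,3,4],
  [2,0,3,1,4],
  [2,1,0,3,4],
  [2,1,3,0,4],
  [2,3,0,1,4],
  [2,3,1,0,4],
  [3,0,1,2,4],
  [3,0,2,1,4],
  [3,1,0,2,4],
  [3,1,2,0,4],
  [3,2,0,1,4],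
  [3,2,1,0,4]]
def n0_0 : List NX := [
  ⟨⟨0, [(0,1),(1,1),(2,1),(3,1),(4,1)], [], F.fb⟩, [1,1,1,1,1],
    [⟨2,1,[1,1,0,0,1],[1,1,1,1,1],[1,0,0,0,0],[0,0,0,0,0],[[0,0,0,0,2],[0,0,0,4,0],[0,0,2,2,0],[0,4,0,0,0],[2,2,0,0,0],[3,1,2,0,1]]⟩]⟩]
def T0 : Tree := ⟨[1,1,1,1,1], n0_0, []⟩
def n1_0 : List NX := [
  ⟨⟨0, [(0,1),(1,1),(2,1),(3,1),(4,1)], [], F.fb⟩, [1,1,3,5,1],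
    [⟨2,1,[1,1,0,0,1],[1,1,3,5,1],[1,0,0,0,0],[0,0,0,0,0],[[0,0,0,0,2],[0,0,0,4,0],[0,0,2,2,0],[0,4,0,0,0],[2,2,0,0,0],[3,1,2,0,1]]⟩]⟩]
def T1 : Tree := ⟨[1,1,3,5,1], n1_0, []⟩
def n2_0 : List NX := [
  ⟨⟨2, [(0,1),(1,1),(2,1),(3,1),(4,1)], [], F.fb⟩, [5,5,1,1,5],
    [⟨2,1,[0,0,1,1,1],[5,5,1,1,5],[0,0,1,0,0],[0,0,0,0,0],[[0,0,0,0,2],[0,0,0,4,0],[0,0,2,2,0],[0,4,0,0,0],[2,2,0,0,0],[2,0,3,1,1]]⟩]⟩]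
def T2 : Tree := ⟨[1,1,5,5,1], n2_0, []⟩
def n3_0 : List NX := [
  ⟨⟨0, [(0,1),(1,1),(2,1),(3,1),(4,1)], [], F.fb⟩, [1,1,1,7,1],
    [⟨2,1,[1,1,0,0,1],[1,1,1,7,1],[1,0,0,0,0],[0,0,0,0,0],[[0,0,0,0,2],[0,0,0,4,0],[0,0,2,2,0],[0,4,0,0,0],[2,2,0,0,0],[3,1,2,0,1]]⟩]⟩]
def T3 : Tree := ⟨[1,1,1,7,1], n3_0, []⟩
def n4_0 : List NX := [
  ⟨⟨3, [(0,1),(1,1),(2,1),(3,1),(4,1)], [], F.fb⟩, [7,7,5,1,7],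
    [⟨2,1,[0,0,1,1,1],[7,7,5,1,7],[0,0,0,1,0],[0,0,0,0,0],[[0,0,0,0,2],[0,0,0,4,0],[0,0,2,2,0],[0,4,0,0,0],[2,2,0,0,0],[2,0,3,1,1]]⟩]⟩]
def T4 : Tree := ⟨[1,1,3,7,1], n4_0, []⟩
def n5_0 : List NX := [
  ⟨⟨0, [(0,1),(1,1),(2,1),(3,1),(4,1)], [], F.fb⟩, [1,1,1,1,3],
    [⟨2,0,[1,1,0,0,1],[1,1,1,1,3],[1,0,0,0,0],[0,0,0,0,0],[[0,0,0,0,2],[0,0,0,4,0],[0,0,2,2,0],[0,4,0,0,0],[2,2,0,0,0],[1,1,0,0,1]]⟩]⟩]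
def T5 : Tree := ⟨[1,1,1,1,3], n5_0, []⟩
def n6_0 : List NX := [
  ⟨⟨0, [(0,1),(1,1),(2,1),(3,1),(4,1)], [], F.fb⟩, [1,1,1,3,3],
    [⟨2,0,[1,1,0,0,1],[1,1,1,3,3],[1,0,0,0,0],[0,0,0,0,0],[[0,0,0,0,2],[0,0,0,4,0],[0,0,2,2,0],[0,4,0,0,0],[2,2,0,0,0],[1,1,0,0,1]]⟩]⟩]
def T6 : Tree := ⟨[1,1,1,3,3], n6_0, []⟩
def n7_0 : List NX := [
  ⟨⟨2, [(0,1),(1,1),(2,1),(3,1),(4,1)], [], F.fb⟩, [5,5,1,1,7],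
    [⟨2,1,[1,0,1,0,1],[5,5,1,1,7],[0,0,1,0,0],[0,0,0,0,0],[[0,0,0,0,2],[0,0,0,4,0],[0,0,4,0,0],[0,2,0,2,0],[2,0,2,0,0],[3,2,1,0,1]]⟩]⟩]
def T7 : Tree := ⟨[1,1,5,5,3], n7_0, []⟩
def n8_0 : List NX := [
  ⟨⟨0, [(0,1),(1,1),(2,1),(3,1),(4,1)], [], F.fb⟩, [1,1,3,7,3],
    [⟨2,0,[1,1,0,0,1],[1,1,3,7,3],[1,0,0,0,0],[0,0,0,0,0],[[0,0,0,0,2],[0,0,0,4,0],[0,0,2,2,0],[0,4,0,0,0],[2,2,0,0,0],[1,1,0,0,1]]⟩]⟩]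
def T8 : Tree := ⟨[1,1,3,7,3], n8_0, []⟩
def n9_0 : List NX := [
  ⟨⟨2, [(0,1),(1,1),(2,1),(3,1),(4,1)], [], F.fb⟩, [5,5,1,3,7],
    [⟨2,1,[1,0,1,0,1],[5,5,1,3,7],[0,0,1,0,0],[0,0,0,0,0],[[0,0,0,0,2],[0,0,0,4,0],[0,0,4,0,0],[0,2,0,2,0],[2,0,2,0,0],[3,2,1,0,1]]⟩]⟩]
def T9 : Tree := ⟨[1,1,5,7,3], n9_0, []⟩
def n10_0 : List NX := [
  ⟨⟨0, [(0,1),(1,1),(2,1),(3,1),(4,1)], [], F.fb⟩, [1,1,1,1,5],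
    [⟨2,1,[1,1,0,0,1],[1,1,1,1,5],[1,0,0,0,0],[0,0,0,0,0],[[0,0,0,0,2],[0,0,0,4,0],[0,0,2,2,0],[0,4,0,0,0],[2,2,0,0,0],[3,1,2,0,1]]⟩]⟩]
def T10 : Tree := ⟨[1,1,1,1,5], n10_0, []⟩
def n11_0 : List NX := [
  ⟨⟨0, [(0,1),(1,1),(2,1),(3,1),(4,1)], [], F.fb⟩, [1,1,3,5,5],
    [⟨2,1,[1,1,0,0,1],[1,1,3,5,5],[1,0,0,0,0],[0,0,0,0,0],[[0,0,0,0,2],[0,0,0,4,0],[0,0,2,2,0],[0,4,0,0,0],[2,2,0,0,0],[3,1,2,0,1]]⟩]⟩]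
def T11 : Tree := ⟨[1,1,3,5,5], n11_0, []⟩
def n12_0 : List NX := [
  ⟨⟨0, [(0,1),(1,1),(2,1),(3,1),(4,1)], [], F.fb⟩, [1,1,1,7,5],
    [⟨2,1,[1,1,0,0,1],[1,1,1,7,5],[1,0,0,0,0],[0,0,0,0,0],[[0,0,0,0,2],[0,0,0,4,0],[0,0,2,2,0],[0,4,0,0,0],[2,2,0,0,0],[3,1,2,0,1]]⟩]⟩]
def T12 : Tree := ⟨[1,1,1,7,5], n12_0, []⟩
def n13_0 : List NX := [
  ⟨⟨3, [(0,1),(1,1),(2,1),(3,1),(4,1)], [], F.fb⟩, [7,7,5,1,3],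
    [⟨2,1,[0,0,1,1,1],[7,7,5,1,3],[0,0,0,1,0],[0,0,0,0,0],[[0,0,0,0,2],[0,0,0,4,0],[0,0,2,2,0],[0,4,0,0,0],[2,2,0,0,0],[2,0,3,1,1]]⟩]⟩]
def T13 : Tree := ⟨[1,1,3,7,5], n13_0, []⟩
def n14_0 : List NX := [
  ⟨⟨0, [(0,1),(1,1),(2,1),(3,1),(4,1)], [], F.fb⟩, [1,1,1,1,7],
    [⟨2,0,[1,1,0,0,1],[1,1,1,1,7],[1,0,0,0,0],[0,0,0,0,0],[[0,0,0,0,2],[0,0,0,4,0],[0,0,2,2,0],[0,4,0,0,0],[2,2,0,0,0],[1,1,0,0,1]]⟩]⟩]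
def T14 : Tree := ⟨[1,1,1,1,7], n14_0, []⟩
def n15_0 : List NX := [
  ⟨⟨0, [(0,1),(1,1),(2,1),(3,1),(4,1)], [], F.fb⟩, [1,1,1,3,7],
    [⟨2,0,[1,1,0,0,1],[1,1,1,3,7],[1,0,0,0,0],[0,0,0,0,0],[[0,0,0,0,2],[0,0,0,4,0],[0,0,2,2,0],[0,4,0,0,0],[2,2,0,0,0],[1,1,0,0,1]]⟩]⟩]
def T15 : Tree := ⟨[1,1,1,3,7], n15_0, []⟩
def n16_0 : List NX := [
  ⟨⟨0, [(0,1),(1,1),(2,1),(3,1),(4,1)], [], F.fb⟩, [1,1,3,7,7],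
    [⟨2,0,[1,1,0,0,1],[1,1,3,7,7],[1,0,0,0,0],[0,0,0,0,0],[[0,0,0,0,2],[0,0,0,4,0],[0,0,2,2,0],[0,4,0,0,0],[2,2,0,0,0],[1,1,0,0,1]]⟩]⟩]
def T16 : Tree := ⟨[1,1,3,7,7], n16_0, []⟩
def n17_0 : List NX := [
  ⟨⟨2, [(0,1),(1,1),(2,1),(3,1),(4,1)], [], F.fb⟩, [5,5,1,3,3],
    [⟨2,1,[1,0,1,0,1],[5,5,1,3,3],[0,0,1,0,0],[0,0,0,0,0],[[0,0,0,0,2],[0,0,0,4,0],[0,0,4,0,0],[0,2,0,2,0],[2,0,2,0,0],[3,2,1,0,1]]⟩]⟩]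
def T17 : Tree := ⟨[1,1,5,7,7], n17_0, []⟩
def trees : List Tree := [T0, T1, T2, T3, T4, T5, T6, T7, T8, T9, T10, T11, T12, T13, T14, T15, T16, T17]
def cands : List (List Nat × Nat) := []
def cert : List (Nat × Nat) := [(0,0),(0,0),(0,0),(3,9),(0,0),(0,0),(1,17),(4,17),(0,0),(1,16),(2,16),(0,0),(3,3),(4,16),(0,0),(0,0),(0,0),(0,0),(1,11),(4,11),(0,0),(6,0),(8,9),(0,0),(1,5),(8,3),(0,0),(0,0),(4,5),(0,0),(0,0),(17,0),(0,0),(1,10),(2,10),(0,0),(1,4),(8,1),(0,0),(0,0),(2,4),(0,0),(0,0),(11,8),(0,0),(0,0),(11,2),(16,0),(3,1),(4,10),(0,0),(0,0),(4,4),(0,0),(0,0),(17,2),(0,0),(0,0),(11,0),(16,2),(0,0),(17,8),(16,8),(0,0),(0,0),(0,0),(1,9),(4,9),(0,0),(6,1),(8,11),(0,0),(1,3),(8,5),(0,0),(0,0),(4,3),(0,0),(0,0),(17,1),(0,0),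(6,3),(8,17),(0,0),(6,9),(5,0),(0,0),(0,0),(8,16),(0,0),(0,0),(9,16),(0,0),(0,0),(9,17),(7,16),(1,1),(8,4),(0,0),(0,0),(8,10),(0,0),(0,0),(9,10),(0,0),(0,0),(12,0),(13,8),(0,0),(9,4),(13,2),(0,0),(4,1),(0,0),(0,0),(17,3),(0,0),(0,0),(9,11),(7,10),(0,0),(9,5),(13,0),(0,0),(17,9),(7,4),(0,0),(0,0),(0,0),(1,8),(2,8),(0,0),(1,2),(8,0),(0,0),(0,0),(2,2),(0,0),(0,0),(11,10),(0,0),(0,0),(11,4),(16,1),(1,0),(8,2),(0,0),(0,0),(8,8),(0,0),(0,0),(9,8),(0,0),(0,0),(12,1),(13,10),(0,0),(9,2),(13,4),(0,0),(2,0),(0,0),(0,0),(11,16),(0,0),(0,0),(12,3),(13,16),(0,0),(12,9),(10,0),(0,0),(11,17),(13,17),(0,0),(0,0),(0,0),(0,0),(11,5),(16,3),(0,0),(9,0),(13,5),(0,0),(11,11),(13,11),(0,0),(0,0),(16,9),(0,0),(0,0),(15,0),(3,0),(4,8),(0,0),(0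,0),(4,2),(0,0),(0,0),(17,4),(0,0),(0,0),(11,1),(16,4),(0,0),(17,10),(16,10),(0,0),(4,0),(0,0),(0,0),(17,5),(0,0),(0,0),(9,9),(7,8),(0,0),(9,3),(13,1),(0,0),(17,11),(7,2),(0,0),(0,0),(0,0),(0,0),(11,3),(16,5),(0,0),(9,1),(13,3),(0,0),(11,9),(13,9),(0,0),(0,0),(16,11),(0,0),(0,0),(15,1),(0,0),(17,16),(16,16),(0,0),(17,17),(7,0),(0,0),(0,0),(16,17),(0,0),(0,0),(15,3),(0,0),(0,0),(15,9),(14,0),(5,0),(6,9),(0,0),(0,0),(6,3),(0,0),(0,0),(8,17),(0,0),(0,0),(7,16),(9,17),(0,0),(8,16),(9,16),(0,0),(6,1),(0,0),(0,0),(8,11),(0,0),(0,0),(4,9),(1,9),(0,0),(4,3),(17,1),(0,0),(8,5),(1,3),(0,0),(0,0),(0,0),(0,0),(7,10),(9,11),(0,0),(4,1),(17,3),(0,0),(7,4),(17,9),(0,0),(0,0),(9,5),(0,0),(0,0),(13,0),(0,0),(8,10),(9,10),(0,0),(8,4),(1,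1),(0,0),(0,0),(9,4),(0,0),(0,0),(13,2),(0,0),(0,0),(13,8),(12,0),(6,0),(0,0),(0,0),(8,9),(0,0),(0,0),(4,11),(1,11),(0,0),(4,5),(17,0),(0,0),(8,3),(1,5),(0,0),(0,0),(0,0),(0,0),(4,17),(1,17),(0,0),(0,0),(3,9),(0,0),(4,16),(3,3),(0,0),(0,0),(1,16),(0,0),(0,0),(2,16),(0,0),(4,4),(17,2),(0,0),(4,10),(3,1),(0,0),(0,0),(17,8),(0,0),(0,0),(16,8),(0,0),(0,0),(16,2),(11,0),(8,1),(1,4),(0,0),(0,0),(1,10),(0,0),(0,0),(2,10),(0,0),(0,0),(16,0),(11,2),(0,0),(2,4),(11,8),(0,0),(0,0),(0,0),(7,8),(9,9),(0,0),(4,0),(17,5),(0,0),(7,2),(17,11),(0,0),(0,0),(9,3),(0,0),(0,0),(13,1),(0,0),(4,2),(17,4),(0,0),(4,8),(3,0),(0,0),(0,0),(17,10),(0,0),(0,0),(16,10),(0,0),(0,0),(16,4),(11,1),(7,0),(17,17),(0,0),(0,0),(17,16),(0,0),(0,0),(16,16),(0,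0),(0,0),(14,0),(15,9),(0,0),(16,17),(15,3),(0,0),(9,1),(0,0),(0,0),(13,3),(0,0),(0,0),(16,5),(11,3),(0,0),(16,11),(15,1),(0,0),(13,9),(11,9),(0,0),(0,0),(0,0),(8,8),(9,8),(0,0),(8,2),(1,0),(0,0),(0,0),(9,2),(0,0),(0,0),(13,4),(0,0),(0,0),(13,10),(12,1),(8,0),(1,2),(0,0),(0,0),(1,8),(0,0),(0,0),(2,8),(0,0),(0,0),(16,1),(11,4),(0,0),(2,2),(11,10),(0,0),(9,0),(0,0),(0,0),(13,5),(0,0),(0,0),(16,3),(11,5),(0,0),(16,9),(15,0),(0,0),(13,11),(11,11),(0,0),(0,0),(0,0),(0,0),(13,16),(12,3),(0,0),(2,0),(11,16),(0,0),(13,17),(11,17),(0,0),(0,0),(12,9),(0,0),(0,0),(10,0),(10,0),(0,0),(0,0),(12,9),(0,0),(0,0),(11,17),(13,17),(0,0),(11,16),(2,0),(0,0),(12,3),(13,16),(0,0),(0,0),(0,0),(0,0),(11,11),(13,11),(0,0),(15,0),(16,9),(0,0),(1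1,5),(16,3),(0,0),(0,0),(13,5),(0,0),(0,0),(9,0),(0,0),(11,10),(2,2),(0,0),(11,4),(16,1),(0,0),(0,0),(2,8),(0,0),(0,0),(1,8),(0,0),(0,0),(1,2),(8,0),(12,1),(13,10),(0,0),(0,0),(13,4),(0,0),(0,0),(9,2),(0,0),(0,0),(1,0),(8,2),(0,0),(9,8),(8,8),(0,0),(0,0),(0,0),(11,9),(13,9),(0,0),(15,1),(16,11),(0,0),(11,3),(16,5),(0,0),(0,0),(13,3),(0,0),(0,0),(9,1),(0,0),(15,3),(16,17),(0,0),(15,9),(14,0),(0,0),(0,0),(16,16),(0,0),(0,0),(17,16),(0,0),(0,0),(17,17),(7,0),(11,1),(16,4),(0,0),(0,0),(16,10),(0,0),(0,0),(17,10),(0,0),(0,0),(3,0),(4,8),(0,0),(17,4),(4,2),(0,0),(13,1),(0,0),(0,0),(9,3),(0,0),(0,0),(17,11),(7,2),(0,0),(17,5),(4,0),(0,0),(9,9),(7,8),(0,0),(0,0),(0,0),(11,8),(2,4),(0,0),(11,2),(16,0),(0,0),(0,0),(2,10),(0,0),(0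,0),(1,10),(0,0),(0,0),(1,4),(8,1),(11,0),(16,2),(0,0),(0,0),(16,8),(0,0),(0,0),(17,8),(0,0),(0,0),(3,1),(4,10),(0,0),(17,2),(4,4),(0,0),(2,16),(0,0),(0,0),(1,16),(0,0),(0,0),(3,3),(4,16),(0,0),(3,9),(0,0),(0,0),(1,17),(4,17),(0,0),(0,0),(0,0),(0,0),(1,5),(8,3),(0,0),(17,0),(4,5),(0,0),(1,11),(4,11),(0,0),(0,0),(8,9),(0,0),(0,0),(6,0),(12,0),(13,8),(0,0),(0,0),(13,2),(0,0),(0,0),(9,4),(0,0),(0,0),(1,1),(8,4),(0,0),(9,10),(8,10),(0,0),(13,0),(0,0),(0,0),(9,5),(0,0),(0,0),(17,9),(7,4),(0,0),(17,3),(4,1),(0,0),(9,11),(7,10),(0,0),(0,0),(0,0),(0,0),(1,3),(8,5),(0,0),(17,1),(4,3),(0,0),(1,9),(4,9),(0,0),(0,0),(8,11),(0,0),(0,0),(6,1),(0,0),(9,16),(8,16),(0,0),(9,17),(7,16),(0,0),(0,0),(8,17),(0,0),(0,0),(6,3),(0,0),(0,0),(6,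9),(5,0),(14,0),(15,9),(0,0),(0,0),(15,3),(0,0),(0,0),(16,17),(0,0),(0,0),(7,0),(17,17),(0,0),(16,16),(17,16),(0,0),(15,1),(0,0),(0,0),(16,11),(0,0),(0,0),(13,9),(11,9),(0,0),(13,3),(9,1),(0,0),(16,5),(11,3),(0,0),(0,0),(0,0),(0,0),(7,2),(17,11),(0,0),(13,1),(9,3),(0,0),(7,8),(9,9),(0,0),(0,0),(17,5),(0,0),(0,0),(4,0),(0,0),(16,10),(17,10),(0,0),(16,4),(11,1),(0,0),(0,0),(17,4),(0,0),(0,0),(4,2),(0,0),(0,0),(4,8),(3,0),(15,0),(0,0),(0,0),(16,9),(0,0),(0,0),(13,11),(11,11),(0,0),(13,5),(9,0),(0,0),(16,3),(11,5),(0,0),(0,0),(0,0),(0,0),(13,17),(11,17),(0,0),(10,0),(12,9),(0,0),(13,16),(12,3),(0,0),(0,0),(11,16),(0,0),(0,0),(2,0),(0,0),(13,4),(9,2),(0,0),(13,10),(12,1),(0,0),(0,0),(9,8),(0,0),(0,0),(8,8),(0,0),(0,0),(8,2),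(1,0),(16,1),(11,4),(0,0),(0,0),(11,10),(0,0),(0,0),(2,2),(0,0),(0,0),(8,0),(1,2),(0,0),(2,8),(1,8),(0,0),(0,0),(0,0),(7,4),(17,9),(0,0),(13,0),(9,5),(0,0),(7,10),(9,11),(0,0),(0,0),(17,3),(0,0),(0,0),(4,1),(0,0),(13,2),(9,4),(0,0),(13,8),(12,0),(0,0),(0,0),(9,10),(0,0),(0,0),(8,10),(0,0),(0,0),(8,4),(1,1),(7,16),(9,17),(0,0),(0,0),(9,16),(0,0),(0,0),(8,16),(0,0),(0,0),(5,0),(6,9),(0,0),(8,17),(6,3),(0,0),(17,1),(0,0),(0,0),(4,3),(0,0),(0,0),(8,5),(1,3),(0,0),(8,11),(6,1),(0,0),(4,9),(1,9),(0,0),(0,0),(0,0),(16,8),(17,8),(0,0),(16,2),(11,0),(0,0),(0,0),(17,2),(0,0),(0,0),(4,4),(0,0),(0,0),(4,10),(3,1),(16,0),(11,2),(0,0),(0,0),(11,8),(0,0),(0,0),(2,4),(0,0),(0,0),(8,1),(1,4),(0,0),(2,10),(1,10),(0,0),(17,0),(0,0),(0,0),(4,5),(0,0),(0,0),(8,3),(1,5),(0,0),(8,9),(6,0),(0,0),(4,11),(1,11),(0,0),(0,0),(0,0),(0,0),(4,16),(3,3),(0,0),(2,16),(1,16),(0,0),(4,17),(1,17),(0,0),(0,0),(3,9),(0,0),(0,0),(0,0)]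

end RH6.P7
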