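import Pool.Agent.RH6.DP7

set_option maxRecDepth 100000

namespace RH6.P7

theorem light : trees.all (treeLight X) = true := by decide +kernel

theorem cover : coverB X trees perms cert = true := by decide +kernel

end RH6.P7
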