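import Pool.Agent.RH6.T7
import Pool.Agent.RH6.DP7
import Pool.Agent.RH6.LP7
import Pool.Agent.RH6.KDat
import Pool.Agent.RH6.BAll

set_option maxRecDepth 100000

namespace RH6.P7

def bs : List (List ℕ) := [[1, 1, 0, 0, 0], [0, 1, 1, 0, 0], [0, 0, 1, 1, 0], [0, 0, 0, 2, 0], [0, 0, 0, 0, 1]]

def bi : List (List ℤ) := [[2, -2, 2, -1, 0], [0, 2, -2, 1, 0], [0, 0, 2, -1, 0], [0, 0, 0, 1, 0], [0, 0, 0, 0, 2]]

theorem basis_ok : basisB X.F.As X.F.code bs bi = true := by decide +kernel

def tab : List (List LfC) := [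
  ]

theorem tab_ok : famB Js BD.bads X.F.As bs cands [1] tab = true := by decide +kernel

theorem cand_ok : candB trees cands = true := by decide +kernel

end RH6.P7
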