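import Pool.Agent.RH6.Tree

namespace RH6.Q1

def F : Fam := ⟨[2,2,2,2,2], 4294967295, false, false, []⟩
def X : FX := ⟨F, AQ1, HQ1, Kd.kQ, [], false,
  [],
  [],
  [[1,0,0,0,0], [0,1,0,0,0], [1,1,0,0,0], [0,0,1,0,0], [1,0,1,0,0], [0,1,1,0,0], [1,1,1,0,0], [0,0,0,1,0], [1,0,0,1,0], [0,1,0,1,0], [1,1,0,1,0], [0,0,1,1,0], [1,0,1,1,0], [0,1,1,1,0], [1,1,1,1,0], [0,0,0,0,1], [1,0,0,0,1], [0,1,0,0,1], [1,1,0,0,1], [0,0,1,0,1], [1,0,1,0,1], [0,1,1,0,1], [1,1,1,0,1], [0,0,0,1,1], [1,0,0,1,1], [0,1,0,1,1], [1,1,0,1,1], [0,0,1,1,1], [1,0,1,1,1], [0,1,1,1,1], [1,1,1,1,1], [2,0,0,0,0], [0,2,0,0,0], [0,0,2,0,0], [0,0,0,2,0], [0,0,0,0,2]]⟩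
def perms : List (List Nat) := [[0,1,2,3,4],
  [0,1,2,4,3],
  [0,1,3,2,4],
  [0,1,3,4,2],
  [0,1,4,2,3],
  [0,1,4,3,2],
  [0,2,1,3,4],
  [0,2,1,4,3],
  [0,2,3,1,4],
  [0,2,3,4,1],
  [0,2,4,1,3],
  [0,2,4,3,1],
  [0,3,1,2,4],
  [0,3,1,4,2],
  [0,3,2,1,4],
  [0,3,2,4,1],
  [0,3,4,1,2],
  [0,3,4,2,1],
  [0,4,1,2,3],
  [0,4,1,3,2],
  [0,4,2,1,3],
  [0,4,2,3,1],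
  [0,4,3,1,2],
  [0,4,3,2,1],
  [1,0,2,3,4],
  [1,0,2,4,3],
  [1,0,3,2,4],
  [1,0,3,4,2],
  [1,0,4,2,3],
  [1,0,4,3,2],
  [1,2,0,3,4],
  [1,2,0,4,3],
  [1,2,3,0,4],
  [1,2,3,4,0],
  [1,2,4,0,3],
  [1,2,4,3,0],
  [1,3,0,2,4],
  [1,3,0,4,2],
  [1,3,2,0,4],
  [1,3,2,4,0],
  [1,3,4,0,2],
  [1,3,4,2,0],
  [1,4,0,2,3],
  [1,4,0,3,2],
  [1,4,2,0,3],
  [1,4,2,3,0],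
  [1,4,3,0,2],
  [1,4,3,2,0],
  [2,0,1,3,4],
  [2,0,1,4,3],
  [2,0,3,1,4],
  [2,0,3,4,1],
  [2,0,4,1,3],
  [2,0,4,3,1],
  [2,1,0,3,4],
  [2,1,0,4,3],
  [2,1,3,0,4],
  [2,1,3,4,0],
  [2,1,4,0,3],
  [2,1,4,3,0],
  [2,3,0,1,4],
  [2,3,0,4,1],
  [2,3,1,0,4],
  [2,3,1,4,0],
  [2,3,4,0,1],
  [2,3,4,1,0],
  [2,4,0,1,3],
  [2,4,0,3,1],
  [2,4,1,0,3],
  [2,4,1,3,0],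
  [2,4,3,0,1],
  [2,4,3,1,0],
  [3,0,1,2,4],
  [3,0,1,4,2],
  [3,0,2,1,4],
  [3,0,2,4,1],
  [3,0,4,1,2],
  [3,0,4,2,1],
  [3,1,0,2,4],
  [3,1,0,4,2],
  [3,1,2,0,4],
  [3,1,2,4,0],
  [3,1,4,0,2],
  [3,1,4,2,0],
  [3,2,0,1,4],
  [3,2,0,4,1],
  [3,2,1,0,4],
  [3,2,1,4,0],
  [3,2,4,0,1],
  [3,2,4,1,0],
  [3,4,0,1,2],
  [3,4,0,2,1],
  [3,4,1,0,2],
  [3,4,1,2,0],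
  [3,4,2,0,1],
  [3,4,2,1,0],
  [4,0,1,2,3],
  [4,0,1,3,2],
  [4,0,2,1,3],
  [4,0,2,3,1],
  [4,0,3,1,2],
  [4,0,3,2,1],
  [4,1,0,2,3],
  [4,1,0,3,2],
  [4,1,2,0,3],
  [4,1,2,3,0],
  [4,1,3,0,2],
  [4,1,3,2,0],
  [4,2,0,1,3],
  [4,2,0,3,1],
  [4,2,1,0,3],
  [4,2,1,3,0],
  [4,2,3,0,1],
  [4,2,3,1,0],
  [4,3,0,1,2],
  [4,3,0,2,1],
  [4,3,1,0,2],
  [4,3,1,2,0],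
  [4,3,2,0,1],
  [4,3,2,1,0]]
def n0_0 : List NX := [
  ⟨⟨0, [(0,1),(1,1),(2,1),(3,1),(4,1)], [[(0,1),(0,1),(0,1),(0,1),(0,1)],[(0,1),(0,1),(0,1),(0,1),(1,1)],[(0,1),(0,1),(1,1),(2,1),(3,1)],[(0,1),(1,1),(0,1),(2,1),(3,1)],[(0,1),(1,1),(2,1),(0,1),(3,1)]], F.fb⟩, [1,1,1,1,1],
    [⟨2,0,[1,1,1,1,0],[1,1,1,1,1],[1,0,0,0,0],[0,0,0,0,0],[]⟩]⟩,
  ⟨⟨1, [(0,1),(0,1),(1,1),(2,1),(3,1)], [[(0,1),(0,1),(0,1),(0,1),(0,1)],[(0,1),(0,1),(0,1),(0,1),(1,1)],[(0,1),(0,1),(0,1),(1,1),(2,1)],[(0,1),(0,1),(1,1),(1,1),(2,1)]], F.fb⟩, [1,1,1,1,1],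
    [⟨2,0,[1,1,1,1,0],[1,1,1,1,1],[0,0,1,0,0],[0,0,0,0,0],[]⟩]⟩,
  ⟨⟨2, [(0,1),(1,1),(0,1),(2,1),(3,1)], [[(0,1),(0,1),(0,1),(0,1),(0,1)],[(0,1),(0,1),(0,1),(0,1),(1,1)],[(0,1),(1,1),(0,1),(0,1),(2,1)],[(0,1),(1,1),(0,1),(1,1),(2,1)]], F.fb⟩, [1,1,1,1,1],
    [⟨2,0,[1,1,1,1,0],[1,1,1,1,1],[0,0,0,1,0],[0,0,0,0,0],[]⟩]⟩,
  ⟨⟨1, [(0,1),(1,1),(2,1),(0,1),(3,1)], [[(0,1),(0,1),(0,1),(0,1),(0,1)],[(0,1),(0,1),(0,1),(0,1),(1,1)],[(0,1),(0,1),(1,1),(0,1),(2,1)],[(0,1),(1,1),(1,1),(0,1),(2,1)]], F.fb⟩, [1,1,1,1,1],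
    [⟨2,0,[1,1,1,1,0],[1,1,1,1,1],[0,1,0,0,0],[0,0,0,0,0],[]⟩]⟩,
  ⟨⟨1, [(0,1),(0,1),(0,1),(1,1),(2,1)], [[(0,1),(0,1),(0,1),(0,1),(0,1)],[(0,1),(0,1),(0,1),(0,1),(1,1)]], F.fb⟩, [1,1,1,1,1],
    [⟨2,0,[1,1,1,1,0],[1,1,1,1,1],[0,0,0,1,0],[0,0,0,0,0],[]⟩]⟩,
  ⟨⟨1, [(0,1),(0,1),(1,1),(0,1),(2,1)], [[(0,1),(0,1),(0,1),(0,1),(0,1)],[(0,1),(0,1),(0,1),(0,1),(1,1)]], F.fb⟩, [1,1,1,1,1],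
    [⟨2,0,[1,1,1,1,0],[1,1,1,1,1],[0,0,1,0,0],[0,0,0,0,0],[]⟩]⟩,
  ⟨⟨2, [(0,1),(0,1),(1,1),(1,1),(2,1)], [[(0,1),(0,1),(0,1),(0,1),(0,1)],[(0,1),(0,1),(1,1),(1,1),(0,1)],[(0,1),(0,1),(1,1),(1,1),(1,1)]], F.fb⟩, [1,1,1,1,1],
    [⟨2,0,[1,1,1,0,1],[1,1,1,1,1],[0,0,0,0,1],[0,0,0,0,0],[]⟩]⟩,
  ⟨⟨2, [(0,1),(1,1),(0,1),(0,1),(2,1)], [[(0,1),(0,1),(0,1),(0,1),(0,1)],[(0,1),(1,1),(0,1),(0,1),(0,1)]], F.fb⟩, [1,1,1,1,1],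
    [⟨2,0,[1,0,1,1,1],[1,1,1,1,1],[0,0,0,0,1],[0,0,0,0,0],[]⟩]⟩,
  ⟨⟨2, [(0,1),(1,1),(0,1),(1,1),(2,1)], [[(0,1),(0,1),(0,1),(0,1),(0,1)],[(0,1),(1,1),(0,1),(1,1),(0,1)],[(0,1),(1,1),(0,1),(1,1),(1,1)]], F.fb⟩, [1,1,1,1,1],
    [⟨2,0,[1,1,1,0,1],[1,1,1,1,1],[0,0,0,0,1],[0,0,0,0,0],[]⟩]⟩,
  ⟨⟨2, [(0,1),(1,1),(1,1),(0,1),(2,1)], [[(0,1),(0,1),(0,1),(0,1),(0,1)],[(0,1),(1,1),(1,1),(0,1),(0,1)],[(0,1),(1,1),(1,1),(0,1),(1,1)]], F.fb⟩, [1,1,1,1,1],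
    [⟨2,0,[1,1,1,0,1],[1,1,1,1,1],[0,0,0,0,1],[0,0,0,0,0],[]⟩]⟩,
  ⟨⟨1, [(0,1),(0,1),(0,1),(0,1),(1,1)], [[(0,1),(0,1),(0,1),(0,1),(0,1)]], F.fb⟩, [1,1,1,1,1],
    [⟨2,0,[1,1,1,0,1],[1,1,1,1,1],[0,0,0,0,1],[0,0,0,0,0],[]⟩]⟩,
  ⟨⟨1, [(0,1),(0,1),(1,1),(1,1),(0,1)], [[(0,1),(0,1),(0,1),(0,1),(0,1)]], F.fb⟩, [1,1,1,1,1],
    [⟨2,0,[1,1,1,0,1],[1,1,1,1,1],[0,0,1,0,0],[0,0,0,0,0],[]⟩]⟩,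
  ⟨⟨0, [(0,1),(0,1),(1,1),(1,1),(1,1)], [[(0,1),(0,1),(0,1),(0,1),(0,1)]], F.fb⟩, [1,1,1,1,1],
    [⟨2,0,[1,0,1,1,1],[1,1,1,1,1],[1,0,0,0,0],[0,0,0,0,0],[]⟩]⟩,
  ⟨⟨1, [(0,1),(1,1),(0,1),(0,1),(0,1)], [[(0,1),(0,1),(0,1),(0,1),(0,1)]], F.fb⟩, [1,1,1,1,1],
    [⟨2,0,[1,1,1,1,0],[1,1,1,1,1],[0,1,0,0,0],[0,0,0,0,0],[]⟩]⟩,
  ⟨⟨1, [(0,1),(1,1),(0,1),(1,1),(0,1)], [[(0,1),(0,1),(0,1),(0,1),(0,1)]], F.fb⟩, [1,1,1,1,1],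
    [⟨2,0,[1,1,1,0,1],[1,1,1,1,1],[0,1,0,0,0],[0,0,0,0,0],[]⟩]⟩,
  ⟨⟨0, [(0,1),(1,1),(0,1),(1,1),(1,1)], [[(0,1),(0,1),(0,1),(0,1),(0,1)]], F.fb⟩, [1,1,1,1,1],
    [⟨2,0,[1,1,0,1,1],[1,1,1,1,1],[1,0,0,0,0],[0,0,0,0,0],[]⟩]⟩,
  ⟨⟨1, [(0,1),(1,1),(1,1),(0,1),(0,1)], [[(0,1),(0,1),(0,1),(0,1),(0,1)]], F.fb⟩, [1,1,1,1,1],
    [⟨2,0,[1,1,0,1,1],[1,1,1,1,1],[0,1,0,0,0],[0,0,0,0,0],[]⟩]⟩,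
  ⟨⟨0, [(0,1),(1,1),(1,1),(0,1),(1,1)], [[(0,1),(0,1),(0,1),(0,1),(0,1)]], F.fb⟩, [1,1,1,1,1],
    [⟨2,0,[1,1,1,0,1],[1,1,1,1,1],[1,0,0,0,0],[0,0,0,0,0],[]⟩]⟩]
def T0 : Tree := ⟨[1,1,1,1,1], n0_0, [[(0,1),(0,1),(0,1),(0,1),(0,1)]]⟩
def n1_0 : List NX := [
  ⟨⟨4, [(0,1),(1,1),(2,1),(3,1),(4,1)], [[(0,1),(0,1),(1,1),(2,1),(0,3)],[(0,1),(1,1),(0,1),(2,1),(0,3)],[(0,1),(1,1),(2,1),(0,1),(0,3)],[(0,1),(1,1),(2,1),(3,1),(0,3)]], F.fb⟩, [3,3,3,3,1],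
    [⟨2,0,[1,0,0,0,1],[3,3,3,3,1],[0,0,0,0,1],[0,0,0,0,0],[]⟩]⟩,
  ⟨⟨1, [(0,1),(1,1),(2,1),(3,1),(0,3)], [[(0,1),(0,1),(0,1),(1,1),(0,3)],[(0,1),(0,1),(1,1),(0,1),(0,3)],[(0,1),(0,1),(1,1),(2,1),(0,3)]], F.fb⟩, [1,1,1,1,3],
    [⟨2,0,[0,1,0,0,1],[1,1,1,1,3],[0,1,0,0,0],[0,0,0,0,0],[]⟩]⟩,
  ⟨⟨1, [(0,1),(0,1),(1,1),(2,1),(0,3)], [[(0,1),(0,1),(0,1),(0,1),(0,3)],[(0,1),(0,1),(0,1),(1,1),(0,3)]], F.fb⟩, [1,1,1,1,3],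
    [⟨2,0,[0,0,1,0,1],[1,1,1,1,3],[0,0,1,0,0],[0,0,0,0,0],[]⟩]⟩,
  ⟨⟨1, [(0,1),(1,1),(0,1),(2,1),(0,3)], [[(0,1),(0,1),(0,1),(0,1),(0,3)],[(0,1),(0,1),(0,1),(1,1),(0,3)]], F.fb⟩, [1,1,1,1,3],
    [⟨2,0,[0,1,0,0,1],[1,1,1,1,3],[0,1,0,0,0],[0,0,0,0,0],[]⟩]⟩,
  ⟨⟨1, [(0,1),(1,1),(2,1),(0,1),(0,3)], [[(0,1),(0,1),(0,1),(0,1),(0,3)],[(0,1),(0,1),(1,1),(0,1),(0,3)]], F.fb⟩, [1,1,1,1,3],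
    [⟨2,0,[0,1,0,0,1],[1,1,1,1,3],[0,1,0,0,0],[0,0,0,0,0],[]⟩]⟩,
  ⟨⟨1, [(0,1),(0,1),(0,1),(1,1),(0,3)], [[(0,1),(0,1),(0,1),(0,1),(0,3)]], F.fb⟩, [1,1,1,1,3],
    [⟨2,0,[1,1,1,1,0],[1,1,1,1,3],[0,0,0,1,0],[0,0,0,0,0],[]⟩]⟩,
  ⟨⟨1, [(0,1),(0,1),(1,1),(0,1),(0,3)], [[(0,1),(0,1),(0,1),(0,1),(0,3)]], F.fb⟩, [1,1,1,1,3],
    [⟨2,0,[1,1,1,1,0],[1,1,1,1,3],[0,0,1,0,0],[0,0,0,0,0],[]⟩]⟩]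
def T1 : Tree := ⟨[1,1,1,1,3], n1_0, [[(0,1),(0,1),(0,1),(0,1),(0,3)]]⟩
def n2_0 : List NX := [
  ⟨⟨3, [(0,1),(1,1),(2,1),(3,1),(4,1)], [[(0,1),(0,1),(1,1),(0,3),(0,3)],[(0,1),(1,1),(2,1),(3,1),(3,1)]], F.fb⟩, [3,3,3,1,1],
    [⟨2,0,[1,1,0,1,1],[3,3,3,1,1],[0,0,0,1,0],[0,0,0,0,0],[]⟩]⟩,
  ⟨⟨0, [(0,1),(1,1),(2,1),(3,1),(3,1)], [[(0,1),(0,1),(1,1),(0,3),(0,3)],[(0,1),(0,1),(1,1),(2,1),(2,1)]], F.fb⟩, [1,1,1,3,3],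
    [⟨2,0,[1,1,0,1,1],[1,1,1,3,3],[1,0,0,0,0],[0,0,0,0,0],[]⟩]⟩,
  ⟨⟨1, [(0,1),(0,1),(1,1),(2,1),(2,1)], [[(0,1),(0,1),(0,1),(0,3),(0,3)],[(0,1),(0,1),(0,1),(1,1),(1,1)]], F.fb⟩, [1,1,1,3,3],
    [⟨2,0,[1,0,1,1,1],[1,1,1,3,3],[0,0,1,0,0],[0,0,0,0,0],[]⟩]⟩,
  ⟨⟨1, [(0,1),(0,1),(0,1),(1,1),(1,1)], [[(0,1),(0,1),(0,1),(0,3),(0,3)]], F.fb⟩, [3,3,3,1,1],
    [⟨2,0,[1,0,0,1,0],[3,3,3,1,1],[0,0,0,1,0],[0,0,0,0,0],[]⟩]⟩,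
  ⟨⟨1, [(0,1),(0,1),(1,1),(0,3),(0,3)], [[(0,1),(0,1),(0,1),(0,3),(0,3)]], F.fb⟩, [1,1,1,3,3],
    [⟨2,0,[1,0,1,1,1],[1,1,1,3,3],[0,0,1,0,0],[0,0,0,0,0],[]⟩]⟩]
def T2 : Tree := ⟨[1,1,1,3,3], n2_0, [[(0,1),(0,1),(0,1),(0,3),(0,3)]]⟩
def n3_0 : List NX := [
  ⟨⟨4, [(0,1),(1,1),(2,1),(3,1),(4,1)], [[(0,1),(0,1),(0,1),(1,1),(0,5)]], F.fb⟩, [5,5,5,5,1],
    [⟨2,0,[1,1,1,0,1],[5,5,5,5,1],[0,0,0,0,1],[0,0,0,0,0],[]⟩]⟩,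
  ⟨⟨1, [(0,1),(0,1),(0,1),(1,1),(0,5)], [[(0,1),(0,1),(0,1),(0,1),(0,5)]], F.fb⟩, [1,1,1,1,5],
    [⟨2,0,[1,1,1,1,0],[1,1,1,1,5],[0,0,0,1,0],[0,0,0,0,0],[]⟩]⟩]
def T3 : Tree := ⟨[1,1,1,1,5], n3_0, [[(0,1),(0,1),(0,1),(0,1),(0,5)]]⟩
def n4_0 : List NX := [
  ⟨⟨4, [(0,1),(1,1),(2,1),(3,1),(4,1)], [[(0,1),(0,1),(0,1),(1,1),(0,5)]], F.fb⟩, [5,5,5,7,1],
    [⟨2,0,[1,1,1,0,1],[5,5,5,7,1],[0,0,0,0,1],[0,0,0,0,0],[]⟩]⟩,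
  ⟨⟨1, [(0,1),(0,1),(0,1),(1,1),(0,5)], [[(0,1),(0,1),(0,1),(0,3),(0,5)]], F.fb⟩, [3,3,3,1,7],
    [⟨2,0,[1,0,0,1,0],[3,3,3,1,7],[0,0,0,1,0],[0,0,0,0,0],[]⟩]⟩]
def T4 : Tree := ⟨[1,1,1,3,5], n4_0, [[(0,1),(0,1),(0,1),(0,3),(0,5)]]⟩
def n5_0 : List NX := [
  ⟨⟨4, [(0,1),(1,1),(2,1),(3,1),(4,1)], [], F.fb⟩, [5,5,7,7,1],
    [⟨2,0,[1,0,1,1,1],[5,5,7,7,1],[0,0,0,0,1],[0,0,0,0,0],[]⟩]⟩]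
def T5 : Tree := ⟨[1,1,3,3,5], n5_0, []⟩
def n6_0 : List NX := [
  ⟨⟨3, [(0,1),(1,1),(2,1),(3,1),(4,1)], [[(0,1),(1,1),(2,1),(3,1),(3,1)]], F.fb⟩, [5,5,5,1,1],
    [⟨2,0,[1,0,1,1,1],[5,5,5,1,1],[0,0,0,1,0],[0,0,0,0,0],[]⟩]⟩,
  ⟨⟨3, [(0,1),(1,1),(2,1),(3,1),(3,1)], [[(0,1),(0,1),(0,1),(0,5),(0,5)]], F.fb⟩, [5,5,5,1,1],
    [⟨2,0,[1,1,1,1,0],[5,5,5,1,1],[0,0,0,1,0],[0,0,0,0,0],[]⟩]⟩]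
def T6 : Tree := ⟨[1,1,1,5,5], n6_0, [[(0,1),(0,1),(0,1),(0,5),(0,5)]]⟩
def n7_0 : List NX := [
  ⟨⟨3, [(0,1),(1,1),(2,1),(3,1),(4,1)], [[(0,1),(1,1),(2,1),(3,1),(3,1)]], F.fb⟩, [5,5,7,1,1],
    [⟨2,0,[1,1,0,1,1],[5,5,7,1,1],[0,0,0,1,0],[0,0,0,0,0],[]⟩]⟩,
  ⟨⟨0, [(0,1),(1,1),(2,1),(3,1),(3,1)], [[(0,1),(0,1),(1,1),(2,1),(2,1)]], F.fb⟩, [1,1,3,5,5],
    [⟨2,0,[1,1,0,1,1],[1,1,3,5,5],[1,0,0,0,0],[0,0,0,0,0],[]⟩]⟩,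
  ⟨⟨1, [(0,1),(0,1),(1,1),(2,1),(2,1)], [[(0,1),(0,1),(0,3),(1,1),(1,1)]], F.fb⟩, [3,3,1,7,7],
    [⟨2,0,[1,0,1,0,0],[3,3,1,7,7],[0,0,1,0,0],[0,0,0,0,0],[]⟩]⟩,
  ⟨⟨0, [(0,1),(0,1),(0,3),(1,1),(1,1)], [[(0,1),(0,1),(0,3),(0,5),(0,5)],[(0,1),(0,1),(0,3),(0,21),(0,21)]], F.fb⟩, [1,1,3,5,5],
    [⟨2,0,[0,0,1,1,0],[1,1,3,5,5],[0,0,1,0,0],[0,0,0,0,0],[]⟩]⟩,
  ⟨⟨0, [(0,1),(0,1),(0,3),(0,5),(0,5)], [], F.fb⟩, [1,1,3,5,5],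
    [⟨4,0,[1,1,2,1,1],[1,1,3,5,5],[1,1,0,1,1],[0,0,0,0,0],[]⟩]⟩,
  ⟨⟨0, [(0,1),(0,1),(0,3),(0,21),(0,21)], [], F.fb⟩, [1,1,3,5,5],
    [⟨4,0,[1,1,2,1,1],[1,1,3,5,5],[1,1,0,0,0],[0,0,0,0,0],[]⟩]⟩]
def T7 : Tree := ⟨[1,1,3,5,5], n7_0, []⟩
def n8_0 : List NX := [
  ⟨⟨4, [(0,1),(1,1),(2,1),(3,1),(4,1)], [[(0,1),(1,1),(2,1),(3,1),(0,7)],[(0,1),(1,1),(2,1),(3,1),(0,15)]], F.fb⟩, [7,7,7,7,1],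
    [⟨2,0,[1,0,0,0,1],[7,7,7,7,1],[0,0,0,0,1],[0,0,0,0,0],[]⟩]⟩,
  ⟨⟨1, [(0,1),(1,1),(2,1),(3,1),(0,7)], [[(0,1),(0,1),(1,1),(2,1),(0,7)],[(0,1),(0,105),(1,1),(2,1),(0,7)]], F.fb⟩, [1,1,1,1,7],
    [⟨2,0,[0,1,0,0,1],[1,1,1,1,7],[0,1,0,0,0],[0,0,0,0,0],[]⟩]⟩,
  ⟨⟨1, [(0,1),(1,1),(2,1),(3,1),(0,15)], [[(0,1),(0,1),(1,1),(2,1),(0,15)],[(0,1),(0,105),(1,1),(2,1),(0,15)]], F.fb⟩, [1,1,1,1,7],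
    [⟨2,0,[0,1,0,0,1],[1,1,1,1,7],[0,1,0,0,0],[0,0,0,0,0],[]⟩]⟩,
  ⟨⟨1, [(0,1),(0,1),(1,1),(2,1),(0,7)], [[(0,1),(0,1),(0,1),(1,1),(0,7)],[(0,1),(0,1),(0,105),(1,1),(0,7)]], F.fb⟩, [1,1,1,1,7],
    [⟨2,0,[0,0,1,0,1],[1,1,1,1,7],[0,0,1,0,0],[0,0,0,0,0],[]⟩]⟩,
  ⟨⟨1, [(0,1),(0,1),(1,1),(2,1),(0,15)], [[(0,1),(0,1),(0,1),(1,1),(0,15)],[(0,1),(0,1),(0,105),(1,1),(0,15)]], F.fb⟩, [1,1,1,1,7],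
    [⟨2,0,[0,0,1,0,1],[1,1,1,1,7],[0,0,1,0,0],[0,0,0,0,0],[]⟩]⟩,
  ⟨⟨1, [(0,1),(0,105),(1,1),(2,1),(0,7)], [[(0,1),(0,105),(0,1),(1,1),(0,7)],[(0,1),(0,105),(0,105),(1,1),(0,7)]], F.fb⟩, [1,1,1,1,7],
    [⟨2,0,[0,0,1,0,1],[1,1,1,1,7],[0,0,1,0,0],[0,0,0,0,0],[]⟩]⟩,
  ⟨⟨1, [(0,1),(0,105),(1,1),(2,1),(0,15)], [[(0,1),(0,105),(0,1),(1,1),(0,15)],[(0,1),(0,105),(0,105),(1,1),(0,15)]], F.fb⟩, [1,1,1,1,7],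
    [⟨2,0,[0,0,1,0,1],[1,1,1,1,7],[0,0,1,0,0],[0,0,0,0,0],[]⟩]⟩,
  ⟨⟨1, [(0,1),(0,1),(0,1),(1,1),(0,7)], [[(0,1),(0,1),(0,1),(0,1),(0,7)]], F.fb⟩, [1,1,1,1,7],
    [⟨2,0,[1,1,1,1,0],[1,1,1,1,7],[0,0,0,1,0],[0,0,0,0,0],[]⟩]⟩,
  ⟨⟨1, [(0,1),(0,1),(0,1),(1,1),(0,15)], [[(0,1),(0,1),(0,1),(0,1),(0,15)]], F.fb⟩, [1,1,1,1,7],
    [⟨2,0,[1,1,1,1,0],[1,1,1,1,7],[0,0,0,1,0],[0,0,0,0,0],[]⟩]⟩,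
  ⟨⟨1, [(0,1),(0,1),(0,105),(1,1),(0,7)], [[(0,1),(0,1),(0,105),(0,1),(0,7)],[(0,1),(0,1),(0,105),(0,105),(0,7)]], F.fb⟩, [1,1,1,1,7],
    [⟨2,0,[1,1,1,1,0],[1,1,1,1,7],[0,0,0,1,0],[0,0,0,0,0],[]⟩]⟩,
  ⟨⟨1, [(0,1),(0,1),(0,105),(1,1),(0,15)], [[(0,1),(0,1),(0,105),(0,1),(0,15)],[(0,1),(0,1),(0,105),(0,105),(0,15)]], F.fb⟩, [1,1,1,1,7],
    [⟨2,0,[1,1,1,1,0],[1,1,1,1,7],[0,0,0,1,0],[0,0,0,0,0],[]⟩]⟩,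
  ⟨⟨1, [(0,1),(0,105),(0,1),(1,1),(0,7)], [[(0,1),(0,105),(0,1),(0,1),(0,7)],[(0,1),(0,105),(0,1),(0,105),(0,7)]], F.fb⟩, [1,1,1,1,7],
    [⟨2,0,[1,1,1,1,0],[1,1,1,1,7],[0,0,0,1,0],[0,0,0,0,0],[]⟩]⟩,
  ⟨⟨1, [(0,1),(0,105),(0,1),(1,1),(0,15)], [[(0,1),(0,105),(0,1),(0,1),(0,15)],[(0,1),(0,105),(0,1),(0,105),(0,15)]], F.fb⟩, [1,1,1,1,7],
    [⟨2,0,[1,1,1,1,0],[1,1,1,1,7],[0,0,0,1,0],[0,0,0,0,0],[]⟩]⟩,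
  ⟨⟨1, [(0,1),(0,105),(0,105),(1,1),(0,7)], [[(0,1),(0,105),(0,105),(0,1),(0,7)],[(0,1),(0,105),(0,105),(0,105),(0,7)]], F.fb⟩, [1,1,1,1,7],
    [⟨2,0,[1,1,1,1,0],[1,1,1,1,7],[0,0,0,1,0],[0,0,0,0,0],[]⟩]⟩,
  ⟨⟨1, [(0,1),(0,105),(0,105),(1,1),(0,15)], [[(0,1),(0,105),(0,105),(0,1),(0,15)],[(0,1),(0,105),(0,105),(0,105),(0,15)]], F.fb⟩, [1,1,1,1,7],
    [⟨2,0,[1,1,1,1,0],[1,1,1,1,7],[0,0,0,1,0],[0,0,0,0,0],[]⟩]⟩,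
  ⟨⟨0, [(0,1),(0,1),(0,105),(0,1),(0,7)], [], F.fb⟩, [1,1,1,1,7],
    [⟨2,0,[1,1,1,1,0],[1,1,1,1,7],[0,0,1,0,0],[0,0,0,0,0],[]⟩]⟩,
  ⟨⟨0, [(0,1),(0,1),(0,105),(0,1),(0,15)], [], F.fb⟩, [1,1,1,1,7],
    [⟨2,0,[1,1,1,1,0],[1,1,1,1,7],[0,0,1,0,0],[0,0,0,0,0],[]⟩]⟩,
  ⟨⟨0, [(0,1),(0,1),(0,105),(0,105),(0,7)], [], F.fb⟩, [1,1,1,1,7],
    [⟨4,0,[1,1,1,1,2],[1,1,1,1,7],[1,1,0,0,0],[0,0,0,0,0],[]⟩]⟩,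
  ⟨⟨0, [(0,1),(0,1),(0,105),(0,105),(0,15)], [], F.fb⟩, [1,1,1,1,7],
    [⟨4,0,[1,1,1,1,2],[1,1,1,1,7],[1,1,0,0,0],[0,0,0,0,0],[]⟩]⟩,
  ⟨⟨0, [(0,1),(0,105),(0,1),(0,1),(0,7)], [], F.fb⟩, [1,1,1,1,7],
    [⟨2,0,[1,1,1,1,0],[1,1,1,1,7],[0,1,0,0,0],[0,0,0,0,0],[]⟩]⟩,
  ⟨⟨0, [(0,1),(0,105),(0,1),(0,1),(0,15)], [], F.fb⟩, [1,1,1,1,7],
    [⟨2,0,[1,1,1,1,0],[1,1,1,1,7],[0,1,0,0,0],[0,0,0,0,0],[]⟩]⟩,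
  ⟨⟨0, [(0,1),(0,105),(0,1),(0,105),(0,7)], [], F.fb⟩, [1,1,1,1,7],
    [⟨4,0,[1,1,1,1,2],[1,1,1,1,7],[1,0,1,0,0],[0,0,0,0,0],[]⟩]⟩,
  ⟨⟨0, [(0,1),(0,105),(0,1),(0,105),(0,15)], [], F.fb⟩, [1,1,1,1,7],
    [⟨4,0,[1,1,1,1,2],[1,1,1,1,7],[1,0,1,0,0],[0,0,0,0,0],[]⟩]⟩,
  ⟨⟨0, [(0,1),(0,105),(0,105),(0,1),(0,7)], [], F.fb⟩, [1,1,1,1,7],
    [⟨4,0,[1,1,1,1,2],[1,1,1,1,7],[0,1,1,0,0],[0,0,0,0,0],[]⟩]⟩,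
  ⟨⟨0, [(0,1),(0,105),(0,105),(0,1),(0,15)], [], F.fb⟩, [1,1,1,1,7],
    [⟨4,0,[1,1,1,1,2],[1,1,1,1,7],[0,1,1,0,0],[0,0,0,0,0],[]⟩]⟩,
  ⟨⟨0, [(0,1),(0,105),(0,105),(0,105),(0,7)], [], F.fb⟩, [1,1,1,1,7],
    [⟨2,0,[1,1,1,1,0],[1,1,1,1,7],[1,0,0,0,0],[0,0,0,0,0],[]⟩]⟩,
  ⟨⟨0, [(0,1),(0,105),(0,105),(0,105),(0,15)], [], F.fb⟩, [1,1,1,1,7],
    [⟨2,0,[1,1,1,1,0],[1,1,1,1,7],[1,0,0,0,0],[0,0,0,0,0],[]⟩]⟩]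
def T8 : Tree := ⟨[1,1,1,1,7], n8_0, [[(0,1),(0,1),(0,1),(0,1),(0,7)],[(0,1),(0,1),(0,1),(0,1),(0,15)]]⟩
def n9_0 : List NX := [
  ⟨⟨4, [(0,1),(1,1),(2,1),(3,1),(4,1)], [], F.fb⟩, [7,7,7,5,1],
    [⟨2,0,[1,1,0,1,1],[7,7,7,5,1],[0,0,0,0,1],[0,0,0,0,0],[]⟩]⟩]
def T9 : Tree := ⟨[1,1,1,3,7], n9_0, []⟩
def n10_0 : List NX := [
  ⟨⟨3, [(0,1),(1,1),(2,1),(3,1),(4,1)], [[(0,1),(0,1),(0,1),(0,5),(1,1)]], F.fb⟩, [5,5,5,1,3],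
    [⟨2,0,[1,1,1,1,0],[5,5,5,1,3],[0,0,0,1,0],[0,0,0,0,0],[]⟩]⟩,
  ⟨⟨1, [(0,1),(0,1),(0,1),(0,5),(1,1)], [[(0,1),(0,1),(0,1),(0,5),(0,15)]], F.fb⟩, [7,7,7,3,1],
    [⟨2,0,[0,0,0,1,1],[7,7,7,3,1],[0,0,0,0,1],[0,0,0,0,0],[]⟩]⟩]
def T10 : Tree := ⟨[1,1,1,5,7], n10_0, [[(0,1),(0,1),(0,1),(0,5),(0,15)]]⟩
def n11_0 : List NX := [
  ⟨⟨4, [(0,1),(1,1),(2,1),(3,1),(4,1)], [], F.fb⟩, [7,7,5,3,1],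
    [⟨2,0,[1,1,1,0,1],[7,7,5,3,1],[0,0,0,0,1],[0,0,0,0,0],[]⟩]⟩]
def T11 : Tree := ⟨[1,1,3,5,7], n11_0, []⟩
def n12_0 : List NX := [
  ⟨⟨3, [(0,1),(1,1),(2,1),(3,1),(4,1)], [[(0,1),(1,1),(2,1),(3,1),(3,1)]], F.fb⟩, [7,7,7,1,1],
    [⟨2,0,[1,1,0,1,1],[7,7,7,1,1],[0,0,0,1,0],[0,0,0,0,0],[]⟩]⟩,
  ⟨⟨0, [(0,1),(1,1),(2,1),(3,1),(3,1)], [[(0,1),(0,1),(1,1),(2,1),(2,1)]], F.fb⟩, [1,1,1,7,7],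
    [⟨2,0,[1,1,0,1,1],[1,1,1,7,7],[1,0,0,0,0],[0,0,0,0,0],[]⟩]⟩,
  ⟨⟨1, [(0,1),(0,1),(1,1),(2,1),(2,1)], [[(0,1),(0,1),(0,1),(1,1),(1,1)]], F.fb⟩, [1,1,1,7,7],
    [⟨2,0,[1,0,1,1,1],[1,1,1,7,7],[0,0,1,0,0],[0,0,0,0,0],[]⟩]⟩,
  ⟨⟨1, [(0,1),(0,1),(0,1),(1,1),(1,1)], [[(0,1),(0,1),(0,1),(0,7),(0,7)],[(0,1),(0,1),(0,1),(0,15),(0,15)]], F.fb⟩, [7,7,7,1,1],
    [⟨2,0,[1,0,0,1,0],[7,7,7,1,1],[0,0,0,1,0],[0,0,0,0,0],[]⟩]⟩,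
  ⟨⟨0, [(0,1),(0,1),(0,1),(0,7),(0,7)], [], F.fb⟩, [1,1,1,7,7],
    [⟨4,0,[1,2,0,1,2],[1,1,1,7,7],[0,1,0,0,0],[0,0,0,0,0],[]⟩]⟩,
  ⟨⟨0, [(0,1),(0,1),(0,1),(0,15),(0,15)], [], F.fb⟩, [1,1,1,7,7],
    [⟨4,0,[1,2,0,1,2],[1,1,1,7,7],[0,1,0,0,0],[0,0,0,0,0],[]⟩]⟩]
def T12 : Tree := ⟨[1,1,1,7,7], n12_0, []⟩
def n13_0 : List NX := [
  ⟨⟨3, [(0,1),(1,1),(2,1),(3,1),(4,1)], [], F.fb⟩, [7,7,5,1,1],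
    [⟨2,0,[1,1,1,1,0],[7,7,5,1,1],[0,0,0,1,0],[0,0,0,0,0],[]⟩]⟩]
def T13 : Tree := ⟨[1,1,3,7,7], n13_0, []⟩
def trees : List Tree := [T0, T1, T2, T3, T4, T5, T6, T7, T8, T9, T10, T11, T12, T13]
def cands : List (List Nat × Nat) := [([1,1,1,1,1], 1), ([1,1,1,1,3], 1), ([1,1,1,1,5], 1), ([1,1,1,1,7], 1), ([1,1,1,1,15], 1), ([1,1,1,3,3], 1), ([1,1,1,3,3], 3), ([1,1,1,3,5], 1), ([1,1,1,5,5], 1), ([1,1,1,5,5], 5), ([1,1,1,5,15], 1), ([1,1,1,5,15], 5)]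
def cert : List (Nat × Nat) := [(0,0),(1,33),(3,33),(8,33),(1,9),(2,64),(4,65),(9,65),(3,9),(4,64),(6,64),(10,65),(8,9),(9,64),(10,64),(12,64),(1,3),(2,40),(4,41),(9,41),(2,16),(2,0),(5,93),(5,33),(4,17),(5,91),(7,94),(11,95),(9,17),(5,9),(11,94),(13,94),(3,3),(4,40),(6,40),(10,41),(4,16),(5,90),(7,92),(11,93),(6,16),(7,90),(6,0),(7,30),(10,17),(11,91),(7,6),(13,0),(8,3),(9,40),(10,40),(12,40),(9,16),(5,3),(11,92),(13,92),(10,16),(11,90),(7,0),(13,6),(12,16),(13,90),(13,30),(12,0),(1,1),(2,34),(4,35),(9,35),(2,10),(2,2),(5,69),(5,39),(4,11),(5,67),(7,70),(11,71),(9,11),(5,15),(11,70),(13,70),(2,4),(2,8),(5,45),(5,63),(2,32),(1,0),(9,33),(4,33),(5,21),(9,9),(13,64),(11,64),(5,61),(4,9),(11,65),(7,64),(4,5),(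5,43),(7,46),(11,47),(5,19),(9,3),(13,40),(11,40),(7,22),(13,16),(10,1),(11,31),(11,23),(11,16),(11,7),(11,0),(9,5),(5,13),(11,46),(13,46),(5,37),(4,3),(11,41),(7,40),(11,22),(11,17),(11,1),(11,6),(13,22),(7,16),(11,30),(10,0),(3,1),(4,34),(6,34),(10,35),(4,10),(5,66),(7,68),(11,69),(6,10),(7,66),(6,2),(7,36),(10,11),(11,67),(7,12),(13,2),(4,4),(5,42),(7,44),(11,45),(5,18),(9,1),(13,34),(11,34),(7,20),(13,10),(10,3),(11,37),(11,21),(11,10),(11,13),(11,2),(6,4),(7,42),(6,8),(7,60),(7,18),(13,4),(10,9),(11,61),(6,32),(10,33),(3,0),(4,32),(7,62),(11,63),(4,8),(5,60),(10,5),(11,43),(7,14),(13,8),(11,19),(11,4),(11,15),(11,8),(7,38),(11,39),(4,2),(5,36),(13,32),(11,32),(5,12),(9,0),(8,1),(9,34),(10,34),(12,34),(9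,10),(5,1),(11,68),(13,68),(10,10),(11,66),(7,2),(13,12),(12,10),(13,66),(13,36),(12,2),(9,4),(5,7),(11,44),(13,44),(5,31),(4,1),(11,35),(7,34),(11,20),(11,11),(11,3),(11,12),(13,20),(7,10),(11,36),(10,2),(10,4),(11,42),(7,8),(13,14),(11,18),(11,5),(11,9),(11,14),(7,32),(11,33),(4,0),(5,30),(13,38),(11,38),(5,6),(9,2),(12,4),(13,42),(13,60),(12,8),(13,18),(7,4),(11,60),(10,8),(13,62),(11,62),(5,0),(9,8),(12,32),(10,32),(9,32),(8,0),(1,0),(2,32),(4,33),(9,33),(2,8),(2,4),(5,63),(5,45),(4,9),(5,61),(7,64),(11,65),(9,9),(5,21),(11,64),(13,64),(2,2),(2,10),(5,39),(5,69),(2,34),(1,1),(9,35),(4,35),(5,15),(9,11),(13,70),(11,70),(5,67),(4,11),(11,71),(7,70),(4,3),(5,37),(7,40),(11,41),(5,13),(9,5),(13,46),(11,46),(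7,16),(13,22),(10,0),(11,30),(11,17),(11,22),(11,6),(11,1),(9,3),(5,19),(11,40),(13,40),(5,43),(4,5),(11,47),(7,46),(11,16),(11,23),(11,0),(11,7),(13,16),(7,22),(11,31),(10,1),(2,0),(2,16),(5,33),(5,93),(2,40),(1,3),(9,41),(4,41),(5,9),(9,17),(13,94),(11,94),(5,91),(4,17),(11,95),(7,94),(2,64),(1,9),(9,65),(4,65),(1,33),(0,0),(8,33),(3,33),(9,64),(8,9),(12,64),(10,64),(4,64),(3,9),(10,65),(6,64),(5,3),(9,16),(13,92),(11,92),(9,40),(8,3),(12,40),(10,40),(13,90),(12,16),(12,0),(13,30),(11,90),(10,16),(13,6),(7,0),(5,90),(4,16),(11,93),(7,92),(4,40),(3,3),(10,41),(6,40),(11,91),(10,17),(13,0),(7,6),(7,90),(6,16),(7,30),(6,0),(4,1),(5,31),(7,34),(11,35),(5,7),(9,4),(13,44),(11,44),(7,10),(13,20),(10,2),(11,36),(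11,11),(11,20),(11,12),(11,3),(5,1),(9,10),(13,68),(11,68),(9,34),(8,1),(12,34),(10,34),(13,66),(12,10),(12,2),(13,36),(11,66),(10,10),(13,12),(7,2),(7,4),(13,18),(10,8),(11,60),(13,42),(12,4),(12,8),(13,60),(10,32),(12,32),(8,0),(9,32),(11,62),(13,62),(9,8),(5,0),(11,5),(11,18),(11,14),(11,9),(11,42),(10,4),(13,14),(7,8),(11,38),(13,38),(9,2),(5,6),(11,33),(7,32),(5,30),(4,0),(9,1),(5,18),(11,34),(13,34),(5,42),(4,4),(11,45),(7,44),(11,10),(11,21),(11,2),(11,13),(13,10),(7,20),(11,37),(10,3),(5,66),(4,10),(11,69),(7,68),(4,34),(3,1),(10,35),(6,34),(11,67),(10,11),(13,2),(7,12),(7,66),(6,10),(7,36),(6,2),(11,4),(11,19),(11,8),(11,15),(11,43),(10,5),(13,8),(7,14),(11,32),(13,32),(9,0),(5,12),(11,39),(7,38),(5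,36),(4,2),(13,4),(7,18),(11,61),(10,9),(7,42),(6,4),(7,60),(6,8),(11,63),(7,62),(5,60),(4,8),(10,33),(6,32),(4,32),(3,0),(3,0),(4,32),(6,32),(10,33),(4,8),(5,60),(7,62),(11,63),(6,8),(7,60),(6,4),(7,42),(10,9),(11,61),(7,18),(13,4),(4,2),(5,36),(7,38),(11,39),(5,12),(9,0),(13,32),(11,32),(7,14),(13,8),(10,5),(11,43),(11,15),(11,8),(11,19),(11,4),(6,2),(7,36),(6,10),(7,66),(7,12),(13,2),(10,11),(11,67),(6,34),(10,35),(3,1),(4,34),(7,68),(11,69),(4,10),(5,66),(10,3),(11,37),(7,20),(13,10),(11,13),(11,2),(11,21),(11,10),(7,44),(11,45),(4,4),(5,42),(13,34),(11,34),(5,18),(9,1),(4,0),(5,30),(7,32),(11,33),(5,6),(9,2),(13,38),(11,38),(7,8),(13,14),(10,4),(11,42),(11,9),(11,14),(11,18),(11,5),(5,0),(9,8),(13,62),(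11,62),(9,32),(8,0),(12,32),(10,32),(13,60),(12,8),(12,4),(13,42),(11,60),(10,8),(13,18),(7,4),(7,2),(13,12),(10,10),(11,66),(13,36),(12,2),(12,10),(13,66),(10,34),(12,34),(8,1),(9,34),(11,68),(13,68),(9,10),(5,1),(11,3),(11,12),(11,20),(11,11),(11,36),(10,2),(13,20),(7,10),(11,44),(13,44),(9,4),(5,7),(11,35),(7,34),(5,31),(4,1),(6,0),(7,30),(6,16),(7,90),(7,6),(13,0),(10,17),(11,91),(6,40),(10,41),(3,3),(4,40),(7,92),(11,93),(4,16),(5,90),(7,0),(13,6),(10,16),(11,90),(13,30),(12,0),(12,16),(13,90),(10,40),(12,40),(8,3),(9,40),(11,92),(13,92),(9,16),(5,3),(6,64),(10,65),(3,9),(4,64),(10,64),(12,64),(8,9),(9,64),(3,33),(8,33),(0,0),(1,33),(4,65),(9,65),(1,9),(2,64),(7,94),(11,95),(4,17),(5,91),(11,94),(13,94)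,(9,17),(5,9),(4,41),(9,41),(1,3),(2,40),(5,93),(5,33),(2,16),(2,0),(10,1),(11,31),(7,22),(13,16),(11,7),(11,0),(11,23),(11,16),(7,46),(11,47),(4,5),(5,43),(13,40),(11,40),(5,19),(9,3),(11,1),(11,6),(11,22),(11,17),(11,30),(10,0),(13,22),(7,16),(11,46),(13,46),(9,5),(5,13),(11,41),(7,40),(5,37),(4,3),(7,70),(11,71),(4,11),(5,67),(11,70),(13,70),(9,11),(5,15),(4,35),(9,35),(1,1),(2,34),(5,69),(5,39),(2,10),(2,2),(13,64),(11,64),(5,21),(9,9),(11,65),(7,64),(5,61),(4,9),(5,45),(5,63),(2,4),(2,8),(9,33),(4,33),(2,32),(1,0),(8,0),(9,32),(10,32),(12,32),(9,8),(5,0),(11,62),(13,62),(10,8),(11,60),(7,4),(13,18),(12,8),(13,60),(13,42),(12,4),(9,2),(5,6),(11,38),(13,38),(5,30),(4,0),(11,33),(7,32),(11,14),(11,9),(11,5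),(11,18),(13,14),(7,8),(11,42),(10,4),(10,2),(11,36),(7,10),(13,20),(11,12),(11,3),(11,11),(11,20),(7,34),(11,35),(4,1),(5,31),(13,44),(11,44),(5,7),(9,4),(12,2),(13,36),(13,66),(12,10),(13,12),(7,2),(11,66),(10,10),(13,68),(11,68),(5,1),(9,10),(12,34),(10,34),(9,34),(8,1),(9,0),(5,12),(11,32),(13,32),(5,36),(4,2),(11,39),(7,38),(11,8),(11,15),(11,4),(11,19),(13,8),(7,14),(11,43),(10,5),(5,60),(4,8),(11,63),(7,62),(4,32),(3,0),(10,33),(6,32),(11,61),(10,9),(13,4),(7,18),(7,60),(6,8),(7,42),(6,4),(11,2),(11,13),(11,10),(11,21),(11,37),(10,3),(13,10),(7,20),(11,34),(13,34),(9,1),(5,18),(11,45),(7,44),(5,42),(4,4),(13,2),(7,12),(11,67),(10,11),(7,36),(6,2),(7,66),(6,10),(11,69),(7,68),(5,66),(4,10),(10,35),(6,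34),(4,34),(3,1),(10,0),(11,30),(7,16),(13,22),(11,6),(11,1),(11,17),(11,22),(7,40),(11,41),(4,3),(5,37),(13,46),(11,46),(5,13),(9,5),(11,0),(11,7),(11,16),(11,23),(11,31),(10,1),(13,16),(7,22),(11,40),(13,40),(9,3),(5,19),(11,47),(7,46),(5,43),(4,5),(7,64),(11,65),(4,9),(5,61),(11,64),(13,64),(9,9),(5,21),(4,33),(9,33),(1,0),(2,32),(5,63),(5,45),(2,8),(2,4),(13,70),(11,70),(5,15),(9,11),(11,71),(7,70),(5,67),(4,11),(5,39),(5,69),(2,2),(2,10),(9,35),(4,35),(2,34),(1,1),(12,0),(13,30),(13,90),(12,16),(13,6),(7,0),(11,90),(10,16),(13,92),(11,92),(5,3),(9,16),(12,40),(10,40),(9,40),(8,3),(13,0),(7,6),(11,91),(10,17),(7,30),(6,0),(7,90),(6,16),(11,93),(7,92),(5,90),(4,16),(10,41),(6,40),(4,40),(3,3),(13,94),(11,94),(5,9),(9,17),(11,95),(7,94),(5,91),(4,17),(5,33),(5,93),(2,0),(2,16),(9,41),(4,41),(2,40),(1,3),(12,64),(10,64),(9,64),(8,9),(10,65),(6,64),(4,64),(3,9),(9,65),(4,65),(2,64),(1,9),(8,33),(3,33),(1,33),(0,0)]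

end RH6.Q1
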