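import Pool.Agent.RH6.DQ5

set_option maxRecDepth 100000

namespace RH6.Q5

theorem h_n13_0 : n13_0.all (nodeHeavy F) = true := by decide +kernel
theorem h_n14_0 : n14_0.all (nodeHeavy F) = true := by decide +kernel
theorem h_n15_0 : n15_0.all (nodeHeavy F) = true := by decide +kernel
theorem h_n16_0 : n16_0.all (nodeHeavy F) = true := by decide +kernel
theorem h_n17_0 : n17_0.all (nodeHeavy F) = true := by decide +kernel
theorem h_n18_0 : n18_0.all (nodeHeavy F) = true := by decide +kernel
theorem h_n19_0 : n19_0.all (nodeHeavy F) = true := by decide +kernel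
theorem h_n20_0 : n20_0.all (nodeHeavy F) = true := by decide +kernel
theorem h_n21_0 : n21_0.all (nodeHeavy F) = true := by decide +kernel
theorem h_n22_0 : n22_0.all (nodeHeavy F) = true := by decide +kernel
theorem h_n23_0 : n23_0.all (nodeHeavy F) = true := by decide +kernel
theorem h_n24_0 : n24_0.all (nodeHeavy F) = true := by decide +kernel
theorem h_n25_0 : n25_0.all (nodeHeavy F) = true := by decide +kernel
theorem h_n26_0 : n26_0.all (nodeHeavy F) = true := by decide +kernel
theorem h_n27_0 : n27_0.all (nodeHeavy F) = true := by decide +kernel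
theorem h_n28_0 : n28_0.all (nodeHeavy F) = true := by decide +kernel
theorem h_n29_0 : n29_0.all (nodeHeavy F) = true := by decide +kernel
theorem h_n30_0 : n30_0.all (nodeHeavy F) = true := by decide +kernel
theorem h_n31_0 : n31_0.all (nodeHeavy F) = true := by decide +kernel
theorem h_n32_0 : n32_0.all (nodeHeavy F) = true := by decide +kernel
theorem h_n33_0 : n33_0.all (nodeHeavy F) = true := by decide +kernel
theorem h_n34_0 : n34_0.all (nodeHeavy F) = true := by decide +kernel
theorem h_n35_0 : n35_0.all (nodeHeavy F) = true := by decide +kernel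
theorem h_n36_0 : n36_0.all (nodeHeavy F) = true := by decide +kernel
theorem h_n37_0 : n37_0.all (nodeHeavy F) = true := by decide +kernel
theorem h_n38_0 : n38_0.all (nodeHeavy F) = true := by decide +kernel
theorem h_n39_0 : n39_0.all (nodeHeavy F) = true := by decide +kernel

end RH6.Q5
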