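import Pool.Agent.RH6.Tree

namespace RH6.Q5

def F : Fam := ⟨[1,1,2,2,2], 2576980377, false, false, [(0,1)]⟩
def X : FX := ⟨F, AQ5, HQ5, Kd.kQ, [], false,
  [[0,1]],
  [],
  [[1,1,0,0,0], [0,0,1,0,0], [1,1,1,0,0], [0,0,0,1,0], [1,1,0,1,0], [0,0,1,1,0], [1,1,1,1,0], [0,0,0,0,1], [1,1,0,0,1], [0,0,1,0,1], [1,1,1,0,1], [0,0,0,1,1], [1,1,0,1,1], [0,0,1,1,1], [1,1,1,1,1], [2,0,0,0,0], [0,2,0,0,0], [0,0,2,0,0], [0,0,0,2,0], [0,0,0,0,2]]⟩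
def perms : List (List Nat) := [[0,1,2,3,4],
  [0,1,2,4,3],
  [0,1,3,2,4],
  [0,1,3,4,2],
  [0,1,4,2,3],
  [0,1,4,3,2],
  [1,0,2,3,4],
  [1,0,2,4,3],
  [1,0,3,2,4],
  [1,0,3,4,2],
  [1,0,4,2,3],
  [1,0,4,3,2]]
def n0_0 : List NX := [
  ⟨⟨0, [(0,1),(1,1),(2,1),(3,1),(4,1)], [], F.fb⟩, [1,1,1,1,1],
    [⟨2,0,[1,1,1,1,1],[1,1,1,1,1],[1,0,0,0,0],[0,0,0,0,0],[]⟩,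
     ⟨2,0,[1,1,1,1,1],[9,1,1,1,1],[1,0,0,0,0],[0,0,0,0,0],[]⟩]⟩]
def T0 : Tree := ⟨[1,1,1,1,1], n0_0, []⟩
def n1_0 : List NX := [
  ⟨⟨2, [(0,1),(1,1),(2,1),(3,1),(4,1)], [[(0,1),(1,1),(0,1),(0,1),(0,1)],[(0,1),(1,1),(0,1),(0,1),(2,1)],[(0,1),(1,1),(1,3),(1,3),(2,1)],[(0,1),(1,1),(2,1),(2,1),(3,1)]], F.fb⟩, [1,3,1,1,1],
    [⟨2,0,[0,2,1,1,0],[1,3,1,1,1],[0,0,1,0,0],[0,0,0,0,0],[]⟩,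
     ⟨2,0,[0,2,1,1,0],[9,3,1,1,1],[0,0,1,0,0],[0,0,0,0,0],[]⟩]⟩,
  ⟨⟨3, [(0,1),(1,1),(2,1),(2,1),(3,1)], [[(0,1),(1,1),(0,1),(0,1),(0,1)],[(0,1),(1,1),(1,3),(1,3),(1,3)],[(0,1),(1,1),(2,1),(2,1),(2,1)]], F.fb⟩, [1,3,1,1,1],
    [⟨2,0,[0,2,1,0,1],[1,3,1,1,1],[0,0,0,0,1],[0,0,0,0,0],[]⟩,
     ⟨2,0,[0,2,1,0,1],[9,3,1,1,1],[0,0,0,0,1],[0,0,0,0,0],[]⟩]⟩,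
  ⟨⟨2, [(0,1),(1,1),(0,1),(0,1),(2,1)], [[(0,1),(0,3),(0,1),(0,1),(0,1)],[(0,1),(1,1),(0,1),(0,1),(0,1)]], F.fb⟩, [1,3,1,1,1],
    [⟨2,0,[0,2,1,0,1],[1,3,1,1,1],[0,0,0,0,1],[0,0,0,0,0],[]⟩,
     ⟨2,0,[0,2,1,0,1],[9,3,1,1,1],[0,0,0,0,1],[0,0,0,0,0],[]⟩]⟩,
  ⟨⟨2, [(0,1),(1,1),(1,3),(1,3),(2,1)], [[(0,1),(0,3),(0,1),(0,1),(0,1)],[(0,1),(1,1),(1,3),(1,3),(1,3)]], F.fb⟩, [1,3,1,1,1],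
    [⟨2,0,[0,2,1,0,1],[1,3,1,1,1],[0,0,0,0,1],[0,0,0,0,0],[]⟩,
     ⟨2,0,[0,2,1,0,1],[9,3,1,1,1],[0,0,0,0,1],[0,0,0,0,0],[]⟩]⟩,
  ⟨⟨1, [(0,1),(1,1),(2,1),(2,1),(2,1)], [[(0,1),(0,3),(0,1),(0,1),(0,1)],[(0,1),(0,11),(0,1),(0,1),(0,1)],[(0,1),(0,3),(1,1),(1,1),(1,1)]], F.fb⟩, [3,1,3,3,3],
    [⟨2,0,[1,1,1,1,0],[3,1,3,3,3],[0,1,0,0,0],[0,0,0,0,0],[]⟩,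
     ⟨2,0,[1,1,1,1,0],[11,1,3,3,3],[0,1,0,0,0],[0,0,0,0,0],[]⟩]⟩,
  ⟨⟨1, [(0,1),(0,3),(1,1),(1,1),(1,1)], [[(0,1),(0,3),(0,1),(0,1),(0,1)]], F.fb⟩, [1,3,1,1,1],
    [⟨4,0,[1,1,1,1,2],[1,3,1,1,1],[0,0,1,1,0],[0,0,0,0,0],[]⟩,
     ⟨4,0,[1,3,1,1,2],[9,3,1,1,1],[0,0,1,1,0],[0,0,0,0,0],[]⟩]⟩,
  ⟨⟨1, [(0,1),(1,1),(0,1),(0,1),(0,1)], [[(0,1),(0,3),(0,1),(0,1),(0,1)],[(0,1),(0,11),(0,1),(0,1),(0,1)]], F.fb⟩, [3,1,3,3,3],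
    [⟨2,0,[1,1,1,1,0],[3,1,3,3,3],[0,1,0,0,0],[0,0,0,0,0],[]⟩,
     ⟨2,0,[1,1,1,1,0],[11,1,3,3,3],[0,1,0,0,0],[0,0,0,0,0],[]⟩]⟩,
  ⟨⟨1, [(0,1),(1,1),(1,3),(1,3),(1,3)], [[(0,1),(0,3),(0,1),(0,1),(0,1)]], F.fb⟩, [3,1,3,3,3],
    [⟨2,0,[1,1,1,1,0],[3,1,3,3,3],[0,1,0,0,0],[0,0,0,0,0],[]⟩,
     ⟨2,0,[1,1,1,1,0],[11,1,3,3,3],[0,1,0,0,0],[0,0,0,0,0],[]⟩]⟩,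
  ⟨⟨0, [(0,1),(0,11),(0,1),(0,1),(0,1)], [], F.fb⟩, [1,3,1,1,1],
    [⟨2,0,[1,1,0,1,1],[9,3,1,1,1],[0,1,0,0,0],[1,0,0,0,0],[]⟩]⟩]
def T1 : Tree := ⟨[1,3,1,1,1], n1_0, [[(0,1),(0,3),(0,1),(0,1),(0,1)]]⟩
def n2_0 : List NX := [
  ⟨⟨2, [(0,1),(1,1),(2,1),(3,1),(4,1)], [[(0,1),(1,1),(0,1),(0,1),(0,1)],[(0,1),(1,1),(0,1),(0,1),(2,1)],[(0,1),(1,1),(2,1),(2,1),(3,1)]], F.fb⟩, [1,5,1,1,1],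
    [⟨2,0,[0,2,1,1,0],[1,5,1,1,1],[0,0,1,0,0],[0,0,0,0,0],[]⟩,
     ⟨2,0,[0,2,1,1,0],[9,5,1,1,1],[0,0,1,0,0],[0,0,0,0,0],[]⟩]⟩,
  ⟨⟨3, [(0,1),(1,1),(2,1),(2,1),(3,1)], [[(0,1),(1,1),(0,1),(0,1),(0,1)],[(0,1),(1,1),(2,1),(2,1),(2,1)]], F.fb⟩, [1,5,1,1,1],
    [⟨2,0,[0,2,1,0,1],[1,5,1,1,1],[0,0,0,0,1],[0,0,0,0,0],[]⟩,
     ⟨2,0,[0,2,1,0,1],[9,5,1,1,1],[0,0,0,0,1],[0,0,0,0,0],[]⟩]⟩,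
  ⟨⟨2, [(0,1),(1,1),(0,1),(0,1),(2,1)], [[(0,1),(1,1),(0,1),(0,1),(0,1)]], F.fb⟩, [1,5,1,1,1],
    [⟨2,0,[0,2,1,0,1],[1,5,1,1,1],[0,0,0,0,1],[0,0,0,0,0],[]⟩,
     ⟨2,0,[0,2,1,0,1],[9,5,1,1,1],[0,0,0,0,1],[0,0,0,0,0],[]⟩]⟩,
  ⟨⟨1, [(0,1),(1,1),(2,1),(2,1),(2,1)], [[(0,1),(0,5),(0,1),(0,1),(0,1)],[(0,1),(0,13),(0,1),(0,1),(0,1)],[(0,1),(0,21),(0,1),(0,1),(0,1)]], F.fb⟩, [5,1,5,5,5],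
    [⟨2,0,[1,1,1,0,0],[5,1,5,5,5],[0,1,0,0,0],[0,0,0,0,0],[]⟩,
     ⟨2,0,[1,1,1,0,0],[13,1,5,5,5],[0,1,0,0,0],[0,0,0,0,0],[]⟩]⟩,
  ⟨⟨1, [(0,1),(1,1),(0,1),(0,1),(0,1)], [[(0,1),(0,5),(0,1),(0,1),(0,1)],[(0,1),(0,13),(0,1),(0,1),(0,1)],[(0,1),(0,21),(0,1),(0,1),(0,1)]], F.fb⟩, [5,1,5,5,5],
    [⟨2,0,[1,1,1,0,0],[5,1,5,5,5],[0,1,0,0,0],[0,0,0,0,0],[]⟩,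
     ⟨2,0,[1,1,1,0,0],[13,1,5,5,5],[0,1,0,0,0],[0,0,0,0,0],[]⟩]⟩,
  ⟨⟨0, [(0,1),(0,13),(0,1),(0,1),(0,1)], [], F.fb⟩, [1,5,1,1,1],
    [⟨2,0,[1,1,1,0,0],[9,5,1,1,1],[0,1,0,0,0],[1,0,0,0,0],[]⟩]⟩,
  ⟨⟨0, [(0,1),(0,21),(0,1),(0,1),(0,1)], [], F.fb⟩, [1,5,1,1,1],
    [⟨2,0,[1,1,1,0,0],[1,5,1,1,1],[1,3,0,0,0],[0,0,0,0,0],[]⟩]⟩]
def T2 : Tree := ⟨[1,5,1,1,1], n2_0, [[(0,1),(0,5),(0,1),(0,1),(0,1)]]⟩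
def n3_0 : List NX := [
  ⟨⟨2, [(0,1),(1,1),(2,1),(3,1),(4,1)], [[(0,1),(1,1),(0,1),(0,1),(0,1)],[(0,1),(1,1),(0,1),(0,1),(2,1)],[(0,1),(1,1),(2,1),(2,1),(3,1)]], F.fb⟩, [1,7,1,1,1],
    [⟨2,0,[0,2,1,1,0],[1,7,1,1,1],[0,0,1,0,0],[0,0,0,0,0],[]⟩,
     ⟨2,0,[0,2,1,1,0],[9,7,1,1,1],[0,0,1,0,0],[0,0,0,0,0],[]⟩]⟩,
  ⟨⟨3, [(0,1),(1,1),(2,1),(2,1),(3,1)], [[(0,1),(1,1),(0,1),(0,1),(0,1)],[(0,1),(1,1),(2,1),(2,1),(2,1)]], F.fb⟩, [1,7,1,1,1],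
    [⟨2,0,[0,2,1,0,1],[1,7,1,1,1],[0,0,0,0,1],[0,0,0,0,0],[]⟩,
     ⟨2,0,[0,2,1,0,1],[9,7,1,1,1],[0,0,0,0,1],[0,0,0,0,0],[]⟩]⟩,
  ⟨⟨2, [(0,1),(1,1),(0,1),(0,1),(2,1)], [[(0,1),(1,1),(0,1),(0,1),(0,1)]], F.fb⟩, [1,7,1,1,1],
    [⟨2,0,[0,2,1,0,1],[1,7,1,1,1],[0,0,0,0,1],[0,0,0,0,0],[]⟩,
     ⟨2,0,[0,2,1,0,1],[9,7,1,1,1],[0,0,0,0,1],[0,0,0,0,0],[]⟩]⟩,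
  ⟨⟨1, [(0,1),(1,1),(2,1),(2,1),(2,1)], [[(0,1),(0,7),(0,1),(0,1),(0,1)],[(0,1),(0,7),(1,1),(1,1),(1,1)],[(0,1),(0,15),(1,1),(1,1),(1,1)]], F.fb⟩, [7,1,7,7,7],
    [⟨2,0,[1,1,0,0,0],[7,1,7,7,7],[0,1,0,0,0],[0,0,0,0,0],[]⟩,
     ⟨2,0,[1,1,0,0,0],[15,1,7,7,7],[0,1,0,0,0],[0,0,0,0,0],[]⟩]⟩,
  ⟨⟨1, [(0,1),(0,7),(1,1),(1,1),(1,1)], [[(0,1),(0,7),(0,1),(0,1),(0,1)]], F.fb⟩, [1,7,1,1,1],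
    [⟨4,0,[2,0,1,1,2],[1,7,1,1,1],[0,0,1,1,0],[0,0,0,0,0],[]⟩,
     ⟨4,0,[1,3,2,0,0],[9,7,1,1,1],[0,0,1,0,0],[0,0,0,0,0],[]⟩]⟩,
  ⟨⟨1, [(0,1),(0,15),(1,1),(1,1),(1,1)], [[(0,1),(0,15),(0,1),(0,1),(0,1)]], F.fb⟩, [1,7,1,1,1],
    [⟨4,0,[1,1,2,0,0],[1,7,1,1,1],[0,0,1,0,0],[0,0,0,0,0],[]⟩,
     ⟨4,0,[1,3,2,0,0],[9,7,1,1,1],[0,0,1,0,0],[0,0,0,0,0],[]⟩]⟩,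
  ⟨⟨1, [(0,1),(1,1),(0,1),(0,1),(0,1)], [[(0,1),(0,7),(0,1),(0,1),(0,1)],[(0,1),(0,15),(0,1),(0,1),(0,1)]], F.fb⟩, [7,1,7,7,7],
    [⟨2,0,[1,1,0,0,0],[7,1,7,7,7],[0,1,0,0,0],[0,0,0,0,0],[]⟩,
     ⟨2,0,[1,1,0,0,0],[15,1,7,7,7],[0,1,0,0,0],[0,0,0,0,0],[]⟩]⟩]
def T3 : Tree := ⟨[1,7,1,1,1], n3_0, [[(0,1),(0,7),(0,1),(0,1),(0,1)],[(0,1),(0,15),(0,1),(0,1),(0,1)]]⟩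
def n4_0 : List NX := [
  ⟨⟨4, [(0,1),(1,1),(2,1),(3,1),(4,1)], [[(0,1),(1,1),(2,1),(2,1),(2,3)],[(0,1),(1,1),(2,1),(3,1),(2,3)]], F.fb⟩, [3,3,3,3,1],
    [⟨2,0,[0,0,1,0,1],[3,3,3,3,1],[0,0,0,0,1],[0,0,0,0,0],[]⟩,
     ⟨2,0,[0,0,1,0,1],[11,3,3,3,1],[0,0,0,0,1],[0,0,0,0,0],[]⟩]⟩,
  ⟨⟨2, [(0,1),(1,1),(2,1),(3,1),(2,3)], [[(0,1),(1,1),(2,1),(2,1),(2,3)]], F.fb⟩, [1,1,1,1,3],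
    [⟨2,0,[0,0,0,1,1],[1,1,1,1,3],[0,0,0,0,1],[0,0,0,0,0],[]⟩,
     ⟨2,0,[0,0,0,1,1],[9,1,1,1,3],[0,0,0,0,1],[0,0,0,0,0],[]⟩]⟩,
  ⟨⟨2, [(0,1),(1,1),(2,1),(2,1),(2,3)], [[(0,1),(0,33),(0,1),(0,1),(0,3)],[(0,1),(0,33),(0,33),(0,33),(0,11)]], F.fb⟩, [1,1,1,1,3],
    [⟨2,0,[1,1,0,0,1],[1,1,1,1,3],[0,0,0,0,1],[0,0,0,0,0],[]⟩,
     ⟨2,0,[1,1,0,0,1],[9,1,1,1,3],[0,0,0,0,1],[0,0,0,0,0],[]⟩]⟩,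
  ⟨⟨0, [(0,1),(0,33),(0,1),(0,1),(0,3)], [], F.fb⟩, [1,1,1,1,3],
    [⟨2,0,[1,1,0,0,1],[1,1,1,1,3],[1,3,0,0,0],[0,0,0,0,0],[]⟩]⟩,
  ⟨⟨0, [(0,1),(0,33),(0,33),(0,33),(0,11)], [], F.fb⟩, [1,1,1,1,3],
    [⟨2,0,[1,1,0,0,1],[1,1,1,1,3],[1,11,0,0,0],[0,0,0,0,0],[]⟩]⟩]
def T4 : Tree := ⟨[1,1,1,1,3], n4_0, []⟩
def n5_0 : List NX := [
  ⟨⟨4, [(0,1),(1,1),(2,1),(3,1),(4,1)], [[(0,1),(1,1),(2,1),(2,1),(2,3)],[(0,1),(1,1),(2,1),(3,1),(2,3)]], F.fb⟩, [3,1,3,3,1],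
    [⟨2,0,[0,0,1,0,1],[3,1,3,3,1],[0,0,0,0,1],[0,0,0,0,0],[]⟩,
     ⟨2,0,[0,0,1,0,1],[11,1,3,3,1],[0,0,0,0,1],[0,0,0,0,0],[]⟩]⟩,
  ⟨⟨2, [(0,1),(1,1),(2,1),(3,1),(2,3)], [[(0,1),(1,1),(2,1),(2,1),(2,3)]], F.fb⟩, [1,3,1,1,3],
    [⟨2,0,[0,0,0,1,1],[1,3,1,1,3],[0,0,0,0,1],[0,0,0,0,0],[]⟩,
     ⟨2,0,[0,0,0,1,1],[9,3,1,1,3],[0,0,0,0,1],[0,0,0,0,0],[]⟩]⟩,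
  ⟨⟨1, [(0,1),(1,1),(2,1),(2,1),(2,3)], [[(0,1),(0,3),(0,1),(0,1),(0,3)],[(0,1),(0,11),(0,1),(0,1),(0,3)],[(0,1),(0,3),(1,1),(1,1),(1,3)]], F.fb⟩, [3,1,3,3,1],
    [⟨2,0,[1,1,1,1,0],[3,1,3,3,1],[0,1,0,0,0],[0,0,0,0,0],[]⟩,
     ⟨2,0,[1,1,1,1,0],[11,1,3,3,1],[0,1,0,0,0],[0,0,0,0,0],[]⟩]⟩,
  ⟨⟨1, [(0,1),(0,3),(1,1),(1,1),(1,3)], [[(0,1),(0,3),(0,1),(0,1),(0,3)],[(0,1),(0,3),(0,33),(0,33),(0,11)]], F.fb⟩, [1,3,1,1,3],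
    [⟨4,0,[1,1,1,1,2],[1,3,1,1,3],[0,0,1,1,0],[0,0,0,0,0],[]⟩,
     ⟨4,0,[1,3,1,1,2],[9,3,1,1,3],[0,0,1,1,0],[0,0,0,0,0],[]⟩]⟩,
  ⟨⟨0, [(0,1),(0,3),(0,33),(0,33),(0,11)], [], F.fb⟩, [1,3,1,1,3],
    [⟨4,0,[1,3,1,1,0],[1,3,1,1,3],[1,1,22,22,0],[0,0,0,0,0],[]⟩]⟩,
  ⟨⟨0, [(0,1),(0,11),(0,1),(0,1),(0,3)], [], F.fb⟩, [1,3,1,1,3],
    [⟨2,0,[1,1,1,1,0],[9,3,1,1,3],[0,1,0,0,0],[1,0,0,0,0],[]⟩]⟩]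
def T5 : Tree := ⟨[1,3,1,1,3], n5_0, [[(0,1),(0,3),(0,1),(0,1),(0,3)]]⟩
def n6_0 : List NX := [
  ⟨⟨4, [(0,1),(1,1),(2,1),(3,1),(4,1)], [[(0,1),(0,5),(0,1),(0,1),(0,3)]], F.fb⟩, [3,7,3,3,1],
    [⟨2,0,[1,1,1,1,1],[3,7,3,3,1],[0,0,0,0,1],[0,0,0,0,0],[]⟩,
     ⟨2,0,[1,1,1,1,1],[11,7,3,3,1],[0,0,0,0,1],[0,0,0,0,0],[]⟩]⟩,
  ⟨⟨0, [(0,1),(0,5),(0,1),(0,1),(0,3)], [], F.fb⟩, [1,5,1,1,3],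
    [⟨2,0,[1,1,1,1,1],[1,5,1,1,3],[0,1,0,0,0],[1,0,0,0,0],[]⟩]⟩]
def T6 : Tree := ⟨[1,5,1,1,3], n6_0, []⟩
def n7_0 : List NX := [
  ⟨⟨4, [(0,1),(1,1),(2,1),(3,1),(4,1)], [[(0,1),(0,7),(0,1),(1,1),(0,3)],[(0,1),(0,15),(0,1),(1,1),(0,3)]], F.fb⟩, [3,5,3,3,1],
    [⟨2,0,[1,1,1,0,1],[3,5,3,3,1],[0,0,0,0,1],[0,0,0,0,0],[]⟩,
     ⟨2,0,[1,1,1,0,1],[11,5,3,3,1],[0,0,0,0,1],[0,0,0,0,0],[]⟩]⟩,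
  ⟨⟨0, [(0,1),(0,7),(0,1),(1,1),(0,3)], [], F.fb⟩, [1,7,1,1,3],
    [⟨2,0,[1,1,1,0,1],[1,7,1,1,3],[0,1,0,0,0],[1,0,0,0,0],[]⟩,
     ⟨2,0,[1,1,1,0,1],[9,7,1,1,3],[0,1,0,0,0],[1,0,0,0,0],[]⟩]⟩,
  ⟨⟨0, [(0,1),(0,15),(0,1),(1,1),(0,3)], [], F.fb⟩, [1,7,1,1,3],
    [⟨2,0,[1,1,1,0,1],[1,7,1,1,3],[1,3,0,0,0],[0,0,0,0,0],[]⟩,
     ⟨2,0,[1,1,1,0,1],[9,7,1,1,3],[1,3,0,0,0],[0,0,0,0,0],[]⟩]⟩]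
def T7 : Tree := ⟨[1,7,1,1,3], n7_0, []⟩
def n8_0 : List NX := [
  ⟨⟨2, [(0,1),(1,1),(2,1),(3,1),(4,1)], [], F.fb⟩, [1,1,1,3,3],
    [⟨2,0,[1,1,1,1,1],[1,1,1,3,3],[0,0,1,0,0],[0,0,0,0,0],[]⟩,
     ⟨2,0,[1,1,1,1,1],[9,1,1,3,3],[0,0,1,0,0],[0,0,0,0,0],[]⟩]⟩]
def T8 : Tree := ⟨[1,1,1,3,3], n8_0, []⟩
def n9_0 : List NX := [
  ⟨⟨3, [(0,1),(1,1),(2,1),(3,1),(4,1)], [[(0,1),(1,1),(2,1),(2,3),(2,3)],[(0,1),(1,1),(2,1),(2,3),(3,1)]], F.fb⟩, [3,7,3,1,1],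
    [⟨2,0,[0,0,1,1,0],[3,7,3,1,1],[0,0,0,1,0],[0,0,0,0,0],[]⟩,
     ⟨2,0,[0,0,1,1,0],[11,7,3,1,1],[0,0,0,1,0],[0,0,0,0,0],[]⟩]⟩,
  ⟨⟨3, [(0,1),(1,1),(2,1),(2,3),(3,1)], [[(0,1),(1,1),(2,1),(2,3),(2,3)]], F.fb⟩, [3,7,3,1,1],
    [⟨2,0,[0,0,1,0,1],[3,7,3,1,1],[0,0,0,0,1],[0,0,0,0,0],[]⟩,
     ⟨2,0,[0,0,1,0,1],[11,7,3,1,1],[0,0,0,0,1],[0,0,0,0,0],[]⟩]⟩,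
  ⟨⟨2, [(0,1),(1,1),(2,1),(2,3),(2,3)], [[(0,1),(0,5),(0,1),(0,3),(0,3)],[(0,1),(0,13),(0,1),(0,3),(0,3)],[(0,1),(0,21),(0,1),(0,3),(0,3)]], F.fb⟩, [1,5,1,3,3],
    [⟨2,0,[1,1,1,0,0],[1,5,1,3,3],[0,0,1,0,0],[0,0,0,0,0],[]⟩,
     ⟨2,0,[1,1,1,0,0],[9,5,1,3,3],[0,0,1,0,0],[0,0,0,0,0],[]⟩]⟩,
  ⟨⟨0, [(0,1),(0,13),(0,1),(0,3),(0,3)], [], F.fb⟩, [1,5,1,3,3],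
    [⟨2,0,[1,1,1,0,0],[9,5,1,3,3],[0,1,0,0,0],[1,0,0,0,0],[]⟩]⟩,
  ⟨⟨0, [(0,1),(0,21),(0,1),(0,3),(0,3)], [], F.fb⟩, [1,5,1,3,3],
    [⟨2,0,[1,1,1,0,0],[1,5,1,3,3],[1,3,0,0,0],[0,0,0,0,0],[]⟩]⟩]
def T9 : Tree := ⟨[1,5,1,3,3], n9_0, [[(0,1),(0,5),(0,1),(0,3),(0,3)]]⟩
def n10_0 : List NX := [
  ⟨⟨3, [(0,1),(1,1),(2,1),(3,1),(4,1)], [[(0,1),(0,7),(0,1),(0,3),(1,1)],[(0,1),(0,15),(0,1),(0,3),(1,1)]], F.fb⟩, [3,5,3,1,1],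
    [⟨2,0,[1,1,1,1,0],[3,5,3,1,1],[0,0,0,1,0],[0,0,0,0,0],[]⟩,
     ⟨2,0,[1,1,1,1,0],[11,5,3,1,1],[0,0,0,1,0],[0,0,0,0,0],[]⟩]⟩,
  ⟨⟨0, [(0,1),(0,7),(0,1),(0,3),(1,1)], [], F.fb⟩, [1,7,1,3,3],
    [⟨2,0,[1,1,1,1,0],[1,7,1,3,3],[0,1,0,0,0],[1,0,0,0,0],[]⟩,
     ⟨2,0,[1,1,1,1,0],[9,7,1,3,3],[0,1,0,0,0],[1,0,0,0,0],[]⟩]⟩,
  ⟨⟨0, [(0,1),(0,15),(0,1),(0,3),(1,1)], [], F.fb⟩, [1,7,1,3,3],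
    [⟨2,0,[1,1,1,1,0],[1,7,1,3,3],[1,3,0,0,0],[0,0,0,0,0],[]⟩,
     ⟨2,0,[1,1,1,1,0],[9,7,1,3,3],[1,3,0,0,0],[0,0,0,0,0],[]⟩]⟩]
def T10 : Tree := ⟨[1,7,1,3,3], n10_0, []⟩
def n11_0 : List NX := [
  ⟨⟨2, [(0,1),(1,1),(2,1),(3,1),(4,1)], [[(0,1),(0,33),(0,3),(1,1),(2,1)],[(0,1),(0,33),(0,11),(1,1),(2,1)]], F.fb⟩, [3,3,1,1,1],
    [⟨2,0,[1,1,1,0,0],[3,3,1,1,1],[0,0,1,0,0],[0,0,0,0,0],[]⟩,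
     ⟨2,0,[1,1,1,0,0],[11,3,1,1,1],[0,0,1,0,0],[0,0,0,0,0],[]⟩]⟩,
  ⟨⟨0, [(0,1),(0,33),(0,3),(1,1),(2,1)], [], F.fb⟩, [1,1,3,3,3],
    [⟨2,0,[1,1,1,0,0],[1,1,3,3,3],[1,3,0,0,0],[0,0,0,0,0],[]⟩,
     ⟨2,0,[1,1,1,0,0],[9,1,3,3,3],[1,3,0,0,0],[0,0,0,0,0],[]⟩]⟩,
  ⟨⟨0, [(0,1),(0,33),(0,11),(1,1),(2,1)], [], F.fb⟩, [1,1,3,3,3],
    [⟨2,0,[1,1,1,0,0],[1,1,3,3,3],[1,11,0,0,0],[0,0,0,0,0],[]⟩,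
     ⟨2,0,[1,1,1,0,0],[9,1,3,3,3],[1,11,0,0,0],[0,0,0,0,0],[]⟩]⟩]
def T11 : Tree := ⟨[1,1,3,3,3], n11_0, []⟩
def n12_0 : List NX := [
  ⟨⟨1, [(0,1),(1,1),(2,1),(3,1),(4,1)], [[(0,1),(0,21),(0,3),(0,3),(0,3)]], F.fb⟩, [5,1,7,7,7],
    [⟨2,0,[1,1,1,1,1],[5,1,7,7,7],[0,1,0,0,0],[0,0,0,0,0],[]⟩,
     ⟨2,0,[1,1,1,1,1],[13,1,7,7,7],[0,1,0,0,0],[0,0,0,0,0],[]⟩]⟩,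
  ⟨⟨0, [(0,1),(0,21),(0,3),(0,3),(0,3)], [], F.fb⟩, [1,5,3,3,3],
    [⟨2,0,[1,1,1,1,1],[1,5,3,3,3],[1,3,0,0,0],[0,0,0,0,0],[]⟩]⟩]
def T12 : Tree := ⟨[1,5,3,3,3], n12_0, []⟩
def n13_0 : List NX := [
  ⟨⟨2, [(0,1),(1,1),(2,1),(3,1),(4,1)], [[(0,1),(1,1),(0,3),(0,3),(2,1)],[(0,1),(1,1),(2,1),(2,1),(3,1)]], F.fb⟩, [3,5,1,1,1],
    [⟨2,0,[0,2,1,1,0],[3,5,1,1,1],[0,0,1,0,0],[0,0,0,0,0],[]⟩,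
     ⟨2,0,[0,2,1,1,0],[11,5,1,1,1],[0,0,1,0,0],[0,0,0,0,0],[]⟩]⟩,
  ⟨⟨3, [(0,1),(1,1),(2,1),(2,1),(3,1)], [[(0,1),(1,1),(0,3),(0,3),(0,3)],[(0,1),(1,1),(2,1),(2,1),(2,1)]], F.fb⟩, [3,5,1,1,1],
    [⟨2,0,[0,2,1,0,1],[3,5,1,1,1],[0,0,0,0,1],[0,0,0,0,0],[]⟩,
     ⟨2,0,[0,2,1,0,1],[11,5,1,1,1],[0,0,0,0,1],[0,0,0,0,0],[]⟩]⟩,
  ⟨⟨2, [(0,1),(1,1),(0,3),(0,3),(2,1)], [[(0,1),(1,1),(0,3),(0,3),(0,3)]], F.fb⟩, [3,5,1,1,1],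
    [⟨2,0,[0,2,1,0,1],[3,5,1,1,1],[0,0,0,0,1],[0,0,0,0,0],[]⟩,
     ⟨2,0,[0,2,1,0,1],[11,5,1,1,1],[0,0,0,0,1],[0,0,0,0,0],[]⟩]⟩,
  ⟨⟨1, [(0,1),(1,1),(2,1),(2,1),(2,1)], [[(0,1),(0,7),(1,1),(1,1),(1,1)],[(0,1),(0,15),(1,1),(1,1),(1,1)]], F.fb⟩, [7,1,5,5,5],
    [⟨2,0,[1,1,0,0,0],[7,1,5,5,5],[0,1,0,0,0],[0,0,0,0,0],[]⟩,
     ⟨2,0,[1,1,0,0,0],[15,1,5,5,5],[0,1,0,0,0],[0,0,0,0,0],[]⟩]⟩,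
  ⟨⟨1, [(0,1),(0,7),(1,1),(1,1),(1,1)], [[(0,1),(0,7),(0,3),(0,3),(0,3)]], F.fb⟩, [3,5,1,1,1],
    [⟨4,0,[1,1,2,0,0],[3,5,1,1,1],[0,0,1,0,0],[0,0,0,0,0],[]⟩,
     ⟨4,0,[1,3,2,0,0],[11,5,1,1,1],[0,0,1,0,0],[0,0,0,0,0],[]⟩]⟩,
  ⟨⟨1, [(0,1),(0,15),(1,1),(1,1),(1,1)], [[(0,1),(0,15),(0,3),(0,3),(0,3)],[(0,1),(0,15),(0,35),(0,35),(0,35)]], F.fb⟩, [3,5,1,1,1],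
    [⟨4,0,[1,1,2,0,0],[3,5,1,1,1],[0,0,1,0,0],[0,0,0,0,0],[]⟩,
     ⟨4,0,[1,3,2,0,0],[11,5,1,1,1],[0,0,1,0,0],[0,0,0,0,0],[]⟩]⟩,
  ⟨⟨1, [(0,1),(1,1),(0,3),(0,3),(0,3)], [[(0,1),(0,7),(0,3),(0,3),(0,3)],[(0,1),(0,15),(0,3),(0,3),(0,3)]], F.fb⟩, [7,1,5,5,5],
    [⟨2,0,[1,1,0,0,0],[7,1,5,5,5],[0,1,0,0,0],[0,0,0,0,0],[]⟩,
     ⟨2,0,[1,1,0,0,0],[15,1,5,5,5],[0,1,0,0,0],[0,0,0,0,0],[]⟩]⟩,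
  ⟨⟨0, [(0,1),(0,7),(0,3),(0,3),(0,3)], [], F.fb⟩, [1,7,3,3,3],
    [⟨4,0,[0,2,1,1,2],[1,7,3,3,3],[0,0,1,1,0],[0,1,0,0,0],[]⟩]⟩,
  ⟨⟨0, [(0,1),(0,15),(0,35),(0,35),(0,35)], [], F.fb⟩, [1,7,3,3,3],
    [⟨4,0,[2,0,1,1,0],[9,7,3,3,3],[1,0,0,0,0],[0,0,0,0,0],[]⟩]⟩]
def T13 : Tree := ⟨[1,7,3,3,3], n13_0, [[(0,1),(0,15),(0,3),(0,3),(0,3)]]⟩
def n14_0 : List NX := [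
  ⟨⟨4, [(0,1),(1,1),(2,1),(3,1),(4,1)], [], F.fb⟩, [5,5,5,5,1],
    [⟨2,0,[1,1,1,1,1],[5,5,5,5,1],[0,0,0,0,1],[0,0,0,0,0],[]⟩,
     ⟨2,0,[1,1,1,1,1],[13,5,5,5,1],[0,0,0,0,1],[0,0,0,0,0],[]⟩]⟩]
def T14 : Tree := ⟨[1,1,1,1,5], n14_0, []⟩
def n15_0 : List NX := [
  ⟨⟨4, [(0,1),(1,1),(2,1),(3,1),(4,1)], [[(0,1),(0,3),(0,1),(1,1),(0,5)]], F.fb⟩, [5,7,5,5,1],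
    [⟨2,0,[1,1,1,0,1],[5,7,5,5,1],[0,0,0,0,1],[0,0,0,0,0],[]⟩,
     ⟨2,0,[1,1,1,0,1],[13,7,5,5,1],[0,0,0,0,1],[0,0,0,0,0],[]⟩]⟩,
  ⟨⟨0, [(0,1),(0,3),(0,1),(1,1),(0,5)], [], F.fb⟩, [1,3,1,1,5],
    [⟨2,0,[1,1,1,0,1],[1,3,1,1,5],[0,0,0,0,1],[0,0,1,0,0],[]⟩,
     ⟨2,0,[1,1,1,0,1],[9,3,1,1,5],[0,0,0,0,1],[0,0,1,0,0],[]⟩]⟩]
def T15 : Tree := ⟨[1,3,1,1,5], n15_0, []⟩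
def n16_0 : List NX := [
  ⟨⟨4, [(0,1),(1,1),(2,1),(3,1),(4,1)], [[(0,1),(1,1),(0,1),(2,1),(0,5)],[(0,1),(1,1),(1,5),(2,1),(1,1)]], F.fb⟩, [5,1,5,5,1],
    [⟨2,0,[0,2,1,0,1],[5,1,5,5,1],[0,0,0,0,1],[0,0,0,0,0],[]⟩,
     ⟨2,0,[0,2,1,0,1],[13,1,5,5,1],[0,0,0,0,1],[0,0,0,0,0],[]⟩]⟩,
  ⟨⟨2, [(0,1),(1,1),(0,1),(2,1),(0,5)], [[(0,1),(1,1),(0,1),(0,1),(0,5)]], F.fb⟩, [1,5,1,1,5],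
    [⟨2,0,[0,2,1,1,0],[1,5,1,1,5],[0,0,0,1,0],[0,0,0,0,0],[]⟩,
     ⟨2,0,[0,2,1,1,0],[9,5,1,1,5],[0,0,0,1,0],[0,0,0,0,0],[]⟩]⟩,
  ⟨⟨1, [(0,1),(1,1),(1,5),(2,1),(1,1)], [[(0,1),(0,5),(0,1),(1,1),(0,5)]], F.fb⟩, [5,1,5,5,1],
    [⟨2,0,[0,2,1,0,1],[5,1,5,5,1],[0,0,0,0,1],[0,0,1,0,0],[]⟩,
     ⟨2,0,[0,2,1,0,1],[13,1,5,5,1],[0,0,0,0,1],[0,0,1,0,0],[]⟩]⟩,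
  ⟨⟨1, [(0,1),(0,5),(0,1),(1,1),(0,5)], [[(0,1),(0,5),(0,1),(0,1),(0,5)]], F.fb⟩, [1,5,1,1,5],
    [⟨2,0,[1,1,0,1,0],[1,5,1,1,5],[0,0,0,1,0],[0,0,0,0,0],[]⟩,
     ⟨2,0,[1,1,0,1,0],[9,5,1,1,5],[0,0,0,1,0],[0,0,0,0,0],[]⟩]⟩,
  ⟨⟨0, [(0,1),(1,1),(0,1),(0,1),(0,5)], [[(0,1),(0,5),(0,1),(0,1),(0,5)]], F.fb⟩, [1,5,1,1,5],
    [⟨2,0,[0,2,1,0,1],[1,5,1,1,5],[0,0,1,0,1],[0,0,0,0,0],[]⟩,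
     ⟨2,0,[0,2,1,0,1],[9,5,1,1,5],[0,0,1,0,1],[0,0,0,0,0],[]⟩]⟩]
def T16 : Tree := ⟨[1,5,1,1,5], n16_0, [[(0,1),(0,5),(0,1),(0,1),(0,5)]]⟩
def n17_0 : List NX := [
  ⟨⟨4, [(0,1),(1,1),(2,1),(3,1),(4,1)], [[(0,1),(1,1),(0,1),(2,1),(0,5)]], F.fb⟩, [5,3,5,5,1],
    [⟨2,0,[0,2,1,0,1],[5,3,5,5,1],[0,0,0,0,1],[0,0,0,0,0],[]⟩,
     ⟨2,0,[0,2,1,0,1],[13,3,5,5,1],[0,0,0,0,1],[0,0,0,0,0],[]⟩]⟩,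
  ⟨⟨0, [(0,1),(1,1),(0,1),(2,1),(0,5)], [], F.fb⟩, [1,7,1,1,5],
    [⟨2,0,[0,2,1,0,1],[1,7,1,1,5],[0,0,1,0,1],[0,0,0,0,0],[]⟩,
     ⟨2,0,[0,2,1,0,1],[9,7,1,1,5],[0,0,1,0,1],[0,0,0,0,0],[]⟩]⟩]
def T17 : Tree := ⟨[1,7,1,1,5], n17_0, []⟩
def n18_0 : List NX := [
  ⟨⟨3, [(0,1),(1,1),(2,1),(3,1),(4,1)], [[(0,1),(1,1),(2,1),(2,3),(3,1)]], F.fb⟩, [3,3,3,1,7],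
    [⟨2,0,[0,0,1,1,0],[3,3,3,1,7],[0,0,0,1,0],[0,0,0,0,0],[]⟩,
     ⟨2,0,[0,0,1,1,0],[11,3,3,1,7],[0,0,0,1,0],[0,0,0,0,0],[]⟩]⟩,
  ⟨⟨3, [(0,1),(1,1),(2,1),(2,3),(3,1)], [[(0,1),(1,1),(0,1),(0,3),(0,5)],[(0,1),(1,1),(1,1),(1,3),(1,5)]], F.fb⟩, [5,5,5,7,1],
    [⟨2,0,[0,2,1,0,1],[5,5,5,7,1],[0,0,0,0,1],[0,0,0,0,0],[]⟩,
     ⟨2,0,[0,2,1,0,1],[13,5,5,7,1],[0,0,0,0,1],[0,0,0,0,0],[]⟩]⟩,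
  ⟨⟨0, [(0,1),(1,1),(0,1),(0,3),(0,5)], [], F.fb⟩, [1,1,1,3,5],
    [⟨2,0,[0,2,1,0,1],[1,1,1,3,5],[0,0,1,0,1],[0,0,0,0,0],[]⟩,
     ⟨2,0,[0,2,1,0,1],[9,1,1,3,5],[0,0,1,0,1],[0,0,0,0,0],[]⟩]⟩,
  ⟨⟨1, [(0,1),(1,1),(1,1),(1,3),(1,5)], [], F.fb⟩, [1,1,1,3,5],
    [⟨2,0,[0,2,1,0,1],[1,1,1,3,5],[0,0,0,0,1],[0,0,1,0,0],[]⟩,
     ⟨2,0,[0,2,1,0,1],[9,1,1,3,5],[0,0,0,0,1],[0,0,1,0,0],[]⟩]⟩]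
def T18 : Tree := ⟨[1,1,1,3,5], n18_0, []⟩
def n19_0 : List NX := [
  ⟨⟨4, [(0,1),(1,1),(2,1),(3,1),(4,1)], [[(0,1),(0,3),(0,1),(1,1),(0,5)]], F.fb⟩, [5,7,5,7,1],
    [⟨2,0,[1,1,1,0,1],[5,7,5,7,1],[0,0,0,0,1],[0,0,0,0,0],[]⟩,
     ⟨2,0,[1,1,1,0,1],[13,7,5,7,1],[0,0,0,0,1],[0,0,0,0,0],[]⟩]⟩,
  ⟨⟨0, [(0,1),(0,3),(0,1),(1,1),(0,5)], [], F.fb⟩, [1,3,1,3,5],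
    [⟨2,0,[1,1,1,0,1],[1,3,1,3,5],[0,0,0,0,1],[0,0,1,0,0],[]⟩,
     ⟨2,0,[1,1,1,0,1],[9,3,1,3,5],[0,0,0,0,1],[0,0,1,0,0],[]⟩]⟩]
def T19 : Tree := ⟨[1,3,1,3,5], n19_0, []⟩
def n20_0 : List NX := [
  ⟨⟨3, [(0,1),(1,1),(2,1),(3,1),(4,1)], [], F.fb⟩, [3,7,3,1,7],
    [⟨2,0,[1,1,1,1,1],[3,7,3,1,7],[0,0,0,1,0],[0,0,0,0,0],[]⟩,
     ⟨2,0,[1,1,1,1,1],[11,7,3,1,7],[0,0,0,1,0],[0,0,0,0,0],[]⟩]⟩]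
def T20 : Tree := ⟨[1,5,1,3,5], n20_0, []⟩
def n21_0 : List NX := [
  ⟨⟨4, [(0,1),(1,1),(2,1),(3,1),(4,1)], [], F.fb⟩, [5,3,5,7,1],
    [⟨2,0,[1,1,0,1,1],[5,3,5,7,1],[0,0,0,0,1],[0,0,0,0,0],[]⟩,
     ⟨2,0,[1,1,0,1,1],[13,3,5,7,1],[0,0,0,0,1],[0,0,0,0,0],[]⟩]⟩]
def T21 : Tree := ⟨[1,7,1,3,5], n21_0, []⟩
def n22_0 : List NX := [
  ⟨⟨4, [(0,1),(1,1),(2,1),(3,1),(4,1)], [], F.fb⟩, [5,5,7,7,1],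
    [⟨2,0,[1,1,1,1,1],[5,5,7,7,1],[0,0,0,0,1],[0,0,0,0,0],[]⟩,
     ⟨2,0,[1,1,1,1,1],[13,5,7,7,1],[0,0,0,0,1],[0,0,0,0,0],[]⟩]⟩]
def T22 : Tree := ⟨[1,1,3,3,5], n22_0, []⟩
def n23_0 : List NX := [
  ⟨⟨4, [(0,1),(1,1),(2,1),(3,1),(4,1)], [], F.fb⟩, [5,3,7,7,1],
    [⟨2,0,[1,1,1,0,1],[5,3,7,7,1],[0,0,0,0,1],[0,0,0,0,0],[]⟩,
     ⟨2,0,[1,1,1,0,1],[13,3,7,7,1],[0,0,0,0,1],[0,0,0,0,0],[]⟩]⟩]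
def T23 : Tree := ⟨[1,7,3,3,5], n23_0, []⟩
def n24_0 : List NX := [
  ⟨⟨2, [(0,1),(1,1),(2,1),(3,1),(4,1)], [], F.fb⟩, [1,1,1,5,5],
    [⟨2,0,[1,1,1,1,1],[1,1,1,5,5],[0,0,1,0,0],[0,0,0,0,0],[]⟩,
     ⟨2,0,[1,1,1,1,1],[9,1,1,5,5],[0,0,1,0,0],[0,0,0,0,0],[]⟩]⟩]
def T24 : Tree := ⟨[1,1,1,5,5], n24_0, []⟩
def n25_0 : List NX := [
  ⟨⟨3, [(0,1),(1,1),(2,1),(3,1),(4,1)], [[(0,1),(0,3),(0,1),(0,5),(1,1)]], F.fb⟩, [5,7,5,1,1],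
    [⟨2,0,[1,1,1,1,0],[5,7,5,1,1],[0,0,0,1,0],[0,0,0,0,0],[]⟩,
     ⟨2,0,[1,1,1,1,0],[13,7,5,1,1],[0,0,0,1,0],[0,0,0,0,0],[]⟩]⟩,
  ⟨⟨0, [(0,1),(0,3),(0,1),(0,5),(1,1)], [], F.fb⟩, [1,3,1,5,5],
    [⟨2,0,[1,1,1,1,0],[1,3,1,5,5],[0,0,0,1,0],[0,0,1,0,0],[]⟩,
     ⟨2,0,[1,1,1,1,0],[9,3,1,5,5],[0,0,0,1,0],[0,0,1,0,0],[]⟩]⟩]
def T25 : Tree := ⟨[1,3,1,5,5], n25_0, []⟩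
def n26_0 : List NX := [
  ⟨⟨3, [(0,1),(1,1),(2,1),(3,1),(4,1)], [[(0,1),(1,1),(0,1),(0,5),(2,1)]], F.fb⟩, [5,3,5,1,1],
    [⟨2,0,[0,2,1,1,0],[5,3,5,1,1],[0,0,0,1,0],[0,0,0,0,0],[]⟩,
     ⟨2,0,[0,2,1,1,0],[13,3,5,1,1],[0,0,0,1,0],[0,0,0,0,0],[]⟩]⟩,
  ⟨⟨0, [(0,1),(1,1),(0,1),(0,5),(2,1)], [], F.fb⟩, [1,7,1,5,5],
    [⟨2,0,[0,2,1,1,0],[1,7,1,5,5],[0,0,1,1,0],[0,0,0,0,0],[]⟩,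
     ⟨2,0,[0,2,1,1,0],[9,7,1,5,5],[0,0,1,1,0],[0,0,0,0,0],[]⟩]⟩]
def T26 : Tree := ⟨[1,7,1,5,5], n26_0, []⟩
def n27_0 : List NX := [
  ⟨⟨3, [(0,1),(1,1),(2,1),(3,1),(4,1)], [[(0,1),(1,1),(2,1),(3,1),(3,1)]], F.fb⟩, [5,5,7,1,1],
    [⟨2,0,[0,2,0,1,1],[5,5,7,1,1],[0,0,0,1,0],[0,0,0,0,0],[]⟩,
     ⟨2,0,[0,2,0,1,1],[13,5,7,1,1],[0,0,0,1,0],[0,0,0,0,0],[]⟩]⟩,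
  ⟨⟨2, [(0,1),(1,1),(2,1),(3,1),(3,1)], [[(0,1),(1,1),(2,1),(2,7),(2,7)],[(0,1),(1,1),(2,1),(2,15),(2,15)]], F.fb⟩, [3,3,1,7,7],
    [⟨2,0,[0,0,1,1,0],[3,3,1,7,7],[0,0,1,0,0],[0,0,0,0,0],[]⟩,
     ⟨2,0,[0,0,1,1,0],[11,3,1,7,7],[0,0,1,0,0],[0,0,0,0,0],[]⟩]⟩,
  ⟨⟨2, [(0,1),(1,1),(2,1),(2,7),(2,7)], [[(0,1),(0,33),(0,3),(0,21),(0,21)],[(0,1),(0,33),(0,11),(0,77),(0,77)]], F.fb⟩, [3,3,1,7,7],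
    [⟨2,0,[1,1,1,0,0],[3,3,1,7,7],[0,0,1,0,0],[0,0,0,0,0],[]⟩,
     ⟨2,0,[1,1,1,0,0],[11,3,1,7,7],[0,0,1,0,0],[0,0,0,0,0],[]⟩]⟩,
  ⟨⟨2, [(0,1),(1,1),(2,1),(2,15),(2,15)], [[(0,1),(0,33),(0,3),(0,5),(0,5)],[(0,1),(0,33),(0,11),(0,165),(0,165)]], F.fb⟩, [3,3,1,7,7],
    [⟨2,0,[1,1,1,0,0],[3,3,1,7,7],[0,0,1,0,0],[0,0,0,0,0],[]⟩,
     ⟨2,0,[1,1,1,0,0],[11,3,1,7,7],[0,0,1,0,0],[0,0,0,0,0],[]⟩]⟩,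
  ⟨⟨0, [(0,1),(0,33),(0,3),(0,5),(0,5)], [], F.fb⟩, [1,1,3,5,5],
    [⟨2,0,[1,1,1,0,0],[1,1,3,5,5],[1,3,0,0,0],[0,0,0,0,0],[]⟩]⟩,
  ⟨⟨0, [(0,1),(0,33),(0,3),(0,21),(0,21)], [], F.fb⟩, [1,1,3,5,5],
    [⟨2,0,[1,1,1,0,0],[1,1,3,5,5],[1,3,0,0,0],[0,0,0,0,0],[]⟩]⟩,
  ⟨⟨0, [(0,1),(0,33),(0,11),(0,77),(0,77)], [], F.fb⟩, [1,1,3,5,5],
    [⟨2,0,[1,1,1,0,0],[1,1,3,5,5],[1,11,0,0,0],[0,0,0,0,0],[]⟩]⟩,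
  ⟨⟨0, [(0,1),(0,33),(0,11),(0,165),(0,165)], [], F.fb⟩, [1,1,3,5,5],
    [⟨2,0,[1,1,1,0,0],[1,1,3,5,5],[1,11,0,0,0],[0,0,0,0,0],[]⟩]⟩]
def T27 : Tree := ⟨[1,1,3,5,5], n27_0, []⟩
def n28_0 : List NX := [
  ⟨⟨0, [(0,1),(1,1),(2,1),(3,1),(4,1)], [], F.fb⟩, [1,1,5,5,5],
    [⟨2,0,[1,1,1,1,1],[1,1,5,5,5],[1,0,0,0,0],[0,0,0,0,0],[]⟩,
     ⟨2,0,[1,1,1,1,1],[9,1,5,5,5],[1,0,0,0,0],[0,0,0,0,0],[]⟩]⟩]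
def T28 : Tree := ⟨[1,1,5,5,5], n28_0, []⟩
def n29_0 : List NX := [
  ⟨⟨2, [(0,1),(1,1),(2,1),(3,1),(4,1)], [[(0,1),(1,1),(2,1),(2,1),(3,1)]], F.fb⟩, [5,7,1,1,1],
    [⟨2,0,[0,2,1,1,0],[5,7,1,1,1],[0,0,1,0,0],[0,0,0,0,0],[]⟩,
     ⟨2,0,[0,2,1,1,0],[13,7,1,1,1],[0,0,1,0,0],[0,0,0,0,0],[]⟩]⟩,
  ⟨⟨3, [(0,1),(1,1),(2,1),(2,1),(3,1)], [[(0,1),(1,1),(2,1),(2,1),(2,1)]], F.fb⟩, [5,7,1,1,1],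
    [⟨2,0,[0,2,1,0,1],[5,7,1,1,1],[0,0,0,0,1],[0,0,0,0,0],[]⟩,
     ⟨2,0,[0,2,1,0,1],[13,7,1,1,1],[0,0,0,0,1],[0,0,0,0,0],[]⟩]⟩,
  ⟨⟨1, [(0,1),(1,1),(2,1),(2,1),(2,1)], [[(0,1),(0,35),(0,5),(0,5),(0,5)],[(0,1),(0,3),(1,1),(1,1),(1,1)]], F.fb⟩, [3,1,7,7,7],
    [⟨2,0,[1,1,1,1,0],[3,1,7,7,7],[0,1,0,0,0],[0,0,0,0,0],[]⟩,
     ⟨2,0,[1,1,1,1,0],[11,1,7,7,7],[0,1,0,0,0],[0,0,0,0,0],[]⟩]⟩,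
  ⟨⟨1, [(0,1),(0,3),(1,1),(1,1),(1,1)], [[(0,1),(0,3),(0,5),(0,5),(0,5)],[(0,1),(0,3),(0,13),(0,13),(0,13)],[(0,1),(0,3),(0,21),(0,21),(0,21)]], F.fb⟩, [5,7,1,1,1],
    [⟨4,0,[1,3,1,1,2],[5,7,1,1,1],[0,0,1,1,0],[0,0,0,0,0],[]⟩,
     ⟨4,0,[1,1,1,1,2],[13,7,1,1,1],[0,0,1,1,0],[0,0,0,0,0],[]⟩]⟩,
  ⟨⟨0, [(0,1),(0,3),(0,13),(0,13),(0,13)], [], F.fb⟩, [1,3,5,5,5],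
    [⟨4,0,[1,1,1,2,1],[1,3,5,5,5],[0,0,26,0,26],[1,3,0,0,0],[]⟩]⟩,
  ⟨⟨0, [(0,1),(0,3),(0,21),(0,21),(0,21)], [], F.fb⟩, [1,3,5,5,5],
    [⟨4,0,[1,1,1,2,1],[1,3,5,5,5],[1,3,14,0,14],[0,0,0,0,0],[]⟩]⟩,
  ⟨⟨0, [(0,1),(0,35),(0,5),(0,5),(0,5)], [], F.fb⟩, [1,3,5,5,5],
    [⟨2,0,[1,1,0,1,1],[1,3,5,5,5],[0,5,0,0,0],[1,0,0,0,0],[]⟩]⟩]
def T29 : Tree := ⟨[1,3,5,5,5], n29_0, [[(0,1),(0,3),(0,5),(0,5),(0,5)]]⟩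
def n30_0 : List NX := [
  ⟨⟨4, [(0,1),(1,1),(2,1),(3,1),(4,1)], [], F.fb⟩, [7,7,7,7,1],
    [⟨2,0,[1,1,0,0,1],[7,7,7,7,1],[0,0,0,0,1],[0,0,0,0,0],[]⟩,
     ⟨2,0,[1,1,0,0,1],[15,7,7,7,1],[0,0,0,0,1],[0,0,0,0,0],[]⟩]⟩]
def T30 : Tree := ⟨[1,1,1,1,7], n30_0, []⟩
def n31_0 : List NX := [
  ⟨⟨4, [(0,1),(1,1),(2,1),(3,1),(4,1)], [[(0,1),(1,1),(2,1),(3,1),(2,7)],[(0,1),(1,1),(2,1),(3,1),(2,15)]], F.fb⟩, [7,5,7,7,1],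
    [⟨2,0,[0,0,1,0,1],[7,5,7,7,1],[0,0,0,0,1],[0,0,0,0,0],[]⟩,
     ⟨2,0,[0,0,1,0,1],[15,5,7,7,1],[0,0,0,0,1],[0,0,0,0,0],[]⟩]⟩,
  ⟨⟨2, [(0,1),(1,1),(2,1),(3,1),(2,7)], [[(0,1),(1,1),(2,1),(2,1),(2,7)],[(0,1),(1,1),(2,1),(2,105),(2,7)]], F.fb⟩, [1,3,1,1,7],
    [⟨2,0,[0,0,0,1,1],[1,3,1,1,7],[0,0,0,0,1],[0,0,0,0,0],[]⟩,
     ⟨2,0,[0,0,0,1,1],[9,3,1,1,7],[0,0,0,0,1],[0,0,0,0,0],[]⟩]⟩,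
  ⟨⟨2, [(0,1),(1,1),(2,1),(3,1),(2,15)], [[(0,1),(1,1),(2,1),(2,1),(2,15)],[(0,1),(1,1),(2,1),(2,105),(2,15)]], F.fb⟩, [1,3,1,1,7],
    [⟨2,0,[0,0,0,1,1],[1,3,1,1,7],[0,0,0,0,1],[0,0,0,0,0],[]⟩,
     ⟨2,0,[0,0,0,1,1],[9,3,1,1,7],[0,0,0,0,1],[0,0,0,0,0],[]⟩]⟩,
  ⟨⟨1, [(0,1),(1,1),(2,1),(2,1),(2,7)], [[(0,1),(0,3),(0,1),(0,1),(0,7)],[(0,1),(0,11),(0,1),(0,1),(0,7)],[(0,1),(0,3),(1,1),(1,1),(1,7)]], F.fb⟩, [3,1,3,3,5],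
    [⟨2,0,[1,1,1,1,0],[3,1,3,3,5],[0,1,0,0,0],[0,0,0,0,0],[]⟩,
     ⟨2,0,[1,1,1,1,0],[11,1,3,3,5],[0,1,0,0,0],[0,0,0,0,0],[]⟩]⟩,
  ⟨⟨1, [(0,1),(1,1),(2,1),(2,1),(2,15)], [[(0,1),(0,3),(0,1),(0,1),(0,15)],[(0,1),(0,11),(0,1),(0,1),(0,15)],[(0,1),(0,3),(1,1),(1,1),(1,15)]], F.fb⟩, [3,1,3,3,5],
    [⟨2,0,[1,1,1,1,0],[3,1,3,3,5],[0,1,0,0,0],[0,0,0,0,0],[]⟩,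
     ⟨2,0,[1,1,1,1,0],[11,1,3,3,5],[0,1,0,0,0],[0,0,0,0,0],[]⟩]⟩,
  ⟨⟨2, [(0,1),(1,1),(2,1),(2,105),(2,7)], [], F.fb⟩, [1,3,1,1,7],
    [⟨2,0,[0,2,1,1,0],[1,3,1,1,7],[0,0,1,0,0],[0,0,0,0,0],[]⟩,
     ⟨2,0,[0,2,1,1,0],[9,3,1,1,7],[0,0,1,0,0],[0,0,0,0,0],[]⟩]⟩,
  ⟨⟨2, [(0,1),(1,1),(2,1),(2,105),(2,15)], [], F.fb⟩, [1,3,1,1,7],
    [⟨2,0,[0,2,1,1,0],[1,3,1,1,7],[0,0,1,0,0],[0,0,0,0,0],[]⟩,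
     ⟨2,0,[0,2,1,1,0],[9,3,1,1,7],[0,0,1,0,0],[0,0,0,0,0],[]⟩]⟩,
  ⟨⟨1, [(0,1),(0,3),(1,1),(1,1),(1,7)], [[(0,1),(0,3),(0,1),(0,1),(0,7)]], F.fb⟩, [1,3,1,1,7],
    [⟨4,0,[1,1,1,1,2],[1,3,1,1,7],[0,0,1,1,0],[0,0,0,0,0],[]⟩,
     ⟨4,0,[1,3,1,1,2],[9,3,1,1,7],[0,0,1,1,0],[0,0,0,0,0],[]⟩]⟩,
  ⟨⟨1, [(0,1),(0,3),(1,1),(1,1),(1,15)], [[(0,1),(0,3),(0,1),(0,1),(0,15)]], F.fb⟩, [1,3,1,1,7],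
    [⟨4,0,[1,1,1,1,2],[1,3,1,1,7],[0,0,1,1,0],[0,0,0,0,0],[]⟩,
     ⟨4,0,[1,3,1,1,2],[9,3,1,1,7],[0,0,1,1,0],[0,0,0,0,0],[]⟩]⟩,
  ⟨⟨0, [(0,1),(0,11),(0,1),(0,1),(0,7)], [], F.fb⟩, [1,3,1,1,7],
    [⟨2,0,[1,1,1,1,0],[9,3,1,1,7],[0,1,0,0,0],[1,0,0,0,0],[]⟩]⟩,
  ⟨⟨0, [(0,1),(0,11),(0,1),(0,1),(0,15)], [], F.fb⟩, [1,3,1,1,7],
    [⟨2,0,[1,1,1,1,0],[9,3,1,1,7],[0,1,0,0,0],[1,0,0,0,0],[]⟩]⟩]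
def T31 : Tree := ⟨[1,3,1,1,7], n31_0, [[(0,1),(0,3),(0,1),(0,1),(0,7)],[(0,1),(0,3),(0,1),(0,1),(0,15)]]⟩
def n32_0 : List NX := [
  ⟨⟨4, [(0,1),(1,1),(2,1),(3,1),(4,1)], [], F.fb⟩, [7,3,7,7,1],
    [⟨2,0,[1,1,1,1,1],[7,3,7,7,1],[0,0,0,0,1],[0,0,0,0,0],[]⟩,
     ⟨2,0,[1,1,1,1,1],[15,3,7,7,1],[0,0,0,0,1],[0,0,0,0,0],[]⟩]⟩]
def T32 : Tree := ⟨[1,5,1,1,7], n32_0, []⟩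
def n33_0 : List NX := [
  ⟨⟨4, [(0,1),(1,1),(2,1),(3,1),(4,1)], [], F.fb⟩, [7,1,7,7,1],
    [⟨2,0,[1,1,1,0,1],[7,1,7,7,1],[0,0,0,0,1],[0,0,0,0,0],[]⟩,
     ⟨2,0,[1,1,1,0,1],[15,1,7,7,1],[0,0,0,0,1],[0,0,0,0,0],[]⟩]⟩]
def T33 : Tree := ⟨[1,7,1,1,7], n33_0, []⟩
def n34_0 : List NX := [
  ⟨⟨4, [(0,1),(1,1),(2,1),(3,1),(4,1)], [], F.fb⟩, [7,7,7,5,1],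
    [⟨2,0,[1,1,1,1,1],[7,7,7,5,1],[0,0,0,0,1],[0,0,0,0,0],[]⟩,
     ⟨2,0,[1,1,1,1,1],[15,7,7,5,1],[0,0,0,0,1],[0,0,0,0,0],[]⟩]⟩]
def T34 : Tree := ⟨[1,1,1,3,7], n34_0, []⟩
def n35_0 : List NX := [
  ⟨⟨4, [(0,1),(1,1),(2,1),(3,1),(4,1)], [], F.fb⟩, [7,3,7,5,1],
    [⟨2,0,[0,2,0,1,1],[7,3,7,5,1],[0,0,0,0,1],[0,0,0,0,0],[]⟩,
     ⟨2,0,[0,2,0,1,1],[15,3,7,5,1],[0,0,0,0,1],[0,0,0,0,0],[]⟩]⟩]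
def T35 : Tree := ⟨[1,5,1,3,7], n35_0, []⟩
def n36_0 : List NX := [
  ⟨⟨4, [(0,1),(1,1),(2,1),(3,1),(4,1)], [], F.fb⟩, [7,1,7,5,1],
    [⟨2,0,[1,1,1,0,1],[7,1,7,5,1],[0,0,0,0,1],[0,0,0,0,0],[]⟩,
     ⟨2,0,[1,1,1,0,1],[15,1,7,5,1],[0,0,0,0,1],[0,0,0,0,0],[]⟩]⟩]
def T36 : Tree := ⟨[1,7,1,3,7], n36_0, []⟩
def n37_0 : List NX := [
  ⟨⟨4, [(0,1),(1,1),(2,1),(3,1),(4,1)], [], F.fb⟩, [7,7,5,5,1],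
    [⟨2,0,[0,2,1,0,1],[7,7,5,5,1],[0,0,0,0,1],[0,0,0,0,0],[]⟩,
     ⟨2,0,[0,2,1,0,1],[15,7,5,5,1],[0,0,0,0,1],[0,0,0,0,0],[]⟩]⟩]
def T37 : Tree := ⟨[1,1,3,3,7], n37_0, []⟩
def n38_0 : List NX := [
  ⟨⟨4, [(0,1),(1,1),(2,1),(3,1),(4,1)], [], F.fb⟩, [7,3,5,5,1],
    [⟨2,0,[1,1,1,1,1],[7,3,5,5,1],[0,0,0,0,1],[0,0,0,0,0],[]⟩,
     ⟨2,0,[1,1,1,1,1],[15,3,5,5,1],[0,0,0,0,1],[0,0,0,0,0],[]⟩]⟩]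
def T38 : Tree := ⟨[1,5,3,3,7], n38_0, []⟩
def n39_0 : List NX := [
  ⟨⟨4, [(0,1),(1,1),(2,1),(3,1),(4,1)], [], F.fb⟩, [7,7,7,3,1],
    [⟨2,0,[1,1,0,0,1],[7,7,7,3,1],[0,0,0,0,1],[0,0,0,0,0],[]⟩,
     ⟨2,0,[1,1,0,0,1],[15,7,7,3,1],[0,0,0,0,1],[0,0,0,0,0],[]⟩]⟩]
def T39 : Tree := ⟨[1,1,1,5,7], n39_0, []⟩
def n40_0 : List NX := [
  ⟨⟨3, [(0,1),(1,1),(2,1),(3,1),(4,1)], [[(0,1),(0,3),(0,1),(0,5),(1,1)]], F.fb⟩, [5,7,5,1,3],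
    [⟨2,0,[1,1,1,1,0],[5,7,5,1,3],[0,0,0,1,0],[0,0,0,0,0],[]⟩,
     ⟨2,0,[1,1,1,1,0],[13,7,5,1,3],[0,0,0,1,0],[0,0,0,0,0],[]⟩]⟩,
  ⟨⟨0, [(0,1),(0,3),(0,1),(0,5),(1,1)], [], F.fb⟩, [1,3,1,5,7],
    [⟨2,0,[1,1,1,1,0],[1,3,1,5,7],[0,0,0,1,0],[0,0,1,0,0],[]⟩,
     ⟨2,0,[1,1,1,1,0],[9,3,1,5,7],[0,0,0,1,0],[0,0,1,0,0],[]⟩]⟩]
def T40 : Tree := ⟨[1,3,1,5,7], n40_0, []⟩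
def n41_0 : List NX := [
  ⟨⟨4, [(0,1),(1,1),(2,1),(3,1),(4,1)], [], F.fb⟩, [7,7,5,3,1],
    [⟨2,0,[1,1,1,1,1],[7,7,5,3,1],[0,0,0,0,1],[0,0,0,0,0],[]⟩,
     ⟨2,0,[1,1,1,1,1],[15,7,5,3,1],[0,0,0,0,1],[0,0,0,0,0],[]⟩]⟩]
def T41 : Tree := ⟨[1,1,3,5,7], n41_0, []⟩
def n42_0 : List NX := [
  ⟨⟨4, [(0,1),(1,1),(2,1),(3,1),(4,1)], [], F.fb⟩, [7,7,3,3,1],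
    [⟨2,0,[1,1,0,0,1],[7,7,3,3,1],[0,0,0,0,1],[0,0,0,0,0],[]⟩,
     ⟨2,0,[1,1,0,0,1],[15,7,3,3,1],[0,0,0,0,1],[0,0,0,0,0],[]⟩]⟩]
def T42 : Tree := ⟨[1,1,5,5,7], n42_0, []⟩
def n43_0 : List NX := [
  ⟨⟨2, [(0,1),(1,1),(2,1),(3,1),(4,1)], [[(0,1),(1,1),(2,1),(2,1),(3,1)]], F.fb⟩, [5,7,1,1,3],
    [⟨2,0,[0,2,1,1,0],[5,7,1,1,3],[0,0,1,0,0],[0,0,0,0,0],[]⟩,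
     ⟨2,0,[0,2,1,1,0],[13,7,1,1,3],[0,0,1,0,0],[0,0,0,0,0],[]⟩]⟩,
  ⟨⟨3, [(0,1),(1,1),(2,1),(2,1),(3,1)], [[(0,1),(1,1),(2,1),(2,1),(2,3)]], F.fb⟩, [7,5,3,3,1],
    [⟨2,0,[0,0,1,0,1],[7,5,3,3,1],[0,0,0,0,1],[0,0,0,0,0],[]⟩,
     ⟨2,0,[0,0,1,0,1],[15,5,3,3,1],[0,0,0,0,1],[0,0,0,0,0],[]⟩]⟩,
  ⟨⟨1, [(0,1),(1,1),(2,1),(2,1),(2,3)], [[(0,1),(0,35),(0,5),(0,5),(0,15)],[(0,1),(0,3),(1,1),(1,1),(1,3)]], F.fb⟩, [3,1,7,7,5],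
    [⟨2,0,[1,1,1,1,0],[3,1,7,7,5],[0,1,0,0,0],[0,0,0,0,0],[]⟩,
     ⟨2,0,[1,1,1,1,0],[11,1,7,7,5],[0,1,0,0,0],[0,0,0,0,0],[]⟩]⟩,
  ⟨⟨1, [(0,1),(0,3),(1,1),(1,1),(1,3)], [[(0,1),(0,3),(0,5),(0,5),(0,15)]], F.fb⟩, [5,7,1,1,3],
    [⟨4,0,[1,3,1,1,2],[5,7,1,1,3],[0,0,1,1,0],[0,0,0,0,0],[]⟩,
     ⟨4,0,[1,1,1,1,2],[13,7,1,1,3],[0,0,1,1,0],[0,0,0,0,0],[]⟩]⟩,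
  ⟨⟨0, [(0,1),(0,3),(0,5),(0,5),(0,15)], [], F.fb⟩, [1,3,5,5,7],
    [⟨4,0,[1,1,1,1,2],[1,3,5,5,7],[1,3,10,10,0],[0,0,0,0,0],[]⟩]⟩,
  ⟨⟨0, [(0,1),(0,35),(0,5),(0,5),(0,15)], [], F.fb⟩, [1,3,5,5,7],
    [⟨2,0,[1,1,1,1,0],[1,3,5,5,7],[0,5,0,0,0],[1,0,0,0,0],[]⟩]⟩]
def T43 : Tree := ⟨[1,3,5,5,7], n43_0, []⟩
def n44_0 : List NX := [
  ⟨⟨3, [(0,1),(1,1),(2,1),(3,1),(4,1)], [], F.fb⟩, [7,7,7,1,1],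
    [⟨2,0,[1,1,0,1,0],[7,7,7,1,1],[0,0,0,1,0],[0,0,0,0,0],[]⟩,
     ⟨2,0,[1,1,0,1,0],[15,7,7,1,1],[0,0,0,1,0],[0,0,0,0,0],[]⟩]⟩]
def T44 : Tree := ⟨[1,1,1,7,7], n44_0, []⟩
def n45_0 : List NX := [
  ⟨⟨3, [(0,1),(1,1),(2,1),(3,1),(4,1)], [[(0,1),(1,1),(2,1),(3,1),(3,1)]], F.fb⟩, [7,5,7,1,1],
    [⟨2,0,[0,2,0,1,1],[7,5,7,1,1],[0,0,0,1,0],[0,0,0,0,0],[]⟩,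
     ⟨2,0,[0,2,0,1,1],[15,5,7,1,1],[0,0,0,1,0],[0,0,0,0,0],[]⟩]⟩,
  ⟨⟨2, [(0,1),(1,1),(2,1),(3,1),(3,1)], [[(0,1),(1,1),(2,1),(2,7),(2,7)],[(0,1),(1,1),(2,1),(2,15),(2,15)]], F.fb⟩, [1,3,1,7,7],
    [⟨2,0,[0,0,1,1,0],[1,3,1,7,7],[0,0,1,0,0],[0,0,0,0,0],[]⟩,
     ⟨2,0,[0,0,1,1,0],[9,3,1,7,7],[0,0,1,0,0],[0,0,0,0,0],[]⟩]⟩,
  ⟨⟨1, [(0,1),(1,1),(2,1),(2,7),(2,7)], [[(0,1),(0,35),(0,1),(0,7),(0,7)],[(0,1),(0,3),(1,1),(1,7),(1,7)]], F.fb⟩, [3,1,3,5,5],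
    [⟨2,0,[1,1,0,1,1],[3,1,3,5,5],[0,1,0,0,0],[0,0,0,0,0],[]⟩,
     ⟨2,0,[1,1,0,1,1],[11,1,3,5,5],[0,1,0,0,0],[0,0,0,0,0],[]⟩]⟩,
  ⟨⟨1, [(0,1),(1,1),(2,1),(2,15),(2,15)], [[(0,1),(0,35),(0,105),(0,7),(0,7)],[(0,1),(0,3),(1,1),(1,15),(1,15)]], F.fb⟩, [3,1,3,5,5],
    [⟨2,0,[1,1,0,1,1],[3,1,3,5,5],[0,1,0,0,0],[0,0,0,0,0],[]⟩,
     ⟨2,0,[1,1,0,1,1],[11,1,3,5,5],[0,1,0,0,0],[0,0,0,0,0],[]⟩]⟩,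
  ⟨⟨1, [(0,1),(0,3),(1,1),(1,7),(1,7)], [[(0,1),(0,3),(0,1),(0,7),(0,7)]], F.fb⟩, [1,3,1,7,7],
    [⟨4,0,[1,3,2,1,1],[1,3,1,7,7],[0,0,1,0,0],[0,0,0,0,0],[]⟩,
     ⟨4,0,[1,1,2,1,1],[9,3,1,7,7],[0,0,1,0,0],[0,0,0,0,0],[]⟩]⟩,
  ⟨⟨1, [(0,1),(0,3),(1,1),(1,15),(1,15)], [], F.fb⟩, [1,3,1,7,7],
    [⟨4,0,[1,3,2,1,1],[1,3,1,7,7],[0,0,1,0,0],[0,0,0,0,0],[]⟩,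
     ⟨4,0,[1,1,2,1,1],[9,3,1,7,7],[0,0,1,0,0],[0,0,0,0,0],[]⟩]⟩,
  ⟨⟨0, [(0,1),(0,3),(0,1),(0,7),(0,7)], [], F.fb⟩, [1,3,1,7,7],
    [⟨4,0,[1,3,2,1,1],[1,3,1,7,7],[0,0,0,2,2],[1,1,0,0,0],[]⟩]⟩,
  ⟨⟨0, [(0,1),(0,35),(0,1),(0,7),(0,7)], [], F.fb⟩, [1,3,1,7,7],
    [⟨2,0,[1,1,0,1,1],[1,3,1,7,7],[1,7,0,0,0],[0,0,0,0,0],[]⟩]⟩,
  ⟨⟨0, [(0,1),(0,35),(0,105),(0,7),(0,7)], [], F.fb⟩, [1,3,1,7,7],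
    [⟨2,0,[1,1,0,1,1],[1,3,1,7,7],[1,7,0,0,0],[0,0,0,0,0],[]⟩]⟩]
def T45 : Tree := ⟨[1,3,1,7,7], n45_0, []⟩
def n46_0 : List NX := [
  ⟨⟨3, [(0,1),(1,1),(2,1),(3,1),(4,1)], [[(0,1),(1,1),(2,1),(2,7),(3,1)],[(0,1),(1,1),(2,1),(2,15),(3,1)]], F.fb⟩, [7,3,7,1,1],
    [⟨2,0,[0,0,1,1,0],[7,3,7,1,1],[0,0,0,1,0],[0,0,0,0,0],[]⟩,
     ⟨2,0,[0,0,1,1,0],[15,3,7,1,1],[0,0,0,1,0],[0,0,0,0,0],[]⟩]⟩,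
  ⟨⟨3, [(0,1),(1,1),(2,1),(2,7),(3,1)], [[(0,1),(1,1),(2,1),(2,7),(2,7)],[(0,1),(1,1),(2,1),(2,7),(2,15)]], F.fb⟩, [7,3,7,1,1],
    [⟨2,0,[0,0,1,0,1],[7,3,7,1,1],[0,0,0,0,1],[0,0,0,0,0],[]⟩,
     ⟨2,0,[0,0,1,0,1],[15,3,7,1,1],[0,0,0,0,1],[0,0,0,0,0],[]⟩]⟩,
  ⟨⟨3, [(0,1),(1,1),(2,1),(2,15),(3,1)], [[(0,1),(1,1),(2,1),(2,15),(2,7)],[(0,1),(1,1),(2,1),(2,15),(2,15)]], F.fb⟩, [7,3,7,1,1],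
    [⟨2,0,[0,0,1,0,1],[7,3,7,1,1],[0,0,0,0,1],[0,0,0,0,0],[]⟩,
     ⟨2,0,[0,0,1,0,1],[15,3,7,1,1],[0,0,0,0,1],[0,0,0,0,0],[]⟩]⟩,
  ⟨⟨2, [(0,1),(1,1),(2,1),(2,7),(2,7)], [[(0,1),(0,5),(0,1),(0,7),(0,7)],[(0,1),(0,13),(0,1),(0,7),(0,7)],[(0,1),(0,21),(0,1),(0,7),(0,7)]], F.fb⟩, [1,5,1,7,7],
    [⟨2,0,[1,1,1,0,0],[1,5,1,7,7],[0,0,1,0,0],[0,0,0,0,0],[]⟩,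
     ⟨2,0,[1,1,1,0,0],[9,5,1,7,7],[0,0,1,0,0],[0,0,0,0,0],[]⟩]⟩,
  ⟨⟨2, [(0,1),(1,1),(2,1),(2,7),(2,15)], [], F.fb⟩, [1,5,1,7,7],
    [⟨2,0,[0,2,0,1,1],[1,5,1,7,7],[0,0,0,1,0],[0,0,0,0,0],[]⟩,
     ⟨2,0,[0,2,0,1,1],[9,5,1,7,7],[0,0,0,1,0],[0,0,0,0,0],[]⟩]⟩,
  ⟨⟨2, [(0,1),(1,1),(2,1),(2,15),(2,7)], [], F.fb⟩, [1,5,1,7,7],
    [⟨2,0,[0,2,0,1,1],[1,5,1,7,7],[0,0,0,1,0],[0,0,0,0,0],[]⟩,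
     ⟨2,0,[0,2,0,1,1],[9,5,1,7,7],[0,0,0,1,0],[0,0,0,0,0],[]⟩]⟩,
  ⟨⟨2, [(0,1),(1,1),(2,1),(2,15),(2,15)], [[(0,1),(0,5),(0,1),(0,15),(0,15)],[(0,1),(0,13),(0,1),(0,15),(0,15)],[(0,1),(0,21),(0,1),(0,15),(0,15)]], F.fb⟩, [1,5,1,7,7],
    [⟨2,0,[1,1,1,0,0],[1,5,1,7,7],[0,0,1,0,0],[0,0,0,0,0],[]⟩,
     ⟨2,0,[1,1,1,0,0],[9,5,1,7,7],[0,0,1,0,0],[0,0,0,0,0],[]⟩]⟩,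
  ⟨⟨0, [(0,1),(0,5),(0,1),(0,7),(0,7)], [], F.fb⟩, [1,5,1,7,7],
    [⟨4,0,[2,2,1,1,2],[1,5,1,7,7],[1,0,0,0,0],[0,0,0,0,0],[]⟩]⟩,
  ⟨⟨0, [(0,1),(0,5),(0,1),(0,15),(0,15)], [], F.fb⟩, [1,5,1,7,7],
    [⟨4,0,[2,2,1,1,2],[1,5,1,7,7],[0,5,0,0,0],[1,0,0,0,0],[]⟩]⟩,
  ⟨⟨0, [(0,1),(0,13),(0,1),(0,7),(0,7)], [], F.fb⟩, [1,5,1,7,7],
    [⟨2,0,[1,1,1,0,0],[9,5,1,7,7],[0,1,0,0,0],[1,0,0,0,0],[]⟩]⟩,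
  ⟨⟨0, [(0,1),(0,13),(0,1),(0,15),(0,15)], [], F.fb⟩, [1,5,1,7,7],
    [⟨2,0,[1,1,1,0,0],[9,5,1,7,7],[0,1,0,0,0],[1,0,0,0,0],[]⟩]⟩,
  ⟨⟨0, [(0,1),(0,21),(0,1),(0,7),(0,7)], [], F.fb⟩, [1,5,1,7,7],
    [⟨2,0,[1,1,1,0,0],[1,5,1,7,7],[1,3,0,0,0],[0,0,0,0,0],[]⟩]⟩,
  ⟨⟨0, [(0,1),(0,21),(0,1),(0,15),(0,15)], [], F.fb⟩, [1,5,1,7,7],
    [⟨2,0,[1,1,1,0,0],[1,5,1,7,7],[1,3,0,0,0],[0,0,0,0,0],[]⟩]⟩]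
def T46 : Tree := ⟨[1,5,1,7,7], n46_0, []⟩
def n47_0 : List NX := [
  ⟨⟨3, [(0,1),(1,1),(2,1),(3,1),(4,1)], [], F.fb⟩, [7,7,5,1,1],
    [⟨2,0,[0,2,1,1,0],[7,7,5,1,1],[0,0,0,1,0],[0,0,0,0,0],[]⟩,
     ⟨2,0,[0,2,1,1,0],[15,7,5,1,1],[0,0,0,1,0],[0,0,0,0,0],[]⟩]⟩]
def T47 : Tree := ⟨[1,1,3,7,7], n47_0, []⟩
def n48_0 : List NX := [
  ⟨⟨2, [(0,1),(1,1),(2,1),(3,1),(4,1)], [], F.fb⟩, [5,5,1,3,3],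
    [⟨2,0,[1,1,1,1,1],[5,5,1,3,3],[0,0,1,0,0],[0,0,0,0,0],[]⟩,
     ⟨2,0,[1,1,1,1,1],[13,5,1,3,3],[0,0,1,0,0],[0,0,0,0,0],[]⟩]⟩]
def T48 : Tree := ⟨[1,1,5,7,7], n48_0, []⟩
def n49_0 : List NX := [
  ⟨⟨2, [(0,1),(1,1),(2,1),(3,1),(4,1)], [], F.fb⟩, [7,7,1,1,1],
    [⟨2,0,[1,1,1,0,0],[7,7,1,1,1],[0,0,1,0,0],[0,0,0,0,0],[]⟩,
     ⟨2,0,[1,1,1,0,0],[15,7,1,1,1],[0,0,1,0,0],[0,0,0,0,0],[]⟩]⟩]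
def T49 : Tree := ⟨[1,1,7,7,7], n49_0, []⟩
def trees : List Tree := [T0, T1, T2, T3, T4, T5, T6, T7, T8, T9, T10, T11, T12, T13, T14, T15, T16, T17, T18, T19, T20, T21, T22, T23, T24, T25, T26, T27, T28, T29, T30, T31, T32, T33, T34, T35, T36, T37, T38, T39, T40, T41, T42, T43, T44, T45, T46, T47, T48, T49]
def cands : List (List Nat × Nat) := [([1,3,1,1,1], 1), ([1,3,1,1,3], 1), ([1,3,1,1,3], 3), ([1,3,1,1,7], 1), ([1,3,1,1,15], 1), ([1,3,1,1,15], 3), ([1,3,5,5,5], 1), ([1,3,5,5,5], 5), ([1,5,1,1,1], 1), ([1,5,1,1,5], 1), ([1,5,1,1,5], 5), ([1,5,1,3,3], 1), ([1,5,1,3,3], 3), ([1,7,1,1,1], 1), ([1,15,1,1,1], 1), ([1,15,3,3,3], 3)]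
def cert : List (Nat × Nat) := [(0,0),(1,6),(2,6),(3,6),(1,0),(11,0),(13,6),(12,6),(2,0),(13,0),(28,0),(29,6),(3,0),(12,0),(29,0),(49,0),(4,3),(5,9),(6,9),(7,9),(5,3),(8,0),(10,6),(9,6),(6,3),(10,0),(42,3),(43,9),(7,3),(9,0),(43,3),(48,0),(14,3),(15,9),(16,9),(17,9),(15,3),(37,3),(26,0),(38,9),(16,3),(26,6),(24,0),(25,6),(17,3),(38,3),(25,0),(47,0),(30,3),(31,9),(32,9),(33,9),(31,3),(22,3),(23,9),(46,0),(32,3),(23,3),(27,0),(45,0),(33,3),(46,6),(45,6),(44,0),(4,1),(5,7),(6,7),(7,7),(5,1),(8,2),(10,8),(9,8),(6,1),(10,2),(42,1),(43,7),(7,1),(9,2),(43,1),(48,2),(8,4),(5,0),(9,10),(10,10),(5,6),(4,0),(7,6),(6,6),(9,4),(7,0),(48,4),(43,0),(10,4),(6,0),(43,6),(42,0),(18,5),(19,11),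(20,11),(21,11),(19,5),(34,3),(36,9),(35,9),(20,5),(36,3),(39,1),(40,7),(21,5),(35,3),(40,1),(41,0),(34,5),(19,3),(35,11),(36,11),(19,9),(18,3),(21,9),(20,9),(35,5),(21,3),(41,1),(40,0),(36,5),(20,3),(40,6),(39,0),(14,1),(15,7),(16,7),(17,7),(15,1),(37,1),(26,2),(38,7),(16,1),(26,8),(24,2),(25,8),(17,1),(38,1),(25,2),(47,2),(18,4),(19,10),(20,10),(21,10),(19,4),(34,1),(36,7),(35,7),(20,4),(36,1),(39,3),(40,9),(21,4),(35,1),(40,3),(41,2),(24,4),(25,10),(16,0),(26,10),(25,4),(47,4),(17,0),(38,0),(16,6),(17,6),(14,0),(15,6),(26,4),(38,6),(15,0),(37,0),(39,5),(40,11),(20,2),(36,0),(40,5),(41,4),(21,2),(35,0),(20,8),(21,8),(18,2),(19,8),(36,6),(35,6),(19,2),(34,0),(30,1),(31,7),(32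,7),(33,7),(31,1),(22,1),(23,7),(46,2),(32,1),(23,1),(27,2),(45,2),(33,1),(46,8),(45,8),(44,2),(34,4),(19,1),(35,10),(36,10),(19,7),(18,1),(21,7),(20,7),(35,4),(21,1),(41,3),(40,2),(36,4),(20,1),(40,8),(39,2),(39,4),(40,10),(20,0),(36,2),(40,4),(41,5),(21,0),(35,2),(20,6),(21,6),(18,0),(19,6),(36,8),(35,8),(19,0),(34,2),(44,4),(45,10),(46,10),(33,0),(45,4),(27,4),(23,0),(32,0),(46,4),(23,6),(22,0),(31,0),(33,6),(32,6),(31,6),(30,0),(4,0),(5,6),(6,6),(7,6),(5,0),(8,4),(10,10),(9,10),(6,0),(10,4),(42,0),(43,6),(7,0),(9,4),(43,0),(48,4),(8,2),(5,1),(9,8),(10,8),(5,7),(4,1),(7,7),(6,7),(9,2),(7,1),(48,2),(43,1),(10,2),(6,1),(43,7),(42,1),(18,3),(19,9),(20,9),(21,9),(19,3),(34,5),(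36,11),(35,11),(20,3),(36,5),(39,0),(40,6),(21,3),(35,5),(40,0),(41,1),(34,3),(19,5),(35,9),(36,9),(19,11),(18,5),(21,11),(20,11),(35,3),(21,5),(41,0),(40,1),(36,3),(20,5),(40,7),(39,1),(8,0),(5,3),(9,6),(10,6),(5,9),(4,3),(7,9),(6,9),(9,0),(7,3),(48,0),(43,3),(10,0),(6,3),(43,9),(42,3),(11,0),(1,0),(12,6),(13,6),(1,6),(0,0),(3,6),(2,6),(12,0),(3,0),(49,0),(29,0),(13,0),(2,0),(29,6),(28,0),(22,3),(31,3),(46,0),(23,9),(31,9),(30,3),(33,9),(32,9),(46,6),(33,3),(44,0),(45,6),(23,3),(32,3),(45,0),(27,0),(37,3),(15,3),(38,9),(26,0),(15,9),(14,3),(17,9),(16,9),(38,3),(17,3),(47,0),(25,0),(26,6),(16,3),(25,6),(24,0),(18,1),(19,7),(20,7),(21,7),(19,1),(34,4),(36,10),(35,10),(20,1),(36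,4),(39,2),(40,8),(21,1),(35,4),(40,2),(41,3),(22,1),(31,1),(46,2),(23,7),(31,7),(30,1),(33,7),(32,7),(46,8),(33,1),(44,2),(45,8),(23,1),(32,1),(45,2),(27,2),(27,4),(45,4),(32,0),(23,0),(45,10),(44,4),(33,0),(46,10),(32,6),(33,6),(30,0),(31,6),(23,6),(46,4),(31,0),(22,0),(41,5),(40,4),(35,2),(21,0),(40,10),(39,4),(36,2),(20,0),(35,8),(36,8),(34,2),(19,0),(21,6),(20,6),(19,6),(18,0),(34,1),(19,4),(35,7),(36,7),(19,10),(18,4),(21,10),(20,10),(35,1),(21,4),(41,2),(40,3),(36,1),(20,4),(40,9),(39,3),(37,1),(15,1),(38,7),(26,2),(15,7),(14,1),(17,7),(16,7),(38,1),(17,1),(47,2),(25,2),(26,8),(16,1),(25,8),(24,2),(41,4),(40,5),(35,0),(21,2),(40,11),(39,5),(36,0),(20,2),(35,6),(36,6),(3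4,0),(19,2),(21,8),(20,8),(19,8),(18,2),(47,4),(25,4),(38,0),(17,0),(25,10),(24,4),(26,10),(16,0),(38,6),(26,4),(37,0),(15,0),(17,6),(16,6),(15,6),(14,0),(14,0),(15,6),(16,6),(17,6),(15,0),(37,0),(26,4),(38,6),(16,0),(26,10),(24,4),(25,10),(17,0),(38,0),(25,4),(47,4),(18,2),(19,8),(20,8),(21,8),(19,2),(34,0),(36,6),(35,6),(20,2),(36,0),(39,5),(40,11),(21,2),(35,0),(40,5),(41,4),(24,2),(25,8),(16,1),(26,8),(25,2),(47,2),(17,1),(38,1),(16,7),(17,7),(14,1),(15,7),(26,2),(38,7),(15,1),(37,1),(39,3),(40,9),(20,4),(36,1),(40,3),(41,2),(21,4),(35,1),(20,10),(21,10),(18,4),(19,10),(36,7),(35,7),(19,4),(34,1),(18,0),(19,6),(20,6),(21,6),(19,0),(34,2),(36,8),(35,8),(20,0),(36,2),(39,4),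(40,10),(21,0),(35,2),(40,4),(41,5),(22,0),(31,0),(46,4),(23,6),(31,6),(30,0),(33,6),(32,6),(46,10),(33,0),(44,4),(45,10),(23,0),(32,0),(45,4),(27,4),(27,2),(45,2),(32,1),(23,1),(45,8),(44,2),(33,1),(46,8),(32,7),(33,7),(30,1),(31,7),(23,7),(46,2),(31,1),(22,1),(41,3),(40,2),(35,4),(21,1),(40,8),(39,2),(36,4),(20,1),(35,10),(36,10),(34,4),(19,1),(21,7),(20,7),(19,7),(18,1),(24,0),(25,6),(16,3),(26,6),(25,0),(47,0),(17,3),(38,3),(16,9),(17,9),(14,3),(15,9),(26,0),(38,9),(15,3),(37,3),(27,0),(45,0),(32,3),(23,3),(45,6),(44,0),(33,3),(46,6),(32,9),(33,9),(30,3),(31,9),(23,9),(46,0),(31,3),(22,3),(28,0),(29,6),(2,0),(13,0),(29,0),(49,0),(3,0),(12,0),(2,6),(3,6),(0,0),(1,6),(13,6),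(12,6),(1,0),(11,0),(42,3),(43,9),(6,3),(10,0),(43,3),(48,0),(7,3),(9,0),(6,9),(7,9),(4,3),(5,9),(10,6),(9,6),(5,3),(8,0),(39,1),(40,7),(20,5),(36,3),(40,1),(41,0),(21,5),(35,3),(20,11),(21,11),(18,5),(19,11),(36,9),(35,9),(19,5),(34,3),(41,1),(40,0),(35,5),(21,3),(40,6),(39,0),(36,5),(20,3),(35,11),(36,11),(34,5),(19,3),(21,9),(20,9),(19,9),(18,3),(42,1),(43,7),(6,1),(10,2),(43,1),(48,2),(7,1),(9,2),(6,7),(7,7),(4,1),(5,7),(10,8),(9,8),(5,1),(8,2),(48,4),(43,0),(9,4),(7,0),(43,6),(42,0),(10,4),(6,0),(9,10),(10,10),(8,4),(5,0),(7,6),(6,6),(5,6),(4,0),(30,0),(31,6),(32,6),(33,6),(31,0),(22,0),(23,6),(46,4),(32,0),(23,0),(27,4),(45,4),(33,0),(46,10),(45,10),(44,4),(34,2),(19,0),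(35,8),(36,8),(19,6),(18,0),(21,6),(20,6),(35,2),(21,0),(41,5),(40,4),(36,2),(20,0),(40,10),(39,4),(39,2),(40,8),(20,1),(36,4),(40,2),(41,3),(21,1),(35,4),(20,7),(21,7),(18,1),(19,7),(36,10),(35,10),(19,1),(34,4),(44,2),(45,8),(46,8),(33,1),(45,2),(27,2),(23,1),(32,1),(46,2),(23,7),(22,1),(31,1),(33,7),(32,7),(31,7),(30,1),(34,0),(19,2),(35,6),(36,6),(19,8),(18,2),(21,8),(20,8),(35,0),(21,2),(41,4),(40,5),(36,0),(20,2),(40,11),(39,5),(37,0),(15,0),(38,6),(26,4),(15,6),(14,0),(17,6),(16,6),(38,0),(17,0),(47,4),(25,4),(26,10),(16,0),(25,10),(24,4),(41,2),(40,3),(35,1),(21,4),(40,9),(39,3),(36,1),(20,4),(35,7),(36,7),(34,1),(19,4),(21,10),(20,10),(19,10),(18,4),(47,2),(25,2),(38,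1),(17,1),(25,8),(24,2),(26,8),(16,1),(38,7),(26,2),(37,1),(15,1),(17,7),(16,7),(15,7),(14,1),(39,0),(40,6),(20,3),(36,5),(40,0),(41,1),(21,3),(35,5),(20,9),(21,9),(18,3),(19,9),(36,11),(35,11),(19,3),(34,5),(41,0),(40,1),(35,3),(21,5),(40,7),(39,1),(36,3),(20,5),(35,9),(36,9),(34,3),(19,5),(21,11),(20,11),(19,11),(18,5),(42,0),(43,6),(6,0),(10,4),(43,0),(48,4),(7,0),(9,4),(6,6),(7,6),(4,0),(5,6),(10,10),(9,10),(5,0),(8,4),(48,2),(43,1),(9,2),(7,1),(43,7),(42,1),(10,2),(6,1),(9,8),(10,8),(8,2),(5,1),(7,7),(6,7),(5,7),(4,1),(44,0),(45,6),(46,6),(33,3),(45,0),(27,0),(23,3),(32,3),(46,0),(23,9),(22,3),(31,3),(33,9),(32,9),(31,9),(30,3),(47,0),(25,0),(38,3),(17,3),(25,6),(24,0),(26,6),(16,3),(38,9),(26,0),(37,3),(15,3),(17,9),(16,9),(15,9),(14,3),(48,0),(43,3),(9,0),(7,3),(43,9),(42,3),(10,0),(6,3),(9,6),(10,6),(8,0),(5,3),(7,9),(6,9),(5,9),(4,3),(49,0),(29,0),(12,0),(3,0),(29,6),(28,0),(13,0),(2,0),(12,6),(13,6),(11,0),(1,0),(3,6),(2,6),(1,6),(0,0)]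

end RH6.Q5
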