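import Pool.Agent.RH6.T7
import Pool.Agent.RH6.DQ5
import Pool.Agent.RH6.LQ5
import Pool.Agent.RH6.KDat
import Pool.Agent.RH6.BAll

set_option maxRecDepth 100000

namespace RH6.Q5

def bs : List (List ℕ) := [[1, 1, 0, 0, 0], [0, 2, 0, 0, 0], [0, 0, 1, 0, 0], [0, 0, 0, 1, 0], [0, 0, 0, 0, 1]]

def bi : List (List ℤ) := [[2, -1, 0, 0, 0], [0, 1, 0, 0, 0], [0, 0, 2, 0, 0], [0, 0, 0, 2, 0], [0, 0, 0, 0, 2]]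

theorem basis_ok : basisB X.F.As X.F.code bs bi = true := by decide +kernel

def tab : List (List LfC) := [
  [LfC.good 23 [[1, 0, 0, 0, 0, 0, 0], [0, 1, 0, 0, 0, 0, 0], [0, 0, 1, 0, 0, 0, 0], [0, 0, 2, -1, 0, 0, 0], [0, 0, 0, 0, 1, 0, 0], [0, 0, 0, 0, 0, 1, 0], [0, 0, 0, 0, 0, 0, 1]] [[1, 0, 0, 0, 0, 0, 0], [0, 1, 0, 0, 0, 0, 0], [0, 0, 1, 0, 0, 0, 0], [0, 0, 2, -1, 0, 0, 0], [0, 0, 0, 0, 1, 0, 0], [0, 0, 0, 0, 0, 1, 0], [0, 0, 0, 0, 0, 0, 1]],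
    LfC.good 22 [[1, 0, 0, 0, 0, 0, 0], [0, 1, 0, 0, 0, 0, 0], [0, 0, 1, 0, 0, 0, 0], [0, 0, 2, -1, 0, 0, 0], [0, 0, 0, 0, 1, 0, 0], [0, 0, 0, 0, 0, 1, 0], [0, 0, 0, 0, 0, 0, 1]] [[1, 0, 0, 0, 0, 0, 0], [0, 1, 0, 0, 0, 0, 0], [0, 0, 1, 0, 0, 0, 0], [0, 0, 2, -1, 0, 0, 0], [0, 0, 0, 0, 1, 0, 0], [0, 0, 0, 0, 0, 1, 0], [0, 0, 0, 0, 0, 0, 1]]],
  [LfC.good 5 [[1, 0, 0, 0, 0, 0, 0], [0, 1, 0, 0, 0, 0, 0], [0, 0, 1, 0, 0, 0, 0], [0, 0, 2, -1, 0, 0, 0], [0, 0, 0, 0, 1, 0, 0], [0, 0, 0, 0, 0, 1, 0], [0, 0, 0, 0, 0, 0, 1]] [[1, 0, 0, 0, 0, 0, 0], [0, 1, 0, 0, 0, 0, 0], [0, 0, 1, 0, 0, 0, 0], [0, 0, 2, -1, 0, 0, 0], [0, 0, 0, 0, 1, 0, 0], [0, 0, 0, 0, 0, 1, 0], [0, 0, 0, 0, 0, 0, 1]],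
    LfC.good 4 [[1, 0, 0, 0, 0, 0, 0], [0, 1, 0, 0, 0, 0, 0], [0, 0, 1, 0, 0, 0, 0], [0, 0, 2, -1, 0, 0, 0], [0, 0, 0, 0, 1, 0, 0], [0, 0, 0, 0, 0, 1, 0], [0, 0, 0, 0, 0, 0, 1]] [[1, 0, 0, 0, 0, 0, 0], [0, 1, 0, 0, 0, 0, 0], [0, 0, 1, 0, 0, 0, 0], [0, 0, 2, -1, 0, 0, 0], [0, 0, 0, 0, 1, 0, 0], [0, 0, 0, 0, 0, 1, 0], [0, 0, 0, 0, 0, 0, 1]]],
  [LfC.good 12 [[1, 0, 0, 0, 0, 0, 0], [0, 1, 0, 0, 0, 0, 0], [0, 0, 0, 1, 0, 0, 0], [0, 0, -1, 1, 0, 0, 0], [0, 0, 0, 0, 0, 1, 0], [0, 0, 0, 0, 0, 0, 1], [0, 0, 0, 0, 1, 0, 0]] [[1, 0, 0, 0, 0, 0, 0], [0, 1, 0, 0, 0, 0, 0], [0, 0, 1, -1, 0, 0, 0], [0, 0, 1, 0, 0, 0, 0], [0, 0, 0, 0, 0, 0, 1], [0, 0, 0, 0, 1, 0, 0], [0, 0, 0, 0, 0, 1, 0]],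
    LfC.good 11 [[1, 0, 0, 0, 0, 0, 0], [0, 1, 0, 0, 0, 0, 0], [0, 0, 0, 1, 0, 0, 0], [0, 0, -1, 1, 0, 0, 0], [0, 0, 0, 0, 0, 1, 0], [0, 0, 0, 0, 0, 0, 1], [0, 0, 0, 0, 1, 0, 0]] [[1, 0, 0, 0, 0, 0, 0], [0, 1, 0, 0, 0, 0, 0], [0, 0, 1, -1, 0, 0, 0], [0, 0, 1, 0, 0, 0, 0], [0, 0, 0, 0, 0, 0, 1], [0, 0, 0, 0, 1, 0, 0], [0, 0, 0, 0, 0, 1, 0]]],
  [LfC.bad 7,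
    LfC.bad 8],
  [LfC.good 37 [[1, 0, 0, 0, 0, 0, 0], [0, 1, 0, 0, 0, 0, 0], [0, 0, 1, 0, 0, 0, 0], [0, 0, 2, -1, 0, 0, 0], [0, 0, 0, 0, 1, 0, 0], [0, 0, 0, 0, 0, 1, 0], [0, 0, 0, 0, 0, 0, 1]] [[1, 0, 0, 0, 0, 0, 0], [0, 1, 0, 0, 0, 0, 0], [0, 0, 1, 0, 0, 0, 0], [0, 0, 2, -1, 0, 0, 0], [0, 0, 0, 0, 1, 0, 0], [0, 0, 0, 0, 0, 1, 0], [0, 0, 0, 0, 0, 0, 1]],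
    LfC.bad 9],
  [LfC.good 38 [[1, 0, 0, 0, 0, 0, 0], [0, 1, 0, 0, 0, 0, 0], [0, 0, 0, 1, 0, 0, 0], [0, 0, -1, 1, 0, 0, 0], [0, 0, 0, 0, 1, 0, 0], [0, 0, 0, 0, 0, 1, 0], [0, 0, 0, 0, 0, 0, 1]] [[1, 0, 0, 0, 0, 0, 0], [0, 1, 0, 0, 0, 0, 0], [0, 0, 1, -1, 0, 0, 0], [0, 0, 1, 0, 0, 0, 0], [0, 0, 0, 0, 1, 0, 0], [0, 0, 0, 0, 0, 1, 0], [0, 0, 0, 0, 0, 0, 1]],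
    LfC.bad 10],
  [LfC.bad 11,
    LfC.bad 12],
  [LfC.bad 13,
    LfC.bad 14],
  [LfC.good 34 [[1, 0, 0, 0, 0, 0, 0], [0, 1, 0, 0, 0, 0, 0], [0, 0, 0, -1, 0, 0, 0], [0, 0, 1, -2, 0, 0, 0], [0, 0, 0, 0, 1, 0, 0], [0, 0, 0, 0, 0, 1, 0], [0, 0, 0, 0, 0, 0, 1]] [[1, 0, 0, 0, 0, 0, 0], [0, 1, 0, 0, 0, 0, 0], [0, 0, -2, 1, 0, 0, 0], [0, 0, -1, 0, 0, 0, 0], [0, 0, 0, 0, 1, 0, 0], [0, 0, 0, 0, 0, 1, 0], [0, 0, 0, 0, 0, 0, 1]],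
    LfC.bad 15],
  [LfC.good 27 [[1, 0, 0, 0, 0, 0, 0], [0, 1, 0, 0, 0, 0, 0], [0, 0, 0, -1, 0, 0, 0], [0, 0, 1, -2, 0, 0, 0], [0, 0, 0, 0, 1, 0, 0], [0, 0, 0, 0, 0, 1, 0], [0, 0, 0, 0, 0, 0, 1]] [[1, 0, 0, 0, 0, 0, 0], [0, 1, 0, 0, 0, 0, 0], [0, 0, -2, 1, 0, 0, 0], [0, 0, -1, 0, 0, 0, 0], [0, 0, 0, 0, 1, 0, 0], [0, 0, 0, 0, 0, 1, 0], [0, 0, 0, 0, 0, 0, 1]],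
    LfC.bad 16],
  [LfC.good 42 [[1, 0, 0, 0, 0, 0, 0], [0, 1, 0, 0, 0, 0, 0], [0, 0, 1, -1, 0, 0, 0], [0, 0, 1, 0, 0, 0, 0], [0, 0, 0, 0, 0, 1, 0], [0, 0, 0, 0, 0, 0, 1], [0, 0, 0, 0, 1, 0, 0]] [[1, 0, 0, 0, 0, 0, 0], [0, 1, 0, 0, 0, 0, 0], [0, 0, 0, 1, 0, 0, 0], [0, 0, -1, 1, 0, 0, 0], [0, 0, 0, 0, 0, 0, 1], [0, 0, 0, 0, 1, 0, 0], [0, 0, 0, 0, 0, 1, 0]],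
    LfC.bad 17],
  [LfC.good 37 [[3, -3, 1, 0, 0, 1, 1], [-9, 9, -4, 1, 0, -1, -3], [-3, 2, 0, 0, 0, 0, -1], [-5, 5, 0, 0, 0, 0, -2], [0, 0, 0, 0, -1, 0, 0], [-3, 3, -1, -1, 0, 0, -1], [-12, 12, -5, 1, 0, -3, -4]] [[9, -3, -1, 1, 0, 1, 4], [-9, 3, -1, 0, 0, -1, -4], [-7, 2, 0, 0, 0, -1, -3], [-2, 1, 0, 0, 0, -1, -1], [0, 0, 0, 0, -1, 0, 0], [-1, 1, 0, 0, 0, 0, -1], [-45, 15, 0, -3, 0, -5, -20]],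
    LfC.bad 18],
  [LfC.good 38 [[4, -7, -2, 2, 0, 1, 3], [-63, 112, 32, -28, 0, -16, -48], [-39, 72, 20, -19, 0, -11, -30], [-30, 60, 15, -15, 0, -10, -24], [0, 0, 0, 0, -1, 0, 0], [9, -16, -4, 4, 0, 2, 7], [-3, 4, 1, -1, 0, -1, -2]] [[112, -7, 28, -12, 0, -16, 4], [-63, 4, -16, 7, 0, 9, -3], [36, -2, 9, -4, 0, -4, 1], [-24, 2, -7, 3, 0, 4, -1], [0, 0, 0, 0, -1, 0, 0], [-48, 3, -12, 5, 0, 6, -3], [-240, 15, -60, 26, 0, 35, -10]],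
    LfC.bad 19],
  [LfC.good 36 [[2, -2, 0, 0, 0, 1, 1], [-2, 2, -1, 0, 0, 0, -1], [3, -4, 0, 0, 0, 0, 2], [7, -7, 0, 0, 0, 0, 4], [0, 0, 0, 0, -1, 0, 0], [0, 0, 0, -1, 0, 0, 0], [-2, 2, -1, 0, 0, -1, -1]] [[2, -2, -1, 0, 0, 0, 2], [-2, 2, -1, 1, 0, 0, -2], [-1, 0, 0, 0, 0, 0, -1], [0, 0, 0, 0, 0, -1, 0], [0, 0, 0, 0, -1, 0, 0], [0, 1, 0, 0, 0, 0, -1], [-7, 7, 0, 2, 0, 0, -7]],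
    LfC.good 43 [[3, -3, 0, 0, 2, 2, 2], [-31, 32, 0, 0, -16, -18, -22], [-19, 19, 0, 0, -11, -12, -13], [-35, 35, 0, 0, -21, -21, -24], [-1, 2, 0, 0, -1, -1, -1], [0, 0, 0, -1, 0, 0, 0], [0, 0, -1, 0, 0, 0, 0]] [[32, -3, 6, 2, 4, 0, 0], [-31, 3, -6, -2, -2, 0, 0], [0, 0, 0, 0, 0, 0, -1], [0, 0, 0, 0, 0, -1, 0], [-8, 1, -1, -1, -1, 0, 0], [-9, 1, -3, 0, -1, 0, 0], [-77, 7, -14, -5, -7, 0, 0]]],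
  [LfC.good 24 [[2, -2, 0, 0, 0, 1, 1], [-6, 4, -1, 0, 0, -3, -2], [5, -6, 0, 0, 0, 4, 2], [15, -15, 0, 0, 0, 10, 6], [0, 0, 0, 0, -1, 0, 0], [0, 0, 0, -1, 0, 0, 0], [-2, 2, -1, 0, 0, -1, -1]] [[4, -2, 3, -2, 0, 0, 2], [-6, 2, -5, 3, 0, 0, -2], [-1, 0, 0, 0, 0, 0, -1], [0, 0, 0, 0, 0, -1, 0], [0, 0, 0, 0, -1, 0, 0], [-9, 3, -6, 4, 0, 0, -3], [-10, 5, -10, 6, 0, 0, -5]],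
    LfC.good 41 [[3, -3, 0, 0, 2, 2, 2], [-63, 64, 0, 0, -34, -42, -44], [-38, 38, 0, 0, -23, -25, -26], [-75, 75, 0, 0, -45, -50, -51], [-1, 2, 0, 0, -1, -1, -1], [0, 0, 0, -1, 0, 0, 0], [0, 0, -1, 0, 0, 0, 0]] [[64, -3, 2, 4, 4, 0, 0], [-63, 3, -2, -4, -2, 0, 0], [0, 0, 0, 0, 0, 0, -1], [0, 0, 0, 0, 0, -1, 0], [-17, 1, -1, -1, -1, 0, 0], [-63, 3, 0, -5, -3, 0, 0], [-110, 5, -5, -6, -5, 0, 0]]],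
  [LfC.good 39 [[2, -4, 0, 0, 0, 1, 1], [-2, 4, -1, 0, 0, 0, -1], [-1, -2, 0, 0, 0, 0, 0], [-5, 5, 0, 0, 0, 0, -2], [0, 0, 0, 0, -1, 0, 0], [0, 0, 0, -1, 0, 0, 0], [-2, 4, -1, 0, 0, -1, -1]] [[4, -4, -3, 2, 0, 0, 4], [-2, 2, 1, -1, 0, 0, -2], [-1, 0, 0, 0, 0, 0, -1], [0, 0, 0, 0, 0, -1, 0], [0, 0, 0, 0, -1, 0, 0], [0, 1, 0, 0, 0, 0, -1], [-15, 15, 10, -8, 0, 0, -15]],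
    LfC.bad 20]]

theorem tab_ok : famB Js BD.bads X.F.As bs cands [1, 2] tab = true := by decide +kernel

theorem cand_ok : candB trees cands = true := by decide +kernel

end RH6.Q5
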