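import Pool.Agent.RH6.DQ8

set_option maxRecDepth 100000

namespace RH6.Q8

theorem h_n11_0 : n11_0.all (nodeHeavy F) = true := by decide +kernel
theorem h_n12_0 : n12_0.all (nodeHeavy F) = true := by decide +kernel
theorem h_n13_0 : n13_0.all (nodeHeavy F) = true := by decide +kernel

end RH6.Q8
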