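import Pool.Agent.RH6.DQ8

set_option maxRecDepth 100000

namespace RH6.Q8

theorem h_n14_0 : n14_0.all (nodeHeavy F) = true := by decide +kernel
theorem h_n15_0 : n15_0.all (nodeHeavy F) = true := by decide +kernel
theorem h_n16_0 : n16_0.all (nodeHeavy F) = true := by decide +kernel
theorem h_n17_0 : n17_0.all (nodeHeavy F) = true := by decide +kernel
theorem h_n18_0 : n18_0.all (nodeHeavy F) = true := by decide +kernel
theorem h_n19_0 : n19_0.all (nodeHeavy F) = true := by decide +kernel
theorem h_n20_0 : n20_0.all (nodeHeavy F) = true := by decide +kernel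
theorem h_n21_0 : n21_0.all (nodeHeavy F) = true := by decide +kernel
theorem h_n22_0 : n22_0.all (nodeHeavy F) = true := by decide +kernel
theorem h_n23_0 : n23_0.all (nodeHeavy F) = true := by decide +kernel
theorem h_n24_0 : n24_0.all (nodeHeavy F) = true := by decide +kernel
theorem h_n25_0 : n25_0.all (nodeHeavy F) = true := by decide +kernel
theorem h_n26_0 : n26_0.all (nodeHeavy F) = true := by decide +kernel

end RH6.Q8
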