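import Pool.Agent.RH6.DQ8

set_option maxRecDepth 100000

namespace RH6.Q8

theorem h_n27_0 : n27_0.all (nodeHeavy F) = true := by decide +kernel
theorem h_n28_0 : n28_0.all (nodeHeavy F) = true := by decide +kernel
theorem h_n29_0 : n29_0.all (nodeHeavy F) = true := by decide +kernel
theorem h_n30_0 : n30_0.all (nodeHeavy F) = true := by decide +kernel
theorem h_n31_0 : n31_0.all (nodeHeavy F) = true := by decide +kernel
theorem h_n32_0 : n32_0.all (nodeHeavy F) = true := by decide +kernel

end RH6.Q8
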