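import Pool.Agent.RH6.DQ8

set_option maxRecDepth 100000

namespace RH6.Q8

theorem h_n33_0 : n33_0.all (nodeHeavy F) = true := by decide +kernel
theorem h_n34_0 : n34_0.all (nodeHeavy F) = true := by decide +kernel
theorem h_n35_0 : n35_0.all (nodeHeavy F) = true := by decide +kernel
theorem h_n36_0 : n36_0.all (nodeHeavy F) = true := by decide +kernel
theorem h_n37_0 : n37_0.all (nodeHeavy F) = true := by decide +kernel
theorem h_n38_0 : n38_0.all (nodeHeavy F) = true := by decide +kernel
theorem h_n39_0 : n39_0.all (nodeHeavy F) = true := by decide +kernel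
theorem h_n40_0 : n40_0.all (nodeHeavy F) = true := by decide +kernel

end RH6.Q8
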