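import Pool.Agent.RH6.DQ8

set_option maxRecDepth 100000

namespace RH6.Q8

theorem h_n41_0 : n41_0.all (nodeHeavy F) = true := by decide +kernel
theorem h_n42_0 : n42_0.all (nodeHeavy F) = true := by decide +kernel
theorem h_n43_0 : n43_0.all (nodeHeavy F) = true := by decide +kernel
theorem h_n44_0 : n44_0.all (nodeHeavy F) = true := by decide +kernel
theorem h_n45_0 : n45_0.all (nodeHeavy F) = true := by decide +kernel
theorem h_n46_0 : n46_0.all (nodeHeavy F) = true := by decide +kernel
theorem h_n47_0 : n47_0.all (nodeHeavy F) = true := by decide +kernel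
theorem h_n48_0 : n48_0.all (nodeHeavy F) = true := by decide +kernel
theorem h_n49_0 : n49_0.all (nodeHeavy F) = true := by decide +kernel
theorem h_n50_0 : n50_0.all (nodeHeavy F) = true := by decide +kernel

end RH6.Q8
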