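import Pool.Agent.RH6.Tree

namespace RH6.Q8

def F : Fam := ⟨[1,1,1,1,2], 2416545801, false, false, [(0,1),(2,3)]⟩
def X : FX := ⟨F, AQ8, HQ8, Kd.kQ, [], false,
  [[0,1], [2,3]],
  [],
  [[1,1,0,0,0], [0,0,1,1,0], [1,1,1,1,0], [0,0,0,0,1], [1,1,0,0,1], [0,0,1,1,1], [1,1,1,1,1], [2,0,0,0,0], [0,2,0,0,0], [0,0,2,0,0], [0,0,0,2,0], [0,0,0,0,2]]⟩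
def perms : List (List Nat) := [[0,1,2,3,4],
  [0,1,3,2,4],
  [1,0,2,3,4],
  [1,0,3,2,4],
  [2,3,0,1,4],
  [2,3,1,0,4],
  [3,2,0,1,4],
  [3,2,1,0,4]]
def n0_0 : List NX := [
  ⟨⟨4, [(0,1),(1,1),(2,1),(3,1),(4,1)], [], F.fb⟩, [1,1,1,1,1],
    [⟨2,0,[1,1,0,2,1],[1,1,1,1,1],[0,0,0,0,1],[0,0,0,0,0],[]⟩,
     ⟨2,0,[1,1,0,2,1],[9,1,1,1,1],[0,0,0,0,1],[0,0,0,0,0],[]⟩,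
     ⟨2,0,[1,1,0,2,1],[1,1,9,1,1],[0,0,0,0,1],[0,0,0,0,0],[]⟩,
     ⟨2,0,[1,1,0,2,1],[9,1,9,1,1],[0,0,0,0,1],[0,0,0,0,0],[]⟩]⟩]
def T0 : Tree := ⟨[1,1,1,1,1], n0_0, []⟩
def n1_0 : List NX := [
  ⟨⟨4, [(0,1),(1,1),(2,1),(3,1),(4,1)], [], F.fb⟩, [1,1,1,3,1],
    [⟨2,0,[1,1,0,2,1],[1,1,1,3,1],[0,0,0,0,1],[0,0,0,0,0],[]⟩,
     ⟨2,0,[1,1,0,2,1],[9,1,1,3,1],[0,0,0,0,1],[0,0,0,0,0],[]⟩,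
     ⟨2,0,[1,1,0,2,1],[1,1,9,3,1],[0,0,0,0,1],[0,0,0,0,0],[]⟩,
     ⟨2,0,[1,1,0,2,1],[9,1,9,3,1],[0,0,0,0,1],[0,0,0,0,0],[]⟩]⟩]
def T1 : Tree := ⟨[1,1,1,3,1], n1_0, []⟩
def n2_0 : List NX := [
  ⟨⟨1, [(0,1),(1,1),(2,1),(3,1),(4,1)], [[(0,1),(0,3),(0,1),(1,1),(2,1)],[(0,1),(0,3),(1,1),(0,3),(2,1)],[(0,1),(0,3),(1,1),(2,1),(3,1)]], F.fb⟩, [3,1,3,1,3],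
    [⟨2,1,[1,1,0,2,0],[3,1,3,1,3],[0,1,0,0,0],[0,0,0,0,0],[]⟩,
     ⟨2,1,[1,1,0,2,0],[11,1,3,1,3],[0,1,0,0,0],[0,0,0,0,0],[]⟩,
     ⟨2,1,[1,1,0,2,0],[3,1,11,1,3],[0,1,0,0,0],[0,0,0,0,0],[]⟩,
     ⟨2,1,[1,1,0,2,0],[11,1,11,1,3],[0,1,0,0,0],[0,0,0,0,0],[]⟩]⟩,
  ⟨⟨2, [(0,1),(0,3),(1,1),(2,1),(3,1)], [[(0,1),(0,3),(0,1),(0,3),(1,1)],[(0,1),(0,3),(1,1),(1,3),(2,1)]], F.fb⟩, [3,1,3,1,3],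
    [⟨2,1,[0,2,1,1,0],[3,1,3,1,3],[0,0,0,1,0],[0,0,0,0,0],[]⟩,
     ⟨2,1,[0,2,1,1,0],[11,1,3,1,3],[0,0,0,1,0],[0,0,0,0,0],[]⟩,
     ⟨2,1,[0,2,1,1,0],[3,1,11,1,3],[0,0,0,1,0],[0,0,0,0,0],[]⟩,
     ⟨2,1,[0,2,1,1,0],[11,1,11,1,3],[0,0,0,1,0],[0,0,0,0,0],[]⟩]⟩,
  ⟨⟨1, [(0,1),(0,3),(0,1),(1,1),(2,1)], [[(0,1),(0,3),(0,1),(0,3),(1,1)]], F.fb⟩, [3,1,3,1,3],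
    [⟨2,1,[0,2,1,1,0],[3,1,3,1,3],[0,0,0,1,0],[0,0,0,0,0],[]⟩,
     ⟨2,1,[0,2,1,1,0],[11,1,3,1,3],[0,0,0,1,0],[0,0,0,0,0],[]⟩,
     ⟨2,1,[0,2,1,1,0],[3,1,11,1,3],[0,0,0,1,0],[0,0,0,0,0],[]⟩,
     ⟨2,1,[0,2,1,1,0],[11,1,11,1,3],[0,0,0,1,0],[0,0,0,0,0],[]⟩]⟩,
  ⟨⟨1, [(0,1),(0,3),(1,1),(0,3),(2,1)], [[(0,1),(0,3),(0,1),(0,3),(1,1)]], F.fb⟩, [1,3,1,3,1],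
    [⟨2,0,[0,2,1,1,0],[1,3,1,3,1],[0,0,1,0,0],[0,0,0,0,0],[]⟩,
     ⟨2,0,[0,2,1,1,0],[9,3,1,3,1],[0,0,1,0,0],[0,0,0,0,0],[]⟩,
     ⟨2,0,[0,2,1,1,0],[1,3,9,3,1],[0,0,1,0,0],[0,0,0,0,0],[]⟩,
     ⟨2,0,[0,2,1,1,0],[9,3,9,3,1],[0,0,1,0,0],[0,0,0,0,0],[]⟩]⟩,
  ⟨⟨2, [(0,1),(0,3),(1,1),(1,3),(2,1)], [[(0,1),(0,3),(0,1),(0,3),(0,1)]], F.fb⟩, [1,3,1,3,1],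
    [⟨4,0,[2,0,1,1,2],[1,3,1,3,1],[0,0,0,0,1],[0,0,0,0,0],[]⟩,
     ⟨4,0,[2,0,1,1,2],[9,3,1,3,1],[0,0,0,0,1],[0,0,0,0,0],[]⟩,
     ⟨4,0,[2,0,3,1,2],[1,3,9,3,1],[0,0,0,0,1],[0,0,0,0,0],[]⟩,
     ⟨4,0,[2,0,3,1,2],[9,3,9,3,1],[0,0,0,0,1],[0,0,0,0,0],[]⟩]⟩,
  ⟨⟨1, [(0,1),(0,3),(0,1),(0,3),(1,1)], [[(0,1),(0,3),(0,1),(0,3),(0,1)]], F.fb⟩, [1,3,1,3,1],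
    [⟨4,0,[1,1,2,0,2],[1,3,1,3,1],[0,0,0,0,1],[0,0,0,0,0],[]⟩,
     ⟨4,0,[1,3,2,0,2],[9,3,1,3,1],[0,0,0,0,1],[0,0,0,0,0],[]⟩,
     ⟨4,0,[1,1,2,0,2],[1,3,9,3,1],[0,0,0,0,1],[0,0,0,0,0],[]⟩,
     ⟨4,0,[1,3,2,0,2],[9,3,9,3,1],[0,0,0,0,1],[0,0,0,0,0],[]⟩]⟩]
def T2 : Tree := ⟨[1,3,1,3,1], n2_0, [[(0,1),(0,3),(0,1),(0,3),(0,1)]]⟩
def n3_0 : List NX := [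
  ⟨⟨4, [(0,1),(1,1),(2,1),(3,1),(4,1)], [], F.fb⟩, [1,1,3,3,1],
    [⟨2,0,[1,1,0,2,1],[1,1,3,3,1],[0,0,0,0,1],[0,0,0,0,0],[]⟩,
     ⟨2,0,[1,1,0,2,1],[9,1,3,3,1],[0,0,0,0,1],[0,0,0,0,0],[]⟩,
     ⟨2,0,[1,1,0,2,1],[1,1,11,3,1],[0,0,0,0,1],[0,0,0,0,0],[]⟩,
     ⟨2,0,[1,1,0,2,1],[9,1,11,3,1],[0,0,0,0,1],[0,0,0,0,0],[]⟩]⟩]
def T3 : Tree := ⟨[1,1,3,3,1], n3_0, []⟩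
def n4_0 : List NX := [
  ⟨⟨3, [(0,1),(1,1),(2,1),(3,1),(4,1)], [], F.fb⟩, [5,5,5,1,5],
    [⟨2,0,[1,1,1,1,0],[5,5,5,1,5],[0,0,0,1,0],[0,0,0,0,0],[]⟩,
     ⟨2,0,[1,1,1,1,0],[13,5,5,1,5],[0,0,0,1,0],[0,0,0,0,0],[]⟩,
     ⟨2,0,[1,1,1,1,0],[5,5,13,1,5],[0,0,0,1,0],[0,0,0,0,0],[]⟩,
     ⟨2,0,[1,1,1,1,0],[13,5,13,1,5],[0,0,0,1,0],[0,0,0,0,0],[]⟩]⟩]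
def T4 : Tree := ⟨[1,1,1,5,1], n4_0, []⟩
def n5_0 : List NX := [
  ⟨⟨1, [(0,1),(1,1),(2,1),(3,1),(4,1)], [[(0,1),(0,3),(0,1),(1,1),(2,1)],[(0,1),(0,3),(1,1),(2,1),(3,1)]], F.fb⟩, [3,1,3,7,3],
    [⟨2,1,[1,1,0,2,0],[3,1,3,7,3],[0,1,0,0,0],[0,0,0,0,0],[]⟩,
     ⟨2,1,[1,1,0,2,0],[11,1,3,7,3],[0,1,0,0,0],[0,0,0,0,0],[]⟩,
     ⟨2,1,[1,1,0,2,0],[3,1,11,7,3],[0,1,0,0,0],[0,0,0,0,0],[]⟩,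
     ⟨2,1,[1,1,0,2,0],[11,1,11,7,3],[0,1,0,0,0],[0,0,0,0,0],[]⟩]⟩,
  ⟨⟨3, [(0,1),(0,3),(1,1),(2,1),(3,1)], [[(0,1),(0,3),(1,1),(1,5),(1,1)],[(0,1),(0,3),(1,1),(1,13),(1,1)],[(0,1),(0,3),(1,1),(1,21),(1,1)]], F.fb⟩, [1,3,1,5,1],
    [⟨2,0,[0,0,1,1,1],[1,3,1,5,1],[0,0,0,0,1],[0,0,0,0,0],[]⟩,
     ⟨2,0,[0,0,1,1,1],[9,3,1,5,1],[0,0,0,0,1],[0,0,0,0,0],[]⟩,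
     ⟨2,0,[0,0,1,1,1],[1,3,9,5,1],[0,0,0,0,1],[0,0,0,0,0],[]⟩,
     ⟨2,0,[0,0,1,1,1],[9,3,9,5,1],[0,0,0,0,1],[0,0,0,0,0],[]⟩]⟩,
  ⟨⟨2, [(0,1),(0,3),(0,1),(1,1),(2,1)], [[(0,1),(0,3),(0,1),(0,5),(0,1)],[(0,1),(0,3),(0,1),(0,13),(0,1)],[(0,1),(0,3),(0,1),(0,21),(0,1)]], F.fb⟩, [1,3,1,5,1],
    [⟨2,0,[0,0,1,1,1],[1,3,1,5,1],[0,0,0,0,1],[0,0,0,0,0],[]⟩,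
     ⟨2,0,[0,0,1,1,1],[9,3,1,5,1],[0,0,0,0,1],[0,0,0,0,0],[]⟩,
     ⟨2,0,[0,0,1,1,1],[1,3,9,5,1],[0,0,0,0,1],[0,0,0,0,0],[]⟩,
     ⟨2,0,[0,0,1,1,1],[9,3,9,5,1],[0,0,0,0,1],[0,0,0,0,0],[]⟩]⟩,
  ⟨⟨1, [(0,1),(0,3),(1,1),(1,5),(1,1)], [[(0,1),(0,3),(0,1),(0,5),(0,1)]], F.fb⟩, [1,3,1,5,1],
    [⟨4,0,[1,1,0,2,2],[1,3,1,5,1],[0,0,0,1,0],[0,0,0,0,0],[]⟩,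
     ⟨4,0,[1,3,0,2,2],[9,3,1,5,1],[0,0,0,1,0],[0,0,0,0,0],[]⟩,
     ⟨4,0,[1,1,0,2,2],[1,3,9,5,1],[0,0,0,1,0],[0,0,0,0,0],[]⟩,
     ⟨4,0,[1,3,0,2,2],[9,3,9,5,1],[0,0,0,1,0],[0,0,0,0,0],[]⟩]⟩,
  ⟨⟨1, [(0,1),(0,3),(1,1),(1,13),(1,1)], [], F.fb⟩, [1,3,1,5,1],
    [⟨2,0,[0,0,1,1,1],[1,3,1,5,1],[0,0,0,1,0],[0,0,1,0,0],[]⟩,
     ⟨2,0,[0,0,1,1,1],[9,3,1,5,1],[0,0,0,1,0],[0,0,1,0,0],[]⟩,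
     ⟨2,0,[0,0,1,1,1],[1,3,9,5,1],[0,0,0,1,0],[0,0,1,0,0],[]⟩,
     ⟨2,0,[0,0,1,1,1],[9,3,9,5,1],[0,0,0,1,0],[0,0,1,0,0],[]⟩]⟩,
  ⟨⟨1, [(0,1),(0,3),(1,1),(1,21),(1,1)], [], F.fb⟩, [1,3,1,5,1],
    [⟨2,0,[0,0,1,1,1],[1,3,1,5,1],[0,0,1,3,0],[0,0,0,0,0],[]⟩,
     ⟨2,0,[0,0,1,1,1],[9,3,1,5,1],[0,0,1,3,0],[0,0,0,0,0],[]⟩,
     ⟨2,0,[0,0,1,1,1],[1,3,9,5,1],[0,0,1,3,0],[0,0,0,0,0],[]⟩,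
     ⟨2,0,[0,0,1,1,1],[9,3,9,5,1],[0,0,1,3,0],[0,0,0,0,0],[]⟩]⟩,
  ⟨⟨0, [(0,1),(0,3),(0,1),(0,13),(0,1)], [], F.fb⟩, [1,3,1,5,1],
    [⟨2,0,[0,0,1,1,1],[1,3,9,5,1],[0,0,0,1,0],[0,0,1,0,0],[]⟩]⟩,
  ⟨⟨0, [(0,1),(0,3),(0,1),(0,21),(0,1)], [], F.fb⟩, [1,3,1,5,1],
    [⟨2,0,[0,0,1,1,1],[1,3,1,5,1],[0,0,1,3,0],[0,0,0,0,0],[]⟩]⟩]
def T5 : Tree := ⟨[1,3,1,5,1], n5_0, [[(0,1),(0,3),(0,1),(0,5),(0,1)]]⟩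
def n6_0 : List NX := [
  ⟨⟨4, [(0,1),(1,1),(2,1),(3,1),(4,1)], [[(0,1),(0,5),(1,1),(2,1),(0,1)],[(0,1),(0,13),(1,1),(2,1),(0,1)],[(0,1),(0,21),(1,1),(2,1),(0,1)]], F.fb⟩, [1,5,1,5,1],
    [⟨2,0,[1,1,0,0,1],[1,5,1,5,1],[0,0,0,0,1],[0,0,0,0,0],[]⟩,
     ⟨2,0,[1,1,0,0,1],[9,5,1,5,1],[0,0,0,0,1],[0,0,0,0,0],[]⟩,
     ⟨2,0,[1,1,0,0,1],[1,5,9,5,1],[0,0,0,0,1],[0,0,0,0,0],[]⟩,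
     ⟨2,0,[1,1,0,0,1],[9,5,9,5,1],[0,0,0,0,1],[0,0,0,0,0],[]⟩]⟩,
  ⟨⟨0, [(0,1),(0,5),(1,1),(2,1),(0,1)], [[(0,1),(0,5),(0,1),(0,5),(0,1)],[(0,1),(0,5),(0,1),(0,13),(0,1)],[(0,1),(0,5),(0,1),(0,21),(0,1)]], F.fb⟩, [1,5,1,5,1],
    [⟨2,0,[0,0,1,1,1],[1,5,1,5,1],[0,0,0,0,1],[0,0,0,0,0],[]⟩,
     ⟨2,0,[0,0,1,1,1],[9,5,1,5,1],[0,0,0,0,1],[0,0,0,0,0],[]⟩,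
     ⟨2,0,[0,0,1,1,1],[1,5,9,5,1],[0,0,0,0,1],[0,0,0,0,0],[]⟩,
     ⟨2,0,[0,0,1,1,1],[9,5,9,5,1],[0,0,0,0,1],[0,0,0,0,0],[]⟩]⟩,
  ⟨⟨0, [(0,1),(0,13),(1,1),(2,1),(0,1)], [], F.fb⟩, [1,5,1,5,1],
    [⟨2,0,[1,1,0,0,1],[1,5,1,5,1],[0,1,0,0,0],[1,0,0,0,0],[]⟩,
     ⟨2,0,[1,1,0,0,1],[9,5,1,5,1],[0,1,0,0,0],[1,0,0,0,0],[]⟩,
     ⟨2,0,[1,1,0,0,1],[1,5,9,5,1],[0,1,0,0,0],[1,0,0,0,0],[]⟩,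
     ⟨2,0,[1,1,0,0,1],[9,5,9,5,1],[0,1,0,0,0],[1,0,0,0,0],[]⟩]⟩,
  ⟨⟨0, [(0,1),(0,21),(1,1),(2,1),(0,1)], [], F.fb⟩, [1,5,1,5,1],
    [⟨2,0,[1,1,0,0,1],[1,5,1,5,1],[1,3,0,0,0],[0,0,0,0,0],[]⟩,
     ⟨2,0,[1,1,0,0,1],[9,5,1,5,1],[1,3,0,0,0],[0,0,0,0,0],[]⟩,
     ⟨2,0,[1,1,0,0,1],[1,5,9,5,1],[1,3,0,0,0],[0,0,0,0,0],[]⟩,
     ⟨2,0,[1,1,0,0,1],[9,5,9,5,1],[1,3,0,0,0],[0,0,0,0,0],[]⟩]⟩,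
  ⟨⟨0, [(0,1),(0,5),(0,1),(0,13),(0,1)], [], F.fb⟩, [1,5,1,5,1],
    [⟨2,0,[0,0,1,1,1],[1,5,9,5,1],[0,0,0,1,0],[0,0,1,0,0],[]⟩]⟩,
  ⟨⟨0, [(0,1),(0,5),(0,1),(0,21),(0,1)], [], F.fb⟩, [1,5,1,5,1],
    [⟨2,0,[0,0,1,1,1],[1,5,1,5,1],[0,0,1,3,0],[0,0,0,0,0],[]⟩]⟩]
def T6 : Tree := ⟨[1,5,1,5,1], n6_0, [[(0,1),(0,5),(0,1),(0,5),(0,1)]]⟩
def n7_0 : List NX := [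
  ⟨⟨4, [(0,1),(1,1),(2,1),(3,1),(4,1)], [], F.fb⟩, [1,1,3,5,1],
    [⟨2,0,[1,1,0,2,1],[1,1,3,5,1],[0,0,0,0,1],[0,0,0,0,0],[]⟩,
     ⟨2,0,[1,1,0,2,1],[9,1,3,5,1],[0,0,0,0,1],[0,0,0,0,0],[]⟩,
     ⟨2,0,[1,1,0,2,1],[1,1,11,5,1],[0,0,0,0,1],[0,0,0,0,0],[]⟩,
     ⟨2,0,[1,1,0,2,1],[9,1,11,5,1],[0,0,0,0,1],[0,0,0,0,0],[]⟩]⟩]
def T7 : Tree := ⟨[1,1,3,5,1], n7_0, []⟩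
def n8_0 : List NX := [
  ⟨⟨3, [(0,1),(1,1),(2,1),(3,1),(4,1)], [[(0,1),(0,15),(0,3),(0,21),(1,1)],[(0,1),(0,15),(0,35),(0,5),(1,1)]], F.fb⟩, [5,3,7,1,5],
    [⟨2,0,[1,1,1,1,0],[5,3,7,1,5],[0,0,0,1,0],[0,0,0,0,0],[]⟩,
     ⟨2,0,[1,1,1,1,0],[13,3,7,1,5],[0,0,0,1,0],[0,0,0,0,0],[]⟩,
     ⟨2,0,[1,1,1,1,0],[5,3,15,1,5],[0,0,0,1,0],[0,0,0,0,0],[]⟩,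
     ⟨2,0,[1,1,1,1,0],[13,3,15,1,5],[0,0,0,1,0],[0,0,0,0,0],[]⟩]⟩,
  ⟨⟨0, [(0,1),(0,15),(0,3),(0,21),(1,1)], [], F.fb⟩, [1,7,3,5,1],
    [⟨2,0,[1,1,1,1,0],[1,7,3,5,1],[1,0,0,0,0],[0,0,0,0,0],[]⟩,
     ⟨2,0,[1,1,1,1,0],[9,7,3,5,1],[1,0,0,0,0],[0,0,0,0,0],[]⟩,
     ⟨2,0,[1,1,1,1,0],[1,7,11,5,1],[1,0,0,0,0],[0,0,0,0,0],[]⟩,
     ⟨2,0,[1,1,1,1,0],[9,7,11,5,1],[1,0,0,0,0],[0,0,0,0,0],[]⟩]⟩,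
  ⟨⟨0, [(0,1),(0,15),(0,35),(0,5),(1,1)], [], F.fb⟩, [1,7,3,5,1],
    [⟨2,0,[1,1,1,1,0],[1,7,3,5,1],[1,0,0,0,0],[0,0,0,0,0],[]⟩,
     ⟨2,0,[1,1,1,1,0],[9,7,3,5,1],[1,0,0,0,0],[0,0,0,0,0],[]⟩,
     ⟨2,0,[1,1,1,1,0],[1,7,11,5,1],[1,0,0,0,0],[0,0,0,0,0],[]⟩,
     ⟨2,0,[1,1,1,1,0],[9,7,11,5,1],[1,0,0,0,0],[0,0,0,0,0],[]⟩]⟩]
def T8 : Tree := ⟨[1,7,3,5,1], n8_0, []⟩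
def n9_0 : List NX := [
  ⟨⟨4, [(0,1),(1,1),(2,1),(3,1),(4,1)], [], F.fb⟩, [1,1,5,5,1],
    [⟨2,0,[1,1,0,2,1],[1,1,5,5,1],[0,0,0,0,1],[0,0,0,0,0],[]⟩,
     ⟨2,0,[1,1,0,2,1],[9,1,5,5,1],[0,0,0,0,1],[0,0,0,0,0],[]⟩,
     ⟨2,0,[1,1,0,2,1],[1,1,13,5,1],[0,0,0,0,1],[0,0,0,0,0],[]⟩,
     ⟨2,0,[1,1,0,2,1],[9,1,13,5,1],[0,0,0,0,1],[0,0,0,0,0],[]⟩]⟩]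
def T9 : Tree := ⟨[1,1,5,5,1], n9_0, []⟩
def n10_0 : List NX := [
  ⟨⟨4, [(0,1),(1,1),(2,1),(3,1),(4,1)], [], F.fb⟩, [1,1,1,7,1],
    [⟨2,0,[1,1,0,2,1],[1,1,1,7,1],[0,0,0,0,1],[0,0,0,0,0],[]⟩,
     ⟨2,0,[1,1,0,2,1],[9,1,1,7,1],[0,0,0,0,1],[0,0,0,0,0],[]⟩,
     ⟨2,0,[1,1,0,2,1],[1,1,9,7,1],[0,0,0,0,1],[0,0,0,0,0],[]⟩,
     ⟨2,0,[1,1,0,2,1],[9,1,9,7,1],[0,0,0,0,1],[0,0,0,0,0],[]⟩]⟩]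
def T10 : Tree := ⟨[1,1,1,7,1], n10_0, []⟩
def n11_0 : List NX := [
  ⟨⟨3, [(0,1),(1,1),(2,1),(3,1),(4,1)], [[(0,1),(1,1),(2,1),(2,7),(2,1)],[(0,1),(1,1),(2,1),(2,7),(3,1)],[(0,1),(1,1),(2,1),(2,15),(3,1)]], F.fb⟩, [7,5,7,1,7],
    [⟨2,0,[0,0,1,1,0],[7,5,7,1,7],[0,0,0,1,0],[0,0,0,0,0],[]⟩,
     ⟨2,0,[0,0,1,1,0],[15,5,7,1,7],[0,0,0,1,0],[0,0,0,0,0],[]⟩,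
     ⟨2,0,[0,0,1,1,0],[7,5,15,1,7],[0,0,0,1,0],[0,0,0,0,0],[]⟩,
     ⟨2,0,[0,0,1,1,0],[15,5,15,1,7],[0,0,0,1,0],[0,0,0,0,0],[]⟩]⟩,
  ⟨⟨1, [(0,1),(1,1),(2,1),(2,7),(3,1)], [[(0,1),(0,3),(0,1),(0,7),(1,1)],[(0,1),(0,35),(0,1),(0,7),(1,1)],[(0,1),(0,3),(1,1),(1,7),(2,1)]], F.fb⟩, [3,1,3,5,3],
    [⟨2,1,[1,1,0,2,0],[3,1,3,5,3],[0,1,0,0,0],[0,0,0,0,0],[]⟩,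
     ⟨2,1,[1,1,0,2,0],[11,1,3,5,3],[0,1,0,0,0],[0,0,0,0,0],[]⟩,
     ⟨2,1,[1,1,0,2,0],[3,1,11,5,3],[0,1,0,0,0],[0,0,0,0,0],[]⟩,
     ⟨2,1,[1,1,0,2,0],[11,1,11,5,3],[0,1,0,0,0],[0,0,0,0,0],[]⟩]⟩,
  ⟨⟨1, [(0,1),(1,1),(2,1),(2,15),(3,1)], [[(0,1),(0,3),(0,1),(0,15),(1,1)],[(0,1),(0,35),(0,105),(0,7),(1,1)],[(0,1),(0,3),(1,1),(1,15),(2,1)]], F.fb⟩, [3,1,3,5,3],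
    [⟨2,1,[1,1,0,2,0],[3,1,3,5,3],[0,1,0,0,0],[0,0,0,0,0],[]⟩,
     ⟨2,1,[1,1,0,2,0],[11,1,3,5,3],[0,1,0,0,0],[0,0,0,0,0],[]⟩,
     ⟨2,1,[1,1,0,2,0],[3,1,11,5,3],[0,1,0,0,0],[0,0,0,0,0],[]⟩,
     ⟨2,1,[1,1,0,2,0],[11,1,11,5,3],[0,1,0,0,0],[0,0,0,0,0],[]⟩]⟩,
  ⟨⟨2, [(0,1),(0,3),(1,1),(1,7),(2,1)], [[(0,1),(0,3),(0,1),(0,7),(0,1)]], F.fb⟩, [1,3,1,7,1],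
    [⟨4,0,[2,0,2,0,2],[1,3,1,7,1],[0,0,0,0,1],[0,0,0,0,0],[]⟩,
     ⟨4,0,[2,0,2,0,2],[9,3,1,7,1],[0,0,0,0,1],[0,0,0,0,0],[]⟩,
     ⟨4,0,[2,2,1,3,2],[1,3,9,7,1],[0,0,0,0,1],[0,0,0,0,0],[]⟩,
     ⟨4,0,[2,2,1,3,2],[9,3,9,7,1],[0,0,0,0,1],[0,0,0,0,0],[]⟩]⟩,
  ⟨⟨2, [(0,1),(0,3),(1,1),(1,15),(2,1)], [[(0,1),(0,3),(0,1),(0,15),(0,1)]], F.fb⟩, [1,3,1,7,1],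
    [⟨4,0,[2,2,1,1,2],[1,3,1,7,1],[0,0,0,0,1],[0,0,0,0,0],[]⟩,
     ⟨4,0,[2,2,1,1,2],[9,3,1,7,1],[0,0,0,0,1],[0,0,0,0,0],[]⟩,
     ⟨4,0,[2,2,1,3,2],[1,3,9,7,1],[0,0,0,0,1],[0,0,0,0,0],[]⟩,
     ⟨4,0,[2,2,1,3,2],[9,3,9,7,1],[0,0,0,0,1],[0,0,0,0,0],[]⟩]⟩,
  ⟨⟨1, [(0,1),(1,1),(2,1),(2,7),(2,1)], [[(0,1),(0,3),(0,1),(0,7),(0,1)],[(0,1),(0,11),(0,1),(0,7),(0,1)],[(0,1),(0,3),(1,1),(1,7),(1,1)]], F.fb⟩, [3,1,3,5,3],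
    [⟨2,0,[1,1,0,2,0],[3,1,3,5,3],[0,1,0,0,0],[0,0,0,0,0],[]⟩,
     ⟨2,0,[1,1,0,2,0],[11,1,3,5,3],[0,1,0,0,0],[0,0,0,0,0],[]⟩,
     ⟨2,0,[1,1,0,2,0],[3,1,11,5,3],[0,1,0,0,0],[0,0,0,0,0],[]⟩,
     ⟨2,0,[1,1,0,2,0],[11,1,11,5,3],[0,1,0,0,0],[0,0,0,0,0],[]⟩]⟩,
  ⟨⟨1, [(0,1),(0,3),(0,1),(0,7),(1,1)], [[(0,1),(0,3),(0,1),(0,7),(0,1)]], F.fb⟩, [1,3,1,7,1],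
    [⟨4,0,[1,1,2,0,2],[1,3,1,7,1],[0,0,0,0,1],[0,0,0,0,0],[]⟩,
     ⟨4,0,[1,3,2,0,2],[9,3,1,7,1],[0,0,0,0,1],[0,0,0,0,0],[]⟩,
     ⟨4,0,[1,1,2,0,2],[1,3,9,7,1],[0,0,0,0,1],[0,0,0,0,0],[]⟩,
     ⟨4,0,[1,3,2,0,2],[9,3,9,7,1],[0,0,0,0,1],[0,0,0,0,0],[]⟩]⟩,
  ⟨⟨1, [(0,1),(0,3),(0,1),(0,15),(1,1)], [[(0,1),(0,3),(0,1),(0,15),(0,1)]], F.fb⟩, [1,3,1,7,1],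
    [⟨4,0,[2,2,1,1,2],[1,3,1,7,1],[0,0,0,0,1],[0,0,0,0,0],[]⟩,
     ⟨4,0,[1,1,0,2,2],[9,3,1,7,1],[0,0,0,0,1],[0,0,0,0,0],[]⟩,
     ⟨4,0,[1,3,0,2,2],[1,3,9,7,1],[0,0,0,0,1],[0,0,0,0,0],[]⟩,
     ⟨4,0,[1,1,0,2,2],[9,3,9,7,1],[0,0,0,0,1],[0,0,0,0,0],[]⟩]⟩,
  ⟨⟨0, [(0,1),(0,35),(0,1),(0,7),(1,1)], [], F.fb⟩, [1,3,1,7,1],
    [⟨2,0,[1,1,0,2,0],[1,3,1,7,1],[1,7,0,0,0],[0,0,0,0,0],[]⟩,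
     ⟨2,0,[1,1,0,2,0],[9,3,1,7,1],[1,7,0,0,0],[0,0,0,0,0],[]⟩,
     ⟨2,0,[1,1,0,2,0],[1,3,9,7,1],[1,7,0,0,0],[0,0,0,0,0],[]⟩,
     ⟨2,0,[1,1,0,2,0],[9,3,9,7,1],[1,7,0,0,0],[0,0,0,0,0],[]⟩]⟩,
  ⟨⟨0, [(0,1),(0,35),(0,105),(0,7),(1,1)], [], F.fb⟩, [1,3,1,7,1],
    [⟨2,0,[1,1,0,2,0],[1,3,1,7,1],[1,7,0,0,0],[0,0,0,0,0],[]⟩,
     ⟨2,0,[1,1,0,2,0],[9,3,1,7,1],[1,7,0,0,0],[0,0,0,0,0],[]⟩,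
     ⟨2,0,[1,1,0,2,0],[1,3,9,7,1],[1,7,0,0,0],[0,0,0,0,0],[]⟩,
     ⟨2,0,[1,1,0,2,0],[9,3,9,7,1],[1,7,0,0,0],[0,0,0,0,0],[]⟩]⟩,
  ⟨⟨1, [(0,1),(0,3),(1,1),(1,7),(1,1)], [[(0,1),(0,3),(0,1),(0,7),(0,1)]], F.fb⟩, [1,3,1,7,1],
    [⟨4,0,[1,3,0,2,2],[1,3,1,7,1],[0,0,0,1,0],[0,0,0,0,0],[]⟩,
     ⟨4,0,[1,1,0,2,2],[9,3,1,7,1],[0,0,0,1,0],[0,0,0,0,0],[]⟩,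
     ⟨4,0,[2,2,1,3,2],[1,3,9,7,1],[0,0,0,0,1],[0,0,0,0,0],[]⟩,
     ⟨4,0,[2,2,1,3,2],[9,3,9,7,1],[0,0,0,0,1],[0,0,0,0,0],[]⟩]⟩,
  ⟨⟨0, [(0,1),(0,3),(0,1),(0,7),(0,1)], [], F.fb⟩, [1,3,1,7,1],
    [⟨4,0,[1,3,0,2,2],[1,3,1,7,1],[0,0,0,2,0],[1,1,0,0,0],[]⟩]⟩,
  ⟨⟨0, [(0,1),(0,3),(0,1),(0,15),(0,1)], [], F.fb⟩, [1,3,1,7,1],
    [⟨4,0,[1,3,0,2,2],[1,3,9,7,1],[1,1,0,0,0],[0,0,0,0,0],[]⟩]⟩,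
  ⟨⟨0, [(0,1),(0,11),(0,1),(0,7),(0,1)], [], F.fb⟩, [1,3,1,7,1],
    [⟨2,0,[1,1,0,2,0],[9,3,1,7,1],[1,0,0,0,0],[0,0,0,0,0],[]⟩]⟩]
def T11 : Tree := ⟨[1,3,1,7,1], n11_0, []⟩
def n12_0 : List NX := [
  ⟨⟨4, [(0,1),(1,1),(2,1),(3,1),(4,1)], [[(0,1),(0,5),(0,1),(0,7),(0,1)]], F.fb⟩, [1,5,1,7,1],
    [⟨2,0,[1,1,1,1,1],[1,5,1,7,1],[0,0,0,0,1],[0,0,0,0,0],[]⟩,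
     ⟨2,0,[1,1,1,1,1],[9,5,1,7,1],[0,0,0,0,1],[0,0,0,0,0],[]⟩,
     ⟨2,0,[1,1,1,1,1],[1,5,9,7,1],[0,0,0,0,1],[0,0,0,0,0],[]⟩,
     ⟨2,0,[1,1,1,1,1],[9,5,9,7,1],[0,0,0,0,1],[0,0,0,0,0],[]⟩]⟩,
  ⟨⟨0, [(0,1),(0,5),(0,1),(0,7),(0,1)], [], F.fb⟩, [1,5,1,7,1],
    [⟨2,0,[1,1,1,1,1],[1,5,1,7,1],[0,1,0,0,0],[1,0,0,0,0],[]⟩]⟩]
def T12 : Tree := ⟨[1,5,1,7,1], n12_0, []⟩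
def n13_0 : List NX := [
  ⟨⟨1, [(0,1),(1,1),(2,1),(3,1),(4,1)], [], F.fb⟩, [7,1,7,1,7],
    [⟨2,1,[1,1,1,1,0],[7,1,7,1,7],[0,1,0,0,0],[0,0,0,0,0],[]⟩,
     ⟨2,1,[1,1,1,1,0],[15,1,7,1,7],[0,1,0,0,0],[0,0,0,0,0],[]⟩,
     ⟨2,1,[1,1,1,1,0],[7,1,15,1,7],[0,1,0,0,0],[0,0,0,0,0],[]⟩,
     ⟨2,1,[1,1,1,1,0],[15,1,15,1,7],[0,1,0,0,0],[0,0,0,0,0],[]⟩]⟩]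
def T13 : Tree := ⟨[1,7,1,7,1], n13_0, []⟩
def n14_0 : List NX := [
  ⟨⟨4, [(0,1),(1,1),(2,1),(3,1),(4,1)], [], F.fb⟩, [1,1,3,7,1],
    [⟨2,0,[1,1,0,2,1],[1,1,3,7,1],[0,0,0,0,1],[0,0,0,0,0],[]⟩,
     ⟨2,0,[1,1,0,2,1],[9,1,3,7,1],[0,0,0,0,1],[0,0,0,0,0],[]⟩,
     ⟨2,0,[1,1,0,2,1],[1,1,11,7,1],[0,0,0,0,1],[0,0,0,0,0],[]⟩,
     ⟨2,0,[1,1,0,2,1],[9,1,11,7,1],[0,0,0,0,1],[0,0,0,0,0],[]⟩]⟩]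
def T14 : Tree := ⟨[1,1,3,7,1], n14_0, []⟩
def n15_0 : List NX := [
  ⟨⟨4, [(0,1),(1,1),(2,1),(3,1),(4,1)], [[(0,1),(1,1),(0,3),(0,7),(0,1)]], F.fb⟩, [1,5,3,7,1],
    [⟨2,0,[0,2,1,1,1],[1,5,3,7,1],[0,0,0,0,1],[0,0,0,0,0],[]⟩,
     ⟨2,0,[0,2,1,1,1],[9,5,3,7,1],[0,0,0,0,1],[0,0,0,0,0],[]⟩,
     ⟨2,0,[0,2,1,1,1],[1,5,11,7,1],[0,0,0,0,1],[0,0,0,0,0],[]⟩,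
     ⟨2,0,[0,2,1,1,1],[9,5,11,7,1],[0,0,0,0,1],[0,0,0,0,0],[]⟩]⟩,
  ⟨⟨0, [(0,1),(1,1),(0,3),(0,7),(0,1)], [], F.fb⟩, [1,5,3,7,1],
    [⟨2,0,[0,2,1,1,1],[1,5,3,7,1],[0,0,0,1,0],[0,0,1,0,0],[]⟩,
     ⟨2,0,[0,2,1,1,1],[9,5,3,7,1],[0,0,0,1,0],[0,0,1,0,0],[]⟩,
     ⟨2,0,[0,2,1,1,1],[1,5,11,7,1],[0,0,0,1,0],[0,0,1,0,0],[]⟩,
     ⟨2,0,[0,2,1,1,1],[9,5,11,7,1],[0,0,0,1,0],[0,0,1,0,0],[]⟩]⟩]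
def T15 : Tree := ⟨[1,5,3,7,1], n15_0, []⟩
def n16_0 : List NX := [
  ⟨⟨4, [(0,1),(1,1),(2,1),(3,1),(4,1)], [], F.fb⟩, [1,1,5,7,1],
    [⟨2,0,[1,1,1,1,1],[1,1,5,7,1],[0,0,0,0,1],[0,0,0,0,0],[]⟩,
     ⟨2,0,[1,1,1,1,1],[9,1,5,7,1],[0,0,0,0,1],[0,0,0,0,0],[]⟩,
     ⟨2,0,[1,1,1,1,1],[1,1,13,7,1],[0,0,0,0,1],[0,0,0,0,0],[]⟩,
     ⟨2,0,[1,1,1,1,1],[9,1,13,7,1],[0,0,0,0,1],[0,0,0,0,0],[]⟩]⟩]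
def T16 : Tree := ⟨[1,1,5,7,1], n16_0, []⟩
def n17_0 : List NX := [
  ⟨⟨3, [(0,1),(1,1),(2,1),(3,1),(4,1)], [[(0,1),(1,1),(2,1),(2,3),(3,1)]], F.fb⟩, [7,5,3,1,7],
    [⟨2,0,[0,2,1,1,0],[7,5,3,1,7],[0,0,0,1,0],[0,0,0,0,0],[]⟩,
     ⟨2,0,[0,2,1,1,0],[15,5,3,1,7],[0,0,0,1,0],[0,0,0,0,0],[]⟩,
     ⟨2,0,[0,2,1,1,0],[7,5,11,1,7],[0,0,0,1,0],[0,0,0,0,0],[]⟩,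
     ⟨2,0,[0,2,1,1,0],[15,5,11,1,7],[0,0,0,1,0],[0,0,0,0,0],[]⟩]⟩,
  ⟨⟨1, [(0,1),(1,1),(2,1),(2,3),(3,1)], [[(0,1),(0,3),(1,1),(1,3),(2,1)]], F.fb⟩, [3,1,7,5,3],
    [⟨2,0,[1,1,0,2,0],[3,1,7,5,3],[0,1,0,0,0],[0,0,0,0,0],[]⟩,
     ⟨2,0,[1,1,0,2,0],[11,1,7,5,3],[0,1,0,0,0],[0,0,0,0,0],[]⟩,
     ⟨2,0,[1,1,0,2,0],[3,1,15,5,3],[0,1,0,0,0],[0,0,0,0,0],[]⟩,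
     ⟨2,0,[1,1,0,2,0],[11,1,15,5,3],[0,1,0,0,0],[0,0,0,0,0],[]⟩]⟩,
  ⟨⟨2, [(0,1),(0,3),(1,1),(1,3),(2,1)], [[(0,1),(0,3),(0,21),(0,7),(0,1)]], F.fb⟩, [1,3,5,7,1],
    [⟨4,0,[1,3,1,1,2],[1,3,5,7,1],[0,0,0,0,1],[0,0,0,0,0],[]⟩,
     ⟨4,0,[1,3,3,1,2],[9,3,5,7,1],[0,0,0,0,1],[0,0,0,0,0],[]⟩,
     ⟨4,0,[1,3,3,1,2],[1,3,13,7,1],[0,0,0,0,1],[0,0,0,0,0],[]⟩,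
     ⟨4,0,[1,3,1,1,2],[9,3,13,7,1],[0,0,0,0,1],[0,0,0,0,0],[]⟩]⟩,
  ⟨⟨0, [(0,1),(0,3),(0,21),(0,7),(0,1)], [], F.fb⟩, [1,3,5,7,1],
    [⟨4,0,[1,3,1,1,2],[1,3,5,7,1],[0,0,3,1,0],[1,1,0,0,0],[]⟩]⟩]
def T17 : Tree := ⟨[1,3,5,7,1], n17_0, []⟩
def n18_0 : List NX := [
  ⟨⟨4, [(0,1),(1,1),(2,1),(3,1),(4,1)], [], F.fb⟩, [1,1,7,7,1],
    [⟨2,0,[0,0,1,1,1],[1,1,7,7,1],[0,0,0,0,1],[0,0,0,0,0],[]⟩,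
     ⟨2,0,[0,0,1,1,1],[9,1,7,7,1],[0,0,0,0,1],[0,0,0,0,0],[]⟩,
     ⟨2,0,[0,0,1,1,1],[1,1,15,7,1],[0,0,0,0,1],[0,0,0,0,0],[]⟩,
     ⟨2,0,[0,0,1,1,1],[9,1,15,7,1],[0,0,0,0,1],[0,0,0,0,0],[]⟩]⟩]
def T18 : Tree := ⟨[1,1,7,7,1], n18_0, []⟩
def n19_0 : List NX := [
  ⟨⟨4, [(0,1),(1,1),(2,1),(3,1),(4,1)], [[(0,1),(0,33),(1,1),(2,1),(0,3)],[(0,1),(0,33),(1,1),(2,1),(0,11)]], F.fb⟩, [3,3,3,3,1],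
    [⟨2,0,[1,1,0,0,1],[3,3,3,3,1],[0,0,0,0,1],[0,0,0,0,0],[]⟩,
     ⟨2,0,[1,1,0,0,1],[11,3,3,3,1],[0,0,0,0,1],[0,0,0,0,0],[]⟩,
     ⟨2,0,[1,1,0,0,1],[3,3,11,3,1],[0,0,0,0,1],[0,0,0,0,0],[]⟩,
     ⟨2,0,[1,1,0,0,1],[11,3,11,3,1],[0,0,0,0,1],[0,0,0,0,0],[]⟩]⟩,
  ⟨⟨0, [(0,1),(0,33),(1,1),(2,1),(0,3)], [], F.fb⟩, [1,1,1,1,3],
    [⟨2,0,[1,1,0,0,1],[1,1,1,1,3],[1,3,0,0,0],[0,0,0,0,0],[]⟩,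
     ⟨2,0,[1,1,0,0,1],[9,1,1,1,3],[1,3,0,0,0],[0,0,0,0,0],[]⟩,
     ⟨2,0,[1,1,0,0,1],[1,1,9,1,3],[1,3,0,0,0],[0,0,0,0,0],[]⟩,
     ⟨2,0,[1,1,0,0,1],[9,1,9,1,3],[1,3,0,0,0],[0,0,0,0,0],[]⟩]⟩,
  ⟨⟨0, [(0,1),(0,33),(1,1),(2,1),(0,11)], [], F.fb⟩, [1,1,1,1,3],
    [⟨2,0,[1,1,0,0,1],[1,1,1,1,3],[1,11,0,0,0],[0,0,0,0,0],[]⟩,
     ⟨2,0,[1,1,0,0,1],[9,1,1,1,3],[1,11,0,0,0],[0,0,0,0,0],[]⟩,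
     ⟨2,0,[1,1,0,0,1],[1,1,9,1,3],[1,11,0,0,0],[0,0,0,0,0],[]⟩,
     ⟨2,0,[1,1,0,0,1],[9,1,9,1,3],[1,11,0,0,0],[0,0,0,0,0],[]⟩]⟩]
def T19 : Tree := ⟨[1,1,1,1,3], n19_0, []⟩
def n20_0 : List NX := [
  ⟨⟨4, [(0,1),(1,1),(2,1),(3,1),(4,1)], [[(0,1),(0,33),(1,1),(2,1),(0,3)],[(0,1),(0,33),(1,1),(2,1),(0,11)]], F.fb⟩, [3,3,3,1,1],
    [⟨2,0,[1,1,0,0,1],[3,3,3,1,1],[0,0,0,0,1],[0,0,0,0,0],[]⟩,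
     ⟨2,0,[1,1,0,0,1],[11,3,3,1,1],[0,0,0,0,1],[0,0,0,0,0],[]⟩,
     ⟨2,0,[1,1,0,0,1],[3,3,11,1,1],[0,0,0,0,1],[0,0,0,0,0],[]⟩,
     ⟨2,0,[1,1,0,0,1],[11,3,11,1,1],[0,0,0,0,1],[0,0,0,0,0],[]⟩]⟩,
  ⟨⟨0, [(0,1),(0,33),(1,1),(2,1),(0,3)], [], F.fb⟩, [1,1,1,3,3],
    [⟨2,0,[1,1,0,0,1],[1,1,1,3,3],[1,3,0,0,0],[0,0,0,0,0],[]⟩,
     ⟨2,0,[1,1,0,0,1],[9,1,1,3,3],[1,3,0,0,0],[0,0,0,0,0],[]⟩,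
     ⟨2,0,[1,1,0,0,1],[1,1,9,3,3],[1,3,0,0,0],[0,0,0,0,0],[]⟩,
     ⟨2,0,[1,1,0,0,1],[9,1,9,3,3],[1,3,0,0,0],[0,0,0,0,0],[]⟩]⟩,
  ⟨⟨0, [(0,1),(0,33),(1,1),(2,1),(0,11)], [], F.fb⟩, [1,1,1,3,3],
    [⟨2,0,[1,1,0,0,1],[1,1,1,3,3],[1,11,0,0,0],[0,0,0,0,0],[]⟩,
     ⟨2,0,[1,1,0,0,1],[9,1,1,3,3],[1,11,0,0,0],[0,0,0,0,0],[]⟩,
     ⟨2,0,[1,1,0,0,1],[1,1,9,3,3],[1,11,0,0,0],[0,0,0,0,0],[]⟩,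
     ⟨2,0,[1,1,0,0,1],[9,1,9,3,3],[1,11,0,0,0],[0,0,0,0,0],[]⟩]⟩]
def T20 : Tree := ⟨[1,1,1,3,3], n20_0, []⟩
def n21_0 : List NX := [
  ⟨⟨3, [(0,1),(1,1),(2,1),(3,1),(4,1)], [], F.fb⟩, [5,5,5,1,7],
    [⟨2,0,[1,1,1,1,0],[5,5,5,1,7],[0,0,0,1,0],[0,0,0,0,0],[]⟩,
     ⟨2,0,[1,1,1,1,0],[13,5,5,1,7],[0,0,0,1,0],[0,0,0,0,0],[]⟩,
     ⟨2,0,[1,1,1,1,0],[5,5,13,1,7],[0,0,0,1,0],[0,0,0,0,0],[]⟩,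
     ⟨2,0,[1,1,1,1,0],[13,5,13,1,7],[0,0,0,1,0],[0,0,0,0,0],[]⟩]⟩]
def T21 : Tree := ⟨[1,1,1,5,3], n21_0, []⟩
def n22_0 : List NX := [
  ⟨⟨4, [(0,1),(1,1),(2,1),(3,1),(4,1)], [[(0,1),(1,1),(0,1),(0,5),(0,3)],[(0,1),(1,1),(1,3),(1,7),(1,1)]], F.fb⟩, [3,1,3,7,1],
    [⟨2,0,[0,2,1,1,1],[3,1,3,7,1],[0,0,0,0,1],[0,0,0,0,0],[]⟩,
     ⟨2,0,[0,2,1,1,1],[11,1,3,7,1],[0,0,0,0,1],[0,0,0,0,0],[]⟩,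
     ⟨2,0,[0,2,1,1,1],[3,1,11,7,1],[0,0,0,0,1],[0,0,0,0,0],[]⟩,
     ⟨2,0,[0,2,1,1,1],[11,1,11,7,1],[0,0,0,0,1],[0,0,0,0,0],[]⟩]⟩,
  ⟨⟨0, [(0,1),(1,1),(0,1),(0,5),(0,3)], [], F.fb⟩, [1,3,1,5,3],
    [⟨2,0,[0,2,1,1,1],[1,3,1,5,3],[0,0,0,1,0],[0,0,1,0,0],[]⟩,
     ⟨2,0,[0,2,1,1,1],[9,3,1,5,3],[0,0,0,1,0],[0,0,1,0,0],[]⟩,
     ⟨2,0,[0,2,1,1,1],[1,3,9,5,3],[0,0,0,1,0],[0,0,1,0,0],[]⟩,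
     ⟨2,0,[0,2,1,1,1],[9,3,9,5,3],[0,0,0,1,0],[0,0,1,0,0],[]⟩]⟩,
  ⟨⟨1, [(0,1),(1,1),(1,3),(1,7),(1,1)], [], F.fb⟩, [3,1,3,7,1],
    [⟨2,0,[0,2,1,1,1],[3,1,3,7,1],[0,0,0,1,0],[0,0,1,0,0],[]⟩,
     ⟨2,0,[0,2,1,1,1],[11,1,3,7,1],[0,0,0,1,0],[0,0,1,0,0],[]⟩,
     ⟨2,0,[0,2,1,1,1],[3,1,11,7,1],[0,0,0,1,0],[0,0,1,0,0],[]⟩,
     ⟨2,0,[0,2,1,1,1],[11,1,11,7,1],[0,0,0,1,0],[0,0,1,0,0],[]⟩]⟩]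
def T22 : Tree := ⟨[1,3,1,5,3], n22_0, []⟩
def n23_0 : List NX := [
  ⟨⟨4, [(0,1),(1,1),(2,1),(3,1),(4,1)], [[(0,1),(0,5),(0,1),(1,1),(0,3)]], F.fb⟩, [3,7,3,7,1],
    [⟨2,0,[1,1,0,2,1],[3,7,3,7,1],[0,0,0,0,1],[0,0,0,0,0],[]⟩,
     ⟨2,0,[1,1,0,2,1],[11,7,3,7,1],[0,0,0,0,1],[0,0,0,0,0],[]⟩,
     ⟨2,0,[1,1,0,2,1],[3,7,11,7,1],[0,0,0,0,1],[0,0,0,0,0],[]⟩,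
     ⟨2,0,[1,1,0,2,1],[11,7,11,7,1],[0,0,0,0,1],[0,0,0,0,0],[]⟩]⟩,
  ⟨⟨0, [(0,1),(0,5),(0,1),(1,1),(0,3)], [], F.fb⟩, [1,5,1,5,3],
    [⟨2,0,[1,1,0,2,1],[1,5,1,5,3],[0,1,0,0,0],[1,0,0,0,0],[]⟩,
     ⟨2,0,[1,1,0,2,1],[9,5,1,5,3],[0,1,0,0,0],[1,0,0,0,0],[]⟩,
     ⟨2,0,[1,1,0,2,1],[1,5,9,5,3],[0,1,0,0,0],[1,0,0,0,0],[]⟩,
     ⟨2,0,[1,1,0,2,1],[9,5,9,5,3],[0,1,0,0,0],[1,0,0,0,0],[]⟩]⟩]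
def T23 : Tree := ⟨[1,5,1,5,3], n23_0, []⟩
def n24_0 : List NX := [
  ⟨⟨4, [(0,1),(1,1),(2,1),(3,1),(4,1)], [], F.fb⟩, [3,3,1,7,1],
    [⟨2,0,[1,1,1,1,1],[3,3,1,7,1],[0,0,0,0,1],[0,0,0,0,0],[]⟩,
     ⟨2,0,[1,1,1,1,1],[11,3,1,7,1],[0,0,0,0,1],[0,0,0,0,0],[]⟩,
     ⟨2,0,[1,1,1,1,1],[3,3,9,7,1],[0,0,0,0,1],[0,0,0,0,0],[]⟩,
     ⟨2,0,[1,1,1,1,1],[11,3,9,7,1],[0,0,0,0,1],[0,0,0,0,0],[]⟩]⟩]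
def T24 : Tree := ⟨[1,1,3,5,3], n24_0, []⟩
def n25_0 : List NX := [
  ⟨⟨4, [(0,1),(1,1),(2,1),(3,1),(4,1)], [], F.fb⟩, [3,3,7,7,1],
    [⟨2,0,[0,0,1,1,1],[3,3,7,7,1],[0,0,0,0,1],[0,0,0,0,0],[]⟩,
     ⟨2,0,[0,0,1,1,1],[11,3,7,7,1],[0,0,0,0,1],[0,0,0,0,0],[]⟩,
     ⟨2,0,[0,0,1,1,1],[3,3,15,7,1],[0,0,0,0,1],[0,0,0,0,0],[]⟩,
     ⟨2,0,[0,0,1,1,1],[11,3,15,7,1],[0,0,0,0,1],[0,0,0,0,0],[]⟩]⟩]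
def T25 : Tree := ⟨[1,1,5,5,3], n25_0, []⟩
def n26_0 : List NX := [
  ⟨⟨4, [(0,1),(1,1),(2,1),(3,1),(4,1)], [], F.fb⟩, [3,3,3,5,1],
    [⟨2,0,[1,1,1,1,1],[3,3,3,5,1],[0,0,0,0,1],[0,0,0,0,0],[]⟩,
     ⟨2,0,[1,1,1,1,1],[11,3,3,5,1],[0,0,0,0,1],[0,0,0,0,0],[]⟩,
     ⟨2,0,[1,1,1,1,1],[3,3,11,5,1],[0,0,0,0,1],[0,0,0,0,0],[]⟩,
     ⟨2,0,[1,1,1,1,1],[11,3,11,5,1],[0,0,0,0,1],[0,0,0,0,0],[]⟩]⟩]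
def T26 : Tree := ⟨[1,1,1,7,3], n26_0, []⟩
def n27_0 : List NX := [
  ⟨⟨3, [(0,1),(1,1),(2,1),(3,1),(4,1)], [[(0,1),(1,1),(2,1),(2,7),(3,1)],[(0,1),(1,1),(2,1),(2,15),(3,1)]], F.fb⟩, [7,5,7,1,5],
    [⟨2,0,[0,0,1,1,0],[7,5,7,1,5],[0,0,0,1,0],[0,0,0,0,0],[]⟩,
     ⟨2,0,[0,0,1,1,0],[15,5,7,1,5],[0,0,0,1,0],[0,0,0,0,0],[]⟩,
     ⟨2,0,[0,0,1,1,0],[7,5,15,1,5],[0,0,0,1,0],[0,0,0,0,0],[]⟩,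
     ⟨2,0,[0,0,1,1,0],[15,5,15,1,5],[0,0,0,1,0],[0,0,0,0,0],[]⟩]⟩,
  ⟨⟨1, [(0,1),(1,1),(2,1),(2,7),(3,1)], [[(0,1),(0,3),(0,1),(0,7),(1,1)],[(0,1),(0,11),(0,1),(0,7),(1,1)],[(0,1),(0,3),(1,1),(1,7),(2,1)]], F.fb⟩, [3,1,3,5,1],
    [⟨2,0,[1,1,0,2,0],[3,1,3,5,1],[0,1,0,0,0],[0,0,0,0,0],[]⟩,
     ⟨2,0,[1,1,0,2,0],[11,1,3,5,1],[0,1,0,0,0],[0,0,0,0,0],[]⟩,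
     ⟨2,0,[1,1,0,2,0],[3,1,11,5,1],[0,1,0,0,0],[0,0,0,0,0],[]⟩,
     ⟨2,0,[1,1,0,2,0],[11,1,11,5,1],[0,1,0,0,0],[0,0,0,0,0],[]⟩]⟩,
  ⟨⟨1, [(0,1),(1,1),(2,1),(2,15),(3,1)], [[(0,1),(0,3),(0,1),(0,15),(1,1)],[(0,1),(0,11),(0,1),(0,15),(1,1)],[(0,1),(0,3),(1,1),(1,15),(2,1)]], F.fb⟩, [3,1,3,5,1],
    [⟨2,0,[1,1,0,2,0],[3,1,3,5,1],[0,1,0,0,0],[0,0,0,0,0],[]⟩,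
     ⟨2,0,[1,1,0,2,0],[11,1,3,5,1],[0,1,0,0,0],[0,0,0,0,0],[]⟩,
     ⟨2,0,[1,1,0,2,0],[3,1,11,5,1],[0,1,0,0,0],[0,0,0,0,0],[]⟩,
     ⟨2,0,[1,1,0,2,0],[11,1,11,5,1],[0,1,0,0,0],[0,0,0,0,0],[]⟩]⟩,
  ⟨⟨2, [(0,1),(0,3),(1,1),(1,7),(2,1)], [[(0,1),(0,3),(0,105),(0,15),(0,3)]], F.fb⟩, [3,1,3,5,1],
    [⟨4,0,[2,2,1,1,2],[3,1,3,5,1],[0,0,0,0,1],[0,0,0,0,0],[]⟩,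
     ⟨4,0,[2,2,1,1,2],[11,1,3,5,1],[0,0,0,0,1],[0,0,0,0,0],[]⟩,
     ⟨4,0,[2,2,1,3,2],[3,1,11,5,1],[0,0,0,0,1],[0,0,0,0,0],[]⟩,
     ⟨4,0,[2,2,1,3,2],[11,1,11,5,1],[0,0,0,0,1],[0,0,0,0,0],[]⟩]⟩,
  ⟨⟨1, [(0,1),(0,3),(1,1),(1,15),(2,1)], [[(0,1),(0,3),(0,1),(0,15),(1,1)]], F.fb⟩, [1,3,1,7,3],
    [⟨4,0,[1,3,2,0,0],[1,3,1,7,3],[0,0,1,0,0],[0,0,0,0,0],[]⟩,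
     ⟨4,0,[1,1,2,0,0],[9,3,1,7,3],[0,0,1,0,0],[0,0,0,0,0],[]⟩,
     ⟨4,0,[1,3,2,0,0],[1,3,9,7,3],[0,0,1,0,0],[0,0,0,0,0],[]⟩,
     ⟨4,0,[1,1,2,0,0],[9,3,9,7,3],[0,0,1,0,0],[0,0,0,0,0],[]⟩]⟩,
  ⟨⟨1, [(0,1),(0,3),(0,1),(0,7),(1,1)], [], F.fb⟩, [3,1,3,5,1],
    [⟨4,0,[2,2,1,1,2],[3,1,3,5,1],[0,0,0,0,1],[0,0,0,0,0],[]⟩,
     ⟨4,0,[1,3,0,2,2],[11,1,3,5,1],[0,0,0,0,1],[0,0,0,0,0],[]⟩,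
     ⟨4,0,[2,2,1,3,2],[3,1,11,5,1],[0,0,0,0,1],[0,0,0,0,0],[]⟩,
     ⟨4,0,[1,3,0,2,2],[11,1,11,5,1],[0,0,0,0,1],[0,0,0,0,0],[]⟩]⟩,
  ⟨⟨1, [(0,1),(0,3),(0,1),(0,15),(1,1)], [[(0,1),(0,3),(0,1),(0,15),(0,3)]], F.fb⟩, [3,1,3,5,1],
    [⟨4,0,[1,1,0,2,2],[3,1,3,5,1],[0,0,0,0,1],[0,0,0,0,0],[]⟩,
     ⟨4,0,[1,3,0,2,2],[11,1,3,5,1],[0,0,0,0,1],[0,0,0,0,0],[]⟩,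
     ⟨4,0,[1,1,0,2,2],[3,1,11,5,1],[0,0,0,0,1],[0,0,0,0,0],[]⟩,
     ⟨4,0,[1,3,0,2,2],[11,1,11,5,1],[0,0,0,0,1],[0,0,0,0,0],[]⟩]⟩,
  ⟨⟨0, [(0,1),(0,11),(0,1),(0,7),(1,1)], [], F.fb⟩, [1,3,1,7,3],
    [⟨2,0,[1,1,0,2,0],[1,3,1,7,3],[1,0,0,0,0],[0,0,0,0,0],[]⟩,
     ⟨2,0,[1,1,0,2,0],[9,3,1,7,3],[1,0,0,0,0],[0,0,0,0,0],[]⟩,
     ⟨2,0,[1,1,0,2,0],[1,3,9,7,3],[1,0,0,0,0],[0,0,0,0,0],[]⟩,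
     ⟨2,0,[1,1,0,2,0],[9,3,9,7,3],[1,0,0,0,0],[0,0,0,0,0],[]⟩]⟩,
  ⟨⟨0, [(0,1),(0,11),(0,1),(0,15),(1,1)], [], F.fb⟩, [1,3,1,7,3],
    [⟨2,0,[1,1,0,2,0],[1,3,1,7,3],[1,0,0,0,0],[0,0,0,0,0],[]⟩,
     ⟨2,0,[1,1,0,2,0],[9,3,1,7,3],[1,0,0,0,0],[0,0,0,0,0],[]⟩,
     ⟨2,0,[1,1,0,2,0],[1,3,9,7,3],[1,0,0,0,0],[0,0,0,0,0],[]⟩,
     ⟨2,0,[1,1,0,2,0],[9,3,9,7,3],[1,0,0,0,0],[0,0,0,0,0],[]⟩]⟩,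
  ⟨⟨0, [(0,1),(0,3),(0,105),(0,15),(0,3)], [], F.fb⟩, [1,3,1,7,3],
    [⟨4,0,[1,3,2,0,0],[1,3,1,7,3],[0,0,10,0,0],[1,1,0,0,0],[]⟩]⟩]
def T27 : Tree := ⟨[1,3,1,7,3], n27_0, [[(0,1),(0,3),(0,1),(0,15),(0,3)]]⟩
def n28_0 : List NX := [
  ⟨⟨4, [(0,1),(1,1),(2,1),(3,1),(4,1)], [[(0,1),(0,5),(0,1),(1,1),(0,3)]], F.fb⟩, [3,7,3,5,1],
    [⟨2,0,[1,1,0,2,1],[3,7,3,5,1],[0,0,0,0,1],[0,0,0,0,0],[]⟩,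
     ⟨2,0,[1,1,0,2,1],[11,7,3,5,1],[0,0,0,0,1],[0,0,0,0,0],[]⟩,
     ⟨2,0,[1,1,0,2,1],[3,7,11,5,1],[0,0,0,0,1],[0,0,0,0,0],[]⟩,
     ⟨2,0,[1,1,0,2,1],[11,7,11,5,1],[0,0,0,0,1],[0,0,0,0,0],[]⟩]⟩,
  ⟨⟨0, [(0,1),(0,5),(0,1),(1,1),(0,3)], [], F.fb⟩, [1,5,1,7,3],
    [⟨2,0,[1,1,0,2,1],[1,5,1,7,3],[0,1,0,0,0],[1,0,0,0,0],[]⟩,
     ⟨2,0,[1,1,0,2,1],[9,5,1,7,3],[0,1,0,0,0],[1,0,0,0,0],[]⟩,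
     ⟨2,0,[1,1,0,2,1],[1,5,9,7,3],[0,1,0,0,0],[1,0,0,0,0],[]⟩,
     ⟨2,0,[1,1,0,2,1],[9,5,9,7,3],[0,1,0,0,0],[1,0,0,0,0],[]⟩]⟩]
def T28 : Tree := ⟨[1,5,1,7,3], n28_0, []⟩
def n29_0 : List NX := [
  ⟨⟨1, [(0,1),(1,1),(2,1),(3,1),(4,1)], [], F.fb⟩, [7,1,7,1,5],
    [⟨2,1,[1,1,1,1,0],[7,1,7,1,5],[0,1,0,0,0],[0,0,0,0,0],[]⟩,
     ⟨2,1,[1,1,1,1,0],[15,1,7,1,5],[0,1,0,0,0],[0,0,0,0,0],[]⟩,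
     ⟨2,1,[1,1,1,1,0],[7,1,15,1,5],[0,1,0,0,0],[0,0,0,0,0],[]⟩,
     ⟨2,1,[1,1,1,1,0],[15,1,15,1,5],[0,1,0,0,0],[0,0,0,0,0],[]⟩]⟩]
def T29 : Tree := ⟨[1,7,1,7,3], n29_0, []⟩
def n30_0 : List NX := [
  ⟨⟨4, [(0,1),(1,1),(2,1),(3,1),(4,1)], [[(0,1),(0,33),(1,1),(2,1),(0,3)],[(0,1),(0,33),(1,1),(2,1),(0,11)]], F.fb⟩, [3,3,1,5,1],
    [⟨2,0,[1,1,0,0,1],[3,3,1,5,1],[0,0,0,0,1],[0,0,0,0,0],[]⟩,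
     ⟨2,0,[1,1,0,0,1],[11,3,1,5,1],[0,0,0,0,1],[0,0,0,0,0],[]⟩,
     ⟨2,0,[1,1,0,0,1],[3,3,9,5,1],[0,0,0,0,1],[0,0,0,0,0],[]⟩,
     ⟨2,0,[1,1,0,0,1],[11,3,9,5,1],[0,0,0,0,1],[0,0,0,0,0],[]⟩]⟩,
  ⟨⟨0, [(0,1),(0,33),(1,1),(2,1),(0,3)], [], F.fb⟩, [1,1,3,7,3],
    [⟨2,0,[1,1,0,0,1],[1,1,3,7,3],[1,3,0,0,0],[0,0,0,0,0],[]⟩,
     ⟨2,0,[1,1,0,0,1],[9,1,3,7,3],[1,3,0,0,0],[0,0,0,0,0],[]⟩,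
     ⟨2,0,[1,1,0,0,1],[1,1,11,7,3],[1,3,0,0,0],[0,0,0,0,0],[]⟩,
     ⟨2,0,[1,1,0,0,1],[9,1,11,7,3],[1,3,0,0,0],[0,0,0,0,0],[]⟩]⟩,
  ⟨⟨0, [(0,1),(0,33),(1,1),(2,1),(0,11)], [], F.fb⟩, [1,1,3,7,3],
    [⟨2,0,[1,1,0,0,1],[1,1,3,7,3],[1,11,0,0,0],[0,0,0,0,0],[]⟩,
     ⟨2,0,[1,1,0,0,1],[9,1,3,7,3],[1,11,0,0,0],[0,0,0,0,0],[]⟩,
     ⟨2,0,[1,1,0,0,1],[1,1,11,7,3],[1,11,0,0,0],[0,0,0,0,0],[]⟩,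
     ⟨2,0,[1,1,0,0,1],[9,1,11,7,3],[1,11,0,0,0],[0,0,0,0,0],[]⟩]⟩]
def T30 : Tree := ⟨[1,1,3,7,3], n30_0, []⟩
def n31_0 : List NX := [
  ⟨⟨4, [(0,1),(1,1),(2,1),(3,1),(4,1)], [[(0,1),(0,33),(1,1),(2,1),(0,3)],[(0,1),(0,33),(1,1),(2,1),(0,11)]], F.fb⟩, [3,3,7,5,1],
    [⟨2,0,[1,1,0,0,1],[3,3,7,5,1],[0,0,0,0,1],[0,0,0,0,0],[]⟩,
     ⟨2,0,[1,1,0,0,1],[11,3,7,5,1],[0,0,0,0,1],[0,0,0,0,0],[]⟩,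
     ⟨2,0,[1,1,0,0,1],[3,3,15,5,1],[0,0,0,0,1],[0,0,0,0,0],[]⟩,
     ⟨2,0,[1,1,0,0,1],[11,3,15,5,1],[0,0,0,0,1],[0,0,0,0,0],[]⟩]⟩,
  ⟨⟨0, [(0,1),(0,33),(1,1),(2,1),(0,3)], [], F.fb⟩, [1,1,5,7,3],
    [⟨2,0,[1,1,0,0,1],[1,1,5,7,3],[1,3,0,0,0],[0,0,0,0,0],[]⟩,
     ⟨2,0,[1,1,0,0,1],[9,1,5,7,3],[1,3,0,0,0],[0,0,0,0,0],[]⟩,
     ⟨2,0,[1,1,0,0,1],[1,1,13,7,3],[1,3,0,0,0],[0,0,0,0,0],[]⟩,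
     ⟨2,0,[1,1,0,0,1],[9,1,13,7,3],[1,3,0,0,0],[0,0,0,0,0],[]⟩]⟩,
  ⟨⟨0, [(0,1),(0,33),(1,1),(2,1),(0,11)], [], F.fb⟩, [1,1,5,7,3],
    [⟨2,0,[1,1,0,0,1],[1,1,5,7,3],[1,11,0,0,0],[0,0,0,0,0],[]⟩,
     ⟨2,0,[1,1,0,0,1],[9,1,5,7,3],[1,11,0,0,0],[0,0,0,0,0],[]⟩,
     ⟨2,0,[1,1,0,0,1],[1,1,13,7,3],[1,11,0,0,0],[0,0,0,0,0],[]⟩,
     ⟨2,0,[1,1,0,0,1],[9,1,13,7,3],[1,11,0,0,0],[0,0,0,0,0],[]⟩]⟩]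
def T31 : Tree := ⟨[1,1,5,7,3], n31_0, []⟩
def n32_0 : List NX := [
  ⟨⟨4, [(0,1),(1,1),(2,1),(3,1),(4,1)], [], F.fb⟩, [3,3,5,5,1],
    [⟨2,0,[0,2,1,1,1],[3,3,5,5,1],[0,0,0,0,1],[0,0,0,0,0],[]⟩,
     ⟨2,0,[0,2,1,1,1],[11,3,5,5,1],[0,0,0,0,1],[0,0,0,0,0],[]⟩,
     ⟨2,0,[0,2,1,1,1],[3,3,13,5,1],[0,0,0,0,1],[0,0,0,0,0],[]⟩,
     ⟨2,0,[0,2,1,1,1],[11,3,13,5,1],[0,0,0,0,1],[0,0,0,0,0],[]⟩]⟩]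
def T32 : Tree := ⟨[1,1,7,7,3], n32_0, []⟩
def n33_0 : List NX := [
  ⟨⟨4, [(0,1),(1,1),(2,1),(3,1),(4,1)], [], F.fb⟩, [5,5,5,5,1],
    [⟨2,0,[1,1,0,2,1],[5,5,5,5,1],[0,0,0,0,1],[0,0,0,0,0],[]⟩,
     ⟨2,0,[1,1,0,2,1],[13,5,5,5,1],[0,0,0,0,1],[0,0,0,0,0],[]⟩,
     ⟨2,0,[1,1,0,2,1],[5,5,13,5,1],[0,0,0,0,1],[0,0,0,0,0],[]⟩,
     ⟨2,0,[1,1,0,2,1],[13,5,13,5,1],[0,0,0,0,1],[0,0,0,0,0],[]⟩]⟩]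
def T33 : Tree := ⟨[1,1,1,1,5], n33_0, []⟩
def n34_0 : List NX := [
  ⟨⟨4, [(0,1),(1,1),(2,1),(3,1),(4,1)], [], F.fb⟩, [5,5,5,7,1],
    [⟨2,0,[1,1,1,1,1],[5,5,5,7,1],[0,0,0,0,1],[0,0,0,0,0],[]⟩,
     ⟨2,0,[1,1,1,1,1],[13,5,5,7,1],[0,0,0,0,1],[0,0,0,0,0],[]⟩,
     ⟨2,0,[1,1,1,1,1],[5,5,13,7,1],[0,0,0,0,1],[0,0,0,0,0],[]⟩,
     ⟨2,0,[1,1,1,1,1],[13,5,13,7,1],[0,0,0,0,1],[0,0,0,0,0],[]⟩]⟩]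
def T34 : Tree := ⟨[1,1,1,3,5], n34_0, []⟩
def n35_0 : List NX := [
  ⟨⟨1, [(0,1),(1,1),(2,1),(3,1),(4,1)], [[(0,1),(0,3),(0,1),(1,1),(2,1)],[(0,1),(0,3),(1,1),(0,3),(2,1)],[(0,1),(0,3),(1,1),(2,1),(3,1)]], F.fb⟩, [3,1,3,1,7],
    [⟨2,1,[1,1,0,2,0],[3,1,3,1,7],[0,1,0,0,0],[0,0,0,0,0],[]⟩,
     ⟨2,1,[1,1,0,2,0],[11,1,3,1,7],[0,1,0,0,0],[0,0,0,0,0],[]⟩,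
     ⟨2,1,[1,1,0,2,0],[3,1,11,1,7],[0,1,0,0,0],[0,0,0,0,0],[]⟩,
     ⟨2,1,[1,1,0,2,0],[11,1,11,1,7],[0,1,0,0,0],[0,0,0,0,0],[]⟩]⟩,
  ⟨⟨2, [(0,1),(0,3),(1,1),(2,1),(3,1)], [[(0,1),(0,3),(0,1),(0,3),(1,1)],[(0,1),(0,3),(1,1),(1,3),(2,1)]], F.fb⟩, [3,1,3,1,7],
    [⟨2,1,[0,2,1,1,0],[3,1,3,1,7],[0,0,0,1,0],[0,0,0,0,0],[]⟩,
     ⟨2,1,[0,2,1,1,0],[11,1,3,1,7],[0,0,0,1,0],[0,0,0,0,0],[]⟩,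
     ⟨2,1,[0,2,1,1,0],[3,1,11,1,7],[0,0,0,1,0],[0,0,0,0,0],[]⟩,
     ⟨2,1,[0,2,1,1,0],[11,1,11,1,7],[0,0,0,1,0],[0,0,0,0,0],[]⟩]⟩,
  ⟨⟨1, [(0,1),(0,3),(0,1),(1,1),(2,1)], [[(0,1),(0,3),(0,1),(0,3),(1,1)]], F.fb⟩, [3,1,3,1,7],
    [⟨2,0,[1,1,1,1,0],[3,1,3,1,7],[0,0,0,1,0],[0,0,0,0,0],[]⟩,
     ⟨2,0,[1,1,1,1,0],[11,1,3,1,7],[0,0,0,1,0],[0,0,0,0,0],[]⟩,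
     ⟨2,0,[1,1,1,1,0],[3,1,11,1,7],[0,0,0,1,0],[0,0,0,0,0],[]⟩,
     ⟨2,0,[1,1,1,1,0],[11,1,11,1,7],[0,0,0,1,0],[0,0,0,0,0],[]⟩]⟩,
  ⟨⟨1, [(0,1),(0,3),(1,1),(0,3),(2,1)], [[(0,1),(0,3),(0,1),(0,3),(1,1)]], F.fb⟩, [1,3,1,3,5],
    [⟨2,0,[1,1,1,1,0],[1,3,1,3,5],[0,0,1,0,0],[0,0,0,0,0],[]⟩,
     ⟨2,0,[1,1,1,1,0],[9,3,1,3,5],[0,0,1,0,0],[0,0,0,0,0],[]⟩,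
     ⟨2,0,[1,1,1,1,0],[1,3,9,3,5],[0,0,1,0,0],[0,0,0,0,0],[]⟩,
     ⟨2,0,[1,1,1,1,0],[9,3,9,3,5],[0,0,1,0,0],[0,0,0,0,0],[]⟩]⟩,
  ⟨⟨2, [(0,1),(0,3),(1,1),(1,3),(2,1)], [], F.fb⟩, [5,7,5,7,1],
    [⟨4,0,[1,3,2,0,2],[5,7,5,7,1],[0,0,0,0,1],[0,0,0,0,0],[]⟩,
     ⟨4,0,[1,1,2,0,2],[13,7,5,7,1],[0,0,0,0,1],[0,0,0,0,0],[]⟩,
     ⟨4,0,[1,3,2,0,2],[5,7,13,7,1],[0,0,0,0,1],[0,0,0,0,0],[]⟩,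
     ⟨4,0,[1,1,2,0,2],[13,7,13,7,1],[0,0,0,0,1],[0,0,0,0,0],[]⟩]⟩,
  ⟨⟨1, [(0,1),(0,3),(0,1),(0,3),(1,1)], [], F.fb⟩, [5,7,5,7,1],
    [⟨4,0,[1,3,2,0,2],[5,7,5,7,1],[0,0,0,0,1],[0,0,0,0,0],[]⟩,
     ⟨4,0,[1,1,2,0,2],[13,7,5,7,1],[0,0,0,0,1],[0,0,0,0,0],[]⟩,
     ⟨4,0,[1,3,2,0,2],[5,7,13,7,1],[0,0,0,0,1],[0,0,0,0,0],[]⟩,
     ⟨4,0,[1,1,2,0,2],[13,7,13,7,1],[0,0,0,0,1],[0,0,0,0,0],[]⟩]⟩]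
def T35 : Tree := ⟨[1,3,1,3,5], n35_0, []⟩
def n36_0 : List NX := [
  ⟨⟨4, [(0,1),(1,1),(2,1),(3,1),(4,1)], [], F.fb⟩, [5,5,7,7,1],
    [⟨2,0,[1,1,0,2,1],[5,5,7,7,1],[0,0,0,0,1],[0,0,0,0,0],[]⟩,
     ⟨2,0,[1,1,0,2,1],[13,5,7,7,1],[0,0,0,0,1],[0,0,0,0,0],[]⟩,
     ⟨2,0,[1,1,0,2,1],[5,5,15,7,1],[0,0,0,0,1],[0,0,0,0,0],[]⟩,
     ⟨2,0,[1,1,0,2,1],[13,5,15,7,1],[0,0,0,0,1],[0,0,0,0,0],[]⟩]⟩]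
def T36 : Tree := ⟨[1,1,3,3,5], n36_0, []⟩
def n37_0 : List NX := [
  ⟨⟨4, [(0,1),(1,1),(2,1),(3,1),(4,1)], [], F.fb⟩, [5,5,5,1,1],
    [⟨2,0,[1,1,0,2,1],[5,5,5,1,1],[0,0,0,0,1],[0,0,0,0,0],[]⟩,
     ⟨2,0,[1,1,0,2,1],[13,5,5,1,1],[0,0,0,0,1],[0,0,0,0,0],[]⟩,
     ⟨2,0,[1,1,0,2,1],[5,5,13,1,1],[0,0,0,0,1],[0,0,0,0,0],[]⟩,
     ⟨2,0,[1,1,0,2,1],[13,5,13,1,1],[0,0,0,0,1],[0,0,0,0,0],[]⟩]⟩]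
def T37 : Tree := ⟨[1,1,1,5,5], n37_0, []⟩
def n38_0 : List NX := [
  ⟨⟨1, [(0,1),(1,1),(2,1),(3,1),(4,1)], [[(0,1),(0,3),(0,1),(1,1),(2,1)],[(0,1),(0,3),(1,1),(2,1),(3,1)]], F.fb⟩, [3,1,3,7,7],
    [⟨2,1,[1,1,0,2,0],[3,1,3,7,7],[0,1,0,0,0],[0,0,0,0,0],[]⟩,
     ⟨2,1,[1,1,0,2,0],[11,1,3,7,7],[0,1,0,0,0],[0,0,0,0,0],[]⟩,
     ⟨2,1,[1,1,0,2,0],[3,1,11,7,7],[0,1,0,0,0],[0,0,0,0,0],[]⟩,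
     ⟨2,1,[1,1,0,2,0],[11,1,11,7,7],[0,1,0,0,0],[0,0,0,0,0],[]⟩]⟩,
  ⟨⟨3, [(0,1),(0,3),(1,1),(2,1),(3,1)], [[(0,1),(0,3),(1,1),(1,5),(1,5)],[(0,1),(0,3),(1,1),(1,13),(1,13)],[(0,1),(0,3),(1,1),(1,21),(1,21)]], F.fb⟩, [5,7,5,1,1],
    [⟨2,0,[0,0,1,1,1],[5,7,5,1,1],[0,0,0,0,1],[0,0,0,0,0],[]⟩,
     ⟨2,0,[0,0,1,1,1],[13,7,5,1,1],[0,0,0,0,1],[0,0,0,0,0],[]⟩,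
     ⟨2,0,[0,0,1,1,1],[5,7,13,1,1],[0,0,0,0,1],[0,0,0,0,0],[]⟩,
     ⟨2,0,[0,0,1,1,1],[13,7,13,1,1],[0,0,0,0,1],[0,0,0,0,0],[]⟩]⟩,
  ⟨⟨2, [(0,1),(0,3),(0,1),(1,1),(2,1)], [[(0,1),(0,3),(0,1),(0,5),(0,5)],[(0,1),(0,3),(0,1),(0,13),(0,13)],[(0,1),(0,3),(0,1),(0,21),(0,21)]], F.fb⟩, [5,7,5,1,1],
    [⟨2,0,[0,0,1,1,1],[5,7,5,1,1],[0,0,0,0,1],[0,0,0,0,0],[]⟩,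
     ⟨2,0,[0,0,1,1,1],[13,7,5,1,1],[0,0,0,0,1],[0,0,0,0,0],[]⟩,
     ⟨2,0,[0,0,1,1,1],[5,7,13,1,1],[0,0,0,0,1],[0,0,0,0,0],[]⟩,
     ⟨2,0,[0,0,1,1,1],[13,7,13,1,1],[0,0,0,0,1],[0,0,0,0,0],[]⟩]⟩,
  ⟨⟨1, [(0,1),(0,3),(1,1),(1,5),(1,5)], [[(0,1),(0,3),(0,1),(0,5),(0,5)]], F.fb⟩, [1,3,1,5,5],
    [⟨4,0,[1,1,2,0,2],[1,3,1,5,5],[0,0,1,0,0],[0,0,0,0,0],[]⟩,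
     ⟨4,0,[1,3,2,0,2],[9,3,1,5,5],[0,0,1,0,0],[0,0,0,0,0],[]⟩,
     ⟨4,0,[1,1,2,0,2],[1,3,9,5,5],[0,0,1,0,0],[0,0,0,0,0],[]⟩,
     ⟨4,0,[1,3,2,0,2],[9,3,9,5,5],[0,0,1,0,0],[0,0,0,0,0],[]⟩]⟩,
  ⟨⟨1, [(0,1),(0,3),(1,1),(1,13),(1,13)], [], F.fb⟩, [1,3,1,5,5],
    [⟨2,0,[0,0,1,1,1],[1,3,1,5,5],[0,0,0,13,0],[0,0,1,0,0],[]⟩,
     ⟨2,0,[0,0,1,1,1],[9,3,1,5,5],[0,0,0,13,0],[0,0,1,0,0],[]⟩,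
     ⟨2,0,[0,0,1,1,1],[1,3,9,5,5],[0,0,0,13,0],[0,0,1,0,0],[]⟩,
     ⟨2,0,[0,0,1,1,1],[9,3,9,5,5],[0,0,0,13,0],[0,0,1,0,0],[]⟩]⟩,
  ⟨⟨1, [(0,1),(0,3),(1,1),(1,21),(1,21)], [], F.fb⟩, [1,3,1,5,5],
    [⟨2,0,[0,0,1,1,1],[1,3,1,5,5],[0,0,1,7,0],[0,0,0,0,0],[]⟩,
     ⟨2,0,[0,0,1,1,1],[9,3,1,5,5],[0,0,1,7,0],[0,0,0,0,0],[]⟩,
     ⟨2,0,[0,0,1,1,1],[1,3,9,5,5],[0,0,1,7,0],[0,0,0,0,0],[]⟩,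
     ⟨2,0,[0,0,1,1,1],[9,3,9,5,5],[0,0,1,7,0],[0,0,0,0,0],[]⟩]⟩,
  ⟨⟨0, [(0,1),(0,3),(0,1),(0,13),(0,13)], [], F.fb⟩, [1,3,1,5,5],
    [⟨2,0,[0,0,1,1,1],[1,3,9,5,5],[0,0,0,13,0],[0,0,1,0,0],[]⟩]⟩,
  ⟨⟨0, [(0,1),(0,3),(0,1),(0,21),(0,21)], [], F.fb⟩, [1,3,1,5,5],
    [⟨2,0,[0,0,1,1,1],[1,3,1,5,5],[0,0,1,7,0],[0,0,0,0,0],[]⟩]⟩]
def T38 : Tree := ⟨[1,3,1,5,5], n38_0, [[(0,1),(0,3),(0,1),(0,5),(0,5)]]⟩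
def n39_0 : List NX := [
  ⟨⟨4, [(0,1),(1,1),(2,1),(3,1),(4,1)], [], F.fb⟩, [5,5,7,1,1],
    [⟨2,0,[1,1,0,2,1],[5,5,7,1,1],[0,0,0,0,1],[0,0,0,0,0],[]⟩,
     ⟨2,0,[1,1,0,2,1],[13,5,7,1,1],[0,0,0,0,1],[0,0,0,0,0],[]⟩,
     ⟨2,0,[1,1,0,2,1],[5,5,15,1,1],[0,0,0,0,1],[0,0,0,0,0],[]⟩,
     ⟨2,0,[1,1,0,2,1],[13,5,15,1,1],[0,0,0,0,1],[0,0,0,0,0],[]⟩]⟩]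
def T39 : Tree := ⟨[1,1,3,5,5], n39_0, []⟩
def n40_0 : List NX := [
  ⟨⟨4, [(0,1),(1,1),(2,1),(3,1),(4,1)], [], F.fb⟩, [5,5,5,3,1],
    [⟨2,0,[1,1,0,2,1],[5,5,5,3,1],[0,0,0,0,1],[0,0,0,0,0],[]⟩,
     ⟨2,0,[1,1,0,2,1],[13,5,5,3,1],[0,0,0,0,1],[0,0,0,0,0],[]⟩,
     ⟨2,0,[1,1,0,2,1],[5,5,13,3,1],[0,0,0,0,1],[0,0,0,0,0],[]⟩,
     ⟨2,0,[1,1,0,2,1],[13,5,13,3,1],[0,0,0,0,1],[0,0,0,0,0],[]⟩]⟩]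
def T40 : Tree := ⟨[1,1,1,7,5], n40_0, []⟩
def n41_0 : List NX := [
  ⟨⟨3, [(0,1),(1,1),(2,1),(3,1),(4,1)], [[(0,1),(1,1),(2,1),(2,7),(3,1)],[(0,1),(1,1),(2,1),(2,15),(3,1)]], F.fb⟩, [7,5,7,1,3],
    [⟨2,0,[0,0,1,1,0],[7,5,7,1,3],[0,0,0,1,0],[0,0,0,0,0],[]⟩,
     ⟨2,0,[0,0,1,1,0],[15,5,7,1,3],[0,0,0,1,0],[0,0,0,0,0],[]⟩,
     ⟨2,0,[0,0,1,1,0],[7,5,15,1,3],[0,0,0,1,0],[0,0,0,0,0],[]⟩,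
     ⟨2,0,[0,0,1,1,0],[15,5,15,1,3],[0,0,0,1,0],[0,0,0,0,0],[]⟩]⟩,
  ⟨⟨1, [(0,1),(1,1),(2,1),(2,7),(3,1)], [[(0,1),(0,3),(0,1),(0,7),(1,1)],[(0,1),(0,11),(0,1),(0,7),(1,1)],[(0,1),(0,3),(1,1),(1,7),(2,1)]], F.fb⟩, [3,1,3,5,7],
    [⟨2,0,[1,1,0,2,0],[3,1,3,5,7],[0,1,0,0,0],[0,0,0,0,0],[]⟩,
     ⟨2,0,[1,1,0,2,0],[11,1,3,5,7],[0,1,0,0,0],[0,0,0,0,0],[]⟩,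
     ⟨2,0,[1,1,0,2,0],[3,1,11,5,7],[0,1,0,0,0],[0,0,0,0,0],[]⟩,
     ⟨2,0,[1,1,0,2,0],[11,1,11,5,7],[0,1,0,0,0],[0,0,0,0,0],[]⟩]⟩,
  ⟨⟨1, [(0,1),(1,1),(2,1),(2,15),(3,1)], [[(0,1),(0,3),(0,1),(0,15),(1,1)],[(0,1),(0,11),(0,1),(0,15),(1,1)],[(0,1),(0,3),(1,1),(1,15),(2,1)]], F.fb⟩, [3,1,3,5,7],
    [⟨2,0,[1,1,0,2,0],[3,1,3,5,7],[0,1,0,0,0],[0,0,0,0,0],[]⟩,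
     ⟨2,0,[1,1,0,2,0],[11,1,3,5,7],[0,1,0,0,0],[0,0,0,0,0],[]⟩,
     ⟨2,0,[1,1,0,2,0],[3,1,11,5,7],[0,1,0,0,0],[0,0,0,0,0],[]⟩,
     ⟨2,0,[1,1,0,2,0],[11,1,11,5,7],[0,1,0,0,0],[0,0,0,0,0],[]⟩]⟩,
  ⟨⟨2, [(0,1),(0,3),(1,1),(1,7),(2,1)], [], F.fb⟩, [5,7,5,3,1],
    [⟨4,0,[1,3,2,0,2],[5,7,5,3,1],[0,0,0,0,1],[0,0,0,0,0],[]⟩,
     ⟨4,0,[1,1,2,0,2],[13,7,5,3,1],[0,0,0,0,1],[0,0,0,0,0],[]⟩,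
     ⟨4,0,[2,2,1,3,2],[5,7,13,3,1],[0,0,0,0,1],[0,0,0,0,0],[]⟩,
     ⟨4,0,[2,2,1,3,2],[13,7,13,3,1],[0,0,0,0,1],[0,0,0,0,0],[]⟩]⟩,
  ⟨⟨2, [(0,1),(0,3),(1,1),(1,15),(2,1)], [], F.fb⟩, [5,7,5,3,1],
    [⟨4,0,[1,3,2,0,2],[5,7,5,3,1],[0,0,0,0,1],[0,0,0,0,0],[]⟩,
     ⟨4,0,[1,1,2,0,2],[13,7,5,3,1],[0,0,0,0,1],[0,0,0,0,0],[]⟩,
     ⟨4,0,[2,2,1,3,2],[5,7,13,3,1],[0,0,0,0,1],[0,0,0,0,0],[]⟩,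
     ⟨4,0,[2,2,1,3,2],[13,7,13,3,1],[0,0,0,0,1],[0,0,0,0,0],[]⟩]⟩,
  ⟨⟨1, [(0,1),(0,3),(0,1),(0,7),(1,1)], [], F.fb⟩, [5,7,5,3,1],
    [⟨4,0,[1,3,2,0,2],[5,7,5,3,1],[0,0,0,0,1],[0,0,0,0,0],[]⟩,
     ⟨4,0,[1,1,2,0,2],[13,7,5,3,1],[0,0,0,0,1],[0,0,0,0,0],[]⟩,
     ⟨4,0,[1,3,2,0,2],[5,7,13,3,1],[0,0,0,0,1],[0,0,0,0,0],[]⟩,
     ⟨4,0,[1,1,2,0,2],[13,7,13,3,1],[0,0,0,0,1],[0,0,0,0,0],[]⟩]⟩,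
  ⟨⟨1, [(0,1),(0,3),(0,1),(0,15),(1,1)], [], F.fb⟩, [5,7,5,3,1],
    [⟨4,0,[1,3,2,0,2],[5,7,5,3,1],[0,0,0,0,1],[0,0,0,0,0],[]⟩,
     ⟨4,0,[1,1,2,0,2],[13,7,5,3,1],[0,0,0,0,1],[0,0,0,0,0],[]⟩,
     ⟨4,0,[1,3,2,0,2],[5,7,13,3,1],[0,0,0,0,1],[0,0,0,0,0],[]⟩,
     ⟨4,0,[1,1,2,0,2],[13,7,13,3,1],[0,0,0,0,1],[0,0,0,0,0],[]⟩]⟩,
  ⟨⟨0, [(0,1),(0,11),(0,1),(0,7),(1,1)], [], F.fb⟩, [1,3,1,7,5],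
    [⟨2,0,[1,1,0,2,0],[1,3,1,7,5],[1,0,0,0,0],[0,0,0,0,0],[]⟩,
     ⟨2,0,[1,1,0,2,0],[9,3,1,7,5],[1,0,0,0,0],[0,0,0,0,0],[]⟩,
     ⟨2,0,[1,1,0,2,0],[1,3,9,7,5],[1,0,0,0,0],[0,0,0,0,0],[]⟩,
     ⟨2,0,[1,1,0,2,0],[9,3,9,7,5],[1,0,0,0,0],[0,0,0,0,0],[]⟩]⟩,
  ⟨⟨0, [(0,1),(0,11),(0,1),(0,15),(1,1)], [], F.fb⟩, [1,3,1,7,5],
    [⟨2,0,[1,1,0,2,0],[1,3,1,7,5],[1,0,0,0,0],[0,0,0,0,0],[]⟩,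
     ⟨2,0,[1,1,0,2,0],[9,3,1,7,5],[1,0,0,0,0],[0,0,0,0,0],[]⟩,
     ⟨2,0,[1,1,0,2,0],[1,3,9,7,5],[1,0,0,0,0],[0,0,0,0,0],[]⟩,
     ⟨2,0,[1,1,0,2,0],[9,3,9,7,5],[1,0,0,0,0],[0,0,0,0,0],[]⟩]⟩]
def T41 : Tree := ⟨[1,3,1,7,5], n41_0, []⟩
def n42_0 : List NX := [
  ⟨⟨4, [(0,1),(1,1),(2,1),(3,1),(4,1)], [[(0,1),(0,5),(0,1),(0,15),(0,5)]], F.fb⟩, [5,1,5,3,1],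
    [⟨2,0,[1,1,1,1,1],[5,1,5,3,1],[0,0,0,0,1],[0,0,0,0,0],[]⟩,
     ⟨2,0,[1,1,1,1,1],[13,1,5,3,1],[0,0,0,0,1],[0,0,0,0,0],[]⟩,
     ⟨2,0,[1,1,1,1,1],[5,1,13,3,1],[0,0,0,0,1],[0,0,0,0,0],[]⟩,
     ⟨2,0,[1,1,1,1,1],[13,1,13,3,1],[0,0,0,0,1],[0,0,0,0,0],[]⟩]⟩,
  ⟨⟨0, [(0,1),(0,5),(0,1),(0,15),(0,5)], [], F.fb⟩, [1,5,1,7,5],
    [⟨2,0,[1,1,1,1,1],[1,5,9,7,5],[0,5,0,0,0],[1,0,0,0,0],[]⟩]⟩]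
def T42 : Tree := ⟨[1,5,1,7,5], n42_0, []⟩
def n43_0 : List NX := [
  ⟨⟨4, [(0,1),(1,1),(2,1),(3,1),(4,1)], [], F.fb⟩, [5,5,7,3,1],
    [⟨2,0,[1,1,0,2,1],[5,5,7,3,1],[0,0,0,0,1],[0,0,0,0,0],[]⟩,
     ⟨2,0,[1,1,0,2,1],[13,5,7,3,1],[0,0,0,0,1],[0,0,0,0,0],[]⟩,
     ⟨2,0,[1,1,0,2,1],[5,5,15,3,1],[0,0,0,0,1],[0,0,0,0,0],[]⟩,
     ⟨2,0,[1,1,0,2,1],[13,5,15,3,1],[0,0,0,0,1],[0,0,0,0,0],[]⟩]⟩]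
def T43 : Tree := ⟨[1,1,3,7,5], n43_0, []⟩
def n44_0 : List NX := [
  ⟨⟨4, [(0,1),(1,1),(2,1),(3,1),(4,1)], [], F.fb⟩, [5,5,1,3,1],
    [⟨2,0,[1,1,1,1,1],[5,5,1,3,1],[0,0,0,0,1],[0,0,0,0,0],[]⟩,
     ⟨2,0,[1,1,1,1,1],[13,5,1,3,1],[0,0,0,0,1],[0,0,0,0,0],[]⟩,
     ⟨2,0,[1,1,1,1,1],[5,5,9,3,1],[0,0,0,0,1],[0,0,0,0,0],[]⟩,
     ⟨2,0,[1,1,1,1,1],[13,5,9,3,1],[0,0,0,0,1],[0,0,0,0,0],[]⟩]⟩]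
def T44 : Tree := ⟨[1,1,5,7,5], n44_0, []⟩
def n45_0 : List NX := [
  ⟨⟨4, [(0,1),(1,1),(2,1),(3,1),(4,1)], [], F.fb⟩, [7,7,7,7,1],
    [⟨2,0,[1,1,0,0,1],[7,7,7,7,1],[0,0,0,0,1],[0,0,0,0,0],[]⟩,
     ⟨2,0,[1,1,0,0,1],[15,7,7,7,1],[0,0,0,0,1],[0,0,0,0,0],[]⟩,
     ⟨2,0,[1,1,0,0,1],[7,7,15,7,1],[0,0,0,0,1],[0,0,0,0,0],[]⟩,
     ⟨2,0,[1,1,0,0,1],[15,7,15,7,1],[0,0,0,0,1],[0,0,0,0,0],[]⟩]⟩]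
def T45 : Tree := ⟨[1,1,1,1,7], n45_0, []⟩
def n46_0 : List NX := [
  ⟨⟨4, [(0,1),(1,1),(2,1),(3,1),(4,1)], [], F.fb⟩, [7,7,7,5,1],
    [⟨2,0,[1,1,0,0,1],[7,7,7,5,1],[0,0,0,0,1],[0,0,0,0,0],[]⟩,
     ⟨2,0,[1,1,0,0,1],[15,7,7,5,1],[0,0,0,0,1],[0,0,0,0,0],[]⟩,
     ⟨2,0,[1,1,0,0,1],[7,7,15,5,1],[0,0,0,0,1],[0,0,0,0,0],[]⟩,
     ⟨2,0,[1,1,0,0,1],[15,7,15,5,1],[0,0,0,0,1],[0,0,0,0,0],[]⟩]⟩]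
def T46 : Tree := ⟨[1,1,1,3,7], n46_0, []⟩
def n47_0 : List NX := [
  ⟨⟨4, [(0,1),(1,1),(2,1),(3,1),(4,1)], [], F.fb⟩, [7,7,7,3,1],
    [⟨2,0,[1,1,0,0,1],[7,7,7,3,1],[0,0,0,0,1],[0,0,0,0,0],[]⟩,
     ⟨2,0,[1,1,0,0,1],[15,7,7,3,1],[0,0,0,0,1],[0,0,0,0,0],[]⟩,
     ⟨2,0,[1,1,0,0,1],[7,7,15,3,1],[0,0,0,0,1],[0,0,0,0,0],[]⟩,
     ⟨2,0,[1,1,0,0,1],[15,7,15,3,1],[0,0,0,0,1],[0,0,0,0,0],[]⟩]⟩]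
def T47 : Tree := ⟨[1,1,1,5,7], n47_0, []⟩
def n48_0 : List NX := [
  ⟨⟨4, [(0,1),(1,1),(2,1),(3,1),(4,1)], [], F.fb⟩, [7,5,7,3,1],
    [⟨2,0,[1,1,1,1,1],[7,5,7,3,1],[0,0,0,0,1],[0,0,0,0,0],[]⟩,
     ⟨2,0,[1,1,1,1,1],[15,5,7,3,1],[0,0,0,0,1],[0,0,0,0,0],[]⟩,
     ⟨2,0,[1,1,1,1,1],[7,5,15,3,1],[0,0,0,0,1],[0,0,0,0,0],[]⟩,
     ⟨2,0,[1,1,1,1,1],[15,5,15,3,1],[0,0,0,0,1],[0,0,0,0,0],[]⟩]⟩]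
def T48 : Tree := ⟨[1,3,1,5,7], n48_0, []⟩
def n49_0 : List NX := [
  ⟨⟨4, [(0,1),(1,1),(2,1),(3,1),(4,1)], [], F.fb⟩, [7,7,5,3,1],
    [⟨2,0,[1,1,1,1,1],[7,7,5,3,1],[0,0,0,0,1],[0,0,0,0,0],[]⟩,
     ⟨2,0,[1,1,1,1,1],[15,7,5,3,1],[0,0,0,0,1],[0,0,0,0,0],[]⟩,
     ⟨2,0,[1,1,1,1,1],[7,7,13,3,1],[0,0,0,0,1],[0,0,0,0,0],[]⟩,
     ⟨2,0,[1,1,1,1,1],[15,7,13,3,1],[0,0,0,0,1],[0,0,0,0,0],[]⟩]⟩]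
def T49 : Tree := ⟨[1,1,3,5,7], n49_0, []⟩
def n50_0 : List NX := [
  ⟨⟨4, [(0,1),(1,1),(2,1),(3,1),(4,1)], [], F.fb⟩, [7,7,7,1,1],
    [⟨2,0,[1,1,1,1,1],[7,7,7,1,1],[0,0,0,0,1],[0,0,0,0,0],[]⟩,
     ⟨2,0,[1,1,1,1,1],[15,7,7,1,1],[0,0,0,0,1],[0,0,0,0,0],[]⟩,
     ⟨2,0,[1,1,1,1,1],[7,7,15,1,1],[0,0,0,0,1],[0,0,0,0,0],[]⟩,
     ⟨2,0,[1,1,1,1,1],[15,7,15,1,1],[0,0,0,0,1],[0,0,0,0,0],[]⟩]⟩]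
def T50 : Tree := ⟨[1,1,1,7,7], n50_0, []⟩
def n51_0 : List NX := [
  ⟨⟨3, [(0,1),(1,1),(2,1),(3,1),(4,1)], [[(0,1),(1,1),(2,1),(2,7),(2,7)],[(0,1),(1,1),(2,1),(2,7),(3,1)],[(0,1),(1,1),(2,1),(2,15),(3,1)]], F.fb⟩, [7,5,7,1,1],
    [⟨2,0,[0,0,1,1,0],[7,5,7,1,1],[0,0,0,1,0],[0,0,0,0,0],[]⟩,
     ⟨2,0,[0,0,1,1,0],[15,5,7,1,1],[0,0,0,1,0],[0,0,0,0,0],[]⟩,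
     ⟨2,0,[0,0,1,1,0],[7,5,15,1,1],[0,0,0,1,0],[0,0,0,0,0],[]⟩,
     ⟨2,0,[0,0,1,1,0],[15,5,15,1,1],[0,0,0,1,0],[0,0,0,0,0],[]⟩]⟩,
  ⟨⟨1, [(0,1),(1,1),(2,1),(2,7),(3,1)], [[(0,1),(0,3),(0,1),(0,7),(1,1)],[(0,1),(0,11),(0,1),(0,7),(1,1)],[(0,1),(0,3),(1,1),(1,7),(2,1)]], F.fb⟩, [3,1,3,5,5],
    [⟨2,0,[1,1,0,2,0],[3,1,3,5,5],[0,1,0,0,0],[0,0,0,0,0],[]⟩,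
     ⟨2,0,[1,1,0,2,0],[11,1,3,5,5],[0,1,0,0,0],[0,0,0,0,0],[]⟩,
     ⟨2,0,[1,1,0,2,0],[3,1,11,5,5],[0,1,0,0,0],[0,0,0,0,0],[]⟩,
     ⟨2,0,[1,1,0,2,0],[11,1,11,5,5],[0,1,0,0,0],[0,0,0,0,0],[]⟩]⟩,
  ⟨⟨1, [(0,1),(1,1),(2,1),(2,15),(3,1)], [[(0,1),(0,3),(0,1),(0,15),(1,1)],[(0,1),(0,11),(0,1),(0,15),(1,1)],[(0,1),(0,3),(1,1),(1,15),(2,1)]], F.fb⟩, [3,1,3,5,5],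
    [⟨2,0,[1,1,0,2,0],[3,1,3,5,5],[0,1,0,0,0],[0,0,0,0,0],[]⟩,
     ⟨2,0,[1,1,0,2,0],[11,1,3,5,5],[0,1,0,0,0],[0,0,0,0,0],[]⟩,
     ⟨2,0,[1,1,0,2,0],[3,1,11,5,5],[0,1,0,0,0],[0,0,0,0,0],[]⟩,
     ⟨2,0,[1,1,0,2,0],[11,1,11,5,5],[0,1,0,0,0],[0,0,0,0,0],[]⟩]⟩,
  ⟨⟨2, [(0,1),(0,3),(1,1),(1,7),(2,1)], [[(0,1),(0,3),(1,1),(1,7),(1,7)]], F.fb⟩, [7,5,7,1,1],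
    [⟨4,0,[2,2,1,1,2],[7,5,7,1,1],[0,0,0,0,1],[0,0,0,0,0],[]⟩,
     ⟨4,0,[2,2,1,1,2],[15,5,7,1,1],[0,0,0,0,1],[0,0,0,0,0],[]⟩,
     ⟨4,0,[2,2,1,3,2],[7,5,15,1,1],[0,0,0,0,1],[0,0,0,0,0],[]⟩,
     ⟨4,0,[2,2,1,3,2],[15,5,15,1,1],[0,0,0,0,1],[0,0,0,0,0],[]⟩]⟩,
  ⟨⟨2, [(0,1),(0,3),(1,1),(1,15),(2,1)], [[(0,1),(0,3),(0,1),(0,15),(0,15)]], F.fb⟩, [7,5,7,1,1],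
    [⟨4,0,[2,2,1,1,2],[7,5,7,1,1],[0,0,0,0,1],[0,0,0,0,0],[]⟩,
     ⟨4,0,[2,2,1,1,2],[15,5,7,1,1],[0,0,0,0,1],[0,0,0,0,0],[]⟩,
     ⟨4,0,[2,2,1,3,2],[7,5,15,1,1],[0,0,0,0,1],[0,0,0,0,0],[]⟩,
     ⟨4,0,[2,2,1,3,2],[15,5,15,1,1],[0,0,0,0,1],[0,0,0,0,0],[]⟩]⟩,
  ⟨⟨1, [(0,1),(1,1),(2,1),(2,7),(2,7)], [[(0,1),(0,3),(0,1),(0,7),(0,7)],[(0,1),(0,11),(0,1),(0,7),(0,7)],[(0,1),(0,3),(1,1),(1,7),(1,7)]], F.fb⟩, [3,1,3,5,5],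
    [⟨2,0,[1,1,0,2,0],[3,1,3,5,5],[0,1,0,0,0],[0,0,0,0,0],[]⟩,
     ⟨2,0,[1,1,0,2,0],[11,1,3,5,5],[0,1,0,0,0],[0,0,0,0,0],[]⟩,
     ⟨2,0,[1,1,0,2,0],[3,1,11,5,5],[0,1,0,0,0],[0,0,0,0,0],[]⟩,
     ⟨2,0,[1,1,0,2,0],[11,1,11,5,5],[0,1,0,0,0],[0,0,0,0,0],[]⟩]⟩,
  ⟨⟨1, [(0,1),(0,3),(0,1),(0,7),(1,1)], [[(0,1),(0,3),(0,1),(0,7),(0,7)]], F.fb⟩, [7,5,7,1,1],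
    [⟨4,0,[1,1,2,0,2],[7,5,7,1,1],[0,0,0,0,1],[0,0,0,0,0],[]⟩,
     ⟨4,0,[1,1,0,2,2],[15,5,7,1,1],[0,0,0,0,1],[0,0,0,0,0],[]⟩,
     ⟨4,0,[1,1,2,0,2],[7,5,15,1,1],[0,0,0,0,1],[0,0,0,0,0],[]⟩,
     ⟨4,0,[1,1,0,2,2],[15,5,15,1,1],[0,0,0,0,1],[0,0,0,0,0],[]⟩]⟩,
  ⟨⟨1, [(0,1),(0,3),(0,1),(0,15),(1,1)], [[(0,1),(0,3),(0,1),(0,15),(0,15)]], F.fb⟩, [7,5,7,1,1],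
    [⟨4,0,[1,3,0,2,2],[7,5,7,1,1],[0,0,0,0,1],[0,0,0,0,0],[]⟩,
     ⟨4,0,[2,2,1,1,2],[15,5,7,1,1],[0,0,0,0,1],[0,0,0,0,0],[]⟩,
     ⟨4,0,[1,3,0,2,2],[7,5,15,1,1],[0,0,0,0,1],[0,0,0,0,0],[]⟩,
     ⟨4,0,[1,3,2,0,2],[15,5,15,1,1],[0,0,0,0,1],[0,0,0,0,0],[]⟩]⟩,
  ⟨⟨0, [(0,1),(0,11),(0,1),(0,7),(1,1)], [], F.fb⟩, [1,3,1,7,7],
    [⟨2,0,[1,1,0,2,0],[1,3,1,7,7],[1,0,0,0,0],[0,0,0,0,0],[]⟩,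
     ⟨2,0,[1,1,0,2,0],[9,3,1,7,7],[1,0,0,0,0],[0,0,0,0,0],[]⟩,
     ⟨2,0,[1,1,0,2,0],[1,3,9,7,7],[1,0,0,0,0],[0,0,0,0,0],[]⟩,
     ⟨2,0,[1,1,0,2,0],[9,3,9,7,7],[1,0,0,0,0],[0,0,0,0,0],[]⟩]⟩,
  ⟨⟨0, [(0,1),(0,11),(0,1),(0,15),(1,1)], [], F.fb⟩, [1,3,1,7,7],
    [⟨2,0,[1,1,0,2,0],[1,3,1,7,7],[1,0,0,0,0],[0,0,0,0,0],[]⟩,
     ⟨2,0,[1,1,0,2,0],[9,3,1,7,7],[1,0,0,0,0],[0,0,0,0,0],[]⟩,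
     ⟨2,0,[1,1,0,2,0],[1,3,9,7,7],[1,0,0,0,0],[0,0,0,0,0],[]⟩,
     ⟨2,0,[1,1,0,2,0],[9,3,9,7,7],[1,0,0,0,0],[0,0,0,0,0],[]⟩]⟩,
  ⟨⟨1, [(0,1),(0,3),(1,1),(1,7),(1,7)], [[(0,1),(0,3),(0,1),(0,7),(0,7)]], F.fb⟩, [1,3,1,7,7],
    [⟨4,0,[1,1,2,0,2],[1,3,1,7,7],[0,0,1,0,0],[0,0,0,0,0],[]⟩,
     ⟨4,0,[1,3,2,0,2],[9,3,1,7,7],[0,0,1,0,0],[0,0,0,0,0],[]⟩,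
     ⟨4,0,[2,2,1,3,2],[1,3,9,7,7],[0,0,0,0,1],[0,0,0,0,0],[]⟩,
     ⟨4,0,[2,2,1,3,2],[9,3,9,7,7],[0,0,0,0,1],[0,0,0,0,0],[]⟩]⟩,
  ⟨⟨0, [(0,1),(0,3),(0,1),(0,7),(0,7)], [], F.fb⟩, [1,3,1,7,7],
    [⟨4,0,[1,3,0,2,2],[1,3,1,7,7],[3,3,0,14,0],[0,0,0,0,0],[]⟩]⟩,
  ⟨⟨0, [(0,1),(0,11),(0,1),(0,7),(0,7)], [], F.fb⟩, [1,3,1,7,7],
    [⟨2,0,[1,1,0,2,0],[9,3,1,7,7],[1,0,0,0,0],[0,0,0,0,0],[]⟩]⟩]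
def T51 : Tree := ⟨[1,3,1,7,7], n51_0, [[(0,1),(0,3),(0,1),(0,15),(0,15)]]⟩
def n52_0 : List NX := [
  ⟨⟨4, [(0,1),(1,1),(2,1),(3,1),(4,1)], [[(0,1),(0,21),(1,1),(0,7),(0,7)]], F.fb⟩, [7,3,7,1,1],
    [⟨2,0,[1,1,0,2,1],[7,3,7,1,1],[0,0,0,0,1],[0,0,0,0,0],[]⟩,
     ⟨2,0,[1,1,0,2,1],[15,3,7,1,1],[0,0,0,0,1],[0,0,0,0,0],[]⟩,
     ⟨2,0,[1,1,0,2,1],[7,3,15,1,1],[0,0,0,0,1],[0,0,0,0,0],[]⟩,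
     ⟨2,0,[1,1,0,2,1],[15,3,15,1,1],[0,0,0,0,1],[0,0,0,0,0],[]⟩]⟩,
  ⟨⟨0, [(0,1),(0,21),(1,1),(0,7),(0,7)], [], F.fb⟩, [1,5,1,7,7],
    [⟨2,0,[1,1,0,2,1],[1,5,1,7,7],[1,7,0,0,0],[0,0,0,0,0],[]⟩,
     ⟨2,0,[1,1,0,2,1],[9,5,1,7,7],[1,7,0,0,0],[0,0,0,0,0],[]⟩,
     ⟨2,0,[1,1,0,2,1],[1,5,9,7,7],[1,7,0,0,0],[0,0,0,0,0],[]⟩,
     ⟨2,0,[1,1,0,2,1],[9,5,9,7,7],[1,7,0,0,0],[0,0,0,0,0],[]⟩]⟩]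
def T52 : Tree := ⟨[1,5,1,7,7], n52_0, []⟩
def n53_0 : List NX := [
  ⟨⟨4, [(0,1),(1,1),(2,1),(3,1),(4,1)], [], F.fb⟩, [7,7,5,1,1],
    [⟨2,0,[1,1,0,0,1],[7,7,5,1,1],[0,0,0,0,1],[0,0,0,0,0],[]⟩,
     ⟨2,0,[1,1,0,0,1],[15,7,5,1,1],[0,0,0,0,1],[0,0,0,0,0],[]⟩,
     ⟨2,0,[1,1,0,0,1],[7,7,13,1,1],[0,0,0,0,1],[0,0,0,0,0],[]⟩,
     ⟨2,0,[1,1,0,0,1],[15,7,13,1,1],[0,0,0,0,1],[0,0,0,0,0],[]⟩]⟩]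
def T53 : Tree := ⟨[1,1,3,7,7], n53_0, []⟩
def n54_0 : List NX := [
  ⟨⟨4, [(0,1),(1,1),(2,1),(3,1),(4,1)], [], F.fb⟩, [7,7,3,1,1],
    [⟨2,0,[1,1,0,0,1],[7,7,3,1,1],[0,0,0,0,1],[0,0,0,0,0],[]⟩,
     ⟨2,0,[1,1,0,0,1],[15,7,3,1,1],[0,0,0,0,1],[0,0,0,0,0],[]⟩,
     ⟨2,0,[1,1,0,0,1],[7,7,11,1,1],[0,0,0,0,1],[0,0,0,0,0],[]⟩,
     ⟨2,0,[1,1,0,0,1],[15,7,11,1,1],[0,0,0,0,1],[0,0,0,0,0],[]⟩]⟩]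
def T54 : Tree := ⟨[1,1,5,7,7], n54_0, []⟩
def trees : List Tree := [T0, T1, T2, T3, T4, T5, T6, T7, T8, T9, T10, T11, T12, T13, T14, T15, T16, T17, T18, T19, T20, T21, T22, T23, T24, T25, T26, T27, T28, T29, T30, T31, T32, T33, T34, T35, T36, T37, T38, T39, T40, T41, T42, T43, T44, T45, T46, T47, T48, T49, T50, T51, T52, T53, T54]
def cands : List (List Nat × Nat) := [([1,3,1,3,1], 1), ([1,3,1,3,1], 3), ([1,3,1,5,1], 1), ([1,3,1,5,5], 1), ([1,3,1,5,5], 5), ([1,3,1,15,3], 1), ([1,3,1,15,3], 3), ([1,3,1,15,15], 1), ([1,3,1,15,15], 3), ([1,3,1,15,15], 5), ([1,3,1,15,15], 15), ([1,5,1,5,1], 1), ([1,5,1,5,1], 5)]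
def cert : List (Nat × Nat) := [(0,0),(1,5),(4,5),(10,5),(1,4),(3,4),(7,5),(14,5),(4,4),(7,4),(9,4),(16,5),(10,4),(14,4),(16,4),(18,4),(1,1),(2,3),(5,7),(11,7),(2,1),(20,0),(27,5),(22,5),(5,6),(27,4),(44,1),(17,7),(11,6),(22,4),(17,6),(54,0),(4,1),(5,3),(6,3),(12,7),(5,1),(30,1),(42,4),(15,7),(6,1),(42,5),(37,0),(38,2),(12,6),(15,6),(38,0),(53,0),(10,1),(11,3),(12,3),(13,3),(11,1),(24,1),(8,7),(52,0),(12,1),(8,6),(39,0),(51,0),(13,1),(52,2),(51,2),(50,0),(1,0),(2,2),(5,5),(11,5),(2,0),(20,1),(27,7),(22,7),(5,4),(27,6),(44,0),(17,5),(11,4),(22,6),(17,4),(54,1),(3,0),(20,4),(30,5),(24,5),(20,5),(19,0),(26,5),(21,5),(30,4),(26,4),(32,4),(31,4),(24,4),(21,4),(31,5),(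25,4),(7,1),(27,1),(42,0),(8,3),(27,3),(26,1),(29,3),(28,3),(42,2),(29,1),(40,0),(41,2),(8,1),(28,1),(41,0),(49,0),(14,1),(22,1),(15,3),(52,4),(22,3),(21,1),(28,7),(23,3),(15,1),(28,6),(43,0),(48,0),(52,5),(23,1),(48,2),(47,0),(4,0),(5,2),(6,2),(12,5),(5,0),(30,0),(42,6),(15,5),(6,0),(42,7),(37,1),(38,3),(12,4),(15,4),(38,1),(53,1),(7,0),(27,0),(42,1),(8,2),(27,2),(26,0),(29,2),(28,2),(42,3),(29,0),(40,1),(41,3),(8,0),(28,0),(41,1),(49,1),(9,0),(44,5),(37,4),(39,4),(44,4),(32,0),(40,4),(43,4),(37,5),(40,5),(33,0),(34,5),(39,5),(43,5),(34,4),(36,4),(16,1),(17,3),(38,6),(51,4),(17,1),(31,0),(41,6),(48,4),(38,7),(41,7),(34,1),(35,3),(51,5),(48,5),(35,1),(46,0),(10,0)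,(11,2),(12,2),(13,2),(11,0),(24,0),(8,5),(52,1),(12,0),(8,4),(39,1),(51,1),(13,0),(52,3),(51,3),(50,1),(14,0),(22,0),(15,2),(52,6),(22,2),(21,0),(28,5),(23,2),(15,0),(28,4),(43,1),(48,1),(52,7),(23,0),(48,3),(47,1),(16,0),(17,2),(38,4),(51,6),(17,0),(31,1),(41,4),(48,6),(38,5),(41,5),(34,0),(35,2),(51,7),(48,7),(35,0),(46,1),(18,0),(54,4),(53,4),(50,4),(54,5),(25,0),(49,4),(47,4),(53,5),(49,5),(36,0),(46,4),(50,5),(47,5),(46,5),(45,0),(19,0),(20,5),(21,5),(26,5),(20,4),(3,0),(24,5),(30,5),(21,4),(24,4),(25,4),(31,5),(26,4),(30,4),(31,4),(32,4),(20,1),(2,0),(22,7),(27,7),(2,2),(1,0),(11,5),(5,5),(22,6),(11,4),(54,1),(17,4),(27,6),(5,4),(17,5),(44,0),(21,1),(22,3),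(23,3),(28,7),(22,1),(14,1),(52,4),(15,3),(23,1),(52,5),(47,0),(48,2),(28,6),(15,1),(48,0),(43,0),(26,1),(27,3),(28,3),(29,3),(27,1),(7,1),(8,3),(42,0),(28,1),(8,1),(49,0),(41,0),(29,1),(42,2),(41,2),(40,0),(20,0),(2,1),(22,5),(27,5),(2,3),(1,1),(11,7),(5,7),(22,4),(11,6),(54,0),(17,6),(27,4),(5,6),(17,7),(44,1),(3,4),(1,4),(14,5),(7,5),(1,5),(0,0),(10,5),(4,5),(14,4),(10,4),(18,4),(16,4),(7,4),(4,4),(16,5),(9,4),(24,1),(11,1),(52,0),(8,7),(11,3),(10,1),(13,3),(12,3),(52,2),(13,1),(50,0),(51,2),(8,6),(12,1),(51,0),(39,0),(30,1),(5,1),(15,7),(42,4),(5,3),(4,1),(12,7),(6,3),(15,6),(12,6),(53,0),(38,0),(42,5),(6,1),(38,2),(37,0),(21,0),(22,2),(23,2),(28,5),(22,0),(14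,0),(52,6),(15,2),(23,0),(52,7),(47,1),(48,3),(28,4),(15,0),(48,1),(43,1),(24,0),(11,0),(52,1),(8,5),(11,2),(10,0),(13,2),(12,2),(52,3),(13,0),(50,1),(51,3),(8,4),(12,0),(51,1),(39,1),(25,0),(54,5),(47,4),(49,4),(54,4),(18,0),(50,4),(53,4),(47,5),(50,5),(45,0),(46,5),(49,5),(53,5),(46,4),(36,0),(31,1),(17,0),(48,6),(41,4),(17,2),(16,0),(51,6),(38,4),(48,7),(51,7),(46,1),(35,0),(41,5),(38,5),(35,2),(34,0),(26,0),(27,2),(28,2),(29,2),(27,0),(7,0),(8,2),(42,1),(28,0),(8,0),(49,1),(41,1),(29,0),(42,3),(41,3),(40,1),(30,0),(5,0),(15,5),(42,6),(5,2),(4,0),(12,5),(6,2),(15,4),(12,4),(53,1),(38,1),(42,7),(6,0),(38,3),(37,1),(31,0),(17,1),(48,4),(41,6),(17,3),(16,1),(51,4)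,(38,6),(48,5),(51,5),(46,0),(35,1),(41,7),(38,7),(35,3),(34,1),(32,0),(44,4),(43,4),(40,4),(44,5),(9,0),(39,4),(37,4),(43,5),(39,5),(36,4),(34,4),(40,5),(37,5),(34,5),(33,0),(33,0),(34,5),(37,5),(40,5),(34,4),(36,4),(39,5),(43,5),(37,4),(39,4),(9,0),(44,5),(40,4),(43,4),(44,4),(32,0),(34,1),(35,3),(38,7),(41,7),(35,1),(46,0),(51,5),(48,5),(38,6),(51,4),(16,1),(17,3),(41,6),(48,4),(17,1),(31,0),(37,1),(38,3),(6,0),(42,7),(38,1),(53,1),(12,4),(15,4),(6,2),(12,5),(4,0),(5,2),(42,6),(15,5),(5,0),(30,0),(40,1),(41,3),(42,3),(29,0),(41,1),(49,1),(8,0),(28,0),(42,1),(8,2),(7,0),(27,0),(29,2),(28,2),(27,2),(26,0),(34,0),(35,2),(38,5),(41,5),(35,0),(46,1),(51,7),(48,7),(3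8,4),(51,6),(16,0),(17,2),(41,4),(48,6),(17,0),(31,1),(36,0),(46,4),(53,5),(49,5),(46,5),(45,0),(50,5),(47,5),(53,4),(50,4),(18,0),(54,4),(49,4),(47,4),(54,5),(25,0),(39,1),(51,1),(12,0),(8,4),(51,3),(50,1),(13,0),(52,3),(12,2),(13,2),(10,0),(11,2),(8,5),(52,1),(11,0),(24,0),(43,1),(48,1),(15,0),(28,4),(48,3),(47,1),(52,7),(23,0),(15,2),(52,6),(14,0),(22,0),(28,5),(23,2),(22,2),(21,0),(37,0),(38,2),(6,1),(42,5),(38,0),(53,0),(12,6),(15,6),(6,3),(12,7),(4,1),(5,3),(42,4),(15,7),(5,1),(30,1),(39,0),(51,0),(12,1),(8,6),(51,2),(50,0),(13,1),(52,2),(12,3),(13,3),(10,1),(11,3),(8,7),(52,0),(11,1),(24,1),(9,4),(16,5),(4,4),(7,4),(16,4),(18,4),(10,4),(14,4),(4,5),(10,5),(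0,0),(1,5),(7,5),(14,5),(1,4),(3,4),(44,1),(17,7),(5,6),(27,4),(17,6),(54,0),(11,6),(22,4),(5,7),(11,7),(1,1),(2,3),(27,5),(22,5),(2,1),(20,0),(40,0),(41,2),(42,2),(29,1),(41,0),(49,0),(8,1),(28,1),(42,0),(8,3),(7,1),(27,1),(29,3),(28,3),(27,3),(26,1),(43,0),(48,0),(15,1),(28,6),(48,2),(47,0),(52,5),(23,1),(15,3),(52,4),(14,1),(22,1),(28,7),(23,3),(22,3),(21,1),(44,0),(17,5),(5,4),(27,6),(17,4),(54,1),(11,4),(22,6),(5,5),(11,5),(1,0),(2,2),(27,7),(22,7),(2,0),(20,1),(32,4),(31,4),(30,4),(26,4),(31,5),(25,4),(24,4),(21,4),(30,5),(24,5),(3,0),(20,4),(26,5),(21,5),(20,5),(19,0),(45,0),(46,5),(47,5),(50,5),(46,4),(36,0),(49,5),(53,5),(47,4),(49,4),(25,0),(54,5),(50,4)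,(53,4),(54,4),(18,0),(46,1),(35,0),(48,7),(51,7),(35,2),(34,0),(41,5),(38,5),(48,6),(41,4),(31,1),(17,0),(51,6),(38,4),(17,2),(16,0),(47,1),(48,3),(23,0),(52,7),(48,1),(43,1),(28,4),(15,0),(23,2),(28,5),(21,0),(22,2),(52,6),(15,2),(22,0),(14,0),(50,1),(51,3),(52,3),(13,0),(51,1),(39,1),(8,4),(12,0),(52,1),(8,5),(24,0),(11,0),(13,2),(12,2),(11,2),(10,0),(46,0),(35,1),(48,5),(51,5),(35,3),(34,1),(41,7),(38,7),(48,4),(41,6),(31,0),(17,1),(51,4),(38,6),(17,3),(16,1),(36,4),(34,4),(43,5),(39,5),(34,5),(33,0),(40,5),(37,5),(43,4),(40,4),(32,0),(44,4),(39,4),(37,4),(44,5),(9,0),(49,1),(41,1),(28,0),(8,0),(41,3),(40,1),(29,0),(42,3),(28,2),(29,2),(26,0),(27,2),(8,2),(42,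1),(27,0),(7,0),(53,1),(38,1),(15,4),(12,4),(38,3),(37,1),(42,7),(6,0),(15,5),(42,6),(30,0),(5,0),(12,5),(6,2),(5,2),(4,0),(47,0),(48,2),(23,1),(52,5),(48,0),(43,0),(28,6),(15,1),(23,3),(28,7),(21,1),(22,3),(52,4),(15,3),(22,1),(14,1),(49,0),(41,0),(28,1),(8,1),(41,2),(40,0),(29,1),(42,2),(28,3),(29,3),(26,1),(27,3),(8,3),(42,0),(27,1),(7,1),(25,4),(31,5),(21,4),(24,4),(31,4),(32,4),(26,4),(30,4),(21,5),(26,5),(19,0),(20,5),(24,5),(30,5),(20,4),(3,0),(54,1),(17,4),(22,6),(11,4),(17,5),(44,0),(27,6),(5,4),(22,7),(27,7),(20,1),(2,0),(11,5),(5,5),(2,2),(1,0),(50,0),(51,2),(52,2),(13,1),(51,0),(39,0),(8,6),(12,1),(52,0),(8,7),(24,1),(11,1),(13,3),(12,3),(11,3),(10,1),(53,0),(38,0),(15,6),(12,6),(38,2),(37,0),(42,5),(6,1),(15,7),(42,4),(30,1),(5,1),(12,7),(6,3),(5,3),(4,1),(54,0),(17,6),(22,4),(11,6),(17,7),(44,1),(27,4),(5,6),(22,5),(27,5),(20,0),(2,1),(11,7),(5,7),(2,3),(1,1),(18,4),(16,4),(14,4),(10,4),(16,5),(9,4),(7,4),(4,4),(14,5),(7,5),(3,4),(1,4),(10,5),(4,5),(1,5),(0,0)]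

end RH6.Q8
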