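import Pool.Agent.RH6.T7
import Pool.Agent.RH6.DQ8
import Pool.Agent.RH6.LQ8
import Pool.Agent.RH6.KDat
import Pool.Agent.RH6.BAll

set_option maxRecDepth 100000

namespace RH6.Q8

def bs : List (List ℕ) := [[1, 1, 0, 0, 0], [0, 2, 0, 0, 0], [0, 0, 1, 1, 0], [0, 0, 0, 2, 0], [0, 0, 0, 0, 1]]

def bi : List (List ℤ) := [[2, -1, 0, 0, 0], [0, 1, 0, 0, 0], [0, 0, 2, -1, 0], [0, 0, 0, 1, 0], [0, 0, 0, 0, 2]]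

theorem basis_ok : basisB X.F.As X.F.code bs bi = true := by decide +kernel

def tab : List (List LfC) := [
  [LfC.good 9 [[2, -2, 0, 1, 1, 1, 1], [-2, 2, -1, 0, -1, -1, -1], [-1, 1, 0, 0, -1, -1, 0], [0, 0, 0, 0, 0, -1, 1], [1, -2, 0, 0, 0, 1, 1], [3, -3, 0, 0, 0, 2, 2], [-2, 2, -1, -1, -1, -1, -1]] [[2, -2, 2, -1, -1, 0, 2], [-2, 2, -2, 1, -1, 1, -2], [-1, 0, 0, 0, 0, 0, -1], [0, 1, 0, 0, 0, 0, -1], [-1, 1, -2, 1, 0, 0, -1], [-3, 3, -3, 1, 0, 1, -3], [-3, 3, -3, 2, 0, 1, -3]],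
    LfC.good 8 [[3, -3, 2, 2, 2, 2, 2], [-17, 18, -8, -10, -14, -12, -12], [-4, 4, -2, -2, -2, -3, -3], [-6, 6, -3, -3, -3, -5, -4], [-9, 9, -5, -6, -7, -6, -6], [-15, 15, -9, -9, -12, -10, -10], [-1, 2, -1, -1, -1, -1, -1]] [[18, -3, 4, 0, 6, 2, 4], [-17, 3, -4, 0, -6, -2, -2], [-4, 1, -1, 0, -1, -1, -1], [-5, 1, -1, 0, -3, 0, -1], [-7, 1, -1, 0, -2, -1, -1], [-18, 3, -3, -1, -6, -2, -3], [-18, 3, -6, 1, -6, -2, -3]]],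
  [LfC.good 16 [[2, -2, 1, 1, 0, 1, 1], [-4, 4, -1, -2, -1, -2, -2], [-1, 1, 0, -1, 0, 0, -1], [-2, 2, 0, -2, 0, -1, -1], [1, -2, 0, 0, 0, 1, 1], [2, -1, 0, 0, 0, 1, 1], [-6, 6, -3, -3, -1, -3, -3]] [[4, -2, 0, 1, -1, 0, 2], [-4, 2, 0, -1, 0, 1, -2], [-1, 1, 0, 0, 0, 0, -1], [-2, 1, 0, -1, 0, 0, -1], [-3, 0, 0, 0, 0, 0, -1], [-6, 3, 1, -2, 1, 1, -3], [-6, 3, -1, -1, 1, 1, -3]],
    LfC.good 15 [[4, -5, 2, 2, 2, 2, 4], [-13, 14, -4, -8, -6, -6, -12], [-7, 8, -3, -4, -3, -3, -7], [-8, 10, -3, -5, -4, -4, -8], [2, -2, 0, 0, 1, 1, 2], [1, -1, 0, 0, 1, 0, 1], [-6, 6, -3, -3, -3, -3, -5]] [[14, -5, 4, 8, -2, 0, 4], [-13, 4, -4, -6, 2, 0, -4], [-2, 1, -1, -1, 0, 0, -1], [-4, 1, -1, -2, 0, 0, -1], [-9, 3, -2, -5, 1, 1, -3], [-9, 3, -2, -5, 2, -1, -3], [-18, 6, -6,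 -9, 3, 0, -5]]],
  [LfC.good 39 [[3, -3, 0, 1, 1, 1, 1], [-3, 3, -1, 0, -1, -1, -1], [-3, 3, 0, 0, -1, -2, -1], [-3, 3, 0, 0, 0, -3, -1], [2, -3, 0, 0, 0, 0, 1], [5, -5, 0, 0, 0, 0, 2], [-3, 3, -1, -1, -1, -1, -1]] [[3, -3, 3, -1, -1, 0, 3], [-3, 3, -3, 1, -1, 1, -3], [-1, 0, 0, 0, 0, 0, -1], [0, 1, 0, 0, 0, 0, -1], [-1, 1, -2, 1, 0, 0, -1], [-1, 1, -1, 0, 0, 0, -1], [-15, 15, -15, 5, 0, 3, -15]],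
    LfC.bad 21],
  [LfC.bad 22,
    LfC.bad 23],
  [LfC.bad 24,
    LfC.bad 25],
  [LfC.good 38 [[2, -2, 0, 0, 0, 1, 1], [-8, 6, 0, 0, -1, -4, -3], [0, 0, 1, -1, 0, 0, 0], [0, 0, 2, -1, 0, 0, 0], [5, -6, 0, 0, 0, 4, 2], [15, -15, 0, 0, 0, 10, 6], [-6, 6, 0, 0, -1, -3, -3]] [[6, -2, 0, 0, 3, -2, 2], [-8, 2, 0, 0, -5, 3, -2], [0, 0, -1, 1, 0, 0, 0], [0, 0, -2, 1, 0, 0, 0], [-3, 0, 0, 0, 0, 0, -1], [-12, 3, 0, 0, -6, 4, -3], [-15, 5, 0, 0, -10, 6, -5]],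
    LfC.bad 26],
  [LfC.good 37 [[2, -4, 0, 0, 0, 1, 1], [-2, 4, 0, 0, -1, 0, -1], [0, 0, -1, 1, 0, 0, 0], [0, 0, 0, 1, 0, 0, 0], [-1, -2, 0, 0, 0, 0, 0], [-5, 5, 0, 0, 0, 0, -2], [-2, 4, 0, 0, -1, -1, -1]] [[4, -4, 0, 0, -3, 2, 4], [-2, 2, 0, 0, 1, -1, -2], [0, 0, -1, 1, 0, 0, 0], [0, 0, 0, 1, 0, 0, 0], [-1, 0, 0, 0, 0, 0, -1], [0, 1, 0, 0, 0, 0, -1], [-15, 15, 0, 0, 10, -8, -15]],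
    LfC.bad 27],
  [LfC.bad 28,
    LfC.bad 29],
  [LfC.bad 30,
    LfC.bad 31],
  [LfC.bad 32,
    LfC.bad 33],
  [LfC.bad 34,
    LfC.bad 35],
  [LfC.good 25 [[2, -3, 0, 1, 1, 1, 1], [-2, 3, -1, 0, -1, -1, -1], [1, -1, 0, 0, 0, 0, 1], [0, 0, 0, 0, 0, -1, 1], [-1, -1, 0, 0, -1, 0, 0], [0, -5, 0, 0, 0, 1, 1], [-2, 3, -1, -1, -1, -1, -1]] [[3, -3, -2, 1, 3, -2, 3], [-2, 2, 2, -1, -2, 1, -2], [-1, 0, 0, 0, 0, 0, -1], [0, 1, 0, 0, 0, 0, -1], [-1, 1, 0, 0, -2, 1, -1], [-5, 5, 5, -3, -5, 3, -5], [-5, 5, 5, -2, -5, 3, -5]],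
    LfC.bad 36],
  [LfC.good 28 [[2, -3, 1, 1, 0, 1, 1], [-6, 9, -2, -3, -1, -3, -3], [-1, -1, 0, -1, 0, 0, 0], [-2, 3, 0, -2, 0, -1, -1], [1, -1, 0, 0, 0, 1, 0], [2, -2, 0, 0, 0, 1, 1], [-10, 15, -5, -5, -1, -5, -5]] [[9, -3, -1, 2, 0, -1, 3], [-6, 2, 0, -1, 0, 1, -2], [-2, 1, 0, 0, 0, 0, -1], [-3, 1, 0, -1, 0, 0, -1], [-5, 0, 0, 0, 0, 0, -1], [-15, 5, 1, -3, 1, 2, -5], [-15, 5, 1, -3, -1, 3, -5]],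
    LfC.bad 37]]

theorem tab_ok : famB Js BD.bads X.F.As bs cands [1, 2] tab = true := by decide +kernel

theorem cand_ok : candB trees cands = true := by decide +kernel

end RH6.Q8
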