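import Pool.Agent.RH6.AX
import Pool.Agent.RH6.AQ1
import Pool.Agent.RH6.AQ5
import Pool.Agent.RH6.AQ8
import Pool.Agent.RH6.AP4
import Pool.Agent.RH6.AP2
import Pool.Agent.RH6.AP3
import Pool.Agent.RH6.AP6
import Pool.Agent.RH6.AP7

namespace RH6

theorem allFam : AllFam Js where
  q1 := Q1.fam
  q5 := Q5.fam
  q8 := Q8.fam
  p4 := P4.fam
  p2 := P2.fam
  p3 := P3.fam
  p6 := P6.fam
  p7 := P7.fam
  ex := AX.ex

end RH6
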