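import Mathlib

namespace RH6

/-! Lattices in rational quadratic spaces: definitions. -/

variable {V : Type*} [AddCommGroup V] [Module ℚ V]

/-- `L` is a (full) lattice in `V`: the integral span of a basis. -/
def IsLat (L : AddSubgroup V) : Prop :=
  ∃ b : Module.Basis (Fin (Module.finrank ℚ V)) ℚ V, ∀ x, x ∈ L ↔ ∀ i, ∃ z : ℤ, b.repr x i = z

/-- `B` is symmetric and nondegenerate -/
structure Nice (B : LinearMap.BilinForm ℚ V) : Prop where
  symm : ∀ x y, B x y = B y x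
  nondeg : ∀ x, (∀ y, B x y = 0) → x = 0

/-- the dual lattice -/
def dualL (B : LinearMap.BilinForm ℚ V) (L : AddSubgroup V) : AddSubgroup V where
  carrier := {x | ∀ y ∈ L, ∃ z : ℤ, B x y = z}
  zero_mem' := by
    intro y _
    exact ⟨0, by simp⟩
  add_mem' := by
    rintro a b ha hb y hy
    obtain ⟨z, hz⟩ := ha y hy
    obtain ⟨w, hw⟩ := hb y hy
    exact ⟨z + w, by simp [hz, hw]⟩
  neg_mem' := by
    rintro a ha y hy
    obtain ⟨z, hz⟩ := ha y hy
    exact ⟨-z, by simp [hz]⟩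

/-- the form is integral on `L` -/
def Integ (B : LinearMap.BilinForm ℚ V) (L : AddSubgroup V) : Prop :=
  ∀ x ∈ L, ∀ y ∈ L, ∃ z : ℤ, B x y = z

/-- `L` is an even lattice -/
def EvenL (B : LinearMap.BilinForm ℚ V) (L : AddSubgroup V) : Prop :=
  Integ B L ∧ ∀ x ∈ L, ∃ z : ℤ, B x x = 2 * z

/-- `L` is elementary at `p`: the discriminant group has no elements of order `p²` -/
def Elem (B : LinearMap.BilinForm ℚ V) (L : AddSubgroup V) (p : ℕ) : Prop :=
  ∀ x ∈ dualL B L, ((p : ℤ) ^ 2) • x ∈ L → (p : ℤ) • x ∈ L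

/-- `L ∩ p L^#` (for integral `L`): the elements of `L` all of whose products are divisible
by `p` -/
def Rad (B : LinearMap.BilinForm ℚ V) (L : AddSubgroup V) (p : ℕ) : AddSubgroup V where
  carrier := {x | x ∈ L ∧ ∀ y ∈ L, ∃ z : ℤ, B x y = p * z}
  zero_mem' := by
    refine ⟨L.zero_mem, ?_⟩
    intro y _
    exact ⟨0, by simp⟩
  add_mem' := by
    rintro a b ⟨ha', ha⟩ ⟨hb', hb⟩
    refine ⟨L.add_mem ha' hb', ?_⟩
    intro y hy
    obtain ⟨z, hz⟩ := ha y hy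
    obtain ⟨w, hw⟩ := hb y hy
    exact ⟨z + w, by simp [hz, hw]; ring⟩
  neg_mem' := by
    rintro a ⟨ha', ha⟩
    refine ⟨L.neg_mem ha', ?_⟩
    intro y hy
    obtain ⟨z, hz⟩ := ha y hy
    exact ⟨-z, by simp [hz]⟩

/-- `g` preserves `L` -/
def Pres (g : V ≃ₗ[ℚ] V) (L : AddSubgroup V) : Prop := ∀ x, x ∈ L ↔ g x ∈ L

/-- `g` is an isometry of `B` -/
def Iso (B : LinearMap.BilinForm ℚ V) (g : V ≃ₗ[ℚ] V) : Prop := ∀ x y, B (g x) (g y) = B x y

/-- the multiples `p L` -/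
def mulL (p : ℕ) (L : AddSubgroup V) : AddSubgroup V where
  carrier := {x | ∃ y ∈ L, x = (p : ℤ) • y}
  zero_mem' := ⟨0, L.zero_mem, by simp⟩
  add_mem' := by
    rintro a b ⟨x, hx, rfl⟩ ⟨y, hy, rfl⟩
    exact ⟨x + y, L.add_mem hx hy, by simp⟩
  neg_mem' := by
    rintro a ⟨x, hx, rfl⟩
    exact ⟨-x, L.neg_mem hx, by simp⟩

end RH6
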