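import Pool.Agent.RH6.W01

open Matrix

namespace RH6

/-!
Row [RH-W02]: Lorentz geometry.  Throughout `hL : Lor G h`, `H := toR h`, `(x,y) := bR G x y`,
`N := -(H,H) > 0` (by `hL.neg`, `bR_toR`).  For every `x` put `x = α H + x₀` with
`α = -(x,H)/N`, `(x₀,H) = 0`; then `(x,x) = -α² N + (x₀,x₀)` and `(x₀,x₀) ≥ 0` with equality iff
`x₀ = 0` (`hL.pos`).  On `H^⊥` the form is positive definite, so Cauchy-Schwarz holds there:
`(x₀,y₀)² ≤ (x₀,x₀)(y₀,y₀)` (for `y₀ ≠ 0` apply `0 ≤ (x₀ - t y₀, x₀ - t y₀)` with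
`t = (x₀,y₀)/(y₀,y₀)`).
-/

/-! helper lemmas -/

theorem w02_HH {G : Matrix (Fin 7) (Fin 7) ℤ} {h : Fin 7 → ℤ} :
    bR G (toR h) (toR h) = -(-(bZ G h h : ℝ)) := by
  rw [bR_toR]
  ring

theorem w02_N {G : Matrix (Fin 7) (Fin 7) ℤ} {h : Fin 7 → ℤ} (hL : Lor G h) :
    0 < -(bZ G h h : ℝ) := by
  have h1 : (bZ G h h : ℝ) < 0 := by exact_mod_cast hL.neg
  linarith

theorem w02_decomp {G : Matrix (Fin 7) (Fin 7) ℤ} {h : Fin 7 → ℤ} (hL : Lor G h)
    (x : Fin 7 → ℝ) : ∃ (α : ℝ) (x₀ : Fin 7 → ℝ), x = α • toR h + x₀ ∧ bR G x₀ (toR h) = 0 ∧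
      bR G x (toR h) = -(α * -(bZ G h h : ℝ)) := by
  have hN := w02_N hL
  have hN' : (bZ G h h : ℝ) ≠ 0 := by
    intro h0
    rw [h0] at hN
    simp at hN
  refine ⟨-(bR G x (toR h)) / -(bZ G h h : ℝ),
    x - (-(bR G x (toR h)) / -(bZ G h h : ℝ)) • toR h, ?_, ?_, ?_⟩
  · rw [add_sub_cancel]
  · rw [bR_sub_left, bR_smul_left, w02_HH]
    field_simp
    ring
  · field_simp

theorem w02_mul {G : Matrix (Fin 7) (Fin 7) ℤ} {h : Fin 7 → ℤ} (hL : Lor G h) (α β : ℝ)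
    (x₀ y₀ : Fin 7 → ℝ) (hx : bR G x₀ (toR h) = 0) (hy : bR G y₀ (toR h) = 0) :
    bR G (α • toR h + x₀) (β • toR h + y₀) = -(α * β * -(bZ G h h : ℝ)) + bR G x₀ y₀ := by
  rw [bR_add_left, bR_add_right, bR_add_right, bR_smul_left, bR_smul_left, bR_smul_right,
    bR_smul_right, bR_symm hL.symm (toR h) y₀, hx, hy, w02_HH]
  ring

theorem w02_nonneg {G : Matrix (Fin 7) (Fin 7) ℤ} {h : Fin 7 → ℤ} (hL : Lor G h)
    {x₀ : Fin 7 → ℝ} (hx : bR G x₀ (toR h) = 0) : 0 ≤ bR G x₀ x₀ := by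
  by_cases h0 : x₀ = 0
  · rw [h0, bR_zero_left]
  · exact (hL.pos x₀ hx h0).le

theorem w02_cs {G : Matrix (Fin 7) (Fin 7) ℤ} {h : Fin 7 → ℤ} (hL : Lor G h)
    {x₀ y₀ : Fin 7 → ℝ} (hx : bR G x₀ (toR h) = 0) (hy : bR G y₀ (toR h) = 0) :
    bR G x₀ y₀ ^ 2 ≤ bR G x₀ x₀ * bR G y₀ y₀ := by
  by_cases h0 : y₀ = 0
  · rw [h0, bR_zero_right, bR_zero_right]
    simp
  · have h1 := hL.pos y₀ hy h0
    have h2 := w02_nonneg hL (x₀ := x₀ - (bR G x₀ y₀ / bR G y₀ y₀) • y₀) (by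
      rw [bR_sub_left, bR_smul_left, hx, hy]
      ring)
    rw [bR_sub_left, bR_sub_right, bR_sub_right, bR_smul_left, bR_smul_left, bR_smul_right,
      bR_smul_right, bR_symm hL.symm y₀ x₀] at h2
    have h3 : bR G x₀ x₀ - bR G x₀ y₀ / bR G y₀ y₀ * bR G x₀ y₀ -
        (bR G x₀ y₀ / bR G y₀ y₀ * bR G x₀ y₀ -
          bR G x₀ y₀ / bR G y₀ y₀ * (bR G x₀ y₀ / bR G y₀ y₀ * bR G y₀ y₀)) =
        bR G x₀ x₀ - bR G x₀ y₀ ^ 2 / bR G y₀ y₀ := by
      field_simp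
      ring
    have h4 : 0 ≤ bR G x₀ x₀ - bR G x₀ y₀ ^ 2 / bR G y₀ y₀ := by
      rw [← h3]
      linarith
    have h5 : bR G x₀ y₀ ^ 2 / bR G y₀ y₀ ≤ bR G x₀ x₀ := by linarith
    rwa [div_le_iff₀ h1] at h5

/-- the orthogonal complement of a vector of negative norm is positive definite.
Proof: write `x = α H + x₀`, `y = β H + y₀`.  `(y,y) < 0` gives `(y₀,y₀) < β² N`, so `β ≠ 0`.
`(x,y) = 0` gives `α β N = (x₀,y₀)`.  If `α = 0` then `x = x₀ ≠ 0` and we are done.  Otherwise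
`α² β² N² = (x₀,y₀)² ≤ (x₀,x₀)(y₀,y₀)`, and `(x₀,x₀) > 0` (else `x₀ = 0` and `α β N = 0`), so
`α² β² N² < (x₀,x₀) β² N`, i.e. `α² N < (x₀,x₀)`, so `(x,x) > 0`. -/
theorem pos_of_orth {G : Matrix (Fin 7) (Fin 7) ℤ} {h : Fin 7 → ℤ} (hL : Lor G h)
    {x y : Fin 7 → ℝ} (hy : bR G y y < 0) (hxy : bR G x y = 0) (hx : x ≠ 0) : 0 < bR G x x := by
  have hN := w02_N hL
  obtain ⟨α, x₀, rfl, hx0, -⟩ := w02_decomp hL x
  obtain ⟨β, y₀, rfl, hy0, -⟩ := w02_decomp hL y
  rw [w02_mul hL _ _ _ _ hy0 hy0] at hy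
  rw [w02_mul hL _ _ _ _ hx0 hy0] at hxy
  rw [w02_mul hL _ _ _ _ hx0 hx0]
  set N := -(bZ G h h : ℝ) with hNdef
  have hcs := w02_cs hL hx0 hy0
  have hy1 := w02_nonneg hL hy0
  by_cases ha : α = 0
  · subst ha
    have hx1 : x₀ ≠ 0 := by
      intro h0
      apply hx
      rw [h0]
      simp
    have := hL.pos x₀ hx0 hx1
    nlinarith
  · have hx1 : 0 < bR G x₀ x₀ := by
      rcases (w02_nonneg hL hx0).eq_or_lt with h0 | h0
      · exfalso
        rw [← h0, zero_mul] at hcs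
        have h1 : bR G x₀ y₀ = 0 := by
          have := le_antisymm hcs (sq_nonneg _)
          exact pow_eq_zero_iff (two_ne_zero) |>.1 this
        rw [h1] at hxy
        have h2 : α * β * N = 0 := by linarith
        have h3 : β = 0 := by
          rcases mul_eq_zero.1 h2 with h4 | h4
          · rcases mul_eq_zero.1 h4 with h5 | h5
            · exact absurd h5 ha
            · exact h5
          · exact absurd h4 hN.ne'
        rw [h3] at hy
        linarith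
      · exact h0
    have h1 : bR G y₀ y₀ < β * β * N := by linarith
    have h2 : bR G x₀ y₀ = α * β * N := by linarith
    rw [h2] at hcs
    have hb : 0 < β * β * N := lt_of_le_of_lt hy1 h1
    have h3 : (α * β * N) ^ 2 < bR G x₀ x₀ * (β * β * N) :=
      lt_of_le_of_lt hcs (mul_lt_mul_of_pos_left h1 hx1)
    have h4 : (α * α * N) * (β * β * N) < bR G x₀ x₀ * (β * β * N) := by
      have : (α * β * N) ^ 2 = (α * α * N) * (β * β * N) := by ring
      linarith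
    have h5 := lt_of_mul_lt_mul_right h4 hb.le
    linarith

/-- Reverse Cauchy-Schwarz: if `(y,y) < 0` then `(x,x)(y,y) ≤ (x,y)²` for all `x`.
Proof: `z := x - ((x,y)/(y,y)) y` is orthogonal to `y`, so `0 ≤ (z,z) = (x,x) - (x,y)²/(y,y)`;
multiply by `(y,y) < 0`. -/
theorem rev_cs {G : Matrix (Fin 7) (Fin 7) ℤ} {h : Fin 7 → ℤ} (hL : Lor G h)
    {x y : Fin 7 → ℝ} (hy : bR G y y < 0) : bR G x x * bR G y y ≤ bR G x y ^ 2 := by
  have hy0 : bR G y y ≠ 0 := hy.ne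
  by_cases hz : x - (bR G x y / bR G y y) • y = 0
  · have h1 : x = (bR G x y / bR G y y) • y := sub_eq_zero.1 hz
    have h2 : bR G x x = (bR G x y / bR G y y) * bR G x y := by
      conv_lhs => rw [h1]
      rw [bR_smul_left, ← h1, bR_symm hL.symm]
    rw [h2]
    have h3 : bR G x y / bR G y y * bR G x y * bR G y y = bR G x y ^ 2 := by
      field_simp
    exact h3.le
  · have h1 := pos_of_orth hL hy (x := x - (bR G x y / bR G y y) • y) (by
      rw [bR_sub_left, bR_smul_left]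
      field_simp
      ring) hz
    rw [bR_sub_left, bR_sub_right, bR_sub_right, bR_smul_left, bR_smul_left, bR_smul_right,
      bR_smul_right, bR_symm hL.symm y x] at h1
    have h3 : (bR G x x - bR G x y / bR G y y * bR G x y -
        (bR G x y / bR G y y * bR G x y -
          bR G x y / bR G y y * (bR G x y / bR G y y * bR G y y))) * bR G y y =
        bR G x x * bR G y y - bR G x y ^ 2 := by
      field_simp
      ring
    have h4 := mul_neg_of_pos_of_neg h1 hy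
    have h5 : (bR G x x - bR G x y / bR G y y * bR G x y -
        (bR G x y / bR G y y * bR G x y -
          bR G x y / bR G y y * (bR G x y / bR G y y * bR G y y))) * bR G y y < 0 := by
      refine lt_of_le_of_lt (le_of_eq ?_) h4
      ring
    linarith

/-- A nonzero vector `x` of norm `≤ 0` with `(x,H) < 0` (or `≤ 0`) has negative product with every
forward vector.  Proof: `x = α H + x₀`, `y = β H + y₀`, `α = -(x,H)/N ≥ 0`, `β > 0`,
`(x₀,x₀) ≤ α² N`, `(y₀,y₀) < β² N`.  If `α = 0` then `(x₀,x₀) ≤ 0`, so `x₀ = 0`, `x = 0`,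
contradiction.  So `α > 0`, and `(x,y) = -αβN + (x₀,y₀) ≤ -αβN + |(x₀,y₀)|`, with
`(x₀,y₀)² ≤ (x₀,x₀)(y₀,y₀) ≤ α² N (y₀,y₀) < (αβN)²`. -/
theorem neg_of_closed {G : Matrix (Fin 7) (Fin 7) ℤ} {h : Fin 7 → ℤ} (hL : Lor G h)
    {x y : Fin 7 → ℝ} (hx : x ≠ 0) (hx0 : bR G x x ≤ 0) (hxh : bR G x (toR h) ≤ 0)
    (hy : Fwd G h y) : bR G x y < 0 := by
  have hN := w02_N hL
  obtain ⟨hy1, hy2⟩ := hy
  obtain ⟨α, x₀, hxe, hx1, hx2⟩ := w02_decomp hL x
  obtain ⟨β, y₀, hye, hy3, hy4⟩ := w02_decomp hL y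
  rw [hx2] at hxh
  rw [hy4] at hy2
  rw [hxe, w02_mul hL _ _ _ _ hx1 hx1] at hx0
  rw [hye, w02_mul hL _ _ _ _ hy3 hy3] at hy1
  rw [hxe, hye, w02_mul hL _ _ _ _ hx1 hy3]
  set N := -(bZ G h h : ℝ) with hNdef
  have hcs := w02_cs hL hx1 hy3
  have hxn := w02_nonneg hL hx1
  have hyn := w02_nonneg hL hy3
  have ha : 0 ≤ α := by
    by_contra hcon
    push Not at hcon
    nlinarith [mul_pos (neg_pos.2 hcon) hN]
  have hb : 0 < β := by
    by_contra hcon
    push Not at hcon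
    nlinarith [mul_nonneg (neg_nonneg.2 hcon) hN.le]
  have ha' : 0 < α := by
    rcases ha.eq_or_lt with h0 | h0
    · exfalso
      rw [← h0] at hx0
      have h1 : bR G x₀ x₀ ≤ 0 := by linarith
      have h2 : x₀ = 0 := by
        by_contra h3
        have := hL.pos x₀ hx1 h3
        linarith
      apply hx
      rw [hxe, h2, ← h0]
      simp
    · exact h0
  have h1 : bR G x₀ y₀ ^ 2 < (α * β * N) ^ 2 := by
    have h2 : bR G x₀ x₀ ≤ α * α * N := by linarith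
    have h3 : bR G y₀ y₀ < β * β * N := by linarith
    have h4 : bR G x₀ x₀ * bR G y₀ y₀ ≤ α * α * N * bR G y₀ y₀ :=
      mul_le_mul_of_nonneg_right h2 hyn
    have h5 : α * α * N * bR G y₀ y₀ < α * α * N * (β * β * N) :=
      mul_lt_mul_of_pos_left h3 (by positivity)
    have h6 : (α * β * N) ^ 2 = α * α * N * (β * β * N) := by ring
    linarith
  have h2 : 0 < α * β * N := by positivity
  have h3 := abs_lt_of_sq_lt_sq h1 h2.le
  have h4 := (abs_lt.1 h3).2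
  linarith

/-- two forward vectors have negative product (special case of `neg_of_closed`) -/
theorem neg_of_fwd {G : Matrix (Fin 7) (Fin 7) ℤ} {h : Fin 7 → ℤ} (hL : Lor G h)
    {x y : Fin 7 → ℝ} (hx : Fwd G h x) (hy : Fwd G h y) : bR G x y < 0 := by
  refine neg_of_closed hL ?_ hx.1.le hx.2.le hy
  intro h0
  have := hx.1
  rw [h0, bR_zero_left] at this
  exact lt_irrefl _ this

/-- conversely: if `y` is forward, `(x,x) < 0` and `(x,y) < 0` then `x` is forward.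
Proof: `(x,H) ≠ 0` (if `(x,H) = 0` then `(x,x) ≥ 0` by `hL.pos`).  If `(x,H) > 0` then `-x` is
forward, so `(-x,y) < 0`, contradiction. -/
theorem fwd_of_neg {G : Matrix (Fin 7) (Fin 7) ℤ} {h : Fin 7 → ℤ} (hL : Lor G h)
    {x y : Fin 7 → ℝ} (hy : Fwd G h y) (hx : bR G x x < 0) (hxy : bR G x y < 0) : Fwd G h x := by
  refine ⟨hx, ?_⟩
  by_contra hcon
  push Not at hcon
  rcases hcon.eq_or_lt with h0 | h0
  · have h1 : x ≠ 0 := by
      intro h2
      rw [h2, bR_zero_left] at hx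
      exact lt_irrefl _ hx
    have := hL.pos x h0.symm h1
    linarith
  · have h1 : Fwd G h (-x) := by
      refine ⟨?_, ?_⟩
      · rw [bR_neg_left, bR_neg_right]
        linarith
      · rw [bR_neg_left]
        linarith
    have h2 := neg_of_fwd hL h1 hy
    rw [bR_neg_left] at h2
    linarith

/-- the forward cone is closed under addition and positive multiples -/
theorem fwd_add {G : Matrix (Fin 7) (Fin 7) ℤ} {h : Fin 7 → ℤ} (hL : Lor G h)
    {x y : Fin 7 → ℝ} (hx : Fwd G h x) (hy : Fwd G h y) : Fwd G h (x + y) := by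
  have h1 := neg_of_fwd hL hx hy
  refine ⟨?_, ?_⟩
  · rw [bR_add_left, bR_add_right, bR_add_right, bR_symm hL.symm y x]
    have := hx.1
    have := hy.1
    linarith
  · rw [bR_add_left]
    have := hx.2
    have := hy.2
    linarith

theorem fwd_smul {G : Matrix (Fin 7) (Fin 7) ℤ} {h : Fin 7 → ℤ}
    {x : Fin 7 → ℝ} {a : ℝ} (ha : 0 < a) (hx : Fwd G h x) : Fwd G h (a • x) := by
  refine ⟨?_, ?_⟩
  · rw [bR_smul_left, bR_smul_right]
    exact mul_neg_of_pos_of_neg ha (mul_neg_of_pos_of_neg ha hx.1)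
  · rw [bR_smul_left]
    exact mul_neg_of_pos_of_neg ha hx.2

/-- `h` itself is forward -/
theorem fwd_h {G : Matrix (Fin 7) (Fin 7) ℤ} {h : Fin 7 → ℤ} (hL : Lor G h) :
    Fwd G h (toR h) := by
  have h1 : bR G (toR h) (toR h) < 0 := by
    rw [bR_toR]
    exact_mod_cast hL.neg
  exact ⟨h1, h1⟩

/-- the form is nondegenerate: `(x,y) = 0` for all `y` implies `x = 0`.
Proof: `(x,H) = 0` and `(x,x) = 0`, use `hL.pos`. -/
theorem nondeg {G : Matrix (Fin 7) (Fin 7) ℤ} {h : Fin 7 → ℤ} (hL : Lor G h)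
    {x : Fin 7 → ℝ} (hx : ∀ y, bR G x y = 0) : x = 0 := by
  by_contra h0
  have h1 := hL.pos x (hx _) h0
  rw [hx x] at h1
  exact lt_irrefl _ h1

/-- `det G ≠ 0`.  Proof: otherwise there is a nonzero integer vector `x` with `G x = 0`
(`Matrix.exists_mulVec_eq_zero_iff`), and `toR x` contradicts `nondeg` (use symmetry). -/
theorem det_ne {G : Matrix (Fin 7) (Fin 7) ℤ} {h : Fin 7 → ℤ} (hL : Lor G h) : G.det ≠ 0 := by
  intro hdet
  obtain ⟨v, hv, hv0⟩ := Matrix.exists_mulVec_eq_zero_iff.2 hdet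
  apply toR_ne_zero hv
  apply nondeg hL
  intro y
  rw [bR_symm hL.symm]
  have h1 : (G.map (fun n : ℤ => (n : ℝ))) *ᵥ (toR v) = 0 := by
    have h2 : (G.map (fun n : ℤ => (n : ℝ))) *ᵥ (toR v) = toR (G *ᵥ v) := by
      unfold toR
      funext i
      simp only [dotProduct, Matrix.mulVec, Matrix.map_apply, Int.cast_sum, Int.cast_mul]
    rw [h2, hv0]
    funext i
    simp [toR]
  unfold bR
  rw [h1, dotProduct_zero]

/-- positive definite majorant: `p(x) := (x,x) + 2 (x,H)²/N` satisfies `p(x) ≥ ε ‖x‖²` for some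
`ε > 0` (sup norm of `Fin 7 → ℝ`).  Proof: `p` is a positive definite quadratic form
(`p(x) = α² N + (x₀,x₀)`), it is continuous, and the unit sphere of `Fin 7 → ℝ` is compact, so `p`
has a positive minimum `ε` on it; now scale.  (`p(x) > 0` for `x ≠ 0`: if `x₀ ≠ 0` clear, else
`α ≠ 0`.) -/
theorem majorant {G : Matrix (Fin 7) (Fin 7) ℤ} {h : Fin 7 → ℤ} (hL : Lor G h) :
    ∃ ε : ℝ, 0 < ε ∧ ∀ x : Fin 7 → ℝ,
      ε * ‖x‖ ^ 2 ≤ bR G x x + 2 * bR G x (toR h) ^ 2 / (-(bZ G h h : ℝ)) := by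
  have hN := w02_N hL
  set p : (Fin 7 → ℝ) → ℝ := fun x => bR G x x + 2 * bR G x (toR h) ^ 2 / (-(bZ G h h : ℝ)) with hp
  have hpos : ∀ x, x ≠ 0 → 0 < p x := by
    intro x hx
    obtain ⟨α, x₀, hxe, hx1, hx2⟩ := w02_decomp hL x
    have h1 : p x = α * α * -(bZ G h h : ℝ) + bR G x₀ x₀ := by
      have h3 : bR G x x = -(α * α * -(bZ G h h : ℝ)) + bR G x₀ x₀ := by
        conv_lhs => rw [hxe]
        rw [w02_mul hL _ _ _ _ hx1 hx1]
      simp only [hp]
      rw [h3, hx2]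
      field_simp
      ring
    rw [h1]
    have h2 := w02_nonneg hL hx1
    by_cases h0 : x₀ = 0
    · have ha : α ≠ 0 := by
        intro ha
        apply hx
        rw [hxe, h0, ha]
        simp
      have h4 : 0 < α * α * -(bZ G h h : ℝ) := by
        have := mul_self_pos.2 ha
        positivity
      linarith
    · have h3 := hL.pos x₀ hx1 h0
      have h4 : 0 ≤ α * α * -(bZ G h h : ℝ) := by
        have := mul_self_nonneg α
        positivity
      linarith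
  have hcont : Continuous p := by
    simp only [hp]
    unfold bR
    simp only [dotProduct, Matrix.mulVec]
    fun_prop
  have hne : (Metric.sphere (0 : Fin 7 → ℝ) 1).Nonempty :=
    ⟨fun _ => 1, by simp⟩
  obtain ⟨u, hu, hmin⟩ := (isCompact_sphere (0 : Fin 7 → ℝ) 1).exists_isMinOn hne
    hcont.continuousOn
  have hu0 : u ≠ 0 := by
    intro h0
    rw [h0] at hu
    simp at hu
  refine ⟨p u, hpos u hu0, fun x => ?_⟩
  show p u * ‖x‖ ^ 2 ≤ p x
  by_cases hx : x = 0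
  · subst hx
    simp only [hp, norm_zero, bR_zero_left]
    simp
  · have hxn : 0 < ‖x‖ := norm_pos_iff.2 hx
    have h1 : p u ≤ p (‖x‖⁻¹ • x) := by
      apply hmin
      rw [mem_sphere_zero_iff_norm, norm_smul, norm_inv, norm_norm, inv_mul_cancel₀ hxn.ne']
    have h2 : p (‖x‖⁻¹ • x) = (‖x‖ ^ 2)⁻¹ * p x := by
      simp only [hp]
      rw [bR_smul_left, bR_smul_right, bR_smul_left]
      field_simp
    rw [h2] at h1
    calc p u * ‖x‖ ^ 2 ≤ ((‖x‖ ^ 2)⁻¹ * p x) * ‖x‖ ^ 2 :=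
          mul_le_mul_of_nonneg_right h1 (by positivity)
      _ = p x := by field_simp

/-- finitely many integer vectors with bounded norm and bounded product with `h`.
Proof: by `majorant` they lie in a ball of `Fin 7 → ℝ`, so all coordinates are bounded integers
(`Set.Finite.pi`, `Set.finite_Icc`). -/
theorem finite_bounded {G : Matrix (Fin 7) (Fin 7) ℤ} {h : Fin 7 → ℤ} (hL : Lor G h) (A B : ℝ) :
    {r : Fin 7 → ℤ | (bZ G r r : ℝ) ≤ A ∧ |bR G (toR r) (toR h)| ≤ B}.Finite := by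
  obtain ⟨ε, hε, hmaj⟩ := majorant hL
  have hN := w02_N hL
  set C := A + 2 * B ^ 2 / (-(bZ G h h : ℝ)) with hC
  obtain ⟨M, hM⟩ := exists_nat_ge (C / ε)
  refine (Set.finite_Icc (fun _ : Fin 7 => -(M : ℤ)) (fun _ : Fin 7 => (M : ℤ))).subset ?_
  rintro r ⟨h1, h2⟩
  have h3 := hmaj (toR r)
  rw [bR_toR] at h3
  have h4 : bR G (toR r) (toR h) ^ 2 ≤ B ^ 2 := by
    rw [← sq_abs]
    exact pow_le_pow_left₀ (abs_nonneg _) h2 2
  have h5 : 2 * bR G (toR r) (toR h) ^ 2 / (-(bZ G h h : ℝ)) ≤ 2 * B ^ 2 / (-(bZ G h h : ℝ)) :=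
    div_le_div_of_nonneg_right (by linarith) hN.le
  have h6 : ‖toR r‖ ^ 2 ≤ M := by
    have h7 : ‖toR r‖ ^ 2 ≤ C / ε := by
      rw [le_div_iff₀ hε]
      linarith
    linarith
  have h8 : ∀ i, |r i| ≤ M := by
    intro i
    have h9 : |(r i : ℝ)| ≤ ‖toR r‖ := norm_le_pi_norm (toR r) i
    have h10 : ((r i : ℝ)) ^ 2 ≤ M := by
      rw [← sq_abs]
      exact (pow_le_pow_left₀ (abs_nonneg _) h9 2).trans h6
    have h11 : (r i) ^ 2 ≤ (M : ℤ) := by exact_mod_cast h10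
    have h12 : |r i| ≤ (r i) ^ 2 := by
      rw [← sq_abs]
      rcases eq_or_ne (r i) 0 with h13 | h13
      · rw [h13]
        simp
      · have h14 := Int.one_le_abs h13
        nlinarith
    exact h12.trans h11
  exact ⟨fun i => (abs_le.1 (h8 i)).1, fun i => (abs_le.1 (h8 i)).2⟩

end RH6
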