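import Pool.Agent.RH6.Def
import Pool.Agent.RH6.W02
import Pool.Agent.RH6.Lat

open Matrix

namespace RH6

/-- rational matrices as real matrices -/
noncomputable def iotaQ : GL (Fin 7) ℚ →* GL (Fin 7) ℝ := Matrix.GeneralLinearGroup.map (algebraMap ℚ ℝ)

/-- integral matrices as rational matrices -/
def iotaZQ : GL (Fin 7) ℤ →* GL (Fin 7) ℚ := Matrix.GeneralLinearGroup.map (Int.castRingHom ℚ)

/-- integer matrix as real / rational matrix -/
def mR (G : Matrix (Fin 7) (Fin 7) ℤ) : Matrix (Fin 7) (Fin 7) ℝ := G.map (fun n : ℤ => (n : ℝ))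
def mQ (G : Matrix (Fin 7) (Fin 7) ℤ) : Matrix (Fin 7) (Fin 7) ℚ := G.map (fun n : ℤ => (n : ℚ))

/-- even, symmetric, and with a squarefree `e` such that `e G⁻¹` is integral -/
structure EvenElem (G : Matrix (Fin 7) (Fin 7) ℤ) : Prop where
  symm : Gᵀ = G
  even : ∀ i, ∃ k, G i i = 2 * k
  elem : ∃ e : ℕ, Squarefree e ∧ ∃ G' : Matrix (Fin 7) (Fin 7) ℤ, G * G' = (e : ℤ) • 1

/-- the integer matrix of the form `J0` -/
def G0 : Matrix (Fin 7) (Fin 7) ℤ := Matrix.diagonal ![1, 1, 1, 1, 1, 1, -1]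

def h0 : Fin 7 → ℤ := Pi.single 6 1

/-- the standard lattice `ℤ^7 ⊂ ℚ^7` -/
def Z7 : AddSubgroup (Fin 7 → ℚ) where
  carrier := {x | ∀ i, ∃ z : ℤ, x i = z}
  zero_mem' := fun i => ⟨0, by simp⟩
  add_mem' := by
    rintro a b ha hb i
    obtain ⟨z, hz⟩ := ha i
    obtain ⟨w, hw⟩ := hb i
    exact ⟨z + w, by simp [hz, hw]⟩
  neg_mem' := by
    rintro a ha i
    obtain ⟨z, hz⟩ := ha i
    exact ⟨-z, by simp [hz]⟩

end RH6
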