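import Pool.Agent.RH6.GDef
import Pool.Agent.RH6.KDat
import Pool.Agent.RH6.BAll

namespace RH6.AX

def eE1 : List (List ℤ) := [[2, 1, 0, 0, 0], [1, 2, 1, 0, 0], [0, 1, 2, 1, 0], [0, 0, 1, 2, 0], [0, 0, 0, 0, 2]]

theorem eE1_eq : of5 eE1 = E1 := by decide

theorem lcE1_1 : lcB Js BD.bads (hypL 1 eE1)
    (LfC.good 33 [[1, 0, 0, 0, 0, 0, 0], [0, 1, 0, 0, 0, 0, 0], [0, 0, 0, 0, 1, 0, 0], [0, 0, 1, -1, 1, 0, 0], [0, 0, 1, -1, 1, -1, 0], [0, 0, 0, -1, 1, -1, 0], [0, 0, 0, 0, 0, 0, 1]] [[1, 0, 0, 0, 0, 0, 0], [0, 1, 0, 0, 0, 0, 0], [0, 0, 0, 0, 1, -1, 0], [0, 0, 1, -1, 1, -1, 0], [0, 0, 1, 0, 0, 0, 0], [0, 0, 0, 1, -1, 0, 0], [0, 0, 0, 0, 0, 0, 1]]) = true := by decide +kernel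

theorem lcE1_2 : lcB Js BD.bads (hypL 2 eE1)
    (LfC.bad 67) = true := by decide +kernel

def eE2 : List (List ℤ) := [[2, 1, 0, 0, 0], [1, 2, 1, 0, 0], [0, 1, 2, 1, 0], [0, 0, 1, 2, 0], [0, 0, 0, 0, 10]]

theorem eE2_eq : of5 eE2 = E2 := by decide

theorem lcE2_1 : lcB Js BD.bads (hypL 1 eE2)
    (LfC.good 26 [[1, 0, 0, 0, 0, 0, 0], [0, 1, 0, 0, 0, 0, 0], [0, 0, 0, 0, 1, 0, 0], [0, 0, 1, -1, 1, 0, 0], [0, 0, 1, -1, 1, -1, 0], [0, 0, 0, -1, 1, -1, 0], [0, 0, 0, 0, 0, 0, 1]] [[1, 0, 0, 0, 0, 0, 0], [0, 1, 0, 0, 0, 0, 0], [0, 0, 0, 0, 1, -1, 0], [0, 0, 1, -1, 1, -1, 0], [0, 0, 1, 0, 0, 0, 0], [0, 0, 0, 1, -1, 0, 0], [0, 0, 0, 0, 0, 0, 1]]) = true := by decide +kernel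

theorem lcE2_2 : lcB Js BD.bads (hypL 2 eE2)
    (LfC.bad 68) = true := by decide +kernel

def eE3 : List (List ℤ) := [[4, -3, 2, -1, 0], [-3, 6, -4, 2, 0], [2, -4, 6, -3, 0], [-1, 2, -3, 4, 0], [0, 0, 0, 0, 2]]

theorem eE3_eq : of5 eE3 = E3 := by decide

theorem lcE3_1 : lcB Js BD.bads (hypL 1 eE3)
    (LfC.good 29 [[1, 0, 0, 0, 0, 0, 0], [0, 1, 0, 0, 0, 0, 0], [0, 0, 1, 0, 0, 0, 0], [0, 0, -1, 1, 0, 0, 0], [0, 0, 1, -1, 0, 1, 0], [0, 0, -1, 1, 1, -1, 0], [0, 0, 0, 0, 0, 0, 1]] [[1, 0, 0, 0, 0, 0, 0], [0, 1, 0, 0, 0, 0, 0], [0, 0, 1, 0, 0, 0, 0], [0, 0, 1, 1, 0, 0, 0], [0, 0, 0, 0, 1, 1, 0], [0, 0, 0, 1, 1, 0, 0], [0, 0, 0, 0, 0, 0, 1]]) = true := by decide +kernel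

theorem lcE3_2 : lcB Js BD.bads (hypL 2 eE3)
    (LfC.bad 69) = true := by decide +kernel

def eE4 : List (List ℤ) := [[2, 1, 0, 0, 0], [1, 2, 1, 0, 0], [0, 1, 2, 1, 0], [0, 0, 1, 2, 1], [0, 0, 0, 1, 2]]

theorem eE4_eq : of5 eE4 = E4 := by decide

theorem lcE4_1 : lcB Js BD.bads (hypL 1 eE4)
    (LfC.good 20 [[1, 0, 0, 0, 0, 0, 0], [0, 1, 0, 0, 0, 0, 0], [0, 0, 0, 0, 1, 0, 0], [0, 0, 0, 0, 1, -1, 1], [0, 0, 1, -1, 1, -1, 1], [0, 0, 1, -1, 1, -1, 0], [0, 0, 0, -1, 1, -1, 0]] [[1, 0, 0, 0, 0, 0, 0], [0, 1, 0, 0, 0, 0, 0], [0, 0, 0, 0, 0, 1, -1], [0, 0, 0, 1, -1, 1, -1], [0, 0, 1, 0, 0, 0, 0], [0, 0, 1, -1, 1, -1, 0], [0, 0, 0, 0, 1, -1, 0]]) = true := by decide +kernel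

theorem lcE4_2 : lcB Js BD.bads (hypL 2 eE4)
    (LfC.good 21 [[2, -2, 0, 0, 1, 1, 1], [-6, 6, -1, 0, -4, -3, -1], [-4, 3, 0, 0, -2, -2, -1], [-3, 4, 0, 0, -2, -2, -1], [-2, 3, 0, 0, -2, -1, -1], [-2, 2, -1, 1, -2, -1, -1], [-2, 2, -1, 0, -1, -1, -1]] [[3, -1, 1, 1, 1, 0, 1], [-3, 1, -2, 0, -1, 0, -1], [-1, 0, 0, 0, 0, 0, -1], [-4, 1, -2, 0, -2, 1, -2], [-4, 1, -2, 0, -2, 0, -1], [-6, 2, -3, -2, -1, 0, -2], [-1, 1, -1, 0, -1, 0, -1]]) = true := by decide +kernel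

theorem ex (B : LinearMap.BilinForm ℚ V5) (K : AddSubgroup V5) (N : ℕ) (hN : N = 1 ∨ N = 2)
    (hs : ∀ x y, B x y = B y x) (he : Exc B K) (hC : CF (hB (N : ℚ) B) (hL K)) :
    ∃ i < Js.length, QEq (hB (N : ℚ) B) (hL K) (BQ (ofL (Js.getD i []))) Z7 := by
  rcases hN with rfl | rfl
  · rcases he with h | h | h | h
    · rw [← eE1_eq] at h
      exact leaf_gram hs rfl (by decide) h BD.bads_ok lcE1_1 hC
    · rw [← eE2_eq] at h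
      exact leaf_gram hs rfl (by decide) h BD.bads_ok lcE2_1 hC
    · rw [← eE3_eq] at h
      exact leaf_gram hs rfl (by decide) h BD.bads_ok lcE3_1 hC
    · rw [← eE4_eq] at h
      exact leaf_gram hs rfl (by decide) h BD.bads_ok lcE4_1 hC
  · rcases he with h | h | h | h
    · rw [← eE1_eq] at h
      exact leaf_gram hs rfl (by decide) h BD.bads_ok lcE1_2 hC
    · rw [← eE2_eq] at h
      exact leaf_gram hs rfl (by decide) h BD.bads_ok lcE2_2 hC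
    · rw [← eE3_eq] at h
      exact leaf_gram hs rfl (by decide) h BD.bads_ok lcE3_2 hC
    · rw [← eE4_eq] at h
      exact leaf_gram hs rfl (by decide) h BD.bads_ok lcE4_2 hC

end RH6.AX
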