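import Pool.Agent.RH6.Lat

namespace RH6

/-!
Row [RH-B1]: basic facts about lattices (integral spans of bases) in a finite dimensional
rational vector space.  Useful general facts: an `AddSubgroup` is a `ℤ`-submodule
(`AddSubgroup.toIntSubmodule`); submodules of finitely generated free `ℤ`-modules are free
(`Submodule.basisOfPid`, `Submodule.nonempty_basis_of_pid`, `Module.Free` over a PID), and
`ℤ`-linearly independent families in a `ℚ`-vector space are `ℚ`-linearly independent
(`LinearIndependent.iff_fractionRing`, `IsLocalization`).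
-/

variable {V : Type*} [AddCommGroup V] [Module ℚ V] [FiniteDimensional ℚ V]

omit [FiniteDimensional ℚ V] in
theorem b1_span {ι : Type*} (b : Module.Basis ι ℚ V) (L : AddSubgroup V)
    (hb : ∀ x, x ∈ L ↔ ∀ i, ∃ z : ℤ, b.repr x i = z) :
    AddSubgroup.toIntSubmodule L = Submodule.span ℤ (Set.range b) := by
  ext x
  rw [b.mem_span_iff_repr_mem ℤ x]
  change x ∈ L ↔ _
  rw [hb x]
  refine forall_congr' fun i => ?_
  constructor
  · rintro ⟨z, hz⟩
    exact ⟨z, by rw [hz]; rfl⟩
  · rintro ⟨z, hz⟩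
    exact ⟨z, by rw [← hz]; rfl⟩

theorem b1_iff (L : AddSubgroup V) :
    IsLat L ↔ Submodule.IsLattice ℚ (AddSubgroup.toIntSubmodule L) := by
  constructor
  · rintro ⟨b, hb⟩
    have hspan := b1_span b L hb
    refine ⟨?_, ?_⟩
    · rw [hspan]
      exact Submodule.fg_span (Set.finite_range b)
    · rw [eq_top_iff, ← b.span_eq]
      refine Submodule.span_mono ?_
      rintro _ ⟨i, rfl⟩
      rw [hspan]
      exact Submodule.subset_span ⟨i, rfl⟩
  · intro h
    haveI := h
    haveI : Module.Free ℤ (AddSubgroup.toIntSubmodule L) := Submodule.IsLattice.free ℚ _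
    let b0 := Module.Free.chooseBasis ℤ (AddSubgroup.toIntSubmodule L)
    let b1 := b0.extendOfIsLattice ℚ
    have hcard : Fintype.card (Module.Free.ChooseBasisIndex ℤ (AddSubgroup.toIntSubmodule L)) =
        Module.finrank ℚ V := (Module.finrank_eq_card_basis b1).symm
    let e := Fintype.equivFinOfCardEq hcard
    have hspan : AddSubgroup.toIntSubmodule L = Submodule.span ℤ (Set.range (b1.reindex e)) := by
      rw [Module.Basis.range_reindex]
      have h1 : Set.range b1 = (AddSubgroup.toIntSubmodule L).subtype '' Set.range b0 := by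
        rw [← Set.range_comp]
        congr 1
        funext i
        exact b0.extendOfIsLattice_apply ℚ i
      rw [h1, ← Submodule.map_span, b0.span_eq, Submodule.map_top, Submodule.range_subtype]
    refine ⟨b1.reindex e, fun x => ?_⟩
    have h2 : x ∈ L ↔ x ∈ Submodule.span ℤ (Set.range (b1.reindex e)) := by
      rw [← hspan]
      exact Iff.rfl
    rw [h2, (b1.reindex e).mem_span_iff_repr_mem ℤ x]
    refine forall_congr' fun i => ?_
    constructor
    · rintro ⟨z, hz⟩
      exact ⟨z, by rw [← hz]; rfl⟩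
    · rintro ⟨z, hz⟩
      exact ⟨z, by rw [hz]; rfl⟩

/-- A subgroup commensurable with a lattice is a lattice.
Proof: `M' = D • M ≤ L` is a subgroup of the free abelian group `L` of rank `n = dim V`, so it is
free of rank `≤ n`, hence so is `M` (multiplication by `D` is injective).  A `ℤ`-basis of `M` is
`ℚ`-linearly independent, and its span contains `D • L`, so it spans `V`; so it has `n` elements
and is a `ℚ`-basis of `V` whose integral span is `M`. -/
theorem isLat_of_comm {L M : AddSubgroup V} (hL : IsLat L) (D : ℕ) (hD : 0 < D)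
    (h1 : ∀ x ∈ L, (D : ℤ) • x ∈ M) (h2 : ∀ x ∈ M, (D : ℤ) • x ∈ L) : IsLat M := by
  rw [b1_iff] at hL ⊢
  haveI := hL
  have hD0 : (D : ℤ) ≠ 0 := by exact_mod_cast hD.ne'
  have hDq : (D : ℚ) ≠ 0 := by exact_mod_cast hD.ne'
  have hcast : ∀ x : V, (D : ℤ) • x = (D : ℚ) • x := by
    intro x
    rw [← Int.cast_smul_eq_zsmul ℚ]
    simp
  refine ⟨?_, ?_⟩
  · rw [← Module.Finite.iff_fg]
    let f : AddSubgroup.toIntSubmodule M →ₗ[ℤ] AddSubgroup.toIntSubmodule L :=
      { toFun := fun x => ⟨(D : ℤ) • x.1, h2 x.1 x.2⟩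
        map_add' := fun x y => Subtype.ext (smul_add _ _ _)
        map_smul' := fun n x => Subtype.ext (smul_comm _ _ _) }
    have hf : Function.Injective f := by
      intro x y hxy
      have h3 : (D : ℤ) • x.1 = (D : ℤ) • y.1 := congrArg Subtype.val hxy
      rw [hcast, hcast] at h3
      exact Subtype.ext (smul_right_injective V hDq h3)
    exact Module.Finite.of_injective f hf
  · rw [eq_top_iff, ← hL.span_eq_top]
    refine Submodule.span_le.2 ?_
    intro x hx
    have h3 : (D : ℤ) • x ∈ M := h1 x hx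
    have h4 : x = (D : ℚ)⁻¹ • ((D : ℤ) • x) := by
      rw [hcast, smul_smul, inv_mul_cancel₀ hDq, one_smul]
    rw [h4]
    exact Submodule.smul_mem _ _ (Submodule.subset_span h3)

/-- every vector has an integral multiple in `L` -/
theorem exists_smul_mem {L : AddSubgroup V} (hL : IsLat L) (x : V) :
    ∃ D : ℕ, 0 < D ∧ (D : ℤ) • x ∈ L := by
  obtain ⟨b, hb⟩ := hL
  refine ⟨∏ i, (b.repr x i).den, Finset.prod_pos fun i _ => (b.repr x i).pos, ?_⟩
  rw [hb]
  intro i
  obtain ⟨c, hc⟩ : (b.repr x i).den ∣ ∏ i, (b.repr x i).den :=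
    Finset.dvd_prod_of_mem _ (Finset.mem_univ i)
  refine ⟨c * (b.repr x i).num, ?_⟩
  have h1 : b.repr (((∏ i, (b.repr x i).den : ℕ) : ℤ) • x) i =
      ((∏ i, (b.repr x i).den : ℕ) : ℚ) * b.repr x i := by
    rw [map_zsmul, Finsupp.smul_apply, zsmul_eq_mul]
    push_cast
    rfl
  rw [h1, hc]
  have h2 : ((b.repr x i).den : ℚ) * b.repr x i = (b.repr x i).num := by
    rw [mul_comm]
    exact Rat.mul_den_eq_num _
  push_cast
  rw [mul_comm ((b.repr x i).den : ℚ) (c : ℚ), mul_assoc, h2]

/-- two lattices are commensurable -/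
theorem isLat_common {L M : AddSubgroup V} (hL : IsLat L) (hM : IsLat M) :
    ∃ D : ℕ, 0 < D ∧ ∀ x ∈ M, (D : ℤ) • x ∈ L := by
  obtain ⟨b, hb⟩ := hM
  choose D hD0 hD using fun i => exists_smul_mem hL (b i)
  refine ⟨∏ i, D i, Finset.prod_pos fun i _ => hD0 i, fun x hx => ?_⟩
  choose z hz using (hb x).1 hx
  have h1 : ∀ i, ((∏ i, D i : ℕ) : ℤ) • b i ∈ L := by
    intro i
    obtain ⟨c, hc⟩ : D i ∣ ∏ i, D i := Finset.dvd_prod_of_mem _ (Finset.mem_univ i)
    rw [hc, mul_comm, Nat.cast_mul, mul_smul]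
    exact L.zsmul_mem (hD i) _
  have h2 : x = ∑ i, z i • b i := by
    conv_lhs => rw [← b.sum_repr x]
    refine Finset.sum_congr rfl fun i _ => ?_
    rw [hz i, Int.cast_smul_eq_zsmul]
  rw [h2, Finset.smul_sum]
  refine L.sum_mem fun i _ => ?_
  rw [smul_comm]
  exact L.zsmul_mem (h1 i) _

/-- a vector orthogonal to a lattice is zero -/
theorem eq_zero_of_orth {B : LinearMap.BilinForm ℚ V} (hB : Nice B) {L : AddSubgroup V}
    (hL : IsLat L) {u : V} (h : ∀ x ∈ L, B u x = 0) : u = 0 := by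
  refine hB.nondeg u fun y => ?_
  obtain ⟨D, hD, hy⟩ := exists_smul_mem hL y
  have h1 := h _ hy
  rw [map_zsmul, zsmul_eq_mul] at h1
  rcases mul_eq_zero.1 h1 with h2 | h2
  · exact absurd h2 (by exact_mod_cast hD.ne')
  · exact h2

theorem b1_nondeg {B : LinearMap.BilinForm ℚ V} (hB : Nice B) : B.Nondegenerate := by
  refine ⟨fun x hx => hB.nondeg x hx, fun y hy => hB.nondeg y fun x => ?_⟩
  rw [hB.symm]
  exact hy x

/-- the dual lattice in terms of a basis -/
theorem b1_mem_dual {B : LinearMap.BilinForm ℚ V} {ι : Type*} [Fintype ι]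
    (b : Module.Basis ι ℚ V) {L : AddSubgroup V}
    (hb : ∀ x, x ∈ L ↔ ∀ i, ∃ z : ℤ, b.repr x i = z) (x : V) :
    x ∈ dualL B L ↔ ∀ i, ∃ z : ℤ, B x (b i) = z := by
  classical
  constructor
  · intro hx i
    refine hx (b i) ((hb _).2 fun j => ?_)
    rw [b.repr_self, Finsupp.single_apply]
    by_cases h : i = j
    · exact ⟨1, by rw [if_pos h]; norm_num⟩
    · exact ⟨0, by rw [if_neg h]; norm_num⟩
  · intro hx y hy
    choose z hz using hx
    choose w hw using (hb y).1 hy
    refine ⟨∑ i, w i * z i, ?_⟩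
    conv_lhs => rw [← b.sum_repr y]
    rw [map_sum]
    push_cast
    refine Finset.sum_congr rfl fun i _ => ?_
    rw [map_smul, smul_eq_mul, hz i, hw i]

/-- the dual of a lattice is a lattice (dual basis: `LinearMap.BilinForm.dualBasis`) -/
theorem dual_isLat {B : LinearMap.BilinForm ℚ V} (hB : Nice B) {L : AddSubgroup V}
    (hL : IsLat L) : IsLat (dualL B L) := by
  classical
  obtain ⟨b, hb⟩ := hL
  refine ⟨B.dualBasis (b1_nondeg hB) b, fun x => ?_⟩
  rw [b1_mem_dual b hb]
  refine forall_congr' fun i => ?_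
  rw [LinearMap.BilinForm.dualBasis_repr_apply]

theorem dual_dual {B : LinearMap.BilinForm ℚ V} (hB : Nice B) {L : AddSubgroup V}
    (hL : IsLat L) : dualL B (dualL B L) = L := by
  classical
  obtain ⟨b, hb⟩ := hL
  have hb' : ∀ x, x ∈ dualL B L ↔ ∀ i, ∃ z : ℤ,
      (B.dualBasis (b1_nondeg hB) b).repr x i = z := by
    intro x
    rw [b1_mem_dual b hb]
    refine forall_congr' fun i => ?_
    rw [LinearMap.BilinForm.dualBasis_repr_apply]
  ext x
  rw [b1_mem_dual (B.dualBasis (b1_nondeg hB) b) hb', hb x]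
  refine forall_congr' fun i => ?_
  have h1 : B x (B.dualBasis (b1_nondeg hB) b i) = b.repr x i := by
    rw [hB.symm]
    conv_lhs => rw [← b.sum_repr x]
    rw [map_sum]
    simp only [map_smul, smul_eq_mul, LinearMap.BilinForm.apply_dualBasis_left]
    simp
  rw [h1]

theorem dual_anti {B : LinearMap.BilinForm ℚ V} {L M : AddSubgroup V} (h : L ≤ M) :
    dualL B M ≤ dualL B L := by
  intro x hx y hy
  exact hx y (h hy)

/-- relative indices of lattices are finite -/
theorem relIndex_ne {L M : AddSubgroup V} (hL : IsLat L) (hM : IsLat M) : L.relIndex M ≠ 0 := by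
  obtain ⟨D, hD, h⟩ := isLat_common hL hM
  have hM' := (b1_iff M).1 hM
  haveI : Module.Finite ℤ (AddSubgroup.toIntSubmodule M) := Submodule.IsLattice.finite ℚ _
  haveI : Module.Finite ℤ M := this
  haveI : Module.Finite ℤ (M ⧸ L.addSubgroupOf M) :=
    Module.Finite.of_surjective (QuotientAddGroup.mk' (L.addSubgroupOf M)).toIntLinearMap
      (QuotientAddGroup.mk'_surjective _)
  have ht : Module.IsTorsion ℤ (M ⧸ L.addSubgroupOf M) := by
    intro x
    obtain ⟨y, rfl⟩ := QuotientAddGroup.mk'_surjective (L.addSubgroupOf M) x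
    refine ⟨⟨(D : ℤ), mem_nonZeroDivisors_of_ne_zero (by exact_mod_cast hD.ne')⟩, ?_⟩
    change (D : ℤ) • (QuotientAddGroup.mk' (L.addSubgroupOf M)) y = 0
    rw [← map_zsmul]
    refine (QuotientAddGroup.eq_zero_iff _).2 ?_
    exact h y.1 y.2
  haveI := Module.finite_of_fg_torsion (M ⧸ L.addSubgroupOf M) ht
  exact AddSubgroup.index_ne_zero_of_finite

end RH6
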