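import Pool.Agent.RH6.B1b

namespace RH6

/-!
Row [RH-B2]: the partial dual `L^{(p)} = (L ∩ p L^#, p⁻¹ B)`.
Throughout `L^# = dualL B L`, `R = Rad B L p`, `p` prime.
First: `R = {x ∈ L : x/p ∈ L^#}`, `pL ≤ R ≤ L`.
-/

variable {V : Type*} [AddCommGroup V] [Module ℚ V] [FiniteDimensional ℚ V]

theorem mulL_le_rad {B : LinearMap.BilinForm ℚ V} {L : AddSubgroup V} (h : Integ B L) (p : ℕ) :
    mulL p L ≤ Rad B L p := by
  rintro x ⟨y, hy, rfl⟩
  refine ⟨L.zsmul_mem hy _, ?_⟩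
  intro w hw
  obtain ⟨z, hz⟩ := h y hy w hw
  refine ⟨z, ?_⟩
  rw [← hz]
  simp

theorem rad_isLat {B : LinearMap.BilinForm ℚ V} {L : AddSubgroup V} (hL : IsLat L)
    (h : Integ B L) {p : ℕ} (hp : 0 < p) : IsLat (Rad B L p) := by
  refine isLat_of_comm hL p hp ?_ ?_
  · intro x hx
    exact mulL_le_rad h p ⟨x, hx, rfl⟩
  · intro x hx
    exact L.zsmul_mem hx.1 _

/-- `p⁻¹ B` is integral on `R`: for `x, y ∈ R`, `B x y / p = B (x/p) y` is an integer. -/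
theorem rad_integ {B : LinearMap.BilinForm ℚ V} {L : AddSubgroup V} {p : ℕ} (hp : 0 < p) :
    Integ ((1 / (p : ℚ)) • B) (Rad B L p) := by
  intro x hx y hy
  obtain ⟨z, hz⟩ := hx.2 y hy.1
  refine ⟨z, ?_⟩
  have hp' : (p : ℚ) ≠ 0 := by exact_mod_cast hp.ne'
  simp only [LinearMap.smul_apply, smul_eq_mul, hz]
  field_simp

omit [FiniteDimensional ℚ V] in
theorem b2_mem_smul {B : LinearMap.BilinForm ℚ V} {L : AddSubgroup V} {p : ℕ} (hp : 0 < p)
    (x : V) :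
    x ∈ dualL ((1 / (p : ℚ)) • B) L ↔ ∀ y ∈ L, ∃ z : ℤ, B x y = p * z := by
  have hp' : (p : ℚ) ≠ 0 := by exact_mod_cast hp.ne'
  constructor
  · intro hx y hy
    obtain ⟨z, hz⟩ := hx y hy
    refine ⟨z, ?_⟩
    simp only [LinearMap.smul_apply, smul_eq_mul] at hz
    rw [← hz]
    field_simp
  · intro hx y hy
    obtain ⟨z, hz⟩ := hx y hy
    refine ⟨z, ?_⟩
    simp only [LinearMap.smul_apply, smul_eq_mul, hz]
    field_simp

/-- the lattice `L + p L^#` -/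
def b2_M (B : LinearMap.BilinForm ℚ V) (L : AddSubgroup V) (p : ℕ) : AddSubgroup V where
  carrier := {x | ∃ l ∈ L, ∃ z ∈ dualL B L, x = l + (p : ℤ) • z}
  zero_mem' := ⟨0, L.zero_mem, 0, (dualL B L).zero_mem, by simp⟩
  add_mem' := by
    rintro a b ⟨l, hl, z, hz, rfl⟩ ⟨l', hl', z', hz', rfl⟩
    refine ⟨l + l', L.add_mem hl hl', z + z', (dualL B L).add_mem hz hz', ?_⟩
    rw [smul_add]; abel
  neg_mem' := by
    rintro a ⟨l, hl, z, hz, rfl⟩
    refine ⟨-l, L.neg_mem hl, -z, (dualL B L).neg_mem hz, ?_⟩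
    rw [smul_neg, neg_add]

theorem b2_M_isLat {B : LinearMap.BilinForm ℚ V} (hB : Nice B) {L : AddSubgroup V}
    (hL : IsLat L) (p : ℕ) : IsLat (b2_M B L p) := by
  obtain ⟨D, hD, h⟩ := isLat_common hL (dual_isLat hB hL)
  refine isLat_of_comm hL D hD ?_ ?_
  · intro x hx
    exact ⟨(D : ℤ) • x, L.zsmul_mem hx _, 0, (dualL B L).zero_mem, by simp⟩
  · rintro x ⟨l, hl, z, hz, rfl⟩
    rw [smul_add, smul_comm]
    exact L.add_mem (L.zsmul_mem hl _) (L.zsmul_mem (h z hz) _)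

theorem b2_dual_M {B : LinearMap.BilinForm ℚ V} (hB : Nice B) {L : AddSubgroup V}
    (hL : IsLat L) (h : Integ B L) {p : ℕ} (hp : 0 < p) :
    dualL ((1 / (p : ℚ)) • B) (b2_M B L p) = Rad B L p := by
  have hp' : (p : ℚ) ≠ 0 := by exact_mod_cast hp.ne'
  ext x
  rw [b2_mem_smul hp]
  constructor
  · intro hx
    have h1 : x ∈ dualL B (dualL B L) := by
      intro z hz
      obtain ⟨k, hk⟩ := hx ((p : ℤ) • z) ⟨0, L.zero_mem, z, hz, by simp⟩
      refine ⟨k, ?_⟩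
      have h2 : B x ((p : ℤ) • z) = (p : ℚ) * B x z := by simp
      rw [h2] at hk
      exact mul_left_cancel₀ hp' hk
    rw [dual_dual hB hL] at h1
    refine ⟨h1, ?_⟩
    intro y hy
    exact hx y ⟨y, hy, 0, (dualL B L).zero_mem, by simp⟩
  · rintro ⟨hx1, hx2⟩ y ⟨l, hl, z, hz, rfl⟩
    obtain ⟨a, ha⟩ := hx2 l hl
    obtain ⟨b, hb⟩ := hz x hx1
    refine ⟨a + b, ?_⟩
    have h2 : B x (l + (p : ℤ) • z) = B x l + (p : ℚ) * B x z := by simp
    rw [h2, ha, hB.symm x z, hb]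
    push_cast
    ring

/-- The dual of the partial dual is `L + p L^#`.
Proof: `dualL (p⁻¹B) R = p · dualL B R` and `dualL B R = dualL B (L ∩ pL^#)
= L^# + p⁻¹ L`: indeed `⊇` is clear (`(p⁻¹ l, x) = (l, x/p)` for `x ∈ R`), and for `⊆` apply
`dual_dual`: the dual of `L^# + p⁻¹L` is `L ∩ pL^# = R` (`(L^#)^# = L`, `(p⁻¹L)^# = pL^#`), so the
dual of `R` is the double dual of `L^# + p⁻¹ L`, which is a lattice (`isLat_of_comm`). -/
theorem rad_dual {B : LinearMap.BilinForm ℚ V} (hB : Nice B) {L : AddSubgroup V} (hL : IsLat L)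
    (h : Integ B L) {p : ℕ} (hp : 0 < p) (x : V) :
    x ∈ dualL ((1 / (p : ℚ)) • B) (Rad B L p) ↔
      ∃ l ∈ L, ∃ z ∈ dualL B L, x = l + (p : ℤ) • z := by
  have hp' : (p : ℚ) ≠ 0 := by exact_mod_cast hp.ne'
  have hN : Nice ((1 / (p : ℚ)) • B) := nice_smul hB (one_div_ne_zero hp')
  rw [← b2_dual_M hB hL h hp, dual_dual hN (b2_M_isLat hB hL p)]
  rfl

omit [FiniteDimensional ℚ V] in
theorem b2_mem_rad {B : LinearMap.BilinForm ℚ V} {L : AddSubgroup V} {p : ℕ} (hp : 0 < p)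
    (x : V) : x ∈ Rad B L p ↔ x ∈ L ∧ ∃ z ∈ dualL B L, x = (p : ℤ) • z := by
  have hp' : (p : ℚ) ≠ 0 := by exact_mod_cast hp.ne'
  constructor
  · rintro ⟨h1, h2⟩
    refine ⟨h1, (1 / (p : ℚ)) • x, ?_, ?_⟩
    · intro y hy
      obtain ⟨z, hz⟩ := h2 y hy
      refine ⟨z, ?_⟩
      simp only [map_smul, LinearMap.smul_apply, smul_eq_mul, hz]
      field_simp
    · have h3 : ((p : ℤ) • ((1 / (p : ℚ)) • x)) = ((p : ℤ) : ℚ) • ((1 / (p : ℚ)) • x) := by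
        rw [Int.cast_smul_eq_zsmul]
      rw [h3, smul_smul]
      have h4 : (((p : ℤ) : ℚ) * (1 / (p : ℚ))) = 1 := by push_cast; field_simp
      rw [h4, one_smul]
  · rintro ⟨h1, z, hz, rfl⟩
    refine ⟨h1, ?_⟩
    intro y hy
    obtain ⟨k, hk⟩ := hz y hy
    refine ⟨k, ?_⟩
    rw [← hk]
    simp

/-- membership by coprime multiples -/
theorem b2_coprime {M : AddSubgroup V} {a b : ℤ} (hab : IsCoprime a b) {x : V}
    (ha : a • x ∈ M) (hb : b • x ∈ M) : x ∈ M := by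
  obtain ⟨u, v, huv⟩ := hab
  have : x = u • (a • x) + v • (b • x) := by
    rw [smul_smul, smul_smul, ← add_smul, huv, one_smul]
  rw [this]
  exact M.add_mem (M.zsmul_mem ha _) (M.zsmul_mem hb _)

/-- The partial dual is elementary at every prime `q` (if `L` is elementary at `p` and `q`).
Proof.  Let `y = l + p z`, `l ∈ L`, `z ∈ L^#`, `q² y ∈ R`; show `q y ∈ R`, i.e. `q y ∈ L` and
`q y ∈ p L^#`.
* `q ≠ p`: `q² (p z) = q² y - q² l ∈ L`, `p z ∈ L^#`, so `q p z ∈ L` (`Elem` at `q`) and `q y ∈ L`.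
  `q² l = q² y - q² p z ∈ p L^#` and `p l ∈ p L^#` (`l ∈ L ≤ L^#`), `gcd(q², p) = 1`, so
  `l ∈ p L^#`, so `y ∈ pL^#`.
* `q = p`: `p³ z = p² y - p² l ∈ L`, so `p² (p z) ∈ L` and `Elem` at `p` for `p z ∈ L^#` gives
  `p² z ∈ L`; so `p y = p l + p² z ∈ L`, and `p y ∈ p L^#` as `y ∈ L^#`. -/
theorem rad_elem {B : LinearMap.BilinForm ℚ V} (hB : Nice B) {L : AddSubgroup V} (hL : IsLat L)
    (h : Integ B L) {p : ℕ} (hp : p.Prime) (hE : Elem B L p) {q : ℕ} (hq : q.Prime)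
    (hEq : Elem B L q) : Elem ((1 / (p : ℚ)) • B) (Rad B L p) q := by
  intro y hy hqy
  rw [rad_dual hB hL h hp.pos] at hy
  obtain ⟨l, hl, z, hz, rfl⟩ := hy
  have hle : L ≤ dualL B L := le_dual h
  have hpz : (p : ℤ) • z ∈ dualL B L := (dualL B L).zsmul_mem hz _
  have h1 : ((q : ℤ) ^ 2) • ((p : ℤ) • z) ∈ L := by
    have h2 : ((q : ℤ) ^ 2) • ((p : ℤ) • z)
        = ((q : ℤ) ^ 2) • (l + (p : ℤ) • z) - ((q : ℤ) ^ 2) • l := by
      rw [smul_add]; abel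
    rw [h2]
    exact L.sub_mem hqy.1 (L.zsmul_mem hl _)
  have h3 : (q : ℤ) • ((p : ℤ) • z) ∈ L := hEq _ hpz h1
  have h4 : (q : ℤ) • (l + (p : ℤ) • z) ∈ L := by
    rw [smul_add]
    exact L.add_mem (L.zsmul_mem hl _) h3
  rw [b2_mem_rad hp.pos]
  refine ⟨h4, ?_⟩
  by_cases hqp : q = p
  · subst hqp
    exact ⟨l + (q : ℤ) • z, (dualL B L).add_mem (hle hl) hpz, rfl⟩
  · -- `l ∈ p L^#`
    have hl' : l ∈ mulL p (dualL B L) := by
      apply b2_coprime (a := (q : ℤ) ^ 2) (b := (p : ℤ))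
      · have hc : Nat.Coprime (q ^ 2) p := Nat.Coprime.pow_left 2 ((Nat.coprime_primes hq hp).2 hqp)
        have := Nat.isCoprime_iff_coprime.2 hc
        push_cast at this
        exact this
      · obtain ⟨_, w, hw, hw2⟩ := (b2_mem_rad hp.pos _).1 hqy
        refine ⟨w - ((q : ℤ) ^ 2) • z, (dualL B L).sub_mem hw ((dualL B L).zsmul_mem hz _), ?_⟩
        rw [smul_sub, ← hw2, smul_add, smul_comm (p : ℤ) ((q : ℤ) ^ 2) z]
        abel
      · exact ⟨l, hle hl, rfl⟩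
    obtain ⟨w, hw, rfl⟩ := hl'
    refine ⟨(q : ℤ) • (w + z), (dualL B L).zsmul_mem ((dualL B L).add_mem hw hz) _, ?_⟩
    rw [← smul_add, smul_comm]

/-- The partial dual of the partial dual is `pL` with the form `p⁻² B`:
`Rad (p⁻¹B) (Rad B L p) p = pL`.
Proof: `x ∈ LHS` iff `x ∈ R` and `x/p ∈ (R)^{#, p⁻¹B} = L + pL^#`, i.e. `x = p l + p² z`.  Then
`p² z ∈ L`, and `Elem` at `p` gives `p z ∈ L`, so `x ∈ pL`.  Conversely `pL ≤ R` and
`p l / p = l ∈ L + pL^#`. -/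
theorem rad_rad {B : LinearMap.BilinForm ℚ V} (hB : Nice B) {L : AddSubgroup V} (hL : IsLat L)
    (h : Integ B L) {p : ℕ} (hp : p.Prime) (hE : Elem B L p) :
    Rad ((1 / (p : ℚ)) • B) (Rad B L p) p = mulL p L := by
  ext x
  rw [b2_mem_rad hp.pos]
  constructor
  · rintro ⟨hx, w, hw, rfl⟩
    rw [rad_dual hB hL h hp.pos] at hw
    obtain ⟨l, hl, z, hz, rfl⟩ := hw
    have h1 : ((p : ℤ) ^ 2) • z ∈ L := by
      have h2 : ((p : ℤ) ^ 2) • z = (p : ℤ) • (l + (p : ℤ) • z) - (p : ℤ) • l := by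
        rw [smul_add, smul_smul, pow_two]; abel
      rw [h2]
      exact L.sub_mem hx.1 (L.zsmul_mem hl _)
    have h3 := hE z hz h1
    exact ⟨l + (p : ℤ) • z, L.add_mem hl h3, rfl⟩
  · rintro ⟨l, hl, rfl⟩
    refine ⟨mulL_le_rad h p ⟨l, hl, rfl⟩, l, ?_, rfl⟩
    rw [rad_dual hB hL h hp.pos]
    exact ⟨l, hl, 0, (dualL B L).zero_mem, by simp⟩

/-- `R` is canonical: every isometry preserving `L` preserves `R` (no hypothesis on `L`) ... -/
theorem pres_rad {B : LinearMap.BilinForm ℚ V} {L : AddSubgroup V} {g : V ≃ₗ[ℚ] V}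
    (hg : Iso B g) (hL : Pres g L) (p : ℕ) : Pres g (Rad B L p) := by
  intro x
  constructor
  · rintro ⟨h1, h2⟩
    refine ⟨(hL x).1 h1, ?_⟩
    intro y hy
    have hy' : g.symm y ∈ L := by
      rw [hL]; simpa using hy
    obtain ⟨z, hz⟩ := h2 _ hy'
    refine ⟨z, ?_⟩
    rw [← hz, ← hg x (g.symm y)]
    simp
  · rintro ⟨h1, h2⟩
    refine ⟨(hL x).2 h1, ?_⟩
    intro y hy
    obtain ⟨z, hz⟩ := h2 (g y) ((hL y).1 hy)
    refine ⟨z, ?_⟩
    rw [← hz, hg]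

/-- ... and conversely (by `rad_rad` and `pres_rad` applied twice; `g` is an isometry of
`p⁻¹ B` too; `Pres g (mulL p L)` gives `Pres g L`). -/
theorem pres_of_rad {B : LinearMap.BilinForm ℚ V} (hB : Nice B) {L : AddSubgroup V}
    (hL : IsLat L) (h : Integ B L) {p : ℕ} (hp : p.Prime) (hE : Elem B L p)
    {g : V ≃ₗ[ℚ] V} (hg : Iso B g) (hR : Pres g (Rad B L p)) : Pres g L := by
  have hg' : Iso ((1 / (p : ℚ)) • B) g := by
    intro x y
    simp only [LinearMap.smul_apply, hg x y]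
  have h1 := pres_rad hg' hR p
  rw [rad_rad hB hL h hp hE] at h1
  have hp0 : (p : ℤ) ≠ 0 := by exact_mod_cast hp.ne_zero
  have key : ∀ x, (p : ℤ) • x ∈ mulL p L ↔ x ∈ L := by
    intro x
    constructor
    · rintro ⟨y, hy, hxy⟩
      have h2 : ((p : ℤ) : ℚ) • x = ((p : ℤ) : ℚ) • y := by
        rw [Int.cast_smul_eq_zsmul, Int.cast_smul_eq_zsmul]; exact hxy
      have h3 : ((p : ℤ) : ℚ) ≠ 0 := by exact_mod_cast hp0
      have h4 : x = y := by
        have := congrArg (fun v => (((p : ℤ) : ℚ))⁻¹ • v) h2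
        simpa only [smul_smul, inv_mul_cancel₀ h3, one_smul] using this
      rw [h4]; exact hy
    · intro hx
      exact ⟨x, hx, rfl⟩
  intro x
  rw [← key x, h1, map_zsmul, key]

/-- dual, intersection etc. are canonical -/
theorem pres_dual {B : LinearMap.BilinForm ℚ V} {L : AddSubgroup V} {g : V ≃ₗ[ℚ] V}
    (hg : Iso B g) (hL : Pres g L) : Pres g (dualL B L) := by
  intro x
  constructor
  · intro h2 y hy
    have hy' : g.symm y ∈ L := by
      rw [hL]; simpa using hy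
    obtain ⟨z, hz⟩ := h2 _ hy'
    refine ⟨z, ?_⟩
    rw [← hz, ← hg x (g.symm y)]
    simp
  · intro h2 y hy
    obtain ⟨z, hz⟩ := h2 (g y) ((hL y).1 hy)
    refine ⟨z, ?_⟩
    rw [← hz, hg]

end RH6
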