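import Pool.Agent.RH6.B2

namespace RH6

/-! Row [RH-B2b]: index of the radical. -/

variable {V : Type*} [AddCommGroup V] [Module ℚ V] [FiniteDimensional ℚ V]


theorem b2b_rad_eq {B : LinearMap.BilinForm ℚ V} {L : AddSubgroup V} {p : ℕ} (hp : 0 < p) :
    Rad B L p = L ⊓ mulL p (dualL B L) := by
  have hp0 : (p : ℚ) ≠ 0 := by exact_mod_cast hp.ne'
  ext x
  constructor
  · rintro ⟨hx, h⟩
    refine ⟨hx, (1 / (p : ℚ)) • x, dual_of_dvd hp (fun y hy => ?_), ?_⟩
    · obtain ⟨z, hz⟩ := h y hy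
      exact ⟨z, hz⟩
    · rw [← Int.cast_smul_eq_zsmul ℚ, smul_smul]
      have h1 : (((p : ℤ) : ℚ)) * (1 / (p : ℚ)) = 1 := by
        push_cast
        field_simp
      rw [h1, one_smul]
  · rintro ⟨hx, y, hy, rfl⟩
    refine ⟨hx, fun w hw => ?_⟩
    obtain ⟨z, hz⟩ := hy w hw
    refine ⟨z, ?_⟩
    rw [map_zsmul, LinearMap.smul_apply, hz]
    simp

theorem b2b_dual_eq {B : LinearMap.BilinForm ℚ V} (hB : Nice B) {L : AddSubgroup V}
    (hL : IsLat L) (h : Integ B L) {p : ℕ} (hp : 0 < p) :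
    dualL ((1 / (p : ℚ)) • B) (Rad B L p) = L ⊔ mulL p (dualL B L) := by
  ext x
  rw [rad_dual hB hL h hp, AddSubgroup.mem_sup]
  constructor
  · rintro ⟨l, hl, z, hz, rfl⟩
    exact ⟨l, hl, (p : ℤ) • z, ⟨z, hz, rfl⟩, rfl⟩
  · rintro ⟨l, hl, w, ⟨z, hz, rfl⟩, rfl⟩
    exact ⟨l, hl, z, hz, rfl⟩

/-- Index computation.  `disc(L) := [L^# : L]`; if `disc` is minimal in the sense that
`disc(L) ≤ disc(L^{(p)})`, then `[L : R] ≥ p^((n+1)/2)`; we only need `n = 7`: `p^4 ≤ [L : R]`.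
Proof: let `r = [L : R]`.  `[R : pL] = p^7 / r` by `relIndex_mulL` (`pL ≤ R ≤ L`).
`[L^# : L + pL^#] = [R : pL]`: both are the order of the `p`-torsion resp. of the cotorsion of the
finite group `A = L^#/L`: multiplication by `p` on `A` has kernel `(L^# ∩ p⁻¹L)/L ≅ R/pL` and
cokernel `L^#/(L + pL^#)`, and kernel and cokernel of an endomorphism of a finite group have the
same order.  So `disc(L) = [L^# : L + pL^#] [L + pL^# : L] = (p^7/r) s`, `s = [L + pL^# : L]`, and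
`disc(L^{(p)}) = [L + pL^# : R] = s r`.  So `p^7 ≤ r²`; as `r` divides `p^7` it is a power of `p`,
so `r ≥ p^4`. -/
theorem rad_index {B : LinearMap.BilinForm ℚ V} (hB : Nice B) {L : AddSubgroup V}
    (hL : IsLat L) (hn : Module.finrank ℚ V = 7) (h : Integ B L) {p : ℕ} (hp : p.Prime)
    (hmin : L.relIndex (dualL B L) ≤
      (Rad B L p).relIndex (dualL ((1 / (p : ℚ)) • B) (Rad B L p))) :
    p ^ 4 ≤ (Rad B L p).relIndex L := by
  set D := dualL B L with hD
  have hDlat : IsLat D := dual_isLat hB hL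
  have hLD : L ≤ D := le_dual h
  have hpD : mulL p D ≤ D := by
    rintro x ⟨y, hy, rfl⟩
    exact D.zsmul_mem hy _
  have hS : dualL ((1 / (p : ℚ)) • B) (Rad B L p) = L ⊔ mulL p D := b2b_dual_eq hB hL h hp.pos
  have hR : Rad B L p = L ⊓ mulL p D := b2b_rad_eq hp.pos
  rw [hS] at hmin
  -- `[L : R] = [S : pD]`
  have e1 : (Rad B L p).relIndex L = (mulL p D).relIndex (L ⊔ mulL p D) := by
    rw [hR, AddSubgroup.inf_relIndex_left, AddSubgroup.relIndex_sup_right]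
  have e2 : (mulL p D).relIndex (L ⊔ mulL p D) * (L ⊔ mulL p D).relIndex D = p ^ 7 := by
    rw [AddSubgroup.relIndex_mul_relIndex _ _ _ le_sup_right (sup_le hLD hpD),
      relIndex_mulL hDlat p hp.pos, hn]
  have e3 : L.relIndex (L ⊔ mulL p D) * (L ⊔ mulL p D).relIndex D = L.relIndex D :=
    AddSubgroup.relIndex_mul_relIndex _ _ _ le_sup_left (sup_le hLD hpD)
  have e4 : (Rad B L p).relIndex L * L.relIndex (L ⊔ mulL p D) =
      (Rad B L p).relIndex (L ⊔ mulL p D) :=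
    AddSubgroup.relIndex_mul_relIndex _ _ _ (hR ▸ inf_le_left) le_sup_left
  have hne : L.relIndex D ≠ 0 := relIndex_ne hL hDlat
  rw [← e1] at e2
  set r := (Rad B L p).relIndex L with hr
  set s := L.relIndex (L ⊔ mulL p D) with hs
  set t := (L ⊔ mulL p D).relIndex D with ht
  have hs0 : 0 < s := by
    rw [Nat.pos_iff_ne_zero]
    intro h0
    rw [h0, zero_mul] at e3
    exact hne e3.symm
  have h1 : t ≤ r := by
    rw [← e3, ← e4, mul_comm r s] at hmin
    exact Nat.le_of_mul_le_mul_left hmin hs0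
  obtain ⟨k, hk, hrk⟩ := (Nat.dvd_prime_pow hp).1 (Dvd.intro _ e2)
  have h2 : p ^ 7 ≤ r * r := by
    rw [← e2]
    exact Nat.mul_le_mul_left r h1
  rw [hrk, ← pow_add] at h2
  have h3 : 7 ≤ k + k := (Nat.pow_le_pow_iff_right hp.one_lt).1 h2
  rw [hrk]
  exact Nat.pow_le_pow_right hp.pos (by omega)

end RH6
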