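import Mathlib

open Matrix

namespace RH6

theorem b3_add_self (a : ZMod 2) : a + a = 0 := by
  revert a; decide

theorem b3_sq (a : ZMod 2) : a * a = a := by
  revert a; decide

/-- a symmetric matrix with zero diagonal and odd size over `ZMod 2` has determinant `0` -/
theorem b3_det_alt {n : Type} [Fintype n] [DecidableEq n] (hn : Odd (Fintype.card n))
    (A : Matrix n n (ZMod 2)) (hA : Aᵀ = A) (hd : ∀ i, A i i = 0) : A.det = 0 := by
  have hsym : ∀ i j, A i j = A j i := fun i j => by
    conv_lhs => rw [← hA]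
    rfl
  have hinv : ∀ σ : Equiv.Perm n, ∏ i, A (σ⁻¹ i) i = ∏ i, A (σ i) i := by
    intro σ
    rw [← Equiv.prod_comp σ (fun i => A (σ⁻¹ i) i)]
    refine Finset.prod_congr rfl fun i _ => ?_
    rw [show σ⁻¹ (σ i) = i from σ.symm_apply_apply i, hsym]
  rw [Matrix.det_apply]
  refine Finset.sum_involution (fun σ _ => σ⁻¹) ?_ ?_ (fun _ _ => Finset.mem_univ _) ?_
  · intro σ _
    rw [Equiv.Perm.sign_inv, hinv]
    exact b3_add_self _
  · intro σ _ hne heq
    apply hne
    have h1 : σ ^ 2 ^ 1 = 1 := by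
      rw [pow_one, pow_two]
      nth_rewrite 1 [← heq]
      exact inv_mul_cancel σ
    have h2 : ¬ 2 ∣ Fintype.card n := by
      intro h
      exact (Nat.not_even_iff_odd.2 hn) (even_iff_two_dvd.2 h)
    have : Fact (Nat.Prime 2) := ⟨Nat.prime_two⟩
    obtain ⟨a, ha⟩ := Equiv.Perm.exists_fixed_point_of_prime h2 h1
    rw [Finset.prod_eq_zero (Finset.mem_univ a) (by rw [ha]; exact hd a), smul_zero]
  · intro σ _
    exact inv_inv σ

/-- characteristic vectors, odd size -/
theorem b3_char_odd {n : Type} [Fintype n] [DecidableEq n] (hn : Odd (Fintype.card n))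
    (A : Matrix n n (ZMod 2)) (hA : Aᵀ = A) (hdet : A.det ≠ 0) (c : n → ZMod 2)
    (hc : A *ᵥ c = fun i => A i i) : c ⬝ᵥ (A *ᵥ c) = 1 := by
  have h1 : A + vecMulVec (A *ᵥ c) (A *ᵥ c) = A * (1 + vecMulVec c (A *ᵥ c)) := by
    rw [mul_add, mul_one, mul_vecMulVec]
  have h2 : (A + vecMulVec (A *ᵥ c) (A *ᵥ c)).det = 0 := by
    apply b3_det_alt hn
    · rw [transpose_add, hA, transpose_vecMulVec]
    · intro i
      rw [Matrix.add_apply, vecMulVec_apply, hc, b3_sq]
      exact b3_add_self _
  have h3 : (1 + vecMulVec c (A *ᵥ c)).det = 1 + (A *ᵥ c) ⬝ᵥ c := by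
    rw [vecMulVec_eq Unit, det_one_add_replicateCol_mul_replicateRow]
  rw [h1, det_mul, h3] at h2
  have h4 := (mul_eq_zero.1 h2).resolve_left hdet
  rw [dotProduct_comm]
  have h5 : ∀ a : ZMod 2, 1 + a = 0 → a = 1 := by decide
  exact h5 _ h4

/-- Row [RH-B3]: a symmetric matrix with zero diagonal and odd size over `ZMod 2` has
determinant `0`.
Proof: `det A = ∑_σ ∏_i A (σ i) i` (signs are `1` in characteristic 2).  Use
`Finset.sum_involution` with the involution `σ ↦ σ⁻¹`: the terms of `σ` and `σ⁻¹` are equal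
(symmetry; reindex the product by `σ`), so they cancel; a fixed point `σ = σ⁻¹` is an
involution of a set of odd size, so it has a fixed point `i`
(`Equiv.Perm.exists_fixed_point_of_prime` or parity of the support), and the term contains
`A i i = 0`. -/
theorem det_alt_odd {m : ℕ} (hm : Odd m) (A : Matrix (Fin m) (Fin m) (ZMod 2)) (hA : Aᵀ = A)
    (hd : ∀ i, A i i = 0) : A.det = 0 :=
  b3_det_alt (by rwa [Fintype.card_fin]) A hA hd

/-- Row [RH-B3]: characteristic vectors over `ZMod 2`.
Proof.  First let `m` be odd.  Let `d i = A i i`, so `A c = d`.  The matrix `A + d dᵀ`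
(`Matrix.vecMulVec d d`) is symmetric with diagonal `A i i + (A i i)² = 0`, so its determinant is
`0` by `det_alt_odd`.  By the matrix determinant lemma (`Matrix.det_add_replicateCol_mul_replicateRow`
or: `det (A (1 + c dᵀ)) = det A (1 + dᵀ c)`, as `d = A c`), `0 = det A (1 + d·c)`, so `d·c = 1`, and
`c·(A c) = c·d = 1 = m`.
For `m` even apply the odd case to the matrix `A ⊕ (1)` of size `m + 1` (`Matrix.fromBlocks` on
`Fin m ⊕ Unit` reindexed, or state `det_alt_odd` for a general fintype of odd cardinality) and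
`(c, 1)`: `c·(A c) + 1 = 1`. -/
theorem char_vec_mod2 {m : ℕ} (A : Matrix (Fin m) (Fin m) (ZMod 2)) (hA : Aᵀ = A)
    (hdet : A.det ≠ 0) (c : Fin m → ZMod 2) (hc : A *ᵥ c = fun i => A i i) :
    c ⬝ᵥ (A *ᵥ c) = (m : ZMod 2) := by
  rcases Nat.even_or_odd m with hm | hm
  · have hcard : Odd (Fintype.card (Fin m ⊕ Unit)) := by
      rw [Fintype.card_sum, Fintype.card_fin, Fintype.card_unit]
      exact hm.add_one
    have hm0 : (m : ZMod 2) = 0 := (ZMod.natCast_eq_zero_iff m 2).2 (even_iff_two_dvd.1 hm)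
    have hmul : fromBlocks A 0 0 (1 : Matrix Unit Unit (ZMod 2)) *ᵥ Sum.elim c (fun _ => 1) =
        Sum.elim (A *ᵥ c) (fun _ => 1) := by
      rw [fromBlocks_mulVec]
      simp
    have h := b3_char_odd hcard (fromBlocks A 0 0 1) ?_ ?_ (Sum.elim c (fun _ => 1)) ?_
    · rw [hmul] at h
      simp only [dotProduct, Fintype.sum_sum_type, Sum.elim_inl, Sum.elim_inr, Finset.univ_unique,
        Finset.sum_singleton, mul_one] at h
      rw [hm0]
      have h5 : ∀ a : ZMod 2, a + 1 = 1 → a = 0 := by decide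
      exact h5 _ h
    · rw [fromBlocks_transpose, hA, transpose_zero, transpose_zero, transpose_one]
    · rw [det_fromBlocks_zero₂₁, det_one, mul_one]
      exact hdet
    · rw [hmul, hc]
      ext i
      rcases i with i | i
      · rfl
      · simp
  · have hm1 : (m : ZMod 2) = 1 := by
      obtain ⟨k, hk⟩ := hm
      rw [hk]
      push_cast
      have h2 : (2 : ZMod 2) = 0 := by decide
      rw [h2, zero_mul, zero_add]
    rw [hm1]
    exact b3_char_odd (by rwa [Fintype.card_fin]) A hA hdet c hc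

end RH6
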