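import Pool.Agent.RH6.B3
import Pool.Agent.RH6.B1b

open Matrix

namespace RH6

/-- vanishing of additive functions -/
theorem b3b_van {M : Type*} [AddCommGroup M] (R : AddSubgroup M) {m : ℕ} (v : Fin m → M)
    (a : M → Fin m → ℕ) (ha : ∀ x, x - ∑ i, a x i • v i ∈ R) (φ : M →+ ZMod 2)
    (h1 : ∀ r ∈ R, φ r = 0) (h2 : ∀ i, φ (v i) = 0) (x : M) : φ x = 0 := by
  have h := h1 _ (ha x)
  rw [map_sub, map_sum, sub_eq_zero] at h
  rw [h]
  apply Finset.sum_eq_zero
  intro i _
  rw [map_nsmul, h2 i, smul_zero]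

/-- the algebra behind `char_vec` -/
theorem b3b_alg {M : Type*} [AddCommGroup M] (β : M →+ M →+ ZMod 2) (hs : ∀ x y, β x y = β y x)
    (R : AddSubgroup M) (hR : ∀ x, x ∈ R ↔ ∀ y, β x y = 0) (m : ℕ) (hm : R.index = 2 ^ m) :
    ∃ c : M, (∀ x, β x x = β x c) ∧ β c c = (m : ZMod 2) := by
  have h2Q : ∀ q : M ⧸ R, (2 : ℕ) • q = 0 := by
    intro q
    induction q using QuotientAddGroup.induction_on with
    | H x =>
      rw [← QuotientAddGroup.mk_nsmul, QuotientAddGroup.eq_zero_iff, hR]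
      intro y
      rw [map_nsmul, AddMonoidHom.nsmul_apply, nsmul_eq_mul]
      have : ((2 : ℕ) : ZMod 2) = 0 := rfl
      rw [this, zero_mul]
  let _ : Module (ZMod 2) (M ⧸ R) := AddCommGroup.zmodModule h2Q
  have hcard : Nat.card (M ⧸ R) = 2 ^ m := hm
  have : Finite (M ⧸ R) := Nat.finite_of_card_ne_zero (by rw [hcard]; positivity)
  have : Module.Finite (ZMod 2) (M ⧸ R) := Module.Finite.of_finite
  have hfr : Module.finrank (ZMod 2) (M ⧸ R) = m := by
    have h1 := Module.natCard_eq_pow_finrank (K := ZMod 2) (V := M ⧸ R)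
    rw [hcard, Nat.card_zmod] at h1
    exact (Nat.pow_right_injective (le_refl 2) h1).symm
  let b : Module.Basis (Fin m) (ZMod 2) (M ⧸ R) := Module.finBasisOfFinrankEq _ _ hfr
  have hv : ∀ i, ∃ v : M, (v : M ⧸ R) = b i := fun i => QuotientAddGroup.mk_surjective (b i)
  choose v hv using hv
  have hsmul : ∀ (a : ZMod 2) (q : M ⧸ R), a.val • q = a • q := by
    intro a q
    conv_rhs => rw [← ZMod.natCast_zmod_val a]
    rw [Nat.cast_smul_eq_nsmul]
  have hmk : ∀ w : Fin m → ZMod 2, (((∑ i, (w i).val • v i : M)) : M ⧸ R) = ∑ i, w i • b i := by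
    intro w
    rw [QuotientAddGroup.mk_sum]
    apply Finset.sum_congr rfl
    intro i _
    rw [QuotientAddGroup.mk_nsmul, hv, hsmul]
  have ha : ∀ x : M, x - ∑ i, (b.repr (x : M ⧸ R) i).val • v i ∈ R := by
    intro x
    rw [← QuotientAddGroup.eq_zero_iff, QuotientAddGroup.mk_sub, hmk, b.sum_repr, sub_self]
  have hval : ∀ (a : ZMod 2) (z : ZMod 2), a.val • z = a * z := by
    intro a z
    rw [nsmul_eq_mul, ZMod.natCast_zmod_val]
  let A : Matrix (Fin m) (Fin m) (ZMod 2) := fun i j => β (v i) (v j)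
  have hAs : Aᵀ = A := by
    ext i j
    exact hs _ _
  have hcomb : ∀ (w : Fin m → ZMod 2) (i : Fin m), β (v i) (∑ j, (w j).val • v j) = (A *ᵥ w) i := by
    intro w i
    rw [map_sum, Matrix.mulVec, dotProduct]
    apply Finset.sum_congr rfl
    intro j _
    rw [map_nsmul, hval, mul_comm]
  have hdet : A.det ≠ 0 := by
    intro h0
    obtain ⟨w, hw0, hw⟩ := Matrix.exists_mulVec_eq_zero_iff.2 h0
    apply hw0
    have hx : (∑ j, (w j).val • v j) ∈ R := by
      rw [hR]
      intro y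
      rw [hs]
      exact b3b_van R v _ ha (β.flip (∑ j, (w j).val • v j)) (fun r hr => by
        rw [AddMonoidHom.flip_apply]; exact (hR r).1 hr _) (fun i => by
        rw [AddMonoidHom.flip_apply, hcomb, hw]; rfl) y
    rw [← QuotientAddGroup.eq_zero_iff, hmk] at hx
    ext i
    have := Fintype.linearIndependent_iff.1 b.linearIndependent w hx i
    simpa using this
  have hu : IsUnit A.det := isUnit_iff_ne_zero.2 hdet
  let c0 : Fin m → ZMod 2 := A⁻¹ *ᵥ (fun i => A i i)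
  have hc0 : A *ᵥ c0 = fun i => A i i := by
    rw [Matrix.mulVec_mulVec, Matrix.mul_nonsing_inv A hu, Matrix.one_mulVec]
  have hchar := char_vec_mod2 A hAs hdet c0 hc0
  let q : M →+ ZMod 2 :=
    { toFun := fun x => β x x
      map_zero' := by simp
      map_add' := by
        intro x y
        rw [map_add β, AddMonoidHom.add_apply, map_add, map_add, hs y x]
        have : β x y + β x y = 0 := CharTwo.add_self_eq_zero _
        linear_combination this }
  refine ⟨∑ j, (c0 j).val • v j, ?_, ?_⟩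
  · intro x
    have h := b3b_van R v _ ha (q - β.flip (∑ j, (c0 j).val • v j)) (fun r hr => by
      rw [AddMonoidHom.sub_apply, AddMonoidHom.flip_apply, (hR r).1 hr, sub_zero]
      exact (hR r).1 hr _) (fun i => by
      rw [AddMonoidHom.sub_apply, AddMonoidHom.flip_apply, hcomb, hc0]
      exact sub_self _) x
    rw [AddMonoidHom.sub_apply, AddMonoidHom.flip_apply, sub_eq_zero] at h
    exact h
  · rw [← hchar, dotProduct]
    have h1 : ∀ y, β (∑ j, (c0 j).val • v j) y = ∑ j, c0 j * β (v j) y := by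
      intro y
      rw [map_sum, AddMonoidHom.finsetSum_apply]
      apply Finset.sum_congr rfl
      intro j _
      rw [map_nsmul, AddMonoidHom.nsmul_apply, hval]
    rw [h1]
    apply Finset.sum_congr rfl
    intro j _
    rw [hcomb]

variable {V : Type*} [AddCommGroup V] [Module ℚ V] [FiniteDimensional ℚ V]

omit [FiniteDimensional ℚ V] in
/-- the form modulo 2 -/
theorem b3b_beta {B : LinearMap.BilinForm ℚ V} {L : AddSubgroup V} (h : Integ B L) :
    ∃ β : L →+ L →+ ZMod 2, ∀ (x y : L) (z : ℤ), B x y = z → β x y = (z : ZMod 2) := by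
  have hnum : ∀ (x y : L) (z : ℤ), B x y = z → (B x y).num = z := by
    intro x y z hz
    rw [hz, Rat.num_intCast]
  have hadd1 : ∀ x x' y : L, (B (x + x' : L) y).num = (B x y).num + (B x' y).num := by
    intro x x' y
    obtain ⟨z, hz⟩ := h x x.2 y y.2
    obtain ⟨w, hw⟩ := h x' x'.2 y y.2
    rw [hnum x y z hz, hnum x' y w hw]
    apply hnum
    rw [AddSubgroup.coe_add, map_add, LinearMap.add_apply, hz, hw]
    push_cast
    ring
  have hadd2 : ∀ x y y' : L, (B x (y + y' : L)).num = (B x y).num + (B x y').num := by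
    intro x y y'
    obtain ⟨z, hz⟩ := h x x.2 y y.2
    obtain ⟨w, hw⟩ := h x x.2 y' y'.2
    rw [hnum x y z hz, hnum x y' w hw]
    apply hnum
    rw [AddSubgroup.coe_add, map_add, hz, hw]
    push_cast
    ring
  refine ⟨AddMonoidHom.mk' (fun x => AddMonoidHom.mk' (fun y => (((B x y).num : ℤ) : ZMod 2))
    ?_) ?_, ?_⟩
  · intro y y'
    rw [hadd2]; push_cast; ring
  · intro x x'
    ext y
    simp only [AddMonoidHom.mk'_apply, AddMonoidHom.add_apply]
    rw [hadd1]; push_cast; ring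
  · intro x y z hz
    simp only [AddMonoidHom.mk'_apply]
    rw [hnum x y z hz]

/-- Row [RH-B3b]: characteristic vectors of a lattice with respect to the unimodular part at 2.
Let `R = Rad B L 2`; `L/R` is a vector space over `ZMod 2` with `2^m` elements and the form
`(x,y) mod 2` on it is well defined, symmetric and nondegenerate (if `(x,y)` is even for all
`y ∈ L` then `x ∈ R`).  The map `x ↦ (x,x) mod 2` is additive on `L/R` (`(x,x)` is even on `R`:
for `x ∈ R`, `(x,x) ∈ 2ℤ`), so it is given by an element `c ∈ L`.  Choose a basis of `L/R`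
(`m` elements, `Module.Basis`), and apply `char_vec_mod2` to the Gram matrix mod 2. -/
theorem char_vec {B : LinearMap.BilinForm ℚ V} (hs : ∀ x y, B x y = B y x) {L : AddSubgroup V}
    (h : Integ B L) (m : ℕ) (hm : (Rad B L 2).relIndex L = 2 ^ m) :
    ∃ c ∈ L, (∀ x ∈ L, ∃ z : ℤ, B x x - B x c = 2 * z) ∧ ∃ z : ℤ, B c c - m = 2 * z := by
  obtain ⟨β, hβ⟩ := b3b_beta h
  have hsym : ∀ x y : L, β x y = β y x := by
    intro x y
    obtain ⟨z, hz⟩ := h x x.2 y y.2
    rw [hβ x y z hz, hβ y x z (by rw [hs]; exact hz)]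
  have hR : ∀ x : L, x ∈ (Rad B L 2).addSubgroupOf L ↔ ∀ y, β x y = 0 := by
    intro x
    rw [AddSubgroup.mem_addSubgroupOf]
    constructor
    · intro hx y
      obtain ⟨z, hz⟩ := hx.2 y y.2
      rw [hβ x y (2 * z) (by rw [hz]; push_cast; ring)]
      push_cast
      have : (2 : ZMod 2) = 0 := rfl
      rw [this, zero_mul]
    · intro hx
      refine ⟨x.2, fun y hy => ?_⟩
      obtain ⟨z, hz⟩ := h x x.2 y hy
      have h1 := hx ⟨y, hy⟩
      rw [hβ x ⟨y, hy⟩ z hz, ZMod.intCast_zmod_eq_zero_iff_dvd] at h1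
      obtain ⟨w, hw⟩ := h1
      exact ⟨w, by rw [hz, hw]; push_cast; ring⟩
  obtain ⟨c, hc1, hc2⟩ := b3b_alg β hsym _ hR m hm
  refine ⟨c, c.2, ?_, ?_⟩
  · intro x hx
    obtain ⟨z, hz⟩ := h x hx x hx
    obtain ⟨w, hw⟩ := h x hx c c.2
    have h1 := hc1 ⟨x, hx⟩
    rw [hβ ⟨x, hx⟩ ⟨x, hx⟩ z hz, hβ ⟨x, hx⟩ c w hw, ZMod.intCast_eq_intCast_iff_dvd_sub] at h1
    obtain ⟨u, hu⟩ := h1
    refine ⟨-u, ?_⟩
    rw [hz, hw]
    have : (w : ℚ) - z = 2 * u := by exact_mod_cast hu
    push_cast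
    linarith
  · obtain ⟨z, hz⟩ := h c c.2 c c.2
    rw [hβ c c z hz] at hc2
    have h1 : ((z : ℤ) : ZMod 2) = ((m : ℤ) : ZMod 2) := by rw [hc2]; push_cast; rfl
    rw [ZMod.intCast_eq_intCast_iff_dvd_sub] at h1
    obtain ⟨u, hu⟩ := h1
    refine ⟨-u, ?_⟩
    rw [hz]
    have : (m : ℚ) - z = 2 * u := by exact_mod_cast hu
    push_cast
    linarith

/-- `char_vec` for every characteristic vector `c`: two of them differ by an element `r` of
`Rad B L 2`, and `(c + r, c + r) = (c,c) + 2(c,r) + (r,r)`, `(r,r) ∈ 2ℤ`. -/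
theorem char_vec' {B : LinearMap.BilinForm ℚ V} (hs : ∀ x y, B x y = B y x) {L : AddSubgroup V}
    (h : Integ B L) (m : ℕ) (hm : (Rad B L 2).relIndex L = 2 ^ m) {c : V} (hc : c ∈ L)
    (hc2 : ∀ x ∈ L, ∃ z : ℤ, B x x - B x c = 2 * z) : ∃ z : ℤ, B c c - m = 2 * z := by
  obtain ⟨d, hd, hd2, z, hz⟩ := char_vec hs h m hm
  obtain ⟨u, hu⟩ := hd2 c hc
  obtain ⟨w, hw⟩ := hc2 d hd
  rw [hs d c] at hw
  exact ⟨u - w + z, by push_cast; linarith⟩

/-- for an even lattice `m` is even (`c = 0` is characteristic) -/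
theorem even_rank {B : LinearMap.BilinForm ℚ V} (hs : ∀ x y, B x y = B y x) {L : AddSubgroup V}
    (h : EvenL B L) (m : ℕ) (hm : (Rad B L 2).relIndex L = 2 ^ m) : Even m := by
  obtain ⟨z, hz⟩ := char_vec' hs h.1 m hm L.zero_mem (fun x hx => by
    obtain ⟨z, hz⟩ := h.2 x hx
    exact ⟨z, by rw [map_zero, sub_zero, hz]⟩)
  rw [map_zero, zero_sub] at hz
  have h1 : (m : ℤ) = -(2 * z) := by
    have : (m : ℚ) = -(2 * z) := by linarith
    exact_mod_cast this
  rw [← Int.even_coe_nat, h1, even_neg]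
  exact even_two_mul z

/-- the index of `Rad B L 2` is a power of 2 (`2L ≤ R ≤ L`, `relIndex_mulL`) -/
theorem rad_two_pow {B : LinearMap.BilinForm ℚ V} {L : AddSubgroup V} (hL : IsLat L)
    (h : Integ B L) : ∃ m ≤ Module.finrank ℚ V, (Rad B L 2).relIndex L = 2 ^ m := by
  have h1 : mulL 2 L ≤ Rad B L 2 := by
    rintro x ⟨y, hy, rfl⟩
    refine ⟨L.zsmul_mem hy _, fun w hw => ?_⟩
    obtain ⟨z, hz⟩ := h y hy w hw
    refine ⟨z, ?_⟩
    rw [map_zsmul, LinearMap.smul_apply, hz]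
    simp
  have h2 : Rad B L 2 ≤ L := fun x hx => hx.1
  have h3 := AddSubgroup.relIndex_mul_relIndex _ _ _ h1 h2
  rw [relIndex_mulL hL 2 (by norm_num)] at h3
  exact (Nat.dvd_prime_pow Nat.prime_two).1 ⟨_, by rw [← h3, mul_comm]⟩

end RH6
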