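import Pool.Agent.RH6.B2
import Pool.Agent.RH6.B3b

namespace RH6

variable {V : Type*} [AddCommGroup V] [Module ℚ V] [FiniteDimensional ℚ V]

section
omit [FiniteDimensional ℚ V]
variable (B : LinearMap.BilinForm ℚ V)

theorem b4_al (x y z : V) : B (x + y) z = B x z + B y z := by
  rw [map_add, LinearMap.add_apply]

theorem b4_ar (x y z : V) : B x (y + z) = B x y + B x z := map_add _ _ _

theorem b4_sl (x y z : V) : B (x - y) z = B x z - B y z := by
  rw [map_sub, LinearMap.sub_apply]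

theorem b4_sr (x y z : V) : B x (y - z) = B x y - B x z := map_sub _ _ _

theorem b4_zl (n : ℤ) (x y : V) : B (n • x) y = n * B x y := by
  rw [map_zsmul, LinearMap.smul_apply, zsmul_eq_mul]

theorem b4_zr (n : ℤ) (x y : V) : B x (n • y) = n * B x y := by
  rw [map_zsmul, zsmul_eq_mul]

theorem b4_ql (q : ℚ) (x y : V) : B (q • x) y = q * B x y := by
  rw [map_smul, LinearMap.smul_apply, smul_eq_mul]

theorem b4_half (c : V) : c = (2 : ℤ) • ((1 / 2 : ℚ) • c) := by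
  rw [← Int.cast_smul_eq_zsmul ℚ, smul_smul]
  norm_num

end

/-- the sublattice of the vectors with even norm -/
def b4_M (B : LinearMap.BilinForm ℚ V) (hs : ∀ x y, B x y = B y x) (L : AddSubgroup V) (h : Integ B L) :
    AddSubgroup V where
  carrier := {x | x ∈ L ∧ ∃ z : ℤ, B x x = 2 * z}
  zero_mem' := ⟨L.zero_mem, 0, by simp⟩
  add_mem' := by
    rintro a b ⟨ha', z, hz⟩ ⟨hb', w, hw⟩
    obtain ⟨u, hu⟩ := h a ha' b hb'
    refine ⟨L.add_mem ha' hb', z + w + u, ?_⟩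
    rw [b4_al, b4_ar, b4_ar, hz, hw, hs b a, hu]
    push_cast
    ring
  neg_mem' := by
    rintro a ⟨ha', z, hz⟩
    exact ⟨L.neg_mem ha', z, by simp [hz]⟩

omit [FiniteDimensional ℚ V] in
theorem b4_mem {B : LinearMap.BilinForm ℚ V} (hs : ∀ x y, B x y = B y x) {L : AddSubgroup V} (h : Integ B L)
    (x : V) : x ∈ b4_M B hs L h ↔ x ∈ L ∧ ∃ z : ℤ, B x x = 2 * z := Iff.rfl

omit [FiniteDimensional ℚ V] in
theorem b4_two {B : LinearMap.BilinForm ℚ V} (hs : ∀ x y, B x y = B y x) {L : AddSubgroup V} (h : Integ B L)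
    {x : V} (hx : x ∈ L) : (2 : ℤ) • x ∈ b4_M B hs L h := by
  obtain ⟨z, hz⟩ := h x hx x hx
  refine ⟨L.zsmul_mem hx 2, 2 * z, ?_⟩
  rw [b4_zl, b4_zr, hz]
  push_cast
  ring

theorem b4_par (z : ℤ) : (∃ w : ℤ, z = 2 * w) ∨ ∃ w : ℤ, z = 2 * w + 1 := by
  rcases Int.even_or_odd z with ⟨w, hw⟩ | ⟨w, hw⟩
  · exact Or.inl ⟨w, by omega⟩
  · exact Or.inr ⟨w, hw⟩

/-- the dual of `M` -/
theorem b4_dual {B : LinearMap.BilinForm ℚ V} (hs : ∀ x y, B x y = B y x) {L : AddSubgroup V} (h : Integ B L)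
    {c : V} (hc : c ∈ L) (hc2 : ∀ x ∈ L, ∃ z : ℤ, B x x - B x c = 2 * z) {y : V}
    (hy : y ∈ dualL B (b4_M B hs L h)) : y ∈ dualL B L ∨ y - (1 / 2 : ℚ) • c ∈ dualL B L := by
  by_cases hall : ∀ x ∈ L, ∃ z : ℤ, B y x = z
  · exact Or.inl hall
  push Not at hall
  obtain ⟨x₁, hx₁, hne⟩ := hall
  right
  -- `B y (2 x)` is an integer
  have h2 : ∀ x ∈ L, ∃ z : ℤ, 2 * B y x = z := by
    intro x hx
    obtain ⟨z, hz⟩ := hy _ (b4_two hs h hx)
    rw [b4_zr] at hz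
    exact ⟨z, by exact_mod_cast hz⟩
  obtain ⟨k₁, hk₁⟩ := h2 x₁ hx₁
  have hk₁' : ∃ w : ℤ, k₁ = 2 * w + 1 := by
    rcases b4_par k₁ with ⟨w, hw⟩ | h'
    · exfalso
      apply hne w
      rw [hw] at hk₁
      push_cast at hk₁
      linarith
    · exact h'
  obtain ⟨w₁, hw₁⟩ := hk₁'
  have hx₁M : x₁ ∉ b4_M B hs L h := fun hm => by
    obtain ⟨z, hz⟩ := hy _ hm
    exact hne z hz
  obtain ⟨n₁, hn₁⟩ := h x₁ hx₁ x₁ hx₁
  have hn₁' : ∃ w : ℤ, n₁ = 2 * w + 1 := by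
    rcases b4_par n₁ with ⟨w, hw⟩ | h'
    · exfalso
      apply hx₁M
      refine ⟨hx₁, w, ?_⟩
      rw [hn₁, hw]
      push_cast
      ring
    · exact h'
  obtain ⟨v₁, hv₁⟩ := hn₁'
  intro x hx
  obtain ⟨n, hn⟩ := h x hx x hx
  obtain ⟨d, hd⟩ := hc2 x hx
  obtain ⟨e, he⟩ := h x hx x₁ hx₁
  have hcx : B c x = n - 2 * d := by
    rw [hs c x]
    linarith
  rw [b4_sl, b4_ql, hcx]
  rcases b4_par n with ⟨w, hw⟩ | ⟨w, hw⟩
  · have hm : x ∈ b4_M B hs L h := ⟨hx, w, by rw [hn, hw]; push_cast; ring⟩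
    obtain ⟨z, hz⟩ := hy x hm
    refine ⟨z - w + d, ?_⟩
    rw [hz, hw]
    push_cast
    ring
  · have hm : x - x₁ ∈ b4_M B hs L h := by
      refine ⟨L.sub_mem hx hx₁, w + v₁ + 1 - e, ?_⟩
      rw [b4_sl, b4_sr, b4_sr, hn, hn₁, hs x₁ x, he, hw, hv₁]
      push_cast
      ring
    obtain ⟨z, hz⟩ := hy _ hm
    rw [b4_sr] at hz
    refine ⟨z + w₁ - w + d, ?_⟩
    have h5 : B y x = z + B y x₁ := by linarith
    have h6 : B y x₁ = (2 * w₁ + 1) / 2 := by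
      rw [hw₁] at hk₁
      push_cast at hk₁
      linarith
    rw [h5, h6, hw]
    push_cast
    ring

/-- Row [RH-B4]: the even sublattice when the unimodular rank at 2 is even.

Let `M = {x ∈ L : (x,x) ∈ 2ℤ}`.  It is a subgroup (`(x+y,x+y) = (x,x) + 2(x,y) + (y,y)`), `2L ≤ M`,
it is preserved by all isometries preserving `L`, and it is an even lattice.  Let `c ∈ L` be as in
`char_vec`, so `(x,x) ≡ (x,c) mod 2` for `x ∈ L` and, `m` being even, `(c,c)` is even.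

Claim: `M` is elementary at every prime `q`.  `M = {x ∈ L : (x,c) ∈ 2ℤ} = L ∩ ...`, so
`M^# = L^# ∪ (c/2 + L^#)`: if `y ∈ M^#` then `2y ∈ L^#` (as `2L ≤ M`).  If `M = L` there is nothing
to prove.  Otherwise let `x₁ ∈ L` with `(x₁,c)` odd; `(y, 2x₁)` is an integer; `L = M ∪ (x₁ + M)`.
If `(y,x₁) ∈ ℤ` then `y ∈ L^#`; otherwise `(y - c/2, x₁) ∈ ℤ` (both are half-odd) and
`(y - c/2, x) ∈ ℤ` for `x ∈ M`, so `y - c/2 ∈ L^#`.
* `q` odd, `y ∈ M^#`, `q² y ∈ M`: `2y ∈ L^#` (in both cases, as `c ∈ L ≤ L^#`), `q²(2y) ∈ L`, so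
  `q (2y) ∈ L`; and `q² y ∈ L`; as `gcd(2q, q²) = q`, `q y ∈ L`.  `(qy,qy) q² = (q²y,q²y)`
  is even and `q` is odd, so `(qy,qy)` is even: `qy ∈ M`.
* `q = 2`, `y ∈ M^#`, `4y ∈ M`.  If `y ∈ L^#`: `2y ∈ L` (`Elem` at 2), `(2y,2y) = 2 (y, 2y) ∈ 2ℤ`.
  If `y = c/2 + z`, `z ∈ L^#`: `4y = 2c + 4z ∈ L`, so `4z ∈ L`, `2z ∈ L`, `2y = c + 2z ∈ L` and
  `(2y,2y) = (c,c) + 4(c,z) + 2(z,2z)` is even.  So `2y ∈ M`. -/
theorem even_sub {B : LinearMap.BilinForm ℚ V} (hB : Nice B) {L : AddSubgroup V} (hL : IsLat L)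
    (h : Integ B L) (hE : ∀ p : ℕ, p.Prime → Elem B L p) (m : ℕ) (hme : Even m)
    (hm : (Rad B L 2).relIndex L = 2 ^ m) :
    ∃ M : AddSubgroup V, IsLat M ∧ EvenL B M ∧ (∀ p : ℕ, p.Prime → Elem B M p) ∧
      ∀ g : V ≃ₗ[ℚ] V, Iso B g → Pres g L → Pres g M := by
  obtain ⟨c, hc, hc2, zc, hzc⟩ := char_vec hB.symm h m hm
  refine ⟨b4_M B hB.symm L h, ?_, ⟨?_, ?_⟩, ?_, ?_⟩
  · exact isLat_of_comm hL 2 (by norm_num) (fun x hx => b4_two hB.symm h hx)
      (fun x hx => L.zsmul_mem hx.1 _)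
  · intro x hx y hy
    exact h x hx.1 y hy.1
  · intro x hx
    exact hx.2
  · intro p hp y hy hp2
    obtain ⟨hp2L, u, hu⟩ := hp2
    rcases hp.eq_two_or_odd' with rfl | hodd
    · -- `p = 2`
      rcases b4_dual hB.symm h hc hc2 hy with hyL | hz
      · have h2y : ((2 : ℕ) : ℤ) • y ∈ L := hE 2 Nat.prime_two y hyL hp2L
        obtain ⟨w, hw⟩ := hyL _ h2y
        refine ⟨h2y, w, ?_⟩
        rw [b4_zl, hw]
        push_cast
        ring
      · set z := y - (1 / 2 : ℚ) • c with hzdef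
        have hyz : (2 : ℤ) • y = (2 : ℤ) • z + c := by
          rw [hzdef, smul_sub, ← b4_half c, sub_add_cancel]
        have h4z : (((2 : ℕ) : ℤ) ^ 2) • z ∈ L := by
          have h1 : (((2 : ℕ) : ℤ) ^ 2) • z = (((2 : ℕ) : ℤ) ^ 2) • y - (2 : ℤ) • c := by
            have h3 : (((2 : ℕ) : ℤ) ^ 2) = 2 * 2 := by norm_num
            rw [h3, mul_smul, mul_smul, hyz, smul_add, add_sub_cancel_right]
          rw [h1]
          exact L.sub_mem hp2L (L.zsmul_mem hc 2)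
        have h2z : ((2 : ℕ) : ℤ) • z ∈ L := hE 2 Nat.prime_two z hz h4z
        have h2z' : (2 : ℤ) • z ∈ L := h2z
        have h2y : (2 : ℤ) • y ∈ L := by
          rw [hyz]
          exact L.add_mem h2z' hc
        obtain ⟨w, hw⟩ := hz _ h2z'
        obtain ⟨v, hv⟩ := hz _ hc
        obtain ⟨r, hr⟩ := hme
        refine ⟨h2y, w + 2 * v + zc + r, ?_⟩
        have hcast : ((2 : ℕ) : ℤ) • y = (2 : ℤ) • y := rfl
        rw [hcast, hyz, b4_al, b4_ar, b4_ar, b4_zl, hw, hB.symm c ((2 : ℤ) • z), b4_zl, hv]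
        have hcc : B c c = 2 * zc + m := by linarith
        rw [hcc, hr]
        push_cast
        ring
    · -- `p` odd
      have h2y : (2 : ℤ) • y ∈ dualL B L := by
        intro x hx
        obtain ⟨w, hw⟩ := hy _ (b4_two hB.symm h hx)
        refine ⟨w, ?_⟩
        rw [b4_zl, ← b4_zr]
        exact hw
      have h3 : ((p : ℤ) ^ 2) • ((2 : ℤ) • y) ∈ L := by
        rw [smul_comm]
        exact L.zsmul_mem hp2L 2
      have h4 := hE p hp _ h2y h3
      obtain ⟨k, hk⟩ := hodd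
      have hpy : (p : ℤ) • y ∈ L := by
        have h5 : (p : ℤ) • y = ((p : ℤ) ^ 2) • y - (k : ℤ) • ((p : ℤ) • ((2 : ℤ) • y)) := by
          rw [← mul_smul, ← mul_smul, ← sub_smul]
          congr 1
          rw [hk]
          push_cast
          ring
        rw [h5]
        exact L.sub_mem hp2L (L.zsmul_mem h4 k)
      obtain ⟨N, hN⟩ := h _ hpy _ hpy
      refine ⟨hpy, ?_⟩
      have h6 : ((p : ℤ) ^ 2) • y = (p : ℤ) • ((p : ℤ) • y) := by rw [← mul_smul, sq]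
      rw [h6, b4_zl, b4_zr, hN] at hu
      have h7 : (p : ℤ) * ((p : ℤ) * N) = 2 * u := by exact_mod_cast hu
      have h8 : (2 : ℤ) ∣ N := by
        have h9 : (2 : ℤ) ∣ (p : ℤ) * ((p : ℤ) * N) := ⟨u, h7⟩
        have hnp : ¬ (2 : ℤ) ∣ (p : ℤ) := by
          intro h10
          omega
        rcases Int.prime_two.dvd_or_dvd h9 with h10 | h10
        · exact absurd h10 hnp
        · rcases Int.prime_two.dvd_or_dvd h10 with h11 | h11
          · exact absurd h11 hnp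
          · exact h11
      obtain ⟨w, hw⟩ := h8
      refine ⟨w, ?_⟩
      rw [hN, hw]
      push_cast
      ring
  · intro g hg hP x
    rw [b4_mem, b4_mem, hg x x, ← hP x]

/-- Row [RH-B4]: from elementary to even elementary (odd dimension).
Proof: let `[L : Rad B L 2] = 2^m` (`rad_two_pow`).  If `m` is even use `even_sub` with `c = 1`.
If `m` is odd apply `even_sub` to the dual at 2, `L' = Rad B L 2` with the form `½B`
(`rad_isLat`, `rad_integ`, `rad_elem`, `pres_rad`): by `rad_rad`,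
`[L' : Rad (½B) L' 2] = [L' : 2L] = 2^(n-m)` (`relIndex_mulL`), and `n - m` is even. -/
theorem exists_even {B : LinearMap.BilinForm ℚ V} (hB : Nice B) {L : AddSubgroup V}
    (hL : IsLat L) (hn : Odd (Module.finrank ℚ V)) (h : Integ B L)
    (hE : ∀ p : ℕ, p.Prime → Elem B L p) :
    ∃ (c : ℚ) (M : AddSubgroup V), 0 < c ∧ IsLat M ∧ EvenL (c • B) M ∧
      (∀ p : ℕ, p.Prime → Elem (c • B) M p) ∧
      ∀ g : V ≃ₗ[ℚ] V, Iso B g → Pres g L → Pres g M := by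
  obtain ⟨m, hmn, hm⟩ := rad_two_pow hL h
  rcases Nat.even_or_odd m with he | ho
  · obtain ⟨M, h1, h2, h3, h4⟩ := even_sub hB hL h hE m he hm
    refine ⟨1, M, one_pos, h1, ?_, ?_, h4⟩
    · rw [one_smul]
      exact h2
    · rw [one_smul]
      exact h3
  · have hB' : Nice ((1 / ((2 : ℕ) : ℚ)) • B) := nice_smul hB (by norm_num)
    have hL' : IsLat (Rad B L 2) := rad_isLat hL h (by norm_num)
    have h' : Integ ((1 / ((2 : ℕ) : ℚ)) • B) (Rad B L 2) := rad_integ (by norm_num)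
    have hE' : ∀ p : ℕ, p.Prime → Elem ((1 / ((2 : ℕ) : ℚ)) • B) (Rad B L 2) p := fun p hp =>
      rad_elem hB hL h Nat.prime_two (hE 2 Nat.prime_two) hp (hE p hp)
    have hrr := rad_rad hB hL h Nat.prime_two (hE 2 Nat.prime_two)
    have hle : Rad B L 2 ≤ L := fun x hx => hx.1
    have hi := AddSubgroup.relIndex_mul_relIndex (mulL 2 L) (Rad B L 2) L (mulL_le_rad h 2) hle
    rw [relIndex_mulL hL 2 (by norm_num), hm] at hi
    have hidx : (Rad ((1 / ((2 : ℕ) : ℚ)) • B) (Rad B L 2) 2).relIndex (Rad B L 2) =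
        2 ^ (Module.finrank ℚ V - m) := by
      rw [hrr]
      have h5 : 2 ^ Module.finrank ℚ V = 2 ^ (Module.finrank ℚ V - m) * 2 ^ m := by
        rw [← pow_add, Nat.sub_add_cancel hmn]
      rw [h5] at hi
      exact Nat.eq_of_mul_eq_mul_right (by positivity) hi
    obtain ⟨M, h1, h2, h3, h4⟩ := even_sub hB' hL' h' hE' _ (Nat.Odd.sub_odd hn ho) hidx
    refine ⟨1 / ((2 : ℕ) : ℚ), M, by norm_num, h1, h2, h3, ?_⟩
    intro g hg hP
    refine h4 g ?_ (pres_rad hg hP 2)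
    intro x y
    rw [LinearMap.smul_apply, LinearMap.smul_apply, LinearMap.smul_apply, LinearMap.smul_apply, hg x y]

end RH6
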