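import Pool.Agent.RH6.UDef

namespace RH6.BD

def b0 : BCert :=
  ⟨[[0, 2, 0, 0, 0, 0, 0], [2, 0, 0, 0, 0, 0, 0], [0, 0, 1, 0, 0, 0, 0], [0, 0, 0, 1, 0, 0, 0], [0, 0, 0, 0, 1, 0, 0], [0, 0, 0, 0, 0, 1, 0], [0, 0, 0, 0, 0, 0, 15]], 30, [[0, 15, 0, 0, 0, 0, 0], [15, 0, 0, 0, 0, 0, 0], [0, 0, 30, 0, 0, 0, 0], [0, 0, 0, 30, 0, 0, 0], [0, 0, 0, 0, 30, 0, 0], [0, 0, 0, 0, 0, 30, 0], [0, 0, 0, 0, 0, 0, 2]], [3, -3, 2, 3, 2, 2, 1], 1, [-6, 6, 2, 3, 2, 2, 15], [[0, -1, 3, 0, 0, 0, 0], [0, -1, 0, 2, 0, 0, 0], [0, -1, 0, 0, 3, 0, 0], [0, -1, 0, 0, 0, 3, 0], [0, -5, 0, 0, 0, 0, 2]], 180, [20, 45, 20, 20, 3], [-5, 0, -5, -5, 3], [60, 0, 0, 0, 0, 0, 0], 1, [⟨1, [[2, 0, 2, 2, 40], [0, 4, 0, 0, 60], [0, 0, 6,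 12, 0], [0, 0, 0, 18, 0], [0, 0, 0, 0, 120]], [[0, 0, 0, 0, 0, 0, 0], [0, 0, 0, 0, 0, 0, 0], [0, 0, 0, 0, 0, 0, 0], [0, 0, 0, 0, 0, 0, 0], [0, 0, 0, 0, 0, 0, 0]], [[-20, 18, 9, 9, 6, 6, 45], [5, -6, -2, -2, -2, -2, -15], [6, -6, -3, -3, -1, -2, -15], [-2, 2, 1, 1, 0, 1, 5], [4, -3, -2, -2, -1, -1, -7]], [6, -4, 0, 0, 0]⟩, ⟨2, [[1, 0, 1, 1, 20], [0, 2, 0, 0, 30], [0, 0, 3, 6, 0], [0, 0, 0, 9, 0], [0, 0, 0, 0, 60]], [[0, 0, -1, -1, 0, 0, 0], [0, 0, 0, 0, 0, 0, 0], [0, 0, -1, -1, -1, 0, 0], [0, 0, -1, -1, 0, -1, 0], [0, 0, 0, 0, -1, -1, 0]], [[-20, 18, 10, 10, 6, 6, 45], [5, -6, -2, -2, -2, -2, -15], [6, -6, -2, -2, 0, -2, -15], [-2, 2, 2, 2, 0, 2, 5], [4, -3, -2, -2, 0, 0, -7]], [6, -4, 0, 0,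 0]⟩, ⟨3, [[2, 0, 2, 2, 40], [0, 4, 0, 0, 60], [0, 0, 6, 0, 40], [0, 0, 0, 6, 40], [0, 0, 0, 0, 120]], [[0, 1, 0, 0, 0, 0, 0], [0, -1, -1, -1, -1, -1, 0], [0, 0, 0, 0, 1, -1, 0], [0, 0, 0, 0, -1, 1, 0], [1, 0, 0, 0, 0, 0, 0]], [[-8, 6, 3, 3, 2, 2, 15], [3, -2, 0, 0, 0, 0, -5], [2, -2, -1, -1, -1, 0, -5], [2, -2, -1, -1, 0, -1, -5], [0, -1, 0, 0, 0, 0, 1]], [6, -4, 0, 0, 0]⟩, ⟨4, [[1, 0, 1, 1, 20], [0, 1, 0, 0, 15], [0, 0, 3, 6, 0], [0, 0, 0, 9, 0], [0, 0, 0, 0, 30]], [[1, -2, 1, 1, -2, -2, 1], [-1, 0, -2, 1, -2, -2, -1], [-2, -2, -1, -2, 1, 0, -2], [-2, -2, -1, -2, -2, -1, -2], [1, 0, 0, 0, -2, -2, -2]], [[16, -16, -4, -8, -4, -4, -45], [-4, 4, 2, 2, 2, 2, 15], [-4, 8, 2, 4, 2, 2, 30], [4, 0,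 0, 0, 0, 0, 10], [-8, 8, 2, 4, 4, 4, 38]], [-10, 2, 2, 2, 10]⟩, ⟨5, [[2, 0, 2, 2, 16], [0, 4, 0, 0, 12], [0, 0, 6, 12, 0], [0, 0, 0, 18, 0], [0, 0, 0, 0, 24]], [[2, 0, 2, 2, -2, -2, 0], [1, 0, -1, -1, -1, -1, 0], [1, -1, 1, 1, 2, -1, 0], [-2, 2, -2, -2, 0, -2, 0], [-1, 0, 0, 0, 1, 1, 0]], [[-4, 2, 1, 1, 2, 2, 9], [1, -2, 0, 0, 0, 0, -3], [2, -2, -1, -1, -1, 0, -3], [-2, 2, 1, 1, 0, 1, 1], [2, -1, -1, -1, -1, -1, -4]], [6, -4, 0, 0, 0]⟩, ⟨6, [[1, 0, 1, 1, 20], [0, 2, 0, 0, 30], [0, 0, 3, 0, 20], [0, 0, 0, 3, 20], [0, 0, 0, 0, 60]], [[0, 2, -3, -3, 0, 0, 0], [0, 1, -2, -2, -2, -2, 0], [0, 0, -3, -3, -1, -2, 0], [0, 0, -3, -3, -2, -1, 0], [-1, 0, 0, 0, 0, 0, 0]], [[-8, 6, 4, 4, 2, 2, 15], [1, -2,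 0, 0, 0, 0, -5], [2, -2, 0, 0, 0, 0, -5], [2, -2, 0, 0, 0, 0, -5], [0, 1, 0, 0, 0, 0, 1]], [6, -4, 0, 0, 0]⟩, ⟨10, [[1, 0, 1, 1, 8], [0, 2, 0, 0, 6], [0, 0, 3, 6, 0], [0, 0, 0, 9, 0], [0, 0, 0, 0, 12]], [[4, 0, -1, -1, -4, -4, 0], [2, 0, -2, -2, -2, -2, 0], [2, -2, -3, -3, -1, -2, 0], [-4, 4, 1, 1, 0, 1, 0], [-2, 0, -5, -5, -3, -3, 0]], [[-4, 2, 2, 2, 2, 2, 9], [1, -2, 0, 0, 0, 0, -3], [2, -2, 0, 0, 0, 0, -3], [-2, 2, 0, 0, 0, 0, 1], [2, -1, 0, 0, 0, 0, -4]], [6, -4, 0, 0, 0]⟩, ⟨12, [[1, 0, 1, 1, 20], [0, 1, 0, 0, 15], [0, 0, 3, 0, 20], [0, 0, 0, 3, 20], [0, 0, 0, 0, 30]], [[-3, 2, 5, -3, 2, 2, -1], [3, -4, 2, 5, 2, 2, 5], [-6, -6, 3, -6, 5, 4, -2], [-6, -6, 3, -6, 4, 5, -2], [1, 0, 0, 0, 0,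 0, 2]], [[4, -4, -2, -2, -2, -2, -10], [0, 0, 0, 0, 0, 0, -10], [0, 4, 0, 2, 0, 0, 10], [0, 4, 0, 2, 0, 0, 10], [0, 0, 0, 0, 0, 0, -4]], [-10, 2, 2, 2, 10]⟩, ⟨15, [[2, 0, 2, 2, 16], [0, 4, 0, 0, 12], [0, 0, 6, 0, 16], [0, 0, 0, 6, 16], [0, 0, 0, 0, 24]], [[0, 7, -6, 0, 0, 0, 0], [0, -4, 0, -7, 0, 0, 0], [0, 0, 7, 0, -7, 0, 0], [0, 0, 7, 0, 0, -7, 0], [-4, -7, 7, 7, 7, 7, 0]], [[-2, 0, 1, 0, 0, 0, 0], [1, 0, 0, 1, 0, 0, 0], [0, 0, -1, 0, 1, 0, 0], [0, 0, -1, 0, 0, 1, 0], [2, 1, -1, -1, -1, -1, 0]], [0, 0, 0, 0, -4]⟩, ⟨60, [[1, 0, 1, 1, 2], [0, 1, 0, 0, 3], [0, 0, 3, 0, 2], [0, 0, 0, 3, 2], [0, 0, 0, 0, 6]], [[0, -1, 3, 0, 0, 0, 0], [0, -1, 0, 2, 0, 0, 0], [0, 0, -1, 0, 1, 0, 0], [0, 0, -1, 0,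 0, 1, 0], [-1, 1, -1, -2, -1, -1, 0]], [[0, 0, 0, 0, 0, 0, 0], [0, 0, 0, 0, 0, 0, 0], [0, 0, 0, 0, 0, 0, 0], [0, 0, 0, 0, 0, 0, 0], [0, 0, 0, 0, 0, 0, 0]], [0, 0, 0, 0, -4]⟩]⟩

theorem b0_ok : chkBad b0 = true := by decide +kernel

def b1 : BCert :=
  ⟨[[0, 2, 0, 0, 0, 0, 0], [2, 0, 0, 0, 0, 0, 0], [0, 0, 1, 0, 0, 0, 0], [0, 0, 0, 1, 0, 0, 0], [0, 0, 0, 0, 1, 0, 0], [0, 0, 0, 0, 0, 5, 0], [0, 0, 0, 0, 0, 0, 5]], 10, [[0, 5, 0, 0, 0, 0, 0], [5, 0, 0, 0, 0, 0, 0], [0, 0, 10, 0, 0, 0, 0], [0, 0, 0, 10, 0, 0, 0], [0, 0, 0, 0, 10, 0, 0], [0, 0, 0, 0, 0, 2, 0], [0, 0, 0, 0, 0, 0, 2]], [2, -2, 1, 2, 1, 1, 1], 1, [-4, 4, 1, 2, 1, 5, 5], [[0, -1, 4, 0, 0, 0, 0], [0, -1, 0, 2, 0, 0, 0], [0, -1, 0, 0,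 4, 0, 0], [0, -5, 0, 0, 0, 4, 0], [0, -5, 0, 0, 0, 0, 4]], 80, [5, 20, 5, 1, 1], [-5, 0, -5, 1, 1], [40, 0, 0, 0, 0, 0, 0], 1, [⟨1, [[4, 0, 4, 20, 100], [0, 4, 0, 0, 80], [0, 0, 8, 0, 120], [0, 0, 0, 40, 120], [0, 0, 0, 0, 160]], [[0, 0, 0, 0, 0, 0, 0], [0, 0, 0, 0, 0, 0, 0], [0, 0, 0, 0, 0, 0, 0], [0, 0, 0, 0, 0, 0, 0], [0, 0, 0, 0, 0, 0, 0]], [[7, -8, 0, -4, -2, -10, -10], [-1, 0, 0, 1, 0, 0, 0], [-4, 4, 0, 2, 2, 5, 5], [-4, 4, 0, 2, 1, 6, 5], [2, -1, 0, -1, -1, -2, -1]], [-8, 0, 0, 0, 0]⟩, ⟨2, [[2, 0, 2, 10, 50], [0, 2, 0, 0, 40], [0, 0, 4, 0, 60], [0, 0, 0, 20, 60], [0, 0, 0, 0, 80]], [[0, 0, 0, 0, 0, 0, 0], [0, 0, 0, -1, 0, 0, 0], [0, 0, 0, 0, 0, 0, 0], [0, 0, 0, 0, -1, 0, 0], [0, 0, 0,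 -1, -1, 0, 0]], [[7, -8, 0, -4, -2, -10, -10], [-1, 0, 0, 2, 0, 0, 0], [-4, 4, 0, 2, 2, 5, 5], [-4, 4, 0, 2, 2, 6, 5], [2, -1, 0, 0, 0, -2, -1]], [-8, 0, 0, 0, 0]⟩, ⟨4, [[1, 1, 1, 5, 5], [0, 2, 0, 0, 0], [0, 0, 4, 0, 20], [0, 0, 0, 20, 20], [0, 0, 0, 0, 40]], [[0, -1, 0, 0, 0, 0, 0], [0, 0, 0, 1, -2, -2, -2], [-2, -2, 0, -2, -2, 1, 1], [-2, -2, 0, -2, 1, -2, 1], [-1, 1, 0, -1, -1, 1, -2]], [[8, -8, 0, -4, -2, -10, -10], [-4, 4, 0, 2, 2, 10, 10], [0, 4, 0, 2, 2, 0, 0], [0, 4, 0, 2, 0, 8, 0], [0, 0, 0, 0, 0, -4, 4]], [-8, 0, 0, 0, 0]⟩, ⟨5, [[4, 0, 4, 4, 20], [0, 4, 0, 0, 16], [0, 0, 8, 0, 24], [0, 0, 0, 8, 24], [0, 0, 0, 0, 32]], [[-2, -2, 0, -2, -1, 0, 0], [0, 1, 0, -2, 0, 0, 0], [1, -1, 0, 1,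 1, 0, 0], [1, 1, 0, 1, -2, 0, 0], [1, 2, 0, 2, 2, 0, 0]], [[3, 0, 0, 0, 0, -2, -2], [-1, 0, 0, 1, 0, 0, 0], [0, 0, 0, 0, 0, 1, 1], [-2, 0, 0, 0, 1, 2, 1], [-1, -1, 0, -1, -1, -1, 0]], [-8, 0, 0, 0, 0]⟩, ⟨10, [[2, 0, 2, 2, 10], [0, 2, 0, 0, 8], [0, 0, 4, 0, 12], [0, 0, 0, 4, 12], [0, 0, 0, 0, 16]], [[-4, -4, 0, -4, -2, -2, -2], [0, 2, 0, 1, 0, 0, 0], [2, -2, 0, 2, 2, 1, 1], [2, 2, 0, 2, 1, 2, 1], [2, 4, 0, -1, -1, -1, 0]], [[3, 0, 0, 0, 0, 0, 0], [-1, 0, 0, 0, 0, 0, 0], [0, 0, 0, 0, 0, 0, 0], [-2, 0, 0, 0, 0, 0, 0], [-1, -1, 0, 0, 0, 0, 0]], [-8, 0, 0, 0, 0]⟩, ⟨20, [[1, 1, 1, 1, 1], [0, 2, 0, 0, 0], [0, 0, 4, 0, 4], [0, 0, 0, 4, 4], [0, 0, 0, 0, 8]], [[-8, 7, 0, -8, -4, -4, -4], [4, -4, 0, 5,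 2, 2, 2], [2, -2, 0, 2, 2, 1, 1], [2, -3, 0, 2, 1, 2, 1], [-1, 1, 0, -1, -1, -1, 0]], [[0, 0, 0, 0, 0, 0, 0], [0, 0, 0, 0, 0, 0, 0], [0, 0, 0, 0, 0, 0, 0], [0, 0, 0, 0, 0, 0, 0], [0, 0, 0, 0, 0, 0, 0]], [-8, 0, 0, 0, 0]⟩]⟩

theorem b1_ok : chkBad b1 = true := by decide +kernel

def b2 : BCert :=
  ⟨[[0, 2, 0, 0, 0, 0, 0], [2, 0, 0, 0, 0, 0, 0], [0, 0, 5, 0, 0, 0, 0], [0, 0, 0, 5, 0, 0, 0], [0, 0, 0, 0, 5, 0, 0], [0, 0, 0, 0, 0, 1, 0], [0, 0, 0, 0, 0, 0, 1]], 10, [[0, 5, 0, 0, 0, 0, 0], [5, 0, 0, 0, 0, 0, 0], [0, 0, 2, 0, 0, 0, 0], [0, 0, 0, 2, 0, 0, 0], [0, 0, 0, 0, 2, 0, 0], [0, 0, 0, 0, 0, 10, 0], [0, 0, 0, 0, 0, 0, 10]], [2, -4, 1, 2, 1, 1, 1], 1, [-8, 4, 5, 10, 5, 1, 1], [[0, -5, 4, 0, 0,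 0, 0], [0, -5, 0, 2, 0, 0, 0], [0, -5, 0, 0, 4, 0, 0], [0, -1, 0, 0, 0, 4, 0], [0, -1, 0, 0, 0, 0, 4]], 80, [1, 4, 1, 5, 5], [-1, 0, -1, 1, 1], [40, 0, 0, 0, 0, 0, 0], 1, [⟨1, [[20, 0, 20, 4, 20], [0, 20, 0, 0, 16], [0, 0, 40, 0, 24], [0, 0, 0, 8, 24], [0, 0, 0, 0, 32]], [[0, 0, 0, 0, 0, 0, 0], [0, 0, 0, 0, 0, 0, 0], [0, 0, 0, 0, 0, 0, 0], [0, 0, 0, 0, 0, 0, 0], [0, 0, 0, 0, 0, 0, 0]], [[-1, 0, 2, 0, 0, 0, 0], [-1, 0, 0, 1, 0, 0, 0], [0, 0, -1, 0, 1, 0, 0], [8, -4, -6, -10, -5, 0, -1], [-5, 3, 4, 7, 3, 0, 1]], [0, 0, 0, -8, 0]⟩, ⟨2, [[10, 0, 10, 2, 10], [0, 10, 0, 0, 8], [0, 0, 20, 0, 12], [0, 0, 0, 4, 12], [0, 0, 0, 0, 16]], [[0, 0, 0, 0, 0, 0, 0], [0, 0, 0, 0, 0, 0, 0], [0, 0, 0, 0, 0, 0,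 0], [0, 0, 0, 0, 0, 0, -1], [0, 0, 0, 0, 0, 0, -1]], [[-1, 0, 2, 0, 0, 0, 0], [-1, 0, 0, 1, 0, 0, 0], [0, 0, -1, 0, 1, 0, 0], [8, -4, -6, -10, -5, 0, 0], [-5, 3, 4, 7, 3, 0, 2]], [0, 0, 0, -8, 0]⟩, ⟨4, [[5, 5, 5, 1, 1], [0, 10, 0, 0, 0], [0, 0, 20, 0, 4], [0, 0, 0, 4, 4], [0, 0, 0, 0, 8]], [[0, -1, 0, 0, 0, 0, 0], [0, 0, -2, 1, 0, 0, 0], [0, 0, -1, 0, 1, 0, 0], [-2, 0, -2, -2, -1, 0, -1], [1, -2, -1, 1, -2, 0, 1]], [[0, 0, 2, 0, 0, 0, 0], [0, 0, 4, -2, 0, 0, 0], [0, 0, 2, 0, -2, 0, 0], [4, 0, 2, 0, 0, 0, 0], [0, 0, 4, 0, 6, 0, 0]], [0, 0, 0, -8, 0]⟩, ⟨5, [[4, 0, 4, 4, 20], [0, 4, 0, 0, 16], [0, 0, 8, 0, 24], [0, 0, 0, 8, 24], [0, 0, 0, 0, 32]], [[-2, -1, 0, 0, 0, -1, -1], [0, 0, 0, 0, 0, 0,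 0], [1, -2, 0, 0, 0, -2, -2], [1, 1, 0, 0, 0, 1, -2], [1, -1, 0, 0, 0, 2, 0]], [[3, 0, 0, -4, -2, 0, 0], [-1, 0, 0, 1, 0, 0, 0], [0, 0, 0, 2, 2, 1, 1], [-2, 0, 0, 2, 1, 0, 1], [2, -1, 0, -1, -1, -1, 0]], [-8, 0, 0, 0, 0]⟩, ⟨10, [[2, 0, 2, 2, 10], [0, 2, 0, 0, 8], [0, 0, 4, 0, 12], [0, 0, 0, 4, 12], [0, 0, 0, 0, 16]], [[-4, -2, 0, -4, -2, -2, -2], [0, 0, 0, 1, 0, 0, 0], [2, -4, 0, 2, 2, 1, 1], [2, 2, 0, 2, 1, 2, 1], [2, -2, 0, -1, -1, -1, 0]], [[3, 0, 0, 0, 0, 0, 0], [-1, 0, 0, 0, 0, 0, 0], [0, 0, 0, 0, 0, 0, 0], [-2, 0, 0, 0, 0, 0, 0], [2, -1, 0, 0, 0, 0, 0]], [-8, 0, 0, 0, 0]⟩, ⟨20, [[1, 1, 1, 1, 1], [0, 2, 0, 0, 0], [0, 0, 4, 0, 4], [0, 0, 0, 4, 4], [0, 0, 0, 0, 8]], [[-8, -9, 0, -8, -4, -4,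 -4], [4, -8, 0, 5, 2, 2, 2], [2, -4, 0, 2, 2, 1, 1], [2, -3, 0, 2, 1, 2, 1], [-1, 2, 0, -1, -1, -1, 0]], [[4, 0, 0, 0, 0, 0, 0], [0, 0, 0, 0, 0, 0, 0], [0, 0, 0, 0, 0, 0, 0], [0, 0, 0, 0, 0, 0, 0], [0, 0, 0, 0, 0, 0, 0]], [-8, 0, 0, 0, 0]⟩]⟩

theorem b2_ok : chkBad b2 = true := by decide +kernel

def b3 : BCert :=
  ⟨[[0, 1, 0, 0, 0, 0, 0], [1, 0, 0, 0, 0, 0, 0], [0, 0, 1, 0, 0, 0, 0], [0, 0, 0, 1, 0, 0, 0], [0, 0, 0, 0, 1, 0, 0], [0, 0, 0, 0, 0, 5, 0], [0, 0, 0, 0, 0, 0, 15]], 15, [[0, 15, 0, 0, 0, 0, 0], [15, 0, 0, 0, 0, 0, 0], [0, 0, 15, 0, 0, 0, 0], [0, 0, 0, 15, 0, 0, 0], [0, 0, 0, 0, 15, 0, 0], [0, 0, 0, 0, 0, 3, 0], [0, 0, 0, 0, 0, 0, 1]], [4, -5, 1, 2, 0, 2, 1], 1, [-5, 4, 1, 2, 0, 10,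 15], [[0, -1, 4, 0, 0, 0, 0], [0, -1, 0, 2, 0, 0, 0], [0, 0, 0, 0, 1, 0, 0], [0, -5, 0, 0, 0, 2, 0], [0, -15, 0, 0, 0, 0, 4]], 240, [15, 60, 240, 12, 1], [0, 1, 0, 1, 0], [60, 0, 0, 0, 0, 0, 0], 1, [⟨1, [[2, 2, 0, 10, 150], [0, 4, 0, 0, 240], [0, 0, 2, 0, 0], [0, 0, 0, 20, 240], [0, 0, 0, 0, 480]], [[0, 0, 0, 0, 0, 0, 0], [0, 0, 0, 0, 0, 0, 0], [0, 0, 0, 0, 0, 0, 0], [0, 0, 0, 0, 0, 0, 0], [0, 0, 0, 0, 0, 0, 0]], [[19, -16, 0, -8, 0, -40, -60], [-10, 8, 0, 5, 0, 20, 30], [0, 0, 0, 0, 1, 0, 0], [-10, 8, 0, 4, 0, 21, 30], [4, -3, 0, -2, 0, -8, -11]], [-8, 0, 0, 0, 0]⟩, ⟨2, [[1, 1, 0, 5, 75], [0, 2, 0, 0, 120], [0, 0, 1, 0, 0], [0, 0, 0, 10, 120], [0, 0, 0, 0, 240]], [[0, -1, 0, 0, 0, 0, 0], [0,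 0, 0, -1, 0, 0, 0], [0, 0, 0, 0, -1, 0, 0], [0, 0, 0, 0, 0, 0, 0], [-1, 0, 0, 0, 0, 0, 0]], [[20, -16, 0, -8, 0, -40, -60], [-10, 8, 0, 6, 0, 20, 30], [0, 0, 0, 0, 2, 0, 0], [-10, 8, 0, 4, 0, 21, 30], [4, -2, 0, -2, 0, -8, -11]], [-8, 0, 0, 0, 0]⟩, ⟨3, [[2, 2, 0, 10, 150], [0, 4, 0, 0, 80], [0, 0, 2, 0, 0], [0, 0, 0, 20, 80], [0, 0, 0, 0, 160]], [[1, -1, 0, -1, 0, -1, 0], [1, 1, 0, 1, 0, -1, 0], [0, 0, 0, 0, -1, 0, 0], [1, 1, 0, -1, 0, 0, 0], [-1, -1, 0, 0, 0, -1, 0]], [[7, -6, 0, -2, 0, -10, -20], [-4, 2, 0, 1, 0, 10, 10], [0, 0, 0, 0, 1, 0, 0], [-4, 2, 0, 2, 0, 7, 10], [-2, 3, 0, 1, 0, 9, 9]], [-8, 0, 0, 0, 0]⟩, ⟨5, [[2, 2, 0, 2, 54], [0, 4, 0, 0, 48], [0, 0, 2, 0, 0], [0, 0, 0, 4, 48], [0,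 0, 0, 0, 96]], [[2, 2, 0, 1, 0, 0, 0], [-1, 0, 0, 0, 0, 0, 0], [0, 0, 0, 0, -2, 0, 0], [-1, -1, 0, 2, 0, 0, 0], [-2, 0, 0, 0, 0, 0, 0]], [[3, -4, 0, -2, 0, -8, -12], [-2, 2, 0, 1, 0, 4, 6], [0, 0, 0, 0, 1, 0, 0], [-2, 2, 0, 0, 0, 5, 6], [0, 1, 0, 0, 0, 0, 1]], [-8, 0, 0, 0, 0]⟩, ⟨6, [[1, 1, 0, 5, 75], [0, 2, 0, 0, 40], [0, 0, 1, 0, 0], [0, 0, 0, 10, 40], [0, 0, 0, 0, 80]], [[2, 1, 0, -2, 0, -2, 0], [2, 2, 0, -1, 0, -2, 0], [0, 0, 0, 0, 1, 0, 0], [2, 2, 0, -2, 0, -3, 0], [1, -2, 0, -3, 0, 1, 0]], [[6, -6, 0, -2, 0, -10, -20], [-4, 2, 0, 2, 0, 10, 10], [0, 0, 0, 0, 0, 0, 0], [-4, 2, 0, 2, 0, 12, 10], [-2, 2, 0, 2, 0, 4, 9]], [-8, 0, 0, 0, 0]⟩, ⟨10, [[1, 1, 0, 1, 27], [0, 2, 0, 0, 24], [0, 0, 1,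 0, 0], [0, 0, 0, 2, 24], [0, 0, 0, 0, 48]], [[4, -1, 0, 2, 0, 2, 0], [-2, 0, 0, -5, 0, 4, 0], [0, 0, 0, 0, 1, 0, 0], [-2, -2, 0, 4, 0, -5, 0], [1, 0, 0, 0, 0, 0, 0]], [[4, -4, 0, -2, 0, -10, -12], [-2, 2, 0, 2, 0, 0, 6], [0, 0, 0, 0, 0, 0, 0], [-2, 2, 0, 0, 0, 10, 6], [0, 0, 0, 0, 0, 0, 1]], [-8, 0, 0, 0, 0]⟩, ⟨15, [[2, 2, 0, 2, 22], [0, 4, 0, 0, 16], [0, 0, 2, 0, 0], [0, 0, 0, 4, 16], [0, 0, 0, 0, 32]], [[7, 2, 0, -4, 0, -7, 0], [4, -5, 0, -5, 0, -4, 0], [0, 0, 0, 0, -7, 0, 0], [4, -6, 0, 2, 0, -5, 0], [-6, 6, 0, -7, 0, -1, 0]], [[1, -2, 0, 0, 0, 2, -4], [0, 0, 0, 1, 0, 4, 2], [0, 0, 0, 0, 1, 0, 0], [0, 0, 0, 0, 0, 5, 2], [-1, 1, 0, 1, 0, 1, 1]], [-8, 0, 0, 0, 0]⟩]⟩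

theorem b3_ok : chkBad b3 = true := by decide +kernel

def b4 : BCert :=
  ⟨[[0, 2, 0, 0, 0, 0, 0], [2, 0, 0, 0, 0, 0, 0], [0, 0, 1, 0, 0, 0, 0], [0, 0, 0, 1, 0, 0, 0], [0, 0, 0, 0, 1, 0, 0], [0, 0, 0, 0, 0, 5, 0], [0, 0, 0, 0, 0, 0, 15]], 30, [[0, 15, 0, 0, 0, 0, 0], [15, 0, 0, 0, 0, 0, 0], [0, 0, 30, 0, 0, 0, 0], [0, 0, 0, 30, 0, 0, 0], [0, 0, 0, 0, 30, 0, 0], [0, 0, 0, 0, 0, 6, 0], [0, 0, 0, 0, 0, 0, 2]], [3, -6, 2, 2, 2, 3, 1], 1, [-12, 6, 2, 2, 2, 15, 15], [[0, -1, 3, 0, 0, 0, 0], [0, -1, 0, 3, 0, 0, 0], [0, -1, 0, 0, 3, 0, 0], [0, -5, 0, 0, 0, 2, 0], [0, -5, 0, 0, 0, 0, 2]], 180, [20, 20, 20, 9, 3], [1, 1, 1, 0, 0], [60, 0, 0, 0, 0, 0, 0], 1, [⟨1, [[2, 2, 2, 0, 40], [0, 6, 12, 0, 0],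 [0, 0, 18, 0, 0], [0, 0, 0, 20, 60], [0, 0, 0, 0, 120]], [[0, 0, 0, 0, 0, 0, 0], [0, 0, 0, 0, 0, 0, 0], [0, 0, 0, 0, 0, 0, 0], [0, 0, 0, 0, 0, 0, 0], [0, 0, 0, 0, 0, 0, 0]], [[-254, 126, 45, 42, 42, 315, 315], [84, -42, -15, -13, -14, -105, -105], [-28, 14, 5, 4, 5, 35, 35], [11, -6, -2, -2, -2, -14, -15], [79, -39, -14, -13, -13, -98, -97]], [42, 0, 0, -20, 0]⟩, ⟨2, [[1, 1, 1, 0, 20], [0, 3, 6, 0, 0], [0, 0, 9, 0, 0], [0, 0, 0, 10, 30], [0, 0, 0, 0, 60]], [[0, 0, -1, 0, 0, 0, 0], [0, 0, -1, -1, 0, 0, 0], [0, 0, -1, 0, -1, 0, 0], [0, 0, 0, 0, 0, 0, 0], [0, 0, 0, -1, -1, 0, 0]], [[-254, 126, 46, 42, 42, 315, 315], [84, -42, -14, -12, -14, -105, -105], [-28, 14, 6, 4, 6, 35, 35], [11, -6, -2,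 -2, -2, -14, -15], [79, -39, -14, -12, -12, -98, -97]], [42, 0, 0, -20, 0]⟩, ⟨3, [[2, 2, 2, 0, 40], [0, 6, 0, 0, 40], [0, 0, 6, 0, 40], [0, 0, 0, 20, 60], [0, 0, 0, 0, 120]], [[0, 1, 0, 0, 0, 0, 0], [0, 0, 0, 1, -1, 0, 0], [0, 0, 0, -1, 1, 0, 0], [0, -1, -1, -1, -1, 1, 0], [1, -1, 1, 1, 1, -1, 0]], [[-86, 42, 15, 14, 14, 105, 105], [28, -14, -5, -5, -4, -35, -35], [28, -14, -5, -4, -5, -35, -35], [5, -2, 0, 0, 0, -8, -5], [9, -5, -2, -2, -2, -6, -9]], [42, 0, 0, -20, 0]⟩, ⟨4, [[1, 1, 1, 0, 20], [0, 3, 6, 0, 0], [0, 0, 9, 0, 0], [0, 0, 0, 5, 15], [0, 0, 0, 0, 30]], [[1, 1, 1, -2, -2, 1, 1], [1, -2, 1, -1, -2, 1, 1], [1, -2, 1, 0, 1, 1, 1], [0, -1, 0, 0, 0, -2, 0], [-2, 1, -2, 0, 0, 1, -1]], [[-20,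 8, 4, 4, 4, 20, 15], [8, -4, -2, 0, 0, -10, -15], [0, 0, 0, 0, 0, 0, -5], [0, 0, 0, 0, 0, 6, 0], [12, -4, -2, -2, -2, -18, -7]], [6, 0, 0, 0, 0]⟩, ⟨5, [[2, 2, 2, 0, 16], [0, 6, 12, 0, 0], [0, 0, 18, 0, 0], [0, 0, 0, 4, 12], [0, 0, 0, 0, 24]], [[2, -2, 2, -2, -2, 0, 0], [1, -2, 1, 2, -1, 0, 0], [-2, -1, -2, 0, -2, 0, 0], [1, -2, -1, -1, -1, 0, 0], [-1, -1, 0, 1, 1, 0, 0]], [[-6, 2, 1, 2, 2, 9, 9], [4, -2, -1, -1, 0, -3, -3], [0, 2, 1, 0, 1, 1, 1], [3, -2, 0, 0, 0, -2, -3], [5, -1, -1, -1, -1, -5, -4]], [6, 0, 0, -4, 0]⟩, ⟨6, [[1, 1, 1, 0, 20], [0, 3, 0, 0, 20], [0, 0, 3, 0, 20], [0, 0, 0, 10, 30], [0, 0, 0, 0, 60]], [[0, 2, -3, 0, 0, -3, 0], [0, 0, -3, -1, -2, -3, 0], [0, 0, -3, -2, -1, -3, 0],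 [0, 1, -2, -2, -2, 2, 0], [-1, 1, 2, 2, 2, -2, 0]], [[-86, 42, 16, 14, 14, 110, 105], [28, -14, -4, -4, -4, -30, -35], [28, -14, -4, -4, -4, -30, -35], [3, -2, 0, 0, 0, -8, -5], [7, -3, -2, -2, -2, -6, -9]], [42, 0, 0, -20, 0]⟩, ⟨10, [[1, 1, 1, 0, 8], [0, 3, 6, 0, 0], [0, 0, 9, 0, 0], [0, 0, 0, 2, 6], [0, 0, 0, 0, 12]], [[4, -4, -1, -4, -4, -1, 0], [2, -4, -3, -1, -2, -3, 0], [-4, -2, 1, 0, 1, 1, 0], [2, -4, -2, -2, -2, -2, 0], [-2, -2, -5, -3, -3, -5, 0]], [[-6, 2, 2, 2, 2, 10, 9], [4, -2, 0, 0, 0, 0, -3], [0, 2, 0, 0, 0, 0, 1], [3, -2, 0, 0, 0, 0, -3], [5, -1, 0, 0, 0, 0, -4]], [6, 0, 0, -4, 0]⟩, ⟨12, [[1, 1, 1, 0, 20], [0, 3, 0, 0, 20], [0, 0, 3, 0, 20], [0, 0, 0, 5, 15], [0, 0, 0, 0, 30]],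 [[-3, 5, -3, -6, -6, 3, 3], [-3, -6, -3, -1, -2, 3, -5], [-3, -6, -3, -2, -1, 3, -5], [0, -1, 0, 0, 0, -2, 0], [-2, 5, -2, -2, -2, -1, -3]], [[-8, 4, 2, 2, 2, 5, 0], [4, 0, 0, 0, 0, -5, 10], [4, 0, 0, 0, 0, -5, 10], [0, 0, 0, 0, 0, 2, 0], [0, 0, 0, 0, 0, -1, 6]], [6, 0, 0, 0, 0]⟩]⟩

theorem b4_ok : chkBad b4 = true := by decide +kernel

def b5 : BCert :=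
  ⟨[[0, 1, 0, 0, 0, 0, 0], [1, 0, 0, 0, 0, 0, 0], [0, 0, 5, 0, 0, 0, 0], [0, 0, 0, 5, 0, 0, 0], [0, 0, 0, 0, 5, 0, 0], [0, 0, 0, 0, 0, 1, 0], [0, 0, 0, 0, 0, 0, 3]], 15, [[0, 15, 0, 0, 0, 0, 0], [15, 0, 0, 0, 0, 0, 0], [0, 0, 3, 0, 0, 0, 0], [0, 0, 0, 3, 0, 0, 0], [0, 0, 0, 0, 3, 0, 0], [0, 0, 0, 0, 0, 15, 0], [0, 0, 0, 0, 0, 0, 5]], [4, -4, 1, 2, 0, 2, 1], 1, [-4, 4, 5, 10, 0, 2, 3], [[0, -5, 4, 0, 0, 0, 0], [0, -5, 0, 2, 0, 0, 0], [0, 0, 0, 0, 1, 0, 0], [0, -1, 0, 0, 0, 2, 0], [0, -3, 0, 0, 0, 0, 4]], 240, [3, 12, 48, 60, 5], [0, -1, 0, 5, 0], [60, 0, 0, 0, 0, 0, 0], 1, [⟨1, [[10, 10, 0, 2, 6], [0, 20, 0, 0, 48], [0, 0, 10, 0, 0], [0, 0, 0, 4, 48], [0, 0, 0, 0, 96]], [[0, 0, 0, 0, 0, 0, 0],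 [0, 0, 0, 0, 0, 0, 0], [0, 0, 0, 0, 0, 0, 0], [0, 0, 0, 0, 0, 0, 0], [0, 0, 0, 0, 0, 0, 0]], [[15, -16, -16, -40, 0, -8, -12], [-8, 8, 8, 21, 0, 4, 6], [0, 0, 0, 0, 1, 0, 0], [-16, 16, 18, 40, 0, 9, 12], [11, -11, -12, -28, 0, -6, -8]], [-40, 0, 0, 8, 0]⟩, ⟨2, [[5, 5, 0, 1, 3], [0, 10, 0, 0, 24], [0, 0, 5, 0, 0], [0, 0, 0, 2, 24], [0, 0, 0, 0, 48]], [[0, -1, 0, 0, 0, 0, 0], [0, 0, 0, 0, 0, 0, 0], [0, 0, 0, 0, 0, 0, 0], [0, 0, 0, 0, 0, -1, 0], [-1, -1, 0, 0, 0, 0, 0]], [[16, -16, -16, -40, 0, -8, -12], [-8, 8, 8, 21, 0, 4, 6], [0, 0, 0, 0, 1, 0, 0], [-16, 16, 18, 40, 0, 10, 12], [12, -10, -12, -28, 0, -6, -8]], [-40, 0, 0, 8, 0]⟩, ⟨3, [[10, 10, 0, 2, 6], [0, 20, 0, 0, 16], [0, 0, 10, 0, 0], [0,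 0, 0, 4, 16], [0, 0, 0, 0, 32]], [[0, 1, 1, 0, 0, 0, 0], [0, 0, 1, 1, 0, 0, 0], [0, 0, 0, 0, 1, 0, 0], [0, 0, 1, 0, 0, -1, 0], [1, -1, 0, 0, 0, 1, 0]], [[-1, 0, -2, 0, 0, 0, 0], [0, 0, -4, -3, 0, 0, 0], [0, 0, 0, 0, -3, 0, 0], [0, 0, -4, 0, 0, 1, 0], [1, -1, 0, -1, 0, -1, 0]], [0, 0, 0, 0, -8]⟩, ⟨5, [[2, 2, 0, 2, 78], [0, 4, 0, 0, 48], [0, 0, 2, 0, 0], [0, 0, 0, 4, 48], [0, 0, 0, 0, 96]], [[2, -2, 0, 0, 0, 1, -2], [-1, 1, 0, 0, 0, 2, 1], [0, 0, 0, 0, 0, 0, 0], [-1, 2, 0, 0, 0, 0, 1], [0, -1, 0, 0, 0, 1, -1]], [[3, -4, 0, -8, 0, -2, 0], [-2, 2, 0, 5, 0, 0, 0], [0, 0, 0, 0, 1, 0, 0], [-2, 2, 0, 4, 0, 1, 0], [0, 1, 0, 2, 0, 0, 2]], [-8, 0, 0, 0, 0]⟩, ⟨6, [[5, 5, 0, 1, 3], [0, 10, 0, 0, 8], [0,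 0, 5, 0, 0], [0, 0, 0, 2, 8], [0, 0, 0, 0, 16]], [[0, -1, 2, 0, 0, 0, 0], [0, 0, 2, -1, 0, 0, 0], [0, 0, 0, 0, -1, 0, 0], [0, 0, 2, 0, 0, 1, 0], [-1, 1, 0, -3, 0, -1, 0]], [[0, 0, -2, 0, 0, 0, 0], [0, 0, -4, 2, 0, 0, 0], [0, 0, 0, 0, 2, 0, 0], [0, 0, -4, 0, 0, 0, 0], [0, 0, 0, 4, 0, 0, 0]], [0, 0, 0, 0, -8]⟩, ⟨10, [[1, 1, 0, 1, 39], [0, 2, 0, 0, 24], [0, 0, 1, 0, 0], [0, 0, 0, 2, 24], [0, 0, 0, 0, 48]], [[4, 1, 0, 2, 0, 2, -4], [-2, 2, 0, -5, 0, 4, 2], [0, 0, 0, 0, 1, 0, 0], [-2, 4, 0, 4, 0, -5, 2], [-5, -2, 0, 2, 0, 2, -2]], [[2, -4, 0, -10, 0, -2, 0], [-2, 2, 0, 10, 0, 0, 0], [0, 0, 0, 0, 0, 0, 0], [-2, 2, 0, 0, 0, 2, 0], [0, 2, 0, 0, 0, 0, 2]], [-8, 0, 0, 0, 0]⟩, ⟨30, [[1, 1, 0, 1, 7], [0,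 2, 0, 0, 8], [0, 0, 1, 0, 0], [0, 0, 0, 2, 8], [0, 0, 0, 0, 16]], [[14, 11, 0, -8, 0, -8, -4], [8, -8, 0, 5, 0, 4, 2], [0, 0, 0, 0, 1, 0, 0], [8, -6, 0, 4, 0, 5, 2], [-1, 2, 0, -1, 0, -1, 0]], [[0, -2, 0, 0, 0, 0, 0], [0, 0, 0, 0, 0, 0, 0], [0, 0, 0, 0, 0, 0, 0], [0, 0, 0, 0, 0, 0, 0], [0, 0, 0, 0, 0, 0, 0]], [-8, 0, 0, 0, 0]⟩]⟩

theorem b5_ok : chkBad b5 = true := by decide +kernel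

def b6 : BCert :=
  ⟨[[0, 2, 0, 0, 0, 0, 0], [2, 0, 0, 0, 0, 0, 0], [0, 0, 5, 0, 0, 0, 0], [0, 0, 0, 5, 0, 0, 0], [0, 0, 0, 0, 5, 0, 0], [0, 0, 0, 0, 0, 1, 0], [0, 0, 0, 0, 0, 0, 3]], 30, [[0, 15, 0, 0, 0, 0, 0], [15, 0, 0, 0, 0, 0, 0], [0, 0, 6, 0, 0, 0, 0], [0, 0, 0, 6, 0, 0, 0], [0, 0, 0, 0, 6, 0, 0], [0, 0, 0, 0, 0, 30, 0], [0, 0, 0, 0, 0, 0, 10]], [3, -6, 2, 2, 2, 3, 1], 1, [-12, 6, 10, 10, 10, 3, 3], [[0, -5, 3, 0, 0, 0, 0], [0, -5, 0, 3, 0, 0, 0], [0, -5, 0, 0, 3, 0, 0], [0, -1, 0, 0, 0, 2, 0], [0, -1, 0, 0, 0, 0, 2]], 180, [4, 4, 4, 45, 15], [1, 1, 1, 0, 0], [60, 0, 0, 0, 0, 0, 0], 1, [⟨1, [[10, 10, 10, 0, 8], [0, 30, 60, 0, 0], [0, 0, 90, 0, 0], [0, 0, 0, 4, 12], [0, 0, 0, 0, 24]],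 [[0, 0, 0, 0, 0, 0, 0], [0, 0, 0, 0, 0, 0, 0], [0, 0, 0, 0, 0, 0, 0], [0, 0, 0, 0, 0, 0, 0], [0, 0, 0, 0, 0, 0, 0]], [[34, -18, -27, -30, -30, -9, -9], [-12, 6, 9, 11, 10, 3, 3], [4, -2, -3, -4, -3, -1, -1], [-37, 18, 30, 30, 30, 10, 9], [7, -3, -6, -5, -5, -2, -1]], [-30, 0, 0, 12, 0]⟩, ⟨2, [[5, 5, 5, 0, 4], [0, 15, 30, 0, 0], [0, 0, 45, 0, 0], [0, 0, 0, 2, 6], [0, 0, 0, 0, 12]], [[0, 0, 0, 0, 0, -1, 0], [0, 0, 0, 0, 0, -1, 0], [0, 0, 0, 0, 0, -1, 0], [0, 0, 0, 0, 0, 0, 0], [0, 0, 0, 0, 0, 0, 0]], [[34, -18, -27, -30, -30, -8, -9], [-12, 6, 9, 11, 10, 4, 3], [4, -2, -3, -4, -3, 0, -1], [-37, 18, 30, 30, 30, 10, 9], [7, -3, -6, -5, -5, -2, -1]], [-30, 0, 0, 12, 0]⟩, ⟨3, [[10, 10, 10, 0, 8],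 [0, 30, 0, 0, 8], [0, 0, 30, 0, 8], [0, 0, 0, 4, 12], [0, 0, 0, 0, 24]], [[0, 1, 0, 0, 0, 0, 0], [0, 0, -1, 1, 0, 0, 0], [0, 0, -1, 0, 1, 0, 0], [0, -1, 0, 0, 0, -1, 0], [-1, 0, 1, 1, 1, 1, 0]], [[-2, 0, 1, 0, 0, 0, 0], [0, 0, 3, -3, 0, 0, 0], [0, 0, 3, 0, -3, 0, 0], [1, 0, 0, 0, 0, 1, 0], [1, 1, -4, -4, -4, -1, 0]], [0, 0, 0, 0, -4]⟩, ⟨4, [[5, 5, 5, 0, 4], [0, 15, 30, 0, 0], [0, 0, 45, 0, 0], [0, 0, 0, 1, 3], [0, 0, 0, 0, 6]], [[-1, 1, 1, -2, -2, -1, -1], [-1, -2, 1, -1, -2, -1, -1], [-1, -2, 1, 0, 1, -1, -1], [0, -1, 0, 0, 0, -2, 0], [-2, 1, -2, 0, 0, 1, -1]], [[16, -8, -16, -10, -10, -4, -3], [-4, 4, 2, 8, 10, 2, 3], [4, 0, -4, -2, -4, 0, 1], [0, 0, 0, 0, 0, 2, 0], [-12, 8, 14, 10, 10, 2,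 5]], [-30, 0, 0, 0, 0]⟩, ⟨5, [[2, 2, 2, 0, 16], [0, 6, 12, 0, 0], [0, 0, 18, 0, 0], [0, 0, 0, 4, 12], [0, 0, 0, 0, 24]], [[2, 1, 0, 0, 0, 2, -1], [1, -2, 0, 0, 0, 1, 2], [-2, -1, 0, 0, 0, -2, 1], [1, -1, 0, 0, 0, -1, 2], [-1, 0, 0, 0, 0, 0, 1]], [[-10, 2, 9, 6, 6, 1, 3], [4, -2, -3, -1, -2, -1, -3], [0, 2, 1, 0, 1, 1, -1], [3, -2, -2, -2, -2, 0, -3], [5, -1, -5, -3, -3, -1, -2]], [6, 0, 0, -4, 0]⟩, ⟨6, [[5, 5, 5, 0, 4], [0, 15, 0, 0, 4], [0, 0, 15, 0, 4], [0, 0, 0, 2, 6], [0, 0, 0, 0, 12]], [[0, 2, -3, 0, 0, 0, 0], [0, 0, 1, -1, 0, 0, 0], [0, 0, 1, 0, -1, 0, 0], [0, 1, 0, 0, 0, 1, 0], [1, -3, 2, 2, 2, -1, 0]], [[-2, 0, 6, 0, 0, 0, 0], [0, 0, -2, 2, 0, 0, 0], [0, 0, -2, 0, 2, 0, 0], [-1, 0, 0,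 0, 0, 0, 0], [3, -1, -4, -4, -4, 0, 0]], [0, 0, 0, 0, -4]⟩, ⟨10, [[1, 1, 1, 0, 8], [0, 3, 6, 0, 0], [0, 0, 9, 0, 0], [0, 0, 0, 2, 6], [0, 0, 0, 0, 12]], [[4, 2, -1, -4, -4, -1, -2], [2, -4, -3, -1, -2, -3, 4], [-4, -2, 1, 0, 1, 1, 2], [2, -2, -2, -2, -2, -2, 4], [-2, 0, -5, -3, -3, -5, 2]], [[-10, 2, 10, 10, 10, 2, 3], [4, -2, 0, 0, 0, 0, -3], [0, 2, 0, 0, 0, 0, -1], [3, -2, 0, 0, 0, 0, -3], [5, -1, 0, 0, 0, 0, -2]], [6, 0, 0, -4, 0]⟩, ⟨12, [[5, 5, 5, 0, 4], [0, 15, 0, 0, 4], [0, 0, 15, 0, 4], [0, 0, 0, 1, 3], [0, 0, 0, 0, 6]], [[0, -1, -3, 0, 0, 0, 0], [0, 0, 1, -1, 0, 0, 0], [0, 0, 1, 0, -1, 0, 0], [0, -1, 0, 0, 0, 2, 0], [-1, 3, 4, 4, 4, -2, 0]], [[0, 0, 3, 0, 0, 0, 0], [0, 0, -1, 1, 0, 0,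 0], [0, 0, -1, 0, 1, 0, 0], [0, 0, 0, 0, 0, 0, 0], [0, 0, -4, -4, -4, 0, 0]], [0, 0, 0, 0, -4]⟩, ⟨15, [[2, 2, 2, 0, 16], [0, 6, 0, 0, 16], [0, 0, 6, 0, 16], [0, 0, 0, 4, 12], [0, 0, 0, 0, 24]], [[0, 5, -3, 0, 0, 0, 0], [0, 0, 1, -1, 0, 0, 0], [0, 0, 1, 0, -1, 0, 0], [0, -4, 0, 0, 0, -7, 0], [-4, 6, 1, 1, 1, 7, 0]], [[-2, 0, 3, 0, 0, 0, 0], [0, 0, -1, 1, 0, 0, 0], [0, 0, -1, 0, 1, 0, 0], [1, 0, 0, 0, 0, 1, 0], [-1, 1, -1, -1, -1, -1, 0]], [0, 0, 0, 0, -4]⟩, ⟨20, [[1, 1, 1, 0, 2], [0, 3, 6, 0, 0], [0, 0, 9, 0, 0], [0, 0, 0, 1, 3], [0, 0, 0, 0, 6]], [[9, -3, 9, 6, 6, 9, -7], [-3, 6, -3, -1, -2, -3, 9], [1, -2, 1, 0, 1, 1, -3], [0, -1, 0, 0, 0, 2, 0], [-3, 8, -3, -2, -2, -4, 6]], [[-4, 0, 0, 0,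 0, 0, 3], [0, 0, 0, 0, 0, 0, -3], [0, 0, 0, 0, 0, 0, 1], [0, 0, 0, 0, 0, 0, 0], [0, 0, 0, 0, 0, 0, -2]], [6, 0, 0, 0, 0]⟩, ⟨30, [[1, 1, 1, 0, 8], [0, 3, 0, 0, 8], [0, 0, 3, 0, 8], [0, 0, 0, 2, 6], [0, 0, 0, 0, 12]], [[0, 10, 3, 0, 0, 0, 0], [0, 0, -1, 1, 0, 0, 0], [0, 0, -1, 0, 1, 0, 0], [0, 7, 0, 0, 0, 1, 0], [7, -3, -1, -1, -1, -1, 0]], [[-2, 0, 0, 0, 0, 0, 0], [0, 0, 0, 0, 0, 0, 0], [0, 0, 0, 0, 0, 0, 0], [-1, 0, 0, 0, 0, 0, 0], [1, -1, 0, 0, 0, 0, 0]], [0, 0, 0, 0, -4]⟩, ⟨60, [[1, 1, 1, 0, 2], [0, 3, 0, 0, 2], [0, 0, 3, 0, 2], [0, 0, 0, 1, 3], [0, 0, 0, 0, 6]], [[0, -5, 3, 0, 0, 0, 0], [0, 0, -1, 1, 0, 0, 0], [0, 0, -1, 0, 1, 0, 0], [0, -1, 0, 0, 0, 2, 0], [-1, 4, -1, -1, -1, -2, 0]], [[0,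 0, 0, 0, 0, 0, 0], [0, 0, 0, 0, 0, 0, 0], [0, 0, 0, 0, 0, 0, 0], [0, 0, 0, 0, 0, 0, 0], [0, 0, 0, 0, 0, 0, 0]], [0, 0, 0, 0, -4]⟩]⟩

theorem b6_ok : chkBad b6 = true := by decide +kernel

def b7 : BCert :=
  ⟨[[0, 1, 0, 0, 0, 0, 0], [1, 0, 0, 0, 0, 0, 0], [0, 0, 2, 3, 0, 0, 0], [0, 0, 3, 6, 0, 0, 0], [0, 0, 0, 0, 1, 0, 0], [0, 0, 0, 0, 0, 1, 0], [0, 0, 0, 0, 0, 0, 7]], 21, [[0, 21, 0, 0, 0, 0, 0], [21, 0, 0, 0, 0, 0, 0], [0, 0, 42, -21, 0, 0, 0], [0, 0, -21, 14, 0, 0, 0], [0, 0, 0, 0, 21, 0, 0], [0, 0, 0, 0, 0, 21, 0], [0, 0, 0, 0, 0, 0, 3]], [3, -3, 3, -1, 2, 1, 1], 1, [-3, 3, 3, 3, 2, 1, 7], [[0, -1, 2, -1, 0, 0, 0], [0, -1, 0, 1, 0, 0, 0], [0, -2, 0, 0, 3, 0, 0], [0, -1, 0, 0, 0, 3, 0], [0,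 -7, 0, 0, 0, 0, 3]], 126, [63, 21, 14, 14, 2], [0, 0, -7, 7, 1], [42, 0, 0, 0, 0, 0, 0], 1, [⟨1, [[2, 2, 4, 2, 14], [0, 4, 2, 4, 112], [0, 0, 6, 0, 42], [0, 0, 0, 6, 84], [0, 0, 0, 0, 126]], [[0, 0, 0, 0, 0, 0, 0], [0, 0, 0, 0, 0, 0, 0], [0, 0, 0, 0, 0, 0, 0], [0, 0, 0, 0, 0, 0, 0], [0, 0, 0, 0, 0, 0, 0]], [[-1, 0, 1, 0, 0, 0, 0], [0, 0, 1, 3, 0, 0, 0], [0, 0, -1, -1, 1, 0, 0], [3, -3, -4, -5, -2, 0, -7], [-2, 2, 2, 1, 1, 0, 5]], [0, 0, 0, -6, 0]⟩, ⟨2, [[1, 1, 2, 1, 7], [0, 2, 1, 2, 56], [0, 0, 3, 0, 21], [0, 0, 0, 3, 42], [0, 0, 0, 0, 63]], [[0, -1, 0, 0, 0, 0, 0], [0, 0, 0, 0, 0, 0, 0], [0, 0, 0, 0, -1, 0, 0], [-1, -1, 0, 0, 0, 0, 0], [0, 0, 0, 0, -1, 0, 0]], [[0, 0, 1, 0, 0, 0, 0], [0, 0,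 1, 3, 0, 0, 0], [0, 0, -1, -1, 2, 0, 0], [4, -2, -4, -5, -2, 0, -7], [-2, 2, 2, 1, 2, 0, 5]], [0, 0, 0, -6, 0]⟩, ⟨3, [[2, 2, 0, 0, 42], [0, 4, 0, 0, 84], [0, 0, 2, 4, 28], [0, 0, 0, 6, 84], [0, 0, 0, 0, 126]], [[0, 1, 1, 0, 0, 0, 0], [0, 0, 1, 0, -1, 1, 1], [0, -1, 0, 0, 0, 0, 0], [0, -1, 0, 0, -1, -1, 0], [1, -1, 1, 0, 1, 0, 1]], [[-1, 0, -1, -2, 0, 0, 0], [1, -1, -2, -2, 0, -1, -7], [0, 0, 0, 0, 1, 0, 0], [1, 0, 0, 0, 0, 1, 0], [0, 0, -1, -2, 0, 0, -3]], [0, -4, 0, 0, 0]⟩, ⟨7, [[2, 2, 4, 2, 14], [0, 4, 2, 4, 4], [0, 0, 6, 0, 6], [0, 0, 0, 6, 12], [0, 0, 0, 0, 18]], [[0, 3, 1, 3, 0, 0, 0], [0, 0, 3, -3, 0, 0, 0], [0, 0, 3, -1, -3, 0, 0], [2, -2, 2, -2, -1, 0, 0], [1, -1, -3, 0, -3, 0, 0]],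 [[-1, 0, -3, -6, 0, 0, 0], [0, 0, 1, 3, 0, 0, 0], [0, 0, -1, -1, 1, 0, 0], [1, -1, 0, 1, 0, 0, -1], [0, 0, 2, 3, 1, 0, 1]], [0, 0, 0, -6, 0]⟩, ⟨14, [[1, 1, 2, 1, 7], [0, 2, 1, 2, 2], [0, 0, 3, 0, 3], [0, 0, 0, 3, 6], [0, 0, 0, 0, 9]], [[0, -1, -5, -1, 0, 0, 0], [0, 0, -1, 1, 0, 0, 0], [0, 0, -1, 5, 1, 0, 0], [-3, 3, 4, -4, -2, 0, -1], [2, -2, -6, 0, 1, 0, 1]], [[0, 0, 2, 3, 0, 0, 0], [0, 0, 0, 0, 0, 0, 0], [0, 0, -2, -4, 0, 0, 0], [0, 0, 0, 1, 0, 0, 0], [0, 0, 2, 3, 0, 0, 0]], [0, 0, 0, -6, 0]⟩]⟩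

theorem b7_ok : chkBad b7 = true := by decide +kernel

def b8 : BCert :=
  ⟨[[0, 2, 0, 0, 0, 0, 0], [2, 0, 0, 0, 0, 0, 0], [0, 0, 2, 3, 0, 0, 0], [0, 0, 3, 6, 0, 0, 0], [0, 0, 0, 0, 1, 0, 0], [0, 0, 0, 0, 0, 1, 0], [0, 0, 0, 0, 0, 0, 7]], 42, [[0, 21, 0, 0, 0, 0, 0], [21, 0, 0, 0, 0, 0, 0], [0, 0, 84, -42, 0, 0, 0], [0, 0, -42, 28, 0, 0, 0], [0, 0, 0, 0, 42, 0, 0], [0, 0, 0, 0, 0, 42, 0], [0, 0, 0, 0, 0, 0, 6]], [3, -5, 5, -2, 3, 3, 2], 1, [-10, 6, 4, 3, 3, 3, 14], [[0, -5, 12, -6, 0, 0, 0], [0, -1, 0, 2, 0, 0, 0], [0, -1, 0, 0, 2, 0, 0], [0, -1, 0, 0, 0, 2, 0], [0, -7, 0, 0, 0, 0, 3]], 504, [7, 21, 126, 126, 8], [1, 1, 0, 0, 0], [168, 0, 0, 0, 0, 0, 0], 1, [⟨1, [[4, 20, 0, 0, 14], [0, 24,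 0, 4, 0], [0, 0, 4, 4, 0], [0, 0, 0, 8, 0], [0, 0, 0, 0, 126]], [[0, 0, 0, 0, 0, 0, 0], [0, 0, 0, 0, 0, 0, 0], [0, 0, 0, 0, 0, 0, 0], [0, 0, 0, 0, 0, 0, 0], [0, 0, 0, 0, 0, 0, 0]], [[25, -18, -9, -9, -9, -9, -42], [-26, 18, 10, 10, 9, 9, 42], [-1, 0, 0, 0, 1, 0, 0], [13, -9, -5, -5, -5, -4, -21], [-3, 2, 1, 1, 1, 1, 5]], [-12, 12, 0, 0, 0]⟩, ⟨2, [[2, 10, 0, 0, 7], [0, 12, 0, 2, 0], [0, 0, 2, 2, 0], [0, 0, 0, 4, 0], [0, 0, 0, 0, 63]], [[0, 0, 0, 0, -1, -1, 0], [0, 0, 0, 0, -1, -1, 0], [0, 0, 0, 0, -1, 0, 0], [0, 0, 0, 0, -1, 0, 0], [0, 0, 0, 0, -1, -1, 0]], [[25, -18, -9, -9, -8, -8, -42], [-26, 18, 10, 10, 10, 10, 42], [-1, 0, 0, 0, 2, 0, 0], [13, -9, -5, -5, -4, -4, -21], [-3, 2, 1, 1, 2, 2,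 5]], [-12, 12, 0, 0, 0]⟩, ⟨3, [[4, 4, 0, 0, 56], [0, 8, 0, 4, 42], [0, 0, 4, 4, 0], [0, 0, 0, 8, 0], [0, 0, 0, 0, 126]], [[0, 1, 0, 0, 0, 0, 0], [0, 0, -1, 0, 0, 0, -1], [0, -1, 0, 0, -1, 0, 0], [0, 0, -1, 0, -1, 1, -1], [-1, 1, 0, 0, -1, -1, 1]], [[-3, 0, 1, 0, 0, 0, 0], [4, -2, 0, 2, -1, -1, 0], [1, 0, 0, 0, 1, 0, 0], [-2, 1, 2, 2, 1, 0, 7], [-2, 2, 0, 0, 1, 1, -3]], [0, -8, 0, 0, 0]⟩, ⟨4, [[1, 5, 1, 1, 35], [0, 12, 0, 0, 0], [0, 0, 2, 0, 0], [0, 0, 0, 2, 0], [0, 0, 0, 0, 63]], [[-1, -2, 1, 0, -1, -1, -2], [-2, 0, 1, 0, -2, -2, 0], [-2, 0, 0, -1, -1, -2, 0], [-2, 0, 0, -1, -2, -1, 0], [0, 0, 0, -2, 0, 0, -1]], [[-28, 16, 12, 6, 8, 8, 42], [12, -4, -6, -4, -2, -2, -14], [12, -4, -4, 0, -2,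 -2, -14], [12, -4, -4, 0, -2, -2, -14], [16, -8, -4, 2, -4, -4, -15]], [10, 2, 2, 2, 14]⟩, ⟨6, [[2, 2, 0, 0, 28], [0, 4, 0, 2, 21], [0, 0, 2, 2, 0], [0, 0, 0, 4, 0], [0, 0, 0, 0, 63]], [[0, -1, 0, -3, 0, 0, 0], [0, 0, -2, -2, -3, -3, -2], [0, 1, 0, 0, 1, 0, 0], [-3, 0, -2, -2, 1, 2, 1], [-2, 2, 0, 0, 1, 1, -1]], [[-1, 0, 4, 6, 0, 0, 0], [4, -2, 2, 6, 0, 0, 0], [-1, 0, 0, 0, 0, 0, 0], [-2, 3, 4, 6, 0, 0, 0], [-2, 2, 0, 0, 0, 0, 4]], [0, -8, 0, 0, 0]⟩, ⟨7, [[4, 20, 0, 0, 14], [0, 24, 0, 4, 0], [0, 0, 4, 4, 0], [0, 0, 0, 8, 0], [0, 0, 0, 0, 18]], [[-1, 1, -1, -2, -1, -1, 0], [1, -3, -2, 3, 1, 1, 0], [0, -2, 0, 0, -3, 0, 0], [3, -2, 1, 2, 1, -2, 0], [0, 0, 0, 0, 0, 0, 0]], [[3, -2, 1, 3, -1, -1,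 -6], [-2, 2, 0, -2, 1, 1, 6], [1, 0, 0, 0, 1, 0, 0], [3, -3, -3, -5, -1, 0, -3], [-3, 2, 1, 1, 1, 1, 5]], [-12, 12, 0, 0, 0]⟩, ⟨12, [[1, 1, 1, 1, 14], [0, 4, 0, 0, 21], [0, 0, 2, 0, 0], [0, 0, 0, 2, 0], [0, 0, 0, 0, 63]], [[-6, 1, -6, -6, -6, -6, 0], [-3, -2, 0, -4, -3, -3, -6], [-3, -1, -3, -3, -2, -3, -6], [-3, -1, -3, -3, -3, -2, -6], [1, -1, 0, 0, 1, 1, 5]], [[8, -4, 2, 6, -2, -2, -14], [-4, 4, 4, 6, 2, 2, 14], [-4, 4, 4, 6, 2, 2, 14], [-4, 4, 4, 6, 2, 2, 14], [0, 0, 0, 0, 0, 0, -5]], [-12, 12, 0, 0, 0]⟩, ⟨14, [[2, 10, 0, 0, 7], [0, 12, 0, 2, 0], [0, 0, 2, 2, 0], [0, 0, 0, 4, 0], [0, 0, 0, 0, 9]], [[-2, -5, 5, 3, 5, 5, -6], [2, -6, -4, 6, -5, -5, 6], [0, 3, 0, 0, 1, 0, 0], [-1, 3, -5, -3,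 -5, -4, -3], [0, -7, -7, -7, -7, -7, 5]], [[5, -2, -4, -6, -2, -2, 0], [-2, 2, 0, -2, 2, 2, 0], [-1, 0, 0, 0, 0, 0, 0], [1, -1, 2, 4, 0, 0, 0], [-1, 2, 6, 10, 2, 2, 0]], [-12, 12, 0, 0, 0]⟩]⟩

theorem b8_ok : chkBad b8 = true := by decide +kernel

def b9 : BCert :=
  ⟨[[0, 2, 0, 0, 0, 0, 0], [2, 0, 0, 0, 0, 0, 0], [0, 0, 2, 3, 0, 0, 0], [0, 0, 3, 6, 0, 0, 0], [0, 0, 0, 0, 1, 0, 0], [0, 0, 0, 0, 0, 1, 0], [0, 0, 0, 0, 0, 0, 15]], 30, [[0, 15, 0, 0, 0, 0, 0], [15, 0, 0, 0, 0, 0, 0], [0, 0, 60, -30, 0, 0, 0], [0, 0, -30, 20, 0, 0, 0], [0, 0, 0, 0, 30, 0, 0], [0, 0, 0, 0, 0, 30, 0], [0, 0, 0, 0, 0, 0, 2]], [3, -3, 2, 0, 3, 2, 1], 1, [-6, 6, 4, 6, 3, 2, 15], [[0, -1, 6, -3, 0, 0, 0], [0, -1, 0, 1,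 0, 0, 0], [0, -1, 0, 0, 2, 0, 0], [0, -1, 0, 0, 0, 3, 0], [0, -5, 0, 0, 0, 0, 2]], 180, [10, 30, 45, 20, 3], [-5, -15, 0, -10, 6], [60, 0, 0, 0, 0, 0, 0], 1, [⟨1, [[2, 2, 0, 2, 40], [0, 12, 0, 0, 0], [0, 0, 4, 0, 60], [0, 0, 0, 18, 0], [0, 0, 0, 0, 120]], [[0, 0, 0, 0, 0, 0, 0], [0, 0, 0, 0, 0, 0, 0], [0, 0, 0, 0, 0, 0, 0], [0, 0, 0, 0, 0, 0, 0], [0, 0, 0, 0, 0, 0, 0]], [[-2, 0, 3, 0, 0, 0, 0], [0, 0, 0, 1, 0, 0, 0], [5, -6, -4, -6, -2, -2, -15], [-2, 2, 1, 2, 1, 1, 5], [-2, 3, 1, 3, 1, 1, 8]], [0, 0, -4, 6, 0]⟩, ⟨2, [[1, 1, 0, 1, 20], [0, 6, 0, 0, 0], [0, 0, 2, 0, 30], [0, 0, 0, 9, 0], [0, 0, 0, 0, 60]], [[0, 0, 0, 0, 0, 0, 0], [0, 0, 0, 0, 0, 0, 0], [0, 0, 0, 0, 0, 0, 0], [0, 0, 0, 0, -1,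 -1, 0], [0, 0, 0, 0, -1, -1, 0]], [[-2, 0, 3, 0, 0, 0, 0], [0, 0, 0, 1, 0, 0, 0], [5, -6, -4, -6, -2, -2, -15], [-2, 2, 1, 2, 2, 2, 5], [-2, 3, 1, 3, 2, 2, 8]], [0, 0, -4, 6, 0]⟩, ⟨3, [[2, 2, 0, 2, 40], [0, 4, 0, 0, 40], [0, 0, 4, 0, 60], [0, 0, 0, 6, 40], [0, 0, 0, 0, 120]], [[0, 1, 0, 0, 0, 0, 0], [0, 0, 1, 0, 0, 1, 0], [0, -1, -1, 0, -1, -1, 0], [0, 0, -1, 0, 0, -1, 0], [1, 0, 0, 0, 0, 0, 0]], [[-2, 0, 1, 0, 0, 0, 0], [-2, 2, 0, 1, 1, 0, 5], [3, -2, 0, 0, 0, 0, -5], [0, 0, 1, 2, 0, 1, 0], [0, -1, 0, 0, 0, 0, 1]], [0, 4, -4, 0, 0]⟩, ⟨4, [[1, 1, 0, 1, 20], [0, 6, 0, 0, 0], [0, 0, 1, 0, 15], [0, 0, 0, 9, 0], [0, 0, 0, 0, 30]], [[-1, 0, 0, 1, -1, -2, -1], [0, 0, -1, -2, 0, 0, 0], [-1, 0, -2,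 0, 1, -2, -1], [-2, -2, -2, -1, -2, -1, -2], [1, 0, -2, -2, 0, -2, -2]], [[-4, 4, 2, 0, 2, 2, 15], [0, 0, 4, 8, 0, 0, 0], [-4, 4, 4, 6, 2, 2, 15], [4, 0, 2, 4, 0, 0, 10], [4, -4, 2, 6, -2, 0, 8]], [2, 2, 2, -10, 10]⟩, ⟨5, [[2, 2, 0, 2, 16], [0, 12, 0, 0, 0], [0, 0, 4, 0, 12], [0, 0, 0, 18, 0], [0, 0, 0, 0, 24]], [[0, 2, -2, 1, 0, 0, 0], [0, 0, 2, 2, 0, 0, 0], [1, 0, -1, 0, -1, -1, 0], [-2, 2, 0, 1, -2, -2, 0], [2, 2, 1, 1, -2, -2, 0]], [[-2, 0, 1, 0, 0, 0, 0], [0, 0, -4, -7, 0, 0, 0], [1, -2, 0, 0, 0, 0, -3], [-2, 2, -1, -2, 1, 1, 1], [-2, -1, -2, -3, 1, 1, 2]], [0, 0, -4, 6, 0]⟩, ⟨6, [[1, 1, 0, 1, 20], [0, 2, 0, 0, 20], [0, 0, 2, 0, 30], [0, 0, 0, 3, 20], [0, 0, 0, 0, 60]], [[0, 2, 0, -3, 0,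 0, 0], [0, 0, -1, 2, -3, 2, 0], [0, 1, -2, 0, -2, -2, 0], [0, 0, -2, 1, 0, 1, 0], [-1, 0, 0, 0, 0, 0, 0]], [[-2, 0, 4, 6, 0, 0, 0], [-2, 2, 0, 0, 2, 0, 5], [1, -2, 0, 0, 0, 0, -5], [0, 0, 0, 0, 0, 0, 0], [0, 1, 0, 0, 0, 0, 1]], [0, 4, -4, 0, 0]⟩, ⟨10, [[1, 1, 0, 1, 8], [0, 6, 0, 0, 0], [0, 0, 2, 0, 6], [0, 0, 0, 9, 0], [0, 0, 0, 0, 12]], [[-4, -2, -5, -3, 1, 4, 0], [-2, 2, -4, 4, 3, 2, 0], [2, 0, -2, 0, -2, -2, 0], [-4, 4, -5, -3, 1, 1, 0], [0, -2, -4, 2, -3, -5, 0]], [[4, -2, 2, 3, -2, -2, -9], [-2, 2, 0, -1, 0, 0, 3], [1, -2, 0, 0, 0, 0, -3], [-2, 2, 4, 7, 0, 0, 1], [-2, 3, 2, 3, 2, 2, 8]], [-6, 6, -4, 0, 0]⟩, ⟨12, [[1, 1, 0, 1, 20], [0, 2, 0, 0, 20], [0, 0, 1, 0, 15], [0, 0, 0, 3, 20], [0,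 0, 0, 0, 30]], [[-3, 2, -4, -3, -3, 2, -1], [-6, -6, -3, 2, -6, 0, -6], [3, -4, 2, 0, 5, 2, 5], [-6, -6, -6, 1, -6, -3, 2], [1, 0, 0, 0, 0, 0, 2]], [[-8, 8, 8, 12, 4, 2, 20], [8, -4, -4, -6, -2, -2, 0], [0, 0, 0, 0, 0, 0, -10], [4, 0, 0, 0, 0, 0, -10], [0, 0, 0, 0, 0, 0, -4]], [14, -10, 2, 2, 10]⟩, ⟨15, [[2, 2, 0, 2, 16], [0, 4, 0, 0, 16], [0, 0, 4, 0, 12], [0, 0, 0, 6, 16], [0, 0, 0, 0, 24]], [[0, 7, 3, 6, 0, 0, 0], [0, 0, 6, 6, 0, 0, 0], [0, -4, 0, 0, -7, 0, 0], [0, 0, -1, -2, 0, -7, 0], [-4, -7, 7, 5, 7, 7, 0]], [[-2, 0, -3, -6, 0, 0, 0], [0, 0, -4, -7, 0, 0, 0], [1, 0, 0, 0, 1, 0, 0], [0, 0, 1, 2, 0, 1, 0], [2, 1, -4, -7, -1, -1, 0]], [0, 0, 0, 0, -4]⟩, ⟨60, [[1, 1, 0, 1, 2], [0, 2, 0, 0,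 2], [0, 0, 1, 0, 3], [0, 0, 0, 3, 2], [0, 0, 0, 0, 6]], [[0, -1, 6, -3, 0, 0, 0], [0, 0, -3, 2, 0, 0, 0], [0, -1, 0, 0, 2, 0, 0], [0, 0, -2, 1, 0, 1, 0], [-1, 1, -1, 0, -2, -1, 0]], [[0, 0, 0, 0, 0, 0, 0], [0, 0, 0, 0, 0, 0, 0], [0, 0, 0, 0, 0, 0, 0], [0, 0, 0, 0, 0, 0, 0], [0, 0, 0, 0, 0, 0, 0]], [0, 0, 0, 0, -4]⟩]⟩

theorem b9_ok : chkBad b9 = true := by decide +kernel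

end RH6.BD
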