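import Pool.Agent.RH6.UDef

namespace RH6.BD

def b10 : BCert :=
  ⟨[[0, 2, 0, 0, 0, 0, 0], [2, 0, 0, 0, 0, 0, 0], [0, 0, 2, 1, 0, 0, 0], [0, 0, 1, 2, 0, 0, 0], [0, 0, 0, 0, 3, 0, 0], [0, 0, 0, 0, 0, 3, 0], [0, 0, 0, 0, 0, 0, 5]], 30, [[0, 15, 0, 0, 0, 0, 0], [15, 0, 0, 0, 0, 0, 0], [0, 0, 20, -10, 0, 0, 0], [0, 0, -10, 20, 0, 0, 0], [0, 0, 0, 0, 10, 0, 0], [0, 0, 0, 0, 0, 10, 0], [0, 0, 0, 0, 0, 0, 6]], [4, -7, 6, -2, 4, 1, 1], 1, [-14, 8, 10, 2, 12, 3, 5], [[0, -9, 8, -4, 0, 0, 0], [0, -1, 0, 4, 0, 0, 0], [0, -3, 0, 0, 2, 0, 0], [0, -3, 0, 0, 0, 8, 0], [0, -5, 0, 0, 0, 0, 8]], 960, [10, 30, 80, 5, 3], [-10, -30, 0, -5, 3], [240, 0, 0, 0, 0, 0, 0], 1, [⟨1, [[12, 12, 0, 12, 500], [0, 16, 0,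 0, 480], [0, 0, 12, 0, 320], [0, 0, 0, 24, 40], [0, 0, 0, 0, 640]], [[0, 0, 0, 0, 0, 0, 0], [0, 0, 0, 0, 0, 0, 0], [0, 0, 0, 0, 0, 0, 0], [0, 0, 0, 0, 0, 0, 0], [0, 0, 0, 0, 0, 0, 0]], [[-3, 0, 2, 0, 0, 0, 0], [-12, 8, 9, 3, 12, 3, 5], [-1, 0, 0, 0, 1, 0, 0], [29, -16, -21, -4, -24, -4, -10], [10, -5, -7, -2, -8, -2, -3]], [0, 16, 0, -48, 0]⟩, ⟨2, [[6, 6, 0, 6, 250], [0, 8, 0, 0, 240], [0, 0, 6, 0, 160], [0, 0, 0, 12, 20], [0, 0, 0, 0, 320]], [[0, 0, 0, 0, 0, 0, 0], [0, 0, 0, -1, 0, 0, 0], [0, 0, 0, 0, 0, 0, 0], [0, 0, 0, -1, 0, 0, 0], [0, 0, 0, -1, 0, 0, 0]], [[-3, 0, 2, 0, 0, 0, 0], [-12, 8, 10, 5, 12, 3, 5], [-1, 0, 0, 0, 1, 0, 0], [29, -16, -20, -2, -24, -4, -10], [10, -5, -6, 0, -8,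 -2, -3]], [0, 16, 0, -48, 0]⟩, ⟨3, [[4, 4, 0, 4, 380], [0, 16, 0, 0, 480], [0, 0, 4, 0, 320], [0, 0, 0, 8, 440], [0, 0, 0, 0, 640]], [[0, 0, 0, 0, 0, 0, 0], [0, -1, 0, 1, 0, 0, 0], [0, 0, 0, 0, 0, 0, 0], [-1, 1, 0, -1, 0, 0, -1], [-1, -1, 0, -1, 0, 0, 1]], [[-3, 0, 2, 0, 0, 0, 0], [2, 0, -1, -1, 0, 0, 0], [-1, 0, 0, 0, 1, 0, 0], [9, -4, -7, 0, -8, 0, 0], [-4, 5, 5, 2, 5, 0, -1]], [0, 0, 0, -16, 0]⟩, ⟨4, [[3, 3, 3, 9, 55], [0, 8, 0, 0, 80], [0, 0, 6, 0, 0], [0, 0, 0, 12, 20], [0, 0, 0, 0, 160]], [[0, 0, -2, -2, 0, 1, -1], [0, 0, 1, -1, 0, 1, -1], [0, 0, -2, 0, 1, 1, -1], [0, 0, -2, 1, 0, 0, -2], [-1, 0, 1, -1, 1, 1, 1]], [[-24, 12, 20, 6, 18, 3, 10], [36, -20, -26, -4, -30, -9, -10], [8, -4,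 -4, 0, -7, -3, 0], [16, -8, -10, -2, -12, -2, 0], [-12, 8, 8, 2, 9, 1, 2]], [18, -62, 6, 6, 10]⟩, ⟨5, [[12, 12, 0, 12, 116], [0, 16, 0, 0, 96], [0, 0, 12, 0, 64], [0, 0, 0, 24, 40], [0, 0, 0, 0, 128]], [[0, -2, -1, -2, 0, 0, 0], [0, -2, 2, -2, 0, 0, 0], [0, 1, 0, 0, 1, 0, 0], [0, -1, -2, 1, 0, 2, 0], [1, 2, 2, 0, -2, -1, 0]], [[1, 0, 2, 2, 0, 0, 0], [2, 0, -1, 1, 0, 0, 0], [-1, 0, 0, 0, -1, 0, 0], [1, 0, 1, 0, 0, -2, 0], [-1, -1, -2, -1, 2, 1, 0]], [0, 0, 0, 0, -16]⟩, ⟨6, [[2, 2, 0, 2, 190], [0, 8, 0, 0, 240], [0, 0, 2, 0, 160], [0, 0, 0, 4, 220], [0, 0, 0, 0, 320]], [[0, -3, -2, -2, 0, 0, 0], [0, -2, -1, 1, 0, 0, 0], [0, -3, 0, 0, 1, 0, 0], [-2, -1, -2, -1, -2, 0, -2], [1, -2, 2, -3, -1,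 0, -1]], [[-1, 0, 4, 2, 0, 0, 0], [2, 0, 0, 0, 0, 0, 0], [1, 0, 0, 0, 0, 0, 0], [11, -4, -6, 0, -6, 0, 0], [-4, 3, 4, 2, 6, 0, 4]], [0, 0, 0, -16, 0]⟩, ⟨10, [[6, 6, 0, 6, 58], [0, 8, 0, 0, 48], [0, 0, 6, 0, 32], [0, 0, 0, 12, 20], [0, 0, 0, 0, 64]], [[0, -4, -2, -4, 0, 0, 0], [0, -4, -1, -4, 0, 0, 0], [0, 2, 0, 0, 2, 0, 0], [0, -2, -4, -3, 0, 4, 0], [2, 4, -1, -5, -4, -2, 0]], [[1, 0, 2, 2, 0, 0, 0], [2, 0, 1, 2, 0, 0, 0], [-1, 0, 0, 0, -1, 0, 0], [1, 0, 2, 2, 0, -2, 0], [-1, -1, 1, 2, 2, 1, 0]], [0, 0, 0, 0, -16]⟩, ⟨12, [[1, 1, 1, 3, 125], [0, 8, 0, 0, 80], [0, 0, 2, 0, 0], [0, 0, 0, 4, 60], [0, 0, 0, 0, 160]], [[0, 3, -4, -4, 0, 0, 0], [0, 1, -1, 1, 0, 0, 0], [0, 3, -4, 2, 1, 0, 0], [4,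 -4, -6, -5, 4, 0, -2], [3, -1, 1, 0, 3, 0, -4]], [[-4, 0, 4, 2, 0, 0, 0], [0, 0, 0, 0, 0, 0, 0], [0, 0, 0, 0, 0, 0, 0], [8, -4, -2, 2, -6, 0, 0], [0, 0, 0, 0, 0, 0, 4]], [0, 0, 0, -16, 0]⟩, ⟨15, [[4, 4, 0, 4, 124], [0, 16, 0, 0, 96], [0, 0, 4, 0, 64], [0, 0, 0, 8, 56], [0, 0, 0, 0, 128]], [[0, -6, -3, -6, 0, 0, 0], [0, -7, -3, -2, 0, 0, 0], [0, 3, 0, 0, -2, 0, 0], [-4, 4, 3, 5, 1, 0, 2], [-2, -5, -6, 7, -6, 0, -1]], [[1, 0, 2, 2, 0, 0, 0], [2, 0, 1, 1, 0, 0, 0], [-1, 0, 0, 0, 1, 0, 0], [1, 0, -3, -2, -2, 0, -2], [1, 1, 1, -1, 3, 0, 1]], [0, 0, 0, -16, 0]⟩, ⟨20, [[3, 3, 3, 9, 23], [0, 8, 0, 0, 16], [0, 0, 6, 0, 0], [0, 0, 0, 12, 20], [0, 0, 0, 0, 32]], [[0, -3, -4, -8, 0, 0, 0], [0, 1, -1,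 -9, 0, 0, 0], [0, 1, -8, -6, -3, 0, 0], [0, 2, -2, 1, 0, -6, 0], [-1, 2, 5, -3, 9, 6, 0]], [[0, 0, 2, 2, 0, 0, 0], [0, 0, 1, 2, 0, 0, 0], [0, 0, 2, 2, 1, 0, 0], [0, 0, 0, 0, 0, 2, 0], [0, 0, -1, 0, -3, -2, 0]], [0, 0, 0, 0, -16]⟩, ⟨30, [[2, 2, 0, 2, 62], [0, 8, 0, 0, 48], [0, 0, 2, 0, 32], [0, 0, 0, 4, 28], [0, 0, 0, 0, 64]], [[0, 3, 4, -2, 0, 0, 0], [0, -14, -1, 1, 0, 0, 0], [0, -9, 0, 0, 1, 0, 0], [-8, -7, -14, 5, -8, 0, -2], [11, 5, 3, -1, 3, 0, 1]], [[-1, 0, 0, 0, 0, 0, 0], [2, 0, 0, 0, 0, 0, 0], [1, 0, 0, 0, 0, 0, 0], [3, 0, 0, 0, 0, 0, 0], [-1, -1, 0, 0, 0, 0, 0]], [0, 0, 0, -16, 0]⟩]⟩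

theorem b10_ok : chkBad b10 = true := by decide +kernel

def b11 : BCert :=
  ⟨[[0, 1, 0, 0, 0, 0, 0], [1, 0, 0, 0, 0, 0, 0], [0, 0, 2, 3, 0, 0, 0], [0, 0, 3, 6, 0, 0, 0], [0, 0, 0, 0, 5, 0, 0], [0, 0, 0, 0, 0, 5, 0], [0, 0, 0, 0, 0, 0, 5]], 15, [[0, 15, 0, 0, 0, 0, 0], [15, 0, 0, 0, 0, 0, 0], [0, 0, 30, -15, 0, 0, 0], [0, 0, -15, 10, 0, 0, 0], [0, 0, 0, 0, 3, 0, 0], [0, 0, 0, 0, 0, 3, 0], [0, 0, 0, 0, 0, 0, 3]], [6, -7, 1, 1, 2, 3, 1], 1, [-7, 6, 5, 9, 10, 15, 5], [[0, -1, 12, -6, 0, 0, 0], [0, -3, 0, 2, 0, 0, 0], [0, -5, 0, 0, 3, 0, 0], [0, -5, 0, 0, 0, 2, 0], [0, -5, 0, 0, 0, 0, 6]], 360, [5, 15, 8, 18, 2], [1, 0, 0, 0, 0], [60, 0, 0, 0, 0, 0, 0], 1, [⟨1, [[2, 6, 10, 10, 70], [0, 24,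 0, 0, 180], [0, 0, 30, 0, 240], [0, 0, 0, 20, 180], [0, 0, 0, 0, 360]], [[0, 0, 0, 0, 0, 0, 0], [0, 0, 0, 0, 0, 0, 0], [0, 0, 0, 0, 0, 0, 0], [0, 0, 0, 0, 0, 0, 0], [0, 0, 0, 0, 0, 0, 0]], [[-43, 36, 36, 54, 60, 90, 30], [7, -6, -6, -8, -10, -15, -5], [14, -12, -12, -18, -19, -30, -10], [21, -18, -18, -27, -30, -44, -15], [-15, 13, 13, 19, 21, 32, 11]], [12, 12, 0, 0, 0]⟩, ⟨2, [[1, 3, 5, 5, 35], [0, 12, 0, 0, 90], [0, 0, 15, 0, 120], [0, 0, 0, 10, 90], [0, 0, 0, 0, 180]], [[0, -1, 0, 0, 0, 0, 0], [0, -1, 0, 0, 0, 0, 0], [0, 0, 0, 0, 0, 0, 0], [0, -1, 0, 0, 0, 0, 0], [-1, -1, 0, 0, 0, 0, 0]], [[-42, 36, 36, 54, 60, 90, 30], [8, -6, -6, -8, -10, -15, -5], [14, -12, -12, -18, -19, -30, -10],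 [22, -18, -18, -27, -30, -44, -15], [-14, 14, 13, 19, 21, 32, 11]], [12, 12, 0, 0, 0]⟩, ⟨3, [[2, 6, 10, 10, 70], [0, 8, 0, 0, 180], [0, 0, 30, 0, 240], [0, 0, 0, 20, 180], [0, 0, 0, 0, 360]], [[0, 1, 0, 0, 0, 0, 0], [0, 0, 0, 0, 0, 0, 0], [0, -1, -1, 0, 0, 0, 1], [0, 0, 0, 0, 0, 1, 0], [-1, 0, -1, 0, 0, -1, -1]], [[-1, 0, 2, 0, 0, 0, 0], [-7, 6, 4, 10, 10, 15, 5], [3, -2, -1, -1, -3, -5, -5], [0, 0, -1, 0, 0, -3, 0], [2, -1, 1, -1, -3, -1, 2]], [0, 24, -30, 0, 0]⟩, ⟨5, [[2, 6, 4, 2, 22], [0, 24, 0, 0, 36], [0, 0, 6, 0, 48], [0, 0, 0, 4, 36], [0, 0, 0, 0, 72]], [[0, 2, 1, 2, 0, 0, 0], [0, 0, 1, 0, 0, 0, 0], [0, 2, 1, 2, 0, 0, 0], [0, -1, 2, -1, 0, 0, 0], [2, -1, -2, 0, 0, 0, 0]], [[-1, 0,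 -2, -6, 0, 0, 0], [0, 0, -1, -1, 0, 0, 0], [-1, 0, -4, -6, 1, 0, 0], [0, 0, -1, 0, 0, 1, 0], [1, -1, 2, 2, -1, -1, 0]], [0, 0, 0, 0, -12]⟩, ⟨6, [[1, 3, 5, 5, 35], [0, 4, 0, 0, 90], [0, 0, 15, 0, 120], [0, 0, 0, 10, 90], [0, 0, 0, 0, 180]], [[0, -1, 0, 0, 0, 0, 0], [0, -3, 0, 2, 0, -3, -3], [0, 1, 1, 1, -3, -3, -1], [0, 0, 0, -3, 0, -1, 0], [1, 0, 1, 1, -3, 1, -2]], [[0, 0, 2, 0, 0, 0, 0], [-6, 6, 2, 6, 10, 20, 10], [2, -2, -4, -6, 2, 0, 0], [0, 0, 2, 6, 0, 2, 0], [2, -2, -2, -6, 2, -6, 2]], [0, 24, -30, 0, 0]⟩, ⟨10, [[1, 3, 2, 1, 11], [0, 12, 0, 0, 18], [0, 0, 3, 0, 24], [0, 0, 0, 2, 18], [0, 0, 0, 0, 36]], [[0, -1, 2, 4, 0, 0, 0], [0, 0, -3, -5, 0, 0, 0], [0, -1, 2, 4, 1, 0, 0], [0, -2,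 -1, 3, 0, 1, 0], [-1, 3, -4, 0, -1, -1, 0]], [[0, 0, -2, -6, 0, 0, 0], [0, 0, 4, 8, 0, 0, 0], [0, 0, -4, -6, 0, 0, 0], [0, 0, -2, -3, 0, 0, 0], [0, 0, 2, 2, 0, 0, 0]], [0, 0, 0, 0, -12]⟩, ⟨15, [[2, 6, 4, 2, 22], [0, 8, 0, 0, 36], [0, 0, 6, 0, 48], [0, 0, 0, 4, 36], [0, 0, 0, 0, 72]], [[3, 1, -6, 0, 3, -3, -6], [0, -5, -7, -5, -5, 0, 5], [3, 6, -6, 0, 7, -3, 4], [6, 2, 3, 0, 6, -7, 3], [7, -1, 7, 5, 6, 1, -5]], [[-3, 2, 4, 6, 2, 8, 6], [3, -2, 2, 4, 0, -5, -5], [1, -2, 0, 0, -7, -2, -4], [1, -2, -2, -3, -6, 2, -3], [-2, 1, -2, -4, -1, 4, 5]], [12, -4, 0, 0, 0]⟩, ⟨30, [[1, 3, 2, 1, 11], [0, 4, 0, 0, 18], [0, 0, 3, 0, 24], [0, 0, 0, 2, 18], [0, 0, 0, 0, 36]], [[6, -13, -12, 0, 12, -12, 6], [0,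 5, -14, 0, -10, -15, -5], [6, -3, -12, 0, -7, -12, -4], [12, -11, -9, 0, -6, -8, -3], [-1, -2, 14, 0, 9, 14, 5]], [[-2, 2, 4, 6, 0, 10, 0], [2, -2, 0, 0, 0, 0, 0], [2, -2, 0, 0, 0, 0, 0], [2, -2, 0, 0, 0, 0, 0], [-2, 2, 0, 0, 0, 0, 0]], [12, -4, 0, 0, 0]⟩]⟩

theorem b11_ok : chkBad b11 = true := by decide +kernel

def b12 : BCert :=
  ⟨[[0, 2, 0, 0, 0, 0, 0], [2, 0, 0, 0, 0, 0, 0], [0, 0, 2, 3, 0, 0, 0], [0, 0, 3, 6, 0, 0, 0], [0, 0, 0, 0, 5, 0, 0], [0, 0, 0, 0, 0, 5, 0], [0, 0, 0, 0, 0, 0, 5]], 30, [[0, 15, 0, 0, 0, 0, 0], [15, 0, 0, 0, 0, 0, 0], [0, 0, 60, -30, 0, 0, 0], [0, 0, -30, 20, 0, 0, 0], [0, 0, 0, 0, 6, 0, 0], [0, 0, 0, 0, 0, 6, 0], [0, 0, 0, 0, 0, 0, 6]], [2, -4, 1, 0, 1, 1, 2],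 1, [-8, 4, 2, 3, 5, 5, 10], [[0, -1, 8, -4, 0, 0, 0], [0, -3, 0, 4, 0, 0, 0], [0, -5, 0, 0, 4, 0, 0], [0, -5, 0, 0, 0, 4, 0], [0, -5, 0, 0, 0, 0, 2]], 480, [15, 5, 6, 6, 24], [-1, -1, 2, 2, 0], [240, 0, 0, 0, 0, 0, 0], 1, [⟨1, [[4, 12, 20, 20, 20], [0, 48, 0, 40, 0], [0, 0, 40, 40, 20], [0, 0, 0, 80, 20], [0, 0, 0, 0, 40]], [[0, 0, 0, 0, 0, 0, 0], [0, 0, 0, 0, 0, 0, 0], [0, 0, 0, 0, 0, 0, 0], [0, 0, 0, 0, 0, 0, 0], [0, 0, 0, 0, 0, 0, 0]], [[-17, 8, 6, 6, 10, 10, 20], [8, -4, -2, -2, -5, -5, -10], [8, -4, -3, -3, -4, -5, -10], [-4, 2, 1, 1, 2, 3, 5], [6, -3, -2, -2, -4, -4, -7]], [8, -24, 0, 0, 0]⟩, ⟨2, [[2, 6, 10, 10, 10], [0, 24, 0, 20, 0], [0, 0, 20, 20, 10], [0, 0, 0, 40, 10], [0, 0, 0,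 0, 20]], [[0, 0, 0, 0, 0, 0, 0], [0, 0, 0, 0, 0, 0, 0], [0, 0, 0, 0, 0, 0, 0], [0, 0, 0, 0, 0, 0, 0], [0, 0, 0, 0, 0, 0, 0]], [[-17, 8, 6, 6, 10, 10, 20], [8, -4, -2, -2, -5, -5, -10], [8, -4, -3, -3, -4, -5, -10], [-4, 2, 1, 1, 2, 3, 5], [6, -3, -2, -2, -4, -4, -7]], [8, -24, 0, 0, 0]⟩, ⟨3, [[4, 12, 20, 20, 20], [0, 16, 0, 40, 20], [0, 0, 40, 40, 20], [0, 0, 0, 80, 20], [0, 0, 0, 0, 40]], [[0, -1, -1, 0, 0, 0, 0], [-1, -1, 1, 0, 1, 1, -1], [0, 0, -1, 0, 1, 0, 0], [-1, -1, 1, 0, -1, 0, -1], [1, 1, 0, 0, 1, 1, 0]], [[1, 0, 2, 2, 0, 0, 0], [4, 0, -2, -2, -5, -5, 0], [0, 0, 1, 2, -3, 0, 0], [0, 2, -1, -2, 4, 1, 5], [-2, -1, 0, 0, -3, -3, 1]], [0, -16, 0, 0, 0]⟩, ⟨4, [[1, 3, 5, 5, 5], [0, 24,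 0, 20, 0], [0, 0, 20, 20, 0], [0, 0, 0, 40, 0], [0, 0, 0, 0, 10]], [[0, -1, 0, 0, 0, 0, 0], [-2, 0, -2, -2, -1, -1, -2], [0, 0, -2, 1, 1, 0, 0], [1, -2, 1, 1, -2, -1, 1], [0, 0, 0, -2, 0, 0, 1]], [[0, 0, 2, 0, 0, 0, 0], [4, 0, 4, 8, 0, 0, 0], [0, 0, 0, 0, -2, 0, 0], [0, 0, -2, -4, 6, 4, 0], [0, 0, 2, 6, 0, 0, -2]], [0, -48, 0, 0, 0]⟩, ⟨5, [[4, 12, 4, 4, 4], [0, 48, 0, 8, 0], [0, 0, 8, 8, 4], [0, 0, 0, 16, 4], [0, 0, 0, 0, 8]], [[0, 1, 2, -1, 0, 0, 0], [0, 0, 2, 2, 0, 0, 0], [-1, -1, 1, -2, 0, 0, 0], [-2, -1, -2, -1, 0, 0, 0], [-1, -2, 2, 2, 0, 0, 0]], [[-1, 0, 0, 0, 0, 0, 0], [0, 0, -4, -7, 0, 0, 0], [2, 0, 1, 3, 0, -1, -2], [0, 2, 3, 5, 0, 1, 1], [1, 1, -4, -7, 0, 0, 1]], [0, 0, -8, 0, 0]⟩,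 ⟨6, [[2, 6, 10, 10, 10], [0, 8, 0, 20, 10], [0, 0, 20, 20, 10], [0, 0, 0, 40, 10], [0, 0, 0, 0, 20]], [[0, 1, -2, -2, 0, 0, 0], [-2, -2, 2, 2, -1, -1, -2], [0, 0, -2, 1, -1, 0, 0], [-2, -2, 2, -1, -2, -3, 1], [-1, 2, 0, 0, -1, -1, -3]], [[-1, 0, 4, 6, 0, 0, 0], [4, 0, -4, -6, 0, 0, 0], [0, 0, 0, 0, 2, 0, 0], [0, 2, 0, 0, 4, 6, 0], [-2, 1, 0, 0, 2, 2, 6]], [0, -16, 0, 0, 0]⟩, ⟨10, [[2, 6, 2, 2, 2], [0, 24, 0, 4, 0], [0, 0, 4, 4, 2], [0, 0, 0, 8, 2], [0, 0, 0, 0, 4]], [[4, 4, -4, -2, 2, 2, 4], [-2, 4, -2, 4, -1, -1, -2], [-2, -2, -3, 1, 0, -1, -2], [-4, -2, 1, 3, 0, 1, 1], [-4, 0, -2, 4, -1, -1, -1]], [[-5, 0, 4, 6, 0, 0, 0], [0, 0, -2, -4, 0, 0, 0], [2, 0, 0, 0, 0, 0, 0], [0, 2, -2, -4, 0,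 0, 0], [1, 1, -2, -4, 0, 0, 0]], [8, -24, 0, 0, 0]⟩, ⟨12, [[1, 3, 5, 5, 5], [0, 8, 0, 20, 0], [0, 0, 20, 20, 0], [0, 0, 0, 40, 0], [0, 0, 0, 0, 10]], [[-4, -5, 0, -4, 4, 4, -4], [-6, 0, -6, 2, 3, 3, -6], [-2, 4, -3, 1, 4, 5, -2], [3, -6, 3, -1, 5, 4, -3], [-4, -4, -6, 2, -2, -2, -5]], [[-4, 4, 4, 6, 0, 0, 10], [4, 0, 0, 0, -5, -5, 0], [0, 0, 0, 0, -4, -5, 0], [0, 0, 0, 0, -3, -2, 5], [4, 0, 0, 0, 0, 0, 1]], [8, -24, 0, 0, 0]⟩, ⟨15, [[4, 12, 4, 4, 4], [0, 16, 0, 8, 4], [0, 0, 8, 8, 4], [0, 0, 0, 16, 4], [0, 0, 0, 0, 8]], [[2, 7, 3, -6, -2, -2, -4], [-3, 6, -3, 6, 3, 3, 6], [-1, -6, 6, 3, 0, 1, 2], [-6, -3, -6, -3, -1, -2, -3], [4, 3, 0, 0, 0, 0, -1]], [[-3, 0, 2, 4, 2, 2, 4], [0, 0, -2, -4,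 -3, -3, -6], [2, 0, -3, -5, 0, -1, -2], [0, 2, 3, 5, 1, 2, 3], [-1, -1, 0, 0, 0, 0, 1]], [8, -24, 0, 0, 0]⟩, ⟨20, [[1, 3, 1, 1, 1], [0, 24, 0, 4, 0], [0, 0, 4, 4, 0], [0, 0, 0, 8, 0], [0, 0, 0, 0, 2]], [[8, 3, -8, -4, 4, 4, 8], [-2, 4, -2, -6, -1, -1, -2], [-2, 3, -3, 1, 0, -1, -2], [1, -2, 1, -7, 0, 1, 1], [-4, 6, -6, 2, -2, -2, -3]], [[-4, 0, 4, 6, 0, 0, 0], [0, 0, 2, 4, 0, 0, 0], [0, 0, 0, 0, 0, 0, 0], [0, 0, 2, 4, 0, 0, 0], [0, 0, 0, 0, 0, 0, 0]], [8, -24, 0, 0, 0]⟩, ⟨30, [[2, 6, 2, 2, 2], [0, 8, 0, 4, 2], [0, 0, 4, 4, 2], [0, 0, 0, 8, 2], [0, 0, 0, 0, 4]], [[4, -1, 6, -2, 2, 2, 4], [-6, 12, -6, 2, -3, -3, -6], [-2, -12, -3, 1, 0, -1, -2], [-12, -6, 3, -1, 1, 2, 3], [-7, -9, 0, 0, 0,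 0, 1]], [[-1, 0, 0, 0, 0, 0, 0], [0, 0, 0, 0, 0, 0, 0], [2, 0, 0, 0, 0, 0, 0], [0, 2, 0, 0, 0, 0, 0], [1, 1, 0, 0, 0, 0, 0]], [8, -24, 0, 0, 0]⟩, ⟨60, [[1, 3, 1, 1, 1], [0, 8, 0, 4, 0], [0, 0, 4, 4, 0], [0, 0, 0, 8, 0], [0, 0, 0, 0, 2]], [[8, -17, 12, -4, 4, 4, 8], [-6, 12, -6, 2, -3, -3, -6], [-2, 3, -3, 1, 0, -1, -2], [3, -6, 3, -1, 1, 2, 3], [-4, 6, -6, 2, -2, -2, -3]], [[0, 0, 0, 0, 0, 0, 0], [0, 0, 0, 0, 0, 0, 0], [0, 0, 0, 0, 0, 0, 0], [0, 0, 0, 0, 0, 0, 0], [0, 0, 0, 0, 0, 0, 0]], [8, -24, 0, 0, 0]⟩]⟩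

theorem b12_ok : chkBad b12 = true := by decide +kernel

def b13 : BCert :=
  ⟨[[0, 1, 0, 0, 0, 0, 0], [1, 0, 0, 0, 0, 0, 0], [0, 0, 10, 15, 0, 0, 0], [0, 0, 15, 30, 0, 0, 0], [0, 0, 0, 0, 1, 0, 0], [0, 0, 0, 0, 0, 1, 0], [0, 0, 0, 0, 0, 0, 1]], 15, [[0, 15, 0, 0, 0, 0, 0], [15, 0, 0, 0, 0, 0, 0], [0, 0, 6, -3, 0, 0, 0], [0, 0, -3, 2, 0, 0, 0], [0, 0, 0, 0, 15, 0, 0], [0, 0, 0, 0, 0, 15, 0], [0, 0, 0, 0, 0, 0, 15]], [6, -7, 1, 1, 2, 3, 1], 1, [-7, 6, 25, 45, 2, 3, 1], [[0, -5, 12, -6, 0, 0, 0], [0, -15, 0, 2, 0, 0, 0], [0, -1, 0, 0, 3, 0, 0], [0, -1, 0, 0, 0, 2, 0], [0, -1, 0, 0, 0, 0, 6]], 360, [1, 3, 40, 90, 10], [1, 0, 0, 0, 0], [60, 0, 0, 0, 0, 0, 0], 1, [⟨1, [[10, 30, 2, 2, 62], [0,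 120, 0, 0, 36], [0, 0, 6, 0, 48], [0, 0, 0, 4, 36], [0, 0, 0, 0, 72]], [[0, 0, 0, 0, 0, 0, 0], [0, 0, 0, 0, 0, 0, 0], [0, 0, 0, 0, 0, 0, 0], [0, 0, 0, 0, 0, 0, 0], [0, 0, 0, 0, 0, 0, 0]], [[-1, 0, 6, 0, 0, 0, 0], [0, 0, -1, 1, 0, 0, 0], [0, 0, -2, 0, 1, 0, 0], [0, 0, -3, 0, 0, 1, 0], [2, -1, -6, -8, -1, -1, 0]], [0, 0, 0, 0, -12]⟩, ⟨2, [[5, 15, 1, 1, 31], [0, 60, 0, 0, 18], [0, 0, 3, 0, 24], [0, 0, 0, 2, 18], [0, 0, 0, 0, 36]], [[0, -1, 0, 0, 0, 0, 0], [0, 0, 0, 0, 0, 0, 0], [0, 0, 0, 0, -1, 0, 0], [0, 0, 0, 0, 0, -1, 0], [-1, 0, 0, 0, -1, -1, 0]], [[0, 0, 6, 0, 0, 0, 0], [0, 0, -1, 1, 0, 0, 0], [0, 0, -2, 0, 2, 0, 0], [0, 0, -3, 0, 0, 2, 0], [2, 0, -6, -8, 0, 0, 0]], [0, 0, 0, 0, -12]⟩,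 ⟨3, [[10, 30, 2, 2, 62], [0, 40, 0, 0, 36], [0, 0, 6, 0, 48], [0, 0, 0, 4, 36], [0, 0, 0, 0, 72]], [[0, 1, 0, 0, 0, 0, 0], [0, 0, 0, 0, 0, 0, 0], [0, 0, -1, 0, -1, 0, 0], [0, 0, 0, 0, 0, -1, 0], [1, 1, -1, 0, 1, 1, 0]], [[-1, 0, 2, 0, 0, 0, 0], [0, 0, -1, 1, 0, 0, 0], [0, 0, 6, 10, 1, 0, 0], [0, 0, -1, 0, 0, 1, 0], [0, -1, 5, 7, -1, -1, 0]], [0, 0, 0, 0, -12]⟩, ⟨5, [[2, 6, 4, 2, 70], [0, 24, 0, 0, 36], [0, 0, 6, 0, 48], [0, 0, 0, 4, 36], [0, 0, 0, 0, 72]], [[0, 0, 0, 0, 0, 0, 0], [0, 0, 0, 0, 0, 0, 0], [0, -1, 0, 0, -2, 0, 0], [0, 1, 0, 0, 0, -2, 0], [2, -1, 0, 0, 2, 2, 0]], [[-1, 0, 6, 0, 0, 0, 0], [0, 0, -1, 1, 0, 0, 0], [1, 0, -4, 0, 1, 0, 0], [0, 0, -3, 0, 0, 1, 0], [1, -1, -2, -2, -1,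 -1, 0]], [0, 0, 0, 0, -12]⟩, ⟨6, [[5, 15, 1, 1, 31], [0, 20, 0, 0, 18], [0, 0, 3, 0, 24], [0, 0, 0, 2, 18], [0, 0, 0, 0, 36]], [[0, -1, 0, 0, 0, 0, 0], [0, 0, -3, 0, 0, 0, 0], [0, 0, -2, 0, 1, 0, 0], [0, 0, -3, 0, 0, 1, 0], [-1, 2, 1, 0, -1, -1, 0]], [[0, 0, 2, 0, 0, 0, 0], [0, 0, 9, 16, 0, 0, 0], [0, 0, 6, 10, 0, 0, 0], [0, 0, 9, 15, 0, 0, 0], [0, 0, -5, -8, 0, 0, 0]], [0, 0, 0, 0, -12]⟩, ⟨10, [[1, 3, 2, 1, 35], [0, 12, 0, 0, 18], [0, 0, 3, 0, 24], [0, 0, 0, 2, 18], [0, 0, 0, 0, 36]], [[0, -5, 0, 0, 0, 0, 0], [0, 0, 0, 0, 0, 0, 0], [0, 3, 0, 0, 1, 0, 0], [0, 2, 0, 0, 0, 1, 0], [-1, 3, 0, 0, -1, -1, 0]], [[0, 0, 6, 0, 0, 0, 0], [0, 0, -1, 1, 0, 0, 0], [0, 0, -4, 0, 0, 0, 0], [0, 0, -3, 0,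 0, 0, 0], [0, 0, -2, -2, 0, 0, 0]], [0, 0, 0, 0, -12]⟩, ⟨15, [[2, 6, 4, 2, 70], [0, 8, 0, 0, 36], [0, 0, 6, 0, 48], [0, 0, 0, 4, 36], [0, 0, 0, 0, 72]], [[0, 5, 6, 0, 0, 0, 0], [0, 0, -3, 0, 0, 0, 0], [0, -6, -4, 0, -7, 0, 0], [0, 1, -3, 0, 0, -7, 0], [7, -6, -1, 0, 7, 7, 0]], [[-1, 0, -6, -12, 0, 0, 0], [0, 0, 3, 7, 0, 0, 0], [1, 0, 4, 8, 1, 0, 0], [0, 0, 3, 6, 0, 1, 0], [1, -1, 1, 1, -1, -1, 0]], [0, 0, 0, 0, -12]⟩, ⟨30, [[1, 3, 2, 1, 35], [0, 4, 0, 0, 18], [0, 0, 3, 0, 24], [0, 0, 0, 2, 18], [0, 0, 0, 0, 36]], [[0, -5, 12, -6, 0, 0, 0], [0, 0, -9, 5, 0, 0, 0], [0, 3, -8, 4, 1, 0, 0], [0, 2, -6, 3, 0, 1, 0], [-1, 3, 1, -1, -1, -1, 0]], [[0, 0, 0, 0, 0, 0, 0], [0, 0, 0, 0, 0, 0, 0], [0,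 0, 0, 0, 0, 0, 0], [0, 0, 0, 0, 0, 0, 0], [0, 0, 0, 0, 0, 0, 0]], [0, 0, 0, 0, -12]⟩]⟩

theorem b13_ok : chkBad b13 = true := by decide +kernel

def b14 : BCert :=
  ⟨[[0, 2, 0, 0, 0, 0, 0], [2, 0, 0, 0, 0, 0, 0], [0, 0, 10, 15, 0, 0, 0], [0, 0, 15, 30, 0, 0, 0], [0, 0, 0, 0, 1, 0, 0], [0, 0, 0, 0, 0, 1, 0], [0, 0, 0, 0, 0, 0, 1]], 30, [[0, 15, 0, 0, 0, 0, 0], [15, 0, 0, 0, 0, 0, 0], [0, 0, 12, -6, 0, 0, 0], [0, 0, -6, 4, 0, 0, 0], [0, 0, 0, 0, 30, 0, 0], [0, 0, 0, 0, 0, 30, 0], [0, 0, 0, 0, 0, 0, 30]], [2, -2, 1, 0, 1, 1, 2], 1, [-4, 4, 10, 15, 1, 1, 2], [[0, -5, 8, -4, 0, 0, 0], [0, -15, 0, 4, 0, 0, 0], [0, -1, 0, 0, 4, 0, 0], [0, -1, 0, 0, 0, 4, 0], [0, -1, 0, 0, 0, 0, 2]], 480, [3, 1,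 30, 30, 120], [-1, -1, 10, 10, 0], [240, 0, 0, 0, 0, 0, 0], 1, [⟨1, [[20, 60, 4, 4, 4], [0, 240, 0, 8, 0], [0, 0, 8, 8, 4], [0, 0, 0, 16, 4], [0, 0, 0, 0, 8]], [[0, 0, 0, 0, 0, 0, 0], [0, 0, 0, 0, 0, 0, 0], [0, 0, 0, 0, 0, 0, 0], [0, 0, 0, 0, 0, 0, 0], [0, 0, 0, 0, 0, 0, 0]], [[-1, 0, 2, 0, 0, 0, 0], [0, 0, 0, 1, 0, 0, 0], [4, -4, -11, -15, 0, -1, -2], [-2, 2, 5, 7, 0, 1, 1], [-1, 1, 2, 4, 0, 0, 1]], [0, 0, -8, 0, 0]⟩, ⟨2, [[10, 30, 2, 2, 2], [0, 120, 0, 4, 0], [0, 0, 4, 4, 2], [0, 0, 0, 8, 2], [0, 0, 0, 0, 4]], [[0, 0, 0, 0, 0, 0, 0], [0, 0, 0, 0, 0, 0, 0], [0, 0, 0, 0, 0, -1, 0], [0, 0, 0, 0, 0, -1, -1], [0, 0, 0, 0, 0, 0, -1]], [[-1, 0, 2, 0, 0, 0, 0], [0, 0, 0, 1, 0, 0, 0], [4, -4, -11,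 -15, 0, 0, -2], [-2, 2, 5, 7, 0, 2, 2], [-1, 1, 2, 4, 0, 0, 2]], [0, 0, -8, 0, 0]⟩, ⟨3, [[20, 60, 4, 4, 4], [0, 80, 0, 8, 4], [0, 0, 8, 8, 4], [0, 0, 0, 16, 4], [0, 0, 0, 0, 8]], [[0, -1, 1, 0, 0, 0, 0], [0, 0, 0, 0, 0, 0, 0], [-1, 1, -1, 0, 0, 1, -1], [-1, 1, 1, 0, 0, -1, -1], [1, -1, 1, 0, 0, 0, -1]], [[1, 0, -6, -10, 0, 0, 0], [0, 0, 0, 1, 0, 0, 0], [0, 0, 3, 5, 0, -1, 0], [-2, 2, -5, -8, 0, 1, 1], [1, -1, -6, -9, 0, 0, 1]], [0, 0, -8, 0, 0]⟩, ⟨4, [[5, 15, 1, 1, 1], [0, 120, 0, 4, 0], [0, 0, 4, 4, 0], [0, 0, 0, 8, 0], [0, 0, 0, 0, 2]], [[0, -1, 0, 0, 0, 0, 0], [0, 0, 1, 0, 0, 0, 0], [-2, -2, -1, 1, 0, -1, -2], [1, -1, 1, 1, 0, 1, 1], [0, 0, 0, -2, 0, 0, 1]], [[0, 0, 2, 0, 0, 0, 0], [0,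 0, -5, -7, 0, 0, 0], [4, 0, -8, -15, 0, 0, 0], [0, 0, -10, -19, 0, 0, 0], [0, 0, 14, 30, 0, 0, 0]], [0, 0, -8, 0, 0]⟩, ⟨5, [[4, 12, 4, 4, 4], [0, 48, 0, 8, 0], [0, 0, 8, 8, 4], [0, 0, 0, 16, 4], [0, 0, 0, 0, 8]], [[0, 0, 0, 0, 0, 0, 0], [0, 0, 0, 0, 0, 0, 0], [-1, -1, 0, 0, 0, 2, -1], [-2, 2, 0, 0, 0, -2, -2], [-1, 0, 0, 0, 0, 0, -2]], [[-1, 0, 2, 0, 0, 0, 0], [0, 0, 0, 1, 0, 0, 0], [2, 0, -3, -3, 0, -1, 0], [-2, 2, 1, 1, 0, 1, 1], [0, 1, 0, 1, 0, 0, 1]], [0, 0, -8, 0, 0]⟩, ⟨6, [[10, 30, 2, 2, 2], [0, 40, 0, 4, 2], [0, 0, 4, 4, 2], [0, 0, 0, 8, 2], [0, 0, 0, 0, 4]], [[0, 1, 2, 0, 0, 0, 0], [0, 0, 0, 0, 0, 0, 0], [-2, 2, 1, 0, 0, -1, -2], [-2, 2, -1, 0, 0, 1, 1], [-1, 1, 2, 0, 0, 0, 1]], [[-1,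 0, -6, -10, 0, 0, 0], [0, 0, 0, 1, 0, 0, 0], [0, 0, -7, -10, 0, 0, 0], [-2, 2, 5, 7, 0, 0, 0], [-1, 1, -6, -9, 0, 0, 0]], [0, 0, -8, 0, 0]⟩, ⟨10, [[2, 6, 2, 2, 2], [0, 24, 0, 4, 0], [0, 0, 4, 4, 2], [0, 0, 0, 8, 2], [0, 0, 0, 0, 4]], [[0, 0, 0, 0, 0, 0, 0], [0, 0, 0, 0, 0, 0, 0], [-2, -2, 0, 0, 0, -1, -2], [-4, 4, 0, 0, 0, 1, 1], [-2, 0, 0, 0, 0, 0, 1]], [[-1, 0, 2, 0, 0, 0, 0], [0, 0, 0, 1, 0, 0, 0], [2, 0, -3, -3, 0, 0, 0], [-2, 2, 1, 1, 0, 0, 0], [0, 1, 0, 1, 0, 0, 0]], [0, 0, -8, 0, 0]⟩, ⟨12, [[5, 15, 1, 1, 1], [0, 40, 0, 4, 0], [0, 0, 4, 4, 0], [0, 0, 0, 8, 0], [0, 0, 0, 0, 2]], [[0, -1, 4, 4, 0, 0, 0], [0, 0, -3, 4, 0, 0, 0], [-2, 2, 1, -1, 0, -1, -2], [1, -1, -4, -5, 0, 1, 1], [0,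 0, 4, -2, 0, 0, 1]], [[0, 0, -16, -30, 0, 0, 0], [0, 0, -5, -12, 0, 0, 0], [0, 0, -1, 0, 0, 0, 0], [0, 0, 20, 36, 0, 0, 0], [0, 0, -2, 0, 0, 0, 0]], [0, 0, -8, 0, 0]⟩, ⟨15, [[4, 12, 4, 4, 4], [0, 16, 0, 8, 4], [0, 0, 8, 8, 4], [0, 0, 0, 16, 4], [0, 0, 0, 0, 8]], [[0, -5, 2, 0, 0, 0, 0], [-1, 1, -2, 0, 7, 7, -1], [0, -7, -1, 0, -7, 0, 0], [-7, 7, 1, 0, 0, -7, -7], [4, 0, 0, 0, 0, 0, -7]], [[1, 0, -2, -4, 0, 0, 0], [0, 0, 2, 4, -1, -1, 0], [2, 0, 1, 2, 1, 0, 0], [-2, 2, -1, -2, 0, 1, 1], [0, -1, 0, 0, 0, 0, 1]], [0, -16, 0, 0, 0]⟩, ⟨20, [[1, 3, 1, 1, 1], [0, 24, 0, 4, 0], [0, 0, 4, 4, 0], [0, 0, 0, 8, 0], [0, 0, 0, 0, 2]], [[0, -5, 0, 8, 0, 0, 0], [0, 0, 3, -2, 0, 0, 0], [-2, 3, 1, 5, 0, -1,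 -2], [1, -1, -7, 5, 0, 1, 1], [0, 2, 0, 6, 0, 0, 1]], [[0, 0, -10, -24, 0, 0, 0], [0, 0, 0, 2, 0, 0, 0], [0, 0, -10, -18, 0, 0, 0], [0, 0, 0, -4, 0, 0, 0], [0, 0, -10, -18, 0, 0, 0]], [0, 0, -8, 0, 0]⟩, ⟨30, [[2, 6, 2, 2, 2], [0, 8, 0, 4, 2], [0, 0, 4, 4, 2], [0, 0, 0, 8, 2], [0, 0, 0, 0, 4]], [[0, 5, 4, -2, 0, 0, 0], [-2, 2, -4, 2, -1, -1, -2], [0, -14, -2, 1, 1, 0, 0], [-14, 14, 2, -1, 0, 1, 1], [-7, 0, 0, 0, 0, 0, 1]], [[-1, 0, 0, 0, 0, 0, 0], [0, 0, 0, 0, 0, 0, 0], [2, 0, 0, 0, 0, 0, 0], [-2, 2, 0, 0, 0, 0, 0], [0, 1, 0, 0, 0, 0, 0]], [0, -16, 0, 0, 0]⟩]⟩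

theorem b14_ok : chkBad b14 = true := by decide +kernel

def b15 : BCert :=
  ⟨[[0, 2, 0, 0, 0, 0, 0], [2, 0, 0, 0, 0, 0, 0], [0, 0, 3, 5, 0, 0, 0], [0, 0, 5, 10, 0, 0, 0], [0, 0, 0, 0, 1, 0, 0], [0, 0, 0, 0, 0, 1, 0], [0, 0, 0, 0, 0, 0, 1]], 10, [[0, 5, 0, 0, 0, 0, 0], [5, 0, 0, 0, 0, 0, 0], [0, 0, 20, -10, 0, 0, 0], [0, 0, -10, 6, 0, 0, 0], [0, 0, 0, 0, 10, 0, 0], [0, 0, 0, 0, 0, 10, 0], [0, 0, 0, 0, 0, 0, 10]], [2, -2, 0, 1, 1, 2, 1], 1, [-4, 4, 5, 10, 1, 2, 1], [[0, 0, 2, -1, 0, 0, 0], [0, -5, 0, 2, 0, 0, 0], [0, -1, 0, 0, 4, 0, 0], [0, -1, 0, 0, 0, 2, 0], [0, -1, 0, 0, 0, 0, 4]], 80, [40, 2, 5, 20, 5], [0, -2, 5, 0, 5], [40, 0, 0, 0, 0, 0, 0], 1, [⟨1, [[2, 0, 4, 0, 28], [0, 20, 4, 0,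 20], [0, 0, 8, 0, 24], [0, 0, 0, 4, 16], [0, 0, 0, 0, 32]], [[0, 0, 0, 0, 0, 0, 0], [0, 0, 0, 0, 0, 0, 0], [0, 0, 0, 0, 0, 0, 0], [0, 0, 0, 0, 0, 0, 0], [0, 0, 0, 0, 0, 0, 0]], [[0, 0, 1, 0, 0, 0, 0], [-1, 0, 1, 2, 0, 0, 0], [4, -4, -6, -11, 0, -2, -1], [-1, 0, 0, 0, 0, 1, 0], [-2, 3, 3, 7, 0, 1, 1]], [0, 0, -8, 0, 0]⟩, ⟨2, [[1, 0, 2, 0, 14], [0, 10, 2, 0, 10], [0, 0, 4, 0, 12], [0, 0, 0, 2, 8], [0, 0, 0, 0, 16]], [[0, 0, 0, 0, 0, 0, 0], [0, 0, 0, 0, 0, 0, 0], [0, 0, 0, 0, 0, 0, -1], [0, 0, 0, 0, 0, -1, 0], [0, 0, 0, 0, 0, -1, -1]], [[0, 0, 1, 0, 0, 0, 0], [-1, 0, 1, 2, 0, 0, 0], [4, -4, -6, -11, 0, -2, 0], [-1, 0, 0, 0, 0, 2, 0], [-2, 3, 3, 7, 0, 2, 2]], [0, 0, -8, 0, 0]⟩, ⟨4, [[1, 0, 2,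 0, 6], [0, 5, 1, 1, 1], [0, 0, 4, 0, 4], [0, 0, 0, 2, 0], [0, 0, 0, 0, 8]], [[0, 0, -2, -1, 0, 0, 0], [0, -1, 0, -2, 0, 0, 0], [-2, -2, -1, -1, 0, -2, -1], [0, 0, 0, -1, 0, 1, 0], [1, -1, -1, -1, 0, 1, 1]], [[0, 0, 6, 10, 0, 0, 0], [0, 0, 6, 12, 0, 0, 0], [4, 0, 1, 2, 0, 0, 0], [0, 0, 2, 4, 0, 0, 0], [0, 0, 5, 10, 0, 0, 0]], [0, 0, -8, 0, 0]⟩, ⟨5, [[2, 0, 4, 0, 28], [0, 4, 4, 0, 20], [0, 0, 8, 0, 24], [0, 0, 0, 4, 16], [0, 0, 0, 0, 32]], [[0, 0, 1, 0, 0, 0, 0], [0, 0, 0, 0, 0, 0, 0], [-1, -1, 2, 0, 0, -1, 2], [0, 1, 0, 0, 0, -2, 0], [2, 1, 2, 0, 0, -2, -2]], [[0, 0, -1, -2, 0, 0, 0], [-1, 0, 1, 2, 0, 0, 0], [2, 0, -4, -7, 0, 0, -1], [-1, 0, 0, 0, 0, 1, 0], [-1, -1, -2, -3, 0, 1, 1]], [0,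 0, -8, 0, 0]⟩, ⟨10, [[1, 0, 2, 0, 14], [0, 2, 2, 0, 10], [0, 0, 4, 0, 12], [0, 0, 0, 2, 8], [0, 0, 0, 0, 16]], [[0, 0, 2, -1, 0, 0, 0], [0, 0, 0, 1, 0, 0, 0], [-2, -2, -1, -1, 0, -2, -1], [0, 2, 0, 0, 0, 1, 0], [4, 2, -1, 1, 0, 1, 1]], [[0, 0, 0, 0, 0, 0, 0], [-1, 0, 0, 0, 0, 0, 0], [2, 0, 0, 0, 0, 0, 0], [-1, 0, 0, 0, 0, 0, 0], [-1, -1, 0, 0, 0, 0, 0]], [0, 0, -8, 0, 0]⟩]⟩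

theorem b15_ok : chkBad b15 = true := by decide +kernel

def b16 : BCert :=
  ⟨[[0, 2, 0, 0, 0, 0, 0], [2, 0, 0, 0, 0, 0, 0], [0, 0, 3, 5, 0, 0, 0], [0, 0, 5, 10, 0, 0, 0], [0, 0, 0, 0, 1, 0, 0], [0, 0, 0, 0, 0, 1, 0], [0, 0, 0, 0, 0, 0, 5]], 10, [[0, 5, 0, 0, 0, 0, 0], [5, 0, 0, 0, 0, 0, 0], [0, 0, 20, -10, 0, 0, 0], [0, 0, -10, 6, 0, 0, 0], [0, 0, 0, 0, 10, 0, 0], [0, 0, 0, 0, 0, 10, 0], [0, 0, 0, 0, 0, 0, 2]], [2, -4, 0, 1, 1, 1, 2], 1, [-8, 4, 5, 10, 1, 1, 10], [[0, 0, 2, -1, 0, 0, 0], [0, -5, 0, 2, 0, 0, 0], [0, -1, 0, 0, 4, 0, 0], [0, -1, 0, 0, 0, 4, 0], [0, -5, 0, 0, 0, 0, 2]], 80, [40, 2, 5, 5, 4], [0, -2, 1, 1, 0], [40, 0, 0, 0, 0, 0, 0], 1, [⟨1, [[2, 0, 4, 12, 20], [0, 20, 4, 4,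 20], [0, 0, 8, 8, 20], [0, 0, 0, 16, 20], [0, 0, 0, 0, 40]], [[0, 0, 0, 0, 0, 0, 0], [0, 0, 0, 0, 0, 0, 0], [0, 0, 0, 0, 0, 0, 0], [0, 0, 0, 0, 0, 0, 0], [0, 0, 0, 0, 0, 0, 0]], [[0, 0, 1, 0, 0, 0, 0], [-1, 0, 1, 2, 0, 0, 0], [8, -4, -6, -11, 0, -1, -10], [-4, 2, 2, 5, 0, 1, 5], [-2, 1, 1, 2, 0, 0, 3]], [0, 0, -8, 0, 0]⟩, ⟨2, [[1, 0, 2, 6, 10], [0, 10, 2, 2, 10], [0, 0, 4, 4, 10], [0, 0, 0, 8, 10], [0, 0, 0, 0, 20]], [[0, 0, 0, 0, 0, 0, 0], [0, 0, 0, 0, 0, 0, 0], [0, 0, 0, 0, 0, -1, 0], [0, 0, 0, 0, 0, -1, 0], [0, 0, 0, 0, 0, 0, 0]], [[0, 0, 1, 0, 0, 0, 0], [-1, 0, 1, 2, 0, 0, 0], [8, -4, -6, -11, 0, 0, -10], [-4, 2, 2, 5, 0, 2, 5], [-2, 1, 1, 2, 0, 0, 3]], [0, 0, -8, 0, 0]⟩, ⟨4, [[1, 0,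 2, 6, 0], [0, 5, 1, 1, 5], [0, 0, 4, 4, 0], [0, 0, 0, 8, 0], [0, 0, 0, 0, 10]], [[0, 0, -2, -1, 0, 0, 0], [0, -1, 0, -2, 0, 0, 0], [-2, 0, -1, -1, 0, -1, -2], [1, -2, -1, -1, 0, 1, 1], [0, 0, 0, -1, 0, 0, 1]], [[0, 0, 6, 10, 0, 0, 0], [0, 0, 6, 12, 0, 0, 0], [4, 0, 1, 2, 0, 0, 0], [0, 0, 5, 10, 0, 0, 0], [0, 0, 2, 4, 0, 0, -2]], [0, 0, -8, 0, 0]⟩, ⟨5, [[2, 0, 4, 12, 4], [0, 4, 4, 4, 4], [0, 0, 8, 8, 4], [0, 0, 0, 16, 4], [0, 0, 0, 0, 8]], [[0, 0, 1, 0, 0, 0, 0], [0, 0, 0, 0, 0, 0, 0], [-1, 0, 2, 0, 0, 2, 0], [-2, -1, 2, 0, 0, -2, 0], [-1, -2, 0, 0, 0, 0, 0]], [[0, 0, -1, -2, 0, 0, 0], [-1, 0, 1, 2, 0, 0, 0], [2, 0, -4, -7, 0, -1, -2], [0, 2, -2, -3, 0, 1, 1], [1, 1, 0, 0, 0, 0, 1]], [0, 0,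 -8, 0, 0]⟩, ⟨10, [[1, 0, 2, 6, 2], [0, 2, 2, 2, 2], [0, 0, 4, 4, 2], [0, 0, 0, 8, 2], [0, 0, 0, 0, 4]], [[0, 0, 2, -1, 0, 0, 0], [0, 0, 0, 1, 0, 0, 0], [-2, 0, -1, -1, 0, -1, -2], [-4, -2, -1, 1, 0, 1, 1], [-2, -4, 0, 0, 0, 0, 1]], [[0, 0, 0, 0, 0, 0, 0], [-1, 0, 0, 0, 0, 0, 0], [2, 0, 0, 0, 0, 0, 0], [0, 2, 0, 0, 0, 0, 0], [1, 1, 0, 0, 0, 0, 0]], [0, 0, -8, 0, 0]⟩, ⟨20, [[1, 0, 2, 6, 0], [0, 1, 1, 1, 1], [0, 0, 4, 4, 0], [0, 0, 0, 8, 0], [0, 0, 0, 0, 2]], [[2, -4, 2, 0, 1, 1, 2], [-4, 3, 0, 0, -2, -2, -4], [0, 1, -1, -10, 1, 0, 0], [-1, 2, -1, -10, -1, 0, -1], [2, -4, 0, 0, 1, 1, 3]], [[0, 0, 0, 0, 0, 0, 0], [0, 0, 0, 0, 0, 0, 0], [0, 0, 5, 10, 0, 0, 0], [0, 0, 5, 10, 0, 0, 0], [0, 0, 0,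 0, 0, 0, 0]], [2, -4, 0, 0, 0]⟩]⟩

theorem b16_ok : chkBad b16 = true := by decide +kernel

def b17 : BCert :=
  ⟨[[0, 2, 0, 0, 0, 0, 0], [2, 0, 0, 0, 0, 0, 0], [0, 0, 3, 1, 0, 0, 0], [0, 0, 1, 2, 0, 0, 0], [0, 0, 0, 0, 5, 0, 0], [0, 0, 0, 0, 0, 5, 0], [0, 0, 0, 0, 0, 0, 1]], 10, [[0, 5, 0, 0, 0, 0, 0], [5, 0, 0, 0, 0, 0, 0], [0, 0, 4, -2, 0, 0, 0], [0, 0, -2, 6, 0, 0, 0], [0, 0, 0, 0, 2, 0, 0], [0, 0, 0, 0, 0, 2, 0], [0, 0, 0, 0, 0, 0, 10]], [2, -2, 0, 1, 1, 1, 2], 1, [-4, 4, 1, 2, 5, 5, 2], [[0, 0, 2, -1, 0, 0, 0], [0, -1, 0, 2, 0, 0, 0], [0, -5, 0, 0, 4, 0, 0], [0, -5, 0, 0, 0, 4, 0], [0, -1, 0, 0, 0, 0, 2]], 80, [8, 10, 1, 1, 20], [0, -10, 1, 1, 0], [40, 0, 0, 0, 0, 0, 0], 1, [⟨1, [[10,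 0, 20, 60, 4], [0, 4, 20, 20, 4], [0, 0, 40, 40, 4], [0, 0, 0, 80, 4], [0, 0, 0, 0, 8]], [[0, 0, 0, 0, 0, 0, 0], [0, 0, 0, 0, 0, 0, 0], [0, 0, 0, 0, 0, 0, 0], [0, 0, 0, 0, 0, 0, 0], [0, 0, 0, 0, 0, 0, 0]], [[4, -4, 0, -2, -5, -5, -2], [3, -4, 0, 0, -5, -5, -2], [-4, 4, 0, 1, 6, 5, 2], [-2, 2, 0, 1, 2, 3, 1], [-1, 1, 0, 0, 1, 1, 1]], [-10, -4, 0, 0, 0]⟩, ⟨2, [[5, 0, 10, 30, 2], [0, 2, 10, 10, 2], [0, 0, 20, 20, 2], [0, 0, 0, 40, 2], [0, 0, 0, 0, 4]], [[0, 0, 0, 0, 0, 0, 0], [0, 0, 0, 0, 0, 0, 0], [0, 0, 0, 0, 0, 0, 0], [0, 0, 0, 0, 0, 0, -1], [0, 0, 0, 0, 0, 0, -1]], [[4, -4, 0, -2, -5, -5, -2], [3, -4, 0, 0, -5, -5, -2], [-4, 4, 0, 1, 6, 5, 2], [-2, 2, 0, 1, 2, 3, 2], [-1, 1, 0, 0, 1, 1,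 2]], [-10, -4, 0, 0, 0]⟩, ⟨4, [[5, 0, 10, 30, 0], [0, 1, 5, 5, 1], [0, 0, 20, 20, 0], [0, 0, 0, 40, 0], [0, 0, 0, 0, 2]], [[-2, -2, -2, -2, -1, -1, -2], [0, -1, 0, 0, -2, -2, 0], [-2, -2, 1, 1, -2, 1, -2], [1, -1, 1, 1, -2, -1, 1], [-2, -2, 0, 0, 1, 1, -1]], [[4, 0, 4, 2, 0, 0, 0], [4, -4, 0, 0, 0, 0, -2], [0, 4, -2, -1, 8, 0, 2], [0, 0, -2, -1, 6, 4, 0], [0, 4, 0, 0, 0, 0, 2]], [-10, -4, 0, 0, 0]⟩, ⟨5, [[2, 0, 4, 12, 4], [0, 4, 4, 4, 4], [0, 0, 8, 8, 4], [0, 0, 0, 16, 4], [0, 0, 0, 0, 8]], [[0, 0, 0, 0, 0, 0, 0], [-1, 2, 0, 0, 0, 0, -1], [-2, -1, 0, 0, 0, 0, -2], [0, 0, 0, 0, 0, 0, 0], [-1, 0, 0, 0, 0, 0, -2]], [[4, -4, 0, -2, -5, -5, -2], [-1, 0, 0, 0, -1, -1, 0], [-2, 4, 0, 1, 4, 3, 2],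 [-2, 2, 0, 1, 2, 3, 1], [0, 1, 0, 0, 0, 0, 1]], [-10, -4, 0, 0, 0]⟩, ⟨10, [[1, 0, 2, 6, 2], [0, 2, 2, 2, 2], [0, 0, 4, 4, 2], [0, 0, 0, 8, 2], [0, 0, 0, 0, 4]], [[2, -2, 2, 0, 1, 1, 2], [-2, 4, 0, 0, -1, -1, -2], [0, 4, -1, 0, 1, 0, 0], [4, -4, -1, 0, -1, 0, -1], [-2, 0, 0, 0, 0, 0, 1]], [[0, 0, 0, 0, 0, 0, 0], [-1, 0, 0, 0, 0, 0, 0], [-2, 0, 0, 0, 0, 0, 0], [2, -2, 0, 0, 0, 0, 0], [0, 1, 0, 0, 0, 0, 0]], [2, -4, 0, 0, 0]⟩, ⟨20, [[1, 0, 2, 6, 0], [0, 1, 1, 1, 1], [0, 0, 4, 4, 0], [0, 0, 0, 8, 0], [0, 0, 0, 0, 2]], [[2, -2, 2, 0, 1, 1, 2], [-4, 3, 0, 0, -2, -2, -4], [0, -1, -1, 0, 1, 0, 0], [-1, 1, -1, 0, -1, 0, -1], [2, -2, 0, 0, 1, 1, 3]], [[0, 0, 0, 0, 0, 0, 0], [0, 0, 0, 0, 0, 0, 0], [0,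 0, 0, 0, 0, 0, 0], [0, 0, 0, 0, 0, 0, 0], [0, 0, 0, 0, 0, 0, 0]], [2, -4, 0, 0, 0]⟩]⟩

theorem b17_ok : chkBad b17 = true := by decide +kernel

def b18 : BCert :=
  ⟨[[0, 2, 0, 0, 0, 0, 0], [2, 0, 0, 0, 0, 0, 0], [0, 0, 3, 5, 0, 0, 0], [0, 0, 5, 10, 0, 0, 0], [0, 0, 0, 0, 1, 0, 0], [0, 0, 0, 0, 0, 3, 0], [0, 0, 0, 0, 0, 0, 3]], 30, [[0, 15, 0, 0, 0, 0, 0], [15, 0, 0, 0, 0, 0, 0], [0, 0, 60, -30, 0, 0, 0], [0, 0, -30, 18, 0, 0, 0], [0, 0, 0, 0, 30, 0, 0], [0, 0, 0, 0, 0, 10, 0], [0, 0, 0, 0, 0, 0, 10]], [2, -2, 2, 0, 1, 1, 0], 1, [-4, 4, 6, 10, 1, 3, 0], [[0, -1, 4, -2, 0, 0, 0], [0, -5, 0, 2, 0, 0, 0], [0, -1, 0, 0, 4, 0, 0], [0, -3, 0, 0, 0, 4, 0], [0, 0, 0, 0, 0, 0, 1]], 240, [30, 6, 15,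 5, 80], [-5, 1, 0, 0, 0], [120, 0, 0, 0, 0, 0, 0], 1, [⟨1, [[4, 20, 0, 48, 0], [0, 40, 0, 48, 0], [0, 0, 4, 60, 0], [0, 0, 0, 96, 0], [0, 0, 0, 0, 6]], [[0, 0, 0, 0, 0, 0, 0], [0, 0, 0, 0, 0, 0, 0], [0, 0, 0, 0, 0, 0, 0], [0, 0, 0, 0, 0, 0, 0], [0, 0, 0, 0, 0, 0, 0]], [[-1, 0, 1, 0, 0, 0, 0], [0, 0, 0, 1, 0, 0, 0], [7, -8, -12, -20, 0, -6, 0], [-4, 5, 7, 12, 0, 4, 0], [0, 0, 0, 0, 0, 0, 1]], [0, 0, -8, 0, 0]⟩, ⟨2, [[2, 10, 0, 24, 0], [0, 20, 0, 24, 0], [0, 0, 2, 30, 0], [0, 0, 0, 48, 0], [0, 0, 0, 0, 3]], [[0, 0, 0, 0, 0, 0, 0], [0, 0, 0, 0, 0, 0, 0], [0, 0, 0, 0, 0, 0, 0], [0, 0, 0, 0, 0, 0, 0], [0, 0, 0, 0, 0, 0, 0]], [[-1, 0, 1, 0, 0, 0, 0], [0, 0, 0, 1, 0, 0, 0], [7, -8, -12, -20, 0,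 -6, 0], [-4, 5, 7, 12, 0, 4, 0], [0, 0, 0, 0, 0, 0, 1]], [0, 0, -8, 0, 0]⟩, ⟨3, [[4, 20, 0, 16, 0], [0, 40, 0, 16, 0], [0, 0, 4, 28, 0], [0, 0, 0, 32, 0], [0, 0, 0, 0, 2]], [[0, -1, 1, 1, 0, 0, 0], [0, 0, 1, 0, 0, 0, 0], [1, 1, 1, 0, 0, 0, 0], [1, 0, 0, 1, 0, 0, 0], [0, 0, 0, 0, 0, 0, 0]], [[1, 0, -5, -10, 0, 0, 0], [0, 0, -2, -3, 0, 0, 0], [1, -4, -6, -10, 0, -2, 0], [-2, 1, 0, -1, 0, 2, 0], [0, 0, 0, 0, 0, 0, 1]], [0, 0, -8, 0, 0]⟩, ⟨4, [[1, 5, 1, 3, 0], [0, 20, 0, 0, 0], [0, 0, 2, 6, 0], [0, 0, 0, 24, 0], [0, 0, 0, 0, 3]], [[0, -1, 0, -2, 0, 0, 0], [0, 0, -1, 1, 0, 0, 0], [0, 0, -2, 1, 0, -2, 0], [1, -1, 1, -2, 0, -2, 0], [0, 0, 0, 0, 0, 0, 1]], [[0, 0, 6, 10, 0, 0, 0], [0, 0, -1, -2,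 0, 0, 0], [4, -4, -6, -10, 0, 0, 0], [0, 0, 5, 10, 0, 4, 0], [0, 0, 0, 0, 0, 0, -1]], [0, 0, -8, 0, 0]⟩, ⟨5, [[4, 4, 0, 48, 0], [0, 8, 0, 48, 0], [0, 0, 4, 60, 0], [0, 0, 0, 96, 0], [0, 0, 0, 0, 6]], [[0, 1, 1, 0, 0, 0, 0], [0, 2, 2, 0, 0, 0, 0], [-2, -2, -2, 0, 0, -1, 0], [0, -2, 1, 0, 0, -1, 0], [0, 0, 0, 0, 0, 0, 1]], [[-1, 0, -1, -2, 0, 0, 0], [-2, 0, -2, -3, 0, 0, 0], [3, 0, 0, 0, 0, 0, 0], [1, 1, 0, 0, 0, 2, 0], [0, 0, 0, 0, 0, 0, -1]], [0, 0, -8, 0, 0]⟩, ⟨6, [[2, 10, 0, 8, 0], [0, 20, 0, 8, 0], [0, 0, 2, 14, 0], [0, 0, 0, 16, 0], [0, 0, 0, 0, 1]], [[0, 1, 2, -1, 0, 0, 0], [0, 0, -1, 0, 0, 0, 0], [2, -1, 2, 0, 0, -2, 0], [-1, 0, -3, 2, 0, 2, 0], [0, 0, 0, 0, 0, 0, 1]], [[-1, 0, 0, 0,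 0, 0, 0], [0, 0, 1, 2, 0, 0, 0], [3, -4, -6, -10, 0, 0, 0], [-2, 3, 3, 4, 0, 0, 0], [0, 0, 0, 0, 0, 0, 0]], [0, 0, -8, 0, 0]⟩, ⟨10, [[2, 2, 0, 24, 0], [0, 4, 0, 24, 0], [0, 0, 2, 30, 0], [0, 0, 0, 48, 0], [0, 0, 0, 0, 3]], [[0, 2, 2, -1, 0, 0, 0], [0, 4, -1, 1, 0, 0, 0], [-4, -4, -4, 0, 0, -2, 0], [0, -4, 2, 0, 0, -2, 0], [0, 0, 0, 0, 0, 0, 2]], [[-1, 0, 0, 0, 0, 0, 0], [-2, 0, 0, 0, 0, 0, 0], [3, 0, 0, 0, 0, 0, 0], [1, 1, 0, 0, 0, 2, 0], [0, 0, 0, 0, 0, 0, -1]], [0, 0, -8, 0, 0]⟩, ⟨12, [[1, 5, 1, 3, 0], [0, 20, 0, 0, 0], [0, 0, 2, 6, 0], [0, 0, 0, 8, 0], [0, 0, 0, 0, 1]], [[0, -1, 4, -2, 0, 0, 0], [0, 0, 5, -3, 0, 0, 0], [-4, 4, -6, 1, 0, -2, 0], [3, -3, -3, -6, 0, 2, 0], [0, 0, 0, 0, 0,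 0, 1]], [[0, 0, 0, 0, 0, 0, 0], [0, 0, 0, 1, 0, 0, 0], [0, 0, 0, 0, 0, 0, 0], [0, 0, 8, 15, 0, 0, 0], [0, 0, 0, 0, 0, 0, 0]], [0, 0, -8, 0, 0]⟩]⟩

theorem b18_ok : chkBad b18 = true := by decide +kernel

def b19 : BCert :=
  ⟨[[0, 2, 0, 0, 0, 0, 0], [2, 0, 0, 0, 0, 0, 0], [0, 0, 9, 15, 0, 0, 0], [0, 0, 15, 30, 0, 0, 0], [0, 0, 0, 0, 3, 0, 0], [0, 0, 0, 0, 0, 1, 0], [0, 0, 0, 0, 0, 0, 1]], 30, [[0, 15, 0, 0, 0, 0, 0], [15, 0, 0, 0, 0, 0, 0], [0, 0, 20, -10, 0, 0, 0], [0, 0, -10, 6, 0, 0, 0], [0, 0, 0, 0, 10, 0, 0], [0, 0, 0, 0, 0, 30, 0], [0, 0, 0, 0, 0, 0, 30]], [2, -5, 2, 0, 1, 1, 0], 1, [-10, 4, 18, 30, 3, 1, 0], [[0, -3, 4, -2, 0, 0, 0], [0, -15, 0, 2, 0, 0, 0], [0, -3, 0, 0, 4, 0, 0],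 [0, -1, 0, 0, 0, 4, 0], [0, 0, 0, 0, 0, 0, 1]], 240, [10, 2, 5, 15, 240], [-5, 1, 0, 0, 0], [120, 0, 0, 0, 0, 0, 0], 1, [⟨1, [[12, 60, 0, 16, 0], [0, 120, 0, 16, 0], [0, 0, 12, 4, 0], [0, 0, 0, 32, 0], [0, 0, 0, 0, 2]], [[0, 0, 0, 0, 0, 0, 0], [0, 0, 0, 0, 0, 0, 0], [0, 0, 0, 0, 0, 0, 0], [0, 0, 0, 0, 0, 0, 0], [0, 0, 0, 0, 0, 0, 0]], [[-1, 0, 1, 0, 0, 0, 0], [0, 0, 0, 1, 0, 0, 0], [-1, 0, 0, 0, 2, 0, 0], [3, -1, -5, -8, -1, 0, 0], [0, 0, 0, 0, 0, 0, 1]], [0, 0, 0, -8, 0]⟩, ⟨2, [[6, 30, 0, 8, 0], [0, 60, 0, 8, 0], [0, 0, 6, 2, 0], [0, 0, 0, 16, 0], [0, 0, 0, 0, 1]], [[0, 0, 0, 0, 0, 0, 0], [0, 0, 0, 0, 0, 0, 0], [0, 0, 0, 0, 0, 0, 0], [0, 0, 0, 0, 0, 0, 0], [0, 0, 0, 0, 0, 0, -1]], [[-1,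 0, 1, 0, 0, 0, 0], [0, 0, 0, 1, 0, 0, 0], [-1, 0, 0, 0, 2, 0, 0], [3, -1, -5, -8, -1, 0, 0], [0, 0, 0, 0, 0, 0, 2]], [0, 0, 0, -8, 0]⟩, ⟨3, [[4, 20, 0, 16, 0], [0, 40, 0, 16, 0], [0, 0, 4, 12, 0], [0, 0, 0, 32, 0], [0, 0, 0, 0, 2]], [[0, 0, 0, 0, 0, 0, 0], [0, 0, 0, 0, 0, 0, 0], [1, -1, 0, 0, 0, -1, 0], [0, 1, 0, 0, 0, -1, 0], [0, 0, 0, 0, 0, 0, -1]], [[-1, 0, 1, 0, 0, 0, 0], [0, 0, 0, 1, 0, 0, 0], [7, -4, -12, -20, 0, 0, 0], [-3, 1, 4, 7, 0, 1, 0], [0, 0, 0, 0, 0, 0, 1]], [0, 0, -8, 0, 0]⟩, ⟨4, [[3, 15, 3, 5, 0], [0, 60, 0, 0, 0], [0, 0, 6, 2, 0], [0, 0, 0, 8, 0], [0, 0, 0, 0, 1]], [[0, -1, 0, -2, 0, 0, 0], [0, 0, -1, 1, 0, 0, 0], [0, 0, 0, -1, -2, 0, 0], [-1, -1, -1, -1, -2, 0, 0], [0,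 0, 0, 0, 0, 0, 1]], [[0, 0, 16, 30, 0, 0, 0], [0, 0, -3, -7, 0, 0, 0], [0, 0, 7, 15, 4, 0, 0], [4, 0, 7, 15, 2, 0, 0], [0, 0, 0, 0, 0, 0, 0]], [0, 0, 0, -8, 0]⟩, ⟨5, [[12, 12, 0, 16, 0], [0, 24, 0, 16, 0], [0, 0, 12, 4, 0], [0, 0, 0, 32, 0], [0, 0, 0, 0, 2]], [[0, 1, 2, 0, 0, 0, 0], [0, 2, -1, 0, 0, 0, 0], [0, 1, 0, 0, 2, 0, 0], [1, 1, -2, 0, -1, 0, 0], [0, 0, 0, 0, 0, 0, -2]], [[-1, 0, -7, -12, 0, 0, 0], [-2, 0, 4, 7, 0, 0, 0], [-1, 0, 0, 0, -2, 0, 0], [0, -1, 6, 10, 1, 0, 0], [0, 0, 0, 0, 0, 0, 1]], [0, 0, 0, -8, 0]⟩, ⟨6, [[2, 10, 0, 8, 0], [0, 20, 0, 8, 0], [0, 0, 2, 6, 0], [0, 0, 0, 16, 0], [0, 0, 0, 0, 1]], [[0, -3, 0, 0, 0, 0, 0], [0, 0, 0, 0, 0, 0, 0], [2, 1, 0, 0, 0, -2, 0], [-3,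 -1, 0, 0, 0, 1, 0], [0, 0, 0, 0, 0, 0, 1]], [[1, 0, 1, 0, 0, 0, 0], [0, 0, 0, 1, 0, 0, 0], [5, -4, -12, -20, 0, 0, 0], [-1, 3, 4, 7, 0, 0, 0], [0, 0, 0, 0, 0, 0, 0]], [0, 0, -8, 0, 0]⟩, ⟨10, [[6, 6, 0, 8, 0], [0, 12, 0, 8, 0], [0, 0, 6, 2, 0], [0, 0, 0, 16, 0], [0, 0, 0, 0, 1]], [[0, 2, -1, 0, 0, 0, 0], [0, 4, -2, 0, 0, 0, 0], [0, 2, 0, 0, 4, 0, 0], [2, 2, -4, 0, -2, 0, 0], [0, 0, 0, 0, 0, 0, 1]], [[-1, 0, 2, 3, 0, 0, 0], [-2, 0, 4, 7, 0, 0, 0], [-1, 0, 0, 0, -2, 0, 0], [0, -1, 6, 10, 1, 0, 0], [0, 0, 0, 0, 0, 0, 0]], [0, 0, 0, -8, 0]⟩, ⟨12, [[1, 5, 1, 7, 0], [0, 20, 0, 0, 0], [0, 0, 2, 6, 0], [0, 0, 0, 8, 0], [0, 0, 0, 0, 1]], [[0, -3, 0, 2, 0, 0, 0], [0, 0, -1, 1, 0, 0, 0], [-4, -2, 2,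 -3, 0, -2, 0], [3, -5, -3, -1, 0, 2, 0], [0, 0, 0, 0, 0, 0, 1]], [[0, 0, -4, -10, 0, 0, 0], [0, 0, -1, -2, 0, 0, 0], [4, 0, -2, 0, 0, 0, 0], [0, 0, 11, 20, 0, 0, 0], [0, 0, 0, 0, 0, 0, 0]], [0, 0, -8, 0, 0]⟩, ⟨15, [[4, 4, 0, 16, 0], [0, 8, 0, 16, 0], [0, 0, 4, 12, 0], [0, 0, 0, 32, 0], [0, 0, 0, 0, 2]], [[0, 3, 1, 0, 0, 0, 0], [0, 6, 2, 0, 0, 0, 0], [-2, -7, 3, 0, 0, -1, 0], [-3, 7, 3, 0, 0, -7, 0], [0, 0, 0, 0, 0, 0, -7]], [[-1, 0, -1, -2, 0, 0, 0], [-2, 0, -2, -3, 0, 0, 0], [3, 0, -6, -10, 0, 0, 0], [-2, 1, -3, -5, 0, 1, 0], [0, 0, 0, 0, 0, 0, 1]], [0, 0, -8, 0, 0]⟩, ⟨20, [[3, 3, 3, 5, 0], [0, 12, 0, 0, 0], [0, 0, 6, 2, 0], [0, 0, 0, 8, 0], [0, 0, 0, 0, 1]], [[0, -1, 8, 6, 0, 0, 0], [0,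 -1, -7, 7, 0, 0, 0], [0, 0, 6, -3, -6, 0, 0], [-1, 3, 5, 7, 6, 0, 0], [0, 0, 0, 0, 0, 0, 1]], [[0, 0, -16, -30, 0, 0, 0], [0, 0, -4, -10, 0, 0, 0], [0, 0, -1, 0, 2, 0, 0], [0, 0, -16, -30, -2, 0, 0], [0, 0, 0, 0, 0, 0, 0]], [0, 0, 0, -8, 0]⟩, ⟨30, [[2, 2, 0, 8, 0], [0, 4, 0, 8, 0], [0, 0, 2, 6, 0], [0, 0, 0, 16, 0], [0, 0, 0, 0, 1]], [[0, -9, 2, -1, 0, 0, 0], [0, 12, -1, 1, 0, 0, 0], [-4, 1, -4, 0, 0, -2, 0], [9, 14, 1, 0, 0, 1, 0], [0, 0, 0, 0, 0, 0, 1]], [[1, 0, 0, 0, 0, 0, 0], [-2, 0, 0, 0, 0, 0, 0], [1, 0, 0, 0, 0, 0, 0], [-2, -1, 0, 0, 0, 0, 0], [0, 0, 0, 0, 0, 0, 0]], [0, 0, -8, 0, 0]⟩]⟩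

theorem b19_ok : chkBad b19 = true := by decide +kernel

end RH6.BD
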