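import Pool.Agent.RH6.UDef

namespace RH6.BD

def b20 : BCert :=
  ⟨[[0, 2, 0, 0, 0, 0, 0], [2, 0, 0, 0, 0, 0, 0], [0, 0, 4, 5, 0, 0, 0], [0, 0, 5, 10, 0, 0, 0], [0, 0, 0, 0, 1, 0, 0], [0, 0, 0, 0, 0, 1, 0], [0, 0, 0, 0, 0, 0, 1]], 30, [[0, 15, 0, 0, 0, 0, 0], [15, 0, 0, 0, 0, 0, 0], [0, 0, 20, -10, 0, 0, 0], [0, 0, -10, 8, 0, 0, 0], [0, 0, 0, 0, 30, 0, 0], [0, 0, 0, 0, 0, 30, 0], [0, 0, 0, 0, 0, 0, 30]], [2, -2, 0, 1, 1, 1, 2], 1, [-4, 4, 5, 10, 1, 1, 2], [[0, 0, 2, -1, 0, 0, 0], [0, -5, 0, 2, 0, 0, 0], [0, -1, 0, 0, 4, 0, 0], [0, -1, 0, 0, 0, 4, 0], [0, -1, 0, 0, 0, 0, 2]], 240, [40, 6, 15, 15, 60], [0, -2, 5, 5, 0], [120, 0, 0, 0, 0, 0, 0], 1, [⟨1, [[6, 0, 4, 12, 4], [0, 20, 4, 4, 4], [0, 0,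 8, 8, 4], [0, 0, 0, 16, 4], [0, 0, 0, 0, 8]], [[0, 0, 0, 0, 0, 0, 0], [0, 0, 0, 0, 0, 0, 0], [0, 0, 0, 0, 0, 0, 0], [0, 0, 0, 0, 0, 0, 0], [0, 0, 0, 0, 0, 0, 0]], [[0, 0, 1, 0, 0, 0, 0], [-1, 0, 1, 2, 0, 0, 0], [4, -4, -6, -11, 0, -1, -2], [-2, 2, 2, 5, 0, 1, 1], [-1, 1, 1, 2, 0, 0, 1]], [0, 0, -8, 0, 0]⟩, ⟨2, [[3, 0, 2, 6, 2], [0, 10, 2, 2, 2], [0, 0, 4, 4, 2], [0, 0, 0, 8, 2], [0, 0, 0, 0, 4]], [[0, 0, 0, 0, 0, 0, 0], [0, 0, 0, 0, 0, 0, 0], [0, 0, 0, 0, 0, -1, 0], [0, 0, 0, 0, 0, -1, -1], [0, 0, 0, 0, 0, 0, -1]], [[0, 0, 1, 0, 0, 0, 0], [-1, 0, 1, 2, 0, 0, 0], [4, -4, -6, -11, 0, 0, -2], [-2, 2, 2, 5, 0, 2, 2], [-1, 1, 1, 2, 0, 0, 2]], [0, 0, -8, 0, 0]⟩, ⟨3, [[2, 0, 4, 12, 4], [0, 20, 4, 4,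 4], [0, 0, 8, 8, 4], [0, 0, 0, 16, 4], [0, 0, 0, 0, 8]], [[0, 0, 0, 0, 0, 0, 0], [0, -1, 0, 1, 0, 0, 0], [-1, 1, 0, -1, 0, 1, -1], [-1, 1, 0, 1, 0, -1, -1], [1, -1, 0, 1, 0, 0, -1]], [[0, 0, 1, 0, 0, 0, 0], [1, 0, -3, -6, 0, 0, 0], [0, 0, 1, 3, 0, -1, 0], [-2, 2, -3, -5, 0, 1, 1], [1, -1, -3, -6, 0, 0, 1]], [0, 0, -8, 0, 0]⟩, ⟨4, [[3, 0, 2, 6, 0], [0, 5, 1, 1, 1], [0, 0, 4, 4, 0], [0, 0, 0, 8, 0], [0, 0, 0, 0, 2]], [[0, 0, -2, 1, 0, 0, 0], [0, -1, 0, -2, 0, 0, 0], [-2, -2, 1, -2, 0, -1, -2], [1, -1, 1, -2, 0, 1, 1], [0, 0, 0, -1, 0, 0, 1]], [[0, 0, 2, 0, 0, 0, 0], [0, 0, 6, 12, 0, 0, 0], [4, 0, 0, 2, 0, 0, 0], [0, 0, 4, 10, 0, 0, 0], [0, 0, 2, 4, 0, 0, 0]], [0, 0, -8, 0, 0]⟩, ⟨5, [[6, 0, 4, 12,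 4], [0, 4, 4, 4, 4], [0, 0, 8, 8, 4], [0, 0, 0, 16, 4], [0, 0, 0, 0, 8]], [[0, 0, 2, 0, 0, 0, 0], [0, 0, 0, 0, 0, 0, 0], [-1, -1, -1, 0, 0, 2, -1], [-2, 2, -1, 0, 0, -2, -2], [-1, 0, 0, 0, 0, 0, -2]], [[0, 0, -3, -4, 0, 0, 0], [-1, 0, 1, 2, 0, 0, 0], [2, 0, 0, -1, 0, -1, 0], [-2, 2, 2, 3, 0, 1, 1], [0, 1, 0, 0, 0, 0, 1]], [0, 0, -8, 0, 0]⟩, ⟨6, [[1, 0, 2, 6, 2], [0, 10, 2, 2, 2], [0, 0, 4, 4, 2], [0, 0, 0, 8, 2], [0, 0, 0, 0, 4]], [[0, 0, -3, 0, 0, 0, 0], [0, 1, 1, 0, 0, 0, 0], [-2, 2, -1, 0, 0, -1, -2], [-2, 2, 1, 0, 0, 1, 1], [-1, 1, 1, 0, 0, 0, 1]], [[0, 0, 5, 5, 0, 0, 0], [-1, 0, -1, -1, 0, 0, 0], [0, 0, -1, -2, 0, 0, 0], [-2, 2, -1, 0, 0, 0, 0], [-1, 1, -1, -1, 0, 0, 0]], [0, 0, -8, 0, 0]⟩,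 ⟨10, [[3, 0, 2, 6, 2], [0, 2, 2, 2, 2], [0, 0, 4, 4, 2], [0, 0, 0, 8, 2], [0, 0, 0, 0, 4]], [[0, 0, -1, 1, 0, 0, 0], [0, 0, -5, -5, 0, 0, 0], [-2, -2, -2, 2, 0, -1, -2], [-4, 4, -2, 2, 0, 1, 1], [-2, 0, 0, 0, 0, 0, 1]], [[0, 0, 0, -1, 0, 0, 0], [-1, 0, 10, 17, 0, 0, 0], [2, 0, -2, -5, 0, 0, 0], [-2, 2, 0, -1, 0, 0, 0], [0, 1, 0, 0, 0, 0, 0]], [0, 0, -8, 0, 0]⟩, ⟨15, [[2, 0, 4, 12, 4], [0, 4, 4, 4, 4], [0, 0, 8, 8, 4], [0, 0, 0, 16, 4], [0, 0, 0, 0, 8]], [[1, -1, 1, 6, -7, -7, 1], [-1, -4, 0, 0, 7, 7, -1], [0, -7, 7, -3, -7, 0, 0], [7, -7, 7, -3, 7, 0, 7], [4, 0, 0, 0, 0, 0, -7]], [[0, 0, -4, -8, 1, 1, 0], [1, 0, 0, 0, -1, -1, 0], [2, 0, -2, -1, 1, 0, 0], [2, -2, -2, -1, -1, 0, -1], [0, -1, 0,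 0, 0, 0, 1]], [2, -4, 0, 0, 0]⟩]⟩

theorem b20_ok : chkBad b20 = true := by decide +kernel

def b21 : BCert :=
  ⟨[[0, 2, 0, 0, 0, 0, 0], [2, 0, 0, 0, 0, 0, 0], [0, 0, 2, 3, 0, 0, 0], [0, 0, 3, 6, 0, 0, 0], [0, 0, 0, 0, 3, 5, 0], [0, 0, 0, 0, 5, 10, 0], [0, 0, 0, 0, 0, 0, 1]], 30, [[0, 15, 0, 0, 0, 0, 0], [15, 0, 0, 0, 0, 0, 0], [0, 0, 60, -30, 0, 0, 0], [0, 0, -30, 20, 0, 0, 0], [0, 0, 0, 0, 60, -30, 0], [0, 0, 0, 0, -30, 18, 0], [0, 0, 0, 0, 0, 0, 30]], [2, -1, 0, 0, 3, -1, 1], 1, [-2, 4, 0, 0, 4, 5, 1], [[0, 0, 2, -1, 0, 0, 0], [0, 0, 0, 1, 0, 0, 0], [0, -3, 0, 0, 8, -4, 0], [0, -5, 0, 0, 0, 4, 0], [0, -1, 0, 0, 0, 0, 4]], 480, [240, 80, 15, 3, 30], [0, 0, 5, 3, 10], [240, 0, 0, 0, 0, 0, 0],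 1, [⟨1, [[2, 6, 0, 0, 0], [0, 12, 0, 0, 0], [0, 0, 4, 60, 12], [0, 0, 0, 80, 24], [0, 0, 0, 0, 32]], [[0, 0, 0, 0, 0, 0, 0], [0, 0, 0, 0, 0, 0, 0], [0, 0, 0, 0, 0, 0, 0], [0, 0, 0, 0, 0, 0, 0], [0, 0, 0, 0, 0, 0, 0]], [[0, 0, 1, 0, 0, 0, 0], [0, 0, 0, 1, 0, 0, 0], [-3, 0, 0, 0, 2, 0, 0], [2, 0, 0, 0, -1, 1, 0], [0, -1, 0, 0, -1, -2, 0]], [0, 0, 0, 0, -8]⟩, ⟨2, [[1, 3, 0, 0, 0], [0, 6, 0, 0, 0], [0, 0, 2, 30, 6], [0, 0, 0, 40, 12], [0, 0, 0, 0, 16]], [[0, 0, 0, 0, 0, 0, 0], [0, 0, 0, 0, 0, 0, 0], [0, 0, 0, 0, 0, 0, 0], [0, 0, 0, 0, 0, 0, 0], [0, 0, 0, 0, 0, 0, 0]], [[0, 0, 1, 0, 0, 0, 0], [0, 0, 0, 1, 0, 0, 0], [-3, 0, 0, 0, 2, 0, 0], [2, 0, 0, 0, -1, 1, 0], [0, -1, 0, 0, -1, -2, 0]], [0, 0, 0,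 0, -8]⟩, ⟨3, [[2, 2, 0, 0, 0], [0, 4, 0, 0, 0], [0, 0, 4, 60, 12], [0, 0, 0, 80, 24], [0, 0, 0, 0, 32]], [[0, 0, 1, 0, 0, 0, 0], [0, 0, 1, 0, 0, 0, 0], [0, 0, 0, 0, -1, -1, 0], [0, -1, 0, 0, 0, -1, 0], [-1, 0, 0, 0, 0, -1, 0]], [[0, 0, -1, -2, 0, 0, 0], [0, 0, -1, -1, 0, 0, 0], [-1, 0, 0, 0, 6, 10, 0], [2, 0, 0, 0, 3, 7, 0], [0, 1, 0, 0, 3, 6, 0]], [0, 0, 0, 0, -8]⟩, ⟨4, [[1, 3, 0, 0, 0], [0, 6, 0, 0, 0], [0, 0, 1, 15, 3], [0, 0, 0, 40, 4], [0, 0, 0, 0, 8]], [[0, 0, -2, -1, 0, 0, 0], [0, 0, -1, -2, 0, 0, 0], [-2, 0, 0, 0, -1, 1, 1], [-2, 0, 0, 0, 0, -1, 1], [1, 0, 0, 0, 0, 1, 1]], [[0, 0, 4, 6, 0, 0, 0], [0, 0, 4, 8, 0, 0, 0], [0, -4, 0, 0, -5, -10, -2], [0, 4, 0, 0, 4, 8, 0], [0, 0, 0, 0, -2,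 -4, 0]], [0, 0, -6, -10, -2]⟩, ⟨5, [[2, 6, 0, 0, 0], [0, 12, 0, 0, 0], [0, 0, 4, 12, 4], [0, 0, 0, 16, 24], [0, 0, 0, 0, 32]], [[0, 0, 1, 2, 0, 0, 0], [0, 0, 2, 2, 0, 0, 0], [0, -2, 0, 0, 2, 0, 0], [-1, 2, 0, 0, 2, 0, 2], [2, 2, 0, 0, 2, 0, -2]], [[0, 0, -3, -6, 0, 0, 0], [0, 0, -4, -7, 0, 0, 0], [1, 0, 0, 0, -2, -4, 0], [-1, 0, 0, 0, -3, -4, -1], [-2, -1, 0, 0, -2, -4, 1]], [0, 0, 0, -16, 0]⟩, ⟨6, [[1, 1, 0, 0, 0], [0, 2, 0, 0, 0], [0, 0, 2, 30, 6], [0, 0, 0, 40, 12], [0, 0, 0, 0, 16]], [[0, 0, 2, -1, 0, 0, 0], [0, 0, -1, 1, 0, 0, 0], [0, -3, 0, 0, -2, -2, 0], [0, -2, 0, 0, -3, 1, 0], [1, 0, 0, 0, 0, 1, 0]], [[0, 0, 0, 0, 0, 0, 0], [0, 0, 0, 0, 0, 0, 0], [1, 0, 0, 0, 6, 10, 0], [2, 0, 0, 0,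 1, 2, 0], [0, -1, 0, 0, -2, -4, 0]], [0, 0, 0, 0, -8]⟩, ⟨10, [[1, 3, 0, 0, 0], [0, 6, 0, 0, 0], [0, 0, 2, 6, 2], [0, 0, 0, 8, 12], [0, 0, 0, 0, 16]], [[0, 0, -3, -1, 0, 0, 0], [0, 0, 4, 4, 0, 0, 0], [0, -4, 0, 0, 4, -2, 0], [-2, 4, 0, 0, 4, 3, -1], [4, 4, 0, 0, 4, -2, 1]], [[0, 0, 2, 3, 0, 0, 0], [0, 0, -4, -7, 0, 0, 0], [1, 0, 0, 0, 0, 0, 0], [-1, 0, 0, 0, -6, -10, 0], [-2, -1, 0, 0, 0, 0, 0]], [0, 0, 0, -16, 0]⟩, ⟨15, [[2, 2, 0, 0, 0], [0, 4, 0, 0, 0], [0, 0, 4, 12, 4], [0, 0, 0, 16, 24], [0, 0, 0, 0, 32]], [[0, 0, 1, 2, 0, 0, 0], [0, 0, 7, -7, 0, 0, 0], [-2, 4, 0, 0, -1, -6, -1], [2, 3, 0, 0, -6, -6, 1], [-5, -7, 0, 0, -1, -6, 7]], [[0, 0, -1, -2, 0, 0, 0], [0, 0, 1, 3, 0, 0, 0], [-1, 0, 0,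 0, 4, 8, 0], [-1, 0, 0, 0, 7, 13, 0], [2, 1, 0, 0, 4, 8, -1]], [0, 0, -8, 8, 0]⟩]⟩

theorem b21_ok : chkBad b21 = true := by decide +kernel

def b22 : BCert :=
  ⟨[[0, 1, 0, 0, 0, 0, 0], [1, 0, 0, 0, 0, 0, 0], [0, 0, 2, 3, 0, 0, 0], [0, 0, 3, 6, 0, 0, 0], [0, 0, 0, 0, 3, 5, 0], [0, 0, 0, 0, 5, 10, 0], [0, 0, 0, 0, 0, 0, 5]], 15, [[0, 15, 0, 0, 0, 0, 0], [15, 0, 0, 0, 0, 0, 0], [0, 0, 30, -15, 0, 0, 0], [0, 0, -15, 10, 0, 0, 0], [0, 0, 0, 0, 30, -15, 0], [0, 0, 0, 0, -15, 9, 0], [0, 0, 0, 0, 0, 0, 3]], [3, -5, 1, 0, 1, 1, 1], 1, [-5, 3, 2, 3, 8, 15, 5], [[0, -1, 6, -3, 0, 0, 0], [0, -1, 0, 1, 0, 0, 0], [0, -1, 0, 0, 6, -3, 0], [0, -5, 0, 0, 0, 1, 0], [0, -5, 0, 0, 0, 0, 3]], 90, [5, 15, 5, 9,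 2], [-1, -3, 8, 0, 4], [30, 0, 0, 0, 0, 0, 0], 1, [⟨1, [[2, 2, 2, 10, 70], [0, 12, 0, 0, 0], [0, 0, 6, 10, 60], [0, 0, 0, 20, 0], [0, 0, 0, 0, 90]], [[0, 0, 0, 0, 0, 0, 0], [0, 0, 0, 0, 0, 0, 0], [0, 0, 0, 0, 0, 0, 0], [0, 0, 0, 0, 0, 0, 0], [0, 0, 0, 0, 0, 0, 0]], [[39, -24, -13, -24, -64, -120, -40], [0, 0, 0, 1, 0, 0, 0], [-15, 9, 5, 9, 25, 45, 15], [-15, 9, 5, 9, 24, 46, 15], [-21, 13, 7, 13, 34, 65, 22]], [-16, -16, 2, 10, 10]⟩, ⟨2, [[1, 1, 1, 5, 35], [0, 6, 0, 0, 0], [0, 0, 3, 5, 30], [0, 0, 0, 10, 0], [0, 0, 0, 0, 45]], [[0, -1, 0, 0, 0, 0, 0], [0, 0, 0, 0, 0, 0, 0], [-1, -1, 0, 0, 0, 0, 0], [-1, -1, 0, 0, 0, 0, 0], [-1, -1, 0, 0, 0, 0, 0]], [[40, -24, -13, -24, -64, -120, -40], [0, 0,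 0, 1, 0, 0, 0], [-14, 10, 5, 9, 25, 45, 15], [-14, 10, 5, 9, 24, 46, 15], [-20, 14, 7, 13, 34, 65, 22]], [-16, -16, 2, 10, 10]⟩, ⟨3, [[2, 2, 2, 10, 70], [0, 4, 0, 0, 30], [0, 0, 6, 10, 60], [0, 0, 0, 20, 0], [0, 0, 0, 0, 90]], [[0, 1, 0, 0, 0, 0, 0], [0, 1, 1, 0, 1, 1, 1], [0, 0, -1, 0, 1, 1, 0], [0, 0, -1, 0, 1, 0, 0], [-1, 1, -1, 0, 1, -1, -1]], [[-1, 0, 1, 0, 0, 0, 0], [1, -1, -2, -2, -8, -15, -5], [0, 0, 1, 2, -5, -10, 0], [0, 0, 1, 2, -2, -3, 0], [-1, 1, 1, 2, 2, 5, 4]], [0, -4, 0, 0, 0]⟩, ⟨5, [[2, 2, 2, 2, 16], [0, 12, 0, 0, 0], [0, 0, 6, 2, 6], [0, 0, 0, 4, 0], [0, 0, 0, 0, 18]], [[0, 2, -2, 1, 0, 0, 0], [0, 0, 2, 2, 0, 0, 0], [0, 0, -1, -2, 1, 0, 0], [0, -1, -1, -2, 2, 0, 0], [2, 1, 0,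 2, 2, 0, 0]], [[-1, 0, 1, 0, 0, 0, 0], [0, 0, -4, -7, 0, 0, 0], [0, 0, 3, 6, -1, -2, 0], [0, 0, 3, 6, -2, -3, 0], [0, -1, -3, -5, -3, -5, 0]], [0, 0, 0, 0, -6]⟩, ⟨6, [[1, 1, 1, 5, 35], [0, 2, 0, 0, 15], [0, 0, 3, 5, 30], [0, 0, 0, 10, 0], [0, 0, 0, 0, 45]], [[0, -1, 0, -3, 0, 0, 0], [-3, -1, 2, 2, -1, 2, -1], [0, 0, -2, 1, 2, -1, 0], [0, 0, -2, 1, -1, 0, 0], [1, -1, -2, 1, -1, -2, -2]], [[0, 0, 4, 6, 0, 0, 0], [2, 0, -4, -6, -5, -10, 0], [0, 0, 0, 0, 0, 0, 0], [0, 0, 0, 0, 1, 2, 0], [0, 0, 0, 0, 5, 10, 4]], [0, -4, 0, 0, 0]⟩, ⟨10, [[1, 1, 1, 1, 8], [0, 6, 0, 0, 0], [0, 0, 3, 1, 3], [0, 0, 0, 2, 0], [0, 0, 0, 0, 9]], [[-1, 4, -1, -3, 3, 3, 3], [-3, -5, -2, 4, -1, -1, -1], [-3, -5, -3, 1, 1, -2,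 -1], [-3, 3, -3, 1, -2, 0, -1], [3, 2, 3, -1, -3, -2, -2]], [[-4, 2, 4, 6, 0, 0, 0], [2, 0, -2, -4, 0, 0, 0], [2, 0, 0, 0, 0, 0, 0], [0, 0, 0, 0, 0, 0, 0], [2, -2, -2, -2, 0, 0, 0]], [6, -6, 0, 0, 0]⟩, ⟨15, [[2, 2, 2, 2, 16], [0, 4, 0, 0, 12], [0, 0, 6, 2, 6], [0, 0, 0, 4, 0], [0, 0, 0, 0, 18]], [[-3, 7, -3, 6, -6, -6, -3], [3, 0, -3, 6, 6, 6, 3], [6, -5, 6, 3, -7, -7, 1], [6, -6, 6, 3, -1, -6, 1], [7, 1, 6, 3, 7, -3, 0]], [[-2, 1, -1, -3, 8, 15, 3], [1, -1, -2, -4, -8, -15, -3], [1, -1, -3, -5, 7, 13, -1], [1, -1, -3, -5, 4, 8, -1], [0, -1, -3, -5, -1, -1, 0]], [6, -6, 0, 0, 0]⟩, ⟨30, [[1, 1, 1, 1, 8], [0, 2, 0, 0, 6], [0, 0, 3, 1, 3], [0, 0, 0, 2, 0], [0, 0, 0, 0, 9]], [[9, 14, 9, -3, 3, 3,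 3], [-9, -15, -6, 2, -3, -3, -3], [-3, 5, -3, 1, 1, -2, -1], [-3, 3, -3, 1, -2, 0, -1], [-1, 2, -3, 1, -1, 0, 0]], [[-2, 0, 0, 0, 0, 0, 0], [2, 0, 0, 0, 0, 0, 0], [0, 0, 0, 0, 0, 0, 0], [0, 0, 0, 0, 0, 0, 0], [0, 0, 0, 0, 0, 0, 0]], [6, -6, 0, 0, 0]⟩]⟩

theorem b22_ok : chkBad b22 = true := by decide +kernel

def b23 : BCert :=
  ⟨[[0, 2, 0, 0, 0, 0, 0], [2, 0, 0, 0, 0, 0, 0], [0, 0, 2, 3, 0, 0, 0], [0, 0, 3, 6, 0, 0, 0], [0, 0, 0, 0, 3, 5, 0], [0, 0, 0, 0, 5, 10, 0], [0, 0, 0, 0, 0, 0, 5]], 30, [[0, 15, 0, 0, 0, 0, 0], [15, 0, 0, 0, 0, 0, 0], [0, 0, 60, -30, 0, 0, 0], [0, 0, -30, 20, 0, 0, 0], [0, 0, 0, 0, 60, -30, 0], [0, 0, 0, 0, -30, 18, 0], [0, 0, 0, 0, 0, 0, 6]], [2, -4, 1, 0, 0, 1, 2],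 1, [-8, 4, 2, 3, 5, 10, 10], [[0, -1, 8, -4, 0, 0, 0], [0, -3, 0, 4, 0, 0, 0], [0, 0, 0, 0, 2, -1, 0], [0, -5, 0, 0, 0, 2, 0], [0, -5, 0, 0, 0, 0, 2]], 480, [15, 5, 240, 12, 24], [-1, -1, 0, 4, 0], [240, 0, 0, 0, 0, 0, 0], 1, [⟨1, [[4, 12, 0, 20, 20], [0, 48, 2, 20, 0], [0, 0, 4, 0, 0], [0, 0, 0, 40, 20], [0, 0, 0, 0, 40]], [[0, 0, 0, 0, 0, 0, 0], [0, 0, 0, 0, 0, 0, 0], [0, 0, 0, 0, 0, 0, 0], [0, 0, 0, 0, 0, 0, 0], [0, 0, 0, 0, 0, 0, 0]], [[-17, 8, 6, 6, 10, 20, 20], [8, -4, -2, -2, -5, -10, -10], [-4, 2, 1, 1, 3, 5, 5], [4, -2, -2, -2, -2, -4, -5], [6, -3, -2, -2, -4, -8, -7]], [8, -24, 0, 0, 0]⟩, ⟨2, [[2, 6, 0, 10, 10], [0, 24, 1, 10, 0], [0, 0, 2, 0, 0], [0, 0, 0, 20, 10], [0, 0, 0, 0, 20]],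 [[0, 0, 0, 0, 0, 0, 0], [0, 0, 0, 0, 0, 0, 0], [0, 0, 0, 0, 0, 0, 0], [0, 0, 0, 0, 0, 0, 0], [0, 0, 0, 0, 0, 0, 0]], [[-17, 8, 6, 6, 10, 20, 20], [8, -4, -2, -2, -5, -10, -10], [-4, 2, 1, 1, 3, 5, 5], [4, -2, -2, -2, -2, -4, -5], [6, -3, -2, -2, -4, -8, -7]], [8, -24, 0, 0, 0]⟩, ⟨3, [[4, 12, 0, 20, 20], [0, 16, 2, 20, 20], [0, 0, 4, 0, 0], [0, 0, 0, 40, 20], [0, 0, 0, 0, 40]], [[0, -1, -1, 0, 0, 0, 0], [-1, -1, 1, 0, 0, 1, -1], [-1, -1, 1, 0, -1, 0, -1], [-1, -1, 0, 0, 0, 0, -1], [1, 1, 0, 0, 0, 1, 0]], [[1, 0, 2, 2, 0, 0, 0], [4, 0, -2, -2, -5, -10, 0], [0, 2, -1, -2, 3, 5, 5], [0, 2, 0, 0, 1, 2, 5], [-2, -1, 0, 0, -3, -6, 1]], [0, -16, 0, 0, 0]⟩, ⟨4, [[1, 3, 0, 5, 5], [0, 24, 1, 10, 0], [0,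 0, 2, 0, 0], [0, 0, 0, 20, 0], [0, 0, 0, 0, 10]], [[0, -1, 0, 0, 0, 0, 0], [-2, 0, -2, -2, 0, -1, -2], [1, -2, 1, 1, 1, -2, 1], [1, -2, -1, -2, 0, -1, 1], [0, 0, 0, -2, 0, 0, 1]], [[0, 0, 2, 0, 0, 0, 0], [4, 0, 4, 8, 0, 0, 0], [0, 0, -2, -4, 5, 10, 0], [0, 0, 4, 8, 4, 8, 0], [0, 0, 2, 6, 0, 0, -2]], [0, -48, 0, 0, 0]⟩, ⟨5, [[4, 12, 0, 4, 4], [0, 48, 2, 4, 0], [0, 0, 4, 0, 0], [0, 0, 0, 8, 4], [0, 0, 0, 0, 8]], [[0, 1, 2, -1, 0, 0, 0], [-1, 2, -1, 2, 0, 0, 0], [-2, -1, -2, -1, -2, 0, 0], [-1, -1, 0, 2, 0, 0, 0], [-2, 0, -1, 2, 0, 0, 0]], [[-1, 0, 0, 0, 0, 0, 0], [0, 0, -2, -4, -1, -2, -2], [0, 2, 3, 5, 3, 5, 1], [-2, 2, -2, -4, 2, 4, 3], [1, 1, -2, -4, -1, -2, -1]], [0, -48, 0, 8, 0]⟩, ⟨6, [[2,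 6, 0, 10, 10], [0, 8, 1, 10, 10], [0, 0, 2, 0, 0], [0, 0, 0, 20, 10], [0, 0, 0, 0, 20]], [[0, 1, -2, -2, 0, 0, 0], [-2, -2, 2, 2, 0, -1, -2], [-2, -2, 2, -1, 1, -3, 1], [-2, -2, 0, 0, 0, -3, 1], [-1, 2, 0, 0, 0, -1, -3]], [[-1, 0, 4, 6, 0, 0, 0], [4, 0, -4, -6, 0, 0, 0], [0, 2, 0, 0, 5, 10, 0], [0, 2, 0, 0, 6, 12, 0], [-2, 1, 0, 0, 2, 4, 6]], [0, -16, 0, 0, 0]⟩, ⟨10, [[2, 6, 0, 2, 2], [0, 24, 1, 2, 0], [0, 0, 2, 0, 0], [0, 0, 0, 4, 2], [0, 0, 0, 0, 4]], [[4, 4, -4, -2, 0, 2, 4], [-2, 4, -2, 4, 0, -1, -2], [-4, -2, 1, 3, 1, 0, 1], [4, -4, -2, 4, 0, 0, -1], [-4, 0, -2, 4, 0, -1, -1]], [[-5, 0, 4, 6, 0, 0, 0], [0, 0, -2, -4, 0, 0, 0], [0, 2, -2, -4, 0, 0, 0], [2, -2, -2, -4, 0, 0, 0], [1, 1, -2,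 -4, 0, 0, 0]], [8, -24, 0, 0, 0]⟩, ⟨12, [[1, 3, 0, 5, 5], [0, 8, 1, 10, 0], [0, 0, 2, 0, 0], [0, 0, 0, 20, 0], [0, 0, 0, 0, 10]], [[-4, -5, 0, -4, 0, 4, -4], [-6, 0, -6, 2, 0, -3, -6], [3, -6, 3, -1, -5, -5, -3], [1, -2, 0, 0, 0, 3, -5], [-4, -4, -6, 2, 0, -2, -5]], [[-4, 4, 4, 6, 0, 0, 10], [4, 0, 0, 0, 0, 0, 0], [0, 0, 0, 0, 8, 15, 5], [0, 0, 0, 0, -2, -4, 5], [4, 0, 0, 0, 0, 0, 1]], [8, -24, 0, 0, 0]⟩, ⟨15, [[4, 12, 0, 4, 4], [0, 16, 2, 4, 4], [0, 0, 4, 0, 0], [0, 0, 0, 8, 4], [0, 0, 0, 0, 8]], [[2, 7, 3, -6, 0, -5, -4], [-3, 6, -3, 6, 0, 0, 6], [-6, -3, -6, -3, -7, -7, -3], [-7, 6, 0, 0, 0, 5, -1], [4, 3, 0, 0, 0, 0, -1]], [[-3, 0, 2, 4, 4, 8, 4], [0, 0, -2, -4, -1, -2, -6], [0, 2, 3, 5,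 8, 15, 3], [-2, 2, 0, 0, -3, -6, 1], [-1, -1, 0, 0, 0, 0, 1]], [8, -24, 0, 0, 0]⟩, ⟨20, [[1, 3, 0, 1, 1], [0, 24, 1, 2, 0], [0, 0, 2, 0, 0], [0, 0, 0, 4, 0], [0, 0, 0, 0, 2]], [[8, 3, -8, -4, 0, 8, 8], [-2, 4, -2, -6, -10, 3, -2], [1, -2, 1, -7, 1, -10, 1], [-1, 1, -2, -6, 0, 0, -1], [-4, 6, -6, 2, 0, 6, -3]], [[-4, 0, 4, 6, -2, -4, 0], [0, 0, 2, 4, 1, 1, 0], [0, 0, 2, 4, 5, 10, 0], [0, 0, 2, 4, 0, 0, 0], [0, 0, 0, 0, -4, -8, 0]], [8, -24, 0, 0, 0]⟩, ⟨60, [[1, 3, 0, 1, 1], [0, 8, 1, 2, 0], [0, 0, 2, 0, 0], [0, 0, 0, 4, 0], [0, 0, 0, 0, 2]], [[8, -17, 12, -4, 0, 4, 8], [-6, 12, -6, 2, 0, -3, -6], [3, -6, 3, -1, 1, 1, 3], [1, -3, 0, 0, 0, 1, 1], [-4, 6, -6, 2, 0, -2, -3]], [[0, 0, 0, 0, 0, 0, 0],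 [0, 0, 0, 0, 0, 0, 0], [0, 0, 0, 0, 0, 0, 0], [0, 0, 0, 0, 0, 0, 0], [0, 0, 0, 0, 0, 0, 0]], [8, -24, 0, 0, 0]⟩]⟩

theorem b23_ok : chkBad b23 = true := by decide +kernel

def b24 : BCert :=
  ⟨[[0, 1, 0, 0, 0, 0, 0], [1, 0, 0, 0, 0, 0, 0], [0, 0, 10, 15, 0, 0, 0], [0, 0, 15, 30, 0, 0, 0], [0, 0, 0, 0, 3, 1, 0], [0, 0, 0, 0, 1, 2, 0], [0, 0, 0, 0, 0, 0, 1]], 15, [[0, 15, 0, 0, 0, 0, 0], [15, 0, 0, 0, 0, 0, 0], [0, 0, 6, -3, 0, 0, 0], [0, 0, -3, 2, 0, 0, 0], [0, 0, 0, 0, 6, -3, 0], [0, 0, 0, 0, -3, 9, 0], [0, 0, 0, 0, 0, 0, 15]], [3, -3, 1, 0, 1, 1, 1], 1, [-3, 3, 10, 15, 4, 3, 1], [[0, -5, 6, -3, 0, 0, 0], [0, -5, 0, 1, 0, 0, 0], [0, -5, 0, 0, 6, -3, 0], [0, -1, 0, 0, 0, 1, 0], [0, -1, 0, 0,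 0, 0, 3]], 90, [1, 3, 1, 45, 10], [1, 3, -8, 0, 20], [30, 0, 0, 0, 0, 0, 0], 1, [⟨1, [[10, 10, 10, 2, 2], [0, 60, 0, 0, 0], [0, 0, 30, 2, 12], [0, 0, 0, 4, 0], [0, 0, 0, 0, 18]], [[0, 0, 0, 0, 0, 0, 0], [0, 0, 0, 0, 0, 0, 0], [0, 0, 0, 0, 0, 0, 0], [0, 0, 0, 0, 0, 0, 0], [0, 0, 0, 0, 0, 0, 0]], [[-1, 0, 3, 0, 0, 0, 0], [0, 0, 0, 1, 0, 0, 0], [0, 0, -1, 0, 1, 0, 0], [0, 0, -1, 0, 0, 1, 0], [1, -1, -3, -5, -2, -1, 0]], [0, 0, 0, 0, -6]⟩, ⟨2, [[5, 5, 5, 1, 1], [0, 30, 0, 0, 0], [0, 0, 15, 1, 6], [0, 0, 0, 2, 0], [0, 0, 0, 0, 9]], [[0, -1, 0, 0, 0, 0, 0], [0, 0, 0, 0, 0, 0, 0], [0, 0, 0, 0, 0, -1, 0], [0, 0, 0, 0, 0, 0, 0], [-1, -1, 0, 0, 0, 0, 0]], [[0, 0, 3, 0, 0, 0, 0], [0, 0, 0, 1, 0, 0, 0],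 [0, 0, -1, 0, 2, 2, 0], [0, 0, -1, 0, 0, 1, 0], [2, 0, -3, -5, -2, -1, 0]], [0, 0, 0, 0, -6]⟩, ⟨3, [[10, 10, 10, 2, 2], [0, 20, 0, 0, 6], [0, 0, 30, 2, 12], [0, 0, 0, 4, 0], [0, 0, 0, 0, 18]], [[0, 1, 0, 0, 0, 0, 0], [0, 0, 0, 0, 0, 0, 0], [0, 0, 1, 0, -1, -1, 0], [0, 0, 1, 0, -1, 0, 0], [1, -1, 0, 0, 0, -1, 0]], [[-1, 0, 1, 0, 0, 0, 0], [0, 0, 0, 1, 0, 0, 0], [0, 0, -7, -10, 3, 2, 0], [0, 0, -7, -10, 2, 1, 0], [1, -1, -1, -2, 0, 1, 0]], [0, 0, 0, 0, -6]⟩, ⟨5, [[2, 2, 2, 2, 4], [0, 12, 0, 0, 0], [0, 0, 6, 2, 6], [0, 0, 0, 4, 0], [0, 0, 0, 0, 18]], [[0, 0, 0, 0, 0, 0, 0], [0, 0, 0, 0, 0, 0, 0], [2, -2, 0, 0, 0, 1, -1], [-1, 2, 0, 0, 0, 1, -2], [1, 2, 0, 0, 0, -2, -2]], [[-1, 0, 3, 0, 0, 0, 0],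 [0, 0, 0, 1, 0, 0, 0], [2, -2, -5, -6, -1, -2, 0], [-1, 1, 1, 3, 0, 0, 1], [-1, 0, 1, 2, 1, 2, 1]], [0, 0, -12, 0, 0]⟩, ⟨6, [[5, 5, 5, 1, 1], [0, 10, 0, 0, 3], [0, 0, 15, 1, 6], [0, 0, 0, 2, 0], [0, 0, 0, 0, 9]], [[0, -1, -3, 0, 0, 0, 0], [0, 0, 0, 0, 0, 0, 0], [0, 0, -1, 0, -2, 1, 0], [0, 0, -1, 0, 1, -3, 0], [-1, 1, -3, 0, -3, 1, 0]], [[0, 0, 11, 15, 0, 0, 0], [0, 0, 0, 1, 0, 0, 0], [0, 0, 3, 5, 2, 0, 0], [0, 0, 3, 5, 0, 2, 0], [0, 0, 9, 13, 2, 0, 0]], [0, 0, 0, 0, -6]⟩, ⟨10, [[1, 1, 1, 1, 2], [0, 6, 0, 0, 0], [0, 0, 3, 1, 3], [0, 0, 0, 2, 0], [0, 0, 0, 0, 9]], [[0, -5, 0, 0, 0, 0, 0], [0, 0, 0, 0, 0, 0, 0], [3, -3, 0, 0, 3, 0, 1], [-3, -5, 0, 0, -2, 0, -1], [-1, 2, 0, 0, -1, 0, 0]], [[0, 0,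 3, 0, 0, 0, 0], [0, 0, 0, 1, 0, 0, 0], [0, 0, 1, 3, 0, 0, 0], [2, 0, -3, -3, 0, 0, 0], [0, 0, -1, -1, 0, 0, 0]], [0, 0, 6, -2, 0]⟩, ⟨15, [[2, 2, 2, 2, 4], [0, 4, 0, 0, 12], [0, 0, 6, 2, 6], [0, 0, 0, 4, 0], [0, 0, 0, 0, 18]], [[0, 5, 3, 0, 0, 0, 0], [6, -6, -2, 0, 1, -5, 7], [0, 0, -1, 0, 4, -2, 0], [0, 1, -1, 0, 7, -7, 0], [1, 7, 1, 0, 3, -1, -7]], [[-1, 0, -3, -6, 0, 0, 0], [1, -1, 2, 4, 0, 1, -1], [0, 0, 1, 2, -1, 0, 0], [0, 0, 1, 2, -2, 1, 0], [-1, 0, -1, -2, -1, 0, 1]], [0, -4, 0, 0, 0]⟩, ⟨30, [[1, 1, 1, 1, 2], [0, 2, 0, 0, 6], [0, 0, 3, 1, 3], [0, 0, 0, 2, 0], [0, 0, 0, 0, 9]], [[0, -5, 6, -3, 0, 0, 0], [-3, 3, -4, 2, -1, -1, -1], [0, 0, -2, 1, 2, -1, 0], [0, 2, -2, 1, -1, 1, 0], [2, -1,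 2, -1, 0, 1, 1]], [[0, 0, 0, 0, 0, 0, 0], [0, 0, 0, 0, 0, 0, 0], [0, 0, 0, 0, 0, 0, 0], [0, 0, 0, 0, 0, 0, 0], [0, 0, 0, 0, 0, 0, 0]], [0, -4, 0, 0, 0]⟩]⟩

theorem b24_ok : chkBad b24 = true := by decide +kernel

def b25 : BCert :=
  ⟨[[0, 2, 0, 0, 0, 0, 0], [2, 0, 0, 0, 0, 0, 0], [0, 0, 10, 15, 0, 0, 0], [0, 0, 15, 30, 0, 0, 0], [0, 0, 0, 0, 3, 1, 0], [0, 0, 0, 0, 1, 2, 0], [0, 0, 0, 0, 0, 0, 1]], 30, [[0, 15, 0, 0, 0, 0, 0], [15, 0, 0, 0, 0, 0, 0], [0, 0, 12, -6, 0, 0, 0], [0, 0, -6, 4, 0, 0, 0], [0, 0, 0, 0, 12, -6, 0], [0, 0, 0, 0, -6, 18, 0], [0, 0, 0, 0, 0, 0, 30]], [2, -2, 1, 0, 0, 1, 2], 1, [-4, 4, 10, 15, 1, 2, 2], [[0, -5, 8, -4, 0, 0, 0], [0, -15, 0, 4, 0, 0, 0], [0, 0, 0, 0, 2, -1,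 0], [0, -1, 0, 0, 0, 2, 0], [0, -1, 0, 0, 0, 0, 2]], 480, [3, 1, 48, 60, 120], [-1, -1, 0, 20, 0], [240, 0, 0, 0, 0, 0, 0], 1, [⟨1, [[20, 60, 0, 4, 4], [0, 240, 10, 4, 0], [0, 0, 20, 0, 0], [0, 0, 0, 8, 4], [0, 0, 0, 0, 8]], [[0, 0, 0, 0, 0, 0, 0], [0, 0, 0, 0, 0, 0, 0], [0, 0, 0, 0, 0, 0, 0], [0, 0, 0, 0, 0, 0, 0], [0, 0, 0, 0, 0, 0, 0]], [[-1, 0, 2, 0, 0, 0, 0], [0, 0, 0, 1, 0, 0, 0], [2, -2, -5, -8, 0, -1, -1], [2, -2, -6, -8, 0, 0, -1], [-1, 1, 2, 4, 0, 0, 1]], [0, 0, -10, -4, 0]⟩, ⟨2, [[10, 30, 0, 2, 2], [0, 120, 5, 2, 0], [0, 0, 10, 0, 0], [0, 0, 0, 4, 2], [0, 0, 0, 0, 4]], [[0, 0, 0, 0, 0, 0, 0], [0, 0, 0, 0, 0, 0, 0], [0, 0, 0, 0, 0, 0, -1], [0, 0, 0, 0, 0, 0, -1], [0, 0, 0, 0, 0, 0,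 -1]], [[-1, 0, 2, 0, 0, 0, 0], [0, 0, 0, 1, 0, 0, 0], [2, -2, -5, -8, 0, -1, 0], [2, -2, -6, -8, 0, 0, 0], [-1, 1, 2, 4, 0, 0, 2]], [0, 0, -10, -4, 0]⟩, ⟨3, [[20, 60, 0, 4, 4], [0, 80, 10, 4, 4], [0, 0, 20, 0, 0], [0, 0, 0, 8, 4], [0, 0, 0, 0, 8]], [[0, -1, 1, 0, 0, 0, 0], [0, 0, 0, 0, 0, 0, 0], [1, -1, -1, 0, 1, 0, 1], [1, -1, 0, 0, 0, 0, 1], [1, -1, 1, 0, 0, 0, -1]], [[1, 0, -6, -10, 0, 0, 0], [0, 0, 0, 1, 0, 0, 0], [2, -2, 5, 7, -2, -1, -1], [2, -2, -2, -3, 0, 0, -1], [1, -1, -6, -9, 0, 0, 1]], [0, 0, -10, -4, 0]⟩, ⟨4, [[5, 15, 0, 1, 1], [0, 120, 5, 2, 0], [0, 0, 10, 0, 0], [0, 0, 0, 4, 0], [0, 0, 0, 0, 2]], [[0, -1, 0, 0, 0, 0, 0], [0, 0, 1, 0, 0, 0, 0], [-1, 1, -2, -1, -1, -1, -1], [-1,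 1, 0, -2, 0, 0, -1], [0, 0, 0, -2, 0, 0, 1]], [[0, 0, 2, 0, 0, 0, 0], [0, 0, -5, -7, 0, 0, 0], [0, 0, 15, 26, 2, 1, 0], [0, 0, 12, 26, 0, 0, 0], [0, 0, 14, 30, 0, 0, 0]], [0, 0, -10, -4, 0]⟩, ⟨5, [[4, 12, 0, 4, 4], [0, 48, 2, 4, 0], [0, 0, 4, 0, 0], [0, 0, 0, 8, 4], [0, 0, 0, 0, 8]], [[0, 0, 0, 0, 0, 0, 0], [0, 0, 0, 0, 0, 0, 0], [0, 0, 0, 0, 0, 0, 0], [2, 1, 0, 0, 0, 0, 2], [-1, 0, 0, 0, 0, 0, -2]], [[-1, 0, 2, 0, 0, 0, 0], [0, 0, 0, 1, 0, 0, 0], [2, -2, -5, -8, 0, -1, -1], [0, -2, -2, -2, 0, 0, -1], [0, 1, 0, 1, 0, 0, 1]], [0, 0, -10, -4, 0]⟩, ⟨6, [[10, 30, 0, 2, 2], [0, 40, 5, 2, 2], [0, 0, 10, 0, 0], [0, 0, 0, 4, 2], [0, 0, 0, 0, 4]], [[0, 1, 2, 0, 0, 0, 0], [0, 0, 0, 0, 0, 0, 0], [2, -2,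 1, 0, -1, -3, -1], [2, -2, 0, 0, 0, 0, -1], [-1, 1, 2, 0, 0, 0, 1]], [[-1, 0, -6, -10, 0, 0, 0], [0, 0, 0, 1, 0, 0, 0], [2, -2, -5, -8, 2, 2, 0], [2, -2, -2, -3, 0, 0, 0], [-1, 1, -6, -9, 0, 0, 0]], [0, 0, -10, -4, 0]⟩, ⟨10, [[2, 6, 0, 2, 2], [0, 24, 1, 2, 0], [0, 0, 2, 0, 0], [0, 0, 0, 4, 2], [0, 0, 0, 0, 4]], [[0, 0, 0, 0, 0, 0, 0], [0, 0, 0, 0, 0, 0, 0], [-4, 4, 0, 0, 1, 0, 1], [4, 2, 0, 0, 0, 0, -1], [-2, 0, 0, 0, 0, 0, 1]], [[-1, 0, 2, 0, 0, 0, 0], [0, 0, 0, 1, 0, 0, 0], [-2, 2, 1, 1, 0, 0, 0], [0, -2, -2, -2, 0, 0, 0], [0, 1, 0, 1, 0, 0, 0]], [0, 0, 2, -4, 0]⟩, ⟨12, [[5, 15, 0, 1, 1], [0, 40, 5, 2, 0], [0, 0, 10, 0, 0], [0, 0, 0, 4, 0], [0, 0, 0, 0, 2]], [[0, -1, -2, 4, 0, -6, 0], [-6,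 -6, -6, -2, 0, -3, -6], [3, -3, -3, 1, 5, -1, 3], [1, -1, -2, 0, 0, 1, 1], [-4, 4, 2, -2, 0, -2, -3]], [[-4, 4, 4, 0, 2, 4, 2], [4, 0, 10, 18, 0, 0, 0], [0, 0, 5, 6, -2, 0, 0], [0, 0, 4, 6, 0, 0, 0], [0, 0, -2, 0, 0, 0, 0]], [60, -60, 0, 4, 4]⟩, ⟨15, [[4, 12, 0, 4, 4], [0, 16, 2, 4, 4], [0, 0, 4, 0, 0], [0, 0, 0, 8, 4], [0, 0, 0, 0, 8]], [[0, -5, 2, 0, 0, 0, 0], [-1, 1, -2, 0, -3, 1, -1], [-7, 7, 1, 0, -4, 6, -7], [-7, 0, 0, 0, 3, -1, -7], [4, 0, 0, 0, 0, 0, -7]], [[1, 0, -2, -4, 0, 0, 0], [0, 0, 2, 4, 1, 0, 0], [-2, 2, -1, -2, 1, -1, 1], [0, 2, 0, 0, -1, 0, 1], [0, -1, 0, 0, 0, 0, 1]], [0, -16, 0, 0, 0]⟩, ⟨20, [[1, 3, 0, 1, 1], [0, 24, 1, 2, 0], [0, 0, 2, 0, 0], [0, 0, 0, 4, 0], [0, 0, 0, 0,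 2]], [[0, -5, 0, 8, 0, 0, 0], [0, 0, 3, -2, 0, 0, 0], [1, -1, -7, 5, 1, 0, 1], [-1, 2, -6, -10, 0, 0, -1], [0, 2, 0, 6, 0, 0, 1]], [[0, 0, -10, -24, 0, 0, 0], [0, 0, 0, 2, 0, 0, 0], [0, 0, 0, -4, 0, 0, 0], [0, 0, 20, 38, 0, 0, 0], [0, 0, -10, -18, 0, 0, 0]], [0, 0, 2, -4, 0]⟩, ⟨30, [[2, 6, 0, 2, 2], [0, 8, 1, 2, 2], [0, 0, 2, 0, 0], [0, 0, 0, 4, 2], [0, 0, 0, 0, 4]], [[0, 5, 4, -2, 0, 0, 0], [-2, 2, -4, 2, 0, -1, -2], [-14, 14, 2, -1, 1, 0, 1], [-14, 0, 0, 0, 0, 1, 1], [-7, 0, 0, 0, 0, 0, 1]], [[-1, 0, 0, 0, 0, 0, 0], [0, 0, 0, 0, 0, 0, 0], [-2, 2, 0, 0, 0, 0, 0], [0, 2, 0, 0, 0, 0, 0], [0, 1, 0, 0, 0, 0, 0]], [0, -16, 0, 0, 0]⟩]⟩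

theorem b25_ok : chkBad b25 = true := by decide +kernel

def b26 : BCert :=
  ⟨[[0, 2, 0, 0, 0, 0, 0], [2, 0, 0, 0, 0, 0, 0], [0, 0, 2, 3, 0, 0, 0], [0, 0, 3, 6, 0, 0, 0], [0, 0, 0, 0, 8, 15, 0], [0, 0, 0, 0, 15, 30, 0], [0, 0, 0, 0, 0, 0, 3]], 30, [[0, 15, 0, 0, 0, 0, 0], [15, 0, 0, 0, 0, 0, 0], [0, 0, 60, -30, 0, 0, 0], [0, 0, -30, 20, 0, 0, 0], [0, 0, 0, 0, 60, -30, 0], [0, 0, 0, 0, -30, 16, 0], [0, 0, 0, 0, 0, 0, 10]], [2, -6, 3, -1, 0, 1, 2], 1, [-12, 4, 3, 3, 15, 30, 6], [[0, -3, 8, -4, 0, 0, 0], [0, -3, 0, 4, 0, 0, 0], [0, 0, 0, 0, 2, -1, 0], [0, -15, 0, 0, 0, 2, 0], [0, -3, 0, 0, 0, 0, 2]], 480, [15, 5, 240, 4, 40], [-15, -5, 0, 4, 0], [240, 0, 0, 0, 0, 0, 0], 1, [⟨1, [[4, 36, 0, 60,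 12], [0, 48, 2, 60, 12], [0, 0, 4, 0, 0], [0, 0, 0, 120, 12], [0, 0, 0, 0, 24]], [[0, 0, 0, 0, 0, 0, 0], [0, 0, 0, 0, 0, 0, 0], [0, 0, 0, 0, 0, 0, 0], [0, 0, 0, 0, 0, 0, 0], [0, 0, 0, 0, 0, 0, 0]], [[-27, 8, 8, 6, 30, 60, 12], [14, -4, -4, -2, -15, -30, -6], [-7, 2, 2, 1, 8, 15, 3], [6, -2, -2, -2, -7, -14, -3], [3, -1, -1, -1, -4, -8, -1]], [8, 24, 0, 0, 0]⟩, ⟨2, [[2, 18, 0, 30, 6], [0, 24, 1, 30, 6], [0, 0, 2, 0, 0], [0, 0, 0, 60, 6], [0, 0, 0, 0, 12]], [[0, 0, 0, 0, 0, 0, 0], [0, 0, 0, 0, 0, 0, 0], [0, 0, 0, 0, 0, 0, 0], [0, 0, 0, 0, 0, 0, 0], [0, 0, 0, 0, 0, 0, 0]], [[-27, 8, 8, 6, 30, 60, 12], [14, -4, -4, -2, -15, -30, -6], [-7, 2, 2, 1, 8, 15, 3], [6, -2, -2, -2, -7, -14, -3], [3, -1,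 -1, -1, -4, -8, -1]], [8, 24, 0, 0, 0]⟩, ⟨3, [[4, 4, 0, 20, 4], [0, 16, 2, 20, 4], [0, 0, 4, 0, 0], [0, 0, 0, 40, 4], [0, 0, 0, 0, 8]], [[0, 0, -1, 0, 0, 0, 0], [-1, 0, 1, 0, 0, 0, 0], [-1, 0, 1, 0, -1, 0, 0], [-1, 0, 0, 0, 0, 0, 0], [1, 0, 0, 0, 0, 0, 0]], [[-1, 0, 2, 2, 0, 0, 0], [4, 0, -2, -2, -5, -10, -2], [-2, 2, -1, -2, 8, 15, 1], [-2, 2, 0, 0, 3, 6, 1], [-1, -1, 0, 0, 1, 2, 1]], [0, -16, 0, 0, 0]⟩, ⟨4, [[1, 9, 1, 15, 3], [0, 24, 1, 30, 0], [0, 0, 2, 0, 0], [0, 0, 0, 60, 0], [0, 0, 0, 0, 6]], [[0, 1, 0, 0, 0, 0, 0], [-2, -1, 0, -2, 0, -1, -2], [-1, 0, -2, 1, -1, -1, 1], [1, 1, 1, 1, 0, 0, -1], [0, 1, -2, 0, 0, -2, 1]], [[20, -8, -4, -6, -30, -60, -12], [-4, 4, 4, 8, 15, 30, 6], [-8, 4,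 2, 2, 23, 45, 3], [-4, 0, -2, -4, 4, 8, 3], [-12, 4, 4, 6, 30, 60, 5]], [-8, -24, 0, 0, 0]⟩, ⟨5, [[4, 36, 0, 12, 12], [0, 48, 2, 12, 12], [0, 0, 4, 0, 0], [0, 0, 0, 24, 12], [0, 0, 0, 0, 24]], [[0, -2, 2, -1, 0, 0, 0], [1, 0, 0, 2, 0, 0, 1], [2, 0, 0, -1, -2, 0, 2], [2, 1, -1, 2, 0, 0, 2], [1, 1, 2, 1, 0, 0, -1]], [[1, 0, 0, 0, 0, 0, 0], [-2, 0, -2, -4, 3, 6, 0], [1, -2, 1, 2, 5, 9, -3], [0, -2, -2, -4, -1, -2, -3], [0, -1, -3, -5, -1, -2, 1]], [0, 48, 0, 0, 0]⟩, ⟨6, [[2, 2, 0, 10, 2], [0, 8, 1, 10, 2], [0, 0, 2, 0, 0], [0, 0, 0, 20, 2], [0, 0, 0, 0, 4]], [[0, -3, -2, -2, 0, 0, 0], [-2, 0, 2, 2, -3, 0, -2], [-2, 0, 2, -1, -2, 0, 1], [-2, 0, 0, 0, -3, 0, 1], [-1, -3, 0, 0, -3, 0, 1]], [[1, 0,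 4, 6, 0, 0, 0], [4, 0, -4, -6, 3, 5, 0], [-2, 2, 0, 0, 8, 15, 0], [-2, 2, 0, 0, 11, 21, 0], [1, 1, 0, 0, 9, 17, 0]], [0, -16, 0, 0, 0]⟩, ⟨10, [[2, 18, 0, 6, 6], [0, 24, 1, 6, 6], [0, 0, 2, 0, 0], [0, 0, 0, 12, 6], [0, 0, 0, 0, 12]], [[2, 0, 2, 2, 0, 0, 2], [0, -4, 2, 0, 0, 0, 0], [0, 2, 4, 0, -4, 0, 0], [4, 2, -2, 4, 0, 0, 4], [2, 2, -1, -3, 0, 0, -2]], [[-15, 4, 2, 0, 18, 36, 6], [14, -4, -4, -4, -15, -30, -6], [-7, 2, 0, -1, 14, 27, 3], [0, -2, -2, -4, -1, -2, -3], [0, -1, 2, 4, -1, -2, 1]], [24, -24, 0, 0, 0]⟩, ⟨12, [[1, 1, 0, 5, 1], [0, 8, 1, 10, 0], [0, 0, 2, 0, 0], [0, 0, 0, 20, 0], [0, 0, 0, 0, 2]], [[4, -3, -4, 0, 0, -4, 4], [2, -6, 2, 0, -6, 1, 2], [-1, 3, -1, 0, 1, 5, -1], [1, -3, 0,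 0, -6, 3, 1], [4, 0, 2, 0, 0, 2, 5]], [[8, -4, 0, 0, 0, 0, -6], [0, 0, 0, 0, 8, 15, 0], [0, 0, 0, 0, -15, -30, 0], [0, 0, 0, 0, 2, 3, 0], [-4, 0, 0, 0, 0, 0, 0]], [-8, 8, 0, 0, 0]⟩, ⟨15, [[4, 4, 0, 4, 4], [0, 16, 2, 4, 4], [0, 0, 4, 0, 0], [0, 0, 0, 8, 4], [0, 0, 0, 0, 8]], [[-2, -6, -1, -5, 0, 0, -7], [1, -3, 1, 5, 0, 0, -4], [7, -6, 7, 5, -7, 0, 2], [-7, -3, 0, 0, 0, 0, -2], [4, 0, 0, 0, 0, 0, -2]], [[3, 0, 2, 4, -2, -4, 2], [0, 0, -2, -4, 1, 2, 2], [2, -2, -4, -7, 7, 13, -1], [0, 2, 0, 0, 1, 2, 1], [0, -1, 0, 0, 0, 0, 1]], [-8, 8, 0, 0, 0]⟩, ⟨20, [[1, 9, 1, 3, 3], [0, 24, 1, 6, 0], [0, 0, 2, 0, 0], [0, 0, 0, 12, 0], [0, 0, 0, 0, 6]], [[-4, 9, -8, 8, 0, 0, -4], [-10, -9, -8, -10, 0, -5, -10],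 [7, 0, -2, -9, -9, -7, -3], [1, -4, 1, -7, 0, -10, -9], [-8, 5, -6, -4, 0, -10, 9]], [[12, -4, -4, -6, -18, -36, -6], [-4, 4, 6, 10, 15, 30, 6], [-4, 0, 4, 7, 23, 45, 3], [0, 0, 2, 4, 16, 32, 3], [-8, 4, 4, 6, 24, 48, 1]], [-24, 24, 0, 0, 0]⟩, ⟨30, [[2, 2, 0, 2, 2], [0, 8, 1, 2, 2], [0, 0, 2, 0, 0], [0, 0, 0, 4, 2], [0, 0, 0, 0, 4]], [[-4, 3, -2, 0, 0, -2, -4], [2, -6, 2, 0, 0, 1, 2], [14, -12, -1, 0, 1, -1, -1], [-14, -6, 0, 0, 0, 1, 1], [-7, 0, 0, 0, 0, 0, 1]], [[1, 0, 0, 0, 0, 0, 0], [0, 0, 0, 0, 0, 0, 0], [2, -2, 0, 0, 0, 0, 0], [0, 2, 0, 0, 0, 0, 0], [0, 1, 0, 0, 0, 0, 0]], [-8, 8, 0, 0, 0]⟩]⟩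

theorem b26_ok : chkBad b26 = true := by decide +kernel

def b27 : BCert :=
  ⟨[[0, 2, 0, 0, 0, 0, 0], [2, 0, 0, 0, 0, 0, 0], [0, 0, 2, 1, 0, 0, 0], [0, 0, 1, 2, 0, 0, 0], [0, 0, 0, 0, 4, 5, 0], [0, 0, 0, 0, 5, 10, 0], [0, 0, 0, 0, 0, 0, 1]], 30, [[0, 15, 0, 0, 0, 0, 0], [15, 0, 0, 0, 0, 0, 0], [0, 0, 20, -10, 0, 0, 0], [0, 0, -10, 20, 0, 0, 0], [0, 0, 0, 0, 20, -10, 0], [0, 0, 0, 0, -10, 8, 0], [0, 0, 0, 0, 0, 0, 30]], [2, -2, 1, 0, 0, 1, 2], 1, [-4, 4, 2, 1, 5, 10, 2], [[0, -3, 8, -4, 0, 0, 0], [0, -1, 0, 4, 0, 0, 0], [0, 0, 0, 0, 2, -1, 0], [0, -5, 0, 0, 0, 2, 0], [0, -1, 0, 0, 0, 0, 2]], 480, [5, 15, 80, 12, 120], [-5, -5, 0, 4, 0], [240, 0, 0, 0, 0, 0, 0], 1, [⟨1, [[12, 4, 0, 20, 4], [0,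 16, 6, 20, 4], [0, 0, 12, 0, 0], [0, 0, 0, 40, 4], [0, 0, 0, 0, 8]], [[0, 0, 0, 0, 0, 0, 0], [0, 0, 0, 0, 0, 0, 0], [0, 0, 0, 0, 0, 0, 0], [0, 0, 0, 0, 0, 0, 0], [0, 0, 0, 0, 0, 0, 0]], [[-1, 0, 2, 0, 0, 0, 0], [4, -4, -2, 0, -5, -10, -2], [-2, 2, 1, 0, 3, 5, 1], [-2, 2, 0, 0, 3, 6, 1], [-1, 1, 0, 0, 1, 2, 1]], [0, -16, 0, 0, 0]⟩, ⟨2, [[6, 2, 0, 10, 2], [0, 8, 3, 10, 2], [0, 0, 6, 0, 0], [0, 0, 0, 20, 2], [0, 0, 0, 0, 4]], [[0, 0, 0, 0, 0, 0, 0], [0, 0, 0, 0, 0, 0, 0], [0, 0, 0, -1, 0, 0, -1], [0, 0, 0, 0, 0, 0, -1], [0, 0, 0, 0, 0, 0, -1]], [[-1, 0, 2, 0, 0, 0, 0], [4, -4, -2, 0, -5, -10, -2], [-2, 2, 2, 2, 3, 5, 2], [-2, 2, 0, 0, 3, 6, 2], [-1, 1, 0, 0, 1, 2, 2]], [0, -16, 0, 0, 0]⟩, ⟨3, [[4,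 12, 0, 20, 4], [0, 16, 2, 20, 4], [0, 0, 4, 0, 0], [0, 0, 0, 40, 4], [0, 0, 0, 0, 8]], [[-1, 1, 0, -1, 0, 1, -1], [0, -1, 0, 1, 0, 0, 0], [0, -1, 0, 1, 0, 0, 0], [-1, 1, 0, 0, 0, 0, -1], [1, -1, 0, 0, 0, 1, -1]], [[3, -4, 0, 0, -10, -20, -2], [-2, 4, 0, 0, 5, 10, 2], [3, -2, -1, -2, -2, -5, -1], [-2, 2, 0, 0, 1, 2, 1], [1, -1, 0, 0, -3, -6, 1]], [-16, 0, 0, 0, 0]⟩, ⟨4, [[3, 1, 0, 5, 1], [0, 8, 3, 10, 0], [0, 0, 6, 0, 0], [0, 0, 0, 20, 0], [0, 0, 0, 0, 2]], [[0, -1, 0, 0, 0, 0, 0], [-2, -2, 0, -2, 0, -1, -2], [1, -1, -2, 1, -1, -1, 1], [1, -1, 0, 0, 0, -1, 1], [0, 0, 0, -2, 0, 0, 1]], [[0, 0, 2, 0, 0, 0, 0], [4, 0, 0, 2, 0, 0, 0], [0, 0, 2, 0, 6, 10, 0], [0, 0, 0, 0, 4, 8, 0], [0, 0, 0, 2, 0,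 0, 0]], [0, -16, 0, 0, 0]⟩, ⟨5, [[12, 4, 0, 4, 4], [0, 16, 6, 4, 4], [0, 0, 12, 0, 0], [0, 0, 0, 8, 4], [0, 0, 0, 0, 8]], [[0, 1, -1, -2, 0, 0, 0], [-1, 1, 1, 2, 0, 0, -1], [-2, 2, 2, -1, 1, 0, -2], [-2, -1, 0, 0, 0, 0, -2], [-1, 0, 0, 0, 0, 0, -2]], [[-1, 0, 2, 2, 0, 0, 0], [0, 0, -2, -2, -1, -2, 0], [-2, 2, -1, 0, -1, -1, 1], [0, 2, 0, 0, 1, 2, 1], [0, 1, 0, 0, 0, 0, 1]], [0, -16, 0, 0, 0]⟩, ⟨6, [[2, 6, 0, 10, 2], [0, 8, 1, 10, 2], [0, 0, 2, 0, 0], [0, 0, 0, 20, 2], [0, 0, 0, 0, 4]], [[0, -3, -2, -2, 0, 0, 0], [-2, 0, 2, 2, 1, 0, -2], [-2, -3, 2, -1, -2, 0, 1], [-2, 2, 0, 0, -3, 0, 1], [-1, 1, 0, 0, 1, 0, 1]], [[1, 0, 4, 2, 0, 0, 0], [2, 0, -4, -2, -3, -5, 0], [1, 2, 0, 0, 4, 5, 0], [-2, 2,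 0, 0, 5, 7, 0], [-1, 1, 0, 0, -1, -1, 0]], [0, -16, 0, 0, 0]⟩, ⟨10, [[6, 2, 0, 2, 2], [0, 8, 3, 2, 2], [0, 0, 6, 0, 0], [0, 0, 0, 4, 2], [0, 0, 0, 0, 4]], [[0, 2, -2, -4, 0, 0, 0], [-2, 2, 2, 4, -5, -5, -2], [-4, 4, 4, 3, -3, 3, 1], [-4, -2, 0, 0, -5, -5, 1], [-2, 0, 0, 0, 0, 0, 1]], [[-1, 0, 2, 2, 0, 0, 0], [0, 0, -2, -2, 8, 13, 0], [-2, 2, -2, -2, 0, -2, 0], [0, 2, 0, 0, 10, 17, 0], [0, 1, 0, 0, 0, 0, 0]], [0, -16, 0, 0, 0]⟩, ⟨12, [[1, 3, 1, 5, 1], [0, 8, 1, 10, 0], [0, 0, 2, 0, 0], [0, 0, 0, 20, 0], [0, 0, 0, 0, 2]], [[0, -3, -4, -4, 0, 0, 0], [-2, 3, -4, 2, -6, -1, -2], [1, 0, -2, 1, -5, 0, 1], [1, -1, 0, 0, -6, 3, 1], [0, 1, -4, 2, 0, 0, 1]], [[0, 0, 4, 2, 0, 0, 0], [0, 0, 0, 0, 4, 5, 0],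 [0, 0, 0, 0, 4, 5, 0], [0, 0, 0, 0, 2, 1, 0], [0, 0, 0, 0, 0, 0, 0]], [0, -16, 0, 0, 0]⟩, ⟨15, [[4, 12, 0, 4, 4], [0, 16, 2, 4, 4], [0, 0, 4, 0, 0], [0, 0, 0, 8, 4], [0, 0, 0, 0, 8]], [[0, 3, -3, -6, 0, 0, 0], [-1, -6, 3, 6, 5, 0, -1], [-7, 3, 6, -3, -7, 3, -7], [-7, -1, 0, 0, -5, 0, -7], [4, 0, 0, 0, 0, 0, -7]], [[-1, 0, 2, 2, 0, 0, 0], [2, 0, -2, -2, -3, -4, 0], [-1, 2, -1, 0, 2, 1, 1], [0, 2, 0, 0, 3, 4, 1], [0, -1, 0, 0, 0, 0, 1]], [0, -16, 0, 0, 0]⟩, ⟨60, [[1, 3, 1, 1, 1], [0, 8, 1, 2, 0], [0, 0, 2, 0, 0], [0, 0, 0, 4, 0], [0, 0, 0, 0, 2]], [[0, -3, 8, -4, 0, 0, 0], [-2, 3, -4, 2, 0, -1, -2], [1, 0, -2, 1, 1, 0, 1], [1, -2, 0, 0, 0, 1, 1], [0, 1, -4, 2, 0, 0, 1]], [[0, 0, 0, 0, 0, 0, 0],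 [0, 0, 0, 0, 0, 0, 0], [0, 0, 0, 0, 0, 0, 0], [0, 0, 0, 0, 0, 0, 0], [0, 0, 0, 0, 0, 0, 0]], [0, -16, 0, 0, 0]⟩]⟩

theorem b27_ok : chkBad b27 = true := by decide +kernel

def b28 : BCert :=
  ⟨[[0, 1, 0, 0, 0, 0, 0], [1, 0, 0, 0, 0, 0, 0], [0, 0, 2, 3, 0, 0, 0], [0, 0, 3, 6, 0, 0, 0], [0, 0, 0, 0, 8, 15, 0], [0, 0, 0, 0, 15, 30, 0], [0, 0, 0, 0, 0, 0, 15]], 15, [[0, 15, 0, 0, 0, 0, 0], [15, 0, 0, 0, 0, 0, 0], [0, 0, 30, -15, 0, 0, 0], [0, 0, -15, 10, 0, 0, 0], [0, 0, 0, 0, 30, -15, 0], [0, 0, 0, 0, -15, 8, 0], [0, 0, 0, 0, 0, 0, 1]], [4, -10, 2, 0, 3, -1, 2], 1, [-10, 4, 4, 6, 9, 15, 30], [[0, -1, 4, -2, 0, 0, 0], [0, -3, 0, 2, 0, 0, 0], [0, -3, 0, 0, 8, -4, 0], [0, -15, 0, 0, 0, 4, 0], [0,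 -15, 0, 0, 0, 0, 2]], 480, [60, 20, 15, 1, 8], [0, 0, -15, -5, 8], [120, 0, 0, 0, 0, 0, 0], 1, [⟨1, [[2, 6, 2, 330, 30], [0, 24, 0, 0, 60], [0, 0, 4, 180, 0], [0, 0, 0, 480, 60], [0, 0, 0, 0, 120]], [[0, 0, 0, 0, 0, 0, 0], [0, 0, 0, 0, 0, 0, 0], [0, 0, 0, 0, 0, 0, 0], [0, 0, 0, 0, 0, 0, 0], [0, 0, 0, 0, 0, 0, 0]], [[-1, 0, 2, 0, 0, 0, 0], [0, 0, 0, 1, 0, 0, 0], [19, -8, -9, -12, -16, -30, -60], [-4, 2, 1, 3, 4, 8, 15], [2, -1, -1, -2, -2, -4, -7]], [0, 0, -8, -120, 0]⟩, ⟨2, [[1, 3, 1, 165, 15], [0, 12, 0, 0, 30], [0, 0, 2, 90, 0], [0, 0, 0, 240, 30], [0, 0, 0, 0, 60]], [[0, -1, 0, 0, 0, 0, 0], [0, 0, 0, 0, 0, 0, 0], [0, -1, 0, 0, 0, 0, 0], [0, 0, 0, 0, 0, 0, 0], [-1, 0, 0, 0, 0, 0, 0]], [[0,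 0, 2, 0, 0, 0, 0], [0, 0, 0, 1, 0, 0, 0], [20, -8, -9, -12, -16, -30, -60], [-4, 2, 1, 3, 4, 8, 15], [2, 0, -1, -2, -2, -4, -7]], [0, 0, -8, -120, 0]⟩, ⟨3, [[2, 6, 2, 10, 30], [0, 8, 0, 0, 20], [0, 0, 4, 20, 20], [0, 0, 0, 160, 20], [0, 0, 0, 0, 40]], [[0, 1, -1, 0, 0, 0, 0], [-1, 1, 1, 0, 0, 0, 0], [-1, -1, 0, 0, -1, 0, 0], [-1, 1, 1, 0, -1, 0, 0], [0, 1, -1, 0, 1, 0, 0]], [[-1, 0, 2, 2, 0, 0, 0], [-14, 6, 4, 7, 12, 20, 40], [7, -2, -3, -4, 0, 0, -20], [1, 0, -2, -3, 4, 8, -5], [2, -1, 0, 0, -8, -14, -7]], [0, 32, -8, -120, 0]⟩, ⟨5, [[2, 6, 2, 42, 18], [0, 24, 0, 0, 12], [0, 0, 4, 84, 12], [0, 0, 0, 96, 12], [0, 0, 0, 0, 24]], [[0, 2, 2, -1, 0, 0, 0], [0, 0, 2, 2, 0, 0, 0], [0, 2, -1, -2, 2,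 0, 0], [1, -2, -2, 0, -1, 0, 0], [2, 1, -1, 2, 2, 0, 0]], [[-1, 0, 0, 0, 0, 0, 0], [0, 0, -4, -7, 0, 0, 0], [-1, 0, 3, 6, -6, -12, 0], [0, 0, 2, 3, 4, 8, 3], [0, -1, -2, -4, -7, -13, -1]], [0, 0, 0, 48, 0]⟩, ⟨6, [[1, 3, 1, 5, 15], [0, 4, 0, 0, 10], [0, 0, 2, 10, 10], [0, 0, 0, 80, 10], [0, 0, 0, 0, 20]], [[0, -1, -2, -2, 0, 0, 0], [-2, 2, -1, 2, 0, 0, 0], [-2, 1, 0, 1, -2, 0, 0], [-2, -1, -1, 0, -2, 0, 0], [-3, 2, -2, 0, 2, 0, 0]], [[0, 0, 4, 6, 0, 0, 0], [-14, 6, 4, 6, 12, 20, 40], [6, -2, -4, -6, 0, 0, -20], [2, 0, 0, 0, 4, 8, -5], [2, 0, 0, 0, -8, -14, -7]], [0, 32, -8, -120, 0]⟩, ⟨10, [[1, 3, 1, 21, 9], [0, 12, 0, 0, 6], [0, 0, 2, 42, 6], [0, 0, 0, 48, 6], [0, 0, 0, 0, 12]], [[-2, -1, -2,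 -2, -4, 0, 0], [-4, 0, 2, 4, 2, 0, 0], [-2, -1, -3, 1, 0, 0, 0], [2, -4, -4, 0, -2, 0, 0], [1, 2, 4, 4, -2, 0, 0]], [[16, -6, -4, -6, -8, -12, -48], [-8, 4, 0, -1, 4, 6, 24], [-4, 2, 2, 3, 4, 6, 12], [0, 0, 2, 3, 4, 8, 3], [-6, 2, -2, -4, 8, 14, 17]], [-16, 48, -8, -120, 0]⟩, ⟨15, [[2, 6, 2, 10, 6], [0, 8, 0, 0, 4], [0, 0, 4, 20, 4], [0, 0, 0, 32, 4], [0, 0, 0, 0, 8]], [[0, 7, 2, 4, 0, 0, 0], [0, 0, 6, 6, 0, 0, 0], [0, 7, -1, -2, 2, 0, 0], [-1, -5, 7, 5, -2, 0, 0], [-7, 5, 0, 0, 0, 0, 0]], [[-1, 0, -2, -4, 0, 0, 0], [0, 0, -4, -7, 0, 0, 0], [-1, 0, 1, 2, -2, -4, 0], [1, 0, -4, -7, 2, 4, -1], [-1, 1, 0, 0, 0, 0, 1]], [0, 0, 0, -16, 0]⟩, ⟨30, [[1, 3, 1, 5, 3], [0, 4, 0, 0, 2], [0, 0, 2, 10, 2],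 [0, 0, 0, 16, 2], [0, 0, 0, 0, 4]], [[0, -1, 4, -2, 0, 0, 0], [0, 0, -3, 2, 0, 0, 0], [0, -1, -2, 1, 4, -2, 0], [-2, 5, -1, 0, -4, 2, -1], [1, -5, 0, 0, 0, 0, 1]], [[0, 0, 0, 0, 0, 0, 0], [0, 0, 0, 0, 0, 0, 0], [0, 0, 0, 0, 0, 0, 0], [0, 0, 0, 0, 0, 0, 0], [0, 0, 0, 0, 0, 0, 0]], [0, 0, 0, -16, 0]⟩]⟩

theorem b28_ok : chkBad b28 = true := by decide +kernel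

def b29 : BCert :=
  ⟨[[0, 2, 0, 0, 0, 0, 0], [2, 0, 0, 0, 0, 0, 0], [0, 0, 2, 3, 0, 0, 0], [0, 0, 3, 6, 0, 0, 0], [0, 0, 0, 0, 8, 15, 0], [0, 0, 0, 0, 15, 30, 0], [0, 0, 0, 0, 0, 0, 15]], 30, [[0, 15, 0, 0, 0, 0, 0], [15, 0, 0, 0, 0, 0, 0], [0, 0, 60, -30, 0, 0, 0], [0, 0, -30, 20, 0, 0, 0], [0, 0, 0, 0, 60, -30, 0], [0, 0, 0, 0, -30, 16, 0], [0, 0, 0, 0, 0, 0, 2]], [2, -12, 3, -1, 0, 1, 2], 1, [-24, 4, 3, 3, 15, 30, 30], [[0, -3, 8, -4, 0, 0, 0], [0, -3, 0, 4, 0, 0, 0], [0, 0, 0, 0, 2, -1, 0], [0, -15, 0, 0, 0, 2, 0], [0, -15, 0, 0, 0, 0, 2]], 480, [15, 5, 240, 4, 8], [-3, -1, 0, 4, 0], [240, 0, 0, 0, 0, 0, 0], 1, [⟨1, [[4, 36, 0, 60, 60], [0, 48, 2, 60, 60], [0, 0, 4, 0, 0], [0, 0, 0, 120,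 60], [0, 0, 0, 0, 120]], [[0, 0, 0, 0, 0, 0, 0], [0, 0, 0, 0, 0, 0, 0], [0, 0, 0, 0, 0, 0, 0], [0, 0, 0, 0, 0, 0, 0], [0, 0, 0, 0, 0, 0, 0]], [[-51, 8, 8, 6, 30, 60, 60], [26, -4, -4, -2, -15, -30, -30], [-13, 2, 2, 1, 8, 15, 15], [12, -2, -2, -2, -7, -14, -15], [6, -1, -1, -1, -4, -8, -7]], [8, 24, 0, 0, 0]⟩, ⟨2, [[2, 18, 0, 30, 30], [0, 24, 1, 30, 30], [0, 0, 2, 0, 0], [0, 0, 0, 60, 30], [0, 0, 0, 0, 60]], [[0, 0, 0, 0, 0, 0, 0], [0, 0, 0, 0, 0, 0, 0], [0, 0, 0, 0, 0, 0, 0], [0, 0, 0, 0, 0, 0, 0], [0, 0, 0, 0, 0, 0, 0]], [[-51, 8, 8, 6, 30, 60, 60], [26, -4, -4, -2, -15, -30, -30], [-13, 2, 2, 1, 8, 15, 15], [12, -2, -2, -2, -7, -14, -15], [6, -1, -1, -1, -4, -8, -7]], [8, 24, 0, 0, 0]⟩, ⟨3,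 [[4, 4, 0, 20, 20], [0, 16, 2, 20, 20], [0, 0, 4, 0, 0], [0, 0, 0, 40, 20], [0, 0, 0, 0, 40]], [[0, 0, -1, 0, 0, 0, 0], [-1, 0, 1, 0, 0, 0, 0], [-1, 0, 1, 0, -1, 0, 0], [-1, 0, 0, 0, 0, 0, 0], [1, 0, 0, 0, 0, 0, 0]], [[-1, 0, 2, 2, 0, 0, 0], [8, 0, -2, -2, -5, -10, -10], [-4, 2, -1, -2, 8, 15, 5], [-4, 2, 0, 0, 3, 6, 5], [-2, -1, 0, 0, 1, 2, 3]], [0, -16, 0, 0, 0]⟩, ⟨4, [[1, 9, 1, 15, 15], [0, 24, 1, 30, 0], [0, 0, 2, 0, 0], [0, 0, 0, 60, 0], [0, 0, 0, 0, 30]], [[0, 1, 0, 0, 0, 0, 0], [-2, 1, 0, -2, 0, -1, -2], [-1, -1, -2, 1, -1, -1, 1], [1, -2, 1, 1, 0, 0, -1], [0, 1, -2, 0, 0, -2, 1]], [[44, -8, -4, -6, -30, -60, -60], [-12, 4, 4, 8, 15, 30, 30], [-16, 4, 2, 2, 23, 45, 15], [-4, 0, -2, -4,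 4, 8, 15], [-24, 4, 4, 6, 30, 60, 23]], [-8, -24, 0, 0, 0]⟩, ⟨5, [[4, 36, 0, 12, 12], [0, 48, 2, 12, 12], [0, 0, 4, 0, 0], [0, 0, 0, 24, 12], [0, 0, 0, 0, 24]], [[0, -2, 2, -1, 0, 0, 0], [1, 2, 0, 2, 0, 0, 0], [2, -1, 0, -1, -2, 0, 0], [2, 0, -1, 2, 0, 0, 0], [1, 0, 2, 1, 0, 0, 0]], [[1, 0, 0, 0, 0, 0, 0], [-6, 0, -2, -4, 3, 6, 6], [3, -2, 1, 2, 5, 9, -3], [2, -2, -2, -4, -1, -2, -3], [1, -1, -3, -5, -1, -2, -1]], [0, 48, 0, 0, 0]⟩, ⟨6, [[2, 2, 0, 10, 10], [0, 8, 1, 10, 10], [0, 0, 2, 0, 0], [0, 0, 0, 20, 10], [0, 0, 0, 0, 20]], [[0, -3, -2, -2, 0, 0, 0], [-2, 0, 2, 2, -3, 0, 0], [-2, 0, 2, -1, -2, 0, 0], [-2, 0, 0, 0, -3, 0, 0], [-1, 0, 0, 0, -3, 0, 0]], [[1, 0, 4, 6, 0, 0, 0], [8, 0, -4, -6,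 3, 5, -10], [-4, 2, 0, 0, 8, 15, 5], [-4, 2, 0, 0, 11, 21, 5], [-2, 1, 0, 0, 9, 17, 3]], [0, -16, 0, 0, 0]⟩, ⟨10, [[2, 18, 0, 6, 6], [0, 24, 1, 6, 6], [0, 0, 2, 0, 0], [0, 0, 0, 12, 6], [0, 0, 0, 0, 12]], [[2, 4, 2, 2, 0, 0, 0], [0, -4, 2, 0, 0, 0, 0], [0, 2, 4, 0, -4, 0, 0], [4, 0, -2, 4, 0, 0, 0], [2, 0, -1, -3, 0, 0, 0]], [[-31, 4, 2, 0, 18, 36, 36], [26, -4, -4, -4, -15, -30, -30], [-13, 2, 0, -1, 14, 27, 15], [2, -2, -2, -4, -1, -2, -3], [1, -1, 2, 4, -1, -2, -1]], [24, -24, 0, 0, 0]⟩, ⟨12, [[1, 1, 0, 5, 5], [0, 8, 1, 10, 0], [0, 0, 2, 0, 0], [0, 0, 0, 20, 0], [0, 0, 0, 0, 10]], [[4, -3, -4, 0, 0, -4, -4], [2, 0, 2, 0, -6, 1, -2], [-1, -6, -1, 0, 1, 5, -5], [1, -6, 0, 0, -6, 3, 5], [4, 0,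 2, 0, 0, 2, -3]], [[16, -4, 0, 0, 0, 0, -10], [-4, 0, 0, 0, 8, 15, 10], [4, 0, 0, 0, -15, -30, 10], [0, 0, 0, 0, 2, 3, -10], [-8, 0, 0, 0, 0, 0, 18]], [-8, 8, 0, 0, 0]⟩, ⟨15, [[4, 4, 0, 4, 4], [0, 16, 2, 4, 4], [0, 0, 4, 0, 0], [0, 0, 0, 8, 4], [0, 0, 0, 0, 8]], [[-2, 0, -1, -5, 0, 0, 0], [1, -6, 1, 5, 0, 0, 0], [7, 3, 7, 5, -7, 0, 0], [-7, 3, 0, 0, 0, 0, 0], [4, -6, 0, 0, 0, 0, 0]], [[3, 0, 2, 4, -2, -4, -4], [0, 0, -2, -4, 1, 2, 2], [0, -2, -4, -7, 7, 13, -1], [-2, 2, 0, 0, 1, 2, 1], [1, -1, 0, 0, 0, 0, 1]], [-8, 8, 0, 0, 0]⟩, ⟨20, [[1, 9, 1, 3, 3], [0, 24, 1, 6, 0], [0, 0, 2, 0, 0], [0, 0, 0, 12, 0], [0, 0, 0, 0, 6]], [[-4, 1, -8, 8, 0, 0, 8], [-10, 1, -8, -10, 0, -5, -10], [7, -1, -2, -9,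 -9, -7, 1], [1, -7, 1, -7, 0, -10, 3], [-8, 7, -6, -4, 0, -10, -3]], [[28, -4, -4, -6, -18, -36, -48], [-12, 4, 6, 10, 15, 30, 30], [-8, 0, 4, 7, 23, 45, 9], [0, 0, 2, 4, 16, 32, -3], [-16, 4, 4, 6, 24, 48, 23]], [-24, 24, 0, 0, 0]⟩, ⟨30, [[2, 2, 0, 2, 2], [0, 8, 1, 2, 2], [0, 0, 2, 0, 0], [0, 0, 0, 4, 2], [0, 0, 0, 0, 4]], [[-4, -15, -2, 0, 0, -2, -4], [2, -12, 2, 0, 0, 1, 2], [14, 6, -1, 0, 1, -1, -1], [-14, 6, 0, 0, 0, 1, 1], [-7, 3, 0, 0, 0, 0, 1]], [[5, 0, 0, 0, 0, 0, 0], [0, 0, 0, 0, 0, 0, 0], [0, -2, 0, 0, 0, 0, 0], [-2, 2, 0, 0, 0, 0, 0], [-1, 1, 0, 0, 0, 0, 0]], [-8, 8, 0, 0, 0]⟩, ⟨60, [[1, 1, 0, 1, 1], [0, 8, 1, 2, 0], [0, 0, 2, 0, 0], [0, 0, 0, 4, 0], [0, 0, 0, 0, 2]], [[-8, -15, -4,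 0, 0, -12, -8], [2, -12, 2, 0, 0, 3, 2], [-1, 6, -1, 0, 1, 11, -1], [1, -9, 0, 0, 0, 3, 1], [4, -30, 2, 0, 0, 6, 5]], [[4, 0, 0, 0, 4, 8, 0], [0, 0, 0, 0, -1, -2, 0], [0, 0, 0, 0, -6, -12, 0], [0, 0, 0, 0, -1, -2, 0], [0, 0, 0, 0, -2, -4, 0]], [-8, 8, 0, 0, 0]⟩]⟩

theorem b29_ok : chkBad b29 = true := by decide +kernel

end RH6.BD
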