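import Pool.Agent.RH6.UDef

namespace RH6.BD

def b30 : BCert :=
  ⟨[[0, 1, 0, 0, 0, 0, 0], [1, 0, 0, 0, 0, 0, 0], [0, 0, 2, 1, 0, 0, 0], [0, 0, 1, 2, 0, 0, 0], [0, 0, 0, 0, 4, 5, 0], [0, 0, 0, 0, 5, 10, 0], [0, 0, 0, 0, 0, 0, 5]], 15, [[0, 15, 0, 0, 0, 0, 0], [15, 0, 0, 0, 0, 0, 0], [0, 0, 10, -5, 0, 0, 0], [0, 0, -5, 10, 0, 0, 0], [0, 0, 0, 0, 10, -5, 0], [0, 0, 0, 0, -5, 4, 0], [0, 0, 0, 0, 0, 0, 3]], [3, -5, 2, -1, 1, 0, 2], 1, [-5, 3, 3, 0, 4, 5, 10], [[0, -2, 2, -1, 0, 0, 0], [0, 0, 0, 1, 0, 0, 0], [0, -1, 0, 0, 2, -1, 0], [0, -5, 0, 0, 0, 3, 0], [0, -10, 0, 0, 0, 0, 3]], 90, [15, 45, 15, 1, 2], [0, 0, 1, 0, 0], [30, 0, 0, 0, 0, 0, 0], 1, [⟨1, [[2, 2, 4, 20, 10], [0, 4, 0, 0, 0], [0,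 0, 6, 30, 60], [0, 0, 0, 60, 30], [0, 0, 0, 0, 90]], [[0, 0, 0, 0, 0, 0, 0], [0, 0, 0, 0, 0, 0, 0], [0, 0, 0, 0, 0, 0, 0], [0, 0, 0, 0, 0, 0, 0], [0, 0, 0, 0, 0, 0, 0]], [[-12, 6, 9, 0, 8, 10, 20], [6, -3, -4, 1, -4, -5, -10], [6, -3, -5, 0, -3, -5, -10], [0, 0, 0, 0, 0, 1, 0], [-4, 2, 3, 0, 2, 3, 7]], [4, 0, 2, 10, 20]⟩, ⟨2, [[1, 1, 2, 10, 5], [0, 2, 0, 0, 0], [0, 0, 3, 15, 30], [0, 0, 0, 30, 15], [0, 0, 0, 0, 45]], [[0, 0, 0, -1, 0, 0, 0], [-1, 0, 0, 0, 0, 0, 0], [-1, 0, 0, -1, 0, 0, 0], [0, 0, 0, 0, 0, 0, 0], [0, 0, 0, -1, 0, 0, 0]], [[-12, 6, 10, 2, 8, 10, 20], [6, -2, -4, 1, -4, -5, -10], [6, -2, -4, 2, -3, -5, -10], [0, 0, 0, 0, 0, 1, 0], [-4, 2, 4, 2, 2, 3, 7]], [4, 0, 2, 10, 20]⟩,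 ⟨3, [[2, 2, 0, 0, 60], [0, 4, 0, 0, 0], [0, 0, 2, 10, 20], [0, 0, 0, 20, 70], [0, 0, 0, 0, 90]], [[0, 0, 0, 0, 0, -1, -1], [0, 0, 0, 1, 0, -1, -1], [0, -1, 0, 0, 0, -1, -1], [0, 0, 0, 0, 0, 0, 0], [1, 1, 0, 0, 0, 0, -1]], [[-4, 2, 3, 0, 6, 10, 10], [2, -1, -2, -1, 2, 5, 0], [2, -1, -1, 0, 3, 5, 0], [0, 0, 0, 0, 0, 1, 0], [2, -2, -2, 0, -2, -3, -1]], [4, 0, -2, -10, -20]⟩, ⟨5, [[2, 2, 4, 8, 4], [0, 4, 0, 0, 0], [0, 0, 6, 6, 12], [0, 0, 0, 12, 6], [0, 0, 0, 0, 18]], [[0, -1, 1, 2, 0, 0, 0], [0, -2, 2, -2, 0, 0, 0], [0, -2, 1, 2, 2, 0, 0], [1, 0, 2, -1, 1, 0, 0], [-2, 1, -1, -2, 0, 0, 0]], [[0, 0, -1, -2, 0, 0, 0], [1, 0, -1, 1, 0, 0, 0], [1, 0, -2, -2, -3, -4, 0], [1, -1, -2, 0, -2, -2, -2],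 [-1, 1, 2, 2, 0, 0, 1]], [0, 0, 0, -12, 0]⟩, ⟨6, [[1, 1, 0, 0, 30], [0, 2, 0, 0, 0], [0, 0, 1, 5, 10], [0, 0, 0, 10, 35], [0, 0, 0, 0, 45]], [[-3, -3, 0, 0, 2, 0, -2], [-3, 2, 1, 0, -2, 0, 2], [0, -1, 0, 0, -3, 0, 0], [0, 0, 0, 0, 0, 0, 0], [2, -2, 0, 0, 2, 0, -1]], [[2, 0, 0, 0, -4, -5, 0], [-2, 2, 0, 0, 4, 5, 0], [0, 0, 0, 0, 5, 5, 0], [0, 0, 0, 0, 0, 1, 0], [0, 0, 0, 0, -2, -3, 4]], [-2, 2, 0, 0, 0]⟩, ⟨10, [[1, 1, 2, 4, 2], [0, 2, 0, 0, 0], [0, 0, 3, 3, 6], [0, 0, 0, 6, 3], [0, 0, 0, 0, 9]], [[0, -2, 2, -1, 0, 0, 0], [0, 1, -1, -4, 0, 0, 0], [0, 1, 2, 4, -1, 1, 0], [-3, -5, 4, -2, 2, -2, -2], [1, -3, -2, -4, 0, 0, 1]], [[0, 0, 0, 0, 0, 0, 0], [0, 0, 1, 2, 0, 0, 0], [0, 0, -2, -2, 0, -1,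 0], [2, 0, -2, 0, 0, 2, 0], [0, 0, 2, 2, 0, 0, 0]], [0, 0, 0, -12, 0]⟩, ⟨15, [[2, 2, 0, 0, 6], [0, 4, 0, 0, 0], [0, 0, 2, 2, 10], [0, 0, 0, 4, 14], [0, 0, 0, 0, 18]], [[6, -6, 0, 0, 7, -3, 2], [-6, -2, 3, -5, -7, 3, -2], [0, 7, 0, 0, 6, 6, 0], [0, -1, 0, 0, -3, -3, 0], [-7, 0, 0, 0, 5, 0, -1]], [[1, -1, 0, 0, -2, -1, -2], [0, 1, 0, 1, 2, 1, 2], [-1, 0, 0, 0, -7, -12, 0], [0, 0, 0, 0, 4, 7, 0], [0, 1, 0, 0, -3, -4, 1]], [-2, 2, 0, 0, 0]⟩]⟩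

theorem b30_ok : chkBad b30 = true := by decide +kernel

def b31 : BCert :=
  ⟨[[0, 2, 0, 0, 0, 0, 0], [2, 0, 0, 0, 0, 0, 0], [0, 0, 2, 1, 0, 0, 0], [0, 0, 1, 2, 0, 0, 0], [0, 0, 0, 0, 4, 5, 0], [0, 0, 0, 0, 5, 10, 0], [0, 0, 0, 0, 0, 0, 5]], 30, [[0, 15, 0, 0, 0, 0, 0], [15, 0, 0, 0, 0, 0, 0], [0, 0, 20, -10, 0, 0, 0], [0, 0, -10, 20, 0, 0, 0], [0, 0, 0, 0, 20, -10, 0], [0, 0, 0, 0, -10, 8, 0], [0, 0, 0, 0, 0, 0, 6]], [2, -4, 1, 0, 0, 1, 2], 1, [-8, 4, 2, 1, 5, 10, 10], [[0, -3, 8, -4, 0, 0, 0], [0, -1, 0, 4, 0, 0, 0], [0, 0, 0, 0, 2, -1, 0], [0, -5, 0, 0, 0, 2, 0], [0, -5, 0, 0, 0, 0, 2]], 480, [5, 15, 80, 12, 24], [-1, -1, 0, 4, 0], [240, 0, 0, 0, 0, 0, 0], 1, [⟨1, [[12, 4, 0, 20, 20],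 [0, 16, 6, 20, 20], [0, 0, 12, 0, 0], [0, 0, 0, 40, 20], [0, 0, 0, 0, 40]], [[0, 0, 0, 0, 0, 0, 0], [0, 0, 0, 0, 0, 0, 0], [0, 0, 0, 0, 0, 0, 0], [0, 0, 0, 0, 0, 0, 0], [0, 0, 0, 0, 0, 0, 0]], [[-1, 0, 2, 0, 0, 0, 0], [8, -4, -2, 0, -5, -10, -10], [-4, 2, 1, 0, 3, 5, 5], [-4, 2, 0, 0, 3, 6, 5], [-2, 1, 0, 0, 1, 2, 3]], [0, -16, 0, 0, 0]⟩, ⟨2, [[6, 2, 0, 10, 10], [0, 8, 3, 10, 10], [0, 0, 6, 0, 0], [0, 0, 0, 20, 10], [0, 0, 0, 0, 20]], [[0, 0, 0, 0, 0, 0, 0], [0, 0, 0, 0, 0, 0, 0], [0, 0, 0, -1, 0, 0, 0], [0, 0, 0, 0, 0, 0, 0], [0, 0, 0, 0, 0, 0, 0]], [[-1, 0, 2, 0, 0, 0, 0], [8, -4, -2, 0, -5, -10, -10], [-4, 2, 2, 2, 3, 5, 5], [-4, 2, 0, 0, 3, 6, 5], [-2, 1, 0, 0, 1, 2, 3]], [0, -16, 0,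 0, 0]⟩, ⟨3, [[4, 12, 0, 20, 20], [0, 16, 2, 20, 20], [0, 0, 4, 0, 0], [0, 0, 0, 40, 20], [0, 0, 0, 0, 40]], [[-1, -1, 0, -1, 0, 1, -1], [0, -1, 0, 1, 0, 0, 0], [0, -1, 0, 1, 0, 0, 0], [-1, -1, 0, 0, 0, 0, -1], [1, 1, 0, 0, 0, 1, 0]], [[11, -4, 0, 0, -10, -20, -10], [-6, 4, 0, 0, 5, 10, 10], [5, -2, -1, -2, -2, -5, -5], [0, 2, 0, 0, 1, 2, 5], [-2, -1, 0, 0, -3, -6, 1]], [-16, 0, 0, 0, 0]⟩, ⟨4, [[3, 1, 0, 5, 5], [0, 8, 3, 10, 0], [0, 0, 6, 0, 0], [0, 0, 0, 20, 0], [0, 0, 0, 0, 10]], [[0, -1, 0, 0, 0, 0, 0], [-2, 0, 0, -2, 0, -1, -2], [1, -2, -2, 1, -1, -1, 1], [1, -2, 0, 0, 0, -1, 1], [0, 0, 0, -2, 0, 0, 1]], [[0, 0, 2, 0, 0, 0, 0], [4, 0, 0, 2, 0, 0, 0], [0, 0, 2, 0, 6, 10, 0], [0, 0, 0, 0,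 4, 8, 0], [0, 0, 0, 2, 0, 0, -2]], [0, -16, 0, 0, 0]⟩, ⟨5, [[12, 4, 0, 4, 4], [0, 16, 6, 4, 4], [0, 0, 12, 0, 0], [0, 0, 0, 8, 4], [0, 0, 0, 0, 8]], [[0, 1, -1, -2, 0, 0, 0], [-1, 2, 1, 2, 0, 0, 0], [-2, -1, 2, -1, 1, 0, 0], [-2, 1, 0, 0, 0, 0, 0], [-1, -2, 0, 0, 0, 0, 0]], [[-1, 0, 2, 2, 0, 0, 0], [0, 0, -2, -2, -1, -2, -2], [0, 2, -1, 0, -1, -1, 1], [-2, 2, 0, 0, 1, 2, 1], [1, 1, 0, 0, 0, 0, 1]], [0, -16, 0, 0, 0]⟩, ⟨6, [[2, 6, 0, 10, 10], [0, 8, 1, 10, 10], [0, 0, 2, 0, 0], [0, 0, 0, 20, 10], [0, 0, 0, 0, 20]], [[0, -3, -2, -2, 0, 0, 0], [-2, 2, 2, 2, 1, 0, -2], [-2, -1, 2, -1, -2, 0, 1], [-2, -2, 0, 0, -3, 0, 1], [-1, 2, 0, 0, 1, 0, -3]], [[1, 0, 4, 2, 0, 0, 0], [2, 0, -4, -2, -3, -5,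 0], [-1, 2, 0, 0, 4, 5, 0], [0, 2, 0, 0, 5, 7, 0], [-2, 1, 0, 0, -1, -1, 6]], [0, -16, 0, 0, 0]⟩, ⟨10, [[6, 2, 0, 2, 2], [0, 8, 3, 2, 2], [0, 0, 6, 0, 0], [0, 0, 0, 4, 2], [0, 0, 0, 0, 4]], [[0, 2, -2, -4, 0, 0, 0], [-2, 4, 2, 4, -5, -5, -2], [-4, -2, 4, 3, -3, 3, 1], [-4, 2, 0, 0, -5, -5, 1], [-2, -4, 0, 0, 0, 0, 1]], [[-1, 0, 2, 2, 0, 0, 0], [0, 0, -2, -2, 8, 13, 0], [0, 2, -2, -2, 0, -2, 0], [-2, 2, 0, 0, 10, 17, 0], [1, 1, 0, 0, 0, 0, 0]], [0, -16, 0, 0, 0]⟩, ⟨12, [[1, 3, 1, 5, 5], [0, 8, 1, 10, 0], [0, 0, 2, 0, 0], [0, 0, 0, 20, 0], [0, 0, 0, 0, 10]], [[0, -3, -4, -4, 0, 0, 0], [-2, 5, -4, 2, -6, -1, -2], [1, -1, -2, 1, -5, 0, -5], [1, -2, 0, 0, -6, 3, -5], [0, 1, -4, 2, 0, 0, -1]],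 [[0, 0, 4, 2, 0, 0, 0], [0, 0, 0, 0, 4, 5, 0], [0, 0, 0, 0, 4, 5, 5], [0, 0, 0, 0, 2, 1, 5], [0, 0, 0, 0, 0, 0, 1]], [0, -16, 0, 0, 0]⟩, ⟨15, [[4, 12, 0, 4, 4], [0, 16, 2, 4, 4], [0, 0, 4, 0, 0], [0, 0, 0, 8, 4], [0, 0, 0, 0, 8]], [[0, 3, -3, -6, 0, 0, 0], [-1, -5, 3, 6, 5, 0, 2], [-7, -5, 6, -3, -7, 3, -1], [-7, 6, 0, 0, -5, 0, -1], [4, 3, 0, 0, 0, 0, -1]], [[-1, 0, 2, 2, 0, 0, 0], [2, 0, -2, -2, -3, -4, -2], [1, 2, -1, 0, 2, 1, 1], [-2, 2, 0, 0, 3, 4, 1], [-1, -1, 0, 0, 0, 0, 1]], [0, -16, 0, 0, 0]⟩, ⟨20, [[3, 1, 0, 1, 1], [0, 8, 3, 2, 0], [0, 0, 6, 0, 0], [0, 0, 0, 4, 0], [0, 0, 0, 0, 2]], [[0, -1, -4, -8, 0, 0, 0], [-2, 4, -8, -6, 0, 3, -2], [1, -2, -6, -7, 7, -9, 1], [1, -3, 0, 0, 0,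 -3, 1], [0, -2, -8, -6, 0, 0, 1]], [[0, 0, 2, 2, 0, 0, 0], [0, 0, 2, 2, -2, -4, 0], [0, 0, 2, 2, 2, 6, 0], [0, 0, 0, 0, 2, 4, 0], [0, 0, 2, 2, 0, 0, 0]], [0, -16, 0, 0, 0]⟩, ⟨60, [[1, 3, 1, 1, 1], [0, 8, 1, 2, 0], [0, 0, 2, 0, 0], [0, 0, 0, 4, 0], [0, 0, 0, 0, 2]], [[0, -3, 8, -4, 0, 0, 0], [-2, 5, -4, 2, 0, -1, -2], [1, -1, -2, 1, 1, 0, 1], [1, -3, 0, 0, 0, 1, 1], [0, -1, -4, 2, 0, 0, 1]], [[0, 0, 0, 0, 0, 0, 0], [0, 0, 0, 0, 0, 0, 0], [0, 0, 0, 0, 0, 0, 0], [0, 0, 0, 0, 0, 0, 0], [0, 0, 0, 0, 0, 0, 0]], [0, -16, 0, 0, 0]⟩]⟩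

theorem b31_ok : chkBad b31 = true := by decide +kernel

def b32 : BCert :=
  ⟨[[0, 1, 0, 0, 0, 0, 0], [1, 0, 0, 0, 0, 0, 0], [0, 0, 10, 15, 0, 0, 0], [0, 0, 15, 30, 0, 0, 0], [0, 0, 0, 0, 4, 3, 0], [0, 0, 0, 0, 3, 6, 0], [0, 0, 0, 0, 0, 0, 3]], 15, [[0, 15, 0, 0, 0, 0, 0], [15, 0, 0, 0, 0, 0, 0], [0, 0, 6, -3, 0, 0, 0], [0, 0, -3, 2, 0, 0, 0], [0, 0, 0, 0, 6, -3, 0], [0, 0, 0, 0, -3, 4, 0], [0, 0, 0, 0, 0, 0, 5]], [4, -7, 2, 0, 1, 0, 2], 1, [-7, 4, 20, 30, 4, 3, 6], [[0, -5, 4, -2, 0, 0, 0], [0, -15, 0, 2, 0, 0, 0], [0, -5, 0, 0, 8, -4, 0], [0, -3, 0, 0, 0, 4, 0], [0, -3, 0, 0, 0, 0, 2]], 480, [12, 4, 3, 5, 40], [0, 0, 3, -5, 8], [120, 0, 0, 0, 0, 0, 0], 1, [⟨1, [[10, 30, 10, 54, 18], [0,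 120, 0, 0, 12], [0, 0, 20, 12, 0], [0, 0, 0, 96, 12], [0, 0, 0, 0, 24]], [[0, 0, 0, 0, 0, 0, 0], [0, 0, 0, 0, 0, 0, 0], [0, 0, 0, 0, 0, 0, 0], [0, 0, 0, 0, 0, 0, 0], [0, 0, 0, 0, 0, 0, 0]], [[-1, 0, 2, 0, 0, 0, 0], [0, 0, 0, 1, 0, 0, 0], [0, 0, -1, 0, 2, 0, 0], [-3, 2, 9, 15, 2, 2, 3], [2, -1, -6, -8, -1, -1, -1]], [0, 0, 0, 48, 0]⟩, ⟨2, [[5, 15, 5, 27, 9], [0, 60, 0, 0, 6], [0, 0, 10, 6, 0], [0, 0, 0, 48, 6], [0, 0, 0, 0, 12]], [[0, -1, 0, 0, 0, 0, 0], [0, 0, 0, 0, 0, 0, 0], [0, 0, 0, 0, 0, 0, 0], [0, -1, 0, 0, 0, 0, 0], [-1, 0, 0, 0, 0, 0, 0]], [[0, 0, 2, 0, 0, 0, 0], [0, 0, 0, 1, 0, 0, 0], [0, 0, -1, 0, 2, 0, 0], [-2, 2, 9, 15, 2, 2, 3], [2, 0, -6, -8, -1, -1, -1]], [0, 0, 0, 48, 0]⟩,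 ⟨3, [[10, 30, 10, 22, 6], [0, 40, 0, 0, 4], [0, 0, 20, 12, 0], [0, 0, 0, 32, 4], [0, 0, 0, 0, 8]], [[0, 1, 1, 0, 0, 0, 0], [0, 0, 0, 0, 0, 0, 0], [0, 0, 1, 0, 1, 0, 0], [-1, -1, -1, 0, -1, 0, 0], [-1, -1, -1, 0, -1, 0, 0]], [[-1, 0, -6, -10, 0, 0, 0], [0, 0, 0, 1, 0, 0, 0], [0, 0, -7, -10, -2, -2, 0], [2, 0, 3, 5, 2, 2, -1], [0, 1, 8, 12, 3, 2, 1]], [0, 0, 0, -16, 0]⟩, ⟨5, [[2, 6, 2, 30, 6], [0, 24, 0, 0, 12], [0, 0, 4, 60, 12], [0, 0, 0, 96, 12], [0, 0, 0, 0, 24]], [[0, 0, 0, 0, 0, 0, 0], [0, 0, 0, 0, 0, 0, 0], [-1, -2, 0, 0, 0, -2, 2], [2, 1, 0, 0, 0, -2, 1], [2, 1, 0, 0, 0, 2, -1]], [[-1, 0, 2, 0, 0, 0, 0], [0, 0, 0, 1, 0, 0, 0], [-2, 2, 7, 12, 6, 6, 0], [2, -2, -6, -9, 0, 4, -3], [0,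 -1, -1, -2, -3, -5, 1]], [0, 0, 8, -24, 0]⟩, ⟨6, [[5, 15, 5, 11, 3], [0, 20, 0, 0, 2], [0, 0, 10, 6, 0], [0, 0, 0, 16, 2], [0, 0, 0, 0, 4]], [[0, -1, 2, 0, 0, 0, 0], [0, 0, 0, 0, 0, 0, 0], [0, 0, -1, 0, 2, -2, 0], [-2, -2, 1, 0, -2, 2, -1], [1, -2, -2, 0, 1, -1, 1]], [[0, 0, -6, -10, 0, 0, 0], [0, 0, 0, 1, 0, 0, 0], [0, 0, 3, 5, 0, 2, 0], [2, 0, -7, -10, 0, -2, 0], [0, 0, 8, 12, 0, 1, 0]], [0, 0, 0, -16, 0]⟩, ⟨10, [[1, 3, 1, 15, 3], [0, 12, 0, 0, 6], [0, 0, 2, 30, 6], [0, 0, 0, 48, 6], [0, 0, 0, 0, 12]], [[0, -5, 0, 0, 0, 0, 0], [0, 0, 0, 0, 0, 0, 0], [0, 0, 0, 0, 0, 0, 0], [-4, -4, 0, 0, 0, 0, -2], [-3, -2, 0, 0, -5, -5, 2]], [[0, 0, 2, 0, 0, 0, 0], [0, 0, 0, 1, 0, 0, 0], [14, -8, -41, -60,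 -6, -6, -12], [-8, 6, 26, 39, 4, 4, 9], [-2, 2, 7, 10, 8, 10, 1]], [0, 0, -40, 24, 0]⟩, ⟨15, [[2, 6, 2, 30, 6], [0, 8, 0, 0, 4], [0, 0, 4, 28, 0], [0, 0, 0, 32, 4], [0, 0, 0, 0, 8]], [[0, 5, 2, 0, 0, 0, 0], [0, 0, 0, 0, 0, 0, 0], [-5, 5, 4, 0, 0, 0, -5], [4, -1, 7, 0, 0, 0, 7], [-2, 2, -5, 0, 0, 0, 3]], [[-1, 0, -2, -4, 0, 0, 0], [0, 0, 0, 1, 0, 0, 0], [4, -2, -19, -28, -2, -2, -2], [-4, 2, 3, 5, 2, 2, 1], [2, -1, 0, 0, -1, -1, -3]], [0, 0, -40, 24, 0]⟩, ⟨30, [[1, 3, 1, 15, 3], [0, 4, 0, 0, 2], [0, 0, 2, 14, 0], [0, 0, 0, 16, 2], [0, 0, 0, 0, 4]], [[0, -5, 4, -2, 0, 0, 0], [0, 0, -3, 2, 0, 0, 0], [-10, 10, 8, 1, -6, -2, 10], [8, -2, -13, 1, 6, 2, -11], [11, 4, -10, 0, -3, -1, -9]], [[0, 0,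 0, 0, 0, 0, 0], [0, 0, 0, 0, 0, 0, 0], [4, -2, -20, -30, 0, 0, -6], [-4, 2, 20, 30, 0, 0, 6], [2, -2, 0, 0, 0, 0, 0]], [0, 0, -40, 24, 0]⟩]⟩

theorem b32_ok : chkBad b32 = true := by decide +kernel

def b33 : BCert :=
  ⟨[[0, 2, 0, 0, 0, 0, 0], [2, 0, 0, 0, 0, 0, 0], [0, 0, 10, 15, 0, 0, 0], [0, 0, 15, 30, 0, 0, 0], [0, 0, 0, 0, 4, 3, 0], [0, 0, 0, 0, 3, 6, 0], [0, 0, 0, 0, 0, 0, 3]], 30, [[0, 15, 0, 0, 0, 0, 0], [15, 0, 0, 0, 0, 0, 0], [0, 0, 12, -6, 0, 0, 0], [0, 0, -6, 4, 0, 0, 0], [0, 0, 0, 0, 12, -6, 0], [0, 0, 0, 0, -6, 8, 0], [0, 0, 0, 0, 0, 0, 10]], [2, -6, 3, -1, 0, 1, 2], 1, [-12, 4, 15, 15, 3, 6, 6], [[0, -15, 8, -4, 0, 0, 0], [0, -15, 0, 4, 0, 0, 0], [0, 0, 0, 0, 2, -1, 0], [0,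 -3, 0, 0, 0, 2, 0], [0, -3, 0, 0, 0, 0, 2]], 480, [3, 1, 48, 20, 40], [-3, -1, 0, 20, 0], [240, 0, 0, 0, 0, 0, 0], 1, [⟨1, [[20, 180, 0, 12, 12], [0, 240, 10, 12, 12], [0, 0, 20, 0, 0], [0, 0, 0, 24, 12], [0, 0, 0, 0, 24]], [[0, 0, 0, 0, 0, 0, 0], [0, 0, 0, 0, 0, 0, 0], [0, 0, 0, 0, 0, 0, 0], [0, 0, 0, 0, 0, 0, 0], [0, 0, 0, 0, 0, 0, 0]], [[-3, 0, 2, 0, 0, 0, 0], [2, 0, -1, 1, 0, 0, 0], [-7, 2, 8, 7, 2, 3, 3], [-6, 2, 7, 7, 2, 4, 3], [3, -1, -4, -4, -1, -2, -1]], [0, 0, 10, 12, 0]⟩, ⟨2, [[10, 90, 0, 6, 6], [0, 120, 5, 6, 6], [0, 0, 10, 0, 0], [0, 0, 0, 12, 6], [0, 0, 0, 0, 12]], [[0, 0, 0, 0, 0, 0, 0], [0, 0, 0, 0, 0, 0, 0], [0, 0, 0, 0, 0, 0, 0], [0, 0, 0, 0, 0, 0, 0], [0, 0, 0, 0, 0, 0,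 0]], [[-3, 0, 2, 0, 0, 0, 0], [2, 0, -1, 1, 0, 0, 0], [-7, 2, 8, 7, 2, 3, 3], [-6, 2, 7, 7, 2, 4, 3], [3, -1, -4, -4, -1, -2, -1]], [0, 0, 10, 12, 0]⟩, ⟨3, [[20, 20, 0, 4, 4], [0, 80, 10, 4, 4], [0, 0, 20, 0, 0], [0, 0, 0, 8, 4], [0, 0, 0, 0, 8]], [[1, 0, 1, 0, 0, 0, 0], [-1, 0, -1, 0, 0, 0, 0], [-1, 0, -1, 0, 1, 0, 0], [1, 0, 0, 0, 0, 0, 0], [1, 0, 0, 0, 0, 0, 0]], [[7, -4, -16, -20, -2, -4, -4], [4, 0, 2, 6, -1, -2, -2], [-2, 2, 9, 12, -2, -1, 1], [-34, 10, 42, 42, 9, 18, 17], [11, -5, -14, -14, -3, -6, -5]], [-40, -120, 0, 56, 0]⟩, ⟨4, [[5, 45, 5, 3, 3], [0, 120, 5, 6, 0], [0, 0, 10, 0, 0], [0, 0, 0, 12, 0], [0, 0, 0, 0, 6]], [[0, 1, 0, 0, 0, 0, 0], [-2, -1, 0, -2, 0, -1, -2], [-1, 0,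 0, 1, -1, 1, 1], [1, 1, 1, -1, 0, -2, -1], [0, 1, -2, 0, 0, -2, 1]], [[20, -8, -28, -30, -6, -12, -12], [-4, 4, 22, 38, 3, 6, 6], [-8, 4, 3, -4, 3, 3, 3], [-4, 0, 6, 11, 4, 8, 3], [-12, 4, 24, 30, 6, 12, 5]], [-40, -120, 0, 0, 0]⟩, ⟨5, [[4, 36, 0, 12, 12], [0, 48, 2, 12, 12], [0, 0, 4, 0, 0], [0, 0, 0, 24, 12], [0, 0, 0, 0, 24]], [[2, -1, 0, 0, 0, 1, 2], [-1, -2, 0, 0, 0, 2, -1], [-2, 1, 0, 0, 0, -1, -2], [2, 2, 0, 0, 0, -1, 2], [1, 1, 0, 0, 0, -1, -1]], [[-7, 0, 8, 6, 0, 0, 0], [6, 0, -4, -2, -3, -6, 0], [-3, 2, 2, 1, 2, 3, 3], [0, -2, -2, -2, 1, 2, -3], [0, -1, -1, -1, 1, 2, 1]], [8, 24, 0, 0, 0]⟩, ⟨6, [[10, 10, 0, 2, 2], [0, 40, 5, 2, 2], [0, 0, 10, 0, 0], [0, 0, 0, 4, 2], [0, 0, 0, 0,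 4]], [[2, -3, 2, 0, 0, 0, 2], [-2, 0, -2, 0, -3, -3, -2], [-2, 0, 1, 0, 2, -2, 1], [2, 0, 0, 0, -3, -3, -1], [-1, -3, 0, 0, -3, -3, 1]], [[9, -4, -16, -20, -2, -4, -6], [4, 0, 2, 6, 6, 7, 0], [-2, 2, -1, -3, 0, 3, 0], [-34, 10, 42, 42, 16, 27, 18], [13, -3, -14, -14, 4, 3, -6]], [-40, -120, 0, 56, 0]⟩, ⟨10, [[2, 18, 0, 6, 6], [0, 24, 1, 6, 6], [0, 0, 2, 0, 0], [0, 0, 0, 12, 6], [0, 0, 0, 0, 12]], [[4, -2, 0, 0, -4, 4, 4], [-2, -4, 0, 0, -3, 3, -2], [-4, 2, 0, 0, 4, -4, -4], [4, 4, 0, 0, -1, 1, 4], [2, 2, 0, 0, -1, 1, -2]], [[-7, 0, 8, 6, 2, 0, 0], [6, 0, -4, -2, 0, -3, 0], [-3, 2, 2, 1, 0, 3, 3], [0, -2, -2, -2, 0, -1, -3], [0, -1, -1, -1, 0, -1, 1]], [8, 24, 0, 0, 0]⟩, ⟨12, [[5, 5, 0, 1,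 1], [0, 40, 5, 2, 0], [0, 0, 10, 0, 0], [0, 0, 0, 4, 0], [0, 0, 0, 0, 2]], [[-4, -3, 4, 0, 0, -4, -4], [-6, -6, -2, -4, 0, -3, -6], [3, 3, -5, 2, 5, 3, 3], [1, -3, -6, 2, 0, 5, 1], [-4, 0, -2, 0, 0, 2, -3]], [[-8, 4, 4, 0, 4, 8, 6], [8, 0, 6, 18, 0, 0, 0], [-4, 0, 7, 6, -4, -4, 0], [0, 0, 6, 6, -2, -4, 0], [4, 0, -2, 0, -2, -4, 0]], [40, -200, 0, 0, 0]⟩, ⟨15, [[4, 4, 0, 4, 4], [0, 16, 2, 4, 4], [0, 0, 4, 0, 0], [0, 0, 0, 8, 4], [0, 0, 0, 0, 8]], [[0, 0, 2, 0, 0, 0, 0], [-1, 3, -2, 0, 3, 3, 4], [-7, 6, 1, 0, -4, -4, -2], [-7, 0, 0, 0, -3, -3, -2], [4, 0, 0, 0, 0, 0, -2]], [[-1, 0, -2, -4, 0, 0, 0], [0, 0, 2, 4, -3, -4, -2], [-2, 2, -1, -2, 4, 5, 1], [0, 2, 0, 0, 3, 4, 1], [0, -1, 0, 0, 0,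 0, 1]], [0, -16, 0, 0, 0]⟩, ⟨20, [[1, 9, 1, 3, 3], [0, 24, 1, 6, 0], [0, 0, 2, 0, 0], [0, 0, 0, 12, 0], [0, 0, 0, 0, 6]], [[-8, 9, 4, 8, 4, 4, -8], [2, -1, -8, 6, -6, 9, 2], [3, -4, 2, -7, 9, -3, -7], [1, -2, -7, 5, -4, 6, -9], [4, -5, -2, -4, 8, -2, 1]], [[0, 0, -20, -36, -4, -6, 0], [0, 0, 0, -4, 0, -3, 0], [0, 0, 10, 20, -2, 0, 3], [0, 0, 0, -4, 0, -2, 3], [0, 0, 10, 18, -2, 0, 1]], [-8, -24, 0, 0, 0]⟩, ⟨30, [[2, 2, 0, 2, 2], [0, 8, 1, 2, 2], [0, 0, 2, 0, 0], [0, 0, 0, 4, 2], [0, 0, 0, 0, 4]], [[0, -15, 4, -2, 0, 0, 0], [-2, 6, -4, 2, 0, -1, -2], [-14, 12, 2, -1, 1, 0, 1], [-14, 0, 0, 0, 0, 1, 1], [-7, 0, 0, 0, 0, 0, 1]], [[1, 0, 0, 0, 0, 0, 0], [0, 0, 0, 0, 0, 0, 0], [-2, 2, 0, 0, 0,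 0, 0], [0, 2, 0, 0, 0, 0, 0], [0, 1, 0, 0, 0, 0, 0]], [0, -16, 0, 0, 0]⟩, ⟨60, [[1, 1, 0, 1, 1], [0, 8, 1, 2, 0], [0, 0, 2, 0, 0], [0, 0, 0, 4, 0], [0, 0, 0, 0, 2]], [[-8, 9, -4, 0, 0, -4, -8], [2, -6, 2, 0, 0, 1, 2], [-1, 3, -1, 0, 1, -1, -1], [1, 0, 0, 0, 0, 1, 1], [4, -6, 2, 0, 0, 2, 5]], [[0, 0, 0, 0, 0, 0, 0], [0, 0, 0, 0, 0, 0, 0], [0, 0, 0, 0, 0, 0, 0], [0, 0, 0, 0, 0, 0, 0], [0, 0, 0, 0, 0, 0, 0]], [-8, 8, 0, 0, 0]⟩]⟩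

theorem b33_ok : chkBad b33 = true := by decide +kernel

def b34 : BCert :=
  ⟨[[0, 1, 0, 0, 0, 0, 0], [1, 0, 0, 0, 0, 0, 0], [0, 0, 10, 5, 0, 0, 0], [0, 0, 5, 10, 0, 0, 0], [0, 0, 0, 0, 8, 1, 0], [0, 0, 0, 0, 1, 2, 0], [0, 0, 0, 0, 0, 0, 1]], 15, [[0, 15, 0, 0, 0, 0, 0], [15, 0, 0, 0, 0, 0, 0], [0, 0, 2, -1, 0, 0, 0], [0, 0, -1, 2, 0, 0, 0], [0, 0, 0, 0, 2, -1, 0], [0, 0, 0, 0, -1, 8, 0], [0, 0, 0, 0, 0, 0, 15]], [3, -7, 2, -1, 1, 0, 2], 1, [-7, 3, 15, 0, 8, 1, 2], [[0, -10, 2, -1, 0, 0, 0], [0, 0, 0, 1, 0, 0, 0], [0, -5, 0, 0, 2, -1, 0], [0, -1, 0, 0, 0, 3, 0], [0, -2, 0, 0, 0, 0, 3]], 90, [3, 9, 3, 5, 10], [0, 0, 1, 0, 0], [30, 0, 0, 0, 0, 0, 0], 1, [⟨1, [[10, 10, 20, 4, 2], [0, 20, 0,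 0, 0], [0, 0, 30, 6, 12], [0, 0, 0, 12, 6], [0, 0, 0, 0, 18]], [[0, 0, 0, 0, 0, 0, 0], [0, 0, 0, 0, 0, 0, 0], [0, 0, 0, 0, 0, 0, 0], [0, 0, 0, 0, 0, 0, 0], [0, 0, 0, 0, 0, 0, 0]], [[-2, 0, 3, 0, 0, 0, 0], [1, 0, -1, 1, 0, 0, 0], [1, 0, -2, 0, 1, 0, 0], [7, -3, -15, 0, -8, 0, -2], [-3, 1, 6, 0, 2, 0, 1]], [0, 0, 0, -12, 0]⟩, ⟨2, [[5, 5, 10, 2, 1], [0, 10, 0, 0, 0], [0, 0, 15, 3, 6], [0, 0, 0, 6, 3], [0, 0, 0, 0, 9]], [[0, 0, 0, 0, 0, 0, 0], [0, -1, 0, 0, 0, 0, 0], [0, -1, 0, 0, 0, -1, 0], [-1, -1, 0, 0, 0, 0, 0], [-1, -1, 0, 0, 0, 0, -1]], [[-2, 0, 3, 0, 0, 0, 0], [2, 0, -1, 1, 0, 0, 0], [2, 0, -2, 0, 2, 2, 0], [8, -2, -15, 0, -8, 0, -2], [-2, 2, 6, 0, 2, 0, 2]], [0, 0, 0, -12, 0]⟩, ⟨3, [[10,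 10, 0, 0, 12], [0, 20, 0, 0, 0], [0, 0, 10, 2, 4], [0, 0, 0, 4, 14], [0, 0, 0, 0, 18]], [[0, 1, 0, 0, 0, -1, -1], [0, 1, 0, -1, 0, -1, -1], [0, -1, 0, 0, 0, 1, 1], [0, 0, 0, 0, 0, 0, 0], [-1, 1, 0, 0, 0, 1, -1]], [[-6, 2, 11, 0, 6, 2, 2], [2, -1, -2, 7, -2, 1, 0], [-2, 1, 5, 0, 3, -1, 0], [0, 0, 0, 0, 0, 1, 0], [6, -2, -14, 0, -8, -3, -1]], [20, 0, 10, 2, -20]⟩, ⟨5, [[2, 2, 4, 8, 4], [0, 4, 0, 0, 0], [0, 0, 6, 6, 12], [0, 0, 0, 12, 6], [0, 0, 0, 0, 18]], [[0, 0, 0, 0, 0, 0, 0], [0, 0, 0, 0, 0, 0, 0], [0, 0, 0, 0, 0, 0, 0], [-1, 1, 0, 0, 0, -2, 1], [2, -1, 0, 0, 0, -1, -1]], [[-16, 6, 33, 0, 16, 2, 4], [8, -3, -16, 1, -8, -1, -2], [8, -3, -17, 0, -7, -1, -2], [6, -2, -13, 0, -6, 1, -2], [-2,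 0, 5, 0, 2, 1, 1]], [20, 0, 10, 2, -20]⟩, ⟨6, [[5, 5, 0, 0, 6], [0, 10, 0, 0, 0], [0, 0, 5, 1, 2], [0, 0, 0, 2, 7], [0, 0, 0, 0, 9]], [[0, -2, -3, 0, 0, 0, 0], [0, 1, -1, 0, 0, 0, 0], [0, -1, 0, 0, 0, -3, 0], [-3, -3, -3, 0, 0, 0, 0], [1, -3, -3, 0, 0, 0, -1]], [[0, 0, 11, 5, 0, 0, 0], [0, 0, 3, 2, 0, 0, 0], [0, 0, 0, 0, 2, 2, 0], [8, -2, -5, 5, -8, 0, -2], [-4, 2, 21, 5, 6, 0, 2]], [0, 0, 0, -12, 0]⟩, ⟨10, [[1, 1, 2, 4, 2], [0, 2, 0, 0, 0], [0, 0, 3, 3, 6], [0, 0, 0, 6, 3], [0, 0, 0, 0, 9]], [[0, 0, 0, 3, 0, 0, 0], [0, -5, 0, -1, 0, 0, 0], [-3, 2, 0, -5, 0, -3, -2], [3, -3, 0, 2, 0, -4, 2], [1, -5, 0, 2, 0, 0, 1]], [[-2, 0, 0, -6, 0, 0, 0], [2, 0, 0, 3, 0, 0, 0], [2, 0, 0, 10, 0, 1, 0],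 [0, 0, 0, -4, 2, 2, 0], [0, 0, 0, -4, 0, 0, 0]], [0, 0, -6, 6, 0]⟩, ⟨15, [[2, 2, 0, 0, 6], [0, 4, 0, 0, 0], [0, 0, 2, 2, 10], [0, 0, 0, 4, 14], [0, 0, 0, 0, 18]], [[0, -5, 0, -3, 0, 0, 0], [0, -5, 0, 1, 0, 0, 0], [-3, -3, 0, 6, 0, 7, -2], [-6, 5, 0, -3, 0, 1, 1], [-7, 1, 0, 0, 0, 7, -7]], [[0, 0, 3, 4, 0, 0, 0], [1, 0, -1, -1, 0, 0, 0], [1, 0, -6, -8, -1, -2, 0], [-1, 1, 3, 4, 0, 0, 0], [0, 1, 0, 0, -1, -2, 1]], [0, 0, -4, 0, 0]⟩, ⟨30, [[1, 1, 0, 0, 3], [0, 2, 0, 0, 0], [0, 0, 1, 1, 5], [0, 0, 0, 2, 7], [0, 0, 0, 0, 9]], [[-3, -3, 0, 0, -1, 0, -2], [3, -2, 1, 0, 1, 0, 2], [0, -5, 0, 0, 2, -1, 0], [0, 2, 0, 0, -1, 2, 0], [1, 2, 0, 0, 0, -1, 1]], [[0, 0, 0, 0, 0, 0, 0], [0, 0, 0, 0, 0, 0, 0],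 [0, 0, 0, 0, 0, 0, 0], [0, 0, 0, 0, 0, 0, 0], [0, 0, 0, 0, 0, 0, 0]], [-2, 2, 0, 0, 0]⟩]⟩

theorem b34_ok : chkBad b34 = true := by decide +kernel

def b35 : BCert :=
  ⟨[[0, 2, 0, 0, 0, 0, 0], [2, 0, 0, 0, 0, 0, 0], [0, 0, 10, 5, 0, 0, 0], [0, 0, 5, 10, 0, 0, 0], [0, 0, 0, 0, 8, 1, 0], [0, 0, 0, 0, 1, 2, 0], [0, 0, 0, 0, 0, 0, 1]], 30, [[0, 15, 0, 0, 0, 0, 0], [15, 0, 0, 0, 0, 0, 0], [0, 0, 4, -2, 0, 0, 0], [0, 0, -2, 4, 0, 0, 0], [0, 0, 0, 0, 4, -2, 0], [0, 0, 0, 0, -2, 16, 0], [0, 0, 0, 0, 0, 0, 30]], [2, -2, 1, 0, 0, 1, 2], 1, [-4, 4, 10, 5, 1, 2, 2], [[0, -15, 8, -4, 0, 0, 0], [0, -5, 0, 4, 0, 0, 0], [0, 0, 0, 0, 2, -1, 0], [0, -1, 0, 0, 0, 2, 0], [0, -1, 0, 0, 0, 0, 2]], 480, [1, 3,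 16, 60, 120], [-1, -1, 0, 20, 0], [240, 0, 0, 0, 0, 0, 0], 1, [⟨1, [[60, 20, 0, 4, 4], [0, 80, 30, 4, 4], [0, 0, 60, 0, 0], [0, 0, 0, 8, 4], [0, 0, 0, 0, 8]], [[0, 0, 0, 0, 0, 0, 0], [0, 0, 0, 0, 0, 0, 0], [0, 0, 0, 0, 0, 0, 0], [0, 0, 0, 0, 0, 0, 0], [0, 0, 0, 0, 0, 0, 0]], [[-1, 0, 2, 0, 0, 0, 0], [0, 0, 0, 1, 0, 0, 0], [2, -2, -5, -3, 0, -1, -1], [2, -2, -6, -3, 0, 0, -1], [-1, 1, 2, 1, 0, 0, 1]], [0, 0, -30, -4, 0]⟩, ⟨2, [[30, 10, 0, 2, 2], [0, 40, 15, 2, 2], [0, 0, 30, 0, 0], [0, 0, 0, 4, 2], [0, 0, 0, 0, 4]], [[0, 0, 0, 0, 0, 0, 0], [0, 0, 0, 0, 0, 0, 0], [0, 0, 0, 0, 0, 0, -1], [0, 0, 0, 0, 0, 0, -1], [0, 0, 0, 0, 0, 0, -1]], [[-1, 0, 2, 0, 0, 0, 0], [0, 0, 0, 1, 0, 0, 0], [2, -2,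 -5, -3, 0, -1, 0], [2, -2, -6, -3, 0, 0, 0], [-1, 1, 2, 1, 0, 0, 2]], [0, 0, -30, -4, 0]⟩, ⟨3, [[20, 60, 0, 4, 4], [0, 80, 10, 4, 4], [0, 0, 20, 0, 0], [0, 0, 0, 8, 4], [0, 0, 0, 0, 8]], [[0, 0, 0, 0, 0, 0, 0], [0, -1, 0, -1, 0, 0, 0], [0, -1, 0, -1, 0, 0, 0], [1, -1, 0, 0, 0, 0, 1], [1, -1, 0, -1, 0, 0, -1]], [[-1, 0, 2, 0, 0, 0, 0], [2, 0, 2, 7, 0, 0, 0], [3, -2, -1, 4, 0, -1, -1], [2, -2, -2, -1, 0, 0, -1], [1, -1, 4, 7, 0, 0, 1]], [0, 0, -30, -4, 0]⟩, ⟨4, [[15, 5, 0, 1, 1], [0, 40, 15, 2, 0], [0, 0, 30, 0, 0], [0, 0, 0, 4, 0], [0, 0, 0, 0, 2]], [[0, -1, 0, 0, 0, 0, 0], [0, 0, 1, 0, 0, 0, 0], [-1, 1, -1, -1, -1, 0, -1], [-1, 1, 1, -2, 0, 0, -1], [0, 0, 0, -2, 0, 0, 1]], [[0, 0, 2, 0, 0,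 0, 0], [0, 0, -5, -2, 0, 0, 0], [0, 0, 5, 6, 4, 0, 0], [0, 0, -3, 6, 0, 0, 0], [0, 0, 4, 10, 0, 0, 0]], [0, 0, -30, -4, 0]⟩, ⟨5, [[12, 4, 0, 4, 4], [0, 16, 6, 4, 4], [0, 0, 12, 0, 0], [0, 0, 0, 8, 4], [0, 0, 0, 0, 8]], [[0, 0, 0, 0, 0, 0, 0], [-1, 1, 0, 0, 0, 2, -1], [-2, 2, 0, 0, 0, -1, -2], [-2, 0, 0, 0, 0, -2, -2], [-1, 0, 0, 0, 0, 0, -2]], [[-1, 0, 2, 0, 0, 0, 0], [0, 0, -2, 0, -1, -2, 0], [-2, 2, 1, 0, 1, 1, 1], [0, 2, 0, 0, 1, 2, 1], [0, 1, 0, 0, 0, 0, 1]], [0, -16, 0, 0, 0]⟩, ⟨6, [[10, 30, 0, 2, 2], [0, 40, 5, 2, 2], [0, 0, 10, 0, 0], [0, 0, 0, 4, 2], [0, 0, 0, 0, 4]], [[0, -3, 0, 0, 0, 0, 0], [0, -2, 2, 0, 0, 0, 0], [-2, -3, 1, 0, 0, 2, 1], [2, -2, 0, 0, 0, 0, -1], [-1, 1, 2, 0, 0,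 0, 1]], [[1, 0, 2, 0, 0, 0, 0], [2, 0, -8, -3, 0, 0, 0], [1, 2, -1, -1, 0, -1, 0], [2, -2, -2, -1, 0, 0, 0], [-1, 1, -6, -3, 0, 0, 0]], [0, 0, 10, -4, 0]⟩, ⟨10, [[6, 2, 0, 2, 2], [0, 8, 3, 2, 2], [0, 0, 6, 0, 0], [0, 0, 0, 4, 2], [0, 0, 0, 0, 4]], [[0, 0, 0, 2, 0, 0, 0], [-2, 2, 0, -2, 0, -1, -2], [-4, 4, 0, 1, 0, 3, 1], [-4, 0, 0, 0, 0, 1, 1], [-2, 0, 0, 0, 0, 0, 1]], [[-1, 0, 0, -4, 0, 0, 0], [0, 0, 0, 4, 0, 0, 0], [-2, 2, 0, -2, 0, -1, 0], [0, 2, 0, 0, 0, 0, 0], [0, 1, 0, 0, 0, 0, 0]], [0, -16, 0, 0, 0]⟩, ⟨12, [[5, 15, 5, 1, 1], [0, 40, 5, 2, 0], [0, 0, 10, 0, 0], [0, 0, 0, 4, 0], [0, 0, 0, 0, 2]], [[0, -3, 4, 4, 0, 0, 0], [0, 1, -1, -6, 0, 0, 0], [1, 0, 4, 3, -1, -2, 1], [-1, 1, 3, 0,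 0, 0, -1], [0, 1, 4, -2, 0, 0, 1]], [[0, 0, -8, -10, 0, 0, 0], [0, 0, 6, 11, 0, 0, 0], [0, 0, -9, -8, 2, 1, 0], [0, 0, -6, -3, 0, 0, 0], [0, 0, -6, 0, 0, 0, 0]], [0, 0, 10, -4, 0]⟩, ⟨15, [[4, 12, 0, 4, 4], [0, 16, 2, 4, 4], [0, 0, 4, 0, 0], [0, 0, 0, 8, 4], [0, 0, 0, 0, 8]], [[-4, 4, 0, 2, 0, -2, -4], [3, 7, 0, -2, 0, -6, 3], [6, 4, 0, 1, 0, 3, 6], [-7, 0, 0, 0, 0, -7, -7], [4, 0, 0, 0, 0, 0, -7]], [[-1, 0, -2, -4, 0, 0, 0], [-2, 0, 2, 4, 1, 2, 0], [-1, -2, -1, -2, 0, -1, -1], [0, 2, 0, 0, 1, 2, 1], [0, -1, 0, 0, 0, 0, 1]], [-16, 0, 0, 0, 0]⟩, ⟨20, [[3, 1, 0, 1, 1], [0, 8, 3, 2, 0], [0, 0, 6, 0, 0], [0, 0, 0, 4, 0], [0, 0, 0, 0, 2]], [[0, -5, -8, 0, 0, 0, 0], [-2, 2, 4, -10, 0, -1, -2], [1,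 -1, -2, 5, -1, -9, 1], [1, 0, 0, 0, 0, 1, 1], [0, 2, 4, -10, 0, 0, 1]], [[0, 0, 10, 4, 0, 0, 0], [0, 0, 0, 8, 0, 0, 0], [0, 0, 0, -4, 2, 2, 0], [0, 0, 0, 0, 0, 0, 0], [0, 0, 0, 8, 0, 0, 0]], [0, -16, 0, 0, 0]⟩, ⟨30, [[2, 6, 0, 2, 2], [0, 8, 1, 2, 2], [0, 0, 2, 0, 0], [0, 0, 0, 4, 2], [0, 0, 0, 0, 4]], [[0, -15, 4, -2, 0, 0, 0], [-2, -8, -4, 2, 0, -1, -2], [-14, -11, 2, -1, 1, 0, 1], [-14, 0, 0, 0, 0, 1, 1], [-7, 0, 0, 0, 0, 0, 1]], [[1, 0, 0, 0, 0, 0, 0], [2, 0, 0, 0, 0, 0, 0], [1, 2, 0, 0, 0, 0, 0], [0, 2, 0, 0, 0, 0, 0], [0, 1, 0, 0, 0, 0, 0]], [0, -16, 0, 0, 0]⟩, ⟨60, [[1, 3, 1, 1, 1], [0, 8, 1, 2, 0], [0, 0, 2, 0, 0], [0, 0, 0, 4, 0], [0, 0, 0, 0, 2]], [[0, -15, 8, -4, 0, 0, 0], [-2,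 7, -4, 2, 0, -1, -2], [1, 4, -2, 1, 1, 0, 1], [1, 0, 0, 0, 0, 1, 1], [0, 7, -4, 2, 0, 0, 1]], [[0, 0, 0, 0, 0, 0, 0], [0, 0, 0, 0, 0, 0, 0], [0, 0, 0, 0, 0, 0, 0], [0, 0, 0, 0, 0, 0, 0], [0, 0, 0, 0, 0, 0, 0]], [0, -16, 0, 0, 0]⟩]⟩

theorem b35_ok : chkBad b35 = true := by decide +kernel

def b36 : BCert :=
  ⟨[[0, 2, 0, 0, 0, 0, 0], [2, 0, 0, 0, 0, 0, 0], [0, 0, 3, 5, 0, 0, 0], [0, 0, 5, 10, 0, 0, 0], [0, 0, 0, 0, 3, 5, 0], [0, 0, 0, 0, 5, 10, 0], [0, 0, 0, 0, 0, 0, 1]], 10, [[0, 5, 0, 0, 0, 0, 0], [5, 0, 0, 0, 0, 0, 0], [0, 0, 20, -10, 0, 0, 0], [0, 0, -10, 6, 0, 0, 0], [0, 0, 0, 0, 20, -10, 0], [0, 0, 0, 0, -10, 6, 0], [0, 0, 0, 0, 0, 0, 10]], [2, -2, 2, 0, 1, 0, 1], 1, [-4, 4, 6, 10,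 3, 5, 1], [[0, -1, 4, -2, 0, 0, 0], [0, -5, 0, 2, 0, 0, 0], [0, -1, 0, 0, 8, -4, 0], [0, -5, 0, 0, 0, 4, 0], [0, -1, 0, 0, 0, 0, 4]], 160, [20, 4, 5, 1, 10], [-5, 1, 0, 0, 0], [80, 0, 0, 0, 0, 0, 0], 1, [⟨1, [[4, 20, 0, 0, 16], [0, 40, 0, 0, 16], [0, 0, 4, 20, 20], [0, 0, 0, 80, 24], [0, 0, 0, 0, 32]], [[0, 0, 0, 0, 0, 0, 0], [0, 0, 0, 0, 0, 0, 0], [0, 0, 0, 0, 0, 0, 0], [0, 0, 0, 0, 0, 0, 0], [0, 0, 0, 0, 0, 0, 0]], [[-1, 0, 1, 0, 0, 0, 0], [0, 0, 0, 1, 0, 0, 0], [-1, 0, 0, 0, 2, 0, 0], [0, 0, 0, 0, 0, 1, 0], [2, -1, -2, -3, -2, -2, 0]], [0, 0, 0, 0, -8]⟩, ⟨2, [[2, 10, 0, 0, 8], [0, 20, 0, 0, 8], [0, 0, 2, 10, 10], [0, 0, 0, 40, 12], [0, 0, 0, 0, 16]], [[0, 0, 0, 0, 0, 0, 0], [0, 0, 0, 0,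 0, 0, 0], [0, 0, 0, 0, 0, 0, 0], [0, 0, 0, 0, 0, 0, 0], [0, 0, 0, 0, 0, 0, 0]], [[-1, 0, 1, 0, 0, 0, 0], [0, 0, 0, 1, 0, 0, 0], [-1, 0, 0, 0, 2, 0, 0], [0, 0, 0, 0, 0, 1, 0], [2, -1, -2, -3, -2, -2, 0]], [0, 0, 0, 0, -8]⟩, ⟨4, [[1, 5, 1, 5, 1], [0, 20, 0, 0, 0], [0, 0, 2, 10, 2], [0, 0, 0, 40, 4], [0, 0, 0, 0, 8]], [[0, -1, 0, -2, 0, 0, 0], [0, 0, -1, 1, 0, 0, 0], [0, 0, -2, 1, 0, -2, 0], [0, 0, 0, 0, -1, 1, 0], [-1, 1, -1, -2, -1, -1, 0]], [[0, 0, 6, 10, 0, 0, 0], [0, 0, -1, -2, 0, 0, 0], [0, 0, 0, 0, 6, 10, 0], [0, 0, 0, 0, -1, -2, 0], [0, 0, 5, 10, 3, 6, 0]], [0, 0, 0, 0, -8]⟩, ⟨5, [[4, 4, 0, 0, 16], [0, 8, 0, 0, 16], [0, 0, 4, 4, 28], [0, 0, 0, 16, 24], [0, 0, 0, 0, 32]], [[0, 1, 1, 0,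 0, 0, 0], [0, 2, 2, 0, 0, 0, 0], [0, 1, 0, 0, 2, 0, 0], [-1, 2, -1, 0, -1, 0, 2], [2, 0, -2, 0, -1, 0, -2]], [[-1, 0, -1, -2, 0, 0, 0], [-2, 0, -2, -3, 0, 0, 0], [-1, 0, 0, 0, -2, -4, 0], [-1, 0, 0, 0, 1, 2, -1], [0, -1, 3, 5, 1, 2, 1]], [0, 0, 0, -16, 0]⟩, ⟨10, [[2, 2, 0, 0, 8], [0, 4, 0, 0, 8], [0, 0, 2, 2, 14], [0, 0, 0, 8, 12], [0, 0, 0, 0, 16]], [[0, 2, 2, -1, 0, 0, 0], [0, 4, -1, 1, 0, 0, 0], [0, 2, 0, 0, 4, -2, 0], [-2, 4, -2, 0, -2, 1, -1], [4, 0, 1, 0, -2, 1, 1]], [[-1, 0, 0, 0, 0, 0, 0], [-2, 0, 0, 0, 0, 0, 0], [-1, 0, 0, 0, 0, 0, 0], [-1, 0, 0, 0, 0, 0, 0], [0, -1, 0, 0, 0, 0, 0]], [0, 0, 0, -16, 0]⟩, ⟨20, [[1, 1, 1, 5, 1], [0, 4, 0, 0, 0], [0, 0, 2, 2, 6], [0, 0, 0, 8, 4], [0,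 0, 0, 0, 8]], [[0, -1, 4, 6, 0, 0, 0], [0, -1, 9, 7, 0, 0, 0], [-8, 8, 0, -3, 0, 6, -4], [2, -2, -10, -3, -10, -3, 1], [5, -5, -3, -7, -10, -3, 3]], [[0, 0, -4, -8, 0, 0, 0], [0, 0, -6, -11, 0, 0, 0], [0, 0, -1, -1, -4, -8, 0], [0, 0, 5, 9, 5, 9, 0], [0, 0, 6, 11, 5, 9, 0]], [0, 0, -16, 0, 0]⟩]⟩

theorem b36_ok : chkBad b36 = true := by decide +kernel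

def b37 : BCert :=
  ⟨[[0, 2, 0, 0, 0, 0, 0], [2, 0, 0, 0, 0, 0, 0], [0, 0, 3, 1, 0, 0, 0], [0, 0, 1, 2, 0, 0, 0], [0, 0, 0, 0, 3, 1, 0], [0, 0, 0, 0, 1, 2, 0], [0, 0, 0, 0, 0, 0, 5]], 10, [[0, 5, 0, 0, 0, 0, 0], [5, 0, 0, 0, 0, 0, 0], [0, 0, 4, -2, 0, 0, 0], [0, 0, -2, 6, 0, 0, 0], [0, 0, 0, 0, 4, -2, 0], [0, 0, 0, 0, -2, 6, 0], [0, 0, 0, 0, 0, 0, 2]], [2, -1, 0, 0, 1, 0, 1], 1, [-2, 4, 0, 0, 3, 1, 5], [[0, 0, 2, -1, 0, 0, 0], [0, 0, 0, 1, 0, 0, 0], [0, -5, 0, 0, 8, -4, 0], [0, -1, 0, 0, 0, 4, 0], [0, -5, 0, 0, 0, 0, 4]], 160, [16, 80, 1, 5, 2], [0, 0, -1, 3, 2], [80, 0, 0, 0, 0, 0, 0], 1, [⟨1, [[10, 2, 0, 0, 0], [0, 4, 0, 0, 0], [0, 0, 20, 4, 100], [0, 0, 0, 16, 120], [0, 0, 0, 0, 160]],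 [[0, 0, 0, 0, 0, 0, 0], [0, 0, 0, 0, 0, 0, 0], [0, 0, 0, 0, 0, 0, 0], [0, 0, 0, 0, 0, 0, 0], [0, 0, 0, 0, 0, 0, 0]], [[0, 0, 1, 0, 0, 0, 0], [0, 0, 0, 1, 0, 0, 0], [-1, 0, 0, 0, 2, 0, 0], [2, -4, 0, 0, -3, 0, -5], [-1, 3, 0, 0, 1, 0, 4]], [0, 0, 0, -16, 0]⟩, ⟨2, [[5, 1, 0, 0, 0], [0, 2, 0, 0, 0], [0, 0, 10, 2, 50], [0, 0, 0, 8, 60], [0, 0, 0, 0, 80]], [[0, 0, 0, -1, 0, 0, 0], [0, 0, 0, 0, 0, 0, 0], [0, 0, 0, 0, 0, 0, 0], [0, 0, 0, 0, 0, -1, 0], [0, 0, 0, 0, 0, -1, 0]], [[0, 0, 2, 2, 0, 0, 0], [0, 0, 0, 1, 0, 0, 0], [-1, 0, 0, 0, 2, 0, 0], [2, -4, 0, 0, -2, 2, -5], [-1, 3, 0, 0, 2, 2, 4]], [0, 0, 0, -16, 0]⟩, ⟨4, [[5, 1, 0, 0, 0], [0, 2, 0, 0, 0], [0, 0, 5, 1, 25], [0, 0, 0, 8, 20], [0, 0,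 0, 0, 40]], [[0, 0, -2, -1, 0, 0, 0], [0, 0, 1, 1, 0, 0, 0], [-2, 0, 0, 0, 1, -2, -1], [0, 0, 0, 0, 1, 1, 0], [1, 0, 0, 0, -2, 1, -1]], [[0, 0, 4, 2, 0, 0, 0], [0, 0, -2, -1, 0, 0, 0], [0, 0, 0, 0, 0, 1, 0], [0, 0, 0, 0, -2, -1, 0], [0, 0, 0, 0, 2, 0, 4]], [0, 0, -10, -2, -10]⟩, ⟨5, [[2, 2, 0, 0, 0], [0, 4, 0, 0, 0], [0, 0, 4, 4, 12], [0, 0, 0, 16, 24], [0, 0, 0, 0, 32]], [[0, 0, 0, 0, 0, 0, 0], [0, 0, 0, -1, 0, 0, 0], [1, 2, 0, 0, 0, -1, 0], [1, 1, 0, 0, 0, -2, 0], [2, 1, 0, 0, 0, 0, 0]], [[0, 0, 1, 0, 0, 0, 0], [0, 0, 0, 1, 0, 0, 0], [-1, -4, 0, 0, 0, 0, -4], [-1, 0, 0, 0, 1, 2, 1], [-1, -1, 0, 0, 0, 0, 1]], [0, 0, -16, 0, 0]⟩, ⟨10, [[1, 1, 0, 0, 0], [0, 2, 0, 0, 0], [0, 0, 2, 2, 6], [0,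 0, 0, 8, 12], [0, 0, 0, 0, 16]], [[0, 0, 2, -1, 0, 0, 0], [0, 0, -1, 1, 0, 0, 0], [0, 0, 0, 0, 4, -2, 0], [-2, 4, 0, 0, -2, 1, -1], [4, 2, 0, 0, 0, 0, 1]], [[0, 0, 0, 0, 0, 0, 0], [0, 0, 0, 0, 0, 0, 0], [-1, 0, 0, 0, 0, 0, 0], [-1, 0, 0, 0, 0, 0, 0], [-1, -1, 0, 0, 0, 0, 0]], [0, 0, 0, -16, 0]⟩, ⟨20, [[1, 1, 0, 0, 0], [0, 2, 0, 0, 0], [0, 0, 1, 5, 1], [0, 0, 0, 8, 4], [0, 0, 0, 0, 8]], [[0, 0, 2, -1, 0, 0, 0], [0, 0, -1, 1, 0, 0, 0], [-10, 0, 0, 0, 3, -4, -5], [6, 0, 0, 0, -2, 3, 3], [-3, 0, 0, 0, 0, -1, -1]], [[0, 0, 0, 0, 0, 0, 0], [0, 0, 0, 0, 0, 0, 0], [0, 0, 0, 0, 0, 0, 0], [0, 0, 0, 0, 0, 0, 0], [0, 0, 0, 0, 0, 0, 0]], [0, 0, -10, -2, -10]⟩]⟩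

theorem b37_ok : chkBad b37 = true := by decide +kernel

def b38 : BCert :=
  ⟨[[0, 1, 0, 0, 0, 0, 0], [1, 0, 0, 0, 0, 0, 0], [0, 0, 2, 3, 0, 0, 0], [0, 0, 3, 6, 0, 0, 0], [0, 0, 0, 0, 2, 0, 0], [0, 0, 0, 0, 0, 2, 0], [0, 0, 0, 0, 0, 0, 42]], 42, [[0, 42, 0, 0, 0, 0, 0], [42, 0, 0, 0, 0, 0, 0], [0, 0, 84, -42, 0, 0, 0], [0, 0, -42, 28, 0, 0, 0], [0, 0, 0, 0, 21, 0, 0], [0, 0, 0, 0, 0, 21, 0], [0, 0, 0, 0, 0, 0, 1]], [3, -8, 1, 0, 1, 1, 1], 1, [-8, 3, 2, 3, 2, 2, 42], [[0, -1, 6, -3, 0, 0, 0], [0, -1, 0, 1, 0, 0, 0], [0, -2, 0, 0, 3, 0, 0], [0, -2, 0, 0, 0, 3, 0], [0, -14, 0, 0, 0, 0, 1]], 126, [7, 21, 7, 7, 3], [-1, -3, 1, 1, 0], [42, 0, 0, 0, 0, 0, 0], 1, [⟨2, [[1, 1, 2, 14, 14], [0, 6,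 0, 0, 0], [0, 0, 6, 12, 0], [0, 0, 0, 18, 0], [0, 0, 0, 0, 42]], [[-1, -1, 0, 0, 0, 0, 0], [0, 0, 0, 0, 0, 0, 0], [-1, 0, 0, 0, 0, 0, 0], [-1, 0, 0, 0, 0, 0, 0], [-1, 0, 0, 0, 0, 0, 0]], [[-24, 10, 9, 9, 6, 6, 126], [0, 0, 0, 1, 0, 0, 0], [8, -2, -3, -3, -1, -2, -42], [14, -4, -5, -5, -4, -3, -70], [8, -2, -3, -3, -2, -2, -41]], [6, 6, 0, 0, 0]⟩, ⟨4, [[1, 1, 2, 5, 14], [0, 6, 0, 0, 0], [0, 0, 3, 6, 0], [0, 0, 0, 9, 0], [0, 0, 0, 0, 21]], [[0, -1, -2, 1, 0, 0, 0], [0, 0, -1, -2, 0, 0, 0], [1, 0, -1, -2, 0, -1, 0], [-2, -1, 0, -1, 0, 1, 0], [0, 0, 0, -2, 0, 0, 0]], [[0, 0, 2, 0, 0, 0, 0], [0, 0, 4, 8, 0, 0, 0], [4, -2, 2, 6, 0, 0, -21], [-2, 2, 2, 4, 0, 0, 14], [0, 0, 2, 6, 0, 0, 1]], [0, 0,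 -6, 0, 0]⟩, ⟨6, [[1, 1, 2, 2, 0], [0, 2, 0, 0, 14], [0, 0, 6, 0, 28], [0, 0, 0, 6, 28], [0, 0, 0, 0, 42]], [[0, -1, 0, -3, 0, 0, 0], [-3, 2, 2, 2, 2, 2, 0], [0, 0, -2, 1, -1, 0, 0], [0, 0, -2, 1, 0, -1, 0], [1, -3, -2, -2, 0, 0, 0]], [[0, 0, 4, 6, 0, 0, 0], [2, 0, -4, -6, -2, -2, -14], [0, 0, 0, 0, 1, 0, 0], [0, 0, 0, 0, 0, 1, 0], [0, 0, 4, 6, 0, 0, 5]], [0, -4, 0, 0, 0]⟩, ⟨12, [[1, 1, 2, 2, 0], [0, 2, 0, 0, 14], [0, 0, 3, 0, 14], [0, 0, 0, 3, 14], [0, 0, 0, 0, 21]], [[-3, -1, -3, -3, 3, 3, 0], [3, 0, -6, 2, -3, -3, 0], [-6, 4, -6, 2, -1, -2, 0], [-6, 4, -6, 2, -2, -1, 0], [2, -2, 0, -4, 4, 4, 0]], [[-4, 2, 4, 6, 0, 0, 21], [4, -2, 0, 0, 0, 0, -21], [2, 0, 0, 0, 0, 0, -14], [2, 0, 0, 0, 0,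 0, -14], [-6, 2, 4, 6, 0, 0, 33]], [6, -6, 0, 0, 0]⟩]⟩

theorem b38_ok : chkBad b38 = true := by decide +kernel

def b39 : BCert :=
  ⟨[[0, 1, 0, 0, 0, 0, 0], [1, 0, 0, 0, 0, 0, 0], [0, 0, 2, 1, 0, 0, 0], [0, 0, 1, 2, 0, 0, 0], [0, 0, 0, 0, 6, 0, 0], [0, 0, 0, 0, 0, 6, 0], [0, 0, 0, 0, 0, 0, 14]], 42, [[0, 42, 0, 0, 0, 0, 0], [42, 0, 0, 0, 0, 0, 0], [0, 0, 28, -14, 0, 0, 0], [0, 0, -14, 28, 0, 0, 0], [0, 0, 0, 0, 7, 0, 0], [0, 0, 0, 0, 0, 7, 0], [0, 0, 0, 0, 0, 0, 3]], [4, -5, 3, -1, 1, 1, 1], 1, [-5, 4, 5, 1, 6, 6, 14], [[0, -9, 8, -4, 0, 0, 0], [0, -1, 0, 4, 0, 0, 0], [0, -3, 0, 0, 2, 0, 0], [0, -3, 0, 0, 0, 2, 0], [0, -7, 0, 0, 0, 0, 2]], 672, [7, 21, 28, 28, 12], [7, 21, -28, -28, 36],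 [168, 0, 0, 0, 0, 0, 0], 1, [⟨2, [[3, 3, 9, 9, 49], [0, 16, 0, 0, 28], [0, 0, 12, 0, 28], [0, 0, 0, 12, 28], [0, 0, 0, 0, 56]], [[0, -1, 0, 0, 0, 0, 0], [0, -1, 0, -1, 0, 0, 0], [0, 0, 0, -1, 0, 0, 0], [0, 0, 0, -1, 0, 0, 0], [-1, -1, 0, -1, 0, 0, 0]], [[-2, 0, 4, 0, 0, 0, 0], [4, -2, -2, 2, -3, -3, -7], [2, 0, -2, 2, 1, 0, 0], [2, 0, -2, 2, 0, 1, 0], [0, 2, 2, 2, 1, 1, 4]], [0, -16, 0, 0, 0]⟩, ⟨4, [[3, 3, 3, 3, 21], [0, 8, 0, 0, 14], [0, 0, 6, 0, 42], [0, 0, 0, 6, 42], [0, 0, 0, 0, 56]], [[0, 1, 0, 0, 0, 0, 0], [0, -2, 0, -2, 0, 0, 0], [0, 1, 0, -2, 0, 0, 0], [0, 1, 0, -2, 0, 0, 0], [1, -2, -2, -1, 0, 0, 0]], [[-2, 0, 2, 0, 0, 0, 0], [4, -2, -2, 2, -3, -3, -7], [0, 0, 0, 2, 1, 0, 0], [0,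 0, 0, 2, 0, 1, 0], [0, 0, 4, 2, 0, 0, 2]], [0, -16, 0, 0, 0]⟩, ⟨6, [[1, 1, 3, 3, 35], [0, 16, 0, 0, 28], [0, 0, 4, 0, 28], [0, 0, 0, 4, 28], [0, 0, 0, 0, 56]], [[2, -1, 2, 0, 0, 0, 2], [2, -2, 1, 0, 0, 0, -1], [0, -3, -3, 0, 0, 0, 0], [0, -3, -3, 0, 0, 0, 0], [-3, -3, -1, 0, 0, 0, -2]], [[4, -6, -4, -2, -8, -8, -28], [0, 0, 0, 0, 1, 1, 7], [-2, 4, 4, 2, 7, 6, 14], [-2, 4, 4, 2, 6, 7, 14], [2, 0, 0, 0, -2, -2, 6]], [-8, 8, 0, 0, 0]⟩, ⟨12, [[1, 1, 1, 1, 7], [0, 8, 0, 0, 14], [0, 0, 2, 0, 14], [0, 0, 0, 2, 14], [0, 0, 0, 0, 56]], [[-4, -1, -4, 0, -4, -4, -4], [4, -4, 2, 0, 1, 1, -5], [-4, 5, 2, 0, 3, 2, 2], [-4, 5, 2, 0, 2, 3, 2], [-3, 3, -1, 0, -1, -1, -5]], [[2, -2, 0, 0, 0, 0, 0], [0, 0,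 0, 0, 0, 0, 14], [-2, 2, 0, 0, 0, 0, 0], [-2, 2, 0, 0, 0, 0, 0], [0, 0, 0, 0, 0, 0, 10]], [-8, 8, 0, 0, 0]⟩, ⟨14, [[3, 3, 9, 9, 1], [0, 16, 0, 0, 4], [0, 0, 12, 0, 4], [0, 0, 0, 12, 4], [0, 0, 0, 0, 8]], [[0, -3, -2, -6, 0, 0, 0], [-2, 3, -2, 1, 3, 3, 0], [0, 2, -2, 1, -1, 0, 0], [0, 2, -2, 1, 0, -1, 0], [1, -4, -2, -6, -1, -1, 0]], [[0, 0, 2, 2, 0, 0, 0], [0, 0, 0, 0, -3, -3, -1], [0, 0, 0, 0, 1, 0, 0], [0, 0, 0, 0, 0, 1, 0], [0, 0, 2, 2, 1, 1, 1]], [0, -16, 0, 0, 0]⟩, ⟨28, [[3, 3, 3, 3, 5], [0, 8, 0, 0, 6], [0, 0, 6, 0, 2], [0, 0, 0, 6, 2], [0, 0, 0, 0, 8]], [[0, -3, 12, 8, 0, 0, 0], [-4, 6, -4, 2, 6, 6, -1], [0, 1, 8, 10, -2, 0, 0], [0, 1, 8, 10, 0, -2, 0], [3, -4, 2, -1, -4, -4, 1]],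 [[0, 0, -2, -2, 0, 0, 0], [0, 0, 0, 0, -3, -3, 0], [0, 0, -2, -2, 1, 0, 0], [0, 0, -2, -2, 0, 1, 0], [0, 0, 0, 0, 2, 2, 0]], [0, -16, 0, 0, 0]⟩]⟩

theorem b39_ok : chkBad b39 = true := by decide +kernel

end RH6.BD
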