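import Pool.Agent.RH6.UDef

namespace RH6.BD

def b40 : BCert :=
  ⟨[[0, 1, 0, 0, 0, 0, 0], [1, 0, 0, 0, 0, 0, 0], [0, 0, 2, 3, 0, 0, 0], [0, 0, 3, 6, 0, 0, 0], [0, 0, 0, 0, 2, 0, 0], [0, 0, 0, 0, 0, 10, 0], [0, 0, 0, 0, 0, 0, 10]], 30, [[0, 30, 0, 0, 0, 0, 0], [30, 0, 0, 0, 0, 0, 0], [0, 0, 60, -30, 0, 0, 0], [0, 0, -30, 20, 0, 0, 0], [0, 0, 0, 0, 15, 0, 0], [0, 0, 0, 0, 0, 3, 0], [0, 0, 0, 0, 0, 0, 3]], [3, -4, 1, 0, 1, 1, 1], 1, [-4, 3, 2, 3, 2, 10, 10], [[0, -1, 6, -3, 0, 0, 0], [0, -1, 0, 1, 0, 0, 0], [0, -2, 0, 0, 3, 0, 0], [0, -10, 0, 0, 0, 3, 0], [0, -10, 0, 0, 0, 0, 3]], 90, [5, 15, 5, 1, 1], [-1, -3, 2, 0, 0], [30, 0, 0, 0, 0, 0, 0], 1, [⟨2, [[1, 1, 2, 10, 70], [0, 6, 0, 0, 0], [0,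 0, 6, 0, 30], [0, 0, 0, 30, 60], [0, 0, 0, 0, 90]], [[-1, -1, 0, 0, 0, 0, 0], [0, 0, 0, 0, 0, 0, 0], [-1, 0, 0, 0, 0, 0, 0], [-1, 0, 0, 0, 0, 0, 0], [0, 0, 0, 0, 0, 0, 0]], [[-12, 10, 9, 9, 6, 30, 30], [0, 0, 0, 1, 0, 0, 0], [4, -2, -3, -3, -1, -10, -10], [4, -2, -3, -3, -2, -9, -10], [6, -4, -4, -4, -3, -14, -13]], [6, 6, 0, 0, 0]⟩, ⟨4, [[1, 1, 2, 10, 25], [0, 6, 0, 0, 0], [0, 0, 3, 0, 15], [0, 0, 0, 15, 30], [0, 0, 0, 0, 45]], [[0, -1, -2, 1, 0, 0, 0], [0, 0, -1, -2, 0, 0, 0], [1, 0, -1, -2, 0, 0, 0], [0, 0, 0, -2, 0, 0, 0], [1, -1, 1, 1, 0, 0, 0]], [[0, 0, 2, 0, 0, 0, 0], [0, 0, 4, 8, 0, 0, 0], [2, -2, 2, 6, 0, -5, -5], [0, 0, 2, 6, 0, 1, 0], [0, 0, -2, -4, 0, 1, 2]], [0, 0, -6, 0, 0]⟩, ⟨6,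 [[1, 1, 2, 10, 70], [0, 2, 0, 0, 60], [0, 0, 6, 0, 30], [0, 0, 0, 30, 60], [0, 0, 0, 0, 90]], [[0, -1, 0, -3, 0, 0, 0], [-3, -2, 2, 2, 2, 2, 2], [0, 0, -2, 1, -1, 0, 0], [0, 0, -2, 1, 0, 1, 0], [2, -2, 0, 0, -1, 0, 1]], [[0, 0, 4, 6, 0, 0, 0], [2, 0, -4, -6, -2, -10, -10], [0, 0, 0, 0, 1, 0, 0], [0, 0, 0, 0, 0, -3, 0], [0, 0, 0, 0, 1, 2, -1]], [0, -4, 0, 0, 0]⟩, ⟨10, [[1, 1, 2, 4, 4], [0, 6, 0, 0, 0], [0, 0, 6, 0, 12], [0, 0, 0, 6, 12], [0, 0, 0, 0, 18]], [[-1, -3, -1, -3, -2, 0, 0], [-3, 4, -2, 4, 4, 0, 0], [-3, 4, -3, 1, 2, 0, 0], [4, -3, 4, 2, -2, 0, 0], [4, -5, 4, 2, -4, 0, 0]], [[-2, 2, 4, 6, 2, 6, 6], [0, 0, -2, -4, -2, -2, -2], [0, 0, 0, 0, -1, -2, -2], [2, -2, -4, -6, 0, -3, -4], [0,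 0, -2, -4, 2, 2, 3]], [6, -6, 0, 0, 0]⟩, ⟨12, [[1, 1, 2, 10, 25], [0, 2, 0, 0, 15], [0, 0, 3, 0, 15], [0, 0, 0, 15, 30], [0, 0, 0, 0, 45]], [[-3, -1, -3, -3, 3, -3, -3], [3, 0, -6, 2, -3, 3, 3], [-6, -4, -6, 2, -1, -2, -2], [-6, -4, -6, 2, -2, -3, -2], [4, -5, 3, -1, 1, -6, 5]], [[-2, 2, 4, 6, 0, 10, 10], [2, -2, 0, 0, 0, -10, -10], [2, 0, 0, 0, 0, 0, 0], [2, 0, 0, 0, 0, 2, 0], [0, 0, 0, 0, 0, 12, -6]], [6, -6, 0, 0, 0]⟩, ⟨20, [[1, 1, 2, 1, 7], [0, 6, 0, 0, 0], [0, 0, 3, 0, 6], [0, 0, 0, 3, 6], [0, 0, 0, 0, 9]], [[9, 7, 9, -3, 3, 3, 3], [-3, 4, -2, -6, -1, -1, -1], [-6, 8, -6, 2, -1, -2, -2], [-3, 1, -3, 1, -1, 0, -1], [-1, 3, -1, 7, -1, -1, 0]], [[-2, 0, 0, 0, 0, 0, 0], [0, 0, 2, 4, 0, 0, 0],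 [0, 0, 0, 0, 0, 0, 0], [0, 0, 0, 0, 0, 0, 0], [0, 0, -2, -4, 0, 0, 0]], [6, -6, 0, 0, 0]⟩, ⟨30, [[1, 1, 2, 4, 4], [0, 2, 0, 0, 6], [0, 0, 6, 0, 12], [0, 0, 0, 6, 12], [0, 0, 0, 0, 18]], [[9, -13, 9, -3, -12, -6, -6], [-9, 12, -6, 2, 12, 6, 6], [-3, 4, -3, 1, 7, 2, 2], [-6, 7, -6, 2, -2, 3, 4], [7, -9, 6, -2, 2, -4, -5]], [[0, 0, 0, 0, 2, 6, 6], [0, 0, 0, 0, -2, -6, -6], [0, 0, 0, 0, -1, -2, -2], [0, 0, 0, 0, 0, -3, -4], [0, 0, 0, 0, 0, 4, 5]], [6, -6, 0, 0, 0]⟩, ⟨60, [[1, 1, 2, 1, 7], [0, 2, 0, 0, 6], [0, 0, 3, 0, 6], [0, 0, 0, 3, 6], [0, 0, 0, 0, 9]], [[9, -13, 9, -3, 3, 3, 3], [-9, 12, -6, 2, -3, -3, -3], [-6, 8, -6, 2, -1, -2, -2], [-3, 1, -3, 1, -1, 0, -1], [5, -5, 3, -1, 1, 1, 2]], [[0,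 0, 0, 0, 0, 0, 0], [0, 0, 0, 0, 0, 0, 0], [0, 0, 0, 0, 0, 0, 0], [0, 0, 0, 0, 0, 0, 0], [0, 0, 0, 0, 0, 0, 0]], [6, -6, 0, 0, 0]⟩]⟩

theorem b40_ok : chkBad b40 = true := by decide +kernel

def b41 : BCert :=
  ⟨[[0, 1, 0, 0, 0, 0, 0], [1, 0, 0, 0, 0, 0, 0], [0, 0, 10, 15, 0, 0, 0], [0, 0, 15, 30, 0, 0, 0], [0, 0, 0, 0, 10, 0, 0], [0, 0, 0, 0, 0, 2, 0], [0, 0, 0, 0, 0, 0, 2]], 30, [[0, 30, 0, 0, 0, 0, 0], [30, 0, 0, 0, 0, 0, 0], [0, 0, 12, -6, 0, 0, 0], [0, 0, -6, 4, 0, 0, 0], [0, 0, 0, 0, 3, 0, 0], [0, 0, 0, 0, 0, 15, 0], [0, 0, 0, 0, 0, 0, 15]], [3, -4, 1, 0, 1, 1, 1], 1, [-4, 3, 10, 15, 10, 2, 2], [[0, -5, 6, -3, 0, 0, 0], [0, -5, 0, 1, 0, 0, 0], [0, -10, 0, 0, 3, 0, 0], [0, -2, 0, 0, 0,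 3, 0], [0, -2, 0, 0, 0, 0, 3]], 90, [1, 3, 1, 5, 5], [-1, -3, 2, 0, 0], [30, 0, 0, 0, 0, 0, 0], 1, [⟨2, [[5, 5, 10, 2, 8], [0, 30, 0, 0, 0], [0, 0, 30, 0, 6], [0, 0, 0, 6, 12], [0, 0, 0, 0, 18]], [[0, -1, 0, 0, 0, 0, 0], [0, 0, 0, 0, 0, 0, 0], [0, 0, 0, 0, 0, 0, 0], [-1, 0, 0, 0, 0, 0, 0], [0, -1, 0, 0, 0, 0, 0]], [[0, 0, 3, 0, 0, 0, 0], [0, 0, 0, 1, 0, 0, 0], [0, 0, -1, 0, 1, 0, 0], [-4, 4, 9, 15, 10, 3, 2], [4, -2, -7, -10, -7, -2, -1]], [0, 0, 0, 12, 0]⟩, ⟨4, [[5, 5, 10, 2, 8], [0, 30, 0, 0, 0], [0, 0, 15, 0, 3], [0, 0, 0, 3, 6], [0, 0, 0, 0, 9]], [[0, -1, -2, -1, 0, 0, 0], [0, 0, 1, 0, 0, 0, 0], [0, 0, 0, -2, 0, 0, 0], [1, 0, 1, 0, 0, 0, -1], [-2, -2, -2, -2, 0, 0, 1]], [[0, 0, 19, 30, 0,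 0, 0], [0, 0, -5, -7, 0, 0, 0], [0, 0, 14, 30, 1, 0, 0], [2, -2, -11, -15, -5, 0, 0], [0, 2, 28, 50, 3, 0, 0]], [0, 0, 0, -6, 0]⟩, ⟨6, [[5, 5, 10, 2, 8], [0, 10, 0, 0, 12], [0, 0, 30, 0, 6], [0, 0, 0, 6, 12], [0, 0, 0, 0, 18]], [[0, -1, -3, 0, 0, 0, 0], [0, 0, 0, 0, 0, 0, 0], [0, 0, -1, 0, 1, 0, 0], [-3, 2, -3, 0, -2, -3, -2], [-2, -3, -1, 0, -1, 2, 1]], [[0, 0, 11, 15, 0, 0, 0], [0, 0, 0, 1, 0, 0, 0], [0, 0, 3, 5, -3, 0, 0], [-2, 2, 13, 20, 10, 3, 2], [2, 0, 1, 1, 1, -2, -1]], [0, 0, 0, 12, 0]⟩, ⟨10, [[1, 1, 2, 4, 16], [0, 6, 0, 0, 0], [0, 0, 6, 0, 12], [0, 0, 0, 6, 12], [0, 0, 0, 0, 18]], [[-1, 3, 0, 0, 0, -2, -2], [0, 0, 0, 0, 0, 0, 0], [-3, 4, 0, 0, 0, 4, 4], [4, 1, 0, 0, 0, -4, -2], [-2,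 -5, 0, 0, 0, 4, 2]], [[-4, 2, 9, 9, 6, 2, 2], [0, 0, 0, 1, 0, 0, 0], [0, 0, -3, -3, -1, -2, -2], [2, -2, -6, -6, -4, 1, 0], [2, 0, -2, -2, -2, -2, -1]], [6, 6, 0, 0, 0]⟩, ⟨12, [[5, 5, 10, 2, 8], [0, 10, 0, 0, 3], [0, 0, 15, 0, 3], [0, 0, 0, 3, 6], [0, 0, 0, 0, 9]], [[0, -1, -6, -3, 0, 0, 0], [0, 0, -3, 4, 0, 0, 0], [0, 0, 4, -2, -1, 0, 0], [-3, 4, 3, 4, 5, 0, -1], [2, -2, 3, -6, -3, 0, 1]], [[0, 0, 18, 30, 0, 0, 0], [0, 0, -5, -12, 0, 0, 0], [0, 0, -2, 0, 2, 0, 0], [0, 0, -17, -30, -10, 0, 0], [0, 0, 11, 24, 6, 0, 0]], [0, 0, 0, -6, 0]⟩, ⟨20, [[1, 1, 2, 1, 1], [0, 6, 0, 0, 0], [0, 0, 3, 0, 6], [0, 0, 0, 3, 6], [0, 0, 0, 0, 9]], [[0, -5, -10, 1, 0, 0, 0], [0, 0, 3, -2, 0, 0, 0], [-3, 4, -9, -2,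 0, -1, -1], [0, 1, -10, -7, 0, 1, 0], [2, -3, -4, -3, 0, 0, 1]], [[0, 0, 10, 12, 0, 0, 0], [0, 0, 0, 2, 0, 0, 0], [0, 0, 10, 18, 0, 0, 0], [0, 0, 20, 36, 0, 0, 0], [0, 0, 10, 16, 0, 0, 0]], [0, 0, -6, 0, 0]⟩, ⟨30, [[1, 1, 2, 4, 16], [0, 2, 0, 0, 6], [0, 0, 6, 0, 12], [0, 0, 0, 6, 12], [0, 0, 0, 0, 18]], [[0, -5, 6, -3, 0, 0, 0], [-3, 4, -4, 2, 2, 14, 14], [0, 0, -2, 1, -1, 0, 0], [0, 3, -4, 2, 0, -7, 0], [1, 1, 0, 0, 0, 0, -7]], [[0, 0, 0, 0, 0, 0, 0], [0, 0, 0, 0, -2, -2, -2], [0, 0, 0, 0, 1, 0, 0], [0, 0, 0, 0, 0, 1, 0], [0, 0, 0, 0, 0, 0, 1]], [0, -4, 0, 0, 0]⟩, ⟨60, [[1, 1, 2, 1, 1], [0, 2, 0, 0, 6], [0, 0, 3, 0, 6], [0, 0, 0, 3, 6], [0, 0, 0, 0, 9]], [[9, -17, 9, -3, 3, 3, 3], [-9, 12,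 -6, 2, -3, -3, -3], [-6, 8, -6, 2, -1, -2, -2], [-3, 5, -3, 1, -1, 0, -1], [11, -15, 9, -3, 3, 3, 4]], [[0, 0, 0, 0, 0, 0, 0], [0, 0, 0, 0, 0, 0, 0], [0, 0, 0, 0, 0, 0, 0], [0, 0, 0, 0, 0, 0, 0], [0, 0, 0, 0, 0, 0, 0]], [6, -6, 0, 0, 0]⟩]⟩

theorem b41_ok : chkBad b41 = true := by decide +kernel

def b42 : BCert :=
  ⟨[[0, 1, 0, 0, 0, 0, 0], [1, 0, 0, 0, 0, 0, 0], [0, 0, 2, 3, 0, 0, 0], [0, 0, 3, 6, 0, 0, 0], [0, 0, 0, 0, 2, 0, 0], [0, 0, 0, 0, 0, 42, 0], [0, 0, 0, 0, 0, 0, 42]], 42, [[0, 42, 0, 0, 0, 0, 0], [42, 0, 0, 0, 0, 0, 0], [0, 0, 84, -42, 0, 0, 0], [0, 0, -42, 28, 0, 0, 0], [0, 0, 0, 0, 21, 0, 0], [0, 0, 0, 0, 0, 1, 0], [0, 0, 0, 0, 0, 0, 1]], [3, -15, 3, -1, 0, 1, 1], 3, [-5, 1, 1,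 1, 0, 14, 14], [[0, -1, 2, -1, 0, 0, 0], [0, -1, 0, 1, 0, 0, 0], [0, 0, 0, 0, 1, 0, 0], [0, -14, 0, 0, 0, 1, 0], [0, -14, 0, 0, 0, 0, 1]], 42, [21, 7, 21, 1, 1], [0, 0, 0, 1, 1], [42, 0, 0, 0, 0, 0, 0], 1, [⟨2, [[1, 1, 0, 14, 14], [0, 2, 0, 28, 28], [0, 0, 2, 0, 0], [0, 0, 0, 42, 0], [0, 0, 0, 0, 42]], [[0, -1, 0, 0, 0, 0, 0], [0, 0, 0, 0, 0, 0, 0], [0, 0, 0, 0, 0, 0, 0], [0, 0, 0, 0, 0, 0, 0], [0, 0, 0, 0, 0, 0, 0]], [[0, 0, 1, 0, 0, 0, 0], [0, 0, 1, 3, 0, 0, 0], [0, 0, 0, 0, 1, 0, 0], [0, 0, -1, -2, 0, 1, 0], [0, 0, -1, -2, 0, 0, 1]], [0, 0, 0, 0, 0]⟩, ⟨4, [[1, 1, 0, 14, 14], [0, 2, 0, 7, 7], [0, 0, 1, 0, 0], [0, 0, 0, 21, 0], [0, 0, 0, 0, 21]], [[0, -1, -2, -1, 0, 0, 0], [0, 0, -1, 1, 0,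 0, 0], [0, 0, 0, 0, 1, 0, 0], [0, 0, -1, -1, 0, 0, 0], [0, 0, -1, -1, 0, 0, 0]], [[0, 0, 4, 6, 0, 0, 0], [0, 0, 0, 0, 0, 0, 0], [0, 0, 0, 0, 0, 0, 0], [0, 0, 2, 4, 0, 1, 0], [0, 0, 2, 4, 0, 0, 1]], [0, 0, 0, 0, 0]⟩, ⟨14, [[1, 1, 0, 2, 2], [0, 2, 0, 4, 4], [0, 0, 2, 0, 0], [0, 0, 0, 6, 0], [0, 0, 0, 0, 6]], [[0, -1, -5, -1, 0, 0, 0], [0, 0, -1, 1, 0, 0, 0], [0, 0, 0, 0, -3, 0, 0], [0, -2, -7, -5, 0, 0, 0], [0, -2, -7, -5, 0, 0, 0]], [[0, 0, 2, 3, 0, 0, 0], [0, 0, 0, 0, 0, 0, 0], [0, 0, 0, 0, 1, 0, 0], [0, 0, 4, 7, 0, 1, 0], [0, 0, 4, 7, 0, 0, 1]], [0, 0, 0, 0, 0]⟩, ⟨42, [[1, 1, 0, 0, 4], [0, 2, 0, 0, 2], [0, 0, 2, 0, 0], [0, 0, 0, 2, 4], [0, 0, 0, 0, 6]], [[-3, 14, -1, 0, 0, 0, 0], [3, -15, 2,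 0, 0, 0, 0], [0, 0, 0, 0, -10, 0, 0], [0, -7, 0, 0, 0, 0, 0], [1, -2, 0, 0, 0, 0, 0]], [[0, 0, 0, 0, 0, -2, -2], [0, 0, 0, 0, 0, 2, 2], [0, 0, 0, 0, 1, 0, 0], [0, 0, 0, 0, 0, 1, 0], [0, 0, 0, 0, 0, 0, 1]], [-6, 6, 0, 0, 0]⟩, ⟨84, [[1, 1, 0, 0, 1], [0, 2, 0, 0, 2], [0, 0, 1, 0, 0], [0, 0, 0, 1, 2], [0, 0, 0, 0, 3]], [[-3, 14, -1, 0, 0, -1, -1], [3, -15, 2, 0, 0, 1, 1], [0, 0, 0, 0, 1, 0, 0], [0, -14, 0, 0, 0, 1, 0], [-1, 10, -1, 0, 0, -1, 0]], [[0, 0, 0, 0, 0, 0, 0], [0, 0, 0, 0, 0, 0, 0], [0, 0, 0, 0, 0, 0, 0], [0, 0, 0, 0, 0, 0, 0], [0, 0, 0, 0, 0, 0, 0]], [-6, 6, 0, 0, 0]⟩]⟩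

theorem b42_ok : chkBad b42 = true := by decide +kernel

def b43 : BCert :=
  ⟨[[0, 1, 0, 0, 0, 0, 0], [1, 0, 0, 0, 0, 0, 0], [0, 0, 2, 1, 0, 0, 0], [0, 0, 1, 2, 0, 0, 0], [0, 0, 0, 0, 6, 0, 0], [0, 0, 0, 0, 0, 14, 0], [0, 0, 0, 0, 0, 0, 14]], 42, [[0, 42, 0, 0, 0, 0, 0], [42, 0, 0, 0, 0, 0, 0], [0, 0, 28, -14, 0, 0, 0], [0, 0, -14, 28, 0, 0, 0], [0, 0, 0, 0, 7, 0, 0], [0, 0, 0, 0, 0, 3, 0], [0, 0, 0, 0, 0, 0, 3]], [3, -6, 1, 0, 1, 1, 1], 1, [-6, 3, 2, 1, 6, 14, 14], [[0, -1, 2, -1, 0, 0, 0], [0, -1, 0, 3, 0, 0, 0], [0, -2, 0, 0, 1, 0, 0], [0, -14, 0, 0, 0, 3, 0], [0, -14, 0, 0, 0, 0, 3]], 126, [21, 7, 21, 1, 1], [3, 1, 0, 0, 0], [42, 0, 0, 0, 0, 0, 0], 1, [⟨2, [[1, 1, 2, 14, 14], [0, 6, 0,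 0, 42], [0, 0, 6, 0, 0], [0, 0, 0, 42, 84], [0, 0, 0, 0, 126]], [[0, -1, 0, -1, 0, 0, 0], [-1, 0, 0, 0, 0, 0, 0], [0, 0, 0, -1, 0, 0, 0], [0, 0, 0, -1, 0, 0, 0], [-1, 0, 0, -1, 0, 0, 0]], [[0, 0, 4, 2, 0, 0, 0], [6, -2, -2, 0, -6, -14, -14], [0, 0, 0, 2, 1, 0, 0], [0, 0, 0, 2, 0, 1, 0], [-2, 2, 2, 2, 2, 4, 5]], [0, -12, 0, 0, 0]⟩, ⟨4, [[1, 1, 2, 14, 14], [0, 6, 0, 0, 42], [0, 0, 3, 0, 0], [0, 0, 0, 21, 42], [0, 0, 0, 0, 63]], [[0, -1, -2, -1, 0, 0, 0], [1, -2, 0, -2, 0, 0, 0], [0, 0, 0, -2, 0, 0, 0], [0, 0, 0, -2, 0, 0, 0], [-2, 0, 0, -2, 0, 0, 0]], [[0, 0, 4, 2, 0, 0, 0], [4, -2, 0, 2, -3, -7, -7], [0, 0, 0, 2, 1, 0, 0], [0, 0, 0, 2, 0, 1, 0], [-2, 2, 2, 2, 2, 4, 5]], [0, -12, 0, 0, 0]⟩, ⟨6,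 [[1, 1, 0, 14, 56], [0, 2, 0, 28, 70], [0, 0, 2, 0, 84], [0, 0, 0, 42, 84], [0, 0, 0, 0, 126]], [[0, -1, 2, -1, 0, 0, 0], [-3, 0, 2, 2, 0, 0, 0], [0, -1, 0, 0, 0, 0, 0], [0, 0, 2, -1, 0, 1, 2], [1, -1, 0, 0, 0, 2, 1]], [[0, 0, 0, 0, 0, 0, 0], [6, -2, -4, -2, -6, -14, -14], [0, 0, 0, 0, 1, 0, 0], [-4, 2, 0, 0, 4, 5, 0], [0, 0, 0, 0, 0, -8, -3]], [0, -12, 0, 0, 0]⟩, ⟨12, [[1, 1, 0, 14, 56], [0, 2, 0, 7, 28], [0, 0, 1, 0, 42], [0, 0, 0, 21, 42], [0, 0, 0, 0, 63]], [[0, -1, 2, -1, 0, 0, 0], [3, -6, -4, 2, -3, 3, 3], [0, -2, 0, 0, 1, 0, 0], [3, -6, 0, 0, 1, -4, -5], [2, -2, 0, 0, 0, 4, 5]], [[0, 0, 0, 0, 0, 0, 0], [4, -2, 0, 0, 0, -14, -14], [0, 0, 0, 0, 0, 0, 0], [0, 0, 0, 0, 0, 12, 14], [0, 0,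 0, 0, 0, -8, -10]], [0, -12, 0, 0, 0]⟩, ⟨14, [[1, 1, 2, 2, 8], [0, 6, 0, 0, 6], [0, 0, 6, 0, 0], [0, 0, 0, 6, 12], [0, 0, 0, 0, 18]], [[0, -1, 2, -1, 0, 0, 0], [-3, 6, -6, -4, 6, 0, 0], [0, 0, 4, 5, -1, 0, 0], [0, -2, 4, 5, 0, 0, 0], [1, -1, 0, 0, -2, 0, 0]], [[0, 0, 0, 0, 0, 0, 0], [0, 0, 2, 2, -6, -2, -2], [0, 0, -2, -2, 1, 0, 0], [0, 0, -2, -2, 0, 1, 0], [0, 0, 0, 0, 2, 0, 1]], [0, -12, 0, 0, 0]⟩, ⟨42, [[1, 1, 0, 2, 14], [0, 2, 0, 4, 4], [0, 0, 2, 0, 12], [0, 0, 0, 6, 12], [0, 0, 0, 0, 18]], [[0, -1, 2, -1, 0, 0, 0], [-9, 18, -4, 2, 18, 6, 6], [0, -1, 0, 0, -3, 0, 0], [6, -14, 2, -1, -12, -5, -4], [-2, 6, -2, 1, 6, 2, 1]], [[0, 0, 0, 0, 0, 0, 0], [0, 0, 0, 0, -6, -6, -6], [0, 0, 0, 0, 1,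 0, 0], [0, 0, 0, 0, 4, 5, 4], [0, 0, 0, 0, -2, -2, -1]], [0, -12, 0, 0, 0]⟩]⟩

theorem b43_ok : chkBad b43 = true := by decide +kernel

def b44 : BCert :=
  ⟨[[0, 1, 0, 0, 0, 0, 0], [1, 0, 0, 0, 0, 0, 0], [0, 0, 14, 21, 0, 0, 0], [0, 0, 21, 42, 0, 0, 0], [0, 0, 0, 0, 14, 0, 0], [0, 0, 0, 0, 0, 6, 0], [0, 0, 0, 0, 0, 0, 6]], 42, [[0, 42, 0, 0, 0, 0, 0], [42, 0, 0, 0, 0, 0, 0], [0, 0, 12, -6, 0, 0, 0], [0, 0, -6, 4, 0, 0, 0], [0, 0, 0, 0, 3, 0, 0], [0, 0, 0, 0, 0, 7, 0], [0, 0, 0, 0, 0, 0, 7]], [3, -9, 3, -1, 0, 1, 1], 3, [-3, 1, 7, 7, 0, 2, 2], [[0, -7, 2, -1, 0, 0, 0], [0, -7, 0, 1, 0, 0, 0], [0, 0, 0, 0, 1, 0, 0], [0, -2, 0, 0, 0, 1, 0], [0, -2, 0, 0, 0, 0, 1]], 42, [3, 1, 3, 7, 7], [0, 0,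 0, 1, 1], [42, 0, 0, 0, 0, 0, 0], 1, [⟨2, [[7, 7, 0, 2, 2], [0, 14, 0, 4, 4], [0, 0, 14, 0, 0], [0, 0, 0, 6, 0], [0, 0, 0, 0, 6]], [[0, -1, 0, 0, 0, 0, 0], [0, 0, 0, 0, 0, 0, 0], [0, 0, 0, 0, 0, 0, 0], [0, 0, 0, 0, 0, 0, 0], [0, 0, 0, 0, 0, 0, 0]], [[0, 0, 1, 0, 0, 0, 0], [0, 0, 1, 3, 0, 0, 0], [0, 0, 0, 0, 1, 0, 0], [0, 0, -1, -2, 0, 1, 0], [0, 0, -1, -2, 0, 0, 1]], [0, 0, 0, 0, 0]⟩, ⟨4, [[7, 7, 0, 2, 2], [0, 14, 0, 1, 1], [0, 0, 7, 0, 0], [0, 0, 0, 3, 0], [0, 0, 0, 0, 3]], [[0, -1, -2, 1, 0, 0, 0], [0, 0, 1, 1, 0, 0, 0], [0, 0, 0, 0, 0, 0, 0], [0, 0, 1, -1, 0, 0, 0], [0, 0, 1, -1, 0, 0, 0]], [[0, 0, 4, 0, 0, 0, 0], [0, 0, -17, -30, 0, 0, 0], [0, 0, 0, 0, 1, 0, 0], [0, 0, 3, 10, 0, 1, 0], [0,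 0, 3, 10, 0, 0, 1]], [0, 0, 0, 0, 0]⟩, ⟨6, [[7, 7, 0, 0, 4], [0, 14, 0, 0, 2], [0, 0, 14, 0, 0], [0, 0, 0, 2, 4], [0, 0, 0, 0, 6]], [[-3, 2, 2, 0, 0, 0, 0], [0, 0, -1, 0, 0, 0, 0], [0, 0, 0, 0, -1, 0, 0], [0, -1, 0, 0, 0, 0, 0], [1, -2, 0, 0, 0, 0, 0]], [[-4, 2, -2, -7, 0, 2, 2], [0, 0, 5, 8, 0, 0, 0], [0, 0, 0, 0, 5, 0, 0], [12, -4, -28, -28, 0, -7, -8], [-6, 2, 16, 16, 0, 4, 5]], [42, 42, 0, -48, 12]⟩, ⟨12, [[7, 7, 0, 0, 1], [0, 14, 0, 0, 2], [0, 0, 7, 0, 0], [0, 0, 0, 1, 2], [0, 0, 0, 0, 3]], [[0, -1, 2, 3, 0, 0, 0], [0, 0, 5, 1, 0, 0, 0], [0, 0, 0, 0, 1, 0, 0], [-3, -5, -3, -1, 0, 0, -1], [2, -5, 2, -5, 0, 0, 1]], [[0, 0, -15, -28, 0, 0, 0], [0, 0, -15, -24, 0, 0, 0], [0, 0, 0, 0, -2, 0,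 0], [2, 0, 7, 14, 0, 0, 0], [0, 0, 15, 30, 0, 0, 0]], [0, 0, 0, -6, 0]⟩]⟩

theorem b44_ok : chkBad b44 = true := by decide +kernel

def b45 : BCert :=
  ⟨[[0, 1, 0, 0, 0, 0, 0], [1, 0, 0, 0, 0, 0, 0], [0, 0, 14, 7, 0, 0, 0], [0, 0, 7, 14, 0, 0, 0], [0, 0, 0, 0, 42, 0, 0], [0, 0, 0, 0, 0, 2, 0], [0, 0, 0, 0, 0, 0, 2]], 42, [[0, 42, 0, 0, 0, 0, 0], [42, 0, 0, 0, 0, 0, 0], [0, 0, 4, -2, 0, 0, 0], [0, 0, -2, 4, 0, 0, 0], [0, 0, 0, 0, 1, 0, 0], [0, 0, 0, 0, 0, 21, 0], [0, 0, 0, 0, 0, 0, 21]], [3, -10, 1, 0, 1, 1, 1], 1, [-10, 3, 14, 7, 42, 2, 2], [[0, -7, 2, -1, 0, 0, 0], [0, -7, 0, 3, 0, 0, 0], [0, -14, 0, 0, 1, 0, 0], [0, -2, 0, 0, 0, 3, 0], [0, -2, 0, 0, 0, 0, 3]], 126, [3, 1, 3, 7, 7], [3, 1,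 0, 0, 0], [42, 0, 0, 0, 0, 0, 0], 1, [⟨2, [[7, 7, 14, 2, 8], [0, 42, 0, 0, 6], [0, 0, 42, 0, 0], [0, 0, 0, 6, 12], [0, 0, 0, 0, 18]], [[0, -1, 0, 0, 0, 0, 0], [0, 0, 0, 0, 0, 0, 0], [0, 0, 0, 0, 0, 0, 0], [-1, 0, 0, 0, 0, 0, 0], [0, -1, 0, 0, 0, 0, 0]], [[0, 0, 3, 0, 0, 0, 0], [0, 0, 0, 1, 0, 0, 0], [0, 0, -1, 0, 1, 0, 0], [-10, 4, 13, 7, 42, 3, 2], [8, -2, -10, -5, -28, -2, -1]], [0, 0, 0, 12, 0]⟩, ⟨4, [[7, 7, 14, 2, 8], [0, 42, 0, 0, 6], [0, 0, 21, 0, 0], [0, 0, 0, 3, 6], [0, 0, 0, 0, 9]], [[0, -1, -2, -1, 0, 0, 0], [0, 0, 1, 0, 0, 0, 0], [0, 0, 0, -2, 0, 0, 0], [1, -2, 1, 0, 0, 0, -1], [-2, -2, 0, 0, 0, 0, 1]], [[0, 0, 19, 14, 0, 0, 0], [0, 0, -7, -3, 0, 0, 0], [0, 0, 6, 14, 1, 0, 0], [6,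 -2, -15, -7, -21, 0, 0], [-2, 2, 4, 2, 14, 0, 0]], [0, 0, 0, -6, 0]⟩, ⟨6, [[7, 7, 0, 2, 14], [0, 14, 0, 4, 4], [0, 0, 14, 0, 12], [0, 0, 0, 6, 12], [0, 0, 0, 0, 18]], [[0, -1, 0, -3, 0, 0, 0], [0, 0, 0, 0, 0, 0, 0], [0, -1, 0, 0, 0, 0, 0], [-3, 2, 0, 1, 0, -3, -2], [-2, 2, 0, 1, 0, 2, 1]], [[0, 0, 8, 14, 0, 0, 0], [0, 0, 0, 1, 0, 0, 0], [0, 0, 0, 0, 1, 0, 0], [-4, 2, 2, -3, 14, 3, 2], [2, 0, -6, -6, -10, -2, -1]], [0, 0, 0, 12, 0]⟩, ⟨12, [[7, 7, 0, 2, 5], [0, 14, 0, 1, 7], [0, 0, 7, 0, 6], [0, 0, 0, 3, 6], [0, 0, 0, 0, 9]], [[0, -1, -2, -5, 0, 0, 0], [0, 0, 1, -2, 0, 0, 0], [0, -2, 0, 0, 0, 0, 0], [-3, -2, 0, -4, 0, 0, -1], [2, -5, -5, -5, 0, 0, 1]], [[0, 0, 11, 14, 0, 0, 0], [0, 0, 0, 4, 0,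 0, 0], [0, 0, 0, 0, 1, 0, 0], [2, 0, 2, 8, -7, 0, 0], [0, 0, 19, 18, 4, 0, 0]], [0, 0, 0, -6, 0]⟩, ⟨14, [[1, 1, 2, 2, 2], [0, 6, 0, 0, 6], [0, 0, 6, 0, 0], [0, 0, 0, 6, 12], [0, 0, 0, 0, 18]], [[0, -7, 0, 3, 0, 0, 0], [-3, -4, 0, -2, 0, 6, 6], [0, 0, 0, -1, 0, 0, 0], [0, 2, 0, -1, 0, -3, 0], [1, -4, 0, 1, 0, 0, -3]], [[0, 0, 0, -6, 0, 0, 0], [2, 0, 0, 4, -6, -2, -2], [0, 0, 0, 2, 1, 0, 0], [0, 0, 0, 2, 0, 1, 0], [0, 0, 0, -2, 2, 0, 1]], [0, -12, 0, 0, 0]⟩, ⟨28, [[1, 1, 2, 2, 2], [0, 6, 0, 0, 6], [0, 0, 3, 0, 0], [0, 0, 0, 3, 6], [0, 0, 0, 0, 9]], [[0, -7, -6, -13, 0, 0, 0], [-3, 10, 4, -10, 0, -1, -1], [0, 0, 4, -10, 0, 0, 0], [0, 4, 4, -10, 0, 1, 0], [2, -8, -4, 10, 0, 0, 1]], [[0, 0, 14, 16,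 0, 0, 0], [0, 0, 0, 8, -3, 0, 0], [0, 0, 0, 8, 1, 0, 0], [0, 0, 0, 8, 0, 0, 0], [0, 0, 0, -8, 2, 0, 0]], [0, -12, 0, 0, 0]⟩, ⟨42, [[1, 1, 0, 2, 8], [0, 2, 0, 4, 10], [0, 0, 2, 0, 12], [0, 0, 0, 6, 12], [0, 0, 0, 0, 18]], [[0, -7, 2, -1, 0, 0, 0], [-9, -12, -4, 2, 0, 18, 18], [0, -7, 0, 0, 0, 0, 0], [6, -18, 2, -1, 0, -8, 2], [1, 3, 0, 0, 0, 0, -10]], [[0, 0, 0, 0, 0, 0, 0], [2, 0, 0, 0, -6, -2, -2], [0, 0, 0, 0, 1, 0, 0], [0, 0, 0, 0, 4, 1, 0], [0, 0, 0, 0, 0, 0, 1]], [0, -12, 0, 0, 0]⟩, ⟨84, [[1, 1, 0, 2, 8], [0, 2, 0, 1, 4], [0, 0, 1, 0, 6], [0, 0, 0, 3, 6], [0, 0, 0, 0, 9]], [[0, -7, 2, -1, 0, 0, 0], [-9, 30, -4, 2, -3, -3, -3], [0, -14, 0, 0, 1, 0, 0], [3, -6, 0, 0, 1, 2, 1], [2, 6, 0, 0,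 0, 0, 1]], [[0, 0, 0, 0, 0, 0, 0], [0, 0, 0, 0, 0, 0, 0], [0, 0, 0, 0, 0, 0, 0], [0, 0, 0, 0, 0, 0, 0], [0, 0, 0, 0, 0, 0, 0]], [0, -12, 0, 0, 0]⟩]⟩

theorem b45_ok : chkBad b45 = true := by decide +kernel

def b46 : BCert :=
  ⟨[[0, 1, 0, 0, 0, 0, 0], [1, 0, 0, 0, 0, 0, 0], [0, 0, 2, 3, 0, 0, 0], [0, 0, 3, 6, 0, 0, 0], [0, 0, 0, 0, 10, 0, 0], [0, 0, 0, 0, 0, 10, 0], [0, 0, 0, 0, 0, 0, 10]], 30, [[0, 30, 0, 0, 0, 0, 0], [30, 0, 0, 0, 0, 0, 0], [0, 0, 60, -30, 0, 0, 0], [0, 0, -30, 20, 0, 0, 0], [0, 0, 0, 0, 3, 0, 0], [0, 0, 0, 0, 0, 3, 0], [0, 0, 0, 0, 0, 0, 3]], [3, -6, 3, -1, 1, 1, 1], 1, [-6, 3, 3, 3, 10, 10, 10], [[0, -1, 2, -1, 0, 0, 0], [0, -1, 0, 1, 0, 0, 0], [0, -10, 0, 0, 3, 0, 0],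 [0, -10, 0, 0, 0, 3, 0], [0, -10, 0, 0, 0, 0, 3]], 90, [45, 15, 1, 1, 1], [0, 0, 1, 1, 1], [30, 0, 0, 0, 0, 0, 0], 1, [⟨2, [[1, 1, 10, 10, 10], [0, 2, 20, 20, 20], [0, 0, 30, 0, 60], [0, 0, 0, 30, 60], [0, 0, 0, 0, 90]], [[0, -1, 0, 0, 0, 0, 0], [0, 0, 0, 0, 0, 0, 0], [-1, 0, 0, 0, 0, 0, 0], [0, 0, 0, 0, 0, 0, 0], [0, 0, 0, 0, 0, 0, 0]], [[0, 0, 1, 0, 0, 0, 0], [0, 0, 1, 3, 0, 0, 0], [6, -2, -4, -5, -9, -10, -10], [0, 0, -1, -2, 0, 1, 0], [-4, 2, 3, 4, 6, 6, 7]], [0, 0, -60, 0, 0]⟩, ⟨4, [[1, 1, 10, 10, 10], [0, 2, 5, 5, 5], [0, 0, 15, 0, 30], [0, 0, 0, 15, 30], [0, 0, 0, 0, 45]], [[0, -1, -2, -1, 0, 0, 0], [0, 0, -1, 1, 0, 0, 0], [-1, -2, -2, -2, 0, 0, 0], [0, 0, -1, -1, 0, 0, 0], [-2, 0, -1,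 -1, 0, 0, 0]], [[0, 0, 4, 6, 0, 0, 0], [0, 0, 0, 0, 0, 0, 0], [-2, 2, 6, 10, 6, 5, 5], [0, 0, 2, 4, 0, 1, 0], [2, 0, 2, 4, -4, -4, -3]], [0, 0, 30, 0, 0]⟩, ⟨6, [[1, 1, 0, 0, 30], [0, 2, 0, 0, 60], [0, 0, 10, 10, 70], [0, 0, 0, 30, 60], [0, 0, 0, 0, 90]], [[0, -1, 2, -1, 0, 0, 0], [-3, 0, 2, 2, 2, 2, 2], [0, -1, 0, 0, -3, 0, 0], [0, 0, 0, 0, -1, 1, 0], [2, -3, 2, -1, -1, 0, 1]], [[0, 0, 0, 0, 0, 0, 0], [2, 0, -4, -6, -10, -10, -10], [0, 0, 0, 0, 11, 0, 0], [0, 0, 0, 0, 3, -3, 0], [0, 0, 0, 0, 5, 2, -1]], [0, -4, 0, 0, 0]⟩, ⟨10, [[1, 1, 4, 4, 4], [0, 2, 2, 2, 2], [0, 0, 6, 0, 12], [0, 0, 0, 6, 12], [0, 0, 0, 0, 18]], [[0, -1, -3, -1, 0, 0, 0], [0, 0, -1, 1, 0, 0, 0], [3, 3, 2, -4, 0, 0, 0], [0,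 -1, -1, -3, 0, 0, 0], [-2, -5, -1, -3, 0, 0, 0]], [[0, 0, 2, 3, 0, 0, 0], [0, 0, 0, 0, 0, 0, 0], [-2, 0, 2, 4, 3, 2, 2], [0, 0, 2, 4, 0, 1, 0], [2, 0, 2, 4, -2, -2, -1]], [0, 0, 12, 0, 0]⟩, ⟨12, [[1, 1, 0, 0, 30], [0, 2, 0, 0, 15], [0, 0, 5, 5, 35], [0, 0, 0, 15, 30], [0, 0, 0, 0, 45]], [[-3, 5, -1, 0, 5, 5, 5], [3, -6, 2, 0, -5, -5, -5], [0, -2, 0, 0, -3, 0, 0], [0, 0, 0, 0, 1, -1, 0], [1, 0, 0, 0, 0, -1, -2]], [[0, 0, 0, 0, -10, -10, -10], [0, 0, 0, 0, 10, 10, 10], [0, 0, 0, 0, 6, 0, 0], [0, 0, 0, 0, -2, 2, 0], [0, 0, 0, 0, 0, 2, 4]], [-2, 2, 0, 0, 0]⟩, ⟨20, [[1, 1, 1, 1, 1], [0, 2, 2, 2, 2], [0, 0, 3, 0, 6], [0, 0, 0, 3, 6], [0, 0, 0, 0, 9]], [[0, -1, -8, -1, 0, 0, 0], [0, 0, -1, 1, 0, 0,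 0], [-3, 3, 7, -6, 0, -1, -1], [0, -3, -10, -7, 0, 1, 0], [2, -1, -8, -7, 0, 0, 1]], [[0, 0, 2, 3, 0, 0, 0], [0, 0, 0, 0, 0, 0, 0], [0, 0, 0, 1, 0, 0, 0], [0, 0, 4, 7, 0, 0, 0], [0, 0, 4, 7, 0, 0, 0]], [0, 0, -6, 0, 0]⟩, ⟨30, [[1, 1, 0, 0, 12], [0, 2, 0, 0, 6], [0, 0, 2, 2, 14], [0, 0, 0, 6, 12], [0, 0, 0, 0, 18]], [[-3, 5, -1, 0, 2, 2, 2], [3, -6, 2, 0, -2, -2, -2], [0, -5, 0, 0, -3, 0, 0], [0, 0, 0, 0, 1, -1, 0], [1, 2, 0, 0, 1, 0, -1]], [[0, 0, 0, 0, -2, -2, -2], [0, 0, 0, 0, 2, 2, 2], [0, 0, 0, 0, 3, 0, 0], [0, 0, 0, 0, -1, 1, 0], [0, 0, 0, 0, -1, 0, 1]], [-2, 2, 0, 0, 0]⟩, ⟨60, [[1, 1, 0, 0, 3], [0, 2, 0, 0, 6], [0, 0, 1, 1, 7], [0, 0, 0, 3, 6], [0, 0, 0, 0, 9]], [[-3, 5, -1, 0, -1, -1,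 -1], [3, -6, 2, 0, 1, 1, 1], [0, -10, 0, 0, 3, 0, 0], [0, 0, 0, 0, -1, 1, 0], [-1, 9, -1, 0, -2, -1, 0]], [[0, 0, 0, 0, 0, 0, 0], [0, 0, 0, 0, 0, 0, 0], [0, 0, 0, 0, 0, 0, 0], [0, 0, 0, 0, 0, 0, 0], [0, 0, 0, 0, 0, 0, 0]], [-2, 2, 0, 0, 0]⟩]⟩

theorem b46_ok : chkBad b46 = true := by decide +kernel

def b47 : BCert :=
  ⟨[[0, 1, 0, 0, 0, 0, 0], [1, 0, 0, 0, 0, 0, 0], [0, 0, 10, 15, 0, 0, 0], [0, 0, 15, 30, 0, 0, 0], [0, 0, 0, 0, 2, 0, 0], [0, 0, 0, 0, 0, 2, 0], [0, 0, 0, 0, 0, 0, 2]], 30, [[0, 30, 0, 0, 0, 0, 0], [30, 0, 0, 0, 0, 0, 0], [0, 0, 12, -6, 0, 0, 0], [0, 0, -6, 4, 0, 0, 0], [0, 0, 0, 0, 15, 0, 0], [0, 0, 0, 0, 0, 15, 0], [0, 0, 0, 0, 0, 0, 15]], [3, -6, 3, -1, 1, 1, 1], 1, [-6, 3,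 15, 15, 2, 2, 2], [[0, -5, 2, -1, 0, 0, 0], [0, -5, 0, 1, 0, 0, 0], [0, -2, 0, 0, 3, 0, 0], [0, -2, 0, 0, 0, 3, 0], [0, -2, 0, 0, 0, 0, 3]], 90, [9, 3, 5, 5, 5], [0, 0, 1, 1, 1], [30, 0, 0, 0, 0, 0, 0], 1, [⟨2, [[5, 5, 2, 2, 2], [0, 10, 4, 4, 4], [0, 0, 6, 0, 12], [0, 0, 0, 6, 12], [0, 0, 0, 0, 18]], [[0, -1, 0, 0, 0, 0, 0], [0, 0, 0, 0, 0, 0, 0], [-1, 0, 0, 0, 0, 0, 0], [0, 0, 0, 0, 0, 0, 0], [0, 0, 0, 0, 0, 0, 0]], [[0, 0, 1, 0, 0, 0, 0], [0, 0, 1, 3, 0, 0, 0], [-6, 4, 14, 13, 3, 2, 2], [0, 0, -1, -2, 0, 1, 0], [4, -2, -9, -8, -2, -2, -1]], [0, 0, 12, 0, 0]⟩, ⟨4, [[5, 5, 2, 2, 2], [0, 10, 1, 1, 1], [0, 0, 3, 0, 6], [0, 0, 0, 3, 6], [0, 0, 0, 0, 9]], [[0, -1, -2, 1, 0, 0, 0], [0, 0, 1, 1, 0,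 0, 0], [1, -2, 0, 0, 0, -1, -1], [0, 0, 1, -1, 0, 1, 0], [-2, 0, 1, -1, 0, 0, 1]], [[0, 0, 3, 0, 0, 0, 0], [0, 0, -12, -21, 0, 0, 0], [4, -2, -8, -8, 0, 0, 0], [0, 0, 2, 7, 0, 0, 0], [-2, 2, 8, 13, 0, 0, 0]], [0, 0, -6, 0, 0]⟩, ⟨6, [[5, 5, 0, 0, 6], [0, 10, 0, 0, 12], [0, 0, 2, 2, 14], [0, 0, 0, 6, 12], [0, 0, 0, 0, 18]], [[0, -1, 1, 0, 0, 0, 0], [0, 0, 1, 0, 0, 0, 0], [-3, -1, -3, 0, -3, 0, 0], [-3, 0, -3, 0, -3, 1, 2], [1, -1, -2, 0, -1, -2, -3]], [[0, 0, -3, -5, 0, 0, 0], [0, 0, -3, -4, 0, 0, 0], [-6, 4, 25, 30, 5, 2, 2], [2, 0, 5, 10, 1, -1, -2], [4, -2, -2, 1, -1, 0, 1]], [0, 0, 12, 0, 0]⟩, ⟨10, [[1, 1, 4, 4, 4], [0, 2, 2, 2, 2], [0, 0, 6, 0, 12], [0, 0, 0, 6, 12], [0, 0, 0, 0, 18]], [[0,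 -5, 0, 0, 0, 0, 0], [0, 0, 0, 0, 0, 0, 0], [3, -3, 0, 0, 4, -4, -4], [0, 3, 0, 0, 0, -2, 0], [-2, 1, 0, 0, 4, 4, 2]], [[0, 0, 1, 0, 0, 0, 0], [0, 0, 1, 3, 0, 0, 0], [0, 0, 2, 2, -1, 2, 2], [0, 0, -1, -1, 0, 1, 0], [0, 0, -1, -1, -2, -2, -1]], [0, 0, 12, 0, 0]⟩, ⟨12, [[5, 5, 0, 0, 6], [0, 10, 0, 0, 3], [0, 0, 1, 1, 7], [0, 0, 0, 3, 6], [0, 0, 0, 0, 9]], [[0, -1, -2, -5, 0, 0, 0], [0, 0, -5, -1, 0, 0, 0], [3, 4, 3, -3, 0, -3, -3], [3, -6, 3, 5, 0, 2, 1], [5, 4, 0, -4, 0, 1, 2]], [[0, 0, 16, 30, 0, 0, 0], [0, 0, 11, 18, 0, 0, 0], [2, -2, -5, 0, 0, 0, 0], [0, 0, -15, -30, 0, 0, 0], [-2, 0, 14, 24, 0, 0, 0]], [0, 0, -6, 0, 0]⟩, ⟨20, [[1, 1, 1, 1, 1], [0, 2, 2, 2, 2], [0, 0, 3, 0, 6], [0, 0, 0, 3,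 6], [0, 0, 0, 0, 9]], [[0, -5, -10, 7, 0, 0, 0], [0, 0, -1, 1, 0, 0, 0], [-3, 7, 5, 2, 0, -1, -1], [0, 1, 4, -3, 0, 1, 0], [2, -5, 2, -7, 0, 0, 1]], [[0, 0, 0, -6, 0, 0, 0], [0, 0, 0, 0, 0, 0, 0], [0, 0, -10, -16, 0, 0, 0], [0, 0, 0, 2, 0, 0, 0], [0, 0, 10, 20, 0, 0, 0]], [0, 0, -6, 0, 0]⟩]⟩

theorem b47_ok : chkBad b47 = true := by decide +kernel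

def b48 : BCert :=
  ⟨[[0, 1, 0, 0, 0, 0, 0], [1, 0, 0, 0, 0, 0, 0], [0, 0, 2, 1, 0, 0, 0], [0, 0, 1, 2, 0, 0, 0], [0, 0, 0, 0, 14, 0, 0], [0, 0, 0, 0, 0, 14, 0], [0, 0, 0, 0, 0, 0, 14]], 42, [[0, 42, 0, 0, 0, 0, 0], [42, 0, 0, 0, 0, 0, 0], [0, 0, 28, -14, 0, 0, 0], [0, 0, -14, 28, 0, 0, 0], [0, 0, 0, 0, 3, 0, 0], [0, 0, 0, 0, 0, 3, 0], [0, 0, 0, 0, 0, 0, 3]], [4, -7, 3, -1, 1, 1, 1], 1, [-7, 4, 5, 1, 14, 14, 14], [[0, -9, 8, -4, 0, 0, 0], [0, -1, 0, 4, 0, 0, 0], [0, -7, 0, 0, 2, 0, 0], [0, -7, 0, 0, 0, 2, 0], [0, -7, 0, 0, 0, 0, 2]], 672, [7, 21, 12, 12, 12], [3, 9, 4, 4, 4], [168, 0, 0, 0, 0, 0, 0], 1, [⟨2, [[3, 3, 21, 21, 21], [0, 16, 0, 0, 28], [0, 0, 28, 0, 28], [0, 0, 0, 28, 28], [0,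 0, 0, 0, 56]], [[0, -1, 0, 0, 0, 0, 0], [0, 0, 0, -1, 0, 0, 0], [0, 0, 0, -1, 0, 0, 0], [0, 0, 0, -1, 0, 0, 0], [-1, -1, 0, -1, 0, 0, 0]], [[-2, 0, 4, 0, 0, 0, 0], [4, -2, -2, 2, -7, -7, -7], [2, 0, -2, 2, 1, 0, 0], [2, 0, -2, 2, 0, 1, 0], [-2, 2, 4, 2, 3, 3, 4]], [0, -16, 0, 0, 0]⟩, ⟨4, [[3, 3, 7, 7, 49], [0, 8, 0, 0, 14], [0, 0, 14, 0, 42], [0, 0, 0, 14, 42], [0, 0, 0, 0, 56]], [[0, 1, 0, 0, 0, 0, 0], [0, 0, 0, -2, 0, 0, 0], [0, 1, 0, -2, 0, 0, 0], [0, 1, 0, -2, 0, 0, 0], [1, -1, -2, 1, 0, 0, 0]], [[-2, 0, 2, 0, 0, 0, 0], [4, -2, -2, 2, -7, -7, -7], [0, 0, 0, 2, 1, 0, 0], [0, 0, 0, 2, 0, 1, 0], [0, 0, 2, 0, 1, 1, 2]], [0, -16, 0, 0, 0]⟩, ⟨6, [[1, 1, 7, 7, 7], [0, 16, 0, 0, 28], [0, 0, 28,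 0, 28], [0, 0, 0, 28, 28], [0, 0, 0, 0, 56]], [[2, 1, 2, 0, 2, 2, 2], [2, -3, 1, 0, -1, -1, -1], [-2, 1, 1, 0, -3, -2, -2], [-2, 1, 1, 0, -2, -3, -2], [-3, -2, -1, 0, -1, -1, -2]], [[6, -6, -4, -2, -28, -28, -28], [0, 0, 0, 0, 7, 7, 7], [-2, 2, 0, 0, 19, 14, 14], [-2, 2, 0, 0, 14, 19, 14], [2, 0, 0, 0, 1, 1, 6]], [-8, 8, 0, 0, 0]⟩, ⟨12, [[1, 1, 7, 7, 7], [0, 8, 0, 0, 14], [0, 0, 14, 0, 42], [0, 0, 0, 14, 42], [0, 0, 0, 0, 56]], [[-4, -5, -4, 0, -4, -4, -4], [4, -6, 2, 0, -5, -5, -5], [-4, 2, 2, 0, 3, 2, 2], [-4, 2, 2, 0, 2, 3, 2], [1, 2, -3, 0, 4, 4, 5]], [[4, -2, 0, 0, 0, 0, 0], [0, 0, 0, 0, 14, 14, 14], [-2, 2, 0, 0, -2, 0, 0], [-2, 2, 0, 0, 0, -2, 0], [2, -2, 0, 0, -16, -16, -18]], [-8, 8,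 0, 0, 0]⟩, ⟨14, [[3, 3, 1, 1, 5], [0, 16, 0, 0, 4], [0, 0, 4, 0, 4], [0, 0, 0, 4, 4], [0, 0, 0, 0, 8]], [[0, -3, -2, -6, 0, 0, 0], [-2, 4, -2, 1, 0, 0, 0], [0, -1, 4, 5, 0, 0, 0], [0, -1, 4, 5, 0, 0, 0], [1, 0, 0, 0, 0, 0, 0]], [[0, 0, 2, 2, 0, 0, 0], [0, 0, 0, 0, -1, -1, -1], [0, 0, -2, -2, 1, 0, 0], [0, 0, -2, -2, 0, 1, 0], [0, 0, 0, 0, 0, 0, 1]], [0, -16, 0, 0, 0]⟩, ⟨28, [[3, 3, 1, 1, 5], [0, 8, 0, 0, 6], [0, 0, 2, 0, 6], [0, 0, 0, 2, 6], [0, 0, 0, 0, 8]], [[0, -3, 12, 8, 0, 0, 0], [-4, 8, -4, 2, -1, -1, -1], [0, -2, 8, 10, 1, 0, 0], [0, -2, 8, 10, 0, 1, 0], [3, -2, -6, -11, 0, 0, 1]], [[0, 0, -2, -2, 0, 0, 0], [0, 0, 0, 0, 0, 0, 0], [0, 0, -2, -2, 0, 0, 0], [0, 0, -2, -2, 0, 0, 0], [0, 0,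 2, 2, 0, 0, 0]], [0, -16, 0, 0, 0]⟩, ⟨42, [[1, 1, 3, 3, 7], [0, 16, 0, 0, 4], [0, 0, 4, 0, 4], [0, 0, 0, 4, 4], [0, 0, 0, 0, 8]], [[-16, 19, -4, 0, 8, 8, 8], [2, -3, 1, 0, -1, -1, -1], [12, -16, 3, 0, -7, -6, -6], [12, -16, 3, 0, -6, -7, -6], [1, 0, 0, 0, 0, 0, -1]], [[0, 0, 0, 0, -8, -8, -8], [0, 0, 0, 0, 1, 1, 1], [0, 0, 0, 0, 7, 6, 6], [0, 0, 0, 0, 6, 7, 6], [0, 0, 0, 0, 0, 0, 1]], [-8, 8, 0, 0, 0]⟩]⟩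

theorem b48_ok : chkBad b48 = true := by decide +kernel

def b49 : BCert :=
  ⟨[[0, 1, 0, 0, 0, 0, 0], [1, 0, 0, 0, 0, 0, 0], [0, 0, 14, 7, 0, 0, 0], [0, 0, 7, 14, 0, 0, 0], [0, 0, 0, 0, 2, 0, 0], [0, 0, 0, 0, 0, 2, 0], [0, 0, 0, 0, 0, 0, 2]], 42, [[0, 42, 0, 0, 0, 0, 0], [42, 0, 0, 0, 0, 0, 0], [0, 0, 4, -2, 0, 0, 0], [0, 0, -2, 4, 0, 0, 0], [0, 0, 0, 0, 21, 0, 0], [0, 0, 0, 0, 0, 21, 0], [0, 0, 0, 0, 0, 0, 21]], [4, -13, 3, -1, 1, 1, 1], 1, [-13, 4, 35, 7, 2, 2, 2], [[0, -63, 8, -4, 0, 0, 0], [0, -7, 0, 4, 0, 0, 0], [0, -1, 0, 0, 2, 0, 0], [0, -1, 0, 0, 0, 2, 0], [0, -1, 0, 0, 0, 0, 2]], 672, [1, 3, 84, 84, 84], [-3, -9, 28, 28, 28], [168, 0, 0, 0, 0, 0, 0], 1, [⟨2, [[21, 21, 3, 3, 3], [0,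 112, 0, 0, 4], [0, 0, 4, 0, 4], [0, 0, 0, 4, 4], [0, 0, 0, 0, 8]], [[0, 0, 0, 0, 0, 0, 0], [0, -1, 0, 0, 0, 0, 0], [0, -1, 0, 0, 0, 0, 0], [0, 0, 0, 0, 0, 0, 0], [-1, -1, 0, 0, 0, 0, 0]], [[-42, 12, 109, 21, 6, 6, 6], [8, -2, -18, -3, -1, -1, -1], [120, -36, -318, -63, -17, -18, -18], [28, -8, -73, -14, -4, -3, -4], [-62, 20, 168, 33, 9, 9, 10]], [126, 14, -54, 2, 2]⟩, ⟨4, [[21, 21, 1, 1, 7], [0, 56, 0, 0, 2], [0, 0, 2, 0, 6], [0, 0, 0, 2, 6], [0, 0, 0, 0, 8]], [[0, 1, 0, 0, 0, 0, 0], [0, 1, -1, -1, 0, 0, 0], [0, -2, -1, -1, 0, -1, -1], [0, 1, 0, -2, 0, 1, 0], [-1, -1, 1, -2, 0, 0, 1]], [[-2, 0, 2, 0, 0, 0, 0], [0, 0, 10, 11, 0, 0, 0], [8, -2, -8, 7, 0, 0, 0], [0, 0, 6, 14, 0, 0, 0], [-4, 2,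 13, 13, 0, 0, 0]], [0, 0, -4, 0, 0]⟩, ⟨6, [[7, 7, 1, 1, 1], [0, 112, 0, 0, 4], [0, 0, 4, 0, 4], [0, 0, 0, 4, 4], [0, 0, 0, 0, 8]], [[0, 0, 0, -3, 0, 0, 0], [-2, 1, 0, 0, 1, 1, 1], [0, -1, 0, 0, -1, 0, 0], [-2, -2, 0, -1, -2, -3, -2], [1, -3, 0, 0, -3, -3, 2]], [[-42, 12, 116, 35, 6, 6, 6], [2, 0, -6, -1, -1, -1, -1], [40, -12, -106, -21, -5, -6, -6], [10, -2, -22, 0, 0, 1, 0], [-20, 6, 56, 11, 5, 5, 2]], [126, 14, -54, 2, 2]⟩, ⟨12, [[7, 7, 1, 1, 1], [0, 56, 0, 0, 2], [0, 0, 2, 0, 6], [0, 0, 0, 2, 6], [0, 0, 0, 0, 8]], [[0, 3, 4, 4, 0, 0, 0], [0, 1, 5, 1, 0, 0, 0], [-4, 5, -3, 1, 0, -1, -1], [0, 4, 4, -2, 0, 1, 0], [3, -3, -1, 0, 0, 0, 1]], [[-2, 0, -12, -14, 0, 0, 0], [0, 0, -13, -8, 0, 0, 0],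 [2, 0, -1, 0, 0, 0, 0], [0, 0, -8, 0, 0, 0, 0], [-2, 0, 8, 2, 0, 0, 0]], [0, 0, -4, 0, 0]⟩, ⟨14, [[3, 3, 1, 1, 5], [0, 16, 0, 0, 4], [0, 0, 4, 0, 4], [0, 0, 0, 4, 4], [0, 0, 0, 0, 8]], [[0, -7, 0, 4, 0, 0, 0], [-2, -4, 0, -3, 3, 3, 3], [0, 5, 0, -1, -3, 0, 0], [0, 5, 0, -1, 0, -3, 0], [1, 3, 0, 0, 0, 0, -3]], [[-2, 0, 0, -8, 0, 0, 0], [2, 0, 0, 6, -1, -1, -1], [0, 0, 0, 2, 1, 0, 0], [0, 0, 0, 2, 0, 1, 0], [0, 0, 0, 0, 0, 0, 1]], [0, -16, 0, 0, 0]⟩, ⟨28, [[3, 3, 1, 1, 5], [0, 8, 0, 0, 6], [0, 0, 2, 0, 6], [0, 0, 0, 2, 6], [0, 0, 0, 0, 8]], [[0, 7, -8, -8, 0, 0, 0], [-4, -8, 12, -2, -1, -1, -1], [0, 10, 4, -10, 1, 0, 0], [0, 10, 4, -10, 0, 1, 0], [3, 11, -10, -3, 0, 0, 1]], [[-2, 0, 14, 12, 0,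 0, 0], [2, 0, -14, -4, 0, 0, 0], [0, 0, 0, 8, 0, 0, 0], [0, 0, 0, 8, 0, 0, 0], [-2, 0, 14, 8, 0, 0, 0]], [0, -16, 0, 0, 0]⟩, ⟨42, [[1, 1, 3, 3, 7], [0, 16, 0, 0, 4], [0, 0, 4, 0, 4], [0, 0, 0, 4, 4], [0, 0, 0, 0, 8]], [[-16, -11, -4, 0, -4, -4, -4], [2, -3, 1, 0, -10, -10, -10], [12, 8, 3, 0, 14, -18, -18], [12, 8, 3, 0, -18, 14, -18], [1, 3, 0, 0, 0, 0, -10]], [[0, 0, 0, 0, 0, 0, 0], [0, 0, 0, 0, 1, 1, 1], [0, 0, 0, 0, -1, 2, 2], [0, 0, 0, 0, 2, -1, 2], [0, 0, 0, 0, 0, 0, 1]], [-8, 8, 0, 0, 0]⟩]⟩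

theorem b49_ok : chkBad b49 = true := by decide +kernel

end RH6.BD
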