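import Pool.Agent.RH6.UDef

namespace RH6.BD

def b50 : BCert :=
  ⟨[[0, 1, 0, 0, 0, 0, 0], [1, 0, 0, 0, 0, 0, 0], [0, 0, 4, 7, 0, 0, 0], [0, 0, 7, 14, 0, 0, 0], [0, 0, 0, 0, 6, 0, 0], [0, 0, 0, 0, 0, 6, 0], [0, 0, 0, 0, 0, 0, 6]], 42, [[0, 42, 0, 0, 0, 0, 0], [42, 0, 0, 0, 0, 0, 0], [0, 0, 84, -42, 0, 0, 0], [0, 0, -42, 24, 0, 0, 0], [0, 0, 0, 0, 7, 0, 0], [0, 0, 0, 0, 0, 7, 0], [0, 0, 0, 0, 0, 0, 7]], [4, -5, 1, 0, 1, 1, 2], 1, [-5, 4, 4, 7, 6, 6, 12], [[0, -1, 8, -4, 0, 0, 0], [0, -7, 0, 4, 0, 0, 0], [0, -3, 0, 0, 2, 0, 0], [0, -3, 0, 0, 0, 2, 0], [0, -3, 0, 0, 0, 0, 1]], 672, [21, 3, 28, 28, 112], [-7, 1, 0, 0, 0], [168, 0, 0, 0, 0, 0, 0], 1, [⟨2, [[1, 63, 3, 3, 3], [0, 112, 0, 12, 0], [0, 0, 12,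 12, 0], [0, 0, 0, 24, 0], [0, 0, 0, 0, 6]], [[0, 0, 0, 0, 0, 0, 0], [0, -1, 0, 0, 0, 0, 0], [0, -1, 0, 0, 0, 0, 0], [-1, -1, 0, 0, 0, 0, 0], [0, 0, 0, 0, 0, 0, 0]], [[-6, 4, 8, 7, 6, 6, 12], [4, -2, -4, -3, -3, -3, -6], [-4, 4, 3, 7, 7, 6, 12], [2, 0, 0, -2, -2, -1, -3], [0, 0, -2, 0, 0, 0, 1]], [2, 14, 30, 6, 6]⟩, ⟨4, [[1, 7, 3, 9, 3], [0, 56, 0, 6, 3], [0, 0, 6, 6, 3], [0, 0, 0, 12, 3], [0, 0, 0, 0, 6]], [[0, -2, -1, 0, 0, 0, 0], [0, 0, 1, 0, 0, 0, 0], [0, -2, -2, -2, 0, 0, 0], [-2, -2, -1, 0, 0, 0, 0], [-1, 0, -1, -1, 0, 0, 0]], [[-2, 2, 6, 7, 3, 3, 6], [0, 0, -2, -3, 0, 0, 0], [6, -4, 6, 14, -5, -6, -12], [0, 2, 2, 5, 1, 2, 3], [-2, 2, 7, 13, 2, 2, 5]], [2, 14, -18, 6, 6]⟩, ⟨6, [[1, 63, 3, 3, 1],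 [0, 112, 0, 4, 0], [0, 0, 4, 4, 0], [0, 0, 0, 8, 0], [0, 0, 0, 0, 2]], [[-2, 0, -3, -1, 0, 0, 0], [-2, -3, 1, 1, 0, 0, 0], [0, -3, -3, 0, 0, 0, 0], [1, -3, -2, -2, 0, 0, 0], [-2, 0, -3, -1, 0, 0, 0]], [[-2, 2, 9, 14, 2, 2, 4], [2, 0, -5, -8, -1, -1, -2], [6, -4, -1, 0, -5, -6, -12], [-2, 2, 10, 18, 3, 4, 7], [-2, 2, 7, 14, 2, 2, 5]], [2, 14, -18, 6, 6]⟩, ⟨12, [[1, 7, 1, 3, 1], [0, 56, 0, 2, 0], [0, 0, 2, 2, 1], [0, 0, 0, 4, 1], [0, 0, 0, 0, 2]], [[0, -1, -4, -4, 0, 0, 0], [0, 0, -1, -2, 0, 0, 0], [-4, 4, -5, -4, 0, -1, -2], [2, -2, -3, -6, 0, 1, 1], [1, -2, 0, 1, 0, 0, 1]], [[0, 0, 8, 14, 0, 0, 0], [0, 0, 3, 6, 0, 0, 0], [0, 0, 7, 14, 0, 0, 0], [0, 0, 9, 18, 0, 0, 0], [0, 0, -1, -2, 0, 0, 0]], [0, 0,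 -4, 0, 0]⟩, ⟨14, [[1, 15, 3, 15, 3], [0, 16, 0, 12, 0], [0, 0, 12, 12, 0], [0, 0, 0, 24, 0], [0, 0, 0, 0, 6]], [[0, -1, -6, -4, 0, 0, 0], [-2, 3, 6, 4, 3, 3, 6], [0, 0, -2, 1, -1, 0, 0], [1, -1, 0, 0, -1, -2, -3], [0, 0, -4, 2, 0, 0, -1]], [[0, 0, 8, 14, 0, 0, 0], [0, 0, -8, -14, -3, -3, -6], [0, 0, 0, 0, 1, 0, 0], [0, 0, 0, 0, 1, 2, 3], [0, 0, 0, 0, 0, 0, 1]], [0, -16, 0, 0, 0]⟩, ⟨28, [[1, 7, 3, 9, 3], [0, 8, 0, 6, 0], [0, 0, 6, 6, 3], [0, 0, 0, 12, 3], [0, 0, 0, 0, 6]], [[-4, 11, 0, 0, -8, -8, 12], [0, -7, 0, 0, -14, -14, 0], [-12, 8, 0, -14, 2, 4, 8], [2, -2, 0, 0, -2, -4, -6], [7, -9, 0, 7, -10, -10, 6]], [[2, -2, -2, -4, 0, 0, -12], [-2, 2, 2, 4, 9, 9, 6], [-2, 2, 8, 16, 1, 0, 0], [0, 0, 0, 0, 1,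 2, 3], [0, 0, -3, -6, 5, 5, -1]], [-16, 0, 0, 0, 0]⟩]⟩

theorem b50_ok : chkBad b50 = true := by decide +kernel

def b51 : BCert :=
  ⟨[[0, 1, 0, 0, 0, 0, 0], [1, 0, 0, 0, 0, 0, 0], [0, 0, 12, 21, 0, 0, 0], [0, 0, 21, 42, 0, 0, 0], [0, 0, 0, 0, 2, 0, 0], [0, 0, 0, 0, 0, 2, 0], [0, 0, 0, 0, 0, 0, 2]], 42, [[0, 42, 0, 0, 0, 0, 0], [42, 0, 0, 0, 0, 0, 0], [0, 0, 28, -14, 0, 0, 0], [0, 0, -14, 8, 0, 0, 0], [0, 0, 0, 0, 21, 0, 0], [0, 0, 0, 0, 0, 21, 0], [0, 0, 0, 0, 0, 0, 21]], [3, -3, 1, 0, 1, 1, 1], 1, [-3, 3, 12, 21, 2, 2, 2], [[0, -1, 2, -1, 0, 0, 0], [0, -7, 0, 1, 0, 0, 0], [0, -2, 0, 0, 3, 0, 0], [0, -2, 0, 0, 0, 3, 0], [0, -2, 0, 0, 0, 0, 3]], 126, [21, 3, 7, 7, 7], [-7, 1, 0, 0, 0], [42, 0, 0, 0,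 0, 0, 0], 1, [⟨2, [[1, 7, 2, 2, 2], [0, 42, 0, 0, 0], [0, 0, 6, 0, 12], [0, 0, 0, 6, 12], [0, 0, 0, 0, 18]], [[-1, 0, 0, 0, 0, 0, 0], [0, 0, 0, 0, 0, 0, 0], [0, 0, 0, 0, 0, 0, 0], [0, 0, 0, 0, 0, 0, 0], [0, 0, 0, 0, 0, 0, 0]], [[-4, 4, 15, 21, 2, 2, 2], [0, 0, 0, 1, 0, 0, 0], [6, -6, -25, -42, -3, -4, -4], [0, 0, -1, 0, 0, 1, 0], [-4, 4, 17, 28, 2, 2, 3]], [2, 14, -20, 4, 4]⟩, ⟨4, [[1, 7, 2, 2, 2], [0, 42, 0, 0, 0], [0, 0, 3, 0, 6], [0, 0, 0, 3, 6], [0, 0, 0, 0, 9]], [[0, -1, -2, -1, 0, 0, 0], [0, 0, 1, 0, 0, 0, 0], [1, -1, -1, -2, 0, -1, -1], [0, 0, 0, -2, 0, 1, 0], [-2, -2, -2, -2, 0, 0, 1]], [[0, 0, 24, 42, 0, 0, 0], [0, 0, -6, -10, 0, 0, 0], [2, -2, 20, 42, 0, 0, 0], [0, 0, 20, 42, 0, 0, 0], [0,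 2, 38, 70, 0, 0, 0]], [0, 0, -6, 0, 0]⟩, ⟨6, [[1, 7, 0, 0, 6], [0, 14, 0, 0, 6], [0, 0, 2, 2, 14], [0, 0, 0, 6, 12], [0, 0, 0, 0, 18]], [[-3, 2, 0, 0, -2, -2, -2], [0, 0, 0, 0, 0, 0, 0], [-3, 2, 0, 0, 1, -2, -2], [0, 0, 0, 0, -3, 1, 2], [1, 0, 0, 0, -3, 2, 1]], [[-2, 2, 5, 7, 2, 2, 2], [0, 0, 0, 1, 0, 0, 0], [4, -4, -20, -35, -3, -2, -2], [-2, 2, 8, 14, 3, 1, 0], [-2, 2, 9, 16, 3, 0, 1]], [2, 14, -20, 4, 4]⟩, ⟨12, [[1, 7, 0, 0, 6], [0, 14, 0, 0, 6], [0, 0, 1, 1, 7], [0, 0, 0, 3, 6], [0, 0, 0, 0, 9]], [[0, -1, -2, 1, 0, 0, 0], [0, 0, 1, 0, 0, 0, 0], [3, -5, 3, 0, 0, -3, -3], [3, -3, -1, 4, 0, 2, 1], [5, -3, -1, -6, 0, 1, 2]], [[0, 0, 1, 0, 0, 0, 0], [0, 0, -2, -3, 0, 0, 0], [2, -2, -12, -21, 0, 0, 0],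 [0, 0, -10, -21, 0, 0, 0], [0, 0, 26, 51, 0, 0, 0]], [0, 0, -6, 0, 0]⟩, ⟨42, [[1, 1, 0, 0, 6], [0, 2, 0, 0, 6], [0, 0, 2, 2, 14], [0, 0, 0, 6, 12], [0, 0, 0, 0, 18]], [[0, -1, 2, -1, 0, 0, 0], [-3, 0, -2, 1, 20, 20, 20], [0, -1, 0, 0, 12, 0, 0], [0, 0, 0, 0, 10, -10, 0], [1, 1, 0, 0, 10, 0, -10]], [[0, 0, 0, 0, 0, 0, 0], [0, 0, 0, 0, -2, -2, -2], [0, 0, 0, 0, -1, 0, 0], [0, 0, 0, 0, -1, 1, 0], [0, 0, 0, 0, -1, 0, 1]], [0, -4, 0, 0, 0]⟩]⟩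

theorem b51_ok : chkBad b51 = true := by decide +kernel

def b52 : BCert :=
  ⟨[[0, 1, 0, 0, 0, 0, 0], [1, 0, 0, 0, 0, 0, 0], [0, 0, 8, 15, 0, 0, 0], [0, 0, 15, 30, 0, 0, 0], [0, 0, 0, 0, 2, 0, 0], [0, 0, 0, 0, 0, 2, 0], [0, 0, 0, 0, 0, 0, 2]], 30, [[0, 30, 0, 0, 0, 0, 0], [30, 0, 0, 0, 0, 0, 0], [0, 0, 60, -30, 0, 0, 0], [0, 0, -30, 16, 0, 0, 0], [0, 0, 0, 0, 15, 0, 0], [0, 0, 0, 0, 0, 15, 0], [0, 0, 0, 0, 0, 0, 15]], [3, -3, 3, -1, 1, 1, 1], 1, [-3, 3, 9, 15, 2, 2, 2], [[0, -1, 2, -1, 0, 0, 0], [0, -5, 0, 1, 0, 0, 0], [0, -2, 0, 0, 3, 0, 0], [0, -2, 0, 0, 0, 3, 0], [0, -2, 0, 0, 0, 0, 3]], 90, [45, 3, 5, 5, 5], [0, -6, 5, 5, 5], [30, 0, 0, 0, 0, 0, 0], 1, [⟨2, [[1, 5, 2, 2, 2], [0, 10, 4, 4, 4], [0,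 0, 6, 0, 12], [0, 0, 0, 6, 12], [0, 0, 0, 0, 18]], [[-1, 0, 0, 0, 0, 0, 0], [0, 0, 0, 0, 0, 0, 0], [0, 0, 0, 0, 0, 0, 0], [0, 0, 0, 0, 0, 0, 0], [0, 0, 0, 0, 0, 0, 0]], [[-4, 4, 10, 15, 2, 2, 2], [0, 0, 1, 3, 0, 0, 0], [6, -6, -19, -32, -3, -4, -4], [0, 0, -1, -2, 0, 1, 0], [-4, 4, 13, 22, 2, 2, 3]], [2, 10, -20, 4, 4]⟩, ⟨4, [[1, 5, 2, 2, 2], [0, 10, 1, 1, 1], [0, 0, 3, 0, 6], [0, 0, 0, 3, 6], [0, 0, 0, 0, 9]], [[0, -1, -2, 1, 0, 0, 0], [0, 0, 1, 1, 0, 0, 0], [1, -1, 0, -2, 0, -1, -1], [0, 0, 1, -1, 0, 1, 0], [-2, -2, 1, -1, 0, 0, 1]], [[0, 0, 1, 0, 0, 0, 0], [0, 0, -11, -21, 0, 0, 0], [2, -2, 10, 22, 0, 0, 0], [0, 0, 3, 7, 0, 0, 0], [0, 2, 7, 13, 0, 0, 0]], [0, 0, -6, 0, 0]⟩, ⟨6, [[1, 5, 0, 0, 6], [0,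 10, 0, 0, 12], [0, 0, 2, 2, 14], [0, 0, 0, 6, 12], [0, 0, 0, 0, 18]], [[-3, 2, 2, 0, -2, -2, -2], [0, 0, -1, 0, 0, 0, 0], [-3, 2, -3, 0, 1, -2, -2], [0, 0, 0, 0, -3, 1, 2], [1, 0, -2, 0, -3, 2, 1]], [[-2, 2, -2, -5, 2, 2, 2], [0, 0, 3, 6, 0, 0, 0], [4, -4, -7, -10, -3, -2, -2], [-2, 2, 6, 10, 3, 1, 0], [-2, 2, 12, 21, 3, 0, 1]], [2, 10, -20, 4, 4]⟩, ⟨12, [[1, 5, 0, 0, 6], [0, 10, 0, 0, 3], [0, 0, 1, 1, 7], [0, 0, 0, 3, 6], [0, 0, 0, 0, 9]], [[3, -4, -1, 4, 1, 1, 1], [-3, 3, -4, 4, -1, -1, -1], [0, -2, 0, 0, 3, 0, 0], [0, 0, 0, 0, -1, 1, 0], [-1, 3, -2, -4, -2, -1, 0]], [[0, 0, -7, -15, 0, 0, 0], [0, 0, -6, -12, 0, 0, 0], [0, 0, 0, 0, 0, 0, 0], [0, 0, 0, 0, 0, 0, 0], [0, 0, 12, 24, 0, 0, 0]], [2, -10,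 0, 0, 0]⟩, ⟨20, [[1, 1, 1, 1, 1], [0, 2, 2, 2, 2], [0, 0, 3, 0, 6], [0, 0, 0, 3, 6], [0, 0, 0, 0, 9]], [[0, -1, 2, 1, 0, 0, 0], [0, -2, 9, 7, 0, 0, 0], [-3, 4, 7, 6, 0, -1, -1], [0, 1, 0, -5, 0, 1, 0], [2, -3, 2, -9, 0, 0, 1]], [[0, 0, -3, -6, 0, 0, 0], [0, 0, -17, -33, 0, 0, 0], [0, 0, -16, -31, 0, 0, 0], [0, 0, 7, 14, 0, 0, 0], [0, 0, 13, 26, 0, 0, 0]], [0, 0, -6, 0, 0]⟩, ⟨30, [[1, 1, 0, 0, 12], [0, 2, 0, 0, 6], [0, 0, 2, 2, 14], [0, 0, 0, 6, 12], [0, 0, 0, 0, 18]], [[0, -1, 2, -1, 0, 0, 0], [-3, 1, -4, 2, 14, 14, 14], [0, -1, 0, 0, 9, 0, 0], [0, 0, 0, 0, 7, -7, 0], [1, 1, 0, 0, 7, 0, -7]], [[0, 0, 0, 0, 0, 0, 0], [0, 0, 0, 0, -2, -2, -2], [0, 0, 0, 0, -1, 0, 0], [0, 0, 0, 0, -1, 1, 0], [0, 0, 0, 0,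 -1, 0, 1]], [0, -4, 0, 0, 0]⟩]⟩

theorem b52_ok : chkBad b52 = true := by decide +kernel

def b53 : BCert :=
  ⟨[[0, 1, 0, 0, 0, 0, 0], [1, 0, 0, 0, 0, 0, 0], [0, 0, 8, 15, 0, 0, 0], [0, 0, 15, 30, 0, 0, 0], [0, 0, 0, 0, 2, 0, 0], [0, 0, 0, 0, 0, 2, 0], [0, 0, 0, 0, 0, 0, 10]], 30, [[0, 30, 0, 0, 0, 0, 0], [30, 0, 0, 0, 0, 0, 0], [0, 0, 60, -30, 0, 0, 0], [0, 0, -30, 16, 0, 0, 0], [0, 0, 0, 0, 15, 0, 0], [0, 0, 0, 0, 0, 15, 0], [0, 0, 0, 0, 0, 0, 3]], [4, -4, 3, -1, 2, 1, 1], 1, [-4, 4, 9, 15, 4, 2, 10], [[0, -3, 8, -4, 0, 0, 0], [0, -15, 0, 4, 0, 0, 0], [0, -1, 0, 0, 1, 0, 0], [0, -1, 0, 0, 0, 2, 0], [0, -5, 0, 0, 0, 0, 2]], 480, [15, 1, 240, 60, 12], [-3, -1, 0, 4, 4], [120, 0, 0, 0, 0, 0, 0], 1, [⟨2,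 [[1, 165, 1, 3, 15], [0, 240, 0, 0, 20], [0, 0, 2, 0, 0], [0, 0, 0, 4, 20], [0, 0, 0, 0, 40]], [[0, -1, 0, 0, 0, 0, 0], [0, 0, 0, 0, 0, 0, 0], [0, -1, 0, 0, 0, 0, 0], [0, 0, 0, 0, 0, 0, 0], [-1, 0, 0, 0, 0, 0, 0]], [[14, -16, -32, -60, -16, -8, -40], [-8, 10, 20, 38, 10, 5, 25], [-6, 8, 16, 30, 9, 4, 20], [-26, 28, 60, 105, 28, 15, 70], [12, -12, -28, -49, -13, -7, -32]], [-8, -120, 0, 32, 0]⟩, ⟨4, [[1, 45, 0, 1, 35], [0, 120, 0, 0, 10], [0, 0, 1, 0, 20], [0, 0, 0, 2, 30], [0, 0, 0, 0, 40]], [[0, 1, 0, 0, 0, 0, 0], [0, 1, -1, -1, 0, 0, 0], [0, -1, 0, 0, 1, 0, 0], [0, 1, -1, 1, -2, 0, 0], [-1, -1, 1, 1, 1, 0, 0]], [[-2, 0, 2, 0, 0, 0, 0], [0, 0, 11, 23, 0, 0, 0], [0, 0, 0, 0, 0, 0, 0], [2, -2, -9, -15,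 0, 0, -5], [0, 2, -9, -17, 0, 0, 4]], [0, 0, 0, -4, 0]⟩, ⟨6, [[1, 5, 1, 3, 15], [0, 80, 0, 0, 20], [0, 0, 2, 0, 0], [0, 0, 0, 4, 20], [0, 0, 0, 0, 40]], [[2, 1, 2, 0, -2, 2, 2], [-2, 2, -2, 0, 2, 1, 1], [2, -1, 2, 0, -3, 2, 2], [-2, -2, 0, 0, 2, -3, -2], [-1, 1, -2, 0, 1, -2, 1]], [[4, -6, -16, -30, -4, -4, -20], [0, 0, 4, 8, -2, -1, -5], [-2, 2, 0, 0, 5, 0, 0], [-8, 10, 20, 35, 8, 7, 30], [2, -2, 0, 1, -3, 0, -9]], [-8, -120, 0, 32, 0]⟩, ⟨10, [[1, 21, 1, 3, 3], [0, 48, 0, 0, 4], [0, 0, 2, 0, 0], [0, 0, 0, 4, 4], [0, 0, 0, 0, 8]], [[4, 3, -4, 0, 2, -4, 0], [2, -1, -2, 0, -4, -2, 0], [-2, 3, 2, 0, 2, 2, 0], [-2, 4, 0, 0, 4, 0, 0], [1, -2, 0, 0, -2, 0, 0]], [[2, -4, 0, 0, -4, 0, -8], [0, 0, 4, 8, 2, 1,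 1], [-2, 2, 0, 0, 1, 0, 4], [-6, 6, 12, 21, 4, 3, 14], [2, -2, -4, -7, -1, -1, -4]], [-8, -120, 0, 32, 0]⟩, ⟨12, [[1, 5, 0, 1, 5], [0, 40, 0, 0, 30], [0, 0, 1, 0, 20], [0, 0, 0, 2, 30], [0, 0, 0, 0, 40]], [[4, 5, -4, 4, -4, 4, 4], [-4, 4, -4, 4, -2, -1, 5], [0, -1, 0, 0, 1, 0, 0], [4, -3, 2, 4, -4, -1, -2], [-5, 5, -4, 4, 3, 1, 3]], [[-4, 2, 2, 0, 4, 0, 0], [0, 0, -6, -12, 0, 0, -10], [0, 0, 0, 0, 0, 0, 0], [2, -2, -16, -30, 0, 0, 0], [-2, 2, -2, -6, 0, 0, -2]], [8, -40, 0, 0, 0]⟩, ⟨20, [[1, 21, 0, 1, 1], [0, 24, 0, 0, 2], [0, 0, 1, 0, 4], [0, 0, 0, 2, 6], [0, 0, 0, 0, 8]], [[0, -3, 8, 4, 0, 0, 0], [0, 2, 3, -1, 0, 0, 0], [0, -1, 0, 0, 1, 0, 0], [-4, 5, 3, 9, -2, 0, -1], [3, -4, 6, 8, 1, 0, 1]], [[0,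 0, -12, -24, 0, 0, 0], [0, 0, -1, -1, 0, 0, 0], [0, 0, 0, 0, 0, 0, 0], [0, 0, -17, -33, 0, 0, 0], [0, 0, -16, -32, 0, 0, 0]], [0, 0, 0, -4, 0]⟩, ⟨30, [[1, 5, 1, 3, 7], [0, 16, 0, 0, 4], [0, 0, 2, 0, 0], [0, 0, 0, 4, 4], [0, 0, 0, 0, 8]], [[0, -3, 8, -4, 0, 0, 0], [-2, 2, -4, 2, 14, 7, 1], [0, 1, -4, 2, -7, 0, 0], [0, 2, -6, 3, 0, -7, 0], [1, 0, -2, 1, -7, 0, -1]], [[0, 0, 0, 0, 0, 0, 0], [0, 0, 0, 0, -2, -1, -1], [0, 0, 0, 0, 1, 0, 0], [0, 0, 0, 0, 0, 1, 0], [0, 0, 0, 0, 1, 0, 1]], [0, -16, 0, 0, 0]⟩]⟩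

theorem b53_ok : chkBad b53 = true := by decide +kernel

def b54 : BCert :=
  ⟨[[0, 1, 0, 0, 0, 0, 0], [1, 0, 0, 0, 0, 0, 0], [0, 0, 4, 3, 0, 0, 0], [0, 0, 3, 6, 0, 0, 0], [0, 0, 0, 0, 10, 0, 0], [0, 0, 0, 0, 0, 10, 0], [0, 0, 0, 0, 0, 0, 2]], 30, [[0, 30, 0, 0, 0, 0, 0], [30, 0, 0, 0, 0, 0, 0], [0, 0, 12, -6, 0, 0, 0], [0, 0, -6, 8, 0, 0, 0], [0, 0, 0, 0, 3, 0, 0], [0, 0, 0, 0, 0, 3, 0], [0, 0, 0, 0, 0, 0, 15]], [4, -7, 1, 0, 2, 1, 1], 1, [-7, 4, 4, 3, 20, 10, 2], [[0, -5, 8, -4, 0, 0, 0], [0, -3, 0, 4, 0, 0, 0], [0, -5, 0, 0, 1, 0, 0], [0, -5, 0, 0, 0, 2, 0], [0, -1, 0, 0, 0, 0, 2]], 480, [3, 5, 48, 12, 60], [3, -5, 0, 4, 20], [120, 0, 0, 0, 0, 0, 0], 1, [⟨2, [[5, 27, 5, 5, 5], [0, 48, 0, 0, 4], [0,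 0, 10, 0, 0], [0, 0, 0, 20, 4], [0, 0, 0, 0, 8]], [[0, 0, 0, 0, 0, 0, 0], [0, 0, 0, 0, 0, 0, 0], [0, 0, 0, 0, 0, 0, 0], [0, 0, 0, 0, 0, 0, 0], [-1, 0, 0, 0, 0, 0, 0]], [[-8, 4, 8, 3, 20, 10, 2], [4, -2, -4, -1, -10, -5, -1], [0, 0, -2, 0, 1, 0, 0], [0, 0, -1, 0, 0, 1, 0], [16, -8, -10, -7, -45, -23, -4]], [10, 6, 10, 10, -30]⟩, ⟨4, [[5, 3, 0, 5, 7], [0, 24, 0, 0, 2], [0, 0, 5, 0, 4], [0, 0, 0, 10, 6], [0, 0, 0, 0, 8]], [[0, -1, 0, 0, 0, 0, 0], [0, 0, 1, 0, 0, 0, 0], [0, -1, 0, 0, 0, 0, 0], [0, 0, 0, -2, 0, 0, 0], [-1, -1, 1, 1, 0, 0, 0]], [[0, 0, 2, 0, 0, 0, 0], [0, 0, -2, -1, 0, 0, 0], [0, 0, 0, 0, 1, 0, 0], [0, 0, 2, 6, 0, 1, 0], [2, 0, -5, -5, -3, -2, 0]], [0, 0, 0, 0, -4]⟩, ⟨6, [[5, 11, 5, 5, 1],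 [0, 16, 0, 0, 4], [0, 0, 10, 0, 0], [0, 0, 0, 20, 4], [0, 0, 0, 0, 8]], [[0, -1, -2, 2, 0, 0, 0], [-2, -2, 2, -2, 2, 1, 1], [0, 0, -2, 2, 1, 0, 0], [0, 0, -1, 1, 0, 1, 0], [1, -2, 2, -2, -1, 2, -1]], [[0, 0, 2, -2, 0, 0, 0], [2, 0, -2, 2, -10, -5, -1], [0, 0, 0, -2, -3, 0, 0], [0, 0, 0, -1, 0, -3, 0], [0, 0, 0, 2, 5, -6, 1]], [0, -16, 0, 0, 0]⟩, ⟨10, [[1, 15, 1, 1, 5], [0, 48, 0, 0, 4], [0, 0, 2, 0, 0], [0, 0, 0, 4, 4], [0, 0, 0, 0, 8]], [[0, -5, 0, 0, 0, 0, 0], [-4, -4, 0, 0, 0, 0, 4], [0, 0, 0, 0, 0, 0, 0], [0, -5, -5, -5, 0, 0, 0], [-3, -5, 0, 0, 0, 0, 2]], [[28, -16, -12, -12, -80, -40, -8], [-8, 6, 4, 4, 26, 13, 1], [-14, 8, 6, 6, 41, 20, 4], [-6, 4, 10, 12, 20, 11, 2], [-8, 6, 4, 4, 27, 13, 2]],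 [-40, 24, 0, 0, 0]⟩, ⟨12, [[5, 3, 0, 5, 7], [0, 8, 0, 0, 6], [0, 0, 5, 0, 4], [0, 0, 0, 10, 6], [0, 0, 0, 0, 8]], [[-4, 3, 0, -4, 4, -4, -4], [0, 3, 0, 4, -6, -3, 3], [0, -1, 0, 0, -1, 0, 0], [-4, -2, -6, 2, 4, 1, 2], [-1, 3, -3, -1, 3, 2, 0]], [[4, -2, 0, 2, -20, 0, 0], [-4, 2, 0, -2, 20, 10, 0], [0, 0, 0, 0, 2, 0, 0], [-2, 2, 4, 2, 0, 2, 0], [0, 0, 2, 2, -6, -4, 0]], [-40, 24, 0, 0, 0]⟩, ⟨20, [[1, 15, 0, 1, 1], [0, 24, 0, 0, 2], [0, 0, 1, 0, 4], [0, 0, 0, 2, 6], [0, 0, 0, 0, 8]], [[0, -5, 4, 8, 0, 0, 0], [-8, -8, 4, 8, 6, -7, -7], [0, -5, 0, 0, 1, 0, 0], [0, -10, -2, 6, 0, -9, -10], [7, 0, -5, 5, 3, -9, -8]], [[14, -8, -10, -12, -40, -20, -4], [-8, 6, 0, -2, 20, 20, 4], [0, 0, 0, 0, 0, 0, 0], [-6,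 4, 2, 0, 20, 20, 4], [6, -4, -2, -4, -20, 0, 0]], [-40, 24, 0, 0, 0]⟩, ⟨60, [[1, 7, 0, 1, 3], [0, 8, 0, 0, 6], [0, 0, 1, 0, 4], [0, 0, 0, 2, 6], [0, 0, 0, 0, 8]], [[-20, 15, -12, -4, 20, -20, -20], [16, -9, 12, 4, -22, 19, 19], [0, -5, 0, 0, 1, 0, 0], [-20, -10, 6, 2, 20, 11, 10], [3, -19, -9, -3, -29, -15, -14]], [[4, -2, 0, 0, -20, 0, 0], [-4, 2, 0, 0, 20, 0, 0], [0, 0, 0, 0, 0, 0, 0], [-2, 2, 0, 0, 0, 0, 0], [4, -2, 0, 0, 0, 0, 0]], [-40, 24, 0, 0, 0]⟩]⟩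

theorem b54_ok : chkBad b54 = true := by decide +kernel

def b55 : BCert :=
  ⟨[[0, 1, 0, 0, 0, 0, 0], [1, 0, 0, 0, 0, 0, 0], [0, 0, 8, 15, 0, 0, 0], [0, 0, 15, 30, 0, 0, 0], [0, 0, 0, 0, 2, 0, 0], [0, 0, 0, 0, 0, 10, 0], [0, 0, 0, 0, 0, 0, 10]], 30, [[0, 30, 0, 0, 0, 0, 0], [30, 0, 0, 0, 0, 0, 0], [0, 0, 60, -30, 0, 0, 0], [0, 0, -30, 16, 0, 0, 0], [0, 0, 0, 0, 15, 0, 0], [0, 0, 0, 0, 0, 3, 0], [0, 0, 0, 0, 0, 0, 3]], [3, -5, 1, 0, 1, 1, 1], 1, [-5, 3, 8, 15, 2, 10, 10], [[0, -1, 6, -3, 0, 0, 0], [0, -5, 0, 1, 0, 0, 0], [0, -2, 0, 0, 3, 0, 0], [0, -10, 0, 0, 0, 3, 0], [0, -10, 0, 0, 0, 0, 3]], 90, [5, 3, 5, 1, 1], [1, 1, 0, 0, 0], [30, 0, 0, 0, 0, 0, 0], 1, [⟨2, [[1, 5, 2, 10, 40], [0, 30, 0, 0, 0],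 [0, 0, 6, 0, 30], [0, 0, 0, 30, 60], [0, 0, 0, 0, 90]], [[-1, 0, 0, 0, 0, 0, 0], [0, 0, 0, 0, 0, 0, 0], [-1, -1, 0, 0, 0, 0, 0], [0, 0, 0, 0, 0, 0, 0], [0, -1, 0, 0, 0, 0, 0]], [[-6, 4, 11, 15, 2, 10, 10], [0, 0, 0, 1, 0, 0, 0], [16, -8, -25, -45, -5, -30, -30], [0, 0, -1, 0, 0, 1, 0], [-2, 2, 5, 10, 1, 6, 7]], [2, 10, -32, 20, 20]⟩, ⟨4, [[1, 5, 2, 10, 40], [0, 30, 0, 0, 0], [0, 0, 3, 0, 15], [0, 0, 0, 15, 30], [0, 0, 0, 0, 45]], [[0, -1, -2, -1, 0, 0, 0], [0, 0, 1, 0, 0, 0, 0], [1, 1, 1, -2, 0, 0, 0], [0, 0, 0, -2, 0, 0, 0], [1, -1, 1, -2, 0, 0, 0]], [[0, 0, 17, 30, 0, 0, 0], [0, 0, -4, -7, 0, 0, 0], [2, -2, 6, 15, 0, -5, -5], [0, 0, 14, 30, 0, 1, 0], [0, 0, 12, 25, 0, 1, 2]], [0, 0, -6, 0, 0]⟩, ⟨6,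 [[1, 5, 2, 10, 40], [0, 10, 0, 0, 30], [0, 0, 6, 0, 30], [0, 0, 0, 30, 60], [0, 0, 0, 0, 90]], [[-3, 0, 1, 0, -2, -2, -2], [0, 0, 0, 0, 0, 0, 0], [-3, -3, 1, 0, -1, 0, 0], [0, 0, 1, 0, 0, 1, 0], [2, -3, 1, 0, -1, 0, 1]], [[-2, 2, 1, 0, 2, 10, 10], [0, 0, 0, 1, 0, 0, 0], [6, -2, -11, -20, -1, -10, -10], [0, 0, -3, -5, 0, -3, 0], [0, 0, -1, -2, 1, 2, -1]], [2, 10, -32, 20, 20]⟩, ⟨10, [[1, 5, 2, 4, 10], [0, 6, 0, 0, 0], [0, 0, 6, 0, 12], [0, 0, 0, 6, 12], [0, 0, 0, 0, 18]], [[3, 4, 2, 0, -4, 0, 0], [0, 0, 0, 0, 0, 0, 0], [1, -5, 0, 0, 0, 0, 0], [3, 4, 2, 0, -4, 0, 0], [4, 4, 2, 0, -4, 0, 0]], [[-2, 0, -1, -3, 2, 2, 2], [0, 0, 0, 1, 0, 0, 0], [4, -2, -5, -9, -1, -6, -6], [-2, 0, -2, -3, 2, 3, 2], [-2, 0,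 -1, -2, 2, 2, 3]], [2, 10, -32, 20, 20]⟩, ⟨12, [[1, 5, 2, 10, 40], [0, 10, 0, 0, 30], [0, 0, 3, 0, 15], [0, 0, 0, 15, 30], [0, 0, 0, 0, 45]], [[0, -1, 0, -3, 0, 0, 0], [0, 0, 3, -2, 0, 0, 0], [-3, 5, 1, -4, 0, 5, 5], [0, 0, -4, 2, 0, -1, 0], [1, -1, -5, -4, 0, -1, -2]], [[0, 0, 8, 15, 0, 0, 0], [0, 0, 1, 3, 0, 0, 0], [0, 0, 7, 15, 0, -10, -10], [0, 0, 0, 0, 0, 2, 0], [0, 0, 17, 33, 0, 2, 4]], [0, 0, -6, 0, 0]⟩, ⟨20, [[1, 5, 2, 1, 4], [0, 6, 0, 0, 0], [0, 0, 3, 0, 6], [0, 0, 0, 3, 6], [0, 0, 0, 0, 9]], [[0, -1, 6, 3, 0, 0, 0], [0, 0, 5, 0, 0, 0, 0], [-3, 5, 5, -10, 0, -1, -1], [0, -3, -2, -1, 0, 1, 0], [2, -2, 2, 6, 0, 0, 1]], [[0, 0, -9, -18, 0, 0, 0], [0, 0, -4, -7, 0, 0, 0], [0, 0, 10, 21, 0, 0, 0],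 [0, 0, 3, 6, 0, 0, 0], [0, 0, -10, -20, 0, 0, 0]], [0, 0, -6, 0, 0]⟩, ⟨30, [[1, 1, 2, 4, 16], [0, 2, 0, 0, 6], [0, 0, 6, 0, 12], [0, 0, 0, 6, 12], [0, 0, 0, 0, 18]], [[0, -1, 6, -3, 0, 0, 0], [-3, 3, -4, 2, 14, 2, 2], [0, 0, -2, 1, -7, 0, 0], [0, -1, -4, 2, 0, -1, 0], [1, 0, 0, 0, 0, 0, -1]], [[0, 0, 0, 0, 0, 0, 0], [0, 0, 0, 0, -2, -2, -2], [0, 0, 0, 0, 1, 0, 0], [0, 0, 0, 0, 0, 1, 0], [0, 0, 0, 0, 0, 0, 1]], [0, -4, 0, 0, 0]⟩, ⟨60, [[1, 1, 2, 1, 1], [0, 2, 0, 0, 6], [0, 0, 3, 0, 6], [0, 0, 0, 3, 6], [0, 0, 0, 0, 9]], [[-18, 29, 0, -9, -6, -6, -6], [9, -17, 0, 6, 3, 3, 3], [12, -20, 0, 6, 5, 4, 4], [6, -13, 0, 3, 2, 3, 2], [-16, 29, 0, -9, -6, -6, -5]], [[0, 0, 3, 6, 0, 0, 0], [0, 0, -2, -4, 0, 0, 0],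 [0, 0, -2, -4, 0, 0, 0], [0, 0, -1, -2, 0, 0, 0], [0, 0, 3, 6, 0, 0, 0]], [-12, 0, 0, 0, 0]⟩]⟩

theorem b55_ok : chkBad b55 = true := by decide +kernel

def b56 : BCert :=
  ⟨[[0, 1, 0, 0, 0, 0, 0], [1, 0, 0, 0, 0, 0, 0], [0, 0, 4, 3, 0, 0, 0], [0, 0, 3, 6, 0, 0, 0], [0, 0, 0, 0, 10, 0, 0], [0, 0, 0, 0, 0, 2, 0], [0, 0, 0, 0, 0, 0, 2]], 30, [[0, 30, 0, 0, 0, 0, 0], [30, 0, 0, 0, 0, 0, 0], [0, 0, 12, -6, 0, 0, 0], [0, 0, -6, 8, 0, 0, 0], [0, 0, 0, 0, 3, 0, 0], [0, 0, 0, 0, 0, 15, 0], [0, 0, 0, 0, 0, 0, 15]], [3, -3, 1, 0, 1, 1, 1], 1, [-3, 3, 4, 3, 10, 2, 2], [[0, -5, 6, -3, 0, 0, 0], [0, -1, 0, 1, 0, 0, 0], [0, -10, 0, 0, 3, 0, 0], [0, -2, 0, 0, 0, 3, 0], [0, -2, 0, 0, 0, 0, 3]], 90, [1, 15, 1, 5, 5],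 [-1, 5, 0, 0, 0], [30, 0, 0, 0, 0, 0, 0], 1, [⟨2, [[5, 1, 10, 2, 2], [0, 6, 0, 0, 0], [0, 0, 30, 0, 6], [0, 0, 0, 6, 12], [0, 0, 0, 0, 18]], [[-1, 0, 0, 0, 0, 0, 0], [0, 0, 0, 0, 0, 0, 0], [0, 0, 0, 0, 0, 0, 0], [0, 0, 0, 0, 0, 0, 0], [0, 0, 0, 0, 0, 0, 0]], [[-4, 4, 7, 3, 10, 2, 2], [0, 0, 0, 1, 0, 0, 0], [0, 0, -1, 0, 1, 0, 0], [6, -6, -9, -6, -20, -3, -4], [-4, 4, 6, 4, 13, 2, 3]], [10, 2, 20, -20, 4]⟩, ⟨4, [[5, 1, 10, 2, 2], [0, 6, 0, 0, 0], [0, 0, 15, 0, 3], [0, 0, 0, 3, 6], [0, 0, 0, 0, 9]], [[0, -1, -2, -1, 0, 0, 0], [0, 0, 1, 0, 0, 0, 0], [0, 0, 0, -2, 0, 0, 0], [1, -1, 1, -2, 0, 0, -1], [-2, -2, -2, 0, 0, 0, 1]], [[0, 0, 7, 6, 0, 0, 0], [0, 0, -2, -1, 0, 0, 0], [0, 0, 2, 6, 1, 0, 0], [2, -2,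 -2, 3, -5, 0, 0], [0, 2, 6, 4, 3, 0, 0]], [0, 0, 0, -6, 0]⟩, ⟨6, [[5, 1, 10, 2, 2], [0, 2, 0, 0, 6], [0, 0, 30, 0, 6], [0, 0, 0, 6, 12], [0, 0, 0, 0, 18]], [[0, -1, -3, -3, 0, 0, 0], [-3, -3, 2, -2, 2, 2, 2], [0, 0, -1, 1, 1, 0, 0], [0, 0, -1, 1, 0, -1, 0], [1, -1, 2, -2, -3, 0, -1]], [[0, 0, 8, 9, 0, 0, 0], [2, 0, -2, 2, -10, -2, -2], [0, 0, 0, -1, -3, 0, 0], [0, 0, 0, -1, 0, 1, 0], [0, 0, 0, 2, 11, 0, 1]], [0, -4, 0, 0, 0]⟩, ⟨10, [[1, 5, 2, 4, 4], [0, 6, 0, 0, 0], [0, 0, 6, 0, 12], [0, 0, 0, 6, 12], [0, 0, 0, 0, 18]], [[-5, 0, -5, -5, 0, 0, 0], [-1, -5, 0, 0, 0, -2, -2], [-5, -5, -5, -5, 0, 0, 0], [0, 3, 0, 0, 0, -2, 0], [0, -1, 0, 0, 0, -2, -4]], [[8, -8, -2, 0, -30, -6, -6], [-6, 8, 8, 8, 26, 6,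 6], [-2, 4, 10, 12, 11, 2, 2], [-6, 6, 6, 6, 20, 5, 4], [4, -4, -4, -4, -14, -2, -1]], [-30, 6, 0, 0, 0]⟩, ⟨12, [[5, 1, 10, 2, 2], [0, 2, 0, 0, 6], [0, 0, 15, 0, 3], [0, 0, 0, 3, 6], [0, 0, 0, 0, 9]], [[3, -4, 3, -3, 3, -3, -3], [-3, 3, 0, 4, -3, 3, 3], [-6, -6, -6, 2, 1, 2, 2], [-6, -6, -6, 2, 2, 3, 2], [2, -2, 0, -4, 5, -4, -3]], [[2, -2, -2, 0, -10, 0, 0], [-2, 2, 0, -2, 10, 0, 0], [0, 2, 4, 2, 2, 0, 0], [0, 2, 4, 2, 0, 0, 0], [2, -2, 0, 2, -14, 0, 0]], [-30, 6, 0, 0, 0]⟩, ⟨20, [[1, 5, 2, 1, 7], [0, 6, 0, 0, 0], [0, 0, 3, 0, 6], [0, 0, 0, 3, 6], [0, 0, 0, 0, 9]], [[-5, 0, 3, 1, 5, 5, 5], [-1, 5, 4, 8, -7, -7, -7], [-10, -10, -2, 6, -9, -10, -10], [-5, 6, -1, -7, 5, 6, 5], [5, -2, -7, -9, 1, 1, 2]],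 [[4, -4, -6, -6, -20, -4, -4], [-4, 4, 0, -2, 20, 4, 4], [-2, 4, 2, 0, 20, 4, 4], [-2, 2, 4, 6, 0, 0, 0], [0, 0, 6, 8, 0, 0, 0]], [-30, 6, 0, 0, 0]⟩, ⟨30, [[1, 1, 2, 4, 10], [0, 2, 0, 0, 6], [0, 0, 6, 0, 12], [0, 0, 0, 6, 12], [0, 0, 0, 0, 18]], [[-15, 10, -9, -3, 0, 0, 0], [-3, 5, 6, 2, 12, -6, -6], [-15, -15, 3, 1, -11, -10, -10], [0, 3, 6, 2, 10, 3, 10], [-14, 14, -3, -1, 10, 10, 3]], [[2, -2, 0, 0, -10, -2, -2], [-2, 2, 0, 0, -2, 2, 2], [0, 2, 0, 0, 11, 2, 2], [-2, 2, 0, 0, 0, 1, 0], [0, 0, 0, 0, -10, -2, -1]], [-30, 6, 0, 0, 0]⟩, ⟨60, [[1, 1, 2, 1, 4], [0, 2, 0, 0, 6], [0, 0, 3, 0, 6], [0, 0, 0, 3, 6], [0, 0, 0, 0, 9]], [[15, -20, -9, -3, -15, -15, -15], [27, -25, 6, 2, 9, 9, 9], [-30, -30, 6, 2,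 11, 10, 10], [15, -14, 3, 1, 5, 6, 5], [-28, 28, -6, -2, -10, -10, -9]], [[2, -2, 0, 0, 0, 0, 0], [0, 0, 0, 0, 0, 0, 0], [0, 2, 0, 0, 0, 0, 0], [0, 0, 0, 0, 0, 0, 0], [0, 0, 0, 0, 0, 0, 0]], [-30, 6, 0, 0, 0]⟩]⟩

theorem b56_ok : chkBad b56 = true := by decide +kernel

def b57 : BCert :=
  ⟨[[0, 1, 0, 0, 0, 0, 0], [1, 0, 0, 0, 0, 0, 0], [0, 0, 2, 1, 1, 1, 0], [0, 0, 1, 2, 0, 0, 0], [0, 0, 1, 0, 2, 0, 0], [0, 0, 1, 0, 0, 2, 0], [0, 0, 0, 0, 0, 0, 26]], 26, [[0, 26, 0, 0, 0, 0, 0], [26, 0, 0, 0, 0, 0, 0], [0, 0, 52, -26, -26, -26, 0], [0, 0, -26, 26, 13, 13, 0], [0, 0, -26, 13, 26, 13, 0], [0, 0, -26, 13, 13, 26, 0], [0, 0, 0, 0, 0, 0, 1]], [3, -6, 3, 0, -1, -1, 1], 1, [-6, 3, 4, 3, 1, 1, 26], [[0, -1,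 2, -1, -1, -1, 0], [0, -1, 0, 1, 0, 0, 0], [0, -1, 0, 0, 3, 0, 0], [0, -1, 0, 0, 0, 3, 0], [0, -26, 0, 0, 0, 0, 3]], 234, [117, 117, 13, 13, 1], [0, 0, 1, 1, 0], [78, 0, 0, 0, 0, 0, 0], 1, [⟨2, [[1, 1, 1, 1, 26], [0, 2, 0, 0, 0], [0, 0, 2, 2, 52], [0, 0, 0, 6, 78], [0, 0, 0, 0, 234]], [[0, -1, 0, -1, 0, 0, 0], [0, 0, 0, 0, 0, 0, 0], [-1, 0, -1, -1, 0, 0, 0], [-1, 0, 0, 0, 0, 0, 0], [-1, 0, 0, -1, 0, 0, 0]], [[0, 0, 2, 2, 0, 0, 0], [0, 0, 0, 1, 0, 0, 0], [18, -8, -8, -6, 1, -2, -78], [-6, 4, 4, 3, 0, 2, 26], [-2, 2, 2, 3, 0, 0, 9]], [0, 0, -12, 0, 0]⟩, ⟨4, [[1, 0, 0, 3, 39], [0, 1, 0, 3, 39], [0, 0, 1, 1, 26], [0, 0, 0, 6, 78], [0, 0, 0, 0, 117]], [[0, -1, -2, -1, -1, -1, 0], [1, 1, 1, 1, 1, 1, 0], [1,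 1, 1, 0, 0, 1, 0], [0, 1, -1, 0, 0, 1, 0], [-1, -2, -1, 0, 0, 0, 0]], [[0, 0, 4, 2, 2, 2, 0], [2, -2, -4, -2, -2, -2, -13], [-10, 4, 6, 4, 4, 0, 39], [0, 0, 0, 0, 0, 0, 0], [2, 0, 0, 0, 0, 0, -4]], [0, -2, 6, 0, 0]⟩]⟩

theorem b57_ok : chkBad b57 = true := by decide +kernel

def b58 : BCert :=
  ⟨[[0, 1, 0, 0, 0, 0, 0], [1, 0, 0, 0, 0, 0, 0], [0, 0, 2, 1, 1, 1, 0], [0, 0, 1, 2, 0, 0, 0], [0, 0, 1, 0, 2, 0, 0], [0, 0, 1, 0, 0, 2, 0], [0, 0, 0, 0, 0, 0, 42]], 42, [[0, 42, 0, 0, 0, 0, 0], [42, 0, 0, 0, 0, 0, 0], [0, 0, 84, -42, -42, -42, 0], [0, 0, -42, 42, 21, 21, 0], [0, 0, -42, 21, 42, 21, 0], [0, 0, -42, 21, 21, 42, 0], [0, 0, 0, 0, 0, 0, 1]], [3, -8, 1, 1, 0, 0, 1], 1, [-8, 3, 3, 3, 1, 1, 42], [[0,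 -1, 6, -3, -3, -3, 0], [0, -1, 0, 1, 0, 0, 0], [0, -1, 0, 0, 3, 0, 0], [0, -1, 0, 0, 0, 3, 0], [0, -14, 0, 0, 0, 0, 1]], 126, [7, 63, 7, 7, 3], [0, 0, 0, 0, 1], [42, 0, 0, 0, 0, 0, 0], 1, [⟨2, [[1, 1, 1, 7, 14], [0, 2, 0, 0, 0], [0, 0, 6, 12, 0], [0, 0, 0, 18, 0], [0, 0, 0, 0, 42]], [[0, -1, 0, -1, 0, 0, 0], [0, 0, 0, -1, 0, 0, 0], [-1, 0, -1, -1, 0, 0, 0], [0, -1, -1, -1, 0, 0, 0], [0, 0, 0, -1, 0, 0, 0]], [[0, 0, 4, 2, 0, 0, 0], [0, 0, 0, 3, 0, 0, 0], [8, -2, 0, 0, 1, 0, -42], [-4, 2, 4, 5, 1, 2, 28], [0, 0, 0, 2, 0, 0, 1]], [0, 0, -12, 0, 0]⟩, ⟨4, [[1, 0, 1, 16, 14], [0, 1, 0, 9, 0], [0, 0, 3, 15, 0], [0, 0, 0, 18, 0], [0, 0, 0, 0, 21]], [[0, -1, -2, 1, 1, 1, 0], [1, -1, -1, 0, 0, 0, 0], [-1, 0, -1,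 -2, -2, 1, 0], [-1, 0, 0, 1, 1, -2, 0], [0, 0, 0, -2, -2, -2, 0]], [[0, 0, 2, 0, 0, 0, 0], [4, -2, 0, 0, 0, 0, -21], [-4, 2, 4, 4, 4, 0, 21], [2, 0, -2, -2, -2, 2, -7], [0, 0, 2, 2, 2, 2, 1]], [0, -2, 6, 0, 0]⟩, ⟨6, [[1, 1, 1, 1, 0], [0, 2, 0, 0, 0], [0, 0, 6, 0, 14], [0, 0, 0, 6, 14], [0, 0, 0, 0, 42]], [[0, -1, 0, -3, 0, 0, 0], [0, -2, -2, -3, -3, -3, 0], [0, 2, -2, -2, -2, 2, 0], [0, 0, -1, -1, 2, 1, 0], [-2, -1, -3, -1, -2, 1, 0]], [[0, 0, 2, 2, 0, 0, 0], [6, -2, 2, 1, 2, 2, -28], [-6, 2, 4, 4, 3, 0, 28], [0, 0, 0, 1, -1, 0, 0], [2, 0, 2, 1, 2, 0, -9]], [0, -8, 24, 0, 0]⟩, ⟨42, [[1, 1, 1, 1, 0], [0, 2, 0, 0, 0], [0, 0, 6, 0, 2], [0, 0, 0, 6, 2], [0, 0, 0, 0, 6]], [[9, 17, 9, -21, -3, 18, 0], [-6,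 16, 16, 0, -9, 12, 0], [-3, 8, 19, 10, -20, 11, 0], [0, 0, -1, -10, 11, 1, 0], [1, -5, -20, 0, -11, 10, 0]], [[-2, 0, 0, 2, 0, -2, 6], [0, 0, -2, -1, 0, -2, -4], [0, 0, -2, -2, 1, -2, -2], [0, 0, 0, 1, -1, 0, 0], [0, 0, 2, 1, 2, 0, 1]], [6, -2, -6, 6, 0]⟩]⟩

theorem b58_ok : chkBad b58 = true := by decide +kernel

def b59 : BCert :=
  ⟨[[0, 1, 0, 0, 0, 0, 0], [1, 0, 0, 0, 0, 0, 0], [0, 0, 4, 1, 1, 5, 0], [0, 0, 1, 2, 0, 0, 0], [0, 0, 1, 0, 2, 0, 0], [0, 0, 5, 0, 0, 10, 0], [0, 0, 0, 0, 0, 0, 10]], 10, [[0, 10, 0, 0, 0, 0, 0], [10, 0, 0, 0, 0, 0, 0], [0, 0, 20, -10, -10, -10, 0], [0, 0, -10, 10, 5, 5, 0], [0, 0, -10, 5, 10, 5, 0], [0, 0, -10, 5, 5, 6, 0], [0, 0, 0, 0, 0, 0, 1]], [3, -3, 3, -1, -1, -1,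 1], 1, [-3, 3, 5, 1, 1, 5, 10], [[0, -1, 2, -1, -1, -1, 0], [0, -1, 0, 3, 0, 0, 0], [0, -1, 0, 0, 3, 0, 0], [0, -5, 0, 0, 0, 3, 0], [0, -10, 0, 0, 0, 0, 3]], 90, [45, 5, 5, 1, 1], [0, 5, 5, -4, 1], [30, 0, 0, 0, 0, 0, 0], 1, [⟨2, [[1, 1, 1, 5, 10], [0, 2, 2, 10, 20], [0, 0, 6, 0, 60], [0, 0, 0, 30, 30], [0, 0, 0, 0, 90]], [[0, -1, 0, -1, 0, 0, 0], [-1, -1, -1, 0, 0, 0, 0], [-1, -1, 0, -1, 0, 0, 0], [-1, -1, -1, -1, 0, 0, 0], [-1, -1, -1, 0, 0, 0, 0]], [[0, 0, 2, 2, 0, 0, 0], [10, -8, -10, 1, -2, -10, -30], [-2, 4, 6, 2, 2, 5, 10], [-2, 4, 10, 3, 2, 11, 10], [2, 0, 2, 1, 0, 3, -3]], [0, -12, 0, 0, 0]⟩, ⟨4, [[1, 0, 0, 15, 15], [0, 1, 1, 20, 25], [0, 0, 3, 15, 0], [0, 0, 0, 30, 30], [0, 0, 0, 0, 45]], [[0,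 -1, -2, -2, -1, 0, 0], [-2, 1, -2, 1, 0, 0, 0], [-2, -2, 0, -2, 0, 0, 0], [1, 0, -2, 1, 0, 0, 0], [0, 0, 0, -1, -1, 0, 0]], [[0, 0, 6, 3, 2, 5, 0], [8, -8, -10, 0, -2, -10, -30], [-2, 4, 6, 2, 2, 5, 10], [-4, 4, 10, 0, 2, 13, 15], [-2, 2, 4, 1, 2, 3, 7]], [0, -12, 0, 0, 0]⟩, ⟨10, [[1, 1, 1, 5, 10], [0, 2, 2, 4, 14], [0, 0, 6, 0, 6], [0, 0, 0, 6, 6], [0, 0, 0, 0, 18]], [[-3, 2, -1, -5, -5, 0, 0], [3, -3, -3, -4, 2, 0, 0], [-2, 2, 3, 1, -3, 0, 0], [3, -3, -3, 1, -3, 0, 0], [-1, 1, 4, 3, 1, 0, 0]], [[0, 0, 2, 2, 2, 0, -2], [-6, 6, 14, 5, 2, 14, 22], [2, -2, -6, -2, 0, -7, -8], [6, -6, -6, -2, 0, -5, -18], [2, -2, -8, -3, -2, -8, -7]], [-2, 42, -6, -30, 0]⟩, ⟨20, [[1, 0, 0, 3, 3], [0, 1, 1, 2, 7], [0, 0,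 3, 3, 6], [0, 0, 0, 6, 6], [0, 0, 0, 0, 9]], [[0, -1, 2, -1, -1, -1, 0], [2, -3, 2, 9, 6, 6, -6], [6, -6, 6, -3, -1, -2, 2], [3, -3, 2, -1, -1, 0, 1], [8, -8, 8, -4, -3, -3, 3]], [[0, 0, 0, 0, 0, 0, 0], [2, -2, -8, -2, -2, -10, 0], [0, 0, 0, 0, 0, 0, 0], [0, 0, 0, 0, 0, 0, 0], [0, 0, 0, 0, 0, 0, 0]], [0, -12, 0, 0, 0]⟩]⟩

theorem b59_ok : chkBad b59 = true := by decide +kernel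

end RH6.BD
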