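import Pool.Agent.RH6.UDef

namespace RH6.BD

def b60 : BCert :=
  ⟨[[0, 1, 0, 0, 0, 0, 0], [1, 0, 0, 0, 0, 0, 0], [0, 0, 8, 5, 5, 1, 0], [0, 0, 5, 10, 0, 0, 0], [0, 0, 5, 0, 10, 0, 0], [0, 0, 1, 0, 0, 2, 0], [0, 0, 0, 0, 0, 0, 2]], 10, [[0, 10, 0, 0, 0, 0, 0], [10, 0, 0, 0, 0, 0, 0], [0, 0, 4, -2, -2, -2, 0], [0, 0, -2, 2, 1, 1, 0], [0, 0, -2, 1, 2, 1, 0], [0, 0, -2, 1, 1, 6, 0], [0, 0, 0, 0, 0, 0, 5]], [3, -5, 3, -1, -1, -1, 1], 1, [-5, 3, 13, 5, 5, 1, 2], [[0, -5, 2, -1, -1, -1, 0], [0, -5, 0, 3, 0, 0, 0], [0, -5, 0, 0, 3, 0, 0], [0, -1, 0, 0, 0, 3, 0], [0, -2, 0, 0, 0, 0, 3]], 90, [9, 1, 1, 5, 5], [0, -1, -1, -4, 1], [30, 0, 0, 0, 0, 0, 0], 1, [⟨2, [[5, 5, 5, 1, 14], [0, 10, 10, 2, 10], [0, 0, 30, 0,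 12], [0, 0, 0, 6, 6], [0, 0, 0, 0, 18]], [[0, -1, 0, 0, 0, -1, 0], [0, 0, 0, 0, 0, -1, 0], [0, 0, 0, 0, 0, 0, 0], [-1, -1, 0, 0, 0, -1, 0], [-1, -1, 0, 0, 0, -1, 0]], [[0, 0, 2, 0, 0, 2, 0], [0, 0, 2, 3, 0, 2, 0], [0, 0, 0, -1, 1, 0, 0], [6, -2, -12, -6, -5, 2, -2], [0, 2, 4, 1, 1, 2, 1]], [0, 0, 0, -12, 0]⟩, ⟨4, [[5, 0, 0, 3, 3], [0, 5, 5, 4, 8], [0, 0, 15, 3, 0], [0, 0, 0, 6, 6], [0, 0, 0, 0, 9]], [[0, -1, 0, 0, 0, 1, 0], [0, -1, -2, 0, 0, -1, 0], [0, 0, -2, 0, 0, 0, 0], [0, 1, 1, 0, 0, -2, 0], [-1, -2, -1, 0, 0, -2, 0]], [[0, 0, 0, 0, 0, -1, 0], [0, 0, 10, 8, 5, 2, 0], [0, 0, 8, 4, 6, 1, 0], [0, 0, -4, -4, -3, 2, 0], [2, 0, 2, 0, 2, 2, 0]], [0, 0, 0, 0, -6]⟩, ⟨10, [[1, 1, 1, 5, 4], [0, 2, 2, 4, 2], [0,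 0, 6, 0, 6], [0, 0, 0, 6, 6], [0, 0, 0, 0, 18]], [[0, -5, 0, 0, 0, -5, 0], [1, -5, -3, 0, 0, 0, 2], [3, -5, 2, 0, 0, -3, -4], [-4, 4, 2, 0, 0, 3, 2], [-2, 3, -1, 0, 0, 0, 2]], [[0, 0, 2, 0, 0, 2, 0], [4, -2, -2, 3, 0, 0, -2], [0, 0, 0, -2, 0, 1, 2], [-2, 2, 0, -2, 0, -1, 0], [0, 0, 0, 1, 0, 0, -1]], [0, -12, 0, 0, 0]⟩, ⟨20, [[1, 0, 0, 3, 3], [0, 1, 1, 2, 1], [0, 0, 3, 3, 6], [0, 0, 0, 6, 6], [0, 0, 0, 0, 9]], [[-3, 0, -1, 0, 0, 0, -1], [-9, -10, -9, 6, 3, 3, -3], [0, 0, 0, -1, 1, 0, 0], [9, 9, 8, -3, -3, -2, 3], [-4, 6, -4, 2, 1, 1, -1]], [[0, 0, 0, 0, 0, 0, 0], [2, 0, 0, 0, 0, 0, 0], [0, 0, 0, 0, 0, 0, 0], [-2, 0, 0, 0, 0, 0, 0], [0, 0, 0, 0, 0, 0, 0]], [-2, -6, -6, 18, 0]⟩]⟩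

theorem b60_ok : chkBad b60 = true := by decide +kernel

def b61 : BCert :=
  ⟨[[0, 1, 0, 0, 0, 0, 0], [1, 0, 0, 0, 0, 0, 0], [0, 0, 2, 1, 0, 1, 0], [0, 0, 1, 4, 6, 0, 0], [0, 0, 0, 6, 12, 0, 0], [0, 0, 1, 0, 0, 2, 0], [0, 0, 0, 0, 0, 0, 14]], 42, [[0, 42, 0, 0, 0, 0, 0], [42, 0, 0, 0, 0, 0, 0], [0, 0, 84, -84, 42, -42, 0], [0, 0, -84, 126, -63, 42, 0], [0, 0, 42, -63, 35, -21, 0], [0, 0, -42, 42, -21, 42, 0], [0, 0, 0, 0, 0, 0, 3]], [3, -3, 0, 1, 0, 0, 1], 1, [-3, 3, 1, 4, 6, 0, 14], [[0, -2, 0, 6, -3, 0, 0], [0, -2, 0, 0, 1, 0, 0], [0, 0, 2, -2, 1, -1, 0], [0, 0, 0, 0, 0, 1, 0], [0, -14, 0, 0, 0, 0, 3]], 252, [7, 21, 126, 126, 2], [-1, 1, 0, 0, 0], [84, 0, 0, 0, 0, 0, 0], 1, [⟨2, [[2, 2, 0, 0, 14], [0,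 6, 1, 1, 0], [0, 0, 2, 0, 0], [0, 0, 0, 2, 0], [0, 0, 0, 0, 126]], [[-1, 0, 0, 0, 0, 0, 0], [-1, -1, 0, 0, 0, 0, 0], [-1, -1, 0, 0, 0, 0, 0], [-1, -1, -1, 0, 0, 0, 0], [-1, -1, 0, 0, 0, 0, 0]], [[8, -8, 0, -9, -18, 0, -42], [-2, 4, 0, 4, 8, 0, 14], [4, -2, 0, -4, -7, 0, -14], [4, -2, 2, -3, -7, 2, -14], [0, 2, 0, 1, 2, 0, 5]], [-12, 0, -2, -2, 0]⟩, ⟨4, [[1, 1, 0, 1, 7], [0, 6, 0, 0, 0], [0, 0, 1, 1, 0], [0, 0, 0, 2, 0], [0, 0, 0, 0, 63]], [[-2, 0, -2, -1, 0, 1, 0], [-1, 1, 0, -2, 0, -2, 0], [1, -1, 0, -2, 0, -2, 0], [1, 0, 1, -2, 0, 0, 0], [-2, -2, -2, 1, 0, -1, 0]], [[8, -8, 2, -6, -15, 0, -42], [-2, 2, 2, 6, 10, 2, 7], [2, -2, 2, 2, 3, 2, -7], [-4, 4, 0, 8, 15, 0, 21], [0, 2, 2, 0, -1, 2, 5]], [-12, 0,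 -2, -2, 0]⟩, ⟨6, [[2, 0, 1, 1, 98], [0, 2, 1, 1, 42], [0, 0, 2, 0, 0], [0, 0, 0, 2, 0], [0, 0, 0, 0, 126]], [[-3, 2, 0, 1, 0, -3, -2], [-3, 2, 0, 0, 0, -3, 0], [-3, -2, -2, -3, 0, 1, -2], [-3, -2, -3, -2, 0, 2, -2], [1, 0, 0, -2, 0, 0, 1]], [[-2, 2, 2, 1, 0, 2, 14], [2, -2, 0, -3, -4, 2, -14], [0, 2, 2, 5, 7, 0, 14], [0, 2, 2, 4, 5, 0, 14], [0, 0, 0, 2, 4, 0, -3]], [4, -12, 0, 0, 28]⟩, ⟨12, [[1, 1, 0, 1, 7], [0, 2, 0, 0, 42], [0, 0, 1, 1, 0], [0, 0, 0, 2, 0], [0, 0, 0, 0, 63]], [[-6, 4, 0, 0, -3, 0, -6], [-3, 3, 0, 0, 2, 0, -3], [-3, 3, 2, -3, 1, -1, 5], [3, -2, -1, 3, 1, 1, -1], [-4, 4, 0, 0, -1, 0, 3]], [[2, -2, 0, 0, 0, 0, 0], [-2, 2, 0, 0, 0, 0, 14], [0, 0, 0, 0, 0, 0, -14], [-2, 2, 0, 0, 0, 0, 14],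 [0, 0, 0, 0, 0, 0, -10]], [-12, 0, -2, 6, 0]⟩, ⟨28, [[1, 1, 0, 1, 7], [0, 6, 0, 0, 0], [0, 0, 1, 1, 0], [0, 0, 0, 2, 0], [0, 0, 0, 0, 9]], [[0, -2, 0, 6, -3, 0, 0], [0, 0, 0, -1, 10, 0, 0], [0, 0, -12, -9, 8, 6, 0], [0, 1, -1, 12, -13, -13, 0], [-1, 1, 0, -5, -7, 0, 0]], [[0, 0, 0, 0, 0, 0, 0], [0, 0, 0, -4, -8, 0, 0], [0, 0, 2, 0, -3, 0, 0], [0, 0, 0, 2, 6, 2, 0], [0, 0, 0, 4, 8, 0, 0]], [0, 0, 0, 0, -6]⟩]⟩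

theorem b61_ok : chkBad b61 = true := by decide +kernel

def b62 : BCert :=
  ⟨[[0, 1, 0, 0, 0, 0, 0], [1, 0, 0, 0, 0, 0, 0], [0, 0, 2, 1, 0, 1, 0], [0, 0, 1, 4, 6, 0, 0], [0, 0, 0, 6, 12, 0, 0], [0, 0, 1, 0, 0, 2, 0], [0, 0, 0, 0, 0, 0, 30]], 30, [[0, 30, 0, 0, 0, 0, 0], [30, 0, 0, 0, 0, 0, 0], [0, 0, 60, -60, 30, -30, 0], [0, 0, -60, 90, -45, 30, 0], [0, 0, 30, -45, 25, -15, 0], [0, 0, -30, 30, -15, 30, 0], [0, 0, 0, 0, 0, 0, 1]], [3, -6, 2, 0, 0, -1, 1], 1, [-6, 3, 3, 2, 0, 0, 30], [[0, -4, 0, 6, -3, 0, 0], [0, 0, 0, 0, 1, 0, 0], [0, -2, 6, -6, 3, -3, 0], [0, 0, 0, 0, 0, 1, 0], [0, -10, 0, 0, 0, 0, 1]], 180, [5, 15, 10, 90, 6], [0, 0, 0, 0, 1], [60, 0, 0, 0, 0, 0, 0], 1, [⟨2, [[2, 0, 1, 1, 20], [0,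 6, 9, 1, 0], [0, 0, 18, 0, 0], [0, 0, 0, 2, 0], [0, 0, 0, 0, 30]], [[-1, 0, 0, 0, 0, 0, 0], [-1, 0, 0, -1, 0, 0, 0], [0, 0, 0, 0, 0, 0, 0], [0, -1, -1, -1, 0, 0, 0], [0, -1, 0, 0, 0, 0, 0]], [[-20, 10, 12, 9, 0, 0, 90], [-6, 4, 4, 7, 8, 0, 30], [4, -2, -2, -2, -1, 0, -20], [14, -6, -4, -1, 5, 2, -60], [14, -6, -8, -6, 0, 0, -59]], [12, 12, 0, 0, 0]⟩, ⟨4, [[1, 3, 5, 0, 10], [0, 6, 0, 0, 0], [0, 0, 9, 1, 0], [0, 0, 0, 2, 0], [0, 0, 0, 0, 15]], [[-1, -2, 0, -1, 0, -2, 0], [-1, 0, 0, 0, 0, 0, 0], [1, 0, 0, -2, 0, 0, 0], [-1, 1, 1, 1, 0, -2, 0], [-2, -2, 0, -2, 0, 0, 0]], [[8, -4, 0, 2, 3, 2, -45], [-2, 2, 0, 0, 1, 0, 15], [-4, 2, 2, 4, 6, 0, 25], [0, 0, 0, -2, -3, 2, -5], [-4, 4, 2, 4, 6, 0, 31]], [-6, -6,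 0, 2, 0]⟩, ⟨6, [[2, 0, 1, 1, 20], [0, 2, 3, 1, 20], [0, 0, 6, 0, 10], [0, 0, 0, 2, 0], [0, 0, 0, 0, 30]], [[-3, -2, 0, -3, 0, -3, 0], [0, 0, 0, -3, 0, -3, 0], [0, 0, 0, 0, 0, 0, 0], [-3, 1, 1, 0, 0, 0, 0], [2, -3, 0, 0, 0, 0, 0]], [[6, -2, 0, 3, 6, 2, -30], [12, -6, -4, 1, 8, 2, -60], [-8, 4, 4, 2, -1, 0, 40], [-10, 6, 4, 2, -1, 0, 50], [-8, 4, 4, 2, -1, 0, 47]], [-12, -24, 6, 2, 0]⟩, ⟨10, [[2, 0, 1, 1, 2], [0, 6, 9, 1, 0], [0, 0, 18, 0, 0], [0, 0, 0, 2, 0], [0, 0, 0, 0, 6]], [[1, -4, -1, -2, 1, -2, 0], [-4, -2, -1, 0, 1, -2, 0], [3, 4, 4, -3, -4, -2, 0], [-2, -5, 2, -4, 4, -3, 0], [3, 3, -3, 4, 3, 4, 0]], [[4, -2, 0, 0, 0, 1, -18], [10, -4, -4, -4, -2, 1, -48], [-6, 2, 2, 8, 13, 0, 26], [-6, 4, 4, 0, -5,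 1, 36], [-2, 0, 0, -6, -12, -1, 7]], [-12, -96, 6, 2, 0]⟩, ⟨20, [[1, 3, 5, 0, 1], [0, 6, 0, 0, 0], [0, 0, 9, 1, 0], [0, 0, 0, 2, 0], [0, 0, 0, 0, 3]], [[2, -8, 8, -4, 7, -4, 0], [3, -4, -8, 2, -10, -6, 0], [-9, 0, 8, -4, 2, -4, 0], [-4, 7, 7, 7, -6, -3, 0], [6, 6, 4, 8, -9, 8, 0]], [[4, -2, -2, -4, -6, 0, -18], [0, 0, 2, 6, 11, 2, 3], [-2, 2, 0, 0, 0, 0, 11], [0, 0, -2, 0, 3, 0, -4], [-2, 0, -2, 2, 6, -2, 7]], [-12, -24, 6, 2, 0]⟩, ⟨30, [[2, 0, 1, 1, 2], [0, 2, 3, 1, 2], [0, 0, 6, 0, 4], [0, 0, 0, 2, 0], [0, 0, 0, 0, 6]], [[9, 10, 6, -12, 6, 12, 0], [9, 12, 6, -15, 8, 12, 0], [-6, 12, 12, 6, -7, -6, 0], [-9, -11, 9, -9, -7, 11, 0], [-2, 3, -2, -15, -10, -14, 0]], [[-2, 0, 0, 1, 0, -2, 6], [-2, 0, 0, 1,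 0, -2, 6], [0, 0, -2, 0, 3, 0, -4], [2, 0, -2, 4, 9, -2, -6], [0, 0, 2, 8, 14, 2, -1]], [12, 12, 0, 0, 0]⟩]⟩

theorem b62_ok : chkBad b62 = true := by decide +kernel

def b63 : BCert :=
  ⟨[[0, 1, 0, 0, 0, 0, 0], [1, 0, 0, 0, 0, 0, 0], [0, 0, 6, 3, 0, 3, 0], [0, 0, 3, 4, 2, 0, 0], [0, 0, 0, 2, 4, 0, 0], [0, 0, 3, 0, 0, 6, 0], [0, 0, 0, 0, 0, 0, 10]], 30, [[0, 30, 0, 0, 0, 0, 0], [30, 0, 0, 0, 0, 0, 0], [0, 0, 20, -20, 10, -10, 0], [0, 0, -20, 30, -15, 10, 0], [0, 0, 10, -15, 15, -5, 0], [0, 0, -10, 10, -5, 10, 0], [0, 0, 0, 0, 0, 0, 3]], [5, -8, 5, -2, 2, -2, 1], 1, [-8, 5, 18, 11, 4, 3, 10], [[0, -18, 0, 10, -5, 0, 0], [0, -4, 0, 0, 5, 0, 0], [0, -3, 2, -2, 1, -1, 0], [0, -3, 0, 0, 0, 5, 0], [0, -2, 0,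 0, 0, 0, 1]], 300, [1, 3, 50, 2, 30], [1, 9, 0, 2, 0], [60, 0, 0, 0, 0, 0, 0], 1, [⟨2, [[6, 8, 3, 111, 4], [0, 10, 3, 105, 0], [0, 0, 6, 0, 0], [0, 0, 0, 150, 0], [0, 0, 0, 0, 10]], [[-1, -1, 0, 0, 0, 0, 0], [0, 0, 0, 0, 0, 0, 0], [0, 0, 0, 0, 0, 0, 0], [-1, 0, 0, 0, 0, 0, 0], [-1, -1, 0, 0, 0, 0, 0]], [[-26, 16, 59, 38, 12, 9, 30], [18, -10, -40, -25, -6, -6, -20], [0, 0, 0, -1, -1, 0, 0], [12, -6, -26, -17, -7, -4, -14], [10, -4, -20, -13, -4, -3, -9]], [36, 8, 6, -174, 4]⟩, ⟨4, [[3, 9, 0, 33, 2], [0, 10, 0, 30, 0], [0, 0, 3, 75, 0], [0, 0, 0, 150, 0], [0, 0, 0, 0, 5]], [[0, -2, -2, -2, -2, 0, 0], [-2, 1, -2, -1, -2, 0, 0], [0, -1, 0, 1, 0, 0, 0], [-2, 0, -1, 0, 1, 0, 0], [0, -2, 0, 0, 0, 0, 0]], [[-2,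 0, 14, 14, 6, 3, 0], [-6, 6, 21, 14, 10, 6, 10], [0, 0, -1, -2, -1, 0, 0], [2, 0, -1, -2, -3, 1, -2], [2, 0, -2, -2, 0, 0, 1]], [0, 40, 0, 0, 0]⟩, ⟨6, [[2, 6, 0, 22, 8], [0, 10, 1, 5, 0], [0, 0, 2, 0, 0], [0, 0, 0, 50, 0], [0, 0, 0, 0, 10]], [[0, -3, 0, -1, -1, 0, 0], [0, -1, 0, -3, 2, 0, 0], [0, 2, 0, 2, -2, 0, 0], [-1, -1, 0, -3, 2, 0, -2], [0, 1, 0, 2, 2, 0, 1]], [[-2, 0, 6, 7, 2, 0, 0], [2, 0, 0, 0, 0, 0, 0], [-2, 0, 0, 0, 1, 0, 0], [2, 0, 0, 0, -1, 0, 6], [2, 0, -6, -8, -4, 0, -3]], [0, 0, 0, -20, 0]⟩, ⟨10, [[6, 8, 3, 21, 8], [0, 10, 3, 15, 4], [0, 0, 6, 0, 0], [0, 0, 0, 30, 2], [0, 0, 0, 0, 10]], [[0, -3, -5, -5, 0, -5, 0], [0, 2, -5, -3, 2, -5, 0], [0, 0, -3, 2, 0, 4, 0], [0, 1, 0, 2, -5, -4, 0],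 [2, -2, 2, -4, 1, 0, 0]], [[0, 0, 13, 8, 2, 9, 0], [0, 0, 10, 4, 0, 9, 0], [0, 0, 0, 0, -1, -3, 0], [0, 0, 1, 0, 3, 5, 0], [0, 0, 1, 2, 1, -1, 1]], [0, 0, 0, 0, 8]⟩, ⟨12, [[1, 3, 0, 11, 4], [0, 10, 0, 30, 0], [0, 0, 1, 25, 0], [0, 0, 0, 50, 0], [0, 0, 0, 0, 5]], [[-4, -2, -4, 2, 3, 4, 4], [-6, 5, -6, -3, 2, 0, -6], [0, -3, 2, -2, 1, -1, 0], [4, -4, 3, -1, 1, -1, -4], [-4, -6, -4, -4, 0, 4, 3]], [[24, -16, -54, -32, -16, -12, -40], [-8, 6, 24, 14, 4, 6, 20], [0, 0, 0, 0, 0, 0, 0], [0, 0, 0, 0, 0, 0, 8], [-18, 14, 48, 30, 12, 6, 22]], [-40, 0, 0, 0, 0]⟩, ⟨20, [[3, 9, 0, 3, 0], [0, 10, 0, 0, 3], [0, 0, 3, 15, 1], [0, 0, 0, 30, 2], [0, 0, 0, 0, 5]], [[0, -6, -10, 0, -10, -10, 0], [0, 5, 0, -3, 2, -10, 0], [0,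 -1, 4, 6, 7, 3, 0], [0, 1, 3, 0, -10, -3, 0], [-1, -2, -1, -1, 0, -3, 0]], [[0, 0, 10, 6, 4, 9, 0], [0, 0, 3, 0, 0, 6, 0], [0, 0, -5, -5, -4, -3, 0], [0, 0, -1, 1, 4, 1, 0], [0, 0, 2, 1, 0, 2, 0]], [0, 0, 0, 0, -2]⟩, ⟨30, [[2, 6, 0, 2, 0], [0, 10, 1, 5, 0], [0, 0, 2, 0, 0], [0, 0, 0, 10, 4], [0, 0, 0, 0, 10]], [[0, -9, 10, 5, -10, 10, 0], [0, 5, 10, -3, 2, 10, 0], [0, -4, -4, 8, -8, 2, 0], [0, -1, -15, -7, 7, 8, 0], [2, -3, 2, 14, -14, 14, -1]], [[0, 0, -6, -1, 2, -6, 0], [0, 0, -6, -2, 0, -6, 0], [0, 0, 0, 0, 1, 0, 0], [0, 0, 6, 4, -1, 0, 0], [0, 0, -6, -2, 2, -6, 1]], [0, 0, 0, 0, 8]⟩, ⟨60, [[1, 3, 0, 1, 0], [0, 10, 0, 0, 3], [0, 0, 1, 5, 2], [0, 0, 0, 10, 4], [0, 0, 0, 0, 5]], [[0, -18, 0, 10, -5, 0,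 0], [0, 5, 0, -3, 2, 0, 0], [0, -3, 2, -2, 1, -1, 0], [0, 3, -1, 0, 0, 1, 0], [-1, -3, -1, 3, -2, 0, 0]], [[0, 0, 0, 0, 0, 0, 0], [0, 0, 0, 0, 0, 0, 0], [0, 0, 0, 0, 0, 0, 0], [0, 0, 0, 0, 0, 0, 0], [0, 0, 0, 0, 0, 0, 0]], [0, 0, 0, 0, -2]⟩]⟩

theorem b63_ok : chkBad b63 = true := by decide +kernel

def b64 : BCert :=
  ⟨[[0, 1, 0, 0, 0, 0, 0], [1, 0, 0, 0, 0, 0, 0], [0, 0, 2, 1, 0, 1, 0], [0, 0, 1, 8, 14, 0, 0], [0, 0, 0, 14, 28, 0, 0], [0, 0, 1, 0, 0, 2, 0], [0, 0, 0, 0, 0, 0, 10]], 70, [[0, 70, 0, 0, 0, 0, 0], [70, 0, 0, 0, 0, 0, 0], [0, 0, 140, -140, 70, -70, 0], [0, 0, -140, 210, -105, 70, 0], [0, 0, 70, -105, 55, -35, 0], [0, 0, -70, 70, -35, 70, 0], [0, 0, 0, 0, 0, 0, 7]], [3, -3, 0, 1, 0, 0, 1],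 1, [-3, 3, 1, 8, 14, 0, 10], [[0, -2, 0, 6, -3, 0, 0], [0, -14, 0, 0, 3, 0, 0], [0, 0, 2, -2, 1, -1, 0], [0, 0, 0, 0, 0, 1, 0], [0, -10, 0, 0, 0, 0, 3]], 1260, [35, 5, 630, 630, 14], [-7, 1, 0, 0, 0], [420, 0, 0, 0, 0, 0, 0], 1, [⟨2, [[2, 14, 0, 0, 10], [0, 42, 1, 1, 60], [0, 0, 2, 0, 0], [0, 0, 0, 2, 0], [0, 0, 0, 0, 90]], [[-1, 0, 0, 0, 0, 0, 0], [-1, -1, 0, 0, 0, 0, 0], [-1, -1, 0, 0, 0, 0, 0], [-1, -1, -1, 0, 0, 0, 0], [-1, -1, 0, 0, 0, 0, 0]], [[8, -8, 0, -21, -42, 0, -30], [-2, 4, 0, 8, 16, 0, 10], [4, -2, 0, -8, -15, 0, -10], [4, -2, 2, -7, -15, 2, -10], [2, 0, 0, -3, -6, 0, -3]], [-12, 0, -2, -2, 0]⟩, ⟨4, [[1, 7, 0, 1, 5], [0, 42, 0, 0, 15], [0, 0, 1, 1, 0], [0, 0, 0, 2, 0], [0, 0, 0, 0, 45]], [[-2,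 0, -2, -1, 0, 1, 0], [-1, 1, 0, 0, 0, 0, 0], [1, -1, 0, 0, 0, 0, 0], [1, 0, 1, 0, 0, -2, 0], [1, -1, -2, 1, 0, -1, 0]], [[8, -8, 2, -16, -35, 0, -30], [-2, 2, 0, 4, 8, 0, 5], [2, -2, 0, -4, -7, 0, -5], [-4, 4, 0, 10, 21, 2, 15], [0, 0, 2, -2, -5, 2, 2]], [-12, 0, -2, -2, 0]⟩, ⟨10, [[2, 14, 0, 0, 10], [0, 42, 1, 1, 6], [0, 0, 2, 0, 0], [0, 0, 0, 2, 0], [0, 0, 0, 0, 18]], [[3, -4, 0, 4, -4, 0, 0], [0, 0, 0, -1, 2, 0, 0], [0, 0, -4, -3, -3, 2, 0], [0, 0, -5, 3, -1, -2, 0], [-2, 2, 0, -2, -4, 0, 0]], [[0, 0, 0, 7, 14, 0, 2], [0, 0, 0, -4, -8, 0, 0], [0, 0, 2, 14, 25, 0, 0], [0, 0, 2, -1, -3, 2, 0], [0, 0, 0, 13, 26, 0, -1]], [4, 28, 0, 0, -4]⟩, ⟨14, [[2, 2, 0, 0, 70], [0, 6, 1, 1, 60], [0, 0, 2, 0, 0], [0,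 0, 0, 2, 0], [0, 0, 0, 0, 90]], [[3, -4, 0, -3, 0, -7, -6], [-6, 4, 0, -3, 0, 0, -2], [3, -2, -6, -3, 0, 3, -6], [3, -2, -7, -2, 0, 4, -6], [2, 0, 0, 6, 0, -7, 0]], [[0, 0, 2, 5, 8, 2, 10], [0, 0, 0, 2, 4, 0, 0], [0, 0, 2, 5, 7, 0, 10], [0, 0, 2, 4, 5, 0, 10], [0, 0, 0, -7, -12, 2, 1]], [4, -20, 0, 0, 20]⟩, ⟨28, [[1, 1, 0, 1, 35], [0, 6, 0, 0, 15], [0, 0, 1, 1, 0], [0, 0, 0, 2, 0], [0, 0, 0, 0, 45]], [[10, -12, 0, 0, -3, 0, -6], [3, -5, 0, 0, 1, 0, -13], [-3, 3, 2, -3, 1, -1, 13], [-13, -14, -1, 3, 1, 1, -9], [13, -11, 0, 0, 2, 0, 10]], [[2, -2, 0, 0, 0, 0, 0], [0, 0, 0, 0, 0, 0, 10], [0, 0, 0, 0, 0, 0, -10], [0, 2, 0, 0, 0, 0, 10], [0, 0, 0, 0, 0, 0, -4]], [-12, 0, -2, 6, 0]⟩]⟩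

theorem b64_ok : chkBad b64 = true := by decide +kernel

def b65 : BCert :=
  ⟨[[0, 1, 0, 0, 0, 0, 0], [1, 0, 0, 0, 0, 0, 0], [0, 0, 2, 1, 0, 1, 0], [0, 0, 1, 16, 30, 0, 0], [0, 0, 0, 30, 60, 0, 0], [0, 0, 1, 0, 0, 2, 0], [0, 0, 0, 0, 0, 0, 10]], 30, [[0, 30, 0, 0, 0, 0, 0], [30, 0, 0, 0, 0, 0, 0], [0, 0, 60, -60, 30, -30, 0], [0, 0, -60, 90, -45, 30, 0], [0, 0, 30, -45, 23, -15, 0], [0, 0, -30, 30, -15, 30, 0], [0, 0, 0, 0, 0, 0, 3]], [3, -5, 1, 1, 0, 0, 1], 1, [-5, 3, 3, 17, 30, 1, 10], [[0, -4, 0, 6, -3, 0, 0], [0, -10, 0, 0, 1, 0, 0], [0, -1, 6, -6, 3, -3, 0], [0, -1, 0, 0, 0, 3, 0], [0, -10, 0, 0, 0, 0, 3]], 180, [5, 3, 10, 10, 2], [-5, -2, 5, 5, 0], [60, 0, 0, 0, 0, 0, 0], 1, [⟨2, [[2, 20, 5, 5,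 20], [0, 30, 3, 3, 60], [0, 0, 6, 0, 60], [0, 0, 0, 6, 60], [0, 0, 0, 0, 90]], [[0, 0, 0, -1, 0, 0, 0], [0, -1, 0, 0, 0, 0, 0], [0, -1, 0, -1, 0, 0, 0], [-1, 0, 0, 0, 0, 0, 0], [0, -1, 0, 0, 0, 0, 0]], [[-2, 0, 4, 19, 30, 0, 0], [2, 0, -2, -1, 2, 0, 0], [2, 0, 0, 14, 29, 0, 0], [6, -2, -4, -19, -31, 0, -10], [-4, 2, 4, 14, 20, 0, 7]], [0, 0, 0, -12, 0]⟩, ⟨4, [[1, 25, 1, 4, 10], [0, 30, 0, 0, 0], [0, 0, 3, 3, 15], [0, 0, 0, 6, 15], [0, 0, 0, 0, 45]], [[0, 0, -2, 1, 0, 1, 0], [-1, -2, 1, -2, 0, -2, 0], [1, -2, 1, 1, 0, 1, 0], [-2, 0, -1, -1, 0, -2, 0], [1, -2, -2, 0, 0, 1, 0]], [[-12, 6, 10, 30, 45, 2, 20], [10, -4, -6, -12, -14, 0, -15], [4, -2, -4, -18, -30, -2, -5], [6, -2, -2, -10, -15, 2, -10], [0, 0,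 2, 4, 5, 0, 2]], [8, 20, 2, 2, 20]⟩, ⟨6, [[2, 0, 5, 5, 50], [0, 10, 3, 3, 0], [0, 0, 6, 0, 60], [0, 0, 0, 6, 60], [0, 0, 0, 0, 90]], [[0, 0, 2, 2, 0, -3, 2], [-3, 0, 1, -2, 0, -3, -2], [0, 0, 2, 2, 0, -2, -2], [0, 0, 1, -3, 0, -1, -2], [-1, 2, 1, 1, 0, -3, -1]], [[-4, 2, 2, 1, 0, 2, 0], [-2, 2, 2, 17, 32, 2, 10], [4, -2, -4, -24, -41, 0, 0], [4, -2, -2, 3, 9, 0, 0], [-4, 2, 2, 5, 8, 2, 9]], [8, 20, 2, 2, 20]⟩, ⟨10, [[2, 2, 2, 2, 14], [0, 6, 3, 3, 6], [0, 0, 6, 0, 6], [0, 0, 0, 6, 6], [0, 0, 0, 0, 18]], [[-4, -2, 2, 0, 0, -5, 0], [3, 4, 1, 0, 0, 0, 0], [-3, -4, -5, 0, 0, -3, 0], [-3, -4, 4, 1, 0, -2, 0], [-5, -1, -2, -3, 0, 0, 0]], [[-2, 2, 2, 7, 12, 2, 4], [-2, 0, 0, 4, 8, 0, 2], [2, 0, 2, -3, -7, 2, -2],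 [2, 0, -2, -8, -13, 0, -2], [2, 0, 0, 4, 8, 0, -3]], [8, 20, 2, 2, -16]⟩, ⟨12, [[1, 5, 1, 4, 40], [0, 10, 0, 0, 30], [0, 0, 3, 3, 15], [0, 0, 0, 6, 15], [0, 0, 0, 0, 45]], [[-6, 2, -6, -6, 0, -6, -6], [-3, -2, 3, -6, 0, -6, -3], [3, -4, -3, 0, 0, -4, -5], [3, 1, -2, 0, 0, 4, -1], [4, -5, 1, 0, 0, 0, 5]], [[4, -2, 2, 1, 0, 2, 0], [-2, 2, 2, 24, 46, 2, 10], [0, 0, 2, 3, 5, 2, 10], [-4, 2, 2, 14, 25, 0, 10], [0, 0, 0, 3, 6, 0, -6]], [-12, 0, -6, 18, 0]⟩, ⟨20, [[1, 1, 1, 4, 1], [0, 6, 0, 0, 0], [0, 0, 3, 3, 6], [0, 0, 0, 6, 6], [0, 0, 0, 0, 9]], [[2, 6, -6, -10, 0, -10, -6], [3, -6, 1, -10, 0, -10, 1], [3, -4, -7, -8, 0, 4, 1], [-5, -3, -6, 8, 0, -4, 5], [-10, -6, -4, -10, 0, -10, -3]], [[2, -2, 2, 7, 12, 2,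 0], [0, 0, 2, 18, 34, 2, 0], [0, 0, 2, 15, 27, 0, 0], [-2, 2, 2, -4, -9, 2, 0], [2, 0, 2, 11, 20, 2, 0]], [-12, 0, -6, 18, 0]⟩, ⟨30, [[2, 0, 5, 5, 14], [0, 2, 3, 3, 12], [0, 0, 6, 0, 6], [0, 0, 0, 6, 6], [0, 0, 0, 0, 18]], [[6, -12, 2, -10, 0, -15, -4], [-3, 0, -1, 14, 0, -15, 2], [-3, 9, -15, 3, 0, -8, 2], [-3, 9, 14, 4, 0, -7, 2], [1, 0, 0, 0, 0, 0, -1]], [[0, 0, 2, 13, 24, 2, 4], [0, 0, 0, -15, -28, 2, -2], [0, 0, 2, -4, -9, 2, -2], [0, 0, -2, -7, -11, 0, -2], [0, 0, 0, 0, 0, 0, 1]], [8, -4, 2, 2, 20]⟩, ⟨60, [[1, 1, 1, 4, 1], [0, 2, 0, 0, 6], [0, 0, 3, 3, 6], [0, 0, 0, 6, 6], [0, 0, 0, 0, 9]], [[-18, 26, -6, 0, -3, 0, -6], [9, -18, 3, 0, 2, 0, 3], [3, -4, 3, -3, 2, -1, 1], [15, -23, 4, 3, 1, 1, 5], [-16,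 26, -6, 0, -3, 0, -5]], [[0, 0, 0, 0, 0, 0, 0], [0, 0, 0, 0, 0, 0, 0], [0, 0, 0, 0, 0, 0, 0], [0, 0, 0, 0, 0, 0, 0], [0, 0, 0, 0, 0, 0, 0]], [-12, 0, -6, 18, 0]⟩]⟩

theorem b65_ok : chkBad b65 = true := by decide +kernel

def b66 : BCert :=
  ⟨[[0, 1, 0, 0, 0, 0, 0], [1, 0, 0, 0, 0, 0, 0], [0, 0, 10, 5, 0, 5, 0], [0, 0, 5, 8, 6, 0, 0], [0, 0, 0, 6, 12, 0, 0], [0, 0, 5, 0, 0, 10, 0], [0, 0, 0, 0, 0, 0, 2]], 30, [[0, 30, 0, 0, 0, 0, 0], [30, 0, 0, 0, 0, 0, 0], [0, 0, 12, -12, 6, -6, 0], [0, 0, -12, 18, -9, 6, 0], [0, 0, 6, -9, 7, -3, 0], [0, 0, -6, 6, -3, 6, 0], [0, 0, 0, 0, 0, 0, 15]], [3, -5, 1, 1, 0, 0, 1], 1, [-5, 3, 15, 13, 6, 5, 2], [[0, -20, 0, 6, -3, 0, 0], [0, -2, 0, 0, 1, 0, 0], [0, -5, 6, -6, 3,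 -3, 0], [0, -5, 0, 0, 0, 3, 0], [0, -2, 0, 0, 0, 0, 3]], 180, [1, 15, 2, 2, 10], [-1, 2, 1, 1, 0], [60, 0, 0, 0, 0, 0, 0], 1, [⟨2, [[10, 4, 25, 25, 16], [0, 6, 15, 15, 12], [0, 0, 30, 0, 12], [0, 0, 0, 30, 12], [0, 0, 0, 0, 18]], [[0, 0, 0, 0, 0, 0, 0], [-1, 0, 0, 0, 0, 0, 0], [-1, 0, 0, 0, 0, 0, 0], [-1, 0, 0, 0, 0, 0, 0], [0, -1, 0, 0, 0, 0, 0]], [[-12, 6, 33, 29, 12, 10, 4], [6, -2, -17, -14, -4, -5, -2], [6, -2, -16, -15, -7, -5, -2], [6, -2, -16, -15, -7, -4, -2], [4, -2, -10, -8, -4, -4, -1]], [40, 4, 10, 10, -32]⟩, ⟨4, [[5, 5, 5, 20, 8], [0, 6, 0, 0, 0], [0, 0, 15, 15, 3], [0, 0, 0, 30, 3], [0, 0, 0, 0, 9]], [[0, 0, -2, -2, 0, 0, 0], [0, -1, 0, -1, 0, 0, 0], [0, 1, -2, -1, 0, 0, 0], [0, -2, 1, 1,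 0, 0, 0], [-1, 0, 0, -1, 0, 0, 0]], [[-2, 0, 18, 16, 6, 5, 0], [2, 0, 0, 2, 4, 0, 0], [0, 0, 12, 8, 3, 5, 0], [2, 0, -9, -8, -3, -2, 0], [2, 0, -2, 0, 2, -1, 0]], [0, 0, 0, 0, -6]⟩, ⟨6, [[10, 0, 25, 25, 4], [0, 2, 15, 15, 0], [0, 0, 30, 0, 12], [0, 0, 0, 30, 12], [0, 0, 0, 0, 18]], [[0, 0, -1, -1, 0, -3, 2], [-3, 0, -2, -2, 0, -3, -2], [-3, -3, -3, 0, 0, 2, -2], [-3, -3, 1, -1, 0, 1, -2], [1, 0, -3, 2, 0, 0, -3]], [[-4, 2, 21, 14, 6, 15, 0], [8, -4, -10, -12, -4, 5, -2], [0, 2, 11, 8, 1, 0, 2], [0, 2, 1, 4, 3, -3, 2], [2, -2, -1, -6, -6, 2, 1]], [40, -20, 10, 10, 4]⟩, ⟨10, [[2, 2, 2, 2, 8], [0, 6, 3, 3, 6], [0, 0, 6, 0, 6], [0, 0, 0, 6, 6], [0, 0, 0, 0, 18]], [[-1, -5, 3, -4, -4, 0, -2], [4, 3, -2, -3,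 4, 0, -2], [0, 1, 0, 0, -3, 0, 0], [0, 1, 1, -2, 3, 0, 0], [-2, -4, -1, -1, -4, 0, 2]], [[-4, 2, 10, 19, 18, 0, 2], [2, -2, 0, -4, -8, 0, 0], [0, 0, 0, 3, 7, 0, 0], [0, 0, 0, -2, -5, 0, 0], [2, 0, 0, 5, 10, 0, -1]], [12, -12, 0, 0, 0]⟩, ⟨12, [[5, 1, 5, 20, 5], [0, 2, 0, 0, 6], [0, 0, 15, 15, 3], [0, 0, 0, 30, 3], [0, 0, 0, 0, 9]], [[0, -4, -6, -3, -6, -3, 0], [-3, -6, -1, 2, -2, -6, -1], [0, 1, -2, 4, -2, 1, 0], [0, 2, 1, 5, -6, -4, 0], [2, -3, 3, -4, -6, 0, 1]], [[0, 0, 16, 16, 15, 10, 0], [2, 0, 2, -2, 2, 10, 0], [0, 0, -1, -2, 0, 0, 0], [0, 0, -3, -2, 7, 6, 0], [0, 0, 0, 10, 16, -2, 0]], [0, -4, 0, 0, 0]⟩, ⟨20, [[1, 1, 1, 4, 7], [0, 6, 0, 0, 0], [0, 0, 3, 3, 6], [0, 0, 0, 6, 6], [0, 0, 0, 0, 9]], [[0,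 0, -2, -1, -2, -9, 0], [0, 3, -4, 5, -4, 2, 0], [0, 5, 2, -4, 2, -1, 0], [0, -10, -7, 7, -6, 4, 0], [-1, 7, 5, 0, 4, 7, 0]], [[-2, 0, 10, 6, 3, 10, 0], [0, 0, 0, 0, 2, 0, 0], [0, 0, 0, 0, 0, 0, 0], [2, 0, 0, 0, 3, 0, 0], [0, 0, -10, -6, -5, -10, 0]], [0, 0, 0, 0, -6]⟩, ⟨30, [[2, 0, 5, 5, 8], [0, 2, 3, 3, 12], [0, 0, 6, 0, 6], [0, 0, 0, 6, 6], [0, 0, 0, 0, 18]], [[0, 0, -8, 10, -10, 9, 10], [3, -6, 13, -2, 2, 9, -14], [6, -12, 8, -4, 14, -8, -8], [6, -12, 7, -3, -14, -7, -8], [-2, 3, -13, 3, -2, -9, 7]], [[-4, 2, 10, 11, 8, 0, 0], [0, 0, -10, -3, 0, -10, 2], [4, -2, -10, -14, -13, 0, 0], [4, -2, -10, -3, 9, 0, 0], [0, 0, 10, 3, 0, 10, -1]], [40, 4, 10, 10, -32]⟩, ⟨60, [[1, 1, 1, 4, 7], [0, 2, 0, 0, 6], [0,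 0, 3, 3, 6], [0, 0, 0, 6, 6], [0, 0, 0, 0, 9]], [[0, -20, 0, 6, -3, 0, 0], [0, 9, 0, -3, 2, 0, 0], [0, 5, 2, -4, 2, -1, 0], [0, 10, -1, -2, 1, 1, 0], [-1, 1, -1, 1, -1, 0, 0]], [[0, 0, 0, 0, 0, 0, 0], [0, 0, 0, 0, 0, 0, 0], [0, 0, 0, 0, 0, 0, 0], [0, 0, 0, 0, 0, 0, 0], [0, 0, 0, 0, 0, 0, 0]], [0, 0, 0, 0, -6]⟩]⟩

theorem b66_ok : chkBad b66 = true := by decide +kernel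

def b67 : BCert :=
  ⟨[[0, 2, 0, 0, 0, 0, 0], [2, 0, 0, 0, 0, 0, 0], [0, 0, 2, 1, 0, 0, 0], [0, 0, 1, 2, 1, 0, 0], [0, 0, 0, 1, 2, 1, 0], [0, 0, 0, 0, 1, 2, 0], [0, 0, 0, 0, 0, 0, 2]], 10, [[0, 5, 0, 0, 0, 0, 0], [5, 0, 0, 0, 0, 0, 0], [0, 0, 8, -6, 4, -2, 0], [0, 0, -6, 12, -8, 4, 0], [0, 0, 4, -8, 12, -6, 0], [0, 0, -2, 4, -6, 8, 0], [0, 0, 0, 0, 0, 0, 5]], [2, -1, 0, 0, 1, 1, 1], 1, [-2, 4, 0, 1, 3, 3, 2], [[0, 0, 1, 0, 0, 0, 0], [0, -1, -2, 4, 0, 0, 0], [0, -7, 4, -8, 12, 0, 0], [0, -5, -4, 8, -12, 16, 0], [0, -1, 0, 0, 0, 0, 2]], 960, [480, 40, 5, 3, 120], [0, -40, 25, -3, 120], [480, 0, 0, 0, 0, 0, 0], 1, [⟨2, [[1, 0, 6, 130, 2], [0, 2, 2, 70, 2], [0, 0, 12, 100, 0], [0, 0, 0, 160, 4], [0, 0, 0,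 0, 8]], [[0, 0, 0, 0, 0, -1, 0], [0, 0, 0, 0, 0, -1, 0], [0, 0, 0, -1, 0, -1, 0], [0, 0, 0, -1, 0, 0, 0], [0, 0, 0, 0, 0, -1, 0]], [[2, -4, 2, 0, -2, -1, -2], [5, -12, 0, 0, -6, -7, -6], [-3, 4, 0, 2, 6, 6, 2], [-2, 6, 0, 2, 4, 4, 3], [-1, 1, 0, 0, 2, 3, 1]], [-2, -12, 0, 0, 0]⟩, ⟨4, [[1, 0, 6, 50, 0], [0, 1, 7, 5, 3], [0, 0, 12, 20, 2], [0, 0, 0, 80, 2], [0, 0, 0, 0, 4]], [[0, 0, -1, 0, -2, 0, 0], [-2, 0, -2, 0, -1, -1, -1], [0, 0, -1, 1, -1, 0, 0], [0, 0, 0, -1, -2, 1, 0], [1, 0, 1, -1, -1, -2, 1]], [[0, 0, 2, 2, 2, 1, 0], [0, 0, 2, 4, 2, 0, 0], [0, 0, 0, -2, 0, 1, 0], [0, 0, 0, 2, 2, 0, 0], [0, 0, 0, 0, 2, 3, 0]], [0, -2, -14, -10, -2]⟩, ⟨10, [[1, 0, 6, 2, 2], [0, 2, 2, 6, 2], [0, 0, 12, 4, 4], [0, 0,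 0, 32, 4], [0, 0, 0, 0, 8]], [[-2, -4, 1, 0, -1, -1, 4], [4, 0, -1, 2, -3, -3, 2], [2, -4, 0, -1, 2, 1, -4], [-4, 2, 0, 0, 0, 1, -2], [-2, 0, 0, 0, 0, 0, -2]], [[2, 0, 0, 0, 0, 0, -2], [1, -4, 0, 0, 0, 0, -2], [1, 0, 0, 0, 0, 0, 2], [-1, 2, 0, 0, 0, 0, 1], [0, 1, 0, 0, 0, 0, 1]], [-2, -12, 0, 0, 0]⟩, ⟨20, [[1, 0, 6, 2, 2], [0, 1, 7, 5, 3], [0, 0, 12, 4, 0], [0, 0, 0, 16, 2], [0, 0, 0, 0, 4]], [[0, 0, 1, 0, 0, 0, 0], [-2, 0, -2, 4, -1, -1, -1], [0, 0, 1, -3, 1, 0, 0], [0, 0, 0, 0, -1, 1, 0], [1, 0, 1, -3, 1, 0, 1]], [[0, 0, 0, 0, 0, 0, 0], [0, 0, 0, 0, 0, 0, 0], [0, 0, 0, 0, 0, 0, 0], [0, 0, 0, 0, 0, 0, 0], [0, 0, 0, 0, 0, 0, 0]], [0, -2, -14, -10, -2]⟩]⟩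

theorem b67_ok : chkBad b67 = true := by decide +kernel

def b68 : BCert :=
  ⟨[[0, 2, 0, 0, 0, 0, 0], [2, 0, 0, 0, 0, 0, 0], [0, 0, 2, 1, 0, 0, 0], [0, 0, 1, 2, 1, 0, 0], [0, 0, 0, 1, 2, 1, 0], [0, 0, 0, 0, 1, 2, 0], [0, 0, 0, 0, 0, 0, 10]], 10, [[0, 5, 0, 0, 0, 0, 0], [5, 0, 0, 0, 0, 0, 0], [0, 0, 8, -6, 4, -2, 0], [0, 0, -6, 12, -8, 4, 0], [0, 0, 4, -8, 12, -6, 0], [0, 0, -2, 4, -6, 8, 0], [0, 0, 0, 0, 0, 0, 1]], [2, -6, 1, 0, 1, 1, 2], 1, [-12, 4, 2, 2, 3, 3, 20], [[0, -1, 2, 0, 0, 0, 0], [0, -1, -2, 4, 0, 0, 0], [0, -7, 4, -8, 12, 0, 0], [0, -5, -4, 8, -12, 16, 0], [0, -5, 0, 0, 0, 0, 1]], 960, [120, 40, 5, 3, 96], [120, 40, -25, 3, 0], [480, 0, 0, 0, 0, 0, 0], 1, [⟨2, [[2, 2, 2, 230, 0], [0, 4, 4,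 300, 0], [0, 0, 6, 50, 0], [0, 0, 0, 320, 0], [0, 0, 0, 0, 10]], [[0, 0, 0, 0, -1, 0, 0], [0, 0, 0, -1, -1, 0, 0], [0, 0, 0, 0, -1, 0, 0], [0, 0, 0, -1, 0, 0, 0], [0, 0, 0, 0, 0, 0, 0]], [[-25, 8, 6, 6, 8, 7, 40], [24, -8, -4, 0, -2, -5, -40], [22, -8, -4, -4, -2, -3, -40], [-8, 3, 2, 2, 2, 2, 15], [-1, 0, 0, 0, 0, 0, 1]], [8, -8, -32, 0, 0]⟩, ⟨4, [[1, 1, 1, 115, 0], [0, 4, 4, 140, 0], [0, 0, 6, 50, 0], [0, 0, 0, 160, 0], [0, 0, 0, 0, 5]], [[0, -1, -2, 0, 0, 0, 0], [0, 0, -1, 1, 0, -2, 0], [0, -1, 1, -2, -2, -2, 0], [-1, 0, -1, -1, 0, -2, 0], [0, -1, 0, 0, 0, 0, 0]], [[-24, 8, 8, 6, 6, 6, 40], [12, -4, -2, -2, -2, -1, -20], [12, -4, -2, 0, 2, 1, -20], [4, 0, 0, 0, 0, 1, -5], [0, 0, 0, 0, 0, 0, 1]], [8,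 -8, -32, 0, 0]⟩, ⟨10, [[2, 2, 2, 38, 0], [0, 4, 4, 44, 0], [0, 0, 6, 50, 0], [0, 0, 0, 64, 0], [0, 0, 0, 0, 2]], [[2, -4, 2, 0, 1, 1, 0], [0, 0, -1, 1, 0, 0, 0], [4, 2, -2, -2, -1, -3, 0], [-4, -2, 1, 1, 0, 2, 0], [0, 0, 0, 0, 0, 0, 0]], [[-1, 0, 0, 0, 0, 0, 4], [0, 0, 0, 0, 0, 0, 0], [6, -4, 0, 0, 0, 0, -12], [-3, 3, 0, 0, 0, 0, 7], [-1, 0, 0, 0, 0, 0, 1]], [4, 4, -32, 0, 0]⟩, ⟨20, [[1, 1, 1, 19, 0], [0, 4, 4, 12, 0], [0, 0, 6, 18, 0], [0, 0, 0, 32, 0], [0, 0, 0, 0, 1]], [[0, -1, 2, 0, 0, 0, 0], [4, 8, 1, 1, 2, 2, 4], [8, -5, 5, -2, 6, 4, 8], [-5, -4, -4, 1, -4, -2, -5], [0, -5, 0, 0, 0, 0, 1]], [[0, 0, 0, 0, 0, 0, 0], [-4, 0, 0, 0, 0, 0, 0], [-4, 0, 0, 0, 0, 0, 0], [4, 0, 0, 0, 0, 0, 0], [0, 0, 0, 0,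 0, 0, 0]], [0, 16, 64, 32, 0]⟩]⟩

theorem b68_ok : chkBad b68 = true := by decide +kernel

def b69 : BCert :=
  ⟨[[0, 2, 0, 0, 0, 0, 0], [2, 0, 0, 0, 0, 0, 0], [0, 0, 4, -3, 2, -1, 0], [0, 0, -3, 6, -4, 2, 0], [0, 0, 2, -4, 6, -3, 0], [0, 0, -1, 2, -3, 4, 0], [0, 0, 0, 0, 0, 0, 2]], 10, [[0, 5, 0, 0, 0, 0, 0], [5, 0, 0, 0, 0, 0, 0], [0, 0, 4, 2, 0, 0, 0], [0, 0, 2, 4, 2, 0, 0], [0, 0, 0, 2, 4, 2, 0], [0, 0, 0, 0, 2, 4, 0], [0, 0, 0, 0, 0, 0, 5]], [2, -1, 0, 0, 1, 0, 1], 1, [-2, 4, 2, -4, 6, -3, 2], [[0, -1, 2, 0, 0, 0, 0], [0, 5, 6, 8, 0, 0, 0], [0, -5, 0, 4, 6, 0, 0], [0, 0, 0, 0, 1, 2, 0], [0, -1, 0, 0, 0, 0, 2]], 240, [15, 1, 2, 24, 30], [3, -1, 2, 0, 18], [120, 0, 0, 0, 0, 0, 0], 1, [⟨2, [[2, 30, 0,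 0, 4], [0, 40, 20, 0, 0], [0, 0, 30, 0, 2], [0, 0, 0, 10, 0], [0, 0, 0, 0, 8]], [[0, 0, 0, 0, 0, 0, 0], [0, 0, 0, 0, 0, -1, 0], [0, 0, 0, 0, 0, 0, 0], [0, 0, 0, 0, 0, -1, 0], [0, 0, 0, 0, 0, 0, 0]], [[-1, 0, 4, -3, 2, -1, 0], [1, 0, -4, 5, -5, 5, 0], [-1, 0, 2, -2, 2, -1, 0], [-1, 2, 0, 0, 0, 3, 1], [0, 1, -2, 1, 0, 0, 1]], [0, 0, 0, 10, 4]⟩, ⟨4, [[1, 35, 25, 0, 3], [0, 40, 20, 0, 0], [0, 0, 30, 0, 2], [0, 0, 0, 5, 0], [0, 0, 0, 0, 4]], [[-2, 0, -2, 0, -1, 0, -1], [-2, 0, 0, 1, 1, 0, 1], [0, 0, 1, 0, 1, 0, 0], [0, 0, 0, 0, 1, -2, 0], [1, 0, -2, 0, -2, 0, 1]], [[0, 0, 8, -6, 4, -2, 0], [0, 4, -2, 0, 0, 0, 0], [0, 0, -4, 4, -4, 2, 0], [0, 0, -2, 4, -6, 6, 0], [0, 0, 4, -6, 8, -4, 0]], [-2, 10, -10, 0, -2]⟩,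 ⟨10, [[2, 6, 0, 0, 0], [0, 8, 4, 0, 0], [0, 0, 6, 0, 2], [0, 0, 0, 2, 0], [0, 0, 0, 0, 8]], [[-2, -2, 1, 0, -1, 0, 4], [4, 4, 0, 1, 2, 0, 2], [-2, 2, 0, 0, 0, 0, 4], [4, -2, 0, 0, 0, 1, 2], [-2, 0, 0, 0, 0, 0, -2]], [[1, 0, 0, 0, 0, 0, -2], [-2, 0, 0, 0, 0, 0, 0], [-1, 0, 0, 0, 0, 0, -2], [1, -2, 0, 0, 0, 0, -1], [0, 1, 0, 0, 0, 0, 1]], [-4, 20, 4, -2, 0]⟩, ⟨20, [[1, 3, 3, 0, 1], [0, 8, 4, 0, 0], [0, 0, 6, 0, 2], [0, 0, 0, 1, 0], [0, 0, 0, 0, 4]], [[-2, 0, 2, 0, -1, 0, -1], [2, 0, 0, 1, 1, 0, 1], [-2, 0, -1, 0, 0, 0, -1], [0, 0, 0, 0, 1, 2, 0], [1, 0, 0, 0, 0, 0, 1]], [[0, 0, 0, 0, 0, 0, 0], [0, 0, 0, 0, 0, 0, 0], [0, 0, 0, 0, 0, 0, 0], [0, 0, 0, 0, 0, 0, 0], [0, 0, 0, 0, 0, 0, 0]], [-2, 10, -10, 0, -2]⟩]⟩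

theorem b69_ok : chkBad b69 = true := by decide +kernel

end RH6.BD
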