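import Mathlib

open Matrix

namespace RH6

/-! Integral Lorentzian forms on `ℤ^7`: basic definitions (integer coordinates). -/

/-- integer bilinear form of `G` -/
def bZ (G : Matrix (Fin 7) (Fin 7) ℤ) (x y : Fin 7 → ℤ) : ℤ := x ⬝ᵥ (G *ᵥ y)

/-- real bilinear form of `G` -/
def bR (G : Matrix (Fin 7) (Fin 7) ℤ) (x y : Fin 7 → ℝ) : ℝ :=
  x ⬝ᵥ ((G.map (fun n : ℤ => (n : ℝ))) *ᵥ y)

/-- integer vector as real vector -/
def toR (x : Fin 7 → ℤ) : Fin 7 → ℝ := fun i => (x i : ℝ)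

/-- action of an integral matrix on real vectors -/
def actR (g : GL (Fin 7) ℤ) (x : Fin 7 → ℝ) : Fin 7 → ℝ :=
  (g.1.map (fun n : ℤ => (n : ℝ))) *ᵥ x

/-- `G` is symmetric, `h` has negative norm, and `G` is positive definite on the orthogonal
complement of `h` (so `G` has signature `(6,1)`). -/
structure Lor (G : Matrix (Fin 7) (Fin 7) ℤ) (h : Fin 7 → ℤ) : Prop where
  symm : Gᵀ = G
  neg : bZ G h h < 0
  pos : ∀ x : Fin 7 → ℝ, bR G x (toR h) = 0 → x ≠ 0 → 0 < bR G x x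

/-- the open forward cone (the component of the negative vectors containing `h`) -/
def Fwd (G : Matrix (Fin 7) (Fin 7) ℤ) (h : Fin 7 → ℤ) (x : Fin 7 → ℝ) : Prop :=
  bR G x x < 0 ∧ bR G x (toR h) < 0

/-- `O'(G, ℤ)`: integral isometries of `G` preserving the forward cone -/
def OG (G : Matrix (Fin 7) (Fin 7) ℤ) (h : Fin 7 → ℤ) : Subgroup (GL (Fin 7) ℤ) where
  carrier := {g | g.1ᵀ * G * g.1 = G ∧ ∀ x, Fwd G h x ↔ Fwd G h (actR g x)}
  one_mem' := by
    refine ⟨by simp, fun x => ?_⟩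
    have : actR 1 x = x := by
      unfold actR
      have h1 : ((1 : GL (Fin 7) ℤ).1.map (fun n : ℤ => (n : ℝ))) = 1 := by
        ext i j
        by_cases hij : i = j
        · subst hij; simp
        · simp [Matrix.one_apply_ne hij]
      rw [h1, Matrix.one_mulVec]
    rw [this]
  mul_mem' := by
    rintro a b ⟨ha1, ha2⟩ ⟨hb1, hb2⟩
    refine ⟨?_, fun x => ?_⟩
    · have : (a * b).1 = a.1 * b.1 := rfl
      rw [this, Matrix.transpose_mul]
      calc b.1ᵀ * a.1ᵀ * G * (a.1 * b.1) = b.1ᵀ * (a.1ᵀ * G * a.1) * b.1 := by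
            simp only [Matrix.mul_assoc]
        _ = G := by rw [ha1, hb1]
    · have : actR (a * b) x = actR a (actR b x) := by
        unfold actR
        rw [Matrix.mulVec_mulVec]
        congr 1
        have h2 : (a * b).1 = a.1 * b.1 := rfl
        rw [h2]
        ext i j
        simp [Matrix.mul_apply]
      rw [this, hb2, ha2]
  inv_mem' := by
    rintro a ⟨ha1, ha2⟩
    have hinv : a.1 * (a⁻¹).1 = 1 := by
      have : a * a⁻¹ = 1 := mul_inv_cancel a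
      have h3 : (a * a⁻¹).1 = a.1 * (a⁻¹).1 := rfl
      rw [← h3, this]; rfl
    refine ⟨?_, fun x => ?_⟩
    · have h4 : ((a⁻¹).1)ᵀ * a.1ᵀ = 1 := by rw [← Matrix.transpose_mul, hinv, Matrix.transpose_one]
      calc ((a⁻¹).1)ᵀ * G * (a⁻¹).1 = ((a⁻¹).1)ᵀ * (a.1ᵀ * G * a.1) * (a⁻¹).1 := by rw [ha1]
        _ = (((a⁻¹).1)ᵀ * a.1ᵀ) * G * (a.1 * (a⁻¹).1) := by simp only [Matrix.mul_assoc]
        _ = G := by rw [h4, hinv]; simp
    · have h5 : actR a (actR a⁻¹ x) = x := by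
        unfold actR
        rw [Matrix.mulVec_mulVec]
        have h6 : (a.1.map (fun n : ℤ => (n : ℝ))) * ((a⁻¹).1.map (fun n : ℤ => (n : ℝ))) = 1 := by
          have h7 : (a.1 * (a⁻¹).1).map (fun n : ℤ => (n : ℝ)) = 1 := by
            rw [hinv]
            ext i j
            by_cases hij : i = j
            · subst hij; simp
            · simp [Matrix.one_apply_ne hij]
          rw [← h7]
          ext i j
          simp only [Matrix.mul_apply, Matrix.map_apply, Int.cast_sum, Int.cast_mul]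
        rw [h6, Matrix.one_mulVec]
      rw [ha2 (actR a⁻¹ x), h5]

/-- primitive roots of `G` -/
structure IsRoot (G : Matrix (Fin 7) (Fin 7) ℤ) (r : Fin 7 → ℤ) : Prop where
  pos : 0 < bZ G r r
  dvd : ∀ x : Fin 7 → ℤ, bZ G r r ∣ 2 * bZ G x r
  prim : ∀ d : ℤ, (∀ i, d ∣ r i) → IsUnit d

/-- `g` is the reflection in `r` -/
def IsRefl (G : Matrix (Fin 7) (Fin 7) ℤ) (r : Fin 7 → ℤ) (g : GL (Fin 7) ℤ) : Prop :=
  ∀ x : Fin 7 → ℤ, bZ G r r • (g.1 *ᵥ x) = bZ G r r • x - (2 * bZ G x r) • r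

/-- the reflection group of `G` -/
def WG (G : Matrix (Fin 7) (Fin 7) ℤ) : Subgroup (GL (Fin 7) ℤ) :=
  Subgroup.closure {g | ∃ r, IsRoot G r ∧ IsRefl G r g}

/-- `c` lies on no root hyperplane -/
def Gen (G : Matrix (Fin 7) (Fin 7) ℤ) (c : Fin 7 → ℝ) : Prop :=
  ∀ r, IsRoot G r → bR G (toR r) c ≠ 0

/-- the roots positive on `c` and negative on `g c` -/
def Nset (G : Matrix (Fin 7) (Fin 7) ℤ) (c : Fin 7 → ℝ) (g : GL (Fin 7) ℤ) : Set (Fin 7 → ℤ) :=
  {r | IsRoot G r ∧ 0 < bR G (toR r) c ∧ bR G (toR r) (actR g c) < 0}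

/-- simple roots with respect to `c` -/
def Simple (G : Matrix (Fin 7) (Fin 7) ℤ) (c : Fin 7 → ℝ) (a : Fin 7 → ℤ) : Prop :=
  IsRoot G a ∧ 0 < bR G (toR a) c ∧ ∀ b, IsRoot G b → 0 < bR G (toR b) c → b ≠ a →
    0 < (bZ G a a : ℝ) * bR G (toR b) c - 2 * (bZ G b a : ℝ) * bR G (toR a) c

/-- the group generated by the reflections in the vectors `E e` -/
def WE (G : Matrix (Fin 7) (Fin 7) ℤ) {n : ℕ} (E : Fin n → (Fin 7 → ℤ)) :
    Subgroup (GL (Fin 7) ℤ) :=
  Subgroup.closure {g | ∃ e, IsRefl G (E e) g}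

end RH6
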