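import Pool.Agent.RH6.CDef
import Pool.Agent.RH6.B2

namespace RH6

variable {V : Type*} [AddCommGroup V] [Module ℚ V] {V' : Type*} [AddCommGroup V'] [Module ℚ V']
  {V'' : Type*} [AddCommGroup V''] [Module ℚ V'']

/-! Row [RH-C1]: reflections, the equivalence `QEq`, and invariance of the cusp condition. -/

/-- the reflection in a vector of nonzero norm as an isometry -/
theorem exists_reflection {B : LinearMap.BilinForm ℚ V} (hs : ∀ x y, B x y = B y x) {r : V}
    (hr : B r r ≠ 0) : ∃ s : V ≃ₗ[ℚ] V, Iso B s ∧ ∀ x, s x = x - (2 * B x r / B r r) • r := by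
  let f : V →ₗ[ℚ] V :=
    { toFun := fun x => x - (2 * B x r / B r r) • r
      map_add' := by
        intro x y
        have h : 2 * B (x + y) r / B r r = 2 * B x r / B r r + 2 * B y r / B r r := by
          rw [map_add, LinearMap.add_apply]
          ring
        rw [h, add_smul]
        abel
      map_smul' := by
        intro c x
        have h : 2 * B (c • x) r / B r r = c * (2 * B x r / B r r) := by
          rw [map_smul, LinearMap.smul_apply, smul_eq_mul]
          ring
        simp only [RingHom.id_apply]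
        rw [h, mul_smul, smul_sub] }
  have hf : ∀ x, f x = x - (2 * B x r / B r r) • r := fun x => rfl
  have hinv : Function.Involutive f := by
    intro x
    rw [hf (f x)]
    have h : 2 * B (f x) r / B r r = -(2 * B x r / B r r) := by
      rw [hf x, map_sub, LinearMap.sub_apply, map_smul, LinearMap.smul_apply, smul_eq_mul]
      field_simp
      ring
    rw [h, hf x, neg_smul]
    abel
  refine ⟨LinearEquiv.ofInvolutive f hinv, ?_, fun x => rfl⟩
  intro x y
  change B (f x) (f y) = B x y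
  rw [hf x, hf y]
  simp only [map_sub, LinearMap.sub_apply, map_smul, LinearMap.smul_apply, smul_eq_mul]
  rw [hs r y]
  field_simp
  ring

theorem c1_inv {B : LinearMap.BilinForm ℚ V} {r : V} (hr : B r r ≠ 0) {s : V ≃ₗ[ℚ] V}
    (hs : ∀ x, s x = x - (2 * B x r / B r r) • r) (x : V) : s (s x) = x := by
  rw [hs (s x)]
  have h : 2 * B (s x) r / B r r = -(2 * B x r / B r r) := by
    rw [hs x, map_sub, LinearMap.sub_apply, map_smul, LinearMap.smul_apply, smul_eq_mul]
    field_simp
    ring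
  rw [h, hs x, neg_smul]
  abel

/-- `RD` means that this reflection preserves `L` (it is an involution) -/
theorem rd_iff {B : LinearMap.BilinForm ℚ V} {L : AddSubgroup V} {r : V} {s : V ≃ₗ[ℚ] V}
    (hs : ∀ x, s x = x - (2 * B x r / B r r) • r) :
    RD B L r ↔ 0 < B r r ∧ Pres s L := by
  constructor
  · rintro ⟨h1, h2⟩
    refine ⟨h1, ?_⟩
    have h3 : ∀ x, x ∈ L → s x ∈ L := by
      intro x hx
      rw [hs x]
      exact L.sub_mem hx (h2 x hx)
    intro x
    refine ⟨h3 x, ?_⟩
    intro hx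
    have h4 := h3 _ hx
    rwa [c1_inv h1.ne' hs x] at h4
  · rintro ⟨h1, h2⟩
    refine ⟨h1, ?_⟩
    intro x hx
    have h3 := L.sub_mem hx ((h2 x).1 hx)
    rw [hs x, sub_sub_cancel] at h3
    exact h3

theorem QEq_refl (B : LinearMap.BilinForm ℚ V) (L : AddSubgroup V) : QEq B L B L := by
  refine ⟨LinearEquiv.refl ℚ V, 1, one_pos, ?_, ?_⟩
  · intro x y
    rw [one_mul]
    rfl
  · intro g _
    exact Iff.rfl

theorem c1_conj {B : LinearMap.BilinForm ℚ V} {B' : LinearMap.BilinForm ℚ V'} {φ : V ≃ₗ[ℚ] V'}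
    {c : ℚ} (h : ∀ x y, B' (φ x) (φ y) = c * B x y) {g : V ≃ₗ[ℚ] V} (hg : Iso B g) :
    Iso B' (φ.symm.trans (g.trans φ)) := by
  intro x y
  change B' (φ (g (φ.symm x))) (φ (g (φ.symm y))) = B' x y
  rw [h, hg, ← h, φ.apply_symm_apply, φ.apply_symm_apply]

theorem QEq_trans {B : LinearMap.BilinForm ℚ V} {L : AddSubgroup V}
    {B' : LinearMap.BilinForm ℚ V'} {L' : AddSubgroup V'} {B'' : LinearMap.BilinForm ℚ V''}
    {L'' : AddSubgroup V''} (h : QEq B L B' L') (h' : QEq B' L' B'' L'') : QEq B L B'' L'' := by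
  obtain ⟨φ, c, hc, h1, h2⟩ := h
  obtain ⟨φ', c', hc', h1', h2'⟩ := h'
  refine ⟨φ.trans φ', c' * c, mul_pos hc' hc, ?_, ?_⟩
  · intro x y
    change B'' (φ' (φ x)) (φ' (φ y)) = c' * c * B x y
    rw [h1', h1, mul_assoc]
  · intro g hg
    rw [h2 g hg, h2' _ (c1_conj h1 hg)]
    exact Iff.rfl

theorem QEq_symm {B : LinearMap.BilinForm ℚ V} {L : AddSubgroup V}
    {B' : LinearMap.BilinForm ℚ V'} {L' : AddSubgroup V'} (h : QEq B L B' L') :
    QEq B' L' B L := by
  obtain ⟨φ, c, hc, h1, h2⟩ := h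
  have h3 : ∀ x y, B (φ.symm x) (φ.symm y) = c⁻¹ * B' x y := by
    intro x y
    have h := h1 (φ.symm x) (φ.symm y)
    rw [φ.apply_symm_apply, φ.apply_symm_apply] at h
    rw [h, inv_mul_cancel_left₀ hc.ne']
  refine ⟨φ.symm, c⁻¹, inv_pos.2 hc, h3, ?_⟩
  intro g hg
  have h4 := h2 _ (c1_conj h3 hg)
  rw [h4]
  have h5 : φ.symm.trans ((φ.symm.symm.trans (g.trans φ.symm)).trans φ) = g := by
    ext x
    simp
  rw [h5]

/-- isometric lattices (up to a positive factor of the form) are equivalent -/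
theorem QEq_of_iso {B : LinearMap.BilinForm ℚ V} {L : AddSubgroup V}
    {B' : LinearMap.BilinForm ℚ V'} {L' : AddSubgroup V'} (φ : V ≃ₗ[ℚ] V') {c : ℚ} (hc : 0 < c)
    (h : ∀ x y, B' (φ x) (φ y) = c * B x y) (hL : ∀ x, x ∈ L ↔ φ x ∈ L') : QEq B L B' L' := by
  refine ⟨φ, c, hc, h, ?_⟩
  intro g _
  constructor
  · intro hp y
    have h1 := hp (φ.symm y)
    rw [hL, hL, φ.apply_symm_apply] at h1
    exact h1
  · intro hp x
    have h1 := hp (φ x)
    change φ x ∈ L' ↔ φ (g (φ.symm (φ x))) ∈ L' at h1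
    rw [φ.symm_apply_apply, ← hL, ← hL] at h1
    exact h1

/-- the partial dual is equivalent to the lattice (`pres_rad`, `pres_of_rad`) -/
theorem QEq_rad [FiniteDimensional ℚ V] {B : LinearMap.BilinForm ℚ V} (hB : Nice B)
    {L : AddSubgroup V} (hL : IsLat L) (h : Integ B L) {p : ℕ} (hp : p.Prime)
    (hE : Elem B L p) : QEq B L ((1 / (p : ℚ)) • B) (Rad B L p) := by
  have hp0 : (0 : ℚ) < p := by
    exact_mod_cast hp.pos
  refine ⟨LinearEquiv.refl ℚ V, 1 / (p : ℚ), by positivity, ?_, ?_⟩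
  · intro x y
    rfl
  · intro g hg
    exact ⟨fun h1 => pres_rad hg h1 p, fun h1 => pres_of_rad hB hL h hp hE hg h1⟩

/-- The cusp condition is invariant.
Proof: let `φ, c` be as in `QEq`, `v' ≠ 0` isotropic for `B'`, `u' ⊥ v'`, orthogonal to all root
directions of `L'` orthogonal to `v'`.  Put `v = φ⁻¹ v'`, `u = φ⁻¹ u'`.  If `r` is a root direction
of `L`, `r ⊥ v`, with reflection `s`, then `φ s φ⁻¹` is the reflection in `φ r` and preserves `L'`;
so `φ r` is a root direction of `L'` orthogonal to `v'` and `0 = B' u' (φ r) = c B u r`.  So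
`u = t v`. -/
theorem CF_of_QEq {B : LinearMap.BilinForm ℚ V} (hs : ∀ x y, B x y = B y x) {L : AddSubgroup V}
    {B' : LinearMap.BilinForm ℚ V'} {L' : AddSubgroup V'} (h : QEq B L B' L') (hC : CF B L) :
    CF B' L' := by
  obtain ⟨φ, c, hc, h1, h2⟩ := h
  intro v' hv' hv0 u' huv hu
  have h3 : ∀ x y, B (φ.symm x) (φ.symm y) = c⁻¹ * B' x y := by
    intro x y
    have h := h1 (φ.symm x) (φ.symm y)
    rw [φ.apply_symm_apply, φ.apply_symm_apply] at h
    rw [h, inv_mul_cancel_left₀ hc.ne']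
  have h4 : φ.symm v' ≠ 0 := by
    intro h
    apply hv'
    rw [← φ.apply_symm_apply v', h, map_zero]
  obtain ⟨t, ht⟩ := hC (φ.symm v') h4 (by rw [h3, hv0, mul_zero]) (φ.symm u')
    (by rw [h3, huv, mul_zero]) (by
      intro r hr hrv
      obtain ⟨s, hs1, hs2⟩ := exists_reflection hs hr.1.ne'
      have h5 : Pres s L := ((rd_iff hs2).1 hr).2
      have h6 := (h2 s hs1).1 h5
      have h7 : ∀ x, (φ.symm.trans (s.trans φ)) x =
          x - (2 * B' x (φ r) / B' (φ r) (φ r)) • φ r := by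
        intro x
        change φ (s (φ.symm x)) = _
        rw [hs2, map_sub, map_smul, φ.apply_symm_apply]
        have h8 : B' x (φ r) = c * B (φ.symm x) r := by
          rw [← h1, φ.apply_symm_apply]
        rw [h8, h1]
        have hc0 := hc.ne'
        have hr0 := hr.1.ne'
        congr 2
        field_simp
      have h9 : 0 < B' (φ r) (φ r) := by
        rw [h1]
        exact mul_pos hc hr.1
      have h10 : RD B' L' (φ r) := (rd_iff h7).2 ⟨h9, h6⟩
      have h11 : B' (φ r) v' = 0 := by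
        rw [← φ.apply_symm_apply v', h1, hrv, mul_zero]
      have h12 := hu _ h10 h11
      rw [← φ.apply_symm_apply u', h1] at h12
      exact (mul_eq_zero.1 h12).resolve_left hc.ne')
  refine ⟨t, ?_⟩
  rw [← φ.apply_symm_apply u', ht, map_smul, φ.apply_symm_apply]

end RH6
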