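import Pool.Agent.RH6.W09

open Matrix

namespace RH6

/-- key inequality for `horoball` -/
theorem w10_key {G : Matrix (Fin 7) (Fin 7) ℤ} {h : Fin 7 → ℤ} (hL : Lor G h)
    {v : Fin 7 → ℤ} (hv0 : bZ G v v = 0) {x : Fin 7 → ℝ}
    (hx : (2 * |G.det| : ℤ) * bR G x (toR v) ^ 2 < - bR G x x)
    {r : Fin 7 → ℤ} (hr : IsRoot G r) (hrv : bZ G r v ≠ 0) : bR G (toR r) x ≠ 0 := by
  intro hrx
  have hS := hL.symm
  -- `ρ = (r,r)`
  have hρ : 0 < (bZ G r r : ℝ) := by exact_mod_cast hr.pos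
  have hρD : (bZ G r r : ℝ) ≤ ((2 * |G.det| : ℤ) : ℝ) := by
    have h1 := root_norm_dvd hr
    have h2 : bZ G r r ∣ 2 * |G.det| := by
      rcases abs_choice G.det with h3 | h3 <;> rw [h3]
      · exact h1
      · rw [mul_neg]; exact h1.neg_right
    have h4 : 0 < 2 * |G.det| := by
      have := abs_pos.2 (det_ne hL)
      linarith
    exact_mod_cast Int.le_of_dvd h4 h2
  set R := toR r with hR
  set V := toR v with hV
  have hVV : bR G V V = 0 := by rw [hV, bR_toR, hv0]; simp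
  have hRR : bR G R R = (bZ G r r : ℝ) := by rw [hR, bR_toR]
  have hRV : bR G R V = (bZ G r v : ℝ) := by rw [hR, hV, bR_toR]
  have hVR : bR G V R = (bZ G r v : ℝ) := by rw [bR_symm hS, hRV]
  set ρ := (bZ G r r : ℝ) with hρd
  set τ := (bZ G r v : ℝ) with hτd
  have hτ1 : 1 ≤ τ ^ 2 := by
    have : 1 ≤ (bZ G r v) ^ 2 := by
      have := sq_pos_of_ne_zero hrv
      omega
    rw [hτd]
    exact_mod_cast this
  have hxR : bR G x R = 0 := by rw [bR_symm hS]; exact hrx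
  set Y : Fin 7 → ℝ := ρ • V - τ • R with hY
  have hYY : bR G Y Y = - (ρ * τ ^ 2) := by
    rw [hY]
    simp only [bR_sub_left, bR_sub_right, bR_smul_left, bR_smul_right, hVV, hRR, hRV, hVR]
    ring
  have hxY : bR G x Y = ρ * bR G x V := by
    rw [hY]
    simp only [bR_sub_right, bR_smul_right, hxR]
    ring
  have hYneg : bR G Y Y < 0 := by
    rw [hYY]
    nlinarith
  have h1 := rev_cs hL (x := x) hYneg
  rw [hYY, hxY] at h1
  -- (x,x) * (-(ρ τ²)) ≤ (ρ (x,v))²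
  have hxx : 0 < - bR G x x := by
    have h0 : (0 : ℝ) ≤ ((2 * |G.det| : ℤ) : ℝ) := le_trans hρ.le hρD
    have := mul_nonneg h0 (sq_nonneg (bR G x V))
    linarith
  have h2 : (- bR G x x) * τ ^ 2 ≤ ρ * bR G x V ^ 2 := by
    have h3 : ρ * ((- bR G x x) * τ ^ 2) ≤ ρ * (ρ * bR G x V ^ 2) := by nlinarith
    exact le_of_mul_le_mul_left h3 hρ
  have h4 : - bR G x x ≤ (- bR G x x) * τ ^ 2 := by nlinarith
  have h5 : ρ * bR G x V ^ 2 ≤ ((2 * |G.det| : ℤ) : ℝ) * bR G x V ^ 2 :=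
    mul_le_mul_of_nonneg_right hρD (sq_nonneg _)
  linarith

/-- Row [RH-W10]: roots not orthogonal to the isotropic vector `v` have constant sign deep in the
horoball at `v`.  Let `D = 2 |det G|`; every root has `(r,r) ≤ D` (`root_norm_dvd`).
Proof: suppose `(r,c)` and `(r,c')` do not have the same strict sign; then there are `α, β ≥ 0`,
not both `0`, with `(r, x) = 0` for `x = α c + β c'` (if `(r,c) = 0` take `x = c`, ...), `x` is
forward.  `(x,x) = α²(c,c) + β²(c',c') + 2αβ(c,c')` and by `rev_cs` and `neg_of_fwd`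
`-(c,c') ≥ sqrt((c,c)(c',c')) ≥ D |(c,v)||(c',v)|`, so `-(x,x) > D (x,v)²` (`(c,v)`, `(c',v)`
have the same sign by `neg_of_closed`; treat `α = 0`, `β = 0` separately if convenient).
On the other hand let `y = (r,r) v - (v,r) r`: `(y,r) = 0`, `(y,y) = -(v,r)² (r,r) < 0`,
`(x,y) = (r,r)(x,v)`.  By `rev_cs` with `y` in place of `y`: `(x,x)(y,y) ≤ (x,y)²`, i.e.
`-(x,x) (v,r)² (r,r) ≤ (r,r)² (x,v)²`, and `(v,r)² ≥ 1` (nonzero integer), so
`-(x,x) ≤ (r,r) (x,v)² ≤ D (x,v)²`, contradiction. -/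
theorem horoball {G : Matrix (Fin 7) (Fin 7) ℤ} {h : Fin 7 → ℤ} (hL : Lor G h)
    {v : Fin 7 → ℤ} (hv : v ≠ 0) (hv0 : bZ G v v = 0) {c c' : Fin 7 → ℝ}
    (hc : Fwd G h c) (hc' : Fwd G h c')
    (hd : (2 * |G.det| : ℤ) * bR G c (toR v) ^ 2 < - bR G c c)
    (hd' : (2 * |G.det| : ℤ) * bR G c' (toR v) ^ 2 < - bR G c' c')
    {r : Fin 7 → ℤ} (hr : IsRoot G r) (hrv : bZ G r v ≠ 0) :
    0 < bR G (toR r) c * bR G (toR r) c' := by
  have hS := hL.symm
  set D : ℝ := ((2 * |G.det| : ℤ) : ℝ) with hD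
  have hD0 : 0 ≤ D := by
    rw [hD]
    have : 0 ≤ 2 * |G.det| := by positivity
    exact_mod_cast this
  set V := toR v with hV
  set p := bR G c V with hp
  set p' := bR G c' V with hp'
  -- the mixed term
  have hmix : D * (p * p') < - bR G c c' := by
    have h1 := rev_cs hL (x := c) hc'.1
    have h2 := neg_of_fwd hL hc hc'
    have h3 : (D * (p * p')) ^ 2 < (- bR G c c') ^ 2 := by
      have e1 : (D * (p * p')) ^ 2 = (D * p ^ 2) * (D * p' ^ 2) := by ring
      have e2 : (- bR G c c') ^ 2 = bR G c c' ^ 2 := by ring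
      rw [e1, e2]
      have h4 : (D * p ^ 2) * (D * p' ^ 2) < (- bR G c c) * (- bR G c' c') := by
        apply mul_lt_mul'' hd hd'
        · positivity
        · positivity
      nlinarith
    exact lt_of_pow_lt_pow_left₀ 2 (by linarith) h3
  by_contra hcon
  rw [not_lt] at hcon
  set s := bR G (toR r) c with hs
  set s' := bR G (toR r) c' with hs'
  by_cases hs0 : s = 0
  · exact w10_key hL hv0 hd hr hrv (by rw [← hs]; exact hs0)
  by_cases hs0' : s' = 0
  · exact w10_key hL hv0 hd' hr hrv (by rw [← hs']; exact hs0')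
  set x : Fin 7 → ℝ := |s'| • c + |s| • c' with hx
  have ha : 0 < |s'| := abs_pos.2 hs0'
  have hb : 0 < |s| := abs_pos.2 hs0
  have hrx : bR G (toR r) x = 0 := by
    rw [hx, bR_add_right, bR_smul_right, bR_smul_right, ← hs, ← hs']
    rcases lt_or_gt_of_ne hs0 with h1 | h1
    · have h2 : 0 < s' := by
        rcases lt_or_gt_of_ne hs0' with h3 | h3
        · nlinarith
        · exact h3
      rw [abs_of_pos h2, abs_of_neg h1]; ring
    · have h2 : s' < 0 := by
        rcases lt_or_gt_of_ne hs0' with h3 | h3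
        · exact h3
        · nlinarith
      rw [abs_of_neg h2, abs_of_pos h1]; ring
  refine w10_key hL hv0 ?_ hr hrv hrx
  have e1 : bR G x V = |s'| * p + |s| * p' := by
    rw [hx, bR_add_left, bR_smul_left, bR_smul_left]
  have e2 : bR G x x = |s'| ^ 2 * bR G c c + |s| ^ 2 * bR G c' c' + 2 * (|s'| * |s|) * bR G c c' := by
    rw [hx]
    simp only [bR_add_left, bR_add_right, bR_smul_left, bR_smul_right]
    rw [bR_symm hS c' c]
    ring
  rw [e1, e2]
  show D * _ < _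
  have h5 : |s'| ^ 2 * (D * p ^ 2) < |s'| ^ 2 * (- bR G c c) :=
    mul_lt_mul_of_pos_left hd (by positivity)
  have h6 : |s| ^ 2 * (D * p' ^ 2) < |s| ^ 2 * (- bR G c' c') :=
    mul_lt_mul_of_pos_left hd' (by positivity)
  have h7 : (2 * (|s'| * |s|)) * (D * (p * p')) < (2 * (|s'| * |s|)) * (- bR G c c') :=
    mul_lt_mul_of_pos_left hmix (by positivity)
  nlinarith

/-- the matrix of the Eichler transvection -/
def w10_M (G : Matrix (Fin 7) (Fin 7) ℤ) (v u : Fin 7 → ℤ) (m : ℤ) : Matrix (Fin 7) (Fin 7) ℤ :=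
  1 + (2 * m) • vecMulVec u (G *ᵥ v)
    - ((2 * m) • vecMulVec v (G *ᵥ u) + (2 * m ^ 2 * bZ G u u) • vecMulVec v (G *ᵥ v))

theorem w10_M_mulVec (G : Matrix (Fin 7) (Fin 7) ℤ) (v u : Fin 7 → ℤ) (m : ℤ) (x : Fin 7 → ℤ) :
    w10_M G v u m *ᵥ x = x + (2 * m * bZ G x v) • u
        - (2 * m * bZ G x u + 2 * m ^ 2 * bZ G u u * bZ G x v) • v := by
  have e : ∀ a b y : Fin 7 → ℤ, vecMulVec a (G *ᵥ b) *ᵥ y = bZ G y b • a := by
    intro a b y
    unfold bZ
    ext i
    simp only [Matrix.mulVec, vecMulVec_apply, dotProduct, Pi.smul_apply, smul_eq_mul,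
      Finset.sum_mul]
    refine Finset.sum_congr rfl fun j _ => ?_
    ring
  unfold w10_M
  rw [Matrix.sub_mulVec, Matrix.add_mulVec, Matrix.add_mulVec, Matrix.one_mulVec,
    Matrix.smul_mulVec, Matrix.smul_mulVec, Matrix.smul_mulVec, e, e, e]
  ext i
  simp only [Pi.add_apply, Pi.sub_apply, Pi.smul_apply, smul_eq_mul]
  ring

theorem w10_ext {A B : Matrix (Fin 7) (Fin 7) ℤ} (h : ∀ x, A *ᵥ x = B *ᵥ x) : A = B := by
  ext i j
  have := congrFun (h (Pi.single j 1)) i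
  simpa using this

theorem w10_M_mul {G : Matrix (Fin 7) (Fin 7) ℤ} (hG : Gᵀ = G) {v u : Fin 7 → ℤ}
    (hv0 : bZ G v v = 0) (huv : bZ G u v = 0) (m m' : ℤ) :
    w10_M G v u m * w10_M G v u m' = w10_M G v u (m + m') := by
  have hvu : bZ G v u = 0 := by rw [bZ_symm hG]; exact huv
  apply w10_ext
  intro x
  rw [← Matrix.mulVec_mulVec, w10_M_mulVec G v u m (w10_M G v u m' *ᵥ x)]
  rw [w10_M_mulVec G v u m' x, w10_M_mulVec G v u (m + m') x]
  simp only [bZ_sub_left, bZ_add_left, bZ_smul_left, hv0, huv, hvu]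
  ext i
  simp only [Pi.add_apply, Pi.sub_apply, Pi.smul_apply, smul_eq_mul]
  ring

theorem w10_M_zero (G : Matrix (Fin 7) (Fin 7) ℤ) (v u : Fin 7 → ℤ) : w10_M G v u 0 = 1 := by
  apply w10_ext
  intro x
  rw [w10_M_mulVec, Matrix.one_mulVec]
  ext i
  simp

/-- the Eichler transvection as an element of `GL₇(ℤ)` -/
def w10_E {G : Matrix (Fin 7) (Fin 7) ℤ} (hG : Gᵀ = G) {v u : Fin 7 → ℤ}
    (hv0 : bZ G v v = 0) (huv : bZ G u v = 0) (m : ℤ) : GL (Fin 7) ℤ where
  val := w10_M G v u m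
  inv := w10_M G v u (-m)
  val_inv := by rw [w10_M_mul hG hv0 huv, add_neg_cancel, w10_M_zero]
  inv_val := by rw [w10_M_mul hG hv0 huv, neg_add_cancel, w10_M_zero]

theorem w10_E_val {G : Matrix (Fin 7) (Fin 7) ℤ} (hG : Gᵀ = G) {v u : Fin 7 → ℤ}
    (hv0 : bZ G v v = 0) (huv : bZ G u v = 0) (m : ℤ) :
    (w10_E hG hv0 huv m).1 = w10_M G v u m := rfl

theorem w10_E_inv {G : Matrix (Fin 7) (Fin 7) ℤ} (hG : Gᵀ = G) {v u : Fin 7 → ℤ}
    (hv0 : bZ G v v = 0) (huv : bZ G u v = 0) (m : ℤ) :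
    ((w10_E hG hv0 huv m)⁻¹).1 = w10_M G v u (-m) := rfl

theorem w10_E_pow {G : Matrix (Fin 7) (Fin 7) ℤ} (hG : Gᵀ = G) {v u : Fin 7 → ℤ}
    (hv0 : bZ G v v = 0) (huv : bZ G u v = 0) (m : ℕ) :
    ((w10_E hG hv0 huv 1) ^ m).1 = w10_M G v u m := by
  induction m with
  | zero => rw [pow_zero, Nat.cast_zero, w10_M_zero]; rfl
  | succ n ih =>
    rw [pow_succ]
    show ((w10_E hG hv0 huv 1) ^ n).1 * (w10_E hG hv0 huv 1).1 = _
    rw [ih]
    show w10_M G v u n * w10_M G v u 1 = _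
    rw [w10_M_mul hG hv0 huv]
    push_cast
    rfl

theorem w10_M_iso {G : Matrix (Fin 7) (Fin 7) ℤ} (hG : Gᵀ = G) {v u : Fin 7 → ℤ}
    (hv0 : bZ G v v = 0) (huv : bZ G u v = 0) (m : ℤ) :
    (w10_M G v u m)ᵀ * G * w10_M G v u m = G := by
  have hvu : bZ G v u = 0 := by rw [bZ_symm hG]; exact huv
  have key : ∀ x y, bZ G (w10_M G v u m *ᵥ x) (w10_M G v u m *ᵥ y) = bZ G x y := by
    intro x y
    rw [w10_M_mulVec, w10_M_mulVec]
    simp only [bZ_sub_left, bZ_add_left, bZ_smul_left, bZ_sub_right, bZ_add_right, bZ_smul_right,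
      hv0, huv, hvu]
    rw [bZ_symm hG u y, bZ_symm hG v y]
    ring
  ext i j
  have h1 := key (Pi.single i 1) (Pi.single j 1)
  unfold bZ at h1
  rw [← Matrix.vecMul_transpose, ← Matrix.dotProduct_mulVec, Matrix.mulVec_mulVec,
    Matrix.mulVec_mulVec] at h1
  simpa using h1

theorem w10_M_fwd {G : Matrix (Fin 7) (Fin 7) ℤ} {h : Fin 7 → ℤ} (hL : Lor G h)
    {v : Fin 7 → ℤ} (hv : v ≠ 0) (hv0 : bZ G v v = 0) {g : GL (Fin 7) ℤ}
    (hg : g.1ᵀ * G * g.1 = G) (hgv : g.1 *ᵥ v = v) {x : Fin 7 → ℝ} (hx : Fwd G h x) :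
    Fwd G h (actR g x) := by
  have hVne : toR v ≠ 0 := toR_ne_zero hv
  have hVV : bR G (toR v) (toR v) = 0 := by rw [bR_toR, hv0]; simp
  have hxx : bR G (actR g x) (actR g x) = bR G x x := bR_act hg x x
  have hxv : bR G (toR v) (actR g x) = bR G (toR v) x := by
    have h1 := bR_act hg (toR v) x
    rw [actR_toR, hgv] at h1
    exact h1
  refine ⟨by rw [hxx]; exact hx.1, ?_⟩
  by_contra hcon
  rw [not_lt] at hcon
  have hne : actR g x ≠ 0 := by
    intro h0
    have : bR G (actR g x) (actR g x) = 0 := by rw [h0, bR_zero_left]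
    rw [hxx] at this
    linarith [hx.1]
  have hcon2 : 0 < bR G (actR g x) (toR h) := by
    rcases hcon.lt_or_eq with h1 | h1
    · exact h1
    · have := hL.pos _ h1.symm hne
      rw [hxx] at this
      linarith [hx.1]
  have hnf : Fwd G h (-(actR g x)) := by
    refine ⟨?_, ?_⟩
    · rw [bR_neg_left, bR_neg_right, neg_neg, hxx]; exact hx.1
    · rw [bR_neg_left]; linarith
  rcases le_total (bR G (toR v) (toR h)) 0 with h1 | h1
  · have h2 := neg_of_closed hL hVne hVV.le h1 hx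
    have h3 := neg_of_closed hL hVne hVV.le h1 hnf
    rw [bR_neg_right, hxv] at h3
    linarith
  · have hVne' : -toR v ≠ 0 := neg_ne_zero.2 hVne
    have hVV' : bR G (-toR v) (-toR v) ≤ 0 := by
      rw [bR_neg_left, bR_neg_right, neg_neg]; exact hVV.le
    have h1' : bR G (-toR v) (toR h) ≤ 0 := by rw [bR_neg_left]; linarith
    have h2 := neg_of_closed hL hVne' hVV' h1' hx
    have h3 := neg_of_closed hL hVne' hVV' h1' hnf
    rw [bR_neg_left] at h2
    rw [bR_neg_left, bR_neg_right, hxv] at h3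
    linarith

theorem w10_M_v {G : Matrix (Fin 7) (Fin 7) ℤ} (hG : Gᵀ = G) {v u : Fin 7 → ℤ}
    (hv0 : bZ G v v = 0) (huv : bZ G u v = 0) (m : ℤ) : w10_M G v u m *ᵥ v = v := by
  have hvu : bZ G v u = 0 := by rw [bZ_symm hG]; exact huv
  rw [w10_M_mulVec, hv0, hvu]
  ext i
  simp

/-- Row [RH-W10]: the Eichler transvection.  For `v` isotropic, `u ⊥ v` integral, the map
`x ↦ x + (x,v) (2m u) - (x,2mu) v - ½ (2mu,2mu) (x,v) v` (`m ∈ ℤ`) is given by an integral matrix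
`E m ∈ O'(G,ℤ)`, `E m * E m' = E (m+m')`, so `E m = (E 1)^m`.
Proof: direct computation; `E m` preserves `(x,x)`; `E m * E (-m) = 1` shows it is a unit; it fixes
`v`, and preserves the forward cone: WLOG (replace `v` by `-v`) `(v,H) ≤ 0`; for `x` forward
`(E x, v) = (x, v) < 0` by `neg_of_closed`; if `E x` were not forward then `-E x` would be
forward (`(Ex,H) ≠ 0` by `hL.pos`), so `(-E x, v) < 0`, contradiction; the converse implication
follows by applying this to `E (-m)`. -/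
theorem eichler {G : Matrix (Fin 7) (Fin 7) ℤ} {h : Fin 7 → ℤ} (hL : Lor G h)
    {v u : Fin 7 → ℤ} (hv : v ≠ 0) (hv0 : bZ G v v = 0) (huv : bZ G u v = 0) :
    ∃ E : GL (Fin 7) ℤ, E ∈ OG G h ∧ ∀ m : ℕ, ∀ x : Fin 7 → ℤ,
      (E ^ m).1 *ᵥ x = x + (2 * m * bZ G x v) • u
        - (2 * m * bZ G x u + 2 * m ^ 2 * bZ G u u * bZ G x v) • v := by
  have hS := hL.symm
  refine ⟨w10_E hS hv0 huv 1, ?_, ?_⟩
  · have hI : (w10_E hS hv0 huv 1).1ᵀ * G * (w10_E hS hv0 huv 1).1 = G := by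
      rw [w10_E_val]
      exact w10_M_iso hS hv0 huv 1
    have hV : (w10_E hS hv0 huv 1).1 *ᵥ v = v := by
      rw [w10_E_val]
      exact w10_M_v hS hv0 huv 1
    have hI' : ((w10_E hS hv0 huv 1)⁻¹).1ᵀ * G * ((w10_E hS hv0 huv 1)⁻¹).1 = G := by
      rw [w10_E_inv]
      exact w10_M_iso hS hv0 huv (-1)
    have hV' : ((w10_E hS hv0 huv 1)⁻¹).1 *ᵥ v = v := by
      rw [w10_E_inv]
      exact w10_M_v hS hv0 huv (-1)
    rw [mem_OG]
    refine ⟨hI, fun x => ⟨fun hx => ?_, fun hx => ?_⟩⟩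
    · exact w10_M_fwd hL hv hv0 hI hV hx
    · have h1 := w10_M_fwd hL hv hv0 hI' hV' hx
      rw [actR_inv_act] at h1
      exact h1
  · intro m x
    rw [w10_E_pow, w10_M_mulVec]

/-- Row [RH-W10]: if every element of `O'(G,ℤ)` has a power in `W(G)`, then the roots orthogonal
to any cusp `v` span `v^⊥` modulo `v`.

Proof.  Suppose `u` is not proportional to `v` (in the sense of the conclusion); then
`(u,u) > 0`: a forward `y` exists; `u - t v` ... (`v^⊥` is positive semidefinite with radical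
`ℝ v`: if `(u,u) ≤ 0` then, up to sign, `u` and `v` are both closed forward, `(u,v) = 0`, and
`u + v` etc.; simplest: choose `t` real with `(u - t v, H) = 0` (`(v,H) ≠ 0` by `hL.pos`), then
`(u,u) = (u - t v, u - t v) > 0` by `hL.pos` unless `toR u = t • toR v`, in which case `t` is
rational and `u, v` are proportional).
Let `E` be as in `eichler` and `m > 0` with `E^m ∈ W(G)`.  Let `c₀` be as in `exists_gen`
and `c = c₀ + τ (±v)`, with the sign such that `±v` is closed forward (`(±v, H) < 0`) and `τ > 0`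
so large that `c` satisfies the horoball condition `hd` of `horoball`: `(c,v) = (c₀,v)` is
fixed and `-(c,c) = -(c₀,c₀) - 2τ(c₀,±v)` with `(c₀,±v) < 0` by `neg_of_closed`.  `c` is forward,
and generic: for a root `r` with `(r,v) = 0`, `(r,c) = (r,c₀) ≠ 0`; for `(r,v) ≠ 0` use `horoball`
with `c' = c`.
Claim: every root `r` positive on `c` is positive on `E^m c`.  If `(r,v) ≠ 0` use `horoball` with
`c' = E^m c` (forward, same norm, `(E^m c, v) = (c,v)`).  If `(r,v) = 0`, then `(u,r) = 0` by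
hypothesis, so `E^m` fixes `r` (formula), and `(r, E^m c) = (E^{-m} r, c) = (r, c)`.
By `free_chambers`, `E^m = 1`.  Take `x = u`... : choose an integer `x` with `(x,v) ≠ 0` (exists
as `det G ≠ 0`); `E^m x = x` gives `(2m(x,v)) u ∈ ℤ v`, contradiction. -/
theorem CF_of_tor {G : Matrix (Fin 7) (Fin 7) ℤ} {h : Fin 7 → ℤ} (hL : Lor G h)
    (hT : ∀ g ∈ OG G h, ∃ m : ℕ, 0 < m ∧ g ^ m ∈ WG G)
    {v : Fin 7 → ℤ} (hv : v ≠ 0) (hv0 : bZ G v v = 0) {u : Fin 7 → ℤ} (huv : bZ G u v = 0)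
    (hu : ∀ r, IsRoot G r → bZ G r v = 0 → bZ G u r = 0) :
    ∃ a b : ℤ, b ≠ 0 ∧ b • u = a • v := by
  have hS := hL.symm
  have hVne : toR v ≠ 0 := toR_ne_zero hv
  have hVV : bR G (toR v) (toR v) = 0 := by rw [bR_toR, hv0]; simp
  obtain ⟨E, hE, hEf⟩ := eichler hL hv hv0 huv
  obtain ⟨m, hm, hEm⟩ := hT E hE
  set g := E ^ m with hgdef
  have hgO : g ∈ OG G h := Subgroup.pow_mem _ hE m
  have hgI := (mem_OG.1 hgO).1
  have hgF := (mem_OG.1 hgO).2
  have hvh : bZ G h v ≠ 0 := by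
    intro h0
    have h1 : bR G (toR v) (toR h) = 0 := by
      rw [bR_toR, bZ_symm hS, h0]; simp
    have := hL.pos _ h1 hVne
    rw [hVV] at this
    exact lt_irrefl _ this
  have hvu : bZ G v u = 0 := by rw [bZ_symm hS]; exact huv
  have hgv : g.1 *ᵥ v = v := by
    rw [hEf m v, hv0, hvu]
    ext i
    simp
  obtain ⟨c₀, hc₀, hgen₀⟩ := exists_gen hL
  -- the vector `w = ± v`
  obtain ⟨w, hw, hwV⟩ : ∃ w : Fin 7 → ℝ, bR G w (toR h) ≤ 0 ∧ (w = toR v ∨ w = - toR v) := by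
    rcases le_total (bR G (toR v) (toR h)) 0 with h1 | h1
    · exact ⟨toR v, h1, Or.inl rfl⟩
    · exact ⟨-toR v, by rw [bR_neg_left]; linarith, Or.inr rfl⟩
  have hwne : w ≠ 0 := by
    rcases hwV with h1 | h1 <;> rw [h1]
    · exact hVne
    · exact neg_ne_zero.2 hVne
  have hww : bR G w w = 0 := by
    rcases hwV with h1 | h1 <;> rw [h1]
    · exact hVV
    · rw [bR_neg_left, bR_neg_right, neg_neg]; exact hVV
  have hwV0 : bR G w (toR v) = 0 := by
    rcases hwV with h1 | h1 <;> rw [h1]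
    · exact hVV
    · rw [bR_neg_left, hVV, neg_zero]
  have hκ : bR G w c₀ < 0 := neg_of_closed hL hwne hww.le hw hc₀
  have hκ2 : bR G c₀ (toR v) ^ 2 = bR G w c₀ ^ 2 := by
    rcases hwV with h1 | h1 <;> rw [h1]
    · rw [bR_symm hS]
    · rw [bR_neg_left, bR_symm hS (toR v) c₀]; ring
  set D : ℝ := ((2 * |G.det| : ℤ) : ℝ) with hD
  have hD0 : 0 ≤ D := by
    rw [hD]
    have : 0 ≤ 2 * |G.det| := by positivity
    exact_mod_cast this
  set κ : ℝ := - bR G w c₀ with hκd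
  have hκpos : 0 < κ := by rw [hκd]; linarith
  set c : Fin 7 → ℝ := c₀ + (D * κ / 2) • w with hc
  have hτ : 0 ≤ D * κ / 2 := by positivity
  have hcV : bR G c (toR v) = bR G c₀ (toR v) := by
    rw [hc, bR_add_left, bR_smul_left, hwV0]; ring
  have hcc : bR G c c = bR G c₀ c₀ - D * κ ^ 2 := by
    rw [hc]
    simp only [bR_add_left, bR_add_right, bR_smul_left, bR_smul_right, hww]
    rw [bR_symm hS c₀ w, show bR G w c₀ = -κ by rw [hκd]; ring]
    ring
  have hd : (2 * |G.det| : ℤ) * bR G c (toR v) ^ 2 < - bR G c c := by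
    rw [hcV, hκ2, hcc]
    have e : bR G w c₀ ^ 2 = κ ^ 2 := by rw [hκd]; ring
    rw [e]
    have := hc₀.1
    show D * κ ^ 2 < _
    linarith
  have hcF : Fwd G h c := by
    refine ⟨?_, ?_⟩
    · rw [hcc]
      have h1 := hc₀.1
      have h2 : 0 ≤ D * κ ^ 2 := by positivity
      linarith
    · rw [hc, bR_add_left, bR_smul_left]
      have h1 := hc₀.2
      have h2 : D * κ / 2 * bR G w (toR h) ≤ 0 := mul_nonpos_of_nonneg_of_nonpos hτ hw
      linarith
  have hrne : ∀ r, IsRoot G r → r ≠ 0 := by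
    intro r hr h0
    have := hr.pos
    rw [h0] at this
    have e : bZ G 0 0 = 0 := by unfold bZ; simp
    omega
  have hrw : ∀ r : Fin 7 → ℤ, bZ G r v = 0 → bR G (toR r) w = 0 := by
    intro r hr
    rcases hwV with h1 | h1 <;> rw [h1]
    · rw [bR_toR, hr]; simp
    · rw [bR_neg_right, bR_toR, hr]; simp
  have hgen : Gen G c := by
    intro r hr
    by_cases hrv : bZ G r v = 0
    · rw [hc, bR_add_right, bR_smul_right, hrw r hrv, mul_zero, add_zero]
      exact hgen₀ r (hrne r hr)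
    · have := horoball hL hv hv0 hcF hcF hd hd hr hrv
      intro h0
      rw [h0] at this
      simp at this
  have hN : ∀ r, IsRoot G r → 0 < bR G (toR r) c → 0 < bR G (toR r) (actR g c) := by
    intro r hr hrc
    by_cases hrv : bZ G r v = 0
    · have hur := hu r hr hrv
      have hru : bZ G r u = 0 := by rw [bZ_symm hS]; exact hur
      have hgr : g.1 *ᵥ r = r := by
        rw [hEf m r, hrv, hru]
        ext i
        simp
      have h1 := bR_act hgI (toR r) c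
      rw [actR_toR, hgr] at h1
      rw [h1]; exact hrc
    · have hF' : Fwd G h (actR g c) := (hgF c).1 hcF
      have h2 : bR G (actR g c) (toR v) = bR G c (toR v) := by
        have h1 := bR_act hgI c (toR v)
        rw [actR_toR, hgv] at h1
        exact h1
      have hd' : (2 * |G.det| : ℤ) * bR G (actR g c) (toR v) ^ 2 < - bR G (actR g c) (actR g c) := by
        rw [h2, bR_act hgI]
        exact hd
      have h3 := horoball hL hv hv0 hcF hF' hd hd' hr hrv
      exact (pos_iff_pos_of_mul_pos h3).1 hrc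
  have hg1 : g = 1 := free_chambers hL hcF hgen hEm hN
  have hx := hEf m h
  rw [← hgdef, hg1] at hx
  have hx' : (2 * (m : ℤ) * bZ G h v) • u
      = (2 * m * bZ G h u + 2 * (m : ℤ) ^ 2 * bZ G u u * bZ G h v) • v := by
    have e1 : (1 : GL (Fin 7) ℤ).1 *ᵥ h = h := by
      show (1 : Matrix (Fin 7) (Fin 7) ℤ) *ᵥ h = h
      rw [Matrix.one_mulVec]
    rw [e1] at hx
    ext i
    have := congrFun hx i
    simp only [Pi.add_apply, Pi.sub_apply, Pi.smul_apply, smul_eq_mul] at this ⊢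
    linarith
  refine ⟨_, _, ?_, hx'⟩
  have : (m : ℤ) ≠ 0 := by exact_mod_cast hm.ne'
  positivity

end RH6
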