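import Pool.Agent.RH6.CDef
import Pool.Agent.RH6.W10

open Matrix

namespace RH6

/-- the form of an integer matrix on `ℚ^7` -/
noncomputable def BQ (G : Matrix (Fin 7) (Fin 7) ℤ) : LinearMap.BilinForm ℚ (Fin 7 → ℚ) :=
  Matrix.toBilin' (mQ G)

/-! Row [RH-C1b]: from integer coordinates to the abstract language and back. -/

theorem BQ_apply (G : Matrix (Fin 7) (Fin 7) ℤ) (x y : Fin 7 → ℚ) :
    BQ G x y = x ⬝ᵥ (mQ G *ᵥ y) :=
  Matrix.toBilin'_apply' _ _ _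

/-- integer vector as rational vector -/
def c1b_toQ (x : Fin 7 → ℤ) : Fin 7 → ℚ := fun i => (x i : ℚ)

theorem c1b_mem (x : Fin 7 → ℤ) : c1b_toQ x ∈ Z7 := fun i => ⟨x i, rfl⟩

theorem c1b_of_mem {x : Fin 7 → ℚ} (hx : x ∈ Z7) : ∃ z : Fin 7 → ℤ, x = c1b_toQ z := by
  have hx' : ∀ i, ∃ z : ℤ, x i = z := hx
  choose z hz using hx'
  exact ⟨z, funext hz⟩

theorem c1b_BQ (G : Matrix (Fin 7) (Fin 7) ℤ) (x y : Fin 7 → ℤ) :
    BQ G (c1b_toQ x) (c1b_toQ y) = (bZ G x y : ℚ) := by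
  rw [BQ_apply]
  simp only [bZ, dotProduct, mulVec, c1b_toQ, mQ, Matrix.map_apply]
  push_cast
  rfl

theorem c1b_bR (G : Matrix (Fin 7) (Fin 7) ℤ) (x : Fin 7 → ℚ) (y : Fin 7 → ℚ) :
    bR G (fun i => (x i : ℝ)) (fun i => (y i : ℝ)) = ((BQ G x y : ℚ) : ℝ) := by
  rw [BQ_apply]
  simp only [bR, dotProduct, mulVec, mQ, Matrix.map_apply]
  push_cast
  rfl

theorem Z7_isLat : IsLat Z7 := by
  have h : Module.finrank ℚ (Fin 7 → ℚ) = 7 := Module.finrank_fin_fun ℚ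
  refine ⟨(Pi.basisFun ℚ (Fin 7)).reindex (finCongr h.symm), ?_⟩
  intro x
  constructor
  · intro hx i
    obtain ⟨z, hz⟩ := hx ((finCongr h.symm).symm i)
    refine ⟨z, ?_⟩
    rw [Module.Basis.repr_reindex_apply, Pi.basisFun_repr]
    exact hz
  · intro hx i
    obtain ⟨z, hz⟩ := hx (finCongr h.symm i)
    refine ⟨z, ?_⟩
    rw [Module.Basis.repr_reindex_apply, Pi.basisFun_repr, Equiv.symm_apply_apply] at hz
    exact hz

theorem c1b_symm {G : Matrix (Fin 7) (Fin 7) ℤ} (hG : Gᵀ = G) (x y : Fin 7 → ℚ) :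
    BQ G x y = BQ G y x := by
  have h : (mQ G)ᵀ = mQ G := by
    unfold mQ
    rw [← Matrix.transpose_map, hG]
  rw [BQ_apply, BQ_apply, Matrix.dotProduct_mulVec, ← Matrix.mulVec_transpose, h,
    dotProduct_comm]

theorem BQ_nice {G : Matrix (Fin 7) (Fin 7) ℤ} {h : Fin 7 → ℤ} (hL : Lor G h) : Nice (BQ G) := by
  refine ⟨c1b_symm hL.symm, ?_⟩
  intro x hx
  by_contra hx0
  have h1 : bR G (fun i => (x i : ℝ)) (toR h) = 0 := by
    have h2 := c1b_bR G x (c1b_toQ h)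
    rw [hx, Rat.cast_zero] at h2
    have h3 : (fun i => ((c1b_toQ h i : ℚ) : ℝ)) = toR h := by
      funext i
      simp [c1b_toQ, toR]
    rwa [h3] at h2
  have h4 : (fun i => (x i : ℝ)) ≠ 0 := by
    intro h5
    apply hx0
    funext i
    have h6 := congrFun h5 i
    simpa using h6
  have h7 := hL.pos _ h1 h4
  rw [c1b_bR, hx, Rat.cast_zero] at h7
  exact lt_irrefl _ h7

theorem c1b_even {G : Matrix (Fin 7) (Fin 7) ℤ} (hs : Gᵀ = G) (he : ∀ i, ∃ k, G i i = 2 * k)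
    (x : Fin 7 → ℤ) : ∃ z : ℤ, bZ G x x = 2 * z := by
  choose k hk using he
  let T : Matrix (Fin 7) (Fin 7) ℤ := fun i j => if i < j then G i j else if i = j then k i else 0
  have hT : G = T + Tᵀ := by
    ext i j
    rw [Matrix.add_apply, Matrix.transpose_apply]
    have hs' : G j i = G i j := congrFun (congrFun hs i) j
    change G i j = (if i < j then G i j else if i = j then k i else 0) +
      (if j < i then G j i else if j = i then k j else 0)
    rcases lt_trichotomy i j with h | h | h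
    · rw [if_pos h, if_neg (not_lt.2 h.le), if_neg h.ne']
      ring
    · subst h
      rw [if_neg (lt_irrefl _), if_pos rfl, hk i]
      ring
    · rw [if_neg (not_lt.2 h.le), if_neg h.ne', if_pos h, hs']
      ring
  refine ⟨x ⬝ᵥ (T *ᵥ x), ?_⟩
  have h1 : x ⬝ᵥ (Tᵀ *ᵥ x) = x ⬝ᵥ (T *ᵥ x) := by
    rw [Matrix.mulVec_transpose, dotProduct_comm, ← Matrix.dotProduct_mulVec]
  unfold bZ
  conv_lhs => rw [hT]
  rw [Matrix.add_mulVec, dotProduct_add, h1]
  ring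

theorem BQ_even {G : Matrix (Fin 7) (Fin 7) ℤ} (hG : EvenElem G) : EvenL (BQ G) Z7 := by
  constructor
  · intro x hx y hy
    obtain ⟨z, rfl⟩ := c1b_of_mem hx
    obtain ⟨w, rfl⟩ := c1b_of_mem hy
    exact ⟨_, c1b_BQ G z w⟩
  · intro x hx
    obtain ⟨z, rfl⟩ := c1b_of_mem hx
    obtain ⟨k, hk⟩ := c1b_even hG.symm hG.even z
    refine ⟨k, ?_⟩
    rw [c1b_BQ, hk]
    push_cast
    ring

/-- `dualL (BQ G) Z7 = G⁻¹ ℤ^7`; with `e` squarefree and `e G⁻¹` integral: if `x` is in the dual and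
`p² x ∈ ℤ^7` then `p x ∈ ℤ^7`: `e x ∈ ℤ^7`, and `gcd(e, p²) ∣ p`. -/
theorem BQ_elem {G : Matrix (Fin 7) (Fin 7) ℤ} (hG : EvenElem G) (p : ℕ) (hp : p.Prime) :
    Elem (BQ G) Z7 p := by
  obtain ⟨e, he, G', hG'⟩ := hG.elem
  intro x hx hp2
  -- `e x` is integral
  have h1 : ∀ i, ∃ z : ℤ, (mQ G *ᵥ x) i = z := by
    intro i
    have h2 : (Pi.single i 1 : Fin 7 → ℚ) ∈ Z7 := by
      intro j
      by_cases hij : j = i
      · subst hij
        exact ⟨1, by simp⟩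
      · exact ⟨0, by simp [hij]⟩
    obtain ⟨z, hz⟩ := hx _ h2
    refine ⟨z, ?_⟩
    rw [← hz, c1b_symm hG.symm, BQ_apply, single_one_dotProduct]
  have h3 : ∃ w : Fin 7 → ℤ, mQ G *ᵥ x = c1b_toQ w := c1b_of_mem h1
  obtain ⟨w, hw⟩ := h3
  have h4 : G'ᵀ * G = (e : ℤ) • 1 := by
    have h5 := congrArg Matrix.transpose hG'
    rw [Matrix.transpose_mul, hG.symm, Matrix.transpose_smul, Matrix.transpose_one] at h5
    exact h5
  have h6 : (mQ G'ᵀ) * mQ G = (e : ℚ) • 1 := by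
    have h7 : mQ (G'ᵀ * G) = mQ G'ᵀ * mQ G := by
      ext i j
      simp [mQ, Matrix.mul_apply]
    rw [← h7, h4]
    ext i j
    change (((e : ℤ) * (1 : Matrix (Fin 7) (Fin 7) ℤ) i j : ℤ) : ℚ) =
      (e : ℚ) * (1 : Matrix (Fin 7) (Fin 7) ℚ) i j
    rw [Matrix.one_apply, Matrix.one_apply]
    by_cases hij : i = j
    · rw [if_pos hij, if_pos hij]
      push_cast
      ring
    · rw [if_neg hij, if_neg hij]
      push_cast
      ring
  have h8 : (e : ℚ) • x = c1b_toQ (G'ᵀ *ᵥ w) := by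
    have h9 : mQ G'ᵀ *ᵥ (mQ G *ᵥ x) = (e : ℚ) • x := by
      rw [Matrix.mulVec_mulVec, h6, Matrix.smul_mulVec, Matrix.one_mulVec]
    rw [← h9, hw]
    funext i
    simp [mQ, mulVec, dotProduct, c1b_toQ]
  obtain ⟨u, hu⟩ := c1b_of_mem hp2
  -- Bezout
  have h10 : Nat.gcd e (p ^ 2) ∣ p := by
    have h11 : Nat.gcd e (p ^ 2) ∣ p ^ 2 := Nat.gcd_dvd_right _ _
    obtain ⟨k, hk, hk'⟩ := (Nat.dvd_prime_pow hp).1 h11
    have h12 : k ≤ 1 := by
      by_contra hk2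
      have h13 : k = 2 := by omega
      subst h13
      have h14 : p * p ∣ e := by
        rw [← pow_two, ← hk']
        exact Nat.gcd_dvd_left _ _
      have h15 := he p h14
      exact hp.one_lt.ne' (Nat.isUnit_iff.1 h15)
    rw [hk']
    exact (pow_dvd_pow p h12).trans (by rw [pow_one])
  obtain ⟨c, hc⟩ := h10
  have h16 : ((p : ℕ) : ℤ) = (e : ℤ) * (Nat.gcdA e (p ^ 2) * c) +
      (p : ℤ) ^ 2 * (Nat.gcdB e (p ^ 2) * c) := by
    have h17 := Nat.gcd_eq_gcd_ab e (p ^ 2)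
    have h18 : ((p : ℕ) : ℤ) = ((Nat.gcd e (p ^ 2) : ℕ) : ℤ) * c := by
      exact_mod_cast hc
    push_cast at h17
    linear_combination h18 + (c : ℤ) * h17
  intro i
  refine ⟨(Nat.gcdA e (p ^ 2) * c) * (G'ᵀ *ᵥ w) i + (Nat.gcdB e (p ^ 2) * c) * u i, ?_⟩
  have h19 : (e : ℚ) * x i = ((G'ᵀ *ᵥ w) i : ℚ) := congrFun h8 i
  have h20 : (p : ℚ) ^ 2 * x i = (u i : ℚ) := by
    have h21 := congrFun hu i
    rw [Pi.smul_apply, zsmul_eq_mul] at h21
    push_cast at h21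
    exact h21
  have h22 : (p : ℚ) = (e : ℚ) * (Nat.gcdA e (p ^ 2) * c) +
      (p : ℚ) ^ 2 * (Nat.gcdB e (p ^ 2) * c) := by
    exact_mod_cast h16
  rw [Pi.smul_apply, zsmul_eq_mul]
  push_cast
  rw [← h19, ← h20]
  linear_combination (x i) * h22

/-- the cusp condition from `CF_of_tor` (clear denominators; a root direction of `Z7` is
proportional to a primitive integer vector, which is a root: `2(x,r)/(r,r) r ∈ ℤ^7` for all
`x ∈ ℤ^7` and `r` primitive imply `(r,r) ∣ 2 (x,r)`; only the implication root ⟹ root direction is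
needed) -/
theorem CF_Z7 {G : Matrix (Fin 7) (Fin 7) ℤ} {h : Fin 7 → ℤ} (hL : Lor G h)
    (hT : ∀ g ∈ OG G h, ∃ m : ℕ, 0 < m ∧ g ^ m ∈ WG G) : CF (BQ G) Z7 := by
  intro v hv hv0 u huv hu
  have hclear : ∀ x : Fin 7 → ℚ, ∃ (D : ℕ) (z : Fin 7 → ℤ), 0 < D ∧ (D : ℚ) • x = c1b_toQ z := by
    intro x
    refine ⟨∏ i, (x i).den, fun i => (x i).num * ∏ j ∈ Finset.univ.erase i, ((x j).den : ℤ),
      Finset.prod_pos (fun i _ => (x i).den_pos), ?_⟩
    funext i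
    rw [Pi.smul_apply, smul_eq_mul]
    change _ = (((x i).num * ∏ j ∈ Finset.univ.erase i, ((x j).den : ℤ) : ℤ) : ℚ)
    rw [← Finset.mul_prod_erase Finset.univ (fun j => (x j).den) (Finset.mem_univ i)]
    push_cast
    have h1 : x i * ((x i).den : ℚ) = (x i).num := Rat.mul_den_eq_num (x i)
    rw [← h1]
    ring
  obtain ⟨D, z, hD, hz⟩ := hclear v
  obtain ⟨E, w, hE, hw⟩ := hclear u
  have hD0 : (D : ℚ) ≠ 0 := by
    exact_mod_cast hD.ne'
  have hE0 : (E : ℚ) ≠ 0 := by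
    exact_mod_cast hE.ne'
  have hz0 : z ≠ 0 := by
    rintro rfl
    apply hv
    have h1 : (D : ℚ) • v = 0 := by
      rw [hz]
      funext i
      simp [c1b_toQ]
    exact (smul_eq_zero.1 h1).resolve_left hD0
  have hzz : bZ G z z = 0 := by
    have h1 : ((bZ G z z : ℤ) : ℚ) = 0 := by
      rw [← c1b_BQ, ← hz]
      simp [hv0]
    exact_mod_cast h1
  have hwz : bZ G w z = 0 := by
    have h1 : ((bZ G w z : ℤ) : ℚ) = 0 := by
      rw [← c1b_BQ, ← hz, ← hw]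
      simp [huv]
    exact_mod_cast h1
  obtain ⟨a, b, hb, hab⟩ := CF_of_tor hL hT hz0 hzz hwz (by
    intro r hr hrz
    have h1 : RD (BQ G) Z7 (c1b_toQ r) := by
      constructor
      · rw [c1b_BQ]
        exact_mod_cast hr.pos
      · intro x hx
        obtain ⟨y, rfl⟩ := c1b_of_mem hx
        obtain ⟨k, hk⟩ := hr.dvd y
        rw [c1b_BQ, c1b_BQ]
        have h2 : (2 * ((bZ G y r : ℤ) : ℚ)) / ((bZ G r r : ℤ) : ℚ) = k := by
          have h3 : ((bZ G r r : ℤ) : ℚ) ≠ 0 := by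
            exact_mod_cast hr.pos.ne'
          rw [div_eq_iff h3]
          have h4 : (2 * (bZ G y r : ℚ)) = (bZ G r r : ℚ) * k := by
            exact_mod_cast hk
          rw [h4, mul_comm]
        rw [h2]
        intro i
        refine ⟨k * r i, ?_⟩
        rw [Pi.smul_apply, smul_eq_mul]
        push_cast
        rfl
    have h5 : BQ G (c1b_toQ r) v = 0 := by
      have h6 : BQ G (c1b_toQ r) ((D : ℚ) • v) = 0 := by
        rw [hz, c1b_BQ, hrz, Int.cast_zero]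
      rw [map_smul, smul_eq_mul] at h6
      exact (mul_eq_zero.1 h6).resolve_left hD0
    have h7 := hu _ h1 h5
    have h8 : BQ G ((E : ℚ) • u) (c1b_toQ r) = 0 := by
      rw [map_smul, LinearMap.smul_apply, h7, smul_zero]
    rw [hw, c1b_BQ] at h8
    exact_mod_cast h8)
  have hb0 : (b : ℚ) ≠ 0 := by
    exact_mod_cast hb
  refine ⟨(a * D) / (b * E), ?_⟩
  funext i
  have h1 : (b : ℚ) * (w i : ℚ) = a * (z i : ℚ) := by
    have h2 := congrFun hab i
    simp only [Pi.smul_apply, smul_eq_mul] at h2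
    exact_mod_cast h2
  have h3 : (D : ℚ) * v i = z i := congrFun hz i
  have h4 : (E : ℚ) * u i = w i := congrFun hw i
  rw [Pi.smul_apply, smul_eq_mul]
  field_simp
  rw [← h3, ← h4] at h1
  linear_combination h1

/-- finite index implies the power condition -/
theorem tor_of_index {G : Matrix (Fin 7) (Fin 7) ℤ} {h : Fin 7 → ℤ}
    (hi : (WG G).relIndex (OG G h) ≠ 0) : ∀ g ∈ OG G h, ∃ m : ℕ, 0 < m ∧ g ^ m ∈ WG G := by
  intro g hg
  obtain ⟨m, hm, _, h⟩ := Subgroup.exists_pow_mem_of_relIndex_ne_zero hi hg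
  exact ⟨m, hm, h.1⟩

end RH6
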