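import Pool.Agent.RH6.C1b
import Pool.Agent.RH6.C1

open Matrix

namespace RH6

namespace C1cAux

/-- an invertible rational matrix as a linear equivalence -/
noncomputable def linE (g : GL (Fin 7) ℚ) : (Fin 7 → ℚ) ≃ₗ[ℚ] (Fin 7 → ℚ) :=
  Matrix.toLin'OfInv (M := (g⁻¹).1) (M' := g.1)
    (by have h : (g⁻¹ * g).1 = (g⁻¹).1 * g.1 := rfl
        rw [← h, inv_mul_cancel]; rfl)
    (by have h : (g * g⁻¹).1 = g.1 * (g⁻¹).1 := rfl
        rw [← h, mul_inv_cancel]; rfl)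

theorem linE_apply (g : GL (Fin 7) ℚ) (x : Fin 7 → ℚ) : linE g x = g.1 *ᵥ x := by
  unfold linE
  change Matrix.toLin' g.1 x = _
  exact Matrix.toLin'_apply g.1 x

theorem iotaZQ_mulVec_mem (h : GL (Fin 7) ℤ) {x : Fin 7 → ℚ} (hx : x ∈ Z7) :
    (iotaZQ h).1 *ᵥ x ∈ Z7 := by
  intro i
  have hx' : ∀ j, ∃ z : ℤ, x j = z := hx
  choose z hz using hx'
  refine ⟨∑ j, h.1 i j * z j, ?_⟩
  have e : ((iotaZQ h).1 *ᵥ x) i = ∑ j, (h.1 i j : ℚ) * x j := rfl
  rw [e]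
  push_cast
  exact Finset.sum_congr rfl fun j _ => by rw [hz j]

theorem pres_linE_iotaZQ (h : GL (Fin 7) ℤ) : Pres (linE (iotaZQ h)) Z7 := by
  intro x
  constructor
  · intro hx
    rw [linE_apply]
    exact iotaZQ_mulVec_mem h hx
  · intro hx
    rw [linE_apply] at hx
    have h1 := iotaZQ_mulVec_mem h⁻¹ hx
    rw [Matrix.mulVec_mulVec] at h1
    have h2 : (iotaZQ h⁻¹).1 * (iotaZQ h).1 = 1 := by
      have h3 : (iotaZQ h⁻¹ * iotaZQ h).1 = (iotaZQ h⁻¹).1 * (iotaZQ h).1 := rfl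
      rw [← h3, ← map_mul, inv_mul_cancel, map_one]; rfl
    rwa [h2, Matrix.one_mulVec] at h1

theorem intMat_of_col {A : Matrix (Fin 7) (Fin 7) ℚ}
    (h : ∀ j, A *ᵥ (Pi.single j 1) ∈ Z7) : ∃ A' : Matrix (Fin 7) (Fin 7) ℤ, mQ A' = A := by
  have h1 : ∀ i j, ∃ z : ℤ, A i j = z := by
    intro i j
    obtain ⟨z, hz⟩ := h j i
    exact ⟨z, by rw [← hz]; simp⟩
  choose f hf using h1
  exact ⟨Matrix.of f, by ext i j; simp [mQ, hf]⟩

theorem mQ_injective : Function.Injective mQ := by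
  intro A B h
  ext i j
  have := congrFun (congrFun h i) j
  simpa [mQ] using this

theorem mQ_mul (A B : Matrix (Fin 7) (Fin 7) ℤ) : mQ (A * B) = mQ A * mQ B := by
  ext i j
  simp [mQ, Matrix.mul_apply]

theorem mQ_one : mQ 1 = 1 := by
  ext i j
  by_cases hij : i = j
  · subst hij; simp [mQ]
  · simp [mQ, Matrix.one_apply_ne hij]

theorem exists_iotaZQ_of_pres {g : GL (Fin 7) ℚ} (h : Pres (linE g) Z7) :
    ∃ k : GL (Fin 7) ℤ, g = iotaZQ k := by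
  have hs : ∀ j : Fin 7, (Pi.single j 1 : Fin 7 → ℚ) ∈ Z7 := by
    intro j i
    by_cases hij : i = j
    · subst hij; exact ⟨1, by simp⟩
    · exact ⟨0, by simp [hij]⟩
  have hg : g.1 * (g⁻¹).1 = 1 := by
    have h3 : (g * g⁻¹).1 = g.1 * (g⁻¹).1 := rfl
    rw [← h3, mul_inv_cancel]; rfl
  have hg' : (g⁻¹).1 * g.1 = 1 := by
    have h3 : (g⁻¹ * g).1 = (g⁻¹).1 * g.1 := rfl
    rw [← h3, inv_mul_cancel]; rfl
  obtain ⟨A, hA⟩ := intMat_of_col (A := g.1) (fun j => by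
    have := (h (Pi.single j 1)).1 (hs j)
    rwa [linE_apply] at this)
  obtain ⟨A', hA'⟩ := intMat_of_col (A := (g⁻¹).1) (fun j => by
    rw [h, linE_apply, Matrix.mulVec_mulVec, hg, Matrix.one_mulVec]
    exact hs j)
  refine ⟨⟨A, A', mQ_injective ?_, mQ_injective ?_⟩, Units.ext ?_⟩
  · rw [mQ_mul, hA, hA', hg, mQ_one]
  · rw [mQ_mul, hA, hA', hg', mQ_one]
  · exact hA.symm

theorem iso_linE {G : Matrix (Fin 7) (Fin 7) ℤ} {g : GL (Fin 7) ℚ}
    (h : g.1ᵀ * mQ G * g.1 = mQ G) : Iso (BQ G) (linE g) := by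
  intro x y
  rw [BQ_apply, BQ_apply, linE_apply, linE_apply]
  conv_rhs => rw [← h]
  rw [← Matrix.mulVec_mulVec, ← Matrix.mulVec_mulVec, Matrix.dotProduct_mulVec x,
    Matrix.vecMul_transpose]

theorem mR_eq (G : Matrix (Fin 7) (Fin 7) ℤ) : mR G = (mQ G).map (algebraMap ℚ ℝ) := by
  ext i j
  simp [mR, mQ]

theorem iotaQ_iotaZQ (h : GL (Fin 7) ℤ) : iotaQ (iotaZQ h) = iota h := by
  refine Units.ext ?_
  ext i j
  simp [iotaQ, iotaZQ, iota]

theorem iotaQ_val (g : GL (Fin 7) ℚ) : (iotaQ g).1 = g.1.map (algebraMap ℚ ℝ) := rfl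

/-- descent of the isometry property from `ℝ` to `ℚ` -/
theorem descent_iso {G : Matrix (Fin 7) (Fin 7) ℤ} {g : GL (Fin 7) ℚ}
    (h : (iotaQ g).1ᵀ * mR G * (iotaQ g).1 = mR G) : g.1ᵀ * mQ G * g.1 = mQ G := by
  have hinj : Function.Injective
      (fun A : Matrix (Fin 7) (Fin 7) ℚ => A.map (algebraMap ℚ ℝ)) :=
    Matrix.map_injective (algebraMap ℚ ℝ).injective
  apply hinj
  change (g.1ᵀ * mQ G * g.1).map (algebraMap ℚ ℝ) = (mQ G).map (algebraMap ℚ ℝ)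
  rw [Matrix.map_mul, Matrix.map_mul, ← mR_eq, Matrix.transpose_map, ← iotaQ_val]
  exact h

theorem isom_conj {P : GL (Fin 7) ℝ} {G : Matrix (Fin 7) (Fin 7) ℤ}
    (hP : P.1ᵀ * J0 * P.1 = mR G) {γ k : GL (Fin 7) ℝ} (hγ : γ ∈ IsomH6) (h : γ * P = P * k) :
    k.1ᵀ * mR G * k.1 = mR G := by
  have h1 : γ.1 * P.1 = P.1 * k.1 := congrArg Units.val h
  calc k.1ᵀ * mR G * k.1 = (P.1 * k.1)ᵀ * J0 * (P.1 * k.1) := by
        rw [← hP, Matrix.transpose_mul]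
        simp only [Matrix.mul_assoc]
    _ = (γ.1 * P.1)ᵀ * J0 * (γ.1 * P.1) := by rw [h1]
    _ = P.1ᵀ * (γ.1ᵀ * J0 * γ.1) * P.1 := by
        rw [Matrix.transpose_mul]
        simp only [Matrix.mul_assoc]
    _ = mR G := by rw [hγ.1, hP]

end C1cAux

open C1cAux

/-- Row [RH-C1c]: Equivalent integral forms have the same lattice group.
Proof: let `φ, c` be as in `QEq`, `T` the matrix of `φ⁻¹` and `P' = √c P T`, so
`P'ᵀ J0 P' = c Tᵀ G T = G'`.  `latGroup P' = latGroup (P T)` (scalars commute).  If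
`γ ∈ latGroup P`, `γ P = P h`, then `h` is an isometry of `G` preserving `ℤ^7`, so `φ h φ⁻¹ = T⁻¹hT`
preserves `ℤ^7`, i.e. it is in `GL₇(ℤ)`, and `γ P T = P T (T⁻¹ h T)`.  Conversely if
`γ P T = P T h'`, then `q = T h' T⁻¹` is an isometry of `G` with `φ q φ⁻¹ = h'` preserving `ℤ^7`, so
`q` preserves `ℤ^7` and `γ P = P q`. -/
theorem latGroup_of_QEq {P : GL (Fin 7) ℝ} {G G' : Matrix (Fin 7) (Fin 7) ℤ}
    (hP : P.1ᵀ * J0 * P.1 = mR G) (hQ : QEq (BQ G) Z7 (BQ G') Z7) :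
    ∃ P' : GL (Fin 7) ℝ, P'.1ᵀ * J0 * P'.1 = mR G' ∧ latGroup P' = latGroup P := by
  obtain ⟨φ, c, hc, hB, hPres⟩ := hQ
  -- the matrix of `φ⁻¹`
  let T : GL (Fin 7) ℚ := ⟨LinearMap.toMatrix' φ.symm.toLinearMap,
    LinearMap.toMatrix' φ.toLinearMap,
    by rw [← LinearMap.toMatrix'_comp, LinearEquiv.comp_coe, LinearEquiv.self_trans_symm]; simp,
    by rw [← LinearMap.toMatrix'_comp, LinearEquiv.comp_coe, LinearEquiv.symm_trans_self]; simp⟩
  have hT : ∀ y, T.1 *ᵥ y = φ.symm y := fun y => LinearMap.toMatrix'_mulVec _ _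
  have hTi : ∀ x, (T⁻¹).1 *ᵥ x = φ x := fun x => LinearMap.toMatrix'_mulVec _ _
  have hTG : c • (T.1ᵀ * mQ G * T.1) = mQ G' := by
    have key : ∀ x y : Fin 7 → ℚ, x ⬝ᵥ (mQ G' *ᵥ y) = x ⬝ᵥ ((c • (T.1ᵀ * mQ G * T.1)) *ᵥ y) := by
      intro x y
      have h1 := hB (φ.symm x) (φ.symm y)
      rw [LinearEquiv.apply_symm_apply, LinearEquiv.apply_symm_apply, BQ_apply, BQ_apply,
        ← hT, ← hT] at h1
      rw [h1, Matrix.smul_mulVec, dotProduct_smul, smul_eq_mul, ← Matrix.mulVec_mulVec,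
        ← Matrix.mulVec_mulVec, Matrix.dotProduct_mulVec x, Matrix.vecMul_transpose]
    ext i j
    have := key (Pi.single i 1) (Pi.single j 1)
    simpa using this.symm
  -- the scalar `√c`
  have hcR : (0 : ℝ) < (c : ℝ) := by exact_mod_cast hc
  have hs0 : Real.sqrt c ≠ 0 := (Real.sqrt_pos.2 hcR).ne'
  let s : GL (Fin 7) ℝ := ⟨Real.sqrt c • 1, (Real.sqrt c)⁻¹ • 1,
    by simp [smul_smul, hs0], by simp [smul_smul, hs0]⟩
  have hsv : s.1 = Real.sqrt c • 1 := rfl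
  have hsc : ∀ g : GL (Fin 7) ℝ, s * g = g * s := by
    intro g
    refine Units.ext ?_
    change s.1 * g.1 = g.1 * s.1
    rw [hsv]; simp
  have hJ : (iotaQ T).1ᵀ * mR G * (iotaQ T).1 = (c : ℝ)⁻¹ • mR G' := by
    have h1 : ((c • (T.1ᵀ * mQ G * T.1)).map (algebraMap ℚ ℝ)) =
        (c : ℝ) • ((iotaQ T).1ᵀ * mR G * (iotaQ T).1) := by
      rw [iotaQ_val, mR_eq, ← Matrix.transpose_map, ← Matrix.map_mul, ← Matrix.map_mul]
      ext i j
      rw [Matrix.map_apply, Matrix.smul_apply, Matrix.smul_apply, Matrix.map_apply, smul_eq_mul,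
        smul_eq_mul, map_mul]
      rfl
    rw [hTG, ← mR_eq] at h1
    rw [h1, smul_smul, inv_mul_cancel₀ hcR.ne', one_smul]
  refine ⟨s * (P * iotaQ T), ?_, ?_⟩
  · have h1 : (s * (P * iotaQ T)).1 = Real.sqrt c • (P.1 * (iotaQ T).1) := by
      change s.1 * (P.1 * (iotaQ T).1) = _
      rw [hsv]; simp
    rw [h1, Matrix.transpose_smul, Matrix.transpose_mul, Matrix.smul_mul, Matrix.smul_mul,
      Matrix.mul_smul, smul_smul, Real.mul_self_sqrt hcR.le]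
    have h2 : (iotaQ T).1ᵀ * P.1ᵀ * J0 * (P.1 * (iotaQ T).1) =
        (iotaQ T).1ᵀ * (P.1ᵀ * J0 * P.1) * (iotaQ T).1 := by simp only [Matrix.mul_assoc]
    rw [h2, hP, hJ, smul_smul, mul_inv_cancel₀ hcR.ne', one_smul]
  · ext γ
    -- remove the scalar
    have hrem : ∀ k : GL (Fin 7) ℝ, γ * (s * (P * iotaQ T)) = s * (P * iotaQ T) * k ↔
        γ * (P * iotaQ T) = P * iotaQ T * k := by
      intro k
      rw [← mul_assoc γ s, ← hsc γ, mul_assoc s γ, mul_assoc s, mul_right_inj]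
    constructor
    · rintro ⟨hγ, k, hk⟩
      refine ⟨hγ, ?_⟩
      rw [hrem, ← iotaQ_iotaZQ] at hk
      -- `γ P = P q`, `q = T k T⁻¹`
      have hq : γ * P = P * iotaQ (T * iotaZQ k * T⁻¹) := by
        rw [map_mul, map_mul, map_inv, ← mul_assoc, ← mul_assoc, ← hk, mul_assoc, mul_assoc,
          mul_inv_cancel, mul_one]
      have hiso := iso_linE (descent_iso (isom_conj hP hγ hq))
      have hpr : Pres (linE (T * iotaZQ k * T⁻¹)) Z7 := by
        rw [hPres _ hiso]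
        have he : φ.symm.trans ((linE (T * iotaZQ k * T⁻¹)).trans φ) = linE (iotaZQ k) := by
          refine LinearEquiv.ext fun x => ?_
          rw [LinearEquiv.trans_apply, LinearEquiv.trans_apply, linE_apply, linE_apply, ← hT,
            ← hTi, Matrix.mulVec_mulVec, Matrix.mulVec_mulVec]
          have e1 : (T⁻¹).1 * (T * iotaZQ k * T⁻¹).1 * T.1 = (iotaZQ k).1 := by
            change (T⁻¹ * (T * iotaZQ k * T⁻¹) * T).1 = _
            congr 1
            group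
          rw [e1]
        rw [he]
        exact pres_linE_iotaZQ k
      obtain ⟨m, hm⟩ := exists_iotaZQ_of_pres hpr
      exact ⟨m, by rw [hq, hm, iotaQ_iotaZQ]⟩
    · rintro ⟨hγ, k, hk⟩
      refine ⟨hγ, ?_⟩
      rw [← iotaQ_iotaZQ] at hk
      have hiso := iso_linE (descent_iso (isom_conj hP hγ hk))
      have hpr := (hPres _ hiso).1 (pres_linE_iotaZQ k)
      have he : φ.symm.trans ((linE (iotaZQ k)).trans φ) = linE (T⁻¹ * iotaZQ k * T) := by
        refine LinearEquiv.ext fun x => ?_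
        rw [LinearEquiv.trans_apply, LinearEquiv.trans_apply, linE_apply, linE_apply, ← hT,
          ← hTi, Matrix.mulVec_mulVec, Matrix.mulVec_mulVec]
        rfl
      rw [he] at hpr
      obtain ⟨m, hm⟩ := exists_iotaZQ_of_pres hpr
      refine ⟨m, ?_⟩
      rw [hrem, ← iotaQ_iotaZQ, ← hm, map_mul, map_mul, map_inv, ← mul_assoc, hk]
      group

end RH6
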