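import Pool.Agent.RH6.C1
import Pool.Agent.RH6.B2b

namespace RH6

variable {V : Type*} [AddCommGroup V] [Module ℚ V] [FiniteDimensional ℚ V]

omit [FiniteDimensional ℚ V] in
theorem c2_scale (B : LinearMap.BilinForm ℚ V) (c : ℚ) (p : ℕ) :
    (1 / (p : ℚ)) • (c • B) = (c / p) • B := by
  rw [smul_smul]
  congr 1
  ring

theorem c2_even {B : LinearMap.BilinForm ℚ V} {L : AddSubgroup V} (hE : EvenL B L) {p : ℕ}
    (hp : p.Prime) (hp2 : p ≠ 2) : EvenL ((1 / (p : ℚ)) • B) (Rad B L p) := by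
  refine ⟨rad_integ hp.pos, ?_⟩
  intro x hx
  obtain ⟨hxL, hx'⟩ := hx
  obtain ⟨m, hm⟩ := hE.2 x hxL
  obtain ⟨z, hz⟩ := hx' x hxL
  have hpq : (p : ℚ) ≠ 0 := by exact_mod_cast hp.ne_zero
  have h1 : (p : ℤ) * z = 2 * m := by
    have : (p : ℚ) * z = 2 * m := by rw [← hz, hm]
    exact_mod_cast this
  have h2 : (2 : ℤ) ∣ (p : ℤ) * z := ⟨m, h1⟩
  have hpo : Odd p := hp.odd_of_ne_two hp2
  have hco : IsCoprime (2 : ℤ) (p : ℤ) := by
    rw [Int.isCoprime_iff_gcd_eq_one]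
    have : Nat.Coprime 2 p := (Nat.coprime_two_left).2 hpo
    simpa [Int.gcd] using this
  obtain ⟨w, hw⟩ := hco.dvd_of_dvd_mul_left h2
  refine ⟨w, ?_⟩
  rw [LinearMap.smul_apply, LinearMap.smul_apply, smul_eq_mul, hz, hw]
  push_cast
  field_simp

/-- Row [RH-C2]: a lattice of minimal discriminant in the class.
Consider all pairs `(c, L')`, `c > 0`, `L'` a lattice, even and elementary at all primes for
`c • B`, with `∀ g, Iso B g → (Pres g L ↔ Pres g L')`; `(1, L)` is one.  Choose one with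
`[L'^# : L']` minimal (`> 0` by `relIndex_ne`).  For an odd prime `p` the pair
`(c/p, Rad (c•B) L' p)` is another one: `rad_isLat`, `rad_integ`, `rad_elem`, `pres_rad`,
`pres_of_rad`; even: for `x ∈ Rad`, `c B x x` is an even integer divisible by `p`, so
`c B x x / p` is an even integer (`p` odd).  (`(1/p) • (c • B) = (c/p) • B`.)  So the hypothesis of
`rad_index` holds. -/
theorem exists_min {B : LinearMap.BilinForm ℚ V} (hB : Nice B) {L : AddSubgroup V}
    (hL : IsLat L) (hn : Module.finrank ℚ V = 7) (hE : EvenL B L)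
    (hEl : ∀ p : ℕ, p.Prime → Elem B L p) :
    ∃ (c : ℚ) (L' : AddSubgroup V), 0 < c ∧ IsLat L' ∧ EvenL (c • B) L' ∧
      (∀ p : ℕ, p.Prime → Elem (c • B) L' p) ∧ QEq B L (c • B) L' ∧
      ∀ p : ℕ, p.Prime → p ≠ 2 → p ^ 4 ≤ (Rad (c • B) L' p).relIndex L' := by
  classical
  let P : ℕ → Prop := fun n => ∃ (c : ℚ) (L' : AddSubgroup V), 0 < c ∧ IsLat L' ∧
      EvenL (c • B) L' ∧ (∀ p : ℕ, p.Prime → Elem (c • B) L' p) ∧ QEq B L (c • B) L' ∧
      L'.relIndex (dualL (c • B) L') = n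
  have hP : ∃ n, P n := by
    refine ⟨_, 1, L, one_pos, hL, ?_, ?_, ?_, rfl⟩
    · rw [one_smul]; exact hE
    · rw [one_smul]; exact hEl
    · rw [one_smul]; exact QEq_refl B L
  obtain ⟨c, L', hc, hL', hE', hEl', hQ, hn'⟩ := Nat.find_spec hP
  refine ⟨c, L', hc, hL', hE', hEl', hQ, ?_⟩
  intro p hp hp2
  have hB' : Nice (c • B) := nice_smul hB hc.ne'
  apply rad_index hB' hL' hn hE'.1 hp
  rw [hn', c2_scale]
  apply Nat.find_min' hP
  have hpq : (0 : ℚ) < p := by exact_mod_cast hp.pos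
  refine ⟨c / p, Rad (c • B) L' p, div_pos hc hpq, rad_isLat hL' hE'.1 hp.pos, ?_, ?_, ?_, rfl⟩
  · rw [← c2_scale]
    exact c2_even hE' hp hp2
  · intro q hq
    rw [← c2_scale]
    exact rad_elem hB' hL' hE'.1 hp (hEl' p hp) hq (hEl' q hq)
  · rw [← c2_scale]
    exact QEq_trans hQ (QEq_rad hB' hL' hE'.1 hp (hEl' p hp))

end RH6
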