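import Pool.Agent.RH6.B1b

namespace RH6

variable {V : Type*} [AddCommGroup V] [Module ℚ V] [FiniteDimensional ℚ V]

/-- three independent elements of a finite elementary abelian `p`-group of order at least `p^3` -/
theorem c2b_indep3_aux0 {G : Type*} [AddCommGroup G] [Finite G] {p : ℕ} [Fact p.Prime]
    [Module (ZMod p) G] (hc : p ^ 3 ≤ Nat.card G) :
    ∃ f : Fin 3 → G, ∀ s : Fin 3 → ℤ, ∑ i, s i • f i = 0 → ∀ i, (p : ℤ) ∣ s i := by
  have hfr : p ^ 3 ≤ p ^ Module.finrank (ZMod p) G := by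
    have h1 : Nat.card G = Nat.card (ZMod p) ^ Module.finrank (ZMod p) G :=
      Module.natCard_eq_pow_finrank
    rw [Nat.card_zmod] at h1
    rw [← h1]
    exact hc
  have h3 : 3 ≤ Module.finrank (ZMod p) G :=
    (Nat.pow_le_pow_iff_right (Fact.out : p.Prime).one_lt).1 hfr
  obtain ⟨f, hf⟩ := exists_linearIndependent_of_le_finrank h3
  refine ⟨f, fun s hs i => ?_⟩
  have h0 : ∑ i, ((s i : ℤ) : ZMod p) • f i = 0 := by
    rw [← hs]
    exact Finset.sum_congr rfl fun i _ => Int.cast_smul_eq_zsmul _ _ _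
  have := Fintype.linearIndependent_iff.1 hf (fun i => ((s i : ℤ) : ZMod p)) h0 i
  exact (ZMod.intCast_zmod_eq_zero_iff_dvd (s i) p).1 this

theorem c2b_indep3_aux {G : Type*} [AddCommGroup G] [Finite G] {p : ℕ} (hp : p.Prime)
    (hz : ∀ w : G, p • w = 0) (hc : p ^ 3 ≤ Nat.card G) :
    ∃ f : Fin 3 → G, ∀ s : Fin 3 → ℤ, ∑ i, s i • f i = 0 → ∀ i, (p : ℤ) ∣ s i :=
  @c2b_indep3_aux0 G _ _ p ⟨hp⟩ (AddCommGroup.zmodModule hz) hc

omit [FiniteDimensional ℚ V] in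
/-- three elements of `L` independent modulo the radical -/
theorem c2b_indep3 {B : LinearMap.BilinForm ℚ V}
    {L : AddSubgroup V} (hI : Integ B L) {p : ℕ} (hp : p.Prime)
    (hi : p ^ 3 ≤ (Rad B L p).relIndex L) :
    ∃ x : Fin 3 → V, (∀ i, x i ∈ L) ∧
      ∀ s : Fin 3 → ℤ, ∑ i, s i • x i ∈ Rad B L p → ∀ i, (p : ℤ) ∣ s i := by
  classical
  let R : AddSubgroup L := (Rad B L p).addSubgroupOf L
  have hcard : Nat.card (L ⧸ R) = (Rad B L p).relIndex L := rfl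
  have hpos : 0 < p ^ 3 := pow_pos hp.pos 3
  have hne : Nat.card (L ⧸ R) ≠ 0 := by rw [hcard]; omega
  have : Finite (L ⧸ R) := (Nat.card_ne_zero.1 hne).2
  have hz : ∀ w : L ⧸ R, p • w = 0 := by
    intro w
    obtain ⟨l, rfl⟩ := QuotientAddGroup.mk_surjective w
    rw [← QuotientAddGroup.mk_nsmul, QuotientAddGroup.eq_zero_iff, AddSubgroup.mem_addSubgroupOf]
    refine ⟨(p • l).2, fun y hy => ?_⟩
    obtain ⟨z, hz⟩ := hI l l.2 y hy
    refine ⟨z, ?_⟩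
    rw [AddSubgroup.coe_nsmul, map_nsmul, LinearMap.smul_apply, hz, nsmul_eq_mul]
  obtain ⟨f, hf⟩ := c2b_indep3_aux hp hz (by rw [hcard]; exact hi)
  have hx : ∀ i, ∃ l : L, (QuotientAddGroup.mk l : L ⧸ R) = f i :=
    fun i => QuotientAddGroup.mk_surjective (f i)
  choose x hx using hx
  refine ⟨fun i => x i, fun i => (x i).2, fun s hs' i => ?_⟩
  refine hf s ?_ i
  have e1 : ∀ i, s i • f i = (QuotientAddGroup.mk (s i • x i) : L ⧸ R) := by
    intro i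
    rw [QuotientAddGroup.mk_zsmul, hx]
  have e2 : (∑ i, (QuotientAddGroup.mk (s i • x i) : L ⧸ R)) =
      QuotientAddGroup.mk (∑ i, s i • x i) := by
    exact (map_sum (QuotientAddGroup.mk' R) (fun i => s i • x i) Finset.univ).symm
  rw [Finset.sum_congr rfl (fun i _ => e1 i), e2, QuotientAddGroup.eq_zero_iff,
    AddSubgroup.mem_addSubgroupOf]
  have e3 : ((∑ i, s i • x i : L) : V) = ∑ i, s i • (x i : V) := by
    rw [AddSubgroup.val_finsetSum]
    exact Finset.sum_congr rfl fun i _ => AddSubgroup.coe_zsmul _ _ _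
  rw [e3]
  exact hs'

/-- a quadratic form in three variables over `ZMod p` has a nontrivial zero -/
theorem c2b_zero3 {p : ℕ} [Fact p.Prime] (a0 a1 a2 b01 b02 b12 : ZMod p) :
    ∃ t : Fin 3 → ZMod p, t ≠ 0 ∧ a0 * t 0 ^ 2 + a1 * t 1 ^ 2 + a2 * t 2 ^ 2 + b01 * t 0 * t 1 +
      b02 * t 0 * t 2 + b12 * t 1 * t 2 = 0 := by
  classical
  let f : MvPolynomial (Fin 3) (ZMod p) :=
    MvPolynomial.C a0 * MvPolynomial.X 0 ^ 2 + MvPolynomial.C a1 * MvPolynomial.X 1 ^ 2 +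
      MvPolynomial.C a2 * MvPolynomial.X 2 ^ 2 +
      MvPolynomial.C b01 * MvPolynomial.X 0 * MvPolynomial.X 1 +
      MvPolynomial.C b02 * MvPolynomial.X 0 * MvPolynomial.X 2 +
      MvPolynomial.C b12 * MvPolynomial.X 1 * MvPolynomial.X 2
  have h1 : ∀ (a : ZMod p) (i : Fin 3),
      (MvPolynomial.C a * MvPolynomial.X i ^ 2 : MvPolynomial (Fin 3) (ZMod p)).totalDegree ≤ 2 := by
    intro a i
    refine (MvPolynomial.totalDegree_mul _ _).trans ?_
    rw [MvPolynomial.totalDegree_C, MvPolynomial.totalDegree_X_pow]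
  have h2 : ∀ (a : ZMod p) (i j : Fin 3),
      (MvPolynomial.C a * MvPolynomial.X i * MvPolynomial.X j :
        MvPolynomial (Fin 3) (ZMod p)).totalDegree ≤ 2 := by
    intro a i j
    refine (MvPolynomial.totalDegree_mul _ _).trans ?_
    rw [MvPolynomial.totalDegree_X]
    have := MvPolynomial.totalDegree_mul (MvPolynomial.C a : MvPolynomial (Fin 3) (ZMod p))
      (MvPolynomial.X i)
    rw [MvPolynomial.totalDegree_C, MvPolynomial.totalDegree_X] at this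
    omega
  have hadd : ∀ (g h : MvPolynomial (Fin 3) (ZMod p)), g.totalDegree ≤ 2 → h.totalDegree ≤ 2 →
      (g + h).totalDegree ≤ 2 := fun g h hg hh =>
    (MvPolynomial.totalDegree_add g h).trans (max_le hg hh)
  have hdeg : f.totalDegree < Fintype.card (Fin 3) := by
    have : f.totalDegree ≤ 2 :=
      hadd _ _ (hadd _ _ (hadd _ _ (hadd _ _ (hadd _ _ (h1 _ _) (h1 _ _)) (h1 _ _)) (h2 _ _ _))
        (h2 _ _ _)) (h2 _ _ _)
    rw [Fintype.card_fin]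
    omega
  have hev : ∀ t : Fin 3 → ZMod p, MvPolynomial.eval t f = a0 * t 0 ^ 2 + a1 * t 1 ^ 2 +
      a2 * t 2 ^ 2 + b01 * t 0 * t 1 + b02 * t 0 * t 2 + b12 * t 1 * t 2 := by
    intro t
    simp [f]
  have hdvd := char_dvd_card_solutions p hdeg
  have h0 : MvPolynomial.eval (0 : Fin 3 → ZMod p) f = 0 := by
    rw [hev]; simp
  have hpos : 0 < Fintype.card {x : Fin 3 → ZMod p // MvPolynomial.eval x f = 0} :=
    Fintype.card_pos_iff.2 ⟨⟨0, h0⟩⟩
  have hlt : 1 < Fintype.card {x : Fin 3 → ZMod p // MvPolynomial.eval x f = 0} :=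
    lt_of_lt_of_le (Fact.out : p.Prime).one_lt (Nat.le_of_dvd hpos hdvd)
  obtain ⟨t, ht⟩ := Fintype.exists_ne_of_one_lt_card hlt ⟨0, h0⟩
  refine ⟨t.1, fun h => ht (Subtype.ext h), ?_⟩
  rw [← hev]
  exact t.2

/-- Row [RH-C2b]: nontrivial zeros modulo an odd prime.
Proof: `W = L/R`, `R = Rad B L p`, is a vector space over `ZMod p` (`pL ≤ R`) with `p^m ≥ p^3`
elements, so of dimension `m ≥ 3`.  `q(x) = B x x / 2 mod p` is well defined on `W`:
`q(x + r) = q(x) + (x,r) + q(r)`, `(x,r) ∈ pℤ`, and `(r,r)` is even and divisible by `p`.  Choose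
`x_1,…,x_m ∈ L` giving a basis of `W`; `q(∑ t_i x_i)` is a quadratic form in `t_i ∈ ZMod p`, a
polynomial of total degree `≤ 2 < m`, with the zero `t = 0`; by Chevalley-Warning
(`char_dvd_card_solutions`) there is a nonzero zero `t`. -/
theorem exists_zero_mod {B : LinearMap.BilinForm ℚ V} (hs : ∀ x y, B x y = B y x)
    {L : AddSubgroup V} (hL : IsLat L) (hE : EvenL B L) {p : ℕ} (hp : p.Prime) (hp2 : p ≠ 2)
    (hi : p ^ 3 ≤ (Rad B L p).relIndex L) :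
    ∃ x ∈ L, x ∉ Rad B L p ∧ ∃ z : ℤ, B x x = 2 * p * z := by
  have : Fact p.Prime := ⟨hp⟩
  obtain ⟨x, hx, hind⟩ := c2b_indep3 hE.1 hp hi
  have ha : ∀ i, ∃ z : ℤ, B (x i) (x i) = 2 * z := fun i => hE.2 (x i) (hx i)
  have hb : ∀ i j, ∃ z : ℤ, B (x i) (x j) = z := fun i j => hE.1 (x i) (hx i) (x j) (hx j)
  choose a ha using ha
  choose b hb using hb
  obtain ⟨t, ht0, ht⟩ := c2b_zero3 (p := p) (a 0) (a 1) (a 2) (b 0 1) (b 0 2) (b 1 2)
  have hlift : ∀ i, ∃ s : ℤ, ((s : ℤ) : ZMod p) = t i := fun i => ZMod.intCast_surjective (t i)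
  choose s hs' using hlift
  refine ⟨∑ i, s i • x i, sum_mem fun i _ => L.zsmul_mem (hx i) _, fun hR => ht0 ?_, ?_⟩
  · funext i
    rw [← hs' i, Pi.zero_apply]
    exact (ZMod.intCast_zmod_eq_zero_iff_dvd (s i) p).2 (hind s hR i)
  · have hd : (p : ℤ) ∣ a 0 * s 0 ^ 2 + a 1 * s 1 ^ 2 + a 2 * s 2 ^ 2 + b 0 1 * s 0 * s 1 +
        b 0 2 * s 0 * s 2 + b 1 2 * s 1 * s 2 := by
      rw [← ZMod.intCast_zmod_eq_zero_iff_dvd]
      push_cast
      simp only [hs']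
      exact ht
    obtain ⟨z, hz⟩ := hd
    refine ⟨z, ?_⟩
    have hz' : ((a 0 * s 0 ^ 2 + a 1 * s 1 ^ 2 + a 2 * s 2 ^ 2 + b 0 1 * s 0 * s 1 +
        b 0 2 * s 0 * s 2 + b 1 2 * s 1 * s 2 : ℤ) : ℚ) = ((p * z : ℤ) : ℚ) := by rw [hz]
    push_cast at hz'
    have hsm : ∀ (n : ℤ) (y : V), n • y = (n : ℚ) • y := fun n y => (Int.cast_smul_eq_zsmul ℚ n y).symm
    simp only [hsm, Fin.sum_univ_three, map_add, map_smul, LinearMap.add_apply, LinearMap.smul_apply,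
      smul_eq_mul]
    rw [hs (x 1) (x 0), hs (x 2) (x 0), hs (x 2) (x 1), hb 0 1, hb 0 2, hb 1 2, ha 0, ha 1, ha 2]
    linear_combination 2 * hz'

/-- Row [RH-C2b]: a vector of the hyperplane `(v,·) ≡ 0 mod q` with `q(y) ≢ 0`.
Proof: suppose `q ∣ (y,y)/2` for all `y ∈ L_v := {y ∈ L : (v,y) ∈ qℤ}`.  By polarisation
`(y,y') ∈ qℤ` for `y,y' ∈ L_v`.  Let `y₀ ∈ L` with `(v,y₀) ∉ qℤ` (hypothesis `hv`).  The map
`L → (ZMod q)²`, `x ↦ ((v,x), ·)`: `L_v` has index `q` in `L` and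
`{y ∈ L_v : (y,y₀) ∈ qℤ}` has index at most `q` in `L_v` and is contained in `Rad B L q`, because
`L = L_v + ℤ y₀`.  So `[L : Rad B L q] ≤ q²`, contradiction. -/
theorem exists_nonzero_mod {B : LinearMap.BilinForm ℚ V} (hs : ∀ x y, B x y = B y x)
    {L : AddSubgroup V} (hL : IsLat L) (hE : EvenL B L) {q : ℕ} (hq : q.Prime) (hq2 : q ≠ 2)
    (hi : q ^ 3 ≤ (Rad B L q).relIndex L) {v : V} (hvL : v ∈ L)
    (hv : ∃ x ∈ L, ¬ ∃ z : ℤ, B v x = q * z) :
    ∃ y ∈ L, (∃ z : ℤ, B v y = q * z) ∧ ¬ ∃ z : ℤ, B y y = 2 * q * z := by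
  have : Fact q.Prime := ⟨hq⟩
  by_contra hcon
  push Not at hcon
  obtain ⟨y0, hy0, hvy0⟩ := hv
  -- polarisation
  have hpol : ∀ y ∈ L, ∀ y' ∈ L, (∃ z : ℤ, B v y = q * z) → (∃ z : ℤ, B v y' = q * z) →
      ∃ z : ℤ, B y y' = q * z := by
    rintro y hy y' hy' ⟨z, hz⟩ ⟨z', hz'⟩
    obtain ⟨w1, h1⟩ := hcon y hy ⟨z, hz⟩
    obtain ⟨w2, h2⟩ := hcon y' hy' ⟨z', hz'⟩
    obtain ⟨w3, h3⟩ := hcon (y + y') (L.add_mem hy hy') ⟨z + z', by
      rw [map_add, hz, hz']; push_cast; ring⟩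
    refine ⟨w3 - w1 - w2, ?_⟩
    simp only [map_add, LinearMap.add_apply] at h3
    rw [hs y' y, h1, h2] at h3
    push_cast
    linarith
  obtain ⟨x, hx, hind⟩ := c2b_indep3 hE.1 hq hi
  have ha : ∀ i, ∃ z : ℤ, B v (x i) = z := fun i => hE.1 v hvL (x i) (hx i)
  have hb : ∀ i, ∃ z : ℤ, B y0 (x i) = z := fun i => hE.1 y0 hy0 (x i) (hx i)
  choose a ha using ha
  choose b hb using hb
  -- a nonzero vector killed by two linear forms
  obtain ⟨t, ht0, hta, htb⟩ : ∃ t : Fin 3 → ZMod q, t ≠ 0 ∧ ∑ i, (a i : ZMod q) * t i = 0 ∧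
      ∑ i, (b i : ZMod q) * t i = 0 := by
    let M : Matrix (Fin 2) (Fin 3) (ZMod q) := Matrix.of ![fun i => (a i : ZMod q), fun i => (b i : ZMod q)]
    have hker : LinearMap.ker (Matrix.mulVecLin M) ≠ ⊥ := by
      apply LinearMap.ker_ne_bot_of_finrank_lt
      simp
    obtain ⟨t, ht, ht0⟩ := (Submodule.ne_bot_iff _).1 hker
    rw [LinearMap.mem_ker, Matrix.mulVecLin_apply] at ht
    refine ⟨t, ht0, ?_, ?_⟩
    · have := congrFun ht 0
      simpa [M, Matrix.mulVec, dotProduct] using this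
    · have := congrFun ht 1
      simpa [M, Matrix.mulVec, dotProduct] using this
  have hlift : ∀ i, ∃ s : ℤ, ((s : ℤ) : ZMod q) = t i := fun i => ZMod.intCast_surjective (t i)
  choose s hs' using hlift
  have hsm : ∀ (n : ℤ) (y : V), n • y = (n : ℚ) • y := fun n y => (Int.cast_smul_eq_zsmul ℚ n y).symm
  set X : V := ∑ i, s i • x i with hX
  have hXL : X ∈ L := sum_mem fun i _ => L.zsmul_mem (hx i) _
  have hvX : ∃ z : ℤ, B v X = q * z := by
    have hd : (q : ℤ) ∣ ∑ i, a i * s i := by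
      rw [← ZMod.intCast_zmod_eq_zero_iff_dvd]
      push_cast
      simp only [hs']
      exact hta
    obtain ⟨z, hz⟩ := hd
    refine ⟨z, ?_⟩
    have hz' : ((∑ i, a i * s i : ℤ) : ℚ) = ((q * z : ℤ) : ℚ) := by rw [hz]
    push_cast at hz'
    rw [← hz', hX, map_sum]
    refine Finset.sum_congr rfl fun i _ => ?_
    rw [hsm, map_smul, ha, smul_eq_mul]
    ring
  have hyX : ∃ z : ℤ, B y0 X = q * z := by
    have hd : (q : ℤ) ∣ ∑ i, b i * s i := by
      rw [← ZMod.intCast_zmod_eq_zero_iff_dvd]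
      push_cast
      simp only [hs']
      exact htb
    obtain ⟨z, hz⟩ := hd
    refine ⟨z, ?_⟩
    have hz' : ((∑ i, b i * s i : ℤ) : ℚ) = ((q * z : ℤ) : ℚ) := by rw [hz]
    push_cast at hz'
    rw [← hz', hX, map_sum]
    refine Finset.sum_congr rfl fun i _ => ?_
    rw [hsm, map_smul, hb, smul_eq_mul]
    ring
  have hRad : X ∈ Rad B L q := by
    refine ⟨hXL, fun l hl => ?_⟩
    obtain ⟨c0, hc0⟩ := hE.1 v hvL y0 hy0
    obtain ⟨m, hm⟩ := hE.1 v hvL l hl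
    have hc0' : ¬ (q : ℤ) ∣ c0 := by
      rintro ⟨k, hk⟩
      apply hvy0
      exact ⟨k, by rw [hc0, hk]; push_cast; ring⟩
    have hcop : IsCoprime (q : ℤ) c0 :=
      (Nat.prime_iff_prime_int.1 hq).coprime_iff_not_dvd.2 hc0'
    obtain ⟨u, w, huw⟩ := hcop
    -- `u q + w c0 = 1`; put `c = m w`
    have hl' : ∃ z : ℤ, B v (l - (m * w) • y0) = q * z := by
      refine ⟨m * u, ?_⟩
      rw [map_sub, hsm, map_smul, hm, hc0, smul_eq_mul]
      have : ((u * q + w * c0 : ℤ) : ℚ) = ((1 : ℤ) : ℚ) := by rw [huw]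
      push_cast at this ⊢
      linear_combination (-(m : ℚ)) * this
    obtain ⟨z1, hz1⟩ := hpol X hXL (l - (m * w) • y0)
      (L.sub_mem hl (L.zsmul_mem hy0 _)) hvX hl'
    obtain ⟨z2, hz2⟩ := hyX
    refine ⟨z1 + m * w * z2, ?_⟩
    rw [map_sub, hsm, map_smul, hs X y0, hz2, smul_eq_mul] at hz1
    push_cast at hz1 ⊢
    linear_combination hz1
  apply ht0
  funext i
  rw [← hs' i, Pi.zero_apply]
  exact (ZMod.intCast_zmod_eq_zero_iff_dvd (s i) q).2 (hind s hRad i)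

/-- Row [RH-C2b]: Chinese remainder theorem for lattices -/
theorem crt_lattice {L : AddSubgroup V} (S : Finset ℕ) (hS : ∀ p ∈ S, p.Prime)
    (x : ℕ → V) (hx : ∀ p ∈ S, x p ∈ L) : ∃ y ∈ L, ∀ p ∈ S, ∃ w ∈ L, y - x p = (p : ℤ) • w := by
  classical
  have h : ∀ p ∈ S, ∃ e : ℤ, (p : ℤ) ∣ e - 1 ∧ ∀ q ∈ S, q ≠ p → (q : ℤ) ∣ e := by
    intro p hp
    have hc : IsCoprime (p : ℤ) (∏ q ∈ S.erase p, (q : ℤ)) := by
      refine IsCoprime.prod_right fun q hq => ?_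
      rw [Nat.isCoprime_iff_coprime]
      exact (Nat.coprime_primes (hS p hp) (hS q (Finset.mem_of_mem_erase hq))).2
        (Finset.ne_of_mem_erase hq).symm
    obtain ⟨a, b, hab⟩ := hc
    refine ⟨b * ∏ q ∈ S.erase p, (q : ℤ), ⟨-a, by linarith⟩, fun q hq hqp => ?_⟩
    exact dvd_mul_of_dvd_right (Finset.dvd_prod_of_mem (fun q : ℕ => (q : ℤ))
      (Finset.mem_erase.2 ⟨hqp, hq⟩)) b
  choose! e he1 he2 using h
  refine ⟨∑ q ∈ S, e q • x q, sum_mem fun q hq => L.zsmul_mem (hx q hq) _, fun p hp => ?_⟩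
  obtain ⟨k, hk⟩ := he1 p hp
  have hc : ∀ q ∈ S.erase p, ∃ c : ℤ, e q = p * c := fun q hq =>
    he2 q (Finset.mem_of_mem_erase hq) p hp (Finset.ne_of_mem_erase hq).symm
  choose! c hc using hc
  refine ⟨k • x p + ∑ q ∈ S.erase p, c q • x q, ?_, ?_⟩
  · exact L.add_mem (L.zsmul_mem (hx p hp) _)
      (sum_mem fun q hq => L.zsmul_mem (hx q (Finset.mem_of_mem_erase hq)) _)
  · rw [← Finset.add_sum_erase S (fun q => e q • x q) hp, smul_add, Finset.smul_sum]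
    have e1 : ∑ q ∈ S.erase p, e q • x q = ∑ q ∈ S.erase p, (p : ℤ) • c q • x q := by
      refine Finset.sum_congr rfl fun q hq => ?_
      rw [hc q hq, mul_smul]
    have e2 : e p = 1 + p * k := by linarith
    rw [e1, e2, add_smul, one_smul, mul_smul]
    abel

end RH6
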