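import Pool.Agent.RH6.C2b
import Pool.Agent.RH6.B2

namespace RH6

variable {V : Type*} [AddCommGroup V] [Module ℚ V] [FiniteDimensional ℚ V]

/-- `v` is a primitive isotropic vector of `L` with `(v, L) = d ℤ` -/
def Cusp (B : LinearMap.BilinForm ℚ V) (L : AddSubgroup V) (v : V) (d : ℕ) : Prop :=
  v ∈ L ∧ v ≠ 0 ∧ B v v = 0 ∧ (∀ t : ℚ, t • v ∈ L → ∃ z : ℤ, t = z) ∧
    (∀ x ∈ L, ∃ z : ℤ, B v x = d * z) ∧ ∃ x ∈ L, B v x = d

theorem c2c_inv_not_int {p : ℕ} (hp : p.Prime) : ¬ ∃ z : ℤ, (1 / (p : ℚ)) = z := by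
  rintro ⟨z, hz⟩
  have hpq : (p : ℚ) ≠ 0 := by exact_mod_cast hp.ne_zero
  have h1 : (z : ℚ) * p = 1 := by rw [← hz]; field_simp
  have h2 : z * (p : ℤ) = 1 := by exact_mod_cast h1
  have h3 : (p : ℤ) ∣ 1 := ⟨z, by rw [mul_comm]; exact h2.symm⟩
  have h4 : p ∣ 1 := by exact_mod_cast h3
  exact hp.one_lt.ne' (Nat.dvd_one.1 h4)

theorem c2c_ne_zero {B : LinearMap.BilinForm ℚ V} (hB : Nice B) {L : AddSubgroup V}
    (hL : IsLat L) {v : V} {d : ℕ} (hv : Cusp B L v d) : d ≠ 0 := by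
  obtain ⟨-, hv0, -, -, hd, -⟩ := hv
  rintro rfl
  apply hv0
  apply eq_zero_of_orth hB hL
  intro x hx
  obtain ⟨z, hz⟩ := hd x hx
  simpa using hz

/-- Row [RH-C2c]: `d > 0` and `d` is squarefree: if `p² ∣ d` then `v/p² ∈ L^#`, `p² (v/p²) ∈ L`, so
`v/p ∈ L` by `Elem`, contradicting primitivity.  (`d ≠ 0` as the form is nondegenerate.) -/
theorem cusp_sqfree {B : LinearMap.BilinForm ℚ V} (hB : Nice B) {L : AddSubgroup V}
    (hL : IsLat L) (hEl : ∀ p : ℕ, p.Prime → Elem B L p) {v : V} {d : ℕ} (hv : Cusp B L v d) :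
    Squarefree d := by
  have hd0 := c2c_ne_zero hB hL hv
  obtain ⟨hvL, hv0, -, hprim, hd, -⟩ := hv
  rw [Nat.squarefree_iff_prime_squarefree]
  intro p hp hpd
  obtain ⟨e, he⟩ := hpd
  have hpp : 0 < p * p := Nat.mul_pos hp.pos hp.pos
  have hpq : (p : ℚ) ≠ 0 := by exact_mod_cast hp.ne_zero
  have h1 : (1 / ((p * p : ℕ) : ℚ)) • v ∈ dualL B L := by
    apply dual_of_dvd hpp
    intro x hx
    obtain ⟨z, hz⟩ := hd x hx
    refine ⟨e * z, ?_⟩
    rw [hz, he]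
    push_cast
    ring
  have h2 : ((p : ℤ) ^ 2) • ((1 / ((p * p : ℕ) : ℚ)) • v) = v := by
    rw [← Int.cast_smul_eq_zsmul ℚ, smul_smul]
    have : (((p : ℤ) ^ 2 : ℤ) : ℚ) * (1 / ((p * p : ℕ) : ℚ)) = 1 := by
      push_cast
      field_simp
    rw [this, one_smul]
  have h3 := hEl p hp _ h1 (by rw [h2]; exact hvL)
  have h4 : (p : ℤ) • ((1 / ((p * p : ℕ) : ℚ)) • v) = (1 / (p : ℚ)) • v := by
    rw [← Int.cast_smul_eq_zsmul ℚ, smul_smul]
    congr 1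
    push_cast
    field_simp
  rw [h4] at h3
  exact c2c_inv_not_int hp (hprim _ h3)

/-- Row [RH-C2c]: existence of a cusp, from an isotropic vector (`exists_prim`; `(v,L)` is a nonzero
subgroup of `ℤ`). -/
theorem exists_cusp {B : LinearMap.BilinForm ℚ V} (hB : Nice B) {L : AddSubgroup V}
    (hL : IsLat L) (h : Integ B L) {v₀ : V} (hv : v₀ ≠ 0) (hv0 : B v₀ v₀ = 0) :
    ∃ v d, Cusp B L v d := by
  obtain ⟨y, hyL, hy0, ⟨q, hq⟩, hprim⟩ := exists_prim hL hv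
  have hq0 : q ≠ 0 := by
    rintro rfl
    apply hv
    rw [hq, zero_smul]
  have hyy : B y y = 0 := by
    rw [hq] at hv0
    simp only [map_smul, LinearMap.smul_apply, smul_eq_mul] at hv0
    have := (mul_eq_zero.1 hv0).resolve_left hq0
    exact (mul_eq_zero.1 this).resolve_left hq0
  let H : AddSubgroup ℤ :=
    { carrier := {z | ∃ x ∈ L, B y x = z}
      zero_mem' := ⟨0, L.zero_mem, by simp⟩
      add_mem' := by
        rintro a b ⟨x, hx, hxa⟩ ⟨x', hx', hxb⟩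
        exact ⟨x + x', L.add_mem hx hx', by rw [map_add, hxa, hxb]; push_cast; rfl⟩
      neg_mem' := by
        rintro a ⟨x, hx, hxa⟩
        exact ⟨-x, L.neg_mem hx, by rw [map_neg, hxa]; push_cast; rfl⟩ }
  obtain ⟨a, ha⟩ := Int.subgroup_cyclic H
  have hmem : ∀ z : ℤ, z ∈ H ↔ ∃ n : ℤ, n * a = z := by
    intro z
    rw [ha, AddSubgroup.mem_closure_singleton]
    simp
  have haH : a ∈ H := (hmem a).2 ⟨1, by ring⟩
  have habs : ((a.natAbs : ℕ) : ℤ) ∈ H := by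
    rcases Int.natAbs_eq a with h' | h'
    · rw [← h']; exact haH
    · have : ((a.natAbs : ℕ) : ℤ) = -a := by omega
      rw [this]
      exact H.neg_mem haH
  refine ⟨y, a.natAbs, hyL, hy0, hyy, hprim, ?_, ?_⟩
  · intro x hx
    obtain ⟨z, hz⟩ := h y hyL x hx
    obtain ⟨n, hn⟩ := (hmem z).1 ⟨x, hx, hz⟩
    have hdv : ((a.natAbs : ℕ) : ℤ) ∣ z := by
      rw [Int.natAbs_dvd]
      exact ⟨n, by rw [← hn]; ring⟩
    obtain ⟨w, hw⟩ := hdv
    refine ⟨w, ?_⟩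
    rw [hz, hw, Int.cast_mul, Int.cast_natCast]
  · obtain ⟨x, hx, hxa⟩ := habs
    exact ⟨x, hx, by rw [hxa, Int.cast_natCast]⟩

/-- Row [RH-C2c]: if `p ∣ d`, there is `b ∈ Rad B L p` with `(v/d, b) ∉ pℤ`.
Proof: put `z₀ = v/d ∈ L^#`, `d = p d'`.  Otherwise `z₀/p` is in the dual of `Rad B L p`, which is
`L^# + p⁻¹ L` (`rad_dual`: the dual of `Rad` for `p⁻¹B` is `L + pL^#`), so `z₀ = p z + l`,
`z ∈ L^#`, `l ∈ L`.  Then `v = d z₀ = p² (d' z) + p d' l ∈ L`, so `p² (d' z) ∈ L`, so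
`p (d' z) ∈ L` by `Elem`, so `v/p = d' z₀ = p d' z + d' l ∈ L`, contradiction. -/
theorem exists_b {B : LinearMap.BilinForm ℚ V} (hB : Nice B) {L : AddSubgroup V}
    (hL : IsLat L) (h : Integ B L) {p : ℕ} (hp : p.Prime) (hEl : Elem B L p) {v : V} {d : ℕ}
    (hv : Cusp B L v d) (hpd : p ∣ d) :
    ∃ b ∈ Rad B L p, ¬ ∃ z : ℤ, B v b / d = p * z := by
  have hd0 := c2c_ne_zero hB hL hv
  obtain ⟨hvL, hv0, -, hprim, hd, -⟩ := hv
  by_contra hcon
  push Not at hcon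
  obtain ⟨d', hd'⟩ := hpd
  have hpq : (p : ℚ) ≠ 0 := by exact_mod_cast hp.ne_zero
  have hdq : (d : ℚ) ≠ 0 := by exact_mod_cast hd0
  have h1 : (1 / (d : ℚ)) • v ∈ dualL ((1 / (p : ℚ)) • B) (Rad B L p) := by
    intro b hb
    obtain ⟨z, hz⟩ := hcon b hb
    refine ⟨z, ?_⟩
    have h2 : B v b = d * (p * z) := by
      rw [← hz]
      field_simp
    simp only [map_smul, LinearMap.smul_apply, smul_eq_mul, h2]
    field_simp
  obtain ⟨l, hl, z, hz, hlz⟩ := (rad_dual hB hL h hp.pos _).1 h1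
  have h3 : v = (d : ℤ) • ((1 / (d : ℚ)) • v) := by
    rw [← Int.cast_smul_eq_zsmul ℚ, smul_smul]
    have : ((d : ℤ) : ℚ) * (1 / (d : ℚ)) = 1 := by
      push_cast
      field_simp
    rw [this, one_smul]
  have h4 : v = ((p : ℤ) * d') • l + ((p : ℤ) ^ 2) • ((d' : ℤ) • z) := by
    conv_lhs => rw [h3, hlz, hd']
    rw [smul_add, smul_smul, smul_smul]
    push_cast
    congr 2
    ring
  have h5 : ((p : ℤ) ^ 2) • ((d' : ℤ) • z) ∈ L := by
    have : ((p : ℤ) ^ 2) • ((d' : ℤ) • z) = v - ((p : ℤ) * d') • l := by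
      rw [eq_sub_iff_add_eq, add_comm]
      exact h4.symm
    rw [this]
    exact L.sub_mem hvL (L.zsmul_mem hl _)
  have h6 : (p : ℤ) • ((d' : ℤ) • z) ∈ L :=
    hEl _ ((dualL B L).zsmul_mem hz _) h5
  have h7 : (1 / (p : ℚ)) • v = (d' : ℤ) • l + (p : ℤ) • ((d' : ℤ) • z) := by
    have : (p : ℤ) • ((d' : ℤ) • l + (p : ℤ) • ((d' : ℤ) • z)) = v := by
      conv_rhs => rw [h4]
      rw [smul_add, smul_smul, smul_smul, smul_smul, smul_smul]
      congr 2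
      ring
    rw [← this, ← Int.cast_smul_eq_zsmul ℚ (p : ℤ), smul_smul]
    have h8 : (1 / (p : ℚ)) * ((p : ℤ) : ℚ) = 1 := by
      push_cast
      field_simp
    rw [h8, one_smul]
  have h9 : (1 / (p : ℚ)) • v ∈ L := by
    rw [h7]
    exact L.add_mem (L.zsmul_mem hl _) h6
  exact c2c_inv_not_int hp (hprim _ h9)

end RH6
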