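import Pool.Agent.RH6.C2c

namespace RH6

variable {V : Type*} [AddCommGroup V] [Module ℚ V] [FiniteDimensional ℚ V]

omit [FiniteDimensional ℚ V] in
theorem c2d_exists_div {B : LinearMap.BilinForm ℚ V} {L : AddSubgroup V} (h : Integ B L)
    {v : V} (hv : v ∈ L) :
    ∃ d : ℕ, (∀ x ∈ L, ∃ z : ℤ, B v x = d * z) ∧ ∃ x ∈ L, B v x = d := by
  let A : AddSubgroup ℤ :=
    { carrier := {z | ∃ x ∈ L, B v x = z}
      zero_mem' := ⟨0, L.zero_mem, by simp⟩
      add_mem' := by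
        rintro a b ⟨x, hx, hxa⟩ ⟨y, hy, hyb⟩
        exact ⟨x + y, L.add_mem hx hy, by simp [hxa, hyb]⟩
      neg_mem' := by
        rintro a ⟨x, hx, hxa⟩
        exact ⟨-x, L.neg_mem hx, by simp [hxa]⟩ }
  obtain ⟨a, ha⟩ := Int.subgroup_cyclic A
  have hmem : ∀ z : ℤ, z ∈ A ↔ a ∣ z := by
    intro z
    rw [ha, AddSubgroup.mem_closure_singleton]
    constructor
    · rintro ⟨n, hn⟩
      exact ⟨n, by rw [← hn, smul_eq_mul, mul_comm]⟩
    · rintro ⟨n, hn⟩
      exact ⟨n, by rw [hn, smul_eq_mul, mul_comm]⟩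
  refine ⟨a.natAbs, ?_, ?_⟩
  · intro x hx
    obtain ⟨z, hz⟩ := h v hv x hx
    have h1 : z ∈ A := ⟨x, hx, hz⟩
    rw [hmem] at h1
    obtain ⟨w, hw⟩ := Int.natAbs_dvd.mpr h1
    refine ⟨w, ?_⟩
    rw [hz, hw, Int.cast_mul, Int.cast_natCast]
  · have h1 : ((a.natAbs : ℤ)) ∈ A := by
      rw [hmem]
      exact Int.dvd_natAbs.mpr dvd_rfl
    obtain ⟨x, hx, hxa⟩ := h1
    exact ⟨x, hx, by rw [hxa, Int.cast_natCast]⟩

omit [FiniteDimensional ℚ V] in
/-- congruent vectors -/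
theorem c2d_congr {B : LinearMap.BilinForm ℚ V} (hs : ∀ x y, B x y = B y x)
    {L : AddSubgroup V} (hE : EvenL B L) {r : ℕ} {x y w : V} (hy : y ∈ L) (hw : w ∈ L)
    (hxy : x - y = (r : ℤ) • w) : ∃ z : ℤ, B x x = B y y + 2 * r * z := by
  have hx : x = y + (r : ℤ) • w := by rw [← hxy]; abel
  obtain ⟨a, ha⟩ := hE.1 y hy w hw
  obtain ⟨b, hb⟩ := hE.2 w hw
  refine ⟨a + r * b, ?_⟩
  rw [hx]
  simp only [map_add, LinearMap.add_apply, map_zsmul, LinearMap.smul_apply, zsmul_eq_mul]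
  rw [hs w y, ha, hb]
  push_cast
  ring

/-- Row [RH-C2d]: the step.  Let `p` be an odd prime with `p ∣ d`.  Then there is a cusp `v', d'`
such that every odd prime dividing `d'` divides `d` and is different from `p`.

Proof.  Let `z₀ = v/d ∈ L^#` and `q(x) = (x,x)/2 ∈ ℤ` for `x ∈ L`.
(a) There is `x_p ∈ L` with `q(x_p) ≡ 0 mod p`, `x_p ∉ Rad B L p`, `(z₀,x_p) ≢ 0 mod p`: take `x₁` as
in `exists_zero_mod`; if `(z₀,x₁) ≡ 0` replace it by `x₁ + b`, `b` as in `exists_b`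
(`q(x₁+b) = q(x₁) + (x₁,b) + q(b)`, `(b,b) ∈ pℤ` even).
(b) Let `S` be the set of odd primes `r` with `r ∤ d`, `r ∣ D`, where `D L^# ≤ L`, `D > 0`
(`isLat_common`).  For `r ∈ S` there is `x_r ∈ L` with `(v,x_r) ≡ 0`, `q(x_r) ≢ 0 mod r`
(`exists_nonzero_mod`; `(v,L) = dℤ` is not contained in `rℤ`).
(c) `crt_lattice`: `x ∈ L` with `x ≡ x_p mod pL`, `x ≡ x_r mod rL`, `r ∈ S`; all the congruences
hold for `x`.
(d) Let `d = p d'`, `q(x) = p q₁`, and `u = -q₁ v + d' (z₀,x) x ∈ L` (`(z₀,x) ∈ ℤ`).  Since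
`p u = -q(x) v + (v,x) x` (`(v,x) = d (z₀,x)`), `(u,u) = 0`.  For `y ∈ L`,
`(u,y) ≡ d'(z₀,x)(x,y) mod p` as `p ∣ (v,y)`; as `p ∤ d'` (`cusp_sqfree`), `p ∤ (z₀,x)`,
`x ∉ Rad B L p`, some `(u,y)` is not divisible by `p`.  In particular `u ≠ 0`.  Let `u = t v'`,
`v' ∈ L` primitive, `t ∈ ℤ` (`exists_prim`), and `(v',L) = d''ℤ`.  Then `p ∤ d''`.
(e) Let `r ≠ p` be an odd prime with `r ∣ d''`, `r ∤ d`.  If `r ∤ D`: `v'/r ∈ L^#`, so
`D (v'/r) ∈ L` and `r (v'/r) ∈ L`, so `v'/r ∈ L`, contradiction.  So `r ∈ S`, and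
`p u = -q(x) v + (v,x) x ≡ -q(x) v mod rL` with `r ∤ q(x)`.  For `y ∈ L`: `(p u, y) = t p (v',y)`
is divisible by `r`, so `q(x)(v,y) ≡ 0 mod r`, so `r ∣ (v,y)` for all `y`, i.e. `r ∣ d`,
contradiction. -/
theorem cusp_step {B : LinearMap.BilinForm ℚ V} (hB : Nice B) {L : AddSubgroup V}
    (hL : IsLat L) (hE : EvenL B L) (hEl : ∀ p : ℕ, p.Prime → Elem B L p)
    (hbig : ∀ p : ℕ, p.Prime → p ≠ 2 → p ^ 4 ≤ (Rad B L p).relIndex L)
    {v : V} {d : ℕ} (hv : Cusp B L v d) {p : ℕ} (hp : p.Prime) (hp2 : p ≠ 2) (hpd : p ∣ d) :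
    ∃ v' d', Cusp B L v' d' ∧ ∀ r : ℕ, r.Prime → r ≠ 2 → r ∣ d' → r ∣ d ∧ r ≠ p := by
  have hs := hB.symm
  have hsq := cusp_sqfree hB hL hEl hv
  obtain ⟨hvL, hv0, hvv, hprim, hdiv, xd, hxdL, hxd⟩ := hv
  have hvC : Cusp B L v d := ⟨hvL, hv0, hvv, hprim, hdiv, xd, hxdL, hxd⟩
  have hd0 : d ≠ 0 := hsq.ne_zero
  have hdQ : (d : ℚ) ≠ 0 := by exact_mod_cast hd0
  obtain ⟨d', hd'⟩ := hpd
  have hpd' : ¬ p ∣ d' := by
    intro h
    have h2 : p * p ∣ d := by rw [hd']; exact Nat.mul_dvd_mul_left p h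
    exact hp.one_lt.ne' (Nat.isUnit_iff.mp (hsq p h2))
  have hpZ : Prime (p : ℤ) := Nat.prime_iff_prime_int.mp hp
  have hpQ : (p : ℚ) ≠ 0 := by exact_mod_cast hp.ne_zero
  have hodd : ∀ r : ℕ, r.Prime → r ≠ 2 → ¬ ((2 : ℤ) ∣ (r : ℤ)) := by
    intro r hr hr2 h
    have h2 : (2 : ℕ) ∣ r := by exact_mod_cast h
    rcases (Nat.dvd_prime hr).mp h2 with h3 | h3
    · omega
    · exact hr2 h3.symm
  -- (a)
  have hA : ∃ xp ∈ L, (∃ z : ℤ, B xp xp = 2 * p * z) ∧ xp ∉ Rad B L p ∧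
      ∀ m : ℤ, B v xp = d * m → ¬ (p : ℤ) ∣ m := by
    obtain ⟨x1, hx1L, hx1R, z1, hz1⟩ := exists_zero_mod hs hL hE hp hp2
      (le_trans (Nat.pow_le_pow_right hp.pos (by norm_num)) (hbig p hp hp2))
    by_cases hc : ∀ m : ℤ, B v x1 = d * m → ¬ (p : ℤ) ∣ m
    · exact ⟨x1, hx1L, ⟨z1, hz1⟩, hx1R, hc⟩
    · push Not at hc
      obtain ⟨m, hm, k, hk⟩ := hc
      obtain ⟨b, hbR, hb⟩ := exists_b hB hL hE.1 hp (hEl p hp) hvC ⟨d', hd'⟩
      obtain ⟨z2, hz2⟩ := hbR.2 x1 hx1L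
      obtain ⟨z3, hz3⟩ := hbR.2 b hbR.1
      obtain ⟨z4, hz4⟩ := hE.2 b hbR.1
      have h34 : (p : ℤ) * z3 = 2 * z4 := by
        have : ((p : ℚ)) * z3 = 2 * z4 := by rw [← hz3, hz4]
        exact_mod_cast this
      have h2z3 : (2 : ℤ) ∣ z3 := by
        have h5 : (2 : ℤ) ∣ (p : ℤ) * z3 := ⟨z4, h34⟩
        rcases Int.prime_two.dvd_or_dvd h5 with h6 | h6
        · exact absurd h6 (hodd p hp hp2)
        · exact h6
      obtain ⟨z5, hz5⟩ := h2z3
      refine ⟨x1 + b, L.add_mem hx1L hbR.1, ⟨z1 + z2 + z5, ?_⟩, ?_, ?_⟩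
      · simp only [map_add, LinearMap.add_apply]
        rw [hs x1 b, hz1, hz2, hz3, hz5]
        push_cast
        ring
      · intro h
        apply hx1R
        have := (Rad B L p).sub_mem h hbR
        simpa using this
      · intro m' hm' hpm
        obtain ⟨k', hk'⟩ := hpm
        apply hb
        refine ⟨k' - k, ?_⟩
        rw [map_add, hm] at hm'
        rw [div_eq_iff hdQ]
        have h7 : B v b = d * m' - d * m := by linarith
        rw [h7, hk', hk]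
        push_cast
        ring
  obtain ⟨xp, hxpL, ⟨zp, hzp⟩, hxpR, hxpm⟩ := hA
  -- (b)
  obtain ⟨D, hD, hDL⟩ := isLat_common hL (dual_isLat hB hL)
  have hr : ∀ r : ℕ, r.Prime ∧ r ≠ 2 ∧ ¬ r ∣ d → ∃ y ∈ L, (∃ z : ℤ, B v y = r * z) ∧
      ¬ ∃ z : ℤ, B y y = 2 * r * z := by
    rintro r ⟨hr, hr2, hrd⟩
    apply exists_nonzero_mod hs hL hE hr hr2
      (le_trans (Nat.pow_le_pow_right hr.pos (by norm_num)) (hbig r hr hr2)) hvL
    refine ⟨xd, hxdL, ?_⟩
    rintro ⟨z, hz⟩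
    rw [hxd] at hz
    apply hrd
    have : (d : ℤ) = r * z := by exact_mod_cast hz
    have h2 : (r : ℤ) ∣ (d : ℤ) := ⟨z, this⟩
    exact_mod_cast h2
  classical
  let f : ℕ → V := fun r => if r = p then xp else
    if h : r.Prime ∧ r ≠ 2 ∧ ¬ r ∣ d then (hr r h).choose else 0
  have hfp : f p = xp := by simp [f]
  have hfr : ∀ r : ℕ, r ≠ p → (h : r.Prime ∧ r ≠ 2 ∧ ¬ r ∣ d) → f r = (hr r h).choose := by
    intro r hrp h
    simp only [f]
    rw [if_neg hrp, dif_pos h]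
  -- (c)
  obtain ⟨x, hxL, hx⟩ := crt_lattice (L := L)
    (insert p (D.primeFactors.filter (fun r => r ≠ 2 ∧ ¬ r ∣ d))) (by
      intro r hr'
      rcases Finset.mem_insert.mp hr' with h | h
      · rw [h]; exact hp
      · exact Nat.prime_of_mem_primeFactors (Finset.mem_filter.mp h).1) f (by
      intro r hr'
      rcases Finset.mem_insert.mp hr' with h | h
      · rw [h, hfp]; exact hxpL
      · have hrP := Nat.prime_of_mem_primeFactors (Finset.mem_filter.mp h).1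
        have hr2 := (Finset.mem_filter.mp h).2
        have hrp : r ≠ p := by
          intro h3
          apply hr2.2
          rw [h3, hd']
          exact Dvd.intro _ rfl
        rw [hfr r hrp ⟨hrP, hr2.1, hr2.2⟩]
        exact (hr r ⟨hrP, hr2.1, hr2.2⟩).choose_spec.1)
  obtain ⟨w, hwL, hw⟩ := hx p (Finset.mem_insert_self _ _)
  rw [hfp] at hw
  have hxw : x = xp + (p : ℤ) • w := by rw [← hw]; abel
  obtain ⟨e1, he1⟩ := c2d_congr hs hE hxpL hwL hw
  -- norm of x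
  have hxx : ∃ q1 : ℤ, B x x = 2 * p * q1 := ⟨zp + e1, by rw [he1, hzp]; push_cast; ring⟩
  obtain ⟨q1, hq1⟩ := hxx
  have hxR : x ∉ Rad B L p := by
    intro h
    apply hxpR
    have h1 : (p : ℤ) • w ∈ Rad B L p := mulL_le_rad hE.1 p ⟨w, hwL, rfl⟩
    have h2 := (Rad B L p).sub_mem h h1
    rw [hxw] at h2
    simpa using h2
  obtain ⟨m, hm⟩ := hdiv x hxL
  have hpm : ¬ (p : ℤ) ∣ m := by
    obtain ⟨mw, hmw⟩ := hdiv w hwL
    obtain ⟨mp, hmp⟩ := hdiv xp hxpL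
    have h1 : m = mp + p * mw := by
      have h2 : (d : ℚ) * m = d * (mp + p * mw) := by
        rw [← hm, hxw, map_add, map_zsmul, hmp, zsmul_eq_mul, hmw]
        push_cast
        ring
      have h3 := mul_left_cancel₀ hdQ h2
      exact_mod_cast h3
    intro h
    apply hxpm mp hmp
    rw [h1] at h
    exact (Int.dvd_add_left (Dvd.intro _ rfl)).mp h
  -- (d)
  let u : V := (-q1) • v + ((d' : ℤ) * m) • x
  have huL : u ∈ L := L.add_mem (L.zsmul_mem hvL _) (L.zsmul_mem hxL _)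
  have hBu : ∀ y, B u y = -q1 * B v y + (d' : ℚ) * m * B x y := by
    intro y
    simp only [u, map_add, LinearMap.add_apply, map_zsmul, LinearMap.smul_apply, zsmul_eq_mul]
    push_cast
    ring
  have hdQ' : (d : ℚ) = p * d' := by rw [hd']; push_cast; ring
  have huu : B u u = 0 := by
    have h1 : B v u = (d' : ℚ) * m * (d * m) := by
      rw [hs v u, hBu, hvv, hs x v, hm]; ring
    have h2 : B x u = -q1 * (d * m) + (d' : ℚ) * m * (2 * p * q1) := by
      rw [hs x u, hBu, hm, hq1]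
    rw [hBu, h1, h2, hdQ']
    ring
  have hex : ∃ y ∈ L, ∀ k : ℤ, B u y = k → ¬ (p : ℤ) ∣ k := by
    have h1 : ∃ y ∈ L, ¬ ∃ z : ℤ, B x y = p * z := by
      by_contra hcon
      push Not at hcon
      apply hxR
      refine ⟨hxL, ?_⟩
      intro y hy
      obtain ⟨z, hz⟩ := hcon y hy
      exact ⟨z, hz⟩
    obtain ⟨y, hyL, hy⟩ := h1
    refine ⟨y, hyL, ?_⟩
    intro k hk hpk
    obtain ⟨a, ha⟩ := hdiv y hyL
    obtain ⟨b, hb⟩ := hE.1 x hxL y hyL
    rw [hBu, ha, hb, hdQ'] at hk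
    have h2 : -q1 * (p * d' * a) + d' * m * b = k := by exact_mod_cast hk
    have h3 : (p : ℤ) ∣ d' * m * b := by
      have h4 : (d' : ℤ) * m * b = k + p * (q1 * d' * a) := by rw [← h2]; ring
      rw [h4]
      exact dvd_add hpk (Dvd.intro _ rfl)
    rcases hpZ.dvd_or_dvd h3 with h4 | h4
    · rcases hpZ.dvd_or_dvd h4 with h5 | h5
      · exact hpd' (by exact_mod_cast h5)
      · exact hpm h5
    · obtain ⟨c, hc⟩ := h4
      exact hy ⟨c, by rw [hb, hc]; push_cast; ring⟩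
  obtain ⟨y0, hy0L, hy0⟩ := hex
  have hu0 : u ≠ 0 := by
    intro h
    apply hy0 0 (by rw [h]; simp)
    exact dvd_zero _
  obtain ⟨v', hv'L, hv'0, ⟨t, ht⟩, hv'p⟩ := exists_prim hL hu0
  obtain ⟨tz, htz⟩ := hv'p t (by rw [← ht]; exact huL)
  have ht0 : t ≠ 0 := by
    intro h
    apply hu0
    rw [ht, h, zero_smul]
  have hBu' : ∀ y, B u y = t * B v' y := by
    intro y
    rw [ht]; simp
  have hv'v' : B v' v' = 0 := by
    have h1 : B u u = t * (t * B v' v') := by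
      rw [hBu' u, hs v' u, hBu' v']
    rw [huu] at h1
    have h2 := h1.symm
    rcases mul_eq_zero.mp h2 with h3 | h3
    · exact absurd h3 ht0
    · rcases mul_eq_zero.mp h3 with h4 | h4
      · exact absurd h4 ht0
      · exact h4
  obtain ⟨d'', hd''1, hd''2⟩ := c2d_exists_div hE.1 hv'L
  have hC' : Cusp B L v' d'' := ⟨hv'L, hv'0, hv'v', hv'p, hd''1, hd''2⟩
  refine ⟨v', d'', hC', ?_⟩
  intro r hrP hr2 hrd''
  have hrp : r ≠ p := by
    intro h
    obtain ⟨a, ha⟩ := hd''1 y0 hy0L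
    obtain ⟨c, hc⟩ := hrd''
    apply hy0 (tz * (d'' * a))
    · rw [hBu', ha, htz]; push_cast; ring
    · rw [← h, hc]
      push_cast
      exact ⟨tz * (c * a), by ring⟩
  refine ⟨?_, hrp⟩
  by_contra hrd
  by_cases hrD : r ∣ D
  · have hrS : r ∈ insert p (D.primeFactors.filter (fun r => r ≠ 2 ∧ ¬ r ∣ d)) := by
      apply Finset.mem_insert_of_mem
      rw [Finset.mem_filter]
      exact ⟨Nat.mem_primeFactors.mpr ⟨hrP, hrD, hD.ne'⟩, hr2, hrd⟩
    obtain ⟨w', hw'L, hw'⟩ := hx r hrS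
    have hspec := (hr r ⟨hrP, hr2, hrd⟩).choose_spec
    have hfr' := hfr r hrp ⟨hrP, hr2, hrd⟩
    rw [hfr'] at hw'
    obtain ⟨hyL, ⟨zy, hzy⟩, hyn⟩ := hspec
    set yr := (hr r ⟨hrP, hr2, hrd⟩).choose with hyr
    obtain ⟨e2, he2⟩ := c2d_congr hs hE hyL hw'L hw'
    have hrZ : Prime (r : ℤ) := Nat.prime_iff_prime_int.mp hrP
    have hrq1 : ¬ (r : ℤ) ∣ q1 := by
      rintro ⟨c, hc⟩
      apply hyn
      refine ⟨p * c - e2, ?_⟩
      have h1 : B yr yr = B x x - 2 * r * e2 := by rw [he2]; ring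
      rw [h1, hq1, hc]
      push_cast
      ring
    have hvx : ∃ z : ℤ, B v x = r * z := by
      obtain ⟨a, ha⟩ := hdiv w' hw'L
      have hx' : x = yr + (r : ℤ) • w' := by rw [← hw']; abel
      refine ⟨zy + d * a, ?_⟩
      rw [hx', map_add, map_zsmul, hzy, zsmul_eq_mul, ha]
      push_cast
      ring
    obtain ⟨zx, hzx⟩ := hvx
    obtain ⟨b, hb⟩ := hE.1 x hxL xd hxdL
    obtain ⟨a, ha⟩ := hd''1 xd hxdL
    obtain ⟨c, hc⟩ := hrd''
    have h1 : (p : ℚ) * (tz * (d'' * a)) = -(p * q1) * d + (r * zx) * b := by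
      have h2 := hBu xd
      rw [hBu' xd, ha, htz, hxd, hb] at h2
      have h3 : (p : ℚ) * (d' * m) = r * zx := by
        rw [← hzx, hm, hdQ']; ring
      rw [h2]
      calc (p : ℚ) * (-q1 * d + d' * m * b) = -(p * q1) * d + (p * (d' * m)) * b := by ring
        _ = _ := by rw [h3]
    have h2 : (p : ℤ) * (tz * (d'' * a)) = -(p * q1) * d + (r * zx) * b := by exact_mod_cast h1
    have h3 : (r : ℤ) ∣ (p * q1) * d := by
      refine ⟨zx * b - p * (tz * (c * a)), ?_⟩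
      have h4 : (d'' : ℤ) = r * c := by exact_mod_cast hc
      rw [h4] at h2
      linear_combination h2
    rcases hrZ.dvd_or_dvd h3 with h4 | h4
    · rcases hrZ.dvd_or_dvd h4 with h5 | h5
      · have h6 : r ∣ p := by exact_mod_cast h5
        rcases (Nat.dvd_prime hp).mp h6 with h7 | h7
        · exact hrP.one_lt.ne' h7
        · exact hrp h7
      · exact hrq1 h5
    · exact hrd (by exact_mod_cast h4)
  · obtain ⟨c, hc⟩ := hrd''
    have h1 : (1 / (r : ℚ)) • v' ∈ dualL B L := by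
      apply dual_of_dvd hrP.pos
      intro y hy
      obtain ⟨z, hz⟩ := hd''1 y hy
      refine ⟨c * z, ?_⟩
      rw [hz, hc]
      push_cast
      ring
    have h2 := hDL _ h1
    have hrQ : (r : ℚ) ≠ 0 := by exact_mod_cast hrP.ne_zero
    have hcop : IsCoprime (D : ℤ) (r : ℤ) := by
      have : Nat.Coprime D r := ((Nat.Prime.coprime_iff_not_dvd hrP).mpr hrD).symm
      exact Nat.isCoprime_iff_coprime.mpr this
    obtain ⟨a, b, hab⟩ := hcop
    have h3 : (1 / (r : ℚ)) • v' ∈ L := by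
      have h4 : (1 / (r : ℚ)) • v' = a • ((D : ℤ) • ((1 / (r : ℚ)) • v')) + b • v' := by
        have h5 : b • v' = (b * r : ℤ) • ((1 / (r : ℚ)) • v') := by
          rw [← Int.cast_smul_eq_zsmul ℚ, ← Int.cast_smul_eq_zsmul ℚ (b * r : ℤ), smul_smul]
          congr 1
          push_cast
          field_simp
        rw [h5, smul_smul, ← add_smul, hab, one_smul]
      rw [h4]
      exact L.add_mem (L.zsmul_mem h2 _) (L.zsmul_mem hv'L _)
    obtain ⟨z, hz⟩ := hv'p _ h3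
    have h6 : (r : ℚ) * z = 1 := by rw [← hz]; field_simp
    have h7 : (r : ℤ) * z = 1 := by exact_mod_cast h6
    have h8 : (r : ℤ) ∣ 1 := ⟨z, h7.symm⟩
    have h9 : r ∣ 1 := by exact_mod_cast h8
    exact hrP.one_lt.ne' (Nat.dvd_one.mp h9)

/-- Row [RH-C2d]: hence there is a cusp with `d = 1` or `d = 2`: choose a cusp with the minimal
number of odd prime divisors of `d`; by `cusp_step` there are none, and `d` is squarefree. -/
theorem exists_cusp12 {B : LinearMap.BilinForm ℚ V} (hB : Nice B) {L : AddSubgroup V}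
    (hL : IsLat L) (hE : EvenL B L) (hEl : ∀ p : ℕ, p.Prime → Elem B L p)
    (hbig : ∀ p : ℕ, p.Prime → p ≠ 2 → p ^ 4 ≤ (Rad B L p).relIndex L)
    {v₀ : V} (hv : v₀ ≠ 0) (hv0 : B v₀ v₀ = 0) :
    ∃ v, Cusp B L v 1 ∨ Cusp B L v 2 := by
  have key : ∀ n : ℕ, ∀ (v : V) (d : ℕ), Cusp B L v d → (d.primeFactors.erase 2).card = n →
      ∃ v, Cusp B L v 1 ∨ Cusp B L v 2 := by
    intro n
    induction n using Nat.strong_induction_on with
    | _ n ih =>
      intro v d hC hn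
      have hsq := cusp_sqfree hB hL hEl hC
      by_cases hne : (d.primeFactors.erase 2).Nonempty
      · obtain ⟨p, hp⟩ := hne
        have hp2 := (Finset.mem_erase.mp hp).1
        have hpf := (Finset.mem_erase.mp hp).2
        have hpP := Nat.prime_of_mem_primeFactors hpf
        have hpd := Nat.dvd_of_mem_primeFactors hpf
        obtain ⟨v', d', hC', hr⟩ := cusp_step hB hL hE hEl hbig hC hpP hp2 hpd
        refine ih _ ?_ v' d' hC' rfl
        rw [← hn]
        apply Finset.card_lt_card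
        rw [Finset.ssubset_iff_of_subset]
        · refine ⟨p, hp, ?_⟩
          intro h
          have h1 := (Finset.mem_erase.mp h).2
          exact (hr p hpP hp2 (Nat.dvd_of_mem_primeFactors h1)).2 rfl
        · intro r hr'
          have h1 := Finset.mem_erase.mp hr'
          have hrP := Nat.prime_of_mem_primeFactors h1.2
          exact Finset.mem_erase.mpr ⟨h1.1, Nat.mem_primeFactors.mpr
            ⟨hrP, (hr r hrP h1.1 (Nat.dvd_of_mem_primeFactors h1.2)).1, hsq.ne_zero⟩⟩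
      · rw [Finset.not_nonempty_iff_eq_empty] at hne
        have hprod := Nat.prod_primeFactors_of_squarefree hsq
        have hsub : d.primeFactors ⊆ {2} := by
          intro r hr
          by_contra h2
          have : r ∈ d.primeFactors.erase 2 :=
            Finset.mem_erase.mpr ⟨by simpa using h2, hr⟩
          rw [hne] at this
          simp at this
        rcases Finset.subset_singleton_iff.mp hsub with h | h
        · rw [h] at hprod
          refine ⟨v, Or.inl ?_⟩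
          simp at hprod
          rw [hprod]
          exact hC
        · rw [h] at hprod
          refine ⟨v, Or.inr ?_⟩
          simp at hprod
          rw [hprod]
          exact hC
  obtain ⟨v, d, hC⟩ := exists_cusp hB hL hE.1 hv hv0
  exact key _ v d hC rfl

end RH6
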