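import Pool.Agent.RH6.CDef
import Pool.Agent.RH6.C2c
import Pool.Agent.RH6.B3b

namespace RH6

variable {V : Type*} [AddCommGroup V] [Module ℚ V] [FiniteDimensional ℚ V]

/-- `B` is Lorentzian: positive definite on the complement of a negative vector -/
def Sig (B : LinearMap.BilinForm ℚ V) : Prop :=
  ∃ h, B h h < 0 ∧ ∀ x, B x h = 0 → x ≠ 0 → 0 < B x x

/-- Cauchy-Schwarz on the complement of `h` -/
theorem c3_cs {B : LinearMap.BilinForm ℚ V} (hs : ∀ x y, B x y = B y x) {h : V}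
    (hpos : ∀ x, B x h = 0 → x ≠ 0 → 0 < B x x) {a b : V} (ha : B a h = 0) (hb : B b h = 0) :
    (B a b) ^ 2 ≤ B a a * B b b := by
  by_cases hb0 : b = 0
  · subst hb0
    simp
  have hQ := hpos b hb hb0
  have hnn : 0 ≤ B (B b b • a - B a b • b) (B b b • a - B a b • b) := by
    by_cases hw : (B b b • a - B a b • b) = 0
    · rw [hw]; simp
    · apply le_of_lt
      apply hpos _ _ hw
      simp [ha, hb]
  have he : B (B b b • a - B a b • b) (B b b • a - B a b • b) =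
      B b b * (B a a * B b b - (B a b) ^ 2) := by
    simp only [map_sub, map_smul, LinearMap.sub_apply, LinearMap.smul_apply, smul_eq_mul]
    rw [hs b a]
    ring
  rw [he] at hnn
  have := nonneg_of_mul_nonneg_right hnn hQ
  linarith

/-- Row [RH-C3]: the complement of every negative vector is positive definite
(same proof as `pos_of_orth` in W02: `x = α h + x₀`, `y = β h + y₀`, Cauchy-Schwarz on `h^⊥`). -/
theorem sig_orth {B : LinearMap.BilinForm ℚ V} (hs : ∀ x y, B x y = B y x) (hS : Sig B)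
    {x y : V} (hy : B y y < 0) (hxy : B x y = 0) (hx : x ≠ 0) : 0 < B x x := by
  obtain ⟨h, hh, hpos⟩ := hS
  by_contra hcon
  push Not at hcon
  have hN : B h h ≠ 0 := ne_of_lt hh
  obtain ⟨α, hα⟩ : ∃ α : ℚ, α = B x h / B h h := ⟨_, rfl⟩
  obtain ⟨β, hβ⟩ : ∃ β : ℚ, β = B y h / B h h := ⟨_, rfl⟩
  have hα' : B x h = α * B h h := by rw [hα]; field_simp
  have hβ' : B y h = β * B h h := by rw [hβ]; field_simp
  have hx0 : B (x - α • h) h = 0 := by simp [hα']
  have hy0 : B (y - β • h) h = 0 := by simp [hβ']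
  have hcs := c3_cs hs hpos hx0 hy0
  have exx : B (x - α • h) (x - α • h) = B x x - α ^ 2 * B h h := by
    simp only [map_sub, map_smul, LinearMap.sub_apply, LinearMap.smul_apply, smul_eq_mul]
    rw [hs h x, hα']; ring
  have eyy : B (y - β • h) (y - β • h) = B y y - β ^ 2 * B h h := by
    simp only [map_sub, map_smul, LinearMap.sub_apply, LinearMap.smul_apply, smul_eq_mul]
    rw [hs h y, hβ']; ring
  have exy : B (x - α • h) (y - β • h) = - (α * β * B h h) := by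
    simp only [map_sub, map_smul, LinearMap.sub_apply, LinearMap.smul_apply, smul_eq_mul]
    rw [hs h y, hα', hβ', hxy]; ring
  have hynn : 0 ≤ B (y - β • h) (y - β • h) := by
    by_cases hw : y - β • h = 0
    · rw [hw]; simp
    · exact le_of_lt (hpos _ hy0 hw)
  rw [exx, eyy, exy] at hcs
  rw [eyy] at hynn
  by_cases hα0 : α = 0
  · have hxz : x - α • h ≠ 0 := by rw [hα0]; simpa using hx
    have := hpos _ hx0 hxz
    rw [exx, hα0] at this
    linarith
  · have h1 : B x x - α ^ 2 * B h h ≤ α ^ 2 * (- B h h) := by linarith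
    have h2 : B y y - β ^ 2 * B h h < β ^ 2 * (- B h h) := by linarith
    have hα2 : 0 < α ^ 2 := by positivity
    have h3 : 0 < α ^ 2 * (- B h h) := mul_pos hα2 (by linarith)
    have h4 : (B x x - α ^ 2 * B h h) * (B y y - β ^ 2 * B h h) ≤
        (α ^ 2 * (- B h h)) * (B y y - β ^ 2 * B h h) := mul_le_mul_of_nonneg_right h1 hynn
    have h5 : (α ^ 2 * (- B h h)) * (B y y - β ^ 2 * B h h) <
        (α ^ 2 * (- B h h)) * (β ^ 2 * (- B h h)) := mul_lt_mul_of_pos_left h2 h3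
    nlinarith

/-- Row [RH-C3]: splitting off a scaled hyperbolic plane.
Proof: `W := {x : B v x = 0 ∧ B w x = 0}` has dimension 5 and `V = ℚv ⊕ ℚw ⊕ W`,
`x = ((w,x)/M) v + ((v,x)/M) w + x_W`.  Choose a linear equivalence `ψ : W ≃ V5`, let `B₅` be the
transported form, `K = {ψ x : x ∈ W ∩ L}`, `φ x = ((w,x)/M, (v,x)/M, ψ x_W)`.
`(x,x') = M (p q' + q p') + (x_W,x'_W)` as `(v,v) = (w,w) = 0`, `(v,w) = M`.  If `x ∈ L`, then
`(w,x)/M`, `(v,x)/M ∈ ℤ`, so `x_W ∈ L`; conversely clear. -/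
theorem split {B : LinearMap.BilinForm ℚ V} (hs : ∀ x y, B x y = B y x) {L : AddSubgroup V}
    (hn : Module.finrank ℚ V = 7) {v w : V} (hv : v ∈ L) (hw : w ∈ L) (hv0 : B v v = 0)
    (hw0 : B w w = 0) {M : ℕ} (hM : 0 < M) (hvw : B v w = M)
    (h1 : ∀ x ∈ L, ∃ z : ℤ, B v x = M * z) (h2 : ∀ x ∈ L, ∃ z : ℤ, B w x = M * z) :
    ∃ (B5 : LinearMap.BilinForm ℚ V5) (K : AddSubgroup V5) (φ : V ≃ₗ[ℚ] ℚ × ℚ × V5),
      (∀ x y, hB M B5 (φ x) (φ y) = B x y) ∧ ∀ x, x ∈ L ↔ φ x ∈ hL K := by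
  have hM0 : (M : ℚ) ≠ 0 := by exact_mod_cast hM.ne'
  have hwv : B w v = M := by rw [hs, hvw]
  let W : Submodule ℚ V := LinearMap.ker (B v) ⊓ LinearMap.ker (B w)
  have hWv : ∀ u ∈ W, B v u = 0 := fun u hu => hu.1
  have hWw : ∀ u ∈ W, B w u = 0 := fun u hu => hu.2
  have hproj : ∀ x : V, x - (B w x / M) • v - (B v x / M) • w ∈ W := by
    intro x
    refine ⟨?_, ?_⟩
    · change B v (x - (B w x / M) • v - (B v x / M) • w) = 0
      simp only [map_sub, map_smul, smul_eq_mul, hv0, hvw]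
      field_simp
      ring
    · change B w (x - (B w x / M) • v - (B v x / M) • w) = 0
      simp only [map_sub, map_smul, smul_eq_mul, hw0, hwv]
      field_simp
      ring
  let g : (ℚ × ℚ × W) →ₗ[ℚ] V :=
    { toFun := fun a => a.1 • v + a.2.1 • w + (a.2.2 : V)
      map_add' := by
        intro a b
        simp only [Prod.fst_add, Prod.snd_add, Submodule.coe_add, add_smul]
        abel
      map_smul' := by
        intro c a
        simp only [Prod.smul_fst, Prod.smul_snd, Submodule.coe_smul, smul_eq_mul, mul_smul,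
          smul_add, RingHom.id_apply] }
  let f : V →ₗ[ℚ] (ℚ × ℚ × W) :=
    { toFun := fun x => (B w x / M, B v x / M,
        ⟨x - (B w x / M) • v - (B v x / M) • w, hproj x⟩)
      map_add' := by
        intro a b
        ext
        · simp [add_div]
        · simp [add_div]
        · simp only [map_add, add_div, add_smul, Prod.mk_add_mk, Submodule.coe_add]
          abel
      map_smul' := by
        intro c a
        ext
        · simp [mul_div_assoc]
        · simp [mul_div_assoc]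
        · simp only [map_smul, smul_eq_mul, mul_div_assoc, mul_smul, RingHom.id_apply,
            Prod.smul_mk, Submodule.coe_smul, smul_sub] }
  have hgf : ∀ x, g (f x) = x := by
    intro x
    change (B w x / M) • v + (B v x / M) • w + (x - (B w x / M) • v - (B v x / M) • w) = x
    abel
  have hfg : ∀ a, f (g a) = a := by
    rintro ⟨p, q, u⟩
    have e1 : B w (p • v + q • w + (u : V)) / M = p := by
      simp only [map_add, map_smul, smul_eq_mul, hwv, hw0, hWw u u.2]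
      field_simp
      ring
    have e2 : B v (p • v + q • w + (u : V)) / M = q := by
      simp only [map_add, map_smul, smul_eq_mul, hvw, hv0, hWv u u.2]
      field_simp
      ring
    change (B w (p • v + q • w + (u : V)) / M, B v (p • v + q • w + (u : V)) / M,
      (⟨(p • v + q • w + (u : V)) - (B w (p • v + q • w + (u : V)) / M) • v -
        (B v (p • v + q • w + (u : V)) / M) • w, _⟩ : W)) = (p, q, u)
    refine Prod.ext e1 (Prod.ext e2 (Subtype.ext ?_))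
    change (p • v + q • w + (u : V)) - (B w (p • v + q • w + (u : V)) / M) • v -
        (B v (p • v + q • w + (u : V)) / M) • w = (u : V)
    rw [e1, e2]
    abel
  let e : V ≃ₗ[ℚ] (ℚ × ℚ × W) :=
    LinearEquiv.ofLinearMap f g (LinearMap.ext hfg) (LinearMap.ext hgf)
  have hdim : Module.finrank ℚ W = 5 := by
    have h7 := e.finrank_eq
    rw [hn, Module.finrank_prod, Module.finrank_prod, Module.finrank_self] at h7
    omega
  have hd5 : Module.finrank ℚ W = Module.finrank ℚ V5 := by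
    rw [hdim]; simp [V5]
  let ψ : W ≃ₗ[ℚ] V5 := LinearEquiv.ofFinrankEq W V5 hd5
  let ι : V5 →ₗ[ℚ] V := W.subtype.comp (ψ.symm : V5 →ₗ[ℚ] W)
  let B5 : LinearMap.BilinForm ℚ V5 := B.compl₁₂ ι ι
  let K : AddSubgroup V5 := L.comap ι.toAddMonoidHom
  let φ : V ≃ₗ[ℚ] ℚ × ℚ × V5 :=
    e.trans ((LinearEquiv.refl ℚ ℚ).prodCongr ((LinearEquiv.refl ℚ ℚ).prodCongr ψ))
  have hφ : ∀ x, φ x = (B w x / M, B v x / M,
      ψ ⟨x - (B w x / M) • v - (B v x / M) • w, hproj x⟩) := fun x => rfl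
  have hι : ∀ x (hx : x ∈ W), ι (ψ ⟨x, hx⟩) = x := by
    intro x hx
    change ((ψ.symm (ψ ⟨x, hx⟩) : W) : V) = x
    rw [LinearEquiv.symm_apply_apply]
  refine ⟨B5, K, φ, ?_, ?_⟩
  · intro x y
    rw [hφ, hφ]
    change (M : ℚ) * (B w x / M * (B v y / M) + B v x / M * (B w y / M)) +
      B (ι (ψ ⟨x - (B w x / M) • v - (B v x / M) • w, hproj x⟩))
        (ι (ψ ⟨y - (B w y / M) • v - (B v y / M) • w, hproj y⟩)) = B x y
    rw [hι, hι]
    simp only [map_sub, map_smul, LinearMap.sub_apply, LinearMap.smul_apply, smul_eq_mul, hv0, hw0,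
      hvw, hwv]
    rw [hs x v, hs x w]
    field_simp
    ring
  · intro x
    rw [hφ]
    constructor
    · intro hx
      obtain ⟨z1, hz1⟩ := h1 x hx
      obtain ⟨z2, hz2⟩ := h2 x hx
      have e1 : B w x / M = z2 := by rw [hz2]; field_simp
      have e2 : B v x / M = z1 := by rw [hz1]; field_simp
      refine ⟨⟨z2, e1⟩, ⟨z1, e2⟩, ?_⟩
      change ι (ψ ⟨x - (B w x / M) • v - (B v x / M) • w, hproj x⟩) ∈ L
      rw [hι, e1, e2]
      have s1 : ((z2 : ℚ)) • v ∈ L := by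
        rw [Int.cast_smul_eq_zsmul]; exact L.zsmul_mem hv _
      have s2 : ((z1 : ℚ)) • w ∈ L := by
        rw [Int.cast_smul_eq_zsmul]; exact L.zsmul_mem hw _
      exact L.sub_mem (L.sub_mem hx s1) s2
    · rintro ⟨⟨z2, e1⟩, ⟨z1, e2⟩, hK⟩
      change ι (ψ ⟨x - (B w x / M) • v - (B v x / M) • w, hproj x⟩) ∈ L at hK
      simp only at e1 e2
      rw [hι, e1, e2] at hK
      have s1 : ((z2 : ℚ)) • v ∈ L := by
        rw [Int.cast_smul_eq_zsmul]; exact L.zsmul_mem hv _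
      have s2 : ((z1 : ℚ)) • w ∈ L := by
        rw [Int.cast_smul_eq_zsmul]; exact L.zsmul_mem hw _
      have := L.add_mem (L.add_mem hK s2) s1
      simpa using this

/-- Row [RH-C3]: the second isotropic vector, `d = 1`: take `w₀ ∈ L` with `(v,w₀) = 1`,
`w = w₀ - ((w₀,w₀)/2) v`. -/
theorem exists_w1 {B : LinearMap.BilinForm ℚ V} (hs : ∀ x y, B x y = B y x) {L : AddSubgroup V}
    (hE : EvenL B L) {v : V} (hv : Cusp B L v 1) :
    ∃ w ∈ L, B w w = 0 ∧ B v w = 1 := by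
  obtain ⟨hvL, -, hvv, -, -, w0, hw0, hvw0⟩ := hv
  obtain ⟨z, hz⟩ := hE.2 w0 hw0
  refine ⟨w0 - (z : ℤ) • v, L.sub_mem hw0 (L.zsmul_mem hvL z), ?_, ?_⟩
  · rw [← Int.cast_smul_eq_zsmul ℚ z v]
    simp only [map_sub, map_smul, LinearMap.sub_apply, LinearMap.smul_apply, smul_eq_mul, hvv,
      hs w0 v, hvw0, hz]
    push_cast
    ring
  · rw [← Int.cast_smul_eq_zsmul ℚ z v]
    simp only [map_sub, map_smul, smul_eq_mul, hvv, hvw0]
    push_cast
    ring

/-- Row [RH-C3]: `d = 2`.  There is `w ∈ L` isotropic with `(v,w) = 2`, `(w,L) ⊆ 2ℤ`.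

Proof.  Let `R = Rad B L 2`.
(a) `(v,R) = 2ℤ`: `(v,R) ⊆ 2ℤ`, `(v,2L) = 4ℤ`.  If `(v,R) ⊆ 4ℤ`, then `v/4` is in the dual of `R`,
which is `L^# + ½L` (`rad_dual`), `v = 4z + 2l`, `z ∈ L^#`; `4 z ∈ L`, so `2z ∈ L` (`Elem` at 2), so
`v ∈ 2L`, contradiction with primitivity.  So there is `w₁ ∈ R` with `(v,w₁) ≡ 2 mod 4`, and adding
an element of `2L` (`(v,2L) = 4ℤ`) we get `(v,w₁) = 2`.  Note `2L ≤ R`.
(b) We want `(w₁,w₁) ≡ 0 mod 4`.  Note `(x,x) ∈ 2ℤ` for `x ∈ L` and for `x, y ∈ R`: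
`(x+y,x+y) ≡ (x,x) + (y,y) mod 4`; `(2l,2l) ≡ 0 mod 8`.  Suppose `(w₁,w₁) ≡ 2 mod 4` and that no
`w ∈ R` has `(v,w) = 2` and `(w,w) ≡ 0 mod 4`.  Then for every `y ∈ R` with `(v,y) ∈ 4ℤ` we have
`(y,y) ≡ 0 mod 4` (else `w₁ + y - 2l`, `(v,2l) = (v,y)`, would be such a `w`).  As every `x ∈ R` is
`y` or `w₁ + y` with such `y`, `(x,x)/2 ≡ (v,x)/2 mod 2` for all `x ∈ R`: `v` is a characteristic
vector of the integral lattice `R' = (R, ½B)` (`v ∈ R` as `d = 2`).
(c) By `char_vec'` for `R'`, `½(v,v) ≡ m' mod 2` where `[R' : Rad (½B) R 2] = 2^{m'}`.  By `rad_rad`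
`Rad (½B) R 2 = 2L`, so `2^{m'} = [R : 2L] = 2^{7-m}` with `[L : R] = 2^m`, `m` even
(`even_rank`).  So `m'` is odd, but `(v,v) = 0`, contradiction.
(d) Given `w₁ ∈ R`, `(v,w₁) = 2`, `4 ∣ (w₁,w₁)`, put `w = w₁ - ((w₁,w₁)/4) v`:
`(w,w) = (w₁,w₁) - 2 ((w₁,w₁)/4) 2 = 0`, `(v,w) = 2`, `w ∈ R`. -/
theorem exists_w2 {B : LinearMap.BilinForm ℚ V} (hB : Nice B) {L : AddSubgroup V}
    (hL : IsLat L) (hn : Module.finrank ℚ V = 7) (hE : EvenL B L)
    (hEl : ∀ p : ℕ, p.Prime → Elem B L p) {v : V} (hv : Cusp B L v 2) :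
    ∃ w ∈ L, B w w = 0 ∧ B v w = 2 ∧ ∀ x ∈ L, ∃ z : ℤ, B w x = 2 * z := by
  have hs := hB.symm
  have hI : Integ B L := hE.1
  have hcusp := hv
  obtain ⟨hvL, -, hvv, -, hvd, x0, hx0, hvx0⟩ := hv
  have hvd' : ∀ x ∈ L, ∃ z : ℤ, B v x = 2 * z := by
    intro x hx
    obtain ⟨z, hz⟩ := hvd x hx
    exact ⟨z, by rw [hz]; push_cast; ring⟩
  have hvx0' : B v x0 = 2 := by rw [hvx0]; norm_num
  have hvR : v ∈ Rad B L 2 := by
    refine ⟨hvL, fun y hy => ?_⟩
    obtain ⟨z, hz⟩ := hvd' y hy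
    exact ⟨z, by rw [hz]; push_cast; ring⟩
  -- elements of the radical
  have hRL : ∀ x ∈ Rad B L 2, x ∈ L := fun x hx => hx.1
  have hR2 : ∀ x ∈ Rad B L 2, ∀ y ∈ L, ∃ z : ℤ, B x y = 2 * z := by
    intro x hx y hy
    obtain ⟨z, hz⟩ := hx.2 y hy
    exact ⟨z, by rw [hz]; push_cast; ring⟩
  have h2R : ∀ k : ℤ, (2 * k : ℤ) • x0 ∈ Rad B L 2 := by
    intro k
    apply mulL_le_rad hI 2
    exact ⟨k • x0, L.zsmul_mem hx0 k, by rw [smul_smul]; norm_num⟩
  -- (a)
  obtain ⟨b, hb, hb2⟩ := exists_b hB hL hI Nat.prime_two (hEl 2 Nat.prime_two) hcusp (dvd_refl 2)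
  obtain ⟨w1, hw1R, hvw1⟩ : ∃ w1 ∈ Rad B L 2, B v w1 = 2 := by
    obtain ⟨z, hz⟩ := hvd' b (hRL b hb)
    have hodd : ¬ Even z := by
      rintro ⟨k, hk⟩
      apply hb2
      refine ⟨k, ?_⟩
      rw [hz, hk]
      push_cast
      ring
    rw [Int.not_even_iff_odd] at hodd
    obtain ⟨k, hk⟩ := hodd
    refine ⟨b - (2 * k : ℤ) • x0, (Rad B L 2).sub_mem hb (h2R k), ?_⟩
    rw [← Int.cast_smul_eq_zsmul ℚ (2 * k) x0]
    simp only [map_sub, map_smul, smul_eq_mul, hvx0', hz, hk]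
    push_cast
    ring
  -- (b), (c)
  have key : ∃ w ∈ Rad B L 2, B v w = 2 ∧ ∃ z : ℤ, B w w = 4 * z := by
    by_contra hcon
    have hno : ∀ w ∈ Rad B L 2, B v w = 2 → ¬ ∃ z : ℤ, B w w = 4 * z :=
      fun w hw h2 h3 => hcon ⟨w, hw, h2, h3⟩
    -- `(w,w)/2` is odd for such `w`
    have hodd : ∀ w ∈ Rad B L 2, B v w = 2 → ∃ z : ℤ, B w w = 4 * z + 2 := by
      intro w hw h2
      obtain ⟨z, hz⟩ := hE.2 w (hRL w hw)
      rcases Int.even_or_odd z with ⟨k, hk⟩ | ⟨k, hk⟩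
      · exact absurd ⟨k, by rw [hz, hk]; push_cast; ring⟩ (hno w hw h2)
      · exact ⟨k, by rw [hz, hk]; push_cast; ring⟩
    obtain ⟨z1, hz1⟩ := hodd w1 hw1R hvw1
    have hy4 : ∀ y ∈ Rad B L 2, (∃ k : ℤ, B v y = 4 * k) → ∃ z : ℤ, B y y = 4 * z := by
      rintro y hy ⟨k, hk⟩
      have hwR : w1 + y - (2 * k : ℤ) • x0 ∈ Rad B L 2 :=
        (Rad B L 2).sub_mem ((Rad B L 2).add_mem hw1R hy) (h2R k)
      have hvw : B v (w1 + y - (2 * k : ℤ) • x0) = 2 := by
        rw [← Int.cast_smul_eq_zsmul ℚ (2 * k) x0]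
        simp only [map_sub, map_add, map_smul, smul_eq_mul, hvx0', hvw1, hk]
        push_cast
        ring
      obtain ⟨z2, hz2⟩ := hodd _ hwR hvw
      obtain ⟨c1, hc1⟩ := hR2 w1 hw1R y (hRL y hy)
      obtain ⟨c2, hc2⟩ := hR2 w1 hw1R x0 hx0
      obtain ⟨c3, hc3⟩ := hR2 y hy x0 hx0
      obtain ⟨c4, hc4⟩ := hE.2 x0 hx0
      have hexp : B (w1 + y - (2 * k : ℤ) • x0) (w1 + y - (2 * k : ℤ) • x0) =
          B w1 w1 + B y y + 2 * B w1 y - 4 * k * B w1 x0 - 4 * k * B y x0 +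
            4 * k ^ 2 * B x0 x0 := by
        rw [← Int.cast_smul_eq_zsmul ℚ (2 * k) x0]
        simp only [map_sub, map_add, map_smul, LinearMap.sub_apply, LinearMap.add_apply,
          LinearMap.smul_apply, smul_eq_mul, hs y w1, hs x0 w1, hs x0 y]
        push_cast
        ring
      rw [hexp, hz1, hc1, hc2, hc3, hc4] at hz2
      refine ⟨z2 - z1 - c1 + 2 * k * c2 + 2 * k * c3 - 2 * k ^ 2 * c4, ?_⟩
      push_cast
      linarith
    have hchar : ∀ x ∈ Rad B L 2, ∃ z : ℤ,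
        ((1 / ((2 : ℕ) : ℚ)) • B) x x - ((1 / ((2 : ℕ) : ℚ)) • B) x v = 2 * z := by
      intro x hx
      obtain ⟨j, hj⟩ := hvd' x (hRL x hx)
      rcases Int.even_or_odd j with ⟨k, hk⟩ | ⟨k, hk⟩
      · obtain ⟨z, hz⟩ := hy4 x hx ⟨k, by rw [hj, hk]; push_cast; ring⟩
        refine ⟨z - k, ?_⟩
        simp only [LinearMap.smul_apply, smul_eq_mul, hs x v, hz, hj, hk]
        push_cast
        ring
      · have hyR : x - w1 ∈ Rad B L 2 := (Rad B L 2).sub_mem hx hw1R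
        obtain ⟨z, hz⟩ := hy4 (x - w1) hyR ⟨k, by
          rw [map_sub, hj, hk, hvw1]; push_cast; ring⟩
        obtain ⟨c, hc⟩ := hR2 w1 hw1R x (hRL x hx)
        have hexp : B (x - w1) (x - w1) = B x x - 2 * B w1 x + B w1 w1 := by
          simp only [map_sub, LinearMap.sub_apply, hs x w1]
          ring
        rw [hexp, hc, hz1] at hz
        refine ⟨z - z1 + c - k - 1, ?_⟩
        simp only [LinearMap.smul_apply, smul_eq_mul, hs x v, hj, hk]
        have : B x x = 4 * z - 4 * z1 - 2 + 4 * c := by linarith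
        rw [this]
        push_cast
        ring
    have hRlat := rad_isLat hL hI (p := 2) (by norm_num)
    have hRint : Integ ((1 / ((2 : ℕ) : ℚ)) • B) (Rad B L 2) := rad_integ (by norm_num)
    have hs' : ∀ x y, ((1 / ((2 : ℕ) : ℚ)) • B) x y = ((1 / ((2 : ℕ) : ℚ)) • B) y x := by
      intro x y
      simp only [LinearMap.smul_apply, hs x y]
    obtain ⟨m, -, hm⟩ := rad_two_pow hL hI
    obtain ⟨m', -, hm'⟩ := rad_two_pow hRlat hRint
    have hme := even_rank hs hE m hm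
    obtain ⟨z, hz⟩ := char_vec' hs' hRint m' hm' hvR hchar
    have hm'e : Even m' := by
      simp only [LinearMap.smul_apply, smul_eq_mul, hvv, mul_zero, zero_sub] at hz
      have h1 : (m' : ℤ) = 2 * (-z) := by
        have : ((m' : ℤ) : ℚ) = ((2 * (-z) : ℤ) : ℚ) := by push_cast; linarith
        exact_mod_cast this
      have h2 : Even (m' : ℤ) := ⟨-z, by rw [h1]; ring⟩
      exact_mod_cast h2
    rw [rad_rad hB hL hI Nat.prime_two (hEl 2 Nat.prime_two)] at hm'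
    have h7 := relIndex_mulL hL 2 (by norm_num)
    have hmul := AddSubgroup.relIndex_mul_relIndex (mulL 2 L) (Rad B L 2) L
      (mulL_le_rad hI 2) (fun x hx => hx.1)
    rw [hm', hm, h7, hn, ← pow_add] at hmul
    have h77 : m' + m = 7 := Nat.pow_right_injective (le_refl 2) hmul
    have h8 : Even (m' + m) := hm'e.add hme
    rw [h77] at h8
    exact absurd h8 (by decide)
  -- (d)
  obtain ⟨w, hwR, hvw, z, hz⟩ := key
  have hfin : w - (z : ℤ) • v ∈ Rad B L 2 :=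
    (Rad B L 2).sub_mem hwR ((Rad B L 2).zsmul_mem hvR z)
  refine ⟨w - (z : ℤ) • v, hRL _ hfin, ?_, ?_, hR2 _ hfin⟩
  · rw [← Int.cast_smul_eq_zsmul ℚ z v]
    simp only [map_sub, map_smul, LinearMap.sub_apply, LinearMap.smul_apply, smul_eq_mul, hvv,
      hs w v, hvw, hz]
    ring
  · rw [← Int.cast_smul_eq_zsmul ℚ z v]
    simp only [map_sub, map_smul, smul_eq_mul, hvv, hvw]
    ring

end RH6
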