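import Pool.Agent.RH6.C3

namespace RH6

/-! Row [RH-C3b]: properties of `U(M) ⊥ K` versus properties of `K`.  `e = (1,0,0)`,
`f = (0,1,0)`, `(e,f) = M`. -/

variable {V : Type*} [AddCommGroup V] [Module ℚ V] [FiniteDimensional ℚ V]

omit [FiniteDimensional ℚ V] in
theorem c3b_hB (M : ℚ) (B : LinearMap.BilinForm ℚ V) (a b : ℚ × ℚ × V) :
    hB M B a b = M * (a.1 * b.2.1 + a.2.1 * b.1) + B a.2.2 b.2.2 := rfl

omit [FiniteDimensional ℚ V] in
theorem c3b_hL {K : AddSubgroup V} (a : ℚ × ℚ × V) :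
    a ∈ hL K ↔ (∃ z : ℤ, a.1 = z) ∧ (∃ z : ℤ, a.2.1 = z) ∧ a.2.2 ∈ K := Iff.rfl

omit [FiniteDimensional ℚ V] in
theorem c3b_hL0 {K : AddSubgroup V} (k : V) : (0, 0, k) ∈ hL K ↔ k ∈ K := by
  rw [c3b_hL]
  exact ⟨fun h => h.2.2, fun h => ⟨⟨0, by simp⟩, ⟨0, by simp⟩, h⟩⟩

omit [FiniteDimensional ℚ V] in
theorem c3b_hL1 {K : AddSubgroup V} : ((1, 0, 0) : ℚ × ℚ × V) ∈ hL K :=
  (c3b_hL _).2 ⟨⟨1, by simp⟩, ⟨0, by simp⟩, K.zero_mem⟩

omit [FiniteDimensional ℚ V] in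
theorem c3b_hL2 {K : AddSubgroup V} : ((0, 1, 0) : ℚ × ℚ × V) ∈ hL K :=
  (c3b_hL _).2 ⟨⟨0, by simp⟩, ⟨1, by simp⟩, K.zero_mem⟩

theorem hyp_symm {B : LinearMap.BilinForm ℚ V} (M : ℚ) (hs : ∀ x y, B x y = B y x) :
    ∀ x y, hB M B x y = hB M B y x := by
  intro x y
  rw [c3b_hB, c3b_hB, hs]
  ring

theorem hyp_nice {B : LinearMap.BilinForm ℚ V} {M : ℚ} (hM : M ≠ 0) :
    Nice (hB M B) ↔ Nice B := by
  constructor
  · intro h
    refine ⟨fun x y => ?_, fun x hx => ?_⟩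
    · have := h.symm (0, 0, x) (0, 0, y)
      simpa [c3b_hB] using this
    · have h1 := h.nondeg (0, 0, x) (fun y => by simp [c3b_hB, hx])
      simpa using h1
  · intro h
    refine ⟨hyp_symm M h.symm, fun x hx => ?_⟩
    have h1 := hx (0, 1, 0)
    have h2 := hx (1, 0, 0)
    have h3 : ∀ y, B x.2.2 y = 0 := fun y => by
      have := hx (0, 0, y)
      simpa [c3b_hB] using this
    simp only [c3b_hB, mul_one, mul_zero, add_zero, zero_add, map_zero, mul_eq_zero, hM,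
      false_or] at h1 h2
    have h4 := h.nondeg _ h3
    obtain ⟨a, b, c⟩ := x
    simp only at h1 h2 h4
    rw [h1, h2, h4]
    rfl

omit [FiniteDimensional ℚ V] in
theorem c3b_span {ι : Type*} (b : Module.Basis ι ℚ V) (L : AddSubgroup V)
    (hb : ∀ x, x ∈ L ↔ ∀ i, ∃ z : ℤ, b.repr x i = z) :
    AddSubgroup.toIntSubmodule L = Submodule.span ℤ (Set.range b) := by
  ext x
  rw [b.mem_span_iff_repr_mem ℤ x]
  change x ∈ L ↔ _
  rw [hb x]
  refine forall_congr' fun i => ?_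
  constructor
  · rintro ⟨z, hz⟩
    exact ⟨z, by rw [hz]; rfl⟩
  · rintro ⟨z, hz⟩
    exact ⟨z, by rw [← hz]; rfl⟩

theorem c3b_iff (L : AddSubgroup V) :
    IsLat L ↔ Submodule.IsLattice ℚ (AddSubgroup.toIntSubmodule L) := by
  constructor
  · rintro ⟨b, hb⟩
    have hspan := c3b_span b L hb
    refine ⟨?_, ?_⟩
    · rw [hspan]
      exact Submodule.fg_span (Set.finite_range b)
    · rw [eq_top_iff, ← b.span_eq]
      refine Submodule.span_mono ?_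
      rintro _ ⟨i, rfl⟩
      rw [hspan]
      exact Submodule.subset_span ⟨i, rfl⟩
  · intro h
    haveI := h
    haveI : Module.Free ℤ (AddSubgroup.toIntSubmodule L) := Submodule.IsLattice.free ℚ _
    let b0 := Module.Free.chooseBasis ℤ (AddSubgroup.toIntSubmodule L)
    let b1 := b0.extendOfIsLattice ℚ
    have hcard : Fintype.card (Module.Free.ChooseBasisIndex ℤ (AddSubgroup.toIntSubmodule L)) =
        Module.finrank ℚ V := (Module.finrank_eq_card_basis b1).symm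
    let e := Fintype.equivFinOfCardEq hcard
    have hspan : AddSubgroup.toIntSubmodule L = Submodule.span ℤ (Set.range (b1.reindex e)) := by
      rw [Module.Basis.range_reindex]
      have h1 : Set.range b1 = (AddSubgroup.toIntSubmodule L).subtype '' Set.range b0 := by
        rw [← Set.range_comp]
        congr 1
        funext i
        exact b0.extendOfIsLattice_apply ℚ i
      rw [h1, ← Submodule.map_span, b0.span_eq, Submodule.map_top, Submodule.range_subtype]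
    refine ⟨b1.reindex e, fun x => ?_⟩
    have h2 : x ∈ L ↔ x ∈ Submodule.span ℤ (Set.range (b1.reindex e)) := by
      rw [← hspan]
      exact Iff.rfl
    rw [h2, (b1.reindex e).mem_span_iff_repr_mem ℤ x]
    refine forall_congr' fun i => ?_
    constructor
    · rintro ⟨z, hz⟩
      exact ⟨z, by rw [← hz]; rfl⟩
    · rintro ⟨z, hz⟩
      exact ⟨z, by rw [hz]; rfl⟩

theorem hyp_lat {K : AddSubgroup V} : IsLat (hL K) ↔ IsLat K := by
  rw [c3b_iff, c3b_iff]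
  constructor
  · intro h
    haveI := h
    refine ⟨?_, ?_⟩
    · rw [← Module.Finite.iff_fg]
      let f : AddSubgroup.toIntSubmodule K →ₗ[ℤ] AddSubgroup.toIntSubmodule (hL K) :=
        { toFun := fun x => ⟨(0, 0, x.1), (c3b_hL0 x.1).2 x.2⟩
          map_add' := fun x y => Subtype.ext (by simp)
          map_smul' := fun n x => Subtype.ext (by simp) }
      have hf : Function.Injective f := by
        intro x y hxy
        have h3 := congrArg (fun z : AddSubgroup.toIntSubmodule (hL K) => z.1.2.2) hxy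
        exact Subtype.ext h3
      exact Module.Finite.of_injective f hf
    · rw [eq_top_iff]
      intro v _
      have h1 : ((0, 0, v) : ℚ × ℚ × V) ∈ Submodule.span ℚ (hL K : Set (ℚ × ℚ × V)) := by
        have := h.span_eq_top
        have h2 : Submodule.span ℚ (hL K : Set (ℚ × ℚ × V)) = ⊤ := this
        rw [h2]; trivial
      have h2 := Submodule.mem_map_of_mem (f := (LinearMap.snd ℚ ℚ V) ∘ₗ (LinearMap.snd ℚ ℚ (ℚ × V))) h1
      rw [Submodule.map_span] at h2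
      refine Submodule.span_mono ?_ h2
      rintro _ ⟨x, hx, rfl⟩
      exact hx.2.2
  · intro h
    haveI := h
    refine ⟨?_, ?_⟩
    · rw [← Module.Finite.iff_fg]
      let f : ℤ × ℤ × AddSubgroup.toIntSubmodule K →ₗ[ℤ] AddSubgroup.toIntSubmodule (hL K) :=
        { toFun := fun x => ⟨((x.1 : ℚ), (x.2.1 : ℚ), x.2.2.1), ⟨⟨x.1, rfl⟩, ⟨x.2.1, rfl⟩, x.2.2.2⟩⟩
          map_add' := fun x y => Subtype.ext (by simp)
          map_smul' := fun n x => Subtype.ext (by simp) }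
      have hf : Function.Surjective f := by
        rintro ⟨⟨a, b, c⟩, ⟨⟨z, hz⟩, ⟨w, hw⟩, hc⟩⟩
        refine ⟨⟨z, w, ⟨c, hc⟩⟩, Subtype.ext ?_⟩
        simp only at hz hw
        simp [f, hz, hw]
      exact Module.Finite.of_surjective f hf
    · have h2 : Submodule.span ℚ (K : Set V) = ⊤ := h.span_eq_top
      show Submodule.span ℚ (hL K : Set (ℚ × ℚ × V)) = ⊤
      rw [eq_top_iff]
      rintro ⟨a, b, v⟩ _
      have h3 : v ∈ Submodule.span ℚ (K : Set V) := by rw [h2]; trivial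
      have h4 := Submodule.mem_map_of_mem
        (f := (LinearMap.inr ℚ ℚ (ℚ × V)) ∘ₗ (LinearMap.inr ℚ ℚ V)) h3
      rw [Submodule.map_span] at h4
      have h5 : ((0, 0, v) : ℚ × ℚ × V) ∈ Submodule.span ℚ (hL K : Set (ℚ × ℚ × V)) := by
        refine Submodule.span_mono ?_ h4
        rintro _ ⟨x, hx, rfl⟩
        exact (c3b_hL0 x).2 hx
      have h6 : ((a, b, v) : ℚ × ℚ × V) = a • (1, 0, 0) + b • (0, 1, 0) + (0, 0, v) := by
        simp
      rw [h6]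
      exact Submodule.add_mem _ (Submodule.add_mem _
        (Submodule.smul_mem _ _ (Submodule.subset_span c3b_hL1))
        (Submodule.smul_mem _ _ (Submodule.subset_span c3b_hL2))) h5

theorem hyp_int {B : LinearMap.BilinForm ℚ V} {K : AddSubgroup V} (M : ℕ) :
    Integ (hB M B) (hL K) ↔ Integ B K := by
  constructor
  · intro h x hx y hy
    obtain ⟨z, hz⟩ := h _ ((c3b_hL0 x).2 hx) _ ((c3b_hL0 y).2 hy)
    exact ⟨z, by simpa [c3b_hB] using hz⟩
  · rintro h ⟨a, b, x⟩ ⟨⟨p, hp⟩, ⟨q, hq⟩, hx⟩ ⟨a', b', x'⟩ ⟨⟨p', hp'⟩, ⟨q', hq'⟩, hx'⟩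
    obtain ⟨z, hz⟩ := h x hx x' hx'
    simp only at hp hq hp' hq'
    refine ⟨M * (p * q' + q * p') + z, ?_⟩
    rw [c3b_hB]
    simp only [hp, hq, hp', hq', hz]
    push_cast
    ring

theorem hyp_even {B : LinearMap.BilinForm ℚ V} {K : AddSubgroup V} (M : ℕ) :
    EvenL (hB M B) (hL K) ↔ EvenL B K := by
  unfold EvenL
  rw [hyp_int]
  refine and_congr_right fun _ => ?_
  constructor
  · intro h x hx
    obtain ⟨z, hz⟩ := h _ ((c3b_hL0 x).2 hx)
    exact ⟨z, by simpa [c3b_hB] using hz⟩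
  · rintro h ⟨a, b, x⟩ ⟨⟨p, hp⟩, ⟨q, hq⟩, hx⟩
    obtain ⟨z, hz⟩ := h x hx
    simp only at hp hq
    refine ⟨M * (p * q) + z, ?_⟩
    rw [c3b_hB]
    simp only [hp, hq, hz]
    push_cast
    ring

/-- `x = (p,q;z)` is in the dual iff `M p, M q ∈ ℤ` and `z ∈ K^#` -/
theorem hyp_dual {B : LinearMap.BilinForm ℚ V} {K : AddSubgroup V} (M : ℕ)
    (x : ℚ × ℚ × V) : x ∈ dualL (hB M B) (hL K) ↔
      (∃ z : ℤ, M * x.1 = z) ∧ (∃ z : ℤ, M * x.2.1 = z) ∧ x.2.2 ∈ dualL B K := by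
  constructor
  · intro h
    refine ⟨?_, ?_, ?_⟩
    · obtain ⟨z, hz⟩ := h _ c3b_hL2
      exact ⟨z, by simpa [c3b_hB] using hz⟩
    · obtain ⟨z, hz⟩ := h _ c3b_hL1
      exact ⟨z, by simpa [c3b_hB] using hz⟩
    · intro y hy
      obtain ⟨z, hz⟩ := h _ ((c3b_hL0 y).2 hy)
      exact ⟨z, by simpa [c3b_hB] using hz⟩
  · rintro ⟨⟨z, hz⟩, ⟨w, hw⟩, h⟩ ⟨a, b, y⟩ ⟨⟨p, hp⟩, ⟨q, hq⟩, hy⟩
    obtain ⟨t, ht⟩ := h y hy
    simp only at hp hq
    refine ⟨z * q + w * p + t, ?_⟩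
    rw [c3b_hB]
    simp only [hp, hq, ht]
    push_cast
    rw [← hz, ← hw]
    ring

omit [FiniteDimensional ℚ V] in
/-- if `M a` and `p² a` are integers and `p² ∤ M`, then `p a` is an integer -/
theorem c3b_bezout {M p : ℕ} (hM : 0 < M) (hp : p.Prime) (hpM : ¬ p ^ 2 ∣ M) {a : ℚ}
    (h1 : ∃ z : ℤ, (M : ℚ) * a = z) (h2 : ∃ z : ℤ, (p : ℚ) ^ 2 * a = z) :
    ∃ z : ℤ, (p : ℚ) * a = z := by
  obtain ⟨z, hz⟩ := h1
  obtain ⟨w, hw⟩ := h2
  have hg : Nat.gcd M (p ^ 2) ∣ p := by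
    obtain ⟨k, hk, he⟩ := (Nat.dvd_prime_pow hp).1 (Nat.gcd_dvd_right M (p ^ 2))
    rw [he]
    have hk1 : k ≤ 1 := by
      by_contra hc
      have hk2 : k = 2 := by omega
      apply hpM
      rw [← hk2, ← he]
      exact Nat.gcd_dvd_left _ _
    calc p ^ k ∣ p ^ 1 := pow_dvd_pow p hk1
      _ = p := pow_one p
  obtain ⟨c, hc⟩ := hg
  have hb := Nat.gcd_eq_gcd_ab M (p ^ 2)
  refine ⟨c * (z * Nat.gcdA M (p ^ 2) + w * Nat.gcdB M (p ^ 2)), ?_⟩
  have hb' : ((Nat.gcd M (p ^ 2) : ℕ) : ℚ) =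
      (M : ℚ) * (Nat.gcdA M (p ^ 2) : ℚ) + (p : ℚ) ^ 2 * (Nat.gcdB M (p ^ 2) : ℚ) := by
    have := congrArg (fun n : ℤ => (n : ℚ)) hb
    push_cast at this
    exact this
  have hc' : (p : ℚ) = (Nat.gcd M (p ^ 2) : ℕ) * c := by exact_mod_cast hc
  push_cast
  rw [hc', hb', ← hz, ← hw]
  ring

theorem hyp_elem {B : LinearMap.BilinForm ℚ V} {K : AddSubgroup V} {M p : ℕ} (hM : 0 < M)
    (hp : p.Prime) (hpM : ¬ p ^ 2 ∣ M) : Elem (hB M B) (hL K) p ↔ Elem B K p := by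
  have hz0 : ∀ (n : ℤ) (x : ℚ × ℚ × V), n • x = ((n : ℚ) * x.1, (n : ℚ) * x.2.1, n • x.2.2) := by
    intro n x
    obtain ⟨a, b, c⟩ := x
    simp
  constructor
  · intro h x hx h2
    have h3 : (0, 0, x) ∈ dualL (hB M B) (hL K) :=
      (hyp_dual M _).2 ⟨⟨0, by simp⟩, ⟨0, by simp⟩, hx⟩
    have h4 := h _ h3 (by
      rw [hz0]
      simp only [mul_zero]
      exact (c3b_hL0 _).2 h2)
    rw [hz0] at h4
    exact h4.2.2
  · intro h x hx h2
    rw [hyp_dual] at hx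
    rw [hz0] at h2 ⊢
    obtain ⟨⟨z, hz⟩, ⟨w, hw⟩, h3⟩ := h2
    simp only [Int.cast_pow, Int.cast_natCast] at hz hw
    obtain ⟨z', hz'⟩ := c3b_bezout hM hp hpM hx.1 ⟨z, hz⟩
    obtain ⟨w', hw'⟩ := c3b_bezout hM hp hpM hx.2.1 ⟨w, hw⟩
    exact ⟨⟨z', by simpa using hz'⟩, ⟨w', by simpa using hw'⟩, h _ hx.2.2 h3⟩

omit [FiniteDimensional ℚ V] in
theorem c3b_index {K R : AddSubgroup V} (a b : ℤ) (H : AddSubgroup (ℚ × ℚ × V))
    (hH : ∀ x ∈ hL K, x ∈ H ↔ (∃ z : ℤ, x.1 = a * z) ∧ (∃ z : ℤ, x.2.1 = b * z) ∧ x.2.2 ∈ R) :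
    H.relIndex (hL K) = a.natAbs * (b.natAbs * R.relIndex K) := by
  let f : ℤ × ℤ × K →+ ℚ × ℚ × V :=
    { toFun := fun x => ((x.1 : ℚ), (x.2.1 : ℚ), (x.2.2 : V))
      map_zero' := by simp
      map_add' := fun x y => by simp }
  have hf : ∀ x : ℤ × ℤ × K, f x = ((x.1 : ℚ), (x.2.1 : ℚ), (x.2.2 : V)) := fun x => rfl
  have hr : f.range = hL K := by
    ext ⟨p, q, k⟩
    constructor
    · rintro ⟨x, hx⟩
      rw [hf] at hx
      rw [← hx]
      exact ⟨⟨_, rfl⟩, ⟨_, rfl⟩, x.2.2.2⟩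
    · rintro ⟨⟨z, hz⟩, ⟨w, hw⟩, hk⟩
      simp only at hz hw
      refine ⟨(z, w, ⟨k, hk⟩), ?_⟩
      rw [hf, hz, hw]
  have hc : H.comap f = (AddSubgroup.zmultiples a).prod
      ((AddSubgroup.zmultiples b).prod (R.addSubgroupOf K)) := by
    ext ⟨z, w, k⟩
    rw [AddSubgroup.mem_comap, hf, hH _ ⟨⟨_, rfl⟩, ⟨_, rfl⟩, k.2⟩, AddSubgroup.mem_prod,
      AddSubgroup.mem_prod, Int.mem_zmultiples_iff, Int.mem_zmultiples_iff,
      AddSubgroup.mem_addSubgroupOf]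
    simp only
    refine and_congr ?_ (and_congr ?_ Iff.rfl)
    · constructor
      · rintro ⟨t, ht⟩
        exact ⟨t, by exact_mod_cast ht⟩
      · rintro ⟨t, rfl⟩
        exact ⟨t, by push_cast; ring⟩
    · constructor
      · rintro ⟨t, ht⟩
        exact ⟨t, by exact_mod_cast ht⟩
      · rintro ⟨t, rfl⟩
        exact ⟨t, by push_cast; ring⟩
  rw [← hr, ← AddSubgroup.index_comap, hc, AddSubgroup.index_prod, AddSubgroup.index_prod,
    Int.index_zmultiples, Int.index_zmultiples]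
  rfl

/-- membership in `Rad` for the sum -/
theorem c3b_rad {B : LinearMap.BilinForm ℚ V} {K : AddSubgroup V} {M p : ℕ}
    (x : ℚ × ℚ × V) (hx : x ∈ hL K) : x ∈ Rad (hB M B) (hL K) p ↔
      (∃ z : ℤ, M * x.1 = p * z) ∧ (∃ z : ℤ, M * x.2.1 = p * z) ∧ x.2.2 ∈ Rad B K p := by
  constructor
  · rintro ⟨-, h⟩
    refine ⟨?_, ?_, hx.2.2, ?_⟩
    · obtain ⟨z, hz⟩ := h _ c3b_hL2
      exact ⟨z, by simpa [c3b_hB] using hz⟩
    · obtain ⟨z, hz⟩ := h _ c3b_hL1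
      exact ⟨z, by simpa [c3b_hB] using hz⟩
    · intro y hy
      obtain ⟨z, hz⟩ := h _ ((c3b_hL0 y).2 hy)
      exact ⟨z, by simpa [c3b_hB] using hz⟩
  · rintro ⟨⟨z, hz⟩, ⟨w, hw⟩, h⟩
    refine ⟨hx, ?_⟩
    rintro ⟨a, b, y⟩ ⟨⟨r, hr⟩, ⟨s, hs⟩, hy⟩
    obtain ⟨t, ht⟩ := h.2 y hy
    simp only at hr hs
    refine ⟨z * s + w * r + t, ?_⟩
    rw [c3b_hB]
    simp only [hr, hs, ht]
    push_cast
    have e1 : (M : ℚ) * (x.1 * s + x.2.1 * r) = (M * x.1) * s + (M * x.2.1) * r := by ring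
    rw [e1, hz, hw]
    ring

/-- `Rad` of the sum: `(p ℤ)²` or `ℤ²`, times `Rad K` -/
theorem hyp_index {B : LinearMap.BilinForm ℚ V} {K : AddSubgroup V} {M p : ℕ} (hM : 0 < M)
    (hp : p.Prime) (hpM : ¬ p ∣ M) :
    (Rad (hB M B) (hL K) p).relIndex (hL K) = p ^ 2 * (Rad B K p).relIndex K := by
  have key : ∀ r : ℚ, (∃ z : ℤ, r = z) → ((∃ z : ℤ, (M : ℚ) * r = p * z) ↔
      ∃ z : ℤ, r = ((p : ℤ) : ℚ) * z) := by
    rintro r ⟨n, rfl⟩
    constructor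
    · rintro ⟨z, hz⟩
      have h1 : (M : ℤ) * n = p * z := by exact_mod_cast hz
      have h2 : (p : ℤ) ∣ M * n := ⟨z, h1⟩
      have h3 : (p : ℤ) ∣ n := by
        rcases (Nat.prime_iff_prime_int.1 hp).dvd_or_dvd h2 with h | h
        · exact absurd (Int.natCast_dvd_natCast.1 h) hpM
        · exact h
      obtain ⟨t, rfl⟩ := h3
      exact ⟨t, by push_cast; ring⟩
    · rintro ⟨z, hz⟩
      exact ⟨M * z, by rw [hz]; push_cast; ring⟩
  have h := c3b_index (K := K) (R := Rad B K p) (p : ℤ) (p : ℤ) (Rad (hB M B) (hL K) p)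
    (fun x hx => by rw [c3b_rad x hx, key _ hx.1, key _ hx.2.1])
  rw [h, Int.natAbs_natCast]
  ring

theorem hyp_index' {B : LinearMap.BilinForm ℚ V} {K : AddSubgroup V} {M p : ℕ} (hM : 0 < M)
    (hp : p.Prime) (hpM : p ∣ M) :
    (Rad (hB M B) (hL K) p).relIndex (hL K) = (Rad B K p).relIndex K := by
  obtain ⟨c, rfl⟩ := hpM
  have key : ∀ r : ℚ, (∃ z : ℤ, r = z) → ((∃ z : ℤ, ((p * c : ℕ) : ℚ) * r = p * z) ↔
      ∃ z : ℤ, r = ((1 : ℤ) : ℚ) * z) := by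
    rintro r ⟨n, rfl⟩
    constructor
    · intro _
      exact ⟨n, by simp⟩
    · intro _
      exact ⟨c * n, by push_cast; ring⟩
  have h := c3b_index (K := K) (R := Rad B K p) 1 1 (Rad (hB (p * c : ℕ) B) (hL K) p)
    (fun x hx => by rw [c3b_rad x hx, key _ hx.1, key _ hx.2.1])
  rw [h]
  simp

/-- a Lorentzian `U(M) ⊥ K` has positive definite `K`: `(0,0;x)` is orthogonal to `(1,-1;0)` of
norm `-2M < 0` (`sig_orth`); conversely, `h = (1,-1;0)`: a vector `(p,p;x)` has norm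
`2M p² + (x,x)`. -/
theorem hyp_sig {B : LinearMap.BilinForm ℚ V} (hs : ∀ x y, B x y = B y x) {M : ℚ} (hM : 0 < M) :
    Sig (hB M B) ↔ ∀ x, x ≠ 0 → 0 < B x x := by
  have hn : hB M B (1, -1, 0) (1, -1, 0) < 0 := by
    rw [c3b_hB]
    simp only [map_zero, add_zero]
    linarith
  constructor
  · intro h x hx
    have h1 := sig_orth (B := hB M B) (hyp_symm M hs) h (x := (0, 0, x)) hn
      (by rw [c3b_hB]; simp) (by simpa using hx)
    rw [c3b_hB] at h1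
    simpa using h1
  · intro h
    refine ⟨(1, -1, 0), hn, ?_⟩
    rintro ⟨a, b, x⟩ h1 h2
    rw [c3b_hB] at h1 ⊢
    simp only [map_zero, add_zero, mul_eq_zero, hM.ne', false_or] at h1
    have hab : b = a := by linarith
    subst hab
    simp only
    by_cases hx : x = 0
    · subst hx
      have hb : b ≠ 0 := by
        rintro rfl
        exact h2 rfl
      have : 0 < b ^ 2 := by positivity
      rw [map_zero, add_zero]
      nlinarith
    · have h3 := h x hx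
      have : 0 ≤ M * (b * b + b * b) := mul_nonneg hM.le (by nlinarith [mul_self_nonneg b])
      linarith

/-- scaling of the form does not change `Rad` etc. in the following sense -/
theorem rad_half {B : LinearMap.BilinForm ℚ V} {K : AddSubgroup V} (h2 : Rad B K 2 = K)
    {p : ℕ} (hp : p.Prime) (hp2 : p ≠ 2) : Rad ((1 / 2 : ℚ) • B) K p = Rad B K p := by
  have hodd : ¬ (2 : ℤ) ∣ p := by
    intro h
    have h3 : (2 : ℕ) ∣ p := by exact_mod_cast h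
    exact hp2 ((Nat.prime_dvd_prime_iff_eq Nat.prime_two hp).1 h3).symm
  ext x
  refine and_congr_right fun hx => ?_
  refine forall_congr' fun y => forall_congr' fun hy => ?_
  rw [LinearMap.smul_apply, LinearMap.smul_apply, smul_eq_mul]
  constructor
  · rintro ⟨z, hz⟩
    exact ⟨2 * z, by push_cast; linarith⟩
  · rintro ⟨z, hz⟩
    have hx2 : x ∈ Rad B K 2 := by rw [h2]; exact hx
    obtain ⟨w, hw⟩ := hx2.2 y hy
    have h3 : (p : ℤ) * z = 2 * w := by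
      have : (p : ℚ) * z = 2 * w := by rw [← hz, hw]; norm_num
      exact_mod_cast this
    have h4 : (2 : ℤ) ∣ z := by
      rcases Int.prime_two.dvd_or_dvd (⟨w, h3⟩ : (2 : ℤ) ∣ p * z) with h | h
      · exact absurd h hodd
      · exact h
    obtain ⟨t, rfl⟩ := h4
    refine ⟨t, ?_⟩
    push_cast at hz
    linarith

section
variable {V' : Type*} [AddCommGroup V'] [Module ℚ V'] [FiniteDimensional ℚ V']
    {B : LinearMap.BilinForm ℚ V} {L : AddSubgroup V} {B' : LinearMap.BilinForm ℚ V'}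
    {L' : AddSubgroup V'} (φ : V ≃ₗ[ℚ] V') (h : ∀ x y, B' (φ x) (φ y) = B x y)
    (hL : ∀ x, x ∈ L ↔ φ x ∈ L')

include hL in
omit [FiniteDimensional ℚ V] [FiniteDimensional ℚ V'] in
theorem c3b_t1 (hl : IsLat L) : IsLat L' := by
  obtain ⟨b, hb⟩ := hl
  refine ⟨(b.map φ).reindex (finCongr φ.finrank_eq), fun x => ?_⟩
  have hL' : x ∈ L' ↔ φ.symm x ∈ L := by rw [hL, φ.apply_symm_apply]
  rw [hL', hb]
  constructor
  · intro h1 i
    obtain ⟨z, hz⟩ := h1 ((finCongr φ.finrank_eq).symm i)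
    exact ⟨z, by rw [← hz]; simp⟩
  · intro h1 i
    obtain ⟨z, hz⟩ := h1 (finCongr φ.finrank_eq i)
    exact ⟨z, by rw [← hz]; simp⟩

include h hL in
omit [FiniteDimensional ℚ V] [FiniteDimensional ℚ V'] in
theorem c3b_t2 (hi : Integ B L) : Integ B' L' := by
  intro x hx y hy
  obtain ⟨x, rfl⟩ := φ.surjective x
  obtain ⟨y, rfl⟩ := φ.surjective y
  rw [h]
  exact hi x ((hL x).2 hx) y ((hL y).2 hy)

include h hL in
omit [FiniteDimensional ℚ V] [FiniteDimensional ℚ V'] in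
theorem c3b_t3 (hi : EvenL B L) : EvenL B' L' := by
  refine ⟨c3b_t2 φ h hL hi.1, fun x hx => ?_⟩
  obtain ⟨x, rfl⟩ := φ.surjective x
  rw [h]
  exact hi.2 x ((hL x).2 hx)

include h hL in
omit [FiniteDimensional ℚ V] [FiniteDimensional ℚ V'] in
theorem c3b_dual (x : V) : x ∈ dualL B L ↔ φ x ∈ dualL B' L' := by
  constructor
  · intro hx y hy
    obtain ⟨y, rfl⟩ := φ.surjective y
    rw [h]
    exact hx y ((hL y).2 hy)
  · intro hx y hy
    rw [← h]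
    exact hx (φ y) ((hL y).1 hy)

include h hL in
omit [FiniteDimensional ℚ V] [FiniteDimensional ℚ V'] in
theorem c3b_t4 (p : ℕ) (hi : Elem B L p) : Elem B' L' p := by
  intro x hx h2
  obtain ⟨x, rfl⟩ := φ.surjective x
  rw [← map_zsmul, ← hL] at h2 ⊢
  exact hi x ((c3b_dual φ h hL x).2 hx) h2

include h hL in
omit [FiniteDimensional ℚ V] [FiniteDimensional ℚ V'] in
theorem c3b_rad' (p : ℕ) (x : V) : x ∈ Rad B L p ↔ φ x ∈ Rad B' L' p := by
  constructor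
  · rintro ⟨h1, h2⟩
    refine ⟨(hL x).1 h1, fun y hy => ?_⟩
    obtain ⟨y, rfl⟩ := φ.surjective y
    rw [h]
    exact h2 y ((hL y).2 hy)
  · rintro ⟨h1, h2⟩
    refine ⟨(hL x).2 h1, fun y hy => ?_⟩
    rw [← h]
    exact h2 (φ y) ((hL y).1 hy)

include h hL in
omit [FiniteDimensional ℚ V] [FiniteDimensional ℚ V'] in
theorem c3b_t5 (p : ℕ) : (Rad B L p).relIndex L = (Rad B' L' p).relIndex L' := by
  have h1 : Rad B L p = (Rad B' L' p).comap (φ : V →+ V') := by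
    ext x
    exact c3b_rad' φ h hL p x
  have h2 : L.map (φ : V →+ V') = L' := by
    ext y
    constructor
    · rintro ⟨x, hx, rfl⟩
      exact (hL x).1 hx
    · intro hy
      obtain ⟨x, rfl⟩ := φ.surjective y
      exact ⟨x, (hL x).2 hy, rfl⟩
  rw [h1, AddSubgroup.relIndex_comap, h2]

include h in
omit [FiniteDimensional ℚ V] [FiniteDimensional ℚ V'] in
theorem c3b_t6 (hi : Nice B) : Nice B' := by
  refine ⟨fun x y => ?_, fun x hx => ?_⟩
  · obtain ⟨x, rfl⟩ := φ.surjective x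
    obtain ⟨y, rfl⟩ := φ.surjective y
    rw [h, h, hi.symm]
  · obtain ⟨x, rfl⟩ := φ.surjective x
    rw [hi.nondeg x (fun y => by rw [← h]; exact hx _), map_zero]

include h in
omit [FiniteDimensional ℚ V] [FiniteDimensional ℚ V'] in
theorem c3b_t7 (hi : Sig B) : Sig B' := by
  obtain ⟨u, h1, h2⟩ := hi
  refine ⟨φ u, by rw [h]; exact h1, fun x hx hx0 => ?_⟩
  obtain ⟨x, rfl⟩ := φ.surjective x
  rw [h] at hx ⊢
  exact h2 x hx (fun h3 => hx0 (by rw [h3, map_zero]))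

end

/-- transport along an isometry -/
theorem transport {V' : Type*} [AddCommGroup V'] [Module ℚ V'] [FiniteDimensional ℚ V']
    {B : LinearMap.BilinForm ℚ V} {L : AddSubgroup V} {B' : LinearMap.BilinForm ℚ V'}
    {L' : AddSubgroup V'} (φ : V ≃ₗ[ℚ] V') (h : ∀ x y, B' (φ x) (φ y) = B x y)
    (hL : ∀ x, x ∈ L ↔ φ x ∈ L') :
    (IsLat L ↔ IsLat L') ∧ (Integ B L ↔ Integ B' L') ∧ (EvenL B L ↔ EvenL B' L') ∧
    (∀ p, Elem B L p ↔ Elem B' L' p) ∧
    (∀ p, (Rad B L p).relIndex L = (Rad B' L' p).relIndex L') ∧ (Nice B ↔ Nice B') ∧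
    (Sig B ↔ Sig B') := by
  have hL' : ∀ x, x ∈ L' ↔ φ.symm x ∈ L := fun x => by rw [hL, φ.apply_symm_apply]
  have h' : ∀ x y, B (φ.symm x) (φ.symm y) = B' x y := fun x y => by
    rw [← h, φ.apply_symm_apply, φ.apply_symm_apply]
  refine ⟨⟨c3b_t1 φ hL, c3b_t1 φ.symm hL'⟩, ⟨c3b_t2 φ h hL, c3b_t2 φ.symm h' hL'⟩,
    ⟨c3b_t3 φ h hL, c3b_t3 φ.symm h' hL'⟩,
    fun p => ⟨c3b_t4 φ h hL p, c3b_t4 φ.symm h' hL' p⟩, fun p => c3b_t5 φ h hL p,
    ⟨c3b_t6 φ h, c3b_t6 φ.symm h'⟩, ⟨c3b_t7 φ h, c3b_t7 φ.symm h'⟩⟩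

end RH6
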