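import Pool.Agent.RH6.C3b
import Pool.Agent.RH6.C2d
import Pool.Agent.RH6.C2

namespace RH6

variable {V : Type*} [AddCommGroup V] [Module ℚ V] [FiniteDimensional ℚ V]

/-- the conclusion of the reduction to the families -/
def InFam (B : LinearMap.BilinForm ℚ V) (L : AddSubgroup V) : Prop :=
  ∃ (B5 : LinearMap.BilinForm ℚ V5) (K : AddSubgroup V5) (N : ℕ),
    QEq B L (hB N B5) (hL K) ∧ Big2 B5 K ∧
    ((FQ B5 K ∧ (N = 1 ∨ N = 2)) ∨ (F0 B5 K ∧ (N = 1 ∨ N = 2)) ∨ (F2 B5 K ∧ N = 1))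

theorem c4_rad_eq {B : LinearMap.BilinForm ℚ V5} {K : AddSubgroup V5}
    (hi : (Rad B K 2).relIndex K = 1) : Rad B K 2 = K := by
  apply le_antisymm
  · intro x hx
    exact hx.1
  · exact AddSubgroup.relIndex_eq_one.mp hi

/-- Row [RH-C4]: a lattice `K` with `[K : Rad K 2] = 1`, i.e. all products even: `(K, ½B)` is in
`F_Q`.  `Integ` is clear; `Elem` at odd `p`: if `x` is in the dual for `½B`, i.e. `x/2 ∈ K^#`, and
`p² x ∈ K`, then `x = 2(x/2) ∈ K^#`, so `p x ∈ K`; index: `Rad (½B) K 2 = 2K`: if all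
`½(x,y) ∈ 2ℤ`, then `x/4 ∈ K^#`, `4(x/4) ∈ K`, so `x/2 ∈ K` by `Elem` at 2; conversely products
with `2K` are in `2·½·2ℤ`.  Then `relIndex_mulL`. -/
theorem FQ_of_one {B : LinearMap.BilinForm ℚ V5} {K : AddSubgroup V5} (hK : K5 B K)
    (hE : EvenL B K) (hEl : ∀ p : ℕ, p.Prime → Elem B K p)
    (hi : (Rad B K 2).relIndex K = 1) (hbig : Big2 B K) :
    FQ ((1 / 2 : ℚ) • B) K ∧ Big2 ((1 / 2 : ℚ) • B) K := by
  have hR : Rad B K 2 = K := c4_rad_eq hi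
  have h2 : ∀ x ∈ K, ∀ y ∈ K, ∃ z : ℤ, B x y = 2 * z := by
    intro x hx y hy
    rw [← hR] at hx
    obtain ⟨z, hz⟩ := hx.2 y hy
    exact ⟨z, by exact_mod_cast hz⟩
  have hsm : ∀ x y, ((1 / 2 : ℚ) • B) x y = (1 / 2 : ℚ) * B x y := by
    intro x y
    simp
  have hm : Rad ((1 / 2 : ℚ) • B) K 2 = mulL 2 K := by
    ext x
    constructor
    · rintro ⟨hx, hxy⟩
      have hd : (1 / ((4 : ℕ) : ℚ)) • x ∈ dualL B K := by
        apply dual_of_dvd (by norm_num)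
        intro y hy
        obtain ⟨z, hz⟩ := hxy y hy
        refine ⟨z, ?_⟩
        rw [hsm] at hz
        push_cast at hz ⊢
        linarith
      have h4 : (((2 : ℕ) : ℤ) ^ 2) • ((1 / ((4 : ℕ) : ℚ)) • x) ∈ K := by
        have : (((2 : ℕ) : ℤ) ^ 2) • ((1 / ((4 : ℕ) : ℚ)) • x) = x := by
          rw [← Int.cast_smul_eq_zsmul ℚ, smul_smul]
          norm_num
        rw [this]
        exact hx
      have h5 := hEl 2 Nat.prime_two _ hd h4
      refine ⟨((2 : ℕ) : ℤ) • ((1 / ((4 : ℕ) : ℚ)) • x), h5, ?_⟩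
      rw [← Int.cast_smul_eq_zsmul ℚ, ← Int.cast_smul_eq_zsmul ℚ, smul_smul, smul_smul]
      norm_num
    · rintro ⟨y, hy, rfl⟩
      refine ⟨K.zsmul_mem hy _, ?_⟩
      intro y' hy'
      obtain ⟨z, hz⟩ := h2 y hy y' hy'
      refine ⟨z, ?_⟩
      rw [hsm, ← Int.cast_smul_eq_zsmul ℚ, map_smul, LinearMap.smul_apply, hz]
      simp
  refine ⟨⟨⟨hK.lat, ?_, ?_, hK.dim⟩, ?_, ?_, ?_⟩, ?_⟩
  · intro x y
    rw [hsm, hsm, hK.symm]
  · intro x hx
    rw [hsm]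
    have := hK.pos x hx
    positivity
  · intro x hx y hy
    obtain ⟨z, hz⟩ := h2 x hx y hy
    exact ⟨z, by rw [hsm, hz]; ring⟩
  · intro p hp _ x hx hpx
    apply hEl p hp x _ hpx
    intro y hy
    obtain ⟨z, hz⟩ := hx y hy
    rw [hsm] at hz
    refine ⟨2 * z, ?_⟩
    push_cast
    linarith
  · rw [hm, relIndex_mulL hK.lat 2 (by norm_num), hK.dim]
    norm_num
  · intro p hp hp2
    rw [rad_half hR hp hp2]
    exact hbig p hp hp2

/-- Row [RH-C4]: common part of the two cases: given a cusp `v` with `d ∈ {1,2}`, split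
`L ≅ U(d) ⊥ K` (`exists_w1`/`exists_w2`, `split`) and translate the hypotheses to `K`
(`transport`, C3b): `K5`, `EvenL`, `Elem`, `Big2`, and `[L:Rad L 2] = 4 [K:Rad K 2]` for `d = 1`,
`= [K : Rad K 2]` for `d = 2`; `[K:Rad K 2] = 2^m` with `m` even and `m ≤ 5`. -/
theorem split_cusp {B : LinearMap.BilinForm ℚ V} (hN : Nice B) (hS : Sig B)
    {L : AddSubgroup V} (hLt : IsLat L) (hn : Module.finrank ℚ V = 7) (hE : EvenL B L)
    (hEl : ∀ p : ℕ, p.Prime → Elem B L p)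
    (hbig : ∀ p : ℕ, p.Prime → p ≠ 2 → p ^ 4 ≤ (Rad B L p).relIndex L)
    {v : V} {d : ℕ} (hd : d = 1 ∨ d = 2) (hv : Cusp B L v d) :
    ∃ (B5 : LinearMap.BilinForm ℚ V5) (K : AddSubgroup V5) (φ : V ≃ₗ[ℚ] ℚ × ℚ × V5),
      (∀ x y, hB d B5 (φ x) (φ y) = B x y) ∧ (∀ x, x ∈ L ↔ φ x ∈ hL K) ∧
      K5 B5 K ∧ EvenL B5 K ∧ (∀ p : ℕ, p.Prime → Elem B5 K p) ∧ Big2 B5 K ∧
      ((Rad B5 K 2).relIndex K = 1 ∨ (Rad B5 K 2).relIndex K = 4 ∨
        (Rad B5 K 2).relIndex K = 16) ∧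
      (Rad B L 2).relIndex L = (if d = 1 then 4 else 1) * (Rad B5 K 2).relIndex K := by
  have hd0 : 0 < d := by rcases hd with rfl | rfl <;> norm_num
  have hvw : ∃ w ∈ L, B w w = 0 ∧ B v w = d ∧ ∀ x ∈ L, ∃ z : ℤ, B w x = d * z := by
    rcases hd with rfl | rfl
    · obtain ⟨w, hwL, hw0, hw1⟩ := exists_w1 hN.symm hE hv
      refine ⟨w, hwL, hw0, by simpa using hw1, ?_⟩
      intro x hx
      obtain ⟨z, hz⟩ := hE.1 w hwL x hx
      exact ⟨z, by simpa using hz⟩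
    · obtain ⟨w, hwL, hw0, hw1, hw2⟩ := exists_w2 hN hLt hn hE hEl hv
      exact ⟨w, hwL, hw0, by simpa using hw1, by simpa using hw2⟩
  obtain ⟨w, hwL, hw0, hw1, hw2⟩ := hvw
  obtain ⟨B5, K, φ, hφ, hφL⟩ := split hN.symm hn hv.1 hwL hv.2.2.1 hw0 hd0 hw1 hv.2.2.2.2.1 hw2
  have hT := transport φ hφ hφL
  obtain ⟨t1, t2, t3, t4, t5, t6, t7⟩ := hT
  have hd0' : (0 : ℚ) < (d : ℚ) := by exact_mod_cast hd0
  have hN5 : Nice B5 := (hyp_nice hd0'.ne').mp (t6.mp hN)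
  have hK5 : K5 B5 K := by
    refine ⟨hyp_lat.mp (t1.mp hLt), hN5.symm, ?_, by simp⟩
    exact (hyp_sig hN5.symm hd0').mp (t7.mp hS)
  have hE5 : EvenL B5 K := (hyp_even d).mp (t3.mp hE)
  have hEl5 : ∀ p : ℕ, p.Prime → Elem B5 K p := by
    intro p hp
    refine (hyp_elem hd0 hp ?_).mp ((t4 p).mp (hEl p hp))
    intro hdv
    have h1 := Nat.le_of_dvd hd0 hdv
    have h2 := hp.two_le
    have h3 : 2 ^ 2 ≤ p ^ 2 := Nat.pow_le_pow_left h2 2
    rcases hd with rfl | rfl <;> omega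
  have hbig5 : Big2 B5 K := by
    intro p hp hp2
    have hpd : ¬ p ∣ d := by
      rcases hd with rfl | rfl
      · exact hp.one_lt.ne' ∘ Nat.dvd_one.mp
      · intro h
        exact hp2 ((Nat.prime_dvd_prime_iff_eq hp Nat.prime_two).mp h)
    have h1 := hbig p hp hp2
    rw [t5 p, hyp_index hd0 hp hpd] at h1
    have hpp : 0 < p ^ 2 := pow_pos hp.pos 2
    have h2 : p ^ 2 * p ^ 2 ≤ p ^ 2 * (Rad B5 K p).relIndex K := by
      calc p ^ 2 * p ^ 2 = p ^ 4 := by ring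
        _ ≤ _ := h1
    exact Nat.le_of_mul_le_mul_left h2 hpp
  have hidx : (Rad B5 K 2).relIndex K = 1 ∨ (Rad B5 K 2).relIndex K = 4 ∨
        (Rad B5 K 2).relIndex K = 16 := by
    obtain ⟨m, hm, hmi⟩ := rad_two_pow hK5.lat hE5.1
    have hme := even_rank hN5.symm hE5 m hmi
    rw [hK5.dim] at hm
    rw [hmi]
    interval_cases m
    · left; norm_num
    · exact absurd hme (by decide)
    · right; left; norm_num
    · exact absurd hme (by decide)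
    · right; right; norm_num
    · exact absurd hme (by decide)
  refine ⟨B5, K, φ, hφ, hφL, hK5, hE5, hEl5, hbig5, hidx, ?_⟩
  rw [t5 2]
  rcases hd with rfl | rfl
  · rw [hyp_index hd0 Nat.prime_two (by norm_num)]
    norm_num
  · rw [hyp_index' hd0 Nat.prime_two (by norm_num)]
    norm_num

/-- transfer of cusps along an isometry -/
theorem c4_cusp {B : LinearMap.BilinForm ℚ V} {L : AddSubgroup V} {V' : Type*}
    [AddCommGroup V'] [Module ℚ V'] [FiniteDimensional ℚ V'] {B' : LinearMap.BilinForm ℚ V'}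
    {L' : AddSubgroup V'} (φ : V ≃ₗ[ℚ] V') (h : ∀ x y, B' (φ x) (φ y) = B x y)
    (hL : ∀ x, x ∈ L ↔ φ x ∈ L') {v : V'} {d : ℕ} (hv : Cusp B' L' v d) :
    Cusp B L (φ.symm v) d := by
  obtain ⟨h1, h2, h3, h4, h5, x, hx, h6⟩ := hv
  refine ⟨?_, ?_, ?_, ?_, ?_, φ.symm x, ?_, ?_⟩
  · rw [hL]; simpa using h1
  · simpa using h2
  · rw [← h]; simpa using h3
  · intro t ht
    apply h4 t
    rw [hL] at ht
    simpa using ht
  · intro y hy
    rw [hL] at hy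
    obtain ⟨z, hz⟩ := h5 _ hy
    refine ⟨z, ?_⟩
    rw [← h]
    simpa using hz
  · rw [hL]; simpa using hx
  · rw [← h]; simpa using h6

theorem c4_hB (M : ℚ) (B : LinearMap.BilinForm ℚ V5) (a b : ℚ × ℚ × V5) :
    hB M B a b = M * (a.1 * b.2.1 + a.2.1 * b.1) + B a.2.2 b.2.2 := rfl

theorem c4_mem_hL {K : AddSubgroup V5} (a : ℚ × ℚ × V5) :
    a ∈ hL K ↔ (∃ z : ℤ, a.1 = z) ∧ (∃ z : ℤ, a.2.1 = z) ∧ a.2.2 ∈ K := Iff.rfl

/-- the case `i(K) = 16` -/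
theorem c4_sixteen {B : LinearMap.BilinForm ℚ V} (hN : Nice B) (hS : Sig B)
    {L : AddSubgroup V} (hLt : IsLat L) (hn : Module.finrank ℚ V = 7) (hE : EvenL B L)
    (hEl : ∀ p : ℕ, p.Prime → Elem B L p)
    (hbig : ∀ p : ℕ, p.Prime → p ≠ 2 → p ^ 4 ≤ (Rad B L p).relIndex L)
    {v : V} {d : ℕ} (hd : d = 1 ∨ d = 2) (hv : Cusp B L v d)
    (hi : (Rad B L 2).relIndex L = (if d = 1 then 4 else 1) * 16) : InFam B L := by
  obtain ⟨B5, K, φ, hφ, hφL, hK5, hE5, hEl5, hbig5, hidx, hrel⟩ :=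
    split_cusp hN hS hLt hn hE hEl hbig hd hv
  have h16 : (Rad B5 K 2).relIndex K = 16 := by
    rw [hi] at hrel
    split_ifs at hrel <;> omega
  refine ⟨B5, K, d, QEq_of_iso φ one_pos (fun x y => by rw [hφ, one_mul]) hφL, hbig5, ?_⟩
  right; left
  exact ⟨⟨hK5, hE5, hEl5, h16⟩, hd⟩

/-- the case `d = 1`, `i(K) = 1` -/
theorem c4_one_one {B : LinearMap.BilinForm ℚ V} (hN : Nice B) (hS : Sig B)
    {L : AddSubgroup V} (hLt : IsLat L) (hn : Module.finrank ℚ V = 7) (hE : EvenL B L)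
    (hEl : ∀ p : ℕ, p.Prime → Elem B L p)
    (hbig : ∀ p : ℕ, p.Prime → p ≠ 2 → p ^ 4 ≤ (Rad B L p).relIndex L)
    {v : V} (hv : Cusp B L v 1) (hi : (Rad B L 2).relIndex L = 4) : InFam B L := by
  obtain ⟨B5, K, φ, hφ, hφL, hK5, hE5, hEl5, hbig5, hidx, hrel⟩ :=
    split_cusp hN hS hLt hn hE hEl hbig (Or.inl rfl) hv
  have h1 : (Rad B5 K 2).relIndex K = 1 := by
    rw [hi] at hrel
    split_ifs at hrel <;> omega
  obtain ⟨hFQ, hb⟩ := FQ_of_one hK5 hE5 hEl5 h1 hbig5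
  have hR : Rad B5 K 2 = K := c4_rad_eq h1
  obtain ⟨t1, t2, t3, t4, t5, t6, t7⟩ := transport φ hφ hφL
  have q1 : QEq B L (hB (1 : ℕ) B5) (hL K) :=
    QEq_of_iso φ one_pos (fun x y => by rw [hφ, one_mul]) hφL
  have q2 : QEq (hB (1 : ℕ) B5) (hL K) ((1 / ((2 : ℕ) : ℚ)) • hB (1 : ℕ) B5)
      (Rad (hB (1 : ℕ) B5) (hL K) 2) :=
    QEq_rad (t6.mp hN) (t1.mp hLt) (t2.mp hE.1) Nat.prime_two ((t4 2).mp (hEl 2 Nat.prime_two))
  let s : ℚ ≃ₗ[ℚ] ℚ := LinearEquiv.smulOfNeZero ℚ ℚ (1 / 2 : ℚ) (by norm_num)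
  let ψ : (ℚ × ℚ × V5) ≃ₗ[ℚ] (ℚ × ℚ × V5) :=
    LinearEquiv.prodCongr s (LinearEquiv.prodCongr s (LinearEquiv.refl ℚ V5))
  have hψ : ∀ x, ψ x = ((1 / 2 : ℚ) * x.1, (1 / 2 : ℚ) * x.2.1, x.2.2) := fun x => rfl
  have q3 : QEq ((1 / ((2 : ℕ) : ℚ)) • hB (1 : ℕ) B5) (Rad (hB (1 : ℕ) B5) (hL K) 2)
      (hB (2 : ℕ) ((1 / 2 : ℚ) • B5)) (hL K) := by
    refine QEq_of_iso ψ one_pos ?_ ?_
    · intro x y
      rw [hψ, hψ, LinearMap.smul_apply, LinearMap.smul_apply, c4_hB, c4_hB,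
        LinearMap.smul_apply, LinearMap.smul_apply]
      simp only [smul_eq_mul]
      push_cast
      ring
    · intro x
      rw [hψ, c4_mem_hL]
      constructor
      · rintro ⟨⟨⟨p, hp⟩, ⟨q, hq⟩, hz⟩, hx2⟩
        refine ⟨?_, ?_, hz⟩
        · obtain ⟨z, hz'⟩ := hx2 (0, 1, 0) ⟨⟨0, by simp⟩, ⟨1, by simp⟩, K.zero_mem⟩
          rw [c4_hB] at hz'
          simp only [mul_one, mul_zero, add_zero, map_zero] at hz'
          refine ⟨z, ?_⟩
          push_cast at hz'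
          simp only []
          linarith
        · obtain ⟨z, hz'⟩ := hx2 (1, 0, 0) ⟨⟨1, by simp⟩, ⟨0, by simp⟩, K.zero_mem⟩
          rw [c4_hB] at hz'
          simp only [mul_one, mul_zero, add_zero, zero_add, map_zero] at hz'
          refine ⟨z, ?_⟩
          push_cast at hz'
          simp only []
          linarith
      · rintro ⟨⟨p, hp⟩, ⟨q, hq⟩, hz⟩
        simp only [] at hp hq hz
        refine ⟨⟨⟨2 * p, by push_cast; linarith⟩, ⟨2 * q, by push_cast; linarith⟩, hz⟩, ?_⟩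
        rintro y ⟨⟨p', hp'⟩, ⟨q', hq'⟩, hy⟩
        rw [← hR] at hz
        obtain ⟨z, hz'⟩ := hz.2 _ hy
        refine ⟨p * q' + q * p' + z, ?_⟩
        rw [c4_hB, hz', hp', hq']
        have e1 : x.1 = 2 * p := by linarith
        have e2 : x.2.1 = 2 * q := by linarith
        rw [e1, e2]
        push_cast
        ring
  exact ⟨(1 / 2 : ℚ) • B5, K, 2, QEq_trans (QEq_trans q1 q2) q3, hb, Or.inl ⟨hFQ, Or.inr rfl⟩⟩

/-- the case `d = 2`, `i(K) = 1` -/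
theorem c4_two_one {B : LinearMap.BilinForm ℚ V} (hN : Nice B) (hS : Sig B)
    {L : AddSubgroup V} (hLt : IsLat L) (hn : Module.finrank ℚ V = 7) (hE : EvenL B L)
    (hEl : ∀ p : ℕ, p.Prime → Elem B L p)
    (hbig : ∀ p : ℕ, p.Prime → p ≠ 2 → p ^ 4 ≤ (Rad B L p).relIndex L)
    {v : V} (hv : Cusp B L v 2) (hi : (Rad B L 2).relIndex L = 1) : InFam B L := by
  obtain ⟨B5, K, φ, hφ, hφL, hK5, hE5, hEl5, hbig5, hidx, hrel⟩ :=
    split_cusp hN hS hLt hn hE hEl hbig (Or.inr rfl) hv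
  have h1 : (Rad B5 K 2).relIndex K = 1 := by
    rw [hi] at hrel
    split_ifs at hrel <;> omega
  obtain ⟨hFQ, hb⟩ := FQ_of_one hK5 hE5 hEl5 h1 hbig5
  have q1 : QEq B L (hB (1 : ℕ) ((1 / 2 : ℚ) • B5)) (hL K) := by
    refine QEq_of_iso φ (c := 1 / 2) (by norm_num) ?_ hφL
    intro x y
    rw [← hφ, c4_hB, c4_hB, LinearMap.smul_apply, LinearMap.smul_apply]
    simp only [smul_eq_mul]
    push_cast
    ring
  exact ⟨(1 / 2 : ℚ) • B5, K, 1, q1, hb, Or.inl ⟨hFQ, Or.inl rfl⟩⟩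

/-- the case `d = 1`, `i(K) = 4` -/
theorem c4_one_four {B : LinearMap.BilinForm ℚ V} (hN : Nice B) (hS : Sig B)
    {L : AddSubgroup V} (hLt : IsLat L) (hn : Module.finrank ℚ V = 7) (hE : EvenL B L)
    (hEl : ∀ p : ℕ, p.Prime → Elem B L p)
    (hbig : ∀ p : ℕ, p.Prime → p ≠ 2 → p ^ 4 ≤ (Rad B L p).relIndex L)
    {v : V} (hv : Cusp B L v 1) (hi : (Rad B L 2).relIndex L = 16) : InFam B L := by
  obtain ⟨B5, K, φ, hφ, hφL, hK5, hE5, hEl5, hbig5, hidx, hrel⟩ :=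
    split_cusp hN hS hLt hn hE hEl hbig (Or.inl rfl) hv
  have h4 : (Rad B5 K 2).relIndex K = 4 := by
    rw [hi] at hrel
    split_ifs at hrel <;> omega
  by_cases hstar : ∀ k ∈ Rad B5 K 2, (∃ z : ℤ, B5 k k = 8 * z) → k ∈ mulL 2 K
  · refine ⟨B5, K, 1, QEq_of_iso φ one_pos (fun x y => by rw [hφ, one_mul]) hφL, hbig5, ?_⟩
    right; right
    exact ⟨⟨hK5, hE5, hEl5, h4, hstar⟩, rfl⟩
  · push Not at hstar
    obtain ⟨k, hk, ⟨z, hz⟩, hk2⟩ := hstar
    have hc : Cusp (hB (1 : ℕ) B5) (hL K) ((2 : ℚ), (-2 * z : ℚ), k) 2 := by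
      refine ⟨⟨⟨2, by simp⟩, ⟨-2 * z, by push_cast; rfl⟩, hk.1⟩, ?_, ?_, ?_, ?_,
        ((0 : ℚ), (1 : ℚ), (0 : V5)), ⟨⟨0, by simp⟩, ⟨1, by simp⟩, K.zero_mem⟩, ?_⟩
      · intro h
        have := congrArg Prod.fst h
        norm_num at this
      · rw [c4_hB]
        simp only [hz]
        push_cast
        ring
      · rintro t ⟨⟨n, hn'⟩, _, htk⟩
        simp only [Prod.smul_mk, smul_eq_mul] at hn' htk
        rcases Int.even_or_odd n with ⟨m, hm⟩ | ⟨m, hm⟩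
        · refine ⟨m, ?_⟩
          rw [hm] at hn'
          push_cast at hn'
          linarith
        · exfalso
          apply hk2
          refine ⟨t • k - m • k, K.sub_mem htk (K.zsmul_mem hk.1 m), ?_⟩
          have ht : t = m + 1 / 2 := by
            rw [hm] at hn'
            push_cast at hn'
            linarith
          rw [← Int.cast_smul_eq_zsmul ℚ, ← Int.cast_smul_eq_zsmul ℚ, ← sub_smul, smul_smul, ht]
          norm_num
      · rintro y ⟨⟨p', hp'⟩, ⟨q', hq'⟩, hy⟩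
        obtain ⟨z', hz'⟩ := hk.2 _ hy
        refine ⟨q' - z * p' + z', ?_⟩
        rw [c4_hB]
        simp only [hz', hp', hq']
        push_cast
        ring
      · rw [c4_hB]
        simp
    have hc' := c4_cusp φ hφ hφL hc
    refine c4_sixteen hN hS hLt hn hE hEl hbig (Or.inr rfl) hc' ?_
    rw [hi]
    norm_num

/-- the case `d = 2`, `i(K) = 4` -/
theorem c4_two_four {B : LinearMap.BilinForm ℚ V} (hN : Nice B) (hS : Sig B)
    {L : AddSubgroup V} (hLt : IsLat L) (hn : Module.finrank ℚ V = 7) (hE : EvenL B L)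
    (hEl : ∀ p : ℕ, p.Prime → Elem B L p)
    (hbig : ∀ p : ℕ, p.Prime → p ≠ 2 → p ^ 4 ≤ (Rad B L p).relIndex L)
    {v : V} (hv : Cusp B L v 2) (hi : (Rad B L 2).relIndex L = 4) : InFam B L := by
  obtain ⟨B5, K, φ, hφ, hφL, hK5, hE5, hEl5, hbig5, hidx, hrel⟩ :=
    split_cusp hN hS hLt hn hE hEl hbig (Or.inr rfl) hv
  have h4 : (Rad B5 K 2).relIndex K = 4 := by
    rw [hi] at hrel
    split_ifs at hrel <;> omega
  have hd0' : (0 : ℚ) < ((2 : ℕ) : ℚ) := by norm_num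
  obtain ⟨t1, t2, t3, t4, t5, t6, t7⟩ := transport φ hφ hφL
  have hN5 : Nice B5 := (hyp_nice hd0'.ne').mp (t6.mp hN)
  -- an element outside the radical
  have hy : ∃ y ∈ K, y ∉ Rad B5 K 2 := by
    by_contra hcon
    push Not at hcon
    have : (Rad B5 K 2).relIndex K = 1 := AddSubgroup.relIndex_eq_one.mpr hcon
    omega
  -- an element of the radical of norm 2 mod 4
  have hz : ∃ z ∈ Rad B5 K 2, ∃ n : ℤ, B5 z z = 4 * n + 2 := by
    by_contra hcon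
    push Not at hcon
    have hev : EvenL ((1 / ((2 : ℕ) : ℚ)) • B5) (Rad B5 K 2) := by
      refine ⟨rad_integ (by norm_num), ?_⟩
      intro x hx
      obtain ⟨m, hm⟩ := hx.2 x hx.1
      rcases Int.even_or_odd m with ⟨n, hn'⟩ | ⟨n, hn'⟩
      · refine ⟨n, ?_⟩
        rw [LinearMap.smul_apply, LinearMap.smul_apply, hm, hn', smul_eq_mul]
        push_cast
        ring
      · exfalso
        refine hcon x hx n ?_
        rw [hm, hn']
        push_cast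
        ring
    have hrr := rad_rad hN5 hK5.lat hE5.1 Nat.prime_two (hEl5 2 Nat.prime_two)
    have h8 : (Rad ((1 / ((2 : ℕ) : ℚ)) • B5) (Rad B5 K 2) 2).relIndex (Rad B5 K 2) = 2 ^ 3 := by
      rw [hrr]
      have h1 := AddSubgroup.relIndex_mul_relIndex (mulL 2 K) (Rad B5 K 2) K
        (mulL_le_rad hE5.1 2) (fun x hx => hx.1)
      rw [relIndex_mulL hK5.lat 2 (by norm_num), hK5.dim, h4] at h1
      omega
    have hs' : ∀ x y, ((1 / ((2 : ℕ) : ℚ)) • B5) x y = ((1 / ((2 : ℕ) : ℚ)) • B5) y x := by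
      intro x y
      rw [LinearMap.smul_apply, LinearMap.smul_apply, LinearMap.smul_apply,
        LinearMap.smul_apply, hN5.symm]
    exact absurd (even_rank hs' hev 3 h8) (by decide)
  obtain ⟨y, hyK, hyR⟩ := hy
  obtain ⟨z, hzR, n, hn'⟩ := hz
  -- an element outside the radical with norm divisible by 4
  have hx : ∃ x ∈ K, x ∉ Rad B5 K 2 ∧ ∃ m : ℤ, B5 x x = 4 * m := by
    obtain ⟨m, hm⟩ := hE5.2 y hyK
    rcases Int.even_or_odd m with ⟨l, hl⟩ | ⟨l, hl⟩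
    · refine ⟨y, hyK, hyR, l, ?_⟩
      rw [hm, hl]
      push_cast
      ring
    · refine ⟨y + z, K.add_mem hyK hzR.1, ?_, ?_⟩
      · intro hmem
        apply hyR
        have := (Rad B5 K 2).sub_mem hmem hzR
        simpa using this
      · obtain ⟨t, ht⟩ := hzR.2 y hyK
        refine ⟨l + t + n + 1, ?_⟩
        rw [LinearMap.map_add₂, map_add, map_add, hN5.symm y z, ht, hm, hn', hl]
        push_cast
        ring
  obtain ⟨x, hxK, hxR, m, hm⟩ := hx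
  have hodd : ∃ w ∈ K, ∃ l : ℤ, B5 x w = 2 * l + 1 := by
    by_contra hcon
    push Not at hcon
    apply hxR
    refine ⟨hxK, ?_⟩
    intro w hw
    obtain ⟨s, hs⟩ := hE5.1 x hxK w hw
    rcases Int.even_or_odd s with ⟨l, hl⟩ | ⟨l, hl⟩
    · refine ⟨l, ?_⟩
      rw [hs, hl]
      push_cast
      ring
    · exfalso
      refine hcon w hw l ?_
      rw [hs, hl]
      push_cast
      ring
  obtain ⟨w, hw, l, hl⟩ := hodd
  have hc : Cusp (hB (2 : ℕ) B5) (hL K) ((1 : ℚ), (-m : ℚ), x) 1 := by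
    refine ⟨⟨⟨1, by simp⟩, ⟨-m, by push_cast; rfl⟩, hxK⟩, ?_, ?_, ?_, ?_,
      ((0 : ℚ), (-l : ℚ), w), ⟨⟨0, by simp⟩, ⟨-l, by push_cast; rfl⟩, hw⟩, ?_⟩
    · intro h
      have := congrArg Prod.fst h
      norm_num at this
    · rw [c4_hB]
      simp only [hm]
      push_cast
      ring
    · rintro t ⟨⟨n, hn'⟩, _, _⟩
      simp only [Prod.smul_mk, smul_eq_mul, mul_one] at hn'
      exact ⟨n, hn'⟩
    · rintro y ⟨⟨p', hp'⟩, ⟨q', hq'⟩, hy⟩
      obtain ⟨z', hz'⟩ := hE5.1 x hxK _ hy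
      refine ⟨2 * (q' - m * p') + z', ?_⟩
      rw [c4_hB]
      simp only [hz', hp', hq']
      push_cast
      ring
    · rw [c4_hB]
      simp only [hl]
      push_cast
      ring
  have hc' := c4_cusp φ hφ hφL hc
  exact c4_one_one hN hS hLt hn hE hEl hbig hc' hi

/-- the reduction for a lattice with a cusp with `d = 1, 2` -/
theorem c4_core {B : LinearMap.BilinForm ℚ V} (hN : Nice B) (hS : Sig B)
    {L : AddSubgroup V} (hLt : IsLat L) (hn : Module.finrank ℚ V = 7) (hE : EvenL B L)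
    (hEl : ∀ p : ℕ, p.Prime → Elem B L p)
    (hbig : ∀ p : ℕ, p.Prime → p ≠ 2 → p ^ 4 ≤ (Rad B L p).relIndex L)
    {v : V} (hv : Cusp B L v 1 ∨ Cusp B L v 2) : InFam B L := by
  rcases hv with hv | hv
  · obtain ⟨B5, K, φ, hφ, hφL, hK5, hE5, hEl5, hbig5, hidx, hrel⟩ :=
      split_cusp hN hS hLt hn hE hEl hbig (Or.inl rfl) hv
    rcases hidx with h | h | h <;> rw [h] at hrel
    · exact c4_one_one hN hS hLt hn hE hEl hbig hv (by simpa using hrel)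
    · exact c4_one_four hN hS hLt hn hE hEl hbig hv (by simpa using hrel)
    · exact c4_sixteen hN hS hLt hn hE hEl hbig (Or.inl rfl) hv hrel
  · obtain ⟨B5, K, φ, hφ, hφL, hK5, hE5, hEl5, hbig5, hidx, hrel⟩ :=
      split_cusp hN hS hLt hn hE hEl hbig (Or.inr rfl) hv
    rcases hidx with h | h | h <;> rw [h] at hrel
    · exact c4_two_one hN hS hLt hn hE hEl hbig hv (by simpa using hrel)
    · exact c4_two_four hN hS hLt hn hE hEl hbig hv (by simpa using hrel)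
    · exact c4_sixteen hN hS hLt hn hE hEl hbig (Or.inr rfl) hv hrel

/-- Row [RH-C4]: reduction to the families.

Proof.  `exists_min` and `exists_cusp12` (transport the hypotheses to `c • B`, `L'`; `QEq` is
transitive).  So assume `hbig` and a cusp `v` with `d ∈ {1,2}`; split.  Let `i(K) = [K:Rad K 2]`.
* `d = 1`, `i(K) = 16`: `F0`, `N = 1`.
* `d = 1`, `i(K) = 4`: if `star` holds: `F2`, `N = 1`.  Otherwise let `k ∈ Rad K 2`,
  `8 ∣ (k,k)`, `k ∉ 2K`, and `v' = (2, -(k,k)/4; k) ∈ U ⊥ K`: isotropic, primitive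
  (`½v' ∉ L`, and `t v' ∈ L` implies `2t ∈ ℤ`), `(v', (p,q;z)) = 2q - p (k,k)/4 + (k,z)` is even and
  equal to 2 for `(0,1;0)`: a cusp with `d = 2`.  Split there: `4·4 = [L:Rad L 2] = i(K'')`, so
  `F0`, `N = 2`.
* `d = 1`, `i(K) = 1`: `K = Rad K 2`.  `QEq_rad` for `p = 2`: `Rad (U ⊥ K) 2 = 2ℤ × 2ℤ × K` with the
  form `½(...)`; the map `(p,q;z) ↦ (p/2,q/2;z)` is an isometry onto `U(2) ⊥ (K,½B)`
  (`½(p q' + q p') = 2 (p/2 q'/2 + ...)`).  So `FQ`, `N = 2` by `FQ_of_one`.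
* `d = 2`, `i(K) = 16`: `F0`, `N = 2`.
* `d = 2`, `i(K) = 1`: `U(2) ⊥ (K,B)` is `U ⊥ (K,½B)` with the form multiplied by 2
  (`QEq_of_iso` with `c = ½`): `FQ`, `N = 1`.
* `d = 2`, `i(K) = 4`: there is `y ∈ K \ Rad K 2`, and `z ∈ Rad K 2` with `(z,z) ≡ 2 mod 4`:
  otherwise `(Rad K 2, ½B)` is an even lattice, and by `even_rank` and `rad_rad`
  `[Rad K 2 : 2K] = 2^5/4 = 2^3` would have an even exponent.  One of `x = y`, `x = y + z` satisfies
  `4 ∣ (x,x)` (`(y+z,y+z) ≡ (y,y) + (z,z) mod 4`), `x ∉ Rad K 2`.  Let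
  `v'' = (1, -(x,x)/4; x) ∈ U(2) ⊥ K`: `(v'',v'') = 4·(-(x,x)/4) + (x,x) = 0`, primitive,
  `(v'',(p,q;z')) = 2(q - p (x,x)/4) + (x,z')` takes the value 2 and an odd value: a cusp with
  `d = 1`.  Split there: `4 i(K'') = [L : Rad L 2] = 4`, so `i(K'') = 1`, the third case. -/
theorem families {B : LinearMap.BilinForm ℚ V} (hN : Nice B) (hS : Sig B)
    {L : AddSubgroup V} (hLt : IsLat L) (hn : Module.finrank ℚ V = 7) (hE : EvenL B L)
    (hEl : ∀ p : ℕ, p.Prime → Elem B L p) (hiso : ∃ v, v ≠ 0 ∧ B v v = 0) : InFam B L := by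
  obtain ⟨c, L', hc, hLt', hE', hEl', hQ, hbig⟩ := exists_min hN hLt hn hE hEl
  obtain ⟨v₀, hv0, hv00⟩ := hiso
  have hN' : Nice (c • B) := nice_smul hN hc.ne'
  have hsm : ∀ x y, (c • B) x y = c * B x y := by
    intro x y
    simp
  have hS' : Sig (c • B) := by
    obtain ⟨h, hh, hpos⟩ := hS
    refine ⟨h, ?_, ?_⟩
    · rw [hsm]
      exact mul_neg_of_pos_of_neg hc hh
    · intro x hx hx0
      rw [hsm] at hx ⊢
      have hx' : B x h = 0 := by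
        rcases mul_eq_zero.mp hx with h' | h'
        · exact absurd h' hc.ne'
        · exact h'
      exact mul_pos hc (hpos x hx' hx0)
  obtain ⟨v, hv⟩ := exists_cusp12 hN' hLt' hE' hEl' hbig hv0 (by rw [hsm, hv00, mul_zero])
  obtain ⟨B5, K, N, hQ', hrest⟩ := c4_core hN' hS' hLt' hn hE' hEl' hbig hv
  exact ⟨B5, K, N, QEq_trans hQ hQ', hrest⟩

end RH6
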