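import Pool.Agent.RH6.ADef

open Matrix

namespace RH6

variable {V : Type*} [AddCommGroup V] [Module ℚ V] {V' : Type*} [AddCommGroup V'] [Module ℚ V']

/-- the form `M (p q' + q p') + B x x'` on `ℚ × ℚ × V` -/
def hB (M : ℚ) (B : LinearMap.BilinForm ℚ V) : LinearMap.BilinForm ℚ (ℚ × ℚ × V) :=
  LinearMap.mk₂ ℚ (fun a b => M * (a.1 * b.2.1 + a.2.1 * b.1) + B a.2.2 b.2.2)
    (by intro a a' b; simp; ring) (by intro c a b; simp; ring)
    (by intro a b b'; simp; ring) (by intro c a b; simp; ring)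

/-- the lattice `ℤ × ℤ × K` -/
def hL (K : AddSubgroup V) : AddSubgroup (ℚ × ℚ × V) where
  carrier := {a | (∃ z : ℤ, a.1 = z) ∧ (∃ z : ℤ, a.2.1 = z) ∧ a.2.2 ∈ K}
  zero_mem' := ⟨⟨0, by simp⟩, ⟨0, by simp⟩, K.zero_mem⟩
  add_mem' := by
    rintro a b ⟨⟨z, hz⟩, ⟨w, hw⟩, hk⟩ ⟨⟨z', hz'⟩, ⟨w', hw'⟩, hk'⟩
    exact ⟨⟨z + z', by simp [hz, hz']⟩, ⟨w + w', by simp [hw, hw']⟩, K.add_mem hk hk'⟩
  neg_mem' := by
    rintro a ⟨⟨z, hz⟩, ⟨w, hw⟩, hk⟩
    exact ⟨⟨-z, by simp [hz]⟩, ⟨-w, by simp [hw]⟩, K.neg_mem hk⟩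

/-- `r` is a root direction of `L`: positive norm, and the reflection in `r` preserves `L` -/
def RD (B : LinearMap.BilinForm ℚ V) (L : AddSubgroup V) (r : V) : Prop :=
  0 < B r r ∧ ∀ x ∈ L, (2 * B x r / B r r) • r ∈ L

/-- the cusp condition: for every isotropic vector `v ≠ 0`, the root directions orthogonal to `v`
span `v^⊥` modulo `v` -/
def CF (B : LinearMap.BilinForm ℚ V) (L : AddSubgroup V) : Prop :=
  ∀ v, v ≠ 0 → B v v = 0 → ∀ u, B u v = 0 → (∀ r, RD B L r → B r v = 0 → B u r = 0) →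
    ∃ t : ℚ, u = t • v

/-- equivalence of lattices with the same isometry groups (up to similarity of the forms) -/
def QEq (B : LinearMap.BilinForm ℚ V) (L : AddSubgroup V) (B' : LinearMap.BilinForm ℚ V')
    (L' : AddSubgroup V') : Prop :=
  ∃ (φ : V ≃ₗ[ℚ] V') (c : ℚ), 0 < c ∧ (∀ x y, B' (φ x) (φ y) = c * B x y) ∧
    ∀ g : V ≃ₗ[ℚ] V, Iso B g → (Pres g L ↔ Pres (φ.symm.trans (g.trans φ)) L')

/-- primitive roots of `K` -/
def Rt (B : LinearMap.BilinForm ℚ V) (K : AddSubgroup V) (r : V) : Prop :=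
  r ∈ K ∧ r ≠ 0 ∧ (∀ x ∈ K, ∃ n : ℤ, 2 * B x r = n * B r r) ∧
    ∀ t : ℚ, t • r ∈ K → ∃ z : ℤ, t = z

/-- the roots of `K` span the space -/
def RSpan (B : LinearMap.BilinForm ℚ V) (K : AddSubgroup V) : Prop :=
  ∀ u, (∀ r, Rt B K r → B u r = 0) → u = 0

/-- there are 5 pairwise orthogonal roots -/
def Framed (B : LinearMap.BilinForm ℚ V) (K : AddSubgroup V) : Prop :=
  ∃ r : Fin 5 → V, (∀ i, Rt B K (r i)) ∧ ∀ i j, i ≠ j → B (r i) (r j) = 0

/-- the neighbour `{x - (a/l) k : x ∈ K, a ∈ ℤ, a c + (x,k) ∈ l ℤ}` -/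
def Nbr (B : LinearMap.BilinForm ℚ V) (K : AddSubgroup V) (k : V) (l : ℕ) (c : ℤ) :
    AddSubgroup V where
  carrier := {w | ∃ x ∈ K, ∃ a t : ℤ, w = x - ((a : ℚ) / l) • k ∧ (a * c : ℚ) + B x k = l * t}
  zero_mem' := ⟨0, K.zero_mem, 0, 0, by simp, by simp⟩
  add_mem' := by
    rintro w w' ⟨x, hx, a, t, rfl, h⟩ ⟨x', hx', a', t', rfl, h'⟩
    refine ⟨x + x', K.add_mem hx hx', a + a', t + t', ?_, ?_⟩
    · push_cast; rw [add_div, add_smul]; abel
    · push_cast; rw [map_add, LinearMap.add_apply]; linarith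
  neg_mem' := by
    rintro w ⟨x, hx, a, t, rfl, h⟩
    refine ⟨-x, K.neg_mem hx, -a, -t, ?_, ?_⟩
    · push_cast; rw [neg_div, neg_smul]; abel
    · push_cast; rw [map_neg, LinearMap.neg_apply]; linarith

/-- positive definite lattices of rank 5 -/
structure K5 (B : LinearMap.BilinForm ℚ V) (K : AddSubgroup V) : Prop where
  lat : IsLat K
  symm : ∀ x y, B x y = B y x
  pos : ∀ x, x ≠ 0 → 0 < B x x
  dim : Module.finrank ℚ V = 5

/-- family `F_0`: even, elementary, unimodular rank 4 at 2 -/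
structure F0 (B : LinearMap.BilinForm ℚ V) (K : AddSubgroup V) : Prop extends K5 B K where
  even : EvenL B K
  elem : ∀ p : ℕ, p.Prime → Elem B K p
  idx : (Rad B K 2).relIndex K = 16

/-- family `F_2`: even, elementary, unimodular rank 2 at 2, and no `k ∈ K ∩ 2K^#`, `k ∉ 2K` has
norm divisible by 8 -/
structure F2 (B : LinearMap.BilinForm ℚ V) (K : AddSubgroup V) : Prop extends K5 B K where
  even : EvenL B K
  elem : ∀ p : ℕ, p.Prime → Elem B K p
  idx : (Rad B K 2).relIndex K = 4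
  star : ∀ k ∈ Rad B K 2, (∃ z : ℤ, B k k = 8 * z) → k ∈ mulL 2 K

/-- family `F_Q`: integral, elementary at odd primes, unimodular at 2 -/
structure FQ (B : LinearMap.BilinForm ℚ V) (K : AddSubgroup V) : Prop extends K5 B K where
  int : Integ B K
  elem : ∀ p : ℕ, p.Prime → p ≠ 2 → Elem B K p
  idx : (Rad B K 2).relIndex K = 32

/-- unimodular rank at least 2 at all odd primes -/
def Big2 (B : LinearMap.BilinForm ℚ V) (K : AddSubgroup V) : Prop :=
  ∀ p : ℕ, p.Prime → p ≠ 2 → p ^ 2 ≤ (Rad B K p).relIndex K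

/-- the 5-dimensional space used for cusps -/
abbrev V5 := Fin 5 → ℚ

/-- the lattice of all `y ∈ ℤ^5` satisfying the parity checks `H` -/
def KH (H : List (Fin 5 → ℕ)) : AddSubgroup V5 where
  carrier := {y | ∃ z : Fin 5 → ℤ, (∀ i, y i = z i) ∧ ∀ h ∈ H, Even (∑ i, (h i : ℤ) * z i)}
  zero_mem' := ⟨0, by simp, by simp⟩
  add_mem' := by
    rintro a b ⟨z, hz, hz'⟩ ⟨w, hw, hw'⟩
    refine ⟨z + w, fun i => by simp [hz, hw], fun h hh => ?_⟩
    have := (hz' h hh).add (hw' h hh)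
    simpa [mul_add, Finset.sum_add_distrib] using this
  neg_mem' := by
    rintro a ⟨z, hz, hz'⟩
    refine ⟨-z, fun i => by simp [hz], fun h hh => ?_⟩
    have := (hz' h hh).neg
    simpa [Finset.sum_neg_distrib] using this

/-- the form `(x,y) = ½ ∑ A_i m_i x_i y_i` (`A_i = 2^{a_i}`) -/
def Bm (A m : Fin 5 → ℕ) : LinearMap.BilinForm ℚ V5 :=
  LinearMap.mk₂ ℚ (fun x y => (1 / 2 : ℚ) * ∑ i, (A i : ℚ) * m i * x i * y i)
    (by intro a a' b; simp [mul_add, add_mul, Finset.sum_add_distrib])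
    (by intro c a b; simp [Finset.mul_sum]; apply Finset.sum_congr rfl; intro i _; ring)
    (by intro a b b'; simp [mul_add, Finset.sum_add_distrib])
    (by intro c a b; simp [Finset.mul_sum]; apply Finset.sum_congr rfl; intro i _; ring)

end RH6
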