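import Mathlib

namespace RH6

def oddsqf : List Nat := [1,3,5,7,11,13,15,17,19,21,23,29,31,33,35,37,39,41,43,47,51,53,55,57,59,61,
  65,67,69,71,73,77,79,83,85,87,89,91,93,95,97,101,103,105,107,109,111,113,115,119,123,127]

def del (a b : Nat) : Nat := Nat.mul (Nat.div a (Nat.gcd a b)) (Nat.div b (Nat.gcd a b))

structure Co where
  A : Nat
  bit : Nat
  b : Nat
  r : Nat
  rho : Nat
  k : Nat
  q : Nat
  np : Nat
  nn : Nat
  ws : List Nat

structure Cfg where
  l : Nat
  M : Nat
  j : Nat
  mu : Nat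
  var : Nat
  code : Nat

abbrev St := List (Nat × Nat)

def lookupB (b : Nat) : List (Nat × Nat × Nat) → Option (Nat × Nat)
  | [] => none
  | (b', c, base) :: t => bif Nat.beq b b' then some (c, base) else lookupB b t

def canonAux : St → List (Nat × Nat × Nat) → Nat → St
  | [], _, _ => []
  | (b, r) :: t, tab, c =>
    match lookupB b tab with
    | some (c', base) => (c', del r base) :: canonAux t tab c
    | none => (c, 1) :: canonAux t ((b, c, r) :: tab) (Nat.succ c)

def canonSt (s : St) : St := canonAux s [] 0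

def mergeSt (blk : Nat) (xb : List Nat) (s : St) : St :=
  s.map fun p => bif Nat.beq p.1 blk then p else
    (bif Nat.beq (xb.getD p.1 0) 0 then p else (blk, del (xb.getD p.1 0) p.2))

def eqP (a b : Nat × Nat) : Bool := Nat.beq a.1 b.1 && Nat.beq a.2 b.2

def forb (fb : List (Nat × Nat)) (s : St) : Bool :=
  fb.any fun p => eqP (s.getD p.1 (0,0)) (s.getD p.2 (0,0))

def eqSt : St → St → Bool
  | [], [] => true
  | a :: s, c :: t => eqP a c && eqSt s t
  | _, _ => false

def memSt (s : St) : List St → Bool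
  | [] => false
  | t :: l => eqSt s t || memSt s l

def uall (w rem : Nat) (F : Nat → Bool) : Nat → Nat → Bool
  | 0, _ => false
  | Nat.succ fuel, u =>
    bif Nat.ble (Nat.mul w (Nat.mul u u)) rem then (F u && uall w rem F fuel (Nat.succ u)) else true

def dall (F : Nat → Bool) (bd : Nat) : List Nat → Bool
  | [] => true
  | d :: t => bif Nat.ble d bd then (F d && dall F bd t) else true

def updFl (a : Nat) : List Nat → List Nat → List Nat
  | f :: fs, y :: ys => Nat.mod (Nat.add f (Nat.mul a y)) 16 :: updFl a fs ys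
  | _, _ => []

def allZero : List Nat → Bool
  | [] => true
  | a :: t => Nat.beq a 0 && allZero t

structure Nd where
  blk : Nat
  st : St
  ch : List St
  fb : List (Nat × Nat)

def parOK (cf : Cfg) (s : Nat) : Bool :=
  bif Nat.beq cf.l 2 then
    (bif Nat.beq cf.j 0 then Nat.beq (Nat.mod s 4) 0 else Nat.beq (Nat.mod s 4) (Nat.mul 2 cf.var))
  else
    (bif Nat.beq cf.j 0 then Nat.beq (Nat.mod s 8) 0 else
      bif Nat.beq cf.j 2 then Nat.beq (Nat.mod s 4) 0 else true)

def leafOK (nd : Nd) (cf : Cfg) (rem : Nat) (xb : List Nat) (wp s : Nat) (fl : List Nat)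
    (P N : Nat) (cross : Bool) : Bool :=
  bif Nat.beq rem 0 then
    bif Nat.testBit cf.code wp then
      bif parOK cf s then
        bif allZero fl then
          bif cross then
            (memSt (canonSt (mergeSt nd.blk xb nd.st)) nd.ch ||
              forb nd.fb (canonSt (mergeSt nd.blk xb nd.st)))
          else Nat.beq P N
        else true
      else true
    else true
  else true

/-- one signed choice: `y ≡ Z - j k (mod M)`, `z ≡ Z (mod 16)` -/
def one (cf : Cfg) (c : Co) (y : Nat) (wp s : Nat) (K : Nat → Nat → Bool) : Bool :=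
  bif Nat.beq (Nat.mod y cf.l) 0 then
    K (bif Nat.beq (Nat.mod (Nat.div y cf.l) 2) 1 then Nat.add wp c.bit else wp)
      (Nat.mod (Nat.add s (Nat.mul (Nat.mul c.A c.q) (Nat.mul (Nat.div y cf.l) c.k))) 16)
  else true

def srchO (nd : Nd) (cf : Cfg) : List Co → Nat → List Nat → Nat → Nat → List Nat → Nat → Nat → Bool → Bool
  | [], rem, xb, wp, s, fl, P, N, cross => leafOK nd cf rem xb wp s fl P N cross
  | c :: cs, rem, xb, wp, s, fl, P, N, cross =>
    (one cf c (Nat.mod (Nat.sub cf.M (Nat.mul cf.j c.k)) cf.M) wp s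
      (fun wp' s' => srchO nd cf cs rem xb wp' s' fl P N cross)) &&
    (bif Nat.beq (xb.getD c.b 0) 0 then
       dall (fun d =>
         bif Nat.beq (Nat.mod (del d cf.mu) 8) c.rho then
           (fun f => uall (Nat.mul c.A d) rem (fun u =>
            (one cf c (Nat.mod (Nat.add (Nat.mul f u) (Nat.sub cf.M (Nat.mul cf.j c.k))) cf.M) wp s
              (fun wp' s' => srchO nd cf cs (Nat.sub rem (Nat.mul (Nat.mul c.A d) (Nat.mul u u)))
                (xb.set c.b (del (del d cf.mu) c.r)) wp' s'
                (updFl (Nat.mul (Nat.mul c.A c.q) (Nat.mul f u)) fl c.ws)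
                (Nat.add P (Nat.mul (Nat.mul f u) c.np)) (Nat.add N (Nat.mul (Nat.mul f u) c.nn)) true)) &&
            (one cf c (Nat.mod (Nat.add (Nat.sub cf.M (Nat.mod (Nat.mul f u) cf.M)) (Nat.sub cf.M (Nat.mul cf.j c.k))) cf.M) wp s
              (fun wp' s' => srchO nd cf cs (Nat.sub rem (Nat.mul (Nat.mul c.A d) (Nat.mul u u)))
                (xb.set c.b (del (del d cf.mu) c.r)) wp' s'
                (updFl (Nat.mul (Nat.mul c.A c.q) (Nat.sub 16 (Nat.mod (Nat.mul f u) 16))) fl c.ws)
                (Nat.add P (Nat.mul (Nat.mul f u) c.nn)) (Nat.add N (Nat.mul (Nat.mul f u) c.np)) true))) 14 1)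
           (Nat.div cf.mu (Nat.gcd cf.mu (del d cf.mu)))
         else true) (Nat.div rem c.A) oddsqf
    else
      (fun m => (fun dl f => uall (Nat.mul c.A dl) rem (fun u =>
            (one cf c (Nat.mod (Nat.add (Nat.mul f u) (Nat.sub cf.M (Nat.mul cf.j c.k))) cf.M) wp s
              (fun wp' s' => srchO nd cf cs (Nat.sub rem (Nat.mul (Nat.mul c.A dl) (Nat.mul u u)))
                xb wp' s'
                (updFl (Nat.mul (Nat.mul c.A c.q) (Nat.mul f u)) fl c.ws)
                (Nat.add P (Nat.mul (Nat.mul f u) c.np)) (Nat.add N (Nat.mul (Nat.mul f u) c.nn)) true)) &&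
            (one cf c (Nat.mod (Nat.add (Nat.sub cf.M (Nat.mod (Nat.mul f u) cf.M)) (Nat.sub cf.M (Nat.mul cf.j c.k))) cf.M) wp s
              (fun wp' s' => srchO nd cf cs (Nat.sub rem (Nat.mul (Nat.mul c.A dl) (Nat.mul u u)))
                xb wp' s'
                (updFl (Nat.mul (Nat.mul c.A c.q) (Nat.sub 16 (Nat.mod (Nat.mul f u) 16))) fl c.ws)
                (Nat.add P (Nat.mul (Nat.mul f u) c.nn)) (Nat.add N (Nat.mul (Nat.mul f u) c.np)) true))) 14 1)
          (del cf.mu m) (Nat.div cf.mu (Nat.gcd cf.mu m))) (del (xb.getD c.b 0) c.r))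

def srchI (nd : Nd) (cf : Cfg) (co : List Co) : List Co → Nat → Nat → Nat → List Nat → Nat → Nat → Bool → Bool
  | [], rem, wp, s, fl, P, N, nz =>
    bif nz then srchO nd cf co rem [0,0,0,0,0] wp s fl P N false else true
  | c :: cs, rem, wp, s, fl, P, N, nz =>
    (one cf c (Nat.mod (Nat.sub cf.M (Nat.mul cf.j c.k)) cf.M) wp s
      (fun wp' s' => srchI nd cf co cs rem wp' s' fl P N nz)) &&
    ((fun dl f => uall (Nat.mul c.A dl) rem (fun u =>
            (one cf c (Nat.mod (Nat.add (Nat.mul f u) (Nat.sub cf.M (Nat.mul cf.j c.k))) cf.M) wp s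
              (fun wp' s' => srchI nd cf co cs (Nat.sub rem (Nat.mul (Nat.mul c.A dl) (Nat.mul u u)))
                wp' s'
                (updFl (Nat.mul (Nat.mul c.A c.q) (Nat.mul f u)) fl c.ws)
                (Nat.add P (Nat.mul (Nat.mul f u) c.np)) (Nat.add N (Nat.mul (Nat.mul f u) c.nn)) true)) &&
            (one cf c (Nat.mod (Nat.add (Nat.sub cf.M (Nat.mod (Nat.mul f u) cf.M)) (Nat.sub cf.M (Nat.mul cf.j c.k))) cf.M) wp s
              (fun wp' s' => srchI nd cf co cs (Nat.sub rem (Nat.mul (Nat.mul c.A dl) (Nat.mul u u)))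
                wp' s'
                (updFl (Nat.mul (Nat.mul c.A c.q) (Nat.sub 16 (Nat.mod (Nat.mul f u) 16))) fl c.ws)
                (Nat.add P (Nat.mul (Nat.mul f u) c.nn)) (Nat.add N (Nat.mul (Nat.mul f u) c.np)) true))) 14 1)
          (del cf.mu c.r) (Nat.div cf.mu (Nat.gcd cf.mu c.r)))

def memN (a : Nat) : List Nat → Bool
  | [] => false
  | b :: t => Nat.beq a b || memN a t

def muL (r bd : Nat) : List Nat → List Nat → List Nat
  | [], acc => acc
  | d :: t, acc => bif Nat.ble d bd then
      muL r bd t (bif memN (del d r) acc then acc else del d r :: acc) else acc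

def muList (rhs : Nat) : List Co → List Nat → List Nat
  | [], acc => acc
  | c :: cs, acc => muList rhs cs (muL c.r (Nat.div rhs c.A) oddsqf acc)

def jall (F : Nat → Bool) : Nat → Bool
  | 0 => F 0
  | Nat.succ n => F (Nat.succ n) && jall F n

def chkRhs (nd : Nd) (ci co : List Co) (l var code : Nat) (rhs : Nat) (fl0 : List Nat) : Bool :=
  (muList rhs ci []).all fun mu =>
    jall (fun j => srchI nd ⟨l, Nat.mul 16 l, j, mu, var, code⟩ co ci rhs 0 0 fl0 0 0 false) (Nat.div l 2)

structure Ts where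
  l : Nat
  var : Nat
  k : List Nat
  q : List Nat
  np : List Nat
  nn : List Nat
  ws : List (List Nat)

def mkCo (As : List Nat) (st : St) (rho : List Nat) (t : Ts) (i : Nat) : Co :=
  ⟨As.getD i 0, 2^i, (st.getD i (0,0)).1, (st.getD i (0,0)).2, rho.getD i 0, t.k.getD i 0, t.q.getD i 0,
    t.np.getD i 0, t.nn.getD i 0, t.ws.map fun w => w.getD i 0⟩

structure Fam where
  As : List Nat
  code : Nat
  even : Bool
  s2 : Bool
  fb : List (Nat × Nat)

def norm (c : Co) : Co := c

def chkTest (F : Fam) (nd : Nd) (rho : List Nat) (t : Ts) : Bool :=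
  let cs := (List.range 5).map (mkCo F.As nd.st rho t)
  let ci := cs.filter fun c => Nat.beq c.b nd.blk
  let co := cs.filter fun c => !(Nat.beq c.b nd.blk)
  let q := 2 * t.l * t.l
  bif F.even then
    chkRhs nd ci co t.l t.var F.code (2*q) [] &&
    (bif F.s2 then chkRhs nd ci co t.l t.var F.code (4*q) (t.ws.map fun _ => 0) else true)
  else
    chkRhs nd ci co t.l t.var F.code q [] &&
    chkRhs nd ci co t.l t.var F.code (2*q) []

end RH6
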