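import Pool.Agent.RH6.W03

open Matrix

namespace RH6

/-- Local property at the vertex `j`: the cone `{x : (x, E e) ≤ 0 for all e}` is contained in
`cone(R) + ℝ R_j`. -/
def LC (G : Matrix (Fin 7) (Fin 7) ℤ) {n m : ℕ} (E : Fin n → (Fin 7 → ℤ))
    (R : Fin m → (Fin 7 → ℤ)) (j : Fin m) : Prop :=
  ∀ x : Fin 7 → ℝ, (∀ e, bR G x (toR (E e)) ≤ 0) →
    ∃ (l : Fin m → ℝ) (μ : ℝ), (∀ i, 0 ≤ l i) ∧ x = (∑ i, l i • toR (R i)) + μ • toR (R j)

/-- Row [RH-D01]: local cones imply the global cone.

Proof.  Let `f(x) = -(x, H)`, `H = toR h`; `f(R_i) > 0` for all `i` (`hR`), `f(x) > 0`.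
Let `P = convexHull ℝ {R_i / f(R_i)}`, a compact convex set (finite set of points, `m > 0`).
Suppose `x / f(x) ∉ P`.  By Hahn-Banach (`geometric_hahn_banach_compact_point` or
`geometric_hahn_banach_point_compact`) there is a continuous linear functional `F` with
`F(y) < F(x/f(x))` for all `y ∈ P`.  Let `j` maximise `F(R_j/f(R_j)) =: M` over the finite index
set, and put `K(y) = F(y) - M f(y)`, linear.  Then `K(R_i) ≤ 0` for all `i`, `K(R_j) = 0`, and
`K(x) = f(x) (F(x/f(x)) - M) > 0`.  By `LC` at `j`, `x = ∑ l_i R_i + μ R_j` with `l_i ≥ 0`, so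
`K(x) ≤ 0`, contradiction.  Hence `x/f(x) ∈ P`, so it is a convex combination of the
`R_i/f(R_i)` (`mem_convexHull_range` / `convexHull_range_eq_exists_affineCombination`,
`Finset.centerMass`), and `x` is a nonnegative combination of the `R_i`. -/
theorem cone_of_local {G : Matrix (Fin 7) (Fin 7) ℤ} {h : Fin 7 → ℤ} (hL : Lor G h)
    {n m : ℕ} (hm : 0 < m) (E : Fin n → (Fin 7 → ℤ)) (R : Fin m → (Fin 7 → ℤ))
    (hR : ∀ j, bZ G (R j) h < 0) (hLC : ∀ j, LC G E R j)
    (x : Fin 7 → ℝ) (hx : Fwd G h x) (hxE : ∀ e, bR G x (toR (E e)) ≤ 0) :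
    ∃ l : Fin m → ℝ, (∀ i, 0 ≤ l i) ∧ x = ∑ i, l i • toR (R i) := by
  classical
  set f : (Fin 7 → ℝ) → ℝ := fun y => - bR G y (toR h) with hf
  have hfR : ∀ i, 0 < f (toR (R i)) := by
    intro i
    have h1 := hR i
    simp only [hf, bR_toR]
    have : (bZ G (R i) h : ℝ) < 0 := by exact_mod_cast h1
    linarith
  have hfx : 0 < f x := by
    simp only [hf]
    linarith [hx.2]
  have hfadd : ∀ a b, f (a + b) = f a + f b := by
    intro a b
    simp only [hf, bR_add_left]
    ring
  have hfsmul : ∀ (t : ℝ) a, f (t • a) = t * f a := by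
    intro t a
    simp only [hf, bR_smul_left]
    ring
  set v : Fin m → (Fin 7 → ℝ) := fun i => (f (toR (R i)))⁻¹ • toR (R i) with hv
  set L : (Fin m → ℝ) →ₗ[ℝ] (Fin 7 → ℝ) :=
    { toFun := fun l => ∑ i, l i • v i
      map_add' := by
        intro a b
        simp only [Pi.add_apply, add_smul, Finset.sum_add_distrib]
      map_smul' := by
        intro t a
        simp only [Pi.smul_apply, smul_eq_mul, mul_smul, Finset.smul_sum, RingHom.id_apply] }
    with hLdef
  have hLapp : ∀ l, L l = ∑ i, l i • v i := fun l => rfl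
  have hLc : Continuous L := LinearMap.continuous_of_finiteDimensional L
  have hcomp : IsCompact (L '' stdSimplex ℝ (Fin m)) := (isCompact_stdSimplex ℝ (Fin m)).image hLc
  have hconv : Convex ℝ (L '' stdSimplex ℝ (Fin m)) :=
    (convex_stdSimplex ℝ (Fin m)).linear_image L
  by_cases hmem : (f x)⁻¹ • x ∈ L '' stdSimplex ℝ (Fin m)
  · obtain ⟨l, hl, hlx⟩ := hmem
    refine ⟨fun i => f x * (l i * (f (toR (R i)))⁻¹), ?_, ?_⟩
    · intro i
      exact mul_nonneg hfx.le (mul_nonneg (hl.1 i) (inv_nonneg.mpr (hfR i).le))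
    · have h1 : f x • L l = x := by
        rw [hlx, smul_smul, mul_inv_cancel₀ hfx.ne', one_smul]
      calc x = f x • L l := h1.symm
        _ = f x • ∑ i, l i • v i := by rw [hLapp]
        _ = ∑ i, (f x * (l i * (f (toR (R i)))⁻¹)) • toR (R i) := by
          rw [Finset.smul_sum]
          apply Finset.sum_congr rfl
          intro i _
          simp only [hv, smul_smul]
  · exfalso
    obtain ⟨F, u, hF1, hF2⟩ := geometric_hahn_banach_closed_point hconv hcomp.isClosed hmem
    have hne : (Finset.univ : Finset (Fin m)).Nonempty := ⟨⟨0, hm⟩, Finset.mem_univ _⟩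
    obtain ⟨j, _, hj⟩ := Finset.exists_max_image Finset.univ (fun i => F (v i)) hne
    have hvmem : v j ∈ L '' stdSimplex ℝ (Fin m) := by
      refine ⟨Pi.single j 1, ?_, ?_⟩
      · constructor
        · intro i
          by_cases hij : i = j
          · subst hij; simp
          · simp [Pi.single_eq_of_ne hij]
        · simp
      · rw [hLapp, Finset.sum_eq_single j]
        · simp
        · intro b _ hb
          simp [Pi.single_eq_of_ne hb]
        · intro hcon
          exact absurd (Finset.mem_univ _) hcon
    have hMu : F (v j) < u := hF1 _ hvmem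
    set M : ℝ := F (v j) with hM
    have hK : ∀ i, F (toR (R i)) - M * f (toR (R i)) ≤ 0 := by
      intro i
      have h1 : F (v i) ≤ M := hj i (Finset.mem_univ _)
      have h2 : F (v i) = (f (toR (R i)))⁻¹ * F (toR (R i)) := by
        rw [hv]
        simp
      rw [h2, inv_mul_le_iff₀ (hfR i)] at h1
      linarith
    have hKj : F (toR (R j)) - M * f (toR (R j)) = 0 := by
      have h2 : F (v j) = (f (toR (R j)))⁻¹ * F (toR (R j)) := by
        rw [hv]
        simp
      rw [hM, h2]
      have := (hfR j).ne'
      field_simp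
      ring
    have hKx : 0 < F x - M * f x := by
      have h1 : M < F ((f x)⁻¹ • x) := lt_trans hMu hF2
      have h2 : F ((f x)⁻¹ • x) = (f x)⁻¹ * F x := by simp
      rw [h2, lt_inv_mul_iff₀ hfx] at h1
      linarith
    obtain ⟨l, μ, hl, hxl⟩ := hLC j x hxE
    have hfsum : ∀ (s : Finset (Fin m)), f (∑ i ∈ s, l i • toR (R i))
        = ∑ i ∈ s, l i * f (toR (R i)) := by
      intro s
      induction s using Finset.induction_on with
      | empty =>
        simp only [Finset.sum_empty]
        have := hfsmul 0 0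
        simpa using this
      | insert a s ha ih =>
        rw [Finset.sum_insert ha, Finset.sum_insert ha, hfadd, hfsmul, ih]
    have hfx2 : f x = (∑ i, l i * f (toR (R i))) + μ * f (toR (R j)) := by
      conv_lhs => rw [hxl]
      rw [hfadd, hfsum, hfsmul]
    have hFx2 : F x = (∑ i, l i * F (toR (R i))) + μ * F (toR (R j)) := by
      conv_lhs => rw [hxl]
      simp
    have hneg : F x - M * f x ≤ 0 := by
      have h1 : F x - M * f x = (∑ i, l i * (F (toR (R i)) - M * f (toR (R i))))
          + μ * (F (toR (R j)) - M * f (toR (R j))) := by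
        rw [hfx2, hFx2]
        simp only [mul_sub, Finset.sum_sub_distrib, mul_add, Finset.mul_sum]
        have h2 : ∀ i : Fin m, l i * (M * f (toR (R i))) = M * (l i * f (toR (R i))) := by
          intro i; ring
        simp only [h2]
        ring
      rw [h1, hKj, mul_zero, add_zero]
      apply Finset.sum_nonpos
      intro i _
      exact mul_nonpos_of_nonneg_of_nonpos (hl i) (hK i)
    linarith

/-- Row [RH-D01]: reduction of `LC` to corners.  `T` is a finite set of indices of facets, and
`F` a list of pairs (set `f ⊆ T` of facets, index `i` of a vertex) with `(R_i, E e) < 0` for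
`e ∈ f` and `(R_i, E e) = 0` for `e ∈ T \ f`.  If for every `x` in the cone of `T` not
proportional to `R_j` there is such a pair with `(x, E e) < 0` for all `e ∈ f`, then `LC` holds.

Proof.  Show by strong induction on the number of `e ∈ T` with `(x, E e) < 0`: every `x` with
`(x, E e) ≤ 0` for all `e ∈ T` is of the form `∑ l_i R_i + μ R_j`, `l ≥ 0`.  If `x ∈ ℝ R_j` take
`l = 0`.  Otherwise take `(f,i)` as in the hypothesis; `f` is nonempty?  If `f = ∅` is allowed the
argument fails, so we assume `f.Nonempty`.  Let `t = min_{e ∈ f} (x,E e)/(R_i,E e) > 0`, attained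
at `e₀`, and `x' = x - t R_i`.  For `e ∈ f`: `(x', E e) = (x,E e) - t (R_i, E e) ≤ 0`; for
`e ∈ T \ f`: `(x', E e) = (x, E e) ≤ 0`; and `(x', E e₀) = 0 > (x, E e₀)`, while
`(x, E e) = 0` implies `(x', E e) = 0` (such `e` are not in `f`).  So the induction hypothesis
applies to `x'`. -/
theorem LC_of_corners {G : Matrix (Fin 7) (Fin 7) ℤ} {n m : ℕ} (E : Fin n → (Fin 7 → ℤ))
    (R : Fin m → (Fin 7 → ℤ)) (j : Fin m) (T : Finset (Fin n)) (F : List (Finset (Fin n) × Fin m))
    (hF : ∀ p ∈ F, p.1.Nonempty ∧ p.1 ⊆ T ∧ (∀ e ∈ p.1, bZ G (R p.2) (E e) < 0) ∧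
      ∀ e ∈ T, e ∉ p.1 → bZ G (R p.2) (E e) = 0)
    (hx : ∀ x : Fin 7 → ℝ, (∀ e ∈ T, bR G x (toR (E e)) ≤ 0) → (¬ ∃ μ : ℝ, x = μ • toR (R j)) →
      ∃ p ∈ F, ∀ e ∈ p.1, bR G x (toR (E e)) < 0) : LC G E R j := by
  classical
  have key : ∀ k : ℕ, ∀ x : Fin 7 → ℝ, (∀ e ∈ T, bR G x (toR (E e)) ≤ 0) →
      (T.filter (fun e => bR G x (toR (E e)) < 0)).card = k →
      ∃ (l : Fin m → ℝ) (μ : ℝ), (∀ i, 0 ≤ l i) ∧
        x = (∑ i, l i • toR (R i)) + μ • toR (R j) := by
    intro k
    induction k using Nat.strong_induction_on with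
    | _ k ih =>
      intro x hxT hcard
      by_cases hprop : ∃ μ : ℝ, x = μ • toR (R j)
      · obtain ⟨μ, hμ⟩ := hprop
        refine ⟨fun _ => 0, μ, fun _ => le_refl 0, ?_⟩
        rw [hμ]
        simp
      · obtain ⟨p, hpF, hpneg⟩ := hx x hxT hprop
        obtain ⟨hne, hsub, hneg, hzero⟩ := hF p hpF
        have hnegR : ∀ e ∈ p.1, bR G (toR (R p.2)) (toR (E e)) < 0 := by
          intro e he
          rw [bR_toR]
          exact_mod_cast hneg e he
        have hzeroR : ∀ e ∈ T, e ∉ p.1 → bR G (toR (R p.2)) (toR (E e)) = 0 := by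
          intro e he he2
          rw [bR_toR, hzero e he he2]
          simp
        obtain ⟨e0, he0, hmin⟩ := Finset.exists_min_image p.1
          (fun e => bR G x (toR (E e)) / bR G (toR (R p.2)) (toR (E e))) hne
        set t : ℝ := bR G x (toR (E e0)) / bR G (toR (R p.2)) (toR (E e0)) with ht
        have ht0 : 0 < t := div_pos_of_neg_of_neg (hpneg e0 he0) (hnegR e0 he0)
        have hval : ∀ e, bR G (x - t • toR (R p.2)) (toR (E e))
            = bR G x (toR (E e)) - t * bR G (toR (R p.2)) (toR (E e)) := by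
          intro e
          rw [bR_sub_left, bR_smul_left]
        have hle : ∀ e ∈ T, bR G (x - t • toR (R p.2)) (toR (E e)) ≤ 0 := by
          intro e he
          rw [hval]
          by_cases hep : e ∈ p.1
          · have h1 := hmin e hep
            have h2 := hnegR e hep
            rw [le_div_iff_of_neg h2] at h1
            linarith
          · rw [hzeroR e he hep, mul_zero, sub_zero]
            exact hxT e he
        have hzero0 : bR G (x - t • toR (R p.2)) (toR (E e0)) = 0 := by
          rw [hval, ht]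
          have := (hnegR e0 he0).ne
          field_simp
          ring
        have hlt : (T.filter (fun e => bR G (x - t • toR (R p.2)) (toR (E e)) < 0)).card < k := by
          rw [← hcard]
          apply Finset.card_lt_card
          refine ⟨?_, ?_⟩
          · intro e he
            rw [Finset.mem_filter] at he ⊢
            refine ⟨he.1, ?_⟩
            by_cases hep : e ∈ p.1
            · exact hpneg e hep
            · have h1 := he.2
              rw [hval, hzeroR e he.1 hep, mul_zero, sub_zero] at h1
              exact h1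
          · intro hcon
            have h1 : e0 ∈ T.filter (fun e => bR G x (toR (E e)) < 0) :=
              Finset.mem_filter.mpr ⟨hsub he0, hpneg e0 he0⟩
            have h2 := Finset.mem_filter.mp (hcon h1)
            have h3 := h2.2
            rw [hzero0] at h3
            exact lt_irrefl _ h3
        obtain ⟨l, μ, hl, hxl⟩ := ih _ hlt (x - t • toR (R p.2)) hle rfl
        refine ⟨fun i => l i + (if i = p.2 then t else 0), μ, ?_, ?_⟩
        · intro i
          by_cases hi : i = p.2
          · simp only [hi, if_true]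
            have := hl p.2
            linarith
          · simp only [hi, if_false, add_zero]
            exact hl i
        · have h1 : x = (x - t • toR (R p.2)) + t • toR (R p.2) := by
            rw [sub_add_cancel]
          rw [h1, hxl]
          simp only [add_smul, Finset.sum_add_distrib, ite_smul, zero_smul,
            Finset.sum_ite_eq', Finset.mem_univ, if_true]
          abel
  intro x hxE
  exact key _ x (fun e _ => hxE e) rfl

end RH6
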