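import Pool.Agent.RH6.W08

open Matrix

namespace RH6

theorem w09_vec (G : Matrix (Fin 7) (Fin 7) ℤ) (r : Fin 7 → ℤ) (y : Fin 7 → ℝ) :
    bR G (toR r) y = ∑ j, ((r ᵥ* G) j : ℝ) * y j := by
  unfold bR
  rw [Matrix.dotProduct_mulVec]
  have h1 : (toR r) ᵥ* (G.map (fun n : ℤ => (n : ℝ))) = fun j => ((r ᵥ* G) j : ℝ) := by
    ext j
    simp only [Matrix.vecMul, dotProduct, toR, Matrix.map_apply]
    push_cast
    rfl
  rw [h1]
  rfl

theorem w09_vec_ne {G : Matrix (Fin 7) (Fin 7) ℤ} {h : Fin 7 → ℤ} (hL : Lor G h)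
    {r : Fin 7 → ℤ} (hr : r ≠ 0) : r ᵥ* G ≠ 0 := by
  intro h0
  apply toR_ne_zero hr
  apply nondeg hL
  intro y
  rw [w09_vec, h0]
  simp

/-- Row [RH-W09]: generic forward vectors exist (even generic for all integer vectors).
Proof: let `t` be a transcendental real number (e.g. a Liouville number, or by cardinality:
algebraic reals are countable) and let `c = toR h + ε • y`, `y i = t ^ (i+1)`, with `ε ≠ 0` rational
and so small that `c` is still forward (the two conditions are open, `ε ↦ bR G c c` is a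
polynomial).  For an integer vector `r ≠ 0` the integer vector `z = G r` is nonzero (`det_ne`), and
`bR G (toR r) c = (z, h) + ε ∑ z_i t^(i+1)` (`G` symmetric) is a nonzero polynomial in `t` with
rational coefficients, so it is nonzero. -/
theorem exists_gen {G : Matrix (Fin 7) (Fin 7) ℤ} {h : Fin 7 → ℤ} (hL : Lor G h) :
    ∃ c, Fwd G h c ∧ ∀ r : Fin 7 → ℤ, r ≠ 0 → bR G (toR r) c ≠ 0 := by
  classical
  have htr : Transcendental ℤ (liouvilleNumber ((2 : ℕ) : ℝ)) :=
    transcendental_liouvilleNumber (le_refl 2)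
  set t : ℝ := liouvilleNumber ((2 : ℕ) : ℝ) with ht
  set y : Fin 7 → ℝ := fun i => t ^ ((i : ℕ) + 1) with hy
  obtain ⟨k, hk⟩ := exists_nat_gt (2 * |bR G y (toR h)| + |bR G y y| + 1)
  have hk1 : (1 : ℝ) < k := by
    have := abs_nonneg (bR G y (toR h))
    have := abs_nonneg (bR G y y)
    linarith
  have hN : bR G (toR h) (toR h) ≤ -1 := by
    rw [bR_toR]
    have := hL.neg
    have h2 : bZ G h h ≤ -1 := by omega
    exact_mod_cast h2
  refine ⟨(k : ℝ) • toR h + y, ⟨?_, ?_⟩, ?_⟩
  · rw [bR_add_left, bR_add_right, bR_add_right, bR_smul_left, bR_smul_right, bR_smul_left,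
      bR_smul_right, bR_symm hL.symm (toR h) y]
    have h1 := le_abs_self (bR G y (toR h))
    have h2 := le_abs_self (bR G y y)
    have h3 := abs_nonneg (bR G y (toR h))
    have h4 := abs_nonneg (bR G y y)
    have h5 : (k : ℝ) * (k * bR G (toR h) (toR h)) ≤ - (k * k) := by nlinarith
    have h6 : (k : ℝ) * k > k * (2 * |bR G y (toR h)| + |bR G y y| + 1) := by nlinarith
    nlinarith
  · rw [bR_add_left, bR_smul_left]
    have h1 := le_abs_self (bR G y (toR h))
    have h3 := abs_nonneg (bR G y (toR h))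
    have h4 := abs_nonneg (bR G y y)
    nlinarith
  · intro r hr h0
    have hz : r ᵥ* G ≠ 0 := w09_vec_ne hL hr
    obtain ⟨j, hj⟩ : ∃ j, (r ᵥ* G) j ≠ 0 := by
      by_contra hcon
      push Not at hcon
      exact hz (funext hcon)
    apply htr
    refine ⟨Polynomial.C ((k : ℤ) * bZ G r h) +
      ∑ i : Fin 7, Polynomial.C ((r ᵥ* G) i) * Polynomial.X ^ ((i : ℕ) + 1), ?_, ?_⟩
    · intro hP
      have hc := congrArg (fun P => Polynomial.coeff P ((j : ℕ) + 1)) hP
      simp only [Polynomial.coeff_add, Polynomial.finsetSum_coeff, Polynomial.coeff_C_mul,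
        Polynomial.coeff_X_pow, Polynomial.coeff_zero, Polynomial.coeff_C_succ, zero_add] at hc
      rw [Finset.sum_eq_single j] at hc
      · simp at hc
        exact hj hc
      · intro b _ hb
        have hne : ¬ ((j : ℕ) + 1 = (b : ℕ) + 1) := by
          intro h
          apply hb
          apply Fin.ext
          omega
        rw [if_neg hne, mul_zero]
      · intro h
        exact absurd (Finset.mem_univ _) h
    · rw [bR_add_right, bR_smul_right, bR_toR, w09_vec] at h0
      simp only [map_add, map_sum, map_mul, map_pow, Polynomial.aeval_C, Polynomial.aeval_X]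
      rw [← h0]
      simp [hy]

/-- Row [RH-W09]: a criterion for `W(G)` to have infinite index: an element `g` of infinite order
of `O'(G,ℤ)` fixing a chamber.
Proof: `g^m ∈ W(G)` for some `m > 0`.  Let `c` be as in the hypotheses.  If `r` is a root
positive on `c`, then so is `g⁻¹ r` (`(g⁻¹ r, c) = (r, g c) > 0`), hence by induction
`(r, g^m c) = (g^{-m} r, c) > 0`.  By `free_chambers`, `g^m = 1`, contradiction. -/
theorem not_tor {G : Matrix (Fin 7) (Fin 7) ℤ} {h : Fin 7 → ℤ} (hL : Lor G h)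
    {g : GL (Fin 7) ℤ} (hg : g ∈ OG G h) (hinf : ∀ m : ℕ, 0 < m → g ^ m ≠ 1)
    {c : Fin 7 → ℝ} (hc : Fwd G h c) (hgen : Gen G c)
    (hN : ∀ r, IsRoot G r → 0 < bR G (toR r) c → 0 < bR G (toR r) (actR g c)) :
    ¬ ∀ g ∈ OG G h, ∃ m : ℕ, 0 < m ∧ g ^ m ∈ WG G := by
  intro hall
  obtain ⟨m, hm, hmW⟩ := hall g hg
  have key : ∀ k : ℕ, ∀ r, IsRoot G r → 0 < bR G (toR r) c →
      0 < bR G (toR r) (actR (g ^ k) c) := by
    intro k
    induction k with
    | zero =>
      intro r _ h0
      rw [pow_zero, actR_one]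
      exact h0
    | succ k ih =>
      intro r hr h0
      rw [pow_succ', actR_mul, bR_act_right hg.1, actR_toR]
      have hginv : g⁻¹ ∈ OG G h := (OG G h).inv_mem hg
      apply ih _ (root_map hginv.1 hr)
      rw [← actR_toR, ← bR_act_right hg.1]
      exact hN r hr h0
  exact hinf m hm (free_chambers hL hc hgen hmW (key m))

/-- Row [RH-W09]: an element `g ∈ O'(G,ℤ)` such that for some `z`, `t = g z - z` is nonzero with
`(t,t) ≤ 0` has infinite order.
Proof: suppose `g^m = 1`, `m > 0`.  Let `y = ∑_{i<m} g^i (toR h)`; it is forward (`fwd_add`; each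
`g^i` preserves the forward cone, `fwd_h`), and `g y = y`.  `(t, y) = (g z, y) - (z, y)
= (g z, g y) - (z,y) = 0`, so `(t,t) > 0` by `pos_of_orth`, contradiction. -/
theorem inf_order {G : Matrix (Fin 7) (Fin 7) ℤ} {h : Fin 7 → ℤ} (hL : Lor G h)
    {g : GL (Fin 7) ℤ} (hg : g ∈ OG G h) (z : Fin 7 → ℤ) (ht : g.1 *ᵥ z - z ≠ 0)
    (ht2 : bZ G (g.1 *ᵥ z - z) (g.1 *ᵥ z - z) ≤ 0) : ∀ m : ℕ, 0 < m → g ^ m ≠ 1 := by
  intro m hm hgm
  have hfw : ∀ k : ℕ, Fwd G h (actR (g ^ k) (toR h)) := by
    intro k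
    exact (((OG G h).pow_mem hg k).2 (toR h)).1 (fwd_h hL)
  have hsum : ∀ k : ℕ, Fwd G h (∑ i ∈ Finset.range (k + 1), actR (g ^ i) (toR h)) := by
    intro k
    induction k with
    | zero => simpa using hfw 0
    | succ k ih =>
      rw [Finset.sum_range_succ]
      exact fwd_add hL ih (hfw _)
  have hact : ∀ (s : Finset ℕ) (f : ℕ → (Fin 7 → ℝ)),
      actR g (∑ i ∈ s, f i) = ∑ i ∈ s, actR g (f i) := by
    intro s f
    classical
    induction s using Finset.induction_on with
    | empty =>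
      simp only [Finset.sum_empty]
      have := actR_smul g 0 0
      simpa using this
    | insert a s ha ih =>
      rw [Finset.sum_insert ha, Finset.sum_insert ha, actR_add, ih]
  obtain ⟨k, rfl⟩ : ∃ k, m = k + 1 := ⟨m - 1, by omega⟩
  set y : Fin 7 → ℝ := ∑ i ∈ Finset.range (k + 1), actR (g ^ i) (toR h) with hy
  have hgy : actR g y = y := by
    rw [hy, hact]
    have h1 : ∀ i ∈ Finset.range (k + 1), actR g (actR (g ^ i) (toR h))
        = actR (g ^ (i + 1)) (toR h) := by
      intro i _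
      rw [← actR_mul, ← pow_succ']
    rw [Finset.sum_congr rfl h1, Finset.sum_range_succ, hgm,
      Finset.sum_range_succ' (fun i => actR (g ^ i) (toR h)) k, pow_zero]
  have hyf : Fwd G h y := hsum k
  have hty : bR G (toR (g.1 *ᵥ z - z)) y = 0 := by
    rw [toR_sub, bR_sub_left, ← actR_toR]
    nth_rewrite 1 [← hgy]
    rw [bR_act hg.1, sub_self]
  have hpos := pos_of_orth hL hyf.1 hty (toR_ne_zero ht)
  rw [bR_toR] at hpos
  have : (0 : ℤ) < bZ G (g.1 *ᵥ z - z) (g.1 *ᵥ z - z) := by exact_mod_cast hpos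
  omega

end RH6
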