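import Pool.Agent.RH6.D01
import Pool.Agent.RH6.W09

open Matrix

namespace RH6

theorem d02_WE_le {G : Matrix (Fin 7) (Fin 7) ℤ} {h : Fin 7 → ℤ} (hL : Lor G h)
    {n : ℕ} (E : Fin n → (Fin 7 → ℤ))
    (hE : ∀ e, 0 < bZ G (E e) (E e) ∧ ∀ x : Fin 7 → ℤ, bZ G (E e) (E e) ∣ 2 * bZ G x (E e)) :
    WE G E ≤ OG G h := by
  unfold WE
  rw [Subgroup.closure_le]
  rintro g ⟨e, hg⟩
  obtain ⟨s, hs, hsr⟩ := exists_refl hL (hE e).1 (hE e).2
  have : g = s := refl_unique (hE e).1.ne' hg hsr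
  rw [this]
  exact hs

theorem d02_fwd_act {G : Matrix (Fin 7) (Fin 7) ℤ} {h : Fin 7 → ℤ}
    {g : GL (Fin 7) ℤ} (hg : g ∈ OG G h) {y : Fin 7 → ℤ} (hy : Fwd G h (toR y)) :
    Fwd G h (toR (g.1 *ᵥ y)) := by
  rw [← actR_toR]
  exact (hg.2 _).1 hy

/-- step (1) -/
theorem d02_reduce {G : Matrix (Fin 7) (Fin 7) ℤ} {h : Fin 7 → ℤ} (hL : Lor G h)
    {n : ℕ} (E : Fin n → (Fin 7 → ℤ))
    (hE : ∀ e, 0 < bZ G (E e) (E e) ∧ ∀ x : Fin 7 → ℤ, bZ G (E e) (E e) ∣ 2 * bZ G x (E e))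
    (ρ : Fin 7 → ℤ) (hρ : bZ G ρ ρ < 0) (hρh : bZ G ρ h < 0) (hρE : ∀ e, bZ G ρ (E e) < 0)
    (y : Fin 7 → ℤ) (hy : Fwd G h (toR y)) :
    ∃ w ∈ WE G E, ∀ e, bZ G (w.1 *ᵥ y) (E e) ≤ 0 := by
  classical
  have hρf : Fwd G h (toR ρ) := by
    refine ⟨?_, ?_⟩
    · rw [bR_toR]; exact_mod_cast hρ
    · rw [bR_toR]; exact_mod_cast hρh
  have hex : ∃ k : ℕ, ∃ w ∈ WE G E, (-(bZ G (w.1 *ᵥ y) ρ)).toNat = k :=
    ⟨_, 1, (WE G E).one_mem, rfl⟩
  obtain ⟨w, hw, hwk⟩ := Nat.find_spec hex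
  refine ⟨w, hw, ?_⟩
  intro e
  by_contra hcon
  push Not at hcon
  obtain ⟨s, hs, hsr⟩ := exists_refl hL (hE e).1 (hE e).2
  have hsW : s ∈ WE G E := Subgroup.subset_closure ⟨e, hsr⟩
  have hswW : s * w ∈ WE G E := (WE G E).mul_mem hsW hw
  have hval : (s * w).1 *ᵥ y = s.1 *ᵥ (w.1 *ᵥ y) := by
    have : (s * w).1 = s.1 * w.1 := rfl
    rw [this, Matrix.mulVec_mulVec]
  have hneg1 : bZ G (w.1 *ᵥ y) ρ < 0 := by
    have h1 := neg_of_fwd hL (d02_fwd_act (d02_WE_le hL E hE hw) hy) hρf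
    rw [bR_toR] at h1
    exact_mod_cast h1
  have hneg2 : bZ G ((s * w).1 *ᵥ y) ρ < 0 := by
    have h1 := neg_of_fwd hL (d02_fwd_act (d02_WE_le hL E hE hswW) hy) hρf
    rw [bR_toR] at h1
    exact_mod_cast h1
  have hform := congrArg (fun z => bZ G z ρ) (hsr (w.1 *ᵥ y))
  simp only [bZ_smul_left, bZ_sub_left] at hform
  rw [← hval] at hform
  have hEρ : bZ G (E e) ρ < 0 := by
    rw [bZ_symm hL.symm]
    exact hρE e
  have hlt : bZ G (w.1 *ᵥ y) ρ < bZ G ((s * w).1 *ᵥ y) ρ := by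
    have h1 : 0 < bZ G (E e) (E e) := (hE e).1
    have h2 : bZ G (w.1 *ᵥ y) (E e) * bZ G (E e) ρ < 0 := mul_neg_of_pos_of_neg hcon hEρ
    nlinarith
  have hmin := Nat.find_min' hex ⟨s * w, hswW, rfl⟩
  rw [← hwk] at hmin
  omega

/-- step (2) -/
theorem d02_S_finite {G : Matrix (Fin 7) (Fin 7) ℤ} {h : Fin 7 → ℤ} (hL : Lor G h)
    {n m : ℕ} (E : Fin n → (Fin 7 → ℤ)) (R : Fin m → (Fin 7 → ℤ)) (D : ℤ)
    (hR : ∀ j, R j ≠ 0 ∧ bZ G (R j) (R j) ≤ 0 ∧ bZ G (R j) h < 0)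
    (hcone : ∀ x : Fin 7 → ℝ, Fwd G h x → (∀ e, bR G x (toR (E e)) ≤ 0) →
      ∃ l : Fin m → ℝ, (∀ i, 0 ≤ l i) ∧ x = ∑ i, l i • toR (R i)) :
    {y : Fin 7 → ℤ | Fwd G h (toR y) ∧ bZ G y y = D ∧ ∀ e, bZ G y (E e) ≤ 0}.Finite := by
  classical
  have hsumb : ∀ (l : Fin m → ℝ) (z : Fin 7 → ℝ) (s : Finset (Fin m)),
      bR G (∑ i ∈ s, l i • toR (R i)) z = ∑ i ∈ s, l i * bR G (toR (R i)) z := by
    intro l z s
    induction s using Finset.induction_on with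
    | empty => simp [bR_zero_left]
    | insert a s ha ih =>
      rw [Finset.sum_insert ha, Finset.sum_insert ha, bR_add_left, bR_smul_left, ih]
  set C : ℝ := ∑ j, |bR G (toR (R j)) (toR h)| with hC
  apply (finite_bounded hL (D : ℝ) (C * (-(D : ℝ)))).subset
  rintro y ⟨hyf, hyD, hyE⟩
  refine ⟨by rw [hyD], ?_⟩
  obtain ⟨l, hl, hyl⟩ := hcone (toR y) hyf (by
    intro e
    rw [bR_toR]
    exact_mod_cast hyE e)
  have hRy : ∀ j, bR G (toR (R j)) (toR y) ≤ -1 := by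
    intro j
    have h1 : bR G (toR (R j)) (toR y) < 0 := by
      apply neg_of_closed hL (toR_ne_zero (hR j).1) _ _ hyf
      · rw [bR_toR]; exact_mod_cast (hR j).2.1
      · rw [bR_toR]; exact_mod_cast (hR j).2.2.le
    rw [bR_toR] at h1 ⊢
    have h2 : bZ G (R j) y < 0 := by exact_mod_cast h1
    have h3 : bZ G (R j) y ≤ -1 := by omega
    exact_mod_cast h3
  have hlsum : ∑ j, l j ≤ -(D : ℝ) := by
    have h1 : (D : ℝ) = ∑ i, l i * bR G (toR (R i)) (toR y) := by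
      rw [← hyD, ← bR_toR, ← hsumb, ← hyl]
    rw [h1, ← Finset.sum_neg_distrib]
    apply Finset.sum_le_sum
    intro j _
    have := hRy j
    have := hl j
    nlinarith
  have hlj : ∀ j, l j ≤ -(D : ℝ) := fun j =>
    le_trans (Finset.single_le_sum (fun i _ => hl i) (Finset.mem_univ j)) hlsum
  rw [hyl, hsumb]
  calc |∑ i, l i * bR G (toR (R i)) (toR h)| ≤ ∑ i, |l i * bR G (toR (R i)) (toR h)| :=
        Finset.abs_sum_le_sum_abs _ _
    _ ≤ ∑ i, |bR G (toR (R i)) (toR h)| * (-(D : ℝ)) := by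
        apply Finset.sum_le_sum
        intro i _
        rw [abs_mul, abs_of_nonneg (hl i), mul_comm]
        exact mul_le_mul_of_nonneg_left (hlj i) (abs_nonneg _)
    _ = C * (-(D : ℝ)) := by rw [hC, Finset.sum_mul]

/-- step (3): finitely many isometries map `ρ` into a finite set of vectors of negative norm -/
theorem d02_T_finite {G : Matrix (Fin 7) (Fin 7) ℤ} {h : Fin 7 → ℤ} (hL : Lor G h)
    (ρ : Fin 7 → ℤ) {S : Set (Fin 7 → ℤ)} (hS : S.Finite) (hSneg : ∀ y ∈ S, bZ G y y < 0) :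
    {g : GL (Fin 7) ℤ | g ∈ OG G h ∧ g.1 *ᵥ ρ ∈ S}.Finite := by
  classical
  set A : ℝ := ∑ i : Fin 7, |(bZ G (Pi.single i 1) (Pi.single i 1) : ℝ)| with hA
  set B : ℝ := ∑ i : Fin 7, |(bZ G (Pi.single i 1) ρ : ℝ)| with hB
  have hF : (⋃ y ∈ S, {u : Fin 7 → ℤ | (bZ G u u : ℝ) ≤ A ∧
      |bR G (toR u) (toR y)| ≤ B}).Finite := by
    apply Set.Finite.biUnion hS
    intro y hy
    have hLy : Lor G y := by
      refine ⟨hL.symm, hSneg y hy, ?_⟩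
      intro x hx0 hx
      apply pos_of_orth hL _ hx0 hx
      rw [bR_toR]
      exact_mod_cast hSneg y hy
    exact finite_bounded hLy A B
  have hinj : Function.Injective
      (fun (g : GL (Fin 7) ℤ) (i : Fin 7) => g.1 *ᵥ (Pi.single i (1 : ℤ))) := by
    intro g g' hgg
    apply Units.ext
    ext i j
    have h1 := congrFun (congrFun hgg j) i
    simpa [Matrix.mulVec_single] using h1
  have hpi : {f : Fin 7 → (Fin 7 → ℤ) | ∀ i, f i ∈ (⋃ y ∈ S, {u : Fin 7 → ℤ |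
      (bZ G u u : ℝ) ≤ A ∧ |bR G (toR u) (toR y)| ≤ B})}.Finite :=
    Set.Finite.pi' (fun _ => hF)
  apply (hpi.preimage hinj.injOn).subset
  rintro g ⟨hg, hgS⟩
  simp only [Set.mem_preimage, Set.mem_ofPred_eq]
  intro i
  simp only [Set.mem_iUnion]
  refine ⟨g.1 *ᵥ ρ, hgS, ?_, ?_⟩
  · rw [bZ_act hg.1]
    calc (bZ G (Pi.single i 1) (Pi.single i 1) : ℝ)
        ≤ |(bZ G (Pi.single i 1) (Pi.single i 1) : ℝ)| := le_abs_self _
      _ ≤ A := Finset.single_le_sum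
          (f := fun i : Fin 7 => |(bZ G (Pi.single i 1) (Pi.single i 1) : ℝ)|)
          (fun i _ => abs_nonneg _) (Finset.mem_univ i)
  · rw [bR_toR, bZ_act hg.1]
    exact Finset.single_le_sum
          (f := fun i : Fin 7 => |(bZ G (Pi.single i 1) ρ : ℝ)|)
          (fun i _ => abs_nonneg _) (Finset.mem_univ i)

/-- Row [RH-D02]: finite index from the cone property.

Hypotheses: every `E e` has positive norm dividing `2 (x, E e)` for all integral `x`; `ρ` is an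
integral forward vector with `(ρ, E e) < 0` for all `e`; the vectors `R_j` are nonzero closed
forward; every forward `x` with `(x, E e) ≤ 0` for all `e` is in the cone of the `R_j`.

Proof.  Let `W = WE G E` (contains the reflection `s_e ∈ O'` for every `e`, `exists_refl`;
`W ≤ O'` as every reflection in `E e` equals `s_e` by `refl_unique`).
(1) Let `y` be an integral forward vector.  Among all `w y`, `w ∈ W`, choose one with
`-(w y, ρ)` minimal (positive integers by `neg_of_fwd`).  Then `(w y, E e) ≤ 0` for all `e`: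
otherwise `s_e w y = w y - κ E e` with `κ = 2(w y,E e)/(E e,E e) > 0` has
`-(s_e w y, ρ) = -(w y, ρ) + κ (E e, ρ) < -(w y, ρ)`.
(2) Let `d = -(ρ,ρ) > 0`.  The set `S` of integral forward `y` with `(y,y) = -d` and
`(y, E e) ≤ 0` for all `e` is finite: `y = ∑ l_j R_j`, `l ≥ 0`, and `-(y,R_j) ≥ 1` (a positive
integer by `neg_of_closed`), so `d = -(y,y) = ∑ l_j (-(y,R_j)) ≥ ∑ l_j`; hence `y` lies in the
bounded set `{∑ l_j R_j : l ≥ 0, ∑ l_j ≤ d}`, which contains finitely many integral vectors.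
(3) The stabilizer `Z` of `ρ` in `O'` is finite: for `g ∈ Z` and a standard basis vector `ε_i`,
`(g ε_i, g ε_i) = (ε_i,ε_i)`, `(g ε_i, ρ) = (ε_i, ρ)`; the vectors with bounded norm and bounded
product with `ρ` are finitely many (`finite_bounded` for `h := ρ`; `Lor G ρ` holds by
`pos_of_orth`), so there are finitely many possible matrices `g`.
(4) For `g ∈ O'` there is `w ∈ W` with `w g ρ ∈ S` by (1), (2).  For every `y ∈ S` of the form
`w g ρ` fix one such element `g_y = w g ∈ O'`, `g_y ρ = y`.  If `w g ρ = y` then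
`z = g_y⁻¹ w g ∈ Z` and `g = w⁻¹ g_y z`.  So `O'` is the union of the finitely many sets
`W g_y z`, and `W` has finite (relative) index in `O'` (use e.g.
`Subgroup.relIndex`, right cosets; or: the map `O' → Set`-valued ... any argument: the number of
left cosets `g W` equals the number of right cosets `W g⁻¹`). -/
theorem finite_index {G : Matrix (Fin 7) (Fin 7) ℤ} {h : Fin 7 → ℤ} (hL : Lor G h)
    {n m : ℕ} (E : Fin n → (Fin 7 → ℤ)) (R : Fin m → (Fin 7 → ℤ))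
    (hE : ∀ e, 0 < bZ G (E e) (E e) ∧ ∀ x : Fin 7 → ℤ, bZ G (E e) (E e) ∣ 2 * bZ G x (E e))
    (ρ : Fin 7 → ℤ) (hρ : bZ G ρ ρ < 0) (hρh : bZ G ρ h < 0) (hρE : ∀ e, bZ G ρ (E e) < 0)
    (hR : ∀ j, R j ≠ 0 ∧ bZ G (R j) (R j) ≤ 0 ∧ bZ G (R j) h < 0)
    (hcone : ∀ x : Fin 7 → ℝ, Fwd G h x → (∀ e, bR G x (toR (E e)) ≤ 0) →
      ∃ l : Fin m → ℝ, (∀ i, 0 ≤ l i) ∧ x = ∑ i, l i • toR (R i)) :
    (WE G E).relIndex (OG G h) ≠ 0 := by
  classical
  set S : Set (Fin 7 → ℤ) :=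
    {y : Fin 7 → ℤ | Fwd G h (toR y) ∧ bZ G y y = bZ G ρ ρ ∧ ∀ e, bZ G y (E e) ≤ 0} with hSdef
  have hS : S.Finite := d02_S_finite hL E R (bZ G ρ ρ) hR hcone
  have hT := d02_T_finite hL ρ hS (fun y hy => by rw [hy.2.1]; exact hρ)
  set T : Set (GL (Fin 7) ℤ) := {g : GL (Fin 7) ℤ | g ∈ OG G h ∧ g.1 *ᵥ ρ ∈ S} with hTdef
  have hρf : Fwd G h (toR ρ) := by
    refine ⟨?_, ?_⟩
    · rw [bR_toR]; exact_mod_cast hρ
    · rw [bR_toR]; exact_mod_cast hρh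
  have : Finite T := hT
  have hsurj : Function.Surjective
      (fun g : T => (QuotientGroup.mk (⟨g.1⁻¹, (OG G h).inv_mem g.2.1⟩ : OG G h) :
        (OG G h) ⧸ ((WE G E).subgroupOf (OG G h)))) := by
    intro q
    obtain ⟨g, rfl⟩ := QuotientGroup.mk_surjective q
    have hginv : (g : GL (Fin 7) ℤ)⁻¹ ∈ OG G h := (OG G h).inv_mem g.2
    have hyf : Fwd G h (toR ((g : GL (Fin 7) ℤ)⁻¹.1 *ᵥ ρ)) := d02_fwd_act hginv hρf
    obtain ⟨w, hw, hwE⟩ := d02_reduce hL E hE ρ hρ hρh hρE _ hyf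
    have hwO : w ∈ OG G h := d02_WE_le hL E hE hw
    have hwgO : w * (g : GL (Fin 7) ℤ)⁻¹ ∈ OG G h := (OG G h).mul_mem hwO hginv
    have hval : (w * (g : GL (Fin 7) ℤ)⁻¹).1 *ᵥ ρ = w.1 *ᵥ ((g : GL (Fin 7) ℤ)⁻¹.1 *ᵥ ρ) := by
      have : (w * (g : GL (Fin 7) ℤ)⁻¹).1 = w.1 * (g : GL (Fin 7) ℤ)⁻¹.1 := rfl
      rw [this, Matrix.mulVec_mulVec]
    have hmem : w * (g : GL (Fin 7) ℤ)⁻¹ ∈ T := by
      refine ⟨hwgO, d02_fwd_act hwgO hρf, bZ_act hwgO.1 ρ ρ, ?_⟩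
      intro e
      rw [hval]
      exact hwE e
    refine ⟨⟨w * (g : GL (Fin 7) ℤ)⁻¹, hmem⟩, ?_⟩
    rw [QuotientGroup.eq, Subgroup.mem_subgroupOf]
    simpa using hw
  have : Finite ((OG G h) ⧸ ((WE G E).subgroupOf (OG G h))) := Finite.of_surjective _ hsurj
  exact Subgroup.index_ne_zero_of_finite

end RH6
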