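import Pool.Agent.RH6.Poly

namespace RH6.P

/-!
Row [RH-D03]: arithmetic of the codes.  `X = 4294967296 = 2^32`.  A natural number `a` with
`wf 7 a = true` is `a = ∑_{k<7} a_k X^k` with `a_k = a / X^k % X < 16384`, and
`vecN a k = a_k - 8192`, `funN a k = a_{6-k} - 8192`.

Main computation: for `a = ∑ a_i X^i`, `b = ∑ b_j X^j` with all digits `< 16384`,
`a * b = ∑_{k=0}^{12} c_k X^k`, `c_k = ∑_{i+j=k} a_i b_j ≤ 7 * 16384² < X`, so
`(a * b) / X^6 % X = c_6 = ∑_i a_i b_{6-i}`.  With `b = Ones = ∑ X^j` this gives the digit sum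
(`sumd`), and `∑ (a_i - 8192)(b_{6-i} - 8192) = c_6 - 8192 (∑ a_i + ∑ b_i) + 7 * 8192²`,
`7 * 8192² = 469762048`.
Suggestion: write `a`, `b` explicitly with 7 digits each, get the product by `ring`, and use
`Nat.div_mod_unique`/`Nat.div_add_mod`-style uniqueness (`omega` may be slow with such large
constants; it may help to first prove the statement for a general base `X` and bound `X > 7 M²`,
e.g. `∑_{k=0}^{12} c_k X^k = (low) + X^6 (c_6 + X (high))` with `low < X^6`).
-/

theorem d03_wf_gen (n : ℕ) : ∀ a : ℕ, wf n a = true →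
    a = ∑ k ∈ Finset.range n, (a / 4294967296 ^ k % 4294967296) * 4294967296 ^ k ∧
    ∀ k, k < n → a / 4294967296 ^ k % 4294967296 < 16384 := by
  induction n with
  | zero =>
    intro a ha
    have : a = 0 := Nat.eq_of_beq_eq_true ha
    subst this
    simp
  | succ n ih =>
    intro a ha
    have h1 : (Nat.blt (Nat.mod a 4294967296) 16384 && wf n (Nat.div a 4294967296)) = true := ha
    rw [Bool.and_eq_true] at h1
    obtain ⟨h2, h3⟩ := h1
    have h2' : a % 4294967296 < 16384 := by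
      have := Nat.le_of_ble_eq_true h2
      exact this
    obtain ⟨h4, h5⟩ := ih (a / 4294967296) h3
    have hdiv : ∀ k, a / 4294967296 / 4294967296 ^ k = a / 4294967296 ^ (k + 1) := by
      intro k
      rw [Nat.div_div_eq_div_mul, pow_succ']
    constructor
    · rw [Finset.sum_range_succ']
      simp only [pow_zero, Nat.div_one, mul_one]
      have h6 : ∑ k ∈ Finset.range n, a / 4294967296 ^ (k + 1) % 4294967296 * 4294967296 ^ (k + 1)
          = (a / 4294967296) * 4294967296 := by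
        conv_rhs => rw [h4]
        rw [Finset.sum_mul]
        refine Finset.sum_congr rfl fun k _ => ?_
        rw [hdiv k, pow_succ, mul_assoc]
      rw [h6]
      have := Nat.div_add_mod a 4294967296
      omega
    · intro k hk
      rcases k with _ | k
      · simpa using h2'
      · rw [← hdiv k]
        exact h5 k (by omega)

theorem wf_digits {a : ℕ} (ha : wf 7 a = true) :
    a = ∑ k : Fin 7, (a / 4294967296 ^ (k : ℕ) % 4294967296) * 4294967296 ^ (k : ℕ) ∧
    ∀ k : Fin 7, a / 4294967296 ^ (k : ℕ) % 4294967296 < 16384 := by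
  obtain ⟨h1, h2⟩ := d03_wf_gen 7 a ha
  refine ⟨?_, fun k => h2 k k.2⟩
  rw [Fin.sum_univ_eq_sum_range
    (fun k => a / 4294967296 ^ k % 4294967296 * 4294967296 ^ k) 7]
  exact h1

theorem d03_nest {X c r n : ℕ} (hc : c < X) (hr : r < X ^ n) : c + X * r < X ^ (n + 1) := by
  rw [pow_succ']
  have h1 : X * (r + 1) ≤ X * X ^ n := Nat.mul_le_mul_left X hr
  have h2 : X * (r + 1) = X * r + X := by ring
  omega

theorem d03_mid {X : ℕ} (c0 c1 c2 c3 c4 c5 c6 hi : ℕ) (h0 : c0 < X) (h1 : c1 < X) (h2 : c2 < X)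
    (h3 : c3 < X) (h4 : c4 < X) (h5 : c5 < X) (h6 : c6 < X) {t : ℕ}
    (ht : t = (c0 + X * (c1 + X * (c2 + X * (c3 + X * (c4 + X * c5))))) + X ^ 6 * (c6 + X * hi)) :
    t / X ^ 6 % X = c6 := by
  have hlow : c0 + X * (c1 + X * (c2 + X * (c3 + X * (c4 + X * c5)))) < X ^ 6 := by
    have e5 : c5 < X ^ 1 := by rw [pow_one]; exact h5
    exact d03_nest h0 (d03_nest h1 (d03_nest h2 (d03_nest h3 (d03_nest h4 e5))))
  have hX : 0 < X ^ 6 := by omega
  rw [ht, Nat.add_mul_div_left _ _ hX, Nat.div_eq_of_lt hlow, zero_add,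
    Nat.add_mul_mod_self_left, Nat.mod_eq_of_lt h6]

theorem d03_mul_lt {a b : ℕ} (ha : a < 16384) (hb : b < 16384) : a * b < 268435456 := by
  have := Nat.mul_lt_mul'' ha hb
  omega

/-- the middle digit of a product -/
theorem d03_prod {X : ℕ} (hX : 1879048192 ≤ X) (a b : ℕ → ℕ) (ha : ∀ k, k < 7 → a k < 16384)
    (hb : ∀ k, k < 7 → b k < 16384) :
    ((∑ k ∈ Finset.range 7, a k * X ^ k) * (∑ k ∈ Finset.range 7, b k * X ^ k)) / X ^ 6 % X
      = a 0 * b 6 + a 1 * b 5 + a 2 * b 4 + a 3 * b 3 + a 4 * b 2 + a 5 * b 1 + a 6 * b 0 := by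
  have hm : ∀ i j, i < 7 → j < 7 → a i * b j < 268435456 := fun i j hi hj =>
    d03_mul_lt (ha i hi) (hb j hj)
  refine d03_mid (a 0 * b 0) (a 0 * b 1 + a 1 * b 0) (a 0 * b 2 + a 1 * b 1 + a 2 * b 0)
    (a 0 * b 3 + a 1 * b 2 + a 2 * b 1 + a 3 * b 0)
    (a 0 * b 4 + a 1 * b 3 + a 2 * b 2 + a 3 * b 1 + a 4 * b 0)
    (a 0 * b 5 + a 1 * b 4 + a 2 * b 3 + a 3 * b 2 + a 4 * b 1 + a 5 * b 0) _
    ((a 1 * b 6 + a 2 * b 5 + a 3 * b 4 + a 4 * b 3 + a 5 * b 2 + a 6 * b 1)
      + X * (a 2 * b 6 + a 3 * b 5 + a 4 * b 4 + a 5 * b 3 + a 6 * b 2)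
      + X ^ 2 * (a 3 * b 6 + a 4 * b 5 + a 5 * b 4 + a 6 * b 3)
      + X ^ 3 * (a 4 * b 6 + a 5 * b 5 + a 6 * b 4)
      + X ^ 4 * (a 5 * b 6 + a 6 * b 5) + X ^ 5 * (a 6 * b 6)) ?_ ?_ ?_ ?_ ?_ ?_ ?_ ?_
  · have := hm 0 0 (by omega) (by omega)
    omega
  · have h1 := hm 0 1 (by omega) (by omega)
    have h2 := hm 1 0 (by omega) (by omega)
    omega
  · have h1 := hm 0 2 (by omega) (by omega)
    have h2 := hm 1 1 (by omega) (by omega)
    have h3 := hm 2 0 (by omega) (by omega)
    omega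
  · have h1 := hm 0 3 (by omega) (by omega)
    have h2 := hm 1 2 (by omega) (by omega)
    have h3 := hm 2 1 (by omega) (by omega)
    have h4 := hm 3 0 (by omega) (by omega)
    omega
  · have h1 := hm 0 4 (by omega) (by omega)
    have h2 := hm 1 3 (by omega) (by omega)
    have h3 := hm 2 2 (by omega) (by omega)
    have h4 := hm 3 1 (by omega) (by omega)
    have h5 := hm 4 0 (by omega) (by omega)
    omega
  · have h1 := hm 0 5 (by omega) (by omega)
    have h2 := hm 1 4 (by omega) (by omega)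
    have h3 := hm 2 3 (by omega) (by omega)
    have h4 := hm 3 2 (by omega) (by omega)
    have h5 := hm 4 1 (by omega) (by omega)
    have h6 := hm 5 0 (by omega) (by omega)
    omega
  · have h1 := hm 0 6 (by omega) (by omega)
    have h2 := hm 1 5 (by omega) (by omega)
    have h3 := hm 2 4 (by omega) (by omega)
    have h4 := hm 3 3 (by omega) (by omega)
    have h5 := hm 4 2 (by omega) (by omega)
    have h6 := hm 5 1 (by omega) (by omega)
    have h7 := hm 6 0 (by omega) (by omega)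
    omega
  · simp only [Finset.sum_range_succ, Finset.sum_range_zero]
    ring

/-- digits as a function -/
def d03_dig (a k : ℕ) : ℕ := a / 4294967296 ^ k % 4294967296

theorem d03_eq {a : ℕ} (ha : wf 7 a = true) :
    a = ∑ k ∈ Finset.range 7, d03_dig a k * 4294967296 ^ k := (d03_wf_gen 7 a ha).1

theorem d03_lt {a : ℕ} (ha : wf 7 a = true) : ∀ k, k < 7 → d03_dig a k < 16384 :=
  (d03_wf_gen 7 a ha).2

theorem d03_X6 : (6277101735386680763835789423207666416102355444464034512896 : ℕ)
    = 4294967296 ^ 6 := by norm_num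

theorem d03_Ones : (6277101736848182401506974708411517874814724153223283736577 : ℕ)
    = ∑ k ∈ Finset.range 7, 1 * 4294967296 ^ k := by
  simp only [Finset.sum_range_succ, Finset.sum_range_zero]
  norm_num

theorem d03_sumd {a : ℕ} (ha : wf 7 a = true) :
    sumd a = d03_dig a 0 + d03_dig a 1 + d03_dig a 2 + d03_dig a 3 + d03_dig a 4 + d03_dig a 5
      + d03_dig a 6 := by
  have h1 : sumd a = (a * 6277101736848182401506974708411517874814724153223283736577) /
    6277101735386680763835789423207666416102355444464034512896 % 4294967296 := rfl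
  rw [h1, d03_X6, d03_Ones]
  have h2 := d03_prod (X := 4294967296) (by norm_num) (d03_dig a) (fun _ => 1) (d03_lt ha)
    (fun k _ => by norm_num)
  rw [← d03_eq ha] at h2
  rw [h2]
  simp only [mul_one]

theorem d03_midab {a b : ℕ} (ha : wf 7 a = true) (hb : wf 7 b = true) :
    (a * b) / 6277101735386680763835789423207666416102355444464034512896 % 4294967296
      = d03_dig a 0 * d03_dig b 6 + d03_dig a 1 * d03_dig b 5 + d03_dig a 2 * d03_dig b 4
        + d03_dig a 3 * d03_dig b 3 + d03_dig a 4 * d03_dig b 2 + d03_dig a 5 * d03_dig b 1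
        + d03_dig a 6 * d03_dig b 0 := by
  rw [d03_X6]
  have h2 := d03_prod (X := 4294967296) (by norm_num) (d03_dig a) (d03_dig b) (d03_lt ha)
    (d03_lt hb)
  rw [← d03_eq ha, ← d03_eq hb] at h2
  exact h2

theorem d03_dot (a b : ℕ) :
    ∑ k, vecN a k * funN b k = ((d03_dig a 0 * d03_dig b 6 + d03_dig a 1 * d03_dig b 5
        + d03_dig a 2 * d03_dig b 4
        + d03_dig a 3 * d03_dig b 3 + d03_dig a 4 * d03_dig b 2 + d03_dig a 5 * d03_dig b 1
        + d03_dig a 6 * d03_dig b 0 : ℕ) : ℤ) + 469762048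
        - 8192 * (((d03_dig a 0 + d03_dig a 1 + d03_dig a 2 + d03_dig a 3 + d03_dig a 4
        + d03_dig a 5 + d03_dig a 6 : ℕ) : ℤ) +
        ((d03_dig b 0 + d03_dig b 1 + d03_dig b 2 + d03_dig b 3 + d03_dig b 4
        + d03_dig b 5 + d03_dig b 6 : ℕ) : ℤ)) := by
  have hv : ∀ k : Fin 7, vecN a k = (d03_dig a k : ℤ) - 8192 := fun k => rfl
  have hf : ∀ k : Fin 7, funN b k = (d03_dig b (6 - (k : ℕ)) : ℤ) - 8192 := fun k => rfl
  have e7 : ∑ k, vecN a k * funN b k = vecN a 0 * funN b 0 + vecN a 1 * funN b 1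
      + vecN a 2 * funN b 2 + vecN a 3 * funN b 3 + vecN a 4 * funN b 4 + vecN a 5 * funN b 5
      + vecN a 6 * funN b 6 := Fin.sum_univ_seven _
  rw [e7, hv 0, hv 1, hv 2, hv 3, hv 4, hv 5, hv 6, hf 0, hf 1, hf 2, hf 3, hf 4, hf 5, hf 6]
  show ((d03_dig a 0 : ℤ) - 8192) * ((d03_dig b 6 : ℤ) - 8192)
    + ((d03_dig a 1 : ℤ) - 8192) * ((d03_dig b 5 : ℤ) - 8192)
    + ((d03_dig a 2 : ℤ) - 8192) * ((d03_dig b 4 : ℤ) - 8192)
    + ((d03_dig a 3 : ℤ) - 8192) * ((d03_dig b 3 : ℤ) - 8192)
    + ((d03_dig a 4 : ℤ) - 8192) * ((d03_dig b 2 : ℤ) - 8192)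
    + ((d03_dig a 5 : ℤ) - 8192) * ((d03_dig b 1 : ℤ) - 8192)
    + ((d03_dig a 6 : ℤ) - 8192) * ((d03_dig b 0 : ℤ) - 8192) = _
  push_cast
  ring

theorem d03_beq (c A B : ℕ) : Nat.beq (c + 469762048) (8192 * (A + B)) = true ↔
    (c : ℤ) + 469762048 - 8192 * ((A : ℤ) + (B : ℤ)) = 0 := by
  rw [Nat.beq_eq]
  constructor
  · intro h; omega
  · intro h; omega

theorem d03_blt (c A B : ℕ) : Nat.blt (c + 469762048) (8192 * (A + B)) = true ↔
    (c : ℤ) + 469762048 - 8192 * ((A : ℤ) + (B : ℤ)) < 0 := by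
  rw [Nat.blt_eq]
  constructor
  · intro h; omega
  · intro h; omega

theorem d03_isz (a b : ℕ) : isz a b =
    Nat.beq ((a * b) / 6277101735386680763835789423207666416102355444464034512896
    % 4294967296 + 469762048) (8192 * (sumd a + sumd b)) := by
  unfold isz
  simp only [Nat.add_eq, Nat.mul_eq]
  rfl

theorem d03_isn (a b : ℕ) : isn a b =
    Nat.blt ((a * b) / 6277101735386680763835789423207666416102355444464034512896
    % 4294967296 + 469762048) (8192 * (sumd a + sumd b)) := by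
  unfold isn
  simp only [Nat.add_eq, Nat.mul_eq]
  rfl

theorem isz_iff {a b : ℕ} (ha : wf 7 a = true) (hb : wf 7 b = true) :
    isz a b = true ↔ ∑ k, vecN a k * funN b k = 0 := by
  rw [d03_isz, d03_dot, d03_midab ha hb, d03_sumd ha, d03_sumd hb]
  exact d03_beq _ _ _

theorem isn_iff {a b : ℕ} (ha : wf 7 a = true) (hb : wf 7 b = true) :
    isn a b = true ↔ ∑ k, vecN a k * funN b k < 0 := by
  rw [d03_isn, d03_dot, d03_midab ha hb, d03_sumd ha, d03_sumd hb]
  exact d03_blt _ _ _

/-- every entry of a well formed tree is well formed (`wf 7 0 = true`) -/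
theorem get_wf {t : Tr} (ht : treeWf t = true) (i : ℕ) : wf 7 (t.get i) = true := by
  induction t generalizing i with
  | nil =>
    have h0 : Tr.nil.get i = 0 := by rw [Tr.get]
    rw [h0]
    decide
  | node v l r ihl ihr =>
    have h1 : (wf 7 v && treeWf l && treeWf r) = true := ht
    rw [Bool.and_eq_true, Bool.and_eq_true] at h1
    have h2 : (Tr.node v l r).get i = bif Nat.beq i 0 then v else
      bif Nat.beq (Nat.mod i 2) 1 then l.get (Nat.div (Nat.sub i 1) 2)
      else r.get (Nat.div (Nat.sub i 2) 2) := rfl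
    rw [h2]
    cases Nat.beq i 0 with
    | true => exact h1.1.1
    | false =>
      cases Nat.beq (Nat.mod i 2) 1 with
      | true => exact ihl h1.1.2 _
      | false => exact ihr h1.2 _

theorem d03_decI (n : ℕ) : ∀ a : ℕ, decI n a =
    List.ofFn (fun k : Fin n => ((a / 4294967296 ^ (k : ℕ) % 4294967296 : ℕ) : ℤ) - 8192) := by
  induction n with
  | zero => intro a; rfl
  | succ n ih =>
    intro a
    rw [List.ofFn_succ]
    have h1 : decI (n + 1) a = (((a % 4294967296 : ℕ) : ℤ) - 8192) :: decI n (a / 4294967296) := rfl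
    rw [h1, ih (a / 4294967296)]
    congr 1
    · simp
    · congr 1
      funext k
      rw [Nat.div_div_eq_div_mul, ← pow_succ', Fin.val_succ]

/-- `decI 7` lists the entries of `vecN` -/
theorem decI_vec (a : ℕ) : decI 7 a = List.ofFn (vecN a) := d03_decI 7 a

/-- and `decI 7`, reversed, those of `funN` -/
theorem decI_fun (a : ℕ) : (decI 7 a).reverse = List.ofFn (funN a) := by
  rw [decI_vec]
  have h1 : List.ofFn (vecN a) = [vecN a 0, vecN a 1, vecN a 2, vecN a 3, vecN a 4, vecN a 5,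
    vecN a 6] := rfl
  have h2 : List.ofFn (funN a) = [funN a 0, funN a 1, funN a 2, funN a 3, funN a 4, funN a 5,
    funN a 6] := rfl
  rw [h1, h2]
  rfl

theorem d03_dotI (n : ℕ) : ∀ v w : Fin n → ℤ,
    dotI (List.ofFn v) (List.ofFn w) = ∑ k, v k * w k := by
  induction n with
  | zero => intro v w; rfl
  | succ n ih =>
    intro v w
    rw [List.ofFn_succ, List.ofFn_succ, Fin.sum_univ_succ, ← ih]
    rfl

theorem dotI_ofFn (v w : Fin 7 → ℤ) : dotI (List.ofFn v) (List.ofFn w) = ∑ k, v k * w k :=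
  d03_dotI 7 v w

theorem nonpos_iff (x : ℤ) : nonpos x = true ↔ x ≤ 0 := by
  cases x with
  | ofNat n =>
    have h1 : nonpos (Int.ofNat n) = Nat.beq n 0 := rfl
    rw [h1, Nat.beq_eq]
    constructor
    · intro h; rw [h]; exact le_refl _
    · intro h
      have : (n : ℤ) ≤ 0 := h
      omega
  | negSucc n =>
    have h1 : nonpos (Int.negSucc n) = true := rfl
    rw [h1]
    simp only [true_iff]
    exact (Int.negSucc_lt_zero n).le

theorem d03_uniq (n : ℕ) {X : ℕ} (hX : 0 < X) : ∀ P Q : ℕ → ℕ, (∀ k, k < n → P k < X) →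
    (∀ k, k < n → Q k < X) →
    ∑ k ∈ Finset.range n, P k * X ^ k = ∑ k ∈ Finset.range n, Q k * X ^ k →
    ∀ k, k < n → P k = Q k := by
  induction n with
  | zero => intro P Q _ _ _ k hk; omega
  | succ n ih =>
    intro P Q hP hQ h
    rw [Finset.sum_range_succ', Finset.sum_range_succ'] at h
    have e : ∀ R : ℕ → ℕ, ∑ k ∈ Finset.range n, R (k + 1) * X ^ (k + 1)
        = X * ∑ k ∈ Finset.range n, R (k + 1) * X ^ k := by
      intro R
      rw [Finset.mul_sum]
      refine Finset.sum_congr rfl fun k _ => ?_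
      ring
    rw [e P, e Q] at h
    simp only [pow_zero, mul_one] at h
    have h0 : P 0 = Q 0 := by
      have h1 := congrArg (· % X) h
      simp only [Nat.mul_add_mod] at h1
      rwa [Nat.mod_eq_of_lt (hP 0 (by omega)), Nat.mod_eq_of_lt (hQ 0 (by omega))] at h1
    have h2 : ∑ k ∈ Finset.range n, P (k + 1) * X ^ k = ∑ k ∈ Finset.range n, Q (k + 1) * X ^ k := by
      rw [h0] at h
      exact Nat.eq_of_mul_eq_mul_left hX (Nat.add_right_cancel h)
    intro k hk
    rcases k with _ | k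
    · exact h0
    · exact ih (fun k => P (k + 1)) (fun k => Q (k + 1)) (fun k hk => hP _ (by omega))
        (fun k hk => hQ _ (by omega)) h2 k (by omega)

/-- weighted digit sums -/
def d03_A (D : PD) (k : ℕ) : List (ℕ × ℕ) → ℕ
  | [] => 0
  | p :: t => p.2 * d03_dig (D.Et.get p.1) k + d03_A D k t

theorem d03_relSum {D : PD} (hE : treeWf D.Et = true) (l : List (ℕ × ℕ)) :
    relSum D l = ∑ k ∈ Finset.range 7, d03_A D k l * 4294967296 ^ k := by
  induction l with
  | nil => simp [relSum, d03_A]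
  | cons p t ih =>
    have h1 : relSum D (p :: t) = p.2 * (D.Et.get p.1) + relSum D t := rfl
    rw [h1, ih]
    conv_lhs => rw [d03_eq (get_wf hE p.1)]
    rw [Finset.mul_sum, ← Finset.sum_add_distrib]
    refine Finset.sum_congr rfl fun k _ => ?_
    have h2 : d03_A D k (p :: t) = p.2 * d03_dig (D.Et.get p.1) k + d03_A D k t := rfl
    rw [h2]
    ring

theorem d03_A_le {D : PD} (hE : treeWf D.Et = true) {k : ℕ} (hk : k < 7) (l : List (ℕ × ℕ)) :
    d03_A D k l ≤ coefSum l * 16384 := by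
  induction l with
  | nil => simp [coefSum, d03_A]
  | cons p t ih =>
    have h1 : coefSum (p :: t) = p.2 + coefSum t := rfl
    have h2 : d03_A D k (p :: t) = p.2 * d03_dig (D.Et.get p.1) k + d03_A D k t := rfl
    rw [h1, h2, add_mul]
    have h3 := d03_lt (get_wf hE p.1) k hk
    exact add_le_add (Nat.mul_le_mul_left _ h3.le) ih

theorem d03_A_cast (D : PD) (k : Fin 7) (l : List (ℕ × ℕ)) :
    ((l.map fun p => (p.2 : ℤ) • vecN (D.Et.get p.1)).sum) k
      = (d03_A D k l : ℤ) - 8192 * (coefSum l : ℤ) := by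
  induction l with
  | nil => simp [coefSum, d03_A]
  | cons p t ih =>
    have h1 : coefSum (p :: t) = p.2 + coefSum t := rfl
    have h2 : d03_A D k (p :: t) = p.2 * d03_dig (D.Et.get p.1) k + d03_A D k t := rfl
    have h3 : vecN (D.Et.get p.1) k = (d03_dig (D.Et.get p.1) k : ℤ) - 8192 := rfl
    rw [List.map_cons, List.sum_cons, Pi.add_apply, ih, h1, h2, Pi.smul_apply, smul_eq_mul, h3]
    push_cast
    ring

/-- equality of the weighted codes means equality of the weighted vectors.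
`l` is a list of pairs (index, coefficient).  Proof: let `s = ∑ a_e`, both `< 65536`.  The two
numbers are `∑_k X^k (∑_e a_e (digit_k (E e)) + 8192 λ)` and `∑_k X^k (λ digit_k(R j) + 8192 s)`,
and all these coefficients are `< 65536 * 16384 + 65536 * 8192 < X`, so they agree for every `k`;
now subtract `8192 (s + λ)`. -/
theorem rel_eq {D : PD} (hE : treeWf D.Et = true) (hR : treeWf D.Rt = true) (l : List (ℕ × ℕ))
    (lam j : ℕ) (h1 : coefSum l < 65536) (h2 : lam < 65536)
    (h : relSum D l + lam * 8192 * 6277101736848182401506974708411517874814724153223283736577 =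
      lam * (D.Rt.get j) +
        coefSum l * 8192 * 6277101736848182401506974708411517874814724153223283736577) :
    (l.map fun p => (p.2 : ℤ) • vecN (D.Et.get p.1)).sum = (lam : ℤ) • vecN (D.Rt.get j) := by
  have hRj := get_wf hR j
  have h3 : ∑ k ∈ Finset.range 7, (d03_A D k l + lam * 8192) * 4294967296 ^ k
      = ∑ k ∈ Finset.range 7, (lam * d03_dig (D.Rt.get j) k + coefSum l * 8192)
        * 4294967296 ^ k := by
    rw [d03_relSum hE, d03_Ones] at h
    conv_rhs at h => rw [d03_eq hRj]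
    simp only [Finset.mul_sum] at h
    rw [← Finset.sum_add_distrib, ← Finset.sum_add_distrib] at h
    calc ∑ k ∈ Finset.range 7, (d03_A D k l + lam * 8192) * 4294967296 ^ k
        = _ := Finset.sum_congr rfl fun k _ => by ring
      _ = _ := h
      _ = _ := Finset.sum_congr rfl fun k _ => by ring
  have h4 := d03_uniq 7 (X := 4294967296) (by norm_num) (fun k => d03_A D k l + lam * 8192)
    (fun k => lam * d03_dig (D.Rt.get j) k + coefSum l * 8192)
    (fun k hk => by
      have := d03_A_le hE hk l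
      show d03_A D k l + lam * 8192 < 4294967296
      omega)
    (fun k hk => by
      have h5 := d03_lt hRj k hk
      have h6 : lam * d03_dig (D.Rt.get j) k ≤ lam * 16384 := Nat.mul_le_mul_left _ h5.le
      show lam * d03_dig (D.Rt.get j) k + coefSum l * 8192 < 4294967296
      omega) h3
  funext k
  rw [d03_A_cast]
  have h5 : (lam : ℤ) • vecN (D.Rt.get j) k = lam * ((d03_dig (D.Rt.get j) k : ℤ) - 8192) := rfl
  rw [Pi.smul_apply, h5]
  have h6 := congrArg (fun n : ℕ => (n : ℤ)) (h4 k k.2)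
  push_cast at h6
  linarith

end RH6.P
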