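import Pool.Agent.RH6.D01
import Pool.Agent.RH6.D03

open Matrix

namespace RH6.P

theorem d04_allLt {b : ℕ} {l : List ℕ} (h : allLt b l = true) : ∀ a ∈ l, a < b := by
  induction l with
  | nil => intro a ha; simp at ha
  | cons c t ih =>
    rw [allLt, Bool.and_eq_true] at h
    intro a ha
    rcases List.mem_cons.mp ha with rfl | ha
    · exact Nat.blt_eq.mp h.1
    · exact ih h.2 a ha

theorem d04_allz {r : ℕ} {l : List ℕ} (h : allz r l = true) : ∀ f ∈ l, isz r f = true := by
  induction l with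
  | nil => intro a ha; simp at ha
  | cons c t ih =>
    rw [allz, Bool.and_eq_true] at h
    intro a ha
    rcases List.mem_cons.mp ha with rfl | ha
    · exact h.1
    · exact ih h.2 a ha

theorem d04_allz' {f : ℕ} {l : List ℕ} (h : allz' f l = true) : ∀ r ∈ l, isz r f = true := by
  induction l with
  | nil => intro a ha; simp at ha
  | cons c t ih =>
    rw [allz', Bool.and_eq_true] at h
    intro a ha
    rcases List.mem_cons.mp ha with rfl | ha
    · exact h.1
    · exact ih h.2 a ha

theorem d04_memN {a : ℕ} {l : List ℕ} : memN a l = true ↔ a ∈ l := by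
  induction l with
  | nil => simp [memN]
  | cons c t ih =>
    rw [memN, Bool.or_eq_true, ih, List.mem_cons, Nat.beq_eq]

theorem d04_subset {l t : List ℕ} (h : subset l t = true) : ∀ a ∈ t, a ∈ l := by
  induction t with
  | nil => intro a ha; simp at ha
  | cons c t ih =>
    rw [subset, Bool.and_eq_true] at h
    intro a ha
    rcases List.mem_cons.mp ha with rfl | ha
    · exact d04_memN.mp h.1
    · exact ih h.2 a ha

theorem d04_rowD {r : ℕ} {fs : List ℕ} {k : ℕ} (h : rowD r fs k = true) :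
    ∀ l (hl : l < fs.length), (l = k → isn r fs[l] = true) ∧ (l ≠ k → isz r fs[l] = true) := by
  induction fs generalizing k with
  | nil => intro l hl; simp at hl
  | cons f fs ih =>
    intro l hl
    cases k with
    | zero =>
      rw [rowD, Bool.and_eq_true] at h
      cases l with
      | zero => exact ⟨fun _ => h.1, fun h' => absurd rfl h'⟩
      | succ l =>
        refine ⟨fun h' => by omega, fun _ => ?_⟩
        exact d04_allz h.2 _ (List.getElem_mem _)
    | succ k =>
      rw [rowD, Bool.and_eq_true] at h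
      cases l with
      | zero => exact ⟨fun h' => by omega, fun _ => h.1⟩
      | succ l =>
        have h1 := ih h.2 l (by simpa using hl)
        exact ⟨fun h' => h1.1 (by omega), fun h' => h1.2 (by omega)⟩

theorem d04_diagOK {Fs rs : List ℕ} {k0 : ℕ} (h : diagOK Fs rs k0 = true) :
    ∀ k (hk : k < rs.length), rowD rs[k] Fs (k0 + k) = true := by
  induction rs generalizing k0 with
  | nil => intro k hk; simp at hk
  | cons r rs ih =>
    rw [diagOK, Bool.and_eq_true] at h
    intro k hk
    cases k with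
    | zero => exact h.1
    | succ k =>
      have h1 := ih h.2 k (by simpa using hk)
      have e : k0 + (k + 1) = Nat.succ k0 + k := by omega
      rw [e]
      exact h1

theorem d04_spineOK {fs rs : List ℕ} (h : spineOK fs rs = true) :
    fs.length = rs.length ∧ (∀ k (h1 : k < fs.length) (h2 : k < rs.length),
      ¬ isz rs[k] fs[k] = true) ∧
    ∀ k l (h1 : k < fs.length) (h2 : l < rs.length), k < l → isz rs[l] fs[k] = true := by
  induction fs generalizing rs with
  | nil =>
    cases rs with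
    | nil => exact ⟨rfl, fun k h1 => by simp at h1, fun k l h1 => by simp at h1⟩
    | cons r rs => simp [spineOK] at h
  | cons f fs ih =>
    cases rs with
    | nil => simp [spineOK] at h
    | cons r rs =>
      rw [spineOK, Bool.and_eq_true, Bool.and_eq_true] at h
      obtain ⟨⟨ha, hb⟩, hc⟩ := h
      obtain ⟨i1, i2, i3⟩ := ih hc
      refine ⟨by simp [i1], ?_, ?_⟩
      · intro k h1 h2
        cases k with
        | zero =>
          show ¬ isz r f = true
          intro hh
          rw [hh] at ha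
          simp at ha
        | succ k => exact i2 k (by simpa using h1) (by simpa using h2)
      · intro k l h1 h2 hkl
        cases l with
        | zero => omega
        | succ l =>
          cases k with
          | zero => exact d04_allz' hb _ (List.getElem_mem _)
          | succ k => exact i3 k l (by simpa using h1) (by simpa using h2) (by omega)

theorem d04_tv {P : ℕ → Prop} {cs : List (List (ℕ × ℕ) × ℕ)}
    (h : ∀ c ∈ cs, ∃ p ∈ c.1, P p.1) : ∃ f ∈ tv cs, ∀ a ∈ f, P a := by
  induction cs with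
  | nil => exact ⟨[], by simp [tv], by simp⟩
  | cons c cs ih =>
    obtain ⟨p, hp, hP⟩ := h c (by simp)
    obtain ⟨f, hf, hfP⟩ := ih fun c' hc' => h c' (List.mem_cons_of_mem _ hc')
    refine ⟨p.1 :: f, ?_, ?_⟩
    · rw [tv, List.mem_flatMap]
      exact ⟨p, hp, List.mem_map.mpr ⟨f, hf, rfl⟩⟩
    · intro a ha
      rcases List.mem_cons.mp ha with rfl | ha
      · exact hP
      · exact hfP a ha

theorem d04_tv_mem {cs : List (List (ℕ × ℕ) × ℕ)} {f : List ℕ} (hf : f ∈ tv cs) :
    (∀ a ∈ f, a ∈ (cs.flatMap fun c => c.1).map Prod.fst) ∧ (cs ≠ [] → f ≠ []) := by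
  induction cs generalizing f with
  | nil =>
    rw [tv, List.mem_singleton] at hf
    subst hf
    exact ⟨by simp, fun h => absurd rfl h⟩
  | cons c cs ih =>
    rw [tv, List.mem_flatMap] at hf
    obtain ⟨p, hp, hf⟩ := hf
    rw [List.mem_map] at hf
    obtain ⟨t, ht, rfl⟩ := hf
    refine ⟨?_, fun _ => by simp⟩
    intro a ha
    rw [List.flatMap_cons, List.map_append, List.mem_append]
    rcases List.mem_cons.mp ha with rfl | ha
    · exact Or.inl (List.mem_map.mpr ⟨p, hp, rfl⟩)
    · exact Or.inr ((ih ht).1 a ha)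

theorem d04_cornerOK {f : List ℕ} {r : ℕ} {T : List (ℕ × ℕ)} (h : cornerOK f r T = true) :
    ∀ p ∈ T, (p.1 ∈ f → isn r p.2 = true) ∧ (p.1 ∉ f → isz r p.2 = true) := by
  induction T with
  | nil => intro p hp; simp at hp
  | cons q t ih =>
    rw [cornerOK, Bool.and_eq_true] at h
    intro p hp
    rcases List.mem_cons.mp hp with rfl | hp
    · constructor
      · intro hm
        have h1 := h.1
        rw [d04_memN.mpr hm, cond_true] at h1
        exact h1
      · intro hm
        have h1 := h.1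
        have h2 : memN p.1 f = false := by
          rw [← Bool.not_eq_true]
          exact fun h3 => hm (d04_memN.mp h3)
        rw [h2, cond_false] at h1
        exact h1
    · exact ih h.2 p hp

theorem d04_cornersOK {D : PD} {T : List (ℕ × ℕ)} {fs : List (List ℕ)} {is : List ℕ}
    (h : cornersOK D T fs is = true) :
    ∀ f ∈ fs, ∃ i, i < D.m ∧ cornerOK f (D.Rt.get i) T = true := by
  induction fs generalizing is with
  | nil => intro f hf; simp at hf
  | cons f fs ih =>
    cases is with
    | nil => simp [cornersOK] at h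
    | cons i is =>
      rw [cornersOK, Bool.and_eq_true, Bool.and_eq_true] at h
      intro g hg
      rcases List.mem_cons.mp hg with rfl | hg
      · exact ⟨i, Nat.blt_eq.mp h.1.1, h.1.2⟩
      · exact ih h.2 g hg

theorem d04_decN_length (n v : ℕ) : (decN n v).length = n := by
  induction n generalizing v with
  | zero => rfl
  | succ n ih => rw [decN, List.length_cons, ih]

theorem d04_eqLI {a b : List ℤ} (h : eqLI a b = true) : a = b := by
  induction a generalizing b with
  | nil =>
    cases b with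
    | nil => rfl
    | cons b t => simp [eqLI] at h
  | cons a s ih =>
    cases b with
    | nil => simp [eqLI] at h
    | cons b t =>
      rw [eqLI, Bool.and_eq_true] at h
      have h2 := ih h.2
      have h1 : a = b := by
        have h3 := h.1
        have h4 : Int.sub a b = a - b := rfl
        rw [h4] at h3
        generalize hc : a - b = c at h3
        cases c with
        | ofNat n =>
          have h5 : n = 0 := Nat.beq_eq.mp h3
          subst h5
          have h6 : a - b = 0 := hc
          omega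
        | negSucc n => simp at h3
      rw [h1, h2]

theorem d04_funOK {D : PD} {n : ℕ} (h : funOK D n = true) : ∀ e < n,
    decI 7 (D.Ft.get e) = (D.G.map (dotI (decI 7 (D.Et.get e)))).reverse := by
  induction n with
  | zero => intro e he; omega
  | succ n ih =>
    rw [funOK, Bool.and_eq_true] at h
    intro e he
    rcases Nat.lt_succ_iff_lt_or_eq.mp he with he | rfl
    · exact ih h.2 e he
    · exact d04_eqLI h.1

theorem d04_list {α : Type*} (l : List α) (n : ℕ) (h : l.length = n) (d : α) :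
    l = List.ofFn (fun i : Fin n => l.getD i d) := by
  apply List.ext_getElem
  · simp [h]
  · intro i h1 h2
    simp [List.getD_eq_getElem?_getD, h1]

theorem d04_map {D : PD} {G : Matrix (Fin 7) (Fin 7) ℤ}
    (hG : ∀ i j : Fin 7, G i j = (D.G.getD i []).getD j 0) (h1 : D.G.length = 7)
    (h2 : ∀ r ∈ D.G, r.length = 7) (v : Fin 7 → ℤ) :
    D.G.map (dotI (List.ofFn v)) = List.ofFn (G *ᵥ v) := by
  have h3 : D.G = List.ofFn (fun i : Fin 7 => List.ofFn fun j : Fin 7 => G i j) := by
    conv_lhs => rw [d04_list D.G 7 h1 []]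
    congr 1
    funext i
    have h4 : D.G.getD i [] ∈ D.G := by
      rw [List.getD_eq_getElem (l := D.G) (d := []) (by rw [h1]; exact i.2)]
      exact List.getElem_mem _
    rw [d04_list (D.G.getD i []) 7 (h2 _ h4) 0]
    congr 1
    funext j
    rw [hG i j]
  rw [h3, List.map_ofFn]
  congr 1
  funext i
  simp only [Function.comp]
  rw [dotI_ofFn]
  unfold Matrix.mulVec dotProduct
  exact Finset.sum_congr rfl fun k _ => mul_comm _ _

theorem d04_fun {D : PD} {G : Matrix (Fin 7) (Fin 7) ℤ}
    (hG : ∀ i j : Fin 7, G i j = (D.G.getD i []).getD j 0) (h1 : D.G.length = 7)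
    (h2 : ∀ r ∈ D.G, r.length = 7) (f a : ℕ)
    (h : decI 7 f = (D.G.map (dotI (decI 7 a))).reverse) : funN f = G *ᵥ vecN a := by
  rw [decI_vec a, d04_map hG h1 h2] at h
  have h3 := decI_fun f
  rw [h, List.reverse_reverse] at h3
  exact (List.ofFn_injective h3).symm

/-- variant of `LC_of_corners` -/
theorem d04_LC {G : Matrix (Fin 7) (Fin 7) ℤ} {n m : ℕ} (E : Fin n → (Fin 7 → ℤ))
    (R : Fin m → (Fin 7 → ℤ)) (j : Fin m) (T : Finset (Fin n))
    (hx : ∀ x : Fin 7 → ℝ, (∀ e ∈ T, bR G x (toR (E e)) ≤ 0) → (¬ ∃ μ : ℝ, x = μ • toR (R j)) →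
      ∃ p : Finset (Fin n) × Fin m, (p.1.Nonempty ∧ p.1 ⊆ T ∧ (∀ e ∈ p.1, bZ G (R p.2) (E e) < 0) ∧
      ∀ e ∈ T, e ∉ p.1 → bZ G (R p.2) (E e) = 0) ∧ ∀ e ∈ p.1, bR G x (toR (E e)) < 0) :
    LC G E R j := by
  classical
  apply LC_of_corners E R j T (Finset.univ.filter fun p : Finset (Fin n) × Fin m =>
    (p.1.Nonempty ∧ p.1 ⊆ T ∧ (∀ e ∈ p.1, bZ G (R p.2) (E e) < 0) ∧
      ∀ e ∈ T, e ∉ p.1 → bZ G (R p.2) (E e) = 0)).toList
  · intro p hp
    rw [Finset.mem_toList, Finset.mem_filter] at hp
    exact hp.2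
  · intro x h1 h2
    obtain ⟨p, hp1, hp2⟩ := hx x h1 h2
    refine ⟨p, ?_, hp2⟩
    rw [Finset.mem_toList, Finset.mem_filter]
    exact ⟨Finset.mem_univ _, hp1⟩

/-- the functional `x ↦ (x, y)` -/
noncomputable def d04_lin (G : Matrix (Fin 7) (Fin 7) ℤ) (y : Fin 7 → ℝ) :
    (Fin 7 → ℝ) →ₗ[ℝ] ℝ where
  toFun x := bR G x y
  map_add' := fun a b => bR_add_left G a b y
  map_smul' := fun c a => bR_smul_left G c a y

theorem d04_sum_zero {α : Type*} {l : List α} {f : α → ℝ} (h : ∀ a ∈ l, f a ≤ 0)
    (h0 : 0 ≤ (l.map f).sum) : ∀ a ∈ l, f a = 0 := by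
  induction l with
  | nil => intro a ha; simp at ha
  | cons b t ih =>
    rw [List.map_cons, List.sum_cons] at h0
    have h1 : f b ≤ 0 := h b (by simp)
    have h2 : ∀ (t : List α), (∀ a ∈ t, f a ≤ 0) → (t.map f).sum ≤ 0 := by
      intro t
      induction t with
      | nil => intro _; simp
      | cons c t ih2 =>
        intro h3
        rw [List.map_cons, List.sum_cons]
        have h4 := h3 c (by simp)
        have h5 := ih2 fun a ha => h3 a (List.mem_cons_of_mem _ ha)
        linarith
    have h3 := h2 t fun a ha => h a (List.mem_cons_of_mem _ ha)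
    intro a ha
    rcases List.mem_cons.mp ha with rfl | ha
    · linarith
    · exact ih (fun a ha => h a (List.mem_cons_of_mem _ ha)) (by linarith) a ha

theorem d04_sum_neg {α : Type*} {l : List α} {f : α → ℝ} (h0 : (l.map f).sum < 0) :
    ∃ a ∈ l, f a < 0 := by
  by_contra hno
  push Not at hno
  have h1 : 0 ≤ (l.map f).sum := by
    apply List.sum_nonneg
    intro y hy
    obtain ⟨a, ha, rfl⟩ := List.mem_map.mp hy
    exact hno a ha
  linarith

theorem d04_rel (G : Matrix (Fin 7) (Fin 7) ℤ) (x : Fin 7 → ℝ) (l : List (ℕ × ℕ))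
    (V : ℕ → (Fin 7 → ℤ)) :
    bR G x (toR ((l.map fun p => (p.2 : ℤ) • V p.1).sum)) =
      (l.map fun p => (p.2 : ℝ) * bR G x (toR (V p.1))).sum := by
  induction l with
  | nil =>
    have h : toR (0 : Fin 7 → ℤ) = 0 := by funext i; simp [toR]
    simp only [List.map_nil, List.sum_nil]
    rw [h, bR_zero_right]
  | cons a t ih =>
    rw [List.map_cons, List.sum_cons, List.map_cons, List.sum_cons, toR_add, bR_add_right, ih,
      toR_smul, bR_smul_right]
    simp

/-- Row [RH-D04]: a triangular system of functionals.  If `F_k` (`k < 6`) are functionals and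
`r_k` vectors of `ℝ^7` with `F_k(r_k) ≠ 0`, `F_k(r_l) = 0` for `l > k`, and `v ≠ 0` is killed by all
`F_k`, then every `x` killed by all `F_k` is a multiple of `v`.
Proof: `v, r_5, r_4, …, r_0` are linearly independent: in a relation
`c v + ∑ c_k r_k = 0` apply `F_0`: since `F_0(r_l) = 0` for `l > 0`, `c_0 = 0`; then `F_1`, etc.; at
the end `c v = 0`.  So they are a basis (7 vectors in dimension 7), and for `x = c v + ∑ c_k r_k` the
same argument gives `c_k = 0`. -/
theorem ker_triangular (F : Fin 6 → ((Fin 7 → ℝ) →ₗ[ℝ] ℝ)) (r : Fin 6 → (Fin 7 → ℝ))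
    (hd : ∀ k, F k (r k) ≠ 0) (hz : ∀ k l, k < l → F k (r l) = 0) {v : Fin 7 → ℝ} (hv : v ≠ 0)
    (hFv : ∀ k, F k v = 0) {x : Fin 7 → ℝ} (hx : ∀ k, F k x = 0) : ∃ μ : ℝ, x = μ • v := by
  set Φ : (Fin 7 → ℝ) →ₗ[ℝ] (Fin 6 → ℝ) := LinearMap.pi F with hΦ
  have hΦa : ∀ x k, Φ x k = F k x := fun x k => rfl
  set M : Matrix (Fin 6) (Fin 6) ℝ := Matrix.of fun k l => F k (r l) with hM
  have hdet : M.det ≠ 0 := by
    rw [Matrix.det_of_isLowerTriangular M (by intro i j hij; exact hz i j hij)]
    exact Finset.prod_ne_zero_iff.mpr fun k _ => hd k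
  have hsurj : Function.Surjective Φ := by
    intro y
    refine ⟨∑ l, (M⁻¹ *ᵥ y) l • r l, ?_⟩
    funext k
    rw [hΦa, map_sum]
    simp only [map_smul, smul_eq_mul]
    have h1 : (M *ᵥ (M⁻¹ *ᵥ y)) k = y k := by
      rw [Matrix.mulVec_mulVec, Matrix.mul_nonsing_inv _ (isUnit_iff_ne_zero.mpr hdet),
        Matrix.one_mulVec]
    rw [← h1]
    simp only [Matrix.mulVec, dotProduct, hM, Matrix.of_apply]
    exact Finset.sum_congr rfl fun l _ => mul_comm _ _
  have hrk : Module.finrank ℝ (LinearMap.ker Φ) = 1 := by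
    have h1 := LinearMap.finrank_range_add_finrank_ker Φ
    rw [LinearMap.range_eq_top.mpr hsurj, finrank_top] at h1
    simp only [Module.finrank_fin_fun] at h1
    omega
  have hvk : v ∈ LinearMap.ker Φ := by
    rw [LinearMap.mem_ker]; funext k; exact hFv k
  have hxk : x ∈ LinearMap.ker Φ := by
    rw [LinearMap.mem_ker]; funext k; exact hx k
  obtain ⟨c, hc⟩ := (finrank_eq_one_iff_of_nonzero' (⟨v, hvk⟩ : LinearMap.ker Φ)
    (fun h => hv (congrArg Subtype.val h))).mp hrk ⟨x, hxk⟩
  exact ⟨c, (congrArg Subtype.val hc).symm⟩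

/-- Row [RH-D04]: soundness of the vertex check.

Notation: `E e = vecN (D.Et.get e)`, `R i = vecN (D.Rt.get i)`, and by `dataOK`
`funN (D.Ft.get e) = G *ᵥ E e` for `e < n`, `funN D.hf = G *ᵥ h`, `h = vecN hc`; all codes are well
formed.  So by `isz_iff`, `isn_iff` (with `bZ G x y = ∑ x_k (G y)_k`): `isz (R i) (F e)` means
`(R_i, E_e) = 0`, `isn` means `(R_i,E_e) < 0`, and the last two conditions give `(R_j,h) < 0` and
`(R_j,R_j) ≤ 0`; in particular `R_j ≠ 0`.

Case `.fin c`: facets `e_0..e_5`, vertices `i_0..i_5` with `(R_{i_k}, E_{e_l}) = 0` for `k ≠ l`,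
`< 0` for `k = l` (`diagOK`), `(R_j, E_{e_k}) = 0`.  Apply `LC_of_corners` with
`T = {e_0,…,e_5}`, `F = [({e_k}, i_k)]` (the `e_k` are distinct because of the signs).  If `x` is in
the cone of `T` and `(x,E_{e_k}) = 0` for all `k`, then `x ∈ ℝ R_j` by `ker_triangular`
(`hz` holds for all `k ≠ l`).  So if `x ∉ ℝ R_j` some `(x,E_{e_k}) < 0`.

Case `.idl sp comps cor`: `T` = all facets in the components.  For a component `c` with
coefficients `a_e > 0` and `λ_c > 0`: `∑_{e∈c} a_e E_e = λ_c R_j` (`rel_eq`).  Let `x` be in the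
cone of `T` and `x ∉ ℝ R_j`.  `λ_c (x,R_j) = ∑ a_e (x,E_e) ≤ 0`.  If `(x,R_j) = 0`, then (all
terms are `≤ 0`, `a_e > 0`) `(x,E_e) = 0` for all `e` in all components, in particular for the six
facets of the spine, so `x ∈ ℝ R_j` by `ker_triangular`, contradiction.  So `(x,R_j) < 0` and
every component contains an `e` with `(x,E_e) < 0`; choosing one in every component gives a
transversal `f`; it occurs in `tv comps` (membership in `tv`: induction on the list of
components), with a vertex `i` such that for all `e ∈ T`: `(R_i,E_e) < 0` if `e ∈ f` and `= 0`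
otherwise (`cornersOK`, `cornerOK`).  Apply `LC_of_corners` with the list of the pairs
(`f` as a `Finset (Fin n)`, `i`). -/
theorem vert_sound (D : PD) (hc : ℕ) (G : Matrix (Fin 7) (Fin 7) ℤ)
    (hG : ∀ i j : Fin 7, G i j = (D.G.getD i []).getD j 0) (hsym : Gᵀ = G)
    (hdata : dataOK D hc = true) (j : Fin D.m) (c : Vc) (hv : vertOK D j c = true) :
    LC G (fun e : Fin D.n => vecN (D.Et.get e)) (fun i : Fin D.m => vecN (D.Rt.get i)) j ∧
    bZ G (vecN (D.Rt.get j)) (vecN hc) < 0 ∧
    bZ G (vecN (D.Rt.get j)) (vecN (D.Rt.get j)) ≤ 0 := by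
  classical
  rw [dataOK] at hdata
  simp only [Bool.and_eq_true] at hdata
  obtain ⟨⟨⟨⟨⟨⟨⟨⟨hE, hF⟩, hRt⟩, hhf⟩, hhc⟩, hlen⟩, hall⟩, heq⟩, hfun⟩ := hdata
  have h1 : D.G.length = 7 := Nat.beq_eq.mp hlen
  have h2 : ∀ r ∈ D.G, r.length = 7 := fun r hr => Nat.beq_eq.mp (List.all_eq_true.mp hall r hr)
  have hfunE : ∀ e < D.n, funN (D.Ft.get e) = G *ᵥ vecN (D.Et.get e) :=
    fun e he => d04_fun hG h1 h2 _ _ (d04_funOK hfun e he)
  have hfunh : funN D.hf = G *ᵥ vecN hc := d04_fun hG h1 h2 _ _ (d04_eqLI heq)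
  have hz : ∀ i e, e < D.n → (isz (D.Rt.get i) (D.Ft.get e) = true ↔
      bZ G (vecN (D.Rt.get i)) (vecN (D.Et.get e)) = 0) := by
    intro i e he
    rw [isz_iff (get_wf hRt i) (get_wf hF e), hfunE e he]
    exact Iff.rfl
  have hn : ∀ i e, e < D.n → (isn (D.Rt.get i) (D.Ft.get e) = true ↔
      bZ G (vecN (D.Rt.get i)) (vecN (D.Et.get e)) < 0) := by
    intro i e he
    rw [isn_iff (get_wf hRt i) (get_wf hF e), hfunE e he]
    exact Iff.rfl
  have hnh : isn (D.Rt.get j) D.hf = true → bZ G (vecN (D.Rt.get j)) (vecN hc) < 0 := by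
    intro h
    rw [isn_iff (get_wf hRt j) hhf, hfunh] at h
    exact h
  have hqn : qnp D.G (decI 7 (D.Rt.get j)) = true →
      bZ G (vecN (D.Rt.get j)) (vecN (D.Rt.get j)) ≤ 0 := by
    intro h
    rw [qnp, decI_vec, d04_map hG h1 h2, dotI_ofFn, nonpos_iff] at h
    exact h
  have hRne : bZ G (vecN (D.Rt.get j)) (vecN hc) < 0 → toR (vecN (D.Rt.get j)) ≠ 0 := by
    intro h
    apply toR_ne_zero
    intro h0
    rw [h0] at h
    have h3 : bZ G 0 (vecN hc) = 0 := by unfold bZ; simp
    rw [h3] at h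
    exact lt_irrefl _ h
  cases c with
  | fin c =>
    simp only [vertOK, Bool.and_eq_true] at hv
    obtain ⟨⟨⟨⟨⟨ha, hb⟩, hc1⟩, hd⟩, hn1⟩, hq⟩ := hv
    refine ⟨?_, hnh hn1, hqn hq⟩
    generalize hFs : decN 6 c = Fs at ha hc1 hd
    generalize hIs : decN 6 (Nat.div c 302231454903657293676544) = Is at hb hd
    have hFl : Fs.length = 6 := by rw [← hFs]; exact d04_decN_length _ _
    have hIl : Is.length = 6 := by rw [← hIs]; exact d04_decN_length _ _
    have hFk : ∀ k : Fin 6, (k : ℕ) < Fs.length := fun k => by rw [hFl]; exact k.2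
    have hIk : ∀ k : Fin 6, (k : ℕ) < Is.length := fun k => by rw [hIl]; exact k.2
    have hFn : ∀ k : Fin 6, Fs[(k : ℕ)]'(hFk k) < D.n := fun k =>
      d04_allLt ha _ (List.getElem_mem _)
    have hIm : ∀ k : Fin 6, Is[(k : ℕ)]'(hIk k) < D.m := fun k =>
      d04_allLt hb _ (List.getElem_mem _)
    let e : Fin 6 → Fin D.n := fun k => ⟨Fs[(k : ℕ)]'(hFk k), hFn k⟩
    let i : Fin 6 → Fin D.m := fun k => ⟨Is[(k : ℕ)]'(hIk k), hIm k⟩
    have hrow : ∀ k l : Fin 6, (l = k → isn (D.Rt.get (i k)) (D.Ft.get (e l)) = true) ∧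
        (l ≠ k → isz (D.Rt.get (i k)) (D.Ft.get (e l)) = true) := by
      intro k l
      have h3 := d04_diagOK hd k (by rw [List.length_map]; exact hIk k)
      have h4 := d04_rowD h3 l (by rw [List.length_map]; exact hFk l)
      rw [List.getElem_map, List.getElem_map, Nat.zero_add] at h4
      exact ⟨fun h => h4.1 (by rw [h]), fun h => h4.2 fun h' => h (Fin.ext h')⟩
    have hneg : ∀ k : Fin 6, bZ G (vecN (D.Rt.get (i k))) (vecN (D.Et.get (e k))) < 0 :=
      fun k => (hn _ _ (e k).2).mp ((hrow k k).1 rfl)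
    have hzer : ∀ k l : Fin 6, l ≠ k →
        bZ G (vecN (D.Rt.get (i k))) (vecN (D.Et.get (e l))) = 0 :=
      fun k l h => (hz _ _ (e l).2).mp ((hrow k l).2 h)
    have hRj : ∀ k : Fin 6, bZ G (vecN (D.Rt.get j)) (vecN (D.Et.get (e k))) = 0 := by
      intro k
      apply (hz _ _ (e k).2).mp
      apply d04_allz hc1
      exact List.mem_map.mpr ⟨_, List.getElem_mem (hFk k), rfl⟩
    apply d04_LC _ _ _ (Finset.univ.image e)
    intro x hx hxR
    have hex : ∃ k, bR G x (toR (vecN (D.Et.get (e k)))) < 0 := by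
      by_contra hno
      push Not at hno
      apply hxR
      have h3 : ∀ k, bR G x (toR (vecN (D.Et.get (e k)))) = 0 := fun k =>
        le_antisymm (hx (e k) (Finset.mem_image_of_mem e (Finset.mem_univ k))) (hno k)
      refine ker_triangular (fun k => d04_lin G (toR (vecN (D.Et.get (e k)))))
        (fun k => toR (vecN (D.Rt.get (i k)))) ?_ ?_ (hRne (hnh hn1)) ?_ h3
      · intro k
        show bR G (toR (vecN (D.Rt.get (i k)))) (toR (vecN (D.Et.get (e k)))) ≠ 0
        rw [bR_toR]
        exact_mod_cast (hneg k).ne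
      · intro k l hkl
        show bR G (toR (vecN (D.Rt.get (i l)))) (toR (vecN (D.Et.get (e k)))) = 0
        rw [bR_toR, hzer l k hkl.ne]
        simp
      · intro k
        show bR G (toR (vecN (D.Rt.get j))) (toR (vecN (D.Et.get (e k)))) = 0
        rw [bR_toR, hRj k]
        simp
    obtain ⟨k, hk⟩ := hex
    refine ⟨({e k}, i k), ⟨Finset.singleton_nonempty _, ?_, ?_, ?_⟩, ?_⟩
    · intro e' he'
      rw [Finset.mem_singleton] at he'
      rw [he']
      exact Finset.mem_image_of_mem e (Finset.mem_univ k)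
    · intro e' he'
      rw [Finset.mem_singleton] at he'
      rw [he']
      exact hneg k
    · intro e' he' hne
      obtain ⟨l, _, rfl⟩ := Finset.mem_image.mp he'
      apply hzer
      rintro rfl
      exact hne (Finset.mem_singleton_self _)
    · intro e' he'
      rw [Finset.mem_singleton] at he'
      rw [he']
      exact hk
  | idl sp comps cor =>
    simp only [vertOK, Bool.and_eq_true] at hv
    obtain ⟨⟨⟨⟨⟨⟨⟨⟨⟨hva, hvb⟩, hvc⟩, hvd⟩, hve⟩, hvf⟩, hvg⟩, hvh⟩, hvi⟩, hvj⟩ := hv
    refine ⟨?_, hnh hvi, hqn hvj⟩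
    generalize hFs : decN 6 sp = Fs at hva hvb hvc
    generalize hIs : decN 6 (Nat.div sp 302231454903657293676544) = Is at hvc
    have hFl : Fs.length = 6 := by rw [← hFs]; exact d04_decN_length _ _
    have hIl : Is.length = 6 := by rw [← hIs]; exact d04_decN_length _ _
    have hFk : ∀ k : Fin 6, (k : ℕ) < Fs.length := fun k => by rw [hFl]; exact k.2
    have hIk : ∀ k : Fin 6, (k : ℕ) < Is.length := fun k => by rw [hIl]; exact k.2
    obtain ⟨_, hsp1, hsp2⟩ := d04_spineOK hvc
    have hne : comps ≠ [] := by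
      rintro rfl
      simp at hvg
    set AL : List (ℕ × ℕ) := comps.flatMap fun c => c.1 with hAL
    have hALn : ∀ p ∈ AL, p.1 < D.n := fun p hp =>
      d04_allLt hvd _ (List.mem_map.mpr ⟨p, hp, rfl⟩)
    have hspAL : ∀ k : Fin 6, ∃ p ∈ AL, p.1 = Fs[(k : ℕ)]'(hFk k) := by
      intro k
      have h3 := d04_subset hvb _ (List.getElem_mem (hFk k))
      obtain ⟨p, hp, hp'⟩ := List.mem_map.mp h3
      exact ⟨p, hp, hp'⟩
    have hFn : ∀ k : Fin 6, Fs[(k : ℕ)]'(hFk k) < D.n := fun k =>
      d04_allLt hva _ (List.getElem_mem _)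
    have hRjAL : ∀ p ∈ AL, bZ G (vecN (D.Rt.get j)) (vecN (D.Et.get p.1)) = 0 := by
      intro p hp
      apply (hz _ _ (hALn p hp)).mp
      exact d04_allz hve _ (List.mem_map.mpr ⟨p, hp, rfl⟩)
    apply d04_LC _ _ _ (Finset.univ.filter fun e : Fin D.n => (e : ℕ) ∈ AL.map Prod.fst)
    intro x hx hxR
    have hle : ∀ p ∈ AL, bR G x (toR (vecN (D.Et.get p.1))) ≤ 0 := by
      intro p hp
      exact hx ⟨p.1, hALn p hp⟩ (Finset.mem_filter.mpr ⟨Finset.mem_univ _,
        List.mem_map.mpr ⟨p, hp, rfl⟩⟩)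
    have hcomp : ∀ c ∈ comps, (∀ p ∈ c.1, p ∈ AL) ∧ (∀ p ∈ c.1, 0 < p.2) ∧ 0 < c.2 ∧
        (c.1.map fun p => (p.2 : ℝ) * bR G x (toR (vecN (D.Et.get p.1)))).sum =
          (c.2 : ℝ) * bR G x (toR (vecN (D.Rt.get j))) := by
      intro c hcc
      have h3 := List.all_eq_true.mp hvf c hcc
      simp only [Bool.and_eq_true] at h3
      obtain ⟨⟨⟨⟨⟨h4, h5⟩, h6⟩, h7⟩, h8⟩, h9⟩ := h3
      refine ⟨?_, ?_, Nat.blt_eq.mp h5, ?_⟩
      · intro p hp
        rw [hAL, List.mem_flatMap]
        exact ⟨c, hcc, hp⟩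
      · intro p hp
        exact Nat.blt_eq.mp (List.all_eq_true.mp h6 p hp)
      · have h10 := Nat.beq_eq.mp h9
        simp only [Nat.add_eq, Nat.mul_eq] at h10
        have h11 := rel_eq hE hRt c.1 c.2 j (Nat.blt_eq.mp h7) (Nat.blt_eq.mp h8) h10
        have h12 := d04_rel G x c.1 (fun a => vecN (D.Et.get a))
        rw [h11, toR_smul, bR_smul_right] at h12
        rw [← h12]
        simp
    by_cases hRj : bR G x (toR (vecN (D.Rt.get j))) < 0
    · -- every component has a negative facet
      have hneg : ∀ c ∈ comps, ∃ p ∈ c.1, bR G x (toR (vecN (D.Et.get p.1))) < 0 := by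
        intro c hcc
        obtain ⟨_, _, h5, h6⟩ := hcomp c hcc
        have h7 : (c.1.map fun p => (p.2 : ℝ) * bR G x (toR (vecN (D.Et.get p.1)))).sum < 0 := by
          rw [h6]
          exact mul_neg_of_pos_of_neg (by exact_mod_cast h5) hRj
        obtain ⟨p, hp, h8⟩ := d04_sum_neg h7
        refine ⟨p, hp, ?_⟩
        by_contra h9
        rw [not_lt] at h9
        have h10 : 0 ≤ (p.2 : ℝ) * bR G x (toR (vecN (D.Et.get p.1))) :=
          mul_nonneg (Nat.cast_nonneg _) h9
        linarith
      obtain ⟨f, hf, hfn⟩ := d04_tv (P := fun a => bR G x (toR (vecN (D.Et.get a))) < 0) hneg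
      obtain ⟨hfAL, hfne⟩ := d04_tv_mem hf
      obtain ⟨i, him, hcor⟩ := d04_cornersOK hvh f hf
      have hcor2 := d04_cornerOK hcor
      refine ⟨(Finset.univ.filter fun e : Fin D.n => (e : ℕ) ∈ f, ⟨i, him⟩), ⟨?_, ?_, ?_, ?_⟩, ?_⟩
      · obtain ⟨a, ha⟩ := List.exists_mem_of_ne_nil f (hfne hne)
        have h3 : a < D.n := by
          obtain ⟨p, hp, hp'⟩ := List.mem_map.mp (hfAL a ha)
          rw [← hp']
          exact hALn p hp
        exact ⟨⟨a, h3⟩, Finset.mem_filter.mpr ⟨Finset.mem_univ _, ha⟩⟩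
      · intro e he
        rw [Finset.mem_filter] at he ⊢
        exact ⟨he.1, hfAL _ he.2⟩
      · intro e he
        rw [Finset.mem_filter] at he
        obtain ⟨p, hp, hp'⟩ := List.mem_map.mp (hfAL _ he.2)
        have h3 := (hcor2 (p.1, D.Ft.get p.1) (List.mem_map.mpr ⟨p, hp, rfl⟩)).1
          (by rw [hp']; exact he.2)
        rw [hp'] at h3
        exact (hn i e e.2).mp h3
      · intro e he hef
        rw [Finset.mem_filter] at he
        obtain ⟨p, hp, hp'⟩ := List.mem_map.mp he.2
        have h3 := (hcor2 (p.1, D.Ft.get p.1) (List.mem_map.mpr ⟨p, hp, rfl⟩)).2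
          (by
            rw [hp']
            exact fun h => hef (Finset.mem_filter.mpr ⟨Finset.mem_univ _, h⟩))
        rw [hp'] at h3
        exact (hz i e e.2).mp h3
      · intro e he
        rw [Finset.mem_filter] at he
        exact hfn _ he.2
    · -- all facets vanish on `x`
      exfalso
      rw [not_lt] at hRj
      have hzero : ∀ p ∈ AL, bR G x (toR (vecN (D.Et.get p.1))) = 0 := by
        intro p hp
        rw [hAL, List.mem_flatMap] at hp
        obtain ⟨c, hcc, hp⟩ := hp
        obtain ⟨h3, h4, h5, h6⟩ := hcomp c hcc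
        have h7 := d04_sum_zero (l := c.1)
          (f := fun p => (p.2 : ℝ) * bR G x (toR (vecN (D.Et.get p.1)))) (by
          intro a ha
          exact mul_nonpos_of_nonneg_of_nonpos (Nat.cast_nonneg _) (hle a (h3 a ha)))
          (by rw [h6]; exact mul_nonneg (Nat.cast_nonneg _) hRj) p hp
        rcases mul_eq_zero.mp h7 with h8 | h8
        · have h9 := h4 p hp
          have h10 : p.2 = 0 := by exact_mod_cast h8
          omega
        · exact h8
      apply hxR
      refine ker_triangular (fun k => d04_lin G (toR (vecN (D.Et.get (Fs[(k : ℕ)]'(hFk k))))))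
        (fun k => toR (vecN (D.Rt.get (Is[(k : ℕ)]'(hIk k))))) ?_ ?_ (hRne (hnh hvi)) ?_ ?_
      · intro k
        show bR G (toR (vecN (D.Rt.get (Is[(k : ℕ)]'(hIk k)))))
          (toR (vecN (D.Et.get (Fs[(k : ℕ)]'(hFk k))))) ≠ 0
        rw [bR_toR]
        have h3 := hsp1 k (by rw [List.length_map]; exact hFk k)
          (by rw [List.length_map]; exact hIk k)
        rw [List.getElem_map, List.getElem_map, hz _ _ (hFn k)] at h3
        exact_mod_cast h3
      · intro k l hkl
        show bR G (toR (vecN (D.Rt.get (Is[(l : ℕ)]'(hIk l)))))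
          (toR (vecN (D.Et.get (Fs[(k : ℕ)]'(hFk k))))) = 0
        rw [bR_toR]
        have h3 := hsp2 k l (by rw [List.length_map]; exact hFk k)
          (by rw [List.length_map]; exact hIk l) hkl
        rw [List.getElem_map, List.getElem_map, hz _ _ (hFn k)] at h3
        rw [h3]
        simp
      · intro k
        show bR G (toR (vecN (D.Rt.get j))) (toR (vecN (D.Et.get (Fs[(k : ℕ)]'(hFk k))))) = 0
        obtain ⟨p, hp, hp'⟩ := hspAL k
        rw [bR_toR, ← hp', hRjAL p hp]
        simp
      · intro k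
        show bR G x (toR (vecN (D.Et.get (Fs[(k : ℕ)]'(hFk k))))) = 0
        obtain ⟨p, hp, hp'⟩ := hspAL k
        rw [← hp']
        exact hzero p hp

/-- `vertsOK` for a list starting at `j` gives `vertOK` for the entries -/
theorem vertsOK_get {D : PD} {cs : List Vc} {j : ℕ} (h : vertsOK D j cs = true) (k : ℕ)
    (hk : k < cs.length) : vertOK D (j + k) (cs[k]) = true := by
  induction cs generalizing j k with
  | nil => simp at hk
  | cons c cs ih =>
    rw [vertsOK, Bool.and_eq_true] at h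
    cases k with
    | zero => exact h.1
    | succ k =>
      have h1 := ih h.2 k (by simpa using hk)
      have e : j + (k + 1) = Nat.succ j + k := by omega
      rw [e]
      exact h1

end RH6.P
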