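import Mathlib

open Matrix

namespace RH6

/-- the standard form of signature (6,1) on `ℝ^7` -/
def J0 : Matrix (Fin 7) (Fin 7) ℝ := Matrix.diagonal ![1, 1, 1, 1, 1, 1, -1]

/-- the open cone over the upper sheet of the hyperboloid (hyperbolic 6-space `ℍ^6` is the set of
rays of this cone, or the set of `x` with `Up x` and `xᵀ J0 x = -1`) -/
def Up (x : Fin 7 → ℝ) : Prop := x ⬝ᵥ (J0 *ᵥ x) < 0 ∧ 0 < x 6

/-- `Isom(ℍ^6)`: the linear maps preserving the form and the upper sheet -/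
def IsomH6 : Subgroup (GL (Fin 7) ℝ) where
  carrier := {g | g.1ᵀ * J0 * g.1 = J0 ∧ ∀ x, Up x ↔ Up (g.1 *ᵥ x)}
  one_mem' := by
    refine ⟨by simp, fun x => by simp⟩
  mul_mem' := by
    rintro a b ⟨ha1, ha2⟩ ⟨hb1, hb2⟩
    have hab : (a * b).1 = a.1 * b.1 := rfl
    refine ⟨?_, fun x => ?_⟩
    · rw [hab, Matrix.transpose_mul]
      calc b.1ᵀ * a.1ᵀ * J0 * (a.1 * b.1) = b.1ᵀ * (a.1ᵀ * J0 * a.1) * b.1 := by
            simp only [Matrix.mul_assoc]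
        _ = J0 := by rw [ha1, hb1]
    · rw [hab, ← Matrix.mulVec_mulVec, hb2, ha2]
  inv_mem' := by
    rintro a ⟨ha1, ha2⟩
    have hinv : a.1 * (a⁻¹).1 = 1 := by
      have h1 : a * a⁻¹ = 1 := mul_inv_cancel a
      have h3 : (a * a⁻¹).1 = a.1 * (a⁻¹).1 := rfl
      rw [← h3, h1]; rfl
    refine ⟨?_, fun x => ?_⟩
    · have h4 : ((a⁻¹).1)ᵀ * a.1ᵀ = 1 := by
        rw [← Matrix.transpose_mul, hinv, Matrix.transpose_one]
      calc ((a⁻¹).1)ᵀ * J0 * (a⁻¹).1 = ((a⁻¹).1)ᵀ * (a.1ᵀ * J0 * a.1) * (a⁻¹).1 := by rw [ha1]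
        _ = (((a⁻¹).1)ᵀ * a.1ᵀ) * J0 * (a.1 * (a⁻¹).1) := by simp only [Matrix.mul_assoc]
        _ = J0 := by rw [h4, hinv]; simp
    · rw [ha2 ((a⁻¹).1 *ᵥ x), Matrix.mulVec_mulVec, hinv, Matrix.one_mulVec]

/-- reflections of `ℍ^6` (in the hyperplane orthogonal to a vector of positive norm) -/
def IsReflection (g : GL (Fin 7) ℝ) : Prop :=
  ∃ e : Fin 7 → ℝ, 0 < e ⬝ᵥ (J0 *ᵥ e) ∧
    ∀ x, g.1 *ᵥ x = x - (2 * (x ⬝ᵥ (J0 *ᵥ e)) / (e ⬝ᵥ (J0 *ᵥ e))) • e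

/-- integral matrices as real matrices -/
def iota : GL (Fin 7) ℤ →* GL (Fin 7) ℝ :=
  Matrix.GeneralLinearGroup.map (Int.castRingHom ℝ)

/-- the group of all isometries of `ℍ^6` preserving the lattice `P ℤ^7` -/
def latGroup (P : GL (Fin 7) ℝ) : Subgroup (GL (Fin 7) ℝ) where
  carrier := {g | g ∈ IsomH6 ∧ ∃ h : GL (Fin 7) ℤ, g * P = P * iota h}
  one_mem' := ⟨IsomH6.one_mem, 1, by simp⟩
  mul_mem' := by
    rintro a b ⟨ha, h, hh⟩ ⟨hb, k, hk⟩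
    refine ⟨IsomH6.mul_mem ha hb, h * k, ?_⟩
    rw [mul_assoc, hk, ← mul_assoc, hh, mul_assoc, map_mul]
  inv_mem' := by
    rintro a ⟨ha, h, hh⟩
    refine ⟨IsomH6.inv_mem ha, h⁻¹, ?_⟩
    rw [map_inv, inv_mul_eq_iff_eq_mul, ← mul_assoc, hh, mul_assoc, mul_inv_cancel, mul_one]

/-- arithmetic subgroups of `Isom(ℍ^6)`: commensurable with `O'(f, ℤ)` for a quadratic form `f`
over `ℚ` of signature (6,1); `P` is a real equivalence of `f` (matrix `S`) with `J0`. -/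
def IsArith (Γ : Subgroup (GL (Fin 7) ℝ)) : Prop :=
  Γ ≤ IsomH6 ∧ ∃ (P : GL (Fin 7) ℝ) (S : Matrix (Fin 7) (Fin 7) ℚ),
    P.1ᵀ * J0 * P.1 = S.map (fun q : ℚ => (q : ℝ)) ∧ Γ.Commensurable (latGroup P)

/-- non-uniform arithmetic subgroups: the form `f` is isotropic over `ℚ` -/
def IsNonunif (Γ : Subgroup (GL (Fin 7) ℝ)) : Prop :=
  Γ ≤ IsomH6 ∧ ∃ (P : GL (Fin 7) ℝ) (S : Matrix (Fin 7) (Fin 7) ℚ),
    P.1ᵀ * J0 * P.1 = S.map (fun q : ℚ => (q : ℝ)) ∧ Γ.Commensurable (latGroup P) ∧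
    ∃ x : Fin 7 → ℚ, x ≠ 0 ∧ x ⬝ᵥ (S *ᵥ x) = 0

/-- groups generated by reflections -/
def IsReflGroup (Γ : Subgroup (GL (Fin 7) ℝ)) : Prop :=
  Γ = Subgroup.closure {g | g ∈ Γ ∧ IsReflection g}

/-- maximal non-uniform reflective arithmetic lattices in `Isom(ℍ^6)` -/
def IsMax (Γ : Subgroup (GL (Fin 7) ℝ)) : Prop :=
  IsNonunif Γ ∧ IsReflGroup Γ ∧
    ∀ Γ' : Subgroup (GL (Fin 7) ℝ), IsArith Γ' → IsReflGroup Γ' → Γ ≤ Γ' → Γ' = Γ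

/-- the subgroup generated by all reflections of the group of the lattice `P ℤ^7` -/
def WP (P : GL (Fin 7) ℝ) : Subgroup (GL (Fin 7) ℝ) :=
  Subgroup.closure {g | g ∈ latGroup P ∧ IsReflection g}

end RH6
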