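import Pool.Agent.RH6.N4
import Pool.Agent.RH6.B3b

namespace RH6

variable {V : Type*} [AddCommGroup V] [Module ℚ V] [FiniteDimensional ℚ V]

/-- the situation in which the families are studied: `N = 1` or `2`, cusp condition, `Big2` -/
structure Ctx (N : ℕ) (B : LinearMap.BilinForm ℚ V) (K : AddSubgroup V) : Prop where
  hN : N = 1 ∨ N = 2
  cf : CF (hB N B) (hL K)
  big : Big2 B K

/-- Row [RH-N5]: passing to a neighbour, family `F_0` (`nb2_even` for `N` and for `1`,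
`class_iso`, `CF_HIso`) -/
theorem step_F0 {B : LinearMap.BilinForm ℚ V} {K : AddSubgroup V} {N : ℕ} (hX : Ctx N B K)
    (hF : F0 B K) {k : V} (hk : k ∈ K) {v : ℤ} (hv : B k k = 4 * v)
    (h1 : ∃ x₁ ∈ K, ∃ z : ℤ, B x₁ k = 2 * z + 1) :
    Ctx N B (Nb2 B K k v) ∧ F0 B (Nb2 B K k v) ∧ HIso N B K (Nb2 B K k v) := by
  have hI1 : HIso 1 B K (Nb2 B K k v) := nb2_even hF.symm hF.even hk hv h1 (Or.inl rfl)
  have hIN : HIso N B K (Nb2 B K k v) := nb2_even hF.symm hF.even hk hv h1 hX.hN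
  obtain ⟨c1, _, _, _, c5⟩ := class_iso hI1
  exact ⟨⟨hX.hN, CF_HIso hF.symm hIN hX.cf, c5 hF.toK5 hX.big⟩, c1 hF, hIN⟩

theorem step_F2 {B : LinearMap.BilinForm ℚ V} {K : AddSubgroup V} {N : ℕ} (hX : Ctx N B K)
    (hF : F2 B K) {k : V} (hk : k ∈ K) {v : ℤ} (hv : B k k = 4 * v)
    (h1 : ∃ x₁ ∈ K, ∃ z : ℤ, B x₁ k = 2 * z + 1) :
    Ctx N B (Nb2 B K k v) ∧ F2 B (Nb2 B K k v) ∧ HIso N B K (Nb2 B K k v) := by
  have hI1 : HIso 1 B K (Nb2 B K k v) := nb2_even hF.symm hF.even hk hv h1 (Or.inl rfl)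
  have hIN : HIso N B K (Nb2 B K k v) := nb2_even hF.symm hF.even hk hv h1 hX.hN
  obtain ⟨_, c2, _, _, c5⟩ := class_iso hI1
  exact ⟨⟨hX.hN, CF_HIso hF.symm hIN hX.cf, c5 hF.toK5 hX.big⟩, c2 hF, hIN⟩

theorem step_FQ {B : LinearMap.BilinForm ℚ V} {K : AddSubgroup V} {N : ℕ} (hX : Ctx N B K)
    (hF : FQ B K) {k : V} (hk : k ∈ K) (h2 : k ∉ mulL 2 K) {u : ℤ} (hu : B k k = 4 * u) (v : ℤ) :
    Ctx N B (Nb2 B K k v) ∧ FQ B (Nb2 B K k v) ∧ HIso N B K (Nb2 B K k v) := by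
  have hI1 : HIso 1 B K (Nb2 B K k v) := nb2_odd hF hk h2 hu v (Or.inl rfl)
  have hIN : HIso N B K (Nb2 B K k v) := nb2_odd hF hk h2 hu v hX.hN
  obtain ⟨_, _, c3, _, c5⟩ := class_iso hI1
  exact ⟨⟨hX.hN, CF_HIso hF.symm hIN hX.cf, c5 hF.toK5 hX.big⟩, c3 hF, hIN⟩

/-- Row [RH-N5]: root directions survive: if `r` is a root of `K`, `(k,r) = y (r,r)` with `y ∈ ℤ`,
`y (r,r)` is even and no vector `t r` is of the form `X - (a/2) k` with `X ∈ K`, `a` odd, then `r` is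
a root of `Nb2 B K k v`.
Proof: `r = X - (a/2)k` with `X = r`, `a = 0`, `(r,k) = y(r,r)` even: `r ∈ K'`.  For
`w = X - (a/2) k ∈ K'`: `2(w,r)/(r,r) = 2(X,r)/(r,r) - a y ∈ ℤ`.  Primitivity: if `t r ∈ K'`, then
`t r = X - (a/2)k`, `a` is even, so `t r ∈ K` and `t ∈ ℤ`. -/
theorem rt_nb2 {B : LinearMap.BilinForm ℚ V} (hs : ∀ x y, B x y = B y x) {K : AddSubgroup V}
    {k r : V} (hk : k ∈ K) {v y : ℤ} (hr : Rt B K r) (hr0 : 0 < B r r) (hy : B k r = y * B r r)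
    (he : ∃ z : ℤ, y * B r r = 2 * z)
    (hp : ∀ t : ℚ, ∀ X ∈ K, ∀ a : ℤ, Odd a → t • r ≠ X - ((a : ℚ) / 2) • k) :
    Rt B (Nb2 B K k v) r := by
  obtain ⟨hrK, hrne, hrd, hprim⟩ := hr
  refine ⟨?_, hrne, ?_, ?_⟩
  · obtain ⟨z, hz⟩ := he
    refine ⟨r, hrK, 0, z, by simp, ?_⟩
    rw [hs r k, hy, hz]
    simp
  · rintro w ⟨x, hx, a, t, rfl, -⟩
    obtain ⟨n, hn⟩ := hrd x hx
    refine ⟨n - a * y, ?_⟩
    rw [map_sub, LinearMap.sub_apply, map_smul, LinearMap.smul_apply, smul_eq_mul, hy, mul_sub, hn]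
    push_cast
    ring
  · rintro t ⟨X, hX, a, s, h, -⟩
    rcases Int.even_or_odd a with ha | ha
    · obtain ⟨b, rfl⟩ := ha
      apply hprim
      rw [h]
      have h2 : (((b + b : ℤ) : ℚ) / 2) • k = b • k := by
        have : (((b + b : ℤ) : ℚ) / 2) = (b : ℚ) := by push_cast; ring
        rw [this, Int.cast_smul_eq_zsmul]
      rw [h2]
      exact K.sub_mem hX (K.zsmul_mem hk b)
    · exact absurd h (hp t X hX a ha)

theorem n5_nice {B : LinearMap.BilinForm ℚ V} {K : AddSubgroup V} (hK : K5 B K) : Nice B := by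
  refine ⟨hK.symm, fun x hx => ?_⟩
  by_contra h
  exact absurd (hx x) (hK.pos x h).ne'

theorem n5_prim {B : LinearMap.BilinForm ℚ V} {K : AddSubgroup V} {r : V} (hr : Rt B K r) {p : ℕ}
    (hp : 2 ≤ p) (h : (1 / (p : ℚ)) • r ∈ K) : False := by
  obtain ⟨z, hz⟩ := hr.2.2.2 _ h
  have hp0 : (0 : ℚ) < p := by exact_mod_cast (by omega : 0 < p)
  have h1 : (z : ℚ) * p = 1 := by rw [← hz]; field_simp
  have h2 : z * (p : ℤ) = 1 := by exact_mod_cast h1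
  have h3 : (p : ℤ) ∣ 1 := ⟨z, by rw [← h2]; ring⟩
  have h4 : p ∣ 1 := by exact_mod_cast h3
  have h5 := Nat.dvd_one.mp h4
  omega

theorem n5_key {B : LinearMap.BilinForm ℚ V} (hs : ∀ x y, B x y = B y x) {K : AddSubgroup V}
    {r : V} (hr : Rt B K r) {p : ℕ} (hp : p.Prime) (hE : Elem B K p)
    (h : ∀ x ∈ K, ∃ z : ℤ, B x r = ((p : ℤ) ^ 2 : ℤ) * z) : False := by
  have hp0 : (p : ℚ) ≠ 0 := by exact_mod_cast hp.ne_zero
  have h1 : (1 / ((p ^ 2 : ℕ) : ℚ)) • r ∈ dualL B K := by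
    refine dual_of_dvd (pow_pos hp.pos 2) ?_
    intro x hx
    obtain ⟨z, hz⟩ := h x hx
    refine ⟨z, ?_⟩
    rw [hs r x, hz]
    push_cast
    ring
  have h2 : ((p : ℤ) ^ 2) • ((1 / ((p ^ 2 : ℕ) : ℚ)) • r) = r := by
    rw [← Int.cast_smul_eq_zsmul ℚ, smul_smul]
    have : (((p : ℤ) ^ 2 : ℤ) : ℚ) * (1 / ((p ^ 2 : ℕ) : ℚ)) = 1 := by
      push_cast
      field_simp
    rw [this, one_smul]
  have h3 := hE _ h1 (by rw [h2]; exact hr.1)
  have h4 : (p : ℤ) • ((1 / ((p ^ 2 : ℕ) : ℚ)) • r) = (1 / (p : ℚ)) • r := by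
    rw [← Int.cast_smul_eq_zsmul ℚ, smul_smul]
    congr 1
    push_cast
    field_simp
  rw [h4] at h3
  exact n5_prim hr hp.two_le h3

/-- products with a root, in integers -/
theorem n5_prod {B : LinearMap.BilinForm ℚ V} {K : AddSubgroup V} (hI : Integ B K)
    {r : V} (hr : Rt B K r) {n : ℕ} (hn : B r r = n) {x : V} (hx : x ∈ K) :
    ∃ w m : ℤ, B x r = w ∧ 2 * w = m * n := by
  obtain ⟨w, hw⟩ := hI x hx r hr.1
  obtain ⟨m, hm⟩ := hr.2.2.1 x hx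
  refine ⟨w, m, hw, ?_⟩
  rw [hw, hn] at hm
  exact_mod_cast hm

theorem n5_sqf {B : LinearMap.BilinForm ℚ V} (hs : ∀ x y, B x y = B y x) {K : AddSubgroup V}
    (hI : Integ B K) {r : V} (hr : Rt B K r) {n : ℕ} (hn : B r r = n)
    (hE : ∀ p : ℕ, p.Prime → p ≠ 2 → Elem B K p) {μ : ℕ} (hμ : Odd μ) (hd : μ ∣ n) :
    Squarefree μ := by
  rw [Nat.squarefree_iff_prime_squarefree]
  intro p hp hpp
  have hp2 : p ≠ 2 := by
    rintro rfl
    have h2 : 2 ∣ μ := (Dvd.intro 2 rfl).trans hpp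
    exact (Nat.not_even_iff_odd.mpr hμ) (even_iff_two_dvd.mpr h2)
  refine n5_key hs hr hp (hE p hp hp2) ?_
  intro x hx
  obtain ⟨w, m, hw, hm⟩ := n5_prod hI hr hn hx
  have h1 : (p * p) ∣ n := hpp.trans hd
  have h2 : ((p : ℤ) ^ 2) ∣ (n : ℤ) := by
    have : ((p * p : ℕ) : ℤ) ∣ (n : ℤ) := by exact_mod_cast h1
    rw [Nat.cast_mul, ← sq] at this
    exact this
  have h3 : ((p : ℤ) ^ 2) ∣ 2 * w := by
    rw [hm]
    exact Dvd.dvd.mul_left h2 m
  have hodd : Odd p := hp.odd_of_ne_two hp2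
  have hcop : IsCoprime ((p : ℤ) ^ 2) 2 := by
    apply IsCoprime.pow_left
    have : Nat.Coprime p 2 := hodd.coprime_two_right
    exact_mod_cast Nat.isCoprime_iff_coprime.mpr this
  obtain ⟨z, hz⟩ := hcop.dvd_of_dvd_mul_left h3
  refine ⟨z, ?_⟩
  rw [hw, hz]
  push_cast
  ring

/-- `8` does not divide the norm of a root if `K` is elementary at 2 -/
theorem n5_eight {B : LinearMap.BilinForm ℚ V} (hs : ∀ x y, B x y = B y x) {K : AddSubgroup V}
    (hI : Integ B K) {r : V} (hr : Rt B K r) {n : ℕ} (hn : B r r = n)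
    (hE : Elem B K 2) (hd : 8 ∣ n) : False := by
  refine n5_key hs hr Nat.prime_two hE ?_
  intro x hx
  obtain ⟨w, m, hw, hm⟩ := n5_prod hI hr hn hx
  obtain ⟨q, rfl⟩ := hd
  refine ⟨m * q, ?_⟩
  rw [hw]
  have : w = 4 * (m * q) := by
    push_cast at hm
    linarith
  rw [this]
  push_cast
  ring

/-- if `4` divides the norm of a root, it is in `Rad B K 2` -/
theorem n5_four {B : LinearMap.BilinForm ℚ V} (hs : ∀ x y, B x y = B y x) {K : AddSubgroup V}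
    (hI : Integ B K) {r : V} (hr : Rt B K r) {n : ℕ} (hn : B r r = n) (hd : 4 ∣ n) :
    r ∈ Rad B K 2 := by
  refine ⟨hr.1, ?_⟩
  intro x hx
  obtain ⟨w, m, hw, hm⟩ := n5_prod hI hr hn hx
  obtain ⟨q, rfl⟩ := hd
  refine ⟨m * q, ?_⟩
  rw [hs r x, hw]
  have : w = 2 * (m * q) := by
    push_cast at hm
    linarith
  rw [this]
  push_cast
  ring

theorem n5_notmul {B : LinearMap.BilinForm ℚ V} {K : AddSubgroup V} {r : V} (hr : Rt B K r) :
    r ∉ mulL 2 K := by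
  rintro ⟨y, hy, h⟩
  refine n5_prim hr (le_refl 2) ?_
  have : (1 / ((2 : ℕ) : ℚ)) • r = y := by
    rw [h, ← Int.cast_smul_eq_zsmul ℚ, smul_smul]
    have : (1 / ((2 : ℕ) : ℚ)) * (((2 : ℕ) : ℤ) : ℚ) = 1 := by norm_num
    rw [this, one_smul]
  rw [this]
  exact hy

theorem n5_idx {B : LinearMap.BilinForm ℚ V} {K : AddSubgroup V} (hK : K5 B K) (hI : Integ B K) :
    (mulL 2 K).relIndex (Rad B K 2) * (Rad B K 2).relIndex K = 32 := by
  have h1 : Rad B K 2 ≤ K := fun x hx => hx.1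
  rw [AddSubgroup.relIndex_mul_relIndex _ _ _ (mulL_le_rad hI 2) h1,
    relIndex_mulL hK.lat 2 (by norm_num), hK.dim]
  norm_num

theorem n5_FQ {B : LinearMap.BilinForm ℚ V} {K : AddSubgroup V} (hF : FQ B K) {r : V}
    (hr : Rt B K r) {n : ℕ} (hn : B r r = n) (hd : 4 ∣ n) : False := by
  have h1 := n5_four hF.symm hF.int hr hn hd
  have h2 := n5_idx hF.toK5 hF.int
  rw [hF.idx] at h2
  have h3 : (mulL 2 K).relIndex (Rad B K 2) = 1 := by omega
  rw [AddSubgroup.relIndex_eq_one] at h3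
  exact n5_notmul hr (h3 h1)

theorem n5_F0 {B : LinearMap.BilinForm ℚ V} {K : AddSubgroup V} (hF : F0 B K) {r : V}
    (hr : Rt B K r) {n : ℕ} (hn : B r r = n) (hd : 4 ∣ n) : False := by
  have hI : Integ B K := hF.even.1
  have h1 := n5_four hF.symm hI hr hn hd
  have h2 := n5_idx hF.toK5 hI
  rw [hF.idx] at h2
  have h3 : (mulL 2 K).relIndex (Rad B K 2) = 2 := by omega
  have h4 := n5_notmul hr
  have hs := hF.symm
  -- every element of the radical is in `2K` or in `r + 2K`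
  have h5 : ∀ x ∈ Rad B K 2, x ∉ mulL 2 K → x - r ∈ mulL 2 K := by
    intro x hx hx2
    have h6 := AddSubgroup.add_mem_iff_of_index_two (H := (mulL 2 K).addSubgroupOf (Rad B K 2))
      h3 (a := ⟨x, hx⟩) (b := ⟨-r, (Rad B K 2).neg_mem h1⟩)
    rw [AddSubgroup.mem_addSubgroupOf, AddSubgroup.mem_addSubgroupOf,
      AddSubgroup.mem_addSubgroupOf] at h6
    simp only [AddSubgroup.coe_add] at h6
    rw [sub_eq_add_neg]
    refine h6.mpr ⟨fun h => absurd h hx2, fun h => absurd ?_ h4⟩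
    have := (mulL 2 K).neg_mem h
    rwa [neg_neg] at this
  -- `½ B` is even on the radical
  have hEv : EvenL ((1 / ((2 : ℕ) : ℚ)) • B) (Rad B K 2) := by
    refine ⟨rad_integ (by norm_num), ?_⟩
    intro x hx
    rw [LinearMap.smul_apply, LinearMap.smul_apply, smul_eq_mul]
    by_cases hx2 : x ∈ mulL 2 K
    · obtain ⟨y, hy, rfl⟩ := hx2
      obtain ⟨z, hz⟩ := hI y hy y hy
      refine ⟨z, ?_⟩
      rw [← Int.cast_smul_eq_zsmul ℚ]
      simp only [map_smul, LinearMap.smul_apply, smul_eq_mul, hz]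
      push_cast
      ring
    · obtain ⟨y, hy, hxy⟩ := h5 x hx hx2
      have hx3 : x = r + ((2 : ℕ) : ℚ) • y := by
        rw [← sub_eq_iff_eq_add', hxy, ← Int.cast_smul_eq_zsmul ℚ]
        simp
      obtain ⟨z, hz⟩ := hI y hy y hy
      obtain ⟨w, hw⟩ := hI r hr.1 y hy
      have hw' : B y r = w := by rw [hs y r, hw]
      obtain ⟨q, rfl⟩ := hd
      refine ⟨q + w + z, ?_⟩
      rw [hx3]
      simp only [map_add, map_smul, LinearMap.add_apply, LinearMap.smul_apply, smul_eq_mul, hz, hw,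
        hw', hn]
      push_cast
      ring
  have h7 := rad_rad (n5_nice hF.toK5) hF.lat hI Nat.prime_two (hF.elem 2 Nat.prime_two)
  have h8 : Even 1 := by
    refine even_rank (B := (1 / ((2 : ℕ) : ℚ)) • B) ?_ hEv 1 ?_
    · intro x y
      rw [LinearMap.smul_apply, LinearMap.smul_apply, LinearMap.smul_apply, LinearMap.smul_apply,
        hs x y]
    · rw [h7, h3]
      norm_num
  exact absurd h8 (by decide)

/-- the norm of a root is a positive natural number -/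
theorem n5_nat {B : LinearMap.BilinForm ℚ V} {K : AddSubgroup V} (hK : K5 B K) (hI : Integ B K)
    {r : V} (hr : Rt B K r) : ∃ n : ℕ, B r r = n ∧ n ≠ 0 := by
  obtain ⟨z, hz⟩ := hI r hr.1 r hr.1
  have h1 : 0 < B r r := hK.pos r hr.2.1
  have h2 : 0 < z := by
    rw [hz] at h1
    exact_mod_cast h1
  obtain ⟨n, rfl⟩ := Int.eq_ofNat_of_zero_le h2.le
  refine ⟨n, ?_, by omega⟩
  rw [hz]
  simp

theorem n5_even {B : LinearMap.BilinForm ℚ V} {K : AddSubgroup V} (hE : EvenL B K)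
    {r : V} (hr : Rt B K r) {n : ℕ} (hn : B r r = n) : 2 ∣ n := by
  obtain ⟨z, hz⟩ := hE.2 r hr.1
  rw [hn] at hz
  have h1 : (n : ℤ) = 2 * z := by exact_mod_cast hz
  omega

/-- Row [RH-N5]: norms of roots.  If `r` is a root of `K` then `(r,r) = 2^s μ`, `μ` odd and
squarefree, with `s = 1` for `F_0`, `s ∈ {1,2}` for `F_2`, `s ∈ {0,1}` for `F_Q`.

Proof.  `(r,r) = 2^s μ`, `μ` odd, `s ≥ 0`, since `(r,r)` is a positive integer.  `2(x,r) ∈ (r,r)ℤ`
for `x ∈ K`.  If `p² ∣ μ` then `(x,r) ∈ p²ℤ` for all `x ∈ K`, so `r/p² ∈ K^#`, so by `Elem`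
`r/p ∈ K`, contradiction to primitivity.  `F_0, F_2`: `(r,r)` is even, so `s ≥ 1`.  If `s ≥ 3`:
`(x,r) ∈ 4ℤ`, the same contradiction with `p = 2`.  `F_Q`: if `s ≥ 2`, then `(x,r) ∈ 2ℤ` for all
`x ∈ K`, so `r ∈ Rad B K 2 = 2K` (`[K : Rad] = 32 = [K : 2K]`), contradiction.  `F_0`, `s = 2`:
`(x,r) ∈ 2ℤ`, `r ∈ Rad B K 2`, `(r,r) ∈ 4ℤ`, `r ∉ 2K`.  `[Rad B K 2 : 2K] = 32/16 = 2`, so
`Rad B K 2 = 2K ∪ (r + 2K)` and `½(x,x)` is even on `Rad B K 2` (`(r+2y,r+2y) = (r,r) + 4(r,y) +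
4(y,y)`).  So `(Rad B K 2, ½B)` is an even lattice and by `even_rank` and `rad_rad` the index
`[Rad B K 2 : 2K] = 2^m` has `m` even, contradiction. -/
theorem root_norm {B : LinearMap.BilinForm ℚ V} {K : AddSubgroup V} {r : V} (hr : Rt B K r) :
    (F0 B K → ∃ μ : ℕ, Odd μ ∧ Squarefree μ ∧ B r r = 2 * μ) ∧
    (F2 B K → ∃ μ : ℕ, Odd μ ∧ Squarefree μ ∧ (B r r = 2 * μ ∨ B r r = 4 * μ)) ∧
    (FQ B K → ∃ μ : ℕ, Odd μ ∧ Squarefree μ ∧ (B r r = μ ∨ B r r = 2 * μ)) := by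
  refine ⟨fun hF => ?_, fun hF => ?_, fun hF => ?_⟩
  · have hI : Integ B K := hF.even.1
    obtain ⟨n, hn, hn0⟩ := n5_nat hF.toK5 hI hr
    obtain ⟨s, μ, hμ, hnμ⟩ := Nat.exists_eq_two_pow_mul_odd hn0
    have hsq := n5_sqf hF.symm hI hr hn (fun p hp _ => hF.elem p hp) hμ (Dvd.intro_left _ hnμ.symm)
    refine ⟨μ, hμ, hsq, ?_⟩
    have h2 := n5_even hF.even hr hn
    match s, hnμ with
    | 0, h =>
      exfalso
      rw [pow_zero, one_mul] at h
      rw [h] at h2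
      exact (Nat.not_even_iff_odd.mpr hμ) (even_iff_two_dvd.mpr h2)
    | 1, h =>
      rw [hn, h]
      push_cast
      ring
    | (s + 2), h =>
      exfalso
      exact n5_F0 hF hr hn ⟨2 ^ s * μ, by rw [h]; ring⟩
  · have hI : Integ B K := hF.even.1
    obtain ⟨n, hn, hn0⟩ := n5_nat hF.toK5 hI hr
    obtain ⟨s, μ, hμ, hnμ⟩ := Nat.exists_eq_two_pow_mul_odd hn0
    have hsq := n5_sqf hF.symm hI hr hn (fun p hp _ => hF.elem p hp) hμ (Dvd.intro_left _ hnμ.symm)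
    refine ⟨μ, hμ, hsq, ?_⟩
    have h2 := n5_even hF.even hr hn
    match s, hnμ with
    | 0, h =>
      exfalso
      rw [pow_zero, one_mul] at h
      rw [h] at h2
      exact (Nat.not_even_iff_odd.mpr hμ) (even_iff_two_dvd.mpr h2)
    | 1, h =>
      left
      rw [hn, h]
      push_cast
      ring
    | 2, h =>
      right
      rw [hn, h]
      push_cast
      ring
    | (s + 3), h =>
      exfalso
      exact n5_eight hF.symm hI hr hn (hF.elem 2 Nat.prime_two) ⟨2 ^ s * μ, by rw [h]; ring⟩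
  · have hI : Integ B K := hF.int
    obtain ⟨n, hn, hn0⟩ := n5_nat hF.toK5 hI hr
    obtain ⟨s, μ, hμ, hnμ⟩ := Nat.exists_eq_two_pow_mul_odd hn0
    have hsq := n5_sqf hF.symm hI hr hn hF.elem hμ (Dvd.intro_left _ hnμ.symm)
    refine ⟨μ, hμ, hsq, ?_⟩
    match s, hnμ with
    | 0, h =>
      left
      rw [hn, h]
      push_cast
      ring
    | 1, h =>
      right
      rw [hn, h]
      push_cast
      ring
    | (s + 2), h =>
      exfalso
      exact n5_FQ hF hr hn ⟨2 ^ s * μ, by rw [h]; ring⟩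

end RH6
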