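import Pool.Agent.RH6.TDef
import Pool.Agent.RH6.C1
import Pool.Agent.RH6.N5

namespace RH6

/-! Row [RH-T1]: `del` (symmetric difference of prime sets) and pattern lattices. -/

theorem t1_def (a b : ℕ) : del a b = (a / Nat.gcd a b) * (b / Nat.gcd a b) := rfl

theorem t1_dvd {a b p : ℕ} (ha : Squarefree a) (hb : Squarefree b) (hp : p.Prime) :
    p ∣ del a b ↔ (p ∣ a ∧ ¬ p ∣ b) ∨ (p ∣ b ∧ ¬ p ∣ a) := by
  have key : ∀ c d : ℕ, Squarefree c → (p ∣ c / Nat.gcd c d ↔ p ∣ c ∧ ¬ p ∣ d) := by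
    intro c d hc
    have h1 : Nat.gcd c d * (c / Nat.gcd c d) = c := Nat.mul_div_cancel' (Nat.gcd_dvd_left c d)
    constructor
    · intro h
      have h2 : p ∣ c := h.trans (Nat.div_dvd_of_dvd (Nat.gcd_dvd_left c d))
      refine ⟨h2, fun h3 => ?_⟩
      have h4 : p * p ∣ c := by
        rw [← h1]
        exact mul_dvd_mul (Nat.dvd_gcd h2 h3) h
      exact hp.not_isUnit (hc p h4)
    · rintro ⟨h2, h3⟩
      rw [← h1] at h2
      rcases hp.dvd_mul.1 h2 with h4 | h4
      · exact absurd (h4.trans (Nat.gcd_dvd_right c d)) h3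
      · exact h4
  rw [t1_def, hp.dvd_mul, key a b ha, Nat.gcd_comm a b, key b a hb]

theorem del_comm (a b : ℕ) : del a b = del b a := by
  rw [t1_def, t1_def, Nat.gcd_comm, mul_comm]

theorem del_self {a : ℕ} (h : 0 < a) : del a a = 1 := by
  rw [t1_def, Nat.gcd_self, Nat.div_self h]

theorem del_one (a : ℕ) : del a 1 = a := by
  rw [t1_def, Nat.gcd_one_right, Nat.div_one, Nat.div_one, mul_one]

/-- `del a b * gcd(a,b)² = a b` -/
theorem del_gcd (a b : ℕ) : del a b * Nat.gcd a b ^ 2 = a * b := by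
  have h1 : a / Nat.gcd a b * Nat.gcd a b = a := Nat.div_mul_cancel (Nat.gcd_dvd_left a b)
  have h2 : b / Nat.gcd a b * Nat.gcd a b = b := Nat.div_mul_cancel (Nat.gcd_dvd_right a b)
  rw [t1_def]
  calc a / Nat.gcd a b * (b / Nat.gcd a b) * Nat.gcd a b ^ 2 =
      (a / Nat.gcd a b * Nat.gcd a b) * (b / Nat.gcd a b * Nat.gcd a b) := by ring
    _ = a * b := by rw [h1, h2]

theorem del_sq {a b : ℕ} (ha : Squarefree a) (hb : Squarefree b) : Squarefree (del a b) := by
  rw [t1_def, Nat.squarefree_mul_iff]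
  refine ⟨?_, ?_, ?_⟩
  · exact Nat.coprime_div_gcd_div_gcd (Nat.gcd_pos_of_pos_left _ (Nat.pos_of_ne_zero ha.ne_zero))
  · exact ha.squarefree_of_dvd (Nat.div_dvd_of_dvd (Nat.gcd_dvd_left a b))
  · exact hb.squarefree_of_dvd (Nat.div_dvd_of_dvd (Nat.gcd_dvd_right a b))

theorem del_odd {a b : ℕ} (ha : Odd a) (hb : Odd b) : Odd (del a b) := by
  rw [t1_def]
  exact (ha.of_dvd_nat (Nat.div_dvd_of_dvd (Nat.gcd_dvd_left a b))).mul
    (hb.of_dvd_nat (Nat.div_dvd_of_dvd (Nat.gcd_dvd_right a b)))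

theorem del_assoc {a b c : ℕ} (ha : Squarefree a) (hb : Squarefree b) (hc : Squarefree c) :
    del (del a b) c = del a (del b c) := by
  rw [Nat.Squarefree.ext_iff (del_sq (del_sq ha hb) hc) (del_sq ha (del_sq hb hc))]
  intro p hp
  rw [t1_dvd (del_sq ha hb) hc hp, t1_dvd ha (del_sq hb hc) hp, t1_dvd ha hb hp, t1_dvd hb hc hp]
  tauto

theorem del_mod8 {a b : ℕ} (ha : Odd a) (hb : Odd b) : del a b % 8 = a * b % 8 := by
  have hg : Odd (Nat.gcd a b) := ha.of_dvd_nat (Nat.gcd_dvd_left a b)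
  have h1 : Nat.gcd a b ^ 2 % 8 = 1 := by
    have h2 : Nat.gcd a b % 8 = 1 ∨ Nat.gcd a b % 8 = 3 ∨ Nat.gcd a b % 8 = 5 ∨
        Nat.gcd a b % 8 = 7 := by
      have := Nat.odd_iff.1 hg
      omega
    rcases h2 with h | h | h | h <;> simp [Nat.pow_mod, h]
  rw [← del_gcd a b, Nat.mul_mod, h1, mul_one, Nat.mod_mod]

theorem mem_KH {H : List (Fin 5 → ℕ)} {y : V5} :
    y ∈ KH H ↔ ∃ z : Fin 5 → ℤ, y = toQ z ∧ InH H z := by
  constructor
  · rintro ⟨z, hz, hz'⟩
    exact ⟨z, funext hz, hz'⟩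
  · rintro ⟨z, hz, hz'⟩
    exact ⟨z, fun i => congrFun hz i, hz'⟩

theorem Bm_toQ (A m : Fin 5 → ℕ) (x y : Fin 5 → ℤ) : Bm A m (toQ x) (toQ y) = S2 A m x y / 2 := by
  change (1 / 2 : ℚ) * ∑ i, (A i : ℚ) * m i * (x i : ℚ) * (y i : ℚ) = _
  unfold S2
  push_cast
  ring

/-- the standard lattice `ℤ^5` -/
def t1_Z5 : AddSubgroup V5 where
  carrier := {x | ∀ i, ∃ z : ℤ, x i = z}
  zero_mem' := fun i => ⟨0, by simp⟩
  add_mem' := by
    rintro a b ha hb i
    obtain ⟨z, hz⟩ := ha i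
    obtain ⟨w, hw⟩ := hb i
    exact ⟨z + w, by simp [hz, hw]⟩
  neg_mem' := by
    rintro a ha i
    obtain ⟨z, hz⟩ := ha i
    exact ⟨-z, by simp [hz]⟩

theorem t1_Z5_lat : IsLat t1_Z5 := by
  have h : Module.finrank ℚ V5 = 5 := Module.finrank_fin_fun ℚ
  refine ⟨(Pi.basisFun ℚ (Fin 5)).reindex (finCongr h.symm), ?_⟩
  intro x
  constructor
  · intro hx i
    obtain ⟨z, hz⟩ := hx ((finCongr h.symm).symm i)
    refine ⟨z, ?_⟩
    rw [Module.Basis.repr_reindex_apply, Pi.basisFun_repr]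
    exact hz
  · intro hx i
    obtain ⟨z, hz⟩ := hx (finCongr h.symm i)
    refine ⟨z, ?_⟩
    rw [Module.Basis.repr_reindex_apply, Pi.basisFun_repr, Equiv.symm_apply_apply] at hz
    exact hz

theorem t1_Bm (A m : Fin 5 → ℕ) (x y : V5) :
    Bm A m x y = (1 / 2 : ℚ) * ∑ i, (A i : ℚ) * m i * x i * y i := rfl

theorem t1_Bm_symm (A m : Fin 5 → ℕ) (x y : V5) : Bm A m x y = Bm A m y x := by
  rw [t1_Bm, t1_Bm]
  congr 1
  exact Finset.sum_congr rfl fun i _ => by ring

theorem t1_hB (M : ℚ) (B : LinearMap.BilinForm ℚ V5) (u w : ℚ × ℚ × V5) :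
    hB M B u w = M * (u.1 * w.2.1 + u.2.1 * w.1) + B u.2.2 w.2.2 := rfl

/-- `2ℤ^5 ≤ KH H ≤ ℤ^5` -/
theorem KH_lat (H : List (Fin 5 → ℕ)) : IsLat (KH H) := by
  refine isLat_of_comm (L := t1_Z5) t1_Z5_lat 2 (by norm_num) ?_ ?_
  · intro y hy
    choose z hz using hy
    refine ⟨fun i => 2 * z i, ?_, ?_⟩
    · intro i
      simp [hz i]
    · intro h _
      have h1 : ∑ i, (h i : ℤ) * (2 * z i) = 2 * ∑ i, (h i : ℤ) * z i := by
        rw [Finset.mul_sum]
        exact Finset.sum_congr rfl fun i _ => by ring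
      rw [h1]
      exact even_two_mul _
  · intro y hy i
    obtain ⟨z, hz, -⟩ := hy
    refine ⟨2 * z i, ?_⟩
    simp [hz i]

theorem KH_K5 {A m : Fin 5 → ℕ} (hA : ∀ i, 0 < A i) (hm : ∀ i, 0 < m i)
    (H : List (Fin 5 → ℕ)) : K5 (Bm A m) (KH H) := by
  refine ⟨KH_lat H, ?_, ?_, Module.finrank_fin_fun ℚ⟩
  · exact t1_Bm_symm A m
  · intro y hy
    obtain ⟨j, hj⟩ := Function.ne_iff.1 hy
    rw [t1_Bm]
    refine mul_pos (by norm_num) (Finset.sum_pos' ?_ ⟨j, Finset.mem_univ j, ?_⟩)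
    · intro i _
      rw [mul_assoc]
      exact mul_nonneg (by positivity) (mul_self_nonneg _)
    · rw [mul_assoc]
      have h1 : (0 : ℚ) < A j := by exact_mod_cast hA j
      have h2 : (0 : ℚ) < m j := by exact_mod_cast hm j
      exact mul_pos (mul_pos h1 h2) (mul_self_pos.2 hj)

theorem t1_facts {x m : ℕ} (hx : Odd x) (hm : Squarefree m) :
    ∃ a b g : ℕ, x = a * g ∧ m = b * g ∧ Odd a ∧ Odd g ∧ Nat.Coprime a b ∧ Nat.Coprime g b ∧
      del x m = a * b := by
  have hx0 : 0 < x := hx.pos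
  have h1 : x / Nat.gcd x m * Nat.gcd x m = x := Nat.div_mul_cancel (Nat.gcd_dvd_left x m)
  have h2 : m / Nat.gcd x m * Nat.gcd x m = m := Nat.div_mul_cancel (Nat.gcd_dvd_right x m)
  refine ⟨x / Nat.gcd x m, m / Nat.gcd x m, Nat.gcd x m, h1.symm, h2.symm, ?_, ?_, ?_, ?_, rfl⟩
  · exact hx.of_dvd_nat (Nat.div_dvd_of_dvd (Nat.gcd_dvd_left x m))
  · exact hx.of_dvd_nat (Nat.gcd_dvd_left x m)
  · exact Nat.coprime_div_gcd_div_gcd (Nat.gcd_pos_of_pos_left _ hx0)
  · have h3 : Squarefree (m / Nat.gcd x m * Nat.gcd x m) := by rwa [h2]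
    exact (Nat.squarefree_mul_iff.1 h3).1.symm

/-- multiplication by odd numbers does not change the parity checks -/
theorem t1_InH (H : List (Fin 5 → ℕ)) (c : Fin 5 → ℕ) (hc : ∀ i, Odd (c i)) (z : Fin 5 → ℤ) :
    InH H (fun i => (c i : ℤ) * z i) ↔ InH H z := by
  have key : ∀ h : Fin 5 → ℕ, Even (∑ i, (h i : ℤ) * ((c i : ℤ) * z i) - ∑ i, (h i : ℤ) * z i) := by
    intro h
    rw [← Finset.sum_sub_distrib, even_iff_two_dvd]
    refine Finset.dvd_sum fun i _ => ?_
    obtain ⟨k, hk⟩ := hc i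
    refine ⟨(h i : ℤ) * (k * z i), ?_⟩
    rw [hk]
    push_cast
    ring
  unfold InH
  constructor
  · intro h1 h hh
    have := (h1 h hh).sub (key h)
    rwa [sub_sub_cancel] at this
  · intro h1 h hh
    have := (h1 h hh).add (key h)
    rwa [add_sub_cancel] at this

theorem t1_even {A m : Fin 5 → ℕ} {H : List (Fin 5 → ℕ)} (hI : Integ (Bm A m) (KH H))
    {z w : Fin 5 → ℤ} (hz : InH H z) (hw : InH H w) : ∃ k : ℤ, S2 A m z w = 2 * k := by
  obtain ⟨k, hk⟩ := hI (toQ z) (mem_KH.2 ⟨z, rfl, hz⟩) (toQ w) (mem_KH.2 ⟨w, rfl, hw⟩)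
  refine ⟨k, ?_⟩
  rw [Bm_toQ] at hk
  have h1 : (S2 A m z w : ℚ) = ((2 * k : ℤ) : ℚ) := by
    push_cast
    linarith
  exact_mod_cast h1

/-- `(p, q; y) ↦ (p / x, q / x; (y i / a i))` -/
def t1_phi (x : ℕ) (a : Fin 5 → ℕ) (hx : (x : ℚ) ≠ 0) (ha : ∀ i, (a i : ℚ) ≠ 0) :
    (ℚ × ℚ × V5) ≃ₗ[ℚ] (ℚ × ℚ × V5) where
  toFun u := (u.1 / x, u.2.1 / x, fun i => u.2.2 i / a i)
  map_add' u w := by
    refine Prod.ext ?_ (Prod.ext ?_ ?_)
    · simp [add_div]
    · simp [add_div]
    · funext i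
      simp [add_div]
  map_smul' c u := by
    refine Prod.ext ?_ (Prod.ext ?_ ?_)
    · simp [mul_div_assoc]
    · simp [mul_div_assoc]
    · funext i
      simp [mul_div_assoc]
  invFun u := (x * u.1, x * u.2.1, fun i => a i * u.2.2 i)
  left_inv u := by
    refine Prod.ext ?_ (Prod.ext ?_ ?_)
    · exact mul_div_cancel₀ _ hx
    · exact mul_div_cancel₀ _ hx
    · funext i
      exact mul_div_cancel₀ _ (ha i)
  right_inv u := by
    refine Prod.ext ?_ (Prod.ext ?_ ?_)
    · exact mul_div_cancel_left₀ _ hx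
    · exact mul_div_cancel_left₀ _ hx
    · funext i
      exact mul_div_cancel_left₀ _ (ha i)

theorem t1_abs {V : Type*} [AddCommGroup V] [Module ℚ V] (B : LinearMap.BilinForm ℚ V)
    (g : V ≃ₗ[ℚ] V) (hg : Iso B g) (x : ℚ) (P P' : V → Prop)
    (h1 : ∀ u, P' u ↔ P u ∧ ∀ w, P w → ∃ z : ℤ, B u w = x * z)
    (h2 : ∀ u, P u ↔ P' (x • u) ∧ ∀ w, P' w → ∃ z : ℤ, B u w = x * z) :
    (∀ u, P u ↔ P (g u)) ↔ (∀ u, P' u ↔ P' (g u)) := by
  have key : ∀ Q : V → Prop, (∀ u, Q u ↔ Q (g u)) → ∀ u,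
      ((∀ w, Q w → ∃ z : ℤ, B u w = x * z) ↔ (∀ w, Q w → ∃ z : ℤ, B (g u) w = x * z)) := by
    intro Q hQ u
    constructor
    · intro h w hw
      have h3 : Q (g.symm w) := (hQ _).2 (by rwa [g.apply_symm_apply])
      obtain ⟨z, hz⟩ := h _ h3
      refine ⟨z, ?_⟩
      rw [← hz, ← hg u (g.symm w), g.apply_symm_apply]
    · intro h w hw
      obtain ⟨z, hz⟩ := h _ ((hQ w).1 hw)
      exact ⟨z, by rw [← hz, hg]⟩
  constructor
  · intro h u
    rw [h1, h1 (g u), h u, key P h u]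
  · intro h u
    rw [h2, h2 (g u), ← map_smul, h (x • u), key P' h u]

/-- Row [RH-T1]: the partial dual with respect to an odd squarefree number `x` prime to `N`.

Proof.  `g_i = gcd(x,m_i)`, `m'_i = del x (m_i) = (x/g_i)(m_i/g_i)`.  Let
`D(p,q;y) = (x p, x q; ((x/g_i) y_i)_i)`, a bijection of `ℚ × ℚ × V5`, and `φ = D⁻¹`.
`hB N (Bm A m) (D u) (D u') = x · hB (N x) (Bm A m') u u'` (`N x² = x·N x`,
`m_i (x/g_i)² = x m'_i`), so `c = 1/x`.  Let `L = hL (KH H)`, `L' = D(L)`, `B = hB N (Bm A m)`.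
Claim 1: `L' = {u ∈ L : B u w ∈ xℤ for all w ∈ L}`.  `⊆`: `D` multiplies coordinates by odd numbers,
so it preserves the parity conditions, `L' ≤ L`.  `(D(p,q;y),(p',q';y')) = x N(…) +
x·½ ∑ A_i (m_i/g_i) y_i y'_i`; let `Q = ½ ∑ A_i (m_i/g_i) y_i y'_i`: `2Q ∈ ℤ` and `xQ ∈ ℤ` (the form is
integral on `KH H`), `x` odd, so `Q ∈ ℤ`.  `⊇`: products with `(0,1;0)`, `(1,0;0)` give
`N p, N q ∈ xℤ`, so `x ∣ p, q`; products with `(0,0;2e_i)` give `A_i m_i y_i ∈ xℤ`, so
`(x/g_i) ∣ y_i` (`A_i` is prime to `x`).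
Claim 2: `x L = {u ∈ L' : B u w ∈ x²ℤ for all w ∈ L'}`.  In the coordinates `u = D u₁`, `w = D w₁` the
condition is `hB (N x) (Bm A m') u₁ w₁ ∈ xℤ`; `x u = D(x⁻¹ D … )`: if `u = x u₀` with
`u₀ = (p,q;y) ∈ L`, then `u₁ = (p,q;(g_i y_i))` and the product is
`N x(…) + x ½ ∑ A_i (m_i/g_i) y_i w_i` (`m'_i g_i = x m_i/g_i`), in `xℤ` as before; conversely for
`u₁ = (p,q;y)` products with `2e_i` give `A_i m'_i y_i ∈ xℤ`; `gcd(m'_i,x) = x/g_i` so `g_i ∣ y_i`.
An isometry `g` of `B` preserving `L` preserves the set in claim 1, i.e. `L'`; one preserving `L'`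
preserves `x L`, so `L`.  So `Pres g L ↔ Pres g L' ↔ Pres (φ g φ⁻¹) L` (the last `L` in the new
coordinates). -/
theorem tf {A m : Fin 5 → ℕ} {H : List (Fin 5 → ℕ)} (hA : ∀ i, A i = 1 ∨ A i = 2 ∨ A i = 4)
    (hm : ∀ i, Odd (m i) ∧ Squarefree (m i)) (hI : Integ (Bm A m) (KH H)) {N x : ℕ}
    (hN : 0 < N) (hx : Odd x) (hx2 : Squarefree x) (hc : Nat.Coprime x N) :
    QEq (hB N (Bm A m)) (hL (KH H)) (hB ((N * x : ℕ) : ℚ) (Bm A (fun i => del x (m i))))
      (hL (KH H)) := by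
  have hxq : (x : ℚ) ≠ 0 := by
    have := hx.pos
    positivity
  have hx0 : (0 : ℚ) < x := by
    have := hx.pos
    positivity
  have hfac := fun i => t1_facts (x := x) (m := m i) hx (hm i).2
  choose a b g hxa hmb ha hg hab hgb hdel using hfac
  have hm' : (fun i => del x (m i)) = fun i => a i * b i := funext hdel
  rw [hm']
  have haq : ∀ i, (a i : ℚ) ≠ 0 := fun i => by
    have := (ha i).pos
    positivity
  have hgq : ∀ i, (g i : ℚ) ≠ 0 := fun i => by
    have := (hg i).pos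
    positivity
  -- the quotient of the form by `x`
  have hQ : ∀ z w : Fin 5 → ℤ, InH H z → InH H w →
      ∃ t : ℤ, S2 A m (fun i => (a i : ℤ) * z i) w = x * (2 * t) := by
    intro z w hz hw
    obtain ⟨k, hk⟩ := t1_even hI ((t1_InH H a ha z).2 hz) hw
    have h1 : S2 A m (fun i => (a i : ℤ) * z i) w = x * ∑ i, (A i : ℤ) * b i * z i * w i := by
      unfold S2
      rw [Finset.mul_sum]
      refine Finset.sum_congr rfl fun i _ => ?_
      have e1 : (x : ℤ) = a i * g i := by exact_mod_cast hxa i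
      have e2 : (m i : ℤ) = b i * g i := by exact_mod_cast hmb i
      rw [e1, e2]
      ring
    have h2 : Even ((x : ℤ) * ∑ i, (A i : ℤ) * b i * z i * w i) := by
      rw [← h1, hk]
      exact even_two_mul k
    rw [Int.even_mul] at h2
    have h3 : ¬ Even (x : ℤ) := by
      rw [Int.even_coe_nat]
      exact Nat.not_even_iff_odd.2 hx
    obtain ⟨t, ht⟩ := h2.resolve_left h3
    refine ⟨t, ?_⟩
    rw [h1, ht]
    ring
  -- the two lattices
  have hP : ∀ u : ℚ × ℚ × V5, u ∈ hL (KH H) ↔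
      ∃ (p q : ℤ) (z : Fin 5 → ℤ), InH H z ∧ u = ((p : ℚ), (q : ℚ), toQ z) := by
    intro u
    constructor
    · rintro ⟨⟨p, hp⟩, ⟨q, hq⟩, h⟩
      obtain ⟨z, hz, hz'⟩ := mem_KH.1 h
      exact ⟨p, q, z, hz', Prod.ext hp (Prod.ext hq hz)⟩
    · rintro ⟨p, q, z, hz, rfl⟩
      exact ⟨⟨p, rfl⟩, ⟨q, rfl⟩, mem_KH.2 ⟨z, rfl, hz⟩⟩
  have hP' : ∀ u : ℚ × ℚ × V5, t1_phi x a hxq haq u ∈ hL (KH H) ↔
      ∃ (p q : ℤ) (z : Fin 5 → ℤ), InH H z ∧
        u = ((x : ℚ) * p, (x : ℚ) * q, fun i => (a i : ℚ) * z i) := by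
    intro u
    rw [hP]
    constructor
    · rintro ⟨p, q, z, hz, h⟩
      refine ⟨p, q, z, hz, ?_⟩
      have h1 := congrArg (t1_phi x a hxq haq).symm h
      rw [LinearEquiv.symm_apply_apply] at h1
      rw [h1]
      rfl
    · rintro ⟨p, q, z, hz, h⟩
      refine ⟨p, q, z, hz, ?_⟩
      rw [← (t1_phi x a hxq haq).apply_symm_apply ((p : ℚ), (q : ℚ), toQ z), h]
      rfl
  -- products of elements of the two lattices
  have hprod : ∀ u w : ℚ × ℚ × V5, t1_phi x a hxq haq u ∈ hL (KH H) → w ∈ hL (KH H) →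
      ∃ z : ℤ, hB N (Bm A m) u w = x * z := by
    intro u w hu hw
    obtain ⟨p, q, z, hz, rfl⟩ := (hP' u).1 hu
    obtain ⟨p', q', z', hz', rfl⟩ := (hP w).1 hw
    obtain ⟨t, ht⟩ := hQ z z' hz hz'
    refine ⟨N * (p * q' + q * p') + t, ?_⟩
    have h1 : (fun i => (a i : ℚ) * z i) = toQ (fun i => (a i : ℤ) * z i) := by
      funext i
      simp [toQ]
    rw [t1_hB]
    simp only
    rw [h1, Bm_toQ, ht]
    push_cast
    ring
  have hsymm : ∀ u w : ℚ × ℚ × V5, hB N (Bm A m) u w = hB N (Bm A m) w u := by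
    intro u w
    rw [t1_hB, t1_hB, t1_Bm_symm]
    ring
  have hcopZ : IsCoprime (x : ℤ) (N : ℤ) := Nat.isCoprime_iff_coprime.2 hc
  have hdiv : ∀ (p k : ℤ), (N : ℚ) * p = x * k → ∃ p' : ℤ, (p : ℚ) = x * p' := by
    intro p k h
    have h1 : (N : ℤ) * p = x * k := by exact_mod_cast h
    obtain ⟨p', hp'⟩ := hcopZ.dvd_of_dvd_mul_left ⟨k, h1⟩
    exact ⟨p', by rw [hp']; push_cast; ring⟩
  have hcopA : ∀ (c : ℕ), Odd c → ∀ i, IsCoprime (c : ℤ) (A i : ℤ) := by
    intro c hc i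
    rw [Nat.isCoprime_iff_coprime]
    have h2 : Nat.Coprime c 2 := (Nat.coprime_two_right).2 hc
    rcases hA i with h | h | h
    · rw [h]
      exact Nat.coprime_one_right c
    · rw [h]
      exact h2
    · rw [h]
      exact Nat.Coprime.pow_right 2 h2
  -- claim 1
  have h1 : ∀ u : ℚ × ℚ × V5, t1_phi x a hxq haq u ∈ hL (KH H) ↔ u ∈ hL (KH H) ∧
      ∀ w, w ∈ hL (KH H) → ∃ z : ℤ, hB N (Bm A m) u w = x * z := by
    intro u
    constructor
    · intro hu
      refine ⟨?_, fun w hw => hprod u w hu hw⟩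
      obtain ⟨p, q, z, hz, rfl⟩ := (hP' u).1 hu
      rw [hP]
      refine ⟨x * p, x * q, fun i => (a i : ℤ) * z i, (t1_InH H a ha z).2 hz, ?_⟩
      refine Prod.ext ?_ (Prod.ext ?_ ?_)
      · push_cast
        rfl
      · push_cast
        rfl
      · funext i
        simp [toQ]
    · rintro ⟨hu, hw⟩
      obtain ⟨p, q, z, hz, rfl⟩ := (hP u).1 hu
      obtain ⟨kp, hkp⟩ := hw (0, 1, 0) ((hP _).2 ⟨0, 1, 0, by intro h _; simp, by
        refine Prod.ext (by simp) (Prod.ext (by simp) ?_)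
        funext i
        simp [toQ]⟩)
      obtain ⟨kq, hkq⟩ := hw (1, 0, 0) ((hP _).2 ⟨1, 0, 0, by intro h _; simp, by
        refine Prod.ext (by simp) (Prod.ext (by simp) ?_)
        funext i
        simp [toQ]⟩)
      rw [t1_hB] at hkp hkq
      simp only [map_zero, mul_one, mul_zero, add_zero, zero_add] at hkp hkq
      obtain ⟨p', hp'⟩ := hdiv p kp hkp
      obtain ⟨q', hq'⟩ := hdiv q kq hkq
      have hz' : ∀ i, ∃ t : ℤ, z i = a i * t := by
        intro i
        obtain ⟨k, hk⟩ := hw (0, 0, toQ (Pi.single i 2)) ((hP _).2 ⟨0, 0, Pi.single i 2, by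
          intro h _
          rw [Finset.sum_eq_single i]
          · rw [Pi.single_eq_same, mul_comm]
            exact even_two_mul _
          · intro j _ hj
            rw [Pi.single_eq_of_ne hj, mul_zero]
          · intro h0
            exact absurd (Finset.mem_univ i) h0, by simp⟩)
        rw [t1_hB] at hk
        simp only [mul_zero, add_zero, zero_add] at hk
        rw [Bm_toQ] at hk
        have hS : S2 A m z (Pi.single i 2) = (A i : ℤ) * m i * z i * 2 := by
          unfold S2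
          rw [Finset.sum_eq_single i]
          · rw [Pi.single_eq_same]
          · intro j _ hj
            rw [Pi.single_eq_of_ne hj, mul_zero]
          · intro h0
            exact absurd (Finset.mem_univ i) h0
        rw [hS] at hk
        have hk2 : (A i : ℤ) * (m i * z i) = x * k := by
          have : ((A i : ℚ)) * (m i * z i) = x * k := by
            rw [← hk]
            push_cast
            ring
          exact_mod_cast this
        have hk3 : (x : ℤ) ∣ m i * z i := (hcopA x hx i).dvd_of_dvd_mul_left ⟨k, hk2⟩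
        obtain ⟨k', hk'⟩ := hk3
        have e1 : (x : ℤ) = a i * g i := by exact_mod_cast hxa i
        have e2 : (m i : ℤ) = b i * g i := by exact_mod_cast hmb i
        have hgi : (g i : ℤ) ≠ 0 := by exact_mod_cast (hg i).pos.ne'
        have hk4 : (b i : ℤ) * z i = a i * k' := by
          apply mul_left_cancel₀ hgi
          rw [e1, e2] at hk'
          linear_combination hk'
        have hcop : IsCoprime (a i : ℤ) (b i : ℤ) := Nat.isCoprime_iff_coprime.2 (hab i)
        exact hcop.dvd_of_dvd_mul_left ⟨k', hk4⟩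
      choose t ht using hz'
      rw [hP']
      refine ⟨p', q', t, (t1_InH H a ha t).1 ?_, ?_⟩
      · have : (fun i => (a i : ℤ) * t i) = z := funext fun i => (ht i).symm
        rw [this]
        exact hz
      · refine Prod.ext hp' (Prod.ext hq' ?_)
        funext i
        simp [toQ, ht i]
  -- claim 2
  have h2 : ∀ u : ℚ × ℚ × V5, u ∈ hL (KH H) ↔ t1_phi x a hxq haq ((x : ℚ) • u) ∈ hL (KH H) ∧
      ∀ w, t1_phi x a hxq haq w ∈ hL (KH H) → ∃ z : ℤ, hB N (Bm A m) u w = x * z := by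
    intro u
    constructor
    · intro hu
      refine ⟨?_, fun w hw => ?_⟩
      · obtain ⟨p, q, z, hz, rfl⟩ := (hP u).1 hu
        rw [hP']
        refine ⟨p, q, fun i => (g i : ℤ) * z i, (t1_InH H g hg z).2 hz, ?_⟩
        refine Prod.ext ?_ (Prod.ext ?_ ?_)
        · simp
        · simp
        · funext i
          have e1 : (x : ℚ) = a i * g i := by exact_mod_cast hxa i
          simp only [Prod.smul_snd, Pi.smul_apply, smul_eq_mul, toQ]
          rw [e1]
          push_cast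
          ring
      · rw [hsymm]
        exact hprod w u hw hu
    · rintro ⟨hu, hw⟩
      obtain ⟨p, q, t, ht, he⟩ := (hP' _).1 hu
      have hp : u.1 = p := by
        have := congrArg Prod.fst he
        simp only [Prod.smul_fst, smul_eq_mul] at this
        exact mul_left_cancel₀ hxq this
      have hq : u.2.1 = q := by
        have := congrArg (fun r => r.2.1) he
        simp only [Prod.smul_fst, Prod.smul_snd, smul_eq_mul] at this
        exact mul_left_cancel₀ hxq this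
      have hy : ∀ i, (g i : ℚ) * u.2.2 i = t i := by
        intro i
        have := congrFun (congrArg (fun r => r.2.2) he) i
        simp only [Prod.smul_snd, Pi.smul_apply, smul_eq_mul] at this
        apply mul_left_cancel₀ (haq i)
        rw [← this]
        have e1 : (x : ℚ) = a i * g i := by exact_mod_cast hxa i
        rw [e1]
        ring
      have hz' : ∀ i, ∃ s : ℤ, u.2.2 i = s := by
        intro i
        obtain ⟨k, hk⟩ := hw (0, 0, fun j => (a j : ℚ) * ((Pi.single i 2 : Fin 5 → ℤ) j : ℚ))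
          ((hP' _).2 ⟨0, 0, Pi.single i 2, by
            intro h _
            rw [Finset.sum_eq_single i]
            · rw [Pi.single_eq_same, mul_comm]
              exact even_two_mul _
            · intro j _ hj
              rw [Pi.single_eq_of_ne hj, mul_zero]
            · intro h0
              exact absurd (Finset.mem_univ i) h0, by simp⟩)
        rw [t1_hB] at hk
        simp only [mul_zero, add_zero, zero_add] at hk
        rw [t1_Bm, Finset.sum_eq_single i] at hk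
        · rw [Pi.single_eq_same] at hk
          have e1 : (x : ℚ) = a i * g i := by exact_mod_cast hxa i
          have e2 : (m i : ℚ) = b i * g i := by exact_mod_cast hmb i
          have hk2 : (A i : ℚ) * (b i * t i) = g i * k := by
            apply mul_left_cancel₀ (haq i)
            rw [e1, e2] at hk
            rw [← hy i]
            push_cast at hk
            linear_combination hk
          have hk3 : (A i : ℤ) * (b i * t i) = g i * k := by exact_mod_cast hk2
          have hk4 : (g i : ℤ) ∣ b i * t i := (hcopA (g i) (hg i) i).dvd_of_dvd_mul_left ⟨k, hk3⟩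
          have hcop : IsCoprime (g i : ℤ) (b i : ℤ) := Nat.isCoprime_iff_coprime.2 (hgb i)
          obtain ⟨s, hs⟩ := hcop.dvd_of_dvd_mul_left hk4
          refine ⟨s, ?_⟩
          apply mul_left_cancel₀ (hgq i)
          rw [hy i, hs]
          push_cast
          ring
        · intro j _ hj
          rw [Pi.single_eq_of_ne hj]
          simp
        · intro h0
          exact absurd (Finset.mem_univ i) h0
      choose s hs using hz'
      rw [hP]
      refine ⟨p, q, s, ?_, Prod.ext hp (Prod.ext hq (funext hs))⟩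
      have h3 : (fun i => (g i : ℤ) * s i) = t := by
        funext i
        have := hy i
        rw [hs i] at this
        exact_mod_cast this
      rw [← t1_InH H g hg s, h3]
      exact ht
  refine ⟨t1_phi x a hxq haq, 1 / x, by positivity, ?_, ?_⟩
  · intro u w
    rw [t1_hB, t1_hB, t1_Bm, t1_Bm]
    have h3 : ∀ i, (A i : ℚ) * ((a i * b i : ℕ) : ℚ) * (u.2.2 i / a i) * (w.2.2 i / a i) =
        1 / x * ((A i : ℚ) * m i * u.2.2 i * w.2.2 i) := by
      intro i
      have e1 : (x : ℚ) = a i * g i := by exact_mod_cast hxa i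
      have e2 : (m i : ℚ) = b i * g i := by exact_mod_cast hmb i
      have := haq i
      have := hgq i
      rw [e1, e2]
      push_cast
      field_simp
    change ((N * x : ℕ) : ℚ) * (u.1 / x * (w.2.1 / x) + u.2.1 / x * (w.1 / x)) +
      1 / 2 * ∑ i, (A i : ℚ) * ((a i * b i : ℕ) : ℚ) * (u.2.2 i / a i) * (w.2.2 i / a i) = _
    rw [Finset.sum_congr rfl fun i _ => h3 i, ← Finset.mul_sum]
    push_cast
    field_simp
  · intro γ hγ
    have h3 := t1_abs (hB N (Bm A m)) γ hγ x (fun u => u ∈ hL (KH H))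
      (fun u => t1_phi x a hxq haq u ∈ hL (KH H)) h1 h2
    refine h3.trans ?_
    constructor
    · intro h w
      have := h ((t1_phi x a hxq haq).symm w)
      rw [LinearEquiv.apply_symm_apply] at this
      exact this
    · intro h u
      have := h (t1_phi x a hxq haq u)
      simp only [LinearEquiv.trans_apply, LinearEquiv.symm_apply_apply] at this
      exact this

end RH6
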