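import Pool.Agent.RH6.UDef

namespace RH6

/-- Row [RH-U3]: the loop visits all `y = y₀ + q k` with `c y² ≤ rem` (`y ↦ c y²` is monotone). -/
theorem loopN_sound {c q rem : ℕ} {F : ℕ → Bool} {fuel y₀ : ℕ}
    (h : loopN c q rem F fuel y₀ = true) (k : ℕ) (hk : c * ((y₀ + q * k) * (y₀ + q * k)) ≤ rem) :
    F (y₀ + q * k) = true := by
  induction k generalizing fuel y₀ with
  | zero =>
    cases fuel with
    | zero => simp [loopN] at h
    | succ f =>
      rw [mul_zero, add_zero] at hk ⊢
      have h1 : Nat.ble (Nat.mul c (Nat.mul y₀ y₀)) rem = true := Nat.ble_eq.mpr hk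
      unfold loopN at h
      rw [h1, cond_true, Bool.and_eq_true] at h
      exact h.1
  | succ k ih =>
    cases fuel with
    | zero => simp [loopN] at h
    | succ f =>
      have h2 : c * (y₀ * y₀) ≤ rem := by
        refine le_trans (Nat.mul_le_mul_left c (Nat.mul_le_mul ?_ ?_)) hk <;> exact Nat.le_add_right _ _
      have h1 : Nat.ble (Nat.mul c (Nat.mul y₀ y₀)) rem = true := Nat.ble_eq.mpr h2
      unfold loopN at h
      rw [h1, cond_true, Bool.and_eq_true] at h
      have e : y₀ + q * (k + 1) = (y₀ + q) + q * k := by ring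
      rw [e] at hk ⊢
      exact ih h.2 hk

theorem u3_eqI {a : Int} (h : eqI a 0 = true) : a = 0 := by
  cases a with
  | ofNat n =>
    change Nat.beq n 0 = true at h
    rw [Nat.eq_of_beq_eq_true h]
    rfl
  | negSucc n =>
    change false = true at h
    exact absurd h (by decide)

/-- the vector `w` of the search: `w_i = base_i + ∑_{j ≤ i} u_j h_{j,i}` (row `j` starts at position
`j`) -/
def wOf : List (Nat × Int × List Int) → List Int → List Int → List Int
  | (_, _, h) :: l, base, u :: us =>
    (base.headD 0 + u * h.headD 0) :: wOf l (addL base.tail (sclL u h.tail)) us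
  | _, _, _ => []

def sumC : List (Nat × Int × List Int) → List Int → Int
  | (c, _, _) :: l, w :: ws => c * w ^ 2 + sumC l ws
  | _, _ => 0

def usumV : List (Nat × Int × List Int) → List Int → Int
  | (_, ν, _) :: l, w :: ws => ν * w + usumV l ws
  | _, _ => 0

theorem u3_sumC_nonneg (l : List (Nat × Int × List Int)) (ws : List Int) : 0 ≤ sumC l ws := by
  induction l generalizing ws with
  | nil => cases ws <;> simp [sumC]
  | cons r l ih =>
    obtain ⟨c, ν, h⟩ := r
    cases ws with
    | nil => simp [sumC]
    | cons w ws =>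
      simp only [sumC]
      have := ih ws
      positivity

/-- Row [RH-U3]: soundness of the search.

Proof.  Induction on `rows`.  Let `b`, `q > 0` be the heads of `base` and `h`, `w = b + u q` the first
coordinate, `r = b mod q` (`0 ≤ r < q`).  `c w² ≤ rem` since the other terms of the sum are `≥ 0`.
If `w ≥ 0`: `w = r + q k`, `k ≥ 0` (`w ≡ b ≡ r mod q`), so by `loopN_sound` the search for
`y = w` succeeds, `(y - b)/q = u`.  If `w < 0`: `-w = (q - r) + q k`, `k ≥ 0`; `y = -w`.  Apply the
induction hypothesis to the rest with `rem - c w²` and `acc ± ν y`. -/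
theorem bsrch_sound {rows : List (Nat × Int × List Int)} {rem : ℕ} {base : List Int} {acc : Int}
    (h : bsrch rows rem base acc = true) (hc : ∀ r ∈ rows, 0 < r.1)
    (hq : ∀ r ∈ rows, 0 < r.2.2.headD 0) {us : List Int} (hl : us.length = rows.length)
    (hs : sumC rows (wOf rows base us) = rem) : acc + usumV rows (wOf rows base us) = 0 := by
  induction rows generalizing rem base acc us with
  | nil =>
    cases us with
    | cons u us => simp at hl
    | nil =>
      simp only [sumC] at hs
      simp only [usumV, add_zero]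
      have h0 : rem = 0 := by exact_mod_cast hs.symm
      subst h0
      simp only [bsrch, Bool.or_eq_true, Bool.not_eq_true'] at h
      rcases h with h | h
      · exact absurd h (by decide)
      · exact u3_eqI h
  | cons row l ih =>
    obtain ⟨c, ν, hh⟩ := row
    cases us with
    | nil => simp at hl
    | cons u us =>
      simp only [List.length_cons, add_left_inj] at hl
      have hc0 : 0 < c := hc (c, ν, hh) (List.mem_cons_self)
      have hq0 : 0 < hh.headD 0 := hq (c, ν, hh) (List.mem_cons_self)
      have hcl : ∀ r ∈ l, 0 < r.1 := fun r hr => hc r (List.mem_cons_of_mem _ hr)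
      have hql : ∀ r ∈ l, 0 < r.2.2.headD 0 := fun r hr => hq r (List.mem_cons_of_mem _ hr)
      simp only [wOf, sumC] at hs
      simp only [wOf, usumV]
      rw [bsrch, Bool.and_eq_true] at h
      obtain ⟨h1, h2⟩ := h
      set b : ℤ := base.headD 0 with hb
      set q : ℤ := hh.headD 0 with hqd
      set ws : List Int := wOf l (addL base.tail (sclL u hh.tail)) us with hws
      have hpos := u3_sumC_nonneg l ws
      have hr0 : 0 ≤ b % q := Int.emod_nonneg _ hq0.ne'
      have hr1 : b % q < q := Int.emod_lt_of_pos _ hq0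
      have hbq : b = b % q + q * (b / q) := (Int.emod_add_mul_ediv b q).symm
      have hqn : ((q.toNat : ℕ) : ℤ) = q := Int.toNat_of_nonneg hq0.le
      have hrn : (((b % q).toNat : ℕ) : ℤ) = b % q := Int.toNat_of_nonneg hr0
      rcases le_or_gt 0 (b + u * q) with hw | hw
      · obtain ⟨y, hy⟩ := Int.eq_ofNat_of_zero_le hw
        have hcy : c * (y * y) ≤ rem := by
          have : ((c * (y * y) : ℕ) : ℤ) ≤ (rem : ℤ) := by
            push_cast
            rw [← hs, hy]
            nlinarith
          exact_mod_cast this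
        have hk : 0 ≤ b / q + u := by
          by_contra hcon
          have h3 : b / q + u ≤ -1 := by omega
          have h4 : q * (b / q + u) ≤ q * (-1) := mul_le_mul_of_nonneg_left h3 hq0.le
          have h5 : b + u * q = b % q + q * (b / q + u) := by
            conv_lhs => rw [hbq]
            ring
          rw [h5] at hw
          linarith
        obtain ⟨k, hk'⟩ := Int.eq_ofNat_of_zero_le hk
        have hyk : y = (b % q).toNat + q.toNat * k := by
          have : (y : ℤ) = ((b % q).toNat : ℤ) + (q.toNat : ℤ) * (k : ℤ) := by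
            rw [hrn, hqn, ← hk', ← hy]
            conv_lhs => rw [hbq]
            ring
          exact_mod_cast this
        have h6 := loopN_sound h1 k (by rw [← hyk]; exact hcy)
        rw [← hyk] at h6
        have h7 : ((y : ℤ) - b) / q = u := by
          rw [← hy, add_sub_cancel_left]
          exact Int.mul_ediv_cancel _ hq0.ne'
        simp only [h7] at h6
        have h8 := ih h6 hcl hql hl (by
          rw [← hws, Nat.cast_sub hcy]
          push_cast
          rw [← hs, hy]
          ring)
        rw [← hws] at h8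
        rw [hy]
        linarith
      · have hw' : 0 ≤ -(b + u * q) := by linarith
        obtain ⟨y, hy⟩ := Int.eq_ofNat_of_zero_le hw'
        have hy2 : b + u * q = -(y : ℤ) := by linarith
        have hcy : c * (y * y) ≤ rem := by
          have : ((c * (y * y) : ℕ) : ℤ) ≤ (rem : ℤ) := by
            push_cast
            rw [← hs, hy2]
            nlinarith
          exact_mod_cast this
        have hk : 0 ≤ -(b / q + u) - 1 := by
          by_contra hcon
          have h3 : 0 ≤ b / q + u := by omega
          have h4 : 0 ≤ q * (b / q + u) := mul_nonneg hq0.le h3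
          have h5 : b + u * q = b % q + q * (b / q + u) := by
            conv_lhs => rw [hbq]
            ring
          rw [h5] at hw
          linarith
        obtain ⟨k, hk'⟩ := Int.eq_ofNat_of_zero_le hk
        have hrq : (b % q).toNat ≤ q.toNat := by omega
        have hyk : y = (q.toNat - (b % q).toNat) + q.toNat * k := by
          have : (y : ℤ) = ((q.toNat - (b % q).toNat : ℕ) : ℤ) + (q.toNat : ℤ) * (k : ℤ) := by
            rw [Nat.cast_sub hrq, hrn, hqn, ← hk', ← hy]
            conv_lhs => rw [hbq]
            ring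
          exact_mod_cast this
        have h6 := loopN_sound h2 k (by rw [← hyk]; exact hcy)
        rw [← hyk] at h6
        have h7 : (-(y : ℤ) - b) / q = u := by
          rw [← hy2, add_sub_cancel_left]
          exact Int.mul_ediv_cancel _ hq0.ne'
        simp only [h7] at h6
        have h8 := ih h6 hcl hql hl (by
          rw [← hws, Nat.cast_sub hcy]
          push_cast
          rw [← hs, hy2]
          ring)
        rw [← hws] at h8
        rw [hy2]
        linarith

/-- Row [RH-U3]: the search of a certificate: `H` is upper triangular with positive diagonal (5 rows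
of length 5), `w_i = ∑_j u_j H_ji`, `∑ c_i w_i² = 4D/n` imply `∑ ν_i w_i = 0`. -/
theorem srchB_sound {C : BCert} {n : ℕ} {H : List (List Int)} (h : srchB C n H = true)
    (hc : ∀ i < 5, 0 < C.c.getD i 0) (hH : ∀ j < 5, (H.getD j []).length = 5 ∧
      0 < (H.getD j []).getD j 0 ∧ ∀ i < j, (H.getD j []).getD i 0 = 0) {u w : ℕ → ℤ}
    (hw : ∀ i < 5, w i = ∑ j ∈ Finset.range 5, u j * (H.getD j []).getD i 0)
    (hs : ∑ i ∈ Finset.range 5, (C.c.getD i 0 : ℤ) * w i ^ 2 = ((4 * C.D / n : ℕ) : ℤ)) :
    ∑ i ∈ Finset.range 5, C.ν.getD i 0 * w i = 0 := by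
  have L5 : ∀ l : List Int, l.length = 5 → ∃ a b c d e, l = [a, b, c, d, e] := by
    intro l hl
    match l, hl with
    | [a, b, c, d, e], _ => exact ⟨a, b, c, d, e, rfl⟩
  obtain ⟨a00, a01, a02, a03, a04, e0⟩ := L5 _ (hH 0 (by norm_num)).1
  obtain ⟨a10, a11, a12, a13, a14, e1⟩ := L5 _ (hH 1 (by norm_num)).1
  obtain ⟨a20, a21, a22, a23, a24, e2⟩ := L5 _ (hH 2 (by norm_num)).1
  obtain ⟨a30, a31, a32, a33, a34, e3⟩ := L5 _ (hH 3 (by norm_num)).1
  obtain ⟨a40, a41, a42, a43, a44, e4⟩ := L5 _ (hH 4 (by norm_num)).1
  have d0 := (hH 0 (by norm_num)).2.1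
  have d1 := (hH 1 (by norm_num)).2.1
  have d2 := (hH 2 (by norm_num)).2.1
  have d3 := (hH 3 (by norm_num)).2.1
  have d4 := (hH 4 (by norm_num)).2.1
  have z10 := (hH 1 (by norm_num)).2.2 0 (by norm_num)
  have z20 := (hH 2 (by norm_num)).2.2 0 (by norm_num)
  have z21 := (hH 2 (by norm_num)).2.2 1 (by norm_num)
  have z30 := (hH 3 (by norm_num)).2.2 0 (by norm_num)
  have z31 := (hH 3 (by norm_num)).2.2 1 (by norm_num)
  have z32 := (hH 3 (by norm_num)).2.2 2 (by norm_num)
  have z40 := (hH 4 (by norm_num)).2.2 0 (by norm_num)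
  have z41 := (hH 4 (by norm_num)).2.2 1 (by norm_num)
  have z42 := (hH 4 (by norm_num)).2.2 2 (by norm_num)
  have z43 := (hH 4 (by norm_num)).2.2 3 (by norm_num)
  have w0 := hw 0 (by norm_num)
  have w1 := hw 1 (by norm_num)
  have w2 := hw 2 (by norm_num)
  have w3 := hw 3 (by norm_num)
  have w4 := hw 4 (by norm_num)
  simp only [e0, e1, e2, e3, e4, List.getD_cons_zero, List.getD_cons_succ] at d0 d1 d2 d3 d4
  simp only [e0, e1, e2, e3, e4, List.getD_cons_zero, List.getD_cons_succ] at z10 z20 z21 z30 z31
  simp only [e0, e1, e2, e3, e4, List.getD_cons_zero, List.getD_cons_succ] at z32 z40 z41 z42 z43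
  simp only [e0, e1, e2, e3, e4, Finset.sum_range_succ, Finset.sum_range_zero,
    List.getD_cons_zero, List.getD_cons_succ] at w0 w1 w2 w3 w4
  simp only [Finset.sum_range_succ, Finset.sum_range_zero] at hs ⊢
  subst z10 z20 z21 z30 z31 z32 z40 z41 z42 z43
  have hc0 := hc 0 (by norm_num)
  have hc1 := hc 1 (by norm_num)
  have hc2 := hc 2 (by norm_num)
  have hc3 := hc 3 (by norm_num)
  have hc4 := hc 4 (by norm_num)
  have er : (List.range 5).map (fun i => (C.c.getD i 0, C.ν.getD i 0, (H.getD i []).drop i)) =
      [(C.c.getD 0 0, C.ν.getD 0 0, [a00, a01, a02, a03, a04]),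
       (C.c.getD 1 0, C.ν.getD 1 0, [a11, a12, a13, a14]),
       (C.c.getD 2 0, C.ν.getD 2 0, [a22, a23, a24]),
       (C.c.getD 3 0, C.ν.getD 3 0, [a33, a34]),
       (C.c.getD 4 0, C.ν.getD 4 0, [a44])] := by
    have : List.range 5 = [0, 1, 2, 3, 4] := by decide
    rw [this]
    simp only [List.map_cons, List.map_nil, e0, e1, e2, e3, e4, List.drop_succ_cons,
      List.drop_zero]
  unfold srchB at h
  rw [er] at h
  have hww : wOf [(C.c.getD 0 0, C.ν.getD 0 0, [a00, a01, a02, a03, a04]),
       (C.c.getD 1 0, C.ν.getD 1 0, [a11, a12, a13, a14]),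
       (C.c.getD 2 0, C.ν.getD 2 0, [a22, a23, a24]),
       (C.c.getD 3 0, C.ν.getD 3 0, [a33, a34]),
       (C.c.getD 4 0, C.ν.getD 4 0, [a44])] [0, 0, 0, 0, 0] [u 0, u 1, u 2, u 3, u 4] =
       [w 0, w 1, w 2, w 3, w 4] := by
    simp only [wOf, sclL, addL, List.headD_cons, List.tail_cons]
    rw [w0, w1, w2, w3, w4]
    simp only [List.cons.injEq, and_true]
    refine ⟨?_, ?_, ?_, ?_⟩ <;> ring
  have key := bsrch_sound h (by
      intro r hr
      simp only [List.mem_cons, List.not_mem_nil, or_false] at hr
      rcases hr with rfl | rfl | rfl | rfl | rfl <;> assumption) (by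
      intro r hr
      simp only [List.mem_cons, List.not_mem_nil, or_false] at hr
      rcases hr with rfl | rfl | rfl | rfl | rfl <;> assumption)
    (us := [u 0, u 1, u 2, u 3, u 4]) rfl (by
      rw [hww]
      simp only [sumC]
      rw [← hs]
      ring)
  rw [hww] at key
  simp only [usumV] at key
  linarith

end RH6
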