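import Pool.Agent.RH6.U1
import Pool.Agent.RH6.U3

open Matrix

namespace RH6

/-- integer vectors as rational vectors -/
def u4_q (x : Fin 7 → ℤ) : Fin 7 → ℚ := fun i => (x i : ℚ)

theorem u4_cast (G : Matrix (Fin 7) (Fin 7) ℤ) (x y : Fin 7 → ℤ) :
    BQ G (u4_q x) (u4_q y) = ((bZ G x y : ℤ) : ℚ) := by
  rw [BQ_apply, bZ, dotProduct, dotProduct, Int.cast_sum]
  refine Finset.sum_congr rfl (fun i _ => ?_)
  rw [Int.cast_mul]
  congr 1
  rw [show (mQ G *ᵥ u4_q y) i = ∑ j, mQ G i j * u4_q y j from rfl,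
    show (G *ᵥ y) i = ∑ j, G i j * y j from rfl, Int.cast_sum]
  refine Finset.sum_congr rfl (fun j _ => ?_)
  rw [Int.cast_mul]
  rfl

theorem u4_gcd_dvd {a n : ℤ} {r : Fin 7 → ℤ} (hp : ∀ d : ℤ, (∀ i, d ∣ r i) → IsUnit d)
    (h : ∀ i, n ∣ a * r i) : n ∣ a := by
  have h1 : n ∣ Finset.univ.gcd (fun i => a * r i) := Finset.dvd_gcd (fun i _ => h i)
  rw [Finset.gcd_mul_left] at h1
  have h2 : IsUnit (Finset.univ.gcd r) :=
    hp _ (fun i => Finset.gcd_dvd (Finset.mem_univ i))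
  have h3 : n ∣ normalize a := (h2.dvd_mul_right).mp h1
  exact h3.trans (normalize_dvd_iff.mpr dvd_rfl)

/-- Row [RH-U4]: primitive roots.  A root direction of `ℤ^7` is proportional to a primitive integer
vector `r'`, and for `n = (r',r')` we have `n ∣ 2 G r'`. -/
theorem prim_of_rd {G : Matrix (Fin 7) (Fin 7) ℤ} (hG : Gᵀ = G) {r : Fin 7 → ℚ}
    (hr : RD (BQ G) Z7 r) : ∃ r' : Fin 7 → ℤ, (∃ t : ℚ, t ≠ 0 ∧ r = fun i => t * r' i) ∧
      0 < bZ G r' r' ∧ (∀ i, bZ G r' r' ∣ 2 * (G *ᵥ r') i) ∧ ∀ d : ℤ, (∀ i, d ∣ r' i) → IsUnit d := by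
  obtain ⟨hpos, hrefl⟩ := hr
  -- common denominator
  set N : ℤ := ∏ i, ((r i).den : ℤ) with hN
  have hN0 : N ≠ 0 := Finset.prod_ne_zero_iff.mpr (fun i _ => by exact_mod_cast (r i).den_nz)
  have hz : ∀ i, ∃ z : ℤ, (N : ℚ) * r i = z := by
    intro i
    have hd : ((r i).den : ℤ) ∣ N := Finset.dvd_prod_of_mem (fun i => ((r i).den : ℤ)) (Finset.mem_univ i)
    obtain ⟨c, hc⟩ := hd
    refine ⟨c * (r i).num, ?_⟩
    have h1 : r i * ((r i).den : ℚ) = ((r i).num : ℚ) := Rat.mul_den_eq_num (r i)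
    rw [hc]
    push_cast
    linear_combination (c : ℚ) * h1
  choose z hz using hz
  have hrne : r ≠ 0 := by
    rintro rfl
    simp at hpos
  obtain ⟨i0, hi0⟩ : ∃ i, z i ≠ 0 := by
    by_contra hc
    push Not at hc
    apply hrne
    funext i
    have h1 := hz i
    rw [hc i, Int.cast_zero] at h1
    exact (mul_eq_zero.mp h1).resolve_left (by exact_mod_cast hN0)
  obtain ⟨r', hr', hg1⟩ := Finset.extract_gcd z (s := Finset.univ) ⟨i0, Finset.mem_univ _⟩
  set g : ℤ := Finset.univ.gcd z with hg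
  have hg0 : g ≠ 0 := by
    intro h0
    apply hi0
    rw [hr' i0 (Finset.mem_univ _), h0, zero_mul]
  have hprim : ∀ d : ℤ, (∀ i, d ∣ r' i) → IsUnit d := by
    intro d hd
    have : d ∣ Finset.univ.gcd r' := Finset.dvd_gcd (fun i _ => hd i)
    rw [hg1] at this
    exact isUnit_of_dvd_one this
  have hNq : (N : ℚ) ≠ 0 := by exact_mod_cast hN0
  have hgq : (g : ℚ) ≠ 0 := by exact_mod_cast hg0
  have hrt : r = fun i => ((g : ℚ) / N) * r' i := by
    funext i
    have h1 := hz i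
    rw [hr' i (Finset.mem_univ _)] at h1
    push_cast at h1
    field_simp
    linarith
  set t : ℚ := (g : ℚ) / N with ht
  have ht0 : t ≠ 0 := div_ne_zero hgq hNq
  have hrt' : r = t • u4_q r' := by
    rw [hrt]; rfl
  have hB : ∀ x : Fin 7 → ℚ, BQ G x r = t * BQ G x (u4_q r') := by
    intro x
    rw [hrt', map_smul, smul_eq_mul]
  have hBrr : BQ G r r = t ^ 2 * ((bZ G r' r' : ℤ) : ℚ) := by
    rw [hB r]
    conv_lhs => rw [hrt']
    rw [map_smul, LinearMap.smul_apply, u4_cast, smul_eq_mul]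
    ring
  have hn : (0 : ℚ) < ((bZ G r' r' : ℤ) : ℚ) := by
    rw [hBrr] at hpos
    have : 0 < t ^ 2 := by positivity
    exact (mul_pos_iff_of_pos_left this).mp hpos
  refine ⟨r', ⟨t, ht0, hrt⟩, by exact_mod_cast hn, ?_, hprim⟩
  intro j
  refine u4_gcd_dvd hprim (fun i => ?_)
  -- the reflection of the basis vector `j`
  have hmem : (u4_q (Pi.single j 1)) ∈ Z7 := fun i => ⟨_, rfl⟩
  have h1 := hrefl _ hmem i
  obtain ⟨c, hc⟩ := h1
  refine ⟨c, ?_⟩
  have h2 : BQ G (u4_q (Pi.single j 1)) r = t * (((G *ᵥ r') j : ℤ) : ℚ) := by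
    rw [hB, u4_cast, bZ, single_one_dotProduct]
  rw [h2, hBrr, Pi.smul_apply, smul_eq_mul] at hc
  have h3 : r i = t * r' i := congrFun hrt i
  rw [h3] at hc
  have h4 : (2 * (((G *ᵥ r') j : ℤ) : ℚ)) * r' i = ((bZ G r' r' : ℤ) : ℚ) * c := by
    rw [← hc]
    have hn' := hn.ne'
    field_simp
  exact_mod_cast h4

theorem u4_comm {G E : Matrix (Fin 7) (Fin 7) ℤ} {e : ℤ} (he : e ≠ 0)
    (hE : G * E = e • (1 : Matrix (Fin 7) (Fin 7) ℤ)) : E * G = e • (1 : Matrix (Fin 7) (Fin 7) ℤ) := by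
  have heq : (e : ℚ) ≠ 0 := by exact_mod_cast he
  have h1 : mQ G * mQ E = (e : ℚ) • (1 : Matrix (Fin 7) (Fin 7) ℚ) := by
    have h := congrArg (fun M : Matrix (Fin 7) (Fin 7) ℤ => M.map (Int.castRingHom ℚ)) hE
    simp only [Matrix.map_mul] at h
    have h2 : (e • (1 : Matrix (Fin 7) (Fin 7) ℤ)).map (Int.castRingHom ℚ) =
        (e : ℚ) • (1 : Matrix (Fin 7) (Fin 7) ℚ) := by
      refine Matrix.ext fun i j => ?_
      by_cases hij : i = j
      · subst hij
        rw [Matrix.map_apply, Matrix.smul_apply, Matrix.smul_apply, Matrix.one_apply_eq,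
          Matrix.one_apply_eq, smul_eq_mul, smul_eq_mul, mul_one, mul_one]
        rfl
      · rw [Matrix.map_apply, Matrix.smul_apply, Matrix.smul_apply, Matrix.one_apply_ne hij,
          Matrix.one_apply_ne hij, smul_eq_mul, smul_eq_mul, mul_zero, mul_zero]
        rfl
    rw [h2] at h
    exact h
  have h2 : mQ G * ((e : ℚ)⁻¹ • mQ E) = 1 := by
    rw [Matrix.mul_smul, h1, smul_smul, inv_mul_cancel₀ heq, one_smul]
  have h3 : ((e : ℚ)⁻¹ • mQ E) * mQ G = 1 := mul_eq_one_comm.mp h2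
  have h4 : mQ E * mQ G = (e : ℚ) • (1 : Matrix (Fin 7) (Fin 7) ℚ) := by
    rw [← h3, Matrix.smul_mul, smul_smul, mul_inv_cancel₀ heq, one_smul]
  refine Matrix.ext fun i j => ?_
  have h5 := congrFun (congrFun h4 i) j
  have h6 : (mQ E * mQ G) i j = (((E * G) i j : ℤ) : ℚ) := by
    rw [Matrix.mul_apply, Matrix.mul_apply, Int.cast_sum]
    refine Finset.sum_congr rfl (fun k _ => ?_)
    rw [Int.cast_mul]; rfl
  rw [h6] at h5
  by_cases hij : i = j
  · subst hij
    rw [Matrix.smul_apply, Matrix.one_apply_eq, smul_eq_mul, mul_one] at h5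
    rw [Matrix.smul_apply, Matrix.one_apply_eq, smul_eq_mul, mul_one]
    exact_mod_cast h5
  · rw [Matrix.smul_apply, Matrix.one_apply_ne hij, smul_eq_mul, mul_zero] at h5
    rw [Matrix.smul_apply, Matrix.one_apply_ne hij, smul_eq_mul, mul_zero]
    exact_mod_cast h5

/-- Row [RH-U4]: norms of primitive roots divide `2e` if `G E = e`: `2e r' = E (2 G r')` (also
`E G = e`), so `n ∣ 2e r'_i` for all `i`, so `n ∣ 2e`; they are even if `G` is even. -/
theorem norm_dvd {G E : Matrix (Fin 7) (Fin 7) ℤ} {e : ℤ} (he : e ≠ 0)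
    (hE : G * E = e • (1 : Matrix (Fin 7) (Fin 7) ℤ)) {r : Fin 7 → ℤ}
    (hn : ∀ i, bZ G r r ∣ 2 * (G *ᵥ r) i) (hp : ∀ d : ℤ, (∀ i, d ∣ r i) → IsUnit d) :
    bZ G r r ∣ 2 * e := by
  refine u4_gcd_dvd hp (fun i => ?_)
  have h1 : E *ᵥ (G *ᵥ r) = e • r := by
    rw [Matrix.mulVec_mulVec, u4_comm he hE, Matrix.smul_mulVec, Matrix.one_mulVec]
  have h2 : 2 * e * r i = ∑ j, E i j * (2 * (G *ᵥ r) j) := by
    have h3 : (E *ᵥ (G *ᵥ r)) i = e * r i := by rw [h1]; rfl
    rw [show (E *ᵥ (G *ᵥ r)) i = ∑ j, E i j * (G *ᵥ r) j from rfl] at h3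
    calc 2 * e * r i = 2 * (e * r i) := by ring
      _ = ∑ j, E i j * (2 * (G *ᵥ r) j) := by
        rw [← h3, Finset.mul_sum]
        exact Finset.sum_congr rfl (fun j _ => by ring)
  rw [h2]
  exact Finset.dvd_sum (fun j _ => Dvd.dvd.mul_left (hn j) _)

theorem even_norm {G : Matrix (Fin 7) (Fin 7) ℤ} (hG : Gᵀ = G) (h : ∀ i, Even (G i i))
    (r : Fin 7 → ℤ) : Even (bZ G r r) := by
  have h1 : ((bZ G r r : ℤ) : ZMod 2) = 0 := by
    have h2 : bZ G r r = ∑ p : Fin 7 × Fin 7, r p.1 * (G p.1 p.2 * r p.2) := by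
      rw [bZ, dotProduct, Fintype.sum_prod_type]
      refine Finset.sum_congr rfl (fun i _ => ?_)
      rw [show (G *ᵥ r) i = ∑ j, G i j * r j from rfl, Finset.mul_sum]
    rw [h2, Int.cast_sum]
    refine Finset.sum_involution (fun p _ => (p.2, p.1)) ?_ ?_ ?_ ?_
    · rintro ⟨i, j⟩ -
      have hs : G j i = G i j := by
        conv_lhs => rw [← hG]
        rfl
      simp only
      rw [hs, ← Int.cast_add]
      have h3 : r i * (G i j * r j) + r j * (G i j * r i) = 2 * (r i * (G i j * r j)) := by ring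
      rw [h3, Int.cast_mul]
      have h4 : ((2 : ℤ) : ZMod 2) = 0 := by decide
      rw [h4, zero_mul]
    · rintro ⟨i, j⟩ - hne he
      apply hne
      have hij : j = i := congrArg Prod.fst he
      subst hij
      have h5 : Even (r j * (G j j * r j)) := ((h j).mul_right _).mul_left _
      simp only
      exact (ZMod.intCast_zmod_eq_zero_iff_dvd _ 2).mpr (by exact_mod_cast h5.two_dvd)
    · rintro ⟨i, j⟩ -
      exact Finset.mem_univ _
    · rintro ⟨i, j⟩ -
      rfl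
  have h6 := (ZMod.intCast_zmod_eq_zero_iff_dvd _ 2).mp h1
  exact even_iff_two_dvd.mpr (by exact_mod_cast h6)

/-! Lists. -/

theorem u4_scl (c : ℤ) : ∀ (l : List ℤ) (i : ℕ), (sclL c l).getD i 0 = c * l.getD i 0
  | [], i => by simp [sclL]
  | a :: l, 0 => by simp [sclL]
  | a :: l, i + 1 => by simpa [sclL] using u4_scl c l i

theorem u4_scl_len (c : ℤ) : ∀ l : List ℤ, (sclL c l).length = l.length
  | [] => rfl
  | a :: l => by simp [sclL, u4_scl_len c l]

theorem u4_add : ∀ (x y : List ℤ) (i : ℕ), x.length = y.length →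
    (addL x y).getD i 0 = x.getD i 0 + y.getD i 0
  | [], [], i, _ => by simp [addL]
  | [], b :: y, i, h => by simp at h
  | a :: x, [], i, h => by simp at h
  | a :: x, b :: y, 0, _ => by simp [addL]
  | a :: x, b :: y, i + 1, h => by
    have h' : x.length = y.length := by simpa using h
    simpa [addL] using u4_add x y i h'

theorem u4_add_len : ∀ (x y : List ℤ), x.length = y.length → (addL x y).length = x.length
  | [], [], _ => rfl
  | [], b :: y, h => by simp at h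
  | a :: x, [], h => by simp at h
  | a :: x, b :: y, h => by
    have h' : x.length = y.length := by simpa using h
    simp [addL, u4_add_len x y h']

theorem u4_vscl (c : ℤ) (l : List ℤ) : vecL (sclL c l) = c • vecL l := by
  funext i
  exact u4_scl c l i

theorem u4_vadd {x y : List ℤ} (h : x.length = y.length) :
    vecL (addL x y) = vecL x + vecL y := by
  funext i
  exact u4_add x y i h

theorem u4_dot : ∀ (x y : List ℤ), x.length = y.length →
    dotL x y = ∑ i ∈ Finset.range x.length, x.getD i 0 * y.getD i 0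
  | [], [], _ => by simp [dotL]
  | [], b :: y, h => by simp at h
  | a :: x, [], h => by simp at h
  | a :: x, b :: y, h => by
    have h' : x.length = y.length := by simpa using h
    rw [dotL, u4_dot x y h', List.length_cons, Finset.sum_range_succ']
    simp [add_comm]

theorem u4_map {α β : Type} {l : List α} {f : α → β} {i : ℕ} (h : i < l.length) (d : β) (d' : α) :
    (l.map f).getD i d = f (l.getD i d') := by
  rw [List.getD_eq_getElem _ _ (by simpa using h), List.getD_eq_getElem _ _ h, List.getElem_map]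

theorem u4_len57 {l : List (List ℤ)} (h : len57 l = true) :
    l.length = 5 ∧ ∀ r ∈ l, r.length = 7 := by
  rw [len57, Bool.and_eq_true, List.all_eq_true] at h
  exact ⟨Nat.eq_of_beq_eq_true h.1, fun r hr => Nat.eq_of_beq_eq_true (h.2 r hr)⟩

theorem u4_len77 {l : List (List ℤ)} (h : len77 l = true) :
    l.length = 7 ∧ ∀ r ∈ l, r.length = 7 := by
  rw [len77, Bool.and_eq_true, List.all_eq_true] at h
  exact ⟨Nat.eq_of_beq_eq_true h.1, fun r hr => Nat.eq_of_beq_eq_true (h.2 r hr)⟩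

theorem u4_row {l : List (List ℤ)} (h : l.length = 5) (hr : ∀ r ∈ l, r.length = 7) {i : ℕ}
    (hi : i < 5) : (l.getD i []).length = 7 := by
  rw [List.getD_eq_getElem _ _ (by omega)]
  exact hr _ (List.getElem_mem _)

theorem u4_not {b : Bool} (h : (!b) = true) : b = false := by
  cases b
  · rfl
  · exact absurd h (by decide)

/-- the symmetry of the form -/
theorem u4_symm {G : Matrix (Fin 7) (Fin 7) ℤ} (hG : Gᵀ = G) (x y : Fin 7 → ℤ) :
    bZ G x y = bZ G y x := by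
  rw [bZ, bZ, Matrix.dotProduct_mulVec, ← Matrix.mulVec_transpose, hG, dotProduct_comm]

theorem u4_vecMul {G : Matrix (Fin 7) (Fin 7) ℤ} (hG : Gᵀ = G) (x : Fin 7 → ℤ) :
    x ᵥ* G = G *ᵥ x := by
  rw [← Matrix.mulVec_transpose, hG]

/-- evaluation of the quadratic identity -/
theorem u4_quad {G : Matrix (Fin 7) (Fin 7) ℤ} {k D : ℤ} {c : ℕ → ℤ} {φ : ℕ → Fin 7 → ℤ}
    {w z : Fin 7 → ℤ} (hk : k ≠ 0)
    (h : ∀ a b, k * (D * G a b - ∑ i ∈ Finset.range 5, c i * (φ i a * φ i b)) =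
      w a * z b + z a * w b) (r : Fin 7 → ℤ) (hw : r ⬝ᵥ w = 0) :
    D * bZ G r r = ∑ i ∈ Finset.range 5, c i * (φ i ⬝ᵥ r) ^ 2 := by
  have h1 : ∑ a, ∑ b, r a * r b * (k * (D * G a b - ∑ i ∈ Finset.range 5, c i * (φ i a * φ i b))) =
      ∑ a, ∑ b, r a * r b * (w a * z b + z a * w b) := by
    refine Finset.sum_congr rfl (fun a _ => Finset.sum_congr rfl (fun b _ => ?_))
    rw [h a b]
  have h2 : ∑ a, ∑ b, r a * r b * (w a * z b + z a * w b) = 0 := by
    have e : ∑ a, ∑ b, r a * r b * (w a * z b + z a * w b) =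
        (r ⬝ᵥ w) * (r ⬝ᵥ z) + (r ⬝ᵥ z) * (r ⬝ᵥ w) := by
      simp only [dotProduct]
      rw [Finset.sum_mul_sum, Finset.sum_mul_sum, ← Finset.sum_add_distrib]
      refine Finset.sum_congr rfl (fun a _ => ?_)
      rw [← Finset.sum_add_distrib]
      refine Finset.sum_congr rfl (fun b _ => ?_)
      ring
    rw [e, hw]
    ring
  have h3 : ∑ a, ∑ b, r a * r b * (k * (D * G a b - ∑ i ∈ Finset.range 5, c i * (φ i a * φ i b))) =
      k * (D * bZ G r r - ∑ i ∈ Finset.range 5, c i * (φ i ⬝ᵥ r) ^ 2) := by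
    have e1 : bZ G r r = ∑ a, ∑ b, r a * r b * G a b := by
      rw [bZ, dotProduct]
      refine Finset.sum_congr rfl (fun a _ => ?_)
      rw [show (G *ᵥ r) a = ∑ b, G a b * r b from rfl, Finset.mul_sum]
      refine Finset.sum_congr rfl (fun b _ => ?_)
      ring
    have e2 : ∀ i, (φ i ⬝ᵥ r) ^ 2 = ∑ a, ∑ b, r a * r b * (φ i a * φ i b) := by
      intro i
      rw [sq, dotProduct, Finset.sum_mul_sum]
      refine Finset.sum_congr rfl (fun a _ => Finset.sum_congr rfl (fun b _ => ?_))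
      ring
    have e3 : ∑ i ∈ Finset.range 5, c i * (φ i ⬝ᵥ r) ^ 2 =
        ∑ a, ∑ b, r a * r b * ∑ i ∈ Finset.range 5, c i * (φ i a * φ i b) := by
      calc ∑ i ∈ Finset.range 5, c i * (φ i ⬝ᵥ r) ^ 2
          = ∑ i ∈ Finset.range 5, ∑ a, ∑ b, r a * r b * (c i * (φ i a * φ i b)) := by
            refine Finset.sum_congr rfl (fun i _ => ?_)
            rw [e2 i, Finset.mul_sum]
            refine Finset.sum_congr rfl (fun a _ => ?_)
            rw [Finset.mul_sum]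
            refine Finset.sum_congr rfl (fun b _ => ?_)
            ring
        _ = ∑ a, ∑ b, ∑ i ∈ Finset.range 5, r a * r b * (c i * (φ i a * φ i b)) := by
            rw [Finset.sum_comm]
            refine Finset.sum_congr rfl (fun a _ => ?_)
            rw [Finset.sum_comm]
        _ = _ := by
            refine Finset.sum_congr rfl (fun a _ => Finset.sum_congr rfl (fun b _ => ?_))
            rw [Finset.mul_sum]
    rw [e1, e3, Finset.mul_sum, ← Finset.sum_sub_distrib, Finset.mul_sum]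
    refine Finset.sum_congr rfl (fun a _ => ?_)
    rw [Finset.mul_sum, ← Finset.sum_sub_distrib, Finset.mul_sum]
    refine Finset.sum_congr rfl (fun b _ => ?_)
    ring
  rw [h2, h3] at h1
  have h4 := (mul_eq_zero.mp h1).resolve_left hk
  linarith

/-- the conclusion of the search for a root `r` -/
def u4_Z (C : BCert) (y : Fin 7 → ℤ) : Prop :=
  ∑ i ∈ Finset.range 5, C.ν.getD i 0 * (vecL (C.F.getD i []) ⬝ᵥ y) = 0

theorem u4_srch0 {C : BCert} {N : ℕ} (h : srchB C N idH = true)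
    (hc : ∀ i < 5, 0 < C.c.getD i 0) {y : Fin 7 → ℤ}
    (hs : ∑ i ∈ Finset.range 5, (C.c.getD i 0 : ℤ) * (vecL (C.F.getD i []) ⬝ᵥ y) ^ 2 =
      ((4 * C.D / N : ℕ) : ℤ)) : u4_Z C y := by
  refine srchB_sound h hc ?_ (u := fun j => vecL (C.F.getD j []) ⬝ᵥ y)
    (w := fun j => vecL (C.F.getD j []) ⬝ᵥ y) ?_ hs
  · intro j hj
    interval_cases j <;> refine ⟨rfl, by decide, ?_⟩ <;> intro i hi <;> interval_cases i <;> rfl
  · intro i hi
    interval_cases i <;> simp [idH, Finset.sum_range_succ]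

theorem u4_rec {C : BCert} (hG : isSym C.G = true) (hFl : len57 C.F = true)
    (hwl : C.w.length = 7) {R : BRec} {N : ℕ} (hN : R.n = N) (hR : recB C R = true)
    (hc : ∀ i < 5, 0 < C.c.getD i 0) {r y : Fin 7 → ℤ} (hN0 : (N : ℤ) ≠ 0)
    (hy : ∀ i, (N : ℤ) * y i = 2 * (ofL C.G *ᵥ r) i) (hw : r ⬝ᵥ vecL C.w = 0)
    (hs : ∑ i ∈ Finset.range 5, (C.c.getD i 0 : ℤ) * (vecL (C.F.getD i []) ⬝ᵥ y) ^ 2 =
      ((4 * C.D / N : ℕ) : ℤ)) : u4_Z C y := by
  obtain ⟨hGl, hGr, hGs⟩ := isSym_iff hG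
  obtain ⟨hF5, hFr⟩ := u4_len57 hFl
  unfold recB at hR
  simp only [Bool.and_eq_true] at hR
  obtain ⟨⟨⟨⟨⟨hHl, hPl⟩, hQl⟩, hH⟩, hid⟩, hsr⟩ := hR
  obtain ⟨hP5, hPr⟩ := u4_len57 hPl
  obtain ⟨hQ5, hQr⟩ := u4_len57 hQl
  rw [hN] at hsr
  rw [List.all_eq_true] at hH hid
  have hH' : ∀ j < 5, (R.H.getD j []).length = 5 ∧ 0 < (R.H.getD j []).getD j 0 ∧
      ∀ i < j, (R.H.getD j []).getD i 0 = 0 := by
    intro j hj
    have h := hH j (List.mem_range.mpr hj)
    simp only [Bool.and_eq_true, List.all_eq_true] at h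
    exact ⟨Nat.eq_of_beq_eq_true h.1.1, of_decide_eq_true h.1.2,
      fun i hi => eqI_iff.mp (h.2 i (List.mem_range.mpr hi))⟩
  set ψ : ℕ → Fin 7 → ℤ := fun j => (2 : ℤ) • (ofL C.G *ᵥ vecL (R.P.getD j [])) +
    (N : ℤ) • vecL (R.Q.getD j []) with hψ
  have hψlen : (psiB C R).length = 5 := by simp [psiB]
  have hψrow : ∀ j < 5, ((psiB C R).getD j []).length = 7 ∧ vecL ((psiB C R).getD j []) = ψ j := by
    intro j hj
    have hp := combL_eq (u4_row hP5 hPr hj) hGl hGr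
    have hq := u4_row hQ5 hQr hj
    have e : (psiB C R).getD j [] =
        addL (sclL 2 (combL (R.P.getD j []) C.G)) (sclL R.n (R.Q.getD j [])) := by
      rw [psiB, u4_map (l := List.range 5) (by simpa using hj) [] 0,
        List.getD_eq_getElem (List.range 5) _ (by simpa using hj), List.getElem_range]
    have hl : (sclL 2 (combL (R.P.getD j []) C.G)).length = (sclL R.n (R.Q.getD j [])).length := by
      rw [u4_scl_len, u4_scl_len, hp.1, hq]
    rw [e]
    refine ⟨?_, ?_⟩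
    · rw [u4_add_len _ _ hl, u4_scl_len, hp.1]
    · rw [u4_vadd hl, u4_vscl, u4_vscl, hp.2, u4_vecMul hGs, hN]
  have hψall : ∀ s ∈ psiB C R, s.length = 7 := by
    intro s hs'
    obtain ⟨j, hj, rfl⟩ := List.getElem_of_mem hs'
    have hj5 : j < 5 := by omega
    have := (hψrow j hj5).1
    rwa [List.getD_eq_getElem _ _ hj] at this
  have hident : ∀ i < 5, (2 : ℤ) • (ofL C.G *ᵥ vecL (C.F.getD i [])) +
      (R.t.getD i 0) • vecL C.w = ∑ j ∈ Finset.range 5, ((R.H.getD j []).getD i 0) • ψ j := by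
    intro i hi
    have h := eqL_iff.mp (hid i (List.mem_range.mpr hi))
    have hp := combL_eq (u4_row hF5 hFr hi) hGl hGr
    have hl : (sclL 2 (combL (C.F.getD i []) C.G)).length = (sclL (R.t.getD i 0) C.w).length := by
      rw [u4_scl_len, u4_scl_len, hp.1, hwl]
    have h1 := congrArg vecL h
    have hlen5 : ((List.range 5).map fun j => (R.H.getD j []).getD i 0).length = 5 := by simp
    rw [u4_vadd hl, u4_vscl, u4_vscl, hp.2, u4_vecMul hGs, (combL5 hlen5 hψlen hψall).2] at h1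
    rw [h1, Finset.sum_range]
    refine Finset.sum_congr rfl (fun j _ => ?_)
    rw [(hψrow j.1 j.2).2]
    congr 1
    rw [u4_map (l := List.range 5) (by simp) 0 0,
      List.getD_eq_getElem (List.range 5) _ (by simp), List.getElem_range]
  set u : ℕ → ℤ := fun j => vecL (R.P.getD j []) ⬝ᵥ y + vecL (R.Q.getD j []) ⬝ᵥ r with hu
  have hyG : (N : ℤ) • y = (2 : ℤ) • (ofL C.G *ᵥ r) := by
    funext i
    exact hy i
  have hsw : ∀ x : Fin 7 → ℤ, (ofL C.G *ᵥ x) ⬝ᵥ r = x ⬝ᵥ (ofL C.G *ᵥ r) := by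
    intro x
    rw [dotProduct_comm]
    exact u4_symm hGs r x
  have hfy : ∀ x : Fin 7 → ℤ, (N : ℤ) * (x ⬝ᵥ y) = 2 * (x ⬝ᵥ (ofL C.G *ᵥ r)) := by
    intro x
    have h1 : x ⬝ᵥ ((N : ℤ) • y) = x ⬝ᵥ ((2 : ℤ) • (ofL C.G *ᵥ r)) := by rw [hyG]
    rw [dotProduct_smul, dotProduct_smul, smul_eq_mul, smul_eq_mul] at h1
    exact h1
  have hψr : ∀ j, ψ j ⬝ᵥ r = (N : ℤ) * u j := by
    intro j
    rw [hψ, hu]
    simp only
    rw [add_dotProduct, smul_dotProduct, smul_dotProduct, hsw, smul_eq_mul, smul_eq_mul, mul_add,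
      hfy]
  refine srchB_sound hsr hc hH' (u := u) (w := fun i => vecL (C.F.getD i []) ⬝ᵥ y) ?_ hs
  intro i hi
  have h1 : ((2 : ℤ) • (ofL C.G *ᵥ vecL (C.F.getD i [])) + (R.t.getD i 0) • vecL C.w) ⬝ᵥ r =
      (∑ j ∈ Finset.range 5, ((R.H.getD j []).getD i 0) • ψ j) ⬝ᵥ r := by rw [hident i hi]
  rw [add_dotProduct, smul_dotProduct, smul_dotProduct, hsw, smul_eq_mul, smul_eq_mul,
    dotProduct_comm (vecL C.w) r, hw, mul_zero, add_zero, ← hfy, sum_dotProduct] at h1
  have h2 : ∑ j ∈ Finset.range 5, ((R.H.getD j []).getD i 0 • ψ j) ⬝ᵥ r =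
      (N : ℤ) * ∑ j ∈ Finset.range 5, u j * (R.H.getD j []).getD i 0 := by
    rw [Finset.mul_sum]
    refine Finset.sum_congr rfl (fun j _ => ?_)
    rw [smul_dotProduct, hψr, smul_eq_mul]
    ring
  rw [h2] at h1
  exact mul_left_cancel₀ hN0 h1

/-- Row [RH-U4]: a certificate refutes the cusp condition.

Proof.  Let `G = ofL C.G`, `v, w, f_i` (`i < 5`) the vectors of the certificate, `G v = g w`, `g ≠ 0`,
`v·w = 0`, `f_i·w = 0`, so `v` is isotropic, `(f_i,v) = 0`; `v ≠ 0`.  Let `u = ∑ ν_i f_i`; `(u,v) = 0`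
and `(u,u) > 0`.  Suppose `CF`; we show that `(u,r) = 0` for every root direction `r ⊥ v`; then
`u = t v` and `(u,u) = 0`, contradiction.  By `prim_of_rd` we may take for `r` a primitive integer
vector with `n = (r,r) > 0`, `n ∣ 2 G r`, `w·r = 0` (as `(v,r) = g w·r`).  By `norm_dvd` and
`even_norm`, `n ∣ 2e` and `n` is even if `evenB`.  Put `y = 2 G r / n ∈ ℤ^7`, `w_i = f_i·y ∈ ℤ`,
`n w_i = 2 (f_i, r)`.
Quadratic identity: `k (D G_ab - ∑ c_i (Gf_i)_a (Gf_i)_b) = w_a z_b + z_a w_b` (`k ≠ 0`), evaluated at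
`r`: `D n = ∑ c_i (f_i,r)² = ∑ c_i n² w_i²/4`, so `4 D = n ∑ c_i w_i²`.  So `n ∣ 4D` and
`∑ c_i w_i² = 4D/n`.
The check for this `n` (`1 ≤ n ≤ 2e`) gives two cases.
(1) `srchB C n idH`: apply `srchB_sound` with `u_j = w_j`.
(2) a record with `recB`: put `u_j = p_j·y + q_j·r ∈ ℤ`; `ψ_j = 2 G p_j + n q_j` (`psiB`) and
`ψ_j·r = n u_j`.  The identity `2 G f_i + t_i w = ∑_j H_ji ψ_j` applied to `r` gives
`n w_i = n ∑_j H_ji u_j`.  Apply `srchB_sound`.
So `∑ ν_i w_i = 0`, i.e. `(u,r) = n/2 ∑ ν_i w_i = 0`. -/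
theorem chkBad_sound {C : BCert} (h : chkBad C = true) : ¬ CF (BQ (ofL C.G)) Z7 := by
  intro hCF
  unfold chkBad at h
  simp only [Bool.and_eq_true] at h
  obtain ⟨⟨⟨⟨⟨⟨⟨⟨⟨⟨⟨⟨⟨⟨⟨⟨⟨⟨h1, h2⟩, h3⟩, h4⟩, h5⟩, h6⟩, h7⟩, h8⟩, h9⟩, h10⟩, h11⟩, h12⟩, h13⟩, h14⟩,
    h15⟩, h16⟩, h17⟩, h18⟩, h19⟩ := h
  obtain ⟨hGl, hGr, hGs⟩ := isSym_iff h1
  have he0 : C.e ≠ 0 := by
    intro he
    rw [he] at h2
    exact absurd h2 (by decide)
  obtain ⟨hEl, hEr⟩ := u4_len77 h3
  have hGE := mulLL_scal hGl hGr h4 hEl hEr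
  have hvl : C.v.length = 7 := Nat.eq_of_beq_eq_true h5
  have hwl : C.w.length = 7 := Nat.eq_of_beq_eq_true h6
  have hνl : C.ν.length = 5 := Nat.eq_of_beq_eq_true h7
  obtain ⟨hF5, hFr⟩ := u4_len57 h8
  have hg0 : C.g ≠ 0 := by
    intro hg
    have := u4_not h9
    rw [eqI_iff.mpr hg] at this
    exact absurd this (by decide)
  have hvG := (combL_eq hvl hGl hGr).2
  rw [eqL_iff.mp h10, u4_vscl, u4_vecMul hGs] at hvG
  have hv0 : vecL C.v ≠ 0 := by
    intro hv
    have h20 := u4_not h11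
    have : C.v = zero7 := by
      refine List.ext_getElem (by rw [hvl]; rfl) (fun i hi1 hi2 => ?_)
      have hi : i < 7 := by omega
      have h21 := congrFun hv ⟨i, hi⟩
      have h22 : C.v.getD i 0 = 0 := h21
      rw [List.getD_eq_getElem _ _ hi1] at h22
      rw [h22]
      interval_cases i <;> rfl
    rw [eqL_iff.mpr this] at h20
    exact absurd h20 (by decide)
  have hvw : vecL C.v ⬝ᵥ vecL C.w = 0 := by
    rw [← dotL_eq hvl hwl]
    exact eqI_iff.mp h12
  have hfw : ∀ i < 5, vecL (C.F.getD i []) ⬝ᵥ vecL C.w = 0 := by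
    intro i hi
    rw [← dotL_eq (u4_row hF5 hFr hi) hwl]
    refine eqI_iff.mp ((List.all_eq_true.mp h13) _ ?_)
    rw [List.getD_eq_getElem _ _ (by omega)]
    exact List.getElem_mem _
  have hk0 : C.k ≠ 0 := by
    intro hk
    have := u4_not h14
    rw [eqI_iff.mpr hk] at this
    exact absurd this (by decide)
  have hcl : C.c.length = 5 := Nat.eq_of_beq_eq_true h16
  have hc : ∀ i < 5, 0 < C.c.getD i 0 := by
    intro i hi
    rw [List.getD_eq_getElem _ _ (by omega)]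
    have := (List.all_eq_true.mp h15) _ (List.getElem_mem (by omega : i < C.c.length))
    exact Nat.le_of_ble_eq_true this
  -- the quadratic identity
  set φ : ℕ → Fin 7 → ℤ := fun i => ofL C.G *ᵥ vecL (C.F.getD i []) with hφ
  have hquad : ∀ a b : Fin 7, C.k * ((C.D : ℤ) * ofL C.G a b -
      ∑ i ∈ Finset.range 5, (C.c.getD i 0 : ℤ) * (φ i a * φ i b)) =
      vecL C.w a * vecL C.z b + vecL C.z a * vecL C.w b := by
    intro a b
    have ha := (List.all_eq_true.mp h17) a.1 (List.mem_range.mpr a.2)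
    have hb := eqI_iff.mp ((List.all_eq_true.mp ha) b.1 (List.mem_range.mpr b.2))
    have hdot : dotL (C.c.map Int.ofNat) ((mulLL C.F C.G).map fun f => f.getD a 0 * f.getD b 0) =
        ∑ i ∈ Finset.range 5, (C.c.getD i 0 : ℤ) * (φ i a * φ i b) := by
      have hl1 : (C.c.map Int.ofNat).length = 5 := by simpa using hcl
      have hl2 : ((mulLL C.F C.G).map fun f => f.getD a.1 0 * f.getD b.1 0).length = 5 := by
        simpa [mulLL] using hF5
      rw [u4_dot _ _ (by rw [hl1, hl2]), hl1]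
      refine Finset.sum_congr rfl (fun i hi => ?_)
      have hi5 : i < 5 := Finset.mem_range.mp hi
      rw [u4_map (by omega) 0 0, u4_map (by simpa [mulLL] using (by omega : i < C.F.length)) 0 []]
      have hrow : (mulLL C.F C.G).getD i [] = combL (C.F.getD i []) C.G := by
        rw [mulLL, u4_map (by omega) [] []]
      rw [hrow]
      have hcomb := (combL_eq (u4_row hF5 hFr hi5) hGl hGr).2
      have e1 : ∀ x : Fin 7, (combL (C.F.getD i []) C.G).getD x.1 0 = φ i x := by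
        intro x
        have := congrFun hcomb x
        rw [u4_vecMul hGs] at this
        exact this
      rw [e1 a, e1 b]
      rfl
    rw [hdot] at hb
    exact hb
  -- the vector `u`
  obtain ⟨hul, hu⟩ := combL5 hνl hF5 hFr
  set uv : Fin 7 → ℤ := vecL (combL C.ν C.F) with huv
  have hupos : 0 < bZ (ofL C.G) uv uv := by
    have h20 : 0 < dotL (combL C.ν C.F) (combL (combL C.ν C.F) C.G) := of_decide_eq_true h18
    have h21 := combL_eq hul hGl hGr
    rw [dotL_eq hul h21.1, h21.2, u4_vecMul hGs] at h20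
    exact h20
  have husum : ∀ x : Fin 7 → ℤ, uv ⬝ᵥ x =
      ∑ i ∈ Finset.range 5, C.ν.getD i 0 * (vecL (C.F.getD i []) ⬝ᵥ x) := by
    intro x
    rw [hu, sum_dotProduct, Finset.sum_range]
    refine Finset.sum_congr rfl (fun i _ => ?_)
    rw [smul_dotProduct, smul_eq_mul]
  have hBuv : ∀ x : Fin 7 → ℤ, bZ (ofL C.G) x (vecL C.v) = C.g * (x ⬝ᵥ vecL C.w) := by
    intro x
    rw [bZ, ← hvG, dotProduct_smul, smul_eq_mul]
  have huw : uv ⬝ᵥ vecL C.w = 0 := by
    rw [husum]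
    refine Finset.sum_eq_zero (fun i hi => ?_)
    rw [hfw i (Finset.mem_range.mp hi), mul_zero]
  have hvq0 : u4_q (vecL C.v) ≠ 0 := by
    intro hz
    apply hv0
    funext i
    have h20 : ((vecL C.v i : ℤ) : ℚ) = 0 := congrFun hz i
    show vecL C.v i = 0
    exact_mod_cast h20
  have hvv : BQ (ofL C.G) (u4_q (vecL C.v)) (u4_q (vecL C.v)) = 0 := by
    rw [u4_cast, hBuv, hvw, mul_zero, Int.cast_zero]
  have huvB : BQ (ofL C.G) (u4_q uv) (u4_q (vecL C.v)) = 0 := by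
    rw [u4_cast, hBuv, huw, mul_zero, Int.cast_zero]
  have hmain : ∀ r, RD (BQ (ofL C.G)) Z7 r → BQ (ofL C.G) r (u4_q (vecL C.v)) = 0 →
      BQ (ofL C.G) (u4_q uv) r = 0 := by
    intro r hr hrv
    obtain ⟨r', ⟨t, ht0, hrt⟩, hn, hdiv, hprim⟩ := prim_of_rd hGs hr
    have hrt' : r = t • u4_q r' := by rw [hrt]; rfl
    rw [hrt'] at hrv ⊢
    rw [map_smul, LinearMap.smul_apply, u4_cast, hBuv, smul_eq_mul] at hrv
    have hrw : r' ⬝ᵥ vecL C.w = 0 := by
      have h20 := (mul_eq_zero.mp hrv).resolve_left ht0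
      have h21 : C.g * (r' ⬝ᵥ vecL C.w) = 0 := by exact_mod_cast h20
      exact (mul_eq_zero.mp h21).resolve_left hg0
    obtain ⟨N, hN⟩ := Int.eq_ofNat_of_zero_le hn.le
    have hNpos : 0 < N := by
      rw [hN] at hn
      exact_mod_cast hn
    have hNz : (N : ℤ) ≠ 0 := by exact_mod_cast hNpos.ne'
    have hNe : N ∣ 2 * C.e := by
      have h20 := norm_dvd (by exact_mod_cast he0) hGE hdiv hprim
      rw [hN] at h20
      exact_mod_cast h20
    have hNle : N ≤ 2 * C.e := Nat.le_of_dvd (by omega) hNe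
    choose y hy using hdiv
    have hy' : ∀ i, (N : ℤ) * y i = 2 * (ofL C.G *ᵥ r') i := by
      intro i
      rw [hy i, hN]
    have hyG : (N : ℤ) • y = (2 : ℤ) • (ofL C.G *ᵥ r') := by
      funext i
      exact hy' i
    have hfy : ∀ x : Fin 7 → ℤ, (N : ℤ) * (x ⬝ᵥ y) = 2 * (x ⬝ᵥ (ofL C.G *ᵥ r')) := by
      intro x
      have h20 : x ⬝ᵥ ((N : ℤ) • y) = x ⬝ᵥ ((2 : ℤ) • (ofL C.G *ᵥ r')) := by rw [hyG]
      rw [dotProduct_smul, dotProduct_smul, smul_eq_mul, smul_eq_mul] at h20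
      exact h20
    have hq := u4_quad hk0 hquad r' hrw
    have hsw : ∀ i, φ i ⬝ᵥ r' = vecL (C.F.getD i []) ⬝ᵥ (ofL C.G *ᵥ r') := by
      intro i
      rw [hφ]
      simp only
      rw [dotProduct_comm]
      exact u4_symm hGs _ _
    have h4D : 4 * (C.D : ℤ) = N * ∑ i ∈ Finset.range 5,
        (C.c.getD i 0 : ℤ) * (vecL (C.F.getD i []) ⬝ᵥ y) ^ 2 := by
      refine mul_left_cancel₀ hNz ?_
      calc (N : ℤ) * (4 * (C.D : ℤ)) = 4 * ((C.D : ℤ) * bZ (ofL C.G) r' r') := by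
            rw [hN]
            ring
        _ = 4 * ∑ i ∈ Finset.range 5, (C.c.getD i 0 : ℤ) * (φ i ⬝ᵥ r') ^ 2 := by rw [hq]
        _ = ∑ i ∈ Finset.range 5, (C.c.getD i 0 : ℤ) * (2 * (φ i ⬝ᵥ r')) ^ 2 := by
            rw [Finset.mul_sum]
            exact Finset.sum_congr rfl (fun i _ => by ring)
        _ = ∑ i ∈ Finset.range 5,
            (C.c.getD i 0 : ℤ) * ((N : ℤ) * (vecL (C.F.getD i []) ⬝ᵥ y)) ^ 2 := by
            refine Finset.sum_congr rfl (fun i _ => ?_)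
            rw [hsw i, ← hfy]
        _ = (N : ℤ) * (N * ∑ i ∈ Finset.range 5,
            (C.c.getD i 0 : ℤ) * (vecL (C.F.getD i []) ⬝ᵥ y) ^ 2) := by
            rw [Finset.mul_sum, Finset.mul_sum]
            exact Finset.sum_congr rfl (fun i _ => by ring)
    have hND : N ∣ 4 * C.D := by
      have h20 : (N : ℤ) ∣ ((4 * C.D : ℕ) : ℤ) := ⟨_, by push_cast; exact h4D⟩
      exact_mod_cast h20
    have hs : ∑ i ∈ Finset.range 5, (C.c.getD i 0 : ℤ) * (vecL (C.F.getD i []) ⬝ᵥ y) ^ 2 =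
        ((4 * C.D / N : ℕ) : ℤ) := by
      refine mul_left_cancel₀ hNz ?_
      rw [← h4D, ← Nat.cast_mul, Nat.mul_div_cancel' hND]
      push_cast
      ring
    have hZ : u4_Z C y := by
      have hchk := (List.all_eq_true.mp h19) N (List.mem_range.mpr (by omega))
      simp only [Bool.or_eq_true, Bool.and_eq_true] at hchk
      rcases hchk with ((((hchk | hchk) | hchk) | hchk) | hchk) | hchk
      · exact absurd (Nat.eq_of_beq_eq_true hchk) hNpos.ne'
      · exfalso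
        have h20 := u4_not hchk
        have h21 : 2 * C.e % N = 0 := Nat.mod_eq_zero_of_dvd hNe
        rw [h21] at h20
        exact absurd h20 (by decide)
      · exfalso
        obtain ⟨hev, hodd⟩ := hchk
        have hdiag : ∀ i, Even (ofL C.G i i) := by
          intro i
          unfold evenB at hev
          have h20 := eqI_iff.mp ((List.all_eq_true.mp hev) i.1 (List.mem_range.mpr i.2))
          exact Int.even_iff.mpr h20
        have h21 := even_norm hGs hdiag r'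
        rw [hN] at h21
        have h22 : Even N := by
          have : Even ((N : ℕ) : ℤ) := h21
          exact_mod_cast this
        have h23 : N % 2 = 0 := Nat.even_iff.mp h22
        rw [h23] at hodd
        exact absurd hodd (by decide)
      · exfalso
        have h20 := u4_not hchk
        have h21 : 4 * C.D % N = 0 := Nat.mod_eq_zero_of_dvd hND
        rw [h21] at h20
        exact absurd h20 (by decide)
      · obtain ⟨R, -, hR⟩ := List.any_eq_true.mp hchk
        rw [Bool.and_eq_true] at hR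
        exact u4_rec h1 h8 hwl (Nat.eq_of_beq_eq_true hR.1) hR.2 hc hNz hy' hrw hs
      · exact u4_srch0 hchk hc hs
    have hfin : 2 * (uv ⬝ᵥ (ofL C.G *ᵥ r')) = 0 := by
      rw [← hfy, husum]
      unfold u4_Z at hZ
      rw [hZ, mul_zero]
    have hfin' : bZ (ofL C.G) uv r' = 0 := by
      have : uv ⬝ᵥ (ofL C.G *ᵥ r') = 0 := by omega
      exact this
    rw [map_smul, u4_cast, hfin', Int.cast_zero, smul_zero]
  obtain ⟨t, ht⟩ := hCF _ hvq0 hvv _ huvB hmain
  have h20 : BQ (ofL C.G) (u4_q uv) (u4_q uv) = 0 := by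
    conv_lhs => rw [ht]
    rw [map_smul, map_smul, LinearMap.smul_apply, hvv, smul_zero, smul_zero]
  rw [u4_cast] at h20
  have h21 : bZ (ofL C.G) uv uv = 0 := by exact_mod_cast h20
  omega

end RH6
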