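import Pool.Agent.RH6.EDef
import Pool.Agent.RH6.T1
import Pool.Agent.RH6.U4

open Matrix

namespace RH6

theorem e1_sqeq {β c m : ℕ} (hβ : Squarefree β) (hc : Squarefree c) (h : β * c = m ^ 2) :
    β = c := by
  have h1 : β ∣ m := (hβ.dvd_pow_iff_dvd two_ne_zero).1 ⟨c, h.symm⟩
  obtain ⟨k, rfl⟩ := h1
  have hβ0 : 0 < β := Nat.pos_of_ne_zero hβ.ne_zero
  have h2 : c = β * k * k := by
    have : β * c = β * (β * k * k) := by rw [h]; ring
    exact Nat.eq_of_mul_eq_mul_left hβ0 this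
  have h3 : IsUnit k := hc k ⟨β, by rw [h2]; ring⟩
  have h4 : k = 1 := Nat.isUnit_iff.1 h3
  rw [h2, h4]; ring

/-- Row [RH-E1]: two squarefree numbers whose ratio is a rational square are equal; with a
gcd: if `σ² β = D b`, `σ` rational, `β, D, b` squarefree, then `σ = ± gcd(D,b)` and
`β gcd(D,b)² = D b`. -/
theorem sq_ratio {σ : ℚ} {β D b : ℕ} (hβ : Squarefree β) (hD : Squarefree D) (hb : Squarefree b)
    (h : σ ^ 2 * β = D * b) : (σ = Nat.gcd D b ∨ σ = -(Nat.gcd D b : ℚ)) ∧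
      β * Nat.gcd D b ^ 2 = D * b := by
  have hg := del_gcd D b
  have hc := del_sq hD hb
  set c := del D b with hcdef
  set g := Nat.gcd D b with hgdef
  have hβ0 : 0 < β := Nat.pos_of_ne_zero hβ.ne_zero
  have hg0 : 0 < g := Nat.gcd_pos_of_pos_left _ (Nat.pos_of_ne_zero hD.ne_zero)
  have hgQ : (g : ℚ) ≠ 0 := by positivity
  have hβQ : (β : ℚ) ≠ 0 := by positivity
  have h1 : (c : ℚ) * (g : ℚ) ^ 2 = D * b := by exact_mod_cast hg
  -- `(σ β / g)² = β c`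
  have h2 : (σ * β / g) ^ 2 = ((β * c : ℕ) : ℚ) := by
    push_cast
    rw [div_pow, div_eq_iff (pow_ne_zero 2 hgQ)]
    calc (σ * β) ^ 2 = (σ ^ 2 * β) * β := by ring
      _ = (c * (g : ℚ) ^ 2) * β := by rw [h, h1]
      _ = β * c * (g : ℚ) ^ 2 := by ring
  have h3 : IsSquare ((β * c : ℕ) : ℚ) := ⟨σ * β / g, by rw [← h2]; ring⟩
  have h4 : IsSquare (β * c) := Rat.isSquare_natCast_iff.1 h3
  obtain ⟨m, hm⟩ := h4
  have h5 : β = c := e1_sqeq hβ hc (m := m) (by rw [hm]; ring)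
  refine ⟨?_, by rw [h5]; exact hg⟩
  have h6 : σ ^ 2 = (g : ℚ) ^ 2 := by
    have : σ ^ 2 * β = (g : ℚ) ^ 2 * β := by rw [h, ← h1, h5]; ring
    exact mul_right_cancel₀ hβQ this
  exact sq_eq_sq_iff_eq_or_eq_neg.1 h6

/-- Row [RH-E1]: norms of roots of an even elementary form are `2β`, `β` squarefree
(`norm_dvd`, `even_norm`). -/
theorem root_nrm {G : Matrix (Fin 7) (Fin 7) ℤ} (hG : EvenElem G) {s : Fin 7 → ℤ}
    (hs : IsRoot G s) : ∃ β : ℕ, Squarefree β ∧ bZ G s s = 2 * (β : ℤ) ∧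
      ∀ i, (β : ℤ) ∣ (G *ᵥ s) i := by
  obtain ⟨e, he, G', hG'⟩ := hG.elem
  have hn : ∀ i, bZ G s s ∣ 2 * (G *ᵥ s) i := by
    intro i
    have := hs.dvd (Pi.single i 1)
    have h2 : bZ G (Pi.single i 1) s = (G *ᵥ s) i := by
      unfold bZ
      rw [single_dotProduct, one_mul]
    rwa [h2] at this
  have he0 : (e : ℤ) ≠ 0 := by exact_mod_cast he.ne_zero
  have h1 := norm_dvd he0 hG' hn hs.prim
  have h2 : Even (bZ G s s) := by
    refine even_norm hG.symm (fun i => ?_) s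
    obtain ⟨k, hk⟩ := hG.even i
    exact ⟨k, by rw [hk]; ring⟩
  obtain ⟨k, hk⟩ := h2
  have hk' : bZ G s s = 2 * k := by rw [hk]; ring
  have hk0 : 0 < k := by
    have := hs.pos
    omega
  obtain ⟨β, rfl⟩ := Int.eq_ofNat_of_zero_le hk0.le
  refine ⟨β, ?_, hk', fun i => ?_⟩
  · rw [hk'] at h1
    have h3 : (β : ℤ) ∣ (e : ℤ) := (mul_dvd_mul_iff_left (two_ne_zero)).1 h1
    exact he.squarefree_of_dvd (by exact_mod_cast h3)
  · have h3 := hn i
    rw [hk'] at h3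
    exact (mul_dvd_mul_iff_left (two_ne_zero)).1 h3

theorem e1_neg_root {G : Matrix (Fin 7) (Fin 7) ℤ} {s : Fin 7 → ℤ} (hs : IsRoot G s) :
    IsRoot G (-s) ∧ bZ G (-s) (-s) = bZ G s s := by
  have h1 : bZ G (-s) (-s) = bZ G s s := by
    unfold bZ
    rw [mulVec_neg, dotProduct_neg, neg_dotProduct, neg_neg]
  refine ⟨⟨by rw [h1]; exact hs.pos, fun x => ?_, fun d hd => hs.prim d fun i => ?_⟩, h1⟩
  · rw [h1]
    have : bZ G x (-s) = - bZ G x s := by
      unfold bZ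
      rw [mulVec_neg, dotProduct_neg]
    rw [this, mul_neg, dvd_neg]
    exact hs.dvd x
  · have := hd i
    rwa [Pi.neg_apply, dvd_neg] at this

theorem e1_mR_mulVec (X : Matrix (Fin 7) (Fin 7) ℤ) (x : Fin 7 → ℤ) :
    mR X *ᵥ toR x = toR (X *ᵥ x) := by
  funext i
  simp [mR, toR, mulVec, dotProduct]

theorem e1_toR_inj {x y : Fin 7 → ℤ} (h : toR x = toR y) : x = y := by
  funext i
  have := congrFun h i
  simpa [toR] using this

theorem e1_toR_dot (G : Matrix (Fin 7) (Fin 7) ℤ) (x y : Fin 7 → ℤ) :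
    toR x ⬝ᵥ (mR G *ᵥ toR y) = (bZ G x y : ℝ) := by
  rw [e1_mR_mulVec]
  simp [toR, bZ, dotProduct]

theorem e1_mR_inj {X Y : Matrix (Fin 7) (Fin 7) ℤ} (h : mR X = mR Y) : X = Y := by
  ext i j
  have := congrFun (congrFun h i) j
  simpa [mR] using this

theorem e1_mR_mul (X Y : Matrix (Fin 7) (Fin 7) ℤ) : mR (X * Y) = mR X * mR Y := by
  ext i j
  simp [mR, Matrix.mul_apply]

theorem e1_mR_smul (d : ℤ) (X : Matrix (Fin 7) (Fin 7) ℤ) : mR (d • X) = (d : ℝ) • mR X := by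
  ext i j
  rw [Matrix.smul_apply, mR, mR, Matrix.map_apply, Matrix.map_apply, Matrix.smul_apply,
    smul_eq_mul, smul_eq_mul, Int.cast_mul]

theorem e1_mR_transpose (X : Matrix (Fin 7) (Fin 7) ℤ) : mR Xᵀ = (mR X)ᵀ := by
  ext i j
  simp [mR]

/-- Row [RH-E1]: rationality and integrality.

Proof.  `T E_k = τ_k s_k`, `s_k` a root of `G`, `(s_k,s_k) = 2β_k` (`root_nrm`), so
`τ_k² β_k = b_k` (`Tᵀ G T = J`), in particular `b_k > 0`.  If `(E_k,E_l) ≠ 0`, then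
`τ_k τ_l (s_k,s_l) = (E_k,E_l) ≠ 0`, so `τ_k τ_l` is rational.  Let `0` be the first index (`r > 0`
by `gen`), `g = gcd(b_0,β_0)`, `D = (b_0/g)(β_0/g)` (`= del b_0 β_0`, squarefree);
`D τ_0² = D b_0/β_0 = (b_0/g)²`, so `√D τ_0 = ± b_0/g` is rational.  By `conn` and induction on `k`
all `σ_k = √D τ_k` are rational: `√D τ_k = (√D τ_l)(τ_k τ_l)/τ_l²`.  `σ_k² β_k = D b_k`, so by
`sq_ratio` `σ_k = ± κ_k`, `κ_k = gcd(D,b_k)`, `β_k κ_k² = D b_k`.  So `√D T E_k = κ_k s` with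
`s = ± s_k` a root.  By `gen` the columns of `√D T` are integral combinations of the `√D T E_k`, so
`√D T = X` is integral. -/
theorem int_map {J G : Matrix (Fin 7) (Fin 7) ℤ} {r : ℕ} {E : Fin r → (Fin 7 → ℤ)}
    {b : Fin r → ℕ} (hJ : RS J E b) (hG : EvenElem G) {T : Matrix (Fin 7) (Fin 7) ℝ}
    (hT : Tᵀ * mR G * T = mR J)
    (hr : ∀ k, ∃ s, IsRoot G s ∧ ∃ τ : ℝ, τ ≠ 0 ∧ T *ᵥ toR (E k) = τ • toR s) :
    ∃ (D : ℕ) (X : Matrix (Fin 7) (Fin 7) ℤ), XD J G X E b D ∧ mR X = Real.sqrt D • T := by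
  choose s hs τ hτ hTE using hr
  choose β hβ hβ2 _ using fun k => root_nrm hG (hs k)
  obtain ⟨C, hC⟩ := hJ.gen
  -- the form
  have hform : ∀ k l, τ k * τ l * (bZ G (s k) (s l) : ℝ) = (bZ J (E k) (E l) : ℝ) := by
    intro k l
    rw [← e1_toR_dot J, ← hT, ← e1_toR_dot G]
    have h1 : toR (E k) ⬝ᵥ ((Tᵀ * mR G * T) *ᵥ toR (E l)) =
        (T *ᵥ toR (E k)) ⬝ᵥ (mR G *ᵥ (T *ᵥ toR (E l))) := by
      rw [← mulVec_mulVec, ← mulVec_mulVec, dotProduct_mulVec, vecMul_transpose]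
    rw [h1, hTE, hTE, mulVec_smul, smul_dotProduct, dotProduct_smul]
    simp only [smul_eq_mul]
    ring
  have hb0 : ∀ k, 0 < b k := fun k => Nat.pos_of_ne_zero (hJ.sq k).ne_zero
  have hβ0 : ∀ k, 0 < β k := fun k => Nat.pos_of_ne_zero (hβ k).ne_zero
  have hτβ : ∀ k, τ k ^ 2 * (β k : ℝ) = b k := by
    intro k
    have h1 := hform k k
    rw [hβ2, hJ.nrm] at h1
    push_cast at h1
    nlinarith [h1]
  -- the first index
  have hr0 : 0 < r := by
    rcases Nat.eq_zero_or_pos r with h0 | h0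
    · subst h0
      have h1 := congrFun (hC 0) 0
      simp at h1
    · exact h0
  let k0 : Fin r := ⟨0, hr0⟩
  set D := del (b k0) (β k0) with hD
  have hDsq : Squarefree D := del_sq (hJ.sq k0) (hβ k0)
  have hD0 : 0 < D := Nat.pos_of_ne_zero hDsq.ne_zero
  have hDR : (0 : ℝ) < D := by exact_mod_cast hD0
  have hsD : Real.sqrt D ^ 2 = D := Real.sq_sqrt hDR.le
  have hsD0 : Real.sqrt D ≠ 0 := by positivity
  -- rationality
  have hrat0 : ∃ q : ℚ, Real.sqrt D * τ k0 = q := by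
    have hg := del_gcd (b k0) (β k0)
    set g := Nat.gcd (b k0) (β k0) with hgd
    have hg0 : 0 < g := Nat.gcd_pos_of_pos_left _ (hb0 k0)
    have hgR : (0 : ℝ) < g := by exact_mod_cast hg0
    have hgR' : (D : ℝ) * (g : ℝ) ^ 2 = b k0 * β k0 := by exact_mod_cast hg
    have h1 : (Real.sqrt D * τ k0) ^ 2 = ((b k0 : ℝ) / g) ^ 2 := by
      rw [div_pow, eq_div_iff (by positivity), mul_pow, hsD]
      calc (D : ℝ) * τ k0 ^ 2 * (g : ℝ) ^ 2 = (D * (g : ℝ) ^ 2) * τ k0 ^ 2 := by ring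
        _ = b k0 * (τ k0 ^ 2 * β k0) := by rw [hgR']; ring
        _ = (b k0 : ℝ) ^ 2 := by rw [hτβ]; ring
    rcases sq_eq_sq_iff_eq_or_eq_neg.1 h1 with h2 | h2
    · exact ⟨(b k0 : ℚ) / g, by rw [h2]; push_cast; rfl⟩
    · exact ⟨-((b k0 : ℚ) / g), by rw [h2]; push_cast; rfl⟩
  have hrat : ∀ n : ℕ, ∀ k : Fin r, (k : ℕ) = n → ∃ q : ℚ, Real.sqrt D * τ k = q := by
    intro n
    induction n using Nat.strong_induction_on with
    | _ n ih =>
      intro k hk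
      rcases Nat.eq_zero_or_pos (k : ℕ) with h0 | h0
      · have : k = k0 := Fin.ext h0
        rw [this]; exact hrat0
      · obtain ⟨l, hl, hne⟩ := hJ.conn k h0
        obtain ⟨q, hq⟩ := ih (l : ℕ) (by rw [← hk]; exact hl) l rfl
        have h1 := hform k l
        have hne' : (bZ J (E k) (E l) : ℝ) ≠ 0 := by exact_mod_cast hne
        have hs0 : (bZ G (s k) (s l) : ℝ) ≠ 0 := by
          intro h2
          rw [h2, mul_zero] at h1
          exact hne' h1.symm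
        have hbl : (b l : ℝ) ≠ 0 := by exact_mod_cast (hb0 l).ne'
        refine ⟨q * (bZ J (E k) (E l) : ℚ) / (bZ G (s k) (s l) : ℚ) * β l / b l, ?_⟩
        push_cast
        rw [eq_div_iff hbl, ← hτβ l, ← hq, ← h1]
        field_simp
  choose q hq using fun k : Fin r => hrat (k : ℕ) k rfl
  have hqβ : ∀ k, (q k) ^ 2 * (β k : ℚ) = D * b k := by
    intro k
    have h1 : ((q k : ℝ)) ^ 2 * (β k : ℝ) = D * b k := by
      rw [← hq, mul_pow, hsD, mul_assoc, hτβ]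
    exact_mod_cast h1
  have hκ := fun k => sq_ratio (hβ k) hDsq (hJ.sq k) (hqβ k)
  -- signs
  have hε : ∀ k, ∃ ε : ℤ, (ε = 1 ∨ ε = -1) ∧ (q k : ℝ) = ((ε * (Nat.gcd D (b k) : ℤ) : ℤ) : ℝ) := by
    intro k
    rcases (hκ k).1 with h1 | h1
    · exact ⟨1, Or.inl rfl, by rw [h1]; push_cast; ring⟩
    · exact ⟨-1, Or.inr rfl, by rw [h1]; push_cast; ring⟩
  choose ε hε1 hε2 using hε
  have hX1 : ∀ k, Real.sqrt D • (T *ᵥ toR (E k)) =
      toR ((ε k * (Nat.gcd D (b k) : ℤ)) • s k) := by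
    intro k
    rw [hTE, smul_smul, hq, hε2]
    funext i
    simp [toR]
  let X : Matrix (Fin 7) (Fin 7) ℤ :=
    fun j i => ∑ k, C i k * ((ε k * (Nat.gcd D (b k) : ℤ)) * s k j)
  have hX : mR X = Real.sqrt D • T := by
    ext j i
    have h1 : (Real.sqrt D • T) j i = Real.sqrt D * (T *ᵥ toR (Pi.single i 1)) j := by
      have h2 : toR (Pi.single i 1) = Pi.single i (1 : ℝ) := by
        funext a
        by_cases ha : a = i
        · subst ha; simp [toR]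
        · simp [toR, Pi.single_eq_of_ne ha]
      rw [h2, mulVec_single_one]
      simp
    rw [h1, ← hC i]
    have h3 : toR (∑ k, C i k • E k) = ∑ k, (C i k : ℝ) • toR (E k) := by
      funext a
      simp [toR, Finset.sum_apply]
    rw [h3, mulVec_sum, Finset.sum_apply, Finset.mul_sum]
    have h4 : mR X j i = ∑ k, (C i k : ℝ) * (((ε k * (Nat.gcd D (b k) : ℤ) : ℤ) : ℝ) * (s k j : ℝ)) := by
      have h6 : mR X j i = ((X j i : ℤ) : ℝ) := rfl
      rw [h6]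
      simp only [X]
      push_cast
      rfl
    rw [h4]
    refine Finset.sum_congr rfl fun k _ => ?_
    have h5 := congrFun (hX1 k) j
    simp only [Pi.smul_apply, smul_eq_mul, toR] at h5
    rw [mulVec_smul, Pi.smul_apply, smul_eq_mul, mul_left_comm (Real.sqrt D), h5]
    push_cast
    ring
  have hXE : ∀ k, X *ᵥ E k = (ε k * (Nat.gcd D (b k) : ℤ)) • s k := by
    intro k
    apply e1_toR_inj
    rw [← e1_mR_mulVec, hX, smul_mulVec, hX1]
  refine ⟨D, X, ⟨hD0, hDsq, ?_, fun k => ?_⟩, hX⟩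
  · apply e1_mR_inj
    rw [e1_mR_mul, e1_mR_mul, e1_mR_transpose, hX, e1_mR_smul, ← hT, transpose_smul]
    rw [Matrix.smul_mul, Matrix.smul_mul, Matrix.mul_smul, smul_smul, ← pow_two, hsD]
    push_cast
    rfl
  · have hκ2 := (hκ k).2
    have hκ3 : (β k : ℤ) * (Nat.gcd D (b k) : ℤ) ^ 2 = D * b k := by exact_mod_cast hκ2
    rcases hε1 k with h1 | h1
    · refine ⟨s k, hs k, by rw [hXE, h1, one_mul], ?_⟩
      rw [hβ2]
      linear_combination 2 * hκ3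
    · obtain ⟨h2, h3⟩ := e1_neg_root (hs k)
      refine ⟨-s k, h2, by rw [hXE, h1, smul_neg, neg_one_mul, neg_smul], ?_⟩
      rw [h3, hβ2]
      linear_combination 2 * hκ3

end RH6
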