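import Pool.Agent.RH6.EDef
import Pool.Agent.RH6.E1

open Matrix

namespace RH6

/-- coordinates of an integral vector in `ℚ^7` -/
def e2_f : (Fin 7 → ℤ) →+ (Fin 7 → ℚ) where
  toFun x i := (x i : ℚ)
  map_zero' := by ext i; simp
  map_add' x y := by ext i; simp

theorem e2_range : e2_f.range = Z7 := by
  ext x
  constructor
  · rintro ⟨z, rfl⟩ i
    exact ⟨z i, rfl⟩
  · intro h
    choose z hz using h
    exact ⟨z, funext fun i => (hz i).symm⟩

theorem e2_BQ (J : Matrix (Fin 7) (Fin 7) ℤ) (x y : Fin 7 → ℤ) :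
    BQ J (e2_f x) (e2_f y) = (((x ᵥ* J) ⬝ᵥ y : ℤ) : ℚ) := by
  rw [BQ_apply, Matrix.dotProduct_mulVec]
  simp only [dotProduct, Matrix.vecMul, e2_f, mQ, AddMonoidHom.coe_mk, ZeroHom.coe_mk,
    Matrix.map_apply, Int.cast_sum, Int.cast_mul]

/-- reduction of `x ᵥ* J` modulo `p` -/
def e2_g (J : Matrix (Fin 7) (Fin 7) ℤ) (p : ℕ) : (Fin 7 → ℤ) →+ (Fin 7 → ZMod p) where
  toFun x := (J.map (Int.castRingHom (ZMod p)))ᵀ *ᵥ (fun i => (x i : ZMod p))
  map_zero' := by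
    simp only [Pi.zero_apply, Int.cast_zero]
    exact Matrix.mulVec_zero _
  map_add' x y := by
    rw [← Matrix.mulVec_add]
    congr 1
    ext i
    simp

theorem e2_g_apply (J : Matrix (Fin 7) (Fin 7) ℤ) (p : ℕ) (x : Fin 7 → ℤ) (j : Fin 7) :
    e2_g J p x j = (((x ᵥ* J) j : ℤ) : ZMod p) := by
  simp only [e2_g, AddMonoidHom.coe_mk, ZeroHom.coe_mk, Matrix.mulVec, Matrix.vecMul, dotProduct,
    Matrix.transpose_apply, Matrix.map_apply, Int.cast_sum, Int.cast_mul, eq_intCast]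
  exact Finset.sum_congr rfl fun i _ => mul_comm _ _

theorem e2_comap (J : Matrix (Fin 7) (Fin 7) ℤ) (p : ℕ) :
    (Rad (BQ J) Z7 p).comap e2_f = (e2_g J p).ker := by
  ext x
  rw [AddSubgroup.mem_comap, AddMonoidHom.mem_ker]
  constructor
  · rintro ⟨-, h⟩
    ext j
    rw [e2_g_apply, Pi.zero_apply, ZMod.intCast_zmod_eq_zero_iff_dvd]
    obtain ⟨z, hz⟩ := h (e2_f (Pi.single j 1)) (by rw [← e2_range]; exact ⟨_, rfl⟩)
    rw [e2_BQ, dotProduct_single, mul_one] at hz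
    exact ⟨z, by exact_mod_cast hz⟩
  · intro h
    refine ⟨by rw [← e2_range]; exact ⟨_, rfl⟩, fun y hy => ?_⟩
    rw [← e2_range] at hy
    obtain ⟨y, rfl⟩ := hy
    rw [e2_BQ]
    have h1 : ∀ j, (p : ℤ) ∣ (x ᵥ* J) j := by
      intro j
      rw [← ZMod.intCast_zmod_eq_zero_iff_dvd, ← e2_g_apply, h]
      rfl
    have h2 : (p : ℤ) ∣ (x ᵥ* J) ⬝ᵥ y := by
      unfold dotProduct
      exact Finset.dvd_sum fun j _ => Dvd.dvd.mul_right (h1 j) _
    obtain ⟨z, hz⟩ := h2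
    exact ⟨z, by rw [hz]; push_cast; rfl⟩

/-- the index of the radical is `p` to the rank modulo `p` -/
theorem e2_index (J : Matrix (Fin 7) (Fin 7) ℤ) {p : ℕ} (hp : p.Prime) :
    (Rad (BQ J) Z7 p).relIndex Z7 = p ^ (J.map (Int.castRingHom (ZMod p))).rank := by
  have : Fact p.Prime := ⟨hp⟩
  rw [← e2_range, ← AddSubgroup.index_comap, e2_range, e2_comap, AddSubgroup.index_ker]
  have h1 : ∀ v, v ∈ (e2_g J p).range ↔
      v ∈ LinearMap.range (J.map (Int.castRingHom (ZMod p)))ᵀ.mulVecLin := by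
    intro v
    constructor
    · rintro ⟨x, rfl⟩
      exact ⟨_, rfl⟩
    · rintro ⟨y, rfl⟩
      refine ⟨fun i => ((y i).val : ℤ), ?_⟩
      have h3 : (fun i => (((y i).val : ℤ) : ZMod p)) = y := by
        ext i
        simp
      change (J.map (Int.castRingHom (ZMod p)))ᵀ *ᵥ (fun i => (((y i).val : ℤ) : ZMod p)) = _
      rw [h3]
      rfl
  have h2 : Nat.card (e2_g J p).range =
      Nat.card (LinearMap.range (J.map (Int.castRingHom (ZMod p)))ᵀ.mulVecLin) :=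
    Nat.card_congr (Equiv.subtypeEquivRight h1)
  rw [h2, Module.natCard_eq_pow_finrank (K := ZMod p), Nat.card_zmod, ← Matrix.rank_transpose]
  rfl

/-- if the rank modulo `p` is at most 3, then `p^4` divides the determinant -/
theorem e2_pow_dvd_det {X : Matrix (Fin 7) (Fin 7) ℤ} {p : ℕ} (hp : p.Prime)
    (h : (X.map (Int.castRingHom (ZMod p))).rank ≤ 3) : (p : ℤ) ^ 4 ∣ X.det := by
  classical
  have : Fact p.Prime := ⟨hp⟩
  set Xp := X.map (Int.castRingHom (ZMod p)) with hXp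
  have hfin : Module.finrank (ZMod p) (Fin 7 → ZMod p) = 7 := by simp
  have hk : 4 ≤ Module.finrank (ZMod p) (LinearMap.ker Xp.mulVecLin) := by
    have h1 := LinearMap.finrank_range_add_finrank_ker Xp.mulVecLin
    rw [hfin] at h1
    have h2 : Module.finrank (ZMod p) (LinearMap.range Xp.mulVecLin) ≤ 3 := h
    omega
  obtain ⟨C, hC⟩ := Submodule.exists_isCompl (LinearMap.ker Xp.mulVecLin)
  let b1 := Module.finBasis (ZMod p) (LinearMap.ker Xp.mulVecLin)
  let b2 := Module.finBasis (ZMod p) C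
  let b0 := (b1.prod b2).map (Submodule.prodEquivOfIsCompl _ _ hC)
  have hcard : Fintype.card (Fin (Module.finrank (ZMod p) (LinearMap.ker Xp.mulVecLin)) ⊕
      Fin (Module.finrank (ZMod p) C)) = 7 := by
    rw [← Module.finrank_eq_card_basis b0, hfin]
  let e := Fintype.equivFinOfCardEq hcard
  let b := b0.reindex e
  have hb : ∀ i, b (e (Sum.inl i)) ∈ LinearMap.ker Xp.mulVecLin := by
    intro i
    have h1 : b (e (Sum.inl i)) = (b1 i : Fin 7 → ZMod p) := by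
      simp [b, b0, Module.Basis.prod_apply]
    rw [h1]
    exact (b1 i).2
  let A : Matrix (Fin 7) (Fin 7) ℤ := fun i j => ((b j i).val : ℤ)
  have hAp : A.map (Int.castRingHom (ZMod p)) = (Pi.basisFun (ZMod p) (Fin 7)).toMatrix b := by
    ext i j
    rw [Matrix.map_apply, Module.Basis.toMatrix_apply, Pi.basisFun_repr]
    simp [A]
  have hA : IsCoprime ((p : ℤ) ^ 4) A.det := by
    apply IsCoprime.pow_left
    rw [(Nat.prime_iff_prime_int.1 hp).coprime_iff_not_dvd]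
    intro h1
    rw [← ZMod.intCast_zmod_eq_zero_iff_dvd] at h1
    have h2 : ((A.det : ℤ) : ZMod p) = (A.map (Int.castRingHom (ZMod p))).det :=
      RingHom.map_det (Int.castRingHom (ZMod p)) A
    rw [h1, hAp, ← Module.Basis.det_apply] at h2
    exact (Module.Basis.isUnit_det (Pi.basisFun (ZMod p) (Fin 7)) b).ne_zero h2.symm
  refine hA.dvd_of_dvd_mul_right ?_
  rw [← Matrix.det_mul]
  -- the columns of `X A` in the kernel are divisible by `p`
  have hcol : ∀ i k, (p : ℤ) ∣ (X * A) k (e (Sum.inl i)) := by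
    intro i k
    rw [← ZMod.intCast_zmod_eq_zero_iff_dvd]
    have h1 := hb i
    rw [LinearMap.mem_ker] at h1
    have h2 := congrFun h1 k
    rw [Matrix.mulVecLin_apply, Pi.zero_apply] at h2
    rw [← h2, Matrix.mul_apply, Int.cast_sum]
    simp only [Matrix.mulVec, dotProduct]
    refine Finset.sum_congr rfl fun j _ => ?_
    rw [Int.cast_mul]
    simp [A, hXp]
  let v : Fin 7 → ℤ := fun j => if ∃ i, j = e (Sum.inl i) then (p : ℤ) else 1
  have hv : ∀ k j, ∃ z : ℤ, (X * A) k j = v j * z := by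
    intro k j
    by_cases hj : ∃ i, j = e (Sum.inl i)
    · simp only [v, if_pos hj]
      obtain ⟨i, rfl⟩ := hj
      exact hcol i k
    · simp only [v, if_neg hj, one_mul]
      exact ⟨_, rfl⟩
  choose B hB using hv
  have hXA : X * A = Matrix.of fun i j => v j * (Matrix.of B) i j := by
    ext i j
    rw [hB i j]
    rfl
  rw [hXA, Matrix.det_mul_row v (Matrix.of B)]
  refine Dvd.dvd.mul_right ?_ _
  have hprod : ∏ j, v j = (p : ℤ) ^ (Finset.univ.filter fun j => ∃ i, j = e (Sum.inl i)).card := by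
    simp only [v]
    rw [Finset.prod_ite, Finset.prod_const, Finset.prod_const_one, mul_one]
  rw [hprod]
  refine pow_dvd_pow _ (hk.trans ?_)
  have h3 : (Finset.univ.image fun i => e (Sum.inl i)) ⊆
      (Finset.univ.filter fun j => ∃ i, j = e (Sum.inl i)) := by
    intro j hj
    obtain ⟨i, -, rfl⟩ := Finset.mem_image.1 hj
    exact Finset.mem_filter.2 ⟨Finset.mem_univ _, i, rfl⟩
  refine le_trans (le_of_eq ?_) (Finset.card_le_card h3)
  have h4 : Function.Injective (fun i => e (Sum.inl i)) := e.injective.comp Sum.inl_injective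
  rw [Finset.card_image_of_injective _ h4, Finset.card_fin]

/-- Row [RH-E2]: `G X = D Y`, `Xᵀ Y = J`.

Proof.  `G X E_k = κ_k G s`, `κ_k = gcd(D,b_k)`, `(s,s) = 2β`, `β ∣ (G s)_i` (`root_nrm`),
`β κ_k² = D b_k`, so `κ_k β = D (b_k/κ_k)` and `D ∣ (G X E_k)_i`.  By `gen`, `D ∣ (G X)_ij`. -/
theorem exists_Y {J G X : Matrix (Fin 7) (Fin 7) ℤ} {r : ℕ} {E : Fin r → (Fin 7 → ℤ)}
    {b : Fin r → ℕ} {D : ℕ} (hJ : RS J E b) (hG : EvenElem G) (hX : XD J G X E b D) :
    ∃ Y : Matrix (Fin 7) (Fin 7) ℤ, G * X = (D : ℤ) • Y ∧ Xᵀ * Y = J := by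
  obtain ⟨C, hC⟩ := hJ.gen
  have hD0 : (D : ℤ) ≠ 0 := by
    have := hX.pos
    exact_mod_cast this.ne'
  have h1 : ∀ k i, (D : ℤ) ∣ ((G * X) *ᵥ E k) i := by
    intro k i
    obtain ⟨s, hs, hXE, hn⟩ := hX.root k
    obtain ⟨β, -, hβ2, hβ3⟩ := root_nrm hG hs
    obtain ⟨w, hw⟩ := hβ3 i
    have h2 : ((G * X) *ᵥ E k) i = (Nat.gcd D (b k) : ℤ) * (β * w) := by
      rw [← Matrix.mulVec_mulVec, hXE, Matrix.mulVec_smul, Pi.smul_apply, smul_eq_mul, hw]
    have h3 : ((β : ℤ) * (Nat.gcd D (b k) : ℤ)) * (Nat.gcd D (b k) : ℤ) = D * b k := by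
      rw [hβ2] at hn
      have h4 : (2 : ℤ) * (((β : ℤ) * (Nat.gcd D (b k) : ℤ)) * (Nat.gcd D (b k) : ℤ)) =
          2 * (D * b k) := by
        rw [← mul_assoc 2 (D : ℤ), ← hn]
        ring
      exact mul_left_cancel₀ two_ne_zero h4
    obtain ⟨m, hm⟩ := Nat.gcd_dvd_right D (b k)
    have hm' : (b k : ℤ) = (Nat.gcd D (b k) : ℤ) * m := by exact_mod_cast hm
    have hg0 : (Nat.gcd D (b k) : ℤ) ≠ 0 := by
      have := Nat.gcd_pos_of_pos_left (b k) hX.pos
      exact_mod_cast this.ne'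
    have h5 : (β : ℤ) * (Nat.gcd D (b k) : ℤ) = D * m := by
      apply mul_right_cancel₀ hg0
      rw [h3]
      conv_lhs => rw [hm']
      ring
    rw [h2]
    refine ⟨m * w, ?_⟩
    calc (Nat.gcd D (b k) : ℤ) * (β * w) = ((β : ℤ) * (Nat.gcd D (b k) : ℤ)) * w := by ring
      _ = _ := by rw [h5]; ring
  have h2 : ∀ i j, ∃ z : ℤ, (G * X) i j = D * z := by
    intro i j
    have h3 : (G * X) i j = ((G * X) *ᵥ Pi.single j 1) i := by
      rw [Matrix.mulVec_single_one]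
      rfl
    change (D : ℤ) ∣ _
    rw [h3, ← hC j, Matrix.mulVec_sum, Finset.sum_apply]
    refine Finset.dvd_sum fun k _ => ?_
    rw [Matrix.mulVec_smul, Pi.smul_apply, smul_eq_mul]
    exact Dvd.dvd.mul_left (h1 k i) _
  choose Y hY using h2
  have hGX : G * X = (D : ℤ) • (Matrix.of Y) := by
    ext i j
    rw [hY i j]
    rfl
  refine ⟨Matrix.of Y, hGX, ?_⟩
  have h4 : (D : ℤ) • (Xᵀ * Matrix.of Y) = (D : ℤ) • J := by
    rw [← hX.form, Matrix.mul_assoc, hGX, Matrix.mul_smul]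
  exact smul_right_injective _ hD0 h4

/-- Row [RH-E2]: `D` has no odd prime divisor.

Proof.  Let `p ∣ D` be an odd prime, `R = Rad (BQ G) Z7 p`, i.e. `R = {y ∈ ℤ^7 : G y ∈ pℤ^7}`.
`X ℤ^7 ≤ R` since `G X = D Y`.  `[ℤ^7 : R]` divides `[ℤ^7 : X ℤ^7] = |det X|` (finite, since
`det X · det Y = det J ≠ 0`; in any case it divides `|det X|`), which divides `|det J|`.
`p ℤ^7 ≤ R`, so `[ℤ^7 : R]` divides `p^7`, so it is a power of `p`, at least `p^4` by `Min4`, so
`p^4 ∣ det J`, contradiction. -/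
theorem no_odd {J G X : Matrix (Fin 7) (Fin 7) ℤ} {r : ℕ} {E : Fin r → (Fin 7 → ℤ)}
    {b : Fin r → ℕ} {D : ℕ} (hJ : RS J E b) (hG : EvenElem G) (hX : XD J G X E b D)
    (hM : Min4 G) (hd : J.det ≠ 0) {p : ℕ} (hp : p.Prime) (hp2 : p ≠ 2)
    (hpJ : ¬ (p : ℤ) ^ 4 ∣ J.det) : ¬ p ∣ D := by
  intro hpD
  obtain ⟨Y, hY1, hY2⟩ := exists_Y hJ hG hX
  have h1 := hM p hp hp2
  rw [e2_index G hp, Nat.pow_le_pow_iff_right hp.one_lt] at h1
  have : Fact p.Prime := ⟨hp⟩
  have h2 : G.map (Int.castRingHom (ZMod p)) * X.map (Int.castRingHom (ZMod p)) = 0 := by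
    rw [← Matrix.map_mul, hY1]
    ext i j
    have h3 : ((D : ℤ) : ZMod p) = 0 := by
      rw [ZMod.intCast_zmod_eq_zero_iff_dvd]
      exact_mod_cast hpD
    rw [Matrix.map_apply, Matrix.smul_apply, smul_eq_mul, map_mul, eq_intCast, h3, zero_mul]
    rfl
  have h3 := Matrix.rank_add_rank_le_card_of_mul_eq_zero h2
  rw [Fintype.card_fin] at h3
  have h4 := e2_pow_dvd_det (X := X) hp (by omega)
  apply hpJ
  rw [← hY2, Matrix.det_mul, Matrix.det_transpose]
  exact Dvd.dvd.mul_right h4 _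

/-- Row [RH-E2]: `Min4` from the determinant.  `[ℤ^7 : Rad] = p^m`, where `m` is the rank of `J`
modulo `p`, and `p^(7-m)` divides `det J`: let `R = Rad (BQ J) Z7 p ≥ pℤ^7`, `[R : pℤ^7] = p^(7-m)`.
Let `A` be a matrix whose columns are a basis of `R`; `J A = p A'` with `A'` integral, so
`det J · det A = p^7 det A'`, `|det A| = [ℤ^7 : R] = p^m`; so `p^(7-m) ∣ det J`, `7 - m ≤ 3`. -/
theorem min4_of_det {J : Matrix (Fin 7) (Fin 7) ℤ} (hd : J.det ≠ 0)
    (h : ∀ p : ℕ, p.Prime → p ≠ 2 → ¬ (p : ℤ) ^ 4 ∣ J.det) : Min4 J := by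
  intro p hp hp2
  rw [e2_index J hp]
  by_contra h1
  push Not at h1
  have h2 := (Nat.pow_lt_pow_iff_right hp.one_lt).1 h1
  exact h p hp hp2 (e2_pow_dvd_det hp (by omega))

end RH6
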