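import Pool.Agent.RH6.EDef
import Pool.Agent.RH6.E2

open Matrix

namespace RH6

/-- the norm of an even symmetric form is even -/
theorem e3_even {G : Matrix (Fin 7) (Fin 7) ℤ} (hs : Gᵀ = G) (he : ∀ i, ∃ k, G i i = 2 * k)
    (y : Fin 7 → ℤ) : Even (bZ G y y) := by
  have := even_norm (G := G) hs (fun i => by obtain ⟨k, hk⟩ := he i; exact ⟨k, by rw [hk]; ring⟩) y
  exact this

/-- `sᵀ E s ≡ ∑ E_ii s_i mod 2` -/
theorem e3_quad {E : Matrix (Fin 7) (Fin 7) ℤ} (hE : Eᵀ = E) (s : Fin 7 → ℤ) :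
    (2 : ℤ) ∣ s ⬝ᵥ (E *ᵥ s) - ∑ i, E i i * s i := by
  have hsym : ∀ i j, E j i = E i j := by
    intro i j
    have := congrFun (congrFun hE i) j
    simpa [Matrix.transpose_apply] using this
  have h2 : ∀ x : ZMod 2, x * x = x := by decide
  have hz : ∀ x : ZMod 2, x + x = 0 := by decide
  have : ((s ⬝ᵥ (E *ᵥ s) - ∑ i, E i i * s i : ℤ) : ZMod 2) = 0 := by
    simp only [dotProduct, Matrix.mulVec, Fin.sum_univ_seven]
    rw [hsym 0 1, hsym 0 2, hsym 0 3, hsym 0 4, hsym 0 5, hsym 0 6, hsym 1 2, hsym 1 3, hsym 1 4,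
      hsym 1 5, hsym 1 6, hsym 2 3, hsym 2 4, hsym 2 5, hsym 2 6, hsym 3 4, hsym 3 5, hsym 3 6,
      hsym 4 5, hsym 4 6, hsym 5 6]
    push_cast
    have two : (2 : ZMod 2) = 0 := rfl
    have q0 := h2 (s 0 : ZMod 2)
    have q1 := h2 (s 1 : ZMod 2)
    have q2 := h2 (s 2 : ZMod 2)
    have q3 := h2 (s 3 : ZMod 2)
    have q4 := h2 (s 4 : ZMod 2)
    have q5 := h2 (s 5 : ZMod 2)
    have q6 := h2 (s 6 : ZMod 2)
    linear_combination (E 0 0 : ZMod 2) * q0 + (E 1 1 : ZMod 2) * q1 + (E 2 2 : ZMod 2) * q2 +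
      (E 3 3 : ZMod 2) * q3 + (E 4 4 : ZMod 2) * q4 + (E 5 5 : ZMod 2) * q5 +
      (E 6 6 : ZMod 2) * q6 +
      ((E 0 1 : ZMod 2) * s 0 * s 1 + E 0 2 * s 0 * s 2 + E 0 3 * s 0 * s 3 + E 0 4 * s 0 * s 4 +
      E 0 5 * s 0 * s 5 + E 0 6 * s 0 * s 6 + E 1 2 * s 1 * s 2 + E 1 3 * s 1 * s 3 +
      E 1 4 * s 1 * s 4 + E 1 5 * s 1 * s 5 + E 1 6 * s 1 * s 6 + E 2 3 * s 2 * s 3 +
      E 2 4 * s 2 * s 4 + E 2 5 * s 2 * s 5 + E 2 6 * s 2 * s 6 + E 3 4 * s 3 * s 4 +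
      E 3 5 * s 3 * s 5 + E 3 6 * s 3 * s 6 + E 4 5 * s 4 * s 5 + E 4 6 * s 4 * s 6 +
      E 5 6 * s 5 * s 6) * two
  exact (ZMod.intCast_zmod_eq_zero_iff_dvd _ 2).1 this

theorem e3_tr (M : Matrix (Fin 7) (Fin 7) ℤ) (x w : Fin 7 → ℤ) :
    x ⬝ᵥ (Mᵀ *ᵥ w) = (M *ᵥ x) ⬝ᵥ w := by
  rw [Matrix.dotProduct_mulVec, Matrix.vecMul_transpose]

theorem e3_dvd (M : Matrix (Fin 7) (Fin 7) ℤ) (x : Fin 7 → ℤ) (d : ℤ) (h : ∀ i, d ∣ x i) (i : Fin 7) :
    d ∣ (M *ᵥ x) i := by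
  simp only [Matrix.mulVec, dotProduct]
  exact Finset.dvd_sum (fun j _ => Dvd.dvd.mul_left (h j) _)

theorem e3_dvd' (x y : Fin 7 → ℤ) (d : ℤ) (h : ∀ i, d ∣ y i) :
    d ∣ x ⬝ᵥ y := by
  simp only [dotProduct]
  exact Finset.dvd_sum (fun j _ => Dvd.dvd.mul_left (h j) _)

/-- Row [RH-E3]: `D ≠ 2`.

Proof.  Let `e₁, E', t` be as in `Odd2`, so `J⁻¹ = E'/(2e₁)`.  `G X = 2 Y`, `Xᵀ Y = J = Yᵀ X`.
`X E' Xᵀ G = 4 e₁` (multiply by `X`), so `Y E' Yᵀ = e₁ G`; for `y ∈ ℤ^7` and `s = Yᵀ y`: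
`e₁ (y,y)_G = sᵀ E' s`, and `sᵀ E' s ≡ ∑ E'_ii s_i ≡ sᵀ E' t mod 2`, so `sᵀ E' t` is even.
Let `c = X E' t`: `(y, c)_G = 2 sᵀ E' t ∈ 4ℤ`, so `G c ∈ 4ℤ^7`, `e c ∈ 4 ℤ^7`, `c = 2u`.
`Yᵀ u = e₁ t`, so `(u,u)_G = e₁ tᵀ E' t` is odd, contradiction. -/
theorem ne_two {J G X : Matrix (Fin 7) (Fin 7) ℤ} {r : ℕ} {E : Fin r → (Fin 7 → ℤ)}
    {b : Fin r → ℕ} (hJ : RS J E b) (hG : EvenElem G) (ho : Odd2 J) :
    ¬ XD J G X E b 2 := by
  intro hX
  obtain ⟨Y, hY1, hY2⟩ := exists_Y hJ hG hX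
  obtain ⟨e₁, E', t, he1, hJE, hEs, hdiag, hodd⟩ := ho
  obtain ⟨e, hesq, G', hGG'⟩ := hG.elem
  have hGs := hG.symm
  have he1' : (e₁ : ℤ) ≠ 0 := by
    rintro h
    have : e₁ = 0 := by exact_mod_cast h
    subst this
    simp at he1
  -- `J` symmetric
  have hJs : Jᵀ = J := by
    have h1 : ((2 : ℕ) : ℤ) • Jᵀ = ((2 : ℕ) : ℤ) • J := by
      rw [← Matrix.transpose_smul, ← hX.form]
      simp only [Matrix.transpose_mul, Matrix.transpose_transpose, hGs, Matrix.mul_assoc]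
    ext i j
    have := congrFun (congrFun h1 i) j
    simp only [Matrix.smul_apply, smul_eq_mul, Nat.cast_ofNat] at this
    linarith
  have hYX : Yᵀ * X = J := by
    have := congrArg Matrix.transpose hY2
    rwa [Matrix.transpose_mul, Matrix.transpose_transpose, hJs] at this
  have hEJ : E' * J = (2 * (e₁ : ℤ)) • (1 : Matrix (Fin 7) (Fin 7) ℤ) := by
    have := congrArg Matrix.transpose hJE
    rwa [Matrix.transpose_mul, hEs, hJs, Matrix.transpose_smul, Matrix.transpose_one] at this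
  have hdX : X.det ≠ 0 := by
    intro h0
    have h1 : (Yᵀ * X * E').det = ((2 * (e₁ : ℤ)) • (1 : Matrix (Fin 7) (Fin 7) ℤ)).det := by
      rw [hYX, hJE]
    rw [Matrix.det_mul, Matrix.det_mul, h0, Matrix.det_smul, Matrix.det_one] at h1
    simp only [mul_zero, zero_mul, mul_one] at h1
    have h2 : (2 * (e₁ : ℤ)) ^ Fintype.card (Fin 7) ≠ 0 := pow_ne_zero _ (by simpa using he1')
    exact h2 h1.symm
  have hXr : ∀ {M N : Matrix (Fin 7) (Fin 7) ℤ}, M * X = N * X → M = N := by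
    intro M N h
    have h1 : M * X * X.adjugate = N * X * X.adjugate := by rw [h]
    rw [Matrix.mul_assoc, Matrix.mul_assoc, Matrix.mul_adjugate] at h1
    ext i j
    have := congrFun (congrFun h1 i) j
    simp only [Matrix.mul_smul, Matrix.mul_one, Matrix.smul_apply, smul_eq_mul] at this
    exact mul_left_cancel₀ hdX this
  have hXEXG : X * E' * Xᵀ * G = (4 * (e₁ : ℤ)) • (1 : Matrix (Fin 7) (Fin 7) ℤ) := by
    apply hXr
    calc X * E' * Xᵀ * G * X = X * E' * (Xᵀ * G * X) := by simp only [Matrix.mul_assoc]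
      _ = X * E' * (((2 : ℕ) : ℤ) • J) := by rw [hX.form]
      _ = ((2 : ℕ) : ℤ) • (X * (E' * J)) := by
          rw [Matrix.mul_smul, Matrix.mul_assoc]
      _ = (4 * (e₁ : ℤ)) • (1 : Matrix (Fin 7) (Fin 7) ℤ) * X := by
          rw [hEJ, Matrix.mul_smul, Matrix.mul_one, Matrix.smul_mul, Matrix.one_mul, smul_smul]
          congr 1
          push_cast
          ring
  have hGX : G * X = (2 : ℤ) • Y := by simpa using hY1
  have hXG : Xᵀ * G = (2 : ℤ) • Yᵀ := by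
    have := congrArg Matrix.transpose hGX
    rwa [Matrix.transpose_mul, hGs, Matrix.transpose_smul] at this
  have hkey : Y * E' * Yᵀ = (e₁ : ℤ) • G := by
    have h1 : G * (X * E' * Xᵀ * G) = (4 : ℤ) • (Y * E' * Yᵀ) := by
      calc G * (X * E' * Xᵀ * G) = (G * X) * E' * (Xᵀ * G) := by simp only [Matrix.mul_assoc]
        _ = (4 : ℤ) • (Y * E' * Yᵀ) := by
          rw [hGX, hXG]
          simp only [Matrix.smul_mul, Matrix.mul_smul, smul_smul]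
          norm_num
    rw [hXEXG, Matrix.mul_smul, Matrix.mul_one] at h1
    ext i j
    have := congrFun (congrFun h1 i) j
    simp only [Matrix.smul_apply, smul_eq_mul] at this ⊢
    linarith
  -- (a)
  have ha : ∀ y : Fin 7 → ℤ, (e₁ : ℤ) * bZ G y y = (Yᵀ *ᵥ y) ⬝ᵥ (E' *ᵥ (Yᵀ *ᵥ y)) := by
    intro y
    have h1 : (Yᵀ *ᵥ y) ⬝ᵥ (E' *ᵥ (Yᵀ *ᵥ y)) = y ⬝ᵥ ((Y * E' * Yᵀ) *ᵥ y) := by
      rw [← Matrix.mulVec_mulVec, ← Matrix.mulVec_mulVec, ← e3_tr, Matrix.transpose_transpose]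
    rw [h1, hkey, Matrix.smul_mulVec, dotProduct_smul, smul_eq_mul]
    rfl
  have hev : ∀ y : Fin 7 → ℤ, Even (bZ G y y) := e3_even hGs hG.even
  have hb : ∀ y : Fin 7 → ℤ, (2 : ℤ) ∣ (Yᵀ *ᵥ y) ⬝ᵥ (E' *ᵥ t) := by
    intro y
    set s := Yᵀ *ᵥ y with hs
    have h1 : (2 : ℤ) ∣ s ⬝ᵥ (E' *ᵥ s) := by
      rw [← ha y]
      exact Dvd.dvd.mul_left (hev y).two_dvd _
    have h2 := e3_quad hEs s
    have h3 : (2 : ℤ) ∣ ∑ i, E' i i * s i - s ⬝ᵥ (E' *ᵥ t) := by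
      have : ∑ i, E' i i * s i - s ⬝ᵥ (E' *ᵥ t) = ∑ i, (E' i i - (E' *ᵥ t) i) * s i := by
        simp only [dotProduct, ← Finset.sum_sub_distrib]
        apply Finset.sum_congr rfl
        intro i _
        ring
      rw [this]
      exact Finset.dvd_sum (fun i _ => Dvd.dvd.mul_right (hdiag i).two_dvd _)
    have h4 : s ⬝ᵥ (E' *ᵥ t) = s ⬝ᵥ (E' *ᵥ s) - (s ⬝ᵥ (E' *ᵥ s) - ∑ i, E' i i * s i) -
        (∑ i, E' i i * s i - s ⬝ᵥ (E' *ᵥ t)) := by ring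
    rw [h4]
    exact dvd_sub (dvd_sub h1 h2) h3
  -- (b)
  set c : Fin 7 → ℤ := X *ᵥ (E' *ᵥ t) with hc
  have hGc : ∀ i, (4 : ℤ) ∣ (G *ᵥ c) i := by
    intro i
    have h1 : G *ᵥ c = (2 : ℤ) • (Y *ᵥ (E' *ᵥ t)) := by
      rw [hc, Matrix.mulVec_mulVec, hGX, Matrix.smul_mulVec]
    have h2 : (Y *ᵥ (E' *ᵥ t)) i = (Yᵀ *ᵥ (Pi.single i 1)) ⬝ᵥ (E' *ᵥ t) := by
      rw [Matrix.mulVec_single_one]
      rfl
    rw [h1, Pi.smul_apply, smul_eq_mul, h2]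
    obtain ⟨k, hk⟩ := hb (Pi.single i 1)
    rw [hk]
    exact ⟨k, by ring⟩
  have hG'G : G'ᵀ * G = (e : ℤ) • (1 : Matrix (Fin 7) (Fin 7) ℤ) := by
    have := congrArg Matrix.transpose hGG'
    rwa [Matrix.transpose_mul, hGs, Matrix.transpose_smul, Matrix.transpose_one] at this
  have hec : ∀ i, (4 : ℤ) ∣ (e : ℤ) * c i := by
    intro i
    have h1 : (e : ℤ) * c i = (G'ᵀ *ᵥ (G *ᵥ c)) i := by
      rw [Matrix.mulVec_mulVec, hG'G, Matrix.smul_mulVec, Matrix.one_mulVec]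
      rfl
    rw [h1]
    exact e3_dvd _ _ _ hGc i
  have hc2 : ∀ i, (2 : ℤ) ∣ c i := by
    intro i
    by_contra hci
    have hodd' : Odd (c i) := by
      rw [← Int.not_even_iff_odd]
      exact fun h => hci h.two_dvd
    have hcop : IsCoprime (4 : ℤ) (c i) := by
      have h1 : IsCoprime (2 : ℤ) (c i) := by
        rw [Int.isCoprime_iff_gcd_eq_one]
        rcases (Int.natAbs_odd.2 hodd') with ⟨m, hm⟩
        rw [Int.gcd_def, hm]
        simp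
      have h2 := h1.pow_left (m := 2)
      norm_num at h2
      exact h2
    have h4 : (4 : ℤ) ∣ (e : ℤ) := hcop.dvd_of_dvd_mul_right (hec i)
    have h5 : 4 ∣ e := by exact_mod_cast h4
    have h6 := hesq 2 (by simpa using h5)
    exact absurd h6 (by decide)
  choose u hu using hc2
  have hcu : c = (2 : ℤ) • u := by
    ext i
    simp [hu i]
  -- (c)
  have hYu : Yᵀ *ᵥ u = (e₁ : ℤ) • t := by
    have h1 : Yᵀ *ᵥ c = (2 * (e₁ : ℤ)) • t := by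
      rw [hc, Matrix.mulVec_mulVec, hYX, Matrix.mulVec_mulVec, hJE, Matrix.smul_mulVec,
        Matrix.one_mulVec]
    rw [hcu, Matrix.mulVec_smul] at h1
    ext i
    have := congrFun h1 i
    simp only [Pi.smul_apply, smul_eq_mul] at this ⊢
    linarith
  have h1 := ha u
  rw [hYu, Matrix.mulVec_smul, dotProduct_smul, smul_dotProduct, smul_eq_mul, smul_eq_mul] at h1
  have h2 : bZ G u u = (e₁ : ℤ) * (t ⬝ᵥ (E' *ᵥ t)) := mul_left_cancel₀ he1' h1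
  have h3 : Odd (bZ G u u) := by
    rw [h2]
    exact (by exact_mod_cast he1 : Odd (e₁ : ℤ)).mul hodd
  exact (Int.not_even_iff_odd.2 h3) (hev u)

/-- Row [RH-E3]: for `D = 1` the matrix `X` is unimodular. -/
theorem unimod {J G X E' : Matrix (Fin 7) (Fin 7) ℤ} {r : ℕ} {E : Fin r → (Fin 7 → ℤ)}
    {b : Fin r → ℕ} (hJ : RS J E b) (hG : EvenElem G) (hX : XD J G X E b 1) {e : ℤ}
    (he : e ≠ 0) (hE : J * E' = e • (1 : Matrix (Fin 7) (Fin 7) ℤ))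
    (hno : ∀ p : ℕ, p.Prime → (p : ℤ) ∣ e → NoOver J E b p) : IsUnit X.det := by
  have hGs := hG.symm
  have hform : Xᵀ * G * X = J := by
    have := hX.form
    simpa using this
  have hJs : Jᵀ = J := by
    rw [← hform]
    simp only [Matrix.transpose_mul, Matrix.transpose_transpose, hGs, Matrix.mul_assoc]
  have hEJ : E'ᵀ * J = e • (1 : Matrix (Fin 7) (Fin 7) ℤ) := by
    have := congrArg Matrix.transpose hE
    rwa [Matrix.transpose_mul, hJs, Matrix.transpose_smul, Matrix.transpose_one] at this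
  by_contra hnu
  have hna : X.det.natAbs ≠ 1 := fun h => hnu (Int.isUnit_iff_natAbs_eq.2 h)
  obtain ⟨p, hp, hpd⟩ := Nat.exists_prime_and_dvd hna
  have : Fact p.Prime := ⟨hp⟩
  have hpX : (p : ℤ) ∣ X.det := Int.natCast_dvd.2 hpd
  have hdet : (X.map (Int.castRingHom (ZMod p))).det = 0 := by
    rw [← RingHom.mapMatrix_apply, ← RingHom.map_det]
    exact (ZMod.intCast_zmod_eq_zero_iff_dvd _ p).2 hpX
  obtain ⟨zb, hzb, hXz⟩ := Matrix.exists_mulVec_eq_zero_iff.2 hdet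
  let z : Fin 7 → ℤ := fun i => ((zb i).val : ℤ)
  have hz : ∀ i, ((z i : ℤ) : ZMod p) = zb i := by
    intro i
    simp [z]
  have hznd : ¬ ∀ i, (p : ℤ) ∣ z i := by
    intro h
    apply hzb
    funext i
    rw [← hz i]
    exact (ZMod.intCast_zmod_eq_zero_iff_dvd _ p).2 (h i)
  have hXzd : ∀ i, (p : ℤ) ∣ (X *ᵥ z) i := by
    intro i
    rw [← ZMod.intCast_zmod_eq_zero_iff_dvd]
    have := congrFun hXz i
    simp only [Matrix.mulVec, dotProduct, Matrix.map_apply, Pi.zero_apply] at this ⊢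
    push_cast
    rw [← this]
    apply Finset.sum_congr rfl
    intro j _
    rw [hz j]
    rfl
  choose y hy using hXzd
  have hXzy : X *ᵥ z = (p : ℤ) • y := by
    ext i
    simp [hy i]
  have hJz : J *ᵥ z = (p : ℤ) • (Xᵀ *ᵥ (G *ᵥ y)) := by
    rw [← hform, ← Matrix.mulVec_mulVec, hXzy, Matrix.mulVec_smul, Matrix.mulVec_mulVec]
  have h1 : ∀ i, (p : ℤ) ∣ (J *ᵥ z) i := by
    intro i
    rw [hJz]
    exact ⟨_, rfl⟩
  apply hznd
  by_cases hpe : (p : ℤ) ∣ e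
  · apply hno p hp hpe z h1
    · intro k
      obtain ⟨s, hs, hs1, hs2⟩ := hX.root k
      rw [Nat.gcd_one_left, Nat.cast_one, one_smul] at hs1
      rw [Nat.gcd_one_left] at hs2
      obtain ⟨β, _, hβ1, hβ2⟩ := root_nrm hG hs
      have hβ : (β : ℤ) = b k := by
        rw [hβ1] at hs2
        push_cast at hs2
        linarith
      have h3 : bZ J (E k) z = (p : ℤ) * (y ⬝ᵥ (G *ᵥ s)) := by
        unfold bZ
        rw [hJz, dotProduct_smul, smul_eq_mul]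
        congr 1
        rw [e3_tr, hs1]
        calc s ⬝ᵥ (G *ᵥ y) = s ⬝ᵥ (Gᵀ *ᵥ y) := by rw [hGs]
          _ = (G *ᵥ s) ⬝ᵥ y := e3_tr G s y
          _ = y ⬝ᵥ (G *ᵥ s) := dotProduct_comm _ _
      rw [h3]
      push_cast
      apply mul_dvd_mul_left
      rw [← hβ]
      exact e3_dvd' _ _ _ hβ2
    · have h3 : bZ J z z = (p : ℤ) ^ 2 * bZ G y y := by
        unfold bZ
        rw [hJz, dotProduct_smul, smul_eq_mul, e3_tr, hXzy, smul_dotProduct, smul_eq_mul]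
        ring
      rw [h3]
      obtain ⟨m, hm⟩ := (e3_even hGs hG.even y).two_dvd
      rw [hm]
      exact ⟨m, by ring⟩
  · intro i
    have h3 : e * z i = (E'ᵀ *ᵥ (J *ᵥ z)) i := by
      rw [Matrix.mulVec_mulVec, hEJ, Matrix.smul_mulVec, Matrix.one_mulVec]
      rfl
    have h4 : (p : ℤ) ∣ e * z i := by
      rw [h3]
      exact e3_dvd _ _ _ h1 i
    exact ((Nat.prime_iff_prime_int.1 hp).dvd_or_dvd h4).resolve_left hpe

end RH6
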