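import Pool.Agent.RH6.E3
import Pool.Agent.RH6.A6b
import Pool.Agent.RH6.C2
import Pool.Agent.RH6.C1c
import Pool.Agent.RH6.A2

open Matrix

namespace RH6

/-- all conditions on `(J, E, b)` -/
structure MaxData (J : Matrix (Fin 7) (Fin 7) ℤ) {r : ℕ} (E : Fin r → (Fin 7 → ℤ))
    (b : Fin r → ℕ) : Prop where
  nf : EvenElem J
  rs : RS J E b
  det0 : J.det ≠ 0
  det4 : ∀ p : ℕ, p.Prime → p ≠ 2 → ¬ (p : ℤ) ^ 4 ∣ J.det
  odd2 : Odd2 J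
  ov : ∃ (e : ℤ) (E' : Matrix (Fin 7) (Fin 7) ℤ), e ≠ 0 ∧
    J * E' = e • (1 : Matrix (Fin 7) (Fin 7) ℤ) ∧ ∀ p : ℕ, p.Prime → (p : ℤ) ∣ e → NoOver J E b p

theorem e4_iota (g : GL (Fin 7) ℤ) : (iota g).1 = g.1.map (fun n : ℤ => (n : ℝ)) := by
  ext i j
  simp [iota]

theorem e4_mulVec_inj (P : GL (Fin 7) ℝ) {x y : Fin 7 → ℝ} (h : P.1 *ᵥ x = P.1 *ᵥ y) : x = y := by
  have h1 : P⁻¹.1 * P.1 = 1 := by
    rw [← Units.val_mul, inv_mul_cancel]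
    rfl
  have h2 := congrArg (fun z => P⁻¹.1 *ᵥ z) h
  simpa [Matrix.mulVec_mulVec, h1] using h2

theorem e4_norm {P : GL (Fin 7) ℝ} {J : Matrix (Fin 7) (Fin 7) ℤ}
    (hP : P.1ᵀ * J0 * P.1 = mR J) (x : Fin 7 → ℝ) :
    (P.1 *ᵥ x) ⬝ᵥ (J0 *ᵥ (P.1 *ᵥ x)) = bR J x x := by
  have h1 : bR J x x = x ⬝ᵥ (mR J *ᵥ x) := rfl
  rw [h1, ← hP, ← Matrix.mulVec_mulVec, ← Matrix.mulVec_mulVec, Matrix.dotProduct_mulVec x,
    Matrix.vecMul_transpose]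

/-- squarefree without odd prime divisors -/
theorem e4_one_or_two {D : ℕ} (hD : 0 < D) (hs : Squarefree D)
    (h : ∀ p : ℕ, p.Prime → p ≠ 2 → ¬ p ∣ D) : D = 1 ∨ D = 2 := by
  by_cases h1 : D = 1
  · exact Or.inl h1
  right
  obtain ⟨p, hp, hpD⟩ := Nat.exists_prime_and_dvd h1
  obtain rfl : p = 2 := by
    by_contra h2
    exact h p hp h2 hpD
  obtain ⟨m, rfl⟩ := hpD
  by_cases hm : m = 1
  · rw [hm]
  exfalso
  obtain ⟨q, hq, hqm⟩ := Nat.exists_prime_and_dvd hm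
  obtain rfl : q = 2 := by
    by_contra h2
    exact h q hq h2 (dvd_mul_of_dvd_right hqm 2)
  have h3 := hs 2 (mul_dvd_mul_left 2 hqm)
  rw [Nat.isUnit_iff] at h3
  omega

/-- the reflection in `P v` is given by a root of `G` proportional to `P'⁻¹ P v` -/
theorem e4_root {J G : Matrix (Fin 7) (Fin 7) ℤ} {P P' : GL (Fin 7) ℝ}
    (hP : P.1ᵀ * J0 * P.1 = mR J) (hP' : P'.1ᵀ * J0 * P'.1 = mR G) {h : Fin 7 → ℤ} (hL : Lor G h)
    (hf : ∀ x, Fwd G h x ↔ Up (P'.1 *ᵥ x)) {T : Matrix (Fin 7) (Fin 7) ℝ} (hPT : P'.1 * T = P.1)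
    {v : Fin 7 → ℤ} (hv : 0 < bZ J v v) {γ : GL (Fin 7) ℝ} (hγ : γ ∈ latGroup P')
    (hγx : ∀ x, γ.1 *ᵥ x = x -
      (2 * (x ⬝ᵥ (J0 *ᵥ (P.1 *ᵥ toR v))) /
        ((P.1 *ᵥ toR v) ⬝ᵥ (J0 *ᵥ (P.1 *ᵥ toR v)))) • (P.1 *ᵥ toR v)) :
    ∃ s, IsRoot G s ∧ ∃ τ : ℝ, τ ≠ 0 ∧ T *ᵥ toR v = τ • toR s := by
  obtain ⟨g, -, rfl⟩ := exists_of_mem_latGroup hP' hL hf hγ
  have hvv : 0 < (P.1 *ᵥ toR v) ⬝ᵥ (J0 *ᵥ (P.1 *ᵥ toR v)) := by
    rw [e4_norm hP, bR_toR]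
    exact_mod_cast hv
  obtain ⟨s, hs, hsg⟩ := (isReflection_iff hP' hL g).1 ⟨P.1 *ᵥ toR v, hvv, hγx⟩
  refine ⟨s, hs, ?_⟩
  have hw : P'.1 *ᵥ (T *ᵥ toR v) = P.1 *ᵥ toR v := by rw [Matrix.mulVec_mulVec, hPT]
  have h1 := hγx (P.1 *ᵥ toR v)
  rw [mul_div_assoc, div_self hvv.ne', mul_one] at h1
  have h2 : (P' * iota g * P'⁻¹).1 *ᵥ (P.1 *ᵥ toR v) = P'.1 *ᵥ ((iota g).1 *ᵥ (T *ᵥ toR v)) := by
    rw [← hw, Matrix.mulVec_mulVec (T *ᵥ toR v), Matrix.mulVec_mulVec (T *ᵥ toR v),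
      ← Units.val_mul, ← Units.val_mul, inv_mul_cancel_right]
  have h3 : (iota g).1 *ᵥ (T *ᵥ toR v) = -(T *ᵥ toR v) := by
    apply e4_mulVec_inj P'
    rw [← h2, h1, Matrix.mulVec_neg, hw, two_smul]
    abel
  have h4 : actR g (T *ᵥ toR v) = -(T *ᵥ toR v) := by
    rw [← h3, e4_iota]
    rfl
  have h5 := refl_actR hsg (T *ᵥ toR v)
  rw [h4] at h5
  have hn : (0 : ℝ) < bZ G s s := by exact_mod_cast hs.pos
  have h6 : T *ᵥ toR v = (bR G (T *ᵥ toR v) (toR s) / bZ G s s) • toR s := by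
    have h7 : (bZ G s s : ℝ) • (T *ᵥ toR v) = bR G (T *ᵥ toR v) (toR s) • toR s := by
      ext i
      have h8 := congrFun h5 i
      simp only [Pi.smul_apply, Pi.neg_apply, Pi.sub_apply, smul_eq_mul] at h8 ⊢
      linarith
    rw [div_eq_inv_mul, mul_smul, ← h7, smul_smul, inv_mul_cancel₀ hn.ne', one_smul]
  refine ⟨_, ?_, h6⟩
  intro h9
  rw [h9, zero_smul] at h6
  rw [← hw, h6, Matrix.mulVec_zero] at hvv
  simp at hvv

/-- Row [RH-E4]: the lattice is determined by the group.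

Proof.  `T = P'⁻¹ P`, so `Tᵀ G T = J`.  For every `k` let `γ ∈ latGroup P'` be the reflection in
`P E_k`; `γ = P' g P'⁻¹`, `g ∈ OG G h` (`exists_h`, `exists_of_mem_latGroup`), and by
`isReflection_iff` (for `P'`, `G`) `g` is the reflection in a root `s` of `G`; so `P' s` and `P E_k`
are proportional (both span the `-1` eigenspace), `T E_k = τ s`, `τ ≠ 0`.  By `int_map` there are
`D, X`; by `no_odd` `D` has no odd prime divisor, `D` squarefree, so `D = 1` or `D = 2`; `ne_two`; so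
`D = 1`, `X = T` (as real matrices), and `X` is unimodular by `unimod`. -/
theorem max_main {J G : Matrix (Fin 7) (Fin 7) ℤ} {r : ℕ} {E : Fin r → (Fin 7 → ℤ)}
    {b : Fin r → ℕ} (hJ : MaxData J E b) (hG : EvenElem G) (hM : Min4 G) {P P' : GL (Fin 7) ℝ}
    (hP : P.1ᵀ * J0 * P.1 = mR J) (hP' : P'.1ᵀ * J0 * P'.1 = mR G)
    (hr : ∀ k, ∃ γ ∈ latGroup P', ∀ x, γ.1 *ᵥ x = x -
      (2 * (x ⬝ᵥ (J0 *ᵥ (P.1 *ᵥ toR (E k)))) /
        ((P.1 *ᵥ toR (E k)) ⬝ᵥ (J0 *ᵥ (P.1 *ᵥ toR (E k))))) • (P.1 *ᵥ toR (E k))) :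
    ∃ U : GL (Fin 7) ℤ, P = P' * iota U := by
  obtain ⟨h, hL, hf⟩ := exists_h hP'
  obtain ⟨T, hPT⟩ : ∃ T : Matrix (Fin 7) (Fin 7) ℝ, P'.1 * T = P.1 :=
    ⟨(P'⁻¹ * P).1, by rw [← Units.val_mul, mul_inv_cancel_left]⟩
  have hT : Tᵀ * mR G * T = mR J := by
    rw [← hP', ← hP, ← hPT, Matrix.transpose_mul]
    simp only [Matrix.mul_assoc]
  have hroot : ∀ k, ∃ s, IsRoot G s ∧ ∃ τ : ℝ, τ ≠ 0 ∧ T *ᵥ toR (E k) = τ • toR s := by
    intro k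
    obtain ⟨γ, hγ, hγx⟩ := hr k
    refine e4_root hP hP' hL hf hPT ?_ hγ hγx
    rw [hJ.rs.nrm k]
    have := (hJ.rs.sq k).ne_zero
    omega
  obtain ⟨D, X, hX, hXT⟩ := int_map hJ.rs hG hT hroot
  have hD : D = 1 := by
    rcases e4_one_or_two hX.pos hX.sq (fun p hp hp2 =>
      no_odd hJ.rs hG hX hM hJ.det0 hp hp2 (hJ.det4 p hp hp2)) with h1 | h1
    · exact h1
    · rw [h1] at hX
      exact absurd hX (ne_two hJ.rs hG hJ.odd2)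
  rw [hD] at hX hXT
  rw [Nat.cast_one, Real.sqrt_one, one_smul] at hXT
  obtain ⟨e, E', he, hE, hno⟩ := hJ.ov
  have hu := unimod hJ.rs hG hX he hE hno
  refine ⟨Matrix.GeneralLinearGroup.mk'' X hu, ?_⟩
  apply Units.ext
  rw [Units.val_mul, e4_iota, ← hPT, ← hXT]
  rfl

theorem e4_BQ_int (G : Matrix (Fin 7) (Fin 7) ℤ) (x y : Fin 7 → ℤ) :
    BQ G (fun i => (x i : ℚ)) (fun i => (y i : ℚ)) = (bZ G x y : ℚ) := by
  rw [BQ_apply]
  simp only [bZ, dotProduct, Matrix.mulVec, mQ, Matrix.map_apply]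
  push_cast
  rfl

/-- Row [RH-E4]: normal form with `Min4`.

Proof.  `nf_nonunif` gives `P, G`.  Apply `exists_min` to `(BQ G, Z7)` (`BQ_nice` with `exists_h`,
`Z7_isLat`, `BQ_even`, `BQ_elem`): `c, L'`.  Let `v_1,…,v_7` be a basis of `ℚ^7` with integral span
`L'` and `T ∈ GL₇(ℚ)` the matrix with these columns: `L' = T ℤ^7`.  `G₁ = c Tᵀ G T` is integral,
with even diagonal, and `e G₁⁻¹` is integral with `e` squarefree (same argument as in the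
docstring of `nf_of_comm`, from `Elem` at all primes).  `P₁ = √c P T`: `P₁ᵀ J0 P₁ = G₁`.
`latGroup P₁ = latGroup (P T)` (`latGroup_smul`) `= latGroup P`: an element `γ = P q P⁻¹` with `q`
an isometry of `G` preserves `P ℤ^7` iff `q` preserves `ℤ^7` iff (`QEq`) `q` preserves `L' = Tℤ^7`.
`Min4 G₁`: `Rad (BQ G₁) Z7 p` corresponds to `Rad (c • BQ G) L' p` under `T`.  The isotropic vector:
`T⁻¹ x`, multiplied by a common denominator. -/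
theorem nf_min {Γ : Subgroup (GL (Fin 7) ℝ)} (hΓ : IsNonunif Γ) :
    ∃ (P : GL (Fin 7) ℝ) (G : Matrix (Fin 7) (Fin 7) ℤ), P.1ᵀ * J0 * P.1 = mR G ∧ EvenElem G ∧
      Min4 G ∧ (∃ x : Fin 7 → ℤ, x ≠ 0 ∧ bZ G x x = 0) ∧ Γ ≤ latGroup P ∧
      Γ.Commensurable (latGroup P) := by
  obtain ⟨P, G, hP, hG, ⟨x, hx, hx0⟩, hle, hcomm⟩ := nf_nonunif hΓ
  obtain ⟨h, hL, hf⟩ := exists_h hP
  have hn : Module.finrank ℚ (Fin 7 → ℚ) = 7 := Module.finrank_fin_fun ℚ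
  obtain ⟨c, L', hc, hL', hev, hE, hQ, hidx⟩ :=
    exists_min (BQ_nice hL) Z7_isLat hn (BQ_even hG) (BQ_elem hG)
  obtain ⟨T, hT⟩ := a6_basis hL'
  have hPQ : P.1ᵀ * J0 * P.1 = (mQ G).map (fun q : ℚ => (q : ℝ)) := by
    rw [hP]
    ext i j
    simp [mR, mQ]
  obtain ⟨G₁, hG₁, hG₁e⟩ := a6_gram (a6_symm hPQ) (a6_det hPQ) hc hL' hev hE hT
  have hTT : ∀ y : Fin 7 → ℚ, T.1 *ᵥ (T⁻¹.1 *ᵥ y) = y := by
    intro y
    rw [Matrix.mulVec_mulVec, ← Units.val_mul, mul_inv_cancel, Units.val_one, Matrix.one_mulVec]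
  have hform : ∀ v w, BQ G₁ v w = (c • BQ G) (T.1 *ᵥ v) (T.1 *ᵥ w) := by
    intro v w
    rw [BQ_apply, ← hG₁, LinearMap.smul_apply, LinearMap.smul_apply, BQ, a6_form,
      Matrix.smul_mulVec, dotProduct_smul]
  have hf1 : ∀ x y : Fin 7 → ℚ,
      BQ G₁ (a6_equiv T⁻¹ x) (a6_equiv T⁻¹ y) = (c • BQ G) x y := by
    intro x y
    rw [a6_equiv_apply, a6_equiv_apply, hform, hTT, hTT]
  have hf2 : ∀ x : Fin 7 → ℚ, x ∈ L' ↔ a6_equiv T⁻¹ x ∈ Z7 := by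
    intro x
    rw [a6_equiv_apply]
    conv_lhs => rw [← hTT x]
    exact hT _
  have hQ2 : QEq (BQ G) Z7 (BQ G₁) Z7 :=
    QEq_trans hQ (QEq_of_iso (a6_equiv T⁻¹) (c := 1) one_pos
      (fun x y => by rw [hf1, one_mul]) hf2)
  obtain ⟨P₁, hP₁, hPP⟩ := latGroup_of_QEq hP hQ2
  refine ⟨P₁, G₁, hP₁, hG₁e, ?_, ?_, ?_, ?_⟩
  · intro p hp hp2
    refine (hidx p hp hp2).trans (le_of_eq ?_)
    have h1 : Rad (c • BQ G) L' p =
        (Rad (BQ G₁) Z7 p).comap (a6_equiv T⁻¹).toLinearMap.toAddMonoidHom := by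
      ext y
      rw [AddSubgroup.mem_comap]
      change (y ∈ L' ∧ ∀ z ∈ L', _) ↔ (a6_equiv T⁻¹ y ∈ Z7 ∧ ∀ z ∈ Z7, _)
      rw [← hf2]
      refine and_congr_right fun _ => ⟨fun h3 z hz => ?_, fun h3 z hz => ?_⟩
      · have h4 : T.1 *ᵥ z ∈ L' := (hT z).2 hz
        have h5 : z = a6_equiv T⁻¹ (T.1 *ᵥ z) := by
          rw [a6_equiv_apply, Matrix.mulVec_mulVec, ← Units.val_mul, inv_mul_cancel,
            Units.val_one, Matrix.one_mulVec]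
        rw [h5]
        obtain ⟨k, hk⟩ := h3 _ h4
        exact ⟨k, by rw [← hk]; exact hf1 _ _⟩
      · obtain ⟨k, hk⟩ := h3 _ ((hf2 z).1 hz)
        exact ⟨k, by rw [← hk]; exact (hf1 _ _).symm⟩
    have h2 : L'.map (a6_equiv T⁻¹).toLinearMap.toAddMonoidHom = Z7 := by
      ext y
      rw [AddSubgroup.mem_map]
      constructor
      · rintro ⟨z, hz, rfl⟩
        exact (hf2 z).1 hz
      · intro hy
        refine ⟨T.1 *ᵥ y, (hT y).2 hy, ?_⟩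
        change a6_equiv T⁻¹ (T.1 *ᵥ y) = y
        rw [a6_equiv_apply, Matrix.mulVec_mulVec, ← Units.val_mul, inv_mul_cancel,
          Units.val_one, Matrix.one_mulVec]
    rw [h1, AddSubgroup.relIndex_comap, h2]
  · obtain ⟨φ, c₁, hc₁, hφ, -⟩ := hQ2
    have h1 : φ (fun i => (x i : ℚ)) ≠ 0 := by
      intro h2
      have h3 : (fun i => (x i : ℚ)) = 0 := by
        apply φ.injective
        rw [h2, map_zero]
      apply hx
      ext i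
      have h4 := congrFun h3 i
      simpa using h4
    obtain ⟨D, hD, hDy⟩ := exists_smul_mem Z7_isLat (φ (fun i => (x i : ℚ)))
    choose z hz using hDy
    have hze : (fun i => (z i : ℚ)) = (D : ℤ) • φ (fun i => (x i : ℚ)) := by
      ext i
      exact (hz i).symm
    refine ⟨z, ?_, ?_⟩
    · rintro rfl
      have h2 : (D : ℤ) • φ (fun i => (x i : ℚ)) = 0 := by
        rw [← hze]
        ext i
        simp
      rcases smul_eq_zero.1 h2 with h3 | h3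
      · omega
      · exact h1 h3
    · have h2 := e4_BQ_int G₁ z z
      rw [hze] at h2
      have h3 : BQ G₁ ((D : ℤ) • φ (fun i => (x i : ℚ))) ((D : ℤ) • φ (fun i => (x i : ℚ))) = 0 := by
        rw [map_zsmul, map_zsmul, LinearMap.smul_apply, hφ, e4_BQ_int, hx0]
        simp
      rw [h3] at h2
      exact_mod_cast h2.symm
  · rw [hPP]
    exact hle
  · rw [hPP]
    exact hcomm

end RH6
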