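import Pool.Agent.RH6.C1b

open Matrix

namespace RH6

/-- unimodular rank at least 4 at all odd primes -/
def Min4 (G : Matrix (Fin 7) (Fin 7) ℤ) : Prop :=
  ∀ p : ℕ, p.Prime → p ≠ 2 → p ^ 4 ≤ (Rad (BQ G) Z7 p).relIndex Z7

/-- a generating, connected set of roots of `J`; `(E k, E k) = 2 b k` -/
structure RS (J : Matrix (Fin 7) (Fin 7) ℤ) {r : ℕ} (E : Fin r → (Fin 7 → ℤ)) (b : Fin r → ℕ) :
    Prop where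
  nrm : ∀ k, bZ J (E k) (E k) = 2 * (b k : ℤ)
  sq : ∀ k, Squarefree (b k)
  dvd : ∀ k i, (b k : ℤ) ∣ (J *ᵥ E k) i
  gen : ∃ C : Matrix (Fin 7) (Fin r) ℤ, ∀ i, ∑ k, C i k • E k = Pi.single i 1
  conn : ∀ k : Fin r, 0 < (k : ℕ) → ∃ l : Fin r, l < k ∧ bZ J (E k) (E l) ≠ 0

/-- certificate which excludes `D = 2` -/
def Odd2 (J : Matrix (Fin 7) (Fin 7) ℤ) : Prop :=
  ∃ (e₁ : ℕ) (E' : Matrix (Fin 7) (Fin 7) ℤ) (t : Fin 7 → ℤ), Odd e₁ ∧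
    J * E' = (2 * (e₁ : ℤ)) • (1 : Matrix (Fin 7) (Fin 7) ℤ) ∧ E'ᵀ = E' ∧
    (∀ i, Even (E' i i - (E' *ᵥ t) i)) ∧ Odd (t ⬝ᵥ (E' *ᵥ t))

/-- there is no even lattice properly containing `ℤ^7` on which the `E k` act, at `p` -/
def NoOver (J : Matrix (Fin 7) (Fin 7) ℤ) {r : ℕ} (E : Fin r → (Fin 7 → ℤ)) (b : Fin r → ℕ)
    (p : ℕ) : Prop :=
  ∀ z : Fin 7 → ℤ, (∀ i, (p : ℤ) ∣ (J *ᵥ z) i) → (∀ k, ((p * b k : ℕ) : ℤ) ∣ bZ J (E k) z) →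
    (2 * p ^ 2 : ℤ) ∣ bZ J z z → ∀ i, (p : ℤ) ∣ z i

/-- the situation: `X` is an integral matrix with `Xᵀ G X = D J`, mapping `E k` to a multiple of a
root of `G` -/
structure XD (J G X : Matrix (Fin 7) (Fin 7) ℤ) {r : ℕ} (E : Fin r → (Fin 7 → ℤ))
    (b : Fin r → ℕ) (D : ℕ) : Prop where
  pos : 0 < D
  sq : Squarefree D
  form : Xᵀ * G * X = (D : ℤ) • J
  root : ∀ k, ∃ s, IsRoot G s ∧ X *ᵥ E k = (Nat.gcd D (b k) : ℤ) • s ∧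
    bZ G s s * (Nat.gcd D (b k) : ℤ) ^ 2 = 2 * D * b k

end RH6
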