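import Pool.Agent.RH6.R5

namespace RH6

variable {V : Type*} [AddCommGroup V] [Module ℚ V] [FiniteDimensional ℚ V]

omit [FiniteDimensional ℚ V] in
theorem r6_mem3 {a b c x : V} : x ∈ Submodule.span ℚ (Set.range ![a, b, c]) ↔
    ∃ t1 t2 t3 : ℚ, x = t1 • a + t2 • b + t3 • c := by
  rw [Submodule.mem_span_range_iff_exists_fun]
  constructor
  · rintro ⟨f, rfl⟩
    refine ⟨f 0, f 1, f 2, ?_⟩
    simp [Fin.sum_univ_three]
  · rintro ⟨t1, t2, t3, rfl⟩
    refine ⟨![t1, t2, t3], ?_⟩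
    simp [Fin.sum_univ_three]

omit [FiniteDimensional ℚ V] in
theorem r6_mem4 {a b c d x : V} : x ∈ Submodule.span ℚ (Set.range ![a, b, c, d]) ↔
    ∃ t1 t2 t3 t4 : ℚ, x = t1 • a + t2 • b + t3 • c + t4 • d := by
  rw [Submodule.mem_span_range_iff_exists_fun]
  constructor
  · rintro ⟨f, rfl⟩
    refine ⟨f 0, f 1, f 2, f 3, ?_⟩
    simp [Fin.sum_univ_four]
  · rintro ⟨t1, t2, t3, t4, rfl⟩
    refine ⟨![t1, t2, t3, t4], ?_⟩
    simp [Fin.sum_univ_four]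

omit [FiniteDimensional ℚ V] in
theorem r6_set4 {a b c d x : V} (h : x ∈ Submodule.span ℚ {a, b, c, d}) :
    ∃ t1 t2 t3 t4 : ℚ, x = t1 • a + t2 • b + t3 • c + t4 • d := by
  rw [← r6_mem4]
  refine Submodule.span_mono ?_ h
  rintro y (rfl | rfl | rfl | rfl)
  · exact ⟨0, rfl⟩
  · exact ⟨1, rfl⟩
  · exact ⟨2, rfl⟩
  · exact ⟨3, rfl⟩

omit [FiniteDimensional ℚ V] in
theorem r6_set3 {a b c x : V} (h : x ∈ Submodule.span ℚ {a, b, c}) :
    ∃ t1 t2 t3 : ℚ, x = t1 • a + t2 • b + t3 • c := by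
  rw [← r6_mem3]
  refine Submodule.span_mono ?_ h
  rintro y (rfl | rfl | rfl)
  · exact ⟨0, rfl⟩
  · exact ⟨1, rfl⟩
  · exact ⟨2, rfl⟩

omit [FiniteDimensional ℚ V] in
theorem r6_pr3 {B : LinearMap.BilinForm ℚ V} {a b c : V} (x : V) :
    ∃ t1 t2 t3 : ℚ, pr B ![a, b, c] x = x - (t1 • a + t2 • b + t3 • c) := by
  refine ⟨B x a / B a a, B x b / B b b, B x c / B c c, ?_⟩
  unfold pr
  simp [Fin.sum_univ_three]

omit [FiniteDimensional ℚ V] in
/-- equal projections up to a factor -/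
theorem r6_line {B : LinearMap.BilinForm ℚ V} {a b c p q : V} {t : ℚ}
    (h : pr B ![a, b, c] p = t • pr B ![a, b, c] q) :
    ∃ t1 t2 t3 t4 : ℚ, p = t1 • a + t2 • b + t3 • c + t4 • q := by
  obtain ⟨x1, x2, x3, hx⟩ := r6_pr3 (B := B) (a := a) (b := b) (c := c) p
  obtain ⟨y1, y2, y3, hy⟩ := r6_pr3 (B := B) (a := a) (b := b) (c := c) q
  rw [hx, hy] at h
  refine ⟨x1 - t * y1, x2 - t * y2, x3 - t * y3, t, ?_⟩
  have h1 : p = (x1 • a + x2 • b + x3 • c) + t • (q - (y1 • a + y2 • b + y3 • c)) := by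
    rw [← h]
    abel
  rw [h1]
  module

theorem r6_exists {B : LinearMap.BilinForm ℚ V} {K : AddSubgroup V} (hK : K5 B K)
    (hR : RSpan B K) {m : ℕ} (hm : m < 5) (w : Fin m → V) :
    ∃ p, Rt B K p ∧ p ∉ Submodule.span ℚ (Set.range w) := by
  by_contra h
  push Not at h
  exact not_rspan hK hR hm w h

omit [FiniteDimensional ℚ V] in
/-- the goal for a root of type `{1}` -/
theorem r6_single {B : LinearMap.BilinForm ℚ V} {K : AddSubgroup V}
    (H : ∀ {s1 s2 s3 q : V}, Rt B K s1 → Rt B K s2 → Rt B K s3 → B s1 s2 = 0 → B s1 s3 = 0 →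
      B s2 s3 = 0 → Rt B K q → B q q = B s1 s1 → 2 * B q s1 = B s1 s1 → B q s2 = 0 →
      B q s3 = 0 → (∃ t, Alpha B K s1 q s2 t s3) ∨ (∃ t, Alpha B K s1 q s3 t s2) ∨
      (∃ t s2', (s2' = s2 ∨ s2' = -s2) ∧ Beta B K s1 q t s2' s3) ∨
      (∃ t s3', (s3' = s3 ∨ s3' = -s3) ∧ Beta B K s1 q t s3' s2))
    {a b c x : V} (h1 : Rt B K a) (h2 : Rt B K b)
    (h3 : Rt B K c) (z12 : B a b = 0) (z13 : B a c = 0) (z23 : B b c = 0)
    (hx : Rt B K x) (xx : B x x = B a a) (x1 : 2 * B x a = B x x ∨ 2 * B x a = -B x x)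
    (x2 : B x b = 0) (x3 : B x c = 0) :
    ∃ t1 t2 t3, ({t1, t2, t3} : Set V) = {a, b, c} ∧
    ((∃ r q, Alpha B K t1 r t2 q t3) ∨
    (∃ r q t2', (t2' = t2 ∨ t2' = -t2) ∧ Beta B K t1 r q t2' t3) ∨
    (∃ r q t3', Gamma B K t1 r t2 q t3')) := by
  obtain ⟨q, hq, qq, q1, q2, q3⟩ : ∃ q, Rt B K q ∧ B q q = B a a ∧ 2 * B q a = B a a ∧
      B q b = 0 ∧ B q c = 0 := by
    rcases x1 with h | h
    · exact ⟨x, hx, xx, by rw [h, xx], x2, x3⟩
    · refine ⟨-x, rt_neg hx, ?_, ?_, ?_, ?_⟩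
      · simp [xx]
      · rw [map_neg, LinearMap.neg_apply, ← xx]
        linarith
      · simp [x2]
      · simp [x3]
  have hset : ({a, c, b} : Set V) = {a, b, c} := by
    rw [Set.pair_comm c b]
  rcases H h1 h2 h3 z12 z13 z23 hq qq q1 q2 q3 with ⟨t, h⟩ | ⟨t, h⟩ | ⟨t, s, hs, h⟩ | ⟨t, s, hs, h⟩
  · exact ⟨a, b, c, rfl, Or.inl ⟨q, t, h⟩⟩
  · exact ⟨a, c, b, hset, Or.inl ⟨q, t, h⟩⟩
  · exact ⟨a, b, c, rfl, Or.inr (Or.inl ⟨q, t, s, hs, h⟩)⟩
  · exact ⟨a, c, b, hset, Or.inr (Or.inl ⟨q, t, s, hs, h⟩)⟩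

/-- the goal for roots of the types `{1,2}` and `{2,3}` -/
theorem r6_double {B : LinearMap.BilinForm ℚ V} {K : AddSubgroup V} (hK : K5 B K)
    (hF : ¬ Framed B K)
    {a b c p p' : V} (h1 : Rt B K a) (h2 : Rt B K b)
    (h3 : Rt B K c) (z12 : B a b = 0) (z13 : B a c = 0) (z23 : B b c = 0)
    (hp : Rt B K p) (hp' : Rt B K p')
    (hpo : p ∉ Submodule.span ℚ {a, b, c}) (hpo' : p' ∉ Submodule.span ℚ {a, b, c})
    (p1 : B p a ≠ 0) (p2 : B p b ≠ 0) (p3 : B p c = 0)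
    (q1 : B p' a = 0) (q2 : B p' b ≠ 0) (q3 : B p' c ≠ 0) :
    ∃ t1 t2 t3, ({t1, t2, t3} : Set V) = {a, b, c} ∧
    ((∃ r q, Alpha B K t1 r t2 q t3) ∨
    (∃ r q t2', (t2' = t2 ∨ t2' = -t2) ∧ Beta B K t1 r q t2' t3) ∨
    (∃ r q t3', Gamma B K t1 r t2 q t3')) := by
  have hS := maxO_triple hK hF h1 h2 h3 z12 z13 z23
  obtain ⟨r, q, s, h⟩ := pair22 hK hS hp hpo hpo' p1 p2 p3 hp' q1 q2 q3
  exact ⟨a, b, c, rfl, Or.inr (Or.inr ⟨r, q, s, h⟩)⟩

/-- Row [RH-R6]: three orthogonal roots and a root `q` of type `{1}`.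

Proof.  `![s1,s2,s3]` is maximal (`maxO_triple`).  `q` is not in the span of the `s_i` (it would be
`s1/2`, by its products with the `s_i`, but `(q,q) = (s1,s1)`).  By `not_rspan` there is a root `p`
not in the span of `s1, s2, s3, q`.  Its type (`out_root`): `{1}` is impossible by `line1`
(`pr p = c pr q`); `{2}`, `{3}`: `pair11` (for `{3}` with the order `![s1,s3,s2]`); `{1,2}`, `{1,3}`:
`pair12`; `{2,3}`: `pair123`. -/
theorem root_thm' {B : LinearMap.BilinForm ℚ V} {K : AddSubgroup V} (hK : K5 B K)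
    (hR : RSpan B K) (hF : ¬ Framed B K) {s1 s2 s3 q : V} (h1 : Rt B K s1) (h2 : Rt B K s2)
    (h3 : Rt B K s3) (z12 : B s1 s2 = 0) (z13 : B s1 s3 = 0) (z23 : B s2 s3 = 0)
    (hq : Rt B K q) (qq : B q q = B s1 s1) (q1 : 2 * B q s1 = B s1 s1) (q2 : B q s2 = 0)
    (q3 : B q s3 = 0) :
    (∃ t, Alpha B K s1 q s2 t s3) ∨ (∃ t, Alpha B K s1 q s3 t s2) ∨
    (∃ t s2', (s2' = s2 ∨ s2' = -s2) ∧ Beta B K s1 q t s2' s3) ∨
    (∃ t s3', (s3' = s3 ∨ s3' = -s3) ∧ Beta B K s1 q t s3' s2) := by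
  have hs := hK.symm
  have hp := hK.pos
  have z32 : B s3 s2 = 0 := by rw [hs]; exact z23
  have hS := maxO_triple hK hF h1 h2 h3 z12 z13 z23
  have hS' := maxO_triple hK hF h1 h3 h2 z13 z12 z32
  have n1 := hp s1 h1.2.1
  have n2 := hp s2 h2.2.1
  have n3 := hp s3 h3.2.1
  have z21 : B s2 s1 = 0 := by rw [hs]; exact z12
  have z31 : B s3 s1 = 0 := by rw [hs]; exact z13
  have hqo : q ∉ Submodule.span ℚ (Set.range ![s1, s2, s3]) := by
    rw [r6_mem3]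
    rintro ⟨t1, t2, t3, h⟩
    have e1 : B q s1 = t1 * B s1 s1 := by
      rw [h]; simp [z21, z31]
    have e2 : B q s2 = t2 * B s2 s2 := by
      rw [h]; simp [z12, z32]
    have e3 : B q s3 = t3 * B s3 s3 := by
      rw [h]; simp [z13, z23]
    have e4 : B q q = t1 * B q s1 + t2 * B q s2 + t3 * B q s3 := by
      conv_lhs => rw [h]
      simp only [map_add, map_smul, LinearMap.add_apply, LinearMap.smul_apply, smul_eq_mul]
      rw [e1, e2, e3, z21, z31, z12, z32, z13, z23]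
      ring
    have t1' : t1 = 1 / 2 := by
      have : (2 * t1 - 1) * B s1 s1 = 0 := by rw [← q1, e1]; rw [e1] at q1; nlinarith
      rcases mul_eq_zero.1 this with h' | h'
      · linarith
      · exact absurd h' n1.ne'
    rw [q2, q3, qq, t1'] at e4
    nlinarith
  obtain ⟨p, hpr, hpo⟩ := r6_exists hK hR (m := 4) (by norm_num) ![s1, s2, s3, q]
  rw [r6_mem4] at hpo
  have hi : p ∉ Submodule.span ℚ {s1, s2, s3, q} := fun h => hpo (r6_set4 h)
  have hi' : p ∉ Submodule.span ℚ {s1, s3, s2, q} := by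
    intro h
    obtain ⟨t1, t2, t3, t4, e⟩ := r6_set4 h
    exact hpo ⟨t1, t3, t2, t4, by rw [e]; abel⟩
  have hpo3 : p ∉ Submodule.span ℚ (Set.range ![s1, s2, s3]) := by
    rw [r6_mem3]
    rintro ⟨t1, t2, t3, e⟩
    exact hpo ⟨t1, t2, t3, 0, by rw [e, zero_smul, add_zero]⟩
  have hq1 : B q s1 ≠ 0 := by
    intro h
    rw [h, mul_zero] at q1
    exact n1.ne q1
  obtain ⟨-, htyp⟩ := out_root hs hp hS hpr hpo3
  rcases htyp with ⟨i, hi1⟩ | ⟨i, i', hii, hi1⟩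
  · have e0 := hi1 0
    have e1 := hi1 1
    have e2 := hi1 2
    simp only [Matrix.cons_val_zero, Matrix.cons_val_one, Matrix.cons_val] at e0 e1 e2
    fin_cases i
    · exfalso
      obtain ⟨t, ht⟩ := line1 hs hp hS hq hqo hpr hpo3 (i := 0) (by
        intro j
        fin_cases j
        · simpa using hq1
        · simpa using q2
        · simpa using q3) hi1
      exact hpo (r6_line ht)
    · have f0 : B p s1 = 0 := by simpa using e0
      have f1 : B p s2 ≠ 0 := by simpa using e1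
      have f2 : B p s3 = 0 := by simpa using e2
      rcases pair11 hK hS hq qq q1 q2 q3 hpr f0 f1 f2 hi with h | h
      · exact Or.inl h
      · exact Or.inr (Or.inr (Or.inl h))
    · have f0 : B p s1 = 0 := by simpa using e0
      have f1 : B p s2 = 0 := by simpa using e1
      have f2 : B p s3 ≠ 0 := by simpa using e2
      rcases pair11 hK hS' hq qq q1 q3 q2 hpr f0 f2 f1 hi' with h | h
      · exact Or.inr (Or.inl h)
      · exact Or.inr (Or.inr (Or.inr h))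
  · have e0 := hi1 0
    have e1 := hi1 1
    have e2 := hi1 2
    simp only [Matrix.cons_val_zero, Matrix.cons_val_one, Matrix.cons_val] at e0 e1 e2
    have key : (B p s1 ≠ 0 ∧ B p s2 ≠ 0 ∧ B p s3 = 0) ∨ (B p s1 ≠ 0 ∧ B p s2 = 0 ∧ B p s3 ≠ 0) ∨
        (B p s1 = 0 ∧ B p s2 ≠ 0 ∧ B p s3 ≠ 0) := by
      fin_cases i <;> fin_cases i' <;> simp at hii e0 e1 e2 <;> simp [e0, e1, e2]
    rcases key with ⟨f0, f1, f2⟩ | ⟨f0, f1, f2⟩ | ⟨f0, f1, f2⟩
    · rcases pair12 hK hS hq qq q1 q2 q3 hpr f0 f1 f2 hi with h | h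
      · exact Or.inl h
      · exact Or.inr (Or.inr (Or.inl h))
    · rcases pair12 hK hS' hq qq q1 q3 q2 hpr f0 f2 f1 hi' with h | h
      · exact Or.inr (Or.inl h)
      · exact Or.inr (Or.inr (Or.inr h))
    · exact (pair123 hK hS hq qq q1 q2 q3 hpr f0 f1 f2 hi).elim

/-- Row [RH-R6]: three orthogonal roots and no further information.

Proof.  `![s1,s2,s3]` is maximal.  `not_rspan` gives a root `p` outside the span of the `s_i`, and a
root `p'` outside the span of `s_i, p`.  If one of them is of type `{i}`: `root_thm'` for a suitable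
order of the triple (replace the root by its negative to have a positive product; `out_root` gives
the norm).  Otherwise both are of types with two elements, which are different by `line2`, so they
have exactly one element in common: `pair22` for a suitable order. -/
theorem root_thm3 {B : LinearMap.BilinForm ℚ V} {K : AddSubgroup V} (hK : K5 B K)
    (hR : RSpan B K) (hF : ¬ Framed B K) {s1 s2 s3 : V} (h1 : Rt B K s1) (h2 : Rt B K s2)
    (h3 : Rt B K s3) (z12 : B s1 s2 = 0) (z13 : B s1 s3 = 0) (z23 : B s2 s3 = 0) :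
    ∃ t1 t2 t3, ({t1, t2, t3} : Set V) = {s1, s2, s3} ∧
    ((∃ r q, Alpha B K t1 r t2 q t3) ∨
    (∃ r q t2', (t2' = t2 ∨ t2' = -t2) ∧ Beta B K t1 r q t2' t3) ∨
    (∃ r q t3', Gamma B K t1 r t2 q t3')) := by
  have hs := hK.symm
  have hp := hK.pos
  have z32 : B s3 s2 = 0 := by rw [hs]; exact z23
  have z21 : B s2 s1 = 0 := by rw [hs]; exact z12
  have z31 : B s3 s1 = 0 := by rw [hs]; exact z13
  have hS := maxO_triple hK hF h1 h2 h3 z12 z13 z23
  have w1 : ({s2, s1, s3} : Set V) = {s1, s2, s3} := Set.insert_comm _ _ _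
  have w2 : ({s1, s3, s2} : Set V) = {s1, s2, s3} := by rw [Set.pair_comm s3 s2]
  have w3 : ({s2, s3, s1} : Set V) = {s1, s2, s3} := by
    rw [Set.pair_comm s3 s1, Set.insert_comm]
  have w4 : ({s3, s1, s2} : Set V) = {s1, s2, s3} := by
    rw [Set.insert_comm, Set.pair_comm s3 s2]
  have w5 : ({s3, s2, s1} : Set V) = {s1, s2, s3} := by
    rw [Set.pair_comm s2 s1, Set.insert_comm, Set.pair_comm s3 s2]
  have single : ∀ x, Rt B K x → x ∉ Submodule.span ℚ (Set.range ![s1, s2, s3]) →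
      (∃ i, ∀ j, B x (![s1, s2, s3] j) ≠ 0 ↔ j = i) →
      ∃ t1 t2 t3, ({t1, t2, t3} : Set V) = {s1, s2, s3} ∧
      ((∃ r q, Alpha B K t1 r t2 q t3) ∨
      (∃ r q t2', (t2' = t2 ∨ t2' = -t2) ∧ Beta B K t1 r q t2' t3) ∨
      (∃ r q t3', Gamma B K t1 r t2 q t3')) := by
    intro x hx hxo ⟨i, hi⟩
    obtain ⟨hn, -⟩ := out_root hs hp hS hx hxo
    have e0 := hi 0
    have e1 := hi 1
    have e2 := hi 2
    have m0 := hn 0
    have m1 := hn 1
    have m2 := hn 2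
    simp only [Matrix.cons_val_zero, Matrix.cons_val_one, Matrix.cons_val] at e0 e1 e2 m0 m1 m2
    fin_cases i
    · have f0 : B x s1 ≠ 0 := by simpa using e0
      have f1 : B x s2 = 0 := by simpa using e1
      have f2 : B x s3 = 0 := by simpa using e2
      have m := m0.resolve_left f0
      exact r6_single (root_thm' hK hR hF) h1 h2 h3 z12 z13 z23 hx m.1 m.2 f1 f2
    · have f0 : B x s1 = 0 := by simpa using e0
      have f1 : B x s2 ≠ 0 := by simpa using e1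
      have f2 : B x s3 = 0 := by simpa using e2
      have m := m1.resolve_left f1
      have h := r6_single (root_thm' hK hR hF) h2 h1 h3 z21 z23 z13 hx m.1 m.2 f0 f2
      rw [w1] at h
      exact h
    · have f0 : B x s1 = 0 := by simpa using e0
      have f1 : B x s2 = 0 := by simpa using e1
      have f2 : B x s3 ≠ 0 := by simpa using e2
      have m := m2.resolve_left f2
      have h := r6_single (root_thm' hK hR hF) h3 h1 h2 z31 z32 z12 hx m.1 m.2 f0 f1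
      rw [w4] at h
      exact h
  obtain ⟨p, hpr, hpo⟩ := r6_exists hK hR (m := 3) (by norm_num) ![s1, s2, s3]
  obtain ⟨p', hpr', hpo4⟩ := r6_exists hK hR (m := 4) (by norm_num) ![s1, s2, s3, p]
  rw [r6_mem4] at hpo4
  have hpo' : p' ∉ Submodule.span ℚ (Set.range ![s1, s2, s3]) := by
    rw [r6_mem3]
    rintro ⟨t1, t2, t3, e⟩
    exact hpo4 ⟨t1, t2, t3, 0, by rw [e, zero_smul, add_zero]⟩
  obtain ⟨-, ht⟩ := out_root hs hp hS hpr hpo
  obtain ⟨-, ht'⟩ := out_root hs hp hS hpr' hpo'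
  rcases ht with ht | ⟨i, i', hii, hi⟩
  · exact single p hpr hpo ht
  rcases ht' with ht' | ⟨j, j', hjj, hj⟩
  · exact single p' hpr' hpo' ht'
  have e0 := hi 0
  have e1 := hi 1
  have e2 := hi 2
  have g0 := hj 0
  have g1 := hj 1
  have g2 := hj 2
  simp only [Matrix.cons_val_zero, Matrix.cons_val_one, Matrix.cons_val] at e0 e1 e2 g0 g1 g2
  have key : (B p s1 ≠ 0 ∧ B p s2 ≠ 0 ∧ B p s3 = 0) ∨ (B p s1 ≠ 0 ∧ B p s2 = 0 ∧ B p s3 ≠ 0) ∨
      (B p s1 = 0 ∧ B p s2 ≠ 0 ∧ B p s3 ≠ 0) := by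
    fin_cases i <;> fin_cases i' <;> simp at hii e0 e1 e2 <;> simp [e0, e1, e2]
  have key' : (B p' s1 ≠ 0 ∧ B p' s2 ≠ 0 ∧ B p' s3 = 0) ∨
      (B p' s1 ≠ 0 ∧ B p' s2 = 0 ∧ B p' s3 ≠ 0) ∨
      (B p' s1 = 0 ∧ B p' s2 ≠ 0 ∧ B p' s3 ≠ 0) := by
    fin_cases j <;> fin_cases j' <;> simp at hjj g0 g1 g2 <;> simp [g0, g1, g2]
  have same : ∀ {k k' : Fin 3}, k ≠ k' → (∀ l, B p (![s1, s2, s3] l) ≠ 0 ↔ l = k ∨ l = k') →
      (∀ l, B p' (![s1, s2, s3] l) ≠ 0 ↔ l = k ∨ l = k') → False := by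
    intro k k' hk a1 a2
    obtain ⟨t, ht⟩ := line2 hs hp hS hpr hpo hpr' hpo' hk a1 a2
    exact hpo4 (r6_line ht)
  have sp : ∀ {a b c x : V}, x ∉ Submodule.span ℚ (Set.range ![s1, s2, s3]) →
      ({a, b, c} : Set V) = {s1, s2, s3} → x ∉ Submodule.span ℚ {a, b, c} := by
    intro a b c x hx hset h
    rw [hset] at h
    exact hx (r6_mem3.2 (r6_set3 h))
  rcases key with ⟨f0, f1, f2⟩ | ⟨f0, f1, f2⟩ | ⟨f0, f1, f2⟩ <;>
    rcases key' with ⟨k0, k1, k2⟩ | ⟨k0, k1, k2⟩ | ⟨k0, k1, k2⟩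
  · exfalso
    refine same (k := 0) (k' := 1) (by decide) ?_ ?_
    · intro l; fin_cases l <;> simp [f0, f1, f2]
    · intro l; fin_cases l <;> simp [k0, k1, k2]
  · -- p: {1,2}, p': {1,3}: order 2 1 3
    have h := r6_double hK hF h2 h1 h3 z21 z23 z13 hpr hpr' (sp hpo w1) (sp hpo' w1) f1 f0 f2
      k1 k0 k2
    rw [w1] at h
    exact h
  · -- p: {1,2}, p': {2,3}: order 1 2 3
    exact r6_double hK hF h1 h2 h3 z12 z13 z23 hpr hpr' (sp hpo rfl) (sp hpo' rfl) f0 f1 f2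
      k0 k1 k2
  · -- p: {1,3}, p': {1,2}: order 3 1 2
    have h := r6_double hK hF h3 h1 h2 z31 z32 z12 hpr hpr' (sp hpo w4) (sp hpo' w4) f2 f0 f1
      k2 k0 k1
    rw [w4] at h
    exact h
  · exfalso
    refine same (k := 0) (k' := 2) (by decide) ?_ ?_
    · intro l; fin_cases l <;> simp [f0, f1, f2]
    · intro l; fin_cases l <;> simp [k0, k1, k2]
  · -- p: {1,3}, p': {2,3}: order 1 3 2
    have h := r6_double hK hF h1 h3 h2 z13 z12 z32 hpr hpr' (sp hpo w2) (sp hpo' w2) f0 f2 f1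
      k0 k2 k1
    rw [w2] at h
    exact h
  · -- p: {2,3}, p': {1,2}: order 3 2 1
    have h := r6_double hK hF h3 h2 h1 z32 z31 z21 hpr hpr' (sp hpo w5) (sp hpo' w5) f2 f1 f0
      k2 k1 k0
    rw [w5] at h
    exact h
  · -- p: {2,3}, p': {1,3}: order 2 3 1
    have h := r6_double hK hF h2 h3 h1 z23 z21 z31 hpr hpr' (sp hpo w3) (sp hpo' w3) f1 f2 f0
      k1 k2 k0
    rw [w3] at h
    exact h
  · exfalso
    refine same (k := 1) (k' := 2) (by decide) ?_ ?_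
    · intro l; fin_cases l <;> simp [f0, f1, f2]
    · intro l; fin_cases l <;> simp [k0, k1, k2]

/-- Row [RH-R6]: the root theorem (`exists_root`, `ext1`, `ext2`, `root_thm3`) -/
theorem root_thm {B : LinearMap.BilinForm ℚ V} {K : AddSubgroup V} (hK : K5 B K)
    (hR : RSpan B K) (hF : ¬ Framed B K) :
    (∃ s1 r s2 q s3, Alpha B K s1 r s2 q s3) ∨ (∃ s1 r q s2 s3, Beta B K s1 r q s2 s3) ∨
    (∃ s1 r s2 q s3, Gamma B K s1 r s2 q s3) := by
  obtain ⟨s1, h1⟩ := exists_root hK hR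
  obtain ⟨s2, h2, z12⟩ := ext1 hK hR h1
  obtain ⟨s3, h3, z13, z23⟩ := ext2 hK hR h1 h2 z12
  obtain ⟨t1, t2, t3, -, h⟩ := root_thm3 hK hR hF h1 h2 h3 z12 z13 z23
  rcases h with ⟨r, q, h⟩ | ⟨r, q, t, -, h⟩ | ⟨r, q, t, h⟩
  · exact Or.inl ⟨_, _, _, _, _, h⟩
  · exact Or.inr (Or.inl ⟨_, _, _, _, _, h⟩)
  · exact Or.inr (Or.inr ⟨_, _, _, _, _, h⟩)

end RH6
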