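import Pool.Agent.RH6.RDef
import Pool.Agent.RH6.B1b

namespace RH6

variable {V : Type*} [AddCommGroup V] [Module ℚ V] [FiniteDimensional ℚ V]

/-! Row [RH-R7]: coordinates of the vectors of `K` with respect to the roots. -/

omit [FiniteDimensional ℚ V] in
theorem r7_pos {B : LinearMap.BilinForm ℚ V} {K : AddSubgroup V} (hK : K5 B K) {r : V}
    (h : Rt B K r) : 0 < B r r := hK.pos r h.2.1

theorem r7_zero {B : LinearMap.BilinForm ℚ V} {K : AddSubgroup V} (hK : K5 B K) (u : Fin 5 → V)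
    (hu : LinearIndependent ℚ u) {w : V} (h : ∀ i, B w (u i) = 0) : w = 0 := by
  have htop : Submodule.span ℚ (Set.range u) = ⊤ :=
    hu.span_eq_top_of_card_eq_finrank (by rw [hK.dim]; rfl)
  have h1 : ∀ v ∈ Submodule.span ℚ (Set.range u), B w v = 0 := by
    intro v hv
    induction hv using Submodule.span_induction with
    | mem x hx =>
      obtain ⟨i, rfl⟩ := hx
      exact h i
    | zero => simp
    | add x y _ _ hx hy => rw [map_add, hx, hy, add_zero]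
    | smul t x _ hx => rw [map_smul, hx, smul_zero]
  have h2 : B w w = 0 := h1 w (by rw [htop]; trivial)
  by_contra hne
  have := hK.pos w hne
  rw [h2] at this
  exact lt_irrefl _ this

/-- five vectors with a form that separates the coordinates -/
theorem r7_indep {u1 u2 u3 u4 u5 : V}
    (h : ∀ a b c d e : ℚ, a • u1 + b • u2 + c • u3 + d • u4 + e • u5 = 0 →
      a = 0 ∧ b = 0 ∧ c = 0 ∧ d = 0 ∧ e = 0) : LinearIndependent ℚ ![u1, u2, u3, u4, u5] := by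
  rw [Fintype.linearIndependent_iff]
  intro g hg
  simp only [Fin.sum_univ_five, Matrix.cons_val_zero, Matrix.cons_val_one, Matrix.cons_val] at hg
  obtain ⟨h0, h1, h2, h3, h4⟩ := h _ _ _ _ _ hg
  intro i
  fin_cases i
  · exact h0
  · exact h1
  · exact h2
  · exact h3
  · exact h4

theorem r7_test {B : LinearMap.BilinForm ℚ V} {K : AddSubgroup V} (hK : K5 B K)
    {u1 u2 u3 u4 u5 w : V}
    (h : ∀ a b c d e : ℚ, a • u1 + b • u2 + c • u3 + d • u4 + e • u5 = 0 →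
      a = 0 ∧ b = 0 ∧ c = 0 ∧ d = 0 ∧ e = 0)
    (h1 : B w u1 = 0) (h2 : B w u2 = 0) (h3 : B w u3 = 0) (h4 : B w u4 = 0) (h5 : B w u5 = 0) :
    w = 0 := by
  refine r7_zero hK _ (r7_indep h) ?_
  intro i
  fin_cases i
  · exact h1
  · exact h2
  · exact h3
  · exact h4
  · exact h5

/-- products of a combination -/
theorem r7_prod {B : LinearMap.BilinForm ℚ V} (u1 u2 u3 u4 u5 v : V) (a b c d e : ℚ) :
    B (a • u1 + b • u2 + c • u3 + d • u4 + e • u5) v =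
      a * B u1 v + b * B u2 v + c * B u3 v + d * B u4 v + e * B u5 v := by
  simp only [map_add, LinearMap.add_apply, map_smul, LinearMap.smul_apply, smul_eq_mul]

theorem r7_mem {K : AddSubgroup V} {u : V} (z : ℤ) (hu : u ∈ K) : (z : ℚ) • u ∈ K := by
  rw [Int.cast_smul_eq_zsmul]
  exact K.zsmul_mem hu z

/-- Row [RH-R7]: `Alpha`: the five roots are a basis of `V`.  For `x ∈ K` let
`β = 2(x,s1)/(s1,s1)`, `α = 2(x,r)/(r,r)`, `β' = 2(x,s2)/(s2,s2)`, `α' = 2(x,q)/(q,q) ∈ ℤ`,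
`e = (x,s3)/(s3,s3)`.  Then
`3x = (2β-α) s1 + (2α-β) r + (2β'-α') s2 + (2α'-β') q + 3e s3` (same products with the five
roots).  So `3e s3 ∈ K`, `3e ∈ ℤ` by primitivity of `s3`, and `2e ∈ ℤ`; so `e ∈ ℤ`. -/
theorem alpha_coord {B : LinearMap.BilinForm ℚ V} {K : AddSubgroup V} (hK : K5 B K)
    {s1 r s2 q s3 : V} (h : Alpha B K s1 r s2 q s3) {x : V} (hx : x ∈ K) :
    ∃ a b c d e : ℤ, (3 : ℚ) • x = (a : ℚ) • s1 + (b : ℚ) • r + (c : ℚ) • s2 + (d : ℚ) • q +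
      (3 * e : ℚ) • s3 ∧ B x s3 = e * B s3 s3 ∧
      2 * B x s1 = (2 * a + b) / 3 * B s1 s1 ∧ 2 * B x r = (a + 2 * b) / 3 * B s1 s1 ∧
      2 * B x s2 = (2 * c + d) / 3 * B s2 s2 ∧ 2 * B x q = (c + 2 * d) / 3 * B s2 s2 := by
  have hn : B s1 s1 ≠ 0 := (r7_pos hK h.h1).ne'
  have hm : B s2 s2 ≠ 0 := (r7_pos hK h.h2).ne'
  have hl : B s3 s3 ≠ 0 := (r7_pos hK h.h3).ne'
  obtain ⟨β, hβ⟩ := h.h1.2.2.1 x hx
  obtain ⟨α, hα⟩ := h.hr.2.2.1 x hx
  obtain ⟨β', hβ'⟩ := h.h2.2.2.1 x hx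
  obtain ⟨α', hα'⟩ := h.hq.2.2.1 x hx
  obtain ⟨k, hk⟩ := h.h3.2.2.1 x hx
  rw [h.rr] at hα
  rw [h.qq] at hα'
  have srs : 2 * B s1 r = B s1 s1 := by rw [hK.symm]; exact h.rs
  have sqs : 2 * B s2 q = B s2 s2 := by rw [hK.symm]; exact h.qs
  have z21 : B s2 s1 = 0 := by rw [hK.symm]; exact h.z12
  have z31 : B s3 s1 = 0 := by rw [hK.symm]; exact h.z13
  have z32 : B s3 s2 = 0 := by rw [hK.symm]; exact h.z23
  have z2r : B s2 r = 0 := by rw [hK.symm]; exact h.zr2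
  have z3r : B s3 r = 0 := by rw [hK.symm]; exact h.zr3
  have z1q : B s1 q = 0 := by rw [hK.symm]; exact h.zq1
  have z3q : B s3 q = 0 := by rw [hK.symm]; exact h.zq3
  have zqr : B q r = 0 := by rw [hK.symm]; exact h.zrq
  have hind : ∀ a b c d e : ℚ, a • s1 + b • r + c • s2 + d • q + e • s3 = 0 →
      a = 0 ∧ b = 0 ∧ c = 0 ∧ d = 0 ∧ e = 0 := by
    intro a b c d e h0
    have e1 := congrArg (fun w => B w s1) h0
    have e2 := congrArg (fun w => B w r) h0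
    have e3 := congrArg (fun w => B w s2) h0
    have e4 := congrArg (fun w => B w q) h0
    have e5 := congrArg (fun w => B w s3) h0
    simp only [r7_prod, map_zero, LinearMap.zero_apply, z21, z31, z32, z2r, z3r, z1q, z3q, zqr,
      h.z12, h.z13, h.z23, h.zr2, h.zr3, h.zq1, h.zq3, h.zrq, h.rr, h.qq] at e1 e2 e3 e4 e5
    have f1 : a + b / 2 = 0 := by
      apply mul_right_cancel₀ hn
      linear_combination e1 - b / 2 * h.rs
    have f2 : a / 2 + b = 0 := by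
      apply mul_right_cancel₀ hn
      linear_combination e2 - a / 2 * srs
    have f3 : c + d / 2 = 0 := by
      apply mul_right_cancel₀ hm
      linear_combination e3 - d / 2 * h.qs
    have f4 : c / 2 + d = 0 := by
      apply mul_right_cancel₀ hm
      linear_combination e4 - c / 2 * sqs
    have f5 : e = 0 := by
      apply mul_right_cancel₀ hl
      linear_combination e5
    exact ⟨by linarith, by linarith, by linarith, by linarith, f5⟩
  have key : (3 : ℚ) • x - ((2 * β - α : ℚ) • s1 + (2 * α - β : ℚ) • r + (2 * β' - α' : ℚ) • s2 +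
      (2 * α' - β' : ℚ) • q + (3 * k / 2 : ℚ) • s3) = 0 := by
    apply r7_test hK hind
    · rw [map_sub, LinearMap.sub_apply, r7_prod, map_smul, LinearMap.smul_apply, smul_eq_mul, z21,
        z31, h.zq1]
      linear_combination 3 / 2 * hβ - (2 * α - β) / 2 * h.rs
    · rw [map_sub, LinearMap.sub_apply, r7_prod, map_smul, LinearMap.smul_apply, smul_eq_mul, z2r,
        z3r, zqr, h.rr]
      linear_combination 3 / 2 * hα - (2 * β - α) / 2 * srs
    · rw [map_sub, LinearMap.sub_apply, r7_prod, map_smul, LinearMap.smul_apply, smul_eq_mul,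
        h.z12, h.zr2, z32]
      linear_combination 3 / 2 * hβ' - (2 * α' - β') / 2 * h.qs
    · rw [map_sub, LinearMap.sub_apply, r7_prod, map_smul, LinearMap.smul_apply, smul_eq_mul, z1q,
        h.zrq, z3q, h.qq]
      linear_combination 3 / 2 * hα' - (2 * β' - α') / 2 * sqs
    · rw [map_sub, LinearMap.sub_apply, r7_prod, map_smul, LinearMap.smul_apply, smul_eq_mul,
        h.z13, h.zr3, h.z23, h.zq3]
      linear_combination 3 / 2 * hk
  have key2 := sub_eq_zero.1 key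
  have hmem : (3 * k / 2 : ℚ) • s3 ∈ K := by
    have e1 : (3 * k / 2 : ℚ) • s3 = ((3 : ℤ) : ℚ) • x - (((2 * β - α : ℤ) : ℚ) • s1 +
        ((2 * α - β : ℤ) : ℚ) • r + ((2 * β' - α' : ℤ) : ℚ) • s2 + ((2 * α' - β' : ℤ) : ℚ) • q) := by
      push_cast
      rw [key2]
      abel
    rw [e1]
    exact K.sub_mem (r7_mem _ hx) (K.add_mem (K.add_mem (K.add_mem (r7_mem _ h.h1.1)
      (r7_mem _ h.hr.1)) (r7_mem _ h.h2.1)) (r7_mem _ h.hq.1))
  obtain ⟨z, hz⟩ := h.h3.2.2.2 _ hmem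
  have hz' : 3 * k = 2 * z := by
    have : (3 * k : ℚ) = 2 * z := by linarith
    exact_mod_cast this
  obtain ⟨e, rfl⟩ : ∃ e : ℤ, k = 2 * e := ⟨k / 2, by omega⟩
  refine ⟨2 * β - α, 2 * α - β, 2 * β' - α', 2 * α' - β', e, ?_, ?_, ?_, ?_, ?_, ?_⟩
  · rw [key2]
    push_cast
    congr 2
    ring
  · push_cast at hk
    linarith
  · push_cast
    rw [hβ]
    ring
  · push_cast
    rw [hα]
    ring
  · push_cast
    rw [hβ']
    ring
  · push_cast
    rw [hα']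
    ring

/-- Row [RH-R7]: `Beta`: with `c_i = 2(x,·)/n` for `s1, r, q, s2`:
`5x = (4c₁-3c₂+2c₃-c₄) s1 + (-3c₁+6c₂-4c₃+2c₄) r + (2c₁-4c₂+6c₃-3c₄) q + (-c₁+2c₂-3c₃+4c₄) s2
+ 5e s3`, `5e, 2e ∈ ℤ`, so `e ∈ ℤ`. -/
theorem beta_coord {B : LinearMap.BilinForm ℚ V} {K : AddSubgroup V} (hK : K5 B K)
    {s1 r q s2 s3 : V} (h : Beta B K s1 r q s2 s3) {x : V} (hx : x ∈ K) :
    ∃ c1 c2 c3 c4 e : ℤ, 2 * B x s1 = c1 * B s1 s1 ∧ 2 * B x r = c2 * B s1 s1 ∧
      2 * B x q = c3 * B s1 s1 ∧ 2 * B x s2 = c4 * B s1 s1 ∧ B x s3 = e * B s3 s3 ∧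
      (5 : ℚ) • x = (4 * c1 - 3 * c2 + 2 * c3 - c4 : ℚ) • s1 +
        (-3 * c1 + 6 * c2 - 4 * c3 + 2 * c4 : ℚ) • r +
        (2 * c1 - 4 * c2 + 6 * c3 - 3 * c4 : ℚ) • q +
        (-c1 + 2 * c2 - 3 * c3 + 4 * c4 : ℚ) • s2 + (5 * e : ℚ) • s3 := by
  have hn : B s1 s1 ≠ 0 := (r7_pos hK h.h1).ne'
  have hl : B s3 s3 ≠ 0 := (r7_pos hK h.h3).ne'
  obtain ⟨c1, h1⟩ := h.h1.2.2.1 x hx
  obtain ⟨c2, h2⟩ := h.hr.2.2.1 x hx
  obtain ⟨c3, h3⟩ := h.hq.2.2.1 x hx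
  obtain ⟨c4, h4⟩ := h.h2.2.2.1 x hx
  obtain ⟨k, hk⟩ := h.h3.2.2.1 x hx
  rw [h.rr] at h2
  rw [h.qq] at h3
  rw [h.ss] at h4
  have srs : 2 * B s1 r = B s1 s1 := by rw [hK.symm]; exact h.rs
  have srq : 2 * B q r = B s1 s1 := by rw [hK.symm]; exact h.rq
  have sqs : 2 * B s2 q = B s1 s1 := by rw [hK.symm]; exact h.qs
  have z21 : B s2 s1 = 0 := by rw [hK.symm]; exact h.z12
  have z31 : B s3 s1 = 0 := by rw [hK.symm]; exact h.z13
  have z32 : B s3 s2 = 0 := by rw [hK.symm]; exact h.z23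
  have z2r : B s2 r = 0 := by rw [hK.symm]; exact h.zr2
  have z3r : B s3 r = 0 := by rw [hK.symm]; exact h.zr3
  have z1q : B s1 q = 0 := by rw [hK.symm]; exact h.zq1
  have z3q : B s3 q = 0 := by rw [hK.symm]; exact h.zq3
  have hind : ∀ a b c d e : ℚ, a • s1 + b • r + c • q + d • s2 + e • s3 = 0 →
      a = 0 ∧ b = 0 ∧ c = 0 ∧ d = 0 ∧ e = 0 := by
    intro a b c d e h0
    have e1 := congrArg (fun w => B w s1) h0
    have e2 := congrArg (fun w => B w r) h0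
    have e3 := congrArg (fun w => B w q) h0
    have e4 := congrArg (fun w => B w s2) h0
    have e5 := congrArg (fun w => B w s3) h0
    simp only [r7_prod, map_zero, LinearMap.zero_apply, z21, z31, z32, z2r, z3r, z1q, z3q,
      h.z12, h.z13, h.z23, h.zr2, h.zr3, h.zq1, h.zq3, h.rr, h.qq, h.ss] at e1 e2 e3 e4 e5
    have f1 : a + b / 2 = 0 := by
      apply mul_right_cancel₀ hn
      linear_combination e1 - b / 2 * h.rs
    have f2 : a / 2 + b + c / 2 = 0 := by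
      apply mul_right_cancel₀ hn
      linear_combination e2 - a / 2 * srs - c / 2 * srq
    have f3 : b / 2 + c + d / 2 = 0 := by
      apply mul_right_cancel₀ hn
      linear_combination e3 - b / 2 * h.rq - d / 2 * sqs
    have f4 : c / 2 + d = 0 := by
      apply mul_right_cancel₀ hn
      linear_combination e4 - c / 2 * h.qs
    have f5 : e = 0 := by
      apply mul_right_cancel₀ hl
      linear_combination e5
    exact ⟨by linarith, by linarith, by linarith, by linarith, f5⟩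
  have key : (5 : ℚ) • x - ((4 * c1 - 3 * c2 + 2 * c3 - c4 : ℚ) • s1 +
        (-3 * c1 + 6 * c2 - 4 * c3 + 2 * c4 : ℚ) • r +
        (2 * c1 - 4 * c2 + 6 * c3 - 3 * c4 : ℚ) • q +
        (-c1 + 2 * c2 - 3 * c3 + 4 * c4 : ℚ) • s2 + (5 * k / 2 : ℚ) • s3) = 0 := by
    apply r7_test hK hind
    · rw [map_sub, LinearMap.sub_apply, r7_prod, map_smul, LinearMap.smul_apply, smul_eq_mul,
        z21, z31, h.zq1]
      linear_combination 5 / 2 * h1 - (-3 * c1 + 6 * c2 - 4 * c3 + 2 * c4) / 2 * h.rs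
    · rw [map_sub, LinearMap.sub_apply, r7_prod, map_smul, LinearMap.smul_apply, smul_eq_mul,
        z2r, z3r, h.rr]
      linear_combination 5 / 2 * h2 - (4 * c1 - 3 * c2 + 2 * c3 - c4) / 2 * srs -
        (2 * c1 - 4 * c2 + 6 * c3 - 3 * c4) / 2 * srq
    · rw [map_sub, LinearMap.sub_apply, r7_prod, map_smul, LinearMap.smul_apply, smul_eq_mul,
        z1q, z3q, h.qq]
      linear_combination 5 / 2 * h3 - (-3 * c1 + 6 * c2 - 4 * c3 + 2 * c4) / 2 * h.rq -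
        (-c1 + 2 * c2 - 3 * c3 + 4 * c4) / 2 * sqs
    · rw [map_sub, LinearMap.sub_apply, r7_prod, map_smul, LinearMap.smul_apply, smul_eq_mul,
        h.z12, h.zr2, z32, h.ss]
      linear_combination 5 / 2 * h4 - (2 * c1 - 4 * c2 + 6 * c3 - 3 * c4) / 2 * h.qs
    · rw [map_sub, LinearMap.sub_apply, r7_prod, map_smul, LinearMap.smul_apply, smul_eq_mul,
        h.z13, h.zr3, h.z23, h.zq3]
      linear_combination 5 / 2 * hk
  have key2 := sub_eq_zero.1 key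
  have hmem : (5 * k / 2 : ℚ) • s3 ∈ K := by
    have e1 : (5 * k / 2 : ℚ) • s3 = ((5 : ℤ) : ℚ) • x -
        (((4 * c1 - 3 * c2 + 2 * c3 - c4 : ℤ) : ℚ) • s1 +
        ((-3 * c1 + 6 * c2 - 4 * c3 + 2 * c4 : ℤ) : ℚ) • r +
        ((2 * c1 - 4 * c2 + 6 * c3 - 3 * c4 : ℤ) : ℚ) • q +
        ((-c1 + 2 * c2 - 3 * c3 + 4 * c4 : ℤ) : ℚ) • s2) := by
      push_cast
      rw [key2]
      abel
    rw [e1]
    exact K.sub_mem (r7_mem _ hx) (K.add_mem (K.add_mem (K.add_mem (r7_mem _ h.h1.1)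
      (r7_mem _ h.hr.1)) (r7_mem _ h.hq.1)) (r7_mem _ h.h2.1))
  obtain ⟨z, hz⟩ := h.h3.2.2.2 _ hmem
  have hz' : 5 * k = 2 * z := by
    have : (5 * k : ℚ) = 2 * z := by linarith
    exact_mod_cast this
  obtain ⟨e, rfl⟩ : ∃ e : ℤ, k = 2 * e := ⟨k / 2, by omega⟩
  refine ⟨c1, c2, c3, c4, e, h1, h2, h3, h4, ?_, ?_⟩
  · push_cast at hk
    linarith
  · rw [key2]
    push_cast
    congr 2
    ring

/-- Row [RH-R7]: `Gamma`: with `c_i = 2(x,·)/n` for `s1, r, s2, q, s3`: `6x = ∑ C_ij c_j (·)_i`,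
`C = [[5,-4,3,-2,1],[-4,8,-6,4,-2],[3,-6,9,-6,3],[-2,4,-6,8,-4],[1,-2,3,-4,5]]`. -/
theorem gamma_coord {B : LinearMap.BilinForm ℚ V} {K : AddSubgroup V} (hK : K5 B K)
    {s1 r s2 q s3 : V} (h : Gamma B K s1 r s2 q s3) {x : V} (hx : x ∈ K) :
    ∃ c1 c2 c3 c4 c5 : ℤ, 2 * B x s1 = c1 * B s1 s1 ∧ 2 * B x r = c2 * B s1 s1 ∧
      2 * B x s2 = c3 * B s1 s1 ∧ 2 * B x q = c4 * B s1 s1 ∧ 2 * B x s3 = c5 * B s1 s1 ∧
      (6 : ℚ) • x = (5 * c1 - 4 * c2 + 3 * c3 - 2 * c4 + c5 : ℚ) • s1 +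
        (-4 * c1 + 8 * c2 - 6 * c3 + 4 * c4 - 2 * c5 : ℚ) • r +
        (3 * c1 - 6 * c2 + 9 * c3 - 6 * c4 + 3 * c5 : ℚ) • s2 +
        (-2 * c1 + 4 * c2 - 6 * c3 + 8 * c4 - 4 * c5 : ℚ) • q +
        (c1 - 2 * c2 + 3 * c3 - 4 * c4 + 5 * c5 : ℚ) • s3 := by
  have hn : B s1 s1 ≠ 0 := (r7_pos hK h.h1).ne'
  obtain ⟨c1, h1⟩ := h.h1.2.2.1 x hx
  obtain ⟨c2, h2⟩ := h.hr.2.2.1 x hx
  obtain ⟨c3, h3⟩ := h.h2.2.2.1 x hx
  obtain ⟨c4, h4⟩ := h.hq.2.2.1 x hx
  obtain ⟨c5, h5⟩ := h.h3.2.2.1 x hx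
  rw [h.rr] at h2
  rw [h.s22] at h3
  rw [h.qq] at h4
  rw [h.s33] at h5
  have srs1 : 2 * B s1 r = B s1 s1 := by rw [hK.symm]; exact h.rs1
  have srs2 : 2 * B s2 r = B s1 s1 := by rw [hK.symm]; exact h.rs2
  have sqs2 : 2 * B s2 q = B s1 s1 := by rw [hK.symm]; exact h.qs2
  have sqs3 : 2 * B s3 q = B s1 s1 := by rw [hK.symm]; exact h.qs3
  have z21 : B s2 s1 = 0 := by rw [hK.symm]; exact h.z12
  have z31 : B s3 s1 = 0 := by rw [hK.symm]; exact h.z13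
  have z32 : B s3 s2 = 0 := by rw [hK.symm]; exact h.z23
  have z3r : B s3 r = 0 := by rw [hK.symm]; exact h.zr3
  have z1q : B s1 q = 0 := by rw [hK.symm]; exact h.zq1
  have zqr : B q r = 0 := by rw [hK.symm]; exact h.zrq
  have hind : ∀ a b c d e : ℚ, a • s1 + b • r + c • s2 + d • q + e • s3 = 0 →
      a = 0 ∧ b = 0 ∧ c = 0 ∧ d = 0 ∧ e = 0 := by
    intro a b c d e h0
    have e1 := congrArg (fun w => B w s1) h0
    have e2 := congrArg (fun w => B w r) h0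
    have e3 := congrArg (fun w => B w s2) h0
    have e4 := congrArg (fun w => B w q) h0
    have e5 := congrArg (fun w => B w s3) h0
    simp only [r7_prod, map_zero, LinearMap.zero_apply, z21, z31, z32, z3r, z1q, zqr,
      h.z12, h.z13, h.z23, h.zr3, h.zq1, h.zrq, h.rr, h.qq, h.s22, h.s33] at e1 e2 e3 e4 e5
    have f1 : a + b / 2 = 0 := by
      apply mul_right_cancel₀ hn
      linear_combination e1 - b / 2 * h.rs1
    have f2 : a / 2 + b + c / 2 = 0 := by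
      apply mul_right_cancel₀ hn
      linear_combination e2 - a / 2 * srs1 - c / 2 * srs2
    have f3 : b / 2 + c + d / 2 = 0 := by
      apply mul_right_cancel₀ hn
      linear_combination e3 - b / 2 * h.rs2 - d / 2 * h.qs2
    have f4 : c / 2 + d + e / 2 = 0 := by
      apply mul_right_cancel₀ hn
      linear_combination e4 - c / 2 * sqs2 - e / 2 * sqs3
    have f5 : d / 2 + e = 0 := by
      apply mul_right_cancel₀ hn
      linear_combination e5 - d / 2 * h.qs3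
    exact ⟨by linarith, by linarith, by linarith, by linarith, by linarith⟩
  have key : (6 : ℚ) • x - ((5 * c1 - 4 * c2 + 3 * c3 - 2 * c4 + c5 : ℚ) • s1 +
        (-4 * c1 + 8 * c2 - 6 * c3 + 4 * c4 - 2 * c5 : ℚ) • r +
        (3 * c1 - 6 * c2 + 9 * c3 - 6 * c4 + 3 * c5 : ℚ) • s2 +
        (-2 * c1 + 4 * c2 - 6 * c3 + 8 * c4 - 4 * c5 : ℚ) • q +
        (c1 - 2 * c2 + 3 * c3 - 4 * c4 + 5 * c5 : ℚ) • s3) = 0 := by
    apply r7_test hK hind
    · rw [map_sub, LinearMap.sub_apply, r7_prod, map_smul, LinearMap.smul_apply, smul_eq_mul,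
        z21, z31, h.zq1]
      linear_combination 6 / 2 * h1 - (-4 * c1 + 8 * c2 - 6 * c3 + 4 * c4 - 2 * c5) / 2 * h.rs1
    · rw [map_sub, LinearMap.sub_apply, r7_prod, map_smul, LinearMap.smul_apply, smul_eq_mul,
        z3r, zqr, h.rr]
      linear_combination 6 / 2 * h2 - (5 * c1 - 4 * c2 + 3 * c3 - 2 * c4 + c5) / 2 * srs1 -
        (3 * c1 - 6 * c2 + 9 * c3 - 6 * c4 + 3 * c5) / 2 * srs2
    · rw [map_sub, LinearMap.sub_apply, r7_prod, map_smul, LinearMap.smul_apply, smul_eq_mul,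
        h.z12, z32, h.s22]
      linear_combination 6 / 2 * h3 - (-4 * c1 + 8 * c2 - 6 * c3 + 4 * c4 - 2 * c5) / 2 * h.rs2 -
        (-2 * c1 + 4 * c2 - 6 * c3 + 8 * c4 - 4 * c5) / 2 * h.qs2
    · rw [map_sub, LinearMap.sub_apply, r7_prod, map_smul, LinearMap.smul_apply, smul_eq_mul,
        z1q, h.zrq, h.qq]
      linear_combination 6 / 2 * h4 - (3 * c1 - 6 * c2 + 9 * c3 - 6 * c4 + 3 * c5) / 2 * sqs2 -
        (c1 - 2 * c2 + 3 * c3 - 4 * c4 + 5 * c5) / 2 * sqs3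
    · rw [map_sub, LinearMap.sub_apply, r7_prod, map_smul, LinearMap.smul_apply, smul_eq_mul,
        h.z13, h.zr3, h.z23, h.s33]
      linear_combination 6 / 2 * h5 - (-2 * c1 + 4 * c2 - 6 * c3 + 8 * c4 - 4 * c5) / 2 * h.qs3
  exact ⟨c1, c2, c3, c4, c5, h1, h2, h3, h4, h5, sub_eq_zero.1 key⟩

end RH6
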