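import Pool.Agent.RH6.N5
import Pool.Agent.RH6.R6
import Pool.Agent.RH6.R7
import Pool.Agent.RH6.B3b

namespace RH6

variable {V : Type*} [AddCommGroup V] [Module ℚ V] [FiniteDimensional ℚ V]

theorem f1_rad {B : LinearMap.BilinForm ℚ V} {K : AddSubgroup V} (hF : FQ B K) :
    Rad B K 2 ≤ mulL 2 K := by
  have h1 : Rad B K 2 ≤ K := fun x hx => hx.1
  have h2 : (mulL 2 K).relIndex (Rad B K 2) * (Rad B K 2).relIndex K = 32 := by
    rw [AddSubgroup.relIndex_mul_relIndex _ _ _ (mulL_le_rad hF.int 2) h1,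
      relIndex_mulL hF.lat 2 (by norm_num), hF.dim]
    norm_num
  rw [hF.idx] at h2
  have h3 : (mulL 2 K).relIndex (Rad B K 2) = 1 := by omega
  rwa [AddSubgroup.relIndex_eq_one] at h3

/-- the norm of a root whose half is a product of two vectors of `K` -/
theorem f1_norm {B : LinearMap.BilinForm ℚ V} {K : AddSubgroup V} (hF : FQ B K) {s r : V}
    (hs : Rt B K s) (hr : r ∈ K) (h : 2 * B r s = B s s) : ∃ μ : ℕ, Odd μ ∧ B s s = 2 * μ := by
  obtain ⟨μ, hμ, -, h1⟩ := (root_norm hs).2.2 hF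
  rcases h1 with h1 | h1
  · exfalso
    obtain ⟨z, hz⟩ := hF.int r hr s hs.1
    rw [hz, h1] at h
    have h2 : 2 * z = (μ : ℤ) := by exact_mod_cast h
    obtain ⟨k, rfl⟩ := hμ
    omega
  · exact ⟨μ, hμ, h1⟩

/-- the third root: if everything is even outside of `s3` then the norm of `s3` is odd -/
theorem f1_third {B : LinearMap.BilinForm ℚ V} {K : AddSubgroup V} (hF : FQ B K) {s : V}
    (hs : Rt B K s) (N : ℤ) (hN : Odd N)
    (h : ∀ x ∈ K, ∃ e z : ℤ, B x s = e * B s s ∧ N * B x x = 2 * z + N * e ^ 2 * B s s) :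
    (∃ μ : ℕ, Odd μ ∧ B s s = μ) ∧ ∀ x ∈ K, B x s = 0 → ∃ z : ℤ, B x x = 2 * z := by
  have hev : ∀ w z : ℤ, N * w = 2 * z → ∃ y : ℤ, (w : ℚ) = 2 * y := by
    intro w z hz
    have h1 : Even (N * w) := ⟨z, by rw [hz]; ring⟩
    rcases Int.even_mul.1 h1 with h2 | h2
    · exact absurd h2 (Int.not_even_iff_odd.2 hN)
    · obtain ⟨y, hy⟩ := h2
      exact ⟨y, by rw [hy]; push_cast; ring⟩
  refine ⟨?_, ?_⟩
  · obtain ⟨μ, hμ, -, h1⟩ := (root_norm hs).2.2 hF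
    rcases h1 with h1 | h1
    · exact ⟨μ, hμ, h1⟩
    · exfalso
      have hE : EvenL B K := by
        refine ⟨hF.int, fun x hx => ?_⟩
        obtain ⟨w, hw⟩ := hF.int x hx x hx
        obtain ⟨e, z, -, h3⟩ := h x hx
        rw [hw, h1] at h3
        have h4 : N * w = 2 * (z + N * e ^ 2 * μ) := by
          have : ((N * w : ℤ) : ℚ) = ((2 * (z + N * e ^ 2 * μ) : ℤ) : ℚ) := by
            push_cast
            rw [h3]
            ring
          exact_mod_cast this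
        rw [hw]
        exact hev w _ h4
      have h5 : Even 5 := even_rank hF.symm hE 5 (by rw [hF.idx]; norm_num)
      exact absurd h5 (by decide)
  · intro x hx hx0
    obtain ⟨w, hw⟩ := hF.int x hx x hx
    obtain ⟨e, z, h2, h3⟩ := h x hx
    have hpos : 0 < B s s := hF.pos s hs.2.1
    rw [hx0] at h2
    have he : (e : ℚ) = 0 := by
      rcases mul_eq_zero.1 h2.symm with h4 | h4
      · exact h4
      · exact absurd h4 hpos.ne'
    rw [he, hw] at h3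
    have h4 : N * w = 2 * z := by
      have : ((N * w : ℤ) : ℚ) = ((2 * z : ℤ) : ℚ) := by
        push_cast
        rw [h3]
        ring
      exact_mod_cast this
    rw [hw]
    exact hev w _ h4

/-- Row [RH-F1]: no `A_5` in the family `F_Q`.

Proof.  Let `n = (s1,s1)`.  `2(r,s1) = n` and `(r,s1) ∈ ℤ`, so `n` is even and `n = 2μ`, `μ` odd
(`root_norm`).  Let `w = s1 + s2 + s3`; `(w,w) = 3n = 6μ`.  We claim `w/2 ∈ K`; then
`(w/2,w/2) = 3μ/2` is not an integer, contradiction.  For `x ∈ K` let `c1,…,c5` be as in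
`gamma_coord`; `(w,x) = μ (c1 + c3 + c5)`.  If `c1 + c3 + c5` is even for all `x ∈ K`, then
`w ∈ Rad B K 2 = 2K` (`[K : Rad] = 32 = [K : 2K]`), so `w/2 ∈ K`.  If `c1 + c3 + c5` is odd for some
`x ∈ K`: by `gamma_coord` the coefficients of `3x` at `r` and `q` are integers and those at
`s1, s2, s3` are half of an odd integer, so `3x - w/2` is an integral combination of the roots:
`w/2 ∈ K`. -/
theorem fq_no_gamma {B : LinearMap.BilinForm ℚ V} {K : AddSubgroup V} (hF : FQ B K)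
    {s1 r s2 q s3 : V} (h : Gamma B K s1 r s2 q s3) : False := by
  have h0 := hF.toK5
  obtain ⟨μ, hμ, hn⟩ := f1_norm hF h.h1 h.hr.1 h.rs1
  have hsymm : ∀ x y, B x y = B y x := hF.symm
  have hww : B (s1 + s2 + s3) (s1 + s2 + s3) = 6 * μ := by
    simp only [map_add, LinearMap.add_apply]
    rw [hsymm s2 s1, hsymm s3 s1, hsymm s3 s2, h.z12, h.z13, h.z23, h.s22, h.s33, hn]
    ring
  have hmem : (1 / 2 : ℚ) • (s1 + s2 + s3) ∈ K := by
    by_cases hall : ∀ x ∈ K, ∃ z : ℤ, B x (s1 + s2 + s3) = 2 * z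
    · have hw : s1 + s2 + s3 ∈ Rad B K 2 := by
        refine ⟨K.add_mem (K.add_mem h.h1.1 h.h2.1) h.h3.1, fun y hy => ?_⟩
        obtain ⟨z, hz⟩ := hall y hy
        exact ⟨z, by rw [hsymm, hz]; norm_num⟩
      obtain ⟨y, hy, hwy⟩ := f1_rad hF hw
      have : (1 / 2 : ℚ) • (s1 + s2 + s3) = y := by
        rw [hwy, ← Int.cast_smul_eq_zsmul ℚ, smul_smul]
        norm_num
      rw [this]
      exact hy
    · push Not at hall
      obtain ⟨x, hx, hodd⟩ := hall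
      obtain ⟨c1, c2, c3, c4, c5, e1, e2, e3, e4, e5, h6⟩ := gamma_coord h0 h hx
      have hBw : B x (s1 + s2 + s3) = μ * (c1 + c3 + c5) := by
        simp only [map_add]
        rw [hn] at e1 e3 e5
        linarith
      have hc : ∃ t : ℤ, c1 + c3 + c5 = 2 * t + 1 := by
        rcases Int.even_or_odd (c1 + c3 + c5) with ⟨t, ht⟩ | ⟨t, ht⟩
        · exfalso
          apply hodd (μ * t)
          rw [hBw]
          have : (c1 + c3 + c5 : ℚ) = t + t := by exact_mod_cast ht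
          rw [this]
          push_cast
          ring
        · exact ⟨t, ht⟩
      obtain ⟨t, ht⟩ := hc
      have ht' : (c1 : ℚ) = 2 * t + 1 - c3 - c5 := by
        have : (c1 + c3 + c5 : ℚ) = 2 * t + 1 := by exact_mod_cast ht
        linarith
      have hkey : (1 / 2 : ℚ) • (s1 + s2 + s3) = (3 : ℤ) • x
          - (t + 2 * c1 - 2 * c2 + c3 - c4) • s1
          - (-2 * c1 + 4 * c2 - 3 * c3 + 2 * c4 - c5) • r
          - (3 * t + 1 - 3 * c2 + 3 * c3 - 3 * c4) • s2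
          - (-c1 + 2 * c2 - 3 * c3 + 4 * c4 - 2 * c5) • q
          - (t - c2 + c3 - 2 * c4 + 2 * c5) • s3 := by
        have h3x : (3 : ℤ) • x = (1 / 2 : ℚ) • ((6 : ℚ) • x) := by
          rw [smul_smul, ← Int.cast_smul_eq_zsmul ℚ]
          norm_num
        rw [h3x, h6]
        simp only [← Int.cast_smul_eq_zsmul ℚ]
        push_cast
        rw [ht']
        module
      rw [hkey]
      exact K.sub_mem (K.sub_mem (K.sub_mem (K.sub_mem (K.sub_mem (K.zsmul_mem hx _)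
        (K.zsmul_mem h.h1.1 _)) (K.zsmul_mem h.hr.1 _)) (K.zsmul_mem h.h2.1 _))
        (K.zsmul_mem h.hq.1 _)) (K.zsmul_mem h.h3.1 _)
  obtain ⟨z, hz⟩ := hF.int _ hmem _ hmem
  simp only [map_smul, LinearMap.smul_apply, smul_eq_mul] at hz
  rw [hww] at hz
  have h3 : 3 * (μ : ℚ) = 2 * z := by linarith
  have h4 : 3 * (μ : ℤ) = 2 * z := by exact_mod_cast h3
  obtain ⟨k, rfl⟩ := hμ
  push_cast at h4
  omega

/-- Row [RH-F1]: `Alpha` in `F_Q`: norms.

Proof.  `(s1,s1) = 2(r,s1)` is even, so it is `2μ`, `μ` odd (`root_norm`); same for `s2`.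
Let `x ∈ K`; by `alpha_coord`
`9(x,x) = (s1,s1)(a²+ab+b²) + (s2,s2)(c²+cd+d²) + 9e²(s3,s3)`.  If `(x,s3) = 0` then `e = 0` and
`(x,x)` is even.  If `(s3,s3)` were even then `(x,x)` would be even for all `x ∈ K`, so `K` would be an
even lattice and `even_rank` says that the 5 in `[K:Rad B K 2] = 2^5` is even. -/
theorem fq_alpha {B : LinearMap.BilinForm ℚ V} {K : AddSubgroup V} (hF : FQ B K)
    {s1 r s2 q s3 : V} (h : Alpha B K s1 r s2 q s3) :
    (∃ μ : ℕ, Odd μ ∧ B s1 s1 = 2 * μ) ∧ (∃ μ : ℕ, Odd μ ∧ B s2 s2 = 2 * μ) ∧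
    (∃ μ : ℕ, Odd μ ∧ B s3 s3 = μ) ∧ ∀ x ∈ K, B x s3 = 0 → ∃ z : ℤ, B x x = 2 * z := by
  have hsymm : ∀ x y, B x y = B y x := hF.symm
  obtain ⟨μ, hμ, hn⟩ := f1_norm hF h.h1 h.hr.1 h.rs
  obtain ⟨ν, hν, hm⟩ := f1_norm hF h.h2 h.hq.1 h.qs
  have hkey := f1_third hF h.h3 9 (by decide) (fun x hx => by
    obtain ⟨a, b, c, d, e, h3x, he, -⟩ := alpha_coord hF.toK5 h hx
    refine ⟨e, μ * (a ^ 2 + a * b + b ^ 2) + ν * (c ^ 2 + c * d + d ^ 2), he, ?_⟩
    have h9 : 9 * B x x = B ((3 : ℚ) • x) ((3 : ℚ) • x) := by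
      simp only [map_smul, LinearMap.smul_apply, smul_eq_mul]
      ring
    have hrs : B r s1 = μ := by have := h.rs; rw [hn] at this; linarith
    have hqs : B q s2 = ν := by have := h.qs; rw [hm] at this; linarith
    push_cast
    rw [h9, h3x]
    simp only [map_add, map_smul, LinearMap.add_apply, LinearMap.smul_apply, smul_eq_mul]
    rw [hsymm s1 r, hsymm s1 q, hsymm s2 r, hsymm s2 s1, hsymm s2 q, hsymm q r, hsymm s3 s1,
      hsymm s3 s2, hsymm s3 r, hsymm s3 q, h.z12, h.z13, h.z23, h.zr2, h.zr3, h.zq1, h.zq3, h.zrq,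
      h.rr, h.qq, hrs, hqs, hn, hm]
    ring)
  exact ⟨⟨μ, hμ, hn⟩, ⟨ν, hν, hm⟩, hkey.1, hkey.2⟩

/-- Row [RH-F1]: `Beta` in `F_Q`: the same proof with `beta_coord`
(`(∑ y_i ρ_i, ∑ y_i ρ_i) = n (∑ y_i² + ∑ y_i y_{i+1})` for the chain `ρ`). -/
theorem fq_beta {B : LinearMap.BilinForm ℚ V} {K : AddSubgroup V} (hF : FQ B K)
    {s1 r q s2 s3 : V} (h : Beta B K s1 r q s2 s3) :
    (∃ μ : ℕ, Odd μ ∧ B s1 s1 = 2 * μ) ∧
    (∃ μ : ℕ, Odd μ ∧ B s3 s3 = μ) ∧ ∀ x ∈ K, B x s3 = 0 → ∃ z : ℤ, B x x = 2 * z := by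
  have hsymm : ∀ x y, B x y = B y x := hF.symm
  obtain ⟨μ, hμ, hn⟩ := f1_norm hF h.h1 h.hr.1 h.rs
  have hkey := f1_third hF h.h3 25 (by decide) (fun x hx => by
    obtain ⟨c1, c2, c3, c4, e, -, -, -, -, he, h5x⟩ := beta_coord hF.toK5 h hx
    have hrs : B r s1 = μ := by have := h.rs; rw [hn] at this; linarith
    have hrq : B r q = μ := by have := h.rq; rw [hn] at this; linarith
    have hqs : B q s2 = μ := by have := h.qs; rw [hn] at this; linarith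
    obtain ⟨y1, hy1⟩ : ∃ y : ℤ, y = 4 * c1 - 3 * c2 + 2 * c3 - c4 := ⟨_, rfl⟩
    obtain ⟨y2, hy2⟩ : ∃ y : ℤ, y = -3 * c1 + 6 * c2 - 4 * c3 + 2 * c4 := ⟨_, rfl⟩
    obtain ⟨y3, hy3⟩ : ∃ y : ℤ, y = 2 * c1 - 4 * c2 + 6 * c3 - 3 * c4 := ⟨_, rfl⟩
    obtain ⟨y4, hy4⟩ : ∃ y : ℤ, y = -c1 + 2 * c2 - 3 * c3 + 4 * c4 := ⟨_, rfl⟩
    have h5y : (5 : ℚ) • x = (y1 : ℚ) • s1 + (y2 : ℚ) • r + (y3 : ℚ) • q + (y4 : ℚ) • s2 +
        (5 * e : ℚ) • s3 := by
      rw [h5x, hy1, hy2, hy3, hy4]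
      push_cast
      rfl
    refine ⟨e, μ * (y1 ^ 2 + y2 ^ 2 + y3 ^ 2 + y4 ^ 2 + y1 * y2 + y2 * y3 + y3 * y4), he, ?_⟩
    have h9 : 25 * B x x = B ((5 : ℚ) • x) ((5 : ℚ) • x) := by
      simp only [map_smul, LinearMap.smul_apply, smul_eq_mul]
      ring
    push_cast
    rw [h9, h5y]
    simp only [map_add, map_smul, LinearMap.add_apply, LinearMap.smul_apply, smul_eq_mul]
    rw [hsymm s1 r, hsymm s1 q, hsymm s2 r, hsymm s2 s1, hsymm s2 q, hsymm q r, hsymm s3 s1,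
      hsymm s3 s2, hsymm s3 r, hsymm s3 q, h.z12, h.z13, h.z23, h.zr2, h.zr3, h.zq1, h.zq3,
      h.rr, h.qq, h.ss, hrs, hqs, hrq, hn]
    ring)
  exact ⟨⟨μ, hμ, hn⟩, hkey.1, hkey.2⟩

end RH6
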