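import Pool.Agent.RH6.F1

namespace RH6

variable {V : Type*} [AddCommGroup V] [Module ℚ V] [FiniteDimensional ℚ V]

/-- an odd number is not even -/
theorem f2_parity {μ : ℕ} (o : Odd μ) {a z : ℤ} (ha : Odd a) (h : 2 * (z : ℚ) = a * μ) : False := by
  have h1 : 2 * z = a * μ := by exact_mod_cast h
  have h2 : Odd (a * (μ : ℤ)) := ha.mul (by exact_mod_cast o)
  rw [← h1] at h2
  exact (Int.not_even_iff_odd.2 h2) (even_two_mul z)

/-- Row [RH-F2]: common part: let `k = s1 + s2` with orthogonal roots `s1,s2,s3` of `K`, roots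
`r, q` with `2(r,s1) = (s1,s1) = 2μ₁`, `2(q,s2) = (s2,s2) = 2μ₂`, `μ₁, μ₂` odd, `(r,s2) = (r,s3) = 0`,
`(q,s1) = (q,s3) = 0`, `(s3,s3)` odd, `(k,k) = 4u`.  Then `K' = Nb2 B K k (u+1)` is framed.

Proof.  `step_FQ` (`k ∉ 2K` since `(r,k) = μ₁` is odd) gives `Ctx`, `F_Q` and the isometry; `K'` has
`RSpan` (`CF_rspan`).  Suppose `K'` is not framed.
(a) `s1, s2, s3` are roots of `K'` by `rt_nb2`: `(k,s1) = (s1,s1)`, `(k,s2) = (s2,s2)`, even;
`(k,s3) = 0`.  If `t s1 = X - (a/2)k` with `a` odd, the product with `q` gives `(X,q) = a μ₂/2`, not an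
integer.  If `t s2` or `t s3` is `X - (a/2) k`, the product with `r` gives `(X,r) = a μ₁/2`.
(b) `root_thm3` for `K'` and `s1,s2,s3`; `Gamma` is impossible (`fq_no_gamma`); the third vector `t₃`
of `Alpha`/`Beta` has odd norm (`fq_alpha`, `fq_beta`), so it is `s3`.  So `(x,x)` is even for all
`x ∈ K'` orthogonal to `s3`.
(c) `x = X - k/2` with `X = r` if `u+1` is odd and `X = 0` if `u+1` is even: `(X,k) ≡ u+1 mod 2`, so
`x ∈ K'`, `(x,s3) = 0`, `(x,x) = (X,X) - (X,k) + u`, which is `2μ₁ - μ₁ + u ≡ 1` resp. `u ≡ 1 mod 2`.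
Contradiction. -/
theorem frame_FQ_aux {N : ℕ} {B : LinearMap.BilinForm ℚ V} {K : AddSubgroup V}
    (hX : Ctx N B K) (hF : FQ B K) {s1 r q s2 s3 : V} (h1 : Rt B K s1) (h2 : Rt B K s2)
    (h3 : Rt B K s3) (hr : Rt B K r) (hq : Rt B K q) (z12 : B s1 s2 = 0) (z13 : B s1 s3 = 0)
    (z23 : B s2 s3 = 0) {μ₁ μ₂ μ₃ : ℕ} (o1 : Odd μ₁) (o2 : Odd μ₂) (o3 : Odd μ₃)
    (n1 : B s1 s1 = 2 * μ₁) (n2 : B s2 s2 = 2 * μ₂) (n3 : B s3 s3 = μ₃)
    (nr : B r r = 2 * μ₁)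
    (r1 : 2 * B r s1 = B s1 s1) (r2 : B r s2 = 0) (r3 : B r s3 = 0) (q1 : B q s1 = 0)
    (q2 : 2 * B q s2 = B s2 s2) (q3 : B q s3 = 0) {u : ℤ} (hu : B (s1 + s2) (s1 + s2) = 4 * u) :
    Ctx N B (Nb2 B K (s1 + s2) (u + 1)) ∧ FQ B (Nb2 B K (s1 + s2) (u + 1)) ∧
      HIso N B K (Nb2 B K (s1 + s2) (u + 1)) ∧ Framed B (Nb2 B K (s1 + s2) (u + 1)) := by
  have hs := hF.symm
  have hK5 := hF.toK5
  have Br1 : B r s1 = μ₁ := by rw [n1] at r1; linarith
  have Bq2 : B q s2 = μ₂ := by rw [n2] at q2; linarith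
  have hk : s1 + s2 ∈ K := K.add_mem h1.1 h2.1
  have z21 : B s2 s1 = 0 := by rw [hs]; exact z12
  have z31 : B s3 s1 = 0 := by rw [hs]; exact z13
  have z32 : B s3 s2 = 0 := by rw [hs]; exact z23
  have krB : B r (s1 + s2) = μ₁ := by rw [map_add, Br1, r2, add_zero]
  have kB : B (s1 + s2) r = μ₁ := by rw [hs]; exact krB
  have kqB : B (s1 + s2) q = μ₂ := by rw [hs, map_add, q1, Bq2, zero_add]
  have hk2 : s1 + s2 ∉ mulL 2 K := by
    rintro ⟨y, hy, he⟩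
    obtain ⟨z, hz⟩ := hF.int r hr.1 y hy
    rw [he] at krB
    have h5 : 2 * (z : ℚ) = (1 : ℤ) * (μ₁ : ℚ) := by
      rw [← krB, map_zsmul, hz]
      push_cast
      simp
    exact f2_parity o1 odd_one h5
  obtain ⟨hX', hF', hI⟩ := step_FQ hX hF hk hk2 hu (u + 1)
  refine ⟨hX', hF', hI, ?_⟩
  have hN : 0 < N := by rcases hX.hN with h | h <;> omega
  have hR := CF_rspan hF'.toK5 hN hX'.cf
  by_contra hnf
  have p1 : 0 < B s1 s1 := hF.pos s1 h1.2.1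
  have p2 : 0 < B s2 s2 := hF.pos s2 h2.2.1
  have p3 : 0 < B s3 s3 := hF.pos s3 h3.2.1
  have h1' : Rt B (Nb2 B K (s1 + s2) (u + 1)) s1 := by
    refine rt_nb2 hs hk (y := 1) h1 p1 ?_ ⟨μ₁, ?_⟩ ?_
    · rw [map_add, LinearMap.add_apply, z21]; push_cast; ring
    · rw [n1]; push_cast; ring
    · intro t X hX0 a ha he
      obtain ⟨z, hz⟩ := hF.int X hX0 q hq.1
      have e1 : B (t • s1) q = 0 := by
        rw [map_smul, LinearMap.smul_apply, hs s1 q, q1, smul_zero]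
      rw [he, map_sub, map_smul, LinearMap.sub_apply, LinearMap.smul_apply, kqB, hz,
        smul_eq_mul] at e1
      exact f2_parity o2 ha (z := z) (by linarith)
  have h2' : Rt B (Nb2 B K (s1 + s2) (u + 1)) s2 := by
    refine rt_nb2 hs hk (y := 1) h2 p2 ?_ ⟨μ₂, ?_⟩ ?_
    · rw [map_add, LinearMap.add_apply, z12]; push_cast; ring
    · rw [n2]; push_cast; ring
    · intro t X hX0 a ha he
      obtain ⟨z, hz⟩ := hF.int X hX0 r hr.1
      have e1 : B (t • s2) r = 0 := by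
        rw [map_smul, LinearMap.smul_apply, hs s2 r, r2, smul_zero]
      rw [he, map_sub, map_smul, LinearMap.sub_apply, LinearMap.smul_apply, kB, hz,
        smul_eq_mul] at e1
      exact f2_parity o1 ha (z := z) (by linarith)
  have h3' : Rt B (Nb2 B K (s1 + s2) (u + 1)) s3 := by
    refine rt_nb2 hs hk (y := 0) h3 p3 ?_ ⟨0, ?_⟩ ?_
    · rw [map_add, LinearMap.add_apply, z13, z23]; push_cast; ring
    · push_cast; ring
    · intro t X hX0 a ha he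
      obtain ⟨z, hz⟩ := hF.int X hX0 r hr.1
      have e1 : B (t • s3) r = 0 := by
        rw [map_smul, LinearMap.smul_apply, hs s3 r, r3, smul_zero]
      rw [he, map_sub, map_smul, LinearMap.sub_apply, LinearMap.smul_apply, kB, hz,
        smul_eq_mul] at e1
      exact f2_parity o1 ha (z := z) (by linarith)
  -- the third vector is `s3`
  have hpick : ∀ {t1 t2 t3 : V}, ({t1, t2, t3} : Set V) = {s1, s2, s3} →
      (∃ μ : ℕ, Odd μ ∧ B t3 t3 = μ) → t3 = s3 := by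
    intro t1 t2 t3 hset ⟨μ, hμ, hn⟩
    have hm : t3 ∈ ({s1, s2, s3} : Set V) := by
      rw [← hset]
      exact Or.inr (Or.inr rfl)
    rcases hm with h | h | h
    · exfalso
      rw [h, n1] at hn
      exact f2_parity hμ (a := 1) (z := μ₁) odd_one (by push_cast; linarith)
    · exfalso
      rw [h, n2] at hn
      exact f2_parity hμ (a := 1) (z := μ₂) odd_one (by push_cast; linarith)
    · exact h
  have key : ∀ x ∈ Nb2 B K (s1 + s2) (u + 1), B x s3 = 0 → ∃ z : ℤ, B x x = 2 * z := by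
    obtain ⟨t1, t2, t3, hset, h⟩ := root_thm3 hF'.toK5 hR hnf h1' h2' h3' z12 z13 z23
    rcases h with ⟨r', q', h⟩ | ⟨r', q', t2', -, h⟩ | ⟨r', q', t3', h⟩
    · obtain ⟨-, -, h5, h6⟩ := fq_alpha hF' h
      have h7 := hpick hset h5
      rw [h7] at h6
      exact h6
    · obtain ⟨-, h5, h6⟩ := fq_beta hF' h
      have h7 := hpick hset h5
      rw [h7] at h6
      exact h6
    · exact (fq_no_gamma hF' h).elim
  have ks3 : B (s1 + s2) s3 = 0 := by rw [map_add, LinearMap.add_apply, z13, z23, add_zero]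
  obtain ⟨μ', hμ'⟩ := o1
  rcases Int.even_or_odd u with ⟨v, hv⟩ | ⟨v, hv⟩
  · -- `X = r`
    obtain ⟨z, hz⟩ := key (r - (((1 : ℤ) : ℚ) / 2) • (s1 + s2))
      ⟨r, hr.1, 1, μ' - v, rfl, by rw [krB, hμ', hv]; push_cast; ring⟩ (by
        rw [map_sub, map_smul, LinearMap.sub_apply, LinearMap.smul_apply, r3, ks3, smul_zero,
          sub_zero])
    have e : B (r - (((1 : ℤ) : ℚ) / 2) • (s1 + s2)) (r - (((1 : ℤ) : ℚ) / 2) • (s1 + s2)) =
        B r r - B r (s1 + s2) + B (s1 + s2) (s1 + s2) / 4 := by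
      rw [map_sub (B (r - (((1 : ℤ) : ℚ) / 2) • (s1 + s2))), map_smul, map_sub B, map_smul B]
      simp only [LinearMap.sub_apply, LinearMap.smul_apply, smul_eq_mul]
      rw [hs (s1 + s2) r]
      push_cast
      ring
    rw [e, nr, krB, hu, hv, hμ'] at hz
    have h5 : (2 * (μ' : ℤ) + 1 + (v + v)) = 2 * z := by
      have : ((2 * (μ' : ℤ) + 1 + (v + v) : ℤ) : ℚ) = ((2 * z : ℤ) : ℚ) := by
        push_cast at hz ⊢
        linarith
      exact_mod_cast this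
    omega
  · -- `X = 0`
    obtain ⟨z, hz⟩ := key ((0 : V) - (((1 : ℤ) : ℚ) / 2) • (s1 + s2))
      ⟨0, K.zero_mem, 1, -(v + 1), rfl, by
        rw [map_zero, LinearMap.zero_apply, hv]; push_cast; ring⟩ (by
        rw [zero_sub, map_neg, map_smul, LinearMap.neg_apply, LinearMap.smul_apply, ks3,
          smul_zero, neg_zero])
    have e : B ((0 : V) - (((1 : ℤ) : ℚ) / 2) • (s1 + s2)) (0 - (((1 : ℤ) : ℚ) / 2) • (s1 + s2)) =
        B (s1 + s2) (s1 + s2) / 4 := by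
      rw [zero_sub, map_neg, map_smul, map_neg, map_smul]
      simp only [LinearMap.neg_apply, LinearMap.smul_apply, smul_eq_mul]
      push_cast
      ring
    rw [e, hu, hv] at hz
    have h5 : 2 * v + 1 = 2 * z := by
      have : ((2 * v + 1 : ℤ) : ℚ) = ((2 * z : ℤ) : ℚ) := by
        push_cast at hz ⊢
        linarith
      exact_mod_cast this
    omega

/-- Row [RH-F2]: framing in the family `F_Q`.
Proof: if `K` is framed take `K' = K`.  Otherwise `root_thm`; `Gamma` is impossible; `Alpha`: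
`(k,k) = 2(μ₁+μ₂)` with `μ₁, μ₂` odd; `Beta`: `(k,k) = 2n = 4μ`; `frame_FQ_aux`. -/
theorem frame_FQ {N : ℕ} {B : LinearMap.BilinForm ℚ V} {K : AddSubgroup V}
    (hX : Ctx N B K) (hF : FQ B K) :
    ∃ K', Ctx N B K' ∧ FQ B K' ∧ HIso N B K K' ∧ Framed B K' := by
  by_cases hf : Framed B K
  · exact ⟨K, hX, hF, HIso_refl N B K, hf⟩
  have hs := hF.symm
  have hN : 0 < N := by rcases hX.hN with h | h <;> omega
  have hR := CF_rspan hF.toK5 hN hX.cf
  rcases root_thm hF.toK5 hR hf with ⟨s1, r, s2, q, s3, h⟩ | ⟨s1, r, q, s2, s3, h⟩ |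
    ⟨s1, r, s2, q, s3, h⟩
  · obtain ⟨⟨μ₁, o1, n1⟩, ⟨μ₂, o2, n2⟩, ⟨μ₃, o3, n3⟩, -⟩ := fq_alpha hF h
    obtain ⟨a, ha⟩ := o1
    obtain ⟨b, hb⟩ := o2
    have hu : B (s1 + s2) (s1 + s2) = 4 * ((a + b + 1 : ℤ) : ℚ) := by
      simp only [map_add, LinearMap.add_apply]
      rw [h.z12, hs s2 s1, h.z12, n1, n2, ha, hb]
      push_cast
      ring
    obtain ⟨c1, c2, c3, c4⟩ := frame_FQ_aux hX hF h.h1 h.h2 h.h3 h.hr h.hq h.z12 h.z13 h.z23
      ⟨a, ha⟩ ⟨b, hb⟩ o3 n1 n2 n3 (h.rr.trans n1) h.rs h.zr2 h.zr3 h.zq1 h.qs h.zq3 hu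
    exact ⟨_, c1, c2, c3, c4⟩
  · obtain ⟨⟨μ, o1, n1⟩, ⟨μ₃, o3, n3⟩, -⟩ := fq_beta hF h
    have hu : B (s1 + s2) (s1 + s2) = 4 * ((μ : ℤ) : ℚ) := by
      simp only [map_add, LinearMap.add_apply]
      rw [h.z12, hs s2 s1, h.z12, h.ss, n1]
      push_cast
      ring
    obtain ⟨c1, c2, c3, c4⟩ := frame_FQ_aux hX hF h.h1 h.h2 h.h3 h.hr h.hq h.z12 h.z13 h.z23
      o1 o1 o3 n1 (h.ss.trans n1) n3 (h.rr.trans n1) h.rs h.zr2 h.zr3 h.zq1
      (h.qs.trans h.ss.symm) h.zq3 hu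
    exact ⟨_, c1, c2, c3, c4⟩
  · exact (fq_no_gamma hF h).elim

end RH6
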