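import Pool.Agent.RH6.N5
import Pool.Agent.RH6.R6
import Pool.Agent.RH6.R7
import Pool.Agent.RH6.B3b

namespace RH6

variable {V : Type*} [AddCommGroup V] [Module ℚ V] [FiniteDimensional ℚ V]

/-- Row [RH-F3]: four vectors with nonsingular Gram matrix mod 2 give 16 classes mod `Rad`: the 16
vectors `∑ ε_i y_i`, `ε_i ∈ {0,1}`, are pairwise different modulo `Rad B K 2`. -/
theorem pf4 {B : LinearMap.BilinForm ℚ V} {K : AddSubgroup V}
    (hi : (Rad B K 2).relIndex K = 4) (y : Fin 4 → V) (hy : ∀ i, y i ∈ K)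
    (h : ∀ ε : Fin 4 → ℤ, (∀ j, ∃ z : ℤ, B (∑ i, ε i • y i) (y j) = 2 * z) → ∀ i, Even (ε i)) :
    False := by
  classical
  set R := (Rad B K 2).addSubgroupOf K with hR
  have hidx : Nat.card (K ⧸ R) = 4 := hi
  have : Finite (K ⧸ R) := Nat.finite_of_card_ne_zero (by rw [hidx]; norm_num)
  let f : (Fin 4 → Fin 2) → K ⧸ R := fun e =>
    QuotientAddGroup.mk (⟨∑ i, ((e i : ℕ) : ℤ) • y i,
      K.sum_mem fun i _ => K.zsmul_mem (hy i) _⟩ : K)
  have hf : Function.Injective f := by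
    intro e e' he
    have h1 := (QuotientAddGroup.eq (s := R)).1 he
    have h2 := h1.2
    have h3 : ∀ j, ∃ z : ℤ, B (∑ i, (((e' i : ℕ) : ℤ) - ((e i : ℕ) : ℤ)) • y i) (y j) = 2 * z := by
      intro j
      obtain ⟨z, hz⟩ := h2 (y j) (hy j)
      refine ⟨z, ?_⟩
      rw [show ((2 : ℕ) : ℚ) = 2 by norm_num] at hz
      have hz' : B (-(∑ i, ((e i : ℕ) : ℤ) • y i) + ∑ i, ((e' i : ℕ) : ℤ) • y i) (y j)
          = 2 * z := hz
      rw [← hz']
      congr 2
      simp only [sub_smul, Finset.sum_sub_distrib]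
      abel
    have h4 := h _ h3
    funext i
    obtain ⟨k, hk⟩ := h4 i
    have a1 := (e i).2
    have a2 := (e' i).2
    apply Fin.ext
    omega
  have h5 := Nat.card_le_card_of_injective f hf
  rw [hidx, Nat.card_eq_fintype_card] at h5
  simp at h5

omit [FiniteDimensional ℚ V] in
/-- all products even: contradiction to the index -/
theorem f3_all_even {B : LinearMap.BilinForm ℚ V} {K : AddSubgroup V} (hF : F2 B K)
    (h : ∀ x ∈ K, ∀ y ∈ K, ∃ z : ℤ, B x y = 2 * z) : False := by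
  have h1 : K ≤ Rad B K 2 := by
    intro x hx
    refine ⟨hx, fun y hy => ?_⟩
    obtain ⟨z, hz⟩ := h x hx y hy
    exact ⟨z, by rw [hz]; norm_num⟩
  have h2 := hF.idx
  rw [AddSubgroup.relIndex_eq_one.2 h1] at h2
  norm_num at h2

/-- `k (x,y)` even with `k` odd and `(x,y)` integral -/
theorem f3_odd_mul {b : ℚ} {k n m : ℤ} (hk : Odd k) (hb : b = n) (h : k * b = 2 * m) :
    ∃ z : ℤ, b = 2 * z := by
  rw [hb] at h
  have h1 : k * n = 2 * m := by exact_mod_cast h
  have h2 : Even (k * n) := by rw [h1]; exact even_two_mul m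
  rcases Int.even_mul.1 h2 with h3 | h3
  · exact absurd h3 (Int.not_even_iff_odd.2 hk)
  · obtain ⟨z, hz⟩ := h3
    exact ⟨z, by rw [hb, hz]; push_cast; ring⟩

theorem f3_even_of {μ : ℕ} (o : Odd μ) {a z : ℤ} (h : (a : ℚ) * μ = 2 * z) : Even a := by
  have h1 : a * μ = 2 * z := by exact_mod_cast h
  have h2 : Even (a * (μ : ℤ)) := by rw [h1]; exact even_two_mul z
  rcases Int.even_mul.1 h2 with h3 | h3
  · exact h3
  · exact absurd h3 (Int.not_even_iff_odd.2 (by exact_mod_cast o))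

/-- Row [RH-F3]: no `A_5` in `F_2`.

Proof.  `n = (s1,s1) = 2μ` or `4μ`, `μ` odd (`root_norm`).
`n = 2μ`: `pf4` with `(s1,r,s2,q)`: `(y_i,y_i) = 2μ`, `(s1,r) = (r,s2) = (s2,q) = μ`, the other
products are 0; so all `ε_i` are even.
`n = 4μ`: let `w = s1+s2+s3`.  If `c1+c3+c5` is odd for some `x ∈ K` (`gamma_coord`) then
`3x - w/2` is an integral combination of the roots and `w/2 ∈ K` has norm `3n/4 = 3μ`, odd,
contradiction to `K` even.  So `3x` is an integral combination of the roots for every `x ∈ K`, and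
`9(x,y) ∈ (n/2)ℤ = 2μℤ` for all `x,y ∈ K`: all products are even, `Rad B K 2 = K`, contradiction to
`[K : Rad B K 2] = 4`. -/
theorem f2_no_gamma {B : LinearMap.BilinForm ℚ V} {K : AddSubgroup V} (hF : F2 B K)
    {s1 r s2 q s3 : V} (h : Gamma B K s1 r s2 q s3) : False := by
  have hs := hF.symm
  obtain ⟨μ, o, -, hn⟩ := (root_norm h.h1).2.1 hF
  have b1 : 2 * B s1 r = B s1 s1 := by rw [hs]; exact h.rs1
  have b2 : 2 * B s2 r = B s1 s1 := by rw [hs]; exact h.rs2
  have b3 : 2 * B s2 q = B s1 s1 := by rw [hs]; exact h.qs2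
  rcases hn with hn | hn
  · have c1 : B s1 r = μ := by rw [hn] at b1; linarith
    have c2 : B s2 r = μ := by rw [hn] at b2; linarith
    have c3 : B s2 q = μ := by rw [hn] at b3; linarith
    have c1' : B r s1 = μ := by rw [hs]; exact c1
    have c2' : B r s2 = μ := by rw [hs]; exact c2
    have c3' : B q s2 = μ := by rw [hs]; exact c3
    have d1 : B s2 s1 = 0 := by rw [hs]; exact h.z12
    have d2 : B q r = 0 := by rw [hs]; exact h.zrq
    have d3 : B s1 q = 0 := by rw [hs]; exact h.zq1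
    have m1 : B r r = 2 * μ := h.rr.trans hn
    have m2 : B s2 s2 = 2 * μ := h.s22.trans hn
    have m3 : B q q = 2 * μ := h.qq.trans hn
    refine pf4 hF.idx ![s1, r, s2, q] ?_ ?_
    · intro i
      fin_cases i
      · exact h.h1.1
      · exact h.hr.1
      · exact h.h2.1
      · exact h.hq.1
    · intro ε hε
      have e0 := hε 0
      have e1 := hε 1
      have e2 := hε 2
      have e3 := hε 3
      simp only [Fin.sum_univ_four, Matrix.cons_val_zero, Matrix.cons_val_one, Matrix.cons_val,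
        map_add, map_zsmul, LinearMap.add_apply, LinearMap.smul_apply, hn, m1, m2, m3, c1, c2, c3,
        c1', c2', c3', d1, d2, d3, h.z12, h.zrq, h.zq1, zsmul_eq_mul] at e0 e1 e2 e3
      obtain ⟨z0, e0⟩ := e0
      obtain ⟨z1, e1⟩ := e1
      obtain ⟨z2, e2⟩ := e2
      obtain ⟨z3, e3⟩ := e3
      have f1 : Even (ε 1) := f3_even_of o (z := z0 - ε 0 * μ) (by push_cast; linarith)
      have f2 : Even (ε 2) := f3_even_of o (z := z3 - ε 3 * μ) (by push_cast; linarith)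
      have f0 : Even (ε 0 + ε 2) := f3_even_of o (z := z1 - ε 1 * μ) (by push_cast; linarith)
      have f3 : Even (ε 1 + ε 3) := f3_even_of o (z := z2 - ε 2 * μ) (by push_cast; linarith)
      have f0' : Even (ε 0) := (Int.even_add.1 f0).2 f2
      have f3' : Even (ε 3) := (Int.even_add.1 f3).1 f1
      intro i
      fin_cases i
      · exact f0'
      · exact f1
      · exact f2
      · exact f3'
  · by_cases hodd : ∃ x ∈ K, ∃ c1 c3 c5 : ℤ, Odd (c1 + c3 + c5) ∧ ∃ c2 c4 : ℤ,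
        (6 : ℚ) • x = (5 * c1 - 4 * c2 + 3 * c3 - 2 * c4 + c5 : ℚ) • s1 +
        (-4 * c1 + 8 * c2 - 6 * c3 + 4 * c4 - 2 * c5 : ℚ) • r +
        (3 * c1 - 6 * c2 + 9 * c3 - 6 * c4 + 3 * c5 : ℚ) • s2 +
        (-2 * c1 + 4 * c2 - 6 * c3 + 8 * c4 - 4 * c5 : ℚ) • q +
        (c1 - 2 * c2 + 3 * c3 - 4 * c4 + 5 * c5 : ℚ) • s3
    · obtain ⟨x, hx, c1, c3, c5, ⟨t, ht⟩, c2, c4, he⟩ := hodd
      have hc5 : (c5 : ℚ) = 2 * t + 1 - c1 - c3 := by
        have : c5 = 2 * t + 1 - c1 - c3 := by linarith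
        exact_mod_cast this
      have hw : (1 / 2 : ℚ) • (s1 + s2 + s3) = (3 : ℤ) • x -
          ((t + 2 * c1 + c3 - 2 * c2 - c4) • s1 + (-2 * c1 + 4 * c2 - 3 * c3 + 2 * c4 - c5) • r +
          (3 * t + 1 + 3 * c3 - 3 * c2 - 3 * c4) • s2 +
          (-c1 + 2 * c2 - 3 * c3 + 4 * c4 - 2 * c5) • q +
          (t + c3 + 2 * c5 - c2 - 2 * c4) • s3) := by
        have h3 : (3 : ℤ) • x = (1 / 2 : ℚ) • ((6 : ℚ) • x) := by
          rw [smul_smul, ← Int.cast_smul_eq_zsmul ℚ]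
          norm_num
        rw [h3, he]
        simp only [← Int.cast_smul_eq_zsmul ℚ]
        push_cast
        rw [hc5]
        module
      have hmem : (1 / 2 : ℚ) • (s1 + s2 + s3) ∈ K := by
        rw [hw]
        refine K.sub_mem (K.zsmul_mem hx _) ?_
        exact K.add_mem (K.add_mem (K.add_mem (K.add_mem (K.zsmul_mem h.h1.1 _)
          (K.zsmul_mem h.hr.1 _)) (K.zsmul_mem h.h2.1 _)) (K.zsmul_mem h.hq.1 _))
          (K.zsmul_mem h.h3.1 _)
      obtain ⟨z, hz⟩ := hF.even.2 _ hmem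
      have hnorm : B ((1 / 2 : ℚ) • (s1 + s2 + s3)) ((1 / 2 : ℚ) • (s1 + s2 + s3)) = 3 * μ := by
        simp only [map_smul, map_add, LinearMap.smul_apply, LinearMap.add_apply, smul_eq_mul]
        rw [hs s2 s1, hs s3 s1, hs s3 s2, h.z12, h.z13, h.z23, h.s22, h.s33, hn]
        ring
      rw [hnorm] at hz
      have h6 : 3 * (μ : ℤ) = 2 * z := by exact_mod_cast hz
      have h7 : Odd (3 * (μ : ℤ)) := (by decide : Odd (3 : ℤ)).mul (by exact_mod_cast o)
      rw [h6] at h7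
      exact (Int.not_even_iff_odd.2 h7) (even_two_mul z)
    · refine f3_all_even hF fun x hx y hy => ?_
      obtain ⟨c1, c2, c3, c4, c5, -, -, -, -, -, he⟩ := gamma_coord hF.toK5 h hx
      have hev : Even (c1 + c3 + c5) := by
        by_contra hne
        exact hodd ⟨x, hx, c1, c3, c5, Int.not_even_iff_odd.1 hne, c2, c4, he⟩
      obtain ⟨t, ht⟩ := hev
      obtain ⟨n1, hn1⟩ := h.h1.2.2.1 y hy
      obtain ⟨n2, hn2⟩ := h.hr.2.2.1 y hy
      obtain ⟨n3, hn3⟩ := h.h2.2.2.1 y hy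
      obtain ⟨n4, hn4⟩ := h.hq.2.2.1 y hy
      obtain ⟨n5, hn5⟩ := h.h3.2.2.1 y hy
      rw [hn] at hn1
      rw [h.rr, hn] at hn2
      rw [h.s22, hn] at hn3
      rw [h.qq, hn] at hn4
      rw [h.s33, hn] at hn5
      obtain ⟨n, hb⟩ := hF.even.1 x hx y hy
      have hc5 : (c5 : ℚ) = 2 * t - c1 - c3 := by
        have : c5 = 2 * t - c1 - c3 := by linarith
        exact_mod_cast this
      have h8 := congrArg (fun v => B y v) he
      simp only [map_smul, map_add, smul_eq_mul] at h8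
      refine f3_odd_mul (k := 3) (m := μ * ((t + 2 * c1 + c3 - 2 * c2 - c4) * n1 +
          (-2 * c1 + 4 * c2 - 3 * c3 + 2 * c4 - c5) * n2 +
          (3 * t + 3 * c3 - 3 * c2 - 3 * c4) * n3 +
          (-c1 + 2 * c2 - 3 * c3 + 4 * c4 - 2 * c5) * n4 +
          (t + c3 + 2 * c5 - c2 - 2 * c4) * n5)) (by decide) hb ?_
      rw [hs x y]
      push_cast
      have k1 : B y s1 = 2 * μ * n1 := by linarith
      have k2 : B y r = 2 * μ * n2 := by linarith
      have k3 : B y s2 = 2 * μ * n3 := by linarith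
      have k4 : B y q = 2 * μ * n4 := by linarith
      have k5 : B y s3 = 2 * μ * n5 := by linarith
      rw [k1, k2, k3, k4, k5, hc5] at h8
      rw [hc5]
      linear_combination (1 / 2 : ℚ) * h8

/-- Row [RH-F3]: no `A_4` in `F_2`.  `n = 2μ`: `pf4` with `(s1,r,q,s2)`.  `n = 4μ`: by `beta_coord`
`25(x,y) ∈ (n/2)ℤ + 25(s3,s3)ℤ`, all products are even. -/
theorem f2_no_beta {B : LinearMap.BilinForm ℚ V} {K : AddSubgroup V} (hF : F2 B K)
    {s1 r q s2 s3 : V} (h : Beta B K s1 r q s2 s3) : False := by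
  have hs := hF.symm
  obtain ⟨μ, o, -, hn⟩ := (root_norm h.h1).2.1 hF
  have b1 : 2 * B s1 r = B s1 s1 := by rw [hs]; exact h.rs
  have b2 : 2 * B q r = B s1 s1 := by rw [hs]; exact h.rq
  have b3 : 2 * B s2 q = B s1 s1 := by rw [hs]; exact h.qs
  rcases hn with hn | hn
  · have c1 : B s1 r = μ := by rw [hn] at b1; linarith
    have c2 : B q r = μ := by rw [hn] at b2; linarith
    have c3 : B s2 q = μ := by rw [hn] at b3; linarith
    have c1' : B r s1 = μ := by rw [hs]; exact c1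
    have c2' : B r q = μ := by rw [hs]; exact c2
    have c3' : B q s2 = μ := by rw [hs]; exact c3
    have d1 : B s2 s1 = 0 := by rw [hs]; exact h.z12
    have d2 : B s2 r = 0 := by rw [hs]; exact h.zr2
    have d3 : B s1 q = 0 := by rw [hs]; exact h.zq1
    have m1 : B r r = 2 * μ := h.rr.trans hn
    have m2 : B s2 s2 = 2 * μ := h.ss.trans hn
    have m3 : B q q = 2 * μ := h.qq.trans hn
    refine pf4 hF.idx ![s1, r, q, s2] ?_ ?_
    · intro i
      fin_cases i
      · exact h.h1.1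
      · exact h.hr.1
      · exact h.hq.1
      · exact h.h2.1
    · intro ε hε
      have e0 := hε 0
      have e1 := hε 1
      have e2 := hε 2
      have e3 := hε 3
      simp only [Fin.sum_univ_four, Matrix.cons_val_zero, Matrix.cons_val_one, Matrix.cons_val,
        map_add, map_zsmul, LinearMap.add_apply, LinearMap.smul_apply, hn, m1, m2, m3, c1, c2, c3,
        c1', c2', c3', d1, d2, d3, h.z12, h.zr2, h.zq1, zsmul_eq_mul] at e0 e1 e2 e3
      obtain ⟨z0, e0⟩ := e0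
      obtain ⟨z1, e1⟩ := e1
      obtain ⟨z2, e2⟩ := e2
      obtain ⟨z3, e3⟩ := e3
      have f1 : Even (ε 1) := f3_even_of o (z := z0 - ε 0 * μ) (by push_cast; linarith)
      have f2 : Even (ε 2) := f3_even_of o (z := z3 - ε 3 * μ) (by push_cast; linarith)
      have f0 : Even (ε 0 + ε 2) := f3_even_of o (z := z1 - ε 1 * μ) (by push_cast; linarith)
      have f3 : Even (ε 1 + ε 3) := f3_even_of o (z := z2 - ε 2 * μ) (by push_cast; linarith)
      have f0' : Even (ε 0) := (Int.even_add.1 f0).2 f2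
      have f3' : Even (ε 3) := (Int.even_add.1 f3).1 f1
      intro i
      fin_cases i
      · exact f0'
      · exact f1
      · exact f2
      · exact f3'
  · refine f3_all_even hF fun x hx y hy => ?_
    obtain ⟨c1, c2, c3, c4, e, -, -, -, -, -, he⟩ := beta_coord hF.toK5 h hx
    obtain ⟨n1, hn1⟩ := h.h1.2.2.1 y hy
    obtain ⟨n2, hn2⟩ := h.hr.2.2.1 y hy
    obtain ⟨n3, hn3⟩ := h.hq.2.2.1 y hy
    obtain ⟨n4, hn4⟩ := h.h2.2.2.1 y hy
    obtain ⟨-, -, -, -, n5, -, -, -, -, hn5, -⟩ := beta_coord hF.toK5 h hy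
    obtain ⟨w, hw⟩ := hF.even.2 s3 h.h3.1
    rw [hn] at hn1
    rw [h.rr, hn] at hn2
    rw [h.qq, hn] at hn3
    rw [h.ss, hn] at hn4
    rw [hw] at hn5
    obtain ⟨n, hb⟩ := hF.even.1 x hx y hy
    have h8 := congrArg (fun v => B y v) he
    simp only [map_smul, map_add, smul_eq_mul] at h8
    refine f3_odd_mul (k := 5) (m := μ * ((4 * c1 - 3 * c2 + 2 * c3 - c4) * n1 +
        (-3 * c1 + 6 * c2 - 4 * c3 + 2 * c4) * n2 + (2 * c1 - 4 * c2 + 6 * c3 - 3 * c4) * n3 +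
        (-c1 + 2 * c2 - 3 * c3 + 4 * c4) * n4) + 5 * e * (n5 * w)) (by decide) hb ?_
    rw [hs x y]
    push_cast
    have k1 : B y s1 = 2 * μ * n1 := by linarith
    have k2 : B y r = 2 * μ * n2 := by linarith
    have k3 : B y q = 2 * μ * n3 := by linarith
    have k4 : B y s2 = 2 * μ * n4 := by linarith
    rw [k1, k2, k3, k4, hn5] at h8
    linear_combination h8

theorem alpha_symm {B : LinearMap.BilinForm ℚ V} (hs : ∀ x y, B x y = B y x)
    {K : AddSubgroup V} {s1 r s2 q s3 : V} (h : Alpha B K s1 r s2 q s3) :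
    Alpha B K s2 q s1 r s3 := by
  exact
    { h1 := h.h2, hr := h.hq, h2 := h.h1, hq := h.hr, h3 := h.h3, rr := h.qq, rs := h.qs,
      qq := h.rr, qs := h.rs, z12 := by rw [hs]; exact h.z12
      z13 := h.z23, z23 := h.z13, zr2 := h.zq1, zr3 := h.zq3, zq1 := h.zr2, zq3 := h.zr3
      zrq := by rw [hs]; exact h.zrq }

/-- `(s2,s2) = 4y`, `(s3,s3) = 4z` is impossible -/
theorem f3_alpha_aux {B : LinearMap.BilinForm ℚ V} {K : AddSubgroup V} (hF : F2 B K)
    {s1 r s2 q s3 : V} (h : Alpha B K s1 r s2 q s3) {y z : ℕ} (oy : Odd y) (oz : Odd z)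
    (n2 : B s2 s2 = 4 * y) (n3 : B s3 s3 = 4 * z) : False := by
  have hs := hF.symm
  obtain ⟨a, ha⟩ := oy
  obtain ⟨b, hb⟩ := oz
  have hrad : s2 + s3 ∈ Rad B K 2 := by
    refine ⟨K.add_mem h.h2.1 h.h3.1, fun x hx => ?_⟩
    obtain ⟨n, hn⟩ := h.h2.2.2.1 x hx
    obtain ⟨-, -, -, -, e, -, he, -⟩ := alpha_coord hF.toK5 h hx
    refine ⟨n * y + e * (2 * z), ?_⟩
    rw [map_add, LinearMap.add_apply, hs s2 x, hs s3 x, he, n3]
    rw [n2] at hn
    push_cast
    linarith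
  have hnorm : B (s2 + s3) (s2 + s3) = 8 * ((a + b + 1 : ℤ) : ℚ) := by
    simp only [map_add, LinearMap.add_apply]
    rw [hs s3 s2, h.z23, n2, n3, ha, hb]
    push_cast
    ring
  obtain ⟨k', hk', hkk⟩ := hF.star _ hrad ⟨_, hnorm⟩
  obtain ⟨n, hn⟩ := h.hq.2.2.1 k' hk'
  rw [h.qq, n2] at hn
  have h1 : B (s2 + s3) q = 2 * y := by
    have h2 := h.qs
    rw [n2] at h2
    rw [map_add, LinearMap.add_apply, hs s2 q, hs s3 q, h.zq3]
    linarith
  rw [hkk, map_zsmul, LinearMap.smul_apply, zsmul_eq_mul] at h1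
  push_cast at h1
  rw [hn] at h1
  have hy0 : (y : ℚ) ≠ 0 := by
    rw [ha]
    have : (0 : ℚ) ≤ a := Nat.cast_nonneg a
    push_cast
    positivity
  have h2 : (2 * (n : ℚ) - 1) * y = 0 := by linarith
  rcases mul_eq_zero.1 h2 with h3 | h3
  · have h4 : 2 * n - 1 = 0 := by exact_mod_cast h3
    omega
  · exact hy0 h3

/-- Row [RH-F3]: `Alpha` in `F_2`: the norms are `2x, 4y; 2z` or `4x, 2y; 2z`.

Proof.  Each of the norms `(s_i,s_i)` is `2·odd` or `4·odd` (`root_norm`).  Both `(s1,s1)`, `(s2,s2)`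
are `2·odd`: `pf4` with `(s1,r,s2,q)` (`(s1,r)`, `(s2,q)` odd).  Both are `4·odd`: by `alpha_coord`
`9(x,y) ∈ ½(s1,s1)ℤ + ½(s2,s2)ℤ + 9(s3,s3)ℤ`, so all products are even, contradiction.
Say `(s2,s2) = 4y` (else `alpha_symm`) and suppose `(s3,s3) = 4z`.  Let `k = s2 + s3`,
`(k,k) = 4(y+z) ∈ 8ℤ`.  `(x,s2) ∈ 2yℤ` and `(x,s3) ∈ 4zℤ` (`alpha_coord`) for `x ∈ K`, so
`k ∈ Rad B K 2`; by `star`, `k = 2k'`, `k' ∈ K`.  `(k',q) = ½(s2,q) = y`, but
`2(k',q) ∈ (q,q)ℤ = 4yℤ`: contradiction. -/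
theorem f2_alpha {B : LinearMap.BilinForm ℚ V} {K : AddSubgroup V} (hF : F2 B K)
    {s1 r s2 q s3 : V} (h : Alpha B K s1 r s2 q s3) :
    ∃ x y z : ℕ, Odd x ∧ Odd y ∧ Odd z ∧ B s3 s3 = 2 * z ∧
      ((B s1 s1 = 2 * x ∧ B s2 s2 = 4 * y) ∨ (B s1 s1 = 4 * x ∧ B s2 s2 = 2 * y)) := by
  have hs := hF.symm
  obtain ⟨x, ox, -, h1⟩ := (root_norm h.h1).2.1 hF
  obtain ⟨y, oy, -, h2⟩ := (root_norm h.h2).2.1 hF
  obtain ⟨z, oz, -, h3⟩ := (root_norm h.h3).2.1 hF
  have b1 : 2 * B s1 r = B s1 s1 := by rw [hs]; exact h.rs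
  have b3 : 2 * B s2 q = B s2 s2 := by rw [hs]; exact h.qs
  rcases h1 with h1 | h1 <;> rcases h2 with h2 | h2
  · -- both `2 odd`
    exfalso
    have c1 : B s1 r = x := by rw [h1] at b1; linarith
    have c3 : B s2 q = y := by rw [h2] at b3; linarith
    have c1' : B r s1 = x := by rw [hs]; exact c1
    have c3' : B q s2 = y := by rw [hs]; exact c3
    have d1 : B s2 s1 = 0 := by rw [hs]; exact h.z12
    have d2 : B s2 r = 0 := by rw [hs]; exact h.zr2
    have d3 : B s1 q = 0 := by rw [hs]; exact h.zq1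
    have d4 : B q r = 0 := by rw [hs]; exact h.zrq
    have m1 : B r r = 2 * x := h.rr.trans h1
    have m3 : B q q = 2 * y := h.qq.trans h2
    refine pf4 hF.idx ![s1, r, s2, q] ?_ ?_
    · intro i
      fin_cases i
      · exact h.h1.1
      · exact h.hr.1
      · exact h.h2.1
      · exact h.hq.1
    · intro ε hε
      have e0 := hε 0
      have e1 := hε 1
      have e2 := hε 2
      have e3 := hε 3
      simp only [Fin.sum_univ_four, Matrix.cons_val_zero, Matrix.cons_val_one, Matrix.cons_val,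
        map_add, map_zsmul, LinearMap.add_apply, LinearMap.smul_apply, h1, h2, m1, m3, c1, c3,
        c1', c3', d1, d2, d3, d4, h.z12, h.zr2, h.zq1, h.zrq, zsmul_eq_mul] at e0 e1 e2 e3
      obtain ⟨z0, e0⟩ := e0
      obtain ⟨z1, e1⟩ := e1
      obtain ⟨z2, e2⟩ := e2
      obtain ⟨z3, e3⟩ := e3
      have f1 : Even (ε 1) := f3_even_of ox (z := z0 - ε 0 * x) (by push_cast; linarith)
      have f0 : Even (ε 0) := f3_even_of ox (z := z1 - ε 1 * x) (by push_cast; linarith)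
      have f3 : Even (ε 3) := f3_even_of oy (z := z2 - ε 2 * y) (by push_cast; linarith)
      have f2 : Even (ε 2) := f3_even_of oy (z := z3 - ε 3 * y) (by push_cast; linarith)
      intro i
      fin_cases i
      · exact f0
      · exact f1
      · exact f2
      · exact f3
  · rcases h3 with h3 | h3
    · exact ⟨x, y, z, ox, oy, oz, h3, Or.inl ⟨h1, h2⟩⟩
    · exact (f3_alpha_aux hF h oy oz h2 h3).elim
  · rcases h3 with h3 | h3
    · exact ⟨x, y, z, ox, oy, oz, h3, Or.inr ⟨h1, h2⟩⟩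
    · exact (f3_alpha_aux hF (alpha_symm hs h) ox oz h1 h3).elim
  · -- both `4 odd`
    exfalso
    refine f3_all_even hF fun u hu v hv => ?_
    obtain ⟨a, b, c, d, e, he, -⟩ := alpha_coord hF.toK5 h hu
    obtain ⟨n1, hn1⟩ := h.h1.2.2.1 v hv
    obtain ⟨n2, hn2⟩ := h.hr.2.2.1 v hv
    obtain ⟨n3, hn3⟩ := h.h2.2.2.1 v hv
    obtain ⟨n4, hn4⟩ := h.hq.2.2.1 v hv
    obtain ⟨-, -, -, -, n5, -, hn5, -⟩ := alpha_coord hF.toK5 h hv
    obtain ⟨w, hw⟩ := hF.even.2 s3 h.h3.1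
    rw [h1] at hn1
    rw [h.rr, h1] at hn2
    rw [h2] at hn3
    rw [h.qq, h2] at hn4
    rw [hw] at hn5
    obtain ⟨n, hb⟩ := hF.even.1 u hu v hv
    have h8 := congrArg (fun t => B v t) he
    simp only [map_smul, map_add, smul_eq_mul] at h8
    refine f3_odd_mul (k := 3) (m := x * (a * n1 + b * n2) + y * (c * n3 + d * n4) +
      3 * e * (n5 * w)) (by decide) hb ?_
    rw [hs u v]
    push_cast
    have k1 : B v s1 = 2 * x * n1 := by linarith
    have k2 : B v r = 2 * x * n2 := by linarith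
    have k3 : B v s2 = 2 * y * n3 := by linarith
    have k4 : B v q = 2 * y * n4 := by linarith
    rw [k1, k2, k3, k4, hn5] at h8
    linear_combination h8

end RH6
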