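import Pool.Agent.RH6.F3

namespace RH6

variable {V : Type*} [AddCommGroup V] [Module ℚ V] [FiniteDimensional ℚ V]

/-- products with the third vector of `Alpha` -/
theorem f4_third {B : LinearMap.BilinForm ℚ V} {K : AddSubgroup V} (hK : K5 B K)
    {s1 r s2 q s3 : V} (h : Alpha B K s1 r s2 q s3) {x : V} (hx : x ∈ K) :
    ∃ e : ℤ, B x s3 = e * B s3 s3 := by
  obtain ⟨_, _, _, _, e, _, h1, _⟩ := alpha_coord hK h hx
  exact ⟨e, h1⟩

/-- `c m = 2 e m` is impossible for odd `c` and `m ≠ 0` -/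
theorem f4_odd {m : ℚ} (hm : m ≠ 0) {c e : ℤ} (hc : Odd c) (h : (c : ℚ) * m = 2 * e * m) :
    False := by
  have h1 : (c : ℚ) = 2 * e := mul_right_cancel₀ hm h
  have h2 : c = 2 * e := by exact_mod_cast h1
  obtain ⟨d, hd⟩ := hc
  omega

theorem f4_main {N : ℕ} {B : LinearMap.BilinForm ℚ V} {K : AddSubgroup V}
    (hX : Ctx N B K) (hF : F2 B K) {s1 r s2 q s3 : V} (h : Alpha B K s1 r s2 q s3)
    {x y z : ℕ} (ox : Odd x) (oy : Odd y) (oz : Odd z) (n1 : B s1 s1 = 2 * x)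
    (n2 : B s2 s2 = 4 * y) (n3 : B s3 s3 = 2 * z) :
    ∃ K', Ctx N B K' ∧ F2 B K' ∧ HIso N B K K' ∧ Framed B K' := by
  have hs := hF.symm
  have hx0 : (x : ℚ) ≠ 0 := by
    have := ox.pos
    exact_mod_cast this.ne'
  have hy0 : (y : ℚ) ≠ 0 := by
    have := oy.pos
    exact_mod_cast this.ne'
  have hz0 : (z : ℚ) ≠ 0 := by
    have := oz.pos
    exact_mod_cast this.ne'
  obtain ⟨m, ε, hm, hε, hev⟩ : ∃ m ε : ℤ, (x : ℤ) + z = 2 * m ∧ (ε = 0 ∨ ε = 1) ∧
      Even (m + ε * y) := by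
    obtain ⟨a, ha⟩ := ox
    obtain ⟨b, hb⟩ := oz
    obtain ⟨c, hc⟩ := oy
    rcases Int.even_or_odd ((a : ℤ) + b + 1) with h0 | h0
    · exact ⟨a + b + 1, 0, by rw [ha, hb]; push_cast; ring, Or.inl rfl, by simpa using h0⟩
    · refine ⟨a + b + 1, 1, by rw [ha, hb]; push_cast; ring, Or.inr rfl, ?_⟩
      rw [one_mul]
      refine h0.add_odd ?_
      exact ⟨c, by rw [hc]; push_cast; ring⟩
  have hεε : (ε : ℚ) * ε = ε := by
    rcases hε with rfl | rfl <;> norm_num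
  have hmq : (x : ℚ) + z = 2 * m := by exact_mod_cast hm
  obtain ⟨k, hkd⟩ : ∃ k : V, k = s1 + s3 + (ε : ℚ) • s2 := ⟨_, rfl⟩
  have hk : k ∈ K := by
    rw [hkd, Int.cast_smul_eq_zsmul]
    exact K.add_mem (K.add_mem h.h1.1 h.h3.1) (K.zsmul_mem h.h2.1 ε)
  have z31 : B s3 s1 = 0 := by rw [hs, h.z13]
  have z21 : B s2 s1 = 0 := by rw [hs, h.z12]
  have z32 : B s3 s2 = 0 := by rw [hs, h.z23]
  -- products with `k`
  have kw : ∀ w, B w k = B w s1 + B w s3 + ε * B w s2 := by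
    intro w
    rw [hkd, map_add, map_add, map_smul, smul_eq_mul]
  have k1 : B k s1 = 1 * B s1 s1 := by
    rw [hs, kw, h.z13, h.z12]
    ring
  have k2 : B k s2 = ε * B s2 s2 := by
    rw [hs, kw, z21, h.z23]
    ring
  have k3 : B k s3 = 1 * B s3 s3 := by
    rw [hs, kw, z31, z32]
    ring
  have rk : B r k = x := by
    rw [kw, h.zr3, h.zr2]
    have := h.rs
    rw [n1] at this
    linarith
  have kr : B k r = x := by rw [hs, rk]
  have qk : B q k = ε * (2 * y) := by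
    rw [kw, h.zq1, h.zq3]
    have := h.qs
    rw [n2] at this
    have h2 : B q s2 = 2 * y := by linarith
    rw [h2]
    ring
  have kk : B k k = 4 * ((m + ε * y : ℤ) : ℚ) := by
    rw [kw, k1, k2, k3, n1, n2, n3]
    push_cast
    linear_combination (4 * (y : ℚ)) * hεε + 2 * hmq
  have h1 : ∃ x₁ ∈ K, ∃ z : ℤ, B x₁ k = 2 * z + 1 := by
    obtain ⟨a, ha⟩ := ox
    refine ⟨r, h.hr.1, a, ?_⟩
    rw [rk, ha]
    push_cast
    ring
  obtain ⟨hX', hF', hI'⟩ := step_F2 hX hF hk kk h1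
  refine ⟨Nb2 B K k (m + ε * y), hX', hF', hI', ?_⟩
  by_contra hFr
  -- no vector `t s` with `(s,s3) = 0` is of the form `X - (a/2) k`, `a` odd
  have hp3 : ∀ s, B s s3 = 0 → ∀ t : ℚ, ∀ X ∈ K, ∀ a : ℤ, Odd a →
      t • s ≠ X - ((a : ℚ) / 2) • k := by
    intro s hss t X hXK a ha he
    have h2 : B (t • s) s3 = B (X - ((a : ℚ) / 2) • k) s3 := by rw [he]
    rw [map_smul, LinearMap.smul_apply, map_sub, LinearMap.sub_apply, map_smul,
      LinearMap.smul_apply, smul_eq_mul, smul_eq_mul, hss, k3, n3] at h2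
    obtain ⟨e, he'⟩ := f4_third hF.toK5 h hXK
    rw [he', n3] at h2
    exact f4_odd hz0 ha (e := e) (by linear_combination h2)
  have r1 : Rt B (Nb2 B K k (m + ε * y)) s1 := by
    refine rt_nb2 hs hk (y := 1) h.h1 ?_ ?_ ?_ (hp3 s1 h.z13)
    · rw [n1]
      have := ox.pos
      positivity
    · rw [k1]
      push_cast
      ring
    · exact ⟨x, by rw [n1]; push_cast; ring⟩
  have r2 : Rt B (Nb2 B K k (m + ε * y)) s2 := by
    refine rt_nb2 hs hk (y := ε) h.h2 ?_ k2 ?_ (hp3 s2 h.z23)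
    · rw [n2]
      have := oy.pos
      positivity
    · exact ⟨ε * (2 * y), by rw [n2]; push_cast; ring⟩
  have r3 : Rt B (Nb2 B K k (m + ε * y)) s3 := by
    refine rt_nb2 hs hk (y := 1) h.h3 ?_ ?_ ?_ ?_
    · rw [n3]
      have := oz.pos
      positivity
    · rw [k3]
      push_cast
      ring
    · exact ⟨z, by rw [n3]; push_cast; ring⟩
    · intro t X hXK a ha he
      have h2 : B (t • s3) r = B (X - ((a : ℚ) / 2) • k) r := by rw [he]
      rw [map_smul, LinearMap.smul_apply, map_sub, LinearMap.sub_apply, map_smul,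
        LinearMap.smul_apply, smul_eq_mul, smul_eq_mul, hs s3 r, h.zr3, kr] at h2
      obtain ⟨w, hw⟩ := hF.even.1 X hXK r h.hr.1
      rw [hw] at h2
      have h3 : a * (x : ℤ) = 2 * w := by
        have : ((a * (x : ℤ) : ℤ) : ℚ) = ((2 * w : ℤ) : ℚ) := by
          push_cast
          linarith
        exact_mod_cast this
      have h4 : Odd (a * (x : ℤ)) := ha.mul (by exact_mod_cast ox)
      rw [h3] at h4
      exact (Int.not_odd_iff_even.2 ⟨w, by ring⟩) h4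
  have hN : 0 < N := by
    rcases hX.hN with h0 | h0 <;> omega
  obtain ⟨t1, t2, t3, hset, hcase⟩ := root_thm3 hF'.toK5 (CF_rspan hF'.toK5 hN hX'.cf) hFr
    r1 r2 r3 h.z12 h.z13 h.z23
  rcases hcase with ⟨r', q', hA⟩ | ⟨r', q', t2', _, hB⟩ | ⟨r', q', t3', hG⟩
  · -- the third vector
    have ht3 : t3 = s1 ∨ t3 = s2 ∨ t3 = s3 := by
      have h2 : t3 ∈ ({t1, t2, t3} : Set V) := by simp
      rw [hset] at h2
      simpa using h2
    -- `w = -k/2` is in the neighbour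
    have hw : -((1 / 2 : ℚ) • k) ∈ Nb2 B K k (m + ε * y) := by
      obtain ⟨c, hc⟩ := hev
      refine ⟨0, K.zero_mem, 1, -c, ?_, ?_⟩
      · rw [zero_sub]
        push_cast
        rfl
      · rw [hc, map_zero, LinearMap.zero_apply]
        push_cast
        ring
    rcases ht3 with rfl | rfl | rfl
    · obtain ⟨e, he⟩ := f4_third hF'.toK5 hA hw
      rw [map_neg, LinearMap.neg_apply, map_smul, LinearMap.smul_apply, smul_eq_mul, k1, n1] at he
      exact f4_odd hx0 (c := -1) (e := e) ⟨-1, by norm_num⟩ (by push_cast; linear_combination he)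
    · rcases hε with h0 | h0
      · have hq : q ∈ Nb2 B K k (m + ε * y) := by
          refine ⟨q, h.hq.1, 0, 0, by simp, ?_⟩
          rw [qk, h0]
          push_cast
          ring
        obtain ⟨e, he⟩ := f4_third hF'.toK5 hA hq
        have h2 := h.qs
        rw [he, n2] at h2
        exact f4_odd hy0 (c := 1) (e := e) ⟨0, by norm_num⟩ (by push_cast; linarith)
      · obtain ⟨e, he⟩ := f4_third hF'.toK5 hA hw
        rw [map_neg, LinearMap.neg_apply, map_smul, LinearMap.smul_apply, smul_eq_mul, k2, n2,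
          h0] at he
        push_cast at he
        exact f4_odd hy0 (c := -1) (e := e) ⟨-1, by norm_num⟩ (by push_cast; linarith)
    · obtain ⟨e, he⟩ := f4_third hF'.toK5 hA hw
      rw [map_neg, LinearMap.neg_apply, map_smul, LinearMap.smul_apply, smul_eq_mul, k3, n3] at he
      exact f4_odd hz0 (c := -1) (e := e) ⟨-1, by norm_num⟩ (by push_cast; linear_combination he)
  · exact f2_no_beta hF' hB
  · exact f2_no_gamma hF' hG

/-- Row [RH-F4]: framing in the family `F_2`.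

Proof.  If `K` is framed take `K' = K`.  Otherwise `CF_rspan`, `root_thm`, `f2_no_gamma`,
`f2_no_beta` give `Alpha`, and by `f2_alpha` (and `alpha_symm`) we may assume `(s1,s1) = (r,r) = 2x`,
`(s2,s2) = (q,q) = 4y`, `(s3,s3) = 2z`, `x,y,z` odd.  Let `ε ∈ {0,1}` be such that
`u = (x+z)/2 + ε y` is even, and `k = s1 + s3 + ε s2`, `(k,k) = 2x + 2z + 4εy = 4u`, `(r,k) = x` odd.
`K' = Nb2 B K k u`: `step_F2`.  Suppose `K'` is not framed.
(a) `s1,s2,s3` are roots of `K'` by `rt_nb2`: `(k,s1) = (s1,s1)`, `(k,s3) = (s3,s3)`,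
`(k,s2) = ε(s2,s2)`.  If `t s1` or `t s2` is `X - (a/2) k` with `X ∈ K`, `a` odd: the product with `s3`
gives `(X,s3) = a z`, but `(X,s3) ∈ 2zℤ` by `alpha_coord`.  If `t s3 = X - (a/2)k`: the product with
`r` gives `(X,r) = a x/2`, not an integer.
(b) `root_thm3` for `K'`; by `f2_no_beta`, `f2_no_gamma` we have `Alpha` for `K'` with third vector
`t₃ ∈ {s1,s2,s3}`, and `(w,t₃) ∈ (t₃,t₃)ℤ` for all `w ∈ K'` (`alpha_coord`).
(c) `w = -k/2 ∈ K'` (`X = 0`, `a = 1`, `u` even): `(w,s1) = -x ∉ 2xℤ`, `(w,s3) = -z ∉ 2zℤ`,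
`(w,s2) = -2εy ∉ 4yℤ` if `ε = 1`; if `ε = 0`, then `q ∈ K'` (`(q,k) = 0`) and `(q,s2) = 2y ∉ 4yℤ`.
Contradiction. -/
theorem frame_F2 {N : ℕ} {B : LinearMap.BilinForm ℚ V} {K : AddSubgroup V}
    (hX : Ctx N B K) (hF : F2 B K) :
    ∃ K', Ctx N B K' ∧ F2 B K' ∧ HIso N B K K' ∧ Framed B K' := by
  by_cases hFr : Framed B K
  · exact ⟨K, hX, hF, HIso_refl N B K, hFr⟩
  have hN : 0 < N := by
    rcases hX.hN with h0 | h0 <;> omega
  rcases root_thm hF.toK5 (CF_rspan hF.toK5 hN hX.cf) hFr with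
    ⟨s1, r, s2, q, s3, h⟩ | ⟨s1, r, q, s2, s3, h⟩ | ⟨s1, r, s2, q, s3, h⟩
  · obtain ⟨x, y, z, ox, oy, oz, n3, ⟨n1, n2⟩ | ⟨n1, n2⟩⟩ := f2_alpha hF h
    · exact f4_main hX hF h ox oy oz n1 n2 n3
    · exact f4_main hX hF (alpha_symm hF.symm h) oy ox oz n2 n1 n3
  · exact absurd h (fun h => f2_no_beta hF h)
  · exact absurd h (fun h => f2_no_gamma hF h)

end RH6
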