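import Pool.Agent.RH6.N5
import Pool.Agent.RH6.R6
import Pool.Agent.RH6.R7

namespace RH6

variable {V : Type*} [AddCommGroup V] [Module ℚ V] [FiniteDimensional ℚ V]

omit [FiniteDimensional ℚ V] in
theorem f5_swap {B : LinearMap.BilinForm ℚ V} (hs : ∀ x y, B x y = B y x) {K : AddSubgroup V}
    {s1 r s2 q s3 : V} (h : Alpha B K s1 r s2 q s3) : Alpha B K s2 q s1 r s3 where
  h1 := h.h2
  hr := h.hq
  h2 := h.h1
  hq := h.hr
  h3 := h.h3
  rr := h.qq
  rs := h.qs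
  qq := h.rr
  qs := h.rs
  z12 := by rw [hs]; exact h.z12
  z13 := h.z23
  z23 := h.z13
  zr2 := h.zq1
  zr3 := h.zq3
  zq1 := h.zr2
  zq3 := h.zr3
  zrq := by rw [hs]; exact h.zrq

/-- coordinates, with the congruences modulo 3 -/
theorem f5_coord {B : LinearMap.BilinForm ℚ V} {K : AddSubgroup V} (hK : K5 B K)
    {s1 r s2 q s3 : V} (h : Alpha B K s1 r s2 q s3) {v : V} (hv : v ∈ K) :
    ∃ b d e k l : ℤ, (3 : ℚ) • v = ((b : ℚ) + 3 * k) • s1 + (b : ℚ) • r +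
      ((d : ℚ) + 3 * l) • s2 + (d : ℚ) • q + (3 * e : ℚ) • s3 ∧
      B v ((2 : ℚ) • r - s1) = B s1 s1 / 2 * b ∧ B v ((2 : ℚ) • q - s2) = B s2 s2 / 2 * d := by
  obtain ⟨a, b, c, d, e, h3, -, e1, e2, e3, e4⟩ := alpha_coord hK h hv
  obtain ⟨m, hm⟩ := h.h1.2.2.1 v hv
  obtain ⟨m', hm'⟩ := h.h2.2.2.1 v hv
  have n1 : B s1 s1 ≠ 0 := (hK.pos _ h.h1.2.1).ne'
  have n2 : B s2 s2 ≠ 0 := (hK.pos _ h.h2.2.1).ne'
  have k1 : (2 * a + b : ℚ) = 3 * m := by
    rw [e1] at hm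
    have := mul_right_cancel₀ n1 hm
    linarith
  have k2 : (2 * c + d : ℚ) = 3 * m' := by
    rw [e3] at hm'
    have := mul_right_cancel₀ n2 hm'
    linarith
  refine ⟨b, d, e, a - m, c - m', ?_, ?_, ?_⟩
  · rw [h3]
    have j1 : (b : ℚ) + 3 * ((a - m : ℤ) : ℚ) = a := by
      push_cast
      linarith
    have j2 : (d : ℚ) + 3 * ((c - m' : ℤ) : ℚ) = c := by
      push_cast
      linarith
    rw [j1, j2]
  · rw [map_sub, map_smul, smul_eq_mul]
    linarith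
  · rw [map_sub, map_smul, smul_eq_mul]
    linarith

/-- step (a) -/
theorem f5_core {B : LinearMap.BilinForm ℚ V} {K : AddSubgroup V} (hK : K5 B K)
    (hU : ¬ Framed B K) {s1 r s2 q s3 : V} (h : Alpha B K s1 r s2 q s3)
    (hc : (∀ v ∈ K, ∀ b : ℤ, B v ((2 : ℚ) • r - s1) = B s1 s1 / 2 * b → (3 : ℤ) ∣ b) ∨
      (1 / 3 : ℚ) • (s1 + r) ∈ K) : False := by
  have n1 : 0 < B s1 s1 := hK.pos _ h.h1.2.1
  have hsr : B s1 r = B r s1 := hK.symm _ _
  have hrs := h.rs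
  set u := (2 : ℚ) • r - s1 with hu
  have hus1 : B u s1 = 0 := by
    rw [hu, map_sub, map_smul, LinearMap.sub_apply, LinearMap.smul_apply, smul_eq_mul]
    linarith
  have hus2 : B u s2 = 0 := by
    rw [hu, map_sub, map_smul, LinearMap.sub_apply, LinearMap.smul_apply, smul_eq_mul, h.zr2,
      h.z12]
    ring
  have hus3 : B u s3 = 0 := by
    rw [hu, map_sub, map_smul, LinearMap.sub_apply, LinearMap.smul_apply, smul_eq_mul, h.zr3,
      h.z13]
    ring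
  have huu : B u u = 3 * B s1 s1 := by
    have : B u u = 2 * B u r - B u s1 := by
      conv_lhs => rw [show B u u = B u ((2 : ℚ) • r - s1) from rfl]
      rw [map_sub, map_smul, smul_eq_mul]
    rw [this, hus1, hu, map_sub, map_smul, LinearMap.sub_apply, LinearMap.smul_apply, smul_eq_mul,
      hsr, h.rr]
    linarith
  have hu0 : u ≠ 0 := by
    intro h0
    rw [h0, map_zero] at huu
    have : (0 : ℚ) = 3 * B s1 s1 := huu
    linarith
  have huK : u ∈ K := by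
    rw [hu, two_smul]
    exact K.sub_mem (K.add_mem h.hr.1 h.hr.1) h.h1.1
  obtain ⟨y, hyK, hy0, ⟨f, hf⟩, hprim⟩ := exists_prim hK.lat hu0
  obtain ⟨z, hz⟩ := hprim f (by rw [← hf]; exact huK)
  have hf0 : f ≠ 0 := by
    rintro rfl
    exact hu0 (by rw [hf, zero_smul])
  have hyy : 0 < B y y := hK.pos y hy0
  have hfyy : f * f * B y y = 3 * B s1 s1 := by
    rw [← huu, hf]
    simp only [map_smul, LinearMap.smul_apply, smul_eq_mul]
    ring
  have hbu : ∀ w, B w u = f * B w y := by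
    intro w
    rw [hf, map_smul, smul_eq_mul]
  have hys : ∀ w, B u w = 0 → B y w = 0 := by
    intro w hw
    rw [hf, map_smul, LinearMap.smul_apply, smul_eq_mul] at hw
    exact (mul_eq_zero.1 hw).resolve_left hf0
  have hyR : Rt B K y := by
    refine ⟨hyK, hy0, ?_, hprim⟩
    intro v hv
    obtain ⟨b, d, e, k, l, -, hb, -⟩ := f5_coord hK h hv
    have hm : ∃ m : ℤ, f * b = 3 * m := by
      rcases hc with hc | hc
      · obtain ⟨b', hb'⟩ := hc v hv b hb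
        refine ⟨z * b', ?_⟩
        rw [hz, hb']
        push_cast
        ring
      · have h1 : (f / 3) • y ∈ K := by
          have h2 : (f / 3) • y = (1 / 3 : ℚ) • (s1 + r) + (1 / 3 : ℚ) • (s1 + r) - s1 := by
            have h3 : (f / 3) • y = (1 / 3 : ℚ) • u := by
              rw [hf, smul_smul]
              congr 1
              ring
            rw [h3, hu]
            match_scalars <;> ring
          rw [h2]
          exact K.sub_mem (K.add_mem hc hc) h.h1.1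
        obtain ⟨g, hg⟩ := hprim _ h1
        refine ⟨g * b, ?_⟩
        push_cast
        rw [← hg]
        ring
    obtain ⟨m, hm⟩ := hm
    refine ⟨m, ?_⟩
    have h1 : f * B v y = B s1 s1 / 2 * b := by rw [← hbu]; exact hb
    apply mul_left_cancel₀ hf0
    have h2 : B s1 s1 = f * f * B y y / 3 := by linarith
    have h3 : (m : ℚ) = f * b / 3 := by linarith
    rw [h3]
    calc f * (2 * B v y) = 2 * (f * B v y) := by ring
      _ = 2 * (B s1 s1 / 2 * b) := by rw [h1]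
      _ = B s1 s1 * b := by ring
      _ = f * f * B y y / 3 * b := by rw [← h2]
      _ = _ := by ring
  apply hU
  have o1 : B y s1 = 0 := hys _ hus1
  have o2 : B y s2 = 0 := hys _ hus2
  have o3 : B y s3 = 0 := hys _ hus3
  have o1' : B s1 y = 0 := by rw [hK.symm]; exact o1
  have o2' : B s2 y = 0 := by rw [hK.symm]; exact o2
  have o3' : B s3 y = 0 := by rw [hK.symm]; exact o3
  have z12 := h.z12
  have z13 := h.z13
  have z23 := h.z23
  have z21 : B s2 s1 = 0 := by rw [hK.symm]; exact z12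
  have z31 : B s3 s1 = 0 := by rw [hK.symm]; exact z13
  have z32 : B s3 s2 = 0 := by rw [hK.symm]; exact z23
  refine ext4 hK ![s1, s2, s3, y] ?_ ?_
  · intro i
    fin_cases i
    · exact h.h1
    · exact h.h2
    · exact h.h3
    · exact hyR
  · intro i j hij
    fin_cases i <;> fin_cases j <;> first
      | exact absurd rfl hij
      | assumption

/-- step (b) -/
theorem f5_b {B : LinearMap.BilinForm ℚ V} {K : AddSubgroup V} (hK : K5 B K)
    (hU : ¬ Framed B K) {s1 r s2 q s3 : V} (h : Alpha B K s1 r s2 q s3) {v : V} (hv : v ∈ K)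
    {b d : ℤ} (hb : B v ((2 : ℚ) • r - s1) = B s1 s1 / 2 * b)
    (hd : B v ((2 : ℚ) • q - s2) = B s2 s2 / 2 * d) (h3 : (3 : ℤ) ∣ d) : (3 : ℤ) ∣ b := by
  have n1 : B s1 s1 ≠ 0 := (hK.pos _ h.h1.2.1).ne'
  have n2 : B s2 s2 ≠ 0 := (hK.pos _ h.h2.2.1).ne'
  obtain ⟨b', d', e, k, l, h4, hb', hd'⟩ := f5_coord hK h hv
  have eb : b' = b := by
    rw [hb] at hb'
    have := mul_left_cancel₀ (by simpa using n1 : B s1 s1 / 2 ≠ 0) hb'
    exact_mod_cast this.symm
  have ed : d' = d := by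
    rw [hd] at hd'
    have := mul_left_cancel₀ (by simpa using n2 : B s2 s2 / 2 ≠ 0) hd'
    exact_mod_cast this.symm
  subst eb ed
  by_contra hb3
  obtain ⟨d'', hd''⟩ := h3
  apply f5_core hK hU h
  right
  -- `b (s1 + r) / 3 ∈ K`
  have h5 : (b' : ℚ) • ((1 / 3 : ℚ) • (s1 + r)) ∈ K := by
    have h6 : (b' : ℚ) • ((1 / 3 : ℚ) • (s1 + r)) =
        v - e • s3 - (d'' + l) • s2 - d'' • q - k • s1 := by
      have h7 : v = (1 / 3 : ℚ) • ((3 : ℚ) • v) := by
        rw [smul_smul]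
        norm_num
      rw [h7, h4, hd'']
      simp only [← Int.cast_smul_eq_zsmul ℚ]
      push_cast
      match_scalars <;> ring
    rw [h6]
    exact K.sub_mem (K.sub_mem (K.sub_mem (K.sub_mem hv (K.zsmul_mem h.h3.1 _))
      (K.zsmul_mem h.h2.1 _)) (K.zsmul_mem h.hq.1 _)) (K.zsmul_mem h.h1.1 _)
  have hco : IsCoprime b' 3 := by
    have : IsCoprime (3 : ℤ) b' := (Prime.coprime_iff_not_dvd Int.prime_three).2 hb3
    exact this.symm
  obtain ⟨α, β, hαβ⟩ := hco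
  have h8 : (1 / 3 : ℚ) • (s1 + r) = α • ((b' : ℚ) • ((1 / 3 : ℚ) • (s1 + r))) + β • (s1 + r) := by
    have h9 : (α : ℚ) * b' + β * 3 = 1 := by exact_mod_cast hαβ
    simp only [← Int.cast_smul_eq_zsmul ℚ]
    match_scalars <;> linear_combination (-1 / 3 : ℚ) * h9
  rw [h8]
  exact K.add_mem (K.zsmul_mem h5 _) (K.zsmul_mem (K.add_mem h.h1.1 h.hr.1) _)

/-- Row [RH-F5]: `Alpha` in an unframed lattice of `F_0`: the two norms are different.

Proof.  Suppose `(s1,s1) = (s2,s2) = 2x`, `x` odd and squarefree (`root_norm`).  For `v ∈ K` let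
`a,b,c,d,e` be as in `alpha_coord`; from `2(v,s1)/(s1,s1) = (2a+b)/3 ∈ ℤ` we get `a ≡ b mod 3` and
likewise `c ≡ d mod 3`.  Let `u₁ = 2r - s1`, `u₂ = 2q - s2`: `(u₁,v) = x b`, `(u₂,v) = x d`,
`(u₁,u₁) = 6x`, `(u₁,s_i) = 0`.
(a) Some `v ∈ K` has `3 ∤ b`, and `(s1+r)/3 ∉ K`.  Otherwise the primitive vector `y` on `ℚu₁`
(`exists_prim`), `u₁ = f y`, `f ∈ ℤ`: `2(v,y)/(y,y) = f b/3`; if `3 ∣ b` for all `v ∈ K` this is an
integer; if `(s1+r)/3 ∈ K` then `u₁/3 = 2(s1+r)/3 - s1 ∈ K`, so `3 ∣ f` and it is an integer; so `y`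
would be a root orthogonal to `s1,s2,s3`, and `ext4` says that `K` is framed.
(b) If `3 ∤ b(v)` then `3 ∤ d(v)`: otherwise `c, d` are divisible by 3 and with
`v₁ = v - e s3 - (c/3) s2 - (d/3) q ∈ K` we have `3v₁ = a s1 + b r = b (s1+r) + 3k s1`, so
`b (s1+r)/3 ∈ K`, and `s1 + r ∈ K`, so `(s1+r)/3 ∈ K`, contradiction to (a).  By symmetry
(`(s2+q)/3 ∉ K` by the same argument) `3 ∤ d` implies `3 ∤ b`.
(c) For `v` with `3 ∤ b`, `v₀ = v - e s3`: `9(v₀,v₀) = 2x(a²+ab+b²) + 2x(c²+cd+d²)`, and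
`a²+ab+b² ≡ 3b² ≡ 3 mod 9` (`a = b + 3k`), `c²+cd+d² ≡ 3 mod 9`; so `0 ≡ 12x mod 9`, `3 ∣ x`.
Let `x = 3x'`, `3 ∤ x'`.
(d) The map `v ↦ (b(v), d(v)) mod 3` is additive, and by (b) its image contains no `(b,0)`, `(0,d)`
other than 0; so there is `λ = ±1` with `b(v) + λ d(v) ≡ 0 mod 3` for all `v ∈ K`.  Let
`w = (u₁ + λu₂)/9`: `(w,v) = x'(b + λd)/3 ∈ ℤ`, so `w ∈ K^#`; `9w ∈ K`; so by `Elem` at 3
`3w ∈ K`.  But `9w = -s1 + 2r - λs2 + 2λ q`, so for `v = 3w`: `b = 2`, `d = 2λ`, and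
`b + λd = 4 ≢ 0 mod 3`: contradiction. -/
theorem alpha_ne {B : LinearMap.BilinForm ℚ V} {K : AddSubgroup V} (hF : F0 B K)
    (hU : ¬ Framed B K) {s1 r s2 q s3 : V} (h : Alpha B K s1 r s2 q s3) :
    B s1 s1 ≠ B s2 s2 := by
  intro hnn
  have hK := hF.toK5
  have hsw := f5_swap hK.symm h
  obtain ⟨x, hxo, hxs, hx⟩ := (root_norm h.h1).1 hF
  have hx2 : B s2 s2 = 2 * x := by rw [← hnn, hx]
  have hx0 : (x : ℚ) ≠ 0 := by
    intro h0
    have := hK.pos _ h.h1.2.1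
    rw [hx, h0] at this
    norm_num at this
  set u1 := (2 : ℚ) • r - s1 with hu1
  set u2 := (2 : ℚ) • q - s2 with hu2
  -- the functionals
  have hbd : ∀ v ∈ K, ∃ b d : ℤ, B v u1 = x * b ∧ B v u2 = x * d := by
    intro v hv
    obtain ⟨b, d, e, k, l, -, hb, hd⟩ := f5_coord hK h hv
    refine ⟨b, d, ?_, ?_⟩
    · rw [hb, hx]
      ring
    · rw [hd, hx2]
      ring
  have hdb : ∀ v ∈ K, ∀ b d : ℤ, B v u1 = x * b → B v u2 = x * d → ((3 : ℤ) ∣ d ↔ (3 : ℤ) ∣ b) := by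
    intro v hv b d hb hd
    have hb' : B v u1 = B s1 s1 / 2 * b := by rw [hb, hx]; ring
    have hd' : B v u2 = B s2 s2 / 2 * d := by rw [hd, hx2]; ring
    exact ⟨fun h3 => f5_b hK hU h hv hb' hd' h3, fun h3 => f5_b hK hU hsw hv hd' hb' h3⟩
  -- some `v` with `3 ∤ b`
  obtain ⟨v, hv, b, d, hb, hd, hb3⟩ : ∃ v ∈ K, ∃ b d : ℤ, B v u1 = x * b ∧ B v u2 = x * d ∧
      ¬ (3 : ℤ) ∣ b := by
    by_contra hcon
    push Not at hcon
    apply f5_core hK hU h
    left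
    intro v hv b hb
    obtain ⟨b', d', hb', hd'⟩ := hbd v hv
    have hbb : b' = b := by
      rw [← hu1, hb', hx] at hb
      have h1 : (x : ℚ) * b' = x * b := by rw [hb]; ring
      exact_mod_cast mul_left_cancel₀ hx0 h1
    rw [← hbb]
    exact hcon v hv b' d' hb' hd'
  have hd3 : ¬ (3 : ℤ) ∣ d := fun h3 => hb3 ((hdb v hv b d hb hd).1 h3)
  -- `3 ∣ x`
  have hx3 : 3 ∣ x := by
    obtain ⟨b', d', e, k, l, h4, hb', hd'⟩ := f5_coord hK h hv
    have eb : b' = b := by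
      rw [← hu1, hb, hx] at hb'
      have h1 : (x : ℚ) * b = x * b' := by rw [hb']; ring
      exact_mod_cast (mul_left_cancel₀ hx0 h1).symm
    have ed : d' = d := by
      rw [← hu2, hd, hx2] at hd'
      have h1 : (x : ℚ) * d = x * d' := by rw [hd']; ring
      exact_mod_cast (mul_left_cancel₀ hx0 h1).symm
    subst eb ed
    set v0 := v - e • s3 with hv0
    have hv0K : v0 ∈ K := K.sub_mem hv (K.zsmul_mem h.h3.1 _)
    have h5 : (3 : ℚ) • v0 = ((b' : ℚ) + 3 * k) • s1 + (b' : ℚ) • r +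
        ((d' : ℚ) + 3 * l) • s2 + (d' : ℚ) • q := by
      rw [hv0, smul_sub, h4, ← Int.cast_smul_eq_zsmul ℚ]
      match_scalars <;> ring
    obtain ⟨w, hw⟩ := hF.even.1 v0 hv0K v0 hv0K
    have h6 : B ((3 : ℚ) • v0) ((3 : ℚ) • v0) = 9 * w := by
      simp only [map_smul, LinearMap.smul_apply, smul_eq_mul, hw]
      ring
    have hrs := h.rs
    have hsr : B s1 r = B r s1 := hK.symm _ _
    have hqs := h.qs
    have hsq : B s2 q = B q s2 := hK.symm _ _
    have z21 : B s2 s1 = 0 := by rw [hK.symm]; exact h.z12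
    have z2r : B s2 r = 0 := by rw [hK.symm]; exact h.zr2
    have z1q : B s1 q = 0 := by rw [hK.symm]; exact h.zq1
    have zqr : B q r = 0 := by rw [hK.symm]; exact h.zrq
    have h7 : B ((3 : ℚ) • v0) ((3 : ℚ) • v0) =
        2 * x * ((b' + 3 * k) ^ 2 + (b' + 3 * k) * b' + b' ^ 2) +
        2 * x * ((d' + 3 * l) ^ 2 + (d' + 3 * l) * d' + d' ^ 2) := by
      rw [h5]
      simp only [map_add, map_smul, LinearMap.add_apply, LinearMap.smul_apply, smul_eq_mul,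
        h.z12, z21, h.zr2, z2r, h.zq1, z1q, h.zrq, zqr, hsr, hsq, h.rr, h.qq, hx2, hx]
      have e1 : B r s1 = x := by rw [hx] at hrs; linarith
      have e2 : B q s2 = x := by rw [hx2] at hqs; linarith
      rw [e1, e2]
      ring
    rw [h6] at h7
    have h8 : (9 * w : ℤ) = 2 * x * ((b' + 3 * k) ^ 2 + (b' + 3 * k) * b' + b' ^ 2) +
        2 * x * ((d' + 3 * l) ^ 2 + (d' + 3 * l) * d' + d' ^ 2) := by exact_mod_cast h7
    -- modulo 9
    have hb1 : ∃ j : ℤ, b' ^ 2 = 3 * j + 1 := by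
      have : b' % 3 = 1 ∨ b' % 3 = 2 := by omega
      obtain ⟨t, ht⟩ : ∃ t, b' = 3 * t + b' % 3 := ⟨b' / 3, by omega⟩
      rcases this with h9 | h9
      · refine ⟨3 * t ^ 2 + 2 * t, ?_⟩
        rw [ht, h9]
        ring
      · refine ⟨3 * t ^ 2 + 4 * t + 1, ?_⟩
        rw [ht, h9]
        ring
    have hd1 : ∃ j : ℤ, d' ^ 2 = 3 * j + 1 := by
      have : d' % 3 = 1 ∨ d' % 3 = 2 := by omega
      obtain ⟨t, ht⟩ : ∃ t, d' = 3 * t + d' % 3 := ⟨d' / 3, by omega⟩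
      rcases this with h9 | h9
      · refine ⟨3 * t ^ 2 + 2 * t, ?_⟩
        rw [ht, h9]
        ring
      · refine ⟨3 * t ^ 2 + 4 * t + 1, ?_⟩
        rw [ht, h9]
        ring
    obtain ⟨j, hj⟩ := hb1
    obtain ⟨j', hj'⟩ := hd1
    have h10 : (3 : ℤ) ∣ 4 * x := by
      refine ⟨w - 2 * x * (j + b' * k + k ^ 2 + (j' + d' * l + l ^ 2)), ?_⟩
      have : 3 * (3 * (w - 2 * x * (j + b' * k + k ^ 2 + (j' + d' * l + l ^ 2)))) =
          3 * (4 * (x : ℤ)) := by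
        linear_combination h8 + 6 * x * hj + 6 * x * hj'
      linarith
    have h11 : (3 : ℤ) ∣ x := by omega
    exact_mod_cast h11
  obtain ⟨x', hx'⟩ := hx3
  -- the sign
  obtain ⟨lam, hlam, hl3⟩ : ∃ lam : ℤ, (lam = 1 ∨ lam = -1) ∧ (3 : ℤ) ∣ b + lam * d := by
    by_cases h1 : (3 : ℤ) ∣ b + d
    · exact ⟨1, Or.inl rfl, by simpa using h1⟩
    · refine ⟨-1, Or.inr rfl, ?_⟩
      rcases (by omega : b % 3 = 1 ∨ b % 3 = 2) with h2 | h2 <;>
        rcases (by omega : d % 3 = 1 ∨ d % 3 = 2) with h3 | h3 <;> omega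
  have hll : lam * lam = 1 := by rcases hlam with rfl | rfl <;> norm_num
  have hall : ∀ w ∈ K, ∀ b' d' : ℤ, B w u1 = x * b' → B w u2 = x * d' →
      (3 : ℤ) ∣ b' + lam * d' := by
    intro w hw b' d' hb' hd'
    obtain ⟨m, hm⟩ : ∃ m : ℤ, (3 : ℤ) ∣ b' - m * b := by
      rcases (by omega : b' % 3 = 0 ∨ b' % 3 = b % 3 ∨ b' % 3 = (2 * b) % 3) with h1 | h1 | h1
      · exact ⟨0, by omega⟩
      · exact ⟨1, by omega⟩
      · exact ⟨2, by omega⟩
    have h1 : w - m • v ∈ K := K.sub_mem hw (K.zsmul_mem hv _)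
    have hlin : ∀ y, B (w - m • v) y = B w y - m * B v y := by
      intro y
      rw [← Int.cast_smul_eq_zsmul ℚ, map_sub, map_smul, LinearMap.sub_apply,
        LinearMap.smul_apply, smul_eq_mul]
    have h2 : B (w - m • v) u1 = x * ((b' - m * b : ℤ) : ℚ) := by
      rw [hlin, hb', hb]
      push_cast
      ring
    have h3 : B (w - m • v) u2 = x * ((d' - m * d : ℤ) : ℚ) := by
      rw [hlin, hd', hd]
      push_cast
      ring
    have h4 : (3 : ℤ) ∣ d' - m * d := (hdb _ h1 _ _ h2 h3).2 hm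
    have h5 : b' + lam * d' = (b' - m * b) + lam * (d' - m * d) + m * (b + lam * d) := by ring
    rw [h5]
    exact dvd_add (dvd_add hm (Dvd.dvd.mul_left h4 _)) (Dvd.dvd.mul_left hl3 _)
  -- `w = (u1 + lam u2) / 9`
  set w := (1 / 9 : ℚ) • (u1 + (lam : ℚ) • u2) with hw
  have hwd : w ∈ dualL B K := by
    intro y hy
    obtain ⟨b', d', hb', hd'⟩ := hbd y hy
    obtain ⟨m, hm⟩ := hall y hy b' d' hb' hd'
    refine ⟨x' * m, ?_⟩
    have h1 : B w y = B y w := hK.symm _ _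
    rw [h1, hw, map_smul, map_add, map_smul, smul_eq_mul, smul_eq_mul, hb', hd']
    have h2 : (b' : ℚ) + lam * d' = 3 * m := by exact_mod_cast hm
    have h3 : (x : ℚ) = 3 * x' := by exact_mod_cast hx'
    rw [h3]
    push_cast
    linear_combination (x' / 3 : ℚ) * h2
  have hu1K : u1 ∈ K := by
    rw [hu1, two_smul]
    exact K.sub_mem (K.add_mem h.hr.1 h.hr.1) h.h1.1
  have hu2K : u2 ∈ K := by
    rw [hu2, two_smul]
    exact K.sub_mem (K.add_mem h.hq.1 h.hq.1) h.h2.1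
  have h9w : ((3 : ℤ) ^ 2) • w ∈ K := by
    have : ((3 : ℤ) ^ 2) • w = u1 + lam • u2 := by
      rw [hw]
      simp only [← Int.cast_smul_eq_zsmul ℚ]
      push_cast
      match_scalars <;> ring
    rw [this]
    exact K.add_mem hu1K (K.zsmul_mem hu2K _)
  have h3w : (3 : ℤ) • w ∈ K := hF.elem 3 Nat.prime_three w hwd h9w
  have hrs := h.rs
  have hsr : B s1 r = B r s1 := hK.symm _ _
  have hqs := h.qs
  have hsq : B s2 q = B q s2 := hK.symm _ _
  have z21 : B s2 s1 = 0 := by rw [hK.symm]; exact h.z12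
  have z2r : B s2 r = 0 := by rw [hK.symm]; exact h.zr2
  have z1q : B s1 q = 0 := by rw [hK.symm]; exact h.zq1
  have zqr : B q r = 0 := by rw [hK.symm]; exact h.zrq
  have e1 : B r s1 = x := by rw [hx] at hrs; linarith
  have e2 : B q s2 = x := by rw [hx2] at hqs; linarith
  have g1 : B ((3 : ℤ) • w) u1 = x * ((2 : ℤ) : ℚ) := by
    rw [← Int.cast_smul_eq_zsmul ℚ, hw, hu1, hu2]
    simp only [map_add, map_sub, map_smul, LinearMap.add_apply, LinearMap.sub_apply,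
      LinearMap.smul_apply, smul_eq_mul, h.z12, z21, h.zr2, z2r, h.zq1, z1q, h.zrq, zqr, hsr,
      hsq, h.rr, h.qq, hx2, hx, e1, e2]
    push_cast
    ring
  have g2 : B ((3 : ℤ) • w) u2 = x * ((2 * lam : ℤ) : ℚ) := by
    rw [← Int.cast_smul_eq_zsmul ℚ, hw, hu1, hu2]
    simp only [map_add, map_sub, map_smul, LinearMap.add_apply, LinearMap.sub_apply,
      LinearMap.smul_apply, smul_eq_mul, h.z12, z21, h.zr2, z2r, h.zq1, z1q, h.zrq, zqr, hsr,
      hsq, h.rr, h.qq, hx2, hx, e1, e2]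
    push_cast
    ring
  have h12 := hall _ h3w 2 (2 * lam) g1 g2
  have h13 : (2 : ℤ) + lam * (2 * lam) = 4 := by linear_combination 2 * hll
  rw [h13] at h12
  omega

end RH6
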