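import Pool.Agent.RH6.F5
import Pool.Agent.RH6.F3

namespace RH6

/-- Row [RH-F6]: rational squares: `x, z` squarefree positive integers with `z = x λ²`,
`λ ∈ ℚ`, are equal; if `z = 5 x λ²` then `z = 5x` or `x = 5z`. -/
theorem sqfree_ratio {x z : ℕ} (hx : Squarefree x) (hz : Squarefree z) {c : ℚ}
    (h : (z : ℚ) = x * c ^ 2) : z = x := by
  have hd : (c.den : ℚ) ≠ 0 := by exact_mod_cast c.den_ne_zero
  have h1 : (z : ℚ) * (c.den : ℚ) ^ 2 = x * (c.num : ℚ) ^ 2 := by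
    have h2 : c * (c.den : ℚ) = c.num := Rat.mul_den_eq_num c
    calc (z : ℚ) * (c.den : ℚ) ^ 2 = x * (c * c.den) ^ 2 := by rw [h]; ring
      _ = _ := by rw [h2]
  have h3 : z * c.den ^ 2 = x * c.num.natAbs ^ 2 := by
    have h4 : (z : ℤ) * (c.den : ℤ) ^ 2 = x * (c.num) ^ 2 := by exact_mod_cast h1
    have h5 : (c.num.natAbs : ℤ) ^ 2 = c.num ^ 2 := by simp
    have h6 : (z : ℤ) * (c.den : ℤ) ^ 2 = x * (c.num.natAbs : ℤ) ^ 2 := by rw [h5]; exact h4
    exact_mod_cast h6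
  have hcop : Nat.Coprime (c.num.natAbs ^ 2) (c.den ^ 2) := Nat.Coprime.pow _ _ c.reduced
  have hden : c.den = 1 := by
    have h7 : c.den ^ 2 ∣ x := by
      apply Nat.Coprime.dvd_of_dvd_mul_right hcop.symm
      rw [← h3]
      exact Dvd.intro_left _ rfl
    have := hx c.den (by rw [← sq]; exact h7)
    exact Nat.isUnit_iff.1 this
  have hnum : c.num.natAbs = 1 := by
    have h7 : c.num.natAbs ^ 2 ∣ z := by
      apply Nat.Coprime.dvd_of_dvd_mul_right hcop
      rw [h3]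
      exact Dvd.intro_left _ rfl
    have := hz c.num.natAbs (by rw [← sq]; exact h7)
    exact Nat.isUnit_iff.1 this
  rw [hden, hnum] at h3
  simpa using h3

theorem sqfree_ratio5 {x z : ℕ} (hx : Squarefree x) (hz : Squarefree z) {c : ℚ}
    (h : (z : ℚ) = 5 * x * c ^ 2) : z = 5 * x ∨ x = 5 * z := by
  by_cases h5 : 5 ∣ x
  · obtain ⟨y, rfl⟩ := h5
    right
    have hy : Squarefree y := hx.squarefree_of_dvd (Dvd.intro_left _ rfl)
    have : z = y := sqfree_ratio (c := 5 * c) hy hz (by rw [h]; push_cast; ring)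
    rw [this]
  · left
    have hcop : Nat.Coprime 5 x := (Nat.Prime.coprime_iff_not_dvd (by norm_num)).2 h5
    have hy : Squarefree (5 * x) := by
      rw [Nat.squarefree_mul hcop]
      exact ⟨Nat.Prime.prime (by norm_num) |>.squarefree, hx⟩
    exact sqfree_ratio (c := c) hy hz (by rw [h]; push_cast; ring)

variable {V : Type*} [AddCommGroup V] [Module ℚ V] [FiniteDimensional ℚ V]

theorem f6_zero {B : LinearMap.BilinForm ℚ V} {K : AddSubgroup V} (hK : K5 B K) (u : Fin 5 → V)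
    (hu : LinearIndependent ℚ u) {w : V} (h : ∀ i, B w (u i) = 0) : w = 0 := by
  have htop : Submodule.span ℚ (Set.range u) = ⊤ :=
    hu.span_eq_top_of_card_eq_finrank (by rw [hK.dim]; rfl)
  have h1 : ∀ v ∈ Submodule.span ℚ (Set.range u), B w v = 0 := by
    intro v hv
    induction hv using Submodule.span_induction with
    | mem x hx =>
      obtain ⟨i, rfl⟩ := hx
      exact h i
    | zero => simp
    | add x y _ _ hx hy => rw [map_add, hx, hy, add_zero]
    | smul t x _ hx => rw [map_smul, hx, smul_zero]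
  have h2 : B w w = 0 := h1 w (by rw [htop]; trivial)
  by_contra hne
  have := hK.pos w hne
  rw [h2] at this
  exact lt_irrefl _ this

/-- five vectors with a form that separates the coordinates -/
theorem f6_indep {u1 u2 u3 u4 u5 : V}
    (h : ∀ a b c d e : ℚ, a • u1 + b • u2 + c • u3 + d • u4 + e • u5 = 0 →
      a = 0 ∧ b = 0 ∧ c = 0 ∧ d = 0 ∧ e = 0) : LinearIndependent ℚ ![u1, u2, u3, u4, u5] := by
  rw [Fintype.linearIndependent_iff]
  intro g hg
  simp only [Fin.sum_univ_five, Matrix.cons_val_zero, Matrix.cons_val_one, Matrix.cons_val] at hg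
  obtain ⟨h0, h1, h2, h3, h4⟩ := h _ _ _ _ _ hg
  intro i
  fin_cases i
  · exact h0
  · exact h1
  · exact h2
  · exact h3
  · exact h4

theorem f6_test {B : LinearMap.BilinForm ℚ V} {K : AddSubgroup V} (hK : K5 B K)
    {u1 u2 u3 u4 u5 w : V}
    (h : ∀ a b c d e : ℚ, a • u1 + b • u2 + c • u3 + d • u4 + e • u5 = 0 →
      a = 0 ∧ b = 0 ∧ c = 0 ∧ d = 0 ∧ e = 0)
    (h1 : B w u1 = 0) (h2 : B w u2 = 0) (h3 : B w u3 = 0) (h4 : B w u4 = 0) (h5 : B w u5 = 0) :
    w = 0 := by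
  refine f6_zero hK _ (f6_indep h) ?_
  intro i
  fin_cases i
  · exact h1
  · exact h2
  · exact h3
  · exact h4
  · exact h5

/-- products of a combination -/
theorem f6_prod {B : LinearMap.BilinForm ℚ V} (u1 u2 u3 u4 u5 v : V) (a b c d e : ℚ) :
    B (a • u1 + b • u2 + c • u3 + d • u4 + e • u5) v =
      a * B u1 v + b * B u2 v + c * B u3 v + d * B u4 v + e * B u5 v := by
  simp only [map_add, LinearMap.add_apply, map_smul, LinearMap.smul_apply, smul_eq_mul]

/-- a vector `y` orthogonal to `s1, s3, s2, q` (`s1, s3` orthogonal, `s2, q` an `A_2`) is a multiple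
of any nonzero vector `u` with this property -/
theorem f6_line {B : LinearMap.BilinForm ℚ V} {K : AddSubgroup V} (hK : K5 B K)
    {s1 s2 s3 q u y : V} (n1 : s1 ≠ 0) (n2 : s2 ≠ 0) (n3 : s3 ≠ 0) (nu : u ≠ 0)
    (z12 : B s1 s2 = 0) (z13 : B s1 s3 = 0) (z23 : B s2 s3 = 0)
    (qq : B q q = B s2 s2) (q2 : 2 * B q s2 = B s2 s2) (q1 : B q s1 = 0) (q3 : B q s3 = 0)
    (u1 : B u s1 = 0) (u2 : B u s2 = 0) (u3 : B u s3 = 0) (uq : B u q = 0)
    (y1 : B y s1 = 0) (y2 : B y s2 = 0) (y3 : B y s3 = 0) (yq : B y q = 0) :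
    ∃ l : ℚ, B y y = l ^ 2 * B u u := by
  have p1 := hK.pos s1 n1
  have p2 := hK.pos s2 n2
  have p3 := hK.pos s3 n3
  have pu := hK.pos u nu
  have z21 : B s2 s1 = 0 := by rw [hK.symm]; exact z12
  have z31 : B s3 s1 = 0 := by rw [hK.symm]; exact z13
  have z32 : B s3 s2 = 0 := by rw [hK.symm]; exact z23
  have z1q : B s1 q = 0 := by rw [hK.symm]; exact q1
  have z3q : B s3 q = 0 := by rw [hK.symm]; exact q3
  have z2q : 2 * B s2 q = B s2 s2 := by rw [hK.symm]; exact q2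
  have z1u : B s1 u = 0 := by rw [hK.symm]; exact u1
  have z2u : B s2 u = 0 := by rw [hK.symm]; exact u2
  have z3u : B s3 u = 0 := by rw [hK.symm]; exact u3
  have zqu : B q u = 0 := by rw [hK.symm]; exact uq
  have hind : ∀ a b c d e : ℚ, a • s1 + b • s2 + c • s3 + d • q + e • u = 0 →
      a = 0 ∧ b = 0 ∧ c = 0 ∧ d = 0 ∧ e = 0 := by
    intro a b c d e h0
    have e1 := congrArg (fun w => B w s1) h0
    have e2 := congrArg (fun w => B w s2) h0
    have e3 := congrArg (fun w => B w s3) h0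
    have e4 := congrArg (fun w => B w q) h0
    have e5 := congrArg (fun w => B w u) h0
    simp only [f6_prod, map_zero, LinearMap.zero_apply, z21, z31, z32, z1q, z3q, z1u, z2u, z3u,
      zqu, z12, z13, z23, q1, q3, u1, u2, u3, uq, qq] at e1 e2 e3 e4 e5
    have f1 : a = 0 := by
      apply mul_right_cancel₀ p1.ne'
      linear_combination e1
    have f2 : b + d / 2 = 0 := by
      apply mul_right_cancel₀ p2.ne'
      linear_combination e2 - d / 2 * q2
    have f3 : b / 2 + d = 0 := by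
      apply mul_right_cancel₀ p2.ne'
      linear_combination e4 - b / 2 * z2q
    have f4 : c = 0 := by
      apply mul_right_cancel₀ p3.ne'
      linear_combination e3
    have f5 : e = 0 := by
      apply mul_right_cancel₀ pu.ne'
      linear_combination e5
    exact ⟨f1, by linarith, f4, by linarith, f5⟩
  have key : y - (B y u / B u u) • u = 0 := by
    apply f6_test hK hind
    · rw [map_sub, LinearMap.sub_apply, map_smul, LinearMap.smul_apply, y1, u1]; simp
    · rw [map_sub, LinearMap.sub_apply, map_smul, LinearMap.smul_apply, y2, u2]; simp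
    · rw [map_sub, LinearMap.sub_apply, map_smul, LinearMap.smul_apply, y3, u3]; simp
    · rw [map_sub, LinearMap.sub_apply, map_smul, LinearMap.smul_apply, yq, uq]; simp
    · rw [map_sub, LinearMap.sub_apply, map_smul, LinearMap.smul_apply, smul_eq_mul,
        div_mul_cancel₀ _ pu.ne', sub_self]
  refine ⟨B y u / B u u, ?_⟩
  have h2 : y = (B y u / B u u) • u := sub_eq_zero.1 key
  generalize B y u / B u u = l at h2
  rw [h2, map_smul, map_smul, LinearMap.smul_apply, smul_eq_mul, smul_eq_mul]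
  ring

/-- common part of `alpha_step` and `beta_step` -/
theorem f6_common {N : ℕ} {B : LinearMap.BilinForm ℚ V} {K : AddSubgroup V}
    (hX : Ctx N B K) (hF : F0 B K) {s1 r s2 q s3 : V} (h1 : Rt B K s1) (h2 : Rt B K s2)
    (h3 : Rt B K s3) (hr : Rt B K r) (hq : Rt B K q)
    (z12 : B s1 s2 = 0) (z13 : B s1 s3 = 0) (z23 : B s2 s3 = 0)
    (rs : 2 * B r s1 = B s1 s1) (zr3 : B r s3 = 0)
    (qq : B q q = B s2 s2) (qs : 2 * B q s2 = B s2 s2) (zq1 : B q s1 = 0) (zq3 : B q s3 = 0)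
    (hc : ∀ X ∈ K, ∃ e : ℤ, B X s3 = e * B s3 s3) :
    ∃ K', Ctx N B K' ∧ F0 B K' ∧ HIso N B K K' ∧
      (Framed B K' ∨ (∃ t, Alpha B K' s2 q s3 t s1) ∨
        ∃ t s3', (s3' = s3 ∨ s3' = -s3) ∧ Beta B K' s2 q t s3' s1) := by
  have hs := hF.symm
  have z21 : B s2 s1 = 0 := by rw [hs]; exact z12
  have z31 : B s3 s1 = 0 := by rw [hs]; exact z13
  have z32 : B s3 s2 = 0 := by rw [hs]; exact z23
  have z1q : B s1 q = 0 := by rw [hs]; exact zq1
  have z3q : B s3 q = 0 := by rw [hs]; exact zq3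
  have z3r : B s3 r = 0 := by rw [hs]; exact zr3
  obtain ⟨x, ox, -, nx⟩ := (root_norm h1).1 hF
  obtain ⟨z, oz, -, nz⟩ := (root_norm h3).1 hF
  have p1 := hF.pos s1 h1.2.1
  have p2 := hF.pos s2 h2.2.1
  have p3 := hF.pos s3 h3.2.1
  have hrx : B r s1 = x := by rw [nx] at rs; linarith
  have hxr : B s1 r = x := by rw [hs]; exact hrx
  obtain ⟨a, ha⟩ := ox
  obtain ⟨c, hc'⟩ := oz
  have hk : s1 + s3 ∈ K := K.add_mem h1.1 h3.1
  set u : ℤ := a + c + 1 with hu
  have hkk : B (s1 + s3) (s1 + s3) = 4 * u := by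
    simp only [map_add, LinearMap.add_apply, nx, nz, z13, z31]
    rw [hu, ha, hc']
    push_cast
    ring
  have hkr : B r (s1 + s3) = x := by
    rw [map_add, hrx, zr3, add_zero]
  have hodd : ∃ x₁ ∈ K, ∃ z : ℤ, B x₁ (s1 + s3) = 2 * z + 1 :=
    ⟨r, hr.1, a, by rw [hkr, ha]; push_cast; ring⟩
  obtain ⟨cX, cF, cI⟩ := step_F0 hX hF hk hkk hodd
  refine ⟨Nb2 B K (s1 + s3) u, cX, cF, cI, ?_⟩
  by_cases hU : Framed B (Nb2 B K (s1 + s3) u)
  · exact Or.inl hU
  right
  -- roots orthogonal to `s3` survive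
  have surv : ∀ w, Rt B K w → B w s3 = 0 → (∃ y : ℤ, B (s1 + s3) w = y * B w w) →
      (∃ z : ℤ, B w w = 2 * z) → Rt B (Nb2 B K (s1 + s3) u) w := by
    intro w hw hw3 hy he
    obtain ⟨y, hy⟩ := hy
    obtain ⟨e, he⟩ := he
    refine rt_nb2 hs hk hw (hF.pos w hw.2.1) hy ⟨y * e, by rw [he]; push_cast; ring⟩ ?_
    intro t X hX' b hb heq
    have h5 := congrArg (fun v => B v s3) heq
    simp only [map_smul, map_sub, map_add, LinearMap.smul_apply, LinearMap.sub_apply,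
      LinearMap.add_apply, smul_eq_mul, hw3, z13] at h5
    obtain ⟨e', he'⟩ := hc X hX'
    rw [he'] at h5
    have h6 : (b : ℚ) = 2 * e' := by
      apply mul_right_cancel₀ p3.ne'
      linear_combination 2 * h5
    have h7 : b = 2 * e' := by exact_mod_cast h6
    obtain ⟨b', hb'⟩ := hb
    omega
  have H1 : Rt B (Nb2 B K (s1 + s3) u) s1 := by
    refine surv s1 h1 z13 ⟨1, ?_⟩ ⟨x, by rw [nx]; push_cast; ring⟩
    rw [map_add, LinearMap.add_apply, z31]; push_cast; ring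
  obtain ⟨y, -, -, ny⟩ := (root_norm h2).1 hF
  have H2 : Rt B (Nb2 B K (s1 + s3) u) s2 := by
    refine surv s2 h2 z23 ⟨0, ?_⟩ ⟨y, by rw [ny]; push_cast; ring⟩
    rw [map_add, LinearMap.add_apply, z12, z32]; push_cast; ring
  have Hq : Rt B (Nb2 B K (s1 + s3) u) q := by
    refine surv q hq zq3 ⟨0, ?_⟩ ⟨y, by rw [qq, ny]; push_cast; ring⟩
    rw [map_add, LinearMap.add_apply, z1q, z3q]; push_cast; ring
  have H3 : Rt B (Nb2 B K (s1 + s3) u) s3 := by
    refine rt_nb2 (y := 1) hs hk h3 p3 ?_ ⟨z, by rw [nz]; push_cast; ring⟩ ?_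
    · rw [map_add, LinearMap.add_apply, z13]; push_cast; ring
    intro t X hX' b hb heq
    have h5 := congrArg (fun v => B v r) heq
    simp only [map_smul, map_sub, map_add, LinearMap.smul_apply, LinearMap.sub_apply,
      LinearMap.add_apply, smul_eq_mul, z3r, hxr] at h5
    obtain ⟨e', he'⟩ := hF.even.1 X hX' r hr.1
    rw [he', ha] at h5
    obtain ⟨b', hb'⟩ := hb
    rw [hb'] at h5
    push_cast at h5
    have h6 : (2 * e' : ℚ) = (2 * b' + 1) * (2 * a + 1) := by linear_combination (-2) * h5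
    have h7 : 2 * e' = (2 * b' + 1) * (2 * (a : ℤ) + 1) := by exact_mod_cast h6
    have h8 : (2 * b' + 1) * (2 * (a : ℤ) + 1) = 2 * (2 * b' * a + b' + a) + 1 := by ring
    omega
  -- the vector `w`
  have hw : ∃ w ∈ Nb2 B K (s1 + s3) u, B w s3 = -z := by
    rcases Int.even_or_odd u with ⟨v, hv⟩ | ⟨v, hv⟩
    · refine ⟨0 - ((1 : ℤ) / 2 : ℚ) • (s1 + s3), ⟨0, K.zero_mem, 1, -v, by simp, ?_⟩, ?_⟩
      · rw [hv]; simp; ring
      · simp only [map_sub, map_zero, map_smul, map_add, LinearMap.sub_apply,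
          LinearMap.zero_apply, LinearMap.smul_apply, LinearMap.add_apply, smul_eq_mul, z13, nz]
        push_cast; ring
    · refine ⟨r - ((1 : ℤ) / 2 : ℚ) • (s1 + s3), ⟨r, hr.1, 1, a - v, by simp, ?_⟩, ?_⟩
      · rw [hkr, hv, ha]; push_cast; ring
      · simp only [map_sub, map_smul, map_add, LinearMap.sub_apply,
          LinearMap.smul_apply, LinearMap.add_apply, smul_eq_mul, z13, nz, zr3]
        push_cast; ring
  obtain ⟨w, hwK, hw3⟩ := hw
  have hcontra : ∀ e : ℤ, B w s3 ≠ e * B s3 s3 := by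
    intro e he
    rw [hw3, nz] at he
    have hz0 : (z : ℚ) ≠ 0 := by
      have : (0 : ℚ) < 2 * z := by rw [← nz]; exact p3
      linarith
    have h6 : (2 * e : ℚ) = -1 := by
      apply mul_right_cancel₀ hz0
      linear_combination -he
    have h7 : 2 * e = -1 := by exact_mod_cast h6
    omega
  have hR := CF_rspan cF.toK5 (N := N) (by rcases cX.hN with h | h <;> omega) cX.cf
  rcases root_thm' cF.toK5 hR hU H2 H1 H3 z21 z23 z13 Hq qq qs zq1 zq3 with
    ⟨t, ht⟩ | ⟨t, ht⟩ | ⟨t, s1', -, ht⟩ | ⟨t, s3', hs3, ht⟩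
  · obtain ⟨_, _, _, _, e, _, he, _⟩ := alpha_coord cF.toK5 ht hwK
    exact absurd he (hcontra e)
  · exact Or.inl ⟨t, ht⟩
  · obtain ⟨_, _, _, _, e, _, _, _, _, he, _⟩ := beta_coord cF.toK5 ht hwK
    exact absurd he (hcontra e)
  · exact Or.inr ⟨t, s3', hs3, ht⟩

/-- Row [RH-F6]: a neighbour of an `Alpha` lattice in `F_0`.

Proof.  `(s1,s1) = 2x`, `(s2,s2) = 2y`, `(s3,s3) = 2z`, odd squarefree `x,y,z` (`root_norm`).
Let `k = s1 + s3`, `(k,k) = 2x+2z = 4u` (`x+z` is even), `(r,k) = x` odd; `K' = Nb2 B K k u`,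
`step_F0`.  If `K'` is framed we are done.  Otherwise:
(a) `s1, s2, s3, q` are roots of `K'` by `rt_nb2`: `(k,s1) = (s1,s1)`, `(k,s3) = (s3,s3)`,
`(k,s2) = (k,q) = 0`.  If `t s1`, `t s2` or `t q` is `X - (a/2) k` with `a` odd: the product with
`s3` gives `(X,s3) = a z`, but `(X,s3) ∈ 2zℤ` (`alpha_coord`).  If `t s3 = X - (a/2) k`: the product
with `r` gives `(X,r) = a x/2 ∉ ℤ`.
(b) `root_thm'` for `K'`, the triple `s2, s1, s3` and the root `q`: `Beta` (done), or
`Alpha B K' s2 q s1 t s3`, or `Alpha B K' s2 q s3 t s1`.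
(c) `w = X - k/2 ∈ K'` with `X = r` if `u` is odd, `X = 0` if `u` is even; `(w,s3) = -z ∉ 2zℤ`, so
`Alpha B K' s2 q s1 t s3` contradicts `alpha_coord`.
(d) `Alpha B K' s2 q s3 t s1`: `(t,t) = 2z`, `2(t,s3) = 2z`, `t` is orthogonal to `s1, s2, q`; the
vector `t - s3/2` is orthogonal to `s1,s2,s3,q`, so it is `λ u`, `u = 2r - s1` (`s1,s2,s3,q,u` is an
orthogonal-type basis: `u ≠ 0` is orthogonal to `s1,s2,s3,q` and `dim V = 5`); the norm:
`3z/2 = 6xλ²`, `z = x(2λ)²`, so `z = x` by `sqfree_ratio`. -/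
theorem alpha_step {N : ℕ} {B : LinearMap.BilinForm ℚ V} {K : AddSubgroup V}
    (hX : Ctx N B K) (hF : F0 B K) {s1 r s2 q s3 : V} (h : Alpha B K s1 r s2 q s3) :
    B s3 s3 = B s1 s1 ∨ ∃ K', Ctx N B K' ∧ F0 B K' ∧ HIso N B K K' ∧
      (Framed B K' ∨ ∃ s1 r q s2 s3, Beta B K' s1 r q s2 s3) := by
  have hs := hF.symm
  obtain ⟨K', cX, cF, cI, hh⟩ := f6_common hX hF h.h1 h.h2 h.h3 h.hr h.hq h.z12 h.z13 h.z23
    h.rs h.zr3 h.qq h.qs h.zq1 h.zq3
    (fun X hX' => by
      obtain ⟨_, _, _, _, e, _, he, _⟩ := alpha_coord hF.toK5 h hX'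
      exact ⟨e, he⟩)
  rcases hh with hh | ⟨t, ht⟩ | ⟨t, s3', -, ht⟩
  · exact Or.inr ⟨K', cX, cF, cI, Or.inl hh⟩
  · left
    obtain ⟨x, ox, sx, nx⟩ := (root_norm h.h1).1 hF
    obtain ⟨z, oz, sz, nz⟩ := (root_norm h.h3).1 hF
    have z31 : B s3 s1 = 0 := by rw [hs]; exact h.z13
    have z32 : B s3 s2 = 0 := by rw [hs]; exact h.z23
    have z3q : B s3 q = 0 := by rw [hs]; exact h.zq3
    have z1q : B s1 q = 0 := by rw [hs]; exact h.zq1
    have srs : 2 * B s1 r = B s1 s1 := by rw [hs]; exact h.rs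
    have s3t : 2 * B s3 t = B s3 s3 := by rw [hs]; exact ht.qs
    have tq : B t q = 0 := by rw [hs]; exact ht.zrq
    have huu : B ((2 : ℚ) • r - s1) ((2 : ℚ) • r - s1) = 6 * x := by
      simp only [map_sub, map_smul, LinearMap.sub_apply, LinearMap.smul_apply, smul_eq_mul]
      linear_combination 4 * h.rr - h.rs - srs + 3 * nx
    have hu0 : (2 : ℚ) • r - s1 ≠ 0 := by
      intro h0
      rw [h0] at huu
      simp only [map_zero] at huu
      have : (x : ℚ) = 0 := by linarith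
      have h9 := hF.pos s1 h.h1.2.1
      rw [nx, this] at h9
      simp at h9
    obtain ⟨l, hl⟩ := f6_line (y := t - (1 / 2 : ℚ) • s3) (u := (2 : ℚ) • r - s1) hF.toK5
      h.h1.2.1 h.h2.2.1 h.h3.2.1 hu0 h.z12 h.z13 h.z23 h.qq h.qs h.zq1 h.zq3
      (by simp only [map_sub, map_smul, LinearMap.sub_apply, LinearMap.smul_apply, smul_eq_mul]
          linear_combination h.rs)
      (by simp only [map_sub, map_smul, LinearMap.sub_apply, LinearMap.smul_apply, smul_eq_mul,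
            h.zr2, h.z12]; ring)
      (by simp only [map_sub, map_smul, LinearMap.sub_apply, LinearMap.smul_apply, smul_eq_mul,
            h.zr3, h.z13]; ring)
      (by simp only [map_sub, map_smul, LinearMap.sub_apply, LinearMap.smul_apply, smul_eq_mul,
            h.zrq, z1q]; ring)
      (by simp only [map_sub, map_smul, LinearMap.sub_apply, LinearMap.smul_apply, smul_eq_mul,
            ht.zq3, z31]; ring)
      (by simp only [map_sub, map_smul, LinearMap.sub_apply, LinearMap.smul_apply, smul_eq_mul,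
            ht.zq1, z32]; ring)
      (by simp only [map_sub, map_smul, LinearMap.sub_apply, LinearMap.smul_apply, smul_eq_mul]
          linear_combination 1 / 2 * ht.qs)
      (by simp only [map_sub, map_smul, LinearMap.sub_apply, LinearMap.smul_apply, smul_eq_mul,
            tq, z3q]; ring)
    rw [huu] at hl
    simp only [map_sub, map_smul, LinearMap.sub_apply, LinearMap.smul_apply, smul_eq_mul] at hl
    have hz : (z : ℚ) = x * (2 * l) ^ 2 := by
      linear_combination 2 / 3 * hl - 2 / 3 * ht.qq + 1 / 6 * ht.qs + 1 / 6 * s3t - 1 / 2 * nz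
    have := sqfree_ratio sx sz hz
    rw [nx, nz, this]
  · exact Or.inr ⟨K', cX, cF, cI, Or.inr ⟨_, _, _, _, _, ht⟩⟩

/-- Row [RH-F6]: combine with `alpha_symm` and `alpha_ne` -/
theorem alpha_to_beta {N : ℕ} {B : LinearMap.BilinForm ℚ V} {K : AddSubgroup V}
    (hX : Ctx N B K) (hF : F0 B K) (hU : ¬ Framed B K) {s1 r s2 q s3 : V}
    (h : Alpha B K s1 r s2 q s3) :
    ∃ K', Ctx N B K' ∧ F0 B K' ∧ HIso N B K K' ∧
      (Framed B K' ∨ ∃ s1 r q s2 s3, Beta B K' s1 r q s2 s3) := by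
  rcases alpha_step hX hF h with h1 | h1
  · rcases alpha_step hX hF (alpha_symm hF.symm h) with h2 | h2
    · exact absurd (h1.symm.trans h2) (alpha_ne hF hU h)
    · exact h2
  · exact h1

/-- Row [RH-F6]: a neighbour of a `Beta` lattice in `F_0`; `(s1,s1) = 2x`, `(s3,s3) = 2z`.

Proof.  `k = s1 + s3`, `(k,k) = 4u`, `(r,k) = x`; `K' = Nb2 B K k u`, `step_F0`.  If `K'` is framed we
are done.  Otherwise (a) `s1, s2, s3, q` are roots of `K'` (`rt_nb2`; `(k,q) = (k,s2) = 0`;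
primitivity as in `alpha_step`: product with `s3` and `beta_coord`; for `s3` product with `r`:
`(r,k) = (r,s1) = x`).
(b) `root_thm'` for `K'`, the triple `s2, s1, s3` and the root `q` (`2(q,s2) = (s2,s2)`,
`(q,s1) = (q,s3) = 0`): the cases with third vector `s3` are impossible by `w = X - k/2` as in
`alpha_step` (c) (`alpha_coord`, `beta_coord` for `K'`).
(c) `Alpha B K' s2 q s3 t s1`: `t - s3/2` is orthogonal to `s1,s2,s3,q`, so it is `λω`,
`ω = -3s1 + 6r - 4q + 2s2` (`(ω,s1) = (ω,q) = (ω,s2) = 0`, `(ω,r) = 5x`, `(ω,ω) = 30x`):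
`3z/2 = 30xλ²`, `z = 5x(2λ)²`, so `z = 5x` or `x = 5z`.
(d) `Beta B K' s2 q t s3' s1`: `(s3,s3) = (s2,s2)`, so `z = x`. -/
theorem beta_step {N : ℕ} {B : LinearMap.BilinForm ℚ V} {K : AddSubgroup V}
    (hX : Ctx N B K) (hF : F0 B K) {s1 r q s2 s3 : V} (h : Beta B K s1 r q s2 s3) :
    (B s3 s3 = B s1 s1 ∨ B s3 s3 = 5 * B s1 s1 ∨ B s1 s1 = 5 * B s3 s3) ∨
    ∃ K', Ctx N B K' ∧ F0 B K' ∧ HIso N B K K' ∧ Framed B K' := by
  have hs := hF.symm
  obtain ⟨K', cX, cF, cI, hh⟩ := f6_common hX hF h.h1 h.h2 h.h3 h.hr h.hq h.z12 h.z13 h.z23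
    h.rs h.zr3 (h.qq.trans h.ss.symm) (h.qs.trans h.ss.symm) h.zq1 h.zq3
    (fun X hX' => by
      obtain ⟨_, _, _, _, e, _, _, _, _, he, _⟩ := beta_coord hF.toK5 h hX'
      exact ⟨e, he⟩)
  rcases hh with hh | ⟨t, ht⟩ | ⟨t, s3', hs3, ht⟩
  · exact Or.inr ⟨K', cX, cF, cI, hh⟩
  · left
    obtain ⟨x, ox, sx, nx⟩ := (root_norm h.h1).1 hF
    obtain ⟨z, oz, sz, nz⟩ := (root_norm h.h3).1 hF
    have z21 : B s2 s1 = 0 := by rw [hs]; exact h.z12
    have z31 : B s3 s1 = 0 := by rw [hs]; exact h.z13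
    have z32 : B s3 s2 = 0 := by rw [hs]; exact h.z23
    have z3q : B s3 q = 0 := by rw [hs]; exact h.zq3
    have z1q : B s1 q = 0 := by rw [hs]; exact h.zq1
    have z2r : B s2 r = 0 := by rw [hs]; exact h.zr2
    have srs : 2 * B s1 r = B s1 s1 := by rw [hs]; exact h.rs
    have sqr : 2 * B q r = B s1 s1 := by rw [hs]; exact h.rq
    have sq2 : 2 * B s2 q = B s1 s1 := by rw [hs]; exact h.qs
    have s3t : 2 * B s3 t = B s3 s3 := by rw [hs]; exact ht.qs
    have tq : B t q = 0 := by rw [hs]; exact ht.zrq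
    have o1 : B ((-3 : ℚ) • s1 + (6 : ℚ) • r + (-4 : ℚ) • q + (2 : ℚ) • s2 + (0 : ℚ) • s3) s1 = 0 := by
      rw [f6_prod]
      linear_combination 3 * h.rs - 4 * h.zq1 + 2 * z21
    have oq : B ((-3 : ℚ) • s1 + (6 : ℚ) • r + (-4 : ℚ) • q + (2 : ℚ) • s2 + (0 : ℚ) • s3) q = 0 := by
      rw [f6_prod]
      linear_combination (-3) * z1q + 3 * h.rq - 4 * h.qq + sq2
    have o2 : B ((-3 : ℚ) • s1 + (6 : ℚ) • r + (-4 : ℚ) • q + (2 : ℚ) • s2 + (0 : ℚ) • s3) s2 = 0 := by
      rw [f6_prod]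
      linear_combination (-3) * h.z12 + 6 * h.zr2 - 2 * h.qs + 2 * h.ss
    have o3 : B ((-3 : ℚ) • s1 + (6 : ℚ) • r + (-4 : ℚ) • q + (2 : ℚ) • s2 + (0 : ℚ) • s3) s3 = 0 := by
      rw [f6_prod]
      linear_combination (-3) * h.z13 + 6 * h.zr3 - 4 * h.zq3 + 2 * h.z23
    have or : B ((-3 : ℚ) • s1 + (6 : ℚ) • r + (-4 : ℚ) • q + (2 : ℚ) • s2 + (0 : ℚ) • s3) r = 5 * x := by
      rw [f6_prod]
      linear_combination (-3/2) * srs + 6 * h.rr - 2 * sqr + 2 * z2r + 5 / 2 * nx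
    have huu : B ((-3 : ℚ) • s1 + (6 : ℚ) • r + (-4 : ℚ) • q + (2 : ℚ) • s2 + (0 : ℚ) • s3)
        ((-3 : ℚ) • s1 + (6 : ℚ) • r + (-4 : ℚ) • q + (2 : ℚ) • s2 + (0 : ℚ) • s3) = 30 * x := by
      rw [hs, f6_prod]
      rw [hs s1, hs r, hs q, hs s2, o1, or, oq, o2]
      ring
    have hu0 : (-3 : ℚ) • s1 + (6 : ℚ) • r + (-4 : ℚ) • q + (2 : ℚ) • s2 + (0 : ℚ) • s3 ≠ 0 := by
      intro h0
      rw [h0] at huu
      simp only [map_zero] at huu
      have : (x : ℚ) = 0 := by linarith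
      have h9 := hF.pos s1 h.h1.2.1
      rw [nx, this] at h9
      simp at h9
    obtain ⟨l, hl⟩ := f6_line (y := t - (1 / 2 : ℚ) • s3)
      (u := (-3 : ℚ) • s1 + (6 : ℚ) • r + (-4 : ℚ) • q + (2 : ℚ) • s2 + (0 : ℚ) • s3) hF.toK5
      h.h1.2.1 h.h2.2.1 h.h3.2.1 hu0 h.z12 h.z13 h.z23 (h.qq.trans h.ss.symm)
      (h.qs.trans h.ss.symm) h.zq1 h.zq3 o1 o2 o3 oq
      (by simp only [map_sub, map_smul, LinearMap.sub_apply, LinearMap.smul_apply, smul_eq_mul,
            ht.zq3, z31]; ring)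
      (by simp only [map_sub, map_smul, LinearMap.sub_apply, LinearMap.smul_apply, smul_eq_mul,
            ht.zq1, z32]; ring)
      (by simp only [map_sub, map_smul, LinearMap.sub_apply, LinearMap.smul_apply, smul_eq_mul]
          linear_combination 1 / 2 * ht.qs)
      (by simp only [map_sub, map_smul, LinearMap.sub_apply, LinearMap.smul_apply, smul_eq_mul,
            tq, z3q]; ring)
    rw [huu] at hl
    simp only [map_sub, map_smul, LinearMap.sub_apply, LinearMap.smul_apply, smul_eq_mul] at hl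
    have hz : (z : ℚ) = 5 * x * (2 * l) ^ 2 := by
      linear_combination 2 / 3 * hl - 2 / 3 * ht.qq + 1 / 6 * ht.qs + 1 / 6 * s3t - 1 / 2 * nz
    rcases sqfree_ratio5 sx sz hz with h6 | h6
    · right; left
      rw [nx, nz, h6]; push_cast; ring
    · right; right
      rw [nx, nz, h6]; push_cast; ring
  · left; left
    have h5 : B s3' s3' = B s3 s3 := by
      rcases hs3 with rfl | rfl
      · rfl
      · simp
    rw [← h5, ht.ss, h.ss]

end RH6
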