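import Pool.Agent.RH6.F6

namespace RH6

variable {V : Type*} [AddCommGroup V] [Module ℚ V] [FiniteDimensional ℚ V]

/-- `K` has the Gram matrix `E` -/
def HasGram (E : Matrix (Fin 5) (Fin 5) ℤ) (B : LinearMap.BilinForm ℚ V)
    (K : AddSubgroup V) : Prop :=
  ∃ b : Module.Basis (Fin 5) ℚ V, (∀ i j, B (b i) (b j) = E i j) ∧
    ∀ x, x ∈ K ↔ ∀ i, ∃ z : ℤ, b.repr x i = z

/-- `A_4 ⊥ ⟨2⟩` -/
def E1 : Matrix (Fin 5) (Fin 5) ℤ :=
  !![2,1,0,0,0; 1,2,1,0,0; 0,1,2,1,0; 0,0,1,2,0; 0,0,0,0,2]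

/-- `A_4 ⊥ ⟨10⟩` -/
def E2 : Matrix (Fin 5) (Fin 5) ℤ :=
  !![2,1,0,0,0; 1,2,1,0,0; 0,1,2,1,0; 0,0,1,2,0; 0,0,0,0,10]

/-- `A_4^*(5) ⊥ ⟨2⟩` -/
def E3 : Matrix (Fin 5) (Fin 5) ℤ :=
  !![4,-3,2,-1,0; -3,6,-4,2,0; 2,-4,6,-3,0; -1,2,-3,4,0; 0,0,0,0,2]

/-- `A_5` -/
def E4 : Matrix (Fin 5) (Fin 5) ℤ :=
  !![2,1,0,0,0; 1,2,1,0,0; 0,1,2,1,0; 0,0,1,2,1; 0,0,0,1,2]

/-- the exceptional cusp lattices -/
def Exc (B : LinearMap.BilinForm ℚ V) (K : AddSubgroup V) : Prop :=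
  HasGram E1 B K ∨ HasGram E2 B K ∨ HasGram E3 B K ∨ HasGram E4 B K

/-- a basis with given Gram matrix -/
theorem f8_gram {E : Matrix (Fin 5) (Fin 5) ℤ} (G : Matrix (Fin 5) (Fin 5) ℤ) (d : ℤ)
    (hd : d ≠ 0) (hEG : ∀ i k, ∑ j, E i j * G j k = if i = k then d else 0)
    {B : LinearMap.BilinForm ℚ V} {K : AddSubgroup V} (hK : K5 B K) (b : Fin 5 → V)
    (hb : ∀ i j, B (b i) (b j) = E i j) (hmem : ∀ i, b i ∈ K)
    (hspan : ∀ v ∈ K, ∃ z : Fin 5 → ℤ, v = ∑ i, (z i : ℚ) • b i) : HasGram E B K := by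
  have hli : LinearIndependent ℚ b := by
    rw [Fintype.linearIndependent_iff]
    intro g hg k
    have h1 : ∀ j, ∑ i, g i * (E i j : ℚ) = 0 := by
      intro j
      have h2 := congrArg (fun y => B y (b j)) hg
      simp only [map_sum, LinearMap.sum_apply, map_smul, LinearMap.smul_apply, smul_eq_mul,
        map_zero, LinearMap.zero_apply, hb] at h2
      exact h2
    have h3 : ∑ j, (∑ i, g i * (E i j : ℚ)) * (G j k : ℚ) = 0 := by
      apply Finset.sum_eq_zero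
      intro j _
      rw [h1 j, zero_mul]
    have h4 : ∑ j, (∑ i, g i * (E i j : ℚ)) * (G j k : ℚ) = g k * d := by
      have h5 : ∑ j, (∑ i, g i * (E i j : ℚ)) * (G j k : ℚ) =
          ∑ i, g i * ((∑ j, E i j * G j k : ℤ) : ℚ) := by
        simp only [Finset.sum_mul]
        rw [Finset.sum_comm]
        apply Finset.sum_congr rfl
        intro i _
        rw [Int.cast_sum, Finset.mul_sum]
        apply Finset.sum_congr rfl
        intro j _
        push_cast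
        ring
      rw [h5]
      simp only [hEG]
      rw [Finset.sum_eq_single k]
      · simp
      · intro i _ hi
        rw [if_neg hi]
        simp
      · intro h
        exact absurd (Finset.mem_univ k) h
    rw [h4] at h3
    have hd' : (d : ℚ) ≠ 0 := Int.cast_ne_zero.2 hd
    exact (mul_eq_zero.1 h3).resolve_right hd'
  have hc : Fintype.card (Fin 5) = Module.finrank ℚ V := by rw [hK.dim]; rfl
  refine ⟨basisOfLinearIndependentOfCardEqFinrank hli hc, ?_, ?_⟩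
  · intro i j
    rw [coe_basisOfLinearIndependentOfCardEqFinrank]
    exact hb i j
  · intro v
    constructor
    · intro hv i
      obtain ⟨z, hz⟩ := hspan v hv
      refine ⟨z i, ?_⟩
      have h1 : v = ∑ i, (z i : ℚ) • (basisOfLinearIndependentOfCardEqFinrank hli hc) i := by
        rw [coe_basisOfLinearIndependentOfCardEqFinrank]
        exact hz
      rw [h1, Module.Basis.repr_sum_self]
    · intro h
      choose z hz using h
      have h1 := (basisOfLinearIndependentOfCardEqFinrank hli hc).sum_repr v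
      rw [← h1]
      apply K.sum_mem
      intro i _
      rw [hz i, Int.cast_smul_eq_zsmul, coe_basisOfLinearIndependentOfCardEqFinrank]
      exact K.zsmul_mem (hmem i) _

/-- integer multiples -/
theorem f8_smul {K : AddSubgroup V} {v : V} (hv : v ∈ K) (t : ℤ) : (t : ℚ) • v ∈ K := by
  rw [Int.cast_smul_eq_zsmul]
  exact K.zsmul_mem hv _

/-- the table of products -/
structure f8_Tab (B : LinearMap.BilinForm ℚ V) (s1 r q s2 s3 : V) (x z : ℚ) : Prop where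
  p11 : B s1 s1 = 2 * x
  p12 : B s1 r = x
  p13 : B s1 q = 0
  p14 : B s1 s2 = 0
  p15 : B s1 s3 = 0
  p21 : B r s1 = x
  p22 : B r r = 2 * x
  p23 : B r q = x
  p24 : B r s2 = 0
  p25 : B r s3 = 0
  p31 : B q s1 = 0
  p32 : B q r = x
  p33 : B q q = 2 * x
  p34 : B q s2 = x
  p35 : B q s3 = 0
  p41 : B s2 s1 = 0
  p42 : B s2 r = 0
  p43 : B s2 q = x
  p44 : B s2 s2 = 2 * x
  p45 : B s2 s3 = 0
  p51 : B s3 s1 = 0
  p52 : B s3 r = 0
  p53 : B s3 q = 0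
  p54 : B s3 s2 = 0
  p55 : B s3 s3 = 2 * z

theorem f8_tab {B : LinearMap.BilinForm ℚ V} (hs : ∀ x y, B x y = B y x) {K : AddSubgroup V}
    {s1 r q s2 s3 : V} (h : Beta B K s1 r q s2 s3) {x z : ℚ} (hx : B s1 s1 = 2 * x)
    (hz : B s3 s3 = 2 * z) : f8_Tab B s1 r q s2 s3 x z where
  p11 := hx
  p12 := by rw [hs]; linarith [h.rs]
  p13 := by rw [hs]; exact h.zq1
  p14 := h.z12
  p15 := h.z13
  p21 := by linarith [h.rs]
  p22 := by rw [h.rr]; exact hx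
  p23 := by linarith [h.rq]
  p24 := h.zr2
  p25 := h.zr3
  p31 := h.zq1
  p32 := by rw [hs]; linarith [h.rq]
  p33 := by rw [h.qq]; exact hx
  p34 := by linarith [h.qs]
  p35 := h.zq3
  p41 := by rw [hs]; exact h.z12
  p42 := by rw [hs]; exact h.zr2
  p43 := by rw [hs]; linarith [h.qs]
  p44 := by rw [h.ss]; exact hx
  p45 := h.z23
  p51 := by rw [hs]; exact h.z13
  p52 := by rw [hs]; exact h.zr3
  p53 := by rw [hs]; exact h.zq3
  p54 := by rw [hs]; exact h.z23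
  p55 := hz

/-- the dual vectors -/
def f8_o1 (s1 r q s2 : V) : V :=
  (4 / 5 : ℚ) • s1 + (-3 / 5 : ℚ) • r + (2 / 5 : ℚ) • q + (-1 / 5 : ℚ) • s2
def f8_o2 (s1 r q s2 : V) : V :=
  (-3 / 5 : ℚ) • s1 + (6 / 5 : ℚ) • r + (-4 / 5 : ℚ) • q + (2 / 5 : ℚ) • s2
def f8_o3 (s1 r q s2 : V) : V :=
  (2 / 5 : ℚ) • s1 + (-4 / 5 : ℚ) • r + (6 / 5 : ℚ) • q + (-3 / 5 : ℚ) • s2
def f8_o4 (s1 r q s2 : V) : V :=
  (-1 / 5 : ℚ) • s1 + (2 / 5 : ℚ) • r + (-3 / 5 : ℚ) • q + (4 / 5 : ℚ) • s2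

/-- the table of products of the dual vectors -/
structure f8_Wab (B : LinearMap.BilinForm ℚ V) (s1 r q s2 s3 : V) (x z : ℚ) : Prop where
  w11 : B (f8_o1 s1 r q s2) (f8_o1 s1 r q s2) = 4 * x / 5
  w12 : B (f8_o1 s1 r q s2) (f8_o2 s1 r q s2) = (-3) * x / 5
  w13 : B (f8_o1 s1 r q s2) (f8_o3 s1 r q s2) = 2 * x / 5
  w14 : B (f8_o1 s1 r q s2) (f8_o4 s1 r q s2) = (-1) * x / 5
  w15 : B (f8_o1 s1 r q s2) s3 = 0
  w51 : B s3 (f8_o1 s1 r q s2) = 0
  w21 : B (f8_o2 s1 r q s2) (f8_o1 s1 r q s2) = (-3) * x / 5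
  w22 : B (f8_o2 s1 r q s2) (f8_o2 s1 r q s2) = 6 * x / 5
  w23 : B (f8_o2 s1 r q s2) (f8_o3 s1 r q s2) = (-4) * x / 5
  w24 : B (f8_o2 s1 r q s2) (f8_o4 s1 r q s2) = 2 * x / 5
  w25 : B (f8_o2 s1 r q s2) s3 = 0
  w52 : B s3 (f8_o2 s1 r q s2) = 0
  w31 : B (f8_o3 s1 r q s2) (f8_o1 s1 r q s2) = 2 * x / 5
  w32 : B (f8_o3 s1 r q s2) (f8_o2 s1 r q s2) = (-4) * x / 5
  w33 : B (f8_o3 s1 r q s2) (f8_o3 s1 r q s2) = 6 * x / 5
  w34 : B (f8_o3 s1 r q s2) (f8_o4 s1 r q s2) = (-3) * x / 5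
  w35 : B (f8_o3 s1 r q s2) s3 = 0
  w53 : B s3 (f8_o3 s1 r q s2) = 0
  w41 : B (f8_o4 s1 r q s2) (f8_o1 s1 r q s2) = (-1) * x / 5
  w42 : B (f8_o4 s1 r q s2) (f8_o2 s1 r q s2) = 2 * x / 5
  w43 : B (f8_o4 s1 r q s2) (f8_o3 s1 r q s2) = (-3) * x / 5
  w44 : B (f8_o4 s1 r q s2) (f8_o4 s1 r q s2) = 4 * x / 5
  w45 : B (f8_o4 s1 r q s2) s3 = 0
  w54 : B s3 (f8_o4 s1 r q s2) = 0
  w55 : B s3 s3 = 2 * z

theorem f8_wab {B : LinearMap.BilinForm ℚ V} {s1 r q s2 s3 : V} {x z : ℚ}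
    (T : f8_Tab B s1 r q s2 s3 x z) : f8_Wab B s1 r q s2 s3 x z where
  w11 := by
    simp only [f8_o1, f8_o1, map_add, map_smul, LinearMap.add_apply, LinearMap.smul_apply,
      smul_eq_mul, T.p11, T.p12, T.p13, T.p14, T.p21, T.p22, T.p23, T.p24, T.p31, T.p32, T.p33,
      T.p34, T.p41, T.p42, T.p43, T.p44]
    ring
  w12 := by
    simp only [f8_o1, f8_o2, map_add, map_smul, LinearMap.add_apply, LinearMap.smul_apply,
      smul_eq_mul, T.p11, T.p12, T.p13, T.p14, T.p21, T.p22, T.p23, T.p24, T.p31, T.p32, T.p33,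
      T.p34, T.p41, T.p42, T.p43, T.p44]
    ring
  w13 := by
    simp only [f8_o1, f8_o3, map_add, map_smul, LinearMap.add_apply, LinearMap.smul_apply,
      smul_eq_mul, T.p11, T.p12, T.p13, T.p14, T.p21, T.p22, T.p23, T.p24, T.p31, T.p32, T.p33,
      T.p34, T.p41, T.p42, T.p43, T.p44]
    ring
  w14 := by
    simp only [f8_o1, f8_o4, map_add, map_smul, LinearMap.add_apply, LinearMap.smul_apply,
      smul_eq_mul, T.p11, T.p12, T.p13, T.p14, T.p21, T.p22, T.p23, T.p24, T.p31, T.p32, T.p33,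
      T.p34, T.p41, T.p42, T.p43, T.p44]
    ring
  w15 := by
    simp only [f8_o1, map_add, map_smul, LinearMap.add_apply, LinearMap.smul_apply,
      smul_eq_mul, T.p15, T.p25, T.p35, T.p45]
    ring
  w51 := by
    simp only [f8_o1, map_add, map_smul, smul_eq_mul, T.p51, T.p52, T.p53, T.p54]
    ring
  w21 := by
    simp only [f8_o2, f8_o1, map_add, map_smul, LinearMap.add_apply, LinearMap.smul_apply,
      smul_eq_mul, T.p11, T.p12, T.p13, T.p14, T.p21, T.p22, T.p23, T.p24, T.p31, T.p32, T.p33,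
      T.p34, T.p41, T.p42, T.p43, T.p44]
    ring
  w22 := by
    simp only [f8_o2, f8_o2, map_add, map_smul, LinearMap.add_apply, LinearMap.smul_apply,
      smul_eq_mul, T.p11, T.p12, T.p13, T.p14, T.p21, T.p22, T.p23, T.p24, T.p31, T.p32, T.p33,
      T.p34, T.p41, T.p42, T.p43, T.p44]
    ring
  w23 := by
    simp only [f8_o2, f8_o3, map_add, map_smul, LinearMap.add_apply, LinearMap.smul_apply,
      smul_eq_mul, T.p11, T.p12, T.p13, T.p14, T.p21, T.p22, T.p23, T.p24, T.p31, T.p32, T.p33,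
      T.p34, T.p41, T.p42, T.p43, T.p44]
    ring
  w24 := by
    simp only [f8_o2, f8_o4, map_add, map_smul, LinearMap.add_apply, LinearMap.smul_apply,
      smul_eq_mul, T.p11, T.p12, T.p13, T.p14, T.p21, T.p22, T.p23, T.p24, T.p31, T.p32, T.p33,
      T.p34, T.p41, T.p42, T.p43, T.p44]
    ring
  w25 := by
    simp only [f8_o2, map_add, map_smul, LinearMap.add_apply, LinearMap.smul_apply,
      smul_eq_mul, T.p15, T.p25, T.p35, T.p45]
    ring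
  w52 := by
    simp only [f8_o2, map_add, map_smul, smul_eq_mul, T.p51, T.p52, T.p53, T.p54]
    ring
  w31 := by
    simp only [f8_o3, f8_o1, map_add, map_smul, LinearMap.add_apply, LinearMap.smul_apply,
      smul_eq_mul, T.p11, T.p12, T.p13, T.p14, T.p21, T.p22, T.p23, T.p24, T.p31, T.p32, T.p33,
      T.p34, T.p41, T.p42, T.p43, T.p44]
    ring
  w32 := by
    simp only [f8_o3, f8_o2, map_add, map_smul, LinearMap.add_apply, LinearMap.smul_apply,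
      smul_eq_mul, T.p11, T.p12, T.p13, T.p14, T.p21, T.p22, T.p23, T.p24, T.p31, T.p32, T.p33,
      T.p34, T.p41, T.p42, T.p43, T.p44]
    ring
  w33 := by
    simp only [f8_o3, f8_o3, map_add, map_smul, LinearMap.add_apply, LinearMap.smul_apply,
      smul_eq_mul, T.p11, T.p12, T.p13, T.p14, T.p21, T.p22, T.p23, T.p24, T.p31, T.p32, T.p33,
      T.p34, T.p41, T.p42, T.p43, T.p44]
    ring
  w34 := by
    simp only [f8_o3, f8_o4, map_add, map_smul, LinearMap.add_apply, LinearMap.smul_apply,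
      smul_eq_mul, T.p11, T.p12, T.p13, T.p14, T.p21, T.p22, T.p23, T.p24, T.p31, T.p32, T.p33,
      T.p34, T.p41, T.p42, T.p43, T.p44]
    ring
  w35 := by
    simp only [f8_o3, map_add, map_smul, LinearMap.add_apply, LinearMap.smul_apply,
      smul_eq_mul, T.p15, T.p25, T.p35, T.p45]
    ring
  w53 := by
    simp only [f8_o3, map_add, map_smul, smul_eq_mul, T.p51, T.p52, T.p53, T.p54]
    ring
  w41 := by
    simp only [f8_o4, f8_o1, map_add, map_smul, LinearMap.add_apply, LinearMap.smul_apply,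
      smul_eq_mul, T.p11, T.p12, T.p13, T.p14, T.p21, T.p22, T.p23, T.p24, T.p31, T.p32, T.p33,
      T.p34, T.p41, T.p42, T.p43, T.p44]
    ring
  w42 := by
    simp only [f8_o4, f8_o2, map_add, map_smul, LinearMap.add_apply, LinearMap.smul_apply,
      smul_eq_mul, T.p11, T.p12, T.p13, T.p14, T.p21, T.p22, T.p23, T.p24, T.p31, T.p32, T.p33,
      T.p34, T.p41, T.p42, T.p43, T.p44]
    ring
  w43 := by
    simp only [f8_o4, f8_o3, map_add, map_smul, LinearMap.add_apply, LinearMap.smul_apply,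
      smul_eq_mul, T.p11, T.p12, T.p13, T.p14, T.p21, T.p22, T.p23, T.p24, T.p31, T.p32, T.p33,
      T.p34, T.p41, T.p42, T.p43, T.p44]
    ring
  w44 := by
    simp only [f8_o4, f8_o4, map_add, map_smul, LinearMap.add_apply, LinearMap.smul_apply,
      smul_eq_mul, T.p11, T.p12, T.p13, T.p14, T.p21, T.p22, T.p23, T.p24, T.p31, T.p32, T.p33,
      T.p34, T.p41, T.p42, T.p43, T.p44]
    ring
  w45 := by
    simp only [f8_o4, map_add, map_smul, LinearMap.add_apply, LinearMap.smul_apply,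
      smul_eq_mul, T.p15, T.p25, T.p35, T.p45]
    ring
  w54 := by
    simp only [f8_o4, map_add, map_smul, smul_eq_mul, T.p51, T.p52, T.p53, T.p54]
    ring
  w55 := T.p55

/-- Row [RH-F8]: if `K/Rad B K p` is cyclic of order dividing `p` it contradicts `Big2`: let `g ∈ K`
be such that every `v ∈ K` is `v = t g + w` with `t ∈ ℤ` and `w ∈ Rad B K p`.  Then
`[K : Rad B K p] ≤ p < p²` (the classes are those of `t g`, `0 ≤ t < p`; `p g ∈ Rad`). -/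
theorem not_big {B : LinearMap.BilinForm ℚ V} {K : AddSubgroup V} (hK : K5 B K)
    (hI : Integ B K) (hb : Big2 B K) {p : ℕ} (hp : p.Prime) (hp2 : p ≠ 2) {g : V} (hg : g ∈ K)
    (h : ∀ v ∈ K, ∃ t : ℤ, v - t • g ∈ Rad B K p) : False := by
  have hi := hb p hp hp2
  have hpg : ∀ t : ℤ, ((p : ℤ) * t) • g ∈ Rad B K p := by
    intro t
    refine ⟨K.zsmul_mem hg _, ?_⟩
    intro y hy
    obtain ⟨z, hz⟩ := hI g hg y hy
    refine ⟨t * z, ?_⟩
    rw [map_zsmul, LinearMap.smul_apply, hz, zsmul_eq_mul]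
    push_cast
    ring
  have hsurj : Function.Surjective (fun i : Fin p =>
      (QuotientAddGroup.mk (((i : ℕ) : ℤ) • (⟨g, hg⟩ : K)) :
        K ⧸ (Rad B K p).addSubgroupOf K)) := by
    intro y
    obtain ⟨v, rfl⟩ := QuotientAddGroup.mk_surjective y
    obtain ⟨t, ht⟩ := h v v.2
    have hp0 : (p : ℤ) ≠ 0 := by exact_mod_cast hp.ne_zero
    have h1 := Int.emod_nonneg t hp0
    have h2 := Int.emod_lt_of_pos t (by exact_mod_cast hp.pos : (0 : ℤ) < p)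
    refine ⟨⟨(t % p).toNat, by omega⟩, ?_⟩
    show (QuotientAddGroup.mk ((((t % p).toNat : ℕ) : ℤ) • (⟨g, hg⟩ : K)) :
        K ⧸ (Rad B K p).addSubgroupOf K) = _
    rw [Int.toNat_of_nonneg h1, QuotientAddGroup.eq, AddSubgroup.mem_addSubgroupOf]
    have h3 : ((-((t % p) • (⟨g, hg⟩ : K)) + v : K) : V) =
        ((v : V) - t • g) + ((p : ℤ) * (t / p)) • g := by
      have h4 : t = t % p + p * (t / p) := (Int.emod_add_mul_ediv t p).symm
      have h5 : t • g = (t % p) • g + ((p : ℤ) * (t / p)) • g := by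
        rw [← add_smul, ← h4]
      rw [h5]
      push_cast
      abel
    rw [h3]
    exact (Rad B K p).add_mem ht (hpg _)
  have hle : (Rad B K p).relIndex K ≤ p := by
    have h1 := Nat.card_le_card_of_surjective _ hsurj
    rw [Nat.card_fin] at h1
    exact h1
  have h2 : p < p ^ 2 := by
    have := hp.two_le
    nlinarith
  omega

theorem f8_case1 {B : LinearMap.BilinForm ℚ V} {K : AddSubgroup V} (hF : F0 B K)
    (hb : Big2 B K) {s1 r q s2 s3 : V} (h : Beta B K s1 r q s2 s3) {x z : ℕ} (ox : Odd x)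
    (hx : B s1 s1 = 2 * x) (hz : B s3 s3 = 2 * z)
    (hsp : ∀ v ∈ K, ∃ a1 a2 a3 a4 e : ℤ, v = (a1 : ℚ) • s1 + (a2 : ℚ) • r + (a3 : ℚ) • q +
      (a4 : ℚ) • s2 + (e : ℚ) • s3)
    (hn : B s3 s3 = B s1 s1 ∨ B s3 s3 = 5 * B s1 s1 ∨ B s1 s1 = 5 * B s3 s3) : Exc B K := by
  have T := f8_tab hF.symm h hx hz
  have hx1 : x = 1 := by
    by_contra hx1
    obtain ⟨p, hp, x', rfl⟩ := Nat.exists_prime_and_dvd hx1
    have hp2 : p ≠ 2 := by
      rintro rfl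
      rw [Nat.odd_mul] at ox
      exact absurd ox.1 (by decide)
    have m1 : s1 ∈ Rad B K p := by
      refine ⟨h.h1.1, fun y hy => ?_⟩
      obtain ⟨a1, a2, a3, a4, e, rfl⟩ := hsp y hy
      refine ⟨x' * (2 * a1 + a2), ?_⟩
      simp only [map_add, map_smul, smul_eq_mul, T.p11, T.p12, T.p13, T.p14, T.p15]
      push_cast
      ring
    have m2 : r ∈ Rad B K p := by
      refine ⟨h.hr.1, fun y hy => ?_⟩
      obtain ⟨a1, a2, a3, a4, e, rfl⟩ := hsp y hy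
      refine ⟨x' * (a1 + 2 * a2 + a3), ?_⟩
      simp only [map_add, map_smul, smul_eq_mul, T.p21, T.p22, T.p23, T.p24, T.p25]
      push_cast
      ring
    have m3 : q ∈ Rad B K p := by
      refine ⟨h.hq.1, fun y hy => ?_⟩
      obtain ⟨a1, a2, a3, a4, e, rfl⟩ := hsp y hy
      refine ⟨x' * (a2 + 2 * a3 + a4), ?_⟩
      simp only [map_add, map_smul, smul_eq_mul, T.p31, T.p32, T.p33, T.p34, T.p35]
      push_cast
      ring
    have m4 : s2 ∈ Rad B K p := by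
      refine ⟨h.h2.1, fun y hy => ?_⟩
      obtain ⟨a1, a2, a3, a4, e, rfl⟩ := hsp y hy
      refine ⟨x' * (a3 + 2 * a4), ?_⟩
      simp only [map_add, map_smul, smul_eq_mul, T.p41, T.p42, T.p43, T.p44, T.p45]
      push_cast
      ring
    refine not_big hF.toK5 hF.even.1 hb hp hp2 h.h3.1 fun v hv => ?_
    obtain ⟨a1, a2, a3, a4, e, rfl⟩ := hsp v hv
    refine ⟨e, ?_⟩
    have e1 : (a1 : ℚ) • s1 + (a2 : ℚ) • r + (a3 : ℚ) • q + (a4 : ℚ) • s2 + (e : ℚ) • s3 -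
        e • s3 = (a1 : ℚ) • s1 + (a2 : ℚ) • r + (a3 : ℚ) • q + (a4 : ℚ) • s2 := by
      rw [← Int.cast_smul_eq_zsmul ℚ e]
      module
    rw [e1]
    exact (Rad B K p).add_mem ((Rad B K p).add_mem ((Rad B K p).add_mem (f8_smul m1 _)
      (f8_smul m2 _)) (f8_smul m3 _)) (f8_smul m4 _)
  subst hx1
  have hspan : ∀ v ∈ K, ∃ z : Fin 5 → ℤ, v = ∑ i, (z i : ℚ) • ![s1, r, q, s2, s3] i := by
    intro v hv
    obtain ⟨a1, a2, a3, a4, e, rfl⟩ := hsp v hv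
    refine ⟨![a1, a2, a3, a4, e], ?_⟩
    simp [Fin.sum_univ_five]
  have hmem : ∀ i, ![s1, r, q, s2, s3] i ∈ K := by
    intro i
    fin_cases i
    · exact h.h1.1
    · exact h.hr.1
    · exact h.hq.1
    · exact h.h2.1
    · exact h.h3.1
  rw [hx, hz] at hn
  rcases hn with hn | hn | hn
  · have hz1 : (z : ℚ) = 1 := by push_cast at hn; linarith
    left
    refine f8_gram !![8,-6,4,-2,0; -6,12,-8,4,0; 4,-8,12,-6,0; -2,4,-6,8,0; 0,0,0,0,5] 10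
      (by norm_num) (by decide) hF.toK5 ![s1, r, q, s2, s3] ?_ hmem hspan
    intro i j
    fin_cases i <;> fin_cases j <;>
      simp [E1, T.p11, T.p12, T.p13, T.p14, T.p15, T.p21, T.p22, T.p23, T.p24, T.p25, T.p31,
        T.p32, T.p33, T.p34, T.p35, T.p41, T.p42, T.p43, T.p44, T.p45, T.p51, T.p52, T.p53,
        T.p54, T.p55, hz1]
  · have hz1 : (z : ℚ) = 5 := by push_cast at hn; linarith
    right; left
    refine f8_gram !![8,-6,4,-2,0; -6,12,-8,4,0; 4,-8,12,-6,0; -2,4,-6,8,0; 0,0,0,0,1] 10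
      (by norm_num) (by decide) hF.toK5 ![s1, r, q, s2, s3] ?_ hmem hspan
    intro i j
    fin_cases i <;> fin_cases j <;>
      simp [E2, T.p11, T.p12, T.p13, T.p14, T.p15, T.p21, T.p22, T.p23, T.p24, T.p25, T.p31,
        T.p32, T.p33, T.p34, T.p35, T.p41, T.p42, T.p43, T.p44, T.p45, T.p51, T.p52, T.p53,
        T.p54, T.p55, hz1]
    all_goals norm_num
  · exfalso
    have h1 : (1 : ℕ) = 5 * z := by
      have h2 : ((1 : ℕ) : ℚ) = ((5 * z : ℕ) : ℚ) := by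
        push_cast at hn ⊢
        linarith
      exact_mod_cast h2
    omega

theorem f8_case2 {B : LinearMap.BilinForm ℚ V} {K : AddSubgroup V} (hF : F0 B K)
    (hb : Big2 B K) {s1 r q s2 s3 : V} (h : Beta B K s1 r q s2 s3) {x z : ℕ} (ox : Odd x)
    (sx : Squarefree x) (sz : Squarefree z) (hx : B s1 s1 = 2 * x) (hz : B s3 s3 = 2 * z)
    (mo1 : f8_o1 s1 r q s2 ∈ K) (mo2 : f8_o2 s1 r q s2 ∈ K) (mo3 : f8_o3 s1 r q s2 ∈ K)
    (mo4 : f8_o4 s1 r q s2 ∈ K)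
    (hsp : ∀ v ∈ K, ∃ c1 c2 c3 c4 e : ℤ, v = (c1 : ℚ) • f8_o1 s1 r q s2 +
      (c2 : ℚ) • f8_o2 s1 r q s2 + (c3 : ℚ) • f8_o3 s1 r q s2 + (c4 : ℚ) • f8_o4 s1 r q s2 +
      (e : ℚ) • s3)
    (hn : B s3 s3 = B s1 s1 ∨ B s3 s3 = 5 * B s1 s1 ∨ B s1 s1 = 5 * B s3 s3) : Exc B K := by
  have T := f8_tab hF.symm h hx hz
  have W := f8_wab T
  obtain ⟨x', rfl⟩ : 5 ∣ x := by
    obtain ⟨k, hk⟩ := hF.even.1 _ mo2 _ mo2
    rw [W.w22] at hk
    have h1 : ((6 * x : ℤ) : ℚ) = ((5 * k : ℤ) : ℚ) := by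
      push_cast
      linarith
    have h2 : (6 * x : ℤ) = 5 * k := by exact_mod_cast h1
    omega
  have hx1 : x' = 1 := by
    by_contra hx1
    obtain ⟨p, hp, x'', rfl⟩ := Nat.exists_prime_and_dvd hx1
    have hp2 : p ≠ 2 := by
      rintro rfl
      rw [Nat.odd_mul, Nat.odd_mul] at ox
      exact absurd ox.2.1 (by decide)
    have m1 : f8_o1 s1 r q s2 ∈ Rad B K p := by
      refine ⟨mo1, fun y hy => ?_⟩
      obtain ⟨c1, c2, c3, c4, e, rfl⟩ := hsp y hy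
      refine ⟨x'' * (4 * c1 + (-3) * c2 + 2 * c3 + (-1) * c4), ?_⟩
      simp only [map_add, map_smul, smul_eq_mul, W.w11, W.w12, W.w13, W.w14, W.w15]
      push_cast
      ring
    have m2 : f8_o2 s1 r q s2 ∈ Rad B K p := by
      refine ⟨mo2, fun y hy => ?_⟩
      obtain ⟨c1, c2, c3, c4, e, rfl⟩ := hsp y hy
      refine ⟨x'' * ((-3) * c1 + 6 * c2 + (-4) * c3 + 2 * c4), ?_⟩
      simp only [map_add, map_smul, smul_eq_mul, W.w21, W.w22, W.w23, W.w24, W.w25]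
      push_cast
      ring
    have m3 : f8_o3 s1 r q s2 ∈ Rad B K p := by
      refine ⟨mo3, fun y hy => ?_⟩
      obtain ⟨c1, c2, c3, c4, e, rfl⟩ := hsp y hy
      refine ⟨x'' * (2 * c1 + (-4) * c2 + 6 * c3 + (-3) * c4), ?_⟩
      simp only [map_add, map_smul, smul_eq_mul, W.w31, W.w32, W.w33, W.w34, W.w35]
      push_cast
      ring
    have m4 : f8_o4 s1 r q s2 ∈ Rad B K p := by
      refine ⟨mo4, fun y hy => ?_⟩
      obtain ⟨c1, c2, c3, c4, e, rfl⟩ := hsp y hy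
      refine ⟨x'' * ((-1) * c1 + 2 * c2 + (-3) * c3 + 4 * c4), ?_⟩
      simp only [map_add, map_smul, smul_eq_mul, W.w41, W.w42, W.w43, W.w44, W.w45]
      push_cast
      ring
    refine not_big hF.toK5 hF.even.1 hb hp hp2 h.h3.1 fun v hv => ?_
    obtain ⟨a1, a2, a3, a4, e, rfl⟩ := hsp v hv
    refine ⟨e, ?_⟩
    have e1 : (a1 : ℚ) • f8_o1 s1 r q s2 + (a2 : ℚ) • f8_o2 s1 r q s2 +
        (a3 : ℚ) • f8_o3 s1 r q s2 + (a4 : ℚ) • f8_o4 s1 r q s2 + (e : ℚ) • s3 - e • s3 =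
        (a1 : ℚ) • f8_o1 s1 r q s2 + (a2 : ℚ) • f8_o2 s1 r q s2 +
        (a3 : ℚ) • f8_o3 s1 r q s2 + (a4 : ℚ) • f8_o4 s1 r q s2 := by
      rw [← Int.cast_smul_eq_zsmul ℚ e]
      module
    rw [e1]
    exact (Rad B K p).add_mem ((Rad B K p).add_mem ((Rad B K p).add_mem (f8_smul m1 _)
      (f8_smul m2 _)) (f8_smul m3 _)) (f8_smul m4 _)
  subst hx1
  rw [hx, hz] at hn
  rcases hn with hn | hn | hn
  · exfalso
    have hz5 : (z : ℚ) = 5 := by push_cast at hn; linarith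
    have d2 : f8_o2 s1 r q s2 - (3 : ℚ) • f8_o1 s1 r q s2 ∈ Rad B K 5 := by
      refine ⟨K.sub_mem mo2 (by exact_mod_cast f8_smul mo1 3), fun y hy => ?_⟩
      obtain ⟨c1, c2, c3, c4, e, rfl⟩ := hsp y hy
      refine ⟨(-3) * c1 + (3) * c2 + (-2) * c3 + (1) * c4, ?_⟩
      simp only [map_add, map_sub, map_smul, LinearMap.sub_apply, LinearMap.smul_apply, smul_eq_mul,
        W.w21, W.w22, W.w23, W.w24, W.w25, W.w11, W.w12, W.w13, W.w14, W.w15]
      push_cast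
      ring
    have d3 : f8_o3 s1 r q s2 - (3 : ℚ) • f8_o1 s1 r q s2 ∈ Rad B K 5 := by
      refine ⟨K.sub_mem mo3 (by exact_mod_cast f8_smul mo1 3), fun y hy => ?_⟩
      obtain ⟨c1, c2, c3, c4, e, rfl⟩ := hsp y hy
      refine ⟨(-2) * c1 + (1) * c2 + (0) * c3 + (0) * c4, ?_⟩
      simp only [map_add, map_sub, map_smul, LinearMap.sub_apply, LinearMap.smul_apply, smul_eq_mul,
        W.w31, W.w32, W.w33, W.w34, W.w35, W.w11, W.w12, W.w13, W.w14, W.w15]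
      push_cast
      ring
    have d4 : f8_o4 s1 r q s2 - (1 : ℚ) • f8_o1 s1 r q s2 ∈ Rad B K 5 := by
      refine ⟨K.sub_mem mo4 (by exact_mod_cast f8_smul mo1 1), fun y hy => ?_⟩
      obtain ⟨c1, c2, c3, c4, e, rfl⟩ := hsp y hy
      refine ⟨(-1) * c1 + (1) * c2 + (-1) * c3 + (1) * c4, ?_⟩
      simp only [map_add, map_sub, map_smul, LinearMap.sub_apply, LinearMap.smul_apply, smul_eq_mul,
        W.w41, W.w42, W.w43, W.w44, W.w45, W.w11, W.w12, W.w13, W.w14, W.w15]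
      push_cast
      ring
    have d5 : s3 ∈ Rad B K 5 := by
      refine ⟨h.h3.1, fun y hy => ?_⟩
      obtain ⟨c1, c2, c3, c4, e, rfl⟩ := hsp y hy
      refine ⟨2 * e, ?_⟩
      simp only [map_add, map_smul, smul_eq_mul, W.w51, W.w52, W.w53, W.w54, W.w55, hz5]
      push_cast
      ring
    refine not_big hF.toK5 hF.even.1 hb Nat.prime_five (by norm_num) mo1 fun v hv => ?_
    obtain ⟨c1, c2, c3, c4, e, rfl⟩ := hsp v hv
    refine ⟨c1 + 3 * c2 + 3 * c3 + c4, ?_⟩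
    have e1 : (c1 : ℚ) • f8_o1 s1 r q s2 + (c2 : ℚ) • f8_o2 s1 r q s2 +
        (c3 : ℚ) • f8_o3 s1 r q s2 + (c4 : ℚ) • f8_o4 s1 r q s2 + (e : ℚ) • s3 -
        (c1 + 3 * c2 + 3 * c3 + c4) • f8_o1 s1 r q s2 =
        (c2 : ℚ) • (f8_o2 s1 r q s2 - (3 : ℚ) • f8_o1 s1 r q s2) +
        (c3 : ℚ) • (f8_o3 s1 r q s2 - (3 : ℚ) • f8_o1 s1 r q s2) +
        (c4 : ℚ) • (f8_o4 s1 r q s2 - (1 : ℚ) • f8_o1 s1 r q s2) + (e : ℚ) • s3 := by
      rw [← Int.cast_smul_eq_zsmul ℚ (c1 + 3 * c2 + 3 * c3 + c4)]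
      push_cast
      module
    rw [e1]
    exact (Rad B K 5).add_mem ((Rad B K 5).add_mem ((Rad B K 5).add_mem (f8_smul d2 _)
      (f8_smul d3 _)) (f8_smul d4 _)) (f8_smul d5 _)
  · exfalso
    have hz5 : z = 5 * 5 := by
      have h2 : (z : ℚ) = ((5 * 5 : ℕ) : ℚ) := by
        push_cast at hn ⊢
        linarith
      exact_mod_cast h2
    have h3 := sz 5 ⟨1, by omega⟩
    rw [Nat.isUnit_iff] at h3
    omega
  · have hz1 : (z : ℚ) = 1 := by push_cast at hn; linarith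
    right; right; left
    have hspan : ∀ v ∈ K, ∃ z : Fin 5 → ℤ, v = ∑ i, (z i : ℚ) • ![f8_o1 s1 r q s2,
        f8_o2 s1 r q s2, f8_o3 s1 r q s2, f8_o4 s1 r q s2, s3] i := by
      intro v hv
      obtain ⟨a1, a2, a3, a4, e, rfl⟩ := hsp v hv
      refine ⟨![a1, a2, a3, a4, e], ?_⟩
      simp [Fin.sum_univ_five]
    have hmem : ∀ i, ![f8_o1 s1 r q s2, f8_o2 s1 r q s2, f8_o3 s1 r q s2, f8_o4 s1 r q s2, s3] i
        ∈ K := by
      intro i
      fin_cases i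
      · exact mo1
      · exact mo2
      · exact mo3
      · exact mo4
      · exact h.h3.1
    refine f8_gram !![4,2,0,0,0; 2,4,2,0,0; 0,2,4,2,0; 0,0,2,4,0; 0,0,0,0,5] 10
      (by norm_num) (by decide) hF.toK5 ![f8_o1 s1 r q s2, f8_o2 s1 r q s2, f8_o3 s1 r q s2,
        f8_o4 s1 r q s2, s3] ?_ hmem hspan
    intro i j
    fin_cases i <;> fin_cases j <;>
      simp [E3, W.w11, W.w12, W.w13, W.w14, W.w15, W.w21, W.w22, W.w23, W.w24, W.w25, W.w31,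
        W.w32, W.w33, W.w34, W.w35, W.w41, W.w42, W.w43, W.w44, W.w45, W.w51, W.w52, W.w53,
        W.w54, W.w55, hz1] <;> norm_num

/-- Row [RH-F8]: `Beta` lattices in `F_0` with `z = x`, `z = 5x` or `x = 5z`.

Proof.  `(s1,s1) = n = 2x`, `(s3,s3) = 2z`, `x, z` odd squarefree.  For `v ∈ K` let `c_i, e` be as in
`beta_coord`.  Modulo 5 the coefficients in `5v = …` are
`χ, 3χ, 3χ, χ` with `χ(v) = 4c1 - 3c2 + 2c3 - c4`
(check: `-3c1+6c2-4c3+2c4 ≡ 3χ`, `2c1-4c2+6c3-3c4 ≡ 3χ`, `-c1+2c2-3c3+4c4 ≡ χ mod 5`).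
Case 1: `χ(v) ≡ 0 mod 5` for all `v ∈ K`: `K` is the ℤ-span of `s1,r,q,s2,s3`.  If a prime
`p ∣ x`: for `v ∈ K` all products `(v,s1) = x c1` etc. are divisible by `p`, so `s1,r,q,s2 ∈ Rad`,
contradiction by `not_big` with `g = s3`.  So `x = 1`, `n = 2`, and `z = 1` or `z = 5` (`1 = 5z` is
impossible): `E1` or `E2` with the basis `s1,r,q,s2,s3`.
Case 2: some `v₀ ∈ K` has `χ(v₀) ≢ 0`.  Then `K` contains all `w` with `2(w,ρ)/n ∈ ℤ` for
`ρ = s1,r,q,s2` and `(w,s3) = 0` (if `c_i` are the values of `w`, `χ(w) ≡ tχ(v₀)`, then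
`w - t(v₀ - e s3)` is an integral combination of `s1,r,q,s2`).  In particular the vectors
`ω_1,…,ω_4` of the span of `s1,r,q,s2` dual to `(2/n)(s1,r,q,s2)` are in `K`: the coordinates of
`5ω_j` are the columns of `[[4,-3,2,-1],[-3,6,-4,2],[2,-4,6,-3],[-1,2,-3,4]]`, and
`(ω_i,ω_j) = (x/5)·` the same matrix.  `(ω_2,ω_2) = 6x/5 ∈ ℤ`, so `5 ∣ x`, `x = 5x'`, `5 ∤ x'`.
If a prime `p ∣ x'`: the products of the `ω_i` with `K` are divisible by `p`; `not_big` with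
`g = s3`.  So `x' = 1`, `x = 5`.  `z = 5x = 25` is not squarefree.  If `z = x = 5`: for `p = 5` every
`v ∈ K` is `∑ c_i ω_i + e s3`, `s3 ∈ Rad B K 5` (`(v,s3) = 10 e`), and modulo 5 the matrix has rank
1: `ω_2 - 3ω_1`, `ω_3 - 3ω_1`, `ω_4 - ω_1 ∈ Rad B K 5` (rows
`(-3,6,-4,2) ≡ (2,-4,6,-3) ≡ 3(4,-3,2,-1)`, `(-1,2,-3,4) ≡ (4,-3,2,-1)` mod 5); `not_big` with `g = ω_1`, contradiction.  So `x = 5z`,
`z = 1`: `E3` with the basis `ω_1,…,ω_4,s3`. -/
theorem beta_exc {B : LinearMap.BilinForm ℚ V} {K : AddSubgroup V} (hF : F0 B K)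
    (hb : Big2 B K) {s1 r q s2 s3 : V} (h : Beta B K s1 r q s2 s3)
    (hn : B s3 s3 = B s1 s1 ∨ B s3 s3 = 5 * B s1 s1 ∨ B s1 s1 = 5 * B s3 s3) : Exc B K := by
  obtain ⟨x, ox, sx, hx⟩ := (root_norm h.h1).1 hF
  obtain ⟨z, oz, sz, hz⟩ := (root_norm h.h3).1 hF
  by_cases hc : ∀ v ∈ K, ∃ a1 a2 a3 a4 e : ℤ, v = (a1 : ℚ) • s1 + (a2 : ℚ) • r + (a3 : ℚ) • q +
      (a4 : ℚ) • s2 + (e : ℚ) • s3
  · exact f8_case1 hF hb h ox hx hz hc hn
  · push Not at hc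
    obtain ⟨v₀, hv₀, hc⟩ := hc
    obtain ⟨c1, c2, c3, c4, e, -, -, -, -, -, h5⟩ := beta_coord hF.toK5 h hv₀
    obtain ⟨χ, hχ⟩ : ∃ χ : ℤ, χ = 4 * c1 - 3 * c2 + 2 * c3 - c4 := ⟨_, rfl⟩
    have hv5 : v₀ = (1 / 5 : ℚ) • (5 : ℚ) • v₀ := by module
    have hχ5 : ¬ (5 : ℤ) ∣ χ := by
      rintro ⟨k, hk⟩
      have hkq : (χ : ℚ) = 5 * k := by rw [hk]; push_cast; ring
      have hχq : (χ : ℚ) = 4 * c1 - 3 * c2 + 2 * c3 - c4 := by rw [hχ]; push_cast; ring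
      apply hc k (3 * k + (-3 * c1 + 3 * c2 - 2 * c3 + c4)) (3 * k + (-2 * c1 + c2))
        (k + (-c1 + c2 - c3 + c4)) e
      have hkk : (k : ℚ) = (4 * c1 - 3 * c2 + 2 * c3 - c4) / 5 := by linarith
      rw [hv5, h5]
      push_cast
      rw [hkk]
      module
    obtain ⟨θ, hθ⟩ : ∃ θ : V, θ = (1 / 5 : ℚ) • s1 + (3 / 5 : ℚ) • r + (3 / 5 : ℚ) • q +
      (1 / 5 : ℚ) • s2 := ⟨_, rfl⟩
    have m1 : (χ : ℚ) • θ ∈ K := by
      have e1 : (χ : ℚ) • θ = v₀ - ((-3 * c1 + 3 * c2 - 2 * c3 + c4 : ℤ) : ℚ) • r -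
          ((-2 * c1 + c2 : ℤ) : ℚ) • q - ((-c1 + c2 - c3 + c4 : ℤ) : ℚ) • s2 -
          (e : ℚ) • s3 := by
        rw [hv5, h5, hθ, hχ]
        push_cast
        module
      rw [e1]
      exact K.sub_mem (K.sub_mem (K.sub_mem (K.sub_mem hv₀ (f8_smul h.hr.1 _))
        (f8_smul h.hq.1 _)) (f8_smul h.h2.1 _)) (f8_smul h.h3.1 _)
    have m2 : (5 : ℚ) • θ ∈ K := by
      have e1 : (5 : ℚ) • θ = ((1 : ℤ) : ℚ) • s1 + ((3 : ℤ) : ℚ) • r + ((3 : ℤ) : ℚ) • q +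
          ((1 : ℤ) : ℚ) • s2 := by
        rw [hθ]
        push_cast
        module
      rw [e1]
      exact K.add_mem (K.add_mem (K.add_mem (f8_smul h.h1.1 _) (f8_smul h.hr.1 _))
        (f8_smul h.hq.1 _)) (f8_smul h.h2.1 _)
    have mθ : θ ∈ K := by
      have hcop : IsCoprime (5 : ℤ) χ :=
        (Prime.coprime_iff_not_dvd (Int.prime_iff_natAbs_prime.2 (by norm_num))).2 hχ5
      obtain ⟨a, b, hab⟩ := hcop
      have hab' : (a : ℚ) * 5 + b * χ = 1 := by exact_mod_cast hab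
      have e1 : θ = (a : ℚ) • (5 : ℚ) • θ + (b : ℚ) • (χ : ℚ) • θ := by
        rw [smul_smul, smul_smul, ← add_smul, hab', one_smul]
      rw [e1]
      exact K.add_mem (f8_smul m2 _) (f8_smul m1 _)
    have mo1 : f8_o1 s1 r q s2 ∈ K := by
      have e1 : f8_o1 s1 r q s2 = ((4 : ℤ) : ℚ) • θ + ((-3 : ℤ) : ℚ) • r + ((-2 : ℤ) : ℚ) • q +
          ((-1 : ℤ) : ℚ) • s2 := by
        rw [hθ, f8_o1]
        push_cast
        module
      rw [e1]
      exact K.add_mem (K.add_mem (K.add_mem (f8_smul mθ _) (f8_smul h.hr.1 _))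
        (f8_smul h.hq.1 _)) (f8_smul h.h2.1 _)
    have mo2 : f8_o2 s1 r q s2 ∈ K := by
      have e1 : f8_o2 s1 r q s2 = ((2 : ℤ) : ℚ) • θ + ((-1 : ℤ) : ℚ) • s1 +
          ((-2 : ℤ) : ℚ) • q := by
        rw [hθ, f8_o2]
        push_cast
        module
      rw [e1]
      exact K.add_mem (K.add_mem (f8_smul mθ _) (f8_smul h.h1.1 _)) (f8_smul h.hq.1 _)
    have mo3 : f8_o3 s1 r q s2 ∈ K := by
      have e1 : f8_o3 s1 r q s2 = ((2 : ℤ) : ℚ) • θ + ((-2 : ℤ) : ℚ) • r +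
          ((-1 : ℤ) : ℚ) • s2 := by
        rw [hθ, f8_o3]
        push_cast
        module
      rw [e1]
      exact K.add_mem (K.add_mem (f8_smul mθ _) (f8_smul h.hr.1 _)) (f8_smul h.h2.1 _)
    have mo4 : f8_o4 s1 r q s2 ∈ K := by
      have e1 : f8_o4 s1 r q s2 = ((4 : ℤ) : ℚ) • θ + ((-1 : ℤ) : ℚ) • s1 + ((-2 : ℤ) : ℚ) • r +
          ((-3 : ℤ) : ℚ) • q := by
        rw [hθ, f8_o4]
        push_cast
        module
      rw [e1]
      exact K.add_mem (K.add_mem (K.add_mem (f8_smul mθ _) (f8_smul h.h1.1 _))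
        (f8_smul h.hr.1 _)) (f8_smul h.hq.1 _)
    refine f8_case2 hF hb h ox sx sz hx hz mo1 mo2 mo3 mo4 ?_ hn
    intro v hv
    obtain ⟨c1, c2, c3, c4, e, -, -, -, -, -, h5⟩ := beta_coord hF.toK5 h hv
    refine ⟨c1, c2, c3, c4, e, ?_⟩
    have hv5 : v = (1 / 5 : ℚ) • (5 : ℚ) • v := by module
    rw [hv5, h5]
    simp only [f8_o1, f8_o2, f8_o3, f8_o4]
    module

end RH6
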