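import Pool.Agent.RH6.F8

namespace RH6

variable {V : Type*} [AddCommGroup V] [Module ℚ V] [FiniteDimensional ℚ V]

omit [FiniteDimensional ℚ V] in
/-- products of a combination -/
theorem f9_prod {B : LinearMap.BilinForm ℚ V} (u1 u2 u3 u4 u5 v : V) (a b c d e : ℚ) :
    B (a • u1 + b • u2 + c • u3 + d • u4 + e • u5) v =
      a * B u1 v + b * B u2 v + c * B u3 v + d * B u4 v + e * B u5 v := by
  simp only [map_add, LinearMap.add_apply, map_smul, LinearMap.smul_apply, smul_eq_mul]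

omit [FiniteDimensional ℚ V] in
theorem f9_mem {K : AddSubgroup V} {u : V} (z : ℤ) (hu : u ∈ K) : (z : ℚ) • u ∈ K := by
  rw [Int.cast_smul_eq_zsmul]
  exact K.zsmul_mem hu z

omit [FiniteDimensional ℚ V] in
theorem f9_comb {K : AddSubgroup V} {u1 u2 u3 u4 u5 : V} (h1 : u1 ∈ K) (h2 : u2 ∈ K)
    (h3 : u3 ∈ K) (h4 : u4 ∈ K) (h5 : u5 ∈ K) (a b c d e : ℤ) :
    (a : ℚ) • u1 + (b : ℚ) • u2 + (c : ℚ) • u3 + (d : ℚ) • u4 + (e : ℚ) • u5 ∈ K :=
  K.add_mem (K.add_mem (K.add_mem (K.add_mem (f9_mem a h1) (f9_mem b h2)) (f9_mem c h3))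
    (f9_mem d h4)) (f9_mem e h5)

omit [FiniteDimensional ℚ V] in
/-- five vectors with a form that separates the coordinates -/
theorem f9_indep {u1 u2 u3 u4 u5 : V}
    (h : ∀ a b c d e : ℚ, a • u1 + b • u2 + c • u3 + d • u4 + e • u5 = 0 →
      a = 0 ∧ b = 0 ∧ c = 0 ∧ d = 0 ∧ e = 0) : LinearIndependent ℚ ![u1, u2, u3, u4, u5] := by
  rw [Fintype.linearIndependent_iff]
  intro g hg
  simp only [Fin.sum_univ_five, Matrix.cons_val_zero, Matrix.cons_val_one, Matrix.cons_val] at hg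
  obtain ⟨h0, h1, h2, h3, h4⟩ := h _ _ _ _ _ hg
  intro i
  fin_cases i
  · exact h0
  · exact h1
  · exact h2
  · exact h3
  · exact h4

omit [FiniteDimensional ℚ V] in
/-- a lattice with a ℤ-basis with the Gram matrix `E4` -/
theorem f9_gram {B : LinearMap.BilinForm ℚ V} {K : AddSubgroup V} (hK : K5 B K)
    {s1 r s2 q s3 : V} (h : Gamma B K s1 r s2 q s3) (hn : B s1 s1 = 2)
    (hspan : ∀ v ∈ K, ∃ a b c d e : ℤ, v = (a : ℚ) • s1 + (b : ℚ) • r + (c : ℚ) • s2 +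
      (d : ℚ) • q + (e : ℚ) • s3) : HasGram E4 B K := by
  have hs := hK.symm
  have e11 : B s1 s1 = 2 := hn
  have e22 : B r r = 2 := h.rr.trans hn
  have e33 : B s2 s2 = 2 := h.s22.trans hn
  have e44 : B q q = 2 := h.qq.trans hn
  have e55 : B s3 s3 = 2 := h.s33.trans hn
  have e21 : B r s1 = 1 := by have := h.rs1; rw [hn] at this; linarith
  have e23 : B r s2 = 1 := by have := h.rs2; rw [hn] at this; linarith
  have e43 : B q s2 = 1 := by have := h.qs2; rw [hn] at this; linarith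
  have e45 : B q s3 = 1 := by have := h.qs3; rw [hn] at this; linarith
  have e12 : B s1 r = 1 := by rw [hs]; exact e21
  have e32 : B s2 r = 1 := by rw [hs]; exact e23
  have e34 : B s2 q = 1 := by rw [hs]; exact e43
  have e54 : B s3 q = 1 := by rw [hs]; exact e45
  have e13 : B s1 s2 = 0 := h.z12
  have e31 : B s2 s1 = 0 := by rw [hs]; exact e13
  have e15 : B s1 s3 = 0 := h.z13
  have e51 : B s3 s1 = 0 := by rw [hs]; exact e15
  have e35 : B s2 s3 = 0 := h.z23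
  have e53 : B s3 s2 = 0 := by rw [hs]; exact e35
  have e25 : B r s3 = 0 := h.zr3
  have e52 : B s3 r = 0 := by rw [hs]; exact e25
  have e41 : B q s1 = 0 := h.zq1
  have e14 : B s1 q = 0 := by rw [hs]; exact e41
  have e24 : B r q = 0 := h.zrq
  have e42 : B q r = 0 := by rw [hs]; exact e24
  have hind : ∀ a b c d e : ℚ, a • s1 + b • r + c • s2 + d • q + e • s3 = 0 →
      a = 0 ∧ b = 0 ∧ c = 0 ∧ d = 0 ∧ e = 0 := by
    intro a b c d e h0
    have k1 := congrArg (fun w => B w s1) h0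
    have k2 := congrArg (fun w => B w r) h0
    have k3 := congrArg (fun w => B w s2) h0
    have k4 := congrArg (fun w => B w q) h0
    have k5 := congrArg (fun w => B w s3) h0
    simp only [f9_prod, map_zero, LinearMap.zero_apply, e11, e12, e13, e14, e15, e21, e22, e23,
      e24, e25, e31, e32, e33, e34, e35, e41, e42, e43, e44, e45, e51, e52, e53, e54, e55]
      at k1 k2 k3 k4 k5
    refine ⟨?_, ?_, ?_, ?_, ?_⟩ <;> linarith
  let b : Module.Basis (Fin 5) ℚ V :=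
    basisOfLinearIndependentOfCardEqFinrank (f9_indep hind) (by rw [hK.dim]; rfl)
  have hb : ⇑b = ![s1, r, s2, q, s3] := coe_basisOfLinearIndependentOfCardEqFinrank _ _
  have b0 : b 0 = s1 := by rw [hb]; rfl
  have b1 : b 1 = r := by rw [hb]; rfl
  have b2 : b 2 = s2 := by rw [hb]; rfl
  have b3 : b 3 = q := by rw [hb]; rfl
  have b4 : b 4 = s3 := by rw [hb]; rfl
  refine ⟨b, ?_, ?_⟩
  · intro i j
    fin_cases i <;> fin_cases j <;>
      simp [b0, b1, b2, b3, b4, E4, e11, e12, e13, e14, e15, e21, e22, e23,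
      e24, e25, e31, e32, e33, e34, e35, e41, e42, e43, e44, e45, e51, e52, e53, e54, e55]
  · intro v
    constructor
    · intro hv
      obtain ⟨a, c, d, e, f, hv'⟩ := hspan v hv
      have hr : b.repr v = Finsupp.single 0 (a : ℚ) + Finsupp.single 1 (c : ℚ) +
          Finsupp.single 2 (d : ℚ) + Finsupp.single 3 (e : ℚ) + Finsupp.single 4 (f : ℚ) := by
        rw [hv', ← b0, ← b1, ← b2, ← b3, ← b4]
        simp only [map_add, map_smul, Module.Basis.repr_self, Finsupp.smul_single, smul_eq_mul,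
          mul_one]
      rw [hr]
      intro i
      fin_cases i
      · exact ⟨a, by simp⟩
      · exact ⟨c, by simp⟩
      · exact ⟨d, by simp⟩
      · exact ⟨e, by simp⟩
      · exact ⟨f, by simp⟩
    · intro hv
      choose z hz using hv
      have hx := b.sum_repr v
      rw [Fin.sum_univ_five, hz, hz, hz, hz, hz, b0, b1, b2, b3, b4] at hx
      rw [← hx]
      exact f9_comb h.h1.1 h.hr.1 h.h2.1 h.hq.1 h.h3.1 _ _ _ _ _

/-- Row [RH-F9]: `Gamma` lattices in `F_0`.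

Proof.  `(s1,s1) = n = 2x`.  For `v ∈ K` let `c_i` be as in `gamma_coord`.
(a) `c1 + c3 + c5` is even for all `v ∈ K`: otherwise `3v - w/2` (`w = s1+s2+s3`) is an integral
combination of the roots, `w/2 ∈ K`, `(w/2,w/2) = 3n/4 = 3x/2 ∉ ℤ`.
(b) Let `χ(v) = 5c1 - 4c2 + 3c3 - 2c4 + c5`; by (a) `3v` is an integral combination of the roots with
coefficients `½(5c1-4c2+3c3-2c4+c5)` etc., which are modulo 3 the multiples
`(1,2·…)`: all rows of the matrix in `gamma_coord` are multiples of the first one modulo 3: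
`(5,-4,3,-2,1) ≡ (2,2,0,1,1)`, `(-4,8,-6,4,-2) ≡ (2,2,0,1,1)`, `(3,-6,9,-6,3) ≡ 0`,
`(-2,4,-6,8,-4) ≡ (1,1,0,2,2)`, `(1,-2,3,-4,5) ≡ (1,1,0,2,2)`.  If `3 ∣ χ(v)` for all `v ∈ K`, then
`K` is the ℤ-span of the roots.  If a prime `p ∣ x`, all products `(v,ρ) = x c` are divisible by
`p` and `Rad B K p = K`, contradiction (`not_big` with `g = 0`).  So `x = 1`, `E4`.
(c) Otherwise there is `v₀ ∈ K` with `3 ∤ χ(v₀)` and every `v ∈ K` is `t v₀ +` an integral
combination of the roots.  If `3 ∣ x`, the roots are in `Rad B K 3` (`(v,ρ) = x c`) and `not_big`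
with `p = 3`, `g = v₀` gives a contradiction.  If `3 ∤ x`: `3v₀ = ∑ y_i ρ_i`,
`y ≡ ±(1,1,0,2,2) mod 3`, `9(v₀,v₀) = n(∑ y_i² + ∑ y_i y_{i+1}) = 2x(…)`; with `y = ±(1,1,0,-1,-1) + 3t`
the bracket is `≡ 4 + 1 + 0 + 0 + 1 = 6 mod 9` (changing `y` by `3t` changes it by
`3 ∑ t_i(2y_i + y_{i-1} + y_{i+1})`, and `2y_i + y_{i-1} + y_{i+1} ≡ 0 mod 3` for all `i`, plus
`9(…)`), so `9 ∤ 2x·6`, contradiction. -/
theorem gamma_exc {B : LinearMap.BilinForm ℚ V} {K : AddSubgroup V} (hF : F0 B K)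
    (hb : Big2 B K) {s1 r s2 q s3 : V} (h : Gamma B K s1 r s2 q s3) : Exc B K := by
  have hs := hF.symm
  obtain ⟨x, ox, sx, nx⟩ := (root_norm h.h1).1 hF
  have hx0 : (x : ℚ) ≠ 0 := by
    have := hF.pos s1 h.h1.2.1
    rw [nx] at this
    intro h0
    rw [h0] at this
    simp at this
  have m1 := h.h1.1
  have m2 := h.hr.1
  have m3 := h.h2.1
  have m4 := h.hq.1
  have m5 := h.h3.1
  -- (a)
  have ha : ∀ v ∈ K, ∃ d k2 k3 k4 k5 : ℤ, (3 : ℚ) • v = (d : ℚ) • s1 + (d + 3 * k2 : ℚ) • r +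
      (3 * k3 : ℚ) • s2 + (-d + 3 * k4 : ℚ) • q + (-d + 3 * k5 : ℚ) • s3 := by
    intro v hv
    obtain ⟨c1, c2, c3, c4, c5, -, -, -, -, -, h6⟩ := gamma_coord hF.toK5 h hv
    rcases Int.even_or_odd (c1 + c3 + c5) with ⟨m, hm⟩ | ⟨m, hm⟩
    · have hm' : (c1 : ℚ) + c3 + c5 = m + m := by exact_mod_cast hm
      refine ⟨m + 2 * c1 - 2 * c2 + c3 - c4, -m - c1 - c3 + 2 * c2 + c4, m + c3 - c2 - c4,
        m - c3 - c5 + c4, c1 - c2 + c3 - c4 + c5, ?_⟩
      have h7 : (3 : ℚ) • v = (1 / 2 : ℚ) • ((6 : ℚ) • v) := by rw [smul_smul]; norm_num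
      rw [h7, h6]
      simp only [smul_add, smul_smul]
      push_cast
      have hc5 : (c5 : ℚ) = m + m - c1 - c3 := by linarith
      congr 1
      · congr 1
        · congr 1
          · congr 1
            · congr 1; rw [hc5]; ring
            · congr 1; rw [hc5]; ring
          · congr 1; rw [hc5]; ring
        · congr 1; rw [hc5]; ring
      · congr 1; rw [hc5]; ring
    · exfalso
      have hm' : (c1 : ℚ) + c3 + c5 = 2 * m + 1 := by exact_mod_cast hm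
      have hw : (1 / 2 : ℚ) • (s1 + s2 + s3) ∈ K := by
        have h8 : (1 / 2 : ℚ) • (s1 + s2 + s3) = (((3 : ℤ) : ℚ)) • v -
            (((m + 2 * c1 - 2 * c2 + c3 - c4 : ℤ) : ℚ) • s1 +
            ((-2 * c1 + 4 * c2 - 3 * c3 + 2 * c4 - c5 : ℤ) : ℚ) • r +
            ((m + c1 + 4 * c3 + c5 - 3 * c2 - 3 * c4 : ℤ) : ℚ) • s2 +
            ((-c1 + 2 * c2 - 3 * c3 + 4 * c4 - 2 * c5 : ℤ) : ℚ) • q +
            ((m + c3 + 2 * c5 - c2 - 2 * c4 : ℤ) : ℚ) • s3) := by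
          have h7 : (((3 : ℤ) : ℚ)) • v = (1 / 2 : ℚ) • ((6 : ℚ) • v) := by
            rw [smul_smul]; norm_num
          rw [h7, h6, eq_sub_iff_add_eq]
          have hc5 : (c5 : ℚ) = 2 * m + 1 - c1 - c3 := by linarith
          push_cast
          rw [hc5]
          module
        rw [h8]
        exact K.sub_mem (f9_mem _ hv) (f9_comb m1 m2 m3 m4 m5 _ _ _ _ _)
      obtain ⟨z, hz⟩ := hF.even.1 _ hw _ hw
      have e31 : B s2 s1 = 0 := by rw [hs]; exact h.z12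
      have e51 : B s3 s1 = 0 := by rw [hs]; exact h.z13
      have e53 : B s3 s2 = 0 := by rw [hs]; exact h.z23
      simp only [map_add, map_smul, LinearMap.add_apply, LinearMap.smul_apply, smul_eq_mul,
        h.z12, h.z13, h.z23, e31, e51, e53, h.s22, h.s33, nx] at hz
      obtain ⟨a, ha⟩ := ox
      rw [ha] at hz
      push_cast at hz
      have h9 : (3 * (2 * a + 1) : ℚ) = 2 * z := by linear_combination 2 * hz
      have h10 : 3 * (2 * (a : ℤ) + 1) = 2 * z := by exact_mod_cast h9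
      omega
  -- products with the roots
  have hprod : ∀ v ∈ K, ∃ c1 c2 c3 c4 c5 : ℤ, B s1 v = x * c1 ∧ B r v = x * c2 ∧
      B s2 v = x * c3 ∧ B q v = x * c4 ∧ B s3 v = x * c5 := by
    intro v hv
    obtain ⟨c1, c2, c3, c4, c5, h1, h2, h3, h4, h5, -⟩ := gamma_coord hF.toK5 h hv
    rw [nx] at h1 h2 h3 h4 h5
    refine ⟨c1, c2, c3, c4, c5, ?_, ?_, ?_, ?_, ?_⟩ <;> rw [hs] <;> linarith
  have hrad : ∀ p : ℕ, p ∣ x → s1 ∈ Rad B K p ∧ r ∈ Rad B K p ∧ s2 ∈ Rad B K p ∧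
      q ∈ Rad B K p ∧ s3 ∈ Rad B K p := by
    rintro p ⟨y, hy⟩
    have hy' : (x : ℚ) = p * y := by rw [hy]; push_cast; ring
    refine ⟨⟨m1, fun v hv => ?_⟩, ⟨m2, fun v hv => ?_⟩, ⟨m3, fun v hv => ?_⟩,
      ⟨m4, fun v hv => ?_⟩, ⟨m5, fun v hv => ?_⟩⟩ <;>
      obtain ⟨c1, c2, c3, c4, c5, h1, h2, h3, h4, h5⟩ := hprod v hv
    · exact ⟨y * c1, by rw [h1, hy']; push_cast; ring⟩
    · exact ⟨y * c2, by rw [h2, hy']; push_cast; ring⟩
    · exact ⟨y * c3, by rw [h3, hy']; push_cast; ring⟩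
    · exact ⟨y * c4, by rw [h4, hy']; push_cast; ring⟩
    · exact ⟨y * c5, by rw [h5, hy']; push_cast; ring⟩
  set g : V := (1 / 3 : ℚ) • (s1 + r - q - s3) with hg
  have hdec : ∀ v ∈ K, ∃ d k2 k3 k4 k5 : ℤ, v = (d : ℚ) • g + ((0 : ℤ) : ℚ) • s1 + (k2 : ℚ) • r +
      (k3 : ℚ) • s2 + (k4 : ℚ) • q + (k5 : ℚ) • s3 ∧ (3 : ℚ) • v = (d : ℚ) • s1 + (d + 3 * k2 : ℚ) • r +
      (3 * k3 : ℚ) • s2 + (-d + 3 * k4 : ℚ) • q + (-d + 3 * k5 : ℚ) • s3 := by
    intro v hv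
    obtain ⟨d, k2, k3, k4, k5, h3⟩ := ha v hv
    refine ⟨d, k2, k3, k4, k5, ?_, h3⟩
    have h4 : v = (1 / 3 : ℚ) • ((3 : ℚ) • v) := by rw [smul_smul]; norm_num
    rw [h4, h3, hg]
    module
  by_cases hall : ∀ v ∈ K, ∃ a b c d e : ℤ, v = (a : ℚ) • s1 + (b : ℚ) • r + (c : ℚ) • s2 +
      (d : ℚ) • q + (e : ℚ) • s3
  · -- `K` is the span of the roots
    have hx1 : x = 1 := by
      by_contra hne
      obtain ⟨p, hp, hpx⟩ := Nat.exists_prime_and_dvd hne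
      obtain ⟨r1, r2, r3, r4, r5⟩ := hrad p hpx
      refine not_big hF.toK5 hF.even.1 hb hp ?_ (g := 0) K.zero_mem ?_
      · rintro rfl
        obtain ⟨a, ha⟩ := ox
        omega
      · intro v hv
        obtain ⟨a, b, c, d, e, rfl⟩ := hall v hv
        refine ⟨0, ?_⟩
        rw [zero_smul, sub_zero]
        exact f9_comb r1 r2 r3 r4 r5 _ _ _ _ _
    refine Or.inr (Or.inr (Or.inr (f9_gram hF.toK5 h ?_ hall)))
    rw [nx, hx1]; norm_num
  · exfalso
    push Not at hall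
    obtain ⟨v, hv, hv'⟩ := hall
    obtain ⟨d, k2, k3, k4, k5, h1, h3⟩ := hdec v hv
    have hd3 : ¬ (3 : ℤ) ∣ d := by
      rintro ⟨d', rfl⟩
      apply hv' d' (d' + k2) k3 (-d' + k4) (-d' + k5)
      rw [h1, hg]
      push_cast
      module
    have h3g : (3 : ℚ) • g ∈ K := by
      have : (3 : ℚ) • g = s1 + r - q - s3 := by rw [hg, smul_smul]; norm_num
      rw [this]
      exact K.sub_mem (K.sub_mem (K.add_mem m1 m2) m4) m5
    have hdg : (d : ℚ) • g ∈ K := by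
      have : (d : ℚ) • g = v - (((0 : ℤ) : ℚ) • s1 + (k2 : ℚ) • r +
          (k3 : ℚ) • s2 + (k4 : ℚ) • q + (k5 : ℚ) • s3) := by
        rw [eq_sub_iff_add_eq]
        conv_rhs => rw [h1]
        abel
      rw [this]
      exact K.sub_mem hv (f9_comb m1 m2 m3 m4 m5 _ _ _ _ _)
    have hcop : IsCoprime d 3 := by
      rw [isCoprime_comm]
      exact (Int.prime_three.coprime_iff_not_dvd).2 hd3
    obtain ⟨a, b, hab⟩ := hcop
    have hgK : g ∈ K := by
      have hab' : (a : ℚ) * d + b * 3 = 1 := by exact_mod_cast hab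
      have : g = (a : ℚ) • ((d : ℚ) • g) + (b : ℚ) • ((3 : ℚ) • g) := by
        clear_value g
        have h7 : (a : ℚ) • ((d : ℚ) • g) + (b : ℚ) • ((3 : ℚ) • g) =
            ((a : ℚ) * d + b * 3) • g := by module
        rw [h7, hab', one_smul]
      rw [this]
      exact K.add_mem (f9_mem a hdg) (f9_mem b h3g)
    have h3x : 3 ∣ x := by
      obtain ⟨z, hz⟩ := hF.even.1 g hgK g hgK
      have e12 : 2 * B s1 r = B s1 s1 := by rw [hs]; exact h.rs1
      have e54 : 2 * B s3 q = B s1 s1 := by rw [hs]; exact h.qs3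
      have e14 : B s1 q = 0 := by rw [hs]; exact h.zq1
      have e51 : B s3 s1 = 0 := by rw [hs]; exact h.z13
      have e52 : B s3 r = 0 := by rw [hs]; exact h.zr3
      have e42 : B q r = 0 := by rw [hs]; exact h.zrq
      rw [hg] at hz
      simp only [map_add, map_sub, map_smul, LinearMap.add_apply, LinearMap.sub_apply,
        LinearMap.smul_apply, smul_eq_mul, e14, e51, e52, e42, h.z13, h.zr3, h.zq1, h.zrq] at hz
      have h5 : (4 * x : ℚ) = 3 * z := by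
        linear_combination 3 * hz - 1 / 6 * e12 - 1 / 6 * e54 - 1 / 6 * h.rs1 - 1 / 6 * h.qs3 -
          1 / 3 * h.rr - 1 / 3 * h.qq - 1 / 3 * h.s33 - 2 * nx
      have h6 : 4 * (x : ℤ) = 3 * z := by exact_mod_cast h5
      omega
    obtain ⟨r1, r2, r3, r4, r5⟩ := hrad 3 h3x
    refine not_big hF.toK5 hF.even.1 hb Nat.prime_three (by norm_num) hgK ?_
    intro w hw
    obtain ⟨d', l2, l3, l4, l5, h1', -⟩ := hdec w hw
    refine ⟨d', ?_⟩
    have : w - d' • g = ((0 : ℤ) : ℚ) • s1 + (l2 : ℚ) • r +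
          (l3 : ℚ) • s2 + (l4 : ℚ) • q + (l5 : ℚ) • s3 := by
      rw [← Int.cast_smul_eq_zsmul ℚ d' g, sub_eq_iff_eq_add]
      conv_lhs => rw [h1']
      abel
    rw [this]
    exact f9_comb r1 r2 r3 r4 r5 _ _ _ _ _

/-- Row [RH-F9]: framing in the family `F_0`: `root_thm` (`CF_rspan`), `alpha_to_beta`,
`beta_step`, `beta_exc`, `gamma_exc`, `HIso_trans`. -/
theorem frame_F0 {N : ℕ} {B : LinearMap.BilinForm ℚ V} {K : AddSubgroup V}
    (hX : Ctx N B K) (hF : F0 B K) :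
    ∃ K', Ctx N B K' ∧ F0 B K' ∧ HIso N B K K' ∧ (Framed B K' ∨ Exc B K') := by
  have hbeta : ∀ K : AddSubgroup V, Ctx N B K → F0 B K → ∀ s1 r q s2 s3, Beta B K s1 r q s2 s3 →
      ∃ K', Ctx N B K' ∧ F0 B K' ∧ HIso N B K K' ∧ (Framed B K' ∨ Exc B K') := by
    intro K hX hF s1 r q s2 s3 h
    rcases beta_step hX hF h with h1 | ⟨K', c1, c2, c3, c4⟩
    · exact ⟨K, hX, hF, HIso_refl N B K, Or.inr (beta_exc hF hX.big h h1)⟩
    · exact ⟨K', c1, c2, c3, Or.inl c4⟩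
  by_cases hU : Framed B K
  · exact ⟨K, hX, hF, HIso_refl N B K, Or.inl hU⟩
  have hR := CF_rspan hF.toK5 (N := N) (by rcases hX.hN with h | h <;> omega) hX.cf
  rcases root_thm hF.toK5 hR hU with ⟨s1, r, s2, q, s3, h⟩ | ⟨s1, r, q, s2, s3, h⟩ |
    ⟨s1, r, s2, q, s3, h⟩
  · obtain ⟨K', c1, c2, c3, c4 | ⟨t1, t2, t3, t4, t5, c4⟩⟩ := alpha_to_beta hX hF hU h
    · exact ⟨K', c1, c2, c3, Or.inl c4⟩
    · obtain ⟨K'', d1, d2, d3, d4⟩ := hbeta K' c1 c2 _ _ _ _ _ c4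
      exact ⟨K'', d1, d2, HIso_trans c3 d3, d4⟩
  · exact hbeta K hX hF _ _ _ _ _ h
  · exact ⟨K, hX, hF, HIso_refl N B K, Or.inr (gamma_exc hF hX.big h)⟩

end RH6
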