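import Pool.Agent.RH6.GDef

open Matrix

namespace RH6

theorem g2_eqI {a b : ℤ} : eqI a b = true ↔ a = b := by
  cases a <;> cases b <;> simp [eqI]

/-- entry of a list of lists -/
def g2_ent (E : List (List ℤ)) (i j : ℕ) : ℤ := (E.getD i []).getD j 0

theorem g2_ofL_hyp (N : ℕ) (E : List (List ℤ)) (hE : E.length = 5) :
    ofL (hypL N E) 0 0 = 0 ∧ ofL (hypL N E) 0 1 = N ∧ ofL (hypL N E) 1 0 = N ∧
    ofL (hypL N E) 1 1 = 0 ∧ (∀ j : Fin 5, ofL (hypL N E) 0 j.succ.succ = 0) ∧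
    (∀ j : Fin 5, ofL (hypL N E) 1 j.succ.succ = 0) ∧
    (∀ i : Fin 5, ofL (hypL N E) i.succ.succ 0 = 0) ∧
    (∀ i : Fin 5, ofL (hypL N E) i.succ.succ 1 = 0) ∧
    (∀ i j : Fin 5, ofL (hypL N E) i.succ.succ j.succ.succ = g2_ent E i j) := by
  have hrow : ∀ i : Fin 5, (hypL N E).getD (i.succ.succ : Fin 7) [] = 0 :: 0 :: (E.getD i []) := by
    intro i
    have h1 : ((i.succ.succ : Fin 7) : ℕ) = (i : ℕ) + 1 + 1 := rfl
    have h2 : (i : ℕ) < E.length := by rw [hE]; exact i.2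
    rw [h1]
    unfold hypL
    rw [List.getD_cons_succ, List.getD_cons_succ]
    rw [List.getD_eq_getElem _ _ (by rw [List.length_map]; exact h2), List.getElem_map,
      List.getD_eq_getElem _ _ h2]
  refine ⟨rfl, rfl, rfl, rfl, ?_, ?_, ?_, ?_, ?_⟩
  · intro j; fin_cases j <;> rfl
  · intro j; fin_cases j <;> rfl
  · intro i
    unfold ofL
    rw [hrow]; rfl
  · intro i
    unfold ofL
    rw [hrow]; rfl
  · intro i j
    unfold ofL
    rw [hrow]
    have h1 : ((j.succ.succ : Fin 7) : ℕ) = (j : ℕ) + 1 + 1 := rfl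
    rw [h1, List.getD_cons_succ, List.getD_cons_succ]
    rfl

theorem g2_sum7 {M : Type*} [AddCommMonoid M] (f : Fin 7 → M) :
    ∑ i, f i = f 0 + f 1 + ∑ i : Fin 5, f i.succ.succ := by
  rw [Fin.sum_univ_succ, Fin.sum_univ_succ, add_assoc]
  rfl

theorem g2_BQ_hyp (N : ℕ) (E : List (List ℤ)) (hE : E.length = 5) (x y : Fin 7 → ℚ) :
    BQ (ofL (hypL N E)) x y = N * (x 0 * y 1 + x 1 * y 0) +
      ∑ i : Fin 5, ∑ j : Fin 5, (g2_ent E i j : ℚ) * x i.succ.succ * y j.succ.succ := by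
  obtain ⟨h00, h01, h10, h11, h0, h1, h2, h3, h4⟩ := g2_ofL_hyp N E hE
  rw [BQ_apply]
  have e0 : ∀ i : Fin 7, (mQ (ofL (hypL N E)) *ᵥ y) i =
      ((ofL (hypL N E) i 0 : ℤ) : ℚ) * y 0 + ((ofL (hypL N E) i 1 : ℤ) : ℚ) * y 1 +
        ∑ j : Fin 5, ((ofL (hypL N E) i j.succ.succ : ℤ) : ℚ) * y j.succ.succ := by
    intro i
    unfold mulVec dotProduct
    rw [g2_sum7]
    rfl
  unfold dotProduct
  rw [g2_sum7]
  simp only [e0, h00, h01, h10, h11, h0, h1, h2, h3, h4, Int.cast_zero, zero_mul, Finset.sum_const_zero, add_zero,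
    zero_add, Int.cast_natCast]
  have e2 : ∀ i : Fin 5, x i.succ.succ * ∑ j : Fin 5, (g2_ent E i j : ℚ) * y j.succ.succ =
      ∑ j : Fin 5, (g2_ent E i j : ℚ) * x i.succ.succ * y j.succ.succ := by
    intro i
    rw [Finset.mul_sum]
    refine Finset.sum_congr rfl fun j _ => ?_
    ring
  rw [Finset.sum_congr rfl fun i _ => e2 i]
  ring

theorem g2_dotL5 (a b : List ℤ) (ha : a.length = 5) (hb : b.length = 5) :
    dotL a b = ∑ i : Fin 5, a.getD i 0 * b.getD i 0 := by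
  match a, ha with
  | [a0, a1, a2, a3, a4], _ =>
    match b, hb with
    | [b0, b1, b2, b3, b4], _ =>
      simp [dotL, Fin.sum_univ_five]
      ring

/-- unpacking `twoB` -/
theorem g2_twoB {E E' : List (List ℤ)} {e : ℕ} (h : twoB E E' e = true) :
    E.length = 5 ∧ e % 2 = 1 ∧ (∀ i j : Fin 5, g2_ent E i j = g2_ent E j i) ∧
    ∀ i k : Fin 5, ∑ j : Fin 5, g2_ent E i j * g2_ent E' j k = if i = k then (e : ℤ) else 0 := by
  unfold twoB at h
  simp only [Bool.and_eq_true] at h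
  obtain ⟨⟨⟨⟨⟨⟨h1, h2⟩, h3⟩, h4⟩, h5⟩, h6⟩, h7⟩ := h
  have h1 : E.length = 5 := Nat.eq_of_beq_eq_true h1
  have h3 : E'.length = 5 := Nat.eq_of_beq_eq_true h3
  have h5 : e % 2 = 1 := Nat.eq_of_beq_eq_true h5
  rw [List.all_eq_true] at h2 h4 h7
  have hlen : ∀ i : Fin 5, (E.getD i []).length = 5 := by
    intro i
    have hi : (i : ℕ) < E.length := by rw [h1]; exact i.2
    rw [List.getD_eq_getElem _ _ hi]
    exact Nat.eq_of_beq_eq_true (h2 _ (List.getElem_mem hi))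
  refine ⟨h1, h5, ?_, ?_⟩
  · -- symmetry
    unfold isSym at h6
    simp only [Bool.and_eq_true] at h6
    obtain ⟨-, h6⟩ := h6
    rw [List.all_eq_true] at h6
    have hE := (g2_ofL_hyp 1 E h1).2.2.2.2.2.2.2.2
    have key : ∀ i j : Fin 5, j < i → g2_ent E i j = g2_ent E j i := by
      intro i j hij
      have h8 := h6 ((i.succ.succ : Fin 7) : ℕ) (List.mem_range.mpr (i.succ.succ : Fin 7).2)
      rw [List.all_eq_true] at h8
      have h9 := h8 ((j.succ.succ : Fin 7) : ℕ) (List.mem_range.mpr (by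
        have : (j : ℕ) < i := hij
        show (j : ℕ) + 1 + 1 < (i : ℕ) + 1 + 1
        omega))
      rw [g2_eqI] at h9
      rw [← hE i j, ← hE j i]
      exact h9
    intro i j
    rcases lt_trichotomy i j with hij | hij | hij
    · exact (key j i hij).symm
    · rw [hij]
    · exact key i j hij
  · intro i k
    have h8 := h7 i (List.mem_range.mpr i.2)
    rw [List.all_eq_true] at h8
    have h9 := h8 k (List.mem_range.mpr k.2)
    rw [g2_eqI, g2_dotL5 _ _ (hlen i) (by rw [List.length_map]; exact h3)] at h9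
    have h10 : ∀ j : Fin 5, (E'.map fun r => r.getD (k : ℕ) 0).getD (j : ℕ) 0 = g2_ent E' j k := by
      intro j
      have hj : (j : ℕ) < E'.length := by rw [h3]; exact j.2
      unfold g2_ent
      rw [List.getD_eq_getElem _ _ (by rw [List.length_map]; exact hj), List.getElem_map,
        List.getD_eq_getElem _ _ hj]
    simp only [h10] at h9
    show ∑ j : Fin 5, (E.getD i []).getD j 0 * g2_ent E' j k = _
    rw [h9]
    by_cases hik : i = k
    · subst hik
      simp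
    · rw [if_neg hik]
      have : Nat.beq (i : ℕ) (k : ℕ) = false := by
        cases hb : Nat.beq (i : ℕ) (k : ℕ)
        · rfl
        · exact absurd (Fin.ext (Nat.eq_of_beq_eq_true hb)) hik
      rw [this]; rfl


theorem g2_eq_of_fin7 {M : Type*} {f g : Fin 7 → M} (h0 : f 0 = g 0) (h1 : f 1 = g 1)
    (h : ∀ i : Fin 5, f i.succ.succ = g i.succ.succ) : f = g := by
  funext i
  refine Fin.cases h0 (fun i => ?_) i
  exact Fin.cases h1 (fun i => h i) i

theorem g2_forall7 {p : Fin 7 → Prop} : (∀ i, p i) ↔ p 0 ∧ p 1 ∧ ∀ i : Fin 5, p i.succ.succ := by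
  constructor
  · intro h
    exact ⟨h 0, h 1, fun i => h _⟩
  · rintro ⟨h0, h1, h⟩ i
    refine Fin.cases h0 (fun i => ?_) i
    exact Fin.cases h1 (fun i => h i) i

/-- the map `(p,q;y) ↦ (p,q;y/2)` -/
noncomputable def g2_phi : (Fin 7 → ℚ) ≃ₗ[ℚ] (Fin 7 → ℚ) where
  toFun x := fun i => (if i.1 < 2 then 1 else 1 / 2) * x i
  map_add' x y := by funext i; simp [mul_add]
  map_smul' c x := by funext i; simp; ring_nf
  invFun x := fun i => (if i.1 < 2 then 1 else 2) * x i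
  left_inv x := by
    funext i
    by_cases h : i.1 < 2
    · simp [h]
    · simp [h]
  right_inv x := by
    funext i
    by_cases h : i.1 < 2
    · simp [h]
    · simp [h]

theorem g2_phi_0 (x : Fin 7 → ℚ) : g2_phi x 0 = x 0 := by
  show (if (0 : Fin 7).1 < 2 then (1 : ℚ) else 1 / 2) * x 0 = x 0
  simp

theorem g2_phi_1 (x : Fin 7 → ℚ) : g2_phi x 1 = x 1 := by
  show (if (1 : Fin 7).1 < 2 then (1 : ℚ) else 1 / 2) * x 1 = x 1
  simp

theorem g2_phi_s (x : Fin 7 → ℚ) (i : Fin 5) : g2_phi x i.succ.succ = (1 / 2) * x i.succ.succ := by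
  show (if (i.succ.succ : Fin 7).1 < 2 then (1 : ℚ) else 1 / 2) * x i.succ.succ = _
  have : ¬ (i.succ.succ : Fin 7).1 < 2 := by
    show ¬ (i : ℕ) + 1 + 1 < 2
    omega
  rw [if_neg this]

theorem g2_ent_scl (E : List (List ℤ)) (i j : ℕ) : g2_ent (E.map (sclL 2)) i j = 2 * g2_ent E i j := by
  have h1 : ∀ r : List ℤ, ∀ j : ℕ, (sclL 2 r).getD j 0 = 2 * r.getD j 0 := by
    intro r
    induction r with
    | nil => intro j; simp [sclL]
    | cons a r ih =>
      intro j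
      cases j with
      | zero => simp [sclL]
      | succ j =>
        show (sclL 2 r).getD j 0 = 2 * r.getD j 0
        exact ih j
  have h2 : (E.map (sclL 2)).getD i [] = sclL 2 (E.getD i []) := by
    by_cases hi : i < E.length
    · rw [List.getD_eq_getElem (E.map (sclL 2)) _ (by rw [List.length_map]; exact hi), List.getElem_map,
        List.getD_eq_getElem E _ hi]
    · rw [List.getD_eq_default (E.map (sclL 2)) _ (by rw [List.length_map]; omega),
        List.getD_eq_default E _ (by omega)]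
      rfl
  unfold g2_ent
  rw [h2, h1]

/-- Row [RH-G2]: `U(2) ⊥ E` and `U ⊥ E(2)` for `E` unimodular at 2.

Proof.  `G = ofL (hypL 2 E)` (symmetric, nondegenerate), `L = ℤ^7`.  `Elem (BQ G) Z7 2`: for
`x = (p,q;y)` in the dual `2p, 2q ∈ ℤ` and `E y ∈ ℤ^5`, so `e y ∈ ℤ^5`; if `4x ∈ L`, then `4y ∈ ℤ^5`, so
`y ∈ ℤ^5` (`e` odd) and `2x ∈ L`.  `Rad (BQ G) Z7 2 = {(p,q;y) : p,q ∈ ℤ, y ∈ 2ℤ^5}` (if
`E y ∈ 2ℤ^5` then `e y ∈ 2ℤ^5`, `y ∈ 2ℤ^5`).  `QEq_rad`, and `(p,q;y) ↦ (p,q;y/2)` is an isometry of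
`(Rad, ½ BQ G)` onto `(Z7, BQ (ofL (hypL 1 (E.map (sclL 2)))))`; `QEq_of_iso` with `c = 1`. -/
theorem qeq_two {E E' : List (List ℤ)} {e : ℕ} (h : twoB E E' e = true) :
    QEq (BQ (ofL (hypL 2 E))) Z7 (BQ (ofL (hypL 1 (E.map (sclL 2))))) Z7 := by
  obtain ⟨hE, he, hsym, hinv⟩ := g2_twoB h
  -- recover a coordinate
  have hrec : ∀ (x : Fin 5 → ℚ) (k : Fin 5),
      ∑ j : Fin 5, (∑ i : Fin 5, (g2_ent E i j : ℚ) * x i) * (g2_ent E' j k : ℚ) = (e : ℚ) * x k := by
    intro x k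
    have h1 : ∀ i : Fin 5, ∑ j : Fin 5, (g2_ent E i j : ℚ) * (g2_ent E' j k : ℚ) = if i = k then (e : ℚ) else 0 := by
      intro i
      have := hinv i k
      have h2 := congrArg (Int.cast : ℤ → ℚ) this
      push_cast at h2
      rw [h2]

    calc ∑ j : Fin 5, (∑ i : Fin 5, (g2_ent E i j : ℚ) * x i) * (g2_ent E' j k : ℚ)
        = ∑ j : Fin 5, ∑ i : Fin 5, ((g2_ent E i j : ℚ) * (g2_ent E' j k : ℚ)) * x i := by
          refine Finset.sum_congr rfl fun j _ => ?_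
          rw [Finset.sum_mul]
          refine Finset.sum_congr rfl fun i _ => ?_
          ring
      _ = ∑ i : Fin 5, ∑ j : Fin 5, ((g2_ent E i j : ℚ) * (g2_ent E' j k : ℚ)) * x i := Finset.sum_comm
      _ = ∑ i : Fin 5, (if i = k then (e : ℚ) else 0) * x i := by
          refine Finset.sum_congr rfl fun i _ => ?_
          rw [← Finset.sum_mul, h1]
      _ = (e : ℚ) * x k := by simp
  have he0 : (e : ℚ) ≠ 0 := by
    intro h0
    have : e = 0 := by exact_mod_cast h0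
    omega
  -- pairing with unit vectors
  have hunit : ∀ (N : ℕ) (F : List (List ℤ)) (hF : F.length = 5) (x : Fin 7 → ℚ),
      BQ (ofL (hypL N F)) x (Pi.single 0 1) = N * x 1 ∧
      BQ (ofL (hypL N F)) x (Pi.single 1 1) = N * x 0 ∧
      ∀ j : Fin 5, BQ (ofL (hypL N F)) x (Pi.single j.succ.succ 1) = ∑ i : Fin 5, (g2_ent F i j : ℚ) * x i.succ.succ := by
    intro N F hF x
    have n1 : ∀ j : Fin 5, (j.succ.succ : Fin 7) ≠ 0 := fun j => Fin.succ_ne_zero _
    have n2 : ∀ j : Fin 5, (j.succ.succ : Fin 7) ≠ 1 := by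
      intro j hj
      have := congrArg Fin.val hj
      simp at this
    refine ⟨?_, ?_, ?_⟩
    · rw [g2_BQ_hyp N F hF]
      simp [n1]
    · rw [g2_BQ_hyp N F hF]
      simp [n2]
    · intro j
      rw [g2_BQ_hyp N F hF]
      have h0 : (Pi.single (j.succ.succ : Fin 7) (1 : ℚ) : Fin 7 → ℚ) 0 = 0 := by
        rw [Pi.single_apply, if_neg (Ne.symm (n1 j))]
      have h1 : (Pi.single (j.succ.succ : Fin 7) (1 : ℚ) : Fin 7 → ℚ) 1 = 0 := by
        rw [Pi.single_apply, if_neg (Ne.symm (n2 j))]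
      rw [h0, h1, mul_zero, mul_zero, add_zero, mul_zero, zero_add]
      refine Finset.sum_congr rfl fun i _ => ?_
      have h2 : ∀ k : Fin 5, (Pi.single (j.succ.succ : Fin 7) (1 : ℚ) : Fin 7 → ℚ) k.succ.succ = if k = j then 1 else 0 := by
        intro k
        rw [Pi.single_apply]
        by_cases hk : k = j
        · subst hk; simp
        · rw [if_neg hk, if_neg]
          intro hh
          exact hk (Fin.succ_injective _ (Fin.succ_injective _ hh))
      simp [h2]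
  have hZunit : ∀ j : Fin 7, (Pi.single j (1 : ℚ) : Fin 7 → ℚ) ∈ Z7 := by
    intro j i
    rw [Pi.single_apply]
    split_ifs
    · exact ⟨1, by simp⟩
    · exact ⟨0, by simp⟩
  have hN : Nice (BQ (ofL (hypL 2 E))) := by
    refine ⟨?_, ?_⟩
    · intro x y
      rw [g2_BQ_hyp 2 E hE, g2_BQ_hyp 2 E hE, Finset.sum_comm]
      have : ∑ j : Fin 5, ∑ i : Fin 5, (g2_ent E i j : ℚ) * x i.succ.succ * y j.succ.succ =
          ∑ i : Fin 5, ∑ j : Fin 5, (g2_ent E i j : ℚ) * y i.succ.succ * x j.succ.succ := by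
        refine Finset.sum_congr rfl fun j _ => ?_
        refine Finset.sum_congr rfl fun i _ => ?_
        rw [hsym i j]; ring
      rw [this]; ring
    · intro x hx
      obtain ⟨u0, u1, u2⟩ := hunit 2 E hE x
      rw [hx] at u0 u1
      refine g2_eq_of_fin7 ?_ ?_ ?_
      · show x 0 = 0
        push_cast at u1; linarith
      · show x 1 = 0
        push_cast at u0; linarith
      · intro k
        have h1 := hrec (fun i => x i.succ.succ) k
        have h2 : ∀ j : Fin 5, ∑ i : Fin 5, (g2_ent E i j : ℚ) * x i.succ.succ = 0 := by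
          intro j
          rw [← u2 j, hx]
        simp only [h2, zero_mul, Finset.sum_const_zero] at h1
        have h3 := mul_eq_zero.mp h1.symm
        exact h3.resolve_left he0
  have hI : Integ (BQ (ofL (hypL 2 E))) Z7 := by
    intro x hx y hy
    choose a ha using hx
    choose b hb using hy
    refine ⟨2 * (a 0 * b 1 + a 1 * b 0) + ∑ i : Fin 5, ∑ j : Fin 5, g2_ent E i j * a i.succ.succ * b j.succ.succ, ?_⟩
    rw [g2_BQ_hyp 2 E hE]
    push_cast
    simp only [ha, hb]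
  -- e x_k is integral
  have hint : ∀ (x : Fin 7 → ℚ) (m : ℚ), (∀ j : Fin 5, ∃ z : ℤ, ∑ i : Fin 5, (g2_ent E i j : ℚ) * x i.succ.succ = m * z) →
      ∀ k : Fin 5, ∃ z : ℤ, (e : ℚ) * x k.succ.succ = m * z := by
    intro x m hx k
    choose z hz using hx
    refine ⟨∑ j : Fin 5, z j * g2_ent E' j k, ?_⟩
    rw [← hrec (fun i => x i.succ.succ) k]
    simp only [hz]
    push_cast
    rw [Finset.mul_sum]
    refine Finset.sum_congr rfl fun j _ => ?_
    ring
  have hEl : Elem (BQ (ofL (hypL 2 E))) Z7 2 := by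
    intro x hx h4
    obtain ⟨u0, u1, u2⟩ := hunit 2 E hE x
    have hx' : ∀ y ∈ Z7, ∃ z : ℤ, BQ (ofL (hypL 2 E)) x y = z := hx
    refine g2_forall7.mpr ⟨?_, ?_, ?_⟩
    · obtain ⟨z, hz⟩ := hx' _ (hZunit 1)
      refine ⟨z, ?_⟩
      rw [← hz, u1]
      simp
    · obtain ⟨z, hz⟩ := hx' _ (hZunit 0)
      refine ⟨z, ?_⟩
      rw [← hz, u0]
      simp
    · intro k
      obtain ⟨z, hz⟩ := hint x 1 (fun j => by
        obtain ⟨z, hz⟩ := hx' _ (hZunit j.succ.succ)
        exact ⟨z, by rw [← u2 j, hz, one_mul]⟩) k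
      obtain ⟨w, hw⟩ := h4 k.succ.succ
      have hw' : (4 : ℚ) * x k.succ.succ = w := by
        rw [← hw]; simp
      rw [one_mul] at hz
      -- e odd: 2 x = (e x) * 2 - ... use e = 2 m + 1
      obtain ⟨m, hm⟩ : ∃ m : ℕ, e = 2 * m + 1 := ⟨e / 2, by omega⟩
      refine ⟨2 * z - m * w, ?_⟩
      have : (e : ℚ) = 2 * m + 1 := by rw [hm]; push_cast; ring
      rw [this] at hz
      push_cast
      rw [← hz, ← hw']
      simp
      ring
  have hQ := QEq_rad hN Z7_isLat hI Nat.prime_two hEl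
  refine QEq_trans hQ (QEq_of_iso g2_phi (c := 1) one_pos ?_ ?_)
  · intro x y
    have hE2 : (E.map (sclL 2)).length = 5 := by rw [List.length_map]; exact hE
    rw [g2_BQ_hyp 1 _ hE2, LinearMap.smul_apply, LinearMap.smul_apply, g2_BQ_hyp 2 E hE]
    simp only [g2_phi_0, g2_phi_1, g2_phi_s, g2_ent_scl]
    have : ∑ i : Fin 5, ∑ j : Fin 5, ((2 * g2_ent E i j : ℤ) : ℚ) * (1 / 2 * x i.succ.succ) * (1 / 2 * y j.succ.succ) =
        (1 / 2) * ∑ i : Fin 5, ∑ j : Fin 5, (g2_ent E i j : ℚ) * x i.succ.succ * y j.succ.succ := by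
      rw [Finset.mul_sum]
      refine Finset.sum_congr rfl fun i _ => ?_
      rw [Finset.mul_sum]
      refine Finset.sum_congr rfl fun j _ => ?_
      push_cast; ring
    rw [this]
    simp only [smul_eq_mul]
    push_cast
    ring
  · intro x
    obtain ⟨u0, u1, u2⟩ := hunit 2 E hE x
    constructor
    · rintro ⟨hx, hx2⟩
      refine g2_forall7.mpr ⟨?_, ?_, ?_⟩
      · rw [g2_phi_0]; exact hx 0
      · rw [g2_phi_1]; exact hx 1
      · intro k
        rw [g2_phi_s]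
        obtain ⟨z, hz⟩ := hint x 2 (fun j => by
          obtain ⟨z, hz⟩ := hx2 _ (hZunit j.succ.succ)
          exact ⟨z, by rw [← u2 j, hz]; simp⟩) k
        obtain ⟨w, hw⟩ := hx k.succ.succ
        obtain ⟨m, hm⟩ : ∃ m : ℕ, e = 2 * m + 1 := ⟨e / 2, by omega⟩
        refine ⟨z - m * w, ?_⟩
        have h1 : (e : ℚ) = 2 * m + 1 := by rw [hm]; push_cast; ring
        rw [h1] at hz
        push_cast
        rw [← hw]
        linarith
    · intro hx
      have h0 := hx 0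
      have h1 := hx 1
      rw [g2_phi_0] at h0
      rw [g2_phi_1] at h1
      have h2 : ∀ k : Fin 5, ∃ z : ℤ, x k.succ.succ = 2 * z := by
        intro k
        obtain ⟨z, hz⟩ := hx k.succ.succ
        rw [g2_phi_s] at hz
        exact ⟨z, by linarith⟩
      have hxZ : x ∈ Z7 := by
        refine g2_forall7.mpr ⟨h0, h1, fun k => ?_⟩
        obtain ⟨z, hz⟩ := h2 k
        exact ⟨2 * z, by rw [hz]; push_cast; ring⟩
      refine ⟨hxZ, ?_⟩
      intro y hy
      obtain ⟨a0, ha0⟩ := h0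
      obtain ⟨a1, ha1⟩ := h1
      choose a ha using h2
      choose b hb using hy
      refine ⟨(a0 * b 1 + a1 * b 0) + ∑ i : Fin 5, ∑ j : Fin 5, g2_ent E i j * a i * b j.succ.succ, ?_⟩
      rw [g2_BQ_hyp 2 E hE]
      push_cast
      rw [ha0, ha1, hb 0, hb 1]
      have : ∑ i : Fin 5, ∑ j : Fin 5, (g2_ent E i j : ℚ) * x i.succ.succ * y j.succ.succ =
          2 * ∑ i : Fin 5, ∑ j : Fin 5, (g2_ent E i j : ℚ) * a i * b j.succ.succ := by
        rw [Finset.mul_sum]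
        refine Finset.sum_congr rfl fun i _ => ?_
        rw [Finset.mul_sum]
        refine Finset.sum_congr rfl fun j _ => ?_
        rw [ha i, hb]; ring
      rw [this]
      ring


/-- unpacking `pdB` -/
theorem g2_pdB {K : List (List ℤ)} {D : ℕ} {c : List ℕ} {T : List (List ℤ)} (h : pdB K D c T = true) :
    K.length = 5 ∧ 0 < D ∧ (∀ i : Fin 5, 0 < c.getD i 0) ∧ (∀ i : Fin 5, g2_ent T i i ≠ 0) ∧
    (∀ i j : Fin 5, j < i → g2_ent T i j = 0) ∧
    ∀ i j : Fin 5, (D : ℤ) * g2_ent K i j = ∑ k : Fin 5, ((c.getD k 0 : ℕ) : ℤ) * (g2_ent T k i * g2_ent T k j) := by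
  unfold pdB at h
  simp only [Bool.and_eq_true] at h
  obtain ⟨⟨⟨⟨⟨⟨⟨⟨h1, h2⟩, h3⟩, h4⟩, h5⟩, h6⟩, h7⟩, h8⟩, h9⟩ := h
  have h1 : K.length = 5 := Nat.eq_of_beq_eq_true h1
  have h3 : T.length = 5 := Nat.eq_of_beq_eq_true h3
  have h5 : c.length = 5 := Nat.eq_of_beq_eq_true h5
  rw [List.all_eq_true] at h6 h8 h9
  refine ⟨h1, ?_, ?_, ?_, ?_, ?_⟩
  · exact Nat.le_of_ble_eq_true h7
  · intro i
    have hi : (i : ℕ) < c.length := by rw [h5]; exact i.2
    rw [List.getD_eq_getElem _ _ hi]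
    exact Nat.le_of_ble_eq_true (h6 _ (List.getElem_mem hi))
  · intro i
    have h10 := h8 i (List.mem_range.mpr i.2)
    rw [Bool.and_eq_true] at h10
    have h11 := h10.1
    intro h0
    unfold g2_ent at h0
    rw [h0] at h11
    exact absurd h11 (by decide)
  · intro i j hij
    have h10 := h8 i (List.mem_range.mpr i.2)
    rw [Bool.and_eq_true] at h10
    have h11 := h10.2
    rw [List.all_eq_true] at h11
    have h12 := h11 j (List.mem_range.mpr hij)
    rw [g2_eqI] at h12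
    exact h12
  · intro i j
    have h10 := h9 i (List.mem_range.mpr i.2)
    rw [List.all_eq_true] at h10
    have h11 := h10 j (List.mem_range.mpr j.2)
    rw [g2_eqI, g2_dotL5 _ _ (by rw [List.length_map]; exact h5) (by rw [List.length_map]; exact h3)] at h11
    unfold g2_ent
    rw [h11]
    refine Finset.sum_congr rfl fun k _ => ?_
    have hk : (k : ℕ) < T.length := by rw [h3]; exact k.2
    have hk' : (k : ℕ) < c.length := by rw [h5]; exact k.2
    rw [List.getD_eq_getElem (T.map _) _ (by rw [List.length_map]; exact hk), List.getElem_map,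
      List.getD_eq_getElem (c.map _) _ (by rw [List.length_map]; exact hk'), List.getElem_map,
      List.getD_eq_getElem c _ hk', List.getD_eq_getElem T _ hk]
    rfl

/-- Row [RH-G2]: existence of a real matrix: `K = Aᵀ A` with `A = diag(√(c_i/D)) T` invertible, and
`U` is equivalent to `diag(1,-1)`: `P` maps `(a,b;y)` to
`((A y)_0,…,(A y)_4, (a+b)/√2, (a-b)/√2)` (form: `|Ay|² + (a+b)²/2 - (a-b)²/2 = (y,y) + 2ab`). -/
theorem exists_P {K : List (List ℤ)} {D : ℕ} {c : List ℕ} {T : List (List ℤ)}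
    (h : pdB K D c T = true) (hs : isSym (hypL 1 K) = true) :
    ∃ P : GL (Fin 7) ℝ, P.1ᵀ * J0 * P.1 = mR (ofL (hypL 1 K)) := by
  obtain ⟨hK, hD, hc, hT, hT0, hEq⟩ := g2_pdB h
  obtain ⟨h00, h01, h10, h11, h0, h1, h2, h3, h4⟩ := g2_ofL_hyp 1 K hK
  have hD' : (0 : ℝ) < D := by exact_mod_cast hD
  let s : Fin 5 → ℝ := fun k => Real.sqrt (((c.getD k 0 : ℕ) : ℝ) / D)
  have hs0 : ∀ k, 0 < s k := by
    intro k
    apply Real.sqrt_pos.mpr
    apply div_pos _ hD'
    exact_mod_cast hc k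
  have hs2 : ∀ k, s k * s k = ((c.getD k 0 : ℕ) : ℝ) / D := by
    intro k
    apply Real.mul_self_sqrt
    positivity
  let q : ℝ := 1 / Real.sqrt 2
  have hq : q * q = 1 / 2 := by
    show 1 / Real.sqrt 2 * (1 / Real.sqrt 2) = 1 / 2
    rw [div_mul_div_comm, one_mul, Real.mul_self_sqrt (by norm_num)]
  have hq0 : q ≠ 0 := by
    intro h
    rw [h] at hq
    norm_num at hq
  let row : Fin 5 → Fin 7 → ℝ := fun k => Fin.cons 0 (Fin.cons 0 (fun j : Fin 5 => s k * (g2_ent T k j : ℝ)))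
  let r5 : Fin 7 → ℝ := Fin.cons q (Fin.cons q (fun _ : Fin 5 => 0))
  let r6 : Fin 7 → ℝ := Fin.cons q (Fin.cons (-q) (fun _ : Fin 5 => 0))
  have hrow0 : ∀ k, row k 0 = 0 := fun k => rfl
  have hrow1 : ∀ k, row k 1 = 0 := fun k => rfl
  have hrows : ∀ k (j : Fin 5), row k j.succ.succ = s k * (g2_ent T k j : ℝ) := fun k j => rfl
  have hr50 : r5 0 = q := rfl
  have hr51 : r5 1 = q := rfl
  have hr5s : ∀ j : Fin 5, r5 j.succ.succ = 0 := fun j => rfl
  have hr60 : r6 0 = q := rfl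
  have hr61 : r6 1 = -q := rfl
  have hr6s : ∀ j : Fin 5, r6 j.succ.succ = 0 := fun j => rfl
  let M : Matrix (Fin 7) (Fin 7) ℝ := Matrix.of ![row 0, row 1, row 2, row 3, row 4, r5, r6]
  have hM0 : ∀ j, M 0 j = row 0 j := fun j => rfl
  have hM1 : ∀ j, M 1 j = row 1 j := fun j => rfl
  have hM2 : ∀ j, M 2 j = row 2 j := fun j => rfl
  have hM3 : ∀ j, M 3 j = row 3 j := fun j => rfl
  have hM4 : ∀ j, M 4 j = row 4 j := fun j => rfl
  have hM5 : ∀ j, M 5 j = r5 j := fun j => rfl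
  have hM6 : ∀ j, M 6 j = r6 j := fun j => rfl
  -- the form
  have hform : ∀ i j, (Mᵀ * J0 * M) i j = (∑ k : Fin 5, row k i * row k j) + r5 i * r5 j - r6 i * r6 j := by
    intro i j
    unfold J0
    rw [Matrix.mul_apply]
    simp only [Matrix.mul_diagonal, Matrix.transpose_apply, Fin.sum_univ_seven, Fin.sum_univ_five, hM0, hM1, hM2, hM3,
      hM4, hM5, hM6]
    simp
    ring
  have hKK : ∀ i j : Fin 5, (∑ k : Fin 5, (s k * (g2_ent T k i : ℝ)) * (s k * (g2_ent T k j : ℝ))) = (g2_ent K i j : ℝ) := by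
    intro i j
    have h5 := congrArg (Int.cast : ℤ → ℝ) (hEq i j)
    push_cast at h5
    have h6 : (∑ k : Fin 5, (s k * (g2_ent T k i : ℝ)) * (s k * (g2_ent T k j : ℝ))) =
        (∑ k : Fin 5, ((c.getD k 0 : ℕ) : ℝ) * ((g2_ent T k i : ℝ) * (g2_ent T k j : ℝ))) / D := by
      rw [Finset.sum_div]
      refine Finset.sum_congr rfl fun k _ => ?_
      have : (s k * (g2_ent T k i : ℝ)) * (s k * (g2_ent T k j : ℝ)) = (s k * s k) * ((g2_ent T k i : ℝ) * (g2_ent T k j : ℝ)) := by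
        ring
      rw [this, hs2]
      ring
    rw [h6, ← h5]
    field_simp
  have hMform : Mᵀ * J0 * M = mR (ofL (hypL 1 K)) := by
    ext i j
    rw [hform]
    unfold mR
    rw [Matrix.map_apply]
    refine Fin.cases ?_ (fun i => Fin.cases ?_ (fun i => ?_) i) i
    · refine Fin.cases ?_ (fun j => Fin.cases ?_ (fun j => ?_) j) j
      · rw [h00]; simp only [hrow0, hr50, hr60]; simp
      · show _ = ((ofL (hypL 1 K) 0 1 : ℤ) : ℝ)
        rw [h01]
        show (∑ k : Fin 5, row k 0 * row k 1) + r5 0 * r5 1 - r6 0 * r6 1 = _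
        simp only [hrow0, hrow1, hr50, hr60, hr51, hr61]
        simp
        linarith
      · rw [h0]; simp only [hrow0, hr50, hr60, hr5s, hr6s]; simp
    · refine Fin.cases ?_ (fun j => Fin.cases ?_ (fun j => ?_) j) j
      · show _ = ((ofL (hypL 1 K) 1 0 : ℤ) : ℝ)
        rw [h10]
        show (∑ k : Fin 5, row k 1 * row k 0) + r5 1 * r5 0 - r6 1 * r6 0 = _
        simp only [hrow0, hrow1, hr50, hr60, hr51, hr61]
        simp
        linarith
      · show _ = ((ofL (hypL 1 K) 1 1 : ℤ) : ℝ)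
        rw [h11]
        show (∑ k : Fin 5, row k 1 * row k 1) + r5 1 * r5 1 - r6 1 * r6 1 = _
        simp only [hrow1, hr51, hr61]
        simp
      · show _ = ((ofL (hypL 1 K) 1 j.succ.succ : ℤ) : ℝ)
        rw [h1]
        show (∑ k : Fin 5, row k 1 * row k j.succ.succ) + r5 1 * r5 j.succ.succ - r6 1 * r6 j.succ.succ = _
        simp only [hrow1, hr51, hr61, hr5s, hr6s]
        simp
    · refine Fin.cases ?_ (fun j => Fin.cases ?_ (fun j => ?_) j) j
      · rw [h2]; simp only [hrow0, hr50, hr60, hr5s, hr6s]; simp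
      · show _ = ((ofL (hypL 1 K) i.succ.succ 1 : ℤ) : ℝ)
        rw [h3]
        show (∑ k : Fin 5, row k i.succ.succ * row k 1) + r5 i.succ.succ * r5 1 - r6 i.succ.succ * r6 1 = _
        simp only [hrow1, hr51, hr61, hr5s, hr6s]
        simp
      · rw [h4]
        simp only [hrows, hr5s, hr6s]
        rw [hKK]
        simp
  -- invertible
  have hdet : M.det ≠ 0 := by
    intro hdet
    obtain ⟨v, hv, hMv⟩ := Matrix.exists_mulVec_eq_zero_iff.mpr hdet
    have hrowv : ∀ (r : Fin 7 → ℝ), (∑ j, r j * v j) = r 0 * v 0 + r 1 * v 1 + ∑ j : Fin 5, r j.succ.succ * v j.succ.succ :=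
      fun r => g2_sum7 _
    have e5 : (∑ j, r5 j * v j) = 0 := congrFun hMv 5
    have e6 : (∑ j, r6 j * v j) = 0 := congrFun hMv 6
    rw [hrowv] at e5 e6
    simp only [hr50, hr51, hr5s, hr60, hr61, hr6s, zero_mul, Finset.sum_const_zero, add_zero] at e5 e6
    have hv0 : v 0 = 0 := by
      have : q * (2 * v 0) = 0 := by linarith
      have := (mul_eq_zero.mp this).resolve_left hq0
      linarith
    have hv1 : v 1 = 0 := by
      have : q * (2 * v 1) = 0 := by linarith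
      have := (mul_eq_zero.mp this).resolve_left hq0
      linarith
    have erow : ∀ k : Fin 5, ∑ j : Fin 5, (g2_ent T k j : ℝ) * v j.succ.succ = 0 := by
      intro k
      have e : (∑ j, row k j * v j) = 0 := by
        fin_cases k
        · exact congrFun hMv 0
        · exact congrFun hMv 1
        · exact congrFun hMv 2
        · exact congrFun hMv 3
        · exact congrFun hMv 4
      rw [hrowv, hrow0, hrow1, zero_mul, zero_mul, zero_add, zero_add] at e
      simp only [hrows] at e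
      have e' : s k * ∑ j : Fin 5, (g2_ent T k j : ℝ) * v j.succ.succ = 0 := by
        rw [Finset.mul_sum, ← e]
        refine Finset.sum_congr rfl fun j _ => ?_
        ring
      exact (mul_eq_zero.mp e').resolve_left (ne_of_gt (hs0 k))
    have hTr : ∀ i : Fin 5, (g2_ent T i i : ℝ) ≠ 0 := fun i => by exact_mod_cast hT i
    have hT0r : ∀ i j : Fin 5, j < i → (g2_ent T i j : ℝ) = 0 := fun i j hij => by rw [hT0 i j hij]; simp
    -- strong downward induction
    have hall : ∀ n : ℕ, ∀ k : Fin 5, 5 - (k : ℕ) ≤ n → v k.succ.succ = 0 := by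
      intro n
      induction n with
      | zero => intro k hk; have := k.2; omega
      | succ n ih =>
        intro k hk
        have e := erow k
        rw [Finset.sum_eq_single k] at e
        · exact (mul_eq_zero.mp e).resolve_left (hTr k)
        · intro j _ hjk
          rcases lt_or_gt_of_ne hjk with hj | hj
          · rw [hT0r k j hj, zero_mul]
          · have : v j.succ.succ = 0 := by
              apply ih
              have h7 : (k : ℕ) < (j : ℕ) := hj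
              omega
            rw [this, mul_zero]
        · intro hk'
          exact absurd (Finset.mem_univ k) hk'
    apply hv
    exact g2_eq_of_fin7 hv0 hv1 (fun i => hall 5 i (by omega))
  have hunit : IsUnit M := (Matrix.isUnit_iff_isUnit_det M).mpr (isUnit_iff_ne_zero.mpr hdet)
  obtain ⟨P, hP⟩ := hunit
  exact ⟨P, by rw [hP]; exact hMform⟩


theorem g2_bZ_bR (G : Matrix (Fin 7) (Fin 7) ℤ) (x y : Fin 7 → ℤ) :
    bR G (toR x) (toR y) = (bZ G x y : ℝ) := by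
  unfold bR bZ toR dotProduct mulVec dotProduct
  push_cast
  rfl

theorem g2_bR_neg_left (G : Matrix (Fin 7) (Fin 7) ℤ) (x y : Fin 7 → ℝ) :
    bR G (-x) y = - bR G x y := by
  unfold bR
  rw [neg_dotProduct]

theorem g2_bR_neg_right (G : Matrix (Fin 7) (Fin 7) ℤ) (x y : Fin 7 → ℝ) :
    bR G x (-y) = - bR G x y := by
  unfold bR
  rw [mulVec_neg, dotProduct_neg]

theorem g2_bR_comm {G : Matrix (Fin 7) (Fin 7) ℤ} (hG : Gᵀ = G) (x y : Fin 7 → ℝ) :
    bR G x y = bR G y x := by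
  unfold bR
  rw [dotProduct_mulVec, dotProduct_comm, ← mulVec_transpose]
  congr 2
  rw [← Matrix.transpose_map, hG]

theorem g2_fwd_neg_iff {G : Matrix (Fin 7) (Fin 7) ℤ} {h : Fin 7 → ℤ} (hL : Lor G h)
    {x : Fin 7 → ℝ} (hx : bR G x x < 0) : ¬ Fwd G h x → Fwd G h (-x) := by
  intro hn
  have h1 : bR G x (toR h) ≠ 0 := by
    intro h0
    have hx0 : x ≠ 0 := by
      rintro rfl
      simp [bR] at hx
    exact absurd (hL.pos x h0 hx0) (by linarith)
  refine ⟨by rw [g2_bR_neg_left, g2_bR_neg_right]; linarith, ?_⟩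
  rw [g2_bR_neg_left]
  have h2 : ¬ bR G x (toR h) < 0 := fun hh => hn ⟨hx, hh⟩
  have h3 : 0 < bR G x (toR h) := lt_of_le_of_ne (not_lt.mp h2) (Ne.symm h1)
  linarith

theorem g2_OG_le {G : Matrix (Fin 7) (Fin 7) ℤ} {h h' : Fin 7 → ℤ} (hL : Lor G h) (hL' : Lor G h') :
    OG G h ≤ OG G h' := by
  -- Fwd G h' = Fwd G h or -Fwd G h
  have hh' : bR G (toR h') (toR h') < 0 := by
    rw [g2_bZ_bR]; exact_mod_cast hL'.neg
  have hkey : (∀ x, Fwd G h' x ↔ Fwd G h x) ∨ (∀ x, Fwd G h' x ↔ Fwd G h (-x)) := by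
    by_cases hf : Fwd G h (toR h')
    · left
      intro x
      constructor
      · rintro ⟨h1, h2⟩
        exact fwd_of_neg hL hf h1 h2
      · intro hx
        exact ⟨hx.1, neg_of_fwd hL hx hf⟩
    · have hf' := g2_fwd_neg_iff hL hh' hf
      right
      intro x
      constructor
      · rintro ⟨h1, h2⟩
        refine fwd_of_neg hL hf' (by rw [g2_bR_neg_left, g2_bR_neg_right]; linarith) ?_
        rw [g2_bR_neg_left, g2_bR_neg_right]; linarith
      · intro hx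
        have h3 := neg_of_fwd hL hx hf'
        rw [g2_bR_neg_left, g2_bR_neg_right] at h3
        have h4 := hx.1
        rw [g2_bR_neg_left, g2_bR_neg_right] at h4
        exact ⟨by linarith, by linarith⟩
  have hact : ∀ (g : GL (Fin 7) ℤ) (x : Fin 7 → ℝ), actR g (-x) = - actR g x := by
    intro g x
    unfold actR
    rw [mulVec_neg]
  rintro g ⟨hg1, hg2⟩
  refine ⟨hg1, fun x => ?_⟩
  rcases hkey with hk | hk
  · rw [hk, hk]; exact hg2 x
  · rw [hk, hk, ← hact]; exact hg2 (-x)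

/-- Row [RH-G2]: `OG G h` does not depend on `h`: for `Lor G h`, `Lor G h'`, the cone `Fwd G h'` is
`Fwd G h` or `-Fwd G h` (according to the sign of `(h,h')`, nonzero by `Lor.pos`); an isometry
preserves `Fwd G h` iff it preserves `-Fwd G h`. -/
theorem OG_eq {G : Matrix (Fin 7) (Fin 7) ℤ} {h h' : Fin 7 → ℤ} (hL : Lor G h) (hL' : Lor G h') :
    OG G h = OG G h' :=
  le_antisymm (g2_OG_le hL hL') (g2_OG_le hL' hL)

/-- Row [RH-G2]: if `P' = l P` then `WP P = WP P'` (`latGroup_smul`); `WP` depends only on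
`latGroup` -/
theorem WP_of_lat {P P' : GL (Fin 7) ℝ} (h : latGroup P = latGroup P') : WP P = WP P' := by
  unfold WP
  rw [h]

theorem g2_lat_conj {P g γ : GL (Fin 7) ℝ} (hg : g ∈ IsomH6) :
    γ ∈ latGroup (g * P) ↔ g⁻¹ * γ * g ∈ latGroup P := by
  constructor
  · rintro ⟨h1, h, h2⟩
    refine ⟨IsomH6.mul_mem (IsomH6.mul_mem (IsomH6.inv_mem hg) h1) hg, h, ?_⟩
    calc g⁻¹ * γ * g * P = g⁻¹ * (γ * (g * P)) := by group
      _ = g⁻¹ * (g * P * iota h) := by rw [h2]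
      _ = P * iota h := by group
  · rintro ⟨h1, h, h2⟩
    refine ⟨?_, h, ?_⟩
    · have h3 := IsomH6.mul_mem (IsomH6.mul_mem hg h1) (IsomH6.inv_mem hg)
      have h4 : g * (g⁻¹ * γ * g) * g⁻¹ = γ := by group
      rwa [h4] at h3
    · calc γ * (g * P) = g * (g⁻¹ * γ * g * P) := by group
        _ = g * (P * iota h) := by rw [h2]
        _ = g * P * iota h := by group

theorem g2_refl_conj {g γ : GL (Fin 7) ℝ} (hg : g ∈ IsomH6) (h : IsReflection γ) :
    IsReflection (g * γ * g⁻¹) := by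
  obtain ⟨e, he, hx⟩ := h
  have hJ : ∀ x y : Fin 7 → ℝ, (g.1 *ᵥ x) ⬝ᵥ (J0 *ᵥ (g.1 *ᵥ y)) = x ⬝ᵥ (J0 *ᵥ y) := by
    intro x y
    have h1 : g.1ᵀ * J0 * g.1 = J0 := hg.1
    calc (g.1 *ᵥ x) ⬝ᵥ (J0 *ᵥ (g.1 *ᵥ y)) = x ⬝ᵥ ((g.1ᵀ * J0 * g.1) *ᵥ y) := by
          rw [← Matrix.mulVec_mulVec, ← Matrix.mulVec_mulVec, dotProduct_comm, dotProduct_mulVec,
            ← mulVec_transpose]
          rw [dotProduct_comm]
      _ = x ⬝ᵥ (J0 *ᵥ y) := by rw [h1]
  have hginv : ∀ x : Fin 7 → ℝ, g.1 *ᵥ ((g⁻¹).1 *ᵥ x) = x := by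
    intro x
    have h3 : (g * g⁻¹).1 = g.1 * (g⁻¹).1 := rfl
    rw [Matrix.mulVec_mulVec, ← h3, mul_inv_cancel]
    exact Matrix.one_mulVec x
  refine ⟨g.1 *ᵥ e, by rw [hJ]; exact he, fun x => ?_⟩
  have h4 : (g * γ * g⁻¹).1 *ᵥ x = g.1 *ᵥ (γ.1 *ᵥ ((g⁻¹).1 *ᵥ x)) := by
    rw [Matrix.mulVec_mulVec, Matrix.mulVec_mulVec]
    rfl
  rw [h4, hx, Matrix.mulVec_sub, Matrix.mulVec_smul, hginv]
  have h5 : ((g⁻¹).1 *ᵥ x) ⬝ᵥ (J0 *ᵥ e) = x ⬝ᵥ (J0 *ᵥ (g.1 *ᵥ e)) := by
    rw [← hJ, hginv]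
  rw [h5, hJ]

/-- Row [RH-G2]: conjugation: `latGroup (g P) = g latGroup(P) g⁻¹` and the same for `WP`, for
`g ∈ IsomH6` -/
theorem WP_conj {P g : GL (Fin 7) ℝ} (hg : g ∈ IsomH6) :
    WP (g * P) = (WP P).map (MulAut.conj g).toMonoidHom := by
  unfold WP
  rw [MonoidHom.map_closure]
  congr 1
  ext γ
  simp only [Set.mem_setOf_eq, Set.mem_image]
  constructor
  · rintro ⟨h1, h2⟩
    refine ⟨g⁻¹ * γ * g, ⟨(g2_lat_conj hg).mp h1, ?_⟩, ?_⟩
    · have := g2_refl_conj (IsomH6.inv_mem hg) h2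
      rwa [inv_inv] at this
    · show g * (g⁻¹ * γ * g) * g⁻¹ = γ
      group
  · rintro ⟨δ, ⟨h1, h2⟩, rfl⟩
    show g * δ * g⁻¹ ∈ latGroup (g * P) ∧ IsReflection (g * δ * g⁻¹)
    refine ⟨(g2_lat_conj hg).mpr ?_, g2_refl_conj hg h2⟩
    have : g⁻¹ * (g * δ * g⁻¹) * g = δ := by group
    rw [this]; exact h1

/-- Row [RH-G2]: two real matrices with the same integral form differ by an isometry, up to sign:
`g = P' P⁻¹` satisfies `gᵀ J0 g = J0`; for `u` with `Up u` one of `Up (g u)`, `Up (-g u)` holds, so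
`g ∈ IsomH6` or `-g ∈ IsomH6` (`mem_IsomH6_of_one`); `latGroup (-P) = latGroup P`. -/
theorem conj_of_same {P P' : GL (Fin 7) ℝ} {G : Matrix (Fin 7) (Fin 7) ℤ}
    (hP : P.1ᵀ * J0 * P.1 = mR G) (hP' : P'.1ᵀ * J0 * P'.1 = mR G) :
    ∃ g ∈ IsomH6, WP P' = (WP P).map (MulAut.conj g).toMonoidHom := by
  set g : GL (Fin 7) ℝ := P' * P⁻¹ with hgdef
  have hPinv : P.1 * (P⁻¹).1 = 1 := by
    have h3 : (P * P⁻¹).1 = P.1 * (P⁻¹).1 := rfl
    rw [← h3, mul_inv_cancel]; rfl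
  have hPinv' : (P⁻¹).1ᵀ * P.1ᵀ = 1 := by
    rw [← Matrix.transpose_mul, hPinv, Matrix.transpose_one]
  have hg1 : g.1 = P'.1 * (P⁻¹).1 := rfl
  have hg : g.1ᵀ * J0 * g.1 = J0 := by
    rw [hg1, Matrix.transpose_mul]
    calc (P⁻¹).1ᵀ * P'.1ᵀ * J0 * (P'.1 * (P⁻¹).1) = (P⁻¹).1ᵀ * (P'.1ᵀ * J0 * P'.1) * (P⁻¹).1 := by
          simp only [Matrix.mul_assoc]
      _ = (P⁻¹).1ᵀ * (P.1ᵀ * J0 * P.1) * (P⁻¹).1 := by rw [hP', hP]
      _ = ((P⁻¹).1ᵀ * P.1ᵀ) * J0 * (P.1 * (P⁻¹).1) := by simp only [Matrix.mul_assoc]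
      _ = J0 := by rw [hPinv, hPinv']; simp
  have hgP : g * P = P' := by rw [hgdef]; group
  have hform : ∀ x : Fin 7 → ℝ, x ⬝ᵥ (J0 *ᵥ x) =
      x 0 ^ 2 + x 1 ^ 2 + x 2 ^ 2 + x 3 ^ 2 + x 4 ^ 2 + x 5 ^ 2 - x 6 ^ 2 := by
    intro x
    unfold J0
    simp only [Matrix.mulVec_diagonal, dotProduct, Fin.sum_univ_seven]
    simp
    ring
  have hu : Up (Pi.single 6 1 : Fin 7 → ℝ) := by
    refine ⟨?_, by simp⟩
    rw [hform]
    simp [Pi.single_apply]
  set w : Fin 7 → ℝ := g.1 *ᵥ (Pi.single 6 1 : Fin 7 → ℝ) with hw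
  have hw1 : w ⬝ᵥ (J0 *ᵥ w) = (Pi.single 6 1 : Fin 7 → ℝ) ⬝ᵥ (J0 *ᵥ (Pi.single 6 1 : Fin 7 → ℝ)) := by
    rw [hw]
    calc (g.1 *ᵥ (Pi.single 6 1 : Fin 7 → ℝ)) ⬝ᵥ (J0 *ᵥ (g.1 *ᵥ (Pi.single 6 1 : Fin 7 → ℝ)))
        = (Pi.single 6 1 : Fin 7 → ℝ) ⬝ᵥ ((g.1ᵀ * J0 * g.1) *ᵥ (Pi.single 6 1 : Fin 7 → ℝ)) := by
          rw [← Matrix.mulVec_mulVec, ← Matrix.mulVec_mulVec, dotProduct_comm, dotProduct_mulVec,
            ← mulVec_transpose]
          rw [dotProduct_comm]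
      _ = _ := by rw [hg]
  have hw2 : w ⬝ᵥ (J0 *ᵥ w) < 0 := by rw [hw1]; exact hu.1
  have hw6 : w 6 ≠ 0 := by
    intro h0
    rw [hform, h0] at hw2
    nlinarith [sq_nonneg (w 0), sq_nonneg (w 1), sq_nonneg (w 2), sq_nonneg (w 3), sq_nonneg (w 4),
      sq_nonneg (w 5)]
  rcases lt_or_gt_of_ne hw6 with h6 | h6
  · -- -g
    have hng : (-g).1 = -g.1 := rfl
    have hgm : -g ∈ IsomH6 := by
      refine mem_IsomH6_of_one ?_ hu ?_
      · rw [hng, Matrix.transpose_neg, Matrix.neg_mul, Matrix.neg_mul, Matrix.mul_neg, neg_neg]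
        exact hg
      · rw [hng, Matrix.neg_mulVec, ← hw]
        refine ⟨?_, ?_⟩
        · rw [Matrix.mulVec_neg, neg_dotProduct, dotProduct_neg, neg_neg]
          exact hw2
        · show 0 < -(w 6)
          linarith
    refine ⟨-g, hgm, ?_⟩
    rw [← WP_conj hgm]
    apply WP_of_lat
    refine latGroup_smul (l := -1) (by norm_num) ?_
    have : ((-g) * P).1 = (-g).1 * P.1 := rfl
    rw [this, hng, Matrix.neg_mul, neg_smul, one_smul, neg_neg]
    have : g.1 * P.1 = (g * P).1 := rfl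
    rw [this, hgP]
  · have hgm : g ∈ IsomH6 := mem_IsomH6_of_one hg hu ⟨hw2, h6⟩
    exact ⟨g, hgm, by rw [← WP_conj hgm, hgP]⟩

end RH6
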