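import Pool.Agent.RH6.ZH
import Pool.Agent.RH6.G2

open Matrix

namespace RH6

/-- the forms `U(2) ⊥ E`: `E`, `e E⁻¹`, `e` -/
def Eds : List (List (List ℤ) × List (List ℤ) × ℕ) := [
  ([], [], 1),
  ([[1, 0, 0, 0, 0], [0, 1, 0, 0, 0], [0, 0, 1, 0, 0], [0, 0, 0, 1, 0], [0, 0, 0, 0, 1]], [[1, 0, 0, 0, 0], [0, 1, 0, 0, 0], [0, 0, 1, 0, 0], [0, 0, 0, 1, 0], [0, 0, 0, 0, 1]], 1),
  ([], [], 1),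
  ([], [], 1),
  ([[2, 1, 0, 0, 0], [1, 2, 0, 0, 0], [0, 0, 1, 0, 0], [0, 0, 0, 1, 0], [0, 0, 0, 0, 3]], [[2, -1, 0, 0, 0], [-1, 2, 0, 0, 0], [0, 0, 3, 0, 0], [0, 0, 0, 3, 0], [0, 0, 0, 0, 1]], 3),
  ([], [], 1),
  ([], [], 1),
  ([], [], 1),
  ([[1, 0, 0, 0, 0], [0, 1, 0, 0, 0], [0, 0, 1, 0, 0], [0, 0, 0, 3, 0], [0, 0, 0, 0, 3]], [[3, 0, 0, 0, 0], [0, 3, 0, 0, 0], [0, 0, 3, 0, 0], [0, 0, 0, 1, 0], [0, 0, 0, 0, 1]], 3),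
  ([], [], 1),
  ([], [], 1),
  ([[2, 1, 0, 0, 0], [1, 2, 0, 0, 0], [0, 0, 1, 0, 0], [0, 0, 0, 3, 0], [0, 0, 0, 0, 3]], [[2, -1, 0, 0, 0], [-1, 2, 0, 0, 0], [0, 0, 3, 0, 0], [0, 0, 0, 1, 0], [0, 0, 0, 0, 1]], 3),
  ([], [], 1),
  ([], [], 1),
  ([], [], 1),
  ([[1, 0, 0, 0, 0], [0, 1, 0, 0, 0], [0, 0, 3, 0, 0], [0, 0, 0, 3, 0], [0, 0, 0, 0, 3]], [[3, 0, 0, 0, 0], [0, 3, 0, 0, 0], [0, 0, 1, 0, 0], [0, 0, 0, 1, 0], [0, 0, 0, 0, 1]], 3),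
  ([], [], 1),
  ([], [], 1),
  ([[1, 0, 0, 0, 0], [0, 1, 0, 0, 0], [0, 0, 1, 0, 0], [0, 0, 0, 1, 0], [0, 0, 0, 0, 3]], [[3, 0, 0, 0, 0], [0, 3, 0, 0, 0], [0, 0, 3, 0, 0], [0, 0, 0, 3, 0], [0, 0, 0, 0, 1]], 3),
  ([], [], 1),
  ([], [], 1),
  ([], [], 1),
  ([[2, 1, 0, 0, 0], [1, 2, 0, 0, 0], [0, 0, 1, 0, 0], [0, 0, 0, 1, 0], [0, 0, 0, 0, 1]], [[2, -1, 0, 0, 0], [-1, 2, 0, 0, 0], [0, 0, 3, 0, 0], [0, 0, 0, 3, 0], [0, 0, 0, 0, 3]], 3),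
  ([], [], 1),
  ([], [], 1),
  ([], [], 1),
  ([], [], 1),
  ([], [], 1),
  ([], [], 1),
  ([], [], 1),
  ([], [], 1),
  ([[1, 0, 0, 0, 0], [0, 1, 0, 0, 0], [0, 0, 1, 0, 0], [0, 0, 0, 1, 0], [0, 0, 0, 0, 5]], [[5, 0, 0, 0, 0], [0, 5, 0, 0, 0], [0, 0, 5, 0, 0], [0, 0, 0, 5, 0], [0, 0, 0, 0, 1]], 5),
  ([], [], 1),
  ([], [], 1),
  ([], [], 1),
  ([], [], 1),
  ([], [], 1),
  ([], [], 1),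
  ([], [], 1),
  ([], [], 1),
  ([], [], 1),
  ([[1, 0, 0, 0, 0], [0, 1, 0, 0, 0], [0, 0, 1, 0, 0], [0, 0, 0, 3, 0], [0, 0, 0, 0, 5]], [[15, 0, 0, 0, 0], [0, 15, 0, 0, 0], [0, 0, 15, 0, 0], [0, 0, 0, 5, 0], [0, 0, 0, 0, 3]], 15),
  ([], [], 1),
  ([[1, 0, 0, 0, 0], [0, 1, 0, 0, 0], [0, 0, 1, 0, 0], [0, 0, 0, 1, 0], [0, 0, 0, 0, 7]], [[7, 0, 0, 0, 0], [0, 7, 0, 0, 0], [0, 0, 7, 0, 0], [0, 0, 0, 7, 0], [0, 0, 0, 0, 1]], 7)]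

theorem hqB_sound {J K E E' : List (List ℤ)} {e : ℕ} (h : hqB J K E E' e = true) :
    QEq (BQ (ofL J)) Z7 (BQ (ofL (hypL 1 K))) Z7 := by
  unfold hqB at h
  rw [Bool.or_eq_true, Bool.and_eq_true, Bool.and_eq_true] at h
  rcases h with h | ⟨⟨h1, h2⟩, h3⟩
  · rw [eqLL_iff.1 h]
    exact QEq_refl _ _
  · rw [eqLL_iff.1 h2, eqLL_iff.1 h3]
    exact qeq_two h1

theorem Eds_ok : ((List.range 44).all fun i => hqB (Js.getD i []) (Ks.getD i [])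
    (Eds.getD i ([], [], 1)).1 (Eds.getD i ([], [], 1)).2.1 (Eds.getD i ([], [], 1)).2.2) =
    true := by decide +kernel

theorem hq_all (i : ℕ) (hi : i < Js.length) :
    QEq (BQ (ofL (Js.getD i []))) Z7 (BQ (ofL (hypL 1 (Ks.getD i [])))) Z7 :=
  hqB_sound (List.all_eq_true.1 Eds_ok i (List.mem_range.2 hi))

end RH6
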