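import Pool.Agent.RH6.ZDef

namespace RH6.MC

/-- `L2:2+_3:2-` -/
def m7 : MCert :=
  ⟨1, [[2, 1, 0, 0, 0], [1, 2, 0, 0, 0], [0, 0, 2, 0, 0], [0, 0, 0, 2, 0], [0, 0, 0, 0, 6]], 2, [1, 3, 4, 4, 12], [[2, 1, 0, 0, 0], [0, 1, 0, 0, 0], [0, 0, 1, 0, 0], [0, 0, 0, 1, 0], [0, 0, 0, 0, 1]], [[3, 0, 0, 0, 0, 0, 1], [-1, -1, 0, 0, 0, 0, 0], [1, 0, 0, 0, 1, 0, 0], [0, 0, 0, 0, -1, 1, 0], [1, 0, 1, 0, 0, 0, 0], [0, 0, -1, 1, 0, 0, 0], [0, 0, 0, 0, 0, -1, 0]], [3, 1, 1, 2, 1, 1, 1], [[0, 0, 1, 1, 0, 0, 1], [0, -1, -1, -1, 0, 0, -1], [0, 0, -1, -1, 1, 0, -1], [0, 0, -1, -1, 1, 1, -1], [0, 0, 0, -1, 0, 0, -1], [0, 0, 0, 0, 0, 0, -1], [1, 0, -3, -3, 0, 0, -3]], [0, 0, 1, 2,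 1, 4, 3], 3, [[0, 6, 0, 0, 0, 0, 0], [6, 0, 0, 0, 0, 0, 0], [0, 0, 4, -2, 0, 0, 0], [0, 0, -2, 4, 0, 0, 0], [0, 0, 0, 0, 3, 0, 0], [0, 0, 0, 0, 0, 3, 0], [0, 0, 0, 0, 0, 0, 1]], [0, 0, 0, 0, 1, 1, 1], [⟨2, [[0, 1, 0, 0, 0, 0, 0, 0, 0, 0, 0, 0, 0, 0], [1, 0, 0, 0, 0, 0, 0, 0, 0, 0, 0, 0, 0, 0], [0, 0, 0, 1, 0, 0, 0, 0, 0, 0, 0, 0, 0, 0], [0, 0, 1, 0, 0, 0, 0, 0, 0, 0, 0, 0, 0, 0], [0, 0, 0, 0, 0, 0, 0, 0, 0, 0, 1, 0, 0, 0], [0, 0, 0, 0, 0, 0, 0, 0, 0, 0, 0, 0, 0, 0], [0, 0, 0, 0, 0, 0, 0, 0, 0, 0, 0, 0, 0, 0]], [[0, 0, 0, 0, 1, 1, 0], [0, 0, 0, 0, 0, 0, 1]], [5, 6]⟩, ⟨3, [[0, 1, 0, 0, 0, 0, 0, 0, 0, 0, 0, 0, 0, 0], [1, 0, 0, 0, 0, 0, 0, 0, 0, 0, 0, 0, 0, 0], [0,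 0, 2, 0, 0, 0, 0, 0, 0, 0, 0, 0, 0, 0], [0, 0, 0, 0, 0, 0, 0, 0, 0, 0, 0, 0, 0, 0], [0, 0, 0, 0, 2, 0, 0, 0, 0, 0, 0, 0, 0, 0], [0, 0, 0, 0, 0, 2, 0, 0, 0, 0, 0, 0, 0, 0], [1, 0, 0, 0, 0, 0, 0, 2, 0, 0, 0, 0, 0, 0]], [[0, 0, 1, 1, 0, 0, 0]], [3]⟩]⟩

theorem m7_ok : chkMax m7 = true := by decide +kernel

/-- `L2:4+_3:2-` -/
def m8 : MCert :=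
  ⟨1, [[2, 0, 0, 0, 0], [0, 2, 0, 0, 0], [0, 0, 2, 0, 0], [0, 0, 0, 6, 0], [0, 0, 0, 0, 6]], 1, [2, 2, 2, 6, 6], [[1, 0, 0, 0, 0], [0, 1, 0, 0, 0], [0, 0, 1, 0, 0], [0, 0, 0, 1, 0], [0, 0, 0, 0, 1]], [[3, 0, 0, 0, 0, 1, 0], [0, 0, 0, 0, 0, -1, 1], [-1, -1, 0, 0, 0, 0, 0], [1, 0, 1, 0, 0, 0, 0], [0, 0, -1, 1, 0, 0, 0], [0, 0, 0, -1, 1, 0, 0], [0, 0, 0, 0, -1, 0, 0]], [3, 6, 1, 1, 2, 2, 1], [[0, 0, 0, 1, 1, 1, 1], [0, 0, -1, -1, -1, -1, -1], [0, 0, 0, 0, -1, -1, -1], [0, 0, 0, 0, 0, -1, -1], [0, 0, 0, 0, 0, 0, -1], [1, 0, 0, -3, -3, -3, -3], [1, 1, 0, -3, -3, -3, -3]], [0, 0, 0, 2, 3, 4, 5], 3, [[0, 6, 0, 0, 0, 0, 0], [6, 0, 0, 0, 0, 0, 0], [0, 0, 3, 0, 0, 0, 0],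 [0, 0, 0, 3, 0, 0, 0], [0, 0, 0, 0, 3, 0, 0], [0, 0, 0, 0, 0, 1, 0], [0, 0, 0, 0, 0, 0, 1]], [0, 0, 1, 1, 1, 1, 1], [⟨2, [[0, 1, 0, 0, 0, 0, 0, 0, 0, 0, 0, 0, 0, 0], [1, 0, 0, 0, 0, 0, 0, 0, 0, 0, 0, 0, 0, 0], [0, 0, 0, 0, 0, 0, 0, 0, 0, 0, 0, 1, 1, 0], [0, 0, 0, 0, 0, 0, 0, 0, 0, 0, 0, 0, 1, 0], [0, 0, 0, 0, 0, 0, 0, 0, 0, 0, 0, 0, 0, 0], [0, 0, 0, 0, 0, 0, 0, 0, 1, 0, 0, 0, 0, 0], [0, 0, 0, 0, 0, 0, 0, 0, 0, 0, 0, 0, 0, 0]], [[0, 0, 1, 1, 1, 0, 0], [0, 0, 0, 0, 0, 1, 1]], [4, 6]⟩, ⟨3, [[0, 1, 0, 0, 0, 0, 0, 0, 0, 0, 0, 0, 0, 0], [1, 0, 0, 0, 0, 0, 0, 0, 0, 0, 0, 0, 0, 0], [0, 0, 2, 0, 0, 0, 0, 0, 0, 0, 0, 0, 0, 0], [0, 0, 0, 2, 0, 0, 0, 0, 0, 0, 0, 0, 0, 0],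 [0, 0, 0, 0, 2, 0, 0, 0, 0, 0, 0, 0, 0, 0], [1, 0, 0, 0, 0, 0, 0, 2, 0, 0, 0, 0, 0, 0], [1, 0, 0, 0, 0, 0, 0, 2, 1, 0, 0, 0, 0, 0]], [], []⟩]⟩

theorem m8_ok : chkMax m8 = true := by decide +kernel

/-- `L2:6+_3:2-` -/
def m9 : MCert :=
  ⟨2, [[1, 0, 0, 0, 0], [0, 1, 0, 0, 0], [0, 0, 1, 0, 0], [0, 0, 0, 3, 0], [0, 0, 0, 0, 3]], 1, [1, 1, 1, 3, 3], [[1, 0, 0, 0, 0], [0, 1, 0, 0, 0], [0, 0, 1, 0, 0], [0, 0, 0, 1, 0], [0, 0, 0, 0, 1]], [[1, -1, 1, 0, 0, 1, 0], [0, 0, 0, 0, 0, -1, 1], [0, 0, -1, 1, 0, 0, 0], [0, 0, 0, -1, 1, 0, 0], [1, 0, 1, 1, 0, 0, 0], [0, 0, 0, 0, 0, 0, -1], [0, 0, 0, 0, -1, 0, 0]], [2, 6, 2, 2, 2, 3, 1], [[0, 0, 1, 2, 1, 0, 2], [-1, -1, 0, 1,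 1, -1, 1], [0, 0, -1, -1, 0, 0, -1], [0, 0, 0, -1, 0, 0, -1], [0, 0, 0, 0, 0, 0, -1], [0, -1, 0, 0, 0, -1, 0], [0, 0, 0, 0, 0, -1, 0]], [0, 0, 0, 2, 3, 1, 3], 3, [[0, 3, 0, 0, 0, 0, 0], [3, 0, 0, 0, 0, 0, 0], [0, 0, 3, 0, 0, 0, 0], [0, 0, 0, 3, 0, 0, 0], [0, 0, 0, 0, 3, 0, 0], [0, 0, 0, 0, 0, 1, 0], [0, 0, 0, 0, 0, 0, 1]], [0, 0, 1, 1, 1, 1, 1], [⟨2, [[0, 0, 0, 0, 0, 0, 0, 1, 1, 0, 1, 1, 0, 0], [0, 0, 0, 0, 0, 0, 0, 0, 0, 1, 0, 1, 0, 0], [0, 0, 0, 0, 0, 0, 0, 0, 0, 1, 1, 0, 0, 0], [0, 0, 0, 0, 0, 0, 0, 0, 0, 0, 1, 0, 0, 0], [0, 0, 0, 0, 0, 0, 0, 0, 0, 0, 0, 0, 0, 0], [0, 0, 0, 0, 0, 0, 0, 0, 1, 0, 0, 0, 0, 0], [0, 0, 0, 0, 0, 0, 0, 0, 0, 0, 0, 0, 0, 0]], [[1,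 0, 1, 1, 1, 0, 0], [1, 0, 0, 0, 0, 1, 1]], [4, 6]⟩, ⟨3, [[0, 2, 0, 0, 0, 0, 0, 0, 0, 0, 0, 0, 0, 0], [2, 0, 0, 0, 0, 0, 0, 0, 0, 0, 0, 0, 0, 0], [0, 0, 2, 0, 0, 0, 0, 0, 0, 0, 0, 0, 0, 0], [0, 0, 0, 2, 0, 0, 0, 0, 0, 0, 0, 0, 0, 0], [0, 0, 0, 0, 2, 0, 0, 0, 0, 0, 0, 0, 0, 0], [0, 0, 0, 0, 0, 0, 0, 0, 2, 0, 0, 0, 1, 0], [0, 0, 0, 0, 0, 0, 0, 0, 0, 0, 0, 0, 1, 0]], [], []⟩]⟩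

theorem m9_ok : chkMax m9 = true := by decide +kernel

/-- `L2:2-_3:4+` -/
def m10 : MCert :=
  ⟨1, [[2, 1, 0, 0, 0], [1, 2, 0, 0, 0], [0, 0, 4, 2, 0], [0, 0, 2, 4, 0], [0, 0, 0, 0, 6]], 2, [1, 3, 2, 6, 12], [[2, 1, 0, 0, 0], [0, 1, 0, 0, 0], [0, 0, 2, 1, 0], [0, 0, 0, 1, 0], [0, 0, 0, 0, 1]], [[3, 0, 0, 0, 0, 0, 1], [-1, -1, 0, 0, 0, 0, 0], [2, 0, 0, 0, 1, 0, 0], [0, 0, 0, 0, -1, 1, 0], [1, 0, 1, 0, 0, 0, 0], [0, 0, -1, 1, 0, 0, 0], [0, 0, 1, -2, 0, 0, 0]], [3, 1, 2, 2, 1, 1, 3], [[0, 0, 0, 0, 1, 2, 1], [0, -1, 0, 0, -1, -2, -1], [0, 0, 0, 0, 0, -2, -1], [0, 0, 0, 0, 0, -1, -1], [0, 0, 1, 0, -2, -4, -2], [0, 0, 1, 1, -2, -4, -2], [1, 0, 0, 0, -3, -6, -3]],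 [0, 0, 1, 2, 1, 4, 5], 3, [[0, 6, 0, 0, 0, 0, 0], [6, 0, 0, 0, 0, 0, 0], [0, 0, 4, -2, 0, 0, 0], [0, 0, -2, 4, 0, 0, 0], [0, 0, 0, 0, 2, -1, 0], [0, 0, 0, 0, -1, 2, 0], [0, 0, 0, 0, 0, 0, 1]], [0, 0, 0, 0, 0, 0, 1], [⟨2, [[0, 1, 0, 0, 0, 0, 0, 0, 0, 0, 0, 0, 0, 0], [1, 0, 0, 0, 0, 0, 0, 0, 0, 0, 0, 0, 0, 0], [0, 0, 0, 1, 0, 0, 0, 0, 0, 0, 0, 0, 0, 0], [0, 0, 1, 0, 0, 0, 0, 0, 0, 0, 0, 0, 0, 0], [1, 0, 0, 0, 0, 0, 0, 0, 0, 1, 1, 0, 0, 0], [1, 0, 0, 0, 0, 0, 0, 0, 0, 1, 0, 0, 0, 0], [0, 0, 0, 0, 0, 0, 0, 0, 0, 0, 0, 0, 0, 0]], [[0, 0, 0, 0, 0, 0, 1]], [6]⟩, ⟨3, [[0, 1, 0, 0, 0, 0, 0, 0, 0, 0, 0, 0, 0, 0], [1, 0, 0, 0, 0, 0, 0, 0, 0, 0, 0, 0, 0, 0], [0, 0, 2, 0,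 0, 0, 0, 0, 0, 0, 0, 0, 0, 2], [0, 0, 0, 0, 0, 0, 0, 0, 0, 0, 0, 0, 0, 2], [0, 0, 0, 0, 1, 0, 0, 0, 0, 0, 0, 0, 0, 0], [0, 0, 0, 0, 0, 0, 0, 0, 0, 0, 0, 0, 0, 0], [1, 0, 0, 0, 0, 0, 0, 2, 0, 0, 0, 0, 0, 0]], [[0, 0, 0, 0, 1, 1, 0]], [5]⟩]⟩

theorem m10_ok : chkMax m10 = true := by decide +kernel

/-- `L2:4-_3:4+` -/
def m11 : MCert :=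
  ⟨1, [[4, 2, 0, 0, 0], [2, 4, 0, 0, 0], [0, 0, 2, 0, 0], [0, 0, 0, 6, 0], [0, 0, 0, 0, 6]], 1, [1, 3, 2, 6, 6], [[2, 1, 0, 0, 0], [0, 1, 0, 0, 0], [0, 0, 1, 0, 0], [0, 0, 0, 1, 0], [0, 0, 0, 0, 1]], [[3, 0, 0, 0, 0, 1, 0], [-1, -1, 0, 0, 0, 0, 0], [2, 0, 1, 0, 0, 0, 0], [1, 0, 0, 0, 1, 0, 0], [0, 0, 0, 0, 0, -1, 1], [0, 0, -1, 1, 0, 0, 0], [0, 0, 0, 0, -1, 0, 0]], [3, 1, 2, 1, 6, 2, 1], [[0, 0, 0, 1, 0, 0, 1], [0, -1, 0, -1, 0, 0, -1], [0, 0, 1, -2, 0, 0, -2], [0, 0, 1, -2, 0, 1, -2], [0, 0, 0, 0, 0, 0, -1], [1, 0, 0, -3, 0, 0, -3], [1, 0, 0, -3, 1, 0, -3]], [0, 0, 1, 1, 0, 2, 3], 3, [[0, 6, 0, 0, 0, 0, 0], [6, 0, 0, 0, 0, 0, 0], [0, 0, 2, -1, 0, 0, 0], [0,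 0, -1, 2, 0, 0, 0], [0, 0, 0, 0, 3, 0, 0], [0, 0, 0, 0, 0, 1, 0], [0, 0, 0, 0, 0, 0, 1]], [0, 0, 0, 0, 1, 1, 1], [⟨2, [[0, 1, 0, 0, 0, 0, 0, 0, 0, 0, 0, 0, 0, 0], [1, 0, 0, 0, 0, 0, 0, 0, 0, 0, 0, 0, 0, 0], [1, 0, 0, 0, 0, 0, 0, 0, 0, 1, 0, 0, 1, 0], [1, 0, 0, 0, 0, 0, 0, 0, 0, 1, 0, 0, 0, 0], [0, 0, 0, 0, 0, 0, 0, 0, 0, 0, 0, 0, 0, 0], [0, 0, 0, 0, 0, 0, 0, 0, 0, 0, 0, 1, 0, 0], [0, 0, 0, 0, 0, 0, 0, 0, 0, 0, 0, 0, 0, 0]], [[0, 0, 0, 0, 1, 0, 0], [0, 0, 0, 0, 0, 1, 1]], [4, 6]⟩, ⟨3, [[0, 1, 0, 0, 0, 0, 0, 0, 0, 0, 0, 0, 0, 0], [1, 0, 0, 0, 0, 0, 0, 0, 0, 0, 0, 0, 0, 0], [0, 0, 1, 0, 0, 0, 0, 0, 0, 0, 0, 0, 0, 0], [0, 0, 0, 0, 0, 0, 0, 0, 0, 0, 0, 0, 0, 0], [0,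 0, 0, 0, 2, 0, 0, 0, 0, 0, 0, 0, 0, 0], [1, 0, 0, 0, 0, 0, 0, 2, 0, 0, 0, 0, 0, 0], [1, 0, 0, 0, 0, 0, 0, 2, 0, 0, 0, 1, 0, 0]], [[0, 0, 1, 1, 0, 0, 0]], [3]⟩]⟩

theorem m11_ok : chkMax m11 = true := by decide +kernel

/-- `L2:6-_3:4+` -/
def m12 : MCert :=
  ⟨2, [[2, 1, 0, 0, 0], [1, 2, 0, 0, 0], [0, 0, 1, 0, 0], [0, 0, 0, 3, 0], [0, 0, 0, 0, 3]], 2, [1, 3, 2, 6, 6], [[2, 1, 0, 0, 0], [0, 1, 0, 0, 0], [0, 0, 1, 0, 0], [0, 0, 0, 1, 0], [0, 0, 0, 0, 1]], [[1, -1, 0, 0, 1, 1, 0], [0, 0, 0, 0, 0, -1, 1], [1, 0, 1, 0, 0, 0, 0], [0, 0, -1, 1, 0, 0, 0], [0, 0, 1, -2, 0, 0, 0], [0, 0, 0, 0, -1, 0, 0], [0, 0, 0, 0, 0, 0, -1]], [2, 6, 2, 2, 6, 1, 3], [[0, 0, 1, 2, 1,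 0, 0], [-1, -1, 1, 2, 1, -1, -1], [0, 0, 0, -2, -1, 0, 0], [0, 0, 0, -1, -1, 0, 0], [0, 0, 0, 0, 0, -1, 0], [0, -1, 0, 0, 0, 0, -1], [0, 0, 0, 0, 0, 0, -1]], [0, 0, 0, 2, 3, 0, 1], 3, [[0, 3, 0, 0, 0, 0, 0], [3, 0, 0, 0, 0, 0, 0], [0, 0, 2, -1, 0, 0, 0], [0, 0, -1, 2, 0, 0, 0], [0, 0, 0, 0, 3, 0, 0], [0, 0, 0, 0, 0, 1, 0], [0, 0, 0, 0, 0, 0, 1]], [0, 0, 0, 0, 1, 1, 1], [⟨2, [[0, 0, 0, 0, 0, 0, 0, 1, 1, 1, 0, 1, 0, 0], [0, 0, 0, 0, 0, 0, 0, 0, 0, 1, 0, 1, 0, 0], [0, 0, 0, 0, 0, 0, 0, 0, 0, 0, 1, 1, 0, 0], [0, 0, 0, 0, 0, 0, 0, 0, 0, 0, 0, 1, 0, 0], [0, 0, 0, 0, 0, 0, 0, 0, 0, 0, 0, 0, 0, 0], [0, 0, 0, 0, 0, 0, 0, 0, 1, 0, 0, 0, 0, 0], [0, 0, 0, 0, 0, 0, 0, 0,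 0, 0, 0, 0, 0, 0]], [[1, 0, 0, 0, 1, 0, 0], [1, 0, 0, 0, 0, 1, 1]], [4, 6]⟩, ⟨3, [[0, 2, 0, 0, 0, 0, 0, 0, 0, 0, 0, 0, 0, 0], [2, 0, 0, 0, 0, 0, 0, 0, 0, 0, 0, 0, 0, 0], [0, 0, 1, 0, 0, 0, 0, 0, 0, 0, 0, 2, 0, 0], [0, 0, 0, 0, 0, 0, 0, 0, 0, 0, 0, 2, 0, 0], [0, 0, 0, 0, 2, 0, 0, 0, 0, 0, 0, 0, 0, 0], [0, 0, 0, 0, 0, 0, 0, 0, 2, 0, 0, 0, 0, 1], [0, 0, 0, 0, 0, 0, 0, 0, 0, 0, 0, 0, 0, 1]], [], []⟩]⟩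

theorem m12_ok : chkMax m12 = true := by decide +kernel

/-- `L3:4-` -/
def m13 : MCert :=
  ⟨1, [[2, 1, 0, 0, 0], [1, 2, 0, 0, 0], [0, 0, 2, 1, 0], [0, 0, 1, 2, 0], [0, 0, 0, 0, 6]], 2, [1, 3, 1, 3, 12], [[2, 1, 0, 0, 0], [0, 1, 0, 0, 0], [0, 0, 2, 1, 0], [0, 0, 0, 1, 0], [0, 0, 0, 0, 1]], [[3, 0, 0, 0, 0, 0, 1], [-1, -1, 0, 0, 0, 0, 0], [1, 0, 0, 0, 1, 0, 0], [0, 0, 0, 0, -1, 1, 0], [1, 0, 1, 0, 0, 0, 0], [0, 0, -1, 1, 0, 0, 0], [0, 0, 1, -2, 0, 0, 0]], [3, 1, 1, 1, 1, 1, 3], [[0, 0, 0, 0, 1, 2, 1], [0, -1, 0, 0, -1, -2, -1], [0, 0, 0, 0, 0, -2, -1], [0, 0, 0, 0, 0, -1, -1], [0, 0, 1, 0, -1, -2, -1], [0, 0, 1, 1, -1, -2, -1], [1, 0, 0, 0, -3, -6, -3]], [0,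 0, 1, 2, 1, 4, 5], 3, [[0, 6, 0, 0, 0, 0, 0], [6, 0, 0, 0, 0, 0, 0], [0, 0, 4, -2, 0, 0, 0], [0, 0, -2, 4, 0, 0, 0], [0, 0, 0, 0, 4, -2, 0], [0, 0, 0, 0, -2, 4, 0], [0, 0, 0, 0, 0, 0, 1]], [0, 0, 0, 0, 0, 0, 1], [⟨2, [[0, 1, 0, 0, 0, 0, 0, 0, 0, 0, 0, 0, 0, 0], [1, 0, 0, 0, 0, 0, 0, 0, 0, 0, 0, 0, 0, 0], [0, 0, 0, 1, 0, 0, 0, 0, 0, 0, 0, 0, 0, 0], [0, 0, 1, 0, 0, 0, 0, 0, 0, 0, 0, 0, 0, 0], [0, 0, 0, 0, 0, 1, 0, 0, 0, 0, 0, 0, 0, 0], [0, 0, 0, 0, 1, 0, 0, 0, 0, 0, 0, 0, 0, 0], [0, 0, 0, 0, 0, 0, 0, 0, 0, 0, 0, 0, 0, 0]], [[0, 0, 0, 0, 0, 0, 1]], [6]⟩, ⟨3, [[0, 1, 0, 0, 0, 0, 0, 0, 0, 0, 0, 0, 0, 0], [1, 0, 0, 0, 0, 0, 0, 0, 0, 0, 0, 0, 0, 0], [0, 0, 2, 0, 0,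 0, 0, 0, 0, 0, 0, 0, 0, 2], [0, 0, 0, 0, 0, 0, 0, 0, 0, 0, 0, 0, 0, 2], [0, 0, 0, 0, 2, 0, 0, 0, 0, 0, 0, 0, 0, 0], [0, 0, 0, 0, 0, 0, 0, 0, 0, 0, 0, 0, 0, 0], [1, 0, 0, 0, 0, 0, 0, 2, 0, 0, 0, 0, 0, 0]], [[0, 0, 0, 0, 1, 1, 0]], [5]⟩]⟩

theorem m13_ok : chkMax m13 = true := by decide +kernel

end RH6.MC
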