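import Pool.Agent.RH6.ZDef

namespace RH6.MC

/-- `L2:2+_3:4-` -/
def m14 : MCert :=
  ⟨1, [[2, 1, 0, 0, 0], [1, 2, 0, 0, 0], [0, 0, 2, 0, 0], [0, 0, 0, 6, 0], [0, 0, 0, 0, 6]], 2, [1, 3, 4, 12, 12], [[2, 1, 0, 0, 0], [0, 1, 0, 0, 0], [0, 0, 1, 0, 0], [0, 0, 0, 1, 0], [0, 0, 0, 0, 1]], [[3, 0, 0, 0, 0, 1, 0], [-1, -1, 0, 0, 0, 0, 0], [0, 0, 0, 0, 0, -1, 1], [1, 0, 0, 0, 1, 0, 0], [1, 0, 1, 0, 0, 0, 0], [0, 0, -1, 1, 0, 0, 0], [0, 0, 0, 0, -1, 0, 0]], [3, 1, 6, 1, 1, 1, 1], [[0, 0, 0, 1, 0, 0, 1], [0, -1, 0, -1, 0, 0, -1], [0, 0, 0, -1, 1, 0, -1], [0, 0, 0, -1, 1, 1, -1], [0, 0, 0, 0, 0, 0, -1], [1, 0, 0, -3, 0, 0, -3], [1, 0, 1, -3, 0, 0, -3]], [0, 0, 0, 1, 1, 4,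 3], 3, [[0, 6, 0, 0, 0, 0, 0], [6, 0, 0, 0, 0, 0, 0], [0, 0, 4, -2, 0, 0, 0], [0, 0, -2, 4, 0, 0, 0], [0, 0, 0, 0, 3, 0, 0], [0, 0, 0, 0, 0, 1, 0], [0, 0, 0, 0, 0, 0, 1]], [0, 0, 0, 0, 1, 1, 1], [⟨2, [[0, 1, 0, 0, 0, 0, 0, 0, 0, 0, 0, 0, 0, 0], [1, 0, 0, 0, 0, 0, 0, 0, 0, 0, 0, 0, 0, 0], [0, 0, 0, 1, 0, 0, 0, 0, 0, 0, 0, 0, 0, 0], [0, 0, 1, 0, 0, 0, 0, 0, 0, 0, 0, 0, 0, 0], [0, 0, 0, 0, 0, 0, 0, 0, 0, 0, 0, 0, 0, 0], [0, 0, 0, 0, 0, 0, 0, 0, 0, 1, 0, 0, 0, 0], [0, 0, 0, 0, 0, 0, 0, 0, 0, 0, 0, 0, 0, 0]], [[0, 0, 0, 0, 1, 0, 0], [0, 0, 0, 0, 0, 1, 1]], [4, 6]⟩, ⟨3, [[0, 1, 0, 0, 0, 0, 0, 0, 0, 0, 0, 0, 0, 0], [1, 0, 0, 0, 0, 0, 0, 0, 0, 0, 0, 0, 0, 0], [0, 0, 2,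 0, 0, 0, 0, 0, 0, 0, 0, 0, 0, 0], [0, 0, 0, 0, 0, 0, 0, 0, 0, 0, 0, 0, 0, 0], [0, 0, 0, 0, 2, 0, 0, 0, 0, 0, 0, 0, 0, 0], [1, 0, 0, 0, 0, 0, 0, 2, 0, 0, 0, 0, 0, 0], [1, 0, 0, 0, 0, 0, 0, 2, 0, 1, 0, 0, 0, 0]], [[0, 0, 1, 1, 0, 0, 0]], [3]⟩]⟩

theorem m14_ok : chkMax m14 = true := by decide +kernel

/-- `L2:4+_3:4-` -/
def m15 : MCert :=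
  ⟨1, [[2, 0, 0, 0, 0], [0, 2, 0, 0, 0], [0, 0, 6, 0, 0], [0, 0, 0, 6, 0], [0, 0, 0, 0, 6]], 1, [2, 2, 6, 6, 6], [[1, 0, 0, 0, 0], [0, 1, 0, 0, 0], [0, 0, 1, 0, 0], [0, 0, 0, 1, 0], [0, 0, 0, 0, 1]], [[3, 0, 0, 0, 1, 0, 0], [0, 0, 0, 0, -1, 1, 0], [0, 0, 0, 0, 0, -1, 1], [-1, -1, 0, 0, 0, 0, 0], [1, 0, 1, 0, 0, 0, 0], [0, 0, -1, 1, 0, 0, 0], [0, 0, 0, -1, 0, 0, 0]], [3, 6, 6, 1, 1, 2, 1], [[0, 0, 0, 0, 1, 1, 1], [0, 0, 0, -1, -1, -1, -1], [0, 0, 0, 0, 0, -1, -1], [0, 0, 0, 0, 0, 0, -1], [1, 0, 0, 0, -3, -3, -3], [1, 1, 0, 0, -3, -3, -3], [1, 1, 1, 0, -3, -3, -3]], [0, 0, 1, 0, 3, 4, 5], 3, [[0, 6, 0, 0, 0, 0, 0], [6, 0, 0, 0, 0, 0, 0], [0, 0, 3, 0, 0, 0, 0], [0,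 0, 0, 3, 0, 0, 0], [0, 0, 0, 0, 1, 0, 0], [0, 0, 0, 0, 0, 1, 0], [0, 0, 0, 0, 0, 0, 1]], [0, 0, 1, 1, 1, 1, 1], [⟨2, [[0, 1, 0, 0, 0, 0, 0, 0, 0, 0, 0, 0, 0, 0], [1, 0, 0, 0, 0, 0, 0, 0, 0, 0, 0, 0, 0, 0], [0, 0, 0, 0, 0, 0, 0, 0, 0, 0, 0, 0, 1, 0], [0, 0, 0, 0, 0, 0, 0, 0, 0, 0, 0, 0, 0, 0], [0, 0, 0, 0, 0, 0, 0, 0, 1, 1, 0, 0, 0, 0], [0, 0, 0, 0, 0, 0, 0, 0, 0, 1, 0, 0, 0, 0], [0, 0, 0, 0, 0, 0, 0, 0, 0, 0, 0, 0, 0, 0]], [[0, 0, 1, 1, 0, 0, 0], [0, 0, 0, 0, 1, 1, 1]], [3, 6]⟩, ⟨3, [[0, 1, 0, 0, 0, 0, 0, 0, 0, 0, 0, 0, 0, 0], [1, 0, 0, 0, 0, 0, 0, 0, 0, 0, 0, 0, 0, 0], [0, 0, 2, 0, 0, 0, 0, 0, 0, 0, 0, 0, 0, 0], [0, 0, 0, 2, 0, 0, 0, 0, 0, 0, 0, 0, 0, 0], [1,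 0, 0, 0, 0, 0, 0, 2, 0, 0, 0, 0, 0, 0], [1, 0, 0, 0, 0, 0, 0, 2, 1, 0, 0, 0, 0, 0], [1, 0, 0, 0, 0, 0, 0, 2, 1, 1, 0, 0, 0, 0]], [], []⟩]⟩

theorem m15_ok : chkMax m15 = true := by decide +kernel

/-- `L2:6+_3:4-` -/
def m16 : MCert :=
  ⟨2, [[1, 0, 0, 0, 0], [0, 1, 0, 0, 0], [0, 0, 3, 0, 0], [0, 0, 0, 3, 0], [0, 0, 0, 0, 3]], 1, [1, 1, 3, 3, 3], [[1, 0, 0, 0, 0], [0, 1, 0, 0, 0], [0, 0, 1, 0, 0], [0, 0, 0, 1, 0], [0, 0, 0, 0, 1]], [[1, -1, 1, 0, 1, 0, 0], [0, 0, 0, 0, -1, 1, 0], [0, 0, 0, 0, 0, -1, 1], [0, 0, -1, 1, 0, 0, 0], [0, 0, 0, -1, 0, 0, 0], [1, 0, 1, 1, 0, 0, 0], [0, 0, 0, 0, 0, 0, -1]], [2, 6, 6, 2, 1, 2, 3], [[0, 0, 0, 1, 2, 1, 0], [-1, -1, -1, 0, 1,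 1, -1], [0, 0, 0, -1, -1, 0, 0], [0, 0, 0, 0, -1, 0, 0], [0, -1, -1, 0, 0, 0, -1], [0, 0, -1, 0, 0, 0, -1], [0, 0, 0, 0, 0, 0, -1]], [0, 0, 1, 0, 3, 4, 2], 3, [[0, 3, 0, 0, 0, 0, 0], [3, 0, 0, 0, 0, 0, 0], [0, 0, 3, 0, 0, 0, 0], [0, 0, 0, 3, 0, 0, 0], [0, 0, 0, 0, 1, 0, 0], [0, 0, 0, 0, 0, 1, 0], [0, 0, 0, 0, 0, 0, 1]], [0, 0, 1, 1, 1, 1, 1], [⟨2, [[0, 0, 0, 0, 0, 0, 0, 1, 1, 1, 0, 0, 1, 0], [0, 0, 0, 0, 0, 0, 0, 0, 0, 0, 1, 0, 1, 0], [0, 0, 0, 0, 0, 0, 0, 0, 0, 0, 1, 0, 0, 0], [0, 0, 0, 0, 0, 0, 0, 0, 0, 0, 0, 0, 0, 0], [0, 0, 0, 0, 0, 0, 0, 0, 1, 1, 0, 0, 0, 0], [0, 0, 0, 0, 0, 0, 0, 0, 0, 1, 0, 0, 0, 0], [0, 0, 0, 0, 0, 0, 0, 0, 0, 0, 0, 0, 0, 0]], [[1, 0, 1,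 1, 0, 0, 0], [1, 0, 0, 0, 1, 1, 1]], [3, 6]⟩, ⟨3, [[0, 2, 0, 0, 0, 0, 0, 0, 0, 0, 0, 0, 0, 0], [2, 0, 0, 0, 0, 0, 0, 0, 0, 0, 0, 0, 0, 0], [0, 0, 2, 0, 0, 0, 0, 0, 0, 0, 0, 0, 0, 0], [0, 0, 0, 2, 0, 0, 0, 0, 0, 0, 0, 0, 0, 0], [0, 0, 0, 0, 0, 0, 0, 0, 2, 2, 0, 0, 0, 1], [0, 0, 0, 0, 0, 0, 0, 0, 0, 2, 0, 0, 0, 1], [0, 0, 0, 0, 0, 0, 0, 0, 0, 0, 0, 0, 0, 1]], [], []⟩]⟩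

theorem m16_ok : chkMax m16 = true := by decide +kernel

/-- `L2:2-_3:6+` -/
def m17 : MCert :=
  ⟨1, [[2, 1, 0, 0, 0], [1, 2, 0, 0, 0], [0, 0, 2, 0, 0], [0, 0, 0, 2, 0], [0, 0, 0, 0, 2]], 2, [1, 3, 4, 4, 4], [[2, 1, 0, 0, 0], [0, 1, 0, 0, 0], [0, 0, 1, 0, 0], [0, 0, 0, 1, 0], [0, 0, 0, 0, 1]], [[-1, -1, 0, 0, 0, 0, 0], [1, 0, 0, 0, 1, 0, 0], [0, 0, 0, 0, -1, 1, 0], [0, 0, 0, 0, 0, -1, 1], [1, 0, 1, 0, 0, 0, 0], [0, 0, -1, 1, 0, 0, 0], [0, 0, 0, 0, 0, 0, -1]], [1, 1, 2, 2, 1, 1, 1], [[0, 1, 1, 1, 0, 0, 1], [-1, -1, -1, -1, 0, 0, -1], [0, -1, -1, -1, 1, 0, -1], [0, -1, -1, -1, 1, 1, -1], [0, 0, -1, -1, 0, 0, -1], [0, 0, 0, -1, 0, 0, -1], [0, 0, 0, 0, 0, 0, -1]],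 [0, 0, 1, 2, 0, 4, 3], 3, [[0, 6, 0, 0, 0, 0, 0], [6, 0, 0, 0, 0, 0, 0], [0, 0, 4, -2, 0, 0, 0], [0, 0, -2, 4, 0, 0, 0], [0, 0, 0, 0, 3, 0, 0], [0, 0, 0, 0, 0, 3, 0], [0, 0, 0, 0, 0, 0, 3]], [0, 0, 0, 0, 1, 1, 1], [⟨2, [[0, 1, 0, 0, 0, 0, 0, 0, 0, 0, 0, 0, 0, 0], [1, 0, 0, 0, 0, 0, 0, 0, 0, 0, 0, 0, 0, 0], [0, 0, 0, 1, 0, 0, 0, 0, 0, 0, 0, 0, 0, 0], [0, 0, 1, 0, 0, 0, 0, 0, 0, 0, 0, 0, 0, 0], [0, 0, 0, 0, 0, 0, 0, 0, 0, 1, 1, 0, 0, 0], [0, 0, 0, 0, 0, 0, 0, 0, 0, 0, 1, 0, 0, 0], [0, 0, 0, 0, 0, 0, 0, 0, 0, 0, 0, 0, 0, 0]], [[0, 0, 0, 0, 1, 1, 1]], [6]⟩, ⟨3, [[0, 1, 0, 0, 0, 0, 0, 0, 0, 0, 0, 0, 0, 0], [1, 0, 0, 0, 0, 0, 0, 0, 0, 0, 0, 0, 0, 0], [0, 0, 2, 0, 0,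 0, 0, 0, 0, 0, 0, 0, 0, 0], [0, 0, 0, 0, 0, 0, 0, 0, 0, 0, 0, 0, 0, 0], [0, 0, 0, 0, 2, 0, 0, 0, 0, 0, 0, 0, 0, 0], [0, 0, 0, 0, 0, 2, 0, 0, 0, 0, 0, 0, 0, 0], [0, 0, 0, 0, 0, 0, 2, 0, 0, 0, 0, 0, 0, 0]], [[0, 0, 1, 1, 0, 0, 0]], [3]⟩]⟩

theorem m17_ok : chkMax m17 = true := by decide +kernel

/-- `L2:4-_3:6+` -/
def m18 : MCert :=
  ⟨1, [[2, 0, 0, 0, 0], [0, 2, 0, 0, 0], [0, 0, 2, 0, 0], [0, 0, 0, 2, 0], [0, 0, 0, 0, 6]], 1, [2, 2, 2, 2, 6], [[1, 0, 0, 0, 0], [0, 1, 0, 0, 0], [0, 0, 1, 0, 0], [0, 0, 0, 1, 0], [0, 0, 0, 0, 1]], [[2, -2, 1, 1, 1, 0, 1], [0, 0, 0, 0, -1, 1, 0], [0, 0, 0, -1, 1, 0, 0], [0, 0, -1, 1, 0, 0, 0], [1, 0, 1, 0, 0, 0, 0], [-1, -1, 0, 0,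 0, 0, 0], [0, 0, 0, 0, 0, 0, -1]], [2, 2, 2, 2, 1, 1, 3], [[1, 0, -1, -2, -3, -2, 1], [-1, 0, 1, 2, 3, 1, -1], [-1, 0, 1, 2, 4, 2, -1], [-1, 0, 1, 3, 4, 2, -1], [-1, 0, 2, 3, 4, 2, -1], [-1, 1, 2, 3, 4, 2, -1], [0, 0, 0, 0, 0, 0, -1]], [0, 0, 1, 2, 3, 4, 0], 3, [[0, 6, 0, 0, 0, 0, 0], [6, 0, 0, 0, 0, 0, 0], [0, 0, 3, 0, 0, 0, 0], [0, 0, 0, 3, 0, 0, 0], [0, 0, 0, 0, 3, 0, 0], [0, 0, 0, 0, 0, 3, 0], [0, 0, 0, 0, 0, 0, 1]], [0, 0, 1, 1, 1, 1, 1], [⟨2, [[0, 1, 0, 0, 0, 0, 0, 0, 0, 0, 0, 0, 0, 0], [1, 0, 0, 0, 0, 0, 0, 0, 0, 0, 0, 0, 0, 0], [1, 1, 0, 0, 0, 0, 0, 1, 0, 1, 0, 0, 0, 0], [1, 1, 0, 0, 0, 0, 0, 1, 0, 1, 1, 0, 0, 0], [1, 1, 0, 0, 0, 0, 0, 1, 0, 0, 1, 0, 0,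 0], [1, 1, 0, 0, 0, 0, 0, 1, 1, 0, 1, 0, 0, 0], [0, 0, 0, 0, 0, 0, 0, 0, 0, 0, 0, 0, 0, 0]], [[0, 0, 1, 1, 1, 1, 1]], [6]⟩, ⟨3, [[0, 1, 0, 0, 0, 0, 0, 0, 0, 0, 0, 0, 0, 0], [1, 0, 0, 0, 0, 0, 0, 0, 0, 0, 0, 0, 0, 0], [0, 0, 2, 0, 0, 0, 0, 0, 0, 0, 0, 0, 0, 0], [0, 0, 0, 2, 0, 0, 0, 0, 0, 0, 0, 0, 0, 0], [0, 0, 0, 0, 2, 0, 0, 0, 0, 0, 0, 0, 0, 0], [0, 0, 0, 0, 0, 2, 0, 0, 0, 0, 0, 0, 0, 0], [0, 0, 0, 0, 0, 0, 0, 0, 0, 0, 0, 0, 0, 1]], [], []⟩]⟩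

theorem m18_ok : chkMax m18 = true := by decide +kernel

/-- `L2:6-_3:6+` -/
def m19 : MCert :=
  ⟨2, [[1, 0, 0, 0, 0], [0, 1, 0, 0, 0], [0, 0, 1, 0, 0], [0, 0, 0, 1, 0], [0, 0, 0, 0, 3]], 1, [1, 1, 1, 1, 3], [[1, 0, 0, 0, 0], [0, 1, 0, 0, 0], [0, 0, 1, 0, 0], [0, 0, 0, 1, 0], [0, 0, 0, 0, 1]], [[1, -1, 1, 0, 0, 0, 1], [0, 0, -1, 1, 0, 0, 0], [0, 0, 0, -1, 1, 0, 0], [1, 0, 1, 1, 0, 0, 0], [0, 0, 0, 0, -1, 1, 0], [-1, -1, 0, 0, 0, 0, 0], [0, 0, 0, 0, 0, -1, 0]], [2, 2, 2, 2, 2, 2, 1], [[0, 1, 2, 1, 2, 0, 2], [0, -1, -2, -1, -2, -1, -2], [0, -1, -1, 0, -1, 0, -1], [0, 0, -1, 0, -1, 0, -1], [0, 0, 0, 0, -1, 0, -1], [0, 0, 0, 0, 0, 0, -1], [1, -1, -3, -2, -3, -1,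 -3]], [0, 0, 1, 2, 2, 3, 4], 3, [[0, 3, 0, 0, 0, 0, 0], [3, 0, 0, 0, 0, 0, 0], [0, 0, 3, 0, 0, 0, 0], [0, 0, 0, 3, 0, 0, 0], [0, 0, 0, 0, 3, 0, 0], [0, 0, 0, 0, 0, 3, 0], [0, 0, 0, 0, 0, 0, 1]], [0, 0, 1, 1, 1, 1, 1], [⟨2, [[0, 0, 0, 0, 0, 0, 0, 0, 1, 0, 1, 0, 1, 0], [0, 0, 0, 0, 0, 0, 0, 0, 1, 0, 1, 0, 0, 0], [0, 0, 0, 0, 0, 0, 0, 1, 0, 0, 0, 0, 1, 0], [0, 0, 0, 0, 0, 0, 0, 1, 1, 0, 0, 0, 1, 0], [0, 0, 0, 0, 0, 0, 0, 1, 1, 1, 0, 0, 1, 0], [0, 0, 0, 0, 0, 0, 0, 1, 1, 1, 0, 1, 1, 0], [0, 0, 0, 0, 0, 0, 0, 0, 0, 0, 0, 0, 0, 0]], [[0, 0, 1, 1, 1, 1, 1]], [6]⟩, ⟨3, [[0, 2, 0, 0, 0, 0, 0, 0, 0, 0, 0, 0, 0, 0], [2, 0, 0, 0, 0, 0, 0, 0, 0, 0, 0, 0, 0, 0], [0, 0, 2, 0,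 0, 0, 0, 0, 0, 0, 0, 0, 0, 0], [0, 0, 0, 2, 0, 0, 0, 0, 0, 0, 0, 0, 0, 0], [0, 0, 0, 0, 2, 0, 0, 0, 0, 0, 0, 0, 0, 0], [0, 0, 0, 0, 0, 2, 0, 0, 0, 0, 0, 0, 0, 0], [0, 0, 0, 0, 0, 0, 0, 0, 0, 0, 0, 0, 0, 0]], [[0, 0, 0, 0, 0, 0, 1]], [6]⟩]⟩

theorem m19_ok : chkMax m19 = true := by decide +kernel

/-- `L3:6-` -/
def m20 : MCert :=
  ⟨1, [[2, 1, 0, 0, 0], [1, 2, 1, 0, 0], [0, 1, 2, 1, 0], [0, 0, 1, 2, 1], [0, 0, 0, 1, 2]], 60, [30, 10, 5, 3, 72], [[2, 1, 0, 0, 0], [0, 3, 2, 0, 0], [0, 0, 4, 3, 0], [0, 0, 0, 5, 4], [0, 0, 0, 0, 1]], [[0, 0, 0, 0, -1, 1, 0], [0, 0, -1, 1, 0, 0, 0], [1, 0, 1, 0, 0, 0, 0], [0, 0, 0, -1, 1, 0, 0], [0, 0, 0, 0, 0, -1, 1], [-1, -1, 0, 0,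 0, 0, 0], [0, 0, 0, 0, 0, 0, -1]], [1, 1, 1, 1, 1, 1, 1], [[1, 1, 1, 1, 1, 0, 1], [-1, -1, -1, -1, -1, -1, -1], [-1, -1, 0, -1, -1, 0, -1], [-1, 0, 0, -1, -1, 0, -1], [-1, 0, 0, 0, -1, 0, -1], [0, 0, 0, 0, -1, 0, -1], [0, 0, 0, 0, 0, 0, -1]], [0, 0, 1, 2, 3, 2, 0], 3, [[0, 6, 0, 0, 0, 0, 0], [6, 0, 0, 0, 0, 0, 0], [0, 0, 5, -4, 3, -2, 1], [0, 0, -4, 8, -6, 4, -2], [0, 0, 3, -6, 9, -6, 3], [0, 0, -2, 4, -6, 8, -4], [0, 0, 1, -2, 3, -4, 5]], [0, 0, 0, 0, 0, 0, 1], [⟨2, [[0, 1, 0, 0, 0, 0, 0, 0, 0, 0, 0, 0, 0, 0], [1, 0, 0, 0, 0, 0, 0, 0, 0, 0, 0, 0, 0, 0], [0, 0, 0, 1, 0, 1, 0, 0, 0, 0, 0, 0, 0, 0], [0, 0, 1, 0, 0, 0, 0, 0, 0, 0, 0, 0, 0, 0], [0, 0, 0, 0, 0, 1, 0,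 0, 0, 0, 0, 0, 0, 0], [0, 0, 1, 0, 1, 0, 0, 0, 0, 0, 0, 0, 0, 0], [0, 0, 0, 0, 0, 0, 0, 0, 0, 0, 0, 0, 0, 0]], [[0, 0, 1, 0, 1, 0, 1]], [6]⟩, ⟨3, [[0, 1, 0, 0, 0, 0, 0, 0, 0, 0, 0, 0, 0, 0], [1, 0, 0, 0, 0, 0, 0, 0, 0, 0, 0, 0, 0, 0], [0, 0, 2, 0, 1, 1, 0, 0, 0, 0, 0, 0, 0, 0], [0, 0, 0, 0, 1, 1, 0, 0, 0, 0, 0, 0, 0, 0], [0, 0, 1, 1, 0, 0, 0, 0, 0, 0, 0, 0, 0, 0], [0, 0, 1, 1, 0, 2, 0, 0, 0, 0, 0, 0, 0, 0], [0, 0, 0, 0, 0, 0, 0, 0, 0, 0, 0, 0, 0, 0]], [[0, 0, 2, 2, 0, 1, 1]], [6]⟩]⟩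

theorem m20_ok : chkMax m20 = true := by decide +kernel

end RH6.MC
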