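import Pool.Agent.RH6.ZDef

namespace RH6.MC

/-- `L2:2+_3:6-` -/
def m21 : MCert :=
  ⟨1, [[2, 1, 0, 0, 0], [1, 2, 1, 1, 0], [0, 1, 2, 0, 0], [0, 1, 0, 4, 0], [0, 0, 0, 0, 2]], 6, [3, 1, 2, 18, 12], [[2, 1, 0, 0, 0], [0, 3, 2, 2, 0], [0, 0, 2, -1, 0], [0, 0, 0, 1, 0], [0, 0, 0, 0, 1]], [[1, -1, 1, -1, 1, 1, 0], [1, 0, 0, 0, 0, 0, 1], [-1, -1, 0, 0, 0, 0, 0], [0, 0, 0, 0, 0, 0, -1], [0, 0, 0, 0, -1, 0, 0], [0, 0, -1, 1, 0, 0, 0], [0, 0, 1, -2, 1, 0, 0]], [1, 1, 1, 1, 1, 1, 2], [[0, 1, 0, 1, 0, 0, 0], [0, -1, -1, -1, 0, 0, 0], [0, 0, 0, 0, -1, -2, -1], [0, 0, 0, 0, -1, -1, -1], [0, 0, 0, 0, -1, 0, 0], [1, -2, -1, -2, 1, 1, 0], [0, 0, 0, -1, 0, 0, 0]], [0, 0, 1,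 1, 0, 4, 5], 3, [[0, 6, 0, 0, 0, 0, 0], [6, 0, 0, 0, 0, 0, 0], [0, 0, 5, -4, 2, 1, 0], [0, 0, -4, 8, -4, -2, 0], [0, 0, 2, -4, 5, 1, 0], [0, 0, 1, -2, 1, 2, 0], [0, 0, 0, 0, 0, 0, 3]], [0, 0, 0, 0, 0, 1, 1], [⟨2, [[0, 1, 0, 0, 0, 0, 0, 0, 0, 0, 0, 0, 0, 0], [1, 0, 0, 0, 0, 0, 0, 0, 0, 0, 0, 0, 0, 0], [0, 0, 1, 1, 0, 0, 0, 0, 0, 0, 0, 0, 0, 1], [0, 0, 1, 0, 0, 0, 0, 0, 0, 0, 0, 0, 0, 0], [0, 0, 0, 0, 0, 0, 0, 0, 0, 0, 0, 0, 0, 0], [0, 0, 1, 0, 0, 0, 0, 0, 0, 0, 0, 0, 0, 1], [0, 0, 0, 0, 0, 0, 0, 0, 0, 0, 0, 0, 0, 0]], [[0, 0, 1, 0, 1, 0, 0], [0, 0, 0, 0, 0, 0, 1]], [4, 6]⟩, ⟨3, [[0, 1, 0, 0, 0, 0, 0, 0, 0, 0, 0, 0, 0, 0], [1, 0, 0, 0, 0, 0, 0, 0, 0, 0, 0, 0, 0,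 0], [0, 0, 0, 1, 1, 0, 0, 0, 0, 0, 0, 0, 0, 0], [0, 0, 1, 1, 1, 0, 0, 0, 0, 0, 0, 0, 0, 0], [0, 0, 1, 1, 0, 0, 0, 0, 0, 0, 0, 0, 0, 0], [0, 0, 0, 0, 0, 0, 0, 0, 0, 0, 0, 0, 0, 0], [0, 0, 0, 0, 0, 0, 2, 0, 0, 0, 0, 0, 0, 0]], [[0, 0, 2, 2, 2, 1, 0]], [5]⟩]⟩

theorem m21_ok : chkMax m21 = true := by decide +kernel

/-- `L2:4+_3:6-` -/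
def m22 : MCert :=
  ⟨1, [[4, 2, 0, 0, 0], [2, 4, 0, 0, 0], [0, 0, 2, 0, 0], [0, 0, 0, 2, 0], [0, 0, 0, 0, 2]], 1, [1, 3, 2, 2, 2], [[2, 1, 0, 0, 0], [0, 1, 0, 0, 0], [0, 0, 1, 0, 0], [0, 0, 0, 1, 0], [0, 0, 0, 0, 1]], [[2, 0, 1, 0, 0, 0, 0], [-1, -1, 0, 0, 0, 0, 0], [1, 0, 0, 0, 1, 0, 0], [0, 0, 0, 0, -1, 1, 0], [0, 0, 0, 0, 0, -1, 1], [0, 0, -1, 1, 0, 0, 0], [0, 0, 0, 0, 0, 0, -1]], [2, 1, 1, 2, 2, 2, 1], [[0, 0, 1, 1, 1, 0, 1], [0, -1, -1, -1, -1, 0, -1], [1, 0, -2, -2, -2, 0, -2], [1, 0, -2, -2, -2, 1, -2], [0, 0, 0, -1, -1, 0, -1], [0, 0, 0, 0, -1, 0, -1], [0, 0, 0, 0, 0, 0, -1]], [0, 0, 1, 2, 3, 0, 4], 3, [[0, 6, 0, 0, 0, 0, 0], [6, 0, 0, 0, 0, 0, 0], [0,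 0, 2, -1, 0, 0, 0], [0, 0, -1, 2, 0, 0, 0], [0, 0, 0, 0, 3, 0, 0], [0, 0, 0, 0, 0, 3, 0], [0, 0, 0, 0, 0, 0, 3]], [0, 0, 0, 0, 1, 1, 1], [⟨2, [[0, 1, 0, 0, 0, 0, 0, 0, 0, 0, 0, 0, 0, 0], [1, 0, 0, 0, 0, 0, 0, 0, 0, 0, 0, 0, 0, 0], [1, 0, 0, 0, 0, 0, 0, 1, 0, 0, 0, 0, 1, 0], [1, 0, 0, 0, 0, 0, 0, 1, 0, 0, 0, 0, 0, 0], [0, 0, 0, 0, 0, 0, 0, 0, 0, 0, 1, 1, 0, 0], [0, 0, 0, 0, 0, 0, 0, 0, 0, 0, 0, 1, 0, 0], [0, 0, 0, 0, 0, 0, 0, 0, 0, 0, 0, 0, 0, 0]], [[0, 0, 0, 0, 1, 1, 1]], [6]⟩, ⟨3, [[0, 1, 0, 0, 0, 0, 0, 0, 0, 0, 0, 0, 0, 0], [1, 0, 0, 0, 0, 0, 0, 0, 0, 0, 0, 0, 0, 0], [0, 0, 1, 0, 0, 0, 0, 0, 0, 0, 0, 0, 0, 0], [0, 0, 0, 0, 0, 0, 0, 0, 0, 0, 0, 0, 0, 0], [0,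 0, 0, 0, 2, 0, 0, 0, 0, 0, 0, 0, 0, 0], [0, 0, 0, 0, 0, 2, 0, 0, 0, 0, 0, 0, 0, 0], [0, 0, 0, 0, 0, 0, 2, 0, 0, 0, 0, 0, 0, 0]], [[0, 0, 1, 1, 0, 0, 0]], [3]⟩]⟩

theorem m22_ok : chkMax m22 = true := by decide +kernel

/-- `L2:6+_3:6-` -/
def m23 : MCert :=
  ⟨2, [[2, 1, 0, 0, 0], [1, 2, 0, 0, 0], [0, 0, 1, 0, 0], [0, 0, 0, 1, 0], [0, 0, 0, 0, 1]], 2, [1, 3, 2, 2, 2], [[2, 1, 0, 0, 0], [0, 1, 0, 0, 0], [0, 0, 1, 0, 0], [0, 0, 0, 1, 0], [0, 0, 0, 0, 1]], [[1, 0, 0, 0, 1, 1, 0], [0, 0, 0, 0, 0, -1, 1], [0, 0, 0, 0, -1, 1, 0], [-1, -1, 0, 0, 0, 0, 0], [1, 0, 1, 0, 0, 0, 0], [0, 0, -1, 1, 0, 0, 0], [0, 0, 0, 0, 0, 0, -1]], [2, 2, 2, 2, 2, 2, 1], [[1, 2, 1, 0, 0, 0,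 2], [-1, -2, -1, -1, 0, 0, -2], [-1, -2, -1, 0, 1, 0, -2], [-1, -2, -1, 0, 1, 1, -2], [0, -1, -1, 0, 0, 0, -1], [0, -1, 0, 0, 0, 0, -1], [0, 0, 0, 0, 0, 0, -1]], [0, 0, 1, 0, 3, 4, 1], 3, [[0, 3, 0, 0, 0, 0, 0], [3, 0, 0, 0, 0, 0, 0], [0, 0, 2, -1, 0, 0, 0], [0, 0, -1, 2, 0, 0, 0], [0, 0, 0, 0, 3, 0, 0], [0, 0, 0, 0, 0, 3, 0], [0, 0, 0, 0, 0, 0, 3]], [0, 0, 0, 0, 1, 1, 1], [⟨2, [[0, 0, 0, 0, 0, 0, 0, 1, 0, 1, 1, 0, 0, 0], [0, 0, 0, 0, 0, 0, 0, 1, 0, 1, 0, 0, 0, 0], [0, 0, 0, 0, 0, 0, 0, 1, 0, 1, 0, 1, 1, 0], [0, 0, 0, 0, 0, 0, 0, 1, 0, 1, 0, 1, 0, 0], [0, 0, 0, 0, 0, 0, 0, 0, 1, 1, 0, 0, 0, 0], [0, 0, 0, 0, 0, 0, 0, 0, 1, 0, 0, 0, 0, 0], [0, 0, 0, 0, 0, 0, 0,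 0, 0, 0, 0, 0, 0, 0]], [[0, 0, 0, 0, 1, 1, 1]], [6]⟩, ⟨3, [[0, 2, 0, 0, 0, 0, 0, 0, 0, 0, 0, 0, 0, 0], [2, 0, 0, 0, 0, 0, 0, 0, 0, 0, 0, 0, 0, 0], [0, 0, 1, 0, 0, 0, 0, 0, 0, 0, 0, 0, 0, 0], [0, 0, 0, 0, 0, 0, 0, 0, 0, 0, 0, 0, 0, 0], [0, 0, 0, 0, 2, 0, 0, 0, 0, 0, 0, 0, 0, 0], [0, 0, 0, 0, 0, 2, 0, 0, 0, 0, 0, 0, 0, 0], [0, 0, 0, 0, 0, 0, 2, 0, 0, 0, 0, 0, 0, 0]], [[0, 0, 1, 1, 0, 0, 0]], [3]⟩]⟩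

theorem m23_ok : chkMax m23 = true := by decide +kernel

/-- `L2:6-_3:6-_5:6-` -/
def m24 : MCert :=
  ⟨2, [[1, 0, 0, 0, 0], [0, 1, 0, 0, 0], [0, 0, 1, 0, 0], [0, 0, 0, 3, 0], [0, 0, 0, 0, 5]], 1, [1, 1, 1, 3, 5], [[1, 0, 0, 0, 0], [0, 1, 0, 0, 0], [0, 0, 1, 0, 0], [0, 0, 0, 1, 0], [0, 0, 0, 0, 1]], [[2, -1, 1, 0, 0, 0, 1], [1, -1, 1, 0, 0, 1, 0], [-1, -1, 0, 0, 0, 0, 0], [1, 0, 1, 1, 0, 0, 0], [0, 0, 0, -1, 1, 0, 0], [0, 0, 0, 0, 0, -1, 0], [0, 0, 0, 0, 0, 0, -1]], [2, 2, 2, 2, 2, 3, 5], [[1, -1, 0, 0, 0, -1, 1], [-1, 1, -1, 0, 0, 1, -1], [-2, 3, -1, 0, 0, 3, -2], [1, -2, 1, 1, 0, -2, 1], [1, -2, 1, 1, 1, -2, 1], [0, 0, 0, 0, 0, -1, 0], [0, 0, 0, 0, 0, 0, -1]],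 [0, 0, 0, 2, 3, 1, 0], 15, [[0, 15, 0, 0, 0, 0, 0], [15, 0, 0, 0, 0, 0, 0], [0, 0, 15, 0, 0, 0, 0], [0, 0, 0, 15, 0, 0, 0], [0, 0, 0, 0, 15, 0, 0], [0, 0, 0, 0, 0, 5, 0], [0, 0, 0, 0, 0, 0, 3]], [0, 0, 1, 1, 1, 1, 1], [⟨2, [[0, 0, 0, 0, 0, 0, 0, 1, 1, 1, 0, 0, 0, 0], [0, 0, 0, 0, 0, 0, 0, 1, 1, 0, 0, 0, 0, 0], [0, 0, 0, 0, 0, 0, 0, 0, 1, 1, 0, 0, 0, 0], [0, 0, 0, 0, 0, 0, 0, 1, 0, 1, 1, 0, 0, 0], [0, 0, 0, 0, 0, 0, 0, 1, 0, 1, 1, 1, 0, 0], [0, 0, 0, 0, 0, 0, 0, 0, 0, 0, 0, 0, 0, 0], [0, 0, 0, 0, 0, 0, 0, 0, 0, 0, 0, 0, 0, 0]], [[1, 1, 1, 0, 0, 1, 0], [1, 1, 0, 1, 1, 0, 1]], [5, 6]⟩, ⟨3, [[0, 2, 0, 0, 0, 0, 0, 0, 0, 0, 0, 0, 0, 0], [2, 0, 0, 0, 0, 0, 0, 0, 0, 0,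 0, 0, 0, 0], [0, 0, 2, 0, 0, 0, 0, 0, 0, 0, 0, 0, 0, 0], [0, 0, 0, 2, 0, 0, 0, 0, 0, 0, 0, 0, 0, 0], [0, 0, 0, 0, 2, 0, 0, 0, 0, 0, 0, 0, 0, 0], [0, 0, 0, 0, 0, 0, 0, 0, 0, 0, 0, 0, 1, 0], [0, 0, 0, 0, 0, 0, 1, 0, 0, 0, 0, 0, 0, 0]], [], []⟩, ⟨5, [[0, 3, 0, 0, 0, 0, 0, 0, 0, 0, 0, 0, 0, 0], [3, 0, 0, 0, 0, 0, 0, 0, 0, 0, 0, 0, 0, 0], [0, 0, 3, 0, 0, 0, 0, 0, 0, 0, 0, 0, 0, 0], [0, 0, 0, 3, 0, 0, 0, 0, 0, 0, 0, 0, 0, 0], [0, 0, 0, 0, 3, 0, 0, 0, 0, 0, 0, 0, 0, 0], [0, 0, 0, 0, 0, 1, 0, 0, 0, 0, 0, 0, 0, 0], [0, 0, 0, 0, 0, 0, 0, 0, 0, 0, 0, 0, 0, 2]], [], []⟩]⟩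

theorem m24_ok : chkMax m24 = true := by decide +kernel

/-- `L2:6-_5:2+` -/
def m25 : MCert :=
  ⟨2, [[1, 0, 0, 0, 0], [0, 1, 0, 0, 0], [0, 0, 1, 0, 0], [0, 0, 0, 5, 0], [0, 0, 0, 0, 5]], 1, [1, 1, 1, 5, 5], [[1, 0, 0, 0, 0], [0, 1, 0, 0, 0], [0, 0, 1, 0, 0], [0, 0, 0, 1, 0], [0, 0, 0, 0, 1]], [[2, -1, 1, 0, 0, 1, 0], [0, 0, -1, 1, 0, 0, 0], [0, 0, 0, 0, 0, -1, 1], [0, 0, 0, -1, 1, 0, 0], [1, 0, 1, 1, 0, 0, 0], [0, 0, 0, 0, -1, 0, 0], [0, 0, 0, 0, 0, 0, -1]], [2, 2, 10, 2, 2, 1, 5], [[0, 1, 0, 2, 1, 2, 0], [-1, 1, -1, 3, 2, 3, -1], [0, -1, 0, -1, 0, -1, 0], [0, 0, 0, -1, 0, -1, 0], [0, 0, 0, 0, 0, -1, 0], [0, 0, -1, 0, 0, 0, -1], [0, 0, 0, 0, 0, 0, -1]], [0,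 0, 0, 1, 3, 3, 2], 5, [[0, 5, 0, 0, 0, 0, 0], [5, 0, 0, 0, 0, 0, 0], [0, 0, 5, 0, 0, 0, 0], [0, 0, 0, 5, 0, 0, 0], [0, 0, 0, 0, 5, 0, 0], [0, 0, 0, 0, 0, 1, 0], [0, 0, 0, 0, 0, 0, 1]], [0, 0, 1, 1, 1, 1, 1], [⟨2, [[0, 0, 0, 0, 0, 0, 0, 1, 1, 1, 1, 0, 0, 0], [0, 0, 0, 0, 0, 0, 0, 0, 1, 0, 0, 1, 0, 0], [0, 0, 0, 0, 0, 0, 0, 0, 1, 0, 1, 0, 0, 0], [0, 0, 0, 0, 0, 0, 0, 0, 0, 0, 1, 0, 0, 0], [0, 0, 0, 0, 0, 0, 0, 0, 0, 0, 0, 0, 0, 0], [0, 0, 0, 0, 0, 0, 0, 0, 0, 1, 0, 0, 0, 0], [0, 0, 0, 0, 0, 0, 0, 0, 0, 0, 0, 0, 0, 0]], [[1, 0, 1, 1, 1, 0, 0], [1, 0, 0, 0, 0, 1, 1]], [4, 6]⟩, ⟨5, [[0, 3, 0, 0, 0, 0, 0, 0, 0, 0, 0, 0, 0, 0], [3, 0, 0, 0, 0, 0, 0, 0, 0, 0, 0, 0, 0,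 0], [0, 0, 3, 0, 0, 0, 0, 0, 0, 0, 0, 0, 0, 0], [0, 0, 0, 3, 0, 0, 0, 0, 0, 0, 0, 0, 0, 0], [0, 0, 0, 0, 3, 0, 0, 0, 0, 0, 0, 0, 0, 0], [0, 0, 0, 0, 0, 0, 0, 0, 0, 4, 0, 0, 0, 2], [0, 0, 0, 0, 0, 0, 0, 0, 0, 0, 0, 0, 0, 2]], [], []⟩]⟩

theorem m25_ok : chkMax m25 = true := by decide +kernel

/-- `L5:2-` -/
def m26 : MCert :=
  ⟨1, [[2, 1, 0, 0, 0], [1, 2, 1, 0, 0], [0, 1, 2, 1, 0], [0, 0, 1, 2, 0], [0, 0, 0, 0, 10]], 12, [6, 2, 1, 15, 120], [[2, 1, 0, 0, 0], [0, 3, 2, 0, 0], [0, 0, 4, 3, 0], [0, 0, 0, 1, 0], [0, 0, 0, 0, 1]], [[2, -2, 0, 0, 0, 0, 1], [1, 0, 1, 0, 0, 0, 0], [0, 0, 0, -1, 1, 0, 0], [-1, -1, 0, 0, 0, 0, 0], [0, 0, -1, 1, 0, 0, 0], [0, 0, 0, 0, -1,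 1, 0], [0, 0, 0, 0, 0, -1, 0]], [1, 1, 1, 1, 1, 1, 1], [[0, 1, 1, 0, 1, 1, 1], [0, -1, -1, -1, -1, -1, -1], [0, 0, -1, 0, -1, -1, -1], [0, 0, -1, 0, 0, -1, -1], [0, 0, 0, 0, 0, -1, -1], [0, 0, 0, 0, 0, 0, -1], [1, -4, -4, -2, -4, -4, -4]], [0, 0, 1, 1, 1, 4, 2], 5, [[0, 10, 0, 0, 0, 0, 0], [10, 0, 0, 0, 0, 0, 0], [0, 0, 8, -6, 4, -2, 0], [0, 0, -6, 12, -8, 4, 0], [0, 0, 4, -8, 12, -6, 0], [0, 0, -2, 4, -6, 8, 0], [0, 0, 0, 0, 0, 0, 1]], [0, 0, 0, 0, 0, 0, 1], [⟨2, [[0, 1, 0, 0, 0, 0, 0, 0, 0, 0, 0, 0, 0, 0], [1, 0, 0, 0, 0, 0, 0, 0, 0, 0, 0, 0, 0, 0], [0, 0, 0, 1, 0, 1, 0, 0, 0, 0, 0, 0, 0, 0], [0, 0, 1, 0, 0, 0, 0, 0, 0, 0, 0, 0, 0, 0], [0, 0, 0, 0, 0, 1, 0,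 0, 0, 0, 0, 0, 0, 0], [0, 0, 1, 0, 1, 0, 0, 0, 0, 0, 0, 0, 0, 0], [0, 0, 0, 0, 0, 0, 0, 0, 0, 0, 0, 0, 0, 0]], [[0, 0, 0, 0, 0, 0, 1]], [6]⟩, ⟨5, [[0, 1, 0, 0, 0, 0, 0, 0, 0, 0, 0, 0, 0, 0], [1, 0, 0, 0, 0, 0, 0, 0, 0, 0, 0, 0, 0, 0], [0, 0, 2, 2, 4, 0, 0, 0, 0, 0, 0, 0, 0, 0], [0, 0, 2, 1, 2, 0, 0, 0, 0, 0, 0, 0, 0, 0], [0, 0, 4, 2, 2, 0, 0, 0, 0, 0, 0, 0, 0, 0], [0, 0, 0, 0, 0, 0, 0, 0, 0, 0, 0, 0, 0, 0], [0, 0, 0, 0, 0, 0, 0, 0, 0, 0, 0, 0, 0, 0]], [[0, 0, 1, 3, 3, 1, 0], [0, 0, 0, 0, 0, 0, 1]], [5, 6]⟩]⟩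

theorem m26_ok : chkMax m26 = true := by decide +kernel

/-- `L2:6+_5:2-` -/
def m27 : MCert :=
  ⟨2, [[2, 1, 0, 0, 0], [1, 3, 0, 0, 0], [0, 0, 1, 0, 0], [0, 0, 0, 1, 0], [0, 0, 0, 0, 5]], 2, [1, 5, 2, 2, 10], [[2, 1, 0, 0, 0], [0, 1, 0, 0, 0], [0, 0, 1, 0, 0], [0, 0, 0, 1, 0], [0, 0, 0, 0, 1]], [[2, -1, 0, 0, 1, 0, 1], [1, -1, 0, 1, 1, 0, 0], [0, 0, 0, 0, -1, 1, 0], [1, 0, 1, 0, 0, 0, 0], [0, 0, -1, 0, 0, 0, 0], [0, 0, 0, 0, 0, 0, -1], [0, 0, 0, 0, 0, -1, 0]], [2, 2, 2, 2, 2, 5, 1], [[0, 0, 0, 1, 1, 0, 0], [-1, 0, -1, 2, 2, -1, -1], [0, 0, 0, 0, -1, 0, 0], [-1, 1, 0, 1, 1, -1, 0], [0, 0, -1, 0, 0, 0, -1], [0, 0, 0, 0, 0, 0, -1], [0, 0, 0, 0, 0, -1, 0]], [0,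 0, 0, 0, 1, 0, 2], 5, [[0, 5, 0, 0, 0, 0, 0], [5, 0, 0, 0, 0, 0, 0], [0, 0, 3, -1, 0, 0, 0], [0, 0, -1, 2, 0, 0, 0], [0, 0, 0, 0, 5, 0, 0], [0, 0, 0, 0, 0, 5, 0], [0, 0, 0, 0, 0, 0, 1]], [0, 0, 0, 1, 1, 1, 1], [⟨2, [[0, 0, 0, 0, 0, 0, 0, 1, 0, 1, 0, 0, 0, 0], [0, 0, 0, 0, 0, 0, 0, 0, 0, 0, 1, 1, 0, 0], [0, 0, 0, 0, 0, 0, 0, 1, 1, 0, 1, 0, 0, 0], [0, 0, 0, 0, 0, 0, 0, 0, 0, 0, 0, 1, 0, 0], [0, 0, 0, 0, 0, 0, 0, 0, 0, 1, 0, 0, 0, 0], [0, 0, 0, 0, 0, 0, 0, 0, 0, 0, 0, 0, 0, 0], [0, 0, 0, 0, 0, 0, 0, 0, 0, 0, 0, 0, 0, 0]], [[1, 0, 0, 0, 1, 1, 0], [1, 0, 1, 0, 0, 0, 1]], [5, 6]⟩, ⟨5, [[0, 3, 0, 0, 0, 0, 0, 0, 0, 0, 0, 0, 0, 0], [3, 0, 0, 0, 0, 0, 0, 0, 0, 0, 0, 0,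 0, 0], [0, 0, 4, 0, 0, 0, 0, 0, 0, 0, 0, 0, 0, 0], [0, 0, 0, 0, 0, 0, 0, 0, 0, 0, 0, 0, 0, 0], [0, 0, 0, 0, 3, 0, 0, 0, 0, 0, 0, 0, 0, 0], [0, 0, 0, 0, 0, 3, 0, 0, 0, 0, 0, 0, 0, 0], [0, 0, 0, 0, 0, 0, 0, 0, 0, 0, 0, 0, 2, 0]], [[0, 0, 2, 1, 0, 0, 0]], [3]⟩]⟩

theorem m27_ok : chkMax m27 = true := by decide +kernel

end RH6.MC
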