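import Pool.Agent.RH6.ZDef

namespace RH6.MC

/-- `L2:6-_5:4+` -/
def m28 : MCert :=
  ⟨2, [[1, 0, 0, 0, 0], [0, 1, 0, 0, 0], [0, 0, 5, 0, 0], [0, 0, 0, 5, 0], [0, 0, 0, 0, 5]], 1, [1, 1, 5, 5, 5], [[1, 0, 0, 0, 0], [0, 1, 0, 0, 0], [0, 0, 1, 0, 0], [0, 0, 0, 1, 0], [0, 0, 0, 0, 1]], [[2, -1, 1, 0, 1, 0, 0], [0, 0, 0, 0, -1, 1, 0], [0, 0, -1, 1, 0, 0, 0], [0, 0, 0, 0, 0, -1, 1], [0, 0, 0, -1, 0, 0, 0], [1, 0, 1, 1, 0, 0, 0], [0, 0, 0, 0, 0, 0, -1]], [2, 10, 2, 10, 1, 2, 5], [[0, 0, 1, 0, 2, 1, 0], [-1, -1, 1, -1, 3, 2, -1], [0, 0, -1, 0, -1, 0, 0], [0, 0, 0, 0, -1, 0, 0], [0, -1, 0, -1, 0, 0, -1], [0, 0, 0, -1, 0, 0, -1], [0, 0, 0, 0, 0, 0, -1]], [0, 0, 0, 1, 2, 4,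 3], 5, [[0, 5, 0, 0, 0, 0, 0], [5, 0, 0, 0, 0, 0, 0], [0, 0, 5, 0, 0, 0, 0], [0, 0, 0, 5, 0, 0, 0], [0, 0, 0, 0, 1, 0, 0], [0, 0, 0, 0, 0, 1, 0], [0, 0, 0, 0, 0, 0, 1]], [0, 0, 1, 1, 1, 1, 1], [⟨2, [[0, 0, 0, 0, 0, 0, 0, 1, 1, 1, 1, 0, 0, 0], [0, 0, 0, 0, 0, 0, 0, 0, 0, 1, 0, 0, 1, 0], [0, 0, 0, 0, 0, 0, 0, 0, 0, 1, 0, 0, 0, 0], [0, 0, 0, 0, 0, 0, 0, 0, 0, 0, 0, 0, 0, 0], [0, 0, 0, 0, 0, 0, 0, 0, 1, 0, 1, 0, 0, 0], [0, 0, 0, 0, 0, 0, 0, 0, 0, 0, 1, 0, 0, 0], [0, 0, 0, 0, 0, 0, 0, 0, 0, 0, 0, 0, 0, 0]], [[1, 0, 1, 1, 0, 0, 0], [1, 0, 0, 0, 1, 1, 1]], [3, 6]⟩, ⟨5, [[0, 3, 0, 0, 0, 0, 0, 0, 0, 0, 0, 0, 0, 0], [3, 0, 0, 0, 0, 0, 0, 0, 0, 0, 0, 0, 0, 0], [0, 0, 3, 0, 0,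 0, 0, 0, 0, 0, 0, 0, 0, 0], [0, 0, 0, 3, 0, 0, 0, 0, 0, 0, 0, 0, 0, 0], [0, 0, 0, 0, 0, 0, 0, 0, 4, 0, 4, 0, 0, 2], [0, 0, 0, 0, 0, 0, 0, 0, 0, 0, 4, 0, 0, 2], [0, 0, 0, 0, 0, 0, 0, 0, 0, 0, 0, 0, 0, 2]], [], []⟩]⟩

theorem m28_ok : chkMax m28 = true := by decide +kernel

/-- `L5:4-` -/
def m29 : MCert :=
  ⟨1, [[4, 1, 1, -1, 0], [1, 4, -1, 1, 0], [1, -1, 4, 1, 0], [-1, 1, 1, 4, 0], [0, 0, 0, 0, 2]], 12, [3, 5, 10, 30, 24], [[4, 1, 1, -1, 0], [0, 3, -1, 1, 0], [0, 0, 2, 1, 0], [0, 0, 0, 1, 0], [0, 0, 0, 0, 1]], [[1, -1, 1, 0, 0, 0, 0], [1, -1, 0, 1, 0, 0, 0], [0, 0, -1, 0, 0, 1, 0], [1, 0, 0, 0, 0, 0, 1], [-1, -1, 0, 0, 0, 0, 0], [0, 0, 0, -1, 1, 0, 0], [0, 0, 0,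 0, 0, 0, -1]], [1, 1, 5, 1, 1, 5, 1], [[0, 0, 0, 1, 0, 0, 1], [0, 0, 0, -1, -1, 0, -1], [1, 0, 0, -2, -1, 0, -2], [0, 1, 0, -2, -1, 0, -2], [0, 1, 0, -2, -1, 1, -2], [1, 0, 1, -2, -1, 0, -2], [0, 0, 0, 0, 0, 0, -1]], [0, 0, 0, 0, 3, 1, 3], 5, [[0, 10, 0, 0, 0, 0, 0], [10, 0, 0, 0, 0, 0, 0], [0, 0, 4, -2, -2, 2, 0], [0, 0, -2, 4, 2, -2, 0], [0, 0, -2, 2, 4, -2, 0], [0, 0, 2, -2, -2, 4, 0], [0, 0, 0, 0, 0, 0, 5]], [0, 0, 0, 0, 0, 0, 1], [⟨2, [[0, 1, 0, 0, 0, 0, 0, 0, 0, 0, 0, 0, 0, 0], [1, 0, 0, 0, 0, 0, 0, 0, 0, 0, 0, 0, 0, 0], [0, 0, 0, 1, 1, 1, 0, 0, 0, 0, 0, 0, 0, 0], [0, 0, 1, 0, 1, 1, 0, 0, 0, 0, 0, 0, 0, 0], [0, 0, 1, 1, 0, 1, 0, 0, 0, 0, 0, 0, 0, 0], [0, 0,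 1, 1, 1, 0, 0, 0, 0, 0, 0, 0, 0, 0], [0, 0, 0, 0, 0, 0, 0, 0, 0, 0, 0, 0, 0, 0]], [[0, 0, 0, 0, 0, 0, 1]], [6]⟩, ⟨5, [[0, 1, 0, 0, 0, 0, 0, 0, 0, 0, 0, 0, 0, 0], [1, 0, 0, 0, 0, 0, 0, 0, 0, 0, 0, 0, 0, 0], [0, 0, 0, 0, 0, 0, 0, 0, 0, 4, 0, 0, 0, 0], [0, 0, 3, 0, 0, 0, 0, 0, 0, 2, 0, 0, 2, 0], [0, 0, 3, 0, 0, 0, 0, 0, 0, 2, 0, 0, 3, 0], [0, 0, 0, 0, 0, 0, 0, 0, 0, 0, 0, 0, 0, 0], [0, 0, 0, 0, 0, 0, 3, 0, 0, 0, 0, 0, 0, 0]], [[0, 0, 1, 1, 1, 1, 0]], [5]⟩]⟩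

theorem m29_ok : chkMax m29 = true := by decide +kernel

/-- `L2:2-_5:6+` -/
def m30 : MCert :=
  ⟨1, [[2, 1, 0, 0, 0], [1, 2, 1, 1, 0], [0, 1, 2, 0, 0], [0, 1, 0, 2, 0], [0, 0, 0, 0, 10]], 6, [3, 1, 2, 6, 60], [[2, 1, 0, 0, 0], [0, 3, 2, 2, 0], [0, 0, 2, -1, 0], [0, 0, 0, 1, 0], [0, 0, 0, 0, 1]], [[0, 0, -1, 2, -1, -2, 0], [0, 0, 1, -2, 1, 1, 0], [0, 0, 0, 0, -1, 1, 0], [0, 0, -1, 1, 0, 0, 0], [1, 0, 1, 0, 0, 0, 0], [2, -2, 0, 0, 0, 0, 1], [-1, -1, 0, 0, 0, 0, 0]], [2, 1, 2, 1, 1, 1, 1], [[2, 3, 1, 2, 1, 0, 0], [-2, -3, -1, -2, -1, 0, -1], [-2, -3, -1, -2, 0, 0, 0], [-2, -3, -1, -1, 0, 0, 0], [-1, -1, -1, 0, 0, 0, 0], [-1, -1, 0, 0, 0, 0, 0], [-8, -12, -4, -8, -4,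 1, -2]], [0, 0, 0, 1, 3, 4, 4], 5, [[0, 10, 0, 0, 0, 0, 0], [10, 0, 0, 0, 0, 0, 0], [0, 0, 10, -10, 5, 5, 0], [0, 0, -10, 20, -10, -10, 0], [0, 0, 5, -10, 10, 5, 0], [0, 0, 5, -10, 5, 10, 0], [0, 0, 0, 0, 0, 0, 1]], [0, 0, 0, 0, 0, 0, 1], [⟨2, [[0, 1, 0, 0, 0, 0, 0, 0, 0, 0, 0, 0, 0, 0], [1, 0, 0, 0, 0, 0, 0, 0, 0, 0, 0, 0, 0, 0], [0, 0, 0, 1, 0, 0, 0, 0, 0, 1, 0, 0, 0, 0], [0, 0, 1, 0, 0, 0, 0, 0, 0, 0, 0, 0, 0, 0], [0, 0, 0, 0, 0, 0, 0, 1, 0, 1, 0, 0, 0, 0], [0, 0, 0, 0, 0, 0, 0, 1, 0, 0, 0, 0, 0, 0], [0, 0, 0, 0, 0, 0, 0, 0, 0, 0, 0, 0, 0, 0]], [[0, 0, 0, 0, 0, 0, 1]], [6]⟩, ⟨5, [[0, 1, 0, 0, 0, 0, 0, 0, 0, 0, 0, 0, 0, 0], [1, 0, 0, 0, 0, 0, 0, 0, 0, 0, 0, 0, 0,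 0], [0, 0, 1, 4, 3, 3, 0, 0, 0, 0, 0, 0, 0, 0], [0, 0, 4, 2, 4, 4, 0, 0, 0, 0, 0, 0, 0, 0], [0, 0, 3, 4, 1, 3, 0, 0, 0, 0, 0, 0, 0, 0], [0, 0, 3, 4, 3, 1, 0, 0, 0, 0, 0, 0, 0, 0], [0, 0, 0, 0, 0, 0, 0, 0, 0, 0, 0, 0, 0, 0]], [[0, 0, 0, 0, 0, 0, 1]], [6]⟩]⟩

theorem m30_ok : chkMax m30 = true := by decide +kernel

/-- `L2:4-_5:6+` -/
def m31 : MCert :=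
  ⟨1, [[2, 0, 0, 0, 0], [0, 2, 0, 0, 0], [0, 0, 2, 0, 0], [0, 0, 0, 2, 0], [0, 0, 0, 0, 10]], 1, [2, 2, 2, 2, 10], [[1, 0, 0, 0, 0], [0, 1, 0, 0, 0], [0, 0, 1, 0, 0], [0, 0, 0, 1, 0], [0, 0, 0, 0, 1]], [[2, -2, 1, 0, 0, 0, 1], [0, 0, -1, 1, 0, 0, 0], [0, 0, 0, -1, 1, 0, 0], [0, 0, 0, 0, -1, 1, 0], [1, 0, 1, 0, 0, 0, 0], [-1, -1, 0, 0, 0, 0, 0], [0, 0, 0, 0, 0, -1, 0]], [2, 2, 2, 2, 1, 1, 1], [[0, 1, 1, 1, 1, 0, 1], [0, -1, -1, -1, -1, -1, -1], [0, -1, -1, -1, 0, 0, -1], [0, 0, -1, -1, 0, 0, -1], [0, 0, 0, -1, 0, 0, -1], [0, 0, 0, 0, 0, 0, -1], [1, -3, -3, -3, -4, -2, -3]], [0, 0, 1, 2, 1, 4, 3], 5, [[0, 10, 0, 0, 0, 0, 0], [10, 0, 0, 0, 0, 0, 0], [0, 0, 5, 0, 0, 0,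 0], [0, 0, 0, 5, 0, 0, 0], [0, 0, 0, 0, 5, 0, 0], [0, 0, 0, 0, 0, 5, 0], [0, 0, 0, 0, 0, 0, 1]], [0, 0, 1, 1, 1, 1, 1], [⟨2, [[0, 1, 0, 0, 0, 0, 0, 0, 0, 0, 0, 0, 0, 0], [1, 0, 0, 0, 0, 0, 0, 0, 0, 0, 0, 0, 0, 0], [1, 1, 0, 0, 0, 0, 0, 1, 0, 0, 0, 0, 0, 0], [1, 1, 0, 0, 0, 0, 0, 1, 1, 0, 0, 0, 0, 0], [1, 1, 0, 0, 0, 0, 0, 1, 1, 1, 0, 0, 0, 0], [1, 1, 0, 0, 0, 0, 0, 1, 1, 1, 1, 0, 0, 0], [0, 0, 0, 0, 0, 0, 0, 0, 0, 0, 0, 0, 0, 0]], [[0, 0, 1, 1, 1, 1, 1]], [6]⟩, ⟨5, [[0, 1, 0, 0, 0, 0, 0, 0, 0, 0, 0, 0, 0, 0], [1, 0, 0, 0, 0, 0, 0, 0, 0, 0, 0, 0, 0, 0], [0, 0, 3, 0, 0, 0, 0, 0, 0, 0, 0, 0, 0, 0], [0, 0, 0, 3, 0, 0, 0, 0, 0, 0, 0, 0, 0, 0], [0, 0, 0, 0, 3, 0, 0, 0,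 0, 0, 0, 0, 0, 0], [0, 0, 0, 0, 0, 3, 0, 0, 0, 0, 0, 0, 0, 0], [0, 0, 0, 0, 0, 0, 0, 0, 0, 0, 0, 0, 0, 0]], [[0, 0, 0, 0, 0, 0, 1]], [6]⟩]⟩

theorem m31_ok : chkMax m31 = true := by decide +kernel

/-- `L2:6-_5:6+` -/
def m32 : MCert :=
  ⟨2, [[1, 0, 0, 0, 0], [0, 1, 0, 0, 0], [0, 0, 1, 0, 0], [0, 0, 0, 1, 0], [0, 0, 0, 0, 5]], 1, [1, 1, 1, 1, 5], [[1, 0, 0, 0, 0], [0, 1, 0, 0, 0], [0, 0, 1, 0, 0], [0, 0, 0, 1, 0], [0, 0, 0, 0, 1]], [[2, -1, 1, 0, 0, 0, 1], [-1, -1, 0, 0, 0, 0, 0], [1, 0, 1, 1, 0, 0, 0], [0, 0, 0, -1, 1, 0, 0], [0, 0, 0, 0, -1, 1, 0], [0, 0, -1, 1, 0, 0, 0], [0, 0, 0, 0, 0, -1, 0]], [2, 2, 2, 2, 2, 2, 1], [[0, 0, 1, 2, 2, 1, 2], [0, -1, -1, -2, -2,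 -1, -2], [0, 0, 0, -1, -1, -1, -1], [0, 0, 0, -1, -1, 0, -1], [0, 0, 0, 0, -1, 0, -1], [0, 0, 0, 0, 0, 0, -1], [1, -1, -3, -5, -5, -2, -5]], [0, 0, 1, 2, 3, 0, 4], 5, [[0, 5, 0, 0, 0, 0, 0], [5, 0, 0, 0, 0, 0, 0], [0, 0, 5, 0, 0, 0, 0], [0, 0, 0, 5, 0, 0, 0], [0, 0, 0, 0, 5, 0, 0], [0, 0, 0, 0, 0, 5, 0], [0, 0, 0, 0, 0, 0, 1]], [0, 0, 1, 1, 1, 1, 1], [⟨2, [[0, 0, 0, 0, 0, 0, 0, 0, 1, 1, 0, 0, 1, 0], [0, 0, 0, 0, 0, 0, 0, 0, 0, 1, 0, 0, 1, 0], [0, 0, 0, 0, 0, 0, 0, 1, 1, 1, 0, 0, 1, 0], [0, 0, 0, 0, 0, 0, 0, 1, 1, 1, 0, 0, 0, 0], [0, 0, 0, 0, 0, 0, 0, 1, 1, 1, 1, 0, 0, 0], [0, 0, 0, 0, 0, 0, 0, 1, 1, 1, 1, 1, 0, 0], [0, 0, 0, 0, 0, 0, 0, 0, 0, 0, 0, 0, 0, 0]], [[0,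 0, 1, 1, 1, 1, 1]], [6]⟩, ⟨5, [[0, 3, 0, 0, 0, 0, 0, 0, 0, 0, 0, 0, 0, 0], [3, 0, 0, 0, 0, 0, 0, 0, 0, 0, 0, 0, 0, 0], [0, 0, 3, 0, 0, 0, 0, 0, 0, 0, 0, 0, 0, 0], [0, 0, 0, 3, 0, 0, 0, 0, 0, 0, 0, 0, 0, 0], [0, 0, 0, 0, 3, 0, 0, 0, 0, 0, 0, 0, 0, 0], [0, 0, 0, 0, 0, 3, 0, 0, 0, 0, 0, 0, 0, 0], [0, 0, 0, 0, 0, 0, 0, 0, 0, 0, 0, 0, 0, 0]], [[0, 0, 0, 0, 0, 0, 1]], [6]⟩]⟩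

theorem m32_ok : chkMax m32 = true := by decide +kernel

/-- `L5:6-` -/
def m33 : MCert :=
  ⟨1, [[2, 1, 0, 0, 0], [1, 2, 1, 0, 0], [0, 1, 2, 1, 0], [0, 0, 1, 2, 0], [0, 0, 0, 0, 2]], 12, [6, 2, 1, 15, 24], [[2, 1, 0, 0, 0], [0, 3, 2, 0, 0], [0, 0, 4, 3, 0], [0, 0, 0, 1, 0], [0, 0, 0, 0, 1]], [[1, 0, 0, 0, 0, 0, 1], [-1, -1, 0, 0, 0, 0, 0], [1, 0, 1, 0, 0, 0, 0], [0, 0, -1, 1, 0, 0, 0], [0, 0, 0, 0, -1, 1, 0], [0, 0, 0, 0, 0, 0, -1], [0, 0, 0, 0, 0, -1, 0]], [1, 1, 1, 1, 1, 1, 1], [[1, 0, 0, 0, 0, 1, 0], [-1, -1, 0, 0, 0, -1, 0], [-1, 0, 1, 0, 0, -1, 0], [-1, 0, 1, 1, 0, -1, 0], [0, 0, 0, 0, -1, 0, -1], [0, 0, 0, 0, 0, 0, -1], [0, 0, 0, 0, 0, -1, 0]], [0, 0, 1, 2,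 3, 0, 4], 5, [[0, 10, 0, 0, 0, 0, 0], [10, 0, 0, 0, 0, 0, 0], [0, 0, 8, -6, 4, -2, 0], [0, 0, -6, 12, -8, 4, 0], [0, 0, 4, -8, 12, -6, 0], [0, 0, -2, 4, -6, 8, 0], [0, 0, 0, 0, 0, 0, 5]], [0, 0, 0, 0, 0, 0, 1], [⟨2, [[0, 1, 0, 0, 0, 0, 0, 0, 0, 0, 0, 0, 0, 0], [1, 0, 0, 0, 0, 0, 0, 0, 0, 0, 0, 0, 0, 0], [0, 0, 0, 1, 0, 1, 0, 0, 0, 0, 0, 0, 0, 0], [0, 0, 1, 0, 0, 0, 0, 0, 0, 0, 0, 0, 0, 0], [0, 0, 0, 0, 0, 1, 0, 0, 0, 0, 0, 0, 0, 0], [0, 0, 1, 0, 1, 0, 0, 0, 0, 0, 0, 0, 0, 0], [0, 0, 0, 0, 0, 0, 0, 0, 0, 0, 0, 0, 0, 0]], [[0, 0, 0, 0, 0, 0, 1]], [6]⟩, ⟨5, [[0, 1, 0, 0, 0, 0, 0, 0, 0, 0, 0, 0, 0, 0], [1, 0, 0, 0, 0, 0, 0, 0, 0, 0, 0, 0, 0, 0], [0, 0, 2, 2, 4, 0, 0,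 0, 0, 0, 0, 0, 0, 0], [0, 0, 2, 1, 2, 0, 0, 0, 0, 0, 0, 0, 0, 0], [0, 0, 4, 2, 2, 0, 0, 0, 0, 0, 0, 0, 0, 0], [0, 0, 0, 0, 0, 0, 0, 0, 0, 0, 0, 0, 0, 0], [0, 0, 0, 0, 0, 0, 3, 0, 0, 0, 0, 0, 0, 0]], [[0, 0, 1, 3, 3, 1, 0]], [5]⟩]⟩

theorem m33_ok : chkMax m33 = true := by decide +kernel

/-- `L2:6+_5:6-` -/
def m34 : MCert :=
  ⟨2, [[2, 1, 0, 0, 0], [1, 3, 0, 0, 0], [0, 0, 1, 0, 0], [0, 0, 0, 1, 0], [0, 0, 0, 0, 1]], 2, [1, 5, 2, 2, 2], [[2, 1, 0, 0, 0], [0, 1, 0, 0, 0], [0, 0, 1, 0, 0], [0, 0, 0, 1, 0], [0, 0, 0, 0, 1]], [[1, -1, 0, 1, 1, 0, 0], [0, 0, 0, 0, -1, 1, 0], [0, 0, 0, 0, 0, -1, 1], [0, 0, 0, 0, 0, 0, -1], [0, 0, -1, 0, 0, 0, 0], [1, 0, 1, 0, 0, 0, 0],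 [-1, -1, 0, 0, 0, 0, 0]], [2, 2, 2, 1, 2, 2, 2], [[0, 0, 0, 0, 1, 1, 0], [0, 0, 0, 0, -1, -1, -1], [0, 0, 0, 0, -1, 0, 0], [1, 1, 1, 1, -2, -2, -1], [0, -1, -1, -1, 0, 0, 0], [0, 0, -1, -1, 0, 0, 0], [0, 0, 0, -1, 0, 0, 0]], [0, 0, 1, 2, 0, 4, 5], 5, [[0, 5, 0, 0, 0, 0, 0], [5, 0, 0, 0, 0, 0, 0], [0, 0, 3, -1, 0, 0, 0], [0, 0, -1, 2, 0, 0, 0], [0, 0, 0, 0, 5, 0, 0], [0, 0, 0, 0, 0, 5, 0], [0, 0, 0, 0, 0, 0, 5]], [0, 0, 0, 1, 1, 1, 1], [⟨2, [[0, 0, 0, 0, 0, 0, 0, 0, 0, 0, 0, 1, 1, 1], [0, 0, 0, 0, 0, 0, 0, 0, 0, 0, 0, 1, 1, 0], [0, 0, 0, 0, 0, 0, 0, 1, 1, 1, 0, 1, 0, 1], [0, 0, 0, 0, 0, 0, 0, 0, 0, 0, 0, 1, 0, 0], [0, 0, 0, 0, 0, 0, 0, 0, 1, 1, 0, 0, 0, 0], [0, 0,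 0, 0, 0, 0, 0, 0, 0, 1, 0, 0, 0, 0], [0, 0, 0, 0, 0, 0, 0, 0, 0, 0, 0, 0, 0, 0]], [[0, 0, 1, 0, 1, 1, 1]], [6]⟩, ⟨5, [[0, 3, 0, 0, 0, 0, 0, 0, 0, 0, 0, 0, 0, 0], [3, 0, 0, 0, 0, 0, 0, 0, 0, 0, 0, 0, 0, 0], [0, 0, 4, 0, 0, 0, 0, 0, 0, 0, 0, 0, 0, 0], [0, 0, 0, 0, 0, 0, 0, 0, 0, 0, 0, 0, 0, 0], [0, 0, 0, 0, 3, 0, 0, 0, 0, 0, 0, 0, 0, 0], [0, 0, 0, 0, 0, 3, 0, 0, 0, 0, 0, 0, 0, 0], [0, 0, 0, 0, 0, 0, 3, 0, 0, 0, 0, 0, 0, 0]], [[0, 0, 2, 1, 0, 0, 0]], [3]⟩]⟩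

theorem m34_ok : chkMax m34 = true := by decide +kernel

end RH6.MC
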