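import Pool.Agent.RH6.ZDef

namespace RH6.MC

/-- `L2:2-_7:6+` -/
def m35 : MCert :=
  ⟨1, [[2, 1, 0, 0, 0], [1, 4, 0, 0, 0], [0, 0, 2, 0, 0], [0, 0, 0, 2, 0], [0, 0, 0, 0, 2]], 2, [1, 7, 4, 4, 4], [[2, 1, 0, 0, 0], [0, 1, 0, 0, 0], [0, 0, 1, 0, 0], [0, 0, 0, 1, 0], [0, 0, 0, 0, 1]], [[1, -1, 0, 1, 0, 0, 0], [1, 0, 0, 0, 1, 0, 0], [0, 0, 0, 0, -1, 1, 0], [0, 0, 0, 0, 0, -1, 1], [-1, -1, 0, 0, 0, 0, 0], [0, 0, 0, 0, 0, 0, -1], [0, 0, -1, 0, 0, 0, 0]], [1, 1, 2, 2, 1, 1, 1], [[0, 1, 1, 1, 0, 1, 0], [0, -1, -1, -1, -1, -1, 0], [0, 0, 0, 0, 0, 0, -1], [1, -2, -2, -2, -1, -2, 0], [0, 0, -1, -1, 0, -1, 0], [0, 0, 0, -1, 0, -1, 0], [0, 0, 0, 0, 0, -1, 0]], [0, 0, 1, 2, 1,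 3, 0], 7, [[0, 14, 0, 0, 0, 0, 0], [14, 0, 0, 0, 0, 0, 0], [0, 0, 8, -2, 0, 0, 0], [0, 0, -2, 4, 0, 0, 0], [0, 0, 0, 0, 7, 0, 0], [0, 0, 0, 0, 0, 7, 0], [0, 0, 0, 0, 0, 0, 7]], [0, 0, 0, 0, 1, 1, 1], [⟨2, [[0, 1, 0, 0, 0, 0, 0, 0, 0, 0, 0, 0, 0, 0], [1, 0, 0, 0, 0, 0, 0, 0, 0, 0, 0, 0, 0, 0], [0, 0, 0, 1, 0, 0, 0, 0, 0, 0, 0, 0, 0, 0], [0, 0, 1, 0, 0, 0, 0, 0, 0, 0, 0, 0, 0, 0], [0, 0, 0, 0, 0, 0, 0, 0, 0, 1, 1, 0, 0, 0], [0, 0, 0, 0, 0, 0, 0, 0, 0, 0, 1, 0, 0, 0], [0, 0, 0, 0, 0, 0, 0, 0, 0, 0, 0, 0, 0, 0]], [[0, 0, 0, 0, 1, 1, 1]], [6]⟩, ⟨7, [[0, 1, 0, 0, 0, 0, 0, 0, 0, 0, 0, 0, 0, 0], [1, 0, 0, 0, 0, 0, 0, 0, 0, 0, 0, 0, 0, 0], [0, 0, 4, 0, 0, 0, 0, 0, 0, 0, 0,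 0, 0, 0], [0, 0, 0, 0, 0, 0, 0, 0, 0, 0, 0, 0, 0, 0], [0, 0, 0, 0, 4, 0, 0, 0, 0, 0, 0, 0, 0, 0], [0, 0, 0, 0, 0, 4, 0, 0, 0, 0, 0, 0, 0, 0], [0, 0, 0, 0, 0, 0, 4, 0, 0, 0, 0, 0, 0, 0]], [[0, 0, 3, 1, 0, 0, 0]], [3]⟩]⟩

theorem m35_ok : chkMax m35 = true := by decide +kernel

/-- `L2:6-_7:6+` -/
def m36 : MCert :=
  ⟨2, [[1, 0, 0, 0, 0], [0, 1, 0, 0, 0], [0, 0, 1, 0, 0], [0, 0, 0, 1, 0], [0, 0, 0, 0, 7]], 1, [1, 1, 1, 1, 7], [[1, 0, 0, 0, 0], [0, 1, 0, 0, 0], [0, 0, 1, 0, 0], [0, 0, 0, 1, 0], [0, 0, 0, 0, 1]], [[3, -1, 1, 0, 0, 0, 1], [-1, -1, 0, 0, 0, 0, 0], [1, 0, 1, 1, 0, 0, 0], [0, 0, 0, -1, 1, 0, 0], [0, 0, 0, 0, -1, 1, 0], [0, 0, -1, 1, 0, 0, 0], [0, 0, 0, 0,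 0, -1, 0]], [2, 2, 2, 2, 2, 2, 1], [[0, 0, 1, 2, 2, 1, 2], [0, -1, -1, -2, -2, -1, -2], [0, 0, 0, -1, -1, -1, -1], [0, 0, 0, -1, -1, 0, -1], [0, 0, 0, 0, -1, 0, -1], [0, 0, 0, 0, 0, 0, -1], [1, -1, -4, -7, -7, -3, -7]], [0, 0, 1, 2, 3, 0, 4], 7, [[0, 7, 0, 0, 0, 0, 0], [7, 0, 0, 0, 0, 0, 0], [0, 0, 7, 0, 0, 0, 0], [0, 0, 0, 7, 0, 0, 0], [0, 0, 0, 0, 7, 0, 0], [0, 0, 0, 0, 0, 7, 0], [0, 0, 0, 0, 0, 0, 1]], [0, 0, 1, 1, 1, 1, 1], [⟨2, [[0, 0, 0, 0, 0, 0, 0, 0, 1, 1, 0, 0, 1, 0], [0, 0, 0, 0, 0, 0, 0, 0, 0, 1, 0, 0, 1, 0], [0, 0, 0, 0, 0, 0, 0, 1, 1, 0, 0, 0, 0, 0], [0, 0, 0, 0, 0, 0, 0, 1, 1, 0, 0, 0, 1, 0], [0, 0, 0, 0, 0, 0, 0, 1, 1, 0, 1, 0, 1, 0], [0, 0, 0, 0, 0,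 0, 0, 1, 1, 0, 1, 1, 1, 0], [0, 0, 0, 0, 0, 0, 0, 0, 0, 0, 0, 0, 0, 0]], [[0, 0, 1, 1, 1, 1, 1]], [6]⟩, ⟨7, [[0, 4, 0, 0, 0, 0, 0, 0, 0, 0, 0, 0, 0, 0], [4, 0, 0, 0, 0, 0, 0, 0, 0, 0, 0, 0, 0, 0], [0, 0, 4, 0, 0, 0, 0, 0, 0, 0, 0, 0, 0, 0], [0, 0, 0, 4, 0, 0, 0, 0, 0, 0, 0, 0, 0, 0], [0, 0, 0, 0, 4, 0, 0, 0, 0, 0, 0, 0, 0, 0], [0, 0, 0, 0, 0, 4, 0, 0, 0, 0, 0, 0, 0, 0], [0, 0, 0, 0, 0, 0, 0, 0, 0, 0, 0, 0, 0, 0]], [[0, 0, 0, 0, 0, 0, 1]], [6]⟩]⟩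

theorem m36_ok : chkMax m36 = true := by decide +kernel

end RH6.MC
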