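import Pool.Agent.RH6.UDef
import Pool.Agent.RH6.F8

open Matrix

namespace RH6

/-! Row [RH-U1]: lists as matrices; lattices `U(N) ⊥ K` as `ℤ^7` with a Gram matrix. -/

theorem eqI_iff {a b : ℤ} : eqI a b = true ↔ a = b := by
  cases a <;> cases b <;> simp [eqI]

theorem eqL_iff {a b : List ℤ} : eqL a b = true ↔ a = b := by
  induction a generalizing b with
  | nil => cases b <;> simp [eqL]
  | cons x a ih => cases b <;> simp [eqL, eqI_iff, ih]

theorem eqLL_iff {a b : List (List ℤ)} : eqLL a b = true ↔ a = b := by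
  induction a generalizing b with
  | nil => cases b <;> simp [eqLL]
  | cons x a ih => cases b <;> simp [eqLL, eqL_iff, ih]

theorem u1_len7 {x : List ℤ} (h : x.length = 7) :
    ∃ a b c d e f g, x = [a, b, c, d, e, f, g] := by
  match x, h with
  | [a, b, c, d, e, f, g], _ => exact ⟨a, b, c, d, e, f, g, rfl⟩

theorem dotL_eq {x y : List ℤ} (hx : x.length = 7) (hy : y.length = 7) :
    dotL x y = vecL x ⬝ᵥ vecL y := by
  obtain ⟨a, b, c, d, e, f, g, rfl⟩ := u1_len7 hx
  obtain ⟨a', b', c', d', e', f', g', rfl⟩ := u1_len7 hy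
  simp [dotL, vecL, dotProduct, Fin.sum_univ_succ]

theorem u1_addL {n : ℕ} : ∀ {x y : List ℤ}, x.length = n → y.length = n →
    (addL x y).length = n ∧ ∀ j, (addL x y).getD j 0 = x.getD j 0 + y.getD j 0 := by
  induction n with
  | zero =>
    intro x y hx hy
    rw [List.length_eq_zero_iff] at hx hy
    subst hx hy
    simp [addL]
  | succ n ih =>
    intro x y hx hy
    match x, y, hx, hy with
    | a :: x, b :: y, hx, hy =>
      obtain ⟨h1, h2⟩ := ih (x := x) (y := y) (by simpa using hx) (by simpa using hy)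
      refine ⟨by simp [addL, h1], fun j => ?_⟩
      cases j with
      | zero => simp [addL]
      | succ j => simpa [addL] using h2 j

theorem u1_sclL (c : ℤ) (x : List ℤ) :
    (sclL c x).length = x.length ∧ ∀ j, (sclL c x).getD j 0 = c * x.getD j 0 := by
  induction x with
  | nil => simp [sclL]
  | cons a x ih =>
    refine ⟨by simp [sclL, ih.1], fun j => ?_⟩
    cases j with
    | zero => simp [sclL]
    | succ j => simpa [sclL] using ih.2 j

theorem u1_combL {x : List ℤ} {G : List (List ℤ)} (hx : x.length = G.length)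
    (hr : ∀ r ∈ G, r.length = 7) :
    (combL x G).length = 7 ∧ ∀ j, (combL x G).getD j 0 =
      ∑ i ∈ Finset.range G.length, x.getD i 0 * (G.getD i []).getD j 0 := by
  induction G generalizing x with
  | nil =>
    have hx' : x = [] := by
      rw [← List.length_eq_zero_iff]
      simpa using hx
    subst hx'
    refine ⟨by simp [combL, zero7], fun j => ?_⟩
    simp only [combL, zero7, List.length_nil, Finset.range_zero, Finset.sum_empty]
    by_cases hj : j < 7
    · interval_cases j <;> rfl
    · rw [List.getD_eq_default]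
      simpa using hj
  | cons r G ih =>
    match x, hx with
    | a :: x, hx =>
      obtain ⟨h1, h2⟩ := ih (x := x) (by simpa using hx) (fun r hr' => hr r (by simp [hr']))
      have hs := u1_sclL a r
      obtain ⟨h3, h4⟩ := u1_addL (x := sclL a r) (y := combL x G) (hs.1.trans (hr r (by simp))) h1
      refine ⟨by simpa [combL] using h3, fun j => ?_⟩
      rw [combL, h4, h2, hs.2, List.length_cons, Finset.sum_range_succ']
      simp only [List.getD_cons_succ, List.getD_cons_zero]
      ring

/-- `combL x G = x G` -/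
theorem combL_eq {x : List ℤ} {G : List (List ℤ)} (hx : x.length = 7) (hG : G.length = 7)
    (hr : ∀ r ∈ G, r.length = 7) :
    (combL x G).length = 7 ∧ vecL (combL x G) = vecL x ᵥ* ofL G := by
  obtain ⟨h1, h2⟩ := u1_combL (x := x) (G := G) (by rw [hx, hG]) hr
  refine ⟨h1, ?_⟩
  funext j
  simp only [vecL, vecMul, dotProduct, ofL]
  rw [h2, hG, Finset.sum_range]

/-- combination of five rows -/
theorem combL5 {x : List ℤ} {F : List (List ℤ)} (hx : x.length = 5) (hF : F.length = 5)
    (hr : ∀ r ∈ F, r.length = 7) :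
    (combL x F).length = 7 ∧
      vecL (combL x F) = ∑ i : Fin 5, (x.getD i 0) • vecL (F.getD i []) := by
  obtain ⟨h1, h2⟩ := u1_combL (x := x) (G := F) (by rw [hx, hF]) hr
  refine ⟨h1, ?_⟩
  funext j
  rw [Finset.sum_apply]
  simp only [vecL, Pi.smul_apply, smul_eq_mul]
  rw [h2, hF, Finset.sum_range]

theorem isSym_iff {G : List (List ℤ)} (h : isSym G = true) :
    G.length = 7 ∧ (∀ r ∈ G, r.length = 7) ∧ (ofL G)ᵀ = ofL G := by
  simp only [isSym, Bool.and_eq_true, List.all_eq_true, Nat.beq_eq, List.mem_range, eqI_iff] at h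
  obtain ⟨⟨h1, h2⟩, h3⟩ := h
  refine ⟨h1, h2, ?_⟩
  ext i j
  rw [transpose_apply]
  simp only [ofL]
  rcases lt_trichotomy (i : ℕ) (j : ℕ) with hij | hij | hij
  · exact h3 j j.2 i hij
  · rw [hij]
  · exact (h3 i i.2 j hij).symm

theorem u1_mulLL_getD {G E : List (List ℤ)} {i : ℕ} (hi : i < G.length) :
    (mulLL G E).getD i [] = combL (G.getD i []) E := by
  simp [mulLL, List.getD_eq_getElem?_getD, hi]

theorem u1_scal (e : ℤ) (i j : Fin 7) :
    ((scal e).getD (i : ℕ) []).getD (j : ℕ) 0 = if i = j then e else 0 := by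
  fin_cases i <;> fin_cases j <;> rfl

/-- product of two matrices given by lists equal to `e` times the unit matrix -/
theorem mulLL_scal {G E : List (List ℤ)} (hG : G.length = 7) (hr : ∀ r ∈ G, r.length = 7)
    {e : ℤ} (h : eqLL (mulLL G E) (scal e) = true) : E.length = 7 → (∀ r ∈ E, r.length = 7) →
    ofL G * ofL E = e • (1 : Matrix (Fin 7) (Fin 7) ℤ) := by
  intro hE hE'
  rw [eqLL_iff] at h
  ext i j
  have hi : (i : ℕ) < G.length := by rw [hG]; exact i.2
  have h1 := (combL_eq (x := G.getD i []) (G := E) (hr _ (by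
    rw [List.getD_eq_getElem _ _ hi]
    exact List.getElem_mem hi)) hE hE').2
  have h2 := congrFun h1 j
  rw [← u1_mulLL_getD hi, h] at h2
  have h3 : (vecL (G.getD i []) ᵥ* ofL E) j = (ofL G * ofL E) i j := rfl
  rw [← h3, ← h2]
  have h4 : vecL ((scal e).getD (i : ℕ) []) j = if i = j then e else 0 := u1_scal e i j
  rw [h4, Matrix.smul_apply, Matrix.one_apply]
  split_ifs <;> simp

/-- Row [RH-U1]: `U(N) ⊥ K ≅ ℤ^7` with Gram matrix `hypL N E`: `φ (p, q; x) = (p, q, coordinates of x)`
(`QEq_of_iso` with `c = 1`). -/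
theorem qeq_hypL {V : Type*} [AddCommGroup V] [Module ℚ V] [FiniteDimensional ℚ V]
    {B : LinearMap.BilinForm ℚ V} {K : AddSubgroup V} {E : List (List ℤ)} (hE : E.length = 5)
    (hr : ∀ r ∈ E, r.length = 5) (h : HasGram (of5 E) B K) (N : ℕ) :
    QEq (hB (N : ℚ) B) (hL K) (BQ (ofL (hypL N E))) Z7 := by
  obtain ⟨b, hb, hK⟩ := h
  let φ : (ℚ × ℚ × V) ≃ₗ[ℚ] (Fin 7 → ℚ) :=
    { toFun := fun a => vecCons a.1 (vecCons a.2.1 (b.equivFun a.2.2))
      map_add' := by
        intro a c
        funext i
        refine Fin.cases ?_ (fun i => ?_) i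
        · simp
        · refine Fin.cases ?_ (fun i => ?_) i
          · simp
          · simp
      map_smul' := by
        intro t a
        funext i
        refine Fin.cases ?_ (fun i => ?_) i
        · simp
        · refine Fin.cases ?_ (fun i => ?_) i
          · simp
          · simp
      invFun := fun y => (y 0, y 1, b.equivFun.symm (fun i => y i.succ.succ))
      left_inv := by
        intro a
        refine Prod.ext ?_ (Prod.ext ?_ ?_)
        · simp
        · simp
        · simp only [cons_val_succ]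
          exact b.equivFun.symm_apply_apply a.2.2
      right_inv := by
        intro y
        funext i
        refine Fin.cases ?_ (fun i => ?_) i
        · simp
        · refine Fin.cases ?_ (fun i => ?_) i
          · simp
          · simp only [cons_val_succ]
            rw [LinearEquiv.apply_symm_apply] }
  have hφ : ∀ a, φ a = vecCons a.1 (vecCons a.2.1 (b.equivFun a.2.2)) := fun a => rfl
  refine QEq_of_iso φ one_pos ?_ ?_
  · intro x y
    have hB2 : B x.2.2 y.2.2 =
        ∑ i : Fin 5, b.equivFun x.2.2 i * ∑ j : Fin 5, (of5 E i j : ℚ) * b.equivFun y.2.2 j := by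
      conv_lhs => rw [← b.sum_equivFun x.2.2, ← b.sum_equivFun y.2.2]
      simp only [map_sum, LinearMap.sum_apply, map_smul, LinearMap.smul_apply, smul_eq_mul, hb,
        Finset.mul_sum]
      rw [Finset.sum_comm]
      refine Finset.sum_congr rfl fun i _ => Finset.sum_congr rfl fun j _ => ?_
      ring
    rw [BQ_apply, one_mul, hφ, hφ]
    have e : hB (N : ℚ) B x y = N * (x.1 * y.2.1 + x.2.1 * y.1) + B x.2.2 y.2.2 := rfl
    rw [e, hB2]
    have g00 : mQ (ofL (hypL N E)) 0 0 = 0 := by simp [mQ, ofL, hypL]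
    have g01 : mQ (ofL (hypL N E)) 0 1 = N := by simp [mQ, ofL, hypL]
    have g10 : mQ (ofL (hypL N E)) 1 0 = N := by simp [mQ, ofL, hypL]
    have g11 : mQ (ofL (hypL N E)) 1 1 = 0 := by simp [mQ, ofL, hypL]
    have g0 : ∀ j : Fin 5, mQ (ofL (hypL N E)) 0 j.succ.succ = 0 := by
      intro j
      fin_cases j <;> simp [mQ, ofL, hypL]
    have g1 : ∀ j : Fin 5, mQ (ofL (hypL N E)) 1 j.succ.succ = 0 := by
      intro j
      fin_cases j <;> simp [mQ, ofL, hypL]
    have hg : ∀ i : Fin 5, (hypL N E).getD (i.succ.succ : Fin 7) [] = 0 :: 0 :: E.getD i [] := by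
      intro i
      have hi : (i : ℕ) < E.length := by rw [hE]; exact i.2
      simp [hypL, List.getD_eq_getElem?_getD, hi]
    have gi0 : ∀ i : Fin 5, mQ (ofL (hypL N E)) i.succ.succ 0 = 0 := by
      intro i
      simp only [mQ, map_apply, ofL, hg]
      simp
    have gi1 : ∀ i : Fin 5, mQ (ofL (hypL N E)) i.succ.succ 1 = 0 := by
      intro i
      simp only [mQ, map_apply, ofL, hg]
      simp
    have gij : ∀ i j : Fin 5, mQ (ofL (hypL N E)) i.succ.succ j.succ.succ = of5 E i j := by
      intro i j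
      simp only [mQ, map_apply, ofL, hg]
      simp [of5]
    simp only [dotProduct, mulVec]
    rw [Fin.sum_univ_succ, Fin.sum_univ_succ]
    simp only [Fin.sum_univ_succ (n := 6), Fin.sum_univ_succ (n := 5), cons_val_zero,
      cons_val_succ, Fin.succ_zero_eq_one, g00, g01, g10, g11, g0, g1, gi0, gi1, gij, zero_mul,
      zero_add, Finset.sum_const_zero, add_zero]
    ring
  · intro x
    have e : φ x ∈ Z7 ↔ ∀ i, ∃ z : ℤ, φ x i = z := Iff.rfl
    have e2 : x ∈ hL K ↔ (∃ z : ℤ, x.1 = z) ∧ (∃ z : ℤ, x.2.1 = z) ∧ x.2.2 ∈ K := Iff.rfl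
    rw [e, e2, hK, hφ]
    rw [Fin.forall_fin_succ (n := 6), Fin.forall_fin_succ (n := 5)]
    simp only [cons_val_zero, cons_val_succ, Module.Basis.equivFun_apply]

end RH6
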