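import Pool.Agent.RH6.ZDef
import Pool.Agent.RH6.D02
import Pool.Agent.RH6.U1

open Matrix

namespace RH6

open P

/-- Row [RH-Z2]: a list of vertex certificates, starting with the vertex `j` -/
theorem verts_range {D : PD} {j : ℕ} {cs : List Vc} (h : vertsOK D j cs = true) (k : ℕ)
    (h1 : j ≤ k) (h2 : k < j + cs.length) : ∃ c, vertOK D k c = true := by
  have h3 := vertsOK_get h (k - j) (by omega)
  have h4 : j + (k - j) = k := by omega
  rw [h4] at h3
  exact ⟨_, h3⟩

private theorem z2_posI (x : ℤ) : posI x = true ↔ 0 < x := by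
  rcases x with (_ | n) | n
  · simp [posI]
  · simp only [posI, true_iff]
    exact Int.natCast_pos.2 (Nat.succ_pos n)
  · simp only [posI, Bool.false_eq_true, false_iff]
    exact not_lt.2 (Int.negSucc_lt_zero n).le

private theorem z2_vecL_ofFn (v : Fin 7 → ℤ) : vecL (List.ofFn v) = v := by
  funext i
  unfold vecL
  rw [List.getD_eq_getElem _ _ (by rw [List.length_ofFn]; exact i.2), List.getElem_ofFn]

private theorem z2_dot {G : List (List ℤ)} (hG : G.length = 7) (hr : ∀ r ∈ G, r.length = 7)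
    {x y : List ℤ} (hx : x.length = 7) (hy : y.length = 7) :
    vecL (G.map (dotL y)) = ofL G *ᵥ vecL y ∧
    dotL x (G.map (dotL y)) = bZ (ofL G) (vecL x) (vecL y) := by
  have h1 : vecL (G.map (dotL y)) = ofL G *ᵥ vecL y := by
    funext i
    have hi : (i : ℕ) < G.length := by rw [hG]; exact i.2
    have e1 : vecL (G.map (dotL y)) i = dotL y (G.getD i []) := by
      unfold vecL
      rw [List.getD_eq_getElem _ _ (by rw [List.length_map]; exact hi), List.getElem_map,
        List.getD_eq_getElem _ _ hi]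
    have hlen : (G.getD i []).length = 7 := by
      rw [List.getD_eq_getElem _ _ hi]
      exact hr _ (List.getElem_mem hi)
    rw [e1, dotL_eq hy hlen, Matrix.mulVec, dotProduct_comm]
    rfl
  refine ⟨h1, ?_⟩
  rw [dotL_eq hx (by rw [List.length_map]; exact hG), h1]
  rfl

private theorem z2_act {G : List (List ℤ)} (hr : ∀ r ∈ G, r.length = 7)
    {y : List ℤ} (hy : y.length = 7) : actL G y = G.map (dotL y) := by
  unfold actL
  refine List.map_congr_left fun r hrG => ?_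
  rw [dotL_eq (hr r hrG) hy, dotL_eq hy (hr r hrG), dotProduct_comm]

private theorem z2_fold (k : ℕ) (v : List ℤ) : ∀ g : ℕ, k ∣ g → (∀ a ∈ v, k ∣ a.natAbs) →
    k ∣ v.foldl (fun g a => Nat.gcd g a.natAbs) g := by
  induction v with
  | nil => intro g hg _; exact hg
  | cons a v ih =>
    intro g hg h
    rw [List.foldl_cons]
    exact ih _ (Nat.dvd_gcd hg (h a (List.mem_cons_self))) (fun b hb => h b (List.mem_cons_of_mem a hb))

private theorem z2_roots {D : PD} (n : ℕ) (h : rootsOK D n = true) (e : ℕ) (he : e < n) :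
    posI (dotL (decI 7 (D.Et.get e)) (D.G.map (dotL (decI 7 (D.Et.get e))))) = true ∧
    (∀ a ∈ D.G.map (dotL (decI 7 (D.Et.get e))),
      2 * a % dotL (decI 7 (D.Et.get e)) (D.G.map (dotL (decI 7 (D.Et.get e)))) = 0) ∧
    (decI 7 (D.Et.get e)).foldl (fun g a => Nat.gcd g a.natAbs) 0 = 1 := by
  induction n with
  | zero => omega
  | succ n ih =>
    have h' := h
    unfold rootsOK at h'
    simp only [Bool.and_eq_true] at h'
    obtain ⟨⟨⟨h1, h2⟩, h3⟩, h4⟩ := h'
    by_cases hen : e = n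
    · subst hen
      refine ⟨h1, ?_, Nat.eq_of_beq_eq_true h3⟩
      intro a ha
      rw [List.all_eq_true] at h2
      exact eqI_iff.1 (h2 a ha)
    · exact ih h4 (by omega)

private theorem z2_len (a : ℕ) : (decI 7 a).length = 7 := by
  rw [decI_vec, List.length_ofFn]

private theorem z2_vec (a : ℕ) : vecL (decI 7 a) = vecN a := by
  rw [decI_vec, z2_vecL_ofFn]

/-- Row [RH-Z2]: the vectors `E_e` are roots: `n = (v,v) > 0`, `n ∣ 2 (G v)_i`, `v` primitive -/
theorem roots_sound {D : PD} {hc : ℕ} {ρ : List ℤ} (h : polyOK D hc ρ = true) (e : ℕ)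
    (he : e < D.n) : IsRoot (ofL D.G) (vecN (D.Et.get e)) := by
  unfold polyOK at h
  simp only [Bool.and_eq_true] at h
  obtain ⟨⟨⟨⟨⟨⟨⟨⟨hs, hd⟩, hm⟩, hr⟩, hl⟩, hh⟩, hρ⟩, hρh⟩, hρE⟩ := h
  obtain ⟨g1, g2, g3⟩ := isSym_iff hs
  obtain ⟨r1, r2, r3⟩ := z2_roots D.n hr e he
  have hlen := z2_len (D.Et.get e)
  have hv := z2_vec (D.Et.get e)
  obtain ⟨d1, d2⟩ := z2_dot g1 g2 hlen hlen
  rw [hv] at d1 d2
  rw [d2] at r1 r2
  refine ⟨(z2_posI _).1 r1, ?_, ?_⟩
  · intro x
    have h1 : 2 * bZ (ofL D.G) x (vecN (D.Et.get e)) =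
        ∑ i, x i * (2 * (ofL D.G *ᵥ vecN (D.Et.get e)) i) := by
      unfold bZ
      rw [dotProduct, Finset.mul_sum]
      exact Finset.sum_congr rfl fun i _ => by ring
    rw [h1]
    refine Finset.dvd_sum fun i _ => Dvd.dvd.mul_left ?_ _
    refine Int.dvd_of_emod_eq_zero ?_
    have h2 : (ofL D.G *ᵥ vecN (D.Et.get e)) i ∈ D.G.map (dotL (decI 7 (D.Et.get e))) := by
      rw [← d1]
      unfold vecL
      have hi : (i : ℕ) < (D.G.map (dotL (decI 7 (D.Et.get e)))).length := by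
        rw [List.length_map, g1]; exact i.2
      rw [List.getD_eq_getElem _ _ hi]
      exact List.getElem_mem hi
    exact r2 _ h2
  · intro d hdd
    have h1 : d.natAbs ∣ (decI 7 (D.Et.get e)).foldl (fun g a => Nat.gcd g a.natAbs) 0 := by
      refine z2_fold _ _ 0 (dvd_zero _) ?_
      intro a ha
      rw [decI_vec, List.mem_ofFn] at ha
      obtain ⟨i, rfl⟩ := ha
      exact Int.natAbs_dvd_natAbs.2 (hdd i)
    rw [r3] at h1
    exact Int.isUnit_iff_natAbs_eq.2 (Nat.dvd_one.1 h1)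

/-- Row [RH-Z2]: the certificate of a polytope implies finite index.

Proof.  Let `G = ofL D.G`, `E_e = vecN (D.Et.get e)`, `R_j = vecN (D.Rt.get j)`, `h = vecN hc`
(`= vecL hU` by `decI_vec`).  `vert_sound` gives `LC`, `(R_j,h) < 0`, `(R_j,R_j) ≤ 0` for all `j`;
`R_j ≠ 0`.  `cone_of_local` and `finite_index` with `ρ` give `(WE G E).relIndex (OG G h) ≠ 0`.
`WE G E ≤ WG G` (`roots_sound`), so `(WG G).relIndex (OG G h) ≠ 0`. -/
theorem poly_sound {D : PD} {hc : ℕ} {ρ : List ℤ} (h : polyOK D hc ρ = true)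
    (hv : ∀ j < D.m, ∃ c, vertOK D j c = true) (hL : Lor (ofL D.G) (vecL hU)) :
    (WG (ofL D.G)).relIndex (OG (ofL D.G) (vecL hU)) ≠ 0 := by
  have hroot := fun (e : Fin D.n) => roots_sound h e e.2
  unfold polyOK at h
  simp only [Bool.and_eq_true] at h
  obtain ⟨⟨⟨⟨⟨⟨⟨⟨hs, hd⟩, hm⟩, hr⟩, hl⟩, hh⟩, hρ⟩, hρh⟩, hρE⟩ := h
  obtain ⟨g1, g2, g3⟩ := isSym_iff hs
  have hl7 : ρ.length = 7 := Nat.eq_of_beq_eq_true hl
  have hU7 : hU.length = 7 := rfl
  have hhc : vecN hc = vecL hU := by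
    rw [← z2_vec, eqL_iff.1 hh]
  have hm' : 0 < D.m := by
    have := Nat.le_of_ble_eq_true hm
    omega
  have hG : ∀ i j : Fin 7, ofL D.G i j = (D.G.getD i []).getD j 0 := fun _ _ => rfl
  have key : ∀ j : Fin D.m,
      LC (ofL D.G) (fun e : Fin D.n => vecN (D.Et.get e)) (fun i : Fin D.m => vecN (D.Rt.get i)) j ∧
      bZ (ofL D.G) (vecN (D.Rt.get j)) (vecL hU) < 0 ∧
      bZ (ofL D.G) (vecN (D.Rt.get j)) (vecN (D.Rt.get j)) ≤ 0 := by
    intro j
    obtain ⟨c, hc'⟩ := hv j j.2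
    have := vert_sound D hc (ofL D.G) hG g3 hd j c hc'
    rw [hhc] at this
    exact this
  have q1 : bZ (ofL D.G) (vecL ρ) (vecL ρ) < 0 := by
    have e := (z2_dot g1 g2 hl7 hl7).2
    have p := (z2_posI _).1 hρ
    rw [z2_act g2 hl7, e] at p
    linarith
  have q2 : bZ (ofL D.G) (vecL ρ) (vecL hU) < 0 := by
    have e := (z2_dot g1 g2 hl7 hU7).2
    have p := (z2_posI _).1 hρh
    rw [z2_act g2 hU7, e] at p
    linarith
  have q3 : ∀ e : Fin D.n, bZ (ofL D.G) (vecL ρ) (vecN (D.Et.get e)) < 0 := by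
    intro e
    rw [List.all_eq_true] at hρE
    have p := (z2_posI _).1 (hρE e (List.mem_range.2 e.2))
    have e' := (z2_dot g1 g2 hl7 (z2_len (D.Et.get e))).2
    rw [z2_act g2 (z2_len (D.Et.get e)), e', z2_vec] at p
    linarith
  have hfin := finite_index hL (fun e : Fin D.n => vecN (D.Et.get e))
    (fun i : Fin D.m => vecN (D.Rt.get i)) (fun e => ⟨(hroot e).pos, (hroot e).dvd⟩) (vecL ρ)
    q1 q2 q3 (fun j => ⟨fun h0 => by
      have h1 := (key j).2.1
      have h0' : vecN (D.Rt.get j) = 0 := h0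
      rw [h0', bZ, zero_dotProduct] at h1
      exact lt_irrefl _ h1, (key j).2.2, (key j).2.1⟩)
    (fun x hx hxE => cone_of_local hL hm' _ _ (fun j => (key j).2.1) (fun j => (key j).1) x hx hxE)
  have hle : WE (ofL D.G) (fun e : Fin D.n => vecN (D.Et.get e)) ≤ WG (ofL D.G) := by
    unfold WE WG
    refine Subgroup.closure_mono ?_
    rintro g ⟨e, he⟩
    exact ⟨_, hroot e, he⟩
  intro h0
  have := Subgroup.relIndex_dvd_of_le_left (OG (ofL D.G) (vecL hU)) hle
  rw [h0, zero_dvd_iff] at this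
  exact hfin this

end RH6
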