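import Pool.Agent.RH6.ZDef
import Pool.Agent.RH6.U1

open Matrix

namespace RH6

theorem z1_hyp {K : List (List ℤ)} (hK : K.length = 5)
    {R : Type*} [CommRing R] (f : ℤ →+* R) (x y : Fin 7 → R) :
    x ⬝ᵥ ((ofL (hypL 1 K)).map f *ᵥ y) = x 0 * y 1 + x 1 * y 0 +
      (fun i : Fin 5 => x i.succ.succ) ⬝ᵥ ((of5 K).map f *ᵥ fun i : Fin 5 => y i.succ.succ) := by
  have g00 : ofL (hypL 1 K) 0 0 = 0 := by simp [ofL, hypL]
  have g01 : ofL (hypL 1 K) 0 1 = 1 := by simp [ofL, hypL]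
  have g10 : ofL (hypL 1 K) 1 0 = 1 := by simp [ofL, hypL]
  have g11 : ofL (hypL 1 K) 1 1 = 0 := by simp [ofL, hypL]
  have g0 : ∀ j : Fin 5, ofL (hypL 1 K) 0 j.succ.succ = 0 := by
    intro j
    fin_cases j <;> simp [ofL, hypL]
  have g1 : ∀ j : Fin 5, ofL (hypL 1 K) 1 j.succ.succ = 0 := by
    intro j
    fin_cases j <;> simp [ofL, hypL]
  have hg : ∀ i : Fin 5, (hypL 1 K).getD (i.succ.succ : Fin 7) [] = 0 :: 0 :: K.getD i [] := by
    intro i
    have hi : (i : ℕ) < K.length := by rw [hK]; exact i.2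
    simp [hypL, List.getD_eq_getElem?_getD, hi]
  have gi0 : ∀ i : Fin 5, ofL (hypL 1 K) i.succ.succ 0 = 0 := by
    intro i
    simp only [ofL, hg]
    simp
  have gi1 : ∀ i : Fin 5, ofL (hypL 1 K) i.succ.succ 1 = 0 := by
    intro i
    simp only [ofL, hg]
    simp
  have gij : ∀ i j : Fin 5, ofL (hypL 1 K) i.succ.succ j.succ.succ = of5 K i j := by
    intro i j
    simp only [ofL, hg, of5]
    simp
  have s1 : ((0 : Fin 6).succ : Fin 7) = 1 := rfl
  simp only [dotProduct, mulVec, Fin.sum_univ_succ (n := 6), Fin.sum_univ_succ (n := 5), s1,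
    map_apply, g00, g01, g10, g11, g0, g1, gi0, gi1, gij, map_zero, map_one]
  simp only [zero_mul, one_mul, zero_add, Finset.sum_const_zero, add_zero]
  ring

/-- Row [RH-Z1]: entries of `U ⊥ K` -/
theorem ofL_hyp {K : List (List ℤ)} (hK : K.length = 5) (hr : ∀ r ∈ K, r.length = 5)
    (x y : Fin 7 → ℤ) :
    bZ (ofL (hypL 1 K)) x y = x 0 * y 1 + x 1 * y 0 +
      (fun i : Fin 5 => x i.succ.succ) ⬝ᵥ (of5 K *ᵥ fun i : Fin 5 => y i.succ.succ) := by
  have h := z1_hyp hK (RingHom.id ℤ) x y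
  have h1 : ∀ {m : Type} (M : Matrix m m ℤ), M.map (RingHom.id ℤ) = M := fun M => by
    ext i j
    rfl
  rw [h1, h1] at h
  exact h

theorem z1_len5 {α : Type*} {l : List α} (h : l.length = 5) :
    ∃ a b c d e, l = [a, b, c, d, e] := by
  match l, h with
  | [a, b, c, d, e], _ => exact ⟨a, b, c, d, e, rfl⟩

theorem z1_unpack {K : List (List ℤ)} {D : ℕ} {c : List ℕ} {T : List (List ℤ)}
    (h : pdB K D c T = true) :
    K.length = 5 ∧ (∀ r ∈ K, r.length = 5) ∧ T.length = 5 ∧ 0 < D ∧ c.length = 5 ∧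
    (∀ a ∈ c, 0 < a) ∧ (∀ i : Fin 5, of5 T i i ≠ 0) ∧
    (∀ i j : Fin 5, j < i → of5 T i j = 0) ∧
    (∀ i j : Fin 5, (D : ℤ) * of5 K i j =
      ∑ k : Fin 5, ((c.getD k 0 : ℕ) : ℤ) * (of5 T k i * of5 T k j)) := by
  simp only [pdB, Bool.and_eq_true, List.all_eq_true, Nat.beq_eq, Nat.blt_eq,
    List.mem_range, Bool.not_eq_true'] at h
  obtain ⟨⟨⟨⟨⟨⟨⟨⟨hK, hKr⟩, hT⟩, hTr⟩, hc⟩, hcp⟩, hD⟩, hT1⟩, hE⟩ := h
  refine ⟨hK, hKr, hT, hD, hc, hcp, ?_, ?_, ?_⟩
  · intro i hi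
    have h1 := (hT1 i i.2).1
    have h2 : eqI ((T.getD i []).getD i 0) 0 = true := eqI_iff.2 hi
    rw [h2] at h1
    exact Bool.noConfusion h1
  · intro i j hij
    exact eqI_iff.1 ((hT1 i i.2).2 j hij)
  · intro i j
    have h1 := eqI_iff.1 (hE i i.2 j j.2)
    obtain ⟨t0, t1, t2, t3, t4, rfl⟩ := z1_len5 hT
    obtain ⟨c0, c1, c2, c3, c4, rfl⟩ := z1_len5 hc
    rw [Fin.sum_univ_five]
    have h3 : (D : ℤ) * of5 K i j = ↑D * (K.getD i []).getD j 0 := rfl
    rw [h3]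
    refine h1.trans ?_
    simp only [List.map_cons, List.map_nil, dotL, of5]
    simp
    ring

theorem z1_mat {K : List (List ℤ)} {D : ℕ} {c : List ℕ} {T : List (List ℤ)}
    (h : pdB K D c T = true) :
    (D : ℤ) • of5 K = (of5 T)ᵀ *
      (Matrix.diagonal (fun k : Fin 5 => ((c.getD k 0 : ℕ) : ℤ))) * of5 T := by
  obtain ⟨hK, hKr, hT, hD, hc, hcp, hT1, hT2, hE⟩ := z1_unpack h
  ext i j
  rw [Matrix.smul_apply, smul_eq_mul, hE i j, Matrix.mul_apply]
  refine Finset.sum_congr rfl fun k _ => ?_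
  rw [Matrix.mul_diagonal, Matrix.transpose_apply]
  ring

theorem z1_detT {K : List (List ℤ)} {D : ℕ} {c : List ℕ} {T : List (List ℤ)}
    (h : pdB K D c T = true) : (of5 T).det = ∏ i : Fin 5, of5 T i i := by
  obtain ⟨hK, hKr, hT, hD, hc, hcp, hT1, hT2, hE⟩ := z1_unpack h
  refine Matrix.det_of_upperTriangular ?_
  intro i j hij
  exact hT2 i j hij

theorem z1_getD_pos {c : List ℕ} (hc : c.length = 5) (hcp : ∀ a ∈ c, 0 < a) (k : Fin 5) :
    0 < c.getD k 0 := by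
  have hk : (k : ℕ) < c.length := by rw [hc]; exact k.2
  rw [List.getD_eq_getElem _ _ hk]
  exact hcp _ (List.getElem_mem hk)

/-- Row [RH-Z1]: `K` is positive definite: `D (y,y) = ∑ c_i (T y)_i²`, and `T y ≠ 0` for `y ≠ 0`
(triangular with nonzero diagonal). -/
theorem pd_real {K : List (List ℤ)} {D : ℕ} {c : List ℕ} {T : List (List ℤ)}
    (h : pdB K D c T = true) (y : Fin 5 → ℝ) (hy : y ≠ 0) :
    0 < y ⬝ᵥ (((of5 K).map fun n : ℤ => (n : ℝ)) *ᵥ y) := by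
  obtain ⟨hK, hKr, hT, hD, hc, hcp, hT1, hT2, hE⟩ := z1_unpack h
  have hM := z1_mat h
  set KR : Matrix (Fin 5) (Fin 5) ℝ := (of5 K).map fun n : ℤ => (n : ℝ) with hKR
  set TR : Matrix (Fin 5) (Fin 5) ℝ := (of5 T).map fun n : ℤ => (n : ℝ) with hTR
  have hMR : (D : ℝ) • KR = TRᵀ *
      (Matrix.diagonal (fun k : Fin 5 => ((c.getD k 0 : ℕ) : ℝ))) * TR := by
    ext i j
    rw [Matrix.smul_apply, smul_eq_mul, Matrix.mul_apply, hKR, Matrix.map_apply]
    have h1 := congrArg (fun n : ℤ => (n : ℝ)) (hE i j)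
    simp only [Int.cast_mul, Int.cast_natCast, Int.cast_sum] at h1
    rw [h1]
    refine Finset.sum_congr rfl fun k _ => ?_
    rw [Matrix.mul_diagonal, Matrix.transpose_apply, hTR, Matrix.map_apply, Matrix.map_apply]
    ring
  have hdet : TR.det ≠ 0 := by
    have h1 : TR.det = (((of5 T).det : ℤ) : ℝ) := by
      rw [hTR]
      exact (Int.cast_det (of5 T)).symm
    rw [h1, z1_detT h]
    exact_mod_cast Finset.prod_ne_zero_iff.2 fun i _ => hT1 i
  have hTy : TR *ᵥ y ≠ 0 := fun h0 => hy (Matrix.eq_zero_of_mulVec_eq_zero hdet h0)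
  have hval : (D : ℝ) * (y ⬝ᵥ (KR *ᵥ y)) =
      ∑ k : Fin 5, ((c.getD k 0 : ℕ) : ℝ) * ((TR *ᵥ y) k) ^ 2 := by
    have h1 : (D : ℝ) * (y ⬝ᵥ (KR *ᵥ y)) = y ⬝ᵥ (((D : ℝ) • KR) *ᵥ y) := by
      rw [Matrix.smul_mulVec, dotProduct_smul, smul_eq_mul]
    rw [h1, hMR, ← Matrix.mulVec_mulVec, ← Matrix.mulVec_mulVec, Matrix.dotProduct_mulVec,
      Matrix.vecMul_transpose, dotProduct]
    refine Finset.sum_congr rfl fun k _ => ?_
    rw [Matrix.mulVec_diagonal]
    ring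
  have hpos : 0 < (D : ℝ) * (y ⬝ᵥ (KR *ᵥ y)) := by
    rw [hval]
    obtain ⟨k, hk⟩ := Function.ne_iff.1 hTy
    have hck : ∀ k : Fin 5, (0 : ℝ) < ((c.getD k 0 : ℕ) : ℝ) := fun k => by
      exact_mod_cast z1_getD_pos hc hcp k
    refine Finset.sum_pos' (fun i _ => mul_nonneg (hck i).le (sq_nonneg _)) ⟨k, Finset.mem_univ _, ?_⟩
    have hk' : (TR *ᵥ y) k ≠ 0 := hk
    exact mul_pos (hck k) (by positivity)
  have hD' : (0 : ℝ) < D := by exact_mod_cast hD
  exact pos_of_mul_pos_right hpos hD'.le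

/-- Row [RH-Z1]: `U ⊥ K` is Lorentzian: `h = (1,-1;0)`, `(h,h) = -2`; if `(x,h) = 0`, `x = (a,a;y)`,
`(x,x) = 2a² + (y,y) > 0`. -/
theorem lor_hyp {K : List (List ℤ)} {D : ℕ} {c : List ℕ} {T : List (List ℤ)}
    (h : pdB K D c T = true) (hs : isSym (hypL 1 K) = true) :
    Lor (ofL (hypL 1 K)) (vecL hU) := by
  obtain ⟨hK, hKr, hT, hD, hc, hcp, hT1, hT2, hE⟩ := z1_unpack h
  refine ⟨(isSym_iff hs).2.2, ?_, ?_⟩
  · rw [ofL_hyp hK hKr]
    have h0 : (fun i : Fin 5 => vecL hU i.succ.succ) = 0 := by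
      ext i
      fin_cases i <;> rfl
    have h1 : vecL hU 0 = 1 := rfl
    have h2 : vecL hU 1 = -1 := rfl
    rw [h0, h1, h2, zero_dotProduct]
    norm_num
  · intro x hx hx0
    have hform : ∀ x y : Fin 7 → ℝ, bR (ofL (hypL 1 K)) x y = x 0 * y 1 + x 1 * y 0 +
      (fun i : Fin 5 => x i.succ.succ) ⬝ᵥ
        (((of5 K).map fun n : ℤ => (n : ℝ)) *ᵥ fun i : Fin 5 => y i.succ.succ) := fun x y =>
      z1_hyp hK (Int.castRingHom ℝ) x y
    have h0 : (fun i : Fin 5 => toR (vecL hU) i.succ.succ) = 0 := by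
      ext i
      fin_cases i <;> simp [toR, vecL, hU]
    have h1 : toR (vecL hU) 0 = 1 := by simp [toR, vecL, hU]
    have h2 : toR (vecL hU) 1 = -1 := by simp [toR, vecL, hU]
    rw [hform, h0, h1, h2, Matrix.mulVec_zero, dotProduct_zero] at hx
    have hx1 : x 1 = x 0 := by linarith
    rw [hform, hx1]
    by_cases hy : (fun i : Fin 5 => x i.succ.succ) = 0
    · have hx00 : x 0 ≠ 0 := by
        intro h3
        apply hx0
        ext i
        refine Fin.cases h3 (fun i => ?_) i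
        refine Fin.cases ?_ (fun i => ?_) i
        · have s1 : ((0 : Fin 6).succ : Fin 7) = 1 := rfl
          rw [s1, hx1, h3]
          rfl
        · exact congrFun hy i
      rw [hy, zero_dotProduct]
      have h3 : 0 < x 0 * x 0 := mul_self_pos.2 hx00
      linarith
    · have h3 := pd_real h _ hy
      have h4 : 0 ≤ x 0 * x 0 := mul_self_nonneg _
      linarith

theorem z1_det7 {K : List (List ℤ)} (hK : K.length = 5) :
    (ofL (hypL 1 K)).det = -(of5 K).det := by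
  have g00 : ofL (hypL 1 K) 0 0 = 0 := by simp [ofL, hypL]
  have g01 : ofL (hypL 1 K) 0 1 = 1 := by simp [ofL, hypL]
  have g10 : ofL (hypL 1 K) 1 0 = 1 := by simp [ofL, hypL]
  have g0 : ∀ j : Fin 5, ofL (hypL 1 K) 0 j.succ.succ = 0 := by
    intro j
    fin_cases j <;> simp [ofL, hypL]
  have g1 : ∀ j : Fin 5, ofL (hypL 1 K) 1 j.succ.succ = 0 := by
    intro j
    fin_cases j <;> simp [ofL, hypL]
  have hg : ∀ i : Fin 5, (hypL 1 K).getD (i.succ.succ : Fin 7) [] = 0 :: 0 :: K.getD i [] := by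
    intro i
    have hi : (i : ℕ) < K.length := by rw [hK]; exact i.2
    simp [hypL, List.getD_eq_getElem?_getD, hi]
  have gij : ∀ i j : Fin 5, ofL (hypL 1 K) i.succ.succ j.succ.succ = of5 K i j := by
    intro i j
    simp only [ofL, hg, of5]
    simp
  have s1 : ((0 : Fin 6).succ : Fin 7) = 1 := rfl
  rw [Matrix.det_succ_row_zero, Fin.sum_univ_succ (n := 6), Fin.sum_univ_succ (n := 5), s1]
  simp only [g00, g01, g0, mul_zero, zero_mul, Finset.sum_const_zero, add_zero, zero_add]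
  rw [Matrix.det_succ_row_zero, Fin.sum_univ_succ (n := 5)]
  have h1 : ∀ j : Fin 5, ((ofL (hypL 1 K)).submatrix Fin.succ (Fin.succAbove 1)) 0 j.succ = 0 := by
    intro j
    rw [Matrix.submatrix_apply]
    have h2 : (Fin.succAbove (1 : Fin 7) j.succ) = j.succ.succ := by
      fin_cases j <;> rfl
    rw [h2, s1]
    exact g1 j
  have h3 : ((ofL (hypL 1 K)).submatrix Fin.succ (Fin.succAbove 1)) 0 0 = 1 := by
    rw [Matrix.submatrix_apply]
    exact g10
  have h4 : (((ofL (hypL 1 K)).submatrix Fin.succ (Fin.succAbove 1)).submatrix Fin.succ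
      (Fin.succAbove 0)) = of5 K := by
    ext i j
    rw [Matrix.submatrix_apply, Matrix.submatrix_apply]
    have h2 : (Fin.succAbove (1 : Fin 7) (Fin.succAbove (0 : Fin 6) j)) = j.succ.succ := by
      fin_cases j <;> rfl
    rw [h2]
    exact gij i j
  simp only [h1, h3, h4, mul_zero, zero_mul, Finset.sum_const_zero, add_zero]
  simp

/-- Row [RH-Z1]: the determinant: `det K · D^5 = ∏ c_i (∏ T_ii)²` (`D K = Tᵀ diag(c) T`,
`Matrix.det_of_upperTriangular`), `det (U ⊥ K) = - det K`. -/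
theorem det_hyp {K : List (List ℤ)} {D : ℕ} {c : List ℕ} {T : List (List ℤ)}
    (h : pdB K D c T = true)
    (hd : detK D c T * D ^ 5 =
      c.prod * (((List.range 5).map fun i => ((T.getD i []).getD i 0).natAbs).prod) ^ 2) :
    (ofL (hypL 1 K)).det = -(detK D c T : ℤ) ∧ 0 < detK D c T := by
  obtain ⟨hK, hKr, hT, hD, hc, hcp, hT1, hT2, hE⟩ := z1_unpack h
  have hM := congrArg Matrix.det (z1_mat h)
  rw [Matrix.det_smul, Matrix.det_mul, Matrix.det_mul, Matrix.det_transpose, z1_detT h,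
    Matrix.det_diagonal, Fintype.card_fin] at hM
  have hcp' : (∏ k : Fin 5, ((c.getD k 0 : ℕ) : ℤ)) = ((c.prod : ℕ) : ℤ) := by
    obtain ⟨c0, c1, c2, c3, c4, rfl⟩ := z1_len5 hc
    rw [Fin.prod_univ_five]
    simp
    ring
  have hTp : (((((List.range 5).map fun i => ((T.getD i []).getD i 0).natAbs).prod) ^ 2 : ℕ) : ℤ)
      = (∏ i : Fin 5, of5 T i i) ^ 2 := by
    have h1 : (∏ i : Fin 5, of5 T i i) ^ 2 = (((∏ i : Fin 5, of5 T i i).natAbs ^ 2 : ℕ) : ℤ) := by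
      rw [Nat.cast_pow, Int.natAbs_pow_two]
    rw [h1]
    congr 2
    rw [Fin.prod_univ_five]
    simp only [Int.natAbs_mul]
    simp [List.range, List.range.loop, of5]
    ring
  have hdd : (D : ℤ) ^ 5 * (of5 K).det = (D : ℤ) ^ 5 * (detK D c T : ℤ) := by
    have h2 := congrArg (fun n : ℕ => (n : ℤ)) hd
    simp only [Nat.cast_mul] at h2
    rw [hTp] at h2
    rw [hM, hcp', mul_comm ((D : ℤ) ^ 5) (detK D c T : ℤ)]
    have h3 : ((D ^ 5 : ℕ) : ℤ) = (D : ℤ) ^ 5 := by push_cast; ring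
    rw [← h3, h2]
    ring
  have hD0 : (D : ℤ) ^ 5 ≠ 0 := by
    have : (D : ℤ) ≠ 0 := by exact_mod_cast hD.ne'
    exact pow_ne_zero _ this
  have hdet : (of5 K).det = (detK D c T : ℤ) := mul_left_cancel₀ hD0 hdd
  refine ⟨?_, ?_⟩
  · rw [z1_det7 hK, hdet]
  · rcases Nat.eq_zero_or_pos (detK D c T) with h0 | h0
    · exfalso
      rw [h0, zero_mul] at hd
      have h4 : 0 < c.prod := List.prod_pos hcp
      have h5 : ((((List.range 5).map fun i => ((T.getD i []).getD i 0).natAbs).prod) ^ 2 : ℕ) ≠ 0 := by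
        intro h6
        have h7 := congrArg (fun n : ℕ => (n : ℤ)) h6
        rw [hTp] at h7
        have h8 : (∏ i : Fin 5, of5 T i i) ≠ 0 := Finset.prod_ne_zero_iff.2 fun i _ => hT1 i
        exact h8 (pow_eq_zero_iff (two_ne_zero) |>.1 (by exact_mod_cast h7))
      have h9 := Nat.mul_pos h4 (Nat.pos_of_ne_zero h5)
      omega
    · exact h0

end RH6
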