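import Pool.Agent.RH6.ZDef
import Pool.Agent.RH6.Z1

open Matrix

namespace RH6

theorem z3_sqfB {n : ℕ} (h : sqfB n = true) : Squarefree n := by
  unfold sqfB at h
  rcases Bool.or_eq_true_iff.1 h with h1 | h1
  · have h2 : n = 1 := Nat.eq_of_beq_eq_true h1
    rw [h2]
    exact squarefree_one
  · simp only [Bool.and_eq_true] at h1
    obtain ⟨⟨h2, h3⟩, h4⟩ := h1
    have h2' : n < 3600 := Nat.le_of_ble_eq_true h2
    have h3' : 0 < n := Nat.le_of_ble_eq_true h3
    rw [Nat.squarefree_iff_prime_squarefree]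
    intro p hp hpn
    have h5 : p * p ≤ n := Nat.le_of_dvd h3' hpn
    have h6 : p < 60 := by nlinarith
    have h7 := hp.two_le
    have h8 := List.all_eq_true.1 h4 (p - 2) (List.mem_range.2 (by omega))
    rw [show p - 2 + 2 = p by omega] at h8
    have h9 : Nat.mod n (Nat.mul p p) = 0 := Nat.mod_eq_zero_of_dvd hpn
    rw [h9] at h8
    simp at h8

theorem z3_sclL_len (c : ℤ) (x : List ℤ) : (sclL c x).length = x.length := by
  induction x with
  | nil => rfl
  | cons a x ih => simp [sclL, ih]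

theorem z3_getD_map (c : ℤ) (l : List (List ℤ)) (i : ℕ) :
    (l.map (sclL c)).getD i [] = sclL c (l.getD i []) := by
  exact List.getD_map (f := sclL c) (d := []) (l := l) (n := i)

theorem z3_sclL_get (c : ℤ) (x : List ℤ) (i : ℕ) : (sclL c x).getD i 0 = c * x.getD i 0 := by
  induction x generalizing i with
  | nil => simp [sclL]
  | cons a x ih =>
    cases i with
    | zero => simp [sclL]
    | succ i => simpa [sclL] using ih i

theorem z3_addL_len {x y : List ℤ} (h : x.length = y.length) :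
    (addL x y).length = x.length := by
  induction x generalizing y with
  | nil => cases y <;> simp [addL]
  | cons a x ih =>
    cases y with
    | nil => simp at h
    | cons b y => simp [addL, ih (by simpa using h)]

theorem z3_addL_get {x y : List ℤ} (h : x.length = y.length) (i : ℕ) :
    (addL x y).getD i 0 = x.getD i 0 + y.getD i 0 := by
  induction x generalizing y i with
  | nil =>
    cases y with
    | nil => simp [addL]
    | cons b y => simp at h
  | cons a x ih =>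
    cases y with
    | nil => simp at h
    | cons b y =>
      cases i with
      | zero => simp [addL]
      | succ i => simpa [addL] using ih (by simpa using h) i

theorem z3_vec_scl (c : ℤ) (x : List ℤ) : vecL (sclL c x) = c • vecL x := by
  funext i
  simp only [vecL, z3_sclL_get, Pi.smul_apply, smul_eq_mul]

theorem z3_vec_add {x y : List ℤ} (h : x.length = y.length) :
    vecL (addL x y) = vecL x + vecL y := by
  funext i
  simp only [vecL, z3_addL_get h, Pi.add_apply]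

theorem z3_vec_zero : vecL zero7 = 0 := by
  funext i
  fin_cases i <;> rfl

theorem z3_combL_len (x : List ℤ) (G : List (List ℤ)) (hr : ∀ r ∈ G, r.length = 7) :
    (combL x G).length = 7 := by
  induction G generalizing x with
  | nil => cases x <;> simp [combL, zero7]
  | cons r G ih =>
    cases x with
    | nil => simp [combL, zero7]
    | cons a x =>
      have h1 := ih x (fun r' hr' => hr r' (List.mem_cons_of_mem _ hr'))
      have h2 : (sclL a r).length = 7 := by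
        rw [z3_sclL_len]; exact hr r List.mem_cons_self
      simp only [combL]
      rw [z3_addL_len (by rw [h1, h2]), h2]

theorem z3_combL_cons (a : ℤ) (x : List ℤ) (r : List ℤ) (G : List (List ℤ))
    (hr : ∀ r' ∈ r :: G, r'.length = 7) :
    vecL (combL (a :: x) (r :: G)) = a • vecL r + vecL (combL x G) := by
  have h1 := z3_combL_len x G (fun r' hr' => hr r' (List.mem_cons_of_mem _ hr'))
  have h2 : (sclL a r).length = 7 := by
    rw [z3_sclL_len]; exact hr r List.mem_cons_self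
  simp only [combL]
  rw [z3_vec_add (by rw [h1, h2]), z3_vec_scl]

theorem z3_combL_dvd {p : ℤ} {z : Fin 7 → ℤ} (x : List ℤ) (G : List (List ℤ))
    (hr : ∀ r ∈ G, r.length = 7) (hd : ∀ r ∈ G, p ∣ vecL r ⬝ᵥ z) :
    p ∣ vecL (combL x G) ⬝ᵥ z := by
  induction G generalizing x with
  | nil => cases x <;> simp [combL, z3_vec_zero]
  | cons r G ih =>
    cases x with
    | nil => simp [combL, z3_vec_zero]
    | cons a x =>
      rw [z3_combL_cons a x r G hr, add_dotProduct, smul_dotProduct]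
      refine dvd_add ?_ ?_
      · rw [smul_eq_mul]
        exact Dvd.dvd.mul_left (hd r List.mem_cons_self) a
      · exact ih x (fun r' hr' => hr r' (List.mem_cons_of_mem _ hr'))
          (fun r' hr' => hd r' (List.mem_cons_of_mem _ hr'))

theorem z3_combL_sum (F : List (List ℤ)) (x : List ℤ) (hx : x.length = F.length)
    (hr : ∀ r ∈ F, r.length = 7) :
    vecL (combL x F) = ∑ k : Fin F.length, (x.getD k 0) • vecL (F.getD k []) := by
  induction F generalizing x with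
  | nil =>
    cases x with
    | nil => simp [combL, z3_vec_zero]
    | cons a x => simp at hx
  | cons r F ih =>
    cases x with
    | nil => simp at hx
    | cons a x =>
      rw [z3_combL_cons a x r F hr,
        ih x (by simpa using hx) (fun r' hr' => hr r' (List.mem_cons_of_mem _ hr'))]
      have h1 : (∑ k : Fin (r :: F).length, ((a :: x).getD k 0) • vecL ((r :: F).getD k [])) =
          ∑ k : Fin (F.length + 1), ((a :: x).getD k 0) • vecL ((r :: F).getD k []) := rfl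
      rw [h1, Fin.sum_univ_succ]
      simp

theorem z3_unit_len (i : ℕ) : (unitL i).length = 7 := by simp [unitL]

theorem z3_unit_vec (i : Fin 7) : vecL (unitL i) = Pi.single i 1 := by
  funext j
  fin_cases i <;> fin_cases j <;> rfl

theorem z3_unit_dot {i : ℕ} (hi : i < 7) (z : Fin 7 → ℤ) : vecL (unitL i) ⬝ᵥ z = z ⟨i, hi⟩ := by
  have h1 := z3_unit_vec ⟨i, hi⟩
  rw [show unitL i = unitL ((⟨i, hi⟩ : Fin 7) : ℕ) from rfl, h1]
  simp

theorem z3_mem_getD {l : List (List ℤ)} {k : ℕ} (hk : k < l.length) : l.getD k [] ∈ l := by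
  rw [List.getD_eq_getElem _ _ hk]
  exact List.getElem_mem hk

theorem z3_act_len (G : List (List ℤ)) (x : List ℤ) : (actL G x).length = G.length := by
  simp [actL]

/-- `actL G x = G x` -/
theorem z3_act_vec {G : List (List ℤ)} {x : List ℤ} (hG : G.length = 7)
    (hr : ∀ r ∈ G, r.length = 7) (hx : x.length = 7) :
    vecL (actL G x) = ofL G *ᵥ vecL x := by
  funext i
  have hi : (i : ℕ) < G.length := by rw [hG]; exact i.2
  have h1 : (actL G x).getD i 0 = dotL (G.getD i []) x := by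
    rw [List.getD_eq_getElem _ _ (by rw [z3_act_len]; exact hi), List.getD_eq_getElem _ _ hi]
    simp [actL]
  show (actL G x).getD i 0 = _
  rw [h1, dotL_eq (hr _ (z3_mem_getD hi)) hx]
  rfl

/-- `dotL v (actL G w) = (v, w)` -/
theorem z3_dot_act {G : List (List ℤ)} {v w : List ℤ} (hG : G.length = 7)
    (hr : ∀ r ∈ G, r.length = 7) (hv : v.length = 7) (hw : w.length = 7) :
    dotL v (actL G w) = bZ (ofL G) (vecL v) (vecL w) := by
  rw [dotL_eq hv (by rw [z3_act_len, hG]), z3_act_vec hG hr hw]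
  rfl

theorem z3_all_dvd {l : List ℤ} {p : ℤ} (h : (l.all fun a => eqI (a % p) 0) = true)
    (j : ℕ) : p ∣ l.getD j 0 := by
  by_cases hj : j < l.length
  · rw [List.getD_eq_getElem _ _ hj]
    have h1 := List.all_eq_true.1 h _ (List.getElem_mem hj)
    exact Int.dvd_of_emod_eq_zero (eqI_iff.1 h1)
  · rw [List.getD_eq_default _ _ (by omega)]
    exact dvd_zero _

theorem z3_all_dot {l : List ℤ} {p : ℤ} (h : (l.all fun a => eqI (a % p) 0) = true)
    (z : Fin 7 → ℤ) : p ∣ vecL l ⬝ᵥ z := by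
  unfold dotProduct
  refine Finset.dvd_sum fun i _ => ?_
  exact Dvd.dvd.mul_right (z3_all_dvd h i) _

theorem z3_bZ_symm {G : Matrix (Fin 7) (Fin 7) ℤ} (h : Gᵀ = G) (x y : Fin 7 → ℤ) :
    bZ G x y = bZ G y x := by
  unfold bZ
  rw [dotProduct_mulVec, ← mulVec_transpose, h, dotProduct_comm]

theorem z3_even {G : Matrix (Fin 7) (Fin 7) ℤ} (h : Gᵀ = G) (he : ∀ i, ∃ k, G i i = 2 * k)
    (y : Fin 7 → ℤ) : (2 : ℤ) ∣ bZ G y y := by
  choose k hk using he
  have hs : ∀ i j, G j i = G i j := fun i j => congrFun (congrFun h i) j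
  refine ⟨k 0 * y 0 ^ 2 + k 1 * y 1 ^ 2 + k 2 * y 2 ^ 2 + k 3 * y 3 ^ 2 + k 4 * y 4 ^ 2 +
    k 5 * y 5 ^ 2 + k 6 * y 6 ^ 2 +
    (G 0 1 * y 0 * y 1 + G 0 2 * y 0 * y 2 + G 0 3 * y 0 * y 3 + G 0 4 * y 0 * y 4 +
      G 0 5 * y 0 * y 5 + G 0 6 * y 0 * y 6) +
    (G 1 2 * y 1 * y 2 + G 1 3 * y 1 * y 3 + G 1 4 * y 1 * y 4 + G 1 5 * y 1 * y 5 +
      G 1 6 * y 1 * y 6) +
    (G 2 3 * y 2 * y 3 + G 2 4 * y 2 * y 4 + G 2 5 * y 2 * y 5 + G 2 6 * y 2 * y 6) +
    (G 3 4 * y 3 * y 4 + G 3 5 * y 3 * y 5 + G 3 6 * y 3 * y 6) +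
    (G 4 5 * y 4 * y 5 + G 4 6 * y 4 * y 6) + G 5 6 * y 5 * y 6, ?_⟩
  unfold bZ
  simp only [dotProduct, mulVec, Fin.sum_univ_seven]
  rw [hk 0, hk 1, hk 2, hk 3, hk 4, hk 5, hk 6, hs 0 1, hs 0 2, hs 0 3, hs 0 4, hs 0 5, hs 0 6,
    hs 1 2, hs 1 3, hs 1 4, hs 1 5, hs 1 6, hs 2 3, hs 2 4, hs 2 5, hs 2 6, hs 3 4, hs 3 5,
    hs 3 6, hs 4 5, hs 4 6, hs 5 6]
  ring

theorem z3_evenB {G : List (List ℤ)} (h : evenB G = true) (i : Fin 7) :
    ∃ k, ofL G i i = 2 * k := by
  unfold evenB at h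
  have h1 := List.all_eq_true.1 h i (List.mem_range.2 i.2)
  have h2 := Int.dvd_of_emod_eq_zero (eqI_iff.1 h1)
  obtain ⟨k, hk⟩ := h2
  exact ⟨k, hk⟩

theorem z3_bZ_add (G : Matrix (Fin 7) (Fin 7) ℤ) (hs : Gᵀ = G) (w y : Fin 7 → ℤ) (p : ℤ) :
    bZ G (w + p • y) (w + p • y) =
      bZ G w w + 2 * p * (bZ G y (w + p • y) - p * bZ G y y) + p ^ 2 * bZ G y y := by
  have h1 : bZ G w y = bZ G y w := z3_bZ_symm hs w y
  unfold bZ at *
  simp only [mulVec_add, mulVec_smul, add_dotProduct, dotProduct_add, smul_dotProduct,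
    dotProduct_smul, smul_eq_mul, h1]
  ring

/-- the key step: `z ≡ w mod p`, `p ∣ J z`, `2 p² ∣ (z,z)` imply `2 p² ∣ (w,w)` -/
theorem z3_key {G : Matrix (Fin 7) (Fin 7) ℤ} (hs : Gᵀ = G) (he : ∀ i, ∃ k, G i i = 2 * k)
    {p : ℤ} {z w : Fin 7 → ℤ} (hzw : ∀ i, p ∣ z i - w i) (hz : ∀ i, p ∣ (G *ᵥ z) i)
    (hq : 2 * p ^ 2 ∣ bZ G z z) : 2 * p ^ 2 ∣ bZ G w w := by
  choose y hy using hzw
  have hzy : z = w + p • y := by
    funext i
    simp only [Pi.add_apply, Pi.smul_apply, smul_eq_mul]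
    linarith [hy i]
  obtain ⟨m, hm⟩ := z3_even hs he y
  have h1 : p ∣ bZ G y z := by
    unfold bZ dotProduct
    exact Finset.dvd_sum fun i _ => Dvd.dvd.mul_left (hz i) _
  obtain ⟨n, hn⟩ := h1
  obtain ⟨q, hq⟩ := hq
  have h2 := z3_bZ_add G hs w y p
  rw [← hzy, hn, hm, hq] at h2
  exact ⟨q - n + m, by linarith⟩

theorem z3_div_vec {l : List ℤ} {b : ℤ} (hl : l.length = 7) (hd : ∀ j, b ∣ vecL l j) :
    b • vecL (l.map fun a => a / b) = vecL l := by
  funext j
  have hj : (j : ℕ) < l.length := by rw [hl]; exact j.2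
  have h1 := hd j
  simp only [vecL, Pi.smul_apply, smul_eq_mul] at h1 ⊢
  rw [List.getD_eq_getElem _ _ hj] at h1 ⊢
  rw [List.getD_eq_getElem _ _ (by rw [List.length_map]; exact hj), List.getElem_map]
  exact Int.mul_ediv_cancel' h1

theorem z3_rows_len {M : MCert} (hs : isSym M.J = true) :
    ∀ r ∈ M.rows, r.length = 7 := by
  obtain ⟨h7, hr, hT⟩ := isSym_iff hs
  intro r hr'
  unfold MCert.rows at hr'
  rcases List.mem_append.1 hr' with h | h
  · exact hr r h
  · obtain ⟨k, hk, rfl⟩ := List.mem_map.1 h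
    rw [List.length_map]
    exact z3_combL_len _ _ hr

theorem z3_rows_dvd {M : MCert} (hs : isSym M.J = true)
    (hb : ∀ k < M.E.length, 0 < M.b.getD k 0) (hl : ∀ v ∈ M.E, v.length = 7)
    (hdvd : ∀ k < M.E.length, ∀ i : Fin 7,
      ((M.b.getD k 0 : ℕ) : ℤ) ∣ (ofL M.J *ᵥ vecL (M.E.getD k [])) i)
    {p : ℕ} {z : Fin 7 → ℤ} (hz : ∀ i, (p : ℤ) ∣ (ofL M.J *ᵥ z) i)
    (hE : ∀ k : Fin M.E.length, ((p * M.b.getD k 0 : ℕ) : ℤ) ∣
      bZ (ofL M.J) (vecL (M.E.getD k [])) z) :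
    ∀ r ∈ M.rows, (p : ℤ) ∣ vecL r ⬝ᵥ z := by
  obtain ⟨h7, hr, hT⟩ := isSym_iff hs
  intro r hr'
  unfold MCert.rows at hr'
  rcases List.mem_append.1 hr' with h | h
  · obtain ⟨i, hi, rfl⟩ := List.mem_iff_getElem.1 h
    have h1 := hz ⟨i, by omega⟩
    have h2 : (ofL M.J *ᵥ z) ⟨i, by omega⟩ = vecL (M.J[i]) ⬝ᵥ z := by
      show (fun j => ofL M.J ⟨i, by omega⟩ j) ⬝ᵥ z = _
      congr 1
      funext j
      show (M.J.getD i []).getD j 0 = (M.J[i]).getD j 0
      rw [List.getD_eq_getElem _ _ hi]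
    rw [h2] at h1
    exact h1
  · obtain ⟨k, hk, rfl⟩ := List.mem_map.1 h
    have hk' : k < M.E.length := List.mem_range.1 hk
    have hb0 := hb k hk'
    have hlen : (M.E.getD k []).length = 7 := hl _ (z3_mem_getD hk')
    obtain ⟨hc1, hc2⟩ := combL_eq hlen h7 hr
    have hc3 : vecL (combL (M.E.getD k []) M.J) = ofL M.J *ᵥ vecL (M.E.getD k []) := by
      rw [hc2, ← mulVec_transpose, hT]
    have hc4 : ((M.b.getD k 0 : ℕ) : ℤ) •
        vecL ((combL (M.E.getD k []) M.J).map fun a => a / ((M.b.getD k 0 : ℕ) : ℤ)) =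
        ofL M.J *ᵥ vecL (M.E.getD k []) := by
      rw [← hc3]
      refine z3_div_vec hc1 fun j => ?_
      rw [hc3]
      exact hdvd k hk' j
    have h5 := hE ⟨k, hk'⟩
    have h6 : bZ (ofL M.J) (vecL (M.E.getD k [])) z = ((M.b.getD k 0 : ℕ) : ℤ) *
        (vecL ((combL (M.E.getD k []) M.J).map fun a => a / ((M.b.getD k 0 : ℕ) : ℤ)) ⬝ᵥ z) := by
      rw [z3_bZ_symm hT]
      unfold bZ
      rw [← hc4, dotProduct_smul, smul_eq_mul, dotProduct_comm]
    simp only at h5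
    rw [h6] at h5
    push_cast at h5
    rw [mul_comm (p : ℤ)] at h5
    exact Int.dvd_of_mul_dvd_mul_left (by exact_mod_cast hb0.ne') h5

/-- Row [RH-Z3]: soundness of the certificate for `NoOver`.

Proof.  Let `z` be as in `NoOver` (with `J = ofL M.J`, `E k = vecL (M.E.getD k [])`, `b k`).  Every row
`c` of `M.rows` satisfies `c·z ≡ 0 mod p`: for the rows of `J` by hypothesis; for `c = J E_k/b_k`
(exact division by hypothesis `hdvd`): `b_k (c·z) = (E_k,z)` is divisible by `p b_k`, `b_k > 0`.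
The congruence `unit_i ≡ ∑_j S_ij (row j) + ∑_t Z_t(i) unit_{sel t}` applied to `z` gives
`z_i ≡ ∑_t z_{sel t} Z_t(i) mod p`.  Let `0 ≤ a_t < p`, `a_t ≡ z_{sel t}`, `w = ∑ a_t Z_t`,
`z = w + p y`.  `(z,z) = (w,w) + 2p(w,y) + p²(y,y)`; `(y,y)` is even (`evenB`), and
`(w,y) = (z,y) - p (y,y) ≡ 0 mod p` as `p ∣ J z`.  So `2p² ∣ (w,w)`.  By the check all `a_t` are `0`, so
`p ∣ z_i` for all `i`. -/
theorem ov_sound {M : MCert} {o : OCert} (h : ovB M o = true) (hs : isSym M.J = true)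
    (he : evenB M.J = true) (hb : ∀ k < M.E.length, 0 < M.b.getD k 0)
    (hl : ∀ v ∈ M.E, v.length = 7)
    (hdvd : ∀ k < M.E.length, ∀ i : Fin 7,
      ((M.b.getD k 0 : ℕ) : ℤ) ∣ (ofL M.J *ᵥ vecL (M.E.getD k [])) i) :
    NoOver (ofL M.J) (fun k : Fin M.E.length => vecL (M.E.getD k []))
      (fun k => M.b.getD k 0) o.p := by
  unfold ovB at h
  simp only [Bool.and_eq_true] at h
  obtain ⟨⟨⟨⟨⟨⟨⟨hp1, hS7⟩, hSr⟩, hZs⟩, hsel⟩, hZr⟩, hcong⟩, hcase⟩ := h
  obtain ⟨h7, hr, hT⟩ := isSym_iff hs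
  have hev := z3_evenB he
  intro z hz hE hzz
  have hrow := z3_rows_dvd hs hb hl hdvd hz hE
  have hrl := z3_rows_len hs
  have hZs' : o.Z.length = o.sel.length := Nat.eq_of_beq_eq_true hZs
  have hsel' : ∀ i ∈ o.sel, i < 7 := by
    intro i hi
    have := List.all_eq_true.1 hsel i hi
    exact Nat.le_of_ble_eq_true this
  have hZr' : ∀ r ∈ o.Z, r.length = 7 := by
    intro r hr'
    exact Nat.eq_of_beq_eq_true (List.all_eq_true.1 hZr r hr')
  have hp0 : 1 < o.p := Nat.le_of_ble_eq_true hp1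
  have hpz : (0 : ℤ) < (o.p : ℤ) := by exact_mod_cast (by omega : 0 < o.p)
  have hul : ∀ r ∈ o.sel.map unitL, r.length = 7 := by
    intro r hr'
    obtain ⟨i, -, rfl⟩ := List.mem_map.1 hr'
    exact z3_unit_len i
  have hC : ∀ i : Fin 7, (o.p : ℤ) ∣ z i -
      vecL (combL (o.Z.map fun r => r.getD i 0) (o.sel.map unitL)) ⬝ᵥ z := by
    intro i
    have h1 := List.all_eq_true.1 hcong i (List.mem_range.2 i.2)
    have h2 := z3_all_dot h1 z
    have hA := z3_combL_len (o.S.getD i []) M.rows hrl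
    have hB := z3_combL_len (o.Z.map fun r => r.getD i 0) (o.sel.map unitL) hul
    have hAB : (addL (combL (o.S.getD i []) M.rows)
        (combL (o.Z.map fun r => r.getD i 0) (o.sel.map unitL))).length = 7 := by
      rw [z3_addL_len (by rw [hA, hB]), hA]
    rw [z3_vec_add (by rw [z3_unit_len, z3_sclL_len, hAB]), z3_vec_scl,
      z3_vec_add (by rw [hA, hB]), add_dotProduct, smul_dotProduct, add_dotProduct,
      z3_unit_dot i.2] at h2
    have h3 := z3_combL_dvd (o.S.getD i []) M.rows hrl hrow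
    have h4 := dvd_add h2 h3
    have h5 : z i - vecL (combL (o.Z.map fun r => r.getD i 0) (o.sel.map unitL)) ⬝ᵥ z =
        z ⟨i, i.2⟩ + (-1 : ℤ) • (vecL (combL (o.S.getD i []) M.rows) ⬝ᵥ z +
          vecL (combL (o.Z.map fun r => r.getD i 0) (o.sel.map unitL)) ⬝ᵥ z) +
        vecL (combL (o.S.getD i []) M.rows) ⬝ᵥ z := by
      rw [show z ⟨i, i.2⟩ = z i from rfl, smul_eq_mul]
      ring
    rw [h5]
    exact h4
  have hres : ∀ x : ℤ, ∃ a : ℕ, a < o.p ∧ (o.p : ℤ) ∣ x - a := by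
    intro x
    refine ⟨(x % (o.p : ℤ)).toNat, ?_, ?_⟩
    · have h1 := Int.emod_lt_of_pos x hpz
      have h2 := Int.emod_nonneg x hpz.ne'
      omega
    · rw [Int.toNat_of_nonneg (Int.emod_nonneg x hpz.ne')]
      exact Int.dvd_self_sub_emod
  have hfin : ∀ w : List ℤ, w.length = 7 → (∀ i : Fin 7, (o.p : ℤ) ∣ z i - vecL w i) →
      (!eqI (dotL w (actL M.J w) % (2 * (o.p : ℤ) ^ 2)) 0) = true → False := by
    intro w hw h1 h2
    have h3 := z3_key hT hev h1 hz hzz
    rw [z3_dot_act h7 hr hw hw] at h2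
    have h4 : eqI (bZ (ofL M.J) (vecL w) (vecL w) % (2 * (o.p : ℤ) ^ 2)) 0 = true :=
      eqI_iff.2 (Int.emod_eq_zero_of_dvd h3)
    rw [h4] at h2
    simp at h2
  rcases hZ : o.Z with _ | ⟨u, _ | ⟨v, _ | ⟨x, l⟩⟩⟩
  · intro i
    have h1 := hC i
    rw [hZ] at h1
    simpa [combL, z3_vec_zero] using h1
  · rw [hZ] at hcase hZs' hZr' hC
    rcases hs' : o.sel with _ | ⟨s, _ | ⟨s', l'⟩⟩
    · rw [hs'] at hZs'; simp at hZs'
    · rw [hs'] at hsel' hC
      have hs7 : s < 7 := hsel' s (by simp)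
      have hu7 : u.length = 7 := hZr' u (by simp)
      obtain ⟨a, ha, hza⟩ := hres (z ⟨s, hs7⟩)
      have hC2 : ∀ i : Fin 7, (o.p : ℤ) ∣ z i - (a : ℤ) * vecL u i := by
        intro i
        have h1 := hC i
        have h2 : vecL (combL ([u].map fun r => r.getD i 0) ([s].map unitL)) ⬝ᵥ z =
            vecL u i * z ⟨s, hs7⟩ := by
          show vecL (combL [u.getD i 0] [unitL s]) ⬝ᵥ z = _
          rw [z3_combL_cons _ _ _ _ (by simp [z3_unit_len]), add_dotProduct, smul_dotProduct,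
            z3_unit_dot hs7]
          simp [combL, z3_vec_zero, vecL]
        rw [h2] at h1
        have h3 := dvd_add h1 (Dvd.dvd.mul_left hza (vecL u i))
        have h4 : z i - (a : ℤ) * vecL u i =
          z i - vecL u i * z ⟨s, hs7⟩ + vecL u i * (z ⟨s, hs7⟩ - (a : ℤ)) := by ring
        rw [h4]
        exact h3
      have hc1 := List.all_eq_true.1 hcase a (List.mem_range.2 ha)
      rcases Bool.or_eq_true_iff.1 hc1 with hc2 | hc2
      · have ha0 : a = 0 := Nat.eq_of_beq_eq_true hc2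
        intro i
        have h1 := hC2 i
        rw [ha0] at h1
        simpa using h1
      · exfalso
        refine hfin (sclL a u) (by rw [z3_sclL_len, hu7]) ?_ hc2
        intro i
        have h1 := hC2 i
        rw [z3_vec_scl]
        exact h1
    · rw [hs'] at hZs'; simp at hZs'
  · rw [hZ] at hcase hZs' hZr' hC
    rcases hs' : o.sel with _ | ⟨s, _ | ⟨s', _ | ⟨s'', l'⟩⟩⟩
    · rw [hs'] at hZs'; simp at hZs'
    · rw [hs'] at hZs'; simp at hZs'
    · rw [hs'] at hsel' hC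
      have hs7 : s < 7 := hsel' s (by simp)
      have hs7' : s' < 7 := hsel' s' (by simp)
      have hu7 : u.length = 7 := hZr' u (by simp)
      have hv7 : v.length = 7 := hZr' v (by simp)
      obtain ⟨a, ha, hza⟩ := hres (z ⟨s, hs7⟩)
      obtain ⟨b, hb', hzb⟩ := hres (z ⟨s', hs7'⟩)
      have hC2 : ∀ i : Fin 7, (o.p : ℤ) ∣ z i - ((a : ℤ) * vecL u i + (b : ℤ) * vecL v i) := by
        intro i
        have h1 := hC i
        have h2 : vecL (combL ([u, v].map fun r => r.getD i 0) ([s, s'].map unitL)) ⬝ᵥ z =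
            vecL u i * z ⟨s, hs7⟩ + vecL v i * z ⟨s', hs7'⟩ := by
          show vecL (combL [u.getD i 0, v.getD i 0] [unitL s, unitL s']) ⬝ᵥ z = _
          rw [z3_combL_cons _ _ _ _ (by simp [z3_unit_len]),
            z3_combL_cons _ _ _ _ (by simp [z3_unit_len]), add_dotProduct, smul_dotProduct,
            add_dotProduct, smul_dotProduct, z3_unit_dot hs7, z3_unit_dot hs7']
          simp [combL, z3_vec_zero, vecL]
        rw [h2] at h1
        have h3 := dvd_add (dvd_add h1 (Dvd.dvd.mul_left hza (vecL u i)))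
          (Dvd.dvd.mul_left hzb (vecL v i))
        have h4 : z i - ((a : ℤ) * vecL u i + (b : ℤ) * vecL v i) =
          z i - (vecL u i * z ⟨s, hs7⟩ + vecL v i * z ⟨s', hs7'⟩) +
            vecL u i * (z ⟨s, hs7⟩ - (a : ℤ)) + vecL v i * (z ⟨s', hs7'⟩ - (b : ℤ)) := by ring
        rw [h4]
        exact h3
      have hc1 := List.all_eq_true.1 (List.all_eq_true.1 hcase a (List.mem_range.2 ha)) b
        (List.mem_range.2 hb')
      rcases Bool.or_eq_true_iff.1 hc1 with hc2 | hc2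
      · simp only [Bool.and_eq_true] at hc2
        have ha0 : a = 0 := Nat.eq_of_beq_eq_true hc2.1
        have hb0 : b = 0 := Nat.eq_of_beq_eq_true hc2.2
        intro i
        have h1 := hC2 i
        rw [ha0, hb0] at h1
        simpa using h1
      · exfalso
        refine hfin (addL (sclL a u) (sclL b v)) ?_ ?_ hc2
        · rw [z3_addL_len (by rw [z3_sclL_len, z3_sclL_len, hu7, hv7]), z3_sclL_len, hu7]
        · intro i
          have h1 := hC2 i
          rw [z3_vec_add (by rw [z3_sclL_len, z3_sclL_len, hu7, hv7]), z3_vec_scl, z3_vec_scl]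
          exact h1
    · rw [hs'] at hZs'; simp at hZs'
  · rw [hZ] at hcase
    simp at hcase

/-- Row [RH-Z3]: no fourth power of an odd prime divides `d` -/
theorem no4_sound {d : ℕ} (h : no4 d = true) (hd : 0 < d) {p : ℕ} (hp : p.Prime) (hp2 : p ≠ 2) :
    ¬ p ^ 4 ∣ d := by
  unfold no4 at h
  simp only [Bool.and_eq_true] at h
  obtain ⟨h1, h2⟩ := h
  intro hpd
  obtain ⟨a, -, ha⟩ := List.any_eq_true.1 h2
  simp only [Bool.and_eq_true] at ha
  obtain ⟨ha1, ha2⟩ := ha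
  have ha1' : 2 ^ a * (d / 2 ^ a) = d := Nat.eq_of_beq_eq_true ha1
  have ha2' : d / 2 ^ a < 2560000 := Nat.le_of_ble_eq_true ha2
  have hm0 : 0 < d / 2 ^ a := by
    rcases Nat.eq_zero_or_pos (d / 2 ^ a) with h0 | h0
    · rw [h0] at ha1'; omega
    · exact h0
  have hco : Nat.Coprime (p ^ 4) (2 ^ a) := by
    apply Nat.Coprime.pow
    exact (Nat.coprime_primes hp Nat.prime_two).2 hp2
  have h3 : p ^ 4 ∣ d / 2 ^ a := by
    rw [← ha1'] at hpd
    exact hco.dvd_of_dvd_mul_left hpd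
  have h4 : p ^ 4 ≤ d / 2 ^ a := Nat.le_of_dvd hm0 h3
  have h5 : p < 40 := by
    by_contra hc
    have h6 : 40 ^ 4 ≤ p ^ 4 := Nat.pow_le_pow_left (by omega) 4
    omega
  have h6 := List.all_eq_true.1 h1 p (List.mem_range.2 h5)
  simp only [Bool.or_eq_true] at h6
  rcases h6 with (h6 | h6) | h6
  · have h7 : p < 3 := Nat.le_of_ble_eq_true h6
    have h8 := hp.two_le
    omega
  · have h7 : p % 2 = 0 := Nat.eq_of_beq_eq_true h6
    rcases hp.eq_two_or_odd with h8 | h8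
    · exact hp2 h8
    · omega
  · have h7 : d % p ^ 4 = 0 := Nat.mod_eq_zero_of_dvd hpd
    rw [h7] at h6
    simp at h6

/-- Row [RH-Z3]: soundness of the maximality data.

Proof.  `EvenElem`: `J E' = 2 e₁`, `2e₁` squarefree (`e₁` odd, `sqfB`).  `RS`: directly.
Determinant: `J = s (U ⊥ K)`, `det J = - s^7 det K` (`det_hyp`), `no4_sound`.  `Odd2`: directly
(`E'` symmetric).  Overlattices: `e = 2 e₁`; a prime `p ∣ 2e₁` satisfies `2 ≤ p ≤ 2e₁` and has no
divisor `1 < d < p`, so it occurs in `M.ov`; `ov_sound`. -/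
theorem chkMax_sound {M : MCert} (h : chkMax M = true) :
    MaxData (ofL M.J) (fun k : Fin M.E.length => vecL (M.E.getD k []))
      (fun k => M.b.getD k 0) := by
  unfold chkMax at h
  simp only [Bool.and_eq_true] at h
  obtain ⟨⟨⟨⟨⟨⟨⟨⟨⟨⟨⟨⟨⟨⟨⟨⟨⟨⟨⟨⟨⟨⟨hs12, hpd⟩, hJs⟩, hJe⟩, hdet⟩, hno4⟩, he1⟩, hsq1⟩, hE's⟩, hJE⟩,
    ht7⟩, hodd1⟩, hodd2⟩, hEpos⟩, hblen⟩, hparlen⟩, hE7⟩, hroots⟩, hC7⟩, hCr⟩, hCu⟩, hov⟩,
    hovp⟩ := h
  obtain ⟨h7, hr, hT⟩ := isSym_iff hJs
  obtain ⟨h7', hr', hT'⟩ := isSym_iff hE's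
  have hJE' := mulLL_scal h7 hr hJE h7' hr'
  have he1' : M.e1 % 2 = 1 := Nat.eq_of_beq_eq_true he1
  have hsq1' := z3_sqfB hsq1
  have hE7' : ∀ v ∈ M.E, v.length = 7 := fun v hv =>
    Nat.eq_of_beq_eq_true (List.all_eq_true.1 hE7 v hv)
  have hEk : ∀ k < M.E.length, (M.E.getD k []).length = 7 := fun k hk => hE7' _ (z3_mem_getD hk)
  have hroots' : ∀ k < M.E.length, Squarefree (M.b.getD k 0) ∧
      bZ (ofL M.J) (vecL (M.E.getD k [])) (vecL (M.E.getD k [])) =
        2 * ((M.b.getD k 0 : ℕ) : ℤ) ∧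
      (∀ i, ((M.b.getD k 0 : ℕ) : ℤ) ∣ (ofL M.J *ᵥ vecL (M.E.getD k [])) i) ∧
      (k = 0 ∨ (M.par.getD k 0 < k ∧ bZ (ofL M.J) (vecL (M.E.getD (M.par.getD k 0) []))
        (vecL (M.E.getD k [])) ≠ 0)) := by
    intro k hk
    have h1 := List.all_eq_true.1 hroots k (List.mem_range.2 hk)
    simp only [Bool.and_eq_true, Bool.or_eq_true] at h1
    obtain ⟨h2, ⟨h3, h4⟩, h5⟩ := h1
    refine ⟨z3_sqfB h2, ?_, ?_, ?_⟩
    · rw [← z3_dot_act h7 hr (hEk k hk) (hEk k hk)]
      exact eqI_iff.1 h3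
    · intro i
      rw [← z3_act_vec h7 hr (hEk k hk)]
      exact z3_all_dvd h4 i
    · rcases h5 with h5 | ⟨h5, h6⟩
      · exact Or.inl (Nat.eq_of_beq_eq_true h5)
      · have h7'' : M.par.getD k 0 < k := Nat.le_of_ble_eq_true h5
        refine Or.inr ⟨h7'', ?_⟩
        rw [← z3_dot_act h7 hr (hEk _ (by omega)) (hEk k hk)]
        intro h8
        rw [eqI_iff.2 h8] at h6
        simp at h6
  have hbpos : ∀ k < M.E.length, 0 < M.b.getD k 0 := fun k hk =>
    Nat.pos_of_ne_zero (hroots' k hk).1.ne_zero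
  have hno := no4_sound hno4
  have hs12' : M.s = 1 ∨ M.s = 2 := by
    rcases Bool.or_eq_true_iff.1 hs12 with h1 | h1
    · exact Or.inl (Nat.eq_of_beq_eq_true h1)
    · exact Or.inr (Nat.eq_of_beq_eq_true h1)
  have hspos : 0 < M.s := by omega
  obtain ⟨hd1, hd2⟩ := det_hyp hpd (Nat.eq_of_beq_eq_true hdet)
  have hdJ : (ofL M.J).det = -((M.s ^ 7 * detK M.D M.c M.T : ℕ) : ℤ) := by
    have h1 : ofL M.J = (M.s : ℤ) • ofL (hypL 1 M.K) := by
      ext i j
      show (((hypL 1 M.K).map (sclL M.s)).getD i []).getD j 0 =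
        (M.s : ℤ) * ((hypL 1 M.K).getD i []).getD j 0
      rw [z3_getD_map, z3_sclL_get]
    rw [h1, det_smul, hd1]
    push_cast
    simp
  refine ⟨⟨hT, z3_evenB hJe, 2 * M.e1, ?_, ofL M.E', ?_⟩, ⟨?_, ?_, ?_, ?_, ?_⟩, ?_, ?_, ?_, ?_⟩
  · rw [Nat.squarefree_mul (by
      rw [Nat.coprime_two_left]
      exact Nat.odd_iff.2 he1')]
    exact ⟨Nat.prime_two.prime.squarefree, hsq1'⟩
  · rw [hJE']
    push_cast
    rfl
  · exact fun k => (hroots' k k.2).2.1
  · exact fun k => (hroots' k k.2).1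
  · exact fun k => (hroots' k k.2).2.2.1
  · refine ⟨Matrix.of fun i k => (M.C.getD i []).getD k 0, fun i => ?_⟩
    have hi : (i : ℕ) < M.C.length := by rw [Nat.eq_of_beq_eq_true hC7]; exact i.2
    have h1 := eqL_iff.1 (List.all_eq_true.1 hCu i (List.mem_range.2 i.2))
    have h2 := Nat.eq_of_beq_eq_true (List.all_eq_true.1 hCr _ (z3_mem_getD hi))
    have h3 := z3_combL_sum M.E (M.C.getD i []) h2 hE7'
    rw [h1, z3_unit_vec] at h3
    rw [h3]
    rfl
  · intro k hk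
    rcases (hroots' k k.2).2.2.2 with h1 | ⟨h1, h2⟩
    · omega
    · refine ⟨⟨M.par.getD k 0, by omega⟩, h1, ?_⟩
      rw [z3_bZ_symm hT]
      exact h2
  · rw [hdJ]
    have h1 : 0 < M.s ^ 7 * detK M.D M.c M.T := by positivity
    have h2 : (0 : ℤ) < ((M.s ^ 7 * detK M.D M.c M.T : ℕ) : ℤ) := by exact_mod_cast h1
    omega
  · intro p hp hp2 hpd'
    rw [hdJ, dvd_neg] at hpd'
    have h1 : p ^ 4 ∣ M.s ^ 7 * detK M.D M.c M.T := by exact_mod_cast hpd'
    exact hno (by positivity) hp hp2 h1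
  · refine ⟨M.e1, ofL M.E', vecL M.t, Nat.odd_iff.2 he1', ?_, hT', ?_, ?_⟩
    · rw [hJE']
    · intro i
      have hi : (i : ℕ) < M.E'.length := by rw [h7']; exact i.2
      have h1 := eqI_iff.1 (List.all_eq_true.1 hodd1 i (List.mem_range.2 i.2))
      rw [dotL_eq (hr' _ (z3_mem_getD hi)) (Nat.eq_of_beq_eq_true ht7)] at h1
      exact Int.even_iff.2 h1
    · have h1 := eqI_iff.1 hodd2
      rw [z3_dot_act h7' hr' (Nat.eq_of_beq_eq_true ht7) (Nat.eq_of_beq_eq_true ht7)] at h1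
      exact Int.odd_iff.2 h1
  · refine ⟨2 * (M.e1 : ℤ), ofL M.E', by omega, hJE', ?_⟩
    intro p hp hpe
    have hpe' : p ∣ 2 * M.e1 := by exact_mod_cast hpe
    have h1 : p ≤ 2 * M.e1 := Nat.le_of_dvd (by omega) hpe'
    have h2 := List.all_eq_true.1 hovp p (List.mem_range.2 (by omega))
    simp only [Bool.or_eq_true] at h2
    rcases h2 with ((h3 | h3) | h3) | h3
    · have h4 : p < 2 := Nat.le_of_ble_eq_true h3
      have := hp.two_le
      omega
    · rw [Nat.mod_eq_zero_of_dvd hpe'] at h3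
      simp at h3
    · obtain ⟨o, ho, hop⟩ := List.any_eq_true.1 h3
      have hop' : o.p = p := Nat.eq_of_beq_eq_true hop
      rw [← hop']
      exact ov_sound (List.all_eq_true.1 hov o ho) hJs hJe hbpos hE7'
        (fun k hk => (hroots' k hk).2.2.1)
    · obtain ⟨d, hd, hd'⟩ := List.any_eq_true.1 h3
      simp only [Bool.and_eq_true] at hd'
      have hd1' : 1 < d := Nat.le_of_ble_eq_true hd'.1
      have hd2' : p % d = 0 := Nat.eq_of_beq_eq_true hd'.2
      have hd3 : d < p := List.mem_range.1 hd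
      rcases (Nat.dvd_prime hp).1 (Nat.dvd_of_mod_eq_zero hd2') with h4 | h4 <;> omega

end RH6
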