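import Pool.Agent.RH6.ZDef
import Pool.Agent.RH6.U1

open Matrix

namespace RH6

theorem z4_dotL (k : ℕ) : ∀ x y : List ℤ, x.length = k → y.length = k →
    dotL x y = ∑ a ∈ Finset.range k, x.getD a 0 * y.getD a 0 := by
  induction k with
  | zero =>
    intro x y hx hy
    rw [List.length_eq_zero_iff.1 hx, Finset.range_zero, Finset.sum_empty]
    rfl
  | succ k ih =>
    intro x y hx hy
    rcases x with _ | ⟨a, x⟩
    · exact absurd hx (by simp)
    rcases y with _ | ⟨b, y⟩
    · exact absurd hy (by simp)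
    rw [Finset.sum_range_succ', ← show dotL x y = ∑ a_1 ∈ Finset.range k,
      (a :: x).getD (a_1 + 1) 0 * (b :: y).getD (a_1 + 1) 0 from
        ih x y (by simpa using hx) (by simpa using hy)]
    show a * b + dotL x y = dotL x y + a * b
    ring

theorem z4_prod (k : ℕ) : ∀ x : List ℤ, x.length = k → x.prod = ∏ a ∈ Finset.range k, x.getD a 0 := by
  induction k with
  | zero =>
    intro x hx
    rw [List.length_eq_zero_iff.1 hx, Finset.range_zero, Finset.prod_empty, List.prod_nil]
  | succ k ih =>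
    intro x hx
    rcases x with _ | ⟨a, x⟩
    · exact absurd hx (by simp)
    rw [Finset.prod_range_succ', ← show x.prod = ∏ a_1 ∈ Finset.range k,
      (a :: x).getD (a_1 + 1) 0 from ih x (by simpa using hx), List.prod_cons]
    show a * x.prod = x.prod * a
    ring

theorem z4_getD_map {α : Type*} (f : α → ℤ) (l : List α) (d : α) (hf : f d = 0) (n : ℕ) :
    (l.map f).getD n 0 = f (l.getD n d) := by
  rw [← hf]
  exact List.getD_map l d f

theorem z4_length {l : List (List ℤ)} (h : (l.all fun r => Nat.beq r.length 7) = true) {n : ℕ}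
    (hn : n < l.length) : (l.getD n []).length = 7 := by
  rw [List.all_eq_true] at h
  have h1 : l.getD n [] ∈ l := by
    rw [List.getD_eq_getElem _ _ hn]
    exact List.getElem_mem hn
  exact Nat.eq_of_beq_eq_true (h _ h1)

/-- Row [RH-Z4]: non-isometry.

Proof.  Suppose `Uᵀ J U = J'`.  Modulo `p`: `J ≡ Wᵀ Δ W`, `Δ = diag(d)` (`k × k`, `k = W.length`), and
with the `7 × k` matrix `V` whose columns are the vectors of `C.V`:
`Δ' = diag(d') ≡ Vᵀ J' V = (UV)ᵀ J (UV) ≡ (WUV)ᵀ Δ (WUV)`.  Determinants in `ZMod p`: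
`∏ d' = ∏ d · det(WUV)²`, so `∏ d ∏ d' = (∏ d · det(WUV))²` is a square mod `p`, contradiction to the
last check. -/
theorem chkPair_sound {J J' : List (List ℤ)} {C : PCert} (h : chkPair J J' C = true) :
    ¬ ∃ U : Matrix (Fin 7) (Fin 7) ℤ, Uᵀ * ofL J * U = ofL J' := by
  rintro ⟨U, hU⟩
  unfold chkPair at h
  simp only [Bool.and_eq_true, Bool.or_eq_true] at h
  obtain ⟨⟨⟨⟨⟨⟨⟨⟨⟨⟨hp, hJ⟩, hJ'⟩, hd⟩, hd'⟩, hVl⟩, hW7⟩, hV7⟩, h4⟩, h5⟩, h6⟩ := h
  have hp' : C.p = 3 ∨ C.p = 5 := by
    rcases hp with h1 | h1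
    · exact Or.inl (Nat.eq_of_beq_eq_true h1)
    · exact Or.inr (Nat.eq_of_beq_eq_true h1)
  have hp0 : NeZero C.p := ⟨by omega⟩
  obtain ⟨hJl, hJr, -⟩ := isSym_iff hJ
  obtain ⟨hJl', hJr', -⟩ := isSym_iff hJ'
  have hd1 := Nat.eq_of_beq_eq_true hd
  have hd2 := Nat.eq_of_beq_eq_true hd'
  have hV1 := Nat.eq_of_beq_eq_true hVl
  obtain ⟨k, hk⟩ : ∃ k, C.W.length = k := ⟨_, rfl⟩
  rw [hk] at hd1 hd2 hV1 h5
  set φ : ℤ →+* ZMod C.p := Int.castRingHom (ZMod C.p) with hφ
  have hz : ∀ n : ℤ, n % (C.p : ℤ) = 0 → φ n = 0 := by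
    intro n hn
    exact (ZMod.intCast_zmod_eq_zero_iff_dvd n C.p).2 (Int.dvd_of_emod_eq_zero hn)
  let W : Matrix (Fin k) (Fin 7) ℤ := fun a i => (C.W.getD a []).getD i 0
  let V : Matrix (Fin 7) (Fin k) ℤ := fun i a => (C.V.getD a []).getD i 0
  have e1 : (ofL J).map φ = (W.map φ)ᵀ * diagonal (fun a : Fin k => φ (C.d.getD a 0)) * W.map φ := by
    ext i j
    rw [List.all_eq_true] at h4
    have h7 := h4 i.val (List.mem_range.2 i.2)
    rw [List.all_eq_true] at h7
    have h8 := eqI_iff.1 (h7 j.val (List.mem_range.2 j.2))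
    have h9 := hz _ h8
    rw [map_sub, sub_eq_zero, z4_dotL k _ _ hd1 (by rw [List.length_map, hk])] at h9
    show φ ((J.getD i.val []).getD j.val 0) = _
    rw [h9, map_sum, Finset.sum_range, Matrix.mul_apply]
    refine Finset.sum_congr rfl fun a _ => ?_
    rw [Matrix.mul_diagonal, z4_getD_map (fun r : List ℤ => r.getD i.val 0 * r.getD j.val 0) C.W []
      (by simp) a.val, map_mul, map_mul]
    show φ (C.d.getD a.val 0) * (φ ((C.W.getD a.val []).getD i.val 0) *
      φ ((C.W.getD a.val []).getD j.val 0)) = φ ((C.W.getD a.val []).getD i.val 0) *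
        φ (C.d.getD a.val 0) * φ ((C.W.getD a.val []).getD j.val 0)
    ring
  have e2 : (V.map φ)ᵀ * (ofL J').map φ * V.map φ = diagonal (fun a : Fin k => φ (C.d'.getD a 0)) := by
    ext a b
    rw [List.all_eq_true] at h5
    have h7 := h5 a.val (List.mem_range.2 a.2)
    rw [List.all_eq_true] at h7
    have h8 := eqI_iff.1 (h7 b.val (List.mem_range.2 b.2))
    have h9 := hz _ h8
    rw [map_sub, sub_eq_zero] at h9
    have l1 : (C.V.getD a.val []).length = 7 := z4_length hV7 (by rw [hV1]; exact a.2)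
    have l2 : (C.V.getD b.val []).length = 7 := z4_length hV7 (by rw [hV1]; exact b.2)
    have e3 : φ (dotL (C.V.getD a.val []) (actL J' (C.V.getD b.val []))) =
        ((V.map φ)ᵀ * (ofL J').map φ * V.map φ) a b := by
      rw [dotL_eq l1 (by rw [actL, List.length_map, hJl']), Matrix.mul_assoc, Matrix.mul_apply,
        dotProduct, map_sum]
      refine Finset.sum_congr rfl fun i _ => ?_
      rw [map_mul, Matrix.mul_apply]
      have e4 : vecL (actL J' (C.V.getD b.val [])) i = ∑ j : Fin 7, ofL J' i j * V j b := by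
        show (actL J' (C.V.getD b.val [])).getD i.val 0 = _
        rw [actL, z4_getD_map (fun r => dotL r (C.V.getD b.val [])) J' [] rfl i.val,
          dotL_eq (hJr' _ ?_) l2]
        · rfl
        · rw [List.getD_eq_getElem _ _ (by rw [hJl']; exact i.2)]
          exact List.getElem_mem _
      rw [e4, map_sum]
      congr 1
      refine Finset.sum_congr rfl fun j _ => ?_
      rw [map_mul]
      rfl
    rw [← e3, h9, Matrix.diagonal_apply]
    by_cases hab : a = b
    · rw [if_pos hab, hab]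
      have : Nat.beq b.val b.val = true := Nat.beq_refl _
      rw [this]
      rfl
    · rw [if_neg hab]
      have : Nat.beq a.val b.val = false := by
        rw [Bool.eq_false_iff]
        intro h10
        exact hab (Fin.ext (Nat.eq_of_beq_eq_true h10))
      rw [this]
      exact map_zero φ
  have e5 : (ofL J').map φ = (U.map φ)ᵀ * (ofL J).map φ * U.map φ := by
    rw [← hU, Matrix.map_mul, Matrix.map_mul, Matrix.transpose_map]
  set N : Matrix (Fin k) (Fin k) (ZMod C.p) := W.map φ * U.map φ * V.map φ with hN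
  have e6 : Nᵀ * diagonal (fun a : Fin k => φ (C.d.getD a 0)) * N =
      diagonal (fun a : Fin k => φ (C.d'.getD a 0)) := by
    rw [← e2, e5, e1, hN, Matrix.transpose_mul, Matrix.transpose_mul]
    simp only [Matrix.mul_assoc]
  have e7 := congrArg Matrix.det e6
  rw [Matrix.det_mul, Matrix.det_mul, Matrix.det_transpose, Matrix.det_diagonal,
    Matrix.det_diagonal] at e7
  have p1 : φ C.d.prod = ∏ a : Fin k, φ (C.d.getD a 0) := by
    rw [z4_prod k _ hd1, map_prod, Finset.prod_range]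
  have p2 : φ C.d'.prod = ∏ a : Fin k, φ (C.d'.getD a 0) := by
    rw [z4_prod k _ hd2, map_prod, Finset.prod_range]
  rw [← p1, ← p2] at e7
  rw [List.all_eq_true] at h6
  have h7 := h6 (φ C.d.prod * N.det).val (List.mem_range.2 (ZMod.val_lt _))
  have h8 : φ (C.d.prod * C.d'.prod - ((φ C.d.prod * N.det).val : ℤ) * (φ C.d.prod * N.det).val) = 0 := by
    rw [map_sub, map_mul, map_mul, ← e7]
    have h9 : φ (((φ C.d.prod * N.det).val : ℕ) : ℤ) = φ C.d.prod * N.det := by
      show ((((φ C.d.prod * N.det).val : ℕ) : ℤ) : ZMod C.p) = _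
      rw [Int.cast_natCast, ZMod.natCast_zmod_val]
    rw [h9]
    ring
  have h9 : (C.p : ℤ) ∣ C.d.prod * C.d'.prod -
      ((φ C.d.prod * N.det).val : ℤ) * (φ C.d.prod * N.det).val :=
    (ZMod.intCast_zmod_eq_zero_iff_dvd _ C.p).1 h8
  have h10 := eqI_iff.2 (Int.emod_eq_zero_of_dvd h9)
  rw [h10] at h7
  exact absurd h7 (by decide)

end RH6
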