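import Pool.Agent.RH6.GDef
import Pool.Agent.RH6.Z2
import Pool.Agent.RH6.Z3
import Pool.Agent.RH6.Z4
import Pool.Agent.RH6.KDat

open Matrix

namespace RH6

/-! Assembly of the data of one lattice. -/

open P in
theorem fin_of {D : PD} {hc : ℕ} {ρ : List ℤ} (h : polyOK D hc ρ = true)
    (hv : ∀ j < D.m, ∃ c, vertOK D j c = true) {K : List (List ℤ)} {d : ℕ} {c : List ℕ}
    {T : List (List ℤ)} (hp : pdB K d c T = true) (hs : isSym (hypL 1 K) = true)
    (hG : D.G = hypL 1 K) :
    (WG (ofL (hypL 1 K))).relIndex (OG (ofL (hypL 1 K)) (vecL hU)) ≠ 0 := by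
  rw [← hG]
  refine poly_sound h hv ?_
  rw [hG]
  exact lor_hyp hp hs

open P in
theorem verts_of {D : PD} {cs : List Vc} (h : vertsOK D 0 cs = true) (hm : D.m ≤ cs.length) :
    ∀ j < D.m, ∃ c, vertOK D j c = true := fun j hj =>
  verts_range h j (Nat.zero_le j) (by omega)

theorem ofL_scl (s : ℤ) (L : List (List ℤ)) : ofL (L.map (sclL s)) = s • ofL L := by
  ext i j
  simp only [ofL, Matrix.smul_apply, smul_eq_mul]
  rcases lt_or_ge (i : ℕ) L.length with h | h
  · have h' : (i : ℕ) < (L.map (sclL s)).length := by rw [List.length_map]; exact h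
    rw [List.getD_eq_getElem _ _ h', List.getElem_map, List.getD_eq_getElem _ _ h]
    exact (u1_sclL s _).2 _
  · have h' : (L.map (sclL s)).length ≤ (i : ℕ) := by rw [List.length_map]; exact h
    rw [List.getD_eq_default _ _ h', List.getD_eq_default _ _ h]
    simp

theorem mcertJ (M : MCert) : ofL M.J = (M.s : ℤ) • ofL (hypL 1 M.K) := ofL_scl _ _

theorem maxData_of {M : MCert} (h : chkMax M = true) :
    MaxData ((M.s : ℤ) • ofL (hypL 1 M.K)) (fun k : Fin M.E.length => vecL (M.E.getD k []))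
      (fun k => M.b.getD k 0) := by
  rw [← mcertJ]
  exact chkMax_sound h

theorem refData_of {M : MCert} (h : chkMax M = true) (hs : M.s = 1 ∨ M.s = 2)
    (hp : pdB M.K M.D M.c M.T = true) (hsym : isSym (hypL 1 M.K) = true)
    (hfin : (WG (ofL (hypL 1 M.K))).relIndex (OG (ofL (hypL 1 M.K)) (vecL hU)) ≠ 0) :
    RefData M.K where
  pd := ⟨_, _, _, hp⟩
  sym := hsym
  fin := hfin
  max := ⟨M.s, _, _, _, hs, maxData_of h⟩

/-- absolute value of the determinant of `s (U ⊥ K)` -/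
def dS (M : MCert) : ℕ := M.s ^ 7 * detK M.D M.c M.T

theorem det_dS {M : MCert} (hp : pdB M.K M.D M.c M.T = true)
    (hd : detK M.D M.c M.T * M.D ^ 5 =
      M.c.prod * (((List.range 5).map fun i => ((M.T.getD i []).getD i 0).natAbs).prod) ^ 2) :
    ((M.s : ℤ) • ofL (hypL 1 M.K)).det = -(dS M : ℤ) ∧ (M.s ≠ 0 → 0 < dS M) := by
  obtain ⟨h1, h2⟩ := det_hyp hp hd
  refine ⟨?_, fun hs => ?_⟩
  · rw [Matrix.det_smul, h1, dS]
    simp
  · exact Nat.mul_pos (pow_pos (Nat.pos_of_ne_zero hs) _) h2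

/-- integral matrices in both directions: equal determinants -/
theorem det_eq_of {A B U V : Matrix (Fin 7) (Fin 7) ℤ} {a b : ℕ} (hA : A.det = -(a : ℤ))
    (hB : B.det = -(b : ℤ)) (ha : 0 < a) (hb : 0 < b) (h1 : Uᵀ * A * U = B)
    (h2 : Vᵀ * B * V = A) : a = b := by
  have e1 : U.det ^ 2 * (a : ℤ) = b := by
    have := congrArg Matrix.det h1
    rw [Matrix.det_mul, Matrix.det_mul, Matrix.det_transpose, hA, hB] at this
    linarith [this]
  have e2 : V.det ^ 2 * (b : ℤ) = a := by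
    have := congrArg Matrix.det h2
    rw [Matrix.det_mul, Matrix.det_mul, Matrix.det_transpose, hA, hB] at this
    linarith [this]
  have d1 : (a : ℤ) ∣ b := ⟨U.det ^ 2, by rw [← e1]; ring⟩
  have d2 : (b : ℤ) ∣ a := ⟨V.det ^ 2, by rw [← e2]; ring⟩
  exact Nat.dvd_antisymm (by exact_mod_cast d1) (by exact_mod_cast d2)

/-- data for the equivalence of the two forms of a lattice -/
def hqB (J K E E' : List (List ℤ)) (e : ℕ) : Bool :=
  eqLL J (hypL 1 K) || (twoB E E' e && eqLL J (hypL 2 E) && eqLL K (E.map (sclL 2)))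

end RH6
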