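import Pool.Agent.RH6.MC0
import Pool.Agent.RH6.MC1
import Pool.Agent.RH6.MC2
import Pool.Agent.RH6.MC3
import Pool.Agent.RH6.MC4
import Pool.Agent.RH6.MC5
import Pool.Agent.RH6.ZH

namespace RH6.MC

def Ms : List MCert := [m0, m1, m2, m3, m4, m5, m6, m7, m8, m9, m10, m11, m12, m13, m14, m15, m16, m17, m18, m19, m20, m21, m22, m23, m24, m25, m26, m27, m28, m29, m30, m31, m32, m33, m34, m35, m36]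

theorem Ms_ok : ∀ M ∈ Ms, chkMax M = true :=
  List.forall_mem_cons.2 ⟨m0_ok, 
  List.forall_mem_cons.2 ⟨m1_ok, 
  List.forall_mem_cons.2 ⟨m2_ok, 
  List.forall_mem_cons.2 ⟨m3_ok, 
  List.forall_mem_cons.2 ⟨m4_ok, 
  List.forall_mem_cons.2 ⟨m5_ok, 
  List.forall_mem_cons.2 ⟨m6_ok, 
  List.forall_mem_cons.2 ⟨m7_ok, 
  List.forall_mem_cons.2 ⟨m8_ok, 
  List.forall_mem_cons.2 ⟨m9_ok, 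
  List.forall_mem_cons.2 ⟨m10_ok, 
  List.forall_mem_cons.2 ⟨m11_ok, 
  List.forall_mem_cons.2 ⟨m12_ok, 
  List.forall_mem_cons.2 ⟨m13_ok, 
  List.forall_mem_cons.2 ⟨m14_ok, 
  List.forall_mem_cons.2 ⟨m15_ok, 
  List.forall_mem_cons.2 ⟨m16_ok, 
  List.forall_mem_cons.2 ⟨m17_ok, 
  List.forall_mem_cons.2 ⟨m18_ok, 
  List.forall_mem_cons.2 ⟨m19_ok, 
  List.forall_mem_cons.2 ⟨m20_ok, 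
  List.forall_mem_cons.2 ⟨m21_ok, 
  List.forall_mem_cons.2 ⟨m22_ok, 
  List.forall_mem_cons.2 ⟨m23_ok, 
  List.forall_mem_cons.2 ⟨m24_ok, 
  List.forall_mem_cons.2 ⟨m25_ok, 
  List.forall_mem_cons.2 ⟨m26_ok, 
  List.forall_mem_cons.2 ⟨m27_ok, 
  List.forall_mem_cons.2 ⟨m28_ok, 
  List.forall_mem_cons.2 ⟨m29_ok, 
  List.forall_mem_cons.2 ⟨m30_ok, 
  List.forall_mem_cons.2 ⟨m31_ok, 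
  List.forall_mem_cons.2 ⟨m32_ok, 
  List.forall_mem_cons.2 ⟨m33_ok, 
  List.forall_mem_cons.2 ⟨m34_ok, 
  List.forall_mem_cons.2 ⟨m35_ok, 
  List.forall_mem_cons.2 ⟨m36_ok, fun _ h => absurd h List.not_mem_nil⟩⟩⟩⟩⟩⟩⟩⟩⟩⟩⟩⟩⟩⟩⟩⟩⟩⟩⟩⟩⟩⟩⟩⟩⟩⟩⟩⟩⟩⟩⟩⟩⟩⟩⟩⟩⟩

/-- the remaining simple checks -/
def simpB (M : MCert) : Bool :=
  (Nat.beq M.s 1 || Nat.beq M.s 2) && pdB M.K M.D M.c M.T && isSym (hypL 1 M.K) &&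
  Nat.beq (detK M.D M.c M.T * M.D ^ 5)
    (M.c.prod * (((List.range 5).map fun i => ((M.T.getD i []).getD i 0).natAbs).prod) ^ 2)

theorem Ms_simp : Ms.all simpB = true := by decide +kernel

theorem Ms_K : (Ms.map fun M => M.K) = Ks.take 37 := by decide +kernel

/-- data showing that `K_37, …, K_43` are positive definite -/
def PDs : List (ℕ × List ℕ × List (List ℤ)) := [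
  (2, [1, 3, 2, 2, 30], [[2, 1, 0, 0, 0], [0, 1, 0, 0, 0], [0, 0, 1, 0, 0], [0, 0, 0, 1, 0], [0, 0, 0, 0, 1]]),
  (2, [1, 3, 6, 6, 10], [[2, 1, 0, 0, 0], [0, 1, 0, 0, 0], [0, 0, 1, 0, 0], [0, 0, 0, 1, 0], [0, 0, 0, 0, 1]]),
  (1, [1, 1, 1, 1, 15], [[1, 0, 0, 0, 0], [0, 1, 0, 0, 0], [0, 0, 1, 0, 0], [0, 0, 0, 1, 0], [0, 0, 0, 0, 1]]),
  (2, [1, 3, 4, 4, 20], [[2, 1, 0, 0, 0], [0, 1, 0, 0, 0], [0, 0, 1, 0, 0], [0, 0, 0, 1, 0], [0, 0, 0, 0, 1]]),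
  (1, [2, 2, 2, 6, 10], [[1, 0, 0, 0, 0], [0, 1, 0, 0, 0], [0, 0, 1, 0, 0], [0, 0, 0, 1, 0], [0, 0, 0, 0, 1]]),
  (2, [1, 5, 2, 10, 10], [[2, 1, 0, 0, 0], [0, 1, 0, 0, 0], [0, 0, 1, 0, 0], [0, 0, 0, 1, 0], [0, 0, 0, 0, 1]]),
  (1, [2, 2, 2, 2, 14], [[1, 0, 0, 0, 0], [0, 1, 0, 0, 0], [0, 0, 1, 0, 0], [0, 0, 0, 1, 0], [0, 0, 0, 0, 1]])]

theorem PDs_ok : ((List.range 7).all fun i => isSym (hypL 1 (Ks.getD (37 + i) [])) &&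
    pdB (Ks.getD (37 + i) []) (PDs.getD i (0, [], [])).1 (PDs.getD i (0, [], [])).2.1
      (PDs.getD i (0, [], [])).2.2) = true := by decide +kernel

/-- pairs with the same determinant -/
def PL : List (ℕ × ℕ × PCert) := [
  (3, 7, ⟨3, [[0, 0, 1, 2, 0, 0, 0], [0, 0, 0, 0, 1, 2, 0], [0, 0, 0, 0, 0, 0, 1], [2, 2, 0, 0, 0, 0, 0], [1, 2, 0, 0, 0, 0, 0]], [2, 1, 2, 2, 1], [[0, 0, 1, 0, 0, 0, 0], [0, 0, 0, 0, 1, 0, 0], [0, 0, 0, 0, 0, 1, 0], [1, 1, 0, 0, 0, 0, 0], [2, 1, 0, 0, 0, 0, 0]], [2, 2, 2, 2, 1]⟩),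
  (4, 8, ⟨3, [[0, 0, 1, 2, 0, 0, 0], [0, 0, 0, 0, 1, 0, 0], [0, 0, 0, 0, 0, 1, 0], [2, 2, 0, 0, 0, 0, 0], [1, 2, 0, 0, 0, 0, 0]], [1, 2, 2, 2, 1], [[0, 0, 1, 0, 0, 0, 0], [0, 0, 0, 1, 0, 0, 0], [0, 0, 0, 0, 1, 0, 0], [1, 1, 0, 0, 0, 0, 0], [2, 1, 0, 0, 0, 0, 0]], [2, 2, 2, 2, 1]⟩),
  (5, 9, ⟨3, [[0, 0, 1, 2, 0, 0, 0], [0, 0, 0, 0, 1, 0, 0], [0, 0, 0, 0, 0, 1, 0], [2, 2, 0, 0, 0, 0, 0], [1, 2, 0, 0, 0, 0, 0]], [1, 2, 2, 1, 2], [[0, 0, 1, 0, 0, 0, 0], [0, 0, 0, 1, 0, 0, 0], [0, 0, 0, 0, 1, 0, 0], [1, 1, 0, 0, 0, 0, 0], [2, 1, 0, 0, 0, 0, 0]], [2, 2, 2, 1, 2]⟩),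
  (10, 14, ⟨3, [[0, 0, 1, 2, 0, 0, 0], [0, 0, 0, 0, 1, 2, 0], [2, 2, 0, 0, 0, 0, 0], [1, 2, 0, 0, 0, 0, 0]], [2, 1, 2, 1], [[0, 0, 1, 0, 0, 0, 0], [0, 0, 0, 0, 1, 0, 0], [1, 1, 0, 0, 0, 0, 0], [2, 1, 0, 0, 0, 0, 0]], [2, 2, 2, 1]⟩),
  (11, 15, ⟨3, [[0, 0, 1, 2, 0, 0, 0], [0, 0, 0, 0, 1, 0, 0], [2, 2, 0, 0, 0, 0, 0], [1, 2, 0, 0, 0, 0, 0]], [1, 2, 2, 1], [[0, 0, 1, 0, 0, 0, 0], [0, 0, 0, 1, 0, 0, 0], [1, 1, 0, 0, 0, 0, 0], [2, 1, 0, 0, 0, 0, 0]], [2, 2, 2, 1]⟩),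
  (12, 16, ⟨3, [[0, 0, 1, 2, 0, 0, 0], [0, 0, 0, 0, 1, 0, 0], [2, 2, 0, 0, 0, 0, 0], [1, 2, 0, 0, 0, 0, 0]], [1, 2, 1, 2], [[0, 0, 1, 0, 0, 0, 0], [0, 0, 0, 1, 0, 0, 0], [1, 1, 0, 0, 0, 0, 0], [2, 1, 0, 0, 0, 0, 0]], [2, 2, 1, 2]⟩),
  (17, 21, ⟨3, [[0, 0, 1, 2, 0, 0, 0], [0, 0, 0, 0, 1, 0, 0], [0, 0, 0, 0, 0, 1, 0], [0, 0, 0, 0, 0, 0, 1], [2, 2, 0, 0, 0, 0, 0], [1, 2, 0, 0, 0, 0, 0]], [2, 2, 2, 2, 2, 1], [[0, 0, 1, 0, 0, 0, 0], [0, 0, 0, 0, 1, 0, 0], [0, 0, 1, 1, 1, 0, 0], [0, 0, 0, 0, 0, 0, 1], [1, 1, 0, 0, 0, 0, 0], [2, 1, 0, 0, 0, 0, 0]], [2, 2, 1, 2, 2, 1]⟩),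
  (18, 22, ⟨3, [[0, 0, 1, 0, 0, 0, 0], [0, 0, 0, 1, 0, 0, 0], [0, 0, 0, 0, 1, 0, 0], [0, 0, 0, 0, 0, 1, 0], [2, 2, 0, 0, 0, 0, 0], [1, 2, 0, 0, 0, 0, 0]], [2, 2, 2, 2, 2, 1], [[0, 0, 1, 0, 0, 0, 0], [0, 0, 0, 0, 1, 0, 0], [0, 0, 0, 0, 0, 1, 0], [0, 0, 0, 0, 0, 0, 1], [1, 1, 0, 0, 0, 0, 0], [2, 1, 0, 0, 0, 0, 0]], [1, 2, 2, 2, 2, 1]⟩),
  (19, 23, ⟨3, [[0, 0, 1, 0, 0, 0, 0], [0, 0, 0, 1, 0, 0, 0], [0, 0, 0, 0, 1, 0, 0], [0, 0, 0, 0, 0, 1, 0], [2, 2, 0, 0, 0, 0, 0], [1, 2, 0, 0, 0, 0, 0]], [2, 2, 2, 2, 1, 2], [[0, 0, 1, 0, 0, 0, 0], [0, 0, 0, 0, 1, 0, 0], [0, 0, 0, 0, 0, 1, 0], [0, 0, 0, 0, 0, 0, 1], [1, 1, 0, 0, 0, 0, 0], [2, 1, 0, 0, 0, 0, 0]], [1, 2, 2, 2, 1, 2]⟩),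
  (25, 27, ⟨5, [[0, 0, 1, 0, 0, 0, 0], [0, 0, 0, 1, 0, 0, 0], [0, 0, 0, 0, 1, 0, 0], [3, 3, 0, 0, 0, 0, 0], [1, 4, 0, 0, 0, 0, 0]], [2, 2, 2, 4, 4], [[0, 0, 1, 0, 0, 0, 0], [0, 0, 0, 0, 1, 0, 0], [0, 0, 0, 0, 0, 1, 0], [1, 1, 0, 0, 0, 0, 0], [3, 2, 0, 0, 0, 0, 0]], [4, 2, 2, 4, 4]⟩),
  (32, 34, ⟨5, [[0, 0, 1, 0, 0, 0, 0], [0, 0, 0, 1, 0, 0, 0], [0, 0, 0, 0, 1, 0, 0], [0, 0, 0, 0, 0, 1, 0], [3, 3, 0, 0, 0, 0, 0], [1, 4, 0, 0, 0, 0, 0]], [2, 2, 2, 2, 4, 4], [[0, 0, 1, 0, 0, 0, 0], [0, 0, 0, 0, 1, 0, 0], [0, 0, 0, 0, 0, 1, 0], [0, 0, 0, 0, 0, 0, 1], [1, 1, 0, 0, 0, 0, 0], [3, 2, 0, 0, 0, 0, 0]], [4, 2, 2, 2, 4, 4]⟩)]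

def MM (i : ℕ) : MCert := Ms.getD i ⟨0, [], 0, [], [], [], [], [], [], 0, [], [], []⟩

theorem PL_ok : (PL.all fun p => chkPair (MM p.1).J (MM p.2.1).J p.2.2) = true := by
  decide +kernel

/-- all determinants, and the pairs with equal determinants -/
theorem PL_all : ((List.range 37).all fun i => (List.range 37).all fun j =>
    Nat.beq i j || !Nat.beq (dS (MM i)) (dS (MM j)) ||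
    PL.any (fun p => (Nat.beq p.1 i && Nat.beq p.2.1 j) || (Nat.beq p.1 j && Nat.beq p.2.1 i))) =
    true := by decide +kernel

end RH6.MC
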