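import Pool.Agent.RH6.YDef

/-! An infinite order symmetry of a chamber, `L2:6-_3:4-_5:6-`. -/

namespace RH6.NR

def sc38 : SCert :=
  ⟨[[0, 1, 0, 0, 0, 0, 0], [1, 0, 0, 0, 0, 0, 0], [0, 0, 2, 1, 0, 0, 0], [0, 0, 1, 2, 0, 0, 0], [0, 0, 0, 0, 3, 0, 0], [0, 0, 0, 0, 0, 3, 0], [0, 0, 0, 0, 0, 0, 5]], 15,
   [[0, 15, 0, 0, 0, 0, 0], [15, 0, 0, 0, 0, 0, 0], [0, 0, 10, -5, 0, 0, 0], [0, 0, -5, 10, 0, 0, 0], [0, 0, 0, 0, 5, 0, 0], [0, 0, 0, 0, 0, 5, 0], [0, 0, 0, 0, 0, 0, 3]],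
   [3, -2, 1, 0, 1, 1, 0], [8, -2, 1, 0, 1, 1, 2], [0, 0, -1, 1, 0, -1, 1], [7, -4, 1, 1, 2, 1, 3],
   [[1, 0, 1, 0, 0, 0, 0], [3, 0, 0, 0, 1, 1, 0], [0, 0, 0, 0, -1, 1, 0], [0, 0, -1, 2, 0, 0, 0], [1, -2, 1, 0, 1, 1, 1]], 90, [45, 15, 15, 15, 10], 2, 7, 2,
   18, [-10, 8, -9, -9, -9, 9, 2], 2, [0, 2, -1, -1, -1, 1, 2],
   [⟨1, [[2, 2, 0, 6, 6, 0, 2], [0, 10, 0, 6, 0, 6, 14], [0, 0, 2, 6, 6, 6, 0], [0, 0, 0, 12, 0, 0, 0], [0, 0, 0, 0, 12, 0, 0], [0, 0, 0, 0, 0, 12, 0], [0, 0, 0, 0, 0, 0, 18]],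
     [[0, 0, 0, 0, 0, 0, 0], [0, 0, 0, 0, 0, 0, 0], [0, 0, 0, 0, 0, 0, 0], [0, 0, 0, 0, 0, 0, 0], [0, 0, 0, 0, 0, 0, 0], [0, 0, 0, 0, 0, 0, 0], [0, 0, 0, 0, 0, 0, 0]],
     [[-2, 3, 2, 1, 3, 3, 0], [0, 1, 0, 0, 0, 0, 2], [0, 1, 2, 1, 0, 0, 0], [1, -2, -2, -1, -1, -1, -1], [1, -2, -2, -1, -2, -1, 0], [0, -1, -1, 0, 0, 0, -1], [0, -1, 0, 0, 0, 0, -1]]⟩,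
    ⟨2, [[1, 1, 0, 3, 3, 0, 1], [0, 5, 0, 3, 0, 3, 7], [0, 0, 1, 3, 3, 3, 0], [0, 0, 0, 6, 0, 0, 0], [0, 0, 0, 0, 6, 0, 0], [0, 0, 0, 0, 0, 6, 0], [0, 0, 0, 0, 0, 0, 9]],
     [[-1, 0, 0, 0, 0, 0, 0], [-1, 0, 0, 0, 0, 0, 0], [-1, 0, 0, 0, 0, 0, 0], [0, -1, 0, 0, 0, 0, 0], [0, -1, 0, 0, 0, 0, 0], [-1, 0, 0, -1, 0, 0, 0], [-1, 0, 0, 0, 0, 0, 0]],
     [[-2, 4, 2, 1, 3, 3, 0], [0, 2, 0, 0, 0, 0, 2], [0, 2, 2, 1, 0, 0, 0], [2, -2, -2, -1, -1, -1, -1], [2, -2, -2, -1, -2, -1, 0], [0, 0, 0, 2, 0, 0, -1], [0, 0, 0, 0, 0, 0, -1]]⟩,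
    ⟨3, [[2, 2, 0, 2, 2, 0, 2], [0, 10, 0, 2, 0, 2, 14], [0, 0, 2, 2, 2, 2, 0], [0, 0, 0, 4, 0, 0, 0], [0, 0, 0, 0, 4, 0, 0], [0, 0, 0, 0, 0, 4, 0], [0, 0, 0, 0, 0, 0, 18]],
     [[0, -1, 0, 1, 0, 0, 0], [-1, 0, 0, 0, 0, 0, -1], [-1, 0, 0, 1, 0, 0, 0], [1, -1, 0, -1, 0, 0, -1], [-1, -1, 0, -1, 0, 0, 0], [1, 0, 0, 1, 0, 0, -1], [1, 0, 0, 0, 0, 0, -1]],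
     [[0, 1, 0, -1, 1, 1, 0], [0, 1, 0, 0, 0, 0, 4], [0, 1, 0, -1, 0, 0, 0], [1, -1, 0, 1, 0, 0, 3], [1, 0, 0, 1, -1, 0, 0], [0, -1, -1, -1, 0, 0, 3], [0, -1, 0, 0, 0, 0, 3]]⟩,
    ⟨5, [[2, 0, 0, 0, 6, 6, 10], [0, 2, 0, 6, 0, 6, 10], [0, 0, 2, 6, 6, 6, 0], [0, 0, 0, 12, 0, 0, 0], [0, 0, 0, 0, 12, 0, 0], [0, 0, 0, 0, 0, 12, 0], [0, 0, 0, 0, 0, 0, 18]],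
     [[-1, -1, -2, 0, -2, -2, 0], [-1, -1, -2, 0, -2, -2, 0], [-2, 0, -2, 0, 0, 0, 0], [-2, -2, 2, 0, -1, -1, 0], [-1, -2, 2, 0, -2, -1, 0], [2, 1, 0, 1, 2, 2, 0], [2, 1, 2, 0, 2, 2, 0]],
     [[0, 1, 2, 1, 3, 3, 0], [0, 2, 2, 1, 3, 3, 2], [0, 1, 2, 1, 0, 0, 0], [1, 0, -2, -1, 1, 1, -1], [1, 0, -2, -1, 2, 1, 0], [0, -2, -1, -1, -3, -3, -1], [0, -2, -2, -1, -3, -3, -1]]⟩,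
    ⟨6, [[1, 1, 0, 1, 1, 0, 1], [0, 5, 0, 1, 0, 1, 7], [0, 0, 1, 1, 1, 1, 0], [0, 0, 0, 2, 0, 0, 0], [0, 0, 0, 0, 2, 0, 0], [0, 0, 0, 0, 0, 2, 0], [0, 0, 0, 0, 0, 0, 9]],
     [[-3, -2, 1, 0, 1, 1, 0], [1, 0, 0, 0, 0, 0, -2], [1, 0, 1, 0, 0, 0, 0], [-1, 1, -1, 0, 0, 0, 1], [-2, 1, -1, 0, -1, 0, 0], [-1, 0, -1, 1, 0, 0, 1], [-1, 0, 0, 0, 0, 0, 1]],
     [[0, 2, 0, 0, 0, 0, 0], [0, 0, 0, 0, 0, 0, 4], [0, 0, 0, 0, 0, 0, 0], [0, 0, 0, 0, 0, 0, -2], [0, 0, 0, 0, 0, 0, 0], [0, 0, 0, 0, 0, 0, -2], [0, 0, 0, 0, 0, 0, -2]]⟩,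
    ⟨10, [[1, 0, 0, 0, 3, 3, 5], [0, 1, 0, 3, 0, 3, 5], [0, 0, 1, 3, 3, 3, 0], [0, 0, 0, 6, 0, 0, 0], [0, 0, 0, 0, 6, 0, 0], [0, 0, 0, 0, 0, 6, 0], [0, 0, 0, 0, 0, 0, 9]],
     [[3, -2, 1, -5, -4, -4, 0], [-2, -2, 1, -5, -4, -4, 2], [1, 0, 1, -5, 0, 0, 0], [-4, 1, -1, -5, -2, -2, -1], [-2, 1, -1, -5, -4, -2, 0], [4, 2, -5, 2, 4, 4, -1], [4, 2, -1, -5, 4, 4, -1]],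
     [[0, 0, 1, 2, 3, 3, 0], [0, 2, 1, 2, 3, 3, 0], [0, 0, 1, 2, 0, 0, 0], [0, 0, 1, 2, 1, 1, 0], [0, 0, 1, 2, 2, 1, 0], [0, -2, 1, 0, -3, -3, 0], [0, -2, 1, 2, -3, -3, 0]]⟩,
    ⟨15, [[2, 0, 0, 0, 2, 2, 10], [0, 2, 0, 2, 0, 2, 10], [0, 0, 2, 2, 2, 2, 0], [0, 0, 0, 4, 0, 0, 0], [0, 0, 0, 0, 4, 0, 0], [0, 0, 0, 0, 0, 4, 0], [0, 0, 0, 0, 0, 0, 18]],
     [[-6, -1, 3, -5, -2, -2, 0], [4, -1, 3, -5, -2, -2, -2], [-7, 0, 3, -5, 0, 0, 0], [6, -7, -3, 5, 0, 0, 1], [-1, -7, -3, 5, 2, 0, 0], [-3, 1, -6, 3, 2, 2, 1], [-3, 1, -3, 5, 2, 2, 1]],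
     [[0, 1, 0, 1, 1, 1, 0], [0, 0, 0, 1, 1, 1, 2], [0, 1, 0, 1, 0, 0, 0], [1, -1, 0, -1, 0, 0, -1], [1, 0, 0, -1, -1, 0, 0], [0, 0, 1, 0, -1, -1, -1], [0, 0, 0, -1, -1, -1, -1]]⟩,
    ⟨30, [[1, 0, 0, 0, 1, 1, 5], [0, 1, 0, 1, 0, 1, 5], [0, 0, 1, 1, 1, 1, 0], [0, 0, 0, 2, 0, 0, 0], [0, 0, 0, 0, 2, 0, 0], [0, 0, 0, 0, 0, 2, 0], [0, 0, 0, 0, 0, 0, 9]],
     [[3, -2, 1, 0, 1, 1, 0], [8, -2, 1, 0, 1, 1, 2], [1, 0, 1, 0, 0, 0, 0], [-3, 1, -1, 0, 0, 0, -1], [-2, 1, -1, 0, -1, 0, 0], [-6, 2, -2, 1, -1, -1, -1], [-6, 2, -1, 0, -1, -1, -1]],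
     [[0, 0, 0, 0, 0, 0, 0], [0, 0, 0, 0, 0, 0, 0], [0, 0, 0, 0, 0, 0, 0], [0, 0, 0, 0, 0, 0, 0], [0, 0, 0, 0, 0, 0, 0], [0, 0, 0, 0, 0, 0, 0], [0, 0, 0, 0, 0, 0, 0]]⟩]⟩

theorem sc38_ok : chkStep sc38 = true := by decide +kernel

def U38 : List (List Int) :=
  [[7, -7, -6, -3, -12, -9, -5], [-2, 2, 2, 1, 3, 3, 0], [1, 0, 0, 0, -1, -1, 0], [0, -1, 0, 0, -1, -1, 0], [1, -1, -1, 0, -2, -1, 0], [1, -1, -1, -1, -2, -1, 0], [2, -2, -2, -1, -3, -3, -1]]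

def V38 : List (List Int) :=
  [[2, -7, -1, -2, -3, -3, -10], [-2, 7, 2, 1, 3, 3, 10], [1, -3, 0, 0, -2, -1, -5], [0, 0, 0, 0, 1, -1, 0], [1, -4, -1, -1, -2, -2, -5], [1, -3, -1, -1, -1, -1, -5], [0, -1, 0, 0, 0, 0, -1]]

theorem nr38_ok : chkNR sc38.G [1, -1, 0, 0, 0, 0, 0] U38 V38
    [-1, -1, -1, 0, 1, 1, -1] [3, -2, 1, 0, 1, 1, 0]
    [0, 0, -1, 1, 0, -1, 1] [sc38] = true := by decide +kernel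

end RH6.NR
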