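import Pool.Agent.RH6.YDef

/-! An infinite order symmetry of a chamber, `L2:6-_3:6+_5:6+`. -/

namespace RH6.NR

def sc39 : SCert :=
  ⟨[[0, 1, 0, 0, 0, 0, 0], [1, 0, 0, 0, 0, 0, 0], [0, 0, 1, 0, 0, 0, 0], [0, 0, 0, 1, 0, 0, 0], [0, 0, 0, 0, 1, 0, 0], [0, 0, 0, 0, 0, 1, 0], [0, 0, 0, 0, 0, 0, 15]], 15,
   [[0, 15, 0, 0, 0, 0, 0], [15, 0, 0, 0, 0, 0, 0], [0, 0, 15, 0, 0, 0, 0], [0, 0, 0, 15, 0, 0, 0], [0, 0, 0, 0, 15, 0, 0], [0, 0, 0, 0, 0, 15, 0], [0, 0, 0, 0, 0, 0, 1]],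
   [7, -6, 3, 2, 2, 1, 2], [22, -6, 3, 2, 2, 1, 4], [0, -1, 0, 0, -1, 0, 0], [38, -11, 5, 6, 5, 4, 7],
   [[0, 0, 0, -1, 1, 0, 0], [1, 0, 1, 1, 1, -1, 0], [1, 0, 0, 1, 1, 2, 0], [-1, 0, -3, 1, 1, -1, 0], [11, -6, 3, 2, 2, 1, 3]], 420, [210, 105, 70, 35, 20], 2, 12, 2,
   42, [27, 6, -21, -21, -14, 0, -26], 12, [0, 18, -6, 3, 16, 3, 4],
   [⟨1, [[2, 2, 0, 2, 0, 10, 30], [0, 30, 0, 0, 2, 12, 22], [0, 0, 2, 2, 2, 18, 28], [0, 0, 0, 4, 0, 12, 0], [0, 0, 0, 0, 4, 0, 14], [0, 0, 0, 0, 0, 24, 0], [0, 0, 0, 0, 0, 0, 42]],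
     [[0, 0, 0, 0, 0, 0, 0], [0, 0, 0, 0, 0, 0, 0], [0, 0, 0, 0, 0, 0, 0], [0, 0, 0, 0, 0, 0, 0], [0, 0, 0, 0, 0, 0, 0], [0, 0, 0, 0, 0, 0, 0], [0, 0, 0, 0, 0, 0, 0]],
     [[-6, 7, 3, 2, 2, 1, 30], [0, 1, 0, 0, 0, 0, 2], [0, 0, 0, -1, 1, 0, 0], [3, -3, -1, 0, -1, -1, -15], [0, 0, 0, 1, 0, 1, -1], [1, -2, -1, 0, -1, 0, -6], [4, -5, -2, -1, -2, -1, -20]]⟩,
    ⟨2, [[1, 1, 0, 1, 0, 5, 15], [0, 15, 0, 0, 1, 6, 11], [0, 0, 1, 1, 1, 9, 14], [0, 0, 0, 2, 0, 6, 0], [0, 0, 0, 0, 2, 0, 7], [0, 0, 0, 0, 0, 12, 0], [0, 0, 0, 0, 0, 0, 21]],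
     [[-1, 0, -1, 0, 0, -1, 0], [-1, 0, 0, 0, 0, 0, 0], [0, 0, 0, -1, -1, 0, 0], [-1, -1, -1, 0, -1, -1, 0], [0, 0, 0, -1, 0, -1, 0], [0, -1, -1, 0, -1, 0, 0], [-1, 0, 0, -1, 0, -1, 0]],
     [[-6, 8, 4, 2, 2, 2, 30], [0, 2, 0, 0, 0, 0, 2], [0, 0, 0, 0, 2, 0, 0], [4, -2, 0, 0, 0, 0, -15], [0, 0, 0, 2, 0, 2, -1], [2, -2, 0, 0, 0, 0, -6], [4, -4, -2, 0, -2, 0, -20]]⟩,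
    ⟨3, [[2, 2, 0, 2, 0, 10, 30], [0, 10, 0, 0, 2, 4, 40], [0, 0, 2, 2, 2, 18, 28], [0, 0, 0, 4, 0, 12, 0], [0, 0, 0, 0, 4, 0, 14], [0, 0, 0, 0, 0, 24, 0], [0, 0, 0, 0, 0, 0, 42]],
     [[-1, 0, 0, 1, 1, -1, 0], [0, 0, 0, 0, 0, 0, 0], [0, 0, 0, 1, -1, 0, 0], [0, 0, 1, 0, 1, 1, 0], [1, 0, 0, -1, 0, -1, 0], [-1, -1, 1, 0, 1, 0, 0], [1, -1, -1, 1, -1, 1, 0]],
     [[-2, 3, 1, 0, 0, 1, 10], [0, 1, 0, 0, 0, 0, 2], [0, 0, 0, -1, 1, 0, 0], [1, -1, -1, 0, -1, -1, -5], [0, -1, 0, 1, 0, 1, -1], [1, 0, -1, 0, -1, 0, -2], [2, -3, 0, -1, 0, -1, -8]]⟩,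
    ⟨5, [[2, 2, 0, 2, 0, 10, 30], [0, 6, 0, 0, 2, 12, 10], [0, 0, 2, 2, 2, 18, 28], [0, 0, 0, 4, 0, 12, 0], [0, 0, 0, 0, 4, 0, 14], [0, 0, 0, 0, 0, 24, 0], [0, 0, 0, 0, 0, 0, 42]],
     [[1, 2, -1, 1, 1, -2, 0], [0, 0, 0, 0, 0, 0, 0], [0, 0, 0, 2, -2, 0, 0], [1, -1, 2, 0, 2, 2, 0], [-1, 0, 0, -2, 0, -2, 0], [-2, -2, 2, 0, 2, 0, 0], [0, 2, -1, 2, -1, 2, 0]],
     [[-2, 1, 1, 0, 0, 1, 6], [0, 1, 0, 0, 0, 0, 2], [0, 0, 0, -1, 1, 0, 0], [1, -1, -1, 0, -1, -1, -3], [0, 0, 0, 1, 0, 1, -1], [1, 0, -1, 0, -1, 0, -2], [0, -1, 0, -1, 0, -1, -4]]⟩,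
    ⟨6, [[1, 1, 0, 1, 0, 5, 15], [0, 5, 0, 0, 1, 2, 20], [0, 0, 1, 1, 1, 9, 14], [0, 0, 0, 2, 0, 6, 0], [0, 0, 0, 0, 2, 0, 7], [0, 0, 0, 0, 0, 12, 0], [0, 0, 0, 0, 0, 0, 21]],
     [[1, 0, -3, 2, 2, 1, 0], [-3, 0, 0, 0, 0, 0, 0], [0, 0, 0, -1, 1, 0, 0], [-3, -3, -1, 0, -1, -1, 0], [-1, 0, 0, 1, 0, 1, 0], [-2, 1, -1, 0, -1, 0, 0], [-1, -2, -2, -1, -2, -1, 0]],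
     [[-2, 2, 2, 0, 0, 0, 10], [0, 2, 0, 0, 0, 0, 2], [0, 0, 0, 0, 0, 0, 0], [2, 0, 0, 0, 0, 0, -5], [0, 0, 0, 0, 0, 0, -1], [0, 0, 0, 0, 0, 0, -2], [2, -2, 0, 0, 0, 0, -8]]⟩,
    ⟨10, [[1, 1, 0, 1, 0, 5, 15], [0, 3, 0, 0, 1, 6, 5], [0, 0, 1, 1, 1, 9, 14], [0, 0, 0, 2, 0, 6, 0], [0, 0, 0, 0, 2, 0, 7], [0, 0, 0, 0, 0, 12, 0], [0, 0, 0, 0, 0, 0, 21]],
     [[-3, 4, 3, 2, 2, 1, 0], [-5, 0, 0, 0, 0, 0, 0], [0, 0, 0, -1, 1, 0, 0], [-3, 3, -1, 0, -1, -1, 0], [-2, 0, 0, 1, 0, 1, 0], [-4, 1, -1, 0, -1, 0, 0], [-5, 4, -2, -1, -2, -1, 0]],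
     [[-2, 2, 0, 0, 0, 0, 6], [0, 2, 0, 0, 0, 0, 2], [0, 0, 0, 0, 0, 0, 0], [0, 0, 0, 0, 0, 0, -3], [0, 0, 0, 0, 0, 0, -1], [0, 0, 0, 0, 0, 0, -2], [0, 0, 0, 0, 0, 0, -4]]⟩,
    ⟨15, [[2, 0, 0, 2, 2, 14, 22], [0, 2, 0, 0, 2, 20, 22], [0, 0, 2, 2, 2, 18, 28], [0, 0, 0, 4, 0, 12, 0], [0, 0, 0, 0, 4, 0, 14], [0, 0, 0, 0, 0, 24, 0], [0, 0, 0, 0, 0, 0, 42]],
     [[-4, -3, -6, 1, 1, -7, 0], [-4, -3, -6, 1, 1, -7, 0], [0, 0, 0, 7, -7, 0, 0], [6, -6, 7, 0, 7, 7, 0], [-7, 3, 6, 7, -1, 0, 0], [-3, -4, -2, -1, 6, 7, 0], [-5, 2, -1, 7, -1, 7, 0]],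
     [[0, 1, 1, 0, 0, 1, 2], [0, 2, 1, 0, 0, 1, 4], [0, 0, 0, -1, 1, 0, 0], [1, -1, -1, 0, -1, -1, -1], [0, 0, -1, -1, 0, 0, -3], [1, -1, 0, 0, -1, -1, -4], [0, 0, 0, -1, 0, -1, -2]]⟩,
    ⟨30, [[1, 0, 0, 1, 1, 7, 11], [0, 1, 0, 0, 1, 10, 11], [0, 0, 1, 1, 1, 9, 14], [0, 0, 0, 2, 0, 6, 0], [0, 0, 0, 0, 2, 0, 7], [0, 0, 0, 0, 0, 12, 0], [0, 0, 0, 0, 0, 0, 21]],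
     [[7, -6, 3, 2, 2, 1, 2], [-8, -6, 3, 2, 2, 1, 4], [0, 0, 0, -1, 1, 0, 0], [-3, 3, -1, 0, -1, -1, -1], [-14, 6, -3, -1, -2, 0, -3], [9, 7, -4, -2, -3, -1, -4], [-10, 4, -2, -1, -2, -1, -2]],
     [[0, 0, 0, 0, 0, 0, 0], [0, 2, 0, 0, 0, 0, 0], [0, 0, 0, 0, 0, 0, 0], [0, 0, 0, 0, 0, 0, 0], [0, 0, 0, 0, 0, 0, 0], [0, -2, 0, 0, 0, 0, 0], [0, 0, 0, 0, 0, 0, 0]]⟩]⟩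

theorem sc39_ok : chkStep sc39 = true := by decide +kernel

def U39 : List (List Int) :=
  [[23, -27, -12, -11, -11, -11, -105], [-6, 8, 3, 3, 3, 3, 30], [3, -4, -2, -1, -1, -2, -15], [3, -4, -2, -1, -2, -1, -15], [3, -4, -2, -2, -1, -1, -15], [3, -3, -1, -1, -1, -1, -15], [4, -5, -2, -2, -2, -2, -19]]

def V39 : List (List Int) :=
  [[8, -27, -4, -4, -4, -3, -75], [-6, 23, 3, 3, 3, 3, 60], [3, -12, -2, -2, -2, -1, -30], [3, -11, -1, -1, -2, -1, -30], [3, -11, -1, -2, -1, -1, -30], [3, -11, -2, -1, -1, -1, -30], [2, -7, -1, -1, -1, -1, -19]]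

theorem nr39_ok : chkNR sc39.G [1, -1, 0, 0, 0, 0, 0] U39 V39
    [-1, -1, -1, 0, 1, 1, 0] [7, -6, 3, 2, 2, 1, 2]
    [0, -1, 0, 0, -1, 0, 0] [sc39] = true := by decide +kernel

end RH6.NR
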