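import Pool.Agent.RH6.YDef

/-! An infinite order symmetry of a chamber, `L2:2-_3:6-_5:6-`. -/

namespace RH6.NR

def sc40 : SCert :=
  ⟨[[0, 1, 0, 0, 0, 0, 0], [1, 0, 0, 0, 0, 0, 0], [0, 0, 2, 1, 0, 0, 0], [0, 0, 1, 2, 0, 0, 0], [0, 0, 0, 0, 2, 0, 0], [0, 0, 0, 0, 0, 2, 0], [0, 0, 0, 0, 0, 0, 10]], 30,
   [[0, 30, 0, 0, 0, 0, 0], [30, 0, 0, 0, 0, 0, 0], [0, 0, 20, -10, 0, 0, 0], [0, 0, -10, 20, 0, 0, 0], [0, 0, 0, 0, 15, 0, 0], [0, 0, 0, 0, 0, 15, 0], [0, 0, 0, 0, 0, 0, 3]],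
   [7, -5, 2, 0, 2, 2, 2], [37, -35, 7, 5, 17, 17, 11], [0, -1, 0, 1, 0, -1, 0], [7, -8, 3, 1, 4, 3, 2],
   [[-1, -1, 1, -1, 0, 0, 0], [0, 0, 0, 0, -1, 1, 0], [7, -5, 3, 1, 2, 2, 2], [-4, 4, 0, 0, -1, -1, -2], [10, -4, 3, -3, 4, 4, 2]], 420, [105, 105, 35, 35, 10], 2, 12, 2,
   2, [3, 0, 0, -1, -1, 1, -1], 28, [6, 6, 21, -14, 7, 14, -4],
   [⟨2, [[1, 1, 1, 0, 1, 0, 24], [0, 15, 1, 0, 3, 0, 33], [0, 0, 2, 0, 6, 0, 0], [0, 0, 0, 2, 0, 2, 28], [0, 0, 0, 0, 12, 0, 0], [0, 0, 0, 0, 0, 4, 14], [0, 0, 0, 0, 0, 0, 42]],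
     [[-1, -1, 0, 0, 0, 0, 0], [0, 0, 0, -1, 0, 0, 0], [-1, -1, 0, 0, 0, 0, 0], [0, 0, 0, 0, 0, 0, 0], [0, -1, 0, -1, 0, 0, 0], [-1, -1, 0, 0, 0, 0, 0], [-1, 0, 0, -1, 0, 0, 0]],
     [[-4, 8, 4, 2, 4, 4, 20], [-2, 2, 2, 3, 2, 2, 6], [4, -4, -2, -2, -3, -3, -13], [0, 0, 0, 0, -1, 1, 0], [0, 2, 2, 3, 1, 1, 5], [2, 0, 0, 0, 0, -1, -5], [4, -4, -2, 0, -3, -4, -14]]⟩,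
    ⟨4, [[1, 1, 0, 0, 4, 0, 3], [0, 15, 0, 0, 6, 0, 12], [0, 0, 1, 0, 9, 0, 21], [0, 0, 0, 1, 0, 1, 14], [0, 0, 0, 0, 12, 0, 0], [0, 0, 0, 0, 0, 2, 28], [0, 0, 0, 0, 0, 0, 42]],
     [[-1, -1, -2, 0, -2, -2, 0], [-2, -2, -1, -1, 1, 1, 0], [-1, -1, 1, -1, 0, 0, 0], [0, 0, 0, 0, -1, 1, 0], [-2, -1, 0, -2, -1, -1, 0], [-2, -2, 0, 0, 0, -1, 0], [1, 0, -2, -1, 0, 0, 0]],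
     [[-2, 4, 4, 2, 4, 4, 10], [0, 2, 2, 2, 0, 0, 3], [0, 0, 0, 0, 0, 0, 0], [0, 0, 0, 0, 0, 0, 0], [2, 0, 0, 2, 0, 0, -4], [2, 0, 0, 0, 0, 0, -5], [0, 0, 2, 2, 0, 0, 2]]⟩,
    ⟨6, [[1, 1, 1, 0, 1, 0, 24], [0, 5, 1, 0, 7, 0, 39], [0, 0, 2, 0, 6, 0, 0], [0, 0, 0, 2, 0, 2, 28], [0, 0, 0, 0, 12, 0, 0], [0, 0, 0, 0, 0, 4, 14], [0, 0, 0, 0, 0, 0, 42]],
     [[1, 1, 2, 0, 2, 2, 2], [0, 0, 1, 1, 0, 0, 0], [-1, -1, -1, -1, -1, -1, -1], [0, 0, 0, 0, 1, -1, 0], [0, 1, 0, 0, 1, 1, -1], [-1, 1, 0, 0, 0, 1, 1], [-3, 2, -2, -1, 1, 2, -2]],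
     [[-2, 2, 0, 0, 0, 0, 0], [-2, 2, 0, 0, 2, 2, 6], [2, -2, 0, 0, -1, -1, -3], [0, 0, 0, 0, -1, 1, 0], [0, 0, 0, 0, -1, -1, 3], [0, 0, 0, 0, 0, -1, -5], [2, -2, 0, 0, -3, -4, -2]]⟩,
    ⟨10, [[1, 1, 1, 0, 1, 0, 24], [0, 3, 1, 0, 3, 0, 15], [0, 0, 2, 0, 6, 0, 0], [0, 0, 0, 2, 0, 2, 28], [0, 0, 0, 0, 12, 0, 0], [0, 0, 0, 0, 0, 4, 14], [0, 0, 0, 0, 0, 0, 42]],
     [[-3, -5, 2, 0, 2, 2, 0], [0, 0, -5, 0, 0, 0, 0], [1, -3, 2, 2, 4, 4, 0], [0, 0, 0, 0, 2, -2, 0], [2, -1, -3, 2, -2, -2, 0], [-1, 1, 0, 0, 0, 2, 0], [3, -4, -5, 1, 0, 2, 0]],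
     [[0, 2, 0, 0, 0, 0, 4], [-2, 2, 3, 2, 2, 2, 6], [2, -2, -2, -2, -3, -3, -5], [0, 0, 0, 0, -1, 1, 0], [0, 0, 1, 0, 1, 1, 1], [0, 0, 0, 0, 0, -1, -1], [2, -2, 1, 0, -1, -2, -4]]⟩,
    ⟨12, [[1, 1, 0, 0, 4, 0, 3], [0, 5, 0, 0, 10, 0, 18], [0, 0, 1, 0, 9, 0, 21], [0, 0, 0, 1, 0, 1, 14], [0, 0, 0, 0, 12, 0, 0], [0, 0, 0, 0, 0, 2, 28], [0, 0, 0, 0, 0, 0, 42]],
     [[-5, -5, 2, 0, 2, 2, 2], [-6, -6, 1, 1, 3, 3, 3], [-1, -1, 1, -1, 0, 0, 0], [0, 0, 0, 0, -1, 1, 0], [-6, -5, -2, 0, -3, -3, -2], [-2, 2, 0, 0, 0, -1, 5], [-1, 2, -1, 0, -1, -1, 1]],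
     [[0, 2, 0, 0, 0, 0, 0], [0, 2, 0, 0, 0, 0, -2], [0, 0, 0, 0, 0, 0, 0], [0, 0, 0, 0, 0, 0, 0], [2, 0, 0, 0, 0, 0, 0], [0, 0, 0, 0, 0, 0, -10], [0, 0, 0, 0, 0, 0, -2]]⟩,
    ⟨20, [[1, 1, 0, 0, 4, 0, 3], [0, 3, 0, 0, 6, 0, 36], [0, 0, 1, 0, 9, 0, 21], [0, 0, 0, 1, 0, 1, 14], [0, 0, 0, 0, 12, 0, 0], [0, 0, 0, 0, 0, 2, 28], [0, 0, 0, 0, 0, 0, 42]],
     [[7, -5, 2, 0, 2, 2, 2], [-10, -10, -5, 5, 5, 5, 3], [-1, -1, 1, 9, 0, 0, 0], [0, 0, 0, 0, -1, 1, 0], [-6, 7, -2, 0, -3, -3, -2], [-2, 2, 0, 0, 0, -1, -1], [-7, 8, -2, -1, -4, -4, -2]],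
     [[0, 0, 0, 0, 0, 0, 0], [0, 2, 1, 0, 0, 0, 0], [0, 0, -1, -2, 0, 0, 0], [0, 0, 0, 0, 0, 0, 0], [0, 0, 0, 0, 0, 0, 0], [0, 0, 0, 0, 0, 0, 0], [0, 0, 0, 0, 0, 0, 0]]⟩,
    ⟨30, [[1, 0, 0, 0, 2, 0, 33], [0, 1, 1, 0, 11, 0, 33], [0, 0, 2, 0, 6, 0, 0], [0, 0, 0, 2, 0, 2, 28], [0, 0, 0, 0, 12, 0, 0], [0, 0, 0, 0, 0, 4, 14], [0, 0, 0, 0, 0, 0, 42]],
     [[7, -5, 2, 0, 2, 2, -4], [7, -5, 7, 5, 2, 2, 8], [11, -13, -3, -3, -1, -1, 11], [0, 0, 0, 0, 7, -7, 0], [5, -6, -5, -3, 11, 11, -15], [-1, 1, 0, 0, 0, 7, 1], [-4, 1, -7, -4, -7, 0, -10]],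
     [[0, 0, 0, 0, 0, 0, 4], [-2, 2, 0, 0, 2, 2, 2], [2, -2, 0, 0, -1, -1, -11], [0, 0, 0, 0, -1, 1, 0], [2, -2, 0, 0, -3, -3, 5], [0, 0, 0, 0, 0, -1, -1], [2, -2, 0, 0, -1, -2, 0]]⟩,
    ⟨60, [[1, 0, 0, 0, 2, 0, 33], [0, 1, 0, 0, 2, 0, 12], [0, 0, 1, 0, 9, 0, 21], [0, 0, 0, 1, 0, 1, 14], [0, 0, 0, 0, 12, 0, 0], [0, 0, 0, 0, 0, 2, 28], [0, 0, 0, 0, 0, 0, 42]],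
     [[7, -5, 2, 0, 2, 2, 2], [-23, 25, 7, 5, 17, 17, 11], [-1, -1, 1, -1, 0, 0, 0], [0, 0, 0, 0, -1, 1, 0], [-6, 7, -2, 0, -3, -3, -2], [-2, 2, 0, 0, 0, -1, -1], [-14, 13, -4, -1, -6, -6, -4]],
     [[0, 0, 0, 0, 0, 0, 0], [-2, 2, 0, 0, 0, 0, 0], [0, 0, 0, 0, 0, 0, 0], [0, 0, 0, 0, 0, 0, 0], [0, 0, 0, 0, 0, 0, 0], [0, 0, 0, 0, 0, 0, 0], [0, 0, 0, 0, 0, 0, 0]]⟩]⟩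

theorem sc40_ok : chkStep sc40 = true := by decide +kernel

def U40 : List (List Int) :=
  [[20, -23, -19, -20, -6, -4, -80], [-20, 23, 20, 19, 6, 4, 80], [5, -6, -5, -5, -2, -2, -20], [2, -3, -2, -2, 0, 0, -10], [10, -11, -9, -9, -3, -2, -40], [9, -10, -9, -9, -2, -2, -35], [6, -7, -6, -6, -2, -1, -24]]

def V40 : List (List Int) :=
  [[23, -23, -15, -12, -22, -20, -70], [-20, 20, 12, 9, 20, 18, 60], [7, -6, -4, -3, -6, -6, -20], [6, -7, -4, -3, -6, -6, -20], [3, -3, -2, -1, -3, -2, -10], [2, -2, -2, -1, -2, -2, -5], [8, -8, -5, -4, -8, -7, -24]]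

theorem nr40_ok : chkNR sc40.G [1, -1, 0, 0, 0, 0, 0] U40 V40
    [-1, -1, -1, -1, 1, 1, 0] [7, -5, 2, 0, 2, 2, 2]
    [0, -1, 0, 1, 0, -1, 0] [sc40] = true := by decide +kernel

end RH6.NR
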