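import Pool.Agent.RH6.YDef

/-! An infinite order symmetry of a chamber, `L2:4-_3:6-_5:6-`. -/

namespace RH6.NR

def sc41 : SCert :=
  ⟨[[0, 1, 0, 0, 0, 0, 0], [1, 0, 0, 0, 0, 0, 0], [0, 0, 2, 0, 0, 0, 0], [0, 0, 0, 2, 0, 0, 0], [0, 0, 0, 0, 2, 0, 0], [0, 0, 0, 0, 0, 6, 0], [0, 0, 0, 0, 0, 0, 10]], 30,
   [[0, 30, 0, 0, 0, 0, 0], [30, 0, 0, 0, 0, 0, 0], [0, 0, 15, 0, 0, 0, 0], [0, 0, 0, 15, 0, 0, 0], [0, 0, 0, 0, 15, 0, 0], [0, 0, 0, 0, 0, 5, 0], [0, 0, 0, 0, 0, 0, 3]],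
   [4, -3, 1, 1, 1, 1, 1], [10, -9, 4, 4, 3, 1, 3], [0, -1, 1, 0, -1, 0, 0], [4, -5, 3, 2, 1, 1, 1],
   [[0, 0, -1, 1, 0, 0, 0], [-6, 4, -1, -1, -2, -1, -2], [-4, -2, -1, -1, 0, 0, 0], [6, -6, 3, 3, -1, 2, 2], [-6, 6, -3, -3, -4, -2, -1]], 60, [15, 6, 3, 2, 2], 2, 8, 2,
   30, [28, 8, -15, 24, 3, 2, 8], 10, [4, 4, -5, 6, 1, 2, -2],
   [⟨2, [[1, 1, 0, 0, 6, 24, 6], [0, 2, 0, 0, 16, 14, 26], [0, 0, 2, 0, 10, 0, 0], [0, 0, 0, 2, 12, 24, 6], [0, 0, 0, 0, 20, 0, 0], [0, 0, 0, 0, 0, 30, 0], [0, 0, 0, 0, 0, 0, 30]],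
     [[0, -1, 0, 0, 0, 0, 0], [-1, -1, 0, 0, 0, 0, 0], [0, 0, 0, 0, 0, 0, 0], [-1, 0, 0, 0, 0, 0, 0], [0, 0, 0, 0, 0, 0, 0], [0, 0, 0, 0, 0, 0, 0], [-1, -1, 0, 0, 0, 0, 0]],
     [[-2, 4, 2, 2, 2, 6, 10], [-2, 4, 3, 3, 2, 0, 10], [0, 0, -1, 1, 0, 0, 0], [2, -2, -1, -1, -2, -3, -10], [2, -2, -2, -3, -1, 0, -5], [2, -2, -2, -2, -1, -2, -4], [4, -2, -3, -3, -2, -1, -9]]⟩,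
    ⟨4, [[1, 0, 1, 0, 3, 2, 8], [0, 1, 1, 0, 3, 7, 13], [0, 0, 2, 0, 0, 0, 0], [0, 0, 0, 1, 6, 12, 3], [0, 0, 0, 0, 10, 0, 0], [0, 0, 0, 0, 0, 15, 0], [0, 0, 0, 0, 0, 0, 15]],
     [[0, 1, 1, 1, 1, 0, 0], [-2, -1, 0, 0, -1, 0, 0], [1, -2, 1, -2, -2, 0, 0], [-2, 0, -1, -1, -2, 0, 0], [-1, 1, -1, -1, 0, 0, 0], [0, 1, -1, -1, 0, 0, 0], [-2, 1, 0, 0, 1, 0, 0]],
     [[-2, 2, 0, 0, 0, 3, 5], [-4, 6, 4, 4, 4, 3, 15], [4, -4, -4, 0, 0, -3, -10], [2, -2, 0, 0, 0, -3, -10], [0, 0, 0, 0, 0, 0, 0], [0, 0, 0, 0, 0, 1, 1], [4, -4, -4, -4, -4, -4, -14]]⟩,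
    ⟨6, [[1, 1, 0, 0, 6, 4, 26], [0, 2, 0, 0, 16, 4, 6], [0, 0, 2, 0, 10, 0, 0], [0, 0, 0, 2, 12, 4, 26], [0, 0, 0, 0, 20, 0, 0], [0, 0, 0, 0, 0, 10, 20], [0, 0, 0, 0, 0, 0, 30]],
     [[-2, -3, -2, -2, -2, 0, -2], [-3, -3, -3, -3, -2, 0, -2], [0, 0, 1, -1, 0, 0, 0], [-3, 2, 1, 1, 2, 0, 2], [-2, 2, 2, -3, 1, 0, 1], [-1, 1, 1, 1, 1, 0, -2], [-1, 1, 1, 1, 0, 0, -1]],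
     [[0, 2, 2, 2, 2, 2, 10], [0, 2, 3, 3, 2, 0, 10], [0, 0, -1, 1, 0, 0, 0], [0, 0, -1, -1, -2, -1, -10], [0, 0, -2, 1, -1, 0, -5], [0, 0, -1, -1, -1, 0, 6], [0, 0, -1, -1, 0, -1, 3]]⟩,
    ⟨10, [[1, 1, 0, 0, 6, 0, 12], [0, 2, 0, 0, 16, 2, 14], [0, 0, 2, 0, 10, 0, 0], [0, 0, 0, 2, 12, 0, 12], [0, 0, 0, 0, 20, 0, 0], [0, 0, 0, 0, 0, 6, 6], [0, 0, 0, 0, 0, 0, 30]],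
     [[4, -3, -4, -4, -4, -4, 0], [3, -3, 4, 4, -4, 0, 0], [0, 0, 2, -2, 0, 0, 0], [-3, 2, 2, 2, 4, -3, 0], [-2, 2, 4, -4, 2, 0, 0], [0, 0, 0, 0, 2, 2, 0], [-2, 2, 4, 4, 2, -2, 0]],
     [[0, 0, 2, 2, 2, 6, 2], [0, 0, -1, -1, 2, 0, 2], [0, 0, -1, 1, 0, 0, 0], [0, 0, -1, -1, -2, 3, -2], [0, 0, -2, 1, -1, 0, -1], [0, 0, 0, 0, -1, -2, 0], [0, 0, -2, -2, -1, 2, -1]]⟩,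
    ⟨12, [[1, 0, 1, 0, 3, 2, 8], [0, 1, 1, 0, 3, 2, 3], [0, 0, 2, 0, 0, 0, 0], [0, 0, 0, 1, 6, 2, 13], [0, 0, 0, 0, 10, 0, 0], [0, 0, 0, 0, 0, 5, 10], [0, 0, 0, 0, 0, 0, 15]],
     [[4, -3, 1, 1, 1, 1, -5], [-2, 3, 4, 4, 3, 1, -3], [5, -6, -3, -2, -2, -1, -2], [-6, 4, -1, -1, -2, -1, -2], [-1, 1, -1, -1, 0, 0, 0], [-2, 2, -1, -1, -1, 0, 2], [2, -1, 0, 0, 1, 0, -4]],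
     [[0, 0, 0, 0, 0, 0, 10], [-2, 2, 0, 0, 0, 0, 10], [2, -2, 0, 0, 0, 0, 0], [0, 0, 0, 0, 0, 0, 0], [0, 0, 0, 0, 0, 0, 0], [0, 0, 0, 0, 0, 0, -4], [0, 0, 0, 0, 0, 0, 8]]⟩,
    ⟨20, [[1, 0, 1, 0, 3, 2, 8], [0, 1, 1, 0, 3, 1, 7], [0, 0, 2, 0, 0, 0, 0], [0, 0, 0, 1, 6, 0, 6], [0, 0, 0, 0, 10, 0, 0], [0, 0, 0, 0, 0, 3, 3], [0, 0, 0, 0, 0, 0, 15]],
     [[4, -3, 1, 1, 1, 6, 1], [-10, -9, 4, 4, 3, 6, 3], [-7, 6, -3, -2, -2, -6, -2], [-6, 4, -1, -1, -2, -6, -2], [-1, 1, -1, -1, 0, 0, 0], [-4, 3, -1, -1, -2, -2, -1], [-4, 4, -2, -2, -1, -4, -1]],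
     [[0, 0, 0, 0, 0, -3, 0], [0, 2, 0, 0, 0, -3, 0], [0, 0, 0, 0, 0, 3, 0], [0, 0, 0, 0, 0, 3, 0], [0, 0, 0, 0, 0, 0, 0], [0, 0, 0, 0, 0, 1, 0], [0, 0, 0, 0, 0, 2, 0]]⟩,
    ⟨30, [[1, 1, 0, 0, 6, 0, 12], [0, 2, 0, 0, 16, 0, 22], [0, 0, 2, 0, 10, 0, 0], [0, 0, 0, 2, 12, 0, 12], [0, 0, 0, 0, 20, 0, 0], [0, 0, 0, 0, 0, 2, 22], [0, 0, 0, 0, 0, 0, 30]],
     [[4, -3, -14, -14, -14, -4, -2], [3, -3, 9, 9, -14, 0, -2], [0, 0, 7, -7, 0, 0, 0], [-3, 2, 7, 7, 14, 2, 2], [-2, 2, 14, -9, 7, 0, 1], [3, -3, 9, 9, 7, -4, -2], [-5, 5, 5, 5, 7, 4, 3]],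
     [[0, 0, 2, 2, 2, 2, 2], [0, 0, -1, -1, 2, 0, 2], [0, 0, -1, 1, 0, 0, 0], [0, 0, -1, -1, -2, -1, -2], [0, 0, -2, 1, -1, 0, -1], [0, 0, -1, -1, -1, 2, 2], [0, 0, -1, -1, -1, -2, -3]]⟩,
    ⟨60, [[1, 0, 1, 0, 3, 0, 1], [0, 1, 1, 0, 3, 0, 11], [0, 0, 2, 0, 0, 0, 0], [0, 0, 0, 1, 6, 0, 6], [0, 0, 0, 0, 10, 0, 0], [0, 0, 0, 0, 0, 1, 11], [0, 0, 0, 0, 0, 0, 15]],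
     [[4, -3, 1, 1, 1, 1, 1], [10, -9, 4, 4, 3, 1, 3], [-7, 6, -3, -2, -2, -1, -2], [-6, 4, -1, -1, -2, -1, -2], [-1, 1, -1, -1, 0, 0, 0], [6, -6, 3, 3, -1, 2, 2], [-10, 10, -5, -5, -1, -2, -3]],
     [[0, 0, 0, 0, 0, 0, 0], [0, 0, 0, 0, 0, 0, 0], [0, 0, 0, 0, 0, 0, 0], [0, 0, 0, 0, 0, 0, 0], [0, 0, 0, 0, 0, 0, 0], [0, 0, 0, 0, 0, 0, 0], [0, 0, 0, 0, 0, 0, 0]]⟩]⟩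

theorem sc41_ok : chkStep sc41 = true := by decide +kernel

def U41 : List (List Int) :=
  [[13, -14, -14, -6, -4, -30, -30], [-13, 13, 12, 6, 4, 30, 30], [6, -7, -6, -3, -2, -15, -15], [5, -5, -5, -2, -2, -12, -10], [4, -4, -4, -1, -1, -9, -10], [2, -2, -2, -1, -1, -4, -5], [4, -4, -4, -2, -1, -9, -9]]

def V41 : List (List Int) :=
  [[13, -14, -14, -10, -8, -12, -40], [-13, 13, 12, 10, 8, 12, 40], [6, -7, -6, -5, -4, -6, -20], [3, -3, -3, -2, -1, -3, -10], [2, -2, -2, -2, -1, -3, -5], [5, -5, -5, -4, -3, -4, -15], [3, -3, -3, -2, -2, -3, -9]]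

theorem nr41_ok : chkNR sc41.G [1, -1, 0, 0, 0, 0, 0] U41 V41
    [-1, -1, -1, -1, -1, 1, 0] [4, -3, 1, 1, 1, 1, 1]
    [0, -1, 1, 0, -1, 0, 0] [sc41] = true := by decide +kernel

end RH6.NR
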