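import Pool.Agent.RH6.YDef

/-! An infinite order symmetry of a chamber, `L2:6+_5:4-`. -/

namespace RH6.NR

def sc42 : SCert :=
  ⟨[[0, 1, 0, 0, 0, 0, 0], [1, 0, 0, 0, 0, 0, 0], [0, 0, 2, 1, 0, 0, 0], [0, 0, 1, 3, 0, 0, 0], [0, 0, 0, 0, 1, 0, 0], [0, 0, 0, 0, 0, 5, 0], [0, 0, 0, 0, 0, 0, 5]], 5,
   [[0, 5, 0, 0, 0, 0, 0], [5, 0, 0, 0, 0, 0, 0], [0, 0, 3, -1, 0, 0, 0], [0, 0, -1, 2, 0, 0, 0], [0, 0, 0, 0, 5, 0, 0], [0, 0, 0, 0, 0, 1, 0], [0, 0, 0, 0, 0, 0, 1]],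
   [6, -2, -1, 2, 1, 1, 1], [4, -2, 1, 0, 1, 1, 1], [0, -1, 1, 0, 0, 0, -1], [12, -10, 3, 2, 0, 5, 4],
   [[1, 0, 0, 0, 2, 0, 0], [2, -2, 0, 1, 1, 1, 1], [0, 0, 0, 0, 0, -1, 1], [5, 0, 0, 0, 0, 1, 1], [-5, 0, -4, -2, 0, 0, 0]], 120, [30, 20, 12, 12, 2], 5, 15, 5,
   12, [5, 13, -3, -12, -6, -12, -1], 6, [1, 19, -15, 10, -3, -3, 0],
   [⟨1, [[2, 2, 0, 2, 0, 0, 60], [0, 4, 0, 2, 0, 0, 100], [0, 0, 2, 6, 0, 10, 90], [0, 0, 0, 12, 0, 0, 0], [0, 0, 0, 0, 10, 10, 60], [0, 0, 0, 0, 0, 20, 0], [0, 0, 0, 0, 0, 0, 120]],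
     [[0, 0, 0, 0, 0, 0, 0], [0, 0, 0, 0, 0, 0, 0], [0, 0, 0, 0, 0, 0, 0], [0, 0, 0, 0, 0, 0, 0], [0, 0, 0, 0, 0, 0, 0], [0, 0, 0, 0, 0, 0, 0], [0, 0, 0, 0, 0, 0, 0]],
     [[-2, 6, 0, 5, 1, 5, 5], [0, -1, 1, -2, 0, 0, 0], [0, 1, 0, 0, 2, 0, 0], [0, -1, 0, 0, -1, 0, 0], [0, 0, 0, 0, 0, -1, 1], [0, 0, 0, 0, -1, 1, 0], [1, -3, -1, -1, -2, -2, -3]]⟩,
    ⟨2, [[1, 1, 0, 1, 0, 0, 30], [0, 2, 0, 1, 0, 0, 50], [0, 0, 1, 3, 0, 5, 45], [0, 0, 0, 6, 0, 0, 0], [0, 0, 0, 0, 5, 5, 30], [0, 0, 0, 0, 0, 10, 0], [0, 0, 0, 0, 0, 0, 60]],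
     [[0, 0, 0, 0, -1, 0, 0], [-1, 0, 0, -1, 0, 0, 0], [-1, 0, 0, 0, 0, 0, 0], [-1, 0, 0, 0, -1, 0, 0], [0, 0, 0, 0, 0, 0, 0], [0, 0, 0, 0, -1, 0, 0], [-1, -1, 0, -1, 0, 0, 0]],
     [[-2, 6, 0, 5, 2, 5, 5], [0, 0, 2, 1, 0, 0, 0], [0, 2, 0, 0, 2, 0, 0], [0, 0, 0, 0, 0, 0, 0], [0, 0, 0, 0, 0, -1, 1], [0, 0, 0, 0, 0, 1, 0], [2, -2, 0, 2, -2, -2, -3]]⟩,
    ⟨5, [[2, 2, 0, 2, 0, 0, 12], [0, 4, 0, 2, 0, 0, 4], [0, 0, 2, 6, 0, 2, 18], [0, 0, 0, 12, 0, 0, 0], [0, 0, 0, 0, 2, 2, 12], [0, 0, 0, 0, 0, 4, 0], [0, 0, 0, 0, 0, 0, 24]],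
     [[-2, -1, 0, 0, -2, 0, 0], [2, 0, 0, -2, 0, 0, 0], [-2, 0, 0, 0, 1, 0, 0], [2, 0, 0, 0, 2, 0, 0], [0, 0, 0, 0, 0, 0, 0], [1, 0, 0, 0, 2, 0, 0], [-2, -2, 0, 2, -1, 0, 0]],
     [[0, 2, 0, 1, 1, 1, 1], [0, -1, 1, 2, 0, 0, 0], [0, 1, 0, 0, 0, 0, 0], [0, -1, 0, 0, -1, 0, 0], [0, 0, 0, 0, 0, -1, 1], [0, 0, 0, 0, -1, 1, 0], [1, 0, -1, -3, 0, 0, -1]]⟩,
    ⟨10, [[1, 1, 0, 1, 0, 0, 6], [0, 2, 0, 1, 0, 0, 2], [0, 0, 1, 3, 0, 1, 9], [0, 0, 0, 6, 0, 0, 0], [0, 0, 0, 0, 1, 1, 6], [0, 0, 0, 0, 0, 2, 0], [0, 0, 0, 0, 0, 0, 12]],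
     [[-4, -2, -1, 2, 1, 1, 1], [-1, 0, 1, -1, 0, 0, 0], [1, 0, 0, 0, 2, 0, 0], [-1, 0, 0, 0, -1, 0, 0], [0, 0, 0, 0, 0, -1, 1], [2, 0, 0, 0, -1, 1, 0], [-4, 1, 0, -1, -2, 0, -1]],
     [[0, 2, 0, 0, 0, 0, 0], [0, 0, 0, 0, 0, 0, 0], [0, 0, 0, 0, 0, 0, 0], [0, 0, 0, 0, 0, 0, 0], [0, 0, 0, 0, 0, 0, 0], [0, 0, 0, 0, 0, 0, 0], [0, 0, 0, 0, 0, 0, 0]]⟩]⟩

theorem sc42_ok : chkStep sc42 = true := by decide +kernel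

def U42 : List (List Int) :=
  [[3, -8, -1, -8, 0, -10, -5], [-2, 5, 0, 5, 0, 5, 5], [1, -2, -1, -3, 0, -2, -2], [0, -1, 0, 0, 0, -1, -1], [0, 0, 0, 0, 1, 0, 0], [1, -3, 0, -3, 0, -3, -2], [1, -2, 0, -2, 0, -3, -2]]

def V42 : List (List Int) :=
  [[5, -8, -5, -5, 0, -15, -10], [-2, 3, 2, 1, 0, 5, 5], [-1, 1, 0, 0, 0, 3, 2], [2, -3, -2, -1, 0, -6, -4], [0, 0, 0, 0, 1, 0, 0], [1, -2, -1, -1, 0, -3, -3], [1, -1, -1, -1, 0, -2, -2]]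

theorem nr42_ok : chkNR sc42.G [1, -1, 0, 0, 0, 0, 0] U42 V42
    [-1, -1, 1, -1, -1, 1, 0] [6, -2, -1, 2, 1, 1, 1]
    [0, -1, 1, 0, 0, 0, -1] [sc42] = true := by decide +kernel

end RH6.NR
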