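import Pool.Agent.RH6.YDef

/-! An infinite order symmetry of a chamber, `L2:4-_7:6+`. -/

namespace RH6.NR

def sc43 : SCert :=
  ⟨[[0, 1, 0, 0, 0, 0, 0], [1, 0, 0, 0, 0, 0, 0], [0, 0, 2, 0, 0, 0, 0], [0, 0, 0, 2, 0, 0, 0], [0, 0, 0, 0, 2, 0, 0], [0, 0, 0, 0, 0, 2, 0], [0, 0, 0, 0, 0, 0, 14]], 14,
   [[0, 14, 0, 0, 0, 0, 0], [14, 0, 0, 0, 0, 0, 0], [0, 0, 7, 0, 0, 0, 0], [0, 0, 0, 7, 0, 0, 0], [0, 0, 0, 0, 7, 0, 0], [0, 0, 0, 0, 0, 7, 0], [0, 0, 0, 0, 0, 0, 1]],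
   [14, -14, 4, 1, 1, 1, 5], [4, -4, 2, 1, 1, 1, 1], [1, 0, 0, 1, 0, -1, 0], [19, -17, 8, 8, 7, 6, 4],
   [[-1, -1, 0, 0, 0, 0, 0], [0, 0, 0, 0, -1, 1, 0], [0, 0, 0, -2, 1, 1, 0], [-7, 7, -7, 0, 0, 0, -2], [12, -12, 4, 4, 4, 4, 4]], 1344, [672, 336, 112, 24, 21], 14, 70, 14,
   16, [1, 11, -8, -8, -8, 2, -3], 8, [-4, 48, -8, -4, -4, 4, 3],
   [⟨2, [[2, 0, 1, 0, 4, 21, 12], [0, 2, 1, 0, 4, 35, 12], [0, 0, 2, 0, 0, 0, 0], [0, 0, 0, 2, 6, 0, 0], [0, 0, 0, 0, 12, 0, 0], [0, 0, 0, 0, 0, 56, 0], [0, 0, 0, 0, 0, 0, 16]],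
     [[-1, -1, 0, 0, 0, 0, 0], [0, 0, 0, 0, 0, 0, 0], [-1, 0, 0, 0, 0, 0, 0], [0, 0, 0, 0, 0, 0, 0], [-1, -1, 0, 0, 0, 0, 0], [0, 0, 0, 0, 0, 0, 0], [0, 0, 0, 0, 0, 0, 0]],
     [[-6, 8, 4, 1, 1, 1, 35], [-2, 2, 2, 1, 1, 1, 7], [4, -4, -3, -1, -1, -1, -21], [0, 0, 0, 0, -1, 1, 0], [4, -2, -2, -1, 0, -1, -14], [4, -4, -3, -1, -1, -1, -18], [6, -6, -4, -1, -1, -1, -28]]⟩,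
    ⟨4, [[1, 1, 0, 0, 4, 0, 4], [0, 2, 0, 0, 4, 7, 12], [0, 0, 1, 0, 0, 0, 8], [0, 0, 0, 1, 3, 0, 0], [0, 0, 0, 0, 6, 0, 0], [0, 0, 0, 0, 0, 28, 8], [0, 0, 0, 0, 0, 0, 16]],
     [[-2, -2, 0, 1, 1, 1, 0], [-1, 1, -1, 0, 0, 0, 0], [-1, -1, 0, 0, 0, 0, 0], [0, 0, 0, 0, -1, 1, 0], [-2, -2, -2, -1, 0, -1, 0], [1, -1, 0, 0, 0, 0, 0], [1, 0, 0, 0, 0, 0, 0]],
     [[-6, 8, 4, 0, 0, 0, 35], [2, -2, 0, 0, 0, 0, -14], [0, 0, 0, 0, 0, 0, 0], [0, 0, 0, 0, 0, 0, 0], [4, -2, 0, 0, 0, 0, -14], [0, 0, 0, 0, 0, 0, 3], [0, 0, 0, 0, 0, 0, 2]]⟩,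
    ⟨14, [[2, 0, 1, 0, 4, 5, 12], [0, 2, 1, 0, 4, 3, 12], [0, 0, 2, 0, 0, 0, 0], [0, 0, 0, 2, 6, 0, 0], [0, 0, 0, 0, 12, 0, 0], [0, 0, 0, 0, 0, 8, 0], [0, 0, 0, 0, 0, 0, 16]],
     [[-7, -7, 2, -3, -3, -3, 0], [2, -2, -6, -3, -3, -3, 0], [-5, 4, -5, 3, 3, 3, 0], [0, 0, 0, 0, 3, -3, 0], [-3, 3, 6, 3, 0, 3, 0], [-6, 6, 1, 3, 3, 3, 0], [-6, 6, -2, 3, 3, 3, 0]],
     [[0, 2, 0, 1, 1, 1, 5], [0, 0, 2, 1, 1, 1, 1], [0, 0, 1, -1, -1, -1, -3], [0, 0, 0, 0, -1, 1, 0], [0, 0, -2, -1, 0, -1, -2], [0, 0, -1, -1, -1, -1, -4], [0, 0, 0, -1, -1, -1, -4]]⟩,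
    ⟨28, [[1, 1, 0, 0, 4, 0, 4], [0, 2, 0, 0, 4, 3, 4], [0, 0, 1, 0, 0, 0, 8], [0, 0, 0, 1, 3, 0, 0], [0, 0, 0, 0, 6, 0, 0], [0, 0, 0, 0, 0, 4, 8], [0, 0, 0, 0, 0, 0, 16]],
     [[-14, -14, 4, 1, 1, 1, 5], [-5, 5, -1, 0, 0, 0, -2], [-1, -1, 0, 0, 0, 0, 0], [0, 0, 0, 0, -1, 1, 0], [-6, 6, -2, -1, 0, -1, -2], [2, -2, -1, 0, 0, 0, 1], [-2, 3, 0, 0, 0, 0, -1]],
     [[0, 2, 0, 0, 0, 0, 0], [0, 0, 0, 0, 0, 0, 0], [0, 0, 0, 0, 0, 0, 0], [0, 0, 0, 0, 0, 0, 0], [0, 0, 0, 0, 0, 0, 0], [0, 0, 0, 0, 0, 0, 0], [0, 0, 0, 0, 0, 0, 0]]⟩]⟩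

theorem sc43_ok : chkStep sc43 = true := by decide +kernel

def U43 : List (List Int) :=
  [[19, -20, -10, -4, -4, -4, -98], [-17, 17, 10, 4, 4, 4, 84], [8, -9, -5, -2, -2, -2, -42], [7, -7, -4, -1, -1, -2, -35], [7, -7, -4, -1, -2, -1, -35], [7, -7, -4, -2, -1, -1, -35], [4, -4, -2, -1, -1, -1, -20]]

def V43 : List (List Int) :=
  [[17, -20, -18, -14, -14, -14, -56], [-17, 19, 16, 14, 14, 14, 56], [5, -5, -5, -4, -4, -4, -14], [2, -2, -2, -1, -1, -2, -7], [2, -2, -2, -1, -2, -1, -7], [2, -2, -2, -2, -1, -1, -7], [6, -7, -6, -5, -5, -5, -20]]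

theorem nr43_ok : chkNR sc43.G [1, -1, 0, 0, 0, 0, 0] U43 V43
    [-1, -1, -1, -1, -1, -1, 1] [14, -14, 4, 1, 1, 1, 5]
    [1, 0, 0, 1, 0, -1, 0] [sc43] = true := by decide +kernel

end RH6.NR
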