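import Pool.Agent.RH6.YDef
import Pool.Agent.RH6.U3

open Matrix

namespace RH6

/-- Row [RH-Y2] -/
theorem loopM_sound {f : ℕ → ℕ} (hf : Monotone f) {q rem : ℕ} {F : ℕ → Bool} {fuel y₀ : ℕ}
    (h : loopM f q rem F fuel y₀ = true) (k : ℕ) (hk : f (y₀ + q * k) ≤ rem) :
    F (y₀ + q * k) = true := by
  induction k generalizing fuel y₀ with
  | zero =>
    cases fuel with
    | zero => simp [loopM] at h
    | succ g =>
      rw [mul_zero, add_zero] at hk ⊢
      have h1 : Nat.ble (f y₀) rem = true := Nat.ble_eq.mpr hk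
      unfold loopM at h
      rw [h1, cond_true, Bool.and_eq_true] at h
      exact h.1
  | succ k ih =>
    cases fuel with
    | zero => simp [loopM] at h
    | succ g =>
      have h2 : f y₀ ≤ rem := (hf (Nat.le_add_right _ _)).trans hk
      have h1 : Nat.ble (f y₀) rem = true := Nat.ble_eq.mpr h2
      unfold loopM at h
      rw [h1, cond_true, Bool.and_eq_true] at h
      have e : y₀ + q * (k + 1) = (y₀ + q) + q * k := by ring
      rw [e] at hk ⊢
      exact ih h.2 hk

/-- coordinates: `w_i = base_i + ∑_{j ≤ i} u_j h_{j,i}` -/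
def wOf' : List (Nat × List Int) → List Int → List Int → List Int
  | (_, h) :: l, base, u :: us =>
    (base.headD 0 + u * h.headD 0) :: wOf' l (addL base.tail (sclL u h.tail)) us
  | _, _, _ => []

def sumC' : List (Nat × List Int) → List Int → Int
  | (c, _) :: l, w :: ws => c * w ^ 2 + sumC' l ws
  | _, _ => 0

theorem y2_sumC_nonneg (l : List (Nat × List Int)) (ws : List Int) : 0 ≤ sumC' l ws := by
  induction l generalizing ws with
  | nil => cases ws <;> simp [sumC']
  | cons r l ih =>
    obtain ⟨c, h⟩ := r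
    cases ws with
    | nil => simp [sumC']
    | cons w ws =>
      simp only [sumC']
      have := ih ws
      positivity

/-- Row [RH-Y2]: as `bsrch_sound` (see U3.lean for the argument). -/
theorem vsrch_sound {P : List Int → Bool} {rows : List (Nat × List Int)} {rem : ℕ}
    {base acc : List Int} (h : vsrch P rows rem base acc = true) (hc : ∀ r ∈ rows, 0 < r.1)
    (hq : ∀ r ∈ rows, 0 < r.2.headD 0) {us : List Int} (hl : us.length = rows.length)
    (hs : sumC' rows (wOf' rows base us) = rem) :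
    P (acc.reverse ++ wOf' rows base us) = true := by
  induction rows generalizing rem base acc us with
  | nil =>
    cases us with
    | cons u us => simp at hl
    | nil =>
      simp only [sumC'] at hs
      have h0 : rem = 0 := by exact_mod_cast hs.symm
      subst h0
      simp only [vsrch, Bool.or_eq_true, Bool.not_eq_true'] at h
      rcases h with h | h
      · exact absurd h (by decide)
      · simpa [wOf'] using h
  | cons row l ih =>
    obtain ⟨c, hh⟩ := row
    cases us with
    | nil => simp at hl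
    | cons u us =>
      simp only [List.length_cons, add_left_inj] at hl
      have hc0 : 0 < c := hc (c, hh) (List.mem_cons_self)
      have hq0 : 0 < hh.headD 0 := hq (c, hh) (List.mem_cons_self)
      have hcl : ∀ r ∈ l, 0 < r.1 := fun r hr => hc r (List.mem_cons_of_mem _ hr)
      have hql : ∀ r ∈ l, 0 < r.2.headD 0 := fun r hr => hq r (List.mem_cons_of_mem _ hr)
      simp only [wOf', sumC'] at hs
      simp only [wOf']
      rw [vsrch, Bool.and_eq_true] at h
      obtain ⟨h1, h2⟩ := h
      set b : ℤ := base.headD 0 with hb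
      set q : ℤ := hh.headD 0 with hqd
      set ws : List Int := wOf' l (addL base.tail (sclL u hh.tail)) us with hws
      have hpos := y2_sumC_nonneg l ws
      have hr0 : 0 ≤ b % q := Int.emod_nonneg _ hq0.ne'
      have hr1 : b % q < q := Int.emod_lt_of_pos _ hq0
      have hbq : b = b % q + q * (b / q) := (Int.emod_add_mul_ediv b q).symm
      have hqn : ((q.toNat : ℕ) : ℤ) = q := Int.toNat_of_nonneg hq0.le
      have hrn : (((b % q).toNat : ℕ) : ℤ) = b % q := Int.toNat_of_nonneg hr0
      rcases le_or_gt 0 (b + u * q) with hw | hw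
      · obtain ⟨y, hy⟩ := Int.eq_ofNat_of_zero_le hw
        have hcy : c * (y * y) ≤ rem := by
          have : ((c * (y * y) : ℕ) : ℤ) ≤ (rem : ℤ) := by
            push_cast
            rw [← hs, hy]
            nlinarith
          exact_mod_cast this
        have hk : 0 ≤ b / q + u := by
          by_contra hcon
          have h3 : b / q + u ≤ -1 := by omega
          have h4 : q * (b / q + u) ≤ q * (-1) := mul_le_mul_of_nonneg_left h3 hq0.le
          have h5 : b + u * q = b % q + q * (b / q + u) := by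
            conv_lhs => rw [hbq]
            ring
          rw [h5] at hw
          linarith
        obtain ⟨k, hk'⟩ := Int.eq_ofNat_of_zero_le hk
        have hyk : y = (b % q).toNat + q.toNat * k := by
          have : (y : ℤ) = ((b % q).toNat : ℤ) + (q.toNat : ℤ) * (k : ℤ) := by
            rw [hrn, hqn, ← hk', ← hy]
            conv_lhs => rw [hbq]
            ring
          exact_mod_cast this
        have h6 := loopN_sound h1 k (by rw [← hyk]; exact hcy)
        rw [← hyk] at h6
        have h7 : ((y : ℤ) - b) / q = u := by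
          rw [← hy, add_sub_cancel_left]
          exact Int.mul_ediv_cancel _ hq0.ne'
        simp only [h7] at h6
        have h8 := ih h6 hcl hql hl (by
          rw [← hws, Nat.cast_sub hcy]
          push_cast
          rw [← hs, hy]
          ring)
        rw [← hws] at h8
        rw [hy]
        simpa [List.reverse_cons, List.append_assoc] using h8
      · have hw' : 0 ≤ -(b + u * q) := by linarith
        obtain ⟨y, hy⟩ := Int.eq_ofNat_of_zero_le hw'
        have hy2 : b + u * q = -(y : ℤ) := by linarith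
        have hcy : c * (y * y) ≤ rem := by
          have : ((c * (y * y) : ℕ) : ℤ) ≤ (rem : ℤ) := by
            push_cast
            rw [← hs, hy2]
            nlinarith
          exact_mod_cast this
        have hk : 0 ≤ -(b / q + u) - 1 := by
          by_contra hcon
          have h3 : 0 ≤ b / q + u := by omega
          have h4 : 0 ≤ q * (b / q + u) := mul_nonneg hq0.le h3
          have h5 : b + u * q = b % q + q * (b / q + u) := by
            conv_lhs => rw [hbq]
            ring
          rw [h5] at hw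
          linarith
        obtain ⟨k, hk'⟩ := Int.eq_ofNat_of_zero_le hk
        have hrq : (b % q).toNat ≤ q.toNat := by omega
        have hyk : y = (q.toNat - (b % q).toNat) + q.toNat * k := by
          have : (y : ℤ) = ((q.toNat - (b % q).toNat : ℕ) : ℤ) + (q.toNat : ℤ) * (k : ℤ) := by
            rw [Nat.cast_sub hrq, hrn, hqn, ← hk', ← hy]
            conv_lhs => rw [hbq]
            ring
          exact_mod_cast this
        have h6 := loopN_sound h2 k (by rw [← hyk]; exact hcy)
        rw [← hyk] at h6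
        have h7 : (-(y : ℤ) - b) / q = u := by
          rw [← hy2, add_sub_cancel_left]
          exact Int.mul_ediv_cancel _ hq0.ne'
        simp only [h7] at h6
        have h8 := ih h6 hcl hql hl (by
          rw [← hws, Nat.cast_sub hcy]
          push_cast
          rw [← hs, hy2]
          ring)
        rw [← hws] at h8
        rw [hy2]
        simpa [List.reverse_cons, List.append_assoc] using h8

/-- Row [RH-Y2]: the search of a step certificate: `H` is upper triangular (7 rows of length 7) with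
positive diagonal, `W_i = ∑_j u_j H_ji`, `W_0 ≥ 0 ≥ W_1`,
`A W_0² - 2 K W_0 W_1 + B W_1² + ∑ c_i W_{i+2}² = 4D/n`; then the test succeeds on `W`.

Proof.  `a = W_0 = u_0 H_00 = q0 u_0`, `u_0 ≥ 0`, `A a² ≤ 4D/n` (all other terms are `≥ 0`; note
`-2K W_0 W_1 ≥ 0`); `loopM_sound` with `y₀ = 0`.  `W_1 = u_0 H_01 + u_1 H_11`; `z = -W_1 ≥ 0`,
`z ≡ -(u_0 H_01) mod q1`; the cost function of `z` is monotone; `loopM_sound`.  Then
`vsrch_sound`. -/
theorem srchS_sound {C : SCert} {n : ℕ} {H : List (List Int)} (h : srchS C n H = true)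
    (hc : ∀ i < 5, 0 < C.c.getD i 0) (hH : ∀ j < 7, (H.getD j []).length = 7 ∧
      0 < (H.getD j []).getD j 0 ∧ ∀ i < j, (H.getD j []).getD i 0 = 0) {u W : ℕ → ℤ}
    (hw : ∀ i < 7, W i = ∑ j ∈ Finset.range 7, u j * (H.getD j []).getD i 0)
    (h0 : 0 ≤ W 0) (h1 : W 1 ≤ 0)
    (hs : C.A * W 0 ^ 2 - 2 * C.K * (W 0 * W 1) + C.B * W 1 ^ 2 +
      ∑ i ∈ Finset.range 5, (C.c.getD i 0 : ℤ) * W (i + 2) ^ 2 = ((4 * C.D / n : ℕ) : ℤ)) :
    leafS C.α C.β ((List.range 7).map W) = true := by
  have L7 : ∀ l : List Int, l.length = 7 → ∃ a b c d e f g, l = [a, b, c, d, e, f, g] := by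
    intro l hl
    match l, hl with
    | [a, b, c, d, e, f, g], _ => exact ⟨a, b, c, d, e, f, g, rfl⟩
  obtain ⟨a00, a01, a02, a03, a04, a05, a06, e0⟩ := L7 _ (hH 0 (by norm_num)).1
  obtain ⟨a10, a11, a12, a13, a14, a15, a16, e1⟩ := L7 _ (hH 1 (by norm_num)).1
  obtain ⟨a20, a21, a22, a23, a24, a25, a26, e2⟩ := L7 _ (hH 2 (by norm_num)).1
  obtain ⟨a30, a31, a32, a33, a34, a35, a36, e3⟩ := L7 _ (hH 3 (by norm_num)).1
  obtain ⟨a40, a41, a42, a43, a44, a45, a46, e4⟩ := L7 _ (hH 4 (by norm_num)).1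
  obtain ⟨a50, a51, a52, a53, a54, a55, a56, e5⟩ := L7 _ (hH 5 (by norm_num)).1
  obtain ⟨a60, a61, a62, a63, a64, a65, a66, e6⟩ := L7 _ (hH 6 (by norm_num)).1
  have d0 := (hH 0 (by norm_num)).2.1
  have d1 := (hH 1 (by norm_num)).2.1
  have d2 := (hH 2 (by norm_num)).2.1
  have d3 := (hH 3 (by norm_num)).2.1
  have d4 := (hH 4 (by norm_num)).2.1
  have d5 := (hH 5 (by norm_num)).2.1
  have d6 := (hH 6 (by norm_num)).2.1
  have z10 := (hH 1 (by norm_num)).2.2 0 (by norm_num)
  have z20 := (hH 2 (by norm_num)).2.2 0 (by norm_num)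
  have z21 := (hH 2 (by norm_num)).2.2 1 (by norm_num)
  have z30 := (hH 3 (by norm_num)).2.2 0 (by norm_num)
  have z31 := (hH 3 (by norm_num)).2.2 1 (by norm_num)
  have z32 := (hH 3 (by norm_num)).2.2 2 (by norm_num)
  have z40 := (hH 4 (by norm_num)).2.2 0 (by norm_num)
  have z41 := (hH 4 (by norm_num)).2.2 1 (by norm_num)
  have z42 := (hH 4 (by norm_num)).2.2 2 (by norm_num)
  have z43 := (hH 4 (by norm_num)).2.2 3 (by norm_num)
  have z50 := (hH 5 (by norm_num)).2.2 0 (by norm_num)
  have z51 := (hH 5 (by norm_num)).2.2 1 (by norm_num)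
  have z52 := (hH 5 (by norm_num)).2.2 2 (by norm_num)
  have z53 := (hH 5 (by norm_num)).2.2 3 (by norm_num)
  have z54 := (hH 5 (by norm_num)).2.2 4 (by norm_num)
  have z60 := (hH 6 (by norm_num)).2.2 0 (by norm_num)
  have z61 := (hH 6 (by norm_num)).2.2 1 (by norm_num)
  have z62 := (hH 6 (by norm_num)).2.2 2 (by norm_num)
  have z63 := (hH 6 (by norm_num)).2.2 3 (by norm_num)
  have z64 := (hH 6 (by norm_num)).2.2 4 (by norm_num)
  have z65 := (hH 6 (by norm_num)).2.2 5 (by norm_num)
  have w0 := hw 0 (by norm_num)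
  have w1 := hw 1 (by norm_num)
  have w2 := hw 2 (by norm_num)
  have w3 := hw 3 (by norm_num)
  have w4 := hw 4 (by norm_num)
  have w5 := hw 5 (by norm_num)
  have w6 := hw 6 (by norm_num)
  simp only [e0, e1, e2, e3, e4, e5, e6, List.getD_cons_zero, List.getD_cons_succ] at d0 d1 d2 d3 d4 d5 d6
  simp only [e0, e1, e2, e3, e4, e5, e6, List.getD_cons_zero, List.getD_cons_succ] at z10 z20 z21 z30 z31 z32 z40
  simp only [e0, e1, e2, e3, e4, e5, e6, List.getD_cons_zero, List.getD_cons_succ] at z41 z42 z43 z50 z51 z52 z53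
  simp only [e0, e1, e2, e3, e4, e5, e6, List.getD_cons_zero, List.getD_cons_succ] at z54 z60 z61 z62 z63 z64 z65
  simp only [e0, e1, e2, e3, e4, e5, e6, Finset.sum_range_succ, Finset.sum_range_zero,
    List.getD_cons_zero, List.getD_cons_succ] at w0 w1 w2 w3 w4 w5 w6
  simp only [Finset.sum_range_succ, Finset.sum_range_zero] at hs
  subst z10 z20 z21 z30 z31 z32 z40 z41 z42 z43 z50 z51 z52 z53 z54 z60 z61 z62 z63 z64 z65
  have hc0 := hc 0 (by norm_num)
  have hc1 := hc 1 (by norm_num)
  have hc2 := hc 2 (by norm_num)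
  have hc3 := hc 3 (by norm_num)
  have hc4 := hc 4 (by norm_num)
  have er : (List.range 5).map (fun i => (C.c.getD i 0, (H.getD (i + 2) []).drop (i + 2))) =
      [(C.c.getD 0 0, [a22, a23, a24, a25, a26]),
       (C.c.getD 1 0, [a33, a34, a35, a36]),
       (C.c.getD 2 0, [a44, a45, a46]),
       (C.c.getD 3 0, [a55, a56]),
       (C.c.getD 4 0, [a66])] := by
    have : List.range 5 = [0, 1, 2, 3, 4] := by decide
    rw [this]
    simp only [List.map_cons, List.map_nil, e2, e3, e4, e5, e6, List.drop_succ_cons,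
      List.drop_zero, zero_add, Nat.reduceAdd]
  set R : ℕ := 4 * C.D / n with hR
  -- the first coordinate
  have w0' : W 0 = u 0 * a00 := by rw [w0]; ring
  have w1' : W 1 = u 0 * a01 + u 1 * a11 := by rw [w1]; ring
  have hu0 : 0 ≤ u 0 := by
    by_contra hcon
    have h3 : u 0 ≤ -1 := by omega
    nlinarith
  obtain ⟨k0, hk0⟩ := Int.eq_ofNat_of_zero_le hu0
  obtain ⟨a, ha⟩ := Int.eq_ofNat_of_zero_le h0
  obtain ⟨z, hz⟩ := Int.eq_ofNat_of_zero_le (neg_nonneg.2 h1)
  have hz' : W 1 = -(z : ℤ) := by linarith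
  have hsumpos : 0 ≤ (C.c.getD 0 0 : ℤ) * W 2 ^ 2 + (C.c.getD 1 0 : ℤ) * W 3 ^ 2 +
      (C.c.getD 2 0 : ℤ) * W 4 ^ 2 + (C.c.getD 3 0 : ℤ) * W 5 ^ 2 +
      (C.c.getD 4 0 : ℤ) * W 6 ^ 2 := by positivity
  simp only [zero_add, Nat.reduceAdd] at hs
  have hcost : C.A * (a * a) + 2 * C.K * (a * z) + C.B * (z * z) ≤ R := by
    have : ((C.A * (a * a) + 2 * C.K * (a * z) + C.B * (z * z) : ℕ) : ℤ) ≤ (R : ℤ) := by
      push_cast
      rw [← hs, ha, hz']
      nlinarith
    exact_mod_cast this
  have hcost0 : C.A * (a * a) ≤ R :=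
    le_trans (by rw [add_assoc]; exact Nat.le_add_right _ _) hcost
  have hq0 : ((a00.toNat : ℕ) : ℤ) = a00 := Int.toNat_of_nonneg d0.le
  have hq1 : ((a11.toNat : ℕ) : ℤ) = a11 := Int.toNat_of_nonneg d1.le
  have hak : a = 0 + a00.toNat * k0 := by
    have : (a : ℤ) = 0 + (a00.toNat : ℤ) * (k0 : ℤ) := by
      rw [hq0, ← hk0, ← ha, w0']
      ring
    exact_mod_cast this
  unfold srchS at h
  rw [er, e0, e1] at h
  simp only [List.drop_succ_cons, List.drop_zero, List.headD_cons, List.tail_cons] at h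
  have h6 := loopM_sound (f := fun a => C.A * (a * a)) (by
    intro p q hpq
    exact Nat.mul_le_mul_left _ (Nat.mul_le_mul hpq hpq)) h k0 (by rw [← hak]; exact hcost0)
  rw [← hak] at h6
  have hdiv0 : ((a : ℤ)) / ((a00.toNat : ℕ) : ℤ) = u 0 := by
    rw [hq0, ← ha, w0']
    exact Int.mul_ediv_cancel _ d0.ne'
  simp only [hdiv0, sclL, List.headD_cons, List.tail_cons] at h6
  -- the second coordinate
  have hr0 : 0 ≤ (-(u 0 * a01)) % a11 := Int.emod_nonneg _ d1.ne'
  have hrn : ((((-(u 0 * a01)) % a11).toNat : ℕ) : ℤ) = (-(u 0 * a01)) % a11 :=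
    Int.toNat_of_nonneg hr0
  have hbq : -(u 0 * a01) = (-(u 0 * a01)) % a11 + a11 * ((-(u 0 * a01)) / a11) :=
    (Int.emod_add_mul_ediv _ _).symm
  have hr1 : (-(u 0 * a01)) % a11 < a11 := Int.emod_lt_of_pos _ d1
  have hk : 0 ≤ (-(u 0 * a01)) / a11 - u 1 := by
    by_contra hcon
    have h3 : (-(u 0 * a01)) / a11 - u 1 ≤ -1 := by omega
    have h4 : a11 * ((-(u 0 * a01)) / a11 - u 1) ≤ a11 * (-1) :=
      mul_le_mul_of_nonneg_left h3 d1.le
    have h5 : (z : ℤ) = (-(u 0 * a01)) % a11 + a11 * ((-(u 0 * a01)) / a11 - u 1) := by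
      have : (z : ℤ) = -(u 0 * a01) - a11 * u 1 := by
        rw [← hz, w1']
        ring
      rw [this]
      conv_lhs => rw [hbq]
      ring
    have h7 : (0 : ℤ) ≤ z := Int.natCast_nonneg z
    linarith
  obtain ⟨k1, hk1⟩ := Int.eq_ofNat_of_zero_le hk
  have hzk : z = ((-(u 0 * a01)) % a11).toNat + a11.toNat * k1 := by
    have : (z : ℤ) = (((-(u 0 * a01)) % a11).toNat : ℤ) + (a11.toNat : ℤ) * (k1 : ℤ) := by
      rw [hrn, hq1, ← hk1, ← hz, w1']
      have h8 : -(u 0 * a01 + u 1 * a11) = -(u 0 * a01) - a11 * u 1 := by ring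
      rw [h8]
      conv_lhs => rw [hbq]
      ring
    exact_mod_cast this
  rw [hq1] at h6
  have h7 := loopM_sound (f := fun z => C.A * (a * a) + 2 * C.K * (a * z) + C.B * (z * z)) (by
    intro p q hpq
    exact Nat.add_le_add (Nat.add_le_add_left (Nat.mul_le_mul_left _ (Nat.mul_le_mul_left _ hpq))
      _) (Nat.mul_le_mul_left _ (Nat.mul_le_mul hpq hpq))) h6 k1 (by rw [← hzk]; exact hcost)
  rw [← hzk] at h7
  have hdiv1 : (-(z : ℤ) - u 0 * a01) / a11 = u 1 := by
    rw [← hz', w1', add_sub_cancel_left]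
    exact Int.mul_ediv_cancel _ d1.ne'
  simp only [hdiv1] at h7
  have hww : wOf' [(C.c.getD 0 0, [a22, a23, a24, a25, a26]),
       (C.c.getD 1 0, [a33, a34, a35, a36]),
       (C.c.getD 2 0, [a44, a45, a46]),
       (C.c.getD 3 0, [a55, a56]),
       (C.c.getD 4 0, [a66])] (addL [u 0 * a02, u 0 * a03, u 0 * a04, u 0 * a05, u 0 * a06]
      [u 1 * a12, u 1 * a13, u 1 * a14, u 1 * a15, u 1 * a16]) [u 2, u 3, u 4, u 5, u 6] =
       [W 2, W 3, W 4, W 5, W 6] := by
    simp only [wOf', sclL, addL, List.headD_cons, List.tail_cons]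
    rw [w2, w3, w4, w5, w6]
    simp only [List.cons.injEq, and_true]
    refine ⟨?_, ?_, ?_, ?_, ?_⟩ <;> ring
  have key := vsrch_sound h7 (by
      intro r hr
      simp only [List.mem_cons, List.not_mem_nil, or_false] at hr
      rcases hr with rfl | rfl | rfl | rfl | rfl <;> assumption) (by
      intro r hr
      simp only [List.mem_cons, List.not_mem_nil, or_false] at hr
      rcases hr with rfl | rfl | rfl | rfl | rfl <;> assumption)
    (us := [u 2, u 3, u 4, u 5, u 6]) rfl (by
      rw [hww]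
      simp only [sumC']
      rw [Nat.cast_sub hcost, ← hs, ha, hz']
      push_cast
      ring)
  rw [hww] at key
  have hrange : (List.range 7).map W = [W 0, W 1, W 2, W 3, W 4, W 5, W 6] := by
    have : List.range 7 = [0, 1, 2, 3, 4, 5, 6] := by decide
    rw [this]
    simp only [List.map_cons, List.map_nil]
  rw [hrange, ha, hz']
  exact key

end RH6
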