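import Pool.Agent.RH6.Y1
import Pool.Agent.RH6.Y2
import Pool.Agent.RH6.U4

open Matrix

namespace RH6

/-! Lists. -/

theorem y3_scl (c : ℤ) : ∀ (l : List ℤ) (i : ℕ), (sclL c l).getD i 0 = c * l.getD i 0
  | [], i => by simp [sclL]
  | a :: l, 0 => by simp [sclL]
  | a :: l, i + 1 => by simpa [sclL] using y3_scl c l i

theorem y3_scl_len (c : ℤ) : ∀ l : List ℤ, (sclL c l).length = l.length
  | [] => rfl
  | a :: l => by simp [sclL, y3_scl_len c l]

theorem y3_add : ∀ (x y : List ℤ) (i : ℕ), x.length = y.length →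
    (addL x y).getD i 0 = x.getD i 0 + y.getD i 0
  | [], [], i, _ => by simp [addL]
  | [], b :: y, i, h => by simp at h
  | a :: x, [], i, h => by simp at h
  | a :: x, b :: y, 0, _ => by simp [addL]
  | a :: x, b :: y, i + 1, h => by
    have h' : x.length = y.length := by simpa using h
    simpa [addL] using y3_add x y i h'

theorem y3_add_len : ∀ (x y : List ℤ), x.length = y.length → (addL x y).length = x.length
  | [], [], _ => rfl
  | [], b :: y, h => by simp at h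
  | a :: x, [], h => by simp at h
  | a :: x, b :: y, h => by
    have h' : x.length = y.length := by simpa using h
    simp [addL, y3_add_len x y h']

theorem y3_vscl (c : ℤ) (l : List ℤ) : vecL (sclL c l) = c • vecL l := by
  funext i
  exact y3_scl c l i

theorem y3_vadd {x y : List ℤ} (h : x.length = y.length) :
    vecL (addL x y) = vecL x + vecL y := by
  funext i
  exact y3_add x y i h

theorem y3_dot : ∀ (x y : List ℤ), x.length = y.length →
    dotL x y = ∑ i ∈ Finset.range x.length, x.getD i 0 * y.getD i 0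
  | [], [], _ => by simp [dotL]
  | [], b :: y, h => by simp at h
  | a :: x, [], h => by simp at h
  | a :: x, b :: y, h => by
    have h' : x.length = y.length := by simpa using h
    rw [dotL, y3_dot x y h', List.length_cons, Finset.sum_range_succ']
    simp [add_comm]

theorem y3_map {α β : Type} {l : List α} {f : α → β} {i : ℕ} (h : i < l.length) (d : β) (d' : α) :
    (l.map f).getD i d = f (l.getD i d') := by
  rw [List.getD_eq_getElem _ _ (by simpa using h), List.getD_eq_getElem _ _ h, List.getElem_map]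

theorem y3_len77 {l : List (List ℤ)} (h : len77 l = true) :
    l.length = 7 ∧ ∀ r ∈ l, r.length = 7 := by
  rw [len77, Bool.and_eq_true, List.all_eq_true] at h
  exact ⟨Nat.eq_of_beq_eq_true h.1, fun r hr => Nat.eq_of_beq_eq_true (h.2 r hr)⟩

theorem y3_row {l : List (List ℤ)} (h : l.length = 7) (hr : ∀ r ∈ l, r.length = 7) {i : ℕ}
    (hi : i < 7) : (l.getD i []).length = 7 := by
  rw [List.getD_eq_getElem _ _ (by omega)]
  exact hr _ (List.getElem_mem _)

theorem y3_not {b : Bool} (h : (!b) = true) : b = false := by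
  cases b
  · rfl
  · exact absurd h (by decide)

theorem y3_pos {a : ℤ} : posI a = true ↔ 0 < a := by
  rcases a with (_ | n) | n
  · simp [posI]
  · simp only [posI, Int.ofNat_eq_natCast, true_iff]
    omega
  · simp only [posI, Bool.false_eq_true, false_iff]
    omega

/-- the symmetry of the form -/
theorem y3_symm {G : Matrix (Fin 7) (Fin 7) ℤ} (hG : Gᵀ = G) (x y : Fin 7 → ℤ) :
    bZ G x y = bZ G y x := by
  rw [bZ, bZ, Matrix.dotProduct_mulVec, ← Matrix.mulVec_transpose, hG, dotProduct_comm]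

theorem y3_vecMul {G : Matrix (Fin 7) (Fin 7) ℤ} (hG : Gᵀ = G) (x : Fin 7 → ℤ) :
    x ᵥ* G = G *ᵥ x := by
  rw [← Matrix.mulVec_transpose, hG]

/-- rows of a product -/
theorem y3_mulLL {A B : List (List ℤ)} (hA : A.length = 7) (hAr : ∀ r ∈ A, r.length = 7)
    (hB : B.length = 7) (hBr : ∀ r ∈ B, r.length = 7) :
    (mulLL A B).length = 7 ∧ (∀ r ∈ mulLL A B, r.length = 7) ∧
    (∀ i < 7, vecL ((mulLL A B).getD i []) = vecL (A.getD i []) ᵥ* ofL B) ∧
    ofL (mulLL A B) = ofL A * ofL B := by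
  have h1 : ∀ i < 7, (mulLL A B).getD i [] = combL (A.getD i []) B := by
    intro i hi
    rw [mulLL, y3_map (by omega) [] []]
  have h2 : ∀ i < 7, vecL ((mulLL A B).getD i []) = vecL (A.getD i []) ᵥ* ofL B := by
    intro i hi
    rw [h1 i hi]
    exact (combL_eq (y3_row hA hAr hi) hB hBr).2
  refine ⟨by simpa [mulLL] using hA, ?_, h2, ?_⟩
  · intro r hr
    rw [mulLL] at hr
    obtain ⟨s, hs, rfl⟩ := List.mem_map.mp hr
    exact (combL_eq (hAr s hs) hB hBr).1
  · ext i j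
    exact congrFun (h2 i.1 i.2) j

/-- evaluation of the quadratic identity -/
theorem y3_quad {G : Matrix (Fin 7) (Fin 7) ℤ} {D K : ℤ} {c : ℕ → ℤ} {φ : ℕ → Fin 7 → ℤ}
    (h : ∀ a b, D * G a b = ∑ i ∈ Finset.range 7, c i * (φ i a * φ i b) -
      K * (φ 0 a * φ 1 b + φ 1 a * φ 0 b)) (r : Fin 7 → ℤ) :
    D * bZ G r r = ∑ i ∈ Finset.range 7, c i * (φ i ⬝ᵥ r) ^ 2 -
      2 * K * ((φ 0 ⬝ᵥ r) * (φ 1 ⬝ᵥ r)) := by
  have e1 : D * bZ G r r = ∑ a, ∑ b, r a * r b * (D * G a b) := by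
    rw [bZ, dotProduct, Finset.mul_sum]
    refine Finset.sum_congr rfl (fun a _ => ?_)
    rw [show (G *ᵥ r) a = ∑ b, G a b * r b from rfl, Finset.mul_sum, Finset.mul_sum]
    refine Finset.sum_congr rfl (fun b _ => ?_)
    ring
  have e2 : ∀ i j, (φ i ⬝ᵥ r) * (φ j ⬝ᵥ r) = ∑ a, ∑ b, r a * r b * (φ i a * φ j b) := by
    intro i j
    rw [dotProduct, dotProduct, Finset.sum_mul_sum]
    refine Finset.sum_congr rfl (fun a _ => Finset.sum_congr rfl (fun b _ => ?_))
    ring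
  have e3 : ∑ i ∈ Finset.range 7, c i * (φ i ⬝ᵥ r) ^ 2 =
      ∑ a, ∑ b, r a * r b * ∑ i ∈ Finset.range 7, c i * (φ i a * φ i b) := by
    calc ∑ i ∈ Finset.range 7, c i * (φ i ⬝ᵥ r) ^ 2
        = ∑ i ∈ Finset.range 7, ∑ a, ∑ b, r a * r b * (c i * (φ i a * φ i b)) := by
          refine Finset.sum_congr rfl (fun i _ => ?_)
          rw [sq, e2 i i, Finset.mul_sum]
          refine Finset.sum_congr rfl (fun a _ => ?_)
          rw [Finset.mul_sum]
          refine Finset.sum_congr rfl (fun b _ => ?_)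
          ring
      _ = ∑ a, ∑ b, ∑ i ∈ Finset.range 7, r a * r b * (c i * (φ i a * φ i b)) := by
          rw [Finset.sum_comm]
          refine Finset.sum_congr rfl (fun a _ => ?_)
          rw [Finset.sum_comm]
      _ = _ := by
          refine Finset.sum_congr rfl (fun a _ => Finset.sum_congr rfl (fun b _ => ?_))
          rw [Finset.mul_sum]
  have e4 : 2 * K * ((φ 0 ⬝ᵥ r) * (φ 1 ⬝ᵥ r)) =
      ∑ a, ∑ b, r a * r b * (K * (φ 0 a * φ 1 b + φ 1 a * φ 0 b)) := by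
    have e5 : 2 * K * ((φ 0 ⬝ᵥ r) * (φ 1 ⬝ᵥ r)) =
        K * ((φ 0 ⬝ᵥ r) * (φ 1 ⬝ᵥ r)) + K * ((φ 1 ⬝ᵥ r) * (φ 0 ⬝ᵥ r)) := by ring
    rw [e5, e2 0 1, e2 1 0, Finset.mul_sum, Finset.mul_sum, ← Finset.sum_add_distrib]
    refine Finset.sum_congr rfl (fun a _ => ?_)
    rw [Finset.mul_sum, Finset.mul_sum, ← Finset.sum_add_distrib]
    refine Finset.sum_congr rfl (fun b _ => ?_)
    ring
  rw [e1, e3, e4, ← Finset.sum_sub_distrib]
  refine Finset.sum_congr rfl (fun a _ => ?_)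
  rw [← Finset.sum_sub_distrib]
  refine Finset.sum_congr rfl (fun b _ => ?_)
  rw [h a b]
  ring

/-- the vectors `V_i` -/
def y3_V (C : SCert) (i : ℕ) : Fin 7 → ℤ := vecL (C.V.getD i [])

theorem y3_srch0 {C : SCert} {N : ℕ} (h : srchS C N idH7 = true)
    (hc : ∀ i < 5, 0 < C.c.getD i 0) {W : ℕ → ℤ} (h0 : 0 ≤ W 0) (h1 : W 1 ≤ 0)
    (hs : C.A * W 0 ^ 2 - 2 * C.K * (W 0 * W 1) + C.B * W 1 ^ 2 +
      ∑ i ∈ Finset.range 5, (C.c.getD i 0 : ℤ) * W (i + 2) ^ 2 = ((4 * C.D / N : ℕ) : ℤ)) :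
    leafS C.α C.β ((List.range 7).map W) = true := by
  refine srchS_sound h hc ?_ (u := W) (W := W) ?_ h0 h1 hs
  · intro j hj
    interval_cases j <;> refine ⟨rfl, by decide, ?_⟩ <;> intro i hi <;> interval_cases i <;> rfl
  · intro i hi
    have e : ∀ i < 7, ∀ j < 7, (idH7.getD j []).getD i 0 = if i = j then 1 else 0 := by decide
    rw [Finset.sum_congr rfl (fun j hj => by rw [e i hi j (Finset.mem_range.mp hj)])]
    simp only [mul_ite, mul_one, mul_zero]
    rw [Finset.sum_ite_eq, if_pos (Finset.mem_range.mpr hi)]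

theorem y3_rec {C : SCert} (hG : isSym C.G = true) (hVl : len77 C.V = true)
    {R : SRec} {N : ℕ} (hN : R.n = N) (hR : recS C R = true)
    (hc : ∀ i < 5, 0 < C.c.getD i 0) {r y : Fin 7 → ℤ} (hN0 : (N : ℤ) ≠ 0)
    (hy : ∀ i, (N : ℤ) * y i = 2 * (ofL C.G *ᵥ r) i)
    (h0 : 0 ≤ y3_V C 0 ⬝ᵥ y) (h1 : y3_V C 1 ⬝ᵥ y ≤ 0)
    (hs : C.A * (y3_V C 0 ⬝ᵥ y) ^ 2 - 2 * C.K * ((y3_V C 0 ⬝ᵥ y) * (y3_V C 1 ⬝ᵥ y)) +
      C.B * (y3_V C 1 ⬝ᵥ y) ^ 2 +
      ∑ i ∈ Finset.range 5, (C.c.getD i 0 : ℤ) * (y3_V C (i + 2) ⬝ᵥ y) ^ 2 =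
        ((4 * C.D / N : ℕ) : ℤ)) :
    leafS C.α C.β ((List.range 7).map fun i => y3_V C i ⬝ᵥ y) = true := by
  obtain ⟨hGl, hGr, hGs⟩ := isSym_iff hG
  obtain ⟨hV7, hVr⟩ := y3_len77 hVl
  unfold recS at hR
  simp only [Bool.and_eq_true] at hR
  obtain ⟨⟨⟨⟨⟨hHl, hPl⟩, hQl⟩, hH⟩, hid⟩, hsr⟩ := hR
  obtain ⟨hH7, hHr⟩ := y3_len77 hHl
  obtain ⟨hP7, hPr⟩ := y3_len77 hPl
  obtain ⟨hQ7, hQr⟩ := y3_len77 hQl
  rw [hN] at hsr
  rw [List.all_eq_true] at hH hid
  have hH' : ∀ j < 7, (R.H.getD j []).length = 7 ∧ 0 < (R.H.getD j []).getD j 0 ∧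
      ∀ i < j, (R.H.getD j []).getD i 0 = 0 := by
    intro j hj
    have h := hH j (List.mem_range.mpr hj)
    simp only [Bool.and_eq_true, List.all_eq_true] at h
    exact ⟨y3_row hH7 hHr hj, of_decide_eq_true h.1,
      fun i hi => eqI_iff.mp (h.2 i (List.mem_range.mpr hi))⟩
  set ψ : ℕ → Fin 7 → ℤ := fun j => (2 : ℤ) • (ofL C.G *ᵥ vecL (R.P.getD j [])) +
    (N : ℤ) • vecL (R.Q.getD j []) with hψ
  set Ψ : List (List ℤ) := (List.range 7).map fun j =>
      addL (sclL 2 (combL (R.P.getD j []) C.G)) (sclL R.n (R.Q.getD j [])) with hΨ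
  have hψlen : Ψ.length = 7 := by simp [hΨ]
  have hψrow : ∀ j < 7, (Ψ.getD j []).length = 7 ∧ vecL (Ψ.getD j []) = ψ j := by
    intro j hj
    have hp := combL_eq (y3_row hP7 hPr hj) hGl hGr
    have hq := y3_row hQ7 hQr hj
    have e : Ψ.getD j [] =
        addL (sclL 2 (combL (R.P.getD j []) C.G)) (sclL R.n (R.Q.getD j [])) := by
      rw [hΨ, y3_map (l := List.range 7) (by simpa using hj) [] 0,
        List.getD_eq_getElem (List.range 7) _ (by simpa using hj), List.getElem_range]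
    have hl : (sclL 2 (combL (R.P.getD j []) C.G)).length = (sclL R.n (R.Q.getD j [])).length := by
      rw [y3_scl_len, y3_scl_len, hp.1, hq]
    rw [e]
    refine ⟨?_, ?_⟩
    · rw [y3_add_len _ _ hl, y3_scl_len, hp.1]
    · rw [y3_vadd hl, y3_vscl, y3_vscl, hp.2, y3_vecMul hGs, hN]
  have hψall : ∀ s ∈ Ψ, s.length = 7 := by
    intro s hs'
    obtain ⟨j, hj, rfl⟩ := List.getElem_of_mem hs'
    have hj7 : j < 7 := by omega
    have := (hψrow j hj7).1
    rwa [List.getD_eq_getElem _ _ hj] at this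
  have hident : ∀ i < 7, (2 : ℤ) • (ofL C.G *ᵥ y3_V C i) =
      ∑ j ∈ Finset.range 7, ((R.H.getD j []).getD i 0) • ψ j := by
    intro i hi
    have h := eqL_iff.mp (hid i (List.mem_range.mpr hi))
    have hp := combL_eq (y3_row hV7 hVr hi) hGl hGr
    have h1 := congrArg vecL h
    have hlen7 : ((List.range 7).map fun j => (R.H.getD j []).getD i 0).length = 7 := by simp
    rw [y3_vscl, hp.2, y3_vecMul hGs, (combL_eq hlen7 hψlen hψall).2] at h1
    rw [show ofL C.G *ᵥ y3_V C i = ofL C.G *ᵥ vecL (C.V.getD i []) from rfl, h1, Finset.sum_range]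
    funext k
    rw [Finset.sum_apply]
    simp only [vecMul, dotProduct]
    refine Finset.sum_congr rfl (fun j _ => ?_)
    rw [Pi.smul_apply, smul_eq_mul, ← (hψrow j.1 j.2).2]
    have e2 : vecL ((List.range 7).map fun j => (R.H.getD j []).getD i 0) j =
        (R.H.getD j.1 []).getD i 0 := by
      show ((List.range 7).map fun j => (R.H.getD j []).getD i 0).getD j.1 0 = _
      rw [y3_map (l := List.range 7) (by simp) 0 0,
        List.getD_eq_getElem (List.range 7) _ (by simp), List.getElem_range]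
    rw [e2]
    rfl
  set u : ℕ → ℤ := fun j => vecL (R.P.getD j []) ⬝ᵥ y + vecL (R.Q.getD j []) ⬝ᵥ r with hu
  have hyG : (N : ℤ) • y = (2 : ℤ) • (ofL C.G *ᵥ r) := by
    funext i
    exact hy i
  have hsw : ∀ x : Fin 7 → ℤ, (ofL C.G *ᵥ x) ⬝ᵥ r = x ⬝ᵥ (ofL C.G *ᵥ r) := by
    intro x
    rw [dotProduct_comm]
    exact y3_symm hGs r x
  have hfy : ∀ x : Fin 7 → ℤ, (N : ℤ) * (x ⬝ᵥ y) = 2 * (x ⬝ᵥ (ofL C.G *ᵥ r)) := by
    intro x
    have h1 : x ⬝ᵥ ((N : ℤ) • y) = x ⬝ᵥ ((2 : ℤ) • (ofL C.G *ᵥ r)) := by rw [hyG]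
    rw [dotProduct_smul, dotProduct_smul, smul_eq_mul, smul_eq_mul] at h1
    exact h1
  have hψr : ∀ j, ψ j ⬝ᵥ r = (N : ℤ) * u j := by
    intro j
    rw [hψ, hu]
    simp only
    rw [add_dotProduct, smul_dotProduct, smul_dotProduct, hsw, smul_eq_mul, smul_eq_mul, mul_add,
      hfy]
  refine srchS_sound hsr hc hH' (u := u) (W := fun i => y3_V C i ⬝ᵥ y) ?_ h0 h1 hs
  intro i hi
  have h2 : ((2 : ℤ) • (ofL C.G *ᵥ y3_V C i)) ⬝ᵥ r =
      (∑ j ∈ Finset.range 7, ((R.H.getD j []).getD i 0) • ψ j) ⬝ᵥ r := by rw [hident i hi]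
  rw [smul_dotProduct, hsw, smul_eq_mul, ← hfy, sum_dotProduct] at h2
  have h3 : ∑ j ∈ Finset.range 7, ((R.H.getD j []).getD i 0 • ψ j) ⬝ᵥ r =
      (N : ℤ) * ∑ j ∈ Finset.range 7, u j * (R.H.getD j []).getD i 0 := by
    rw [Finset.mul_sum]
    refine Finset.sum_congr rfl (fun j _ => ?_)
    rw [smul_dotProduct, hψr, smul_eq_mul]
    ring
  rw [h3] at h2
  exact mul_left_cancel₀ hN0 h2

/-- the consequences of the certificate for one root -/
theorem y3_main {C : SCert} (h : chkStep C = true) {r : Fin 7 → ℤ} (hr : IsRoot (ofL C.G) r)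
    (ha : 0 ≤ bZ (ofL C.G) r (vecL C.x)) (hb : bZ (ofL C.G) r (vecL C.x') ≤ 0) :
    (bZ (ofL C.G) r (vecL C.x) ≠ 0 ∨ bZ (ofL C.G) r (vecL C.η) ≠ 0) ∧
    (PosX (ofL C.G) (vecL C.x) (vecL C.η) r →
      bZ (ofL C.G) r (vecL C.x') = 0 ∧ 0 < bZ (ofL C.G) r (vecL C.η')) := by
  unfold chkStep at h
  simp only [Bool.and_eq_true] at h
  obtain ⟨⟨⟨⟨⟨⟨⟨⟨⟨⟨⟨⟨⟨⟨h1, h2⟩, h3⟩, h4⟩, h5⟩, h6⟩, h7⟩, h8⟩, h9⟩, h10⟩, h11⟩, h12⟩, h13⟩,
    ⟨hα, hβ⟩, hqq⟩, h15⟩ := h
  obtain ⟨hGl, hGr, hGs⟩ := isSym_iff h1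
  have he0 : C.e ≠ 0 := by
    intro he
    rw [he] at h2
    exact absurd h2 (by decide)
  obtain ⟨hEl, hEr⟩ := y3_len77 h3
  have hGE := mulLL_scal hGl hGr h4 hEl hEr
  obtain ⟨hV7, hVr⟩ := y3_len77 h5
  have hcl : C.c.length = 5 := Nat.eq_of_beq_eq_true h6
  have hc : ∀ i < 5, 0 < C.c.getD i 0 := by
    intro i hi
    rw [List.getD_eq_getElem _ _ (by omega)]
    have := (List.all_eq_true.mp h7) _ (List.getElem_mem (by omega : i < C.c.length))
    exact Nat.le_of_ble_eq_true this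
  have hηl : C.η.length = 7 := Nat.eq_of_beq_eq_true h8
  have hηl' : C.η'.length = 7 := Nat.eq_of_beq_eq_true h9
  have hαl : C.α.length = 7 := Nat.eq_of_beq_eq_true h10
  have hβl : C.β.length = 7 := Nat.eq_of_beq_eq_true h11
  have hκ : 0 < C.κ := y3_pos.mp h12
  have hκ' : 0 < C.κ' := y3_pos.mp h13
  obtain ⟨hVGl, hVGr, hVGv, -⟩ := y3_mulLL hV7 hVr hGl hGr
  set φ : ℕ → Fin 7 → ℤ := fun i => ofL C.G *ᵥ y3_V C i with hφ
  have hVGφ : ∀ i < 7, vecL ((mulLL C.V C.G).getD i []) = φ i := by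
    intro i hi
    rw [hVGv i hi, y3_vecMul hGs]
    rfl
  -- the quadratic identity
  set cc : ℕ → ℤ := fun i => (((C.A : ℤ) :: (C.B : ℤ) :: C.c.map Int.ofNat) : List ℤ).getD i 0
    with hcc
  have hquad : ∀ a b : Fin 7, (C.D : ℤ) * ofL C.G a b =
      ∑ i ∈ Finset.range 7, cc i * (φ i a * φ i b) - C.K * (φ 0 a * φ 1 b + φ 1 a * φ 0 b) := by
    intro a b
    have ha := (List.all_eq_true.mp hqq) a.1 (List.mem_range.mpr a.2)
    have hb := eqI_iff.mp ((List.all_eq_true.mp ha) b.1 (List.mem_range.mpr b.2))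
    have e1 : ∀ i < 7, ∀ x : Fin 7, ((mulLL C.V C.G).getD i []).getD x.1 0 = φ i x := by
      intro i hi x
      exact congrFun (hVGφ i hi) x
    have hdot : dotL ((C.A : ℤ) :: (C.B : ℤ) :: C.c.map Int.ofNat)
        ((mulLL C.V C.G).map fun f => f.getD a.1 0 * f.getD b.1 0) =
        ∑ i ∈ Finset.range 7, cc i * (φ i a * φ i b) := by
      have hl1 : ((C.A : ℤ) :: (C.B : ℤ) :: C.c.map Int.ofNat).length = 7 := by simpa using hcl
      have hl2 : ((mulLL C.V C.G).map fun f => f.getD a.1 0 * f.getD b.1 0).length = 7 := by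
        simpa using hVGl
      rw [y3_dot _ _ (by rw [hl1, hl2]), hl1]
      refine Finset.sum_congr rfl (fun i hi => ?_)
      have hi7 : i < 7 := Finset.mem_range.mp hi
      rw [y3_map (by omega) 0 [], e1 i hi7, e1 i hi7]
    rw [hdot, e1 0 (by omega), e1 1 (by omega), e1 0 (by omega), e1 1 (by omega)] at hb
    exact hb
  -- the root
  set n : ℤ := bZ (ofL C.G) r r with hnn
  have hn : 0 < n := hr.pos
  have hdiv : ∀ i, n ∣ 2 * (ofL C.G *ᵥ r) i := by
    intro i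
    have h20 := hr.dvd (Pi.single i 1)
    rw [show bZ (ofL C.G) (Pi.single i 1) r = (ofL C.G *ᵥ r) i from by
      rw [bZ, single_one_dotProduct]] at h20
    exact h20
  obtain ⟨N, hN⟩ := Int.eq_ofNat_of_zero_le hn.le
  have hNpos : 0 < N := by
    rw [hN] at hn
    exact_mod_cast hn
  have hNz : (N : ℤ) ≠ 0 := by exact_mod_cast hNpos.ne'
  have hNz' : (0 : ℤ) < N := by exact_mod_cast hNpos
  have hNe : N ∣ 2 * C.e := by
    have h20 := norm_dvd (by exact_mod_cast he0) hGE hdiv hr.prim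
    rw [← hnn, hN] at h20
    exact_mod_cast h20
  have hNle : N ≤ 2 * C.e := Nat.le_of_dvd (by omega) hNe
  choose y hy using hdiv
  have hy' : ∀ i, (N : ℤ) * y i = 2 * (ofL C.G *ᵥ r) i := by
    intro i
    rw [hy i, hN]
  have hyG : (N : ℤ) • y = (2 : ℤ) • (ofL C.G *ᵥ r) := by
    funext i
    exact hy' i
  have hfy : ∀ x : Fin 7 → ℤ, (N : ℤ) * (x ⬝ᵥ y) = 2 * (x ⬝ᵥ (ofL C.G *ᵥ r)) := by
    intro x
    have h20 : x ⬝ᵥ ((N : ℤ) • y) = x ⬝ᵥ ((2 : ℤ) • (ofL C.G *ᵥ r)) := by rw [hyG]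
    rw [dotProduct_smul, dotProduct_smul, smul_eq_mul, smul_eq_mul] at h20
    exact h20
  have hfy2 : ∀ x : Fin 7 → ℤ, (N : ℤ) * (x ⬝ᵥ y) = 2 * bZ (ofL C.G) r x := by
    intro x
    rw [hfy, y3_symm hGs r x]
    rfl
  have hsw : ∀ i, φ i ⬝ᵥ r = y3_V C i ⬝ᵥ (ofL C.G *ᵥ r) := by
    intro i
    rw [hφ]
    simp only
    rw [dotProduct_comm]
    exact y3_symm hGs _ _
  set W : ℕ → ℤ := fun i => y3_V C i ⬝ᵥ y with hW
  have hWφ : ∀ i, (N : ℤ) * W i = 2 * (φ i ⬝ᵥ r) := by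
    intro i
    rw [hsw i]
    exact hfy _
  have hq := y3_quad hquad r
  have h4D : 4 * (C.D : ℤ) = N * (∑ i ∈ Finset.range 7, cc i * W i ^ 2 -
      2 * C.K * (W 0 * W 1)) := by
    refine mul_left_cancel₀ hNz ?_
    calc (N : ℤ) * (4 * (C.D : ℤ)) = 4 * ((C.D : ℤ) * bZ (ofL C.G) r r) := by
          rw [← hnn, hN]
          ring
      _ = ∑ i ∈ Finset.range 7, cc i * (2 * (φ i ⬝ᵥ r)) ^ 2 -
            2 * C.K * ((2 * (φ 0 ⬝ᵥ r)) * (2 * (φ 1 ⬝ᵥ r))) := by
          rw [hq, mul_sub, Finset.mul_sum]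
          congr 1
          · exact Finset.sum_congr rfl (fun i _ => by ring)
          · ring
      _ = ∑ i ∈ Finset.range 7, cc i * ((N : ℤ) * W i) ^ 2 -
            2 * C.K * (((N : ℤ) * W 0) * ((N : ℤ) * W 1)) := by
          simp only [hWφ]
      _ = (N : ℤ) * (N * (∑ i ∈ Finset.range 7, cc i * W i ^ 2 - 2 * C.K * (W 0 * W 1))) := by
          rw [mul_sub, mul_sub, Finset.mul_sum, Finset.mul_sum]
          congr 1
          · exact Finset.sum_congr rfl (fun i _ => by ring)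
          · ring
  have hsum7 : ∑ i ∈ Finset.range 7, cc i * W i ^ 2 =
      ∑ i ∈ Finset.range 5, (C.c.getD i 0 : ℤ) * W (i + 2) ^ 2 + C.B * W 1 ^ 2 + C.A * W 0 ^ 2 := by
    rw [Finset.sum_range_succ', Finset.sum_range_succ']
    have e0 : cc 0 = C.A := rfl
    have e1 : cc (0 + 1) = C.B := rfl
    rw [e0, e1]
    congr 2
    refine Finset.sum_congr rfl (fun i hi => ?_)
    have hi5 : i < 5 := Finset.mem_range.mp hi
    have e2 : cc (i + 1 + 1) = (C.c.getD i 0 : ℤ) := by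
      show (C.c.map Int.ofNat).getD i 0 = _
      rw [y3_map (by omega) 0 0]
      rfl
    rw [e2]
  have hND : N ∣ 4 * C.D := by
    have h20 : (N : ℤ) ∣ ((4 * C.D : ℕ) : ℤ) := ⟨_, by push_cast; exact h4D⟩
    exact_mod_cast h20
  have hs : C.A * W 0 ^ 2 - 2 * C.K * (W 0 * W 1) + C.B * W 1 ^ 2 +
      ∑ i ∈ Finset.range 5, (C.c.getD i 0 : ℤ) * W (i + 2) ^ 2 = ((4 * C.D / N : ℕ) : ℤ) := by
    refine mul_left_cancel₀ hNz ?_
    rw [← Nat.cast_mul, Nat.mul_div_cancel' hND]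
    push_cast
    rw [h4D, hsum7]
    ring
  have hW0 : (N : ℤ) * W 0 = 2 * bZ (ofL C.G) r (vecL C.x) := hfy2 _
  have hW1 : (N : ℤ) * W 1 = 2 * bZ (ofL C.G) r (vecL C.x') := hfy2 _
  have hW0' : 0 ≤ W 0 := by
    have : 0 ≤ (N : ℤ) * W 0 := by rw [hW0]; linarith
    exact (mul_nonneg_iff_of_pos_left hNz').mp this
  have hW1' : W 1 ≤ 0 := by
    by_contra hcon
    push Not at hcon
    have : 0 < (N : ℤ) * W 1 := mul_pos hNz' hcon
    rw [hW1] at this
    linarith
  have hleaf : leafS C.α C.β ((List.range 7).map W) = true := by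
    have hchk := (List.all_eq_true.mp h15) N (List.mem_range.mpr (by omega))
    simp only [Bool.or_eq_true, Bool.and_eq_true] at hchk
    rcases hchk with ((((hchk | hchk) | hchk) | hchk) | hchk) | hchk
    · exact absurd (Nat.eq_of_beq_eq_true hchk) hNpos.ne'
    · exfalso
      have h20 := y3_not hchk
      have h21 : 2 * C.e % N = 0 := Nat.mod_eq_zero_of_dvd hNe
      rw [h21] at h20
      exact absurd h20 (by decide)
    · exfalso
      obtain ⟨hev, hodd⟩ := hchk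
      have hdiag : ∀ i, Even (ofL C.G i i) := by
        intro i
        unfold evenB at hev
        have h20 := eqI_iff.mp ((List.all_eq_true.mp hev) i.1 (List.mem_range.mpr i.2))
        exact Int.even_iff.mpr h20
      have h21 := even_norm hGs hdiag r
      rw [← hnn, hN] at h21
      have h22 : Even N := by
        have : Even ((N : ℕ) : ℤ) := h21
        exact_mod_cast this
      have h23 : N % 2 = 0 := Nat.even_iff.mp h22
      rw [h23] at hodd
      exact absurd hodd (by decide)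
    · exfalso
      have h20 := y3_not hchk
      have h21 : 4 * C.D % N = 0 := Nat.mod_eq_zero_of_dvd hND
      rw [h21] at h20
      exact absurd h20 (by decide)
    · obtain ⟨R, -, hR⟩ := List.any_eq_true.mp hchk
      rw [Bool.and_eq_true] at hR
      exact y3_rec h1 h5 (Nat.eq_of_beq_eq_true hR.1) hR.2 hc hNz hy' hW0' hW1' hs
    · exact y3_srch0 hchk hc hW0' hW1' hs
  -- the meaning of the test
  have hlin : ∀ (γ η : List ℤ) (κ : ℤ), γ.length = 7 → η.length = 7 →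
      eqL (sclL κ (combL η C.G)) (combL γ (mulLL C.V C.G)) = true →
      2 * κ * bZ (ofL C.G) r (vecL η) = N * dotL γ ((List.range 7).map W) := by
    intro γ η κ hγ hη hh
    have h20 := congrArg vecL (eqL_iff.mp hh)
    rw [y3_vscl, (combL_eq hη hGl hGr).2, y3_vecMul hGs, (combL_eq hγ hVGl hVGr).2] at h20
    have h21 : κ * bZ (ofL C.G) r (vecL η) = ∑ i ∈ Finset.range 7, γ.getD i 0 * (φ i ⬝ᵥ r) := by
      have h22 : (κ • (ofL C.G *ᵥ vecL η)) ⬝ᵥ r = (vecL γ ᵥ* ofL (mulLL C.V C.G)) ⬝ᵥ r := by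
        rw [h20]
      rw [smul_dotProduct, smul_eq_mul, dotProduct_comm (ofL C.G *ᵥ vecL η) r] at h22
      have h23 : (vecL γ ᵥ* ofL (mulLL C.V C.G)) ⬝ᵥ r =
          ∑ i ∈ Finset.range 7, γ.getD i 0 * (φ i ⬝ᵥ r) := by
        rw [← Matrix.dotProduct_mulVec, dotProduct, Finset.sum_range]
        refine Finset.sum_congr rfl (fun i _ => ?_)
        rw [← hVGφ i.1 i.2]
        rfl
      rw [h23] at h22
      exact h22
    have hl : ((List.range 7).map W).length = 7 := by simp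
    rw [y3_dot _ _ (by rw [hγ, hl]), hγ, mul_assoc, h21, Finset.mul_sum, Finset.mul_sum]
    refine Finset.sum_congr rfl (fun i hi => ?_)
    have hi7 : i < 7 := Finset.mem_range.mp hi
    have e : ((List.range 7).map W).getD i 0 = W i := by
      rw [y3_map (l := List.range 7) (by simpa using hi7) 0 0,
        List.getD_eq_getElem (List.range 7) _ (by simpa using hi7), List.getElem_range]
    rw [e]
    have := hWφ i
    linear_combination (-γ.getD i 0) * this
  have hs1 := hlin C.α C.η C.κ hαl hηl hα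
  have hs2 := hlin C.β C.η' C.κ' hβl hηl' hβ
  set s : ℤ := dotL C.α ((List.range 7).map W) with hsdef
  set t : ℤ := dotL C.β ((List.range 7).map W) with htdef
  have hleaf' : (!eqI (W 0) 0 || !eqI s 0) = true ∧
      (!(posI (W 0) || posI s) || (eqI (W 1) 0 && posI t)) = true := by
    have h20 : ((!eqI (W 0) 0 || !eqI s 0) &&
      (!(posI (W 0) || posI s) || (eqI (W 1) 0 && posI t))) = true := hleaf
    rwa [Bool.and_eq_true] at h20
  obtain ⟨hl1, hl2⟩ := hleaf'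
  have hκn : 0 < 2 * C.κ := by linarith
  have hκn' : 0 < 2 * C.κ' := by linarith
  refine ⟨?_, ?_⟩
  · rw [Bool.or_eq_true] at hl1
    rcases hl1 with hl1 | hl1
    · left
      intro h0
      have h20 := y3_not hl1
      have h21 : W 0 = 0 := by
        rw [h0, mul_zero] at hW0
        exact (mul_eq_zero.mp hW0).resolve_left hNz
      rw [eqI_iff.mpr h21] at h20
      exact absurd h20 (by decide)
    · right
      intro h0
      have h20 := y3_not hl1
      have h21 : s = 0 := by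
        rw [h0, mul_zero] at hs1
        exact (mul_eq_zero.mp hs1.symm).resolve_left hNz
      rw [eqI_iff.mpr h21] at h20
      exact absurd h20 (by decide)
  · intro hP
    have hor : (posI (W 0) || posI s) = true := by
      rw [Bool.or_eq_true]
      rcases hP with hP | ⟨-, hP⟩
      · left
        rw [y3_pos]
        have : 0 < (N : ℤ) * W 0 := by rw [hW0]; linarith
        exact (mul_pos_iff_of_pos_left hNz').mp this
      · right
        rw [y3_pos]
        have : 0 < (N : ℤ) * s := by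
          rw [← hs1]
          exact mul_pos hκn hP
        exact (mul_pos_iff_of_pos_left hNz').mp this
    rw [hor] at hl2
    have hl3 : (eqI (W 1) 0 && posI t) = true := by simpa using hl2
    rw [Bool.and_eq_true, eqI_iff, y3_pos] at hl3
    obtain ⟨h20, h21⟩ := hl3
    refine ⟨?_, ?_⟩
    · rw [h20, mul_zero] at hW1
      omega
    · have : 0 < 2 * C.κ' * bZ (ofL C.G) r (vecL C.η') := by
        rw [hs2]
        exact mul_pos hNz' h21
      exact (mul_pos_iff_of_pos_left hκn').mp this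

theorem y3_neg (G : Matrix (Fin 7) (Fin 7) ℤ) (r x : Fin 7 → ℤ) : bZ G (-r) x = -bZ G r x := by
  rw [bZ, bZ, neg_dotProduct]

theorem y3_root_neg {G : Matrix (Fin 7) (Fin 7) ℤ} {r : Fin 7 → ℤ} (hr : IsRoot G r) :
    IsRoot G (-r) := by
  have e : bZ G (-r) (-r) = bZ G r r := by
    rw [bZ, bZ, Matrix.mulVec_neg, neg_dotProduct, dotProduct_neg, neg_neg]
  refine ⟨?_, ?_, ?_⟩
  · rw [e]
    exact hr.pos
  · intro x
    have e2 : bZ G x (-r) = -bZ G x r := by rw [bZ, bZ, Matrix.mulVec_neg, dotProduct_neg]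
    rw [e, e2, mul_neg]
    exact (hr.dvd x).neg_right
  · intro d hd
    refine hr.prim d (fun i => ?_)
    have := hd i
    rw [Pi.neg_apply] at this
    exact (dvd_neg).mp this

/-- Row [RH-Y3]: soundness of a step certificate.

Proof.  Let `G = ofL C.G`, `V_0 = x`, `V_1 = x'`, `V_{i+2} = f_i`.  Let `r` be a root of `G`,
`n = (r,r) > 0`, `n ∣ 2 G r`; as in `chkBad_sound` (U4) `n ∣ 2e`, and `n` is even if `evenB`.  Put
`y = 2 G r/n ∈ ℤ^7` and `W_i = V_i · y ∈ ℤ`, so `n W_i = 2 (V_i, r)`.  The quadratic identity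
`D G_ab = A X_a X_b + B X'_a X'_b + ∑ c_i (Gf_i)_a (Gf_i)_b - K (X_a X'_b + X'_a X_b)`, `X = G x`,
`X' = G x'`, evaluated at `r` and multiplied by `4/n²` gives
`4D/n = A W_0² + B W_1² + ∑ c_i W_{i+2}² - 2 K W_0 W_1` (so `n ∣ 4D`).
If `W_0 ≥ 0 ≥ W_1`, the check for this `n` gives `leafS` for `W`: either `srchS C n idH7` (use
`u_j = W_j`) or a record with `recS`: `u_j = p_j·y + q_j·r`, `ψ_j·r = n u_j` and
`2 G V_i = ∑_j H_ji ψ_j` give `W_i = ∑_j H_ji u_j`; `srchS_sound`.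
Meaning of `leafS`: `κ G η = ∑ α_i G V_i` gives `2κ (r,η)/n = α·W`, similarly for `η'`, `β`; so the
sign of `(r,η)` is that of `α·W`, etc.  So for a root `r` with `(r,x) ≥ 0 ≥ (r,x')`:
(i) `(r,x) ≠ 0` or `(r,η) ≠ 0`; (ii) if `PosX G x η r` then `(r,x') = 0` and `(r,η') > 0`.
`gen`: if `(r,x) = 0`, then `r` or `-r` (also a root) satisfies `(·,x') ≤ 0`; use (i).
`step`: let `PosX G x η r`; then `(r,x) ≥ 0`.  If `(r,x') > 0` we are done, otherwise (ii). -/
theorem chkStep_sound {C : SCert} (h : chkStep C = true) :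
    StepX (ofL C.G) (vecL C.x) (vecL C.η) (vecL C.x') (vecL C.η') := by
  refine ⟨?_, ?_⟩
  · intro r hr
    by_cases h0 : bZ (ofL C.G) r (vecL C.x) = 0
    · rcases le_total (bZ (ofL C.G) r (vecL C.x')) 0 with h1 | h1
      · exact (y3_main h hr h0.ge h1).1
      · have h2 := (y3_main h (y3_root_neg hr) (by rw [y3_neg, h0, neg_zero])
          (by rw [y3_neg]; linarith)).1
        rw [y3_neg, y3_neg, neg_ne_zero, neg_ne_zero] at h2
        exact h2
    · exact Or.inl h0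
  · intro r hr hP
    have h0 : 0 ≤ bZ (ofL C.G) r (vecL C.x) := by
      rcases hP with hP | ⟨hP, -⟩
      · exact hP.le
      · exact hP.ge
    by_cases h1 : 0 < bZ (ofL C.G) r (vecL C.x')
    · exact Or.inl h1
    · exact Or.inr ((y3_main h hr h0 (not_lt.mp h1)).2 hP)

theorem y3_act {U : List (List ℤ)} {x : List ℤ} (hU : U.length = 7) (hr : ∀ r ∈ U, r.length = 7)
    (hx : x.length = 7) : (actL U x).length = 7 ∧ vecL (actL U x) = ofL U *ᵥ vecL x := by
  refine ⟨by simpa [actL] using hU, ?_⟩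
  funext i
  show (actL U x).getD i.1 0 = vecL (U.getD i.1 []) ⬝ᵥ vecL x
  rw [← dotL_eq (y3_row hU hr i.2) hx, actL, y3_map (by omega) 0 []]

theorem y3_tr {U : List (List ℤ)} (hU : U.length = 7) :
    (trL U).length = 7 ∧ (∀ r ∈ trL U, r.length = 7) ∧ ofL (trL U) = (ofL U)ᵀ := by
  refine ⟨by simp [trL], ?_, ?_⟩
  · intro r hr
    rw [trL] at hr
    obtain ⟨i, -, rfl⟩ := List.mem_map.mp hr
    simpa using hU
  · ext i j
    show ((trL U).getD i.1 []).getD j.1 0 = (U.getD j.1 []).getD i.1 0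
    rw [trL, y3_map (l := List.range 7) (by simp) [] 0,
      List.getD_eq_getElem (List.range 7) _ (by simp), List.getElem_range, y3_map (by omega) 0 []]

theorem y3_chain {G : List (List ℤ)} : ∀ (steps : List SCert) {x η y θ : List ℤ},
    steps ≠ [] → chainB G x η steps y θ = true → (∀ C ∈ steps, chkStep C = true) →
    StepX (ofL G) (vecL x) (vecL η) (vecL y) (vecL θ)
  | [], _, _, _, _, h0, _, _ => absurd rfl h0
  | C :: l, x, η, y, θ, _, h, hs => by
    rw [chainB] at h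
    simp only [Bool.and_eq_true, eqLL_iff, eqL_iff] at h
    obtain ⟨⟨⟨h1, h2⟩, h3⟩, h4⟩ := h
    have hC := chkStep_sound (hs C List.mem_cons_self)
    rw [h1, h2, h3] at hC
    by_cases hl : l = []
    · rw [hl, chainB, Bool.and_eq_true, eqL_iff, eqL_iff] at h4
      rw [h4.1, h4.2] at hC
      exact hC
    · exact hC.trans (y3_chain l hl h4 (fun C' hC' => hs C' (List.mem_cons_of_mem _ hC')))

/-- Row [RH-Y3]: soundness of the certificate: `g` = the matrix `ofL U` with inverse `ofL V`;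
`mem_OG_of`, `inf_order` (with `z`), the chain (`StepX.trans`), `not_tor_chain`. -/
theorem chkNR_sound {G : List (List Int)} {h : List Int} {U V : List (List Int)}
    {z x η : List Int} {steps : List SCert} (hc : chkNR G h U V z x η steps = true)
    (hs : ∀ C ∈ steps, chkStep C = true) (hL : Lor (ofL G) (vecL h)) :
    ¬ ∀ g ∈ OG (ofL G) (vecL h), ∃ m : ℕ, 0 < m ∧ g ^ m ∈ WG (ofL G) := by
  unfold chkNR at hc
  simp only [Bool.and_eq_true] at hc
  obtain ⟨⟨⟨⟨⟨⟨⟨⟨⟨⟨⟨⟨⟨⟨h1, h2⟩, h3⟩, h4⟩, h5⟩, h6⟩, h7⟩, h8⟩, h9⟩, h10⟩, h11⟩, h12⟩,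
    ⟨h13, h14⟩⟩, h15⟩, h16⟩ := hc
  obtain ⟨hGl, hGr, hGs⟩ := isSym_iff h1
  obtain ⟨hUl, hUr⟩ := y3_len77 h2
  obtain ⟨hVl, hVr⟩ := y3_len77 h3
  have hUV : ofL U * ofL V = 1 := by
    have := mulLL_scal hUl hUr h4 hVl hVr
    rwa [one_smul] at this
  have hVU : ofL V * ofL U = 1 := mul_eq_one_comm.mp hUV
  have hl : h.length = 7 := Nat.eq_of_beq_eq_true h6
  have hzl : z.length = 7 := Nat.eq_of_beq_eq_true h7
  have hxl : x.length = 7 := Nat.eq_of_beq_eq_true h8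
  have hηl : η.length = 7 := Nat.eq_of_beq_eq_true h9
  obtain ⟨hTl, hTr, hT⟩ := y3_tr hUl
  obtain ⟨hGUl, hGUr, -, hGU⟩ := y3_mulLL hGl hGr hUl hUr
  obtain ⟨-, -, -, hTGU⟩ := y3_mulLL hTl hTr hGUl hGUr
  have hiso : (ofL U)ᵀ * ofL G * ofL U = ofL G := by
    rw [eqLL_iff.mp h5, hT, hGU] at hTGU
    rw [Matrix.mul_assoc]
    exact hTGU.symm
  set g : GL (Fin 7) ℤ := ⟨ofL U, ofL V, hUV, hVU⟩ with hg
  have hg1 : g.1 = ofL U := rfl
  have hdot : ∀ a b : List ℤ, a.length = 7 → b.length = 7 →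
      dotL a (actL G b) = bZ (ofL G) (vecL a) (vecL b) := by
    intro a b ha hb
    obtain ⟨hb1, hb2⟩ := y3_act hGl hGr hb
    rw [dotL_eq ha hb1, hb2]
    rfl
  obtain ⟨hUh, hUh'⟩ := y3_act hUl hUr hl
  obtain ⟨hUz, hUz'⟩ := y3_act hUl hUr hzl
  obtain ⟨hUx, hUx'⟩ := y3_act hUl hUr hxl
  obtain ⟨hUη, hUη'⟩ := y3_act hUl hUr hηl
  have hgh : bZ (ofL G) (g.1 *ᵥ vecL h) (vecL h) < 0 := by
    have h20 := y3_pos.mp h10
    rw [hdot _ _ hUh hl, hUh'] at h20
    rw [hg1]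
    linarith
  have hgOG : g ∈ OG (ofL G) (vecL h) := mem_OG_of hL hiso hgh
  have hxx : bZ (ofL G) (vecL x) (vecL x) < 0 := by
    have h20 := y3_pos.mp h11
    rw [hdot _ _ hxl hxl] at h20
    linarith
  have hxh : bZ (ofL G) (vecL x) (vecL h) < 0 := by
    have h20 := y3_pos.mp h12
    rw [hdot _ _ hxl hl] at h20
    linarith
  set t : List ℤ := addL (actL U z) (sclL (-1) z) with ht
  have htlen : (actL U z).length = (sclL (-1) z).length := by rw [y3_scl_len, hUz, hzl]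
  have htl : t.length = 7 := by rw [ht, y3_add_len _ _ htlen, hUz]
  have htv : vecL t = g.1 *ᵥ vecL z - vecL z := by
    rw [ht, y3_vadd htlen, y3_vscl, hUz', hg1, neg_one_smul, sub_eq_add_neg]
  have ht0 : g.1 *ᵥ vecL z - vecL z ≠ 0 := by
    rw [← htv]
    intro hv
    have h20 := y3_not h13
    have : t = zero7 := by
      refine List.ext_getElem (by rw [htl]; rfl) (fun i hi1 hi2 => ?_)
      have hi : i < 7 := by omega
      have h21 := congrFun hv ⟨i, hi⟩
      have h22 : t.getD i 0 = 0 := h21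
      rw [List.getD_eq_getElem _ _ hi1] at h22
      rw [h22]
      interval_cases i <;> rfl
    rw [eqL_iff.mpr this] at h20
    exact absurd h20 (by decide)
  have htt : bZ (ofL G) (g.1 *ᵥ vecL z - vecL z) (g.1 *ᵥ vecL z - vecL z) ≤ 0 := by
    rw [← htv, ← hdot _ _ htl htl]
    by_contra hcon
    push Not at hcon
    have h20 := y3_not h14
    rw [y3_pos.mpr hcon] at h20
    exact absurd h20 (by decide)
  have hinf := inf_order hL hgOG (vecL z) ht0 htt
  have hne : steps ≠ [] := by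
    intro h20
    rw [h20] at h15
    exact absurd h15 (by decide)
  have hch := y3_chain steps hne h16 hs
  rw [hUx', hUη', ← hg1] at hch
  exact not_tor_chain hL hgOG hinf hxx hxh hch

end RH6
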