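import Pool.Agent.RH6.NR37
import Pool.Agent.RH6.NR38
import Pool.Agent.RH6.NR39
import Pool.Agent.RH6.NR40
import Pool.Agent.RH6.NR41
import Pool.Agent.RH6.NR42
import Pool.Agent.RH6.NR43
import Pool.Agent.RH6.Y3
import Pool.Agent.RH6.MAll

open Matrix

namespace RH6.NR

theorem n37 (hL : Lor (ofL sc37.G) (vecL hU)) :
    ¬ ∀ g ∈ OG (ofL sc37.G) (vecL hU), ∃ m : ℕ, 0 < m ∧ g ^ m ∈ WG (ofL sc37.G) :=
  chkNR_sound (h := hU) nr37_ok (fun C hC => by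
    rw [List.mem_singleton.1 hC]; exact sc37_ok) hL

theorem G37 : sc37.G = hypL 1 (Ks.getD 37 []) := by decide +kernel

theorem n38 (hL : Lor (ofL sc38.G) (vecL hU)) :
    ¬ ∀ g ∈ OG (ofL sc38.G) (vecL hU), ∃ m : ℕ, 0 < m ∧ g ^ m ∈ WG (ofL sc38.G) :=
  chkNR_sound (h := hU) nr38_ok (fun C hC => by
    rw [List.mem_singleton.1 hC]; exact sc38_ok) hL

theorem G38 : sc38.G = hypL 1 (Ks.getD 38 []) := by decide +kernel

theorem n39 (hL : Lor (ofL sc39.G) (vecL hU)) :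
    ¬ ∀ g ∈ OG (ofL sc39.G) (vecL hU), ∃ m : ℕ, 0 < m ∧ g ^ m ∈ WG (ofL sc39.G) :=
  chkNR_sound (h := hU) nr39_ok (fun C hC => by
    rw [List.mem_singleton.1 hC]; exact sc39_ok) hL

theorem G39 : sc39.G = hypL 1 (Ks.getD 39 []) := by decide +kernel

theorem n40 (hL : Lor (ofL sc40.G) (vecL hU)) :
    ¬ ∀ g ∈ OG (ofL sc40.G) (vecL hU), ∃ m : ℕ, 0 < m ∧ g ^ m ∈ WG (ofL sc40.G) :=
  chkNR_sound (h := hU) nr40_ok (fun C hC => by
    rw [List.mem_singleton.1 hC]; exact sc40_ok) hL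

theorem G40 : sc40.G = hypL 1 (Ks.getD 40 []) := by decide +kernel

theorem n41 (hL : Lor (ofL sc41.G) (vecL hU)) :
    ¬ ∀ g ∈ OG (ofL sc41.G) (vecL hU), ∃ m : ℕ, 0 < m ∧ g ^ m ∈ WG (ofL sc41.G) :=
  chkNR_sound (h := hU) nr41_ok (fun C hC => by
    rw [List.mem_singleton.1 hC]; exact sc41_ok) hL

theorem G41 : sc41.G = hypL 1 (Ks.getD 41 []) := by decide +kernel

theorem n42 (hL : Lor (ofL sc42.G) (vecL hU)) :
    ¬ ∀ g ∈ OG (ofL sc42.G) (vecL hU), ∃ m : ℕ, 0 < m ∧ g ^ m ∈ WG (ofL sc42.G) :=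
  chkNR_sound (h := hU) nr42_ok (fun C hC => by
    rw [List.mem_singleton.1 hC]; exact sc42_ok) hL

theorem G42 : sc42.G = hypL 1 (Ks.getD 42 []) := by decide +kernel

theorem n43 (hL : Lor (ofL sc43.G) (vecL hU)) :
    ¬ ∀ g ∈ OG (ofL sc43.G) (vecL hU), ∃ m : ℕ, 0 < m ∧ g ^ m ∈ WG (ofL sc43.G) :=
  chkNR_sound (h := hU) nr43_ok (fun C hC => by
    rw [List.mem_singleton.1 hC]; exact sc43_ok) hL

theorem G43 : sc43.G = hypL 1 (Ks.getD 43 []) := by decide +kernel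

end RH6.NR

namespace RH6

open MC in
theorem lor_all (i : ℕ) (hi : i < 44) : Lor (ofL (hypL 1 (Ks.getD i []))) (vecL hU) := by
  rcases lt_or_ge i 37 with h | h
  · have h1 := List.all_eq_true.1 Ms_simp (Ms[i]'h) (List.getElem_mem _)
    unfold simpB at h1
    simp only [Bool.and_eq_true] at h1
    have h2 : (Ms[i]'h).K = Ks.getD i [] := by
      have := congrArg (fun l => l.getD i []) Ms_K
      simp only [List.getD_eq_getElem?_getD, List.getElem?_map, List.getElem?_take] at this ⊢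
      rw [if_pos h, List.getElem?_eq_getElem h] at this
      exact this
    rw [← h2]
    exact lor_hyp h1.1.1.2 h1.1.2
  · obtain ⟨k, rfl⟩ := Nat.exists_eq_add_of_le h
    have h1 := List.all_eq_true.1 PDs_ok k (List.mem_range.2 (by omega))
    rw [Bool.and_eq_true] at h1
    exact lor_hyp h1.2 h1.1

theorem hn_all (i : ℕ) (hi : i < 44) (h : 37 ≤ i) :
    ¬ ∀ g ∈ OG (ofL (hypL 1 (Ks.getD i []))) (vecL hU),
      ∃ m : ℕ, 0 < m ∧ g ^ m ∈ WG (ofL (hypL 1 (Ks.getD i []))) := by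
  have hL := lor_all i hi
  obtain rfl | rfl | rfl | rfl | rfl | rfl | rfl : i = 37 ∨ i = 38 ∨ i = 39 ∨ i = 40 ∨ i = 41 ∨
      i = 42 ∨ i = 43 := by omega
  · rw [← NR.G37] at hL ⊢
    exact NR.n37 hL
  · rw [← NR.G38] at hL ⊢
    exact NR.n38 hL
  · rw [← NR.G39] at hL ⊢
    exact NR.n39 hL
  · rw [← NR.G40] at hL ⊢
    exact NR.n40 hL
  · rw [← NR.G41] at hL ⊢
    exact NR.n41 hL
  · rw [← NR.G42] at hL ⊢
    exact NR.n42 hL
  · rw [← NR.G43] at hL ⊢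
    exact NR.n43 hL

end RH6
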