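import Pool.Agent.RH6.ZH
import Pool.Agent.RH6.VA1
import Pool.Agent.RH6.MC1

set_option maxRecDepth 200000

namespace RH6.PO

open RH6.P RH6.MC

theorem p10_ok : polyOK pd10 51422017428260310233145136811307154430482220263205136075071489
    [8, -7, 2, 1, 2, 1, 2] = true := by decide +kernel

theorem fin10 : (WG (ofL (hypL 1 m10.K))).relIndex
    (OG (ofL (hypL 1 m10.K)) (vecL hU)) ≠ 0 :=
  fin_of p10_ok (verts_of v10_0 (by decide +kernel)) (d := m10.D) (c := m10.c) (T := m10.T)
    (by decide +kernel) (by decide +kernel) (by decide +kernel)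

theorem ref10 : RefData m10.K :=
  refData_of m10_ok (by decide) (by decide +kernel) (by decide +kernel) fin10

theorem p11_ok : polyOK pd11 51422017428260310233145136811307154430482220263205136075071489
    [12, -8, 2, 1, 1, 3, 2] = true := by decide +kernel

theorem fin11 : (WG (ofL (hypL 1 m11.K))).relIndex
    (OG (ofL (hypL 1 m11.K)) (vecL hU)) ≠ 0 :=
  fin_of p11_ok (verts_of v11_0 (by decide +kernel)) (d := m11.D) (c := m11.c) (T := m11.T)
    (by decide +kernel) (by decide +kernel) (by decide +kernel)

theorem ref11 : RefData m11.K :=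
  refData_of m11_ok (by decide) (by decide +kernel) (by decide +kernel) fin11

theorem p12_ok : polyOK pd12 51422017428260310233145136811307154430482220263205136075071489
    [8, -7, 2, 1, 3, 2, 1] = true := by decide +kernel

theorem fin12 : (WG (ofL (hypL 1 m12.K))).relIndex
    (OG (ofL (hypL 1 m12.K)) (vecL hU)) ≠ 0 :=
  fin_of p12_ok (verts_of v12_0 (by decide +kernel)) (d := m12.D) (c := m12.c) (T := m12.T)
    (by decide +kernel) (by decide +kernel) (by decide +kernel)

theorem ref12 : RefData m12.K :=
  refData_of m12_ok (by decide) (by decide +kernel) (by decide +kernel) fin12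

theorem p13_ok : polyOK pd13 51422017428260310233145136811307154430482220263205136075071489
    [7, -6, 2, 1, 2, 1, 1] = true := by decide +kernel

theorem fin13 : (WG (ofL (hypL 1 m13.K))).relIndex
    (OG (ofL (hypL 1 m13.K)) (vecL hU)) ≠ 0 :=
  fin_of p13_ok (verts_of v13_0 (by decide +kernel)) (d := m13.D) (c := m13.c) (T := m13.T)
    (by decide +kernel) (by decide +kernel) (by decide +kernel)

theorem ref13 : RefData m13.K :=
  refData_of m13_ok (by decide) (by decide +kernel) (by decide +kernel) fin13

end RH6.PO
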