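import Pool.Agent.RH6.ZH
import Pool.Agent.RH6.VA2
import Pool.Agent.RH6.MC2

set_option maxRecDepth 200000

namespace RH6.PO

open RH6.P RH6.MC

theorem p14_ok : polyOK pd14 51422017428260310233145136811307154430482220263205136075071489
    [13, -9, 2, 1, 4, 4, 3] = true := by decide +kernel

theorem fin14 : (WG (ofL (hypL 1 m14.K))).relIndex
    (OG (ofL (hypL 1 m14.K)) (vecL hU)) ≠ 0 :=
  fin_of p14_ok (verts_of v14_0 (by decide +kernel)) (d := m14.D) (c := m14.c) (T := m14.T)
    (by decide +kernel) (by decide +kernel) (by decide +kernel)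

theorem ref14 : RefData m14.K :=
  refData_of m14_ok (by decide) (by decide +kernel) (by decide +kernel) fin14

theorem p15_ok : polyOK pd15 51422017428260310233145136811307154430482220263205136075071489
    [9, -7, 2, 1, 3, 2, 1] = true := by decide +kernel

theorem fin15 : (WG (ofL (hypL 1 m15.K))).relIndex
    (OG (ofL (hypL 1 m15.K)) (vecL hU)) ≠ 0 :=
  fin_of p15_ok (verts_of v15_0 (by decide +kernel)) (d := m15.D) (c := m15.c) (T := m15.T)
    (by decide +kernel) (by decide +kernel) (by decide +kernel)

theorem ref15 : RefData m15.K :=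
  refData_of m15_ok (by decide) (by decide +kernel) (by decide +kernel) fin15

end RH6.PO
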