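import Pool.Agent.RH6.ZH
import Pool.Agent.RH6.VA3
import Pool.Agent.RH6.MC2
import Pool.Agent.RH6.MC3

set_option maxRecDepth 200000

namespace RH6.PO

open RH6.P RH6.MC

theorem p16_ok : polyOK pd16 51422017428260310233145136811307154430482220263205136075071489
    [8, -6, 4, 1, 3, 2, 1] = true := by decide +kernel

theorem fin16 : (WG (ofL (hypL 1 m16.K))).relIndex
    (OG (ofL (hypL 1 m16.K)) (vecL hU)) ≠ 0 :=
  fin_of p16_ok (verts_of v16_0 (by decide +kernel)) (d := m16.D) (c := m16.c) (T := m16.T)
    (by decide +kernel) (by decide +kernel) (by decide +kernel)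

theorem ref16 : RefData m16.K :=
  refData_of m16_ok (by decide) (by decide +kernel) (by decide +kernel) fin16

theorem p17_ok : polyOK pd17 51422017428260310233145136811307154430482220263205136075071489
    [10, -9, 2, 1, 3, 2, 1] = true := by decide +kernel

theorem fin17 : (WG (ofL (hypL 1 m17.K))).relIndex
    (OG (ofL (hypL 1 m17.K)) (vecL hU)) ≠ 0 :=
  fin_of p17_ok (verts_of v17_0 (by decide +kernel)) (d := m17.D) (c := m17.c) (T := m17.T)
    (by decide +kernel) (by decide +kernel) (by decide +kernel)

theorem ref17 : RefData m17.K :=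
  refData_of m17_ok (by decide) (by decide +kernel) (by decide +kernel) fin17

theorem p18_ok : polyOK pd18 51422017428260310233145136811307154430482220263205136075071489
    [12, -9, 4, 3, 2, 1, 2] = true := by decide +kernel

theorem fin18 : (WG (ofL (hypL 1 m18.K))).relIndex
    (OG (ofL (hypL 1 m18.K)) (vecL hU)) ≠ 0 :=
  fin_of p18_ok (verts_of v18_0 (by decide +kernel)) (d := m18.D) (c := m18.c) (T := m18.T)
    (by decide +kernel) (by decide +kernel) (by decide +kernel)

theorem ref18 : RefData m18.K :=
  refData_of m18_ok (by decide) (by decide +kernel) (by decide +kernel) fin18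

theorem p19_ok : polyOK pd19 51422017428260310233145136811307154430482220263205136075071489
    [9, -8, 4, 3, 2, 1, 1] = true := by decide +kernel

theorem fin19 : (WG (ofL (hypL 1 m19.K))).relIndex
    (OG (ofL (hypL 1 m19.K)) (vecL hU)) ≠ 0 :=
  fin_of p19_ok (verts_of v19_0 (by decide +kernel)) (d := m19.D) (c := m19.c) (T := m19.T)
    (by decide +kernel) (by decide +kernel) (by decide +kernel)

theorem ref19 : RefData m19.K :=
  refData_of m19_ok (by decide) (by decide +kernel) (by decide +kernel) fin19

theorem p20_ok : polyOK pd20 51422017428260310233145136811307154430482220263205136075071489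
    [22, -21, 10, 0, 4, 0, 1] = true := by decide +kernel

theorem fin20 : (WG (ofL (hypL 1 m20.K))).relIndex
    (OG (ofL (hypL 1 m20.K)) (vecL hU)) ≠ 0 :=
  fin_of p20_ok (verts_of v20_0 (by decide +kernel)) (d := m20.D) (c := m20.c) (T := m20.T)
    (by decide +kernel) (by decide +kernel) (by decide +kernel)

theorem ref20 : RefData m20.K :=
  refData_of m20_ok (by decide) (by decide +kernel) (by decide +kernel) fin20

theorem p21_ok : polyOK pd21 51422017428260310233145136811307154430482220263205136075071489
    [8, -7, 3, 0, 1, 1, 3] = true := by decide +kernel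

theorem fin21 : (WG (ofL (hypL 1 m21.K))).relIndex
    (OG (ofL (hypL 1 m21.K)) (vecL hU)) ≠ 0 :=
  fin_of p21_ok (verts_of v21_0 (by decide +kernel)) (d := m21.D) (c := m21.c) (T := m21.T)
    (by decide +kernel) (by decide +kernel) (by decide +kernel)

theorem ref21 : RefData m21.K :=
  refData_of m21_ok (by decide) (by decide +kernel) (by decide +kernel) fin21

theorem p22_ok : polyOK pd22 51422017428260310233145136811307154430482220263205136075071489
    [8, -7, 2, 1, 3, 2, 1] = true := by decide +kernel

theorem fin22 : (WG (ofL (hypL 1 m22.K))).relIndex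
    (OG (ofL (hypL 1 m22.K)) (vecL hU)) ≠ 0 :=
  fin_of p22_ok (verts_of v22_0 (by decide +kernel)) (d := m22.D) (c := m22.c) (T := m22.T)
    (by decide +kernel) (by decide +kernel) (by decide +kernel)

theorem ref22 : RefData m22.K :=
  refData_of m22_ok (by decide) (by decide +kernel) (by decide +kernel) fin22

theorem p23_ok : polyOK pd23 51422017428260310233145136811307154430482220263205136075071489
    [9, -8, 2, 1, 3, 2, 1] = true := by decide +kernel

theorem fin23 : (WG (ofL (hypL 1 m23.K))).relIndex
    (OG (ofL (hypL 1 m23.K)) (vecL hU)) ≠ 0 :=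
  fin_of p23_ok (verts_of v23_0 (by decide +kernel)) (d := m23.D) (c := m23.c) (T := m23.T)
    (by decide +kernel) (by decide +kernel) (by decide +kernel)

theorem ref23 : RefData m23.K :=
  refData_of m23_ok (by decide) (by decide +kernel) (by decide +kernel) fin23

theorem p24_ok : polyOK pd24 51422017428260310233145136811307154430482220263205136075071489
    [9, -8, 4, 3, 2, 2, 3] = true := by decide +kernel

theorem fin24 : (WG (ofL (hypL 1 m24.K))).relIndex
    (OG (ofL (hypL 1 m24.K)) (vecL hU)) ≠ 0 :=
  fin_of p24_ok (verts_of v24_0 (by decide +kernel)) (d := m24.D) (c := m24.c) (T := m24.T)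
    (by decide +kernel) (by decide +kernel) (by decide +kernel)

theorem ref24 : RefData m24.K :=
  refData_of m24_ok (by decide) (by decide +kernel) (by decide +kernel) fin24

end RH6.PO
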