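import Pool.Agent.RH6.ZH
import Pool.Agent.RH6.VA4
import Pool.Agent.RH6.MC3

set_option maxRecDepth 200000

namespace RH6.PO

open RH6.P RH6.MC

theorem p25_ok : polyOK pd25 51422017428260310233145136811307154430482220263205136075071489
    [10, -9, 5, 3, 2, 4, 3] = true := by decide +kernel

theorem fin25 : (WG (ofL (hypL 1 m25.K))).relIndex
    (OG (ofL (hypL 1 m25.K)) (vecL hU)) ≠ 0 :=
  fin_of p25_ok (verts_of v25_0 (by decide +kernel)) (d := m25.D) (c := m25.c) (T := m25.T)
    (by decide +kernel) (by decide +kernel) (by decide +kernel)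

theorem ref25 : RefData m25.K :=
  refData_of m25_ok (by decide) (by decide +kernel) (by decide +kernel) fin25

theorem p26_ok : polyOK pd26 51422017428260310233145136811307154430482220263205136075071489
    [12, -11, 3, 0, 2, 0, 4] = true := by decide +kernel

theorem fin26 : (WG (ofL (hypL 1 m26.K))).relIndex
    (OG (ofL (hypL 1 m26.K)) (vecL hU)) ≠ 0 :=
  fin_of p26_ok (verts_of v26_0 (by decide +kernel)) (d := m26.D) (c := m26.c) (T := m26.T)
    (by decide +kernel) (by decide +kernel) (by decide +kernel)

theorem ref26 : RefData m26.K :=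
  refData_of m26_ok (by decide) (by decide +kernel) (by decide +kernel) fin26

end RH6.PO
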