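import Pool.Agent.RH6.ZH
import Pool.Agent.RH6.VA5
import Pool.Agent.RH6.MC3
import Pool.Agent.RH6.MC4

set_option maxRecDepth 200000

namespace RH6.PO

open RH6.P RH6.MC

theorem p27_ok : polyOK pd27 51422017428260310233145136811307154430482220263205136075071489
    [10, -4, 1, 1, 2, 1, 3] = true := by decide +kernel

theorem fin27 : (WG (ofL (hypL 1 m27.K))).relIndex
    (OG (ofL (hypL 1 m27.K)) (vecL hU)) ≠ 0 :=
  fin_of p27_ok (verts_of v27_0 (by decide +kernel)) (d := m27.D) (c := m27.c) (T := m27.T)
    (by decide +kernel) (by decide +kernel) (by decide +kernel)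

theorem ref27 : RefData m27.K :=
  refData_of m27_ok (by decide) (by decide +kernel) (by decide +kernel) fin27

theorem p30_ok : polyOK pd30 51422017428260310233145136811307154430482220263205136075071489
    [16, -13, 5, 1, 2, 1, 3] = true := by decide +kernel

theorem fin30 : (WG (ofL (hypL 1 m30.K))).relIndex
    (OG (ofL (hypL 1 m30.K)) (vecL hU)) ≠ 0 :=
  fin_of p30_ok (verts_of v30_0 (by decide +kernel)) (d := m30.D) (c := m30.c) (T := m30.T)
    (by decide +kernel) (by decide +kernel) (by decide +kernel)

theorem ref30 : RefData m30.K :=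
  refData_of m30_ok (by decide) (by decide +kernel) (by decide +kernel) fin30

theorem p31_ok : polyOK pd31 51422017428260310233145136811307154430482220263205136075071489
    [12, -11, 5, 4, 3, 1, 3] = true := by decide +kernel

theorem fin31 : (WG (ofL (hypL 1 m31.K))).relIndex
    (OG (ofL (hypL 1 m31.K)) (vecL hU)) ≠ 0 :=
  fin_of p31_ok (verts_of v31_0 (by decide +kernel)) (d := m31.D) (c := m31.c) (T := m31.T)
    (by decide +kernel) (by decide +kernel) (by decide +kernel)

theorem ref31 : RefData m31.K :=
  refData_of m31_ok (by decide) (by decide +kernel) (by decide +kernel) fin31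

theorem p32_ok : polyOK pd32 51422017428260310233145136811307154430482220263205136075071489
    [10, -8, 4, 3, 2, 1, 2] = true := by decide +kernel

theorem fin32 : (WG (ofL (hypL 1 m32.K))).relIndex
    (OG (ofL (hypL 1 m32.K)) (vecL hU)) ≠ 0 :=
  fin_of p32_ok (verts_of v32_0 (by decide +kernel)) (d := m32.D) (c := m32.c) (T := m32.T)
    (by decide +kernel) (by decide +kernel) (by decide +kernel)

theorem ref32 : RefData m32.K :=
  refData_of m32_ok (by decide) (by decide +kernel) (by decide +kernel) fin32

theorem p33_ok : polyOK pd33 51422017428260310233145136811307154430482220263205136075071489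
    [23, -22, 10, 0, 5, 0, 1] = true := by decide +kernel

theorem fin33 : (WG (ofL (hypL 1 m33.K))).relIndex
    (OG (ofL (hypL 1 m33.K)) (vecL hU)) ≠ 0 :=
  fin_of p33_ok (verts_of v33_0 (by decide +kernel)) (d := m33.D) (c := m33.c) (T := m33.T)
    (by decide +kernel) (by decide +kernel) (by decide +kernel)

theorem ref33 : RefData m33.K :=
  refData_of m33_ok (by decide) (by decide +kernel) (by decide +kernel) fin33

end RH6.PO
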