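import Pool.Agent.RH6.ZH
import Pool.Agent.RH6.VA6
import Pool.Agent.RH6.MC4
import Pool.Agent.RH6.MC5

set_option maxRecDepth 200000

namespace RH6.PO

open RH6.P RH6.MC

theorem p34_ok : polyOK pd34 51422017428260310233145136811307154430482220263205136075071489
    [7, -6, 0, 1, 3, 2, 1] = true := by decide +kernel

theorem fin34 : (WG (ofL (hypL 1 m34.K))).relIndex
    (OG (ofL (hypL 1 m34.K)) (vecL hU)) ≠ 0 :=
  fin_of p34_ok (verts_of v34_0 (by decide +kernel)) (d := m34.D) (c := m34.c) (T := m34.T)
    (by decide +kernel) (by decide +kernel) (by decide +kernel)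

theorem ref34 : RefData m34.K :=
  refData_of m34_ok (by decide) (by decide +kernel) (by decide +kernel) fin34

theorem p35_ok : polyOK pd35 51422017428260310233145136811307154430482220263205136075071489
    [11, -7, 1, 2, 3, 2, 1] = true := by decide +kernel

theorem fin35 : (WG (ofL (hypL 1 m35.K))).relIndex
    (OG (ofL (hypL 1 m35.K)) (vecL hU)) ≠ 0 :=
  fin_of p35_ok (verts_of v35_0 (by decide +kernel)) (d := m35.D) (c := m35.c) (T := m35.T)
    (by decide +kernel) (by decide +kernel) (by decide +kernel)

theorem ref35 : RefData m35.K :=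
  refData_of m35_ok (by decide) (by decide +kernel) (by decide +kernel) fin35

theorem p36_ok : polyOK pd36 51422017428260310233145136811307154430482220263205136075071489
    [13, -10, 6, 3, 2, 1, 3] = true := by decide +kernel

theorem fin36 : (WG (ofL (hypL 1 m36.K))).relIndex
    (OG (ofL (hypL 1 m36.K)) (vecL hU)) ≠ 0 :=
  fin_of p36_ok (verts_of v36_0 (by decide +kernel)) (d := m36.D) (c := m36.c) (T := m36.T)
    (by decide +kernel) (by decide +kernel) (by decide +kernel)

theorem ref36 : RefData m36.K :=
  refData_of m36_ok (by decide) (by decide +kernel) (by decide +kernel) fin36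

end RH6.PO
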