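import Pool.Agent.RH6.ZH
import Pool.Agent.RH6.VD28
import Pool.Agent.RH6.VB28_0
import Pool.Agent.RH6.VB28_1
import Pool.Agent.RH6.VB28_2
import Pool.Agent.RH6.VB28_3
import Pool.Agent.RH6.VB28_4
import Pool.Agent.RH6.VB28_5
import Pool.Agent.RH6.VB28_6
import Pool.Agent.RH6.VB28_7
import Pool.Agent.RH6.VB28_8
import Pool.Agent.RH6.VB28_9
import Pool.Agent.RH6.VB28_10
import Pool.Agent.RH6.VB28_11
import Pool.Agent.RH6.MC4

set_option maxRecDepth 200000

namespace RH6.PO

open RH6.P RH6.MC

theorem p28_ok : polyOK pd28 51422017428260310233145136811307154430482220263205136075071489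
    [7, -6, 3, 2, 3, 2, 1] = true := by decide +kernel

theorem vv28 : ∀ j < pd28.m, ∃ c, vertOK pd28 j c = true := by
  intro j hj
  have hj' : j < 4518 := lt_of_lt_of_le hj (by decide +kernel)
  rcases lt_or_ge j 380 with h0 | h0
  · have hl : vc28_0.length = 380 := by decide +kernel
    exact verts_range v28_0 j (by omega) (by omega)
  rcases lt_or_ge j 760 with h1 | h1
  · have hl : vc28_1.length = 380 := by decide +kernel
    exact verts_range v28_1 j (by omega) (by omega)
  rcases lt_or_ge j 1140 with h2 | h2
  · have hl : vc28_2.length = 380 := by decide +kernel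
    exact verts_range v28_2 j (by omega) (by omega)
  rcases lt_or_ge j 1520 with h3 | h3
  · have hl : vc28_3.length = 380 := by decide +kernel
    exact verts_range v28_3 j (by omega) (by omega)
  rcases lt_or_ge j 1900 with h4 | h4
  · have hl : vc28_4.length = 380 := by decide +kernel
    exact verts_range v28_4 j (by omega) (by omega)
  rcases lt_or_ge j 2280 with h5 | h5
  · have hl : vc28_5.length = 380 := by decide +kernel
    exact verts_range v28_5 j (by omega) (by omega)
  rcases lt_or_ge j 2660 with h6 | h6
  · have hl : vc28_6.length = 380 := by decide +kernel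
    exact verts_range v28_6 j (by omega) (by omega)
  rcases lt_or_ge j 3040 with h7 | h7
  · have hl : vc28_7.length = 380 := by decide +kernel
    exact verts_range v28_7 j (by omega) (by omega)
  rcases lt_or_ge j 3420 with h8 | h8
  · have hl : vc28_8.length = 380 := by decide +kernel
    exact verts_range v28_8 j (by omega) (by omega)
  rcases lt_or_ge j 3800 with h9 | h9
  · have hl : vc28_9.length = 380 := by decide +kernel
    exact verts_range v28_9 j (by omega) (by omega)
  rcases lt_or_ge j 4180 with h10 | h10
  · have hl : vc28_10.length = 380 := by decide +kernel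
    exact verts_range v28_10 j (by omega) (by omega)
  · have hl : vc28_11.length = 338 := by decide +kernel
    exact verts_range v28_11 j (by omega) (by omega)

theorem fin28 : (WG (ofL (hypL 1 m28.K))).relIndex
    (OG (ofL (hypL 1 m28.K)) (vecL hU)) ≠ 0 :=
  fin_of p28_ok vv28 (d := m28.D) (c := m28.c) (T := m28.T)
    (by decide +kernel) (by decide +kernel) (by decide +kernel)

theorem ref28 : RefData m28.K :=
  refData_of m28_ok (by decide) (by decide +kernel) (by decide +kernel) fin28

end RH6.PO
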