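import Pool.Agent.RH6.ZH
import Pool.Agent.RH6.VD29
import Pool.Agent.RH6.VB29_0
import Pool.Agent.RH6.VB29_1
import Pool.Agent.RH6.VB29_2
import Pool.Agent.RH6.MC4

set_option maxRecDepth 200000

namespace RH6.PO

open RH6.P RH6.MC

theorem p29_ok : polyOK pd29 51422017428260310233145136811307154430482220263205136075071489
    [6, -5, 2, 2, 1, 1, 2] = true := by decide +kernel

theorem vv29 : ∀ j < pd29.m, ∃ c, vertOK pd29 j c = true := by
  intro j hj
  have hj' : j < 944 := lt_of_lt_of_le hj (by decide +kernel)
  rcases lt_or_ge j 380 with h0 | h0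
  · have hl : vc29_0.length = 380 := by decide +kernel
    exact verts_range v29_0 j (by omega) (by omega)
  rcases lt_or_ge j 760 with h1 | h1
  · have hl : vc29_1.length = 380 := by decide +kernel
    exact verts_range v29_1 j (by omega) (by omega)
  · have hl : vc29_2.length = 184 := by decide +kernel
    exact verts_range v29_2 j (by omega) (by omega)

theorem fin29 : (WG (ofL (hypL 1 m29.K))).relIndex
    (OG (ofL (hypL 1 m29.K)) (vecL hU)) ≠ 0 :=
  fin_of p29_ok vv29 (d := m29.D) (c := m29.c) (T := m29.T)
    (by decide +kernel) (by decide +kernel) (by decide +kernel)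

theorem ref29 : RefData m29.K :=
  refData_of m29_ok (by decide) (by decide +kernel) (by decide +kernel) fin29

end RH6.PO
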