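import Pool.Agent.RH6.POA0
import Pool.Agent.RH6.POA1
import Pool.Agent.RH6.POA2
import Pool.Agent.RH6.POA3
import Pool.Agent.RH6.POA4
import Pool.Agent.RH6.POA5
import Pool.Agent.RH6.POD28
import Pool.Agent.RH6.POD29
import Pool.Agent.RH6.POA6
import Pool.Agent.RH6.MAll

namespace RH6.PO

open RH6.MC

theorem ref_all : ∀ M ∈ Ms, RefData M.K :=
  List.forall_mem_cons.2 ⟨ref0, 
  List.forall_mem_cons.2 ⟨ref1, 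
  List.forall_mem_cons.2 ⟨ref2, 
  List.forall_mem_cons.2 ⟨ref3, 
  List.forall_mem_cons.2 ⟨ref4, 
  List.forall_mem_cons.2 ⟨ref5, 
  List.forall_mem_cons.2 ⟨ref6, 
  List.forall_mem_cons.2 ⟨ref7, 
  List.forall_mem_cons.2 ⟨ref8, 
  List.forall_mem_cons.2 ⟨ref9, 
  List.forall_mem_cons.2 ⟨ref10, 
  List.forall_mem_cons.2 ⟨ref11, 
  List.forall_mem_cons.2 ⟨ref12, 
  List.forall_mem_cons.2 ⟨ref13, 
  List.forall_mem_cons.2 ⟨ref14, 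
  List.forall_mem_cons.2 ⟨ref15, 
  List.forall_mem_cons.2 ⟨ref16, 
  List.forall_mem_cons.2 ⟨ref17, 
  List.forall_mem_cons.2 ⟨ref18, 
  List.forall_mem_cons.2 ⟨ref19, 
  List.forall_mem_cons.2 ⟨ref20, 
  List.forall_mem_cons.2 ⟨ref21, 
  List.forall_mem_cons.2 ⟨ref22, 
  List.forall_mem_cons.2 ⟨ref23, 
  List.forall_mem_cons.2 ⟨ref24, 
  List.forall_mem_cons.2 ⟨ref25, 
  List.forall_mem_cons.2 ⟨ref26, 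
  List.forall_mem_cons.2 ⟨ref27, 
  List.forall_mem_cons.2 ⟨ref28, 
  List.forall_mem_cons.2 ⟨ref29, 
  List.forall_mem_cons.2 ⟨ref30, 
  List.forall_mem_cons.2 ⟨ref31, 
  List.forall_mem_cons.2 ⟨ref32, 
  List.forall_mem_cons.2 ⟨ref33, 
  List.forall_mem_cons.2 ⟨ref34, 
  List.forall_mem_cons.2 ⟨ref35, 
  List.forall_mem_cons.2 ⟨ref36, fun _ h => absurd h List.not_mem_nil⟩⟩⟩⟩⟩⟩⟩⟩⟩⟩⟩⟩⟩⟩⟩⟩⟩⟩⟩⟩⟩⟩⟩⟩⟩⟩⟩⟩⟩⟩⟩⟩⟩⟩⟩⟩⟩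

end RH6.PO
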