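import Pool.Agent.RH6.G4
import Pool.Agent.RH6.KQ
import Pool.Agent.RH6.AAll
import Pool.Agent.RH6.PAll
import Pool.Agent.RH6.NAll

open Matrix

namespace RH6

open MC

/-! The classification, in terms of the list `Ks`. -/

theorem MM_get (i : ℕ) (hi : i < 37) : MM i ∈ Ms ∧ (MM i).K = Ks.getD i [] := by
  have hl : i < Ms.length := hi
  have e : MM i = Ms[i] := by
    unfold MM
    exact List.getD_eq_getElem _ _ hl
  refine ⟨by rw [e]; exact List.getElem_mem _, ?_⟩
  have := congrArg (fun l => l.getD i []) Ms_K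
  simp only [List.getD_eq_getElem?_getD, List.getElem?_map, List.getElem?_take] at this
  rw [if_pos hi, List.getElem?_eq_getElem hl] at this
  rw [e, List.getD_eq_getElem?_getD]
  exact this

theorem ref_get (i : ℕ) (hi : i < 37) : RefData (Ks.getD i []) := by
  rw [← (MM_get i hi).2]
  exact PO.ref_all _ (MM_get i hi).1

theorem MM_simp (i : ℕ) (hi : i < 37) : ((MM i).s = 1 ∨ (MM i).s = 2) ∧
    pdB (MM i).K (MM i).D (MM i).c (MM i).T = true ∧
    detK (MM i).D (MM i).c (MM i).T * (MM i).D ^ 5 = (MM i).c.prod *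
      (((List.range 5).map fun k => (((MM i).T.getD k []).getD k 0).natAbs).prod) ^ 2 := by
  have h := List.all_eq_true.1 Ms_simp _ (MM_get i hi).1
  unfold simpB at h
  simp only [Bool.and_eq_true, Bool.or_eq_true, Nat.beq_eq] at h
  exact ⟨h.1.1.1, h.1.1.2, h.2⟩

theorem exists_all (i : ℕ) (hi : i < 37) :
    ∃ P : GL (Fin 7) ℝ, P.1ᵀ * J0 * P.1 = mR (ofL (hypL 1 (Ks.getD i []))) := by
  obtain ⟨D, c, T, h⟩ := (ref_get i hi).pd
  exact exists_P h (ref_get i hi).sym

theorem max_all {Γ : Subgroup (GL (Fin 7) ℝ)} (hΓ : IsMax Γ) :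
    ∃ i < 37, ∃ P : GL (Fin 7) ℝ, P.1ᵀ * J0 * P.1 = mR (ofL (hypL 1 (Ks.getD i []))) ∧
      Γ = WP P :=
  max_is_listed allFam hq_all (fun i hi => lor_all i hi) (fun i hi h => hn_all i hi h) hΓ

theorem not_iso {i j : ℕ} (hi : i < 37) (hj : j < 37) (hij : i ≠ j)
    (h1 : ∃ U : Matrix (Fin 7) (Fin 7) ℤ,
      Uᵀ * (((MM j).s : ℤ) • ofL (hypL 1 (Ks.getD j []))) * U =
        ((MM i).s : ℤ) • ofL (hypL 1 (Ks.getD i [])))
    (h2 : ∃ U : Matrix (Fin 7) (Fin 7) ℤ,
      Uᵀ * (((MM i).s : ℤ) • ofL (hypL 1 (Ks.getD i []))) * U =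
        ((MM j).s : ℤ) • ofL (hypL 1 (Ks.getD j []))) : False := by
  rw [← (MM_get i hi).2, ← (MM_get j hj).2] at h1 h2
  have h := List.all_eq_true.1 (List.all_eq_true.1 PL_all i (List.mem_range.2 hi)) j
    (List.mem_range.2 hj)
  simp only [Bool.or_eq_true, Nat.beq_eq, Bool.not_eq_true'] at h
  rcases h with (h | h) | h
  · exact hij h
  · obtain ⟨U, hU⟩ := h1
    obtain ⟨V, hV⟩ := h2
    obtain ⟨si, pi, di⟩ := MM_simp i hi
    obtain ⟨sj, pj, dj⟩ := MM_simp j hj
    obtain ⟨ei, fi⟩ := det_dS pi di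
    obtain ⟨ej, fj⟩ := det_dS pj dj
    have := det_eq_of ej ei (fj (by rcases sj with h | h <;> omega))
      (fi (by rcases si with h | h <;> omega)) hU hV
    rw [this] at h
    simp at h
  · obtain ⟨p, hp, hq⟩ := List.any_eq_true.1 h
    have hc := List.all_eq_true.1 PL_ok p hp
    have hs := chkPair_sound hc
    rw [mcertJ, mcertJ] at hs
    simp only [Bool.or_eq_true, Bool.and_eq_true, Nat.beq_eq] at hq
    rcases hq with ⟨e1, e2⟩ | ⟨e1, e2⟩
    · rw [e1, e2] at hs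
      exact hs h2
    · rw [e1, e2] at hs
      exact hs h1

theorem conj_all {i j : ℕ} (hi : i < 37) (hj : j < 37) {P P' : GL (Fin 7) ℝ}
    (hP : P.1ᵀ * J0 * P.1 = mR (ofL (hypL 1 (Ks.getD i []))))
    (hP' : P'.1ᵀ * J0 * P'.1 = mR (ofL (hypL 1 (Ks.getD j [])))) :
    (∃ g ∈ IsomH6, WP P' = (WP P).map (MulAut.conj g).toMonoidHom) ↔ i = j := by
  constructor
  · rintro ⟨g, hg, h⟩
    by_contra hij
    have hMi : chkMax (MM i) = true := Ms_ok _ (MM_get i hi).1
    have hMj : chkMax (MM j) = true := Ms_ok _ (MM_get j hj).1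
    have mi := maxData_of hMi
    have mj := maxData_of hMj
    rw [(MM_get i hi).2] at mi
    rw [(MM_get j hj).2] at mj
    have h' : WP P = (WP P').map (MulAut.conj g⁻¹).toMonoidHom := by
      rw [h, Subgroup.map_map]
      ext x
      simp [Subgroup.mem_map, MonoidHom.comp_apply, mul_assoc]
    exact not_iso hi hj hij
      (conj_iso (ref_get i hi) (ref_get j hj) hP hP' hg h (MM_simp i hi).1 (MM_simp j hj).1
        mi mj)
      (conj_iso (ref_get j hj) (ref_get i hi) hP' hP (IsomH6.inv_mem hg) h'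
        (MM_simp j hj).1 (MM_simp i hi).1 mj mi)
  · rintro rfl
    obtain ⟨g, hg, h⟩ := conj_of_same hP hP'
    exact ⟨g, hg, h⟩

end RH6
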