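import Mathlib

namespace RH6

/-! Row [RH-P2]: combinatorics of the glue codes.  `C` is a set of subsets of `Fin 5` closed under
symmetric difference.  (Finite statements about pairs or triples of subsets can be proved by
`decide`; there are 32 subsets and 120 permutations.) -/

/-- subsets of `Fin 5` as 5-bit numbers -/
def p2_enc (w : Finset (Fin 5)) : ℕ := ∑ i ∈ w, 2 ^ (i : ℕ)

/-- 5-bit numbers as subsets of `Fin 5` -/
def p2_dec (n : ℕ) : Finset (Fin 5) := Finset.univ.filter (fun i => n.testBit i = true)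

theorem p2_dec_enc : ∀ w, p2_dec (p2_enc w) = w := by decide +kernel
theorem p2_enc_lt : ∀ w, p2_enc w < 32 := by decide +kernel
theorem p2_enc_dec : ∀ n < 32, p2_enc (p2_dec n) = n := by decide +kernel
theorem p2_enc_inter : ∀ w w', p2_enc (w ∩ w') = p2_enc w &&& p2_enc w' := by decide +kernel
theorem p2_enc_sdiff : ∀ w w', p2_enc (w \ w') = p2_enc w &&& (31 ^^^ p2_enc w') := by
  decide +kernel
theorem p2_enc_insert : ∀ (x : Fin 5) (w : Finset (Fin 5)),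
    p2_enc (insert x w) = p2_enc w ||| 2 ^ (x : ℕ) := by decide +kernel
theorem p2_enc_singleton : ∀ (x : Fin 5), p2_enc {x} = 2 ^ (x : ℕ) := by decide +kernel
theorem p2_enc_univ : p2_enc Finset.univ = 31 := by decide +kernel
theorem p2_enc_empty : p2_enc ∅ = 0 := by decide +kernel

/-- even number of bits -/
def p2_par (n : ℕ) : Bool := (n % 2 + n / 2 % 2 + n / 4 % 2 + n / 8 % 2 + n / 16 % 2) % 2 == 0

theorem p2_even : ∀ w : Finset (Fin 5), Even w.card ↔ p2_par (p2_enc w) = true := by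
  decide +kernel

theorem p2_enc_inj {w w' : Finset (Fin 5)} : p2_enc w = p2_enc w' ↔ w = w' :=
  ⟨fun h => by rw [← p2_dec_enc w, h, p2_dec_enc], fun h => by rw [h]⟩

theorem p2_dec_xor (a b : ℕ) : p2_dec (a ^^^ b) = symmDiff (p2_dec a) (p2_dec b) := by
  ext i
  simp only [p2_dec, Finset.mem_symmDiff, Finset.mem_filter, Finset.mem_univ, true_and,
    Nat.testBit_xor]
  cases a.testBit i <;> cases b.testBit i <;> simp

/-- enumeration of all subspaces: `P` in, `Q` out, all numbers below `n` are decided -/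
def p2_search (F : List ℕ → Bool) : ℕ → ℕ → List ℕ → List ℕ → Bool
  | 0, _, P, _ => F P
  | k + 1, n, P, Q =>
    if n ∈ P then p2_search F k (n + 1) P Q
    else (P.any (fun p => Q.contains (n ^^^ p)) ||
        p2_search F k (n + 1) (P ++ P.map (fun p => n ^^^ p)) Q) &&
      p2_search F k (n + 1) P (n :: Q)

theorem p2_search_sound (F : List ℕ → Bool) (C : ℕ → Prop)
    (hx : ∀ a b, C a → C b → C (a ^^^ b)) :
    ∀ k n P Q, n + k = 32 → 0 ∈ P → (∀ p ∈ P, C p) → (∀ q ∈ Q, ¬ C q) →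
      (∀ m < n, m ∈ P ∨ m ∈ Q) →
      p2_search F k n P Q = true → ∃ R : List ℕ, F R = true ∧ (∀ m < 32, C m → m ∈ R) ∧
        ∀ m ∈ R, C m := by
  intro k
  induction k with
  | zero =>
    intro n P Q hn _ hP hQ hd hs
    refine ⟨P, hs, fun m hm hC => ?_, hP⟩
    rcases hd m (by omega) with h | h
    · exact h
    · exact absurd hC (hQ m h)
  | succ k ih =>
    intro n P Q hn h0 hP hQ hd hs
    rw [p2_search] at hs
    split_ifs at hs with h
    · refine ih (n + 1) P Q (by omega) h0 hP hQ (fun m hm => ?_) hs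
      rcases Nat.lt_succ_iff_lt_or_eq.1 hm with h' | h'
      · exact hd m h'
      · exact Or.inl (h' ▸ h)
    · rw [Bool.and_eq_true, Bool.or_eq_true] at hs
      by_cases hC : C n
      · rcases hs.1 with h1 | h1
        · exfalso
          rw [List.any_eq_true] at h1
          obtain ⟨p, hp, hq⟩ := h1
          have hq' : n ^^^ p ∈ Q := by simpa using hq
          exact hQ _ hq' (hx _ _ hC (hP p hp))
        · refine ih (n + 1) _ Q (by omega) (List.mem_append_left _ h0) (fun p hp => ?_) hQ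
            (fun m hm => ?_) h1
          · rcases List.mem_append.1 hp with h2 | h2
            · exact hP p h2
            · obtain ⟨p', hp', rfl⟩ := List.mem_map.1 h2
              exact hx _ _ hC (hP p' hp')
          · rcases Nat.lt_succ_iff_lt_or_eq.1 hm with h' | h'
            · rcases hd m h' with h2 | h2
              · exact Or.inl (List.mem_append_left _ h2)
              · exact Or.inr h2
            · refine Or.inl (List.mem_append_right _ (List.mem_map.2 ⟨0, h0, ?_⟩))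
              rw [Nat.xor_zero, h']
      · refine ih (n + 1) P (n :: Q) (by omega) h0 hP (fun q hq => ?_) (fun m hm => ?_) hs.2
        · rcases List.mem_cons.1 hq with h2 | h2
          · rw [h2]; exact hC
          · exact hQ q h2
        · rcases Nat.lt_succ_iff_lt_or_eq.1 hm with h' | h'
          · rcases hd m h' with h2 | h2
            · exact Or.inl h2
            · exact Or.inr (List.mem_cons_of_mem _ h2)
          · exact Or.inr (h' ▸ List.mem_cons_self)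

/-- every code is found by the search -/
theorem p2_classify {C : Set (Finset (Fin 5))} (h0 : ∅ ∈ C)
    (ha : ∀ w ∈ C, ∀ w' ∈ C, symmDiff w w' ∈ C) (F : List ℕ → Bool)
    (hF : p2_search F 31 1 [0] [] = true) :
    ∃ R : List ℕ, F R = true ∧ (∀ w, w ∈ C ↔ p2_enc w ∈ R) ∧
      ∀ m ∈ R, ∃ w ∈ C, m = p2_enc w := by
  obtain ⟨R, h1, h2, h3⟩ := p2_search_sound F (fun m => m < 32 ∧ p2_dec m ∈ C) (by
      rintro a b ⟨ha1, ha2⟩ ⟨hb1, hb2⟩
      refine ⟨?_, ?_⟩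
      · exact Nat.xor_lt_two_pow (n := 5) ha1 hb1
      · rw [p2_dec_xor]
        exact ha _ ha2 _ hb2) 31 1 [0] [] (by norm_num) (by simp)
    (by
      intro p hp
      have hp0 : p = 0 := by simpa using hp
      subst hp0
      refine ⟨by norm_num, ?_⟩
      have : p2_dec 0 = ∅ := by decide +kernel
      rw [this]
      exact h0)
    (by intro q hq; simp at hq) (by
      intro m hm
      have : m = 0 := by omega
      left
      rw [this]
      simp) hF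
  refine ⟨R, h1, fun w => ⟨fun hw => ?_, fun hw => ?_⟩, fun m hm => ?_⟩
  · exact h2 _ (p2_enc_lt w) ⟨p2_enc_lt w, by rw [p2_dec_enc]; exact hw⟩
  · have := (h3 _ hw).2
    rwa [p2_dec_enc] at this
  · obtain ⟨h4, h5⟩ := h3 m hm
    exact ⟨p2_dec m, h5, (p2_enc_dec m h4).symm⟩

/-- a permutation from a list of distinct values -/
theorem p2_perm {x0 x1 x2 x3 x4 : Fin 5} (h01 : x1 ≠ x0) (h02 : x2 ≠ x0) (h12 : x2 ≠ x1)
    (h03 : x3 ≠ x0) (h13 : x3 ≠ x1) (h23 : x3 ≠ x2) (h04 : x4 ≠ x0) (h14 : x4 ≠ x1)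
    (h24 : x4 ≠ x2) (h34 : x4 ≠ x3) :
    ∃ σ : Equiv.Perm (Fin 5), σ 0 = x0 ∧ σ 1 = x1 ∧ σ 2 = x2 ∧ σ 3 = x3 ∧ σ 4 = x4 := by
  have hinj : Function.Injective ![x0, x1, x2, x3, x4] := by
    intro i j hij
    fin_cases i <;> fin_cases j <;> simp_all
  refine ⟨Equiv.ofBijective _ (Finite.injective_iff_bijective.1 hinj), ?_, ?_, ?_, ?_, ?_⟩ <;>
    simp [Equiv.ofBijective]

/-- quantification over permutations -/
def p2_ex (G : Fin 5 → Fin 5 → Fin 5 → Fin 5 → Fin 5 → Bool) : Bool :=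
  (List.finRange 5).any fun x0 => (List.finRange 5).any fun x1 => decide (x1 ≠ x0) &&
    (List.finRange 5).any fun x2 => decide (x2 ≠ x0) && decide (x2 ≠ x1) &&
      (List.finRange 5).any fun x3 => decide (x3 ≠ x0) && decide (x3 ≠ x1) && decide (x3 ≠ x2) &&
        (List.finRange 5).any fun x4 => decide (x4 ≠ x0) && decide (x4 ≠ x1) &&
          decide (x4 ≠ x2) && decide (x4 ≠ x3) && G x0 x1 x2 x3 x4

theorem p2_ex_iff {G : Fin 5 → Fin 5 → Fin 5 → Fin 5 → Fin 5 → Bool} (h : p2_ex G = true) :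
    ∃ σ : Equiv.Perm (Fin 5), G (σ 0) (σ 1) (σ 2) (σ 3) (σ 4) = true := by
  simp only [p2_ex, List.any_eq_true, Bool.and_eq_true, decide_eq_true_eq] at h
  obtain ⟨x0, -, x1, -, h01, x2, -, ⟨h02, h12⟩, x3, -, ⟨⟨h03, h13⟩, h23⟩, x4, -,
    ⟨⟨⟨⟨h04, h14⟩, h24⟩, h34⟩, hG⟩⟩ := h
  obtain ⟨σ, e0, e1, e2, e3, e4⟩ := p2_perm h01 h02 h12 h03 h13 h23 h04 h14 h24 h34
  exact ⟨σ, by rw [e0, e1, e2, e3, e4]; exact hG⟩

/-- the number of the set `{x, y}` -/
def p2_m2 (x y : Fin 5) : ℕ := 2 ^ (y : ℕ) ||| 2 ^ (x : ℕ)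
/-- the number of the set `{x, y, z}` -/
def p2_m3 (x y z : Fin 5) : ℕ := p2_m2 y z ||| 2 ^ (x : ℕ)
/-- the number of the set `{x, y, z, t}` -/
def p2_m4 (x y z t : Fin 5) : ℕ := p2_m3 y z t ||| 2 ^ (x : ℕ)

theorem p2_enc2 (x y : Fin 5) : p2_enc {x, y} = p2_m2 x y := by
  rw [p2_enc_insert, p2_enc_singleton, p2_m2]
theorem p2_enc3 (x y z : Fin 5) : p2_enc {x, y, z} = p2_m3 x y z := by
  rw [p2_enc_insert, p2_enc2, p2_m3]
theorem p2_enc4 (x y z t : Fin 5) : p2_enc {x, y, z, t} = p2_m4 x y z t := by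
  rw [p2_enc_insert, p2_enc3, p2_m4]

theorem p2_sub (w T : Finset (Fin 5)) : w ⊆ T ↔ p2_enc w &&& p2_enc T = p2_enc w := by
  rw [← p2_enc_inter, p2_enc_inj, Finset.inter_eq_left]

/-- equality with a given list -/
def p2_eqv (P L : List ℕ) : Bool := decide (∀ m ∈ List.range 32, m ∈ P ↔ m ∈ L)

/-- the check for `code_FQ` -/
def p2_FQ (P : List ℕ) : Bool := decide (∀ T ∈ List.range 32,
  (∀ w ∈ P, w &&& T = w) → (∀ w ∈ P, ∀ w' ∈ P, p2_par (w &&& w') = true) →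
  (∀ u ∈ List.range 32, u &&& T = u → (∀ w ∈ P, p2_par (u &&& w) = true) → u ∈ P) →
  p2_ex (fun x0 x1 x2 x3 _ =>
    (decide (T = 0) && p2_eqv P [0]) || (decide (T = p2_m2 x0 x1) && p2_eqv P [0, p2_m2 x0 x1]) ||
    (decide (T = p2_m4 x0 x1 x2 x3) &&
      p2_eqv P [0, p2_m2 x0 x1, p2_m2 x2 x3, p2_m4 x0 x1 x2 x3])) = true)


/-- the check for `code_F0` -/
def p2_F0 (P : List ℕ) : Bool := decide (
  (∀ w ∈ P, ∀ w' ∈ P, p2_par (w &&& w') = true) →
  (∀ u ∈ List.range 32, ∀ u' ∈ List.range 32, (∀ w ∈ P, p2_par (u &&& w) = true) →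
    (∀ w ∈ P, p2_par (u' &&& w) = true) → u ∉ P → u' ∉ P → u ^^^ u' ∈ P) →
  p2_ex (fun x0 x1 x2 x3 _ =>
      p2_eqv P [0, p2_m2 x0 x1, p2_m2 x2 x3, p2_m4 x0 x1 x2 x3]) = true)


/-- the check for `code_F2` -/
def p2_F2 (P : List ℕ) : Bool := decide (∀ T ∈ List.range 32,
  (∀ w ∈ P, w &&& T = 0 → p2_par w = true) →
  (∀ w ∈ P, ∀ w' ∈ P, w &&& T ≠ 0 → w' &&& T ≠ 0 → w &&& T = w' &&& T) →
  (∀ w ∈ P, ∀ w' ∈ P, p2_par (w &&& w' &&& T) = true) →
  ((∀ w ∈ P, w &&& T = 0) → ∃ w ∈ P, ∃ w' ∈ P, p2_par (w &&& w') = false) →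
  (∀ w ∈ P, ∀ w1 ∈ P, ∀ w2 ∈ P, w &&& T ≠ 0 → w1 &&& T = 0 → w2 &&& T = 0 →
    p2_par (w1 &&& w2) = true) →
  (∀ v ∈ List.range 32, (∀ w ∈ P, p2_par (v &&& w) = true) → v &&& (31 ^^^ T) ∈ P) →
  p2_ex (fun x0 x1 x2 x3 x4 =>
    (decide (T = 31) && p2_eqv P [0, p2_m2 x0 x1]) ||
    (decide (T = 31) && p2_eqv P [0, p2_m4 x0 x1 x2 x3]) ||
    (decide (T = p2_m3 x2 x3 x4) &&
      p2_eqv P [0, p2_m2 x0 x1, p2_m2 x2 x3, p2_m4 x0 x1 x2 x3]) ||
    (decide (T = p2_m3 x2 x3 x4) &&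
      p2_eqv P [0, p2_m2 x0 x1, p2_m3 x0 x2 x3, p2_m3 x1 x2 x3]) ||
    (decide (T = 2 ^ (x4 : ℕ)) &&
      decide (∀ w ∈ List.range 32, w ∈ P ↔ w &&& p2_m4 x0 x1 x2 x3 = w ∧ p2_par w = true))) = true)

theorem p2_ok : p2_search (fun P => p2_FQ P && (p2_F0 P && p2_F2 P)) 31 1 [0] [] = true := by
  decide +kernel

theorem p2_eqv_iff {P L : List ℕ} (h : p2_eqv P L = true) (w : Finset (Fin 5)) :
    p2_enc w ∈ P ↔ p2_enc w ∈ L := by
  rw [p2_eqv, decide_eq_true_eq] at h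
  exact h _ (List.mem_range.2 (p2_enc_lt w))

/-- Row [RH-P2]: family `F_Q`.

Proof.  `|T|` is even: `T` is orthogonal to `C` (all words have even cardinality by `h2` with
`w = w'`), so `T ∈ C` by `h3`, so `|T|` is even.  `|T| = 0`: `C = {∅}`.  `|T| = 2`:
`C = {∅,T}` (words have even cardinality).  `|T| = 4`: if there were no word with 2 elements,
`C = {∅,T}`, then any subset `{a,b}` of `T` is orthogonal to `C`, so in `C`, contradiction.  Let
`{a,b} ∈ C`, then `{c,d} = T ∖ {a,b} ∈ C`; other 2-element words meet `{a,b}` in one element. -/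
theorem code_FQ {C : Set (Finset (Fin 5))} {T : Finset (Fin 5)} (h0 : ∅ ∈ C)
    (ha : ∀ w ∈ C, ∀ w' ∈ C, symmDiff w w' ∈ C) (h1 : ∀ w ∈ C, w ⊆ T)
    (h2 : ∀ w ∈ C, ∀ w' ∈ C, Even (w ∩ w').card)
    (h3 : ∀ u, u ⊆ T → (∀ w ∈ C, Even (u ∩ w).card) → u ∈ C) :
    ∃ σ : Equiv.Perm (Fin 5),
      (T = ∅ ∧ C = {∅}) ∨ (T = {σ 0, σ 1} ∧ C = {∅, {σ 0, σ 1}}) ∨
      (T = {σ 0, σ 1, σ 2, σ 3} ∧
        C = {∅, {σ 0, σ 1}, {σ 2, σ 3}, {σ 0, σ 1, σ 2, σ 3}}) := by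
  obtain ⟨R, hR, hC, hm⟩ := p2_classify h0 ha _ p2_ok
  simp only [Bool.and_eq_true] at hR
  have hR1 := hR.1
  rw [p2_FQ, decide_eq_true_eq] at hR1
  have hex := hR1 (p2_enc T) (List.mem_range.2 (p2_enc_lt T))
    (by
      intro w hw
      obtain ⟨w', hw', rfl⟩ := hm w hw
      exact (p2_sub _ _).1 (h1 w' hw'))
    (by
      intro w hw w' hw'
      obtain ⟨v, hv, rfl⟩ := hm w hw
      obtain ⟨v', hv', rfl⟩ := hm w' hw'
      rw [← p2_enc_inter, ← p2_even]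
      exact h2 v hv v' hv')
    (by
      intro u hu huT hev
      have hu' := (p2_enc_dec u (List.mem_range.1 hu)).symm
      rw [hu'] at huT ⊢
      rw [← hC]
      refine h3 _ ((p2_sub _ _).2 huT) fun w hw => ?_
      rw [p2_even, p2_enc_inter, ← hu']
      exact hev _ ((hC w).1 hw))
  obtain ⟨σ, hσ⟩ := p2_ex_iff hex
  simp only [Bool.or_eq_true, Bool.and_eq_true, decide_eq_true_eq] at hσ
  refine ⟨σ, ?_⟩
  rcases hσ with (⟨e1, e2⟩ | ⟨e1, e2⟩) | ⟨e1, e2⟩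
  · left
    refine ⟨by rw [← p2_enc_inj, p2_enc_empty]; exact e1, ?_⟩
    ext w
    rw [hC, p2_eqv_iff e2 w]
    simp [← p2_enc_empty, p2_enc_inj]
  · right; left
    refine ⟨by rw [← p2_enc_inj, p2_enc2]; exact e1, ?_⟩
    ext w
    rw [hC, p2_eqv_iff e2 w]
    simp [← p2_enc_empty, ← p2_enc2, p2_enc_inj]
  · right; right
    refine ⟨by rw [← p2_enc_inj, p2_enc4]; exact e1, ?_⟩
    ext w
    rw [hC, p2_eqv_iff e2 w]
    simp [← p2_enc_empty, ← p2_enc2, ← p2_enc4, p2_enc_inj]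

/-- Row [RH-P2]: family `F_0`.

Proof.  All words are even.  `C ≠ {∅}`: otherwise `u = {0}`, `u' = {1}` contradict `h3`.
`C = {∅,w}`: `|w| = 2`: `u = {c}`, `u' = {d}` outside `w`; `|w| = 4`, `w = {a,b,c,d}`: `u = {e}`,
`u' = {a,b}`.  So there are two different nonempty words; cardinalities 4, 4 is impossible
(intersection 3), 2, 4: the smaller is contained in the larger, and the difference is a word; so
there are disjoint words `{a,b}`, `{c,d}`; a further word meets both in an even number of elements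
and does not contain the fifth element (even cardinality). -/
theorem code_F0 {C : Set (Finset (Fin 5))} (h0 : ∅ ∈ C)
    (ha : ∀ w ∈ C, ∀ w' ∈ C, symmDiff w w' ∈ C)
    (h2 : ∀ w ∈ C, ∀ w' ∈ C, Even (w ∩ w').card)
    (h3 : ∀ u u', (∀ w ∈ C, Even (u ∩ w).card) → (∀ w ∈ C, Even (u' ∩ w).card) → u ∉ C →
      u' ∉ C → symmDiff u u' ∈ C) :
    ∃ σ : Equiv.Perm (Fin 5),
      C = {∅, {σ 0, σ 1}, {σ 2, σ 3}, {σ 0, σ 1, σ 2, σ 3}} := by
  obtain ⟨R, hR, hC, hm⟩ := p2_classify h0 ha _ p2_ok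
  simp only [Bool.and_eq_true] at hR
  have hR1 := hR.2.1
  rw [p2_F0, decide_eq_true_eq] at hR1
  have hex := hR1
    (by
      intro w hw w' hw'
      obtain ⟨v, hv, rfl⟩ := hm w hw
      obtain ⟨v', hv', rfl⟩ := hm w' hw'
      rw [← p2_enc_inter, ← p2_even]
      exact h2 v hv v' hv')
    (by
      intro u hu u' hu' hev hev' hn hn'
      have e := (p2_enc_dec u (List.mem_range.1 hu)).symm
      have e' := (p2_enc_dec u' (List.mem_range.1 hu')).symm
      have key := h3 (p2_dec u) (p2_dec u')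
        (fun w hw => by
          rw [p2_even, p2_enc_inter, ← e]
          exact hev _ ((hC w).1 hw))
        (fun w hw => by
          rw [p2_even, p2_enc_inter, ← e']
          exact hev' _ ((hC w).1 hw))
        (fun h => hn (by rw [e]; exact (hC _).1 h))
        (fun h => hn' (by rw [e']; exact (hC _).1 h))
      rw [← p2_dec_xor, hC, p2_enc_dec _ (Nat.xor_lt_two_pow (n := 5) (List.mem_range.1 hu)
        (List.mem_range.1 hu'))] at key
      exact key)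
  obtain ⟨σ, hσ⟩ := p2_ex_iff hex
  refine ⟨σ, ?_⟩
  ext w
  rw [hC, p2_eqv_iff hσ w]
  simp [← p2_enc_empty, ← p2_enc2, ← p2_enc4, p2_enc_inj]

/-- Row [RH-P2]: family `F_2`.

Proof.  Let `S = Tᶜ`, `C₀ = {w ∈ C : w ⊆ S}`.
Case A: `C₀ = C`.  By `h5` for `v ⊆ S`: every subset of `S` orthogonal to `C` is in `C`; `S` itself is
(words are even by `h2`), so `S ∈ C` and `|S|` is even.  By `h6` there are `w, w' ∈ C` with
`|w ∩ w'|` odd; so `|S| = 4` (in a set with 2 elements the even subsets meet evenly), `w`, `w'` have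
2 elements and one common element; `w, w', S` generate all even subsets of `S`: the last case,
`T = {σ 4}`.
Case B: there is `w ∈ C` with `t = w ∩ T ≠ ∅`; `|t|` is even by `h1`, so `|t| = 2` or `4`.  By `h3`
every word meets `T` in `∅` or `t`.  By `h4` the words in `C₀` meet evenly.  By `h5`, if `u ⊆ S` is
orthogonal to `C₀`, then `u ∈ C₀`: (the functional `w ↦ |u ∩ w| mod 2` on `C` vanishes on `C₀`; if
it is not 0 on `C`, then it is 1 exactly on the words meeting `T` in `t`, and for `i ∈ t` the set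
`v = u ∪ {i}` is orthogonal to `C`; `v ∖ T = u ∈ C`.)  So `C₀` is its own orthogonal complement
in `S` and `|S|` is even: as in `code_FQ`; `|S| ≤ 3`, so `S = ∅` or `|S| = 2`, `C₀ = {∅,S}`.
`S = ∅`: `C = {∅,t}`: first two cases.  `|S| = 2`: `|T| = 3`, `|t| = 2`,
`C = {∅, S, w, w + S}` with `w = t` or `w = t ∪ {i}`, `i ∈ S` (if `w = t ∪ S` replace it by
`w + S`). -/
theorem code_F2 {C : Set (Finset (Fin 5))} {T : Finset (Fin 5)} (h0 : ∅ ∈ C)
    (ha : ∀ w ∈ C, ∀ w' ∈ C, symmDiff w w' ∈ C)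
    (h1 : ∀ w ∈ C, ∀ w' ∈ C, Even (w ∩ w' ∩ T).card)
    (h2 : ∀ w ∈ C, w ∩ T = ∅ → Even w.card)
    (h3 : ∀ w ∈ C, ∀ w' ∈ C, w ∩ T ≠ ∅ → w' ∩ T ≠ ∅ → w ∩ T = w' ∩ T)
    (h4 : ∀ w ∈ C, ∀ w1 ∈ C, ∀ w2 ∈ C, w ∩ T ≠ ∅ → w1 ∩ T = ∅ → w2 ∩ T = ∅ →
      Even (w1 ∩ w2).card)
    (h5 : ∀ v, (∀ w ∈ C, Even (v ∩ w).card) → v \ T ∈ C)
    (h6 : (∀ w ∈ C, w ∩ T = ∅) → ∃ w ∈ C, ∃ w' ∈ C, Odd (w ∩ w').card) :
    ∃ σ : Equiv.Perm (Fin 5),
      (T = Finset.univ ∧ C = {∅, {σ 0, σ 1}}) ∨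
      (T = Finset.univ ∧ C = {∅, {σ 0, σ 1, σ 2, σ 3}}) ∨
      (T = {σ 2, σ 3, σ 4} ∧
        C = {∅, {σ 0, σ 1}, {σ 2, σ 3}, {σ 0, σ 1, σ 2, σ 3}}) ∨
      (T = {σ 2, σ 3, σ 4} ∧
        C = {∅, {σ 0, σ 1}, {σ 0, σ 2, σ 3}, {σ 1, σ 2, σ 3}}) ∨
      (T = {σ 4} ∧ ∀ w, w ∈ C ↔ w ⊆ {σ 0, σ 1, σ 2, σ 3} ∧ Even w.card) := by
  obtain ⟨R, hR, hC, hm⟩ := p2_classify h0 ha _ p2_ok
  simp only [Bool.and_eq_true] at hR
  have hR1 := hR.2.2
  rw [p2_F2, decide_eq_true_eq] at hR1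
  have hz : ∀ w : Finset (Fin 5), p2_enc w &&& p2_enc T = 0 ↔ w ∩ T = ∅ := fun w => by
    rw [← p2_enc_inter, ← p2_enc_empty, p2_enc_inj]
  have hex := hR1 (p2_enc T) (List.mem_range.2 (p2_enc_lt T))
    (by
      intro w hw hwT
      obtain ⟨v, hv, rfl⟩ := hm w hw
      rw [← p2_even]
      exact h2 v hv ((hz v).1 hwT))
    (by
      intro w hw w' hw' hwT hwT'
      obtain ⟨v, hv, rfl⟩ := hm w hw
      obtain ⟨v', hv', rfl⟩ := hm w' hw'
      rw [← p2_enc_inter, ← p2_enc_inter]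
      rw [h3 v hv v' hv' (fun h => hwT ((hz v).2 h)) (fun h => hwT' ((hz v').2 h))])
    (by
      intro w hw w' hw'
      obtain ⟨v, hv, rfl⟩ := hm w hw
      obtain ⟨v', hv', rfl⟩ := hm w' hw'
      rw [← p2_enc_inter, ← p2_enc_inter, ← p2_even]
      exact h1 v hv v' hv')
    (by
      intro h
      obtain ⟨w, hw, w', hw', ho⟩ := h6 (fun w hw => (hz w).1 (h _ ((hC w).1 hw)))
      refine ⟨_, (hC w).1 hw, _, (hC w').1 hw', ?_⟩
      rw [← Nat.not_even_iff_odd, p2_even, p2_enc_inter] at ho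
      simpa using ho)
    (by
      intro w hw w1 hw1 w2 hw2 hwT hwT1 hwT2
      obtain ⟨v, hv, rfl⟩ := hm w hw
      obtain ⟨v1, hv1, rfl⟩ := hm w1 hw1
      obtain ⟨v2, hv2, rfl⟩ := hm w2 hw2
      rw [← p2_enc_inter, ← p2_even]
      exact h4 v hv v1 hv1 v2 hv2 (fun h => hwT ((hz v).2 h)) ((hz v1).1 hwT1) ((hz v2).1 hwT2))
    (by
      intro v hv hev
      have e := (p2_enc_dec v (List.mem_range.1 hv)).symm
      have key := h5 (p2_dec v) (fun w hw => by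
        rw [p2_even, p2_enc_inter, ← e]
        exact hev _ ((hC w).1 hw))
      rw [hC, p2_enc_sdiff, ← e] at key
      exact key)
  obtain ⟨σ, hσ⟩ := p2_ex_iff hex
  simp only [Bool.or_eq_true, Bool.and_eq_true, decide_eq_true_eq] at hσ
  refine ⟨σ, ?_⟩
  rcases hσ with (((⟨e1, e2⟩ | ⟨e1, e2⟩) | ⟨e1, e2⟩) | ⟨e1, e2⟩) | ⟨e1, e2⟩
  · left
    refine ⟨by rw [← p2_enc_inj, p2_enc_univ]; exact e1, ?_⟩
    ext w
    rw [hC, p2_eqv_iff e2 w]
    simp [← p2_enc_empty, ← p2_enc2, p2_enc_inj]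
  · right; left
    refine ⟨by rw [← p2_enc_inj, p2_enc_univ]; exact e1, ?_⟩
    ext w
    rw [hC, p2_eqv_iff e2 w]
    simp [← p2_enc_empty, ← p2_enc4, p2_enc_inj]
  · right; right; left
    refine ⟨by rw [← p2_enc_inj, p2_enc3]; exact e1, ?_⟩
    ext w
    rw [hC, p2_eqv_iff e2 w]
    simp [← p2_enc_empty, ← p2_enc2, ← p2_enc4, p2_enc_inj]
  · right; right; right; left
    refine ⟨by rw [← p2_enc_inj, p2_enc3]; exact e1, ?_⟩
    ext w
    rw [hC, p2_eqv_iff e2 w]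
    simp [← p2_enc_empty, ← p2_enc2, ← p2_enc3, p2_enc_inj]
  · right; right; right; right
    refine ⟨by rw [← p2_enc_inj, p2_enc_singleton]; exact e1, fun w => ?_⟩
    rw [hC, e2 _ (List.mem_range.2 (p2_enc_lt w)), p2_sub, p2_enc4, p2_even]

end RH6
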