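import Pool.Agent.RH6.P1
import Pool.Agent.RH6.P2
import Pool.Agent.RH6.N5
import Pool.Agent.RH6.B1b
import Pool.Agent.RH6.C3b

namespace RH6

variable {V : Type*} [AddCommGroup V] [Module ℚ V] [FiniteDimensional ℚ V]

/-- the number of frame roots of even norm -/
def FrEv (B : LinearMap.BilinForm ℚ V) (K : AddSubgroup V) (t : ℕ) : Prop :=
  ∃ r : Fin 5 → V, (∀ i, Rt B K (r i)) ∧ (∀ i j, i ≠ j → B (r i) (r j) = 0) ∧
    ∃ T : Finset (Fin 5), T.card = t ∧ ∀ i, i ∈ T ↔ ∃ z : ℤ, B (r i) (r i) = 2 * z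

/-- parity of a sum of integers -/
theorem p3_even_sum (s : Finset (Fin 5)) (a : Fin 5 → ℤ) :
    Even (∑ i ∈ s, a i) ↔ Even (s.filter (fun i => Odd (a i))).card := by
  classical
  induction s using Finset.induction_on with
  | empty => simp
  | insert i s hi ih =>
    rw [Finset.sum_insert hi, Finset.filter_insert]
    by_cases h : Odd (a i)
    · rw [if_pos h, Finset.card_insert_of_notMem (by simp [hi]), Int.even_add, Nat.even_add_one,
        ih]
      have : ¬ Even (a i) := Int.not_even_iff_odd.2 h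
      tauto
    · rw [if_neg h, Int.even_add, ih]
      have : Even (a i) := Int.not_odd_iff_even.1 h
      tauto

/-- `2K ≤ Rad B K 2` -/
theorem p3_mulL_le {B : LinearMap.BilinForm ℚ V} {K : AddSubgroup V} (hI : Integ B K) :
    mulL 2 K ≤ Rad B K 2 := by
  rintro x ⟨y, hy, rfl⟩
  refine ⟨K.zsmul_mem hy _, fun w hw => ?_⟩
  obtain ⟨z, hz⟩ := hI y hy w hw
  refine ⟨z, ?_⟩
  rw [← hz]
  simp [two_smul, two_mul]

theorem p3_rad_le {B : LinearMap.BilinForm ℚ V} {K : AddSubgroup V} : Rad B K 2 ≤ K :=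
  fun _ hx => hx.1

/-- the index of `2K` in the radical -/
theorem p3_idx {B : LinearMap.BilinForm ℚ V} {K : AddSubgroup V} (hK : K5 B K)
    (hI : Integ B K) : (mulL 2 K).relIndex (Rad B K 2) * (Rad B K 2).relIndex K = 32 := by
  rw [AddSubgroup.relIndex_mul_relIndex _ _ _ (p3_mulL_le hI) p3_rad_le,
    relIndex_mulL hK.lat 2 (by norm_num), hK.dim]
  norm_num

/-- for `F_Q` the radical is `2K` -/
theorem p3_rad_FQ {B : LinearMap.BilinForm ℚ V} {K : AddSubgroup V} (hF : FQ B K) :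
    Rad B K 2 ≤ mulL 2 K := by
  have h := p3_idx hF.toK5 hF.int
  rw [hF.idx] at h
  rw [← AddSubgroup.relIndex_eq_one]
  omega

/-- for `F_0` the index is two -/
theorem p3_rad_F0 {B : LinearMap.BilinForm ℚ V} {K : AddSubgroup V} (hF : F0 B K) {a b : V}
    (ha : a ∈ Rad B K 2) (hb : b ∈ Rad B K 2) (ha' : a ∉ mulL 2 K) (hb' : b ∉ mulL 2 K) :
    a + b ∈ mulL 2 K := by
  have h := p3_idx hF.toK5 hF.even.1
  rw [hF.idx] at h
  have h2 : ((mulL 2 K).addSubgroupOf (Rad B K 2)).index = 2 := by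
    change (mulL 2 K).relIndex (Rad B K 2) = 2
    omega
  have h3 := AddSubgroup.add_mem_iff_of_index_two h2 (a := ⟨a, ha⟩) (b := ⟨b, hb⟩)
  simp only [AddSubgroup.mem_addSubgroupOf, AddSubgroup.coe_add] at h3
  exact h3.2 ⟨fun h => absurd h ha', fun h => absurd h hb'⟩

/-- the sum of the frame roots over a set of positions -/
theorem p3_sum_mem {B : LinearMap.BilinForm ℚ V} {K : AddSubgroup V} {r : Fin 5 → V}
    {ψ : V ≃ₗ[ℚ] V5} (h : FC B K r ψ) (u : Finset (Fin 5)) : ∑ i ∈ u, r i ∈ K :=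
  K.sum_mem fun i _ => (h.rt i).1

theorem p3_sum_psi {B : LinearMap.BilinForm ℚ V} {K : AddSubgroup V} {r : Fin 5 → V}
    {ψ : V ≃ₗ[ℚ] V5} (h : FC B K r ψ) (u : Finset (Fin 5)) (j : Fin 5) :
    ψ (∑ i ∈ u, r i) j = if j ∈ u then 2 else 0 := by
  classical
  rw [map_sum, Finset.sum_apply]
  simp_rw [h.psr]
  rw [Finset.sum_congr rfl (g := fun i => if j = i then (2 : ℚ) else 0)
    (fun i _ => by rw [Pi.single_apply])]
  rw [Finset.sum_ite_eq]

/-- words in terms of integral coordinates -/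
theorem p3_word {y : V5} {z : Fin 5 → ℤ} (hz : ∀ i, y i = z i) (i : Fin 5) :
    i ∈ word y ↔ Odd (z i) := by
  classical
  simp only [word, Finset.mem_filter, Finset.mem_univ, true_and, hz]
  constructor
  · rintro ⟨t, ht⟩
    exact ⟨t, by exact_mod_cast ht⟩
  · rintro ⟨t, ht⟩
    exact ⟨t, by rw [ht]; push_cast; ring⟩

/-- half of a sum of frame roots -/
theorem p3_half {B : LinearMap.BilinForm ℚ V} {K : AddSubgroup V} {r : Fin 5 → V}
    {ψ : V ≃ₗ[ℚ] V5} (h : FC B K r ψ) (u : Finset (Fin 5)) :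
    ∑ i ∈ u, r i ∈ mulL 2 K ↔ u ∈ Code ψ K := by
  classical
  have hψ : ∀ y : V, ∑ i ∈ u, r i = (2 : ℤ) • y → ∀ j, ψ y j = if j ∈ u then 1 else 0 := by
    intro y hy j
    have h1 := p3_sum_psi h u j
    rw [hy, map_zsmul, Pi.smul_apply, zsmul_eq_mul] at h1
    push_cast at h1
    split_ifs with hj
    · rw [if_pos hj] at h1
      linarith
    · rw [if_neg hj] at h1
      linarith
  rw [code_iff h u]
  constructor
  · rintro ⟨y, hy, he⟩
    have h2 : ψ.symm (fun i => if i ∈ u then 1 else 0) = y := by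
      rw [LinearEquiv.symm_apply_eq]
      funext j
      rw [hψ y (by exact_mod_cast he) j]
    rw [h2]
    exact hy
  · intro hy
    refine ⟨_, hy, ?_⟩
    apply ψ.injective
    funext j
    rw [p3_sum_psi h u j, map_zsmul, Pi.smul_apply, LinearEquiv.apply_symm_apply, zsmul_eq_mul]
    push_cast
    split_ifs <;> norm_num

/-- products with a sum of frame roots -/
theorem p3_sum_form {B : LinearMap.BilinForm ℚ V} {K : AddSubgroup V} {r : Fin 5 → V}
    {ψ : V ≃ₗ[ℚ] V5} (h : FC B K r ψ) (u : Finset (Fin 5)) (x : V) :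
    B (∑ i ∈ u, r i) x = 1 / 2 * ∑ i ∈ u, B (r i) (r i) * ψ x i := by
  classical
  rw [h.form]
  have : ∀ i, B (r i) (r i) * ψ (∑ i ∈ u, r i) i * ψ x i =
      if i ∈ u then 2 * (B (r i) (r i) * ψ x i) else 0 := by
    intro i
    rw [p3_sum_psi h u i]
    split_ifs <;> ring
  rw [Finset.sum_congr rfl (fun i _ => this i), Finset.sum_ite_mem, Finset.univ_inter,
    ← Finset.mul_sum]
  ring

/-- integral coordinates of an element of the lattice -/
theorem p3_ints {B : LinearMap.BilinForm ℚ V} {K : AddSubgroup V} {r : Fin 5 → V}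
    {ψ : V ≃ₗ[ℚ] V5} (h : FC B K r ψ) {x : V} (hx : x ∈ K) : ∃ z : Fin 5 → ℤ, ∀ i, ψ x i = z i := by
  choose z hz using h.int x hx
  exact ⟨z, hz⟩

/-- norms of the frame roots -/
theorem p3_mu_FQ {B : LinearMap.BilinForm ℚ V} {K : AddSubgroup V} (hF : FQ B K)
    {r : Fin 5 → V} {ψ : V ≃ₗ[ℚ] V5} (h : FC B K r ψ) {T : Finset (Fin 5)}
    (hT : ∀ i, i ∈ T ↔ ∃ z : ℤ, B (r i) (r i) = 2 * z) :
    ∃ μ : Fin 5 → ℕ, (∀ i, Odd (μ i)) ∧ (∀ i, Squarefree (μ i)) ∧
      (∀ i ∈ T, B (r i) (r i) = 2 * μ i) ∧ ∀ i, i ∉ T → B (r i) (r i) = μ i := by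
  have h1 : ∀ i, ∃ μ : ℕ, Odd μ ∧ Squarefree μ ∧ (i ∈ T → B (r i) (r i) = 2 * μ) ∧
      (i ∉ T → B (r i) (r i) = μ) := by
    intro i
    obtain ⟨μ, h1, h2, h3⟩ := (root_norm (h.rt i)).2.2 hF
    refine ⟨μ, h1, h2, fun hi => ?_, fun hi => ?_⟩
    · rcases h3 with h3 | h3
      · exfalso
        obtain ⟨z, hz⟩ := (hT i).1 hi
        rw [h3] at hz
        have hz' : (μ : ℤ) = 2 * z := by exact_mod_cast hz
        obtain ⟨k, hk⟩ := h1
        omega
      · exact h3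
    · rcases h3 with h3 | h3
      · exact h3
      · exact absurd ((hT i).2 ⟨μ, by rw [h3]; norm_num⟩) hi
  choose μ h2 h3 h4 h5 using h1
  exact ⟨μ, h2, h3, h4, h5⟩

/-- the support of a product -/
theorem p3_filter {x x' : V} {ψ : V ≃ₗ[ℚ] V5} {z z' : Fin 5 → ℤ} (hz : ∀ i, ψ x i = z i)
    (hz' : ∀ i, ψ x' i = z' i) {μ : Fin 5 → ℕ} (hμ : ∀ i, Odd (μ i)) (s : Finset (Fin 5)) :
    s.filter (fun i => Odd ((μ i : ℤ) * z i * z' i)) = s ∩ (word (ψ x) ∩ word (ψ x')) := by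
  ext i
  rw [Finset.mem_filter, Finset.mem_inter, Finset.mem_inter, p3_word hz, p3_word hz',
    Int.odd_mul, Int.odd_mul]
  have : Odd ((μ i : ℕ) : ℤ) := by exact_mod_cast hμ i
  tauto

/-- off `T` coordinates are even -/
theorem p3_off {B : LinearMap.BilinForm ℚ V} {K : AddSubgroup V} (hF : FQ B K)
    {r : Fin 5 → V} {ψ : V ≃ₗ[ℚ] V5} (h : FC B K r ψ) {i : Fin 5} {m : ℕ} (hm : Odd m)
    (hn : B (r i) (r i) = m) {x : V} (hx : x ∈ K) {z : ℤ} (hz : ψ x i = z) : Even z := by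
  obtain ⟨t, ht⟩ := hF.int x hx (r i) (h.rt i).1
  have h1 := h.psi x i
  have hm0 : (m : ℚ) ≠ 0 := by
    have : m ≠ 0 := by rintro rfl; simp at hm
    exact_mod_cast this
  rw [hz, hn, ht, eq_div_iff hm0] at h1
  have h2 : z * (m : ℤ) = 2 * t := by exact_mod_cast h1
  have h3 : Even (z * (m : ℤ)) := ⟨t, by rw [h2]; ring⟩
  rw [Int.even_mul] at h3
  rcases h3 with h3 | h3
  · exact h3
  · exact absurd h3 (Int.not_even_iff_odd.2 (by exact_mod_cast hm))

/-- the sum of the terms at even positions -/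
theorem p3_form_FQ {B : LinearMap.BilinForm ℚ V} {K : AddSubgroup V} (hF : FQ B K)
    {r : Fin 5 → V} {ψ : V ≃ₗ[ℚ] V5} (h : FC B K r ψ) {T : Finset (Fin 5)} {μ : Fin 5 → ℕ}
    (hμ : ∀ i, Odd (μ i)) (hT : ∀ i ∈ T, B (r i) (r i) = 2 * μ i)
    (hT' : ∀ i, i ∉ T → B (r i) (r i) = μ i) {x x' : V} (hx : x ∈ K) (hx' : x' ∈ K)
    {z z' : Fin 5 → ℤ} (hz : ∀ i, ψ x i = z i) (hz' : ∀ i, ψ x' i = z' i) :
    Even (∑ i ∈ T, (μ i : ℤ) * z i * z' i) := by
  classical
  obtain ⟨b, hb⟩ := hF.int x hx x' hx'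
  have h1 : ∀ i, i ∉ T → Even (z i) := fun i hi => p3_off hF h (hμ i) (hT' i hi) hx (hz i)
  have h1' : ∀ i, i ∉ T → Even (z' i) := fun i hi => p3_off hF h (hμ i) (hT' i hi) hx' (hz' i)
  have h2 : ∃ c : ℤ, ∑ i ∈ Tᶜ, (μ i : ℤ) * z i * z' i = 4 * c := by
    have : (4 : ℤ) ∣ ∑ i ∈ Tᶜ, (μ i : ℤ) * z i * z' i := by
      refine Finset.dvd_sum fun i hi => ?_
      obtain ⟨a, ha⟩ := h1 i (Finset.mem_compl.1 hi)
      obtain ⟨a', ha'⟩ := h1' i (Finset.mem_compl.1 hi)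
      exact ⟨(μ i : ℤ) * a * a', by rw [ha, ha']; ring⟩
    exact this
  obtain ⟨c, hc⟩ := h2
  have h3 := h.form x x'
  rw [hb, ← Finset.sum_add_sum_compl T] at h3
  have e1 : ∑ i ∈ T, B (r i) (r i) * ψ x i * ψ x' i =
      2 * ((∑ i ∈ T, (μ i : ℤ) * z i * z' i : ℤ) : ℚ) := by
    push_cast
    rw [Finset.mul_sum]
    refine Finset.sum_congr rfl fun i hi => ?_
    rw [hT i hi, hz, hz']
    ring
  have e2 : ∑ i ∈ Tᶜ, B (r i) (r i) * ψ x i * ψ x' i =
      ((∑ i ∈ Tᶜ, (μ i : ℤ) * z i * z' i : ℤ) : ℚ) := by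
    push_cast
    refine Finset.sum_congr rfl fun i hi => ?_
    rw [hT' i (Finset.mem_compl.1 hi), hz, hz']
  rw [e1, e2, hc] at h3
  refine ⟨b - c, ?_⟩
  have h4 : ((∑ i ∈ T, (μ i : ℤ) * z i * z' i : ℤ) : ℚ) = ((b - c + (b - c) : ℤ) : ℚ) := by
    push_cast at h3 ⊢
    linarith
  exact_mod_cast h4

/-- Row [RH-P3]: the code of a frame in the family `F_Q`.  `T` = positions of the roots of even norm.

Proof.  `(r_i,r_i) = μ_i` or `2μ_i`, `μ_i` odd squarefree (`root_norm`).  For `x ∈ K` and `i ∉ T`: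
`ψ x i · μ_i = 2(x,r_i)` with `(x,r_i) ∈ ℤ`, so `ψ x i` is even: words are contained in `T`.  For
`x, x' ∈ K`: `(x,x') = ½ ∑_{T} μ_i y_i y'_i + ∑_{T^c} μ_i (y_i/2)(y'_i/2)`, so
`∑_T μ_i y_i y'_i` is even, i.e. `|w ∩ w'|` is even.  If `u ⊆ T` is orthogonal to the code, then
`x₀ = ∑_{u} r_i` has `(x₀,x') = ∑_u μ_i y'_i ≡ |u ∩ w'| ≡ 0 mod 2` for all `x' ∈ K`, so
`x₀ ∈ Rad B K 2 = 2K` (`[K:Rad] = 32 = [K:2K]`), and `x₀/2 ∈ K` has the word `u`.
Then `code_FQ`. -/
theorem code_of_FQ {B : LinearMap.BilinForm ℚ V} {K : AddSubgroup V} (hF : FQ B K)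
    {r : Fin 5 → V} {ψ : V ≃ₗ[ℚ] V5} (h : FC B K r ψ) {T : Finset (Fin 5)}
    (hT : ∀ i, i ∈ T ↔ ∃ z : ℤ, B (r i) (r i) = 2 * z) :
    ∃ σ : Equiv.Perm (Fin 5),
      (T = ∅ ∧ Code ψ K = {∅}) ∨ (T = {σ 0, σ 1} ∧ Code ψ K = {∅, {σ 0, σ 1}}) ∨
      (T = {σ 0, σ 1, σ 2, σ 3} ∧
        Code ψ K = {∅, {σ 0, σ 1}, {σ 2, σ 3}, {σ 0, σ 1, σ 2, σ 3}}) := by
  classical
  obtain ⟨μ, hμ, -, hT1, hT2⟩ := p3_mu_FQ hF h hT
  have hsub : ∀ w ∈ Code ψ K, w ⊆ T := by
    rintro w ⟨x, hx, rfl⟩ i hi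
    obtain ⟨z, hz⟩ := p3_ints h hx
    by_contra hiT
    have := p3_off hF h (hμ i) (hT2 i hiT) hx (hz i)
    exact absurd ((p3_word hz i).1 hi) (Int.not_odd_iff_even.2 this)
  refine code_FQ (code_zero h) (fun w hw w' hw' => code_add h hw hw') hsub ?_ ?_
  · rintro w hw w' hw'
    have hwT := hsub w hw
    obtain ⟨x, hx, rfl⟩ := hw
    obtain ⟨x', hx', rfl⟩ := hw'
    obtain ⟨z, hz⟩ := p3_ints h hx
    obtain ⟨z', hz'⟩ := p3_ints h hx'
    have h1 := p3_form_FQ hF h hμ hT1 hT2 hx hx' hz hz'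
    rw [p3_even_sum, p3_filter hz hz' hμ] at h1
    rwa [Finset.inter_eq_right.2 (Finset.inter_subset_left.trans hwT)] at h1
  · intro u huT hu
    rw [← p3_half h]
    apply p3_rad_FQ hF
    refine ⟨p3_sum_mem h u, fun x hx => ?_⟩
    obtain ⟨z, hz⟩ := p3_ints h hx
    have h1 : B (∑ i ∈ u, r i) x = ((∑ i ∈ u, (μ i : ℤ) * z i * 1 : ℤ) : ℚ) := by
      rw [p3_sum_form h]
      push_cast
      rw [Finset.mul_sum]
      refine Finset.sum_congr rfl fun i hi => ?_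
      rw [hT1 i (huT hi), hz]
      ring
    have h2 : Even (∑ i ∈ u, (μ i : ℤ) * z i * 1) := by
      rw [p3_even_sum]
      have e : u.filter (fun i => Odd ((μ i : ℤ) * z i * 1)) = u ∩ word (ψ x) := by
        ext i
        rw [Finset.mem_filter, Finset.mem_inter, p3_word hz, mul_one, Int.odd_mul]
        have : Odd ((μ i : ℕ) : ℤ) := by exact_mod_cast hμ i
        tauto
      rw [e]
      exact hu _ ⟨x, hx, rfl⟩
    obtain ⟨c, hc⟩ := h2
    refine ⟨c, ?_⟩
    rw [h1, hc]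
    push_cast
    ring

/-- the word in permuted coordinates -/
theorem p3_word_map {ψ : V ≃ₗ[ℚ] V5} (σ : Equiv.Perm (Fin 5)) {x : V} {y : Fin 5 → ℤ}
    (hy : ∀ i, ψ x (σ i) = y i) :
    word (ψ x) = (Finset.univ.filter (fun i => Odd (y i))).map σ.toEmbedding := by
  ext j
  rw [Finset.mem_map_equiv, Finset.mem_filter, p3_word (z := fun i => y (σ.symm i))]
  · simp
  · intro i
    rw [← hy, Equiv.apply_symm_apply]

theorem p3_mem {B : LinearMap.BilinForm ℚ V} {K : AddSubgroup V} {r : Fin 5 → V}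
    {ψ : V ≃ₗ[ℚ] V5} (h : FC B K r ψ) (σ : Equiv.Perm (Fin 5)) (x : V) :
    x ∈ K ↔ ∃ y : Fin 5 → ℤ, (∀ i, ψ x (σ i) = y i) ∧
      (Finset.univ.filter (fun i => Odd (y i))).map σ.toEmbedding ∈ Code ψ K := by
  constructor
  · intro hx
    obtain ⟨z, hz⟩ := p3_ints h hx
    refine ⟨fun i => z (σ i), fun i => hz _, ?_⟩
    rw [← p3_word_map σ (fun i => hz (σ i))]
    exact ⟨x, hx, rfl⟩
  · rintro ⟨y, hy, hc⟩
    rw [mem_iff_word h (fun i => ⟨y (σ.symm i), by rw [← hy, Equiv.apply_symm_apply]⟩),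
      p3_word_map σ hy]
    exact hc

theorem p3_bits1 : ∀ b : Fin 5 → Bool, (Finset.univ.filter (fun i => b i = true) = ∅) ↔
    (b 0 = false ∧ b 1 = false ∧ b 2 = false ∧ b 3 = false ∧ b 4 = false) := by
  decide +kernel

theorem p3_bits2 : ∀ b : Fin 5 → Bool, (Finset.univ.filter (fun i => b i = true) = ∅ ∨
    Finset.univ.filter (fun i => b i = true) = {0, 1}) ↔
    (b 2 = false ∧ b 3 = false ∧ b 4 = false ∧ b 0 = b 1) := by
  decide +kernel

theorem p3_bits3 : ∀ b : Fin 5 → Bool, (Finset.univ.filter (fun i => b i = true) = ∅ ∨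
    Finset.univ.filter (fun i => b i = true) = {0, 1} ∨
    Finset.univ.filter (fun i => b i = true) = {2, 3} ∨
    Finset.univ.filter (fun i => b i = true) = {0, 1, 2, 3}) ↔
    (b 4 = false ∧ b 0 = b 1 ∧ b 2 = b 3) := by
  decide +kernel

theorem p3_map2 (σ : Equiv.Perm (Fin 5)) (i j : Fin 5) :
    ({i, j} : Finset (Fin 5)).map σ.toEmbedding = {σ i, σ j} := by
  simp [Finset.map_insert]

theorem p3_map4 (σ : Equiv.Perm (Fin 5)) (i j k l : Fin 5) :
    ({i, j, k, l} : Finset (Fin 5)).map σ.toEmbedding = {σ i, σ j, σ k, σ l} := by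
  simp [Finset.map_insert]

theorem p3_par {a b : ℤ} : (decide (Odd a) = decide (Odd b)) ↔ Even (a + b) := by
  rw [decide_eq_decide, Int.even_add, ← Int.not_odd_iff_even, ← Int.not_odd_iff_even]
  tauto

theorem p3_ev {a : ℤ} : decide (Odd a) = false ↔ Even a := by
  rw [decide_eq_false_iff_not, Int.not_odd_iff_even]

/-- trivial code -/
theorem p3_c1 {B : LinearMap.BilinForm ℚ V} {K : AddSubgroup V} {r : Fin 5 → V}
    {ψ : V ≃ₗ[ℚ] V5} (h : FC B K r ψ) (σ : Equiv.Perm (Fin 5)) (hC : Code ψ K = {∅}) (x : V) :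
    x ∈ K ↔ ∃ z : Fin 5 → ℤ, (∀ i, ψ x (σ i) = ((![2, 2, 2, 2, 2] : Fin 5 → ℕ) i : ℚ) * z i) ∧
      ∀ h ∈ HQ1, Even (∑ i, (h i : ℤ) * z i) := by
  rw [p3_mem h σ, hC]
  simp only [Set.mem_singleton_iff, Finset.map_eq_empty]
  constructor
  · rintro ⟨y, hy, hc⟩
    have hc' := (p3_bits1 (fun i => decide (Odd (y i)))).1 (by simpa using hc)
    simp only [p3_ev] at hc'
    obtain ⟨⟨a0, h0⟩, ⟨a1, h1⟩, ⟨a2, h2⟩, ⟨a3, h3⟩, ⟨a4, h4⟩⟩ := hc'
    refine ⟨![a0, a1, a2, a3, a4], fun i => ?_, by simp [HQ1]⟩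
    rw [hy]
    fin_cases i <;> simp [*] <;> ring
  · rintro ⟨z, hz, -⟩
    refine ⟨fun i => 2 * z i, fun i => ?_, ?_⟩
    · rw [hz]
      fin_cases i <;> simp
    · rw [Finset.filter_eq_empty_iff]
      intro i _
      rw [Int.not_odd_iff_even]
      exact even_two_mul _

/-- one pair -/
theorem p3_c2 {B : LinearMap.BilinForm ℚ V} {K : AddSubgroup V} {r : Fin 5 → V}
    {ψ : V ≃ₗ[ℚ] V5} (h : FC B K r ψ) (σ : Equiv.Perm (Fin 5))
    (hC : Code ψ K = {∅, {σ 0, σ 1}}) (x : V) :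
    x ∈ K ↔ ∃ z : Fin 5 → ℤ, (∀ i, ψ x (σ i) = ((![1, 1, 2, 2, 2] : Fin 5 → ℕ) i : ℚ) * z i) ∧
      ∀ h ∈ HQ5, Even (∑ i, (h i : ℤ) * z i) := by
  rw [p3_mem h σ, hC, ← p3_map2 σ 0 1]
  simp only [Set.mem_insert_iff, Set.mem_singleton_iff, Finset.map_eq_empty, Finset.map_inj]
  constructor
  · rintro ⟨y, hy, hc⟩
    have hc' := (p3_bits2 (fun i => decide (Odd (y i)))).1 (by simpa using hc)
    simp only [p3_ev, p3_par] at hc'
    obtain ⟨⟨a2, h2⟩, ⟨a3, h3⟩, ⟨a4, h4⟩, h01⟩ := hc'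
    refine ⟨![y 0, y 1, a2, a3, a4], fun i => ?_, ?_⟩
    · rw [hy]
      fin_cases i <;> simp [*] <;> ring
    · simp [HQ5, Fin.sum_univ_five, h01]
  · rintro ⟨z, hz, hH⟩
    refine ⟨![z 0, z 1, 2 * z 2, 2 * z 3, 2 * z 4], fun i => ?_, ?_⟩
    · rw [hz]
      fin_cases i <;> simp
    · have hE : Even (z 0 + z 1) := by
        have := hH ![1, 1, 0, 0, 0] (by simp [HQ5])
        simpa [Fin.sum_univ_five] using this
      have := (p3_bits2 (fun i => decide (Odd ((![z 0, z 1, 2 * z 2, 2 * z 3, 2 * z 4] :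
        Fin 5 → ℤ) i)))).2 (by
          simp only [p3_ev, p3_par]
          exact ⟨even_two_mul _, even_two_mul _, even_two_mul _, hE⟩)
      simpa using this

/-- two pairs -/
theorem p3_c3 {B : LinearMap.BilinForm ℚ V} {K : AddSubgroup V} {r : Fin 5 → V}
    {ψ : V ≃ₗ[ℚ] V5} (h : FC B K r ψ) (σ : Equiv.Perm (Fin 5))
    (hC : Code ψ K = {∅, {σ 0, σ 1}, {σ 2, σ 3}, {σ 0, σ 1, σ 2, σ 3}}) (x : V) :
    x ∈ K ↔ ∃ z : Fin 5 → ℤ, (∀ i, ψ x (σ i) = ((![1, 1, 1, 1, 2] : Fin 5 → ℕ) i : ℚ) * z i) ∧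
      ∀ h ∈ HQ8, Even (∑ i, (h i : ℤ) * z i) := by
  rw [p3_mem h σ, hC, ← p3_map4 σ 0 1 2 3, ← p3_map2 σ 0 1, ← p3_map2 σ 2 3]
  simp only [Set.mem_insert_iff, Set.mem_singleton_iff, Finset.map_eq_empty, Finset.map_inj]
  constructor
  · rintro ⟨y, hy, hc⟩
    have hc' := (p3_bits3 (fun i => decide (Odd (y i)))).1 (by simpa using hc)
    simp only [p3_ev, p3_par] at hc'
    obtain ⟨⟨a4, h4⟩, h01, h23⟩ := hc'
    refine ⟨![y 0, y 1, y 2, y 3, a4], fun i => ?_, ?_⟩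
    · rw [hy]
      fin_cases i <;> simp [*] <;> ring
    · simp [HQ8, Fin.sum_univ_five, h01, h23]
  · rintro ⟨z, hz, hH⟩
    refine ⟨![z 0, z 1, z 2, z 3, 2 * z 4], fun i => ?_, ?_⟩
    · rw [hz]
      fin_cases i <;> simp
    · have hE : Even (z 0 + z 1) := by
        have := hH ![1, 1, 0, 0, 0] (by simp [HQ8])
        simpa [Fin.sum_univ_five] using this
      have hE' : Even (z 2 + z 3) := by
        have := hH ![0, 0, 1, 1, 0] (by simp [HQ8])
        simpa [Fin.sum_univ_five] using this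
      have := (p3_bits3 (fun i => decide (Odd ((![z 0, z 1, z 2, z 3, 2 * z 4] :
        Fin 5 → ℤ) i)))).2 (by
          simp only [p3_ev, p3_par]
          exact ⟨even_two_mul _, hE, hE'⟩)
      simpa using this

/-- the parameters are admissible -/
theorem p3_MOK {B : LinearMap.BilinForm ℚ V} {K : AddSubgroup V} {A m : Fin 5 → ℕ}
    {H : List (Fin 5 → ℕ)} (hR : Rep A H m B K) (hI : Integ B K) (hL : IsLat K)
    (hb : Big2 B K) (ho : ∀ i, Odd (m i)) (hs : ∀ i, Squarefree (m i)) : MOK m := by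
  refine ⟨ho, hs, fun p hp => ?_⟩
  by_cases hp2 : p = 2
  · rw [Finset.filter_eq_empty_iff.2 (fun i _ => ?_)]
    · simp
    · rw [hp2, ← even_iff_two_dvd, Nat.not_even_iff_odd]
      exact ho i
  · obtain ⟨ψ, hψ, hK⟩ := hR
    obtain ⟨t1, t2, -, -, t5, -, -⟩ := transport ψ hψ hK
    refine big_of (t2.1 hI) (t1.1 hL) (fun q hq hq2 => ?_) hp hp2
    rw [← t5]
    exact hb q hq hq2

/-- replacing two frame roots of the same even norm by roots of odd norm -/
theorem p3_swap {B : LinearMap.BilinForm ℚ V} {K : AddSubgroup V} (hs : ∀ x y, B x y = B y x)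
    {r : Fin 5 → V} {ψ : V ≃ₗ[ℚ] V5} (h : FC B K r ψ) {T : Finset (Fin 5)}
    (hT : ∀ i, i ∈ T ↔ ∃ z : ℤ, B (r i) (r i) = 2 * z) {i j : Fin 5} (hij : i ≠ j)
    (hi : i ∈ T) (hj : j ∈ T) {m : ℕ} (hm : Odd m) (hni : B (r i) (r i) = 2 * m)
    (hnj : B (r j) (r j) = 2 * m) (hC : {i, j} ∈ Code ψ K) : FrEv B K (T.card - 2) := by
  classical
  have hm0 : (m : ℚ) ≠ 0 := by
    have : m ≠ 0 := by rintro rfl; simp at hm
    exact_mod_cast this
  obtain ⟨y, hyK, hy⟩ := (p3_half h {i, j}).2 hC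
  rw [Finset.sum_pair hij] at hy
  have h2y : r i + r j = (2 : ℚ) • y := by
    rw [hy]
    simp [two_smul]
  have hnot : ¬ ∃ z : ℤ, (m : ℚ) = 2 * z := by
    rintro ⟨z, hz⟩
    have hz' : (m : ℤ) = 2 * z := by exact_mod_cast hz
    obtain ⟨k, hk⟩ := hm
    omega
  -- the two new roots, `e = 1` or `-1`
  have key : ∀ e : ℚ, (e = 1 ∨ e = -1) → ∃ ρ : V, ρ = (1 / 2 : ℚ) • (r i + e • r j) ∧
      Rt B K ρ ∧ B ρ ρ = m := by
    intro e he
    have he2 : e * e = 1 := by rcases he with rfl | rfl <;> norm_num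
    have hn : B ((1 / 2 : ℚ) • (r i + e • r j)) ((1 / 2 : ℚ) • (r i + e • r j)) = m := by
      simp only [map_add, map_smul, LinearMap.add_apply, LinearMap.smul_apply, smul_eq_mul,
        h.ort i j hij, h.ort j i hij.symm, hni, hnj]
      linear_combination (m : ℚ) / 2 * he2
    refine ⟨_, rfl, ⟨?_, ?_, ?_, ?_⟩, hn⟩
    · rcases he with rfl | rfl
      · rw [one_smul, h2y, smul_smul]
        norm_num
        exact hyK
      · have : (1 / 2 : ℚ) • (r i + (-1 : ℚ) • r j) = y - r j := by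
          have e1 : r i = (2 : ℚ) • y - r j := by rw [← h2y]; abel
          rw [e1]
          module
        rw [this]
        exact K.sub_mem hyK (h.rt j).1
    · intro h0
      rw [h0] at hn
      simp at hn
      exact hm0 hn.symm
    · intro x hx
      obtain ⟨z, hz⟩ := p3_ints h hx
      have hxi := h.psi x i
      have hxj := h.psi x j
      rw [hz, hni, eq_div_iff (by positivity)] at hxi
      rw [hz, hnj, eq_div_iff (by positivity)] at hxj
      rw [hn]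
      simp only [map_add, map_smul, smul_eq_mul]
      rcases he with rfl | rfl
      · refine ⟨z i + z j, ?_⟩
        push_cast
        linarith
      · refine ⟨z i - z j, ?_⟩
        push_cast
        linarith
    · intro t ht
      obtain ⟨z, hz⟩ := h.int _ ht i
      refine ⟨z, ?_⟩
      rw [← hz]
      simp only [map_smul, map_add, h.psr, Pi.smul_apply, Pi.add_apply, smul_eq_mul]
      rw [Pi.single_eq_same, Pi.single_eq_of_ne hij]
      ring
  obtain ⟨ρ, hρ, hρR, hρn⟩ := key 1 (Or.inl rfl)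
  obtain ⟨ρ', hρ', hρR', hρn'⟩ := key (-1) (Or.inr rfl)
  have ho : B ρ ρ' = 0 := by
    rw [hρ, hρ']
    simp only [map_add, map_smul, LinearMap.add_apply, LinearMap.smul_apply, smul_eq_mul,
      h.ort i j hij, h.ort j i hij.symm, hni, hnj]
    ring
  have hk : ∀ k, k ≠ i → k ≠ j → B ρ (r k) = 0 ∧ B ρ' (r k) = 0 := by
    intro k hki hkj
    rw [hρ, hρ']
    constructor <;>
      simp [h.ort i k hki.symm, h.ort j k hkj.symm]
  refine ⟨fun k => if k = i then ρ else if k = j then ρ' else r k, fun k => ?_, ?_,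
    T \ {i, j}, ?_, fun k => ?_⟩
  · dsimp only
    split_ifs
    · exact hρR
    · exact hρR'
    · exact h.rt k
  · intro k l hkl
    dsimp only
    by_cases h1 : k = i
    · subst h1
      rw [if_pos rfl]
      by_cases h2 : l = j
      · subst h2
        rw [if_neg hkl.symm, if_pos rfl]
        exact ho
      · rw [if_neg hkl.symm, if_neg h2]
        exact (hk l hkl.symm h2).1
    · rw [if_neg h1]
      by_cases h2 : k = j
      · subst h2
        rw [if_pos rfl]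
        by_cases h3 : l = i
        · subst h3
          rw [if_pos rfl, hs]
          exact ho
        · rw [if_neg h3, if_neg hkl.symm]
          exact (hk l h3 hkl.symm).2
      · rw [if_neg h2]
        by_cases h3 : l = i
        · subst h3
          rw [if_pos rfl, hs]
          exact (hk k h1 h2).1
        · rw [if_neg h3]
          by_cases h4 : l = j
          · subst h4
            rw [if_pos rfl, hs]
            exact (hk k h1 h2).2
          · rw [if_neg h4]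
            exact h.ort k l hkl
  · rw [Finset.card_sdiff_of_subset, Finset.card_pair hij]
    intro k hk'
    rw [Finset.mem_insert, Finset.mem_singleton] at hk'
    rcases hk' with rfl | rfl
    · exact hi
    · exact hj
  · rw [Finset.mem_sdiff, Finset.mem_insert, Finset.mem_singleton]
    dsimp only
    by_cases h1 : k = i
    · rw [if_pos h1, hρn]
      constructor
      · rintro ⟨-, h2⟩
        exact absurd (Or.inl h1) h2
      · intro h2
        exact absurd h2 hnot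
    · rw [if_neg h1]
      by_cases h2 : k = j
      · rw [if_pos h2, hρn']
        constructor
        · rintro ⟨-, h3⟩
          exact absurd (Or.inr h2) h3
        · intro h3
          exact absurd h3 hnot
      · rw [if_neg h2, hT]
        constructor
        · rintro ⟨h3, -⟩
          exact h3
        · intro h3
          refine ⟨h3, ?_⟩
          rintro (h4 | h4)
          · exact h1 h4
          · exact h2 h4

/-- Row [RH-P3]: patterns of framed lattices in `F_Q`.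

Proof.  Choose a frame with the minimal number `|T|` of roots of even norm.  `code_of_FQ`, then
`rep_of` with `δ i = 2` for `σ i ∉ T` (norm `μ`: `μ·4 = 2·2·μ`) and `δ i = 1` for `σ i ∈ T` (norm
`2μ = 2·1·μ`), `m i = μ_{σ i}`: in all three cases `x ∈ K` iff all `ψ x i` are integers and the word
is in the code, i.e. `ψ x (σ i)` is even for `σ i ∉ T` and the parities on `T` satisfy the checks.
`big`: `big_of` (transport `Big2`, `Integ`, `IsLat` along `ψ'`; for `p = 2` the `m_i` are odd).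
If `m 0 = m 1` in the case `T ∋ σ 0, σ 1`: `ρ = (r_{σ 0} + r_{σ 1})/2`, `ρ' = (r_{σ 0} - r_{σ 1})/2` are
in `K` (word `{σ 0, σ 1}`), of norm `m 0`, orthogonal, and
`2(x,ρ) = m 0 (y_0 + y_1)·(1)`: precisely `(x,ρ) = ½ m 0 (y_{σ 0} + y_{σ 1}) ∈ m 0 ℤ` as
`y_{σ 0} ≡ y_{σ 1} mod 2`; they are primitive (coordinates 1), so they are roots, and replacing
`r_{σ 0}, r_{σ 1}` by `ρ, ρ'` gives a frame with fewer roots of even norm: contradiction.  Same for
`σ 2, σ 3`. -/
theorem pat_FQ {B : LinearMap.BilinForm ℚ V} {K : AddSubgroup V} (hF : FQ B K)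
    (hb : Big2 B K) (hf : Framed B K) :
    ∃ m : Fin 5 → ℕ, MOK m ∧ (Rep AQ1 HQ1 m B K ∨ (Rep AQ5 HQ5 m B K ∧ m 0 ≠ m 1) ∨
      (Rep AQ8 HQ8 m B K ∧ m 0 ≠ m 1 ∧ m 2 ≠ m 3)) := by
  classical
  have hex : ∃ t, FrEv B K t := by
    obtain ⟨r, h1, h2⟩ := hf
    exact ⟨_, r, h1, h2, Finset.univ.filter (fun i => ∃ z : ℤ, B (r i) (r i) = 2 * z), rfl,
      fun i => by simp⟩
  obtain ⟨r, hr, ho, T, hTc, hT⟩ := Nat.find_spec hex
  have hmin : ∀ t < T.card, ¬ FrEv B K t := fun t ht => Nat.find_min hex (by omega)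
  obtain ⟨ψ, h⟩ := exists_FC hF.toK5 r hr ho
  obtain ⟨σ, hσ⟩ := code_of_FQ hF h hT
  obtain ⟨μ, hμ, hμs, hT1, hT2⟩ := p3_mu_FQ hF h hT
  have hsw : ∀ i j, i ≠ j → i ∈ T → j ∈ T → {i, j} ∈ Code ψ K → μ i ≠ μ j := by
    intro i j hij hi hj hC he
    have h1 := p3_swap hF.symm h hT hij hi hj (hμ i) (hT1 i hi) (by rw [hT1 j hj, he]) hC
    refine hmin _ ?_ h1
    have : 0 < T.card := Finset.card_pos.2 ⟨i, hi⟩
    omega
  refine ⟨fun i => μ (σ i), ?_⟩
  have hMOK : ∀ {A : Fin 5 → ℕ} {H : List (Fin 5 → ℕ)}, Rep A H (fun i => μ (σ i)) B K →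
      MOK (fun i => μ (σ i)) := fun hR =>
    p3_MOK hR hF.int hF.lat hb (fun i => hμ _) (fun i => hμs _)
  have hne : ∀ i j : Fin 5, i ≠ j → σ i ≠ σ j := fun i j hij he => hij (σ.injective he)
  rcases hσ with ⟨e1, e2⟩ | ⟨e1, e2⟩ | ⟨e1, e2⟩
  · have hR : Rep AQ1 HQ1 (fun i => μ (σ i)) B K := by
      refine rep_of h σ ![2, 2, 2, 2, 2] AQ1 _ HQ1 (fun i => by fin_cases i <;> simp)
        (fun i => ?_) (p3_c1 h σ e2)
      rw [hT2 (σ i) (by rw [e1]; simp)]
      fin_cases i <;> simp [AQ1] <;> ring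
    exact ⟨hMOK hR, Or.inl hR⟩
  · have hm : ∀ i, σ i ∈ T ↔ i = 0 ∨ i = 1 := by
      intro i
      rw [e1]
      simp
    have hR : Rep AQ5 HQ5 (fun i => μ (σ i)) B K := by
      refine rep_of h σ ![1, 1, 2, 2, 2] AQ5 _ HQ5 (fun i => by fin_cases i <;> simp)
        (fun i => ?_) (p3_c2 h σ e2)
      by_cases hi : σ i ∈ T
      · rw [hT1 _ hi]
        rcases (hm i).1 hi with rfl | rfl <;> simp [AQ5]
      · rw [hT2 _ hi]
        have hi' := fun hh => hi ((hm i).2 hh)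
        fin_cases i
        · exact absurd (Or.inl rfl) hi'
        · exact absurd (Or.inr rfl) hi'
        all_goals simp [AQ5]; ring
    refine ⟨hMOK hR, Or.inr (Or.inl ⟨hR, ?_⟩)⟩
    exact hsw _ _ (hne _ _ (by decide)) ((hm 0).2 (Or.inl rfl)) ((hm 1).2 (Or.inr rfl))
      (by rw [e2]; simp)
  · have hm : ∀ i, σ i ∈ T ↔ i = 0 ∨ i = 1 ∨ i = 2 ∨ i = 3 := by
      intro i
      rw [e1]
      simp
    have hR : Rep AQ8 HQ8 (fun i => μ (σ i)) B K := by
      refine rep_of h σ ![1, 1, 1, 1, 2] AQ8 _ HQ8 (fun i => by fin_cases i <;> simp)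
        (fun i => ?_) (p3_c3 h σ e2)
      by_cases hi : σ i ∈ T
      · rw [hT1 _ hi]
        rcases (hm i).1 hi with rfl | rfl | rfl | rfl <;> simp [AQ8]
      · rw [hT2 _ hi]
        have hi' := fun hh => hi ((hm i).2 hh)
        fin_cases i
        · exact absurd (Or.inl rfl) hi'
        · exact absurd (Or.inr (Or.inl rfl)) hi'
        · exact absurd (Or.inr (Or.inr (Or.inl rfl))) hi'
        · exact absurd (Or.inr (Or.inr (Or.inr rfl))) hi'
        · simp [AQ8]; ring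
    refine ⟨hMOK hR, Or.inr (Or.inr ⟨hR, ?_, ?_⟩)⟩
    · exact hsw _ _ (hne _ _ (by decide)) ((hm 0).2 (by simp)) ((hm 1).2 (by simp))
        (by rw [e2]; simp)
    · exact hsw _ _ (hne _ _ (by decide)) ((hm 2).2 (by simp)) ((hm 3).2 (by simp))
        (by rw [e2]; simp)

/-- Row [RH-P3]: patterns of framed lattices in `F_0`.

Proof.  All roots have norm `2μ_i`.  `(x,x') = ½ ∑ μ_i y_i y'_i ∈ ℤ`, so words meet evenly.
`h3` of `code_F0`: for `u` orthogonal to the code let `x(u) = ∑_u r_i`; `(x(u),x') ≡ |u ∩ w'| mod 2`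
is even, so `x(u) ∈ Rad B K 2`; `[Rad B K 2 : 2K] = 32/16 = 2`.  If `u, u'` are not in the code, then
`x(u), x(u') ∉ 2K` (`x(u)/2` has the word `u`), so `x(u) - x(u') ∈ 2K`, and `(x(u) - x(u'))/2` has
the word `u + u'`.  `rep_of` with `δ = (1,1,1,1,2)`. -/
theorem pat_F0 {B : LinearMap.BilinForm ℚ V} {K : AddSubgroup V} (hF : F0 B K)
    (hb : Big2 B K) (hf : Framed B K) : ∃ m : Fin 5 → ℕ, MOK m ∧ Rep AP4 HP4 m B K := by
  classical
  obtain ⟨r, hr, ho⟩ := hf
  obtain ⟨ψ, h⟩ := exists_FC hF.toK5 r hr ho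
  have hI : Integ B K := hF.even.1
  choose μ hμ hμs hn using fun i => (root_norm (h.rt i)).1 hF
  -- products with the sums of frame roots
  have hrad : ∀ u : Finset (Fin 5), (∀ w ∈ Code ψ K, Even (u ∩ w).card) →
      ∑ i ∈ u, r i ∈ Rad B K 2 := by
    intro u hu
    refine ⟨p3_sum_mem h u, fun x hx => ?_⟩
    obtain ⟨z, hz⟩ := p3_ints h hx
    have h1 : B (∑ i ∈ u, r i) x = ((∑ i ∈ u, (μ i : ℤ) * z i * 1 : ℤ) : ℚ) := by
      rw [p3_sum_form h]
      push_cast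
      rw [Finset.mul_sum]
      refine Finset.sum_congr rfl fun i hi => ?_
      rw [hn i, hz]
      ring
    have h2 : Even (∑ i ∈ u, (μ i : ℤ) * z i * 1) := by
      rw [p3_even_sum]
      have e : u.filter (fun i => Odd ((μ i : ℤ) * z i * 1)) = u ∩ word (ψ x) := by
        ext i
        rw [Finset.mem_filter, Finset.mem_inter, p3_word hz, mul_one, Int.odd_mul]
        have : Odd ((μ i : ℕ) : ℤ) := by exact_mod_cast hμ i
        tauto
      rw [e]
      exact hu _ ⟨x, hx, rfl⟩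
    obtain ⟨c, hc⟩ := h2
    refine ⟨c, ?_⟩
    rw [h1, hc]
    push_cast
    ring
  obtain ⟨σ, hσ⟩ := code_F0 (code_zero h) (fun w hw w' hw' => code_add h hw hw')
    (by
      rintro w ⟨x, hx, rfl⟩ w' ⟨x', hx', rfl⟩
      obtain ⟨z, hz⟩ := p3_ints h hx
      obtain ⟨z', hz'⟩ := p3_ints h hx'
      obtain ⟨b, hb'⟩ := hI x hx x' hx'
      have h3 := h.form x x'
      have e1 : ∑ i, B (r i) (r i) * ψ x i * ψ x' i =
          2 * ((∑ i, (μ i : ℤ) * z i * z' i : ℤ) : ℚ) := by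
        push_cast
        rw [Finset.mul_sum]
        refine Finset.sum_congr rfl fun i _ => ?_
        rw [hn i, hz, hz']
        ring
      rw [hb', e1] at h3
      have h4 : Even (∑ i, (μ i : ℤ) * z i * z' i) := by
        refine ⟨b, ?_⟩
        have : ((∑ i, (μ i : ℤ) * z i * z' i : ℤ) : ℚ) = ((b + b : ℤ) : ℚ) := by
          push_cast at h3 ⊢
          linarith
        exact_mod_cast this
      rw [p3_even_sum, p3_filter hz hz' hμ, Finset.univ_inter] at h4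
      exact h4)
    (by
      intro u u' hu hu' hn1 hn2
      have h1 := p3_rad_F0 hF (hrad u hu) (hrad u' hu') (fun hh => hn1 ((p3_half h u).1 hh))
        (fun hh => hn2 ((p3_half h u').1 hh))
      rw [← p3_half h]
      have e : ∑ i ∈ symmDiff u u', r i = (∑ i ∈ u, r i + ∑ i ∈ u', r i) +
          (2 : ℤ) • (-∑ i ∈ u ∩ u', r i) := by
        have e1 : ∑ i ∈ u, r i + ∑ i ∈ u', r i = ∑ i ∈ u ∪ u', r i + ∑ i ∈ u ∩ u', r i :=
          (Finset.sum_union_inter).symm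
        have e2 : ∑ i ∈ u ∪ u', r i = ∑ i ∈ symmDiff u u', r i + ∑ i ∈ u ∩ u', r i := by
          rw [← Finset.sum_union]
          · congr 1
            ext k
            simp only [Finset.mem_union, Finset.mem_symmDiff, Finset.mem_inter]
            tauto
          · rw [Finset.disjoint_left]
            intro k hk hk'
            rw [Finset.mem_symmDiff] at hk
            rw [Finset.mem_inter] at hk'
            tauto
        rw [e1, e2]
        module
      rw [e]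
      exact (mulL 2 K).add_mem h1
        ⟨_, K.neg_mem (p3_sum_mem h (u ∩ u')), by norm_num⟩)
  refine ⟨fun i => μ (σ i), ?_⟩
  have hR : Rep AP4 HP4 (fun i => μ (σ i)) B K := by
    refine rep_of h σ ![1, 1, 1, 1, 2] AP4 _ HP4 (fun i => by fin_cases i <;> simp)
      (fun i => ?_) (p3_c3 h σ hσ)
    rw [hn]
    fin_cases i <;> simp [AP4]
    ring
  exact ⟨p3_MOK hR hI hF.lat hb (fun i => hμ _) (fun i => hμs _), hR⟩

end RH6
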