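import Pool.Agent.RH6.P5

namespace RH6

variable {V : Type*} [AddCommGroup V] [Module ℚ V] [FiniteDimensional ℚ V]

/-- `K` has a frame with `t` roots of norm `2·odd` -/
def Fr2 (B : LinearMap.BilinForm ℚ V) (K : AddSubgroup V) (t : ℕ) : Prop :=
  ∃ r : Fin 5 → V, (∀ i, Rt B K (r i)) ∧ (∀ i j, i ≠ j → B (r i) (r j) = 0) ∧
    ∃ T : Finset (Fin 5), T.card = t ∧ ∀ i, i ∈ T ↔ ∃ μ : ℕ, Odd μ ∧ B (r i) (r i) = 2 * μ

/-! ### Norms of the frame roots -/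

theorem p6_norm {B : LinearMap.BilinForm ℚ V} {K : AddSubgroup V} (hF : F2 B K)
    {r : Fin 5 → V} (hr : ∀ i, Rt B K (r i)) {T : Finset (Fin 5)}
    (hT : ∀ i, i ∈ T ↔ ∃ μ : ℕ, Odd μ ∧ B (r i) (r i) = 2 * μ) (i : Fin 5) :
    ∃ μ : ℕ, Odd μ ∧ Squarefree μ ∧ (i ∈ T → B (r i) (r i) = 2 * μ) ∧
      (i ∉ T → B (r i) (r i) = 4 * μ) := by
  obtain ⟨μ, h1, h2, h3⟩ := (root_norm (hr i)).2.1 hF
  refine ⟨μ, h1, h2, fun hi => ?_, fun hi => ?_⟩
  · rcases h3 with h3 | h3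
    · exact h3
    · obtain ⟨ν, hν, hν'⟩ := (hT i).1 hi
      exfalso
      rw [h3] at hν'
      have h4 : (2 * μ : ℕ) = ν := by
        have h5 : (2 * μ : ℚ) = ν := by linarith
        exact_mod_cast h5
      rw [← h4] at hν
      exact (Nat.not_odd_iff_even.2 (even_two_mul μ)) hν
  · rcases h3 with h3 | h3
    · exact absurd ((hT i).2 ⟨μ, h1, h3⟩) hi
    · exact h3

/-! ### The swap -/

/-- Row [RH-P6]: a word with two elements outside `T` and equal norms: replace `r_i, r_j` by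
`(r_i ± r_j)/2`.

Proof.  `(r_i,r_i) = (r_j,r_j) = 4μ`.  `ρ = (r_i + r_j)/2`, `ρ' = (r_i - r_j)/2` are in `K` (integral
coordinates, word `{i,j}`), orthogonal, of norm `2μ`.  `(x,ρ) = μ (y_i + y_j)`, so
`2(x,ρ)/(ρ,ρ) = y_i + y_j ∈ ℤ`; primitive (coordinates 1).  The other `r_l` are orthogonal to them. -/
theorem swap2 {B : LinearMap.BilinForm ℚ V} {K : AddSubgroup V} (hF : F2 B K)
    {r : Fin 5 → V} {ψ : V ≃ₗ[ℚ] V5} (h : FC B K r ψ) {T : Finset (Fin 5)}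
    (hT : ∀ i, i ∈ T ↔ ∃ μ : ℕ, Odd μ ∧ B (r i) (r i) = 2 * μ) {i j : Fin 5} (hij : i ≠ j)
    (hi : i ∉ T) (hj : j ∉ T) (hw : {i, j} ∈ Code ψ K) (hn : B (r i) (r i) = B (r j) (r j)) :
    Fr2 B K (T.card + 2) := by
  obtain ⟨μ, hμ, -, -, hμ'⟩ := p6_norm hF h.rt hT i
  have hni := hμ' hi
  have hnj : B (r j) (r j) = 4 * μ := by rw [← hn]; exact hni
  have hμ0 : (0 : ℚ) < μ := by exact_mod_cast hμ.pos
  have hij0 : B (r i) (r j) = 0 := h.ort i j hij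
  have hji0 : B (r j) (r i) = 0 := h.ort j i hij.symm
  -- the first new root
  have hρψ : ψ ((1 / 2 : ℚ) • (r i + r j)) = fun l => if l ∈ ({i, j} : Finset (Fin 5)) then 1 else 0 := by
    rw [map_smul, map_add, h.psr, h.psr]
    funext l
    simp only [Pi.smul_apply, Pi.add_apply, Pi.single_apply, smul_eq_mul, Finset.mem_insert,
      Finset.mem_singleton]
    by_cases h1 : l = i
    · have h2 : l ≠ j := by rw [h1]; exact hij
      simp [h1, hij]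
    · by_cases h2 : l = j
      · simp [h2, hij.symm]
      · simp [h1, h2]
  have hρ : (1 / 2 : ℚ) • (r i + r j) ∈ K := by
    have h1 := (code_iff h {i, j}).1 hw
    rw [← hρψ, LinearEquiv.symm_apply_apply] at h1
    exact h1
  have hρ' : (1 / 2 : ℚ) • (r i - r j) ∈ K := by
    have h1 := K.sub_mem hρ (h.rt j).1
    have e : (1 / 2 : ℚ) • (r i - r j) = (1 / 2 : ℚ) • (r i + r j) - r j := by
      module
    rw [e]
    exact h1
  have hcoord : ∀ x l, B x (r l) = ψ x l * B (r l) (r l) / 2 := by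
    intro x l
    have h1 := h.psi x l
    have h2 : B (r l) (r l) ≠ 0 := (hF.pos _ (h.rt l).2.1).ne'
    rw [h1]
    field_simp
  set ρ : V := (1 / 2 : ℚ) • (r i + r j) with hρdef
  set ρ' : V := (1 / 2 : ℚ) • (r i - r j) with hρ'def
  have nρ : B ρ ρ = 2 * μ := by
    simp only [hρdef, map_smul, map_add, LinearMap.smul_apply, LinearMap.add_apply, smul_eq_mul,
      hij0, hji0, hni, hnj]
    ring
  have nρ' : B ρ' ρ' = 2 * μ := by
    simp only [hρ'def, map_smul, map_sub, LinearMap.smul_apply, LinearMap.sub_apply, smul_eq_mul,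
      hij0, hji0, hni, hnj]
    ring
  have nρρ' : B ρ ρ' = 0 := by
    simp only [hρdef, hρ'def, map_smul, map_add, map_sub, LinearMap.smul_apply,
      LinearMap.add_apply, smul_eq_mul, hij0, hji0, hni, hnj]
    ring
  have rρ : Rt B K ρ := by
    refine ⟨hρ, ?_, ?_, ?_⟩
    · intro h0
      have h1 : B ρ ρ = 0 := by rw [h0]; simp
      linarith
    · intro x hx
      obtain ⟨a, ha⟩ := h.int x hx i
      obtain ⟨b, hb⟩ := h.int x hx j
      refine ⟨a + b, ?_⟩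
      rw [nρ, hρdef, map_smul, map_add, hcoord x i, hcoord x j, ha, hb, hni, hnj, smul_eq_mul]
      push_cast
      ring
    · intro t ht
      obtain ⟨a, ha⟩ := h.int _ ht i
      rw [map_smul, hρψ] at ha
      refine ⟨a, ?_⟩
      rw [← ha]
      simp
  have hρ'ψ : ψ ρ' i = 1 := by
    rw [hρ'def, map_smul, map_sub, h.psr, h.psr]
    simp [Pi.single_apply, hij]
  have rρ' : Rt B K ρ' := by
    refine ⟨hρ', ?_, ?_, ?_⟩
    · intro h0
      have h1 : B ρ' ρ' = 0 := by rw [h0]; simp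
      linarith
    · intro x hx
      obtain ⟨a, ha⟩ := h.int x hx i
      obtain ⟨b, hb⟩ := h.int x hx j
      refine ⟨a - b, ?_⟩
      rw [nρ', hρ'def, map_smul, map_sub, hcoord x i, hcoord x j, ha, hb, hni, hnj, smul_eq_mul]
      push_cast
      ring
    · intro t ht
      obtain ⟨a, ha⟩ := h.int _ ht i
      rw [map_smul, Pi.smul_apply, hρ'ψ, smul_eq_mul, mul_one] at ha
      exact ⟨a, ha⟩
  -- orthogonality to the other roots
  have oρ : ∀ l, l ≠ i → l ≠ j → B ρ (r l) = 0 := by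
    intro l h1 h2
    simp only [hρdef, map_smul, map_add, LinearMap.smul_apply, LinearMap.add_apply, smul_eq_mul,
      h.ort i l h1.symm, h.ort j l h2.symm]
    ring
  have oρ' : ∀ l, l ≠ i → l ≠ j → B ρ' (r l) = 0 := by
    intro l h1 h2
    simp only [hρ'def, map_smul, map_sub, LinearMap.smul_apply, LinearMap.sub_apply, smul_eq_mul,
      h.ort i l h1.symm, h.ort j l h2.symm]
    ring
  -- the new frame
  let r' : Fin 5 → V := fun l => if l = i then ρ else if l = j then ρ' else r l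
  have ri : r' i = ρ := by simp [r']
  have rj : r' j = ρ' := by simp [r', hij.symm]
  have rl : ∀ l, l ≠ i → l ≠ j → r' l = r l := by
    intro l h1 h2
    simp [r', h1, h2]
  refine ⟨r', ?_, ?_, insert i (insert j T), ?_, ?_⟩
  · intro l
    by_cases h1 : l = i
    · rw [h1, ri]; exact rρ
    · by_cases h2 : l = j
      · rw [h2, rj]; exact rρ'
      · rw [rl l h1 h2]; exact h.rt l
  · intro l l' hll'
    by_cases h1 : l = i
    · rw [h1, ri]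
      by_cases h2 : l' = j
      · rw [h2, rj]; exact nρρ'
      · have h3 : l' ≠ i := by rw [← h1]; exact hll'.symm
        rw [rl l' h3 h2]; exact oρ l' h3 h2
    · by_cases h2 : l = j
      · rw [h2, rj]
        by_cases h3 : l' = i
        · rw [h3, ri, hF.symm]; exact nρρ'
        · have h4 : l' ≠ j := by rw [← h2]; exact hll'.symm
          rw [rl l' h3 h4]; exact oρ' l' h3 h4
      · rw [rl l h1 h2]
        by_cases h3 : l' = i
        · rw [h3, ri, hF.symm]; exact oρ l h1 h2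
        · by_cases h4 : l' = j
          · rw [h4, rj, hF.symm]; exact oρ' l h1 h2
          · rw [rl l' h3 h4]; exact h.ort l l' hll'
  · have h1 : i ∉ insert j T := by
      rw [Finset.mem_insert]
      rintro (h1 | h1)
      · exact hij h1
      · exact hi h1
    rw [Finset.card_insert_of_notMem h1, Finset.card_insert_of_notMem hj]
  · intro l
    rw [Finset.mem_insert, Finset.mem_insert]
    by_cases h1 : l = i
    · rw [h1, ri]
      exact ⟨fun _ => ⟨μ, hμ, nρ⟩, fun _ => Or.inl rfl⟩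
    · by_cases h2 : l = j
      · rw [h2, rj]
        exact ⟨fun _ => ⟨μ, hμ, nρ'⟩, fun _ => Or.inr (Or.inl rfl)⟩
      · rw [rl l h1 h2, ← hT l]
        simp only [h1, h2, false_or]

/-! ### Patterns from codes -/

/-- the positions of the odd coordinates, after a permutation -/
def p6_W (σ : Equiv.Perm (Fin 5)) (y : Fin 5 → ℤ) : Finset (Fin 5) :=
  Finset.univ.filter (fun k => Odd (y (σ k)))

theorem p6_mem_word (v : V5) (i : Fin 5) : i ∈ word v ↔ ∃ z : ℤ, v i = 2 * z + 1 := by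
  classical
  unfold word
  simp

theorem p6_word (σ : Equiv.Perm (Fin 5)) {v : V5} {y : Fin 5 → ℤ} (hv : ∀ i, v i = y i) :
    word v = (p6_W σ y).map σ.toEmbedding := by
  ext i
  rw [Finset.mem_map_equiv, p6_mem_word]
  unfold p6_W
  rw [Finset.mem_filter]
  simp only [Finset.mem_univ, true_and, Equiv.apply_symm_apply, hv]
  constructor
  · rintro ⟨z, hz⟩
    exact ⟨z, by exact_mod_cast hz⟩
  · rintro ⟨z, hz⟩
    exact ⟨z, by rw [hz]; push_cast; ring⟩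

theorem p6_par (hh : Fin 5 → ℕ) (z : Fin 5 → ℤ) (W : Finset (Fin 5))
    (h : ∀ i, hh i ≠ 0 → (i ∈ W ↔ Odd (z i))) :
    Even (∑ i, (hh i : ℤ) * z i) ↔ Even (∑ i ∈ W, hh i) := by
  have h1 : Even (∑ i, ((hh i : ℤ) * z i - if i ∈ W then (hh i : ℤ) else 0)) := by
    refine Finset.even_sum _ fun i _ => ?_
    by_cases h0 : hh i = 0
    · simp [h0]
    · by_cases h2 : i ∈ W
      · rw [if_pos h2]
        obtain ⟨w, hw⟩ := (h i h0).1 h2
        exact ⟨(hh i : ℤ) * w, by rw [hw]; ring⟩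
      · rw [if_neg h2, sub_zero]
        have h3 : Even (z i) := by
          rw [← Int.not_odd_iff_even]
          exact fun h4 => h2 ((h i h0).2 h4)
        exact h3.mul_left _
  rw [Finset.sum_sub_distrib, Finset.sum_ite_mem, Finset.univ_inter, Int.even_sub] at h1
  rw [h1, ← Nat.cast_sum, Int.even_coe_nat]

theorem p6_hc {B : LinearMap.BilinForm ℚ V} {K : AddSubgroup V} {r : Fin 5 → V}
    {ψ : V ≃ₗ[ℚ] V5} (h : FC B K r ψ) (σ : Equiv.Perm (Fin 5))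
    (C₀ : Finset (Finset (Fin 5)))
    (hC : ∀ w, w ∈ Code ψ K ↔ ∃ c ∈ C₀, w = c.map σ.toEmbedding)
    (δ : Fin 5 → ℕ) (hδ : ∀ i, δ i = 1 ∨ δ i = 2) (H : List (Fin 5 → ℕ))
    (hH0 : ∀ hh ∈ H, ∀ i, δ i = 2 → hh i = 0)
    (hW : ∀ W : Finset (Fin 5), W ∈ C₀ ↔
      (∀ i, δ i = 2 → i ∉ W) ∧ ∀ hh ∈ H, Even (∑ i ∈ W, hh i)) (x : V) :
    x ∈ K ↔ ∃ z : Fin 5 → ℤ, (∀ i, ψ x (σ i) = δ i * z i) ∧
      ∀ hh ∈ H, Even (∑ i, (hh i : ℤ) * z i) := by
  have key : ∀ y : Fin 5 → ℤ, (∀ i, ψ x i = y i) → (x ∈ K ↔ p6_W σ y ∈ C₀) := by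
    intro y hy
    rw [mem_iff_word h (fun i => ⟨y i, hy i⟩), p6_word σ hy, hC]
    constructor
    · rintro ⟨c, hc, hc'⟩
      rw [Finset.map_injective _ hc']
      exact hc
    · intro hc
      exact ⟨_, hc, rfl⟩
  constructor
  · intro hx
    choose y hy using h.int x hx
    have hWy := (hW _).1 ((key y hy).1 hx)
    refine ⟨fun i => if δ i = 2 then y (σ i) / 2 else y (σ i), ?_, ?_⟩
    · intro i
      rw [hy]
      rcases hδ i with h1 | h1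
      · simp [h1]
      · have h2 := hWy.1 i h1
        have h3 : Even (y (σ i)) := by
          rw [← Int.not_odd_iff_even]
          intro h4
          exact h2 (by unfold p6_W; simpa using h4)
        obtain ⟨w, hw⟩ := h3
        simp only [h1, if_true]
        rw [hw]
        have e : (w + w) / 2 = w := by omega
        rw [e]
        push_cast
        ring
    · intro hh hhH
      rw [p6_par hh _ (p6_W σ y)]
      · exact hWy.2 hh hhH
      · intro i hi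
        have h1 : δ i ≠ 2 := fun h2 => hi (hH0 hh hhH i h2)
        simp only [h1, if_false]
        unfold p6_W
        simp
  · rintro ⟨z, hz, hz'⟩
    have hy : ∀ i, ψ x i = ((δ (σ.symm i) * z (σ.symm i) : ℤ) : ℚ) := by
      intro i
      have := hz (σ.symm i)
      rw [Equiv.apply_symm_apply] at this
      rw [this]
      push_cast
      ring
    rw [key (fun i => δ (σ.symm i) * z (σ.symm i)) hy, hW]
    have hmem : ∀ i, i ∈ p6_W σ (fun i => (δ (σ.symm i) : ℤ) * z (σ.symm i)) ↔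
        Odd ((δ i : ℤ) * z i) := by
      intro i
      unfold p6_W
      simp
    refine ⟨?_, ?_⟩
    · intro i hi
      rw [hmem, hi]
      intro h1
      rw [← Int.not_even_iff_odd] at h1
      exact h1 ⟨z i, by push_cast; ring⟩
    · intro hh hhH
      rw [← p6_par hh z]
      · exact hz' hh hhH
      · intro i hi
        have h1 : δ i = 1 := by
          rcases hδ i with h1 | h1
          · exact h1
          · exact absurd (hH0 hh hhH i h1) hi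
        rw [hmem, h1]
        simp

theorem p6_rep {N : ℕ} {B : LinearMap.BilinForm ℚ V} {K : AddSubgroup V}
    (hX : Ctx N B K) (hF : F2 B K) {r : Fin 5 → V}
    {ψ : V ≃ₗ[ℚ] V5} (h : FC B K r ψ) (σ : Equiv.Perm (Fin 5))
    (C₀ : Finset (Finset (Fin 5)))
    (hC : ∀ w, w ∈ Code ψ K ↔ ∃ c ∈ C₀, w = c.map σ.toEmbedding)
    (δ : Fin 5 → ℕ) (hδ : ∀ i, δ i = 1 ∨ δ i = 2) (A : Fin 5 → ℕ) (H : List (Fin 5 → ℕ))
    (hH0 : ∀ hh ∈ H, ∀ i, δ i = 2 → hh i = 0)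
    (hW : ∀ W : Finset (Fin 5), W ∈ C₀ ↔
      (∀ i, δ i = 2 → i ∉ W) ∧ ∀ hh ∈ H, Even (∑ i ∈ W, hh i))
    (m : Fin 5 → ℕ) (hmo : ∀ i, Odd (m i)) (hms : ∀ i, Squarefree (m i))
    (hn : ∀ i, B (r (σ i)) (r (σ i)) * (δ i : ℚ) ^ 2 = 2 * A i * m i) :
    MOK m ∧ Rep A H m B K := by
  have hR : Rep A H m B K := rep_of h σ δ A m H
    (fun i => by rcases hδ i with h1 | h1 <;> rw [h1] <;> norm_num) hn
    (p6_hc h σ C₀ hC δ hδ H hH0 hW)
  refine ⟨⟨hmo, hms, ?_⟩, hR⟩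
  intro p hp
  by_cases hp2 : p = 2
  · have h1 : (Finset.univ.filter (fun i => p ∣ m i)) = ∅ := by
      rw [Finset.filter_eq_empty_iff]
      intro i _ hi
      rw [hp2] at hi
      exact (Nat.not_even_iff_odd.2 (hmo i)) (even_iff_two_dvd.2 hi)
    rw [h1]
    simp
  · obtain ⟨ψ', hψ1, hψ2⟩ := hR
    obtain ⟨t1, t2, -, -, t3, -, -⟩ := transport ψ' hψ1 hψ2
    refine big_of (A := A) (H := H) (t2.1 hF.even.1) (t1.1 hF.lat) ?_ hp hp2
    intro q hq hq2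
    rw [← t3]
    exact hX.big q hq hq2

/-! ### The five cases -/

section cases

variable {N : ℕ} {B : LinearMap.BilinForm ℚ V} {K : AddSubgroup V} {r : Fin 5 → V}
  {ψ : V ≃ₗ[ℚ] V5} {T : Finset (Fin 5)}

theorem p6_case2 (hX : Ctx N B K) (hF : F2 B K) (h : FC B K r ψ)
    (hT : ∀ i, i ∈ T ↔ ∃ μ : ℕ, Odd μ ∧ B (r i) (r i) = 2 * μ) (hTu : T = Finset.univ)
    (σ : Equiv.Perm (Fin 5)) (hC : Code ψ K = {∅, {σ 0, σ 1}}) :
    ∃ m : Fin 5 → ℕ, MOK m ∧ Rep AP2 HP2 m B K := by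
  choose μ hμ1 hμ2 hμ3 hμ4 using p6_norm hF h.rt hT
  refine ⟨fun i => μ (σ i), p6_rep hX hF h σ {∅, {0, 1}} ?_ ![1, 1, 2, 2, 2] (by decide) AP2 HP2
    (by decide) (by decide +kernel) _ (fun i => hμ1 _) (fun i => hμ2 _) ?_⟩
  · intro w
    rw [hC]
    simp
  · intro i
    have h1 := hμ3 (σ i) (by rw [hTu]; exact Finset.mem_univ _)
    rw [h1]
    fin_cases i <;> simp [AP2] <;> ring

theorem p6_case3 (hX : Ctx N B K) (hF : F2 B K) (h : FC B K r ψ)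
    (hT : ∀ i, i ∈ T ↔ ∃ μ : ℕ, Odd μ ∧ B (r i) (r i) = 2 * μ) (hTu : T = Finset.univ)
    (σ : Equiv.Perm (Fin 5)) (hC : Code ψ K = {∅, {σ 0, σ 1, σ 2, σ 3}}) :
    ∃ m : Fin 5 → ℕ, MOK m ∧ Rep AP3 HP3 m B K ∧ ∀ i, B (r (σ i)) (r (σ i)) = 2 * m i := by
  choose μ hμ1 hμ2 hμ3 hμ4 using p6_norm hF h.rt hT
  have hn : ∀ i, B (r (σ i)) (r (σ i)) = 2 * μ (σ i) := fun i =>
    hμ3 (σ i) (by rw [hTu]; exact Finset.mem_univ _)
  obtain ⟨h1, h2⟩ := p6_rep hX hF h σ {∅, {0, 1, 2, 3}} (by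
    intro w
    rw [hC]
    simp) ![1, 1, 1, 1, 2] (by decide) AP3 HP3
    (by decide) (by decide +kernel) (fun i => μ (σ i)) (fun i => hμ1 _) (fun i => hμ2 _) (by
    intro i
    rw [hn]
    fin_cases i <;> simp [AP3] <;> ring)
  exact ⟨_, h1, h2, hn⟩

theorem p6_case6 (hX : Ctx N B K) (hF : F2 B K) (h : FC B K r ψ)
    (hT : ∀ i, i ∈ T ↔ ∃ μ : ℕ, Odd μ ∧ B (r i) (r i) = 2 * μ)
    (σ : Equiv.Perm (Fin 5)) (hTσ : T = {σ 2, σ 3, σ 4})
    (hC : Code ψ K = {∅, {σ 0, σ 1}, {σ 0, σ 2, σ 3}, {σ 1, σ 2, σ 3}})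
    (hmax : ¬ Fr2 B K (T.card + 2)) :
    ∃ m : Fin 5 → ℕ, MOK m ∧ Rep AP6 HP6 m B K ∧ m 0 ≠ m 1 := by
  choose μ hμ1 hμ2 hμ3 hμ4 using p6_norm hF h.rt hT
  have hin : ∀ i : Fin 5, i = 2 ∨ i = 3 ∨ i = 4 → B (r (σ i)) (r (σ i)) = 2 * μ (σ i) := by
    intro i hi
    apply hμ3
    rw [hTσ]
    rcases hi with rfl | rfl | rfl <;> simp
  have hout0 : ∀ i : Fin 5, i = 0 ∨ i = 1 → σ i ∉ T := by
    intro i hi
    rw [hTσ]
    simp only [Finset.mem_insert, Finset.mem_singleton, EmbeddingLike.apply_eq_iff_eq]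
    rcases hi with rfl | rfl <;> decide
  have hout : ∀ i : Fin 5, i = 0 ∨ i = 1 → B (r (σ i)) (r (σ i)) = 4 * μ (σ i) :=
    fun i hi => hμ4 _ (hout0 i hi)
  obtain ⟨h1, h2⟩ := p6_rep hX hF h σ {∅, {0, 1}, {0, 2, 3}, {1, 2, 3}} (by
    intro w
    rw [hC]
    simp) ![1, 1, 1, 1, 2] (by decide) AP6 HP6
    (by decide) (by decide +kernel) (fun i => μ (σ i)) (fun i => hμ1 _) (fun i => hμ2 _) (by
    intro i
    obtain rfl | rfl | rfl | rfl | rfl : i = 0 ∨ i = 1 ∨ i = 2 ∨ i = 3 ∨ i = 4 := by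
      revert i
      decide
    · rw [hout 0 (by simp)]
      show (4 * (μ (σ 0) : ℚ)) * ((1 : ℕ) : ℚ) ^ 2 = 2 * ((2 : ℕ) : ℚ) * μ (σ 0)
      push_cast
      ring
    · rw [hout 1 (by simp)]
      show (4 * (μ (σ 1) : ℚ)) * ((1 : ℕ) : ℚ) ^ 2 = 2 * ((2 : ℕ) : ℚ) * μ (σ 1)
      push_cast
      ring
    · rw [hin 2 (by simp)]
      show (2 * (μ (σ 2) : ℚ)) * ((1 : ℕ) : ℚ) ^ 2 = 2 * ((1 : ℕ) : ℚ) * μ (σ 2)
      push_cast
      ring
    · rw [hin 3 (by simp)]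
      show (2 * (μ (σ 3) : ℚ)) * ((1 : ℕ) : ℚ) ^ 2 = 2 * ((1 : ℕ) : ℚ) * μ (σ 3)
      push_cast
      ring
    · rw [hin 4 (by simp)]
      show (2 * (μ (σ 4) : ℚ)) * ((2 : ℕ) : ℚ) ^ 2 = 2 * ((4 : ℕ) : ℚ) * μ (σ 4)
      push_cast
      ring)
  refine ⟨_, h1, h2, fun h3 => hmax ?_⟩
  refine swap2 hF h hT (i := σ 0) (j := σ 1) (fun h4 => by simp at h4) (hout0 0 (by simp))
    (hout0 1 (by simp)) ?_ ?_
  · rw [hC]
    simp
  · rw [hout 0 (by simp), hout 1 (by simp)]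
    rw [h3]

theorem p6_case7 (hX : Ctx N B K) (hF : F2 B K) (h : FC B K r ψ)
    (hT : ∀ i, i ∈ T ↔ ∃ μ : ℕ, Odd μ ∧ B (r i) (r i) = 2 * μ)
    (σ : Equiv.Perm (Fin 5)) (hTσ : T = {σ 4})
    (hC : ∀ w, w ∈ Code ψ K ↔ w ⊆ {σ 0, σ 1, σ 2, σ 3} ∧ Even w.card)
    (hmax : ¬ Fr2 B K (T.card + 2)) :
    ∃ m : Fin 5 → ℕ, MOK m ∧ Rep AP7 HP7 m B K ∧
      ∀ i j : Fin 5, i ≠ j → i ≠ 4 → j ≠ 4 → m i ≠ m j := by
  choose μ hμ1 hμ2 hμ3 hμ4 using p6_norm hF h.rt hT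
  have hin : B (r (σ 4)) (r (σ 4)) = 2 * μ (σ 4) := by
    apply hμ3
    rw [hTσ]
    simp
  have hout0 : ∀ i : Fin 5, i ≠ 4 → σ i ∉ T := by
    intro i hi
    rw [hTσ]
    simpa using hi
  have hout : ∀ i : Fin 5, i ≠ 4 → B (r (σ i)) (r (σ i)) = 4 * μ (σ i) :=
    fun i hi => hμ4 _ (hout0 i hi)
  obtain ⟨h1, h2⟩ := p6_rep hX hF h σ
    (Finset.univ.filter fun c : Finset (Fin 5) => c ⊆ {0, 1, 2, 3} ∧ Even c.card) (by
    intro w
    rw [hC]
    have e : ({σ 0, σ 1, σ 2, σ 3} : Finset (Fin 5)) =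
        ({0, 1, 2, 3} : Finset (Fin 5)).map σ.toEmbedding := by simp
    constructor
    · rintro ⟨ha, hb⟩
      refine ⟨w.map σ.symm.toEmbedding, ?_, ?_⟩
      · rw [Finset.mem_filter]
        refine ⟨Finset.mem_univ _, ?_, by rw [Finset.card_map]; exact hb⟩
        rw [e] at ha
        intro k hk
        rw [Finset.mem_map_equiv, Equiv.symm_symm] at hk
        have := ha hk
        rw [Finset.mem_map_equiv, Equiv.symm_apply_apply] at this
        exact this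
      · rw [Finset.map_map]
        ext k
        simp
    · rintro ⟨c, hc, rfl⟩
      rw [Finset.mem_filter] at hc
      rw [e, Finset.map_subset_map, Finset.card_map]
      exact hc.2) ![1, 1, 1, 1, 2] (by decide) AP7 HP7
    (by decide) (by decide +kernel) (fun i => μ (σ i)) (fun i => hμ1 _) (fun i => hμ2 _) (by
    intro i
    obtain rfl | rfl | rfl | rfl | rfl : i = 0 ∨ i = 1 ∨ i = 2 ∨ i = 3 ∨ i = 4 := by
      revert i
      decide
    · rw [hout 0 (by decide)]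
      show (4 * (μ (σ 0) : ℚ)) * ((1 : ℕ) : ℚ) ^ 2 = 2 * ((2 : ℕ) : ℚ) * μ (σ 0)
      push_cast
      ring
    · rw [hout 1 (by decide)]
      show (4 * (μ (σ 1) : ℚ)) * ((1 : ℕ) : ℚ) ^ 2 = 2 * ((2 : ℕ) : ℚ) * μ (σ 1)
      push_cast
      ring
    · rw [hout 2 (by decide)]
      show (4 * (μ (σ 2) : ℚ)) * ((1 : ℕ) : ℚ) ^ 2 = 2 * ((2 : ℕ) : ℚ) * μ (σ 2)
      push_cast
      ring
    · rw [hout 3 (by decide)]
      show (4 * (μ (σ 3) : ℚ)) * ((1 : ℕ) : ℚ) ^ 2 = 2 * ((2 : ℕ) : ℚ) * μ (σ 3)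
      push_cast
      ring
    · rw [hin]
      show (2 * (μ (σ 4) : ℚ)) * ((2 : ℕ) : ℚ) ^ 2 = 2 * ((4 : ℕ) : ℚ) * μ (σ 4)
      push_cast
      ring)
  refine ⟨_, h1, h2, fun i j hij hi hj h3 => hmax ?_⟩
  refine swap2 hF h hT (i := σ i) (j := σ j) (fun h4 => hij (σ.injective h4)) (hout0 i hi)
    (hout0 j hj) ?_ ?_
  · rw [hC]
    refine ⟨?_, ?_⟩
    · have hs : ∀ k : Fin 5, k ≠ 4 → σ k ∈ ({σ 0, σ 1, σ 2, σ 3} : Finset (Fin 5)) := by
        intro k hk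
        fin_cases k <;> simp at hk ⊢
      intro k hk
      rw [Finset.mem_insert, Finset.mem_singleton] at hk
      rcases hk with rfl | rfl
      · exact hs i hi
      · exact hs j hj
    · rw [Finset.card_pair (fun h4 => hij (σ.injective h4))]
      exact even_two
  · rw [hout i hi, hout j hj]
    rw [h3]

end cases

/-- Row [RH-P6]: patterns in the family `F_2`.

Proof.  `Framed B K` gives `Fr2 B K t` for some `t ≤ 5`.  Among all `(K',t)` with `Ctx N B K'`,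
`F2 B K'`, `HIso N B K K'`, `Fr2 B K' t` choose one with maximal `t`.  `exists_FC`, `code_of_F2`.
* code `{∅,{σ 0,σ 1}}`, `T = univ`: `rep_of` with `δ = (1,1,2,2,2)`: `AP2`.
* code `{∅,{σ 0,…,σ 3}}`: if `μ_{σ j} + μ_{σ 4} ≡ 0 mod 4` for some `j ≠ 4`: `move3` and the first case
  for the new lattice; otherwise all `μ_{σ j} ≡ μ_{σ 4} mod 4`: `AP3`, `δ = (1,1,1,1,2)`.
* code `{∅,S,t,S∪t}`: `move6` (same frame, `t` unchanged, still maximal) leads to the next case.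
* code `{∅,{σ 0,σ 1},{σ 0,σ 2,σ 3},{σ 1,σ 2,σ 3}}`, `T = {σ 2,σ 3,σ 4}`: `AP6`, `δ = (1,1,1,1,2)`, norms
  `4μ·1 = 2·2·μ`, `2μ = 2·1·μ`, `2μ·4 = 2·4·μ`; `m 0 ≠ m 1` by `swap2` and maximality.
* `T = {σ 4}`: `AP7`, `δ = (1,1,1,1,2)`; `m i ≠ m j` for `i ≠ j`, `i, j ≠ 4` by `swap2`.
`MOK`: `root_norm`, `big_of`. -/
theorem pat_F2 {N : ℕ} {B : LinearMap.BilinForm ℚ V} {K : AddSubgroup V}
    (hX : Ctx N B K) (hF : F2 B K) (hf : Framed B K) :
    ∃ K', Ctx N B K' ∧ F2 B K' ∧ HIso N B K K' ∧ ∃ m : Fin 5 → ℕ, MOK m ∧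
      (Rep AP2 HP2 m B K' ∨ (Rep AP3 HP3 m B K' ∧ ∀ i, m i % 4 = m 4 % 4) ∨
        (Rep AP6 HP6 m B K' ∧ m 0 ≠ m 1) ∨
        (Rep AP7 HP7 m B K' ∧ ∀ i j : Fin 5, i ≠ j → i ≠ 4 → j ≠ 4 → m i ≠ m j)) := by
  classical
  let S : ℕ → Prop := fun t => ∃ K', Ctx N B K' ∧ F2 B K' ∧ HIso N B K K' ∧ Fr2 B K' t
  have hS5 : ∀ t, S t → t ≤ 5 := by
    rintro t ⟨K', -, -, -, r, -, -, T, hT, -⟩
    rw [← hT]
    exact (Finset.card_le_univ T).trans (by simp)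
  obtain ⟨r0, hr0, ho0⟩ := hf
  have hS0 : ∃ t, S t := ⟨_, K, hX, hF, HIso_refl N B K, r0, hr0, ho0,
    Finset.univ.filter (fun i => ∃ μ : ℕ, Odd μ ∧ B (r0 i) (r0 i) = 2 * μ), rfl, by
      intro i
      simp⟩
  obtain ⟨t0, ht0⟩ := hS0
  have hSm : S (Nat.findGreatest S 5) := Nat.findGreatest_spec (hS5 t0 ht0) ht0
  have hmax : ∀ t, S t → t ≤ Nat.findGreatest S 5 := fun t ht =>
    Nat.le_findGreatest (hS5 t ht) ht
  obtain ⟨K₁, hX₁, hF₁, hI₁, r, hr, ho, T, hTc, hT⟩ := hSm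
  obtain ⟨ψ, h⟩ := exists_FC hF₁.toK5 r hr ho
  have hno : ∀ K', Ctx N B K' → F2 B K' → HIso N B K K' → ¬ Fr2 B K' (T.card + 2) := by
    intro K' h1 h2 h3 h4
    have := hmax _ ⟨K', h1, h2, h3, h4⟩
    omega
  obtain ⟨σ, hσ⟩ := code_of_F2 hF₁ h hT
  rcases hσ with ⟨hTu, hC⟩ | ⟨hTu, hC⟩ | ⟨hTσ, hC⟩ | ⟨hTσ, hC⟩ | ⟨hTσ, hC⟩
  · obtain ⟨m, hm, hR⟩ := p6_case2 hX₁ hF₁ h hT hTu σ hC
    exact ⟨K₁, hX₁, hF₁, hI₁, m, hm, Or.inl hR⟩
  · by_cases hj : ∃ j : Fin 5, j ≠ 4 ∧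
        ∃ z : ℤ, B (r (σ j)) (r (σ j)) + B (r (σ 4)) (r (σ 4)) = 8 * z
    · obtain ⟨j, hj4, hz⟩ := hj
      obtain ⟨K', hX', hF', hI', h', τ, hτ⟩ := move3 hX₁ hF₁ h
        (fun i => (hT i).1 (by rw [hTu]; exact Finset.mem_univ _)) σ hC j hj4 hz
      obtain ⟨m, hm, hR⟩ := p6_case2 hX' hF' h' hT hTu τ hτ
      exact ⟨K', hX', hF', HIso_trans hI₁ hI', m, hm, Or.inl hR⟩
    · obtain ⟨m, hm, hR, hn⟩ := p6_case3 hX₁ hF₁ h hT hTu σ hC
      refine ⟨K₁, hX₁, hF₁, hI₁, m, hm, Or.inr (Or.inl ⟨hR, fun i => ?_⟩)⟩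
      by_cases hi : i = 4
      · rw [hi]
      · by_contra hne
        refine hj ⟨i, hi, ?_⟩
        have o1 := Nat.odd_iff.1 (hm.odd i)
        have o2 := Nat.odd_iff.1 (hm.odd 4)
        have h4 : (m i + m 4) % 4 = 0 := by omega
        obtain ⟨z, hz⟩ := Nat.dvd_of_mod_eq_zero h4
        refine ⟨z, ?_⟩
        rw [hn, hn]
        have h5 : ((m i : ℚ) + m 4) = 4 * z := by exact_mod_cast hz
        push_cast
        linarith
  · obtain ⟨K', hX', hF', hI', h', τ, hτ, hC'⟩ := move6 hX₁ hF₁ h hT σ hTσ hC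
    have hI := HIso_trans hI₁ hI'
    obtain ⟨m, hm, hR, hne⟩ := p6_case6 hX' hF' h' hT τ hτ hC' (hno K' hX' hF' hI)
    exact ⟨K', hX', hF', hI, m, hm, Or.inr (Or.inr (Or.inl ⟨hR, hne⟩))⟩
  · obtain ⟨m, hm, hR, hne⟩ := p6_case6 hX₁ hF₁ h hT σ hTσ hC (hno K₁ hX₁ hF₁ hI₁)
    exact ⟨K₁, hX₁, hF₁, hI₁, m, hm, Or.inr (Or.inr (Or.inl ⟨hR, hne⟩))⟩
  · obtain ⟨m, hm, hR, hne⟩ := p6_case7 hX₁ hF₁ h hT σ hTσ hC (hno K₁ hX₁ hF₁ hI₁)
    exact ⟨K₁, hX₁, hF₁, hI₁, m, hm, Or.inr (Or.inr (Or.inr ⟨hR, hne⟩))⟩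

end RH6
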