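import Pool.Agent.RH6.GDef
import Pool.Agent.RH6.F2
import Pool.Agent.RH6.F4
import Pool.Agent.RH6.F9
import Pool.Agent.RH6.P3
import Pool.Agent.RH6.P6
import Pool.Agent.RH6.C4

open Matrix

namespace RH6

theorem g1_hB_symm {V : Type*} [AddCommGroup V] [Module ℚ V] {B : LinearMap.BilinForm ℚ V}
    (hs : ∀ x y, B x y = B y x) (M : ℚ) (x y : ℚ × ℚ × V) : hB M B x y = hB M B y x := by
  show M * (x.1 * y.2.1 + x.2.1 * y.1) + B x.2.2 y.2.2 =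
    M * (y.1 * x.2.1 + y.2.1 * x.1) + B y.2.2 x.2.2
  rw [hs x.2.2 y.2.2]
  ring

theorem g1_Bm_symm (A m : Fin 5 → ℕ) (x y : V5) : Bm A m x y = Bm A m y x := by
  show (1 / 2 : ℚ) * ∑ i, (A i : ℚ) * m i * x i * y i = (1 / 2 : ℚ) * ∑ i, (A i : ℚ) * m i * y i * x i
  congr 1
  apply Finset.sum_congr rfl
  intro i _
  ring

theorem g1_HIso_QEq {V : Type*} [AddCommGroup V] [Module ℚ V] {B : LinearMap.BilinForm ℚ V}
    {K K' : AddSubgroup V} {N : ℕ} (h : HIso N B K K') :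
    QEq (hB (N : ℚ) B) (hL K) (hB (N : ℚ) B) (hL K') := by
  obtain ⟨φ, h1, h2⟩ := h
  exact QEq_of_iso φ one_pos (fun x y => by rw [h1, one_mul]) h2

theorem g1_noQ1 (p : ℕ × ℕ) : p ∉ Q1.X.F.fb := by
  have h : Q1.X.F.fb = [] := rfl
  rw [h]
  exact List.not_mem_nil

theorem g1_noP4 (p : ℕ × ℕ) : p ∉ P4.X.F.fb := by
  have h : P4.X.F.fb = [] := rfl
  rw [h]
  exact List.not_mem_nil

theorem g1_noP2 (p : ℕ × ℕ) : p ∉ P2.X.F.fb := by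
  have h : P2.X.F.fb = [] := rfl
  rw [h]
  exact List.not_mem_nil

theorem g1_noP3 (p : ℕ × ℕ) : p ∉ P3.X.F.fb := by
  have h : P3.X.F.fb = [] := rfl
  rw [h]
  exact List.not_mem_nil

/-- Row [RH-G1]: one family: `family_leaf`, then `leaf` (`CF_of_QEq`), `QEq_trans`. -/
theorem fam_class {X : FX} {Ts : List Tree} {ps : List (List ℕ)} {cert : List (ℕ × ℕ)}
    {cands : List (List ℕ × ℕ)} {Ns : List ℕ} {Js : List (List (List ℤ))}
    (h : FamOK X Ts ps cert cands Ns Js) {m : Fin 5 → ℕ} (hm : MOK m)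
    (hc : Cls X.kd (Bm X.A m) (KH X.H)) {N₂ : ℕ} (hN : N₂ = 1 ∨ N₂ = 2) (hN' : N₂ ∈ Ns)
    (hC : CF (hB (N₂ : ℚ) (Bm X.A m)) (hL (KH X.H)))
    (hcond : condB X ((List.finRange 5).map fun i => m i % 8) = true)
    (hfbs : ∀ p ∈ ps, ∀ i j : Fin 5, ((i : ℕ), (j : ℕ)) ∈ X.F.fb →
      ∀ a b : Fin 5, (a : ℕ) = p.getD i 0 → (b : ℕ) = p.getD j 0 → m a ≠ m b) :
    ∃ i < Js.length, QEq (hB (N₂ : ℚ) (Bm X.A m)) (hL (KH X.H)) (BQ (ofL (Js.getD i []))) Z7 := by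
  obtain ⟨c, hc', hq⟩ :=
    family_leaf h.ok h.light h.heavy h.cover h.cand hm hc hN hC hcond hfbs
  have hs : ∀ x y, hB (N₂ : ℚ) (Bm X.A m) x y = hB (N₂ : ℚ) (Bm X.A m) y x :=
    g1_hB_symm (g1_Bm_symm X.A m) N₂
  have hC' := CF_of_QEq hs hq hC
  obtain ⟨i, hi, hq'⟩ := h.leaf c hc' N₂ hN' hN hC'
  exact ⟨i, hi, QEq_trans hq hq'⟩

/-- Row [RH-G1]: a lattice `K` given by a pattern: `Rep` transports the class and the cusp condition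
(`cls_transport`, `qeq_hyp` of T6, `CF_of_QEq`) to `(KH X.H, Bm X.A m)`. -/
theorem fam_rep {X : FX} {Ts : List Tree} {ps : List (List ℕ)} {cert : List (ℕ × ℕ)}
    {cands : List (List ℕ × ℕ)} {Ns : List ℕ} {Js : List (List (List ℤ))}
    (h : FamOK X Ts ps cert cands Ns Js) {m : Fin 5 → ℕ} (hm : MOK m)
    {B : LinearMap.BilinForm ℚ V5} {K : AddSubgroup V5} (hr : Rep X.A X.H m B K)
    (hc : Cls X.kd B K) {N₂ : ℕ} (hN : N₂ = 1 ∨ N₂ = 2) (hN' : N₂ ∈ Ns)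
    (hC : CF (hB (N₂ : ℚ) B) (hL K))
    (hcond : Cls X.kd (Bm X.A m) (KH X.H) →
      condB X ((List.finRange 5).map fun i => m i % 8) = true ∧
      ∀ p ∈ ps, ∀ i j : Fin 5, ((i : ℕ), (j : ℕ)) ∈ X.F.fb →
        ∀ a b : Fin 5, (a : ℕ) = p.getD i 0 → (b : ℕ) = p.getD j 0 → m a ≠ m b) :
    ∃ i < Js.length, QEq (hB (N₂ : ℚ) B) (hL K) (BQ (ofL (Js.getD i []))) Z7 := by
  obtain ⟨ψ, h1, h2⟩ := hr
  have hc2 : Cls X.kd (Bm X.A m) (KH X.H) := (cls_transport ψ h1 h2 X.kd).1 hc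
  have hq : QEq (hB (N₂ : ℚ) B) (hL K) (hB (N₂ : ℚ) (Bm X.A m)) (hL (KH X.H)) :=
    qeq_hyp ψ h1 h2 N₂
  have hsB : ∀ x y, B x y = B y x := fun x y => by
    rw [← h1 x y, ← h1 y x, g1_Bm_symm]
  have hC' := CF_of_QEq (g1_hB_symm hsB N₂) hq hC
  obtain ⟨hc3, hfbs⟩ := hcond hc2
  obtain ⟨i, hi, hq'⟩ := fam_class h hm hc2 hN hN' hC' hc3 hfbs
  exact ⟨i, hi, QEq_trans hq hq'⟩

/-- Row [RH-G1]: the classification of the lattices with the cusp condition.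

Proof.  `InFam`: `B5, K, N` with `QEq B L (hB N B5) (hL K)`; `CF (hB N B5) (hL K)` by `CF_of_QEq`; so
`Ctx N B5 K`.
`F_Q`: `frame_FQ`, then `pat_FQ` for `K'` (isometric: `HIso` gives `QEq (hB N B5) (hL K) (hB N B5)
(hL K')` by `QEq_of_iso` with `c = 1`).  Cases `Q1`, `Q5`, `Q8`: `fam_rep` with `condQ1`, `condQ5`,
`condQ8` (the families without conditions on pairs have `X.F.fb = []`, so the second part of
`hcond` is empty there).
`F_0`: `frame_F0`; if framed, `pat_F0`, `condP4`; otherwise `ex`.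
`F_2`, `N = 1`: `frame_F2`, `pat_F2`, `condP2`, `condP3`, `condP6`, `condP7`. -/
theorem class44 {Js : List (List (List ℤ))} (hA : AllFam Js) {V : Type*} [AddCommGroup V]
    [Module ℚ V] {B : LinearMap.BilinForm ℚ V} (hs : ∀ x y, B x y = B y x) {L : AddSubgroup V}
    (hI : InFam B L) (hC : CF B L) :
    ∃ i < Js.length, QEq B L (BQ (ofL (Js.getD i []))) Z7 := by
  obtain ⟨B5, K, N, hq, hbig, hF⟩ := hI
  have hC5 : CF (hB (N : ℚ) B5) (hL K) := CF_of_QEq hs hq hC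
  suffices hmain : ∃ i < Js.length, QEq (hB (N : ℚ) B5) (hL K) (BQ (ofL (Js.getD i []))) Z7 by
    obtain ⟨i, hi, h⟩ := hmain
    exact ⟨i, hi, QEq_trans hq h⟩
  rcases hF with ⟨hF, hN⟩ | ⟨hF, hN⟩ | ⟨hF, hN⟩
  · obtain ⟨K', hX', hF', hi', hf'⟩ := frame_FQ (N := N) ⟨hN, hC5, hbig⟩ hF
    have hq' := g1_HIso_QEq hi'
    suffices hmain : ∃ i < Js.length, QEq (hB (N : ℚ) B5) (hL K') (BQ (ofL (Js.getD i []))) Z7 by
      obtain ⟨i, hi, h⟩ := hmain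
      exact ⟨i, hi, QEq_trans hq' h⟩
    have hNm : N ∈ [1, 2] := by rcases hN with rfl | rfl <;> simp
    obtain ⟨m, hm, hr | ⟨hr, hne⟩ | ⟨hr, hne, hne'⟩⟩ := pat_FQ hF' hX'.big hf'
    · exact fam_rep hA.q1 hm hr hF' hN hNm hX'.cf (fun hc => ⟨condQ1 hm hc, fun p _ i j hij =>
        absurd hij (g1_noQ1 _)⟩)
    · exact fam_rep hA.q5 hm hr hF' hN hNm hX'.cf (fun hc => condQ5 hm hc hne)
    · exact fam_rep hA.q8 hm hr hF' hN hNm hX'.cf (fun hc => condQ8 hm hc hne hne')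
  · obtain ⟨K', hX', hF', hi', hf'⟩ := frame_F0 (N := N) ⟨hN, hC5, hbig⟩ hF
    have hq' := g1_HIso_QEq hi'
    suffices hmain : ∃ i < Js.length, QEq (hB (N : ℚ) B5) (hL K') (BQ (ofL (Js.getD i []))) Z7 by
      obtain ⟨i, hi, h⟩ := hmain
      exact ⟨i, hi, QEq_trans hq' h⟩
    have hNm : N ∈ [1, 2] := by rcases hN with rfl | rfl <;> simp
    rcases hf' with hf' | hf'
    · obtain ⟨m, hm, hr⟩ := pat_F0 hF' hX'.big hf'
      exact fam_rep hA.p4 hm hr hF' hN hNm hX'.cf (fun hc => ⟨condP4 hm hc, fun p _ i j hij =>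
        absurd hij (g1_noP4 _)⟩)
    · exact hA.ex B5 K' N hN hF'.symm hf' hX'.cf
  · obtain ⟨K', hX', hF', hi', hf'⟩ := frame_F2 (N := N) ⟨Or.inl hN, hC5, hbig⟩ hF
    obtain ⟨K'', hX'', hF'', hi'', m, hm, hr⟩ := pat_F2 hX' hF' hf'
    have hq' := QEq_trans (g1_HIso_QEq hi') (g1_HIso_QEq hi'')
    suffices hmain : ∃ i < Js.length, QEq (hB (N : ℚ) B5) (hL K'') (BQ (ofL (Js.getD i []))) Z7 by
      obtain ⟨i, hi, h⟩ := hmain
      exact ⟨i, hi, QEq_trans hq' h⟩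
    have hNm : N ∈ [1] := by rw [hN]; simp
    rcases hr with hr | ⟨hr, hh⟩ | ⟨hr, hh⟩ | ⟨hr, hh⟩
    · exact fam_rep hA.p2 hm hr hF'' (Or.inl hN) hNm hX''.cf (fun hc => ⟨condP2 hm hc,
        fun p _ i j hij => absurd hij (g1_noP2 _)⟩)
    · exact fam_rep hA.p3 hm hr hF'' (Or.inl hN) hNm hX''.cf (fun hc => ⟨condP3 hm hc hh,
        fun p _ i j hij => absurd hij (g1_noP3 _)⟩)
    · exact fam_rep hA.p6 hm hr hF'' (Or.inl hN) hNm hX''.cf (fun hc => condP6 hm hc hh)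
    · exact fam_rep hA.p7 hm hr hF'' (Or.inl hN) hNm hX''.cf (fun hc => condP7 hm hc hh)

end RH6
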