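import Pool.Agent.RH6.G1
import Pool.Agent.RH6.G2
import Pool.Agent.RH6.A2
import Pool.Agent.RH6.A6b

open Matrix

namespace RH6

theorem g3_cast (G : Matrix (Fin 7) (Fin 7) ℤ) (x y : Fin 7 → ℚ) :
    ((BQ G x y : ℚ) : ℝ) = bR G (fun i => (x i : ℝ)) (fun i => (y i : ℝ)) := by
  rw [BQ_apply]
  unfold bR mQ
  simp [dotProduct, mulVec]

theorem g3_BQ_int (G : Matrix (Fin 7) (Fin 7) ℤ) (x y : Fin 7 → ℤ) :
    BQ G (fun i => (x i : ℚ)) (fun i => (y i : ℚ)) = ((bZ G x y : ℤ) : ℚ) := by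
  rw [BQ_apply]
  unfold bZ mQ
  simp [dotProduct, mulVec]

theorem g3_sig {G : Matrix (Fin 7) (Fin 7) ℤ} {h : Fin 7 → ℤ} (hL : Lor G h) : Sig (BQ G) := by
  refine ⟨fun i => (h i : ℚ), ?_, ?_⟩
  · rw [g3_BQ_int]
    exact_mod_cast hL.neg
  · intro x hx hx0
    have h1 : bR G (fun i => (x i : ℝ)) (toR h) = 0 := by
      have h2 := g3_cast G x (fun i => (h i : ℚ))
      rw [hx] at h2
      have h3 : (toR h) = fun i => (((h i : ℚ)) : ℝ) := by
        funext i
        simp [toR]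
      rw [h3, ← h2]
      simp
    have h4 : (fun i => (x i : ℝ)) ≠ 0 := by
      intro h5
      apply hx0
      funext i
      have h6 := congrFun h5 i
      simpa using h6
    have h7 := hL.pos _ h1 h4
    rw [← g3_cast] at h7
    exact_mod_cast h7

theorem g3_WP_le (P : GL (Fin 7) ℝ) : WP P ≤ latGroup P := by
  unfold WP
  rw [Subgroup.closure_le]
  intro g hg
  exact hg.1

theorem g3_map (G : Matrix (Fin 7) (Fin 7) ℤ) :
    (mQ G).map (fun q : ℚ => (q : ℝ)) = mR G := by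
  ext i j
  simp [mQ, mR]

/-- Row [RH-G3]: a reflection group contained in `latGroup P` is contained in `WP P`. -/
theorem refl_le {Γ : Subgroup (GL (Fin 7) ℝ)} (hr : IsReflGroup Γ) {P : GL (Fin 7) ℝ}
    (h : Γ ≤ latGroup P) : Γ ≤ WP P := by
  have h1 : Γ = Subgroup.closure {g | g ∈ Γ ∧ IsReflection g} := hr
  rw [h1]
  exact Subgroup.closure_mono (fun g hg => ⟨h hg.1, hg.2⟩)

/-- Row [RH-G3]: `WP P` is a non-uniform arithmetic reflection group if it has finite index in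
`latGroup P` and the form is isotropic (`S = mQ G`). -/
theorem WP_good {P : GL (Fin 7) ℝ} {G : Matrix (Fin 7) (Fin 7) ℤ}
    (hP : P.1ᵀ * J0 * P.1 = mR G) (hf : (WP P).relIndex (latGroup P) ≠ 0) {x : Fin 7 → ℤ}
    (hx : x ≠ 0) (hx0 : bZ G x x = 0) : IsNonunif (WP P) ∧ IsArith (WP P) ∧ IsReflGroup (WP P) := by
  have hle : WP P ≤ latGroup P := g3_WP_le P
  have hle2 : WP P ≤ IsomH6 := fun g hg => (hle hg).1
  have hc : (WP P).Commensurable (latGroup P) := by
    refine ⟨hf, ?_⟩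
    rw [Subgroup.relIndex_eq_one.2 hle]
    exact one_ne_zero
  have hS : P.1ᵀ * J0 * P.1 = (mQ G).map (fun q : ℚ => (q : ℝ)) := by
    rw [g3_map, hP]
  refine ⟨⟨hle2, P, mQ G, hS, hc, fun i => (x i : ℚ), ?_, ?_⟩, ⟨hle2, P, mQ G, hS, hc⟩, ?_⟩
  · intro h0
    apply hx
    funext i
    have := congrFun h0 i
    simpa using this
  · have h1 := g3_BQ_int G x x
    rw [BQ_apply, hx0] at h1
    simpa using h1
  · show WP P = Subgroup.closure {g | g ∈ WP P ∧ IsReflection g}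
    apply le_antisymm
    · exact Subgroup.closure_mono (fun g hg => ⟨Subgroup.subset_closure hg, hg.2⟩)
    · rw [Subgroup.closure_le]
      intro g hg
      exact hg.1

/-- Row [RH-G3]: a maximal group comes from one of the lattices.

Proof.  `nf_nonunif`: `P, G` with `EvenElem G`, isotropic, `Γ ≤ latGroup P`, commensurable.
`Γ ≤ WP P` (`refl_le`), so `(WP P).relIndex (latGroup P) ≠ 0`.  `exists_h`, `relIndex_iff`,
`tor_of_index`, `CF_Z7`: `CF (BQ G) Z7`.  `BQ_nice`, `Sig (BQ G)` (from `Lor`: take `h` as a rational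
vector; positivity for rational vectors from the real ones), `Z7_isLat`, `BQ_even`, `BQ_elem`,
the isotropic vector: `families` gives `InFam (BQ G) Z7`.  `class44` gives `i`; `hq` gives
`QEq (BQ G) Z7 (BQ (ofL (hypL 1 (Ks.getD i [])))) Z7`; `latGroup_of_QEq` gives `P'` with
`latGroup P' = latGroup P`, so `WP P' = WP P`.
If `i` is not reflective (`hn`): by `relIndex_iff` for `P'`, `exists_h`, `OG_eq`, `tor_of_index` all
elements of `OG (ofL (hypL 1 K)) (vecL hU)` have a power in `WG`, contradiction.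
Otherwise `WP P'` is a non-uniform arithmetic reflection group (`WP_good`; `(1,0,…)` is isotropic,
or transport) containing `Γ`, so `Γ = WP P'` by maximality. -/
theorem max_is_listed {Js : List (List (List ℤ))} (hA : AllFam Js) {Ks : List (List (List ℤ))}
    (hq : ∀ i < Js.length, QEq (BQ (ofL (Js.getD i []))) Z7 (BQ (ofL (hypL 1 (Ks.getD i [])))) Z7)
    (hL : ∀ i < Js.length, Lor (ofL (hypL 1 (Ks.getD i []))) (vecL hU)) {n : ℕ}
    (hn : ∀ i < Js.length, n ≤ i → ¬ ∀ g ∈ OG (ofL (hypL 1 (Ks.getD i []))) (vecL hU),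
      ∃ m : ℕ, 0 < m ∧ g ^ m ∈ WG (ofL (hypL 1 (Ks.getD i []))))
    {Γ : Subgroup (GL (Fin 7) ℝ)} (hΓ : IsMax Γ) :
    ∃ i < n, ∃ P : GL (Fin 7) ℝ, P.1ᵀ * J0 * P.1 = mR (ofL (hypL 1 (Ks.getD i []))) ∧
      Γ = WP P := by
  obtain ⟨P, G, hP, hG, ⟨x, hx, hx0⟩, hle, hcomm⟩ := nf_nonunif hΓ.1
  have hΓW : Γ ≤ WP P := refl_le hΓ.2.1 hle
  have hf : (WP P).relIndex (latGroup P) ≠ 0 := by
    intro h0
    apply hcomm.1
    have := Subgroup.relIndex_dvd_of_le_left (latGroup P) hΓW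
    rw [h0] at this
    exact Nat.eq_zero_of_zero_dvd this
  obtain ⟨h, hLo, hfw⟩ := exists_h hP
  have hidx := (relIndex_iff hP hLo hfw).1 hf
  have hCF : CF (BQ G) Z7 := CF_Z7 hLo (tor_of_index hidx)
  have hnice : Nice (BQ G) := BQ_nice hLo
  have hFam : InFam (BQ G) Z7 := by
    refine families hnice (g3_sig hLo) Z7_isLat (by simp) (BQ_even hG) (BQ_elem hG)
      ⟨fun i => (x i : ℚ), ?_, ?_⟩
    · intro h0
      apply hx
      funext i
      have := congrFun h0 i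
      simpa using this
    · rw [g3_BQ_int, hx0]
      simp
  obtain ⟨i, hi, hq1⟩ := class44 hA hnice.symm hFam hCF
  obtain ⟨P', hP', hlat⟩ := latGroup_of_QEq hP (QEq_trans hq1 (hq i hi))
  have hWP : WP P' = WP P := WP_of_lat hlat
  by_cases hin : i < n
  · refine ⟨i, hin, P', hP', ?_⟩
    obtain ⟨hg1, hg2, hg3⟩ := WP_good hP hf hx hx0
    rw [hWP]
    exact (hΓ.2.2 (WP P) hg2 hg3 hΓW).symm
  · exfalso
    apply hn i hi (not_lt.1 hin)
    obtain ⟨h', hL', hfw'⟩ := exists_h hP'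
    have hf' : (WP P').relIndex (latGroup P') ≠ 0 := by
      rw [hWP, hlat]
      exact hf
    have hidx' := (relIndex_iff hP' hL' hfw').1 hf'
    rw [OG_eq hL' (hL i hi)] at hidx'
    exact tor_of_index hidx'

end RH6
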