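import Pool.Agent.RH6.A2
import Pool.Agent.RH6.G2
import Pool.Agent.RH6.G3
import Pool.Agent.RH6.E4
import Pool.Agent.RH6.Z3

open Matrix

namespace RH6

theorem g4_mR_smul (s : ℤ) (G : Matrix (Fin 7) (Fin 7) ℤ) : mR (s • G) = (s : ℝ) • mR G := by
  unfold mR
  ext i j
  change ((s * G i j : ℤ) : ℝ) = (s : ℝ) * ((G i j : ℤ) : ℝ)
  push_cast
  rfl

theorem g4_mR_inj {G G' : Matrix (Fin 7) (Fin 7) ℤ} (h : mR G = mR G') : G = G' := by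
  ext i j
  have := congrFun (congrFun h i) j
  unfold mR at this
  simpa using this

theorem g4_mR_mul (G G' : Matrix (Fin 7) (Fin 7) ℤ) : mR (G * G') = mR G * mR G' := by
  unfold mR
  ext i j
  simp [Matrix.mul_apply]

theorem g4_mR_tr (G : Matrix (Fin 7) (Fin 7) ℤ) : mR Gᵀ = (mR G)ᵀ := rfl

theorem g4_iota (U : GL (Fin 7) ℤ) : (iota U).1 = mR U.1 := rfl

/-- `√s P` -/
theorem g4_scale {c : ℝ} (hc : 0 < c) (P : GL (Fin 7) ℝ) : ∃ P₁ : GL (Fin 7) ℝ, P₁.1 = c • P.1 := by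
  refine ⟨⟨c • P.1, c⁻¹ • (P⁻¹).1, ?_, ?_⟩, rfl⟩
  · have h : P.1 * (P⁻¹).1 = 1 := by
      have h1 : P * P⁻¹ = 1 := mul_inv_cancel P
      have h3 : (P * P⁻¹).1 = P.1 * (P⁻¹).1 := rfl
      rw [← h3, h1]; rfl
    rw [Matrix.smul_mul, Matrix.mul_smul, smul_smul, mul_inv_cancel₀ hc.ne', one_smul, h]
  · have h : (P⁻¹).1 * P.1 = 1 := by
      have h1 : P⁻¹ * P = 1 := inv_mul_cancel P
      have h3 : (P⁻¹ * P).1 = (P⁻¹).1 * P.1 := rfl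
      rw [← h3, h1]; rfl
    rw [Matrix.smul_mul, Matrix.mul_smul, smul_smul, inv_mul_cancel₀ hc.ne', one_smul, h]

theorem g4_form {c : ℝ} {P P₁ : GL (Fin 7) ℝ} (h : P₁.1 = c • P.1) :
    P₁.1ᵀ * J0 * P₁.1 = (c * c) • (P.1ᵀ * J0 * P.1) := by
  rw [h, Matrix.transpose_smul, Matrix.smul_mul, Matrix.smul_mul, Matrix.mul_smul, smul_smul]

theorem g4_lat_iota (P' : GL (Fin 7) ℝ) (U : GL (Fin 7) ℤ) : latGroup (P' * iota U) = latGroup P' := by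
  ext g
  constructor
  · rintro ⟨hg, h, hh⟩
    refine ⟨hg, U * h * U⁻¹, ?_⟩
    have h1 : g * P' * iota U = P' * iota U * iota h := by rw [mul_assoc, hh]
    calc g * P' = g * P' * iota U * (iota U)⁻¹ := by rw [mul_inv_cancel_right]
      _ = P' * iota U * iota h * (iota U)⁻¹ := by rw [h1]
      _ = P' * iota (U * h * U⁻¹) := by rw [map_mul, map_mul, map_inv]; simp only [mul_assoc]
  · rintro ⟨hg, h, hh⟩
    refine ⟨hg, U⁻¹ * h * U, ?_⟩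
    calc g * (P' * iota U) = g * P' * iota U := by rw [mul_assoc]
      _ = P' * iota h * iota U := by rw [hh]
      _ = P' * iota U * iota (U⁻¹ * h * U) := by
        rw [map_mul, map_mul, map_inv]
        simp only [mul_assoc, mul_inv_cancel_left]

theorem g4_J0_symm (x y : Fin 7 → ℝ) : x ⬝ᵥ (J0 *ᵥ y) = y ⬝ᵥ (J0 *ᵥ x) := by
  have h : J0ᵀ = J0 := by unfold J0; rw [Matrix.diagonal_transpose]
  rw [Matrix.dotProduct_mulVec, ← Matrix.mulVec_transpose, h, dotProduct_comm]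

theorem g4_bR {P : GL (Fin 7) ℝ} {G : Matrix (Fin 7) (Fin 7) ℤ} (hP : P.1ᵀ * J0 * P.1 = mR G)
    (x y : Fin 7 → ℝ) : bR G x y = (P.1 *ᵥ x) ⬝ᵥ (J0 *ᵥ (P.1 *ᵥ y)) := by
  unfold bR
  change x ⬝ᵥ (mR G *ᵥ y) = _
  rw [← hP, ← Matrix.mulVec_mulVec, ← Matrix.mulVec_mulVec, Matrix.dotProduct_mulVec,
    ← Matrix.mulVec_transpose, Matrix.transpose_transpose]

/-- the reflection in `P r` -/
theorem g4_refl {P : GL (Fin 7) ℝ} {J : Matrix (Fin 7) (Fin 7) ℤ} (hP : P.1ᵀ * J0 * P.1 = mR J)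
    {r : Fin 7 → ℤ} (hpos : 0 < bZ J r r) (hd : ∀ x : Fin 7 → ℤ, bZ J r r ∣ 2 * bZ J x r) :
    ∃ γ ∈ WP P, ∀ x, γ.1 *ᵥ x = x - (2 * (x ⬝ᵥ (J0 *ᵥ (P.1 *ᵥ toR r))) /
        ((P.1 *ᵥ toR r) ⬝ᵥ (J0 *ᵥ (P.1 *ᵥ toR r)))) • (P.1 *ᵥ toR r) := by
  obtain ⟨h, hL, hf⟩ := exists_h hP
  obtain ⟨g, hg, hgr⟩ := exists_refl hL hpos hd
  have hmem : P * iota g * P⁻¹ ∈ latGroup P := (mem_latGroup_iff hP hL hf g).2 hg
  have hPP : P.1 * (P⁻¹).1 = 1 := by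
    have h1 : P * P⁻¹ = 1 := mul_inv_cancel P
    have h3 : (P * P⁻¹).1 = P.1 * (P⁻¹).1 := rfl
    rw [← h3, h1]; rfl
  have hn : (P.1 *ᵥ toR r) ⬝ᵥ (J0 *ᵥ (P.1 *ᵥ toR r)) = (bZ J r r : ℝ) := by
    rw [← g4_bR hP, bR_toR]
  have hform : ∀ x, (P * iota g * P⁻¹).1 *ᵥ x = x - (2 * (x ⬝ᵥ (J0 *ᵥ (P.1 *ᵥ toR r))) /
        ((P.1 *ᵥ toR r) ⬝ᵥ (J0 *ᵥ (P.1 *ᵥ toR r)))) • (P.1 *ᵥ toR r) := by
    intro x
    have hb : (bZ J r r : ℝ) ≠ 0 := by exact_mod_cast hpos.ne'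
    have e1 : (P * iota g * P⁻¹).1 = P.1 * (iota g).1 * (P⁻¹).1 := rfl
    have e2 : (P * iota g * P⁻¹).1 *ᵥ x = P.1 *ᵥ (actR g ((P⁻¹).1 *ᵥ x)) := by
      rw [e1, ← Matrix.mulVec_mulVec, ← Matrix.mulVec_mulVec]
      rfl
    have e3 := refl_actR hgr ((P⁻¹).1 *ᵥ x)
    have e4 : actR g ((P⁻¹).1 *ᵥ x) = (P⁻¹).1 *ᵥ x -
        (2 * bR J ((P⁻¹).1 *ᵥ x) (toR r) / (bZ J r r : ℝ)) • toR r := by
      have e5 := congrArg (fun v => ((bZ J r r : ℝ))⁻¹ • v) e3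
      simp only [smul_smul, inv_mul_cancel₀ hb, one_smul, smul_sub] at e5
      rw [e5]
      congr 2
      ring
    rw [e2, e4, Matrix.mulVec_sub, Matrix.mulVec_mulVec, hPP, Matrix.one_mulVec,
      Matrix.mulVec_smul, hn, g4_bR hP, Matrix.mulVec_mulVec, hPP, Matrix.one_mulVec]
  refine ⟨P * iota g * P⁻¹, Subgroup.subset_closure ⟨hmem, P.1 *ᵥ toR r, ?_, hform⟩, hform⟩
  rw [hn]
  exact_mod_cast hpos

theorem g4_main {J : Matrix (Fin 7) (Fin 7) ℤ} {P P' : GL (Fin 7) ℝ}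
    (hP : P.1ᵀ * J0 * P.1 = mR J) {G : Matrix (Fin 7) (Fin 7) ℤ}
    (hP' : P'.1ᵀ * J0 * P'.1 = mR G) (hG : EvenElem G) (hM : Min4 G)
    (h : WP P ≤ latGroup P') {s r : ℕ} {E : Fin r → (Fin 7 → ℤ)} {b : Fin r → ℕ}
    (hs : s = 1 ∨ s = 2) (hm : MaxData ((s : ℤ) • J) E b) :
    latGroup P = latGroup P' ∧ ∃ U : Matrix (Fin 7) (Fin 7) ℤ, Uᵀ * G * U = (s : ℤ) • J := by
  have hs0 : 0 < s := by omega
  have hsR : (0 : ℝ) < s := by exact_mod_cast hs0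
  have hsq : (0 : ℝ) < Real.sqrt s := Real.sqrt_pos.2 hsR
  obtain ⟨P₁, hP₁⟩ := g4_scale hsq P
  have hF : P₁.1ᵀ * J0 * P₁.1 = mR ((s : ℤ) • J) := by
    rw [g4_form hP₁, hP, Real.mul_self_sqrt hsR.le, g4_mR_smul]
    norm_num
  have hbil : ∀ x y, bZ ((s : ℤ) • J) x y = s * bZ J x y := by
    intro x y
    unfold bZ
    rw [Matrix.smul_mulVec, dotProduct_smul, smul_eq_mul]
  have hr : ∀ k, ∃ γ ∈ latGroup P', ∀ x, γ.1 *ᵥ x = x -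
      (2 * (x ⬝ᵥ (J0 *ᵥ (P₁.1 *ᵥ toR (E k)))) /
        ((P₁.1 *ᵥ toR (E k)) ⬝ᵥ (J0 *ᵥ (P₁.1 *ᵥ toR (E k))))) • (P₁.1 *ᵥ toR (E k)) := by
    intro k
    have hbk : 0 < b k := Nat.pos_of_ne_zero (hm.rs.sq k).ne_zero
    have hnk : (s : ℤ) * bZ J (E k) (E k) = 2 * (b k : ℤ) := by rw [← hbil]; exact hm.rs.nrm k
    have hsZ : (0 : ℤ) < s := by exact_mod_cast hs0
    have hpos : 0 < bZ J (E k) (E k) := by
      have : (0 : ℤ) < (s : ℤ) * bZ J (E k) (E k) := by rw [hnk]; positivity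
      exact (mul_pos_iff_of_pos_left hsZ).1 this
    have hd : ∀ x : Fin 7 → ℤ, bZ J (E k) (E k) ∣ 2 * bZ J x (E k) := by
      intro x
      have h1 : (b k : ℤ) ∣ bZ ((s : ℤ) • J) x (E k) := by
        unfold bZ
        exact Finset.dvd_sum fun i _ => Dvd.dvd.mul_left (hm.rs.dvd k i) _
      obtain ⟨m, hmm⟩ := h1
      rw [hbil] at hmm
      refine ⟨m, ?_⟩
      have : (s : ℤ) * (2 * bZ J x (E k)) = (s : ℤ) * (bZ J (E k) (E k) * m) := by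
        rw [← mul_assoc (s : ℤ) (bZ J (E k) (E k)) m, hnk]
        linear_combination 2 * hmm
      exact mul_left_cancel₀ hsZ.ne' this
    obtain ⟨γ, hγ, hγf⟩ := g4_refl hP hpos hd
    refine ⟨γ, h hγ, fun x => ?_⟩
    rw [hγf x]
    have e1 : P₁.1 *ᵥ toR (E k) = Real.sqrt s • (P.1 *ᵥ toR (E k)) := by
      rw [hP₁, Matrix.smul_mulVec]
    have hne : (P.1 *ᵥ toR (E k)) ⬝ᵥ (J0 *ᵥ (P.1 *ᵥ toR (E k))) ≠ 0 := by
      rw [← g4_bR hP, bR_toR]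
      exact_mod_cast hpos.ne'
    rw [e1, Matrix.mulVec_smul, smul_dotProduct, dotProduct_smul, dotProduct_smul, smul_smul]
    congr 2
    simp only [smul_eq_mul]
    have h2 : Real.sqrt s ≠ 0 := hsq.ne'
    field_simp
  obtain ⟨U, hU⟩ := max_main hm hG hM hF hP' hr
  refine ⟨?_, U.1, ?_⟩
  · rw [← latGroup_smul hsq.ne' hP₁, hU, g4_lat_iota]
  · apply g4_mR_inj
    rw [← hF, hU]
    have e1 : (P' * iota U).1 = P'.1 * mR U.1 := rfl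
    rw [e1, Matrix.transpose_mul, g4_mR_mul, g4_mR_mul, g4_mR_tr, ← hP']
    simp only [Matrix.mul_assoc]

/-- Row [RH-G4]: rigidity.  Let `(K, s, E, b)` be as in `RefData` (`J = ofL (hypL 1 K)`), `P` a real
matrix with `Pᵀ J0 P = J`, and `P'ᵀ J0 P' = G`, `G` even elementary with `Min4`, such that
`WP P ≤ latGroup P'`.  Then `√s P = P' U` for some `U ∈ GL₇(ℤ)`; in particular
`latGroup P = latGroup P'` and `s J = Uᵀ G U`.

Proof.  `P₁ = √s P` satisfies `P₁ᵀ J0 P₁ = s J`.  For every `k` the reflection in `P₁ E_k` is the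
reflection in `P E_k`; it lies in `latGroup P` (`E_k` satisfies `(E_k,E_k) = 2b_k ∣ 2 (s J E_k)_i`, so the
reflection is integral; it is in `IsomH6`, `refl_mem_OG`), so in `WP P ≤ latGroup P'`.  `max_main`. -/
theorem rigid {K : List (List ℤ)} (hK : RefData K) {P P' : GL (Fin 7) ℝ}
    (hP : P.1ᵀ * J0 * P.1 = mR (ofL (hypL 1 K))) {G : Matrix (Fin 7) (Fin 7) ℤ}
    (hP' : P'.1ᵀ * J0 * P'.1 = mR G) (hG : EvenElem G) (hM : Min4 G)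
    (h : WP P ≤ latGroup P') :
    latGroup P = latGroup P' ∧ ∀ (s r : ℕ) (E : Fin r → (Fin 7 → ℤ)) (b : Fin r → ℕ),
      (s = 1 ∨ s = 2) → MaxData ((s : ℤ) • ofL (hypL 1 K)) E b →
      ∃ U : Matrix (Fin 7) (Fin 7) ℤ, Uᵀ * G * U = (s : ℤ) • ofL (hypL 1 K) := by
  obtain ⟨s, r, E, b, hs, hm⟩ := hK.max
  exact ⟨(g4_main hP hP' hG hM h hs hm).1, fun s r E b hs hm => (g4_main hP hP' hG hM h hs hm).2⟩

theorem g4_len {K : List (List ℤ)} {D : ℕ} {c : List ℕ} {T : List (List ℤ)}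
    (h : pdB K D c T = true) : K.length = 5 ∧ ∀ r ∈ K, r.length = 5 := by
  unfold pdB at h
  simp only [Bool.and_eq_true, List.all_eq_true] at h
  obtain ⟨⟨⟨⟨⟨⟨⟨⟨h1, h2⟩, -⟩, -⟩, -⟩, -⟩, -⟩, -⟩, -⟩ := h
  exact ⟨Nat.eq_of_beq_eq_true h1, fun r hr => Nat.eq_of_beq_eq_true (h2 r hr)⟩

theorem g4_WP_le (P : GL (Fin 7) ℝ) : WP P ≤ latGroup P := by
  unfold WP
  rw [Subgroup.closure_le]
  rintro g ⟨hg, -⟩
  exact hg

/-- Row [RH-G4]: `WP P` is maximal.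

Proof.  `Lor` by `lor_hyp`; `exists_h`, `OG_eq`, `relIndex_iff`: finite index; `WP_good` (isotropic
vector `(1,0,…)`).  Let `Γ' ≥ WP P` be an arithmetic reflection group.  `comm_of_over`: `Γ'` is
commensurable with `latGroup P`, so it is `IsNonunif` (with `P`, `S = mQ J`).  `nf_min`: `P', G`,
`Γ' ≤ latGroup P'`.  `rigid`: `latGroup P = latGroup P'`.  So `Γ' ≤ latGroup P`, `Γ' ≤ WP P`
(`refl_le`-type argument: `Γ'` is generated by reflections in `latGroup P`). -/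
theorem isMax_WP {K : List (List ℤ)} (hK : RefData K) {P : GL (Fin 7) ℝ}
    (hP : P.1ᵀ * J0 * P.1 = mR (ofL (hypL 1 K))) : IsMax (WP P) := by
  obtain ⟨D, c, T, hpd⟩ := hK.pd
  obtain ⟨hl1, hl2⟩ := g4_len hpd
  have hL0 := lor_hyp hpd hK.sym
  obtain ⟨h, hL, hf⟩ := exists_h hP
  have hidx : (WP P).relIndex (latGroup P) ≠ 0 := by
    rw [relIndex_iff hP hL hf, OG_eq hL hL0]
    exact hK.fin
  have hx : (Pi.single 0 1 : Fin 7 → ℤ) ≠ 0 := by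
    intro h0
    have := congrFun h0 0
    simp at this
  have hx0 : bZ (ofL (hypL 1 K)) (Pi.single 0 1) (Pi.single 0 1) = 0 := by
    rw [ofL_hyp hl1 hl2]
    have e1 : (fun i : Fin 5 => (Pi.single 0 1 : Fin 7 → ℤ) i.succ.succ) = 0 := by
      funext i
      rw [Pi.single_eq_of_ne]
      · rfl
      · exact Fin.succ_ne_zero _
    rw [e1]
    simp
  obtain ⟨hN, hA, hR⟩ := WP_good hP hidx hx hx0
  refine ⟨hN, hR, fun Γ' hA' hR' hle => ?_⟩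
  have hPQ : P.1ᵀ * J0 * P.1 = (mQ (ofL (hypL 1 K))).map (fun q : ℚ => (q : ℝ)) := by
    rw [hP]
    unfold mR mQ
    ext i j
    simp
  have hxq : (Pi.single 0 1 : Fin 7 → ℚ) ≠ 0 := by
    intro h0
    have := congrFun h0 0
    simp at this
  have hxq0 : (Pi.single 0 1 : Fin 7 → ℚ) ⬝ᵥ (mQ (ofL (hypL 1 K)) *ᵥ (Pi.single 0 1 : Fin 7 → ℚ)) = 0 := by
    have e1 : ofL (hypL 1 K) 0 0 = 0 := by
      have := hx0
      unfold bZ at this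
      simpa using this
    unfold mQ
    simp [e1]
  have hcomm : (WP P).Commensurable (latGroup P) := by
    refine ⟨hidx, ?_⟩
    rw [Subgroup.relIndex_eq_one.2 (g4_WP_le P)]
    exact one_ne_zero
  have hc' := comm_of_over hPQ hxq hxq0 hcomm hle hA'
  have hN' : IsNonunif Γ' := ⟨hA'.1, P, _, hPQ, hc', _, hxq, hxq0⟩
  obtain ⟨P', G, hP', hG, hM, -, hle', -⟩ := nf_min hN'
  have hr := (rigid hK hP hP' hG hM (hle.trans hle')).1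
  refine le_antisymm (refl_le hR' ?_) hle
  rw [hr]
  exact hle'

/-- Row [RH-G4]: conjugate groups come from isometric forms.

Proof.  `WP P' = g WP(P) g⁻¹ = WP (g P)` (`WP_conj`) and `(gP)ᵀ J0 (gP) = J`.  Let `s'` be the factor
for `K'`, `P₂ = √s' P'`, `G = s' J'` (`EvenElem` and `Min4` by `MaxData` and `min4_of_det`),
`latGroup P₂ = latGroup P'`.  `rigid` for `K, gP, P₂`. -/
theorem conj_iso {K K' : List (List ℤ)} (hK : RefData K) (hK' : RefData K')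
    {P P' : GL (Fin 7) ℝ} (hP : P.1ᵀ * J0 * P.1 = mR (ofL (hypL 1 K)))
    (hP' : P'.1ᵀ * J0 * P'.1 = mR (ofL (hypL 1 K'))) {g : GL (Fin 7) ℝ} (hg : g ∈ IsomH6)
    (h : WP P' = (WP P).map (MulAut.conj g).toMonoidHom) {s s' r r' : ℕ}
    {E : Fin r → (Fin 7 → ℤ)} {b : Fin r → ℕ} {E' : Fin r' → (Fin 7 → ℤ)} {b' : Fin r' → ℕ}
    (hs : s = 1 ∨ s = 2) (hs' : s' = 1 ∨ s' = 2)
    (hM : MaxData ((s : ℤ) • ofL (hypL 1 K)) E b)
    (hM' : MaxData ((s' : ℤ) • ofL (hypL 1 K')) E' b') :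
    ∃ U : Matrix (Fin 7) (Fin 7) ℤ,
      Uᵀ * ((s' : ℤ) • ofL (hypL 1 K')) * U = (s : ℤ) • ofL (hypL 1 K) := by
  have hs0 : 0 < s' := by omega
  have hsR : (0 : ℝ) < s' := by exact_mod_cast hs0
  have hsq : (0 : ℝ) < Real.sqrt s' := Real.sqrt_pos.2 hsR
  obtain ⟨P₂, hP₂⟩ := g4_scale hsq P'
  have hF : P₂.1ᵀ * J0 * P₂.1 = mR ((s' : ℤ) • ofL (hypL 1 K')) := by
    rw [g4_form hP₂, hP', Real.mul_self_sqrt hsR.le, g4_mR_smul]
    norm_num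
  have hgP : (g * P).1ᵀ * J0 * (g * P).1 = mR (ofL (hypL 1 K)) := by
    have e1 : (g * P).1 = g.1 * P.1 := rfl
    rw [e1, Matrix.transpose_mul, ← hP]
    calc P.1ᵀ * g.1ᵀ * J0 * (g.1 * P.1) = P.1ᵀ * (g.1ᵀ * J0 * g.1) * P.1 := by
          simp only [Matrix.mul_assoc]
      _ = P.1ᵀ * J0 * P.1 := by rw [hg.1]
  have hle : WP (g * P) ≤ latGroup P₂ := by
    rw [WP_conj hg, ← h, latGroup_smul hsq.ne' hP₂]
    exact g4_WP_le P'
  exact (rigid hK hgP hF hM'.nf (min4_of_det hM'.det0 hM'.det4) hle).2 s r E b hs hM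

end RH6
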