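import Pool.Agent.RH6.U1
import Pool.Agent.RH6.C1

open Matrix

namespace RH6

theorem u5_int (A : Matrix (Fin 7) (Fin 7) ℤ) {x : Fin 7 → ℚ} (hx : x ∈ Z7) :
    (mQ A)ᵀ *ᵥ x ∈ Z7 := by
  have hx' : ∀ i, ∃ z : ℤ, x i = z := hx
  choose z hz using hx'
  intro i
  refine ⟨∑ j, A j i * z j, ?_⟩
  rw [Matrix.mulVec, dotProduct]
  push_cast
  refine Finset.sum_congr rfl fun j _ => ?_
  rw [hz j]
  rfl

theorem u5_len {U : List (List ℤ)} (h : len77 U = true) :
    U.length = 7 ∧ ∀ r ∈ U, r.length = 7 := by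
  unfold len77 at h
  rw [Bool.and_eq_true] at h
  refine ⟨Nat.eq_of_beq_eq_true h.1, fun r hr => ?_⟩
  have h2 := List.all_eq_true.1 h.2 r hr
  exact Nat.eq_of_beq_eq_true h2

theorem u5_row {U : List (List ℤ)} (hU : U.length = 7) (i : Fin 7) :
    U.getD (i : ℕ) [] ∈ U := by
  rw [List.getD_eq_getElem (hn := by rw [hU]; exact i.2)]
  exact List.getElem_mem _

theorem u5_vec (U : List (List ℤ)) (i : Fin 7) : vecL (U.getD (i : ℕ) []) = ofL U i := rfl

theorem u5_getD_map {α β : Type*} (f : α → β) (l : List α) (n : ℕ) (d : α) (d' : β)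
    (h : n < l.length) : (l.map f).getD n d' = f (l.getD n d) := by
  rw [List.getD_eq_getElem _ _ (by rwa [List.length_map]), List.getElem_map,
    List.getD_eq_getElem _ _ h]

theorem u5_gram {J G U : List (List ℤ)} (hJ : J.length = 7) (hJr : ∀ r ∈ J, r.length = 7)
    (hU : U.length = 7) (hUr : ∀ r ∈ U, r.length = 7)
    (h : ((mulLL U J).map fun r => U.map fun s => dotL r s) = G) :
    ofL G = ofL U * ofL J * (ofL U)ᵀ := by
  ext i j
  have hi : (i : ℕ) < U.length := by rw [hU]; exact i.2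
  have hj : (j : ℕ) < U.length := by rw [hU]; exact j.2
  have e1 : ofL G i j = dotL (combL (U.getD (i : ℕ) []) J) (U.getD (j : ℕ) []) := by
    show (G.getD (i : ℕ) []).getD (j : ℕ) 0 = _
    rw [← h, mulLL, List.map_map,
      show ((fun r => U.map fun s => dotL r s) ∘ fun r => combL r J) =
        fun r => U.map fun s => dotL (combL r J) s from rfl,
      u5_getD_map (fun r => U.map fun s => dotL (combL r J) s) U i [] [] hi,
      u5_getD_map (fun s => dotL (combL (U.getD (i : ℕ) []) J) s) U j [] 0 hj]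
  have h1 := combL_eq (hUr _ (u5_row hU i)) hJ hJr
  rw [e1, dotL_eq h1.1 (hUr _ (u5_row hU j)), h1.2, u5_vec, u5_vec, Matrix.mul_apply]
  rfl

/-- Row [RH-U5]: an isometry certificate.

Proof.  Let `u_i` be the rows of `U`, `J u_i · u_j = G_ij`; `U V = 1`, so `V U = 1`.  The map
`φ x = ∑ x_i u_i = Uᵀ x` is an isomorphism `ℚ^7 → ℚ^7` with `(φ x, φ y)_J = (x,y)_G` which preserves
`ℤ^7` in both directions; `QEq_of_iso` with `c = 1`. -/
theorem chkIso_sound {J G U V : List (List ℤ)} (h : chkIso J G U V = true) :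
    QEq (BQ (ofL G)) Z7 (BQ (ofL J)) Z7 := by
  unfold chkIso at h
  simp only [Bool.and_eq_true] at h
  obtain ⟨⟨⟨⟨⟨hJ, _⟩, hU⟩, hV⟩, hUV⟩, hGr⟩ := h
  obtain ⟨hJl, hJr, _⟩ := isSym_iff hJ
  obtain ⟨hUl, hUr⟩ := u5_len hU
  obtain ⟨hVl, hVr⟩ := u5_len hV
  have h1 := mulLL_scal hUl hUr hUV hVl hVr
  rw [one_smul] at h1
  have h2 := u5_gram hJl hJr hUl hUr (eqLL_iff.1 hGr)
  have hmul : ∀ A B : Matrix (Fin 7) (Fin 7) ℤ, mQ (A * B) = mQ A * mQ B := fun A B => by
    unfold mQ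
    exact Matrix.map_mul (f := Int.castRingHom ℚ)
  have hone : mQ (1 : Matrix (Fin 7) (Fin 7) ℤ) = 1 := by
    unfold mQ
    exact Matrix.map_one _ Int.cast_zero Int.cast_one
  have h3 : mQ (ofL U) * mQ (ofL V) = 1 := by rw [← hmul, h1, hone]
  have h4 : mQ (ofL V) * mQ (ofL U) = 1 := mul_eq_one_comm.1 h3
  have h5 : (mQ (ofL U))ᵀ * (mQ (ofL V))ᵀ = 1 := by
    rw [← Matrix.transpose_mul, h4, Matrix.transpose_one]
  have h6 : (mQ (ofL V))ᵀ * (mQ (ofL U))ᵀ = 1 := by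
    rw [← Matrix.transpose_mul, h3, Matrix.transpose_one]
  have hap : ∀ x, Matrix.toLin'OfInv h6 h5 x = (mQ (ofL U))ᵀ *ᵥ x := fun x => rfl
  refine QEq_of_iso (Matrix.toLin'OfInv h6 h5) one_pos (fun x y => ?_) (fun x => ?_)
  · rw [hap, hap, BQ_apply, BQ_apply, one_mul, h2, hmul, hmul, ← Matrix.mulVec_mulVec,
      ← Matrix.mulVec_mulVec, Matrix.dotProduct_mulVec x (mQ (ofL U)), Matrix.mulVec_transpose]
    rfl
  · rw [hap]
    constructor
    · exact fun hx => u5_int _ hx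
    · intro hx
      have h7 := u5_int (ofL V) hx
      rw [Matrix.mulVec_mulVec, h6, Matrix.one_mulVec] at h7
      exact h7

end RH6
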