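import Pool.Agent.RH6.U2
import Pool.Agent.RH6.U4
import Pool.Agent.RH6.U5

open Matrix

namespace RH6

theorem u6_Bm_symm (A m : Fin 5 → ℕ) (x y : V5) : Bm A m x y = Bm A m y x := by
  simp only [Bm, LinearMap.mk₂_apply]
  congr 1
  exact Finset.sum_congr rfl (fun i _ => by ring)

theorem u6_hB_symm {V : Type*} [AddCommGroup V] [Module ℚ V] {B : LinearMap.BilinForm ℚ V}
    (hs : ∀ x y, B x y = B y x) (N : ℚ) (x y : ℚ × ℚ × V) : hB N B x y = hB N B y x := by
  simp only [hB, LinearMap.mk₂_apply]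
  rw [hs x.2.2 y.2.2]
  ring

theorem u6_sqf : Squarefree 1365 := by
  have e : (1365 : ℕ) = 3 * (5 * (7 * 13)) := by norm_num
  rw [e]
  refine (Nat.squarefree_mul (by norm_num)).mpr ⟨Nat.prime_three.squarefree, ?_⟩
  refine (Nat.squarefree_mul (by norm_num)).mpr ⟨Nat.prime_five.squarefree, ?_⟩
  exact (Nat.squarefree_mul (by norm_num)).mpr
    ⟨(by norm_num : Nat.Prime 7).squarefree, (by norm_num : Nat.Prime 13).squarefree⟩

theorem u6_div {a : ℕ} (h : Nat.beq (1365 % a) 0 = true) : Odd a ∧ Squarefree a ∧ 0 < a := by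
  have hd : a ∣ 1365 := Nat.dvd_of_mod_eq_zero (Nat.eq_of_beq_eq_true h)
  refine ⟨?_, u6_sqf.squarefree_of_dvd hd, Nat.pos_of_dvd_of_pos hd (by norm_num)⟩
  exact Odd.of_dvd_nat (by decide : Odd 1365) hd

theorem u6_integ {V : Type*} [AddCommGroup V] [Module ℚ V] [FiniteDimensional ℚ V]
    {E : Matrix (Fin 5) (Fin 5) ℤ} {B : LinearMap.BilinForm ℚ V} {K : AddSubgroup V}
    (h : HasGram E B K) : Integ B K := by
  obtain ⟨b, hb, hK⟩ := h
  intro x hx y hy
  choose z hz using (hK x).mp hx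
  choose w hw using (hK y).mp hy
  refine ⟨∑ i, ∑ j, z i * w j * E i j, ?_⟩
  have ex : x = ∑ i, (z i : ℚ) • b i := by
    conv_lhs => rw [← b.sum_repr x]
    exact Finset.sum_congr rfl (fun i _ => by rw [hz i])
  have ey : y = ∑ i, (w i : ℚ) • b i := by
    conv_lhs => rw [← b.sum_repr y]
    exact Finset.sum_congr rfl (fun i _ => by rw [hw i])
  rw [ex, ey]
  simp only [map_sum, LinearMap.sum_apply, map_smul, LinearMap.smul_apply, hb, smul_eq_mul]
  push_cast
  rw [Finset.sum_comm]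
  refine Finset.sum_congr rfl (fun i _ => ?_)
  rw [Finset.mul_sum]
  refine Finset.sum_congr rfl (fun j _ => ?_)
  ring

theorem u6_lc {V : Type*} [AddCommGroup V] [Module ℚ V] {B : LinearMap.BilinForm ℚ V}
    (hs : ∀ x y, B x y = B y x) {L : AddSubgroup V} {G : List (List ℤ)}
    (hQ : QEq B L (BQ (ofL G)) Z7) (hC : CF B L) {Js : List (List (List ℤ))}
    {bads : List BCert} (hbad : ∀ C ∈ bads, chkBad C = true) {lc : LfC}
    (hlc : lcB Js bads G lc = true) :
    ∃ i < Js.length, QEq B L (BQ (ofL (Js.getD i []))) Z7 := by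
  cases lc with
  | bad i =>
    exfalso
    have hlc' : (Nat.blt i bads.length && (match bads[i]? with
        | none => false
        | some C => eqLL C.G G)) = true := hlc
    rw [Bool.and_eq_true] at hlc'
    obtain ⟨-, h2⟩ := hlc'
    cases hb : bads[i]? with
    | none =>
      rw [hb] at h2
      exact Bool.false_ne_true h2
    | some C =>
      rw [hb] at h2
      have h3 : C.G = G := eqLL_iff.mp h2
      have h4 : C ∈ bads := List.mem_of_getElem? hb
      have h5 := chkBad_sound (hbad C h4)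
      rw [h3] at h5
      exact h5 (CF_of_QEq hs hQ hC)
  | good i U W =>
    have hlc' : (Nat.blt i Js.length && chkIso (Js.getD i []) G U W) = true := hlc
    rw [Bool.and_eq_true] at hlc'
    obtain ⟨h1, h2⟩ := hlc'
    exact ⟨i, Nat.le_of_ble_eq_true h1, QEq_trans hQ (chkIso_sound h2)⟩

/-- Row [RH-U6]: the leaves of one family.

Proof.  `x = c.2` and all `c.1_i` divide `1365 = 3·5·7·13`, so they are odd and squarefree; `x` is
prime to `N₂`.  Let `m_i = del x (c.1_i)`; `del x (m_i) = c.1_i` (`del_assoc`, `del_self`, `del_comm`,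
`del_one`).  `E = gramL As (m) b` is the Gram matrix of `(KH X.H, Bm X.A m)` (`hasGram_pat`), so
this form is integral on `KH X.H`, and `tf` gives
`QEq (hB N₂ (Bm X.A m)) (hL (KH X.H)) (hB (N₂ x) (Bm X.A c.1)) (hL (KH X.H))`; with `qeq_hypL`,
`QEq_symm`, `QEq_trans` the given lattice is equivalent to `(BQ (ofL (hypL N₂ E)), Z7)`.  By
`CF_of_QEq` the latter has `CF`.  If the certificate is `bad i`, `chkBad_sound` is a contradiction
(`C.G = hypL N₂ E`).  If it is `good i U V`, use `chkIso_sound`. -/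
theorem leaf_fam {X : FX} (hX : FXOK X) {Js : List (List (List ℤ))} {bads : List BCert}
    (hbad : ∀ C ∈ bads, chkBad C = true) {b : List (List ℕ)} {bi : List (List ℤ)}
    (hb : basisB X.F.As X.F.code b bi = true) {cands : List (List ℕ × ℕ)} {Ns : List ℕ}
    {tab : List (List LfC)} (ht : famB Js bads X.F.As b cands Ns tab = true) {c : List ℕ × ℕ}
    (hc : c ∈ cands) {N₂ : ℕ} (hN : N₂ = 1 ∨ N₂ = 2) (hN' : N₂ ∈ Ns)
    (hC : CF (hB ((N₂ * c.2 : ℕ) : ℚ) (Bm X.A (fun i => c.1.getD i 0))) (hL (KH X.H))) :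
    ∃ i < Js.length, QEq (hB ((N₂ * c.2 : ℕ) : ℚ) (Bm X.A (fun i => c.1.getD i 0)))
      (hL (KH X.H)) (BQ (ofL (Js.getD i []))) Z7 := by
  obtain ⟨i, hi, rfl⟩ := List.getElem_of_mem hc
  obtain ⟨j, hj, rfl⟩ := List.getElem_of_mem hN'
  unfold famB at ht
  have h1 := (List.all_eq_true.mp ht) i (List.mem_range.mpr hi)
  simp only [Bool.and_eq_true] at h1
  obtain ⟨⟨⟨h2, h3⟩, h4⟩, h5⟩ := h1
  rw [List.getD_eq_getElem _ _ hi] at h2 h3 h4 h5
  have h6 := (List.all_eq_true.mp h5) j (List.mem_range.mpr hj)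
  rw [List.getD_eq_getElem _ _ hj] at h6
  set c := cands[i] with hcdef
  set N₂ := Ns[j] with hN₂
  obtain ⟨hx1, hx2, hx3⟩ := u6_div h2
  have hlen : c.1.length = 5 := Nat.eq_of_beq_eq_true h3
  have hcall : ∀ r ∈ c.1, Odd r ∧ Squarefree r ∧ 0 < r :=
    fun r hr => u6_div ((List.all_eq_true.mp h4) r hr)
  have hci : ∀ t : Fin 5, Odd (c.1.getD t 0) ∧ Squarefree (c.1.getD t 0) ∧ 0 < c.1.getD t 0 := by
    intro t
    have ht5 : t.1 < c.1.length := by rw [hlen]; exact t.2
    rw [List.getD_eq_getElem _ _ ht5]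
    exact hcall _ (List.getElem_mem _)
  set ml : List ℕ := c.1.map fun r => del c.2 r with hml
  have hmll : ml.length = 5 := by rw [hml, List.length_map, hlen]
  have hmli : ∀ t : Fin 5, ml.getD t 0 = del c.2 (c.1.getD t 0) := by
    intro t
    have ht5 : t.1 < c.1.length := by rw [hlen]; exact t.2
    exact u4_map ht5 0 0
  have hmodd : ∀ n ∈ ml, Odd n := by
    intro n hn
    obtain ⟨r, hr, rfl⟩ := List.mem_map.mp hn
    exact del_odd hx1 (hcall r hr).1
  have hgram := hasGram_pat hX hb hmll hmodd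
  have hb5 : b.length = 5 := by
    unfold basisB at hb
    simp only [Bool.and_eq_true] at hb
    exact Nat.eq_of_beq_eq_true hb.1.1.1.1.1.1.1
  obtain ⟨hgl, hgr⟩ := gramL_len (As := X.F.As) (m := ml) hb5
  have hq1 := qeq_hypL hgl hgr hgram N₂
  have hcop : Nat.Coprime c.2 N₂ := by
    rcases hN with h | h
    · rw [h]; exact Nat.coprime_one_right _
    · rw [h]; exact Nat.Coprime.symm (Nat.coprime_two_left.mpr hx1)
  have hNpos : 0 < N₂ := by
    rcases hN with h | h <;> omega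
  have htf := tf (H := X.H) hX.A (m := fun t => ml.getD t 0)
    (fun t => by
      rw [hmli t]
      exact ⟨del_odd hx1 (hci t).1, del_sq hx2 (hci t).2.1⟩)
    (u6_integ hgram) hNpos hx1 hx2 hcop
  have hfun : (fun t : Fin 5 => del c.2 (ml.getD t 0)) = fun t : Fin 5 => c.1.getD t 0 := by
    funext t
    rw [hmli t, ← del_assoc hx2 hx2 (hci t).2.1, del_self hx3, del_comm, del_one]
  rw [hfun] at htf
  have hQ := QEq_trans (QEq_symm htf) hq1
  exact u6_lc (u6_hB_symm (u6_Bm_symm _ _) _) hQ hC hbad h6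

/-- Row [RH-U6]: the same for a lattice with a given Gram matrix. -/
theorem leaf_gram {V : Type*} [AddCommGroup V] [Module ℚ V] [FiniteDimensional ℚ V]
    {B : LinearMap.BilinForm ℚ V} (hs : ∀ x y, B x y = B y x) {K : AddSubgroup V}
    {E : List (List ℤ)} (hE : E.length = 5) (hr : ∀ r ∈ E, r.length = 5)
    (h : HasGram (of5 E) B K) {Js : List (List (List ℤ))} {bads : List BCert}
    (hbad : ∀ C ∈ bads, chkBad C = true) {N : ℕ} {lc : LfC}
    (hlc : lcB Js bads (hypL N E) lc = true) (hC : CF (hB (N : ℚ) B) (hL K)) :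
    ∃ i < Js.length, QEq (hB (N : ℚ) B) (hL K) (BQ (ofL (Js.getD i []))) Z7 :=
  u6_lc (u6_hB_symm hs _) (qeq_hypL hE hr h N) hC hbad hlc

end RH6
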