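import Pool.Agent.RH6.T8
import Pool.Agent.RH6.U6
import Pool.Agent.RH6.Z3
import Pool.Agent.RH6.Y3
import Pool.Agent.RH6.C1c

open Matrix

namespace RH6

/-- everything known about one family of patterns -/
structure FamOK (X : FX) (Ts : List Tree) (ps : List (List ℕ)) (cert : List (ℕ × ℕ))
    (cands : List (List ℕ × ℕ)) (Ns : List ℕ) (Js : List (List (List ℤ))) : Prop where
  ok : FXOK X
  light : Ts.all (treeLight X) = true
  heavy : ∀ T ∈ Ts, T.nodes.all (nodeHeavy X.F) = true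
  cover : coverB X Ts ps cert = true
  cand : candB Ts cands = true
  leaf : ∀ c ∈ cands, ∀ N₂ ∈ Ns, N₂ = 1 ∨ N₂ = 2 →
    CF (hB ((N₂ * c.2 : ℕ) : ℚ) (Bm X.A (fun i => c.1.getD i 0))) (hL (KH X.H)) →
    ∃ i < Js.length, QEq (hB ((N₂ * c.2 : ℕ) : ℚ) (Bm X.A (fun i => c.1.getD i 0)))
      (hL (KH X.H)) (BQ (ofL (Js.getD i []))) Z7

/-- all families -/
structure AllFam (Js : List (List (List ℤ))) : Prop where
  q1 : FamOK Q1.X Q1.trees Q1.perms Q1.cert Q1.cands [1, 2] Js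
  q5 : FamOK Q5.X Q5.trees Q5.perms Q5.cert Q5.cands [1, 2] Js
  q8 : FamOK Q8.X Q8.trees Q8.perms Q8.cert Q8.cands [1, 2] Js
  p4 : FamOK P4.X P4.trees P4.perms P4.cert P4.cands [1, 2] Js
  p2 : FamOK P2.X P2.trees P2.perms P2.cert P2.cands [1] Js
  p3 : FamOK P3.X P3.trees P3.perms P3.cert P3.cands [1] Js
  p6 : FamOK P6.X P6.trees P6.perms P6.cert P6.cands [1] Js
  p7 : FamOK P7.X P7.trees P7.perms P7.cert P7.cands [1] Js
  ex : ∀ (B : LinearMap.BilinForm ℚ V5) (K : AddSubgroup V5) (N : ℕ), (N = 1 ∨ N = 2) →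
    (∀ x y, B x y = B y x) → Exc B K → CF (hB (N : ℚ) B) (hL K) →
    ∃ i < Js.length, QEq (hB (N : ℚ) B) (hL K) (BQ (ofL (Js.getD i []))) Z7

/-- data of a reflective lattice `U ⊥ K` -/
structure RefData (K : List (List ℤ)) : Prop where
  pd : ∃ D c T, pdB K D c T = true
  sym : isSym (hypL 1 K) = true
  fin : (WG (ofL (hypL 1 K))).relIndex (OG (ofL (hypL 1 K)) (vecL hU)) ≠ 0
  max : ∃ (s r : ℕ) (E : Fin r → (Fin 7 → ℤ)) (b : Fin r → ℕ), (s = 1 ∨ s = 2) ∧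
    MaxData ((s : ℤ) • ofL (hypL 1 K)) E b

/-- `E E' = e`, `e` odd (`5 × 5`), `E` symmetric -/
def twoB (E E' : List (List Int)) (e : Nat) : Bool :=
  Nat.beq E.length 5 && (E.all fun r => Nat.beq r.length 5) && Nat.beq E'.length 5 &&
  (E'.all fun r => Nat.beq r.length 5) && Nat.beq (e % 2) 1 && isSym (hypL 1 E) &&
  (List.range 5).all fun i => (List.range 5).all fun j =>
    eqI (dotL (E.getD i []) (E'.map fun r => r.getD j 0)) (bif Nat.beq i j then (e : Int) else 0)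

end RH6
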