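import Pool.Agent.RH6.ZDef

namespace RH6.MC

/-- `L2:2-` -/
def m0 : MCert :=
  ⟨1, [[2, 1, 0, 0, 0], [1, 2, 1, 1, 0], [0, 1, 2, 0, 0], [0, 1, 0, 2, 0], [0, 0, 0, 0, 2]], 6, [3, 1, 2, 6, 12], [[2, 1, 0, 0, 0], [0, 3, 2, 2, 0], [0, 0, 2, -1, 0], [0, 0, 0, 1, 0], [0, 0, 0, 0, 1]], [[0, 0, -1, 2, -1, -2, 0], [0, 0, 1, -2, 1, 1, 0], [0, 0, -1, 1, 0, 0, 0], [1, 0, 1, 0, 0, 0, 0], [-1, -1, 0, 0, 0, 0, 0], [1, 0, 0, 0, 0, 0, 1], [0, 0, 0, 0, 0, 0, -1]], [2, 1, 1, 1, 1, 1, 1], [[0, 0, 0, 0, 0, 1, 1], [0, 0, 0, 0, -1, -1, -1], [0, 0, 0, 1, 0, -1, -1], [0, 0, 1, 1, 0, -1, -1], [1, 2, 2, 1, 0, -1, -1], [-1, -1, 0, 0, 0, 0, 0], [0, 0, 0, 0, 0, 0, -1]], [0, 0, 1, 2, 3, 4, 5],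 1, [[0, 2, 0, 0, 0, 0, 0], [2, 0, 0, 0, 0, 0, 0], [0, 0, 2, -2, 1, 1, 0], [0, 0, -2, 4, -2, -2, 0], [0, 0, 1, -2, 2, 1, 0], [0, 0, 1, -2, 1, 2, 0], [0, 0, 0, 0, 0, 0, 1]], [0, 0, 0, 0, 0, 0, 1], [⟨2, [[0, 1, 0, 0, 0, 0, 0, 0, 0, 0, 0, 0, 0, 0], [1, 0, 0, 0, 0, 0, 0, 0, 0, 0, 0, 0, 0, 0], [0, 0, 0, 1, 0, 0, 0, 1, 0, 0, 0, 0, 0, 0], [0, 0, 1, 0, 0, 0, 0, 0, 0, 0, 0, 0, 0, 0], [0, 0, 0, 0, 0, 0, 0, 0, 0, 0, 0, 0, 0, 0], [0, 0, 0, 0, 0, 0, 0, 1, 0, 0, 0, 0, 0, 0], [0, 0, 0, 0, 0, 0, 0, 0, 0, 0, 0, 0, 0, 0]], [[0, 0, 1, 0, 1, 0, 0], [0, 0, 0, 0, 0, 0, 1]], [4, 6]⟩]⟩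

theorem m0_ok : chkMax m0 = true := by decide +kernel

/-- `L2:4-` -/
def m1 : MCert :=
  ⟨1, [[2, 0, 0, 0, 0], [0, 2, 0, 0, 0], [0, 0, 2, 0, 0], [0, 0, 0, 2, 0], [0, 0, 0, 0, 2]], 1, [2, 2, 2, 2, 2], [[1, 0, 0, 0, 0], [0, 1, 0, 0, 0], [0, 0, 1, 0, 0], [0, 0, 0, 1, 0], [0, 0, 0, 0, 1]], [[0, 0, 0, -1, 1, 0, 0], [0, 0, 0, 0, -1, 1, 0], [0, 0, -1, 1, 0, 0, 0], [1, 0, 1, 0, 0, 0, 0], [0, 0, 0, 0, 0, -1, 1], [-1, -1, 0, 0, 0, 0, 0], [0, 0, 0, 0, 0, 0, -1]], [2, 2, 2, 1, 2, 1, 1], [[1, 1, 1, 1, 1, 0, 1], [-1, -1, -1, -1, -1, -1, -1], [-1, -1, -1, 0, -1, 0, -1], [-1, -1, 0, 0, -1, 0, -1], [0, -1, 0, 0, -1, 0, -1], [0, 0, 0, 0, -1, 0, -1], [0, 0, 0, 0, 0, 0, -1]], [0,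 0, 0, 2, 1, 3, 4], 1, [[0, 2, 0, 0, 0, 0, 0], [2, 0, 0, 0, 0, 0, 0], [0, 0, 1, 0, 0, 0, 0], [0, 0, 0, 1, 0, 0, 0], [0, 0, 0, 0, 1, 0, 0], [0, 0, 0, 0, 0, 1, 0], [0, 0, 0, 0, 0, 0, 1]], [0, 0, 1, 1, 1, 1, 1], [⟨2, [[0, 1, 0, 0, 0, 0, 0, 0, 0, 0, 0, 0, 0, 0], [1, 0, 0, 0, 0, 0, 0, 0, 0, 0, 0, 0, 0, 0], [0, 0, 0, 0, 0, 0, 0, 1, 1, 1, 0, 1, 0, 0], [0, 0, 0, 0, 0, 0, 0, 1, 1, 0, 0, 1, 0, 0], [0, 0, 0, 0, 0, 0, 0, 0, 1, 0, 0, 1, 0, 0], [0, 0, 0, 0, 0, 0, 0, 0, 0, 0, 0, 1, 0, 0], [0, 0, 0, 0, 0, 0, 0, 0, 0, 0, 0, 0, 0, 0]], [[0, 0, 1, 1, 1, 1, 1]], [6]⟩]⟩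

theorem m1_ok : chkMax m1 = true := by decide +kernel

/-- `L2:6-` -/
def m2 : MCert :=
  ⟨2, [[1, 0, 0, 0, 0], [0, 1, 0, 0, 0], [0, 0, 1, 0, 0], [0, 0, 0, 1, 0], [0, 0, 0, 0, 1]], 1, [1, 1, 1, 1, 1], [[1, 0, 0, 0, 0], [0, 1, 0, 0, 0], [0, 0, 1, 0, 0], [0, 0, 0, 1, 0], [0, 0, 0, 0, 1]], [[1, 0, 1, 1, 0, 0, 0], [0, 0, 0, -1, 1, 0, 0], [0, 0, 0, 0, -1, 1, 0], [0, 0, -1, 1, 0, 0, 0], [0, 0, 0, 0, 0, -1, 1], [-1, -1, 0, 0, 0, 0, 0], [0, 0, 0, 0, 0, 0, -1]], [2, 2, 2, 2, 2, 2, 1], [[1, 2, 2, 1, 2, 0, 2], [-1, -2, -2, -1, -2, -1, -2], [0, -1, -1, -1, -1, 0, -1], [0, -1, -1, 0, -1, 0, -1], [0, 0, -1, 0, -1, 0, -1], [0, 0, 0, 0, -1, 0, -1], [0, 0, 0, 0, 0, 0, -1]], [0,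 0, 1, 1, 2, 0, 4], 1, [[0, 1, 0, 0, 0, 0, 0], [1, 0, 0, 0, 0, 0, 0], [0, 0, 1, 0, 0, 0, 0], [0, 0, 0, 1, 0, 0, 0], [0, 0, 0, 0, 1, 0, 0], [0, 0, 0, 0, 0, 1, 0], [0, 0, 0, 0, 0, 0, 1]], [0, 0, 1, 1, 1, 1, 1], [⟨2, [[0, 0, 0, 0, 0, 0, 0, 1, 0, 0, 1, 0, 1, 0], [0, 0, 0, 0, 0, 0, 0, 1, 0, 0, 1, 0, 0, 0], [0, 0, 0, 0, 0, 0, 0, 0, 1, 1, 1, 1, 0, 0], [0, 0, 0, 0, 0, 0, 0, 0, 1, 1, 0, 1, 0, 0], [0, 0, 0, 0, 0, 0, 0, 0, 0, 1, 0, 1, 0, 0], [0, 0, 0, 0, 0, 0, 0, 0, 0, 0, 0, 1, 0, 0], [0, 0, 0, 0, 0, 0, 0, 0, 0, 0, 0, 0, 0, 0]], [[0, 0, 1, 1, 1, 1, 1]], [6]⟩]⟩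

theorem m2_ok : chkMax m2 = true := by decide +kernel

/-- `L2:2-_3:2+` -/
def m3 : MCert :=
  ⟨1, [[2, 1, 0, 0, 0], [1, 2, 0, 0, 0], [0, 0, 4, 2, 0], [0, 0, 2, 4, 0], [0, 0, 0, 0, 2]], 2, [1, 3, 2, 6, 4], [[2, 1, 0, 0, 0], [0, 1, 0, 0, 0], [0, 0, 2, 1, 0], [0, 0, 0, 1, 0], [0, 0, 0, 0, 1]], [[2, 0, 0, 0, 1, 0, 0], [0, 0, 0, 0, -1, 1, 0], [-1, -1, 0, 0, 0, 0, 0], [1, 0, 0, 0, 0, 0, 1], [1, 0, 1, 0, 0, 0, 0], [0, 0, -1, 1, 0, 0, 0], [0, 0, 1, -2, 0, 0, 0]], [2, 2, 1, 1, 1, 1, 3], [[0, 0, 0, 0, 1, 2, 1], [0, 0, -1, 0, -1, -2, -1], [0, 0, 0, 0, 0, -2, -1], [0, 0, 0, 0, 0, -1, -1], [1, 0, 0, 0, -2, -4, -2], [1, 1, 0, 0, -2, -4, -2], [0, 0, 0, 1, -1, -2, -1]], [0, 0,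 0, 2, 2, 4, 5], 3, [[0, 6, 0, 0, 0, 0, 0], [6, 0, 0, 0, 0, 0, 0], [0, 0, 4, -2, 0, 0, 0], [0, 0, -2, 4, 0, 0, 0], [0, 0, 0, 0, 2, -1, 0], [0, 0, 0, 0, -1, 2, 0], [0, 0, 0, 0, 0, 0, 3]], [0, 0, 0, 0, 0, 0, 1], [⟨2, [[0, 1, 0, 0, 0, 0, 0, 0, 0, 0, 0, 0, 0, 0], [1, 0, 0, 0, 0, 0, 0, 0, 0, 0, 0, 0, 0, 0], [0, 0, 0, 1, 0, 0, 0, 0, 0, 0, 0, 0, 0, 0], [0, 0, 1, 0, 0, 0, 0, 0, 0, 0, 0, 0, 0, 0], [1, 0, 0, 0, 0, 0, 0, 1, 1, 0, 0, 0, 0, 0], [1, 0, 0, 0, 0, 0, 0, 1, 0, 0, 0, 0, 0, 0], [0, 0, 0, 0, 0, 0, 0, 0, 0, 0, 0, 0, 0, 0]], [[0, 0, 0, 0, 0, 0, 1]], [6]⟩, ⟨3, [[0, 1, 0, 0, 0, 0, 0, 0, 0, 0, 0, 0, 0, 0], [1, 0, 0, 0, 0, 0, 0, 0, 0, 0, 0, 0, 0, 0], [0, 0, 2, 0, 0, 0, 0, 0,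 0, 0, 0, 0, 0, 2], [0, 0, 0, 0, 0, 0, 0, 0, 0, 0, 0, 0, 0, 2], [0, 0, 0, 0, 1, 0, 0, 0, 0, 0, 0, 0, 0, 0], [0, 0, 0, 0, 0, 0, 0, 0, 0, 0, 0, 0, 0, 0], [0, 0, 0, 0, 0, 0, 2, 0, 0, 0, 0, 0, 0, 0]], [[0, 0, 0, 0, 1, 1, 0]], [5]⟩]⟩

theorem m3_ok : chkMax m3 = true := by decide +kernel

/-- `L2:4-_3:2+` -/
def m4 : MCert :=
  ⟨1, [[4, 2, 0, 0, 0], [2, 4, 0, 0, 0], [0, 0, 2, 0, 0], [0, 0, 0, 2, 0], [0, 0, 0, 0, 6]], 1, [1, 3, 2, 2, 6], [[2, 1, 0, 0, 0], [0, 1, 0, 0, 0], [0, 0, 1, 0, 0], [0, 0, 0, 1, 0], [0, 0, 0, 0, 1]], [[3, 0, 0, 0, 0, 0, 1], [-1, -1, 0, 0, 0, 0, 0], [2, 0, 1, 0, 0, 0, 0], [1, 0, 0, 0, 1, 0, 0], [0, 0, 0, 0, -1, 1, 0], [0, 0, -1, 1, 0, 0, 0], [0, 0,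 0, 0, 0, -1, 0]], [3, 1, 2, 1, 2, 2, 1], [[0, 0, 0, 1, 1, 0, 1], [0, -1, 0, -1, -1, 0, -1], [0, 0, 1, -2, -2, 0, -2], [0, 0, 1, -2, -2, 1, -2], [0, 0, 0, 0, -1, 0, -1], [0, 0, 0, 0, 0, 0, -1], [1, 0, 0, -3, -3, 0, -3]], [0, 0, 1, 1, 3, 2, 4], 3, [[0, 6, 0, 0, 0, 0, 0], [6, 0, 0, 0, 0, 0, 0], [0, 0, 2, -1, 0, 0, 0], [0, 0, -1, 2, 0, 0, 0], [0, 0, 0, 0, 3, 0, 0], [0, 0, 0, 0, 0, 3, 0], [0, 0, 0, 0, 0, 0, 1]], [0, 0, 0, 0, 1, 1, 1], [⟨2, [[0, 1, 0, 0, 0, 0, 0, 0, 0, 0, 0, 0, 0, 0], [1, 0, 0, 0, 0, 0, 0, 0, 0, 0, 0, 0, 0, 0], [1, 0, 0, 0, 0, 0, 0, 0, 0, 1, 0, 0, 1, 0], [1, 0, 0, 0, 0, 0, 0, 0, 0, 1, 0, 0, 0, 0], [0, 0, 0, 0, 0, 0, 0, 0, 0, 0, 0, 1, 0, 0], [0, 0, 0, 0,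 0, 0, 0, 0, 0, 0, 0, 0, 0, 0], [0, 0, 0, 0, 0, 0, 0, 0, 0, 0, 0, 0, 0, 0]], [[0, 0, 0, 0, 1, 1, 0], [0, 0, 0, 0, 0, 0, 1]], [5, 6]⟩, ⟨3, [[0, 1, 0, 0, 0, 0, 0, 0, 0, 0, 0, 0, 0, 0], [1, 0, 0, 0, 0, 0, 0, 0, 0, 0, 0, 0, 0, 0], [0, 0, 1, 0, 0, 0, 0, 0, 0, 0, 0, 0, 0, 0], [0, 0, 0, 0, 0, 0, 0, 0, 0, 0, 0, 0, 0, 0], [0, 0, 0, 0, 2, 0, 0, 0, 0, 0, 0, 0, 0, 0], [0, 0, 0, 0, 0, 2, 0, 0, 0, 0, 0, 0, 0, 0], [1, 0, 0, 0, 0, 0, 0, 2, 0, 0, 0, 0, 0, 0]], [[0, 0, 1, 1, 0, 0, 0]], [3]⟩]⟩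

theorem m4_ok : chkMax m4 = true := by decide +kernel

/-- `L2:6-_3:2+` -/
def m5 : MCert :=
  ⟨2, [[2, 1, 0, 0, 0], [1, 2, 0, 0, 0], [0, 0, 1, 0, 0], [0, 0, 0, 1, 0], [0, 0, 0, 0, 3]], 2, [1, 3, 2, 2, 6], [[2, 1, 0, 0, 0], [0, 1, 0, 0, 0], [0, 0, 1, 0, 0], [0, 0, 0, 1, 0], [0, 0, 0, 0, 1]], [[0, 0, 0, 0, 0, 0, -1], [1, -1, 0, 0, 1, 0, 1], [1, 0, 1, 0, 0, 0, 0], [0, 0, -1, 1, 0, 0, 0], [0, 0, 0, 0, -1, 1, 0], [0, 0, 0, 0, 0, -1, 0], [1, 0, 0, 0, 1, 1, 0]], [3, 2, 2, 2, 2, 1, 2], [[0, 0, 0, 0, 1, 2, 1], [-1, -1, 0, 0, 0, 1, 1], [0, 0, 1, 0, -1, -2, -1], [0, 0, 1, 1, -1, -2, -1], [0, 0, 0, 0, -1, -1, 0], [0, 0, 0, 0, 0, -1, 0], [-1, 0, 0, 0, 0, 0, 0]], [0, 0, 1, 2,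 1, 4, 5], 3, [[0, 3, 0, 0, 0, 0, 0], [3, 0, 0, 0, 0, 0, 0], [0, 0, 2, -1, 0, 0, 0], [0, 0, -1, 2, 0, 0, 0], [0, 0, 0, 0, 3, 0, 0], [0, 0, 0, 0, 0, 3, 0], [0, 0, 0, 0, 0, 0, 1]], [0, 0, 0, 0, 1, 1, 1], [⟨2, [[0, 0, 0, 0, 0, 0, 0, 0, 1, 0, 0, 0, 0, 1], [0, 0, 0, 0, 0, 0, 0, 0, 0, 0, 0, 1, 0, 1], [0, 0, 0, 0, 0, 0, 0, 0, 0, 1, 1, 1, 0, 1], [0, 0, 0, 0, 0, 0, 0, 0, 0, 1, 0, 1, 0, 1], [0, 0, 0, 0, 0, 0, 0, 0, 0, 0, 0, 1, 0, 0], [0, 0, 0, 0, 0, 0, 0, 0, 0, 0, 0, 0, 0, 0], [0, 0, 0, 0, 0, 0, 0, 0, 0, 0, 0, 0, 0, 0]], [[1, 0, 0, 0, 1, 1, 0], [1, 0, 0, 0, 0, 0, 1]], [5, 6]⟩, ⟨3, [[0, 2, 0, 0, 0, 0, 0, 0, 0, 0, 0, 0, 0, 0], [2, 0, 0, 0, 0, 0, 0, 0, 0, 0, 0, 0, 0, 0], [0, 0,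 1, 0, 0, 0, 0, 0, 0, 0, 0, 0, 0, 0], [0, 0, 0, 0, 0, 0, 0, 0, 0, 0, 0, 0, 0, 0], [0, 0, 0, 0, 2, 0, 0, 0, 0, 0, 0, 0, 0, 0], [0, 0, 0, 0, 0, 2, 0, 0, 0, 0, 0, 0, 0, 0], [0, 0, 0, 0, 0, 0, 0, 1, 0, 0, 0, 0, 0, 0]], [[0, 0, 1, 1, 0, 0, 0]], [3]⟩]⟩

theorem m5_ok : chkMax m5 = true := by decide +kernel

/-- `L3:2-` -/
def m6 : MCert :=
  ⟨1, [[2, 1, 0, 0, 0], [1, 2, 0, 0, 0], [0, 0, 2, 1, 0], [0, 0, 1, 2, 0], [0, 0, 0, 0, 2]], 2, [1, 3, 1, 3, 4], [[2, 1, 0, 0, 0], [0, 1, 0, 0, 0], [0, 0, 2, 1, 0], [0, 0, 0, 1, 0], [0, 0, 0, 0, 1]], [[1, 0, 1, 0, 0, 0, 0], [0, 0, -1, 1, 0, 0, 0], [-1, -1, 0, 0, 0, 0, 0], [1, 0, 0, 0, 1, 0, 0], [0, 0, 0, 0, -1, 1, 0], [1, 0, 0, 0, 0,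 0, 1], [0, 0, 0, 0, 0, 0, -1]], [1, 1, 1, 1, 1, 1, 1], [[0, 0, 0, 0, 0, 1, 1], [0, 0, -1, 0, 0, -1, -1], [1, 0, 0, 0, 0, -1, -1], [1, 1, 0, 0, 0, -1, -1], [0, 0, 0, 1, 0, -1, -1], [0, 0, 0, 1, 1, -1, -1], [0, 0, 0, 0, 0, 0, -1]], [0, 0, 0, 2, 3, 2, 5], 3, [[0, 6, 0, 0, 0, 0, 0], [6, 0, 0, 0, 0, 0, 0], [0, 0, 4, -2, 0, 0, 0], [0, 0, -2, 4, 0, 0, 0], [0, 0, 0, 0, 4, -2, 0], [0, 0, 0, 0, -2, 4, 0], [0, 0, 0, 0, 0, 0, 3]], [0, 0, 0, 0, 0, 0, 1], [⟨2, [[0, 1, 0, 0, 0, 0, 0, 0, 0, 0, 0, 0, 0, 0], [1, 0, 0, 0, 0, 0, 0, 0, 0, 0, 0, 0, 0, 0], [0, 0, 0, 1, 0, 0, 0, 0, 0, 0, 0, 0, 0, 0], [0, 0, 1, 0, 0, 0, 0, 0, 0, 0, 0, 0, 0, 0], [0, 0, 0, 0, 0, 1, 0, 0, 0, 0, 0, 0, 0, 0],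 [0, 0, 0, 0, 1, 0, 0, 0, 0, 0, 0, 0, 0, 0], [0, 0, 0, 0, 0, 0, 0, 0, 0, 0, 0, 0, 0, 0]], [[0, 0, 0, 0, 0, 0, 1]], [6]⟩, ⟨3, [[0, 1, 0, 0, 0, 0, 0, 0, 0, 0, 0, 0, 0, 0], [1, 0, 0, 0, 0, 0, 0, 0, 0, 0, 0, 0, 0, 0], [0, 0, 2, 0, 0, 0, 0, 0, 0, 0, 0, 0, 0, 0], [0, 0, 0, 0, 0, 0, 0, 0, 0, 0, 0, 0, 0, 0], [0, 0, 0, 0, 2, 0, 0, 0, 0, 0, 0, 0, 0, 0], [0, 0, 0, 0, 0, 0, 0, 0, 0, 0, 0, 0, 0, 0], [0, 0, 0, 0, 0, 0, 2, 0, 0, 0, 0, 0, 0, 0]], [[0, 0, 1, 1, 0, 0, 0], [0, 0, 0, 0, 1, 1, 0]], [3, 5]⟩]⟩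

theorem m6_ok : chkMax m6 = true := by decide +kernel

end RH6.MC
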