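import Pool.Agent.RH6.NDef

namespace RH6

variable {V : Type*} [AddCommGroup V] [Module ℚ V]

theorem n1_hB (M : ℚ) (B : LinearMap.BilinForm ℚ V) (a b : ℚ × ℚ × V) :
    hB M B a b = M * (a.1 * b.2.1 + a.2.1 * b.1) + B a.2.2 b.2.2 := rfl

theorem n1_mem {K : AddSubgroup V} (a : ℚ × ℚ × V) :
    a ∈ hL K ↔ (∃ z : ℤ, a.1 = z) ∧ (∃ z : ℤ, a.2.1 = z) ∧ a.2.2 ∈ K := Iff.rfl

/-- the explicit isometry `φ` -/
noncomputable def n1_phi (B : LinearMap.BilinForm ℚ V) (k : V) (N l c p q : ℚ) (hl : l ≠ 0)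
    (hc : B k k = -2 * l * c) (h1 : p * c + q * (N * l) = 1) :
    (ℚ × ℚ × V) ≃ₗ[ℚ] (ℚ × ℚ × V) where
  toFun u := (p * u.2.1 + q * u.1 - p * q * (u.1 * c + u.2.1 * (N * l) + B u.2.2 k),
    u.1 * c + u.2.1 * (N * l) + B u.2.2 k,
    u.2.2 - ((u.1 - (u.1 * c + u.2.1 * (N * l) + B u.2.2 k) * p) / l) • k)
  map_add' u v := by
    refine Prod.ext ?_ (Prod.ext ?_ ?_)
    · simp only [Prod.fst_add, Prod.snd_add, map_add, LinearMap.add_apply]; ring
    · simp only [Prod.fst_add, Prod.snd_add, map_add, LinearMap.add_apply]; ring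
    · simp only [Prod.fst_add, Prod.snd_add, map_add, LinearMap.add_apply]
      match_scalars <;> ring
  map_smul' t u := by
    refine Prod.ext ?_ (Prod.ext ?_ ?_)
    · simp only [Prod.smul_fst, Prod.smul_snd, map_smul, LinearMap.smul_apply, smul_eq_mul,
        RingHom.id_apply]
      ring
    · simp only [Prod.smul_fst, Prod.smul_snd, map_smul, LinearMap.smul_apply, smul_eq_mul,
        RingHom.id_apply]
      ring
    · simp only [Prod.smul_fst, Prod.smul_snd, map_smul, LinearMap.smul_apply, smul_eq_mul,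
        RingHom.id_apply]
      match_scalars <;> ring
  invFun u := (u.1 * (N * l) + u.2.1 * (p - p * q * (N * l)) + p * B u.2.2 k,
    u.1 * c + u.2.1 * (q - p * q * c) - q * B u.2.2 k,
    u.2.2 + (u.1 * N - u.2.1 * (p * q * N) + p * B u.2.2 k / l) • k)
  left_inv u := by
    obtain ⟨a, b, z⟩ := u
    refine Prod.ext ?_ (Prod.ext ?_ ?_)
    · simp only [map_sub, map_smul, LinearMap.sub_apply, LinearMap.smul_apply, smul_eq_mul, hc]
      generalize B z k = zk
      field_simp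
      linear_combination (a - 2 * p * (a * c + b * (N * l) + zk)) * h1
    · simp only [map_sub, map_smul, LinearMap.sub_apply, LinearMap.smul_apply, smul_eq_mul, hc]
      generalize B z k = zk
      field_simp
      linear_combination b * h1
    · simp only [map_sub, map_smul, LinearMap.sub_apply, LinearMap.smul_apply, smul_eq_mul, hc]
      generalize B z k = zk
      match_scalars
      · ring
      · field_simp
        linear_combination (a - 2 * p * (a * c + b * (N * l) + zk)) * h1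
  right_inv u := by
    obtain ⟨a, b, z⟩ := u
    refine Prod.ext ?_ (Prod.ext ?_ ?_)
    · simp only [map_add, map_smul, LinearMap.add_apply, LinearMap.smul_apply, smul_eq_mul, hc]
      generalize B z k = zk
      field_simp
      linear_combination (a - 2 * b * p * q + p * q * zk) * h1
    · simp only [map_add, map_smul, LinearMap.add_apply, LinearMap.smul_apply, smul_eq_mul, hc]
      generalize B z k = zk
      field_simp
      linear_combination (b - zk) * h1
    · simp only [map_add, map_smul, LinearMap.add_apply, LinearMap.smul_apply, smul_eq_mul, hc]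
      generalize B z k = zk
      match_scalars
      · ring
      · field_simp
        linear_combination (p * (b - zk)) * h1

theorem n1_phi_apply (B : LinearMap.BilinForm ℚ V) (k : V) (N l c p q : ℚ) (hl : l ≠ 0)
    (hc : B k k = -2 * l * c) (h1 : p * c + q * (N * l) = 1) (u : ℚ × ℚ × V) :
    n1_phi B k N l c p q hl hc h1 u =
      (p * u.2.1 + q * u.1 - p * q * (u.1 * c + u.2.1 * (N * l) + B u.2.2 k),
        u.1 * c + u.2.1 * (N * l) + B u.2.2 k,
        u.2.2 - ((u.1 - (u.1 * c + u.2.1 * (N * l) + B u.2.2 k) * p) / l) • k) := rfl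

theorem n1_phi_symm_apply (B : LinearMap.BilinForm ℚ V) (k : V) (N l c p q : ℚ) (hl : l ≠ 0)
    (hc : B k k = -2 * l * c) (h1 : p * c + q * (N * l) = 1) (u : ℚ × ℚ × V) :
    (n1_phi B k N l c p q hl hc h1).symm u =
      (u.1 * (N * l) + u.2.1 * (p - p * q * (N * l)) + p * B u.2.2 k,
        u.1 * c + u.2.1 * (q - p * q * c) - q * B u.2.2 k,
        u.2.2 + (u.1 * N - u.2.1 * (p * q * N) + p * B u.2.2 k / l) • k) := rfl

/-- Row [RH-N1]: `U(N) ⊥ K ≅ U(N) ⊥ Nbr B K k l c`.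

Proof.  `k ∈ K`, `(k,k) = -2lc`, `p c + q N l = 1` with `p, q ∈ ℤ`.  In `W = ℚ × ℚ × V` with the
form `hB N B` put `v' = (N l, c; N k)`, `w₀ = (p, q; 0)`, `w' = w₀ - p q v'`, and for `y ∈ V`
`λ(y) = (p (y,k), -q (y,k); y + (p (y,k)/l) k)`.
(a) `(v',v') = 2N·N l c + N² (k,k) = 0`, `(v',w₀) = N (N l q + c p) = N`, `(w₀,w₀) = 2 N p q`, so
`(w',w') = 2Npq - 2pq N = 0`, `(v',w') = N`.
(b) `(v', (a,b;z)) = N (a c + b N l + (z,k))`.  `(v',λ(y)) = 0`:
`p (y,k) c - q (y,k) N l + (y,k) + (p (y,k)/l)(-2lc) = (y,k)(pc - qNl + 1 - 2pc) = 0`.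
`(w₀,λ(y)) = N (p·(-q (y,k)) + q·p (y,k)) = 0`; so `(w',λ(y)) = 0`.
(c) `(λ(y),λ(y')) = 2 N·(-p q)(y,k)(y',k)·... `: precisely
`N (p(y,k)(-q)(y',k) + (-q)(y,k) p (y',k)) + (y + (p(y,k)/l) k, y' + (p(y',k)/l) k)`
`= -2Npq (y,k)(y',k) + (y,y') + 2 (p/l)(y,k)(y',k) - 2 (p²/l) c (y,k)(y',k)`, and
`2(p/l)(1 - p c) = 2 (p/l) q N l = 2Npq`, so it is `(y,y')`.
(d) So `ψ(P,Q;y) = P v' + Q w' + λ(y)` is an isometry of `W` (linear, injective because
`Q = (v',·)/N`, `P = (w',·)/N`, and `y = z - (a/l) k` for `λ(y) = (a,b;z)`; surjective: given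
`u ∈ W`, subtract `P v' + Q w'`; the rest `(a,b;z)` is orthogonal to `v'`, `w'`, hence to `w₀`; put
`y = z - (a/l)k`; then `a c + b N l + (z,k) = 0` and `a q + b p = 0` give
`(y,k) = (z,k) + 2 a c = a c - b N l`, `p (y,k) = a (pc) - (bp) N l = a pc + a q N l = a`,
`-q (y,k) = -(aq) c + b q N l = b p c + b q N l = b`, and `y + (a/l) k = z`).
(e) `ψ` maps `ℤ × ℤ × Nbr` into `ℤ × ℤ × K`: `v', w' ∈ ℤ × ℤ × K`; for `y = x - (a/l) k`,
`a c + (x,k) = l t`: `(y,k) = (x,k) + 2ac = l t + a c`,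
`p (y,k) = p l t + a (1 - q N l)`, `y + (p(y,k)/l) k = x + (p t - a q N) k ∈ K`.
(f) conversely if `u = (a,b;z) ∈ ℤ × ℤ × K`, then `Q = (v',u)/N = a c + b N l + (z,k) ∈ ℤ`,
`P = (w',u)/N = (p b + q a) - p q Q ∈ ℤ` and the rest is in `ℤ × ℤ × K` and orthogonal to `v'`, so
`y = z - (a/l) k` with `a c + (z,k) = -b N l ∈ lℤ`: `y ∈ Nbr`.
`φ = ψ⁻¹`. -/
theorem nbr_iso {B : LinearMap.BilinForm ℚ V} (hs : ∀ x y, B x y = B y x) {K : AddSubgroup V}
    (hK : Integ B K) {k : V} (hk : k ∈ K) {N l : ℕ} (hN : 0 < N) (hl : 0 < l) {c : ℤ}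
    (hc : B k k = -2 * l * c) (hcop : IsCoprime c ((N : ℤ) * l)) :
    HIso N B K (Nbr B K k l c) := by
  obtain ⟨p, q, hpq⟩ := hcop
  have h1 : (p : ℚ) * c + q * ((N : ℚ) * l) = 1 := by exact_mod_cast hpq
  have hl0 : (l : ℚ) ≠ 0 := by exact_mod_cast hl.ne'
  refine ⟨n1_phi B k N l c p q hl0 hc h1, ?_, ?_⟩
  · rintro ⟨a, b, z⟩ ⟨a', b', z'⟩
    rw [n1_hB, n1_hB, n1_phi_apply, n1_phi_apply]
    simp only [map_sub, map_smul, LinearMap.sub_apply, LinearMap.smul_apply, smul_eq_mul, hc]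
    rw [hs k z']
    generalize B z k = zk
    generalize B z' k = zk'
    generalize B z z' = zz
    obtain ⟨s, hsd⟩ : ∃ s : ℚ, s = (a - (a * c + b * (N * l) + zk) * p) / l := ⟨_, rfl⟩
    obtain ⟨s', hsd'⟩ : ∃ s' : ℚ, s' = (a' - (a' * c + b' * (N * l) + zk') * p) / l := ⟨_, rfl⟩
    rw [← hsd, ← hsd']
    have hls : l * s = a - (a * c + b * (N * l) + zk) * p := by rw [hsd]; field_simp
    have hls' : l * s' = a' - (a' * c + b' * (N * l) + zk') * p := by rw [hsd']; field_simp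
    linear_combination (-c * s' + N * (b' - q * (a' * c + b' * (N * l) + zk'))) * hls +
      (-c * s + N * (b - q * (a * c + b * (N * l) + zk))) * hls' +
      (s' * (a * c + b * (N * l) + zk) + s * (a' * c + b' * (N * l) + zk')) * h1
  · intro u
    constructor
    · obtain ⟨a, b, z⟩ := u
      rintro ⟨⟨a0, ha0⟩, ⟨b0, hb0⟩, hz⟩
      simp only at ha0 hb0 hz
      obtain ⟨w, hw⟩ := hK z hz k hk
      rw [n1_phi_apply]
      refine ⟨⟨p * b0 + q * a0 - p * q * (a0 * c + b0 * (N * l) + w), ?_⟩,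
        ⟨a0 * c + b0 * (N * l) + w, ?_⟩, ?_⟩
      · simp only [hw, ha0, hb0]; push_cast; ring
      · simp only [hw, ha0, hb0]; push_cast; ring
      · refine ⟨z, hz, a0 - (a0 * c + b0 * (N * l) + w) * p,
          N * ((a0 * c + b0 * (N * l) + w) * q - b0), ?_, ?_⟩
        · simp only [hw, ha0, hb0]; push_cast; ring_nf
        · simp only [hw]
          push_cast
          linear_combination (-(a0 * c + b0 * (N * l) + w : ℚ)) * h1
    · intro h
      obtain ⟨v, hv⟩ : ∃ v, v = n1_phi B k N l c p q hl0 hc h1 u := ⟨_, rfl⟩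
      have hu : u = (n1_phi B k N l c p q hl0 hc h1).symm v := by
        rw [hv, LinearEquiv.symm_apply_apply]
      rw [← hv] at h
      rw [hu, n1_phi_symm_apply]
      obtain ⟨P, Q, y⟩ := v
      obtain ⟨⟨P0, hP0⟩, ⟨Q0, hQ0⟩, x, hx, a, t, hy, ht⟩ := h
      simp only at hP0 hQ0 hy
      have hyk : B y k = l * t + a * c := by
        rw [hy, map_sub, map_smul, LinearMap.sub_apply, LinearMap.smul_apply, smul_eq_mul, hc]
        field_simp
        linear_combination ht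
      refine ⟨⟨P0 * (N * l) + Q0 * (p - p * q * (N * l)) + p * (l * t + a * c), ?_⟩,
        ⟨P0 * c + Q0 * (q - p * q * c) - q * (l * t + a * c), ?_⟩, ?_⟩
      · simp only [hyk, hP0, hQ0]; push_cast; ring
      · simp only [hyk, hP0, hQ0]; push_cast; ring
      · simp only [hyk, hP0, hQ0]
        have h2 : y + ((P0 : ℚ) * N - Q0 * (p * q * N) + p * (l * t + a * c) / l) • k =
            x + ((P0 * N - Q0 * (p * q * N) + p * t - a * q * N : ℤ)) • k := by
          rw [hy, ← Int.cast_smul_eq_zsmul ℚ]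
          push_cast
          match_scalars
          · ring
          · field_simp
            linear_combination (a : ℚ) * h1
        rw [h2]
        exact K.add_mem hx (K.zsmul_mem hk _)

theorem HIso_refl (N : ℕ) (B : LinearMap.BilinForm ℚ V) (K : AddSubgroup V) : HIso N B K K :=
  ⟨LinearEquiv.refl ℚ _, fun _ _ => rfl, fun _ => Iff.rfl⟩

theorem HIso_trans {N : ℕ} {B : LinearMap.BilinForm ℚ V} {K K' K'' : AddSubgroup V}
    (h : HIso N B K K') (h' : HIso N B K' K'') : HIso N B K K'' := by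
  obtain ⟨φ, h1, h2⟩ := h
  obtain ⟨φ', h1', h2'⟩ := h'
  refine ⟨φ.trans φ', fun x y => ?_, fun x => ?_⟩
  · rw [LinearEquiv.trans_apply, LinearEquiv.trans_apply, h1', h1]
  · rw [LinearEquiv.trans_apply, h2, h2']

theorem HIso_symm {N : ℕ} {B : LinearMap.BilinForm ℚ V} {K K' : AddSubgroup V}
    (h : HIso N B K K') : HIso N B K' K := by
  obtain ⟨φ, h1, h2⟩ := h
  refine ⟨φ.symm, fun x y => ?_, fun x => ?_⟩
  · rw [← h1, LinearEquiv.apply_symm_apply, LinearEquiv.apply_symm_apply]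
  · rw [h2, LinearEquiv.apply_symm_apply]

end RH6
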