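import Pool.Agent.RH6.NDef
import Pool.Agent.RH6.C3b
import Pool.Agent.RH6.C1

namespace RH6

variable {V : Type*} [AddCommGroup V] [Module ℚ V] [FiniteDimensional ℚ V]

theorem n2_hB {V : Type*} [AddCommGroup V] [Module ℚ V] (M : ℚ) (B : LinearMap.BilinForm ℚ V)
    (a b : ℚ × ℚ × V) :
    hB M B a b = M * (a.1 * b.2.1 + a.2.1 * b.1) + B a.2.2 b.2.2 := rfl

theorem n2_mem {V : Type*} [AddCommGroup V] [Module ℚ V] {K : AddSubgroup V} (a : ℚ × ℚ × V) :
    a ∈ hL K ↔ (∃ z : ℤ, a.1 = z) ∧ (∃ z : ℤ, a.2.1 = z) ∧ a.2.2 ∈ K := Iff.rfl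

/-- an isometry transports `Rad` -/
theorem n2_rad {W W' : Type*} [AddCommGroup W] [Module ℚ W] [AddCommGroup W'] [Module ℚ W']
    {B : LinearMap.BilinForm ℚ W} {L : AddSubgroup W} {B' : LinearMap.BilinForm ℚ W'}
    {L' : AddSubgroup W'} (φ : W ≃ₗ[ℚ] W') (h : ∀ x y, B' (φ x) (φ y) = B x y)
    (hL : ∀ x, x ∈ L ↔ φ x ∈ L') (p : ℕ) {x : W} (hx : φ x ∈ Rad B' L' p) : x ∈ Rad B L p := by
  obtain ⟨h1, h2⟩ := hx
  refine ⟨(hL x).2 h1, fun y hy => ?_⟩
  obtain ⟨z, hz⟩ := h2 (φ y) ((hL y).1 hy)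
  exact ⟨z, by rw [← hz, h]⟩

/-- an isometry transports `mulL` -/
theorem n2_mulL {W W' : Type*} [AddCommGroup W] [Module ℚ W] [AddCommGroup W'] [Module ℚ W']
    {L : AddSubgroup W} {L' : AddSubgroup W'} (φ : W ≃ₗ[ℚ] W')
    (hL : ∀ x, x ∈ L ↔ φ x ∈ L') (p : ℕ) {x : W} (hx : x ∈ mulL p L) : φ x ∈ mulL p L' := by
  obtain ⟨y, hy, rfl⟩ := hx
  exact ⟨φ y, (hL y).1 hy, by rw [map_zsmul]⟩

/-- Row [RH-N2]: the cusp condition at `(1,0;0)`: the roots of `K` span.

Proof.  Let `u ∈ V` be orthogonal to all roots of `K`.  Take `v = (1,0;0)`, `u' = (0,0;u)`.  Let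
`r = (a,b;z)` be a root direction of `U(N) ⊥ K` orthogonal to `v`: `N b = 0`, so `b = 0`,
`(r,r) = (z,z) > 0`.  For `x ∈ K` the third component of `(2((0,0;x),r)/(r,r)) r` shows
`(2(x,z)/(z,z)) z ∈ K`.  There is `t ≠ 0` with `t z ∈ K` primitive (`exists_prim`: `K` is a lattice);
then `t z` is a root of `K` (`Rt`): `(2(x,tz)/(tz,tz)) t z = (2(x,z)/(z,z)) z ∈ K`, so
`2(x,tz)/(tz,tz) ∈ ℤ` by primitivity.  So `(u,z) = 0` and `(u',r) = 0`.  By `CF`, `u' = s v`, so
`u = 0`. -/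
theorem CF_rspan {B : LinearMap.BilinForm ℚ V} {K : AddSubgroup V} (hK : K5 B K) {N : ℕ}
    (hN : 0 < N) (hC : CF (hB N B) (hL K)) : RSpan B K := by
  intro u hu
  have hN0 : (N : ℚ) ≠ 0 := by exact_mod_cast hN.ne'
  have h := hC (1, 0, 0) (by simp) (by rw [n2_hB]; simp) (0, 0, u) (by rw [n2_hB]; simp) ?_
  · obtain ⟨t, ht⟩ := h
    have h1 := congrArg (fun w : ℚ × ℚ × V => w.2.2) ht
    simpa using h1
  · rintro ⟨a, b, z⟩ ⟨h1, h2⟩ h3
    rw [n2_hB] at h1 h3
    have hb : b = 0 := by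
      have h4 : (N : ℚ) * b = 0 := by simpa using h3
      exact (mul_eq_zero.1 h4).resolve_left hN0
    subst hb
    have h1' : 0 < B z z := by simpa using h1
    have hz : z ≠ 0 := by
      rintro rfl
      simp at h1'
    obtain ⟨y, hyK, hy0, ⟨q, hq⟩, hprim⟩ := exists_prim hK.lat hz
    have hq0 : q ≠ 0 := by
      rintro rfl
      rw [zero_smul] at hq
      exact hz hq
    have hyy : B y y ≠ 0 := (hK.pos y hy0).ne'
    have hroot : Rt B K y := by
      refine ⟨hyK, hy0, fun x hx => ?_, hprim⟩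
      have h4 := h2 (0, 0, x) ⟨⟨0, by simp⟩, ⟨0, by simp⟩, hx⟩
      have h5 := h4.2.2
      simp only [n2_hB, Prod.smul_snd] at h5
      have h6 : (2 * ((N : ℚ) * (0 * 0 + 0 * a) + B x z) / ((N : ℚ) * (a * 0 + 0 * a) + B z z)) • z =
          (2 * B x y / B y y) • y := by
        rw [hq]
        simp only [map_smul, LinearMap.smul_apply, smul_eq_mul]
        rw [smul_smul]
        congr 1
        field_simp
        ring
      rw [h6] at h5
      obtain ⟨n, hn⟩ := hprim _ h5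
      refine ⟨n, ?_⟩
      rw [← hn]
      field_simp
    have h7 := hu y hroot
    rw [n2_hB]
    simp only
    rw [hq, map_smul, h7]
    simp

/-- Row [RH-N2]: invariance of the cusp condition (`QEq_of_iso`, `CF_of_QEq`) -/
theorem CF_HIso {B : LinearMap.BilinForm ℚ V} (hs : ∀ x y, B x y = B y x) {K K' : AddSubgroup V}
    {N : ℕ} (h : HIso N B K K') (hC : CF (hB N B) (hL K)) : CF (hB N B) (hL K') := by
  obtain ⟨φ, h1, h2⟩ := h
  have h3 : QEq (hB N B) (hL K) (hB N B) (hL K') :=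
    QEq_of_iso φ one_pos (fun x y => by rw [h1, one_mul]) h2
  exact CF_of_QEq (hyp_symm (N : ℚ) hs) h3 hC

/-- Row [RH-N2]: `star` in terms of `U ⊥ K`: there is no primitive isotropic vector all of whose
products are even.  Proof: `(a,b;z) ∈ ℤ × ℤ × K` has even products iff `a, b` are even and
`z ∈ Rad B K 2`; if it is isotropic, `(z,z) = -2ab` is divisible by 8.  If `z ∈ 2K`, it is not
primitive.  Conversely for `k ∈ Rad B K 2`, `(k,k) = 8z`, `k ∉ 2K`, the vector `(2,-2z;k)` is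
isotropic, has even products and is not in `2 (U ⊥ K)`. -/
theorem star_iff {B : LinearMap.BilinForm ℚ V} {K : AddSubgroup V} (hE : EvenL B K) :
    (∀ k ∈ Rad B K 2, (∃ z : ℤ, B k k = 8 * z) → k ∈ mulL 2 K) ↔
      ∀ u ∈ Rad (hB 1 B) (hL K) 2, hB 1 B u u = 0 → u ∈ mulL 2 (hL K) := by
  constructor
  · rintro h ⟨a, b, z⟩ ⟨⟨⟨a0, ha⟩, ⟨b0, hb⟩, hz⟩, h1⟩ h2
    simp only at ha hb hz
    subst ha hb
    obtain ⟨b1, hb1⟩ := h1 (1, 0, 0) ⟨⟨1, by simp⟩, ⟨0, by simp⟩, K.zero_mem⟩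
    obtain ⟨a1, ha1⟩ := h1 (0, 1, 0) ⟨⟨0, by simp⟩, ⟨1, by simp⟩, K.zero_mem⟩
    simp only [n2_hB, map_zero] at hb1 ha1
    push_cast at hb1 ha1
    have hb1' : (b0 : ℚ) = 2 * b1 := by linear_combination hb1
    have ha1' : (a0 : ℚ) = 2 * a1 := by linear_combination ha1
    rw [n2_hB] at h2
    simp only at h2
    have hzR : z ∈ Rad B K 2 := by
      refine ⟨hz, fun y hy => ?_⟩
      obtain ⟨w, hw⟩ := h1 (0, 0, y) ⟨⟨0, by simp⟩, ⟨0, by simp⟩, hy⟩
      refine ⟨w, ?_⟩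
      rw [n2_hB] at hw
      simp only at hw
      rw [← hw]
      ring
    obtain ⟨y, hy, hzy⟩ := h z hzR ⟨-(a1 * b1), by
      push_cast
      rw [hb1', ha1'] at h2
      linear_combination h2⟩
    refine ⟨(a1, b1, y), ⟨⟨a1, rfl⟩, ⟨b1, rfl⟩, hy⟩, ?_⟩
    refine Prod.ext ?_ (Prod.ext ?_ ?_)
    · simp [ha1']
    · simp [hb1']
    · simpa using hzy
  · rintro h k ⟨hk, hk2⟩ ⟨z, hz⟩
    have h1 := h (2, -2 * z, k) ⟨⟨⟨2, by simp⟩, ⟨-2 * z, by simp⟩, hk⟩, ?_⟩ ?_
    · obtain ⟨⟨a, b, y⟩, ⟨-, -, hy⟩, h2⟩ := h1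
      refine ⟨y, hy, ?_⟩
      have h3 := congrArg (fun w : ℚ × ℚ × V => w.2.2) h2
      simpa using h3
    · rintro ⟨a, b, y⟩ ⟨⟨a0, ha⟩, ⟨b0, hb⟩, hy⟩
      simp only at ha hb hy
      subst ha hb
      obtain ⟨w, hw⟩ := hk2 y hy
      refine ⟨b0 - z * a0 + w, ?_⟩
      rw [n2_hB]
      simp only
      rw [hw]
      push_cast
      ring
    · rw [n2_hB]
      simp only
      rw [hz]
      ring

/-- Row [RH-N2]: the families are preserved.  Proof: `hyp_lat`, `hyp_even`, `hyp_int`, `hyp_elem`,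
`hyp_index` with `M = 1` and `transport` give all properties of `K'` from those of `K`
(`p² [K:Rad K p] = [U ⊥ K : Rad] = p² [K' : Rad K' p]`); `star_iff`. -/
theorem class_iso {B : LinearMap.BilinForm ℚ V} {K K' : AddSubgroup V} (h : HIso 1 B K K') :
    (F0 B K → F0 B K') ∧ (F2 B K → F2 B K') ∧ (FQ B K → FQ B K') ∧ (K5 B K → K5 B K') ∧
      (K5 B K → Big2 B K → Big2 B K') := by
  obtain ⟨φ, h1, h2⟩ := h
  obtain ⟨t1, t2, t3, t4, t5, -, -⟩ := transport φ h1 h2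
  have hlat : IsLat K → IsLat K' := fun h => hyp_lat.1 (t1.1 (hyp_lat.2 h))
  have hint : Integ B K → Integ B K' := fun h => (hyp_int 1).1 (t2.1 ((hyp_int 1).2 h))
  have heven : EvenL B K → EvenL B K' := fun h => (hyp_even 1).1 (t3.1 ((hyp_even 1).2 h))
  have helem : ∀ p : ℕ, p.Prime → Elem B K p → Elem B K' p := by
    intro p hp h
    have hpM : ¬ p ^ 2 ∣ 1 := by
      intro h3
      have h4 := Nat.dvd_one.1 h3
      have h5 : p = 1 := by
        rcases Nat.pow_eq_one.1 h4 with h6 | h6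
        · exact h6
        · omega
      exact hp.one_lt.ne' h5
    exact (hyp_elem one_pos hp hpM).1 ((t4 p).1 ((hyp_elem one_pos hp hpM).2 h))
  have hidx : ∀ p : ℕ, p.Prime → (Rad B K' p).relIndex K' = (Rad B K p).relIndex K := by
    intro p hp
    have hpM : ¬ p ∣ 1 := hp.one_lt.ne' ∘ Nat.dvd_one.1
    have h3 := t5 p
    rw [hyp_index one_pos hp hpM, hyp_index one_pos hp hpM] at h3
    exact (Nat.eq_of_mul_eq_mul_left (pow_pos hp.pos 2) h3).symm
  have hK5 : K5 B K → K5 B K' := fun h => ⟨hlat h.lat, h.symm, h.pos, h.dim⟩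
  refine ⟨?_, ?_, ?_, hK5, ?_⟩
  · intro h
    exact { toK5 := hK5 h.toK5
            even := heven h.even
            elem := fun p hp => helem p hp (h.elem p hp)
            idx := by rw [hidx 2 Nat.prime_two]; exact h.idx }
  · intro h
    refine { toK5 := hK5 h.toK5
             even := heven h.even
             elem := fun p hp => helem p hp (h.elem p hp)
             idx := by rw [hidx 2 Nat.prime_two]; exact h.idx
             star := ?_ }
    rw [star_iff (heven h.even)]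
    have h3 := (star_iff h.even).1 h.star
    intro u hu hu0
    have e1 : (((1 : ℕ) : ℚ)) = 1 := Nat.cast_one
    rw [e1] at h1
    have h4 : φ (φ.symm u) = u := φ.apply_symm_apply u
    have h5 : φ.symm u ∈ Rad (hB 1 B) (hL K) 2 := by
      apply n2_rad φ h1 h2
      rw [h4]
      exact hu
    have h6 : hB 1 B (φ.symm u) (φ.symm u) = 0 := by
      rw [← h1, h4]
      exact hu0
    have h7 := n2_mulL φ h2 2 (h3 _ h5 h6)
    rwa [h4] at h7
  · intro h
    exact { toK5 := hK5 h.toK5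
            int := hint h.int
            elem := fun p hp hp2 => helem p hp (h.elem p hp hp2)
            idx := by rw [hidx 2 Nat.prime_two]; exact h.idx }
  · intro _ h p hp hp2
    rw [hidx p hp]
    exact h p hp hp2

end RH6
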