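import Pool.Agent.RH6.N1
import Pool.Agent.RH6.N2

namespace RH6

variable {V : Type*} [AddCommGroup V] [Module ℚ V] [FiniteDimensional ℚ V]

/-- Row [RH-N4]: `Nbr B K (k + 2 x₀) 2 c = Nb2 B K k v`, if `v ≡ c + (x₀,k) mod 2`.
Proof: `x - (a/2)(k + 2 x₀) = X - (a/2) k` with `X = x - a x₀`, and
`a c + (x, k + 2x₀) = a c + (X,k) + a (x₀,k) + 2 (x,x₀)`; so `a c + (x,k+2x₀)` is even iff
`(X,k) ≡ a (c + (x₀,k)) mod 2`. -/
theorem nb2_eq {B : LinearMap.BilinForm ℚ V} (hs : ∀ x y, B x y = B y x) {K : AddSubgroup V}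
    (hK : Integ B K) {k x₀ : V} (hk : k ∈ K) (hx : x₀ ∈ K) {c v : ℤ}
    (hv : ∃ t : ℤ, B x₀ k = v - c + 2 * t) : Nbr B K (k + (2 : ℚ) • x₀) 2 c = Nb2 B K k v := by
  obtain ⟨t', ht'⟩ := hv
  ext w
  constructor
  · rintro ⟨x, hxK, a, t, rfl, h⟩
    obtain ⟨y, hy⟩ := hK x hxK x₀ hx
    refine ⟨x - a • x₀, K.sub_mem hxK (K.zsmul_mem hx _), a, t - y - a * v - a * t', ?_, ?_⟩
    · rw [← Int.cast_smul_eq_zsmul ℚ]
      push_cast
      match_scalars <;> ring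
    · rw [← Int.cast_smul_eq_zsmul ℚ]
      simp only [map_add, map_sub, map_smul, LinearMap.sub_apply, LinearMap.smul_apply,
        smul_eq_mul, hy] at h ⊢
      push_cast at h ⊢
      linear_combination h - a * ht'
  · rintro ⟨x, hxK, a, t, rfl, h⟩
    obtain ⟨y, hy⟩ := hK x hxK x₀ hx
    obtain ⟨y', hy'⟩ := hK x₀ hx x₀ hx
    refine ⟨x + a • x₀, K.add_mem hxK (K.zsmul_mem hx _), a,
      a * v + t + y + a * t' + a * y', ?_, ?_⟩
    · rw [← Int.cast_smul_eq_zsmul ℚ]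
      push_cast
      match_scalars <;> ring
    · rw [← Int.cast_smul_eq_zsmul ℚ]
      simp only [map_add, map_smul, LinearMap.add_apply, LinearMap.smul_apply,
        smul_eq_mul, hy, hy']
      push_cast
      linear_combination h + a * ht'

theorem n4_cop {c m : ℤ} (hc : c = 2 * m + 1) {N : ℕ} (hN : N = 1 ∨ N = 2) :
    IsCoprime c ((N : ℤ) * ((2 : ℕ) : ℤ)) := by
  have h2 : IsCoprime c 2 := ⟨1, -m, by rw [hc]; ring⟩
  rcases hN with rfl | rfl
  · simpa using h2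
  · have h4 : IsCoprime c (2 * 2) := h2.mul_right h2
    simpa using h4

/-- common part of the even and odd case -/
theorem n4_core {B : LinearMap.BilinForm ℚ V} (hs : ∀ x y, B x y = B y x) {K : AddSubgroup V}
    (hK : Integ B K) {k : V} (hk : k ∈ K) {u v : ℤ} (hu : B k k = 4 * u) {x₀ : V}
    (hx : x₀ ∈ K) {z w : ℤ} (hz : B x₀ k = (1 + v : ℤ) + 2 * z)
    (hw : B x₀ x₀ = (u + v : ℤ) + 2 * w) {N : ℕ} (hN : N = 1 ∨ N = 2) :
    HIso N B K (Nb2 B K k v) := by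
  have hk' : k + (2 : ℚ) • x₀ ∈ K := by
    have h1 : (2 : ℚ) • x₀ = (2 : ℤ) • x₀ := by
      rw [← Int.cast_smul_eq_zsmul ℚ]; simp
    rw [h1]
    exact K.add_mem hk (K.zsmul_mem hx _)
  have hxk : B k x₀ = B x₀ k := hs _ _
  have hc : B (k + (2 : ℚ) • x₀) (k + (2 : ℚ) • x₀) =
      -2 * ((2 : ℕ) : ℚ) * ((-(1 + 2 * u + 2 * v + 2 * z + 2 * w) : ℤ) : ℚ) := by
    simp only [map_add, map_smul, LinearMap.add_apply, LinearMap.smul_apply, smul_eq_mul, hxk,
      hu, hz, hw]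
    push_cast
    ring
  have h1 := nbr_iso hs hK hk' (N := N) (l := 2) (by omega) (by norm_num) hc
    (n4_cop (m := -(1 + u + v + z + w)) (by ring) hN)
  rw [nb2_eq hs hK hk hx (v := v)] at h1
  · exact h1
  · refine ⟨-(u + v + w), ?_⟩
    rw [hz]
    push_cast
    ring

/-- Row [RH-N4]: the neighbour of an even lattice.  `v = (k,k)/4`.
Proof: choose `x₀ = 0` if `v` is odd, `x₀ = x₁` if `v` is even, and `k' = k + 2x₀`,
`c = -(v + (k,x₀) + (x₀,x₀))`: `(k',k') = 4v + 4(k,x₀) + 4(x₀,x₀) = -4c`, `c` is odd, and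
`c + (x₀,k) ≡ v mod 2`.  `nbr_iso` with `l = 2` and `N = 1, 2`. -/
theorem nb2_even {B : LinearMap.BilinForm ℚ V} (hs : ∀ x y, B x y = B y x) {K : AddSubgroup V}
    (hK : EvenL B K) {k : V} (hk : k ∈ K) {v : ℤ} (hv : B k k = 4 * v)
    (h1 : ∃ x₁ ∈ K, ∃ z : ℤ, B x₁ k = 2 * z + 1) {N : ℕ} (hN : N = 1 ∨ N = 2) :
    HIso N B K (Nb2 B K k v) := by
  rcases Int.even_or_odd' v with ⟨m, hm | hm⟩
  · obtain ⟨x₁, hx₁, z, hz⟩ := h1
    obtain ⟨w, hw⟩ := hK.2 x₁ hx₁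
    refine n4_core hs hK.1 hk hv hx₁ (z := z - m) (w := w - v) ?_ ?_ hN
    · rw [hz, hm]
      push_cast
      ring
    · rw [hw]
      push_cast
      ring
  · refine n4_core hs hK.1 hk hv K.zero_mem (z := -m - 1) (w := -v) ?_ ?_ hN
    · rw [hm]
      simp only [map_zero, LinearMap.zero_apply]
      push_cast
      ring
    · simp only [map_zero]
      push_cast
      ring

/-- Row [RH-N4]: the neighbour of an odd lattice, unimodular at 2; `v` is arbitrary.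
Proof: let `(k,k) = 4u`.  Consider `f(x) = (k,x)`, `g(x) = (x,x)` modulo 2 on `K`.  `g` is additive
mod 2.  `f ≠ 0` as `k ∉ 2K` and `Rad B K 2 = 2K` (`[K:Rad] = 32 = [K:2K]`).  `g ≠ 0`: otherwise `K` is
even at 2 and `even_rank` says that the exponent 5 in `32 = 2^5` is even.  `f ≠ g`: otherwise `k` is
characteristic and `char_vec'` gives `(k,k)` odd.  So `f, g` are linearly independent over
`ZMod 2` and there is `x₀ ∈ K` with `f(x₀) ≡ 1 + v`, `g(x₀) ≡ u + v`.  Then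
`c = -(u + (k,x₀) + (x₀,x₀))` is odd, `c + (x₀,k) ≡ v`.  Continue as in `nb2_even`. -/
theorem nb2_odd {B : LinearMap.BilinForm ℚ V} {K : AddSubgroup V} (hF : FQ B K) {k : V}
    (hk : k ∈ K) (h2 : k ∉ mulL 2 K) {u : ℤ} (hu : B k k = 4 * u) (v : ℤ) {N : ℕ}
    (hN : N = 1 ∨ N = 2) : HIso N B K (Nb2 B K k v) := by
  have hs := hF.symm
  have hK := hF.int
  have hm : (Rad B K 2).relIndex K = 2 ^ 5 := by rw [hF.idx]; norm_num
  -- `Rad B K 2 = 2 K`
  have hRad : Rad B K 2 ≤ mulL 2 K := by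
    have h3 : (mulL 2 K).relIndex K = 2 ^ 5 := by
      rw [relIndex_mulL hF.lat 2 (by norm_num), hF.dim]
    have h4 : mulL 2 K ≤ Rad B K 2 := mulL_le_rad hK 2
    have h5 : Rad B K 2 ≤ K := fun x hx => hx.1
    have h6 := AddSubgroup.relIndex_mul_relIndex (mulL 2 K) (Rad B K 2) K h4 h5
    rw [h3, hm] at h6
    have h7 : (mulL 2 K).relIndex (Rad B K 2) = 1 := by
      have : (2 : ℕ) ^ 5 = 32 := by norm_num
      rw [this] at h6
      omega
    exact AddSubgroup.relIndex_eq_one.1 h7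
  -- pairs of parities
  let P : ℤ → ℤ → Prop := fun i j =>
    ∃ x ∈ K, (∃ z : ℤ, B x k = i + 2 * z) ∧ ∃ w : ℤ, B x x = j + 2 * w
  have hadd : ∀ i j i' j', P i j → P i' j' → P (i + i') (j + j') := by
    rintro i j i' j' ⟨x, hx, ⟨z, hz⟩, w, hw⟩ ⟨x', hx', ⟨z', hz'⟩, w', hw'⟩
    obtain ⟨y, hy⟩ := hK x hx x' hx'
    refine ⟨x + x', K.add_mem hx hx', ⟨z + z', ?_⟩, w + w' + y, ?_⟩
    · rw [map_add, LinearMap.add_apply, hz, hz']
      push_cast
      ring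
    · have h3 : B x' x = y := by rw [hs, hy]
      simp only [map_add, LinearMap.add_apply, hw, hw', hy, h3]
      push_cast
      ring
  have hmod : ∀ i j i' j', P i j → (∃ s, i' = i + 2 * s) → (∃ s, j' = j + 2 * s) → P i' j' := by
    rintro i j i' j' ⟨x, hx, ⟨z, hz⟩, w, hw⟩ ⟨s, rfl⟩ ⟨s', rfl⟩
    refine ⟨x, hx, ⟨z - s, ?_⟩, w - s', ?_⟩
    · rw [hz]; push_cast; ring
    · rw [hw]; push_cast; ring
  have hint1 : ∀ x ∈ K, ∃ a : ℤ, B x k = a := fun x hx => hK x hx k hk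
  have hint2 : ∀ x ∈ K, ∃ a : ℤ, B x x = a := fun x hx => hK x hx x hx
  have hf : ∃ x ∈ K, ∃ z : ℤ, B x k = 1 + 2 * z := by
    by_contra hcon
    push Not at hcon
    apply h2
    apply hRad
    refine ⟨hk, fun y hy => ?_⟩
    obtain ⟨a, ha⟩ := hint1 y hy
    rcases Int.even_or_odd' a with ⟨m, hm | hm⟩
    · exact ⟨m, by rw [hs, ha, hm]; push_cast; ring⟩
    · exact absurd (by rw [ha, hm]; push_cast; ring) (hcon y hy m)
  have hg : ∃ x ∈ K, ∃ z : ℤ, B x x = 1 + 2 * z := by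
    by_contra hcon
    push Not at hcon
    have hE : EvenL B K := by
      refine ⟨hK, fun y hy => ?_⟩
      obtain ⟨a, ha⟩ := hint2 y hy
      rcases Int.even_or_odd' a with ⟨m, hm | hm⟩
      · exact ⟨m, by rw [ha, hm]; push_cast; ring⟩
      · exact absurd (by rw [ha, hm]; push_cast; ring) (hcon y hy m)
    have h3 := even_rank hs hE 5 hm
    exact absurd h3 (by decide)
  have hfg : ∃ x ∈ K, ∃ z : ℤ, B x k + B x x = 1 + 2 * z := by
    by_contra hcon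
    push Not at hcon
    have h3 : ∀ x ∈ K, ∃ z : ℤ, B x x - B x k = 2 * z := by
      intro x hx
      obtain ⟨a, ha⟩ := hint1 x hx
      obtain ⟨b, hb⟩ := hint2 x hx
      rcases Int.even_or_odd' (a + b) with ⟨m, hm | hm⟩
      · refine ⟨m - a, ?_⟩
        have h4 : (a : ℚ) + b = 2 * m := by exact_mod_cast hm
        rw [ha, hb]
        push_cast
        linear_combination h4
      · exfalso
        apply hcon x hx m
        have h4 : (a : ℚ) + b = 2 * m + 1 := by exact_mod_cast hm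
        rw [ha, hb]
        linear_combination h4
    obtain ⟨z, hz⟩ := char_vec' hs hK 5 hm hk h3
    rw [hu] at hz
    have h4 : 4 * u - 5 = 2 * z := by
      have : ((4 * u - 5 : ℤ) : ℚ) = ((2 * z : ℤ) : ℚ) := by
        push_cast
        push_cast at hz
        exact hz
      exact_mod_cast this
    omega
  have h00 : P 0 0 := ⟨0, K.zero_mem, ⟨0, by simp⟩, 0, by simp⟩
  have hf' : P 1 0 ∨ P 1 1 := by
    obtain ⟨x, hx, z, hz⟩ := hf
    obtain ⟨a, ha⟩ := hint2 x hx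
    rcases Int.even_or_odd' a with ⟨m, hm | hm⟩
    · exact Or.inl ⟨x, hx, ⟨z, by rw [hz]; push_cast; ring⟩, m, by rw [ha, hm]; push_cast; ring⟩
    · exact Or.inr ⟨x, hx, ⟨z, by rw [hz]; push_cast; ring⟩, m, by rw [ha, hm]; push_cast; ring⟩
  have hg' : P 0 1 ∨ P 1 1 := by
    obtain ⟨x, hx, z, hz⟩ := hg
    obtain ⟨a, ha⟩ := hint1 x hx
    rcases Int.even_or_odd' a with ⟨m, hm | hm⟩
    · exact Or.inl ⟨x, hx, ⟨m, by rw [ha, hm]; push_cast; ring⟩, z, by rw [hz]; push_cast; ring⟩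
    · exact Or.inr ⟨x, hx, ⟨m, by rw [ha, hm]; push_cast; ring⟩, z, by rw [hz]; push_cast; ring⟩
  have hfg' : P 1 0 ∨ P 0 1 := by
    obtain ⟨x, hx, z, hz⟩ := hfg
    obtain ⟨a, ha⟩ := hint1 x hx
    obtain ⟨b, hb⟩ := hint2 x hx
    have hab : a + b = 1 + 2 * z := by
      have h4 : ((a + b : ℤ) : ℚ) = ((1 + 2 * z : ℤ) : ℚ) := by
        push_cast
        rw [← ha, ← hb]
        exact hz
      exact_mod_cast h4
    rcases Int.even_or_odd' a with ⟨m, hm | hm⟩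
    · right
      refine ⟨x, hx, ⟨m, by rw [ha, hm]; push_cast; ring⟩, z - m, ?_⟩
      have : b = 1 + 2 * (z - m) := by omega
      rw [hb, this]
      push_cast
      ring
    · left
      refine ⟨x, hx, ⟨m, by rw [ha, hm]; push_cast; ring⟩, z - m, ?_⟩
      have : b = 0 + 2 * (z - m) := by omega
      rw [hb, this]
      push_cast
      ring
  have hboth : P 1 0 ∧ P 0 1 := by
    rcases hfg' with h10 | h01
    · refine ⟨h10, ?_⟩
      rcases hg' with h | h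
      · exact h
      · exact hmod _ _ _ _ (hadd _ _ _ _ h10 h) ⟨-1, by norm_num⟩ ⟨0, by norm_num⟩
    · refine ⟨?_, h01⟩
      rcases hf' with h | h
      · exact h
      · exact hmod _ _ _ _ (hadd _ _ _ _ h01 h) ⟨0, by norm_num⟩ ⟨-1, by norm_num⟩
  obtain ⟨h10, h01⟩ := hboth
  have hall : P (1 + v) (u + v) := by
    rcases Int.even_or_odd' (1 + v) with ⟨i, hi | hi⟩ <;>
    rcases Int.even_or_odd' (u + v) with ⟨j, hj | hj⟩
    · exact hmod _ _ _ _ h00 ⟨i, by omega⟩ ⟨j, by omega⟩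
    · exact hmod _ _ _ _ h01 ⟨i, by omega⟩ ⟨j, by omega⟩
    · exact hmod _ _ _ _ h10 ⟨i, by omega⟩ ⟨j, by omega⟩
    · exact hmod _ _ _ _ (hadd _ _ _ _ h10 h01) ⟨i, by omega⟩ ⟨j, by omega⟩
  obtain ⟨x₀, hx₀, ⟨z, hz⟩, w, hw⟩ := hall
  exact n4_core hs hK hk hu hx₀ hz hw hN

end RH6
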