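import Pool.Agent.RH6.CDef

namespace RH6

variable {V : Type*} [AddCommGroup V] [Module ℚ V]

/-- the neighbour of `K` for `l = 2`: all `X - (a/2) k`, `X ∈ K`, `a ∈ ℤ`, `(X,k) ≡ a v mod 2` -/
def Nb2 (B : LinearMap.BilinForm ℚ V) (K : AddSubgroup V) (k : V) (v : ℤ) : AddSubgroup V where
  carrier := {w | ∃ x ∈ K, ∃ a t : ℤ, w = x - ((a : ℚ) / 2) • k ∧ B x k = a * v + 2 * t}
  zero_mem' := ⟨0, K.zero_mem, 0, 0, by simp, by simp⟩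
  add_mem' := by
    rintro w w' ⟨x, hx, a, t, rfl, h⟩ ⟨x', hx', a', t', rfl, h'⟩
    refine ⟨x + x', K.add_mem hx hx', a + a', t + t', ?_, ?_⟩
    · push_cast; rw [add_div, add_smul]; abel
    · push_cast; rw [map_add, LinearMap.add_apply]; linarith
  neg_mem' := by
    rintro w ⟨x, hx, a, t, rfl, h⟩
    refine ⟨-x, K.neg_mem hx, -a, -t, ?_, ?_⟩
    · push_cast; rw [neg_div, neg_smul]; abel
    · push_cast; rw [map_neg, LinearMap.neg_apply]; linarith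

/-- `U(N) ⊥ K ≅ U(N) ⊥ K'` -/
def HIso (N : ℕ) (B : LinearMap.BilinForm ℚ V) (K K' : AddSubgroup V) : Prop :=
  ∃ φ : (ℚ × ℚ × V) ≃ₗ[ℚ] (ℚ × ℚ × V),
    (∀ x y, hB N B (φ x) (φ y) = hB N B x y) ∧ ∀ x, x ∈ hL K ↔ φ x ∈ hL K'

end RH6
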