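import Pool.Agent.RH6.YDef

/-! An infinite order symmetry of a chamber, `L2:6-_3:2-_5:6-`. -/

namespace RH6.NR

def sc37 : SCert :=
  ⟨[[0, 1, 0, 0, 0, 0, 0], [1, 0, 0, 0, 0, 0, 0], [0, 0, 2, 1, 0, 0, 0], [0, 0, 1, 2, 0, 0, 0], [0, 0, 0, 0, 1, 0, 0], [0, 0, 0, 0, 0, 1, 0], [0, 0, 0, 0, 0, 0, 15]], 15,
   [[0, 15, 0, 0, 0, 0, 0], [15, 0, 0, 0, 0, 0, 0], [0, 0, 10, -5, 0, 0, 0], [0, 0, -5, 10, 0, 0, 0], [0, 0, 0, 0, 15, 0, 0], [0, 0, 0, 0, 0, 15, 0], [0, 0, 0, 0, 0, 0, 1]],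
   [11, -3, 1, 0, 1, 0, 2], [4, -3, 1, 0, 2, 0, 1], [0, -1, 0, 1, 0, 1, 0], [11, -8, 3, 3, 8, 1, 2],
   [[0, 0, 0, 0, 0, 1, 0], [0, 0, 1, -2, 0, 0, 0], [5, -2, 3, 0, 1, 0, 1], [6, -4, 0, 0, 2, 0, 2], [15, 0, 0, 0, 15, 0, 1]], 1680, [1680, 280, 120, 105, 7], 45, 165, 45,
   112, [3, 101, 112, -56, -16, -42, -7], 56, [-11, 227, 56, -84, 12, -56, 7],
   [⟨1, [[2, 0, 0, 0, 10, 4, 210], [0, 2, 0, 0, 10, 4, 270], [0, 0, 2, 0, 0, 0, 0], [0, 0, 0, 6, 14, 0, 240], [0, 0, 0, 0, 28, 0, 0], [0, 0, 0, 0, 0, 8, 240], [0, 0, 0, 0, 0, 0, 480]],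
     [[0, 0, 0, 0, 0, 0, 0], [0, 0, 0, 0, 0, 0, 0], [0, 0, 0, 0, 0, 0, 0], [0, 0, 0, 0, 0, 0, 0], [0, 0, 0, 0, 0, 0, 0], [0, 0, 0, 0, 0, 0, 0], [0, 0, 0, 0, 0, 0, 0]],
     [[-3, 11, 2, 1, 1, 0, 30], [-3, 4, 2, 1, 2, 0, 15], [0, 0, 0, 0, 0, 1, 0], [0, 0, 0, -1, 0, 0, 0], [2, -5, -1, 0, -1, 0, -15], [2, -6, -2, -1, -1, 0, -15], [2, -4, -1, 0, -1, 0, -14]]⟩,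
    ⟨2, [[1, 0, 0, 0, 5, 2, 105], [0, 1, 0, 0, 5, 2, 135], [0, 0, 1, 0, 0, 0, 0], [0, 0, 0, 3, 7, 0, 120], [0, 0, 0, 0, 14, 0, 0], [0, 0, 0, 0, 0, 4, 120], [0, 0, 0, 0, 0, 0, 240]],
     [[-1, -1, 0, 0, -1, 0, 0], [0, -1, 0, 0, 0, 0, 0], [0, 0, 0, 0, 0, -1, 0], [0, 0, 0, 0, 0, 0, 0], [-1, 0, 0, -1, -1, 0, 0], [0, 0, 0, 0, -1, 0, 0], [0, 0, 0, -1, -1, 0, 0]],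
     [[-2, 12, 2, 1, 2, 0, 30], [-2, 4, 2, 1, 2, 0, 15], [0, 0, 0, 0, 0, 2, 0], [0, 0, 0, -1, 0, 0, 0], [2, -4, 0, 2, 0, 0, -15], [2, -6, -2, -1, 0, 0, -15], [2, -4, 0, 2, 0, 0, -14]]⟩,
    ⟨3, [[2, 0, 0, 0, 10, 4, 50], [0, 2, 0, 0, 10, 4, 110], [0, 0, 2, 0, 0, 0, 0], [0, 0, 0, 2, 14, 0, 80], [0, 0, 0, 0, 28, 0, 0], [0, 0, 0, 0, 0, 8, 80], [0, 0, 0, 0, 0, 0, 160]],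
     [[1, 0, 0, 1, -1, 0, 0], [-1, 0, 0, 1, 1, 0, 0], [0, 0, 0, 0, 0, -1, 0], [0, 0, 0, 0, 0, 0, 0], [-1, 1, 0, 1, 1, 0, 0], [0, 1, 0, -1, 1, 0, 0], [0, 1, 0, 1, 1, 0, 0]],
     [[-1, 3, 0, -1, 1, 0, 10], [-1, 2, 0, -1, 0, 0, 5], [0, 0, 0, 0, 0, 1, 0], [0, 0, 0, -1, 0, 0, 0], [0, -1, -1, -1, -1, 0, -5], [0, -2, 0, 1, -1, 0, -5], [0, -1, -1, -1, -1, 0, -4]]⟩,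
    ⟨5, [[2, 0, 0, 0, 10, 4, 18], [0, 2, 0, 0, 10, 4, 78], [0, 0, 2, 0, 0, 0, 0], [0, 0, 0, 6, 14, 0, 48], [0, 0, 0, 0, 28, 0, 0], [0, 0, 0, 0, 0, 8, 48], [0, 0, 0, 0, 0, 0, 96]],
     [[-2, 1, -2, 0, -2, 0, 0], [2, 1, -2, 0, 1, 0, 0], [0, 0, 0, 0, 0, -2, 0], [0, 0, 1, -2, 0, 0, 0], [0, 1, -2, 1, 2, 0, 0], [2, 1, 2, 0, 2, 0, 0], [-1, 1, -2, 1, 2, 0, 0]],
     [[-1, 3, 2, 1, 1, 0, 6], [-1, 0, 2, 1, 0, 0, 3], [0, 0, 0, 0, 0, 1, 0], [0, 0, 0, 1, 0, 0, 0], [0, -1, 1, 0, -1, 0, -3], [0, -2, -2, -1, -1, 0, -3], [0, 0, 1, 0, -1, 0, -2]]⟩,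
    ⟨6, [[1, 0, 0, 0, 5, 2, 25], [0, 1, 0, 0, 5, 2, 55], [0, 0, 1, 0, 0, 0, 0], [0, 0, 0, 1, 7, 0, 40], [0, 0, 0, 0, 14, 0, 0], [0, 0, 0, 0, 0, 4, 40], [0, 0, 0, 0, 0, 0, 80]],
     [[-1, -3, 1, 0, 1, 0, 0], [-2, -3, 1, 0, 2, 0, 0], [0, 0, 0, 0, 0, 1, 0], [0, 0, 1, -2, 0, 0, 0], [1, 2, -1, 1, -1, 0, 0], [0, 2, -1, 0, -1, 0, 0], [-3, 2, -1, 1, -1, 0, 0]],
     [[0, 4, 0, 0, 0, 0, 10], [0, 2, 0, 0, 0, 0, 5], [0, 0, 0, 0, 0, 0, 0], [0, 0, 0, 0, 0, 0, 0], [0, -2, 0, 0, 0, 0, -5], [0, -2, 0, 0, 0, 0, -5], [0, 0, 0, 0, 0, 0, -4]]⟩,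
    ⟨10, [[1, 0, 0, 0, 5, 2, 9], [0, 1, 0, 0, 5, 2, 39], [0, 0, 1, 0, 0, 0, 0], [0, 0, 0, 3, 7, 0, 24], [0, 0, 0, 0, 14, 0, 0], [0, 0, 0, 0, 0, 4, 24], [0, 0, 0, 0, 0, 0, 48]],
     [[1, -3, 1, -5, 1, 0, 0], [4, -3, 1, -5, 2, 0, 0], [0, 0, 0, 0, 0, 1, 0], [0, 0, -3, 1, 0, 0, 0], [-5, 2, -4, -3, -1, 0, 0], [4, 2, -1, -5, -1, 0, 0], [-2, 2, -4, -3, -1, 0, 0]],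
     [[0, 2, 1, 2, 0, 0, 6], [0, 0, 1, 2, 0, 0, 3], [0, 0, 0, 0, 0, 0, 0], [0, 0, 1, 0, 0, 0, 0], [0, 0, 2, 2, 0, 0, -3], [0, -2, 1, 2, 0, 0, -3], [0, 0, 2, 2, 0, 0, -2]]⟩,
    ⟨15, [[2, 0, 0, 0, 10, 4, 18], [0, 2, 0, 0, 10, 4, 14], [0, 0, 2, 0, 0, 0, 0], [0, 0, 0, 2, 14, 0, 16], [0, 0, 0, 0, 28, 0, 0], [0, 0, 0, 0, 0, 8, 16], [0, 0, 0, 0, 0, 0, 32]],
     [[-2, 6, 3, -5, -7, 0, 0], [2, 6, 3, -5, 1, 0, 0], [0, 0, 0, 0, 0, -7, 0], [0, 0, 3, -6, 0, 0, 0], [5, 1, -3, -2, 7, 0, 0], [-3, 1, -3, 5, 7, 0, 0], [-2, 1, -3, -2, 0, 0, 0]],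
     [[-1, 1, 0, 1, 1, 0, 2], [-1, 0, 0, 1, 0, 0, 1], [0, 0, 0, 0, 0, 1, 0], [0, 0, 0, 1, 0, 0, 0], [0, -1, 1, 1, -1, 0, -1], [0, 0, 0, -1, -1, 0, -1], [0, 0, 1, 1, 0, 0, -1]]⟩,
    ⟨30, [[1, 0, 0, 0, 5, 2, 9], [0, 1, 0, 0, 5, 2, 7], [0, 0, 1, 0, 0, 0, 0], [0, 0, 0, 1, 7, 0, 8], [0, 0, 0, 0, 14, 0, 0], [0, 0, 0, 0, 0, 4, 8], [0, 0, 0, 0, 0, 0, 16]],
     [[11, -3, 1, 0, 1, 0, 2], [4, -3, 1, 0, 2, 0, 1], [0, 0, 0, 0, 0, 1, 0], [0, 0, 1, -2, 0, 0, 0], [-5, 2, -1, 1, -1, 0, -1], [-6, 2, -1, 0, -1, 0, -1], [-4, 2, -1, 1, 0, 0, -1]],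
     [[0, 0, 0, 0, 0, 0, 0], [0, 0, 0, 0, 0, 0, 0], [0, 0, 0, 0, 0, 0, 0], [0, 0, 0, 0, 0, 0, 0], [0, 0, 0, 0, 0, 0, 0], [0, 0, 0, 0, 0, 0, 0], [0, 0, 0, 0, 0, 0, 0]]⟩]⟩

theorem sc37_ok : chkStep sc37 = true := by decide +kernel

def U37 : List (List Int) :=
  [[5, -15, -5, -4, -1, 0, -45], [-3, 11, 3, 3, 0, 0, 30], [1, -4, -2, -1, 0, 0, -10], [1, -3, 0, 0, 0, 0, -10], [3, -11, -3, -3, -1, 0, -30], [0, 0, 0, 0, 0, 1, 0], [1, -3, -1, -1, 0, 0, -9]]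

def V37 : List (List Int) :=
  [[11, -15, -11, -10, -11, 0, -45], [-3, 5, 3, 3, 3, 0, 15], [1, -2, -2, -1, -1, 0, -5], [1, -1, 0, 0, -1, 0, -5], [0, -1, 0, 0, -1, 0, 0], [0, 0, 0, 0, 0, 1, 0], [2, -3, -2, -2, -2, 0, -9]]

theorem nr37_ok : chkNR sc37.G [1, -1, 0, 0, 0, 0, 0] U37 V37
    [-1, -1, 0, 0, 1, -1, 0] [11, -3, 1, 0, 1, 0, 2]
    [0, -1, 0, 1, 0, 1, 0] [sc37] = true := by decide +kernel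

end RH6.NR
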