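import Pool.Agent.RH6.PDef
import Pool.Agent.RH6.B1

namespace RH6

variable {V : Type*} [AddCommGroup V] [Module ℚ V] [FiniteDimensional ℚ V]

theorem p1_mem_word {y : V5} {i : Fin 5} {z : ℤ} (hz : y i = z) : i ∈ word y ↔ Odd z := by
  classical
  unfold word
  rw [Finset.mem_filter]
  constructor
  · rintro ⟨_, t, ht⟩
    refine ⟨t, ?_⟩
    rw [hz] at ht
    exact_mod_cast ht
  · rintro ⟨t, ht⟩
    refine ⟨Finset.mem_univ _, t, ?_⟩
    rw [hz, ht]
    push_cast
    rfl

omit [FiniteDimensional ℚ V] in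
theorem p1_even_mem {B : LinearMap.BilinForm ℚ V} {K : AddSubgroup V} {r : Fin 5 → V}
    {ψ : V ≃ₗ[ℚ] V5} (h : FC B K r ψ) {v : V} (hv : ∀ i, ∃ z : ℤ, ψ v i = 2 * z) : v ∈ K := by
  choose z hz using hv
  have hv' : v = ∑ i, (z i) • r i := by
    apply ψ.injective
    rw [map_sum]
    funext j
    rw [Finset.sum_apply, Finset.sum_eq_single j]
    · rw [map_zsmul, h.psr, Pi.smul_apply, Pi.single_eq_same, hz j, zsmul_eq_mul]
      ring
    · intro i _ hij
      rw [map_zsmul, h.psr, Pi.smul_apply, Pi.single_eq_of_ne (fun h => hij h.symm), smul_zero]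
    · intro hj
      exact absurd (Finset.mem_univ j) hj
  rw [hv']
  exact K.sum_mem fun i _ => K.zsmul_mem (h.rt i).1 (z i)

/-- Row [RH-P1]: frame coordinates exist: five orthogonal nonzero vectors are a basis of `V`;
`x = ∑ ((x,r_i)/(r_i,r_i)) r_i = ½ ∑ ψ_i r_i`. -/
theorem exists_FC {B : LinearMap.BilinForm ℚ V} {K : AddSubgroup V} (hK : K5 B K)
    (r : Fin 5 → V) (hr : ∀ i, Rt B K (r i)) (ho : ∀ i j, i ≠ j → B (r i) (r j) = 0) :
    ∃ ψ : V ≃ₗ[ℚ] V5, FC B K r ψ := by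
  have hne : ∀ i, B (r i) (r i) ≠ 0 := fun i => (hK.pos _ (hr i).2.1).ne'
  let f : V →ₗ[ℚ] V5 := LinearMap.pi fun i => (2 / B (r i) (r i)) • (LinearMap.flip B (r i))
  have hf : ∀ x i, f x i = 2 * B x (r i) / B (r i) (r i) := by
    intro x i
    simp only [f, LinearMap.pi_apply, LinearMap.smul_apply, LinearMap.flip_apply, smul_eq_mul]
    ring
  have hfr : ∀ i, f (r i) = Pi.single i 2 := by
    intro i
    funext j
    rw [hf]
    by_cases hij : j = i
    · subst hij
      rw [Pi.single_eq_same, mul_div_assoc, div_self (hne j), mul_one]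
    · rw [Pi.single_eq_of_ne hij, ho i j (fun h => hij h.symm), mul_zero, zero_div]
  have hsurj : Function.Surjective f := by
    intro y
    refine ⟨∑ i, (y i / 2) • r i, ?_⟩
    rw [map_sum]
    funext j
    rw [Finset.sum_apply, Finset.sum_eq_single j]
    · rw [map_smul, hfr, Pi.smul_apply, Pi.single_eq_same, smul_eq_mul]
      ring
    · intro i _ hij
      rw [map_smul, hfr, Pi.smul_apply, Pi.single_eq_of_ne (fun h => hij h.symm), smul_zero]
    · intro h
      exact absurd (Finset.mem_univ j) h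
  have hrank : Module.finrank ℚ V = Module.finrank ℚ V5 := by
    rw [hK.dim, Module.finrank_fin_fun]
  have hinj : Function.Injective f :=
    (LinearMap.injective_iff_surjective_of_finrank_eq_finrank hrank).2 hsurj
  let ψ : V ≃ₗ[ℚ] V5 := LinearEquiv.ofBijective f ⟨hinj, hsurj⟩
  have hψ : ∀ x, ψ x = f x := fun x => rfl
  have hexp : ∀ x, x = ∑ i, (ψ x i / 2) • r i := by
    intro x
    apply hinj
    rw [map_sum]
    funext j
    rw [Finset.sum_apply, Finset.sum_eq_single j]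
    · rw [map_smul, hfr, Pi.smul_apply, Pi.single_eq_same, smul_eq_mul, hψ]
      ring
    · intro i _ hij
      rw [map_smul, hfr, Pi.smul_apply, Pi.single_eq_of_ne (fun h => hij h.symm), smul_zero]
    · intro h
      exact absurd (Finset.mem_univ j) h
  refine ⟨ψ, hr, ho, fun x i => by rw [hψ, hf], ?_, fun i => by rw [hψ, hfr], ?_⟩
  · intro x y
    conv_lhs => rw [hexp x]
    rw [map_sum, LinearMap.sum_apply, Finset.mul_sum]
    refine Finset.sum_congr rfl fun i _ => ?_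
    rw [map_smul, LinearMap.smul_apply, smul_eq_mul, hK.symm (r i) y, hψ y, hf]
    have := hne i
    field_simp
    try ring
  · intro x hx i
    obtain ⟨n, hn⟩ := (hr i).2.2.1 x hx
    refine ⟨n, ?_⟩
    rw [hψ, hf, hn, mul_div_assoc, div_self (hne i), mul_one]

/-- Row [RH-P1]: a vector with even integral coordinates is an integral combination of the `r_i`; so
membership in `K` of a vector with integral coordinates depends only on its word. -/
theorem mem_iff_word {B : LinearMap.BilinForm ℚ V} {K : AddSubgroup V} {r : Fin 5 → V}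
    {ψ : V ≃ₗ[ℚ] V5} (h : FC B K r ψ) {x : V} (hx : ∀ i, ∃ z : ℤ, ψ x i = z) :
    x ∈ K ↔ word (ψ x) ∈ Code ψ K := by
  constructor
  · intro hxK
    exact ⟨x, hxK, rfl⟩
  · rintro ⟨x', hx', hw⟩
    have hev : ∀ i, ∃ z : ℤ, ψ (x - x') i = 2 * z := by
      intro i
      obtain ⟨z, hz⟩ := hx i
      obtain ⟨z', hz'⟩ := h.int x' hx' i
      have h1 : i ∈ word (ψ x') ↔ i ∈ word (ψ x) := by rw [hw]
      rw [p1_mem_word hz, p1_mem_word hz'] at h1
      have h2 : Even (z - z') := by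
        rcases Int.even_or_odd z with hzz | hzz
        · have h3 : Even z' := by
            rw [← Int.not_odd_iff_even, h1, Int.not_odd_iff_even]
            exact hzz
          exact hzz.sub h3
        · exact Odd.sub_odd hzz (h1.2 hzz)
      obtain ⟨t, ht⟩ := h2
      refine ⟨t, ?_⟩
      rw [map_sub, Pi.sub_apply, hz, hz']
      have h4 : ((z - z' : ℤ) : ℚ) = ((t + t : ℤ) : ℚ) := by rw [ht]
      push_cast at h4
      linarith
    have hK : x - x' ∈ K := p1_even_mem h hev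
    have := K.add_mem hx' hK
    rwa [add_sub_cancel] at this

theorem word_add {y y' : V5} (hy : ∀ i, ∃ z : ℤ, y i = z) (hy' : ∀ i, ∃ z : ℤ, y' i = z) :
    word (y + y') = symmDiff (word y) (word y') := by
  ext i
  obtain ⟨z, hz⟩ := hy i
  obtain ⟨z', hz'⟩ := hy' i
  have hs : (y + y') i = ((z + z' : ℤ) : ℚ) := by
    rw [Pi.add_apply, hz, hz']
    push_cast
    rfl
  rw [Finset.mem_symmDiff, p1_mem_word hz, p1_mem_word hz', p1_mem_word hs, Int.odd_add]
  rw [← Int.not_even_iff_odd (n := z'), not_not]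
  tauto

theorem code_zero {B : LinearMap.BilinForm ℚ V} {K : AddSubgroup V} {r : Fin 5 → V}
    {ψ : V ≃ₗ[ℚ] V5} (h : FC B K r ψ) : ∅ ∈ Code ψ K := by
  refine ⟨0, K.zero_mem, ?_⟩
  rw [map_zero]
  ext i
  have h0 : (0 : V5) i = ((0 : ℤ) : ℚ) := by simp
  rw [p1_mem_word h0]
  simp

theorem code_add {B : LinearMap.BilinForm ℚ V} {K : AddSubgroup V} {r : Fin 5 → V}
    {ψ : V ≃ₗ[ℚ] V5} (h : FC B K r ψ) {w w' : Finset (Fin 5)} (hw : w ∈ Code ψ K)
    (hw' : w' ∈ Code ψ K) : symmDiff w w' ∈ Code ψ K := by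
  obtain ⟨x, hx, rfl⟩ := hw
  obtain ⟨x', hx', rfl⟩ := hw'
  refine ⟨x + x', K.add_mem hx hx', ?_⟩
  rw [map_add]
  exact word_add (h.int x hx) (h.int x' hx')

/-- Row [RH-P1]: the vector with coordinates `1` on `w` and `0` elsewhere is in `K` iff `w` is in the
code -/
theorem code_iff {B : LinearMap.BilinForm ℚ V} {K : AddSubgroup V} {r : Fin 5 → V}
    {ψ : V ≃ₗ[ℚ] V5} (h : FC B K r ψ) (w : Finset (Fin 5)) :
    w ∈ Code ψ K ↔ ψ.symm (fun i => if i ∈ w then 1 else 0) ∈ K := by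
  have hint : ∀ i, ∃ z : ℤ, ψ (ψ.symm (fun i => if i ∈ w then 1 else 0)) i = z := by
    intro i
    rw [LinearEquiv.apply_symm_apply]
    refine ⟨if i ∈ w then 1 else 0, ?_⟩
    split_ifs <;> simp
  rw [mem_iff_word h hint, LinearEquiv.apply_symm_apply]
  have hw : word (fun i => if i ∈ w then (1 : ℚ) else 0) = w := by
    ext i
    have h1 : (fun i => if i ∈ w then (1 : ℚ) else 0) i = ((if i ∈ w then 1 else 0 : ℤ) : ℚ) := by
      show (if i ∈ w then (1 : ℚ) else 0) = _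
      split_ifs <;> simp
    rw [p1_mem_word h1]
    split_ifs with hi
    · simp [hi]
    · simp [hi]
  rw [hw]

/-- Row [RH-P1]: assembling an isometry with a pattern lattice: `ψ' x i = ψ x (σ i) / δ i`. -/
theorem rep_of {B : LinearMap.BilinForm ℚ V} {K : AddSubgroup V} {r : Fin 5 → V}
    {ψ : V ≃ₗ[ℚ] V5} (h : FC B K r ψ) (σ : Equiv.Perm (Fin 5)) (δ A m : Fin 5 → ℕ)
    (H : List (Fin 5 → ℕ)) (hδ : ∀ i, 0 < δ i)
    (hn : ∀ i, B (r (σ i)) (r (σ i)) * (δ i : ℚ) ^ 2 = 2 * A i * m i)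
    (hc : ∀ x, x ∈ K ↔ ∃ z : Fin 5 → ℤ, (∀ i, ψ x (σ i) = δ i * z i) ∧
      ∀ h ∈ H, Even (∑ i, (h i : ℤ) * z i)) : Rep A H m B K := by
  have hδq : ∀ i, (δ i : ℚ) ≠ 0 := fun i => by
    have := hδ i
    positivity
  let e1 : V5 ≃ₗ[ℚ] V5 := LinearEquiv.funCongrLeft ℚ ℚ σ
  let e2 : V5 ≃ₗ[ℚ] V5 := LinearEquiv.piCongrRight fun i =>
    LinearEquiv.smulOfNeZero ℚ ℚ ((δ i : ℚ)⁻¹) (inv_ne_zero (hδq i))
  have hap : ∀ x i, (ψ.trans (e1.trans e2)) x i = ψ x (σ i) / δ i := by
    intro x i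
    show ((δ i : ℚ)⁻¹) • (ψ x (σ i)) = _
    rw [smul_eq_mul]
    ring
  refine ⟨ψ.trans (e1.trans e2), ?_, ?_⟩
  · intro x y
    have h1 : Bm A m (ψ.trans (e1.trans e2) x) (ψ.trans (e1.trans e2) y) =
        (1 / 2 : ℚ) * ∑ i, (A i : ℚ) * m i * (ψ.trans (e1.trans e2) x i) *
          (ψ.trans (e1.trans e2) y i) := rfl
    rw [h1, h.form x y, ← Equiv.sum_comp σ (fun i => B (r i) (r i) * ψ x i * ψ y i),
      Finset.mul_sum, Finset.mul_sum]
    refine Finset.sum_congr rfl fun i _ => ?_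
    rw [hap, hap]
    have h2 := hn i
    have h3 : (A i : ℚ) * m i = B (r (σ i)) (r (σ i)) * (δ i : ℚ) ^ 2 / 2 := by linarith
    rw [h3]
    have h4 := hδq i
    field_simp
    try ring
  · intro x
    rw [hc x]
    constructor
    · rintro ⟨z, hz, hz'⟩
      refine ⟨z, fun i => ?_, hz'⟩
      rw [hap, hz i]
      have h4 := hδq i
      field_simp
    · rintro ⟨z, hz, hz'⟩
      refine ⟨z, fun i => ?_, hz'⟩
      have h5 := hz i
      rw [hap] at h5
      have h4 := hδq i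
      field_simp at h5
      linarith

/-- Row [RH-P1]: `Big2` in a pattern lattice: if an odd prime `p` divides `m_i` for more than three
indices `i`, then `[K : Rad K p] ≤ p`: for `x ∈ K` the functional is
`(x,y) = ½ ∑ A_i m_i x_i y_i`, so membership in `Rad` only depends on the coordinates
`x_i mod p`, `p ∤ m_i` (at most one `i`). -/
theorem big_of {A m : Fin 5 → ℕ} {H : List (Fin 5 → ℕ)} (hI : Integ (Bm A m) (KH H))
    (hL : IsLat (KH H)) (hb : Big2 (Bm A m) (KH H)) {p : ℕ} (hp : p.Prime) (hp2 : p ≠ 2) :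
    (Finset.univ.filter (fun i => p ∣ m i)).card ≤ 3 := by
  by_contra hcon
  have hpp := hp.two_le
  -- at most one index with `p ∤ m i`
  have hone : ∃ i0 : Fin 5, ∀ i, i ≠ i0 → p ∣ m i := by
    have hc : (Finset.univ.filter (fun i => ¬ p ∣ m i)).card ≤ 1 := by
      have h1 := Finset.card_filter_add_card_filter_not (s := (Finset.univ : Finset (Fin 5)))
        (fun i => p ∣ m i)
      rw [Finset.card_univ, Fintype.card_fin] at h1
      omega
    rw [Finset.card_le_one_iff_subset_singleton] at hc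
    obtain ⟨i0, hi0⟩ := hc
    refine ⟨i0, fun i hi => ?_⟩
    by_contra hd
    have : i ∈ ({i0} : Finset (Fin 5)) := hi0 (Finset.mem_filter.2 ⟨Finset.mem_univ _, hd⟩)
    exact hi (Finset.mem_singleton.1 this)
  obtain ⟨i0, hi0⟩ := hone
  have hfl : ∀ x ∈ KH H, x i0 = ((⌊x i0⌋ : ℤ) : ℚ) := by
    rintro x ⟨z, hz, _⟩
    rw [hz i0, Int.floor_intCast]
  let φ : KH H →+ ZMod p := AddMonoidHom.mk' (fun x => ((⌊(x : V5) i0⌋ : ℤ) : ZMod p)) (by
    intro x y
    have hx := hfl x x.2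
    have hy := hfl y y.2
    have h1 : ((x + y : KH H) : V5) i0 =
        ((⌊(x : V5) i0⌋ + ⌊(y : V5) i0⌋ : ℤ) : ℚ) := by
      rw [AddSubgroup.coe_add, Pi.add_apply]
      push_cast
      rw [← hx, ← hy]
    show ((⌊((x + y : KH H) : V5) i0⌋ : ℤ) : ZMod p) = _
    rw [h1, Int.floor_intCast, Int.cast_add])
  have hker : φ.ker ≤ (Rad (Bm A m) (KH H) p).addSubgroupOf (KH H) := by
    intro x hx
    rw [AddSubgroup.mem_addSubgroupOf]
    refine ⟨x.2, fun y hy => ?_⟩
    have hyK := hy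
    have hx0 : ((⌊(x : V5) i0⌋ : ℤ) : ZMod p) = 0 := hx
    rw [ZMod.intCast_zmod_eq_zero_iff_dvd] at hx0
    obtain ⟨u, hu⟩ := hx0
    obtain ⟨z, hz, _⟩ := x.2
    obtain ⟨z', hz', _⟩ := hy
    have hz0 : z i0 = p * u := by
      have h1 := hfl x x.2
      rw [hu, hz i0] at h1
      exact_mod_cast h1
    obtain ⟨w, hw⟩ := hI x x.2 y hyK
    have h2 : (Bm A m) (x : V5) y = (1 / 2 : ℚ) * ∑ i, (A i : ℚ) * m i * (x : V5) i * y i := rfl
    have h3 : ((2 * w : ℤ) : ℚ) = ((∑ i, (A i : ℤ) * m i * z i * z' i : ℤ) : ℚ) := by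
      push_cast
      rw [← hw, h2]
      rw [← mul_assoc]
      norm_num
      refine Finset.sum_congr rfl fun i _ => ?_
      rw [hz i, hz' i]
    have h4 : (2 * w : ℤ) = ∑ i, (A i : ℤ) * m i * z i * z' i := by exact_mod_cast h3
    have h5 : (p : ℤ) ∣ 2 * w := by
      rw [h4]
      refine Finset.dvd_sum fun i _ => ?_
      by_cases hi : i = i0
      · rw [hi, hz0]
        exact ⟨A i0 * m i0 * u * z' i0, by ring⟩
      · obtain ⟨t, ht⟩ := hi0 i hi
        rw [ht]
        refine ⟨A i * t * z i * z' i, ?_⟩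
        push_cast
        ring
    have hcop : IsCoprime (p : ℤ) 2 := by
      have h8 : IsCoprime (p : ℤ) ((2 : ℕ) : ℤ) :=
        Nat.isCoprime_iff_coprime.2 ((Nat.coprime_primes hp Nat.prime_two).2 hp2)
      exact_mod_cast h8
    obtain ⟨t, ht⟩ := hcop.dvd_of_dvd_mul_left h5
    refine ⟨t, ?_⟩
    rw [hw, ht]
    push_cast
    rfl
  have hfin : Finite (ZMod p) := by
    have : NeZero p := ⟨by omega⟩
    infer_instance
  have h6 : (Rad (Bm A m) (KH H) p).relIndex (KH H) ∣ φ.ker.index :=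
    AddSubgroup.index_dvd_of_le hker
  have h7 : φ.ker.index ≤ p := by
    rw [AddSubgroup.index_ker]
    have h8 := Nat.card_le_card_of_injective (Subtype.val : φ.range → ZMod p)
      Subtype.val_injective
    rwa [Nat.card_zmod] at h8
  have h9 : 0 < φ.ker.index := by
    rw [AddSubgroup.index_ker]
    exact Nat.card_pos
  have h10 := Nat.le_of_dvd h9 h6
  have h11 := hb p hp hp2
  nlinarith

end RH6
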