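import Pool.Agent.RH6.P1
import Pool.Agent.RH6.P2
import Pool.Agent.RH6.N5
import Pool.Agent.RH6.F3

namespace RH6

variable {V : Type*} [AddCommGroup V] [Module ℚ V] [FiniteDimensional ℚ V]

theorem p4_mem_word {y : V5} {n : Fin 5 → ℤ} (hn : ∀ i, y i = n i) (i : Fin 5) :
    i ∈ word y ↔ Odd (n i) := by
  classical
  unfold word
  rw [Finset.mem_filter]
  constructor
  · rintro ⟨_, z, hz⟩
    rw [hn i] at hz
    exact ⟨z, by exact_mod_cast hz⟩
  · rintro ⟨z, hz⟩
    exact ⟨Finset.mem_univ _, z, by rw [hn i, hz]; push_cast; ring⟩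

theorem p4_par (s : Finset (Fin 5)) (f : Fin 5 → ℤ) :
    Even (∑ i ∈ s, f i) ↔ Even (s.filter (fun i => Odd (f i))).card := by
  classical
  induction s using Finset.induction_on with
  | empty => simp
  | insert a s ha ih =>
    rw [Finset.sum_insert ha, Finset.filter_insert]
    by_cases ho : Odd (f a)
    · rw [if_pos ho, Finset.card_insert_of_notMem (by simp [ha])]
      rw [Int.even_add, Nat.even_add_one, ← ih]
      have : ¬ Even (f a) := by rwa [Int.not_even_iff_odd]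
      simp only [this, false_iff]
    · rw [if_neg ho, Int.even_add]
      have : Even (f a) := by rwa [Int.not_odd_iff_even] at ho
      simp only [this, true_iff]
      exact ih

/-- the sum over a set of products with odd coefficients -/
theorem p4_par2 (s : Finset (Fin 5)) (c n n' : Fin 5 → ℤ) (hc : ∀ i ∈ s, Odd (c i))
    {w w' : Finset (Fin 5)} (hw : ∀ i, i ∈ w ↔ Odd (n i)) (hw' : ∀ i, i ∈ w' ↔ Odd (n' i)) :
    Even (∑ i ∈ s, c i * n i * n' i) ↔ Even (w ∩ w' ∩ s).card := by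
  classical
  rw [p4_par]
  have : s.filter (fun i => Odd (c i * n i * n' i)) = w ∩ w' ∩ s := by
    ext i
    simp only [Finset.mem_filter, Finset.mem_inter, hw, hw', Int.odd_mul]
    constructor
    · rintro ⟨h1, ⟨h2, h3⟩, h4⟩; exact ⟨⟨h3, h4⟩, h1⟩
    · rintro ⟨⟨h3, h4⟩, h1⟩; exact ⟨h1, ⟨hc i h1, h3⟩, h4⟩
  rw [this]

theorem p4_par1 (s : Finset (Fin 5)) (c n : Fin 5 → ℤ) (hc : ∀ i ∈ s, Odd (c i))
    {w : Finset (Fin 5)} (hw : ∀ i, i ∈ w ↔ Odd (n i)) :
    Even (∑ i ∈ s, c i * n i) ↔ Even (s ∩ w).card := by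
  classical
  rw [p4_par]
  have : s.filter (fun i => Odd (c i * n i)) = s ∩ w := by
    ext i
    simp only [Finset.mem_filter, Finset.mem_inter, hw, Int.odd_mul]
    constructor
    · rintro ⟨h1, h2, h3⟩; exact ⟨h1, h3⟩
    · rintro ⟨h1, h3⟩; exact ⟨h1, hc i h1, h3⟩
  rw [this]

/-- the norms -/
theorem p4_norms {B : LinearMap.BilinForm ℚ V} {K : AddSubgroup V} (hF : F2 B K)
    {r : Fin 5 → V} (hr : ∀ i, Rt B K (r i)) {T : Finset (Fin 5)}
    (hT : ∀ i, i ∈ T ↔ ∃ μ : ℕ, Odd μ ∧ B (r i) (r i) = 2 * μ) :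
    ∃ μ : Fin 5 → ℤ, (∀ i, Odd (μ i)) ∧ (∀ i ∈ T, B (r i) (r i) = 2 * μ i) ∧
      ∀ i, i ∉ T → B (r i) (r i) = 4 * μ i := by
  classical
  have h1 : ∀ i, ∃ μ : ℤ, Odd μ ∧ (i ∈ T → B (r i) (r i) = 2 * μ) ∧
      (i ∉ T → B (r i) (r i) = 4 * μ) := by
    intro i
    by_cases hi : i ∈ T
    · obtain ⟨m, hm, hB⟩ := (hT i).1 hi
      exact ⟨m, by exact_mod_cast hm, fun _ => by rw [hB]; push_cast; ring,
        fun h => absurd hi h⟩
    · obtain ⟨m, hm, _, hB | hB⟩ := (root_norm (hr i)).2.1 hF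
      · exact absurd ((hT i).2 ⟨m, hm, hB⟩) hi
      · exact ⟨m, by exact_mod_cast hm, fun h => absurd h hi, fun _ => by rw [hB]; push_cast; ring⟩
  choose μ hμ using h1
  exact ⟨μ, fun i => (hμ i).1, fun i hi => (hμ i).2.1 hi, fun i hi => (hμ i).2.2 hi⟩

omit [FiniteDimensional ℚ V] in
/-- the form in integral coordinates -/
theorem p4_form {B : LinearMap.BilinForm ℚ V} {K : AddSubgroup V}
    {r : Fin 5 → V} {ψ : V ≃ₗ[ℚ] V5} (h : FC B K r ψ) {T : Finset (Fin 5)} {μ : Fin 5 → ℤ}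
    (h1 : ∀ i ∈ T, B (r i) (r i) = 2 * μ i) (h2 : ∀ i, i ∉ T → B (r i) (r i) = 4 * μ i)
    {x x' : V} {n n' : Fin 5 → ℤ} (hn : ∀ i, ψ x i = n i) (hn' : ∀ i, ψ x' i = n' i) :
    2 * B x x' = ((∑ i ∈ T, μ i * n i * n' i + 2 * ∑ i ∈ Tᶜ, μ i * n i * n' i : ℤ) : ℚ) := by
  classical
  rw [h.form x x', ← Finset.sum_add_sum_compl T]
  have e1 : ∑ i ∈ T, B (r i) (r i) * ψ x i * ψ x' i = ((2 * ∑ i ∈ T, μ i * n i * n' i : ℤ) : ℚ) := by
    push_cast
    rw [Finset.mul_sum]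
    apply Finset.sum_congr rfl
    intro i hi
    rw [h1 i hi, hn i, hn' i]; ring
  have e2 : ∑ i ∈ Tᶜ, B (r i) (r i) * ψ x i * ψ x' i
      = ((4 * ∑ i ∈ Tᶜ, μ i * n i * n' i : ℤ) : ℚ) := by
    push_cast
    rw [Finset.mul_sum]
    apply Finset.sum_congr rfl
    intro i hi
    rw [h2 i (by simpa using hi), hn i, hn' i]; ring
  rw [e1, e2]
  push_cast
  ring

omit [FiniteDimensional ℚ V] in
theorem p4_root {B : LinearMap.BilinForm ℚ V} {K : AddSubgroup V} (hs : ∀ x y, B x y = B y x)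
    (hp : ∀ x, x ≠ 0 → 0 < B x x)
    {r : Fin 5 → V} {ψ : V ≃ₗ[ℚ] V5} (h : FC B K r ψ) {T : Finset (Fin 5)} {μ : Fin 5 → ℤ}
    (h1 : ∀ i ∈ T, B (r i) (r i) = 2 * μ i)
    {x : V} {n : Fin 5 → ℤ} (hn : ∀ i, ψ x i = n i) {i : Fin 5} (hi : i ∈ T) :
    B (r i) x = ((μ i * n i : ℤ) : ℚ) := by
  have h3 := h.psi x i
  have h4 : B (r i) (r i) ≠ 0 := (hp _ (h.rt i).2.1).ne'
  rw [eq_div_iff h4, hn i, h1 i hi, hs x (r i)] at h3
  push_cast
  linarith

theorem p4_pf {B : LinearMap.BilinForm ℚ V} {K : AddSubgroup V}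
    (hi : (Rad B K 2).relIndex K = 4) (y : Fin 4 → V) (hy : ∀ i, y i ∈ K)
    (G : Fin 4 → Fin 4 → ℤ) (hG : ∀ i j, B (y i) (y j) = G i j)
    (h : ∀ ε : Fin 4 → ℤ, (∀ j, Even (ε 0 * G 0 j + ε 1 * G 1 j + ε 2 * G 2 j + ε 3 * G 3 j)) →
      Even (ε 0) ∧ Even (ε 1) ∧ Even (ε 2) ∧ Even (ε 3)) : False := by
  refine pf4 hi y hy fun ε hε => ?_
  have h1 : ∀ j, Even (ε 0 * G 0 j + ε 1 * G 1 j + ε 2 * G 2 j + ε 3 * G 3 j) := by
    intro j
    obtain ⟨z, hz⟩ := hε j
    refine ⟨z, ?_⟩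
    have h2 : B (∑ i, ε i • y i) (y j)
        = ((ε 0 * G 0 j + ε 1 * G 1 j + ε 2 * G 2 j + ε 3 * G 3 j : ℤ) : ℚ) := by
      rw [map_sum, LinearMap.sum_apply, Fin.sum_univ_four]
      simp only [map_zsmul, LinearMap.smul_apply, hG, zsmul_eq_mul]
      push_cast; ring
    rw [h2] at hz
    have : ε 0 * G 0 j + ε 1 * G 1 j + ε 2 * G 2 j + ε 3 * G 3 j = 2 * z := by exact_mod_cast hz
    rw [this]; ring
  obtain ⟨a, b, c, d⟩ := h ε h1
  intro i
  fin_cases i
  · exact a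
  · exact b
  · exact c
  · exact d

theorem p4_ev {s p q : ℤ} (h : Even s) (hs : s = p + q) (hq : Even q) : Even p := by
  rw [hs, Int.even_add] at h
  exact h.2 hq

theorem p4_evm {e A : ℤ} (hA : ¬ Even A) (h : Even (e * A)) : Even e := by
  rcases Int.even_mul.1 h with h | h
  · exact h
  · exact absurd h hA

theorem p4_solve1 {e0 e1 e2 e3 m1 m2 A Bq C D a b c : ℤ} (hA : ¬ Even A) (hB : Even Bq)
    (hC : ¬ Even C) (q0 : Even (e0 * (2 * m1) + e1 * 0 + e2 * A + e3 * D))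
    (q1 : Even (e0 * 0 + e1 * (2 * m2) + e2 * Bq + e3 * C))
    (q2 : Even (e0 * A + e1 * Bq + e2 * (2 * a) + e3 * c))
    (q3 : Even (e0 * D + e1 * C + e2 * c + e3 * (2 * b))) :
    Even e0 ∧ Even e1 ∧ Even e2 ∧ Even e3 := by
  have h3 : Even e3 := by
    refine p4_evm hC (p4_ev q1 (q := e0 * 0 + e1 * (2 * m2) + e2 * Bq) (by ring) ?_)
    refine ((?_ : Even _).add ?_).add ?_
    · simp
    · exact (even_two_mul m2).mul_left _
    · exact hB.mul_left _
  have h2 : Even e2 := by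
    refine p4_evm hA (p4_ev q0 (q := e0 * (2 * m1) + e1 * 0 + e3 * D) (by ring) ?_)
    refine ((?_ : Even _).add ?_).add ?_
    · exact (even_two_mul m1).mul_left _
    · simp
    · exact h3.mul_right _
  have h0 : Even e0 := by
    refine p4_evm hA (p4_ev q2 (q := e1 * Bq + e2 * (2 * a) + e3 * c) (by ring) ?_)
    refine ((?_ : Even _).add ?_).add ?_
    · exact hB.mul_left _
    · exact h2.mul_right _
    · exact h3.mul_right _
  have h1 : Even e1 := by
    refine p4_evm hC (p4_ev q3 (q := e0 * D + e2 * c + e3 * (2 * b)) (by ring) ?_)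
    refine ((?_ : Even _).add ?_).add ?_
    · exact h0.mul_right _
    · exact h2.mul_right _
    · exact h3.mul_right _
  exact ⟨h0, h1, h2, h3⟩

theorem p4_solve2 {e0 e1 e2 e3 m A D1 D2 a b c e f d : ℤ} (hA : ¬ Even A) (h1 : Even D1)
    (h2 : Even D2) (hd : ¬ Even d)
    (q0 : Even (e0 * (2 * m) + e1 * A + e2 * D1 + e3 * D2))
    (q1 : Even (e0 * A + e1 * (2 * a) + e2 * e + e3 * f))
    (q2 : Even (e0 * D1 + e1 * e + e2 * (2 * b) + e3 * d))
    (q3 : Even (e0 * D2 + e1 * f + e2 * d + e3 * (2 * c))) :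
    Even e0 ∧ Even e1 ∧ Even e2 ∧ Even e3 := by
  have k1 : Even e1 := by
    refine p4_evm hA (p4_ev q0 (q := e0 * (2 * m) + e2 * D1 + e3 * D2) (by ring) ?_)
    refine ((?_ : Even _).add ?_).add ?_
    · exact (even_two_mul m).mul_left _
    · exact h1.mul_left _
    · exact h2.mul_left _
  have k3 : Even e3 := by
    refine p4_evm hd (p4_ev q2 (q := e0 * D1 + e1 * e + e2 * (2 * b)) (by ring) ?_)
    refine ((?_ : Even _).add ?_).add ?_
    · exact h1.mul_left _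
    · exact k1.mul_right _
    · exact (even_two_mul b).mul_left _
  have k2 : Even e2 := by
    refine p4_evm hd (p4_ev q3 (q := e0 * D2 + e1 * f + e3 * (2 * c)) (by ring) ?_)
    refine ((?_ : Even _).add ?_).add ?_
    · exact h2.mul_left _
    · exact k1.mul_right _
    · exact (even_two_mul c).mul_left _
  have k0 : Even e0 := by
    refine p4_evm hA (p4_ev q1 (q := e1 * (2 * a) + e2 * e + e3 * f) (by ring) ?_)
    refine ((?_ : Even _).add ?_).add ?_
    · exact (even_two_mul a).mul_left _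
    · exact k2.mul_right _
    · exact k3.mul_right _
  exact ⟨k0, k1, k2, k3⟩

theorem p4_dec1 : ∀ a b : Finset (Fin 5), a ≠ ∅ → b ≠ ∅ → a ≠ b → ∃ i ∈ a ∪ b, ∃ j ∈ a ∪ b,
    i ≠ j ∧ ((i ∈ a ∧ j ∉ a ∧ j ∈ b) ∨ (i ∈ b ∧ j ∉ b ∧ j ∈ a)) := by
  decide

omit [FiniteDimensional ℚ V] in
/-- data of an element of `K`: integral coordinates -/
theorem p4_coord {B : LinearMap.BilinForm ℚ V} {K : AddSubgroup V}
    {r : Fin 5 → V} {ψ : V ≃ₗ[ℚ] V5} (h : FC B K r ψ) {w : Finset (Fin 5)} (hw : w ∈ Code ψ K) :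
    ∃ x ∈ K, ∃ n : Fin 5 → ℤ, (∀ i, ψ x i = n i) ∧ ∀ i, i ∈ w ↔ Odd (n i) := by
  obtain ⟨x, hx, rfl⟩ := hw
  choose n hn using h.int x hx
  exact ⟨x, hx, n, hn, fun i => p4_mem_word hn i⟩

/-- Row [RH-P4]: the code of a frame in the family `F_2`.  `T` = positions of the roots of norm
`2μ_i`, the others have norm `4μ_i` (`root_norm`), `μ_i` odd squarefree.

Proof.  For `x, x' ∈ K` with coordinates `y, y'` and words `w, w'`:
`(x,x') = ½ ∑_T μ_i y_i y'_i + ∑_{T^c} μ_i (y_i y'_i)`.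
`h1`: integrality.  `h2`: if `w ∩ T = ∅`, `y_i` is even on `T`, `(x,x) ≡ |w| mod 2`.
`h3`, `h4`: `pf4`.  `h5`: the vector `z = ½ ∑_{v∩T} r_i + ¼ ∑_{v∖T} r_i` is in `K^#`, `4z ∈ K`, so
`2z ∈ K` by `Elem` at 2.  `h6`: `Rad B K 2 ≠ K`. -/
theorem code_of_F2 {B : LinearMap.BilinForm ℚ V} {K : AddSubgroup V} (hF : F2 B K)
    {r : Fin 5 → V} {ψ : V ≃ₗ[ℚ] V5} (h : FC B K r ψ) {T : Finset (Fin 5)}
    (hT : ∀ i, i ∈ T ↔ ∃ μ : ℕ, Odd μ ∧ B (r i) (r i) = 2 * μ) :
    ∃ σ : Equiv.Perm (Fin 5),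
      (T = Finset.univ ∧ Code ψ K = {∅, {σ 0, σ 1}}) ∨
      (T = Finset.univ ∧ Code ψ K = {∅, {σ 0, σ 1, σ 2, σ 3}}) ∨
      (T = {σ 2, σ 3, σ 4} ∧
        Code ψ K = {∅, {σ 0, σ 1}, {σ 2, σ 3}, {σ 0, σ 1, σ 2, σ 3}}) ∨
      (T = {σ 2, σ 3, σ 4} ∧
        Code ψ K = {∅, {σ 0, σ 1}, {σ 0, σ 2, σ 3}, {σ 1, σ 2, σ 3}}) ∨
      (T = {σ 4} ∧ ∀ w, w ∈ Code ψ K ↔ w ⊆ {σ 0, σ 1, σ 2, σ 3} ∧ Even w.card) := by
  classical
  obtain ⟨μ, hμ, hμT, hμT'⟩ := p4_norms hF h.rt hT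
  have hsym := hF.symm
  have hpos := hF.pos
  -- even norms
  have hev : ∀ x ∈ K, ∃ z : ℤ, B x x = ((2 * z : ℤ) : ℚ) := by
    intro x hx
    obtain ⟨z, hz⟩ := hF.even.2 x hx
    exact ⟨z, by rw [hz]; push_cast; ring⟩
  -- evenness of the T-part
  have hTp : ∀ {x x' : V} {n n' : Fin 5 → ℤ}, x ∈ K → x' ∈ K → (∀ i, ψ x i = n i) →
      (∀ i, ψ x' i = n' i) → Even (∑ i ∈ T, μ i * n i * n' i) := by
    intro x x' n n' hx hx' hn hn'
    obtain ⟨z, hz⟩ := hF.even.1 x hx x' hx'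
    have h1 := p4_form h hμT hμT' hn hn'
    rw [hz] at h1
    have h2 : 2 * z = ∑ i ∈ T, μ i * n i * n' i + 2 * ∑ i ∈ Tᶜ, μ i * n i * n' i := by
      exact_mod_cast h1
    exact ⟨z - ∑ i ∈ Tᶜ, μ i * n i * n' i, by linarith⟩
  -- products when both are even on T
  have hTe : ∀ {x x' : V} {n n' : Fin 5 → ℤ} {w w' : Finset (Fin 5)}, (∀ i, ψ x i = n i) →
      (∀ i, ψ x' i = n' i) → (∀ i, i ∈ w ↔ Odd (n i)) → (∀ i, i ∈ w' ↔ Odd (n' i)) →
      w ∩ T = ∅ → w' ∩ T = ∅ → ∃ z : ℤ, B x x' = z ∧ (Even z ↔ Even (w ∩ w').card) := by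
    intro x x' n n' w w' hn hn' hw hw' he he'
    have h1 := p4_form h hμT hμT' hn hn'
    have h3 : ∃ a : ℤ, ∑ i ∈ T, μ i * n i * n' i = 4 * a := by
      have h4 : ∀ i ∈ T, ∃ a : ℤ, μ i * n i * n' i = 4 * a := by
        intro i hi
        have a1 : Even (n i) := by
          rw [← Int.not_odd_iff_even, ← hw i]
          intro hc
          have : i ∈ w ∩ T := Finset.mem_inter.2 ⟨hc, hi⟩
          rw [he] at this
          simp at this
        have a2 : Even (n' i) := by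
          rw [← Int.not_odd_iff_even, ← hw' i]
          intro hc
          have : i ∈ w' ∩ T := Finset.mem_inter.2 ⟨hc, hi⟩
          rw [he'] at this
          simp at this
        obtain ⟨a, ha⟩ := a1
        obtain ⟨b, hb⟩ := a2
        exact ⟨μ i * a * b, by rw [ha, hb]; ring⟩
      have h5 : (4 : ℤ) ∣ ∑ i ∈ T, μ i * n i * n' i :=
        Finset.dvd_sum fun i hi => by obtain ⟨a, ha⟩ := h4 i hi; exact ⟨a, ha⟩
      obtain ⟨a, ha⟩ := h5
      exact ⟨a, ha⟩
    obtain ⟨a, ha⟩ := h3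
    refine ⟨2 * a + ∑ i ∈ Tᶜ, μ i * n i * n' i, ?_, ?_⟩
    · rw [ha] at h1
      push_cast at h1 ⊢
      linarith
    · rw [Int.even_add, p4_par2 Tᶜ μ n n' (fun i _ => hμ i) hw hw']
      have : w ∩ w' ∩ Tᶜ = w ∩ w' := by
        rw [Finset.inter_eq_left]
        intro i hi
        rw [Finset.mem_compl]
        intro hiT
        have : i ∈ w ∩ T := Finset.mem_inter.2 ⟨(Finset.mem_inter.1 hi).1, hiT⟩
        rw [he] at this
        simp at this
      rw [this]
      simp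
  refine code_F2 (code_zero h) (fun w hw w' hw' => code_add h hw hw') ?_ ?_ ?_ ?_ ?_ ?_
  · -- h1
    intro w hw w' hw'
    obtain ⟨x, hx, n, hn, hwn⟩ := p4_coord h hw
    obtain ⟨x', hx', n', hn', hwn'⟩ := p4_coord h hw'
    rw [← p4_par2 T μ n n' (fun i _ => hμ i) hwn hwn']
    exact hTp hx hx' hn hn'
  · -- h2
    intro w hw he
    obtain ⟨x, hx, n, hn, hwn⟩ := p4_coord h hw
    obtain ⟨z, hz, hz'⟩ := hTe hn hn hwn hwn he he
    rw [Finset.inter_self] at hz'
    rw [← hz']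
    obtain ⟨a, ha⟩ := hev x hx
    rw [ha] at hz
    have : 2 * a = z := by exact_mod_cast hz
    exact ⟨a, by linarith⟩
  · -- h3
    intro w hw w' hw' hne hne'
    by_contra hcon
    -- general position
    have key : ∀ w ∈ Code ψ K, ∀ w' ∈ Code ψ K, ∀ i ∈ T, ∀ j ∈ T, i ≠ j → i ∈ w → j ∉ w →
        j ∈ w' → False := by
      intro w hw w' hw' i hi j hj hij hiw hjw hjw'
      obtain ⟨x, hx, n, hn, hwn⟩ := p4_coord h hw
      obtain ⟨x', hx', n', hn', hwn'⟩ := p4_coord h hw'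
      obtain ⟨a, ha⟩ := hev x hx
      obtain ⟨b, hb⟩ := hev x' hx'
      obtain ⟨c, hc⟩ := hF.even.1 x hx x' hx'
      have e1 := p4_root hsym hpos h hμT hn hi
      have e2 := p4_root hsym hpos h hμT hn hj
      have e3 := p4_root hsym hpos h hμT hn' hi
      have e4 := p4_root hsym hpos h hμT hn' hj
      have n1 : Odd (n i) := (hwn i).1 hiw
      have n2 : Even (n j) := by
        rw [← Int.not_odd_iff_even, ← hwn j]; exact hjw
      have n3 : Odd (n' j) := (hwn' j).1 hjw'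
      have o1 : Odd (μ i * n i) := (hμ i).mul n1
      have o2 : Even (μ j * n j) := n2.mul_left _
      have o3 : Odd (μ j * n' j) := (hμ j).mul n3
      refine p4_pf hF.idx ![r i, r j, x, x'] ?_
        ![![2 * μ i, 0, μ i * n i, μ i * n' i], ![0, 2 * μ j, μ j * n j, μ j * n' j],
          ![μ i * n i, μ j * n j, 2 * a, c], ![μ i * n' i, μ j * n' j, c, 2 * b]] ?_ ?_
      · intro k
        fin_cases k
        · exact (h.rt i).1
        · exact (h.rt j).1
        · exact hx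
        · exact hx'
      · intro k l
        have s1 := h.ort i j hij
        have s2 := h.ort j i (Ne.symm hij)
        have s3 := hμT i hi
        have s4 := hμT j hj
        have s5 := hsym x (r i)
        have s6 := hsym x (r j)
        have s7 := hsym x' (r i)
        have s8 := hsym x' (r j)
        have s9 := hsym x' x
        fin_cases k <;> fin_cases l <;>
          simp [s1, s2, s3, s4, s5, s6, s7, s8, s9, e1, e2, e3, e4, ha, hb, hc]
      · intro ε hε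
        have q0 := hε 0
        have q1 := hε 1
        have q2 := hε 2
        have q3 := hε 3
        simp only [Matrix.cons_val_zero, Matrix.cons_val_one, Matrix.cons_val] at q0 q1 q2 q3
        have o1' : ¬ Even (μ i * n i) := by rwa [Int.not_even_iff_odd]
        have o3' : ¬ Even (μ j * n' j) := by rwa [Int.not_even_iff_odd]
        exact p4_solve1 o1' o2 o3' q0 q1 q2 q3
    obtain ⟨i, hi, j, hj, hij, hcase⟩ := p4_dec1 (w ∩ T) (w' ∩ T) hne hne' hcon
    have hiT : i ∈ T := by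
      rcases Finset.mem_union.1 hi with h | h
      · exact (Finset.mem_inter.1 h).2
      · exact (Finset.mem_inter.1 h).2
    have hjT : j ∈ T := by
      rcases Finset.mem_union.1 hj with h | h
      · exact (Finset.mem_inter.1 h).2
      · exact (Finset.mem_inter.1 h).2
    rcases hcase with ⟨a1, a2, a3⟩ | ⟨a1, a2, a3⟩
    · exact key w hw w' hw' i hiT j hjT hij (Finset.mem_inter.1 a1).1
        (fun h => a2 (Finset.mem_inter.2 ⟨h, hjT⟩)) (Finset.mem_inter.1 a3).1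
    · exact key w' hw' w hw i hiT j hjT hij (Finset.mem_inter.1 a1).1
        (fun h => a2 (Finset.mem_inter.2 ⟨h, hjT⟩)) (Finset.mem_inter.1 a3).1
  · -- h4
    intro w hw w1 hw1 w2 hw2 hne he1 he2
    by_contra hcon
    obtain ⟨i, hi⟩ := Finset.nonempty_iff_ne_empty.2 hne
    obtain ⟨hiw, hiT⟩ := Finset.mem_inter.1 hi
    obtain ⟨x, hx, n, hn, hwn⟩ := p4_coord h hw
    obtain ⟨x1, hx1, n1, hn1, hwn1⟩ := p4_coord h hw1
    obtain ⟨x2, hx2, n2, hn2, hwn2⟩ := p4_coord h hw2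
    obtain ⟨a, ha⟩ := hev x hx
    obtain ⟨b, hb⟩ := hev x1 hx1
    obtain ⟨c, hc⟩ := hev x2 hx2
    obtain ⟨d, hd, hd'⟩ := hTe hn1 hn2 hwn1 hwn2 he1 he2
    obtain ⟨e, he⟩ := hF.even.1 x hx x1 hx1
    obtain ⟨f, hf⟩ := hF.even.1 x hx x2 hx2
    have hdo : ¬ Even d := fun hh => hcon (hd'.1 hh)
    have e0 := p4_root hsym hpos h hμT hn hiT
    have e1 := p4_root hsym hpos h hμT hn1 hiT
    have e2 := p4_root hsym hpos h hμT hn2 hiT
    have o0 : ¬ Even (μ i * n i) := by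
      rw [Int.not_even_iff_odd]; exact (hμ i).mul ((hwn i).1 hiw)
    have o1 : Even (μ i * n1 i) := by
      apply Even.mul_left
      rw [← Int.not_odd_iff_even, ← hwn1 i]
      intro hh
      have : i ∈ w1 ∩ T := Finset.mem_inter.2 ⟨hh, hiT⟩
      rw [he1] at this; simp at this
    have o2 : Even (μ i * n2 i) := by
      apply Even.mul_left
      rw [← Int.not_odd_iff_even, ← hwn2 i]
      intro hh
      have : i ∈ w2 ∩ T := Finset.mem_inter.2 ⟨hh, hiT⟩
      rw [he2] at this; simp at this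
    refine p4_pf hF.idx ![r i, x, x1, x2] ?_
      ![![2 * μ i, μ i * n i, μ i * n1 i, μ i * n2 i], ![μ i * n i, 2 * a, e, f],
        ![μ i * n1 i, e, 2 * b, d], ![μ i * n2 i, f, d, 2 * c]] ?_ ?_
    · intro k
      fin_cases k
      · exact (h.rt i).1
      · exact hx
      · exact hx1
      · exact hx2
    · intro k l
      have s3 := hμT i hiT
      have s5 := hsym x (r i)
      have s6 := hsym x1 (r i)
      have s7 := hsym x2 (r i)
      have s8 := hsym x1 x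
      have s9 := hsym x2 x
      have s10 := hsym x2 x1
      fin_cases k <;> fin_cases l <;>
        simp [s3, s5, s6, s7, s8, s9, s10, e0, e1, e2, ha, hb, hc, hd, he, hf]
    · intro ε hε
      have q0 := hε 0
      have q1 := hε 1
      have q2 := hε 2
      have q3 := hε 3
      simp only [Matrix.cons_val_zero, Matrix.cons_val_one, Matrix.cons_val] at q0 q1 q2 q3
      exact p4_solve2 o0 o1 o2 hdo q0 q1 q2 q3
  · -- h5
    intro v hv
    -- the vector z
    set z : V := ψ.symm (fun i => if i ∈ v ∩ T then 1 else if i ∈ v then 1 / 2 else 0) with hz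
    have hψz : ∀ i, ψ z i = if i ∈ v ∩ T then 1 else if i ∈ v then 1 / 2 else 0 := by
      intro i; rw [hz, LinearEquiv.apply_symm_apply]
    have hd : z ∈ dualL B K := by
      intro x hx
      choose n hn using h.int x hx
      have hwn : ∀ i, i ∈ word (ψ x) ↔ Odd (n i) := fun i => p4_mem_word hn i
      have hwC : word (ψ x) ∈ Code ψ K := ⟨x, hx, rfl⟩
      have h1 := hv _ hwC
      rw [← p4_par1 v μ n (fun i _ => hμ i) hwn] at h1
      obtain ⟨a, ha⟩ := h1
      refine ⟨a, ?_⟩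
      rw [h.form z x]
      have h2 : ∑ i, B (r i) (r i) * ψ z i * ψ x i = ((2 * ∑ i ∈ v, μ i * n i : ℤ) : ℚ) := by
        push_cast
        rw [Finset.mul_sum, ← Finset.sum_subset (Finset.subset_univ v)]
        · apply Finset.sum_congr rfl
          intro i hi
          rw [hψz i, hn i]
          by_cases hiT : i ∈ T
          · rw [if_pos (Finset.mem_inter.2 ⟨hi, hiT⟩), hμT i hiT]; ring
          · rw [if_neg (fun hh => hiT (Finset.mem_inter.1 hh).2), if_pos hi, hμT' i hiT]; ring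
        · intro i _ hi
          rw [hψz i, if_neg (fun hh => hi (Finset.mem_inter.1 hh).1), if_neg hi]; ring
      rw [h2, ha]
      push_cast; ring
    have h4 : ((((2 : ℕ) : ℤ)) ^ 2) • z ∈ K := by
      have hc : ∀ i, ψ ((((2 : ℕ) : ℤ) ^ 2) • z) i
          = ((if i ∈ v ∩ T then 4 else if i ∈ v then 2 else 0 : ℤ) : ℚ) := by
        intro i
        rw [map_zsmul, Pi.smul_apply, hψz i]
        split_ifs <;> norm_num
      rw [mem_iff_word h (fun i => ⟨_, hc i⟩)]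
      have : word (ψ ((((2 : ℕ) : ℤ) ^ 2) • z)) = ∅ := by
        rw [Finset.eq_empty_iff_forall_notMem]
        intro i hi
        rw [p4_mem_word hc i] at hi
        revert hi
        rw [imp_false, Int.not_odd_iff_even]
        split_ifs <;> decide
      rw [this]
      exact code_zero h
    have h5 := hF.elem 2 Nat.prime_two z hd h4
    refine ⟨_, h5, ?_⟩
    have hc : ∀ i, ψ ((((2 : ℕ) : ℤ)) • z) i
        = ((if i ∈ v ∩ T then 2 else if i ∈ v then 1 else 0 : ℤ) : ℚ) := by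
      intro i
      rw [map_zsmul, Pi.smul_apply, hψz i]
      split_ifs <;> norm_num
    ext i
    rw [p4_mem_word hc i, Finset.mem_sdiff]
    by_cases h1 : i ∈ v <;> by_cases h2 : i ∈ T <;> simp [h1, h2]
  · -- h6
    intro hno
    by_contra hcon
    have hall : Rad B K 2 = K := by
      ext x
      constructor
      · exact fun hx => hx.1
      · intro hx
        refine ⟨hx, fun y hy => ?_⟩
        choose n hn using h.int x hx
        choose n' hn' using h.int y hy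
        have hwn : ∀ i, i ∈ word (ψ x) ↔ Odd (n i) := fun i => p4_mem_word hn i
        have hwn' : ∀ i, i ∈ word (ψ y) ↔ Odd (n' i) := fun i => p4_mem_word hn' i
        have hwC : word (ψ x) ∈ Code ψ K := ⟨x, hx, rfl⟩
        have hwC' : word (ψ y) ∈ Code ψ K := ⟨y, hy, rfl⟩
        obtain ⟨z, hz, hz'⟩ := hTe hn hn' hwn hwn' (hno _ hwC) (hno _ hwC')
        have : Even z := by
          rw [hz', ← Nat.not_odd_iff_even]
          intro hh
          exact hcon ⟨_, hwC, _, hwC', hh⟩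
        obtain ⟨a, ha⟩ := this
        exact ⟨a, by rw [hz, ha]; push_cast; ring⟩
    have := hF.idx
    rw [hall, AddSubgroup.relIndex_self] at this
    omega

end RH6
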