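import Pool.Agent.RH6.P4

namespace RH6

variable {V : Type*} [AddCommGroup V] [Module ℚ V] [FiniteDimensional ℚ V]

theorem p5_map_sd (σ : Equiv.Perm (Fin 5)) (A B : Finset (Fin 5)) :
    symmDiff (A.map σ.toEmbedding) (B.map σ.toEmbedding) = (symmDiff A B).map σ.toEmbedding := by
  ext x
  simp only [Finset.mem_symmDiff, Finset.mem_map_equiv]

theorem p5_map_sdiff (σ : Equiv.Perm (Fin 5)) (A B : Finset (Fin 5)) :
    (A.map σ.toEmbedding) \ (B.map σ.toEmbedding) = (A \ B).map σ.toEmbedding := by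
  ext x
  simp only [Finset.mem_sdiff, Finset.mem_map_equiv]

theorem p5_map_union (σ : Equiv.Perm (Fin 5)) (A B : Finset (Fin 5)) :
    (A.map σ.toEmbedding) ∪ (B.map σ.toEmbedding) = (A ∪ B).map σ.toEmbedding := by
  ext x
  simp only [Finset.mem_union, Finset.mem_map_equiv]

theorem p5_map_inter (σ : Equiv.Perm (Fin 5)) (A B : Finset (Fin 5)) :
    (A.map σ.toEmbedding) ∩ (B.map σ.toEmbedding) = (A ∩ B).map σ.toEmbedding := by
  ext x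
  simp only [Finset.mem_inter, Finset.mem_map_equiv]

theorem p5_exm (σ : Equiv.Perm (Fin 5)) (w : Finset (Fin 5)) :
    ∃ w' : Finset (Fin 5), w = w'.map σ.toEmbedding := by
  refine ⟨w.map σ.symm.toEmbedding, ?_⟩
  ext x
  simp only [Finset.mem_map_equiv, Equiv.symm_symm, Equiv.apply_symm_apply]

theorem p5_m0 (σ : Equiv.Perm (Fin 5)) :
    (∅ : Finset (Fin 5)) = (∅ : Finset (Fin 5)).map σ.toEmbedding := rfl

theorem p5_m1 (σ : Equiv.Perm (Fin 5)) (a : Fin 5) :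
    ({σ a} : Finset (Fin 5)) = ({a} : Finset (Fin 5)).map σ.toEmbedding := by simp

theorem p5_m2 (σ : Equiv.Perm (Fin 5)) (a b : Fin 5) :
    ({σ a, σ b} : Finset (Fin 5)) = ({a, b} : Finset (Fin 5)).map σ.toEmbedding := by simp

theorem p5_m3 (σ : Equiv.Perm (Fin 5)) (a b c : Fin 5) :
    ({σ a, σ b, σ c} : Finset (Fin 5)) = ({a, b, c} : Finset (Fin 5)).map σ.toEmbedding := by
  simp

theorem p5_m4 (σ : Equiv.Perm (Fin 5)) (a b c d : Fin 5) :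
    ({σ a, σ b, σ c, σ d} : Finset (Fin 5)) =
      ({a, b, c, d} : Finset (Fin 5)).map σ.toEmbedding := by
  simp

/-- `move6`, `u` even -/
theorem p5_d6a (σ : Equiv.Perm (Fin 5)) (w : Finset (Fin 5)) :
    (((w = ∅ ∨ w = {σ 0, σ 1} ∨ w = {σ 2, σ 3} ∨ w = {σ 0, σ 1, σ 2, σ 3}) ∧
      Even (w ∩ {σ 2, σ 4, σ 0} ∩ {σ 2, σ 3, σ 4}).card) ∨
     ((symmDiff w {σ 2, σ 4, σ 0} = ∅ ∨ symmDiff w {σ 2, σ 4, σ 0} = {σ 0, σ 1} ∨
       symmDiff w {σ 2, σ 4, σ 0} = {σ 2, σ 3} ∨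
       symmDiff w {σ 2, σ 4, σ 0} = {σ 0, σ 1, σ 2, σ 3}) ∧
      Even (symmDiff w {σ 2, σ 4, σ 0} ∩ {σ 2, σ 4, σ 0} ∩ {σ 2, σ 3, σ 4}).card)) ↔
    (w = ∅ ∨ w = {σ 0, σ 1} ∨ w = {σ 0, σ 2, σ 4} ∨ w = {σ 1, σ 2, σ 4}) := by
  obtain ⟨w', rfl⟩ := p5_exm σ w
  rw [p5_m4 σ 0 1 2 3, p5_m3 σ 2 4 0, p5_m3 σ 2 3 4, p5_m3 σ 0 2 4, p5_m3 σ 1 2 4,
    p5_m2 σ 0 1, p5_m2 σ 2 3, p5_m0 σ]
  simp only [p5_map_sd, p5_map_inter, Finset.card_map, Finset.map_inj]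
  revert w'
  decide +kernel

/-- `move6`, `u` odd -/
theorem p5_d6b (σ : Equiv.Perm (Fin 5)) (w : Finset (Fin 5)) :
    (((w = ∅ ∨ w = {σ 0, σ 1} ∨ w = {σ 2, σ 3} ∨ w = {σ 0, σ 1, σ 2, σ 3}) ∧
      Even (w ∩ {σ 2, σ 4, σ 0} ∩ {σ 2, σ 3, σ 4}).card) ∨
     ((symmDiff w {σ 2, σ 4, σ 0} = ∅ ∨ symmDiff w {σ 2, σ 4, σ 0} = {σ 0, σ 1} ∨
       symmDiff w {σ 2, σ 4, σ 0} = {σ 2, σ 3} ∨
       symmDiff w {σ 2, σ 4, σ 0} = {σ 0, σ 1, σ 2, σ 3}) ∧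
      ¬ Even (symmDiff w {σ 2, σ 4, σ 0} ∩ {σ 2, σ 4, σ 0} ∩ {σ 2, σ 3, σ 4}).card)) ↔
    (w = ∅ ∨ w = {σ 0, σ 1} ∨ w = {σ 0, σ 3, σ 4} ∨ w = {σ 1, σ 3, σ 4}) := by
  obtain ⟨w', rfl⟩ := p5_exm σ w
  rw [p5_m4 σ 0 1 2 3, p5_m3 σ 2 4 0, p5_m3 σ 2 3 4, p5_m3 σ 0 3 4, p5_m3 σ 1 3 4,
    p5_m2 σ 0 1, p5_m2 σ 2 3, p5_m0 σ]
  simp only [p5_map_sd, p5_map_inter, Finset.card_map, Finset.map_inj]
  revert w'
  decide +kernel

theorem p5_d6c (σ : Equiv.Perm (Fin 5)) (i : Fin 5) (w : Finset (Fin 5))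
    (hw : w = {σ 2, σ 4, σ 0} \ {i} ∨ w = {σ 2, σ 4, σ 0} ∪ {i}) :
    ¬ (w = ∅ ∨ w = {σ 0, σ 1} ∨ w = {σ 2, σ 3} ∨ w = {σ 0, σ 1, σ 2, σ 3}) := by
  obtain ⟨j, rfl⟩ : ∃ j, i = σ j := ⟨σ.symm i, by simp⟩
  obtain ⟨w', rfl⟩ := p5_exm σ w
  rw [p5_m4 σ 0 1 2 3, p5_m2 σ 0 1, p5_m2 σ 2 3, p5_m0 σ]
  rw [p5_m3 σ 2 4 0, p5_m1 σ j] at hw
  simp only [p5_map_sdiff, p5_map_union, Finset.map_inj] at hw ⊢
  revert j w'
  decide +kernel

/-- `move3` -/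
theorem p5_d3a (σ : Equiv.Perm (Fin 5)) (j : Fin 5) (hj : j ≠ 4) (w : Finset (Fin 5)) :
    (((w = ∅ ∨ w = {σ 0, σ 1, σ 2, σ 3}) ∧ Even (w ∩ {σ j, σ 4} ∩ Finset.univ).card) ∨
     ((symmDiff w {σ j, σ 4} = ∅ ∨ symmDiff w {σ j, σ 4} = {σ 0, σ 1, σ 2, σ 3}) ∧
      Even (symmDiff w {σ j, σ 4} ∩ {σ j, σ 4} ∩ Finset.univ).card)) ↔
    (w = ∅ ∨ w = {σ j, σ 4}) := by
  obtain ⟨w', rfl⟩ := p5_exm σ w
  rw [p5_m4 σ 0 1 2 3, p5_m2 σ j 4, p5_m0 σ, Finset.inter_univ, Finset.inter_univ]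
  simp only [p5_map_sd, p5_map_inter, Finset.card_map, Finset.map_inj]
  revert j w'
  decide +kernel

theorem p5_d3b (σ : Equiv.Perm (Fin 5)) (j : Fin 5) (hj : j ≠ 4) (i : Fin 5)
    (w : Finset (Fin 5)) (hw : w = {σ j, σ 4} \ {i} ∨ w = {σ j, σ 4} ∪ {i}) :
    ¬ (w = ∅ ∨ w = {σ 0, σ 1, σ 2, σ 3}) := by
  obtain ⟨l, rfl⟩ : ∃ l, i = σ l := ⟨σ.symm i, by simp⟩
  obtain ⟨w', rfl⟩ := p5_exm σ w
  rw [p5_m4 σ 0 1 2 3, p5_m0 σ]
  rw [p5_m2 σ j 4, p5_m1 σ l] at hw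
  simp only [p5_map_sdiff, p5_map_union, Finset.map_inj] at hw ⊢
  revert j l w'
  decide +kernel

theorem p5_d3c (σ : Equiv.Perm (Fin 5)) (j : Fin 5) (hj : j ≠ 4) :
    Odd (({σ 0, σ 1, σ 2, σ 3} : Finset (Fin 5)) ∩ {σ j, σ 4} ∩ Finset.univ).card := by
  rw [p5_m4 σ 0 1 2 3, p5_m2 σ j 4, Finset.inter_univ, p5_map_inter, Finset.card_map]
  revert j
  decide +kernel

theorem p5_d3d (j : Fin 5) (hj : j ≠ 4) : ∃ ρ : Equiv.Perm (Fin 5), ρ 0 = j ∧ ρ 1 = 4 := by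
  revert j
  decide +kernel

theorem p5_mem_word {y : V5} {j : Fin 5} {z : ℤ} (hz : y j = z) : j ∈ word y ↔ Odd z := by
  classical
  unfold word
  rw [Finset.mem_filter]
  constructor
  · rintro ⟨-, z', hz'⟩
    rw [hz] at hz'
    exact ⟨z', by exact_mod_cast hz'⟩
  · rintro ⟨z', rfl⟩
    exact ⟨Finset.mem_univ _, z', by rw [hz]; push_cast; ring⟩

theorem p5_qpos {B : LinearMap.BilinForm ℚ V} {K : AddSubgroup V} (hF : K5 B K)
    {r : Fin 5 → V} {ψ : V ≃ₗ[ℚ] V5} (h : FC B K r ψ) (i : Fin 5) : 0 < B (r i) (r i) :=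
  hF.pos _ (h.rt i).2.1

theorem p5_norm {B : LinearMap.BilinForm ℚ V} {K : AddSubgroup V} (hF : F2 B K)
    {r : Fin 5 → V} {ψ : V ≃ₗ[ℚ] V5} (h : FC B K r ψ) {T : Finset (Fin 5)}
    (hT : ∀ i, i ∈ T ↔ ∃ μ : ℕ, Odd μ ∧ B (r i) (r i) = 2 * μ) (i : Fin 5) :
    ∃ μ : ℤ, Odd μ ∧ B (r i) (r i) = if i ∈ T then 2 * (μ : ℚ) else 4 * (μ : ℚ) := by
  by_cases hi : i ∈ T
  · obtain ⟨μ, ho, hμ⟩ := (hT i).1 hi
    refine ⟨μ, (Int.odd_coe_nat μ).2 ho, ?_⟩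
    rw [if_pos hi, hμ]
    push_cast
    rfl
  · obtain ⟨μ, ho, -, hμ⟩ := (root_norm (h.rt i)).2.1 hF
    rcases hμ with hμ | hμ
    · exact absurd ((hT i).2 ⟨μ, ho, hμ⟩) hi
    · refine ⟨μ, (Int.odd_coe_nat μ).2 ho, ?_⟩
      rw [if_neg hi, hμ]
      push_cast
      rfl

theorem p5_Bk {B : LinearMap.BilinForm ℚ V} {K : AddSubgroup V} (hF : K5 B K)
    {r : Fin 5 → V} {ψ : V ≃ₗ[ℚ] V5} (h : FC B K r ψ) (J : Finset (Fin 5)) (x : V) :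
    B x (∑ i ∈ J, r i) = ∑ i ∈ J, 1 / 2 * B (r i) (r i) * ψ x i := by
  rw [map_sum]
  apply Finset.sum_congr rfl
  intro i _
  rw [h.psi x i]
  have := (p5_qpos hF h i).ne'
  field_simp

theorem p5_psik {B : LinearMap.BilinForm ℚ V} {K : AddSubgroup V}
    {r : Fin 5 → V} {ψ : V ≃ₗ[ℚ] V5} (h : FC B K r ψ) (J : Finset (Fin 5)) (j : Fin 5) :
    ψ (∑ i ∈ J, r i) j = if j ∈ J then 2 else 0 := by
  rw [map_sum, Finset.sum_apply]
  simp only [h.psr, Pi.single_apply]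
  rw [Finset.sum_ite_eq]

theorem p5_coord {B : LinearMap.BilinForm ℚ V} {K : AddSubgroup V}
    {r : Fin 5 → V} {ψ : V ≃ₗ[ℚ] V5} (h : FC B K r ψ) (J : Finset (Fin 5)) (X : V) (a : ℤ)
    (j : Fin 5) :
    ψ (X - ((a : ℚ) / 2) • ∑ i ∈ J, r i) j = ψ X j - a * (if j ∈ J then 1 else 0) := by
  rw [map_sub, map_smul, Pi.sub_apply, Pi.smul_apply, smul_eq_mul, p5_psik h]
  split_ifs
  · ring
  · ring

theorem p5_parity {B : LinearMap.BilinForm ℚ V} {K : AddSubgroup V} (hF : F2 B K)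
    {r : Fin 5 → V} {ψ : V ≃ₗ[ℚ] V5} (h : FC B K r ψ) {T : Finset (Fin 5)}
    (hT : ∀ i, i ∈ T ↔ ∃ μ : ℕ, Odd μ ∧ B (r i) (r i) = 2 * μ) (J : Finset (Fin 5)) {X : V}
    (hX : X ∈ K) :
    ∃ z : ℤ, B X (∑ i ∈ J, r i) = ((word (ψ X) ∩ J ∩ T).card : ℤ) + 2 * z := by
  have key : ∀ i, ∃ z : ℤ, 1 / 2 * B (r i) (r i) * ψ X i =
      (if i ∈ word (ψ X) ∩ T then (1 : ℚ) else 0) + 2 * (z : ℚ) := by
    intro i
    obtain ⟨y, hy⟩ := h.int X hX i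
    obtain ⟨μ, ho, hμ⟩ := p5_norm hF h hT i
    rw [hμ, hy]
    by_cases hi : i ∈ T
    · rw [if_pos hi]
      by_cases hw : i ∈ word (ψ X)
      · rw [if_pos (Finset.mem_inter.2 ⟨hw, hi⟩)]
        obtain ⟨z, hz⟩ := ho.mul ((p5_mem_word hy).1 hw)
        refine ⟨z, ?_⟩
        have hz' : (μ : ℚ) * y = 2 * z + 1 := by exact_mod_cast hz
        linear_combination hz'
      · rw [if_neg (fun hh => hw (Finset.mem_inter.1 hh).1)]
        have he : Even y := Int.not_odd_iff_even.1 (fun hh => hw ((p5_mem_word hy).2 hh))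
        obtain ⟨z, rfl⟩ := he
        refine ⟨μ * z, ?_⟩
        push_cast
        ring
    · rw [if_neg hi, if_neg (fun hh => hi (Finset.mem_inter.1 hh).2)]
      refine ⟨μ * y, ?_⟩
      push_cast
      ring
  choose z hz using key
  refine ⟨∑ i ∈ J, z i, ?_⟩
  rw [p5_Bk hF.toK5 h, Finset.sum_congr rfl (fun i _ => hz i), Finset.sum_add_distrib,
    Finset.sum_boole, ← Finset.mul_sum]
  push_cast
  congr 3
  ext i
  simp only [Finset.mem_filter, Finset.mem_inter]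
  tauto

/-- the word of `X - (a/2) k` -/
theorem p5_word {B : LinearMap.BilinForm ℚ V} {K : AddSubgroup V}
    {r : Fin 5 → V} {ψ : V ≃ₗ[ℚ] V5} (h : FC B K r ψ) (J : Finset (Fin 5)) {X : V}
    (hX : X ∈ K) (a : ℤ) :
    word (ψ (X - ((a : ℚ) / 2) • ∑ i ∈ J, r i)) =
      if Even a then word (ψ X) else symmDiff (word (ψ X)) J := by
  ext j
  obtain ⟨y, hy⟩ := h.int X hX j
  by_cases hj : j ∈ J
  · have h1 : ψ (X - ((a : ℚ) / 2) • ∑ i ∈ J, r i) j = ((y - a : ℤ) : ℚ) := by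
      rw [p5_coord h, hy, if_pos hj]
      push_cast
      ring
    rw [p5_mem_word h1]
    split_ifs with ha
    · rw [p5_mem_word hy, Int.odd_sub]
      constructor
      · intro hh
        exact hh.2 ha
      · intro hh
        exact ⟨fun _ => ha, fun _ => hh⟩
    · rw [Finset.mem_symmDiff, p5_mem_word hy, Int.odd_sub]
      constructor
      · intro hh
        right
        refine ⟨hj, fun ho => ha (hh.1 ho)⟩
      · rintro (⟨_, hn⟩ | ⟨_, hn⟩)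
        · exact absurd hj hn
        · exact ⟨fun ho => absurd ho hn, fun he => absurd he ha⟩
  · have h1 : ψ (X - ((a : ℚ) / 2) • ∑ i ∈ J, r i) j = (y : ℚ) := by
      rw [p5_coord h, hy, if_neg hj]
      ring
    rw [p5_mem_word h1]
    split_ifs with ha
    · rw [p5_mem_word hy]
    · rw [Finset.mem_symmDiff, p5_mem_word hy]
      constructor
      · intro hh
        exact Or.inl ⟨hh, hj⟩
      · rintro (⟨hh, _⟩ | ⟨hn, _⟩)
        · exact hh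
        · exact absurd hn hj

theorem p5_kmem {B : LinearMap.BilinForm ℚ V} {K : AddSubgroup V}
    {r : Fin 5 → V} {ψ : V ≃ₗ[ℚ] V5} (h : FC B K r ψ) (J : Finset (Fin 5)) :
    ∑ i ∈ J, r i ∈ K :=
  AddSubgroup.sum_mem _ (fun i _ => (h.rt i).1)

/-- Row [RH-P5]: a neighbour which keeps the frame; `k = ∑_{J} r_i`.

Proof.  `k ∈ K`, `ψ k = 2·1_J`, `(k,r_i) = (r_i,r_i)` or 0.  `x₁ ∈ K` with word `w₁`:
`(x₁,k) = ½ ∑_J (r_i,r_i) y_i = ∑_{J∩T} μ_i y_i + 2 ∑_{J∖T} μ_i y_i ≡ |w₁ ∩ J ∩ T|` is odd.  `step_F2`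
applies.  The `r_i` are roots of `K' = Nb2 B K k u` by `rt_nb2`; primitivity: if `t r_i = X - (a/2)k`
with `a` odd, `X ∈ K`, then `ψ X j = a` for `j ∈ J ∖ {i}` and `ψ X j = 0` for `j ∉ J`, `j ≠ i`: the
word of `X` is `J ∖ {i}` or `J ∪ {i}` (depending on the parity of `ψ X i`), excluded by `hp`.
So `FC B K' r ψ` (same `ψ`): the coordinates of `X - (a/2)k` are integers.
The code: the word of `X - (a/2)k` is `word X` if `a` is even and `word X + J` if `a` is odd, and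
the condition is `(X,k) ≡ |word X ∩ J ∩ T| ≡ a u mod 2`. -/
theorem keep_frame {N : ℕ} {B : LinearMap.BilinForm ℚ V} {K : AddSubgroup V}
    (hX : Ctx N B K) (hF : F2 B K) {r : Fin 5 → V} {ψ : V ≃ₗ[ℚ] V5} (h : FC B K r ψ)
    {T : Finset (Fin 5)} (hT : ∀ i, i ∈ T ↔ ∃ μ : ℕ, Odd μ ∧ B (r i) (r i) = 2 * μ)
    (J : Finset (Fin 5)) {u : ℤ} (hu : B (∑ i ∈ J, r i) (∑ i ∈ J, r i) = 4 * u)
    (h1 : ∃ w ∈ Code ψ K, Odd (w ∩ J ∩ T).card)
    (hp : ∀ i, J \ {i} ∉ Code ψ K ∧ J ∪ {i} ∉ Code ψ K) :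
    ∃ K', Ctx N B K' ∧ F2 B K' ∧ HIso N B K K' ∧ FC B K' r ψ ∧
      ∀ w, w ∈ Code ψ K' ↔ (w ∈ Code ψ K ∧ Even (w ∩ J ∩ T).card) ∨
        (symmDiff w J ∈ Code ψ K ∧ ∃ z : ℤ, ((symmDiff w J ∩ J ∩ T).card : ℤ) - u = 2 * z) := by
  have hk := p5_kmem h J
  set k := ∑ i ∈ J, r i with hkd
  have h1' : ∃ x₁ ∈ K, ∃ z : ℤ, B x₁ k = 2 * z + 1 := by
    obtain ⟨w, ⟨x, hx, rfl⟩, z, hz⟩ := h1
    obtain ⟨t, ht⟩ := p5_parity hF h hT J hx
    refine ⟨x, hx, z + t, ?_⟩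
    rw [ht, hz]
    push_cast
    ring
  obtain ⟨c1, c2, c3⟩ := step_F2 hX hF hk hu h1'
  have hs := hF.symm
  refine ⟨Nb2 B K k u, c1, c2, c3, ⟨?_, h.ort, h.psi, h.form, h.psr, ?_⟩, ?_⟩
  · intro i
    have hqi := p5_qpos hF.toK5 h i
    obtain ⟨μ, ho, hμ⟩ := p5_norm hF h hT i
    refine rt_nb2 hs hk (v := u) (y := if i ∈ J then 1 else 0) (h.rt i) hqi ?_ ?_ ?_
    · rw [hs, p5_Bk hF.toK5 h]
      simp only [h.psr, Pi.single_apply]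
      rw [Finset.sum_congr rfl (g := fun j => if j = i then B (r j) (r j) else 0), 
        Finset.sum_ite_eq']
      · split_ifs
        · push_cast
          ring
        · push_cast
          ring
      · intro j _
        split_ifs
        · ring
        · ring
    · rw [hμ]
      by_cases hi : i ∈ T
      · rw [if_pos hi]
        refine ⟨(if i ∈ J then 1 else 0) * μ, ?_⟩
        push_cast
        ring
      · rw [if_neg hi]
        refine ⟨(if i ∈ J then 1 else 0) * (2 * μ), ?_⟩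
        push_cast
        ring
    · intro t X hXK a ha heq
      have hc : ∀ j, t * (if j = i then 2 else 0) = ψ X j - a * (if j ∈ J then 1 else 0) := by
        intro j
        rw [← p5_coord h J X a j, ← hkd, ← heq, map_smul, h.psr, Pi.smul_apply, smul_eq_mul,
          Pi.single_apply]
      have hw : ∀ j, j ≠ i → (j ∈ word (ψ X) ↔ j ∈ J) := by
        intro j hj
        have h2 := hc j
        rw [if_neg hj, mul_zero] at h2
        by_cases hjJ : j ∈ J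
        · rw [if_pos hjJ, mul_one] at h2
          have h3 : ψ X j = (a : ℚ) := by linarith
          rw [p5_mem_word h3]
          exact iff_of_true ha hjJ
        · rw [if_neg hjJ, mul_zero] at h2
          have h3 : ψ X j = ((0 : ℤ) : ℚ) := by
            push_cast
            linarith
          rw [p5_mem_word h3]
          exact iff_of_false (by decide) hjJ
      have hcode : word (ψ X) ∈ Code ψ K := ⟨X, hXK, rfl⟩
      by_cases hi : i ∈ word (ψ X)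
      · have h4 : word (ψ X) = J ∪ {i} := by
          ext j
          rw [Finset.mem_union, Finset.mem_singleton]
          by_cases hj : j = i
          · subst hj
            exact iff_of_true hi (Or.inr rfl)
          · rw [hw j hj]
            constructor
            · exact Or.inl
            · rintro (h5 | h5)
              · exact h5
              · exact absurd h5 hj
        rw [h4] at hcode
        exact (hp i).2 hcode
      · have h4 : word (ψ X) = J \ {i} := by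
          ext j
          rw [Finset.mem_sdiff, Finset.mem_singleton]
          by_cases hj : j = i
          · subst hj
            exact iff_of_false hi (fun h5 => h5.2 rfl)
          · rw [hw j hj]
            exact ⟨fun h5 => ⟨h5, hj⟩, fun h5 => h5.1⟩
        rw [h4] at hcode
        exact (hp i).1 hcode
  · rintro x ⟨X, hXK, a, t, rfl, -⟩ j
    obtain ⟨y, hy⟩ := h.int X hXK j
    rw [hkd, p5_coord h, hy]
    refine ⟨y - a * (if j ∈ J then 1 else 0), ?_⟩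
    push_cast
    rfl
  · intro w
    constructor
    · rintro ⟨x, ⟨X, hXK, a, t, rfl, hBk⟩, rfl⟩
      obtain ⟨z, hz⟩ := p5_parity hF h hT J hXK
      rw [← hkd, hBk] at hz
      have hz' : a * u + 2 * t = ((word (ψ X) ∩ J ∩ T).card : ℤ) + 2 * z := by exact_mod_cast hz
      rw [hkd, p5_word h J hXK a]
      by_cases ha : Even a
      · rw [if_pos ha]
        left
        refine ⟨⟨X, hXK, rfl⟩, ?_⟩
        obtain ⟨b, rfl⟩ := ha
        rw [← Int.even_coe_nat]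
        refine ⟨b * u + t - z, ?_⟩
        linarith
      · rw [if_neg ha]
        right
        rw [symmDiff_symmDiff_cancel_right]
        refine ⟨⟨X, hXK, rfl⟩, ?_⟩
        obtain ⟨b, rfl⟩ := Int.not_even_iff_odd.1 ha
        refine ⟨b * u + t - z, ?_⟩
        linarith
    · rintro (⟨⟨X, hXK, rfl⟩, he⟩ | ⟨⟨X, hXK, hw⟩, z, hz⟩)
      · obtain ⟨z, hz⟩ := p5_parity hF h hT J hXK
        rw [← Int.even_coe_nat] at he
        obtain ⟨b, hb⟩ := he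
        refine ⟨X - (((0 : ℤ) : ℚ) / 2) • k, ⟨X, hXK, 0, b + z, rfl, ?_⟩, ?_⟩
        · rw [hz, hb]
          push_cast
          ring
        · rw [hkd, p5_word h J hXK 0, if_pos (by decide)]
      · obtain ⟨z', hz'⟩ := p5_parity hF h hT J hXK
        rw [hw] at hz'
        refine ⟨X - (((1 : ℤ) : ℚ) / 2) • k, ⟨X, hXK, 1, z + z', rfl, ?_⟩, ?_⟩
        · rw [hz']
          have hz'' : ((symmDiff w J ∩ J ∩ T).card : ℤ) = u + 2 * z := by linarith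
          rw [hz'']
          push_cast
          ring
        · rw [hkd, p5_word h J hXK 1, if_neg (by decide), hw, symmDiff_symmDiff_cancel_right]

/-- Row [RH-P5]: the lattices with the code `{∅, S, t, S ∪ t}`: `S = {σ 0, σ 1}`, `t = {σ 2, σ 3}`.

Proof: `keep_frame` with `J = {σ 2, σ 4, σ 0}`:
`(k,k) = 2μ_{σ 2} + 2μ_{σ 4} + 4μ_{σ 0} = 4u`; `w₁ = t` meets `J ∩ T` in `σ 2`; `J ∖ {i}`, `J ∪ {i}` are
not in the code (a word contains `σ 4` never, and `J ∖ {σ 4} = {σ 2, σ 0}` is not a word).  New code: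
`∅, S` (words with `w ∩ J ∩ T = w ∩ {σ 2}` even), and `w + J` where `w ∈ {∅,S}` if `u` is even,
`w ∈ {t, t ∪ S}` if `u` is odd: `{σ 0,σ 2,σ 4}, {σ 1,σ 2,σ 4}` or `{σ 0,σ 3,σ 4}, {σ 1,σ 3,σ 4}`.
Compose `σ` with a permutation. -/
theorem move6 {N : ℕ} {B : LinearMap.BilinForm ℚ V} {K : AddSubgroup V}
    (hX : Ctx N B K) (hF : F2 B K) {r : Fin 5 → V} {ψ : V ≃ₗ[ℚ] V5} (h : FC B K r ψ)
    {T : Finset (Fin 5)} (hT : ∀ i, i ∈ T ↔ ∃ μ : ℕ, Odd μ ∧ B (r i) (r i) = 2 * μ)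
    (σ : Equiv.Perm (Fin 5)) (hTσ : T = {σ 2, σ 3, σ 4})
    (hC : Code ψ K = {∅, {σ 0, σ 1}, {σ 2, σ 3}, {σ 0, σ 1, σ 2, σ 3}}) :
    ∃ K', Ctx N B K' ∧ F2 B K' ∧ HIso N B K K' ∧ FC B K' r ψ ∧
      ∃ τ : Equiv.Perm (Fin 5), T = {τ 2, τ 3, τ 4} ∧
        Code ψ K' = {∅, {τ 0, τ 1}, {τ 0, τ 2, τ 3}, {τ 1, τ 2, τ 3}} := by
  obtain ⟨μ0, ho0, hμ0⟩ := p5_norm hF h hT (σ 0)
  obtain ⟨μ2, ho2, hμ2⟩ := p5_norm hF h hT (σ 2)
  obtain ⟨μ4, ho4, hμ4⟩ := p5_norm hF h hT (σ 4)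
  have hCw : ∀ w, w ∈ Code ψ K ↔
      (w = ∅ ∨ w = {σ 0, σ 1} ∨ w = {σ 2, σ 3} ∨ w = {σ 0, σ 1, σ 2, σ 3}) := by
    intro w
    rw [hC]
    simp only [Set.mem_insert_iff, Set.mem_singleton_iff]
  have m0 : σ 0 ∉ T := by
    rw [hTσ, p5_m3 σ 2 3 4, Finset.mem_map_equiv, Equiv.symm_apply_apply]
    decide
  have m2 : σ 2 ∈ T := by
    rw [hTσ, p5_m3 σ 2 3 4, Finset.mem_map_equiv, Equiv.symm_apply_apply]
    decide
  have m4 : σ 4 ∈ T := by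
    rw [hTσ, p5_m3 σ 2 3 4, Finset.mem_map_equiv, Equiv.symm_apply_apply]
    decide
  rw [if_neg m0] at hμ0
  rw [if_pos m2] at hμ2
  rw [if_pos m4] at hμ4
  obtain ⟨v, hv⟩ := ho2.add_odd ho4
  have hu : B (∑ i ∈ ({σ 2, σ 4, σ 0} : Finset (Fin 5)), r i)
      (∑ i ∈ ({σ 2, σ 4, σ 0} : Finset (Fin 5)), r i) = 4 * ((v + μ0 : ℤ) : ℚ) := by
    rw [p5_Bk hF.toK5 h]
    have h24 : σ 2 ∉ ({σ 4, σ 0} : Finset (Fin 5)) := by
      rw [p5_m2 σ 4 0, Finset.mem_map_equiv, Equiv.symm_apply_apply]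
      decide
    have h40 : σ 4 ∉ ({σ 0} : Finset (Fin 5)) := by
      rw [p5_m1 σ 0, Finset.mem_map_equiv, Equiv.symm_apply_apply]
      decide
    have hψ : ∀ i ∈ ({σ 2, σ 4, σ 0} : Finset (Fin 5)),
        1 / 2 * B (r i) (r i) * ψ (∑ i ∈ ({σ 2, σ 4, σ 0} : Finset (Fin 5)), r i) i =
          B (r i) (r i) := by
      intro i hi
      rw [p5_psik h, if_pos hi]
      ring
    rw [Finset.sum_congr rfl hψ, Finset.sum_insert h24, Finset.sum_insert h40,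
      Finset.sum_singleton, hμ0, hμ2, hμ4]
    have hv' : (μ2 : ℚ) + μ4 = v + v := by exact_mod_cast hv
    push_cast
    linear_combination 2 * hv'
  obtain ⟨K', c1, c2, c3, c4, c5⟩ := keep_frame hX hF h hT {σ 2, σ 4, σ 0} hu
    ⟨{σ 2, σ 3}, (hCw _).2 (Or.inr (Or.inr (Or.inl rfl))), by
      rw [hTσ, p5_m3 σ 2 4 0, p5_m3 σ 2 3 4, p5_m2 σ 2 3, p5_map_inter, p5_map_inter,
        Finset.card_map]
      decide⟩
    (fun i => ⟨fun hh => p5_d6c σ i _ (Or.inl rfl) ((hCw _).1 hh),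
      fun hh => p5_d6c σ i _ (Or.inr rfl) ((hCw _).1 hh)⟩)
  refine ⟨K', c1, c2, c3, c4, ?_⟩
  rcases Int.even_or_odd (v + μ0) with he | hodd
  · refine ⟨σ * Equiv.swap 3 4, ?_, ?_⟩
    · have e2 : (σ * Equiv.swap 3 4 : Equiv.Perm (Fin 5)) 2 = σ 2 := rfl
      have e3 : (σ * Equiv.swap 3 4 : Equiv.Perm (Fin 5)) 3 = σ 4 := rfl
      have e4 : (σ * Equiv.swap 3 4 : Equiv.Perm (Fin 5)) 4 = σ 3 := rfl
      rw [e2, e3, e4, hTσ, Finset.pair_comm]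
    · have e0 : (σ * Equiv.swap 3 4 : Equiv.Perm (Fin 5)) 0 = σ 0 := rfl
      have e1 : (σ * Equiv.swap 3 4 : Equiv.Perm (Fin 5)) 1 = σ 1 := rfl
      have e2 : (σ * Equiv.swap 3 4 : Equiv.Perm (Fin 5)) 2 = σ 2 := rfl
      have e3 : (σ * Equiv.swap 3 4 : Equiv.Perm (Fin 5)) 3 = σ 4 := rfl
      rw [e0, e1, e2, e3]
      ext w
      rw [c5 w, hCw, hCw]
      simp only [Set.mem_insert_iff, Set.mem_singleton_iff]
      rw [← p5_d6a σ w, hTσ]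
      have hpar : ∀ n : ℕ, (∃ z : ℤ, (n : ℤ) - (v + μ0) = 2 * z) ↔ Even n := by
        intro n
        obtain ⟨b, hb⟩ := he
        rw [hb, ← Int.even_coe_nat]
        constructor
        · rintro ⟨z, hz⟩
          exact ⟨z + b, by linarith⟩
        · rintro ⟨z, hz⟩
          exact ⟨z - b, by linarith⟩
      rw [hpar]
  · refine ⟨σ * (Equiv.swap 2 3 * Equiv.swap 3 4), ?_, ?_⟩
    · have e2 : (σ * (Equiv.swap 2 3 * Equiv.swap 3 4) : Equiv.Perm (Fin 5)) 2 = σ 3 := rfl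
      have e3 : (σ * (Equiv.swap 2 3 * Equiv.swap 3 4) : Equiv.Perm (Fin 5)) 3 = σ 4 := rfl
      have e4 : (σ * (Equiv.swap 2 3 * Equiv.swap 3 4) : Equiv.Perm (Fin 5)) 4 = σ 2 := rfl
      rw [e2, e3, e4, hTσ, p5_m3 σ 2 3 4, p5_m3 σ 3 4 2, Finset.map_inj]
      decide
    · have e0 : (σ * (Equiv.swap 2 3 * Equiv.swap 3 4) : Equiv.Perm (Fin 5)) 0 = σ 0 := rfl
      have e1 : (σ * (Equiv.swap 2 3 * Equiv.swap 3 4) : Equiv.Perm (Fin 5)) 1 = σ 1 := rfl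
      have e2 : (σ * (Equiv.swap 2 3 * Equiv.swap 3 4) : Equiv.Perm (Fin 5)) 2 = σ 3 := rfl
      have e3 : (σ * (Equiv.swap 2 3 * Equiv.swap 3 4) : Equiv.Perm (Fin 5)) 3 = σ 4 := rfl
      rw [e0, e1, e2, e3]
      ext w
      rw [c5 w, hCw, hCw]
      simp only [Set.mem_insert_iff, Set.mem_singleton_iff]
      rw [← p5_d6b σ w, hTσ]
      have hpar : ∀ n : ℕ, (∃ z : ℤ, (n : ℤ) - (v + μ0) = 2 * z) ↔ ¬ Even n := by
        intro n
        obtain ⟨b, hb⟩ := hodd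
        rw [hb, Nat.not_even_iff_odd, ← Int.odd_coe_nat]
        constructor
        · rintro ⟨z, hz⟩
          exact ⟨z + b, by linarith⟩
        · rintro ⟨z, hz⟩
          exact ⟨z - b, by linarith⟩
      rw [hpar]

/-- Row [RH-P5]: code `{∅, {a,b,c,d}}`, `T = univ`; if `μ_i + μ_e ≡ 0 mod 4` for some
`i ∈ {a,b,c,d}` (`e = σ 4`, `i = σ j`): `keep_frame` with `J = {i,e}`, `u = (μ_i+μ_e)/2` even:
new code `{∅, {i,e}}`. -/
theorem move3 {N : ℕ} {B : LinearMap.BilinForm ℚ V} {K : AddSubgroup V}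
    (hX : Ctx N B K) (hF : F2 B K) {r : Fin 5 → V} {ψ : V ≃ₗ[ℚ] V5} (h : FC B K r ψ)
    (hT : ∀ i, ∃ μ : ℕ, Odd μ ∧ B (r i) (r i) = 2 * μ)
    (σ : Equiv.Perm (Fin 5)) (hC : Code ψ K = {∅, {σ 0, σ 1, σ 2, σ 3}}) (j : Fin 5)
    (hj : j ≠ 4) (hm : ∃ z : ℤ, B (r (σ j)) (r (σ j)) + B (r (σ 4)) (r (σ 4)) = 8 * z) :
    ∃ K', Ctx N B K' ∧ F2 B K' ∧ HIso N B K K' ∧ FC B K' r ψ ∧
      ∃ τ : Equiv.Perm (Fin 5), Code ψ K' = {∅, {τ 0, τ 1}} := by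
  have hT' : ∀ i, i ∈ (Finset.univ : Finset (Fin 5)) ↔
      ∃ μ : ℕ, Odd μ ∧ B (r i) (r i) = 2 * μ := fun i =>
    iff_of_true (Finset.mem_univ i) (hT i)
  have hCw : ∀ w, w ∈ Code ψ K ↔ (w = ∅ ∨ w = {σ 0, σ 1, σ 2, σ 3}) := by
    intro w
    rw [hC]
    simp only [Set.mem_insert_iff, Set.mem_singleton_iff]
  obtain ⟨v, hv⟩ := hm
  have hu : B (∑ i ∈ ({σ j, σ 4} : Finset (Fin 5)), r i)
      (∑ i ∈ ({σ j, σ 4} : Finset (Fin 5)), r i) = 4 * ((2 * v : ℤ) : ℚ) := by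
    rw [p5_Bk hF.toK5 h]
    have hne : σ j ≠ σ 4 := fun hh => hj (σ.injective hh)
    have hψ : ∀ i ∈ ({σ j, σ 4} : Finset (Fin 5)),
        1 / 2 * B (r i) (r i) * ψ (∑ i ∈ ({σ j, σ 4} : Finset (Fin 5)), r i) i =
          B (r i) (r i) := by
      intro i hi
      rw [p5_psik h, if_pos hi]
      ring
    rw [Finset.sum_congr rfl hψ, Finset.sum_pair hne, hv]
    push_cast
    ring
  obtain ⟨K', c1, c2, c3, c4, c5⟩ := keep_frame hX hF h hT' {σ j, σ 4} hu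
    ⟨{σ 0, σ 1, σ 2, σ 3}, (hCw _).2 (Or.inr rfl), p5_d3c σ j hj⟩
    (fun i => ⟨fun hh => p5_d3b σ j hj i _ (Or.inl rfl) ((hCw _).1 hh),
      fun hh => p5_d3b σ j hj i _ (Or.inr rfl) ((hCw _).1 hh)⟩)
  refine ⟨K', c1, c2, c3, c4, ?_⟩
  obtain ⟨ρ, hρ0, hρ1⟩ := p5_d3d j hj
  refine ⟨σ * ρ, ?_⟩
  rw [Equiv.Perm.mul_apply, Equiv.Perm.mul_apply, hρ0, hρ1]
  ext w
  rw [c5 w, hCw, hCw]
  simp only [Set.mem_insert_iff, Set.mem_singleton_iff]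
  rw [← p5_d3a σ j hj w]
  have hpar : ∀ n : ℕ, (∃ z : ℤ, (n : ℤ) - 2 * v = 2 * z) ↔ Even n := by
    intro n
    rw [← Int.even_coe_nat]
    constructor
    · rintro ⟨z, hz⟩
      exact ⟨z + v, by linarith⟩
    · rintro ⟨z, hz⟩
      exact ⟨z - v, by linarith⟩
  rw [hpar]

end RH6
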