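import Pool.Agent.RH6.NDef

namespace RH6

variable {V : Type*} [AddCommGroup V] [Module ℚ V]

/-! Patterns of orthogonally framed lattices. -/

def AQ1 : Fin 5 → ℕ := ![2, 2, 2, 2, 2]
def HQ1 : List (Fin 5 → ℕ) := []
def AQ5 : Fin 5 → ℕ := ![1, 1, 2, 2, 2]
def HQ5 : List (Fin 5 → ℕ) := [![1, 1, 0, 0, 0]]
def AQ8 : Fin 5 → ℕ := ![1, 1, 1, 1, 2]
def HQ8 : List (Fin 5 → ℕ) := [![1, 1, 0, 0, 0], ![0, 0, 1, 1, 0]]
def AP4 : Fin 5 → ℕ := ![1, 1, 1, 1, 4]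
def HP4 : List (Fin 5 → ℕ) := [![1, 1, 0, 0, 0], ![0, 0, 1, 1, 0]]
def AP2 : Fin 5 → ℕ := ![1, 1, 4, 4, 4]
def HP2 : List (Fin 5 → ℕ) := [![1, 1, 0, 0, 0]]
def AP3 : Fin 5 → ℕ := ![1, 1, 1, 1, 4]
def HP3 : List (Fin 5 → ℕ) := [![1, 1, 0, 0, 0], ![0, 1, 1, 0, 0], ![0, 0, 1, 1, 0]]
def AP6 : Fin 5 → ℕ := ![2, 2, 1, 1, 4]
def HP6 : List (Fin 5 → ℕ) := [![0, 0, 1, 1, 0], ![1, 1, 1, 0, 0]]
def AP7 : Fin 5 → ℕ := ![2, 2, 2, 2, 4]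
def HP7 : List (Fin 5 → ℕ) := [![1, 1, 1, 1, 0]]

/-- `(K,B)` is isometric to `(KH H, Bm A m)` -/
def Rep (A : Fin 5 → ℕ) (H : List (Fin 5 → ℕ)) (m : Fin 5 → ℕ) (B : LinearMap.BilinForm ℚ V)
    (K : AddSubgroup V) : Prop :=
  ∃ ψ : V ≃ₗ[ℚ] V5, (∀ x y, Bm A m (ψ x) (ψ y) = B x y) ∧ ∀ x, x ∈ K ↔ ψ x ∈ KH H

/-- the parameters: odd, squarefree, no odd prime divides more than three of them -/
structure MOK (m : Fin 5 → ℕ) : Prop where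
  odd : ∀ i, Odd (m i)
  sq : ∀ i, Squarefree (m i)
  big : ∀ p : ℕ, p.Prime → (Finset.univ.filter (fun i => p ∣ m i)).card ≤ 3

open Classical in
/-- the positions of the odd entries -/
noncomputable def word (y : V5) : Finset (Fin 5) :=
  Finset.univ.filter (fun i => ∃ z : ℤ, y i = 2 * z + 1)

/-- frame coordinates of `K` with respect to five orthogonal roots `r i`:
`ψ x i = 2(x,r_i)/(r_i,r_i)` -/
structure FC (B : LinearMap.BilinForm ℚ V) (K : AddSubgroup V) (r : Fin 5 → V)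
    (ψ : V ≃ₗ[ℚ] V5) : Prop where
  rt : ∀ i, Rt B K (r i)
  ort : ∀ i j, i ≠ j → B (r i) (r j) = 0
  psi : ∀ x i, ψ x i = 2 * B x (r i) / B (r i) (r i)
  form : ∀ x y, B x y = 1 / 4 * ∑ i, B (r i) (r i) * ψ x i * ψ y i
  psr : ∀ i, ψ (r i) = Pi.single i 2
  int : ∀ x ∈ K, ∀ i, ∃ z : ℤ, ψ x i = z

/-- the glue code of `K` -/
def Code (ψ : V ≃ₗ[ℚ] V5) (K : AddSubgroup V) : Set (Finset (Fin 5)) :=
  {w | ∃ x ∈ K, word (ψ x) = w}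

end RH6
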