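import Pool.Agent.RH6.ZH
import Pool.Agent.RH6.VA0
import Pool.Agent.RH6.MC0
import Pool.Agent.RH6.MC1

set_option maxRecDepth 200000

namespace RH6.PO

open RH6.P RH6.MC

theorem p0_ok : polyOK pd0 51422017428260310233145136811307154430482220263205136075071489
    [13, -12, 5, 1, 2, 1, 1] = true := by decide +kernel

theorem fin0 : (WG (ofL (hypL 1 m0.K))).relIndex
    (OG (ofL (hypL 1 m0.K)) (vecL hU)) ≠ 0 :=
  fin_of p0_ok (verts_of v0_0 (by decide +kernel)) (d := m0.D) (c := m0.c) (T := m0.T)
    (by decide +kernel) (by decide +kernel) (by decide +kernel)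

theorem ref0 : RefData m0.K :=
  refData_of m0_ok (by decide) (by decide +kernel) (by decide +kernel) fin0

theorem p1_ok : polyOK pd1 51422017428260310233145136811307154430482220263205136075071489
    [12, -11, 5, 4, 3, 2, 1] = true := by decide +kernel

theorem fin1 : (WG (ofL (hypL 1 m1.K))).relIndex
    (OG (ofL (hypL 1 m1.K)) (vecL hU)) ≠ 0 :=
  fin_of p1_ok (verts_of v1_0 (by decide +kernel)) (d := m1.D) (c := m1.c) (T := m1.T)
    (by decide +kernel) (by decide +kernel) (by decide +kernel)

theorem ref1 : RefData m1.K :=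
  refData_of m1_ok (by decide) (by decide +kernel) (by decide +kernel) fin1

theorem p2_ok : polyOK pd2 51422017428260310233145136811307154430482220263205136075071489
    [11, -10, 5, 4, 3, 2, 1] = true := by decide +kernel

theorem fin2 : (WG (ofL (hypL 1 m2.K))).relIndex
    (OG (ofL (hypL 1 m2.K)) (vecL hU)) ≠ 0 :=
  fin_of p2_ok (verts_of v2_0 (by decide +kernel)) (d := m2.D) (c := m2.c) (T := m2.T)
    (by decide +kernel) (by decide +kernel) (by decide +kernel)

theorem ref2 : RefData m2.K :=
  refData_of m2_ok (by decide) (by decide +kernel) (by decide +kernel) fin2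

theorem p3_ok : polyOK pd3 51422017428260310233145136811307154430482220263205136075071489
    [13, -12, 2, 1, 3, 2, 5] = true := by decide +kernel

theorem fin3 : (WG (ofL (hypL 1 m3.K))).relIndex
    (OG (ofL (hypL 1 m3.K)) (vecL hU)) ≠ 0 :=
  fin_of p3_ok (verts_of v3_0 (by decide +kernel)) (d := m3.D) (c := m3.c) (T := m3.T)
    (by decide +kernel) (by decide +kernel) (by decide +kernel)

theorem ref3 : RefData m3.K :=
  refData_of m3_ok (by decide) (by decide +kernel) (by decide +kernel) fin3

theorem p4_ok : polyOK pd4 51422017428260310233145136811307154430482220263205136075071489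
    [8, -7, 2, 1, 3, 2, 2] = true := by decide +kernel

theorem fin4 : (WG (ofL (hypL 1 m4.K))).relIndex
    (OG (ofL (hypL 1 m4.K)) (vecL hU)) ≠ 0 :=
  fin_of p4_ok (verts_of v4_0 (by decide +kernel)) (d := m4.D) (c := m4.c) (T := m4.T)
    (by decide +kernel) (by decide +kernel) (by decide +kernel)

theorem ref4 : RefData m4.K :=
  refData_of m4_ok (by decide) (by decide +kernel) (by decide +kernel) fin4

theorem p5_ok : polyOK pd5 51422017428260310233145136811307154430482220263205136075071489
    [8, -6, 2, 1, 2, 1, 2] = true := by decide +kernel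

theorem fin5 : (WG (ofL (hypL 1 m5.K))).relIndex
    (OG (ofL (hypL 1 m5.K)) (vecL hU)) ≠ 0 :=
  fin_of p5_ok (verts_of v5_0 (by decide +kernel)) (d := m5.D) (c := m5.c) (T := m5.T)
    (by decide +kernel) (by decide +kernel) (by decide +kernel)

theorem ref5 : RefData m5.K :=
  refData_of m5_ok (by decide) (by decide +kernel) (by decide +kernel) fin5

theorem p6_ok : polyOK pd6 51422017428260310233145136811307154430482220263205136075071489
    [7, -6, 2, 1, 2, 1, 1] = true := by decide +kernel

theorem fin6 : (WG (ofL (hypL 1 m6.K))).relIndex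
    (OG (ofL (hypL 1 m6.K)) (vecL hU)) ≠ 0 :=
  fin_of p6_ok (verts_of v6_0 (by decide +kernel)) (d := m6.D) (c := m6.c) (T := m6.T)
    (by decide +kernel) (by decide +kernel) (by decide +kernel)

theorem ref6 : RefData m6.K :=
  refData_of m6_ok (by decide) (by decide +kernel) (by decide +kernel) fin6

theorem p7_ok : polyOK pd7 51422017428260310233145136811307154430482220263205136075071489
    [9, -8, 2, 1, 2, 1, 3] = true := by decide +kernel

theorem fin7 : (WG (ofL (hypL 1 m7.K))).relIndex
    (OG (ofL (hypL 1 m7.K)) (vecL hU)) ≠ 0 :=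
  fin_of p7_ok (verts_of v7_0 (by decide +kernel)) (d := m7.D) (c := m7.c) (T := m7.T)
    (by decide +kernel) (by decide +kernel) (by decide +kernel)

theorem ref7 : RefData m7.K :=
  refData_of m7_ok (by decide) (by decide +kernel) (by decide +kernel) fin7

theorem p8_ok : polyOK pd8 51422017428260310233145136811307154430482220263205136075071489
    [9, -7, 3, 2, 1, 3, 1] = true := by decide +kernel

theorem fin8 : (WG (ofL (hypL 1 m8.K))).relIndex
    (OG (ofL (hypL 1 m8.K)) (vecL hU)) ≠ 0 :=
  fin_of p8_ok (verts_of v8_0 (by decide +kernel)) (d := m8.D) (c := m8.c) (T := m8.T)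
    (by decide +kernel) (by decide +kernel) (by decide +kernel)

theorem ref8 : RefData m8.K :=
  refData_of m8_ok (by decide) (by decide +kernel) (by decide +kernel) fin8

theorem p9_ok : polyOK pd9 51422017428260310233145136811307154430482220263205136075071489
    [7, -6, 3, 2, 1, 2, 1] = true := by decide +kernel

theorem fin9 : (WG (ofL (hypL 1 m9.K))).relIndex
    (OG (ofL (hypL 1 m9.K)) (vecL hU)) ≠ 0 :=
  fin_of p9_ok (verts_of v9_0 (by decide +kernel)) (d := m9.D) (c := m9.c) (T := m9.T)
    (by decide +kernel) (by decide +kernel) (by decide +kernel)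

theorem ref9 : RefData m9.K :=
  refData_of m9_ok (by decide) (by decide +kernel) (by decide +kernel) fin9

end RH6.PO
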