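import Mathlib

namespace RH6.P

/-- binary trees (Braun trees) of natural numbers, used as arrays -/
inductive Tr where
  | nil : Tr
  | node : Nat → Tr → Tr → Tr

def Tr.get : Tr → Nat → Nat
  | .nil, _ => 0
  | .node v l r, i =>
    bif Nat.beq i 0 then v else
      bif Nat.beq (Nat.mod i 2) 1 then l.get (Nat.div (Nat.sub i 1) 2) else r.get (Nat.div (Nat.sub i 2) 2)

/-- Vectors `v ∈ ℤ^7`, `|v_i| < 8192`, are coded by `∑ (v_i + 8192) X^i`, `X = 2^32`; functionals
`f` by `∑ (f_i + 8192) X^(6-i)`.  `X6 = X^6`. -/
def X : Nat := 4294967296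
def X6 : Nat := 6277101735386680763835789423207666416102355444464034512896

/-- the digit sum (`Ones = ∑ X^i`) -/
def sumd (a : Nat) : Nat :=
  Nat.mod (Nat.div (Nat.mul a 6277101736848182401506974708411517874814724153223283736577) 6277101735386680763835789423207666416102355444464034512896) 4294967296

/-- `v · f = 0` -/
def isz (a b : Nat) : Bool :=
  Nat.beq (Nat.add (Nat.mod (Nat.div (Nat.mul a b) 6277101735386680763835789423207666416102355444464034512896) 4294967296) 469762048)
    (Nat.mul 8192 (Nat.add (sumd a) (sumd b)))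

/-- `v · f < 0` -/
def isn (a b : Nat) : Bool :=
  Nat.blt (Nat.add (Nat.mod (Nat.div (Nat.mul a b) 6277101735386680763835789423207666416102355444464034512896) 4294967296) 469762048)
    (Nat.mul 8192 (Nat.add (sumd a) (sumd b)))

/-- all 7 digits are `< 16384` and there are no further digits -/
def wf : Nat → Nat → Bool
  | 0, a => Nat.beq a 0
  | Nat.succ n, a => Nat.blt (Nat.mod a 4294967296) 16384 && wf n (Nat.div a 4294967296)

/-- decode digits in base 8192 -/
def decN : Nat → Nat → List Nat
  | 0, _ => []
  | Nat.succ n, v => Nat.mod v 8192 :: decN n (Nat.div v 8192)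

/-- decode a vector as a list of integers -/
def decI : Nat → Nat → List Int
  | 0, _ => []
  | Nat.succ n, a => Int.sub (Int.ofNat (Nat.mod a 4294967296)) 8192 :: decI n (Nat.div a 4294967296)

def dotI : List Int → List Int → Int
  | a :: s, b :: t => Int.add (Int.mul a b) (dotI s t)
  | _, _ => 0

def nonpos : Int → Bool
  | .negSucc _ => true
  | .ofNat n => Nat.beq n 0

/-- `(v,v) ≤ 0` for the Gram matrix `G` (list of rows) -/
def qnp (G : List (List Int)) (v : List Int) : Bool := nonpos (dotI v (G.map (dotI v)))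

structure PD where
  n : Nat
  m : Nat
  G : List (List Int)
  Et : Tr
  Ft : Tr
  Rt : Tr
  hf : Nat  -- functional of h

inductive Vc where
  | fin : Nat → Vc
  | idl : Nat → List (List (Nat × Nat) × Nat) → List Nat → Vc

def allz (r : Nat) : List Nat → Bool
  | [] => true
  | f :: fs => isz r f && allz r fs

/-- all `r · f = 0` except at position `k`, where it is negative -/
def rowD (r : Nat) : List Nat → Nat → Bool
  | [], _ => true
  | f :: fs, 0 => isn r f && allz r fs
  | f :: fs, Nat.succ k => isz r f && rowD r fs k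

def diagOK (Fs : List Nat) : List Nat → Nat → Bool
  | [], _ => true
  | r :: rs, k => rowD r Fs k && diagOK Fs rs (Nat.succ k)

def allz' (f : Nat) : List Nat → Bool
  | [] => true
  | r :: rs => isz r f && allz' f rs

/-- spine: `R_k · F_k ≠ 0`, `R_l · F_k = 0` for `l > k` -/
def spineOK : List Nat → List Nat → Bool
  | f :: fs, r :: rs => !(isz r f) && allz' f rs && spineOK fs rs
  | [], [] => true
  | _, _ => false

def allLt (b : Nat) : List Nat → Bool
  | [] => true
  | a :: t => Nat.blt a b && allLt b t

/-- `∑ a_e code(E_e)` and `∑ a_e` -/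
def relSum (D : PD) : List (Nat × Nat) → Nat
  | [] => 0
  | p :: t => Nat.add (Nat.mul p.2 (D.Et.get p.1)) (relSum D t)

def coefSum : List (Nat × Nat) → Nat
  | [] => 0
  | p :: t => Nat.add p.2 (coefSum t)

/-- transversals -/
def tv : List (List (Nat × Nat) × Nat) → List (List Nat)
  | [] => [[]]
  | c :: cs => c.1.flatMap (fun p => (tv cs).map (fun t => p.1 :: t))

def memN (a : Nat) : List Nat → Bool
  | [] => false
  | b :: t => Nat.beq a b || memN a t

def cornerOK (f : List Nat) (r : Nat) : List (Nat × Nat) → Bool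
  | [] => true
  | p :: t => (bif memN p.1 f then isn r p.2 else isz r p.2) && cornerOK f r t

def cornersOK (D : PD) (T : List (Nat × Nat)) : List (List Nat) → List Nat → Bool
  | f :: fs, i :: is => Nat.blt i D.m && cornerOK f (D.Rt.get i) T && cornersOK D T fs is
  | [], [] => true
  | _, _ => false

def subset (l : List Nat) : List Nat → Bool
  | [] => true
  | a :: t => memN a l && subset l t

def vertOK (D : PD) (j : Nat) : Vc → Bool
  | .fin c =>
    allLt D.n (decN 6 c) && allLt D.m (decN 6 (Nat.div c 302231454903657293676544)) &&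
    allz (D.Rt.get j) ((decN 6 c).map D.Ft.get) &&
    diagOK ((decN 6 c).map D.Ft.get) ((decN 6 (Nat.div c 302231454903657293676544)).map D.Rt.get) 0 &&
    isn (D.Rt.get j) D.hf && qnp D.G (decI 7 (D.Rt.get j))
  | .idl sp comps cor =>
    allLt D.n (decN 6 sp) &&
    subset ((comps.flatMap (fun c => c.1)).map Prod.fst) (decN 6 sp) &&
    spineOK ((decN 6 sp).map D.Ft.get) ((decN 6 (Nat.div sp 302231454903657293676544)).map D.Rt.get) &&
    allLt D.n ((comps.flatMap (fun c => c.1)).map Prod.fst) &&
    allz (D.Rt.get j) ((comps.flatMap (fun c => c.1)).map (fun p => D.Ft.get p.1)) &&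
    comps.all (fun c => !(c.1.isEmpty) && Nat.blt 0 c.2 && c.1.all (fun p => Nat.blt 0 p.2) &&
      Nat.blt (coefSum c.1) 65536 && Nat.blt c.2 65536 &&
      Nat.beq (Nat.add (relSum D c.1) (Nat.mul (Nat.mul c.2 8192) 6277101736848182401506974708411517874814724153223283736577))
        (Nat.add (Nat.mul c.2 (D.Rt.get j)) (Nat.mul (Nat.mul (coefSum c.1) 8192) 6277101736848182401506974708411517874814724153223283736577))) &&
    !(comps.isEmpty) &&
    cornersOK D ((comps.flatMap (fun c => c.1)).map (fun p => (p.1, D.Ft.get p.1))) (tv comps) cor &&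
    isn (D.Rt.get j) D.hf && qnp D.G (decI 7 (D.Rt.get j))

def vertsOK (D : PD) : Nat → List Vc → Bool
  | _, [] => true
  | j, c :: cs => vertOK D j c && vertsOK D (Nat.succ j) cs

end RH6.P

namespace RH6.P

/-- decoded vector -/
def vecN (a : ℕ) : Fin 7 → ℤ := fun k => ((a / 4294967296 ^ (k : ℕ) % 4294967296 : ℕ) : ℤ) - 8192

/-- decoded functional -/
def funN (b : ℕ) : Fin 7 → ℤ :=
  fun k => ((b / 4294967296 ^ (6 - (k : ℕ)) % 4294967296 : ℕ) : ℤ) - 8192

def treeWf : Tr → Bool
  | .nil => true
  | .node v l r => wf 7 v && treeWf l && treeWf r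

def eqLI : List Int → List Int → Bool
  | a :: s, b :: t => (match Int.sub a b with
      | .ofNat n => Nat.beq n 0
      | .negSucc _ => false) && eqLI s t
  | [], [] => true
  | _, _ => false

/-- the functional `F e` is `G (E e)`, for `e < n` -/
def funOK (D : PD) : Nat → Bool
  | 0 => true
  | Nat.succ e => eqLI (decI 7 (D.Ft.get e)) ((D.G.map (dotI (decI 7 (D.Et.get e)))).reverse) && funOK D e

/-- all data are well formed, and `hf` is the functional of the vector coded by `hc` -/
def dataOK (D : PD) (hc : Nat) : Bool :=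
  treeWf D.Et && treeWf D.Ft && treeWf D.Rt && wf 7 D.hf && wf 7 hc &&
  Nat.beq D.G.length 7 && D.G.all (fun r => Nat.beq r.length 7) &&
  eqLI (decI 7 D.hf) ((D.G.map (dotI (decI 7 hc))).reverse) && funOK D D.n

end RH6.P
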