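import Pool.Agent.RH6.RDef

namespace RH6

variable {V : Type*} [AddCommGroup V] [Module ℚ V]

/-! Row [RH-R1]: elementary facts on roots.  `B` symmetric and positive definite.
`Rt B K r`: `r ∈ K`, `r ≠ 0`, `2(x,r) ∈ (r,r)ℤ` for `x ∈ K`, and `t r ∈ K` implies `t ∈ ℤ`. -/

theorem rt_neg {B : LinearMap.BilinForm ℚ V} {K : AddSubgroup V} {r : V} (h : Rt B K r) :
    Rt B K (-r) := by
  obtain ⟨h1, h2, h3, h4⟩ := h
  refine ⟨K.neg_mem h1, neg_ne_zero.2 h2, fun x hx => ?_, fun t ht => ?_⟩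
  · obtain ⟨n, hn⟩ := h3 x hx
    refine ⟨-n, ?_⟩
    simp only [map_neg, LinearMap.neg_apply]
    push_cast
    linear_combination -hn
  · have h5 : (-t) • r ∈ K := by rwa [neg_smul, ← smul_neg]
    obtain ⟨z, hz⟩ := h4 _ h5
    exact ⟨-z, by push_cast; linear_combination -hz⟩

/-- the reflection as a function -/
def r1_s (B : LinearMap.BilinForm ℚ V) (r x : V) : V := x - (2 * B x r / B r r) • r

theorem r1_s_invol {B : LinearMap.BilinForm ℚ V} {r : V} (h : B r r ≠ 0) (x : V) :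
    r1_s B r (r1_s B r x) = x := by
  unfold r1_s
  simp only [map_sub, map_smul, LinearMap.sub_apply, LinearMap.smul_apply, smul_eq_mul]
  match_scalars
  · ring
  · field_simp
    ring

theorem r1_s_iso {B : LinearMap.BilinForm ℚ V} (hs : ∀ x y, B x y = B y x) {r : V}
    (h : B r r ≠ 0) (x y : V) : B (r1_s B r x) (r1_s B r y) = B x y := by
  unfold r1_s
  simp only [map_sub, map_smul, LinearMap.sub_apply, LinearMap.smul_apply, smul_eq_mul]
  rw [hs r y]
  field_simp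
  ring

theorem r1_s_mem {B : LinearMap.BilinForm ℚ V} {K : AddSubgroup V} {r : V} (hr : Rt B K r)
    (h : B r r ≠ 0) {x : V} (hx : x ∈ K) : r1_s B r x ∈ K := by
  obtain ⟨n, hn⟩ := hr.2.2.1 x hx
  unfold r1_s
  have h1 : 2 * B x r / B r r = n := by rw [hn]; field_simp
  rw [h1, Int.cast_smul_eq_zsmul]
  exact K.sub_mem hx (K.zsmul_mem hr.1 _)

/-- the reflection `s ↦ s - (2(s,r)/(r,r)) r` preserves `K` (`2(x,r)/(r,r) ∈ ℤ`) and is an
involutive isometry, so it permutes the roots -/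
theorem rt_refl {B : LinearMap.BilinForm ℚ V} (hs : ∀ x y, B x y = B y x)
    (hp : ∀ x, x ≠ 0 → 0 < B x x) {K : AddSubgroup V} {r s : V} (hr : Rt B K r)
    (hs' : Rt B K s) : Rt B K (s - (2 * B s r / B r r) • r) := by
  have hrr : B r r ≠ 0 := (hp r hr.2.1).ne'
  change Rt B K (r1_s B r s)
  refine ⟨r1_s_mem hr hrr hs'.1, ?_, fun x hx => ?_, fun t ht => ?_⟩
  · intro h
    apply hs'.2.1
    rw [← r1_s_invol hrr s, h]
    unfold r1_s
    simp
  · obtain ⟨n, hn⟩ := hs'.2.2.1 _ (r1_s_mem hr hrr hx)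
    refine ⟨n, ?_⟩
    rw [r1_s_iso hs hrr, ← hn, ← r1_s_iso hs hrr x, r1_s_invol hrr]
  · apply hs'.2.2.2 t
    have h1 := r1_s_mem hr hrr ht
    have h2 : r1_s B r (t • r1_s B r s) = t • s := by
      have h3 : r1_s B r (t • r1_s B r s) = t • r1_s B r (r1_s B r s) := by
        unfold r1_s
        simp only [map_sub, map_smul, LinearMap.sub_apply, LinearMap.smul_apply, smul_eq_mul]
        match_scalars
        · ring
        · field_simp
      rw [h3, r1_s_invol hrr]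
    rwa [h2] at h1

/-- the reflection with a known coefficient -/
theorem r1_refl {B : LinearMap.BilinForm ℚ V} (hs : ∀ x y, B x y = B y x)
    (hp : ∀ x, x ≠ 0 → 0 < B x x) {K : AddSubgroup V} {r s : V} (hr : Rt B K r)
    (hs' : Rt B K s) {c : ℤ} (h : 2 * B s r = c * B r r) : Rt B K (s - c • r) := by
  have hrr : B r r ≠ 0 := (hp r hr.2.1).ne'
  have h1 := rt_refl hs hp hr hs'
  have h2 : 2 * B s r / B r r = c := by rw [h]; field_simp
  rwa [h2, Int.cast_smul_eq_zsmul] at h1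

theorem rt_coef {B : LinearMap.BilinForm ℚ V} (hs : ∀ x y, B x y = B y x) {K : AddSubgroup V}
    {r s : V} (hr : Rt B K r) (hs' : Rt B K s) :
    ∃ a b : ℤ, 2 * B r s = a * B s s ∧ 2 * B r s = b * B r r := by
  obtain ⟨a, ha⟩ := hs'.2.2.1 r hr.1
  obtain ⟨b, hb⟩ := hr.2.2.1 s hs'.1
  exact ⟨a, b, ha, by rw [hs r s]; exact hb⟩

/-- proportional roots -/
theorem rt_prop {B : LinearMap.BilinForm ℚ V} {K : AddSubgroup V} {r s : V} (hr : Rt B K r)
    (hs' : Rt B K s) {t : ℚ} (h : s = t • r) : s = r ∨ s = -r := by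
  have ht : t ≠ 0 := by
    rintro rfl
    apply hs'.2.1
    rw [h, zero_smul]
  obtain ⟨z, hz⟩ := hr.2.2.2 t (by rw [← h]; exact hs'.1)
  obtain ⟨w, hw⟩ := hs'.2.2.2 t⁻¹ (by rw [h, smul_smul, inv_mul_cancel₀ ht, one_smul]; exact hr.1)
  have h1 : z * w = 1 := by
    have : ((z * w : ℤ) : ℚ) = 1 := by
      push_cast
      rw [← hz, ← hw, mul_inv_cancel₀ ht]
    exact_mod_cast this
  rcases Int.isUnit_iff.1 (IsUnit.of_mul_eq_one w h1) with h2 | h2
  · left
    rw [h, hz, h2]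
    simp
  · right
    rw [h, hz, h2]
    simp

theorem rt_sub {B : LinearMap.BilinForm ℚ V} (hs : ∀ x y, B x y = B y x)
    (hp : ∀ x, x ≠ 0 → 0 < B x x) {K : AddSubgroup V} {r s : V} (hr : Rt B K r)
    (hs' : Rt B K s) (h : 2 * B r s = B s s) : Rt B K (r - s) := by
  have h1 := r1_refl hs hp hs' hr (c := 1) (by rw [h]; simp)
  rwa [one_smul] at h1

theorem rt_add {B : LinearMap.BilinForm ℚ V} (hs : ∀ x y, B x y = B y x)
    (hp : ∀ x, x ≠ 0 → 0 < B x x) {K : AddSubgroup V} {r s : V} (hr : Rt B K r)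
    (hs' : Rt B K s) (h : 2 * B r s = -B s s) : Rt B K (r + s) := by
  have h1 := r1_refl hs hp hs' hr (c := -1) (by rw [h]; simp)
  rwa [neg_smul, one_smul, sub_neg_eq_add] at h1

/-- `4(r,s)² = 2(r,r)(s,s)`: the root `t = s - b r`, `b = 2(r,s)/(r,r)` (the reflection of `s` in
`r`) is orthogonal to `s`.  With `2(r,s) = a(s,s) = b(r,r)` we have `ab = 2`, `(t,s) = (s,s) -
b a (s,s)/2 = 0`, `(t,t) = (s,s)`, and for `s'` orthogonal to `s`: `(t,s')²(r,r) = b²(r,s')²(r,r)`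
and `b²(r,r) = b a (s,s) = 2(s,s) = 2(t,t)`. -/
theorem plane2 {B : LinearMap.BilinForm ℚ V} (hs : ∀ x y, B x y = B y x)
    (hp : ∀ x, x ≠ 0 → 0 < B x x) {K : AddSubgroup V} {r s : V} (hr : Rt B K r)
    (hs' : Rt B K s) (h : 4 * B r s ^ 2 = 2 * (B r r * B s s)) :
    ∃ (t : V) (b : ℤ), Rt B K t ∧ t = s - b • r ∧ B t s = 0 ∧
      ∀ s', B s s' = 0 → B t s' ^ 2 * B r r = 2 * B r s' ^ 2 * B t t := by
  have hrr : B r r ≠ 0 := (hp r hr.2.1).ne'
  have hss : B s s ≠ 0 := (hp s hs'.2.1).ne'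
  obtain ⟨a, b, ha, hb⟩ := rt_coef hs hr hs'
  have hsr : B s r = B r s := hs _ _
  have hab : (a : ℚ) * b = 2 := by
    have h1 : ((a : ℚ) * b - 2) * (B r r * B s s) = 0 := by
      linear_combination h - (2 * B r s) * ha - (a * B s s) * hb
    rcases mul_eq_zero.1 h1 with h2 | h2
    · linear_combination h2
    · exact absurd h2 (mul_ne_zero hrr hss)
  refine ⟨s - b • r, b, r1_refl hs hp hr hs' (by rw [hsr]; exact hb), rfl, ?_, ?_⟩
  · rw [← Int.cast_smul_eq_zsmul ℚ]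
    simp only [map_sub, map_smul, LinearMap.sub_apply, LinearMap.smul_apply, smul_eq_mul]
    linear_combination (-(b : ℚ) / 2) * ha - (B s s / 2) * hab
  · intro s' h0
    rw [← Int.cast_smul_eq_zsmul ℚ]
    simp only [map_sub, map_smul, LinearMap.sub_apply, LinearMap.smul_apply, smul_eq_mul, h0, hsr]
    linear_combination (B r s' ^ 2 * b) * ha + (B r s' ^ 2 * b) * hb + (B r s' ^ 2 * B s s) * hab

/-- `4(r,s)² = 3(r,r)(s,s)`: with `2(r,s) = a(s,s) = b(r,r)`, `ab = 3`, the image of `r` under the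
reflection in `s` and then in `r` is `t = -r - a(s - b r) = 2r - a s`, and
`(t,s) = 2(r,s) - a(s,s) = 0`. -/
theorem plane3 {B : LinearMap.BilinForm ℚ V} (hs : ∀ x y, B x y = B y x)
    (hp : ∀ x, x ≠ 0 → 0 < B x x) {K : AddSubgroup V} {r s : V} (hr : Rt B K r)
    (hs' : Rt B K s) (h : 4 * B r s ^ 2 = 3 * (B r r * B s s)) :
    ∃ (t : V) (a : ℤ), Rt B K t ∧ t = (2 : ℤ) • r - a • s ∧ B t s = 0 := by
  have hrr : B r r ≠ 0 := (hp r hr.2.1).ne'
  have hss : B s s ≠ 0 := (hp s hs'.2.1).ne'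
  obtain ⟨a, b, ha, hb⟩ := rt_coef hs hr hs'
  have hsr : B s r = B r s := hs _ _
  have hab : (a : ℚ) * b = 3 := by
    have h1 : ((a : ℚ) * b - 3) * (B r r * B s s) = 0 := by
      linear_combination h - (2 * B r s) * ha - (a * B s s) * hb
    rcases mul_eq_zero.1 h1 with h2 | h2
    · linear_combination h2
    · exact absurd h2 (mul_ne_zero hrr hss)
  have h1 : Rt B K (r - a • s) := r1_refl hs hp hs' hr ha
  have h2 : Rt B K ((r - a • s) - (-1 : ℤ) • r) := by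
    apply r1_refl hs hp hr h1
    rw [← Int.cast_smul_eq_zsmul ℚ]
    simp only [map_sub, map_smul, LinearMap.sub_apply, LinearMap.smul_apply, smul_eq_mul, hsr]
    push_cast
    linear_combination (-(a : ℚ)) * hb - B r r * hab
  refine ⟨(2 : ℤ) • r - a • s, a, ?_, rfl, ?_⟩
  · have h3 : (r - a • s) - (-1 : ℤ) • r = (2 : ℤ) • r - a • s := by
      rw [neg_smul, one_smul, two_smul]; abel
    rwa [h3] at h2
  · rw [← Int.cast_smul_eq_zsmul ℚ, ← Int.cast_smul_eq_zsmul ℚ]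
    simp only [map_sub, map_smul, LinearMap.sub_apply, LinearMap.smul_apply, smul_eq_mul]
    push_cast
    linear_combination ha

/-- three orthogonal roots `s_i` of the same norm `n` as `r`, `2(r,s_i) = ε_i n`, `ε_i = ±1`:
`q = r - ∑ ε_i s_i` (three reflections) is a root, `(q,r) = n - 3n/2 = -n/2`, and
`q + r = 2r - ∑ ε_i s_i` (reflection of `q` in `r`) is a root orthogonal to the `s_i`. -/
theorem rootD4 {B : LinearMap.BilinForm ℚ V} (hs : ∀ x y, B x y = B y x)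
    (hp : ∀ x, x ≠ 0 → 0 < B x x) {K : AddSubgroup V} {r s1 s2 s3 : V} (hr : Rt B K r)
    (h1 : Rt B K s1) (h2 : Rt B K s2) (h3 : Rt B K s3) (z12 : B s1 s2 = 0) (z13 : B s1 s3 = 0)
    (z23 : B s2 s3 = 0) (n1 : B s1 s1 = B r r) (n2 : B s2 s2 = B r r) (n3 : B s3 s3 = B r r)
    {e1 e2 e3 : ℤ} (u1 : e1 = 1 ∨ e1 = -1) (u2 : e2 = 1 ∨ e2 = -1) (u3 : e3 = 1 ∨ e3 = -1)
    (p1 : 2 * B r s1 = e1 * B r r) (p2 : 2 * B r s2 = e2 * B r r) (p3 : 2 * B r s3 = e3 * B r r) :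
    Rt B K ((2 : ℤ) • r - e1 • s1 - e2 • s2 - e3 • s3) := by
  have w1 : (e1 : ℚ) ^ 2 = 1 := by rcases u1 with rfl | rfl <;> norm_num
  have w2 : (e2 : ℚ) ^ 2 = 1 := by rcases u2 with rfl | rfl <;> norm_num
  have w3 : (e3 : ℚ) ^ 2 = 1 := by rcases u3 with rfl | rfl <;> norm_num
  have q1 : Rt B K (r - e1 • s1) := r1_refl hs hp h1 hr (by rw [p1, n1])
  have q2 : Rt B K (r - e1 • s1 - e2 • s2) := by
    apply r1_refl hs hp h2 q1
    rw [← Int.cast_smul_eq_zsmul ℚ]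
    simp only [map_sub, map_smul, LinearMap.sub_apply, LinearMap.smul_apply, smul_eq_mul, z12]
    rw [n2]
    linear_combination p2
  have q3 : Rt B K (r - e1 • s1 - e2 • s2 - e3 • s3) := by
    apply r1_refl hs hp h3 q2
    rw [← Int.cast_smul_eq_zsmul ℚ, ← Int.cast_smul_eq_zsmul ℚ]
    simp only [map_sub, map_smul, LinearMap.sub_apply, LinearMap.smul_apply, smul_eq_mul, z13,
      z23]
    rw [n3]
    linear_combination p3
  have q4 : Rt B K ((r - e1 • s1 - e2 • s2 - e3 • s3) - (-1 : ℤ) • r) := by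
    apply r1_refl hs hp hr q3
    rw [← Int.cast_smul_eq_zsmul ℚ, ← Int.cast_smul_eq_zsmul ℚ, ← Int.cast_smul_eq_zsmul ℚ]
    simp only [map_sub, map_smul, LinearMap.sub_apply, LinearMap.smul_apply, smul_eq_mul]
    rw [hs s1 r, hs s2 r, hs s3 r]
    push_cast
    linear_combination (-(e1 : ℚ)) * p1 - (e2 : ℚ) * p2 - (e3 : ℚ) * p3 -
      B r r * w1 - B r r * w2 - B r r * w3
  have h5 : (r - e1 • s1 - e2 • s2 - e3 • s3) - (-1 : ℤ) • r =
      (2 : ℤ) • r - e1 • s1 - e2 • s2 - e3 • s3 := by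
    rw [neg_smul, one_smul, two_smul]; abel
  rwa [h5] at q4

end RH6
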