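import Pool.Agent.RH6.R1

namespace RH6

variable {V : Type*} [AddCommGroup V] [Module ℚ V]

/-- `pr` is orthogonal to all `s_i` and `pr r = 0` iff `r` is in the span of the `s_i` -/
theorem pr_orth {B : LinearMap.BilinForm ℚ V} (hs : ∀ x y, B x y = B y x)
    (hp : ∀ x, x ≠ 0 → 0 < B x x) {K : AddSubgroup V} {k : ℕ} {s : Fin k → V} (hS : MaxO B K s)
    (r : V) : ∀ i, B (pr B s r) (s i) = 0 := by
  intro i
  have hii : B (s i) (s i) ≠ 0 := (hp _ (hS.rt i).2.1).ne'
  unfold pr
  rw [map_sub, LinearMap.sub_apply, map_sum, LinearMap.sum_apply, Finset.sum_eq_single i]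
  · rw [map_smul, LinearMap.smul_apply, smul_eq_mul]
    field_simp
    ring
  · intro j _ hj
    rw [map_smul, LinearMap.smul_apply, smul_eq_mul, hS.ort j i hj, mul_zero]
  · intro h
    exact absurd (Finset.mem_univ i) h

/-- the sum in `pr` is in the span -/
theorem r2_sum_mem {B : LinearMap.BilinForm ℚ V} {k : ℕ} {s : Fin k → V} (r : V) :
    (∑ i, (B r (s i) / B (s i) (s i)) • s i) ∈ Submodule.span ℚ (Set.range s) :=
  Submodule.sum_mem _ fun i _ => Submodule.smul_mem _ _ (Submodule.subset_span ⟨i, rfl⟩)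

theorem r2_orth_span {B : LinearMap.BilinForm ℚ V} {k : ℕ} {s : Fin k → V} {x : V}
    (h : ∀ i, B x (s i) = 0) {y : V} (hy : y ∈ Submodule.span ℚ (Set.range s)) : B x y = 0 := by
  induction hy using Submodule.span_induction with
  | mem y hy =>
    obtain ⟨i, rfl⟩ := hy
    exact h i
  | zero => rw [map_zero]
  | add y z _ _ h1 h2 => rw [map_add, h1, h2, add_zero]
  | smul t y _ h1 => rw [map_smul, h1, smul_zero]

theorem pr_zero_iff {B : LinearMap.BilinForm ℚ V} (hs : ∀ x y, B x y = B y x)
    (hp : ∀ x, x ≠ 0 → 0 < B x x) {K : AddSubgroup V} {k : ℕ} {s : Fin k → V} (hS : MaxO B K s)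
    (r : V) : pr B s r = 0 ↔ r ∈ Submodule.span ℚ (Set.range s) := by
  constructor
  · intro h
    unfold pr at h
    rw [sub_eq_zero] at h
    rw [h]
    exact r2_sum_mem r
  · intro h
    by_contra hne
    have h1 : pr B s r ∈ Submodule.span ℚ (Set.range s) := by
      unfold pr
      exact Submodule.sub_mem _ h (r2_sum_mem r)
    have h2 := r2_orth_span (pr_orth hs hp hS r) h1
    exact absurd h2 (hp _ hne).ne'

/-- `(pr r, pr q) = (r,q) - ∑ (r,s_i)(q,s_i)/(s_i,s_i)` -/
theorem pr_mul {B : LinearMap.BilinForm ℚ V} (hs : ∀ x y, B x y = B y x)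
    (hp : ∀ x, x ≠ 0 → 0 < B x x) {K : AddSubgroup V} {k : ℕ} {s : Fin k → V} (hS : MaxO B K s)
    (r q : V) : B (pr B s r) (pr B s q) =
      B r q - ∑ i, B r (s i) * B q (s i) / B (s i) (s i) := by
  have h1 : B (pr B s r) (pr B s q) = B (pr B s r) q := by
    have h2 : pr B s q = q - ∑ i, (B q (s i) / B (s i) (s i)) • s i := rfl
    rw [h2, map_sub, r2_orth_span (pr_orth hs hp hS r) (r2_sum_mem q), sub_zero]
  rw [h1]
  unfold pr
  rw [map_sub, LinearMap.sub_apply, map_sum, LinearMap.sum_apply]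
  congr 1
  apply Finset.sum_congr rfl
  intro i _
  rw [map_smul, LinearMap.smul_apply, smul_eq_mul, hs (s i) q]
  ring

/-- Row [RH-R2]: roots outside the span of a maximal orthogonal family of roots.

Proof.  Let `2(r,s_i) = a_i (s_i,s_i) = b_i (r,r)` (`rt_coef`), `p_i = a_i b_i ≥ 0`, so
`4(r,s_i)² = p_i (r,r)(s_i,s_i)`.  As `pr r ≠ 0`,
`0 < (pr r, pr r) = (r,r)(1 - ∑ p_i/4)`: `∑ p_i ≤ 3`.
* `p_i = 3`: the others are 0, i.e. `(r,s_j) = 0`.  The root `t = 2r - a s_i` of `plane3` is
  orthogonal to all `s_j`: contradiction to maximality.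
* `p_i = 2`: at most one other `p_j` is nonzero and then it is 1.  The root `t = s_i - b r` of
  `plane2` is orthogonal to `s_i` and to all `s_l`, `l ≠ i, j`.  If there is no `j`: contradiction.
  Otherwise `(t,s_j)²(r,r) = 2(r,s_j)²(t,t)` and `4(r,s_j)² = (r,r)(s_j,s_j)` give
  `4(t,s_j)² = 2(t,t)(s_j,s_j)`; `plane2` for `t, s_j` gives a root `t' = s_j - b' t`
  orthogonal to `s_j`; `(t',s_i) = 0` and `(t',s_l) = 0`: contradiction.
* So all `p_i ≤ 1`; `p_i = 1` means `a_i = b_i = ±1`, so `(r,r) = (s_i,s_i)`, `2(r,s_i) = ±(r,r)`.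
  The number of `i` with `p_i = 1` is at most 3; it is not 0 by maximality, and not 3 by `rootD4`
  (the root given there is orthogonal to these three `s_i` and to the others). -/
theorem out_root {B : LinearMap.BilinForm ℚ V} (hs : ∀ x y, B x y = B y x)
    (hp : ∀ x, x ≠ 0 → 0 < B x x) {K : AddSubgroup V} {k : ℕ} {s : Fin k → V} (hS : MaxO B K s)
    {r : V} (hr : Rt B K r) (ho : r ∉ Submodule.span ℚ (Set.range s)) :
    (∀ i, B r (s i) = 0 ∨ (B r r = B (s i) (s i) ∧
      (2 * B r (s i) = B r r ∨ 2 * B r (s i) = -B r r))) ∧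
    ((∃ i, ∀ j, B r (s j) ≠ 0 ↔ j = i) ∨
      (∃ i i', i ≠ i' ∧ ∀ j, B r (s j) ≠ 0 ↔ j = i ∨ j = i')) := by
  classical
  have hrr : 0 < B r r := hp r hr.2.1
  have hss : ∀ i, 0 < B (s i) (s i) := fun i => hp _ (hS.rt i).2.1
  choose a b hab using fun i => rt_coef hs hr (hS.rt i)
  have ha : ∀ i, 2 * B r (s i) = a i * B (s i) (s i) := fun i => (hab i).1
  have hb : ∀ i, 2 * B r (s i) = b i * B r r := fun i => (hab i).2
  obtain ⟨p, hpdef⟩ : ∃ p : Fin k → ℤ, ∀ i, p i = a i * b i := ⟨_, fun _ => rfl⟩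
  have hp4 : ∀ i, 4 * B r (s i) ^ 2 = (p i : ℚ) * (B r r * B (s i) (s i)) := by
    intro i
    rw [hpdef i]
    push_cast
    linear_combination (2 * B r (s i)) * ha i + (a i * B (s i) (s i)) * hb i
  have hp0 : ∀ i, 0 ≤ p i := by
    intro i
    by_contra hcon
    push Not at hcon
    have h1 : (p i : ℚ) < 0 := by exact_mod_cast hcon
    have h2 : (p i : ℚ) * (B r r * B (s i) (s i)) < 0 :=
      mul_neg_of_neg_of_pos h1 (mul_pos hrr (hss i))
    rw [← hp4 i] at h2
    have h3 : 0 ≤ B r (s i) ^ 2 := sq_nonneg _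
    linarith
  have hzero : ∀ i, p i = 0 → B r (s i) = 0 := by
    intro i hi
    have h1 := hp4 i
    rw [hi] at h1
    have h2 : B r (s i) ^ 2 = 0 := by
      push_cast at h1
      linarith
    exact pow_eq_zero_iff (two_ne_zero) |>.1 h2
  have hzero' : ∀ i, B r (s i) = 0 → p i = 0 := by
    intro i hi
    have h1 := hp4 i
    rw [hi] at h1
    have h2 : (p i : ℚ) * (B r r * B (s i) (s i)) = 0 := by rw [← h1]; ring
    rcases mul_eq_zero.1 h2 with h3 | h3
    · exact_mod_cast h3
    · exact absurd h3 (mul_pos hrr (hss i)).ne'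
  have hsum : ∑ i, p i ≤ 3 := by
    have h1 : 0 < B (pr B s r) (pr B s r) := by
      apply hp
      intro h
      exact ho ((pr_zero_iff hs hp hS r).1 h)
    rw [pr_mul hs hp hS] at h1
    have h2 : ∑ i, B r (s i) * B r (s i) / B (s i) (s i) = (∑ i, (p i : ℚ)) * (B r r / 4) := by
      rw [Finset.sum_mul]
      apply Finset.sum_congr rfl
      intro i _
      have := (hss i).ne'
      field_simp
      linear_combination hp4 i
    rw [h2] at h1
    have h3 : (∑ i, (p i : ℚ)) < 4 := by
      by_contra hcon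
      push Not at hcon
      have : 4 * (B r r / 4) ≤ (∑ i, (p i : ℚ)) * (B r r / 4) :=
        mul_le_mul_of_nonneg_right hcon (by linarith)
      linarith
    have h4 : ((∑ i, p i : ℤ) : ℚ) < ((4 : ℤ) : ℚ) := by
      push_cast
      exact h3
    have h5 : ∑ i, p i < 4 := by exact_mod_cast h4
    omega
  have hsub : ∀ T : Finset (Fin k), ∑ i ∈ T, p i ≤ 3 := fun T =>
    (Finset.sum_le_sum_of_subset_of_nonneg (Finset.subset_univ T) (fun i _ _ => hp0 i)).trans hsum
  have hpair : ∀ i j, i ≠ j → p i + p j ≤ 3 := by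
    intro i j hij
    have := hsub {i, j}
    rwa [Finset.sum_pair hij] at this
  have htriple : ∀ i j l, i ≠ j → i ≠ l → j ≠ l → p i + p j + p l ≤ 3 := by
    intro i j l hij hil hjl
    have := hsub {i, j, l}
    rw [Finset.sum_insert (by simp [hij, hil]), Finset.sum_pair hjl] at this
    linarith
  have hmax : ∀ t, Rt B K t → (∀ j, B t (s j) = 0) → False := by
    intro t ht h
    obtain ⟨j, hj⟩ := hS.max t ht
    exact hj (h j)
  -- no `p i = 3`
  have hne3 : ∀ i, p i ≠ 3 := by
    intro i hi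
    have hz : ∀ j, j ≠ i → B r (s j) = 0 := by
      intro j hj
      apply hzero
      have h1 := hpair i j hj.symm
      have h2 := hp0 j
      omega
    have h4 := hp4 i
    rw [hi] at h4
    obtain ⟨t, c, ht, htd, ht0⟩ := plane3 hs hp hr (hS.rt i) (by rw [h4]; norm_num)
    apply hmax t ht
    intro j
    by_cases hj : j = i
    · rw [hj]; exact ht0
    · rw [htd, ← Int.cast_smul_eq_zsmul ℚ, ← Int.cast_smul_eq_zsmul ℚ]
      simp only [map_sub, map_smul, LinearMap.sub_apply, LinearMap.smul_apply, smul_eq_mul,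
        hz j hj, hS.ort i j (Ne.symm hj)]
      ring
  -- no `p i = 2`
  have hne2 : ∀ i, p i ≠ 2 := by
    intro i hi
    have h4 := hp4 i
    rw [hi] at h4
    obtain ⟨t, c, ht, htd, ht0, htp⟩ := plane2 hs hp hr (hS.rt i) (by rw [h4]; norm_num)
    have htj : ∀ j, j ≠ i → p j = 0 → B t (s j) = 0 := by
      intro j hj hj0
      rw [htd, ← Int.cast_smul_eq_zsmul ℚ]
      simp only [map_sub, map_smul, LinearMap.sub_apply, LinearMap.smul_apply, smul_eq_mul,
        hzero j hj0, hS.ort i j (Ne.symm hj)]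
      ring
    by_cases hex : ∃ j, j ≠ i ∧ p j ≠ 0
    · obtain ⟨j, hj, hj0⟩ := hex
      have hj1 : p j = 1 := by
        have h1 := hpair i j hj.symm
        have h2 := hp0 j
        omega
      have hl : ∀ l, l ≠ i → l ≠ j → p l = 0 := by
        intro l hli hlj
        have h1 := htriple i j l hj.symm hli.symm hlj.symm
        have h2 := hp0 l
        omega
      have h5 := htp (s j) (hS.ort i j hj.symm)
      have h6 := hp4 j
      rw [hj1] at h6
      have h7 : 4 * B t (s j) ^ 2 = 2 * (B t t * B (s j) (s j)) := by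
        apply mul_right_cancel₀ hrr.ne'
        push_cast at h6
        linear_combination 4 * h5 + (2 * B t t) * h6
      obtain ⟨t', c', ht', htd', ht0', -⟩ := plane2 hs hp ht (hS.rt j) h7
      apply hmax t' ht'
      intro l
      by_cases hlj : l = j
      · rw [hlj]; exact ht0'
      · have hBt : B t (s l) = 0 := by
          by_cases hli : l = i
          · rw [hli]; exact ht0
          · exact htj l hli (hl l hli hlj)
        rw [htd', ← Int.cast_smul_eq_zsmul ℚ]
        simp only [map_sub, map_smul, LinearMap.sub_apply, LinearMap.smul_apply, smul_eq_mul,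
          hBt, hS.ort j l (Ne.symm hlj)]
        ring
    · push Not at hex
      apply hmax t ht
      intro j
      by_cases hj : j = i
      · rw [hj]; exact ht0
      · exact htj j hj (hex j hj)
  have hle1 : ∀ i, p i = 0 ∨ p i = 1 := by
    intro i
    have h1 := hsub {i}
    rw [Finset.sum_singleton] at h1
    have h2 := hp0 i
    have h3 := hne3 i
    have h4 := hne2 i
    omega
  have hfirst : ∀ i, p i = 1 → (B r r = B (s i) (s i) ∧
      (2 * B r (s i) = B r r ∨ 2 * B r (s i) = -B r r)) := by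
    intro i hi
    have h1 : a i * b i = 1 := by rw [← hpdef i]; exact hi
    rcases Int.isUnit_iff.1 (IsUnit.of_mul_eq_one (b i) h1) with h2 | h2
    · have h3 : b i = 1 := by rw [h2] at h1; omega
      have e1 := ha i
      have e2 := hb i
      rw [h2] at e1
      rw [h3] at e2
      push_cast at e1 e2
      exact ⟨by linarith, Or.inl (by linarith)⟩
    · have h3 : b i = -1 := by rw [h2] at h1; omega
      have e1 := ha i
      have e2 := hb i
      rw [h2] at e1
      rw [h3] at e2
      push_cast at e1 e2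
      exact ⟨by linarith, Or.inr (by linarith)⟩
  refine ⟨fun i => ?_, ?_⟩
  · rcases hle1 i with h | h
    · exact Or.inl (hzero i h)
    · exact Or.inr (hfirst i h)
  · obtain ⟨T, hT⟩ : ∃ T : Finset (Fin k), T = Finset.univ.filter (fun j => B r (s j) ≠ 0) :=
      ⟨_, rfl⟩
    have hmem : ∀ j, j ∈ T ↔ B r (s j) ≠ 0 := by
      intro j
      rw [hT]
      simp
    have hp1 : ∀ j ∈ T, p j = 1 := by
      intro j hj
      rcases hle1 j with h | h
      · exact absurd (hzero j h) ((hmem j).1 hj)
      · exact h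
    have hcard : T.card ≤ 3 := by
      have h1 := hsub T
      rw [Finset.sum_congr rfl hp1] at h1
      simp at h1
      omega
    have hpos : 0 < T.card := by
      rw [Finset.card_pos]
      obtain ⟨j, hj⟩ := hS.max r hr
      exact ⟨j, (hmem j).2 hj⟩
    have hcases : T.card = 1 ∨ T.card = 2 ∨ T.card = 3 := by omega
    rcases hcases with h1 | h2 | h3
    · obtain ⟨i, hi⟩ := Finset.card_eq_one.1 h1
      left
      refine ⟨i, fun j => ?_⟩
      rw [← hmem, hi, Finset.mem_singleton]
    · obtain ⟨i, i', hne, hi⟩ := Finset.card_eq_two.1 h2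
      right
      refine ⟨i, i', hne, fun j => ?_⟩
      rw [← hmem, hi, Finset.mem_insert, Finset.mem_singleton]
    · exfalso
      obtain ⟨i, j, l, hij, hil, hjl, hi⟩ := Finset.card_eq_three.1 h3
      have hsign : ∀ i ∈ T, ∃ e : ℤ, (e = 1 ∨ e = -1) ∧ B (s i) (s i) = B r r ∧
          2 * B r (s i) = e * B r r := by
        intro i hi
        obtain ⟨e1, e2⟩ := hfirst i (hp1 i hi)
        rcases e2 with e2 | e2
        · exact ⟨1, Or.inl rfl, e1.symm, by rw [e2]; push_cast; ring⟩
        · exact ⟨-1, Or.inr rfl, e1.symm, by rw [e2]; push_cast; ring⟩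
      obtain ⟨e1, u1, n1, q1⟩ := hsign i (by rw [hi]; simp)
      obtain ⟨e2, u2, n2, q2⟩ := hsign j (by rw [hi]; simp)
      obtain ⟨e3, u3, n3, q3⟩ := hsign l (by rw [hi]; simp)
      have hroot := rootD4 hs hp hr (hS.rt i) (hS.rt j) (hS.rt l) (hS.ort i j hij)
        (hS.ort i l hil) (hS.ort j l hjl) n1 n2 n3 u1 u2 u3 q1 q2 q3
      apply hmax _ hroot
      intro m
      rw [← Int.cast_smul_eq_zsmul ℚ, ← Int.cast_smul_eq_zsmul ℚ, ← Int.cast_smul_eq_zsmul ℚ,
        ← Int.cast_smul_eq_zsmul ℚ]
      simp only [map_sub, map_smul, LinearMap.sub_apply, LinearMap.smul_apply, smul_eq_mul]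
      by_cases hm1 : m = i
      · rw [hm1, hS.ort j i hij.symm, hS.ort l i hil.symm, n1]
        push_cast
        linear_combination q1
      · by_cases hm2 : m = j
        · rw [hm2, hS.ort i j hij, hS.ort l j hjl.symm, n2]
          push_cast
          linear_combination q2
        · by_cases hm3 : m = l
          · rw [hm3, hS.ort i l hil, hS.ort j l hjl, n3]
            push_cast
            linear_combination q3
          · have h0 : B r (s m) = 0 := by
              by_contra h0
              have := (hmem m).2 h0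
              rw [hi] at this
              simp [hm1, hm2, hm3] at this
            rw [hS.ort i m (Ne.symm hm1), hS.ort j m (Ne.symm hm2), hS.ort l m (Ne.symm hm3), h0]
            ring

end RH6
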