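import Pool.Agent.RH6.R2

namespace RH6

variable {V : Type*} [AddCommGroup V] [Module ℚ V]

theorem r3_zero {B : LinearMap.BilinForm ℚ V} (hp : ∀ x, x ≠ 0 → 0 < B x x) {x : V}
    (h : B x x = 0) : x = 0 := by
  by_contra hne
  exact absurd h (hp x hne).ne'

theorem r3_nonneg {B : LinearMap.BilinForm ℚ V} (hp : ∀ x, x ≠ 0 → 0 < B x x) (x : V) :
    0 ≤ B x x := by
  by_cases h : x = 0
  · rw [h, map_zero]
  · exact (hp x h).le

theorem r3_pr_add {B : LinearMap.BilinForm ℚ V} {k : ℕ} (s : Fin k → V) (x y : V) :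
    pr B s (x + y) = pr B s x + pr B s y := by
  unfold pr
  have h : ∑ i, (B (x + y) (s i) / B (s i) (s i)) • s i =
      ∑ i, (B x (s i) / B (s i) (s i)) • s i + ∑ i, (B y (s i) / B (s i) (s i)) • s i := by
    rw [← Finset.sum_add_distrib]
    apply Finset.sum_congr rfl
    intro i _
    rw [map_add, LinearMap.add_apply, add_div, add_smul]
  rw [h]
  abel

theorem r3_pr_neg {B : LinearMap.BilinForm ℚ V} {k : ℕ} (s : Fin k → V) (x : V) :
    pr B s (-x) = -pr B s x := by
  unfold pr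
  have h : ∑ i, (B (-x) (s i) / B (s i) (s i)) • s i =
      -∑ i, (B x (s i) / B (s i) (s i)) • s i := by
    rw [← Finset.sum_neg_distrib]
    apply Finset.sum_congr rfl
    intro i _
    rw [map_neg, LinearMap.neg_apply, neg_div, neg_smul]
  rw [h]
  abel

theorem r3_pr_sub {B : LinearMap.BilinForm ℚ V} {k : ℕ} (s : Fin k → V) (x y : V) :
    pr B s (x - y) = pr B s x - pr B s y := by
  rw [sub_eq_add_neg, r3_pr_add, r3_pr_neg, sub_eq_add_neg]

theorem r3_pr_s {B : LinearMap.BilinForm ℚ V} (hs : ∀ x y, B x y = B y x)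
    (hp : ∀ x, x ≠ 0 → 0 < B x x) {K : AddSubgroup V} {k : ℕ} {s : Fin k → V} (hS : MaxO B K s)
    (i : Fin k) : pr B s (s i) = 0 :=
  (pr_zero_iff hs hp hS _).2 (Submodule.subset_span ⟨i, rfl⟩)

/-- no root is orthogonal to all `s_j` -/
theorem r3_max {B : LinearMap.BilinForm ℚ V} {K : AddSubgroup V} {k : ℕ} {s : Fin k → V}
    (hS : MaxO B K s) {t : V} (ht : Rt B K t) (h : ∀ j, B t (s j) = 0) : False := by
  obtain ⟨j, hj⟩ := hS.max t ht
  exact hj (h j)

/-- norms and products of roots outside the span -/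
theorem r3_out {B : LinearMap.BilinForm ℚ V} (hs : ∀ x y, B x y = B y x)
    (hp : ∀ x, x ≠ 0 → 0 < B x x) {K : AddSubgroup V} {k : ℕ} {s : Fin k → V} (hS : MaxO B K s)
    {r : V} (hr : Rt B K r) (hro : r ∉ Submodule.span ℚ (Set.range s)) {i : Fin k}
    (h : B r (s i) ≠ 0) : B r r = B (s i) (s i) ∧
      (2 * B r (s i) = B r r ∨ 2 * B r (s i) = -B r r) := by
  rcases (out_root hs hp hS hr hro).1 i with h1 | h1
  · exact absurd h1 h
  · exact h1

/-- `line1` with positive products -/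
theorem r3_line1 {B : LinearMap.BilinForm ℚ V} (hs : ∀ x y, B x y = B y x)
    (hp : ∀ x, x ≠ 0 → 0 < B x x) {K : AddSubgroup V} {k : ℕ} {s : Fin k → V} (hS : MaxO B K s)
    {r q : V} (hr : Rt B K r) (hq : Rt B K q) {i : Fin k} (h1 : ∀ j, j ≠ i → B r (s j) = 0)
    (h2 : ∀ j, j ≠ i → B q (s j) = 0) (nr : B r r = B (s i) (s i)) (nq : B q q = B (s i) (s i))
    (pr' : 2 * B r (s i) = B (s i) (s i)) (pq : 2 * B q (s i) = B (s i) (s i)) :
    ∃ c : ℚ, pr B s q = c • pr B s r := by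
  have hn : 0 < B (s i) (s i) := hp _ (hS.rt i).2.1
  obtain ⟨c, -, hc, -⟩ := rt_coef hs hr hq
  rw [nq] at hc
  have hqr : B q r = B r q := hs _ _
  have hsr : B (s i) r = B r (s i) := hs _ _
  have hsq : B (s i) q = B q (s i) := hs _ _
  have e1 : B (r - q) (r - q) = (2 - c) * B (s i) (s i) := by
    simp only [map_sub, LinearMap.sub_apply, hqr]
    linear_combination nr + nq - hc
  have e2 : B (r + q) (r + q) = (2 + c) * B (s i) (s i) := by
    simp only [map_add, LinearMap.add_apply, hqr]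
    linear_combination nr + nq + hc
  have c1 : c ≤ 2 := by
    by_contra hcon
    push Not at hcon
    have h3 : (2 : ℚ) < c := by exact_mod_cast hcon
    have h4 := r3_nonneg hp (r - q)
    rw [e1] at h4
    have h5 : (2 - (c : ℚ)) * B (s i) (s i) < 0 := mul_neg_of_neg_of_pos (by linarith) hn
    linarith
  have c2 : -2 ≤ c := by
    by_contra hcon
    push Not at hcon
    have h3 : (c : ℚ) < -2 := by exact_mod_cast hcon
    have h4 := r3_nonneg hp (r + q)
    rw [e2] at h4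
    have h5 : (2 + (c : ℚ)) * B (s i) (s i) < 0 := mul_neg_of_neg_of_pos (by linarith) hn
    linarith
  have hcases : c = 2 ∨ c = 1 ∨ c = 0 ∨ c = -1 ∨ c = -2 := by omega
  rcases hcases with rfl | rfl | rfl | rfl | rfl
  · have h3 : r - q = 0 := r3_zero hp (by rw [e1]; push_cast; ring)
    have h4 : r = q := sub_eq_zero.1 h3
    exact ⟨1, by rw [h4, one_smul]⟩
  · exfalso
    have h3 : Rt B K (r - q) := rt_sub hs hp hr hq (by rw [hc, nq]; push_cast; ring)
    apply r3_max hS h3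
    intro j
    by_cases hj : j = i
    · rw [hj, map_sub, LinearMap.sub_apply]
      linarith
    · rw [map_sub, LinearMap.sub_apply, h1 j hj, h2 j hj, sub_zero]
  · exfalso
    have h3 : Rt B K (r - s i) := rt_sub hs hp hr (hS.rt i) pr'
    have h4 : Rt B K (r - s i + q) := by
      apply rt_add hs hp h3 hq
      rw [map_sub, LinearMap.sub_apply, hsq, nq]
      push_cast at hc
      linarith
    apply r3_max hS h4
    intro j
    by_cases hj : j = i
    · rw [hj, map_add, LinearMap.add_apply, map_sub, LinearMap.sub_apply]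
      linarith
    · rw [map_add, LinearMap.add_apply, map_sub, LinearMap.sub_apply, h1 j hj, h2 j hj,
        hS.ort i j (Ne.symm hj)]
      ring
  · have h3 : r + q - s i = 0 := by
      apply r3_zero hp
      simp only [map_sub, map_add, LinearMap.sub_apply, LinearMap.add_apply, hqr, hsr, hsq]
      push_cast at hc
      linarith
    have h4 : q = s i - r := by
      rw [eq_sub_iff_add_eq, add_comm]
      exact sub_eq_zero.1 h3
    refine ⟨-1, ?_⟩
    rw [h4, r3_pr_sub, r3_pr_s hs hp hS, zero_sub, neg_smul, one_smul]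
  · exfalso
    have h3 : r + q = 0 := r3_zero hp (by rw [e2]; push_cast; ring)
    have h4 : q = -r := (neg_eq_of_add_eq_zero_right h3).symm
    rw [h4, map_neg, LinearMap.neg_apply] at pq
    linarith

/-- making one product positive -/
theorem r3_flip {B : LinearMap.BilinForm ℚ V} (hs : ∀ x y, B x y = B y x)
    (hp : ∀ x, x ≠ 0 → 0 < B x x) {K : AddSubgroup V} {k : ℕ} {s : Fin k → V} (hS : MaxO B K s)
    {r : V} (hr : Rt B K r) (hro : r ∉ Submodule.span ℚ (Set.range s)) {i : Fin k}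
    (h : B r (s i) ≠ 0) :
    ∃ r', Rt B K r' ∧ r' ∉ Submodule.span ℚ (Set.range s) ∧ pr B s r' = pr B s r ∧
      B r' r' = B r r ∧ 2 * B r' (s i) = B (s i) (s i) ∧ (∀ l, l ≠ i → B r' (s l) = B r (s l)) := by
  obtain ⟨h1, h2⟩ := r3_out hs hp hS hr hro h
  rcases h2 with h2 | h2
  · exact ⟨r, hr, hro, rfl, rfl, by rw [h2, h1], fun _ _ => rfl⟩
  · have h3 : 2 * B r (s i) = -B (s i) (s i) := by rw [h2, h1]
    have hpr : pr B s (r + s i) = pr B s r := by
      rw [r3_pr_add, r3_pr_s hs hp hS, add_zero]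
    refine ⟨r + s i, rt_add hs hp hr (hS.rt i) h3, ?_, hpr, ?_, ?_, ?_⟩
    · intro h4
      apply hro
      rw [← pr_zero_iff hs hp hS, ← hpr, pr_zero_iff hs hp hS]
      exact h4
    · simp only [map_add, LinearMap.add_apply, hs (s i) r]
      linarith
    · rw [map_add, LinearMap.add_apply]
      linarith
    · intro l hl
      rw [map_add, LinearMap.add_apply, hS.ort i l (Ne.symm hl), add_zero]

theorem r3_not_span_neg {k : ℕ} {s : Fin k → V} {r : V}
    (hro : r ∉ Submodule.span ℚ (Set.range s)) : -r ∉ Submodule.span ℚ (Set.range s) := by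
  intro h
  apply hro
  have := Submodule.neg_mem _ h
  rwa [neg_neg] at this

/-- a sign making the product positive -/
theorem r3_sign {B : LinearMap.BilinForm ℚ V} (hs : ∀ x y, B x y = B y x)
    (hp : ∀ x, x ≠ 0 → 0 < B x x) {K : AddSubgroup V} {k : ℕ} {s : Fin k → V} (hS : MaxO B K s)
    {r : V} (hr : Rt B K r) (hro : r ∉ Submodule.span ℚ (Set.range s)) {i : Fin k}
    (h : ∀ j, B r (s j) ≠ 0 ↔ j = i) :
    ∃ (r' : V) (e : ℚ), (e = 1 ∨ e = -1) ∧ Rt B K r' ∧ B r' r' = B (s i) (s i) ∧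
      2 * B r' (s i) = B (s i) (s i) ∧ (∀ j, j ≠ i → B r' (s j) = 0) ∧
      pr B s r' = e • pr B s r := by
  obtain ⟨h1, h2⟩ := r3_out hs hp hS hr hro ((h i).2 rfl)
  have h3 : ∀ j, j ≠ i → B r (s j) = 0 := by
    intro j hj
    by_contra hne
    exact hj ((h j).1 hne)
  rcases h2 with h2 | h2
  · exact ⟨r, 1, Or.inl rfl, hr, h1, by rw [h2, h1], h3, by rw [one_smul]⟩
  · refine ⟨-r, -1, Or.inr rfl, rt_neg hr, ?_, ?_, ?_, ?_⟩
    · rw [map_neg, map_neg, LinearMap.neg_apply, neg_neg, h1]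
    · rw [map_neg, LinearMap.neg_apply]
      linarith
    · intro j hj
      rw [map_neg, LinearMap.neg_apply, h3 j hj, neg_zero]
    · rw [r3_pr_neg, neg_smul, one_smul]

/-- Row [RH-R3]: the roots of type `{i}` lie on one line modulo the span of `s`.

Proof.  Let `s = s_i`, `n = (s,s)`.  By `out_root` `(r,r) = (q,q) = n`, `2(r,s) = ±n`, `2(q,s) = ±n`;
replacing `r`, `q` by their negatives assume `+`.  `2(r,q) = c n` with `c ∈ ℤ`, `|c| ≤ 2`.
`c = 2`: `(r-q,r-q) = 0`, `r = q`.  `c = 1`: `r - q` is a root (`rt_sub`) orthogonal to all `s_j`,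
contradiction to maximality.  `c = 0`: `r - s` is a root, `2(r - s, q) = -n`, so `r - s + q` is a
root, and `(r - s + q, s) = n/2 - n + n/2 = 0`, contradiction.  `c = -1`: `(r+q,r+q) = n`,
`(r+q,s) = n`, so `(r+q-s,r+q-s) = 0`, `r + q = s`, `pr q = -pr r`.  `c = -2`: `q = -r`,
contradiction to `2(q,s) = n`. -/
theorem line1 {B : LinearMap.BilinForm ℚ V} (hs : ∀ x y, B x y = B y x)
    (hp : ∀ x, x ≠ 0 → 0 < B x x) {K : AddSubgroup V} {k : ℕ} {s : Fin k → V} (hS : MaxO B K s)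
    {r q : V} (hr : Rt B K r) (hro : r ∉ Submodule.span ℚ (Set.range s)) (hq : Rt B K q)
    (hqo : q ∉ Submodule.span ℚ (Set.range s)) {i : Fin k} (h1 : ∀ j, B r (s j) ≠ 0 ↔ j = i)
    (h2 : ∀ j, B q (s j) ≠ 0 ↔ j = i) : ∃ c : ℚ, pr B s q = c • pr B s r := by
  obtain ⟨r', e, he, hr', a1, a2, a3, a4⟩ := r3_sign hs hp hS hr hro h1
  obtain ⟨q', f, hf, hq', b1, b2, b3, b4⟩ := r3_sign hs hp hS hq hqo h2
  obtain ⟨c, hc⟩ := r3_line1 hs hp hS hr' hq' a3 b3 a1 b1 a2 b2
  rw [a4, b4] at hc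
  have hff : f * f = 1 := by rcases hf with rfl | rfl <;> norm_num
  refine ⟨f * (c * e), ?_⟩
  rw [mul_smul, mul_smul, ← hc, smul_smul, hff, one_smul]

/-- Row [RH-R3]: normalisation of roots of type `{i,j}`: adding `s_i` and/or `s_j` (`rt_add`) we can
make both products positive -/
theorem norm2 {B : LinearMap.BilinForm ℚ V} (hs : ∀ x y, B x y = B y x)
    (hp : ∀ x, x ≠ 0 → 0 < B x x) {K : AddSubgroup V} {k : ℕ} {s : Fin k → V} (hS : MaxO B K s)
    {r : V} (hr : Rt B K r) (hro : r ∉ Submodule.span ℚ (Set.range s)) {i j : Fin k} (hij : i ≠ j)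
    (h1 : ∀ l, B r (s l) ≠ 0 ↔ l = i ∨ l = j) :
    ∃ r', Rt B K r' ∧ r' ∉ Submodule.span ℚ (Set.range s) ∧
      (∀ l, B r' (s l) ≠ 0 ↔ l = i ∨ l = j) ∧ pr B s r' = pr B s r ∧
      B r' r' = B (s i) (s i) ∧ B r' r' = B (s j) (s j) ∧ 2 * B r' (s i) = B r' r' ∧
      2 * B r' (s j) = B r' r' := by
  have hi := r3_out hs hp hS hr hro ((h1 i).2 (Or.inl rfl))
  have hj := r3_out hs hp hS hr hro ((h1 j).2 (Or.inr rfl))
  obtain ⟨r1, a1, a2, a3, a4, a5, a6⟩ := r3_flip hs hp hS hr hro ((h1 i).2 (Or.inl rfl))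
  have hne : B r1 (s j) ≠ 0 := by
    rw [a6 j hij.symm]
    exact (h1 j).2 (Or.inr rfl)
  obtain ⟨r2, b1, b2, b3, b4, b5, b6⟩ := r3_flip hs hp hS a1 a2 hne
  have e1 : B r2 r2 = B (s i) (s i) := by rw [b4, a4, hi.1]
  have e2 : B r2 r2 = B (s j) (s j) := by rw [b4, a4, hj.1]
  have e3 : 2 * B r2 (s i) = B r2 r2 := by rw [b6 i hij, a5, e1]
  have e4 : 2 * B r2 (s j) = B r2 r2 := by rw [b5, e2]
  have hpos : 0 < B r2 r2 := hp _ b1.2.1
  refine ⟨r2, b1, b2, fun l => ?_, by rw [b3, a3], e1, e2, e3, e4⟩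
  by_cases hli : l = i
  · rw [hli]
    refine ⟨fun _ => Or.inl rfl, fun _ h => ?_⟩
    rw [h] at e3
    linarith
  · by_cases hlj : l = j
    · rw [hlj]
      refine ⟨fun _ => Or.inr rfl, fun _ h => ?_⟩
      rw [h] at e4
      linarith
    · rw [b6 l hlj, a6 l hli]
      exact h1 l

/-- Row [RH-R3]: the roots of type `{i,j}` lie on one line modulo the span of `s`.

Proof.  Normalise by `norm2`; all norms are `n`, `pr r = r - (s_i+s_j)/2` has norm `n/2` and
`(pr r, pr q) = (r,q) - n/2`.  `2(r,q) = c n`, `|c| ≤ 2`.  `c = 2`: `r = q`.  `c = 1`: `r - q` is a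
root orthogonal to all `s_l`, contradiction.  `c ≤ 0`: `(pr r + pr q, pr r + pr q) = c n ≤ 0`, so
`c = 0` and `pr q = -pr r`. -/
theorem line2 {B : LinearMap.BilinForm ℚ V} (hs : ∀ x y, B x y = B y x)
    (hp : ∀ x, x ≠ 0 → 0 < B x x) {K : AddSubgroup V} {k : ℕ} {s : Fin k → V} (hS : MaxO B K s)
    {r q : V} (hr : Rt B K r) (hro : r ∉ Submodule.span ℚ (Set.range s)) (hq : Rt B K q)
    (hqo : q ∉ Submodule.span ℚ (Set.range s)) {i j : Fin k} (hij : i ≠ j)
    (h1 : ∀ l, B r (s l) ≠ 0 ↔ l = i ∨ l = j) (h2 : ∀ l, B q (s l) ≠ 0 ↔ l = i ∨ l = j) :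
    ∃ c : ℚ, pr B s q = c • pr B s r := by
  obtain ⟨r', a1, a2, a3, a4, a5, a6, a7, a8⟩ := norm2 hs hp hS hr hro hij h1
  obtain ⟨q', b1, b2, b3, b4, b5, b6, b7, b8⟩ := norm2 hs hp hS hq hqo hij h2
  rw [← a4, ← b4]
  have hn : 0 < B (s i) (s i) := hp _ (hS.rt i).2.1
  have hsj : B (s j) (s j) = B (s i) (s i) := by rw [← a6, a5]
  obtain ⟨c, -, hc, -⟩ := rt_coef hs a1 b1
  rw [a5] at a7 a8
  rw [b5] at b7 b8 hc
  have hqr : B q' r' = B r' q' := hs _ _
  have zr : ∀ l, l ≠ i → l ≠ j → B r' (s l) = 0 := by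
    intro l hli hlj
    by_contra hne
    rcases (a3 l).1 hne with h | h
    · exact hli h
    · exact hlj h
  have zq : ∀ l, l ≠ i → l ≠ j → B q' (s l) = 0 := by
    intro l hli hlj
    by_contra hne
    rcases (b3 l).1 hne with h | h
    · exact hli h
    · exact hlj h
  have e1 : B (r' - q') (r' - q') = (2 - c) * B (s i) (s i) := by
    simp only [map_sub, LinearMap.sub_apply, hqr]
    linear_combination a5 + b5 - hc
  -- products of the projections
  have hsum : ∀ x y, (∀ l, l ≠ i → l ≠ j → B x (s l) = 0) →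
      2 * B x (s i) = B (s i) (s i) → 2 * B x (s j) = B (s i) (s i) →
      2 * B y (s i) = B (s i) (s i) → 2 * B y (s j) = B (s i) (s i) →
      B (pr B s x) (pr B s y) = B x y - B (s i) (s i) / 2 := by
    intro x y hx x1 x2 y1 y2
    rw [pr_mul hs hp hS, Finset.sum_eq_add i j hij, hsj]
    · have x1' : B x (s i) = B (s i) (s i) / 2 := by linarith
      have x2' : B x (s j) = B (s i) (s i) / 2 := by linarith
      have y1' : B y (s i) = B (s i) (s i) / 2 := by linarith
      have y2' : B y (s j) = B (s i) (s i) / 2 := by linarith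
      rw [x1', x2', y1', y2']
      field_simp
      ring
    · intro l _ hl
      rw [hx l hl.1 hl.2]
      simp
    · intro h
      exact absurd (Finset.mem_univ _) h
    · intro h
      exact absurd (Finset.mem_univ _) h
  have c1 : c ≤ 2 := by
    by_contra hcon
    push Not at hcon
    have h3 : (2 : ℚ) < c := by exact_mod_cast hcon
    have h4 := r3_nonneg hp (r' - q')
    rw [e1] at h4
    have h5 : (2 - (c : ℚ)) * B (s i) (s i) < 0 := mul_neg_of_neg_of_pos (by linarith) hn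
    linarith
  have hcases : c = 2 ∨ c = 1 ∨ c ≤ 0 := by omega
  rcases hcases with rfl | rfl | hc0
  · have h3 : r' - q' = 0 := r3_zero hp (by rw [e1]; push_cast; ring)
    have h4 : r' = q' := sub_eq_zero.1 h3
    exact ⟨1, by rw [h4, one_smul]⟩
  · exfalso
    have h3 : Rt B K (r' - q') := rt_sub hs hp a1 b1 (by rw [hc, b5]; push_cast; ring)
    apply r3_max hS h3
    intro l
    rw [map_sub, LinearMap.sub_apply]
    by_cases hli : l = i
    · rw [hli]
      linarith
    · by_cases hlj : l = j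
      · rw [hlj]
        linarith
      · rw [zr l hli hlj, zq l hli hlj, sub_zero]
  · have h3 : B (pr B s r' + pr B s q') (pr B s r' + pr B s q') = c * B (s i) (s i) := by
      simp only [map_add, LinearMap.add_apply]
      rw [hsum r' r' zr a7 a8 a7 a8, hsum r' q' zr a7 a8 b7 b8, hsum q' r' zq b7 b8 a7 a8,
        hsum q' q' zq b7 b8 b7 b8, hqr]
      linear_combination a5 + b5 + hc
    have h4 : (c : ℚ) * B (s i) (s i) ≤ 0 :=
      mul_nonpos_of_nonpos_of_nonneg (by exact_mod_cast hc0) hn.le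
    have h5 := r3_nonneg hp (pr B s r' + pr B s q')
    have h6 : pr B s r' + pr B s q' = 0 := r3_zero hp (by rw [h3] at h5 ⊢; linarith)
    refine ⟨-1, ?_⟩
    rw [neg_smul, one_smul]
    exact (neg_eq_of_add_eq_zero_right h6).symm

/-- Row [RH-R3]: from roots `r` of type `{i}` and `q` of type `{i,j}` one gets a root of type `{j}`.

Proof.  By `out_root` all norms are `n`.  Replace `q` by a normalised root (`norm2`) and then by its
negative: `2(q,s_i) = 2(q,s_j) = -n`; and `2(r,s_i) = n` (replace `r` by `-r`).  `2(r,q) = c n`,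
`q + s_i` is a root with `2(r,q+s_i) = (c+1) n`.  Neither is `±r` (the types differ), so
`c, c+1 ∈ {-1,0,1}`.  `c = -1`: `t = r + q` is a root, `(t,s_i) = 0`, `2(t,s_j) = -n`.  `c = 0`:
`t = r - (q + s_i)` is a root, `2(t,s_i) = n - (-n + 2n) = 0`, `2(t,s_j) = n`. -/
theorem single_of_double {B : LinearMap.BilinForm ℚ V} (hs : ∀ x y, B x y = B y x)
    (hp : ∀ x, x ≠ 0 → 0 < B x x) {K : AddSubgroup V} {k : ℕ} {s : Fin k → V} (hS : MaxO B K s)
    {r q : V} (hr : Rt B K r) (hro : r ∉ Submodule.span ℚ (Set.range s)) (hq : Rt B K q)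
    (hqo : q ∉ Submodule.span ℚ (Set.range s)) {i j : Fin k} (hij : i ≠ j)
    (h1 : ∀ l, B r (s l) ≠ 0 ↔ l = i) (h2 : ∀ l, B q (s l) ≠ 0 ↔ l = i ∨ l = j) :
    ∃ t e e', Rt B K t ∧ (∀ l, B t (s l) ≠ 0 ↔ l = j) ∧ (e = (1 : ℚ) ∨ e = -1) ∧
      (e' = (1 : ℚ) ∨ e' = -1) ∧ pr B s t = e • pr B s r + e' • pr B s q := by
  obtain ⟨r1, e, he, hr1, a1, a2, a3, a4⟩ := r3_sign hs hp hS hr hro h1
  obtain ⟨q1, b1, b2, b3, b4, b5, b6, b7, b8⟩ := norm2 hs hp hS hq hqo hij h2
  have hn : 0 < B (s i) (s i) := hp _ (hS.rt i).2.1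
  have hq2 : Rt B K (-q1) := rt_neg b1
  obtain ⟨q2, hq2d⟩ : ∃ q2, q2 = -q1 := ⟨_, rfl⟩
  rw [← hq2d] at hq2
  have n2 : B q2 q2 = B (s i) (s i) := by
    rw [hq2d, map_neg, map_neg, LinearMap.neg_apply, neg_neg, b5]
  have p1 : 2 * B q2 (s i) = -B (s i) (s i) := by
    rw [hq2d, map_neg, LinearMap.neg_apply]
    linarith
  have p2 : 2 * B q2 (s j) = -B (s i) (s i) := by
    rw [hq2d, map_neg, LinearMap.neg_apply]
    linarith
  have p3 : ∀ l, l ≠ i → l ≠ j → B q2 (s l) = 0 := by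
    intro l hli hlj
    rw [hq2d, map_neg, LinearMap.neg_apply]
    by_contra hne
    have h3 : B q1 (s l) ≠ 0 := by
      intro h4
      exact hne (by rw [h4, neg_zero])
    rcases (b3 l).1 h3 with h | h
    · exact hli h
    · exact hlj h
  have p4 : pr B s q2 = -pr B s q := by rw [hq2d, r3_pr_neg, b4]
  have hrj : B r1 (s j) = 0 := a3 j hij.symm
  obtain ⟨c, -, hc, -⟩ := rt_coef hs hr1 hq2
  rw [n2] at hc
  have hqr : B q2 r1 = B r1 q2 := hs _ _
  have hsr : B (s i) r1 = B r1 (s i) := hs _ _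
  have hsq : B (s i) q2 = B q2 (s i) := hs _ _
  have e1 : B (r1 - q2) (r1 - q2) = (2 - c) * B (s i) (s i) := by
    simp only [map_sub, LinearMap.sub_apply, hqr]
    linear_combination a1 + n2 - hc
  have e2 : B (r1 + q2) (r1 + q2) = (2 + c) * B (s i) (s i) := by
    simp only [map_add, LinearMap.add_apply, hqr]
    linear_combination a1 + n2 + hc
  have e3 : B (r1 - (q2 + s i)) (r1 - (q2 + s i)) = (1 - c) * B (s i) (s i) := by
    simp only [map_sub, map_add, LinearMap.sub_apply, LinearMap.add_apply, hqr, hsr, hsq]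
    linear_combination a1 + n2 - hc - a2 + p1
  have c1 : c < 1 := by
    by_contra hcon
    push Not at hcon
    have h3 : (1 : ℚ) ≤ c := by exact_mod_cast hcon
    have h4 := r3_nonneg hp (r1 - (q2 + s i))
    have h5 : (1 - (c : ℚ)) * B (s i) (s i) ≤ 0 :=
      mul_nonpos_of_nonpos_of_nonneg (by linarith) hn.le
    have h6 : r1 - (q2 + s i) = 0 := r3_zero hp (by rw [e3] at h4 ⊢; linarith)
    have h7 : r1 = q2 + s i := sub_eq_zero.1 h6
    rw [h7, map_add, LinearMap.add_apply, hS.ort i j hij] at hrj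
    linarith
  have c2 : -2 < c := by
    by_contra hcon
    push Not at hcon
    have h3 : (c : ℚ) ≤ -2 := by exact_mod_cast hcon
    have h4 := r3_nonneg hp (r1 + q2)
    have h5 : (2 + (c : ℚ)) * B (s i) (s i) ≤ 0 :=
      mul_nonpos_of_nonpos_of_nonneg (by linarith) hn.le
    have h6 : r1 + q2 = 0 := r3_zero hp (by rw [e2] at h4 ⊢; linarith)
    have h7 : r1 = -q2 := eq_neg_of_add_eq_zero_left h6
    rw [h7, map_neg, LinearMap.neg_apply] at hrj
    linarith
  have hcases : c = -1 ∨ c = 0 := by omega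
  rcases hcases with rfl | rfl
  · have ht : Rt B K (r1 + q2) := rt_add hs hp hr1 hq2 (by rw [hc, n2]; push_cast; ring)
    refine ⟨r1 + q2, e, -1, ht, fun l => ?_, he, Or.inr rfl, ?_⟩
    · rw [map_add, LinearMap.add_apply]
      by_cases hlj : l = j
      · rw [hlj, hrj, zero_add]
        refine ⟨fun _ => rfl, fun _ h => ?_⟩
        rw [h] at p2
        linarith
      · refine ⟨fun h => absurd ?_ h, fun h => absurd h hlj⟩
        by_cases hli : l = i
        · rw [hli]
          linarith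
        · rw [a3 l hli, p3 l hli hlj, add_zero]
    · rw [r3_pr_add, a4, p4, neg_smul, one_smul]
  · have hqs : Rt B K (q2 + s i) := rt_add hs hp hq2 (hS.rt i) p1
    have ht : Rt B K (r1 - (q2 + s i)) := by
      apply rt_sub hs hp hr1 hqs
      simp only [map_add, LinearMap.add_apply, hsq]
      push_cast at hc
      linarith
    refine ⟨r1 - (q2 + s i), e, 1, ht, fun l => ?_, he, Or.inl rfl, ?_⟩
    · rw [map_sub, LinearMap.sub_apply, map_add, LinearMap.add_apply]
      by_cases hlj : l = j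
      · rw [hlj, hrj, hS.ort i j hij, add_zero, zero_sub]
        refine ⟨fun _ => rfl, fun _ h => ?_⟩
        rw [neg_eq_zero] at h
        rw [h] at p2
        linarith
      · refine ⟨fun h => absurd ?_ h, fun h => absurd h hlj⟩
        by_cases hli : l = i
        · rw [hli]
          linarith
        · rw [a3 l hli, p3 l hli hlj, hS.ort i l (Ne.symm hli)]
          ring
    · rw [r3_pr_sub, r3_pr_add, r3_pr_s hs hp hS, a4, p4, add_zero, sub_neg_eq_add, one_smul]

end RH6
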