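import Pool.Agent.RH6.R3
import Pool.Agent.RH6.B1b

namespace RH6

variable {V : Type*} [AddCommGroup V] [Module ℚ V] [FiniteDimensional ℚ V]

/-- fewer than 5 vectors have a common nonzero orthogonal vector -/
theorem r4_exists_orth {B : LinearMap.BilinForm ℚ V} {K : AddSubgroup V} (hK : K5 B K)
    {m : ℕ} (hm : m < 5) (w : Fin m → V) : ∃ u : V, u ≠ 0 ∧ ∀ i, B u (w i) = 0 := by
  let f : V →ₗ[ℚ] (Fin m → ℚ) := LinearMap.pi fun i => LinearMap.flip B (w i)
  have h1 : LinearMap.ker f ≠ ⊥ := by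
    apply LinearMap.ker_ne_bot_of_finrank_lt
    rw [hK.dim, Module.finrank_fintype_fun_eq_card, Fintype.card_fin]
    exact hm
  obtain ⟨u, hu, hu0⟩ := Submodule.exists_mem_ne_zero_of_ne_bot h1
  refine ⟨u, hu0, fun i => ?_⟩
  have h2 := congrFun (LinearMap.mem_ker.1 hu) i
  exact h2

/-- Row [RH-R4]: if all roots lie in the span of fewer than 5 vectors, they do not span: `V` has
dimension 5, so there is `u ≠ 0` orthogonal to these vectors. -/
theorem not_rspan {B : LinearMap.BilinForm ℚ V} {K : AddSubgroup V} (hK : K5 B K)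
    (hR : RSpan B K) {m : ℕ} (hm : m < 5) (w : Fin m → V)
    (h : ∀ r, Rt B K r → r ∈ Submodule.span ℚ (Set.range w)) : False := by
  obtain ⟨u, hu, h1⟩ := r4_exists_orth hK hm w
  apply hu
  apply hR
  intro r hr
  have h2 : Submodule.span ℚ (Set.range w) ≤ LinearMap.ker (B u) := by
    rw [Submodule.span_le]
    rintro _ ⟨i, rfl⟩
    exact h1 i
  exact h2 (h r hr)

theorem exists_root {B : LinearMap.BilinForm ℚ V} {K : AddSubgroup V} (hK : K5 B K)
    (hR : RSpan B K) : ∃ r, Rt B K r := by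
  by_contra h
  push Not at h
  exact not_rspan hK hR (m := 0) (by norm_num) Fin.elim0 (fun r hr => absurd hr (h r))

/-- `r` and `pr r` differ by an element of the span -/
theorem r4_sub_pr (B : LinearMap.BilinForm ℚ V) {k : ℕ} (s : Fin k → V) (r : V) :
    r - pr B s r ∈ Submodule.span ℚ (Set.range s) := by
  have : r - pr B s r = ∑ i, (B r (s i) / B (s i) (s i)) • s i := by
    unfold pr
    abel
  rw [this]
  exact Submodule.sum_mem _ fun i _ =>
    Submodule.smul_mem _ _ (Submodule.subset_span ⟨i, rfl⟩)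

/-- a vector whose projection lies in a subspace that contains the `s_i` lies in it -/
theorem r4_mem {B : LinearMap.BilinForm ℚ V} {k : ℕ} {s : Fin k → V} {W : Submodule ℚ V}
    (hW : ∀ i, s i ∈ W) (q : V) : q ∈ W ↔ pr B s q ∈ W := by
  have h0 : Submodule.span ℚ (Set.range s) ≤ W := by
    rw [Submodule.span_le]
    rintro _ ⟨i, rfl⟩
    exact hW i
  have h1 := h0 (r4_sub_pr B s q)
  constructor
  · intro h
    have := W.sub_mem h h1
    rwa [sub_sub_cancel] at this
  · intro h
    have := W.add_mem h1 h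
    rwa [sub_add_cancel] at this

/-- Row [RH-R4]: one root can be extended to two orthogonal ones.  Otherwise `![s1]` is maximal; all
roots outside `ℚ s1` are of the same type and by `line1` all roots lie in the span of `s1` and one
further root. -/
theorem ext1 {B : LinearMap.BilinForm ℚ V} {K : AddSubgroup V} (hK : K5 B K)
    (hR : RSpan B K) {s1 : V} (h1 : Rt B K s1) : ∃ s2, Rt B K s2 ∧ B s1 s2 = 0 := by
  by_contra hcon
  push Not at hcon
  have hS : MaxO B K ![s1] := by
    refine ⟨fun i => ?_, fun i j hij => absurd (Subsingleton.elim i j) hij, fun r hr => ⟨0, ?_⟩⟩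
    · rw [Subsingleton.elim i 0]
      exact h1
    · rw [hK.symm]
      exact hcon r hr
  have hty : ∀ r, Rt B K r → ∀ j, B r (![s1] j) ≠ 0 ↔ j = 0 := by
    intro r hr j
    have hj : j = 0 := Subsingleton.elim _ _
    subst hj
    simp only [iff_true]
    rw [hK.symm]
    exact hcon r hr
  by_cases hout : ∃ r0, Rt B K r0 ∧ r0 ∉ Submodule.span ℚ (Set.range ![s1])
  · obtain ⟨r0, hr0, ho⟩ := hout
    refine not_rspan hK hR (m := 2) (by norm_num) ![s1, r0] ?_
    intro q hq
    have hs1 : s1 ∈ Submodule.span ℚ (Set.range ![s1, r0]) := Submodule.subset_span ⟨0, rfl⟩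
    have hr1 : r0 ∈ Submodule.span ℚ (Set.range ![s1, r0]) := Submodule.subset_span ⟨1, rfl⟩
    have hW : ∀ i, ![s1] i ∈ Submodule.span ℚ (Set.range ![s1, r0]) := by
      intro i
      rw [Subsingleton.elim i 0]
      exact hs1
    rw [r4_mem (B := B) hW]
    by_cases hqo : q ∈ Submodule.span ℚ (Set.range ![s1])
    · rw [(pr_zero_iff hK.symm hK.pos hS q).2 hqo]
      exact Submodule.zero_mem _
    · obtain ⟨c, hc⟩ := line1 hK.symm hK.pos hS hr0 ho hq hqo (hty r0 hr0) (hty q hq)
      rw [hc]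
      exact Submodule.smul_mem _ _ ((r4_mem (B := B) hW r0).1 hr1)
  · push Not at hout
    exact not_rspan hK hR (m := 1) (by norm_num) ![s1] hout

/-- Row [RH-R4]: two orthogonal roots can be extended to three.

Otherwise `![s1,s2]` is maximal and the roots outside the span are of the types `{1}`, `{2}`,
`{1,2}`.  If one of the types does not occur, then by `line1`, `line2` all roots lie in the span of
`s1, s2` and two further roots.  If there are `r` of type `{1}` and `q` of type `{1,2}`, then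
`single_of_double` gives a root `t` of type `{2}` with `pr t = ± pr r ± pr q`; if `pr t = 0`, then
`pr q = ± pr r`, and all roots are in the span of `s1, s2, r` and one root of type `{2}`; otherwise
every root of type `{2}` has its projection proportional to `pr t`, and all roots are in the span
of `s1, s2, r, q`. -/
theorem ext2 {B : LinearMap.BilinForm ℚ V} {K : AddSubgroup V} (hK : K5 B K)
    (hR : RSpan B K) {s1 s2 : V} (h1 : Rt B K s1) (h2 : Rt B K s2) (h12 : B s1 s2 = 0) :
    ∃ s3, Rt B K s3 ∧ B s1 s3 = 0 ∧ B s2 s3 = 0 := by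
  by_contra hcon
  push Not at hcon
  have h21 : B s2 s1 = 0 := by rw [hK.symm]; exact h12
  have hS : MaxO B K ![s1, s2] := by
    refine ⟨?_, ?_, ?_⟩
    · intro i
      fin_cases i
      · exact h1
      · exact h2
    · intro i j hij
      fin_cases i <;> fin_cases j
      · exact absurd rfl hij
      · exact h12
      · exact h21
      · exact absurd rfl hij
    · intro r hr
      by_cases hz : B s1 r = 0
      · refine ⟨1, ?_⟩
        show B r s2 ≠ 0
        rw [hK.symm]
        exact hcon r hr hz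
      · refine ⟨0, ?_⟩
        show B r s1 ≠ 0
        rw [hK.symm]
        exact hz
  set W0 := Submodule.span ℚ (Set.range ![s1, s2]) with hW0
  -- the three types
  have hty : ∀ r, Rt B K r → r ∉ W0 → (∀ l, B r (![s1, s2] l) ≠ 0 ↔ l = 0) ∨
      (∀ l, B r (![s1, s2] l) ≠ 0 ↔ l = 1) ∨ (∀ l, B r (![s1, s2] l) ≠ 0 ↔ l = 0 ∨ l = 1) := by
    intro r hr ho
    rcases (out_root hK.symm hK.pos hS hr ho).2 with ⟨i, hi⟩ | ⟨i, i', hii, hi⟩
    · rcases i with ⟨i, hi2⟩
      interval_cases i
      · exact Or.inl hi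
      · exact Or.inr (Or.inl hi)
    · refine Or.inr (Or.inr fun l => (hi l).trans ?_)
      revert hii
      fin_cases i <;> fin_cases i' <;> fin_cases l <;> simp
  -- a criterion
  have key : ∀ a b : V, (∀ q, Rt B K q → q ∉ W0 →
      pr B ![s1, s2] q ∈ Submodule.span ℚ {pr B ![s1, s2] a, pr B ![s1, s2] b}) → False := by
    intro a b hab
    refine not_rspan hK hR (m := 4) (by norm_num) ![s1, s2, a, b] ?_
    intro q hq
    have hs1 : s1 ∈ Submodule.span ℚ (Set.range ![s1, s2, a, b]) := Submodule.subset_span ⟨0, rfl⟩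
    have hs2 : s2 ∈ Submodule.span ℚ (Set.range ![s1, s2, a, b]) := Submodule.subset_span ⟨1, rfl⟩
    have ha : a ∈ Submodule.span ℚ (Set.range ![s1, s2, a, b]) := Submodule.subset_span ⟨2, rfl⟩
    have hb : b ∈ Submodule.span ℚ (Set.range ![s1, s2, a, b]) := Submodule.subset_span ⟨3, rfl⟩
    have hW : ∀ i, ![s1, s2] i ∈ Submodule.span ℚ (Set.range ![s1, s2, a, b]) := by
      intro i
      fin_cases i
      · exact hs1
      · exact hs2
    rw [r4_mem (B := B) hW]
    by_cases hqo : q ∈ W0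
    · rw [(pr_zero_iff hK.symm hK.pos hS q).2 hqo]
      exact Submodule.zero_mem _
    · refine (Submodule.span_le.2 ?_) (hab q hq hqo)
      rintro x (rfl | rfl)
      · exact (r4_mem (B := B) hW a).1 ha
      · exact (r4_mem (B := B) hW b).1 hb
  have hl : ∀ x y : V, x ∈ Submodule.span ℚ ({x, y} : Set V) := fun x y =>
    Submodule.subset_span (Or.inl rfl)
  have hr' : ∀ x y : V, y ∈ Submodule.span ℚ ({x, y} : Set V) := fun x y =>
    Submodule.subset_span (Or.inr rfl)
  have h01 : (0 : Fin 2) ≠ 1 := by decide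
  by_cases hA : ∃ r, Rt B K r ∧ r ∉ W0 ∧ ∀ l, B r (![s1, s2] l) ≠ 0 ↔ l = 0
  swap
  · -- no root of the first type
    by_cases hB : ∃ r, Rt B K r ∧ r ∉ W0 ∧ ∀ l, B r (![s1, s2] l) ≠ 0 ↔ l = 1
    · obtain ⟨r, hr, hro, hrt⟩ := hB
      by_cases hC : ∃ q, Rt B K q ∧ q ∉ W0 ∧ ∀ l, B q (![s1, s2] l) ≠ 0 ↔ l = 0 ∨ l = 1
      · obtain ⟨q, hq, hqo, hqt⟩ := hC
        refine key r q fun x hx hxo => ?_
        rcases hty x hx hxo with h | h | h
        · exact absurd ⟨x, hx, hxo, h⟩ hA
        · obtain ⟨c, hc⟩ := line1 hK.symm hK.pos hS hr hro hx hxo hrt h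
          rw [hc]
          exact Submodule.smul_mem _ _ (hl _ _)
        · obtain ⟨c, hc⟩ := line2 hK.symm hK.pos hS hq hqo hx hxo h01 hqt h
          rw [hc]
          exact Submodule.smul_mem _ _ (hr' _ _)
      · refine key r 0 fun x hx hxo => ?_
        rcases hty x hx hxo with h | h | h
        · exact absurd ⟨x, hx, hxo, h⟩ hA
        · obtain ⟨c, hc⟩ := line1 hK.symm hK.pos hS hr hro hx hxo hrt h
          rw [hc]
          exact Submodule.smul_mem _ _ (hl _ _)
        · exact absurd ⟨x, hx, hxo, h⟩ hC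
    · by_cases hC : ∃ q, Rt B K q ∧ q ∉ W0 ∧ ∀ l, B q (![s1, s2] l) ≠ 0 ↔ l = 0 ∨ l = 1
      · obtain ⟨q, hq, hqo, hqt⟩ := hC
        refine key q 0 fun x hx hxo => ?_
        rcases hty x hx hxo with h | h | h
        · exact absurd ⟨x, hx, hxo, h⟩ hA
        · exact absurd ⟨x, hx, hxo, h⟩ hB
        · obtain ⟨c, hc⟩ := line2 hK.symm hK.pos hS hq hqo hx hxo h01 hqt h
          rw [hc]
          exact Submodule.smul_mem _ _ (hl _ _)
      · refine key 0 0 fun x hx hxo => ?_
        rcases hty x hx hxo with h | h | h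
        · exact absurd ⟨x, hx, hxo, h⟩ hA
        · exact absurd ⟨x, hx, hxo, h⟩ hB
        · exact absurd ⟨x, hx, hxo, h⟩ hC
  obtain ⟨r, hr, hro, hrt⟩ := hA
  by_cases hC : ∃ q, Rt B K q ∧ q ∉ W0 ∧ ∀ l, B q (![s1, s2] l) ≠ 0 ↔ l = 0 ∨ l = 1
  swap
  · by_cases hB : ∃ r, Rt B K r ∧ r ∉ W0 ∧ ∀ l, B r (![s1, s2] l) ≠ 0 ↔ l = 1
    · obtain ⟨r2, hr2, hro2, hrt2⟩ := hB
      refine key r r2 fun x hx hxo => ?_
      rcases hty x hx hxo with h | h | h
      · obtain ⟨c, hc⟩ := line1 hK.symm hK.pos hS hr hro hx hxo hrt h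
        rw [hc]
        exact Submodule.smul_mem _ _ (hl _ _)
      · obtain ⟨c, hc⟩ := line1 hK.symm hK.pos hS hr2 hro2 hx hxo hrt2 h
        rw [hc]
        exact Submodule.smul_mem _ _ (hr' _ _)
      · exact absurd ⟨x, hx, hxo, h⟩ hC
    · refine key r 0 fun x hx hxo => ?_
      rcases hty x hx hxo with h | h | h
      · obtain ⟨c, hc⟩ := line1 hK.symm hK.pos hS hr hro hx hxo hrt h
        rw [hc]
        exact Submodule.smul_mem _ _ (hl _ _)
      · exact absurd ⟨x, hx, hxo, h⟩ hB
      · exact absurd ⟨x, hx, hxo, h⟩ hC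
  obtain ⟨q, hq, hqo, hqt⟩ := hC
  obtain ⟨t, e, e', ht, htt, he, he', hpt⟩ :=
    single_of_double hK.symm hK.pos hS hr hro hq hqo h01 hrt hqt
  have he0 : e ≠ 0 := by rcases he with rfl | rfl <;> norm_num
  have he0' : e' ≠ 0 := by rcases he' with rfl | rfl <;> norm_num
  by_cases hto : t ∈ W0
  · have hz : pr B ![s1, s2] t = 0 := (pr_zero_iff hK.symm hK.pos hS t).2 hto
    have hqr : pr B ![s1, s2] q = (-e / e') • pr B ![s1, s2] r := by
      rw [hz] at hpt
      have h3 : e' • pr B ![s1, s2] q = -(e • pr B ![s1, s2] r) := by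
        rw [eq_neg_iff_add_eq_zero, add_comm]
        exact hpt.symm
      have h4 : pr B ![s1, s2] q = e'⁻¹ • (e' • pr B ![s1, s2] q) := by
        rw [smul_smul, inv_mul_cancel₀ he0', one_smul]
      rw [h4, h3, smul_neg, smul_smul, ← neg_smul]
      congr 1
      field_simp
    by_cases hB : ∃ r, Rt B K r ∧ r ∉ W0 ∧ ∀ l, B r (![s1, s2] l) ≠ 0 ↔ l = 1
    · obtain ⟨r2, hr2, hro2, hrt2⟩ := hB
      refine key r r2 fun x hx hxo => ?_
      rcases hty x hx hxo with h | h | h
      · obtain ⟨c, hc⟩ := line1 hK.symm hK.pos hS hr hro hx hxo hrt h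
        rw [hc]
        exact Submodule.smul_mem _ _ (hl _ _)
      · obtain ⟨c, hc⟩ := line1 hK.symm hK.pos hS hr2 hro2 hx hxo hrt2 h
        rw [hc]
        exact Submodule.smul_mem _ _ (hr' _ _)
      · obtain ⟨c, hc⟩ := line2 hK.symm hK.pos hS hq hqo hx hxo h01 hqt h
        rw [hc, hqr]
        exact Submodule.smul_mem _ _ (Submodule.smul_mem _ _ (hl _ _))
    · refine key r 0 fun x hx hxo => ?_
      rcases hty x hx hxo with h | h | h
      · obtain ⟨c, hc⟩ := line1 hK.symm hK.pos hS hr hro hx hxo hrt h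
        rw [hc]
        exact Submodule.smul_mem _ _ (hl _ _)
      · exact absurd ⟨x, hx, hxo, h⟩ hB
      · obtain ⟨c, hc⟩ := line2 hK.symm hK.pos hS hq hqo hx hxo h01 hqt h
        rw [hc, hqr]
        exact Submodule.smul_mem _ _ (Submodule.smul_mem _ _ (hl _ _))
  · refine key r q fun x hx hxo => ?_
    rcases hty x hx hxo with h | h | h
    · obtain ⟨c, hc⟩ := line1 hK.symm hK.pos hS hr hro hx hxo hrt h
      rw [hc]
      exact Submodule.smul_mem _ _ (hl _ _)
    · obtain ⟨c, hc⟩ := line1 hK.symm hK.pos hS ht hto hx hxo htt h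
      rw [hc, hpt]
      exact Submodule.smul_mem _ _ (Submodule.add_mem _ (Submodule.smul_mem _ _ (hl _ _))
        (Submodule.smul_mem _ _ (hr' _ _)))
    · obtain ⟨c, hc⟩ := line2 hK.symm hK.pos hS hq hqo hx hxo h01 hqt h
      rw [hc]
      exact Submodule.smul_mem _ _ (hr' _ _)

/-- a vector orthogonal to 5 orthogonal nonzero vectors vanishes -/
theorem r4_zero {B : LinearMap.BilinForm ℚ V} {K : AddSubgroup V} (hK : K5 B K) (r : Fin 5 → V)
    (h0 : ∀ i, r i ≠ 0) (ho : ∀ i j, i ≠ j → B (r i) (r j) = 0) {d : V}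
    (hd : ∀ i, B d (r i) = 0) : d = 0 := by
  have hli : LinearIndependent ℚ r := by
    apply LinearMap.linearIndependent_of_isOrthoᵢ (B := B)
    · intro i j hij
      exact ho i j hij
    · intro i h
      exact (hK.pos _ (h0 i)).ne' h
  have hsp : Submodule.span ℚ (Set.range r) = ⊤ :=
    hli.span_eq_top_of_card_eq_finrank (by rw [hK.dim, Fintype.card_fin])
  have h2 : Submodule.span ℚ (Set.range r) ≤ LinearMap.ker (B d) := by
    rw [Submodule.span_le]
    rintro _ ⟨i, rfl⟩
    exact hd i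
  rw [hsp] at h2
  have h3 : B d d = 0 := h2 Submodule.mem_top
  by_contra hne
  exact (hK.pos d hne).ne' h3

/-- Row [RH-R4]: four orthogonal roots can be extended to five.

There is `u ≠ 0` orthogonal to the `s_i`, a multiple lies in `K` and `exists_prim` gives a
primitive `y ∈ K` on this line.  For `x ∈ K`: `2x - ∑ (2(x,s_i)/(s_i,s_i)) s_i = (2(x,y)/(y,y)) y`
(both sides have the same products with `s_1,…,s_4,y`, an orthogonal basis of `V`), and the left
side is in `K`, so `2(x,y)/(y,y) ∈ ℤ` by primitivity. -/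
theorem ext4 {B : LinearMap.BilinForm ℚ V} {K : AddSubgroup V} (hK : K5 B K) (s : Fin 4 → V)
    (h1 : ∀ i, Rt B K (s i)) (h2 : ∀ i j, i ≠ j → B (s i) (s j) = 0) : Framed B K := by
  obtain ⟨u, hu, hus⟩ := r4_exists_orth hK (m := 4) (by norm_num) s
  obtain ⟨y, hyK, hy0, ⟨q, hq⟩, hprim⟩ := exists_prim hK.lat hu
  have hq0 : q ≠ 0 := by
    rintro rfl
    exact hu (by rw [hq, zero_smul])
  have hys : ∀ i, B y (s i) = 0 := by
    intro i
    have := hus i
    rw [hq, map_smul, LinearMap.smul_apply, smul_eq_mul] at this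
    exact (mul_eq_zero.1 this).resolve_left hq0
  have hsy : ∀ i, B (s i) y = 0 := fun i => by rw [hK.symm]; exact hys i
  have hyy : B y y ≠ 0 := (hK.pos y hy0).ne'
  have hss : ∀ i, B (s i) (s i) ≠ 0 := fun i => (hK.pos _ (h1 i).2.1).ne'
  let r : Fin 5 → V := Fin.cons y s
  have hr0 : ∀ i, r i ≠ 0 := by
    intro i
    refine Fin.cases ?_ (fun i => ?_) i
    · exact hy0
    · exact (h1 i).2.1
  have hro : ∀ i j, i ≠ j → B (r i) (r j) = 0 := by
    intro i j
    refine Fin.cases ?_ (fun i => ?_) i <;> refine Fin.cases ?_ (fun j => ?_) j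
    · intro h
      exact absurd rfl h
    · intro _
      exact hys j
    · intro _
      exact hsy i
    · intro h
      exact h2 i j fun h' => h (by rw [h'])
  have hyR : Rt B K y := by
    refine ⟨hyK, hy0, ?_, hprim⟩
    intro x hx
    choose n hn using fun i => (h1 i).2.2.1 x hx
    have he : (2 : ℤ) • x - ∑ i, n i • s i = (2 * B x y / B y y) • y := by
      rw [← sub_eq_zero]
      have hexp : (2 : ℤ) • x - ∑ i, n i • s i - (2 * B x y / B y y) • y =
          (2 : ℚ) • x - ∑ i, (n i : ℚ) • s i - (2 * B x y / B y y) • y := by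
        congr 2
        · rw [← Int.cast_smul_eq_zsmul ℚ]
          norm_num
        · exact Finset.sum_congr rfl fun i _ => (Int.cast_smul_eq_zsmul ℚ _ _).symm
      rw [hexp]
      apply r4_zero hK r hr0 hro
      intro j
      simp only [map_sub, map_smul, map_sum, LinearMap.sub_apply, LinearMap.smul_apply,
        LinearMap.sum_apply, smul_eq_mul]
      refine Fin.cases ?_ (fun j => ?_) j
      · show 2 * B x y - ∑ i, (n i : ℚ) * B (s i) y - 2 * B x y / B y y * B y y = 0
        simp only [hsy, mul_zero, Finset.sum_const_zero]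
        field_simp
        ring
      · show 2 * B x (s j) - ∑ i, (n i : ℚ) * B (s i) (s j) - 2 * B x y / B y y * B y (s j) = 0
        rw [hys, Finset.sum_eq_single j, hn j]
        · ring
        · intro b _ hb
          rw [h2 b j hb, mul_zero]
        · intro h
          exact absurd (Finset.mem_univ j) h
    have hmem : (2 * B x y / B y y) • y ∈ K := by
      rw [← he]
      exact K.sub_mem (K.zsmul_mem hx _)
        (K.sum_mem fun i _ => K.zsmul_mem (h1 i).1 _)
    obtain ⟨z, hz⟩ := hprim _ hmem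
    refine ⟨z, ?_⟩
    rw [← hz]
    field_simp
  refine ⟨r, ?_, hro⟩
  intro i
  refine Fin.cases ?_ (fun i => ?_) i
  · exact hyR
  · exact h1 i

/-- hence, if `K` is not framed, three orthogonal roots form a maximal family -/
theorem maxO_triple {B : LinearMap.BilinForm ℚ V} {K : AddSubgroup V} (hK : K5 B K)
    (hF : ¬ Framed B K) {s1 s2 s3 : V} (h1 : Rt B K s1) (h2 : Rt B K s2) (h3 : Rt B K s3)
    (z12 : B s1 s2 = 0) (z13 : B s1 s3 = 0) (z23 : B s2 s3 = 0) : MaxO B K ![s1, s2, s3] := by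
  have z21 : B s2 s1 = 0 := by rw [hK.symm]; exact z12
  have z31 : B s3 s1 = 0 := by rw [hK.symm]; exact z13
  have z32 : B s3 s2 = 0 := by rw [hK.symm]; exact z23
  have hrt : ∀ i, Rt B K (![s1, s2, s3] i) := by
    intro i
    fin_cases i
    · exact h1
    · exact h2
    · exact h3
  have hort : ∀ i j, i ≠ j → B (![s1, s2, s3] i) (![s1, s2, s3] j) = 0 := by
    intro i j hij
    fin_cases i <;> fin_cases j <;> first
      | exact absurd rfl hij
      | assumption
  refine ⟨hrt, hort, ?_⟩
  intro r hr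
  by_contra hcon
  push Not at hcon
  apply hF
  refine ext4 hK (Fin.cons r ![s1, s2, s3]) ?_ ?_
  · intro i
    refine Fin.cases ?_ (fun i => ?_) i
    · exact hr
    · exact hrt i
  · intro i j
    refine Fin.cases ?_ (fun i => ?_) i <;> refine Fin.cases ?_ (fun j => ?_) j
    · intro h
      exact absurd rfl h
    · intro _
      exact hcon j
    · intro _
      rw [hK.symm]
      exact hcon i
    · intro h
      exact hort i j fun h' => h (by rw [h'])

end RH6
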