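import Pool.Agent.RH6.R4

namespace RH6

variable {V : Type*} [AddCommGroup V] [Module ℚ V] [FiniteDimensional ℚ V]

/-! Row [RH-R5]: triples.  `![s1,s2,s3]` is maximal. -/

omit [FiniteDimensional ℚ V] in
theorem r5_nn {B : LinearMap.BilinForm ℚ V} (x y : V) : B (-x) (-y) = B x y := by
  rw [map_neg (B (-x)), map_neg B, LinearMap.neg_apply, neg_neg]

omit [AddCommGroup V] [Module ℚ V] [FiniteDimensional ℚ V] in
theorem r5_range (s1 s2 s3 : V) : Set.range ![s1, s2, s3] = {s1, s2, s3} := by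
  ext x
  simp only [Set.mem_range, Set.mem_insert_iff, Set.mem_singleton_iff]
  constructor
  · rintro ⟨i, rfl⟩
    fin_cases i
    · exact Or.inl rfl
    · exact Or.inr (Or.inl rfl)
    · exact Or.inr (Or.inr rfl)
  · rintro (rfl | rfl | rfl)
    · exact ⟨0, rfl⟩
    · exact ⟨1, rfl⟩
    · exact ⟨2, rfl⟩

omit [FiniteDimensional ℚ V] in
theorem r5_le (s1 s2 s3 r : V) : Submodule.span ℚ (Set.range ![s1, s2, s3]) ≤
    Submodule.span ℚ {s1, s2, s3, r} := by
  rw [r5_range]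
  apply Submodule.span_mono
  intro x hx
  simp only [Set.mem_insert_iff, Set.mem_singleton_iff] at hx ⊢
  tauto

omit [FiniteDimensional ℚ V] in
theorem r5_r (s1 s2 s3 r : V) : r ∈ Submodule.span ℚ {s1, s2, s3, r} :=
  Submodule.subset_span (by simp)

omit [FiniteDimensional ℚ V] in
theorem r5_pr {B : LinearMap.BilinForm ℚ V} (s1 s2 s3 x : V) :
    x - pr B ![s1, s2, s3] x ∈ Submodule.span ℚ (Set.range ![s1, s2, s3]) := by
  unfold pr
  rw [sub_sub_cancel]
  exact Submodule.sum_mem _ fun i _ => Submodule.smul_mem _ _ (Submodule.subset_span ⟨i, rfl⟩)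

omit [FiniteDimensional ℚ V] in
theorem r5_pos {B : LinearMap.BilinForm ℚ V} (hp : ∀ x, x ≠ 0 → 0 < B x x) {K : AddSubgroup V}
    {x : V} (h : Rt B K x) : 0 < B x x := hp x h.2.1

omit [FiniteDimensional ℚ V] in
/-- if `(x,x) = (y,y) = n`, `2(x,y) = c n`, `x ≠ ±y`, then `|c| ≤ 1` -/
theorem r5_cs {B : LinearMap.BilinForm ℚ V} (hs : ∀ x y, B x y = B y x)
    (hp : ∀ x, x ≠ 0 → 0 < B x x) {x y : V} {n : ℚ} (hn : 0 < n) (h1 : B x x = n)
    (h2 : B y y = n) {c : ℤ} (h3 : 2 * B x y = c * n) (h4 : x ≠ y) (h5 : x ≠ -y) :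
    -1 ≤ c ∧ c ≤ 1 := by
  have e1 := hp (x - y) (sub_ne_zero.2 h4)
  have e2 := hp (x + y) (fun h => h5 (eq_neg_of_add_eq_zero_left h))
  simp only [map_sub, map_add, LinearMap.sub_apply, LinearMap.add_apply] at e1 e2
  rw [hs y x] at e1 e2
  have f1 : 0 < (2 - c : ℚ) * n := by linarith
  have f2 : 0 < (2 + c : ℚ) * n := by linarith
  have g1 : (0 : ℚ) < 2 - c := (pos_iff_pos_of_mul_pos f1).2 hn
  have g2 : (0 : ℚ) < 2 + c := (pos_iff_pos_of_mul_pos f2).2 hn
  have k1 : (c : ℚ) < 2 := by linarith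
  have k2 : (-2 : ℚ) < c := by linarith
  have k3 : c < 2 := by exact_mod_cast k1
  have k4 : -2 < c := by exact_mod_cast k2
  omega

omit [FiniteDimensional ℚ V] in
/-- a root with the products of type `{1}` is not in the span -/
theorem r5_out {B : LinearMap.BilinForm ℚ V} {K : AddSubgroup V} (hs : ∀ x y, B x y = B y x)
    (hp : ∀ x, x ≠ 0 → 0 < B x x)
    {s1 s2 s3 : V} (hS : MaxO B K ![s1, s2, s3]) {r : V}
    (r1 : B r r = B s1 s1) (r2 : 2 * B r s1 = B s1 s1) (r3 : B r s2 = 0) (r4 : B r s3 = 0) :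
    r ∉ Submodule.span ℚ (Set.range ![s1, s2, s3]) := by
  intro h
  rw [r5_range, Submodule.mem_span_triple] at h
  obtain ⟨a, b, c, rfl⟩ := h
  have z12 : B s1 s2 = 0 := hS.ort 0 1 (by decide)
  have z13 : B s1 s3 = 0 := hS.ort 0 2 (by decide)
  have z23 : B s2 s3 = 0 := hS.ort 1 2 (by decide)
  have z21 : B s2 s1 = 0 := by rw [hs]; exact z12
  have z31 : B s3 s1 = 0 := by rw [hs]; exact z13
  have z32 : B s3 s2 = 0 := by rw [hs]; exact z23
  have p1 := r5_pos hp (hS.rt 0)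
  have p2 := r5_pos hp (hS.rt 1)
  have p3 := r5_pos hp (hS.rt 2)
  change 0 < B s1 s1 at p1
  change 0 < B s2 s2 at p2
  change 0 < B s3 s3 at p3
  simp only [map_add, map_smul, LinearMap.add_apply, LinearMap.smul_apply, smul_eq_mul, z12, z13,
    z23, z21, z31, z32, mul_zero, add_zero, zero_add] at r1 r2 r3 r4
  have hb : b = 0 := (mul_eq_zero.1 r3).resolve_right p2.ne'
  have hc : c = 0 := (mul_eq_zero.1 r4).resolve_right p3.ne'
  rw [hb, hc] at r1
  have ha : a = 1 / 2 := by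
    have : (2 * a - 1) * B s1 s1 = 0 := by linarith
    have := (mul_eq_zero.1 this).resolve_right p1.ne'
    linarith
  rw [ha] at r1
  nlinarith

/-- five independent vectors -/
theorem r5_zero {B : LinearMap.BilinForm ℚ V} {K : AddSubgroup V} (hK : K5 B K)
    {s1 s2 s3 r q : V} {n1 n e2 e3 : ℚ} (hn1 : 0 < n1) (hn : 0 < n)
    (he2 : e2 ^ 2 = 1) (he3 : e3 ^ 2 = 1)
    (a11 : B s1 s1 = n1) (arr : B r r = n1) (ar1 : 2 * B r s1 = n1)
    (a22 : B s2 s2 = n) (a33 : B s3 s3 = n) (aqq : B q q = n)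
    (aq2 : 2 * B q s2 = e2 * n) (aq3 : 2 * B q s3 = e3 * n)
    (z12 : B s1 s2 = 0) (z13 : B s1 s3 = 0) (z23 : B s2 s3 = 0) (zr2 : B r s2 = 0)
    (zr3 : B r s3 = 0) (zq1 : B q s1 = 0) (zrq : B r q = 0) {x : V}
    (h1 : B x s1 = 0) (h2 : B x r = 0) (h3 : B x s2 = 0) (h4 : B x q = 0) (h5 : B x s3 = 0) :
    x = 0 := by
  have hs := hK.symm
  have hli : LinearIndependent ℚ ![s1, r, s2, q, s3] := by
    rw [Fintype.linearIndependent_iff]
    intro g hg
    simp only [Fin.sum_univ_five] at hg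
    change g 0 • s1 + g 1 • r + g 2 • s2 + g 3 • q + g 4 • s3 = 0 at hg
    have b1 := congrArg (fun z => B z s1) hg
    have b2 := congrArg (fun z => B z r) hg
    have b3 := congrArg (fun z => B z s2) hg
    have b4 := congrArg (fun z => B z q) hg
    have b5 := congrArg (fun z => B z s3) hg
    have z21 : B s2 s1 = 0 := by rw [hs]; exact z12
    have z31 : B s3 s1 = 0 := by rw [hs]; exact z13
    have z32 : B s3 s2 = 0 := by rw [hs]; exact z23
    have z2r : B s2 r = 0 := by rw [hs]; exact zr2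
    have z3r : B s3 r = 0 := by rw [hs]; exact zr3
    have z1q : B s1 q = 0 := by rw [hs]; exact zq1
    have zqr : B q r = 0 := by rw [hs]; exact zrq
    have c1r : B s1 r = n1 / 2 := by rw [hs]; linarith
    have cr1 : B r s1 = n1 / 2 := by linarith
    have cq2 : B q s2 = e2 * n / 2 := by linarith
    have cq3 : B q s3 = e3 * n / 2 := by linarith
    have c2q : B s2 q = e2 * n / 2 := by rw [hs]; linarith
    have c3q : B s3 q = e3 * n / 2 := by rw [hs]; linarith
    simp only [map_add, map_smul, LinearMap.add_apply, LinearMap.smul_apply, smul_eq_mul, map_zero,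
      LinearMap.zero_apply, a11, arr, a22, a33, aqq, z12, z13, z23, zr2, zr3, zq1, zrq, z21, z31,
      z32, z2r, z3r, z1q, zqr, c1r, cr1, cq2, cq3, c2q, c3q, mul_zero, add_zero, zero_add]
      at b1 b2 b3 b4 b5
    have g0 : g 0 = 0 := by
      have : g 0 * n1 = 0 := by linarith
      exact (mul_eq_zero.1 this).resolve_right hn1.ne'
    have g1 : g 1 = 0 := by
      have : g 1 * n1 = 0 := by linarith
      exact (mul_eq_zero.1 this).resolve_right hn1.ne'
    have k2 : g 2 = -(g 3 * e2 / 2) := by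
      have : (g 2 + g 3 * e2 / 2) * n = 0 := by linarith
      have := (mul_eq_zero.1 this).resolve_right hn.ne'
      linarith
    have k4 : g 4 = -(g 3 * e3 / 2) := by
      have : (g 4 + g 3 * e3 / 2) * n = 0 := by linarith
      have := (mul_eq_zero.1 this).resolve_right hn.ne'
      linarith
    have g3 : g 3 = 0 := by
      have h : (g 2 * e2 / 2 + g 3 + g 4 * e3 / 2) * n = 0 := by linarith
      have h' := (mul_eq_zero.1 h).resolve_right hn.ne'
      rw [k2, k4] at h'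
      have h'' : g 3 - g 3 * e2 ^ 2 / 4 - g 3 * e3 ^ 2 / 4 = 0 := by linarith
      rw [he2, he3] at h''
      linarith
    have g2 : g 2 = 0 := by rw [k2, g3]; ring
    have g4 : g 4 = 0 := by rw [k4, g3]; ring
    intro i
    fin_cases i
    · exact g0
    · exact g1
    · exact g2
    · exact g3
    · exact g4
  have htop := hli.span_eq_top_of_card_eq_finrank' (by rw [hK.dim]; rfl)
  have hx : x ∈ Submodule.span ℚ (Set.range ![s1, r, s2, q, s3]) := by
    rw [htop]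
    exact Submodule.mem_top
  have hker : Submodule.span ℚ (Set.range ![s1, r, s2, q, s3]) ≤ LinearMap.ker (B x) := by
    rw [Submodule.span_le]
    rintro y ⟨i, rfl⟩
    fin_cases i
    · exact h1
    · exact h2
    · exact h3
    · exact h4
    · exact h5
  by_contra hx0
  exact (hK.pos x hx0).ne' (hker hx)

/-- Row [RH-R5]: types `{1}` and `{2}`.

Proof.  By `out_root` `(q,q) = (s2,s2)`, `2(q,s2) = ±(s2,s2)`; replacing `q` by `-q` assume `+`.
Let `2(r,q) = a (q,q) = b (r,r)`.  If `(r,q) = 0`: `Alpha` with `t = q`.  Otherwise `b ≠ 0` and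
`w = q - b r` (the reflection of `q` in `r`) is a root, not in the span of the `s_i` (as `q` is not in
the span of `s_i, r`), with `(w,s1) = -b (r,s1) ≠ 0`; so by `out_root` `(w,w) = (s1,s1)`.  Hence
`(q,q) = (w,w) = (s1,s1) = (r,r) = n`, `a = b`, `|a| ≤ 1` (Cauchy-Schwarz, `q` is not proportional
to `r`), `a = ±1`.  Replace `q` by `-q` if `a = -1`; then `2(r,q) = n` and `2(q,s2) = ±n`; take
`s2' = ±s2`. -/
theorem pair11 {B : LinearMap.BilinForm ℚ V} {K : AddSubgroup V} (hK : K5 B K)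
    {s1 s2 s3 : V} (hS : MaxO B K ![s1, s2, s3]) {r q : V} (hr : Rt B K r)
    (r1 : B r r = B s1 s1) (r2 : 2 * B r s1 = B s1 s1) (r3 : B r s2 = 0) (r4 : B r s3 = 0)
    (hq : Rt B K q) (q1 : B q s1 = 0) (q2 : B q s2 ≠ 0) (q3 : B q s3 = 0)
    (hi : q ∉ Submodule.span ℚ {s1, s2, s3, r}) :
    (∃ t, Alpha B K s1 r s2 t s3) ∨
      ∃ t s2', (s2' = s2 ∨ s2' = -s2) ∧ Beta B K s1 r t s2' s3 := by
  have hs := hK.symm
  have hp := hK.pos
  have z12 : B s1 s2 = 0 := hS.ort 0 1 (by decide)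
  have z13 : B s1 s3 = 0 := hS.ort 0 2 (by decide)
  have z23 : B s2 s3 = 0 := hS.ort 1 2 (by decide)
  have h1 : Rt B K s1 := hS.rt 0
  have h2 : Rt B K s2 := hS.rt 1
  have h3 : Rt B K s3 := hS.rt 2
  have p1 := r5_pos hp h1
  have hro := r5_r s1 s2 s3 r
  have hle := r5_le s1 s2 s3 r
  obtain ⟨q', hq', q1', q2', q3', qq', hi'⟩ : ∃ q', Rt B K q' ∧ B q' s1 = 0 ∧
      2 * B q' s2 = B s2 s2 ∧ B q' s3 = 0 ∧ B q' q' = B s2 s2 ∧
      q' ∉ Submodule.span ℚ {s1, s2, s3, r} := by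
    have ho := (out_root hs hp hS hq (fun h => hi (hle h))).1 1
    change B q s2 = 0 ∨ (B q q = B s2 s2 ∧ (2 * B q s2 = B q q ∨ 2 * B q s2 = -B q q)) at ho
    obtain ⟨e1, e2 | e2⟩ := ho.resolve_left q2
    · exact ⟨q, hq, q1, by rw [e2, e1], q3, e1, hi⟩
    · refine ⟨-q, rt_neg hq, ?_, ?_, ?_, ?_, ?_⟩
      · rw [map_neg, LinearMap.neg_apply, q1, neg_zero]
      · rw [map_neg, LinearMap.neg_apply, mul_neg, e2, neg_neg, e1]
      · rw [map_neg, LinearMap.neg_apply, q3, neg_zero]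
      · rw [r5_nn, e1]
      · rwa [Submodule.neg_mem_iff]
  by_cases h0 : B r q' = 0
  · exact Or.inl ⟨q', h1, hr, h2, hq', h3, r1, r2, qq', q2', z12, z13, z23, r3, r4, q1', q3', h0⟩
  · right
    obtain ⟨a, b, ha, hb⟩ := rt_coef hs hr hq'
    have hpr : 0 < B r r := r5_pos hp hr
    have hb0 : (b : ℚ) ≠ 0 := by
      intro h
      rw [h, zero_mul] at hb
      exact h0 (by linarith)
    have hw := rt_refl hs hp hr hq'
    have hcoef : 2 * B q' r / B r r = b := by
      rw [hs q' r, hb]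
      field_simp
    rw [hcoef] at hw
    set w := q' - (b : ℚ) • r with hwd
    have hwo : w ∉ Submodule.span ℚ (Set.range ![s1, s2, s3]) := by
      intro h
      apply hi'
      have : q' = w + (b : ℚ) • r := by rw [hwd]; abel
      rw [this]
      exact Submodule.add_mem _ (hle h) (Submodule.smul_mem _ _ hro)
    have hw1 : B w s1 ≠ 0 := by
      rw [hwd, map_sub, LinearMap.sub_apply, map_smul, LinearMap.smul_apply, q1', smul_eq_mul,
        zero_sub, neg_ne_zero]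
      refine mul_ne_zero hb0 ?_
      intro h
      rw [h] at r2
      linarith
    have ho := (out_root hs hp hS hw hwo).1 0
    change B w s1 = 0 ∨ (B w w = B s1 s1 ∧ (2 * B w s1 = B w w ∨ 2 * B w s1 = -B w w)) at ho
    have hww := (ho.resolve_left hw1).1
    have hww' : B w w = B q' q' := by
      rw [hwd]
      simp only [map_sub, LinearMap.sub_apply, map_smul, LinearMap.smul_apply, smul_eq_mul]
      rw [hs q' r]
      linear_combination -(b : ℚ) * hb
    have hqn : B q' q' = B s1 s1 := by rw [← hww', hww]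
    have hsn : B s2 s2 = B s1 s1 := by rw [← qq', hqn]
    have ha' : 2 * B r q' = a * B s1 s1 := by rw [ha, hqn]
    have hne : ∀ c : ℚ, r ≠ c • q' → True := fun _ _ => trivial
    have hb1 : 2 * B r s1 ≠ 0 := by rw [r2]; exact p1.ne'
    have hne1 : r ≠ q' := by
      rintro rfl
      exact hi' hro
    have hne2 : r ≠ -q' := by
      intro h
      apply hi'
      have : q' = -r := by rw [h, neg_neg]
      rw [this]
      exact Submodule.neg_mem _ hro
    obtain ⟨c1, c2⟩ := r5_cs hs hp p1 r1 hqn ha' hne1 hne2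
    have ha0 : a ≠ 0 := by
      rintro rfl
      apply h0
      rw [Int.cast_zero, zero_mul] at ha'
      linarith
    have hcase : a = 1 ∨ a = -1 := by omega
    rcases hcase with rfl | rfl
    · refine ⟨q', s2, Or.inl rfl, h1, hr, hq', h2, h3, r1, hqn, hsn, r2, ?_, ?_, z12, z13, z23,
        r3, r4, q1', q3'⟩
      · rw [ha']; norm_num
      · rw [q2', hsn]
    · refine ⟨-q', -s2, Or.inr rfl, h1, hr, rt_neg hq', rt_neg h2, h3, r1, ?_, ?_, r2, ?_, ?_, ?_,
        z13, ?_, ?_, r4, ?_, ?_⟩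
      · rw [r5_nn, hqn]
      · rw [r5_nn, hsn]
      · rw [map_neg, mul_neg, ha']; norm_num
      · rw [r5_nn, q2', hsn]
      · rw [map_neg, z12, neg_zero]
      · rw [map_neg, LinearMap.neg_apply, z23, neg_zero]
      · rw [map_neg, r3, neg_zero]
      · rw [map_neg, LinearMap.neg_apply, q1', neg_zero]
      · rw [map_neg, LinearMap.neg_apply, q3', neg_zero]

/-- Row [RH-R5]: types `{1}` and `{1,2}`: `single_of_double` gives a root of type `{2}` with
projection `± pr r ± pr q`, not in the span of `s1,s2,s3,r`; `pair11`. -/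
theorem pair12 {B : LinearMap.BilinForm ℚ V} {K : AddSubgroup V} (hK : K5 B K)
    {s1 s2 s3 : V} (hS : MaxO B K ![s1, s2, s3]) {r q : V} (hr : Rt B K r)
    (r1 : B r r = B s1 s1) (r2 : 2 * B r s1 = B s1 s1) (r3 : B r s2 = 0) (r4 : B r s3 = 0)
    (hq : Rt B K q) (q1 : B q s1 ≠ 0) (q2 : B q s2 ≠ 0) (q3 : B q s3 = 0)
    (hi : q ∉ Submodule.span ℚ {s1, s2, s3, r}) :
    (∃ t, Alpha B K s1 r s2 t s3) ∨
      ∃ t s2', (s2' = s2 ∨ s2' = -s2) ∧ Beta B K s1 r t s2' s3 := by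
  have hs := hK.symm
  have hp := hK.pos
  have p1 : 0 < B s1 s1 := r5_pos hp (hS.rt 0)
  have hle := r5_le s1 s2 s3 r
  have hro := r5_out hs hp hS r1 r2 r3 r4
  have hqo : q ∉ Submodule.span ℚ (Set.range ![s1, s2, s3]) := fun h => hi (hle h)
  have t1 : ∀ l, B r (![s1, s2, s3] l) ≠ 0 ↔ l = 0 := by
    intro l
    fin_cases l
    · change B r s1 ≠ 0 ↔ _
      refine ⟨fun _ => rfl, fun _ h => ?_⟩
      rw [h] at r2
      linarith
    · change B r s2 ≠ 0 ↔ _
      refine ⟨fun h => absurd r3 h, fun h => absurd h (by decide)⟩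
    · change B r s3 ≠ 0 ↔ _
      refine ⟨fun h => absurd r4 h, fun h => absurd h (by decide)⟩
  have t2 : ∀ l, B q (![s1, s2, s3] l) ≠ 0 ↔ l = 0 ∨ l = 1 := by
    intro l
    fin_cases l
    · exact ⟨fun _ => Or.inl rfl, fun _ => q1⟩
    · exact ⟨fun _ => Or.inr rfl, fun _ => q2⟩
    · refine ⟨fun h => absurd q3 h, fun h => absurd h (by decide)⟩
  obtain ⟨t, e, e', ht, ht1, he, he', hpr⟩ := single_of_double hs hp hS hr hro hq hqo
    (i := 0) (j := 1) (by decide) t1 t2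
  refine pair11 hK hS hr r1 r2 r3 r4 ht ?_ ?_ ?_ ?_
  · by_contra h
    exact absurd ((ht1 0).1 h) (by decide)
  · exact (ht1 1).2 rfl
  · by_contra h
    exact absurd ((ht1 2).1 h) (by decide)
  · intro h
    apply hi
    have e1 := hle (r5_pr (B := B) s1 s2 s3 t)
    have e2 := hle (r5_pr (B := B) s1 s2 s3 r)
    have e3 := hle (r5_pr (B := B) s1 s2 s3 q)
    have hrr := r5_r s1 s2 s3 r
    have f1 : pr B ![s1, s2, s3] t ∈ Submodule.span ℚ {s1, s2, s3, r} := by
      have := Submodule.sub_mem _ h e1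
      rwa [sub_sub_cancel] at this
    have f2 : pr B ![s1, s2, s3] r ∈ Submodule.span ℚ {s1, s2, s3, r} := by
      have := Submodule.sub_mem _ hrr e2
      rwa [sub_sub_cancel] at this
    have f3 : e' • pr B ![s1, s2, s3] q ∈ Submodule.span ℚ {s1, s2, s3, r} := by
      have h4 : e' • pr B ![s1, s2, s3] q =
          pr B ![s1, s2, s3] t - e • pr B ![s1, s2, s3] r := by
        rw [hpr]; abel
      rw [h4]
      exact Submodule.sub_mem _ f1 (Submodule.smul_mem _ _ f2)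
    have he0 : e' ≠ 0 := by
      rcases he' with h | h <;> rw [h] <;> norm_num
    have f4 : pr B ![s1, s2, s3] q ∈ Submodule.span ℚ {s1, s2, s3, r} :=
      (Submodule.smul_mem_iff _ he0).1 f3
    have := Submodule.add_mem _ e3 f4
    rwa [sub_add_cancel] at this

/-- Row [RH-R5]: types `{1}` and `{2,3}` are impossible.

Proof.  By `out_root` `(q,q) = (s2,s2) = (s3,s3) = n`, `2(q,s2) = ε₂ n`, `2(q,s3) = ε₃ n`; let
`n₁ = (s1,s1)`.
(a) `(r,q) = 0`: otherwise with `2(r,q) = b(r,r)`, `b ≠ 0`, the root `w = q - b r` is not in the span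
of the `s_i` and has nonzero products with `s1, s2, s3`, contradiction to `out_root`.
(b) `s1, r, s2, q, s3` is a basis of `V` (`s1, r` span `P₁`, `s2, q, s3` span `P₂`, `V = P₁ ⊥ P₂`).
For `x ∈ K` let `x = x₁ + x₂`.  Then `4 x₂ ∈ ℤ s2 + ℤ q + ℤ s3`: with `c₂ = 2(x,s2)/n`,
`c = 2(x,q)/n`, `c₃ = 2(x,s3)/n ∈ ℤ`,
`4 x₂ = (3c₂ - 2ε₂ c + ε₂ε₃ c₃) s2 + (4c - 2ε₂ c₂ - 2ε₃ c₃) q + (3c₃ - 2ε₃ c + ε₂ε₃ c₂) s3`
(compare the products with `s2, q, s3`).  So `4 x₁ = 4x - 4x₂ ∈ K`.
(c) With `α = 2(x,r)/n₁`, `β = 2(x,s1)/n₁ ∈ ℤ`, `u = 2r - s1` (`(u,s1) = 0`, `(u,r) = 3n₁/2`,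
`(u,u) = 3n₁`): `x₁ = (β/2) s1 + ((2α-β)/6) u`, `4x₁ = 2β s1 + (2(2α-β)/3) u`; so
`(2(2α-β)/3) u ∈ K`.
(d) `exists_prim`: `u = e y`, `y ∈ K` primitive, `e ∈ ℤ`, `e ≠ 0`; `2(y,r)/(r,r) = 3/e ∈ ℤ`, so
`e ∣ 3`.  For `x ∈ K`: `2(x,y)/(y,y) = 2e (x,u)/(u,u) = e (2α-β)/3` (`(x,u) = n₁(2α-β)/2`).  If
`e = ±3`, it is an integer.  If `e = ±1`, then `u` is primitive and (c) gives
`2(2α-β)/3 ∈ ℤ`, so `3 ∣ 2α-β`.  So `y` is a root, orthogonal to `s1,s2,s3`: contradiction. -/
theorem pair123 {B : LinearMap.BilinForm ℚ V} {K : AddSubgroup V} (hK : K5 B K)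
    {s1 s2 s3 : V} (hS : MaxO B K ![s1, s2, s3]) {r q : V} (hr : Rt B K r)
    (r1 : B r r = B s1 s1) (r2 : 2 * B r s1 = B s1 s1) (r3 : B r s2 = 0) (r4 : B r s3 = 0)
    (hq : Rt B K q) (q1 : B q s1 = 0) (q2 : B q s2 ≠ 0) (q3 : B q s3 ≠ 0)
    (hi : q ∉ Submodule.span ℚ {s1, s2, s3, r}) : False := by
  have hs := hK.symm
  have hp := hK.pos
  have z12 : B s1 s2 = 0 := hS.ort 0 1 (by decide)
  have z13 : B s1 s3 = 0 := hS.ort 0 2 (by decide)
  have z23 : B s2 s3 = 0 := hS.ort 1 2 (by decide)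
  have h1 : Rt B K s1 := hS.rt 0
  have h2 : Rt B K s2 := hS.rt 1
  have h3 : Rt B K s3 := hS.rt 2
  have p1 : 0 < B s1 s1 := r5_pos hp h1
  have hrr := r5_r s1 s2 s3 r
  have hle := r5_le s1 s2 s3 r
  have ho := (out_root hs hp hS hq (fun h => hi (hle h))).1
  have ho2 := ho 1
  have ho3 := ho 2
  change B q s2 = 0 ∨ (B q q = B s2 s2 ∧ (2 * B q s2 = B q q ∨ 2 * B q s2 = -B q q)) at ho2
  change B q s3 = 0 ∨ (B q q = B s3 s3 ∧ (2 * B q s3 = B q q ∨ 2 * B q s3 = -B q q)) at ho3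
  obtain ⟨n2, ho2⟩ := ho2.resolve_left q2
  obtain ⟨n3, ho3⟩ := ho3.resolve_left q3
  have pq : 0 < B q q := r5_pos hp hq
  obtain ⟨e2, he2, k2⟩ : ∃ e2 : ℤ, (e2 = 1 ∨ e2 = -1) ∧ 2 * B q s2 = e2 * B q q := by
    rcases ho2 with h | h
    · exact ⟨1, Or.inl rfl, by rw [h]; norm_num⟩
    · exact ⟨-1, Or.inr rfl, by rw [h]; norm_num⟩
  obtain ⟨e3, he3, k3⟩ : ∃ e3 : ℤ, (e3 = 1 ∨ e3 = -1) ∧ 2 * B q s3 = e3 * B q q := by
    rcases ho3 with h | h
    · exact ⟨1, Or.inl rfl, by rw [h]; norm_num⟩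
    · exact ⟨-1, Or.inr rfl, by rw [h]; norm_num⟩
  have he2' : (e2 : ℚ) ^ 2 = 1 := by rcases he2 with rfl | rfl <;> norm_num
  have he3' : (e3 : ℚ) ^ 2 = 1 := by rcases he3 with rfl | rfl <;> norm_num
  -- (a)
  have zrq : B r q = 0 := by
    by_contra h0
    obtain ⟨a, b, ha, hb⟩ := rt_coef hs hr hq
    have hpr : 0 < B r r := r5_pos hp hr
    have hb0 : (b : ℚ) ≠ 0 := by
      intro h
      rw [h, zero_mul] at hb
      exact h0 (by linarith)
    have hw := rt_refl hs hp hr hq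
    have hcoef : 2 * B q r / B r r = b := by
      rw [hs q r, hb]
      field_simp
    rw [hcoef] at hw
    have hwo : q - (b : ℚ) • r ∉ Submodule.span ℚ (Set.range ![s1, s2, s3]) := by
      intro h
      apply hi
      have : q = (q - (b : ℚ) • r) + (b : ℚ) • r := by abel
      rw [this]
      exact Submodule.add_mem _ (hle h) (Submodule.smul_mem _ _ hrr)
    have hw1 : B (q - (b : ℚ) • r) s1 ≠ 0 := by
      rw [map_sub, LinearMap.sub_apply, map_smul, LinearMap.smul_apply, q1, smul_eq_mul,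
        zero_sub, neg_ne_zero]
      refine mul_ne_zero hb0 ?_
      intro h
      rw [h] at r2
      linarith
    have hw2 : B (q - (b : ℚ) • r) s2 ≠ 0 := by
      rw [map_sub, LinearMap.sub_apply, map_smul, LinearMap.smul_apply, r3, smul_zero, sub_zero]
      exact q2
    have hw3 : B (q - (b : ℚ) • r) s3 ≠ 0 := by
      rw [map_sub, LinearMap.sub_apply, map_smul, LinearMap.smul_apply, r4, smul_zero, sub_zero]
      exact q3
    rcases (out_root hs hp hS hw hwo).2 with ⟨i, hi1⟩ | ⟨i, i', hii, hi1⟩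
    · have a0 := (hi1 0).1 hw1
      have a1 := (hi1 1).1 hw2
      exact absurd (a0.trans a1.symm) (by decide)
    · have a0 := (hi1 0).1 hw1
      have a1 := (hi1 1).1 hw2
      have a2 := (hi1 2).1 hw3
      have hfin : ∀ i i' : Fin 3, (0 = i ∨ 0 = i') → (1 = i ∨ 1 = i') → (2 = i ∨ 2 = i') →
        False := by decide
      exact hfin i i' a0 a1 a2
  -- (b), (c)
  have hu1 : B ((2 : ℚ) • r - s1) s1 = 0 := by
    rw [map_sub, LinearMap.sub_apply, map_smul, LinearMap.smul_apply, smul_eq_mul, r2, sub_self]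
  have hur : 2 * B ((2 : ℚ) • r - s1) r = 3 * B s1 s1 := by
    rw [map_sub, LinearMap.sub_apply, map_smul, LinearMap.smul_apply, smul_eq_mul, r1, hs s1 r]
    linarith
  have hu2 : B ((2 : ℚ) • r - s1) s2 = 0 := by
    rw [map_sub, LinearMap.sub_apply, map_smul, LinearMap.smul_apply, smul_eq_mul, r3, z12]
    ring
  have hu3 : B ((2 : ℚ) • r - s1) s3 = 0 := by
    rw [map_sub, LinearMap.sub_apply, map_smul, LinearMap.smul_apply, smul_eq_mul, r4, z13]
    ring
  have huq : B ((2 : ℚ) • r - s1) q = 0 := by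
    rw [map_sub, LinearMap.sub_apply, map_smul, LinearMap.smul_apply, smul_eq_mul, zrq, hs s1 q,
      q1]
    ring
  have huu : B ((2 : ℚ) • r - s1) ((2 : ℚ) • r - s1) = 3 * B s1 s1 := by
    rw [map_sub (B ((2 : ℚ) • r - s1)), map_smul, hu1, smul_eq_mul]
    linarith
  set u : V := (2 : ℚ) • r - s1 with hu
  have hu0 : u ≠ 0 := by
    intro h
    rw [h, map_zero] at huu
    linarith
  have huK : u ∈ K := by
    rw [hu, two_smul]
    exact K.sub_mem (K.add_mem hr.1 hr.1) h1.1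
  have key : ∀ x ∈ K, ∃ al be : ℤ, 2 * B x r = al * B s1 s1 ∧ 2 * B x s1 = be * B s1 s1 ∧
      ((2 * (2 * al - be) : ℚ) / 3) • u ∈ K := by
    intro x hx
    obtain ⟨al, hal⟩ := hr.2.2.1 x hx
    obtain ⟨be, hbe⟩ := h1.2.2.1 x hx
    obtain ⟨c2, hc2⟩ := h2.2.2.1 x hx
    obtain ⟨c3, hc3⟩ := h3.2.2.1 x hx
    obtain ⟨c, hc⟩ := hq.2.2.1 x hx
    rw [r1] at hal
    rw [← n2] at hc2
    rw [← n3] at hc3
    refine ⟨al, be, hal, hbe, ?_⟩
    have hz : (4 : ℚ) • x - ((2 * be : ℚ) • s1 + ((2 * (2 * al - be) : ℚ) / 3) • u +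
        ((3 * c2 - 2 * e2 * c + e2 * e3 * c3 : ℚ) • s2 +
          (4 * c - 2 * e2 * c2 - 2 * e3 * c3 : ℚ) • q +
          (3 * c3 - 2 * e3 * c + e2 * e3 * c2 : ℚ) • s3)) = 0 := by
      have z21 : B s2 s1 = 0 := by rw [hs]; exact z12
      have z31 : B s3 s1 = 0 := by rw [hs]; exact z13
      have z32 : B s3 s2 = 0 := by rw [hs]; exact z23
      have z2r : B s2 r = 0 := by rw [hs]; exact r3
      have z3r : B s3 r = 0 := by rw [hs]; exact r4
      have z1q : B s1 q = 0 := by rw [hs]; exact q1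
      have zqr : B q r = 0 := by rw [hs]; exact zrq
      have c1r : B s1 r = B s1 s1 / 2 := by rw [hs]; linarith
      have cq2 : B q s2 = e2 * B q q / 2 := by linarith
      have cq3 : B q s3 = e3 * B q q / 2 := by linarith
      have c2q : B s2 q = e2 * B q q / 2 := by rw [hs]; linarith
      have c3q : B s3 q = e3 * B q q / 2 := by rw [hs]; linarith
      have hur' : B u r = 3 * B s1 s1 / 2 := by linarith
      have x1 : B x s1 = be * B s1 s1 / 2 := by linarith
      have xr : B x r = al * B s1 s1 / 2 := by linarith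
      have x2 : B x s2 = c2 * B q q / 2 := by linarith
      have x3 : B x s3 = c3 * B q q / 2 := by linarith
      have xq : B x q = c * B q q / 2 := by linarith
      refine r5_zero hK p1 pq he2' he3' rfl r1 r2 n2.symm n3.symm rfl k2 k3 z12 z13 z23 r3 r4 q1
        zrq ?_ ?_ ?_ ?_ ?_
      · simp only [map_sub, map_add, map_smul, LinearMap.add_apply, LinearMap.sub_apply,
          LinearMap.smul_apply, smul_eq_mul, hu1, z21, z31, q1, x1]
        ring
      · simp only [map_sub, map_add, map_smul, LinearMap.add_apply, LinearMap.sub_apply,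
          LinearMap.smul_apply, smul_eq_mul, hur', z2r, z3r, zqr, xr, c1r]
        ring
      · simp only [map_sub, map_add, map_smul, LinearMap.add_apply, LinearMap.sub_apply,
          LinearMap.smul_apply, smul_eq_mul, hu2, z12, z32, x2, cq2, ← n2]
        linear_combination (c2 * B q q) * he2'
      · simp only [map_sub, map_add, map_smul, LinearMap.add_apply, LinearMap.sub_apply,
          LinearMap.smul_apply, smul_eq_mul, huq, z1q, xq, c2q, c3q]
        linear_combination (c * B q q - B q q * e3 * c3 / 2) * he2' +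
          (c * B q q - B q q * e2 * c2 / 2) * he3'
      · simp only [map_sub, map_add, map_smul, LinearMap.add_apply, LinearMap.sub_apply,
          LinearMap.smul_apply, smul_eq_mul, hu3, z13, z23, x3, cq3, ← n3]
        linear_combination (c3 * B q q) * he3'
    have hm : ∀ (m : ℤ) {y : V}, y ∈ K → (m : ℚ) • y ∈ K := by
      intro m y hy
      rw [Int.cast_smul_eq_zsmul]
      exact K.zsmul_mem hy m
    have e : ((2 * (2 * al - be) : ℚ) / 3) • u = ((4 : ℤ) : ℚ) • x - ((2 * be : ℤ) : ℚ) • s1 -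
        (((3 * c2 - 2 * e2 * c + e2 * e3 * c3 : ℤ) : ℚ) • s2 +
          ((4 * c - 2 * e2 * c2 - 2 * e3 * c3 : ℤ) : ℚ) • q +
          ((3 * c3 - 2 * e3 * c + e2 * e3 * c2 : ℤ) : ℚ) • s3) := by
      have := sub_eq_zero.1 hz
      push_cast
      rw [this]
      abel
    rw [e]
    exact K.sub_mem (K.sub_mem (hm _ hx) (hm _ h1.1))
      (K.add_mem (K.add_mem (hm _ h2.1) (hm _ hq.1)) (hm _ h3.1))
  -- (d)
  obtain ⟨y, hyK, hy0, ⟨e, hey⟩, hprim⟩ := exists_prim hK.lat hu0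
  obtain ⟨z, hz⟩ := hprim e (by rw [← hey]; exact huK)
  have he0 : e ≠ 0 := by
    rintro rfl
    rw [zero_smul] at hey
    exact hu0 hey
  have hyu : ∀ x, B x u = e * B x y := by
    intro x
    rw [hey, map_smul, smul_eq_mul]
  have hyu' : ∀ x, B u x = e * B y x := by
    intro x
    rw [hey, map_smul, LinearMap.smul_apply, smul_eq_mul]
  have hyz : ∀ x, B u x = 0 → B y x = 0 := by
    intro x hx
    rw [hyu'] at hx
    exact (mul_eq_zero.1 hx).resolve_left he0
  have hroot : Rt B K y := by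
    refine ⟨hyK, hy0, ?_, hprim⟩
    intro x hx
    obtain ⟨al, be, ha, hb, hm⟩ := key x hx
    rw [hey, smul_smul] at hm
    obtain ⟨m, hm'⟩ := hprim _ hm
    rw [hz] at hm'
    have hm2 : 2 * (z * (2 * al - be)) = 3 * m := by
      have : (2 * ((z : ℚ) * (2 * al - be))) = 3 * m := by linarith
      exact_mod_cast this
    refine ⟨z * (2 * al - be) - m, ?_⟩
    have hm3 : z * (2 * al - be) = 3 * (z * (2 * al - be) - m) := by linarith
    have hm4 : ((z : ℚ) * (2 * al - be)) = 3 * ((z * (2 * al - be) - m : ℤ) : ℚ) := by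
      exact_mod_cast hm3
    have hyy : e * (e * B y y) = 3 * B s1 s1 := by
      rw [← hyu, ← hyu', huu]
    have hxu : 2 * B x u = (2 * al - be) * B s1 s1 := by
      rw [hu, map_sub, map_smul, smul_eq_mul]
      linarith
    rw [hyu] at hxu
    have hzz : e * (2 * B x y * 3) = e * (((z : ℚ) * (2 * al - be)) * B y y) := by
      have h5 : e * e * ((2 * al - be) * B y y) = 3 * ((2 * al - be) * B s1 s1) := by
        linear_combination (2 * al - be) * hyy
      rw [← hz]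
      linear_combination 3 * hxu - h5
    have h6 := mul_left_cancel₀ he0 hzz
    rw [hm4] at h6
    linarith
  obtain ⟨i, hi2⟩ := hS.max y hroot
  apply hi2
  fin_cases i
  · exact hyz _ hu1
  · exact hyz _ hu2
  · exact hyz _ hu3

/-- Row [RH-R5]: types `{1,2}` and `{2,3}`.

Proof.  By `norm2` we may assume `2(r,s1) = 2(r,s2) = n = 2(q,s2) = 2(q,s3)`, all norms `n`.
`2(r,q) = c n`; `q - s2` is a root (`rt_sub`) and `2(r,q-s2) = (c-1) n`; neither `q` nor `q - s2` is
`±r` (types), so `c, c-1 ∈ {-1,0,1}`.  `c = 0`: `Gamma s1 r s2 q s3`.  `c = 1`: put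
`q' = s2 - q`; `2(q',s2) = n`, `2(q',s3) = -n`, `(r,q') = 0`: `Gamma s1 r s2 q' (-s3)`. -/
theorem pair22 {B : LinearMap.BilinForm ℚ V} {K : AddSubgroup V} (hK : K5 B K)
    {s1 s2 s3 : V} (hS : MaxO B K ![s1, s2, s3]) {r q : V} (hr : Rt B K r)
    (hro : r ∉ Submodule.span ℚ {s1, s2, s3}) (hqo : q ∉ Submodule.span ℚ {s1, s2, s3})
    (r1 : B r s1 ≠ 0) (r2 : B r s2 ≠ 0) (r3 : B r s3 = 0)
    (hq : Rt B K q) (q1 : B q s1 = 0) (q2 : B q s2 ≠ 0) (q3 : B q s3 ≠ 0) :
    ∃ r' q' s3', Gamma B K s1 r' s2 q' s3' := by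
  have hs := hK.symm
  have hp := hK.pos
  have z12 : B s1 s2 = 0 := hS.ort 0 1 (by decide)
  have z13 : B s1 s3 = 0 := hS.ort 0 2 (by decide)
  have z23 : B s2 s3 = 0 := hS.ort 1 2 (by decide)
  have h1 : Rt B K s1 := hS.rt 0
  have h2 : Rt B K s2 := hS.rt 1
  have h3 : Rt B K s3 := hS.rt 2
  have p1 : 0 < B s1 s1 := r5_pos hp h1
  rw [← r5_range] at hro hqo
  have t1 : ∀ l, B r (![s1, s2, s3] l) ≠ 0 ↔ l = 0 ∨ l = 1 := by
    intro l
    fin_cases l
    · exact ⟨fun _ => Or.inl rfl, fun _ => r1⟩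
    · exact ⟨fun _ => Or.inr rfl, fun _ => r2⟩
    · exact ⟨fun h => absurd r3 h, fun h => absurd h (by decide)⟩
  have t2 : ∀ l, B q (![s1, s2, s3] l) ≠ 0 ↔ l = 1 ∨ l = 2 := by
    intro l
    fin_cases l
    · exact ⟨fun h => absurd q1 h, fun h => absurd h (by decide)⟩
    · exact ⟨fun _ => Or.inl rfl, fun _ => q2⟩
    · exact ⟨fun _ => Or.inr rfl, fun _ => q3⟩
  obtain ⟨r', hr', -, hrt, -, ra, rb, rc, rd⟩ := norm2 hs hp hS hr hro (i := 0) (j := 1)
    (by decide) t1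
  obtain ⟨q', hq', -, hqt, -, qa, qb, qc, qd⟩ := norm2 hs hp hS hq hqo (i := 1) (j := 2)
    (by decide) t2
  change B r' r' = B s1 s1 at ra
  change B r' r' = B s2 s2 at rb
  change 2 * B r' s1 = B r' r' at rc
  change 2 * B r' s2 = B r' r' at rd
  change B q' q' = B s2 s2 at qa
  change B q' q' = B s3 s3 at qb
  change 2 * B q' s2 = B q' q' at qc
  change 2 * B q' s3 = B q' q' at qd
  have n2 : B s2 s2 = B s1 s1 := by rw [← rb, ra]
  have nq : B q' q' = B s1 s1 := by rw [qa, n2]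
  have n3 : B s3 s3 = B s1 s1 := by rw [← qb, nq]
  rw [ra] at rc rd
  rw [nq] at qc qd
  have r30 : B r' s3 = 0 := by
    by_contra h
    exact absurd ((hrt 2).1 h) (by decide)
  have q10 : B q' s1 = 0 := by
    by_contra h
    exact absurd ((hqt 0).1 h) (by decide)
  have r1' : B r' s1 ≠ 0 := by
    intro h
    rw [h] at rc
    linarith
  obtain ⟨c, -, hc, -⟩ := rt_coef hs hr' hq'
  rw [nq] at hc
  have hne : ∀ y, B y s1 = 0 → r' ≠ y ∧ r' ≠ -y := by
    intro y hy
    constructor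
    · rintro rfl
      exact r1' hy
    · rintro rfl
      apply r1'
      rw [map_neg, LinearMap.neg_apply, hy, neg_zero]
  obtain ⟨c1, c2⟩ := r5_cs hs hp p1 ra nq hc (hne q' q10).1 (hne q' q10).2
  have hsub : Rt B K (q' - s2) := rt_sub hs hp hq' h2 (by rw [qc, n2])
  have hs0 : B (q' - s2) s1 = 0 := by
    rw [map_sub, LinearMap.sub_apply, q10, hs s2 s1, z12, sub_zero]
  have hsn : B (q' - s2) (q' - s2) = B s1 s1 := by
    simp only [map_sub, LinearMap.sub_apply]
    rw [hs s2 q', nq, n2]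
    linarith
  have hsc : 2 * B r' (q' - s2) = ((c - 1 : ℤ) : ℚ) * B s1 s1 := by
    rw [map_sub]
    push_cast
    linarith
  obtain ⟨c3, c4⟩ := r5_cs hs hp p1 ra hsn hsc (hne _ hs0).1 (hne _ hs0).2
  have hcase : c = 0 ∨ c = 1 := by omega
  rcases hcase with rfl | rfl
  · refine ⟨r', q', s3, h1, hr', h2, hq', h3, ra, n2, nq, n3, rc, rd, qc, qd, z12, z13, z23, r30,
      q10, ?_⟩
    rw [Int.cast_zero, zero_mul] at hc
    linarith
  · refine ⟨r', -(q' - s2), -s3, h1, hr', h2, rt_neg hsub, rt_neg h3, ra, n2, ?_, ?_, rc, rd, ?_,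
      ?_, z12, ?_, ?_, ?_, ?_, ?_⟩
    · rw [r5_nn, hsn]
    · rw [r5_nn, n3]
    · rw [map_neg, LinearMap.neg_apply, map_sub, LinearMap.sub_apply, n2]
      linarith
    · rw [r5_nn, map_sub, LinearMap.sub_apply, z23]
      linarith
    · rw [map_neg, z13, neg_zero]
    · rw [map_neg, z23, neg_zero]
    · rw [map_neg, r30, neg_zero]
    · rw [map_neg, LinearMap.neg_apply, hs0, neg_zero]
    · rw [map_neg]
      rw [Int.cast_sub, Int.cast_one, sub_self, zero_mul] at hsc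
      linarith

end RH6
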