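import Pool.Agent.RH6.NDef

namespace RH6

variable {V : Type*} [AddCommGroup V] [Module ℚ V]

/-- projection to the complement of an orthogonal family -/
noncomputable def pr (B : LinearMap.BilinForm ℚ V) {k : ℕ} (s : Fin k → V) (r : V) : V :=
  r - ∑ i, (B r (s i) / B (s i) (s i)) • s i

/-- `s` is an orthogonal family of roots of `K` which cannot be extended -/
structure MaxO (B : LinearMap.BilinForm ℚ V) (K : AddSubgroup V) {k : ℕ} (s : Fin k → V) :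
    Prop where
  rt : ∀ i, Rt B K (s i)
  ort : ∀ i j, i ≠ j → B (s i) (s j) = 0
  max : ∀ r, Rt B K r → ∃ i, B r (s i) ≠ 0

/-- two orthogonal `A_2` and `s3` -/
structure Alpha (B : LinearMap.BilinForm ℚ V) (K : AddSubgroup V) (s1 r s2 q s3 : V) : Prop where
  h1 : Rt B K s1
  hr : Rt B K r
  h2 : Rt B K s2
  hq : Rt B K q
  h3 : Rt B K s3
  rr : B r r = B s1 s1
  rs : 2 * B r s1 = B s1 s1
  qq : B q q = B s2 s2
  qs : 2 * B q s2 = B s2 s2
  z12 : B s1 s2 = 0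
  z13 : B s1 s3 = 0
  z23 : B s2 s3 = 0
  zr2 : B r s2 = 0
  zr3 : B r s3 = 0
  zq1 : B q s1 = 0
  zq3 : B q s3 = 0
  zrq : B r q = 0

/-- an `A_4` (chain `s1 - r - q - s2`, all adjacent products `n/2`) and `s3` -/
structure Beta (B : LinearMap.BilinForm ℚ V) (K : AddSubgroup V) (s1 r q s2 s3 : V) : Prop where
  h1 : Rt B K s1
  hr : Rt B K r
  hq : Rt B K q
  h2 : Rt B K s2
  h3 : Rt B K s3
  rr : B r r = B s1 s1
  qq : B q q = B s1 s1
  ss : B s2 s2 = B s1 s1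
  rs : 2 * B r s1 = B s1 s1
  rq : 2 * B r q = B s1 s1
  qs : 2 * B q s2 = B s1 s1
  z12 : B s1 s2 = 0
  z13 : B s1 s3 = 0
  z23 : B s2 s3 = 0
  zr2 : B r s2 = 0
  zr3 : B r s3 = 0
  zq1 : B q s1 = 0
  zq3 : B q s3 = 0

/-- an `A_5` (chain `s1 - r - s2 - q - s3`, all adjacent products `n/2`) -/
structure Gamma (B : LinearMap.BilinForm ℚ V) (K : AddSubgroup V) (s1 r s2 q s3 : V) : Prop where
  h1 : Rt B K s1
  hr : Rt B K r
  h2 : Rt B K s2
  hq : Rt B K q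
  h3 : Rt B K s3
  rr : B r r = B s1 s1
  s22 : B s2 s2 = B s1 s1
  qq : B q q = B s1 s1
  s33 : B s3 s3 = B s1 s1
  rs1 : 2 * B r s1 = B s1 s1
  rs2 : 2 * B r s2 = B s1 s1
  qs2 : 2 * B q s2 = B s1 s1
  qs3 : 2 * B q s3 = B s1 s1
  z12 : B s1 s2 = 0
  z13 : B s1 s3 = 0
  z23 : B s2 s3 = 0
  zr3 : B r s3 = 0
  zq1 : B q s1 = 0
  zrq : B r q = 0

end RH6
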