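import Pool.Agent.RH6.T1

namespace RH6

/-! Row [RH-S1]: states of the tree search. -/

theorem s1_beq (a b : ℕ) : (Nat.beq a b = true) ↔ a = b :=
  ⟨Nat.eq_of_beq_eq_true, fun h => h ▸ Nat.beq_refl a⟩

theorem s1_beq_true {a b : ℕ} (h : a = b) : Nat.beq a b = true := (s1_beq a b).2 h

theorem s1_beq_false {a b : ℕ} (h : a ≠ b) : Nat.beq a b = false := by
  rw [← Bool.not_eq_true, s1_beq]
  exact h

theorem s1_eqP (a b : ℕ × ℕ) : eqP a b = true ↔ a = b := by
  unfold eqP
  rw [Bool.and_eq_true, s1_beq, s1_beq, Prod.ext_iff]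

theorem s1_eqSt : ∀ s t : St, eqSt s t = true ↔ s = t
  | [], [] => by simp [eqSt]
  | [], c :: t => by simp [eqSt]
  | a :: s, [] => by simp [eqSt]
  | a :: s, c :: t => by
    rw [eqSt, Bool.and_eq_true, s1_eqP, s1_eqSt s t, List.cons.injEq]

theorem memSt_iff {s : St} {l : List St} : memSt s l = true ↔ s ∈ l := by
  induction l with
  | nil => simp [memSt]
  | cons t l ih => rw [memSt, Bool.or_eq_true, s1_eqSt, ih, List.mem_cons]

theorem s1_lookup_cons_self (b c r : ℕ) (tab : List (ℕ × ℕ × ℕ)) :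
    lookupB b ((b, c, r) :: tab) = some (c, r) := by
  rw [lookupB, s1_beq_true rfl]
  rfl

theorem s1_lookup_cons_ne {b b' c r : ℕ} (h : b ≠ b') (tab : List (ℕ × ℕ × ℕ)) :
    lookupB b ((b', c, r) :: tab) = lookupB b tab := by
  rw [lookupB, s1_beq_false h]
  rfl

theorem s1_ok : ∀ (l : St) (tab : List (ℕ × ℕ × ℕ)) (c : ℕ), c + l.length ≤ 5 →
    (∀ b c' r, lookupB b tab = some (c', r) → c' < 5 ∧ Odd r ∧ Squarefree r) →
    (∀ p ∈ l, Odd p.2 ∧ Squarefree p.2) →
    (canonAux l tab c).length = l.length ∧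
      ∀ p ∈ canonAux l tab c, p.1 < 5 ∧ Odd p.2 ∧ Squarefree p.2
  | [], tab, c, _, _, _ => by simp [canonAux]
  | (b, r) :: t, tab, c, hc, h1, h2 => by
    have ht : ∀ p ∈ t, Odd p.2 ∧ Squarefree p.2 := fun p hp => h2 p (List.mem_cons_of_mem _ hp)
    have hr := h2 (b, r) List.mem_cons_self
    simp only [List.length_cons] at hc
    unfold canonAux
    cases hl : lookupB b tab with
    | none =>
      simp only
      obtain ⟨h3, h4⟩ := s1_ok t ((b, c, r) :: tab) (Nat.succ c) (by omega) (by
        intro b0 c' r' h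
        by_cases hb : b0 = b
        · subst hb
          rw [s1_lookup_cons_self] at h
          simp only [Option.some.injEq, Prod.mk.injEq] at h
          obtain ⟨rfl, rfl⟩ := h
          exact ⟨by omega, hr.1, hr.2⟩
        · rw [s1_lookup_cons_ne hb] at h
          exact h1 b0 c' r' h) ht
      refine ⟨by rw [List.length_cons, h3, List.length_cons], ?_⟩
      intro p hp
      rcases List.mem_cons.1 hp with rfl | hp
      · exact ⟨by simp only; omega, odd_one, squarefree_one⟩
      · exact h4 p hp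
    | some v =>
      obtain ⟨c', base⟩ := v
      simp only
      obtain ⟨h5, h6, h7⟩ := h1 b c' base hl
      obtain ⟨h3, h4⟩ := s1_ok t tab c (by omega) h1 ht
      refine ⟨by rw [List.length_cons, h3, List.length_cons], ?_⟩
      intro p hp
      rcases List.mem_cons.1 hp with rfl | hp
      · exact ⟨h5, del_odd hr.1 h6, del_sq hr.2 h7⟩
      · exact h4 p hp

/-- the blocks in a list or in a table -/
def s1_K (l : St) (tab : List (ℕ × ℕ × ℕ)) (b : ℕ) : Prop :=
  (∃ v, lookupB b tab = some v) ∨ ∃ p ∈ l, p.1 = b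

theorem s1_main : ∀ (l : St) (tab : List (ℕ × ℕ × ℕ)) (c : ℕ),
    (∀ b c' r, lookupB b tab = some (c', r) → c' < c ∧ Squarefree r) →
    (∀ b b' c' r r', lookupB b tab = some (c', r) → lookupB b' tab = some (c', r') → b = b') →
    (∀ p ∈ l, Squarefree p.2) →
    ∃ N Bs : ℕ → ℕ,
      (∀ b c' r, lookupB b tab = some (c', r) → N b = c' ∧ Bs b = r) ∧
      canonAux l tab c = l.map (fun p => (N p.1, del p.2 (Bs p.1))) ∧
      (∀ p ∈ l, Squarefree (Bs p.1)) ∧
      (∀ b b', s1_K l tab b → s1_K l tab b' → N b = N b' → b = b')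
  | [], tab, c, _, h2, _ => by
    refine ⟨fun b => ((lookupB b tab).getD (0, 0)).1, fun b => ((lookupB b tab).getD (0, 0)).2,
      ?_, rfl, by simp, ?_⟩
    · intro b c' r h
      simp only [h, Option.getD_some, and_self]
    · rintro b b' (⟨⟨c1, r1⟩, h⟩ | ⟨p, hp, -⟩) (⟨⟨c2, r2⟩, h'⟩ | ⟨p', hp', -⟩) he
      · simp only [h, h', Option.getD_some] at he
        subst he
        exact h2 _ _ _ _ _ h h'
      · exact absurd hp' (List.not_mem_nil)
      · exact absurd hp (List.not_mem_nil)
      · exact absurd hp (List.not_mem_nil)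
  | (b, r) :: t, tab, c, h1, h2, h3 => by
    have ht : ∀ p ∈ t, Squarefree p.2 := fun p hp => h3 p (List.mem_cons_of_mem _ hp)
    have hr : Squarefree r := h3 (b, r) List.mem_cons_self
    unfold canonAux
    cases hl : lookupB b tab with
    | none =>
      simp only
      obtain ⟨N, Bs, k1, k2, k3, k4⟩ := s1_main t ((b, c, r) :: tab) (Nat.succ c) (by
        intro b0 c' r' h
        by_cases hb : b0 = b
        · subst hb
          rw [s1_lookup_cons_self] at h
          simp only [Option.some.injEq, Prod.mk.injEq] at h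
          obtain ⟨rfl, rfl⟩ := h
          exact ⟨Nat.lt_succ_self _, hr⟩
        · rw [s1_lookup_cons_ne hb] at h
          obtain ⟨h4, h5⟩ := h1 b0 c' r' h
          exact ⟨Nat.lt_succ_of_lt h4, h5⟩) (by
        intro b1 b2 c' r1 r2 e1 e2
        by_cases hb1 : b1 = b
        · by_cases hb2 : b2 = b
          · rw [hb1, hb2]
          · rw [hb1, s1_lookup_cons_self] at e1
            rw [s1_lookup_cons_ne hb2] at e2
            simp only [Option.some.injEq, Prod.mk.injEq] at e1
            have := (h1 b2 c' r2 e2).1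
            omega
        · by_cases hb2 : b2 = b
          · rw [hb2, s1_lookup_cons_self] at e2
            rw [s1_lookup_cons_ne hb1] at e1
            simp only [Option.some.injEq, Prod.mk.injEq] at e2
            have := (h1 b1 c' r1 e1).1
            omega
          · rw [s1_lookup_cons_ne hb1] at e1
            rw [s1_lookup_cons_ne hb2] at e2
            exact h2 b1 b2 c' r1 r2 e1 e2) ht
      obtain ⟨k5, k6⟩ := k1 b c r (s1_lookup_cons_self b c r tab)
      refine ⟨N, Bs, ?_, ?_, ?_, ?_⟩
      · intro b0 c' r' h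
        have hb : b0 ≠ b := by
          rintro rfl
          rw [hl] at h
          exact absurd h (by simp)
        exact k1 b0 c' r' (by rw [s1_lookup_cons_ne hb, h])
      · rw [k2, List.map_cons, k5, k6, del_self (Nat.pos_of_ne_zero hr.ne_zero)]
      · intro p hp
        rcases List.mem_cons.1 hp with rfl | hp
        · rw [k6]
          exact hr
        · exact k3 p hp
      · intro b1 b2 hb1 hb2
        have key : ∀ b0, s1_K ((b, r) :: t) tab b0 → s1_K t ((b, c, r) :: tab) b0 := by
          rintro b0 (⟨v, hv⟩ | ⟨p, hp, rfl⟩)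
          · left
            by_cases hb : b0 = b
            · subst hb
              exact ⟨_, s1_lookup_cons_self _ _ _ _⟩
            · exact ⟨v, by rw [s1_lookup_cons_ne hb, hv]⟩
          · rcases List.mem_cons.1 hp with rfl | hp
            · left
              exact ⟨_, s1_lookup_cons_self _ _ _ _⟩
            · right
              exact ⟨p, hp, rfl⟩
        exact k4 b1 b2 (key b1 hb1) (key b2 hb2)
    | some v =>
      obtain ⟨c', base⟩ := v
      simp only
      obtain ⟨N, Bs, k1, k2, k3, k4⟩ := s1_main t tab c h1 h2 ht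
      obtain ⟨k5, k6⟩ := k1 b c' base hl
      refine ⟨N, Bs, k1, ?_, ?_, ?_⟩
      · rw [k2, List.map_cons, k5, k6]
      · intro p hp
        rcases List.mem_cons.1 hp with rfl | hp
        · rw [k6]
          exact (h1 b c' base hl).2
        · exact k3 p hp
      · intro b1 b2 hb1 hb2
        have key : ∀ b0, s1_K ((b, r) :: t) tab b0 → s1_K t tab b0 := by
          rintro b0 (⟨v, hv⟩ | ⟨p, hp, rfl⟩)
          · exact Or.inl ⟨v, hv⟩
          · rcases List.mem_cons.1 hp with rfl | hp
            · left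
              exact ⟨_, hl⟩
            · right
              exact ⟨p, hp, rfl⟩
        exact k4 b1 b2 (key b1 hb1) (key b2 hb2)

theorem s1_del_del {a b c : ℕ} (ha : Squarefree a) (hb : Squarefree b) (hc : Squarefree c) :
    del (del a c) (del b c) = del a b := by
  rw [del_assoc ha hc (del_sq hb hc), del_comm b c, ← del_assoc hc hc hb,
    del_self (Nat.pos_of_ne_zero hc.ne_zero), del_comm 1 b, del_one]

theorem s1_getD_map {s : St} {i : ℕ} (hi : i < s.length) (f : ℕ × ℕ → ℕ × ℕ) :
    (s.map f).getD i (0, 0) = f (s.getD i (0, 0)) := by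
  rw [List.getD_eq_getElem _ _ (by rwa [List.length_map]), List.getD_eq_getElem _ _ hi,
    List.getElem_map]

theorem s1_getD_mem {s : St} (h : s.length = 5) (i : Fin 5) : s.getD i (0, 0) ∈ s := by
  have hi : (i : ℕ) < s.length := by
    rw [h]
    exact i.2
  rw [List.getD_eq_getElem _ _ hi]
  exact List.getElem_mem hi

theorem s1_mem {s : St} (h : s.length = 5) {p : ℕ × ℕ} (hp : p ∈ s) :
    ∃ i : Fin 5, p = s.getD i (0, 0) := by
  obtain ⟨n, hn, he⟩ := List.getElem_of_mem hp
  refine ⟨⟨n, by omega⟩, ?_⟩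
  rw [List.getD_eq_getElem _ _ hn]
  exact he.symm

/-- Row [RH-S1]: `canonSt` renumbers the blocks and divides (`del`) all `r` of a block by the `r` of
the first entry of the block.

Proof idea: invariant for `canonAux l tab c`: `tab` has distinct keys, its values `(c',base)` have
distinct `c' < c`, and the result replaces an entry `(b,r)` with `b` in `tab` by `(c', del r base)`.
Entries have the same new block number iff they had the same old block number; and
`del (del r base) (del r' base) = del r r'` (`del_assoc`, `del_comm`, `del_self`, squarefree). -/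
theorem canon_ok {s : St} (h : StOK s) : StOK (canonSt s) := by
  obtain ⟨h1, h2⟩ := s1_ok s [] 0 (by rw [h.1]) (by
    intro b c' r hl
    simp [lookupB] at hl) (fun p hp => (h.2 p hp).2)
  exact ⟨by rw [← h.1]; exact h1, h2⟩

theorem canon_match {s : St} (h : StOK s) {m : Fin 5 → ℕ} (hm : Match s m) :
    Match (canonSt s) m := by
  obtain ⟨N, Bs, -, k2, k3, k4⟩ := s1_main s [] 0 (by
    intro b c' r hl
    simp [lookupB] at hl) (by
    intro b b' c' r r' hl
    simp [lookupB] at hl) (fun p hp => (h.2 p hp).2.2)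
  intro i j
  have hi : (i : ℕ) < s.length := by rw [h.1]; exact i.2
  have hj : (j : ℕ) < s.length := by rw [h.1]; exact j.2
  have e : canonSt s = s.map (fun p => (N p.1, del p.2 (Bs p.1))) := k2
  rw [e, s1_getD_map hi, s1_getD_map hj]
  simp only
  intro hN
  have mi := s1_getD_mem h.1 i
  have mj := s1_getD_mem h.1 j
  have hb := k4 _ _ (Or.inr ⟨_, mi, rfl⟩) (Or.inr ⟨_, mj, rfl⟩) hN
  rw [hm i j hb, ← hb]
  exact (s1_del_del (h.2 _ mi).2.2 (h.2 _ mj).2.2 (k3 _ mi)).symm

/-- Row [RH-S1]: `xb` has for some blocks `b ≠ blk` an entry with `del (xb b) r_i = m_i` for all `i`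
in the block, and `r_i = m_i` for `i` in the block `blk`; then the merged state matches (in the
merged block all `r` are `m_i`). -/
theorem merge_match {blk : ℕ} (hb : blk < 5) {xb : List ℕ} {s : St} (h : StOK s)
    {m : Fin 5 → ℕ} (hmo : ∀ i, Odd (m i) ∧ Squarefree (m i)) (hm : Match s m)
    (h1 : ∀ i : Fin 5, (s.getD i (0, 0)).1 = blk → m i = (s.getD i (0, 0)).2)
    (h2 : ∀ i : Fin 5, xb.getD (s.getD i (0, 0)).1 0 ≠ 0 → (s.getD i (0, 0)).1 ≠ blk →
      m i = del (xb.getD (s.getD i (0, 0)).1 0) (s.getD i (0, 0)).2) :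
    Match (mergeSt blk xb s) m ∧ StOK (mergeSt blk xb s) := by
  obtain ⟨hlen, hent⟩ := h
  have hkey : ∀ i : Fin 5,
      ((mergeSt blk xb s).getD i (0, 0) = (blk, m i)) ∨
      ((mergeSt blk xb s).getD i (0, 0) = s.getD i (0, 0) ∧ (s.getD i (0, 0)).1 ≠ blk) := by
    intro i
    have hi : (i : ℕ) < s.length := by rw [hlen]; exact i.2
    unfold mergeSt
    rw [s1_getD_map hi]
    by_cases hb1 : (s.getD i (0, 0)).1 = blk
    · left
      rw [s1_beq_true hb1, cond_true, h1 i hb1, ← hb1]
    · by_cases hx : xb.getD (s.getD i (0, 0)).1 0 = 0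
      · right
        rw [s1_beq_false hb1, cond_false, s1_beq_true hx, cond_true]
        exact ⟨rfl, hb1⟩
      · left
        rw [s1_beq_false hb1, cond_false, s1_beq_false hx, cond_false, ← h2 i hx hb1]
  have hlen' : (mergeSt blk xb s).length = 5 := by
    unfold mergeSt
    rw [List.length_map, hlen]
  refine ⟨?_, hlen', ?_⟩
  · intro i j
    rcases hkey i with hi | ⟨hi, hi'⟩
    · rcases hkey j with hj | ⟨hj, hj'⟩
      · intro _
        rw [hi, hj]
      · intro hij
        rw [hi, hj] at hij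
        exact absurd hij.symm hj'
    · rcases hkey j with hj | ⟨hj, hj'⟩
      · intro hij
        rw [hi, hj] at hij
        exact absurd hij hi'
      · intro hij
        rw [hi, hj] at hij ⊢
        exact hm i j hij
  · intro p hp
    obtain ⟨i, rfl⟩ := s1_mem hlen' hp
    rcases hkey i with hi | ⟨hi, -⟩
    · rw [hi]
      exact ⟨hb, (hmo i).1, (hmo i).2⟩
    · rw [hi]
      exact hent _ (s1_getD_mem hlen i)

/-- Row [RH-S1]: equal entries (same block and same `r`) mean `m i = m j` (`del (m i) (m j) = 1`) -/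
theorem forb_match {fb : List (ℕ × ℕ)} {s : St} (h : StOK s) {m : Fin 5 → ℕ}
    (hmo : ∀ i, Odd (m i) ∧ Squarefree (m i)) (hm : Match s m) (hf : forb fb s = true)
    (hfb : ∀ p ∈ fb, p.1 < 5 ∧ p.2 < 5) :
    ∃ i j : Fin 5, ((i : ℕ), (j : ℕ)) ∈ fb ∧ m i = m j := by
  unfold forb at hf
  rw [List.any_eq_true] at hf
  obtain ⟨p, hp, he⟩ := hf
  rw [s1_eqP] at he
  obtain ⟨hp1, hp2⟩ := hfb p hp
  refine ⟨⟨p.1, hp1⟩, ⟨p.2, hp2⟩, hp, ?_⟩
  have h1 := hm ⟨p.1, hp1⟩ ⟨p.2, hp2⟩ (congrArg Prod.fst he)
  have h2 := (h.2 _ (s1_getD_mem h.1 ⟨p.2, hp2⟩)).2.1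
  simp only at h1 h2
  rw [he, del_self h2.pos] at h1
  rw [t1_def] at h1
  obtain ⟨h3, h4⟩ := mul_eq_one.1 h1
  have h5 := Nat.eq_mul_of_div_eq_right (Nat.gcd_dvd_left _ _) h3
  have h6 := Nat.eq_mul_of_div_eq_right (Nat.gcd_dvd_right _ _) h4
  rw [mul_one] at h5 h6
  exact h5.trans h6.symm

end RH6
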