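import Pool.Agent.RH6.T1

namespace RH6

/-! Row [RH-S2]: the elementary loops of the checker. -/

theorem s2_uall {w rem : ℕ} {F : ℕ → Bool} {u : ℕ} (hu2 : w * (u * u) ≤ rem) (fuel : ℕ) :
    ∀ s : ℕ, s ≤ u → u < s + fuel → uall w rem F fuel s = true → F u = true := by
  induction fuel with
  | zero => intro s h1 h2 _; omega
  | succ fuel ih =>
    intro s h1 h2 h
    unfold uall at h
    have h3 : Nat.ble (Nat.mul w (Nat.mul s s)) rem = true := by
      rw [Nat.ble_eq]
      exact le_trans (Nat.mul_le_mul_left w (Nat.mul_le_mul h1 h1)) hu2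
    rw [h3, cond_true, Bool.and_eq_true] at h
    rcases Nat.eq_or_lt_of_le h1 with h4 | h4
    · rw [← h4]
      exact h.1
    · exact ih (s + 1) h4 (by omega) h.2

theorem s2_mem_odd : ∀ d < 129, d % 2 = 1 → d ∈ oddsqf ∨ d % 9 = 0 ∨ d % 25 = 0 ∨ d % 49 = 0 ∨
    d % 121 = 0 := by
  decide

theorem s2_mem {d : ℕ} (hd : Odd d) (hs : Squarefree d) (h128 : d ≤ 128) : d ∈ oddsqf := by
  have h1 : ∀ p : ℕ, 1 < p → d % (p * p) ≠ 0 := by
    intro p hp h
    have h2 := hs p (Nat.dvd_of_mod_eq_zero h)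
    rw [Nat.isUnit_iff] at h2
    omega
  rcases s2_mem_odd d (by omega) (Nat.odd_iff.1 hd) with h | h | h | h | h
  · exact h
  · exact absurd h (h1 3 (by norm_num))
  · exact absurd h (h1 5 (by norm_num))
  · exact absurd h (h1 7 (by norm_num))
  · exact absurd h (h1 11 (by norm_num))

theorem s2_sorted : oddsqf.Pairwise (· < ·) := by
  unfold oddsqf
  decide

theorem s2_dall {F : ℕ → Bool} {bd : ℕ} (l : List ℕ) (hl : l.Pairwise (· < ·))
    (h : dall F bd l = true) {d : ℕ} (hd : d ∈ l) (hb : d ≤ bd) : F d = true := by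
  induction l with
  | nil => exact absurd hd List.not_mem_nil
  | cons a t ih =>
    rw [List.pairwise_cons] at hl
    unfold dall at h
    have h1 : a ≤ bd := by
      rcases List.mem_cons.1 hd with h2 | h2
      · rw [← h2]; exact hb
      · exact le_trans (hl.1 d h2).le hb
    rw [Nat.ble_eq_true_of_le h1, cond_true, Bool.and_eq_true] at h
    rcases List.mem_cons.1 hd with h2 | h2
    · rw [h2]; exact h.1
    · exact ih hl.2 h.2 h2

theorem uall_sound {w rem : ℕ} {F : ℕ → Bool} (hw : 0 < w) (hr : rem ≤ 128)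
    (h : uall w rem F 14 1 = true) {u : ℕ} (hu : 1 ≤ u) (hu2 : w * (u * u) ≤ rem) :
    F u = true := by
  refine s2_uall hu2 14 1 hu ?_ h
  by_contra h1
  have h2 : 15 ≤ u := by omega
  have h3 : 15 * 15 ≤ u * u := Nat.mul_le_mul h2 h2
  have h4 : u * u ≤ w * (u * u) := Nat.le_mul_of_pos_left _ hw
  omega

theorem dall_sound {F : ℕ → Bool} {bd : ℕ} (h : dall F bd oddsqf = true) {d : ℕ}
    (hd : Odd d) (hs : Squarefree d) (hb : d ≤ bd) (h128 : d ≤ 128) : F d = true := by
  exact s2_dall oddsqf s2_sorted h (s2_mem hd hs h128) hb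

theorem jall_sound {F : ℕ → Bool} {n : ℕ} (h : jall F n = true) {j : ℕ} (hj : j ≤ n) :
    F j = true := by
  induction n with
  | zero =>
    have h1 : j = 0 := by omega
    rw [h1]
    exact h
  | succ n ih =>
    unfold jall at h
    rw [Bool.and_eq_true] at h
    rcases Nat.eq_or_lt_of_le hj with h1 | h1
    · rw [h1]; exact h.1
    · exact ih h.2 (by omega)

/-- Row [RH-S2]: the configurations used -/
structure CfOK (cf : Cfg) : Prop where
  l : cf.l = 2 ∨ cf.l = 4
  M : cf.M = 16 * cf.l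
  odd : Odd cf.mu
  sq : Squarefree cf.mu

/-- one coordinate: if `y ≡ l x mod 16 l` then `one` calls the continuation with the bit of `x`
added and `s` increased by `A q k x` modulo 16 -/
theorem one_sound {cf : Cfg} (hcf : CfOK cf) {c : Co} {y wp s : ℕ} {K : ℕ → ℕ → Bool} {x : ℤ}
    (hy : ∃ t : ℤ, (y : ℤ) = cf.l * x + 16 * cf.l * t) (h : one cf c y wp s K = true) :
    ∃ s' : ℕ, (∃ t : ℤ, (s' : ℤ) = s + c.A * c.q * c.k * x + 16 * t) ∧
      K (wp + if x % 2 = 1 then c.bit else 0) s' = true := by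
  obtain ⟨t, ht⟩ := hy
  have hl : 0 < cf.l := by
    rcases hcf.l with h1 | h1 <;> rw [h1] <;> norm_num
  have h1 : (y : ℤ) = cf.l * (x + 16 * t) := by rw [ht]; ring
  have h2 : 0 ≤ x + 16 * t := by
    by_contra h2
    have h3 : (cf.l : ℤ) * (x + 16 * t) < 0 :=
      mul_neg_of_pos_of_neg (by exact_mod_cast hl) (by omega)
    omega
  obtain ⟨e, he⟩ := Int.eq_ofNat_of_zero_le h2
  have h3 : y = cf.l * e := by
    rw [he] at h1
    exact_mod_cast h1
  have h4 : y % cf.l = 0 := by rw [h3]; exact Nat.mul_mod_right _ _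
  have h5 : y / cf.l = e := by rw [h3]; exact Nat.mul_div_cancel_left _ hl
  unfold one at h
  have h6 : Nat.mod y cf.l = 0 := h4
  have h7 : Nat.div y cf.l = e := h5
  rw [h6, h7] at h
  have h8 : Nat.beq 0 0 = true := rfl
  rw [h8, cond_true] at h
  refine ⟨Nat.mod (Nat.add s (Nat.mul (Nat.mul c.A c.q) (Nat.mul e c.k))) 16, ?_, ?_⟩
  · have h9 : Nat.mod (Nat.add s (Nat.mul (Nat.mul c.A c.q) (Nat.mul e c.k))) 16 =
        (s + c.A * c.q * (e * c.k)) % 16 := rfl
    rw [h9]
    refine ⟨c.A * c.q * c.k * t - ((s + c.A * c.q * (e * c.k) : ℕ) : ℤ) / 16, ?_⟩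
    have h10 : (((s + c.A * c.q * (e * c.k)) % 16 : ℕ) : ℤ) =
        ((s + c.A * c.q * (e * c.k) : ℕ) : ℤ) -
          16 * (((s + c.A * c.q * (e * c.k) : ℕ) : ℤ) / 16) := by
      rw [Int.natCast_mod]
      have := Int.emod_add_mul_ediv ((s + c.A * c.q * (e * c.k) : ℕ) : ℤ) 16
      push_cast at this ⊢
      linarith
    rw [h10]
    have h11 : ((s + c.A * c.q * (e * c.k) : ℕ) : ℤ) =
        s + c.A * c.q * ((x + 16 * t) * c.k) := by
      rw [he]
      push_cast
      ring
    rw [h11]
    ring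
  · have h9 : (bif Nat.beq (Nat.mod e 2) 1 then Nat.add wp c.bit else wp) =
        wp + if x % 2 = 1 then c.bit else 0 := by
      have h10 : Nat.mod e 2 = e % 2 := rfl
      rw [h10]
      by_cases hx : x % 2 = 1
      · have h11 : e % 2 = 1 := by omega
        rw [if_pos hx, h11]
        rfl
      · have h11 : e % 2 = 0 := by omega
        rw [if_neg hx, h11]
        rfl
    rw [← h9]
    exact h

/-- `updFl a fl ws` adds `a w_t` to `fl_t` modulo 16 -/
theorem updFl_sound {a : ℕ} {fl ws : List ℕ} (h : ws.length = fl.length ∨ fl = []) :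
    (updFl a fl ws).length = fl.length ∧ (∀ f ∈ updFl a fl ws, f < 16) ∧
      ∀ t < fl.length, ∃ e : ℤ, (((updFl a fl ws).getD t 0 : ℕ) : ℤ) =
        (fl.getD t 0 : ℕ) + a * (ws.getD t 0 : ℕ) + 16 * e := by
  induction fl generalizing ws with
  | nil =>
    refine ⟨by simp [updFl], by simp [updFl], ?_⟩
    intro t ht
    simp at ht
  | cons f fs ih =>
    cases ws with
    | nil => simp at h
    | cons y ys =>
      have h1 : ys.length = fs.length := by
        rcases h with h | h
        · simpa using h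
        · simp at h
      obtain ⟨i1, i2, i3⟩ := ih (ws := ys) (Or.inl h1)
      refine ⟨?_, ?_, ?_⟩
      · simp only [updFl, List.length_cons]
        rw [i1]
      · intro g hg
        simp only [updFl, List.mem_cons] at hg
        rcases hg with rfl | hg
        · exact Nat.mod_lt _ (by norm_num)
        · exact i2 g hg
      · intro t ht
        cases t with
        | zero =>
          simp only [updFl, List.getD_cons_zero]
          have h9 : Nat.mod (Nat.add f (Nat.mul a y)) 16 = (f + a * y) % 16 := rfl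
          rw [h9]
          refine ⟨-(((f + a * y : ℕ) : ℤ) / 16), ?_⟩
          rw [Int.natCast_mod]
          have := Int.emod_add_mul_ediv ((f + a * y : ℕ) : ℤ) 16
          push_cast at this ⊢
          linarith
        | succ t =>
          simp only [updFl, List.getD_cons_succ]
          exact i3 t (by simpa using ht)

theorem allZero_of {fl : List ℕ} (h : ∀ f ∈ fl, f < 16)
    (h0 : ∀ t < fl.length, ∃ e : ℤ, ((fl.getD t 0 : ℕ) : ℤ) = 16 * e) : allZero fl = true := by
  induction fl with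
  | nil => rfl
  | cons f fs ih =>
    have h1 : f = 0 := by
      obtain ⟨e, he⟩ := h0 0 (by simp)
      rw [List.getD_cons_zero] at he
      have := h f List.mem_cons_self
      omega
    unfold allZero
    rw [h1, Bool.and_eq_true]
    refine ⟨rfl, ih (fun g hg => h g (List.mem_cons_of_mem _ hg)) fun t ht => ?_⟩
    have := h0 (t + 1) (by simpa using ht)
    rwa [List.getD_cons_succ] at this

/-- Row [RH-S2]: the numbers `d`, `f`, `u` of a coordinate `z ≠ 0` with `μ ∣ m z`:
`f = μ / gcd(μ,m)` divides `z`, `|z| = f u`, and `m z² = μ · (del μ m) u²`. -/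
theorem coord_num {mu m : ℕ} (h1 : Odd mu) (h2 : Squarefree mu) (h3 : Odd m) (h4 : Squarefree m)
    {z : ℤ} (hz : z ≠ 0) (hd : (mu : ℤ) ∣ m * z) :
    ∃ u : ℕ, 1 ≤ u ∧ z.natAbs = mu / Nat.gcd mu m * u ∧
      m * z.natAbs ^ 2 = mu * (del mu m * u ^ 2) := by
  have hmu : 0 < mu := Nat.pos_of_ne_zero h2.ne_zero
  set g := Nat.gcd mu m with hg
  have hg0 : 0 < g := Nat.gcd_pos_of_pos_left _ hmu
  obtain ⟨a, ha⟩ : g ∣ mu := Nat.gcd_dvd_left _ _
  obtain ⟨b, hb⟩ : g ∣ m := Nat.gcd_dvd_right _ _
  have ha' : mu / g = a := by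
    conv_lhs => rw [ha]
    exact Nat.mul_div_cancel_left _ hg0
  have hb' : m / g = b := by
    conv_lhs => rw [hb]
    exact Nat.mul_div_cancel_left _ hg0
  have hcop : Nat.Coprime a b := by
    rw [← ha', ← hb']
    exact Nat.coprime_div_gcd_div_gcd hg0
  have hdn : mu ∣ m * z.natAbs := by
    have h5 := Int.natAbs_dvd_natAbs.2 hd
    rw [Int.natAbs_mul] at h5
    exact h5
  have h6 : a ∣ b * z.natAbs := by
    have h7 : g * a ∣ g * (b * z.natAbs) := by
      rw [← ha, ← mul_assoc, ← hb]
      exact hdn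
    exact Nat.dvd_of_mul_dvd_mul_left hg0 h7
  obtain ⟨u, hu⟩ : a ∣ z.natAbs := hcop.dvd_of_dvd_mul_left h6
  have hz' : z.natAbs ≠ 0 := Int.natAbs_ne_zero.2 hz
  have hu0 : u ≠ 0 := by
    rintro rfl
    rw [mul_zero] at hu
    exact hz' hu
  refine ⟨u, Nat.one_le_iff_ne_zero.2 hu0, ?_, ?_⟩
  · rw [ha']
    exact hu
  · have h8 : del mu m = a * b := by
      change (mu / g) * (m / g) = a * b
      rw [ha', hb']
    rw [h8, hu, hb]
    conv_rhs => rw [ha]
    ring

theorem s2_memN {a : ℕ} {l : List ℕ} (h : memN a l = true) : a ∈ l := by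
  induction l with
  | nil => exact absurd h (by simp [memN])
  | cons b t ih =>
    unfold memN at h
    rw [Bool.or_eq_true] at h
    rcases h with h | h
    · rw [Nat.eq_of_beq_eq_true h]
      exact List.mem_cons_self
    · exact List.mem_cons_of_mem _ (ih h)

theorem s2_muL_acc (r bd : ℕ) (l : List ℕ) : ∀ acc : List ℕ, ∀ x ∈ acc, x ∈ muL r bd l acc := by
  induction l with
  | nil => intro acc x hx; exact hx
  | cons d t ih =>
    intro acc x hx
    unfold muL
    cases h1 : Nat.ble d bd with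
    | false => exact hx
    | true =>
      rw [cond_true]
      cases h2 : memN (del d r) acc with
      | true => exact ih _ x hx
      | false => exact ih _ x (List.mem_cons_of_mem _ hx)

theorem s2_muL_mem (r bd : ℕ) (l : List ℕ) (hl : l.Pairwise (· < ·)) {d : ℕ} (hd : d ∈ l)
    (hb : d ≤ bd) : ∀ acc : List ℕ, del d r ∈ muL r bd l acc := by
  induction l with
  | nil => exact absurd hd List.not_mem_nil
  | cons a t ih =>
    intro acc
    rw [List.pairwise_cons] at hl
    have h1 : a ≤ bd := by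
      rcases List.mem_cons.1 hd with h2 | h2
      · rw [← h2]; exact hb
      · exact le_trans (hl.1 d h2).le hb
    unfold muL
    rw [Nat.ble_eq_true_of_le h1, cond_true]
    rcases List.mem_cons.1 hd with h2 | h2
    · rw [h2]
      apply s2_muL_acc
      cases h3 : memN (del a r) acc with
      | true => exact s2_memN h3
      | false => exact List.mem_cons_self
    · exact ih hl.2 h2 _

theorem s2_muList_acc (rhs : ℕ) (cs : List Co) :
    ∀ acc : List ℕ, ∀ x ∈ acc, x ∈ muList rhs cs acc := by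
  induction cs with
  | nil => intro acc x hx; exact hx
  | cons c t ih =>
    intro acc x hx
    exact ih _ x (s2_muL_acc _ _ _ _ x hx)

theorem s2_muList_mem {rhs : ℕ} {cs : List Co} {c : Co} (hc : c ∈ cs) {d : ℕ} (hd : Odd d)
    (hs : Squarefree d) (hA : 0 < c.A) (hb : c.A * d ≤ rhs) (h128 : rhs ≤ 128) :
    ∀ acc : List ℕ, del d c.r ∈ muList rhs cs acc := by
  induction cs with
  | nil => exact absurd hc List.not_mem_nil
  | cons a t ih =>
    intro acc
    rcases List.mem_cons.1 hc with h2 | h2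
    · unfold muList
      apply s2_muList_acc
      rw [← h2]
      have h3 : d ≤ c.A * d := Nat.le_mul_of_pos_left _ hA
      refine s2_muL_mem _ _ _ s2_sorted (s2_mem hd hs (by omega)) ?_ _
      exact (Nat.le_div_iff_mul_le hA).2 (by rw [mul_comm]; exact hb)
    · unfold muList
      exact ih h2 _

/-- Row [RH-S2]: `muL` and `muList` contain what they should -/
theorem muList_mem {rhs : ℕ} {cs : List Co} {c : Co} (hc : c ∈ cs) {d : ℕ} (hd : Odd d)
    (hs : Squarefree d) (hA : 0 < c.A) (hb : c.A * d ≤ rhs) (h128 : rhs ≤ 128) :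
    del d c.r ∈ muList rhs cs [] := by
  exact s2_muList_mem hc hd hs hA hb h128 []

end RH6
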