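import Pool.Agent.RH6.S2

namespace RH6

/-- the actual data of one coordinate: `z = Z_i`, `x = X_i`, `m = m_i` -/
structure Act where
  z : ℤ
  x : ℤ
  m : ℕ

/-- consistency of a coordinate with the configuration -/
structure CoOK (cf : Cfg) (c : Co) (a : Act) : Prop where
  hz : a.z = cf.j * c.k + cf.l * a.x
  odd : Odd a.m
  sq : Squarefree a.m
  dvd : (cf.mu : ℤ) ∣ a.m * a.z
  A : 0 < c.A
  jk : cf.j * c.k ≤ cf.M

/-- outer coordinates: block different from the test block -/
def OutOK (cf : Cfg) (X : ℕ → ℕ) (c : Co) (a : Act) : Prop :=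
  CoOK cf c a ∧ a.m % 8 = c.rho ∧ c.b < 5 ∧ Odd c.r ∧ Squarefree c.r ∧ a.m = del (X c.b) c.r

/-- inner coordinates: `m` is known -/
def InnOK (cf : Cfg) (c : Co) (a : Act) : Prop := CoOK cf c a ∧ a.m = c.r

def bitsOf : List Co → List Act → ℕ
  | c :: cs, a :: as => (if a.x % 2 = 1 then c.bit else 0) + bitsOf cs as
  | _, _ => 0

def sumS : List Co → List Act → ℤ
  | c :: cs, a :: as => c.A * c.q * c.k * a.x + sumS cs as
  | _, _ => 0

def sumF (t : ℕ) : List Co → List Act → ℤ
  | c :: cs, a :: as => c.A * c.q * a.z * (c.ws.getD t 0 : ℕ) + sumF t cs as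
  | _, _ => 0

def sumN : List Co → List Act → ℤ
  | c :: cs, a :: as => ((c.np : ℤ) - c.nn) * a.z + sumN cs as
  | _, _ => 0

/-- `∑ A m z²` -/
def sumV : List Co → List Act → ℕ
  | c :: cs, a :: as => c.A * (a.m * a.z.natAbs ^ 2) + sumV cs as
  | _, _ => 0

theorem s3_nz {cf : Cfg} (hcf : CfOK cf) {c : Co} {a : Act} (hco : CoOK cf c a)
    {f u rem dl wp s P N : ℕ} {fl : List ℕ} {G : ℕ → ℕ → ℕ → List ℕ → ℕ → ℕ → Bool}
    (huz : a.z.natAbs = f * u)
    (h : ((one cf c (Nat.mod (Nat.add (Nat.mul f u) (Nat.sub cf.M (Nat.mul cf.j c.k))) cf.M) wp s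
              (fun wp' s' => G (Nat.sub rem (Nat.mul (Nat.mul c.A dl) (Nat.mul u u))) wp' s'
                (updFl (Nat.mul (Nat.mul c.A c.q) (Nat.mul f u)) fl c.ws)
                (Nat.add P (Nat.mul (Nat.mul f u) c.np))
                (Nat.add N (Nat.mul (Nat.mul f u) c.nn)))) &&
            (one cf c (Nat.mod (Nat.add (Nat.sub cf.M (Nat.mod (Nat.mul f u) cf.M))
                (Nat.sub cf.M (Nat.mul cf.j c.k))) cf.M) wp s
              (fun wp' s' => G (Nat.sub rem (Nat.mul (Nat.mul c.A dl) (Nat.mul u u))) wp' s'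
                (updFl (Nat.mul (Nat.mul c.A c.q) (Nat.sub 16 (Nat.mod (Nat.mul f u) 16))) fl c.ws)
                (Nat.add P (Nat.mul (Nat.mul f u) c.nn))
                (Nat.add N (Nat.mul (Nat.mul f u) c.np))))) = true) :
    ∃ s' a' P' N' : ℕ, (∃ t : ℤ, (s' : ℤ) = s + c.A * c.q * c.k * a.x + 16 * t) ∧
      (∃ t : ℤ, (a' : ℤ) = c.A * c.q * a.z + 16 * t) ∧
      (P' : ℤ) - N' = P - N + ((c.np : ℤ) - c.nn) * a.z ∧
      G (rem - c.A * dl * (u * u)) (wp + if a.x % 2 = 1 then c.bit else 0) s'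
        (updFl a' fl c.ws) P' N' = true := by
  rw [Bool.and_eq_true] at h
  obtain ⟨h1, h2⟩ := h
  have hjk := hco.jk
  have hM : (cf.M : ℤ) = 16 * cf.l := by exact_mod_cast hcf.M
  have hz := hco.hz
  rcases Int.natAbs_eq a.z with hp | hn
  · have hp' : a.z = (f : ℤ) * u := by
      rw [hp, huz]
      push_cast
      rfl
    have hy : ∃ t : ℤ, (((f * u + (cf.M - cf.j * c.k)) % cf.M : ℕ) : ℤ) =
        cf.l * a.x + 16 * cf.l * t := by
      refine ⟨1 - (((f * u + (cf.M - cf.j * c.k)) / cf.M : ℕ) : ℤ), ?_⟩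
      have e1 : (((f * u + (cf.M - cf.j * c.k)) % cf.M : ℕ) : ℤ) +
          cf.M * (((f * u + (cf.M - cf.j * c.k)) / cf.M : ℕ) : ℤ) =
          (f : ℤ) * u + (cf.M - cf.j * c.k) := by
        have := Nat.mod_add_div (f * u + (cf.M - cf.j * c.k)) cf.M
        have h3 : (((f * u + (cf.M - cf.j * c.k)) % cf.M +
          cf.M * ((f * u + (cf.M - cf.j * c.k)) / cf.M) : ℕ) : ℤ) =
          ((f * u + (cf.M - cf.j * c.k) : ℕ) : ℤ) := by rw [this]
        rw [Nat.cast_add, Nat.cast_mul] at h3
        rw [h3, Nat.cast_add, Nat.cast_sub hjk]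
        push_cast
        ring
      rw [← hM]
      have e2 : (f : ℤ) * u = cf.j * c.k + cf.l * a.x := by rw [← hp', hz]
      linear_combination e1 + e2
    obtain ⟨s', hs', hK⟩ := one_sound hcf hy h1
    refine ⟨s', c.A * c.q * (f * u), P + f * u * c.np, N + f * u * c.nn, hs', ⟨0, ?_⟩, ?_, hK⟩
    · rw [hp']
      push_cast
      ring
    · rw [hp']
      push_cast
      ring
  · have hn' : a.z = -((f : ℤ) * u) := by
      rw [hn, huz]
      push_cast
      rfl
    have hMpos : 0 < cf.M := by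
      have := hcf.M
      rcases hcf.l with h3 | h3 <;> omega
    have hlt : (f * u) % cf.M ≤ cf.M := (Nat.mod_lt _ hMpos).le
    have hy : ∃ t : ℤ, (((cf.M - (f * u) % cf.M + (cf.M - cf.j * c.k)) % cf.M : ℕ) : ℤ) =
        cf.l * a.x + 16 * cf.l * t := by
      refine ⟨2 - (((cf.M - (f * u) % cf.M + (cf.M - cf.j * c.k)) / cf.M : ℕ) : ℤ) +
        ((f * u / cf.M : ℕ) : ℤ), ?_⟩
      have e1 : (((cf.M - (f * u) % cf.M + (cf.M - cf.j * c.k)) % cf.M : ℕ) : ℤ) +
          cf.M * (((cf.M - (f * u) % cf.M + (cf.M - cf.j * c.k)) / cf.M : ℕ) : ℤ) =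
          (cf.M - (((f * u) % cf.M : ℕ) : ℤ)) + (cf.M - cf.j * c.k) := by
        have := Nat.mod_add_div (cf.M - (f * u) % cf.M + (cf.M - cf.j * c.k)) cf.M
        have h3 : (((cf.M - (f * u) % cf.M + (cf.M - cf.j * c.k)) % cf.M +
          cf.M * ((cf.M - (f * u) % cf.M + (cf.M - cf.j * c.k)) / cf.M) : ℕ) : ℤ) =
          ((cf.M - (f * u) % cf.M + (cf.M - cf.j * c.k) : ℕ) : ℤ) := by rw [this]
        rw [Nat.cast_add, Nat.cast_mul] at h3
        rw [h3, Nat.cast_add, Nat.cast_sub hjk, Nat.cast_sub hlt]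
        push_cast
        ring
      have e3 : (((f * u) % cf.M : ℕ) : ℤ) + cf.M * ((f * u / cf.M : ℕ) : ℤ) = (f : ℤ) * u := by
        have := Nat.mod_add_div (f * u) cf.M
        have h3 : ((f * u % cf.M + cf.M * (f * u / cf.M) : ℕ) : ℤ) = ((f * u : ℕ) : ℤ) := by
          rw [this]
        rw [Nat.cast_add, Nat.cast_mul] at h3
        rw [h3]
        push_cast
        ring
      rw [← hM]
      have e2 : -((f : ℤ) * u) = cf.j * c.k + cf.l * a.x := by rw [← hn', hz]
      linear_combination e1 + e2 - e3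
    obtain ⟨s', hs', hK⟩ := one_sound hcf hy h2
    refine ⟨s', c.A * c.q * (16 - (f * u) % 16), P + f * u * c.nn, N + f * u * c.np, hs',
      ⟨c.A * c.q * (1 + ((f * u / 16 : ℕ) : ℤ)), ?_⟩, ?_, hK⟩
    · have hlt16 : (f * u) % 16 ≤ 16 := (Nat.mod_lt _ (by norm_num)).le
      have e3 : (((f * u) % 16 : ℕ) : ℤ) + 16 * ((f * u / 16 : ℕ) : ℤ) = (f : ℤ) * u := by
        have := Nat.mod_add_div (f * u) 16
        have h3 : ((f * u % 16 + 16 * (f * u / 16) : ℕ) : ℤ) = ((f * u : ℕ) : ℤ) := by
          rw [this]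
        rw [Nat.cast_add, Nat.cast_mul] at h3
        rw [← Nat.cast_mul, ← h3]
        push_cast
        ring
      rw [hn', Nat.cast_mul, Nat.cast_sub hlt16, Nat.cast_mul]
      linear_combination (-(c.A : ℤ) * c.q) * e3
    · rw [hn']
      push_cast
      ring

theorem s3_del {a b : ℕ} (ha : Squarefree a) (hb : Squarefree b) : del (del a b) b = a := by
  rw [del_assoc ha hb hb, del_self (Nat.pos_of_ne_zero hb.ne_zero), del_one]

theorem s3_del' {a b : ℕ} (ha : Squarefree a) (hb : Squarefree b) : del (del a b) a = b := by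
  rw [del_comm a b, s3_del hb ha]

/-- Row [RH-S3]: soundness of the outer search.

Proof by induction on the list.  For `cs = []` take the given accumulators.
For `c :: cs`, `a :: as` let `y₀ = l x` etc.: if `a.z = 0`, the first conjunct with
`y = (M - j k) mod M ≡ -j k = l x mod M` (`z = j k + l x = 0`); `one_sound`, then the induction
hypothesis (same `rem`, `xb`, `fl`, `P`, `N`, `cross`).
If `a.z ≠ 0`: `coord_num` gives `u` with `|z| = f u`, `m z² = μ d u²`, `d = del μ m = del m μ`.  The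
sum condition gives `A d u² ≤ rem`, so `d ≤ rem / A`, `d ≤ 128`.  If `xb[c.b] = 0`: `dall_sound` with
this `d` (`del d μ = m`, so `(del d μ) % 8 = ρ`); `f = μ / gcd(μ, del d μ)`; `uall_sound`; the
conjunct for the sign of `z`: `y ≡ z - j k = l x mod M`; the new entry of `xb` is
`del (del d μ) r = del m r = X b` (`m = del (X b) r`).  If `xb[c.b] ≠ 0` it is `X b` and
`del (X b) r = m`, and the other branch is used in the same way.  New accumulators:
`rem - A d u²`, `cross = true`, `P - N` changes by `(np - nn) z`, `fl` by `updFl_sound`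
(`a = A q f u` or `A q (16 - (f u mod 16))`, congruent to `A q z` mod 16). -/
theorem srchO_sound (nd : Nd) {cf : Cfg} (hcf : CfOK cf) {X : ℕ → ℕ}
    (hX : ∀ b, Odd (X b) ∧ Squarefree (X b)) (cs : List Co) (as : List Act)
    (h : List.Forall₂ (OutOK cf X) cs as) (rem : ℕ) (xb : List ℕ) (wp s : ℕ) (fl : List ℕ)
    (P N : ℕ) (cross : Bool) (hr : rem ≤ 128) (hsum : sumV cs as = cf.mu * rem)
    (hxl : xb.length = 5) (hxb : ∀ b, xb.getD b 0 = 0 ∨ xb.getD b 0 = X b)
    (hws : ∀ c ∈ cs, c.ws.length = fl.length ∨ fl = []) (hfl : ∀ f ∈ fl, f < 16)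
    (hc : srchO nd cf cs rem xb wp s fl P N cross = true) :
    ∃ (xb' : List ℕ) (s' : ℕ) (fl' : List ℕ) (P' N' : ℕ) (cross' : Bool),
      leafOK nd cf 0 xb' (wp + bitsOf cs as) s' fl' P' N' cross' = true ∧
      (∀ b, xb'.getD b 0 = 0 ∨ xb'.getD b 0 = X b) ∧
      (∃ t : ℤ, (s' : ℤ) = s + sumS cs as + 16 * t) ∧ fl'.length = fl.length ∧
      (∀ f ∈ fl', f < 16) ∧
      (∀ t < fl.length, ∃ e : ℤ,
        ((fl'.getD t 0 : ℕ) : ℤ) = (fl.getD t 0 : ℕ) + sumF t cs as + 16 * e) ∧
      (P' : ℤ) - N' = P - N + sumN cs as ∧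
      (cross' = true ↔ cross = true ∨ ∃ a ∈ as, a.z ≠ 0) := by
  induction h generalizing rem xb wp s fl P N cross with
  | nil =>
    rw [srchO] at hc
    have hrem : rem = 0 := by
      have h0 : sumV ([] : List Co) ([] : List Act) = 0 := rfl
      rw [h0] at hsum
      have hmu : 0 < cf.mu := Nat.pos_of_ne_zero hcf.sq.ne_zero
      rcases Nat.eq_zero_or_pos rem with h1 | h1
      · exact h1
      · exact absurd hsum.symm (Nat.mul_pos hmu h1).ne'
    rw [hrem] at hc
    refine ⟨xb, s, fl, P, N, cross, ?_, hxb, ⟨0, ?_⟩, rfl, hfl, ?_, ?_, ?_⟩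
    · have h0 : bitsOf ([] : List Co) ([] : List Act) = 0 := rfl
      rw [h0, Nat.add_zero]
      exact hc
    · have h0 : sumS ([] : List Co) ([] : List Act) = 0 := rfl
      rw [h0]
      ring
    · intro t _
      have h0 : sumF t ([] : List Co) ([] : List Act) = 0 := rfl
      exact ⟨0, by rw [h0]; ring⟩
    · have h0 : sumN ([] : List Co) ([] : List Act) = 0 := rfl
      rw [h0]
      ring
    · simp
  | @cons c a cs as hca hcs ih =>
    obtain ⟨hco, hrho, hb5, hro, hrs, hXr⟩ := hca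
    have hmu : 0 < cf.mu := Nat.pos_of_ne_zero hcf.sq.ne_zero
    have hM : (cf.M : ℤ) = 16 * cf.l := by exact_mod_cast hcf.M
    have hv : sumV (c :: cs) (a :: as) = c.A * (a.m * a.z.natAbs ^ 2) + sumV cs as := rfl
    have hbit : bitsOf (c :: cs) (a :: as) =
      (if a.x % 2 = 1 then c.bit else 0) + bitsOf cs as := rfl
    have hSS : sumS (c :: cs) (a :: as) = c.A * c.q * c.k * a.x + sumS cs as := rfl
    have hFF : ∀ t, sumF t (c :: cs) (a :: as) =
      c.A * c.q * a.z * (c.ws.getD t 0 : ℕ) + sumF t cs as := fun _ => rfl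
    have hNN : sumN (c :: cs) (a :: as) = ((c.np : ℤ) - c.nn) * a.z + sumN cs as := rfl
    rw [hv] at hsum
    rw [srchO, Bool.and_eq_true] at hc
    obtain ⟨hc1, hc2⟩ := hc
    by_cases haz : a.z = 0
    · -- the coordinate is zero
      have hy : ∃ t : ℤ, (((cf.M - cf.j * c.k) % cf.M : ℕ) : ℤ) = cf.l * a.x + 16 * cf.l * t := by
        refine ⟨1 - (((cf.M - cf.j * c.k) / cf.M : ℕ) : ℤ), ?_⟩
        have e1 : (((cf.M - cf.j * c.k) % cf.M : ℕ) : ℤ) +
            cf.M * (((cf.M - cf.j * c.k) / cf.M : ℕ) : ℤ) = cf.M - cf.j * c.k := by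
          have := Nat.mod_add_div (cf.M - cf.j * c.k) cf.M
          have h3 : (((cf.M - cf.j * c.k) % cf.M + cf.M * ((cf.M - cf.j * c.k) / cf.M) : ℕ) : ℤ) =
            ((cf.M - cf.j * c.k : ℕ) : ℤ) := by rw [this]
          rw [Nat.cast_add, Nat.cast_mul] at h3
          rw [h3, Nat.cast_sub hco.jk]
          push_cast
          ring
        rw [← hM]
        have e2 : (0 : ℤ) = cf.j * c.k + cf.l * a.x := by rw [← haz, hco.hz]
        linear_combination e1 + e2
      obtain ⟨s1, ⟨t1, ht1⟩, hK⟩ := one_sound hcf hy hc1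
      have hsum' : sumV cs as = cf.mu * rem := by
        rw [haz] at hsum
        simpa using hsum
      obtain ⟨xb', s', fl', P', N', cross', r1, r2, ⟨t2, r3⟩, r4, r5, r6, r7, r8⟩ :=
        ih rem xb _ s1 fl P N cross hr hsum' hxl hxb (fun c' hc' => hws c' (List.mem_cons_of_mem _ hc'))
          hfl hK
      refine ⟨xb', s', fl', P', N', cross', ?_, r2, ⟨t1 + t2, ?_⟩, r4, r5, ?_, ?_, ?_⟩
      · rw [hbit, ← Nat.add_assoc]
        exact r1
      · rw [hSS, r3, ht1]
        ring
      · intro t ht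
        obtain ⟨e, he⟩ := r6 t ht
        refine ⟨e, ?_⟩
        rw [hFF, he, haz]
        ring
      · rw [hNN, r7, haz]
        ring
      · rw [r8]
        constructor
        · rintro (h1 | ⟨b, hb, hbz⟩)
          · exact Or.inl h1
          · exact Or.inr ⟨b, List.mem_cons_of_mem _ hb, hbz⟩
        · rintro (h1 | ⟨b, hb, hbz⟩)
          · exact Or.inl h1
          · rcases List.mem_cons.1 hb with h2 | h2
            · rw [h2] at hbz
              exact absurd haz hbz
            · exact Or.inr ⟨b, h2, hbz⟩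
    · -- the coordinate is not zero
      obtain ⟨u, hu1, huz, hnum⟩ := coord_num hcf.odd hcf.sq hco.odd hco.sq haz hco.dvd
      have hAd : c.A * del cf.mu a.m * (u * u) ≤ rem := by
        have h1 : cf.mu * (c.A * del cf.mu a.m * (u * u)) ≤ cf.mu * rem := by
          rw [← hsum, hnum]
          have : c.A * (cf.mu * (del cf.mu a.m * u ^ 2)) =
            cf.mu * (c.A * del cf.mu a.m * (u * u)) := by ring
          rw [this]
          exact Nat.le_add_right _ _
        exact Nat.le_of_mul_le_mul_left h1 hmu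
      have hsum' : sumV cs as = cf.mu * (rem - c.A * del cf.mu a.m * (u * u)) := by
        rw [hnum] at hsum
        have h1 : c.A * (cf.mu * (del cf.mu a.m * u ^ 2)) =
            cf.mu * (c.A * del cf.mu a.m * (u * u)) := by ring
        rw [h1] at hsum
        rw [Nat.mul_sub]
        omega
      have hdo : Odd (del cf.mu a.m) := del_odd hcf.odd hco.odd
      have hds : Squarefree (del cf.mu a.m) := del_sq hcf.sq hco.sq
      have hdpos : 0 < del cf.mu a.m := hdo.pos
      have hw : 0 < c.A * del cf.mu a.m := Nat.mul_pos hco.A hdpos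
      have huu : 1 ≤ u * u := Nat.mul_pos hu1 hu1
      have hAd1 : c.A * del cf.mu a.m ≤ rem := by nlinarith
      have hXc := hX c.b
      have hm : del (del cf.mu a.m) cf.mu = a.m := s3_del' hcf.sq hco.sq
      -- the common part
      have main : ∀ xb1 : List ℕ, xb1.length = 5 → (∀ b, xb1.getD b 0 = 0 ∨ xb1.getD b 0 = X b) →
          (∃ s1 a1 P1 N1 : ℕ, (∃ t : ℤ, (s1 : ℤ) = s + c.A * c.q * c.k * a.x + 16 * t) ∧
            (∃ t : ℤ, (a1 : ℤ) = c.A * c.q * a.z + 16 * t) ∧
            (P1 : ℤ) - N1 = P - N + ((c.np : ℤ) - c.nn) * a.z ∧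
            srchO nd cf cs (rem - c.A * del cf.mu a.m * (u * u)) xb1
              (wp + if a.x % 2 = 1 then c.bit else 0) s1 (updFl a1 fl c.ws) P1 N1 true = true) →
          ∃ (xb' : List ℕ) (s' : ℕ) (fl' : List ℕ) (P' N' : ℕ) (cross' : Bool),
            leafOK nd cf 0 xb' (wp + bitsOf (c :: cs) (a :: as)) s' fl' P' N' cross' = true ∧
            (∀ b, xb'.getD b 0 = 0 ∨ xb'.getD b 0 = X b) ∧
            (∃ t : ℤ, (s' : ℤ) = s + sumS (c :: cs) (a :: as) + 16 * t) ∧
            fl'.length = fl.length ∧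
            (∀ f ∈ fl', f < 16) ∧
            (∀ t < fl.length, ∃ e : ℤ,
              ((fl'.getD t 0 : ℕ) : ℤ) = (fl.getD t 0 : ℕ) + sumF t (c :: cs) (a :: as) + 16 * e) ∧
            (P' : ℤ) - N' = P - N + sumN (c :: cs) (a :: as) ∧
            (cross' = true ↔ cross = true ∨ ∃ a' ∈ a :: as, a'.z ≠ 0) := by
        intro xb1 hxl1 hxb1 hex
        obtain ⟨s1, a1, P1, N1, ⟨t1, ht1⟩, ⟨t3, ht3⟩, hPN, hG⟩ := hex
        obtain ⟨u1, u2, u3⟩ := updFl_sound (a := a1) (hws c List.mem_cons_self)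
        obtain ⟨xb', s', fl', P', N', cross', r1, r2, ⟨t2, r3⟩, r4, r5, r6, r7, r8⟩ :=
          ih (rem - c.A * del cf.mu a.m * (u * u)) xb1 _ s1 (updFl a1 fl c.ws) P1 N1 true
            ((Nat.sub_le _ _).trans hr) hsum' hxl1 hxb1
            (fun c' hc' => by
              rw [u1]
              rcases hws c' (List.mem_cons_of_mem _ hc') with h1 | h1
              · exact Or.inl h1
              · right
                apply List.eq_nil_of_length_eq_zero
                rw [u1, h1]
                rfl) u2 hG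
        refine ⟨xb', s', fl', P', N', cross', ?_, r2, ⟨t1 + t2, ?_⟩, ?_, r5, ?_, ?_, ?_⟩
        · rw [hbit, ← Nat.add_assoc]
          exact r1
        · rw [hSS, r3, ht1]
          ring
        · rw [r4, u1]
        · intro t ht
          obtain ⟨e, he⟩ := r6 t (by rw [u1]; exact ht)
          obtain ⟨e', he'⟩ := u3 t ht
          refine ⟨e + e' + t3 * (c.ws.getD t 0 : ℕ), ?_⟩
          rw [hFF, he, he', ht3]
          ring
        · rw [hNN, r7, hPN]
          ring
        · rw [r8]
          exact iff_of_true (Or.inl rfl) (Or.inr ⟨a, List.mem_cons_self, haz⟩)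
      by_cases hx0 : xb.getD c.b 0 = 0
      · -- a new block
        have hbq : Nat.beq (xb.getD c.b 0) 0 = true := by rw [hx0]; rfl
        rw [hbq, cond_true] at hc2
        have hd1 : del cf.mu a.m ≤ rem / c.A := by
          rw [Nat.le_div_iff_mul_le hco.A, Nat.mul_comm]
          exact hAd1
        have hd2 : del cf.mu a.m ≤ 128 := by
          calc del cf.mu a.m ≤ rem / c.A := hd1
            _ ≤ rem := Nat.div_le_self _ _
            _ ≤ 128 := hr
        have hF := dall_sound hc2 hdo hds hd1 hd2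
        have hbq2 : Nat.beq (Nat.mod (del (del cf.mu a.m) cf.mu) 8) c.rho = true := by
          rw [hm]
          rw [show Nat.mod a.m 8 = c.rho from hrho]
          exact Nat.beq_refl _
        rw [hbq2, cond_true, hm] at hF
        have hG := uall_sound hw hr hF hu1 hAd
        have hnz := s3_nz hcf hco (G := fun rem' wp' s' fl' P' N' =>
          srchO nd cf cs rem' (xb.set c.b (del a.m c.r)) wp' s' fl' P' N' true) huz hG
        refine main (xb.set c.b (del a.m c.r)) ?_ ?_ hnz
        · rw [List.length_set]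
          exact hxl
        · intro b
          by_cases hbb : b = c.b
          · right
            rw [hbb, List.getD_eq_getElem _ _ (by rw [List.length_set, hxl]; exact hb5),
              List.getElem_set_self, hXr, s3_del hXc.2 hrs]
          · rw [List.getD_eq_getElem?_getD, List.getElem?_set_ne (Ne.symm hbb),
              ← List.getD_eq_getElem?_getD]
            exact hxb b
      · -- a known block
        have hxX : xb.getD c.b 0 = X c.b := (hxb c.b).resolve_left hx0
        have hbq : Nat.beq (xb.getD c.b 0) 0 = false := by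
          rw [← Bool.not_eq_true]
          intro h1
          exact hx0 (Nat.eq_of_beq_eq_true h1)
        rw [hbq, cond_false, hxX, ← hXr] at hc2
        have hG := uall_sound hw hr hc2 hu1 hAd
        have hnz := s3_nz hcf hco (G := fun rem' wp' s' fl' P' N' =>
          srchO nd cf cs rem' xb wp' s' fl' P' N' true) huz hG
        exact main xb hxl hxb hnz

end RH6
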