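import Pool.Agent.RH6.S3

namespace RH6

/-- the residue used for `z = 0` -/
theorem s4_y0 {M l j k : ℕ} {z x : ℤ} (hM : M = 16 * l) (hz : z = j * k + l * x)
    (hjk : j * k ≤ M) (h0 : z = 0) :
    ∃ t : ℤ, ((Nat.mod (Nat.sub M (Nat.mul j k)) M : ℕ) : ℤ) = l * x + 16 * l * t := by
  change ∃ t : ℤ, (((M - j * k) % M : ℕ) : ℤ) = l * x + 16 * l * t
  have h1 := Nat.div_add_mod (M - j * k) M
  refine ⟨1 - (((M - j * k) / M : ℕ) : ℤ), ?_⟩
  generalize (M - j * k) / M = q at h1 ⊢
  generalize (M - j * k) % M = r at h1 ⊢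
  zify [hjk] at h1 hM ⊢
  linear_combination h1 + (1 - (q : ℤ)) * hM + hz - h0

/-- the residue used for `z = w > 0` -/
theorem s4_yp {M l j k w : ℕ} {z x : ℤ} (hM : M = 16 * l) (hz : z = j * k + l * x)
    (hjk : j * k ≤ M) (h0 : z = w) :
    ∃ t : ℤ, ((Nat.mod (Nat.add w (Nat.sub M (Nat.mul j k))) M : ℕ) : ℤ) =
      l * x + 16 * l * t := by
  change ∃ t : ℤ, (((w + (M - j * k)) % M : ℕ) : ℤ) = l * x + 16 * l * t
  have h1 := Nat.div_add_mod (w + (M - j * k)) M
  refine ⟨1 - (((w + (M - j * k)) / M : ℕ) : ℤ), ?_⟩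
  generalize (w + (M - j * k)) / M = q at h1 ⊢
  generalize (w + (M - j * k)) % M = r at h1 ⊢
  zify [hjk] at h1 hM ⊢
  linear_combination h1 + (1 - (q : ℤ)) * hM + hz - h0

/-- the residue used for `z = -w < 0` -/
theorem s4_yn {M l j k w : ℕ} {z x : ℤ} (hM : M = 16 * l) (hM0 : 0 < M) (hz : z = j * k + l * x)
    (hjk : j * k ≤ M) (h0 : z = -(w : ℤ)) :
    ∃ t : ℤ, ((Nat.mod (Nat.add (Nat.sub M (Nat.mod w M)) (Nat.sub M (Nat.mul j k))) M : ℕ) : ℤ) =
      l * x + 16 * l * t := by
  change ∃ t : ℤ, ((((M - w % M) + (M - j * k)) % M : ℕ) : ℤ) = l * x + 16 * l * t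
  have h3 : w % M ≤ M := (Nat.mod_lt _ hM0).le
  have h2 := Nat.div_add_mod w M
  generalize w / M = q₂ at h2
  generalize w % M = r₂ at h2 h3 ⊢
  have h1 := Nat.div_add_mod ((M - r₂) + (M - j * k)) M
  generalize ((M - r₂) + (M - j * k)) / M = q at h1
  generalize ((M - r₂) + (M - j * k)) % M = r at h1 ⊢
  refine ⟨2 + (q₂ : ℤ) - (q : ℤ), ?_⟩
  zify [hjk, h3] at h1 h2 hM ⊢
  linear_combination h1 - h2 + (2 + (q₂ : ℤ) - (q : ℤ)) * hM + hz - h0

/-- the residue used for `z = -w` in the flags -/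
theorem s4_fn {w : ℕ} {z : ℤ} (h0 : z = -(w : ℤ)) :
    ∃ t : ℤ, ((Nat.sub 16 (Nat.mod w 16) : ℕ) : ℤ) = z + 16 * t := by
  change ∃ t : ℤ, ((16 - w % 16 : ℕ) : ℤ) = z + 16 * t
  have h2 := Nat.div_add_mod w 16
  have h3 : w % 16 ≤ 16 := (Nat.mod_lt _ (by norm_num)).le
  refine ⟨1 + ((w / 16 : ℕ) : ℤ), ?_⟩
  zify [h3] at h2 ⊢
  linear_combination -h2 - h0

/-- Row [RH-S4]: soundness of the inner search (same proof as `srchO_sound`; here `m = c.r` is
known, `dl = del μ r`, `f = μ / gcd(μ,r)`). -/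
theorem srchI_sound (nd : Nd) {cf : Cfg} (hcf : CfOK cf) (co : List Co) (cs : List Co)
    (as : List Act) (h : List.Forall₂ (InnOK cf) cs as) (rem wp s : ℕ) (fl : List ℕ)
    (P N : ℕ) (nz : Bool) (hr : rem ≤ 128) (rest : ℕ)
    (hsum : sumV cs as + cf.mu * rest = cf.mu * rem)
    (hws : ∀ c ∈ cs, c.ws.length = fl.length ∨ fl = []) (hfl : ∀ f ∈ fl, f < 16)
    (hnz : nz = true ∨ ∃ a ∈ as, a.z ≠ 0)
    (hc : srchI nd cf co cs rem wp s fl P N nz = true) :
    ∃ (s' : ℕ) (fl' : List ℕ) (P' N' : ℕ),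
      srchO nd cf co rest [0, 0, 0, 0, 0] (wp + bitsOf cs as) s' fl' P' N' false = true ∧
      (∃ t : ℤ, (s' : ℤ) = s + sumS cs as + 16 * t) ∧ fl'.length = fl.length ∧
      (∀ f ∈ fl', f < 16) ∧
      (∀ t < fl.length, ∃ e : ℤ,
        ((fl'.getD t 0 : ℕ) : ℤ) = (fl.getD t 0 : ℕ) + sumF t cs as + 16 * e) ∧
      (P' : ℤ) - N' = P - N + sumN cs as := by
  induction cs generalizing as rem wp s fl P N nz with
  | nil =>
    cases h
    have hmu : 0 < cf.mu := hcf.odd.pos
    have hrr : rest = rem := by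
      have h1 : cf.mu * rest = cf.mu * rem := by
        have h2 := hsum
        simp only [sumV, zero_add] at h2
        exact h2
      exact Nat.eq_of_mul_eq_mul_left hmu h1
    have hnz' : nz = true := by
      rcases hnz with h1 | ⟨a, ha, -⟩
      · exact h1
      · simp at ha
    subst hrr
    subst hnz'
    refine ⟨s, fl, P, N, ?_, ⟨0, ?_⟩, rfl, hfl, fun t _ => ⟨0, ?_⟩, ?_⟩
    · simpa [srchI, bitsOf] using hc
    · simp [sumS]
    · simp [sumF]
    · simp [sumN]
  | cons c cs ih =>
    cases h with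
    | cons hca hrest =>
    rename_i a as
    obtain ⟨hco, hmr⟩ := hca
    have hmu : 0 < cf.mu := hcf.odd.pos
    have hl0 : 0 < cf.l := by rcases hcf.l with h1 | h1 <;> omega
    have hM0 : 0 < cf.M := by rw [hcf.M]; omega
    have hwsc := hws c (List.mem_cons_self ..)
    have hwsr : ∀ c' ∈ cs, c'.ws.length = fl.length ∨ fl = [] := fun c' hc' =>
      hws c' (List.mem_cons_of_mem _ hc')
    unfold srchI at hc
    rw [Bool.and_eq_true] at hc
    obtain ⟨hc1, hc2⟩ := hc
    by_cases hz : a.z = 0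
    · have hy := s4_y0 hcf.M hco.hz hco.jk hz
      obtain ⟨s₁, ⟨t₁, ht₁⟩, hk⟩ := one_sound hcf hy hc1
      have hsum' : sumV cs as + cf.mu * rest = cf.mu * rem := by
        have h2 := hsum
        simp only [sumV, hz, Int.natAbs_zero, ne_eq, OfNat.ofNat_ne_zero, not_false_eq_true,
          zero_pow, mul_zero, zero_add] at h2
        exact h2
      have hnz' : nz = true ∨ ∃ a ∈ as, a.z ≠ 0 := by
        rcases hnz with h1 | ⟨a', ha', hz'⟩
        · exact Or.inl h1
        · rcases List.mem_cons.1 ha' with rfl | h2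
          · exact absurd hz hz'
          · exact Or.inr ⟨a', h2, hz'⟩
      obtain ⟨s', fl', P', N', g1, ⟨t, g2⟩, g3, g4, g5, g6⟩ :=
        ih as hrest rem _ s₁ fl P N nz hr hsum' hwsr hfl hnz' hk
      refine ⟨s', fl', P', N', ?_, ⟨t + t₁, ?_⟩, g3, g4, fun t' ht' => ?_, ?_⟩
      · have e : wp + bitsOf (c :: cs) (a :: as) =
            (wp + if a.x % 2 = 1 then c.bit else 0) + bitsOf cs as := by
          simp only [bitsOf]
          ring
        rw [e]
        exact g1
      · rw [g2, ht₁]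
        simp only [sumS]
        ring
      · obtain ⟨e, he⟩ := g5 t' ht'
        refine ⟨e, ?_⟩
        rw [he]
        simp only [sumF, hz]
        ring
      · rw [g6]
        simp only [sumN, hz]
        ring
    · have hdvd := hco.dvd
      obtain ⟨u, hu1, hu2, hu3⟩ := coord_num hcf.odd hcf.sq hco.odd hco.sq hz hdvd
      rw [hmr] at hu2 hu3
      set f := cf.mu / Nat.gcd cf.mu c.r with hf
      set dl := del cf.mu c.r with hdl
      have hz0 : 0 < a.z.natAbs := Int.natAbs_pos.2 hz
      have hm0 : 0 < c.r := by rw [← hmr]; exact hco.odd.pos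
      have hdl0 : 0 < dl := by
        rcases Nat.eq_zero_or_pos dl with h1 | h1
        · rw [h1, zero_mul, mul_zero] at hu3
          have h2 : 0 < c.r * a.z.natAbs ^ 2 := by positivity
          omega
        · exact h1
      have hsum2 : cf.mu * (c.A * dl * (u * u)) + sumV cs as + cf.mu * rest = cf.mu * rem := by
        have h2 := hsum
        simp only [sumV] at h2
        rw [hmr, hu3] at h2
        rw [← h2]
        ring
      have hle : c.A * dl * (u * u) ≤ rem := by
        refine Nat.le_of_mul_le_mul_left (c := cf.mu) ?_ hmu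
        omega
      have hw : 0 < Nat.mul c.A dl := Nat.mul_pos hco.A hdl0
      have h3 := uall_sound hw hr hc2 hu1 hle
      beta_reduce at h3
      rw [Bool.and_eq_true] at h3
      obtain ⟨h3p, h3n⟩ := h3
      have hsub : cf.mu * (rem - c.A * dl * (u * u)) + cf.mu * (c.A * dl * (u * u)) =
          cf.mu * rem := by
        rw [← Nat.mul_add, Nat.sub_add_cancel hle]
      have hsum' : sumV cs as + cf.mu * rest = cf.mu * (rem - c.A * dl * (u * u)) := by omega
      rcases Int.natAbs_eq a.z with hs | hs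
      · have hzw : a.z = ((f * u : ℕ) : ℤ) := by rw [hs, hu2]
        have hy := s4_yp hcf.M hco.hz hco.jk hzw
        obtain ⟨s₁, ⟨t₁, ht₁⟩, hk⟩ := one_sound hcf hy h3p
        obtain ⟨k1, k2, k3⟩ := updFl_sound
          (a := Nat.mul (Nat.mul c.A c.q) (Nat.mul f u)) hwsc
        obtain ⟨s', fl', P', N', g1, ⟨t, g2⟩, g3, g4, g5, g6⟩ :=
          ih as hrest _ _ s₁ _ _ _ true (le_trans (Nat.sub_le _ _) hr) hsum' (fun c' hc' => by
            rcases hwsr c' hc' with h4 | h4
            · left; rw [h4, k1]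
            · right
              rw [← List.length_eq_zero_iff, k1, h4]
              rfl) k2 (Or.inl rfl) hk
        refine ⟨s', fl', P', N', ?_, ⟨t + t₁, ?_⟩, g3.trans k1, g4, fun t' ht' => ?_, ?_⟩
        · have e : wp + bitsOf (c :: cs) (a :: as) =
              (wp + if a.x % 2 = 1 then c.bit else 0) + bitsOf cs as := by
            simp only [bitsOf]
            ring
          rw [e]
          exact g1
        · rw [g2, ht₁]
          simp only [sumS]
          ring
        · obtain ⟨e, he⟩ := g5 t' (by rw [k1]; exact ht')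
          obtain ⟨e', he'⟩ := k3 t' ht'
          refine ⟨e + e', ?_⟩
          rw [he, he']
          have e1 : ((Nat.mul (Nat.mul c.A c.q) (Nat.mul f u) : ℕ) : ℤ) = c.A * c.q * a.z := by
            rw [hzw]
            change ((c.A * c.q * (f * u) : ℕ) : ℤ) = _
            push_cast
            ring
          rw [e1]
          simp only [sumF]
          ring
        · rw [g6]
          simp only [sumN]
          change ((P + f * u * c.np : ℕ) : ℤ) - ((N + f * u * c.nn : ℕ) : ℤ) + sumN cs as = _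
          rw [hzw]
          push_cast
          ring
      · have hzw : a.z = -((f * u : ℕ) : ℤ) := by rw [hs, hu2]
        have hy := s4_yn hcf.M hM0 hco.hz hco.jk hzw
        obtain ⟨s₁, ⟨t₁, ht₁⟩, hk⟩ := one_sound hcf hy h3n
        obtain ⟨k1, k2, k3⟩ := updFl_sound
          (a := Nat.mul (Nat.mul c.A c.q) (Nat.sub 16 (Nat.mod (Nat.mul f u) 16))) hwsc
        obtain ⟨s', fl', P', N', g1, ⟨t, g2⟩, g3, g4, g5, g6⟩ :=
          ih as hrest _ _ s₁ _ _ _ true (le_trans (Nat.sub_le _ _) hr) hsum' (fun c' hc' => by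
            rcases hwsr c' hc' with h4 | h4
            · left; rw [h4, k1]
            · right
              rw [← List.length_eq_zero_iff, k1, h4]
              rfl) k2 (Or.inl rfl) hk
        refine ⟨s', fl', P', N', ?_, ⟨t + t₁, ?_⟩, g3.trans k1, g4, fun t' ht' => ?_, ?_⟩
        · have e : wp + bitsOf (c :: cs) (a :: as) =
              (wp + if a.x % 2 = 1 then c.bit else 0) + bitsOf cs as := by
            simp only [bitsOf]
            ring
          rw [e]
          exact g1
        · rw [g2, ht₁]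
          simp only [sumS]
          ring
        · obtain ⟨e, he⟩ := g5 t' (by rw [k1]; exact ht')
          obtain ⟨e', he'⟩ := k3 t' ht'
          obtain ⟨e2, he2⟩ := s4_fn hzw
          refine ⟨e + e' + c.A * c.q * e2 * (c.ws.getD t' 0 : ℕ), ?_⟩
          rw [he, he']
          have e1 : ((Nat.mul (Nat.mul c.A c.q) (Nat.sub 16 (Nat.mod (Nat.mul f u) 16)) : ℕ) : ℤ) =
              c.A * c.q * (a.z + 16 * e2) := by
            rw [← he2]
            change ((c.A * c.q * (Nat.sub 16 (Nat.mod (f * u) 16)) : ℕ) : ℤ) = _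
            push_cast
            ring
          rw [e1]
          simp only [sumF]
          ring
        · rw [g6]
          simp only [sumN]
          change ((P + f * u * c.nn : ℕ) : ℤ) - ((N + f * u * c.np : ℕ) : ℤ) + sumN cs as = _
          rw [hzw]
          push_cast
          ring

end RH6
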