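import Pool.Agent.RH6.S4
import Pool.Agent.RH6.S1

namespace RH6

theorem s5_beq (a b : ℕ) : Nat.beq a b = true ↔ a = b :=
  ⟨Nat.eq_of_beq_eq_true, fun h => by rw [h]; exact Nat.beq_refl b⟩

theorem s5_forall {R : Co → Act → Prop} (g : Fin 5 → Co) (a : Fin 5 → Act) (L : List (Fin 5))
    (h : ∀ i ∈ L, R (g i) (a i)) : List.Forall₂ R (L.map g) (L.map a) := by
  induction L with
  | nil => exact List.Forall₂.nil
  | cons i L ih =>
    exact List.Forall₂.cons (h i (List.mem_cons_self ..))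
      (ih fun j hj => h j (List.mem_cons_of_mem _ hj))

theorem s5_sumV (g : Fin 5 → Co) (a : Fin 5 → Act) (L : List (Fin 5)) :
    sumV (L.map g) (L.map a) = (L.map fun i => (g i).A * ((a i).m * (a i).z.natAbs ^ 2)).sum := by
  induction L with
  | nil => rfl
  | cons i L ih => simp only [List.map_cons, sumV, List.sum_cons, ih]

theorem s5_sumS (g : Fin 5 → Co) (a : Fin 5 → Act) (L : List (Fin 5)) :
    sumS (L.map g) (L.map a) =
      (L.map fun i => ((g i).A : ℤ) * (g i).q * (g i).k * (a i).x).sum := by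
  induction L with
  | nil => rfl
  | cons i L ih => simp only [List.map_cons, sumS, List.sum_cons, ih]

theorem s5_sumF (t : ℕ) (g : Fin 5 → Co) (a : Fin 5 → Act) (L : List (Fin 5)) :
    sumF t (L.map g) (L.map a) =
      (L.map fun i => ((g i).A : ℤ) * (g i).q * (a i).z * ((g i).ws.getD t 0 : ℕ)).sum := by
  induction L with
  | nil => rfl
  | cons i L ih => simp only [List.map_cons, sumF, List.sum_cons, ih]

theorem s5_sumN (g : Fin 5 → Co) (a : Fin 5 → Act) (L : List (Fin 5)) :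
    sumN (L.map g) (L.map a) =
      (L.map fun i => (((g i).np : ℤ) - (g i).nn) * (a i).z).sum := by
  induction L with
  | nil => rfl
  | cons i L ih => simp only [List.map_cons, sumN, List.sum_cons, ih]

theorem s5_bits (g : Fin 5 → Co) (a : Fin 5 → Act) (L : List (Fin 5)) :
    bitsOf (L.map g) (L.map a) =
      (L.map fun i => if (a i).x % 2 = 1 then (g i).bit else 0).sum := by
  induction L with
  | nil => rfl
  | cons i L ih => simp only [List.map_cons, bitsOf, List.sum_cons, ih]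

theorem s5_part {M : Type*} [AddCommMonoid M] (p : Fin 5 → Bool) (f : Fin 5 → M)
    (L : List (Fin 5)) :
    ((L.filter p).map f).sum + ((L.filter fun i => !p i).map f).sum = (L.map f).sum := by
  induction L with
  | nil => simp
  | cons i L ih =>
    cases hp : p i
    · simp only [List.filter_cons, hp, Bool.not_false, if_true, List.map_cons, List.sum_cons,
        ← ih]
      simp only [Bool.false_eq_true, if_false]
      rw [add_left_comm]
    · simp only [List.filter_cons, hp, Bool.not_true, if_true, List.map_cons, List.sum_cons,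
        ← ih]
      simp only [Bool.false_eq_true, if_false]
      rw [add_assoc]

theorem s5_all {M : Type*} [AddCommMonoid M] (p : Fin 5 → Bool) (f : Fin 5 → M) :
    (((List.finRange 5).filter p).map f).sum +
      (((List.finRange 5).filter fun i => !p i).map f).sum = ∑ i, f i := by
  rw [s5_part, Fin.sum_univ_def]

theorem s5_st {s : St} (h : StOK s) (i : Fin 5) : (s.getD i (0, 0)) ∈ s := by
  have h1 : (i : ℕ) < s.length := by rw [h.1]; exact i.2
  rw [List.getD_eq_getElem _ _ h1]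
  exact List.getElem_mem h1

open Classical in
/-- the class of a block -/
noncomputable def s5_X (st : St) (m : Fin 5 → ℕ) (b : ℕ) : ℕ :=
  if h : ∃ i : Fin 5, (st.getD i (0, 0)).1 = b then
    del (m h.choose) (st.getD h.choose (0, 0)).2 else 1

theorem s5_X_ok {st : St} (hst : StOK st) {m : Fin 5 → ℕ}
    (hm : ∀ i, Odd (m i) ∧ Squarefree (m i)) (b : ℕ) :
    Odd (s5_X st m b) ∧ Squarefree (s5_X st m b) := by
  unfold s5_X
  split_ifs with h
  · have h1 := hst.2 _ (s5_st hst h.choose)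
    exact ⟨del_odd (hm _).1 h1.2.1, del_sq (hm _).2 h1.2.2⟩
  · exact ⟨odd_one, squarefree_one⟩

theorem s5_X_eq {st : St} (hst : StOK st) {m : Fin 5 → ℕ}
    (hm : ∀ i, Odd (m i) ∧ Squarefree (m i)) (hmatch : Match st m) (i : Fin 5) :
    m i = del (s5_X st m (st.getD i (0, 0)).1) (st.getD i (0, 0)).2 := by
  unfold s5_X
  have hex : ∃ i' : Fin 5, (st.getD i' (0, 0)).1 = (st.getD i (0, 0)).1 := ⟨i, rfl⟩
  rw [dif_pos hex]
  have h1 := hst.2 _ (s5_st hst hex.choose)
  have h2 := hst.2 _ (s5_st hst i)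
  rw [del_assoc (hm _).2 h1.2.2 h2.2.2, ← hmatch _ _ hex.choose_spec,
    ← del_assoc (hm _).2 (hm _).2 (hm _).2, del_self (hm _).1.pos, del_comm, del_one]

theorem s5_par {cf : Cfg} {s : ℕ} {S : ℤ} (hs : ∃ t : ℤ, (s : ℤ) = S + 16 * t)
    (hl : cf.l = 2 ∨ cf.l = 4) (hj : 2 * cf.j ≤ cf.l) (hvar : cf.var ≤ 1)
    (hp2 : cf.l = 2 → ∃ e : ℤ, S = 2 * (cf.j * cf.var) + 4 * e)
    (hp4 : cf.l = 4 → (cf.j = 0 → ∃ e : ℤ, S = 8 * e) ∧ (cf.j = 2 → ∃ e : ℤ, S = 4 * e)) :
    parOK cf s = true := by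
  obtain ⟨t, ht⟩ := hs
  unfold parOK
  rcases hl with hl | hl
  · obtain ⟨e, he⟩ := hp2 hl
    have h1 : Nat.beq cf.l 2 = true := by rw [hl]; rfl
    rw [h1, cond_true]
    have hj2 : cf.j = 0 ∨ cf.j = 1 := by omega
    rcases hj2 with hj2 | hj2
    · have h2 : Nat.beq cf.j 0 = true := by rw [hj2]; rfl
      rw [h2, cond_true, s5_beq]
      rw [hj2] at he
      change s % 4 = 0
      push_cast at he
      omega
    · have h2 : Nat.beq cf.j 0 = false := by rw [hj2]; rfl
      rw [h2, cond_false, s5_beq]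
      rw [hj2] at he
      change s % 4 = 2 * cf.var
      push_cast at he
      omega
  · obtain ⟨h3, h4⟩ := hp4 hl
    have h1 : Nat.beq cf.l 2 = false := by rw [hl]; rfl
    rw [h1, cond_false]
    have hj2 : cf.j = 0 ∨ cf.j = 1 ∨ cf.j = 2 := by omega
    rcases hj2 with hj2 | hj2 | hj2
    · obtain ⟨e, he⟩ := h3 hj2
      have h2 : Nat.beq cf.j 0 = true := by rw [hj2]; rfl
      rw [h2, cond_true, s5_beq]
      change s % 8 = 0
      omega
    · have h2 : Nat.beq cf.j 0 = false := by rw [hj2]; rfl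
      have h5 : Nat.beq cf.j 2 = false := by rw [hj2]; rfl
      rw [h2, cond_false, h5, cond_false]
    · obtain ⟨e, he⟩ := h4 hj2
      have h2 : Nat.beq cf.j 0 = false := by rw [hj2]; rfl
      have h5 : Nat.beq cf.j 2 = true := by rw [hj2]; rfl
      rw [h2, cond_false, h5, cond_true, s5_beq]
      change s % 4 = 0
      omega

/-- Row [RH-S5]: soundness of a test.

Proof.  `rhs = 2 l² 2^s` is `2q` (`s = 1`) or `4q` (`s = 2`) in the even case, `q` or `2q` in the odd
case, `q = 2 l²`... (in `chkTest`, `q = 2*l*l`; the sums are `∑ A_i d_i u_i² = 2 l² 2^s = q 2^s`), at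
most 128.  The corresponding `chkRhs` is true (`s = 2` only if `F.s2`).  Some `i` in the block has
`Z_i ≠ 0` (`hn`, `hn0`); `d = del μ (m i)` satisfies `A d ≤ rhs`, and `m i = r_i`, so
`μ = del d r_i ∈ muList` (`muList_mem`; `sumV`: `∑ A m Z² = μ rhs`).  `jall_sound`: `srchI` is true for
the configuration `⟨l, 16 l, j, μ, var, code⟩`.  Apply `srchI_sound` to the coordinates in the block
and `srchO_sound` to the others (the lists are `(List.range 5)` filtered by the block number; act as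
`⟨Z i, X i, m i⟩`; `X b` = `del (m i) r_i` for any `i` in block `b`, well defined by `Match`).  In
`leafOK`: `rem = 0`; the word is `∑ 2^i` over the odd `X i`; `parOK` holds by the hypotheses
(`s' ≡ ∑ A q k X mod 16`); `allZero` (`allZero_of`; for `fl0 = []` trivial); if `cross` then
`memSt`/`forb`: `merge_match`, `canon_match`, `memSt_iff`, `forb_match`; if not `cross` then `P = N`,
but `P - N = ∑ (np_i - nn_i) Z_i ≠ 0`. -/
theorem chkTest_sound {F : Fam} {nd : Nd} {rho : List ℕ} {t : Ts}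
    (h : chkTest F nd rho t = true) (hl : t.l = 2 ∨ t.l = 4) (hk : ∀ i : Fin 5, t.k.getD i 0 ≤ 8)
    (hA : ∀ i : Fin 5, 0 < F.As.getD i 0) (hst : StOK nd.st) (hblk : nd.blk < 5)
    (hfb : ∀ p ∈ nd.fb, p.1 < 5 ∧ p.2 < 5) (hvar : t.var ≤ 1)
    {m : Fin 5 → ℕ} (hm : ∀ i, Odd (m i) ∧ Squarefree (m i)) (hmatch : Match nd.st m)
    (hb : ∀ i : Fin 5, (nd.st.getD i (0, 0)).1 = nd.blk → m i = (nd.st.getD i (0, 0)).2)
    (hrho : ∀ i : Fin 5, m i % 8 = rho.getD i 0)
    {Z X : Fin 5 → ℤ} {j s μ : ℕ} (hj : 2 * j ≤ t.l)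
    (hZ : ∀ i : Fin 5, Z i = j * (t.k.getD i 0 : ℕ) + t.l * X i) (ho : Odd μ)
    (hsq : Squarefree μ) (hdvd : ∀ i, (μ : ℤ) ∣ m i * Z i)
    (hnrm : ∑ i : Fin 5, ((F.As.getD i 0 : ℕ) : ℤ) * m i * Z i ^ 2 = 2 * t.l ^ 2 * 2 ^ s * μ)
    (hs1 : F.even = true → s = 1 ∨ (s = 2 ∧ F.s2 = true))
    (hs2 : F.even = false → s = 0 ∨ s = 1)
    (hcode : F.code.testBit (∑ i : Fin 5, if X i % 2 = 1 then 2 ^ (i : ℕ) else 0) = true)
    (hp2 : t.l = 2 → ∃ e : ℤ,
      ∑ i : Fin 5, ((F.As.getD i 0 : ℕ) : ℤ) * (t.q.getD i 0 : ℕ) * (t.k.getD i 0 : ℕ) * X i =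
        2 * (j * t.var) + 4 * e)
    (hp4 : t.l = 4 → (j = 0 → ∃ e : ℤ,
      ∑ i : Fin 5, ((F.As.getD i 0 : ℕ) : ℤ) * (t.q.getD i 0 : ℕ) * (t.k.getD i 0 : ℕ) * X i =
        8 * e) ∧ (j = 2 → ∃ e : ℤ,
      ∑ i : Fin 5, ((F.As.getD i 0 : ℕ) : ℤ) * (t.q.getD i 0 : ℕ) * (t.k.getD i 0 : ℕ) * X i =
        4 * e))
    (hws : s = 2 → ∀ w ∈ t.ws, ∃ e : ℤ,
      ∑ i : Fin 5, ((F.As.getD i 0 : ℕ) : ℤ) * (t.q.getD i 0 : ℕ) * Z i * (w.getD i 0 : ℕ) =
        16 * e)
    (hn : ∑ i : Fin 5, (((t.np.getD i 0 : ℕ) : ℤ) - (t.nn.getD i 0 : ℕ)) * Z i ≠ 0)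
    (hn0 : ∀ i : Fin 5, (nd.st.getD i (0, 0)).1 ≠ nd.blk →
      t.np.getD i 0 = 0 ∧ t.nn.getD i 0 = 0) :
    (∃ c ∈ nd.ch, Match c m) ∨ ∃ i i' : Fin 5, ((i : ℕ), (i' : ℕ)) ∈ nd.fb ∧ m i = m i' := by
  obtain ⟨rhs, fl0, hchk, hrhs, h128, hfl0⟩ : ∃ (rhs : ℕ) (fl0 : List ℕ),
      chkRhs nd (((List.range 5).map (mkCo F.As nd.st rho t)).filter fun c => Nat.beq c.b nd.blk)
        (((List.range 5).map (mkCo F.As nd.st rho t)).filter fun c => !(Nat.beq c.b nd.blk))
        t.l t.var F.code rhs fl0 = true ∧ rhs = 2 * t.l ^ 2 * 2 ^ s ∧ rhs ≤ 128 ∧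
      (fl0 = [] ∨ (s = 2 ∧ fl0 = t.ws.map fun _ => 0)) := by
    have h' : (bif F.even then
        chkRhs nd (((List.range 5).map (mkCo F.As nd.st rho t)).filter fun c => Nat.beq c.b nd.blk)
          (((List.range 5).map (mkCo F.As nd.st rho t)).filter fun c => !(Nat.beq c.b nd.blk))
          t.l t.var F.code (2 * (2 * t.l * t.l)) [] &&
        (bif F.s2 then
          chkRhs nd (((List.range 5).map (mkCo F.As nd.st rho t)).filter
              fun c => Nat.beq c.b nd.blk)
            (((List.range 5).map (mkCo F.As nd.st rho t)).filter fun c => !(Nat.beq c.b nd.blk))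
            t.l t.var F.code (4 * (2 * t.l * t.l)) (t.ws.map fun _ => 0) else true)
      else
        chkRhs nd (((List.range 5).map (mkCo F.As nd.st rho t)).filter fun c => Nat.beq c.b nd.blk)
          (((List.range 5).map (mkCo F.As nd.st rho t)).filter fun c => !(Nat.beq c.b nd.blk))
          t.l t.var F.code (2 * t.l * t.l) [] &&
        chkRhs nd (((List.range 5).map (mkCo F.As nd.st rho t)).filter fun c => Nat.beq c.b nd.blk)
          (((List.range 5).map (mkCo F.As nd.st rho t)).filter fun c => !(Nat.beq c.b nd.blk))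
          t.l t.var F.code (2 * (2 * t.l * t.l)) []) = true := h
    rcases hE : F.even with _ | _
    · rw [hE, cond_false, Bool.and_eq_true] at h'
      rcases hs2 hE with h1 | h1
      · refine ⟨_, _, h'.1, by rw [h1]; ring, ?_, Or.inl rfl⟩
        rcases hl with h2 | h2 <;> rw [h2] <;> norm_num
      · refine ⟨_, _, h'.2, by rw [h1]; ring, ?_, Or.inl rfl⟩
        rcases hl with h2 | h2 <;> rw [h2] <;> norm_num
    · rw [hE, cond_true, Bool.and_eq_true] at h'
      rcases hs1 hE with h1 | ⟨h1, h3⟩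
      · refine ⟨_, _, h'.1, by rw [h1]; ring, ?_, Or.inl rfl⟩
        rcases hl with h2 | h2 <;> rw [h2] <;> norm_num
      · have h4 := h'.2
        rw [h3, cond_true] at h4
        refine ⟨_, _, h4, by rw [h1]; ring, ?_, Or.inr ⟨h1, rfl⟩⟩
        rcases hl with h2 | h2 <;> rw [h2] <;> norm_num
  clear h
  -- the lists
  set g : Fin 5 → Co := fun i => mkCo F.As nd.st rho t i with hg
  set ac : Fin 5 → Act := fun i => ⟨Z i, X i, m i⟩ with hac
  have hmapg : (List.range 5).map (mkCo F.As nd.st rho t) = (List.finRange 5).map g := by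
    rw [← List.map_coe_finRange_eq_range, List.map_map]
    rfl
  set p : Fin 5 → Bool := fun i => Nat.beq (g i).b nd.blk with hp
  have hci : (((List.range 5).map (mkCo F.As nd.st rho t)).filter fun c => Nat.beq c.b nd.blk) =
      ((List.finRange 5).filter p).map g := by
    rw [hmapg, List.filter_map]
    rfl
  have hco : (((List.range 5).map (mkCo F.As nd.st rho t)).filter
      fun c => !(Nat.beq c.b nd.blk)) = ((List.finRange 5).filter fun i => !p i).map g := by
    rw [hmapg, List.filter_map]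
    rfl
  rw [hci, hco] at hchk
  have hμ : 0 < μ := ho.pos
  have hpi : ∀ i, p i = true ↔ (nd.st.getD i (0, 0)).1 = nd.blk := by
    intro i
    change Nat.beq (g i).b nd.blk = true ↔ _
    rw [s5_beq]
    rfl
  have hnpi : ∀ i, (!p i) = true ↔ (nd.st.getD i (0, 0)).1 ≠ nd.blk := by
    intro i
    rw [Bool.not_eq_true', ← Bool.not_eq_true, hpi]
  -- the natural sum
  have hnat : ∑ i : Fin 5, F.As.getD i 0 * (m i * (Z i).natAbs ^ 2) = μ * rhs := by
    zify
    rw [hrhs]
    push_cast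
    rw [show (μ : ℤ) * (2 * (t.l : ℤ) ^ 2 * 2 ^ s) = 2 * (t.l : ℤ) ^ 2 * 2 ^ s * μ by ring, ← hnrm]
    refine Finset.sum_congr rfl fun i _ => ?_
    rw [sq_abs]
    ring
  have hdv : ∀ i : Fin 5, μ ∣ F.As.getD i 0 * (m i * (Z i).natAbs ^ 2) := by
    intro i
    have h1 : μ ∣ m i * (Z i).natAbs := by
      have h2 := Int.natAbs_dvd_natAbs.2 (hdvd i)
      rw [Int.natAbs_natCast, Int.natAbs_mul, Int.natAbs_natCast] at h2
      exact h2
    refine Dvd.dvd.mul_left ?_ _
    rw [pow_two, ← mul_assoc]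
    exact Dvd.dvd.mul_right h1 _
  -- an index in the block
  obtain ⟨i₀, hi₀b, hi₀Z⟩ : ∃ i₀ : Fin 5, (nd.st.getD i₀ (0, 0)).1 = nd.blk ∧ Z i₀ ≠ 0 := by
    by_contra hcon
    push Not at hcon
    apply hn
    refine Finset.sum_eq_zero fun i _ => ?_
    by_cases h1 : (nd.st.getD i (0, 0)).1 = nd.blk
    · rw [hcon i h1, mul_zero]
    · obtain ⟨h2, h3⟩ := hn0 i h1
      rw [h2, h3]
      simp
  -- `μ` is in the list
  have hmuL : μ ∈ muList rhs (((List.finRange 5).filter p).map g) [] := by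
    obtain ⟨u, hu1, -, hu3⟩ := coord_num ho hsq (hm i₀).1 (hm i₀).2 hi₀Z (hdvd i₀)
    have hmem : g i₀ ∈ ((List.finRange 5).filter p).map g :=
      List.mem_map.2 ⟨i₀, List.mem_filter.2 ⟨List.mem_finRange _, (hpi i₀).2 hi₀b⟩, rfl⟩
    have hr0 : (g i₀).r = m i₀ := (hb i₀ hi₀b).symm
    have h1 : F.As.getD i₀ 0 * (m i₀ * (Z i₀).natAbs ^ 2) ≤ μ * rhs := by
      rw [← hnat]
      exact Finset.single_le_sum (f := fun i : Fin 5 => F.As.getD i 0 * (m i * (Z i).natAbs ^ 2))
        (fun i _ => Nat.zero_le _) (Finset.mem_univ i₀)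
    have h2 : F.As.getD i₀ 0 * del μ (m i₀) ≤ rhs := by
      rw [hu3] at h1
      have h3 : μ * (F.As.getD i₀ 0 * (del μ (m i₀) * u ^ 2)) ≤ μ * rhs := by
        rw [← mul_assoc, mul_comm μ, mul_assoc]
        exact h1
      have h4 := Nat.le_of_mul_le_mul_left h3 hμ
      refine le_trans ?_ h4
      refine Nat.mul_le_mul_left _ ?_
      exact Nat.le_mul_of_pos_right _ (by positivity)
    have h5 := muList_mem hmem (d := del μ (m i₀)) (del_odd ho (hm i₀).1)
      (del_sq hsq (hm i₀).2) (hA i₀) h2 h128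
    rw [hr0, del_assoc hsq (hm i₀).2 (hm i₀).2, del_self (hm i₀).1.pos, del_one] at h5
    exact h5
  -- the configuration
  unfold chkRhs at hchk
  have h1 := List.all_eq_true.1 hchk μ hmuL
  have h2 := jall_sound h1 (j := j) (by
    change j ≤ t.l / 2
    omega)
  beta_reduce at h2
  set cf : Cfg := ⟨t.l, Nat.mul 16 t.l, j, μ, t.var, F.code⟩ with hcf
  have hcfok : CfOK cf := ⟨hl, rfl, ho, hsq⟩
  have hcook : ∀ i, CoOK cf (g i) (ac i) := by
    intro i
    refine ⟨hZ i, (hm i).1, (hm i).2, hdvd i, hA i, ?_⟩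
    change j * t.k.getD i 0 ≤ 16 * t.l
    have h3 := hk i
    calc j * t.k.getD i 0 ≤ j * 8 := Nat.mul_le_mul_left _ h3
      _ ≤ 16 * t.l := by omega
  have hforI : List.Forall₂ (InnOK cf) (((List.finRange 5).filter p).map g)
      (((List.finRange 5).filter p).map ac) := by
    refine s5_forall g ac _ fun i hi => ⟨hcook i, ?_⟩
    exact hb i ((hpi i).1 (List.mem_filter.1 hi).2)
  have hforO : List.Forall₂ (OutOK cf (s5_X nd.st m))
      (((List.finRange 5).filter fun i => !p i).map g)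
      (((List.finRange 5).filter fun i => !p i).map ac) := by
    refine s5_forall g ac _ fun i _ => ?_
    have h3 := hst.2 _ (s5_st hst i)
    exact ⟨hcook i, hrho i, h3.1, h3.2.1, h3.2.2, s5_X_eq hst hm hmatch i⟩
  -- the sums
  have hpartV := s5_all p (fun i => F.As.getD i 0 * (m i * (Z i).natAbs ^ 2))
  rw [hnat] at hpartV
  obtain ⟨rest, hrest⟩ : ∃ rest, sumV (((List.finRange 5).filter fun i => !p i).map g)
      (((List.finRange 5).filter fun i => !p i).map ac) = μ * rest := by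
    rw [s5_sumV]
    have h3 : μ ∣ (List.map (fun i => (g i).A * ((ac i).m * (ac i).z.natAbs ^ 2))
        ((List.finRange 5).filter fun i => !p i)).sum := by
      refine List.dvd_sum fun x hx => ?_
      obtain ⟨i, -, rfl⟩ := List.mem_map.1 hx
      exact hdv i
    exact h3
  have hsumI : sumV (((List.finRange 5).filter p).map g) (((List.finRange 5).filter p).map ac) +
      cf.mu * rest = cf.mu * rhs := by
    change _ + μ * rest = μ * rhs
    rw [← hrest, s5_sumV, s5_sumV, ← hpartV]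
    rfl
  have hrest_le : rest ≤ rhs := by
    refine Nat.le_of_mul_le_mul_left (c := μ) ?_ hμ
    have h3 : _ + μ * rest = μ * rhs := hsumI
    omega
  have hwl : ∀ i, (g i).ws.length = fl0.length ∨ fl0 = [] := by
    intro i
    rcases hfl0 with h3 | ⟨-, h3⟩
    · exact Or.inr h3
    · left
      rw [h3]
      change (t.ws.map _).length = _
      rw [List.length_map, List.length_map]
  have hfl16 : ∀ f ∈ fl0, f < 16 := by
    intro f hf
    rcases hfl0 with h3 | ⟨-, h3⟩
    · rw [h3] at hf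
      simp at hf
    · rw [h3] at hf
      obtain ⟨_, -, rfl⟩ := List.mem_map.1 hf
      norm_num
  obtain ⟨s', fl', P', N', a1, ⟨t1, a2⟩, a3, a4, a5, a6⟩ :=
    srchI_sound nd hcfok _ _ _ hforI rhs 0 0 fl0 0 0 false h128 rest hsumI
      (fun c hc => by
        obtain ⟨i, -, rfl⟩ := List.mem_map.1 hc
        exact hwl i) hfl16
      (Or.inr ⟨ac i₀, List.mem_map.2 ⟨i₀, List.mem_filter.2 ⟨List.mem_finRange _,
        (hpi i₀).2 hi₀b⟩, rfl⟩, hi₀Z⟩) h2
  obtain ⟨xb', s'', fl'', P'', N'', cross', b1, b2, ⟨t2, b3⟩, b4, b5, b6, b7, b8⟩ :=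
    srchO_sound nd hcfok (X := s5_X nd.st m) (s5_X_ok hst hm) _ _ hforO rest [0, 0, 0, 0, 0] _ s'
      fl' P' N' false (hrest_le.trans h128) hrest rfl
      (fun b => Or.inl (by
        rcases b with _ | _ | _ | _ | _ | b <;> rfl))
      (fun c hc => by
        obtain ⟨i, -, rfl⟩ := List.mem_map.1 hc
        rcases hwl i with h3 | h3
        · left; rw [h3, a3]
        · right
          rw [← List.length_eq_zero_iff, a3, h3]
          rfl) a4 a1
  -- the leaf
  have hS : sumS (((List.finRange 5).filter p).map g) (((List.finRange 5).filter p).map ac) +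
      sumS (((List.finRange 5).filter fun i => !p i).map g)
        (((List.finRange 5).filter fun i => !p i).map ac) =
      ∑ i : Fin 5, ((F.As.getD i 0 : ℕ) : ℤ) * (t.q.getD i 0 : ℕ) * (t.k.getD i 0 : ℕ) * X i := by
    rw [s5_sumS, s5_sumS]
    exact s5_all p (fun i => ((F.As.getD i 0 : ℕ) : ℤ) * (t.q.getD i 0 : ℕ) *
      (t.k.getD i 0 : ℕ) * X i)
  have hFl : ∀ t', sumF t' (((List.finRange 5).filter p).map g)
        (((List.finRange 5).filter p).map ac) +
      sumF t' (((List.finRange 5).filter fun i => !p i).map g)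
        (((List.finRange 5).filter fun i => !p i).map ac) =
      ∑ i : Fin 5, ((F.As.getD i 0 : ℕ) : ℤ) * (t.q.getD i 0 : ℕ) * Z i *
        ((t.ws.map fun w => w.getD i 0).getD t' 0 : ℕ) := by
    intro t'
    rw [s5_sumF, s5_sumF]
    exact s5_all p (fun i : Fin 5 => ((F.As.getD i 0 : ℕ) : ℤ) * (t.q.getD i 0 : ℕ) * Z i *
        ((t.ws.map fun w => w.getD i 0).getD t' 0 : ℕ))
  have hNN : sumN (((List.finRange 5).filter p).map g) (((List.finRange 5).filter p).map ac) +
      sumN (((List.finRange 5).filter fun i => !p i).map g)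
        (((List.finRange 5).filter fun i => !p i).map ac) =
      ∑ i : Fin 5, (((t.np.getD i 0 : ℕ) : ℤ) - (t.nn.getD i 0 : ℕ)) * Z i := by
    rw [s5_sumN, s5_sumN]
    exact s5_all p (fun i => (((t.np.getD i 0 : ℕ) : ℤ) - (t.nn.getD i 0 : ℕ)) * Z i)
  have hbits : 0 + bitsOf (((List.finRange 5).filter p).map g)
        (((List.finRange 5).filter p).map ac) +
      bitsOf (((List.finRange 5).filter fun i => !p i).map g)
        (((List.finRange 5).filter fun i => !p i).map ac) =
      ∑ i : Fin 5, if X i % 2 = 1 then 2 ^ (i : ℕ) else 0 := by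
    rw [zero_add, s5_bits, s5_bits]
    exact s5_all p (fun i : Fin 5 => if X i % 2 = 1 then 2 ^ (i : ℕ) else 0)
  have hpar : parOK cf s'' = true := by
    refine s5_par (S := ∑ i : Fin 5, ((F.As.getD i 0 : ℕ) : ℤ) * (t.q.getD i 0 : ℕ) *
      (t.k.getD i 0 : ℕ) * X i) ⟨t1 + t2, ?_⟩ hl hj hvar hp2 hp4
    rw [b3, a2, ← hS]
    push_cast
    ring
  have hzero : allZero fl'' = true := by
    refine allZero_of b5 fun t' ht' => ?_
    rw [b4, a3] at ht'
    rcases hfl0 with h3 | ⟨hs', h3⟩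
    · rw [h3] at ht'
      simp at ht'
    · obtain ⟨e1, he1⟩ := a5 t' ht'
      obtain ⟨e2, he2⟩ := b6 t' (by rw [a3]; exact ht')
      have hlen : t' < t.ws.length := by
        rw [h3, List.length_map] at ht'
        exact ht'
      have h4 : ∀ i : Fin 5, (t.ws.map fun w => w.getD i 0).getD t' 0 = (t.ws[t']).getD i 0 := by
        intro i
        rw [List.getD_eq_getElem _ _ (by rw [List.length_map]; exact hlen), List.getElem_map]
      obtain ⟨e, he⟩ := hws hs' (t.ws[t']) (List.getElem_mem hlen)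
      have h5 := hFl t'
      simp only [h4] at h5
      rw [he] at h5
      have h6 : fl0.getD t' 0 = 0 := by
        rw [h3, List.getD_eq_getElem _ _ (by rw [List.length_map]; exact hlen),
          List.getElem_map]
      refine ⟨e + e1 + e2, ?_⟩
      rw [he2, he1, h6]
      push_cast
      linear_combination h5
  unfold leafOK at b1
  rw [hbits] at b1
  have c1 : Nat.beq 0 0 = true := rfl
  have c2 : Nat.testBit cf.code (∑ i : Fin 5, if X i % 2 = 1 then 2 ^ (i : ℕ) else 0) = true :=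
    hcode
  rw [c1, cond_true, c2, cond_true, hpar, cond_true, hzero, cond_true] at b1
  cases hcr : cross' with
  | false =>
    exfalso
    rw [hcr, cond_false, s5_beq] at b1
    apply hn
    rw [← hNN]
    rw [b1] at b7
    push_cast at a6
    linear_combination -b7 - a6
  | true =>
    rw [hcr, cond_true, Bool.or_eq_true] at b1
    obtain ⟨d1, d2⟩ := merge_match hblk (xb := xb') hst hm hmatch hb (fun i hi _ => by
      rcases b2 (nd.st.getD i (0, 0)).1 with h3 | h3
      · exact absurd h3 hi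
      · rw [h3]
        exact s5_X_eq hst hm hmatch i)
    have d3 := canon_match d2 d1
    rcases b1 with h3 | h3
    · exact Or.inl ⟨_, memSt_iff.1 h3, d3⟩
    · exact Or.inr (forb_match (canon_ok d2) hm d3 h3 hfb)

end RH6
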