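import Pool.Agent.RH6.T1

namespace RH6

/-- coordinatewise multiplication -/
def t2_D (d : Fin 5 → ℕ) : V5 →+ V5 where
  toFun y i := (d i : ℚ) * y i
  map_zero' := by funext i; simp
  map_add' y y' := by funext i; simp [mul_add]

theorem t2_D_apply (d : Fin 5 → ℕ) (y : V5) (i : Fin 5) : t2_D d y i = (d i : ℚ) * y i := rfl

theorem t2_toQ_inj {z z' : Fin 5 → ℤ} (h : toQ z = toQ z') : z = z' := by
  funext i
  have h1 : (z i : ℚ) = (z' i : ℚ) := congrFun h i
  exact_mod_cast h1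

theorem t2_mem_toQ {H : List (Fin 5 → ℕ)} {z : Fin 5 → ℤ} : toQ z ∈ KH H ↔ InH H z := by
  rw [mem_KH]
  constructor
  · rintro ⟨z', h1, h2⟩
    rw [t2_toQ_inj h1]
    exact h2
  · intro h
    exact ⟨z, rfl, h⟩

theorem t2_even_sum {ι : Type*} (s : Finset ι) (f : ι → ℤ) (h : ∀ i ∈ s, Even (f i)) :
    Even (∑ i ∈ s, f i) := by
  rw [even_iff_two_dvd]
  exact Finset.dvd_sum fun i hi => (h i hi).two_dvd

theorem t2_InH_odd {H : List (Fin 5 → ℕ)} {d : Fin 5 → ℤ} (hd : ∀ i, Odd (d i))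
    (z : Fin 5 → ℤ) : InH H (fun i => d i * z i) ↔ InH H z := by
  unfold InH
  refine forall₂_congr fun h _ => ?_
  have key : Even ((∑ i, (h i : ℤ) * (d i * z i)) - ∑ i, (h i : ℤ) * z i) := by
    rw [← Finset.sum_sub_distrib]
    apply t2_even_sum
    intro i _
    obtain ⟨t, ht⟩ := hd i
    rw [ht]
    exact ⟨h i * t * z i, by ring⟩
  constructor
  · intro h1
    have h2 := h1.sub key
    simpa using h2
  · intro h1
    have h2 := h1.add key
    simpa using h2

theorem t2_D_toQ (d : Fin 5 → ℕ) (z : Fin 5 → ℤ) :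
    t2_D d (toQ z) = toQ (fun i => (d i : ℤ) * z i) := by
  funext i
  show (d i : ℚ) * (z i : ℚ) = (((d i : ℤ) * z i : ℤ) : ℚ)
  push_cast
  rfl

theorem t2_D_mem {H : List (Fin 5 → ℕ)} {d : Fin 5 → ℕ} (hd : ∀ i, Odd (d i)) {y : V5}
    (hy : y ∈ KH H) : t2_D d y ∈ KH H := by
  obtain ⟨z, rfl, hz⟩ := mem_KH.1 hy
  rw [t2_D_toQ, t2_mem_toQ, t2_InH_odd (fun i => by exact_mod_cast hd i)]
  exact hz

theorem t2_Bm (A m : Fin 5 → ℕ) (y w : V5) :
    Bm A m y w = (1 / 2 : ℚ) * ∑ i, (A i : ℚ) * m i * y i * w i := rfl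

/-- the data of the construction: `d i = x / g i`, `m' i = del x (m i)` -/
structure t2_Dat (x : ℕ) (m m' d g : Fin 5 → ℕ) : Prop where
  dg : ∀ i, d i * g i = x
  mg : ∀ i, m' i * g i = m i * d i
  dodd : ∀ i, Odd (d i)
  godd : ∀ i, Odd (g i)
  modd : ∀ i, Odd (m' i)
  msq : ∀ i, Squarefree (m' i)

theorem t2_exists_dat {m : Fin 5 → ℕ} (hm : ∀ i, Odd (m i) ∧ Squarefree (m i)) {x : ℕ}
    (hx : Odd x) (hx2 : Squarefree x) :
    ∃ d g : Fin 5 → ℕ, t2_Dat x m (fun i => del x (m i)) d g := by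
  have hx0 : 0 < x := hx.pos
  refine ⟨fun i => x / Nat.gcd x (m i), fun i => Nat.gcd x (m i), ?_⟩
  have hdg : ∀ i, x / Nat.gcd x (m i) * Nat.gcd x (m i) = x := fun i =>
    Nat.div_mul_cancel (Nat.gcd_dvd_left _ _)
  have hg0 : ∀ i, 0 < Nat.gcd x (m i) := fun i => Nat.gcd_pos_of_pos_left _ hx0
  refine ⟨hdg, ?_, ?_, ?_, fun i => del_odd hx (hm i).1, fun i => del_sq hx2 (hm i).2⟩
  · intro i
    have h1 := del_gcd x (m i)
    have h2 : (del x (m i) * Nat.gcd x (m i)) * Nat.gcd x (m i) =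
        (m i * (x / Nat.gcd x (m i))) * Nat.gcd x (m i) := by
      calc (del x (m i) * Nat.gcd x (m i)) * Nat.gcd x (m i)
          = del x (m i) * Nat.gcd x (m i) ^ 2 := by ring
        _ = x * m i := h1
        _ = m i * (x / Nat.gcd x (m i) * Nat.gcd x (m i)) := by rw [hdg i]; ring
        _ = _ := by ring
    exact Nat.eq_of_mul_eq_mul_right (hg0 i) h2
  · intro i
    have h1 : Odd (x / Nat.gcd x (m i) * Nat.gcd x (m i)) := by rw [hdg i]; exact hx
    exact (Nat.odd_mul.1 h1).1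
  · intro i
    have h1 : Odd (x / Nat.gcd x (m i) * Nat.gcd x (m i)) := by rw [hdg i]; exact hx
    exact (Nat.odd_mul.1 h1).2

section
variable {A m m' d g : Fin 5 → ℕ} {x : ℕ} (hD : t2_Dat x m m' d g)
include hD

/-- adjunction -/
theorem t2_adj (y w : V5) : Bm A m (t2_D d y) w = Bm A m' y (t2_D g w) := by
  rw [t2_Bm, t2_Bm]
  congr 1
  refine Finset.sum_congr rfl fun i _ => ?_
  rw [t2_D_apply, t2_D_apply]
  have h1 : (m' i : ℚ) * g i = m i * d i := by exact_mod_cast hD.mg i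
  linear_combination (-(A i : ℚ) * y i * w i) * h1

theorem t2_comp (w : V5) : t2_D g (t2_D d w) = (x : ℚ) • w := by
  funext i
  rw [t2_D_apply, t2_D_apply, Pi.smul_apply, smul_eq_mul]
  have h1 : (d i : ℚ) * g i = x := by exact_mod_cast hD.dg i
  linear_combination (w i) * h1

theorem t2_comp' (w : V5) : t2_D d (t2_D g w) = (x : ℚ) • w := by
  funext i
  rw [t2_D_apply, t2_D_apply, Pi.smul_apply, smul_eq_mul]
  have h1 : (d i : ℚ) * g i = x := by exact_mod_cast hD.dg i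
  linear_combination (w i) * h1

theorem t2_form (y w : V5) : Bm A m (t2_D d y) (t2_D d w) = x * Bm A m' y w := by
  rw [t2_adj hD, t2_comp hD, map_smul, smul_eq_mul]

theorem t2_xodd : Odd x := by
  rw [← hD.dg 0]
  exact (hD.dodd 0).mul (hD.godd 0)

/-- integrality -/
theorem t2_int {H : List (Fin 5 → ℕ)} (hI : Integ (Bm A m) (KH H)) : Integ (Bm A m') (KH H) := by
  intro y hy w hw
  obtain ⟨a, ha⟩ := hI _ (t2_D_mem hD.dodd hy) _ (t2_D_mem hD.dodd hw)
  rw [t2_form hD] at ha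
  obtain ⟨z, rfl, hz⟩ := mem_KH.1 hy
  obtain ⟨z', rfl, hz'⟩ := mem_KH.1 hw
  obtain ⟨t, ht⟩ := t2_xodd hD
  refine ⟨a - t * S2 A m' z z', ?_⟩
  rw [ht, Bm_toQ] at ha
  rw [Bm_toQ]
  push_cast at ha ⊢
  linear_combination ha

theorem t2_even {H : List (Fin 5 → ℕ)} (hI : EvenL (Bm A m) (KH H)) :
    EvenL (Bm A m') (KH H) := by
  refine ⟨t2_int hD hI.1, fun y hy => ?_⟩
  obtain ⟨n, hn⟩ := t2_int hD hI.1 y hy y hy
  obtain ⟨a, ha⟩ := hI.2 _ (t2_D_mem hD.dodd hy)
  rw [t2_form hD, hn] at ha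
  obtain ⟨t, ht⟩ := t2_xodd hD
  rw [ht] at ha
  refine ⟨a - t * n, ?_⟩
  rw [hn]
  push_cast at ha ⊢
  linear_combination ha

/-- the radical -/
theorem t2_rad {H : List (Fin 5 → ℕ)} (hI : Integ (Bm A m) (KH H)) {y : V5} (hy : y ∈ KH H) :
    y ∈ Rad (Bm A m') (KH H) 2 ↔ t2_D d y ∈ Rad (Bm A m) (KH H) 2 := by
  constructor
  · rintro ⟨_, h⟩
    refine ⟨t2_D_mem hD.dodd hy, fun w hw => ?_⟩
    rw [t2_adj hD]
    exact h _ (t2_D_mem hD.godd hw)
  · rintro ⟨_, h⟩
    refine ⟨hy, fun w hw => ?_⟩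
    obtain ⟨a, ha⟩ := h _ (t2_D_mem hD.dodd hw)
    rw [t2_form hD] at ha
    obtain ⟨n, hn⟩ := t2_int hD hI y hy w hw
    obtain ⟨t, ht⟩ := t2_xodd hD
    rw [hn, ht] at ha
    refine ⟨a - t * n, ?_⟩
    rw [hn]
    push_cast at ha ⊢
    linear_combination ha

theorem t2_index {H : List (Fin 5 → ℕ)} (hI : Integ (Bm A m) (KH H)) :
    (Rad (Bm A m') (KH H) 2).relIndex (KH H) = (Rad (Bm A m) (KH H) 2).relIndex (KH H) := by
  set K := KH H with hK
  set R := Rad (Bm A m) K 2 with hR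
  set R' := Rad (Bm A m') K 2 with hR'
  have h1 : R' ⊓ K = R.comap (t2_D d) ⊓ K := by
    ext y
    rw [AddSubgroup.mem_inf, AddSubgroup.mem_inf]
    refine and_congr_left fun hy => ?_
    exact t2_rad hD hI hy
  rw [← AddSubgroup.inf_relIndex_right, h1, AddSubgroup.inf_relIndex_right,
    AddSubgroup.relIndex_comap]
  have h2 : K.map (t2_D d) ⊔ R = K := by
    apply le_antisymm
    · refine sup_le ?_ fun y hy => hy.1
      rintro y ⟨w, hw, rfl⟩
      exact t2_D_mem hD.dodd hw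
    · intro w hw
      obtain ⟨t, ht⟩ := t2_xodd hD
      have h3 : w = t2_D d (t2_D g w) + (-((2 * t : ℤ) • w)) := by
        rw [t2_comp' hD, ht, ← Int.cast_smul_eq_zsmul ℚ]
        push_cast
        module
      rw [h3]
      apply AddSubgroup.add_mem
      · exact AddSubgroup.mem_sup_left ⟨_, t2_D_mem hD.godd hw, rfl⟩
      · refine AddSubgroup.mem_sup_right (R.neg_mem ⟨K.zsmul_mem hw _, fun v hv => ?_⟩)
        obtain ⟨n, hn⟩ := hI w hw v hv
        refine ⟨t * n, ?_⟩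
        rw [map_zsmul, LinearMap.smul_apply, hn, zsmul_eq_mul]
        push_cast
        ring
  have h3 := AddSubgroup.relIndex_sup_right (H := K.map (t2_D d)) (K := R)
  rw [h2] at h3
  exact h3.symm

theorem t2_elem_odd {H : List (Fin 5 → ℕ)} (hA : ∀ i, A i = 1 ∨ A i = 2 ∨ A i = 4) {p : ℕ}
    (hp : p.Prime) (hp2 : p ≠ 2) : Elem (Bm A m') (KH H) p := by
  intro z hz hpz
  have hodd : Odd p := hp.odd_of_ne_two hp2
  -- `p z_i` is an integer
  have h1 : ∀ i, ∃ w : ℤ, (p : ℚ) * z i = w := by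
    intro i
    obtain ⟨w2, h2, _⟩ := mem_KH.1 hpz
    have h3 : (p : ℚ) ^ 2 * z i = w2 i := by
      have h4 := congrFun h2 i
      rw [Pi.smul_apply, zsmul_eq_mul] at h4
      push_cast at h4
      exact h4
    have h5 : toQ (Pi.single i 2) ∈ KH H := by
      rw [t2_mem_toQ]
      intro h _
      apply t2_even_sum
      intro j _
      by_cases hj : j = i
      · subst hj
        rw [Pi.single_eq_same]
        exact ⟨h j, by ring⟩
      · rw [Pi.single_eq_of_ne hj, mul_zero]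
        exact Even.zero
    obtain ⟨u, hu⟩ := hz _ h5
    have h6 : (A i : ℚ) * m' i * z i = u := by
      rw [← hu, t2_Bm, Finset.sum_eq_single i]
      · show _ = 1 / 2 * ((A i : ℚ) * m' i * z i * (((Pi.single i 2 : Fin 5 → ℤ) i : ℤ) : ℚ))
        rw [Pi.single_eq_same]
        push_cast
        ring
      · intro j _ hj
        show (A j : ℚ) * m' j * z j * (((Pi.single i 2 : Fin 5 → ℤ) j : ℤ) : ℚ) = 0
        rw [Pi.single_eq_of_ne hj]
        push_cast
        ring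
      · intro h
        exact absurd (Finset.mem_univ i) h
    -- gcd
    have h7 : Nat.gcd (p ^ 2) (A i * m' i) ∣ p := by
      have hc : Nat.Coprime (p ^ 2) (A i) := by
        apply Nat.Coprime.pow_left
        rcases hA i with h | h | h
        · rw [h]
          exact Nat.coprime_one_right p
        · rw [h]
          exact Nat.coprime_two_right.2 hodd
        · rw [h]
          exact Nat.Coprime.pow_right 2 (Nat.coprime_two_right.2 hodd)
      rw [Nat.Coprime.gcd_mul_left_cancel_right _ hc.symm]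
      have h8 : Nat.gcd (p ^ 2) (m' i) ∣ p ^ 2 := Nat.gcd_dvd_left _ _
      obtain ⟨k, hk, hk'⟩ := (Nat.dvd_prime_pow hp).1 h8
      rw [hk']
      have h9 : k ≤ 1 := by
        by_contra hcon
        have h10 : k = 2 := by omega
        have h11 : p * p ∣ m' i := by
          rw [← pow_two, ← h10, ← hk']
          exact Nat.gcd_dvd_right _ _
        have h12 := hD.msq i p h11
        rw [Nat.isUnit_iff] at h12
        exact hp.one_lt.ne' h12
      calc p ^ k ∣ p ^ 1 := pow_dvd_pow p h9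
        _ = p := pow_one p
    obtain ⟨q, hq⟩ := h7
    have h8 := Nat.gcd_eq_gcd_ab (p ^ 2) (A i * m' i)
    have h9 : (p : ℤ) = ((p ^ 2 : ℕ) * Nat.gcdA (p ^ 2) (A i * m' i) +
        (A i * m' i : ℕ) * Nat.gcdB (p ^ 2) (A i * m' i)) * q := by
      rw [← h8]
      exact_mod_cast hq
    set a := Nat.gcdA (p ^ 2) (A i * m' i)
    set b := Nat.gcdB (p ^ 2) (A i * m' i)
    refine ⟨(w2 i * a + u * b) * q, ?_⟩
    have h10 : (p : ℚ) = ((p : ℚ) ^ 2 * a + (A i : ℚ) * m' i * b) * q := by exact_mod_cast h9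
    rw [h10]
    push_cast
    linear_combination ((a : ℚ) * q) * h3 + ((b : ℚ) * q) * h6
  choose w hw using h1
  have h2 : (p : ℤ) • z = toQ w := by
    funext i
    rw [Pi.smul_apply, zsmul_eq_mul]
    push_cast
    exact hw i
  rw [h2, t2_mem_toQ]
  have h3 : ((p : ℤ) ^ 2) • z = toQ (fun i => (p : ℤ) * w i) := by
    funext i
    rw [Pi.smul_apply, zsmul_eq_mul]
    show _ = (((p : ℤ) * w i : ℤ) : ℚ)
    push_cast
    rw [← hw i]
    ring
  rw [h3, t2_mem_toQ] at hpz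
  exact (t2_InH_odd (d := fun _ => (p : ℤ)) (fun _ => by exact_mod_cast hodd) w).1 hpz

theorem t2_elem_two {H : List (Fin 5 → ℕ)} (hE : Elem (Bm A m) (KH H) 2) :
    Elem (Bm A m') (KH H) 2 := by
  intro z hz h4
  have h1 : t2_D d z ∈ dualL (Bm A m) (KH H) := by
    intro w hw
    rw [t2_adj hD]
    exact hz _ (t2_D_mem hD.godd hw)
  have h2 : (((2 : ℕ) : ℤ) ^ 2) • t2_D d z ∈ KH H := by
    rw [← map_zsmul]
    exact t2_D_mem hD.dodd h4
  have h3 := hE _ h1 h2
  obtain ⟨v, hv, hv'⟩ := mem_KH.1 h3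
  obtain ⟨u, hu, _⟩ := mem_KH.1 h4
  have h5 : ∀ i, ∃ w : ℤ, (2 : ℚ) * z i = w := by
    intro i
    obtain ⟨t, ht⟩ := hD.dodd i
    refine ⟨v i - t * u i, ?_⟩
    have e1 : (2 : ℚ) * ((d i : ℚ) * z i) = v i := by
      have := congrFun hv i
      rw [Pi.smul_apply, zsmul_eq_mul, t2_D_apply] at this
      push_cast at this
      exact this
    have e2 : (2 : ℚ) ^ 2 * z i = u i := by
      have := congrFun hu i
      rw [Pi.smul_apply, zsmul_eq_mul] at this
      push_cast at this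
      exact this
    rw [ht] at e1
    push_cast at e1 ⊢
    linear_combination e1 - (t : ℚ) * e2
  choose w hw using h5
  have h6 : (((2 : ℕ) : ℤ)) • z = toQ w := by
    funext i
    rw [Pi.smul_apply, zsmul_eq_mul]
    push_cast
    exact hw i
  rw [h6, t2_mem_toQ]
  have h7 : v = fun i => (d i : ℤ) * w i := by
    apply t2_toQ_inj
    rw [← t2_D_toQ, ← h6, map_zsmul]
    exact hv.symm
  rw [h7] at hv'
  exact (t2_InH_odd (fun i => by exact_mod_cast hD.dodd i) w).1 hv'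

theorem t2_star {H : List (Fin 5 → ℕ)} (hI : Integ (Bm A m) (KH H))
    (hs : ∀ k ∈ Rad (Bm A m) (KH H) 2, (∃ z : ℤ, Bm A m k k = 8 * z) → k ∈ mulL 2 (KH H)) :
    ∀ k ∈ Rad (Bm A m') (KH H) 2, (∃ z : ℤ, Bm A m' k k = 8 * z) → k ∈ mulL 2 (KH H) := by
  intro k hk hz
  obtain ⟨z, hz⟩ := hz
  have hkK : k ∈ KH H := hk.1
  obtain ⟨y, hy, hy'⟩ := hs _ ((t2_rad hD hI hkK).1 hk)
    ⟨x * z, by rw [t2_form hD, hz]; push_cast; ring⟩
  obtain ⟨a, rfl, ha⟩ := mem_KH.1 hkK
  obtain ⟨c, rfl, hc⟩ := mem_KH.1 hy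
  have h1 : ∀ i, (d i : ℤ) * a i = 2 * c i := by
    intro i
    have h2 := congrFun hy' i
    rw [t2_D_apply, Pi.smul_apply, zsmul_eq_mul] at h2
    have h3 : (d i : ℚ) * (a i : ℚ) = 2 * (c i : ℚ) := by
      push_cast at h2
      exact h2
    exact_mod_cast h3
  have h2 : ∀ i, ∃ b : ℤ, a i = 2 * b := by
    intro i
    obtain ⟨t, ht⟩ := hD.dodd i
    refine ⟨c i - t * a i, ?_⟩
    have h3 := h1 i
    rw [ht] at h3
    push_cast at h3
    linear_combination h3
  choose b hb using h2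
  have h3 : c = fun i => (d i : ℤ) * b i := by
    funext i
    have h4 := h1 i
    rw [hb i] at h4
    have h5 : (2 : ℤ) * c i = 2 * ((d i : ℤ) * b i) := by linear_combination -h4
    exact mul_left_cancel₀ (by norm_num) h5
  rw [h3, t2_InH_odd (fun i => by exact_mod_cast hD.dodd i)] at hc
  refine ⟨toQ b, t2_mem_toQ.2 hc, ?_⟩
  funext i
  rw [Pi.smul_apply, zsmul_eq_mul]
  show (a i : ℚ) = _ * (b i : ℚ)
  rw [hb i]
  push_cast
  ring

end


/-- Row [RH-T2]: the families are stable under `m ↦ del x m` (`x` odd squarefree).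

Proof.  `K = KH H`, `B = Bm A m`, `m'_i = del x (m_i)`, `B' = Bm A m'`, `g_i = gcd(x,m_i)`,
`D y = ((x/g_i) y_i)`, `D' y = (g_i y_i)`: both map `K` into `K` (odd multipliers), `D D' = x`, and
`B (D y) (D y') = x B' y y'`.
* `K5`: `KH_K5`.  Integral: `2 B' y y' ∈ ℤ`, `x B' y y' ∈ ℤ`.  Even: `x B' y y ∈ 2ℤ`.
* `Elem` for odd `p`: let `z` be in the dual for `B'` and `p² z ∈ K`.  `B' z (2e_i) = A_i m'_i z_i ∈ ℤ`
  and `p² z_i ∈ ℤ`, `gcd(p², A_i m'_i)` divides `p`, so `p z_i ∈ ℤ`, and `p² z_i ≡ p z_i mod 2`, so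
  `p z ∈ K`.
* `Elem` for 2: `z` in the dual for `B'`, `4z ∈ K`.  For `w ∈ K`: `x B (D z) w = B (D z) (D D' w) =
  x B' z (D' w)`, hence `B (D z) w = B' z (D' w) ∈ ℤ`.  So `D z` is in the dual for `B` and
  `4 D z ∈ K`, so `2 D z ∈ K` by `Elem`; `2(x/g_i) z_i ∈ ℤ` and `4 z_i ∈ ℤ` give `2z_i ∈ ℤ`, with the
  same parity as `2 (x/g_i) z_i`; so `2z ∈ K`.
* index: the map `K → K / Rad B K 2`, `y ↦ D y` is surjective (`w ≡ x w = D (D' w)` mod `2K`,
  `2K ≤ Rad`) with kernel `Rad B' K 2`: `D y ∈ Rad B K 2` iff `B (D y) (D w') ∈ 2ℤ` for all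
  `w' ∈ K` (`x w = D D' w`) iff `x B' y w' ∈ 2ℤ`.
* `star`: if `k ∈ Rad B' K 2` and `8 ∣ B' k k`, then `D k ∈ Rad B K 2`, `8 ∣ B (D k) (D k)`, so
  `D k ∈ 2K`, so `k ∈ 2K` (odd multipliers). -/
theorem class_del {kd : Kd} {A m : Fin 5 → ℕ} {H : List (Fin 5 → ℕ)}
    (hA : ∀ i, A i = 1 ∨ A i = 2 ∨ A i = 4) (hm : ∀ i, Odd (m i) ∧ Squarefree (m i))
    {x : ℕ} (hx : Odd x) (hx2 : Squarefree x) (h : Cls kd (Bm A m) (KH H)) :
    Cls kd (Bm A (fun i => del x (m i))) (KH H) := by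
  obtain ⟨d, g, hD⟩ := t2_exists_dat hm hx hx2
  have hA0 : ∀ i, 0 < A i := by
    intro i
    rcases hA i with h | h | h <;> omega
  have hK5 : K5 (Bm A (fun i => del x (m i))) (KH H) :=
    KH_K5 hA0 (fun i => (hD.modd i).pos) H
  cases kd with
  | k0 =>
    have h' : F0 (Bm A m) (KH H) := h
    exact { toK5 := hK5
            even := t2_even hD h'.even
            elem := fun p hp => by
              by_cases hp2 : p = 2
              · subst hp2
                exact t2_elem_two hD (h'.elem 2 hp)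
              · exact t2_elem_odd hD hA hp hp2
            idx := by rw [t2_index hD h'.even.1]; exact h'.idx }
  | k2 =>
    have h' : F2 (Bm A m) (KH H) := h
    exact { toK5 := hK5
            even := t2_even hD h'.even
            elem := fun p hp => by
              by_cases hp2 : p = 2
              · subst hp2
                exact t2_elem_two hD (h'.elem 2 hp)
              · exact t2_elem_odd hD hA hp hp2
            idx := by rw [t2_index hD h'.even.1]; exact h'.idx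
            star := t2_star hD h'.even.1 h'.star }
  | kQ =>
    have h' : FQ (Bm A m) (KH H) := h
    exact { toK5 := hK5
            int := t2_int hD h'.int
            elem := fun p hp hp2 => t2_elem_odd hD hA hp hp2
            idx := by rw [t2_index hD h'.int]; exact h'.idx }

end RH6
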