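import Pool.Agent.RH6.T2
import Pool.Agent.RH6.B3b
import Pool.Agent.RH6.B2

namespace RH6

/-- Row [RH-T3]: (inside the proof of `nb2_odd`, row N4) for `F_Q` there is `x₀` with given
`(x₀,k)` and `(x₀,x₀)` mod 2. -/
theorem exists_x0 {V : Type*} [AddCommGroup V] [Module ℚ V] [FiniteDimensional ℚ V]
    {B : LinearMap.BilinForm ℚ V} {K : AddSubgroup V} (hF : FQ B K) {k : V}
    (hk : k ∈ K) (h2 : k ∉ mulL 2 K) (hu : ∃ u : ℤ, B k k = 4 * u) (a b : ℤ) :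
    ∃ x₀ ∈ K, (∃ t : ℤ, B x₀ k = a + 2 * t) ∧ ∃ t : ℤ, B x₀ x₀ = b + 2 * t := by
  have hs := hF.symm
  have hI := hF.int
  -- `Rad = 2K`
  have hrad : Rad B K 2 ≤ mulL 2 K := by
    have h1 : (mulL 2 K).relIndex K = 32 := by
      rw [relIndex_mulL hF.lat 2 (by norm_num), hF.dim]; norm_num
    have h3 := AddSubgroup.relIndex_mul_relIndex (mulL 2 K) (Rad B K 2) K
      (mulL_le_rad hI 2) (fun x hx => hx.1)
    rw [h1, hF.idx] at h3
    have h4 : (mulL 2 K).relIndex (Rad B K 2) = 1 := by omega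
    exact AddSubgroup.relIndex_eq_one.1 h4
  obtain ⟨x1, hx1, t1, ht1⟩ : ∃ x ∈ K, ∃ t : ℤ, B x k = 1 + 2 * t := by
    by_contra hcon
    push Not at hcon
    apply h2
    apply hrad
    refine ⟨hk, fun y hy => ?_⟩
    obtain ⟨z, hz⟩ := hI y hy k hk
    rcases Int.even_or_odd z with ⟨w, hw⟩ | ⟨w, hw⟩
    · exact ⟨w, by rw [hs, hz, hw]; push_cast; ring⟩
    · exact absurd (by rw [hz, hw]; push_cast; ring) (hcon y hy w)
  have h32 : (Rad B K 2).relIndex K = 2 ^ 5 := by rw [hF.idx]; norm_num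
  obtain ⟨x2, hx2, t2, ht2⟩ : ∃ x ∈ K, ∃ t : ℤ, B x x = 1 + 2 * t := by
    by_contra hcon
    push Not at hcon
    have hE : EvenL B K := by
      refine ⟨hI, fun x hx => ?_⟩
      obtain ⟨z, hz⟩ := hI x hx x hx
      rcases Int.even_or_odd z with ⟨w, hw⟩ | ⟨w, hw⟩
      · exact ⟨w, by rw [hz, hw]; push_cast; ring⟩
      · exact absurd (by rw [hz, hw]; push_cast; ring) (hcon x hx w)
    have := even_rank hs hE 5 h32
    exact absurd this (by decide)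
  obtain ⟨x3, hx3, t3, ht3⟩ : ∃ x ∈ K, ∃ t : ℤ, B x x - B x k = 1 + 2 * t := by
    by_contra hcon
    push Not at hcon
    have hc : ∀ x ∈ K, ∃ z : ℤ, B x x - B x k = 2 * z := by
      intro x hx
      obtain ⟨z, hz⟩ := hI x hx x hx
      obtain ⟨z', hz'⟩ := hI x hx k hk
      rcases Int.even_or_odd (z - z') with ⟨w, hw⟩ | ⟨w, hw⟩
      · refine ⟨w, ?_⟩
        have hw' : (z : ℚ) - z' = w + w := by exact_mod_cast hw
        rw [hz, hz', hw']; ring
      · have hw' : (z : ℚ) - z' = 2 * w + 1 := by exact_mod_cast hw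
        exact absurd (by rw [hz, hz', hw']; ring) (hcon x hx w)
    obtain ⟨z, hz⟩ := char_vec' hs hI 5 h32 hk hc
    obtain ⟨u, hu⟩ := hu
    rw [hu] at hz
    have h5 : ((4 * u - 5 : ℤ) : ℚ) = ((2 * z : ℤ) : ℚ) := by
      push_cast at hz ⊢
      exact hz
    have h6 : 4 * u - 5 = 2 * z := Int.cast_injective h5
    omega
  -- a dual basis modulo 2
  have hadd : ∀ x ∈ K, ∀ y ∈ K, ∃ z : ℤ, B (x + y) (x + y) = B x x + B y y + 2 * z := by
    intro x hx y hy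
    obtain ⟨z, hz⟩ := hI x hx y hy
    refine ⟨z, ?_⟩
    rw [map_add, map_add, LinearMap.add_apply, LinearMap.add_apply, hs y x, hz]
    ring
  obtain ⟨e1, he1, e2, he2, ⟨p, hp⟩, ⟨q, hq⟩, ⟨r, hr⟩, ⟨s, hs'⟩⟩ : ∃ e1 ∈ K, ∃ e2 ∈ K,
      (∃ t : ℤ, B e1 k = 1 + 2 * t) ∧ (∃ t : ℤ, B e1 e1 = 2 * t) ∧
      (∃ t : ℤ, B e2 k = 2 * t) ∧ ∃ t : ℤ, B e2 e2 = 1 + 2 * t := by
    obtain ⟨z3, hz3⟩ := hI x3 hx3 k hk
    rcases Int.even_or_odd z3 with ⟨w, hw⟩ | ⟨w, hw⟩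
    · -- `x3 = (0,1)`
      have hk3 : B x3 k = 2 * w := by rw [hz3, hw]; push_cast; ring
      have hx33 : B x3 x3 = 1 + 2 * (t3 + w : ℤ) := by push_cast; linear_combination ht3 + hk3
      obtain ⟨z1, hz1⟩ := hI x1 hx1 x1 hx1
      rcases Int.even_or_odd z1 with ⟨v, hv⟩ | ⟨v, hv⟩
      · exact ⟨x1, hx1, x3, hx3, ⟨t1, ht1⟩, ⟨v, by rw [hz1, hv]; push_cast; ring⟩, ⟨w, hk3⟩,
          ⟨_, hx33⟩⟩
      · obtain ⟨z, hz⟩ := hadd x1 hx1 x3 hx3
        refine ⟨x1 + x3, K.add_mem hx1 hx3, x3, hx3, ⟨t1 + w, ?_⟩, ⟨v + 1 + (t3 + w) + z, ?_⟩,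
          ⟨w, hk3⟩, ⟨_, hx33⟩⟩
        · rw [map_add, LinearMap.add_apply, ht1, hk3]; push_cast; ring
        · rw [hz, hz1, hv, hx33]; push_cast; ring
    · -- `x3 = (1,0)`
      have hk3 : B x3 k = 1 + 2 * w := by rw [hz3, hw]; push_cast; ring
      have hx33 : B x3 x3 = 2 * (t3 + w + 1 : ℤ) := by push_cast; linear_combination ht3 + hk3
      obtain ⟨z1, hz1⟩ := hI x2 hx2 k hk
      rcases Int.even_or_odd z1 with ⟨v, hv⟩ | ⟨v, hv⟩
      · exact ⟨x3, hx3, x2, hx2, ⟨w, hk3⟩, ⟨_, hx33⟩, ⟨v, by rw [hz1, hv]; push_cast; ring⟩,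
          ⟨t2, ht2⟩⟩
      · obtain ⟨z, hz⟩ := hadd x2 hx2 x3 hx3
        refine ⟨x3, hx3, x2 + x3, K.add_mem hx2 hx3, ⟨w, hk3⟩, ⟨_, hx33⟩, ⟨v + w + 1, ?_⟩,
          ⟨t2 + (t3 + w + 1) + z, ?_⟩⟩
        · rw [map_add, LinearMap.add_apply, hz1, hv, hk3]; push_cast; ring
        · rw [hz, ht2, hx33]; push_cast; ring
  refine ⟨a • e1 + b • e2, K.add_mem (K.zsmul_mem he1 a) (K.zsmul_mem he2 b), ⟨a * p + b * r, ?_⟩,
    ?_⟩
  · rw [map_add, LinearMap.add_apply, map_zsmul, map_zsmul, LinearMap.smul_apply,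
      LinearMap.smul_apply, hp, hr, zsmul_eq_mul, zsmul_eq_mul]
    push_cast; ring
  · obtain ⟨z, hz⟩ := hI e1 he1 e2 he2
    obtain ⟨m, hm⟩ : ∃ m : ℤ, b * b = b + 2 * m := by
      rcases Int.even_or_odd b with ⟨c, hc⟩ | ⟨c, hc⟩
      · exact ⟨2 * c * c - c, by rw [hc]; ring⟩
      · exact ⟨2 * c * c + c, by rw [hc]; ring⟩
    have hm' : (b : ℚ) * b = b + 2 * m := by exact_mod_cast hm
    refine ⟨a * a * q + a * b * z + m + b * b * s, ?_⟩
    simp only [map_add, LinearMap.add_apply, map_zsmul, LinearMap.smul_apply, zsmul_eq_mul, hq,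
      hs', hs e2 e1, hz]
    push_cast
    linear_combination hm'

/-- a quadratic polynomial with leading coefficient prime to the primes of `S` has a value prime to
all the primes of `S` -/
theorem t3_crt (c α β : ℤ) (S : Finset ℕ) (hS : ∀ p ∈ S, p.Prime ∧ p ≠ 2 ∧ ¬ (p : ℤ) ∣ β) :
    ∃ t : ℤ, ∀ p ∈ S, ¬ (p : ℤ) ∣ c - α * t - β * t ^ 2 := by
  induction S using Finset.induction_on with
  | empty => exact ⟨0, by simp⟩
  | insert p S hpS ih =>
    obtain ⟨t, ht⟩ := ih (fun q hq => hS q (Finset.mem_insert_of_mem hq))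
    obtain ⟨hp, hp2, hpβ⟩ := hS p (Finset.mem_insert_self _ _)
    obtain ⟨tp, htp⟩ : ∃ tp : ℤ, ¬ (p : ℤ) ∣ c - α * tp - β * tp ^ 2 := by
      by_contra hcon
      push Not at hcon
      have h0 := hcon 0
      have h1 := hcon 1
      have h2 := hcon (-1)
      have h3 : (p : ℤ) ∣ 2 * β := by
        have h4 := dvd_sub (dvd_add h0 h0) (dvd_add h1 h2)
        have h5 : (c - α * 0 - β * 0 ^ 2 + (c - α * 0 - β * 0 ^ 2)) -
          (c - α * 1 - β * 1 ^ 2 + (c - α * -1 - β * (-1) ^ 2)) = 2 * β := by ring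
        rwa [h5] at h4
      rcases (Nat.prime_iff_prime_int.1 hp).dvd_or_dvd h3 with h6 | h6
      · have h7 : p ∣ 2 := by exact_mod_cast h6
        exact hp2 ((Nat.prime_dvd_prime_iff_eq hp Nat.prime_two).1 h7)
      · exact hpβ h6
    have hcop : IsCoprime (∏ q ∈ S, (q : ℤ)) p := by
      apply IsCoprime.prod_left
      intro q hq
      have hq' := (hS q (Finset.mem_insert_of_mem hq)).1
      have hne : q ≠ p := fun h => hpS (h ▸ hq)
      exact Nat.isCoprime_iff_coprime.2 ((Nat.coprime_primes hq' hp).2 hne)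
    obtain ⟨u, v, huv⟩ := hcop
    have hred : ∀ (m x y : ℤ), m ∣ x - y → m ∣ c - α * x - β * x ^ 2 →
        m ∣ c - α * y - β * y ^ 2 := by
      intro m x y h1 h2
      have h3 : c - α * y - β * y ^ 2 = (c - α * x - β * x ^ 2) + (x - y) * (α + β * (x + y)) := by
        ring
      rw [h3]
      exact dvd_add h2 (Dvd.dvd.mul_right h1 _)
    refine ⟨t + (∏ q ∈ S, (q : ℤ)) * (u * (tp - t)), fun q hq => ?_⟩
    rcases Finset.mem_insert.1 hq with rfl | hq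
    · intro h
      apply htp
      refine hred _ _ _ ?_ h
      refine ⟨v * (t - tp), ?_⟩
      linear_combination (tp - t) * huv
    · intro h
      apply ht q hq
      refine hred _ _ _ ?_ h
      rw [add_sub_cancel_left]
      exact Dvd.dvd.mul_right (Finset.dvd_prod_of_mem _ hq) _

/-- Row [RH-T3]: making `c` prime to `x`.

Proof.  For an odd prime `p ∣ x` and `y = 2 t e_{i₀}`, `t ∈ ℤ`:
`S2(k+16y,k+16y) = S2(k,k) + 64 t A_{i₀} k_{i₀} + 1024 t² A_{i₀}` (`m_{i₀} = 1`) is a quadratic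
polynomial in `t` modulo `p` with leading coefficient prime to `p`, so there is `t_p` with
`p ∤ S2(k+16y,k+16y)` (at most 2 roots, `p ≥ 3`).  Choose `t ≡ t_p mod p` for all `p ∣ x` (Chinese
remainder theorem); `4 l c' = -S2(k',k')`, `k' = k + 16 y`; `c'` is an integer and
`c' = c - (16·2 S2(k,y) + 256 S2(y,y))/(4l)`, `S2(y,y)`, `S2(k,y) ∈ 2ℤ` (the form is integral), so
`c' ≡ c mod 4` for `l = 2, 4`; `c'` is odd and prime to `x`. -/
theorem adj {A m : Fin 5 → ℕ} {H : List (Fin 5 → ℕ)} (hA : ∀ i, A i = 1 ∨ A i = 2 ∨ A i = 4)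
    (hI : Integ (Bm A m) (KH H)) {x : ℕ} (hx : Odd x) {i₀ : Fin 5} (hi : m i₀ = 1) {l : ℕ}
    (hl : l = 2 ∨ l = 4) {k : Fin 5 → ℤ} (hk : InH H k) {c : ℤ} (hc : S2 A m k k = -4 * l * c)
    (hco : Odd c) :
    ∃ y c', InH H y ∧ S2 A m (fun i => k i + 16 * y i) (fun i => k i + 16 * y i) = -4 * l * c' ∧
      (∃ t, c' = c + 4 * t) ∧ IsCoprime c' (2 * x : ℤ) := by
  obtain ⟨l', hl', hll⟩ : ∃ l' : ℤ, (l' = 8 ∨ l' = 4) ∧ l' * l = 16 := by
    rcases hl with rfl | rfl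
    · exact ⟨8, Or.inl rfl, by norm_num⟩
    · exact ⟨4, Or.inr rfl, by norm_num⟩
  have hx0 : x ≠ 0 := by rintro rfl; exact absurd hx (by decide)
  obtain ⟨t, ht⟩ := t3_crt c (l' * A i₀ * k i₀) (16 * l' * A i₀) x.primeFactors (by
    intro p hp
    have hpp := Nat.prime_of_mem_primeFactors hp
    have hpx := Nat.dvd_of_mem_primeFactors hp
    have hp2 : p ≠ 2 := by
      rintro rfl
      exact absurd ((even_iff_two_dvd).2 hpx) (Nat.not_even_iff_odd.2 hx)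
    refine ⟨hpp, hp2, fun hd => ?_⟩
    have hpow : ∃ e : ℕ, (16 * l' * A i₀ : ℤ) = 2 ^ e := by
      rcases hl' with rfl | rfl <;> rcases hA i₀ with h | h | h <;> rw [h]
      · exact ⟨7, by norm_num⟩
      · exact ⟨8, by norm_num⟩
      · exact ⟨9, by norm_num⟩
      · exact ⟨6, by norm_num⟩
      · exact ⟨7, by norm_num⟩
      · exact ⟨8, by norm_num⟩
    obtain ⟨e, he⟩ := hpow
    rw [he] at hd
    have h1 := (Nat.prime_iff_prime_int.1 hpp).dvd_of_dvd_pow hd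
    have h7 : p ∣ 2 := by exact_mod_cast h1
    exact hp2 ((Nat.prime_dvd_prime_iff_eq hpp Nat.prime_two).1 h7))
  set c' : ℤ := c - l' * A i₀ * k i₀ * t - 16 * l' * A i₀ * t ^ 2 with hc'
  have hS : ∀ (u v : Fin 5 → ℤ), S2 A m u v = ∑ i, (A i : ℤ) * m i * u i * v i := fun _ _ => rfl
  have hsum1 : ∑ i, (A i : ℤ) * m i * k i * (if i = i₀ then 2 * t else 0) =
      A i₀ * k i₀ * (2 * t) := by
    rw [Finset.sum_eq_single i₀]
    · rw [if_pos rfl, hi]; push_cast; ring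
    · intro i _ hne
      rw [if_neg hne, mul_zero]
    · intro h; exact absurd (Finset.mem_univ _) h
  have hsum2 : ∑ i, (A i : ℤ) * m i * (if i = i₀ then 2 * t else 0) *
      (if i = i₀ then 2 * t else 0) = A i₀ * (4 * t ^ 2) := by
    rw [Finset.sum_eq_single i₀]
    · rw [if_pos rfl, hi]; push_cast; ring
    · intro i _ hne
      rw [if_neg hne, mul_zero]
    · intro h; exact absurd (Finset.mem_univ _) h
  have hcc : c' = c + 4 * (-(l' / 4 * A i₀ * k i₀ * t) - 4 * l' * A i₀ * t ^ 2) := by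
    rcases hl' with rfl | rfl
    · rw [hc']; norm_num; ring
    · rw [hc']; norm_num; ring
  have hodd' : Odd c' := by
    rw [hcc]
    obtain ⟨d, hd⟩ := hco
    exact ⟨d + 2 * (-(l' / 4 * A i₀ * k i₀ * t) - 4 * l' * A i₀ * t ^ 2), by rw [hd]; ring⟩
  refine ⟨fun i => if i = i₀ then 2 * t else 0, c', ?_, ?_, ⟨_, hcc⟩, ?_⟩
  · intro h _
    refine ⟨∑ i, (h i : ℤ) * (if i = i₀ then t else 0), ?_⟩
    rw [← Finset.sum_add_distrib]
    refine Finset.sum_congr rfl fun i _ => ?_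
    by_cases hii : i = i₀
    · simp only [if_pos hii]; ring
    · simp only [if_neg hii]; ring
  · have h1 : S2 A m (fun i => k i + 16 * (if i = i₀ then 2 * t else 0))
        (fun i => k i + 16 * (if i = i₀ then 2 * t else 0)) = S2 A m k k +
        32 * (∑ i, (A i : ℤ) * m i * k i * (if i = i₀ then 2 * t else 0)) +
        256 * (∑ i, (A i : ℤ) * m i * (if i = i₀ then 2 * t else 0) *
          (if i = i₀ then 2 * t else 0)) := by
      rw [hS, hS, Finset.mul_sum, Finset.mul_sum, ← Finset.sum_add_distrib,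
        ← Finset.sum_add_distrib]
      exact Finset.sum_congr rfl fun i _ => by ring
    rw [h1, hsum1, hsum2, hc, hc']
    linear_combination (-(4 * (A i₀ : ℤ) * k i₀ * t) - 64 * A i₀ * t ^ 2) * hll
  · rw [IsCoprime.mul_right_iff]
    refine ⟨?_, ?_⟩
    · rw [Int.isCoprime_iff_gcd_eq_one]
      obtain ⟨d, hd⟩ := hodd'
      exact Int.isCoprime_iff_gcd_eq_one.1 ⟨1, -d, by rw [hd]; ring⟩
    · rw [Int.isCoprime_iff_gcd_eq_one]
      by_contra hne
      obtain ⟨p, hp, hpd⟩ := Nat.exists_prime_and_dvd hne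
      have h1 : (p : ℤ) ∣ c' := Int.dvd_trans (by exact_mod_cast hpd) (Int.gcd_dvd_left _ _)
      have h2 : (p : ℤ) ∣ (x : ℤ) := Int.dvd_trans (by exact_mod_cast hpd) (Int.gcd_dvd_right _ _)
      have h3 : p ∣ x := by exact_mod_cast h2
      exact ht p (Nat.mem_primeFactors.2 ⟨hp, h3, hx0⟩) h1

/-- Row [RH-T3]: a root of the neighbour.

Proof.  `K' = Nbr (Bm A m) (KH H) (toQ k) l c`, `(k,k) = S2(k,k)/2 = -2lc`.  `nbr_iso` for `N = N₂ x`
(`c` is prime to `N l`) and for `N = 1`; `class_iso`: `Cls kd B K'`; `CF_HIso`, `CF_rspan`: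
`RSpan B K'`.  The functional `β ↦ ∑ n_i β_i` is `β ↦ B u β` for some `u ≠ 0`, so some root `β` of
`K'` has `∑ n_i β_i ≠ 0`; `root_norm`: `(β,β) = 2^s μ`. -/
theorem nbr_root {kd : Kd} {A m : Fin 5 → ℕ} {H : List (Fin 5 → ℕ)}
    (hA : ∀ i, A i = 1 ∨ A i = 2 ∨ A i = 4) (hm : ∀ i, Odd (m i) ∧ Squarefree (m i))
    (h : Cls kd (Bm A m) (KH H)) {N₂ x : ℕ} (hN : N₂ = 1 ∨ N₂ = 2) (hx : Odd x)
    (hC : CF (hB ((N₂ * x : ℕ) : ℚ) (Bm A m)) (hL (KH H))) {l : ℕ} (hl : l = 2 ∨ l = 4)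
    {k : Fin 5 → ℤ} (hk : InH H k) {c : ℤ} (hc : S2 A m k k = -4 * l * c)
    (hco : IsCoprime c (2 * x : ℤ)) {n : Fin 5 → ℤ} (hn : n ≠ 0) :
    ∃ β s μ, Rt (Bm A m) (Nbr (Bm A m) (KH H) (toQ k) l c) β ∧ ∑ i, (n i : ℚ) * β i ≠ 0 ∧
      Odd μ ∧ Squarefree μ ∧ sOK kd s ∧ Bm A m β β = 2 ^ s * (μ : ℕ) := by
  have hI : Integ (Bm A m) (KH H) := by
    cases kd with
    | k0 => exact F0.even h |>.1
    | k2 => exact F2.even h |>.1
    | kQ => exact FQ.int h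
  have hK5 : K5 (Bm A m) (KH H) := by
    cases kd with
    | k0 => exact F0.toK5 h
    | k2 => exact F2.toK5 h
    | kQ => exact FQ.toK5 h
  have hs := hK5.symm
  have hx0 : 0 < x := by
    rcases Nat.eq_zero_or_pos x with h0 | h0
    · rw [h0] at hx; exact absurd hx (by decide)
    · exact h0
  have hl0 : 0 < l := by rcases hl with rfl | rfl <;> norm_num
  have hN0 : 0 < N₂ := by rcases hN with rfl | rfl <;> norm_num
  have hkK : toQ k ∈ KH H := mem_KH.2 ⟨k, rfl, hk⟩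
  have hkk : Bm A m (toQ k) (toQ k) = -2 * l * c := by
    rw [Bm_toQ, hc]; push_cast; ring
  have c2 : IsCoprime c 2 := (IsCoprime.mul_right_iff.1 hco).1
  have cx : IsCoprime c x := (IsCoprime.mul_right_iff.1 hco).2
  have cl : IsCoprime c (l : ℤ) := by
    rcases hl with rfl | rfl
    · exact c2
    · have : ((4 : ℕ) : ℤ) = 2 * 2 := by norm_num
      rw [this]; exact IsCoprime.mul_right c2 c2
  have cN : IsCoprime c (N₂ : ℤ) := by
    rcases hN with rfl | rfl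
    · exact isCoprime_one_right
    · exact c2
  have i1 : HIso (N₂ * x) (Bm A m) (KH H) (Nbr (Bm A m) (KH H) (toQ k) l c) := by
    refine nbr_iso hs hI hkK (Nat.mul_pos hN0 hx0) hl0 hkk ?_
    push_cast
    exact IsCoprime.mul_right (IsCoprime.mul_right cN cx) cl
  have i2 : HIso 1 (Bm A m) (KH H) (Nbr (Bm A m) (KH H) (toQ k) l c) := by
    refine nbr_iso hs hI hkK Nat.one_pos hl0 hkk ?_
    push_cast
    rw [one_mul]
    exact cl
  obtain ⟨j0, j2, jQ, jK, -⟩ := class_iso i2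
  have hC' := CF_HIso hs i1 hC
  have hK' := jK hK5
  have hR := CF_rspan hK' (Nat.mul_pos hN0 hx0) hC'
  -- the functional
  have hA0 : ∀ i, (A i : ℚ) ≠ 0 := by
    intro i
    rcases hA i with h | h | h <;> rw [h] <;> norm_num
  have hm0 : ∀ i, (m i : ℚ) ≠ 0 := by
    intro i h0
    have h1 : m i = 0 := by exact_mod_cast h0
    have h2 := (hm i).1
    rw [h1] at h2
    exact absurd h2 (by decide)
  set u : V5 := fun i => 2 * (n i : ℚ) / ((A i : ℚ) * m i) with hu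
  have hBu : ∀ β : V5, Bm A m u β = ∑ i, (n i : ℚ) * β i := by
    intro β
    show (1 / 2 : ℚ) * ∑ i, (A i : ℚ) * m i * u i * β i = _
    rw [Finset.mul_sum]
    refine Finset.sum_congr rfl fun i _ => ?_
    rw [hu]
    have h1 := hA0 i
    have h2 := hm0 i
    field_simp
  obtain ⟨β, hβ, hβ0⟩ : ∃ β, Rt (Bm A m) (Nbr (Bm A m) (KH H) (toQ k) l c) β ∧
      Bm A m u β ≠ 0 := by
    by_contra hcon
    push Not at hcon
    have h1 := hR u hcon
    apply hn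
    funext i
    have h2 := congrFun h1 i
    rw [hu] at h2
    simp only [Pi.zero_apply, div_eq_zero_iff, mul_eq_zero] at h2
    rcases h2 with (h2 | h2) | (h2 | h2)
    · norm_num at h2
    · exact_mod_cast h2
    · exact absurd h2 (hA0 i)
    · exact absurd h2 (hm0 i)
  rw [hBu] at hβ0
  obtain ⟨r0, r2, rQ⟩ := root_norm hβ
  cases kd with
  | k0 =>
    obtain ⟨μ, h1, h2, h3⟩ := r0 (j0 h)
    exact ⟨β, 1, μ, hβ, hβ0, h1, h2, rfl, by rw [h3]; ring⟩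
  | k2 =>
    obtain ⟨μ, h1, h2, h3 | h3⟩ := r2 (j2 h)
    · exact ⟨β, 1, μ, hβ, hβ0, h1, h2, Or.inl rfl, by rw [h3]; ring⟩
    · exact ⟨β, 2, μ, hβ, hβ0, h1, h2, Or.inr rfl, by rw [h3]; ring⟩
  | kQ =>
    obtain ⟨μ, h1, h2, h3 | h3⟩ := rQ (jQ h)
    · exact ⟨β, 0, μ, hβ, hβ0, h1, h2, Or.inl rfl, by rw [h3]; ring⟩
    · exact ⟨β, 1, μ, hβ, hβ0, h1, h2, Or.inr rfl, by rw [h3]; ring⟩

end RH6
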