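import Pool.Agent.RH6.T3

namespace RH6

theorem t4_comb (A m : Fin 5 → ℕ) (p q : ℤ) (x y z : Fin 5 → ℤ) :
    S2 A m (fun i => p * x i + q * y i) z = p * S2 A m x z + q * S2 A m y z := by
  unfold S2
  rw [Finset.mul_sum, Finset.mul_sum, ← Finset.sum_add_distrib]
  refine Finset.sum_congr rfl fun i _ => ?_
  ring

theorem t4_comm (A m : Fin 5 → ℕ) (x y : Fin 5 → ℤ) : S2 A m x y = S2 A m y x := by
  unfold S2
  refine Finset.sum_congr rfl fun i _ => ?_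
  ring

theorem t4_InH {H : List (Fin 5 → ℕ)} {x y : Fin 5 → ℤ} (hx : InH H x) (hy : InH H y) (p q : ℤ) :
    InH H (fun i => p * x i + q * y i) := by
  intro h hh
  have h1 := (hx h hh).mul_left p
  have h2 := (hy h hh).mul_left q
  have h3 : ∑ i, (h i : ℤ) * (p * x i + q * y i) =
      p * ∑ i, (h i : ℤ) * x i + q * ∑ i, (h i : ℤ) * y i := by
    rw [Finset.mul_sum, Finset.mul_sum, ← Finset.sum_add_distrib]
    refine Finset.sum_congr rfl fun i _ => ?_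
    ring
  rw [h3]
  exact h1.add h2

theorem t4_InH_even {H : List (Fin 5 → ℕ)} (x : Fin 5 → ℤ) : InH H (fun i => 2 * x i) := by
  intro h _
  refine ⟨∑ i, (h i : ℤ) * x i, ?_⟩
  rw [← Finset.sum_add_distrib]
  refine Finset.sum_congr rfl fun i _ => ?_
  ring

theorem t4_int {A m : Fin 5 → ℕ} {H : List (Fin 5 → ℕ)} (hI : Integ (Bm A m) (KH H))
    {x y : Fin 5 → ℤ} (hx : InH H x) (hy : InH H y) : ∃ z : ℤ, S2 A m x y = 2 * z := by
  obtain ⟨z, hz⟩ := hI _ (mem_KH.2 ⟨x, rfl, hx⟩) _ (mem_KH.2 ⟨y, rfl, hy⟩)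
  refine ⟨z, ?_⟩
  rw [Bm_toQ, div_eq_iff (by norm_num)] at hz
  have h1 : ((S2 A m x y : ℤ) : ℚ) = ((2 * z : ℤ) : ℚ) := by
    push_cast
    linear_combination hz
  exact_mod_cast h1

theorem t4_core {A m : Fin 5 → ℕ} {H : List (Fin 5 → ℕ)}
    (hA : ∀ i, A i = 1 ∨ A i = 2 ∨ A i = 4)
    (hI : Integ (Bm A m) (KH H)) {l : ℕ} (hl : l = 2 ∨ l = 4)
    {k k2 y1 X' : Fin 5 → ℤ} (hk : InH H k) (hy1 : InH H y1) (hX' : InH H X')
    (hk2 : ∀ i, k2 i = k i + l * y1 i) {u e c a t b v : ℤ} {j s μ : ℕ}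
    (hkk : S2 A m k k = 4 * l * u) (he : S2 A m y1 k = 2 * e)
    (hpar : l = 2 → ∃ t₂ : ℤ, c + e = v + 2 * t₂) {β : V5}
    (hβ : ∀ w ∈ Nbr (Bm A m) (KH H) (toQ k2) l c, ∃ n : ℤ,
      2 * Bm A m w β = n * Bm A m β β)
    (hβ2 : Bm A m β β = 2 ^ s * (μ : ℕ)) (hβ3 : β = toQ X' - ((a : ℚ) / l) • toQ k2)
    (hac : (a * c : ℚ) + Bm A m (toQ X') (toQ k2) = l * t)
    (hj : -a = j + l * b) (hjl : 2 * j ≤ l) (hμ : Odd μ) (hμ2 : Squarefree μ) :
    ∃ Z X, Sol A H m l k v Z X j s μ ∧ ∀ i, (Z i : ℚ) = l * β i := by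
  have hl0 : (l : ℚ) ≠ 0 := by
    rcases hl with h | h <;> rw [h] <;> norm_num
  have hZβ : ∀ i, (((l : ℤ) * X' i - a * k2 i : ℤ) : ℚ) = l * β i := by
    intro i
    rw [hβ3, Pi.sub_apply, Pi.smul_apply, smul_eq_mul]
    show _ = (l : ℚ) * ((X' i : ℚ) - (a : ℚ) / l * (k2 i : ℚ))
    push_cast
    field_simp
  have hZβ' : toQ (fun i => (l : ℤ) * X' i - a * k2 i) = (l : ℚ) • β := by
    funext i
    exact hZβ i
  have hk2' : k2 = fun i => 1 * k i + (l : ℤ) * y1 i := by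
    funext i
    rw [hk2 i]
    ring
  have hk2H : InH H k2 := by
    rw [hk2']
    exact t4_InH hk hy1 _ _
  have hr : ∀ x : Fin 5 → ℤ, S2 A m x k2 = S2 A m x k + l * S2 A m x y1 := by
    intro x
    rw [t4_comm, hk2', t4_comb, t4_comm A m k x, t4_comm A m y1 x]
    ring
  have hac' : S2 A m X' k2 = 2 * l * t - 2 * a * c := by
    rw [Bm_toQ] at hac
    have h1 : ((S2 A m X' k2 : ℤ) : ℚ) = ((2 * l * t - 2 * a * c : ℤ) : ℚ) := by
      push_cast
      linear_combination 2 * hac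
    exact_mod_cast h1
  obtain ⟨p, hp⟩ := t4_int hI hX' hy1
  -- membership in the neighbour
  have hmem : ∀ y : Fin 5 → ℤ, InH H y → (∃ t : ℤ, S2 A m y k2 = 2 * l * t) →
      toQ y ∈ Nbr (Bm A m) (KH H) (toQ k2) l c := by
    intro y hy ⟨t', ht'⟩
    refine ⟨toQ y, mem_KH.2 ⟨y, rfl, hy⟩, 0, t', by simp, ?_⟩
    rw [Bm_toQ, ht']
    push_cast
    ring
  have hXk : S2 A m (fun i => X' i + b * k2 i + j * y1 i) k =
      2 * j * (c + e) + 2 * l * (t - p + b * (2 * u + e) + b * c) := by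
    have e1 : (fun i => X' i + b * k2 i + j * y1 i) =
        fun i => 1 * (fun i => 1 * X' i + b * k2 i) i + (j : ℤ) * y1 i := by
      funext i
      ring
    rw [e1, t4_comb, t4_comb, he, t4_comm A m k2 k, hr k, hkk, t4_comm A m k y1, he]
    have h2 := hr X'
    rw [hac', hp] at h2
    linear_combination (-1 : ℤ) * h2 + 2 * c * hj
  refine ⟨fun i => (l : ℤ) * X' i - a * k2 i, fun i => X' i + b * k2 i + j * y1 i, ?_, hZβ⟩
  refine { hj := hjl, hZ := ?_, hX := ?_, odd := hμ, sq := hμ2, dvd := ?_, nrm := ?_,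
           par2 := ?_, par4 := ?_, tv := ?_, tv2 := ?_ }
  · intro i
    rw [hk2 i]
    linear_combination (k i + l * y1 i) * hj
  · have e1 : (fun i => X' i + b * k2 i + j * y1 i) =
        fun i => 1 * (fun i => 1 * X' i + b * k2 i) i + (j : ℤ) * y1 i := by
      funext i
      ring
    rw [e1]
    exact t4_InH (t4_InH hX' hk2H _ _) hy1 _ _
  · intro i
    -- the vector `2 l e_i`
    have h1 : toQ (fun q => 2 * ((Pi.single i (l : ℤ) : Fin 5 → ℤ) q)) ∈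
        Nbr (Bm A m) (KH H) (toQ k2) l c := by
      refine hmem _ (t4_InH_even _) ⟨(A i : ℤ) * m i * k2 i, ?_⟩
      unfold S2
      rw [Finset.sum_eq_single i]
      · dsimp only
        rw [Pi.single_eq_same]
        ring
      · intro q _ hq
        dsimp only
        rw [Pi.single_eq_of_ne hq]
        ring
      · intro h
        exact absurd (Finset.mem_univ i) h
    obtain ⟨n, hn⟩ := hβ _ h1
    have h2 : Bm A m (toQ (fun q => 2 * ((Pi.single i (l : ℤ) : Fin 5 → ℤ) q))) β =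
        (A i : ℚ) * m i * (l * β i) := by
      show (1 / 2 : ℚ) * ∑ q, (A q : ℚ) * m q *
        (((2 * ((Pi.single i (l : ℤ) : Fin 5 → ℤ) q) : ℤ)) : ℚ) * β q = _
      rw [Finset.sum_eq_single i]
      · rw [Pi.single_eq_same]
        push_cast
        ring
      · intro q _ hq
        rw [Pi.single_eq_of_ne hq]
        push_cast
        ring
      · intro h
        exact absurd (Finset.mem_univ i) h
    rw [h2, ← hZβ i, hβ2] at hn
    have h3 : 2 * ((A i : ℤ) * (m i * ((l : ℤ) * X' i - a * k2 i))) = n * 2 ^ s * μ := by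
      have h4 : ((2 * ((A i : ℤ) * (m i * ((l : ℤ) * X' i - a * k2 i))) : ℤ) : ℚ) =
          ((n * 2 ^ s * μ : ℤ) : ℚ) := by
        push_cast at hn ⊢
        linear_combination hn
      exact_mod_cast h4
    have h5 : (μ : ℤ) ∣ (2 * (A i : ℤ)) * (m i * ((l : ℤ) * X' i - a * k2 i)) := by
      rw [mul_assoc, h3]
      exact dvd_mul_left _ _
    have h6 : IsCoprime (μ : ℤ) (2 * (A i : ℤ)) := by
      have h7 : IsCoprime (μ : ℤ) 2 := by
        rw [Int.isCoprime_iff_nat_coprime]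
        exact Nat.coprime_two_right.2 hμ
      rcases hA i with h | h | h
      · rw [h]
        simpa using h7
      · rw [h]
        have h8 := h7.mul_right h7
        norm_num at h8 ⊢
        exact h8
      · rw [h]
        have h8 := (h7.mul_right h7).mul_right h7
        norm_num at h8 ⊢
        exact h8
    exact h6.dvd_of_dvd_mul_left h5
  · have h1 : ∑ i, (A i : ℤ) * m i * ((l : ℤ) * X' i - a * k2 i) ^ 2 =
        S2 A m (fun i => (l : ℤ) * X' i - a * k2 i) (fun i => (l : ℤ) * X' i - a * k2 i) := by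
      unfold S2
      refine Finset.sum_congr rfl fun i _ => ?_
      ring
    rw [h1]
    have h2 := Bm_toQ A m (fun i => (l : ℤ) * X' i - a * k2 i) (fun i => (l : ℤ) * X' i - a * k2 i)
    rw [hZβ', map_smul, map_smul, LinearMap.smul_apply, hβ2, smul_eq_mul, smul_eq_mul] at h2
    have h3 : ((S2 A m (fun i => (l : ℤ) * X' i - a * k2 i)
        (fun i => (l : ℤ) * X' i - a * k2 i) : ℤ) : ℚ) =
        ((2 * (l : ℤ) ^ 2 * 2 ^ s * μ : ℤ) : ℚ) := by
      push_cast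
      linear_combination (-2 : ℚ) * h2
    exact_mod_cast h3
  · intro hl2
    obtain ⟨t₂, ht₂⟩ := hpar hl2
    refine ⟨j * t₂ + (t - p + b * (2 * u + e) + b * c), ?_⟩
    rw [hXk, hl2, ht₂]
    push_cast
    ring
  · intro hl4
    refine ⟨fun hj0 => ⟨t - p + b * (2 * u + e) + b * c, ?_⟩,
      fun hj2 => ⟨c + e + 2 * (t - p + b * (2 * u + e) + b * c), ?_⟩⟩
    · rw [hXk, hl4, hj0]
      push_cast
      ring
    · rw [hXk, hl4, hj2]
      push_cast
      ring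
  · intro hs2 y hy ⟨t', ht'⟩
    obtain ⟨q, hq⟩ := t4_int hI hy hy1
    obtain ⟨n, hn⟩ := hβ _ (hmem y hy ⟨t' + q, by rw [hr, ht', hq]; ring⟩)
    refine ⟨n * μ, ?_⟩
    have h2 := Bm_toQ A m y (fun i => (l : ℤ) * X' i - a * k2 i)
    rw [hZβ', map_smul, smul_eq_mul] at h2
    rw [hβ2, hs2] at hn
    rw [t4_comm]
    have h3 : ((S2 A m y (fun i => (l : ℤ) * X' i - a * k2 i) : ℤ) : ℚ) =
        ((4 * (l : ℤ) * (n * μ) : ℤ) : ℚ) := by
      push_cast
      linear_combination (-2 : ℚ) * h2 + (l : ℚ) * hn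
    exact_mod_cast h3
  · intro hs2 hl2 x₀ hx₀ ⟨t', ht'⟩
    obtain ⟨t₂, ht₂⟩ := hpar hl2
    obtain ⟨p', hp'⟩ := t4_int hI hx₀ hy1
    obtain ⟨q', hq'⟩ := t4_int hI hy1 hy1
    have hw : toQ x₀ + (1 / 2 : ℚ) • toQ k ∈ Nbr (Bm A m) (KH H) (toQ k2) l c := by
      refine ⟨toQ (fun i => 1 * x₀ i + (-1) * y1 i), mem_KH.2 ⟨_, rfl, t4_InH hx₀ hy1 _ _⟩, -1,
        t' + p' - q' - t₂, ?_, ?_⟩
      · funext i
        rw [Pi.add_apply, Pi.smul_apply, Pi.sub_apply, Pi.smul_apply, smul_eq_mul, smul_eq_mul]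
        show (x₀ i : ℚ) + 1 / 2 * (k i : ℚ) =
          (((1 * x₀ i + (-1) * y1 i : ℤ)) : ℚ) - ((-1 : ℤ) : ℚ) / l * (k2 i : ℚ)
        rw [hk2 i, hl2]
        push_cast
        ring
      · rw [Bm_toQ, t4_comb, hr, hr, ht', hp', he, hq', hl2]
        have ht₂' : (c : ℚ) + e = v + 2 * t₂ := by exact_mod_cast ht₂
        push_cast
        linear_combination (-1 : ℚ) * ht₂'
    obtain ⟨n, hn⟩ := hβ _ hw
    refine ⟨n * μ, ?_⟩
    have h2 := Bm_toQ A m (fun i => k i + 2 * x₀ i) (fun i => (l : ℤ) * X' i - a * k2 i)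
    have h4 : toQ (fun i => k i + 2 * x₀ i) = (2 : ℚ) • (toQ x₀ + (1 / 2 : ℚ) • toQ k) := by
      funext i
      rw [Pi.smul_apply, Pi.add_apply, Pi.smul_apply, smul_eq_mul, smul_eq_mul]
      show ((k i + 2 * x₀ i : ℤ) : ℚ) = 2 * ((x₀ i : ℚ) + 1 / 2 * (k i : ℚ))
      push_cast
      ring
    rw [hZβ', h4, map_smul, map_smul, LinearMap.smul_apply, smul_eq_mul, smul_eq_mul] at h2
    have hlq : (l : ℚ) = 2 := by rw [hl2]; norm_num
    rw [hβ2, hs2] at hn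
    rw [t4_comm]
    have h3 : ((S2 A m (fun i => k i + 2 * x₀ i) (fun i => (l : ℤ) * X' i - a * k2 i) : ℤ) : ℚ) =
        ((16 * (n * μ) : ℤ) : ℚ) := by
      push_cast
      linear_combination (-2 : ℚ) * h2 + (4 : ℚ) * hn +
        (4 * Bm A m (toQ x₀ + (1 / 2 : ℚ) • toQ k) β) * hlq
    exact_mod_cast h3


/-- Row [RH-T4]: existence of solutions; this is what a test of the tree search refutes.

Proof.  `K = KH H`, `B = Bm A m`, `S2 = 2B`, `S2(k,k) = 4lu`, i.e. `(k,k) = 2lu`.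
(a) Choose `x₀ ∈ K` such that with `k' = k + l x₀`, `(k',k') = -2lc'`, `c'` is odd.
`l = 2`: `c' = -(u + (k,x₀) + (x₀,x₀))`.  `kd = k0, k2` (`(x₀,x₀)` even, `u ≡ v mod 2`): `x₀ = 0` if
`u` is odd, `x₀ = x₁` if `u` is even.  `kd = kQ`: `exists_x0` with `(x₀,k) ≡ 1 + v`,
`(x₀,x₀) ≡ u + v` (`k ∉ 2K` because of `x₁`).  In all cases `1 + (x₀,k) ≡ v mod 2`.
`l = 4`: `c' = -(u + (k,x₀) + 2(x₀,x₀))`, `x₀ = 0` or `x₁`.
(b) `adj` for `k'`: `k'' = k' + 16y`, `c'' ≡ c' mod 4`, `c''` prime to `2x`.  `nbr_root` gives a root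
`β = X' - (a/l) k''` of `K' = Nbr B K k'' l c''`, `X' ∈ K`, `a c'' + (X',k'') ∈ lℤ`, with
`∑ n_i β_i ≠ 0`, `(β,β) = 2^s μ`.  Replace `β` by `-β` if `l = 4` and `a ≡ 1 mod 4`; then
`-a = j + l b'` with `j ∈ {0,1}` (`l = 2`) or `j ∈ {0,1,2}` (`l = 4`).  `Z = l β = l X' - a k''`
`= j k + l X` with `X = X' + b' k + (j + l b')(x₀ + (16/l) y) ∈ K`.
(c) `nrm`: `∑ A_i m_i Z_i² = 2 (Z,Z) = 2 l² 2^s μ`.  `dvd`: `2 l e_i ∈ K'` (`a = 0`, `X' = 2le_i`,
`(2le_i,k'') ∈ lℤ`), so `2(β,2le_i) = 2 A_i m_i Z_i ∈ 2^s μ ℤ` and `μ` is odd and prime to `A_i`.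
(d) parity, `l = 2`: `(X',k'') ≡ (X',k) mod 2` and `≡ a c'' ≡ j`; `(k,k) ∈ 4ℤ`;
`(X,k) ≡ (X',k) + j (x₀,k) ≡ j (1 + (x₀,k)) ≡ j v mod 2`.  `l = 4`: mod 4, `(k,k) ∈ 8ℤ`,
`(X',k'') ≡ (X',k)`, `(X',k) ≡ -a c'' ≡ j c''`; `(X,k) ≡ (X',k) + j (x₀,k) ≡ j (c'' + (x₀,k))`, which
is 0 for `j = 0` and even for `j = 2`.
(e) `s = 2`: `2(β,w) ∈ 4μℤ`, so `(β,w) ∈ 2ℤ` for `w ∈ K'`.  `tv`: if `y ∈ K`, `(y,k) ∈ lℤ`, then
`(y,k'') ∈ lℤ`, `y ∈ K'`, `S2(Z,y) = 2l(β,y) ∈ 4lℤ`.  `tv2`: `w = (k + 2x₀')/2` where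
`(x₀',k) ≡ v mod 2`: `w ∈ K'`: `nb2_eq` (row N4) shows `K' = Nb2 B K k v` (`v ≡ c'' + (x₀ + 8y,k)`),
and `-w = -x₀' - k/2`, `(-x₀',k) ≡ v`.  `S2(Z, k+2x₀') = 2·2·2 (β,w) ∈ 16ℤ`. -/
theorem exists_sol {kd : Kd} {A m : Fin 5 → ℕ} {H : List (Fin 5 → ℕ)}
    (hA : ∀ i, A i = 1 ∨ A i = 2 ∨ A i = 4) (hm : ∀ i, Odd (m i) ∧ Squarefree (m i))
    (h : Cls kd (Bm A m) (KH H)) {N₂ x : ℕ} (hN : N₂ = 1 ∨ N₂ = 2) (hx : Odd x)
    (hx2 : Squarefree x) {i₀ : Fin 5} (hi : m i₀ = 1)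
    (hC : CF (hB ((N₂ * x : ℕ) : ℚ) (Bm A m)) (hL (KH H))) {l : ℕ} (hl : l = 2 ∨ l = 4)
    {k : Fin 5 → ℤ} (hk : InH H k) (hkk : ∃ u : ℤ, S2 A m k k = 4 * l * u)
    (h1 : ∃ x₁, InH H x₁ ∧ ∃ t : ℤ, S2 A m x₁ k = 4 * t + 2) {v : ℤ}
    (hv : kd ≠ Kd.kQ → l = 2 → ∃ t : ℤ, S2 A m k k = 8 * v + 16 * t) {n : Fin 5 → ℤ}
    (hn : n ≠ 0) :
    ∃ Z X j s μ, Sol A H m l k v Z X j s μ ∧ sOK kd s ∧ ∑ i, n i * Z i ≠ 0 := by
  have hI : Integ (Bm A m) (KH H) := by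
    cases kd with
    | k0 => exact (show F0 (Bm A m) (KH H) from h).even.1
    | k2 => exact (show F2 (Bm A m) (KH H) from h).even.1
    | kQ => exact (show FQ (Bm A m) (KH H) from h).int
  obtain ⟨u, hu⟩ := hkk
  obtain ⟨x₁, hx₁, t₁, ht₁⟩ := h1
  -- the choice of `x₀`
  have hx0 : ∃ x₀ : Fin 5 → ℤ, InH H x₀ ∧ ∃ f c' : ℤ, S2 A m x₀ k = 2 * f ∧
      S2 A m (fun i => 1 * k i + (l : ℤ) * x₀ i) (fun i => 1 * k i + (l : ℤ) * x₀ i) =
        -4 * l * c' ∧ Odd c' ∧ (l = 2 → ∃ t : ℤ, 1 + f = v + 2 * t) := by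
    have hexp : ∀ x₀ : Fin 5 → ℤ,
        S2 A m (fun i => 1 * k i + (l : ℤ) * x₀ i) (fun i => 1 * k i + (l : ℤ) * x₀ i) =
          4 * l * u + 2 * l * S2 A m x₀ k + l ^ 2 * S2 A m x₀ x₀ := by
      intro x₀
      rw [t4_comb, t4_comm A m k, t4_comm A m x₀ (fun i => 1 * k i + (l : ℤ) * x₀ i), t4_comb,
        t4_comb, hu, t4_comm A m k x₀]
      ring
    have hInH0 : InH H (fun _ => 0) := by
      intro h' _
      simp
    have hS0 : ∀ y : Fin 5 → ℤ, S2 A m (fun _ => 0) y = 0 := by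
      intro y
      unfold S2
      simp
    rcases hl with hl2 | hl4
    · by_cases hkd : kd = Kd.kQ
      · subst hkd
        have hF : FQ (Bm A m) (KH H) := h
        have hkK : toQ k ∈ KH H := mem_KH.2 ⟨k, rfl, hk⟩
        have hk2 : toQ k ∉ mulL 2 (KH H) := by
          rintro ⟨y, hy, hyk⟩
          obtain ⟨y', rfl, hy'⟩ := mem_KH.1 hy
          obtain ⟨z, hz⟩ := t4_int hI hx₁ hy'
          have h3 : k = fun i => 2 * y' i + 0 * y' i := by
            funext i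
            have h4 := congrFun hyk i
            rw [Pi.smul_apply, zsmul_eq_mul] at h4
            have h5 : (k i : ℚ) = 2 * (y' i : ℚ) := by
              push_cast at h4
              exact h4
            have h6 : k i = 2 * y' i := by exact_mod_cast h5
            rw [h6]
            ring
          rw [h3, t4_comm, t4_comb, t4_comm A m y' x₁, hz] at ht₁
          omega
        have hu' : ∃ u' : ℤ, Bm A m (toQ k) (toQ k) = 4 * u' := by
          refine ⟨u, ?_⟩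
          rw [Bm_toQ, hu, hl2]
          push_cast
          ring
        obtain ⟨x₀, hx₀, ⟨t2, ht2⟩, t3, ht3⟩ := exists_x0 hF hkK hk2 hu' (1 + v) (u + v)
        obtain ⟨x₀, rfl, hx₀'⟩ := mem_KH.1 hx₀
        have e1 : S2 A m x₀ k = 2 * (1 + v + 2 * t2) := by
          rw [Bm_toQ, div_eq_iff (by norm_num)] at ht2
          have h4 : ((S2 A m x₀ k : ℤ) : ℚ) = ((2 * (1 + v + 2 * t2) : ℤ) : ℚ) := by
            push_cast at ht2 ⊢
            linear_combination ht2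
          exact_mod_cast h4
        have e2 : S2 A m x₀ x₀ = 2 * (u + v + 2 * t3) := by
          rw [Bm_toQ, div_eq_iff (by norm_num)] at ht3
          have h4 : ((S2 A m x₀ x₀ : ℤ) : ℚ) = ((2 * (u + v + 2 * t3) : ℤ) : ℚ) := by
            push_cast at ht3 ⊢
            linear_combination ht3
          exact_mod_cast h4
        refine ⟨x₀, hx₀', 1 + v + 2 * t2, -(u + (1 + v + 2 * t2) + (u + v + 2 * t3)), e1, ?_, ?_, ?_⟩
        · rw [hexp, e1, e2, hl2]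
          push_cast
          ring
        · exact ⟨-(u + v + t2 + t3) - 1, by ring⟩
        · intro _
          exact ⟨1 + t2, by ring⟩
      · obtain ⟨t, ht⟩ := hv hkd hl2
        have hev : ∀ x₀ : Fin 5 → ℤ, InH H x₀ → ∃ z : ℤ, S2 A m x₀ x₀ = 4 * z := by
          intro x₀ hx₀
          have hE : EvenL (Bm A m) (KH H) := by
            cases kd with
            | k0 => exact (show F0 (Bm A m) (KH H) from h).even
            | k2 => exact (show F2 (Bm A m) (KH H) from h).even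
            | kQ => exact absurd rfl hkd
          obtain ⟨z, hz⟩ := hE.2 _ (mem_KH.2 ⟨x₀, rfl, hx₀⟩)
          refine ⟨z, ?_⟩
          rw [Bm_toQ, div_eq_iff (by norm_num)] at hz
          have h4 : ((S2 A m x₀ x₀ : ℤ) : ℚ) = ((4 * z : ℤ) : ℚ) := by
            push_cast
            linear_combination hz
          exact_mod_cast h4
        have huv : u = v + 2 * t := by
          rw [hu, hl2] at ht
          push_cast at ht
          omega
        rcases Int.even_or_odd u with hue | huo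
        · obtain ⟨z, hz⟩ := hev x₁ hx₁
          obtain ⟨r, hr⟩ := hue
          refine ⟨x₁, hx₁, 2 * t₁ + 1, -(u + (2 * t₁ + 1) + 2 * z), by rw [ht₁]; ring, ?_, ?_, ?_⟩
          · rw [hexp, ht₁, hz, hl2]
            push_cast
            ring
          · exact ⟨-(r + t₁ + z) - 1, by rw [hr]; ring⟩
          · intro _
            exact ⟨t₁ + 1 - r + t, by linarith⟩
        · obtain ⟨r, hr⟩ := huo
          refine ⟨fun _ => 0, hInH0, 0, -u, by rw [hS0]; ring, ?_, ?_, ?_⟩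
          · rw [hexp, hS0, hS0]
            ring
          · exact ⟨-r - 1, by rw [hr]; ring⟩
          · intro _
            exact ⟨t - r, by linarith⟩
    · rcases Int.even_or_odd u with hue | huo
      · obtain ⟨z, hz⟩ := t4_int hI hx₁ hx₁
        obtain ⟨r, hr⟩ := hue
        refine ⟨x₁, hx₁, 2 * t₁ + 1, -(u + (2 * t₁ + 1) + 2 * z), by rw [ht₁]; ring, ?_, ?_, ?_⟩
        · rw [hexp, ht₁, hz, hl4]
          push_cast
          ring
        · exact ⟨-(r + t₁ + z) - 1, by rw [hr]; ring⟩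
        · intro h2
          omega
      · obtain ⟨r, hr⟩ := huo
        refine ⟨fun _ => 0, hInH0, 0, -u, by rw [hS0]; ring, ?_, ?_, ?_⟩
        · rw [hexp, hS0, hS0]
          ring
        · exact ⟨-r - 1, by rw [hr]; ring⟩
        · intro h2
          omega
  obtain ⟨x₀, hx₀, f, c', hf, hc', hodd, hpar⟩ := hx0
  obtain ⟨y, c2, hy, hc2, ⟨t3, ht3⟩, hcop⟩ :=
    adj hA hI hx hi hl (t4_InH hk hx₀ 1 (l : ℤ)) hc' hodd
  set k2 : Fin 5 → ℤ := fun i => (1 * k i + (l : ℤ) * x₀ i) + 16 * y i with hk2def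
  have hk2H : InH H k2 := by
    have e1 : k2 = fun i => 1 * (fun i => 1 * k i + (l : ℤ) * x₀ i) i + 16 * y i := by
      funext i
      rw [hk2def]
      ring
    rw [e1]
    exact t4_InH (t4_InH hk hx₀ _ _) hy _ _
  obtain ⟨β, s, μ, hRt, hsum, hμ, hμ2, hs, hnorm⟩ :=
    nbr_root hA hm h hN hx hC hl hk2H hc2 hcop hn
  obtain ⟨⟨X, hX, a, t, hβ3, hac⟩, -, hroot, -⟩ := hRt
  obtain ⟨X', rfl, hX'⟩ := mem_KH.1 hX
  -- `k2 = k + l y1`
  have hy1 : ∃ y1 : Fin 5 → ℤ, InH H y1 ∧ (∀ i, k2 i = k i + l * y1 i) ∧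
      ∃ e : ℤ, S2 A m y1 k = 2 * e ∧ (l = 2 → ∃ t₂ : ℤ, c2 + e = v + 2 * t₂) := by
    obtain ⟨g, hg⟩ := t4_int hI hy hk
    obtain ⟨o, ho⟩ := hodd
    rcases hl with hl2 | hl4
    · refine ⟨fun i => 1 * x₀ i + 8 * y i, t4_InH hx₀ hy _ _, ?_, 1 * f + 8 * g, ?_, ?_⟩
      · intro i
        rw [hk2def, hl2]
        push_cast
        ring
      · rw [t4_comb, hf, hg]
        ring
      · intro h2
        obtain ⟨t₂, ht₂⟩ := hpar h2
        refine ⟨t₂ + o + 2 * t3 + 4 * g, ?_⟩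
        rw [ht3, ho]
        linear_combination ht₂
    · refine ⟨fun i => 1 * x₀ i + 4 * y i, t4_InH hx₀ hy _ _, ?_, 1 * f + 4 * g, ?_, ?_⟩
      · intro i
        rw [hk2def, hl4]
        push_cast
        ring
      · rw [t4_comb, hf, hg]
        ring
      · intro h2
        omega
  obtain ⟨y1, hy1H, hk2e, e, he, hpar2⟩ := hy1
  have hl0 : (l : ℚ) ≠ 0 := by
    rcases hl with h' | h' <;> rw [h'] <;> norm_num
  -- the sign
  have hfin : ∀ (β : V5) (X' : Fin 5 → ℤ) (a t : ℤ), InH H X' → ∑ i, (n i : ℚ) * β i ≠ 0 →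
      (∀ w ∈ Nbr (Bm A m) (KH H) (toQ k2) l c2, ∃ n : ℤ, 2 * Bm A m w β = n * Bm A m β β) →
      Bm A m β β = 2 ^ s * (μ : ℕ) → β = toQ X' - ((a : ℚ) / l) • toQ k2 →
      (a * c2 : ℚ) + Bm A m (toQ X') (toQ k2) = l * t →
      (∃ (j : ℕ) (b : ℤ), -a = j + l * b ∧ 2 * j ≤ l) →
      ∃ Z X j s μ, Sol A H m l k v Z X j s μ ∧ sOK kd s ∧ ∑ i, n i * Z i ≠ 0 := by
    rintro β X' a t hX' hsum hroot hnorm hβ3 hac ⟨j, b, hj, hjl⟩
    obtain ⟨Z, X, hSol, hZ⟩ := t4_core hA hI hl hk hy1H hX' hk2e hu he hpar2 hroot hnorm hβ3 hac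
      hj hjl hμ hμ2
    refine ⟨Z, X, j, s, μ, hSol, hs, ?_⟩
    intro h0
    apply hsum
    have h5 : ((∑ i, n i * Z i : ℤ) : ℚ) = l * ∑ i, (n i : ℚ) * β i := by
      push_cast
      rw [Finset.mul_sum]
      refine Finset.sum_congr rfl fun i _ => ?_
      rw [hZ i]
      ring
    rw [h0, Int.cast_zero] at h5
    exact (mul_eq_zero.1 h5.symm).resolve_left hl0
  by_cases ha : l = 4 ∧ a % 4 = 1
  · refine hfin (-β) (fun i => -1 * X' i + 0 * X' i) (-a) (-t) (t4_InH hX' hX' _ _) ?_ ?_ ?_ ?_ ?_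
      ⟨1, (a - 1) / 4, ?_, ?_⟩
    · have h5 : ∑ i, (n i : ℚ) * (-β) i = -∑ i, (n i : ℚ) * β i := by
        rw [← Finset.sum_neg_distrib]
        refine Finset.sum_congr rfl fun i _ => ?_
        rw [Pi.neg_apply]
        ring
      rw [h5]
      exact neg_ne_zero.2 hsum
    · intro w hw
      obtain ⟨n', hn'⟩ := hroot w hw
      refine ⟨-n', ?_⟩
      rw [map_neg, map_neg, map_neg, LinearMap.neg_apply]
      push_cast
      linear_combination (-1 : ℚ) * hn'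
    · rw [map_neg, map_neg, LinearMap.neg_apply, neg_neg]
      exact hnorm
    · funext i
      have h5 := congrFun hβ3 i
      rw [Pi.sub_apply, Pi.smul_apply, smul_eq_mul] at h5
      rw [Pi.neg_apply, Pi.sub_apply, Pi.smul_apply, smul_eq_mul, h5]
      show -((X' i : ℚ) - (a : ℚ) / l * (k2 i : ℚ)) =
        ((-1 * X' i + 0 * X' i : ℤ) : ℚ) - ((-a : ℤ) : ℚ) / l * (k2 i : ℚ)
      push_cast
      ring
    · rw [Bm_toQ, t4_comb]
      rw [Bm_toQ] at hac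
      push_cast
      linear_combination (-1 : ℚ) * hac
    · have h6 := ha.2
      have h7 := ha.1
      rw [h7]
      push_cast
      omega
    · rw [ha.1]
      norm_num
  · refine hfin β X' a t hX' hsum hroot hnorm hβ3 hac ?_
    rcases hl with hl2 | hl4
    · refine ⟨((-a) % 2).toNat, (-a) / 2, ?_, ?_⟩
      · rw [hl2]
        push_cast
        have h6 : 0 ≤ (-a) % 2 := Int.emod_nonneg _ (by norm_num)
        rw [Int.toNat_of_nonneg h6]
        omega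
      · rw [hl2]
        omega
    · have h6 : ¬ a % 4 = 1 := fun h' => ha ⟨hl4, h'⟩
      refine ⟨((-a) % 4).toNat, (-a) / 4, ?_, ?_⟩
      · rw [hl4]
        push_cast
        have h7 : 0 ≤ (-a) % 4 := Int.emod_nonneg _ (by norm_num)
        rw [Int.toNat_of_nonneg h7]
        omega
      · rw [hl4]
        omega

end RH6
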