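import Pool.Agent.RH6.Tree
import Pool.Agent.RH6.T4
import Pool.Agent.RH6.S5

namespace RH6

/-! Row [RH-T5]: one step in the tree. -/

theorem t5_all5 {f : ℕ → Bool} : all5 f = true ↔ ∀ i : Fin 5, f i = true := by
  constructor
  · intro h i
    unfold all5 at h
    simp only [Bool.and_eq_true] at h
    obtain ⟨⟨⟨⟨h0, h1⟩, h2⟩, h3⟩, h4⟩ := h
    fin_cases i
    · exact h0
    · exact h1
    · exact h2
    · exact h3
    · exact h4
  · intro h
    unfold all5
    simp only [Bool.and_eq_true]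
    exact ⟨⟨⟨⟨h 0, h 1⟩, h 2⟩, h 3⟩, h 4⟩

theorem t5_sumN5 (f : ℕ → ℕ) : sumN5 f = ∑ i : Fin 5, f i := by
  unfold sumN5
  rw [Fin.sum_univ_five]
  rfl

theorem t5_beq {a b : ℕ} : Nat.beq a b = true ↔ a = b := by
  constructor
  · exact Nat.eq_of_beq_eq_true
  · rintro rfl
    exact Nat.beq_refl a

theorem t5_ble {a b : ℕ} : Nat.ble a b = true ↔ a ≤ b :=
  ⟨Nat.le_of_ble_eq_true, Nat.ble_eq_true_of_le⟩

theorem t5_blt {a b : ℕ} : Nat.blt a b = true ↔ a < b := by
  unfold Nat.blt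
  rw [t5_ble]
  exact Nat.succ_le_iff

theorem sqfB_sound {n : ℕ} (h : sqfB n = true) : Squarefree n := by
  unfold sqfB at h
  rw [Bool.or_eq_true, t5_beq] at h
  rcases h with h | h
  · rw [h]; exact squarefree_one
  · simp only [Bool.and_eq_true, t5_blt, List.all_eq_true, List.mem_range,
      Bool.not_eq_true'] at h
    obtain ⟨⟨h1, h2⟩, h3⟩ := h
    rw [Nat.squarefree_iff_prime_squarefree]
    intro p hp hd
    have h4 : p * p ≤ n := Nat.le_of_dvd h2 hd
    have h5 : p < 60 := by nlinarith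
    have h6 := hp.two_le
    have h7 := h3 (p - 2) (by omega)
    have h8 : p - 2 + 2 = p := by omega
    rw [h8] at h7
    have h9 : Nat.beq (Nat.mod n (Nat.mul p p)) 0 = true := by
      rw [t5_beq]
      exact Nat.mod_eq_zero_of_dvd hd
    rw [h9] at h7
    exact absurd h7 (by simp)

theorem stOKB_sound {s : St} (h : stOKB s = true) : StOK s := by
  unfold stOKB at h
  simp only [Bool.and_eq_true, t5_beq, t5_blt, List.all_eq_true] at h
  obtain ⟨h1, h2⟩ := h
  refine ⟨h1, fun p hp => ?_⟩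
  obtain ⟨⟨h3, h4⟩, h5⟩ := h2 p hp
  exact ⟨h3, Nat.odd_iff.mpr h4, sqfB_sound h5⟩

theorem t5_del {x a b : ℕ} (hx : Squarefree x) (ha : Squarefree a) (hb : Squarefree b) :
    del (del x a) (del x b) = del a b := by
  have hx0 : 0 < x := Nat.pos_of_ne_zero hx.ne_zero
  rw [del_comm x a, del_assoc ha hx (del_sq hx hb), ← del_assoc hx hx hb, del_self hx0,
    del_comm 1 b, del_one]

theorem match_del {s : St} {m : Fin 5 → ℕ} (hm : ∀ i, Odd (m i) ∧ Squarefree (m i)) {x : ℕ}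
    (hx : Odd x) (hx2 : Squarefree x) : Match s (fun i => del x (m i)) ↔ Match s m := by
  have _ := hx
  unfold Match
  have h : ∀ i j : Fin 5, del (del x (m i)) (del x (m j)) = del (m i) (m j) := fun i j =>
    t5_del hx2 (hm i).2 (hm j).2
  constructor
  · intro h1 i j hij
    rw [← h i j]
    exact h1 i j hij
  · intro h1 i j hij
    have := h1 i j hij
    rw [← h i j] at this
    exact this

/-- Row [RH-T5]: vectors in `InH` and the code: for a list of naturals `x` -/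
theorem inCode_iff {X : FX} (hX : FXOK X) (x : List ℕ) :
    inCode X.F x = true ↔ InH X.H (fun i => ((x.getD i 0 : ℕ) : ℤ)) := by
  rw [hX.code]
  unfold inCode wordN
  rw [t5_sumN5]
  have h : (∑ i : Fin 5, (x.getD i 0 % 2) * 2 ^ (i : ℕ)) =
      ∑ i : Fin 5, if ((x.getD i 0 : ℕ) : ℤ) % 2 = 1 then 2 ^ (i : ℕ) else 0 := by
    apply Finset.sum_congr rfl
    intro i _
    rcases Nat.mod_two_eq_zero_or_one (x.getD i 0) with h | h
    · rw [h, if_neg (by omega), zero_mul]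
    · rw [h, if_pos (by omega), one_mul]
  rw [h]

theorem t5_grp (f : Fin 5 → ZMod 2) : ∀ L : List (List ℕ),
    (L.Pairwise fun g g' => ∀ i ∈ g, i ∉ g') →
    (∀ g ∈ L, ∑ i : Fin 5, (if (i : ℕ) ∈ g then f i else 0) = 0) →
    ∑ i : Fin 5, (if ∃ g ∈ L, (i : ℕ) ∈ g then f i else 0) = 0 := by
  intro L
  induction L with
  | nil => intro _ _; simp
  | cons g L ih =>
    intro hp h0
    rw [List.pairwise_cons] at hp
    have h1 := ih hp.2 (fun g' hg' => h0 g' (List.mem_cons_of_mem _ hg'))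
    have h2 := h0 g (List.mem_cons_self)
    have h3 : (∑ i : Fin 5, (if ∃ g' ∈ g :: L, (i : ℕ) ∈ g' then f i else 0)) =
        ∑ i : Fin 5, (if (i : ℕ) ∈ g then f i else 0) +
        ∑ i : Fin 5, (if ∃ g' ∈ L, (i : ℕ) ∈ g' then f i else 0) := by
      rw [← Finset.sum_add_distrib]
      apply Finset.sum_congr rfl
      intro i _
      by_cases hi : (i : ℕ) ∈ g
      · have h4 : ¬ ∃ g' ∈ L, (i : ℕ) ∈ g' := by
          rintro ⟨g', hg', hi'⟩
          exact hp.1 g' hg' _ hi hi'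
        rw [if_pos hi, if_neg h4, if_pos ⟨g, List.mem_cons_self, hi⟩, add_zero]
      · by_cases h4 : ∃ g' ∈ L, (i : ℕ) ∈ g'
        · obtain ⟨g', hg', hi'⟩ := h4
          have h5 : ∃ g'' ∈ L, (i : ℕ) ∈ g'' := ⟨g', hg', hi'⟩
          have h6 : ∃ g'' ∈ g :: L, (i : ℕ) ∈ g'' := ⟨g', List.mem_cons_of_mem _ hg', hi'⟩
          rw [if_neg hi, if_pos h5, if_pos h6, zero_add]
        · rw [if_neg hi, if_neg h4, if_neg, add_zero]
          rintro ⟨g', hg', hi'⟩
          rcases List.mem_cons.mp hg' with rfl | h5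
          · exact hi hi'
          · exact h4 ⟨g', h5, hi'⟩
    rw [h3, h1, h2, add_zero]

theorem t5_listsum (F : ℕ → ℤ) : ∀ g : List ℕ, g.Nodup → (∀ i ∈ g, i < 5) →
    ∑ i : Fin 5, (if (i : ℕ) ∈ g then F i else 0) = (g.map F).sum := by
  intro g
  induction g with
  | nil => intro _ _; simp
  | cons a g ih =>
    intro hn h5
    rw [List.nodup_cons] at hn
    have h1 := ih hn.2 (fun i hi => h5 i (List.mem_cons_of_mem _ hi))
    have ha : a < 5 := h5 a List.mem_cons_self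
    rw [List.map_cons, List.sum_cons, ← h1]
    have h2 : F a = ∑ i : Fin 5, (if i = ⟨a, ha⟩ then F i else 0) := by
      rw [Finset.sum_ite_eq' Finset.univ (⟨a, ha⟩ : Fin 5) (fun i : Fin 5 => F i)]
      simp
    rw [h2, ← Finset.sum_add_distrib]
    apply Finset.sum_congr rfl
    intro i _
    by_cases hi : i = ⟨a, ha⟩
    · subst hi
      rw [if_pos rfl, if_pos List.mem_cons_self, if_neg hn.1, add_zero]
    · have h3 : (i : ℕ) ≠ a := fun h => hi (Fin.ext h)
      by_cases h4 : (i : ℕ) ∈ g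
      · rw [if_neg hi, if_pos h4, if_pos (List.mem_cons_of_mem _ h4), zero_add]
      · rw [if_neg hi, if_neg h4, if_neg, add_zero]
        rw [List.mem_cons]
        rintro (h | h)
        · exact h3 h
        · exact h4 h

theorem t5_cast2 {a b : ℤ} (h : a % 2 = b % 2) : (a : ZMod 2) = (b : ZMod 2) := by
  rw [ZMod.intCast_eq_intCast_iff]
  exact h

theorem t5_even {n : ℤ} : (n : ZMod 2) = 0 ↔ ∃ t : ℤ, n = 2 * t := by
  rw [ZMod.intCast_zmod_eq_zero_iff_dvd]
  exact Iff.rfl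

/-- Row [RH-T5]: `agreeB` means that the forms `S2` for the two systems of residues agree modulo 16
on vectors of the lattice: `S2(x,y)_r - S2(x,y)_q = ∑ A_i (r_i - q_i) x_i y_i`, the factors
`r_i - q_i` are divisible by 8, so only the parities of `A_i x_i y_i` matter: coordinates with `A_i`
even contribute 0 mod 16; the others are in exactly one group (`FXOK.grp*`), in which the parities of
`x_i` (and of `y_i`) are equal, and the sum of `r_i - q_i` over the group is divisible by 16. -/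
theorem agree_sound {X : FX} (hX : FXOK X) {r q : List ℕ} (h : agreeB X r q = true)
    {m : Fin 5 → ℕ} (hm : ∀ i : Fin 5, m i % 16 = r.getD i 0 % 16) {x y : Fin 5 → ℤ}
    (hx : InH X.H x) (hy : InH X.H y) :
    ∃ t : ℤ, S2 X.A m x y = S2 X.A (fun i => q.getD i 0) x y + 16 * t := by
  unfold agreeB at h
  rw [Bool.and_eq_true, t5_all5] at h
  obtain ⟨h1, h2⟩ := h
  have h1' : ∀ i : Fin 5, q.getD i 0 ≤ 16 ∧ r.getD i 0 % 8 = q.getD i 0 % 8 := by
    intro i
    have h3 := h1 i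
    rw [Bool.and_eq_true, t5_ble, t5_beq] at h3
    exact h3
  have h1n : ∀ i : ℕ, i < 5 → q.getD i 0 ≤ 16 ∧ r.getD i 0 % 8 = q.getD i 0 % 8 :=
    fun i hi => h1' ⟨i, hi⟩
  set d : ℕ → ℤ := fun i => ((r.getD i 0 : ℤ) - (q.getD i 0 : ℤ)) / 8 with hddef
  have hd : ∀ i : ℕ, i < 5 → (r.getD i 0 : ℤ) - (q.getD i 0 : ℤ) = 8 * d i := by
    intro i hi
    have := h1n i hi
    simp only [hddef]
    omega
  have hd' : ∀ i : Fin 5, (r.getD i 0 : ℤ) - (q.getD i 0 : ℤ) = 8 * d i := fun i => hd i i.2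
  have he : ∀ i : Fin 5, ∃ e : ℤ, (m i : ℤ) = r.getD i 0 + 16 * e := by
    intro i
    refine ⟨((m i : ℤ) - r.getD i 0) / 16, ?_⟩
    have := hm i
    omega
  choose e he using he
  -- parity of the group sums
  have hg : ∀ g ∈ X.grp, ((g.map d).sum : ZMod 2) = 0 := by
    intro g hgm
    have h3 : Nat.beq ((g.map fun i => r.getD i 0 + 16 - q.getD i 0).sum % 16) 0 = true :=
      (List.all_eq_true.mp h2) g hgm
    rw [t5_beq] at h3
    rw [t5_even]
    have h5 : ∀ i ∈ g, i < 5 := (hX.grp1 g hgm).2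
    have key : ∀ g : List ℕ, (∀ i ∈ g, i < 5) →
        (((g.map fun i => r.getD i 0 + 16 - q.getD i 0).sum : ℕ) : ℤ) =
          8 * (g.map d).sum + 16 * g.length := by
      intro g
      induction g with
      | nil => intro _; simp
      | cons a g ih =>
        intro h5
        have h6 := ih (fun i hi => h5 i (List.mem_cons_of_mem _ hi))
        have ha := h5 a List.mem_cons_self
        have h7 := hd a ha
        have h8 := h1n a ha
        rw [List.map_cons, List.sum_cons, List.map_cons, List.sum_cons, List.length_cons]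
        push_cast at h6 ⊢
        rw [h6, Nat.cast_sub (by omega)]
        push_cast
        linarith
    have h9 := key g h5
    refine ⟨(g.map d).sum / 2, ?_⟩
    omega
  have h10 : (((∑ i : Fin 5, (X.A i : ℤ) * d i * x i * y i) : ℤ) : ZMod 2) = 0 := by
    have h11 : (((∑ i : Fin 5, (X.A i : ℤ) * d i * x i * y i) : ℤ) : ZMod 2) =
        ∑ i : Fin 5, (if ∃ g ∈ X.grp, (i : ℕ) ∈ g then
          ((d i : ZMod 2) * (x i : ZMod 2) * (y i : ZMod 2)) else 0) := by
      push_cast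
      apply Finset.sum_congr rfl
      intro i _
      by_cases hi : ∃ g ∈ X.grp, (i : ℕ) ∈ g
      · rw [if_pos hi]
        obtain ⟨g, hgm, hig⟩ := hi
        rw [hX.grp5 g hgm i hig]
        push_cast
        ring
      · rw [if_neg hi]
        have hA : ((X.A i : ℕ) : ZMod 2) = 0 := by
          rcases hX.A i with h | h | h
          · exact absurd (hX.grp2 i h) hi
          · rw [h]; rfl
          · rw [h]; rfl
        rw [hA]
        ring
    rw [h11]
    apply t5_grp (fun i : Fin 5 => (d i : ZMod 2) * (x i : ZMod 2) * (y i : ZMod 2)) X.grp hX.grp3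
    intro g hgm
    by_cases hex : ∃ i : Fin 5, (i : ℕ) ∈ g
    · obtain ⟨i0, hi0⟩ := hex
      have h12 : ∀ i : Fin 5, (if (i : ℕ) ∈ g then
          ((d i : ZMod 2) * (x i : ZMod 2) * (y i : ZMod 2)) else 0) =
          (((if (i : ℕ) ∈ g then d i else 0) : ℤ) : ZMod 2) *
            ((x i0 : ZMod 2) * (y i0 : ZMod 2)) := by
        intro i
        by_cases hi : (i : ℕ) ∈ g
        · rw [if_pos hi, if_pos hi, t5_cast2 (hX.grp4 g hgm x hx i i0 hi hi0),
            t5_cast2 (hX.grp4 g hgm y hy i i0 hi hi0)]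
          ring
        · rw [if_neg hi, if_neg hi]
          simp
      simp only [h12]
      rw [← Finset.sum_mul, ← Int.cast_sum,
        t5_listsum d g (hX.grp1 g hgm).1 (hX.grp1 g hgm).2, hg g hgm, zero_mul]
    · apply Finset.sum_eq_zero
      intro i _
      rw [if_neg fun h => hex ⟨i, h⟩]
  rw [t5_even] at h10
  obtain ⟨t, ht⟩ := h10
  refine ⟨t + ∑ i : Fin 5, (X.A i : ℤ) * e i * x i * y i, ?_⟩
  have h13 : S2 X.A m x y = S2 X.A (fun i => q.getD i 0) x y +
      8 * (∑ i : Fin 5, (X.A i : ℤ) * d i * x i * y i) +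
      16 * ∑ i : Fin 5, (X.A i : ℤ) * e i * x i * y i := by
    unfold S2
    rw [Finset.mul_sum, Finset.mul_sum, ← Finset.sum_add_distrib, ← Finset.sum_add_distrib]
    apply Finset.sum_congr rfl
    intro i _
    rw [he i]
    have h14 := hd' i
    have h15 : (r.getD i 0 : ℤ) = (q.getD i 0 : ℤ) + 8 * d i := by linarith
    rw [h15]
    ring
  rw [h13, ht]
  ring

theorem t5_InH_add {H : List (Fin 5 → ℕ)} {x y : Fin 5 → ℤ} (hx : InH H x) (hy : InH H y) :
    InH H (fun i => x i + y i) := by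
  intro h hh
  have := (hx h hh).add (hy h hh)
  simpa [mul_add, Finset.sum_add_distrib] using this

theorem t5_InH_smul {H : List (Fin 5 → ℕ)} {x : Fin 5 → ℤ} (c : ℤ) (hx : InH H x) :
    InH H (fun i => c * x i) := by
  intro h hh
  have h1 := (hx h hh).mul_left c
  have h2 : (∑ i, (h i : ℤ) * (c * x i)) = c * ∑ i, (h i : ℤ) * x i := by
    rw [Finset.mul_sum]
    apply Finset.sum_congr rfl
    intro i _
    ring
  rw [h2]
  exact h1

theorem t5_integ {kd : Kd} {V : Type*} [AddCommGroup V] [Module ℚ V]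
    {B : LinearMap.BilinForm ℚ V} {K : AddSubgroup V} (h : Cls kd B K) : Integ B K := by
  cases kd with
  | k0 => exact (F0.even h).1
  | k2 => exact (F2.even h).1
  | kQ => exact FQ.int h

theorem t5_hB_symm {A m : Fin 5 → ℕ} (N : ℚ) (x y : ℚ × ℚ × V5) :
    hB N (Bm A m) x y = hB N (Bm A m) y x := by
  have h1 : Bm A m x.2.2 y.2.2 = Bm A m y.2.2 x.2.2 := by
    simp only [Bm, LinearMap.mk₂_apply]
    congr 1
    apply Finset.sum_congr rfl
    intro i _
    ring
  simp only [hB, LinearMap.mk₂_apply]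
  rw [h1]
  ring

theorem t5_s2N {X : FX} (hX : FXOK X) (q x y : List ℕ) :
    ((s2N X.F.As q x y : ℕ) : ℤ) = S2 X.A (fun i => q.getD i 0)
      (fun i => ((x.getD i 0 : ℕ) : ℤ)) (fun i => ((y.getD i 0 : ℕ) : ℤ)) := by
  unfold s2N S2
  rw [t5_sumN5]
  push_cast
  apply Finset.sum_congr rfl
  intro i _
  rw [hX.As i]

theorem t5_fi (nd : Nd) : fiB nd < 5 := by
  unfold fiB
  rcases Nat.beq (gB nd.st 0) nd.blk with _ | _
  · rcases Nat.beq (gB nd.st 1) nd.blk with _ | _
    · rcases Nat.beq (gB nd.st 2) nd.blk with _ | _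
      · rcases Nat.beq (gB nd.st 3) nd.blk with _ | _
        · simp
        · simp
      · simp
    · simp
  · simp

theorem t5_bits (b : Fin 5 → ℕ) (hb : ∀ i, b i < 2) :
    ∃ e < 32, ∀ i : Fin 5, (bitv e).getD i 0 = b i := by
  have h0 := hb 0
  have h1 := hb 1
  have h2 := hb 2
  have h3 := hb 3
  have h4 := hb 4
  refine ⟨b 0 + 2 * b 1 + 4 * b 2 + 8 * b 3 + 16 * b 4, by omega, ?_⟩
  intro i
  unfold bitv
  fin_cases i
  · show (b 0 + 2 * b 1 + 4 * b 2 + 8 * b 3 + 16 * b 4) % 2 = b 0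
    omega
  · show (b 0 + 2 * b 1 + 4 * b 2 + 8 * b 3 + 16 * b 4) / 2 % 2 = b 1
    omega
  · show (b 0 + 2 * b 1 + 4 * b 2 + 8 * b 3 + 16 * b 4) / 4 % 2 = b 2
    omega
  · show (b 0 + 2 * b 1 + 4 * b 2 + 8 * b 3 + 16 * b 4) / 8 % 2 = b 3
    omega
  · show (b 0 + 2 * b 1 + 4 * b 2 + 8 * b 3 + 16 * b 4) / 16 % 2 = b 4
    omega

theorem t5_getD (f : ℕ → ℕ) (i : Fin 5) : ((List.range 5).map f).getD i 0 = f i := by
  have h : (i : ℕ) < ((List.range 5).map f).length := by simp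
  rw [List.getD_eq_getElem _ _ h]
  simp

theorem t5_half (w : List ℕ) (i : Fin 5) : (half w).getD i 0 = w.getD i 0 / 2 := by
  unfold half
  rw [List.getD_eq_getElem?_getD, List.getD_eq_getElem?_getD, List.getElem?_map]
  rcases w[(i : ℕ)]? with _ | a
  · simp
  · simp

theorem t5_S2_comm (A m : Fin 5 → ℕ) (x y : Fin 5 → ℤ) : S2 A m x y = S2 A m y x := by
  unfold S2
  apply Finset.sum_congr rfl
  intro i _
  ring

theorem t5_core {X : FX} (hX : FXOK X) {nd : Nd} {rho : List ℕ} {t : Ts}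
    (hv : validB X nd t = true) (hch : chkTest X.F nd rho t = true) (hst : StOK nd.st)
    (hblk : nd.blk < 5) (hfbn : ∀ p ∈ nd.fb, p.1 < 5 ∧ p.2 < 5)
    {m : Fin 5 → ℕ} (hm : ∀ i, Odd (m i) ∧ Squarefree (m i))
    (hc : Cls X.kd (Bm X.A m) (KH X.H)) {N₂ x : ℕ} (hN : N₂ = 1 ∨ N₂ = 2) (hx : Odd x)
    (hx2 : Squarefree x) {i₀ : Fin 5} (hi : m i₀ = 1)
    (hC : CF (hB ((N₂ * x : ℕ) : ℚ) (Bm X.A m)) (hL (KH X.H)))
    (hagr : ∀ x y, InH X.H x → InH X.H y →
      ∃ u : ℤ, S2 X.A m x y = S2 X.A (fun i => t.q.getD i 0) x y + 16 * u)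
    (hM : Match nd.st m)
    (hb : ∀ i : Fin 5, (nd.st.getD i (0, 0)).1 = nd.blk → m i = (nd.st.getD i (0, 0)).2)
    (hrho : ∀ i : Fin 5, m i % 8 = rho.getD i 0) :
    (∃ c ∈ nd.ch, Match c m) ∨
      ∃ i i' : Fin 5, ((i : ℕ), (i' : ℕ)) ∈ nd.fb ∧ m i = m i' := by
  unfold validB at hv
  rw [Bool.and_eq_true, Bool.and_eq_true, Bool.and_eq_true, Bool.and_eq_true, Bool.and_eq_true,
    Bool.and_eq_true, Bool.and_eq_true, Bool.and_eq_true, Bool.and_eq_true] at hv
  obtain ⟨⟨⟨⟨⟨⟨⟨⟨⟨v1, v2⟩, v3⟩, v4⟩, v5⟩, v6⟩, v7⟩, v8⟩, v9⟩, v10⟩ := hv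
  have hl : t.l = 2 ∨ t.l = 4 := by
    rw [Bool.or_eq_true, t5_beq, t5_beq] at v1
    exact v1
  have hvar : t.var ≤ 1 := t5_ble.mp v2
  have hk8 : ∀ i : Fin 5, t.k.getD i 0 ≤ 8 := fun i => t5_ble.mp (t5_all5.mp v3 i)
  set k : Fin 5 → ℤ := fun i => ((t.k.getD i 0 : ℕ) : ℤ) with hkdef
  have hk : InH X.H k := (inCode_iff hX t.k).mp v4
  set Q : Fin 5 → ℕ := fun i => t.q.getD i 0 with hQ
  have hkk : ∃ u : ℤ, S2 X.A m k k = 4 * t.l * u := by
    obtain ⟨u, hu⟩ := hagr k k hk hk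
    have h1 := t5_beq.mp v5
    have h2 := t5_s2N hX t.q t.k t.k
    rw [hu, ← h2]
    rcases hl with h3 | h3
    · rw [h3] at h1 ⊢
      refine ⟨((s2N X.F.As t.q t.k t.k : ℕ) : ℤ) / 8 + 2 * u, ?_⟩
      push_cast
      omega
    · rw [h3] at h1 ⊢
      refine ⟨((s2N X.F.As t.q t.k t.k : ℕ) : ℤ) / 16 + u, ?_⟩
      push_cast
      omega
  have h1 : ∃ x₁, InH X.H x₁ ∧ ∃ u : ℤ, S2 X.A m x₁ k = 4 * u + 2 := by
    rw [List.any_eq_true] at v6
    obtain ⟨w, hw, hw2⟩ := v6
    have hwH := hX.gens w hw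
    refine ⟨_, hwH, ?_⟩
    obtain ⟨u, hu⟩ := hagr _ k hwH hk
    have h2 := t5_s2N hX t.q w t.k
    have h3 := t5_beq.mp hw2
    rw [hu, ← h2]
    refine ⟨((s2N X.F.As t.q w t.k : ℕ) : ℤ) / 4 + 4 * u, ?_⟩
    omega
  have hv' : X.kd ≠ Kd.kQ → t.l = 2 → ∃ u : ℤ, S2 X.A m k k = 8 * (t.var : ℤ) + 16 * u := by
    intro h2 h3
    have h4 := hX.even.mpr h2
    rw [h4, h3] at v7
    have h5 : Nat.beq (s2N X.F.As t.q t.k t.k % 16) (8 * t.var) = true := by
      rw [Bool.or_eq_true] at v7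
      rcases v7 with h6 | h6
      · exact absurd h6 (by decide)
      · exact h6
    have h6 := t5_beq.mp h5
    obtain ⟨u, hu⟩ := hagr k k hk hk
    have h2 := t5_s2N hX t.q t.k t.k
    rw [hu, ← h2]
    refine ⟨((s2N X.F.As t.q t.k t.k : ℕ) : ℤ) / 16 + u, ?_⟩
    omega
  set n : Fin 5 → ℤ := fun i => ((t.np.getD i 0 : ℕ) : ℤ) - (t.nn.getD i 0 : ℕ) with hn
  have hn1 : n ≠ 0 := by
    intro h2
    have h3 : (all5 fun i => Nat.beq (t.np.getD i 0) (t.nn.getD i 0)) = true := by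
      rw [t5_all5]
      intro i
      rw [t5_beq]
      have h4 := congrFun h2 i
      simp only [hn, Pi.zero_apply] at h4
      omega
    rw [h3] at v10
    exact absurd v10 (by decide)
  obtain ⟨Z, Y, j, s, μ, hS, hs, hnZ⟩ := exists_sol hX.A hm hc hN hx hx2 hi hC hl hk hkk h1 hv' hn1
  have hZH : InH X.H Z := by
    have h2 : Z = fun i => (fun i => (j : ℤ) * k i) i + (fun i => (t.l : ℤ) * Y i) i := by
      funext i
      exact hS.hZ i
    rw [h2]
    exact t5_InH_add (t5_InH_smul _ hk) (t5_InH_smul _ hS.hX)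
  -- products with `k` in the coordinates of the check
  have hpk : ∀ Y : Fin 5 → ℤ, ∑ i : Fin 5, ((X.F.As.getD i 0 : ℕ) : ℤ) * (t.q.getD i 0 : ℕ) *
      (t.k.getD i 0 : ℕ) * Y i = S2 X.A Q Y k := by
    intro Y
    unfold S2
    apply Finset.sum_congr rfl
    intro i _
    rw [hX.As i]
    simp only [hkdef, hQ]
    ring
  have hpw : ∀ w : Fin 5 → ℤ, ∑ i : Fin 5, ((X.F.As.getD i 0 : ℕ) : ℤ) * (t.q.getD i 0 : ℕ) *
      Z i * w i = S2 X.A Q Z w := by
    intro w
    unfold S2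
    apply Finset.sum_congr rfl
    intro i _
    rw [hX.As i]
  refine chkTest_sound (s := s) hch hl hk8 ?_ hst hblk hfbn hvar hm hM hb hrho hS.hj hS.hZ hS.odd hS.sq
    hS.dvd ?_ ?_ ?_ ?_ ?_ ?_ ?_ hnZ ?_
  · intro i
    rw [hX.As i]
    rcases hX.A i with h | h | h <;> omega
  · rw [← hS.nrm]
    apply Finset.sum_congr rfl
    intro i _
    rw [hX.As i]
  · intro he
    have h2 := hX.even.mp he
    have h3 := hX.s2
    revert hs h2 h3
    cases X.kd with
    | k0 =>
      intro hs _ _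
      exact Or.inl hs
    | k2 =>
      intro hs _ h3
      rcases hs with hs | hs
      · exact Or.inl hs
      · exact Or.inr ⟨hs, h3.mpr rfl⟩
    | kQ =>
      intro _ h2 _
      exact absurd rfl h2
  · intro he
    have h2 : X.kd = Kd.kQ := by
      by_contra h3
      have h4 := hX.even.mpr h3
      rw [h4] at he
      exact absurd he (by decide)
    rw [h2] at hs
    exact hs
  · exact (hX.code Y).mp hS.hX
  · intro h2
    rw [hpk]
    obtain ⟨a, ha⟩ := hS.par2 h2
    obtain ⟨u, hu⟩ := hagr Y k hS.hX hk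
    refine ⟨a - 4 * u, ?_⟩
    linarith
  · intro h4
    obtain ⟨p0, p2⟩ := hS.par4 h4
    obtain ⟨u, hu⟩ := hagr Y k hS.hX hk
    rw [hpk]
    constructor
    · intro hj
      obtain ⟨a, ha⟩ := p0 hj
      refine ⟨a - 2 * u, ?_⟩
      linarith
    · intro hj
      obtain ⟨a, ha⟩ := p2 hj
      refine ⟨a - 4 * u, ?_⟩
      linarith
  · intro hs2 w hw
    have hkd : X.kd = Kd.k2 := by
      revert hs
      cases X.kd with
      | k0 => intro hs; exact absurd (hs.symm.trans hs2) (by decide)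
      | k2 => intro _; rfl
      | kQ =>
        intro hs
        rcases hs with hs | hs
        · exact absurd (hs.symm.trans hs2) (by decide)
        · exact absurd (hs.symm.trans hs2) (by decide)
    have hF2 := hX.s2.mpr hkd
    rw [hF2] at v8
    have h8 : wOK X.F t w = true := by
      rw [Bool.or_eq_true] at v8
      rcases v8 with h6 | h6
      · exact absurd h6 (by decide)
      · exact List.all_eq_true.mp h6 w hw
    have hpw' := hpw (fun i => ((w.getD i 0 : ℕ) : ℤ))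
    rw [hpw']
    unfold wOK at h8
    rcases hl with hl2 | hl4
    · rw [hl2] at h8
      have h8' : ((all5 (fun i => Nat.beq (w.getD i 0 % 2) 0) && inCode X.F (half w) &&
          Nat.beq (s2N X.F.As t.q (half w) t.k % 4) 0) ||
        (all5 (fun i => Nat.ble (t.k.getD i 0) (w.getD i 0) &&
            Nat.beq ((w.getD i 0 - t.k.getD i 0) % 2) 0) &&
          (fun x => inCode X.F x && Nat.beq (s2N X.F.As t.q x t.k % 4) (2 * t.var))
            ((List.range 5).map fun i => (w.getD i 0 - t.k.getD i 0) / 2))) = true := h8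
      rw [Bool.or_eq_true] at h8'
      rcases h8' with h9 | h9
      · rw [Bool.and_eq_true, Bool.and_eq_true, t5_all5, inCode_iff hX, t5_beq] at h9
        obtain ⟨⟨h10, h11⟩, h12⟩ := h9
        set y : Fin 5 → ℤ := fun i => (((half w).getD i 0 : ℕ) : ℤ) with hy
        obtain ⟨u, hu⟩ := hagr y k h11 hk
        have h13 := t5_s2N hX t.q (half w) t.k
        have h14 : ∃ a : ℤ, S2 X.A m y k = 2 * t.l * a := by
          rw [hu, hl2, ← h13]
          refine ⟨((s2N X.F.As t.q (half w) t.k : ℕ) : ℤ) / 4 + 4 * u, ?_⟩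
          push_cast
          omega
        obtain ⟨a, ha⟩ := hS.tv hs2 y h11 h14
        obtain ⟨u', hu'⟩ := hagr Z y hZH h11
        have h15 : S2 X.A Q Z (fun i => ((w.getD i 0 : ℕ) : ℤ)) = 2 * S2 X.A Q Z y := by
          unfold S2
          rw [Finset.mul_sum]
          apply Finset.sum_congr rfl
          intro i _
          have h16 := h10 i
          rw [t5_beq] at h16
          have h17 : ((w.getD i 0 : ℕ) : ℤ) = 2 * y i := by
            simp only [hy]
            rw [t5_half]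
            omega
          show (X.A i : ℤ) * (Q i : ℤ) * Z i * ((w.getD i 0 : ℕ) : ℤ) = _
          rw [h17]
          ring
        rw [h15]
        rw [hl2] at ha
        refine ⟨a - 2 * u', ?_⟩
        push_cast at ha
        linarith
      · rw [Bool.and_eq_true, t5_all5] at h9
        obtain ⟨h10, h11⟩ := h9
        have h11' : inCode X.F ((List.range 5).map fun i => (w.getD i 0 - t.k.getD i 0) / 2) = true ∧
            Nat.beq (s2N X.F.As t.q ((List.range 5).map fun i => (w.getD i 0 - t.k.getD i 0) / 2)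
              t.k % 4) (2 * t.var) = true := Bool.and_eq_true_iff.mp h11
        obtain ⟨h12, h13⟩ := h11'
        set xl : List ℕ := (List.range 5).map fun i => (w.getD i 0 - t.k.getD i 0) / 2 with hxl
        rw [inCode_iff hX] at h12
        rw [t5_beq] at h13
        set x₀ : Fin 5 → ℤ := fun i => ((xl.getD i 0 : ℕ) : ℤ) with hx₀
        obtain ⟨u, hu⟩ := hagr x₀ k h12 hk
        have h14 := t5_s2N hX t.q xl t.k
        have h15 : ∃ a : ℤ, S2 X.A m x₀ k = 2 * (t.var : ℤ) + 4 * a := by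
          rw [hu, ← h14]
          refine ⟨((s2N X.F.As t.q xl t.k : ℕ) : ℤ) / 4 + 4 * u, ?_⟩
          omega
        obtain ⟨a, ha⟩ := hS.tv2 hs2 hl2 x₀ h12 h15
        have h16 : (fun i : Fin 5 => k i + 2 * x₀ i) = fun i : Fin 5 => ((w.getD i 0 : ℕ) : ℤ) := by
          funext i
          have h17 := h10 i
          rw [Bool.and_eq_true, t5_ble, t5_beq] at h17
          simp only [hx₀, hkdef, hxl]
          rw [t5_getD (fun i => (w.getD i 0 - t.k.getD i 0) / 2) i]
          omega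
        have h18 : InH X.H (fun i : Fin 5 => k i + 2 * x₀ i) :=
          t5_InH_add hk (t5_InH_smul 2 h12)
        obtain ⟨u', hu'⟩ := hagr Z _ hZH h18
        rw [← h16]
        refine ⟨a - u', ?_⟩
        linarith
    · rw [hl4] at h8
      have h8' : (inCode X.F w && Nat.beq (s2N X.F.As t.q w t.k % 8) 0) = true := h8
      rw [Bool.and_eq_true, inCode_iff hX, t5_beq] at h8'
      obtain ⟨h9, h10⟩ := h8'
      obtain ⟨u, hu⟩ := hagr _ k h9 hk
      have h11 := t5_s2N hX t.q w t.k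
      have h12 : ∃ a : ℤ, S2 X.A m (fun i => ((w.getD i 0 : ℕ) : ℤ)) k = 2 * t.l * a := by
        rw [hu, hl4, ← h11]
        refine ⟨((s2N X.F.As t.q w t.k : ℕ) : ℤ) / 8 + 2 * u, ?_⟩
        push_cast
        omega
      obtain ⟨a, ha⟩ := hS.tv hs2 _ h9 h12
      obtain ⟨u', hu'⟩ := hagr Z _ hZH h9
      rw [hl4] at ha
      refine ⟨a - u', ?_⟩
      push_cast at ha
      linarith
  · intro i hi'
    have h2 := t5_all5.mp v9 i
    rw [Bool.or_eq_true, Bool.and_eq_true, t5_beq, t5_beq, t5_beq] at h2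
    rcases h2 with h3 | h3
    · exact absurd h3 hi'
    · exact h3

/-- Row [RH-T5]: one step.

Proof.  Let `i₀ = fiB nx.nd`, `x = m i₀`, `m' i = del x (m i)`.  `tf` (with `N = N₂`, `x` odd) and
`CF_of_QEq` give the cusp condition for `N₂ x`, `m'`; `class_del`: `Cls kd (Bm A m') (KH H)`;
`m' i₀ = 1`; `m' i ≡ x m i ≡ R i₀ R i mod 8 = nx.rho i`; for `i` in the block
`m' i = del (r i₀) (r i) = r i` (`r i₀ = 1`); `Match nd.st m'`; the odd numbers `m' i` satisfy
`m' i % 16 = rho i` or `rho i + 8`.  So the last part of `nodeLight` (for the corresponding `e`) gives a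
test `t` with `agreeB`.  By `agree_sound` (for `m'` and `q = t.q`) the conditions in `validB` hold for
`S2 A m'`: `S2(k,k) ≡ 0 mod 4l` (`4l ∣ 16`), some `x₁ ∈ X.gens` (in `InH`) has
`S2(x₁,k) ≡ 2 mod 4`, `S2(k,k) ≡ 8 var mod 16` if `kd ≠ kQ`, `l = 2`.  `exists_sol` with
`n = np - nn ≠ 0` gives `Z, X, j, s, μ`.  `chkTest_sound`: `hp2`, `hp4`, `hws` follow from `par2`,
`par4`, `tv`, `tv2` and `agree_sound` (`Z ∈ InH`, since `Z = jk + lX`); for `w ∈ t.ws` and `l = 2`: if
`w = 2y`, `y ∈ InH`, `S2(y,k) ≡ 0 mod 4`, then `tv` gives `S2(Z,y) ≡ 0 mod 8`; if `w = k + 2x₀`: `tv2`;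
`l = 4`: `w ∈ InH`, `S2(w,k) ≡ 0 mod 8`: `tv` gives `16 ∣ S2(Z,w)`.  The conclusion of
`chkTest_sound` is about `m'`: `match_del`; `m' i = m' i'` implies `m i = m i'`. -/
theorem node_step {X : FX} (hX : FXOK X) {R : List ℕ} (hR : ∀ i : Fin 5, R.getD i 0 % 2 = 1)
    {nx : NX} (hl : nodeLight X R nx = true) (hh : nodeHeavy X.F nx = true)
    {m : Fin 5 → ℕ} (hm : ∀ i, Odd (m i) ∧ Squarefree (m i))
    (hc : Cls X.kd (Bm X.A m) (KH X.H)) {N₂ : ℕ} (hN : N₂ = 1 ∨ N₂ = 2)
    (hC : CF (hB (N₂ : ℚ) (Bm X.A m)) (hL (KH X.H)))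
    (hres : ∀ i j : Fin 5, m i * m j % 8 = R.getD i 0 * R.getD j 0 % 8)
    (hfb : ∀ i j : Fin 5, ((i : ℕ), (j : ℕ)) ∈ X.F.fb → m i ≠ m j)
    (hM : Match nx.nd.st m) : ∃ c ∈ nx.nd.ch, Match c m := by
  have _ := hR
  unfold nodeLight at hl
  rw [Bool.and_eq_true, Bool.and_eq_true, Bool.and_eq_true, Bool.and_eq_true, Bool.and_eq_true,
    Bool.and_eq_true, Bool.and_eq_true] at hl
  obtain ⟨⟨⟨⟨⟨⟨⟨l1, l2⟩, l3⟩, l4⟩, l5⟩, l6⟩, l7⟩, l8⟩ := hl
  have hst : StOK nx.nd.st := stOKB_sound l1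
  have hblk : nx.nd.blk < 5 := t5_blt.mp l2
  set i₀ : Fin 5 := ⟨fiB nx.nd, t5_fi nx.nd⟩ with hi₀
  have h3 : (nx.nd.st.getD i₀ (0, 0)).1 = nx.nd.blk := t5_beq.mp l3
  have h4 : (nx.nd.st.getD i₀ (0, 0)).2 = 1 := t5_beq.mp l4
  have h5 : ∀ i : Fin 5, nx.rho.getD i 0 = R.getD i 0 * R.getD i₀ 0 % 8 := fun i =>
    t5_beq.mp (t5_all5.mp l5 i)
  have h6 : ∀ p ∈ nx.nd.fb, p ∈ X.F.fb := by
    intro p hp
    have h7 := List.all_eq_true.mp l6 p hp
    rw [List.any_eq_true] at h7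
    obtain ⟨p', hp', h8⟩ := h7
    rw [Bool.and_eq_true, t5_beq, t5_beq] at h8
    have : p = p' := Prod.ext h8.1 h8.2
    rw [this]
    exact hp'
  have hfbn : ∀ p ∈ nx.nd.fb, p.1 < 5 ∧ p.2 < 5 := fun p hp => hX.fb p (h6 p hp)
  set x : ℕ := m i₀ with hxdef
  have hx : Odd x := (hm i₀).1
  have hx2 : Squarefree x := (hm i₀).2
  set m' : Fin 5 → ℕ := fun i => del x (m i) with hm'def
  have hm' : ∀ i, Odd (m' i) ∧ Squarefree (m' i) := fun i =>
    ⟨del_odd hx (hm i).1, del_sq hx2 (hm i).2⟩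
  have hc' : Cls X.kd (Bm X.A m') (KH X.H) := class_del hX.A hm hx hx2 hc
  have hcop : Nat.Coprime x N₂ := by
    rcases hN with h | h
    · rw [h]; exact Nat.coprime_one_right x
    · rw [h]; exact hx.coprime_two_right
  have hN0 : 0 < N₂ := by omega
  have hQE := tf (H := X.H) hX.A hm (t5_integ hc) hN0 hx hx2 hcop
  have hC' : CF (hB ((N₂ * x : ℕ) : ℚ) (Bm X.A m')) (hL (KH X.H)) :=
    CF_of_QEq (fun a b => t5_hB_symm (N₂ : ℚ) a b) hQE hC
  have hM' : Match nx.nd.st m' := (match_del hm hx hx2).mpr hM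
  have hone : m' i₀ = 1 := del_self (Nat.pos_of_ne_zero hx2.ne_zero)
  have hb : ∀ i : Fin 5, (nx.nd.st.getD i (0, 0)).1 = nx.nd.blk →
      m' i = (nx.nd.st.getD i (0, 0)).2 := by
    intro i hi
    have h7 := hM i₀ i (h3.trans hi.symm)
    rw [h4, del_comm 1, del_one] at h7
    exact h7
  have hrho : ∀ i : Fin 5, m' i % 8 = nx.rho.getD i 0 := by
    intro i
    rw [h5 i]
    have h7 : m' i % 8 = x * m i % 8 := del_mod8 hx (hm i).1
    rw [h7, mul_comm x, hres i i₀]
  have hb2 : ∀ i : Fin 5, m' i % 16 / 8 < 2 := fun i => by omega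
  obtain ⟨e, he, hbit⟩ := t5_bits (fun i => m' i % 16 / 8) hb2
  have h9 := List.all_eq_true.mp l8 e (List.mem_range.mpr he)
  set r : List ℕ := (List.range 5).map fun i => nx.rho.getD i 0 + 8 * (bitv e).getD i 0 with hr
  have hri : ∀ i : Fin 5, r.getD i 0 = m' i % 16 := by
    intro i
    rw [hr, t5_getD (fun i => nx.rho.getD i 0 + 8 * (bitv e).getD i 0) i, hbit i, ← hrho i]
    omega
  have h9' : (!(all5 fun i => !Nat.beq (gB nx.nd.st i) nx.nd.blk ||
      Nat.beq (r.getD i 0) (gR nx.nd.st i % 16)) || nx.tests.any fun t => agreeB X r t.q) = true := h9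
  have h10 : (all5 fun i => !Nat.beq (gB nx.nd.st i) nx.nd.blk ||
      Nat.beq (r.getD i 0) (gR nx.nd.st i % 16)) = true := by
    rw [t5_all5]
    intro i
    by_cases hi : (nx.nd.st.getD i (0, 0)).1 = nx.nd.blk
    · rw [Bool.or_eq_true]
      right
      rw [t5_beq, hri i, hb i hi]
      rfl
    · rw [Bool.or_eq_true]
      left
      rw [Bool.not_eq_true', ← Bool.not_eq_true, t5_beq]
      exact hi
  rw [h10, Bool.or_eq_true] at h9'
  have h11 : (nx.tests.any fun t => agreeB X r t.q) = true := by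
    rcases h9' with h | h
    · exact absurd h (by decide)
    · exact h
  rw [List.any_eq_true] at h11
  obtain ⟨t, ht, hag⟩ := h11
  have hval : validB X nx.nd t = true := List.all_eq_true.mp l7 t ht
  have hchk : chkTest X.F nx.nd nx.rho t = true := List.all_eq_true.mp hh t ht
  have hagr : ∀ x y, InH X.H x → InH X.H y →
      ∃ u : ℤ, S2 X.A m' x y = S2 X.A (fun i => t.q.getD i 0) x y + 16 * u := by
    intro a b ha hb'
    refine agree_sound hX hag ?_ ha hb'
    intro i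
    rw [hri i]
    omega
  rcases t5_core hX hval hchk hst hblk hfbn hm' hc' hN hx hx2 hone hC' hagr hM' hb hrho with h | h
  · obtain ⟨c, hcm, hmc⟩ := h
    exact ⟨c, hcm, (match_del hm hx hx2).mp hmc⟩
  · obtain ⟨i, i', hii, hmm⟩ := h
    exfalso
    refine hfb i i' (h6 _ hii) ?_
    have h12 : del x (m' i) = del x (m' i') := by rw [hmm]
    have h13 : ∀ a : ℕ, Squarefree a → del x (del x a) = a := by
      intro a ha
      rw [← del_assoc hx2 hx2 ha, del_self (Nat.pos_of_ne_zero hx2.ne_zero), del_comm, del_one]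
    rw [h13 _ (hm i).2, h13 _ (hm i').2] at h12
    exact h12

end RH6
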