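import Pool.Agent.RH6.T5

namespace RH6

theorem t6_all5 {f : ℕ → Bool} : all5 f = true ↔ ∀ i : Fin 5, f i = true := by
  constructor
  · intro h i
    simp only [all5, Bool.and_eq_true] at h
    obtain ⟨⟨⟨⟨h0, h1⟩, h2⟩, h3⟩, h4⟩ := h
    fin_cases i
    · exact h0
    · exact h1
    · exact h2
    · exact h3
    · exact h4
  · intro h
    simp only [all5, Bool.and_eq_true]
    exact ⟨⟨⟨⟨h 0, h 1⟩, h 2⟩, h 3⟩, h 4⟩

theorem t6_sumN5 (f : ℕ → ℕ) : sumN5 f = ∑ i : Fin 5, f i := by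
  simp [sumN5, Fin.sum_univ_five]

theorem t6_eqSt : ∀ {s t : St}, eqSt s t = true → s = t
  | [], [], _ => rfl
  | [], _ :: _, h => by simp [eqSt] at h
  | _ :: _, [], h => by simp [eqSt] at h
  | a :: s, c :: t, h => by
    simp only [eqSt, eqP, Bool.and_eq_true, Nat.beq_eq] at h
    obtain ⟨⟨h1, h2⟩, h3⟩ := h
    rw [t6_eqSt h3, Prod.ext h1 h2]

theorem t6_nodes {X : FX} (hX : FXOK X) {R : List ℕ} (hR : ∀ i : Fin 5, R.getD i 0 % 2 = 1)
    {m : Fin 5 → ℕ} (hm : ∀ i, Odd (m i) ∧ Squarefree (m i))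
    (hc : Cls X.kd (Bm X.A m) (KH X.H)) {N₂ : ℕ} (hN : N₂ = 1 ∨ N₂ = 2)
    (hC : CF (hB (N₂ : ℚ) (Bm X.A m)) (hL (KH X.H)))
    (hres : ∀ i j : Fin 5, m i * m j % 8 = R.getD i 0 * R.getD j 0 % 8)
    (hfb : ∀ i j : Fin 5, ((i : ℕ), (j : ℕ)) ∈ X.F.fb → m i ≠ m j) (leaves : List St) :
    ∀ ns : List NX, ns.all (nodeLight X R) = true → ns.all (nodeHeavy X.F) = true →
      orderB leaves ns = true → (∃ n ∈ ns, Match n.nd.st m) → ∃ s ∈ leaves, Match s m
  | [], _, _, _, h => by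
    obtain ⟨n, hn, _⟩ := h
    exact absurd hn (List.not_mem_nil)
  | n :: ns, h1, h2, h3, h => by
    simp only [List.all_cons, Bool.and_eq_true] at h1 h2
    simp only [orderB, Bool.and_eq_true] at h3
    have ih := t6_nodes hX hR hm hc hN hC hres hfb leaves ns h1.2 h2.2 h3.2
    obtain ⟨n', hn', hM⟩ := h
    rcases List.mem_cons.1 hn' with rfl | hn'
    · obtain ⟨c, hc1, hc2⟩ := node_step hX hR h1.1 h2.1 hm hc hN hC hres hfb hM
      have h4 := List.all_eq_true.1 h3.1 c hc1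
      rw [Bool.or_eq_true] at h4
      rcases h4 with h4 | h4
      · exact ⟨c, memSt_iff.1 h4, hc2⟩
      · obtain ⟨n'', h5, h6⟩ := List.any_eq_true.1 h4
        exact ih ⟨n'', h5, by rw [← t6_eqSt h6]; exact hc2⟩
    · exact ih ⟨n', hn', hM⟩

theorem t6_bits : ∀ b : Fin 5 → Bool, (∑ i : Fin 5, if b i = true then 2 ^ (i : ℕ) else 0) < 32 ∧
    ∀ j : Fin 5, (bitv (∑ i : Fin 5, if b i = true then 2 ^ (i : ℕ) else 0)).getD j 0 =
      if b j = true then 1 else 0 := by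
  decide

theorem t6_Bm_symm (A m : Fin 5 → ℕ) (x y : V5) : Bm A m x y = Bm A m y x := by
  simp only [Bm, LinearMap.mk₂_apply]
  congr 1
  refine Finset.sum_congr rfl fun i _ => ?_
  ring

theorem t6_hB_symm {V : Type*} [AddCommGroup V] [Module ℚ V] {B : LinearMap.BilinForm ℚ V}
    (hs : ∀ x y, B x y = B y x) (N : ℚ) (x y : ℚ × ℚ × V) : hB N B x y = hB N B y x := by
  simp only [hB, LinearMap.mk₂_apply]
  rw [hs x.2.2 y.2.2]
  ring

theorem t6_cover {X : FX} {Ts : List Tree} {ps : List (List ℕ)} :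
    ∀ (l : List (ℕ × ℕ)) (n : ℕ), coverL X Ts ps l n = true → ∀ k < l.length,
      condB X (res5 (n + k)) = true → ∃ T ∈ Ts, ∃ p ∈ ps, ∀ i : Fin 5,
        (res5 (n + k)).getD (p.getD i 0) 0 * (res5 (n + k)).getD (p.getD 0 0) 0 % 8 =
          T.rho.getD i 0
  | [], _, _, k, hk, _ => by
    simp at hk
  | (a, b) :: l, n, h, k, hk, hc => by
    simp only [coverL, Bool.and_eq_true, Bool.or_eq_true] at h
    obtain ⟨h1, h2⟩ := h
    rcases k with _ | k
    · rw [add_zero] at hc ⊢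
      rcases h1 with h1 | ⟨⟨h3, h4⟩, h5⟩
      · rw [hc] at h1
        simp at h1
      · have h3' : a < Ts.length := by
          simpa [Nat.blt] using h3
        have h4' : b < ps.length := by
          simpa [Nat.blt] using h4
        refine ⟨Ts.getD a ⟨[], [], []⟩, ?_, ps.getD b [], ?_, fun i => ?_⟩
        · rw [List.getD_eq_getElem _ _ h3']
          exact List.getElem_mem _
        · rw [List.getD_eq_getElem _ _ h4']
          exact List.getElem_mem _
        · have h6 := t6_all5.1 h5 i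
          rw [Nat.beq_eq] at h6
          exact h6
    · have h6 := t6_cover l (n + 1) h2 k (by simpa using hk)
      have e : n + (k + 1) = n + 1 + k := by omega
      rw [e] at hc ⊢
      exact h6 hc


/-- Row [RH-T6]: soundness of a tree.

Proof.  The first node of `T.nodes` has the state `[(0,1),…,(4,1)]`, which matches every `m`.  By
`orderB` and induction on the list of nodes (from the end): if a node of the list matches `m`, then
(`node_step`) one of its children matches `m`; it is a leaf or a later node.  So some leaf `s`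
matches `m`; all its blocks are 0 and `r_0 = 1`, so `del (m 0) (m i) = del 1 (r_i) = r_i`,
`m i = del (m 0) (r_i)`. -/
theorem tree_sound {X : FX} (hX : FXOK X) {T : Tree} (hl : treeLight X T = true)
    (hh : T.nodes.all (nodeHeavy X.F) = true) {m : Fin 5 → ℕ}
    (hm : ∀ i, Odd (m i) ∧ Squarefree (m i)) (hc : Cls X.kd (Bm X.A m) (KH X.H)) {N₂ : ℕ}
    (hN : N₂ = 1 ∨ N₂ = 2) (hC : CF (hB (N₂ : ℚ) (Bm X.A m)) (hL (KH X.H)))
    (hres : ∀ i : Fin 5, m i * m 0 % 8 = T.rho.getD i 0)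
    (hfb : ∀ i j : Fin 5, ((i : ℕ), (j : ℕ)) ∈ X.F.fb → m i ≠ m j) :
    ∃ s ∈ T.leaves, ∀ i : Fin 5, m i = del (m 0) (gR s i) := by
  simp only [treeLight, Bool.and_eq_true] at hl
  obtain ⟨⟨⟨⟨⟨h1, h2⟩, h3⟩, h4⟩, h5⟩, h6⟩ := hl
  have hR : ∀ i : Fin 5, T.rho.getD i 0 % 2 = 1 := by
    intro i
    have := t6_all5.1 h2 i
    rw [Bool.and_eq_true, Nat.beq_eq] at this
    exact this.1
  have h0 : m 0 * m 0 % 8 = 1 := by
    obtain ⟨k, hk⟩ := (hm 0).1
    have h7 : m 0 % 8 = 1 ∨ m 0 % 8 = 3 ∨ m 0 % 8 = 5 ∨ m 0 % 8 = 7 := by omega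
    rw [Nat.mul_mod]
    rcases h7 with h7 | h7 | h7 | h7 <;> rw [h7]
  have hres2 : ∀ i j : Fin 5, m i * m j % 8 = T.rho.getD i 0 * T.rho.getD j 0 % 8 := by
    intro i j
    rw [← hres i, ← hres j, ← Nat.mul_mod]
    have e : m i * m 0 * (m j * m 0) = (m i * m j) * (m 0 * m 0) := by ring
    rw [e, Nat.mul_mod (m i * m j) (m 0 * m 0), h0, mul_one, Nat.mod_mod]
  have hfirst : ∃ n ∈ T.nodes, Match n.nd.st m := by
    rcases hT : T.nodes with _ | ⟨n, ns⟩
    · rw [hT] at h5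
      simp at h5
    · rw [hT] at h5
      refine ⟨n, List.mem_cons_self, ?_⟩
      rw [t6_eqSt h5]
      intro i j hij
      have e1 : ∀ i j : Fin 5, (([(0, 1), (1, 1), (2, 1), (3, 1), (4, 1)] : St).getD i (0, 0)).1 =
        (([(0, 1), (1, 1), (2, 1), (3, 1), (4, 1)] : St).getD j (0, 0)).1 → i = j := by decide
      have e2 : ∀ i : Fin 5, (([(0, 1), (1, 1), (2, 1), (3, 1), (4, 1)] : St).getD i (0, 0)).2 =
        1 := by decide
      obtain rfl := e1 i j hij
      rw [e2, del_self (hm i).1.pos, del_self one_pos]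
  obtain ⟨s, hs, hM⟩ := t6_nodes hX hR hm hc hN hC hres2 hfb T.leaves T.nodes h3 hh h4 hfirst
  have h7 := List.all_eq_true.1 h6 s hs
  rw [Bool.and_eq_true, Bool.and_eq_true, Nat.beq_eq] at h7
  obtain ⟨⟨-, h8⟩, h9⟩ := h7
  have h10 : ∀ i : Fin 5, gB s i = 0 := by
    intro i
    have := t6_all5.1 h8 i
    rw [Nat.beq_eq] at this
    exact this
  refine ⟨s, hs, fun i => ?_⟩
  have h11 : del (m 0) (m i) = del (gR s 0) (gR s i) := hM 0 i ((h10 0).trans (h10 i).symm)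
  rw [h9, del_comm 1, del_one] at h11
  rw [← h11, ← del_assoc (hm 0).2 (hm 0).2 (hm i).2, del_self (hm 0).1.pos, del_comm 1, del_one]

/-- Row [RH-T6]: permuting the coordinates; `p` as in `symB`.  `ψ y = fun i => y (σ i)` with
`σ i = p i` is an isometry of `(KH H, Bm A m)` onto `(KH H, Bm A (m ∘ σ))`. -/
theorem sym_iso {X : FX} (hX : FXOK X) {p : List ℕ} (hp : symB X.F p = true) :
    ∃ σ : Equiv.Perm (Fin 5), (∀ i : Fin 5, ((σ i : ℕ)) = p.getD i 0) ∧
      ∀ m : Fin 5 → ℕ, ∃ ψ : V5 ≃ₗ[ℚ] V5,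
        (∀ x y, Bm X.A (fun i => m (σ i)) (ψ x) (ψ y) = Bm X.A m x y) ∧
        ∀ x, x ∈ KH X.H ↔ ψ x ∈ KH X.H := by
  simp only [symB, Bool.and_eq_true] at hp
  obtain ⟨⟨-, h1⟩, h2⟩ := hp
  have h3 : ∀ i : Fin 5, p.getD i 0 < 5 := by
    intro i
    have := t6_all5.1 h1 i
    simp only [Bool.and_eq_true] at this
    simpa [Nat.blt] using this.1.1
  have h4 : ∀ i : Fin 5, X.F.As.getD (p.getD i 0) 0 = X.F.As.getD i 0 := by
    intro i
    have := t6_all5.1 h1 i
    simp only [Bool.and_eq_true, Nat.beq_eq] at this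
    exact this.1.2
  have h5 : ∀ i j : Fin 5, p.getD i 0 = p.getD j 0 → i = j := by
    intro i j hij
    have := t6_all5.1 h1 i
    simp only [Bool.and_eq_true] at this
    have h6 := t6_all5.1 this.2 j
    rw [Bool.or_eq_true, Nat.beq_eq] at h6
    rcases h6 with h6 | h6
    · exact Fin.ext h6
    · exfalso
      have h7 : Nat.beq (p.getD i 0) (p.getD j 0) = true := (Nat.beq_eq ▸ hij)
      rw [h7] at h6
      simp at h6
  have hinj : Function.Injective (fun i : Fin 5 => (⟨p.getD i 0, h3 i⟩ : Fin 5)) := by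
    intro i j hij
    exact h5 i j (congrArg (fun x : Fin 5 => (x : ℕ)) hij)
  let σ : Equiv.Perm (Fin 5) := Equiv.ofBijective _ (Finite.injective_iff_bijective.1 hinj)
  have hσ : ∀ i : Fin 5, ((σ i : ℕ)) = p.getD i 0 := fun i => rfl
  have hA : ∀ i, X.A (σ i) = X.A i := by
    intro i
    rw [← hX.As, ← hX.As, hσ, h4]
  refine ⟨σ, hσ, fun m => ⟨LinearEquiv.funCongrLeft ℚ ℚ σ, ?_, ?_⟩⟩
  · intro x y
    simp only [Bm, LinearMap.mk₂_apply]
    congr 1
    have e : ∀ i, (X.A i : ℚ) * (m (σ i) : ℕ) * (LinearEquiv.funCongrLeft ℚ ℚ σ x) i *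
        (LinearEquiv.funCongrLeft ℚ ℚ σ y) i =
        (fun i => (X.A i : ℚ) * (m i : ℕ) * x i * y i) (σ i) := by
      intro i
      simp only [hA]
      rfl
    rw [Finset.sum_congr rfl fun i _ => e i]
    exact Equiv.sum_comp σ (fun i => (X.A i : ℚ) * (m i : ℕ) * x i * y i)
  · have key : ∀ z : Fin 5 → ℤ, InH X.H z ↔ InH X.H (fun i => z (σ i)) := by
      intro z
      rw [hX.code, hX.code]
      have e1 : (∑ i : Fin 5, if z i % 2 = 1 then 2 ^ (i : ℕ) else 0) =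
          ∑ i : Fin 5, if (fun i => decide (z i % 2 = 1)) i = true then 2 ^ (i : ℕ) else 0 := by
        simp only [decide_eq_true_eq]
      obtain ⟨h6, h7⟩ := t6_bits (fun i => decide (z i % 2 = 1))
      rw [← e1] at h6 h7
      have h8 := List.all_eq_true.1 h2 _ (List.mem_range.2 h6)
      rw [beq_iff_eq] at h8
      have e2 : (sumN5 fun i => (bitv (∑ i : Fin 5, if z i % 2 = 1 then 2 ^ (i : ℕ) else 0)).getD
          (p.getD i 0) 0 * 2 ^ i) =
          ∑ i : Fin 5, if z (σ i) % 2 = 1 then 2 ^ (i : ℕ) else 0 := by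
        rw [t6_sumN5]
        refine Finset.sum_congr rfl fun i _ => ?_
        rw [← hσ i, h7 (σ i)]
        by_cases h9 : z (σ i) % 2 = 1 <;> simp [h9]
      rw [e2] at h8
      rw [h8]
    intro x
    rw [mem_KH, mem_KH]
    constructor
    · rintro ⟨z, rfl, hz⟩
      exact ⟨fun i => z (σ i), rfl, (key z).1 hz⟩
    · rintro ⟨z, hz, hz'⟩
      refine ⟨fun i => z (σ.symm i), ?_, ?_⟩
      · funext i
        have := congrFun hz (σ.symm i)
        have e3 : (LinearEquiv.funCongrLeft ℚ ℚ σ x) (σ.symm i) = x (σ (σ.symm i)) := rfl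
        rw [e3, Equiv.apply_symm_apply] at this
        exact this
      · rw [key]
        simpa using hz'

/-- Row [RH-T6]: an isometry of `K` gives one of `U(N) ⊥ K` -/
theorem qeq_hyp {V : Type*} [AddCommGroup V] [Module ℚ V] {V' : Type*} [AddCommGroup V']
    [Module ℚ V'] {B : LinearMap.BilinForm ℚ V} {K : AddSubgroup V}
    {B' : LinearMap.BilinForm ℚ V'} {K' : AddSubgroup V'} (ψ : V ≃ₗ[ℚ] V')
    (h1 : ∀ x y, B' (ψ x) (ψ y) = B x y) (h2 : ∀ x, x ∈ K ↔ ψ x ∈ K') (N : ℚ) :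
    QEq (hB N B) (hL K) (hB N B') (hL K') := by
  refine QEq_of_iso ((LinearEquiv.refl ℚ ℚ).prodCongr ((LinearEquiv.refl ℚ ℚ).prodCongr ψ))
    one_pos ?_ ?_
  · rintro ⟨a, b, x⟩ ⟨a', b', x'⟩
    simp only [hB, LinearMap.mk₂_apply, LinearEquiv.prodCongr_apply, LinearEquiv.refl_apply, h1,
      one_mul]
  · rintro ⟨a, b, x⟩
    constructor
    · rintro ⟨h3, h4, h5⟩
      exact ⟨h3, h4, (h2 x).1 h5⟩
    · rintro ⟨h3, h4, h5⟩
      exact ⟨h3, h4, (h2 x).2 h5⟩

/-- Row [RH-T6]: transport of the family conditions -/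
theorem cls_transport {V : Type*} [AddCommGroup V] [Module ℚ V] [FiniteDimensional ℚ V]
    {V' : Type*} [AddCommGroup V'] [Module ℚ V'] [FiniteDimensional ℚ V']
    {B : LinearMap.BilinForm ℚ V} {K : AddSubgroup V}
    {B' : LinearMap.BilinForm ℚ V'} {K' : AddSubgroup V'} (ψ : V ≃ₗ[ℚ] V')
    (h1 : ∀ x y, B' (ψ x) (ψ y) = B x y) (h2 : ∀ x, x ∈ K ↔ ψ x ∈ K') (kd : Kd) :
    (Cls kd B K → Cls kd B' K') ∧ (Big2 B K → Big2 B' K') := by
  obtain ⟨t1, t2, t3, t4, t5, -, -⟩ := transport ψ h1 h2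
  have hK5 : K5 B K → K5 B' K' := by
    intro h
    refine ⟨t1.1 h.lat, ?_, ?_, ?_⟩
    · intro x y
      have := h1 (ψ.symm x) (ψ.symm y)
      have h' := h1 (ψ.symm y) (ψ.symm x)
      rw [LinearEquiv.apply_symm_apply, LinearEquiv.apply_symm_apply] at this h'
      rw [this, h', h.symm]
    · intro x hx
      have := h1 (ψ.symm x) (ψ.symm x)
      rw [LinearEquiv.apply_symm_apply] at this
      rw [this]
      exact h.pos _ (fun h0 => hx (by rw [← ψ.apply_symm_apply x, h0, map_zero]))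
    · rw [← ψ.finrank_eq]
      exact h.dim
  refine ⟨?_, ?_⟩
  · cases kd with
    | k0 =>
      intro h
      exact { toK5 := hK5 h.toK5, even := t3.1 h.even, elem := fun p hp => (t4 p).1 (h.elem p hp),
              idx := by rw [← t5 2]; exact h.idx }
    | k2 =>
      intro h
      refine { toK5 := hK5 h.toK5, even := t3.1 h.even, elem := fun p hp => (t4 p).1 (h.elem p hp),
               idx := by rw [← t5 2]; exact h.idx, star := ?_ }
      rintro k ⟨hk1, hk2⟩ ⟨z, hz⟩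
      have h3 : ψ.symm k ∈ Rad B K 2 := by
        refine ⟨(h2 _).2 (by rw [LinearEquiv.apply_symm_apply]; exact hk1), fun y hy => ?_⟩
        obtain ⟨w, hw⟩ := hk2 (ψ y) ((h2 y).1 hy)
        refine ⟨w, ?_⟩
        rw [← h1, LinearEquiv.apply_symm_apply]
        exact hw
      obtain ⟨y, hy, hy'⟩ := h.star _ h3 ⟨z, by rw [← h1, LinearEquiv.apply_symm_apply]; exact hz⟩
      refine ⟨ψ y, (h2 y).1 hy, ?_⟩
      rw [← map_zsmul, ← hy', LinearEquiv.apply_symm_apply]
    | kQ =>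
      intro h
      exact { toK5 := hK5 h.toK5, int := t2.1 h.int,
              elem := fun p hp hp2 => (t4 p).1 (h.elem p hp hp2),
              idx := by rw [← t5 2]; exact h.idx }
  · intro h p hp hp2
    rw [← t5 p]
    exact h p hp hp2

/-- Row [RH-T6]: the pattern theorem of a family: all `m` come from the leaves.

Proof.  Let `n` be the number with `res5 n = (m i % 8)_i`; `condB X (res5 n)` is the hypothesis
`hcond`; by `coverB` there are a tree `T` and `p ∈ ps` with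
`m (p i) m (p 0) ≡ T.rho i mod 8`.  `sym_iso`, `cls_transport`, `qeq_hyp`, `CF_of_QEq`, and
`tree_sound` for `m ∘ σ`.  (`hfbs`: the forbidden pairs are stable under the permutations.) -/
theorem family_sound {X : FX} (hX : FXOK X) {Ts : List Tree} {ps : List (List ℕ)}
    {cert : List (ℕ × ℕ)} (hl : Ts.all (treeLight X) = true)
    (hh : ∀ T ∈ Ts, T.nodes.all (nodeHeavy X.F) = true) (hcov : coverB X Ts ps cert = true)
    {m : Fin 5 → ℕ} (hm : ∀ i, Odd (m i) ∧ Squarefree (m i))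
    (hc : Cls X.kd (Bm X.A m) (KH X.H)) {N₂ : ℕ} (hN : N₂ = 1 ∨ N₂ = 2)
    (hC : CF (hB (N₂ : ℚ) (Bm X.A m)) (hL (KH X.H)))
    (hcond : condB X ((List.finRange 5).map fun i => m i % 8) = true)
    (hfbs : ∀ p ∈ ps, ∀ i j : Fin 5, ((i : ℕ), (j : ℕ)) ∈ X.F.fb →
      ∀ a b : Fin 5, (a : ℕ) = p.getD i 0 → (b : ℕ) = p.getD j 0 → m a ≠ m b) :
    ∃ (σ : Equiv.Perm (Fin 5)) (s : St), (∃ T ∈ Ts, s ∈ T.leaves) ∧
      (∀ i : Fin 5, m (σ i) = del (m (σ 0)) (gR s i)) ∧
      QEq (hB (N₂ : ℚ) (Bm X.A m)) (hL (KH X.H))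
        (hB (N₂ : ℚ) (Bm X.A (fun i => del (m (σ 0)) (gR s i)))) (hL (KH X.H)) := by
  simp only [coverB, Bool.and_eq_true, Nat.beq_eq] at hcov
  obtain ⟨⟨hps, hlen⟩, hcovL⟩ := hcov
  have hodd : ∀ i, m i % 8 = 2 * (m i % 8 / 2) + 1 ∧ m i % 8 / 2 < 4 := by
    intro i
    obtain ⟨k, hk⟩ := (hm i).1
    omega
  obtain ⟨n, hn⟩ : ∃ n, n = m 0 % 8 / 2 + 4 * (m 1 % 8 / 2) + 16 * (m 2 % 8 / 2) +
    64 * (m 3 % 8 / 2) + 256 * (m 4 % 8 / 2) := ⟨_, rfl⟩
  have hres : res5 n = (List.finRange 5).map fun i => m i % 8 := by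
    have e : ((List.finRange 5).map fun i => m i % 8) =
        [m 0 % 8, m 1 % 8, m 2 % 8, m 3 % 8, m 4 % 8] := rfl
    obtain ⟨a0, b0⟩ := hodd 0
    obtain ⟨a1, b1⟩ := hodd 1
    obtain ⟨a2, b2⟩ := hodd 2
    obtain ⟨a3, b3⟩ := hodd 3
    obtain ⟨a4, b4⟩ := hodd 4
    generalize hc0 : m 0 % 8 = c0 at *
    generalize hc1 : m 1 % 8 = c1 at *
    generalize hc2 : m 2 % 8 = c2 at *
    generalize hc3 : m 3 % 8 = c3 at *
    generalize hc4 : m 4 % 8 = c4 at *
    rw [e, res5]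
    have f0 : 2 * (n % 4) + 1 = c0 := by omega
    have f1 : 2 * (n / 4 % 4) + 1 = c1 := by omega
    have f2 : 2 * (n / 16 % 4) + 1 = c2 := by omega
    have f3 : 2 * (n / 64 % 4) + 1 = c3 := by omega
    have f4 : 2 * (n / 256 % 4) + 1 = c4 := by omega
    rw [f0, f1, f2, f3, f4]
  have hnlt : n < cert.length := by
    rw [hlen, hn]
    have b0 := (hodd 0).2
    have b1 := (hodd 1).2
    have b2 := (hodd 2).2
    have b3 := (hodd 3).2
    have b4 := (hodd 4).2
    omega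
  obtain ⟨T, hT, p, hp, hTp⟩ := t6_cover cert 0 hcovL n hnlt (by rw [zero_add, hres]; exact hcond)
  rw [zero_add, hres] at hTp
  obtain ⟨σ, hσ, hψ⟩ := sym_iso hX (List.all_eq_true.1 hps p hp)
  obtain ⟨ψ, hψ1, hψ2⟩ := hψ m
  have hget : ∀ i : Fin 5, ((List.finRange 5).map fun i => m i % 8).getD i 0 = m i % 8 := by
    intro i
    have e : ((List.finRange 5).map fun i => m i % 8) =
        [m 0 % 8, m 1 % 8, m 2 % 8, m 3 % 8, m 4 % 8] := rfl
    rw [e]
    fin_cases i <;> rfl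
  have hQ := qeq_hyp ψ hψ1 hψ2 (N₂ : ℚ)
  have hC' := CF_of_QEq (t6_hB_symm (t6_Bm_symm X.A m) (N₂ : ℚ)) hQ hC
  obtain ⟨s, hs, hsm⟩ := tree_sound hX (List.all_eq_true.1 hl T hT) (hh T hT)
    (m := fun i => m (σ i)) (fun i => hm (σ i)) ((cls_transport ψ hψ1 hψ2 X.kd).1 hc) hN hC'
    (by
      intro i
      have h1 := hTp i
      rw [← hσ i] at h1
      have h2 : p.getD 0 0 = ((σ 0 : Fin 5) : ℕ) := (hσ 0).symm
      rw [h2, hget, hget, ← Nat.mul_mod] at h1
      exact h1)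
    (fun i j hij => hfbs p hp i j hij (σ i) (σ j) (hσ i) (hσ j))
  refine ⟨σ, s, ⟨T, hT, hs⟩, hsm, ?_⟩
  have e : (fun i : Fin 5 => m (σ i)) = fun i : Fin 5 => del (m (σ 0)) (gR s i) := funext hsm
  rw [← e]
  exact hQ

/-- Row [RH-T6]: the residue conditions hold.

Proof.  Let `r = (m i % 8)_i`.  Even families: `w ∈ X.evw` is in `KH H` (`FXOK.evw`) and
`(w,w) = ½ S2(w,w)` is even, so `4 ∣ S2(w,w)`.  `star` (only for `kd = k2`): for `k ∈ X.star`,
`k ∈ KH H`, `2k' ≠ k`, the hypotheses say `k ∈ Rad`, `k ∉ 2 KH H`; so `(k,k) = ½ ∑ A_i m_i k_i²` is not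
divisible by 8, and modulo 16 `∑ A_i m_i k_i²` only depends on `m_i mod 8` because `A_i k_i²` is
even. -/
theorem cond_sound {X : FX} (hX : FXOK X) {m : Fin 5 → ℕ}
    (hm : ∀ i, Odd (m i) ∧ Squarefree (m i)) (hc : Cls X.kd (Bm X.A m) (KH X.H))
    (hst : ∀ k ∈ X.star, X.kd = Kd.k2 ∧ (∀ i : Fin 5, 2 ∣ X.A i * k.getD i 0 ^ 2) ∧
      toQ (fun i => ((k.getD i 0 : ℕ) : ℤ)) ∈ Rad (Bm X.A m) (KH X.H) 2 ∧
      toQ (fun i => ((k.getD i 0 : ℕ) : ℤ)) ∉ mulL 2 (KH X.H))
    (hcg : X.congr = true → ∀ i, m i % 4 = m 4 % 4) :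
    condB X ((List.finRange 5).map fun i => m i % 8) = true := by
  have hget : ∀ i : Fin 5, ((List.finRange 5).map fun i => m i % 8).getD i 0 = m i % 8 := by
    intro i
    have e : ((List.finRange 5).map fun i => m i % 8) =
        [m 0 % 8, m 1 % 8, m 2 % 8, m 3 % 8, m 4 % 8] := rfl
    rw [e]
    fin_cases i <;> rfl
  have hs2 : ∀ w : List ℕ, s2N X.F.As ((List.finRange 5).map fun i => m i % 8) w w =
      ∑ i : Fin 5, X.A i * (m i % 8) * w.getD i 0 * w.getD i 0 := by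
    intro w
    rw [s2N, t6_sumN5]
    refine Finset.sum_congr rfl fun i _ => ?_
    rw [hget, hX.As]
  have hS2 : ∀ w : List ℕ, S2 X.A m (fun i => ((w.getD i 0 : ℕ) : ℤ))
      (fun i => ((w.getD i 0 : ℕ) : ℤ)) =
      ((∑ i : Fin 5, X.A i * m i * w.getD i 0 * w.getD i 0 : ℕ) : ℤ) := by
    intro w
    rw [S2]
    push_cast
    rfl
  rw [condB, Bool.and_eq_true, Bool.and_eq_true]
  refine ⟨⟨?_, ?_⟩, ?_⟩
  · by_cases he : X.F.even = true
    · rw [he]
      simp only [Bool.not_true, Bool.false_or, List.all_eq_true, Nat.beq_eq]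
      intro w hw
      have hkd := hX.even.1 he
      have hev : EvenL (Bm X.A m) (KH X.H) := by
        revert hc hkd
        cases X.kd with
        | k0 => intro hc _; exact hc.even
        | k2 => intro hc _; exact hc.even
        | kQ => intro _ h; exact absurd rfl h
      obtain ⟨z, hz⟩ := hev.2 (toQ fun i => ((w.getD i 0 : ℕ) : ℤ)) (mem_KH.2 ⟨_, rfl, hX.evw w hw⟩)
      rw [Bm_toQ, hS2] at hz
      have h1 : ((∑ i : Fin 5, X.A i * m i * w.getD i 0 * w.getD i 0 : ℕ) : ℤ) = 4 * z := by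
        have : (((∑ i : Fin 5, X.A i * m i * w.getD i 0 * w.getD i 0 : ℕ) : ℤ) : ℚ) = 4 * z := by
          linarith
        exact_mod_cast this
      have h2 : 4 ∣ ∑ i : Fin 5, X.A i * m i * w.getD i 0 * w.getD i 0 := by
        have : (4 : ℤ) ∣ ((∑ i : Fin 5, X.A i * m i * w.getD i 0 * w.getD i 0 : ℕ) : ℤ) :=
          ⟨z, h1⟩
        exact_mod_cast this
      rw [hs2]
      have h3 : (∑ i : Fin 5, X.A i * (m i % 8) * w.getD i 0 * w.getD i 0) ≡
          (∑ i : Fin 5, X.A i * m i * w.getD i 0 * w.getD i 0) [MOD 4] := by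
        refine Nat.ModEq.sum fun i _ => ?_
        refine Nat.ModEq.mul_right _ (Nat.ModEq.mul_right _ (Nat.ModEq.mul_left _ ?_))
        exact (Nat.mod_modEq (m i) 8).of_dvd (by norm_num)
      exact h3.trans (Nat.modEq_zero_iff_dvd.2 h2)
    · have he' : X.F.even = false := by simpa using he
      rw [he']
      simp
  · simp only [List.all_eq_true, Bool.not_eq_true']
    intro k hk
    obtain ⟨h1, h2, h3, h4⟩ := hst k hk
    rw [h1] at hc
    by_contra hcon
    have hcon' : s2N X.F.As ((List.finRange 5).map fun i => m i % 8) k k % 16 = 0 := by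
      rw [Bool.not_eq_false, Nat.beq_eq] at hcon
      exact hcon
    rw [hs2] at hcon'
    have h5 : (∑ i : Fin 5, X.A i * (m i % 8) * k.getD i 0 * k.getD i 0) ≡
        (∑ i : Fin 5, X.A i * m i * k.getD i 0 * k.getD i 0) [MOD 16] := by
      refine Nat.ModEq.sum fun i _ => ?_
      obtain ⟨c, hc'⟩ := h2 i
      have e1 : X.A i * (m i % 8) * k.getD i 0 * k.getD i 0 = (2 * (m i % 8)) * c := by
        calc _ = (m i % 8) * (X.A i * k.getD i 0 ^ 2) := by ring
          _ = _ := by rw [hc']; ring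
      have e2 : X.A i * m i * k.getD i 0 * k.getD i 0 = (2 * m i) * c := by
        calc _ = m i * (X.A i * k.getD i 0 ^ 2) := by ring
          _ = _ := by rw [hc']; ring
      rw [e1, e2]
      refine Nat.ModEq.mul_right _ ?_
      exact Nat.ModEq.mul_left' 2 (Nat.mod_modEq (m i) 8)
    have h6 : 16 ∣ ∑ i : Fin 5, X.A i * m i * k.getD i 0 * k.getD i 0 :=
      Nat.modEq_zero_iff_dvd.1 (h5.symm.trans hcon')
    obtain ⟨z, hz⟩ := h6
    apply h4
    refine hc.star _ h3 ⟨z, ?_⟩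
    rw [Bm_toQ, hS2, hz]
    push_cast
    ring
  · by_cases he : X.congr = true
    · rw [he]
      simp only [Bool.not_true, Bool.false_or]
      rw [t6_all5]
      intro i
      rw [Nat.beq_eq, hget i]
      have h4 := hget 4
      have e4 : ((4 : Fin 5) : ℕ) = 4 := rfl
      rw [e4] at h4
      rw [h4]
      have := hcg he i
      omega
    · have he' : X.congr = false := by simpa using he
      rw [he']
      simp

end RH6
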