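import Pool.Agent.RH6.T6
import Pool.Agent.RH6.DQ1
import Pool.Agent.RH6.DQ5
import Pool.Agent.RH6.DQ8
import Pool.Agent.RH6.DP4
import Pool.Agent.RH6.DP2
import Pool.Agent.RH6.DP3
import Pool.Agent.RH6.DP6
import Pool.Agent.RH6.DP7

namespace RH6

/-- the divisors of `1365 = 3·5·7·13` -/
def div1365 : List Nat := [1, 3, 5, 7, 13, 15, 21, 35, 39, 65, 91, 105, 195, 273, 455, 1365]

/-- at most three of the numbers `del x (r i)` are divisible by `p`, for `p = 3,5,7,13` -/
def bigB (s : St) (x : Nat) : Bool :=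
  [3, 5, 7, 13].all fun p => Nat.ble
    (sumN5 fun i => bif Nat.beq (del x (gR s i) % p) 0 then 1 else 0) 3

/-- the list of all `(r, x)` which remain -/
def candB (Ts : List Tree) (cands : List (List Nat × Nat)) : Bool :=
  Ts.all fun T => T.leaves.all fun s => all5 (fun i => Nat.beq (1365 % gR s i) 0) &&
    div1365.all fun x => !bigB s x || cands.any fun c => Nat.beq c.2 x &&
      all5 fun i => Nat.beq (c.1.getD i 0) (gR s i)

/-- integrality depends only on the parities of the parameters -/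
theorem t7_integ {A m m' : Fin 5 → ℕ} {H : List (Fin 5 → ℕ)} (hm : ∀ i, Odd (m i))
    (hm' : ∀ i, Odd (m' i)) (h : Integ (Bm A m) (KH H)) : Integ (Bm A m') (KH H) := by
  intro x hx y hy
  obtain ⟨z, hz⟩ := h x hx y hy
  obtain ⟨x', rfl, -⟩ := mem_KH.1 hx
  obtain ⟨y', rfl, -⟩ := mem_KH.1 hy
  rw [Bm_toQ] at hz ⊢
  have h1 : S2 A m x' y' = 2 * z := by
    have h2 : ((S2 A m x' y' : ℤ) : ℚ) = ((2 * z : ℤ) : ℚ) := by
      push_cast
      linarith
    exact_mod_cast h2
  have h2 : ∀ i, ∃ t : ℤ, ((m' i : ℕ) : ℤ) = m i + 2 * t := by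
    intro i
    obtain ⟨a, ha⟩ := hm i
    obtain ⟨b, hb⟩ := hm' i
    exact ⟨(b : ℤ) - a, by rw [ha, hb]; push_cast; ring⟩
  choose t ht using h2
  refine ⟨z + ∑ i, (A i : ℤ) * t i * x' i * y' i, ?_⟩
  have h3 : S2 A m' x' y' = 2 * (z + ∑ i, (A i : ℤ) * t i * x' i * y' i) := by
    rw [mul_add, ← h1]
    unfold S2
    rw [Finset.mul_sum, ← Finset.sum_add_distrib]
    refine Finset.sum_congr rfl fun i _ => ?_
    rw [ht i]
    ring
  rw [h3]
  push_cast
  ring

theorem t7_cls_integ {kd : Kd} {B : LinearMap.BilinForm ℚ V5} {K : AddSubgroup V5}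
    (h : Cls kd B K) : Integ B K := by
  cases kd with
  | k0 => exact (show F0 B K from h).even.1
  | k2 => exact (show F2 B K from h).even.1
  | kQ => exact (show FQ B K from h).int

theorem t7_all5 {f : ℕ → Bool} (h : all5 f = true) (i : Fin 5) : f i = true := by
  unfold all5 at h
  simp only [Bool.and_eq_true] at h
  obtain ⟨⟨⟨⟨h0, h1⟩, h2⟩, h3⟩, h4⟩ := h
  fin_cases i
  · exact h0
  · exact h1
  · exact h2
  · exact h3
  · exact h4

theorem t7_mem1365 : ∀ x ∈ Nat.divisors 1365, x ∈ div1365 := by decide +kernel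

theorem t7_sqf1365 : Squarefree 1365 := by
  have h : (1365 : ℕ) = 3 * (5 * (7 * 13)) := by norm_num
  have h3 : Nat.Prime 3 := by norm_num
  have h5 : Nat.Prime 5 := by norm_num
  have h7 : Nat.Prime 7 := by norm_num
  have h13 : Nat.Prime 13 := by norm_num
  rw [h, Nat.squarefree_mul_iff, Nat.squarefree_mul_iff, Nat.squarefree_mul_iff]
  exact ⟨by norm_num, h3.squarefree, by norm_num, h5.squarefree, by norm_num, h7.squarefree,
    h13.squarefree⟩

theorem t7_dvd_del {p x r : ℕ} (hp : p.Prime) (hx : p ∣ x) (hr : ¬ p ∣ r) : p ∣ del x r := by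
  have h1 : del x r = x / Nat.gcd x r * (r / Nat.gcd x r) := rfl
  rw [h1]
  refine Dvd.dvd.mul_right ?_ _
  have h2 : x = Nat.gcd x r * (x / Nat.gcd x r) := (Nat.mul_div_cancel' (Nat.gcd_dvd_left x r)).symm
  have h3 : p ∣ Nat.gcd x r * (x / Nat.gcd x r) := by rw [← h2]; exact hx
  rcases hp.dvd_mul.1 h3 with h4 | h4
  · exact absurd (h4.trans (Nat.gcd_dvd_right x r)) hr
  · exact h4

theorem t7_dvd1365 {x : ℕ} (hx : Squarefree x) (h : ∀ p : ℕ, p.Prime → p ∣ x → p ∣ 1365) :
    x ∣ 1365 := by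
  rw [← Nat.prod_primeFactors_of_squarefree hx]
  refine Finset.prod_primes_dvd _ (fun p hp => ?_) fun p hp => ?_
  · exact (Nat.prime_of_mem_primeFactors hp).prime
  · exact h p (Nat.prime_of_mem_primeFactors hp) (Nat.dvd_of_mem_primeFactors hp)

/-- Row [RH-T7]: the final form of the result for one family.

Proof.  `family_sound` gives a leaf `s` and `σ` with `m (σ i) = del x (gR s i)`, `x = m (σ 0)` odd and
squarefree.  Every prime `p ∣ x` divides some `gR s i`: otherwise `p ∣ del x (gR s i)` for all `i`,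
contradiction to `MOK.big`.  So `p ∣ 1365` and `x ∈ div1365`; `bigB s x` by `MOK.big`.  So `(r,x)` is
in `cands`.  `tf` (with `m i` replaced by `del x (r i)`, `N = N₂`): as `del x (del x (r i)) = r i`,
`QEq (hB N₂ (Bm A (del x r))) … (hB (N₂ x) (Bm A r)) …`. -/
theorem family_leaf {X : FX} (hX : FXOK X) {Ts : List Tree} {ps : List (List ℕ)}
    {cert : List (ℕ × ℕ)} (hl : Ts.all (treeLight X) = true)
    (hh : ∀ T ∈ Ts, T.nodes.all (nodeHeavy X.F) = true) (hcov : coverB X Ts ps cert = true)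
    {cands : List (List Nat × Nat)} (hcand : candB Ts cands = true)
    {m : Fin 5 → ℕ} (hm : MOK m)
    (hc : Cls X.kd (Bm X.A m) (KH X.H)) {N₂ : ℕ} (hN : N₂ = 1 ∨ N₂ = 2)
    (hC : CF (hB (N₂ : ℚ) (Bm X.A m)) (hL (KH X.H)))
    (hcond : condB X ((List.finRange 5).map fun i => m i % 8) = true)
    (hfbs : ∀ p ∈ ps, ∀ i j : Fin 5, ((i : ℕ), (j : ℕ)) ∈ X.F.fb →
      ∀ a b : Fin 5, (a : ℕ) = p.getD i 0 → (b : ℕ) = p.getD j 0 → m a ≠ m b) :
    ∃ c ∈ cands, QEq (hB (N₂ : ℚ) (Bm X.A m)) (hL (KH X.H))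
        (hB ((N₂ * c.2 : ℕ) : ℚ) (Bm X.A (fun i => c.1.getD i 0))) (hL (KH X.H)) := by
  have hm0 : ∀ i, Odd (m i) ∧ Squarefree (m i) := fun i => ⟨hm.odd i, hm.sq i⟩
  obtain ⟨σ, s, ⟨T, hT, hs⟩, hms, hQ⟩ := family_sound hX hl hh hcov hm0 hc hN hC hcond hfbs
  obtain ⟨x, hx⟩ : ∃ x, x = m (σ 0) := ⟨_, rfl⟩
  rw [← hx] at hms hQ
  have hxo : Odd x := by rw [hx]; exact hm.odd _
  have hxs : Squarefree x := by rw [hx]; exact hm.sq _
  have hxp : 0 < x := hxo.pos
  unfold candB at hcand
  rw [List.all_eq_true] at hcand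
  have h1 := hcand T hT
  rw [List.all_eq_true] at h1
  have h2 := h1 s hs
  rw [Bool.and_eq_true, List.all_eq_true] at h2
  obtain ⟨h3, h4⟩ := h2
  have hr : ∀ i : Fin 5, gR s i ∣ 1365 := by
    intro i
    have h5 := t7_all5 h3 i
    exact Nat.dvd_of_mod_eq_zero (Nat.eq_of_beq_eq_true h5)
  have hro : ∀ i : Fin 5, Squarefree (gR s i) := fun i => t7_sqf1365.squarefree_of_dvd (hr i)
  -- counting
  have hcnt : ∀ p : ℕ, p.Prime → (Finset.univ.filter (fun i : Fin 5 => p ∣ del x (gR s i))).card ≤ 3 := by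
    intro p hp
    have h5 := hm.big p hp
    have h6 : (Finset.univ.filter (fun i : Fin 5 => p ∣ del x (gR s i))).card =
        (Finset.univ.filter (fun i : Fin 5 => p ∣ m i)).card := by
      refine Finset.card_bij (fun i _ => σ i) (fun i hi => ?_) (fun i _ j _ h => σ.injective h)
        fun j hj => ?_
      · rw [Finset.mem_filter] at hi ⊢
        refine ⟨Finset.mem_univ _, ?_⟩
        rw [hms i]
        exact hi.2
      · refine ⟨σ.symm j, ?_, σ.apply_symm_apply j⟩
        rw [Finset.mem_filter] at hj ⊢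
        refine ⟨Finset.mem_univ _, ?_⟩
        rw [← hms, σ.apply_symm_apply]
        exact hj.2
    rw [h6]
    exact h5
  have hxd : x ∣ 1365 := by
    refine t7_dvd1365 hxs fun p hp hpx => ?_
    by_contra hcon
    have h5 : ∀ i : Fin 5, ¬ p ∣ gR s i := fun i hi => hcon (hi.trans (hr i))
    have h6 := hcnt p hp
    rw [Finset.filter_true_of_mem (fun i _ => t7_dvd_del hp hpx (h5 i)), Finset.card_univ,
      Fintype.card_fin] at h6
    omega
  have hbig : bigB s x = true := by
    unfold bigB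
    rw [List.all_eq_true]
    intro p hp
    have hpp : p.Prime := by
      simp only [List.mem_cons, List.not_mem_nil, or_false] at hp
      rcases hp with rfl | rfl | rfl | rfl <;> norm_num
    have h5 := hcnt p hpp
    rw [Finset.card_filter] at h5
    have h6 : sumN5 (fun i => bif Nat.beq (del x (gR s i) % p) 0 then 1 else 0) =
        ∑ i : Fin 5, if p ∣ del x (gR s i) then 1 else 0 := by
      have h7 : ∀ n : ℕ, (bif Nat.beq (n % p) 0 then 1 else 0 : ℕ) = if p ∣ n then 1 else 0 := by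
        intro n
        by_cases hn : n % p = 0
        · rw [if_pos (Nat.dvd_of_mod_eq_zero hn), hn]
          rfl
        · rw [if_neg (fun h => hn (Nat.mod_eq_zero_of_dvd h))]
          have h8 : Nat.beq (n % p) 0 = false := by
            rw [Bool.eq_false_iff]
            exact fun h => hn (Nat.eq_of_beq_eq_true h)
          rw [h8]
          rfl
      unfold sumN5
      simp only [h7]
      rw [Fin.sum_univ_five]
      rfl
    rw [h6]
    exact Nat.ble_eq_true_of_le h5
  have h5 := h4 x (t7_mem1365 x (Nat.mem_divisors.2 ⟨hxd, by norm_num⟩))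
  rw [hbig] at h5
  simp only [Bool.not_true, Bool.false_or, List.any_eq_true, Bool.and_eq_true] at h5
  obtain ⟨c, hcm, hc1, hc2⟩ := h5
  refine ⟨c, hcm, ?_⟩
  have hc3 : c.2 = x := Nat.eq_of_beq_eq_true hc1
  have hc4 : ∀ i : Fin 5, c.1.getD i 0 = gR s i := fun i => Nat.eq_of_beq_eq_true (t7_all5 hc2 i)
  have hm2 : ∀ i : Fin 5, Odd (del x (gR s i)) ∧ Squarefree (del x (gR s i)) := by
    intro i
    rw [← hms i]
    exact hm0 _
  have hI : Integ (Bm X.A (fun i : Fin 5 => del x (gR s i))) (KH X.H) :=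
    t7_integ (fun i => hm.odd i) (fun i => (hm2 i).1) (t7_cls_integ hc)
  have hcop : Nat.Coprime x N₂ := by
    rcases hN with rfl | rfl
    · exact Nat.coprime_one_right x
    · exact Nat.Coprime.symm (Nat.coprime_two_left.2 hxo)
  have hN0 : 0 < N₂ := by rcases hN with rfl | rfl <;> norm_num
  have h6 := tf hX.A hm2 hI hN0 hxo hxs hcop
  have h7 : (fun i : Fin 5 => del x (del x (gR s i))) = fun i : Fin 5 => c.1.getD i 0 := by
    funext i
    rw [← del_assoc hxs hxs (hro i), del_self hxp, del_comm, del_one, hc4]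
  rw [h7, ← hc3] at h6
  rw [← hc3] at hQ
  exact QEq_trans hQ h6

/-- the parities of a vector -/
theorem t7_even (H : List (Fin 5 → ℕ)) (x : Fin 5 → ℤ) : InH H x ↔
    ∀ h ∈ H, Even (∑ i, h i * (if decide (x i % 2 = 1) = true then 1 else 0)) := by
  unfold InH
  refine forall_congr' fun h => forall_congr' fun _ => ?_
  have h1 : ∀ i, ∃ t : ℤ, x i = (if decide (x i % 2 = 1) = true then 1 else 0) + 2 * t := by
    intro i
    by_cases hi : x i % 2 = 1
    · rw [if_pos (decide_eq_true hi)]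
      exact ⟨x i / 2, by omega⟩
    · rw [if_neg (by simpa using hi)]
      exact ⟨x i / 2, by omega⟩
  choose t ht using h1
  have h2 : ∑ i, (h i : ℤ) * x i =
      ((∑ i, h i * (if decide (x i % 2 = 1) = true then 1 else 0) : ℕ) : ℤ) + 2 * ∑ i, (h i : ℤ) * t i := by
    rw [Nat.cast_sum, Finset.mul_sum, ← Finset.sum_add_distrib]
    refine Finset.sum_congr rfl fun i _ => ?_
    conv_lhs => rw [ht i]
    push_cast
    ring
  rw [h2, Int.even_add]
  simp only [even_two, Even.mul_right, iff_true]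
  exact Int.even_coe_nat _

theorem t7_ok (X : FX) (h1 : ∀ i : Fin 5, X.F.As.getD i 0 = X.A i)
    (h2 : ∀ i, X.A i = 1 ∨ X.A i = 2 ∨ X.A i = 4)
    (h3 : ∀ e : Fin 5 → Bool, (∀ h ∈ X.H, Even (∑ i, h i * (if e i = true then 1 else 0))) ↔
      X.F.code.testBit (∑ i : Fin 5, if e i = true then 2 ^ (i : ℕ) else 0) = true)
    (h4 : X.F.even = true ↔ X.kd ≠ Kd.kQ) (h5 : X.F.s2 = true ↔ X.kd = Kd.k2)
    (h6 : ∀ p ∈ X.F.fb, p.1 < 5 ∧ p.2 < 5)
    (h7 : ∀ g ∈ X.grp, g.Nodup ∧ ∀ i ∈ g, i < 5)
    (h8 : ∀ i : Fin 5, X.A i = 1 → ∃ g ∈ X.grp, (i : ℕ) ∈ g)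
    (h9 : X.grp.Pairwise fun g g' => ∀ i ∈ g, i ∉ g')
    (h10 : ∀ g ∈ X.grp, ∀ e : Fin 5 → Bool,
      (∀ h ∈ X.H, Even (∑ i, h i * (if e i = true then 1 else 0))) →
      ∀ i j : Fin 5, (i : ℕ) ∈ g → (j : ℕ) ∈ g → e i = e j)
    (h11 : ∀ g ∈ X.grp, ∀ i : Fin 5, (i : ℕ) ∈ g → X.A i = 1)
    (h12 : ∀ w ∈ X.evw, ∀ h ∈ X.H, Even (∑ i : Fin 5, h i * w.getD i 0))
    (h13 : ∀ w ∈ X.gens, ∀ h ∈ X.H, Even (∑ i : Fin 5, h i * w.getD i 0)) : FXOK X where
  As := h1
  A := h2
  code := by
    intro x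
    rw [t7_even, h3 (fun i => decide (x i % 2 = 1))]
    simp only [decide_eq_true_eq]
  even := h4
  s2 := h5
  fb := h6
  grp1 := h7
  grp2 := h8
  grp3 := h9
  grp4 := by
    intro g hg x hx i j hi hj
    rw [t7_even] at hx
    have h := h10 g hg (fun i => decide (x i % 2 = 1)) hx i j hi hj
    simp only [decide_eq_decide] at h
    omega
  grp5 := h11
  evw := by
    intro w hw h hh
    have h' := h12 w hw h hh
    rw [← Int.even_coe_nat] at h'
    push_cast at h'
    exact h'
  gens := by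
    intro w hw h hh
    have h' := h13 w hw h hh
    rw [← Int.even_coe_nat] at h'
    push_cast at h'
    exact h'

/-! Row [RH-T7]: the data are consistent (all fields are finite checks; `code`: both sides depend
only on the parities of the `x i`). -/

theorem okQ1 : FXOK Q1.X :=
  t7_ok _ (by decide +kernel) (by decide +kernel) (by decide +kernel)
    ⟨fun h => (Bool.false_ne_true h).elim, fun h => absurd rfl h⟩
    ⟨fun h => (Bool.false_ne_true h).elim, fun h => by cases h⟩
    (by decide +kernel) (by decide +kernel) (by decide +kernel) (by decide +kernel)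
    (by decide +kernel) (by decide +kernel) (by decide +kernel) (by decide +kernel)
theorem okQ5 : FXOK Q5.X :=
  t7_ok _ (by decide +kernel) (by decide +kernel) (by decide +kernel)
    ⟨fun h => (Bool.false_ne_true h).elim, fun h => absurd rfl h⟩
    ⟨fun h => (Bool.false_ne_true h).elim, fun h => by cases h⟩
    (by decide +kernel) (by decide +kernel) (by decide +kernel) (by decide +kernel)
    (by decide +kernel) (by decide +kernel) (by decide +kernel) (by decide +kernel)
theorem okQ8 : FXOK Q8.X :=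
  t7_ok _ (by decide +kernel) (by decide +kernel) (by decide +kernel)
    ⟨fun h => (Bool.false_ne_true h).elim, fun h => absurd rfl h⟩
    ⟨fun h => (Bool.false_ne_true h).elim, fun h => by cases h⟩
    (by decide +kernel) (by decide +kernel) (by decide +kernel) (by decide +kernel)
    (by decide +kernel) (by decide +kernel) (by decide +kernel) (by decide +kernel)
theorem okP4 : FXOK P4.X :=
  t7_ok _ (by decide +kernel) (by decide +kernel) (by decide +kernel)
    ⟨fun _ h => (by cases h), fun _ => rfl⟩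
    ⟨fun h => (Bool.false_ne_true h).elim, fun h => by cases h⟩
    (by decide +kernel) (by decide +kernel) (by decide +kernel) (by decide +kernel)
    (by decide +kernel) (by decide +kernel) (by decide +kernel) (by decide +kernel)
theorem okP2 : FXOK P2.X :=
  t7_ok _ (by decide +kernel) (by decide +kernel) (by decide +kernel)
    ⟨fun _ h => (by cases h), fun _ => rfl⟩
    ⟨fun _ => rfl, fun _ => rfl⟩
    (by decide +kernel) (by decide +kernel) (by decide +kernel) (by decide +kernel)
    (by decide +kernel) (by decide +kernel) (by decide +kernel) (by decide +kernel)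
theorem okP3 : FXOK P3.X :=
  t7_ok _ (by decide +kernel) (by decide +kernel) (by decide +kernel)
    ⟨fun _ h => (by cases h), fun _ => rfl⟩
    ⟨fun _ => rfl, fun _ => rfl⟩
    (by decide +kernel) (by decide +kernel) (by decide +kernel) (by decide +kernel)
    (by decide +kernel) (by decide +kernel) (by decide +kernel) (by decide +kernel)
theorem okP6 : FXOK P6.X :=
  t7_ok _ (by decide +kernel) (by decide +kernel) (by decide +kernel)
    ⟨fun _ h => (by cases h), fun _ => rfl⟩
    ⟨fun _ => rfl, fun _ => rfl⟩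
    (by decide +kernel) (by decide +kernel) (by decide +kernel) (by decide +kernel)
    (by decide +kernel) (by decide +kernel) (by decide +kernel) (by decide +kernel)
theorem okP7 : FXOK P7.X :=
  t7_ok _ (by decide +kernel) (by decide +kernel) (by decide +kernel)
    ⟨fun _ h => (by cases h), fun _ => rfl⟩
    ⟨fun _ => rfl, fun _ => rfl⟩
    (by decide +kernel) (by decide +kernel) (by decide +kernel) (by decide +kernel)
    (by decide +kernel) (by decide +kernel) (by decide +kernel) (by decide +kernel)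

end RH6
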