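import Pool.Agent.RH6.T7

namespace RH6

/-! Row [RH-T8]: the residue conditions for the eight families (`cond_sound`): for the families
`F_2` check that the vectors in `X.star` are in `Rad` and not in `2 KH H`, for all odd `m` (products
with `y ∈ KH H`: `½ ∑ A_i m_i k_i y_i` is an even integer by the parity conditions on `y`), and the
conditions on the forbidden pairs. -/

theorem t8_rad {A m : Fin 5 → ℕ} {H : List (Fin 5 → ℕ)} {x : Fin 5 → ℤ} (h1 : InH H x)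
    (h2 : ∀ y : Fin 5 → ℤ, InH H y → ∃ z : ℤ, S2 A m x y = 4 * z) :
    toQ x ∈ Rad (Bm A m) (KH H) 2 := by
  refine ⟨mem_KH.2 ⟨x, rfl, h1⟩, ?_⟩
  intro y hy
  obtain ⟨z, rfl, hz⟩ := mem_KH.1 hy
  obtain ⟨t, ht⟩ := h2 z hz
  refine ⟨t, ?_⟩
  rw [Bm_toQ, ht]
  push_cast
  ring

theorem t8_not {H : List (Fin 5 → ℕ)} {x : Fin 5 → ℤ}
    (h : ∀ y : Fin 5 → ℤ, InH H y → (∀ i, x i = 2 * y i) → False) :
    toQ x ∉ mulL 2 (KH H) := by
  rintro ⟨y, hy, hxy⟩
  obtain ⟨z, rfl, hz⟩ := mem_KH.1 hy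
  refine h z hz fun i => ?_
  have := congrFun hxy i
  simp only [toQ, Pi.smul_apply, zsmul_eq_mul] at this
  exact_mod_cast this

theorem condQ1 {m : Fin 5 → ℕ} (hm : MOK m) (hc : FQ (Bm AQ1 m) (KH HQ1)) :
    condB Q1.X ((List.finRange 5).map fun i => m i % 8) = true := by
  refine cond_sound okQ1 (fun i => ⟨hm.odd i, hm.sq i⟩) hc ?_ ?_
  · intro k hk
    simp [Q1.X] at hk
  · intro h
    simp [Q1.X] at h

theorem condQ5 {m : Fin 5 → ℕ} (hm : MOK m) (hc : FQ (Bm AQ5 m) (KH HQ5)) (h : m 0 ≠ m 1) :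
    condB Q5.X ((List.finRange 5).map fun i => m i % 8) = true ∧
    ∀ p ∈ Q5.perms, ∀ i j : Fin 5, ((i : ℕ), (j : ℕ)) ∈ Q5.X.F.fb →
      ∀ a b : Fin 5, (a : ℕ) = p.getD i 0 → (b : ℕ) = p.getD j 0 → m a ≠ m b := by
  constructor
  · refine cond_sound okQ5 (fun i => ⟨hm.odd i, hm.sq i⟩) hc ?_ ?_
    · intro k hk
      simp [Q5.X] at hk
    · intro h
      simp [Q5.X] at h
  · have key : ∀ p ∈ Q5.perms, ∀ i j : Fin 5, ((i : ℕ), (j : ℕ)) ∈ Q5.X.F.fb →
        ∀ a b : Fin 5, (a : ℕ) = p.getD i 0 → (b : ℕ) = p.getD j 0 →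
          (a = 0 ∧ b = 1) ∨ (a = 1 ∧ b = 0) := by decide +kernel
    intro p hp i j hij a b ha hb
    rcases key p hp i j hij a b ha hb with ⟨rfl, rfl⟩ | ⟨rfl, rfl⟩
    · exact h
    · exact h.symm

theorem condQ8 {m : Fin 5 → ℕ} (hm : MOK m) (hc : FQ (Bm AQ8 m) (KH HQ8)) (h : m 0 ≠ m 1)
    (h' : m 2 ≠ m 3) :
    condB Q8.X ((List.finRange 5).map fun i => m i % 8) = true ∧
    ∀ p ∈ Q8.perms, ∀ i j : Fin 5, ((i : ℕ), (j : ℕ)) ∈ Q8.X.F.fb →
      ∀ a b : Fin 5, (a : ℕ) = p.getD i 0 → (b : ℕ) = p.getD j 0 → m a ≠ m b := by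
  constructor
  · refine cond_sound okQ8 (fun i => ⟨hm.odd i, hm.sq i⟩) hc ?_ ?_
    · intro k hk
      simp [Q8.X] at hk
    · intro h
      simp [Q8.X] at h
  · have key : ∀ p ∈ Q8.perms, ∀ i j : Fin 5, ((i : ℕ), (j : ℕ)) ∈ Q8.X.F.fb →
        ∀ a b : Fin 5, (a : ℕ) = p.getD i 0 → (b : ℕ) = p.getD j 0 →
          ((a = 0 ∧ b = 1) ∨ (a = 1 ∧ b = 0)) ∨ ((a = 2 ∧ b = 3) ∨ (a = 3 ∧ b = 2)) := by
      decide +kernel
    intro p hp i j hij a b ha hb
    rcases key p hp i j hij a b ha hb with (⟨rfl, rfl⟩ | ⟨rfl, rfl⟩) | (⟨rfl, rfl⟩ | ⟨rfl, rfl⟩)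
    · exact h
    · exact h.symm
    · exact h'
    · exact h'.symm

theorem condP4 {m : Fin 5 → ℕ} (hm : MOK m) (hc : F0 (Bm AP4 m) (KH HP4)) :
    condB P4.X ((List.finRange 5).map fun i => m i % 8) = true := by
  refine cond_sound okP4 (fun i => ⟨hm.odd i, hm.sq i⟩) hc ?_ ?_
  · intro k hk
    simp [P4.X] at hk
  · intro h
    simp [P4.X] at h

theorem condP2 {m : Fin 5 → ℕ} (hm : MOK m) (hc : F2 (Bm AP2 m) (KH HP2)) :
    condB P2.X ((List.finRange 5).map fun i => m i % 8) = true := by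
  refine cond_sound okP2 (fun i => ⟨hm.odd i, hm.sq i⟩) hc ?_ ?_
  · intro k hk
    have hk' : k = [0, 0, 1, 0, 1] ∨ k = [0, 0, 0, 1, 1] := by
      simpa [P2.X] using hk
    refine ⟨rfl, ?_, ?_, ?_⟩
    · rcases hk' with rfl | rfl <;> decide
    · refine t8_rad (H := HP2) ?_ ?_
      · intro g hg
        simp only [HP2, List.mem_singleton] at hg
        subst hg
        rcases hk' with rfl | rfl <;> decide
      · intro y _
        rcases hk' with rfl | rfl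
        · refine ⟨m 2 * y 2 + m 4 * y 4, ?_⟩
          simp [S2, Fin.sum_univ_five, P2.X, AP2]
          ring
        · refine ⟨m 3 * y 3 + m 4 * y 4, ?_⟩
          simp [S2, Fin.sum_univ_five, P2.X, AP2]
          ring
    · refine t8_not (H := HP2) ?_
      intro y _ hy
      have h4 := hy 4
      rcases hk' with rfl | rfl <;> · simp at h4; omega
  · intro h
    simp [P2.X] at h

theorem condP3 {m : Fin 5 → ℕ} (hm : MOK m) (hc : F2 (Bm AP3 m) (KH HP3))
    (h : ∀ i, m i % 4 = m 4 % 4) :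
    condB P3.X ((List.finRange 5).map fun i => m i % 8) = true := by
  refine cond_sound okP3 (fun i => ⟨hm.odd i, hm.sq i⟩) hc ?_ ?_
  · intro k hk
    have hk' : k = [0, 0, 2, 2, 0] ∨ k = [0, 2, 0, 2, 0] := by
      simpa [P3.X] using hk
    refine ⟨rfl, ?_, ?_, ?_⟩
    · rcases hk' with rfl | rfl <;> decide
    · refine t8_rad (H := HP3) ?_ ?_
      · intro g hg
        simp only [HP3, List.mem_cons, List.not_mem_nil, or_false] at hg
        rcases hg with rfl | rfl | rfl <;> rcases hk' with rfl | rfl <;> decide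
      · intro y hy
        obtain ⟨a, ha⟩ := hy _ (by simp [HP3] : (![0, 1, 1, 0, 0] : Fin 5 → ℕ) ∈ HP3)
        obtain ⟨b, hb⟩ := hy _ (by simp [HP3] : (![0, 0, 1, 1, 0] : Fin 5 → ℕ) ∈ HP3)
        simp [Fin.sum_univ_five] at ha hb
        obtain ⟨c1, hc1⟩ := hm.odd 1
        obtain ⟨c2, hc2⟩ := hm.odd 2
        obtain ⟨c3, hc3⟩ := hm.odd 3
        rcases hk' with rfl | rfl
        · refine ⟨c2 * y 2 + c3 * y 3 + b, ?_⟩
          simp [S2, Fin.sum_univ_five, P3.X, AP3, hc2, hc3]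
          linear_combination 2 * hb
        · refine ⟨c1 * y 1 + c3 * y 3 + a + b - y 2, ?_⟩
          simp [S2, Fin.sum_univ_five, P3.X, AP3, hc1, hc3]
          linear_combination 2 * hb + 2 * ha
    · refine t8_not (H := HP3) ?_
      intro y hy hxy
      obtain ⟨a, ha⟩ := hy _ (by simp [HP3] : (![0, 1, 1, 0, 0] : Fin 5 → ℕ) ∈ HP3)
      obtain ⟨b, hb⟩ := hy _ (by simp [HP3] : (![1, 1, 0, 0, 0] : Fin 5 → ℕ) ∈ HP3)
      simp [Fin.sum_univ_five] at ha hb
      have h0 := hxy 0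
      have h1 := hxy 1
      have h2 := hxy 2
      rcases hk' with rfl | rfl <;> · simp at h0 h1 h2; omega
  · intro _
    exact h

theorem condP6 {m : Fin 5 → ℕ} (hm : MOK m) (hc : F2 (Bm AP6 m) (KH HP6)) (h : m 0 ≠ m 1) :
    condB P6.X ((List.finRange 5).map fun i => m i % 8) = true ∧
    ∀ p ∈ P6.perms, ∀ i j : Fin 5, ((i : ℕ), (j : ℕ)) ∈ P6.X.F.fb →
      ∀ a b : Fin 5, (a : ℕ) = p.getD i 0 → (b : ℕ) = p.getD j 0 → m a ≠ m b := by
  constructor
  · refine cond_sound okP6 (fun i => ⟨hm.odd i, hm.sq i⟩) hc ?_ ?_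
    · intro k hk
      have hk' : k = [1, 1, 0, 2, 0] ∨ k = [1, 1, 0, 2, 1] := by
        simpa [P6.X] using hk
      refine ⟨rfl, ?_, ?_, ?_⟩
      · rcases hk' with rfl | rfl <;> decide
      · refine t8_rad (H := HP6) ?_ ?_
        · intro g hg
          simp only [HP6, List.mem_cons, List.not_mem_nil, or_false] at hg
          rcases hg with rfl | rfl <;> rcases hk' with rfl | rfl <;> decide
        · intro y hy
          obtain ⟨a, ha⟩ := hy _ (by simp [HP6] : (![0, 0, 1, 1, 0] : Fin 5 → ℕ) ∈ HP6)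
          obtain ⟨b, hb⟩ := hy _ (by simp [HP6] : (![1, 1, 1, 0, 0] : Fin 5 → ℕ) ∈ HP6)
          simp [Fin.sum_univ_five] at ha hb
          obtain ⟨c0, hc0⟩ := hm.odd 0
          obtain ⟨c1, hc1⟩ := hm.odd 1
          obtain ⟨c3, hc3⟩ := hm.odd 3
          rcases hk' with rfl | rfl
          · refine ⟨c0 * y 0 + c1 * y 1 + c3 * y 3 + a + b - y 2, ?_⟩
            simp [S2, Fin.sum_univ_five, P6.X, AP6, hc0, hc1, hc3]
            linear_combination 2 * hb + 2 * ha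
          · refine ⟨c0 * y 0 + c1 * y 1 + c3 * y 3 + a + b - y 2 + m 4 * y 4, ?_⟩
            simp [S2, Fin.sum_univ_five, P6.X, AP6, hc0, hc1, hc3]
            linear_combination 2 * hb + 2 * ha
      · refine t8_not (H := HP6) ?_
        intro y _ hy
        have h0 := hy 0
        rcases hk' with rfl | rfl <;> · simp at h0; omega
    · intro h
      simp [P6.X] at h
  · have key : ∀ p ∈ P6.perms, ∀ i j : Fin 5, ((i : ℕ), (j : ℕ)) ∈ P6.X.F.fb →
        ∀ a b : Fin 5, (a : ℕ) = p.getD i 0 → (b : ℕ) = p.getD j 0 →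
          (a = 0 ∧ b = 1) ∨ (a = 1 ∧ b = 0) := by decide +kernel
    intro p hp i j hij a b ha hb
    rcases key p hp i j hij a b ha hb with ⟨rfl, rfl⟩ | ⟨rfl, rfl⟩
    · exact h
    · exact h.symm

theorem condP7 {m : Fin 5 → ℕ} (hm : MOK m) (hc : F2 (Bm AP7 m) (KH HP7))
    (h : ∀ i j : Fin 5, i ≠ j → i ≠ 4 → j ≠ 4 → m i ≠ m j) :
    condB P7.X ((List.finRange 5).map fun i => m i % 8) = true ∧
    ∀ p ∈ P7.perms, ∀ i j : Fin 5, ((i : ℕ), (j : ℕ)) ∈ P7.X.F.fb →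
      ∀ a b : Fin 5, (a : ℕ) = p.getD i 0 → (b : ℕ) = p.getD j 0 → m a ≠ m b := by
  constructor
  · refine cond_sound okP7 (fun i => ⟨hm.odd i, hm.sq i⟩) hc ?_ ?_
    · intro k hk
      have hk' : k = [1, 1, 1, 1, 0] ∨ k = [1, 1, 1, 1, 1] := by
        simpa [P7.X] using hk
      refine ⟨rfl, ?_, ?_, ?_⟩
      · rcases hk' with rfl | rfl <;> decide
      · refine t8_rad (H := HP7) ?_ ?_
        · intro g hg
          simp only [HP7, List.mem_singleton] at hg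
          subst hg
          rcases hk' with rfl | rfl <;> decide
        · intro y hy
          obtain ⟨a, ha⟩ := hy _ (by simp [HP7] : (![1, 1, 1, 1, 0] : Fin 5 → ℕ) ∈ HP7)
          simp [Fin.sum_univ_five] at ha
          obtain ⟨c0, hc0⟩ := hm.odd 0
          obtain ⟨c1, hc1⟩ := hm.odd 1
          obtain ⟨c2, hc2⟩ := hm.odd 2
          obtain ⟨c3, hc3⟩ := hm.odd 3
          rcases hk' with rfl | rfl
          · refine ⟨c0 * y 0 + c1 * y 1 + c2 * y 2 + c3 * y 3 + a, ?_⟩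
            simp [S2, Fin.sum_univ_five, P7.X, AP7, hc0, hc1, hc2, hc3]
            linear_combination 2 * ha
          · refine ⟨c0 * y 0 + c1 * y 1 + c2 * y 2 + c3 * y 3 + a + m 4 * y 4, ?_⟩
            simp [S2, Fin.sum_univ_five, P7.X, AP7, hc0, hc1, hc2, hc3]
            linear_combination 2 * ha
      · refine t8_not (H := HP7) ?_
        intro y _ hy
        have h0 := hy 0
        rcases hk' with rfl | rfl <;> · simp at h0; omega
    · intro h
      simp [P7.X] at h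
  · have key : ∀ p ∈ P7.perms, ∀ i j : Fin 5, ((i : ℕ), (j : ℕ)) ∈ P7.X.F.fb →
        ∀ a b : Fin 5, (a : ℕ) = p.getD i 0 → (b : ℕ) = p.getD j 0 →
          a ≠ b ∧ a ≠ 4 ∧ b ≠ 4 := by decide +kernel
    intro p hp i j hij a b ha hb
    obtain ⟨h1, h2, h3⟩ := key p hp i j hij a b ha hb
    exact h a b h1 h2 h3

end RH6
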