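import Pool.Agent.RH6.Chk
import Pool.Agent.RH6.PDef

namespace RH6

/-- `2 (x,y)` for the form `Bm A m`, on integral vectors -/
def S2 (A m : Fin 5 → ℕ) (x y : Fin 5 → ℤ) : ℤ := ∑ i, (A i : ℤ) * m i * x i * y i

/-- integral vectors satisfying the parity checks -/
def InH (H : List (Fin 5 → ℕ)) (x : Fin 5 → ℤ) : Prop := ∀ h ∈ H, Even (∑ i, (h i : ℤ) * x i)

def toQ (x : Fin 5 → ℤ) : V5 := fun i => (x i : ℚ)

/-- the three families -/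
inductive Kd | k0 | k2 | kQ

def Cls {V : Type*} [AddCommGroup V] [Module ℚ V] (kd : Kd) (B : LinearMap.BilinForm ℚ V)
    (K : AddSubgroup V) : Prop :=
  match kd with
  | Kd.k0 => F0 B K
  | Kd.k2 => F2 B K
  | Kd.kQ => FQ B K

def sOK (kd : Kd) (s : ℕ) : Prop :=
  match kd with
  | Kd.k0 => s = 1
  | Kd.k2 => s = 1 ∨ s = 2
  | Kd.kQ => s = 0 ∨ s = 1

/-- what we know about `Z = l β`, `β` a root of the neighbour: see row T4 -/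
structure Sol (A : Fin 5 → ℕ) (H : List (Fin 5 → ℕ)) (m : Fin 5 → ℕ) (l : ℕ) (k : Fin 5 → ℤ)
    (v : ℤ) (Z X : Fin 5 → ℤ) (j s μ : ℕ) : Prop where
  hj : 2 * j ≤ l
  hZ : ∀ i, Z i = j * k i + l * X i
  hX : InH H X
  odd : Odd μ
  sq : Squarefree μ
  dvd : ∀ i, (μ : ℤ) ∣ m i * Z i
  nrm : ∑ i, (A i : ℤ) * m i * Z i ^ 2 = 2 * l ^ 2 * 2 ^ s * μ
  par2 : l = 2 → ∃ t : ℤ, S2 A m X k = 2 * (j * v) + 4 * t
  par4 : l = 4 → (j = 0 → ∃ t : ℤ, S2 A m X k = 8 * t) ∧ (j = 2 → ∃ t : ℤ, S2 A m X k = 4 * t)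
  tv : s = 2 → ∀ y, InH H y → (∃ t : ℤ, S2 A m y k = 2 * l * t) → ∃ t : ℤ, S2 A m Z y = 4 * l * t
  tv2 : s = 2 → l = 2 → ∀ x₀, InH H x₀ → (∃ t : ℤ, S2 A m x₀ k = 2 * v + 4 * t) →
    ∃ t : ℤ, S2 A m Z (fun i => k i + 2 * x₀ i) = 16 * t

/-- a state describes ratios of the `m i` -/
def Match (s : St) (m : Fin 5 → ℕ) : Prop :=
  ∀ i j : Fin 5, (s.getD i (0, 0)).1 = (s.getD j (0, 0)).1 →
    del (m i) (m j) = del (s.getD i (0, 0)).2 (s.getD j (0, 0)).2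

/-- all numbers in the state are odd and squarefree, the block numbers are `< 5`, and there are
five entries -/
def StOK (s : St) : Prop :=
  s.length = 5 ∧ ∀ p ∈ s, p.1 < 5 ∧ Odd p.2 ∧ Squarefree p.2

end RH6
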