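import Pool.Agent.RH6.TDef

namespace RH6

/-! The tree search: nodes, light checks. -/

/-- a node with its tests (one for each variant of the residues mod 16) -/
structure NX where
  nd : Nd
  rho : List Nat
  tests : List Ts

structure Tree where
  rho : List Nat
  nodes : List NX
  leaves : List St

/-- a family of patterns -/
structure FX where
  F : Fam
  A : Fin 5 → ℕ
  H : List (Fin 5 → ℕ)
  kd : Kd
  star : List (List Nat)
  congr : Bool
  /-- groups of coordinates with `A i = 1` which have the same parity -/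
  grp : List (List Nat)
  /-- some code words -/
  evw : List (List Nat)
  /-- some vectors of the lattice -/
  gens : List (List Nat)

def sqfB (n : Nat) : Bool :=
  Nat.beq n 1 || (Nat.blt n 3600 && Nat.blt 0 n &&
    (List.range 58).all fun d => !Nat.beq (Nat.mod n (Nat.mul (d + 2) (d + 2))) 0)

def stOKB (s : St) : Bool :=
  Nat.beq s.length 5 && s.all fun p => Nat.blt p.1 5 && Nat.beq (Nat.mod p.2 2) 1 && sqfB p.2

def gB (s : St) (i : Nat) : Nat := (s.getD i (0, 0)).1

def gR (s : St) (i : Nat) : Nat := (s.getD i (0, 0)).2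

def sumN5 (f : Nat → Nat) : Nat := f 0 + f 1 + f 2 + f 3 + f 4

def all5 (f : Nat → Bool) : Bool := f 0 && f 1 && f 2 && f 3 && f 4

def s2N (As q x y : List Nat) : Nat :=
  sumN5 fun i => As.getD i 0 * q.getD i 0 * x.getD i 0 * y.getD i 0

/-- parity word of a list -/
def wordN (x : List Nat) : Nat := sumN5 fun i => (x.getD i 0 % 2) * 2 ^ i

def inCode (F : Fam) (x : List Nat) : Bool := F.code.testBit (wordN x)

def bitv (w : Nat) : List Nat := [w % 2, w / 2 % 2, w / 4 % 2, w / 8 % 2, w / 16 % 2]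

def half (x : List Nat) : List Nat := x.map fun n => n / 2

def wOK (F : Fam) (t : Ts) (w : List Nat) : Bool :=
  bif Nat.beq t.l 2 then
    (all5 (fun i => Nat.beq (w.getD i 0 % 2) 0) && inCode F (half w) &&
      Nat.beq (s2N F.As t.q (half w) t.k % 4) 0) ||
    (all5 (fun i => Nat.ble (t.k.getD i 0) (w.getD i 0) &&
        Nat.beq ((w.getD i 0 - t.k.getD i 0) % 2) 0) &&
      (fun x => inCode F x && Nat.beq (s2N F.As t.q x t.k % 4) (2 * t.var))
        ((List.range 5).map fun i => (w.getD i 0 - t.k.getD i 0) / 2))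
  else inCode F w && Nat.beq (s2N F.As t.q w t.k % 8) 0

/-- validity of a test -/
def validB (X : FX) (nd : Nd) (t : Ts) : Bool :=
  (Nat.beq t.l 2 || Nat.beq t.l 4) && Nat.ble t.var 1 &&
  all5 (fun i => Nat.ble (t.k.getD i 0) 8) && inCode X.F t.k &&
  Nat.beq (s2N X.F.As t.q t.k t.k % (4 * t.l)) 0 &&
  X.gens.any (fun w => Nat.beq (s2N X.F.As t.q w t.k % 4) 2) &&
  (!(X.F.even && Nat.beq t.l 2) || Nat.beq (s2N X.F.As t.q t.k t.k % 16) (8 * t.var)) &&
  (!X.F.s2 || t.ws.all (wOK X.F t)) &&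
  all5 (fun i => Nat.beq (gB nd.st i) nd.blk || (Nat.beq (t.np.getD i 0) 0 &&
    Nat.beq (t.nn.getD i 0) 0)) &&
  !(all5 fun i => Nat.beq (t.np.getD i 0) (t.nn.getD i 0))

/-- residues mod 16 for which the test was made: `r ≡ q mod 8`, and in each group the sum of the
differences is divisible by 16 -/
def agreeB (X : FX) (r q : List Nat) : Bool :=
  all5 (fun i => Nat.ble (q.getD i 0) 16 && Nat.beq (r.getD i 0 % 8) (q.getD i 0 % 8)) &&
  X.grp.all fun g => Nat.beq ((g.map fun i => r.getD i 0 + 16 - q.getD i 0).sum % 16) 0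

/-- first index in the block -/
def fiB (nd : Nd) : Nat :=
  bif Nat.beq (gB nd.st 0) nd.blk then 0 else bif Nat.beq (gB nd.st 1) nd.blk then 1 else
  bif Nat.beq (gB nd.st 2) nd.blk then 2 else bif Nat.beq (gB nd.st 3) nd.blk then 3 else 4

def nodeLight (X : FX) (R : List Nat) (nx : NX) : Bool :=
  stOKB nx.nd.st && Nat.blt nx.nd.blk 5 &&
  Nat.beq (gB nx.nd.st (fiB nx.nd)) nx.nd.blk && Nat.beq (gR nx.nd.st (fiB nx.nd)) 1 &&
  all5 (fun i => Nat.beq (nx.rho.getD i 0) (R.getD i 0 * R.getD (fiB nx.nd) 0 % 8)) &&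
  nx.nd.fb.all (fun p => X.F.fb.any fun p' => Nat.beq p.1 p'.1 && Nat.beq p.2 p'.2) &&
  nx.tests.all (validB X nx.nd) &&
  (List.range 32).all (fun e =>
    (fun r : List Nat =>
      !(all5 fun i => !Nat.beq (gB nx.nd.st i) nx.nd.blk ||
        Nat.beq (r.getD i 0) (gR nx.nd.st i % 16)) ||
      nx.tests.any fun t => agreeB X r t.q)
    ((List.range 5).map fun i => nx.rho.getD i 0 + 8 * (bitv e).getD i 0))

/-- the costly part of the check of a node -/
def nodeHeavy (F : Fam) (nx : NX) : Bool := nx.tests.all (chkTest F nx.nd nx.rho)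

/-- every child is a leaf or a later node -/
def orderB (leaves : List St) : List NX → Bool
  | [] => true
  | n :: ns => (n.nd.ch.all fun c => memSt c leaves || ns.any fun n' => eqSt c n'.nd.st) &&
      orderB leaves ns

def treeLight (X : FX) (T : Tree) : Bool :=
  Nat.beq (T.rho.getD 0 0) 1 &&
  all5 (fun i => Nat.beq (T.rho.getD i 0 % 2) 1 && Nat.blt (T.rho.getD i 0) 8) &&
  T.nodes.all (nodeLight X T.rho) && orderB T.leaves T.nodes &&
  (match T.nodes with
    | [] => false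
    | n :: _ => eqSt n.nd.st [(0, 1), (1, 1), (2, 1), (3, 1), (4, 1)]) &&
  T.leaves.all fun s => stOKB s && all5 (fun i => Nat.beq (gB s i) 0) && Nat.beq (gR s 0) 1

/-- conditions on the residues mod 8 -/
def condB (X : FX) (r : List Nat) : Bool :=
  (!X.F.even || X.evw.all fun w => Nat.beq (s2N X.F.As r w w % 4) 0) &&
  X.star.all (fun k => !Nat.beq (s2N X.F.As r k k % 16) 0) &&
  (!X.congr || all5 fun i => Nat.beq (r.getD i 0 % 4) (r.getD 4 0 % 4))

/-- permutations of the coordinates preserving the pattern -/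
def symB (F : Fam) (p : List Nat) : Bool :=
  Nat.beq p.length 5 && all5 (fun i => Nat.blt (p.getD i 0) 5 &&
    Nat.beq (F.As.getD (p.getD i 0) 0) (F.As.getD i 0) &&
    all5 (fun j => Nat.beq i j || !Nat.beq (p.getD i 0) (p.getD j 0))) &&
  (List.range 32).all fun w => F.code.testBit w ==
    F.code.testBit (sumN5 fun i => (bitv w).getD (p.getD i 0) 0 * 2 ^ i)

def res5 (n : Nat) : List Nat :=
  [2 * (n % 4) + 1, 2 * (n / 4 % 4) + 1, 2 * (n / 16 % 4) + 1, 2 * (n / 64 % 4) + 1,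
    2 * (n / 256 % 4) + 1]

/-- entry `n` of the certificate names a tree and a permutation for the residues `res5 n` -/
def coverL (X : FX) (Ts : List Tree) (ps : List (List Nat)) : List (Nat × Nat) → Nat → Bool
  | [], _ => true
  | (a, b) :: l, n =>
    (!condB X (res5 n) || (Nat.blt a Ts.length && Nat.blt b ps.length &&
      (fun (R p r : List Nat) => all5 fun i =>
        Nat.beq (r.getD (p.getD i 0) 0 * r.getD (p.getD 0 0) 0 % 8) (R.getD i 0))
        (Ts.getD a ⟨[], [], []⟩).rho (ps.getD b []) (res5 n))) && coverL X Ts ps l (n + 1)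

/-- all residues are treated by one of the trees -/
def coverB (X : FX) (Ts : List Tree) (ps : List (List Nat)) (cert : List (Nat × Nat)) : Bool :=
  ps.all (symB X.F) && Nat.beq cert.length 1024 && coverL X Ts ps cert 0

/-- the data of the family are consistent -/
structure FXOK (X : FX) : Prop where
  As : ∀ i : Fin 5, X.F.As.getD i 0 = X.A i
  A : ∀ i, X.A i = 1 ∨ X.A i = 2 ∨ X.A i = 4
  code : ∀ x : Fin 5 → ℤ, InH X.H x ↔
    X.F.code.testBit (∑ i : Fin 5, if x i % 2 = 1 then 2 ^ (i : ℕ) else 0) = true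
  even : X.F.even = true ↔ X.kd ≠ Kd.kQ
  s2 : X.F.s2 = true ↔ X.kd = Kd.k2
  fb : ∀ p ∈ X.F.fb, p.1 < 5 ∧ p.2 < 5
  grp1 : ∀ g ∈ X.grp, g.Nodup ∧ ∀ i ∈ g, i < 5
  grp2 : ∀ i : Fin 5, X.A i = 1 → ∃ g ∈ X.grp, (i : ℕ) ∈ g
  grp3 : X.grp.Pairwise fun g g' => ∀ i ∈ g, i ∉ g'
  grp4 : ∀ g ∈ X.grp, ∀ x : Fin 5 → ℤ, InH X.H x → ∀ i j : Fin 5, (i : ℕ) ∈ g → (j : ℕ) ∈ g →
    x i % 2 = x j % 2
  grp5 : ∀ g ∈ X.grp, ∀ i : Fin 5, (i : ℕ) ∈ g → X.A i = 1
  evw : ∀ w ∈ X.evw, InH X.H fun i => ((w.getD i 0 : ℕ) : ℤ)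
  gens : ∀ w ∈ X.gens, InH X.H fun i => ((w.getD i 0 : ℕ) : ℤ)

end RH6
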