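import Pool.Agent.RH6.UDef
import Pool.Agent.RH6.F8
import Pool.Agent.RH6.T1

namespace RH6

theorem u2_eqI {a b : ℤ} : eqI a b = true ↔ a = b := by
  rcases a with a | a <;> rcases b with b | b <;> simp [eqI]

theorem u2_len5 {α : Type*} (x : List α) (d : α) (h : x.length = 5) :
    x = [x.getD 0 d, x.getD 1 d, x.getD 2 d, x.getD 3 d, x.getD 4 d] := by
  match x, h with
  | [a, b, c, e, f], _ => rfl

theorem u2_dotL {x y : List ℤ} (hx : x.length = 5) (hy : y.length = 5) :
    dotL x y = ∑ i : Fin 5, x.getD i 0 * y.getD i 0 := by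
  match x, hx, y, hy with
  | [a, b, c, e, f], _, [a', b', c', e', f'], _ =>
    rw [Fin.sum_univ_five]
    change a * a' + (b * b' + (c * c' + (e * e' + (f * f' + 0)))) =
      a * a' + b * b' + c * c' + e * e' + f * f'
    ring

theorem u2_map_getD {α β : Type*} {x : List α} (f : α → β) (d : α) (d' : β) (h : x.length = 5)
    (i : Fin 5) : (x.map f).getD i d' = f (x.getD i d) := by
  match x, h with
  | [a, b, c, e, g], _ => fin_cases i <;> rfl

theorem u2_getD_mem {α : Type*} {x : List α} (d : α) (h : x.length = 5) (i : Fin 5) :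
    x.getD i d ∈ x := by
  rw [List.getD_eq_getElem x d (by rw [h]; exact i.2)]
  exact List.getElem_mem _

theorem u2_s2N (As q x y : List ℕ) : s2N As q x y =
    ∑ t : Fin 5, As.getD t 0 * q.getD t 0 * x.getD t 0 * y.getD t 0 := by
  rw [Fin.sum_univ_five]
  rfl

/-- parities -/
theorem u2_word (x : List ℕ) :
    (∑ i : Fin 5, if ((x.getD i 0 : ℕ) : ℤ) % 2 = 1 then 2 ^ (i : ℕ) else 0) = wordN x := by
  have h : ∀ n : ℕ, ∀ c : ℕ, (if ((n : ℕ) : ℤ) % 2 = 1 then c else 0) = (n % 2) * c := by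
    intro n c
    rcases Nat.mod_two_eq_zero_or_one n with h0 | h0
    · rw [h0, zero_mul, if_neg]
      omega
    · rw [h0, one_mul, if_pos]
      omega
  simp only [h]
  rw [Fin.sum_univ_five]
  rfl

theorem u2_bitv (p : Fin 5 → ℕ) (hp : ∀ i, p i = 0 ∨ p i = 1) :
    bitv (∑ i : Fin 5, p i * 2 ^ (i : ℕ)) = [p 0, p 1, p 2, p 3, p 4] ∧
      ∑ i : Fin 5, p i * 2 ^ (i : ℕ) < 32 := by
  rw [Fin.sum_univ_five]
  have h0 := hp 0
  have h1 := hp 1
  have h2 := hp 2
  have h3 := hp 3
  have h4 := hp 4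
  rcases h0 with h0 | h0 <;> rcases h1 with h1 | h1 <;> rcases h2 with h2 | h2 <;>
    rcases h3 with h3 | h3 <;> rcases h4 with h4 | h4 <;> rw [h0, h1, h2, h3, h4] <;>
      exact ⟨rfl, by decide⟩

theorem u2_InH_sum {H : List (Fin 5 → ℕ)} (c : Fin 5 → ℤ) (B : Fin 5 → Fin 5 → ℤ)
    (hB : ∀ i, InH H (B i)) : InH H fun t => ∑ i, c i * B i t := by
  intro h hh
  have h1 : ∑ t, (h t : ℤ) * ∑ i, c i * B i t = ∑ i, c i * ∑ t, (h t : ℤ) * B i t := by
    simp only [Finset.mul_sum]
    rw [Finset.sum_comm]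
    refine Finset.sum_congr rfl fun i _ => Finset.sum_congr rfl fun t _ => by ring
  rw [h1]
  exact Finset.even_sum _ fun i _ => (hB i h hh).mul_left (c i)

/-- content of the check -/
theorem u2_check {As : List ℕ} {code : ℕ} {b : List (List ℕ)} {bi : List (List ℤ)}
    (hb : basisB As code b bi = true) :
    b.length = 5 ∧ (∀ r ∈ b, r.length = 5) ∧ bi.length = 5 ∧ (∀ r ∈ bi, r.length = 5) ∧
    (∀ r ∈ b, code.testBit (wordN r) = true) ∧
    (∀ r ∈ b, ∀ s ∈ b, s2N As [1, 1, 1, 1, 1] r s % 2 = 0) ∧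
    (∀ i j : Fin 5, dotL ((b.getD i []).map Int.ofNat) (bi.map fun r => r.getD j 0) =
      if i = j then 2 else 0) ∧
    (∀ w < 32, code.testBit w = true → ∀ j : Fin 5,
      dotL ((bitv w).map Int.ofNat) (bi.map fun r => r.getD j 0) % 2 = 0) := by
  unfold basisB at hb
  simp only [Bool.and_eq_true, List.all_eq_true, Bool.or_eq_true, List.mem_range,
    Bool.not_eq_true'] at hb
  obtain ⟨⟨⟨⟨⟨⟨⟨h1, h2⟩, h3⟩, h4⟩, h5⟩, h6⟩, h7⟩, h8⟩ := hb
  refine ⟨Nat.eq_of_beq_eq_true h1, fun r hr => Nat.eq_of_beq_eq_true (h2 r hr),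
    Nat.eq_of_beq_eq_true h3, fun r hr => Nat.eq_of_beq_eq_true (h4 r hr), h5,
    fun r hr s hs => Nat.eq_of_beq_eq_true (h6 r hr s hs), ?_, ?_⟩
  · intro i j
    have h := u2_eqI.1 (h7 i i.2 j j.2)
    rw [h]
    by_cases hij : i = j
    · subst hij
      simp
    · have : Nat.beq (i : ℕ) (j : ℕ) = false := by
        rw [← Bool.not_eq_true]
        exact fun h' => hij (Fin.ext (Nat.eq_of_beq_eq_true h'))
      rw [this, if_neg hij]
      rfl
  · intro w hw hc j
    rcases h8 w hw with h | h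
    · rw [hc] at h
      exact absurd h (by decide)
    · exact u2_eqI.1 (h j j.2)

/-- Row [RH-U2]: the basis of a pattern lattice.

Proof.  Let `b_i ∈ ℤ^5` be the rows of `b`.  They are linearly independent since `b · bi = 2`.  Each is
in `InH X.H` by `hX.code` (the parity word `∑ 2^i [x_i odd]` of the row is `wordN r`).  If
`y ∈ InH X.H`, let `w` be its parity word; the vector `y · bi` is congruent mod 2 to
`(bitv w) · bi`, which is even by the check, so `y = ∑_j c_j b_j` with `c_j = (y · bi)_j / 2 ∈ ℤ`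
(`bi · b = 2` as well).  Gram matrix: `Bm (b_i) (b_j) = ½ ∑ A_t m_t b_it b_jt`, and this sum is even
as `m_t` is odd (`A_t m_t b b' ≡ A_t b b' mod 2`), so the division in `gramL` is exact. -/
theorem hasGram_pat {X : FX} (hX : FXOK X) {b : List (List ℕ)} {bi : List (List ℤ)}
    (hb : basisB X.F.As X.F.code b bi = true) {m : List ℕ} (hl : m.length = 5)
    (hm : ∀ n ∈ m, Odd n) :
    HasGram (of5 (gramL X.F.As m b)) (Bm X.A (fun i => m.getD i 0)) (KH X.H) := by
  obtain ⟨h1, h2, h3, h4, h5, h6, h7, h8⟩ := u2_check hb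
  set Bz : Fin 5 → Fin 5 → ℤ := fun i t => (((b.getD i []).getD t 0 : ℕ) : ℤ) with hBz
  set Bi : Fin 5 → Fin 5 → ℤ := fun i j => (bi.getD i []).getD j 0 with hBi
  have hlen : ∀ i : Fin 5, (b.getD i []).length = 5 := fun i => h2 _ (u2_getD_mem [] h1 i)
  have hcol : ∀ j t : Fin 5, (bi.map fun r => r.getD j 0).getD t 0 = Bi t j := by
    intro j t
    exact u2_map_getD (fun r : List ℤ => r.getD j 0) [] 0 h3 t
  have hrow : ∀ i t : Fin 5, ((b.getD i []).map Int.ofNat).getD t 0 = Bz i t := by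
    intro i t
    exact u2_map_getD Int.ofNat 0 0 (hlen i) t
  have hBB : ∀ i j : Fin 5, ∑ t, Bz i t * Bi t j = if i = j then 2 else 0 := by
    intro i j
    rw [← h7 i j, u2_dotL (by rw [List.length_map, hlen]) (by rw [List.length_map, h3])]
    exact Finset.sum_congr rfl fun t _ => by rw [hrow, hcol]
  -- matrices over ℚ
  have hM1 : (Matrix.of fun i t => (Bz i t : ℚ)) * (Matrix.of fun t j => (Bi t j : ℚ) / 2) =
      (1 : Matrix (Fin 5) (Fin 5) ℚ) := by
    ext i j
    rw [Matrix.mul_apply, Matrix.one_apply]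
    simp only [Matrix.of_apply]
    have h := congrArg (Int.cast : ℤ → ℚ) (hBB i j)
    push_cast at h
    have e : ∑ x, (Bz i x : ℚ) * ((Bi x j : ℚ) / 2) = (∑ x, (Bz i x : ℚ) * (Bi x j : ℚ)) / 2 := by
      rw [Finset.sum_div]
      exact Finset.sum_congr rfl fun t _ => by ring
    rw [e, h]
    split_ifs <;> norm_num
  have hM2 := mul_eq_one_comm.1 hM1
  have hBB' : ∀ s t : Fin 5, ∑ j, (Bi s j : ℚ) / 2 * (Bz j t : ℚ) = if s = t then 1 else 0 := by
    intro s t
    have := congrFun (congrFun hM2 s) t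
    rw [Matrix.mul_apply, Matrix.one_apply] at this
    exact this
  have hBBq : ∀ i j : Fin 5, ∑ t, (Bz i t : ℚ) * ((Bi t j : ℚ) / 2) = if i = j then 1 else 0 := by
    intro i j
    have := congrFun (congrFun hM1 i) j
    rw [Matrix.mul_apply, Matrix.one_apply] at this
    exact this
  let e : V5 ≃ₗ[ℚ] (Fin 5 → ℚ) :=
    { toFun := fun y j => ∑ t, y t * ((Bi t j : ℚ) / 2)
      map_add' := fun x y => by
        funext j
        simp only [Pi.add_apply, add_mul, Finset.sum_add_distrib]
      map_smul' := fun c x => by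
        funext j
        simp only [Pi.smul_apply, smul_eq_mul, RingHom.id_apply, Finset.mul_sum]
        exact Finset.sum_congr rfl fun t _ => by ring
      invFun := fun c t => ∑ i, c i * (Bz i t : ℚ)
      left_inv := fun y => by
        funext t
        simp only [Finset.sum_mul]
        rw [Finset.sum_comm]
        have : ∀ s, ∑ j, y s * ((Bi s j : ℚ) / 2) * (Bz j t : ℚ) = y s * if s = t then 1 else 0 := by
          intro s
          rw [← hBB' s t, Finset.mul_sum]
          exact Finset.sum_congr rfl fun j _ => by ring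
        simp only [this]
        simp
      right_inv := fun c => by
        funext j
        simp only [Finset.sum_mul]
        rw [Finset.sum_comm]
        have : ∀ i, ∑ t, c i * (Bz i t : ℚ) * ((Bi t j : ℚ) / 2) = c i * if i = j then 1 else 0 := by
          intro i
          rw [← hBBq i j, Finset.mul_sum]
          exact Finset.sum_congr rfl fun t _ => by ring
        simp only [this]
        simp }
  have he : ∀ (y : V5) (j : Fin 5), e y j = ∑ t, y t * ((Bi t j : ℚ) / 2) := fun _ _ => rfl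
  have hes : ∀ (c : Fin 5 → ℚ) (t : Fin 5), e.symm c t = ∑ i, c i * (Bz i t : ℚ) := fun _ _ => rfl
  have hrowH : ∀ i : Fin 5, InH X.H (Bz i) := by
    intro i
    rw [hX.code]
    have := h5 _ (u2_getD_mem [] h1 i)
    rw [← u2_word] at this
    exact this
  refine ⟨Module.Basis.ofEquivFun e, ?_, ?_⟩
  · intro i j
    have hbi : ∀ i : Fin 5, (Module.Basis.ofEquivFun e) i = toQ (Bz i) := by
      intro i
      rw [Module.Basis.coe_ofEquivFun]
      funext t
      change e.symm (Pi.single i 1) t = toQ (Bz i) t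
      rw [hes]
      simp [Pi.single_apply, toQ]
    rw [hbi, hbi, Bm_toQ]
    have hev : s2N X.F.As m (b.getD i []) (b.getD j []) % 2 = 0 := by
      have h9 := h6 _ (u2_getD_mem [] h1 i) _ (u2_getD_mem [] h1 j)
      rw [u2_s2N] at h9 ⊢
      have h10 : ∀ t : Fin 5, (X.F.As.getD t 0 * m.getD t 0 * (b.getD i []).getD t 0 *
          (b.getD j []).getD t 0) ≡ (X.F.As.getD t 0 * [1, 1, 1, 1, 1].getD t 0 *
          (b.getD i []).getD t 0 * (b.getD j []).getD t 0) [MOD 2] := by
        intro t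
        have hmt : m.getD t 0 ≡ 1 [MOD 2] := Nat.odd_iff.1 (hm _ (u2_getD_mem 0 hl t))
        have h1t : [1, 1, 1, 1, 1].getD (t : ℕ) 0 = 1 := by
          fin_cases t <;> rfl
        rw [h1t]
        exact ((hmt.mul_left _).mul_right _).mul_right _
      have h11 : (∑ t : Fin 5, X.F.As.getD t 0 * m.getD t 0 * (b.getD i []).getD t 0 *
          (b.getD j []).getD t 0) ≡ (∑ t : Fin 5, X.F.As.getD t 0 * [1, 1, 1, 1, 1].getD t 0 *
          (b.getD i []).getD t 0 * (b.getD j []).getD t 0) [MOD 2] := by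
        rw [Nat.ModEq, Finset.sum_nat_mod, Finset.sum_nat_mod (f := fun t : Fin 5 =>
          X.F.As.getD t 0 * [1, 1, 1, 1, 1].getD t 0 * (b.getD i []).getD t 0 *
          (b.getD j []).getD t 0)]
        congr 1
        exact Finset.sum_congr rfl fun t _ => h10 t
      exact Eq.trans h11 h9
    have hS : S2 X.A (fun i => m.getD i 0) (Bz i) (Bz j) =
        ((s2N X.F.As m (b.getD i []) (b.getD j []) : ℕ) : ℤ) := by
      rw [u2_s2N, S2]
      push_cast
      refine Finset.sum_congr rfl fun t _ => ?_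
      rw [hX.As t]
    have hG : of5 (gramL X.F.As m b) i j =
        ((s2N X.F.As m (b.getD i []) (b.getD j []) / 2 : ℕ) : ℤ) := by
      unfold of5 gramL
      rw [u2_map_getD (fun r => b.map fun s => ((s2N X.F.As m r s / 2 : ℕ) : ℤ)) [] [] h1 i]
      exact u2_map_getD (fun s => ((s2N X.F.As m (b.getD i []) s / 2 : ℕ) : ℤ)) [] 0 h1 j
    rw [hG, hS]
    obtain ⟨k, hk⟩ : ∃ k, s2N X.F.As m (b.getD i []) (b.getD j []) = 2 * k :=
      ⟨s2N X.F.As m (b.getD i []) (b.getD j []) / 2, by omega⟩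
    rw [hk, Nat.mul_div_cancel_left _ (by norm_num)]
    push_cast
    ring
  · intro x
    have hrep : ∀ i, (Module.Basis.ofEquivFun e).repr x i = e x i := fun i =>
      Module.Basis.ofEquivFun_repr_apply e x i
    simp only [hrep]
    rw [mem_KH]
    constructor
    · rintro ⟨z, rfl, hz⟩ j
      rw [hX.code] at hz
      set p : Fin 5 → ℕ := fun i => if z i % 2 = 1 then 1 else 0 with hp
      have hp01 : ∀ i, p i = 0 ∨ p i = 1 := by
        intro i
        simp only [hp]
        split_ifs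
        · right; rfl
        · left; rfl
      have hw : (∑ i : Fin 5, if z i % 2 = 1 then 2 ^ (i : ℕ) else 0) =
          ∑ i : Fin 5, p i * 2 ^ (i : ℕ) := by
        refine Finset.sum_congr rfl fun i _ => ?_
        simp only [hp]
        split_ifs <;> simp
      rw [hw] at hz
      obtain ⟨hb1, hb2⟩ := u2_bitv p hp01
      have h9 := h8 _ hb2 hz j
      rw [hb1, u2_dotL (by rfl) (by rw [List.length_map, h3])] at h9
      have h10 : ∑ t : Fin 5, (List.map Int.ofNat [p 0, p 1, p 2, p 3, p 4]).getD t 0 *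
          (bi.map fun r => r.getD j 0).getD t 0 = ∑ t : Fin 5, (p t : ℤ) * Bi t j := by
        refine Finset.sum_congr rfl fun t _ => ?_
        rw [hcol]
        congr 1
        fin_cases t <;> rfl
      rw [h10] at h9
      have h11 : ∃ k : Fin 5 → ℤ, ∀ t, z t = p t + 2 * k t := by
        refine ⟨fun t => (z t - p t) / 2, fun t => ?_⟩
        simp only [hp]
        split_ifs with h
        · push_cast
          omega
        · push_cast
          omega
      obtain ⟨k, hk⟩ := h11
      have h12 : ∑ t, z t * Bi t j = (∑ t : Fin 5, (p t : ℤ) * Bi t j) + 2 * ∑ t, k t * Bi t j := by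
        rw [Finset.mul_sum, ← Finset.sum_add_distrib]
        refine Finset.sum_congr rfl fun t _ => ?_
        rw [hk t]
        ring
      obtain ⟨c, hc⟩ : ∃ c, ∑ t, z t * Bi t j = 2 * c := by
        refine ⟨(∑ t : Fin 5, (p t : ℤ) * Bi t j) / 2 + ∑ t, k t * Bi t j, ?_⟩
        rw [h12]
        omega
      refine ⟨c, ?_⟩
      rw [he]
      have h13 := congrArg (Int.cast : ℤ → ℚ) hc
      push_cast at h13
      have h14 : ∑ t, toQ z t * ((Bi t j : ℚ) / 2) = (∑ t, (z t : ℚ) * (Bi t j : ℚ)) / 2 := by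
        rw [Finset.sum_div]
        exact Finset.sum_congr rfl fun t _ => by rw [toQ]; ring
      rw [h14, h13]
      ring
    · intro h
      choose c hc using h
      refine ⟨fun t => ∑ i, c i * Bz i t, ?_, u2_InH_sum c Bz hrowH⟩
      have : x = e.symm (e x) := (e.symm_apply_apply x).symm
      rw [this]
      funext t
      rw [hes, toQ]
      push_cast
      exact Finset.sum_congr rfl fun i _ => by rw [hc i]

theorem gramL_len {As m : List ℕ} {b : List (List ℕ)} (hb : b.length = 5) :
    (gramL As m b).length = 5 ∧ ∀ r ∈ gramL As m b, r.length = 5 := by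
  refine ⟨by rw [gramL, List.length_map, hb], ?_⟩
  intro r hr
  rw [gramL, List.mem_map] at hr
  obtain ⟨s, -, rfl⟩ := hr
  rw [List.length_map, hb]

end RH6
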