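import Pool.Agent.RH6.C1b
import Pool.Agent.RH6.Tree

namespace RH6

/-! Lists of integers; certificates for the failure of the cusp condition and for isometries. -/

def dotL : List Int → List Int → Int
  | a :: x, b :: y => a * b + dotL x y
  | _, _ => 0

def sclL (c : Int) : List Int → List Int
  | [] => []
  | a :: x => (c * a) :: sclL c x

def addL : List Int → List Int → List Int
  | a :: x, b :: y => (a + b) :: addL x y
  | _, _ => []

def zero7 : List Int := [0, 0, 0, 0, 0, 0, 0]

/-- `∑ x_i (row i)` -/
def combL : List Int → List (List Int) → List Int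
  | a :: x, r :: m => addL (sclL a r) (combL x m)
  | _, _ => zero7

def eqI : Int → Int → Bool
  | Int.ofNat a, Int.ofNat b => Nat.beq a b
  | Int.negSucc a, Int.negSucc b => Nat.beq a b
  | _, _ => false

def eqL : List Int → List Int → Bool
  | [], [] => true
  | a :: x, b :: y => eqI a b && eqL x y
  | _, _ => false

def eqLL : List (List Int) → List (List Int) → Bool
  | [], [] => true
  | a :: x, b :: y => eqL a b && eqLL x y
  | _, _ => false

/-- list of rows as a matrix -/
def ofL (l : List (List Int)) : Matrix (Fin 7) (Fin 7) ℤ := fun i j => (l.getD i []).getD j 0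

def vecL (l : List Int) : Fin 7 → ℤ := fun i => l.getD i 0

/-- `7 × 7`, symmetric -/
def isSym (G : List (List Int)) : Bool :=
  Nat.beq G.length 7 && (G.all fun r => Nat.beq r.length 7) &&
  (List.range 7).all fun i => (List.range i).all fun j =>
    eqI ((G.getD i []).getD j 0) ((G.getD j []).getD i 0)

/-- `e` times the unit matrix -/
def scal (e : Int) : List (List Int) :=
  (List.range 7).map fun i => (List.range 7).map fun j => bif Nat.beq i j then e else 0

/-- rows of the product -/
def mulLL (A B : List (List Int)) : List (List Int) := A.map fun r => combL r B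

/-- all `y ≡ x mod q`, `y ≥ x`, `c y² ≤ rem` (with fuel; `false` if there is not enough fuel) -/
def loopN (c q rem : Nat) (F : Nat → Bool) : Nat → Nat → Bool
  | 0, _ => false
  | Nat.succ k, y =>
    bif Nat.ble (Nat.mul c (Nat.mul y y)) rem then F y && loopN c q rem F k (Nat.add y q) else true

/-- `rows`: `(c_i, ν_i, h_i)`, `h_i` = row `i` from the pivot on; `base`: current `w_i, w_{i+1}, …` -/
def bsrch : List (Nat × Int × List Int) → Nat → List Int → Int → Bool
  | [], rem, _, acc => !Nat.beq rem 0 || eqI acc 0
  | (c, ν, h) :: l, rem, base, acc =>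
    (fun (b q : Int) => (fun r : Nat =>
      loopN c q.toNat rem (fun y => bsrch l (rem - c * (y * y))
        (addL base.tail (sclL (((y : Int) - b) / q) h.tail)) (acc + ν * y)) 100 r &&
      loopN c q.toNat rem (fun y => bsrch l (rem - c * (y * y))
        (addL base.tail (sclL ((-(y : Int) - b) / q) h.tail)) (acc - ν * y)) 100 (q.toNat - r))
      (b % q).toNat) (base.headD 0) (h.headD 0)

/-- data for the roots of norm `n` -/
structure BRec where
  n : Nat
  /-- 5 rows; row `j` starts with `j` zeros -/
  H : List (List Int)
  P : List (List Int)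
  Q : List (List Int)
  t : List Int

structure BCert where
  G : List (List Int)
  e : Nat
  E : List (List Int)
  v : List Int
  g : Int
  w : List Int
  F : List (List Int)
  D : Nat
  c : List Nat
  ν : List Int
  z : List Int
  k : Int
  recs : List BRec

def idH : List (List Int) :=
  [[1, 0, 0, 0, 0], [0, 1, 0, 0, 0], [0, 0, 1, 0, 0], [0, 0, 0, 1, 0], [0, 0, 0, 0, 1]]

/-- the search with the lattice `H` -/
def srchB (C : BCert) (n : Nat) (H : List (List Int)) : Bool :=
  bsrch ((List.range 5).map fun i => (C.c.getD i 0, C.ν.getD i 0, (H.getD i []).drop i))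
    (4 * C.D / n) [0, 0, 0, 0, 0] 0

/-- the rows `ψ_j = 2 G p_j + n q_j` -/
def psiB (C : BCert) (r : BRec) : List (List Int) :=
  (List.range 5).map fun j =>
    addL (sclL 2 (combL (r.P.getD j []) C.G)) (sclL r.n (r.Q.getD j []))

def len57 (l : List (List Int)) : Bool := Nat.beq l.length 5 && l.all fun r => Nat.beq r.length 7

def len77 (l : List (List Int)) : Bool := Nat.beq l.length 7 && l.all fun r => Nat.beq r.length 7

def recB (C : BCert) (r : BRec) : Bool :=
  Nat.beq r.H.length 5 && len57 r.P && len57 r.Q &&
  (List.range 5).all (fun j => Nat.beq (r.H.getD j []).length 5 &&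
    decide (0 < (r.H.getD j []).getD j 0) &&
    (List.range j).all fun i => eqI ((r.H.getD j []).getD i 0) 0) &&
  (fun ψ : List (List Int) => (List.range 5).all fun i =>
    eqL (addL (sclL 2 (combL (C.F.getD i []) C.G)) (sclL (r.t.getD i 0) C.w))
      (combL ((List.range 5).map fun j => (r.H.getD j []).getD i 0) ψ)) (psiB C r) &&
  srchB C r.n r.H

def evenB (G : List (List Int)) : Bool :=
  (List.range 7).all fun i => eqI ((G.getD i []).getD i 0 % 2) 0

/-- the certificate -/
def chkBad (C : BCert) : Bool :=
  isSym C.G && !Nat.beq C.e 0 && len77 C.E && eqLL (mulLL C.G C.E) (scal C.e) &&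
  Nat.beq C.v.length 7 && Nat.beq C.w.length 7 && Nat.beq C.ν.length 5 && len57 C.F &&
  !eqI C.g 0 && eqL (combL C.v C.G) (sclL C.g C.w) && !eqL C.v zero7 &&
  eqI (dotL C.v C.w) 0 && (C.F.all fun f => eqI (dotL f C.w) 0) &&
  !eqI C.k 0 && (C.c.all fun c => Nat.blt 0 c) && Nat.beq C.c.length 5 &&
  (fun FG : List (List Int) => (List.range 7).all fun a => (List.range 7).all fun b =>
    eqI (C.k * (C.D * (C.G.getD a []).getD b 0 -
        dotL (C.c.map Int.ofNat) (FG.map fun f => f.getD a 0 * f.getD b 0)))
      (C.w.getD a 0 * C.z.getD b 0 + C.z.getD a 0 * C.w.getD b 0)) (mulLL C.F C.G) &&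
  (fun u : List Int => decide (0 < dotL u (combL u C.G))) (combL C.ν C.F) &&
  (List.range (2 * C.e + 1)).all fun n =>
    Nat.beq n 0 || !Nat.beq (2 * C.e % n) 0 || (evenB C.G && Nat.beq (n % 2) 1) ||
    !Nat.beq (4 * C.D % n) 0 || (C.recs.any fun r => Nat.beq r.n n && recB C r) || srchB C n idH

/-- isometry: the rows of `U` have the Gram matrix `G` with respect to `J`, `U V = 1` -/
def chkIso (J G U V : List (List Int)) : Bool :=
  isSym J && isSym G && len77 U && len77 V && eqLL (mulLL U V) (scal 1) &&
  eqLL ((mulLL U J).map fun r => U.map fun s => dotL r s) G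

/-- integer list of lists as a `5 × 5` matrix -/
def of5 (l : List (List Int)) : Matrix (Fin 5) (Fin 5) ℤ := fun i j => (l.getD i []).getD j 0

/-- the form `U(N) ⊥ E` -/
def hypL (N : Nat) (E : List (List Int)) : List (List Int) :=
  [0, (N : Int), 0, 0, 0, 0, 0] :: [(N : Int), 0, 0, 0, 0, 0, 0] :: E.map fun r => 0 :: 0 :: r

/-- Gram matrix of the rows of `b` for the form `½ ∑ A_i m_i x_i y_i` -/
def gramL (As m : List Nat) (b : List (List Nat)) : List (List Int) :=
  b.map fun r => b.map fun s => ((s2N As m r s / 2 : Nat) : Int)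

/-- the rows of `b` are a basis of the lattice with the code `code`; `bi = 2 b⁻¹` -/
def basisB (As : List Nat) (code : Nat) (b : List (List Nat)) (bi : List (List Int)) : Bool :=
  Nat.beq b.length 5 && (b.all fun r => Nat.beq r.length 5) && Nat.beq bi.length 5 &&
  (bi.all fun r => Nat.beq r.length 5) && (b.all fun r => code.testBit (wordN r)) &&
  (b.all fun r => b.all fun s => Nat.beq (s2N As [1, 1, 1, 1, 1] r s % 2) 0) &&
  ((List.range 5).all fun i => (List.range 5).all fun j =>
    eqI (dotL ((b.getD i []).map Int.ofNat) (bi.map fun r => r.getD j 0))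
      (bif Nat.beq i j then 2 else 0)) &&
  ((List.range 32).all fun w => !code.testBit w || (List.range 5).all fun j =>
    eqI (dotL ((bitv w).map Int.ofNat) (bi.map fun r => r.getD j 0) % 2) 0)

/-- a leaf: number of a certificate, or an isometry with one of the lattices `Js` -/
inductive LfC
  | bad (i : Nat)
  | good (i : Nat) (U V : List (List Int))

def lcB (Js : List (List (List Int))) (bads : List BCert) (G : List (List Int)) : LfC → Bool
  | LfC.bad i => Nat.blt i bads.length &&
      (match bads[i]? with
        | none => false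
        | some C => eqLL C.G G)
  | LfC.good i U V => Nat.blt i Js.length && chkIso (Js.getD i []) G U V

def famB (Js : List (List (List Int))) (bads : List BCert) (As : List Nat) (b : List (List Nat))
    (cands : List (List Nat × Nat)) (Ns : List Nat) (tab : List (List LfC)) : Bool :=
  (List.range cands.length).all fun i => (fun c : List Nat × Nat =>
    Nat.beq (1365 % c.2) 0 && Nat.beq c.1.length 5 && (c.1.all fun r => Nat.beq (1365 % r) 0) &&
    (List.range Ns.length).all fun j =>
      lcB Js bads (hypL (Ns.getD j 0) (gramL As (c.1.map fun r => del c.2 r) b))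
        ((tab.getD i []).getD j (LfC.bad bads.length))) (cands.getD i ([], 0))

end RH6
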