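import Pool.Agent.RH6.Base

open Matrix

namespace RH6

/-!
Row [RH-W01]: bilinear algebra of `bZ`, `bR`, `actR`.  All proofs are routine (`dotProduct`,
`mulVec`; `Matrix.dotProduct_mulVec`, `Matrix.mulVec_mulVec`, `Finset.sum` casts).
-/

theorem bR_add_left (G : Matrix (Fin 7) (Fin 7) ℤ) (x y z : Fin 7 → ℝ) :
    bR G (x + y) z = bR G x z + bR G y z := by
  unfold bR
  rw [add_dotProduct]

theorem bR_add_right (G : Matrix (Fin 7) (Fin 7) ℤ) (x y z : Fin 7 → ℝ) :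
    bR G x (y + z) = bR G x y + bR G x z := by
  unfold bR
  rw [Matrix.mulVec_add, dotProduct_add]

theorem bR_sub_left (G : Matrix (Fin 7) (Fin 7) ℤ) (x y z : Fin 7 → ℝ) :
    bR G (x - y) z = bR G x z - bR G y z := by
  unfold bR
  rw [sub_dotProduct]

theorem bR_sub_right (G : Matrix (Fin 7) (Fin 7) ℤ) (x y z : Fin 7 → ℝ) :
    bR G x (y - z) = bR G x y - bR G x z := by
  unfold bR
  rw [Matrix.mulVec_sub, dotProduct_sub]

theorem bR_smul_left (G : Matrix (Fin 7) (Fin 7) ℤ) (a : ℝ) (x y : Fin 7 → ℝ) :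
    bR G (a • x) y = a * bR G x y := by
  unfold bR
  rw [smul_dotProduct, smul_eq_mul]

theorem bR_smul_right (G : Matrix (Fin 7) (Fin 7) ℤ) (a : ℝ) (x y : Fin 7 → ℝ) :
    bR G x (a • y) = a * bR G x y := by
  unfold bR
  rw [Matrix.mulVec_smul, dotProduct_smul, smul_eq_mul]

theorem bR_neg_left (G : Matrix (Fin 7) (Fin 7) ℤ) (x y : Fin 7 → ℝ) :
    bR G (-x) y = - bR G x y := by
  unfold bR
  rw [neg_dotProduct]

theorem bR_neg_right (G : Matrix (Fin 7) (Fin 7) ℤ) (x y : Fin 7 → ℝ) :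
    bR G x (-y) = - bR G x y := by
  unfold bR
  rw [Matrix.mulVec_neg, dotProduct_neg]

theorem bR_zero_left (G : Matrix (Fin 7) (Fin 7) ℤ) (y : Fin 7 → ℝ) : bR G 0 y = 0 := by
  unfold bR
  rw [zero_dotProduct]

theorem bR_zero_right (G : Matrix (Fin 7) (Fin 7) ℤ) (y : Fin 7 → ℝ) : bR G y 0 = 0 := by
  unfold bR
  rw [Matrix.mulVec_zero, dotProduct_zero]

theorem bR_symm {G : Matrix (Fin 7) (Fin 7) ℤ} (hG : Gᵀ = G) (x y : Fin 7 → ℝ) :
    bR G x y = bR G y x := by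
  unfold bR
  rw [Matrix.dotProduct_mulVec, ← Matrix.mulVec_transpose, dotProduct_comm, ← Matrix.transpose_map, hG]

theorem bZ_add_left (G : Matrix (Fin 7) (Fin 7) ℤ) (x y z : Fin 7 → ℤ) :
    bZ G (x + y) z = bZ G x z + bZ G y z := by
  unfold bZ
  rw [add_dotProduct]

theorem bZ_add_right (G : Matrix (Fin 7) (Fin 7) ℤ) (x y z : Fin 7 → ℤ) :
    bZ G x (y + z) = bZ G x y + bZ G x z := by
  unfold bZ
  rw [Matrix.mulVec_add, dotProduct_add]

theorem bZ_sub_left (G : Matrix (Fin 7) (Fin 7) ℤ) (x y z : Fin 7 → ℤ) :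
    bZ G (x - y) z = bZ G x z - bZ G y z := by
  unfold bZ
  rw [sub_dotProduct]

theorem bZ_sub_right (G : Matrix (Fin 7) (Fin 7) ℤ) (x y z : Fin 7 → ℤ) :
    bZ G x (y - z) = bZ G x y - bZ G x z := by
  unfold bZ
  rw [Matrix.mulVec_sub, dotProduct_sub]

theorem bZ_smul_left (G : Matrix (Fin 7) (Fin 7) ℤ) (a : ℤ) (x y : Fin 7 → ℤ) :
    bZ G (a • x) y = a * bZ G x y := by
  unfold bZ
  rw [smul_dotProduct, smul_eq_mul]

theorem bZ_smul_right (G : Matrix (Fin 7) (Fin 7) ℤ) (a : ℤ) (x y : Fin 7 → ℤ) :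
    bZ G x (a • y) = a * bZ G x y := by
  unfold bZ
  rw [Matrix.mulVec_smul, dotProduct_smul, smul_eq_mul]

theorem bZ_neg_left (G : Matrix (Fin 7) (Fin 7) ℤ) (x y : Fin 7 → ℤ) :
    bZ G (-x) y = - bZ G x y := by
  unfold bZ
  rw [neg_dotProduct]

theorem bZ_neg_right (G : Matrix (Fin 7) (Fin 7) ℤ) (x y : Fin 7 → ℤ) :
    bZ G x (-y) = - bZ G x y := by
  unfold bZ
  rw [Matrix.mulVec_neg, dotProduct_neg]

theorem bZ_symm {G : Matrix (Fin 7) (Fin 7) ℤ} (hG : Gᵀ = G) (x y : Fin 7 → ℤ) :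
    bZ G x y = bZ G y x := by
  unfold bZ
  rw [Matrix.dotProduct_mulVec, ← Matrix.mulVec_transpose, dotProduct_comm, hG]

theorem bR_toR (G : Matrix (Fin 7) (Fin 7) ℤ) (x y : Fin 7 → ℤ) :
    bR G (toR x) (toR y) = (bZ G x y : ℝ) := by
  unfold bR bZ toR
  simp only [dotProduct, Matrix.mulVec, Matrix.map_apply, Int.cast_sum, Int.cast_mul]

theorem toR_add (x y : Fin 7 → ℤ) : toR (x + y) = toR x + toR y := by
  funext i
  simp [toR]
theorem toR_sub (x y : Fin 7 → ℤ) : toR (x - y) = toR x - toR y := by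
  funext i
  simp [toR]
theorem toR_neg (x : Fin 7 → ℤ) : toR (-x) = - toR x := by
  funext i
  simp [toR]
theorem toR_smul (a : ℤ) (x : Fin 7 → ℤ) : toR (a • x) = (a : ℝ) • toR x := by
  funext i
  simp [toR]
theorem toR_inj {x y : Fin 7 → ℤ} (h : toR x = toR y) : x = y := by
  funext i
  have h1 := congrFun h i
  unfold toR at h1
  exact_mod_cast h1
theorem toR_ne_zero {x : Fin 7 → ℤ} (h : x ≠ 0) : toR x ≠ 0 := by
  intro h1
  apply h
  apply toR_inj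
  rw [h1]
  funext i
  simp [toR]

theorem actR_toR (g : GL (Fin 7) ℤ) (x : Fin 7 → ℤ) : actR g (toR x) = toR (g.1 *ᵥ x) := by
  unfold actR toR
  funext i
  simp only [dotProduct, Matrix.mulVec, Matrix.map_apply, Int.cast_sum, Int.cast_mul]

theorem actR_add (g : GL (Fin 7) ℤ) (x y : Fin 7 → ℝ) : actR g (x + y) = actR g x + actR g y := by
  unfold actR
  rw [Matrix.mulVec_add]

theorem actR_smul (g : GL (Fin 7) ℤ) (a : ℝ) (x : Fin 7 → ℝ) :
    actR g (a • x) = a • actR g x := by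
  unfold actR
  rw [Matrix.mulVec_smul]

theorem actR_one (x : Fin 7 → ℝ) : actR 1 x = x := by
  unfold actR
  have h1 : ((1 : GL (Fin 7) ℤ).1.map (fun n : ℤ => (n : ℝ))) = 1 := by
    ext i j
    by_cases hij : i = j
    · subst hij; simp
    · simp [Matrix.one_apply_ne hij]
  rw [h1, Matrix.one_mulVec]

theorem actR_mul (g g' : GL (Fin 7) ℤ) (x : Fin 7 → ℝ) : actR (g * g') x = actR g (actR g' x) := by
  unfold actR
  rw [Matrix.mulVec_mulVec]
  congr 1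
  have h2 : (g * g').1 = g.1 * g'.1 := rfl
  rw [h2]
  ext i j
  simp [Matrix.mul_apply]

theorem actR_inv_act (g : GL (Fin 7) ℤ) (x : Fin 7 → ℝ) : actR g⁻¹ (actR g x) = x := by
  rw [← actR_mul, inv_mul_cancel, actR_one]

theorem actR_act_inv (g : GL (Fin 7) ℤ) (x : Fin 7 → ℝ) : actR g (actR g⁻¹ x) = x := by
  rw [← actR_mul, mul_inv_cancel, actR_one]

theorem bR_act {G : Matrix (Fin 7) (Fin 7) ℤ} {g : GL (Fin 7) ℤ} (hg : g.1ᵀ * G * g.1 = G)
    (x y : Fin 7 → ℝ) : bR G (actR g x) (actR g y) = bR G x y := by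
  have hg' : (g.1.map (fun n : ℤ => (n : ℝ)))ᵀ * (G.map (fun n : ℤ => (n : ℝ))) *
      (g.1.map (fun n : ℤ => (n : ℝ))) = G.map (fun n : ℤ => (n : ℝ)) := by
    conv_rhs => rw [← hg]
    ext i j
    simp only [Matrix.mul_apply, Matrix.map_apply, Matrix.transpose_apply, Int.cast_sum,
      Int.cast_mul]
  unfold bR actR
  rw [Matrix.mulVec_mulVec, Matrix.dotProduct_mulVec, Matrix.vecMul_mulVec,
    ← Matrix.dotProduct_mulVec]
  congr 2
  rw [← Matrix.mul_assoc, hg']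

theorem bZ_act {G : Matrix (Fin 7) (Fin 7) ℤ} {g : GL (Fin 7) ℤ} (hg : g.1ᵀ * G * g.1 = G)
    (x y : Fin 7 → ℤ) : bZ G (g.1 *ᵥ x) (g.1 *ᵥ y) = bZ G x y := by
  unfold bZ
  rw [Matrix.mulVec_mulVec, Matrix.dotProduct_mulVec, Matrix.vecMul_mulVec,
    ← Matrix.dotProduct_mulVec]
  congr 2
  rw [← Matrix.mul_assoc, hg]

/-- `(x, g y) = (g⁻¹ x, y)` -/
theorem bR_act_right {G : Matrix (Fin 7) (Fin 7) ℤ} {g : GL (Fin 7) ℤ} (hg : g.1ᵀ * G * g.1 = G)
    (x y : Fin 7 → ℝ) : bR G x (actR g y) = bR G (actR g⁻¹ x) y := by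
  conv_lhs => rw [← actR_act_inv g x]
  exact bR_act hg _ _

/-- an element of `GL₇(ℤ)` fixing all real vectors is `1` -/
theorem eq_one_of_actR {g : GL (Fin 7) ℤ} (h : ∀ x, actR g x = x) : g = 1 := by
  apply Units.ext
  ext i j
  have h1 := congrFun (h (Pi.single j 1)) i
  unfold actR at h1
  rw [Matrix.mulVec_single_one] at h1
  have h2 : ((g.1 i j : ℤ) : ℝ) = ((1 : Matrix (Fin 7) (Fin 7) ℤ) i j : ℤ) := by
    have h3 : ((g.1 i j : ℤ) : ℝ) = (Pi.single j (1 : ℝ) : Fin 7 → ℝ) i := h1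
    rw [h3]
    by_cases hij : i = j
    · subst hij; simp
    · rw [Pi.single_eq_of_ne hij, Matrix.one_apply_ne hij]; simp
  exact_mod_cast h2

/-- `OG` membership unfolded -/
theorem mem_OG {G : Matrix (Fin 7) (Fin 7) ℤ} {h : Fin 7 → ℤ} {g : GL (Fin 7) ℤ} :
    g ∈ OG G h ↔ (g.1ᵀ * G * g.1 = G ∧ ∀ x, Fwd G h x ↔ Fwd G h (actR g x)) := by
  exact Iff.rfl

end RH6
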