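import Pool.Agent.RH6.W03

open Matrix

namespace RH6

/-- Basic estimate: a vector of positive norm orthogonal to a negative vector `z`. -/
theorem w04_est {G : Matrix (Fin 7) (Fin 7) ℤ} {h : Fin 7 → ℤ} (hL : Lor G h)
    {r z : Fin 7 → ℝ} (hr : 0 < bR G r r) (hz : bR G z z < 0) (hrz : bR G r z = 0) :
    bR G r (toR h) ^ 2 * (- bR G z z) ≤ bR G r r * bR G z (toR h) ^ 2 := by
  set x : Fin 7 → ℝ := ((- bR G z z) * bR G r r) • toR h + (bR G r r * bR G z (toR h)) • z -
    ((- bR G z z) * bR G r (toR h)) • r with hx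
  have hxz : bR G x z = 0 := by
    rw [hx, bR_sub_left, bR_add_left, bR_smul_left, bR_smul_left, bR_smul_left, hrz,
      bR_symm hL.symm (toR h) z]
    ring
  have hxx : 0 ≤ bR G x x := by
    by_cases h0 : x = 0
    · rw [h0, bR_zero_left]
    · exact (pos_of_orth hL hz hxz h0).le
  have hN : bR G (toR h) (toR h) < 0 := by
    rw [bR_toR]
    exact_mod_cast hL.neg
  have hval : bR G x x = (- bR G z z) * bR G r r * (- ((- bR G z z) * bR G r r *
      (- bR G (toR h) (toR h))) + bR G r r * bR G z (toR h) ^ 2 -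
      (- bR G z z) * bR G r (toR h) ^ 2) := by
    rw [hx, bR_sub_left, bR_add_left, bR_smul_left, bR_smul_left, bR_smul_left,
      bR_sub_right, bR_add_right, bR_smul_right, bR_smul_right, bR_smul_right,
      bR_sub_right, bR_add_right, bR_smul_right, bR_smul_right, bR_smul_right,
      bR_sub_right, bR_add_right, bR_smul_right, bR_smul_right, bR_smul_right,
      bR_symm hL.symm (toR h) z, bR_symm hL.symm (toR h) r, bR_symm hL.symm z r, hrz]
    ring
  have hq : 0 < - bR G z z := by linarith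
  have hpos : 0 < (- bR G z z) * bR G r r := mul_pos hq hr
  rw [hval] at hxx
  have h1 : 0 ≤ - ((- bR G z z) * bR G r r * (- bR G (toR h) (toR h))) +
      bR G r r * bR G z (toR h) ^ 2 - (- bR G z z) * bR G r (toR h) ^ 2 := by
    by_contra hcon
    have := mul_neg_of_pos_of_neg hpos (not_le.1 hcon)
    linarith
  have h2 : 0 ≤ (- bR G z z) * bR G r r * (- bR G (toR h) (toR h)) :=
    mul_nonneg hpos.le (by linarith)
  linarith

/-- Row [RH-W04]: only finitely many roots separate two forward vectors.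

Proof.  Put `H = toR h`.  First a basic estimate: let `r` be a root and `z` a forward vector with
`(r,z) = 0`.  Write `z = β H + z₀`, `r = α H + r₀` (`α = -(r,H)/N` etc., see W02).  Then
`αβN = (r₀,z₀)`, so `α²β²N² ≤ (r₀,r₀)(z₀,z₀)` with `(r₀,r₀) = (r,r) + α² N`.  Hence
`α² N (β² N - (z₀,z₀)) ≤ (r,r) (z₀,z₀)`, and `β² N - (z₀,z₀) = -(z,z) > 0`, i.e.
`(r,H)² · (-(z,z)) ≤ N (r,r)(z₀,z₀)` where `(z₀,z₀) = (z,z) + (z,H)²/N`.

Now let `0 ≤ (r,c)` and `(r,c') ≤ 0`.  Then there is `t ∈ [0,1]` with `(r, z) = 0` for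
`z = (1-t) c + t c'` (if `(r,c) = (r,c')` both are `0`, take `t = 0`; otherwise
`t = (r,c)/((r,c) - (r,c'))`).  Here `(z,z) ≤ max ...`: precisely, since `(c,c') < 0`,
`-(z,z) ≥ (1-t)² (-(c,c)) + t² (-(c',c')) ≥ m/2`, `m = min (-(c,c)) (-(c',c')) > 0` (as
`(1-t)² + t² ≥ 1/2`), and `(z,H)² ≤ M := max ((c,H)²) ((c',H)²)` (both products are negative).
So `(r,H)² ≤ (2/m) N (r,r) M/N = (2/m) (r,r) M`.  By `root_norm_dvd` (and `det_ne`)
`(r,r) ≤ 2 |det G|`.  So the norm and `(r,H)` are bounded and `finite_bounded` applies. -/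
theorem finite_sep {G : Matrix (Fin 7) (Fin 7) ℤ} {h : Fin 7 → ℤ} (hL : Lor G h)
    {c c' : Fin 7 → ℝ} (hc : Fwd G h c) (hc' : Fwd G h c') :
    {r : Fin 7 → ℤ | IsRoot G r ∧ 0 ≤ bR G (toR r) c ∧ bR G (toR r) c' ≤ 0}.Finite := by
  set a : ℝ := - bR G c c with ha
  set b : ℝ := - bR G c' c' with hb
  have ha0 : 0 < a := by have := hc.1; linarith
  have hb0 : 0 < b := by have := hc'.1; linarith
  set m : ℝ := min a b with hm
  have hm0 : 0 < m := lt_min ha0 hb0
  set B : ℝ := - bR G c (toR h) - bR G c' (toR h) with hB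
  have hcc' : bR G c c' < 0 := neg_of_fwd hL hc hc'
  set D : ℝ := 2 * |(G.det : ℝ)| with hD
  set K : ℝ := D * B ^ 2 * (2 / m) with hK
  refine (finite_bounded hL D (K + 1)).subset ?_
  rintro r ⟨hr, h1, h2⟩
  -- the norm of a root is bounded
  have hnorm : (bZ G r r : ℝ) ≤ D := by
    have h3 := root_norm_dvd hr
    have h4 : bZ G r r ≤ |2 * G.det| :=
      Int.le_of_dvd (abs_pos.2 (mul_ne_zero two_ne_zero (det_ne hL))) ((dvd_abs _ _).2 h3)
    calc (bZ G r r : ℝ) ≤ ((|2 * G.det| : ℤ) : ℝ) := by exact_mod_cast h4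
      _ = D := by
        rw [hD]
        push_cast
        rw [abs_mul, abs_two]
  have hrr : 0 < bR G (toR r) (toR r) := by
    rw [bR_toR]
    exact_mod_cast hr.pos
  -- the point of the segment on the hyperplane
  obtain ⟨t, ht0, ht1, ht⟩ : ∃ t : ℝ, 0 ≤ t ∧ t ≤ 1 ∧
      (1 - t) * bR G (toR r) c + t * bR G (toR r) c' = 0 := by
    by_cases heq : bR G (toR r) c - bR G (toR r) c' = 0
    · refine ⟨0, le_refl _, zero_le_one, ?_⟩
      have h5 : bR G (toR r) c = 0 := by linarith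
      rw [h5]; ring
    · have hpos : 0 < bR G (toR r) c - bR G (toR r) c' :=
        lt_of_le_of_ne (by linarith) (Ne.symm heq)
      refine ⟨bR G (toR r) c / (bR G (toR r) c - bR G (toR r) c'), div_nonneg h1 hpos.le, ?_, ?_⟩
      · rw [div_le_one hpos]; linarith
      · field_simp
        ring
  set z : Fin 7 → ℝ := (1 - t) • c + t • c' with hz
  have hrz : bR G (toR r) z = 0 := by
    rw [hz, bR_add_right, bR_smul_right, bR_smul_right]
    exact ht
  have hzz : m / 2 ≤ - bR G z z := by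
    have h5 : - bR G z z = (1 - t) ^ 2 * a + 2 * (t * (1 - t)) * (- bR G c c') + t ^ 2 * b := by
      rw [hz, bR_add_left, bR_add_right, bR_add_right, bR_smul_left, bR_smul_left, bR_smul_right,
        bR_smul_right, bR_smul_left, bR_smul_left, bR_smul_right, bR_smul_right,
        bR_symm hL.symm c' c, ha, hb]
      ring
    have h6 : 0 ≤ 2 * (t * (1 - t)) * (- bR G c c') :=
      mul_nonneg (mul_nonneg (by norm_num) (mul_nonneg ht0 (by linarith))) (by linarith)
    have h7 : (1 - t) ^ 2 * m ≤ (1 - t) ^ 2 * a :=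
      mul_le_mul_of_nonneg_left (min_le_left _ _) (sq_nonneg _)
    have h8 : t ^ 2 * m ≤ t ^ 2 * b := mul_le_mul_of_nonneg_left (min_le_right _ _) (sq_nonneg _)
    have h9 : 0 ≤ m * (2 * t - 1) ^ 2 := mul_nonneg hm0.le (sq_nonneg _)
    nlinarith
  have hz0 : bR G z z < 0 := by linarith
  have hest := w04_est hL hrr hz0 hrz
  have hzh : bR G z (toR h) ^ 2 ≤ B ^ 2 := by
    have h5 : bR G z (toR h) = (1 - t) * bR G c (toR h) + t * bR G c' (toR h) := by
      rw [hz, bR_add_left, bR_smul_left, bR_smul_left]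
    have h6 := hc.2
    have h7 := hc'.2
    have h8 : 0 ≤ (1 - t) * (- bR G c' (toR h)) := mul_nonneg (by linarith) (by linarith)
    have h9 : 0 ≤ t * (- bR G c (toR h)) := mul_nonneg ht0 (by linarith)
    have h10 : 0 ≤ (1 - t) * (- bR G c (toR h)) := mul_nonneg (by linarith) (by linarith)
    have h11 : 0 ≤ t * (- bR G c' (toR h)) := mul_nonneg ht0 (by linarith)
    apply sq_le_sq'
    · rw [h5, hB]; nlinarith
    · rw [h5, hB]; nlinarith
  have hfin : bR G (toR r) (toR h) ^ 2 ≤ K := by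
    have h5 : bR G (toR r) (toR h) ^ 2 * (m / 2) ≤ D * B ^ 2 := by
      calc bR G (toR r) (toR h) ^ 2 * (m / 2) ≤ bR G (toR r) (toR h) ^ 2 * (- bR G z z) :=
            mul_le_mul_of_nonneg_left hzz (sq_nonneg _)
        _ ≤ bR G (toR r) (toR r) * bR G z (toR h) ^ 2 := hest
        _ ≤ D * B ^ 2 := by
            refine mul_le_mul ?_ hzh (sq_nonneg _) (by positivity)
            rw [bR_toR]
            exact hnorm
    rw [hK, mul_div_assoc', le_div_iff₀ hm0]
    linarith
  refine ⟨hnorm, ?_⟩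
  have hK0 : 0 ≤ K := le_trans (sq_nonneg _) hfin
  apply abs_le_of_sq_le_sq _ (by linarith)
  calc bR G (toR r) (toR h) ^ 2 ≤ K := hfin
    _ ≤ (K + 1) ^ 2 := by nlinarith

/-- hence `Nset G c g` is finite for `g ∈ O'` -/
theorem finite_Nset {G : Matrix (Fin 7) (Fin 7) ℤ} {h : Fin 7 → ℤ} (hL : Lor G h)
    {c : Fin 7 → ℝ} (hc : Fwd G h c) {g : GL (Fin 7) ℤ} (hg : g ∈ OG G h) :
    (Nset G c g).Finite := by
  have hc' : Fwd G h (actR g c) := ((mem_OG.1 hg).2 c).1 hc
  refine (finite_sep hL hc hc').subset ?_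
  rintro r ⟨h1, h2, h3⟩
  exact ⟨h1, h2.le, h3.le⟩

end RH6
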