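import Pool.Agent.RH6.W04

open Matrix

namespace RH6

/-- Row [RH-W05]: the wall lemma.  If some root separates the generic forward vectors `c`, `c'`,
then some *simple* root (with respect to `c`) separates them.

Proof.  Let `S` be the (finite by `finite_sep`, nonempty) set of roots `r` with `(r,c) > 0` and
`(r,c') < 0`.  For `r ∈ S` put `ρ(r) = (r,c)/(-(r,c')) > 0` and `δ(r) = (r,c)²/(r,r) > 0`.
Choose `a ∈ S` with `ρ(a)` minimal and, among those with minimal `ρ`, with `δ(a)` minimal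
(e.g. apply `Set.exists_min_image` twice).  Claim: `a` is simple.

Suppose `b ≠ a` is a root with `(b,c) > 0` and `(a,a)(b,c) - 2(b,a)(a,c) ≤ 0`.  Put
`κ = 2(b,a)/(a,a)` (an integer, a real number > 0 because `(a,a)(b,c) > 0`, `(a,c) > 0`), and
`b' = κ a - b = -(s_a b)`; it is a root (`root_map`, `root_neg`, `refl_root`, `exists_refl`), with
`(b',b') = (b,b)` and `(b',c) = κ (a,c) - (b,c) ≥ 0`, so `(b',c) > 0` by genericity of `c`.
So `κ a = b + b'` with both `b, b'` positive on `c`.  As `(a,c') < 0`, at least one of `b,b'` is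
negative on `c'`; and neither product is `0` (genericity of `c'`).
* Case 1: exactly one, say `b₁ ∈ {b,b'}`, the other one `b₂` has `(b₂,c') > 0`.  Then
  `(b₁,c) < κ (a,c)` and `-(b₁,c') = κ(-(a,c')) + (b₂,c') > κ (-(a,c'))`, so `ρ(b₁) < ρ(a)`,
  contradiction.
* Case 2: both are in `S`.  Then `ρ(a) ((-(b,c')) + (-(b',c'))) = (b,c) + (b',c)`, and
  `ρ(b), ρ(b') ≥ ρ(a)` force `ρ(b) = ρ(b') = ρ(a)`.  By the second minimality
  `(b,c)² (a,a) ≥ (a,c)² (b,b)` and the same for `b'` (note `(b',b') = (b,b)`).  So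
  `κ (a,c) = (b,c) + (b',c) ≥ 2 (a,c) sqrt((b,b)/(a,a))`, i.e. `κ² (a,a) ≥ 4 (b,b)`, i.e.
  `(a,b)² ≥ (a,a)(b,b)`.
  On the other hand let `z = c + ρ(a) c'` (forward by `fwd_add`, `fwd_smul`).  Then
  `(a,z) = (a,c) + ρ(a)(a,c') = 0` and `(b,z) = 0`.  So for all real `t`, `b - t a` is orthogonal
  to `z` with `(z,z) < 0`; for `t = (a,b)/(a,a)` its norm is `(b,b) - (a,b)²/(a,a) ≤ 0`, so
  `b = t a` by `pos_of_orth`.  By `root_prop`, `b = a` or `b = -a`; the first is excluded and the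
  second contradicts `(b,c) > 0`. -/
theorem wall {G : Matrix (Fin 7) (Fin 7) ℤ} {h : Fin 7 → ℤ} (hL : Lor G h)
    {c c' : Fin 7 → ℝ} (hc : Fwd G h c) (hg : Gen G c) (hc' : Fwd G h c') (hg' : Gen G c')
    (hex : ∃ r, IsRoot G r ∧ 0 < bR G (toR r) c ∧ bR G (toR r) c' < 0) :
    ∃ a, Simple G c a ∧ bR G (toR a) c' < 0 := by
  classical
  set f : (Fin 7 → ℤ) → ℝ := fun r => bR G (toR r) c with hf
  set f' : (Fin 7 → ℤ) → ℝ := fun r => bR G (toR r) c' with hf'
  set q : (Fin 7 → ℤ) → ℝ := fun r => (bZ G r r : ℝ) with hq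
  set S : Set (Fin 7 → ℤ) := {r | IsRoot G r ∧ 0 < f r ∧ f' r < 0} with hS
  have hSfin : S.Finite :=
    (finite_sep hL hc hc').subset fun r hr => ⟨hr.1, hr.2.1.le, hr.2.2.le⟩
  have hSne : S.Nonempty := by
    obtain ⟨r, h1, h2, h3⟩ := hex
    exact ⟨r, h1, h2, h3⟩
  obtain ⟨a1, ha1, hmin1⟩ := Set.exists_min_image S (fun r => f r / (- f' r)) hSfin hSne
  set S' : Set (Fin 7 → ℤ) := {r | r ∈ S ∧ f r / (- f' r) = f a1 / (- f' a1)} with hS'
  have hS'fin : S'.Finite := hSfin.subset fun r hr => hr.1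
  obtain ⟨a, ha, hmin2⟩ := Set.exists_min_image S' (fun r => f r ^ 2 / q r) hS'fin
    ⟨a1, ha1, rfl⟩
  obtain ⟨⟨haR, hac, hac'⟩, hρa⟩ := ha
  refine ⟨a, ⟨haR, hac, ?_⟩, hac'⟩
  intro b hbR hbc hba
  by_contra hcon
  push Not at hcon
  have hqpos : ∀ r, IsRoot G r → 0 < q r := fun r hr => by
    simp only [hq]
    exact_mod_cast hr.pos
  have hqa := hqpos a haR
  have hqb := hqpos b hbR
  obtain ⟨k, hk⟩ := haR.dvd b
  have hkR : 2 * (bZ G b a : ℝ) = q a * k := by
    simp only [hq]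
    exact_mod_cast hk
  -- `f b ≤ k f a`
  have hfb : f b ≤ k * f a := by
    have h1 : q a * f b - 2 * (bZ G b a : ℝ) * f a ≤ 0 := hcon
    rw [hkR] at h1
    have h2 : q a * (f b - k * f a) ≤ 0 := by linarith
    have h3 : f b - k * f a ≤ 0 := by
      by_contra h4
      push Not at h4
      have := mul_pos hqa h4
      linarith
    linarith
  have hbc' : 0 < f b := hbc
  have hac1 : 0 < f a := hac
  have hac2 : f' a < 0 := hac'
  have hkpos : (0 : ℝ) < k := by
    by_contra h4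
    push Not at h4
    have : (k : ℝ) * f a ≤ 0 := mul_nonpos_of_nonpos_of_nonneg h4 hac1.le
    linarith
  -- the other root
  set b' : Fin 7 → ℤ := k • a - b with hb'
  obtain ⟨s, hs, hsr⟩ := exists_refl hL haR.pos haR.dvd
  have hsG := (mem_OG.mp hs).1
  have hsb : s.1 *ᵥ b = b - k • a := by
    rw [refl_root haR hsr, hk, Int.mul_ediv_cancel_left k haR.pos.ne']
  have hb'eq : b' = -(s.1 *ᵥ b) := by rw [hsb, hb']; abel
  have hb'R : IsRoot G b' := by
    rw [hb'eq]
    exact root_neg (root_map hsG hbR)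
  have hqb' : q b' = q b := by
    simp only [hq]
    rw [hb'eq, bZ_neg_left, bZ_neg_right, neg_neg, bZ_act hsG]
  have hfb' : f b' = k * f a - f b := by
    simp only [hf, hb']
    rw [toR_sub, toR_smul, bR_sub_left, bR_smul_left]
  have hf'b' : f' b' = k * f' a - f' b := by
    simp only [hf', hb']
    rw [toR_sub, toR_smul, bR_sub_left, bR_smul_left]
  have hb'c : 0 < f b' := by
    have h1 : f b' ≠ 0 := hg b' hb'R
    have h2 : 0 ≤ f b' := by rw [hfb']; linarith
    exact lt_of_le_of_ne h2 (Ne.symm h1)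
  have hf'b0 : f' b ≠ 0 := hg' b hbR
  have hf'b'0 : f' b' ≠ 0 := hg' b' hb'R
  have hρ : ∀ r ∈ S, f a * (- f' r) ≤ f r * (- f' a) := by
    intro r hr
    have h1 : f a1 / (- f' a1) ≤ f r / (- f' r) := hmin1 r hr
    rw [← hρa] at h1
    have h2 : 0 < - f' a := by linarith
    have h3 : 0 < - f' r := by linarith [hr.2.2]
    rwa [div_le_div_iff₀ h2 h3] at h1
  have hna : 0 < - f' a := by linarith
  rcases lt_or_gt_of_ne hf'b0 with h1 | h1 <;> rcases lt_or_gt_of_ne hf'b'0 with h2 | h2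
  · -- both are in `S`
    have hbS : b ∈ S := ⟨hbR, hbc', h1⟩
    have hb'S : b' ∈ S := ⟨hb'R, hb'c, h2⟩
    have e1 := hρ b hbS
    have e2 := hρ b' hb'S
    have e3 : f a * (- f' b) = f b * (- f' a) := by
      rw [hfb', hf'b'] at e2
      nlinarith
    have e4 : f a * (- f' b') = f b' * (- f' a) := by
      rw [hfb', hf'b']
      linarith
    have hmem : ∀ r ∈ S, f a * (- f' r) = f r * (- f' a) → r ∈ S' := by
      intro r hr he
      refine ⟨hr, ?_⟩
      rw [← hρa]
      have h3 : 0 < - f' r := by linarith [hr.2.2]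
      rw [div_eq_div_iff h3.ne' hna.ne']
      linarith
    have d1 : f a ^ 2 / q a ≤ f b ^ 2 / q b := hmin2 b (hmem b hbS e3)
    have d2 : f a ^ 2 / q a ≤ f b' ^ 2 / q b' := hmin2 b' (hmem b' hb'S e4)
    rw [hqb'] at d2
    rw [div_le_div_iff₀ hqa hqb] at d1 d2
    -- `k² (a,a) ≥ 4 (b,b)`
    have hk4 : 4 * q b ≤ (k : ℝ) ^ 2 * q a := by
      have h3 : ∀ x : ℝ, 0 < x → x ≤ k * f a / 2 → f a ^ 2 * q b ≤ x ^ 2 * q a →
          4 * q b ≤ (k : ℝ) ^ 2 * q a := by
        intro x hx0 hx1 hx2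
        have h4 : x ^ 2 ≤ (k * f a / 2) ^ 2 := pow_le_pow_left₀ hx0.le hx1 2
        have h5 : f a ^ 2 * q b ≤ (k * f a / 2) ^ 2 * q a :=
          hx2.trans (mul_le_mul_of_nonneg_right h4 hqa.le)
        have h6 : 0 < f a ^ 2 := by positivity
        have h7 : f a ^ 2 * (4 * q b) ≤ f a ^ 2 * ((k : ℝ) ^ 2 * q a) := by
          calc f a ^ 2 * (4 * q b) = 4 * (f a ^ 2 * q b) := by ring
            _ ≤ 4 * ((k * f a / 2) ^ 2 * q a) := by linarith
            _ = f a ^ 2 * ((k : ℝ) ^ 2 * q a) := by ring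
        exact le_of_mul_le_mul_left h7 h6
      rcases le_total (f b) (f b') with h4 | h4
      · exact h3 (f b) hbc' (by rw [hfb'] at h4; linarith) d1
      · exact h3 (f b') hb'c (by rw [hfb'] at h4 ⊢; linarith) d2
    -- the vector `z`
    set ρ : ℝ := f a / (- f' a) with hρdef
    have hρpos : 0 < ρ := div_pos hac1 hna
    set z : Fin 7 → ℝ := c + ρ • c' with hz
    have hzF : Fwd G h z := fwd_add hL hc (fwd_smul hρpos hc')
    have hzr : ∀ r, bR G (toR r) z = f r + ρ * f' r := by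
      intro r
      rw [hz, bR_add_right, bR_smul_right]
    have hρmul : ρ * (- f' a) = f a := div_mul_cancel₀ _ hna.ne'
    have hza : bR G (toR a) z = 0 := by
      rw [hzr]
      linarith
    have hzb : bR G (toR b) z = 0 := by
      rw [hzr]
      have h3 : (- f' a) * (f b + ρ * f' b) = 0 := by
        calc (- f' a) * (f b + ρ * f' b) = f b * (- f' a) + (ρ * (- f' a)) * f' b := by ring
          _ = 0 := by rw [hρmul, ← e3]; ring
      rcases mul_eq_zero.mp h3 with h4 | h4
      · exact absurd h4 hna.ne'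
      · exact h4
    set x : Fin 7 → ℝ := toR b - ((k : ℝ) / 2) • toR a with hx
    have hxz : bR G x z = 0 := by
      rw [hx, bR_sub_left, bR_smul_left, hza, hzb]; ring
    have hsymm : bZ G a b = bZ G b a := bZ_symm hL.symm a b
    have hxx : bR G x x = q b - (k : ℝ) ^ 2 * q a / 4 := by
      rw [hx, bR_sub_left, bR_smul_left, bR_sub_right, bR_sub_right, bR_smul_right,
        bR_smul_right, bR_toR, bR_toR, bR_toR, bR_toR, hsymm]
      have h3 : (bZ G b a : ℝ) = q a * k / 2 := by linarith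
      rw [h3]
      simp only [hq]
      ring
    have hx0 : x = 0 := by
      by_contra hne
      have h3 := pos_of_orth hL hzF.1 hxz hne
      rw [hxx] at h3
      linarith
    have hprop : toR b = ((k : ℝ) / 2) • toR a := by
      rw [hx] at hx0
      exact sub_eq_zero.mp hx0
    rcases root_prop hbR haR hprop with h3 | h3
    · exact hba h3
    · have h4 : f b = - f a := by
        simp only [hf, h3]
        rw [toR_neg, bR_neg_left]
      linarith
  · -- `b ∈ S`, `b'` positive on `c'`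
    have e1 := hρ b ⟨hbR, hbc', h1⟩
    have h3 : f b < k * f a := by rw [hfb'] at hb'c; linarith
    have h4 : k * (- f' a) < - f' b := by rw [hf'b'] at h2; linarith
    have h5 : f b * (- f' a) < (k * f a) * (- f' a) := mul_lt_mul_of_pos_right h3 hna
    have h6 : f a * (k * (- f' a)) < f a * (- f' b) := mul_lt_mul_of_pos_left h4 hac1
    linarith
  · -- `b' ∈ S`, `b` positive on `c'`
    have e1 := hρ b' ⟨hb'R, hb'c, h2⟩
    have h3 : f b' < k * f a := by rw [hfb']; linarith
    have h4 : k * (- f' a) < - f' b' := by rw [hf'b']; linarith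
    have h5 : f b' * (- f' a) < (k * f a) * (- f' a) := mul_lt_mul_of_pos_right h3 hna
    have h6 : f a * (k * (- f' a)) < f a * (- f' b') := mul_lt_mul_of_pos_left h4 hac1
    linarith
  · have h3 : (k : ℝ) * f' a < 0 := mul_neg_of_pos_of_neg hkpos hac2
    rw [hf'b'] at h2
    linarith

end RH6
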