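import Pool.Agent.RH6.W04

open Matrix

namespace RH6

/-!
Row [RH-W06]: length changes.  `c` is a generic forward vector, `a` a simple root, `s` the
reflection in `a`, `g ∈ O'`.  Basic facts: (i) `s` maps every root `b ≠ a` positive on `c` to a
root positive on `c` (this is the definition of `Simple`, with `refl_actR` and `bR_act_right`;
`s⁻¹ = s`), (ii) `(s b, c) = (b, s c)`.
-/

theorem w06_invol {G : Matrix (Fin 7) (Fin 7) ℤ} (hG : Gᵀ = G) {a : Fin 7 → ℤ}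
    (ha : IsRoot G a) {s : GL (Fin 7) ℤ} (hs : IsRefl G a s) (r : Fin 7 → ℤ) :
    s.1 *ᵥ (s.1 *ᵥ r) = r := by
  have h1 : s * s = 1 := refl_sq hG (ne_of_gt ha.pos) hs
  have h2 : s.1 * s.1 = 1 := by
    have h3 : (s * s).1 = s.1 * s.1 := rfl
    rw [← h3, h1]
    rfl
  rw [Matrix.mulVec_mulVec, h2, Matrix.one_mulVec]

theorem w06_inv {G : Matrix (Fin 7) (Fin 7) ℤ} (hG : Gᵀ = G) {a : Fin 7 → ℤ}
    (ha : IsRoot G a) {s : GL (Fin 7) ℤ} (hs : IsRefl G a s) : s⁻¹ = s :=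
  inv_eq_of_mul_eq_one_left (refl_sq hG (ne_of_gt ha.pos) hs)

theorem w06_self {G : Matrix (Fin 7) (Fin 7) ℤ} {a : Fin 7 → ℤ}
    (ha : IsRoot G a) {s : GL (Fin 7) ℤ} (hs : IsRefl G a s) : s.1 *ᵥ a = -a := by
  rw [refl_root ha hs (b := a), Int.mul_ediv_cancel _ (ne_of_gt ha.pos)]
  funext i
  simp only [Pi.sub_apply, Pi.smul_apply, Pi.neg_apply, smul_eq_mul]
  ring

/-- `(x, s g c) = (s x, g c)` -/
theorem w06_move {G : Matrix (Fin 7) (Fin 7) ℤ} {h : Fin 7 → ℤ} (hL : Lor G h)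
    {c : Fin 7 → ℝ} {a : Fin 7 → ℤ} (ha : IsRoot G a) {s : GL (Fin 7) ℤ} (hs : IsRefl G a s)
    (g : GL (Fin 7) ℤ) (r : Fin 7 → ℤ) :
    bR G (toR r) (actR (s * g) c) = bR G (toR (s.1 *ᵥ r)) (actR g c) := by
  have h1 := (mem_OG.mp (refl_mem_OG hL ha hs)).1
  rw [actR_mul, bR_act_right h1, w06_inv hL.symm ha hs, actR_toR]

/-- the reflection in a simple root permutes the other positive roots -/
theorem w06_pos {G : Matrix (Fin 7) (Fin 7) ℤ}
    {c : Fin 7 → ℝ} {a : Fin 7 → ℤ} (ha : Simple G c a)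
    {s : GL (Fin 7) ℤ} (hs : IsRefl G a s) {r : Fin 7 → ℤ} (hr : IsRoot G r)
    (hrc : 0 < bR G (toR r) c) (hra : r ≠ a) : 0 < bR G (toR (s.1 *ᵥ r)) c := by
  have h1 := refl_actR hs (toR r)
  have h2 := congrArg (fun v => bR G v c) h1
  simp only [bR_smul_left, bR_sub_left, actR_toR, bR_toR] at h2
  have h3 := ha.2.2 r hr hrc hra
  have h4 : (0 : ℝ) < (bZ G a a : ℝ) := by exact_mod_cast ha.1.pos
  rw [← h2] at h3
  exact (mul_pos_iff_of_pos_left h4).mp h3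

theorem w06_inv_mem {G : Matrix (Fin 7) (Fin 7) ℤ} {h : Fin 7 → ℤ}
    {c : Fin 7 → ℝ} {g : GL (Fin 7) ℤ} (hg : g ∈ OG G h) {r : Fin 7 → ℤ}
    (hr : r ∈ Nset G c g) : -((g⁻¹).1 *ᵥ r) ∈ Nset G c g⁻¹ := by
  obtain ⟨h1, h2, h3⟩ := hr
  have hi := (mem_OG.mp hg).1
  have hi' := (mem_OG.mp (inv_mem hg)).1
  refine ⟨root_neg (root_map hi' h1), ?_, ?_⟩
  · rw [bR_act_right hi, actR_toR] at h3
    rw [toR_neg, bR_neg_left]
    linarith
  · rw [toR_neg, bR_neg_left, ← actR_toR, bR_act hi']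
    linarith

/-- `Nset` is symmetric under inversion: `r ↦ -(g⁻¹ r)` is a bijection `Nset c g → Nset c g⁻¹`:
`(-(g⁻¹r), c) = -(r, g c) > 0`, `(-(g⁻¹r), g⁻¹c) = -(r,c) < 0`; the inverse map is
`r ↦ -(g r)`.  (`Set.ncard_congr` or `Set.ncard_image_of_injective`.) -/
theorem ncard_inv {G : Matrix (Fin 7) (Fin 7) ℤ} {h : Fin 7 → ℤ} (hL : Lor G h)
    {c : Fin 7 → ℝ} (hc : Fwd G h c) {g : GL (Fin 7) ℤ} (hg : g ∈ OG G h) :
    (Nset G c g⁻¹).ncard = (Nset G c g).ncard := by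
  have hmul : (g⁻¹).1 * g.1 = 1 := by
    have h3 : (g⁻¹ * g).1 = (g⁻¹).1 * g.1 := rfl
    rw [← h3, inv_mul_cancel]
    rfl
  have hmul' : g.1 * (g⁻¹).1 = 1 := by
    have h3 : (g * g⁻¹).1 = g.1 * (g⁻¹).1 := rfl
    rw [← h3, mul_inv_cancel]
    rfl
  have hcancel : ∀ r : Fin 7 → ℤ, (g⁻¹).1 *ᵥ (g.1 *ᵥ r) = r := fun r => by
    rw [Matrix.mulVec_mulVec, hmul, Matrix.one_mulVec]
  have hcancel' : ∀ r : Fin 7 → ℤ, g.1 *ᵥ ((g⁻¹).1 *ᵥ r) = r := fun r => by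
    rw [Matrix.mulVec_mulVec, hmul', Matrix.one_mulVec]
  have hinj : Function.Injective fun r : Fin 7 → ℤ => -((g⁻¹).1 *ᵥ r) := by
    intro r r' hrr
    have h1 : (g⁻¹).1 *ᵥ r = (g⁻¹).1 *ᵥ r' := neg_injective hrr
    rw [← hcancel' r, h1, hcancel']
  rw [← Set.ncard_image_of_injective (Nset G c g) hinj]
  congr 1
  ext r'
  constructor
  · intro hr'
    have h1 := w06_inv_mem (inv_mem hg) hr'
    rw [inv_inv] at h1
    refine ⟨-(g.1 *ᵥ r'), h1, ?_⟩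
    show -((g⁻¹).1 *ᵥ (-(g.1 *ᵥ r'))) = r'
    rw [Matrix.mulVec_neg, neg_neg, hcancel]
  · rintro ⟨r, hr, rfl⟩
    exact w06_inv_mem hg hr

/-- `r ∈ Nset c (s g)`, `r ≠ a` iff `s r ∈ Nset c g`, `s r ≠ a`:
for `r ≠ a` positive on `c` also `s r` is positive on `c` (and `s r ≠ a`, as `s a = -a` would give
`r = -a`); and `(r, s g c) = (s r, g c)`.  -/
theorem mem_Nset_mul {G : Matrix (Fin 7) (Fin 7) ℤ} {h : Fin 7 → ℤ} (hL : Lor G h)
    {c : Fin 7 → ℝ} (hc : Fwd G h c) (hgen : Gen G c) {a : Fin 7 → ℤ} (ha : Simple G c a)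
    {s : GL (Fin 7) ℤ} (hs : IsRefl G a s) {g : GL (Fin 7) ℤ} (hg : g ∈ OG G h)
    {r : Fin 7 → ℤ} (hra : r ≠ a) :
    r ∈ Nset G c (s * g) ↔ (s.1 *ᵥ r ∈ Nset G c g ∧ s.1 *ᵥ r ≠ a) := by
  have hi := (mem_OG.mp (refl_mem_OG hL ha.1 hs)).1
  constructor
  · rintro ⟨h1, h2, h3⟩
    refine ⟨⟨root_map hi h1, w06_pos ha hs h1 h2 hra, ?_⟩, ?_⟩
    · rw [← w06_move hL ha.1 hs]
      exact h3
    · intro hE
      have h4 : r = -a := by
        rw [← w06_invol hL.symm ha.1 hs r, hE, w06_self ha.1 hs]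
      rw [h4, toR_neg, bR_neg_left] at h2
      linarith [ha.2.1]
  · rintro ⟨⟨h1, h2, h3⟩, h4⟩
    have h5 := root_map hi h1
    have h6 := w06_pos ha hs h1 h2 h4
    rw [w06_invol hL.symm ha.1 hs r] at h5 h6
    refine ⟨h5, h6, ?_⟩
    rw [w06_move hL ha.1 hs]
    exact h3

/-- `a ∈ Nset c (s g)` iff `(a, g c) > 0`  (`(a, s g c) = (s a, g c) = -(a, g c)`) -/
theorem a_mem_Nset_mul {G : Matrix (Fin 7) (Fin 7) ℤ} {h : Fin 7 → ℤ} (hL : Lor G h)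
    {c : Fin 7 → ℝ} {a : Fin 7 → ℤ} (ha : Simple G c a)
    {s : GL (Fin 7) ℤ} (hs : IsRefl G a s) {g : GL (Fin 7) ℤ} (hg : g ∈ OG G h) :
    a ∈ Nset G c (s * g) ↔ 0 < bR G (toR a) (actR g c) := by
  have h1 : bR G (toR a) (actR (s * g) c) = -bR G (toR a) (actR g c) := by
    rw [w06_move hL ha.1 hs, w06_self ha.1 hs, toR_neg, bR_neg_left]
  constructor
  · rintro ⟨_, _, h3⟩
    rw [h1] at h3
    linarith
  · intro h2
    refine ⟨ha.1, ha.2.1, ?_⟩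
    rw [h1]
    linarith

/-- if `(a, g c) > 0` then `|N(s g)| = |N(g)| + 1`: `N(g)` does not contain `a`, `N(s g)` is the
disjoint union of `{a}` and the image of `N(g)` under the injective map `r ↦ s r`
(`mem_Nset_mul`, `a_mem_Nset_mul`, `finite_Nset`). -/
theorem ncard_up {G : Matrix (Fin 7) (Fin 7) ℤ} {h : Fin 7 → ℤ} (hL : Lor G h)
    {c : Fin 7 → ℝ} (hc : Fwd G h c) (hgen : Gen G c) {a : Fin 7 → ℤ} (ha : Simple G c a)
    {s : GL (Fin 7) ℤ} (hs : IsRefl G a s) {g : GL (Fin 7) ℤ} (hg : g ∈ OG G h)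
    (hpos : 0 < bR G (toR a) (actR g c)) :
    (Nset G c (s * g)).ncard = (Nset G c g).ncard + 1 := by
  have hinj : Function.Injective fun r : Fin 7 → ℤ => s.1 *ᵥ r := by
    intro r r' hrr
    have h1 : s.1 *ᵥ r = s.1 *ᵥ r' := hrr
    rw [← w06_invol hL.symm ha.1 hs r, h1, w06_invol hL.symm ha.1 hs]
  have haN : a ∉ Nset G c g := fun h1 => by
    have h2 := h1.2.2
    linarith
  have hna : ∀ r ∈ Nset G c g, s.1 *ᵥ r ≠ a := by
    intro r hr hE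
    have h4 : r = -a := by
      rw [← w06_invol hL.symm ha.1 hs r, hE, w06_self ha.1 hs]
    have h5 := hr.2.1
    rw [h4, toR_neg, bR_neg_left] at h5
    linarith [ha.2.1]
  have hset : Nset G c (s * g) = insert a ((fun r : Fin 7 → ℤ => s.1 *ᵥ r) '' Nset G c g) := by
    ext r
    rw [Set.mem_insert_iff]
    constructor
    · intro hr
      by_cases hra : r = a
      · exact Or.inl hra
      · right
        have h1 := (mem_Nset_mul hL hc hgen ha hs hg hra).mp hr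
        exact ⟨s.1 *ᵥ r, h1.1, w06_invol hL.symm ha.1 hs r⟩
    · rintro (hra | ⟨r', hr', hE⟩)
      · rw [hra]
        exact (a_mem_Nset_mul hL ha hs hg).mpr hpos
      · have hE' : s.1 *ᵥ r' = r := hE
        have hra : r ≠ a := by
          rw [← hE']
          exact hna r' hr'
        rw [mem_Nset_mul hL hc hgen ha hs hg hra, ← hE', w06_invol hL.symm ha.1 hs r']
        refine ⟨hr', fun h1 => haN ?_⟩
        rw [← h1]
        exact hr'
  have hfin : ((fun r : Fin 7 → ℤ => s.1 *ᵥ r) '' Nset G c g).Finite :=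
    (finite_Nset hL hc hg).image _
  rw [hset, Set.ncard_insert_of_notMem _ hfin, Set.ncard_image_of_injective _ hinj]
  rintro ⟨r', hr', hE⟩
  exact hna r' hr' hE

/-- if `(a, g c) < 0` then `|N(g)| = |N(s g)| + 1` (apply `ncard_up` to `s * g`, using `s * s = 1`
and `(a, s g c) = -(a, g c) > 0`). -/
theorem ncard_down {G : Matrix (Fin 7) (Fin 7) ℤ} {h : Fin 7 → ℤ} (hL : Lor G h)
    {c : Fin 7 → ℝ} (hc : Fwd G h c) (hgen : Gen G c) {a : Fin 7 → ℤ} (ha : Simple G c a)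
    {s : GL (Fin 7) ℤ} (hs : IsRefl G a s) {g : GL (Fin 7) ℤ} (hg : g ∈ OG G h)
    (hneg : bR G (toR a) (actR g c) < 0) :
    (Nset G c g).ncard = (Nset G c (s * g)).ncard + 1 := by
  have hsg : s * g ∈ OG G h := mul_mem (refl_mem_OG hL ha.1 hs) hg
  have hpos : 0 < bR G (toR a) (actR (s * g) c) := by
    rw [w06_move hL ha.1 hs, w06_self ha.1 hs, toR_neg, bR_neg_left]
    linarith
  have h1 := ncard_up hL hc hgen ha hs hsg hpos
  rw [← mul_assoc, refl_sq hL.symm (ne_of_gt ha.1.pos) hs, one_mul] at h1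
  exact h1

end RH6
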