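import Pool.Agent.RH6.W05
import Pool.Agent.RH6.W06

open Matrix

namespace RH6

theorem w07_refl_neg {G : Matrix (Fin 7) (Fin 7) ℤ} {r : Fin 7 → ℤ} {s : GL (Fin 7) ℤ}
    (hs : IsRefl G r s) : IsRefl G (-r) s := by
  intro x
  have h1 := hs x
  rw [bZ_neg_left, bZ_neg_right, bZ_neg_right, neg_neg, h1, mul_neg, neg_smul_neg]

/-- `(x, s c) = (s x, c)` -/
theorem w07_move {G : Matrix (Fin 7) (Fin 7) ℤ} {h : Fin 7 → ℤ} (hL : Lor G h)
    {c : Fin 7 → ℝ} {a : Fin 7 → ℤ} (ha : IsRoot G a) {s : GL (Fin 7) ℤ} (hs : IsRefl G a s)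
    (r : Fin 7 → ℤ) : bR G (toR r) (actR s c) = bR G (toR (s.1 *ᵥ r)) c := by
  have h1 := (mem_OG.mp (refl_mem_OG hL ha hs)).1
  rw [bR_act_right h1, w06_inv hL.symm ha hs, actR_toR]

theorem w07_step {G : Matrix (Fin 7) (Fin 7) ℤ} {h : Fin 7 → ℤ} (hL : Lor G h)
    {c : Fin 7 → ℝ} (hc : Fwd G h c) (hgen : Gen G c) {a r : Fin 7 → ℤ} (ha : Simple G c a)
    (hr : IsRoot G r) (hrc : 0 < bR G (toR r) c) (hra : r ≠ a) {s t : GL (Fin 7) ℤ}
    (hs : IsRefl G r s) (ht : IsRefl G a t) (hac : bR G (toR a) (actR s c) < 0) :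
    (Nset G c (t * s * t⁻¹)).ncard < (Nset G c s).ncard := by
  have hsO := refl_mem_OG hL hr hs
  have htO := refl_mem_OG hL ha.1 ht
  have hti := w06_inv hL.symm ha.1 ht
  have hsi := w06_inv hL.symm hr hs
  have h1 := ncard_down hL hc hgen ha ht hsO hac
  have hr'c : 0 < bR G (toR (t.1 *ᵥ r)) c := w06_pos ha ht hr hrc hra
  have h2 : bR G (toR a) (actR (s * t) c) < 0 := by
    rw [w06_move hL hr hs, w07_move hL ha.1 ht]
    have h3 : s.1 *ᵥ a = a - (2 * bZ G a r / bZ G r r) • r := refl_root hr hs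
    obtain ⟨κ, hκ⟩ : ∃ κ : ℤ, κ = 2 * bZ G a r / bZ G r r := ⟨_, rfl⟩
    rw [← hκ] at h3
    rw [w07_move hL hr hs, h3, toR_sub, toR_smul, bR_sub_left, bR_smul_left] at hac
    have h4 := ha.2.1
    have hκ0 : (0 : ℝ) < (κ : ℝ) := by
      have h5 : 0 < (κ : ℝ) * bR G (toR r) c := by linarith
      exact (mul_pos_iff_of_pos_right hrc).mp h5
    rw [h3, Matrix.mulVec_sub, Matrix.mulVec_smul, w06_self ha.1 ht, toR_sub, toR_neg, toR_smul,
      bR_sub_left, bR_neg_left, bR_smul_left]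
    have h6 : 0 < (κ : ℝ) * bR G (toR (t.1 *ᵥ r)) c := mul_pos hκ0 hr'c
    linarith
  have h3 := ncard_down hL hc hgen ha ht (mul_mem hsO htO) h2
  have h4 := ncard_inv hL hc (mul_mem htO hsO)
  have h5 : (t * s)⁻¹ = s * t := by rw [_root_.mul_inv_rev, hti, hsi]
  rw [h5] at h4
  have h6 : t * s * t⁻¹ = t * (s * t) := by rw [hti, mul_assoc]
  rw [h6]
  omega

theorem w07_claim {G : Matrix (Fin 7) (Fin 7) ℤ} {h : Fin 7 → ℤ} (hL : Lor G h)
    {c : Fin 7 → ℝ} (hc : Fwd G h c) (hgen : Gen G c) (n : ℕ) :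
    ∀ (r : Fin 7 → ℤ) (s : GL (Fin 7) ℤ), IsRoot G r → 0 < bR G (toR r) c → IsRefl G r s →
      (Nset G c s).ncard = n →
      s ∈ Subgroup.closure {g : GL (Fin 7) ℤ | ∃ a, Simple G c a ∧ IsRefl G a g} := by
  induction n using Nat.strong_induction_on with
  | _ n ih =>
    intro r s hr hrc hs hn
    have hsO := refl_mem_OG hL hr hs
    have hsm := mem_OG.mp hsO
    have hc' : Fwd G h (actR s c) := (hsm.2 c).mp hc
    have hgen' : Gen G (actR s c) := by
      intro r' hr'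
      rw [w07_move hL hr hs]
      exact hgen _ (root_map hsm.1 hr')
    have hneg : bR G (toR r) (actR s c) < 0 := by
      rw [w07_move hL hr hs, w06_self hr hs, toR_neg, bR_neg_left]
      linarith
    obtain ⟨a, ha, hac⟩ := wall hL hc hgen hc' hgen' ⟨r, hr, hrc, hneg⟩
    by_cases hra : r = a
    · apply Subgroup.subset_closure
      rw [← hra] at ha
      exact ⟨r, ha, hs⟩
    · obtain ⟨t, htO, ht⟩ := exists_refl hL ha.1.pos ha.1.dvd
      have hlt := w07_step hL hc hgen ha hr hrc hra hs ht hac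
      have hr' : IsRoot G (t.1 *ᵥ r) := root_map (mem_OG.mp htO).1 hr
      have hr'c : 0 < bR G (toR (t.1 *ᵥ r)) c := w06_pos ha ht hr hrc hra
      have hconj : IsRefl G (t.1 *ᵥ r) (t * s * t⁻¹) := refl_conj (mem_OG.mp htO).1 hs
      have h1 := ih _ (hn ▸ hlt) _ _ hr' hr'c hconj rfl
      have h2 : t ∈ Subgroup.closure {g : GL (Fin 7) ℤ | ∃ a, Simple G c a ∧ IsRefl G a g} :=
        Subgroup.subset_closure ⟨a, ha, ht⟩
      have h3 : s = t⁻¹ * (t * s * t⁻¹) * t := by group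
      rw [h3]
      exact mul_mem (mul_mem (inv_mem h2) h1) h2

/-- Row [RH-W07]: the reflection in any root is a product of reflections in simple roots.

Proof.  Let `W' = Subgroup.closure {g | ∃ a, Simple G c a ∧ IsRefl G a g}`.  It is enough to
treat roots `r` positive on `c` (the reflections in `r` and `-r` are equal, `Gen G c`).  Induct
strongly on `|N(s_r)| := (Nset G c s_r).ncard`.  `r ∈ N(s_r)` because `(r, s_r c) = -(r,c) < 0`.
By `wall` (with `c' = s_r c`, which is forward and generic: roots are permuted by `s_r`) there is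
a simple `a` with `(a, s_r c) < 0`.  If `a = r` we are done.  Let `s` be the reflection in `a`
(`exists_refl`), `r' = s r` (a root positive on `c`, as `r ≠ a`), and `s_{r'} = s s_r s`
(`refl_conj`).  Claim `|N(s_{r'})| < |N(s_r)|`; then `s_{r'} ∈ W'` by induction and
`s_r = s s_{r'} s ∈ W'`.
Proof of the claim: `|N(s s_r)| = |N(s_r)| - 1` by `ncard_down`.  Put `g = s s_r`, `g⁻¹ = s_r s`.
We have `(a, g⁻¹ c) = (a, s_r s c) = (s s_r a, c) < 0`: indeed `(s_r a, c) = (a, s_r c) < 0` and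
`s_r a = a - κ r`, `κ = 2(a,r)/(r,r)`, so `κ > 0`, and `s s_r a = s a - κ s r = -a - κ r'` has
negative product with `c`.  By `ncard_down` for `g⁻¹`: `|N(s g⁻¹)| = |N(g⁻¹)| - 1`, and
`s g⁻¹ = s s_r s = s_{r'}`.  With `ncard_inv`, `|N(s_{r'})| = |N(g⁻¹)| - 1 = |N(g)| - 1
= |N(s_r)| - 2`. -/
theorem refl_mem_simple {G : Matrix (Fin 7) (Fin 7) ℤ} {h : Fin 7 → ℤ} (hL : Lor G h)
    {c : Fin 7 → ℝ} (hc : Fwd G h c) (hgen : Gen G c) {r : Fin 7 → ℤ} (hr : IsRoot G r)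
    {s : GL (Fin 7) ℤ} (hs : IsRefl G r s) :
    s ∈ Subgroup.closure {g : GL (Fin 7) ℤ | ∃ a, Simple G c a ∧ IsRefl G a g} := by
  rcases lt_or_gt_of_ne (hgen r hr) with h1 | h1
  · have h2 : 0 < bR G (toR (-r)) c := by
      rw [toR_neg, bR_neg_left]
      linarith
    exact w07_claim hL hc hgen _ (-r) s (root_neg hr) h2 (w07_refl_neg hs) rfl
  · exact w07_claim hL hc hgen _ r s hr h1 hs rfl

end RH6
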