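import Pool.Agent.RH6.W07

open Matrix

namespace RH6

theorem w08_Nset_one (G : Matrix (Fin 7) (Fin 7) ℤ) (c : Fin 7 → ℝ) : Nset G c 1 = ∅ := by
  ext r
  simp only [Nset, Set.mem_ofPred_eq, Set.mem_empty_iff_false, iff_false, not_and, actR_one]
  intro _ h1 h2
  exact lt_asymm h1 h2

theorem w08_prod_mem {G : Matrix (Fin 7) (Fin 7) ℤ} {h : Fin 7 → ℤ} (hL : Lor G h)
    {c : Fin 7 → ℝ} (l : List ((Fin 7 → ℤ) × GL (Fin 7) ℤ))
    (hl : ∀ p ∈ l, Simple G c p.1 ∧ IsRefl G p.1 p.2) : (l.map Prod.snd).prod ∈ OG G h := by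
  induction l with
  | nil => exact one_mem _
  | cons x l ih =>
    rw [List.map_cons, List.prod_cons]
    refine mul_mem ?_ (ih fun p hp => hl p (List.mem_cons_of_mem _ hp))
    have hx := hl x List.mem_cons_self
    exact refl_mem_OG hL hx.1.1 hx.2

theorem w08_mul_mulVec (g g' : GL (Fin 7) ℤ) (x : Fin 7 → ℤ) :
    (g * g').1 *ᵥ x = g.1 *ᵥ (g'.1 *ᵥ x) := by
  rw [Matrix.mulVec_mulVec]
  rfl

theorem w08_one_mulVec (x : Fin 7 → ℤ) : (1 : GL (Fin 7) ℤ).1 *ᵥ x = x := by
  have h : (1 : GL (Fin 7) ℤ).1 = 1 := rfl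
  rw [h, Matrix.one_mulVec]

theorem w08_exch {G : Matrix (Fin 7) (Fin 7) ℤ} {h : Fin 7 → ℤ} (hL : Lor G h)
    {c : Fin 7 → ℝ} (hc : Fwd G h c) (hgen : Gen G c)
    (l : List ((Fin 7 → ℤ) × GL (Fin 7) ℤ)) (hl : ∀ p ∈ l, Simple G c p.1 ∧ IsRefl G p.1 p.2) :
    ∀ r ∈ Nset G c (l.map Prod.snd).prod, ∃ (l₁ : List ((Fin 7 → ℤ) × GL (Fin 7) ℤ))
      (a : Fin 7 → ℤ) (s : GL (Fin 7) ℤ) (l₂ : List ((Fin 7 → ℤ) × GL (Fin 7) ℤ)),
      l = l₁ ++ (a, s) :: l₂ ∧ r = ((l₁.map Prod.snd).prod).1 *ᵥ a := by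
  induction l with
  | nil =>
    intro r hr
    rw [List.map_nil, List.prod_nil, w08_Nset_one] at hr
    exact absurd hr (Set.notMem_empty r)
  | cons x l ih =>
    intro r hr
    rw [List.map_cons, List.prod_cons] at hr
    have hx := hl x List.mem_cons_self
    have hl' : ∀ p ∈ l, Simple G c p.1 ∧ IsRefl G p.1 p.2 :=
      fun p hp => hl p (List.mem_cons_of_mem _ hp)
    by_cases hra : r = x.1
    · refine ⟨[], x.1, x.2, l, rfl, ?_⟩
      rw [List.map_nil, List.prod_nil, w08_one_mulVec, hra]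
    · have h1 := (mem_Nset_mul hL hc hgen hx.1 hx.2 (w08_prod_mem hL l hl') hra).1 hr
      obtain ⟨l₁, a, s, l₂, he, hr2⟩ := ih hl' _ h1.1
      refine ⟨x :: l₁, a, s, l₂, by rw [he, List.cons_append], ?_⟩
      rw [List.map_cons, List.prod_cons, w08_mul_mulVec, ← hr2, ← w08_mul_mulVec,
        refl_sq hL.symm hx.1.1.pos.ne' hx.2, w08_one_mulVec]

/-- Row [RH-W08]: deletion.  `l` is a list of pairs (simple root, its reflection).  Either the
product `w` of the reflections has `|N(w)| = l.length`, or there is such a list with two entries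
fewer and the same product.

Proof.  First (*): for every such list, every `r ∈ N(s₁ ⋯ s_m)` is of the form
`r = s₁ ⋯ s_{i-1} a_i` for some `i`; more precisely there are a prefix and a suffix
`l = l₁ ++ (a,s) :: l₂` with `r = (prod l₁) a`.  Induction on `m` by `mem_Nset_mul` (either
`r = a₁`, take `l₁ = []`, or `s₁ r ∈ N(s₂ ⋯ s_m)`, `s₁ r = (prod l₁') a`, so
`r = s₁ (prod l₁') a`); for `m = 0`, `N(1) = ∅`.
Main proof: induction on `l`.  `l = []`: `N(1) = ∅`.  `l = (a₁,s₁) :: l'`, `w' = prod l'`.  If `l'`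
can be shortened, so can `l`.  Otherwise `|N(w')| = l'.length`.  If `(a₁, w' c) > 0`, then
`|N(w)| = l.length` by `ncard_up`.  Otherwise `(a₁, w' c) < 0` (genericity: `w' c` is generic),
so `a₁ ∈ N(w')` and by (*) `l' = l₁ ++ (a,s) :: l₂`, `a₁ = p a` with `p = prod l₁`.  Then
`s₁ = p s p⁻¹` (`refl_conj`, `refl_unique`) and `w = s₁ p s (prod l₂) = p s p⁻¹ p s (prod l₂)
= p (prod l₂)`; the list `l₁ ++ l₂` has two entries fewer than `l`. -/
theorem deletion {G : Matrix (Fin 7) (Fin 7) ℤ} {h : Fin 7 → ℤ} (hL : Lor G h)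
    {c : Fin 7 → ℝ} (hc : Fwd G h c) (hgen : Gen G c)
    (l : List ((Fin 7 → ℤ) × GL (Fin 7) ℤ)) (hl : ∀ p ∈ l, Simple G c p.1 ∧ IsRefl G p.1 p.2) :
    (Nset G c (l.map Prod.snd).prod).ncard = l.length ∨
    ∃ l' : List ((Fin 7 → ℤ) × GL (Fin 7) ℤ), (∀ p ∈ l', Simple G c p.1 ∧ IsRefl G p.1 p.2) ∧
      (l'.map Prod.snd).prod = (l.map Prod.snd).prod ∧ l'.length + 2 = l.length := by
  induction l with
  | nil =>
    left
    rw [List.map_nil, List.prod_nil, w08_Nset_one, Set.ncard_empty, List.length_nil]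
  | cons x l ih =>
    have hx := hl x List.mem_cons_self
    have hl' : ∀ p ∈ l, Simple G c p.1 ∧ IsRefl G p.1 p.2 :=
      fun p hp => hl p (List.mem_cons_of_mem _ hp)
    have hmem := w08_prod_mem hL l hl'
    rcases ih hl' with h1 | ⟨l', h1, h2, h3⟩
    · have hroot : IsRoot G ((((l.map Prod.snd).prod)⁻¹).1 *ᵥ x.1) :=
        root_map ((mem_OG.1 (inv_mem hmem)).1) hx.1.1
      have hne : bR G (toR x.1) (actR (l.map Prod.snd).prod c) ≠ 0 := by
        rw [bR_act_right (mem_OG.1 hmem).1, actR_toR]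
        exact hgen _ hroot
      rcases lt_or_gt_of_ne hne with h4 | h4
      · right
        have h5 : x.1 ∈ Nset G c (l.map Prod.snd).prod := ⟨hx.1.1, hx.1.2.1, h4⟩
        obtain ⟨l₁, a, s, l₂, he, hr⟩ := w08_exch hL hc hgen l hl' _ h5
        have has : Simple G c a ∧ IsRefl G a s := hl' (a, s) (by rw [he]; simp)
        have hl₁ : ∀ p ∈ l₁, Simple G c p.1 ∧ IsRefl G p.1 p.2 :=
          fun p hp => hl' p (by rw [he]; simp [hp])
        have hl₂ : ∀ p ∈ l₂, Simple G c p.1 ∧ IsRefl G p.1 p.2 :=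
          fun p hp => hl' p (by rw [he]; simp [hp])
        have hp := (mem_OG.1 (w08_prod_mem hL l₁ hl₁)).1
        have h6 := refl_conj hp has.2
        rw [← hr] at h6
        have h7 := refl_unique hx.1.1.pos.ne' hx.2 h6
        refine ⟨l₁ ++ l₂, ?_, ?_, ?_⟩
        · intro p hp
          rcases List.mem_append.1 hp with hp | hp
          · exact hl₁ p hp
          · exact hl₂ p hp
        · rw [List.map_cons, List.prod_cons, he]
          simp only [List.map_append, List.prod_append, List.map_cons, List.prod_cons]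
          rw [h7]
          have hss := refl_sq hL.symm has.1.1.pos.ne' has.2
          calc (l₁.map Prod.snd).prod * (l₂.map Prod.snd).prod
              = (l₁.map Prod.snd).prod * (s * s) * (l₂.map Prod.snd).prod := by
                rw [hss, mul_one]
            _ = (l₁.map Prod.snd).prod * s * ((l₁.map Prod.snd).prod)⁻¹ *
                ((l₁.map Prod.snd).prod * (s * (l₂.map Prod.snd).prod)) := by group
        · rw [he]
          simp only [List.length_append, List.length_cons]
          omega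
      · left
        rw [List.map_cons, List.prod_cons, ncard_up hL hc hgen hx.1 hx.2 hmem h4, h1,
          List.length_cons]
    · right
      refine ⟨x :: l', ?_, ?_, ?_⟩
      · intro p hp
        rcases List.mem_cons.1 hp with hp | hp
        · rw [hp]; exact hx
        · exact h1 p hp
      · rw [List.map_cons, List.prod_cons, List.map_cons, List.prod_cons, h2]
      · simp only [List.length_cons]
        omega

/-- elements of the group generated by the simple reflections are products of lists -/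
theorem w08_list {G : Matrix (Fin 7) (Fin 7) ℤ} (hG : Gᵀ = G) {c : Fin 7 → ℝ} {w : GL (Fin 7) ℤ}
    (hw : w ∈ Subgroup.closure {g : GL (Fin 7) ℤ | ∃ a, Simple G c a ∧ IsRefl G a g}) :
    ∃ l : List ((Fin 7 → ℤ) × GL (Fin 7) ℤ), (∀ p ∈ l, Simple G c p.1 ∧ IsRefl G p.1 p.2) ∧
      (l.map Prod.snd).prod = w := by
  induction hw using Subgroup.closure_induction with
  | mem g hg =>
    obtain ⟨a, ha, hg⟩ := hg
    refine ⟨[(a, g)], ?_, by simp⟩
    intro p hp
    rw [List.mem_singleton] at hp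
    rw [hp]
    exact ⟨ha, hg⟩
  | one => exact ⟨[], by simp, by simp⟩
  | mul x y _ _ hx hy =>
    obtain ⟨l, hl, hx⟩ := hx
    obtain ⟨l', hl', hy⟩ := hy
    refine ⟨l ++ l', ?_, by rw [List.map_append, List.prod_append, hx, hy]⟩
    intro p hp
    rcases List.mem_append.1 hp with hp | hp
    · exact hl p hp
    · exact hl' p hp
  | inv x _ hx =>
    obtain ⟨l, hl, hx⟩ := hx
    have key : ∀ l : List ((Fin 7 → ℤ) × GL (Fin 7) ℤ),
        (∀ p ∈ l, Simple G c p.1 ∧ IsRefl G p.1 p.2) →
        (l.reverse.map Prod.snd).prod = ((l.map Prod.snd).prod)⁻¹ := by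
      intro l
      induction l with
      | nil => intro _; simp
      | cons y l ih =>
        intro hl
        have hy := hl y List.mem_cons_self
        have h1 : y.2⁻¹ = y.2 := inv_eq_of_mul_eq_one_right (refl_sq hG hy.1.1.pos.ne' hy.2)
        rw [List.reverse_cons, List.map_append, List.prod_append,
          ih fun p hp => hl p (List.mem_cons_of_mem _ hp), List.map_cons, List.prod_cons,
          List.map_nil, List.prod_nil, mul_one, List.map_cons, List.prod_cons, _root_.mul_inv_rev, h1]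
    refine ⟨l.reverse, fun p hp => hl p (List.mem_reverse.1 hp), ?_⟩
    rw [key l hl, hx]

/-- Row [RH-W08]: `W(G)` acts freely on chambers.

Proof.  By `refl_mem_simple` (closure induction; inverses of reflections are reflections) `w` is
the product of a list as in `deletion`.  Choose such a list of minimal length.  By `deletion` its
length is `|N(w)|`, and `N(w) = ∅` by `hN`.  So the list is empty and `w = 1`. -/
theorem free_chambers {G : Matrix (Fin 7) (Fin 7) ℤ} {h : Fin 7 → ℤ} (hL : Lor G h)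
    {c : Fin 7 → ℝ} (hc : Fwd G h c) (hgen : Gen G c) {w : GL (Fin 7) ℤ} (hw : w ∈ WG G)
    (hN : ∀ r, IsRoot G r → 0 < bR G (toR r) c → 0 < bR G (toR r) (actR w c)) : w = 1 := by
  have hle : WG G ≤ Subgroup.closure {g : GL (Fin 7) ℤ | ∃ a, Simple G c a ∧ IsRefl G a g} := by
    rw [WG, Subgroup.closure_le]
    rintro g ⟨r, hr, hg⟩
    exact refl_mem_simple hL hc hgen hr hg
  have hempty : Nset G c w = ∅ := by
    ext r
    simp only [Nset, Set.mem_ofPred_eq, Set.mem_empty_iff_false, iff_false, not_and]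
    intro h1 h2 h3
    exact lt_asymm (hN r h1 h2) h3
  obtain ⟨l, hl, hlw⟩ := w08_list hL.symm (hle hw)
  have key : ∀ n : ℕ, ∀ l : List ((Fin 7 → ℤ) × GL (Fin 7) ℤ), l.length = n →
      (∀ p ∈ l, Simple G c p.1 ∧ IsRefl G p.1 p.2) → (l.map Prod.snd).prod = w → w = 1 := by
    intro n
    induction n using Nat.strong_induction_on with
    | _ n ih =>
      intro l hn hl hlw
      rcases deletion hL hc hgen l hl with h1 | ⟨l', h1, h2, h3⟩
      · rw [hlw, hempty, Set.ncard_empty] at h1
        have h4 : l = [] := List.length_eq_zero_iff.1 h1.symm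
        rw [← hlw, h4]
        rfl
      · exact ih l'.length (by omega) l' rfl h1 (h2.trans hlw)
  exact key _ l rfl hl hlw

end RH6
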