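import Pool.Agent.RH6.YDef
import Pool.Agent.RH6.W09

open Matrix

namespace RH6

/-- Row [RH-Y1] -/
theorem StepX.trans {G : Matrix (Fin 7) (Fin 7) ℤ} {x η x' η' x'' η'' : Fin 7 → ℤ}
    (h : StepX G x η x' η') (h' : StepX G x' η' x'' η'') : StepX G x η x'' η'' :=
  ⟨h.gen, fun r hr hp => h'.step r hr (h.step r hr hp)⟩

/-- Row [RH-Y1]: an integral isometry mapping `h` to a vector `g h` with `(g h, h) < 0` preserves the
forward cone (for `x` forward: `(g x, g x) < 0`, `(g x, g h) = (x,h) < 0`; `fwd_of_neg`; conversely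
use `(x,h) = (gx, gh)`). -/
theorem mem_OG_of {G : Matrix (Fin 7) (Fin 7) ℤ} {h : Fin 7 → ℤ} (hL : Lor G h) {g : GL (Fin 7) ℤ}
    (hg : g.1ᵀ * G * g.1 = G) (hh : bZ G (g.1 *ᵥ h) h < 0) : g ∈ OG G h := by
  rw [mem_OG]
  refine ⟨hg, fun x => ?_⟩
  have hgh : Fwd G h (actR g (toR h)) := by
    refine ⟨?_, ?_⟩
    · rw [bR_act hg]
      exact (fwd_h hL).1
    · rw [actR_toR, bR_toR]
      exact_mod_cast hh
  constructor
  · intro hx
    refine fwd_of_neg hL hgh ?_ ?_
    · rw [bR_act hg]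
      exact hx.1
    · rw [bR_act hg]
      exact hx.2
  · intro hx
    refine ⟨?_, ?_⟩
    · rw [← bR_act hg]
      exact hx.1
    · rw [← bR_act hg]
      exact neg_of_fwd hL hx hgh

/-- Cauchy-Schwarz on the orthogonal complement of a negative vector. -/
theorem y1_cs {G : Matrix (Fin 7) (Fin 7) ℤ} {h : Fin 7 → ℤ} (hL : Lor G h)
    {y u v : Fin 7 → ℝ} (hy : bR G y y < 0) (hu : bR G u y = 0) (hv : bR G v y = 0) :
    bR G u v ^ 2 ≤ bR G u u * bR G v v := by
  have hnn : ∀ w, bR G w y = 0 → 0 ≤ bR G w w := by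
    intro w hw
    by_cases h0 : w = 0
    · rw [h0, bR_zero_left]
    · exact (pos_of_orth hL hy hw h0).le
  by_cases hv0 : v = 0
  · rw [hv0, bR_zero_right, bR_zero_right]
    simp
  · have hvp : 0 < bR G v v := pos_of_orth hL hy hv hv0
    have hw : bR G (u - (bR G u v / bR G v v) • v) y = 0 := by
      rw [bR_sub_left, bR_smul_left, hu, hv]
      ring
    have h1 := hnn _ hw
    have hs : bR G v u = bR G u v := bR_symm hL.symm v u
    rw [bR_sub_left, bR_sub_right, bR_sub_right, bR_smul_left, bR_smul_left, bR_smul_right,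
      bR_smul_right, hs] at h1
    have h2 : bR G u u - bR G u v / bR G v v * bR G u v -
        (bR G u v / bR G v v * bR G u v -
          bR G u v / bR G v v * (bR G u v / bR G v v * bR G v v)) =
        (bR G u u * bR G v v - bR G u v ^ 2) / bR G v v := by
      field_simp
      ring
    rw [h2] at h1
    have h3 : 0 ≤ bR G u u * bR G v v - bR G u v ^ 2 := by
      by_contra hc
      push Not at hc
      have := div_neg_of_neg_of_pos hc hvp
      linarith
    linarith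

theorem y1_bound {G : Matrix (Fin 7) (Fin 7) ℤ} {h : Fin 7 → ℤ} (hL : Lor G h)
    {x : Fin 7 → ℤ} (η : Fin 7 → ℤ) (hx : bZ G x x < 0) :
    ∃ C : ℝ, 0 ≤ C ∧ ∀ r, IsRoot G r → bZ G r x ≠ 0 →
      |(bZ G r η : ℝ)| ≤ C * |(bZ G r x : ℝ)| := by
  have hxR : bR G (toR x) (toR x) < 0 := by
    rw [bR_toR]; exact_mod_cast hx
  set N : ℝ := bR G (toR x) (toR x) with hN
  have hN1 : N ≤ -1 := by
    rw [hN, bR_toR]
    have : bZ G x x ≤ -1 := by omega
    exact_mod_cast this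
  set β : ℝ := bR G (toR η) (toR x) / N with hβ
  set η' : Fin 7 → ℝ := toR η - β • toR x with hη'
  have hη'x : bR G η' (toR x) = 0 := by
    rw [hη', bR_sub_left, bR_smul_left, ← hN, hβ]
    have hN0 : N ≠ 0 := by linarith
    field_simp
    ring
  set q : ℝ := bR G η' η' with hq
  have hq0 : 0 ≤ q := by
    by_cases h0 : η' = 0
    · rw [hq, h0, bR_zero_left]
    · exact (pos_of_orth hL hxR hη'x h0).le
  set D : ℝ := 2 * |(G.det : ℝ)| with hD
  have hD0 : 0 ≤ D := by positivity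
  refine ⟨|β| + √((D + 1) * q), by positivity, ?_⟩
  intro r hr hrx
  have hrr : (bZ G r r : ℝ) ≤ D := by
    have h1 := root_norm_dvd hr
    have h2 : 2 * G.det ≠ 0 := by
      have := det_ne hL
      omega
    have h3 := Int.le_of_dvd (abs_pos.2 h2) ((dvd_abs _ _).2 h1)
    have h4 : (bZ G r r : ℝ) ≤ ((|2 * G.det| : ℤ) : ℝ) := by exact_mod_cast h3
    refine h4.trans (le_of_eq ?_)
    rw [hD]
    push_cast
    rw [abs_mul]
    norm_num
  set a : ℝ := bR G (toR r) (toR x) with ha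
  have haZ : a = (bZ G r x : ℝ) := by rw [ha, bR_toR]
  have ha1 : 1 ≤ a ^ 2 := by
    rw [haZ]
    have h5 : 1 ≤ (bZ G r x) ^ 2 := by
      have := Int.one_le_abs hrx
      have h6 : (bZ G r x) ^ 2 = |bZ G r x| ^ 2 := by rw [sq_abs]
      rw [h6]
      nlinarith
    exact_mod_cast h5
  have hN0 : N ≠ 0 := by linarith
  set r' : Fin 7 → ℝ := toR r - (a / N) • toR x with hr'
  have hr'x : bR G r' (toR x) = 0 := by
    rw [hr', bR_sub_left, bR_smul_left, ← hN, ← ha]
    field_simp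
    ring
  have hxr : bR G (toR x) (toR r) = a := by rw [ha]; exact bR_symm hL.symm _ _
  have hr'r' : bR G r' r' ≤ (D + 1) * a ^ 2 := by
    have h7 : bR G r' r' = (bZ G r r : ℝ) - a ^ 2 / N := by
      have h8 : bR G r' r' = bR G r' (toR r) - (a / N) * bR G r' (toR x) := by
        conv_lhs => rw [hr']
        rw [bR_sub_right, bR_smul_right]
      rw [h8, hr'x, hr', bR_sub_left, bR_smul_left, hxr, bR_toR]
      field_simp
      ring
    rw [h7]
    have h9 : -(a ^ 2 / N) ≤ a ^ 2 := by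
      rw [← neg_div, neg_eq_neg_one_mul, mul_div_assoc, neg_one_mul, ← div_neg]
      rw [div_le_iff₀ (by linarith)]
      nlinarith [sq_nonneg a]
    nlinarith
  have hxη : bR G (toR x) η' = 0 := by rw [bR_symm hL.symm]; exact hη'x
  have hrη : (bZ G r η : ℝ) = bR G r' η' + a * β := by
    have h10 : bR G r' η' = bR G (toR r) η' := by
      rw [hr', bR_sub_left, bR_smul_left, hxη]
      ring
    rw [h10, hη', bR_sub_right, bR_smul_right, ← ha, bR_toR]
    ring
  have hcs := y1_cs hL hxR hr'x hη'x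
  have h11 : |bR G r' η'| ≤ √((D + 1) * q) * |a| := by
    have h12 : bR G r' η' ^ 2 ≤ (D + 1) * q * a ^ 2 := by
      refine hcs.trans ?_
      rw [← hq]
      calc bR G r' r' * q ≤ (D + 1) * a ^ 2 * q := mul_le_mul_of_nonneg_right hr'r' hq0
        _ = (D + 1) * q * a ^ 2 := by ring
    have h13 := Real.abs_le_sqrt h12
    rw [Real.sqrt_mul (by positivity), Real.sqrt_sq_eq_abs] at h13
    exact h13
  rw [hrη, ← haZ]
  calc |bR G r' η' + a * β| ≤ |bR G r' η'| + |a * β| := abs_add_le _ _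
    _ ≤ √((D + 1) * q) * |a| + |a| * |β| := by rw [abs_mul a β]; linarith
    _ = (|β| + √((D + 1) * q)) * |a| := by ring

/-- Row [RH-Y1]: a small perturbation.

Proof.  For a root `r`, `(r,r) ≤ D := 2|det G|` (`root_norm_dvd`; `(r,r)` divides `2 det G ≠ 0`).  Let
`H = toR x`, `(x,x) < 0`; `r = α x + r'`, `α = (r,x)/(x,x)`, `(r',x) = 0`,
`(r',r') = (r,r) - α² (x,x) = (r,r) + (r,x)²/|(x,x)| ≤ D + (r,x)²`.  Write `η = β x + η'`,
`(η',x) = 0`.  `(r,η) = (r,x) β + (r',η')` and `|(r',η')| ≤ √((r',r')(η',η'))` (Cauchy-Schwarz on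
`x^⊥`, which is positive definite by `pos_of_orth`).  If `(r,x) ≠ 0` then `|(r,x)| ≥ 1`, so
`(r',r') ≤ (D+1)(r,x)²` and `|(r,η)| ≤ C |(r,x)|` with `C = |β| + √((D+1)(η',η'))`.  Choose
`0 < ε < 1/(C+1)` such that also `c = x + ε η` is forward (an open condition at `ε = 0`).
If `(r,x) ≠ 0`, `(r,c) = (r,x) + ε (r,η)` has the sign of `(r,x)`.  If `(r,x) = 0`, then
`(r,c) = ε (r,η)`. -/
theorem exists_pert {G : Matrix (Fin 7) (Fin 7) ℤ} {h : Fin 7 → ℤ} (hL : Lor G h)
    {x η : Fin 7 → ℤ} (hx : bZ G x x < 0) (hxh : bZ G x h < 0)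
    (hg : ∀ r, IsRoot G r → bZ G r x ≠ 0 ∨ bZ G r η ≠ 0) :
    ∃ c, Fwd G h c ∧ Gen G c ∧ ∀ r, IsRoot G r → (0 < bR G (toR r) c ↔ PosX G x η r) := by
  obtain ⟨C, hC0, hC⟩ := y1_bound hL η hx
  -- small ε
  have hxR : (bZ G x x : ℝ) < 0 := by exact_mod_cast hx
  have hxhR : (bZ G x h : ℝ) < 0 := by exact_mod_cast hxh
  set M : ℝ := 2 * |(bZ G x η : ℝ)| + |(bZ G η η : ℝ)| + |(bZ G η h : ℝ)| + C + 1 with hM
  have hM1 : 1 ≤ M := by
    have h1 := abs_nonneg (bZ G x η : ℝ)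
    have h2 := abs_nonneg (bZ G η η : ℝ)
    have h3 := abs_nonneg (bZ G η h : ℝ)
    linarith
  set ε : ℝ := 1 / (2 * M) with hε
  have hεpos : 0 < ε := by positivity
  have hεM : ε * M = 1 / 2 := by
    rw [hε]
    field_simp
  have hε1 : ε ≤ 1 := by nlinarith
  have hxx1 : (bZ G x x : ℝ) ≤ -1 := by
    have : bZ G x x ≤ -1 := by omega
    exact_mod_cast this
  have hxh1 : (bZ G x h : ℝ) ≤ -1 := by
    have : bZ G x h ≤ -1 := by omega
    exact_mod_cast this
  have hform : ∀ y : Fin 7 → ℤ, bR G (toR y) (toR x + ε • toR η) =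
      (bZ G y x : ℝ) + ε * (bZ G y η : ℝ) := by
    intro y
    rw [bR_add_right, bR_smul_right, bR_toR, bR_toR]
  have hA1 := abs_nonneg (bZ G x η : ℝ)
  have hA2 := abs_nonneg (bZ G η η : ℝ)
  have hA3 := abs_nonneg (bZ G η h : ℝ)
  have hB1 := le_abs_self (bZ G x η : ℝ)
  have hB2 := le_abs_self (bZ G η η : ℝ)
  have hB3 := le_abs_self (bZ G η h : ℝ)
  have hfwd : Fwd G h (toR x + ε • toR η) := by
    refine ⟨?_, ?_⟩
    · rw [bR_add_left, bR_smul_left, hform, hform, bZ_symm hL.symm η x]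
      have h1 : ε * (2 * |(bZ G x η : ℝ)| + |(bZ G η η : ℝ)|) ≤ ε * M := by
        apply mul_le_mul_of_nonneg_left _ hεpos.le
        linarith
      have h2 : ε * (ε * (bZ G η η : ℝ)) ≤ ε * |(bZ G η η : ℝ)| := by
        apply mul_le_mul_of_nonneg_left _ hεpos.le
        calc ε * (bZ G η η : ℝ) ≤ ε * |(bZ G η η : ℝ)| :=
              mul_le_mul_of_nonneg_left hB2 hεpos.le
          _ ≤ 1 * |(bZ G η η : ℝ)| := mul_le_mul_of_nonneg_right hε1 hA2
          _ = _ := one_mul _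
      have h3 : ε * (bZ G x η : ℝ) ≤ ε * |(bZ G x η : ℝ)| :=
        mul_le_mul_of_nonneg_left hB1 hεpos.le
      have h4 : ε * ((bZ G x η : ℝ) + ε * (bZ G η η : ℝ)) =
        ε * (bZ G x η : ℝ) + ε * (ε * (bZ G η η : ℝ)) := by ring
      rw [h4]
      have h5 : ε * (2 * |(bZ G x η : ℝ)| + |(bZ G η η : ℝ)|) =
        2 * (ε * |(bZ G x η : ℝ)|) + ε * |(bZ G η η : ℝ)| := by ring
      rw [h5] at h1
      linarith
    · rw [bR_add_left, bR_smul_left, bR_toR, bR_toR]
      have h1 : ε * |(bZ G η h : ℝ)| ≤ ε * M := by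
        apply mul_le_mul_of_nonneg_left _ hεpos.le
        linarith
      have h3 : ε * (bZ G η h : ℝ) ≤ ε * |(bZ G η h : ℝ)| :=
        mul_le_mul_of_nonneg_left hB3 hεpos.le
      linarith
  have hεC : ε * C ≤ 1 / 2 := by
    rw [← hεM]
    apply mul_le_mul_of_nonneg_left _ hεpos.le
    linarith
  have hsmall : ∀ r, IsRoot G r → bZ G r x ≠ 0 →
      |ε * (bZ G r η : ℝ)| ≤ 1 / 2 * |(bZ G r x : ℝ)| := by
    intro r hr hrx
    rw [abs_mul, abs_of_pos hεpos]
    calc ε * |(bZ G r η : ℝ)| ≤ ε * (C * |(bZ G r x : ℝ)|) :=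
          mul_le_mul_of_nonneg_left (hC r hr hrx) hεpos.le
      _ = (ε * C) * |(bZ G r x : ℝ)| := by ring
      _ ≤ 1 / 2 * |(bZ G r x : ℝ)| := mul_le_mul_of_nonneg_right hεC (abs_nonneg _)
  refine ⟨toR x + ε • toR η, hfwd, ?_, ?_⟩
  · intro r hr
    rw [hform]
    by_cases hrx : bZ G r x = 0
    · rcases hg r hr with h1 | h1
      · exact absurd hrx h1
      · rw [hrx]
        have h2 : (bZ G r η : ℝ) ≠ 0 := by exact_mod_cast h1
        simp only [Int.cast_zero, zero_add]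
        exact mul_ne_zero hεpos.ne' h2
    · intro h0
      have h1 := hsmall r hr hrx
      have h2 : (bZ G r x : ℝ) ≠ 0 := by exact_mod_cast hrx
      have h3 : |(bZ G r x : ℝ)| = |ε * (bZ G r η : ℝ)| := by
        rw [eq_neg_of_add_eq_zero_left h0, abs_neg]
      have h4 := abs_pos.2 h2
      linarith
  · intro r hr
    rw [hform]
    unfold PosX
    by_cases hrx : bZ G r x = 0
    · rw [hrx]
      simp only [Int.cast_zero, zero_add, lt_self_iff_false, true_and, false_or]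
      rw [mul_pos_iff_of_pos_left hεpos]
      exact Int.cast_pos
    · have h1 := hsmall r hr hrx
      have h2 := (abs_le.1 h1)
      have h5 : (bZ G r x = 0) = False := by simp [hrx]
      rw [h5]
      simp only [false_and, or_false]
      rcases lt_or_gt_of_ne hrx with h3 | h3
      · have h3R : (bZ G r x : ℝ) < 0 := by exact_mod_cast h3
        rw [abs_of_neg h3R] at h2
        constructor
        · intro h4
          exfalso
          linarith [h2.2]
        · intro h4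
          omega
      · have h3R : (0 : ℝ) < (bZ G r x : ℝ) := by exact_mod_cast h3
        rw [abs_of_pos h3R] at h2
        constructor
        · intro _
          exact h3
        · intro _
          linarith [h2.1]

/-- Row [RH-Y1]: Proof: `c` from `exists_pert`; for a root `r`,
`(r, g c) = (g⁻¹ r, c) > 0` iff `PosX G x η (g⁻¹ r)` iff `PosX G (g x) (g η) r`.  Apply `not_tor`. -/
theorem not_tor_chain {G : Matrix (Fin 7) (Fin 7) ℤ} {h : Fin 7 → ℤ} (hL : Lor G h)
    {g : GL (Fin 7) ℤ} (hg : g ∈ OG G h) (hinf : ∀ m : ℕ, 0 < m → g ^ m ≠ 1)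
    {x η : Fin 7 → ℤ} (hx : bZ G x x < 0) (hxh : bZ G x h < 0)
    (hS : StepX G x η (g.1 *ᵥ x) (g.1 *ᵥ η)) :
    ¬ ∀ g ∈ OG G h, ∃ m : ℕ, 0 < m ∧ g ^ m ∈ WG G := by
  obtain ⟨c, hc, hgen, hpos⟩ := exists_pert hL hx hxh hS.gen
  have hg1 := (mem_OG.1 hg).1
  have hg' : g⁻¹ ∈ OG G h := (OG G h).inv_mem hg
  have hg2 := (mem_OG.1 hg').1
  refine not_tor hL hg hinf hc hgen ?_
  intro r hr hrc
  have hback : g.1 *ᵥ ((g⁻¹).1 *ᵥ r) = r := by
    apply toR_inj
    rw [← actR_toR, ← actR_toR, actR_act_inv]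
  have hroot : IsRoot G ((g⁻¹).1 *ᵥ r) := root_map hg2 hr
  have hbZ : ∀ y : Fin 7 → ℤ, bZ G r (g.1 *ᵥ y) = bZ G ((g⁻¹).1 *ᵥ r) y := by
    intro y
    have h1 := bZ_act hg1 ((g⁻¹).1 *ᵥ r) y
    rw [hback] at h1
    exact h1
  have h1 : PosX G x η r := (hpos r hr).1 hrc
  have h2 := hS.step r hr h1
  have h3 : PosX G x η ((g⁻¹).1 *ᵥ r) := by
    unfold PosX at h2 ⊢
    rw [hbZ, hbZ] at h2
    exact h2
  have h4 := (hpos _ hroot).2 h3
  rw [bR_act_right hg1, actR_toR]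
  exact h4

end RH6
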