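import Pool.Agent.RH6.UDef

open Matrix

namespace RH6

/-- `r` is positive at points near `x` in the direction `η` -/
def PosX (G : Matrix (Fin 7) (Fin 7) ℤ) (x η r : Fin 7 → ℤ) : Prop :=
  0 < bZ G r x ∨ (bZ G r x = 0 ∧ 0 < bZ G r η)

/-- the point near `x` in the direction `η` is generic, and no root separates it from the point
near `x'` in the direction `η'` -/
structure StepX (G : Matrix (Fin 7) (Fin 7) ℤ) (x η x' η' : Fin 7 → ℤ) : Prop where
  gen : ∀ r, IsRoot G r → bZ G r x ≠ 0 ∨ bZ G r η ≠ 0
  step : ∀ r, IsRoot G r → PosX G x η r → PosX G x' η' r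

/-- all `y = y₀ + q k` while `f y ≤ rem` -/
def loopM (f : Nat → Nat) (q rem : Nat) (F : Nat → Bool) : Nat → Nat → Bool
  | 0, _ => false
  | Nat.succ k, y =>
    bif Nat.ble (f y) rem then F y && loopM f q rem F k (Nat.add y q) else true

/-- like `bsrch`, with a test `P` for the list of all coordinates -/
def vsrch (P : List Int → Bool) : List (Nat × List Int) → Nat → List Int → List Int → Bool
  | [], rem, _, acc => !Nat.beq rem 0 || P acc.reverse
  | (c, h) :: l, rem, base, acc =>
    (fun (b q : Int) => (fun r : Nat =>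
      loopN c q.toNat rem (fun y => vsrch P l (rem - c * (y * y))
        (addL base.tail (sclL (((y : Int) - b) / q) h.tail)) ((y : Int) :: acc)) 200 r &&
      loopN c q.toNat rem (fun y => vsrch P l (rem - c * (y * y))
        (addL base.tail (sclL ((-(y : Int) - b) / q) h.tail)) (-(y : Int) :: acc)) 200
          (q.toNat - r))
      (b % q).toNat) (base.headD 0) (h.headD 0)

def posI : Int → Bool
  | Int.ofNat (Nat.succ _) => true
  | _ => false

/-- the test for `W = [a, b, w_1, …, w_5]`, `a ≥ 0 ≥ b`; `α·W`, `β·W` have the signs of `(r,η)`,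
`(r,η')` -/
def leafS (α β W : List Int) : Bool :=
  (fun a b s t : Int => (!eqI a 0 || !eqI s 0) && (!(posI a || posI s) || (eqI b 0 && posI t)))
    (W.headD 0) (W.tail.headD 0) (dotL α W) (dotL β W)

structure SRec where
  n : Nat
  H : List (List Int)
  P : List (List Int)
  Q : List (List Int)

structure SCert where
  G : List (List Int)
  e : Nat
  E : List (List Int)
  x : List Int
  x' : List Int
  η : List Int
  η' : List Int
  F : List (List Int)
  D : Nat
  c : List Nat
  A : Nat
  K : Nat
  B : Nat
  κ : Int
  α : List Int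
  κ' : Int
  β : List Int
  recs : List SRec

/-- the seven vectors `x, x', f_1, …, f_5` -/
def SCert.V (C : SCert) : List (List Int) := C.x :: C.x' :: C.F

def srchS (C : SCert) (n : Nat) (H : List (List Int)) : Bool :=
  (fun (R : Nat) (h0 h1 : List Int) => (fun q0 q1 : Nat =>
    loopM (fun a => C.A * (a * a)) q0 R (fun a =>
      (fun base : List Int =>
        loopM (fun z => C.A * (a * a) + 2 * C.K * (a * z) + C.B * (z * z)) q1 R (fun z =>
          vsrch (leafS C.α C.β)
            ((List.range 5).map fun i => (C.c.getD i 0, (H.getD (i + 2) []).drop (i + 2)))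
            (R - (C.A * (a * a) + 2 * C.K * (a * z) + C.B * (z * z)))
            (addL base.tail (sclL ((-(z : Int) - base.headD 0) / (q1 : Int)) h1.tail))
            [-(z : Int), (a : Int)]) 200 ((-(base.headD 0)) % (q1 : Int)).toNat)
        (sclL ((a : Int) / (q0 : Int)) h0.tail)) 200 0)
    (h0.headD 0).toNat (h1.headD 0).toNat) (4 * C.D / n) (H.getD 0 []) ((H.getD 1 []).drop 1)

def idH7 : List (List Int) := scal 1

def recS (C : SCert) (r : SRec) : Bool :=
  len77 r.H && len77 r.P && len77 r.Q &&
  (List.range 7).all (fun j => decide (0 < (r.H.getD j []).getD j 0) &&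
    (List.range j).all fun i => eqI ((r.H.getD j []).getD i 0) 0) &&
  (fun ψ : List (List Int) => (List.range 7).all fun i =>
    eqL (sclL 2 (combL (C.V.getD i []) C.G))
      (combL ((List.range 7).map fun j => (r.H.getD j []).getD i 0) ψ))
    ((List.range 7).map fun j =>
      addL (sclL 2 (combL (r.P.getD j []) C.G)) (sclL r.n (r.Q.getD j []))) &&
  srchS C r.n r.H

/-- certificate for a step -/
def chkStep (C : SCert) : Bool :=
  isSym C.G && !Nat.beq C.e 0 && len77 C.E && eqLL (mulLL C.G C.E) (scal C.e) && len77 C.V &&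
  Nat.beq C.c.length 5 && (C.c.all fun c => Nat.blt 0 c) &&
  Nat.beq C.η.length 7 && Nat.beq C.η'.length 7 && Nat.beq C.α.length 7 &&
  Nat.beq C.β.length 7 && posI C.κ && posI C.κ' &&
  (fun VG : List (List Int) =>
    eqL (sclL C.κ (combL C.η C.G)) (combL C.α VG) &&
    eqL (sclL C.κ' (combL C.η' C.G)) (combL C.β VG) &&
    (List.range 7).all fun a => (List.range 7).all fun b =>
      eqI (C.D * (C.G.getD a []).getD b 0)
        (dotL (C.A :: C.B :: C.c.map Int.ofNat) (VG.map fun f => f.getD a 0 * f.getD b 0) -
          C.K * ((VG.getD 0 []).getD a 0 * (VG.getD 1 []).getD b 0 +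
            (VG.getD 1 []).getD a 0 * (VG.getD 0 []).getD b 0))) (mulLL C.V C.G) &&
  (List.range (2 * C.e + 1)).all fun n =>
    Nat.beq n 0 || !Nat.beq (2 * C.e % n) 0 || (evenB C.G && Nat.beq (n % 2) 1) ||
    !Nat.beq (4 * C.D % n) 0 || (C.recs.any fun r => Nat.beq r.n n && recS C r) || srchS C n idH7

/-- product of a matrix and a column vector -/
def actL (U : List (List Int)) (x : List Int) : List Int := U.map fun r => dotL r x

def trL (U : List (List Int)) : List (List Int) :=
  (List.range 7).map fun i => U.map fun r => r.getD i 0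

/-- the steps form a chain from `(x,η)` to `(y,θ)` -/
def chainB (G : List (List Int)) (x η : List Int) : List SCert → List Int → List Int → Bool
  | [], y, θ => eqL x y && eqL η θ
  | C :: l, y, θ => eqLL C.G G && eqL C.x x && eqL C.η η && chainB G C.x' C.η' l y θ

/-- certificate for an infinite order symmetry `U` of a chamber; `h` forward -/
def chkNR (G : List (List Int)) (h : List Int) (U V : List (List Int)) (z x η : List Int)
    (steps : List SCert) : Bool :=
  isSym G && len77 U && len77 V && eqLL (mulLL U V) (scal 1) &&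
  eqLL (mulLL (trL U) (mulLL G U)) G && Nat.beq h.length 7 && Nat.beq z.length 7 &&
  Nat.beq x.length 7 && Nat.beq η.length 7 &&
  posI (-dotL (actL U h) (actL G h)) && posI (-dotL x (actL G x)) && posI (-dotL x (actL G h)) &&
  (fun t : List Int => !eqL t zero7 && !posI (dotL t (actL G t)))
    (addL (actL U z) (sclL (-1) z)) && !(steps.isEmpty) &&
  chainB G x η steps (actL U x) (actL U η)

end RH6
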