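import Pool.Agent.RH6.YDef
import Pool.Agent.RH6.D04
import Pool.Agent.RH6.E4

open Matrix

namespace RH6

/-! Checks for positive definite forms, polytopes, the maximality data and non-isometry. -/

/-- `D K = Tᵀ diag(c) T`, `T` upper triangular (5 rows of length 5) with nonzero diagonal -/
def pdB (K : List (List Int)) (D : Nat) (c : List Nat) (T : List (List Int)) : Bool :=
  Nat.beq K.length 5 && (K.all fun r => Nat.beq r.length 5) && Nat.beq T.length 5 &&
  (T.all fun r => Nat.beq r.length 5) && Nat.beq c.length 5 && (c.all fun a => Nat.blt 0 a) &&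
  Nat.blt 0 D &&
  ((List.range 5).all fun i => !eqI ((T.getD i []).getD i 0) 0 &&
    (List.range i).all fun j => eqI ((T.getD i []).getD j 0) 0) &&
  (List.range 5).all fun i => (List.range 5).all fun j =>
    eqI (D * (K.getD i []).getD j 0) (dotL (c.map Int.ofNat) (T.map fun r => r.getD i 0 * r.getD j 0))

/-- `(1, -1, 0, …)` -/
def hU : List Int := [1, -1, 0, 0, 0, 0, 0]

/-- `det K`, from the data of `pdB` -/
def detK (D : Nat) (c : List Nat) (T : List (List Int)) : Nat :=
  c.prod * (((List.range 5).map fun i => ((T.getD i []).getD i 0).natAbs).prod) ^ 2 / D ^ 5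

open P in
/-- conditions on the roots of the polytope -/
def rootsOK (D : PD) : Nat → Bool
  | 0 => true
  | Nat.succ e =>
    (fun v : List Int => (fun w : List Int => (fun n : Int =>
      posI n && (w.all fun a => eqI (2 * a % n) 0) &&
      Nat.beq (v.foldl (fun g a => Nat.gcd g a.natAbs) 0) 1) (dotL v w)) (D.G.map (dotL v)))
      (decI 7 (D.Et.get e)) && rootsOK D e

open P in
/-- all checks except the vertices; `ρ` is an interior vector -/
def polyOK (D : PD) (hc : Nat) (ρ : List Int) : Bool :=
  isSym D.G && dataOK D hc && Nat.blt 0 D.m && rootsOK D D.n && Nat.beq ρ.length 7 &&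
  eqL (decI 7 hc) hU && posI (-dotL ρ (actL D.G ρ)) && posI (-dotL ρ (actL D.G hU)) &&
  (List.range D.n).all fun e => posI (-dotL ρ (actL D.G (decI 7 (D.Et.get e))))

/-- certificate for `NoOver` -/
structure OCert where
  p : Nat
  S : List (List Int)
  Z : List (List Int)
  sel : List Nat

/-- maximality data for the form `J = s (U ⊥ K)` -/
structure MCert where
  s : Nat
  K : List (List Int)
  D : Nat
  c : List Nat
  T : List (List Int)
  E : List (List Int)
  b : List Nat
  C : List (List Int)
  par : List Nat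
  e1 : Nat
  E' : List (List Int)
  t : List Int
  ov : List OCert

def MCert.J (M : MCert) : List (List Int) := (hypL 1 M.K).map (sclL M.s)

/-- combination of rows of length 7, any number of rows -/
def combR : List Int → List (List Int) → List Int := combL

/-- the rows `J` and `J E_k / b_k` -/
def MCert.rows (M : MCert) : List (List Int) :=
  M.J ++ (List.range M.E.length).map fun k =>
    (combL (M.E.getD k []) M.J).map fun a => a / ((M.b.getD k 0 : Nat) : Int)

def unitL (i : Nat) : List Int := (List.range 7).map fun j => bif Nat.beq i j then 1 else 0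

def ovB (M : MCert) (o : OCert) : Bool :=
  Nat.blt 1 o.p && Nat.beq o.S.length 7 && (o.S.all fun r => Nat.beq r.length M.rows.length) &&
  Nat.beq o.Z.length o.sel.length && (o.sel.all fun i => Nat.blt i 7) &&
  (o.Z.all fun r => Nat.beq r.length 7) &&
  ((List.range 7).all fun i =>
    (addL (unitL i) (sclL (-1) (addL (combL (o.S.getD i []) M.rows)
      (combL (o.Z.map fun r => r.getD i 0) (o.sel.map unitL))))).all
        fun a => eqI (a % (o.p : Int)) 0) &&
  (match o.Z with
    | [] => true
    | [u] => (List.range o.p).all fun a => Nat.beq a 0 ||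
        (fun w : List Int => !eqI (dotL w (actL M.J w) % (2 * o.p ^ 2 : Int)) 0) (sclL a u)
    | [u, v] => (List.range o.p).all fun a => (List.range o.p).all fun b =>
        (Nat.beq a 0 && Nat.beq b 0) ||
        (fun w : List Int => !eqI (dotL w (actL M.J w) % (2 * o.p ^ 2 : Int)) 0)
          (addL (sclL a u) (sclL b v))
    | _ => false)

/-- no odd `q ≥ 3` with `q ≤ 40` has `q^4 ∣ d`, and the odd part of `d` is `< 40^4` -/
def no4 (d : Nat) : Bool :=
  (List.range 40).all (fun q => Nat.blt q 3 || Nat.beq (q % 2) 0 || !Nat.beq (d % q ^ 4) 0) &&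
  (List.range 12).any fun a => Nat.beq (2 ^ a * (d / 2 ^ a)) d && Nat.blt (d / 2 ^ a) 2560000

def chkMax (M : MCert) : Bool :=
  (Nat.beq M.s 1 || Nat.beq M.s 2) && pdB M.K M.D M.c M.T && isSym M.J && evenB M.J &&
  Nat.beq (detK M.D M.c M.T * M.D ^ 5)
    (M.c.prod * (((List.range 5).map fun i => ((M.T.getD i []).getD i 0).natAbs).prod) ^ 2) &&
  no4 (M.s ^ 7 * detK M.D M.c M.T) &&
  Nat.beq (M.e1 % 2) 1 && sqfB M.e1 && isSym M.E' &&
  eqLL (mulLL M.J M.E') (scal (2 * M.e1)) &&
  -- Odd2
  Nat.beq M.t.length 7 &&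
  ((List.range 7).all fun i =>
    eqI (((M.E'.getD i []).getD i 0 - dotL (M.E'.getD i []) M.t) % 2) 0) &&
  eqI (dotL M.t (actL M.E' M.t) % 2) 1 &&
  -- RS
  Nat.blt 0 M.E.length && Nat.beq M.b.length M.E.length && Nat.beq M.par.length M.E.length &&
  (M.E.all fun v => Nat.beq v.length 7) &&
  ((List.range M.E.length).all fun k => sqfB (M.b.getD k 0) &&
    (fun v : List Int => (fun w : List Int => eqI (dotL v w) (2 * (M.b.getD k 0 : Nat)) &&
      (w.all fun a => eqI (a % ((M.b.getD k 0 : Nat) : Int)) 0) &&
      (Nat.beq k 0 || (Nat.blt (M.par.getD k 0) k &&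
        !eqI (dotL (M.E.getD (M.par.getD k 0) []) w) 0))) (actL M.J v)) (M.E.getD k [])) &&
  Nat.beq M.C.length 7 && (M.C.all fun r => Nat.beq r.length M.E.length) &&
  ((List.range 7).all fun i => eqL (combL (M.C.getD i []) M.E) (unitL i)) &&
  -- overlattices
  (M.ov.all fun o => ovB M o) &&
  ((List.range (2 * M.e1 + 1)).all fun q => Nat.blt q 2 || !Nat.beq (2 * M.e1 % q) 0 ||
    (M.ov.any fun o => Nat.beq o.p q) ||
    (List.range q).any fun d => Nat.blt 1 d && Nat.beq (q % d) 0)

/-- certificate: `J ≡ Wᵀ diag(d) W`, `V'ᵀ J' V' ≡ diag(d')` mod `p`, `∏ d ∏ d'` is not a square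
mod `p`; `W`: `k` rows of length 7; `V'`: the `k` columns of length 7 -/
structure PCert where
  p : Nat
  W : List (List Int)
  d : List Int
  V : List (List Int)
  d' : List Int

def chkPair (J J' : List (List Int)) (C : PCert) : Bool :=
  (Nat.beq C.p 3 || Nat.beq C.p 5) && isSym J && isSym J' &&
  Nat.beq C.d.length C.W.length && Nat.beq C.d'.length C.W.length &&
  Nat.beq C.V.length C.W.length && (C.W.all fun r => Nat.beq r.length 7) &&
  (C.V.all fun r => Nat.beq r.length 7) &&
  ((List.range 7).all fun i => (List.range 7).all fun j =>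
    eqI (((J.getD i []).getD j 0 - dotL C.d (C.W.map fun r => r.getD i 0 * r.getD j 0)) % C.p) 0) &&
  ((List.range C.W.length).all fun i => (List.range C.W.length).all fun j =>
    eqI ((dotL (C.V.getD i []) (actL J' (C.V.getD j [])) -
      (bif Nat.beq i j then C.d'.getD i 0 else 0)) % C.p) 0) &&
  (List.range C.p).all fun a => !eqI ((C.d.prod * C.d'.prod - a * a) % C.p) 0

end RH6
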